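import Pool.Agent.Lib.MP_a9445a_lc.BE.Defs
import Pool.Agent.Lib.MP_a9445a_lc.BE.Lang

section

/-! Elimination of one variable: determinants. -/

set_option autoImplicit false

open Finset

namespace Pool.Agent.MPa9445a.BE

/-- The matrix after the elimination of the variable `0`: `B₀ + 2 b bᵀ`. -/
def elim {k : ℕ} (B : Matrix (Fin (k + 1)) (Fin (k + 1)) ℝ) : Matrix (Fin k) (Fin k) ℝ :=
  fun i j => B i.succ j.succ + 2 * B i.succ 0 * B 0 j.succ

private theorem M1a_posDef_iff {m : ℕ} (N : Matrix (Fin m) (Fin m) ℝ) :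
    N.PosDef ↔ (∀ i j, N i j = N j i) ∧
      ∀ x : Fin m → ℝ, x ≠ 0 → 0 < ∑ i, ∑ j, N i j * x i * x j := by
  have hQ : ∀ x : Fin m → ℝ, star x ⬝ᵥ N.mulVec x = ∑ i, ∑ j, N i j * x i * x j := by
    intro x
    simp only [dotProduct, Matrix.mulVec, Pi.star_apply, star_trivial, Finset.mul_sum]
    exact Finset.sum_congr rfl fun i _ => Finset.sum_congr rfl fun j _ => by ring
  rw [Matrix.posDef_iff_dotProduct_mulVec]
  constructor
  · rintro ⟨h1, h2⟩
    refine ⟨fun i j => ?_, fun x hx => ?_⟩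
    · have h3 := h1.apply i j
      rw [star_trivial] at h3
      exact h3.symm
    · rw [← hQ]
      exact h2 hx
  · rintro ⟨h1, h2⟩
    refine ⟨Matrix.IsHermitian.ext fun i j => ?_, fun x hx => ?_⟩
    · rw [star_trivial]
      exact h1 j i
    · rw [hQ]
      exact h2 x hx

/-- The Schur complement of the entry `0, 0`. -/
private noncomputable def M1a_sch {k : ℕ} (M : Matrix (Fin (k + 1)) (Fin (k + 1)) ℝ) :
    Matrix (Fin k) (Fin k) ℝ :=
  fun i j => M i.succ j.succ - M i.succ 0 * M 0 j.succ / M 0 0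

private theorem M1a_pos {m : ℕ} {N : Matrix (Fin (m + 1)) (Fin (m + 1)) ℝ} (h : N.PosDef) :
    0 < N 0 0 := by
  have h2 := ((M1a_posDef_iff N).1 h).2 (Pi.single 0 1) (by simp)
  simpa [Pi.single_apply] using h2

private theorem M1a_sch_posDef {k : ℕ} {M : Matrix (Fin (k + 1)) (Fin (k + 1)) ℝ}
    (h : M.PosDef) : (M1a_sch M).PosDef := by
  have hc := M1a_pos h
  obtain ⟨hs, hp⟩ := (M1a_posDef_iff M).1 h
  refine (M1a_posDef_iff _).2 ⟨fun i j => ?_, fun y hy => ?_⟩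
  · simp only [M1a_sch]
    rw [hs i.succ j.succ, hs i.succ 0, hs 0 j.succ]
    ring
  · have hS : ∑ i : Fin k, M i.succ 0 * y i = ∑ j : Fin k, M 0 j.succ * y j :=
      Finset.sum_congr rfl fun i _ => by rw [hs i.succ 0]
    have h1 := hp (Fin.cons (-(∑ j : Fin k, M 0 j.succ * y j) / M 0 0) y) (by
      intro h0
      apply hy
      funext i
      have h2 := congrFun h0 i.succ
      simpa using h2)
    simp only [Fin.sum_univ_succ, Fin.cons_zero, Fin.cons_succ] at h1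
    rw [Finset.sum_add_distrib] at h1
    have e1 : ∀ x0 : ℝ, ∑ j : Fin k, M 0 j.succ * x0 * y j =
        x0 * ∑ j : Fin k, M 0 j.succ * y j := by
      intro x0
      rw [Finset.mul_sum]
      exact Finset.sum_congr rfl fun j _ => by ring
    have e2 : ∀ x0 : ℝ, ∑ i : Fin k, M i.succ 0 * y i * x0 =
        x0 * ∑ j : Fin k, M 0 j.succ * y j := by
      intro x0
      rw [← hS, Finset.mul_sum]
      exact Finset.sum_congr rfl fun j _ => by ring
    rw [e1, e2] at h1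
    have e3 : ∑ i : Fin k, ∑ j : Fin k, M1a_sch M i j * y i * y j =
        (∑ i : Fin k, ∑ j : Fin k, M i.succ j.succ * y i * y j) -
        (∑ j : Fin k, M 0 j.succ * y j) * (∑ j : Fin k, M 0 j.succ * y j) / M 0 0 := by
      have e4 : (∑ j : Fin k, M 0 j.succ * y j) * (∑ j : Fin k, M 0 j.succ * y j) / M 0 0 =
          ∑ i : Fin k, ∑ j : Fin k, M i.succ 0 * M 0 j.succ / M 0 0 * y i * y j := by
        conv_lhs => rw [← hS, hS]
        nth_rewrite 1 [← hS]
        rw [Finset.sum_mul_sum, Finset.sum_div]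
        refine Finset.sum_congr rfl fun i _ => ?_
        rw [Finset.sum_div]
        exact Finset.sum_congr rfl fun j _ => by ring
      rw [e4, ← Finset.sum_sub_distrib]
      refine Finset.sum_congr rfl fun i _ => ?_
      rw [← Finset.sum_sub_distrib]
      refine Finset.sum_congr rfl fun j _ => ?_
      simp only [M1a_sch]
      ring
    rw [e3]
    have hc' : M 0 0 ≠ 0 := hc.ne'
    have e5 : M 0 0 * (-(∑ j : Fin k, M 0 j.succ * y j) / M 0 0) *
        (-(∑ j : Fin k, M 0 j.succ * y j) / M 0 0) =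
        (∑ j : Fin k, M 0 j.succ * y j) * (∑ j : Fin k, M 0 j.succ * y j) / M 0 0 := by
      field_simp
    have e6 : -(∑ j : Fin k, M 0 j.succ * y j) / M 0 0 * (∑ j : Fin k, M 0 j.succ * y j) =
        -((∑ j : Fin k, M 0 j.succ * y j) * (∑ j : Fin k, M 0 j.succ * y j) / M 0 0) := by
      ring
    rw [e5, e6] at h1
    linarith

private theorem M1a_sch_det {k : ℕ} {M : Matrix (Fin (k + 1)) (Fin (k + 1)) ℝ}
    (h : M 0 0 ≠ 0) : M.det = M 0 0 * (M1a_sch M).det := by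
  let c : Fin (k + 1) → ℝ := Fin.cons 0 fun i => -(M i.succ 0 / M 0 0)
  let A : Matrix (Fin (k + 1)) (Fin (k + 1)) ℝ := fun i j => M i j + c i * M 0 j
  have h1 : A.det = M.det :=
    Matrix.det_eq_of_forall_row_eq_smul_add_const c 0 rfl fun i j => rfl
  rw [← h1, Matrix.det_succ_column_zero, Fin.sum_univ_succ, Finset.sum_eq_zero]
  · have h2 : A.submatrix (Fin.succAbove 0) Fin.succ = M1a_sch M := by
      ext i j
      rw [Matrix.submatrix_apply, Fin.succAbove_zero]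
      change M i.succ j.succ + -(M i.succ 0 / M 0 0) * M 0 j.succ =
        M i.succ j.succ - M i.succ 0 * M 0 j.succ / M 0 0
      ring
    rw [h2]
    have h3 : A 0 0 = M 0 0 := by
      simp [A, c]
    rw [h3]
    simp
  · intro i _
    have h2 : A i.succ 0 = 0 := by
      simp only [A, c, Fin.cons_succ]
      field_simp
      ring
    rw [h2]
    ring

private theorem M1a_one_sub {k : ℕ} (B : Matrix (Fin (k + 1)) (Fin (k + 1)) ℝ)
    (hc : 1 - 2 * B 0 0 ≠ 0) (i j : Fin k) :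
    ((1 : Matrix (Fin k) (Fin k) ℝ) - (2 : ℝ) • elim B) i j =
      M1a_sch ((1 : Matrix _ _ ℝ) - (2 : ℝ) • B) i j +
        4 * (1 / (1 - 2 * B 0 0) - 1) * B i.succ 0 * B 0 j.succ := by
  simp only [Matrix.sub_apply, Matrix.smul_apply, smul_eq_mul, elim, M1a_sch, Matrix.one_apply,
    Fin.succ_inj, Fin.succ_ne_zero, (Fin.succ_ne_zero _).symm, if_false, if_true]
  field_simp
  ring

/-- PROOF. Let `β = B 0 0`, `b i = B i.succ 0`, `B₀ i j = B i.succ j.succ`. `1 - 2 β > 0` (diagonal entry of a positive definite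
matrix). The Schur complement `C = (1 - 2 B₀) - (4 / (1 - 2 β)) b bᵀ` is positive definite and
`det (1 - 2 B) = (1 - 2 β) det C` (`Matrix.det_fromBlocks₁₁`, `Matrix.PosDef.fromBlocks₁₁` or a direct computation: for
`y : Fin k → ℝ` take `z = (x₀, y)` with `x₀ = (2 / (1 - 2 β)) ∑ b i y i`, then `zᵀ (1 - 2 B) z = yᵀ C y`; for the determinant:
subtract multiples of the row `0`, `Matrix.det_succ_column_zero`, or reindex `Fin (k + 1) ≃ Fin 1 ⊕ Fin k`).
`1 - 2 elim B = (1 - 2 B₀) - 4 b bᵀ = C + s b bᵀ`, `s = 4 / (1 - 2 β) - 4 ≥ 0`, so it is positive definite. -/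
theorem elim_posDef {k : ℕ} (B : Matrix (Fin (k + 1)) (Fin (k + 1)) ℝ)
    (hs : ∀ i j, B i j = B j i) (h : ((1 : Matrix _ _ ℝ) - (2 : ℝ) • B).PosDef) (h0 : 0 ≤ B 0 0) :
    ((1 : Matrix _ _ ℝ) - (2 : ℝ) • elim B).PosDef := by
  have hc0 := M1a_pos h
  have hc : 0 < 1 - 2 * B 0 0 := by
    simpa [Matrix.sub_apply, Matrix.smul_apply] using hc0
  have hC := (M1a_posDef_iff _).1 (M1a_sch_posDef h)
  refine (M1a_posDef_iff _).2 ⟨fun i j => ?_, fun y hy => ?_⟩
  · rw [M1a_one_sub B hc.ne', M1a_one_sub B hc.ne', hC.1 i j, hs i.succ 0, hs 0 j.succ]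
    ring
  · have h1 := hC.2 y hy
    have h2 : ∑ i, ∑ j, ((1 : Matrix (Fin k) (Fin k) ℝ) - (2 : ℝ) • elim B) i j * y i * y j =
        (∑ i, ∑ j, M1a_sch ((1 : Matrix _ _ ℝ) - (2 : ℝ) • B) i j * y i * y j) +
        4 * (1 / (1 - 2 * B 0 0) - 1) * (∑ i : Fin k, B i.succ 0 * y i) ^ 2 := by
      have e1 : 4 * (1 / (1 - 2 * B 0 0) - 1) * (∑ i : Fin k, B i.succ 0 * y i) ^ 2 =
          ∑ i : Fin k, ∑ j : Fin k,
            4 * (1 / (1 - 2 * B 0 0) - 1) * B i.succ 0 * B 0 j.succ * y i * y j := by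
        rw [sq, Finset.sum_mul_sum, Finset.mul_sum]
        refine Finset.sum_congr rfl fun i _ => ?_
        rw [Finset.mul_sum]
        refine Finset.sum_congr rfl fun j _ => ?_
        rw [hs 0 j.succ]
        ring
      rw [e1, ← Finset.sum_add_distrib]
      refine Finset.sum_congr rfl fun i _ => ?_
      rw [← Finset.sum_add_distrib]
      refine Finset.sum_congr rfl fun j _ => ?_
      rw [M1a_one_sub B hc.ne']
      ring
    rw [h2]
    have h3 : 1 ≤ 1 / (1 - 2 * B 0 0) := by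
      rw [le_div_iff₀ hc]
      linarith
    have h4 : 0 ≤ 4 * (1 / (1 - 2 * B 0 0) - 1) * (∑ i : Fin k, B i.succ 0 * y i) ^ 2 :=
      mul_nonneg (by linarith) (sq_nonneg _)
    linarith

/-- PROOF. See `elim_posDef`: `det (1 - 2 B) = (1 - 2 β) det C`, `exp (2 β) (1 - 2 β) ≤ 1` (`Real.add_one_le_exp (-2 β)`), and
`det (C + s b bᵀ) = det C (1 + s bᵀ C⁻¹ b) ≥ det C` (`Matrix.det_add_replicateCol_mul_replicateRow` or
`Matrix.det_one_add_...`; `C⁻¹` is positive definite, `det C > 0`). -/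
theorem elim_det {k : ℕ} (B : Matrix (Fin (k + 1)) (Fin (k + 1)) ℝ)
    (hs : ∀ i j, B i j = B j i) (h : ((1 : Matrix _ _ ℝ) - (2 : ℝ) • B).PosDef) (h0 : 0 ≤ B 0 0) :
    Real.exp (2 * B 0 0) * ((1 : Matrix _ _ ℝ) - (2 : ℝ) • B).det ≤
      ((1 : Matrix _ _ ℝ) - (2 : ℝ) • elim B).det := by
  have hc0 := M1a_pos h
  have hc1 : ((1 : Matrix (Fin (k + 1)) (Fin (k + 1)) ℝ) - (2 : ℝ) • B) 0 0 = 1 - 2 * B 0 0 := by
    simp [Matrix.sub_apply, Matrix.smul_apply]
  have hc : 0 < 1 - 2 * B 0 0 := by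
    rw [← hc1]
    exact hc0
  have hC := M1a_sch_posDef h
  have hdet := hC.det_pos
  have h3 : 1 ≤ 1 / (1 - 2 * B 0 0) := by
    rw [le_div_iff₀ hc]
    linarith
  rw [M1a_sch_det hc0.ne', hc1]
  have h4 : (1 : Matrix _ _ ℝ) - (2 : ℝ) • elim B =
      M1a_sch ((1 : Matrix _ _ ℝ) - (2 : ℝ) • B) +
        Matrix.replicateCol Unit (fun i : Fin k => 4 * (1 / (1 - 2 * B 0 0) - 1) * B i.succ 0) *
        Matrix.replicateRow Unit (fun j : Fin k => B 0 j.succ) := by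
    ext i j
    rw [M1a_one_sub B hc.ne', Matrix.add_apply, Matrix.mul_apply]
    simp
  rw [h4, Matrix.det_add_replicateCol_mul_replicateRow hdet.ne'.isUnit]
  have h5 : (1 + Matrix.replicateRow Unit (fun j : Fin k => B 0 j.succ) *
      (M1a_sch ((1 : Matrix _ _ ℝ) - (2 : ℝ) • B))⁻¹ *
      Matrix.replicateCol Unit (fun i : Fin k =>
        4 * (1 / (1 - 2 * B 0 0) - 1) * B i.succ 0)).det =
      1 + 4 * (1 / (1 - 2 * B 0 0) - 1) * (star (fun j : Fin k => B 0 j.succ) ⬝ᵥ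
        ((M1a_sch ((1 : Matrix _ _ ℝ) - (2 : ℝ) • B))⁻¹).mulVec (fun j : Fin k => B 0 j.succ)) := by
    rw [Matrix.det_unique, Matrix.add_apply, Matrix.one_apply_eq, Matrix.mul_assoc,
      Matrix.mul_apply]
    congr 1
    simp only [dotProduct, Pi.star_apply, star_trivial, Matrix.replicateRow_apply,
      Finset.mul_sum]
    refine Finset.sum_congr rfl fun i _ => ?_
    rw [Matrix.mul_apply, Matrix.mulVec, dotProduct, Finset.mul_sum, Finset.mul_sum,
      Finset.mul_sum]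
    refine Finset.sum_congr rfl fun j _ => ?_
    rw [Matrix.replicateCol_apply, hs j.succ 0]
    ring
  rw [h5]
  have h6 : 0 ≤ star (fun j : Fin k => B 0 j.succ) ⬝ᵥ
      ((M1a_sch ((1 : Matrix _ _ ℝ) - (2 : ℝ) • B))⁻¹).mulVec (fun j : Fin k => B 0 j.succ) :=
    hC.inv.posSemidef.dotProduct_mulVec_nonneg _
  have h7 : Real.exp (2 * B 0 0) * (1 - 2 * B 0 0) ≤ 1 := by
    have h8 : 1 - 2 * B 0 0 ≤ Real.exp (-(2 * B 0 0)) := by
      have := Real.add_one_le_exp (-(2 * B 0 0))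
      linarith
    calc Real.exp (2 * B 0 0) * (1 - 2 * B 0 0)
        ≤ Real.exp (2 * B 0 0) * Real.exp (-(2 * B 0 0)) :=
          mul_le_mul_of_nonneg_left h8 (Real.exp_nonneg _)
      _ = 1 := by rw [← Real.exp_add]; simp
  have h9 : 0 ≤ 4 * (1 / (1 - 2 * B 0 0) - 1) * (star (fun j : Fin k => B 0 j.succ) ⬝ᵥ
      ((M1a_sch ((1 : Matrix _ _ ℝ) - (2 : ℝ) • B))⁻¹).mulVec (fun j : Fin k => B 0 j.succ)) :=
    mul_nonneg (by linarith) h6
  calc Real.exp (2 * B 0 0) * ((1 - 2 * B 0 0) *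
        (M1a_sch ((1 : Matrix _ _ ℝ) - (2 : ℝ) • B)).det)
      = (Real.exp (2 * B 0 0) * (1 - 2 * B 0 0)) *
        (M1a_sch ((1 : Matrix _ _ ℝ) - (2 : ℝ) • B)).det := by ring
    _ ≤ 1 * (M1a_sch ((1 : Matrix _ _ ℝ) - (2 : ℝ) • B)).det :=
        mul_le_mul_of_nonneg_right h7 hdet.le
    _ = (M1a_sch ((1 : Matrix _ _ ℝ) - (2 : ℝ) • B)).det * 1 := by ring
    _ ≤ _ := mul_le_mul_of_nonneg_left (by linarith) hdet.le

end Pool.Agent.MPa9445a.BE
end

section

/-! Exponential moments of a quadratic form of signs. -/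

set_option autoImplicit false

open Finset

namespace Pool.Agent.MPa9445a.BE

/-- The sign `1` or `-1`. -/
def sg (a : Bool) : ℝ := if a then 1 else -1

private theorem m1b_sq (a : Bool) : sg a * sg a = 1 := by
  cases a <;> simp [sg]

private theorem m1b_exponent {k : ℕ} (B : Matrix (Fin (k + 1)) (Fin (k + 1)) ℝ)
    (hs : ∀ i j, B i j = B j i) (a : Bool) (y : Fin k → Bool) :
    ∑ i, ∑ j, B i j * sg ((Fin.cons a y : Fin (k + 1) → Bool) i) *
        sg ((Fin.cons a y : Fin (k + 1) → Bool) j) =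
      B 0 0 + sg a * (2 * ∑ i : Fin k, B i.succ 0 * sg (y i)) +
        ∑ i : Fin k, ∑ j : Fin k, B i.succ j.succ * sg (y i) * sg (y j) := by
  rw [Fin.sum_univ_succ]
  simp only [Fin.sum_univ_succ, Fin.cons_zero, Fin.cons_succ]
  rw [Finset.sum_add_distrib]
  have h1 : B 0 0 * sg a * sg a = B 0 0 := by rw [mul_assoc, m1b_sq, mul_one]
  have h2 : ∑ j : Fin k, B 0 j.succ * sg a * sg (y j) =
      sg a * ∑ i : Fin k, B i.succ 0 * sg (y i) := by
    rw [Finset.mul_sum]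
    refine Finset.sum_congr rfl (fun j _ => ?_)
    rw [hs 0 j.succ]; ring
  have h3 : ∑ i : Fin k, B i.succ 0 * sg (y i) * sg a =
      sg a * ∑ i : Fin k, B i.succ 0 * sg (y i) := by
    rw [Finset.mul_sum]
    refine Finset.sum_congr rfl (fun j _ => ?_)
    ring
  rw [h1, h2, h3]
  ring

private theorem m1b_two (c l : ℝ) :
    ∑ a : Bool, Real.exp (c + sg a * (2 * l)) ≤ 2 * Real.exp (c + 2 * l ^ 2) := by
  have h : ∑ a : Bool, Real.exp (c + sg a * (2 * l)) = Real.exp c * (2 * Real.cosh (2 * l)) := by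
    rw [Fintype.sum_bool, Real.cosh_eq]
    simp only [sg, if_true, Bool.false_eq_true, if_false]
    rw [Real.exp_add, Real.exp_add]
    ring_nf
  rw [h, Real.exp_add]
  have h2 := Real.cosh_le_exp_half_sq (2 * l)
  have h3 : (2 * l) ^ 2 / 2 = 2 * l ^ 2 := by ring
  rw [h3] at h2
  have h4 := Real.exp_pos c
  nlinarith [mul_le_mul_of_nonneg_left h2 h4.le]

private theorem m1b_quad {k : ℕ} (B : Matrix (Fin (k + 1)) (Fin (k + 1)) ℝ)
    (hs : ∀ i j, B i j = B j i) (y : Fin k → Bool) :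
    ∑ i : Fin k, ∑ j : Fin k, B i.succ j.succ * sg (y i) * sg (y j) +
        2 * (∑ i : Fin k, B i.succ 0 * sg (y i)) ^ 2 =
      ∑ i, ∑ j, elim B i j * sg (y i) * sg (y j) := by
  rw [pow_two, Finset.sum_mul_sum, Finset.mul_sum, ← Finset.sum_add_distrib]
  refine Finset.sum_congr rfl (fun i _ => ?_)
  rw [Finset.mul_sum, ← Finset.sum_add_distrib]
  refine Finset.sum_congr rfl (fun j _ => ?_)
  unfold elim
  rw [hs 0 j.succ]
  ring

/-- PROOF. Induction on `k` for all `B`. `k = 0`: both sides are `1`. Step: write `x = Fin.cons a y`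
(`Fin.consEquiv` / `Fin.cons`, `Fintype.sum_equiv`, `Fin.sum_univ_succ`). The exponent is `B 0 0 + 2 sg a ∑ i, B i.succ 0 sg (y i) + ∑ i j, B i.succ j.succ sg (y i) sg (y j)`
(`sg a ^ 2 = 1`, symmetry). The sum over `a` of `exp (2 sg a ℓ)` is `2 cosh (2 ℓ) ≤ 2 exp (2 ℓ²)` (`Real.cosh_le_exp_half_sq`), so
the sum is at most `2 exp (B 0 0)` times the sum for `elim B` (whose diagonal entries are `≥ 0`, symmetric,
`elim_posDef`), by induction at most `2 exp (B 0 0) 2 ^ k / √ det (1 - 2 elim B) ≤ 2 ^ (k + 1) / √ det (1 - 2 B)` by `elim_det`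
(`exp (B 0 0) = √ (exp (2 B 0 0))`; the determinants are positive, `Matrix.PosDef.det_pos`). -/
theorem sum_exp_le {k : ℕ} (B : Matrix (Fin k) (Fin k) ℝ) (hs : ∀ i j, B i j = B j i)
    (hd : ∀ i, 0 ≤ B i i) (h : ((1 : Matrix _ _ ℝ) - (2 : ℝ) • B).PosDef) :
    ∑ x : Fin k → Bool, Real.exp (∑ i, ∑ j, B i j * sg (x i) * sg (x j)) ≤
      2 ^ k / Real.sqrt ((1 : Matrix _ _ ℝ) - (2 : ℝ) • B).det := by
  induction k with
  | zero => simp
  | succ k ih =>
    have hs' : ∀ i j, elim B i j = elim B j i := by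
      intro i j
      unfold elim
      rw [hs i.succ j.succ, hs i.succ 0, hs 0 j.succ]
      ring
    have hd' : ∀ i, 0 ≤ elim B i i := by
      intro i
      unfold elim
      rw [hs 0 i.succ]
      nlinarith [hd i.succ, mul_self_nonneg (B i.succ 0)]
    have hp := elim_posDef B hs h (hd 0)
    have hdet := elim_det B hs h (hd 0)
    have hI := ih (elim B) hs' hd' hp
    have hd1 : 0 < ((1 : Matrix _ _ ℝ) - (2 : ℝ) • B).det := h.det_pos
    have hd2 : 0 < ((1 : Matrix _ _ ℝ) - (2 : ℝ) • elim B).det := hp.det_pos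
    have hsum : ∑ x : Fin (k + 1) → Bool, Real.exp (∑ i, ∑ j, B i j * sg (x i) * sg (x j)) =
        ∑ y : Fin k → Bool, ∑ a : Bool, Real.exp ((B 0 0 +
          ∑ i : Fin k, ∑ j : Fin k, B i.succ j.succ * sg (y i) * sg (y j)) +
          sg a * (2 * ∑ i : Fin k, B i.succ 0 * sg (y i))) := by
      rw [Finset.sum_comm, ← Fintype.sum_prod_type']
      rw [← Equiv.sum_comp (Fin.consEquiv (fun _ : Fin (k + 1) => Bool))]
      refine Finset.sum_congr rfl (fun p _ => ?_)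
      obtain ⟨a, y⟩ := p
      have := m1b_exponent B hs a y
      change Real.exp (∑ i, ∑ j, B i j * sg ((Fin.cons a y : Fin (k + 1) → Bool) i) *
        sg ((Fin.cons a y : Fin (k + 1) → Bool) j)) = _
      rw [this]
      congr 1
      ring
    rw [hsum]
    have hstep : ∀ y : Fin k → Bool, ∑ a : Bool, Real.exp ((B 0 0 +
          ∑ i : Fin k, ∑ j : Fin k, B i.succ j.succ * sg (y i) * sg (y j)) +
          sg a * (2 * ∑ i : Fin k, B i.succ 0 * sg (y i))) ≤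
        2 * Real.exp (B 0 0) * Real.exp (∑ i, ∑ j, elim B i j * sg (y i) * sg (y j)) := by
      intro y
      refine (m1b_two _ _).trans (le_of_eq ?_)
      rw [← m1b_quad B hs y, mul_assoc, ← Real.exp_add]
      congr 2
      ring
    refine (Finset.sum_le_sum (fun y _ => hstep y)).trans ?_
    rw [← Finset.mul_sum]
    have hpos : 0 ≤ 2 * Real.exp (B 0 0) := by positivity
    refine (mul_le_mul_of_nonneg_left hI hpos).trans ?_
    have hsq : Real.exp (B 0 0) * Real.sqrt ((1 : Matrix _ _ ℝ) - (2 : ℝ) • B).det ≤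
        Real.sqrt ((1 : Matrix _ _ ℝ) - (2 : ℝ) • elim B).det := by
      apply Real.le_sqrt_of_sq_le
      rw [mul_pow, Real.sq_sqrt hd1.le, ← Real.exp_nat_mul]
      exact_mod_cast hdet
    rw [mul_div_assoc', div_le_div_iff₀ (Real.sqrt_pos.2 hd2) (Real.sqrt_pos.2 hd1)]
    have h2k : (0 : ℝ) ≤ 2 * 2 ^ k := by positivity
    calc 2 * Real.exp (B 0 0) * 2 ^ k * Real.sqrt ((1 : Matrix _ _ ℝ) - (2 : ℝ) • B).det
        = 2 * 2 ^ k * (Real.exp (B 0 0) * Real.sqrt ((1 : Matrix _ _ ℝ) - (2 : ℝ) • B).det) := by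
          ring
      _ ≤ 2 * 2 ^ k * Real.sqrt ((1 : Matrix _ _ ℝ) - (2 : ℝ) • elim B).det :=
          mul_le_mul_of_nonneg_left hsq h2k
      _ = 2 ^ (k + 1) * Real.sqrt ((1 : Matrix _ _ ℝ) - (2 : ℝ) • elim B).det := by
          rw [pow_succ]; ring

end Pool.Agent.MPa9445a.BE
end

section

/-!
# Functions computed by programs

`A` is a type of states, `N a` the size parameter of the state `a`, `D` the set of states which are
considered, `ρ a` the values of the variables in the state `a`.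
-/

set_option autoImplicit false

namespace Pool.Agent.MPa9445a.BE

/-- The size of a value. -/
def vs : {t : Ty} → t.Val → ℕ
  | .int, v => sz v
  | .arr, l => asz l + Nat.size l.length

/-- The constant weight. -/
def one {A : Type} : ℝ → A → ℝ := fun _ _ => 1

/-- `f` is computed from the variables `ρ` by a program, in time `poly (N) * w`, and its values have
size `poly (N)`. The weight `w` is at least `1`. -/
def Cp {A : Type} (N : A → ℕ) (D : A → Prop) {Γ : List Ty} (ρ : A → Env Γ) (w : ℝ → A → ℝ)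
    (t : Ty) (f : A → t.Val) : Prop :=
  ∃ (e : Ex Γ t) (k : ℕ), ∀ a, D a → e.eval (ρ a) = f a ∧ vs (f a) ≤ (N a + 2) ^ k ∧
    ∀ τ : ℝ, 2 ≤ τ → 1 ≤ w τ a ∧ e.cost τ (ρ a) ≤ ((N a : ℝ) + 2) ^ k * w τ a

/-- Computed in polynomial time, values in `ℤ`. -/
abbrev PI {A : Type} (N : A → ℕ) (D : A → Prop) {Γ : List Ty} (ρ : A → Env Γ) (f : A → ℤ) : Prop :=
  Cp N D ρ one .int f

/-- Computed in polynomial time, values in `ℕ`. -/
abbrev PN {A : Type} (N : A → ℕ) (D : A → Prop) {Γ : List Ty} (ρ : A → Env Γ) (f : A → ℕ) : Prop :=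
  Cp N D ρ one .int (fun a => (f a : ℤ))

/-- Computed in polynomial time, values are arrays. -/
abbrev PA {A : Type} (N : A → ℕ) (D : A → Prop) {Γ : List Ty} (ρ : A → Env Γ)
    (f : A → List ℤ) : Prop := Cp N D ρ one .arr f

/-- A property which can be decided in polynomial time. -/
def PB {A : Type} (N : A → ℕ) (D : A → Prop) {Γ : List Ty} (ρ : A → Env Γ) (q : A → Prop) : Prop :=
  ∃ f : A → ℤ, PI N D ρ f ∧ ∀ a, D a → (f a ≠ 0 ↔ q a)

/-- Numbers which are polynomially bounded. -/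
def Bd {A : Type} (N : A → ℕ) (D : A → Prop) (f : A → ℕ) : Prop :=
  ∃ k : ℕ, ∀ a, D a → f a ≤ (N a + 2) ^ k

/-- The states inside a loop: the size parameter. -/
abbrev NL {A : Type} (N : A → ℕ) : A × ℕ → ℕ := fun p => N p.1

/-- The states inside a loop with `k a` passes. -/
abbrev DL {A : Type} (D : A → Prop) (k : A → ℕ) : A × ℕ → Prop := fun p => D p.1 ∧ p.2 < k p.1

/-- The variables inside a loop: all functions which were available are still available. -/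
def Up {A : Type} (N : A → ℕ) (D : A → Prop) {Γ : List Ty} (ρ : A → Env Γ) (k : A → ℕ)
    {Γ' : List Ty} (ρ' : A × ℕ → Env Γ') : Prop :=
  ∀ (w : ℝ → A → ℝ) (t : Ty) (f : A → t.Val), Cp N D ρ w t f →
    Cp (NL N) (DL D k) ρ' (fun τ p => w τ p.1) t (fun p => f p.1)

/-- After storing a value: all functions which were available are still available. -/
def Ke {A : Type} (N : A → ℕ) (D : A → Prop) {Γ : List Ty} (ρ : A → Env Γ)
    {Γ' : List Ty} (ρ' : A → Env Γ') : Prop :=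
  ∀ (w : ℝ → A → ℝ) (t : Ty) (f : A → t.Val), Cp N D ρ w t f → Cp N D ρ' w t f

private theorem P0_aux {x : ℝ} (hx : 2 ≤ x) (a b : ℕ) :
    x ^ a + x ^ b + 1 ≤ x ^ (a + b + 2) := by
  have h0 : (1 : ℝ) ≤ x := by linarith
  have h1 : x ^ a ≤ x ^ (a + b) := pow_le_pow_right₀ h0 (by omega)
  have h2 : x ^ b ≤ x ^ (a + b) := pow_le_pow_right₀ h0 (by omega)
  have h3 : (1 : ℝ) ≤ x ^ (a + b) := one_le_pow₀ h0
  have h4 : x ^ (a + b + 2) = x ^ (a + b) * (x * x) := by ring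
  rw [h4]
  have h5 : (4 : ℝ) ≤ x * x := by nlinarith
  nlinarith

private theorem P0_x {A : Type} (N : A → ℕ) (a : A) : (2 : ℝ) ≤ (N a : ℝ) + 2 := by
  have : (0 : ℝ) ≤ (N a : ℝ) := Nat.cast_nonneg _
  linarith

section Basic

variable {A : Type} {N : A → ℕ} {D : A → Prop} {Γ : List Ty} {ρ : A → Env Γ} {w w' : ℝ → A → ℝ}
  {t : Ty}

/-- PROOF. Same program and exponent. -/
theorem Cp.mono {f : A → t.Val} (h : Cp N D ρ w t f)
    (hw : ∀ a, D a → ∀ τ : ℝ, 2 ≤ τ → w τ a ≤ w' τ a) : Cp N D ρ w' t f := by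
  obtain ⟨e, k, h⟩ := h
  refine ⟨e, k, fun a ha => ?_⟩
  obtain ⟨h1, h2, h3⟩ := h a ha
  refine ⟨h1, h2, fun τ hτ => ?_⟩
  obtain ⟨h4, h5⟩ := h3 τ hτ
  exact ⟨h4.trans (hw a ha τ hτ),
    h5.trans (mul_le_mul_of_nonneg_left (hw a ha τ hτ) (by positivity))⟩

/-- Polynomial factors of the weight are irrelevant. PROOF. Add the exponents. -/
theorem Cp.mono_poly {f : A → t.Val} (h : Cp N D ρ w t f) (c : ℕ)
    (hw : ∀ a, D a → ∀ τ : ℝ, 2 ≤ τ → 1 ≤ w' τ a ∧ w τ a ≤ ((N a : ℝ) + 2) ^ c * w' τ a) :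
    Cp N D ρ w' t f := by
  obtain ⟨e, k, h⟩ := h
  refine ⟨e, k + c, fun a ha => ?_⟩
  obtain ⟨h1, h2, h3⟩ := h a ha
  refine ⟨h1, h2.trans (Nat.pow_le_pow_right (by omega) (by omega)), fun τ hτ => ?_⟩
  obtain ⟨h4, h5⟩ := h3 τ hτ
  obtain ⟨h6, h7⟩ := hw a ha τ hτ
  refine ⟨h6, h5.trans ?_⟩
  rw [pow_add, mul_assoc]
  exact mul_le_mul_of_nonneg_left h7 (by positivity)

/-- PROOF. `Cp.mono`. -/
theorem Cp.lift {f : A → t.Val} (h : Cp N D ρ one t f)
    (hw : ∀ a, D a → ∀ τ : ℝ, 2 ≤ τ → 1 ≤ w τ a) : Cp N D ρ w t f := by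
  exact h.mono fun a ha τ hτ => hw a ha τ hτ

/-- PROOF. The same program. -/
theorem Cp.congr {f g : A → t.Val} (h : Cp N D ρ w t f) (hfg : ∀ a, D a → f a = g a) :
    Cp N D ρ w t g := by
  obtain ⟨e, k, h⟩ := h
  refine ⟨e, k, fun a ha => ?_⟩
  rw [← hfg a ha]
  exact h a ha

/-- Fewer states. PROOF. The same program. -/
theorem Cp.dom {D' : A → Prop} {f : A → t.Val} (h : Cp N D ρ w t f) (hD : ∀ a, D' a → D a) :
    Cp N D' ρ w t f := by
  obtain ⟨e, k, h⟩ := h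
  exact ⟨e, k, fun a ha => h a (hD a ha)⟩

/-- The newest variable. PROOF. `Ex.top`; the cost is at most `1 + sz`. -/
theorem Cp.top {f : A → t.Val} (h : ∃ k : ℕ, ∀ a, D a → vs (f a) ≤ (N a + 2) ^ k) :
    Cp N D (Γ := t :: Γ) (fun a => (f a, ρ a)) one t f := by
  obtain ⟨k, hk⟩ := h
  refine ⟨Ex.top, k + 1, fun a ha => ⟨rfl, (hk a ha).trans
    (Nat.pow_le_pow_right (by omega) (by omega)), fun τ _ => ⟨le_refl _, ?_⟩⟩⟩
  have h0 := P0_x N a
  have h1 : (1 : ℝ) ≤ ((N a : ℝ) + 2) ^ k := one_le_pow₀ (by linarith)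
  have h2 := hk a ha
  have h3 : ((N a : ℝ) + 2) ^ (k + 1) * one τ a = ((N a : ℝ) + 2) ^ k * ((N a : ℝ) + 2) := by
    rw [one, mul_one, pow_succ]
  rw [h3]
  cases t with
  | int =>
    have h4 : (sz (f a) : ℝ) ≤ ((N a : ℝ) + 2) ^ k := by
      have h5 : sz (f a) ≤ (N a + 2) ^ k := h2
      exact_mod_cast h5
    change (1 : ℝ) + sz (f a) ≤ _
    nlinarith
  | arr =>
    change (1 : ℝ) ≤ _
    nlinarith

/-- An older variable. PROOF. `Ex.wk`. -/
theorem Cp.wk {s : Ty} {g : A → s.Val} {f : A → t.Val} (h : Cp N D ρ w t f) :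
    Cp N D (Γ := s :: Γ) (fun a => (g a, ρ a)) w t f := by
  obtain ⟨e, k, h⟩ := h
  refine ⟨Ex.wk e, k, fun a ha => ?_⟩
  simp only [Ex.eval, Ex.cost]
  exact h a ha

/-- PROOF. `Ex.bind`. The exponents add up (`1 ≤ w`, `(N + 2) ^ k ≥ 2 ^ k`). -/
theorem Cp.bind {s : Ty} {g : A → s.Val} {f : A → t.Val} (hg : Cp N D ρ w s g)
    (h : Cp N D (Γ := s :: Γ) (fun a => (g a, ρ a)) w t f) : Cp N D ρ w t f := by
  obtain ⟨e₁, k₁, h₁⟩ := hg
  obtain ⟨e₂, k₂, h₂⟩ := h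
  refine ⟨Ex.bind e₁ e₂, k₁ + k₂ + 2, fun a ha => ?_⟩
  obtain ⟨h3, h4, h5⟩ := h₁ a ha
  obtain ⟨h6, h7, h8⟩ := h₂ a ha
  refine ⟨?_, h7.trans (Nat.pow_le_pow_right (by omega) (by omega)), fun τ hτ => ?_⟩
  · change e₂.eval (e₁.eval (ρ a), ρ a) = f a
    rw [h3, h6]
  · obtain ⟨h9, h10⟩ := h5 τ hτ
    obtain ⟨_, h11⟩ := h8 τ hτ
    refine ⟨h9, ?_⟩
    simp only [Ex.cost]
    rw [h3]
    have h12 := P0_aux (P0_x N a) k₁ k₂
    have h13 := mul_le_mul_of_nonneg_right h12 (zero_le_one.trans h9)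
    nlinarith

/-- Storing a value. PROOF. `Cp.bind`, with `ρ' a = (g a, ρ a)`; `Ke` by `Cp.wk`, `g` by `Cp.top`. -/
theorem Cp.store {s : Ty} {g : A → s.Val} {f : A → t.Val} (hg : Cp N D ρ w s g)
    (h : ∀ (Γ' : List Ty) (ρ' : A → Env Γ'), Ke N D ρ ρ' → Cp N D ρ' one s g →
      Cp N D ρ' w t f) : Cp N D ρ w t f := by
  refine Cp.bind hg (h (s :: Γ) (fun a => (g a, ρ a)) (fun w t f hf => Cp.wk hf) (Cp.top ?_))
  obtain ⟨e, k, hk⟩ := hg
  exact ⟨k, fun a ha => (hk a ha).2.1⟩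

section Access

variable {k : A → ℕ} {Γ' : List Ty} {ρ' : A × ℕ → Env Γ'} {ρ₁ : A → Env Γ'}

theorem Up.i (up : Up N D ρ k ρ') {f : A → ℤ} (h : PI N D ρ f) :
    PI (NL N) (DL D k) ρ' (fun p => f p.1) := up one .int f h

theorem Up.n (up : Up N D ρ k ρ') {f : A → ℕ} (h : PN N D ρ f) :
    PN (NL N) (DL D k) ρ' (fun p => f p.1) := up one .int _ h

theorem Up.a (up : Up N D ρ k ρ') {f : A → List ℤ} (h : PA N D ρ f) :
    PA (NL N) (DL D k) ρ' (fun p => f p.1) := up one .arr f h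

theorem Up.b (up : Up N D ρ k ρ') {q : A → Prop} (h : PB N D ρ q) :
    PB (NL N) (DL D k) ρ' (fun p => q p.1) := by
  obtain ⟨f, hf, hq⟩ := h
  exact ⟨fun p => f p.1, up one .int f hf, fun p hp => hq p.1 hp.1⟩

theorem Ke.i (ke : Ke N D ρ ρ₁) {f : A → ℤ} (h : PI N D ρ f) : PI N D ρ₁ f := ke one .int f h

theorem Ke.n (ke : Ke N D ρ ρ₁) {f : A → ℕ} (h : PN N D ρ f) : PN N D ρ₁ f := ke one .int _ h

theorem Ke.a (ke : Ke N D ρ ρ₁) {f : A → List ℤ} (h : PA N D ρ f) : PA N D ρ₁ f := ke one .arr f h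

theorem Ke.b (ke : Ke N D ρ ρ₁) {q : A → Prop} (h : PB N D ρ q) : PB N D ρ₁ q := by
  obtain ⟨f, hf, hq⟩ := h
  exact ⟨f, ke one .int f hf, hq⟩

end Access

end Basic

end Pool.Agent.MPa9445a.BE
end
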