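import Mathlib
import Pool.Agent.Lib.MP_a9445a_lc.BE.Defs
import Pool.Agent.Lib.MP_a9445a_lc.Mg.G110

section

section

/-! Sign vectors: number, and the mean of a large set is small. -/

set_option autoImplicit false

open Finset

namespace Pool.Agent.MPa9445a.BE

variable {n : ℕ}

/-- PROOF. `Fintype.mem_piFinset`. -/
theorem mem_Om {Y : Finset (Fin n)} {x : Fin n → ℤ} :
    x ∈ Om Y ↔ ∀ v, (v ∈ Y → x v = 1 ∨ x v = -1) ∧ (v ∉ Y → x v = 0) := by
  unfold Om
  rw [Fintype.mem_piFinset]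
  refine forall_congr' fun v => ?_
  by_cases hv : v ∈ Y
  · simp [hv]
  · simp [hv]

/-- PROOF. `Fintype.card_piFinset`, `Finset.prod_ite`. -/
theorem card_Om (Y : Finset (Fin n)) : (Om Y).card = 2 ^ Y.card := by
  unfold Om
  rw [Fintype.card_piFinset]
  have h : ∀ v, (if v ∈ Y then ({1, -1} : Finset ℤ) else {0}).card = if v ∈ Y then 2 else 1 := by
    intro v
    by_cases hv : v ∈ Y
    · rw [if_pos hv, if_pos hv]
      rfl
    · rw [if_neg hv, if_neg hv]
      rfl
  rw [Finset.prod_congr rfl fun v _ => h v, Finset.prod_ite, Finset.prod_const,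
    Finset.prod_const_one, mul_one, Finset.filter_mem_eq_inter, Finset.univ_inter]

/-- PROOF. The sum of `exp (∑ v, z v x v)` over `x ∈ Om Y` is `∏ v, (if v ∈ Y then exp (z v) + exp (- z v) else 1)` (`Finset.prod_univ_sum`,
`Real.exp_sum`), and `exp a + exp (-a) = 2 cosh a ≤ 2 exp (a² / 2)` (`Real.cosh_le_exp_half_sq`). -/
theorem sum_exp_lin (Y : Finset (Fin n)) (z : Fin n → ℝ) :
    ∑ x ∈ Om Y, Real.exp (∑ v, z v * (x v : ℝ)) ≤ 2 ^ Y.card * Real.exp (nr z / 2) := by
  have h1 : ∑ x ∈ Om Y, Real.exp (∑ v, z v * (x v : ℝ)) =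
      ∏ v, ∑ t ∈ (if v ∈ Y then ({1, -1} : Finset ℤ) else {0}), Real.exp (z v * (t : ℝ)) := by
    rw [Finset.prod_univ_sum]
    refine Finset.sum_congr rfl fun x _ => ?_
    rw [Real.exp_sum]
  have h2 : ∀ v, ∑ t ∈ (if v ∈ Y then ({1, -1} : Finset ℤ) else {0}), Real.exp (z v * (t : ℝ)) ≤
      (if v ∈ Y then 2 else 1) * Real.exp (z v ^ 2 / 2) := by
    intro v
    by_cases hv : v ∈ Y
    · rw [if_pos hv, if_pos hv, Finset.sum_pair (by norm_num)]
      have h3 := Real.cosh_le_exp_half_sq (z v)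
      rw [Real.cosh_eq] at h3
      push_cast
      rw [mul_one, mul_neg_one]
      linarith
    · rw [if_neg hv, if_neg hv, Finset.sum_singleton]
      push_cast
      rw [mul_zero, Real.exp_zero, one_mul]
      exact Real.one_le_exp (by positivity)
  have h4 : ∏ v, (if v ∈ Y then (2 : ℝ) else 1) = 2 ^ Y.card := by
    rw [Finset.prod_ite, Finset.prod_const, Finset.prod_const_one, mul_one,
      Finset.filter_mem_eq_inter, Finset.univ_inter]
  rw [h1]
  refine le_trans (Finset.prod_le_prod (fun v _ => Finset.sum_nonneg fun t _ =>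
    (Real.exp_pos _).le) fun v _ => h2 v) ?_
  rw [Finset.prod_mul_distrib, h4, ← Real.exp_sum]
  refine le_of_eq ?_
  congr 2
  unfold nr
  rw [Finset.sum_div]

/-- PROOF. Let `z` be the mean. The average over `x ∈ B` of `∑ v, z v x v` is `nr z`, so by Jensen's inequality
(`convexOn_exp.map_sum_le` or `Real.inner_le_nnorm_mul_nnorm`...; weights `1 / B.card`)
`exp (nr z) ≤ (1 / B.card) ∑ x ∈ B, exp (∑ v, z v x v) ≤ (2 ^ Y.card / B.card) exp (nr z / 2)` (`sum_exp_lin`). Take logarithms. -/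
theorem mean_norm {Y : Finset (Fin n)} {B : Finset (Fin n → ℤ)} (hB : B ⊆ Om Y)
    (hne : B.Nonempty) :
    nr (fun v => (∑ x ∈ B, (x v : ℝ)) / B.card) ≤ 2 * Real.log (2 ^ Y.card / B.card) := by
  have hc : (0 : ℝ) < B.card := by exact_mod_cast hne.card_pos
  set z : Fin n → ℝ := fun v => (∑ x ∈ B, (x v : ℝ)) / B.card with hz
  have h1 : Real.exp (∑ x ∈ B, (1 / (B.card : ℝ)) • (∑ v, z v * (x v : ℝ))) ≤
      ∑ x ∈ B, (1 / (B.card : ℝ)) • Real.exp (∑ v, z v * (x v : ℝ)) :=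
    convexOn_exp.map_sum_le (fun _ _ => by positivity)
      (by rw [Finset.sum_const, nsmul_eq_mul]; field_simp) (fun _ _ => Set.mem_univ _)
  have h2 : ∑ x ∈ B, (1 / (B.card : ℝ)) • (∑ v, z v * (x v : ℝ)) = nr z := by
    simp only [smul_eq_mul]
    rw [← Finset.mul_sum, Finset.sum_comm]
    unfold nr
    rw [Finset.mul_sum]
    refine Finset.sum_congr rfl fun v _ => ?_
    rw [← Finset.mul_sum]
    have h3 : ∑ x ∈ B, (x v : ℝ) = z v * B.card := by
      rw [hz]
      field_simp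
    rw [h3]
    field_simp
  rw [h2] at h1
  have h3 : ∑ x ∈ B, (1 / (B.card : ℝ)) • Real.exp (∑ v, z v * (x v : ℝ)) ≤
      2 ^ Y.card / B.card * Real.exp (nr z / 2) := by
    simp only [smul_eq_mul]
    rw [← Finset.mul_sum]
    have h4 : ∑ x ∈ B, Real.exp (∑ v, z v * (x v : ℝ)) ≤ 2 ^ Y.card * Real.exp (nr z / 2) :=
      le_trans (Finset.sum_le_sum_of_subset_of_nonneg hB fun _ _ _ => (Real.exp_pos _).le)
        (sum_exp_lin Y z)
    calc 1 / (B.card : ℝ) * ∑ x ∈ B, Real.exp (∑ v, z v * (x v : ℝ))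
        ≤ 1 / (B.card : ℝ) * (2 ^ Y.card * Real.exp (nr z / 2)) :=
          mul_le_mul_of_nonneg_left h4 (by positivity)
      _ = 2 ^ Y.card / B.card * Real.exp (nr z / 2) := by ring
  have h5 : Real.exp (nr z) = Real.exp (nr z / 2) * Real.exp (nr z / 2) := by
    rw [← Real.exp_add]
    congr 1
    ring
  have h6 : Real.exp (nr z / 2) ≤ 2 ^ Y.card / B.card := by
    have h7 := h1.trans h3
    rw [h5] at h7
    exact le_of_mul_le_mul_right h7 (Real.exp_pos _)
  have h8 : nr z / 2 ≤ Real.log (2 ^ Y.card / B.card) := by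
    rw [Real.le_log_iff_exp_le (by positivity)]
    exact h6
  linarith

end Pool.Agent.MPa9445a.BE
end

section

/-! The second kind of candidates: the rest is edgeless or complete. -/

set_option autoImplicit false

open Finset

namespace Pool.Agent.MPa9445a.BE

variable {n : ℕ}

private theorem B8a_mono (U : Finset (Fin n)) (f : Fin n → ℤ) {x y : Fin n} (hx : x ∈ U)
    (h : f y < f x ∨ f x = f y ∧ x < y) :
    (U.filter fun u => f x < f u ∨ f u = f x ∧ u < x).card <
      (U.filter fun u => f y < f u ∨ f u = f y ∧ u < y).card := by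
  apply Finset.card_lt_card
  rw [Finset.ssubset_iff_of_subset]
  · refine ⟨x, ?_, ?_⟩
    · rw [Finset.mem_filter]
      exact ⟨hx, h⟩
    · rw [Finset.mem_filter]
      rintro ⟨-, h1 | ⟨-, h1⟩⟩
      · exact lt_irrefl _ h1
      · exact lt_irrefl _ h1
  · intro u hu
    rw [Finset.mem_filter] at hu ⊢
    refine ⟨hu.1, ?_⟩
    rcases hu.2 with h1 | ⟨h1, h2⟩
    · rcases h with h3 | ⟨h3, h4⟩
      · exact Or.inl (h3.trans h1)
      · exact Or.inl (h3 ▸ h1)
    · rcases h with h3 | ⟨h3, h4⟩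
      · exact Or.inl (h1 ▸ h3)
      · exact Or.inr ⟨h1.trans h3, h2.trans h4⟩

/-- Greedy choice. `U` a finite set, `f` a function, `rank v` the number of `u ∈ U` before `v` (larger value, or same value and smaller index). For `0 ≤ N ≤ #U` the set `T` of the
elements of rank `< N` has `N` elements. PROOF. The rank is injective on `U` with values `< #U`, so a bijection to `range #U`. -/
theorem card_rank (U : Finset (Fin n)) (f : Fin n → ℤ) {N : ℕ} (hN : N ≤ U.card) :
    (U.filter fun v => (U.filter fun u => f v < f u ∨ f u = f v ∧ u < v).card < N).card = N := by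
  obtain ⟨rank, hrank⟩ : ∃ rank : Fin n → ℕ,
      rank = fun v => (U.filter fun u => f v < f u ∨ f u = f v ∧ u < v).card := ⟨_, rfl⟩
  have hmono : ∀ x ∈ U, ∀ y, (f y < f x ∨ f x = f y ∧ x < y) → rank x < rank y := by
    intro x hx y h
    rw [hrank]
    exact B8a_mono U f hx h
  have hinj : Set.InjOn rank U := by
    intro x hx y hy hxy
    by_contra hne
    rcases lt_trichotomy (f x) (f y) with h1 | h1 | h1
    · exact absurd hxy (hmono y hy x (Or.inl h1)).ne'
    · rcases lt_or_gt_of_ne hne with h2 | h2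
      · exact absurd hxy (hmono x hx y (Or.inr ⟨h1, h2⟩)).ne
      · exact absurd hxy (hmono y hy x (Or.inr ⟨h1.symm, h2⟩)).ne'
    · exact absurd hxy (hmono x hx y (Or.inl h1)).ne
  have hlt : ∀ x ∈ U, rank x < U.card := by
    intro x hx
    rw [hrank]
    apply Finset.card_lt_card
    rw [Finset.ssubset_iff_of_subset (Finset.filter_subset _ _)]
    refine ⟨x, hx, ?_⟩
    rw [Finset.mem_filter]
    rintro ⟨-, h1 | ⟨-, h1⟩⟩
    · exact lt_irrefl _ h1
    · exact lt_irrefl _ h1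
  have himg : U.image rank = Finset.range U.card := by
    apply Finset.eq_of_subset_of_card_le
    · intro k hk
      rw [Finset.mem_image] at hk
      obtain ⟨x, hx, rfl⟩ := hk
      exact Finset.mem_range.2 (hlt x hx)
    · rw [Finset.card_range, Finset.card_image_of_injOn hinj]
  have h1 : (U.filter fun v => rank v < N).image rank = Finset.range N := by
    ext k
    rw [Finset.mem_image, Finset.mem_range]
    constructor
    · rintro ⟨x, hx, rfl⟩
      exact (Finset.mem_filter.1 hx).2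
    · intro hk
      have h2 : k ∈ U.image rank := by
        rw [himg, Finset.mem_range]
        exact hk.trans_le hN
      rw [Finset.mem_image] at h2
      obtain ⟨x, hx, rfl⟩ := h2
      exact ⟨x, Finset.mem_filter.2 ⟨hx, hk⟩, rfl⟩
  have h2 : (U.filter fun v => rank v < N).card = N := by
    rw [← Finset.card_image_of_injOn (f := rank) (s := U.filter fun v => rank v < N)
      (hinj.mono (fun x hx => (Finset.mem_filter.1 hx).1)), h1, Finset.card_range]
  rw [hrank] at h2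
  exact h2

/-- PROOF. For `T' ⊆ U` with `N` elements: the elements of `T \ T'` and `T' \ T` are equally many, and every element of `T` has a value at least that of every element of `U \ T`
(smaller rank means larger or equal value). -/
theorem greedy (U : Finset (Fin n)) (f : Fin n → ℤ) {N : ℕ} (hN : N ≤ U.card)
    {T' : Finset (Fin n)} (hT : T' ⊆ U) (hc : T'.card = N) :
    ∑ v ∈ T', f v ≤
      ∑ v ∈ U.filter (fun v => (U.filter fun u => f v < f u ∨ f u = f v ∧ u < v).card < N), f v := by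
  have hcard := card_rank U f hN
  obtain ⟨T, hTd⟩ : ∃ T : Finset (Fin n),
      T = U.filter (fun v => (U.filter fun u => f v < f u ∨ f u = f v ∧ u < v).card < N) :=
    ⟨_, rfl⟩
  rw [← hTd] at hcard ⊢
  have hle : ∀ x ∈ T, ∀ y ∈ T' \ T, f y ≤ f x := by
    intro x hx y hy
    rw [Finset.mem_sdiff] at hy
    by_contra hcon
    push Not at hcon
    have h1 := B8a_mono U f (hT hy.1) (Or.inl hcon : f x < f y ∨ f y = f x ∧ y < x)
    rw [hTd, Finset.mem_filter] at hx
    apply hy.2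
    rw [hTd, Finset.mem_filter]
    exact ⟨hT hy.1, h1.trans hx.2⟩
  have hcd : (T' \ T).card = (T \ T').card := by
    have h1 := Finset.card_sdiff_add_card_inter T' T
    have h2 := Finset.card_sdiff_add_card_inter T T'
    rw [Finset.inter_comm] at h2
    omega
  have h3 : ∑ v ∈ T' \ T, f v ≤ ∑ v ∈ T \ T', f v := by
    rcases (T \ T').eq_empty_or_nonempty with he | hne
    · have h4 : T' \ T = ∅ := by
        rw [← Finset.card_eq_zero, hcd, he, Finset.card_empty]
      rw [he, h4]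
    · obtain ⟨x₀, hx₀, hmin⟩ := Finset.exists_min_image (T \ T') f hne
      have hx₀T : x₀ ∈ T := (Finset.mem_sdiff.1 hx₀).1
      calc ∑ v ∈ T' \ T, f v ≤ (T' \ T).card • f x₀ :=
            Finset.sum_le_card_nsmul _ _ _ fun y hy => hle x₀ hx₀T y hy
        _ = (T \ T').card • f x₀ := by rw [hcd]
        _ ≤ ∑ v ∈ T \ T', f v := Finset.card_nsmul_le_sum _ _ _ fun y hy => hmin y hy
  have h5 := Finset.sum_inter_add_sum_sdiff T' T f
  have h6 := Finset.sum_inter_add_sum_sdiff T T' f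
  rw [Finset.inter_comm] at h6
  linarith

end Pool.Agent.MPa9445a.BE
end

section

/-! A lower bound of the determinant. -/

set_option autoImplicit false

open Finset

namespace Pool.Agent.MPa9445a.BE

private theorem M1c_form {k : ℕ} (M : Matrix (Fin k) (Fin k) ℝ) (z : Fin k → ℝ) :
    dotProduct z (((1 : Matrix _ _ ℝ) - (2 : ℝ) • M).mulVec z) = nr z - 2 * qr M z := by
  rw [Matrix.sub_mulVec, Matrix.one_mulVec, Matrix.smul_mulVec, dotProduct_sub, dotProduct_smul]
  unfold nr qr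
  congr 1
  · unfold dotProduct
    refine Finset.sum_congr rfl fun v _ => ?_
    ring
  · rw [smul_eq_mul]
    congr 1
    unfold Matrix.mulVec dotProduct
    refine Finset.sum_congr rfl fun u _ => ?_
    rw [Finset.mul_sum]
    refine Finset.sum_congr rfl fun v _ => ?_
    ring

private theorem M1c_herm {k : ℕ} (M : Matrix (Fin k) (Fin k) ℝ) (hs : ∀ i j, M i j = M j i) :
    ((1 : Matrix _ _ ℝ) - (2 : ℝ) • M).IsHermitian := by
  refine Matrix.IsHermitian.ext fun u v => ?_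
  simp only [Matrix.sub_apply, Matrix.smul_apply, star_trivial, smul_eq_mul]
  rw [hs v u, Matrix.one_apply, Matrix.one_apply]
  congr 1
  by_cases h : u = v
  · rw [if_pos h, if_pos h.symm]
  · rw [if_neg h, if_neg (Ne.symm h)]

private theorem M1c_nr_nonneg {k : ℕ} (z : Fin k → ℝ) : 0 ≤ nr z :=
  Finset.sum_nonneg fun v _ => sq_nonneg (z v)

private theorem M1c_exp {x : ℝ} (h1 : 1 / 2 ≤ x) (h2 : x ≤ 3 / 2) :
    Real.exp (-(1 - x) - (1 - x) ^ 2) ≤ x := by
  have hx : 0 < x := by linarith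
  rw [← Real.le_log_iff_exp_le hx]
  rcases le_or_gt 1 x with h | h
  · have h3 := Real.one_sub_inv_le_log_of_pos hx
    refine le_trans ?_ h3
    have h4 : 1 - x⁻¹ - (-(1 - x) - (1 - x) ^ 2) = (x - 1) ^ 3 / x := by
      field_simp
      ring
    have h5 : 0 ≤ (x - 1) ^ 3 / x := div_nonneg (pow_nonneg (by linarith) 3) hx.le
    linarith
  · set t := 1 - x with ht
    have ht0 : 0 < t := by linarith
    have ht1 : t ≤ 1 / 2 := by linarith
    have hxt : x = 1 - t := by linarith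
    have habs : |t| = t := abs_of_pos ht0
    have h3 := Real.abs_log_sub_add_sum_range_le (x := t) (by rw [habs]; linarith) 4
    rw [habs] at h3
    have h4 := (abs_le.1 h3).1
    rw [← hxt] at h4
    simp only [Finset.sum_range_succ, Finset.sum_range_zero] at h4
    norm_num at h4
    have h5 : t ^ 5 / (1 - t) ≤ 2 * t ^ 5 := by
      rw [div_le_iff₀ (by linarith)]
      have : 0 < t ^ 5 := by positivity
      nlinarith
    have h6 : t ^ 3 / 3 + t ^ 4 / 4 + 2 * t ^ 5 ≤ t ^ 2 / 2 := by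
      have e : t ^ 2 / 2 - (t ^ 3 / 3 + t ^ 4 / 4 + 2 * t ^ 5) =
          t ^ 2 * (1 / 2 - t / 3 - t ^ 2 / 4 - 2 * t ^ 3) := by ring
      have h7 : t ^ 2 ≤ 1 / 4 := by nlinarith
      have h8 : t ^ 3 ≤ 1 / 8 := by
        calc t ^ 3 = t ^ 2 * t := by ring
          _ ≤ 1 / 4 * (1 / 2) := mul_le_mul h7 ht1 ht0.le (by norm_num)
          _ = 1 / 8 := by norm_num
      have h9 : 0 ≤ t ^ 2 * (1 / 2 - t / 3 - t ^ 2 / 4 - 2 * t ^ 3) :=
        mul_nonneg (sq_nonneg t) (by linarith)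
      linarith
    rw [← hxt] at h5
    linarith

/-- PROOF. `zᵀ (1 - 2 M) z = |z|² - 2 qr M z ≥ |z|² / 2 > 0` for `z ≠ 0`. -/
theorem small_posDef {k : ℕ} (M : Matrix (Fin k) (Fin k) ℝ) (hs : ∀ i j, M i j = M j i)
    (h : ∀ z : Fin k → ℝ, |qr M z| ≤ 1 / 4 * nr z) :
    ((1 : Matrix _ _ ℝ) - (2 : ℝ) • M).PosDef := by
  refine Matrix.PosDef.of_dotProduct_mulVec_pos (M1c_herm M hs) fun z hz => ?_
  rw [star_trivial, M1c_form]
  have h1 := (abs_le.1 (h z)).2
  have h2 : 0 < nr z := by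
    obtain ⟨v, hv⟩ := Function.ne_iff.1 hz
    refine lt_of_lt_of_le (pow_pos (abs_pos.2 hv) 2) ?_
    rw [sq_abs]
    exact Finset.single_le_sum (f := fun v => z v ^ 2) (fun v _ => sq_nonneg (z v))
      (Finset.mem_univ v)
  linarith

/-- PROOF. `M` is symmetric; let `μ i` be its eigenvalues (`Matrix.IsHermitian.eigenvalues`), `|μ i| ≤ 1 / 4` (apply `h` to an
eigenvector). `det (1 - 2 M) = ∏ (1 - 2 μ i)` (the characteristic polynomial, `Matrix.IsHermitian.charpoly_eq`/`det` of a conjugated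
diagonal matrix, spectral theorem), `∑ μ i = trace = 0`, `∑ μ i ^ 2 = trace (M²) = ∑ M u v ^ 2`. For `|t| ≤ 1 / 2`:
`1 - t ≥ exp (-t - t²)` (e.g. `Real.abs_log_sub_add_sum_range_le` or: the function `log (1 - t) + t + t²` has derivative
`t (1 - 2 t) / (1 - t)`, so its minimum on `[-1/2, 1/2]` is at `t = 0`). With `t = 2 μ i`: `det ≥ exp (-2 ∑ μ i - 4 ∑ μ i ^ 2)`. -/
theorem det_lower {k : ℕ} (M : Matrix (Fin k) (Fin k) ℝ) (hs : ∀ i j, M i j = M j i)
    (hd : ∀ i, M i i = 0) (h : ∀ z : Fin k → ℝ, |qr M z| ≤ 1 / 4 * nr z) :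
    Real.exp (-4 * ∑ u, ∑ v, M u v ^ 2) ≤ ((1 : Matrix _ _ ℝ) - (2 : ℝ) • M).det := by
  classical
  have hA := M1c_herm M hs
  have hdet : ((1 : Matrix _ _ ℝ) - (2 : ℝ) • M).det = ∏ i, hA.eigenvalues i := by
    rw [hA.det_eq_prod_eigenvalues]
    rfl
  have htr : ∑ i, hA.eigenvalues i = k := by
    have h1 := hA.trace_eq_sum_eigenvalues
    have h2 : ((1 : Matrix (Fin k) (Fin k) ℝ) - (2 : ℝ) • M).trace = k := by
      rw [Matrix.trace_sub, Matrix.trace_one, Matrix.trace_smul, Fintype.card_fin]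
      have h3 : M.trace = 0 := Finset.sum_eq_zero fun i _ => hd i
      rw [h3, smul_zero, sub_zero]
    rw [h2] at h1
    exact h1.symm
  have htr2 : ∑ i, hA.eigenvalues i ^ 2 = k + 4 * ∑ u, ∑ v, M u v ^ 2 := by
    have h1 : (((1 : Matrix (Fin k) (Fin k) ℝ) - (2 : ℝ) • M) *
        ((1 : Matrix (Fin k) (Fin k) ℝ) - (2 : ℝ) • M)).trace = ∑ i, hA.eigenvalues i ^ 2 := by
      have h2 := hA.spectral_theorem
      have h3 : ((1 : Matrix (Fin k) (Fin k) ℝ) - (2 : ℝ) • M) *
          ((1 : Matrix (Fin k) (Fin k) ℝ) - (2 : ℝ) • M) =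
          Unitary.conjStarAlgAut ℝ _ hA.eigenvectorUnitary
            (Matrix.diagonal (RCLike.ofReal ∘ hA.eigenvalues) *
              Matrix.diagonal (RCLike.ofReal ∘ hA.eigenvalues)) := by
        rw [map_mul, ← h2]
      rw [h3, Unitary.conjStarAlgAut_apply, Matrix.trace_mul_cycle, Unitary.coe_star_mul_self,
        Matrix.one_mul, Matrix.diagonal_mul_diagonal, Matrix.trace_diagonal]
      refine Finset.sum_congr rfl fun i _ => ?_
      rw [pow_two]
      rfl
    rw [← h1]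
    have h4 : ∀ u v, ((1 : Matrix (Fin k) (Fin k) ℝ) - (2 : ℝ) • M) u v *
        ((1 : Matrix (Fin k) (Fin k) ℝ) - (2 : ℝ) • M) v u =
        (if u = v then 1 else 0) + 4 * M u v ^ 2 := by
      intro u v
      simp only [Matrix.sub_apply, Matrix.smul_apply, smul_eq_mul, Matrix.one_apply]
      by_cases huv : u = v
      · subst huv
        rw [if_pos rfl, hd]
        ring
      · rw [if_neg huv, if_neg (Ne.symm huv), hs v u]
        ring
    have h5 : (((1 : Matrix (Fin k) (Fin k) ℝ) - (2 : ℝ) • M) *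
        ((1 : Matrix (Fin k) (Fin k) ℝ) - (2 : ℝ) • M)).trace =
        ∑ u, ∑ v, ((if u = v then 1 else 0) + 4 * M u v ^ 2) := by
      refine Finset.sum_congr rfl fun u _ => ?_
      rw [Matrix.diag_apply, Matrix.mul_apply]
      exact Finset.sum_congr rfl fun v _ => h4 u v
    rw [h5]
    have h6 : ∀ u, ∑ v, ((if u = v then (1 : ℝ) else 0) + 4 * M u v ^ 2) =
        1 + 4 * ∑ v, M u v ^ 2 := by
      intro u
      rw [Finset.sum_add_distrib, Finset.sum_ite_eq, if_pos (Finset.mem_univ u), Finset.mul_sum]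
    rw [Finset.sum_congr rfl fun u _ => h6 u, Finset.sum_add_distrib, ← Finset.mul_sum]
    simp
  have hbd : ∀ i, 1 / 2 ≤ hA.eigenvalues i ∧ hA.eigenvalues i ≤ 3 / 2 := by
    intro i
    have h1 := hA.eigenvalues_eq i
    have h2 : hA.eigenvalues i = nr (⇑(hA.eigenvectorBasis i)) -
        2 * qr M (⇑(hA.eigenvectorBasis i)) := by
      rw [h1, star_trivial, ← M1c_form]
      rfl
    have h3 : nr (⇑(hA.eigenvectorBasis i)) = 1 := by
      have h4 : ‖hA.eigenvectorBasis i‖ = 1 := hA.eigenvectorBasis.orthonormal.1 i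
      have h5 := EuclideanSpace.norm_sq_eq (hA.eigenvectorBasis i)
      rw [h4] at h5
      unfold nr
      rw [one_pow] at h5
      rw [h5]
      refine Finset.sum_congr rfl fun v _ => ?_
      rw [Real.norm_eq_abs, sq_abs]
    have h6 := abs_le.1 (h (⇑(hA.eigenvectorBasis i)))
    rw [h3] at h6 h2
    constructor
    · linarith [h6.2]
    · linarith [h6.1]
  rw [hdet]
  have h7 : Real.exp (-4 * ∑ u, ∑ v, M u v ^ 2) =
      ∏ i, Real.exp (-(1 - hA.eigenvalues i) - (1 - hA.eigenvalues i) ^ 2) := by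
    rw [← Real.exp_sum]
    congr 1
    have h8 : ∀ i, -(1 - hA.eigenvalues i) - (1 - hA.eigenvalues i) ^ 2 =
        -2 + 3 * hA.eigenvalues i - hA.eigenvalues i ^ 2 := by
      intro i
      ring
    rw [Finset.sum_congr rfl fun i _ => h8 i, Finset.sum_sub_distrib, Finset.sum_add_distrib,
      ← Finset.mul_sum, htr, htr2]
    simp
    ring
  rw [h7]
  exact Finset.prod_le_prod (fun i _ => (Real.exp_pos _).le)
    fun i _ => M1c_exp (hbd i).1 (hbd i).2

end Pool.Agent.MPa9445a.BE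
end

section

/-! Many positive eigenvalues of medium size. -/

set_option autoImplicit false

open Finset

namespace Pool.Agent.MPa9445a.BE

variable {n : ℕ}

/-- PROOF. `∑ λ j = 0`, so the positive ones have sum `E / 2`, `E ≥ r Q`, `Q = √(D n)`; let `d = D / n`. The eigenvalues `> (8 / r) √d` have sum at most `∑ λ j² / ((8 / r) √d) = r Q / 8`;
the positive ones `< (r / 8) √d` at most `n (r / 8) √d = r Q / 8`. The others, in `[(r / 8) √d, (8 / r) √d]`, have sum at least `r Q / 4`, so there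
are at least `(r Q / 4) / ((8 / r) √d) = r² n / 32` of them. -/
theorem many_medium {ι : Type*} [Fintype ι] (lam : ι → ℝ) {r D : ℝ} (hr : 0 < r) (hD : 0 < D)
    (n : ℕ) (hn : 0 < n) (hc : Fintype.card ι = n) (h0 : ∑ j, lam j = 0)
    (h2 : ∑ j, lam j ^ 2 = D) (hE : r * Real.sqrt (D * n) ≤ ∑ j, |lam j|) :
    r ^ 2 * n / 32 ≤
      ((univ.filter fun j => r / 8 * Real.sqrt (D / n) ≤ lam j).card : ℝ) := by
  classical
  have hn' : (0 : ℝ) < n := by exact_mod_cast hn
  set w := Real.sqrt (D / n) with hw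
  have hw0 : 0 < w := Real.sqrt_pos.2 (div_pos hD hn')
  have hw2 : w ^ 2 = D / n := Real.sq_sqrt (div_pos hD hn').le
  have hDw : D = n * w ^ 2 := by
    rw [hw2]
    field_simp
  have hQ : Real.sqrt (D * n) = n * w := by
    rw [hDw, show (n : ℝ) * w ^ 2 * n = (n * w) ^ 2 by ring]
    exact Real.sqrt_sq (by positivity)
  rw [hQ] at hE
  set S := univ.filter fun j => r / 8 * w ≤ lam j with hS
  -- the pointwise bound
  have hpt : ∀ j, (|lam j| + lam j) / 2 ≤
      r / 8 * w + (if j ∈ S then 8 / r * w else 0) + lam j ^ 2 * (r / (8 * w)) := by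
    intro j
    have hsq : 0 ≤ lam j ^ 2 * (r / (8 * w)) := by positivity
    by_cases hj : j ∈ S
    · rw [if_pos hj]
      have hj' : r / 8 * w ≤ lam j := (Finset.mem_filter.1 hj).2
      have hl : 0 < lam j := lt_of_lt_of_le (by positivity) hj'
      rw [abs_of_pos hl]
      rcases le_total (lam j) (8 / r * w) with h | h
      · have : 0 ≤ r / 8 * w := by positivity
        linarith
      · have h1 : lam j ≤ lam j ^ 2 * (r / (8 * w)) := by
          have h3 : 1 ≤ lam j * (r / (8 * w)) := by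
            calc (1 : ℝ) = 8 / r * w * (r / (8 * w)) := by field_simp
              _ ≤ lam j * (r / (8 * w)) := mul_le_mul_of_nonneg_right h (by positivity)
          calc lam j = lam j * 1 := (mul_one _).symm
            _ ≤ lam j * (lam j * (r / (8 * w))) := mul_le_mul_of_nonneg_left h3 hl.le
            _ = _ := by ring
        have : 0 ≤ r / 8 * w := by positivity
        have : 0 ≤ 8 / r * w := by positivity
        linarith
    · rw [if_neg hj]
      have hj' : lam j < r / 8 * w := by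
        by_contra hcon
        exact hj (Finset.mem_filter.2 ⟨Finset.mem_univ j, not_lt.1 hcon⟩)
      have h4 : 0 < r / 8 * w := by positivity
      rcases le_total 0 (lam j) with h | h
      · rw [abs_of_nonneg h]
        linarith
      · rw [abs_of_nonpos h]
        linarith
  have hsum := Finset.sum_le_sum fun j (_ : j ∈ (univ : Finset ι)) => hpt j
  have e1 : ∑ j, (|lam j| + lam j) / 2 = (∑ j, |lam j|) / 2 := by
    rw [← Finset.sum_div, Finset.sum_add_distrib, h0, add_zero]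
  have e2 : ∑ j, (r / 8 * w + (if j ∈ S then 8 / r * w else 0) + lam j ^ 2 * (r / (8 * w))) =
      n * (r / 8 * w) + S.card * (8 / r * w) + D * (r / (8 * w)) := by
    have e21 : ∑ j, (if j ∈ S then 8 / r * w else 0) = (S.card : ℝ) * (8 / r * w) := by
      rw [Finset.sum_ite_mem, Finset.univ_inter, Finset.sum_const, nsmul_eq_mul]
    have e22 : ∑ j, lam j ^ 2 * (r / (8 * w)) = D * (r / (8 * w)) := by
      rw [← Finset.sum_mul, h2]
    rw [Finset.sum_add_distrib, Finset.sum_add_distrib, Finset.sum_const, Finset.card_univ, hc,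
      nsmul_eq_mul, e21, e22]
  rw [e1, e2] at hsum
  have e3 : D * (r / (8 * w)) = n * (r / 8 * w) := by
    rw [hDw]
    field_simp
  rw [e3] at hsum
  have h5 : r * (n * w) / 4 ≤ S.card * (8 / r * w) := by
    have : r * (n * w) / 2 ≤ (∑ j, |lam j|) / 2 := by linarith
    linarith
  have h6 : r ^ 2 * n / 32 * (8 / r * w) ≤ S.card * (8 / r * w) := by
    calc r ^ 2 * n / 32 * (8 / r * w) = r * (n * w) / 4 := by
          field_simp
          ring
      _ ≤ _ := h5
  exact le_of_mul_le_mul_right h6 (by positivity)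

private theorem G1_nr_eq (z : Fin n → ℝ) : nr z = z ⬝ᵥ z := by
  unfold nr dotProduct
  exact Finset.sum_congr rfl fun v _ => by ring

private theorem G1_spec {M : Matrix (Fin n) (Fin n) ℝ} (hM : M.IsHermitian) :
    ∃ U : Matrix (Fin n) (Fin n) ℝ, U.transpose * U = 1 ∧ U * U.transpose = 1 ∧
      M = U * Matrix.diagonal hM.eigenvalues * U.transpose := by
  set U : Matrix (Fin n) (Fin n) ℝ := (hM.eigenvectorUnitary : Matrix (Fin n) (Fin n) ℝ) with hU
  have hst : star U = U.transpose := by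
    ext i j
    simp [Matrix.star_apply]
  have h1 : star U * U = 1 := Unitary.coe_star_mul_self hM.eigenvectorUnitary
  have h2 : U * star U = 1 := Unitary.coe_mul_star_self hM.eigenvectorUnitary
  rw [hst] at h1 h2
  refine ⟨U, h1, h2, ?_⟩
  have h3 := hM.spectral_theorem
  rw [Unitary.conjStarAlgAut_apply] at h3
  rw [← hst]
  exact h3

private theorem G1_sum_sq {M U : Matrix (Fin n) (Fin n) ℝ} {lam : Fin n → ℝ}
    (h1 : U.transpose * U = 1) (hM : M = U * Matrix.diagonal lam * U.transpose) :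
    ∑ u, ∑ v, M u v ^ 2 = ∑ j, lam j ^ 2 := by
  have hMt : M.transpose = M := by
    rw [hM, Matrix.transpose_mul, Matrix.transpose_mul, Matrix.transpose_transpose,
      Matrix.diagonal_transpose, Matrix.mul_assoc]
  have e1 : ∑ u, ∑ v, M u v ^ 2 = (M * M).trace := by
    unfold Matrix.trace
    refine Finset.sum_congr rfl fun u _ => ?_
    rw [Matrix.diag_apply, Matrix.mul_apply]
    refine Finset.sum_congr rfl fun v _ => ?_
    have : M v u = M u v := by
      conv_rhs => rw [← hMt]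
      rfl
    rw [this, sq]
  have e2 : M * M = U * (Matrix.diagonal fun j => lam j * lam j) * U.transpose := by
    rw [hM]
    calc U * Matrix.diagonal lam * U.transpose * (U * Matrix.diagonal lam * U.transpose)
        = U * Matrix.diagonal lam * (U.transpose * U) * (Matrix.diagonal lam * U.transpose) := by
          simp only [Matrix.mul_assoc]
      _ = U * (Matrix.diagonal lam * Matrix.diagonal lam) * U.transpose := by
          rw [h1, Matrix.mul_one]
          simp only [Matrix.mul_assoc]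
      _ = _ := by rw [Matrix.diagonal_mul_diagonal]
  rw [e1, e2, Matrix.trace_mul_comm, ← Matrix.mul_assoc, h1, Matrix.one_mul, Matrix.trace_diagonal]
  exact Finset.sum_congr rfl fun j _ => by ring

private theorem G1_trace {M U : Matrix (Fin n) (Fin n) ℝ} {lam : Fin n → ℝ}
    (h1 : U.transpose * U = 1) (hM : M = U * Matrix.diagonal lam * U.transpose) :
    ∑ u, M u u = ∑ j, lam j := by
  have e1 : ∑ u, M u u = M.trace := rfl
  rw [e1, hM, Matrix.trace_mul_comm, ← Matrix.mul_assoc, h1, Matrix.one_mul,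
    Matrix.trace_diagonal]

private theorem G1_qr {M U : Matrix (Fin n) (Fin n) ℝ} {lam : Fin n → ℝ}
    (h1 : U.transpose * U = 1) (hM : M = U * Matrix.diagonal lam * U.transpose)
    (a : Fin n → ℝ) : qr M (U.mulVec a) = ∑ j, lam j * a j ^ 2 := by
  have e1 : ∀ z, qr M z = z ⬝ᵥ M.mulVec z := by
    intro z
    unfold qr dotProduct
    refine Finset.sum_congr rfl fun u _ => ?_
    rw [Matrix.mulVec, dotProduct, Finset.mul_sum]
    exact Finset.sum_congr rfl fun v _ => by ring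
  have e2 : M.mulVec (U.mulVec a) = U.mulVec ((Matrix.diagonal lam).mulVec a) := by
    rw [Matrix.mulVec_mulVec, Matrix.mulVec_mulVec, hM, Matrix.mul_assoc, Matrix.mul_assoc, h1,
      Matrix.mul_one]
  have e3 : ∀ b c : Fin n → ℝ, U.mulVec b ⬝ᵥ U.mulVec c = b ⬝ᵥ c := by
    intro b c
    rw [Matrix.dotProduct_mulVec, Matrix.vecMul_mulVec, h1, Matrix.vecMul_one]
  rw [e1, e2, e3]
  unfold dotProduct
  refine Finset.sum_congr rfl fun j _ => ?_
  rw [Matrix.mulVec_diagonal]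
  ring

/-- PROOF. `E` is the span of the eigenvectors with eigenvalue `≥ (r / 8) √(D / n)`; its dimension is their number (`many_medium`; trace `0`,
`∑ λ j² = D`). For `y = ∑ y j u j` in `E`: `qr M y = ∑ λ j y j² ≥ (r / 8) √(D / n) |y|²`. If the row `v` of `M` is zero, then
`λ j u j v = (M u j) v = 0`, so `u j v = 0` for `λ j ≠ 0`. (`0 < n` follows from `0 < D`.) -/
theorem gain {M : Matrix (Fin n) (Fin n) ℝ} (hM : M.IsHermitian) (h0 : ∀ v, M v v = 0)
    {r D : ℝ} (hr : 0 < r) (hD : 0 < D) (h2 : ∑ u, ∑ v, M u v ^ 2 = D)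
    (hE : r * Real.sqrt (D * n) ≤ energy hM) :
    ∃ E : Submodule ℝ (Fin n → ℝ), r ^ 2 * n / 32 ≤ (Module.finrank ℝ E : ℝ) ∧
      (∀ y ∈ E, r / 8 * Real.sqrt (D / n) * nr y ≤ qr M y) ∧
      ∀ y ∈ E, ∀ v, (∀ u, M v u = 0) → y v = 0 := by
  classical
  have hn : 0 < n := by
    rcases Nat.eq_zero_or_pos n with rfl | h
    · simp at h2
      exact absurd h2.symm hD.ne'
    · exact h
  have hn' : (0 : ℝ) < n := by exact_mod_cast hn
  obtain ⟨U, hU1, hU2, hMU⟩ := G1_spec hM
  set lam := hM.eigenvalues with hlam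
  set w := Real.sqrt (D / n) with hw
  have hw0 : 0 < w := Real.sqrt_pos.2 (div_pos hD hn')
  have hl2 : ∑ j, lam j ^ 2 = D := by rw [← G1_sum_sq hU1 hMU]; exact h2
  have hl0 : ∑ j, lam j = 0 := by
    rw [← G1_trace hU1 hMU]
    exact Finset.sum_eq_zero fun v _ => h0 v
  have hcard := many_medium lam hr hD n hn (Fintype.card_fin n) hl0 hl2 hE
  set S := univ.filter fun j => r / 8 * w ≤ lam j with hS
  -- the coordinate space of `S`
  set F : Submodule ℝ (Fin n → ℝ) :=
    Submodule.span ℝ (Set.range fun j : S => (Pi.basisFun ℝ (Fin n)) (j : Fin n)) with hF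
  have hFrank : Module.finrank ℝ F = S.card := by
    have hli : LinearIndependent ℝ fun j : S => (Pi.basisFun ℝ (Fin n)) (j : Fin n) :=
      (Pi.basisFun ℝ (Fin n)).linearIndependent.comp _ Subtype.val_injective
    rw [hF, finrank_span_eq_card hli, Fintype.card_coe]
  have hFm : ∀ a ∈ F, ∀ j, j ∉ S → a j = 0 := by
    intro a ha j hj
    rw [hF] at ha
    induction ha using Submodule.span_induction with
    | mem x hx =>
      obtain ⟨i, rfl⟩ := hx
      simp only [Pi.basisFun_apply]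
      rw [Pi.single_apply, if_neg]
      rintro rfl
      exact hj i.2
    | zero => rfl
    | add x y _ _ hx hy => rw [Pi.add_apply, hx, hy, add_zero]
    | smul c x _ hx => rw [Pi.smul_apply, hx, smul_zero]
  have hUinj : Function.Injective (Matrix.mulVecLin U) := by
    intro a b hab
    have h := congrArg (fun z => U.transpose.mulVec z) hab
    simp only [Matrix.mulVecLin_apply, Matrix.mulVec_mulVec, hU1, Matrix.one_mulVec] at h
    exact h
  refine ⟨F.map (Matrix.mulVecLin U), ?_, ?_, ?_⟩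
  · have e1 : Module.finrank ℝ (F.map (Matrix.mulVecLin U)) = Module.finrank ℝ F :=
      (Submodule.equivMapOfInjective (Matrix.mulVecLin U) hUinj F).finrank_eq.symm
    rw [e1, hFrank]
    exact hcard
  · rintro y ⟨a, ha, rfl⟩
    rw [Matrix.mulVecLin_apply, G1_qr hU1 hMU]
    have e1 : nr (U.mulVec a) = ∑ j, a j ^ 2 := by
      rw [G1_nr_eq, Matrix.dotProduct_mulVec, Matrix.vecMul_mulVec, hU1, Matrix.vecMul_one,
        ← G1_nr_eq]
      rfl
    rw [e1, Finset.mul_sum]
    refine Finset.sum_le_sum fun j _ => ?_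
    by_cases hj : j ∈ S
    · exact mul_le_mul_of_nonneg_right (Finset.mem_filter.1 hj).2 (sq_nonneg _)
    · rw [hFm a ha j hj]
      simp
  · rintro y ⟨a, ha, rfl⟩ v hv
    rw [Matrix.mulVecLin_apply]
    have e1 : ∀ j, U v j * lam j = 0 := by
      intro j
      have e2 : M * U = U * Matrix.diagonal lam := by
        rw [hMU, Matrix.mul_assoc, hU1, Matrix.mul_one]
      have e3 : (M * U) v j = U v j * lam j := by
        rw [e2, Matrix.mul_diagonal]
      rw [← e3, Matrix.mul_apply]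
      exact Finset.sum_eq_zero fun u _ => by rw [hv u, zero_mul]
    rw [Matrix.mulVec, dotProduct]
    refine Finset.sum_eq_zero fun j _ => ?_
    by_cases hj : j ∈ S
    · have hj' : 0 < lam j := lt_of_lt_of_le (by positivity) (Finset.mem_filter.1 hj).2
      rcases mul_eq_zero.1 (e1 j) with h | h
      · rw [h, zero_mul]
      · exact absurd h hj'.ne'
    · rw [hFm a ha j hj, mul_zero]

end Pool.Agent.MPa9445a.BE
end
end

section

section

/-! Functions computed by programs: sizes, bounds. -/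

set_option autoImplicit false

namespace Pool.Agent.MPa9445a.BE

private theorem P1a_le {v : ℤ} {n : ℕ} : sz v ≤ n ↔ v.natAbs < 2 ^ n := Nat.size_le

private theorem P1a_lt (v : ℤ) : v.natAbs < 2 ^ sz v := Nat.lt_size_self _

/-- PROOF. `Nat.size_le`, `|a + b| ≤ 2 max`. -/
theorem sz_add (a b : ℤ) : sz (a + b) ≤ sz a + sz b + 1 := by
  rw [P1a_le]
  have h1 := P1a_lt a
  have h2 := P1a_lt b
  have h3 : (a + b).natAbs ≤ a.natAbs + b.natAbs := Int.natAbs_add_le a b
  have h4 : 2 ^ sz a ≤ 2 ^ (sz a + sz b) := Nat.pow_le_pow_right (by norm_num) (by omega)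
  have h5 : 2 ^ sz b ≤ 2 ^ (sz a + sz b) := Nat.pow_le_pow_right (by norm_num) (by omega)
  rw [pow_succ]
  omega

/-- PROOF. `Int.natAbs_neg`. -/
theorem sz_neg (a : ℤ) : sz (-a) = sz a := by
  unfold sz
  rw [Int.natAbs_neg]

/-- PROOF. `Nat.size_le`, `Int.natAbs_mul`. -/
theorem sz_mul (a b : ℤ) : sz (a * b) ≤ sz a + sz b := by
  rw [P1a_le, Int.natAbs_mul, pow_add]
  exact Nat.mul_lt_mul'' (P1a_lt a) (P1a_lt b)

/-- PROOF. `|a / b| ≤ |a|`. -/
theorem sz_div (a b : ℤ) : sz (a / b) ≤ sz a := by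
  apply Nat.size_le_size
  exact Int.natAbs_ediv_le_natAbs a b

/-- PROOF. For `b ≠ 0`: `0 ≤ a % b < |b|`; for `b = 0`: `a % b = a`. -/
theorem sz_mod (a b : ℤ) : sz (a % b) ≤ sz a + sz b := by
  rcases eq_or_ne b 0 with hb | hb
  · rw [hb, Int.emod_zero]
    omega
  · have h1 : (a % b).natAbs ≤ b.natAbs := by
      have h2 := Int.emod_nonneg a hb
      have h3 := Int.emod_lt_abs a hb
      have h4 : |b| = b.natAbs := Int.abs_eq_natAbs b
      omega
    have h5 : sz (a % b) ≤ sz b := Nat.size_le_size h1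
    omega

/-- PROOF. `Nat.size_le_size`. -/
theorem sz_mono {a b : ℤ} (h : |a| ≤ |b|) : sz a ≤ sz b := by
  apply Nat.size_le_size
  rw [Int.abs_eq_natAbs, Int.abs_eq_natAbs] at h
  exact_mod_cast h

/-- PROOF. `Nat.lt_pow_self`-like: `Nat.size_le`. -/
theorem sz_le_self (a : ℕ) : sz (a : ℤ) ≤ a := by
  rw [P1a_le]
  exact Nat.lt_two_pow_self

/-- PROOF. -/
theorem nth_nat (l : List ℤ) (i : ℕ) : nth l (i : ℤ) = l.getD i 0 := by
  unfold nth
  rw [if_pos (Int.natCast_nonneg i), Int.toNat_natCast]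

/-- PROOF. The entry is `0` or in the list. -/
theorem sz_nth (l : List ℤ) (i : ℤ) : sz (nth l i) ≤ asz l := by
  unfold nth
  split_ifs with hi
  · generalize i.toNat = j
    induction l generalizing j with
    | nil => simp [sz]
    | cons x l ih =>
      have h1 : asz (x :: l) = max (sz x) (asz l) := rfl
      rw [h1]
      cases j with
      | zero => exact le_max_left _ _
      | succ j => exact (ih j).trans (le_max_right _ _)
  · simp [sz]

section

variable {A : Type} {N : A → ℕ} {D : A → Prop} {Γ : List Ty} {ρ : A → Env Γ}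

/-- Polynomially bounded numbers have polynomial size. PROOF. `sz_le_self`, `Nat.size`. -/
theorem Bd.size {f : A → ℕ} (h : Bd N D f) : ∃ k : ℕ, ∀ a, D a → sz (f a : ℤ) ≤ (N a + 2) ^ k := by
  obtain ⟨k, hk⟩ := h
  exact ⟨k, fun a ha => (sz_le_self _).trans (hk a ha)⟩

theorem Bd.const (c : ℕ) : Bd N D (fun _ => c) := by
  refine ⟨c, fun a _ => ?_⟩
  calc c ≤ 2 ^ c := Nat.lt_two_pow_self.le
    _ ≤ (N a + 2) ^ c := Nat.pow_le_pow_left (by omega) _

theorem Bd.self : Bd N D N := by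
  exact ⟨1, fun a _ => by rw [pow_one]; omega⟩

theorem Bd.add {f g : A → ℕ} (hf : Bd N D f) (hg : Bd N D g) : Bd N D (fun a => f a + g a) := by
  obtain ⟨k, hk⟩ := hf
  obtain ⟨m, hm⟩ := hg
  refine ⟨k + m + 1, fun a ha => ?_⟩
  have h1 := hk a ha
  have h2 := hm a ha
  have h3 : (N a + 2) ^ k ≤ (N a + 2) ^ (k + m) := Nat.pow_le_pow_right (by omega) (by omega)
  have h4 : (N a + 2) ^ m ≤ (N a + 2) ^ (k + m) := Nat.pow_le_pow_right (by omega) (by omega)
  rw [pow_succ]
  nlinarith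

theorem Bd.mul {f g : A → ℕ} (hf : Bd N D f) (hg : Bd N D g) : Bd N D (fun a => f a * g a) := by
  obtain ⟨k, hk⟩ := hf
  obtain ⟨m, hm⟩ := hg
  refine ⟨k + m, fun a ha => ?_⟩
  rw [pow_add]
  exact Nat.mul_le_mul (hk a ha) (hm a ha)

theorem Bd.le {f g : A → ℕ} (hg : Bd N D g) (h : ∀ a, D a → f a ≤ g a) : Bd N D f := by
  obtain ⟨k, hk⟩ := hg
  exact ⟨k, fun a ha => (h a ha).trans (hk a ha)⟩

/-- Inside a loop. -/
theorem Bd.up {f : A → ℕ} (hf : Bd N D f) (k : A → ℕ) :
    Bd (NL N) (DL D k) (fun p => f p.1) := by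
  obtain ⟨m, hm⟩ := hf
  exact ⟨m, fun p hp => hm p.1 hp.1⟩

/-- The loop variable. -/
theorem Bd.var {k : A → ℕ} (hk : Bd N D k) : Bd (NL N) (DL D k) (fun p => p.2) := by
  obtain ⟨m, hm⟩ := hk
  exact ⟨m, fun p hp => hp.2.le.trans (hm p.1 hp.1)⟩

end

end Pool.Agent.MPa9445a.BE
end

section

/-! Functions computed by programs: arithmetic. -/

set_option autoImplicit false

namespace Pool.Agent.MPa9445a.BE

private theorem P1b_x {A : Type} (N : A → ℕ) (a : A) : (2 : ℝ) ≤ (N a : ℝ) + 2 := by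
  have : (0 : ℝ) ≤ (N a : ℝ) := Nat.cast_nonneg _
  linarith

private theorem P1b_aux {x : ℝ} (hx : 2 ≤ x) (k m : ℕ) {p q r cf cg : ℝ} (hp : p ≤ x ^ k)
    (hq : q ≤ x ^ m) (_ : 0 ≤ p) (hq0 : 0 ≤ q) (hcf : cf ≤ x ^ k) (hcg : cg ≤ x ^ m)
    (hr : r ≤ p + q + 1) :
    cf + cg + (1 + p) * (1 + q) + 1 + r ≤ x ^ (k + m + 4) := by
  have h0 : (1 : ℝ) ≤ x := by linarith
  have h1 : (1 : ℝ) ≤ x ^ k := one_le_pow₀ h0
  have h2 : (1 : ℝ) ≤ x ^ m := one_le_pow₀ h0
  have h3 : x ^ (k + m + 4) = x ^ k * x ^ m * x ^ 4 := by ring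
  have h4 : (16 : ℝ) ≤ x ^ 4 := by
    calc (16 : ℝ) = 2 ^ 4 := by norm_num
      _ ≤ x ^ 4 := pow_le_pow_left₀ (by norm_num) hx 4
  have h5 : (1 + p) * (1 + q) ≤ (1 + x ^ k) * (1 + x ^ m) :=
    mul_le_mul (by linarith) (by linarith) (by linarith) (by linarith)
  generalize x ^ k = u at *
  generalize x ^ m = v at *
  rw [h3]
  have h6 : u * v * 16 ≤ u * v * x ^ 4 :=
    mul_le_mul_of_nonneg_left h4 (mul_nonneg (by linarith) (by linarith))
  have h7 : 0 ≤ (u - 1) * (v - 1) := mul_nonneg (by linarith) (by linarith)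
  nlinarith

private theorem P1b_sub (a b : ℤ) : sz (a - b) ≤ sz a + sz b + 1 := by
  have h := sz_add a (-b)
  rw [sz_neg] at h
  exact h

section

variable {A : Type} {N : A → ℕ} {D : A → Prop} {Γ : List Ty} {ρ : A → Env Γ}

private theorem P1b_bin {f g : A → ℤ} (hf : PI N D ρ f) (hg : PI N D ρ g)
    (op : Ex Γ .int → Ex Γ .int → Ex Γ .int) (o : ℤ → ℤ → ℤ)
    (heval : ∀ a b γ, (op a b).eval γ = o (a.eval γ) (b.eval γ))
    (hcost : ∀ τ a b γ, (op a b).cost τ γ ≤ a.cost τ γ + b.cost τ γ +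
      (1 + (sz (a.eval γ) : ℝ)) * (1 + sz (b.eval γ)) + 1 + sz (o (a.eval γ) (b.eval γ)))
    (hsz : ∀ u v, sz (o u v) ≤ sz u + sz v + 1) : PI N D ρ (fun a => o (f a) (g a)) := by
  obtain ⟨e₁, k, h₁⟩ := hf
  obtain ⟨e₂, m, h₂⟩ := hg
  refine ⟨op e₁ e₂, k + m + 4, fun a ha => ?_⟩
  obtain ⟨h3, h4, h5⟩ := h₁ a ha
  obtain ⟨h6, h7, h8⟩ := h₂ a ha
  have h4' : (sz (f a) : ℝ) ≤ ((N a : ℝ) + 2) ^ k := by
    have h9 : sz (f a) ≤ (N a + 2) ^ k := h4
    exact_mod_cast h9
  have h7' : (sz (g a) : ℝ) ≤ ((N a : ℝ) + 2) ^ m := by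
    have h9 : sz (g a) ≤ (N a + 2) ^ m := h7
    exact_mod_cast h9
  have hr : (sz (o (f a) (g a)) : ℝ) ≤ sz (f a) + sz (g a) + 1 := by
    exact_mod_cast hsz (f a) (g a)
  have hp0 : (0 : ℝ) ≤ sz (f a) := Nat.cast_nonneg _
  have hq0 : (0 : ℝ) ≤ sz (g a) := Nat.cast_nonneg _
  refine ⟨?_, ?_, fun τ hτ => ⟨le_refl _, ?_⟩⟩
  · rw [heval, h3, h6]
  · have h10 := P1b_aux (P1b_x N a) k m h4' h7' hp0 hq0 (cf := 0) (cg := 0) (by positivity)
      (by positivity) hr
    have h11 : (sz (o (f a) (g a)) : ℝ) ≤ ((N a : ℝ) + 2) ^ (k + m + 4) := by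
      have h12 : (0 : ℝ) ≤ (1 + (sz (f a) : ℝ)) * (1 + sz (g a)) := by positivity
      linarith
    change sz (o (f a) (g a)) ≤ _
    exact_mod_cast h11
  · have h13 := (h5 τ hτ).2
    have h14 := (h8 τ hτ).2
    rw [one, mul_one] at h13 h14
    rw [one, mul_one]
    have h15 := hcost τ e₁ e₂ (ρ a)
    rw [h3, h6] at h15
    exact h15.trans (P1b_aux (P1b_x N a) k m h4' h7' hp0 hq0 h13 h14 hr)

/-- PROOF. `Ex.const`. -/
theorem PI.const (c : ℤ) : PI N D ρ (fun _ => c) := by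
  refine ⟨Ex.const c, sz c + 1, fun a _ => ?_⟩
  have h1 : sz c + 1 ≤ (N a + 2) ^ (sz c + 1) :=
    (Nat.lt_two_pow_self (n := sz c + 1)).le.trans (Nat.pow_le_pow_left (by omega) _)
  refine ⟨by simp only [Ex.eval], ?_, fun τ _ => ⟨le_refl _, ?_⟩⟩
  · change sz c ≤ _
    omega
  · simp only [Ex.cost]
    rw [one, mul_one, add_comm]
    exact_mod_cast h1

/-- PROOF. `Ex.add`, `sz_add`. -/
theorem PI.add {f g : A → ℤ} (hf : PI N D ρ f) (hg : PI N D ρ g) :
    PI N D ρ (fun a => f a + g a) := by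
  exact P1b_bin hf hg Ex.add (fun u v => u + v) (fun _ _ _ => by simp only [Ex.eval])
    (fun τ a b γ => by
      simp only [Ex.cost]
      have h1 : (0 : ℝ) ≤ (1 + (sz (a.eval γ) : ℝ)) * (1 + sz (b.eval γ)) := by positivity
      have h2 : (0 : ℝ) ≤ (sz (a.eval γ + b.eval γ) : ℝ) := Nat.cast_nonneg _
      linarith) (fun u v => sz_add u v)

/-- PROOF. `Ex.sub`. -/
theorem PI.sub {f g : A → ℤ} (hf : PI N D ρ f) (hg : PI N D ρ g) :
    PI N D ρ (fun a => f a - g a) := by
  exact P1b_bin hf hg Ex.sub (fun u v => u - v) (fun _ _ _ => by simp only [Ex.eval])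
    (fun τ a b γ => by
      simp only [Ex.cost]
      have h1 : (0 : ℝ) ≤ (1 + (sz (a.eval γ) : ℝ)) * (1 + sz (b.eval γ)) := by positivity
      have h2 : (0 : ℝ) ≤ (sz (a.eval γ - b.eval γ) : ℝ) := Nat.cast_nonneg _
      linarith) (fun u v => P1b_sub u v)

/-- PROOF. `Ex.mul`. -/
theorem PI.mul {f g : A → ℤ} (hf : PI N D ρ f) (hg : PI N D ρ g) :
    PI N D ρ (fun a => f a * g a) := by
  exact P1b_bin hf hg Ex.mul (fun u v => u * v) (fun _ _ _ => by simp only [Ex.eval])
    (fun τ a b γ => by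
      simp only [Ex.cost]
      have h1 : (0 : ℝ) ≤ (1 + (sz (a.eval γ) : ℝ)) * (1 + sz (b.eval γ)) := by positivity
      have h2 : (0 : ℝ) ≤ (sz (a.eval γ * b.eval γ) : ℝ) := Nat.cast_nonneg _
      linarith) (fun u v => (sz_mul u v).trans (by omega))

/-- PROOF. `Ex.div`. -/
theorem PI.div {f g : A → ℤ} (hf : PI N D ρ f) (hg : PI N D ρ g) :
    PI N D ρ (fun a => f a / g a) := by
  exact P1b_bin hf hg Ex.div (fun u v => u / v) (fun _ _ _ => by simp only [Ex.eval])
    (fun τ a b γ => by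
      simp only [Ex.cost]
      have h1 : (0 : ℝ) ≤ (1 + (sz (a.eval γ) : ℝ)) * (1 + sz (b.eval γ)) := by positivity
      have h2 : (0 : ℝ) ≤ (sz (a.eval γ / b.eval γ) : ℝ) := Nat.cast_nonneg _
      linarith) (fun u v => (sz_div u v).trans (by omega))

/-- PROOF. `Ex.mod`. -/
theorem PI.mod {f g : A → ℤ} (hf : PI N D ρ f) (hg : PI N D ρ g) :
    PI N D ρ (fun a => f a % g a) := by
  exact P1b_bin hf hg Ex.mod (fun u v => u % v) (fun _ _ _ => by simp only [Ex.eval])
    (fun τ a b γ => by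
      simp only [Ex.cost]
      have h1 : (0 : ℝ) ≤ (1 + (sz (a.eval γ) : ℝ)) * (1 + sz (b.eval γ)) := by positivity
      have h2 : (0 : ℝ) ≤ (sz (a.eval γ % b.eval γ) : ℝ) := Nat.cast_nonneg _
      linarith) (fun u v => (sz_mod u v).trans (by omega))

/-- PROOF. Induction on `k`, `PI.mul`. -/
theorem PI.pow {f : A → ℤ} (hf : PI N D ρ f) (k : ℕ) : PI N D ρ (fun a => f a ^ k) := by
  induction k with
  | zero => exact (PI.const 1).congr fun a _ => (pow_zero _).symm
  | succ k ih => exact (PI.mul ih hf).congr fun a _ => (pow_succ _ _).symm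

theorem PN.const (c : ℕ) : PN N D ρ (fun _ => c) := by
  exact PI.const (c : ℤ)

theorem PN.add {f g : A → ℕ} (hf : PN N D ρ f) (hg : PN N D ρ g) :
    PN N D ρ (fun a => f a + g a) := by
  exact (PI.add hf hg).congr fun a _ => by push_cast; rfl

theorem PN.mul {f g : A → ℕ} (hf : PN N D ρ f) (hg : PN N D ρ g) :
    PN N D ρ (fun a => f a * g a) := by
  exact (PI.mul hf hg).congr fun a _ => by push_cast; rfl

theorem PN.div {f g : A → ℕ} (hf : PN N D ρ f) (hg : PN N D ρ g) :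
    PN N D ρ (fun a => f a / g a) := by
  exact (PI.div hf hg).congr fun a _ => by push_cast; rfl

theorem PN.mod {f g : A → ℕ} (hf : PN N D ρ f) (hg : PN N D ρ g) :
    PN N D ρ (fun a => f a % g a) := by
  exact (PI.mod hf hg).congr fun a _ => by push_cast; rfl

theorem PN.pow {f : A → ℕ} (hf : PN N D ρ f) (k : ℕ) : PN N D ρ (fun a => f a ^ k) := by
  exact (PI.pow hf k).congr fun a _ => by push_cast; rfl

/-- PROOF. `Ex.pow2`; the size of `2 ^ f a` is `f a + 1`. -/
theorem PN.pow2 {f : A → ℕ} (hf : PN N D ρ f) (hb : Bd N D f) :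
    PN N D ρ (fun a => 2 ^ f a) := by
  obtain ⟨e, k, h⟩ := hf
  obtain ⟨m, hm⟩ := hb
  refine ⟨Ex.pow2 e, k + m + 4, fun a ha => ?_⟩
  obtain ⟨h3, h4, h5⟩ := h a ha
  have hs : sz ((2 : ℤ) ^ f a) = f a + 1 := by
    have h9 : ((2 : ℤ) ^ f a).natAbs = 2 ^ f a := by
      rw [Int.natAbs_pow]
      rfl
    unfold sz
    rw [h9, Nat.size_pow]
  have hm' : (f a : ℝ) ≤ ((N a : ℝ) + 2) ^ m := by exact_mod_cast hm a ha
  have h4' : (0 : ℝ) ≤ ((N a : ℝ) + 2) ^ k := by positivity
  have key : ∀ c : ℝ, c ≤ ((N a : ℝ) + 2) ^ k →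
      c + 1 + ((f a : ℝ) + 1) ≤ ((N a : ℝ) + 2) ^ (k + m + 4) := by
    intro c hc
    have h10 := P1b_aux (P1b_x N a) k m (p := 0) (q := f a) (r := 0) (cf := c) (cg := 0)
      h4' hm' le_rfl (Nat.cast_nonneg _) hc (by positivity) (by positivity)
    linarith
  refine ⟨?_, ?_, fun τ hτ => ⟨le_refl _, ?_⟩⟩
  · simp only [Ex.eval]
    rw [h3, Int.toNat_natCast]
    push_cast
    rfl
  · have h11 := key 0 h4'
    change sz (((2 ^ f a : ℕ) : ℤ)) ≤ _
    push_cast
    rw [hs]
    have h12 : ((f a : ℝ) + 1) ≤ ((N a : ℝ) + 2) ^ (k + m + 4) := by linarith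
    exact_mod_cast h12
  · have h13 := (h5 τ hτ).2
    rw [one, mul_one] at h13
    rw [one, mul_one]
    simp only [Ex.cost]
    rw [h3, Int.toNat_natCast, hs]
    push_cast
    exact key _ h13

/-- PROOF. `4 ^ f = 2 ^ (2 f)`. -/
theorem PN.pow4 {f : A → ℕ} (hf : PN N D ρ f) (hb : Bd N D f) :
    PN N D ρ (fun a => 4 ^ f a) := by
  refine (PN.pow2 (PN.mul (PN.const 2) hf) (Bd.mul (Bd.const 2) hb)).congr fun a _ => ?_
  have h1 : (2 : ℕ) ^ (2 * f a) = 4 ^ f a := by
    rw [pow_mul]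
    norm_num
  exact congrArg (fun n : ℕ => (n : ℤ)) h1

end

end Pool.Agent.MPa9445a.BE
end

section

/-! Exponential moments over the sign vectors with support `Y`. -/

set_option autoImplicit false

open Finset

namespace Pool.Agent.MPa9445a.BE

variable {n : ℕ}

/-- extension by zero -/
private noncomputable def M1d_ext (Y : Finset (Fin n)) (z : Fin Y.card → ℝ) : Fin n → ℝ :=
  fun v => if h : v ∈ Y then z (Y.equivFin ⟨v, h⟩) else 0

private theorem M1d_sum (Y : Finset (Fin n)) (F : Fin n → ℝ) (hF : ∀ v, v ∉ Y → F v = 0) :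
    ∑ v, F v = ∑ i : Fin Y.card, F (Y.equivFin.symm i : Fin n) := by
  classical
  rw [Equiv.sum_comp Y.equivFin.symm (fun y : Y => F (y : Fin n))]
  rw [Finset.sum_coe_sort Y F]
  symm
  refine Finset.sum_subset (Finset.subset_univ Y) fun v _ hv => hF v hv

private theorem M1d_ext_symm (Y : Finset (Fin n)) (z : Fin Y.card → ℝ) (i : Fin Y.card) :
    M1d_ext Y z (Y.equivFin.symm i : Fin n) = z i := by
  unfold M1d_ext
  rw [dif_pos (Y.equivFin.symm i).2]
  congr 1
  exact Y.equivFin.apply_symm_apply i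

private theorem M1d_ext_not (Y : Finset (Fin n)) (z : Fin Y.card → ℝ) {v : Fin n} (hv : v ∉ Y) :
    M1d_ext Y z v = 0 := dif_neg hv

private theorem M1d_qr (M : Matrix (Fin n) (Fin n) ℝ) (Y : Finset (Fin n)) (z : Fin Y.card → ℝ) :
    qr M (M1d_ext Y z) = ∑ i, ∑ j, M (Y.equivFin.symm i : Fin n) (Y.equivFin.symm j : Fin n) *
      z i * z j := by
  unfold qr
  rw [M1d_sum Y _ (fun u hu => Finset.sum_eq_zero fun v _ => by
    rw [M1d_ext_not Y z hu, mul_zero, zero_mul])]
  refine Finset.sum_congr rfl fun i _ => ?_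
  rw [M1d_sum Y _ (fun v hv => by rw [M1d_ext_not Y z hv, mul_zero])]
  refine Finset.sum_congr rfl fun j _ => ?_
  rw [M1d_ext_symm, M1d_ext_symm]

private theorem M1d_nr (Y : Finset (Fin n)) (z : Fin Y.card → ℝ) :
    nr (M1d_ext Y z) = nr z := by
  unfold nr
  rw [M1d_sum Y _ (fun v hv => by rw [M1d_ext_not Y z hv]; ring)]
  refine Finset.sum_congr rfl fun i _ => ?_
  rw [M1d_ext_symm]

/-- the sign vector of a boolean vector -/
private noncomputable def M1d_phi (Y : Finset (Fin n)) (b : Fin Y.card → Bool) : Fin n → ℤ :=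
  fun v => if h : v ∈ Y then (if b (Y.equivFin ⟨v, h⟩) then 1 else -1) else 0

private theorem M1d_vr (Y : Finset (Fin n)) (b : Fin Y.card → Bool) :
    vr (M1d_phi Y b) = M1d_ext Y (fun i => sg (b i)) := by
  funext v
  unfold vr M1d_phi M1d_ext sg
  by_cases hv : v ∈ Y
  · rw [dif_pos hv, dif_pos hv]
    beta_reduce
    by_cases hb : b (Y.equivFin ⟨v, hv⟩) = true
    · rw [if_pos hb, if_pos hb]
      norm_num
    · rw [if_neg hb, if_neg hb]
      norm_num
  · rw [dif_neg hv, dif_neg hv]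
    norm_num

private theorem M1d_reindex (Y : Finset (Fin n)) (f : (Fin n → ℤ) → ℝ) :
    ∑ x ∈ Om Y, f x = ∑ b : Fin Y.card → Bool, f (M1d_phi Y b) := by
  classical
  have hmem : ∀ x : Fin n → ℤ, x ∈ Om Y ↔
      ∀ v, (v ∈ Y → x v = 1 ∨ x v = -1) ∧ (v ∉ Y → x v = 0) := by
    intro x
    unfold Om
    rw [Fintype.mem_piFinset]
    refine forall_congr' fun v => ?_
    by_cases hv : v ∈ Y
    · simp [hv]
    · simp [hv]
  have hphi : ∀ b, M1d_phi Y b ∈ Om Y := by
    intro b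
    rw [hmem]
    intro v
    constructor
    · intro hv
      unfold M1d_phi
      rw [dif_pos hv]
      by_cases hb : b (Y.equivFin ⟨v, hv⟩) = true
      · left
        rw [if_pos hb]
      · right
        rw [if_neg hb]
    · intro hv
      unfold M1d_phi
      rw [dif_neg hv]
  refine Finset.sum_nbij' (fun x => fun i => decide (x (Y.equivFin.symm i : Fin n) = 1))
    (fun b => M1d_phi Y b) (fun x _ => Finset.mem_univ _) (fun b _ => hphi b) ?_ ?_ ?_
  · intro x hx
    rw [hmem] at hx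
    funext v
    unfold M1d_phi
    by_cases hv : v ∈ Y
    · rw [dif_pos hv]
      have e : ((Y.equivFin.symm (Y.equivFin ⟨v, hv⟩) : Y) : Fin n) = v := by
        rw [Equiv.symm_apply_apply]
      beta_reduce
      rw [e]
      rcases (hx v).1 hv with h1 | h1
      · rw [h1]
        simp
      · rw [h1]
        norm_num
    · rw [dif_neg hv]
      exact ((hx v).2 hv).symm
  · intro b _
    funext i
    unfold M1d_phi
    rw [dif_pos (Y.equivFin.symm i).2]
    have e : Y.equivFin ⟨(Y.equivFin.symm i : Fin n), (Y.equivFin.symm i).2⟩ = i :=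
      Y.equivFin.apply_symm_apply i
    rw [e]
    cases b i <;> norm_num
  · intro x hx
    have h2 : M1d_phi Y (fun i => decide (x (Y.equivFin.symm i : Fin n) = 1)) = x := by
      rw [hmem] at hx
      funext v
      unfold M1d_phi
      by_cases hv : v ∈ Y
      · rw [dif_pos hv]
        have e : ((Y.equivFin.symm (Y.equivFin ⟨v, hv⟩) : Y) : Fin n) = v := by
          rw [Equiv.symm_apply_apply]
        beta_reduce
        rw [e]
        rcases (hx v).1 hv with h1 | h1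
        · rw [h1]
          simp
        · rw [h1]
          norm_num
      · rw [dif_neg hv]
        exact ((hx v).2 hv).symm
    rw [h2]

/-- PROOF. Let `k = Y.card` and `f : Fin k ≃ Y` (`Finset.equivFin`). The vectors of `Om Y` correspond to `x : Fin k → Bool`:
`v ↦ if h : v ∈ Y then sg (x (f.symm ⟨v, h⟩)) else 0` (`Finset.sum_bij` or `Finset.sum_nbij'`). With `B i j = θ M (f i) (f j)`:
`θ qr M (vr x) = ∑ i j, B i j sg sg`. For `z : Fin k → ℝ` extend by zero: `|qr B z| = |θ| |qr M z'| ≤ |θ| Λ nr z' ≤ nr z / 4`. So `small_posDef`,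
`sum_exp_le` (diagonal `0`) and `det_lower` (`1 / √ det ≤ exp (2 ∑ B²)`), and `∑ B² ≤ θ² ∑ M²`. -/
theorem mgf (M : Matrix (Fin n) (Fin n) ℝ) (hs : ∀ i j, M i j = M j i) (hd : ∀ i, M i i = 0)
    {Λ θ : ℝ} (hΛ : ∀ z : Fin n → ℝ, |qr M z| ≤ Λ * nr z) (hθ : |θ| * Λ ≤ 1 / 4)
    (Y : Finset (Fin n)) :
    ∑ x ∈ Om Y, Real.exp (θ * qr M (vr x)) ≤
      2 ^ Y.card * Real.exp (2 * θ ^ 2 * ∑ u, ∑ v, M u v ^ 2) := by
  classical
  let g : Fin Y.card → Fin n := fun i => (Y.equivFin.symm i : Fin n)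
  let B : Matrix (Fin Y.card) (Fin Y.card) ℝ := fun i j => θ * M (g i) (g j)
  have hBs : ∀ i j, B i j = B j i := by
    intro i j
    show θ * M (g i) (g j) = θ * M (g j) (g i)
    rw [hs]
  have hBd : ∀ i, B i i = 0 := by
    intro i
    show θ * M (g i) (g i) = 0
    rw [hd, mul_zero]
  have hqB : ∀ z : Fin Y.card → ℝ, qr B z = θ * qr M (M1d_ext Y z) := by
    intro z
    rw [M1d_qr]
    unfold qr
    rw [Finset.mul_sum]
    refine Finset.sum_congr rfl fun i _ => ?_
    rw [Finset.mul_sum]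
    refine Finset.sum_congr rfl fun j _ => ?_
    show θ * M (g i) (g j) * z i * z j = θ * (M (g i) (g j) * z i * z j)
    ring
  have hBb : ∀ z : Fin Y.card → ℝ, |qr B z| ≤ 1 / 4 * nr z := by
    intro z
    rw [hqB, abs_mul]
    have hn : 0 ≤ nr z := Finset.sum_nonneg fun v _ => sq_nonneg (z v)
    calc |θ| * |qr M (M1d_ext Y z)| ≤ |θ| * (Λ * nr (M1d_ext Y z)) :=
          mul_le_mul_of_nonneg_left (hΛ _) (abs_nonneg θ)
      _ = |θ| * Λ * nr z := by rw [M1d_nr]; ring
      _ ≤ 1 / 4 * nr z := mul_le_mul_of_nonneg_right hθ hn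
  have hpd := small_posDef B hBs hBb
  have hsum := sum_exp_le B hBs (fun i => (hBd i).ge) hpd
  have hdet := det_lower B hBs hBd hBb
  have hdetpos := hpd.det_pos
  rw [M1d_reindex]
  have h1 : ∀ b : Fin Y.card → Bool, Real.exp (θ * qr M (vr (M1d_phi Y b))) =
      Real.exp (∑ i, ∑ j, B i j * sg (b i) * sg (b j)) := by
    intro b
    rw [M1d_vr, ← hqB]
    rfl
  rw [Finset.sum_congr rfl fun b _ => h1 b]
  refine le_trans hsum ?_
  rw [div_eq_mul_inv]
  apply mul_le_mul_of_nonneg_left _ (by positivity)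
  have hB2 : ∑ u, ∑ v, B u v ^ 2 ≤ θ ^ 2 * ∑ u, ∑ v, M u v ^ 2 := by
    have h2 : ∑ u, ∑ v, B u v ^ 2 = θ ^ 2 * ∑ i, ∑ j, M (g i) (g j) ^ 2 := by
      rw [Finset.mul_sum]
      refine Finset.sum_congr rfl fun i _ => ?_
      rw [Finset.mul_sum]
      refine Finset.sum_congr rfl fun j _ => ?_
      show (θ * M (g i) (g j)) ^ 2 = _
      ring
    rw [h2]
    apply mul_le_mul_of_nonneg_left _ (sq_nonneg θ)
    have hinj : Function.Injective g := fun i j hij =>
      Y.equivFin.symm.injective (Subtype.ext hij)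
    calc ∑ i, ∑ j, M (g i) (g j) ^ 2
        ≤ ∑ i, ∑ v, M (g i) v ^ 2 := by
          refine Finset.sum_le_sum fun i _ => ?_
          have h3 : ∑ j, M (g i) (g j) ^ 2 = ∑ v ∈ univ.image g, M (g i) v ^ 2 := by
            rw [Finset.sum_image fun a _ b _ hab => hinj hab]
          rw [h3]
          exact Finset.sum_le_sum_of_subset_of_nonneg (Finset.subset_univ _)
            fun _ _ _ => sq_nonneg _
      _ ≤ ∑ u, ∑ v, M u v ^ 2 := by
          have h3 : ∑ i, ∑ v, M (g i) v ^ 2 = ∑ u ∈ univ.image g, ∑ v, M u v ^ 2 := by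
            rw [Finset.sum_image fun a _ b _ hab => hinj hab]
          rw [h3]
          exact Finset.sum_le_sum_of_subset_of_nonneg (Finset.subset_univ _)
            fun _ _ _ => Finset.sum_nonneg fun _ _ => sq_nonneg _
  have h4 : Real.exp (-(2 * ∑ u, ∑ v, B u v ^ 2)) ≤
      Real.sqrt ((1 : Matrix _ _ ℝ) - (2 : ℝ) • B).det := by
    apply Real.le_sqrt_of_sq_le
    rw [← Real.exp_nat_mul]
    refine le_trans (le_of_eq ?_) hdet
    congr 1
    push_cast
    ring
  calc (Real.sqrt ((1 : Matrix _ _ ℝ) - (2 : ℝ) • B).det)⁻¹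
      ≤ (Real.exp (-(2 * ∑ u, ∑ v, B u v ^ 2)))⁻¹ := inv_anti₀ (Real.exp_pos _) h4
    _ = Real.exp (2 * ∑ u, ∑ v, B u v ^ 2) := by rw [Real.exp_neg, inv_inv]
    _ ≤ Real.exp (2 * θ ^ 2 * ∑ u, ∑ v, M u v ^ 2) := by
        apply Real.exp_le_exp.2
        linarith

end Pool.Agent.MPa9445a.BE
end
end

section

/-! Quadratic forms on large sets of sign vectors; the tail. -/

set_option autoImplicit false

open Finset

namespace Pool.Agent.MPa9445a.BE

variable {n : ℕ}

/-- Auxiliary: one sign of `θ`. -/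
private theorem M3_aux1 (M : Matrix (Fin n) (Fin n) ℝ) (hs : ∀ i j, M i j = M j i)
    (hd : ∀ i, M i i = 0)
    {Λ θ : ℝ} (hΛ : ∀ z : Fin n → ℝ, |qr M z| ≤ Λ * nr z) (hθ : |θ| * Λ ≤ 1 / 4)
    {Y : Finset (Fin n)} {B : Finset (Fin n → ℤ)} (hB : B ⊆ Om Y) (hne : B.Nonempty) :
    θ * (∑ x ∈ B, qr M (vr x)) / B.card ≤
      Real.log (2 ^ Y.card / B.card) + 2 * θ ^ 2 * ∑ u, ∑ v, M u v ^ 2 := by
  have hc : (0 : ℝ) < B.card := by exact_mod_cast hne.card_pos
  have hJ := convexOn_exp.map_sum_le (t := B) (w := fun _ => (1 / (B.card : ℝ)))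
    (p := fun x => θ * qr M (vr x)) (fun _ _ => by positivity)
    (by rw [Finset.sum_const, nsmul_eq_mul]; field_simp) (fun _ _ => Set.mem_univ _)
  simp only [smul_eq_mul] at hJ
  rw [← Finset.mul_sum, ← Finset.mul_sum, ← Finset.mul_sum] at hJ
  have h1 : ∑ x ∈ B, Real.exp (θ * qr M (vr x)) ≤
      2 ^ Y.card * Real.exp (2 * θ ^ 2 * ∑ u, ∑ v, M u v ^ 2) :=
    (Finset.sum_le_sum_of_subset_of_nonneg hB fun _ _ _ => (Real.exp_pos _).le).trans
      (mgf M hs hd hΛ hθ Y)
  have h2 : Real.exp (θ * (∑ x ∈ B, qr M (vr x)) / B.card) ≤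
      (2 ^ Y.card / B.card) * Real.exp (2 * θ ^ 2 * ∑ u, ∑ v, M u v ^ 2) := by
    have e1 : θ * (∑ x ∈ B, qr M (vr x)) / B.card = 1 / (B.card : ℝ) * (θ * ∑ x ∈ B, qr M (vr x)) := by
      field_simp
    rw [e1]
    refine hJ.trans ?_
    have := mul_le_mul_of_nonneg_left h1 (show (0 : ℝ) ≤ 1 / B.card by positivity)
    refine this.trans (le_of_eq ?_)
    field_simp
  have hp : (0 : ℝ) < 2 ^ Y.card / B.card := by positivity
  have h3 := Real.log_le_log (Real.exp_pos _) h2
  rwa [Real.log_exp, Real.log_mul hp.ne' (Real.exp_pos _).ne', Real.log_exp] at h3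

/-- PROOF. For `θ = ± 1 / (4 Λ)`: by Jensen's inequality (`convexOn_exp`) `exp (θ a) ≤ (1 / B.card) ∑ x ∈ B, exp (θ qr M (vr x))`, `a` the average
of `qr M (vr x)` over `B`, and by `mgf` (the sum over `B ⊆ Om Y` is at most the sum over `Om Y`)
this is `≤ (2 ^ Y.card / B.card) exp (2 θ² F)`, `F = ∑ M²`. Take logarithms and divide by `|θ|`:
`± a ≤ 4 Λ log (2 ^ Y.card / B.card) + F / (2 Λ)`. -/
theorem avg_quad (M : Matrix (Fin n) (Fin n) ℝ) (hs : ∀ i j, M i j = M j i) (hd : ∀ i, M i i = 0)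
    {Λ : ℝ} (hΛ0 : 0 < Λ) (hΛ : ∀ z : Fin n → ℝ, |qr M z| ≤ Λ * nr z)
    {Y : Finset (Fin n)} {B : Finset (Fin n → ℤ)} (hB : B ⊆ Om Y) (hne : B.Nonempty) :
    |∑ x ∈ B, qr M (vr x)| ≤
      B.card * (4 * Λ * Real.log (2 ^ Y.card / B.card) + (∑ u, ∑ v, M u v ^ 2) / (2 * Λ)) := by
  have hc : (0 : ℝ) < B.card := by exact_mod_cast hne.card_pos
  set F := ∑ u, ∑ v, M u v ^ 2 with hF
  set L := Real.log (2 ^ Y.card / B.card) with hL
  set q := ∑ x ∈ B, qr M (vr x) with hq
  have hθ : |1 / (4 * Λ)| * Λ ≤ 1 / 4 := by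
    rw [abs_of_pos (by positivity)]
    apply le_of_eq
    field_simp
  have hθ' : |(-(1 / (4 * Λ)))| * Λ ≤ 1 / 4 := by rw [abs_neg]; exact hθ
  have h1 := M3_aux1 M hs hd hΛ hθ hB hne
  have h2 := M3_aux1 M hs hd hΛ hθ' hB hne
  rw [← hF, ← hL, ← hq] at h1 h2
  have e3 : 2 * (1 / (4 * Λ)) ^ 2 * F * (4 * Λ * B.card) = B.card * (F / (2 * Λ)) := by
    field_simp
    ring
  have h1' := mul_le_mul_of_nonneg_right h1 (show (0 : ℝ) ≤ 4 * Λ * B.card by positivity)
  have h2' := mul_le_mul_of_nonneg_right h2 (show (0 : ℝ) ≤ 4 * Λ * B.card by positivity)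
  have e1 : 1 / (4 * Λ) * q / B.card * (4 * Λ * B.card) = q := by field_simp
  have e2 : -(1 / (4 * Λ)) * q / B.card * (4 * Λ * B.card) = -q := by field_simp
  rw [e1, add_mul, e3] at h1'
  rw [e2, add_mul, neg_sq, e3] at h2'
  rw [abs_le]
  constructor <;> nlinarith

/-- PROOF. Markov's inequality: each `x` with `qr M (vr x) ≥ τ` contributes at least `exp (θ τ)`, `θ = 1 / (4 Λ)`, to the sum of `mgf`,
so there are at most `2 ^ Y.card exp (2 θ² F - θ τ)` of them; the same for `-θ` and `qr M (vr x) ≤ - τ`. -/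
theorem tail_quad (M : Matrix (Fin n) (Fin n) ℝ) (hs : ∀ i j, M i j = M j i)
    (hd : ∀ i, M i i = 0) {Λ : ℝ} (hΛ0 : 0 < Λ) (hΛ : ∀ z : Fin n → ℝ, |qr M z| ≤ Λ * nr z)
    (Y : Finset (Fin n)) (τ : ℝ) {B : Finset (Fin n → ℤ)} (hB : B ⊆ Om Y)
    (hτ : ∀ x ∈ B, τ ≤ |qr M (vr x)|) :
    (B.card : ℝ) ≤ 2 * 2 ^ Y.card *
      Real.exp (-τ / (4 * Λ) + (∑ u, ∑ v, M u v ^ 2) / (8 * Λ ^ 2)) := by
  set F := ∑ u, ∑ v, M u v ^ 2 with hF
  have hθ0 : (0 : ℝ) < 1 / (4 * Λ) := by positivity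
  have hθ : |1 / (4 * Λ)| * Λ ≤ 1 / 4 := by
    rw [abs_of_pos hθ0]
    apply le_of_eq
    field_simp
  have hθ' : |(-(1 / (4 * Λ)))| * Λ ≤ 1 / 4 := by rw [abs_neg]; exact hθ
  have h1 := mgf M hs hd hΛ hθ Y
  have h2 := mgf M hs hd hΛ hθ' Y
  rw [← hF] at h1 h2
  rw [neg_sq] at h2
  have h3 : ∑ _x ∈ B, Real.exp (1 / (4 * Λ) * τ) ≤
      ∑ x ∈ B, (Real.exp (1 / (4 * Λ) * qr M (vr x)) + Real.exp (-(1 / (4 * Λ)) * qr M (vr x))) := by
    refine Finset.sum_le_sum fun x hx => ?_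
    have ht := hτ x hx
    rcases abs_cases (qr M (vr x)) with ⟨h, -⟩ | ⟨h, -⟩
    · rw [h] at ht
      have := Real.exp_le_exp.2 (mul_le_mul_of_nonneg_left ht hθ0.le)
      linarith [Real.exp_pos (-(1 / (4 * Λ)) * qr M (vr x))]
    · rw [h] at ht
      have := Real.exp_le_exp.2 (mul_le_mul_of_nonneg_left ht hθ0.le)
      have e : 1 / (4 * Λ) * -qr M (vr x) = -(1 / (4 * Λ)) * qr M (vr x) := by ring
      rw [e] at this
      linarith [Real.exp_pos ((1 / (4 * Λ)) * qr M (vr x))]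
  have h4 : ∑ x ∈ B, (Real.exp (1 / (4 * Λ) * qr M (vr x)) + Real.exp (-(1 / (4 * Λ)) * qr M (vr x))) ≤
      ∑ x ∈ Om Y, (Real.exp (1 / (4 * Λ) * qr M (vr x)) + Real.exp (-(1 / (4 * Λ)) * qr M (vr x))) :=
    Finset.sum_le_sum_of_subset_of_nonneg hB fun _ _ _ => by positivity
  rw [Finset.sum_add_distrib] at h4
  rw [Finset.sum_const, nsmul_eq_mul] at h3
  have h5 : (B.card : ℝ) * Real.exp (1 / (4 * Λ) * τ) ≤
      2 * 2 ^ Y.card * Real.exp (2 * (1 / (4 * Λ)) ^ 2 * F) := by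
    rw [Finset.sum_add_distrib] at h3
    rw [Finset.sum_add_distrib] at h4
    linarith
  have e1 : -τ / (4 * Λ) + F / (8 * Λ ^ 2) = 2 * (1 / (4 * Λ)) ^ 2 * F - 1 / (4 * Λ) * τ := by
    field_simp
    ring
  rw [e1, Real.exp_sub, mul_div_assoc', le_div_iff₀ (Real.exp_pos _)]
  exact h5

end Pool.Agent.MPa9445a.BE
end
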