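import Pool.Agent.Lib.MP_a9445a_lc.BE.X0
import Pool.Agent.Lib.MP_a9445a_lc.Mg.G111
import Pool.Agent.Lib.MP_a9445a_lc.BE.Defs

section

/-! The energy relative to the average over a heavy ball. -/

set_option autoImplicit false

open Finset

namespace Pool.Agent.MPa9445a.BE

variable {n : ℕ}

/-- The error term. -/
noncomputable def dl (n : ℕ) (D t R : ℝ) (e : ℕ) : ℝ :=
  2 * Real.sqrt (n * R) / t ^ 2 + 8 * t * e * Real.log 2 + D / (4 * t)

/-- PROOF. Let `B` be the ball, `N` its cardinality (`N > 0` by `hh`). For `y ∈ B`: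
`qf S x - qf S y = (qr P x - qr P y) + (qr A x - qr A y)` (`qf_cast`, `hM`), the first bracket is at most `2 √(n R) / t²` in absolute
value (`p_diff`, `mem_ball`; note the order of `x, y`: `nr` of the negative is the same), and `qr A x - qr A y = qr (od A) x - qr (od A) y` (`od_Om`, the diagonal
terms are the same). Sum over `y ∈ B`; the sum of the `qr (od A) (vr y)` is bounded by `avg_quad` with `Λ = 2 t` (`od_le`):
`N (8 t log (2 ^ |Y| / N) + D / (4 t))`, `log (2 ^ |Y| / N) ≤ e log 2` by `hh`, `od_sq`, `hA2`. -/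
theorem energy_ball {S : Matrix (Fin n) (Fin n) ℤ} {A P : Matrix (Fin n) (Fin n) ℝ} {t : ℝ}
    (ht : 0 < t) (hM : rl S = A + P) (hAs : ∀ u v, A u v = A v u) (hPs : ∀ u v, P u v = P v u)
    (hA : ∀ z : Fin n → ℝ, nr (A.mulVec z) ≤ t ^ 2 * nr z)
    (hA2 : ∑ u, ∑ v, A u v ^ 2 ≤ D2 S)
    (hP : ∀ z : Fin n → ℝ, t ^ 4 * nr (P.mulVec z) ≤ nr ((rl S ^ 3).mulVec z))
    (b : Fin n → ℤ) (R : ℝ) (e : ℕ) {Y : Finset (Fin n)} {x : Fin n → ℤ} (hx : x ∈ Om Y)
    (hh : 2 ^ Y.card < (ball S b R Y x).card * 2 ^ e) :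
    |(((ball S b R Y x).card * qf S x - ∑ y ∈ ball S b R Y x, qf S y : ℤ) : ℝ) -
      (ball S b R Y x).card * qr (od A) (vr x)| ≤
        (ball S b R Y x).card * dl n (D2 S) t R e := by
  classical
  set B : Finset (Fin n → ℤ) := ball S b R Y x with hB
  have hN0 : B.card ≠ 0 := by
    intro h0
    rw [h0, Nat.zero_mul] at hh
    exact Nat.not_lt_zero _ hh
  have hNpos : (0 : ℝ) < B.card := by exact_mod_cast Nat.pos_of_ne_zero hN0
  have hBne : B.Nonempty := Finset.card_ne_zero.1 hN0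
  have hBY : B ⊆ Om Y := fun y hy => (mem_ball.1 hy).1
  have hqadd : ∀ z : Fin n → ℝ, qr (rl S) z = qr A z + qr P z := by
    intro z
    rw [hM]
    unfold qr
    rw [← Finset.sum_add_distrib]
    refine Finset.sum_congr rfl fun u _ => ?_
    rw [← Finset.sum_add_distrib]
    refine Finset.sum_congr rfl fun v _ => ?_
    rw [Matrix.add_apply]
    ring
  have hod : ∀ y ∈ B, qr A (vr x) - qr A (vr y) = qr (od A) (vr x) - qr (od A) (vr y) := by
    intro y hy
    rw [od_Om A hx, od_Om A (hBY hy)]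
    ring
  have hcast : (((B.card * qf S x - ∑ y ∈ B, qf S y : ℤ)) : ℝ) =
      ∑ y ∈ B, (qr P (vr x) - qr P (vr y)) + B.card * qr (od A) (vr x) -
        ∑ y ∈ B, qr (od A) (vr y) := by
    push_cast
    rw [qf_cast]
    have h1 : ∀ y ∈ B, ((qf S y : ℤ) : ℝ) = qr (rl S) (vr y) := fun y _ => qf_cast S y
    rw [Finset.sum_congr rfl h1]
    have h2 : (B.card : ℝ) * qr (rl S) (vr x) = ∑ y ∈ B, qr (rl S) (vr x) := by
      rw [Finset.sum_const, nsmul_eq_mul]
    have h3 : (B.card : ℝ) * qr (od A) (vr x) = ∑ y ∈ B, qr (od A) (vr x) := by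
      rw [Finset.sum_const, nsmul_eq_mul]
    rw [h2, h3, ← Finset.sum_sub_distrib, ← Finset.sum_add_distrib, ← Finset.sum_sub_distrib]
    refine Finset.sum_congr rfl fun y hy => ?_
    have h4 := hod y hy
    rw [hqadd, hqadd]
    linarith
  have hPd : ∀ y ∈ B, |qr P (vr x) - qr P (vr y)| ≤ 2 * Real.sqrt (n * R) / t ^ 2 := by
    intro y hy
    rw [abs_sub_comm]
    exact p_diff hPs ht hP (nr_Om (hBY hy)).2 (nr_Om hx).2 (mem_ball.1 hy).2.2.2
  have hsum1 : |∑ y ∈ B, (qr P (vr x) - qr P (vr y))| ≤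
      B.card * (2 * Real.sqrt (n * R) / t ^ 2) := by
    refine (Finset.abs_sum_le_sum_abs _ _).trans ?_
    refine (Finset.sum_le_sum hPd).trans ?_
    rw [Finset.sum_const, nsmul_eq_mul]
  have hsum2 : |∑ y ∈ B, qr (od A) (vr y)| ≤
      B.card * (4 * (2 * t) * Real.log (2 ^ Y.card / B.card) +
        (∑ u, ∑ v, od A u v ^ 2) / (2 * (2 * t))) := by
    refine avg_quad (od A) ?_ ?_ (by linarith) (od_le ht hA) hBY hBne
    · intro i j
      unfold od
      by_cases hij : i = j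
      · rw [if_pos hij, if_pos hij.symm]
      · rw [if_neg hij, if_neg (Ne.symm hij), hAs]
    · intro i
      unfold od
      rw [if_pos rfl]
  have hlog : Real.log (2 ^ Y.card / B.card) ≤ e * Real.log 2 := by
    rw [← Real.log_pow]
    apply Real.log_le_log (by positivity)
    rw [div_le_iff₀ hNpos]
    have h1 : (2 : ℝ) ^ Y.card < B.card * 2 ^ e := by exact_mod_cast hh
    linarith
  have hF : (∑ u, ∑ v, od A u v ^ 2) / (2 * (2 * t)) ≤ (D2 S : ℝ) / (4 * t) := by
    have h1 := (od_sq A).trans hA2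
    have h2 : 2 * (2 * t) = 4 * t := by ring
    rw [h2]
    exact div_le_div_of_nonneg_right h1 (by linarith)
  have hbr : 4 * (2 * t) * Real.log (2 ^ Y.card / B.card) +
      (∑ u, ∑ v, od A u v ^ 2) / (2 * (2 * t)) ≤
      8 * t * e * Real.log 2 + (D2 S : ℝ) / (4 * t) := by
    have h1 : 4 * (2 * t) * Real.log (2 ^ Y.card / B.card) ≤
        4 * (2 * t) * (e * Real.log 2) := mul_le_mul_of_nonneg_left hlog (by linarith)
    calc 4 * (2 * t) * Real.log (2 ^ Y.card / B.card) +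
        (∑ u, ∑ v, od A u v ^ 2) / (2 * (2 * t))
        ≤ 4 * (2 * t) * (e * Real.log 2) + (D2 S : ℝ) / (4 * t) := add_le_add h1 hF
      _ = _ := by ring
  rw [hcast]
  have hgoal : ∑ y ∈ B, (qr P (vr x) - qr P (vr y)) + B.card * qr (od A) (vr x) -
      ∑ y ∈ B, qr (od A) (vr y) - B.card * qr (od A) (vr x) =
      ∑ y ∈ B, (qr P (vr x) - qr P (vr y)) - ∑ y ∈ B, qr (od A) (vr y) := by ring
  rw [hgoal]
  calc |∑ y ∈ B, (qr P (vr x) - qr P (vr y)) - ∑ y ∈ B, qr (od A) (vr y)|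
      ≤ |∑ y ∈ B, (qr P (vr x) - qr P (vr y))| + |∑ y ∈ B, qr (od A) (vr y)| := abs_sub _ _
    _ ≤ B.card * (2 * Real.sqrt (n * R) / t ^ 2) +
        B.card * (8 * t * e * Real.log 2 + (D2 S : ℝ) / (4 * t)) :=
        add_le_add hsum1 (hsum2.trans (mul_le_mul_of_nonneg_left hbr hNpos.le))
    _ = B.card * dl n (D2 S) t R e := by
        unfold dl
        ring

end Pool.Agent.MPa9445a.BE
end

section

/-! Light balls; decomposition into blocks. -/

set_option autoImplicit false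

open Finset

namespace Pool.Agent.MPa9445a.BE

variable {n : ℕ}

/-- The vertices of the blocks `i` and `j`. -/
def bk (k : Fin n → Fin 8) (i j : Fin 8) : Finset (Fin n) := univ.filter fun v => k v = i ∨ k v = j

/-- PROOF. `mem_Om`. -/
theorem rs_Om {U : Finset (Fin n)} {x : Fin n → ℤ} (hx : x ∈ Om U) (W : Finset (Fin n)) :
    rs W x ∈ Om (U ∩ W) := by
  rw [mem_Om] at hx ⊢
  intro v
  obtain ⟨h1, h2⟩ := hx v
  constructor
  · intro hv
    rw [Finset.mem_inter] at hv
    simp only [rs, if_pos hv.2]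
    exact h1 hv.1
  · intro hv
    by_cases hW : v ∈ W
    · have hU : v ∉ U := fun hU => hv (Finset.mem_inter.mpr ⟨hU, hW⟩)
      simp only [rs, if_pos hW]
      exact h2 hU
    · simp only [rs, if_neg hW]

/-- PROOF. The map `(y i) ↦ ∑ i, y i` from the product over `i : Fin 8` of the balls of the blocks `bk k i i` to the ball of `U` with radius
`64 R` is well defined: the sums and the linear forms add up, the vector is in `Om U`, and
`M³ (∑ (y i - x i))` has norm at most `8 √R` (triangle inequality, or `nr (∑ i, w i) ≤ 8 ∑ i, nr (w i)`), and injective (restrict to the blocks). So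
the product of the cardinalities is at most that of the ball; if `2 ^ |U ∩ bk| < #ball * 2 ^ e` for all eight blocks, then
`2 ^ |U| < #ball(U) 2 ^ (8 e)`. (`Fintype.card_piFinset`, `Finset.card_le_card_of_injOn`, `Finset.prod_lt_prod`.) -/
theorem light {S : Matrix (Fin n) (Fin n) ℤ} (b : Fin n → ℤ) {U : Finset (Fin n)} {R : ℝ}
    (e : ℕ) (k : Fin n → Fin 8) {x : Fin n → ℤ} (hx : x ∈ Om U)
    (h : (ball S b (64 * R) U x).card * 2 ^ (8 * e) ≤ 2 ^ U.card) :
    ∃ i, (ball S b R (U ∩ bk k i i) (rs (bk k i i) x)).card * 2 ^ e ≤ 2 ^ (U ∩ bk k i i).card := by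
  by_contra hcon
  push Not at hcon
  have hW : ∀ (i : Fin 8) (v : Fin n), v ∈ bk k i i ↔ k v = i := by
    intro i v
    simp [bk]
  have hsupp : ∀ (i : Fin 8) (y : Fin n → ℤ), y ∈ Om (U ∩ bk k i i) → ∀ v, k v ≠ i → y v = 0 := by
    intro i y hy v hv
    refine (mem_Om.mp hy v).2 fun hv' => hv ?_
    exact (hW i v).mp (Finset.mem_inter.mp hv').2
  have hΦ : ∀ (y : Fin 8 → Fin n → ℤ), (∀ i, y i ∈ Om (U ∩ bk k i i)) → ∀ v,
      y (k v) v = ∑ i, y i v := by
    intro y hy v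
    rw [Finset.sum_eq_single (k v)]
    · intro i _ hi
      exact hsupp i (y i) (hy i) v (Ne.symm hi)
    · intro h
      exact absurd (Finset.mem_univ _) h
  have hrs : ∀ v, x v = ∑ i, rs (bk k i i) x v := by
    intro v
    rw [Finset.sum_eq_single (k v)]
    · simp [rs, hW]
    · intro i _ hi
      have : v ∉ bk k i i := fun h => hi ((hW i v).mp h).symm
      simp [rs, this]
    · intro h
      exact absurd (Finset.mem_univ _) h
  have hcard : ∏ i, (ball S b R (U ∩ bk k i i) (rs (bk k i i) x)).card ≤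
      (ball S b (64 * R) U x).card := by
    rw [← Fintype.card_piFinset]
    refine Finset.card_le_card_of_injOn (fun y => fun v => y (k v) v) ?_ ?_
    · intro y hy
      have hy' : ∀ i, y i ∈ ball S b R (U ∩ bk k i i) (rs (bk k i i) x) := by
        intro i
        exact (Fintype.mem_piFinset.mp (Finset.mem_coe.mp hy)) i
      have hyOm : ∀ i, y i ∈ Om (U ∩ bk k i i) := fun i => (mem_ball.mp (hy' i)).1
      rw [Finset.mem_coe, mem_ball]
      refine ⟨?_, ?_, ?_, ?_⟩
      · rw [mem_Om]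
        intro v
        have h1 := mem_Om.mp (hyOm (k v)) v
        constructor
        · intro hv
          exact h1.1 (Finset.mem_inter.mpr ⟨hv, (hW _ _).mpr rfl⟩)
        · intro hv
          exact h1.2 fun hv' => hv (Finset.mem_inter.mp hv').1
      · calc ∑ v, y (k v) v = ∑ v, ∑ i, y i v := Finset.sum_congr rfl fun v _ => hΦ y hyOm v
          _ = ∑ i, ∑ v, y i v := Finset.sum_comm
          _ = ∑ i, ∑ v, rs (bk k i i) x v :=
            Finset.sum_congr rfl fun i _ => (mem_ball.mp (hy' i)).2.1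
          _ = ∑ v, ∑ i, rs (bk k i i) x v := Finset.sum_comm
          _ = ∑ v, x v := Finset.sum_congr rfl fun v _ => (hrs v).symm
      · calc lf b (fun v => y (k v) v) = ∑ v, ∑ i, b v * y i v := by
              unfold lf
              refine Finset.sum_congr rfl fun v _ => ?_
              beta_reduce
              rw [hΦ y hyOm v, Finset.mul_sum]
          _ = ∑ i, ∑ v, b v * y i v := Finset.sum_comm
          _ = ∑ i, ∑ v, b v * rs (bk k i i) x v :=
            Finset.sum_congr rfl fun i _ => (mem_ball.mp (hy' i)).2.2.1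
          _ = ∑ v, ∑ i, b v * rs (bk k i i) x v := Finset.sum_comm
          _ = lf b x := by
              unfold lf
              refine Finset.sum_congr rfl fun v _ => ?_
              rw [← Finset.mul_sum, ← hrs v]
      · have hvec : vr (fun v => y (k v) v) - vr x =
            ∑ i, (vr (y i) - vr (rs (bk k i i) x)) := by
          funext v
          simp only [Pi.sub_apply, Finset.sum_apply, vr]
          rw [Finset.sum_sub_distrib, hΦ y hyOm v]
          have h2 : (x v : ℝ) = ∑ i, ((rs (bk k i i) x v : ℤ) : ℝ) := by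
            rw [← Int.cast_sum, ← hrs v]
          rw [h2]
          push_cast
          ring
        have hle : ∀ w : Fin 8 → Fin n → ℝ, nr (∑ i, w i) ≤ 8 * ∑ i, nr (w i) := by
          intro w
          unfold nr
          rw [Finset.sum_comm, Finset.mul_sum]
          refine Finset.sum_le_sum fun v _ => ?_
          rw [Finset.sum_apply]
          have h3 := sq_sum_le_card_mul_sum_sq (s := (Finset.univ : Finset (Fin 8)))
            (f := fun i => w i v)
          simpa using h3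
        rw [hvec, Matrix.mulVec_sum]
        refine (hle _).trans ?_
        have h4 : ∑ i : Fin 8, nr ((rl S ^ 3).mulVec (vr (y i) - vr (rs (bk k i i) x))) ≤
            ∑ _i : Fin 8, R := Finset.sum_le_sum fun i _ => (mem_ball.mp (hy' i)).2.2.2
        rw [Finset.sum_const, Finset.card_univ, Fintype.card_fin, nsmul_eq_mul] at h4
        push_cast at h4
        linarith
    · intro y hy z hz hyz
      have hyOm : ∀ i, y i ∈ Om (U ∩ bk k i i) := fun i =>
        (mem_ball.mp ((Fintype.mem_piFinset.mp (Finset.mem_coe.mp hy)) i)).1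
      have hzOm : ∀ i, z i ∈ Om (U ∩ bk k i i) := fun i =>
        (mem_ball.mp ((Fintype.mem_piFinset.mp (Finset.mem_coe.mp hz)) i)).1
      funext i v
      by_cases hv : k v = i
      · have h5 := congrFun hyz v
        simp only [hv] at h5
        exact h5
      · rw [hsupp i _ (hyOm i) v hv, hsupp i _ (hzOm i) v hv]
  have hU : U.card = ∑ i, (U ∩ bk k i i).card := by
    rw [Finset.card_eq_sum_card_fiberwise (f := k) (t := Finset.univ) (fun v _ => Finset.mem_coe.mpr (Finset.mem_univ _))]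
    refine Finset.sum_congr rfl fun i _ => ?_
    congr 1
    ext v
    simp [hW]
  have hprod : ∏ i : Fin 8, 2 ^ (U ∩ bk k i i).card <
      ∏ i : Fin 8, ((ball S b R (U ∩ bk k i i) (rs (bk k i i) x)).card * 2 ^ e) := by
    refine Finset.prod_lt_prod_of_nonempty (fun i _ => by positivity) (fun i _ => hcon i) ?_
    exact ⟨0, Finset.mem_univ _⟩
  rw [Finset.prod_pow_eq_pow_sum, ← hU, Finset.prod_mul_distrib, Finset.prod_const,
    Finset.card_univ, Fintype.card_fin, ← pow_mul, mul_comm e 8] at hprod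
  have := Nat.mul_le_mul_right (2 ^ (8 * e)) hcard
  omega

/-- PROOF. Let `m i j = ∑_{u ∈ block i, v ∈ block j} M u v x u x v`. `qr M x = ∑ i j, m i j`. For `i ≠ j` the form of the restriction to the blocks `i, j` is `m i i + m j j + m i j + m j i`, and
for `i = j` it is `m i i`. So `qr M x = ∑_{i < j} (form of i, j) - 6 ∑ i, m i i`, at most `28 η + 48 η`. -/
theorem split (M : Matrix (Fin n) (Fin n) ℝ) (x : Fin n → ℝ) (k : Fin n → Fin 8) {η : ℝ}
    (h : ∀ i j, |qr M (fun v => if k v = i ∨ k v = j then x v else 0)| ≤ η) :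
    |qr M x| ≤ 100 * η := by
  have key : ∀ a c : Fin 8,
      (∑ i : Fin 8, ∑ j : Fin 8, (if (a = i ∨ a = j) ∧ (c = i ∨ c = j) then (1 : ℤ) else 0)) -
        13 * ∑ i : Fin 8, (if (a = i ∨ a = i) ∧ (c = i ∨ c = i) then (1 : ℤ) else 0) = 2 := by
    decide
  have hq : ∀ i j : Fin 8, qr M (fun v => if k v = i ∨ k v = j then x v else 0) =
      ∑ u, ∑ v, (M u v * x u * x v) *
        ((if (k u = i ∨ k u = j) ∧ (k v = i ∨ k v = j) then (1 : ℤ) else 0 : ℤ) : ℝ) := by
    intro i j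
    unfold qr
    refine Finset.sum_congr rfl fun u _ => Finset.sum_congr rfl fun v _ => ?_
    by_cases h1 : k u = i ∨ k u = j <;> by_cases h2 : k v = i ∨ k v = j <;> simp [h1, h2]
  have htot : 2 * qr M x = (∑ i, ∑ j, qr M (fun v => if k v = i ∨ k v = j then x v else 0)) -
      13 * ∑ i, qr M (fun v => if k v = i ∨ k v = i then x v else 0) := by
    have e1 : (∑ i, ∑ j, qr M (fun v => if k v = i ∨ k v = j then x v else 0)) =
        ∑ u, ∑ v, (M u v * x u * x v) * ∑ i, ∑ j,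
          ((if (k u = i ∨ k u = j) ∧ (k v = i ∨ k v = j) then (1 : ℤ) else 0 : ℤ) : ℝ) := by
      simp only [hq]
      calc (∑ i : Fin 8, ∑ j : Fin 8, ∑ u, ∑ v, (M u v * x u * x v) *
            ((if (k u = i ∨ k u = j) ∧ (k v = i ∨ k v = j) then (1 : ℤ) else 0 : ℤ) : ℝ))
          = ∑ i : Fin 8, ∑ u, ∑ j : Fin 8, ∑ v, (M u v * x u * x v) *
            ((if (k u = i ∨ k u = j) ∧ (k v = i ∨ k v = j) then (1 : ℤ) else 0 : ℤ) : ℝ) :=
            Finset.sum_congr rfl fun i _ => Finset.sum_comm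
        _ = ∑ u, ∑ i : Fin 8, ∑ j : Fin 8, ∑ v, (M u v * x u * x v) *
            ((if (k u = i ∨ k u = j) ∧ (k v = i ∨ k v = j) then (1 : ℤ) else 0 : ℤ) : ℝ) :=
            Finset.sum_comm
        _ = ∑ u, ∑ i : Fin 8, ∑ v, ∑ j : Fin 8, (M u v * x u * x v) *
            ((if (k u = i ∨ k u = j) ∧ (k v = i ∨ k v = j) then (1 : ℤ) else 0 : ℤ) : ℝ) :=
            Finset.sum_congr rfl fun u _ => Finset.sum_congr rfl fun i _ => Finset.sum_comm
        _ = ∑ u, ∑ v, ∑ i : Fin 8, ∑ j : Fin 8, (M u v * x u * x v) *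
            ((if (k u = i ∨ k u = j) ∧ (k v = i ∨ k v = j) then (1 : ℤ) else 0 : ℤ) : ℝ) :=
            Finset.sum_congr rfl fun u _ => Finset.sum_comm
        _ = _ := by simp only [Finset.mul_sum]
    have e2 : (∑ i, qr M (fun v => if k v = i ∨ k v = i then x v else 0)) =
        ∑ u, ∑ v, (M u v * x u * x v) * ∑ i,
          ((if (k u = i ∨ k u = i) ∧ (k v = i ∨ k v = i) then (1 : ℤ) else 0 : ℤ) : ℝ) := by
      simp only [hq]
      rw [Finset.sum_comm]
      refine Finset.sum_congr rfl fun u _ => ?_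
      rw [Finset.sum_comm]
      refine Finset.sum_congr rfl fun v _ => ?_
      rw [Finset.mul_sum]
    rw [e1, e2, Finset.mul_sum, ← Finset.sum_sub_distrib]
    unfold qr
    rw [Finset.mul_sum]
    refine Finset.sum_congr rfl fun u _ => ?_
    rw [Finset.mul_sum, Finset.mul_sum, ← Finset.sum_sub_distrib]
    refine Finset.sum_congr rfl fun v _ => ?_
    have hk := congrArg (Int.cast (R := ℝ)) (key (k u) (k v))
    rw [Int.cast_sub, Int.cast_mul, Int.cast_sum, Int.cast_sum] at hk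
    simp only [Int.cast_sum] at hk
    push_cast at hk ⊢
    linear_combination (M u v * x u * x v) * (-1 : ℝ) * hk
  have hη : 0 ≤ η := (abs_nonneg _).trans (h 0 0)
  have b1 : |∑ i, ∑ j, qr M (fun v => if k v = i ∨ k v = j then x v else 0)| ≤ 64 * η := by
    calc |∑ i, ∑ j, qr M (fun v => if k v = i ∨ k v = j then x v else 0)|
        ≤ ∑ i : Fin 8, |∑ j, qr M (fun v => if k v = i ∨ k v = j then x v else 0)| :=
          Finset.abs_sum_le_sum_abs _ _
      _ ≤ ∑ i : Fin 8, ∑ j : Fin 8, |qr M (fun v => if k v = i ∨ k v = j then x v else 0)| :=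
          Finset.sum_le_sum fun i _ => Finset.abs_sum_le_sum_abs _ _
      _ ≤ ∑ _i : Fin 8, ∑ _j : Fin 8, η :=
          Finset.sum_le_sum fun i _ => Finset.sum_le_sum fun j _ => h i j
      _ = 64 * η := by
          simp only [Finset.sum_const, Finset.card_univ, Fintype.card_fin, nsmul_eq_mul]
          push_cast
          ring
  have b2 : |∑ i, qr M (fun v => if k v = i ∨ k v = i then x v else 0)| ≤ 8 * η := by
    calc |∑ i, qr M (fun v => if k v = i ∨ k v = i then x v else 0)|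
        ≤ ∑ i : Fin 8, |qr M (fun v => if k v = i ∨ k v = i then x v else 0)| :=
          Finset.abs_sum_le_sum_abs _ _
      _ ≤ ∑ _i : Fin 8, η := Finset.sum_le_sum fun i _ => h i i
      _ = 8 * η := by
          simp only [Finset.sum_const, Finset.card_univ, Fintype.card_fin, nsmul_eq_mul]
          push_cast
          ring
  rw [abs_le] at b1 b2 ⊢
  constructor <;> linarith [b1.1, b1.2, b2.1, b2.2]

end Pool.Agent.MPa9445a.BE
end

section

/-! Functions computed by programs: comparison, arrays. -/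

set_option autoImplicit false

namespace Pool.Agent.MPa9445a.BE

private theorem P1_key {x : ℝ} (hx : 2 ≤ x) (a b : ℕ) :
    1 ≤ x ^ a ∧ 1 ≤ x ^ b ∧ x ^ a ≤ x ^ (a + b) ∧ x ^ b ≤ x ^ (a + b) ∧
      8 * x ^ (a + b) ≤ x ^ (a + b + 3) := by
  have h1 : (1 : ℝ) ≤ x := by linarith
  have ha : 1 ≤ x ^ a := one_le_pow₀ h1
  have hb : 1 ≤ x ^ b := one_le_pow₀ h1
  refine ⟨ha, hb, pow_le_pow_right₀ h1 (by omega), pow_le_pow_right₀ h1 (by omega), ?_⟩
  have h8 : (8 : ℝ) ≤ x ^ 3 := by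
    have := pow_le_pow_left₀ (by norm_num) hx 3
    norm_num at this
    exact this
  rw [pow_add x (a + b) 3]
  have : 0 ≤ x ^ (a + b) := by positivity
  nlinarith

private theorem P1_two {A : Type} (N : A → ℕ) (a : A) : (2 : ℝ) ≤ (N a : ℝ) + 2 := by
  have : (0 : ℝ) ≤ (N a : ℝ) := Nat.cast_nonneg _
  linarith

private theorem P1_cast {A : Type} {N : A → ℕ} {a : A} {m k : ℕ} (h : m ≤ (N a + 2) ^ k) :
    (m : ℝ) ≤ ((N a : ℝ) + 2) ^ k := by
  have h1 : (m : ℝ) ≤ (((N a + 2) ^ k : ℕ) : ℝ) := Nat.cast_le.mpr h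
  push_cast at h1
  exact h1

private theorem P1_mono {A : Type} {N : A → ℕ} {a : A} {m k l : ℕ} (h : m ≤ (N a + 2) ^ k)
    (hkl : k ≤ l) : m ≤ (N a + 2) ^ l :=
  h.trans (Nat.pow_le_pow_right (by omega) hkl)

section

variable {A : Type} {N : A → ℕ} {D : A → Prop} {Γ : List Ty} {ρ : A → Env Γ}

/-- PROOF. `Ex.le`. -/
theorem PB.le {f g : A → ℤ} (hf : PI N D ρ f) (hg : PI N D ρ g) :
    PB N D ρ (fun a => f a ≤ g a) := by
  obtain ⟨e1, k1, h1⟩ := hf
  obtain ⟨e2, k2, h2⟩ := hg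
  refine ⟨fun a => if f a ≤ g a then 1 else 0, ⟨Ex.le e1 e2, k1 + k2 + 3, ?_⟩, ?_⟩
  · intro a ha
    obtain ⟨h1a, h1b, h1c⟩ := h1 a ha
    obtain ⟨h2a, h2b, h2c⟩ := h2 a ha
    refine ⟨?_, ?_, ?_⟩
    · show (if e1.eval (ρ a) ≤ e2.eval (ρ a) then (1 : ℤ) else 0) = if f a ≤ g a then 1 else 0
      rw [h1a, h2a]
    · have h0 : sz (if f a ≤ g a then (1 : ℤ) else 0) ≤ 1 := by
        split_ifs
        · simp [sz]
        · simp [sz]
      exact h0.trans (Nat.one_le_pow _ _ (by omega))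
    · intro τ hτ
      refine ⟨le_refl _, ?_⟩
      have c1 := (h1c τ hτ).2
      have c2 := (h2c τ hτ).2
      have s1 : (sz (f a) : ℝ) ≤ ((N a : ℝ) + 2) ^ k1 := P1_cast h1b
      have s2 : (sz (g a) : ℝ) ≤ ((N a : ℝ) + 2) ^ k2 := P1_cast h2b
      obtain ⟨p1, p2, p3, p4, p5⟩ := P1_key (P1_two N a) k1 k2
      have e : (Ex.le e1 e2).cost τ (ρ a) = e1.cost τ (ρ a) + e2.cost τ (ρ a) + 1 +
          sz (e1.eval (ρ a)) + sz (e2.eval (ρ a)) := rfl
      rw [e, h1a, h2a]
      simp only [one, mul_one] at c1 c2 ⊢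
      linarith
  · intro a _
    by_cases h : f a ≤ g a
    · simp [h]
    · simp [h]

private theorem P1_PBcongr {q r : A → Prop} (hq : PB N D ρ q) (h : ∀ a, D a → (q a ↔ r a)) :
    PB N D ρ r := by
  obtain ⟨f, hf, hf'⟩ := hq
  exact ⟨f, hf, fun a ha => (hf' a ha).trans (h a ha)⟩

private theorem P1_and {q r : A → Prop} (hq : PB N D ρ q) (hr : PB N D ρ r) :
    PB N D ρ (fun a => q a ∧ r a) := by
  obtain ⟨f, hf, hf'⟩ := hq
  obtain ⟨g, hg, hg'⟩ := hr
  refine ⟨fun a => f a * g a, PI.mul hf hg, ?_⟩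
  intro a ha
  rw [mul_ne_zero_iff, hf' a ha, hg' a ha]

private theorem P1_not {q : A → Prop} (hq : PB N D ρ q) : PB N D ρ (fun a => ¬ q a) := by
  obtain ⟨f, hf, hf'⟩ := hq
  refine P1_PBcongr (PB.le (PI.pow hf 2) (PI.const 0)) ?_
  intro a ha
  rw [← hf' a ha]
  constructor
  · intro h h2
    have : 0 < f a ^ 2 := by positivity
    omega
  · intro h
    have h2 : f a = 0 := by
      by_contra h3
      exact h h3
    rw [h2]
    norm_num

theorem PB.lt {f g : A → ℤ} (hf : PI N D ρ f) (hg : PI N D ρ g) :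
    PB N D ρ (fun a => f a < g a) :=
  P1_PBcongr (PB.le (PI.add hf (PI.const 1)) hg) fun _ _ => Int.add_one_le_iff

theorem PB.eq {f g : A → ℤ} (hf : PI N D ρ f) (hg : PI N D ρ g) :
    PB N D ρ (fun a => f a = g a) :=
  P1_PBcongr (P1_and (PB.le hf hg) (PB.le hg hf)) fun _ _ => le_antisymm_iff.symm

theorem PB.ne {f g : A → ℤ} (hf : PI N D ρ f) (hg : PI N D ρ g) :
    PB N D ρ (fun a => f a ≠ g a) := P1_not (PB.eq hf hg)

theorem PB.leN {f g : A → ℕ} (hf : PN N D ρ f) (hg : PN N D ρ g) :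
    PB N D ρ (fun a => f a ≤ g a) :=
  P1_PBcongr (PB.le hf hg) fun _ _ => Nat.cast_le

theorem PB.ltN {f g : A → ℕ} (hf : PN N D ρ f) (hg : PN N D ρ g) :
    PB N D ρ (fun a => f a < g a) :=
  P1_PBcongr (PB.lt hf hg) fun _ _ => Nat.cast_lt

theorem PB.eqN {f g : A → ℕ} (hf : PN N D ρ f) (hg : PN N D ρ g) :
    PB N D ρ (fun a => f a = g a) :=
  P1_PBcongr (PB.eq hf hg) fun _ _ => Nat.cast_inj

/-- PROOF. `f ≠ 0 ∧ g ≠ 0 ↔ f * g ≠ 0`. -/
theorem PB.and {q r : A → Prop} (hq : PB N D ρ q) (hr : PB N D ρ r) :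
    PB N D ρ (fun a => q a ∧ r a) := P1_and hq hr

/-- PROOF. `f ^ 2 + g ^ 2 ≠ 0`. -/
theorem PB.or {q r : A → Prop} (hq : PB N D ρ q) (hr : PB N D ρ r) :
    PB N D ρ (fun a => q a ∨ r a) :=
  P1_PBcongr (P1_not (P1_and (P1_not hq) (P1_not hr))) fun _ _ => by tauto

theorem PB.not {q : A → Prop} (hq : PB N D ρ q) : PB N D ρ (fun a => ¬ q a) := P1_not hq

private theorem P1_iteD {w : ℝ → A → ℝ} {q : A → Prop} [∀ a, Decidable (q a)] {f g : A → ℤ}
    (hq : PB N D ρ q) (hf : Cp N (fun a => D a ∧ q a) ρ w .int f)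
    (hg : Cp N (fun a => D a ∧ ¬ q a) ρ w .int g) :
    Cp N D ρ w .int (fun a => if q a then f a else g a) := by
  obtain ⟨φ, ⟨ec, kc, hc⟩, hφ⟩ := hq
  obtain ⟨e1, k1, h1⟩ := hf
  obtain ⟨e2, k2, h2⟩ := hg
  refine ⟨Ex.ite ec e1 e2, kc + (k1 + k2) + 3, ?_⟩
  intro a ha
  obtain ⟨hca, hcb, hcc⟩ := hc a ha
  have hev : (Ex.ite ec e1 e2).eval (ρ a) =
      if ec.eval (ρ a) ≠ 0 then e1.eval (ρ a) else e2.eval (ρ a) := rfl
  have hco : ∀ τ : ℝ, (Ex.ite ec e1 e2).cost τ (ρ a) = ec.cost τ (ρ a) + 1 +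
      if ec.eval (ρ a) ≠ 0 then e1.cost τ (ρ a) else e2.cost τ (ρ a) := fun _ => rfl
  have hmain : ∀ (τ : ℝ) (W c : ℝ) (k : ℕ), 1 ≤ W → ec.cost τ (ρ a) ≤ ((N a : ℝ) + 2) ^ kc →
      c ≤ ((N a : ℝ) + 2) ^ k * W → k ≤ k1 + k2 →
      ec.cost τ (ρ a) + 1 + c ≤ ((N a : ℝ) + 2) ^ (kc + (k1 + k2) + 3) * W := by
    intro τ W c k hW hec hcW hk
    obtain ⟨p1, p2, p3, p4, p5⟩ := P1_key (P1_two N a) kc (k1 + k2)
    have h1x : (1 : ℝ) ≤ (N a : ℝ) + 2 := by linarith [P1_two N a]
    have hk2 : ((N a : ℝ) + 2) ^ k ≤ ((N a : ℝ) + 2) ^ (k1 + k2) := pow_le_pow_right₀ h1x hk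
    have hW0 : 0 ≤ W := by linarith
    have g1 : ((N a : ℝ) + 2) ^ k * W ≤ ((N a : ℝ) + 2) ^ (kc + (k1 + k2)) * W :=
      mul_le_mul_of_nonneg_right (hk2.trans p4) hW0
    have g2 : 1 ≤ ((N a : ℝ) + 2) ^ (kc + (k1 + k2)) * W := by nlinarith
    have g3 : ((N a : ℝ) + 2) ^ kc ≤ ((N a : ℝ) + 2) ^ (kc + (k1 + k2)) * W := by nlinarith
    have g4 : 8 * ((N a : ℝ) + 2) ^ (kc + (k1 + k2)) * W ≤
        ((N a : ℝ) + 2) ^ (kc + (k1 + k2) + 3) * W := mul_le_mul_of_nonneg_right p5 hW0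
    linarith
  by_cases hqa : q a
  · have hne : ec.eval (ρ a) ≠ 0 := by
      rw [hca]
      exact (hφ a ha).mpr hqa
    obtain ⟨h1a, h1b, h1c⟩ := h1 a ⟨ha, hqa⟩
    refine ⟨?_, ?_, ?_⟩
    · rw [hev, if_pos hne, h1a]
      exact (if_pos hqa).symm
    · have : (fun a => if q a then f a else g a) a = f a := if_pos hqa
      rw [this]
      exact P1_mono h1b (by omega)
    · intro τ hτ
      obtain ⟨hw, h1d⟩ := h1c τ hτ
      refine ⟨hw, ?_⟩
      rw [hco, if_pos hne]
      have hcd := (hcc τ hτ).2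
      simp only [one, mul_one] at hcd
      exact hmain τ _ _ k1 hw hcd h1d (by omega)
  · have hne : ¬ ec.eval (ρ a) ≠ 0 := by
      rw [hca, hφ a ha]
      exact hqa
    obtain ⟨h1a, h1b, h1c⟩ := h2 a ⟨ha, hqa⟩
    refine ⟨?_, ?_, ?_⟩
    · rw [hev, if_neg hne, h1a]
      exact (if_neg hqa).symm
    · have : (fun a => if q a then f a else g a) a = g a := if_neg hqa
      rw [this]
      exact P1_mono h1b (by omega)
    · intro τ hτ
      obtain ⟨hw, h1d⟩ := h1c τ hτ
      refine ⟨hw, ?_⟩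
      rw [hco, if_neg hne]
      have hcd := (hcc τ hτ).2
      simp only [one, mul_one] at hcd
      exact hmain τ _ _ k2 hw hcd h1d (by omega)

/-- PROOF. `Ex.ite`; for all weights. -/
theorem Cp.ite {w : ℝ → A → ℝ} {q : A → Prop} [∀ a, Decidable (q a)] {f g : A → ℤ}
    (hq : PB N D ρ q) (hf : Cp N D ρ w .int f) (hg : Cp N D ρ w .int g) :
    Cp N D ρ w .int (fun a => if q a then f a else g a) :=
  P1_iteD hq (hf.dom fun _ h => h.1) (hg.dom fun _ h => h.1)

/-- PROOF. As `Cp.ite`: only the branch which is taken is charged. -/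
theorem Cp.iteD {w : ℝ → A → ℝ} {q : A → Prop} [∀ a, Decidable (q a)] {f g : A → ℤ}
    (hq : PB N D ρ q) (hf : Cp N (fun a => D a ∧ q a) ρ w .int f)
    (hg : Cp N (fun a => D a ∧ ¬ q a) ρ w .int g) :
    Cp N D ρ w .int (fun a => if q a then f a else g a) := P1_iteD hq hf hg

/-- PROOF. `Cp.ite`, cast of `if`. -/
theorem PN.ite {q : A → Prop} [∀ a, Decidable (q a)] {f g : A → ℕ}
    (hq : PB N D ρ q) (hf : PN N D ρ f) (hg : PN N D ρ g) :
    PN N D ρ (fun a => if q a then f a else g a) := by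
  refine (Cp.ite hq hf hg).congr ?_
  intro a _
  by_cases h : q a
  · simp [h]
  · simp [h]

/-- PROOF. `a - b = if b ≤ a then a - b else 0`. -/
theorem PN.sub {f g : A → ℕ} (hf : PN N D ρ f) (hg : PN N D ρ g) :
    PN N D ρ (fun a => f a - g a) := by
  refine (Cp.ite (PB.leN hg hf) (PI.sub hf hg) (PI.const 0)).congr ?_
  intro a _
  by_cases h : g a ≤ f a
  · simp [h]
  · simp only [h, if_false]
    rw [Nat.sub_eq_zero_of_le (by omega)]
    rfl

/-- PROOF. `x.toNat = if 0 ≤ x then x else 0`. -/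
theorem PN.toNat {f : A → ℤ} (hf : PI N D ρ f) : PN N D ρ (fun a => (f a).toNat) := by
  refine (Cp.ite (PB.le (PI.const 0) hf) hf (PI.const 0)).congr ?_
  intro a _
  by_cases h : 0 ≤ f a
  · simp [h]
  · simp only [h, if_false]
    rw [Int.toNat_of_nonpos (by omega)]
    rfl

/-- PROOF. `Ex.get`, `nth_nat`, `sz_nth`. -/
theorem PI.get {l : A → List ℤ} {i : A → ℕ} (hl : PA N D ρ l) (hi : PN N D ρ i) :
    PI N D ρ (fun a => (l a).getD (i a) 0) := by
  obtain ⟨e1, k1, h1⟩ := hl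
  obtain ⟨e2, k2, h2⟩ := hi
  refine ⟨Ex.get e1 e2, k1 + k2 + 3, ?_⟩
  intro a ha
  obtain ⟨h1a, h1b, h1c⟩ := h1 a ha
  obtain ⟨h2a, h2b, h2c⟩ := h2 a ha
  have hv : nth (l a) (i a : ℤ) = (l a).getD (i a) 0 := nth_nat (l a) (i a)
  have hsz : sz ((l a).getD (i a) 0) ≤ (N a + 2) ^ k1 := by
    rw [← hv]
    refine (sz_nth _ _).trans (le_trans ?_ h1b)
    exact Nat.le_add_right _ _
  refine ⟨?_, ?_, ?_⟩
  · show nth (e1.eval (ρ a)) (e2.eval (ρ a)) = (l a).getD (i a) 0
    rw [h1a, h2a]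
    exact hv
  · exact P1_mono hsz (by omega)
  · intro τ hτ
    refine ⟨le_refl _, ?_⟩
    have c1 := (h1c τ hτ).2
    have c2 := (h2c τ hτ).2
    have s1 : (sz ((l a).getD (i a) 0) : ℝ) ≤ ((N a : ℝ) + 2) ^ k1 := P1_cast hsz
    obtain ⟨p1, p2, p3, p4, p5⟩ := P1_key (P1_two N a) k1 k2
    have e : (Ex.get e1 e2).cost τ (ρ a) = e1.cost τ (ρ a) + e2.cost τ (ρ a) + 1 +
        sz (nth (e1.eval (ρ a)) (e2.eval (ρ a))) := rfl
    rw [e, h1a, h2a, hv]
    simp only [one, mul_one] at c1 c2 ⊢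
    linarith

/-- PROOF. `Ex.len`. -/
theorem PN.len {l : A → List ℤ} (hl : PA N D ρ l) : PN N D ρ (fun a => (l a).length) := by
  obtain ⟨e1, k1, h1⟩ := hl
  refine ⟨Ex.len e1, k1 + 0 + 3, ?_⟩
  intro a ha
  obtain ⟨h1a, h1b, h1c⟩ := h1 a ha
  have hsz : sz ((l a).length : ℤ) ≤ (N a + 2) ^ k1 := by
    refine le_trans ?_ h1b
    have : sz ((l a).length : ℤ) = Nat.size (l a).length := by
      unfold sz
      rw [Int.natAbs_natCast]
    rw [this]
    exact Nat.le_add_left _ _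
  refine ⟨?_, ?_, ?_⟩
  · show ((e1.eval (ρ a)).length : ℤ) = ((l a).length : ℤ)
    rw [h1a]
  · exact P1_mono hsz (by omega)
  · intro τ hτ
    refine ⟨le_refl _, ?_⟩
    have c1 := (h1c τ hτ).2
    have s1 : (sz ((l a).length : ℤ) : ℝ) ≤ ((N a : ℝ) + 2) ^ k1 := P1_cast hsz
    obtain ⟨p1, p2, p3, p4, p5⟩ := P1_key (P1_two N a) k1 0
    have e : (Ex.len e1).cost τ (ρ a) = e1.cost τ (ρ a) + 1 +
        sz ((e1.eval (ρ a)).length : ℤ) := rfl
    rw [e, h1a]
    simp only [one, mul_one] at c1 ⊢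
    linarith

end

end Pool.Agent.MPa9445a.BE
end

section

/-! Functions computed by programs: lists. -/

set_option autoImplicit false

namespace Pool.Agent.MPa9445a.BE

/-- The array of the `f i`, `i < k`. -/
def tb (k : ℕ) (f : ℕ → ℤ) : List ℤ := (List.range k).map f

/-- The array of the `i < k` with `q i`. -/
def flt (k : ℕ) (q : ℕ → Prop) [DecidablePred q] : List ℤ :=
  ((List.range k).filter fun i => decide (q i)).map fun i : ℕ => (i : ℤ)

/-- PROOF. `List.getD_eq_getElem?_getD`, `List.getElem?_map`, `List.getElem?_range`. -/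
theorem getD_tb (k : ℕ) (f : ℕ → ℤ) (i : ℕ) : (tb k f).getD i 0 = if i < k then f i else 0 := by
  unfold tb
  rw [List.getD_eq_getElem?_getD, List.getElem?_map]
  by_cases h : i < k
  · rw [List.getElem?_range h, if_pos h]
    rfl
  · rw [if_neg h, List.getElem?_eq_none (by simpa using h)]
    rfl

theorem length_tb (k : ℕ) (f : ℕ → ℤ) : (tb k f).length = k := by
  simp [tb]

/-- PROOF. `List.find?`: the predicate holds for a maximal `f i` (`k > 0`). -/
theorem argmax_spec {k : ℕ} (hk : 0 < k) (f : ℤ → ℤ) :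
    argmax k f < k ∧ ∀ j < k, f j ≤ f (argmax k f) := by
  obtain ⟨m, hm, hmax⟩ := Finset.exists_max_image (Finset.range k) (fun i : ℕ => f (i : ℤ))
    ⟨0, Finset.mem_range.mpr hk⟩
  have h1 : (((List.range k).find? fun i : ℕ =>
      (List.range k).all fun j : ℕ => decide (f (j : ℤ) ≤ f (i : ℤ)))).isSome = true := by
    rw [List.find?_isSome]
    refine ⟨m, List.mem_range.mpr (Finset.mem_range.mp hm), ?_⟩
    rw [List.all_eq_true]
    intro j hj
    exact decide_eq_true (hmax j (Finset.mem_range.mpr (List.mem_range.mp hj)))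
  obtain ⟨i, hi⟩ := Option.isSome_iff_exists.mp h1
  have h2 : argmax k f = i := by
    unfold argmax
    rw [hi]
    rfl
  have h3 := List.find?_some hi
  have h4 := List.mem_of_find?_eq_some hi
  rw [h2]
  refine ⟨List.mem_range.mp h4, fun j hj => ?_⟩
  rw [List.all_eq_true] at h3
  exact of_decide_eq_true (h3 j (List.mem_range.mpr hj))

theorem argmax_le (k : ℕ) (f : ℤ → ℤ) : argmax k f ≤ k := by
  rcases Nat.eq_zero_or_pos k with h | h
  · subst h
    simp [argmax]
  · exact (argmax_spec h f).1.le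

/-- PROOF. `nth_nat`. -/
theorem getD_matMul (k : ℕ) (a b : List ℤ) {i j : ℕ} (hi : i < k) (hj : j < k) :
    (matMul k a b).getD (i * k + j) 0 =
      ∑ l ∈ Finset.range k, a.getD (i * k + l) 0 * b.getD (l * k + j) 0 := by
  have hlt : i * k + j < k * k := by
    calc i * k + j < i * k + k := by omega
      _ = (i + 1) * k := by ring
      _ ≤ k * k := Nat.mul_le_mul_right k hi
  have hk : 0 < k := by omega
  have hdiv : (i * k + j) / k = i := by
    rw [mul_comm i k, Nat.mul_add_div hk, Nat.div_eq_of_lt hj, add_zero]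
  have hmod : (i * k + j) % k = j := by
    rw [mul_comm i k, Nat.mul_add_mod, Nat.mod_eq_of_lt hj]
  unfold matMul
  rw [List.getD_eq_getElem?_getD, List.getElem?_map, List.getElem?_range hlt]
  simp only [Option.map_some, Option.getD_some]
  rw [hdiv, hmod]
  refine Finset.sum_congr rfl fun l _ => ?_
  rw [nth_nat, nth_nat]

end Pool.Agent.MPa9445a.BE
end

section

section

/-! Rounding. -/

set_option autoImplicit false

open Finset

namespace Pool.Agent.MPa9445a.BE

variable {n : ℕ}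

/-- the direction `e_u - e_v` -/
private def R1_d (u v : Fin n) (s : ℝ) (z : Fin n → ℝ) : Fin n → ℝ :=
  fun w => z w + s * ((if w = u then 1 else 0) - (if w = v then 1 else 0))

private theorem R1_q (M : Matrix (Fin n) (Fin n) ℝ) (z d : Fin n → ℝ) (s : ℝ) :
    qr M (fun w => z w + s * d w) = qr M z +
      s * (∑ a, ∑ b, M a b * (z a * d b + d a * z b)) + s ^ 2 * ∑ a, ∑ b, M a b * d a * d b := by
  unfold qr
  rw [Finset.mul_sum, Finset.mul_sum, ← Finset.sum_add_distrib, ← Finset.sum_add_distrib]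
  refine Finset.sum_congr rfl fun a _ => ?_
  rw [Finset.mul_sum, Finset.mul_sum, ← Finset.sum_add_distrib, ← Finset.sum_add_distrib]
  refine Finset.sum_congr rfl fun b _ => ?_
  ring

private theorem R1_dd {S : Matrix (Fin n) (Fin n) ℤ} (hS : Mat S) {u v : Fin n} (huv : u ≠ v) :
    ∑ a, ∑ b, rl S a b * ((if a = u then (1 : ℝ) else 0) - (if a = v then 1 else 0)) *
      ((if b = u then (1 : ℝ) else 0) - (if b = v then 1 else 0)) = -2 * (S u v : ℝ) := by
  have h1 : ∀ a, ∑ b, rl S a b * ((if a = u then (1 : ℝ) else 0) - (if a = v then 1 else 0)) *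
      ((if b = u then (1 : ℝ) else 0) - (if b = v then 1 else 0)) =
      ((if a = u then (1 : ℝ) else 0) - (if a = v then 1 else 0)) * (rl S a u - rl S a v) := by
    intro a
    simp only [mul_sub, mul_ite, mul_one, mul_zero, Finset.sum_sub_distrib, Finset.sum_ite_eq',
      Finset.mem_univ, if_true]
    split_ifs <;> ring
  rw [Finset.sum_congr rfl fun a _ => h1 a]
  simp only [sub_mul, ite_mul, one_mul, zero_mul, Finset.sum_sub_distrib, Finset.sum_ite_eq',
      Finset.mem_univ, if_true]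
  simp only [rl, hS.diag]
  rw [hS.symm v u]
  push_cast
  ring

private theorem R1_exp {S : Matrix (Fin n) (Fin n) ℤ} (hS : Mat S) (b : Fin n → ℤ)
    (z : Fin n → ℝ) {u v : Fin n} (huv : u ≠ v) : ∃ g : ℝ, ∀ s : ℝ,
      qr (rl S) (R1_d u v s z) + ∑ w, (b w : ℝ) * R1_d u v s z w =
        qr (rl S) z + ∑ w, (b w : ℝ) * z w + s * g - 2 * s ^ 2 * (S u v : ℝ) := by
  refine ⟨(∑ a, ∑ c, rl S a c * (z a * ((if c = u then (1 : ℝ) else 0) - (if c = v then 1 else 0)) +
    ((if a = u then (1 : ℝ) else 0) - (if a = v then 1 else 0)) * z c)) +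
    ∑ w, (b w : ℝ) * ((if w = u then (1 : ℝ) else 0) - (if w = v then 1 else 0)), fun s => ?_⟩
  unfold R1_d
  rw [R1_q, R1_dd hS huv]
  have : ∑ w, (b w : ℝ) * (z w + s * ((if w = u then (1 : ℝ) else 0) - (if w = v then 1 else 0))) =
      ∑ w, (b w : ℝ) * z w +
        s * ∑ w, (b w : ℝ) * ((if w = u then (1 : ℝ) else 0) - (if w = v then 1 else 0)) := by
    rw [Finset.mul_sum, ← Finset.sum_add_distrib]
    refine Finset.sum_congr rfl fun w _ => ?_
    ring
  rw [this]
  ring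

/-- One step of the rounding. PROOF. `f z = qr (rl S) z + ∑ b v z v`. For `u ≠ v` with `|z u| < 1`, `|z v| < 1`:
`f (z + s (e_u - e_v)) = f z + s g - 2 s² S u v` for some `g` (`S u u = S v v = 0`). Choose the sign of `s` with `s g ≥ 0` and `|s| ≤ 2` maximal such that both entries stay in `[-1, 1]`: then one of them
is `± 1`. If `S u v ≤ 0` nothing is lost, otherwise at most `2 s² ≤ 8`. -/
theorem round_step {S : Matrix (Fin n) (Fin n) ℤ} (hS : Mat S) (b : Fin n → ℤ) (z : Fin n → ℝ)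
    (hz : ∀ v, |z v| ≤ 1) {u v : Fin n} (huv : u ≠ v) (hu : |z u| < 1) (hv : |z v| < 1) :
    ∃ z' : Fin n → ℝ, (∀ w, |z' w| ≤ 1) ∧ (∀ w, w ≠ u → w ≠ v → z' w = z w) ∧
      z' u + z' v = z u + z v ∧ (|z' u| = 1 ∨ |z' v| = 1) ∧
      qr (rl S) z + ∑ w, (b w : ℝ) * z w - (if S u v ≤ 0 then 0 else 8) ≤
        qr (rl S) z' + ∑ w, (b w : ℝ) * z' w := by
  obtain ⟨g, hg⟩ := R1_exp hS b z huv
  have hu' := abs_lt.1 hu
  have hv' := abs_lt.1 hv
  -- the step with a given size
  have main : ∀ s : ℝ, 0 ≤ s * g → |z u + s| ≤ 1 → |z v - s| ≤ 1 → (|z u + s| = 1 ∨ |z v - s| = 1) →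
      s ^ 2 ≤ 4 → ∃ z' : Fin n → ℝ, (∀ w, |z' w| ≤ 1) ∧ (∀ w, w ≠ u → w ≠ v → z' w = z w) ∧
      z' u + z' v = z u + z v ∧ (|z' u| = 1 ∨ |z' v| = 1) ∧
      qr (rl S) z + ∑ w, (b w : ℝ) * z w - (if S u v ≤ 0 then 0 else 8) ≤
        qr (rl S) z' + ∑ w, (b w : ℝ) * z' w := by
    intro s hs h1 h2 h3 h4
    have eu : R1_d u v s z u = z u + s := by
      simp [R1_d, huv]
    have ev : R1_d u v s z v = z v - s := by
      simp [R1_d, huv.symm]
      ring
    have ew : ∀ w, w ≠ u → w ≠ v → R1_d u v s z w = z w := by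
      intro w hwu hwv
      simp [R1_d, hwu, hwv]
    refine ⟨R1_d u v s z, ?_, ew, ?_, ?_, ?_⟩
    · intro w
      by_cases hwu : w = u
      · rw [hwu, eu]
        exact h1
      · by_cases hwv : w = v
        · rw [hwv, ev]
          exact h2
        · rw [ew w hwu hwv]
          exact hz w
    · rw [eu, ev]
      ring
    · rw [eu, ev]
      exact h3
    · rw [hg s]
      have hb := (abs_le.1 (hS.bd u v))
      split_ifs with hle
      · have : (S u v : ℝ) ≤ 0 := by exact_mod_cast hle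
        nlinarith [sq_nonneg s]
      · have h5 : (S u v : ℝ) ≤ 1 := by exact_mod_cast hb.2
        nlinarith [sq_nonneg s]
  rcases le_total 0 g with hg0 | hg0
  · rcases le_total (1 - z u) (1 + z v) with h | h
    · refine main (1 - z u) (mul_nonneg (by linarith) hg0) ?_ ?_ (Or.inl ?_) ?_
      · rw [abs_le]; constructor <;> linarith
      · rw [abs_le]; constructor <;> linarith
      · rw [show z u + (1 - z u) = 1 by ring, abs_one]
      · nlinarith
    · refine main (1 + z v) (mul_nonneg (by linarith) hg0) ?_ ?_ (Or.inr ?_) ?_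
      · rw [abs_le]; constructor <;> linarith
      · rw [abs_le]; constructor <;> linarith
      · rw [show z v - (1 + z v) = -1 by ring, abs_neg, abs_one]
      · nlinarith
  · rcases le_total (1 + z u) (1 - z v) with h | h
    · refine main (-(1 + z u)) (mul_nonneg_of_nonpos_of_nonpos (by linarith) hg0) ?_ ?_ (Or.inl ?_) ?_
      · rw [abs_le]; constructor <;> linarith
      · rw [abs_le]; constructor <;> linarith
      · rw [show z u + -(1 + z u) = -1 by ring, abs_neg, abs_one]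
      · nlinarith
    · refine main (-(1 - z v)) (mul_nonneg_of_nonpos_of_nonpos (by linarith) hg0) ?_ ?_ (Or.inr ?_) ?_
      · rw [abs_le]; constructor <;> linarith
      · rw [abs_le]; constructor <;> linarith
      · rw [show z v - -(1 - z v) = 1 by ring, abs_one]
      · nlinarith

private theorem R1_sum (z z' : Fin n → ℝ) {u v : Fin n} (huv : u ≠ v)
    (h1 : ∀ w, w ≠ u → w ≠ v → z' w = z w) (h2 : z' u + z' v = z u + z v) :
    ∑ w, z' w = ∑ w, z w := by
  rw [← Finset.add_sum_erase Finset.univ z' (Finset.mem_univ u),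
    ← Finset.add_sum_erase Finset.univ z (Finset.mem_univ u),
    ← Finset.add_sum_erase (Finset.univ.erase u) z' (Finset.mem_erase.2 ⟨huv.symm, Finset.mem_univ v⟩),
    ← Finset.add_sum_erase (Finset.univ.erase u) z (Finset.mem_erase.2 ⟨huv.symm, Finset.mem_univ v⟩)]
  rw [Finset.sum_congr rfl (g := z) fun w hw => ?_]
  · linarith
  · rw [Finset.mem_erase, Finset.mem_erase] at hw
    exact h1 w hw.2.1 hw.1

/-- the fractional entries -/
private noncomputable def R1_fr (U : Finset (Fin n)) (z : Fin n → ℝ) : Finset (Fin n) :=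
  open Classical in U.filter (fun v => |z v| < 1)

private theorem R1_mem (U : Finset (Fin n)) (z : Fin n → ℝ) (v : Fin n) :
    v ∈ R1_fr U z ↔ v ∈ U ∧ |z v| < 1 := by
  unfold R1_fr
  rw [Finset.mem_filter]

private theorem R1_step {S : Matrix (Fin n) (Fin n) ℤ} (hS : Mat S) (b : Fin n → ℤ)
    (U : Finset (Fin n)) (σ : ℤ) (z : Fin n → ℝ)
    (hz : ∀ v, |z v| ≤ 1) (hzU : ∀ v, v ∉ U → z v = 0) (hs : ∑ v, z v = σ) {u v : Fin n}
    (huv : u ≠ v) (hu : u ∈ R1_fr U z) (hv : v ∈ R1_fr U z) :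
    ∃ z' : Fin n → ℝ, (∀ v, |z' v| ≤ 1) ∧ (∀ v, v ∉ U → z' v = 0) ∧ ∑ v, z' v = σ ∧
      R1_fr U z' ⊂ R1_fr U z ∧
      qr (rl S) z + ∑ w, (b w : ℝ) * z w - (if S u v ≤ 0 then 0 else 8) ≤
        qr (rl S) z' + ∑ w, (b w : ℝ) * z' w := by
  have hu1 := (R1_mem U z u).1 hu
  have hv1 := (R1_mem U z v).1 hv
  obtain ⟨z', h1, h2, h3, h4, h5⟩ := round_step hS b z hz huv hu1.2 hv1.2
  refine ⟨z', h1, ?_, ?_, ?_, h5⟩
  · intro w hw
    have hwu : w ≠ u := fun h => hw (h ▸ hu1.1)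
    have hwv : w ≠ v := fun h => hw (h ▸ hv1.1)
    rw [h2 w hwu hwv, hzU w hw]
  · rw [R1_sum z z' huv h2 h3, hs]
  · rw [Finset.ssubset_iff_of_subset]
    · rcases h4 with h4 | h4
      · refine ⟨u, hu, fun h => ?_⟩
        have := ((R1_mem U z' u).1 h).2
        linarith
      · refine ⟨v, hv, fun h => ?_⟩
        have := ((R1_mem U z' v).1 h).2
        linarith
    · intro w hw
      by_cases hwu : w = u
      · rw [hwu]; exact hu
      · by_cases hwv : w = v
        · rw [hwv]; exact hv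
        · have := (R1_mem U z' w).1 hw
          rw [h2 w hwu hwv] at this
          exact (R1_mem U z w).2 this

/-- at most one fractional entry -/
private theorem R1_last {S : Matrix (Fin n) (Fin n) ℤ} (b : Fin n → ℤ)
    (U : Finset (Fin n)) (σ : ℤ) (hσ : Even (σ - U.card)) (z : Fin n → ℝ)
    (hz : ∀ v, |z v| ≤ 1) (hzU : ∀ v, v ∉ U → z v = 0) (hs : ∑ v, z v = σ)
    (h1 : (R1_fr U z).card ≤ 1) :
    ∃ x ∈ Om U, ∑ v, x v = σ ∧
      qr (rl S) z + ∑ v, (b v : ℝ) * z v ≤ ((qf S x + lf b x : ℤ) : ℝ) := by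
  classical
  obtain ⟨X, hX⟩ : ∃ X : Fin n → ℤ, ∀ v, X v = if z v = 1 then 1 else if z v = -1 then -1 else 0 :=
    ⟨_, fun _ => rfl⟩
  have hX1 : ∀ v, |z v| = 1 → (X v = 1 ∨ X v = -1) ∧ (X v : ℝ) = z v := by
    intro v hv
    rcases abs_eq (zero_le_one) |>.1 hv with h | h
    · rw [hX, if_pos h, h]
      simp
    · rw [hX, if_neg (by rw [h]; norm_num), if_pos h, h]
      simp
  have hX0 : ∀ v, z v = 0 → X v = 0 := by
    intro v hv
    rw [hX, if_neg (by rw [hv]; norm_num), if_neg (by rw [hv]; norm_num)]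
  have hpar : ∀ T : Finset (Fin n), (∀ v ∈ T, |z v| = 1) → Even (∑ v ∈ T, X v - T.card) := by
    intro T hT
    have : ∑ v ∈ T, X v - (T.card : ℤ) = ∑ v ∈ T, (X v - 1) := by
      rw [Finset.sum_sub_distrib, Finset.sum_const, nsmul_eq_mul, mul_one]
    rw [this]
    refine Finset.even_sum _ fun v hv => ?_
    rcases (hX1 v (hT v hv)).1 with h | h
    · rw [h]; decide
    · rw [h]; decide
  have hnf : ∀ v ∈ U, v ∉ R1_fr U z → |z v| = 1 := by
    intro v hv hv2
    by_contra hne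
    exact hv2 ((R1_mem U z v).2 ⟨hv, lt_of_le_of_ne (hz v) hne⟩)
  have hsU : ∑ v ∈ U, z v = σ := by
    rw [← hs]
    exact Finset.sum_subset (Finset.subset_univ U) fun v _ hv => hzU v hv
  have hemp : ∀ v ∈ U, |z v| = 1 := by
    by_contra hc
    push Not at hc
    obtain ⟨u, huU, hu⟩ := hc
    have hufr : u ∈ R1_fr U z := by
      by_contra h
      exact hu (hnf u huU h)
    have hoth : ∀ v ∈ U.erase u, |z v| = 1 := by
      intro v hv
      refine hnf v (Finset.mem_of_mem_erase hv) fun h => ?_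
      exact Finset.ne_of_mem_erase hv (Finset.card_le_one.1 h1 v h u hufr)
    have hp := hpar (U.erase u) hoth
    have e1 : z u = ((σ - ∑ v ∈ U.erase u, X v : ℤ) : ℝ) := by
      push_cast
      rw [← hsU, ← Finset.add_sum_erase U z huU, Finset.sum_congr rfl fun v hv => (hX1 v (hoth v hv)).2]
      ring
    have e2 : σ - ∑ v ∈ U.erase u, X v = 0 := by
      have h3 := ((R1_mem U z u).1 hufr).2
      rw [e1] at h3
      have h4 : |(σ - ∑ v ∈ U.erase u, X v : ℤ)| < 1 := by exact_mod_cast h3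
      exact Int.abs_lt_one_iff.1 h4
    have e3 : (U.erase u).card + 1 = U.card := Finset.card_erase_add_one huU
    have e4 : Even (σ - (((U.erase u).card : ℤ) + 1)) := by
      have : ((U.erase u).card : ℤ) + 1 = (U.card : ℤ) := by exact_mod_cast e3
      rw [this]
      exact hσ
    rw [show ∑ v ∈ U.erase u, X v = σ by linarith] at hp
    have e5 := hp.sub e4
    rw [show σ - ((U.erase u).card : ℤ) - (σ - (((U.erase u).card : ℤ) + 1)) = 1 by ring] at e5
    exact absurd e5 (by decide)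
  have hXz : ∀ v, (X v : ℝ) = z v := by
    intro v
    by_cases hv : v ∈ U
    · exact (hX1 v (hemp v hv)).2
    · rw [hX0 v (hzU v hv), hzU v hv, Int.cast_zero]
  refine ⟨X, ?_, ?_, ?_⟩
  · unfold Om
    rw [Fintype.mem_piFinset]
    intro v
    by_cases hv : v ∈ U
    · rw [if_pos hv]
      simpa using (hX1 v (hemp v hv)).1
    · rw [if_neg hv]
      simpa using hX0 v (hzU v hv)
  · have : ((∑ v, X v : ℤ) : ℝ) = (σ : ℝ) := by
      rw [← hs]
      push_cast
      exact Finset.sum_congr rfl fun v _ => hXz v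
    exact_mod_cast this
  · apply le_of_eq
    unfold qf lf qr rl
    push_cast
    simp only [hXz]

private theorem R1_B {S : Matrix (Fin n) (Fin n) ℤ} (hS : Mat S) (b : Fin n → ℤ)
    (U : Finset (Fin n)) (σ : ℤ) (hσ : Even (σ - U.card)) : ∀ (k : ℕ) (z : Fin n → ℝ),
    (∀ v, |z v| ≤ 1) → (∀ v, v ∉ U → z v = 0) → ∑ v, z v = σ → (R1_fr U z).card ≤ k →
    ∃ x ∈ Om U, ∑ v, x v = σ ∧
      qr (rl S) z + ∑ v, (b v : ℝ) * z v - 8 * k ≤ ((qf S x + lf b x : ℤ) : ℝ) := by
  intro k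
  induction k with
  | zero =>
    intro z hz hzU hs hk
    obtain ⟨x, hx, hxs, h⟩ := R1_last (S := S) b U σ hσ z hz hzU hs (by omega)
    exact ⟨x, hx, hxs, by push_cast at h ⊢; linarith⟩
  | succ k ih =>
    intro z hz hzU hs hk
    by_cases h1 : (R1_fr U z).card ≤ 1
    · obtain ⟨x, hx, hxs, h⟩ := R1_last (S := S) b U σ hσ z hz hzU hs h1
      have : (0 : ℝ) ≤ ((k + 1 : ℕ) : ℝ) := Nat.cast_nonneg _
      exact ⟨x, hx, hxs, by linarith⟩
    · push Not at h1
      obtain ⟨u, hu, v, hv, huv⟩ := Finset.one_lt_card.1 h1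
      obtain ⟨z', h1, h2, h3, h4, h5⟩ := R1_step hS b U σ z hz hzU hs huv hu hv
      have h6 := Finset.card_lt_card h4
      obtain ⟨x, hx, hxs, h⟩ := ih z' h1 h2 h3 (by omega)
      refine ⟨x, hx, hxs, le_trans ?_ h⟩
      have h7 : (if S u v ≤ 0 then (0 : ℝ) else 8) ≤ 8 := by split_ifs <;> norm_num
      push_cast
      linarith

private theorem R1_cnt {S : Matrix (Fin n) (Fin n) ℤ} (T : Finset (Fin n))
    (h : ∀ u ∈ T, ∀ v ∈ T, u ≠ v → ¬ S u v ≤ 0) : (T.card : ℝ) ≤ Real.sqrt (D2 S) + 1 := by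
  rcases Nat.eq_zero_or_pos T.card with h0 | h0
  · rw [h0, Nat.cast_zero]
    have := Real.sqrt_nonneg (D2 S : ℝ)
    linarith
  · have h1 : ((T.offDiag.card : ℕ) : ℤ) ≤ D2 S := by
      calc ((T.offDiag.card : ℕ) : ℤ) = ∑ _q ∈ T.offDiag, (1 : ℤ) := by
            rw [Finset.sum_const, nsmul_eq_mul, mul_one]
        _ ≤ ∑ q ∈ T.offDiag, S q.1 q.2 ^ 2 := by
            refine Finset.sum_le_sum fun q hq => ?_
            rw [Finset.mem_offDiag] at hq
            have := h q.1 hq.1 q.2 hq.2.1 hq.2.2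
            push Not at this
            nlinarith
        _ ≤ ∑ q : Fin n × Fin n, S q.1 q.2 ^ 2 :=
            Finset.sum_le_sum_of_subset_of_nonneg (Finset.subset_univ _) fun q _ _ => sq_nonneg _
        _ = D2 S := by
            unfold D2
            rw [Fintype.sum_prod_type]
    rw [Finset.offDiag_card] at h1
    have h2 : ((T.card : ℝ) - 1) ^ 2 ≤ (D2 S : ℝ) := by
      have h3 : ((T.card : ℤ) - 1) ^ 2 ≤ D2 S := by
        refine le_trans ?_ h1
        rw [Nat.cast_sub (Nat.le_mul_self _)]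
        push_cast
        have : (1 : ℤ) ≤ T.card := by exact_mod_cast h0
        nlinarith
      exact_mod_cast h3
    have h4 := Real.abs_le_sqrt h2
    have h5 := le_abs_self ((T.card : ℝ) - 1)
    linarith

private theorem R1_A {S : Matrix (Fin n) (Fin n) ℤ} (hS : Mat S) (b : Fin n → ℤ)
    (U : Finset (Fin n)) (σ : ℤ) (hσ : Even (σ - U.card)) : ∀ (k : ℕ) (z : Fin n → ℝ),
    (∀ v, |z v| ≤ 1) → (∀ v, v ∉ U → z v = 0) → ∑ v, z v = σ → (R1_fr U z).card ≤ k →
    ∃ x ∈ Om U, ∑ v, x v = σ ∧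
      qr (rl S) z + ∑ v, (b v : ℝ) * z v - 8 * (Real.sqrt (D2 S) + 1) ≤
        ((qf S x + lf b x : ℤ) : ℝ) := by
  intro k
  induction k with
  | zero =>
    intro z hz hzU hs hk
    obtain ⟨x, hx, hxs, h⟩ := R1_last (S := S) b U σ hσ z hz hzU hs (by omega)
    have := Real.sqrt_nonneg (D2 S : ℝ)
    exact ⟨x, hx, hxs, by linarith⟩
  | succ k ih =>
    intro z hz hzU hs hk
    by_cases h1 : ∃ u ∈ R1_fr U z, ∃ v ∈ R1_fr U z, u ≠ v ∧ S u v ≤ 0
    · obtain ⟨u, hu, v, hv, huv, hle⟩ := h1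
      obtain ⟨z', h1, h2, h3, h4, h5⟩ := R1_step hS b U σ z hz hzU hs huv hu hv
      have h6 := Finset.card_lt_card h4
      obtain ⟨x, hx, hxs, h⟩ := ih z' h1 h2 h3 (by omega)
      refine ⟨x, hx, hxs, le_trans ?_ h⟩
      rw [if_pos hle] at h5
      linarith
    · push Not at h1
      have h2 := R1_cnt (S := S) (R1_fr U z) fun u hu v hv huv => not_le.2 (h1 u hu v hv huv)
      obtain ⟨x, hx, hxs, h⟩ := R1_B hS b U σ hσ (R1_fr U z).card z hz hzU hs le_rfl
      refine ⟨x, hx, hxs, le_trans ?_ h⟩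
      linarith

/-- PROOF. Induction on the number of fractional entries (`v ∈ U` with `|z v| < 1`). If there are two fractional `u ≠ v` with `S u v ≤ 0` use `round_step` without loss. Otherwise `S u v = 1` for all pairs of different
fractional entries: their number `q` satisfies `q (q - 1) ≤ D2 S`, so `q ≤ √D2 + 1`; at most `q` more steps, each of them loses at most `8`
(prove: if all pairs of fractional entries have `S u v = 1`, the total loss is at most `8 q`). At the end at most one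
entry is fractional; none, because the sum is `σ` and `σ ≡ #U` modulo `2` (the others are odd integers). -/
theorem rounding {S : Matrix (Fin n) (Fin n) ℤ} (hS : Mat S) (b : Fin n → ℤ)
    (U : Finset (Fin n)) (σ : ℤ) (hσ : Even (σ - U.card)) (z : Fin n → ℝ)
    (hz : ∀ v, |z v| ≤ 1) (hzU : ∀ v, v ∉ U → z v = 0) (hs : ∑ v, z v = σ) :
    ∃ x ∈ Om U, ∑ v, x v = σ ∧
      qr (rl S) z + ∑ v, (b v : ℝ) * z v - 8 * (Real.sqrt (D2 S) + 1) ≤
        ((qf S x + lf b x : ℤ) : ℝ) :=
  R1_A hS b U σ hσ _ z hz hzU hs le_rfl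

end Pool.Agent.MPa9445a.BE
end

section

/-! A large vector in the cube. -/

set_option autoImplicit false

open Finset

namespace Pool.Agent.MPa9445a.BE

variable {n : ℕ}

private theorem Y1_cont : Continuous (fun z : Fin n → ℝ => nr z) := by
  unfold nr
  fun_prop

private theorem Y1_par (y w : Fin n → ℝ) (ε : ℝ) :
    nr (y + ε • w) + nr (y - ε • w) = 2 * nr y + 2 * ε ^ 2 * nr w := by
  unfold nr
  rw [Finset.mul_sum, Finset.mul_sum, ← Finset.sum_add_distrib, ← Finset.sum_add_distrib]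
  refine Finset.sum_congr rfl fun v _ => ?_
  simp only [Pi.add_apply, Pi.sub_apply, Pi.smul_apply, smul_eq_mul]
  ring

/-- PROOF. `E' = {y ∈ E | y v = 0 for v ∈ B, ∑ y v = 0}` has dimension at least `finrank E - #B - 1` (it is the kernel of a linear map from `E`
to a space of dimension `#B + 1`). The set `E' ∩ [-1/2, 1/2]ⁿ` is compact and contains `0`; let `y` be a point where `nr` is maximal, and
`T = {v | |y v| = 1/2}`. If `w ∈ E'` vanishes on `T` then `y ± ε w` is in the set for small `ε > 0`, and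
`nr (y + ε w) + nr (y - ε w) = 2 nr y + 2 ε² nr w`, so `w = 0`. So the restriction `E' → (T → ℝ)` is injective, `#T ≥ dim E'`, and
`nr y ≥ #T / 4`. -/
theorem big_vector (E : Submodule ℝ (Fin n → ℝ)) (B : Finset (Fin n)) :
    ∃ y ∈ E, (∀ v ∈ B, y v = 0) ∧ ∑ v, y v = 0 ∧ (∀ v, |y v| ≤ 1 / 2) ∧
      ((Module.finrank ℝ E : ℝ) - B.card - 1) / 4 ≤ nr y := by
  classical
  obtain ⟨K, hK⟩ : ∃ K : Set (Fin n → ℝ), K = {y | y ∈ E ∧ (∀ v ∈ B, y v = 0) ∧ ∑ v, y v = 0 ∧
      ∀ v, |y v| ≤ 1 / 2} := ⟨_, rfl⟩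
  have hcl : IsClosed K := by
    have h1 : IsClosed (E : Set (Fin n → ℝ)) := E.closed_of_finiteDimensional
    have h2 : IsClosed {y : Fin n → ℝ | ∀ v ∈ B, y v = 0} := by
      simp only [Set.setOf_forall]
      exact isClosed_iInter fun v => isClosed_iInter fun _ =>
        isClosed_eq (continuous_apply v) continuous_const
    have h3 : IsClosed {y : Fin n → ℝ | ∑ v, y v = 0} :=
      isClosed_eq (continuous_finset_sum _ fun v _ => continuous_apply v) continuous_const
    have h4 : IsClosed {y : Fin n → ℝ | ∀ v, |y v| ≤ 1 / 2} := by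
      simp only [Set.setOf_forall]
      exact isClosed_iInter fun v => isClosed_le (continuous_apply v).abs continuous_const
    have : K = (E : Set (Fin n → ℝ)) ∩ ({y : Fin n → ℝ | ∀ v ∈ B, y v = 0} ∩
        ({y : Fin n → ℝ | ∑ v, y v = 0} ∩ {y : Fin n → ℝ | ∀ v, |y v| ≤ 1 / 2})) := by
      rw [hK]
      rfl
    rw [this]
    exact h1.inter (h2.inter (h3.inter h4))
  have hcp : IsCompact K := by
    refine (isCompact_Icc (a := fun _ : Fin n => (-(1 / 2) : ℝ)) (b := fun _ => (1 / 2 : ℝ))).of_isClosed_subset hcl ?_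
    intro y hy
    rw [hK] at hy
    exact ⟨fun v => (abs_le.1 (hy.2.2.2 v)).1, fun v => (abs_le.1 (hy.2.2.2 v)).2⟩
  have hne : K.Nonempty := by
    refine ⟨0, ?_⟩
    rw [hK]
    refine ⟨E.zero_mem, fun _ _ => rfl, by simp, fun v => by simp⟩
  obtain ⟨y, hyK, hmax⟩ := hcp.exists_isMaxOn hne Y1_cont.continuousOn
  have hy := hyK
  rw [hK] at hy
  refine ⟨y, hy.1, hy.2.1, hy.2.2.1, hy.2.2.2, ?_⟩
  obtain ⟨T, hT⟩ : ∃ T : Finset (Fin n), T = Finset.univ.filter (fun v => |y v| = 1 / 2) := ⟨_, rfl⟩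
  have hTm : ∀ v, v ∈ T ↔ |y v| = 1 / 2 := by
    intro v
    rw [hT]
    simp
  have hzero : ∀ w ∈ E, (∀ v ∈ B, w v = 0) → ∑ v, w v = 0 → (∀ v ∈ T, w v = 0) → w = 0 := by
    intro w hwE hwB hws hwT
    have h1 : ∀ v, ∀ᶠ ε in nhdsWithin (0 : ℝ) (Set.Ioi 0), |y v| + ε * |w v| ≤ 1 / 2 := by
      intro v
      by_cases hv : v ∈ T
      · refine Filter.Eventually.of_forall fun ε => ?_
        rw [hwT v hv, abs_zero, mul_zero, add_zero]
        exact hy.2.2.2 v
      · have hlt : |y v| < 1 / 2 := lt_of_le_of_ne (hy.2.2.2 v) fun h => hv ((hTm v).2 h)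
        have hc : Filter.Tendsto (fun ε : ℝ => |y v| + ε * |w v|) (nhdsWithin (0 : ℝ) (Set.Ioi 0))
            (nhds (|y v| + 0 * |w v|)) := by
          have : Continuous (fun ε : ℝ => |y v| + ε * |w v|) := by fun_prop
          exact (this.tendsto 0).mono_left nhdsWithin_le_nhds
        rw [zero_mul, add_zero] at hc
        exact (hc.eventually (eventually_lt_nhds hlt)).mono fun ε h => h.le
    have h2 : ∀ᶠ ε in nhdsWithin (0 : ℝ) (Set.Ioi 0), 0 < ε := self_mem_nhdsWithin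
    obtain ⟨ε, hε, hε0⟩ := ((Filter.eventually_all.2 h1).and h2).exists
    have ha : ∀ v, |(y + ε • w) v| ≤ 1 / 2 := by
      intro v
      refine le_trans ?_ (hε v)
      rw [Pi.add_apply, Pi.smul_apply, smul_eq_mul]
      refine (abs_add_le _ _).trans ?_
      rw [abs_mul, abs_of_pos hε0]
    have hb : ∀ v, |(y - ε • w) v| ≤ 1 / 2 := by
      intro v
      refine le_trans ?_ (hε v)
      rw [Pi.sub_apply, Pi.smul_apply, smul_eq_mul, sub_eq_add_neg]
      refine (abs_add_le _ _).trans ?_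
      rw [abs_neg, abs_mul, abs_of_pos hε0]
    have hKa : y + ε • w ∈ K := by
      rw [hK]
      refine ⟨E.add_mem hy.1 (E.smul_mem ε hwE), fun v hv => ?_, ?_, ha⟩
      · simp [hy.2.1 v hv, hwB v hv]
      · simp only [Pi.add_apply, Pi.smul_apply, smul_eq_mul, Finset.sum_add_distrib]
        rw [← Finset.mul_sum, hws, hy.2.2.1]
        simp
    have hKb : y - ε • w ∈ K := by
      rw [hK]
      refine ⟨E.sub_mem hy.1 (E.smul_mem ε hwE), fun v hv => ?_, ?_, hb⟩
      · simp [hy.2.1 v hv, hwB v hv]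
      · simp only [Pi.sub_apply, Pi.smul_apply, smul_eq_mul, Finset.sum_sub_distrib]
        rw [← Finset.mul_sum, hws, hy.2.2.1]
        simp
    have m1 := hmax hKa
    have m2 := hmax hKb
    have m1' : nr (y + ε • w) ≤ nr y := m1
    have m2' : nr (y - ε • w) ≤ nr y := m2
    have m3 := Y1_par y w ε
    have m4 : nr w ≤ 0 := by
      have : 2 * ε ^ 2 * nr w ≤ 0 := by linarith
      by_contra hc
      push Not at hc
      have : 0 < 2 * ε ^ 2 * nr w := by positivity
      linarith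
    have m5 : ∀ v, w v ^ 2 = 0 := by
      intro v
      have h5 : nr w = 0 := le_antisymm m4 (Finset.sum_nonneg fun v _ => sq_nonneg _)
      exact (Finset.sum_eq_zero_iff_of_nonneg fun v _ => sq_nonneg (w v)).1 h5 v (Finset.mem_univ v)
    funext v
    exact pow_eq_zero_iff (two_ne_zero) |>.1 (m5 v)
  obtain ⟨L, hL⟩ : ∃ L : E →ₗ[ℝ] ((B → ℝ) × ℝ × (T → ℝ)), ∀ w, L w =
      ((fun v : B => (w : Fin n → ℝ) v), ∑ v, (w : Fin n → ℝ) v,
        (fun v : T => (w : Fin n → ℝ) v)) := by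
    refine ⟨{ toFun := fun w => ((fun v : B => (w : Fin n → ℝ) v), ∑ v, (w : Fin n → ℝ) v,
        (fun v : T => (w : Fin n → ℝ) v)), map_add' := ?_, map_smul' := ?_ }, fun w => rfl⟩
    · intro w w'
      refine Prod.ext ?_ (Prod.ext ?_ ?_)
      · rfl
      · simp [Finset.sum_add_distrib]
      · rfl
    · intro a w
      refine Prod.ext ?_ (Prod.ext ?_ ?_)
      · rfl
      · simp [Finset.mul_sum]
      · rfl
  have hLi : Function.Injective L := by
    rw [← LinearMap.ker_eq_bot, LinearMap.ker_eq_bot']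
    intro w hw
    rw [hL] at hw
    have a1 := congrArg Prod.fst hw
    have a2 := congrArg (fun q => q.2.1) hw
    have a3 := congrArg (fun q => q.2.2) hw
    have := hzero w w.2 (fun v hv => congrFun a1 ⟨v, hv⟩) a2 (fun v hv => congrFun a3 ⟨v, hv⟩)
    exact Subtype.ext this
  have hfr := LinearMap.finrank_le_finrank_of_injective hLi
  have hfr2 : Module.finrank ℝ ((B → ℝ) × ℝ × (T → ℝ)) = B.card + (1 + T.card) := by
    rw [Module.finrank_prod, Module.finrank_prod, Module.finrank_fintype_fun_eq_card,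
      Module.finrank_fintype_fun_eq_card, Module.finrank_self, Fintype.card_coe, Fintype.card_coe]
  rw [hfr2] at hfr
  have h5 : (T.card : ℝ) / 4 ≤ nr y := by
    have : (T.card : ℝ) / 4 = ∑ v ∈ T, y v ^ 2 := by
      rw [Finset.sum_congr rfl (g := fun _ => (1 / 4 : ℝ)) fun v hv => ?_]
      · rw [Finset.sum_const, nsmul_eq_mul]
        ring
      · rw [← sq_abs, (hTm v).1 hv]
        norm_num
    rw [this]
    exact Finset.sum_le_sum_of_subset_of_nonneg (Finset.subset_univ T) fun v _ _ => sq_nonneg _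
  have h6 : (Module.finrank ℝ E : ℝ) ≤ B.card + (1 + T.card) := by exact_mod_cast hfr
  linarith

end Pool.Agent.MPa9445a.BE
end

section

/-! The optimum has high energy if its ball is heavy. -/

set_option autoImplicit false

open Finset

namespace Pool.Agent.MPa9445a.BE

variable {n : ℕ}

/-- PROOF. The average of vectors `w` with `nr w ≤ R` has `nr ≤ R` (convexity of the square, or Cauchy-Schwarz). -/
theorem nr_avg {ι : Type*} (B : Finset ι) (hB : B.Nonempty) (w : ι → Fin n → ℝ) {R : ℝ}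
    (h : ∀ i ∈ B, nr (w i) ≤ R) : nr (fun v => (∑ i ∈ B, w i v) / B.card) ≤ R := by
  have hc : (0 : ℝ) < B.card := by exact_mod_cast hB.card_pos
  unfold nr
  have h1 : ∀ v, ((∑ i ∈ B, w i v) / (B.card : ℝ)) ^ 2 ≤ (∑ i ∈ B, w i v ^ 2) / B.card := by
    intro v
    have h2 : (∑ i ∈ B, w i v) ^ 2 ≤ B.card * ∑ i ∈ B, w i v ^ 2 :=
      sq_sum_le_card_mul_sum_sq
    rw [div_pow, div_le_div_iff₀ (by positivity) hc]
    calc (∑ i ∈ B, w i v) ^ 2 * (B.card : ℝ) ≤ (B.card * ∑ i ∈ B, w i v ^ 2) * B.card :=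
          mul_le_mul_of_nonneg_right h2 hc.le
      _ = (∑ i ∈ B, w i v ^ 2) * (B.card : ℝ) ^ 2 := by ring
  refine (Finset.sum_le_sum fun v _ => h1 v).trans ?_
  rw [← Finset.sum_div, Finset.sum_comm, div_le_iff₀ hc]
  calc ∑ i ∈ B, ∑ v, w i v ^ 2 ≤ ∑ _i ∈ B, R := Finset.sum_le_sum fun i hi => h i hi
    _ = R * B.card := by rw [Finset.sum_const, nsmul_eq_mul, mul_comm]

private theorem H1_par (M : Matrix (Fin n) (Fin n) ℝ) (z y : Fin n → ℝ) :
    qr M (z + y) + qr M (z - y) = 2 * qr M z + 2 * qr M y := by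
  unfold qr
  rw [Finset.mul_sum, Finset.mul_sum, ← Finset.sum_add_distrib, ← Finset.sum_add_distrib]
  refine Finset.sum_congr rfl fun u _ => ?_
  rw [Finset.mul_sum, Finset.mul_sum, ← Finset.sum_add_distrib, ← Finset.sum_add_distrib]
  refine Finset.sum_congr rfl fun v _ => ?_
  simp only [Pi.add_apply, Pi.sub_apply]
  ring

private theorem H1_add (A P : Matrix (Fin n) (Fin n) ℝ) (z : Fin n → ℝ) :
    qr (A + P) z = qr A z + qr P z := by
  unfold qr
  rw [← Finset.sum_add_distrib]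
  refine Finset.sum_congr rfl fun u _ => ?_
  rw [← Finset.sum_add_distrib]
  refine Finset.sum_congr rfl fun v _ => ?_
  rw [Matrix.add_apply]
  ring

private theorem H1_even {U : Finset (Fin n)} {x : Fin n → ℤ} (hx : x ∈ Om U) :
    Even (∑ v, x v - U.card) := by
  have h1 := mem_Om.1 hx
  have h2 : ∑ v, x v = ∑ v ∈ U, x v := by
    symm
    exact Finset.sum_subset (Finset.subset_univ U) fun v _ hv => (h1 v).2 hv
  have h3 : (U.card : ℤ) = ∑ _v ∈ U, (1 : ℤ) := by simp
  rw [h2, h3, ← Finset.sum_sub_distrib]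
  refine Finset.even_sum _ fun v hv => ?_
  rcases (h1 v).1 hv with h | h
  · rw [h]
    exact ⟨0, by norm_num⟩
  · rw [h]
    exact ⟨-1, by norm_num⟩

private theorem H1_lin (N : Matrix (Fin n) (Fin n) ℝ) (X : Finset (Fin n → ℤ)) (hX : X.Nonempty)
    (x : Fin n → ℝ) (v : Fin n) :
    (N.mulVec ((fun u => (∑ y ∈ X, (y u : ℝ)) / X.card) - x)) v =
      (∑ y ∈ X, (N.mulVec (vr y - x)) v) / X.card := by
  have hc : (X.card : ℝ) ≠ 0 := by exact_mod_cast hX.card_pos.ne'
  simp only [Matrix.mulVec, dotProduct, Pi.sub_apply, vr]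
  rw [Finset.sum_comm, Finset.sum_div]
  refine Finset.sum_congr rfl fun u _ => ?_
  rw [← Finset.mul_sum, mul_div_assoc, Finset.sum_sub_distrib, Finset.sum_const, nsmul_eq_mul,
    sub_div, mul_div_cancel_left₀ _ hc]

/-- PROOF. Let `X` be the ball, `z` the mean of the `vr y`, `y ∈ X`. `|z v| ≤ 1`, `z v = 0` for `v ∉ U`, `∑ z v = ∑ x v`, `∑ b v z v = lf b x`,
`nr z ≤ 2 log (2 ^ |U| / #X) ≤ 2 e log 2` (`mean_norm`, `hh`), `nr (M³ (z - vr x)) ≤ R` (`nr_avg`, `mem_ball`, linearity). `B = {v | 1/2 < |z v|}`, `#B ≤ 4 nr z`. `E` from `gain` (trace zero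
as `S v v = 0`), `y` from `big_vector E B`; `y v = 0` for `v ∉ U`. `z ± y` are in the cube; `rounding` for both (`σ = ∑ x v`; parity: `x ∈ Om U`), `hmax` and the sum of
the two inequalities: `qr (z + y) + qr (z - y) = 2 qr z + 2 qr y`. So
`qf S x ≥ qr (rl S) z + qr (rl S) y - 8 (√D2 + 1)`. Write `rl S = A + P`: `qr P (vr x) - qr P z ≤ 2 √(n R) / t²` (`p_diff`),
`qr A z ≥ - t nr z ≥ - 2 t e log 2` (`qr_le`). -/
theorem heavy {S : Matrix (Fin n) (Fin n) ℤ} (hS : Mat S) (hD : 0 < D2 S)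
    {A P : Matrix (Fin n) (Fin n) ℝ} {t : ℝ}
    (ht : 0 < t) (hM : rl S = A + P) (hPs : ∀ u v, P u v = P v u)
    (hA : ∀ z : Fin n → ℝ, nr (A.mulVec z) ≤ t ^ 2 * nr z)
    (hP : ∀ z : Fin n → ℝ, t ^ 4 * nr (P.mulVec z) ≤ nr ((rl S ^ 3).mulVec z))
    (b : Fin n → ℤ) {U : Finset (Fin n)} (hU : ∀ v, v ∉ U → ∀ u, S v u = 0) {r : ℝ} (hr : 0 < r)
    (hE : r * Real.sqrt (D2 S * n) ≤ energy (isHermitian_rl hS)) {x : Fin n → ℤ} (hx : x ∈ Om U)
    (hmax : ∀ y ∈ Om U, ∑ v, y v = ∑ v, x v → qf S y + lf b y ≤ qf S x + lf b x)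
    (R : ℝ) (e : ℕ) (hh : 2 ^ U.card < (ball S b R U x).card * 2 ^ e) :
    r / 8 * Real.sqrt (D2 S / n) * ((r ^ 2 * n / 32 - 8 * e * Real.log 2 - 1) / 4) -
        2 * t * e * Real.log 2 - 2 * Real.sqrt (n * R) / t ^ 2 - 8 * (Real.sqrt (D2 S) + 1) ≤
      qr A (vr x) := by
  classical
  set X := ball S b R U x with hXdef
  have hXpos : 0 < X.card := by
    rcases Nat.eq_zero_or_pos X.card with h0 | h0
    · rw [h0, zero_mul] at hh
      exact absurd hh (Nat.not_lt_zero _)
    · exact h0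
  have hXne : X.Nonempty := Finset.card_pos.1 hXpos
  have hXR : (0 : ℝ) < X.card := by exact_mod_cast hXpos
  have hXmem : ∀ y ∈ X, y ∈ Om U ∧ ∑ v, y v = ∑ v, x v ∧ lf b y = lf b x ∧
      nr (((rl S) ^ 3).mulVec (vr y - vr x)) ≤ R := fun y hy => mem_ball.1 hy
  have hXsub : X ⊆ Om U := fun y hy => (hXmem y hy).1
  obtain ⟨z, hz⟩ : ∃ z : Fin n → ℝ, z = fun v => (∑ y ∈ X, (y v : ℝ)) / X.card := ⟨_, rfl⟩
  -- the norm of the mean
  have hznr : nr z ≤ 2 * (e * Real.log 2) := by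
    have h1 := mean_norm hXsub hXne
    rw [← hz] at h1
    refine h1.trans ?_
    refine mul_le_mul_of_nonneg_left ?_ (by norm_num)
    rw [← Real.log_pow]
    refine Real.log_le_log (by positivity) ?_
    rw [div_le_iff₀ hXR, mul_comm]
    have h2 : ((2 ^ U.card : ℕ) : ℝ) ≤ ((X.card * 2 ^ e : ℕ) : ℝ) := by exact_mod_cast hh.le
    push_cast at h2
    exact h2
  have hz1 : ∀ v, |z v| ≤ 1 := by
    intro v
    rw [hz]
    simp only
    rw [abs_div, abs_of_pos hXR, div_le_one hXR]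
    refine (Finset.abs_sum_le_sum_abs _ _).trans ?_
    have h2 : ∀ y ∈ X, |(y v : ℝ)| ≤ 1 := fun y hy => (nr_Om (hXsub hy)).2 v
    refine (Finset.sum_le_sum h2).trans ?_
    rw [Finset.sum_const, nsmul_eq_mul, mul_one]
  have hzU : ∀ v, v ∉ U → z v = 0 := by
    intro v hv
    rw [hz]
    simp only
    rw [Finset.sum_eq_zero, zero_div]
    intro y hy
    rw [(mem_Om.1 (hXsub hy) v).2 hv, Int.cast_zero]
  have hzs : ∑ v, z v = ((∑ v, x v : ℤ) : ℝ) := by
    rw [hz]
    simp only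
    rw [← Finset.sum_div, Finset.sum_comm, div_eq_iff hXR.ne']
    have h2 : ∀ y ∈ X, ∑ v, (y v : ℝ) = ((∑ v, x v : ℤ) : ℝ) := by
      intro y hy
      rw [← (hXmem y hy).2.1]
      push_cast
      rfl
    rw [Finset.sum_congr rfl h2, Finset.sum_const, nsmul_eq_mul, mul_comm]
  have hzb : ∑ v, (b v : ℝ) * z v = ((lf b x : ℤ) : ℝ) := by
    rw [hz]
    simp only
    have h3 : ∀ v, (b v : ℝ) * ((∑ y ∈ X, (y v : ℝ)) / X.card) =
        (∑ y ∈ X, (b v : ℝ) * (y v : ℝ)) / X.card := by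
      intro v
      rw [mul_div_assoc', Finset.mul_sum]
    rw [Finset.sum_congr rfl fun v _ => h3 v, ← Finset.sum_div, Finset.sum_comm,
      div_eq_iff hXR.ne']
    have h2 : ∀ y ∈ X, ∑ v, (b v : ℝ) * (y v : ℝ) = ((lf b x : ℤ) : ℝ) := by
      intro y hy
      rw [← (hXmem y hy).2.2.1, lf]
      push_cast
      rfl
    rw [Finset.sum_congr rfl h2, Finset.sum_const, nsmul_eq_mul, mul_comm]
  have hzR : nr (((rl S) ^ 3).mulVec (z - vr x)) ≤ R := by
    have h1 : ((rl S) ^ 3).mulVec (z - vr x) =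
        fun v => (∑ y ∈ X, (((rl S) ^ 3).mulVec (vr y - vr x)) v) / X.card := by
      funext v
      rw [hz]
      exact H1_lin _ X hXne _ v
    rw [h1]
    exact nr_avg X hXne _ fun y hy => (hXmem y hy).2.2.2
  -- the large vector
  have hDR : (0 : ℝ) < (D2 S : ℝ) := by exact_mod_cast hD
  obtain ⟨E, hE1, hE2, hE3⟩ := gain (isHermitian_rl hS)
    (fun v => by simp only [rl]; rw [hS.diag, Int.cast_zero]) hr hDR (D2_cast S).symm hE
  set B := univ.filter (fun v => 1 / 2 < |z v|) with hB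
  have hBcard : (B.card : ℝ) ≤ 4 * nr z := by
    have h1 : ∀ v ∈ B, (1 / 4 : ℝ) ≤ z v ^ 2 := by
      intro v hv
      have h2 := (Finset.mem_filter.1 hv).2
      rw [← sq_abs (z v)]
      nlinarith
    have h2 : ∑ _v ∈ B, (1 / 4 : ℝ) ≤ ∑ v ∈ B, z v ^ 2 := Finset.sum_le_sum h1
    have h3 : ∑ v ∈ B, z v ^ 2 ≤ nr z := by
      unfold nr
      exact Finset.sum_le_sum_of_subset_of_nonneg (Finset.subset_univ B)
        fun v _ _ => sq_nonneg (z v)
    rw [Finset.sum_const, nsmul_eq_mul] at h2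
    linarith
  obtain ⟨y, hyE, hyB, hys, hy1, hynr⟩ := big_vector E B
  have hyU : ∀ v, v ∉ U → y v = 0 := by
    intro v hv
    refine hE3 y hyE v fun u => ?_
    simp only [rl]
    rw [hU v hv u, Int.cast_zero]
  have hcube : ∀ v, |z v| + |y v| ≤ 1 := by
    intro v
    by_cases hv : v ∈ B
    · rw [hyB v hv, abs_zero, add_zero]
      exact hz1 v
    · have h1 : |z v| ≤ 1 / 2 := by
        by_contra hc
        push Not at hc
        exact hv (Finset.mem_filter.2 ⟨Finset.mem_univ _, hc⟩)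
      have h2 := hy1 v
      linarith
  obtain ⟨x1, hx1, hs1, hq1⟩ := rounding hS b U (∑ v, x v) (H1_even hx) (z + y)
    (fun v => (abs_add_le _ _).trans (hcube v))
    (fun v hv => by rw [Pi.add_apply, hzU v hv, hyU v hv, add_zero])
    (by
      simp only [Pi.add_apply]
      rw [Finset.sum_add_distrib, hys, add_zero, hzs])
  obtain ⟨x2, hx2, hs2, hq2⟩ := rounding hS b U (∑ v, x v) (H1_even hx) (z - y)
    (fun v => (abs_sub _ _).trans (hcube v))
    (fun v hv => by rw [Pi.sub_apply, hzU v hv, hyU v hv, sub_zero])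
    (by
      simp only [Pi.sub_apply]
      rw [Finset.sum_sub_distrib, hys, sub_zero, hzs])
  have hm1 : ((qf S x1 + lf b x1 : ℤ) : ℝ) ≤ ((qf S x + lf b x : ℤ) : ℝ) := by
    exact_mod_cast hmax x1 hx1 hs1
  have hm2 : ((qf S x2 + lf b x2 : ℤ) : ℝ) ≤ ((qf S x + lf b x : ℤ) : ℝ) := by
    exact_mod_cast hmax x2 hx2 hs2
  have hbs : ∑ v, (b v : ℝ) * (z + y) v + ∑ v, (b v : ℝ) * (z - y) v =
      2 * ((lf b x : ℤ) : ℝ) := by
    rw [← hzb, Finset.mul_sum, ← Finset.sum_add_distrib]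
    refine Finset.sum_congr rfl fun v _ => ?_
    simp only [Pi.add_apply, Pi.sub_apply]
    ring
  have hpar := H1_par (rl S) z y
  have hqx : ((qf S x : ℤ) : ℝ) = qr A (vr x) + qr P (vr x) := by
    rw [qf_cast, hM, H1_add]
  have hqz : qr (rl S) z = qr A z + qr P z := by rw [hM, H1_add]
  have hPd := p_diff hPs ht hP hz1 (fun v => (nr_Om hx).2 v) hzR
  have hAz := qr_le ht hA z
  have hqy := hE2 y hyE
  have hkey : r / 8 * Real.sqrt (D2 S / n) * ((r ^ 2 * n / 32 - 8 * e * Real.log 2 - 1) / 4) ≤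
      qr (rl S) y := by
    refine le_trans ?_ hqy
    refine mul_le_mul_of_nonneg_left ?_ (by positivity)
    linarith
  have hAz' : -(2 * t * e * Real.log 2) ≤ qr A z := by
    have h1 := (abs_le.1 hAz).1
    have h2 : t * nr z ≤ t * (2 * (e * Real.log 2)) := mul_le_mul_of_nonneg_left hznr ht.le
    linarith
  have hPd' := (abs_le.1 hPd).1
  push_cast at hm1 hm2 hq1 hq2
  linarith

end Pool.Agent.MPa9445a.BE
end

section

/-! Spectral splitting of a symmetric matrix. -/

set_option autoImplicit false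

open Finset

namespace Pool.Agent.MPa9445a.BE

variable {n : ℕ}

private theorem S1_nr (z : Fin n → ℝ) : nr z = dotProduct z z := by
  unfold nr dotProduct
  exact Finset.sum_congr rfl fun v _ => sq (z v)

private theorem S1_fro (M : Matrix (Fin n) (Fin n) ℝ) :
    ∑ u, ∑ v, M u v ^ 2 = Matrix.trace (M * M.transpose) := by
  unfold Matrix.trace
  refine Finset.sum_congr rfl fun u _ => ?_
  rw [Matrix.diag_apply, Matrix.mul_apply]
  exact Finset.sum_congr rfl fun v _ => by rw [Matrix.transpose_apply, sq]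

private theorem S1_iso {V : Matrix (Fin n) (Fin n) ℝ} (hV : V.transpose * V = 1)
    (w : Fin n → ℝ) : nr (V.mulVec w) = nr w := by
  rw [S1_nr, S1_nr, Matrix.dotProduct_mulVec, Matrix.vecMul_mulVec, hV, Matrix.vecMul_one]

private theorem S1_T_sq {V : Matrix (Fin n) (Fin n) ℝ} (hV : V.transpose * V = 1)
    (f : Fin n → ℝ) :
    ∑ u, ∑ v, (V * Matrix.diagonal f * V.transpose) u v ^ 2 = ∑ j, f j ^ 2 := by
  rw [S1_fro, Matrix.transpose_mul, Matrix.transpose_mul, Matrix.transpose_transpose,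
    Matrix.diagonal_transpose]
  have h1 : V * Matrix.diagonal f * V.transpose * (V * (Matrix.diagonal f * V.transpose)) =
      V * (Matrix.diagonal f * ((V.transpose * V) * (Matrix.diagonal f * V.transpose))) := by
    simp only [Matrix.mul_assoc]
  rw [h1, hV, Matrix.one_mul, Matrix.trace_mul_comm]
  have h2 : Matrix.diagonal f * (Matrix.diagonal f * V.transpose) * V =
      Matrix.diagonal f * (Matrix.diagonal f * (V.transpose * V)) := by
    simp only [Matrix.mul_assoc]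
  rw [h2, hV, Matrix.mul_one, Matrix.diagonal_mul_diagonal, Matrix.trace_diagonal]
  exact Finset.sum_congr rfl fun j _ => (sq (f j)).symm

private theorem S1_T_mulVec {V : Matrix (Fin n) (Fin n) ℝ} (hV : V.transpose * V = 1)
    (f : Fin n → ℝ) (z : Fin n → ℝ) :
    nr ((V * Matrix.diagonal f * V.transpose).mulVec z) =
      ∑ j, f j ^ 2 * (V.transpose.mulVec z) j ^ 2 := by
  rw [Matrix.mul_assoc, ← Matrix.mulVec_mulVec, S1_iso hV, ← Matrix.mulVec_mulVec]
  unfold nr
  refine Finset.sum_congr rfl fun j _ => ?_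
  rw [Matrix.mulVec_diagonal, mul_pow]

private theorem S1_T_diag {V : Matrix (Fin n) (Fin n) ℝ} (hV : V.transpose * V = 1)
    (f : Fin n → ℝ) :
    ∑ v, |(V * Matrix.diagonal f * V.transpose) v v| ≤ ∑ j, |f j| := by
  have h1 : ∀ v, |(V * Matrix.diagonal f * V.transpose) v v| ≤ ∑ j, |f j| * V v j ^ 2 := by
    intro v
    rw [Matrix.mul_apply]
    refine (Finset.abs_sum_le_sum_abs _ _).trans (le_of_eq ?_)
    refine Finset.sum_congr rfl fun j _ => ?_
    rw [Matrix.mul_diagonal, Matrix.transpose_apply, show V v j * f j * V v j =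
      f j * V v j ^ 2 by ring, abs_mul, abs_of_nonneg (sq_nonneg (V v j))]
  refine (Finset.sum_le_sum fun v _ => h1 v).trans (le_of_eq ?_)
  rw [Finset.sum_comm]
  refine Finset.sum_congr rfl fun j _ => ?_
  rw [← Finset.mul_sum]
  have h2 : ∑ v, V v j ^ 2 = 1 := by
    have h3 := congrFun (congrFun hV j) j
    rw [Matrix.mul_apply, Matrix.one_apply_eq] at h3
    rw [← h3]
    exact Finset.sum_congr rfl fun v _ => by rw [Matrix.transpose_apply, sq]
  rw [h2, mul_one]

/-- PROOF. Let `u j` be an orthonormal basis of eigenvectors, `λ j` the eigenvalues (`Matrix.IsHermitian.eigenvectorBasis`,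
`Matrix.IsHermitian.spectral_theorem`). `P = ∑ λ j u j u jᵀ` over the `j` with `|λ j| > t`, `A` the sum over the others. For a vector `z` with
coordinates `z j = ⟪u j, z⟫`: `|A z|² = ∑ λ j² z j² ≤ t² |z|²`; `t⁴ |P z|² = ∑ t⁴ λ j² z j² ≤ ∑ λ j⁶ z j² ≤ |M³ z|²`;
the sum of the squares of the entries of a symmetric matrix is the sum of the squares of its eigenvalues (trace of the square);
`P v v = ∑ λ j (u j v)²`, so `t ∑ v, |P v v| ≤ ∑ t |λ j| ≤ ∑ λ j² `. -/
theorem splitting {M : Matrix (Fin n) (Fin n) ℝ} (hM : M.IsHermitian) {t : ℝ} (ht : 0 < t) :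
    ∃ A P : Matrix (Fin n) (Fin n) ℝ, M = A + P ∧ (∀ u v, A u v = A v u) ∧
      (∀ u v, P u v = P v u) ∧ (∀ z : Fin n → ℝ, nr (A.mulVec z) ≤ t ^ 2 * nr z) ∧
      (∑ u, ∑ v, A u v ^ 2 ≤ ∑ u, ∑ v, M u v ^ 2) ∧
      (∀ z : Fin n → ℝ, t ^ 4 * nr (P.mulVec z) ≤ nr ((M ^ 3).mulVec z)) ∧
      t * ∑ v, |P v v| ≤ ∑ u, ∑ v, M u v ^ 2 := by
  obtain ⟨V, hV1, hV2, hMV⟩ : ∃ V : Matrix (Fin n) (Fin n) ℝ, V.transpose * V = 1 ∧
      V * V.transpose = 1 ∧ M = V * Matrix.diagonal hM.eigenvalues * V.transpose := by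
    refine ⟨(hM.eigenvectorUnitary : Matrix (Fin n) (Fin n) ℝ), ?_, ?_, ?_⟩
    · have h := Unitary.coe_star_mul_self hM.eigenvectorUnitary
      rwa [Matrix.star_eq_conjTranspose, Matrix.conjTranspose_eq_transpose_of_trivial] at h
    · have h := Unitary.coe_mul_star_self hM.eigenvectorUnitary
      rwa [Unitary.coe_star, Matrix.star_eq_conjTranspose,
        Matrix.conjTranspose_eq_transpose_of_trivial] at h
    · have h := hM.spectral_theorem
      rw [Unitary.conjStarAlgAut_apply, Matrix.star_eq_conjTranspose,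
        Matrix.conjTranspose_eq_transpose_of_trivial] at h
      exact h
  generalize hM.eigenvalues = lam at hMV
  have hsymm : ∀ f : Fin n → ℝ, ∀ u v, (V * Matrix.diagonal f * V.transpose) u v =
      (V * Matrix.diagonal f * V.transpose) v u := by
    intro f u v
    have h : (V * Matrix.diagonal f * V.transpose).transpose =
        V * Matrix.diagonal f * V.transpose := by
      rw [Matrix.transpose_mul, Matrix.transpose_mul, Matrix.transpose_transpose,
        Matrix.diagonal_transpose, Matrix.mul_assoc]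
    exact congrFun (congrFun h v) u
  have hcube : M ^ 3 = V * Matrix.diagonal (fun j => lam j ^ 3) * V.transpose := by
    have h1 : ∀ f g : Fin n → ℝ, (V * Matrix.diagonal f * V.transpose) *
        (V * Matrix.diagonal g * V.transpose) =
        V * Matrix.diagonal (fun j => f j * g j) * V.transpose := by
      intro f g
      have h2 : (V * Matrix.diagonal f * V.transpose) * (V * Matrix.diagonal g * V.transpose) =
          V * (Matrix.diagonal f * ((V.transpose * V) * (Matrix.diagonal g * V.transpose))) := by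
        simp only [Matrix.mul_assoc]
      rw [h2, hV1, Matrix.one_mul, ← Matrix.mul_assoc (Matrix.diagonal f),
        Matrix.diagonal_mul_diagonal, ← Matrix.mul_assoc]
    rw [pow_succ, pow_two]
    rw [hMV, h1, h1]
    congr 3
    funext j
    ring
  have hlow : ∀ j, (if |lam j| ≤ t then lam j else 0) ^ 2 ≤ t ^ 2 := by
    intro j
    split_ifs with h
    · rw [← sq_abs (lam j)]
      exact pow_le_pow_left₀ (abs_nonneg _) h 2
    · rw [zero_pow two_ne_zero]
      positivity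
  refine ⟨V * Matrix.diagonal (fun j => if |lam j| ≤ t then lam j else 0) * V.transpose,
    V * Matrix.diagonal (fun j => if |lam j| ≤ t then 0 else lam j) * V.transpose,
    ?_, hsymm _, hsymm _, ?_, ?_, ?_, ?_⟩
  · rw [← Matrix.add_mul, ← Matrix.mul_add, Matrix.diagonal_add]
    conv_lhs => rw [hMV]
    congr 3
    funext j
    split_ifs <;> simp
  · intro z
    rw [S1_T_mulVec hV1]
    have h1 : nr z = ∑ j, (V.transpose.mulVec z) j ^ 2 := by
      have h2 : nr (V.transpose.mulVec z) = nr z :=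
        S1_iso (V := V.transpose) (by rw [Matrix.transpose_transpose, hV2]) z
      rw [← h2]
      rfl
    rw [h1, Finset.mul_sum]
    exact Finset.sum_le_sum fun j _ => mul_le_mul_of_nonneg_right (hlow j) (sq_nonneg _)
  · rw [hMV, S1_T_sq hV1, S1_T_sq hV1]
    refine Finset.sum_le_sum fun j _ => ?_
    split_ifs
    · exact le_rfl
    · rw [zero_pow two_ne_zero]
      exact sq_nonneg _
  · intro z
    rw [hcube, S1_T_mulVec hV1, S1_T_mulVec hV1, Finset.mul_sum]
    refine Finset.sum_le_sum fun j _ => ?_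
    rw [← mul_assoc]
    refine mul_le_mul_of_nonneg_right ?_ (sq_nonneg _)
    split_ifs with h
    · rw [zero_pow two_ne_zero, mul_zero]
      positivity
    · push Not at h
      have h2 : t ^ 4 ≤ lam j ^ 4 := by
        have h3 := pow_le_pow_left₀ ht.le h.le 4
        rwa [show |lam j| ^ 4 = lam j ^ 4 by
          rw [show (4 : ℕ) = 2 * 2 by norm_num, pow_mul, pow_mul, sq_abs]] at h3
      calc t ^ 4 * lam j ^ 2 ≤ lam j ^ 4 * lam j ^ 2 :=
            mul_le_mul_of_nonneg_right h2 (sq_nonneg _)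
        _ = (lam j ^ 3) ^ 2 := by ring
  · have h1 := S1_T_diag hV1 (fun j => if |lam j| ≤ t then 0 else lam j)
    refine (mul_le_mul_of_nonneg_left h1 ht.le).trans ?_
    conv_rhs => rw [hMV]
    rw [S1_T_sq hV1, Finset.mul_sum]
    refine Finset.sum_le_sum fun j _ => ?_
    split_ifs with h
    · rw [abs_zero, mul_zero]
      exact sq_nonneg _
    · push Not at h
      calc t * |lam j| ≤ |lam j| * |lam j| := mul_le_mul_of_nonneg_right h.le (abs_nonneg _)
        _ = lam j ^ 2 := by rw [← sq, sq_abs]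

end Pool.Agent.MPa9445a.BE
end
end
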