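import Mathlib
import Pool.Agent.Lib.MP_a9445a_lc.BE.Defs

section

/-! Choice of the constants. -/

set_option autoImplicit false

namespace Pool.Agent.MPa9445a.BE

private theorem K1_log {a x : ℝ} (ha : 0 < a) (ha1 : a ≤ 1) (hx : 1 ≤ x) :
    Real.log (1 + 2 * x ^ 16 / a ^ 4) ≤ 16 * x + 3 / a ^ 4 := by
  have hx0 : 0 < x := lt_of_lt_of_le one_pos hx
  have ha4 : 0 < a ^ 4 := by positivity
  have h1 : 1 ≤ x ^ 16 / a ^ 4 := by
    rw [one_le_div ha4]
    exact (pow_le_one₀ ha.le ha1).trans (one_le_pow₀ hx)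
  have h2 : 1 + 2 * x ^ 16 / a ^ 4 ≤ 3 / a ^ 4 * x ^ 16 := by
    have h3 : 3 / a ^ 4 * x ^ 16 = x ^ 16 / a ^ 4 + 2 * x ^ 16 / a ^ 4 := by ring
    rw [h3]
    linarith
  have h3 : 0 < 1 + 2 * x ^ 16 / a ^ 4 := by positivity
  refine (Real.log_le_log h3 h2).trans ?_
  rw [Real.log_mul (by positivity) (by positivity), Real.log_pow]
  have h4 := Real.log_le_sub_one_of_pos hx0
  have h5 := Real.log_le_sub_one_of_pos (show 0 < 3 / a ^ 4 by positivity)
  push_cast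
  linarith

private theorem K1_eps {a x C : ℝ} (ha : 0 < a) (ha1 : a ≤ 1) (hx : 1 ≤ x)
    (hC : C = 4 + (16 + 3 / a ^ 4) / a ^ 2) :
    x ^ 6 * (4 / (x ^ 6) ^ 2 + 1 / (a / x ^ 2 * x ^ 6) ^ 2 *
      Real.log (1 + 2 * (x ^ 6) ^ 2 / (a ^ 2 / x ^ 2) ^ 2)) ≤ C / x := by
  have hx0 : 0 < x := lt_of_lt_of_le one_pos hx
  have h1 : 2 * (x ^ 6) ^ 2 / (a ^ 2 / x ^ 2) ^ 2 = 2 * x ^ 16 / a ^ 4 := by
    field_simp
  have h2 : x ^ 6 * (4 / (x ^ 6) ^ 2 + 1 / (a / x ^ 2 * x ^ 6) ^ 2 *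
      Real.log (1 + 2 * x ^ 16 / a ^ 4)) =
      4 / x ^ 6 + 1 / (a ^ 2 * x ^ 2) * Real.log (1 + 2 * x ^ 16 / a ^ 4) := by
    field_simp
  rw [h1, h2]
  have h3 := K1_log ha ha1 hx
  have h4 : 1 / (a ^ 2 * x ^ 2) * Real.log (1 + 2 * x ^ 16 / a ^ 4) ≤
      1 / (a ^ 2 * x ^ 2) * ((16 + 3 / a ^ 4) * x) := by
    refine mul_le_mul_of_nonneg_left (h3.trans ?_) (by positivity)
    have h5 : 3 / a ^ 4 ≤ 3 / a ^ 4 * x := le_mul_of_one_le_right (by positivity) hx
    linarith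
  have h5 : 4 / x ^ 6 ≤ 4 / x := by
    refine div_le_div_of_nonneg_left (by norm_num) hx0 ?_
    calc x = x ^ 1 := (pow_one x).symm
      _ ≤ x ^ 6 := pow_le_pow_right₀ hx (by norm_num)
  have h6 : C / x = 4 / x + 1 / (a ^ 2 * x ^ 2) * ((16 + 3 / a ^ 4) * x) := by
    rw [hC]
    field_simp
  rw [h6]
  linarith

/-- PROOF. With `K = k` (natural number), `ρ = c₃ / (2 K)`, `θ = (ρ² / 512) ^ (1 / 6)`, `h₀ = θ K ρ / √512`: the first condition holds with equality.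
`1 / (θ K)² = (512 / ρ²) ^ (1 / 3) / K² = C₁ K ^ (-4 / 3)`, `h₀² = θ² c₃² / 2048 ≥ C₂ K ^ (-2 / 3)`. So
`ε = 4 / K² + (1 / (θ K)²) log (1 + 2 K² / h₀²)` satisfies `K ε → 0` for `K → ∞` (`log x ≤ 10 x ^ (1 / 10)` or
`isLittleO_log_rpow_atTop`). Choose `K` such that `1 / K ≤ c₃ ^ 2 / 1000` and `K ε ≤ c₃ / 1000`, `ε > 0`, and a rational number
`p / q` in `[4 ε, 8 ε]`. -/
theorem constants {c₃ : ℝ} (hc : 0 < c₃) (hc1 : c₃ ≤ 1) :
    ∃ (K p q : ℕ) (θ h₀ : ℝ), 0 < K ∧ 0 < p ∧ 0 < q ∧ 0 < θ ∧ 0 < h₀ ∧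
      4 * h₀ ^ 2 / (θ * K) ^ 2 + 4 * θ ^ 6 ≤ (c₃ / (2 * K)) ^ 2 / 64 ∧
      1 / (K : ℝ) ≤ c₃ / 100 ∧ (K : ℝ) * (p / q) ≤ c₃ / 100 ∧
      4 / (K : ℝ) ^ 2 + 1 / (θ * K) ^ 2 * Real.log (1 + 2 * K ^ 2 / h₀ ^ 2) ≤ p / q / 2 := by
  obtain ⟨a, ha⟩ : ∃ a : ℝ, a = c₃ / 46 := ⟨_, rfl⟩
  have ha0 : 0 < a := by rw [ha]; positivity
  have ha1 : a ≤ 1 := by rw [ha]; linarith
  have hca : c₃ = 46 * a := by rw [ha]; ring
  obtain ⟨C, hC⟩ : ∃ C : ℝ, C = 4 + (16 + 3 / a ^ 4) / a ^ 2 := ⟨_, rfl⟩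
  have hC4 : 4 ≤ C := by
    have : 0 ≤ (16 + 3 / a ^ 4) / a ^ 2 := by positivity
    linarith
  obtain ⟨N, hN⟩ := exists_nat_gt (200 * C / c₃)
  have hN0 : (0 : ℝ) < N := lt_trans (by positivity) hN
  have h800 : 800 ≤ 200 * C / c₃ := by
    rw [le_div_iff₀ hc]
    nlinarith
  have hN1 : (1 : ℝ) ≤ N := by linarith
  obtain ⟨x, hx⟩ : ∃ x : ℝ, x = N := ⟨_, rfl⟩
  rw [← hx] at hN hN0 hN1
  have hCx : C / x < c₃ / 200 := by
    rw [div_lt_iff₀ hc] at hN
    rw [div_lt_div_iff₀ hN0 (by norm_num)]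
    linarith
  have hK : ((N ^ 6 : ℕ) : ℝ) = x ^ 6 := by rw [hx]; push_cast; rfl
  have hK0 : 0 < x ^ 6 := by positivity
  have heps := K1_eps ha0 ha1 hN1 hC
  obtain ⟨ε, hε⟩ : ∃ ε : ℝ, ε = 4 / (x ^ 6) ^ 2 + 1 / (a / x ^ 2 * x ^ 6) ^ 2 *
      Real.log (1 + 2 * (x ^ 6) ^ 2 / (a ^ 2 / x ^ 2) ^ 2) := ⟨_, rfl⟩
  rw [← hε] at heps
  have hε0 : 0 < ε := by
    have h1 : 0 ≤ Real.log (1 + 2 * (x ^ 6) ^ 2 / (a ^ 2 / x ^ 2) ^ 2) := by
      apply Real.log_nonneg
      have : 0 ≤ 2 * (x ^ 6) ^ 2 / (a ^ 2 / x ^ 2) ^ 2 := by positivity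
      linarith
    have h2 : 0 < 4 / (x ^ 6) ^ 2 := by positivity
    have h3 : 0 ≤ 1 / (a / x ^ 2 * x ^ 6) ^ 2 *
      Real.log (1 + 2 * (x ^ 6) ^ 2 / (a ^ 2 / x ^ 2) ^ 2) := mul_nonneg (by positivity) h1
    linarith
  have hlt : 2 * ε < c₃ / (100 * x ^ 6) := by
    rw [lt_div_iff₀ (by positivity)]
    have : x ^ 6 * ε < c₃ / 200 := lt_of_le_of_lt heps hCx
    linarith
  obtain ⟨r, hr1, hr2⟩ := exists_rat_btwn hlt
  have hr0 : (0 : ℝ) < r := lt_trans (by positivity) hr1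
  have hr0' : 0 < r := by exact_mod_cast hr0
  have hnum : 0 < r.num := Rat.num_pos.2 hr0'
  have hpq : ((r.num.toNat : ℕ) : ℝ) / (r.den : ℝ) = r := by
    have h1 : ((r.num.toNat : ℕ) : ℤ) = r.num := Int.toNat_of_nonneg hnum.le
    have h2 : ((r.num.toNat : ℕ) : ℝ) = (r.num : ℝ) := by exact_mod_cast h1
    rw [h2, Rat.cast_def]
  refine ⟨N ^ 6, r.num.toNat, r.den, a / x ^ 2, a ^ 2 / x ^ 2, ?_, ?_, r.den_pos, by positivity,
    by positivity, ?_, ?_, ?_, ?_⟩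
  · have h1 : 0 < N := by
      rw [hx] at hN0
      exact_mod_cast hN0
    positivity
  · omega
  · rw [hK, hca]
    have h1 : 4 * (a ^ 2 / x ^ 2) ^ 2 / (a / x ^ 2 * x ^ 6) ^ 2 = 4 * a ^ 2 / x ^ 12 := by
      field_simp
    have h2 : 4 * (a / x ^ 2) ^ 6 = 4 * a ^ 6 / x ^ 12 := by
      field_simp
    have h3 : (46 * a / (2 * x ^ 6)) ^ 2 / 64 = (529 / 64) * a ^ 2 / x ^ 12 := by
      field_simp
      ring
    rw [h1, h2, h3, ← add_div]
    refine div_le_div_of_nonneg_right ?_ (by positivity)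
    have h4 : a ^ 6 ≤ a ^ 2 := pow_le_pow_of_le_one ha0.le ha1 (by norm_num)
    have h5 : 0 ≤ a ^ 2 := sq_nonneg a
    linarith
  · rw [hK]
    have h1 : 1 / x ^ 6 ≤ 1 / x := by
      refine div_le_div_of_nonneg_left (by norm_num) hN0 ?_
      calc x = x ^ 1 := (pow_one x).symm
        _ ≤ x ^ 6 := pow_le_pow_right₀ hN1 (by norm_num)
    have h2 : 1 / x ≤ C / x := div_le_div_of_nonneg_right (by linarith) hN0.le
    linarith
  · rw [hK, hpq]
    rw [lt_div_iff₀ (by positivity)] at hr2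
    linarith
  · rw [hK, hpq, ← hε]
    linarith

end Pool.Agent.MPa9445a.BE
end

section

section

/-! The number of lattice points in an ellipsoid. -/

set_option autoImplicit false

open Finset

namespace Pool.Agent.MPa9445a.BE

private theorem C1_aux1 {c : ℝ} (hc : 0 < c) (N : ℕ) :
    c * ∑ k ∈ Finset.range N, Real.exp (-c * ((k : ℝ) + 1)) ≤ 1 - Real.exp (-c * N) := by
  induction N with
  | zero => simp
  | succ N ih =>
    rw [Finset.sum_range_succ, mul_add]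
    have h1 : Real.exp (-c * N) = Real.exp (-c * ((N : ℝ) + 1)) * Real.exp c := by
      rw [← Real.exp_add]
      congr 1
      ring
    have h2 : (1 + c) ≤ Real.exp c := by
      have := Real.add_one_le_exp c
      linarith
    have h3 := Real.exp_pos (-c * ((N : ℝ) + 1))
    push_cast
    nlinarith [mul_le_mul_of_nonneg_left h2 h3.le]

private theorem C1_aux2 {c : ℝ} (hc : 0 < c) (N : ℕ) :
    ∑ k ∈ Finset.range N, Real.exp (-c * ((k : ℝ) + 1)) ≤ 1 / c := by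
  rw [le_div_iff₀ hc, mul_comm]
  have h1 := C1_aux1 hc N
  have h2 := Real.exp_pos (-c * N)
  linarith

private theorem C1_aux3 {c : ℝ} (hc : 0 < c) (T : Finset ℤ) (hT : ∀ a ∈ T, 0 < a) :
    ∑ a ∈ T, Real.exp (-c * (a : ℝ) ^ 2) ≤ 1 / c := by
  classical
  obtain ⟨N, hN⟩ : ∃ N : ℕ, ∀ a ∈ T, a ≤ N := by
    refine ⟨∑ a ∈ T, a.toNat, fun a ha => ?_⟩
    have h1 : a.toNat ≤ ∑ a ∈ T, a.toNat :=
      Finset.single_le_sum (f := fun a : ℤ => a.toNat) (fun _ _ => Nat.zero_le _) ha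
    omega
  have hsub : T ⊆ (Finset.range N).image (fun k : ℕ => (k : ℤ) + 1) := by
    intro a ha
    rw [Finset.mem_image]
    have h1 := hT a ha
    have h2 := hN a ha
    exact ⟨(a - 1).toNat, Finset.mem_range.2 (by omega), by omega⟩
  refine (Finset.sum_le_sum_of_subset_of_nonneg hsub fun _ _ _ => (Real.exp_pos _).le).trans ?_
  rw [Finset.sum_image (by intro a _ b _ h; simpa using h)]
  refine le_trans (Finset.sum_le_sum fun k _ => ?_) (C1_aux2 hc N)
  apply Real.exp_le_exp.2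
  push_cast
  have hk : (0 : ℝ) ≤ k := Nat.cast_nonneg k
  nlinarith [mul_nonneg hc.le (mul_nonneg (by linarith : (0 : ℝ) ≤ (k : ℝ) + 1) hk)]

/-- PROOF. `exp (-c a²) ≤ exp (-c |a|)` for integers `a`; the sum over `a ≠ 0` is at most `2 ∑_{a ≥ 1} exp (-c a) = 2 / (exp c - 1) ≤ 2 / c`. -/
theorem theta_le {c : ℝ} (hc : 0 < c) (T : Finset ℤ) :
    ∑ a ∈ T, Real.exp (-c * (a : ℝ) ^ 2) ≤ 1 + 2 / c := by
  classical
  have h1 : ∑ a ∈ T, Real.exp (-c * (a : ℝ) ^ 2) =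
      ∑ a ∈ T.filter (0 < ·), Real.exp (-c * (a : ℝ) ^ 2) +
      ∑ a ∈ T.filter (¬ 0 < ·), Real.exp (-c * (a : ℝ) ^ 2) :=
    (Finset.sum_filter_add_sum_filter_not _ _ _).symm
  have h2 : ∑ a ∈ T.filter (¬ 0 < ·), Real.exp (-c * (a : ℝ) ^ 2) =
      ∑ a ∈ (T.filter (¬ 0 < ·)).filter (· < 0), Real.exp (-c * (a : ℝ) ^ 2) +
      ∑ a ∈ (T.filter (¬ 0 < ·)).filter (¬ · < 0), Real.exp (-c * (a : ℝ) ^ 2) :=
    (Finset.sum_filter_add_sum_filter_not _ _ _).symm
  have h3 : ∑ a ∈ T.filter (0 < ·), Real.exp (-c * (a : ℝ) ^ 2) ≤ 1 / c :=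
    C1_aux3 hc _ fun a ha => (Finset.mem_filter.1 ha).2
  have h4 : ∑ a ∈ (T.filter (¬ 0 < ·)).filter (· < 0), Real.exp (-c * (a : ℝ) ^ 2) ≤ 1 / c := by
    have h5 := C1_aux3 hc (((T.filter (¬ 0 < ·)).filter (· < 0)).image (fun a => -a)) (by
      intro a ha
      obtain ⟨b, hb, rfl⟩ := Finset.mem_image.1 ha
      have := (Finset.mem_filter.1 hb).2
      omega)
    rw [Finset.sum_image (by intro a _ b _ h; simpa using h)] at h5
    refine le_trans (le_of_eq (Finset.sum_congr rfl fun a _ => ?_)) h5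
    push_cast
    rw [neg_sq]
  have h5 : ∑ a ∈ (T.filter (¬ 0 < ·)).filter (¬ · < 0), Real.exp (-c * (a : ℝ) ^ 2) ≤ 1 := by
    have hsub : (T.filter (¬ 0 < ·)).filter (¬ · < 0) ⊆ {0} := by
      intro a ha
      simp only [Finset.mem_filter] at ha
      rw [Finset.mem_singleton]
      omega
    refine (Finset.sum_le_sum_of_subset_of_nonneg hsub fun _ _ _ => (Real.exp_pos _).le).trans ?_
    simp
  have h6 : 1 + 2 / c = 1 / c + (1 / c + 1) := by ring
  rw [h1, h2, h6]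
  exact add_le_add h3 (add_le_add h4 h5)

/-- PROOF. Every `a ∈ T` contributes at least `1` to `∑ a ∈ T, exp (s (N - ∑ j, h j ^ 2 a j ^ 2))`. `T` is contained in a product
`Fintype.piFinset` of finite sets `T' j` of integers (images of `T` under the coordinates), so the sum is at most
`exp (s N) ∏ j, ∑ a ∈ T' j, exp (-s h j ^ 2 a ^ 2)` (`Finset.prod_univ_sum`), and `theta_le`. For `j ∉ J` the coordinate is `0`: `T' j ⊆ {0}`. -/
theorem lattice_count {ι : Type*} [Fintype ι] [DecidableEq ι] (J : Finset ι) (h : ι → ℝ)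
    (hh : ∀ j ∈ J, 0 < h j) {s N : ℝ} (hs : 0 < s) (T : Finset (ι → ℤ))
    (hT : ∀ a ∈ T, (∀ j, j ∉ J → a j = 0) ∧ ∑ j ∈ J, h j ^ 2 * (a j : ℝ) ^ 2 ≤ N) :
    (T.card : ℝ) ≤ Real.exp (s * N) * ∏ j ∈ J, (1 + 2 / (s * h j ^ 2)) := by
  classical
  set T' : ι → Finset ℤ := fun j => T.image (fun a => a j) with hT'
  have hsub : T ⊆ Fintype.piFinset T' := by
    intro a ha
    rw [Fintype.mem_piFinset]
    exact fun j => Finset.mem_image_of_mem _ ha
  set g : ι → ℤ → ℝ := fun j a => if j ∈ J then Real.exp (-(s * h j ^ 2) * (a : ℝ) ^ 2) else 1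
    with hg
  have hg0 : ∀ j a, 0 ≤ g j a := by
    intro j a
    simp only [hg]
    split_ifs
    · exact (Real.exp_pos _).le
    · exact zero_le_one
  have hprod : ∀ a : ι → ℤ, ∏ j, g j (a j) =
      Real.exp (-(s * ∑ j ∈ J, h j ^ 2 * (a j : ℝ) ^ 2)) := by
    intro a
    simp only [hg]
    rw [Finset.prod_ite_mem, Finset.univ_inter, ← Real.exp_sum]
    congr 1
    rw [Finset.mul_sum, ← Finset.sum_neg_distrib]
    refine Finset.sum_congr rfl fun j _ => ?_
    ring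
  have h1 : (T.card : ℝ) ≤ ∑ a ∈ T, Real.exp (s * N) * ∏ j, g j (a j) := by
    have h2 : (T.card : ℝ) = ∑ a ∈ T, (1 : ℝ) := by simp
    rw [h2]
    refine Finset.sum_le_sum fun a ha => ?_
    rw [hprod, ← Real.exp_add]
    refine Real.one_le_exp ?_
    have h3 := (hT a ha).2
    nlinarith
  have h2 : ∑ a ∈ T, Real.exp (s * N) * ∏ j, g j (a j) ≤
      Real.exp (s * N) * ∏ j, ∑ a ∈ T' j, g j a := by
    rw [← Finset.mul_sum, Finset.prod_univ_sum]
    refine mul_le_mul_of_nonneg_left ?_ (Real.exp_pos _).le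
    exact Finset.sum_le_sum_of_subset_of_nonneg hsub fun a _ _ =>
      Finset.prod_nonneg fun j _ => hg0 _ _
  have h3 : ∏ j, ∑ a ∈ T' j, g j a ≤ ∏ j ∈ J, (1 + 2 / (s * h j ^ 2)) := by
    have h4 : ∏ j ∈ J, (1 + 2 / (s * h j ^ 2)) =
        ∏ j, if j ∈ J then (1 + 2 / (s * h j ^ 2)) else 1 := by
      rw [Finset.prod_ite_mem, Finset.univ_inter]
    rw [h4]
    refine Finset.prod_le_prod (fun j _ => Finset.sum_nonneg fun a _ => hg0 _ _) fun j _ => ?_
    by_cases hj : j ∈ J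
    · rw [if_pos hj]
      have h5 : 0 < s * h j ^ 2 := mul_pos hs (pow_pos (hh j hj) 2)
      refine le_trans (le_of_eq (Finset.sum_congr rfl fun a _ => ?_)) (theta_le h5 (T' j))
      simp only [hg]
      rw [if_pos hj]
    · rw [if_neg hj]
      have h5 : T' j ⊆ {0} := by
        intro b hb
        obtain ⟨a, ha, rfl⟩ := Finset.mem_image.1 hb
        rw [Finset.mem_singleton]
        exact (hT a ha).1 j hj
      refine le_trans (Finset.sum_le_sum_of_subset_of_nonneg h5 fun a _ _ => hg0 _ _) ?_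
      rw [Finset.sum_singleton]
      simp only [hg]
      rw [if_neg hj]
  exact h1.trans (h2.trans (mul_le_mul_of_nonneg_left h3 (Real.exp_pos _).le))

end Pool.Agent.MPa9445a.BE
end

section

/-! The number of cells. -/

set_option autoImplicit false

open Finset

namespace Pool.Agent.MPa9445a.BE

/-- PROOF. `1 + w y ^ 6 ≤ (1 + w) max 1 (y ^ 6) ≤ (1 + w) exp (3 y²)`, since `y ^ 6 ≤ exp (3 y²)` (`y² ≤ exp (y²)`, cube). -/
theorem factor_le {w y : ℝ} (hw : 0 ≤ w) : 1 + w * y ^ 6 ≤ (1 + w) * Real.exp (3 * y ^ 2) := by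
  have h1 : y ^ 6 ≤ Real.exp (3 * y ^ 2) := by
    have h2 : y ^ 2 ≤ Real.exp (y ^ 2) := by
      have := Real.add_one_le_exp (y ^ 2)
      linarith
    have h3 : (y ^ 2) ^ 3 ≤ Real.exp (y ^ 2) ^ 3 := pow_le_pow_left₀ (sq_nonneg y) h2 3
    rw [← Real.exp_nat_mul] at h3
    calc y ^ 6 = (y ^ 2) ^ 3 := by ring
      _ ≤ _ := h3
      _ = _ := by norm_num
  have h2 : 1 ≤ Real.exp (3 * y ^ 2) := Real.one_le_exp (by positivity)
  nlinarith [mul_le_mul_of_nonneg_left h1 hw]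

/-- PROOF. `h j = h₀ (t / |λ j|) ^ 3`: `2 / (s h j ^ 2) = w (λ j / t) ^ 6`, `w = 2 / (s h₀²)`. By `factor_le` the product is at most
`(1 + w) ^ #J exp (3 ∑ λ j² / t²)`, and `#J (θ t)² ≤ ∑ λ j² ≤ D`. -/
theorem cell_product {ι : Type*} [Fintype ι] [DecidableEq ι] (lam : ι → ℝ) {t θ h₀ s D : ℝ}
    (ht : 0 < t) (hθ : 0 < θ) (hh : 0 < h₀) (hs : 0 < s) (hD : ∑ j, lam j ^ 2 ≤ D) (J : Finset ι)
    (hJ : ∀ j ∈ J, θ * t < |lam j|) :
    ∏ j ∈ J, (1 + 2 / (s * (h₀ * (t / |lam j|) ^ 3) ^ 2)) ≤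
      Real.exp (D / (θ * t) ^ 2 * Real.log (1 + 2 / (s * h₀ ^ 2)) + 3 * D / t ^ 2) := by
  classical
  set w : ℝ := 2 / (s * h₀ ^ 2) with hw
  have hw0 : 0 < w := by positivity
  have h1w : 0 < 1 + w := by linarith
  have hlam : ∀ j ∈ J, 0 < |lam j| := fun j hj => lt_trans (mul_pos hθ ht) (hJ j hj)
  have hJD : ∑ j ∈ J, lam j ^ 2 ≤ D :=
    (Finset.sum_le_sum_of_subset_of_nonneg (Finset.subset_univ J)
      fun j _ _ => sq_nonneg (lam j)).trans hD
  have hcard : (J.card : ℝ) ≤ D / (θ * t) ^ 2 := by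
    rw [le_div_iff₀ (by positivity)]
    refine le_trans ?_ hJD
    rw [← nsmul_eq_mul, ← Finset.sum_const]
    refine Finset.sum_le_sum fun j hj => ?_
    rw [← sq_abs (lam j)]
    exact pow_le_pow_left₀ (by positivity) (hJ j hj).le 2
  have hlog : 0 ≤ Real.log (1 + w) := Real.log_nonneg (by linarith)
  have h1 : ∏ j ∈ J, (1 + 2 / (s * (h₀ * (t / |lam j|) ^ 3) ^ 2)) ≤
      ∏ j ∈ J, ((1 + w) * Real.exp (3 * (|lam j| / t) ^ 2)) := by
    refine Finset.prod_le_prod (fun j hj => ?_) fun j hj => ?_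
    · have := hlam j hj
      positivity
    · have h2 := hlam j hj
      have h3 : 2 / (s * (h₀ * (t / |lam j|) ^ 3) ^ 2) = w * (|lam j| / t) ^ 6 := by
        rw [hw]
        field_simp
      rw [h3]
      exact factor_le hw0.le
  refine h1.trans ?_
  rw [Finset.prod_mul_distrib, Finset.prod_const, ← Real.exp_sum]
  have h4 : (1 + w) ^ J.card = Real.exp (J.card * Real.log (1 + w)) := by
    rw [Real.exp_nat_mul, Real.exp_log h1w]
  rw [h4, ← Real.exp_add]
  apply Real.exp_le_exp.2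
  refine add_le_add (mul_le_mul_of_nonneg_right hcard hlog) ?_
  have h5 : ∑ j ∈ J, 3 * (|lam j| / t) ^ 2 = 3 * (∑ j ∈ J, lam j ^ 2) / t ^ 2 := by
    rw [Finset.mul_sum, Finset.sum_div]
    refine Finset.sum_congr rfl fun j _ => ?_
    rw [div_pow, sq_abs]
    ring
  rw [h5]
  have ht2 : 0 < t ^ 2 := by positivity
  gcongr

end Pool.Agent.MPa9445a.BE
end

section

/-! Few cells whose points are close to each other. -/

set_option autoImplicit false

open Finset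

namespace Pool.Agent.MPa9445a.BE

variable {n : ℕ}

private theorem C3_nr_eq (z : Fin n → ℝ) : nr z = z ⬝ᵥ z := by
  unfold nr dotProduct
  exact Finset.sum_congr rfl fun v _ => by ring

private theorem C3_spec {M : Matrix (Fin n) (Fin n) ℝ} (hM : M.IsHermitian) :
    ∃ U : Matrix (Fin n) (Fin n) ℝ, U.transpose * U = 1 ∧ U * U.transpose = 1 ∧
      M = U * Matrix.diagonal hM.eigenvalues * U.transpose := by
  set U : Matrix (Fin n) (Fin n) ℝ := (hM.eigenvectorUnitary : Matrix (Fin n) (Fin n) ℝ) with hU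
  have hst : star U = U.transpose := by
    ext i j
    simp [Matrix.star_apply]
  have h1 : star U * U = 1 := Unitary.coe_star_mul_self hM.eigenvectorUnitary
  have h2 : U * star U = 1 := Unitary.coe_mul_star_self hM.eigenvectorUnitary
  rw [hst] at h1 h2
  refine ⟨U, h1, h2, ?_⟩
  have h3 := hM.spectral_theorem
  rw [Unitary.conjStarAlgAut_apply] at h3
  rw [← hst]
  exact h3

private theorem C3_nr_orth {U : Matrix (Fin n) (Fin n) ℝ} (h : U * U.transpose = 1)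
    (z : Fin n → ℝ) : nr (U.transpose.mulVec z) = nr z := by
  rw [C3_nr_eq, C3_nr_eq, Matrix.dotProduct_mulVec, Matrix.vecMul_transpose,
    Matrix.mulVec_mulVec, h, Matrix.one_mulVec]

private theorem C3_sum_sq {M U : Matrix (Fin n) (Fin n) ℝ} {lam : Fin n → ℝ}
    (h1 : U.transpose * U = 1) (hM : M = U * Matrix.diagonal lam * U.transpose) :
    ∑ u, ∑ v, M u v ^ 2 = ∑ j, lam j ^ 2 := by
  have hMt : M.transpose = M := by
    rw [hM, Matrix.transpose_mul, Matrix.transpose_mul, Matrix.transpose_transpose,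
      Matrix.diagonal_transpose, Matrix.mul_assoc]
  have e1 : ∑ u, ∑ v, M u v ^ 2 = (M * M).trace := by
    unfold Matrix.trace
    refine Finset.sum_congr rfl fun u _ => ?_
    rw [Matrix.diag_apply, Matrix.mul_apply]
    refine Finset.sum_congr rfl fun v _ => ?_
    have : M v u = M u v := by
      conv_rhs => rw [← hMt]
      rfl
    rw [this, sq]
  have e2 : M * M = U * (Matrix.diagonal fun j => lam j * lam j) * U.transpose := by
    rw [hM]
    calc U * Matrix.diagonal lam * U.transpose * (U * Matrix.diagonal lam * U.transpose)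
        = U * Matrix.diagonal lam * (U.transpose * U) * (Matrix.diagonal lam * U.transpose) := by
          simp only [Matrix.mul_assoc]
      _ = U * (Matrix.diagonal lam * Matrix.diagonal lam) * U.transpose := by
          rw [h1, Matrix.mul_one]
          simp only [Matrix.mul_assoc]
      _ = _ := by rw [Matrix.diagonal_mul_diagonal]
  rw [e1, e2, Matrix.trace_mul_comm, ← Matrix.mul_assoc, h1, Matrix.one_mul, Matrix.trace_diagonal]
  exact Finset.sum_congr rfl fun j _ => by ring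

private theorem C3_coord_pow {M U : Matrix (Fin n) (Fin n) ℝ} {lam : Fin n → ℝ}
    (h1 : U.transpose * U = 1) (hM : M = U * Matrix.diagonal lam * U.transpose) (k : ℕ)
    (z : Fin n → ℝ) (j : Fin n) :
    U.transpose.mulVec ((M ^ k).mulVec z) j = lam j ^ k * U.transpose.mulVec z j := by
  have e : ∀ w : Fin n → ℝ, U.transpose.mulVec (M.mulVec w) j = lam j * U.transpose.mulVec w j := by
    intro w
    have e1 : U.transpose * M = Matrix.diagonal lam * U.transpose := by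
      rw [hM, ← Matrix.mul_assoc, ← Matrix.mul_assoc, h1, Matrix.one_mul]
    rw [Matrix.mulVec_mulVec, e1, ← Matrix.mulVec_mulVec, Matrix.mulVec_diagonal]
  induction k with
  | zero => simp
  | succ k ih =>
    rw [pow_succ', ← Matrix.mulVec_mulVec, e, ih, pow_succ']
    ring

/-- Rounding towards zero. -/
private noncomputable def C3_tr (r : ℝ) : ℤ := if 0 ≤ r then ⌊r⌋ else -⌊-r⌋

private theorem C3_tr_sq (r : ℝ) : ((C3_tr r : ℤ) : ℝ) ^ 2 ≤ r ^ 2 := by
  unfold C3_tr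
  split_ifs with h
  · have h1 := Int.floor_le r
    have h2 : (0 : ℝ) ≤ (⌊r⌋ : ℤ) := by exact_mod_cast Int.floor_nonneg.2 h
    exact pow_le_pow_left₀ h2 h1 2
  · have h0 : 0 ≤ -r := by linarith
    have h1 := Int.floor_le (-r)
    have h2 : (0 : ℝ) ≤ (⌊-r⌋ : ℤ) := by exact_mod_cast Int.floor_nonneg.2 h0
    push_cast
    rw [neg_sq, ← neg_sq r]
    exact pow_le_pow_left₀ h2 h1 2

private theorem C3_tr_abs (r : ℝ) : |r - (C3_tr r : ℤ)| ≤ 1 := by
  unfold C3_tr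
  split_ifs with h
  · have h1 := Int.floor_le r
    have h2 := Int.lt_floor_add_one r
    rw [abs_le]
    constructor <;> linarith
  · have h1 := Int.floor_le (-r)
    have h2 := Int.lt_floor_add_one (-r)
    push_cast
    rw [abs_le]
    constructor <;> linarith

private theorem C3_nr_sub (x y : Fin n → ℝ) : nr (x - y) ≤ 2 * nr x + 2 * nr y := by
  unfold nr
  rw [Finset.mul_sum, Finset.mul_sum, ← Finset.sum_add_distrib]
  refine Finset.sum_le_sum fun v _ => ?_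
  rw [Pi.sub_apply]
  nlinarith [sq_nonneg (x v + y v)]

/-- PROOF. Eigenvectors `u j`, eigenvalues `λ j` of `M`, `J = {j | θ t < |λ j|}`, `h j = h₀ (t / |λ j|) ^ 3`, `x j = ⟪u j, x⟫`,
`κ x j = sign (x j) ⌊|x j| / h j⌋` for `j ∈ J` and `0` otherwise. `h j ^ 2 (κ x j)² ≤ x j ^ 2`, and `∑ x j ^ 2 = nr x ≤ N`: so the number of values is
bounded by `lattice_count` and `cell_product`. If `κ x = κ y` then `|x j - y j| ≤ 2 h j` for `j ∈ J`, and
`|M³ (x - y)|² = ∑ λ j ^ 6 (x j - y j)² ≤ #J (2 h₀ t³)² + (θ t) ^ 6 |x - y|²`, `#J ≤ D / (θ t)²`, `|x - y|² ≤ 4 N`. -/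
theorem cells {M : Matrix (Fin n) (Fin n) ℝ} (hM : M.IsHermitian) {t θ h₀ s D N : ℝ}
    (ht : 0 < t) (hθ : 0 < θ) (hh : 0 < h₀) (hs : 0 < s) (hD : ∑ u, ∑ v, M u v ^ 2 ≤ D) :
    ∃ κ : (Fin n → ℝ) → (Fin n → ℤ),
      (∀ T : Finset (Fin n → ℤ), (∀ a ∈ T, ∃ x, nr x ≤ N ∧ κ x = a) → (T.card : ℝ) ≤
        Real.exp (s * N + D / (θ * t) ^ 2 * Real.log (1 + 2 / (s * h₀ ^ 2)) + 3 * D / t ^ 2)) ∧
      ∀ x y, nr x ≤ N → nr y ≤ N → κ x = κ y →
        nr ((M ^ 3).mulVec (x - y)) ≤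
          4 * h₀ ^ 2 * t ^ 6 * (D / (θ * t) ^ 2) + 4 * (θ * t) ^ 6 * N := by
  classical
  obtain ⟨U, hU1, hU2, hMU⟩ := C3_spec hM
  set lam := hM.eigenvalues with hlam
  have hDl : ∑ j, lam j ^ 2 ≤ D := by rw [← C3_sum_sq hU1 hMU]; exact hD
  set J : Finset (Fin n) := univ.filter fun j => θ * t < |lam j| with hJ
  have hθt : 0 < θ * t := mul_pos hθ ht
  have hJm : ∀ j ∈ J, θ * t < |lam j| := fun j hj => (Finset.mem_filter.1 hj).2
  set h : Fin n → ℝ := fun j => h₀ * (t / |lam j|) ^ 3 with hh'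
  have hpos : ∀ j ∈ J, 0 < h j := by
    intro j hj
    have := hθt.trans (hJm j hj)
    exact mul_pos hh (pow_pos (div_pos ht this) 3)
  set c : (Fin n → ℝ) → Fin n → ℝ := fun x => U.transpose.mulVec x with hc
  have hcsub : ∀ x y j, c (x - y) j = c x j - c y j := by
    intro x y j
    simp only [hc]
    rw [Matrix.mulVec_sub, Pi.sub_apply]
  refine ⟨fun x j => if j ∈ J then C3_tr (c x j / h j) else 0, ?_, ?_⟩
  · intro T hT
    have h1 : (T.card : ℝ) ≤ Real.exp (s * N) * ∏ j ∈ J, (1 + 2 / (s * h j ^ 2)) := by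
      refine lattice_count J h hpos hs T ?_
      intro a ha
      obtain ⟨x, hx, rfl⟩ := hT a ha
      refine ⟨fun j hj => if_neg hj, ?_⟩
      calc ∑ j ∈ J, h j ^ 2 * (((if j ∈ J then C3_tr (c x j / h j) else 0 : ℤ)) : ℝ) ^ 2
          ≤ ∑ j ∈ J, c x j ^ 2 := by
            refine Finset.sum_le_sum fun j hj => ?_
            rw [if_pos hj]
            calc h j ^ 2 * ((C3_tr (c x j / h j) : ℤ) : ℝ) ^ 2
                ≤ h j ^ 2 * (c x j / h j) ^ 2 :=
                  mul_le_mul_of_nonneg_left (C3_tr_sq _) (sq_nonneg _)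
              _ = c x j ^ 2 := by
                  have := (hpos j hj).ne'
                  field_simp
        _ ≤ ∑ j, c x j ^ 2 :=
            Finset.sum_le_sum_of_subset_of_nonneg (Finset.subset_univ J)
              fun j _ _ => sq_nonneg _
        _ = nr (c x) := rfl
        _ = nr x := C3_nr_orth hU2 x
        _ ≤ N := hx
    refine h1.trans ?_
    have h2 := cell_product lam ht hθ hh hs hDl J hJm
    calc Real.exp (s * N) * ∏ j ∈ J, (1 + 2 / (s * h j ^ 2))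
        ≤ Real.exp (s * N) *
          Real.exp (D / (θ * t) ^ 2 * Real.log (1 + 2 / (s * h₀ ^ 2)) + 3 * D / t ^ 2) :=
          mul_le_mul_of_nonneg_left h2 (Real.exp_pos _).le
      _ = _ := by
          rw [← Real.exp_add]
          congr 1
          ring
  · intro x y hx hy hxy
    have hM3 : nr ((M ^ 3).mulVec (x - y)) = ∑ j, (lam j ^ 3 * (c x j - c y j)) ^ 2 := by
      rw [← C3_nr_orth hU2]
      unfold nr
      refine Finset.sum_congr rfl fun j _ => ?_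
      rw [C3_coord_pow hU1 hMU 3 (x - y) j, ← hcsub x y j]
    have hcardJ : (J.card : ℝ) ≤ D / (θ * t) ^ 2 := by
      rw [le_div_iff₀ (by positivity)]
      calc (J.card : ℝ) * (θ * t) ^ 2 = ∑ _j ∈ J, (θ * t) ^ 2 := by
            rw [Finset.sum_const, nsmul_eq_mul]
        _ ≤ ∑ j ∈ J, lam j ^ 2 := by
            refine Finset.sum_le_sum fun j hj => ?_
            rw [← sq_abs (lam j)]
            exact pow_le_pow_left₀ hθt.le (hJm j hj).le 2
        _ ≤ ∑ j, lam j ^ 2 :=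
            Finset.sum_le_sum_of_subset_of_nonneg (Finset.subset_univ J)
              fun j _ _ => sq_nonneg _
        _ ≤ D := hDl
    have hin : ∀ j ∈ J, (lam j ^ 3 * (c x j - c y j)) ^ 2 ≤ 4 * h₀ ^ 2 * t ^ 6 := by
      intro j hj
      have hl : 0 < |lam j| := hθt.trans (hJm j hj)
      have hhj := hpos j hj
      have e1 : C3_tr (c x j / h j) = C3_tr (c y j / h j) := by
        have := congrFun hxy j
        simpa only [if_pos hj] using this
      have e2 : |c x j / h j - c y j / h j| ≤ 2 := by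
        have a1 := C3_tr_abs (c x j / h j)
        have a2 := C3_tr_abs (c y j / h j)
        rw [e1] at a1
        rw [abs_le] at a1 a2 ⊢
        constructor <;> linarith
      have e3 : |c x j - c y j| ≤ 2 * h j := by
        rw [← sub_div, abs_div, abs_of_pos hhj, div_le_iff₀ hhj] at e2
        exact e2
      have e4 : (c x j - c y j) ^ 2 ≤ (2 * h j) ^ 2 := by
        rw [← sq_abs]
        exact pow_le_pow_left₀ (abs_nonneg _) e3 2
      calc (lam j ^ 3 * (c x j - c y j)) ^ 2 = |lam j| ^ 6 * (c x j - c y j) ^ 2 := by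
            rw [mul_pow, ← pow_mul, show 3 * 2 = 6 from rfl, ← Even.pow_abs (by decide) (lam j)]
        _ ≤ |lam j| ^ 6 * (2 * h j) ^ 2 := mul_le_mul_of_nonneg_left e4 (by positivity)
        _ = 4 * h₀ ^ 2 * t ^ 6 := by
            simp only [hh']
            field_simp
            ring
    have hout : ∀ j, j ∉ J → (lam j ^ 3 * (c x j - c y j)) ^ 2 ≤
        (θ * t) ^ 6 * (c x j - c y j) ^ 2 := by
      intro j hj
      have hl : |lam j| ≤ θ * t := by
        by_contra hcon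
        exact hj (Finset.mem_filter.2 ⟨Finset.mem_univ j, not_le.1 hcon⟩)
      calc (lam j ^ 3 * (c x j - c y j)) ^ 2 = |lam j| ^ 6 * (c x j - c y j) ^ 2 := by
            rw [mul_pow, ← pow_mul, show 3 * 2 = 6 from rfl, ← Even.pow_abs (by decide) (lam j)]
        _ ≤ (θ * t) ^ 6 * (c x j - c y j) ^ 2 :=
            mul_le_mul_of_nonneg_right (pow_le_pow_left₀ (abs_nonneg _) hl 6) (sq_nonneg _)
    have hsum4 : ∑ j, (c x j - c y j) ^ 2 ≤ 4 * N := by
      have : ∑ j, (c x j - c y j) ^ 2 = nr (x - y) := by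
        rw [← C3_nr_orth hU2 (x - y)]
        unfold nr
        exact Finset.sum_congr rfl fun j _ => by rw [← hcsub x y j]
      rw [this]
      have := C3_nr_sub x y
      linarith
    rw [hM3, ← Finset.sum_filter_add_sum_filter_not univ (fun j => θ * t < |lam j|)]
    refine add_le_add ?_ ?_
    · calc ∑ j ∈ univ.filter (fun j => θ * t < |lam j|), (lam j ^ 3 * (c x j - c y j)) ^ 2
          ≤ ∑ _j ∈ J, 4 * h₀ ^ 2 * t ^ 6 := Finset.sum_le_sum fun j hj => hin j hj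
        _ = (J.card : ℝ) * (4 * h₀ ^ 2 * t ^ 6) := by rw [Finset.sum_const, nsmul_eq_mul]
        _ ≤ D / (θ * t) ^ 2 * (4 * h₀ ^ 2 * t ^ 6) :=
            mul_le_mul_of_nonneg_right hcardJ (by positivity)
        _ = _ := by ring
    · calc ∑ j ∈ univ.filter (fun j => ¬ θ * t < |lam j|), (lam j ^ 3 * (c x j - c y j)) ^ 2
          ≤ ∑ j ∈ univ.filter (fun j => ¬ θ * t < |lam j|), (θ * t) ^ 6 * (c x j - c y j) ^ 2 := by
            refine Finset.sum_le_sum fun j hj => hout j ?_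
            intro hj2
            exact (Finset.mem_filter.1 hj).2 (hJm j hj2)
        _ ≤ ∑ j, (θ * t) ^ 6 * (c x j - c y j) ^ 2 :=
            Finset.sum_le_sum_of_subset_of_nonneg (Finset.subset_univ _)
              fun j _ _ => by positivity
        _ = (θ * t) ^ 6 * ∑ j, (c x j - c y j) ^ 2 := by rw [Finset.mul_sum]
        _ ≤ (θ * t) ^ 6 * (4 * N) := mul_le_mul_of_nonneg_left hsum4 (by positivity)
        _ = _ := by ring

end Pool.Agent.MPa9445a.BE
end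
end
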