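import Pool.Agent.Lib.MP_a9445a_lc.Mg.G112
import Pool.Agent.Lib.MP_a9445a_lc.BE.Defs
import Pool.Agent.Lib.MP_a9445a_lc.Mg.G118

section

section

/-! Functions computed by programs: loops. -/

set_option autoImplicit false

namespace Pool.Agent.MPa9445a.BE

private theorem P2b_x {A : Type} (N : A → ℕ) (a : A) : (2 : ℝ) ≤ (N a : ℝ) + 2 := by
  have : (0 : ℝ) ≤ (N a : ℝ) := Nat.cast_nonneg _
  linarith

private theorem P2b_aux {x : ℝ} (hx : 2 ≤ x) (m c : ℕ) :
    1 ≤ x ^ m ∧ 1 ≤ x ^ c ∧ x ^ m + 1 ≤ x ^ (m + c + 4) ∧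
      x ^ m + x ^ c + (x ^ m + x ^ c) + 1 ≤ x ^ (m + c + 4) := by
  have h0 : (1 : ℝ) ≤ x := by linarith
  have h1 : (1 : ℝ) ≤ x ^ m := one_le_pow₀ h0
  have h2 : (1 : ℝ) ≤ x ^ c := one_le_pow₀ h0
  have h3 : x ^ (m + c + 4) = x ^ m * x ^ c * x ^ 4 := by ring
  have h4 : (16 : ℝ) ≤ x ^ 4 := by
    calc (16 : ℝ) = 2 ^ 4 := by norm_num
      _ ≤ x ^ 4 := pow_le_pow_left₀ (by norm_num) hx 4
  generalize x ^ m = u at *
  generalize x ^ c = v at *
  have h6 : u * v * 16 ≤ u * v * x ^ 4 :=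
    mul_le_mul_of_nonneg_left h4 (mul_nonneg (by linarith) (by linarith))
  have h7 : 0 ≤ (u - 1) * (v - 1) := mul_nonneg (by linarith) (by linarith)
  rw [h3]
  refine ⟨h1, h2, ?_, ?_⟩ <;> nlinarith

private theorem P2b_asz {l : List ℤ} {B : ℕ} (h : ∀ x ∈ l, sz x ≤ B) : asz l ≤ B := by
  induction l with
  | nil => exact Nat.zero_le _
  | cons x l ih =>
    have h1 : asz (x :: l) = max (sz x) (asz l) := rfl
    rw [h1]
    exact max_le (h x List.mem_cons_self) (ih fun y hy => h y (List.mem_cons_of_mem _ hy))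

private theorem P2b_abs (k : ℕ) (f : ℕ → ℤ) {B : ℕ} (h : ∀ i < k, sz (f i) ≤ B) :
    sz (∑ i ∈ Finset.range k, |f i|) ≤ sz (k : ℤ) + B := by
  have h1 : ∀ i ∈ Finset.range k, |f i| ≤ 2 ^ B := by
    intro i hi
    have h2 : (f i).natAbs < 2 ^ B := Nat.size_le.mp (h i (Finset.mem_range.mp hi))
    rw [Int.abs_eq_natAbs]
    exact_mod_cast h2.le
  have h3 : ∑ i ∈ Finset.range k, |f i| ≤ k * 2 ^ B := by
    refine (Finset.sum_le_sum h1).trans ?_
    rw [Finset.sum_const, Finset.card_range, nsmul_eq_mul]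
  have h4 : 0 ≤ ∑ i ∈ Finset.range k, |f i| := Finset.sum_nonneg fun i _ => abs_nonneg _
  have h5 : k < 2 ^ sz (k : ℤ) := by
    have h6 : (k : ℤ).natAbs < 2 ^ sz (k : ℤ) := Nat.lt_size_self _
    exact h6
  have h7 : (∑ i ∈ Finset.range k, |f i|).natAbs ≤ k * 2 ^ B := by
    zify
    rw [abs_of_nonneg h4]
    exact h3
  have h8 : k * 2 ^ B < 2 ^ (sz (k : ℤ) + B) := by
    rw [pow_add]
    exact Nat.mul_lt_mul_of_pos_right h5 (Nat.two_pow_pos B)
  exact Nat.size_le.mpr (h7.trans_lt h8)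

private theorem P2b_cost {k : ℕ} {x w : ℝ} (hx : 2 ≤ x) (hw : 1 ≤ w) (m c : ℕ) {kc p : ℝ}
    {ec q : ℕ → ℝ} (hkc : kc ≤ x ^ m) (hp : p ≤ x ^ m) (hec : ∀ i < k, ec i ≤ x ^ c * w)
    (hq : ∀ i < k, q i ≤ x ^ m + x ^ c) :
    kc + 1 + ∑ i ∈ Finset.range k, (ec i + 1 + p + q i) ≤
      x ^ (m + c + 4) * (((k : ℝ) + 1) * w) := by
  obtain ⟨h1, h2, h3, h4⟩ := P2b_aux hx m c
  have h5 : ∀ i ∈ Finset.range k, ec i + 1 + p + q i ≤ x ^ (m + c + 4) * w := by
    intro i hi
    have h6 := hec i (Finset.mem_range.mp hi)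
    have h7 := hq i (Finset.mem_range.mp hi)
    have h8 : (x ^ m + x ^ c + (x ^ m + x ^ c) + 1) * w ≤ x ^ (m + c + 4) * w :=
      mul_le_mul_of_nonneg_right h4 (by linarith)
    have h9 : 0 ≤ (x ^ m + x ^ m + x ^ c + 1) * (w - 1) :=
      mul_nonneg (by linarith) (by linarith)
    nlinarith
  have h6 := Finset.sum_le_sum h5
  rw [Finset.sum_const, Finset.card_range, nsmul_eq_mul] at h6
  have h7 : (x ^ m + 1) * w ≤ x ^ (m + c + 4) * w :=
    mul_le_mul_of_nonneg_right h3 (by linarith)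
  have h8 : 0 ≤ (x ^ m + 1) * (w - 1) := mul_nonneg (by linarith) (by linarith)
  nlinarith

section

variable {A : Type} {N : A → ℕ} {D : A → Prop} {Γ : List Ty} {ρ : A → Env Γ}

/-- The body of a loop: `f p.1 p.2` is computed from all variables which provide the old functions and
the loop variable. -/
def Body (N : A → ℕ) (D : A → Prop) {Γ : List Ty} (ρ : A → Env Γ) (k : A → ℕ)
    (w : ℝ → A → ℝ) (t : Ty) (f : A → ℕ → t.Val) : Prop :=
  ∀ (Γ' : List Ty) (ρ' : A × ℕ → Env Γ'), Up N D ρ k ρ' → PN (NL N) (DL D k) ρ' (fun p => p.2) →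
    Cp (NL N) (DL D k) ρ' (fun τ p => w τ p.1) t (fun p => f p.1 p.2)

/-- PROOF. Take `ρ' p = ((p.2 : ℤ), ρ p.1)`; `Up` by `Ex.wk` (the program of `f` weakened), the loop variable by `Ex.top` and `sz p.2 ≤ sz (k p.1)`. -/
theorem Body.out {k : A → ℕ} {w : ℝ → A → ℝ} {t : Ty} {f : A → ℕ → t.Val}
    (hk : ∃ c : ℕ, ∀ a, D a → sz (k a : ℤ) ≤ (N a + 2) ^ c)
    (h : Body N D ρ k w t f) :
    ∃ (e : Ex (.int :: Γ) t) (c : ℕ), ∀ a, D a → ∀ i < k a,
      e.eval ((i : ℤ), ρ a) = f a i ∧ vs (f a i) ≤ (N a + 2) ^ c ∧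
        ∀ τ : ℝ, 2 ≤ τ → 1 ≤ w τ a ∧ e.cost τ ((i : ℤ), ρ a) ≤ ((N a : ℝ) + 2) ^ c * w τ a := by
  obtain ⟨c, hc⟩ := hk
  have up : Up N D ρ k (Γ' := .int :: Γ) (fun p => ((p.2 : ℤ), ρ p.1)) := by
    intro w t f hf
    obtain ⟨e, m, he⟩ := hf
    refine ⟨Ex.wk e, m, fun p hp => ?_⟩
    simp only [Ex.eval, Ex.cost]
    exact he p.1 hp.1
  have hv : PN (NL N) (DL D k) (Γ := .int :: Γ) (fun p => ((p.2 : ℤ), ρ p.1))
      (fun p => p.2) := by
    refine Cp.top (t := .int) (ρ := fun p : A × ℕ => ρ p.1) (f := fun p => (p.2 : ℤ))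
      ⟨c, fun p hp => ?_⟩
    refine le_trans ?_ (hc p.1 hp.1)
    refine sz_mono ?_
    rw [Nat.abs_cast, Nat.abs_cast]
    exact_mod_cast hp.2.le
  obtain ⟨e, m, he⟩ := h _ _ up hv
  exact ⟨e, m, fun a ha i hi => he (a, i) ⟨ha, hi⟩⟩

/-- PROOF. `Body.out`, `Ex.sum`. The sum of the absolute values is at most `k` times the maximum. The hypothesis `hw` is needed for `k a = 0`. -/
theorem Cp.sum {k : A → ℕ} {w : ℝ → A → ℝ} {f : A → ℕ → ℤ} (hk : PN N D ρ k)
    (hw : ∀ a, D a → ∀ τ : ℝ, 2 ≤ τ → 1 ≤ w τ a)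
    (h : Body N D ρ k w .int f) :
    Cp N D ρ (fun τ a => (k a + 1) * w τ a) .int (fun a => ∑ i ∈ Finset.range (k a), f a i) := by
  obtain ⟨ek, m, hk'⟩ := hk
  obtain ⟨e, c, he⟩ := Body.out ⟨m, fun a ha => (hk' a ha).2.1⟩ h
  refine ⟨Ex.sum ek e, m + c + 4, fun a ha => ?_⟩
  obtain ⟨h3, h4, h5⟩ := hk' a ha
  obtain ⟨h20, h21, h22, h23⟩ := P2b_aux (P2b_x N a) m c
  have hkR : (sz (k a : ℤ) : ℝ) ≤ ((N a : ℝ) + 2) ^ m := by
    have h9 : sz (k a : ℤ) ≤ (N a + 2) ^ m := h4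
    exact_mod_cast h9
  have hfR : ∀ i < k a, sz (f a i) ≤ (N a + 2) ^ c := fun i hi => (he a ha i hi).2.1
  have hS : sz (∑ i ∈ Finset.range (k a), |f a i|) ≤ sz (k a : ℤ) + (N a + 2) ^ c :=
    P2b_abs (k a) (f a) hfR
  have hSR : (sz (∑ i ∈ Finset.range (k a), |f a i|) : ℝ) ≤
      ((N a : ℝ) + 2) ^ m + ((N a : ℝ) + 2) ^ c := by
    have h9 : (sz (∑ i ∈ Finset.range (k a), |f a i|) : ℝ) ≤
        sz (k a : ℤ) + ((N a : ℝ) + 2) ^ c := by exact_mod_cast hS
    linarith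
  refine ⟨?_, ?_, fun τ hτ => ⟨?_, ?_⟩⟩
  · simp only [Ex.eval]
    rw [h3, Int.toNat_natCast]
    exact Finset.sum_congr rfl fun i hi => (he a ha i (Finset.mem_range.mp hi)).1
  · have h10 : sz (∑ i ∈ Finset.range (k a), f a i) ≤
        sz (∑ i ∈ Finset.range (k a), |f a i|) := by
      apply sz_mono
      rw [abs_of_nonneg (Finset.sum_nonneg fun i _ => abs_nonneg (f a i))]
      exact Finset.abs_sum_le_sum_abs _ _
    have h11 : (sz (∑ i ∈ Finset.range (k a), f a i) : ℝ) ≤ ((N a : ℝ) + 2) ^ (m + c + 4) := by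
      have h12 : (sz (∑ i ∈ Finset.range (k a), f a i) : ℝ) ≤
          sz (∑ i ∈ Finset.range (k a), |f a i|) := by exact_mod_cast h10
      linarith
    change sz (∑ i ∈ Finset.range (k a), f a i) ≤ _
    exact_mod_cast h11
  · have h13 := hw a ha τ hτ
    have h14 : (0 : ℝ) ≤ k a := Nat.cast_nonneg _
    nlinarith
  · have h13 := (h5 τ hτ).2
    rw [one, mul_one] at h13
    simp only [Ex.cost]
    rw [h3, Int.toNat_natCast]
    have h15 : ∑ j ∈ Finset.range (k a), |e.eval ((j : ℤ), ρ a)| =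
        ∑ j ∈ Finset.range (k a), |f a j| :=
      Finset.sum_congr rfl fun i hi => by rw [(he a ha i (Finset.mem_range.mp hi)).1]
    rw [h15]
    exact P2b_cost (P2b_x N a) (hw a ha τ hτ) m c h13 hkR
      (fun i hi => ((he a ha i hi).2.2 τ hτ).2) (fun i _ => hSR)

/-- PROOF. `Ex.tab`. -/
theorem Cp.tab {k : A → ℕ} {w : ℝ → A → ℝ} {f : A → ℕ → ℤ} (hk : PN N D ρ k)
    (hw : ∀ a, D a → ∀ τ : ℝ, 2 ≤ τ → 1 ≤ w τ a)
    (h : Body N D ρ k w .int f) :
    Cp N D ρ (fun τ a => (k a + 1) * w τ a) .arr (fun a => tb (k a) (f a)) := by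
  obtain ⟨ek, m, hk'⟩ := hk
  obtain ⟨e, c, he⟩ := Body.out ⟨m, fun a ha => (hk' a ha).2.1⟩ h
  refine ⟨Ex.tab ek e, m + c + 4, fun a ha => ?_⟩
  obtain ⟨h3, h4, h5⟩ := hk' a ha
  obtain ⟨h20, h21, h22, h23⟩ := P2b_aux (P2b_x N a) m c
  have hkR : (sz (k a : ℤ) : ℝ) ≤ ((N a : ℝ) + 2) ^ m := by
    have h9 : sz (k a : ℤ) ≤ (N a + 2) ^ m := h4
    exact_mod_cast h9
  have hfR : ∀ i < k a, sz (f a i) ≤ (N a + 2) ^ c := fun i hi => (he a ha i hi).2.1
  refine ⟨?_, ?_, fun τ hτ => ⟨?_, ?_⟩⟩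
  · simp only [Ex.eval]
    rw [h3, Int.toNat_natCast]
    exact List.map_congr_left fun i hi => (he a ha i (List.mem_range.mp hi)).1
  · have h10 : asz (tb (k a) (f a)) ≤ (N a + 2) ^ c := by
      apply P2b_asz
      intro x hx
      obtain ⟨i, hi, rfl⟩ := List.mem_map.mp hx
      exact hfR i (List.mem_range.mp hi)
    have h11 : Nat.size (tb (k a) (f a)).length ≤ (N a + 2) ^ m := by
      rw [length_tb]
      exact h4
    change asz (tb (k a) (f a)) + Nat.size (tb (k a) (f a)).length ≤ _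
    have h12 : ((asz (tb (k a) (f a)) + Nat.size (tb (k a) (f a)).length : ℕ) : ℝ) ≤
        ((N a : ℝ) + 2) ^ (m + c + 4) := by
      have h13 : ((asz (tb (k a) (f a)) : ℕ) : ℝ) ≤ ((N a : ℝ) + 2) ^ c := by exact_mod_cast h10
      have h14 : ((Nat.size (tb (k a) (f a)).length : ℕ) : ℝ) ≤ ((N a : ℝ) + 2) ^ m := by
        exact_mod_cast h11
      push_cast
      linarith
    exact_mod_cast h12
  · have h13 := hw a ha τ hτ
    have h14 : (0 : ℝ) ≤ k a := Nat.cast_nonneg _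
    nlinarith
  · have h13 := (h5 τ hτ).2
    rw [one, mul_one] at h13
    simp only [Ex.cost]
    rw [h3, Int.toNat_natCast]
    exact P2b_cost (P2b_x N a) (hw a ha τ hτ) m c h13 hkR
      (fun i hi => ((he a ha i hi).2.2 τ hτ).2) (fun i hi => by
        rw [(he a ha i hi).1]
        have h15 : (sz (f a i) : ℝ) ≤ ((N a : ℝ) + 2) ^ c := by exact_mod_cast hfR i hi
        linarith)

end

end Pool.Agent.MPa9445a.BE
end

section

/-! Functions computed by programs: maximum, filter, matrix product. -/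

set_option autoImplicit false

namespace Pool.Agent.MPa9445a.BE

private theorem P2c_find {p q : ℕ → Bool} (l : List ℕ) (h : ∀ i ∈ l, p i = q i) :
    l.find? p = l.find? q := by
  induction l with
  | nil => rfl
  | cons x l ih =>
    have h1 := h x List.mem_cons_self
    have h2 := ih fun i hi => h i (List.mem_cons_of_mem _ hi)
    rw [List.find?_cons, List.find?_cons, h1, h2]

private theorem P2c_argmax {k : ℕ} {f g : ℤ → ℤ} (h : ∀ i < k, f (i : ℤ) = g (i : ℤ)) :
    argmax k f = argmax k g := by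
  unfold argmax
  congr 1
  apply P2c_find
  intro i hi
  have hi' := List.mem_range.mp hi
  rw [Bool.eq_iff_iff, List.all_eq_true, List.all_eq_true]
  constructor
  · intro h1 j hj
    have h2 := h1 j hj
    rw [h i hi', h j (List.mem_range.mp hj)] at h2
    exact h2
  · intro h1 j hj
    have h2 := h1 j hj
    rw [← h i hi', ← h j (List.mem_range.mp hj)] at h2
    exact h2

private theorem P2c_asz {l : List ℤ} {M : ℕ} (h : ∀ x ∈ l, sz x ≤ M) : asz l ≤ M := by
  unfold asz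
  induction l with
  | nil => simp
  | cons x l ih =>
    rw [List.map_cons, List.foldr_cons]
    exact max_le (h x List.mem_cons_self) (ih fun y hy => h y (List.mem_cons_of_mem _ hy))

private theorem P2c_sum (k M : ℕ) (x : ℕ → ℤ) (h : ∀ i < k, sz (x i) ≤ M) :
    sz (∑ i ∈ Finset.range k, x i) ≤ sz (k : ℤ) + M := by
  unfold sz
  rw [Nat.size_le]
  have h1 : (∑ i ∈ Finset.range k, x i).natAbs ≤ ∑ i ∈ Finset.range k, (x i).natAbs :=
    Int.natAbs_sum_le _ _
  have h2 : ∑ i ∈ Finset.range k, (x i).natAbs ≤ ∑ _i ∈ Finset.range k, 2 ^ M := by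
    refine Finset.sum_le_sum fun i hi => ?_
    have h3 := h i (Finset.mem_range.mp hi)
    unfold sz at h3
    exact (Nat.size_le.mp h3).le
  rw [Finset.sum_const, Finset.card_range, smul_eq_mul] at h2
  have h4 : k * 2 ^ M < 2 ^ Nat.size (k : ℤ).natAbs * 2 ^ M := by
    rw [Int.natAbs_natCast]
    exact Nat.mul_lt_mul_of_pos_right (Nat.lt_size_self k) (by positivity)
  rw [pow_add]
  omega

private theorem P2c_matMul (k : ℕ) (a b : List ℤ) :
    asz (matMul k a b) ≤ sz (k : ℤ) + (asz a + asz b) := by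
  apply P2c_asz
  intro x hx
  unfold matMul at hx
  obtain ⟨i, -, rfl⟩ := List.mem_map.mp hx
  refine P2c_sum k _ _ fun l _ => ?_
  exact (sz_mul _ _).trans (add_le_add (sz_nth _ _) (sz_nth _ _))

private theorem P2c_pow {X : ℝ} (hX : 2 ≤ X) {a b : ℕ} (h : a ≤ b) : X ^ a ≤ X ^ b :=
  pow_le_pow_right₀ (by linarith) h

private theorem P2c_four {X : ℝ} (hX : 2 ≤ X) (s : ℕ) : 4 * X ^ s ≤ X ^ (s + 2) := by
  rw [pow_add]
  have h1 : 0 < X ^ s := by positivity
  have h2 : (4 : ℝ) ≤ X ^ 2 := by nlinarith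
  nlinarith

/-- The cost of a loop. -/
private theorem P2c_loop {X W : ℝ} (hX : 2 ≤ X) (hW : 1 ≤ W) (k c d : ℕ) (ck : ℝ) (F : ℕ → ℝ)
    (hck : ck ≤ X ^ d) (hF : ∀ i < k, F i ≤ X ^ c * W + 1 + X ^ d + X ^ c) :
    ck + 1 + ∑ i ∈ Finset.range k, F i ≤ X ^ (c + d + 2) * ((k + 1) * W) := by
  have hX0 : (0 : ℝ) < X := by linarith
  have h1 : ∑ i ∈ Finset.range k, F i ≤ ∑ _i ∈ Finset.range k, X ^ (c + d + 2) * W := by
    refine Finset.sum_le_sum fun i hi => (hF i (Finset.mem_range.mp hi)).trans ?_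
    have e1 : X ^ c ≤ X ^ (c + d) := P2c_pow hX (by omega)
    have e2 : X ^ d ≤ X ^ (c + d) := P2c_pow hX (by omega)
    have e3 : (1 : ℝ) ≤ X ^ (c + d) := one_le_pow₀ (by linarith)
    have e4 := P2c_four hX (c + d)
    have e5 : 0 < X ^ c := by positivity
    have e6 : 0 < X ^ d := by positivity
    nlinarith
  rw [Finset.sum_const, Finset.card_range, nsmul_eq_mul] at h1
  have h2 : ck + 1 ≤ X ^ (c + d + 2) * W := by
    have e2 : X ^ d ≤ X ^ (c + d) := P2c_pow hX (by omega)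
    have e3 : (1 : ℝ) ≤ X ^ (c + d) := one_le_pow₀ (by linarith)
    have e4 := P2c_four hX (c + d)
    nlinarith
  nlinarith

section

variable {A : Type} {N : A → ℕ} {D : A → Prop} {Γ : List Ty} {ρ : A → Env Γ}

/-- PROOF. `Ex.amax`. For `i < k` the function is only read at `i < k`: `argmax` depends only on these values. -/
theorem Cp.amax {k : A → ℕ} {w : ℝ → A → ℝ} {f : A → ℕ → ℤ} (hk : PN N D ρ k)
    (hw : ∀ a, D a → ∀ τ : ℝ, 2 ≤ τ → 1 ≤ w τ a)
    (h : Body N D ρ k w .int f) :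
    Cp N D ρ (fun τ a => (k a + 1) * w τ a) .int
      (fun a => (argmax (k a) (fun i => f a i.toNat) : ℤ)) := by
  obtain ⟨ek, d, hek⟩ := hk
  obtain ⟨e, c, he⟩ := Body.out ⟨d, fun a ha => (hek a ha).2.1⟩ h
  refine ⟨Ex.amax ek e, c + d + 2, fun a ha => ?_⟩
  obtain ⟨h1, h2, h3⟩ := hek a ha
  have hev : (ek.eval (ρ a)).toNat = k a := by
    rw [h1]
    exact Int.toNat_natCast _
  have harg : argmax (k a) (fun i => e.eval (i, ρ a)) = argmax (k a) (fun i => f a i.toNat) := by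
    apply P2c_argmax
    intro i hi
    rw [Int.toNat_natCast]
    exact (he a ha i hi).1
  refine ⟨?_, ?_, fun τ hτ => ⟨?_, ?_⟩⟩
  · change ((argmax (ek.eval (ρ a)).toNat (fun i => e.eval (i, ρ a)) : ℕ) : ℤ) = _
    rw [hev, harg]
  · change sz ((argmax (k a) (fun i => f a i.toNat) : ℕ) : ℤ) ≤ _
    have h4 : sz ((argmax (k a) (fun i => f a i.toNat) : ℕ) : ℤ) ≤ sz ((k a : ℕ) : ℤ) := by
      apply sz_mono
      rw [Nat.abs_cast, Nat.abs_cast]
      exact_mod_cast argmax_le _ _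
    refine h4.trans (h2.trans ?_)
    exact Nat.pow_le_pow_right (by omega) (by omega)
  · have h5 := hw a ha τ hτ
    have h6 : (0 : ℝ) ≤ (k a : ℝ) := Nat.cast_nonneg _
    nlinarith
  · have hX : (2 : ℝ) ≤ (N a : ℝ) + 2 := by
      have h6 : (0 : ℝ) ≤ (N a : ℝ) := Nat.cast_nonneg _
      linarith
    have h7 := P2c_loop hX (hw a ha τ hτ) (k a) c d (ek.cost τ (ρ a))
      (fun i => e.cost τ ((i : ℤ), ρ a) + 1 + sz (ek.eval (ρ a)) + sz (e.eval ((i : ℤ), ρ a)))
      (by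
        have h8 := (h3 τ hτ).2
        simpa [one] using h8)
      (fun i hi => by
        obtain ⟨g1, g2, g3⟩ := he a ha i hi
        have g4 := (g3 τ hτ).2
        have g5 : (sz (ek.eval (ρ a)) : ℝ) ≤ ((N a : ℝ) + 2) ^ d := by
          rw [h1]
          exact_mod_cast h2
        have g6 : (sz (e.eval ((i : ℤ), ρ a)) : ℝ) ≤ ((N a : ℝ) + 2) ^ c := by
          rw [g1]
          exact_mod_cast g2
        linarith)
    have h9 : (Ex.amax ek e).cost τ (ρ a) = ek.cost τ (ρ a) + 1 +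
        ∑ i ∈ Finset.range (ek.eval (ρ a)).toNat,
          (e.cost τ ((i : ℤ), ρ a) + 1 + sz (ek.eval (ρ a)) + sz (e.eval ((i : ℤ), ρ a))) := by
      simp only [Ex.cost]
    rw [h9, hev]
    exact h7

/-- The filter. PROOF. `Ex.filter`; the property inside the loop is given as `PB`: use its function. -/
theorem Cp.filter {k : A → ℕ} {q : A → ℕ → Prop} [∀ a, DecidablePred (q a)] (hk : PN N D ρ k)
    (h : ∀ (Γ' : List Ty) (ρ' : A × ℕ → Env Γ'), Up N D ρ k ρ' →
      PN (NL N) (DL D k) ρ' (fun p => p.2) → PB (NL N) (DL D k) ρ' (fun p => q p.1 p.2)) :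
    Cp N D ρ (fun _ a => (k a + 1 : ℝ)) .arr (fun a => flt (k a) (q a)) := by
  have hB : Body N D ρ k one .int (fun a i => if q a i then 1 else 0) := by
    intro Γ' ρ' up hv
    have h1 := h Γ' ρ' up hv
    exact Cp.ite (w := one) h1 (PI.const 1) (PI.const 0)
  obtain ⟨ek, d, hek⟩ := hk
  obtain ⟨e, c, he⟩ := Body.out ⟨d, fun a ha => (hek a ha).2.1⟩ hB
  refine ⟨Ex.filter ek e, c + d + 2, fun a ha => ?_⟩
  obtain ⟨h1, h2, h3⟩ := hek a ha
  have hev : (ek.eval (ρ a)).toNat = k a := by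
    rw [h1]
    exact Int.toNat_natCast _
  have hX : (2 : ℝ) ≤ (N a : ℝ) + 2 := by
    have h6 : (0 : ℝ) ≤ (N a : ℝ) := Nat.cast_nonneg _
    linarith
  refine ⟨?_, ?_, fun τ hτ => ⟨?_, ?_⟩⟩
  · change (((List.range (ek.eval (ρ a)).toNat).filter fun i : ℕ =>
      decide (e.eval ((i : ℤ), ρ a) ≠ 0)).map fun i : ℕ => (i : ℤ)) = flt (k a) (q a)
    rw [hev]
    unfold flt
    congr 1
    apply List.filter_congr
    intro i hi
    have h4 := (he a ha i (List.mem_range.mp hi)).1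
    rw [h4]
    by_cases hq : q a i
    · simp [hq]
    · simp [hq]
  · change asz (flt (k a) (q a)) + Nat.size (flt (k a) (q a)).length ≤ _
    have h4 : asz (flt (k a) (q a)) ≤ sz ((k a : ℕ) : ℤ) := by
      apply P2c_asz
      intro x hx
      unfold flt at hx
      obtain ⟨i, hi, rfl⟩ := List.mem_map.mp hx
      have hi2 := List.mem_range.mp (List.mem_filter.mp hi).1
      apply sz_mono
      rw [Nat.abs_cast, Nat.abs_cast]
      exact_mod_cast hi2.le
    have h5 : Nat.size (flt (k a) (q a)).length ≤ sz ((k a : ℕ) : ℤ) := by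
      unfold sz
      rw [Int.natAbs_natCast]
      apply Nat.size_le_size
      unfold flt
      rw [List.length_map]
      exact (List.length_filter_le _ _).trans (by rw [List.length_range])
    have h6 : sz ((k a : ℕ) : ℤ) ≤ (N a + 2) ^ d := h2
    have h7 : 2 * (N a + 2) ^ d ≤ (N a + 2) ^ (c + d + 2) := by
      calc 2 * (N a + 2) ^ d ≤ (N a + 2) * (N a + 2) ^ d := Nat.mul_le_mul_right _ (by omega)
        _ = (N a + 2) ^ (d + 1) := by ring
        _ ≤ _ := Nat.pow_le_pow_right (by omega) (by omega)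
    omega
  · have h6 : (0 : ℝ) ≤ (k a : ℝ) := Nat.cast_nonneg _
    change (1 : ℝ) ≤ (k a : ℝ) + 1
    linarith
  · have h7 := P2c_loop hX le_rfl (k a) c d (ek.cost τ (ρ a))
      (fun i => e.cost τ ((i : ℤ), ρ a) + 1 + sz (ek.eval (ρ a)) + sz (e.eval ((i : ℤ), ρ a)))
      (by
        have h8 := (h3 τ hτ).2
        simpa [one] using h8)
      (fun i hi => by
        obtain ⟨g1, g2, g3⟩ := he a ha i hi
        have g4 := (g3 τ hτ).2
        have g5 : (sz (ek.eval (ρ a)) : ℝ) ≤ ((N a : ℝ) + 2) ^ d := by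
          rw [h1]
          exact_mod_cast h2
        have g6 : (sz (e.eval ((i : ℤ), ρ a)) : ℝ) ≤ ((N a : ℝ) + 2) ^ c := by
          rw [g1]
          exact_mod_cast g2
        simp only [one] at g4
        linarith)
    have h9 : (Ex.filter ek e).cost τ (ρ a) = ek.cost τ (ρ a) + 1 +
        ∑ i ∈ Finset.range (ek.eval (ρ a)).toNat,
          (e.cost τ ((i : ℤ), ρ a) + 1 + sz (ek.eval (ρ a)) + sz (e.eval ((i : ℤ), ρ a))) := by
      simp only [Ex.cost]
    rw [h9, hev]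
    rw [mul_one] at h7
    exact h7

/-- The product of large matrices. PROOF. `Ex.mm`; sizes of the entries of the product: `k` times the product of the maxima. -/
theorem Cp.mm {k : A → ℕ} {l m : A → List ℤ} (hk : PN N D ρ k) (hl : PA N D ρ l)
    (hm : PA N D ρ m) :
    Cp N D ρ (fun τ a => ((k a : ℝ) + 1) ^ τ) .arr (fun a => matMul (k a) (l a) (m a)) := by
  obtain ⟨ek, c, hek⟩ := hk
  obtain ⟨el, d, hel⟩ := hl
  obtain ⟨em, d', hem⟩ := hm
  refine ⟨Ex.mm ek el em, c + d + d' + 4, fun a ha => ?_⟩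
  obtain ⟨h1, h2, h3⟩ := hek a ha
  obtain ⟨i1, i2, i3⟩ := hel a ha
  obtain ⟨j1, j2, j3⟩ := hem a ha
  have hev : (ek.eval (ρ a)).toNat = k a := by
    rw [h1]
    exact Int.toNat_natCast _
  have hX : (2 : ℝ) ≤ (N a : ℝ) + 2 := by
    have h6 : (0 : ℝ) ≤ (N a : ℝ) := Nat.cast_nonneg _
    linarith
  have hk2 : sz ((k a : ℕ) : ℤ) ≤ (N a + 2) ^ c := h2
  have hl2 : asz (l a) ≤ (N a + 2) ^ d := (Nat.le_add_right _ _).trans i2
  have hm2 : asz (m a) ≤ (N a + 2) ^ d' := (Nat.le_add_right _ _).trans j2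
  have hmat := P2c_matMul (k a) (l a) (m a)
  have p1 : (N a + 2) ^ c ≤ (N a + 2) ^ (c + d + d') := Nat.pow_le_pow_right (by omega) (by omega)
  have p2 : (N a + 2) ^ d ≤ (N a + 2) ^ (c + d + d') := Nat.pow_le_pow_right (by omega) (by omega)
  have p3 : (N a + 2) ^ d' ≤ (N a + 2) ^ (c + d + d') := Nat.pow_le_pow_right (by omega) (by omega)
  have p4 : 1 ≤ (N a + 2) ^ (c + d + d') := Nat.one_le_pow _ _ (by omega)
  refine ⟨?_, ?_, fun τ hτ => ⟨?_, ?_⟩⟩
  · change matMul (ek.eval (ρ a)).toNat (el.eval (ρ a)) (em.eval (ρ a)) = _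
    rw [hev, i1, j1]
  · change asz (matMul (k a) (l a) (m a)) + Nat.size (matMul (k a) (l a) (m a)).length ≤ _
    have h5 : Nat.size (matMul (k a) (l a) (m a)).length ≤ sz ((k a : ℕ) : ℤ) +
        sz ((k a : ℕ) : ℤ) := by
      have h6 := sz_mul ((k a : ℕ) : ℤ) ((k a : ℕ) : ℤ)
      have h7 : sz (((k a : ℕ) : ℤ) * ((k a : ℕ) : ℤ)) =
          Nat.size (matMul (k a) (l a) (m a)).length := by
        unfold sz matMul
        rw [List.length_map, List.length_range, ← Nat.cast_mul, Int.natAbs_natCast]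
      rw [← h7]
      exact h6
    have h8 : 8 * (N a + 2) ^ (c + d + d') ≤ (N a + 2) ^ (c + d + d' + 4) := by
      have h9 : 8 ≤ (N a + 2) ^ 4 := by
        calc 8 ≤ 2 ^ 4 := by norm_num
          _ ≤ (N a + 2) ^ 4 := Nat.pow_le_pow_left (by omega) 4
      calc 8 * (N a + 2) ^ (c + d + d') ≤ (N a + 2) ^ 4 * (N a + 2) ^ (c + d + d') :=
            Nat.mul_le_mul_right _ h9
        _ = _ := by ring
    omega
  · have h6 : (1 : ℝ) ≤ (k a : ℝ) + 1 := by
      have : (0 : ℝ) ≤ (k a : ℝ) := Nat.cast_nonneg _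
      linarith
    exact Real.one_le_rpow h6 (by linarith)
  · have h9 : (Ex.mm ek el em).cost τ (ρ a) = ek.cost τ (ρ a) + el.cost τ (ρ a) +
        em.cost τ (ρ a) + 1 + ((ek.eval (ρ a)).toNat : ℝ) ^ τ * (1 + sz (ek.eval (ρ a)) +
          asz (el.eval (ρ a)) + asz (em.eval (ρ a)) +
          asz (matMul (ek.eval (ρ a)).toNat (el.eval (ρ a)) (em.eval (ρ a)))) := by
      simp only [Ex.cost]
    rw [h9, hev, h1, i1, j1]
    set X : ℝ := (N a : ℝ) + 2 with hXd
    have g1 : ek.cost τ (ρ a) ≤ X ^ c := by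
      have := (h3 τ hτ).2
      simpa [one] using this
    have g2 : el.cost τ (ρ a) ≤ X ^ d := by
      have := (i3 τ hτ).2
      simpa [one] using this
    have g3 : em.cost τ (ρ a) ≤ X ^ d' := by
      have := (j3 τ hτ).2
      simpa [one] using this
    have q1 : X ^ c ≤ X ^ (c + d + d') := P2c_pow hX (by omega)
    have q2 : X ^ d ≤ X ^ (c + d + d') := P2c_pow hX (by omega)
    have q3 : X ^ d' ≤ X ^ (c + d + d') := P2c_pow hX (by omega)
    have q4 : (1 : ℝ) ≤ X ^ (c + d + d') := one_le_pow₀ (by linarith)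
    have r1 : (sz ((k a : ℕ) : ℤ) : ℝ) ≤ X ^ c := by rw [hXd]; exact_mod_cast hk2
    have r2 : (asz (l a) : ℝ) ≤ X ^ d := by rw [hXd]; exact_mod_cast hl2
    have r3 : (asz (m a) : ℝ) ≤ X ^ d' := by rw [hXd]; exact_mod_cast hm2
    have r4 : (asz (matMul (k a) (l a) (m a)) : ℝ) ≤ sz ((k a : ℕ) : ℤ) +
        (asz (l a) + asz (m a)) := by exact_mod_cast hmat
    have s1 : (0 : ℝ) ≤ (k a : ℝ) := Nat.cast_nonneg _
    have s2 : (k a : ℝ) ^ τ ≤ ((k a : ℝ) + 1) ^ τ :=
      Real.rpow_le_rpow s1 (by linarith) (by linarith)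
    have s3 : (1 : ℝ) ≤ ((k a : ℝ) + 1) ^ τ := Real.one_le_rpow (by linarith) (by linarith)
    have s4 : (0 : ℝ) ≤ (k a : ℝ) ^ τ := Real.rpow_nonneg s1 _
    set Y := X ^ (c + d + d') with hY
    set V := ((k a : ℝ) + 1) ^ τ with hV
    have t1 : (1 : ℝ) + sz ((k a : ℕ) : ℤ) + asz (l a) + asz (m a) +
        asz (matMul (k a) (l a) (m a)) ≤ 7 * Y := by linarith
    have t0 : (0 : ℝ) ≤ (1 : ℝ) + sz ((k a : ℕ) : ℤ) + asz (l a) + asz (m a) +
        asz (matMul (k a) (l a) (m a)) := by positivity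
    have t2 : (k a : ℝ) ^ τ * ((1 : ℝ) + sz ((k a : ℕ) : ℤ) + asz (l a) + asz (m a) +
        asz (matMul (k a) (l a) (m a))) ≤ V * (7 * Y) := by
      exact mul_le_mul s2 t1 t0 (by linarith)
    have t3 : (11 : ℝ) * Y ≤ X ^ (c + d + d' + 4) := by
      rw [pow_add X (c + d + d') 4, ← hY]
      have h16 : (16 : ℝ) ≤ X ^ 4 := by
        calc (16 : ℝ) = 2 ^ 4 := by norm_num
          _ ≤ X ^ 4 := pow_le_pow_left₀ (by norm_num) hX 4
      nlinarith
    have t4 : (4 : ℝ) * Y ≤ V * (4 * Y) := by nlinarith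
    have t5 : V * (11 * Y) ≤ V * X ^ (c + d + d' + 4) :=
      mul_le_mul_of_nonneg_left t3 (by linarith)
    calc ek.cost τ (ρ a) + el.cost τ (ρ a) + em.cost τ (ρ a) + 1 +
          (k a : ℝ) ^ τ * ((1 : ℝ) + sz ((k a : ℕ) : ℤ) + asz (l a) + asz (m a) +
          asz (matMul (k a) (l a) (m a))) ≤ 4 * Y + V * (7 * Y) := by linarith
      _ ≤ V * (11 * Y) := by linarith
      _ ≤ V * X ^ (c + d + d' + 4) := t5
      _ = X ^ (c + d + d' + 4) * V := mul_comm _ _

end

end Pool.Agent.MPa9445a.BE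
end

section

/-! The optimum is kept in one of the sets. -/

set_option autoImplicit false

open Finset

namespace Pool.Agent.MPa9445a.BE

variable {n : ℕ}

/-- PROOF. If `#ball(64 R, U, x) 2 ^ (8 e) ≤ 2 ^ |U|`: `light` gives `i`, take `j = i` (first alternative of `Keep`). Otherwise `heavy` with radius `64 R` and exponent `8 e`, `splitting`
of `rl S` at `t` (`D2_cast`): `G ≤ qr A (vr x)`. By `od_Om`, `diag_sum` and `t ∑ |P v v| ≤ D2 S`: `qr (od A) (vr x) ≥ G - D2 S / t > 100 (τ + dl)`. By `split` (contrapositive; the restricted vector is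
`vr (rs (bk k i j) x)`) there are `i, j` with `|qr (od A) (vr (rs (bk k i j) x))| > τ + dl`. If the ball of `rs (bk k i j) x` is light it is kept; otherwise `energy_ball` (`rs_Om`):
`|N E - ∑ E| ≥ N |qr (od A) ..| - N dl > N τ` (`N > 0` since the ball is heavy). -/
theorem opt {S : Matrix (Fin n) (Fin n) ℤ} (hS : Mat S) (hD : 0 < D2 S) {t : ℝ} (ht : 0 < t)
    (b : Fin n → ℤ) {U : Finset (Fin n)} (hU : ∀ v, v ∉ U → ∀ u, S v u = 0) {r : ℝ} (hr : 0 < r)
    (hE : r * Real.sqrt (D2 S * n) ≤ energy (isHermitian_rl hS)) {x : Fin n → ℤ} (hx : x ∈ Om U)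
    (hmax : ∀ y ∈ Om U, ∑ v, y v = ∑ v, x v → qf S y + lf b y ≤ qf S x + lf b x)
    (R τ : ℝ) (e : ℕ) (k : Fin n → Fin 8)
    (hG : 100 * (τ + dl n (D2 S) t R e) + D2 S / t <
      r / 8 * Real.sqrt (D2 S / n) * ((r ^ 2 * n / 32 - 64 * e * Real.log 2 - 1) / 4) -
        16 * t * e * Real.log 2 - 2 * Real.sqrt (n * (64 * R)) / t ^ 2 -
        8 * (Real.sqrt (D2 S) + 1)) :
    ∃ i j, Keep S b R e τ (U ∩ bk k i j) (rs (bk k i j) x) := by
  rcases le_or_gt ((ball S b (64 * R) U x).card * 2 ^ (8 * e)) (2 ^ U.card) with hl | hh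
  · obtain ⟨i, hi⟩ := light b e k hx hl
    exact ⟨i, i, Or.inl hi⟩
  · obtain ⟨A, P, hM, hAs, hPs, hA, hA2, hP, hd⟩ := splitting (isHermitian_rl hS) ht
    have h1 := heavy hS hD ht hM hPs hA hP b hU hr hE hx hmax (64 * R) (8 * e) hh
    have hcast : ((8 * e : ℕ) : ℝ) = 8 * (e : ℝ) := by push_cast; ring
    rw [hcast] at h1
    have h2 := od_Om A hx
    have h3 := diag_sum hM (fun v => by simp only [rl]; rw [hS.diag v]; simp) U
    rw [← D2_cast] at hd hA2
    have h4 : ∑ v, |P v v| ≤ D2 S / t := by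
      rw [le_div_iff₀ ht]
      linarith [hd]
    have h5 : 100 * (τ + dl n (D2 S) t R e) < qr (od A) (vr x) := by
      have h6 := (abs_le.1 (h3.trans h4)).2
      have e1 : r / 8 * Real.sqrt (D2 S / n) *
          ((r ^ 2 * n / 32 - 8 * (8 * (e : ℝ)) * Real.log 2 - 1) / 4) =
          r / 8 * Real.sqrt (D2 S / n) * ((r ^ 2 * n / 32 - 64 * e * Real.log 2 - 1) / 4) := by
        ring
      have e2 : 2 * t * (8 * (e : ℝ)) * Real.log 2 = 16 * t * e * Real.log 2 := by ring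
      rw [e1, e2] at h1
      linarith
    have h6 : ∃ i j, τ + dl n (D2 S) t R e <
        |qr (od A) (fun v => if k v = i ∨ k v = j then vr x v else 0)| := by
      by_contra hcon
      push Not at hcon
      have := split (od A) (vr x) k hcon
      linarith [le_abs_self (qr (od A) (vr x))]
    obtain ⟨i, j, hij⟩ := h6
    refine ⟨i, j, ?_⟩
    have hv : (fun v => if k v = i ∨ k v = j then vr x v else 0) = vr (rs (bk k i j) x) := by
      funext v
      simp only [vr, rs, bk, mem_filter, mem_univ, true_and]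
      split_ifs <;> simp
    rw [hv] at hij
    have hx' := rs_Om hx (bk k i j)
    rcases le_or_gt ((ball S b R (U ∩ bk k i j) (rs (bk k i j) x)).card * 2 ^ e)
      (2 ^ (U ∩ bk k i j).card) with hl | hh'
    · exact Or.inl hl
    · right
      have h7 := energy_ball ht hM hAs hPs hA hA2 hP b R e hx' hh'
      set N : ℕ := (ball S b R (U ∩ bk k i j) (rs (bk k i j) x)).card with hN
      have hNpos : (0 : ℝ) < N := by
        have : 0 < N := by
          rcases Nat.eq_zero_or_pos N with h0 | h0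
          · rw [h0] at hh'
            simp at hh'
          · exact h0
        exact_mod_cast this
      rw [Int.cast_abs]
      have h8 := abs_le.1 h7
      have h9 : (N : ℝ) * (τ + dl n (D2 S) t R e) <
          |(N : ℝ) * qr (od A) (vr (rs (bk k i j) x))| := by
        rw [abs_mul, abs_of_pos hNpos]
        exact mul_lt_mul_of_pos_left hij hNpos
      have h10 := abs_sub_abs_le_abs_sub ((N : ℝ) * qr (od A) (vr (rs (bk k i j) x)))
        (((N * qf S (rs (bk k i j) x) -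
          ∑ y ∈ ball S b R (U ∩ bk k i j) (rs (bk k i j) x), qf S y : ℤ) : ℝ))
      rw [abs_sub_comm] at h10
      nlinarith [h7, h9, h10]

end Pool.Agent.MPa9445a.BE
end

section

/-! Few vectors are kept: the two counts. -/

set_option autoImplicit false

open Finset

namespace Pool.Agent.MPa9445a.BE

variable {n : ℕ}

open scoped Classical in
/-- PROOF. Label `x ∈ Om Y` by `(κ (vr x), ∑ v, x v, lf b x)`: at most `C (2 n + 1) (2 n² + 1)` labels (`|∑ v, x v| ≤ n`, `|lf b x| ≤ n²`; `hC` for the image of `κ`).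
Two vectors with the same label are in the ball of each other (`mem_ball`, `hκ`), so among the `x` with light ball at most `2 ^ |Y| / 2 ^ e`
have a given label (`Finset.card_le_mul_card_image` or `Finset.sum_card_fiberwise`). -/
theorem light_count {S : Matrix (Fin n) (Fin n) ℤ} {b : Fin n → ℤ} (hb : ∀ v, |b v| ≤ n)
    {R C : ℝ} (e : ℕ) (Y : Finset (Fin n)) (κ : (Fin n → ℝ) → (Fin n → ℤ))
    (hC : ∀ T : Finset (Fin n → ℤ), (∀ a ∈ T, ∃ x, nr x ≤ n ∧ κ x = a) → (T.card : ℝ) ≤ C)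
    (hκ : ∀ x y, nr x ≤ n → nr y ≤ n → κ x = κ y → nr (((rl S) ^ 3).mulVec (x - y)) ≤ R) :
    (((Om Y).filter fun x => (ball S b R Y x).card * 2 ^ e ≤ 2 ^ Y.card).card : ℝ) * 2 ^ e ≤
      C * (2 * n + 1) * (2 * n ^ 2 + 1) * 2 ^ Y.card := by
  set F := (Om Y).filter fun x => (ball S b R Y x).card * 2 ^ e ≤ 2 ^ Y.card with hF
  have hYn : (Y.card : ℝ) ≤ n := by
    have := Finset.card_le_univ Y
    rw [Fintype.card_fin] at this
    exact_mod_cast this
  have hnr : ∀ x ∈ F, nr (vr x) ≤ n := by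
    intro x hx
    rw [(nr_Om (Finset.mem_filter.mp hx).1).1]
    exact hYn
  have habs : ∀ x ∈ F, ∀ v, |x v| ≤ 1 := by
    intro x hx v
    have h1 := mem_Om.mp (Finset.mem_filter.mp hx).1 v
    by_cases hv : v ∈ Y
    · rcases h1.1 hv with h | h <;> simp [h]
    · simp [h1.2 hv]
  set T := F.image (fun x => κ (vr x)) with hT
  have hTC : (T.card : ℝ) ≤ C := by
    refine hC T ?_
    intro a ha
    obtain ⟨x, hx, rfl⟩ := Finset.mem_image.mp ha
    exact ⟨vr x, hnr x hx, rfl⟩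
  set t := T ×ˢ (Finset.Icc (-(n : ℤ)) n ×ˢ Finset.Icc (-((n : ℤ) ^ 2)) ((n : ℤ) ^ 2)) with ht
  have hmaps : ∀ x ∈ F, (κ (vr x), ∑ v, x v, lf b x) ∈ t := by
    intro x hx
    rw [ht, Finset.mem_product, Finset.mem_product, Finset.mem_Icc, Finset.mem_Icc]
    refine ⟨Finset.mem_image_of_mem _ hx, ?_, ?_⟩
    · rw [← abs_le]
      calc |∑ v, x v| ≤ ∑ v, |x v| := Finset.abs_sum_le_sum_abs _ _
        _ ≤ ∑ _v : Fin n, (1 : ℤ) := Finset.sum_le_sum fun v _ => habs x hx v
        _ = n := by simp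
    · rw [← abs_le]
      calc |lf b x| ≤ ∑ v, |b v * x v| := Finset.abs_sum_le_sum_abs _ _
        _ ≤ ∑ _v : Fin n, (n : ℤ) := by
            refine Finset.sum_le_sum fun v _ => ?_
            rw [abs_mul]
            calc |b v| * |x v| ≤ n * 1 :=
                  mul_le_mul (hb v) (habs x hx v) (abs_nonneg _) (by positivity)
              _ = n := mul_one _
        _ = (n : ℤ) ^ 2 := by
            rw [Finset.sum_const, Finset.card_univ, Fintype.card_fin, nsmul_eq_mul]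
            ring
  have hfib : ∀ c ∈ t, (F.filter fun x => (κ (vr x), ∑ v, x v, lf b x) = c).card * 2 ^ e ≤
      2 ^ Y.card := by
    intro c _
    rcases (F.filter fun x => (κ (vr x), ∑ v, x v, lf b x) = c).eq_empty_or_nonempty with h | h
    · rw [h]
      simp
    · obtain ⟨x₀, hx₀⟩ := h
      rw [Finset.mem_filter] at hx₀
      have hsub : (F.filter fun x => (κ (vr x), ∑ v, x v, lf b x) = c) ⊆ ball S b R Y x₀ := by
        intro x hx
        rw [Finset.mem_filter] at hx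
        have heq := hx.2.trans hx₀.2.symm
        rw [Prod.mk.injEq, Prod.mk.injEq] at heq
        exact mem_ball.mpr ⟨(Finset.mem_filter.mp hx.1).1, heq.2.1, heq.2.2,
          hκ _ _ (hnr x hx.1) (hnr x₀ hx₀.1) heq.1⟩
      exact (Nat.mul_le_mul_right _ (Finset.card_le_card hsub)).trans
        (Finset.mem_filter.mp hx₀.1).2
  have hcount : F.card * 2 ^ e ≤ t.card * 2 ^ Y.card := by
    rw [Finset.card_eq_sum_card_fiberwise (f := fun x => (κ (vr x), ∑ v, x v, lf b x)) (t := t)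
      (fun x hx => hmaps x hx), Finset.sum_mul]
    calc (∑ c ∈ t, (F.filter fun x => (κ (vr x), ∑ v, x v, lf b x) = c).card * 2 ^ e)
        ≤ ∑ _c ∈ t, 2 ^ Y.card := Finset.sum_le_sum hfib
      _ = t.card * 2 ^ Y.card := by rw [Finset.sum_const, smul_eq_mul]
  have htc : (t.card : ℝ) = T.card * ((2 * n + 1) * (2 * n ^ 2 + 1)) := by
    rw [ht, Finset.card_product, Finset.card_product, Int.card_Icc, Int.card_Icc]
    have h1 : ((n : ℤ) + 1 - -(n : ℤ)).toNat = 2 * n + 1 := by omega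
    have h2 : ((n : ℤ) ^ 2 + 1 - -((n : ℤ) ^ 2)).toNat = 2 * n ^ 2 + 1 := by
      have : (n : ℤ) ^ 2 + 1 - -((n : ℤ) ^ 2) = ((2 * n ^ 2 + 1 : ℕ) : ℤ) := by
        push_cast
        ring
      rw [this, Int.toNat_natCast]
    rw [h1, h2]
    push_cast
    ring
  have hcountR : (F.card : ℝ) * 2 ^ e ≤ t.card * 2 ^ Y.card := by exact_mod_cast hcount
  rw [htc] at hcountR
  refine hcountR.trans ?_
  have h5 : (0 : ℝ) ≤ (2 * n + 1) * (2 * n ^ 2 + 1) * 2 ^ Y.card := by positivity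
  calc (T.card : ℝ) * ((2 * n + 1) * (2 * n ^ 2 + 1)) * 2 ^ Y.card
      = T.card * ((2 * n + 1) * (2 * n ^ 2 + 1) * 2 ^ Y.card) := by ring
    _ ≤ C * ((2 * n + 1) * (2 * n ^ 2 + 1) * 2 ^ Y.card) := mul_le_mul_of_nonneg_right hTC h5
    _ = C * (2 * n + 1) * (2 * n ^ 2 + 1) * 2 ^ Y.card := by ring

open scoped Classical in
/-- PROOF. For such `x` the ball is not empty, and `energy_ball` gives `N τ < N |qr (od A) (vr x)| + N dl`, so `|qr (od A) (vr x)| ≥ τ - dl`. `tail_quad` with `Λ = 2 t` (`od_le`, `od_sq`, `hA2`). -/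
theorem energetic_count {S : Matrix (Fin n) (Fin n) ℤ} {A P : Matrix (Fin n) (Fin n) ℝ} {t : ℝ}
    (ht : 0 < t) (hM : rl S = A + P) (hAs : ∀ u v, A u v = A v u) (hPs : ∀ u v, P u v = P v u)
    (hA : ∀ z : Fin n → ℝ, nr (A.mulVec z) ≤ t ^ 2 * nr z)
    (hA2 : ∑ u, ∑ v, A u v ^ 2 ≤ D2 S)
    (hP : ∀ z : Fin n → ℝ, t ^ 4 * nr (P.mulVec z) ≤ nr ((rl S ^ 3).mulVec z))
    (b : Fin n → ℤ) (R τ : ℝ) (e : ℕ) (Y : Finset (Fin n)) :
    (((Om Y).filter fun x => 2 ^ Y.card < (ball S b R Y x).card * 2 ^ e ∧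
      Keep S b R e τ Y x).card : ℝ) ≤
      2 * 2 ^ Y.card * Real.exp (-(τ - dl n (D2 S) t R e) / (8 * t) + D2 S / (32 * t ^ 2)) := by
  set B := (Om Y).filter fun x => 2 ^ Y.card < (ball S b R Y x).card * 2 ^ e ∧
      Keep S b R e τ Y x with hB
  have hBs : B ⊆ Om Y := Finset.filter_subset _ _
  have hτ : ∀ x ∈ B, τ - dl n (D2 S) t R e ≤ |qr (od A) (vr x)| := by
    intro x hx
    rw [hB, Finset.mem_filter] at hx
    obtain ⟨hxO, hh, hk⟩ := hx
    have hE := energy_ball ht hM hAs hPs hA hA2 hP b R e hxO hh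
    have hN : 0 < (ball S b R Y x).card := by
      rcases Nat.eq_zero_or_pos (ball S b R Y x).card with h0 | h0
      · rw [h0, Nat.zero_mul] at hh
        exact absurd hh (Nat.not_lt_zero _)
      · exact h0
    have hNr : (0 : ℝ) < (ball S b R Y x).card := by exact_mod_cast hN
    rcases hk with hk | hk
    · omega
    · rw [Int.cast_abs] at hk
      have h1 := abs_sub_abs_le_abs_sub
        (((ball S b R Y x).card * qf S x - ∑ y ∈ ball S b R Y x, qf S y : ℤ) : ℝ)
        ((ball S b R Y x).card * qr (od A) (vr x))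
      rw [abs_mul, abs_of_pos hNr] at h1
      have h2 : τ * (ball S b R Y x).card - (ball S b R Y x).card * |qr (od A) (vr x)| <
          (ball S b R Y x).card * dl n (D2 S) t R e := by linarith
      have h3 : (ball S b R Y x).card * (τ - dl n (D2 S) t R e) <
          (ball S b R Y x).card * |qr (od A) (vr x)| := by linarith
      exact (lt_of_mul_lt_mul_left h3 hNr.le).le
  have hods : ∀ i j, od A i j = od A j i := by
    intro i j
    unfold od
    by_cases h : i = j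
    · subst h
      rfl
    · rw [if_neg h, if_neg (Ne.symm h), hAs]
  have hodd : ∀ i, od A i i = 0 := by
    intro i
    simp [od]
  have h2t : (0 : ℝ) < 2 * t := by linarith
  have hmain := tail_quad (od A) hods hodd h2t (od_le ht hA) Y (τ - dl n (D2 S) t R e) hBs hτ
  refine hmain.trans ?_
  refine mul_le_mul_of_nonneg_left ?_ (by positivity)
  refine Real.exp_le_exp.mpr ?_
  have h4 : (∑ u, ∑ v, od A u v ^ 2) ≤ D2 S := (od_sq A).trans hA2
  have h5 : (∑ u, ∑ v, od A u v ^ 2) / (8 * (2 * t) ^ 2) ≤ D2 S / (32 * t ^ 2) := by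
    rw [show 8 * (2 * t) ^ 2 = 32 * t ^ 2 by ring]
    exact div_le_div_of_nonneg_right h4 (by positivity)
  rw [show 4 * (2 * t) = 8 * t by ring]
  linarith

end Pool.Agent.MPa9445a.BE
end
end

section

/-! Functions computed by programs: short loops. -/

set_option autoImplicit false

namespace Pool.Agent.MPa9445a.BE

private theorem P2_aux1 {A : Type} {N : A → ℕ} {D : A → Prop} {k : A → ℕ} (hb : Bd N D k) :
    ∃ c : ℕ, ∀ a, D a → (k a : ℝ) + 1 ≤ ((N a : ℝ) + 2) ^ c := by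
  obtain ⟨c, hc⟩ := hb
  refine ⟨c + 1, fun a ha => ?_⟩
  have h1 : (k a : ℝ) ≤ ((N a : ℝ) + 2) ^ c := by exact_mod_cast hc a ha
  have h2 : (1 : ℝ) ≤ ((N a : ℝ) + 2) ^ c := one_le_pow₀ (by
    have : (0 : ℝ) ≤ N a := Nat.cast_nonneg _
    linarith)
  have h3 : (0 : ℝ) ≤ N a := Nat.cast_nonneg _
  rw [pow_succ]
  nlinarith

section

variable {A : Type} {N : A → ℕ} {D : A → Prop} {Γ : List Ty} {ρ : A → Env Γ}

/-- Loops with few passes. PROOF. `Cp.sum` and `Cp.mono_poly`. -/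
theorem PI.sum {k : A → ℕ} {f : A → ℕ → ℤ} (hk : PN N D ρ k) (hb : Bd N D k)
    (h : Body N D ρ k one .int f) : PI N D ρ (fun a => ∑ i ∈ Finset.range (k a), f a i) := by
  obtain ⟨c, hc⟩ := P2_aux1 hb
  refine (Cp.sum hk (fun a _ τ _ => le_rfl) h).mono_poly c fun a ha τ _ => ⟨le_rfl, ?_⟩
  exact mul_le_mul_of_nonneg_right (hc a ha) zero_le_one

theorem PA.tab {k : A → ℕ} {f : A → ℕ → ℤ} (hk : PN N D ρ k) (hb : Bd N D k)
    (h : Body N D ρ k one .int f) : PA N D ρ (fun a => tb (k a) (f a)) := by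
  obtain ⟨c, hc⟩ := P2_aux1 hb
  refine (Cp.tab hk (fun a _ τ _ => le_rfl) h).mono_poly c fun a ha τ _ => ⟨le_rfl, ?_⟩
  exact mul_le_mul_of_nonneg_right (hc a ha) zero_le_one

theorem PA.filter {k : A → ℕ} {q : A → ℕ → Prop} [∀ a, DecidablePred (q a)] (hk : PN N D ρ k)
    (hb : Bd N D k)
    (h : ∀ (Γ' : List Ty) (ρ' : A × ℕ → Env Γ'), Up N D ρ k ρ' →
      PN (NL N) (DL D k) ρ' (fun p => p.2) → PB (NL N) (DL D k) ρ' (fun p => q p.1 p.2)) :
    PA N D ρ (fun a => flt (k a) (q a)) := by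
  obtain ⟨c, hc⟩ := P2_aux1 hb
  refine (Cp.filter hk h).mono_poly c fun a ha τ _ => ⟨le_rfl, ?_⟩
  rw [one, mul_one]
  exact hc a ha

/-- Sum of natural numbers. -/
theorem PN.sum {k : A → ℕ} {f : A → ℕ → ℕ} (hk : PN N D ρ k) (hb : Bd N D k)
    (h : Body N D ρ k one .int (fun a i => (f a i : ℤ))) :
    PN N D ρ (fun a => ∑ i ∈ Finset.range (k a), f a i) := by
  refine (PI.sum hk hb h).congr fun a _ => ?_
  push_cast
  rfl

end

end Pool.Agent.MPa9445a.BE
end

section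

/-! # The algorithm -/

set_option autoImplicit false

open Finset

namespace Pool.Agent.MPa9445a.BE

/-- The entry `i` of an array. -/
abbrev gt (l : List ℤ) (i : ℕ) : ℤ := l.getD i 0

/-- The binary digit. -/
def bit (c i : ℕ) : ℕ := c / 2 ^ i % 2

/-- The vector with the entry `2 bit c i - 1` at the vertex `L i`, and `0` elsewhere. -/
def dec (n : ℕ) (L : List ℤ) (c : ℕ) : List ℤ :=
  tb n fun v => ∑ i ∈ range L.length, if gt L i = (v : ℤ) then 2 * (bit c i : ℤ) - 1 else 0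

/-- The product of two `n × n` matrices. -/
def mulL (n : ℕ) (X Y : List ℤ) : List ℤ :=
  tb (n * n) fun x => ∑ l ∈ range n, gt X (x / n * n + l) * gt Y (l * n + x % n)

/-- The quadratic form. -/
def qfL (n : ℕ) (S x : List ℤ) : ℤ :=
  ∑ u ∈ range n, ∑ v ∈ range n, gt S (u * n + v) * gt x u * gt x v

/-- The scalar product. -/
def ipL (n : ℕ) (b x : List ℤ) : ℤ := ∑ v ∈ range n, gt b v * gt x v

/-- The square of the norm of `S (x' - x)`. -/
def nsL (n : ℕ) (S x' x : List ℤ) : ℤ :=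
  ∑ v ∈ range n, (∑ u ∈ range n, gt S (v * n + u) * (gt x' u - gt x u)) ^ 2

/-- The weight of a pair of vertices: adjacency minus `n²`. -/
def wt (n : ℕ) (M : List ℤ) (u v : ℕ) : ℤ := if u = v then 0 else gt M (u * n + v) - (n : ℤ) ^ 2

/-- The bilinear form of the weights. -/
def bil (n : ℕ) (M y z : List ℤ) : ℤ :=
  ∑ u ∈ range n, ∑ v ∈ range n, wt n M u v * gt y u * gt z v

/-- Linear combination of vectors. -/
def lin (n : ℕ) (a : ℤ) (y : List ℤ) (b : ℤ) (z : List ℤ) : List ℤ :=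
  tb n fun v => a * gt y v + b * gt z v

/-- The vector of the code `c`. -/
def vec (n c : ℕ) : List ℤ := tb n fun v => 2 * (bit c v : ℤ) - 1

/-- The code of a vector. -/
def code (n : ℕ) (x : List ℤ) : ℕ := ∑ v ∈ range n, if gt x v = 1 then 2 ^ v else 0

/-- The objective function. -/
def Phi (n : ℕ) (M x : List ℤ) : ℤ := bil n M x x

/-- The parameters of the algorithm. -/
structure Prm where
  /-- the parameters of the test -/
  p : Par
  /-- `n / m` vertices more or less in the three parts -/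
  m : ℕ
  /-- at most `n / M` vertices are removed -/
  M : ℕ
  /-- number of binary digits of the indices: `n / b` -/
  b : ℕ
  /-- brute force for `n < n₀` -/
  n₀ : ℕ

/-- The input of the main part: number of vertices, adjacency matrix, partial assignment, graph or complement, blocks,
two numbers. -/
structure In where
  n : ℕ
  M : List ℤ
  g : List ℤ
  s : ℕ
  i : ℕ
  j : ℕ
  α : ℤ
  β : ℤ

variable (P : Prm) (a : In)

/-- The matrix `S`: adjacency matrix, or minus the adjacency matrix of the complement, of the free vertices. -/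
def SL : List ℤ := tb (a.n * a.n) fun x =>
  if gt a.g (x / a.n) ≠ 0 ∨ gt a.g (x % a.n) ≠ 0 ∨ x / a.n = x % a.n then 0
  else if a.s = 0 then gt a.M x else gt a.M x - 1

/-- The matrix `S³`. -/
def S3L : List ℤ := mulL a.n (mulL a.n (SL a) (SL a)) (SL a)

/-- The sum of the squares of the entries of `S`. -/
def D2L : ℤ := ∑ x ∈ range (a.n * a.n), gt (SL a) x ^ 2

/-- The linear term. -/
def bL : List ℤ := tb a.n fun v =>
  if gt a.g v = 0 then 2 * ∑ u ∈ range a.n, gt a.M (u * a.n + v) * gt a.g u else 0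

/-- The free vertices of the blocks `i`, `j`. -/
def LW : List ℤ := flt a.n fun v => gt a.g v = 0 ∧ (v % 8 = a.i ∨ v % 8 = a.j)

/-- The other free vertices. -/
def LR : List ℤ := flt a.n fun v => gt a.g v = 0 ∧ ¬(v % 8 = a.i ∨ v % 8 = a.j)

/-- The free vertices in order, first those of the blocks `i`, `j`. -/
def ordL (x : ℕ) : ℤ :=
  if x < (LW a).length then gt (LW a) x else gt (LR a) (x - (LW a).length)

/-- Size of the first part. -/
def n1 : ℕ := a.n / 3 + 2 * (a.n / P.m)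

/-- Size of the second part. -/
def n2 : ℕ := a.n / 3 - a.n / P.m

/-- Size of the third part. -/
def n3 : ℕ := (LW a).length + (LR a).length - n1 P a - n2 P a

/-- The first part. -/
def L1 : List ℤ := tb (n1 P a) fun x => ordL a x

/-- The second part. -/
def L2 : List ℤ := tb (n2 P a) fun x => ordL a (n1 P a + x)

/-- The third part. -/
def L3 : List ℤ := tb (n3 P a) fun x => ordL a (n1 P a + n2 P a + x)

/-- The vector `c'` is in the ball of `c` (`1` or `0`). -/
def inb (c c' : ℕ) : ℤ :=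
  if ∑ v ∈ range a.n, gt (dec a.n (LW a) c') v = ∑ v ∈ range a.n, gt (dec a.n (LW a) c) v ∧
    ipL a.n (bL a) (dec a.n (LW a) c') = ipL a.n (bL a) (dec a.n (LW a) c) ∧
    (P.p.q1 : ℤ) * (a.n : ℤ) ^ 2 * nsL a.n (S3L a) (dec a.n (LW a) c') (dec a.n (LW a) c) ≤
      P.p.p1 * D2L a ^ 3
  then 1 else 0

/-- The energy of the vector `c`. -/
def en (c : ℕ) : ℤ := qfL a.n (SL a) (dec a.n (LW a) c)

/-- The number of sign vectors of the blocks `i`, `j`. -/
@[irreducible] def nw : ℕ := 2 ^ (LW a).length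

/-- The number of elements of the ball of `c`. -/
def nb (c : ℕ) : ℤ := ∑ c' ∈ range (nw a), inb P a c c'

/-- The sum of the energies over the ball of `c`. -/
def sb (c : ℕ) : ℤ := ∑ c' ∈ range (nw a), inb P a c c' * en a c'

/-- The vector `c` is kept (`1` or `0`). -/
def kt (c : ℕ) : ℤ :=
  if nb P a c * 2 ^ (P.p.p3 * a.n / P.p.q3) ≤ nw a ∨
    (P.p.p2 : ℤ) * D2L a * a.n * nb P a c ^ 2 < P.p.q2 * (nb P a c * en a c - sb P a c) ^ 2
  then 1 else 0

/-- The table of the kept vectors. -/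
def KT : List ℤ := tb (nw a) fun c => kt P a c

/-- The list of the codes of the vectors of the first part whose restriction is kept. -/
def T1 : List ℤ := flt (2 ^ n1 P a) fun c => gt (KT P a) (c % nw a) ≠ 0

/-- The vector of the first part. -/
def y1 (x : ℕ) : List ℤ := dec a.n (L1 P a) (gt (T1 P a) x).toNat

/-- The size of the matrices. -/
@[irreducible] def kk : ℕ := 2 ^ (n2 P a + 4)

/-- The first matrix. -/
def M1 : List ℤ := tb (kk P a * kk P a) fun x =>
  if x / kk P a < (T1 P a).length ∧ x % kk P a < 2 ^ n2 P a ∧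
    bil a.n a.M (dec a.n (L2 P a) (x % kk P a))
      (lin a.n 2 (lin a.n 1 a.g 1 (y1 P a (x / kk P a))) 1 (dec a.n (L2 P a) (x % kk P a))) = a.α
  then 1 else 0

/-- The second matrix. -/
def M2 : List ℤ := tb (kk P a * kk P a) fun x =>
  if x / kk P a < 2 ^ n2 P a ∧ x % kk P a < 2 ^ n3 P a ∧
    2 * bil a.n a.M (dec a.n (L2 P a) (x / kk P a)) (dec a.n (L3 P a) (x % kk P a)) = a.β
  then 1 else 0

/-- The product. -/
def MP : List ℤ := matMul (kk P a) (M1 P a) (M2 P a)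

/-- The vector of the first and the third part, together with the given part. -/
def y13 (x z : ℕ) : List ℤ := lin a.n 1 (lin a.n 1 a.g 1 (y1 P a x)) 1 (dec a.n (L3 P a) z)

/-- The value of a pair. -/
def va (x : ℕ) : ℤ :=
  if gt (MP P a) x ≠ 0 then Phi a.n a.M (y13 P a (x / kk P a) (x % kk P a)) + 8 * (a.n : ℤ) ^ 4
  else 0

/-- The best pair. -/
def rr : ℕ := argmax (kk P a * kk P a) fun x => va P a x.toNat

/-- The vector of the second part. -/
def rb : ℕ := argmax (kk P a) fun y =>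
  gt (M1 P a) (rr P a / kk P a * kk P a + y.toNat) * gt (M2 P a) (y.toNat * kk P a + rr P a % kk P a)

/-- The candidate. -/
def cand : ℕ := code a.n
  (lin a.n 1 (y13 P a (rr P a / kk P a) (rr P a % kk P a)) 1 (dec a.n (L2 P a) (rb P a)))

/-- The codes (in base `4`) of length `n / 4 + 1` with at most `h` digits different from `0`. -/
def spl (n h : ℕ) : List ℤ := flt (4 ^ (n / 4 + 1)) fun c =>
  ∑ i ∈ range (n / 4 + 1), (if c / 4 ^ i % 4 = 0 then 0 else 1) ≤ h

/-- The digits of an index in base `2 ^ b`. -/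
def dg (b x t : ℕ) : ℕ := x / 2 ^ (b * t) % 2 ^ b

/-- The partial assignment of an index. -/
def gg (n b : ℕ) (L : List ℤ) (x : ℕ) : List ℤ := tb n fun v =>
  if (gt L (dg b x (v / (n / 4 + 1)))).toNat / 4 ^ (v % (n / 4 + 1)) % 4 = 1 then 1
  else if (gt L (dg b x (v / (n / 4 + 1)))).toNat / 4 ^ (v % (n / 4 + 1)) % 4 = 2 then -1 else 0

/-- The input of the main part of an index. -/
def inp (n : ℕ) (M : List ℤ) (L : List ℤ) (x : ℕ) : In where
  n := n
  M := M
  g := gg n (n / P.b) L x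
  s := dg (n / P.b) x 4
  i := dg (n / P.b) x 5
  j := dg (n / P.b) x 6
  α := (dg (n / P.b) x 7 : ℤ) - 2 * (n : ℤ) ^ 4
  β := (dg (n / P.b) x 8 : ℤ) - 2 * (n : ℤ) ^ 4

/-- The best candidate of the main part. -/
def best1 (n : ℕ) (M : List ℤ) : ℕ :=
  cand P (inp P n M (spl n (n / P.M)) (argmax (2 ^ (n / P.b * 9)) fun x =>
    Phi n M (vec n (cand P (inp P n M (spl n (n / P.M)) x.toNat)))))

/-- The value of a free vertex if the rest is edgeless or complete. -/
def bg (n : ℕ) (M g : List ℤ) (v : ℕ) : ℤ := ∑ u ∈ range n, gt M (u * n + v) * gt g u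

/-- The rank of a free vertex. -/
def rk (n : ℕ) (M g : List ℤ) (v : ℕ) : ℤ := ∑ u ∈ range n,
  if gt g u = 0 ∧ (bg n M g v < bg n M g u ∨ bg n M g u = bg n M g v ∧ u < v) then 1 else 0

/-- The number of free vertices which get the value `1`. -/
def np (n : ℕ) (g : List ℤ) : ℤ := (n / 2 : ℕ) - ∑ v ∈ range n, if gt g v = 1 then 1 else 0

/-- The candidate if the rest is edgeless or complete. -/
def cand2 (n : ℕ) (M g : List ℤ) : ℕ := code n (tb n fun v =>
  if gt g v ≠ 0 then gt g v else if rk n M g v < np n g then 1 else -1)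

/-- The best candidate of the second kind. -/
def best2 (n : ℕ) (M : List ℤ) : ℕ :=
  cand2 n M (gg n (n / 8) (spl n (n / 60)) (argmax (2 ^ (n / 8 * 4)) fun x =>
    Phi n M (vec n (cand2 n M (gg n (n / 8) (spl n (n / 60)) x.toNat)))))

/-- Brute force. -/
def brute (n : ℕ) (M : List ℤ) : ℕ := argmax (2 ^ n) fun x => Phi n M (vec n x.toNat)

/-- The code of the result. -/
def best (n : ℕ) (M : List ℤ) : ℕ :=
  if n < P.n₀ then brute n M
  else if Phi n M (vec n (best2 n M)) ≤ Phi n M (vec n (best1 P n M)) then best1 P n M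
  else best2 n M

/-- The result: the array of the binary digits. -/
def out (n : ℕ) (M : List ℤ) : List ℤ := tb n fun v => (bit (best P n M) v : ℤ)

end Pool.Agent.MPa9445a.BE
end

section

/-! Few vectors are kept. -/

set_option autoImplicit false

open Finset

namespace Pool.Agent.MPa9445a.BE

variable {n : ℕ}

open scoped Classical in
/-- PROOF. A kept vector has a light ball, or its ball is heavy and it is counted in `energetic_count` (`splitting` for `rl S`, `D2_cast`). The light ones: `light_count` with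
`κ` from `cells` (`N = n`, `D = D2 S`), divide by `2 ^ e`. -/
theorem thin {S : Matrix (Fin n) (Fin n) ℤ} (hS : Mat S) {b : Fin n → ℤ} (hb : ∀ v, |b v| ≤ n)
    {t θ h₀ s R : ℝ} (ht : 0 < t) (hθ : 0 < θ) (hh : 0 < h₀) (hs : 0 < s)
    (hR : 4 * h₀ ^ 2 * t ^ 6 * (D2 S / (θ * t) ^ 2) + 4 * (θ * t) ^ 6 * n ≤ R) (e : ℕ) (τ : ℝ)
    (Y : Finset (Fin n)) :
    (((Om Y).filter fun x => Keep S b R e τ Y x).card : ℝ) ≤
      Real.exp (s * n + D2 S / (θ * t) ^ 2 * Real.log (1 + 2 / (s * h₀ ^ 2)) + 3 * D2 S / t ^ 2) *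
          (2 * n + 1) * (2 * n ^ 2 + 1) * 2 ^ Y.card / 2 ^ e +
        2 * 2 ^ Y.card * Real.exp (-(τ - dl n (D2 S) t R e) / (8 * t) + D2 S / (32 * t ^ 2)) := by
  have hH := isHermitian_rl hS
  obtain ⟨A, P, hM, hAs, hPs, hA, hA2, hP, -⟩ := splitting hH ht
  have hD : ∑ u, ∑ v, rl S u v ^ 2 ≤ ((D2 S : ℤ) : ℝ) := (D2_cast S).symm.le
  obtain ⟨κ, hC, hκ⟩ := cells (N := (n : ℝ)) hH ht hθ hh hs hD
  have hlight := light_count hb (S := S) (R := R) e Y κ hC
    (fun x y hx hy hxy => (hκ x y hx hy hxy).trans hR)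
  have henerg := energetic_count ht hM hAs hPs hA (hA2.trans hD) hP b R τ e Y
  have hsub : ((Om Y).filter fun x => Keep S b R e τ Y x) ⊆
      ((Om Y).filter fun x => (ball S b R Y x).card * 2 ^ e ≤ 2 ^ Y.card) ∪
      ((Om Y).filter fun x => 2 ^ Y.card < (ball S b R Y x).card * 2 ^ e ∧
        Keep S b R e τ Y x) := by
    intro x hx
    rw [Finset.mem_filter] at hx
    rw [Finset.mem_union, Finset.mem_filter, Finset.mem_filter]
    rcases le_or_gt ((ball S b R Y x).card * 2 ^ e) (2 ^ Y.card) with h | h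
    · exact Or.inl ⟨hx.1, h⟩
    · exact Or.inr ⟨hx.1, h, hx.2⟩
  have hcard := (Finset.card_le_card hsub).trans (Finset.card_union_le _ _)
  have hcardR : (((Om Y).filter fun x => Keep S b R e τ Y x).card : ℝ) ≤
      (((Om Y).filter fun x => (ball S b R Y x).card * 2 ^ e ≤ 2 ^ Y.card).card : ℝ) +
      (((Om Y).filter fun x => 2 ^ Y.card < (ball S b R Y x).card * 2 ^ e ∧
        Keep S b R e τ Y x).card : ℝ) := by exact_mod_cast hcard
  refine hcardR.trans (add_le_add ?_ henerg)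
  rw [le_div_iff₀ (by positivity)]
  exact hlight

open scoped Classical in
/-- The case `S = 0`. PROOF. All vectors with the same sum and the same value of the linear form are in the ball (`R ≥ 0`), the energy is `0`, so (`τ ≥ 0`) only vectors with light balls are
kept: `light_count` with constant `κ` and `C = 1`. -/
theorem thin_zero {b : Fin n → ℤ} (hb : ∀ v, |b v| ≤ n) {R : ℝ} (hR : 0 ≤ R) (e : ℕ) {τ : ℝ}
    (hτ : 0 ≤ τ) (Y : Finset (Fin n)) :
    (((Om Y).filter fun x => Keep (0 : Matrix (Fin n) (Fin n) ℤ) b R e τ Y x).card : ℝ) ≤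
      (2 * n + 1) * (2 * n ^ 2 + 1) * 2 ^ Y.card / 2 ^ e := by
  have hrl : rl (0 : Matrix (Fin n) (Fin n) ℤ) = 0 := by
    funext u v
    simp [rl]
  have hqf : ∀ x : Fin n → ℤ, qf (0 : Matrix (Fin n) (Fin n) ℤ) x = 0 := by
    intro x
    simp [qf]
  have hlight := light_count hb (S := 0) (R := R) (C := 1) e Y (fun _ => 0)
    (by
      intro T hT
      have hT1 : T ⊆ {0} := by
        intro a ha
        obtain ⟨x, _, hx⟩ := hT a ha
        rw [Finset.mem_singleton]
        exact hx.symm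
      have := Finset.card_le_card hT1
      rw [Finset.card_singleton] at this
      exact_mod_cast this)
    (by
      intro x y _ _ _
      rw [hrl]
      simp only [nr, ne_eq, OfNat.ofNat_ne_zero, not_false_eq_true, zero_pow, Matrix.zero_mulVec,
        Pi.zero_apply, Finset.sum_const_zero]
      exact hR)
  have hsub : ((Om Y).filter fun x => Keep (0 : Matrix (Fin n) (Fin n) ℤ) b R e τ Y x) ⊆
      ((Om Y).filter fun x =>
        (ball (0 : Matrix (Fin n) (Fin n) ℤ) b R Y x).card * 2 ^ e ≤ 2 ^ Y.card) := by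
    intro x hx
    rw [Finset.mem_filter] at hx ⊢
    refine ⟨hx.1, ?_⟩
    rcases hx.2 with h | h
    · exact h
    · exfalso
      simp only [hqf, mul_zero, Finset.sum_const_zero, sub_zero, abs_zero, Int.cast_zero] at h
      have : 0 ≤ τ * ((ball (0 : Matrix (Fin n) (Fin n) ℤ) b R Y x).card : ℝ) := by positivity
      linarith
  have hcard := Finset.card_le_card hsub
  have hcardR : (((Om Y).filter fun x => Keep (0 : Matrix (Fin n) (Fin n) ℤ) b R e τ Y x).card : ℝ) ≤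
      (((Om Y).filter fun x =>
        (ball (0 : Matrix (Fin n) (Fin n) ℤ) b R Y x).card * 2 ^ e ≤ 2 ^ Y.card).card : ℝ) := by
    exact_mod_cast hcard
  refine hcardR.trans ?_
  rw [le_div_iff₀ (by positivity)]
  rw [one_mul] at hlight
  exact hlight

end Pool.Agent.MPa9445a.BE
end
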