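import Pool.Agent.Lib.MP_a9445a_lc.BE.B0
import Pool.Agent.Lib.MP_a9445a_lc.BE.X0
import Pool.Agent.Lib.MP_a9445a_lc.Mg.G113
import Pool.Agent.Lib.MP_a9445a_lc.Mg.G112

section

/-! Codes of the vectors with given support. -/

set_option autoImplicit false

open Finset

namespace Pool.Agent.MPa9445a.BE

/-- A list of different vertices. -/
structure VL (n : ℕ) (L : List ℤ) : Prop where
  nodup : L.Nodup
  bd : ∀ x ∈ L, 0 ≤ x ∧ x < n

/-- The set of the vertices of a list. -/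
def st (n : ℕ) (L : List ℤ) : Finset (Fin n) := univ.filter fun v => ((v : ℕ) : ℤ) ∈ L

private theorem B1_mem_st {n : ℕ} {L : List ℤ} (v : Fin n) : v ∈ st n L ↔ ((v : ℕ) : ℤ) ∈ L := by
  unfold st
  rw [Finset.mem_filter]
  exact ⟨fun h => h.2, fun h => ⟨Finset.mem_univ _, h⟩⟩

private theorem B1_gt {L : List ℤ} {i : ℕ} (hi : i < L.length) : gt L i = L[i] := by
  unfold gt
  rw [List.getD_eq_getElem _ _ hi]

private theorem B1_gt_mem {L : List ℤ} {i : ℕ} (hi : i < L.length) : gt L i ∈ L := by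
  rw [B1_gt hi]
  exact List.getElem_mem hi

private theorem B1_vertex {n : ℕ} {L : List ℤ} (h : VL n L) {x : ℤ} (hx : x ∈ L) :
    ∃ v : Fin n, ((v : ℕ) : ℤ) = x := by
  obtain ⟨h1, h2⟩ := h.bd x hx
  exact ⟨⟨x.toNat, by omega⟩, by simp only []; omega⟩

private theorem B1_exists_idx {L : List ℤ} {x : ℤ} (hx : x ∈ L) :
    ∃ i, i < L.length ∧ gt L i = x := by
  obtain ⟨i, hi, hix⟩ := List.getElem_of_mem hx
  exact ⟨i, hi, by rw [B1_gt hi, hix]⟩

private theorem B1_inj {n : ℕ} {L : List ℤ} (h : VL n L) {i j : ℕ} (hi : i < L.length)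
    (hj : j < L.length) (he : gt L i = gt L j) : i = j := by
  rw [B1_gt hi, B1_gt hj] at he
  exact (h.nodup.getElem_inj_iff).1 he

private theorem B1_bit (c i : ℕ) : bit c i = 0 ∨ bit c i = 1 := by
  unfold bit
  omega

private theorem B1_bit_mod {c i k : ℕ} (hi : i < k) : bit (c % 2 ^ k) i = bit c i := by
  unfold bit
  rw [← Nat.toNat_testBit, ← Nat.toNat_testBit, Nat.testBit_mod_two_pow, decide_eq_true hi,
    Bool.true_and]

/-- PROOF. The map `x ↦ x.toNat` from `L.toFinset` is a bijection. -/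
theorem card_st {n : ℕ} {L : List ℤ} (h : VL n L) : (st n L).card = L.length := by
  rw [← List.toFinset_card_of_nodup h.nodup]
  refine Finset.card_bij (fun v _ => ((v : ℕ) : ℤ)) ?_ ?_ ?_
  · intro v hv
    rw [List.mem_toFinset]
    exact (B1_mem_st v).1 hv
  · intro v _ v' _ hvv
    exact Fin.ext (by exact_mod_cast hvv)
  · intro x hx
    rw [List.mem_toFinset] at hx
    obtain ⟨v, hv⟩ := B1_vertex h hx
    exact ⟨v, (B1_mem_st v).2 (by rw [hv]; exact hx), hv⟩

/-- PROOF. For `v = L i` the sum has exactly one nonzero term (`i` is unique, `List.Nodup.getElem_inj_iff`). -/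
theorem fv_dec {n : ℕ} {L : List ℤ} (h : VL n L) (c : ℕ) {i : ℕ} (hi : i < L.length) {v : Fin n}
    (hv : gt L i = ((v : ℕ) : ℤ)) : fv n (dec n L c) v = 2 * (bit c i : ℤ) - 1 := by
  unfold dec
  rw [fv_tb]
  rw [Finset.sum_eq_single i]
  · rw [if_pos hv]
  · intro j hj hji
    rw [if_neg]
    intro hjv
    exact hji (B1_inj h (Finset.mem_range.1 hj) hi (by rw [hjv, hv]))
  · intro hni
    exact absurd (Finset.mem_range.2 hi) hni

theorem fv_dec_not {n : ℕ} {L : List ℤ} (c : ℕ) {v : Fin n} (hv : v ∉ st n L) :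
    fv n (dec n L c) v = 0 := by
  unfold dec
  rw [fv_tb]
  refine Finset.sum_eq_zero fun i hi => ?_
  rw [if_neg]
  intro hiv
  apply hv
  rw [B1_mem_st, ← hiv]
  exact B1_gt_mem (Finset.mem_range.1 hi)

/-- PROOF. `mem_Om`, `fv_dec`, `fv_dec_not`; the binary digits are `0` or `1`. -/
theorem dec_mem {n : ℕ} {L : List ℤ} (h : VL n L) (c : ℕ) : fv n (dec n L c) ∈ Om (st n L) := by
  rw [mem_Om]
  intro v
  constructor
  · intro hv
    obtain ⟨i, hi, hiv⟩ := B1_exists_idx ((B1_mem_st v).1 hv)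
    rw [fv_dec h c hi hiv]
    rcases B1_bit c i with hb | hb
    · right
      rw [hb]
      norm_num
    · left
      rw [hb]
      norm_num
  · intro hv
    exact fv_dec_not c hv

/-- PROOF. The digits `bit c i`, `i < L.length`, determine `c < 2 ^ L.length` (`Nat.eq_of_testBit_eq`; `Nat.testBit` is `bit`). -/
theorem dec_inj {n : ℕ} {L : List ℤ} (h : VL n L) {c c' : ℕ} (hc : c < 2 ^ L.length)
    (hc' : c' < 2 ^ L.length) (he : fv n (dec n L c) = fv n (dec n L c')) : c = c' := by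
  have hbit : ∀ i < L.length, bit c i = bit c' i := by
    intro i hi
    obtain ⟨v, hv⟩ := B1_vertex h (B1_gt_mem hi)
    have h1 := congrFun he v
    rw [fv_dec h c hi hv.symm, fv_dec h c' hi hv.symm] at h1
    have h2 : (bit c i : ℤ) = bit c' i := by linarith
    exact_mod_cast h2
  refine Nat.eq_of_testBit_eq fun i => ?_
  by_cases hi : i < L.length
  · have h1 := hbit i hi
    unfold bit at h1
    rw [Nat.testBit_eq_decide_div_mod_eq, Nat.testBit_eq_decide_div_mod_eq, h1]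
  · have h2 : (2 : ℕ) ^ L.length ≤ 2 ^ i := Nat.pow_le_pow_right (by norm_num) (not_lt.1 hi)
    rw [Nat.testBit_eq_false_of_lt (hc.trans_le h2), Nat.testBit_eq_false_of_lt (hc'.trans_le h2)]

/-- PROOF. Injective (`dec_inj`) into a set with the same number of elements (`card_Om`, `card_st`), or directly: the code with the digits `(x (L i) + 1) / 2`. -/
theorem dec_surj {n : ℕ} {L : List ℤ} (h : VL n L) {x : Fin n → ℤ} (hx : x ∈ Om (st n L)) :
    ∃ c < 2 ^ L.length, fv n (dec n L c) = x := by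
  have hs := Finset.surjOn_of_injOn_of_card_le (s := range (2 ^ L.length)) (t := Om (st n L))
    (fun c => fv n (dec n L c)) (fun c _ => by
      rw [Finset.mem_coe]
      exact dec_mem h c) (fun c hc c' hc' he => by
      rw [Finset.mem_coe, Finset.mem_range] at hc hc'
      exact dec_inj h hc hc' he) (by rw [card_Om, card_st h, Finset.card_range])
  obtain ⟨c, hc, hcx⟩ := hs (Finset.mem_coe.2 hx)
  rw [Finset.mem_coe, Finset.mem_range] at hc
  exact ⟨c, hc, hcx⟩

/-- Sums over codes are sums over vectors. PROOF. `Finset.sum_bij`. -/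
theorem sum_dec {n : ℕ} {L : List ℤ} (h : VL n L) (f : (Fin n → ℤ) → ℤ) :
    ∑ c ∈ range (2 ^ L.length), f (fv n (dec n L c)) = ∑ x ∈ Om (st n L), f x := by
  refine Finset.sum_bij (fun c _ => fv n (dec n L c)) (fun c _ => dec_mem h c) ?_ ?_ ?_
  · intro c hc c' hc' he
    exact dec_inj h (Finset.mem_range.1 hc) (Finset.mem_range.1 hc') he
  · intro x hx
    obtain ⟨c, hc, hcx⟩ := dec_surj h hx
    exact ⟨c, Finset.mem_range.2 hc, hcx⟩
  · intro c _
    rfl

/-- The restriction to the first vertices of the list. PROOF. For `v = L i`, `i < L'.length`: the digit `i` of `c % 2 ^ L'.length` is the digit `i` of `c`. Other `v`: both sides are `0`. -/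
theorem rs_dec {n : ℕ} {L L' : List ℤ} (h : VL n L) (h' : VL n L') (hl : L'.length ≤ L.length)
    (he : ∀ i < L'.length, gt L i = gt L' i) (c : ℕ) :
    rs (st n L') (fv n (dec n L c)) = fv n (dec n L' (c % 2 ^ L'.length)) := by
  funext v
  unfold rs
  by_cases hv : v ∈ st n L'
  · rw [if_pos hv]
    obtain ⟨i, hi, hiv⟩ := B1_exists_idx ((B1_mem_st v).1 hv)
    rw [fv_dec h' _ hi hiv, fv_dec h c (hi.trans_le hl) (by rw [he i hi, hiv]), B1_bit_mod hi]
  · rw [if_neg hv, fv_dec_not _ hv]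

end Pool.Agent.MPa9445a.BE
end

section

section

/-! The small procedures of the algorithm are computed by programs: vectors and forms. -/

set_option autoImplicit false

open Finset

namespace Pool.Agent.MPa9445a.BE

section

variable {A : Type} {N : A → ℕ} {D : A → Prop} {Γ : List Ty} {ρ : A → Env Γ}

theorem PN.bit {c i : A → ℕ} (hc : PN N D ρ c) (hi : PN N D ρ i) (hb : Bd N D i) :
    PN N D ρ (fun a => bit (c a) (i a)) :=
  (hc.div (hi.pow2 hb)).mod (PN.const 2)

theorem PA.dec {n c : A → ℕ} {L : A → List ℤ} (hn : PN N D ρ n) (hb : Bd N D n) (hL : PA N D ρ L)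
    (hl : Bd N D (fun a => (L a).length)) (hc : PN N D ρ c) :
    PA N D ρ (fun a => dec (n a) (L a) (c a)) := by
  refine PA.tab hn hb fun Γ1 ρ1 up1 hv => ?_
  refine PI.sum (PN.len (up1.a hL)) (hl.up _) fun Γ2 ρ2 up2 hi => ?_
  exact Cp.ite (PB.eq (PI.get (up2.a (up1.a hL)) hi) (up2.n hv))
    (PI.sub (PI.mul (PI.const 2) (PN.bit (up2.n (up1.n hc)) hi (Bd.var (hl.up _)))) (PI.const 1))
    (PI.const 0)

theorem PA.mulL {n : A → ℕ} {X Y : A → List ℤ} (hn : PN N D ρ n) (hb : Bd N D n)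
    (hX : PA N D ρ X) (hY : PA N D ρ Y) : PA N D ρ (fun a => mulL (n a) (X a) (Y a)) := by
  refine PA.tab (PN.mul hn hn) (hb.mul hb) fun Γ1 ρ1 up1 hx => ?_
  refine PI.sum (up1.n hn) (hb.up _) fun Γ2 ρ2 up2 hl => ?_
  have hn2 := up2.n (up1.n hn)
  have hx2 := up2.n hx
  exact PI.mul (PI.get (up2.a (up1.a hX)) (PN.add (PN.mul (PN.div hx2 hn2) hn2) hl))
    (PI.get (up2.a (up1.a hY)) (PN.add (PN.mul hl hn2) (PN.mod hx2 hn2)))

theorem PI.qfL {n : A → ℕ} {S x : A → List ℤ} (hn : PN N D ρ n) (hb : Bd N D n)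
    (hS : PA N D ρ S) (hx : PA N D ρ x) : PI N D ρ (fun a => qfL (n a) (S a) (x a)) := by
  refine PI.sum hn hb fun Γ1 ρ1 up1 hu => ?_
  refine PI.sum (up1.n hn) (hb.up _) fun Γ2 ρ2 up2 hv => ?_
  have hn2 := up2.n (up1.n hn)
  have hx2 := up2.a (up1.a hx)
  exact PI.mul (PI.mul (PI.get (up2.a (up1.a hS)) (PN.add (PN.mul (up2.n hu) hn2) hv))
    (PI.get hx2 (up2.n hu))) (PI.get hx2 hv)

theorem PI.ipL {n : A → ℕ} {b x : A → List ℤ} (hn : PN N D ρ n) (hb : Bd N D n)
    (hB : PA N D ρ b) (hx : PA N D ρ x) : PI N D ρ (fun a => ipL (n a) (b a) (x a)) := by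
  refine PI.sum hn hb fun Γ1 ρ1 up1 hu => ?_
  exact PI.mul (PI.get (up1.a hB) hu) (PI.get (up1.a hx) hu)

theorem PI.nsL {n : A → ℕ} {S x y : A → List ℤ} (hn : PN N D ρ n) (hb : Bd N D n)
    (hS : PA N D ρ S) (hx : PA N D ρ x) (hy : PA N D ρ y) :
    PI N D ρ (fun a => nsL (n a) (S a) (x a) (y a)) := by
  refine PI.sum hn hb fun Γ1 ρ1 up1 hu => ?_
  refine PI.pow ?_ 2
  refine PI.sum (up1.n hn) (hb.up _) fun Γ2 ρ2 up2 hv => ?_
  have hn2 := up2.n (up1.n hn)
  exact PI.mul (PI.get (up2.a (up1.a hS)) (PN.add (PN.mul (up2.n hu) hn2) hv))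
    (PI.sub (PI.get (up2.a (up1.a hx)) hv) (PI.get (up2.a (up1.a hy)) hv))

theorem PI.wt {n u v : A → ℕ} {M : A → List ℤ} (hn : PN N D ρ n)
    (hM : PA N D ρ M) (hu : PN N D ρ u) (hv : PN N D ρ v) :
    PI N D ρ (fun a => wt (n a) (M a) (u a) (v a)) :=
  Cp.ite (PB.eqN hu hv) (PI.const 0)
    (PI.sub (PI.get hM (PN.add (PN.mul hu hn) hv)) (PI.pow hn 2))

theorem PI.bil {n : A → ℕ} {M y z : A → List ℤ} (hn : PN N D ρ n) (hb : Bd N D n)
    (hM : PA N D ρ M) (hy : PA N D ρ y) (hz : PA N D ρ z) :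
    PI N D ρ (fun a => bil (n a) (M a) (y a) (z a)) := by
  refine PI.sum hn hb fun Γ1 ρ1 up1 hu => ?_
  refine PI.sum (up1.n hn) (hb.up _) fun Γ2 ρ2 up2 hv => ?_
  exact PI.mul (PI.mul (PI.wt (up2.n (up1.n hn)) (up2.a (up1.a hM)) (up2.n hu) hv)
    (PI.get (up2.a (up1.a hy)) (up2.n hu))) (PI.get (up2.a (up1.a hz)) hv)

theorem PI.Phi {n : A → ℕ} {M y : A → List ℤ} (hn : PN N D ρ n) (hb : Bd N D n)
    (hM : PA N D ρ M) (hy : PA N D ρ y) :
    PI N D ρ (fun a => Phi (n a) (M a) (y a)) := PI.bil hn hb hM hy hy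

theorem PA.lin {n : A → ℕ} {y z : A → List ℤ} (α β : ℤ) (hn : PN N D ρ n) (hb : Bd N D n)
    (hy : PA N D ρ y) (hz : PA N D ρ z) :
    PA N D ρ (fun a => lin (n a) α (y a) β (z a)) := by
  refine PA.tab hn hb fun Γ1 ρ1 up1 hu => ?_
  exact PI.add (PI.mul (PI.const α) (PI.get (up1.a hy) hu))
    (PI.mul (PI.const β) (PI.get (up1.a hz) hu))

theorem PA.vec {n c : A → ℕ} (hn : PN N D ρ n) (hb : Bd N D n) (hc : PN N D ρ c) :
    PA N D ρ (fun a => vec (n a) (c a)) := by
  refine PA.tab hn hb fun Γ1 ρ1 up1 hu => ?_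
  exact PI.sub (PI.mul (PI.const 2) (PN.bit (up1.n hc) hu (Bd.var hb))) (PI.const 1)

theorem PN.code {n : A → ℕ} {x : A → List ℤ} (hn : PN N D ρ n) (hb : Bd N D n)
    (hx : PA N D ρ x) : PN N D ρ (fun a => code (n a) (x a)) := by
  refine PN.sum hn hb fun Γ1 ρ1 up1 hu => ?_
  exact PN.ite (PB.eq (PI.get (up1.a hx) hu) (PI.const 1)) (PN.pow2 hu (Bd.var hb)) (PN.const 0)

end

end Pool.Agent.MPa9445a.BE
end

section

/-! The lists of vertices of the main part. -/

set_option autoImplicit false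

open Finset

namespace Pool.Agent.MPa9445a.BE

open scoped Classical in
/-- The adjacency matrix. -/
noncomputable def adjZ {n : ℕ} (G : SimpleGraph (Fin n)) : Matrix (Fin n) (Fin n) ℤ :=
  fun u v => if G.Adj u v then 1 else 0

/-- The input of the main part is the input of a graph `G` with a partial assignment `g` to few vertices. -/
structure Dom (P : Prm) (a : In) (G : SimpleGraph (Fin a.n)) : Prop where
  m100 : 100 ≤ P.m
  M100 : 100 ≤ P.M
  n100 : 100 ≤ a.n
  adj : fm a.n a.M = adjZ G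
  g01 : ∀ v : Fin a.n, fv a.n a.g v = 0 ∨ fv a.n a.g v = 1 ∨ fv a.n a.g v = -1
  gH : (univ.filter fun v : Fin a.n => fv a.n a.g v ≠ 0).card * P.M ≤ a.n

/-- The free vertices. -/
def fr (a : In) : Finset (Fin a.n) := univ.filter fun v => fv a.n a.g v = 0

/-- The eight blocks. -/
def km (n : ℕ) : Fin n → Fin 8 := fun v => ⟨(v : ℕ) % 8, Nat.mod_lt _ (by norm_num)⟩

private theorem B2a_mem {n : ℕ} {q : ℕ → Prop} [DecidablePred q] {x : ℤ} :
    x ∈ flt n q ↔ ∃ i < n, q i ∧ (i : ℤ) = x := by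
  unfold flt
  simp only [List.mem_map, List.mem_filter, List.mem_range, decide_eq_true_eq]
  constructor
  · rintro ⟨i, ⟨h1, h2⟩, h3⟩
    exact ⟨i, h1, h2, h3⟩
  · rintro ⟨i, h1, h2, h3⟩
    exact ⟨i, ⟨h1, h2⟩, h3⟩

/-- PROOF. The elements of `flt n q` are the casts of different numbers less than `n`. -/
theorem VL_flt (n : ℕ) (q : ℕ → Prop) [DecidablePred q] : VL n (flt n q) := by
  constructor
  · unfold flt
    exact (List.nodup_range.filter _).map Nat.cast_injective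
  · intro x hx
    obtain ⟨i, h1, _, h3⟩ := B2a_mem.1 hx
    omega

theorem st_flt (n : ℕ) (q : ℕ → Prop) [DecidablePred q] :
    st n (flt n q) = univ.filter fun v : Fin n => q v := by
  ext v
  unfold st
  rw [Finset.mem_filter, Finset.mem_filter, B2a_mem]
  simp only [Finset.mem_univ, true_and]
  constructor
  · rintro ⟨i, _, h2, h3⟩
    have : i = (v : ℕ) := by exact_mod_cast h3
    rw [← this]
    exact h2
  · intro h
    exact ⟨v, v.isLt, h, rfl⟩

/-- PROOF. `st_flt`. -/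
theorem st_LW {a : In} {i j : Fin 8} (hi : a.i = (i : ℕ)) (hj : a.j = (j : ℕ)) :
    st a.n (LW a) = fr a ∩ bk (km a.n) i j := by
  unfold LW
  rw [st_flt]
  ext v
  unfold fr bk km fv
  rw [Finset.mem_inter, Finset.mem_filter, Finset.mem_filter, Finset.mem_filter, hi, hj]
  simp only [Finset.mem_univ, true_and, Fin.ext_iff]

private theorem B2a_gt {l : List ℤ} {x : ℕ} (h : x < l.length) : gt l x = l[x] := by
  unfold gt
  rw [List.getD_eq_getElem _ _ h]

private theorem B2a_gt_mem {l : List ℤ} {x : ℕ} (h : x < l.length) : gt l x ∈ l := by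
  rw [B2a_gt h]
  exact List.getElem_mem h

private theorem B2a_LW (a : In) {x : ℤ} : x ∈ LW a ↔
    ∃ i < a.n, (gt a.g i = 0 ∧ (i % 8 = a.i ∨ i % 8 = a.j)) ∧ (i : ℤ) = x := B2a_mem

private theorem B2a_LR (a : In) {x : ℤ} : x ∈ LR a ↔
    ∃ i < a.n, (gt a.g i = 0 ∧ ¬(i % 8 = a.i ∨ i % 8 = a.j)) ∧ (i : ℤ) = x := B2a_mem

private theorem B2a_disj (a : In) {x : ℤ} (h : x ∈ LW a) (h' : x ∈ LR a) : False := by
  obtain ⟨i, _, h2, h3⟩ := (B2a_LW a).1 h
  obtain ⟨j, _, h5, h6⟩ := (B2a_LR a).1 h'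
  have hij : i = j := by
    have : (i : ℤ) = j := by rw [h3, h6]
    exact_mod_cast this
  subst hij
  exact h5.2 h2.2

private theorem B2a_fr (a : In) {v : Fin a.n} :
    v ∈ fr a ↔ ((v : ℕ) : ℤ) ∈ LW a ∨ ((v : ℕ) : ℤ) ∈ LR a := by
  rw [B2a_LW, B2a_LR]
  unfold fr fv
  simp only [Finset.mem_filter, Finset.mem_univ, true_and]
  constructor
  · intro h
    by_cases h1 : (v : ℕ) % 8 = a.i ∨ (v : ℕ) % 8 = a.j
    · exact Or.inl ⟨v, v.isLt, ⟨h, h1⟩, rfl⟩
    · exact Or.inr ⟨v, v.isLt, ⟨h, h1⟩, rfl⟩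
  · rintro (⟨i, _, h2, h3⟩ | ⟨i, _, h2, h3⟩)
    · have : i = (v : ℕ) := by exact_mod_cast h3
      rw [← this]
      exact h2.1
    · have : i = (v : ℕ) := by exact_mod_cast h3
      rw [← this]
      exact h2.1

/-- PROOF. `card_st`, `st_flt`: disjoint sets with union `fr a`. -/
theorem card_LW_LR (a : In) : (LW a).length + (LR a).length = (fr a).card := by
  have hW : VL a.n (LW a) := VL_flt _ _
  have hR : VL a.n (LR a) := VL_flt _ _
  rw [← card_st hW, ← card_st hR, ← Finset.card_union_of_disjoint]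
  · congr 1
    ext v
    rw [Finset.mem_union, B2a_fr]
    unfold st
    simp only [Finset.mem_filter, Finset.mem_univ, true_and]
  · rw [Finset.disjoint_left]
    intro v h1 h2
    unfold st at h1 h2
    rw [Finset.mem_filter] at h1 h2
    exact B2a_disj a h1.2 h2.2

/-- The free vertices in order: different vertices. PROOF. `VL_flt` for both lists, and no vertex is in both lists. -/
theorem ordL_inj (a : In) {x y : ℕ} (hx : x < (LW a).length + (LR a).length)
    (hy : y < (LW a).length + (LR a).length) (h : ordL a x = ordL a y) : x = y := by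
  have hW : (LW a).Nodup := (VL_flt _ _ : VL a.n (LW a)).nodup
  have hR : (LR a).Nodup := (VL_flt _ _ : VL a.n (LR a)).nodup
  unfold ordL at h
  by_cases h1 : x < (LW a).length
  · rw [if_pos h1] at h
    by_cases h2 : y < (LW a).length
    · rw [if_pos h2, B2a_gt h1, B2a_gt h2] at h
      exact (hW.getElem_inj_iff).1 h
    · rw [if_neg h2] at h
      have h3 : y - (LW a).length < (LR a).length := by omega
      exact (B2a_disj a (B2a_gt_mem h1) (h ▸ B2a_gt_mem h3)).elim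
  · rw [if_neg h1] at h
    have h4 : x - (LW a).length < (LR a).length := by omega
    by_cases h2 : y < (LW a).length
    · rw [if_pos h2] at h
      exact (B2a_disj a (B2a_gt_mem h2) (h ▸ B2a_gt_mem h4)).elim
    · rw [if_neg h2] at h
      have h3 : y - (LW a).length < (LR a).length := by omega
      rw [B2a_gt h4, B2a_gt h3] at h
      have := (hR.getElem_inj_iff).1 h
      omega

/-- PROOF. The values of `ordL` are the elements of the two lists. -/
theorem ordL_mem (a : In) {v : Fin a.n} :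
    v ∈ fr a ↔ ∃ x < (LW a).length + (LR a).length, ordL a x = ((v : ℕ) : ℤ) := by
  rw [B2a_fr]
  constructor
  · rintro (h | h)
    · obtain ⟨x, hx, h1⟩ := List.getElem_of_mem h
      refine ⟨x, by omega, ?_⟩
      unfold ordL
      rw [if_pos hx, B2a_gt hx, h1]
    · obtain ⟨x, hx, h1⟩ := List.getElem_of_mem h
      refine ⟨(LW a).length + x, by omega, ?_⟩
      unfold ordL
      rw [if_neg (by omega), Nat.add_sub_cancel_left, B2a_gt hx, h1]
  · rintro ⟨x, hx, h1⟩
    unfold ordL at h1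
    by_cases h2 : x < (LW a).length
    · rw [if_pos h2] at h1
      left
      rw [← h1]
      exact B2a_gt_mem h2
    · rw [if_neg h2] at h1
      right
      rw [← h1]
      exact B2a_gt_mem (by omega)

theorem ordL_bd (a : In) {x : ℕ} (hx : x < (LW a).length + (LR a).length) :
    0 ≤ ordL a x ∧ ordL a x < a.n := by
  unfold ordL
  by_cases h2 : x < (LW a).length
  · rw [if_pos h2]
    exact (VL_flt _ _ : VL a.n (LW a)).bd _ (B2a_gt_mem h2)
  · rw [if_neg h2]
    have h3 : x - (LW a).length < (LR a).length := by omega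
    exact (VL_flt _ _ : VL a.n (LR a)).bd _ (B2a_gt_mem h3)

end Pool.Agent.MPa9445a.BE
end

section

/-! Indices of the partial assignments. -/

set_option autoImplicit false

open Finset

namespace Pool.Agent.MPa9445a.BE

/-- The array of a vector. -/
def lst (n : ℕ) (g : Fin n → ℤ) : List ℤ := tb n fun v => if h : v < n then g ⟨v, h⟩ else 0

/-- PROOF. `fv_tb`. -/
theorem fv_lst (n : ℕ) (g : Fin n → ℤ) : fv n (lst n g) = g := by
  funext v
  unfold lst
  rw [fv_tb, dif_pos v.isLt]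

private theorem B7_digits (B : ℕ) (hB : 0 < B) (K : ℕ) (d : ℕ → ℕ) (hd : ∀ t < K, d t < B) :
    ∃ x < B ^ K, ∀ t < K, x / B ^ t % B = d t := by
  induction K generalizing d with
  | zero => exact ⟨0, by simp, fun t ht => absurd ht (Nat.not_lt_zero t)⟩
  | succ K ih =>
    obtain ⟨x, hx, h⟩ := ih (fun t => d (t + 1)) (fun t ht => hd (t + 1) (by omega))
    have h0 := hd 0 (by omega)
    refine ⟨d 0 + B * x, ?_, fun t ht => ?_⟩
    · calc d 0 + B * x < B + B * x := by omega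
        _ = B * (x + 1) := by ring
        _ ≤ B * B ^ K := Nat.mul_le_mul_left _ hx
        _ = B ^ (K + 1) := by ring
    · cases t with
      | zero => rw [pow_zero, Nat.div_one, Nat.add_mul_mod_self_left, Nat.mod_eq_of_lt h0]
      | succ t =>
        rw [pow_succ', ← Nat.div_div_eq_div_mul, Nat.add_mul_div_left _ _ hB,
          Nat.div_eq_of_lt h0, Nat.zero_add]
        exact h t (by omega)

/-- PROOF. Induction on `K` (`x = x' + d K 2 ^ (b K)`), or `Nat.ofDigits`. -/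
theorem exists_digits (b K : ℕ) (d : ℕ → ℕ) (hd : ∀ t < K, d t < 2 ^ b) :
    ∃ x < 2 ^ (b * K), ∀ t < K, dg b x t = d t := by
  obtain ⟨x, hx, h⟩ := B7_digits (2 ^ b) (by positivity) K d hd
  refine ⟨x, by rwa [pow_mul], fun t ht => ?_⟩
  unfold dg
  rw [pow_mul]
  exact h t ht

/-- PROOF. `c = ∑ i ∈ range k, e i * 4 ^ i`, induction on `k`. -/
theorem exists_base4 (k : ℕ) (e : ℕ → ℕ) (he : ∀ i < k, e i < 4) :
    ∃ c < 4 ^ k, ∀ i < k, c / 4 ^ i % 4 = e i := by
  exact B7_digits 4 (by norm_num) k e he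

/-- PROOF. `flt`: `exists_base4`. -/
theorem mem_spl {n h : ℕ} (e : ℕ → ℕ) (he : ∀ i < n / 4 + 1, e i < 4)
    (hh : ((range (n / 4 + 1)).filter fun i => e i ≠ 0).card ≤ h) :
    ∃ x < (spl n h).length, ∀ i < n / 4 + 1, (gt (spl n h) x).toNat / 4 ^ i % 4 = e i := by
  obtain ⟨c, hc, hd⟩ := exists_base4 (n / 4 + 1) e he
  have hmem : (c : ℤ) ∈ spl n h := by
    unfold spl flt
    rw [List.mem_map]
    refine ⟨c, ?_, rfl⟩
    rw [List.mem_filter, List.mem_range]
    refine ⟨hc, ?_⟩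
    rw [decide_eq_true_eq]
    refine le_trans (le_of_eq ?_) hh
    rw [Finset.card_filter]
    refine Finset.sum_congr rfl fun i hi => ?_
    rw [hd i (Finset.mem_range.1 hi)]
    by_cases h0 : e i = 0 <;> simp [h0]
  obtain ⟨x, hx, hxc⟩ := List.mem_iff_getElem.1 hmem
  refine ⟨x, hx, fun i hi => ?_⟩
  have h1 : gt (spl n h) x = (c : ℤ) := by
    rw [← hxc]
    exact List.getD_eq_getElem _ _ hx
  rw [h1, Int.toNat_natCast]
  exact hd i hi

/-- PROOF. For `q < 4` let `e q i` be `0`, `1` or `2` if `g (q k + i)` is `0`, `1` or `-1` (`k = n / 4 + 1`, `0` if `q k + i ≥ n`); `mem_spl` gives indices `d q < (spl n h).length ≤ 2 ^ b`; the other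
digits are given; `exists_digits`. Every `v < n` is `(v / k) k + v % k` with `v / k < 4`. -/
theorem exists_index {n h b K : ℕ} (hb : (spl n h).length < 2 ^ b) (hK : 4 ≤ K) {g : Fin n → ℤ}
    (h01 : ∀ v, g v = 0 ∨ g v = 1 ∨ g v = -1)
    (hc : (univ.filter fun v => g v ≠ 0).card ≤ h) (d : ℕ → ℕ)
    (hd : ∀ t, 4 ≤ t → t < K → d t < 2 ^ b) :
    ∃ x < 2 ^ (b * K), gg n b (spl n h) x = lst n g ∧ ∀ t, 4 ≤ t → t < K → dg b x t = d t := by
  classical
  obtain ⟨k, hk⟩ : ∃ k, k = n / 4 + 1 := ⟨_, rfl⟩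
  have hkpos : 0 < k := by omega
  obtain ⟨E, hE⟩ : ∃ E : ℕ → ℕ → ℕ, ∀ q i, E q i = if hv : q * k + i < n then
    (if g ⟨q * k + i, hv⟩ = 0 then 0 else if g ⟨q * k + i, hv⟩ = 1 then 1 else 2) else 0 :=
    ⟨_, fun _ _ => rfl⟩
  have hE4 : ∀ q i, E q i < 4 := by
    intro q i
    rw [hE]
    split_ifs <;> omega
  have hEc : ∀ q, ((range (n / 4 + 1)).filter fun i => E q i ≠ 0).card ≤ h := by
    intro q
    refine le_trans ?_ hc
    refine le_trans (Finset.card_le_card (t := (univ.filter fun v : Fin n => g v ≠ 0).image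
      (fun v : Fin n => (v : ℕ) - q * k)) ?_) Finset.card_image_le
    intro i hi
    have h1 := (Finset.mem_filter.1 hi).2
    rw [hE] at h1
    rw [Finset.mem_image]
    by_cases hv : q * k + i < n
    · rw [dif_pos hv] at h1
      refine ⟨⟨q * k + i, hv⟩, ?_, ?_⟩
      · rw [Finset.mem_filter]
        refine ⟨Finset.mem_univ _, fun h0 => h1 ?_⟩
        rw [if_pos h0]
      · show q * k + i - q * k = i
        omega
    · rw [dif_neg hv] at h1
      exact absurd rfl h1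
  have hsp : ∀ q, ∃ x < (spl n h).length, ∀ i < n / 4 + 1,
      (gt (spl n h) x).toNat / 4 ^ i % 4 = E q i :=
    fun q => mem_spl (E q) (fun i _ => hE4 q i) (hEc q)
  choose y hy hyE using hsp
  obtain ⟨x, hx, hxd⟩ := exists_digits b K (fun t => if t < 4 then y t else d t) (by
    intro t ht
    by_cases h4 : t < 4
    · simp only [if_pos h4]
      exact lt_trans (hy t) hb
    · simp only [if_neg h4]
      exact hd t (by omega) ht)
  refine ⟨x, hx, ?_, fun t h4 ht => ?_⟩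
  · unfold gg lst tb
    refine List.map_congr_left fun v hv => ?_
    rw [List.mem_range] at hv
    have hdiv : v / (n / 4 + 1) < 4 := by
      rw [Nat.div_lt_iff_lt_mul (by omega)]
      omega
    have hmod : v % (n / 4 + 1) < n / 4 + 1 := Nat.mod_lt _ (by omega)
    have h1 := hxd (v / (n / 4 + 1)) (by omega)
    rw [if_pos hdiv] at h1
    have h2 := hyE (v / (n / 4 + 1)) (v % (n / 4 + 1)) hmod
    have hve : v / (n / 4 + 1) * k + v % (n / 4 + 1) = v := by
      rw [hk]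
      exact Nat.div_add_mod' v (n / 4 + 1)
    rw [h1, h2, hE, dif_pos hv]
    have h3 : (⟨v / (n / 4 + 1) * k + v % (n / 4 + 1), by rw [hve]; exact hv⟩ : Fin n) =
        ⟨v, hv⟩ := Fin.ext hve
    rw [dif_pos (show v / (n / 4 + 1) * k + v % (n / 4 + 1) < n by rw [hve]; exact hv), h3]
    rcases h01 ⟨v, hv⟩ with h | h | h <;> rw [h] <;> norm_num
  · have h1 := hxd t ht
    rw [if_neg (by omega)] at h1
    exact h1

end Pool.Agent.MPa9445a.BE
end
end

section

/-! The steps of the main part are computed by programs: matrices and lists. -/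

set_option autoImplicit false

open Finset

namespace Pool.Agent.MPa9445a.BE

/-- The fields of the input are available. -/
structure Av (D : In → Prop) {Γ : List Ty} (ρ : In → Env Γ) : Prop where
  n : PN In.n D ρ In.n
  M : PA In.n D ρ In.M
  g : PA In.n D ρ In.g
  s : PN In.n D ρ In.s
  i : PN In.n D ρ In.i
  j : PN In.n D ρ In.j
  α : PI In.n D ρ In.α
  β : PI In.n D ρ In.β

section

variable {D : In → Prop} {Γ : List Ty} {ρ : In → Env Γ}

theorem Av.ke {Γ' : List Ty} {ρ' : In → Env Γ'} (h : Av D ρ) (ke : Ke In.n D ρ ρ') : Av D ρ' :=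
  ⟨ke.n h.n, ke.a h.M, ke.a h.g, ke.n h.s, ke.n h.i, ke.n h.j, ke.i h.α, ke.i h.β⟩

/-- The bounds. -/
theorem bd_n : Bd In.n D In.n := Bd.self

/-- PROOF. The filtered list of `range n` has at most `n` elements. -/
theorem length_flt_le (k : ℕ) (q : ℕ → Prop) [DecidablePred q] : (flt k q).length ≤ k := by
  unfold flt
  rw [List.length_map]
  exact (List.length_filter_le _ _).trans (List.length_range).le

theorem bd_LW : Bd In.n D (fun a => (LW a).length) :=
  Bd.le Bd.self fun _ _ => length_flt_le _ _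

theorem bd_LR : Bd In.n D (fun a => (LR a).length) :=
  Bd.le Bd.self fun _ _ => length_flt_le _ _

theorem c_SL (h : Av D ρ) : PA In.n D ρ SL := by
  refine PA.tab (PN.mul h.n h.n) (Bd.self.mul Bd.self) fun Γ1 ρ1 up hx => ?_
  have hn := up.n h.n
  have hg := up.a h.g
  have hM := PI.get (up.a h.M) hx
  exact Cp.ite (PB.or (PB.ne (PI.get hg (PN.div hx hn)) (PI.const 0))
      (PB.or (PB.ne (PI.get hg (PN.mod hx hn)) (PI.const 0)) (PB.eqN (PN.div hx hn) (PN.mod hx hn))))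
    (PI.const 0) (Cp.ite (PB.eqN (up.n h.s) (PN.const 0)) hM (PI.sub hM (PI.const 1)))

theorem c_S3L (h : Av D ρ) (hS : PA In.n D ρ SL) : PA In.n D ρ S3L :=
  PA.mulL h.n Bd.self (PA.mulL h.n Bd.self hS hS) hS

theorem c_D2L (h : Av D ρ) (hS : PA In.n D ρ SL) : PI In.n D ρ D2L := by
  refine PI.sum (PN.mul h.n h.n) (Bd.self.mul Bd.self) fun Γ1 ρ1 up hx => ?_
  exact PI.pow (PI.get (up.a hS) hx) 2

theorem c_bL (h : Av D ρ) : PA In.n D ρ bL := by
  refine PA.tab h.n Bd.self fun Γ1 ρ1 up1 hv => ?_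
  refine Cp.ite (PB.eq (PI.get (up1.a h.g) hv) (PI.const 0)) (PI.mul (PI.const 2) ?_) (PI.const 0)
  refine PI.sum (up1.n h.n) (Bd.self.up _) fun Γ2 ρ2 up2 hu => ?_
  exact PI.mul (PI.get (up2.a (up1.a h.M)) (PN.add (PN.mul hu (up2.n (up1.n h.n))) (up2.n hv)))
    (PI.get (up2.a (up1.a h.g)) hu)

theorem c_LW (h : Av D ρ) : PA In.n D ρ LW := by
  refine PA.filter h.n Bd.self fun Γ1 ρ1 up hv => ?_
  exact PB.and (PB.eq (PI.get (up.a h.g) hv) (PI.const 0))
    (PB.or (PB.eqN (PN.mod hv (PN.const 8)) (up.n h.i)) (PB.eqN (PN.mod hv (PN.const 8)) (up.n h.j)))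

theorem c_LR (h : Av D ρ) : PA In.n D ρ LR := by
  refine PA.filter h.n Bd.self fun Γ1 ρ1 up hv => ?_
  exact PB.and (PB.eq (PI.get (up.a h.g) hv) (PI.const 0))
    (PB.not (PB.or (PB.eqN (PN.mod hv (PN.const 8)) (up.n h.i))
      (PB.eqN (PN.mod hv (PN.const 8)) (up.n h.j))))

end

section

variable {A : Type} {N : A → ℕ} {D : A → Prop} {Γ : List Ty} {ρ : A → Env Γ} {F : A → In}

theorem c_ordL {x : A → ℕ} (hW : PA N D ρ (fun a => LW (F a))) (hR : PA N D ρ (fun a => LR (F a)))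
    (hx : PN N D ρ x) : PI N D ρ (fun a => ordL (F a) (x a)) :=
  Cp.ite (PB.ltN hx (PN.len hW)) (PI.get hW hx) (PI.get hR (PN.sub hx (PN.len hW)))

end

section

variable {D : In → Prop} {Γ : List Ty} {ρ : In → Env Γ} (P : Prm)

theorem c_n1 (h : Av D ρ) : PN In.n D ρ (n1 P) :=
  PN.add (PN.div h.n (PN.const 3)) (PN.mul (PN.const 2) (PN.div h.n (PN.const P.m)))

theorem c_n2 (h : Av D ρ) : PN In.n D ρ (n2 P) :=
  PN.sub (PN.div h.n (PN.const 3)) (PN.div h.n (PN.const P.m))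

theorem c_n3 (h : Av D ρ) (hW : PA In.n D ρ LW) (hR : PA In.n D ρ LR) : PN In.n D ρ (n3 P) :=
  PN.sub (PN.sub (PN.add (PN.len hW) (PN.len hR)) (c_n1 P h)) (c_n2 P h)

theorem bd_n1 : Bd In.n D (n1 P) :=
  Bd.le (Bd.self.mul (Bd.const 3)) fun a _ => by
    have h1 := Nat.div_le_self a.n 3
    have h2 := Nat.div_le_self a.n P.m
    unfold n1
    omega

theorem bd_n2 : Bd In.n D (n2 P) :=
  Bd.le Bd.self fun a _ => (Nat.sub_le _ _).trans (Nat.div_le_self a.n 3)

theorem bd_n3 : Bd In.n D (n3 P) :=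
  Bd.le (bd_LW.add bd_LR) fun a _ => by
    unfold n3
    omega

theorem c_L1 (h : Av D ρ) (hW : PA In.n D ρ LW) (hR : PA In.n D ρ LR) : PA In.n D ρ (L1 P) :=
  PA.tab (c_n1 P h) (bd_n1 P) fun _ _ up hx => c_ordL (up.a hW) (up.a hR) hx

theorem c_L2 (h : Av D ρ) (hW : PA In.n D ρ LW) (hR : PA In.n D ρ LR) : PA In.n D ρ (L2 P) :=
  PA.tab (c_n2 P h) (bd_n2 P) fun _ _ up hx =>
    c_ordL (up.a hW) (up.a hR) (PN.add (up.n (c_n1 P h)) hx)

theorem c_L3 (h : Av D ρ) (hW : PA In.n D ρ LW) (hR : PA In.n D ρ LR) : PA In.n D ρ (L3 P) :=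
  PA.tab (c_n3 P h hW hR) (bd_n3 P) fun _ _ up hx =>
    c_ordL (up.a hW) (up.a hR) (PN.add (PN.add (up.n (c_n1 P h)) (up.n (c_n2 P h))) hx)

end

end Pool.Agent.MPa9445a.BE
end
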