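import Pool.Agent.Lib.MP_a9445a_lc.Mg.G114
import Pool.Agent.Lib.MP_a9445a_lc.BE.Cls
import Pool.Agent.Lib.MP_a9445a_lc.Mg.G111

section

/-! Calls: a program for the inputs `In` is used for other states. -/

set_option autoImplicit false

namespace Pool.Agent.MPa9445a.BE

/-- The same program with more variables (behind the old ones). -/
def Ex.ext (Δ : List Ty) : {Γ : List Ty} → {t : Ty} → Ex Γ t → Ex (Γ ++ Δ) t
  | _, _, .top => .top
  | _, _, .wk e => .wk (e.ext Δ)
  | _, _, .const c => .const c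
  | _, _, .add a b => .add (a.ext Δ) (b.ext Δ)
  | _, _, .sub a b => .sub (a.ext Δ) (b.ext Δ)
  | _, _, .mul a b => .mul (a.ext Δ) (b.ext Δ)
  | _, _, .div a b => .div (a.ext Δ) (b.ext Δ)
  | _, _, .mod a b => .mod (a.ext Δ) (b.ext Δ)
  | _, _, .le a b => .le (a.ext Δ) (b.ext Δ)
  | _, _, .ite c a b => .ite (c.ext Δ) (a.ext Δ) (b.ext Δ)
  | _, _, .pow2 a => .pow2 (a.ext Δ)
  | _, _, .get l i => .get (l.ext Δ) (i.ext Δ)
  | _, _, .len l => .len (l.ext Δ)
  | _, _, .sum k e => .sum (k.ext Δ) (e.ext Δ)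
  | _, _, .amax k e => .amax (k.ext Δ) (e.ext Δ)
  | _, _, .tab k e => .tab (k.ext Δ) (e.ext Δ)
  | _, _, .filter k e => .filter (k.ext Δ) (e.ext Δ)
  | _, _, .mm k a b => .mm (k.ext Δ) (a.ext Δ) (b.ext Δ)
  | _, _, .bind a e => .bind (a.ext Δ) (e.ext Δ)

/-- More variables behind the old ones. -/
def app {Δ : List Ty} (δ : Env Δ) : {Γ : List Ty} → Env Γ → Env (Γ ++ Δ)
  | [], _ => δ
  | _ :: _, γ => (γ.1, app δ γ.2)

/-- PROOF. Induction on the program. -/
theorem eval_ext {Γ Δ : List Ty} {t : Ty} (e : Ex Γ t) (γ : Env Γ) (δ : Env Δ) :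
    (e.ext Δ).eval (app δ γ) = e.eval γ := by
  induction e with
  | top => rfl
  | wk e ih => exact ih γ.2
  | const c => rfl
  | add a b iha ihb => simp only [Ex.ext, Ex.eval, iha γ, ihb γ]
  | sub a b iha ihb => simp only [Ex.ext, Ex.eval, iha γ, ihb γ]
  | mul a b iha ihb => simp only [Ex.ext, Ex.eval, iha γ, ihb γ]
  | div a b iha ihb => simp only [Ex.ext, Ex.eval, iha γ, ihb γ]
  | mod a b iha ihb => simp only [Ex.ext, Ex.eval, iha γ, ihb γ]
  | le a b iha ihb => simp only [Ex.ext, Ex.eval, iha γ, ihb γ]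
  | ite c a b ihc iha ihb => simp only [Ex.ext, Ex.eval, ihc γ, iha γ, ihb γ]
  | pow2 a iha => simp only [Ex.ext, Ex.eval, iha γ]
  | get l i ihl ihi => simp only [Ex.ext, Ex.eval, ihl γ, ihi γ]
  | len l ihl => simp only [Ex.ext, Ex.eval, ihl γ]
  | sum k e ihk ihe =>
    have h : ∀ i : ℤ, (e.ext Δ).eval (i, app δ γ) = e.eval (i, γ) := fun i => ihe (i, γ)
    simp only [Ex.ext, Ex.eval, ihk γ, h]
  | amax k e ihk ihe =>
    have h : ∀ i : ℤ, (e.ext Δ).eval (i, app δ γ) = e.eval (i, γ) := fun i => ihe (i, γ)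
    simp only [Ex.ext, Ex.eval, ihk γ, h]
  | tab k e ihk ihe =>
    have h : ∀ i : ℤ, (e.ext Δ).eval (i, app δ γ) = e.eval (i, γ) := fun i => ihe (i, γ)
    simp only [Ex.ext, Ex.eval, ihk γ, h]
  | filter k e ihk ihe =>
    have h : ∀ i : ℤ, (e.ext Δ).eval (i, app δ γ) = e.eval (i, γ) := fun i => ihe (i, γ)
    simp only [Ex.ext, Ex.eval, ihk γ, h]
  | mm k a b ihk iha ihb => simp only [Ex.ext, Ex.eval, ihk γ, iha γ, ihb γ]
  | bind a e iha ihe =>
    simp only [Ex.ext, Ex.eval, iha γ]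
    exact ihe (a.eval γ, γ)

/-- PROOF. Induction on the program, `eval_ext`. -/
theorem cost_ext {Γ Δ : List Ty} {t : Ty} (e : Ex Γ t) (γ : Env Γ) (δ : Env Δ) (τ : ℝ) :
    (e.ext Δ).cost τ (app δ γ) = e.cost τ γ := by
  induction e with
  | @top Γ t => cases t <;> rfl
  | wk e ih =>
    simp only [Ex.ext, Ex.cost]
    exact ih γ.2
  | const c => rfl
  | add a b iha ihb => simp only [Ex.ext, Ex.cost, iha γ, ihb γ, eval_ext]
  | sub a b iha ihb => simp only [Ex.ext, Ex.cost, iha γ, ihb γ, eval_ext]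
  | mul a b iha ihb => simp only [Ex.ext, Ex.cost, iha γ, ihb γ, eval_ext]
  | div a b iha ihb => simp only [Ex.ext, Ex.cost, iha γ, ihb γ, eval_ext]
  | mod a b iha ihb => simp only [Ex.ext, Ex.cost, iha γ, ihb γ, eval_ext]
  | le a b iha ihb => simp only [Ex.ext, Ex.cost, iha γ, ihb γ, eval_ext]
  | ite c a b ihc iha ihb => simp only [Ex.ext, Ex.cost, ihc γ, iha γ, ihb γ, eval_ext]
  | pow2 a iha => simp only [Ex.ext, Ex.cost, iha γ, eval_ext]
  | get l i ihl ihi => simp only [Ex.ext, Ex.cost, ihl γ, ihi γ, eval_ext]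
  | len l ihl => simp only [Ex.ext, Ex.cost, ihl γ, eval_ext]
  | sum k e ihk ihe =>
    have h : ∀ i : ℤ, (e.ext Δ).eval (i, app δ γ) = e.eval (i, γ) := fun i => eval_ext e (i, γ) δ
    have h' : ∀ i : ℤ, (e.ext Δ).cost τ (i, app δ γ) = e.cost τ (i, γ) := fun i => ihe (i, γ)
    simp only [Ex.ext, Ex.cost, ihk γ, h, h', eval_ext]
  | amax k e ihk ihe =>
    have h : ∀ i : ℤ, (e.ext Δ).eval (i, app δ γ) = e.eval (i, γ) := fun i => eval_ext e (i, γ) δ
    have h' : ∀ i : ℤ, (e.ext Δ).cost τ (i, app δ γ) = e.cost τ (i, γ) := fun i => ihe (i, γ)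
    simp only [Ex.ext, Ex.cost, ihk γ, h, h', eval_ext]
  | tab k e ihk ihe =>
    have h : ∀ i : ℤ, (e.ext Δ).eval (i, app δ γ) = e.eval (i, γ) := fun i => eval_ext e (i, γ) δ
    have h' : ∀ i : ℤ, (e.ext Δ).cost τ (i, app δ γ) = e.cost τ (i, γ) := fun i => ihe (i, γ)
    simp only [Ex.ext, Ex.cost, ihk γ, h, h', eval_ext]
  | filter k e ihk ihe =>
    have h : ∀ i : ℤ, (e.ext Δ).eval (i, app δ γ) = e.eval (i, γ) := fun i => eval_ext e (i, γ) δ
    have h' : ∀ i : ℤ, (e.ext Δ).cost τ (i, app δ γ) = e.cost τ (i, γ) := fun i => ihe (i, γ)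
    simp only [Ex.ext, Ex.cost, ihk γ, h, h', eval_ext]
  | mm k a b ihk iha ihb => simp only [Ex.ext, Ex.cost, ihk γ, iha γ, ihb γ, eval_ext]
  | bind a e iha ihe =>
    simp only [Ex.ext, Ex.cost, iha γ, eval_ext]
    congr 1
    exact ihe (a.eval γ, γ)

/-- PROOF. Take `D' b = ∃ a, D a ∧ F a = b` and `ρ' b = (b.n, b.M, b.g, b.s, b.i, b.j, b.α, b.β, ())`: `Av D' ρ'` by `Cp.top`, `Cp.wk`
(the sizes are polynomial by the hypotheses). Let `e` be the program given by `h` (with exponent `k`). For the states `A`: store `β, α, j, i, s, g, M, n` in this order (`Cp.bind`, `Cp.wk`) and run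
`e.ext Γ` (`eval_ext`, `cost_ext`). -/
theorem call {A : Type} {N : A → ℕ} {D : A → Prop} {Γ : List Ty} {ρ : A → Env Γ} (F : A → In)
    (hN : ∀ a, D a → N a = (F a).n)
    (hn : PN N D ρ (fun a => (F a).n)) (hM : PA N D ρ (fun a => (F a).M))
    (hg : PA N D ρ (fun a => (F a).g)) (hs : PN N D ρ (fun a => (F a).s))
    (hi : PN N D ρ (fun a => (F a).i)) (hj : PN N D ρ (fun a => (F a).j))
    (hα : PI N D ρ (fun a => (F a).α)) (hβ : PI N D ρ (fun a => (F a).β))
    {w : ℝ → In → ℝ} {f : In → ℤ}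
    (h : ∀ (D' : In → Prop) (Γ' : List Ty) (ρ' : In → Env Γ'), Av D' ρ' →
      Cp In.n D' ρ' w .int f) :
    Cp N D ρ (fun τ a => w τ (F a)) .int (fun a => f (F a)) := by
  let D' : In → Prop := fun b => ∃ a, D a ∧ F a = b
  let ρ' : In → Env [.int, .arr, .arr, .int, .int, .int, .int, .int] := fun b =>
    ((b.n : ℤ), b.M, b.g, (b.s : ℤ), (b.i : ℤ), (b.j : ℤ), b.α, b.β, ())
  have bd : ∀ (t : Ty) (φ : In → t.Val), Cp N D ρ one t (fun a => φ (F a)) →
      ∃ k : ℕ, ∀ b, D' b → vs (φ b) ≤ (In.n b + 2) ^ k := by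
    rintro t φ ⟨e, k, he⟩
    refine ⟨k, ?_⟩
    rintro b ⟨a, ha, rfl⟩
    rw [← hN a ha]
    exact (he a ha).2.1
  have bn := bd .int (fun b => (b.n : ℤ)) hn
  have bM := bd .arr (fun b => b.M) hM
  have bg := bd .arr (fun b => b.g) hg
  have bs := bd .int (fun b => (b.s : ℤ)) hs
  have bi := bd .int (fun b => (b.i : ℤ)) hi
  have bj := bd .int (fun b => (b.j : ℤ)) hj
  have bα := bd .int (fun b => b.α) hα
  have bβ := bd .int (fun b => b.β) hβ
  have av : Av D' ρ' := by
    refine ⟨?_, ?_, ?_, ?_, ?_, ?_, ?_, ?_⟩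
    · exact Cp.top (t := .int) (f := fun b : In => (b.n : ℤ)) bn
    · exact Cp.wk (Cp.top (t := .arr) (f := fun b : In => b.M) bM)
    · exact Cp.wk (Cp.wk (Cp.top (t := .arr) (f := fun b : In => b.g) bg))
    · exact Cp.wk (Cp.wk (Cp.wk (Cp.top (t := .int) (f := fun b : In => (b.s : ℤ)) bs)))
    · exact Cp.wk (Cp.wk (Cp.wk (Cp.wk (Cp.top (t := .int) (f := fun b : In => (b.i : ℤ)) bi))))
    · exact Cp.wk (Cp.wk (Cp.wk (Cp.wk (Cp.wk
        (Cp.top (t := .int) (f := fun b : In => (b.j : ℤ)) bj)))))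
    · exact Cp.wk (Cp.wk (Cp.wk (Cp.wk (Cp.wk (Cp.wk
        (Cp.top (t := .int) (f := fun b : In => b.α) bα))))))
    · exact Cp.wk (Cp.wk (Cp.wk (Cp.wk (Cp.wk (Cp.wk (Cp.wk
        (Cp.top (t := .int) (f := fun b : In => b.β) bβ)))))))
  obtain ⟨e, k, he⟩ := h D' _ ρ' av
  have hw : ∀ a, D a → ∀ τ : ℝ, 2 ≤ τ → 1 ≤ w τ (F a) := fun a ha τ hτ =>
    ((he (F a) ⟨a, ha, rfl⟩).2.2 τ hτ).1
  have full : Cp N D (fun a => (app (ρ a) (ρ' (F a)) :
      Env ([.int, .arr, .arr, .int, .int, .int, .int, .int] ++ Γ)))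
      (fun τ a => w τ (F a)) .int (fun a => f (F a)) := by
    refine ⟨e.ext Γ, k, fun a ha => ?_⟩
    obtain ⟨h1, h2, h3⟩ := he (F a) ⟨a, ha, rfl⟩
    refine ⟨?_, ?_, fun τ hτ => ⟨hw a ha τ hτ, ?_⟩⟩
    · rw [eval_ext]; exact h1
    · rw [hN a ha]; exact h2
    · rw [cost_ext, hN a ha]
      exact (h3 τ hτ).2
  refine Cp.bind (s := .int) (g := fun a => (F a).β) (Cp.lift hβ hw) ?_
  refine Cp.bind (s := .int) (g := fun a => (F a).α) (Cp.lift (Cp.wk hα) hw) ?_
  refine Cp.bind (s := .int) (g := fun a => ((F a).j : ℤ)) (Cp.lift (Cp.wk (Cp.wk hj)) hw) ?_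
  refine Cp.bind (s := .int) (g := fun a => ((F a).i : ℤ))
    (Cp.lift (Cp.wk (Cp.wk (Cp.wk hi))) hw) ?_
  refine Cp.bind (s := .int) (g := fun a => ((F a).s : ℤ))
    (Cp.lift (Cp.wk (Cp.wk (Cp.wk (Cp.wk hs)))) hw) ?_
  refine Cp.bind (s := .arr) (g := fun a => (F a).g)
    (Cp.lift (Cp.wk (Cp.wk (Cp.wk (Cp.wk (Cp.wk hg))))) hw) ?_
  refine Cp.bind (s := .arr) (g := fun a => (F a).M)
    (Cp.lift (Cp.wk (Cp.wk (Cp.wk (Cp.wk (Cp.wk (Cp.wk hM)))))) hw) ?_
  refine Cp.bind (s := .int) (g := fun a => ((F a).n : ℤ))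
    (Cp.lift (Cp.wk (Cp.wk (Cp.wk (Cp.wk (Cp.wk (Cp.wk (Cp.wk hn))))))) hw) ?_
  exact full

end Pool.Agent.MPa9445a.BE
end

section

/-! The steps of the main part are computed by programs: the balls. -/

set_option autoImplicit false

open Finset

namespace Pool.Agent.MPa9445a.BE

section

variable {A : Type} {N : A → ℕ} {D : A → Prop} {Γ : List Ty} {ρ : A → Env Γ} {F : A → In}
  (P : Prm)

theorem c_inb (hn : PN N D ρ (fun a => (F a).n)) (hb : Bd N D (fun a => (F a).n))
    (hW : PA N D ρ (fun a => LW (F a))) (hl : Bd N D (fun a => (LW (F a)).length))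
    (hB : PA N D ρ (fun a => bL (F a))) (hS : PA N D ρ (fun a => S3L (F a)))
    (hD : PI N D ρ (fun a => D2L (F a))) {c c' : A → ℕ} (hc : PN N D ρ c) (hc' : PN N D ρ c') :
    PI N D ρ (fun a => inb P (F a) (c a) (c' a)) := by
  have h1 := PA.dec hn hb hW hl hc
  have h2 := PA.dec hn hb hW hl hc'
  have hs : ∀ {x : A → List ℤ}, PA N D ρ x →
      PI N D ρ (fun a => ∑ v ∈ range (F a).n, gt (x a) v) := by
    intro x hx
    exact PI.sum hn hb fun _ _ up hv => PI.get (up.a hx) hv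
  refine Cp.ite (PB.and (PB.eq (hs h2) (hs h1))
    (PB.and (PB.eq (PI.ipL hn hb hB h2) (PI.ipL hn hb hB h1)) (PB.le ?_ ?_))) (PI.const 1)
    (PI.const 0)
  · exact PI.mul (PI.mul (PI.const _) (PI.pow hn 2)) (PI.nsL hn hb hS h2 h1)
  · exact PI.mul (PI.const _) (PI.pow hD 3)

theorem c_en (hn : PN N D ρ (fun a => (F a).n)) (hb : Bd N D (fun a => (F a).n))
    (hW : PA N D ρ (fun a => LW (F a))) (hl : Bd N D (fun a => (LW (F a)).length))
    (hS : PA N D ρ (fun a => SL (F a))) {c : A → ℕ} (hc : PN N D ρ c) :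
    PI N D ρ (fun a => en (F a) (c a)) :=
  PI.qfL hn hb hS (PA.dec hn hb hW hl hc)

end

section

variable {D : In → Prop} {Γ : List Ty} {ρ : In → Env Γ} (P : Prm)

/-- The weight of a loop over the vectors of the blocks `i`, `j`. -/
noncomputable def w1 : ℝ → In → ℝ := fun _ a => (nw a : ℝ) + 1

theorem one_le_w1 (a : In) (τ : ℝ) : 1 ≤ w1 τ a := by
  unfold w1
  have : (0 : ℝ) ≤ (nw a : ℝ) := Nat.cast_nonneg _
  linarith

/-- The weight of the table of the kept vectors. -/
noncomputable def w2 : ℝ → In → ℝ := fun τ a => ((nw a : ℝ) + 1) * w1 τ a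

theorem c_KT (h : Av D ρ) (hS : PA In.n D ρ SL) (hS3 : PA In.n D ρ S3L) (hD2 : PI In.n D ρ D2L)
    (hB : PA In.n D ρ bL) (hW : PA In.n D ρ LW) : Cp In.n D ρ w2 .arr (KT P) := by
  have hl := bd_LW (D := D)
  have hk : PN In.n D ρ nw := by
    have := PN.pow2 (PN.len hW) hl
    refine Cp.congr this fun a _ => ?_
    simp [nw]
  refine Cp.tab (w := w1) hk (fun a _ τ _ => one_le_w1 a τ) fun Γ1 ρ1 up hc => ?_
  have hbn := (Bd.self (N := In.n) (D := D)).up nw
  have hbl := hl.up nw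
  have q1 : ∀ {Γ2 : List Ty} {ρ2 : (In × ℕ) × ℕ → Env Γ2},
      Up (NL In.n) (DL D nw) ρ1 (fun p => nw p.1) ρ2 →
      PN (NL (NL In.n)) (DL (DL D nw) (fun p => nw p.1)) ρ2
        (fun q => q.2) →
      PI (NL (NL In.n)) (DL (DL D nw) (fun p => nw p.1)) ρ2
        (fun q => inb P q.1.1 q.1.2 q.2) := by
    intro Γ2 ρ2 up2 hc'
    exact c_inb (F := fun q : (In × ℕ) × ℕ => q.1.1) (c := fun q => q.1.2) (c' := fun q => q.2) P
      (up2.n (up.n h.n)) (hbn.up _) (up2.a (up.a hW)) (hbl.up _) (up2.a (up.a hB))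
      (up2.a (up.a hS3)) (up2.i (up.i hD2)) (up2.n hc) hc'
  have q2 : ∀ {Γ2 : List Ty} {ρ2 : (In × ℕ) × ℕ → Env Γ2},
      Up (NL In.n) (DL D nw) ρ1 (fun p => nw p.1) ρ2 →
      PN (NL (NL In.n)) (DL (DL D nw) (fun p => nw p.1)) ρ2
        (fun q => q.2) →
      PI (NL (NL In.n)) (DL (DL D nw) (fun p => nw p.1)) ρ2
        (fun q => en q.1.1 q.2) := by
    intro Γ2 ρ2 up2 hc'
    exact c_en (F := fun q : (In × ℕ) × ℕ => q.1.1) (c := fun q => q.2)
      (up2.n (up.n h.n)) (hbn.up _) (up2.a (up.a hW)) (hbl.up _) (up2.a (up.a hS)) hc'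
  have e1 : Cp (NL In.n) (DL D nw) ρ1 (fun τ p => w1 τ p.1) .int
      (fun p => nb P p.1 p.2) := by
    have hb : Body (NL In.n) (DL D nw) ρ1 (fun p => nw p.1) one .int
        (fun p c' => inb P p.1 p.2 c') := by
      intro Γ2 ρ2 up2 hc'
      exact q1 up2 hc'
    have := Cp.sum (up.n hk) (fun _ _ _ _ => le_refl _) hb
    exact this.mono fun p _ τ _ => by simp [w1, one]
  have e2 : Cp (NL In.n) (DL D nw) ρ1 (fun τ p => w1 τ p.1) .int
      (fun p => sb P p.1 p.2) := by
    have hb : Body (NL In.n) (DL D nw) ρ1 (fun p => nw p.1) one .int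
        (fun p c' => inb P p.1 p.2 c' * en p.1 c') := by
      intro Γ2 ρ2 up2 hc'
      exact PI.mul (q1 up2 hc') (q2 up2 hc')
    have := Cp.sum (up.n hk) (fun _ _ _ _ => le_refl _) hb
    exact this.mono fun p _ τ _ => by simp [w1, one]
  have e3 : PI (NL In.n) (DL D nw) ρ1 (fun p => en p.1 p.2) :=
    c_en (F := fun q : In × ℕ => q.1) (c := fun q => q.2) (up.n h.n) hbn (up.a hW) hbl (up.a hS) hc
  refine e1.store fun Γ2 ρ2 k2 f1 => ?_
  refine (k2 _ _ _ e2).store fun Γ3 ρ3 k3 f2 => ?_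
  have g1 : PI (NL In.n) (DL D nw) ρ3 (fun p => nb P p.1 p.2) := k3.i f1
  have g3 : PI (NL In.n) (DL D nw) ρ3 (fun p => en p.1 p.2) :=
    k3.i (k2.i e3)
  have gn : PN (NL In.n) (DL D nw) ρ3 (fun p => p.1.n) :=
    k3.n (k2.n (up.n h.n))
  have gD : PI (NL In.n) (DL D nw) ρ3 (fun p => D2L p.1) :=
    k3.i (k2.i (up.i hD2))
  have gk : PN (NL In.n) (DL D nw) ρ3 (fun p => nw p.1) :=
    k3.n (k2.n (up.n hk))
  have ge : PN (NL In.n) (DL D nw) ρ3
      (fun p => 2 ^ (P.p.p3 * p.1.n / P.p.q3)) := by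
    refine PN.pow2 (PN.div (PN.mul (PN.const _) gn) (PN.const _)) ?_
    exact Bd.le ((Bd.const P.p.p3).mul hbn) fun p _ => Nat.div_le_self _ _
  refine Cp.lift ?_ fun p _ τ _ => one_le_w1 p.1 τ
  refine Cp.congr (Cp.ite (PB.or (PB.le (PI.mul g1 ge) gk)
    (PB.lt (PI.mul (PI.mul (PI.mul (PI.const P.p.p2) gD) gn) (PI.pow g1 2))
      (PI.mul (PI.const P.p.q2) (PI.pow (PI.sub (PI.mul g1 g3) f2) 2)))) (PI.const 1)
        (PI.const 0)) fun p _ => ?_
  simp [kt]

end

end Pool.Agent.MPa9445a.BE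
end

section

section

/-! Maxima are minimum bisections. -/

set_option autoImplicit false

open Finset

namespace Pool.Agent.MPa9445a.BE

variable {n : ℕ}

/-- The matrix of the weights. -/
private theorem B9a_wtm (G : SimpleGraph (Fin n)) {M : List ℤ} (hA : fm n M = adjZ G)
    (u v : Fin n) : wtm n M u v = if u = v then 0 else adjZ G u v - (n : ℤ) ^ 2 := by
  have h := congrFun (congrFun hA u) v
  unfold fm at h
  unfold wtm wt
  rw [h]
  by_cases huv : u = v
  · rw [if_pos huv, if_pos (congrArg Fin.val huv)]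
  · rw [if_neg huv, if_neg fun h' => huv (Fin.ext h')]

private theorem B9a_ne (G : SimpleGraph (Fin n)) : ∑ u, ∑ v, adjZ G u v = 2 * (ne G : ℤ) := by
  have h := sum_adjR_sq G
  have h1 : ((∑ u, ∑ v, adjZ G u v : ℤ) : ℝ) = ((2 * (ne G : ℤ) : ℤ) : ℝ) := by
    push_cast
    rw [← h]
    refine sum_congr rfl fun u _ => sum_congr rfl fun v _ => ?_
    unfold adjZ adjR
    split_ifs <;> norm_num
  exact_mod_cast h1

private theorem B9a_adj_symm (G : SimpleGraph (Fin n)) (u v : Fin n) :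
    adjZ G u v = adjZ G v u := by
  unfold adjZ
  by_cases h : G.Adj u v
  · rw [if_pos h, if_pos h.symm]
  · rw [if_neg h, if_neg fun h' => h h'.symm]

private theorem B9a_adj_self (G : SimpleGraph (Fin n)) (u : Fin n) : adjZ G u u = 0 := by
  unfold adjZ
  rw [if_neg (G.loopless.irrefl u)]

private theorem B9a_cut (G : SimpleGraph (Fin n)) (X : Finset (Fin n)) :
    ((cut G X : ℕ) : ℤ) =
      ∑ u, ∑ v, adjZ G u v * ((if u ∈ X then 1 else 0) * (1 - if v ∈ X then 1 else 0)) := by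
  classical
  have h1 : ∀ u : Fin n, (∑ v, adjZ G u v * ((if u ∈ X then 1 else 0) *
      (1 - if v ∈ X then 1 else 0)) : ℤ) =
      if u ∈ X then ∑ v ∈ Xᶜ, adjZ G u v else 0 := by
    intro u
    by_cases hu : u ∈ X
    · rw [if_pos hu, if_pos hu]
      rw [← Finset.sum_subset (Finset.subset_univ Xᶜ)]
      · refine sum_congr rfl fun v hv => ?_
        rw [Finset.mem_compl] at hv
        rw [if_neg hv]
        ring
      · intro v _ hv
        rw [Finset.mem_compl, not_not] at hv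
        rw [if_pos hv]
        ring
    · rw [if_neg hu, if_neg hu]
      exact Finset.sum_eq_zero fun v _ => by ring
  rw [sum_congr rfl fun u _ => h1 u, ← Finset.sum_filter]
  unfold cut
  push_cast
  have h2 : (univ.filter fun u : Fin n => u ∈ X) = X := by
    ext u
    simp
  rw [h2]
  refine sum_congr rfl fun u _ => sum_congr rfl fun v _ => ?_
  unfold adjZ
  rfl

private theorem B9a_sum (X : Finset (Fin n)) :
    ∑ v : Fin n, (if v ∈ X then 1 else -1 : ℤ) = 2 * (X.card : ℤ) - n := by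
  have h1 : ∀ v : Fin n, (if v ∈ X then 1 else -1 : ℤ) = 2 * (if v ∈ X then 1 else 0) - 1 := by
    intro v
    split_ifs <;> norm_num
  rw [sum_congr rfl fun v _ => h1 v, Finset.sum_sub_distrib, ← Finset.mul_sum,
    Finset.sum_boole]
  simp

/-- PROOF. `∑ adj x x = 2 ne G - 4 cut X` for `x = 1` on `X`, `-1` outside. So `bq W x x = 2 ne G - 4 cut X - n² ((2 #X - n)² - n)`. -/
theorem bq_cut (G : SimpleGraph (Fin n)) {M : List ℤ} (hA : fm n M = adjZ G)
    (X : Finset (Fin n)) :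
    bq (wtm n M) (fun v => if v ∈ X then 1 else -1) (fun v => if v ∈ X then 1 else -1) =
      2 * (ne G : ℤ) - 4 * cut G X - (n : ℤ) ^ 2 * ((2 * (X.card : ℤ) - n) ^ 2 - n) := by
  obtain ⟨x, hx⟩ : ∃ x : Fin n → ℤ, x = fun v => if v ∈ X then 1 else -1 := ⟨_, rfl⟩
  rw [← hx]
  have hx1 : ∀ v, x v * x v = 1 := by
    intro v
    rw [hx]
    simp only
    split_ifs <;> norm_num
  have hxs : ∑ v, x v = 2 * (X.card : ℤ) - n := by
    rw [hx]
    exact B9a_sum X
  have h1 : ∀ u v, wtm n M u v * x u * x v =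
      adjZ G u v * (x u * x v) - (n : ℤ) ^ 2 * (x u * x v) + if u = v then (n : ℤ) ^ 2 else 0 := by
    intro u v
    rw [B9a_wtm G hA]
    by_cases huv : u = v
    · subst huv
      rw [if_pos rfl, if_pos rfl, B9a_adj_self, hx1]
      ring
    · rw [if_neg huv, if_neg huv]
      ring
  have h2 : ∑ u, ∑ v, adjZ G u v * (x u * x v) = 2 * (ne G : ℤ) - 4 * cut G X := by
    have e1 : ∀ u v, adjZ G u v * (x u * x v) = adjZ G u v -
        2 * (adjZ G u v * ((if u ∈ X then 1 else 0) * (1 - if v ∈ X then 1 else 0))) -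
        2 * (adjZ G v u * ((if v ∈ X then 1 else 0) * (1 - if u ∈ X then 1 else 0))) := by
      intro u v
      rw [B9a_adj_symm G v u, hx]
      simp only
      split_ifs <;> ring
    have e2 : ∑ u, ∑ v, adjZ G v u * ((if v ∈ X then 1 else 0) *
        (1 - if u ∈ X then 1 else 0)) = ((cut G X : ℕ) : ℤ) := by
      rw [Finset.sum_comm, B9a_cut]
    simp only [e1, Finset.sum_sub_distrib, ← Finset.mul_sum]
    rw [B9a_ne, e2, ← B9a_cut]
    ring
  have h3 : ∑ u, x u * ∑ v, x v = (2 * (X.card : ℤ) - n) ^ 2 := by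
    rw [← Finset.sum_mul, hxs, sq]
  have h4 : ∑ u : Fin n, ∑ v : Fin n, (if u = v then (n : ℤ) ^ 2 else 0) = n * (n : ℤ) ^ 2 := by
    simp
  unfold bq
  simp only [h1, Finset.sum_add_distrib, Finset.sum_sub_distrib, ← Finset.mul_sum]
  rw [h2, h3, h4]
  ring

/-- PROOF. `bq_cut`; `cut G X ≤ n²` and `(2 #X - n)² ≥ 4` if `2 #X ≠ n` (`n` even), compare with a bisection. -/
theorem min_of_max (hn : Even n) (G : SimpleGraph (Fin n)) {M : List ℤ} (hA : fm n M = adjZ G)
    {X : Finset (Fin n)} (hmax : ∀ y ∈ Om (univ : Finset (Fin n)), bq (wtm n M) y y ≤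
      bq (wtm n M) (fun v => if v ∈ X then 1 else -1) (fun v => if v ∈ X then 1 else -1)) :
    IsMinBisection G X := by
  classical
  have hf : ∀ Y : Finset (Fin n),
      2 * (ne G : ℤ) - 4 * cut G Y - (n : ℤ) ^ 2 * ((2 * (Y.card : ℤ) - n) ^ 2 - n) ≤
      2 * (ne G : ℤ) - 4 * cut G X - (n : ℤ) ^ 2 * ((2 * (X.card : ℤ) - n) ^ 2 - n) := by
    intro Y
    rw [← bq_cut G hA Y, ← bq_cut G hA X]
    refine hmax _ ?_
    unfold Om
    rw [Fintype.mem_piFinset]
    intro v
    rw [if_pos (Finset.mem_univ v)]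
    split_ifs <;> simp
  have hX : 2 * X.card = n := by
    by_contra hne
    obtain ⟨k, hk⟩ := hn
    obtain ⟨Y, -, hY⟩ := Finset.exists_subset_card_eq (s := (univ : Finset (Fin n))) (n := k)
      (by rw [Finset.card_univ, Fintype.card_fin]; omega)
    have h1 := hf Y
    have hYc : (Yᶜ).card = k := by
      rw [Finset.card_compl, hY, Fintype.card_fin]
      omega
    have h2 : cut G Y ≤ k * k := by
      unfold cut
      calc ∑ u ∈ Y, ∑ v ∈ Yᶜ, (if G.Adj u v then 1 else 0)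
          ≤ ∑ u ∈ Y, ∑ v ∈ Yᶜ, 1 := by
            refine Finset.sum_le_sum fun u _ => Finset.sum_le_sum fun v _ => ?_
            split_ifs <;> norm_num
        _ = k * k := by
            rw [Finset.sum_const, Finset.sum_const, hY, hYc]
            simp
    have h2' : ((cut G Y : ℕ) : ℤ) ≤ (k : ℤ) * k := by exact_mod_cast h2
    have hn' : (n : ℤ) = 2 * k := by
      rw [hk]
      push_cast
      ring
    have h3 : (2 * (Y.card : ℤ) - n) = 0 := by
      rw [hY, hn']
      ring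
    have h4 : (4 : ℤ) ≤ (2 * (X.card : ℤ) - n) ^ 2 := by
      obtain ⟨z, hz⟩ : ∃ z : ℤ, z = (X.card : ℤ) - k := ⟨_, rfl⟩
      have h5 : (2 * (X.card : ℤ) - n) ^ 2 = 4 * z ^ 2 := by
        rw [hn', hz]
        ring
      have h6 : z ≠ 0 := by
        intro h7
        apply hne
        rw [hz] at h7
        omega
      have h8 : 1 ≤ z ^ 2 := by
        have := sq_nonneg z
        have h9 : z ^ 2 ≠ 0 := pow_ne_zero 2 h6
        omega
      linarith
    have h10 : (0 : ℤ) ≤ (cut G X : ℕ) := Int.natCast_nonneg _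
    rw [h3] at h1
    have hk0 : (1 : ℤ) ≤ k := by
      rcases Nat.eq_zero_or_pos k with h0 | h0
      · exfalso
        apply hne
        have : X.card ≤ n := by
          have h11 := Finset.card_le_univ X
          rwa [Fintype.card_fin] at h11
        omega
      · exact_mod_cast h0
    have h12 := mul_le_mul_of_nonneg_left h4 (sq_nonneg (n : ℤ))
    rw [hn'] at h1 h12
    nlinarith [h1, h12, h2', h10, hk0]
  refine ⟨hX, fun Y hY => ?_⟩
  have h1 := hf Y
  have hX' : (2 * (X.card : ℤ) - n) = 0 := by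
    have : ((2 * X.card : ℕ) : ℤ) = n := by exact_mod_cast hX
    push_cast at this
    linarith
  have hY' : (2 * (Y.card : ℤ) - n) = 0 := by
    have : ((2 * Y.card : ℕ) : ℤ) = n := by exact_mod_cast hY
    push_cast at this
    linarith
  rw [hX', hY'] at h1
  have h2 : ((cut G X : ℕ) : ℤ) ≤ (cut G Y : ℕ) := by linarith
  exact_mod_cast h2

/-- A maximum has sum zero. PROOF. `min_of_max` for `X = {v | x v = 1}`. -/
theorem sum_of_max (hn : Even n) (G : SimpleGraph (Fin n)) {M : List ℤ} (hA : fm n M = adjZ G)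
    {x : Fin n → ℤ} (hx : x ∈ Om (univ : Finset (Fin n)))
    (hmax : ∀ y ∈ Om (univ : Finset (Fin n)), bq (wtm n M) y y ≤ bq (wtm n M) x x) :
    ∑ v, x v = 0 := by
  classical
  have h1 : ∀ v, x v = 1 ∨ x v = -1 := by
    intro v
    unfold Om at hx
    rw [Fintype.mem_piFinset] at hx
    have h2 := hx v
    rw [if_pos (Finset.mem_univ v)] at h2
    simpa using h2
  obtain ⟨X, hX⟩ : ∃ X : Finset (Fin n), X = univ.filter fun v => x v = 1 := ⟨_, rfl⟩
  have h3 : x = fun v => if v ∈ X then 1 else -1 := by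
    funext v
    rw [hX]
    simp only [Finset.mem_filter, Finset.mem_univ, true_and]
    rcases h1 v with h | h
    · rw [h, if_pos rfl]
    · rw [h, if_neg (by norm_num)]
  have h4 : IsMinBisection G X := by
    refine min_of_max hn G hA ?_
    rw [← h3]
    exact hmax
  rw [h3, B9a_sum X]
  have h5 : ((2 * X.card : ℕ) : ℤ) = n := by exact_mod_cast h4.1
  push_cast at h5
  linarith

end Pool.Agent.MPa9445a.BE
end

section

/-! The three parts. -/

set_option autoImplicit false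

open Finset

namespace Pool.Agent.MPa9445a.BE

private theorem B2_or (p q r : ℕ → Prop) [DecidablePred p] [DecidablePred q] [DecidablePred r]
    (h : ∀ i, p i → q i ∨ r i) (n : ℕ) : ((List.range n).filter fun i => decide (p i)).length ≤
      ((List.range n).filter fun i => decide (q i)).length +
        ((List.range n).filter fun i => decide (r i)).length := by
  induction n with
  | zero => simp
  | succ n ih =>
    simp only [List.range_succ, List.filter_append, List.length_append, List.filter_cons,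
      List.filter_nil]
    have h1 := h n
    by_cases hp : p n <;> by_cases hq : q n <;> by_cases hr : r n <;> simp_all <;> omega

private theorem B2_cnt (r n : ℕ) (hr : r < 8) :
    ((List.range n).filter fun v => decide (v % 8 = r)).length = (n + 7 - r) / 8 := by
  induction n with
  | zero =>
    simp only [List.range_zero, List.filter_nil, List.length_nil]
    omega
  | succ n ih =>
    simp only [List.range_succ, List.filter_append, List.length_append, List.filter_cons,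
      List.filter_nil, ih]
    by_cases hp : n % 8 = r
    · simp only [hp, decide_true, if_true, List.length_cons, List.length_nil]
      omega
    · simp only [hp, decide_false, Bool.false_eq_true, if_false, List.length_nil]
      omega

private theorem B2_cnt' (r n : ℕ) :
    ((List.range n).filter fun v => decide (v % 8 = r)).length ≤ (n + 7) / 8 := by
  by_cases hr : r < 8
  · rw [B2_cnt r n hr]
    omega
  · have h1 : ((List.range n).filter fun v => decide (v % 8 = r)) = [] := by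
      rw [List.filter_eq_nil_iff]
      intro v _
      have : v % 8 ≠ r := by omega
      simpa using this
    rw [h1]
    exact Nat.zero_le _

private theorem B2_LW (a : In) : (LW a).length ≤ a.n / 4 + 2 := by
  unfold LW flt
  rw [List.length_map]
  have h1 := B2_or (fun v => gt a.g v = 0 ∧ (v % 8 = a.i ∨ v % 8 = a.j)) (fun v => v % 8 = a.i)
    (fun v => v % 8 = a.j) (fun v hv => hv.2) a.n
  have h2 := B2_cnt' a.i a.n
  have h3 := B2_cnt' a.j a.n
  exact h1.trans (by omega)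

private theorem B2_VL (a : In) (s k : ℕ) (hk : s + k ≤ (LW a).length + (LR a).length) :
    VL a.n (tb k fun x => ordL a (s + x)) := by
  constructor
  · unfold tb
    refine List.Nodup.map_on ?_ List.nodup_range
    intro x hx y hy hxy
    rw [List.mem_range] at hx hy
    have := ordL_inj a (x := s + x) (y := s + y) (by omega) (by omega) hxy
    omega
  · intro z hz
    unfold tb at hz
    rw [List.mem_map] at hz
    obtain ⟨x, hx, rfl⟩ := hz
    rw [List.mem_range] at hx
    exact ordL_bd a (by omega)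

private theorem B2_mem (a : In) (s k : ℕ) (v : Fin a.n) :
    v ∈ st a.n (tb k fun x => ordL a (s + x)) ↔
      ∃ x, s ≤ x ∧ x < s + k ∧ ordL a x = ((v : ℕ) : ℤ) := by
  unfold st tb
  rw [Finset.mem_filter, List.mem_map]
  constructor
  · rintro ⟨_, x, hx, hxv⟩
    rw [List.mem_range] at hx
    exact ⟨s + x, by omega, by omega, hxv⟩
  · rintro ⟨x, h1, h2, h3⟩
    refine ⟨Finset.mem_univ _, x - s, List.mem_range.mpr (by omega), ?_⟩
    rw [show s + (x - s) = x by omega]
    exact h3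

section

variable {P : Prm} {a : In} {G : SimpleGraph (Fin a.n)}

/-- PROOF. `card_LW_LR`, `#fr = n - #H ≥ n - n / 100`; `length_LW ≤ n / 4 + 2 ≤ n / 3` (count: the number of `v < n` with `v % 8 = i ∨ v % 8 = j`), `n ≥ 100`. -/
theorem sizes (h : Dom P a G) : (LW a).length ≤ n1 P a ∧
    n1 P a + n2 P a + n3 P a = (LW a).length + (LR a).length := by
  have h1 := B2_LW a
  have h2 := card_LW_LR a
  have h3 := h.n100
  have h4 : a.n / P.m ≤ a.n / 100 := Nat.div_le_div_left h.m100 (by norm_num)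
  have h5 : (fr a).card + (univ.filter fun v : Fin a.n => fv a.n a.g v ≠ 0).card = a.n := by
    unfold fr
    have := Finset.card_filter_add_card_filter_not (s := (univ : Finset (Fin a.n)))
      (fun v => fv a.n a.g v = 0)
    rw [Finset.card_univ, Fintype.card_fin] at this
    exact this
  have h6 : (univ.filter fun v : Fin a.n => fv a.n a.g v ≠ 0).card * 100 ≤ a.n :=
    (Nat.mul_le_mul_left _ h.M100).trans h.gH
  unfold n3 n1 n2
  generalize a.n / P.m = y at *
  generalize (univ.filter fun v : Fin a.n => fv a.n a.g v ≠ 0).card = z at *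
  constructor <;> omega

private theorem B2_L1 : L1 P a = tb (n1 P a) fun x => ordL a (0 + x) := by
  unfold L1
  simp only [Nat.zero_add]

/-- PROOF. `ordL_inj`, `ordL_bd`, `sizes`. -/
theorem VL_parts (h : Dom P a G) :
    VL a.n (LW a) ∧ VL a.n (L1 P a) ∧ VL a.n (L2 P a) ∧ VL a.n (L3 P a) := by
  obtain ⟨h1, h2⟩ := sizes h
  refine ⟨VL_flt _ _, ?_, ?_, ?_⟩
  · rw [B2_L1]
    exact B2_VL a 0 (n1 P a) (by omega)
  · exact B2_VL a (n1 P a) (n2 P a) (by omega)
  · exact B2_VL a (n1 P a + n2 P a) (n3 P a) (by omega)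

/-- PROOF. `ordL_mem`, `ordL_inj`, `sizes`. -/
theorem st_parts (h : Dom P a G) :
    st a.n (L1 P a) ∪ st a.n (L2 P a) ∪ st a.n (L3 P a) = fr a ∧
      Disjoint (st a.n (L1 P a)) (st a.n (L2 P a)) ∧
      Disjoint (st a.n (L1 P a)) (st a.n (L3 P a)) ∧
      Disjoint (st a.n (L2 P a)) (st a.n (L3 P a)) := by
  obtain ⟨h1, h2⟩ := sizes h
  have m1 : ∀ v : Fin a.n, v ∈ st a.n (L1 P a) ↔
      ∃ x, 0 ≤ x ∧ x < 0 + n1 P a ∧ ordL a x = ((v : ℕ) : ℤ) := fun v => by
    rw [B2_L1]
    exact B2_mem a 0 (n1 P a) v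
  have m2 : ∀ v : Fin a.n, v ∈ st a.n (L2 P a) ↔
      ∃ x, n1 P a ≤ x ∧ x < n1 P a + n2 P a ∧ ordL a x = ((v : ℕ) : ℤ) := fun v =>
    B2_mem a (n1 P a) (n2 P a) v
  have m3 : ∀ v : Fin a.n, v ∈ st a.n (L3 P a) ↔
      ∃ x, n1 P a + n2 P a ≤ x ∧ x < n1 P a + n2 P a + n3 P a ∧ ordL a x = ((v : ℕ) : ℤ) :=
    fun v => B2_mem a (n1 P a + n2 P a) (n3 P a) v
  refine ⟨?_, ?_, ?_, ?_⟩
  · ext v
    rw [Finset.mem_union, Finset.mem_union, m1, m2, m3, ordL_mem]
    constructor
    · rintro ((⟨x, _, hx, hv⟩ | ⟨x, _, hx, hv⟩) | ⟨x, _, hx, hv⟩)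
      · exact ⟨x, by omega, hv⟩
      · exact ⟨x, by omega, hv⟩
      · exact ⟨x, by omega, hv⟩
    · rintro ⟨x, hx, hv⟩
      by_cases c1 : x < n1 P a
      · exact Or.inl (Or.inl ⟨x, by omega, by omega, hv⟩)
      · by_cases c2 : x < n1 P a + n2 P a
        · exact Or.inl (Or.inr ⟨x, by omega, by omega, hv⟩)
        · exact Or.inr ⟨x, by omega, by omega, hv⟩
  · rw [Finset.disjoint_left]
    intro v hv hv'
    obtain ⟨x, hx1, hx2, hx⟩ := (m1 v).1 hv
    obtain ⟨y, hy1, hy2, hy⟩ := (m2 v).1 hv'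
    have := ordL_inj a (x := x) (y := y) (by omega) (by omega) (hx.trans hy.symm)
    omega
  · rw [Finset.disjoint_left]
    intro v hv hv'
    obtain ⟨x, hx1, hx2, hx⟩ := (m1 v).1 hv
    obtain ⟨y, hy1, hy2, hy⟩ := (m3 v).1 hv'
    have := ordL_inj a (x := x) (y := y) (by omega) (by omega) (hx.trans hy.symm)
    omega
  · rw [Finset.disjoint_left]
    intro v hv hv'
    obtain ⟨x, hx1, hx2, hx⟩ := (m2 v).1 hv
    obtain ⟨y, hy1, hy2, hy⟩ := (m3 v).1 hv'
    have := ordL_inj a (x := x) (y := y) (by omega) (by omega) (hx.trans hy.symm)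
    omega

theorem L1_first (h : Dom P a G) : ∀ i < (LW a).length, gt (L1 P a) i = gt (LW a) i := by
  intro i hi
  have h1 := (sizes h).1
  unfold L1
  change (tb (n1 P a) fun x => ordL a x).getD i 0 = _
  rw [getD_tb, if_pos (by omega)]
  unfold ordL
  rw [if_pos hi]

theorem st_LW_sub (h : Dom P a G) : st a.n (LW a) ⊆ st a.n (L1 P a) := by
  intro v hv
  unfold st at hv ⊢
  rw [Finset.mem_filter] at hv ⊢
  refine ⟨Finset.mem_univ _, ?_⟩
  obtain ⟨i, hi, hiv⟩ := List.mem_iff_getElem.mp hv.2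
  have h1 := L1_first h i hi
  have h2 := (sizes h).1
  have h3 : (L1 P a).length = n1 P a := by
    unfold L1
    exact length_tb _ _
  have h4 : i < (L1 P a).length := by omega
  have h5 : gt (L1 P a) i = (L1 P a)[i] := List.getD_eq_getElem _ _ h4
  have h6 : gt (LW a) i = (LW a)[i] := List.getD_eq_getElem _ _ hi
  rw [← hiv, ← h6, ← h1, h5]
  exact List.getElem_mem h4

/-- The decomposition of a vector which extends the partial assignment. PROOF. `st_parts`. -/
theorem decomp (h : Dom P a G) {x : Fin a.n → ℤ} (hx : x ∈ Om (univ : Finset (Fin a.n)))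
    (hg : ∀ v, fv a.n a.g v ≠ 0 → x v = fv a.n a.g v) :
    x = fun v => fv a.n a.g v + rs (st a.n (L1 P a)) x v + rs (st a.n (L3 P a)) x v +
      rs (st a.n (L2 P a)) x v := by
  obtain ⟨hU, h12, h13, h23⟩ := st_parts h
  rw [Finset.disjoint_left] at h12 h13 h23
  have hU' : ∀ v, v ∈ st a.n (L1 P a) ∨ v ∈ st a.n (L2 P a) ∨ v ∈ st a.n (L3 P a) ↔
      fv a.n a.g v = 0 := by
    intro v
    have : v ∈ st a.n (L1 P a) ∪ st a.n (L2 P a) ∪ st a.n (L3 P a) ↔ v ∈ fr a := by rw [hU]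
    rw [Finset.mem_union, Finset.mem_union, or_assoc] at this
    rw [this]
    unfold fr
    simp
  funext v
  have h1 := hU' v
  have h2 := hg v
  have h3 := h12 (a := v)
  have h4 := h13 (a := v)
  have h5 := h23 (a := v)
  unfold rs
  by_cases c1 : v ∈ st a.n (L1 P a) <;> by_cases c2 : v ∈ st a.n (L2 P a) <;>
    by_cases c3 : v ∈ st a.n (L3 P a) <;> simp_all

/-- PROOF. `st_parts`, `mem_Om`. -/
theorem comp (h : Dom P a G) {y1 y2 y3 : Fin a.n → ℤ} (h1 : y1 ∈ Om (st a.n (L1 P a)))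
    (h2 : y2 ∈ Om (st a.n (L2 P a))) (h3 : y3 ∈ Om (st a.n (L3 P a))) :
    (fun v => fv a.n a.g v + y1 v + y3 v + y2 v) ∈ Om (univ : Finset (Fin a.n)) := by
  obtain ⟨hU, h12, h13, h23⟩ := st_parts h
  rw [Finset.disjoint_left] at h12 h13 h23
  have hU' : ∀ v, v ∈ st a.n (L1 P a) ∨ v ∈ st a.n (L2 P a) ∨ v ∈ st a.n (L3 P a) ↔
      fv a.n a.g v = 0 := by
    intro v
    have : v ∈ st a.n (L1 P a) ∪ st a.n (L2 P a) ∪ st a.n (L3 P a) ↔ v ∈ fr a := by rw [hU]
    rw [Finset.mem_union, Finset.mem_union, or_assoc] at this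
    rw [this]
    unfold fr
    simp
  rw [mem_Om] at h1 h2 h3 ⊢
  intro v
  refine ⟨fun _ => ?_, fun hv => absurd (Finset.mem_univ v) hv⟩
  have a1 := hU' v
  have a2 := h.g01 v
  have a3 := h12 (a := v)
  have a4 := h13 (a := v)
  have a5 := h23 (a := v)
  have a6 := h1 v
  have a7 := h2 v
  have a8 := h3 v
  by_cases c1 : v ∈ st a.n (L1 P a) <;> by_cases c2 : v ∈ st a.n (L2 P a) <;>
    by_cases c3 : v ∈ st a.n (L3 P a) <;> simp_all

end

end Pool.Agent.MPa9445a.BE
end

section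

/-! The balls and the test of the algorithm. -/

set_option autoImplicit false

open Finset

namespace Pool.Agent.MPa9445a.BE

section

variable {P : Prm} {a : In} {G : SimpleGraph (Fin a.n)}

/-- The matrix `S`. PROOF. `fm_tb`, `h.adj`; the condition is `fv g u ≠ 0 ∨ fv g v ≠ 0 ∨ u = v`. -/
theorem SL_eq (h : Dom P a G) (u v : Fin a.n) : fm a.n (SL a) u v =
    if fv a.n a.g u ≠ 0 ∨ fv a.n a.g v ≠ 0 ∨ u = v then 0
    else if a.s = 0 then adjZ G u v else adjZ G u v - 1 := by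
  have hv : (v : ℕ) < a.n := v.2
  have hn : 0 < a.n := lt_of_le_of_lt (Nat.zero_le _) hv
  have hd : ((u : ℕ) * a.n + v) / a.n = u := by
    rw [mul_comm, Nat.mul_add_div hn, Nat.div_eq_of_lt hv, add_zero]
  have hm : ((u : ℕ) * a.n + v) % a.n = v := by
    rw [mul_comm, Nat.mul_add_mod, Nat.mod_eq_of_lt hv]
  have hM : gt a.M ((u : ℕ) * a.n + v) = adjZ G u v := congrFun (congrFun h.adj u) v
  unfold SL
  rw [fm_tb]
  simp only [hd, hm, hM]
  have he : ((u : ℕ) = (v : ℕ)) ↔ u = v := Fin.ext_iff.symm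
  simp only [he]
  rfl

private theorem B3a_adj (u v : Fin a.n) : adjZ G u v = 0 ∨ adjZ G u v = 1 := by
  unfold adjZ
  split_ifs
  · exact Or.inr rfl
  · exact Or.inl rfl

private theorem B3a_symm (u v : Fin a.n) : adjZ G u v = adjZ G v u := by
  unfold adjZ
  by_cases h : G.Adj u v
  · rw [if_pos h, if_pos h.symm]
  · rw [if_neg h, if_neg fun h' => h h'.symm]

theorem Mat_SL (h : Dom P a G) : Mat (fm a.n (SL a)) := by
  refine ⟨fun u v => ?_, fun v => ?_, fun u v => ?_⟩
  · rw [SL_eq h, SL_eq h, B3a_symm u v]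
    by_cases h1 : fv a.n a.g u ≠ 0 ∨ fv a.n a.g v ≠ 0 ∨ u = v
    · have h2 : fv a.n a.g v ≠ 0 ∨ fv a.n a.g u ≠ 0 ∨ v = u := by
        rcases h1 with h1 | h1 | h1
        · exact Or.inr (Or.inl h1)
        · exact Or.inl h1
        · exact Or.inr (Or.inr h1.symm)
      rw [if_pos h1, if_pos h2]
    · have h2 : ¬(fv a.n a.g v ≠ 0 ∨ fv a.n a.g u ≠ 0 ∨ v = u) := by
        intro h2
        apply h1
        rcases h2 with h2 | h2 | h2
        · exact Or.inr (Or.inl h2)
        · exact Or.inl h2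
        · exact Or.inr (Or.inr h2.symm)
      rw [if_neg h1, if_neg h2]
  · rw [SL_eq h, if_pos (Or.inr (Or.inr rfl))]
  · rw [SL_eq h]
    split_ifs
    · simp
    · rcases B3a_adj (G := G) u v with h3 | h3 <;> rw [h3] <;> simp
    · rcases B3a_adj (G := G) u v with h3 | h3 <;> rw [h3] <;> simp

theorem S3L_eq (h : Dom P a G) : fm a.n (S3L a) = fm a.n (SL a) ^ 3 := by
  unfold S3L
  rw [fm_mulL, fm_mulL, pow_succ, pow_two]

/-- PROOF. `∑ x ∈ range (n * n)` is the double sum (`Finset.sum_range`, `finProdFinEquiv`, or `Nat.sum_range_mul`-like induction). -/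
theorem D2L_eq (h : Dom P a G) : D2L a = D2 (fm a.n (SL a)) := by
  unfold D2L D2
  rw [Finset.sum_range, ← finProdFinEquiv.sum_comp, Fintype.sum_prod_type]
  refine Finset.sum_congr rfl fun u _ => Finset.sum_congr rfl fun v _ => ?_
  have h1 : ((finProdFinEquiv (u, v) : Fin (a.n * a.n)) : ℕ) = (u : ℕ) * a.n + v := by
    rw [finProdFinEquiv_apply_val]
    ring
  rw [h1]
  rfl

/-- PROOF. `fv_tb`, `Finset.sum_range`. -/
theorem bL_eq (h : Dom P a G) (v : Fin a.n) : fv a.n (bL a) v =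
    if fv a.n a.g v = 0 then 2 * ∑ u, adjZ G u v * fv a.n a.g u else 0 := by
  unfold bL
  rw [fv_tb]
  have h1 : ∑ u ∈ range a.n, gt a.M (u * a.n + v) * gt a.g u =
      ∑ u, adjZ G u v * fv a.n a.g u := by
    rw [Finset.sum_range]
    refine Finset.sum_congr rfl fun u _ => ?_
    have hM : gt a.M ((u : ℕ) * a.n + v) = adjZ G u v := congrFun (congrFun h.adj u) v
    rw [hM]
    rfl
  rw [h1]
  rfl

/-- PROOF. `bL_eq`: at most `2 #H ≤ 2 n / 100`. -/
theorem bL_bd (h : Dom P a G) (v : Fin a.n) : |fv a.n (bL a) v| ≤ a.n := by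
  rw [bL_eq h]
  split_ifs
  · have h1 : |∑ u, adjZ G u v * fv a.n a.g u| ≤
        ∑ u : Fin a.n, if fv a.n a.g u ≠ 0 then (1 : ℤ) else 0 := by
      refine (Finset.abs_sum_le_sum_abs _ _).trans (Finset.sum_le_sum fun u _ => ?_)
      rw [abs_mul]
      rcases B3a_adj (G := G) u v with h3 | h3
      · rw [h3, abs_zero, zero_mul]
        split_ifs <;> norm_num
      · rw [h3, abs_one, one_mul]
        rcases h.g01 u with h4 | h4 | h4 <;> rw [h4] <;> simp
    have h2 : (∑ u : Fin a.n, if fv a.n a.g u ≠ 0 then (1 : ℤ) else 0) =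
        ((univ.filter fun v : Fin a.n => fv a.n a.g v ≠ 0).card : ℤ) := by
      rw [Finset.sum_ite, Finset.sum_const_zero, add_zero, Finset.sum_const, nsmul_eq_mul, mul_one]
    rw [h2] at h1
    have h3 := h.gH
    have h4 := h.M100
    have h5 : (univ.filter fun v : Fin a.n => fv a.n a.g v ≠ 0).card * 100 ≤ a.n :=
      (Nat.mul_le_mul_left _ h4).trans h3
    rw [abs_mul, abs_two]
    have h6 : ((univ.filter fun v : Fin a.n => fv a.n a.g v ≠ 0).card : ℤ) * 100 ≤ (a.n : ℤ) := by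
      exact_mod_cast h5
    have h7 : (0 : ℤ) ≤ ((univ.filter fun v : Fin a.n => fv a.n a.g v ≠ 0).card : ℤ) :=
      Int.natCast_nonneg _
    linarith
  · rw [abs_zero]
    exact Int.natCast_nonneg _

end

end Pool.Agent.MPa9445a.BE
end

section

/-! The second kind of candidates: the rest is edgeless or complete. -/

set_option autoImplicit false

open Finset

namespace Pool.Agent.MPa9445a.BE

variable {n : ℕ}

private theorem B8_eps (G : SimpleGraph (Fin n)) {H : Finset (Fin n)}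
    (hH : subG G H = ⊥ ∨ subG Gᶜ H = ⊥) :
    ∃ ε : ℤ, ∀ u v, u ∉ H → v ∉ H → adjZ G u v = if u = v then 0 else ε := by
  rcases hH with h | h
  · refine ⟨0, fun u v hu hv => ?_⟩
    have h1 : ¬ (subG G H).Adj u v := by
      rw [h]
      exact fun h => h
    have h2 : ¬ G.Adj u v := fun h2 => h1 ⟨h2, hu, hv⟩
    unfold adjZ
    rw [if_neg h2, ite_self]
  · refine ⟨1, fun u v hu hv => ?_⟩
    unfold adjZ
    by_cases huv : u = v
    · subst huv
      rw [if_neg (G.loopless.irrefl u), if_pos rfl]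
    · rw [if_neg huv]
      have h1 : ¬ (subG Gᶜ H).Adj u v := by
        rw [h]
        exact fun h => h
      have h2 : G.Adj u v := by
        by_contra h2
        exact h1 ⟨by rw [SimpleGraph.compl_adj]; exact ⟨huv, h2⟩, hu, hv⟩
      rw [if_pos h2]

private theorem B8_zz (B : Fin n → Fin n → ℤ) {H : Finset (Fin n)} {ε : ℤ}
    (hε : ∀ u v, u ∉ H → v ∉ H → B u v = if u = v then 0 else ε) (z : Fin n → ℤ)
    (hz : ∀ v ∈ H, z v = 0) :
    ∑ u, ∑ v, B u v * z u * z v = ε * ((∑ v, z v) ^ 2 - ∑ v, z v ^ 2) := by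
  have h1 : ∀ u v, B u v * z u * z v =
      ε * (z u * z v) - (if u = v then ε * z u ^ 2 else 0) := by
    intro u v
    by_cases hu : u ∈ H
    · rw [hz u hu]
      split_ifs <;> ring
    · by_cases hv : v ∈ H
      · rw [hz v hv]
        split_ifs with h
        · exfalso
          rw [h] at hu
          exact hu hv
        · ring
      · rw [hε u v hu hv]
        split_ifs with h
        · subst h
          ring
        · ring
  simp only [h1, Finset.sum_sub_distrib, Finset.sum_ite_eq, Finset.mem_univ, if_true]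
  rw [sq, Finset.sum_mul_sum, mul_sub, Finset.mul_sum, Finset.mul_sum]
  congr 1
  refine Finset.sum_congr rfl fun u _ => ?_
  rw [Finset.mul_sum]

private theorem B8_split (B : Fin n → Fin n → ℤ) (hB : ∀ u v, B u v = B v u)
    (g z : Fin n → ℤ) :
    ∑ u, ∑ v, B u v * (g u + z u) * (g v + z v) = ∑ u, ∑ v, B u v * g u * g v +
      2 * ∑ v, z v * (∑ u, B u v * g u) + ∑ u, ∑ v, B u v * z u * z v := by
  have h1 : ∀ u v, B u v * (g u + z u) * (g v + z v) =
      B u v * g u * g v + (B u v * g u * z v + B u v * z u * g v) + B u v * z u * z v := by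
    intro u v
    ring
  simp only [h1, Finset.sum_add_distrib]
  have h2 : ∑ u, ∑ v, B u v * g u * z v = ∑ v, z v * (∑ u, B u v * g u) := by
    rw [Finset.sum_comm]
    refine Finset.sum_congr rfl fun v _ => ?_
    rw [Finset.mul_sum]
    refine Finset.sum_congr rfl fun u _ => ?_
    ring
  have h3 : ∑ u, ∑ v, B u v * z u * g v = ∑ v, z v * (∑ u, B u v * g u) := by
    refine Finset.sum_congr rfl fun u _ => ?_
    rw [Finset.mul_sum]
    refine Finset.sum_congr rfl fun v _ => ?_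
    rw [hB u v]
    ring
  rw [h2, h3]
  ring

private theorem B8_w (G : SimpleGraph (Fin n)) {M : List ℤ} (hA : fm n M = adjZ G)
    {y : Fin n → ℤ} (hy : ∀ v, y v = 1 ∨ y v = -1) (hs : ∑ v, y v = 0) :
    bq (wtm n M) y y = ∑ u, ∑ v, adjZ G u v * y u * y v + (n : ℤ) ^ 2 * n := by
  have h1 : ∀ u v, wtm n M u v * y u * y v =
      adjZ G u v * y u * y v - (n : ℤ) ^ 2 * (y u * y v) + (if u = v then (n : ℤ) ^ 2 else 0) := by
    intro u v
    have h2 : gt M ((u : ℕ) * n + v) = adjZ G u v := congrFun (congrFun hA u) v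
    have h3 : y u * y u = 1 := by
      rcases hy u with h | h <;> rw [h] <;> norm_num
    unfold wtm wt
    rw [h2]
    by_cases h : u = v
    · subst h
      rw [if_pos rfl, if_pos rfl]
      have h4 : adjZ G u u = 0 := by
        unfold adjZ
        rw [if_neg (G.loopless.irrefl u)]
      rw [h4, h3]
      ring
    · rw [if_neg (fun h' => h (Fin.ext h')), if_neg h]
      ring
  unfold bq
  simp only [h1, Finset.sum_sub_distrib, Finset.sum_add_distrib, Finset.sum_ite_eq,
    Finset.mem_univ, if_true]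
  have h5 : ∑ u, ∑ v, (n : ℤ) ^ 2 * (y u * y v) = 0 := by
    have h6 : ∑ u, ∑ v, (n : ℤ) ^ 2 * (y u * y v) = (n : ℤ) ^ 2 * ((∑ v, y v) * (∑ v, y v)) := by
      rw [Finset.sum_mul_sum, Finset.mul_sum]
      refine Finset.sum_congr rfl fun u _ => ?_
      rw [Finset.mul_sum]
    rw [h6, hs]
    ring
  rw [h5, Finset.sum_const, Finset.card_univ, Fintype.card_fin, nsmul_eq_mul]
  ring

/-- The part of the vector outside `H`. -/
private def B8_z (H T : Finset (Fin n)) (v : Fin n) : ℤ :=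
  2 * (if v ∈ T then 1 else 0) - (if v ∈ Hᶜ then 1 else 0)

private theorem B8_zH {H T : Finset (Fin n)} (hT : T ⊆ Hᶜ) : ∀ v ∈ H, B8_z H T v = 0 := by
  intro v hv
  have h1 : v ∉ Hᶜ := by
    rw [Finset.mem_compl]
    exact fun h => h hv
  have h2 : v ∉ T := fun h => h1 (hT h)
  unfold B8_z
  rw [if_neg h1, if_neg h2]
  norm_num

private theorem B8_zs (H T : Finset (Fin n)) :
    ∑ v, B8_z H T v = 2 * (T.card : ℤ) - (Hᶜ.card : ℤ) := by
  unfold B8_z
  rw [Finset.sum_sub_distrib, ← Finset.mul_sum]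
  simp only [Finset.sum_ite_mem, Finset.univ_inter, Finset.sum_const, nsmul_eq_mul, mul_one]

private theorem B8_zq {H T : Finset (Fin n)} (hT : T ⊆ Hᶜ) :
    ∑ v, B8_z H T v ^ 2 = (Hᶜ.card : ℤ) := by
  have h1 : ∀ v, B8_z H T v ^ 2 = if v ∈ Hᶜ then 1 else 0 := by
    intro v
    unfold B8_z
    by_cases h : v ∈ Hᶜ
    · rw [if_pos h]
      split_ifs <;> norm_num
    · have h2 : v ∉ T := fun h' => h (hT h')
      rw [if_neg h, if_neg h2]
      norm_num
  rw [Finset.sum_congr rfl fun v _ => h1 v]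
  simp only [Finset.sum_ite_mem, Finset.univ_inter, Finset.sum_const, nsmul_eq_mul, mul_one]

private theorem B8_zf (H T : Finset (Fin n)) (f : Fin n → ℤ) :
    ∑ v, B8_z H T v * f v = 2 * ∑ v ∈ T, f v - ∑ v ∈ Hᶜ, f v := by
  have h1 : ∀ v, B8_z H T v * f v =
      2 * (if v ∈ T then f v else 0) - (if v ∈ Hᶜ then f v else 0) := by
    intro v
    unfold B8_z
    split_ifs <;> ring
  rw [Finset.sum_congr rfl fun v _ => h1 v, Finset.sum_sub_distrib, ← Finset.mul_sum]
  simp only [Finset.sum_ite_mem, Finset.univ_inter]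

private theorem B8_val {B : Fin n → Fin n → ℤ} (hB : ∀ u v, B u v = B v u)
    {H T : Finset (Fin n)} (hT : T ⊆ Hᶜ) {ε : ℤ}
    (hε : ∀ u v, u ∉ H → v ∉ H → B u v = if u = v then 0 else ε) (g : Fin n → ℤ) :
    ∑ u, ∑ v, B u v * (g u + B8_z H T u) * (g v + B8_z H T v) =
      ∑ u, ∑ v, B u v * g u * g v +
      2 * (2 * ∑ v ∈ T, (∑ u, B u v * g u) - ∑ v ∈ Hᶜ, (∑ u, B u v * g u)) +
      ε * ((2 * (T.card : ℤ) - (Hᶜ.card : ℤ)) ^ 2 - (Hᶜ.card : ℤ)) := by
  rw [B8_split B hB, B8_zz B hε _ (B8_zH hT), B8_zs, B8_zq hT, B8_zf]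

/-- The second candidate. PROOF. `U = univ \ H`, `f = bg`, `N = n / 2 - #{v ∈ H | x v = 1}`: since `∑ x = 0`, `N` is the number of `v ∈ U` with `x v = 1`, so `0 ≤ N ≤ #U`, and
the vector `x'` of the candidate (`vec_code`) has the entries of `x` on `H`, `1` on the `v ∈ U` of rank `< N` and `-1` on the others (`rk`, `np` count these sets). `∑ x' = 0`.
`bq W x x = ∑ adj x x - n² ((∑ x)² - n)`; `∑ adj x x = (terms in H) + 2 ∑ v ∈ U, bg v x v + ε ((∑_U x)² - #U)` with `ε = 0` (edgeless) or `1` (complete), and `∑ v ∈ U, bg v x v = 2 ∑ v ∈ T', bg v - ∑ v ∈ U, bg v`: `greedy`. -/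
theorem cand2_opt (hn : Even n) (G : SimpleGraph (Fin n)) {M : List ℤ} (hA : fm n M = adjZ G)
    {H : Finset (Fin n)} (hH : subG G H = ⊥ ∨ subG Gᶜ H = ⊥) {x : Fin n → ℤ}
    (hx : x ∈ Om (univ : Finset (Fin n))) (hs : ∑ v, x v = 0)
    {g : List ℤ} (hg : ∀ v, fv n g v = if v ∈ H then x v else 0) :
    bq (wtm n M) x x ≤ Phi n M (vec n (cand2 n M g)) := by
  obtain ⟨ε, hε⟩ := B8_eps G hH
  have hxv : ∀ v, x v = 1 ∨ x v = -1 := fun v => ((mem_Om.mp hx) v).1 (Finset.mem_univ v)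
  have hB : ∀ u v, adjZ G u v = adjZ G v u := by
    intro u v
    unfold adjZ
    by_cases h : G.Adj u v
    · rw [if_pos h, if_pos h.symm]
    · rw [if_neg h, if_neg fun h' => h h'.symm]
  set f : Fin n → ℤ := fun v => ∑ u, adjZ G u v * (if u ∈ H then x u else 0) with hf
  have hbg : ∀ v : Fin n, bg n M g (v : ℕ) = f v := by
    intro v
    unfold bg
    rw [Finset.sum_range, hf]
    refine Finset.sum_congr rfl fun u _ => ?_
    have h1 : gt M ((u : ℕ) * n + v) = adjZ G u v := congrFun (congrFun hA u) v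
    have h2 : gt g (u : ℕ) = if u ∈ H then x u else 0 := hg u
    rw [h1, h2]
  have hg0 : ∀ v : Fin n, gt g (v : ℕ) = 0 ↔ v ∈ Hᶜ := by
    intro v
    have h2 : gt g (v : ℕ) = if v ∈ H then x v else 0 := hg v
    rw [h2, Finset.mem_compl]
    by_cases h : v ∈ H
    · rw [if_pos h]
      constructor
      · intro h3
        rcases hxv v with h4 | h4 <;> rw [h4] at h3 <;> norm_num at h3
      · intro h3
        exact absurd h h3
    · rw [if_neg h]
      exact ⟨fun _ => h, fun _ => rfl⟩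
  set T' : Finset (Fin n) := Hᶜ.filter fun v => x v = 1 with hT'
  set N : ℕ := T'.card with hN
  have hNU : N ≤ Hᶜ.card := Finset.card_filter_le _ _
  set T : Finset (Fin n) :=
    Hᶜ.filter (fun v => (Hᶜ.filter fun u => f v < f u ∨ f u = f v ∧ u < v).card < N) with hT
  have hTc : T.card = N := card_rank Hᶜ f hNU
  have hTU : T ⊆ Hᶜ := Finset.filter_subset _ _
  have hTU' : T' ⊆ Hᶜ := Finset.filter_subset _ _
  have hrk : ∀ v : Fin n, rk n M g (v : ℕ) =
      ((Hᶜ.filter fun u => f v < f u ∨ f u = f v ∧ u < v).card : ℤ) := by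
    intro v
    unfold rk
    rw [Finset.sum_range, Finset.card_filter]
    push_cast
    have h1 : ∀ u : Fin n, (if gt g (u : ℕ) = 0 ∧ (bg n M g (v : ℕ) < bg n M g (u : ℕ) ∨
        bg n M g (u : ℕ) = bg n M g (v : ℕ) ∧ (u : ℕ) < v) then (1 : ℤ) else 0) =
        if u ∈ Hᶜ then (if f v < f u ∨ f u = f v ∧ u < v then 1 else 0) else 0 := by
      intro u
      rw [hbg, hbg]
      by_cases hu : u ∈ Hᶜ
      · rw [if_pos hu]
        have h2 := (hg0 u).mpr hu
        by_cases h3 : f v < f u ∨ f u = f v ∧ u < v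
        · rw [if_pos h3, if_pos ⟨h2, h3⟩]
        · rw [if_neg h3, if_neg fun h4 => h3 h4.2]
      · rw [if_neg hu, if_neg fun h4 => hu ((hg0 u).mp h4.1)]
    rw [Finset.sum_congr rfl fun u _ => h1 u]
    simp only [Finset.sum_ite_mem, Finset.univ_inter]
  have hcount : (n : ℤ) / 2 = ((H.filter fun v => x v = 1).card : ℤ) + N := by
    have h1 : ∀ v, x v = 2 * (if x v = 1 then 1 else 0) - 1 := by
      intro v
      rcases hxv v with h | h
      · rw [h]
        norm_num
      · rw [h]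
        norm_num
    have h2 : ∑ v, x v = 2 * ((univ.filter fun v => x v = 1).card : ℤ) - n := by
      rw [Finset.sum_congr rfl fun v _ => h1 v, Finset.sum_sub_distrib, ← Finset.mul_sum,
        Finset.card_filter]
      push_cast
      simp
    have h3 : (univ.filter fun v => x v = 1).card = (H.filter fun v => x v = 1).card + N := by
      rw [hN, hT', ← Finset.card_union_of_disjoint]
      · congr 1
        rw [← Finset.filter_union, Finset.union_compl]
      · apply Finset.disjoint_filter_filter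
        exact disjoint_compl_right
    rw [hs, h3] at h2
    push_cast at h2
    omega
  have hnp : np n g = (N : ℤ) := by
    unfold np
    rw [Finset.sum_range]
    have h1 : ∀ v : Fin n, (if gt g (v : ℕ) = 1 then (1 : ℤ) else 0) =
        if v ∈ H then (if x v = 1 then 1 else 0) else 0 := by
      intro v
      have h2 : gt g (v : ℕ) = if v ∈ H then x v else 0 := hg v
      rw [h2]
      by_cases h : v ∈ H
      · rw [if_pos h, if_pos h]
      · rw [if_neg h, if_neg h]
        norm_num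
    have h2 : ∑ v : Fin n, (if v ∈ H then (if x v = 1 then (1 : ℤ) else 0) else 0) =
        ((H.filter fun v => x v = 1).card : ℤ) := by
      simp only [Finset.sum_ite_mem, Finset.univ_inter]
      rw [Finset.card_filter]
      push_cast
      rfl
    rw [Finset.sum_congr rfl fun v _ => h1 v, h2]
    push_cast
    omega
  set g' : Fin n → ℤ := fun v => if v ∈ H then x v else 0 with hg'
  have hxe : ∀ v, x v = g' v + B8_z H T' v := by
    intro v
    rw [hg']
    dsimp only
    unfold B8_z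
    by_cases h : v ∈ H
    · have h1 : v ∉ Hᶜ := by
        rw [Finset.mem_compl]
        exact fun h' => h' h
      have h2 : v ∉ T' := fun h' => h1 (hTU' h')
      rw [if_pos h, if_neg h1, if_neg h2]
      ring
    · have h1 : v ∈ Hᶜ := Finset.mem_compl.mpr h
      rw [if_neg h, if_pos h1]
      rcases hxv v with h3 | h3
      · rw [if_pos (Finset.mem_filter.mpr ⟨h1, h3⟩), h3]
        norm_num
      · rw [if_neg, h3]
        · norm_num
        · intro h4
          have h5 := (Finset.mem_filter.mp h4).2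
          rw [h3] at h5
          norm_num at h5
  set xl : List ℤ := tb n fun v =>
    if gt g v ≠ 0 then gt g v else if rk n M g v < np n g then 1 else -1 with hxl
  have hye : ∀ v : Fin n, fv n xl v = g' v + B8_z H T v := by
    intro v
    rw [hxl, fv_tb, hg']
    dsimp only
    unfold B8_z
    by_cases h : v ∈ H
    · have h1 : v ∉ Hᶜ := by
        rw [Finset.mem_compl]
        exact fun h' => h' h
      have h2 : v ∉ T := fun h' => h1 (hTU h')
      have h3 : gt g (v : ℕ) ≠ 0 := fun h' => h1 ((hg0 v).mp h')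
      have h4 : gt g (v : ℕ) = if v ∈ H then x v else 0 := hg v
      rw [if_pos h3, h4, if_pos h, if_neg h1, if_neg h2]
      ring
    · have h1 : v ∈ Hᶜ := Finset.mem_compl.mpr h
      have h3 : ¬ gt g (v : ℕ) ≠ 0 := fun h' => h' ((hg0 v).mpr h1)
      rw [if_neg h3, if_neg h, if_pos h1, hrk, hnp]
      by_cases h5 : (Hᶜ.filter fun u => f v < f u ∨ f u = f v ∧ u < v).card < N
      · rw [if_pos (by exact_mod_cast h5), if_pos (Finset.mem_filter.mpr ⟨h1, h5⟩)]
        norm_num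
      · have h7 : v ∉ T := fun h6 => h5 (Finset.mem_filter.mp h6).2
        rw [if_neg (by exact_mod_cast h5), if_neg h7]
        norm_num
  have hy1 : ∀ v : Fin n, fv n xl v = 1 ∨ fv n xl v = -1 := by
    intro v
    rw [hxl, fv_tb]
    by_cases h3 : gt g (v : ℕ) ≠ 0
    · rw [if_pos h3]
      have h4 : gt g (v : ℕ) = if v ∈ H then x v else 0 := hg v
      have h : v ∈ H := by
        by_contra h
        exact h3 ((hg0 v).mpr (Finset.mem_compl.mpr h))
      rw [h4, if_pos h]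
      exact hxv v
    · rw [if_neg h3]
      by_cases h5 : rk n M g (v : ℕ) < np n g
      · rw [if_pos h5]
        exact Or.inl rfl
      · rw [if_neg h5]
        exact Or.inr rfl
  have hys : ∑ v, fv n xl v = 0 := by
    have h1 : ∑ v, x v = ∑ v, g' v + (2 * (N : ℤ) - (Hᶜ.card : ℤ)) := by
      rw [Finset.sum_congr rfl fun v _ => hxe v, Finset.sum_add_distrib, B8_zs]
    rw [Finset.sum_congr rfl fun v _ => hye v, Finset.sum_add_distrib, B8_zs, hTc, ← h1, hs]
  have hPhi : Phi n M (vec n (cand2 n M g)) = bq (wtm n M) (fv n xl) (fv n xl) := by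
    unfold Phi
    rw [bil_eq]
    have h1 : cand2 n M g = code n xl := rfl
    rw [h1, vec_code hy1]
  rw [hPhi, B8_w G hA hy1 hys, B8_w G hA hxv hs]
  have e1 : ∑ u, ∑ v, adjZ G u v * x u * x v =
      ∑ u, ∑ v, adjZ G u v * (g' u + B8_z H T' u) * (g' v + B8_z H T' v) := by
    refine Finset.sum_congr rfl fun u _ => Finset.sum_congr rfl fun v _ => ?_
    rw [← hxe u, ← hxe v]
  have e2 : ∑ u, ∑ v, adjZ G u v * fv n xl u * fv n xl v =
      ∑ u, ∑ v, adjZ G u v * (g' u + B8_z H T u) * (g' v + B8_z H T v) := by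
    refine Finset.sum_congr rfl fun u _ => Finset.sum_congr rfl fun v _ => ?_
    rw [← hye u, ← hye v]
  rw [e1, e2, B8_val hB hTU' hε g', B8_val hB hTU hε g', hTc, ← hN]
  have hgr : ∑ v ∈ T', f v ≤ ∑ v ∈ T, f v := greedy Hᶜ f hNU hTU' rfl
  have hgr2 : ∑ v ∈ T', (∑ u, adjZ G u v * g' u) ≤ ∑ v ∈ T, (∑ u, adjZ G u v * g' u) := hgr
  linarith

end Pool.Agent.MPa9445a.BE
end
end
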