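import Pool.Agent.Lib.MP_a9445a_lc.Mg.G116
import Pool.Agent.Lib.MP_a9445a_lc.BE.Cls
import Pool.Agent.Lib.MP_a9445a_lc.Mg.G114
import Pool.Agent.Lib.MP_a9445a_lc.Mg.G115

section

/-! The candidate is at least as good as the vector we look for. -/

set_option autoImplicit false

open Finset

namespace Pool.Agent.MPa9445a.BE

section

variable {P : Prm} {a : In} {G : SimpleGraph (Fin a.n)}

/-- The parts of a vector. -/
def p1 (P : Prm) (a : In) (x : Fin a.n → ℤ) : Fin a.n → ℤ := rs (st a.n (L1 P a)) x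
def p2 (P : Prm) (a : In) (x : Fin a.n → ℤ) : Fin a.n → ℤ := rs (st a.n (L2 P a)) x
def p3 (P : Prm) (a : In) (x : Fin a.n → ℤ) : Fin a.n → ℤ := rs (st a.n (L3 P a)) x

/-- The first number. -/
def alp (P : Prm) (a : In) (x : Fin a.n → ℤ) : ℤ :=
  bq (wtm a.n a.M) (p2 P a x) (fun v => 2 * (fv a.n a.g v + p1 P a x v) + p2 P a x v)

/-- The second number. -/
def bet (P : Prm) (a : In) (x : Fin a.n → ℤ) : ℤ := 2 * bq (wtm a.n a.M) (p2 P a x) (p3 P a x)

private theorem B5a_bq_bd {n : ℕ} {W : Matrix (Fin n) (Fin n) ℤ} {y z : Fin n → ℤ} {w A B : ℤ}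
    (hW : ∀ u v, |W u v| ≤ w) (hy : ∀ u, |y u| ≤ A) (hz : ∀ v, |z v| ≤ B) (hw : 0 ≤ w)
    (hA : 0 ≤ A) : |bq W y z| ≤ (n : ℤ) ^ 2 * (w * A * B) := by
  unfold bq
  calc |∑ u, ∑ v, W u v * y u * z v| ≤ ∑ u : Fin n, ∑ v : Fin n, w * A * B := by
        refine (Finset.abs_sum_le_sum_abs _ _).trans (Finset.sum_le_sum fun u _ => ?_)
        refine (Finset.abs_sum_le_sum_abs _ _).trans (Finset.sum_le_sum fun v _ => ?_)
        rw [abs_mul, abs_mul]
        exact mul_le_mul (mul_le_mul (hW u v) (hy u) (abs_nonneg _) hw) (hz v) (abs_nonneg _)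
          (mul_nonneg hw hA)
    _ = (n : ℤ) ^ 2 * (w * A * B) := by
        rw [Finset.sum_const, Finset.sum_const, Finset.card_univ, Fintype.card_fin, smul_smul,
          nsmul_eq_mul]
        push_cast
        ring

private theorem B5a_gt (h : Dom P a G) (u v : Fin a.n) :
    gt a.M ((u : ℕ) * a.n + v) = adjZ G u v := by
  rw [← h.adj]
  rfl

private theorem B5a_adj01 (u v : Fin a.n) : adjZ G u v = 0 ∨ adjZ G u v = 1 := by
  unfold adjZ
  split_ifs
  · exact Or.inr rfl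
  · exact Or.inl rfl

private theorem B5a_wtm_bd (h : Dom P a G) (u v : Fin a.n) :
    |wtm a.n a.M u v| ≤ (a.n : ℤ) ^ 2 := by
  have hn : (1 : ℤ) ≤ (a.n : ℤ) ^ 2 := by
    have : (1 : ℤ) ≤ (a.n : ℤ) := by
      have := h.n100
      omega
    exact one_le_pow₀ this
  unfold wtm wt
  rw [B5a_gt h]
  split_ifs
  · rw [abs_zero]
    linarith
  · rcases B5a_adj01 (G := G) u v with h1 | h1 <;> rw [h1, abs_le] <;> constructor <;> linarith

private theorem B5a_supp (h : Dom P a G) (v : Fin a.n) :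
    (fv a.n a.g v ≠ 0 → v ∉ st a.n (L1 P a) ∧ v ∉ st a.n (L2 P a) ∧ v ∉ st a.n (L3 P a)) ∧
    (v ∈ st a.n (L1 P a) → v ∉ st a.n (L2 P a) ∧ v ∉ st a.n (L3 P a)) ∧
    (v ∈ st a.n (L2 P a) → v ∉ st a.n (L3 P a)) := by
  obtain ⟨h1, h2, h3, h4⟩ := st_parts h
  refine ⟨fun hv => ?_, fun hv => ?_, fun hv => ?_⟩
  · have h5 : v ∉ fr a := by
      unfold fr
      intro h6
      exact hv (Finset.mem_filter.mp h6).2
    rw [← h1, Finset.mem_union, Finset.mem_union] at h5
    exact ⟨fun h6 => h5 (Or.inl (Or.inl h6)), fun h6 => h5 (Or.inl (Or.inr h6)),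
      fun h6 => h5 (Or.inr h6)⟩
  · exact ⟨fun h6 => (Finset.disjoint_left.mp h2) hv h6, fun h6 => (Finset.disjoint_left.mp h3) hv h6⟩
  · exact fun h6 => (Finset.disjoint_left.mp h4) hv h6

private theorem B5a_rs {x : Fin a.n → ℤ} (hx : x ∈ Om (univ : Finset (Fin a.n)))
    (Y : Finset (Fin a.n)) : rs Y x ∈ Om Y := by
  rw [mem_Om]
  intro v
  unfold rs
  refine ⟨fun hv => ?_, fun hv => ?_⟩
  · rw [if_pos hv]
    exact ((mem_Om.mp hx) v).1 (Finset.mem_univ v)
  · rw [if_neg hv]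

private theorem B5a_abs {Y : Finset (Fin a.n)} {x : Fin a.n → ℤ} (hx : x ∈ Om Y) (v : Fin a.n) :
    |x v| ≤ 1 := by
  by_cases hv : v ∈ Y
  · rcases ((mem_Om.mp hx) v).1 hv with h1 | h1 <;> rw [h1] <;> norm_num
  · rw [((mem_Om.mp hx) v).2 hv]
    norm_num

private theorem B5a_zero {Y : Finset (Fin a.n)} {x : Fin a.n → ℤ} (hx : x ∈ Om Y) {v : Fin a.n}
    (hv : v ∉ Y) : x v = 0 := ((mem_Om.mp hx) v).2 hv

private theorem B5a_one {Y : Finset (Fin a.n)} {x : Fin a.n → ℤ} (hx : x ∈ Om Y) {v : Fin a.n}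
    (hv : v ∈ Y) : x v = 1 ∨ x v = -1 := ((mem_Om.mp hx) v).1 hv

private theorem B5a_div {k u v : ℕ} (hv : v < k) : (u * k + v) / k = u := by
  rw [Nat.add_comm, Nat.add_mul_div_right v u (by omega), Nat.div_eq_of_lt hv, Nat.zero_add]

private theorem B5a_mod {k u v : ℕ} (hv : v < k) : (u * k + v) % k = v := by
  rw [Nat.add_comm, Nat.add_mul_mod_self_right, Nat.mod_eq_of_lt hv]

private theorem B5a_lt {k u v : ℕ} (hu : u < k) (hv : v < k) : u * k + v < k * k := by
  calc u * k + v < u * k + k := by omega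
    _ = (u + 1) * k := by ring
    _ ≤ k * k := Nat.mul_le_mul_right k hu

/-- PROOF. The entries of `wtm` have absolute value at most `n²` (`h.adj`; `0` on the diagonal), those of the second vector at most `2` (disjoint supports), so
`|alp| ≤ n² n² 2`. -/
theorem alp_bd (h : Dom P a G) {x : Fin a.n → ℤ} (hx : x ∈ Om (univ : Finset (Fin a.n))) :
    |alp P a x| ≤ 2 * (a.n : ℤ) ^ 4 := by
  have h1 := B5a_rs hx (st a.n (L1 P a))
  have h2 := B5a_rs hx (st a.n (L2 P a))
  have hz : ∀ v, |2 * (fv a.n a.g v + p1 P a x v) + p2 P a x v| ≤ 2 := by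
    intro v
    obtain ⟨s1, s2, s3⟩ := B5a_supp h v
    unfold p1 p2
    by_cases hg : fv a.n a.g v = 0
    · rw [hg]
      by_cases hv : v ∈ st a.n (L1 P a)
      · rw [B5a_zero h2 (s2 hv).1]
        rcases B5a_one h1 hv with e | e <;> rw [e] <;> norm_num
      · rw [B5a_zero h1 hv]
        have := B5a_abs h2 v
        rw [abs_le] at this ⊢
        constructor <;> linarith
    · rw [B5a_zero h1 (s1 hg).1, B5a_zero h2 (s1 hg).2.1]
      rcases h.g01 v with e | e | e <;> rw [e] <;> norm_num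
  have h3 := B5a_bq_bd (W := wtm a.n a.M) (y := p2 P a x)
    (z := fun v => 2 * (fv a.n a.g v + p1 P a x v) + p2 P a x v) (w := (a.n : ℤ) ^ 2) (A := 1)
    (B := 2) (B5a_wtm_bd h) (fun v => B5a_abs h2 v) hz (by positivity) (by norm_num)
  unfold alp
  refine h3.trans (le_of_eq ?_)
  ring

theorem bet_bd (h : Dom P a G) {x : Fin a.n → ℤ} (hx : x ∈ Om (univ : Finset (Fin a.n))) :
    |bet P a x| ≤ 2 * (a.n : ℤ) ^ 4 := by
  have h2 := B5a_rs hx (st a.n (L2 P a))
  have h3 := B5a_rs hx (st a.n (L3 P a))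
  have h4 := B5a_bq_bd (W := wtm a.n a.M) (y := p2 P a x)
    (z := p3 P a x) (w := (a.n : ℤ) ^ 2) (A := 1)
    (B := 1) (B5a_wtm_bd h) (fun v => B5a_abs h2 v) (fun v => B5a_abs h3 v) (by positivity)
    (by norm_num)
  unfold bet
  rw [abs_mul, abs_two]
  calc 2 * |bq (wtm a.n a.M) (p2 P a x) (p3 P a x)| ≤ 2 * ((a.n : ℤ) ^ 2 * ((a.n : ℤ) ^ 2 * 1 * 1)) := by
        linarith
    _ = 2 * (a.n : ℤ) ^ 4 := by ring

/-- PROOF. `wt` is symmetric as `adjZ G` is. -/
theorem wtm_symm (h : Dom P a G) (u v : Fin a.n) : wtm a.n a.M u v = wtm a.n a.M v u := by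
  have hA : adjZ G u v = adjZ G v u := by
    unfold adjZ
    by_cases h1 : G.Adj u v
    · rw [if_pos h1, if_pos h1.symm]
    · rw [if_neg h1, if_neg fun h' => h1 h'.symm]
  unfold wtm wt
  rw [B5a_gt h, B5a_gt h, hA]
  by_cases huv : (u : ℕ) = v
  · rw [if_pos huv, if_pos huv.symm]
  · rw [if_neg huv, if_neg fun h' => huv h'.symm]

/-- The value of a vector composed of the parts. PROOF. `bq_add` with `y = g + y1 + y3`, `z = y2`, `bq_right`. -/
theorem value (h : Dom P a G) (y1 y2 y3 : Fin a.n → ℤ) :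
    bq (wtm a.n a.M) (fun v => fv a.n a.g v + y1 v + y3 v + y2 v)
      (fun v => fv a.n a.g v + y1 v + y3 v + y2 v) =
    bq (wtm a.n a.M) (fun v => fv a.n a.g v + y1 v + y3 v) (fun v => fv a.n a.g v + y1 v + y3 v) +
      bq (wtm a.n a.M) y2 (fun v => 2 * (fv a.n a.g v + y1 v) + y2 v) +
      2 * bq (wtm a.n a.M) y2 y3 := by
  have h1 := bq_add (wtm_symm h) (fun v => fv a.n a.g v + y1 v + y3 v) y2
  have h2 := bq_right (wtm a.n a.M) 1 2 y2 (fun v => 2 * (fv a.n a.g v + y1 v) + y2 v) y3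
  have e : (fun v => 2 * (fv a.n a.g v + y1 v + y3 v) + y2 v) =
      fun v => 1 * (2 * (fv a.n a.g v + y1 v) + y2 v) + 2 * y3 v := by
    funext v
    ring
  rw [h1, e, h2]
  ring

/-- The entries of the first matrix. PROOF. `getD_tb`: `(u k + v) / k = u`, `(u k + v) % k = v` for `v < k`; `bil_eq`, `fv_lin`. -/
theorem M1_get (h : Dom P a G) {u v : ℕ} (hu : u < kk P a) (hv : v < kk P a) :
    gt (M1 P a) (u * kk P a + v) = if u < (T1 P a).length ∧ v < 2 ^ n2 P a ∧
      bq (wtm a.n a.M) (fv a.n (dec a.n (L2 P a) v))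
        (fun w => 2 * (fv a.n a.g w + fv a.n (y1 P a u) w) + fv a.n (dec a.n (L2 P a) v) w) = a.α
      then 1 else 0 := by
  unfold M1 gt
  rw [getD_tb, if_pos (B5a_lt hu hv), B5a_div hv, B5a_mod hv, bil_eq, fv_lin, fv_lin]
  simp only [one_mul]

/-- PROOF. As `M1_get`. -/
theorem M2_get (h : Dom P a G) {u v : ℕ} (hu : u < kk P a) (hv : v < kk P a) :
    gt (M2 P a) (u * kk P a + v) = if u < 2 ^ n2 P a ∧ v < 2 ^ n3 P a ∧
      2 * bq (wtm a.n a.M) (fv a.n (dec a.n (L2 P a) u)) (fv a.n (dec a.n (L3 P a) v)) = a.β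
      then 1 else 0 := by
  unfold M2 gt
  rw [getD_tb, if_pos (B5a_lt hu hv), B5a_div hv, B5a_mod hv, bil_eq]

/-- PROOF. `getD_matMul`; all entries are `0` or `1`. -/
theorem MP_pos (h : Dom P a G) {u v : ℕ} (hu : u < kk P a) (hv : v < kk P a) :
    gt (MP P a) (u * kk P a + v) ≠ 0 ↔
      ∃ w < kk P a, gt (M1 P a) (u * kk P a + w) = 1 ∧ gt (M2 P a) (w * kk P a + v) = 1 := by
  have e : gt (MP P a) (u * kk P a + v) = ∑ w ∈ range (kk P a),
      gt (M1 P a) (u * kk P a + w) * gt (M2 P a) (w * kk P a + v) := by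
    unfold MP gt
    exact getD_matMul (kk P a) (M1 P a) (M2 P a) hu hv
  have h1 : ∀ w < kk P a, gt (M1 P a) (u * kk P a + w) = 0 ∨ gt (M1 P a) (u * kk P a + w) = 1 := by
    intro w hw
    rw [M1_get h hu hw]
    split_ifs
    · exact Or.inr rfl
    · exact Or.inl rfl
  have h2 : ∀ w < kk P a, gt (M2 P a) (w * kk P a + v) = 0 ∨ gt (M2 P a) (w * kk P a + v) = 1 := by
    intro w hw
    rw [M2_get h hw hv]
    split_ifs
    · exact Or.inr rfl
    · exact Or.inl rfl
  have hnn : ∀ w ∈ range (kk P a),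
      0 ≤ gt (M1 P a) (u * kk P a + w) * gt (M2 P a) (w * kk P a + v) := by
    intro w hw
    rw [Finset.mem_range] at hw
    rcases h1 w hw with e1 | e1 <;> rcases h2 w hw with e2 | e2 <;> rw [e1, e2] <;> norm_num
  rw [e]
  constructor
  · intro hne
    obtain ⟨w, hw, hw2⟩ := Finset.exists_ne_zero_of_sum_ne_zero hne
    rw [Finset.mem_range] at hw
    refine ⟨w, hw, ?_⟩
    rcases h1 w hw with e1 | e1
    · rw [e1, zero_mul] at hw2
      exact absurd rfl hw2
    · rcases h2 w hw with e2 | e2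
      · rw [e2, mul_zero] at hw2
        exact absurd rfl hw2
      · exact ⟨e1, e2⟩
  · rintro ⟨w, hw, e1, e2⟩ h0
    have h3 := (Finset.sum_eq_zero_iff_of_nonneg hnn).mp h0 w (Finset.mem_range.mpr hw)
    rw [e1, e2] at h3
    norm_num at h3

/-- The value of a pair. PROOF. `fv_lin`, `bil_eq`; `Phi n M x = bq (wtm n M) (fv n x) (fv n x)`. -/
theorem va_eq (h : Dom P a G) {u v : ℕ} (hu : u < kk P a) (hv : v < kk P a) :
    va P a (u * kk P a + v) = if gt (MP P a) (u * kk P a + v) ≠ 0 then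
      bq (wtm a.n a.M) (fun w => fv a.n a.g w + fv a.n (y1 P a u) w + fv a.n (dec a.n (L3 P a) v) w)
        (fun w => fv a.n a.g w + fv a.n (y1 P a u) w + fv a.n (dec a.n (L3 P a) v) w) +
        8 * (a.n : ℤ) ^ 4 else 0 := by
  unfold va Phi y13
  rw [B5a_div hv, B5a_mod hv, bil_eq, fv_lin, fv_lin]
  simp only [one_mul]

/-- PROOF. Entries of `wtm` at most `n²`, of the vector at most `1` in absolute value (`dec_mem`, disjoint supports `st_parts`; `(T1 P a) u = c` for some `c`, `T1_get`). -/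
theorem va_pos (h : Dom P a G) {u v : ℕ} (hu : u < kk P a) (hv : v < kk P a)
    (hn : gt (MP P a) (u * kk P a + v) ≠ 0) : 0 < va P a (u * kk P a + v) := by
  obtain ⟨-, hV1, -, hV3⟩ := VL_parts h
  have h1 : fv a.n (y1 P a u) ∈ Om (st a.n (L1 P a)) := dec_mem hV1 _
  have h3 : fv a.n (dec a.n (L3 P a) v) ∈ Om (st a.n (L3 P a)) := dec_mem hV3 _
  have hz : ∀ w, |fv a.n a.g w + fv a.n (y1 P a u) w + fv a.n (dec a.n (L3 P a) v) w| ≤ 1 := by
    intro w
    obtain ⟨s1, s2, s3⟩ := B5a_supp h w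
    by_cases hg : fv a.n a.g w = 0
    · rw [hg, zero_add]
      by_cases hv1 : w ∈ st a.n (L1 P a)
      · rw [B5a_zero h3 (s2 hv1).2, add_zero]
        exact B5a_abs h1 w
      · rw [B5a_zero h1 hv1, zero_add]
        exact B5a_abs h3 w
    · rw [B5a_zero h1 (s1 hg).1, B5a_zero h3 (s1 hg).2.2]
      rcases h.g01 w with e | e | e <;> rw [e] <;> norm_num
  have h4 := B5a_bq_bd (W := wtm a.n a.M)
    (y := fun w => fv a.n a.g w + fv a.n (y1 P a u) w + fv a.n (dec a.n (L3 P a) v) w)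
    (z := fun w => fv a.n a.g w + fv a.n (y1 P a u) w + fv a.n (dec a.n (L3 P a) v) w)
    (w := (a.n : ℤ) ^ 2) (A := 1) (B := 1) (B5a_wtm_bd h) hz hz (by positivity) (by norm_num)
  rw [va_eq h hu hv, if_pos hn]
  have h5 := (abs_le.mp h4).1
  have h6 : (0 : ℤ) < (a.n : ℤ) ^ 4 := by
    have : (0 : ℤ) < (a.n : ℤ) := by
      have := h.n100
      omega
    positivity
  have h7 : (a.n : ℤ) ^ 2 * ((a.n : ℤ) ^ 2 * 1 * 1) = (a.n : ℤ) ^ 4 := by ring
  rw [h7] at h5
  linarith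

end

end Pool.Agent.MPa9445a.BE
end

section

/-! The restriction of the optimum is kept for one pair of blocks. -/

set_option autoImplicit false

open Finset

namespace Pool.Agent.MPa9445a.BE

/-- The property of the parameters proved in `math_main` (for `n` vertices). -/
def OptP (p : Par) (r : ℝ) (n : ℕ) : Prop :=
  ∀ S : Matrix (Fin n) (Fin n) ℤ, ∀ hS : Mat S, 0 < D2 S →
    ∀ b : Fin n → ℤ, ∀ U : Finset (Fin n), (∀ v, v ∉ U → ∀ u, S v u = 0) →
    r * Real.sqrt (D2 S * n) ≤ energy (isHermitian_rl hS) → ∀ x ∈ Om U,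
    (∀ y ∈ Om U, ∑ v, y v = ∑ v, x v → qf S y + lf b y ≤ qf S x + lf b x) →
    ∀ k : Fin n → Fin 8, ∃ i j, Kp p S b (U ∩ bk k i j) (rs (bk k i j) x)

variable {n : ℕ}

private theorem B6a_eig {M M' : Matrix (Fin n) (Fin n) ℝ} (h : M' = M) (hM : M.IsHermitian)
    (hM' : M'.IsHermitian) : ∑ i, |hM'.eigenvalues i| = ∑ i, |hM.eigenvalues i| := by
  subst h
  rfl

private theorem B6a_rl (G : SimpleGraph (Fin n)) : rl (adjZ G) = adjR G := by
  funext u v
  unfold rl adjZ adjR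
  split_ifs <;> simp

private theorem B6a_adjZ_pos {G : SimpleGraph (Fin n)} {u v : Fin n} (h : G.Adj u v) :
    adjZ G u v = 1 := by
  unfold adjZ
  rw [if_pos h]

private theorem B6a_adjZ_neg {G : SimpleGraph (Fin n)} {u v : Fin n} (h : ¬G.Adj u v) :
    adjZ G u v = 0 := by
  unfold adjZ
  rw [if_neg h]

private theorem B6a_adjZ_self (G : SimpleGraph (Fin n)) (u : Fin n) : adjZ G u u = 0 := by
  unfold adjZ
  rw [if_neg (G.loopless.irrefl u)]

private theorem B6a_adjZ_symm (G : SimpleGraph (Fin n)) (u v : Fin n) : adjZ G u v = adjZ G v u := by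
  unfold adjZ
  by_cases h : G.Adj u v
  · rw [if_pos h, if_pos h.symm]
  · rw [if_neg h, if_neg fun h' => h h'.symm]

private theorem B6a_sq (z : Fin n → ℤ) : ∑ u, ∑ v, z u * z v = (∑ v, z v) ^ 2 := by
  rw [sq, Finset.sum_mul_sum]

private theorem B6a_diag (z : Fin n → ℤ) :
    ∑ u, ∑ v, (if u = v then z u * z v else 0) = ∑ v, z v ^ 2 := by
  refine Finset.sum_congr rfl fun u _ => ?_
  rw [Finset.sum_ite_eq Finset.univ u (fun v => z u * z v), if_pos (Finset.mem_univ u), sq]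

private theorem B6a_comb (A W : Matrix (Fin n) (Fin n) ℤ) (c : ℤ) (z : Fin n → ℤ)
    (h : ∀ u v, W u v * z u * z v =
      A u v * z u * z v - c * (z u * z v) + c * (if u = v then z u * z v else 0)) :
    ∑ u, ∑ v, W u v * z u * z v =
      bq A z z - c * ((∑ v, z v) ^ 2 - ∑ v, z v ^ 2) := by
  unfold bq
  rw [← B6a_sq, ← B6a_diag, mul_sub, Finset.mul_sum, Finset.mul_sum, ← sub_add,
    ← Finset.sum_sub_distrib, ← Finset.sum_add_distrib]
  refine Finset.sum_congr rfl fun u _ => ?_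
  rw [Finset.mul_sum, Finset.mul_sum, ← Finset.sum_sub_distrib, ← Finset.sum_add_distrib]
  exact Finset.sum_congr rfl fun v _ => h u v

/-- The matrix `S` of the algorithm is the adjacency matrix, or minus the adjacency matrix of the complement, of the free vertices. PROOF. `SL_eq`. -/
theorem SL_sub {P : Prm} {a : In} {G : SimpleGraph (Fin a.n)} (h : Dom P a G) :
    (a.s = 0 → fm a.n (SL a) = adjZ (subG G (univ.filter fun v => fv a.n a.g v ≠ 0))) ∧
    (a.s ≠ 0 → fm a.n (SL a) = -adjZ (subG Gᶜ (univ.filter fun v => fv a.n a.g v ≠ 0))) := by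
  constructor
  · intro hs
    funext u v
    rw [SL_eq h, if_pos hs]
    by_cases hu : fv a.n a.g u = 0
    · by_cases hv : fv a.n a.g v = 0
      · by_cases huv : u = v
        · subst huv
          rw [if_pos (Or.inr (Or.inr rfl)), B6a_adjZ_self]
        · rw [if_neg (by
            rintro (h' | h' | h')
            · exact h' hu
            · exact h' hv
            · exact huv h')]
          by_cases hA : G.Adj u v
          · rw [B6a_adjZ_pos hA, B6a_adjZ_pos]
            exact ⟨hA, fun h' => (Finset.mem_filter.mp h').2 hu, fun h' => (Finset.mem_filter.mp h').2 hv⟩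
          · rw [B6a_adjZ_neg hA, B6a_adjZ_neg]
            exact fun h' => hA h'.1
      · rw [if_pos (Or.inr (Or.inl hv)), B6a_adjZ_neg]
        exact fun h' => h'.2.2 (Finset.mem_filter.mpr ⟨Finset.mem_univ v, hv⟩)
    · rw [if_pos (Or.inl hu), B6a_adjZ_neg]
      exact fun h' => h'.2.1 (Finset.mem_filter.mpr ⟨Finset.mem_univ u, hu⟩)
  · intro hs
    funext u v
    rw [SL_eq h, if_neg hs, Matrix.neg_apply]
    by_cases hu : fv a.n a.g u = 0
    · by_cases hv : fv a.n a.g v = 0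
      · by_cases huv : u = v
        · subst huv
          rw [if_pos (Or.inr (Or.inr rfl)), B6a_adjZ_self, neg_zero]
        · rw [if_neg (by
            rintro (h' | h' | h')
            · exact h' hu
            · exact h' hv
            · exact huv h')]
          by_cases hA : G.Adj u v
          · rw [B6a_adjZ_pos hA, B6a_adjZ_neg]
            · norm_num
            · exact fun h' => ((SimpleGraph.compl_adj G u v).mp h'.1).2 hA
          · rw [B6a_adjZ_neg hA, B6a_adjZ_pos]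
            · norm_num
            · exact ⟨(SimpleGraph.compl_adj G u v).mpr ⟨huv, hA⟩,
                fun h' => (Finset.mem_filter.mp h').2 hu, fun h' => (Finset.mem_filter.mp h').2 hv⟩
      · rw [if_pos (Or.inr (Or.inl hv)), B6a_adjZ_neg, neg_zero]
        exact fun h' => h'.2.2 (Finset.mem_filter.mpr ⟨Finset.mem_univ v, hv⟩)
    · rw [if_pos (Or.inl hu), B6a_adjZ_neg, neg_zero]
      exact fun h' => h'.2.1 (Finset.mem_filter.mpr ⟨Finset.mem_univ u, hu⟩)

/-- PROOF. `rl (adjZ G') = adjR G'`, `D2 (± adjZ G') = 2 ne G'` (`sum_adjR_sq`), `energy_neg`. -/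
theorem SL_energy {P : Prm} {a : In} {G : SimpleGraph (Fin a.n)} (h : Dom P a G) {r : ℝ}
    {G' : SimpleGraph (Fin a.n)} (hG' : fm a.n (SL a) = adjZ G' ∨ fm a.n (SL a) = -adjZ G')
    (hE : Energetic r G') (hne : G' ≠ ⊥) :
    0 < D2 (fm a.n (SL a)) ∧
      r * Real.sqrt (D2 (fm a.n (SL a)) * a.n) ≤ energy (isHermitian_rl (Mat_SL h)) := by
  classical
  have hD0 : D2 (fm a.n (SL a)) = D2 (adjZ G') := by
    rcases hG' with h1 | h1
    · rw [h1]
    · rw [h1]
      unfold D2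
      refine Finset.sum_congr rfl fun u _ => Finset.sum_congr rfl fun v _ => ?_
      rw [Matrix.neg_apply, neg_sq]
  have hD1 : ((D2 (adjZ G') : ℤ) : ℝ) = 2 * ne G' := by
    rw [← sum_adjR_sq, ← B6a_rl]
    unfold D2 rl
    push_cast
    rfl
  have hD : ((D2 (fm a.n (SL a)) : ℤ) : ℝ) = 2 * ne G' := by rw [hD0, hD1]
  have hne' : 0 < ne G' := by
    unfold ne
    rw [Finset.card_pos, SimpleGraph.edgeFinset_nonempty]
    exact hne
  have hen : energy (isHermitian_rl (Mat_SL h)) = gen G' := by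
    unfold energy gen
    rcases hG' with h1 | h1
    · apply B6a_eig
      rw [h1, B6a_rl]
    · apply energy_neg
      rw [h1, ← B6a_rl]
      funext u v
      rw [Matrix.neg_apply]
      change (((-adjZ G') u v : ℤ) : ℝ) = -((adjZ G' u v : ℤ) : ℝ)
      rw [Matrix.neg_apply]
      push_cast
      rfl
  constructor
  · have h1 : (0 : ℝ) < ((D2 (fm a.n (SL a)) : ℤ) : ℝ) := by
      rw [hD]
      have : (0 : ℝ) < ne G' := by exact_mod_cast hne'
      linarith
    exact_mod_cast h1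
  · rw [hD, hen]
    exact hE

private theorem B6a_zero {a : In} {y : Fin a.n → ℤ} (hy : y ∈ Om (fr a)) {v : Fin a.n}
    (hv : fv a.n a.g v ≠ 0) : y v = 0 := by
  refine ((mem_Om.mp hy) v).2 fun h => hv ?_
  unfold fr at h
  exact (Finset.mem_filter.mp h).2

private theorem B6a_one {a : In} {y : Fin a.n → ℤ} (hy : y ∈ Om (fr a)) {v : Fin a.n}
    (hv : fv a.n a.g v = 0) : y v ^ 2 = 1 := by
  have h1 : v ∈ fr a := by
    unfold fr
    exact Finset.mem_filter.mpr ⟨Finset.mem_univ v, hv⟩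
  rcases ((mem_Om.mp hy) v).1 h1 with h | h <;> rw [h] <;> norm_num

private theorem B6a_point {a : In} {y y' : Fin a.n → ℤ} (hy : y ∈ Om (fr a)) (hy' : y' ∈ Om (fr a))
    (v : Fin a.n) : (fv a.n a.g v + y v) ^ 2 = (fv a.n a.g v + y' v) ^ 2 := by
  by_cases hv : fv a.n a.g v = 0
  · rw [hv, zero_add, zero_add, B6a_one hy hv, B6a_one hy' hv]
  · rw [B6a_zero hy hv, B6a_zero hy' hv]

private theorem B6a_squares {a : In} {y y' : Fin a.n → ℤ} (hy : y ∈ Om (fr a))
    (hy' : y' ∈ Om (fr a)) : ∑ v, y v ^ 2 = ∑ v, y' v ^ 2 := by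
  refine Finset.sum_congr rfl fun v _ => ?_
  by_cases hv : fv a.n a.g v = 0
  · rw [B6a_one hy hv, B6a_one hy' hv]
  · rw [B6a_zero hy hv, B6a_zero hy' hv]

private theorem B6a_wtm {P : Prm} {a : In} {G : SimpleGraph (Fin a.n)} (h : Dom P a G)
    (z : Fin a.n → ℤ) : bq (wtm a.n a.M) z z =
    bq (adjZ G) z z - (a.n : ℤ) ^ 2 * ((∑ v, z v) ^ 2 - ∑ v, z v ^ 2) := by
  refine B6a_comb (adjZ G) (wtm a.n a.M) ((a.n : ℤ) ^ 2) z fun u v => ?_
  have hA : gt a.M ((u : ℕ) * a.n + v) = adjZ G u v := by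
    rw [← h.adj]
    rfl
  unfold wtm wt
  rw [hA]
  by_cases huv : u = v
  · subst huv
    rw [if_pos rfl, if_pos rfl, B6a_adjZ_self]
    ring
  · rw [if_neg (fun h' => huv (Fin.ext h')), if_neg huv]
    ring

private theorem B6a_main {P : Prm} {a : In} {G : SimpleGraph (Fin a.n)} (h : Dom P a G)
    {y : Fin a.n → ℤ} (_hy : y ∈ Om (fr a)) :
    bq (wtm a.n a.M) (fun v => fv a.n a.g v + y v) (fun v => fv a.n a.g v + y v) =
    bq (adjZ G) (fv a.n a.g) (fv a.n a.g) + 2 * bq (adjZ G) y (fv a.n a.g) + bq (adjZ G) y y -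
      (a.n : ℤ) ^ 2 * ((∑ v, (fv a.n a.g v + y v)) ^ 2 - ∑ v, (fv a.n a.g v + y v) ^ 2) := by
  rw [B6a_wtm h, bq_add (B6a_adjZ_symm G) (fv a.n a.g) y]
  have e : (fun v => 2 * fv a.n a.g v + y v) = fun v => 2 * fv a.n a.g v + 1 * y v := by
    funext v
    ring
  rw [e, bq_right]
  ring

private theorem B6a_lin {P : Prm} {a : In} {G : SimpleGraph (Fin a.n)} (h : Dom P a G)
    {y : Fin a.n → ℤ} (hy : y ∈ Om (fr a)) :
    lf (fv a.n (bL a)) y = 2 * bq (adjZ G) y (fv a.n a.g) := by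
  unfold lf bq
  rw [Finset.mul_sum]
  refine Finset.sum_congr rfl fun v _ => ?_
  rw [bL_eq h]
  by_cases hv : fv a.n a.g v = 0
  · rw [if_pos hv, mul_assoc, Finset.sum_mul]
    congr 1
    refine Finset.sum_congr rfl fun u _ => ?_
    rw [B6a_adjZ_symm G u v]
    ring
  · rw [if_neg hv, B6a_zero hy hv]
    simp

private theorem B6a_quad {P : Prm} {a : In} {G : SimpleGraph (Fin a.n)} (h : Dom P a G)
    {y : Fin a.n → ℤ} (hy : y ∈ Om (fr a)) :
    qf (fm a.n (SL a)) y = bq (adjZ G) y y -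
      (if a.s = 0 then 0 else 1) * ((∑ v, y v) ^ 2 - ∑ v, y v ^ 2) := by
  unfold qf
  refine B6a_comb (adjZ G) (fm a.n (SL a)) (if a.s = 0 then 0 else 1) y fun u v => ?_
  rw [SL_eq h]
  by_cases hu : fv a.n a.g u = 0
  · by_cases hv : fv a.n a.g v = 0
    · by_cases huv : u = v
      · subst huv
        rw [if_pos (Or.inr (Or.inr rfl)), if_pos rfl, B6a_adjZ_self]
        ring
      · rw [if_neg (by
          rintro (h' | h' | h')
          · exact h' hu
          · exact h' hv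
          · exact huv h'), if_neg huv]
        by_cases hs : a.s = 0
        · rw [if_pos hs, if_pos hs]
          ring
        · rw [if_neg hs, if_neg hs]
          ring
    · rw [B6a_zero hy hv]
      simp
  · rw [B6a_zero hy hu]
    simp

/-- The value of a vector which extends the assignment: PROOF. `bq W x x = ∑ adj x x - n² ((∑ x)² - n)`; with `x = g + y` (`g` zero on the free vertices, `y` zero outside):
`∑ adj x x = ∑ adj g g + lf b y + ∑ adj y y`, and `∑ adj y y` is `qf S y` for `s = 0` and `qf S y + (∑ y)² - #fr` for `s ≠ 0`. So for two vectors `y`, `y'` in `Om (fr a)` with the same sum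
the differences agree. -/
theorem value_diff {P : Prm} {a : In} {G : SimpleGraph (Fin a.n)} (h : Dom P a G)
    {y y' : Fin a.n → ℤ} (hy : y ∈ Om (fr a)) (hy' : y' ∈ Om (fr a))
    (hs : ∑ v, y v = ∑ v, y' v) :
    bq (wtm a.n a.M) (fun v => fv a.n a.g v + y v) (fun v => fv a.n a.g v + y v) -
      bq (wtm a.n a.M) (fun v => fv a.n a.g v + y' v) (fun v => fv a.n a.g v + y' v) =
    (qf (fm a.n (SL a)) y + lf (fv a.n (bL a)) y) -
      (qf (fm a.n (SL a)) y' + lf (fv a.n (bL a)) y') := by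
  have h1 := B6a_main h hy
  have h2 := B6a_main h hy'
  have h3 := B6a_lin h hy
  have h4 := B6a_lin h hy'
  have h5 := B6a_quad h hy
  have h6 := B6a_quad h hy'
  have h7 := B6a_squares hy hy'
  have h8 : ∑ v, (fv a.n a.g v + y v) = ∑ v, (fv a.n a.g v + y' v) := by
    rw [Finset.sum_add_distrib, Finset.sum_add_distrib, hs]
  have h9 : ∑ v, (fv a.n a.g v + y v) ^ 2 = ∑ v, (fv a.n a.g v + y' v) ^ 2 :=
    Finset.sum_congr rfl fun v _ => B6a_point hy hy' v
  rw [h1, h2, h3, h4, h5, h6, h8, h9, h7, hs]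
  ring

end Pool.Agent.MPa9445a.BE
end

section

/-! Good parameters. -/

set_option autoImplicit false

open Finset

namespace Pool.Agent.MPa9445a.BE

variable {n : ℕ}

open scoped Classical in
/-- The property of the parameters proved in `math_main` (for `n` vertices): few vectors are kept. -/
def ThinP (p : Par) (δ : ℝ) (n : ℕ) : Prop :=
  ∀ S : Matrix (Fin n) (Fin n) ℤ, Mat S → ∀ b : Fin n → ℤ,
    (∀ v, |b v| ≤ n) → ∀ Y : Finset (Fin n),
      (((Om Y).filter fun x => Kp p S b Y x).card : ℝ) ≤ (2 : ℝ) ^ ((Y.card : ℝ) - δ * n)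

/-- The properties of the parameters which are used for graphs with `n ≥ n₀` vertices. -/
structure Good (P : Prm) (r δ : ℝ) : Prop where
  m100 : 100 ≤ P.m
  M100 : 100 ≤ P.M
  n100 : 100 ≤ P.n₀
  b0 : 18 * P.m ≤ P.b
  dm : 3 ≤ δ * P.m
  thin : ∀ n : ℕ, P.n₀ ≤ n → ThinP P.p δ n
  opt : ∀ n : ℕ, P.n₀ ≤ n → OptP P.p r n
  s60 : ∀ n : ℕ, P.n₀ ≤ n → (spl n (n / 60)).length < 2 ^ (n / 8)
  sM : ∀ n : ℕ, P.n₀ ≤ n → (spl n (n / P.M)).length < 2 ^ (n / P.b)
  n4 : ∀ n : ℕ, P.n₀ ≤ n → 4 * n ^ 4 + 8 < 2 ^ (n / P.b)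

end Pool.Agent.MPa9445a.BE
end

section

section

/-! The candidate is at least as good as the vector we look for. -/

set_option autoImplicit false

open Finset

namespace Pool.Agent.MPa9445a.BE

section

variable {P : Prm} {a : In} {G : SimpleGraph (Fin a.n)}

private theorem B5_idx {k r : ℕ} (hr : r < k * k) : r / k < k ∧ r % k < k ∧ r / k * k + r % k = r := by
  have hk : 0 < k := by
    rcases Nat.eq_zero_or_pos k with h | h
    · subst h; simp at hr
    · exact h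
  refine ⟨Nat.div_lt_of_lt_mul hr, Nat.mod_lt _ hk, ?_⟩
  rw [mul_comm]
  exact Nat.div_add_mod r k

private theorem B5_lt {k u v : ℕ} (hu : u < k) (hv : v < k) : u * k + v < k * k := by
  calc u * k + v < u * k + k := by omega
    _ = (u + 1) * k := by ring
    _ ≤ k * k := Nat.mul_le_mul_right k hu

private theorem B5_n3 (h : Dom P a G) : n3 P a ≤ n2 P a + 4 := by
  have h1 := sizes h
  have h2 : (LW a).length + (LR a).length ≤ a.n := by
    rw [card_LW_LR]
    calc (fr a).card ≤ (univ : Finset (Fin a.n)).card := Finset.card_le_card (subset_univ _)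
      _ = a.n := by simp
  have h3 : a.n / P.m ≤ a.n / 3 := Nat.div_le_div_left (by have := h.m100; omega) (by norm_num)
  have h4 := h1.2
  unfold n1 n2 at *
  omega

private theorem B5_kk2 (P : Prm) (a : In) : 2 ^ n2 P a ≤ kk P a := by
  unfold kk
  exact Nat.pow_le_pow_right (by norm_num) (by omega)

private theorem B5_kk3 (h : Dom P a G) : 2 ^ n3 P a ≤ kk P a := by
  unfold kk
  exact Nat.pow_le_pow_right (by norm_num) (B5_n3 h)

private theorem B5_l1 (P : Prm) (a : In) : (L1 P a).length = n1 P a := by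
  unfold L1; exact length_tb _ _

private theorem B5_l2 (P : Prm) (a : In) : (L2 P a).length = n2 P a := by
  unfold L2; exact length_tb _ _

private theorem B5_l3 (P : Prm) (a : In) : (L3 P a).length = n3 P a := by
  unfold L3; exact length_tb _ _

/-- PROOF. Let `x = g + x₁ + x₃ + x₂` (`decomp`), `c₁, c₂, c₃` the codes of the parts (`dec_surj`, lengths `n1, n2, n3`), `c₁ = T1 u` with `u < |T1| ≤ kk` (`T1_mem`: `rs (st LW) x₁ = rs (st LW) x` as `st_LW_sub`).
`c₂ < 2 ^ n2 ≤ kk`, `c₃ < 2 ^ n3 ≤ kk` (`n3 ≤ n2 + 2`). By `hα`, `hβ`: `M1 (u, c₂) = 1`, `M2 (c₂, c₃) = 1`, so `MP (u, c₃) ≠ 0` and `va (u, c₃) = Φ(g + x₁ + x₃) + 8 n⁴ > 0`.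
`r = rr` is a maximum of `va` (`argmax_spec`), so `va r ≥ va (u, c₃) > 0`, hence `MP r ≠ 0`; with `r = u' kk + v'`: by `MP_pos` there is `w` with both entries `1`, so the maximum `rb`
of the products has product `≥ 1`, both entries are `1` (`M1_get`, `M2_get`: entries `0` or `1`). So `u' < |T1|` (`T1_get`: `y1 P a u' = dec (L1) c₁'`), `rb < 2 ^ n2`, `v' < 2 ^ n3`, and the two relations hold for the
new parts. The new vector is a sign vector (`comp`, `dec_mem`), so `vec_code` applies, and by `value` its value is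
`va r - 8 n⁴ + a.α + a.β ≥ va (u, c₃) - 8 n⁴ + a.α + a.β`, the value of `x`. -/
theorem core_opt (h : Dom P a G) (hT : (T1 P a).length ≤ kk P a) {x : Fin a.n → ℤ}
    (hx : x ∈ Om (univ : Finset (Fin a.n))) (hg : ∀ v, fv a.n a.g v ≠ 0 → x v = fv a.n a.g v)
    (hk : KpW P a (rs (st a.n (LW a)) x)) (hα : a.α = alp P a x) (hβ : a.β = bet P a x) :
    bq (wtm a.n a.M) x x ≤ Phi a.n a.M (vec a.n (cand P a)) := by
  classical
  obtain ⟨hVW, hV1, hV2, hV3⟩ := VL_parts h
  set k := kk P a with hkdef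
  have hk2 : 2 ^ n2 P a ≤ k := B5_kk2 P a
  have hk3 : 2 ^ n3 P a ≤ k := B5_kk3 h
  have hkpos : 0 < k := lt_of_lt_of_le (by positivity) hk2
  -- the parts of the vector
  have hp1 : p1 P a x ∈ Om (st a.n (L1 P a)) := by
    have := rs_Om hx (st a.n (L1 P a))
    simpa [p1] using this
  have hp2 : p2 P a x ∈ Om (st a.n (L2 P a)) := by
    have := rs_Om hx (st a.n (L2 P a))
    simpa [p2] using this
  have hp3 : p3 P a x ∈ Om (st a.n (L3 P a)) := by
    have := rs_Om hx (st a.n (L3 P a))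
    simpa [p3] using this
  obtain ⟨c1, hc1, hd1⟩ := dec_surj hV1 hp1
  obtain ⟨c2, hc2, hd2⟩ := dec_surj hV2 hp2
  obtain ⟨c3, hc3, hd3⟩ := dec_surj hV3 hp3
  rw [B5_l1] at hc1
  rw [B5_l2] at hc2
  rw [B5_l3] at hc3
  have hk1 : KpW P a (rs (st a.n (LW a)) (fv a.n (dec a.n (L1 P a) c1))) := by
    rw [hd1]
    have : rs (st a.n (LW a)) (p1 P a x) = rs (st a.n (LW a)) x := by
      funext v
      unfold p1 rs
      by_cases hv : v ∈ st a.n (LW a)
      · rw [if_pos hv, if_pos hv, if_pos (st_LW_sub h hv)]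
      · rw [if_neg hv, if_neg hv]
    rw [this]
    exact hk
  obtain ⟨u, hu, hTu⟩ := T1_mem h hc1 hk1
  have huk : u < k := lt_of_lt_of_le hu hT
  have hy1 : fv a.n (y1 P a u) = p1 P a x := by
    unfold y1
    rw [hTu, Int.toNat_natCast]
    exact hd1
  have hc2k : c2 < k := lt_of_lt_of_le hc2 hk2
  have hc3k : c3 < k := lt_of_lt_of_le hc3 hk3
  have hm1 : gt (M1 P a) (u * k + c2) = 1 := by
    rw [hkdef, M1_get h huk hc2k, if_pos]
    refine ⟨hu, hc2, ?_⟩
    rw [hy1, hd2, hα]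
    rfl
  have hm2 : gt (M2 P a) (c2 * k + c3) = 1 := by
    rw [hkdef, M2_get h hc2k hc3k, if_pos]
    refine ⟨hc2, hc3, ?_⟩
    rw [hd2, hd3, hβ]
    rfl
  have hmp : gt (MP P a) (u * k + c3) ≠ 0 := (MP_pos h huk hc3k).mpr ⟨c2, hc2k, hm1, hm2⟩
  have hva := va_eq h huk hc3k
  rw [← hkdef, if_pos hmp, hy1, hd3] at hva
  have hvp : 0 < va P a (u * k + c3) := va_pos h huk hc3k hmp
  -- the maximum
  obtain ⟨hr1, hr2⟩ := argmax_spec (k := k * k) (by positivity) (fun x : ℤ => va P a x.toNat)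
  have hrr : rr P a = argmax (k * k) (fun x : ℤ => va P a x.toNat) := rfl
  rw [← hrr] at hr1 hr2
  have hr3 := hr2 (u * k + c3) (B5_lt huk hc3k)
  simp only [Int.toNat_natCast] at hr3
  obtain ⟨hi1, hi2, hi3⟩ := B5_idx hr1
  set r := rr P a with hr
  set u' := r / k with hu'
  set v' := r % k with hv'
  have hva' := va_eq h hi1 hi2
  rw [← hkdef, hi3] at hva'
  have hmp' : gt (MP P a) r ≠ 0 := by
    intro h0
    rw [h0] at hva'
    simp only [ne_eq, not_true_eq_false, if_false] at hva'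
    omega
  have hmp2 : gt (MP P a) (u' * k + v') ≠ 0 := by rw [hi3]; exact hmp'
  obtain ⟨w, hw, hw1, hw2⟩ := (MP_pos h hi1 hi2).mp hmp2
  obtain ⟨hb1, hb2⟩ := argmax_spec (k := k) hkpos (fun y : ℤ =>
    gt (M1 P a) (u' * k + y.toNat) * gt (M2 P a) (y.toNat * k + v'))
  have hrb : rb P a = argmax k (fun y : ℤ =>
    gt (M1 P a) (u' * k + y.toNat) * gt (M2 P a) (y.toNat * k + v')) := rfl
  rw [← hrb] at hb1 hb2
  have hb3 := hb2 w hw
  simp only [Int.toNat_natCast] at hb3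
  rw [hw1, hw2] at hb3
  set t := rb P a with ht
  have hM1 := M1_get h hi1 hb1
  have hM2 := M2_get h hb1 hi2
  rw [← hkdef] at hM1 hM2
  rw [hM1, hM2] at hb3
  have hcond1 : u' < (T1 P a).length ∧ t < 2 ^ n2 P a ∧
      bq (wtm a.n a.M) (fv a.n (dec a.n (L2 P a) t))
        (fun w => 2 * (fv a.n a.g w + fv a.n (y1 P a u') w) + fv a.n (dec a.n (L2 P a) t) w) = a.α := by
    by_contra hcon
    rw [if_neg hcon] at hb3
    omega
  have hcond2 : t < 2 ^ n2 P a ∧ v' < 2 ^ n3 P a ∧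
      2 * bq (wtm a.n a.M) (fv a.n (dec a.n (L2 P a) t)) (fv a.n (dec a.n (L3 P a) v')) = a.β := by
    by_contra hcon
    rw [if_neg hcon] at hb3
    omega
  -- the candidate
  obtain ⟨c1', hc1', hTu', -⟩ := T1_get h hcond1.1
  have hy1' : fv a.n (y1 P a u') ∈ Om (st a.n (L1 P a)) := by
    unfold y1
    exact dec_mem hV1 _
  have hy2' : fv a.n (dec a.n (L2 P a) t) ∈ Om (st a.n (L2 P a)) := dec_mem hV2 _
  have hy3' : fv a.n (dec a.n (L3 P a) v') ∈ Om (st a.n (L3 P a)) := dec_mem hV3 _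
  have hcomp := comp h hy1' hy2' hy3'
  have hvec : fv a.n (lin a.n 1 (y13 P a u' v') 1 (dec a.n (L2 P a) t)) =
      fun v => fv a.n a.g v + fv a.n (y1 P a u') v + fv a.n (dec a.n (L3 P a) v') v +
        fv a.n (dec a.n (L2 P a) t) v := by
    rw [fv_lin]
    funext v
    unfold y13
    rw [fv_lin, fv_lin]
    ring
  have hsgn : ∀ v : Fin a.n, fv a.n (lin a.n 1 (y13 P a u' v') 1 (dec a.n (L2 P a) t)) v = 1 ∨
      fv a.n (lin a.n 1 (y13 P a u' v') 1 (dec a.n (L2 P a) t)) v = -1 := by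
    intro v
    rw [hvec]
    exact (mem_Om.mp hcomp v).1 (mem_univ v)
  have hcand : cand P a = code a.n (lin a.n 1 (y13 P a u' v') 1 (dec a.n (L2 P a) t)) := rfl
  have hPhi : Phi a.n a.M (vec a.n (cand P a)) =
      bq (wtm a.n a.M) (fun v => fv a.n a.g v + fv a.n (y1 P a u') v + fv a.n (dec a.n (L3 P a) v') v +
        fv a.n (dec a.n (L2 P a) t) v) (fun v => fv a.n a.g v + fv a.n (y1 P a u') v +
          fv a.n (dec a.n (L3 P a) v') v + fv a.n (dec a.n (L2 P a) t) v) := by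
    unfold Phi
    rw [bil_eq, hcand, vec_code hsgn, hvec]
  rw [hPhi, value h, hcond1.2.2, hcond2.2.2]
  have hx' : bq (wtm a.n a.M) x x =
      bq (wtm a.n a.M) (fun v => fv a.n a.g v + p1 P a x v + p3 P a x v)
        (fun v => fv a.n a.g v + p1 P a x v + p3 P a x v) + a.α + a.β := by
    have hdec := decomp h hx hg
    have hval := value h (p1 P a x) (p2 P a x) (p3 P a x)
    have e : x = fun v => fv a.n a.g v + p1 P a x v + p3 P a x v + p2 P a x v := hdec
    rw [hα, hβ]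
    calc bq (wtm a.n a.M) x x = bq (wtm a.n a.M)
          (fun v => fv a.n a.g v + p1 P a x v + p3 P a x v + p2 P a x v)
          (fun v => fv a.n a.g v + p1 P a x v + p3 P a x v + p2 P a x v) := by rw [← e]
      _ = _ := hval
  rw [hx']
  rw [if_pos hmp'] at hva'
  rw [hva, hva'] at hr3
  linarith

end

end Pool.Agent.MPa9445a.BE
end

section

/-! The restriction of the optimum is kept for one pair of blocks. -/

set_option autoImplicit false

open Finset

namespace Pool.Agent.MPa9445a.BE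

variable {n : ℕ}

/-- PROOF. Let `a₀` be the input with the blocks `0`, `0` and numbers `0`. `Dom P a₀ G`. `S = fm (SL a₀)`, `b = fv (bL a₀)` (they do not depend on the blocks), `U = fr a₀ = univ \ H`,
`y = rs U x`; `hmax` and `value_diff` give the maximality which `OptP` needs; `SL_sub`, `SL_energy`. So there are `i, j` with `Kp .. (U ∩ bk km i j) (rs (bk ..) y)`, and `st_LW`: `st (LW a) = fr a ∩ bk`,
`rs (bk) (rs U x) = rs (U ∩ bk) x`. -/
theorem opt_W {P : Prm} {r : ℝ} (hm : 100 ≤ P.m) (hM : 100 ≤ P.M) (hn : 100 ≤ n)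
    (ho : OptP P.p r n) (G : SimpleGraph (Fin n)) {M : List ℤ} (hA : fm n M = adjZ G)
    {H : Finset (Fin n)} (hH : H.card * P.M ≤ n) (s : ℕ) {G' : SimpleGraph (Fin n)}
    (hG' : (s = 0 ∧ G' = subG G H) ∨ (s ≠ 0 ∧ G' = subG Gᶜ H)) (hE : Energetic r G')
    (hne : G' ≠ ⊥) {x : Fin n → ℤ} (hx : x ∈ Om (univ : Finset (Fin n)))
    (hmax : ∀ y ∈ Om (univ : Finset (Fin n)), bq (wtm n M) y y ≤ bq (wtm n M) x x)
    {g : List ℤ} (hg : ∀ v, fv n g v = if v ∈ H then x v else 0) :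
    ∃ i j : Fin 8, ∀ α β : ℤ, Dom P ⟨n, M, g, s, i, j, α, β⟩ G ∧
      KpW P ⟨n, M, g, s, i, j, α, β⟩ (rs (st n (LW ⟨n, M, g, s, i, j, α, β⟩)) x) := by
  have hx1 : ∀ v, x v = 1 ∨ x v = -1 := fun v => (mem_Om.mp hx v).1 (mem_univ v)
  have hne0 : ∀ v, fv n g v ≠ 0 ↔ v ∈ H := by
    intro v
    rw [hg v]
    by_cases hv : v ∈ H
    · rw [if_pos hv]
      refine ⟨fun _ => hv, fun _ => ?_⟩
      rcases hx1 v with h | h <;> rw [h] <;> norm_num
    · rw [if_neg hv]
      exact ⟨fun h => absurd rfl h, fun h => absurd h hv⟩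
  have hset : (univ.filter fun v : Fin n => fv n g v ≠ 0) = H := by
    ext v
    rw [mem_filter]
    exact ⟨fun h => (hne0 v).mp h.2, fun h => ⟨mem_univ v, (hne0 v).mpr h⟩⟩
  have hDom : ∀ (i j : ℕ) (α β : ℤ), Dom P ⟨n, M, g, s, i, j, α, β⟩ G := by
    intro i j α β
    refine ⟨hm, hM, hn, hA, ?_, ?_⟩
    · intro v
      show fv n g v = 0 ∨ fv n g v = 1 ∨ fv n g v = -1
      rw [hg v]
      by_cases hv : v ∈ H
      · rw [if_pos hv]
        exact Or.inr (hx1 v)
      · rw [if_neg hv]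
        exact Or.inl rfl
    · show (univ.filter fun v : Fin n => fv n g v ≠ 0).card * P.M ≤ n
      rw [hset]
      exact hH
  set a₀ : In := ⟨n, M, g, s, 0, 0, 0, 0⟩ with ha₀
  have h0 : Dom P a₀ G := hDom 0 0 0 0
  have hU : ∀ v : Fin n, v ∈ fr a₀ ↔ v ∉ H := by
    intro v
    have h1 : v ∈ fr a₀ ↔ fv n g v = 0 := by
      unfold fr
      rw [mem_filter]
      exact ⟨fun h => h.2, fun h => ⟨mem_univ _, h⟩⟩
    rw [h1, ← not_iff_not, not_not]
    exact hne0 v
  have hSL : fm n (SL a₀) = adjZ G' ∨ fm n (SL a₀) = -adjZ G' := by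
    rcases hG' with ⟨hs, hG⟩ | ⟨hs, hG⟩
    · left
      have := (SL_sub h0).1 hs
      rw [hG]
      refine this.trans ?_
      show adjZ (subG G (univ.filter fun v : Fin n => fv n g v ≠ 0)) = _
      rw [hset]
    · right
      have := (SL_sub h0).2 hs
      rw [hG]
      refine this.trans ?_
      show -adjZ (subG Gᶜ (univ.filter fun v : Fin n => fv n g v ≠ 0)) = _
      rw [hset]
  obtain ⟨hD, hEn⟩ := SL_energy h0 hSL hE hne
  have hy : rs (fr a₀) x ∈ Om (fr a₀) := by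
    have := rs_Om hx (fr a₀)
    rwa [univ_inter] at this
  have hgy : (fun v => fv n g v + rs (fr a₀) x v) = x := by
    funext v
    rw [hg v]
    by_cases hv : v ∈ H
    · rw [if_pos hv]
      have : v ∉ fr a₀ := fun h => (hU v).mp h hv
      simp only [rs, if_neg this, add_zero]
    · rw [if_neg hv]
      have : v ∈ fr a₀ := (hU v).mpr hv
      simp only [rs, if_pos this, zero_add]
  have hopt : ∀ y' ∈ Om (fr a₀), ∑ v, y' v = ∑ v, rs (fr a₀) x v →
      qf (fm n (SL a₀)) y' + lf (fv n (bL a₀)) y' ≤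
        qf (fm n (SL a₀)) (rs (fr a₀) x) + lf (fv n (bL a₀)) (rs (fr a₀) x) := by
    intro y' hy' hs
    have h1 := value_diff h0 hy' hy hs
    have h2 : (fun v => fv n g v + y' v) ∈ Om (univ : Finset (Fin n)) := by
      rw [mem_Om]
      intro v
      refine ⟨fun _ => ?_, fun h => absurd (mem_univ v) h⟩
      show fv n g v + y' v = 1 ∨ fv n g v + y' v = -1
      rw [hg v]
      by_cases hv : v ∈ H
      · have h3 : y' v = 0 := (mem_Om.mp hy' v).2 (fun h => (hU v).mp h hv)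
        rw [if_pos hv, h3, add_zero]
        exact hx1 v
      · rw [if_neg hv, zero_add]
        exact (mem_Om.mp hy' v).1 ((hU v).mpr hv)
    have h4 := hmax _ h2
    have h5 : bq (wtm n M) (fun v => fv n g v + rs (fr a₀) x v)
        (fun v => fv n g v + rs (fr a₀) x v) = bq (wtm n M) x x := by rw [hgy]
    have h6 : bq (wtm n M) (fun v => fv n g v + y' v) (fun v => fv n g v + y' v) -
        bq (wtm n M) (fun v => fv n g v + rs (fr a₀) x v)
        (fun v => fv n g v + rs (fr a₀) x v) =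
        (qf (fm n (SL a₀)) y' + lf (fv n (bL a₀)) y') -
        (qf (fm n (SL a₀)) (rs (fr a₀) x) + lf (fv n (bL a₀)) (rs (fr a₀) x)) := h1
    linarith
  have hz : ∀ v, v ∉ fr a₀ → ∀ u, fm n (SL a₀) v u = 0 := by
    intro v hv u
    have h1 := SL_eq h0 v u
    have h2 : fv n g v ≠ 0 := (hne0 v).mpr (by
      by_contra h
      exact hv ((hU v).mpr h))
    refine h1.trans ?_
    exact if_pos (Or.inl h2)
  obtain ⟨i, j, hij⟩ := ho (fm n (SL a₀)) (Mat_SL h0) hD (fv n (bL a₀)) (fr a₀) hz hEn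
    (rs (fr a₀) x) hy hopt (km n)
  refine ⟨i, j, fun α β => ⟨hDom i j α β, ?_⟩⟩
  have hst : st n (LW ⟨n, M, g, s, i, j, α, β⟩) = fr a₀ ∩ bk (km n) i j :=
    st_LW (a := ⟨n, M, g, s, i, j, α, β⟩) rfl rfl
  have hrs : rs (bk (km n) i j) (rs (fr a₀) x) = rs (fr a₀ ∩ bk (km n) i j) x := by
    funext v
    simp only [rs, mem_inter]
    by_cases h1 : v ∈ bk (km n) i j
    · by_cases h2 : v ∈ fr a₀
      · rw [if_pos h1, if_pos h2, if_pos ⟨h2, h1⟩]
      · rw [if_pos h1, if_neg h2, if_neg (fun h => h2 h.1)]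
    · rw [if_neg h1, if_neg (fun h => h1 h.2)]
  rw [hrs] at hij
  show Kp P.p (fm n (SL a₀)) (fv n (bL a₀)) (st n (LW ⟨n, M, g, s, i, j, α, β⟩))
    (rs (st n (LW ⟨n, M, g, s, i, j, α, β⟩)) x)
  rw [hst]
  exact hij

end Pool.Agent.MPa9445a.BE
end

section

/-! The first kind of candidates. -/

set_option autoImplicit false

open Finset

namespace Pool.Agent.MPa9445a.BE

variable {n : ℕ}

private theorem B9b_alp (P : Prm) {n : ℕ} (M g : List ℤ) (s i j : ℕ) (α β α' β' : ℤ)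
    (x : Fin n → ℤ) :
    alp P ⟨n, M, g, s, i, j, α, β⟩ x = alp P ⟨n, M, g, s, i, j, α', β'⟩ x := rfl

private theorem B9b_bet (P : Prm) {n : ℕ} (M g : List ℤ) (s i j : ℕ) (α β α' β' : ℤ)
    (x : Fin n → ℤ) :
    bet P ⟨n, M, g, s, i, j, α, β⟩ x = bet P ⟨n, M, g, s, i, j, α', β'⟩ x := rfl

private theorem B9b_inp (P : Prm) {n y s i j A B : ℕ} {M L g : List ℤ}
    (h1 : gg n (n / P.b) L y = g) (h4 : dg (n / P.b) y 4 = s) (h5 : dg (n / P.b) y 5 = i)
    (h6 : dg (n / P.b) y 6 = j) (h7 : dg (n / P.b) y 7 = A) (h8 : dg (n / P.b) y 8 = B) :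
    inp P n M L y = ⟨n, M, g, s, i, j, (A : ℤ) - 2 * (n : ℤ) ^ 4, (B : ℤ) - 2 * (n : ℤ) ^ 4⟩ := by
  subst h1 h4 h5 h6 h7 h8
  rfl

private theorem B9b_best (P : Prm) (n : ℕ) (M : List ℤ) {y : ℕ} (hy : y < 2 ^ (n / P.b * 9)) :
    Phi n M (vec n (cand P (inp P n M (spl n (n / P.M)) y))) ≤
      Phi n M (vec n (best1 P n M)) := by
  have h := (argmax_spec (k := 2 ^ (n / P.b * 9)) (by positivity) (fun x : ℤ =>
    Phi n M (vec n (cand P (inp P n M (spl n (n / P.M)) x.toNat))))).2 y hy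
  simp only [Int.toNat_natCast] at h
  exact h

/-- The first kind. PROOF. Let `g = lst n (x on H, 0 elsewhere)`, `s = 0` or `1`; `opt_W` gives `i`, `j`. Let `a = ⟨n, M, g, s, i, j, alp, bet⟩` (`alp`, `bet` do not depend on the last two fields: by `rfl`),
`A = alp + 2 n⁴`, `B = bet + 2 n⁴` as natural numbers `≤ 4 n⁴` (`alp_bd`, `bet_bd`). `exists_index` (`K = 9`, `b = n / P.b`, `h = n / P.M`, digits `s, i, j, A, B`, `n4`) gives an index `y < 2 ^ (n / P.b * 9)`
with `inp P n M (spl ..) y = a`. `core_opt` (with `T1_le_kk`, `h.thin`): the candidate of `y` is at least as good as `x`; `argmax_spec`: `best1` is at least as good. -/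
theorem best1_opt {P : Prm} {r δ : ℝ} (h : Good P r δ) (hn : P.n₀ ≤ n) (G : SimpleGraph (Fin n))
    {M : List ℤ} (hA : fm n M = adjZ G) {H : Finset (Fin n)} (hH : H.card * P.M ≤ n)
    {G' : SimpleGraph (Fin n)} (hG' : G' = subG G H ∨ G' = subG Gᶜ H)
    (hE : Energetic r G') (hne : G' ≠ ⊥) {x : Fin n → ℤ} (hx : x ∈ Om (univ : Finset (Fin n)))
    (hmax : ∀ y ∈ Om (univ : Finset (Fin n)), bq (wtm n M) y y ≤ bq (wtm n M) x x) :
    bq (wtm n M) x x ≤ Phi n M (vec n (best1 P n M)) := by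
  have hm := h.m100
  have hM := h.M100
  have h100 : 100 ≤ n := le_trans h.n100 hn
  obtain ⟨s, hs1, hs⟩ : ∃ s : ℕ, s ≤ 1 ∧
      ((s = 0 ∧ G' = subG G H) ∨ (s ≠ 0 ∧ G' = subG Gᶜ H)) := by
    rcases hG' with h1 | h1
    · exact ⟨0, by norm_num, Or.inl ⟨rfl, h1⟩⟩
    · exact ⟨1, le_rfl, Or.inr ⟨one_ne_zero, h1⟩⟩
  set g₀ : Fin n → ℤ := fun v => if v ∈ H then x v else 0 with hg₀
  have hx1 : ∀ v, x v = 1 ∨ x v = -1 := by
    intro v
    have h1 := hx
    unfold Om at h1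
    rw [Fintype.mem_piFinset] at h1
    have h2 := h1 v
    simpa using h2
  have hfg : ∀ v, fv n (lst n g₀) v = if v ∈ H then x v else 0 := by
    intro v
    rw [fv_lst]
  obtain ⟨i, j, hij⟩ := opt_W hm hM h100 (h.opt n hn) G hA hH s hs hE hne hx hmax hfg
  -- the two numbers
  obtain ⟨α, hα⟩ : ∃ α, α = alp P ⟨n, M, lst n g₀, s, i, j, 0, 0⟩ x := ⟨_, rfl⟩
  obtain ⟨β, hβ⟩ : ∃ β, β = bet P ⟨n, M, lst n g₀, s, i, j, 0, 0⟩ x := ⟨_, rfl⟩
  have hαb : |α| ≤ 2 * (n : ℤ) ^ 4 := by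
    rw [hα]
    exact alp_bd (hij 0 0).1 hx
  have hβb : |β| ≤ 2 * (n : ℤ) ^ 4 := by
    rw [hβ]
    exact bet_bd (hij 0 0).1 hx
  obtain ⟨A, hA'⟩ := Int.eq_ofNat_of_zero_le (a := α + 2 * (n : ℤ) ^ 4) (by
    have := (abs_le.mp hαb).1
    linarith)
  obtain ⟨B, hB'⟩ := Int.eq_ofNat_of_zero_le (a := β + 2 * (n : ℤ) ^ 4) (by
    have := (abs_le.mp hβb).1
    linarith)
  have hAle : A ≤ 4 * n ^ 4 := by
    have h1 := (abs_le.mp hαb).2
    have h2 : (A : ℤ) ≤ 4 * (n : ℤ) ^ 4 := by rw [← hA']; linarith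
    exact_mod_cast h2
  have hBle : B ≤ 4 * n ^ 4 := by
    have h1 := (abs_le.mp hβb).2
    have h2 : (B : ℤ) ≤ 4 * (n : ℤ) ^ 4 := by rw [← hB']; linarith
    exact_mod_cast h2
  have h4 := h.n4 n hn
  have hMpos : 0 < P.M := by omega
  obtain ⟨y, hy, hyg, hyd⟩ := exists_index (n := n) (h := n / P.M) (b := n / P.b) (K := 9)
    (h.sM n hn) (by norm_num) (g := g₀) (by
      intro v
      rw [hg₀]
      by_cases hv : v ∈ H
      · simp only [if_pos hv]
        exact Or.inr (hx1 v)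
      · simp only [if_neg hv]
        exact Or.inl trivial) (by
      have h1 : (univ.filter fun v => g₀ v ≠ 0) ⊆ H := by
        intro v hv
        by_contra hvH
        have h2 := (mem_filter.mp hv).2
        rw [hg₀] at h2
        simp only [if_neg hvH] at h2
        exact h2 rfl
      exact (card_le_card h1).trans ((Nat.le_div_iff_mul_le hMpos).mpr hH))
    (fun t => if t = 4 then s else if t = 5 then i else if t = 6 then j else
      if t = 7 then A else B) (by
      intro t _ _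
      have hi := i.isLt
      have hj := j.isLt
      split_ifs <;> omega)
  have d4 := hyd 4 (by norm_num) (by norm_num)
  have d5 := hyd 5 (by norm_num) (by norm_num)
  have d6 := hyd 6 (by norm_num) (by norm_num)
  have d7 := hyd 7 (by norm_num) (by norm_num)
  have d8 := hyd 8 (by norm_num) (by norm_num)
  norm_num at d4 d5 d6 d7 d8
  have hin := B9b_inp P (M := M) hyg d4 d5 d6 d7 d8
  have eA : (A : ℤ) - 2 * (n : ℤ) ^ 4 = α := by
    have : (A : ℤ) = α + 2 * (n : ℤ) ^ 4 := hA'.symm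
    rw [this]
    ring
  have eB : (B : ℤ) - 2 * (n : ℤ) ^ 4 = β := by
    have : (B : ℤ) = β + 2 * (n : ℤ) ^ 4 := hB'.symm
    rw [this]
    ring
  rw [eA, eB] at hin
  have hb := B9b_best P n M hy
  rw [hin] at hb
  refine le_trans ?_ hb
  have hD := (hij α β).1
  refine core_opt (a := ⟨n, M, lst n g₀, s, i, j, α, β⟩) hD
    (T1_le_kk hD h.dm (h.thin n hn)) hx ?_ (hij α β).2 ?_ ?_
  · intro v hv
    change fv n (lst n g₀) v ≠ 0 at hv
    change x v = fv n (lst n g₀) v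
    rw [hfg v] at hv ⊢
    by_cases hvH : v ∈ H
    · rw [if_pos hvH]
    · rw [if_neg hvH] at hv
      exact absurd rfl hv
  · change α = _
    rw [hα]
    exact B9b_alp P M (lst n g₀) s i j 0 0 _ _ x
  · change β = _
    rw [hβ]
    exact B9b_bet P M (lst n g₀) s i j 0 0 _ _ x

end Pool.Agent.MPa9445a.BE
end

section

/-! The second kind of candidates, brute force. -/

set_option autoImplicit false

open Finset

namespace Pool.Agent.MPa9445a.BE

variable {n : ℕ}

/-- Brute force is correct. PROOF. `argmax_spec`, `exists_code`, `bil_eq`. -/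
theorem brute_opt {M : List ℤ} {x : Fin n → ℤ} (hx : x ∈ Om (univ : Finset (Fin n))) :
    bq (wtm n M) x x ≤ Phi n M (vec n (brute n M)) := by
  obtain ⟨c, hc, hcx⟩ := exists_code hx
  have h1 := (argmax_spec (k := 2 ^ n) (by positivity) (fun y => Phi n M (vec n y.toNat))).2 c hc
  have h2 : Phi n M (vec n c) = bq (wtm n M) x x := by
    rw [Phi, bil_eq, hcx]
  have h3 : Phi n M (vec n ((c : ℤ).toNat)) ≤
      Phi n M (vec n (((argmax (2 ^ n) fun y => Phi n M (vec n y.toNat) : ℕ) : ℤ).toNat)) := h1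
  rw [Int.toNat_natCast, Int.toNat_natCast, h2] at h3
  exact h3

/-- The second kind. PROOF. `exists_index` with `K = 4`, `b = n / 8`, `cand2_opt`, `sum_of_max`, `argmax_spec`. -/
theorem best2_opt {P : Prm} {r δ : ℝ} (h : Good P r δ) (hn : P.n₀ ≤ n) (he : Even n)
    (G : SimpleGraph (Fin n)) {M : List ℤ} (hA : fm n M = adjZ G) {H : Finset (Fin n)}
    (hH : 60 * H.card ≤ n) (hG' : subG G H = ⊥ ∨ subG Gᶜ H = ⊥) {x : Fin n → ℤ}
    (hx : x ∈ Om (univ : Finset (Fin n)))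
    (hmax : ∀ y ∈ Om (univ : Finset (Fin n)), bq (wtm n M) y y ≤ bq (wtm n M) x x) :
    bq (wtm n M) x x ≤ Phi n M (vec n (best2 n M)) := by
  have hs := sum_of_max he G hA hx hmax
  have hx1 : ∀ v, x v = 1 ∨ x v = -1 := by
    intro v
    have h1 := Fintype.mem_piFinset.1 hx v
    simpa using h1
  obtain ⟨y, hy, hyg, -⟩ := exists_index (n := n) (h := n / 60) (b := n / 8) (K := 4) (h.s60 n hn)
    le_rfl (g := fun v => if v ∈ H then x v else 0) (by
      intro v
      by_cases hv : v ∈ H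
      · right
        simpa [hv] using hx1 v
      · left
        simp [hv]) (by
      have h1 : (univ.filter fun v => (if v ∈ H then x v else 0) ≠ 0) ⊆ H := by
        intro v hv
        by_contra hvH
        simp [hvH] at hv
      have h2 := Finset.card_le_card h1
      omega) (fun _ => 0) (by intro t h4 h4'; omega)
  have h1 := (argmax_spec (k := 2 ^ (n / 8 * 4)) (by positivity)
    (fun z => Phi n M (vec n (cand2 n M (gg n (n / 8) (spl n (n / 60)) z.toNat))))).2 y hy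
  have h3 : Phi n M (vec n (cand2 n M (gg n (n / 8) (spl n (n / 60)) ((y : ℤ).toNat)))) ≤
      Phi n M (vec n (cand2 n M (gg n (n / 8) (spl n (n / 60))
        (((argmax (2 ^ (n / 8 * 4)) fun z => Phi n M (vec n (cand2 n M
          (gg n (n / 8) (spl n (n / 60)) z.toNat))) : ℕ) : ℤ).toNat)))) := h1
  rw [Int.toNat_natCast, Int.toNat_natCast, hyg] at h3
  have h4 := cand2_opt he G hA (H := H) hG' hx hs (g := lst n fun v => if v ∈ H then x v else 0)
    (fun v => by rw [fv_lst])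
  exact h4.trans h3

end Pool.Agent.MPa9445a.BE
end
end
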