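import Pool.Agent.Lib.MP_a9445a_lc.Mg.G144
import Pool.Agent.Lib.MP_a9445a_lc.BE.Fin

section

/-! A round (claim R of the paper). -/

set_option autoImplicit false

open Finset

namespace Pool.Agent.MPa9445a.DB

open Pool.Agent.MPa9445a.BE (gt bit tb flt lin Phi vec code argmax matMul wtm fv bq)
open Pool.Agent.MPa9445a.GD (itr fm)
open Pool.Agent.MPa9445a.GL (LL)

variable {n : ℕ} {M : List ℤ} {a : ℕ}

/-- The candidate of the round is at least as good as every entry of the list. PROOF. `argmax_spec`. -/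
theorem cb_ge {i : ℕ} (hi : i < (cdL n M a).length) :
    Phi n M (vec n (gt (cdL n M a) i).toNat) ≤ Phi n M (vec n (cb n M a)) := by
  have h := (BE.argmax_spec (k := (cdL n M a).length) (lt_of_le_of_lt (Nat.zero_le _) hi)
    (fun i : ℤ => Phi n M (vec n (gt (cdL n M a) i.toNat).toNat))).2 i hi
  simp only [Int.toNat_natCast] at h
  exact h

private theorem R5_mem {x : ℤ} (hx : x ∈ cdL n M a) :
    Phi n M (vec n x.toNat) ≤ Phi n M (vec n (cb n M a)) := by
  obtain ⟨i, hi, hx'⟩ := List.getElem_of_mem hx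
  have h := cb_ge hi
  have e : gt (cdL n M a) i = x := by
    rw [gt, List.getD_eq_getElem _ _ hi, hx']
  rw [e] at h
  exact h

/-- PROOF. The first entry of the list, `sv_rg`. -/
theorem cb_m0 (hn : 10 ^ 16 ≤ n) : m0 n M a ≤ Phi n M (vec n (cb n M a)) := by
  have h := R5_mem (n := n) (M := M) (a := a) (List.mem_cons_self (a := ((bz n M a + 2 ^ nJ n * a : ℕ) : ℤ)))
  rw [Int.toNat_natCast, ← sv_rg m0_eq.1] at h
  rw [m0_eq.2]
  exact h

/-- PROOF. The entries `1 + (4 l + e)` of the list. -/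
theorem cb_ball {l e : ℕ} (hl : l < n) (he : e < 4) :
    Phi n M (vec n (BW.bw n M (cy n M a l e))) ≤ Phi n M (vec n (cb n M a)) := by
  have hmem : ((BW.bw n M (cy n M a l e) : ℕ) : ℤ) ∈ cdL n M a := by
    unfold cdL
    refine List.mem_cons_of_mem _ (List.mem_append_left _ ?_)
    unfold tb
    refine List.mem_map.2 ⟨4 * l + e, List.mem_range.2 (by omega), ?_⟩
    have h1 : (4 * l + e) / 4 = l := by omega
    have h2 : (4 * l + e) % 4 = e := by omega
    rw [h1, h2]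
  have h := R5_mem hmem
  rw [Int.toNat_natCast] at h
  exact h

/-- PROOF. The entries of `fm` with the index `y = n ^ 4 - p`. -/
theorem cb_Tp {p : ℤ} (hp : |p| ≤ (n : ℤ) ^ 4) (hm : m0 n M a < p) (ht : tE n M a p ≤ thE n M a) {j : ℕ}
    (hj : j < (Tp n M a p).length) :
    Phi n M (vec n (gt (Tp n M a p) j).toNat) ≤ Phi n M (vec n (cb n M a)) := by
  obtain ⟨hpl, hpu⟩ := abs_le.1 hp
  obtain ⟨y, hy⟩ : ∃ y : ℕ, (y : ℤ) = (n : ℤ) ^ 4 - p :=
    ⟨((n : ℤ) ^ 4 - p).toNat, Int.toNat_of_nonneg (by linarith)⟩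
  have hy1 : y < LL n := by
    have h3 : (y : ℤ) < ((LL n : ℕ) : ℤ) := by
      unfold LL
      push_cast
      linarith
    exact_mod_cast h3
  have hy2 : (n : ℤ) ^ 4 - (y : ℤ) = p := by linarith
  have hmem : gt (Tp n M a p) j ∈ Tp n M a p := by
    rw [gt, List.getD_eq_getElem _ _ hj]
    exact List.getElem_mem hj
  refine R5_mem ?_
  unfold cdL
  refine List.mem_cons_of_mem _ (List.mem_append_right _ ?_)
  unfold fm
  refine List.mem_flatMap.2 ⟨y, List.mem_range.2 hy1, ?_⟩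
  rw [hy2, if_pos ⟨hm, ht⟩]
  exact hmem

/-- CLAIM R. PROOF. `p = fz b z` the maximum. If `p = m0`: `cb_m0`. Otherwise `m0 < p` (`m0_ge`, `m0_eq`); `bal_ds` for `z`: a center: `ball_good`, `cb_ball`; or a
pair with `x = xr a b` (`b = xr a x` by `xr_cancel`) and `fz b z + fz a (xr z D) = p + t`: if `tE p ≤ thE` then `Tp_good`, `cb_Tp`; otherwise
`progress`. -/
theorem claim (hn : 10 ^ 16 ≤ n) (hM : ∀ x ∈ M, |x| ≤ 1) (ha : a < 2 ^ (n - nJ n)) {b z : ℕ}
    (hb : b < 2 ^ (n - nJ n)) (hz : z < 2 ^ nJ n)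
    (hmax : ∀ b' < 2 ^ (n - nJ n), ∀ z' < 2 ^ nJ n, fz n M b' z' ≤ fz n M b z) :
    fz n M b z ≤ Phi n M (vec n (cb n M a)) ∨ tt n M a < tt n M (a1 n M a) := by
  have hn0 : 0 < n := lt_of_lt_of_le (by positivity) hn
  rcases le_or_gt (fz n M b z) (m0 n M a) with hm | hm
  · exact Or.inl (hm.trans (cb_m0 hn))
  rcases bal_ds (a := a) hn hM hz with ⟨l, hl, hip⟩ | ⟨i, hi, κ, hκ, heq⟩
  · obtain ⟨e, he, h1⟩ := ball_good (b := b) hn hM hz hip
    exact Or.inl (h1.trans (cb_ball hl he))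
  · have hx : xr (n - nJ n) a (xr (n - nJ n) a b) = b := by
      rw [← xr_assoc, xr_self, xr_comm, xr_zero hb]
    have hsum : fz n M (xr (n - nJ n) a (xr (n - nJ n) a b)) z +
        fz n M a (xr (nJ n) z (ds n M a i κ)) = fz n M b z + tt n M a := by
      rw [hx, heq]
    rcases le_or_gt (tE n M a (fz n M b z)) (thE n M a) with ht | ht
    · obtain ⟨j, hj, h1⟩ := Tp_good hn0 hM hi hκ (xr_lt _ _ _) hz hsum
      rw [hx] at h1
      exact Or.inl (h1.trans (cb_Tp (fz_abs hn0 hM z) hm ht hj))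
    · exact Or.inr (progress hn hM (fz_abs hn0 hM z) hmax hm ht)

end Pool.Agent.MPa9445a.DB
end

section

/-! The result. -/

set_option autoImplicit false

open Finset

namespace Pool.Agent.MPa9445a.DB

open Pool.Agent.MPa9445a.BE (gt bit tb flt lin Phi vec code argmax matMul wtm fv bq)
open Pool.Agent.MPa9445a.GD (itr)
open Pool.Agent.MPa9445a.GL (LL)

variable {n : ℕ} {M : List ℤ}

/-- PROOF. `a1_lt`. -/
private theorem ra_lt (k : ℕ) : ra n M k < 2 ^ (n - nJ n) := by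
  cases k with
  | zero => exact pow_pos (by norm_num) _
  | succ k => exact a1_lt

/-- Every vector is a vector of a region. PROOF. `z = c % 2 ^ nJ`, `b = c / 2 ^ nJ`, `sv_rg`. -/
theorem exists_reg {c : ℕ} (hc : c < 2 ^ n) : ∃ b < 2 ^ (n - nJ n), ∃ z < 2 ^ nJ n,
    Phi n M (vec n c) = fz n M b z := by
  have hz : c % 2 ^ nJ n < 2 ^ nJ n := Nat.mod_lt _ (by positivity)
  refine ⟨c / 2 ^ nJ n, ?_, c % 2 ^ nJ n, hz, ?_⟩
  · rw [Nat.div_lt_iff_lt_mul (by positivity), ← pow_add, Nat.sub_add_cancel (nJ_le n)]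
    exact hc
  · unfold fz
    rw [sv_rg hz, Nat.mod_add_div]

private theorem R6_reg_lt {b z : ℕ} (hb : b < 2 ^ (n - nJ n)) (hz : z < 2 ^ nJ n) :
    z + 2 ^ nJ n * b < 2 ^ n := by
  calc z + 2 ^ nJ n * b < 2 ^ nJ n + 2 ^ nJ n * b := by omega
    _ = 2 ^ nJ n * (b + 1) := by ring
    _ ≤ 2 ^ nJ n * 2 ^ (n - nJ n) := Nat.mul_le_mul_left _ hb
    _ = 2 ^ n := by rw [← pow_add, Nat.add_sub_cancel' (nJ_le n)]

/-- One round is successful. PROOF. `claim` for `ra k`, `k = 0, …, LL - 1`, otherwise `tt (ra 0) < … < tt (ra LL)` are `LL + 1` different levels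
(`tt_abs`). -/
theorem exists_round (hn : 10 ^ 16 ≤ n) (hM : ∀ x ∈ M, |x| ≤ 1) :
    ∃ k < LL n + 1, ∀ c < 2 ^ n, Phi n M (vec n c) ≤ Phi n M (vec n (cb n M (ra n M k))) := by
  by_contra hcon
  push Not at hcon
  obtain ⟨c₀, hc₀, hmax₀⟩ := Finset.exists_max_image (range (2 ^ n)) (fun c => Phi n M (vec n c))
    ⟨0, Finset.mem_range.2 (by positivity)⟩
  have hmax : ∀ c < 2 ^ n, Phi n M (vec n c) ≤ Phi n M (vec n c₀) := fun c hc =>
    hmax₀ c (Finset.mem_range.2 hc)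
  obtain ⟨b, hb, z, hz, hbz⟩ := exists_reg (M := M) (Finset.mem_range.1 hc₀)
  have hmax2 : ∀ b' < 2 ^ (n - nJ n), ∀ z' < 2 ^ nJ n, fz n M b' z' ≤ fz n M b z := by
    intro b' hb' z' hz'
    rw [← hbz]
    unfold fz
    rw [sv_rg hz']
    exact hmax _ (R6_reg_lt hb' hz')
  have hstep : ∀ k < LL n + 1, tt n M (ra n M k) < tt n M (ra n M (k + 1)) := by
    intro k hk
    rcases claim hn hM (ra_lt (M := M) k) hb hz hmax2 with h | h
    · exfalso
      obtain ⟨c, hc, hlt⟩ := hcon k hk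
      have h2 := hmax c hc
      rw [hbz] at h2
      exact absurd (lt_of_le_of_lt h hlt) (not_lt.2 h2)
    · exact h
  have hind : ∀ k ≤ LL n + 1, tt n M (ra n M 0) + k ≤ tt n M (ra n M k) := by
    intro k
    induction k with
    | zero => intro _; simp
    | succ k ih =>
      intro hk
      have h1 := ih (by omega)
      have h2 := hstep k (by omega)
      push_cast
      linarith
  have h1 := hind (LL n + 1) le_rfl
  have h2 := abs_le.1 (tt_abs (a := ra n M 0) hn hM)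
  have h3 := abs_le.1 (tt_abs (a := ra n M (LL n + 1)) hn hM)
  have h4 : ((LL n + 1 : ℕ) : ℤ) = 2 * (n : ℤ) ^ 4 + 2 := by
    unfold LL
    push_cast
    ring
  rw [h4] at h1
  linarith [h2.1, h3.2]

/-- PROOF. `argmax_spec`, `exists_round`; brute force for `n < n₀`. -/
theorem tc_max {n₀ : ℕ} (h₀ : 10 ^ 16 ≤ n₀) (hM : ∀ x ∈ M, |x| ≤ 1) {c : ℕ} (hc : c < 2 ^ n) :
    Phi n M (vec n c) ≤ Phi n M (vec n (tc n₀ n M)) := by
  by_cases hn : n < n₀
  · have h1 : tc n₀ n M = argmax (2 ^ n) fun c => Phi n M (vec n c.toNat) := by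
      unfold tc
      rw [if_pos hn]
    have h2 := (BE.argmax_spec (k := 2 ^ n) (by positivity)
      (fun c : ℤ => Phi n M (vec n c.toNat))).2 c hc
    rw [← h1] at h2
    simp only [Int.toNat_natCast] at h2
    exact h2
  · have hn' : 10 ^ 16 ≤ n := h₀.trans (Nat.not_lt.1 hn)
    obtain ⟨k, hk, hmax⟩ := exists_round hn' hM
    have h1 : tc n₀ n M = cb n M (ra n M (argmax (LL n + 1) fun k =>
        Phi n M (vec n (cb n M (ra n M k.toNat))))) := by
      unfold tc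
      rw [if_neg hn]
    have h2 := (BE.argmax_spec (k := LL n + 1) (Nat.succ_pos _)
      (fun k : ℤ => Phi n M (vec n (cb n M (ra n M k.toNat))))).2 k hk
    simp only [Int.toNat_natCast] at h2
    rw [← h1] at h2
    exact (hmax c hc).trans h2

/-- PROOF. As `SX.out_min` (`SX/V3b`): `BE.min_of_max`, `BE.exists_code`. -/
theorem out_min (hn : Even n) (G : SimpleGraph (Fin n)) {n₀ : ℕ} (h₀ : 10 ^ 16 ≤ n₀)
    (hM : ∀ x ∈ M, |x| ≤ 1) (hA : BE.fm n M = BE.adjZ G) :
    BE.IsMinBisection G (univ.filter fun v : Fin n => gt (out n₀ n M) v = 1) := by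
  have h1 : (fun v : Fin n =>
      if v ∈ (univ.filter fun v : Fin n => gt (out n₀ n M) v = 1)
      then (1 : ℤ) else -1) = fv n (vec n (tc n₀ n M)) := by
    funext v
    have h2 : gt (out n₀ n M) (v : ℕ) = (bit (tc n₀ n M) v : ℤ) :=
      BE.fv_tb n (fun v => (bit (tc n₀ n M) v : ℤ)) v
    have h4 : bit (tc n₀ n M) (v : ℕ) = 0 ∨ bit (tc n₀ n M) (v : ℕ) = 1 := by
      unfold bit
      omega
    rw [vec, BE.fv_tb]
    rcases h4 with h4 | h4
    · rw [h4] at h2 ⊢
      rw [if_neg]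
      · norm_num
      · rw [Finset.mem_filter, h2]
        norm_num
    · rw [h4] at h2 ⊢
      rw [if_pos]
      · norm_num
      · rw [Finset.mem_filter, h2]
        exact ⟨Finset.mem_univ v, by norm_num⟩
  have hPhi : ∀ l : List ℤ, bq (wtm n M) (fv n l) (fv n l) = Phi n M l := by
    intro l
    rw [Phi, BE.bil_eq]
  refine BE.min_of_max hn G hA ?_
  intro y hy
  obtain ⟨c, hc, rfl⟩ := BE.exists_code hy
  rw [h1, hPhi, hPhi]
  exact tc_max h₀ hM hc

end Pool.Agent.MPa9445a.DB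
end
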