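import Pool.Agent.Lib.MP_a9445a_lc.Mg.G124

section

/-!
# The algorithm: top level

The levels are tried from above. The first level `tp` which is not certified to be empty is the maximum, if a vector of this value is found: in
the list, or among the samples of the last depth. Otherwise all vectors are tried.
-/

set_option autoImplicit false

open Finset

namespace Pool.Agent.MPa9445a.GL

open Pool.Agent.MPa9445a.BE

variable (n : ℕ) (M R : List ℤ) (k b : ℕ)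

/-- The index of the first level which is not certified to be empty. -/
def tx : ℕ := argmax (LL n) fun x =>
  if (EE n M R (k + 1) (full n) ((n : ℤ) ^ 4 - x.toNat) b).length ≠ 1 then 1 else 0

/-- The first level which is not certified to be empty. -/
def tp : ℤ := (n : ℤ) ^ 4 - tx n M R k b

/-- The answer for this level. -/
def tA : List ℤ := EE n M R (k + 1) (full n) (tp n M R k b) b

/-- The code of the sample with index `x`. -/
def smc (x : ℕ) : ℕ := rc n R (ofs n k (x / 2 ^ b)) (x % 2 ^ b)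

/-- The samples of this level. -/
def tS : List ℤ := flt (Zn n * 2 ^ b) fun x =>
  Phi n M (sv n (full n) (smc n R k b x)) = tp n M R k b

/-- All vectors have to be tried. -/
def slow : Prop := (tA n M R k b).length = 0 ∧ (tS n M R k b).length = 0

instance : Decidable (slow n M R k b) := by
  unfold slow
  infer_instance

/-- The code of the result. -/
def tc : ℕ :=
  if (tA n M R k b).length ≠ 0 then (gt (tA n M R k b) 1).toNat else
  if (tS n M R k b).length ≠ 0 then smc n R k b (gt (tS n M R k b) 0).toNat else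
    argmax (2 ^ n) fun c => Phi n M (vec n c.toNat)

/-- The result: the array of the binary digits of the code. -/
def out : List ℤ := tb n fun v => (bit (tc n M R k b) v : ℤ)

end Pool.Agent.MPa9445a.GL
end

section

/-! The small procedures are computed by programs in polynomial time. -/

set_option autoImplicit false

open Finset

namespace Pool.Agent.MPa9445a.GL

open Pool.Agent.MPa9445a.BE (Ty Env vs one Bd NL DL tb flt gt bit Phi vec code lin argmax Bd.const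
  Bd.add Bd.mul Bd.le Bd.up Bd.var Bd.self)
open Pool.Agent.MPa9445a.GD
open Pool.Agent.MPa9445a.SN (kb)

variable {A : Type} {N : A → ℕ} {D : A → Prop} {Γ : List Ty} {ρ : A → Env Γ}

theorem c_kb {n : A → ℕ} (hn : PN N D ρ n) : PN N D ρ (fun a => kb (n a)) := by
  exact PN.add (PN.mul (PN.const 3) hn) (PN.const 6)

theorem bd_kb {n : A → ℕ} (hb : Bd N D n) : Bd N D (fun a => kb (n a)) := by
  exact ((Bd.const 3).mul hb).add (Bd.const 6)

theorem c_bl {n : A → ℕ} (hn : PN N D ρ n) : PN N D ρ (fun a => bl (n a)) := by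
  exact PN.mul hn (PN.add (c_kb hn) (PN.const 1))

theorem c_min {f g : A → ℕ} (hf : PN N D ρ f) (hg : PN N D ρ g) :
    PN N D ρ (fun a => min (f a) (g a)) := by
  refine (PN.ite (PB.leN hf hg) hf hg).congr fun a _ => ?_
  exact congrArg (fun m : ℕ => (m : ℤ)) (min_def (f a) (g a)).symm

theorem c_rk {s : A → List ℤ} {v : A → ℕ} (hs : PA N D ρ s) (hv : PN N D ρ v) (bv : Bd N D v) :
    PN N D ρ (fun a => rk (s a) (v a)) := by
  exact PN.sum hv bv fun Γ1 ρ1 up hu => PN.ite (PB.eq (PI.get (up.a hs) hu) (PI.const 2))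
    (PN.const 1) (PN.const 0)

theorem rk_le (s : List ℤ) (v : ℕ) : rk s v ≤ v := by
  unfold rk
  calc ∑ u ∈ range v, (if gt s u = 2 then 1 else 0) ≤ ∑ _u ∈ range v, 1 :=
        Finset.sum_le_sum fun u _ => by split_ifs <;> omega
    _ = v := by simp

theorem bd_rk {s : A → List ℤ} {v : A → ℕ} (bv : Bd N D v) :
    Bd N D (fun a => rk (s a) (v a)) := bv.le fun _ _ => rk_le _ _

theorem c_sv {n c : A → ℕ} {s : A → List ℤ} (hn : PN N D ρ n) (bn : Bd N D n)
    (hs : PA N D ρ s) (hc : PN N D ρ c) : PA N D ρ (fun a => sv (n a) (s a) (c a)) := by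
  refine PA.tab hn bn fun Γ1 ρ1 up hv => ?_
  exact Cp.ite (PB.eq (PI.get (up.a hs) hv) (PI.const 2))
    (PI.sub (PI.mul (PI.const 2) (PN.bit (up.n hc) hv (Bd.var bn))) (PI.const 1))
    (PI.get (up.a hs) hv)

theorem c_xv {n u : A → ℕ} {s : A → List ℤ} (hn : PN N D ρ n) (bn : Bd N D n)
    (hs : PA N D ρ s) (hu : PN N D ρ u) : PA N D ρ (fun a => xv (n a) (s a) (u a)) := by
  refine PA.tab hn bn fun Γ1 ρ1 up hv => ?_
  exact Cp.ite (PB.eq (PI.get (up.a hs) hv) (PI.const 2))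
    (PI.sub (PI.mul (PI.const 2) (PN.bit (up.n hu) (c_rk (up.a hs) hv (Bd.var bn))
      (bd_rk (Bd.var bn)))) (PI.const 1))
    (PI.get (up.a hs) hv)

theorem c_prL {n i : A → ℕ} {s x : A → List ℤ} (hn : PN N D ρ n) (bn : Bd N D n)
    (hs : PA N D ρ s) (hx : PA N D ρ x) (hi : PN N D ρ i) :
    PA N D ρ (fun a => prL (n a) (s a) (x a) (i a)) := by
  refine PA.tab hn bn fun Γ1 ρ1 up hv => ?_
  exact Cp.ite (PB.and (PB.eq (PI.get (up.a hs) hv) (PI.const 2)) (PB.ltN hv (up.n hi)))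
    (PI.get (up.a hx) hv) (PI.get (up.a hs) hv)

theorem c_laL {n d : A → ℕ} {r : A → List ℤ} (hn : PN N D ρ n) (bn : Bd N D n)
    (hr : PA N D ρ r) (hd : PN N D ρ d) : PA N D ρ (fun a => laL (n a) (r a) (d a)) := by
  refine PA.tab hn bn fun Γ1 ρ1 up hv => ?_
  have hg := PI.get (up.a hr) hv
  exact Cp.ite (PB.eqN (PN.bit (up.n hd) hv (Bd.var bn)) (PN.const 1))
    (Cp.ite (PB.eq hg (PI.const 2)) (PI.const 2)
      ((PI.sub (PI.const 0) hg).congr fun a _ => by simp)) (PI.const 0)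

theorem c_rhL {n d : A → ℕ} {r : A → List ℤ} (hn : PN N D ρ n) (bn : Bd N D n)
    (hr : PA N D ρ r) (hd : PN N D ρ d) : PA N D ρ (fun a => rhL (n a) (r a) (d a)) := by
  refine PA.tab hn bn fun Γ1 ρ1 up hv => ?_
  exact Cp.ite (PB.eqN (PN.bit (up.n hd) hv (Bd.var bn)) (PN.const 1)) (PI.const 0)
    (PI.get (up.a hr) hv)

theorem c_Rn {n : A → ℕ} (hn : PN N D ρ n) : PN N D ρ (fun a => Rn (n a)) :=
  PN.mul (PN.const 32) (PN.add hn (PN.const 5))

theorem bd_Rn {n : A → ℕ} (bn : Bd N D n) : Bd N D (fun a => Rn (n a)) :=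
  (Bd.const 32).mul (bn.add (Bd.const 5))

theorem c_Zn {n : A → ℕ} (hn : PN N D ρ n) : PN N D ρ (fun a => Zn (n a)) :=
  PN.add (PN.add (PN.mul (PN.const 2) (PN.pow hn 2)) (PN.mul (PN.const 8) hn)) (PN.const 16)

theorem c_LL {n : A → ℕ} (hn : PN N D ρ n) : PN N D ρ (fun a => LL (n a)) :=
  PN.add (PN.mul (PN.const 2) (PN.pow hn 4)) (PN.const 1)

theorem bd_LL {n : A → ℕ} (bn : Bd N D n) : Bd N D (fun a => LL (n a)) := by
  refine Bd.le (((Bd.const 2).mul ((bn.mul bn).mul (bn.mul bn))).add (Bd.const 1))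
    fun a _ => le_of_eq ?_
  unfold LL
  ring

theorem c_RL {n : A → ℕ} (hn : PN N D ρ n) : PN N D ρ (fun a => RL (n a)) :=
  PN.add (PN.add (PN.mul (PN.const 2) (c_bl hn)) (PN.mul hn hn)) (PN.mul (c_Rn hn) hn)

theorem c_ofs {n z : A → ℕ} (k : ℕ) (hn : PN N D ρ n) (hz : PN N D ρ z) :
    PN N D ρ (fun a => ofs (n a) k (z a)) :=
  PN.mul (PN.add (PN.mul (PN.const k) (c_Zn hn)) hz) (c_RL hn)

theorem c_rc {n o i : A → ℕ} {R : A → List ℤ} (hn : PN N D ρ n) (hb : Bd N D n)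
    (hR : PA N D ρ R) (ho : PN N D ρ o) (hi : PN N D ρ i) :
    PN N D ρ (fun a => rc (n a) (R a) (o a) (i a)) := by
  refine PN.sum hn hb fun Γ1 ρ1 up1 hv => ?_
  have hn1 := up1.n hn
  have hidx : PN (NL N) (DL D n) ρ1 (fun p => o p.1 + p.2 * (kb (n p.1) + 1)) :=
    PN.add (up1.n ho) (PN.mul hv (PN.add (c_kb hn1) (PN.const 1)))
  refine PN.mul (PN.toNat (PI.mod (PI.add (PI.get (up1.a hR) hidx) ?_) (PI.const 2)))
    (PN.pow2 hv (Bd.var hb))
  refine PI.sum (c_kb hn1) (bd_kb (hb.up _)) fun Γ2 ρ2 up2 hj => ?_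
  exact PI.mul (PI.get (up2.a (up1.a hR)) (PN.add (up2.n hidx) (PN.add hj (PN.const 1))))
    (PN.bit (up2.n (up1.n hi)) hj (Bd.var (bd_kb (hb.up _))))

theorem c_dk {n c : A → ℕ} {r : A → List ℤ} (hn : PN N D ρ n) (hb : Bd N D n)
    (hr : PA N D ρ r) (hc : PN N D ρ c) : PN N D ρ (fun a => dk (n a) (r a) (c a)) := by
  refine PN.sum hn hb fun Γ1 ρ1 up1 hv => ?_
  exact PN.ite (PB.eq (PI.get (up1.a hr) hv) (PI.const 2))
    (PN.mul (PN.bit (up1.n hc) hv (Bd.var hb)) (PN.pow2 hv (Bd.var hb))) (PN.const 0)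

theorem c_wc {n j u : A → ℕ} {s : A → List ℤ} (hn : PN N D ρ n) (hb : Bd N D n)
    (hs : PA N D ρ s) (hj : PN N D ρ j) (hu : PN N D ρ u) :
    PN N D ρ (fun a => wc (n a) (s a) (j a) (u a)) := by
  refine PN.sum hn hb fun Γ1 ρ1 up1 hv => ?_
  exact PN.ite (PB.and (PB.eq (PI.get (up1.a hs) hv) (PI.const 2)) (PB.ltN hv (up1.n hj)))
    (PN.mul (PN.bit (up1.n hu) (c_rk (up1.a hs) hv (Bd.var hb)) (bd_rk (Bd.var hb)))
      (PN.pow2 hv (Bd.var hb))) (PN.const 0)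

theorem c_dw {n o j w i : A → ℕ} {R s : A → List ℤ} (hn : PN N D ρ n) (hb : Bd N D n)
    (hR : PA N D ρ R) (ho : PN N D ρ o) (hs : PA N D ρ s) (hj : PN N D ρ j) (hw : PN N D ρ w)
    (hi : PN N D ρ i) :
    PN N D ρ (fun a => dw (n a) (R a) (o a) (s a) (j a) (w a) (i a)) := by
  refine PN.sum hn hb fun Γ1 ρ1 up1 hv => ?_
  have hn1 := up1.n hn
  have ho1 := up1.n ho
  have hR1 := up1.a hR
  refine PN.ite (PB.eq (PI.get (up1.a hs) hv) (PI.const 2)) ?_ (PN.const 0)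
  refine PN.mul (PN.toNat (PI.mod (PI.add ?_ (PI.get hR1 (PN.add (PN.add (PN.add ho1
    (PN.mul hn1 hn1)) (PN.mul (up1.n hi) hn1)) hv))) (PI.const 2))) (PN.pow2 hv (Bd.var hb))
  refine Cp.ite (PB.ltN hv (up1.n hj)) (PN.bit (up1.n hw) hv (Bd.var hb)) ?_
  refine PI.sum hn1 (hb.up _) fun Γ2 ρ2 up2 hu => ?_
  exact PI.mul (PI.get (up2.a hR1) (PN.add (PN.add (up2.n ho1) (PN.mul (up2.n hv) (up2.n hn1))) hu))
    (PN.bit (up2.n (up1.n hw)) hu (Bd.var (hb.up _)))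

theorem c_sy {n o j y i : A → ℕ} {R s : A → List ℤ} (hn : PN N D ρ n) (hb : Bd N D n)
    (hR : PA N D ρ R) (ho : PN N D ρ o) (hs : PA N D ρ s) (hj : PN N D ρ j) (hy : PN N D ρ y)
    (hi : PN N D ρ i) :
    PN N D ρ (fun a => sy (n a) (R a) (o a) (s a) (j a) (y a) (i a)) := by
  refine PN.sum hn hb fun Γ1 ρ1 up1 hv => ?_
  have hn1 := up1.n hn
  have ho1 := up1.n ho
  have hR1 := up1.a hR
  have hi1 := up1.n hi
  refine PN.ite (PB.and (PB.eq (PI.get (up1.a hs) hv) (PI.const 2)) (PB.leN (up1.n hj) hv)) ?_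
    (PN.const 0)
  refine PN.mul (PN.toNat (PI.mod (PI.add (PI.add (PN.bit (up1.n hy) hv (Bd.var hb))
    (PI.get hR1 (PN.add (PN.add (PN.add ho1 (PN.mul hn1 hn1)) (PN.mul hi1 hn1)) hv))) ?_)
    (PI.const 2))) (PN.pow2 hv (Bd.var hb))
  refine PI.sum hn1 (hb.up _) fun Γ2 ρ2 up2 hu => ?_
  refine Cp.ite (PB.and (PB.eq (PI.get (up2.a (up1.a hs)) hu) (PI.const 2))
    (PB.ltN hu (up2.n (up1.n hj)))) ?_ (PI.const 0)
  refine PI.mul (PI.get (up2.a hR1) (PN.add (PN.add (up2.n ho1) (PN.mul (up2.n hv) (up2.n hn1))) hu)) ?_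
  exact PI.add (PN.bit (up2.n (up1.n hy)) hu (Bd.var (hb.up _)))
    (PI.get (up2.a hR1) (PN.add (PN.add (PN.add (up2.n ho1) (PN.mul (up2.n hn1) (up2.n hn1)))
      (PN.mul (up2.n hi1) (up2.n hn1))) hu))

theorem c_lvv {n x : A → ℕ} (hn : PN N D ρ n) (hx : PN N D ρ x) :
    PI N D ρ (fun a => lvv (n a) (x a)) := PI.sub hx (PI.pow hn 4)

theorem c_inl {n : A → ℕ} {b : A → ℤ} (hn : PN N D ρ n) (hb : PI N D ρ b) :
    GD.PB N D ρ (fun a => inl (n a) (b a)) := by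
  have h1 : PI N D ρ (fun a => -((n a : ℕ) : ℤ) ^ 4) :=
    (PI.sub (PI.const 0) (PI.pow hn 4)).congr fun a _ => zero_sub _
  exact PB.and (PB.le h1 hb) (PB.le hb (PI.pow hn 4))

theorem c_PB {n : A → ℕ} (hn : PN N D ρ n) : PN N D ρ (fun a => PB (n a)) :=
  PN.mul (PN.const 2048) (PN.pow (PN.add hn (PN.const 1)) 4)

theorem bd_PB {n : A → ℕ} (hb : Bd N D n) : Bd N D (fun a => PB (n a)) := by
  have h := hb.add (Bd.const 1)
  refine Bd.le ((Bd.const 2048).mul ((h.mul h).mul (h.mul h))) fun a _ => le_of_eq ?_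
  unfold PB
  ring

theorem c_dg {n x : A → ℕ} (hn : PN N D ρ n) (hx : PN N D ρ x) (t : ℕ) :
    PN N D ρ (fun a => dg (n a) (x a) t) := by
  exact PN.mod (PN.div hx (PN.pow (c_PB hn) t)) (c_PB hn)

theorem bd_dg {n x : A → ℕ} (hb : Bd N D n) (t : ℕ) : Bd N D (fun a => dg (n a) (x a) t) :=
  (bd_PB hb).le fun a _ => (Nat.mod_lt _ (by unfold PB; positivity)).le

/-- The brute force list. -/
theorem c_br {n : A → ℕ} {M s : A → List ℤ} {p : A → ℤ} (hn : PN N D ρ n) (hb : Bd N D n)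
    (hM : PA N D ρ M) (hs : PA N D ρ s) (hp : PI N D ρ p) :
    Cp N D ρ (fun _ a => (2 : ℝ) ^ rk (s a) (n a)) .arr (fun a => br (n a) (M a) (s a) (p a)) := by
  have hF := Cp.filter (q := fun a u => Phi (n a) (M a) (xv (n a) (s a) u) = p a)
    (PN.pow2 (c_rk hs hn hb) (bd_rk hb)) fun Γ1 ρ1 up hv =>
      PB.eq (PI.Phi (up.n hn) (hb.up _) (up.a hM) (c_xv (up.n hn) (hb.up _) (up.a hs) hv)) (up.i hp)
  have h2 : ∀ a, D a → ∀ τ : ℝ, 2 ≤ τ → 1 ≤ (2 : ℝ) ^ rk (s a) (n a) ∧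
      (((2 ^ rk (s a) (n a) : ℕ) : ℝ) + 1) ≤ ((N a : ℝ) + 2) ^ 1 * (2 : ℝ) ^ rk (s a) (n a) := by
    intro a _ τ _
    have h3 : (1 : ℝ) ≤ (2 : ℝ) ^ rk (s a) (n a) := one_le_pow₀ (by norm_num)
    have h4 : (0 : ℝ) ≤ N a := Nat.cast_nonneg _
    refine ⟨h3, ?_⟩
    push_cast
    nlinarith
  refine (hF.mono_poly 1 h2).store fun Γ1 ρ1 k1 hF' => ?_
  have hT := Cp.tab (w := one) (PN.len hF') (fun _ _ _ _ => le_refl _)
    (f := fun a i => (code (n a) (xv (n a) (s a)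
      (gt (flt (2 ^ rk (s a) (n a)) fun u => Phi (n a) (M a) (xv (n a) (s a) u) = p a) i).toNat) : ℤ))
    fun Γ2 ρ2 up hv => PN.code (up.n (k1.n hn)) (hb.up _) (c_xv (up.n (k1.n hn)) (hb.up _)
      (up.a (k1.a hs)) (PN.toNat (PI.get (up.a hF') hv)))
  refine hT.mono_poly 1 fun a ha τ hτ => ?_
  obtain ⟨h3, h4⟩ := h2 a ha τ hτ
  refine ⟨h3, ?_⟩
  have h5 : (flt (2 ^ rk (s a) (n a)) fun u => Phi (n a) (M a) (xv (n a) (s a) u) = p a).length ≤
      2 ^ rk (s a) (n a) := by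
    unfold flt
    rw [List.length_map]
    exact (List.length_filter_le _ _).trans (by rw [List.length_range])
  have h6 : ((flt (2 ^ rk (s a) (n a)) fun u => Phi (n a) (M a) (xv (n a) (s a) u) = p a).length : ℝ) ≤
      ((2 ^ rk (s a) (n a) : ℕ) : ℝ) := by exact_mod_cast h5
  rw [one, mul_one]
  linarith

end Pool.Agent.MPa9445a.GL
end

section

/-! The join, the test for a pair of answers, the tail of an array. -/

set_option autoImplicit false

open Finset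

namespace Pool.Agent.MPa9445a.GL

open Pool.Agent.MPa9445a.BE (Ty Env vs one Bd NL DL tb flt gt bit Phi vec code lin argmax Bd.const
  Bd.add Bd.mul Bd.le Bd.up Bd.var Bd.self)
open Pool.Agent.MPa9445a.GD
open Pool.Agent.MPa9445a.SN (kb)

variable {A : Type} {N : A → ℕ} {D : A → Prop} {Γ : List Ty} {ρ : A → Env Γ}

theorem c_xy {n x : A → ℕ} {l r X Y : A → List ℤ} (hn : PN N D ρ n) (bn : Bd N D n)
    (hl : PA N D ρ l) (hr : PA N D ρ r) (hX : PA N D ρ X) (hY : PA N D ρ Y) (hx : PN N D ρ x) :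
    PA N D ρ (fun a => xy (n a) (l a) (r a) (X a) (Y a) (x a)) := by
  have hm := PN.sub (PN.len hY) (PN.const 1)
  exact PA.lin 1 1 hn bn
    (c_sv hn bn hl (PN.toNat (PI.get hX (PN.add (PN.const 1) (PN.div hx hm)))))
    (c_sv hn bn hr (PN.toNat (PI.get hY (PN.add (PN.const 1) (PN.mod hx hm)))))

/-- The weight of the join of two answers. -/
noncomputable def jw (X Y : List ℤ) : ℝ := ((X.length - 1) * (Y.length - 1) : ℕ) + 1

theorem one_le_jw (X Y : List ℤ) : 1 ≤ jw X Y := by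
  unfold jw
  have : (0 : ℝ) ≤ (((X.length - 1) * (Y.length - 1) : ℕ) : ℝ) := Nat.cast_nonneg _
  linarith

theorem c_ix {n : A → ℕ} {M l r X Y : A → List ℤ} {p : A → ℤ} (hn : PN N D ρ n) (bn : Bd N D n)
    (hM : PA N D ρ M) (hl : PA N D ρ l) (hr : PA N D ρ r) (hX : PA N D ρ X) (hY : PA N D ρ Y)
    (hp : PI N D ρ p) :
    Cp N D ρ (fun _ a => jw (X a) (Y a)) .arr
      (fun a => ix (n a) (M a) (l a) (r a) (X a) (Y a) (p a)) := by
  exact Cp.filter (q := fun a x => Phi (n a) (M a) (xy (n a) (l a) (r a) (X a) (Y a) x) = p a)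
    (PN.mul (PN.sub (PN.len hX) (PN.const 1)) (PN.sub (PN.len hY) (PN.const 1)))
    fun Γ1 ρ1 up hv => PB.eq (PI.Phi (up.n hn) (bn.up _) (up.a hM)
      (c_xy (up.n hn) (bn.up _) (up.a hl) (up.a hr) (up.a hX) (up.a hY) hv)) (up.i hp)

theorem c_jn {n : A → ℕ} {M l r X Y : A → List ℤ} {p : A → ℤ} (hn : PN N D ρ n) (bn : Bd N D n)
    (hM : PA N D ρ M) (hl : PA N D ρ l) (hr : PA N D ρ r) (hX : PA N D ρ X) (hY : PA N D ρ Y)
    (hp : PI N D ρ p) :
    Cp N D ρ (fun _ a => jw (X a) (Y a)) .arr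
      (fun a => jn (n a) (M a) (l a) (r a) (X a) (Y a) (p a)) := by
  refine (c_ix hn bn hM hl hr hX hY hp).store fun Γ1 ρ1 k1 hF => ?_
  have hT := Cp.tab (w := one) (PN.len hF) (fun _ _ _ _ => le_refl _)
    (f := fun a i => (code (n a) (xy (n a) (l a) (r a) (X a) (Y a)
      (gt (ix (n a) (M a) (l a) (r a) (X a) (Y a) (p a)) i).toNat) : ℤ))
    fun Γ2 ρ2 up hv => PN.code (up.n (k1.n hn)) (bn.up _) (c_xy (up.n (k1.n hn)) (bn.up _)
      (up.a (k1.a hl)) (up.a (k1.a hr)) (up.a (k1.a hX)) (up.a (k1.a hY))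
      (PN.toNat (PI.get (up.a hF) hv)))
  refine hT.mono fun a _ τ _ => ?_
  have h1 : (ix (n a) (M a) (l a) (r a) (X a) (Y a) (p a)).length ≤
      ((X a).length - 1) * ((Y a).length - 1) := length_flt_le _ _
  have h2 : ((ix (n a) (M a) (l a) (r a) (X a) (Y a) (p a)).length : ℝ) ≤
      ((((X a).length - 1) * ((Y a).length - 1) : ℕ) : ℝ) := by exact_mod_cast h1
  rw [one, mul_one]
  unfold jw
  linarith

theorem c_tl {L : A → List ℤ} (hL : PA N D ρ L) :
    Cp N D ρ (fun _ a => ((L a).length : ℝ) + 1) .arr (fun a => tl (L a)) := by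
  have h := Cp.tab (w := one) (PN.sub (PN.len hL) (PN.const 1)) (fun _ _ _ _ => le_refl _)
    (f := fun a i => gt (L a) (1 + i)) fun Γ1 ρ1 up hv =>
      PI.get (up.a hL) (PN.add (PN.const 1) hv)
  refine h.mono fun a _ τ _ => ?_
  have h1 : (((L a).length - 1 : ℕ) : ℝ) ≤ (L a).length := by
    exact_mod_cast Nat.sub_le _ _
  rw [one, mul_one]
  linarith

theorem length_tl (L : List ℤ) : (tl L).length = L.length - 1 := length_tb _ _

theorem c_pok {X Y : A → List ℤ} {j : A → ℕ} (hX : PA N D ρ X) (hY : PA N D ρ Y)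
    (hj : PN N D ρ j) (bj : Bd N D j) : GD.PB N D ρ (fun a => pok (X a) (Y a) (j a)) := by
  have hX1 := PN.len hX
  have hY1 := PN.len hY
  refine PB.or (PB.eqN hX1 (PN.const 1)) (PB.or (PB.eqN hY1 (PN.const 1)) ?_)
  refine PB.and (PB.not (PB.eqN hX1 (PN.const 0))) (PB.and (PB.not (PB.eqN hY1 (PN.const 0))) ?_)
  exact PB.leN (PN.mul (PN.sub hX1 (PN.const 1)) (PN.sub hY1 (PN.const 1))) (PN.pow2 hj bj)

end Pool.Agent.MPa9445a.GL
end
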