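import Pool.Agent.Lib.MP_a9445a_lc.GD.Lang
import Pool.Agent.Lib.MP_a9445a_lc.Mg.G112

section

/-!
# Functions computed by programs

`A` is a type of states, `N a` the size parameter of the state `a`, `D` the set of states which are
considered, `ρ a` the values of the variables in the state `a`.
-/

set_option autoImplicit false

namespace Pool.Agent.MPa9445a.GD

open Pool.Agent.MPa9445a.BE (Ty Env nth argmax matMul sz asz vs one Bd NL DL)

/-- `f` is computed from the variables `ρ` by a program, in time `poly (N) * w`, and its values have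
size `poly (N)`. The weight `w` is at least `1`. -/
def Cp {A : Type} (N : A → ℕ) (D : A → Prop) {Γ : List Ty} (ρ : A → Env Γ) (w : ℝ → A → ℝ)
    (t : Ty) (f : A → t.Val) : Prop :=
  ∃ (e : Ex Γ t) (k : ℕ), ∀ a, D a → e.eval (ρ a) = f a ∧ vs (f a) ≤ (N a + 2) ^ k ∧
    ∀ τ : ℝ, 2 ≤ τ → 1 ≤ w τ a ∧ e.cost τ (ρ a) ≤ ((N a : ℝ) + 2) ^ k * w τ a

/-- Computed in polynomial time, values in `ℤ`. -/
abbrev PI {A : Type} (N : A → ℕ) (D : A → Prop) {Γ : List Ty} (ρ : A → Env Γ) (f : A → ℤ) : Prop :=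
  Cp N D ρ one .int f

/-- Computed in polynomial time, values in `ℕ`. -/
abbrev PN {A : Type} (N : A → ℕ) (D : A → Prop) {Γ : List Ty} (ρ : A → Env Γ) (f : A → ℕ) : Prop :=
  Cp N D ρ one .int (fun a => (f a : ℤ))

/-- Computed in polynomial time, values are arrays. -/
abbrev PA {A : Type} (N : A → ℕ) (D : A → Prop) {Γ : List Ty} (ρ : A → Env Γ)
    (f : A → List ℤ) : Prop := Cp N D ρ one .arr f

/-- A property which can be decided in polynomial time. -/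
def PB {A : Type} (N : A → ℕ) (D : A → Prop) {Γ : List Ty} (ρ : A → Env Γ) (q : A → Prop) : Prop :=
  ∃ f : A → ℤ, PI N D ρ f ∧ ∀ a, D a → (f a ≠ 0 ↔ q a)

/-- The variables inside a loop: all functions which were available are still available. -/
def Up {A : Type} (N : A → ℕ) (D : A → Prop) {Γ : List Ty} (ρ : A → Env Γ) (k : A → ℕ)
    {Γ' : List Ty} (ρ' : A × ℕ → Env Γ') : Prop :=
  ∀ (w : ℝ → A → ℝ) (t : Ty) (f : A → t.Val), Cp N D ρ w t f →
    Cp (NL N) (DL D k) ρ' (fun τ p => w τ p.1) t (fun p => f p.1)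

/-- After storing a value: all functions which were available are still available. -/
def Ke {A : Type} (N : A → ℕ) (D : A → Prop) {Γ : List Ty} (ρ : A → Env Γ)
    {Γ' : List Ty} (ρ' : A → Env Γ') : Prop :=
  ∀ (w : ℝ → A → ℝ) (t : Ty) (f : A → t.Val), Cp N D ρ w t f → Cp N D ρ' w t f

private theorem P0_aux {x : ℝ} (hx : 2 ≤ x) (a b : ℕ) :
    x ^ a + x ^ b + 1 ≤ x ^ (a + b + 2) := by
  have h0 : (1 : ℝ) ≤ x := by linarith
  have h1 : x ^ a ≤ x ^ (a + b) := pow_le_pow_right₀ h0 (by omega)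
  have h2 : x ^ b ≤ x ^ (a + b) := pow_le_pow_right₀ h0 (by omega)
  have h3 : (1 : ℝ) ≤ x ^ (a + b) := one_le_pow₀ h0
  have h4 : x ^ (a + b + 2) = x ^ (a + b) * (x * x) := by ring
  rw [h4]
  have h5 : (4 : ℝ) ≤ x * x := by nlinarith
  nlinarith

private theorem P0_x {A : Type} (N : A → ℕ) (a : A) : (2 : ℝ) ≤ (N a : ℝ) + 2 := by
  have : (0 : ℝ) ≤ (N a : ℝ) := Nat.cast_nonneg _
  linarith

section Basic

variable {A : Type} {N : A → ℕ} {D : A → Prop} {Γ : List Ty} {ρ : A → Env Γ} {w w' : ℝ → A → ℝ}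
  {t : Ty}

/-- PROOF. Same program and exponent. -/
theorem Cp.mono {f : A → t.Val} (h : Cp N D ρ w t f)
    (hw : ∀ a, D a → ∀ τ : ℝ, 2 ≤ τ → w τ a ≤ w' τ a) : Cp N D ρ w' t f := by
  obtain ⟨e, k, h⟩ := h
  refine ⟨e, k, fun a ha => ?_⟩
  obtain ⟨h1, h2, h3⟩ := h a ha
  refine ⟨h1, h2, fun τ hτ => ?_⟩
  obtain ⟨h4, h5⟩ := h3 τ hτ
  exact ⟨h4.trans (hw a ha τ hτ),
    h5.trans (mul_le_mul_of_nonneg_left (hw a ha τ hτ) (by positivity))⟩

/-- Polynomial factors of the weight are irrelevant. PROOF. Add the exponents. -/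
theorem Cp.mono_poly {f : A → t.Val} (h : Cp N D ρ w t f) (c : ℕ)
    (hw : ∀ a, D a → ∀ τ : ℝ, 2 ≤ τ → 1 ≤ w' τ a ∧ w τ a ≤ ((N a : ℝ) + 2) ^ c * w' τ a) :
    Cp N D ρ w' t f := by
  obtain ⟨e, k, h⟩ := h
  refine ⟨e, k + c, fun a ha => ?_⟩
  obtain ⟨h1, h2, h3⟩ := h a ha
  refine ⟨h1, h2.trans (Nat.pow_le_pow_right (by omega) (by omega)), fun τ hτ => ?_⟩
  obtain ⟨h4, h5⟩ := h3 τ hτ
  obtain ⟨h6, h7⟩ := hw a ha τ hτ
  refine ⟨h6, h5.trans ?_⟩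
  rw [pow_add, mul_assoc]
  exact mul_le_mul_of_nonneg_left h7 (by positivity)

/-- PROOF. `Cp.mono`. -/
theorem Cp.lift {f : A → t.Val} (h : Cp N D ρ one t f)
    (hw : ∀ a, D a → ∀ τ : ℝ, 2 ≤ τ → 1 ≤ w τ a) : Cp N D ρ w t f := by
  exact h.mono fun a ha τ hτ => hw a ha τ hτ

/-- PROOF. The same program. -/
theorem Cp.congr {f g : A → t.Val} (h : Cp N D ρ w t f) (hfg : ∀ a, D a → f a = g a) :
    Cp N D ρ w t g := by
  obtain ⟨e, k, h⟩ := h
  refine ⟨e, k, fun a ha => ?_⟩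
  rw [← hfg a ha]
  exact h a ha

/-- Fewer states. PROOF. The same program. -/
theorem Cp.dom {D' : A → Prop} {f : A → t.Val} (h : Cp N D ρ w t f) (hD : ∀ a, D' a → D a) :
    Cp N D' ρ w t f := by
  obtain ⟨e, k, h⟩ := h
  exact ⟨e, k, fun a ha => h a (hD a ha)⟩

/-- The newest variable. PROOF. `Ex.top`; the cost is at most `1 + sz`. -/
theorem Cp.top {f : A → t.Val} (h : ∃ k : ℕ, ∀ a, D a → vs (f a) ≤ (N a + 2) ^ k) :
    Cp N D (Γ := t :: Γ) (fun a => (f a, ρ a)) one t f := by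
  obtain ⟨k, hk⟩ := h
  refine ⟨Ex.top, k + 1, fun a ha => ⟨rfl, (hk a ha).trans
    (Nat.pow_le_pow_right (by omega) (by omega)), fun τ _ => ⟨le_refl _, ?_⟩⟩⟩
  have h0 := P0_x N a
  have h1 : (1 : ℝ) ≤ ((N a : ℝ) + 2) ^ k := one_le_pow₀ (by linarith)
  have h2 := hk a ha
  have h3 : ((N a : ℝ) + 2) ^ (k + 1) * one τ a = ((N a : ℝ) + 2) ^ k * ((N a : ℝ) + 2) := by
    rw [one, mul_one, pow_succ]
  rw [h3]
  cases t with
  | int =>
    have h4 : (sz (f a) : ℝ) ≤ ((N a : ℝ) + 2) ^ k := by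
      have h5 : sz (f a) ≤ (N a + 2) ^ k := h2
      exact_mod_cast h5
    change (1 : ℝ) + sz (f a) ≤ _
    nlinarith
  | arr =>
    change (1 : ℝ) ≤ _
    nlinarith

/-- An older variable. PROOF. `Ex.wk`. -/
theorem Cp.wk {s : Ty} {g : A → s.Val} {f : A → t.Val} (h : Cp N D ρ w t f) :
    Cp N D (Γ := s :: Γ) (fun a => (g a, ρ a)) w t f := by
  obtain ⟨e, k, h⟩ := h
  refine ⟨Ex.wk e, k, fun a ha => ?_⟩
  simp only [Ex.eval, Ex.cost]
  exact h a ha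

/-- PROOF. `Ex.bind`. The exponents add up (`1 ≤ w`, `(N + 2) ^ k ≥ 2 ^ k`). -/
theorem Cp.bind {s : Ty} {g : A → s.Val} {f : A → t.Val} (hg : Cp N D ρ w s g)
    (h : Cp N D (Γ := s :: Γ) (fun a => (g a, ρ a)) w t f) : Cp N D ρ w t f := by
  obtain ⟨e₁, k₁, h₁⟩ := hg
  obtain ⟨e₂, k₂, h₂⟩ := h
  refine ⟨Ex.bind e₁ e₂, k₁ + k₂ + 2, fun a ha => ?_⟩
  obtain ⟨h3, h4, h5⟩ := h₁ a ha
  obtain ⟨h6, h7, h8⟩ := h₂ a ha
  refine ⟨?_, h7.trans (Nat.pow_le_pow_right (by omega) (by omega)), fun τ hτ => ?_⟩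
  · change e₂.eval (e₁.eval (ρ a), ρ a) = f a
    rw [h3, h6]
  · obtain ⟨h9, h10⟩ := h5 τ hτ
    obtain ⟨_, h11⟩ := h8 τ hτ
    refine ⟨h9, ?_⟩
    simp only [Ex.cost]
    rw [h3]
    have h12 := P0_aux (P0_x N a) k₁ k₂
    have h13 := mul_le_mul_of_nonneg_right h12 (zero_le_one.trans h9)
    nlinarith

/-- Storing a value. PROOF. `Cp.bind`, with `ρ' a = (g a, ρ a)`; `Ke` by `Cp.wk`, `g` by `Cp.top`. -/
theorem Cp.store {s : Ty} {g : A → s.Val} {f : A → t.Val} (hg : Cp N D ρ w s g)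
    (h : ∀ (Γ' : List Ty) (ρ' : A → Env Γ'), Ke N D ρ ρ' → Cp N D ρ' one s g →
      Cp N D ρ' w t f) : Cp N D ρ w t f := by
  refine Cp.bind hg (h (s :: Γ) (fun a => (g a, ρ a)) (fun w t f hf => Cp.wk hf) (Cp.top ?_))
  obtain ⟨e, k, hk⟩ := hg
  exact ⟨k, fun a ha => (hk a ha).2.1⟩

section Access

variable {k : A → ℕ} {Γ' : List Ty} {ρ' : A × ℕ → Env Γ'} {ρ₁ : A → Env Γ'}

theorem Up.i (up : Up N D ρ k ρ') {f : A → ℤ} (h : PI N D ρ f) :
    PI (NL N) (DL D k) ρ' (fun p => f p.1) := up one .int f h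

theorem Up.n (up : Up N D ρ k ρ') {f : A → ℕ} (h : PN N D ρ f) :
    PN (NL N) (DL D k) ρ' (fun p => f p.1) := up one .int _ h

theorem Up.a (up : Up N D ρ k ρ') {f : A → List ℤ} (h : PA N D ρ f) :
    PA (NL N) (DL D k) ρ' (fun p => f p.1) := up one .arr f h

theorem Up.b (up : Up N D ρ k ρ') {q : A → Prop} (h : PB N D ρ q) :
    PB (NL N) (DL D k) ρ' (fun p => q p.1) := by
  obtain ⟨f, hf, hq⟩ := h
  exact ⟨fun p => f p.1, up one .int f hf, fun p hp => hq p.1 hp.1⟩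

theorem Ke.i (ke : Ke N D ρ ρ₁) {f : A → ℤ} (h : PI N D ρ f) : PI N D ρ₁ f := ke one .int f h

theorem Ke.n (ke : Ke N D ρ ρ₁) {f : A → ℕ} (h : PN N D ρ f) : PN N D ρ₁ f := ke one .int _ h

theorem Ke.a (ke : Ke N D ρ ρ₁) {f : A → List ℤ} (h : PA N D ρ f) : PA N D ρ₁ f := ke one .arr f h

theorem Ke.b (ke : Ke N D ρ ρ₁) {q : A → Prop} (h : PB N D ρ q) : PB N D ρ₁ q := by
  obtain ⟨f, hf, hq⟩ := h
  exact ⟨f, ke one .int f hf, hq⟩

end Access

end Basic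

end Pool.Agent.MPa9445a.GD
end

section

section

/-! Functions computed by programs: arithmetic. -/

set_option autoImplicit false

namespace Pool.Agent.MPa9445a.GD

open Pool.Agent.MPa9445a.BE

private theorem P1b_x {A : Type} (N : A → ℕ) (a : A) : (2 : ℝ) ≤ (N a : ℝ) + 2 := by
  have : (0 : ℝ) ≤ (N a : ℝ) := Nat.cast_nonneg _
  linarith

private theorem P1b_aux {x : ℝ} (hx : 2 ≤ x) (k m : ℕ) {p q r cf cg : ℝ} (hp : p ≤ x ^ k)
    (hq : q ≤ x ^ m) (_ : 0 ≤ p) (hq0 : 0 ≤ q) (hcf : cf ≤ x ^ k) (hcg : cg ≤ x ^ m)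
    (hr : r ≤ p + q + 1) :
    cf + cg + (1 + p) * (1 + q) + 1 + r ≤ x ^ (k + m + 4) := by
  have h0 : (1 : ℝ) ≤ x := by linarith
  have h1 : (1 : ℝ) ≤ x ^ k := one_le_pow₀ h0
  have h2 : (1 : ℝ) ≤ x ^ m := one_le_pow₀ h0
  have h3 : x ^ (k + m + 4) = x ^ k * x ^ m * x ^ 4 := by ring
  have h4 : (16 : ℝ) ≤ x ^ 4 := by
    calc (16 : ℝ) = 2 ^ 4 := by norm_num
      _ ≤ x ^ 4 := pow_le_pow_left₀ (by norm_num) hx 4
  have h5 : (1 + p) * (1 + q) ≤ (1 + x ^ k) * (1 + x ^ m) :=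
    mul_le_mul (by linarith) (by linarith) (by linarith) (by linarith)
  generalize x ^ k = u at *
  generalize x ^ m = v at *
  rw [h3]
  have h6 : u * v * 16 ≤ u * v * x ^ 4 :=
    mul_le_mul_of_nonneg_left h4 (mul_nonneg (by linarith) (by linarith))
  have h7 : 0 ≤ (u - 1) * (v - 1) := mul_nonneg (by linarith) (by linarith)
  nlinarith

private theorem P1b_sub (a b : ℤ) : sz (a - b) ≤ sz a + sz b + 1 := by
  have h := sz_add a (-b)
  rw [sz_neg] at h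
  exact h

section

variable {A : Type} {N : A → ℕ} {D : A → Prop} {Γ : List Ty} {ρ : A → Env Γ}

private theorem P1b_bin {f g : A → ℤ} (hf : PI N D ρ f) (hg : PI N D ρ g)
    (op : Ex Γ .int → Ex Γ .int → Ex Γ .int) (o : ℤ → ℤ → ℤ)
    (heval : ∀ a b γ, (op a b).eval γ = o (a.eval γ) (b.eval γ))
    (hcost : ∀ τ a b γ, (op a b).cost τ γ ≤ a.cost τ γ + b.cost τ γ +
      (1 + (sz (a.eval γ) : ℝ)) * (1 + sz (b.eval γ)) + 1 + sz (o (a.eval γ) (b.eval γ)))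
    (hsz : ∀ u v, sz (o u v) ≤ sz u + sz v + 1) : PI N D ρ (fun a => o (f a) (g a)) := by
  obtain ⟨e₁, k, h₁⟩ := hf
  obtain ⟨e₂, m, h₂⟩ := hg
  refine ⟨op e₁ e₂, k + m + 4, fun a ha => ?_⟩
  obtain ⟨h3, h4, h5⟩ := h₁ a ha
  obtain ⟨h6, h7, h8⟩ := h₂ a ha
  have h4' : (sz (f a) : ℝ) ≤ ((N a : ℝ) + 2) ^ k := by
    have h9 : sz (f a) ≤ (N a + 2) ^ k := h4
    exact_mod_cast h9
  have h7' : (sz (g a) : ℝ) ≤ ((N a : ℝ) + 2) ^ m := by
    have h9 : sz (g a) ≤ (N a + 2) ^ m := h7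
    exact_mod_cast h9
  have hr : (sz (o (f a) (g a)) : ℝ) ≤ sz (f a) + sz (g a) + 1 := by
    exact_mod_cast hsz (f a) (g a)
  have hp0 : (0 : ℝ) ≤ sz (f a) := Nat.cast_nonneg _
  have hq0 : (0 : ℝ) ≤ sz (g a) := Nat.cast_nonneg _
  refine ⟨?_, ?_, fun τ hτ => ⟨le_refl _, ?_⟩⟩
  · rw [heval, h3, h6]
  · have h10 := P1b_aux (P1b_x N a) k m h4' h7' hp0 hq0 (cf := 0) (cg := 0) (by positivity)
      (by positivity) hr
    have h11 : (sz (o (f a) (g a)) : ℝ) ≤ ((N a : ℝ) + 2) ^ (k + m + 4) := by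
      have h12 : (0 : ℝ) ≤ (1 + (sz (f a) : ℝ)) * (1 + sz (g a)) := by positivity
      linarith
    change sz (o (f a) (g a)) ≤ _
    exact_mod_cast h11
  · have h13 := (h5 τ hτ).2
    have h14 := (h8 τ hτ).2
    rw [one, mul_one] at h13 h14
    rw [one, mul_one]
    have h15 := hcost τ e₁ e₂ (ρ a)
    rw [h3, h6] at h15
    exact h15.trans (P1b_aux (P1b_x N a) k m h4' h7' hp0 hq0 h13 h14 hr)

/-- PROOF. `Ex.const`. -/
theorem PI.const (c : ℤ) : PI N D ρ (fun _ => c) := by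
  refine ⟨Ex.const c, sz c + 1, fun a _ => ?_⟩
  have h1 : sz c + 1 ≤ (N a + 2) ^ (sz c + 1) :=
    (Nat.lt_two_pow_self (n := sz c + 1)).le.trans (Nat.pow_le_pow_left (by omega) _)
  refine ⟨by simp only [Ex.eval], ?_, fun τ _ => ⟨le_refl _, ?_⟩⟩
  · change sz c ≤ _
    omega
  · simp only [Ex.cost]
    rw [one, mul_one, add_comm]
    exact_mod_cast h1

/-- PROOF. `Ex.add`, `sz_add`. -/
theorem PI.add {f g : A → ℤ} (hf : PI N D ρ f) (hg : PI N D ρ g) :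
    PI N D ρ (fun a => f a + g a) := by
  exact P1b_bin hf hg Ex.add (fun u v => u + v) (fun _ _ _ => by simp only [Ex.eval])
    (fun τ a b γ => by
      simp only [Ex.cost]
      have h1 : (0 : ℝ) ≤ (1 + (sz (a.eval γ) : ℝ)) * (1 + sz (b.eval γ)) := by positivity
      have h2 : (0 : ℝ) ≤ (sz (a.eval γ + b.eval γ) : ℝ) := Nat.cast_nonneg _
      linarith) (fun u v => sz_add u v)

/-- PROOF. `Ex.sub`. -/
theorem PI.sub {f g : A → ℤ} (hf : PI N D ρ f) (hg : PI N D ρ g) :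
    PI N D ρ (fun a => f a - g a) := by
  exact P1b_bin hf hg Ex.sub (fun u v => u - v) (fun _ _ _ => by simp only [Ex.eval])
    (fun τ a b γ => by
      simp only [Ex.cost]
      have h1 : (0 : ℝ) ≤ (1 + (sz (a.eval γ) : ℝ)) * (1 + sz (b.eval γ)) := by positivity
      have h2 : (0 : ℝ) ≤ (sz (a.eval γ - b.eval γ) : ℝ) := Nat.cast_nonneg _
      linarith) (fun u v => P1b_sub u v)

/-- PROOF. `Ex.mul`. -/
theorem PI.mul {f g : A → ℤ} (hf : PI N D ρ f) (hg : PI N D ρ g) :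
    PI N D ρ (fun a => f a * g a) := by
  exact P1b_bin hf hg Ex.mul (fun u v => u * v) (fun _ _ _ => by simp only [Ex.eval])
    (fun τ a b γ => by
      simp only [Ex.cost]
      have h1 : (0 : ℝ) ≤ (1 + (sz (a.eval γ) : ℝ)) * (1 + sz (b.eval γ)) := by positivity
      have h2 : (0 : ℝ) ≤ (sz (a.eval γ * b.eval γ) : ℝ) := Nat.cast_nonneg _
      linarith) (fun u v => (sz_mul u v).trans (by omega))

/-- PROOF. `Ex.div`. -/
theorem PI.div {f g : A → ℤ} (hf : PI N D ρ f) (hg : PI N D ρ g) :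
    PI N D ρ (fun a => f a / g a) := by
  exact P1b_bin hf hg Ex.div (fun u v => u / v) (fun _ _ _ => by simp only [Ex.eval])
    (fun τ a b γ => by
      simp only [Ex.cost]
      have h1 : (0 : ℝ) ≤ (1 + (sz (a.eval γ) : ℝ)) * (1 + sz (b.eval γ)) := by positivity
      have h2 : (0 : ℝ) ≤ (sz (a.eval γ / b.eval γ) : ℝ) := Nat.cast_nonneg _
      linarith) (fun u v => (sz_div u v).trans (by omega))

/-- PROOF. `Ex.mod`. -/
theorem PI.mod {f g : A → ℤ} (hf : PI N D ρ f) (hg : PI N D ρ g) :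
    PI N D ρ (fun a => f a % g a) := by
  exact P1b_bin hf hg Ex.mod (fun u v => u % v) (fun _ _ _ => by simp only [Ex.eval])
    (fun τ a b γ => by
      simp only [Ex.cost]
      have h1 : (0 : ℝ) ≤ (1 + (sz (a.eval γ) : ℝ)) * (1 + sz (b.eval γ)) := by positivity
      have h2 : (0 : ℝ) ≤ (sz (a.eval γ % b.eval γ) : ℝ) := Nat.cast_nonneg _
      linarith) (fun u v => (sz_mod u v).trans (by omega))

/-- PROOF. Induction on `k`, `PI.mul`. -/
theorem PI.pow {f : A → ℤ} (hf : PI N D ρ f) (k : ℕ) : PI N D ρ (fun a => f a ^ k) := by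
  induction k with
  | zero => exact (PI.const 1).congr fun a _ => (pow_zero _).symm
  | succ k ih => exact (PI.mul ih hf).congr fun a _ => (pow_succ _ _).symm

theorem PN.const (c : ℕ) : PN N D ρ (fun _ => c) := by
  exact PI.const (c : ℤ)

theorem PN.add {f g : A → ℕ} (hf : PN N D ρ f) (hg : PN N D ρ g) :
    PN N D ρ (fun a => f a + g a) := by
  exact (PI.add hf hg).congr fun a _ => by push_cast; rfl

theorem PN.mul {f g : A → ℕ} (hf : PN N D ρ f) (hg : PN N D ρ g) :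
    PN N D ρ (fun a => f a * g a) := by
  exact (PI.mul hf hg).congr fun a _ => by push_cast; rfl

theorem PN.div {f g : A → ℕ} (hf : PN N D ρ f) (hg : PN N D ρ g) :
    PN N D ρ (fun a => f a / g a) := by
  exact (PI.div hf hg).congr fun a _ => by push_cast; rfl

theorem PN.mod {f g : A → ℕ} (hf : PN N D ρ f) (hg : PN N D ρ g) :
    PN N D ρ (fun a => f a % g a) := by
  exact (PI.mod hf hg).congr fun a _ => by push_cast; rfl

theorem PN.pow {f : A → ℕ} (hf : PN N D ρ f) (k : ℕ) : PN N D ρ (fun a => f a ^ k) := by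
  exact (PI.pow hf k).congr fun a _ => by push_cast; rfl

/-- PROOF. `Ex.pow2`; the size of `2 ^ f a` is `f a + 1`. -/
theorem PN.pow2 {f : A → ℕ} (hf : PN N D ρ f) (hb : Bd N D f) :
    PN N D ρ (fun a => 2 ^ f a) := by
  obtain ⟨e, k, h⟩ := hf
  obtain ⟨m, hm⟩ := hb
  refine ⟨Ex.pow2 e, k + m + 4, fun a ha => ?_⟩
  obtain ⟨h3, h4, h5⟩ := h a ha
  have hs : sz ((2 : ℤ) ^ f a) = f a + 1 := by
    have h9 : ((2 : ℤ) ^ f a).natAbs = 2 ^ f a := by
      rw [Int.natAbs_pow]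
      rfl
    unfold sz
    rw [h9, Nat.size_pow]
  have hm' : (f a : ℝ) ≤ ((N a : ℝ) + 2) ^ m := by exact_mod_cast hm a ha
  have h4' : (0 : ℝ) ≤ ((N a : ℝ) + 2) ^ k := by positivity
  have key : ∀ c : ℝ, c ≤ ((N a : ℝ) + 2) ^ k →
      c + 1 + ((f a : ℝ) + 1) ≤ ((N a : ℝ) + 2) ^ (k + m + 4) := by
    intro c hc
    have h10 := P1b_aux (P1b_x N a) k m (p := 0) (q := f a) (r := 0) (cf := c) (cg := 0)
      h4' hm' le_rfl (Nat.cast_nonneg _) hc (by positivity) (by positivity)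
    linarith
  refine ⟨?_, ?_, fun τ hτ => ⟨le_refl _, ?_⟩⟩
  · simp only [Ex.eval]
    rw [h3, Int.toNat_natCast]
    push_cast
    rfl
  · have h11 := key 0 h4'
    change sz (((2 ^ f a : ℕ) : ℤ)) ≤ _
    push_cast
    rw [hs]
    have h12 : ((f a : ℝ) + 1) ≤ ((N a : ℝ) + 2) ^ (k + m + 4) := by linarith
    exact_mod_cast h12
  · have h13 := (h5 τ hτ).2
    rw [one, mul_one] at h13
    rw [one, mul_one]
    simp only [Ex.cost]
    rw [h3, Int.toNat_natCast, hs]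
    push_cast
    exact key _ h13

/-- PROOF. `4 ^ f = 2 ^ (2 f)`. -/
theorem PN.pow4 {f : A → ℕ} (hf : PN N D ρ f) (hb : Bd N D f) :
    PN N D ρ (fun a => 4 ^ f a) := by
  refine (PN.pow2 (PN.mul (PN.const 2) hf) (Bd.mul (Bd.const 2) hb)).congr fun a _ => ?_
  have h1 : (2 : ℕ) ^ (2 * f a) = 4 ^ f a := by
    rw [pow_mul]
    norm_num
  exact congrArg (fun n : ℕ => (n : ℤ)) h1

end

end Pool.Agent.MPa9445a.GD
end

section

/-! Functions computed by programs: comparison, arrays. -/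

set_option autoImplicit false

namespace Pool.Agent.MPa9445a.GD

open Pool.Agent.MPa9445a.BE

private theorem P1_key {x : ℝ} (hx : 2 ≤ x) (a b : ℕ) :
    1 ≤ x ^ a ∧ 1 ≤ x ^ b ∧ x ^ a ≤ x ^ (a + b) ∧ x ^ b ≤ x ^ (a + b) ∧
      8 * x ^ (a + b) ≤ x ^ (a + b + 3) := by
  have h1 : (1 : ℝ) ≤ x := by linarith
  have ha : 1 ≤ x ^ a := one_le_pow₀ h1
  have hb : 1 ≤ x ^ b := one_le_pow₀ h1
  refine ⟨ha, hb, pow_le_pow_right₀ h1 (by omega), pow_le_pow_right₀ h1 (by omega), ?_⟩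
  have h8 : (8 : ℝ) ≤ x ^ 3 := by
    have := pow_le_pow_left₀ (by norm_num) hx 3
    norm_num at this
    exact this
  rw [pow_add x (a + b) 3]
  have : 0 ≤ x ^ (a + b) := by positivity
  nlinarith

private theorem P1_two {A : Type} (N : A → ℕ) (a : A) : (2 : ℝ) ≤ (N a : ℝ) + 2 := by
  have : (0 : ℝ) ≤ (N a : ℝ) := Nat.cast_nonneg _
  linarith

private theorem P1_cast {A : Type} {N : A → ℕ} {a : A} {m k : ℕ} (h : m ≤ (N a + 2) ^ k) :
    (m : ℝ) ≤ ((N a : ℝ) + 2) ^ k := by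
  have h1 : (m : ℝ) ≤ (((N a + 2) ^ k : ℕ) : ℝ) := Nat.cast_le.mpr h
  push_cast at h1
  exact h1

private theorem P1_mono {A : Type} {N : A → ℕ} {a : A} {m k l : ℕ} (h : m ≤ (N a + 2) ^ k)
    (hkl : k ≤ l) : m ≤ (N a + 2) ^ l :=
  h.trans (Nat.pow_le_pow_right (by omega) hkl)

section

variable {A : Type} {N : A → ℕ} {D : A → Prop} {Γ : List Ty} {ρ : A → Env Γ}

/-- PROOF. `Ex.le`. -/
theorem PB.le {f g : A → ℤ} (hf : PI N D ρ f) (hg : PI N D ρ g) :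
    PB N D ρ (fun a => f a ≤ g a) := by
  obtain ⟨e1, k1, h1⟩ := hf
  obtain ⟨e2, k2, h2⟩ := hg
  refine ⟨fun a => if f a ≤ g a then 1 else 0, ⟨Ex.le e1 e2, k1 + k2 + 3, ?_⟩, ?_⟩
  · intro a ha
    obtain ⟨h1a, h1b, h1c⟩ := h1 a ha
    obtain ⟨h2a, h2b, h2c⟩ := h2 a ha
    refine ⟨?_, ?_, ?_⟩
    · show (if e1.eval (ρ a) ≤ e2.eval (ρ a) then (1 : ℤ) else 0) = if f a ≤ g a then 1 else 0
      rw [h1a, h2a]
    · have h0 : sz (if f a ≤ g a then (1 : ℤ) else 0) ≤ 1 := by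
        split_ifs
        · simp [sz]
        · simp [sz]
      exact h0.trans (Nat.one_le_pow _ _ (by omega))
    · intro τ hτ
      refine ⟨le_refl _, ?_⟩
      have c1 := (h1c τ hτ).2
      have c2 := (h2c τ hτ).2
      have s1 : (sz (f a) : ℝ) ≤ ((N a : ℝ) + 2) ^ k1 := P1_cast h1b
      have s2 : (sz (g a) : ℝ) ≤ ((N a : ℝ) + 2) ^ k2 := P1_cast h2b
      obtain ⟨p1, p2, p3, p4, p5⟩ := P1_key (P1_two N a) k1 k2
      have e : (Ex.le e1 e2).cost τ (ρ a) = e1.cost τ (ρ a) + e2.cost τ (ρ a) + 1 +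
          sz (e1.eval (ρ a)) + sz (e2.eval (ρ a)) := rfl
      rw [e, h1a, h2a]
      simp only [one, mul_one] at c1 c2 ⊢
      linarith
  · intro a _
    by_cases h : f a ≤ g a
    · simp [h]
    · simp [h]

private theorem P1_PBcongr {q r : A → Prop} (hq : PB N D ρ q) (h : ∀ a, D a → (q a ↔ r a)) :
    PB N D ρ r := by
  obtain ⟨f, hf, hf'⟩ := hq
  exact ⟨f, hf, fun a ha => (hf' a ha).trans (h a ha)⟩

private theorem P1_and {q r : A → Prop} (hq : PB N D ρ q) (hr : PB N D ρ r) :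
    PB N D ρ (fun a => q a ∧ r a) := by
  obtain ⟨f, hf, hf'⟩ := hq
  obtain ⟨g, hg, hg'⟩ := hr
  refine ⟨fun a => f a * g a, PI.mul hf hg, ?_⟩
  intro a ha
  rw [mul_ne_zero_iff, hf' a ha, hg' a ha]

private theorem P1_not {q : A → Prop} (hq : PB N D ρ q) : PB N D ρ (fun a => ¬ q a) := by
  obtain ⟨f, hf, hf'⟩ := hq
  refine P1_PBcongr (PB.le (PI.pow hf 2) (PI.const 0)) ?_
  intro a ha
  rw [← hf' a ha]
  constructor
  · intro h h2
    have : 0 < f a ^ 2 := by positivity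
    omega
  · intro h
    have h2 : f a = 0 := by
      by_contra h3
      exact h h3
    rw [h2]
    norm_num

theorem PB.lt {f g : A → ℤ} (hf : PI N D ρ f) (hg : PI N D ρ g) :
    PB N D ρ (fun a => f a < g a) :=
  P1_PBcongr (PB.le (PI.add hf (PI.const 1)) hg) fun _ _ => Int.add_one_le_iff

theorem PB.eq {f g : A → ℤ} (hf : PI N D ρ f) (hg : PI N D ρ g) :
    PB N D ρ (fun a => f a = g a) :=
  P1_PBcongr (P1_and (PB.le hf hg) (PB.le hg hf)) fun _ _ => le_antisymm_iff.symm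

theorem PB.ne {f g : A → ℤ} (hf : PI N D ρ f) (hg : PI N D ρ g) :
    PB N D ρ (fun a => f a ≠ g a) := P1_not (PB.eq hf hg)

theorem PB.leN {f g : A → ℕ} (hf : PN N D ρ f) (hg : PN N D ρ g) :
    PB N D ρ (fun a => f a ≤ g a) :=
  P1_PBcongr (PB.le hf hg) fun _ _ => Nat.cast_le

theorem PB.ltN {f g : A → ℕ} (hf : PN N D ρ f) (hg : PN N D ρ g) :
    PB N D ρ (fun a => f a < g a) :=
  P1_PBcongr (PB.lt hf hg) fun _ _ => Nat.cast_lt

theorem PB.eqN {f g : A → ℕ} (hf : PN N D ρ f) (hg : PN N D ρ g) :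
    PB N D ρ (fun a => f a = g a) :=
  P1_PBcongr (PB.eq hf hg) fun _ _ => Nat.cast_inj

/-- PROOF. `f ≠ 0 ∧ g ≠ 0 ↔ f * g ≠ 0`. -/
theorem PB.and {q r : A → Prop} (hq : PB N D ρ q) (hr : PB N D ρ r) :
    PB N D ρ (fun a => q a ∧ r a) := P1_and hq hr

/-- PROOF. `f ^ 2 + g ^ 2 ≠ 0`. -/
theorem PB.or {q r : A → Prop} (hq : PB N D ρ q) (hr : PB N D ρ r) :
    PB N D ρ (fun a => q a ∨ r a) :=
  P1_PBcongr (P1_not (P1_and (P1_not hq) (P1_not hr))) fun _ _ => by tauto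

theorem PB.not {q : A → Prop} (hq : PB N D ρ q) : PB N D ρ (fun a => ¬ q a) := P1_not hq

private theorem P1_iteD {w : ℝ → A → ℝ} {q : A → Prop} [∀ a, Decidable (q a)] {f g : A → ℤ}
    (hq : PB N D ρ q) (hf : Cp N (fun a => D a ∧ q a) ρ w .int f)
    (hg : Cp N (fun a => D a ∧ ¬ q a) ρ w .int g) :
    Cp N D ρ w .int (fun a => if q a then f a else g a) := by
  obtain ⟨φ, ⟨ec, kc, hc⟩, hφ⟩ := hq
  obtain ⟨e1, k1, h1⟩ := hf
  obtain ⟨e2, k2, h2⟩ := hg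
  refine ⟨Ex.ite ec e1 e2, kc + (k1 + k2) + 3, ?_⟩
  intro a ha
  obtain ⟨hca, hcb, hcc⟩ := hc a ha
  have hev : (Ex.ite ec e1 e2).eval (ρ a) =
      if ec.eval (ρ a) ≠ 0 then e1.eval (ρ a) else e2.eval (ρ a) := rfl
  have hco : ∀ τ : ℝ, (Ex.ite ec e1 e2).cost τ (ρ a) = ec.cost τ (ρ a) + 1 +
      if ec.eval (ρ a) ≠ 0 then e1.cost τ (ρ a) else e2.cost τ (ρ a) := fun _ => rfl
  have hmain : ∀ (τ : ℝ) (W c : ℝ) (k : ℕ), 1 ≤ W → ec.cost τ (ρ a) ≤ ((N a : ℝ) + 2) ^ kc →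
      c ≤ ((N a : ℝ) + 2) ^ k * W → k ≤ k1 + k2 →
      ec.cost τ (ρ a) + 1 + c ≤ ((N a : ℝ) + 2) ^ (kc + (k1 + k2) + 3) * W := by
    intro τ W c k hW hec hcW hk
    obtain ⟨p1, p2, p3, p4, p5⟩ := P1_key (P1_two N a) kc (k1 + k2)
    have h1x : (1 : ℝ) ≤ (N a : ℝ) + 2 := by linarith [P1_two N a]
    have hk2 : ((N a : ℝ) + 2) ^ k ≤ ((N a : ℝ) + 2) ^ (k1 + k2) := pow_le_pow_right₀ h1x hk
    have hW0 : 0 ≤ W := by linarith
    have g1 : ((N a : ℝ) + 2) ^ k * W ≤ ((N a : ℝ) + 2) ^ (kc + (k1 + k2)) * W :=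
      mul_le_mul_of_nonneg_right (hk2.trans p4) hW0
    have g2 : 1 ≤ ((N a : ℝ) + 2) ^ (kc + (k1 + k2)) * W := by nlinarith
    have g3 : ((N a : ℝ) + 2) ^ kc ≤ ((N a : ℝ) + 2) ^ (kc + (k1 + k2)) * W := by nlinarith
    have g4 : 8 * ((N a : ℝ) + 2) ^ (kc + (k1 + k2)) * W ≤
        ((N a : ℝ) + 2) ^ (kc + (k1 + k2) + 3) * W := mul_le_mul_of_nonneg_right p5 hW0
    linarith
  by_cases hqa : q a
  · have hne : ec.eval (ρ a) ≠ 0 := by
      rw [hca]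
      exact (hφ a ha).mpr hqa
    obtain ⟨h1a, h1b, h1c⟩ := h1 a ⟨ha, hqa⟩
    refine ⟨?_, ?_, ?_⟩
    · rw [hev, if_pos hne, h1a]
      exact (if_pos hqa).symm
    · have : (fun a => if q a then f a else g a) a = f a := if_pos hqa
      rw [this]
      exact P1_mono h1b (by omega)
    · intro τ hτ
      obtain ⟨hw, h1d⟩ := h1c τ hτ
      refine ⟨hw, ?_⟩
      rw [hco, if_pos hne]
      have hcd := (hcc τ hτ).2
      simp only [one, mul_one] at hcd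
      exact hmain τ _ _ k1 hw hcd h1d (by omega)
  · have hne : ¬ ec.eval (ρ a) ≠ 0 := by
      rw [hca, hφ a ha]
      exact hqa
    obtain ⟨h1a, h1b, h1c⟩ := h2 a ⟨ha, hqa⟩
    refine ⟨?_, ?_, ?_⟩
    · rw [hev, if_neg hne, h1a]
      exact (if_neg hqa).symm
    · have : (fun a => if q a then f a else g a) a = g a := if_neg hqa
      rw [this]
      exact P1_mono h1b (by omega)
    · intro τ hτ
      obtain ⟨hw, h1d⟩ := h1c τ hτ
      refine ⟨hw, ?_⟩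
      rw [hco, if_neg hne]
      have hcd := (hcc τ hτ).2
      simp only [one, mul_one] at hcd
      exact hmain τ _ _ k2 hw hcd h1d (by omega)

/-- PROOF. `Ex.ite`; for all weights. -/
theorem Cp.ite {w : ℝ → A → ℝ} {q : A → Prop} [∀ a, Decidable (q a)] {f g : A → ℤ}
    (hq : PB N D ρ q) (hf : Cp N D ρ w .int f) (hg : Cp N D ρ w .int g) :
    Cp N D ρ w .int (fun a => if q a then f a else g a) :=
  P1_iteD hq (hf.dom fun _ h => h.1) (hg.dom fun _ h => h.1)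

/-- PROOF. As `Cp.ite`: only the branch which is taken is charged. -/
theorem Cp.iteD {w : ℝ → A → ℝ} {q : A → Prop} [∀ a, Decidable (q a)] {f g : A → ℤ}
    (hq : PB N D ρ q) (hf : Cp N (fun a => D a ∧ q a) ρ w .int f)
    (hg : Cp N (fun a => D a ∧ ¬ q a) ρ w .int g) :
    Cp N D ρ w .int (fun a => if q a then f a else g a) := P1_iteD hq hf hg

/-- PROOF. `Cp.ite`, cast of `if`. -/
theorem PN.ite {q : A → Prop} [∀ a, Decidable (q a)] {f g : A → ℕ}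
    (hq : PB N D ρ q) (hf : PN N D ρ f) (hg : PN N D ρ g) :
    PN N D ρ (fun a => if q a then f a else g a) := by
  refine (Cp.ite hq hf hg).congr ?_
  intro a _
  by_cases h : q a
  · simp [h]
  · simp [h]

/-- PROOF. `a - b = if b ≤ a then a - b else 0`. -/
theorem PN.sub {f g : A → ℕ} (hf : PN N D ρ f) (hg : PN N D ρ g) :
    PN N D ρ (fun a => f a - g a) := by
  refine (Cp.ite (PB.leN hg hf) (PI.sub hf hg) (PI.const 0)).congr ?_
  intro a _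
  by_cases h : g a ≤ f a
  · simp [h]
  · simp only [h, if_false]
    rw [Nat.sub_eq_zero_of_le (by omega)]
    rfl

/-- PROOF. `x.toNat = if 0 ≤ x then x else 0`. -/
theorem PN.toNat {f : A → ℤ} (hf : PI N D ρ f) : PN N D ρ (fun a => (f a).toNat) := by
  refine (Cp.ite (PB.le (PI.const 0) hf) hf (PI.const 0)).congr ?_
  intro a _
  by_cases h : 0 ≤ f a
  · simp [h]
  · simp only [h, if_false]
    rw [Int.toNat_of_nonpos (by omega)]
    rfl

/-- PROOF. `Ex.get`, `nth_nat`, `sz_nth`. -/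
theorem PI.get {l : A → List ℤ} {i : A → ℕ} (hl : PA N D ρ l) (hi : PN N D ρ i) :
    PI N D ρ (fun a => (l a).getD (i a) 0) := by
  obtain ⟨e1, k1, h1⟩ := hl
  obtain ⟨e2, k2, h2⟩ := hi
  refine ⟨Ex.get e1 e2, k1 + k2 + 3, ?_⟩
  intro a ha
  obtain ⟨h1a, h1b, h1c⟩ := h1 a ha
  obtain ⟨h2a, h2b, h2c⟩ := h2 a ha
  have hv : nth (l a) (i a : ℤ) = (l a).getD (i a) 0 := nth_nat (l a) (i a)
  have hsz : sz ((l a).getD (i a) 0) ≤ (N a + 2) ^ k1 := by
    rw [← hv]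
    refine (sz_nth _ _).trans (le_trans ?_ h1b)
    exact Nat.le_add_right _ _
  refine ⟨?_, ?_, ?_⟩
  · show nth (e1.eval (ρ a)) (e2.eval (ρ a)) = (l a).getD (i a) 0
    rw [h1a, h2a]
    exact hv
  · exact P1_mono hsz (by omega)
  · intro τ hτ
    refine ⟨le_refl _, ?_⟩
    have c1 := (h1c τ hτ).2
    have c2 := (h2c τ hτ).2
    have s1 : (sz ((l a).getD (i a) 0) : ℝ) ≤ ((N a : ℝ) + 2) ^ k1 := P1_cast hsz
    obtain ⟨p1, p2, p3, p4, p5⟩ := P1_key (P1_two N a) k1 k2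
    have e : (Ex.get e1 e2).cost τ (ρ a) = e1.cost τ (ρ a) + e2.cost τ (ρ a) + 1 +
        sz (nth (e1.eval (ρ a)) (e2.eval (ρ a))) := rfl
    rw [e, h1a, h2a, hv]
    simp only [one, mul_one] at c1 c2 ⊢
    linarith

/-- PROOF. `Ex.len`. -/
theorem PN.len {l : A → List ℤ} (hl : PA N D ρ l) : PN N D ρ (fun a => (l a).length) := by
  obtain ⟨e1, k1, h1⟩ := hl
  refine ⟨Ex.len e1, k1 + 0 + 3, ?_⟩
  intro a ha
  obtain ⟨h1a, h1b, h1c⟩ := h1 a ha
  have hsz : sz ((l a).length : ℤ) ≤ (N a + 2) ^ k1 := by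
    refine le_trans ?_ h1b
    have : sz ((l a).length : ℤ) = Nat.size (l a).length := by
      unfold sz
      rw [Int.natAbs_natCast]
    rw [this]
    exact Nat.le_add_left _ _
  refine ⟨?_, ?_, ?_⟩
  · show ((e1.eval (ρ a)).length : ℤ) = ((l a).length : ℤ)
    rw [h1a]
  · exact P1_mono hsz (by omega)
  · intro τ hτ
    refine ⟨le_refl _, ?_⟩
    have c1 := (h1c τ hτ).2
    have s1 : (sz ((l a).length : ℤ) : ℝ) ≤ ((N a : ℝ) + 2) ^ k1 := P1_cast hsz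
    obtain ⟨p1, p2, p3, p4, p5⟩ := P1_key (P1_two N a) k1 0
    have e : (Ex.len e1).cost τ (ρ a) = e1.cost τ (ρ a) + 1 +
        sz ((e1.eval (ρ a)).length : ℤ) := rfl
    rw [e, h1a]
    simp only [one, mul_one] at c1 ⊢
    linarith

end

end Pool.Agent.MPa9445a.GD
end

section

/-! Functions computed by programs: loops. -/

set_option autoImplicit false

namespace Pool.Agent.MPa9445a.GD

open Pool.Agent.MPa9445a.BE

private theorem P2b_x {A : Type} (N : A → ℕ) (a : A) : (2 : ℝ) ≤ (N a : ℝ) + 2 := by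
  have : (0 : ℝ) ≤ (N a : ℝ) := Nat.cast_nonneg _
  linarith

private theorem P2b_aux {x : ℝ} (hx : 2 ≤ x) (m c : ℕ) :
    1 ≤ x ^ m ∧ 1 ≤ x ^ c ∧ x ^ m + 1 ≤ x ^ (m + c + 4) ∧
      x ^ m + x ^ c + (x ^ m + x ^ c) + 1 ≤ x ^ (m + c + 4) := by
  have h0 : (1 : ℝ) ≤ x := by linarith
  have h1 : (1 : ℝ) ≤ x ^ m := one_le_pow₀ h0
  have h2 : (1 : ℝ) ≤ x ^ c := one_le_pow₀ h0
  have h3 : x ^ (m + c + 4) = x ^ m * x ^ c * x ^ 4 := by ring
  have h4 : (16 : ℝ) ≤ x ^ 4 := by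
    calc (16 : ℝ) = 2 ^ 4 := by norm_num
      _ ≤ x ^ 4 := pow_le_pow_left₀ (by norm_num) hx 4
  generalize x ^ m = u at *
  generalize x ^ c = v at *
  have h6 : u * v * 16 ≤ u * v * x ^ 4 :=
    mul_le_mul_of_nonneg_left h4 (mul_nonneg (by linarith) (by linarith))
  have h7 : 0 ≤ (u - 1) * (v - 1) := mul_nonneg (by linarith) (by linarith)
  rw [h3]
  refine ⟨h1, h2, ?_, ?_⟩ <;> nlinarith

private theorem P2b_asz {l : List ℤ} {B : ℕ} (h : ∀ x ∈ l, sz x ≤ B) : asz l ≤ B := by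
  induction l with
  | nil => exact Nat.zero_le _
  | cons x l ih =>
    have h1 : asz (x :: l) = max (sz x) (asz l) := rfl
    rw [h1]
    exact max_le (h x List.mem_cons_self) (ih fun y hy => h y (List.mem_cons_of_mem _ hy))

private theorem P2b_abs (k : ℕ) (f : ℕ → ℤ) {B : ℕ} (h : ∀ i < k, sz (f i) ≤ B) :
    sz (∑ i ∈ Finset.range k, |f i|) ≤ sz (k : ℤ) + B := by
  have h1 : ∀ i ∈ Finset.range k, |f i| ≤ 2 ^ B := by
    intro i hi
    have h2 : (f i).natAbs < 2 ^ B := Nat.size_le.mp (h i (Finset.mem_range.mp hi))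
    rw [Int.abs_eq_natAbs]
    exact_mod_cast h2.le
  have h3 : ∑ i ∈ Finset.range k, |f i| ≤ k * 2 ^ B := by
    refine (Finset.sum_le_sum h1).trans ?_
    rw [Finset.sum_const, Finset.card_range, nsmul_eq_mul]
  have h4 : 0 ≤ ∑ i ∈ Finset.range k, |f i| := Finset.sum_nonneg fun i _ => abs_nonneg _
  have h5 : k < 2 ^ sz (k : ℤ) := by
    have h6 : (k : ℤ).natAbs < 2 ^ sz (k : ℤ) := Nat.lt_size_self _
    exact h6
  have h7 : (∑ i ∈ Finset.range k, |f i|).natAbs ≤ k * 2 ^ B := by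
    zify
    rw [abs_of_nonneg h4]
    exact h3
  have h8 : k * 2 ^ B < 2 ^ (sz (k : ℤ) + B) := by
    rw [pow_add]
    exact Nat.mul_lt_mul_of_pos_right h5 (Nat.two_pow_pos B)
  exact Nat.size_le.mpr (h7.trans_lt h8)

private theorem P2b_cost {k : ℕ} {x w : ℝ} (hx : 2 ≤ x) (hw : 1 ≤ w) (m c : ℕ) {kc p : ℝ}
    {ec q : ℕ → ℝ} (hkc : kc ≤ x ^ m) (hp : p ≤ x ^ m) (hec : ∀ i < k, ec i ≤ x ^ c * w)
    (hq : ∀ i < k, q i ≤ x ^ m + x ^ c) :
    kc + 1 + ∑ i ∈ Finset.range k, (ec i + 1 + p + q i) ≤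
      x ^ (m + c + 4) * (((k : ℝ) + 1) * w) := by
  obtain ⟨h1, h2, h3, h4⟩ := P2b_aux hx m c
  have h5 : ∀ i ∈ Finset.range k, ec i + 1 + p + q i ≤ x ^ (m + c + 4) * w := by
    intro i hi
    have h6 := hec i (Finset.mem_range.mp hi)
    have h7 := hq i (Finset.mem_range.mp hi)
    have h8 : (x ^ m + x ^ c + (x ^ m + x ^ c) + 1) * w ≤ x ^ (m + c + 4) * w :=
      mul_le_mul_of_nonneg_right h4 (by linarith)
    have h9 : 0 ≤ (x ^ m + x ^ m + x ^ c + 1) * (w - 1) :=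
      mul_nonneg (by linarith) (by linarith)
    nlinarith
  have h6 := Finset.sum_le_sum h5
  rw [Finset.sum_const, Finset.card_range, nsmul_eq_mul] at h6
  have h7 : (x ^ m + 1) * w ≤ x ^ (m + c + 4) * w :=
    mul_le_mul_of_nonneg_right h3 (by linarith)
  have h8 : 0 ≤ (x ^ m + 1) * (w - 1) := mul_nonneg (by linarith) (by linarith)
  nlinarith

section

variable {A : Type} {N : A → ℕ} {D : A → Prop} {Γ : List Ty} {ρ : A → Env Γ}

/-- The body of a loop: `f p.1 p.2` is computed from all variables which provide the old functions and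
the loop variable. -/
def Body (N : A → ℕ) (D : A → Prop) {Γ : List Ty} (ρ : A → Env Γ) (k : A → ℕ)
    (w : ℝ → A → ℝ) (t : Ty) (f : A → ℕ → t.Val) : Prop :=
  ∀ (Γ' : List Ty) (ρ' : A × ℕ → Env Γ'), Up N D ρ k ρ' → PN (NL N) (DL D k) ρ' (fun p => p.2) →
    Cp (NL N) (DL D k) ρ' (fun τ p => w τ p.1) t (fun p => f p.1 p.2)

/-- PROOF. Take `ρ' p = ((p.2 : ℤ), ρ p.1)`; `Up` by `Ex.wk` (the program of `f` weakened), the loop variable by `Ex.top` and `sz p.2 ≤ sz (k p.1)`. -/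
theorem Body.out {k : A → ℕ} {w : ℝ → A → ℝ} {t : Ty} {f : A → ℕ → t.Val}
    (hk : ∃ c : ℕ, ∀ a, D a → sz (k a : ℤ) ≤ (N a + 2) ^ c)
    (h : Body N D ρ k w t f) :
    ∃ (e : Ex (.int :: Γ) t) (c : ℕ), ∀ a, D a → ∀ i < k a,
      e.eval ((i : ℤ), ρ a) = f a i ∧ vs (f a i) ≤ (N a + 2) ^ c ∧
        ∀ τ : ℝ, 2 ≤ τ → 1 ≤ w τ a ∧ e.cost τ ((i : ℤ), ρ a) ≤ ((N a : ℝ) + 2) ^ c * w τ a := by
  obtain ⟨c, hc⟩ := hk
  have up : Up N D ρ k (Γ' := .int :: Γ) (fun p => ((p.2 : ℤ), ρ p.1)) := by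
    intro w t f hf
    obtain ⟨e, m, he⟩ := hf
    refine ⟨Ex.wk e, m, fun p hp => ?_⟩
    simp only [Ex.eval, Ex.cost]
    exact he p.1 hp.1
  have hv : PN (NL N) (DL D k) (Γ := .int :: Γ) (fun p => ((p.2 : ℤ), ρ p.1))
      (fun p => p.2) := by
    refine Cp.top (t := .int) (ρ := fun p : A × ℕ => ρ p.1) (f := fun p => (p.2 : ℤ))
      ⟨c, fun p hp => ?_⟩
    refine le_trans ?_ (hc p.1 hp.1)
    refine sz_mono ?_
    rw [Nat.abs_cast, Nat.abs_cast]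
    exact_mod_cast hp.2.le
  obtain ⟨e, m, he⟩ := h _ _ up hv
  exact ⟨e, m, fun a ha i hi => he (a, i) ⟨ha, hi⟩⟩

/-- PROOF. `Body.out`, `Ex.sum`. The sum of the absolute values is at most `k` times the maximum. The hypothesis `hw` is needed for `k a = 0`. -/
theorem Cp.sum {k : A → ℕ} {w : ℝ → A → ℝ} {f : A → ℕ → ℤ} (hk : PN N D ρ k)
    (hw : ∀ a, D a → ∀ τ : ℝ, 2 ≤ τ → 1 ≤ w τ a)
    (h : Body N D ρ k w .int f) :
    Cp N D ρ (fun τ a => (k a + 1) * w τ a) .int (fun a => ∑ i ∈ Finset.range (k a), f a i) := by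
  obtain ⟨ek, m, hk'⟩ := hk
  obtain ⟨e, c, he⟩ := Body.out ⟨m, fun a ha => (hk' a ha).2.1⟩ h
  refine ⟨Ex.sum ek e, m + c + 4, fun a ha => ?_⟩
  obtain ⟨h3, h4, h5⟩ := hk' a ha
  obtain ⟨h20, h21, h22, h23⟩ := P2b_aux (P2b_x N a) m c
  have hkR : (sz (k a : ℤ) : ℝ) ≤ ((N a : ℝ) + 2) ^ m := by
    have h9 : sz (k a : ℤ) ≤ (N a + 2) ^ m := h4
    exact_mod_cast h9
  have hfR : ∀ i < k a, sz (f a i) ≤ (N a + 2) ^ c := fun i hi => (he a ha i hi).2.1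
  have hS : sz (∑ i ∈ Finset.range (k a), |f a i|) ≤ sz (k a : ℤ) + (N a + 2) ^ c :=
    P2b_abs (k a) (f a) hfR
  have hSR : (sz (∑ i ∈ Finset.range (k a), |f a i|) : ℝ) ≤
      ((N a : ℝ) + 2) ^ m + ((N a : ℝ) + 2) ^ c := by
    have h9 : (sz (∑ i ∈ Finset.range (k a), |f a i|) : ℝ) ≤
        sz (k a : ℤ) + ((N a : ℝ) + 2) ^ c := by exact_mod_cast hS
    linarith
  refine ⟨?_, ?_, fun τ hτ => ⟨?_, ?_⟩⟩
  · simp only [Ex.eval]
    rw [h3, Int.toNat_natCast]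
    exact Finset.sum_congr rfl fun i hi => (he a ha i (Finset.mem_range.mp hi)).1
  · have h10 : sz (∑ i ∈ Finset.range (k a), f a i) ≤
        sz (∑ i ∈ Finset.range (k a), |f a i|) := by
      apply sz_mono
      rw [abs_of_nonneg (Finset.sum_nonneg fun i _ => abs_nonneg (f a i))]
      exact Finset.abs_sum_le_sum_abs _ _
    have h11 : (sz (∑ i ∈ Finset.range (k a), f a i) : ℝ) ≤ ((N a : ℝ) + 2) ^ (m + c + 4) := by
      have h12 : (sz (∑ i ∈ Finset.range (k a), f a i) : ℝ) ≤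
          sz (∑ i ∈ Finset.range (k a), |f a i|) := by exact_mod_cast h10
      linarith
    change sz (∑ i ∈ Finset.range (k a), f a i) ≤ _
    exact_mod_cast h11
  · have h13 := hw a ha τ hτ
    have h14 : (0 : ℝ) ≤ k a := Nat.cast_nonneg _
    nlinarith
  · have h13 := (h5 τ hτ).2
    rw [one, mul_one] at h13
    simp only [Ex.cost]
    rw [h3, Int.toNat_natCast]
    have h15 : ∑ j ∈ Finset.range (k a), |e.eval ((j : ℤ), ρ a)| =
        ∑ j ∈ Finset.range (k a), |f a j| :=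
      Finset.sum_congr rfl fun i hi => by rw [(he a ha i (Finset.mem_range.mp hi)).1]
    rw [h15]
    exact P2b_cost (P2b_x N a) (hw a ha τ hτ) m c h13 hkR
      (fun i hi => ((he a ha i hi).2.2 τ hτ).2) (fun i _ => hSR)

/-- PROOF. `Ex.tab`. -/
theorem Cp.tab {k : A → ℕ} {w : ℝ → A → ℝ} {f : A → ℕ → ℤ} (hk : PN N D ρ k)
    (hw : ∀ a, D a → ∀ τ : ℝ, 2 ≤ τ → 1 ≤ w τ a)
    (h : Body N D ρ k w .int f) :
    Cp N D ρ (fun τ a => (k a + 1) * w τ a) .arr (fun a => tb (k a) (f a)) := by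
  obtain ⟨ek, m, hk'⟩ := hk
  obtain ⟨e, c, he⟩ := Body.out ⟨m, fun a ha => (hk' a ha).2.1⟩ h
  refine ⟨Ex.tab ek e, m + c + 4, fun a ha => ?_⟩
  obtain ⟨h3, h4, h5⟩ := hk' a ha
  obtain ⟨h20, h21, h22, h23⟩ := P2b_aux (P2b_x N a) m c
  have hkR : (sz (k a : ℤ) : ℝ) ≤ ((N a : ℝ) + 2) ^ m := by
    have h9 : sz (k a : ℤ) ≤ (N a + 2) ^ m := h4
    exact_mod_cast h9
  have hfR : ∀ i < k a, sz (f a i) ≤ (N a + 2) ^ c := fun i hi => (he a ha i hi).2.1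
  refine ⟨?_, ?_, fun τ hτ => ⟨?_, ?_⟩⟩
  · simp only [Ex.eval]
    rw [h3, Int.toNat_natCast]
    exact List.map_congr_left fun i hi => (he a ha i (List.mem_range.mp hi)).1
  · have h10 : asz (tb (k a) (f a)) ≤ (N a + 2) ^ c := by
      apply P2b_asz
      intro x hx
      obtain ⟨i, hi, rfl⟩ := List.mem_map.mp hx
      exact hfR i (List.mem_range.mp hi)
    have h11 : Nat.size (tb (k a) (f a)).length ≤ (N a + 2) ^ m := by
      rw [length_tb]
      exact h4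
    change asz (tb (k a) (f a)) + Nat.size (tb (k a) (f a)).length ≤ _
    have h12 : ((asz (tb (k a) (f a)) + Nat.size (tb (k a) (f a)).length : ℕ) : ℝ) ≤
        ((N a : ℝ) + 2) ^ (m + c + 4) := by
      have h13 : ((asz (tb (k a) (f a)) : ℕ) : ℝ) ≤ ((N a : ℝ) + 2) ^ c := by exact_mod_cast h10
      have h14 : ((Nat.size (tb (k a) (f a)).length : ℕ) : ℝ) ≤ ((N a : ℝ) + 2) ^ m := by
        exact_mod_cast h11
      push_cast
      linarith
    exact_mod_cast h12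
  · have h13 := hw a ha τ hτ
    have h14 : (0 : ℝ) ≤ k a := Nat.cast_nonneg _
    nlinarith
  · have h13 := (h5 τ hτ).2
    rw [one, mul_one] at h13
    simp only [Ex.cost]
    rw [h3, Int.toNat_natCast]
    exact P2b_cost (P2b_x N a) (hw a ha τ hτ) m c h13 hkR
      (fun i hi => ((he a ha i hi).2.2 τ hτ).2) (fun i hi => by
        rw [(he a ha i hi).1]
        have h15 : (sz (f a i) : ℝ) ≤ ((N a : ℝ) + 2) ^ c := by exact_mod_cast hfR i hi
        linarith)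

end

end Pool.Agent.MPa9445a.GD
end
end
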