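import Pool.Agent.Lib.MP_a9445a_lc.Mg.G113
import Pool.Agent.Lib.MP_a9445a_lc.Mg.G121

section

/-!
# Sign vectors as sets, level sets, random sets

The vertex set is `Fin n`. A set `X` stands for the sign vector which is `1` on `X` and `-1` outside; flipping the signs
on `D` gives `X ∆ D`.
-/

set_option autoImplicit false

open Finset
open scoped symmDiff

namespace Pool.Agent.MPa9445a.SN

open Pool.Agent.MPa9445a.BE (bit)

variable {n : ℕ}

/-- The sign of `v`: `1` in `X`, `-1` outside. -/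
def sgn (X : Finset (Fin n)) (v : Fin n) : ℤ := if v ∈ X then 1 else -1

/-- The form of the principal submatrix `D` of `W` at the sign vector of `X`. -/
def frm (W : Matrix (Fin n) (Fin n) ℤ) (D X : Finset (Fin n)) : ℤ :=
  ∑ u ∈ D, ∑ v ∈ D, W u v * sgn X u * sgn X v

/-- The form at the sign vector of `X`. -/
def ff (W : Matrix (Fin n) (Fin n) ℤ) (X : Finset (Fin n)) : ℤ := frm W univ X

/-- The level set: all `X` with value at least `t`. -/
def LS (W : Matrix (Fin n) (Fin n) ℤ) (t : ℤ) : Finset (Finset (Fin n)) :=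
  univ.filter fun X => t ≤ ff W X

/-- The solutions of the decoupled problem for `D`. -/
def PD (W : Matrix (Fin n) (Fin n) ℤ) (θ : ℤ) (D : Finset (Fin n)) : Finset (Finset (Fin n)) :=
  univ.filter fun X => θ ≤ 2 * (frm W D X + frm W Dᶜ X)

/-- `X` is a maximum. -/
def IsMx (W : Matrix (Fin n) (Fin n) ℤ) (X : Finset (Fin n)) : Prop := ∀ Y, ff W Y ≤ ff W X

/-- The sets with `e` elements. -/
def lay (n e : ℕ) : Finset (Finset (Fin n)) := univ.filter fun D => D.card = e

/-- The bound for the distances on the complement. -/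
def rad (n e : ℕ) : ℕ := e - e * e / n

/-- The exponent of the number of samples: `89 n / 400`. -/
def sig (n : ℕ) : ℕ := 89 * n / 400

/-- The budget `(n + 2) ^ 20 * 2 ^ (486 n / 625)`. -/
def Bud (n : ℕ) : ℕ := (n + 2) ^ 20 * 2 ^ (486 * n / 625)

/-- The number of samples. -/
def Jn (n g : ℕ) : ℕ := 2 ^ g * (64 * (n + 1) ^ 2)

/-- The number of advice points which are tried. -/
def Yn (n : ℕ) : ℕ := 1024 * (n + 1) ^ 2

/-- The number of binary digits of the indices. -/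
def kb (n : ℕ) : ℕ := 3 * n + 6

/-- The random bits of one family of random sets. -/
abbrev Fm (n : ℕ) : Type := Fin n → Fin (kb n + 1) → Bool

/-- The random set with index `i`: an affine map over the field with two elements. -/
def rs (ω : Fm n) (i : ℕ) : Finset (Fin n) :=
  univ.filter fun v => ((ω v 0).toNat + ∑ j : Fin (kb n), (ω v j.succ).toNat * bit i j) % 2 = 1

/-- The size of the list of the complement: `C(n', w₁) C(n'', w₂)`, `n' + n'' = n - e`. -/
def WL (n e w₁ w₂ : ℕ) : ℕ := ((n - e) / 2).choose w₁ * ((n - e) - (n - e) / 2).choose w₂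

/-- Case I: one of the samples is a maximum. -/
def SI (W : Matrix (Fin n) (Fin n) ℤ) (X₀ : Finset (Fin n)) (ωY : Fm n) : Prop :=
  ∃ j < Jn n (sig n), ff W (rs ωY j) = ff W X₀

/-- Case II: the sample `j` is an advice point of level `T`, and the set `i` is good for it. -/
def SII (W : Matrix (Fin n) (Fin n) ℤ) (X₀ : Finset (Fin n)) (T : ℤ) (g e : ℕ) (ωY ωD : Fm n) :
    Prop :=
  ∃ i < Jn n g, ∃ j < Jn n g, T ≤ ff W (rs ωY j) ∧
    ((range j).filter fun j' => T ≤ ff W (rs ωY j')).card < Yn n ∧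
    (rs ωD i).card = e ∧ T ≤ ff W (X₀ ∆ rs ωD i) ∧ ((X₀ ∆ rs ωY j) \ rs ωD i).card ≤ rad n e ∧
    (∀ w₁ w₂, w₁ + w₂ ≤ rad n e →
      ((range (Jn n g)).filter fun i' => (rs ωD i').card = e).card * (2 ^ e + WL n e w₁ w₂ + 1) ≤
        Bud n) ∧
    ∑ i' ∈ (range (Jn n g)).filter fun i' => (rs ωD i').card = e,
      (PD W (ff W X₀ + T) (rs ωD i')).card ≤ Bud n

/-- The random bits of a block are good. -/
def Suc (W : Matrix (Fin n) (Fin n) ℤ) (X₀ : Finset (Fin n)) (ωY ωD : Fm n) : Prop :=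
  SI W X₀ ωY ∨ ∃ (T : ℤ) (g e : ℕ), g ≤ sig n ∧ 2 * e ≤ n ∧ (∃ X, ff W X = T) ∧
    SII W X₀ T g e ωY ωD

end Pool.Agent.MPa9445a.SN
end

section

/-!
# The golden recursion: states, levels, tilted sums, the procedure

`Vc n` is the type of the vectors `Fin n → ℤ`; only the entries `0` (the vertex is absent), `1`, `-1` occur.
A state is a vector whose entries may also be `2` (the vertex is free). The procedure of depth `k` lists, for
a state `s` and a level `p`, all vectors of `S s` with value `p`, within a budget `B`.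
`Ok k ω W s p B` says that it succeeds (with the random bits `ω`); if it succeeds then the list is complete.
-/

set_option autoImplicit false

open Finset
open scoped symmDiff

namespace Pool.Agent.MPa9445a.GL

open Pool.Agent.MPa9445a.SN (Fm rs kb)

variable {n : ℕ}

/-- Vectors and states. -/
abbrev Vc (n : ℕ) : Type := Fin n → ℤ

/-- The quadratic form. -/
def Ph (W : Matrix (Fin n) (Fin n) ℤ) (x : Vc n) : ℤ := ∑ u, ∑ v, W u v * x u * x v

/-- The bound for the values. -/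
def Rb (n : ℕ) : ℕ := n ^ 4

/-- The weights are at most `n ^ 2` in absolute value. -/
def Wb (W : Matrix (Fin n) (Fin n) ℤ) : Prop := ∀ u v, |W u v| ≤ (n : ℤ) ^ 2

/-- The levels. -/
noncomputable def lvl (n : ℕ) : Finset ℤ := Icc (-(Rb n : ℤ)) (Rb n)

/-- The entries of a state are `0` (absent), `1`, `-1` (fixed) or `2` (free). -/
def St (s : Vc n) : Prop := ∀ v, s v = 0 ∨ s v = 1 ∨ s v = -1 ∨ s v = 2

/-- The free vertices. -/
def Fr (s : Vc n) : Finset (Fin n) := univ.filter fun v => s v = 2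

/-- The vectors of the state `s`. -/
def S (s : Vc n) : Finset (Vc n) := Fintype.piFinset fun v => if s v = 2 then {1, -1} else {s v}

/-- The vectors of value `p`. -/
def Lv (W : Matrix (Fin n) (Fin n) ℤ) (s : Vc n) (p : ℤ) : Finset (Vc n) :=
  (S s).filter fun x => Ph W x = p

/-- The tilted sum. -/
noncomputable def T (W : Matrix (Fin n) (Fin n) ℤ) (s : Vc n) (p : ℤ) (q : ℝ) : ℝ :=
  ∑ x ∈ S s, q ^ (Ph W x - p)

/-- The signs on `D` are flipped. -/
def fl (D : Finset (Fin n)) (x : Vc n) : Vc n := fun v => if v ∈ D then -x v else x v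

/-- `r` is obtained from `s` by fixing some free entries. -/
def Res (s r : Vc n) : Prop := ∀ v, (s v ≠ 2 → r v = s v) ∧ (s v = 2 → r v = 2 ∨ r v = 1 ∨ r v = -1)

/-- The part `D` of the flipped state: the fixed entries change the sign. -/
def la (r : Vc n) (D : Finset (Fin n)) : Vc n := fun v =>
  if v ∈ D then (if r v = 2 then 2 else -r v) else 0

/-- The part outside `D`. -/
def rh (r : Vc n) (D : Finset (Fin n)) : Vc n := fun v => if v ∈ D then 0 else r v

/-- The free entries with index `< i` are fixed as in `x`. -/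
def pre (s x : Vc n) (i : ℕ) : Vc n := fun v => if s v = 2 ∧ (v : ℕ) < i then x v else s v

/-- The vector of the state `s` which is `1` at the free vertices in `X`. -/
def vc (s : Vc n) (X : Finset (Fin n)) : Vc n := fun v =>
  if s v = 2 then (if v ∈ X then 1 else -1) else s v

/-- The bases of the exponentials: `γ 0 = 2`, `γ (k + 1) = √(1 + γ k)`. -/
noncomputable def γ : ℕ → ℝ
  | 0 => 2
  | k + 1 => Real.sqrt (1 + γ k)

/-- The number of levels. -/
def LL (n : ℕ) : ℕ := 2 * n ^ 4 + 1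

/-- The factor of the prefix lemma. -/
def AA (n : ℕ) : ℕ := 8 * (n + 1)

/-! ## Random sets -/

/-- The number of shifts. -/
def Rn (n : ℕ) : ℕ := 32 * (n + 5)

/-- The matrix of a round: the set `A v` are the vertices whose bits are added for the free vertex `v`. -/
abbrev Mx (n : ℕ) : Type := Fin n → Finset (Fin n)

/-- The shifts of a round. -/
abbrev Sh (n : ℕ) : Type := Fin (Rn n) → Finset (Fin n)

/-- The random bits of a round: samples, sets `D`, matrix, shifts. -/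
abbrev Rd (n : ℕ) : Type := Fm n × Fm n × Mx n × Sh n

/-- The number of rounds. -/
def Zn (n : ℕ) : ℕ := 2 * n ^ 2 + 8 * n + 16

/-- The random bits of all rounds of one depth. -/
abbrev Sd (n : ℕ) : Type := Fin (Zn n) → Rd n

/-- The random bits of the depths `1, …, k`. -/
def Sds (n : ℕ) : ℕ → Type
  | 0 => Unit
  | k + 1 => Sds n k × Sd n

instance Sds.fintype (n : ℕ) : (k : ℕ) → Fintype (Sds n k)
  | 0 => inferInstanceAs (Fintype Unit)
  | k + 1 => @instFintypeProd _ _ (Sds.fintype n k) _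

theorem Sds.card_succ (n k : ℕ) :
    Fintype.card (Sds n (k + 1)) = Fintype.card (Sds n k) * Fintype.card (Sd n) :=
  Fintype.card_prod (Sds n k) (Sd n)

open scoped Classical in
theorem filter_prod {X Y : Type} [Fintype X] [Fintype Y] (P : X × Y → Prop) :
    (univ.filter P).card = ∑ x : X, (univ.filter fun y : Y => P (x, y)).card := by
  simp only [Finset.card_filter]
  rw [Fintype.sum_prod_type]

open scoped Classical in
theorem Sds.filter_succ (n k : ℕ) (P : Sds n (k + 1) → Prop) :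
    (univ.filter P).card = ∑ ω : Sds n k, (univ.filter fun z : Sd n => P (ω, z)).card :=
  filter_prod (X := Sds n k) (Y := Sd n) P

/-- The linear part of the sets `D`: `w` (below `j`) and its image under the matrix (from `j` on). -/
def lnr (s : Vc n) (A : Mx n) (j : ℕ) (w : Finset (Fin n)) : Finset (Fin n) :=
  w ∪ (Fr s).filter fun v : Fin n => j ≤ (v : ℕ) ∧ (w ∩ A v).card % 2 = 1

/-- The free vertices below `j`. -/
def lo (s : Vc n) (j : ℕ) : Finset (Fin n) := (Fr s).filter fun v : Fin n => (v : ℕ) < j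

/-- The free vertices from `j` on. -/
def hi (s : Vc n) (j : ℕ) : Finset (Fin n) := (Fr s).filter fun v : Fin n => j ≤ (v : ℕ)

/-- The set `D` with index `(w, i)`. -/
def Dw (s : Vc n) (A : Mx n) (h : Sh n) (j : ℕ) (w : Finset (Fin n)) (i : Fin (Rn n)) :
    Finset (Fin n) :=
  (lnr s A j w) ∆ (h i ∩ Fr s)

/-- Every vector is covered: it is obtained from an element of `Y` by flipping one of the sets. -/
def Cov (s : Vc n) (A : Mx n) (h : Sh n) (j : ℕ) (Y : Finset (Vc n)) : Prop :=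
  ∀ x ∈ S s, ∃ y ∈ Y, ∃ w ∈ (lo s j).powerset, ∃ i, x = fl (Dw s A h j w i) y

/-- The set `D` number `κ` of the family `ω` for the state `r`. -/
def Dk (r : Vc n) (ω : Fm n) (κ : ℕ) : Finset (Fin n) := rs ω κ ∩ Fr r

/-- The sample number `κ`. -/
def xk (s : Vc n) (ω : Fm n) (κ : ℕ) : Vc n := vc s (rs ω κ)

/-- The list `Y`: vectors of `r` of value `t` which have value `t` after a flip. -/
def Yl (W : Matrix (Fin n) (Fin n) ℤ) (r : Vc n) (t : ℤ) (ω : Fm n) (K : ℕ) : Finset (Vc n) :=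
  (Lv W r t).filter fun y => ∃ κ < K, Ph W (fl (Dk r ω κ) y) = t

/-! ## The procedure -/

section

variable (W : Matrix (Fin n) (Fin n) ℤ)

/-- With the budget `2 ^ j` for both children the pair is finished; `O s p B` means that the children succeed. -/
def PairOk (O : Vc n → ℤ → ℕ → Prop) (l : Vc n) (a : ℤ) (r : Vc n) (b : ℤ) (j : ℕ) : Prop :=
  (O l a (2 ^ j) ∧ Lv W l a = ∅) ∨ (O r b (2 ^ j) ∧ Lv W r b = ∅) ∨
    (O l a (2 ^ j) ∧ O r b (2 ^ j) ∧ (Lv W l a).card * (Lv W r b).card ≤ 2 ^ j)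

open scoped Classical in
/-- The cost of a pair: the least power of two which is sufficient (at most `4 ^ n`). -/
noncomputable def pc (O : Vc n → ℤ → ℕ → Prop) (l : Vc n) (a : ℤ) (r : Vc n) (b : ℤ) : ℕ :=
  if h : ∃ j, PairOk W O l a r b j then 2 ^ Nat.find h else 4 ^ n

/-- The levels `a` such that `a` and `c - a` are levels. -/
noncomputable def la2 (n : ℕ) (c : ℤ) : Finset ℤ := (lvl n).filter fun a => c - a ∈ lvl n

/-- The cost of the set `D` for the state `r` and the sum `c` of the levels of the children. -/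
noncomputable def cD (O : Vc n → ℤ → ℕ → Prop) (r : Vc n) (c : ℤ) (D : Finset (Fin n)) : ℕ :=
  ∑ a ∈ la2 n c, pc W O (la r D) a (rh r D) (c - a)

/-- The number of samples of the level `t` which are used. -/
def Y0 : ℕ := 1024

/-- The parameters of an attempt: level `t`, sample `κ`, number `i` of the prefix, number `2 ^ e` of the sets `D`
for `Y`, position `j`. -/
structure Att where
  t : ℤ
  κ : ℕ
  i : ℕ
  e : ℕ
  j : ℕ

/-- The state `r` of an attempt. -/
def Att.r (a : Att) (s : Vc n) (ω : Rd n) : Vc n := pre s (xk s ω.1 a.κ) a.i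

/-- The list `Y` of an attempt. -/
def Att.Y (a : Att) (s : Vc n) (ω : Rd n) : Finset (Vc n) := Yl W (a.r s ω) a.t ω.2.1 (2 ^ a.e)

/-- The attempt succeeds. -/
structure Suc (O : Vc n → ℤ → ℕ → Prop) (s : Vc n) (p : ℤ) (B : ℕ) (ω : Rd n) (a : Att) : Prop where
  ht : a.t ∈ lvl n
  hκ : a.κ < B
  hx : Ph W (xk s ω.1 a.κ) = a.t
  hY0 : ((range a.κ).filter fun κ' => Ph W (xk s ω.1 κ') = a.t).card < Y0
  hi' : a.i ≤ n
  he : 2 ^ a.e ≤ B
  cY : ∑ κ ∈ range (2 ^ a.e), cD W O (a.r s ω) a.t (Dk (a.r s ω) ω.2.1 κ) ≤ B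
  hj : a.j ≤ n
  hj1 : 2 ^ (hi s a.j).card ≤ B
  hj2 : 2 ^ (lo s a.j).card ≤ B
  cov : Cov s ω.2.2.1 ω.2.2.2 a.j (a.Y W s ω)
  par : (p + a.t) % 2 = 0
  cH : ∑ w ∈ (lo s a.j).powerset, ∑ i,
    cD W O (a.r s ω) ((p + a.t) / 2) (Dw s ω.2.2.1 ω.2.2.2 a.j w i) ≤ B

/-- The level `p` has the parity of the values on `S s`. -/
def Par (s : Vc n) (p : ℤ) : Prop := (p + Ph W (vc s ∅)) % 2 = 0

/-- The procedure of depth `k` succeeds. -/
def Ok : (k : ℕ) → Sds n k → Vc n → ℤ → ℕ → Prop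
  | 0, _, s, _, B => 2 ^ (Fr s).card ≤ B
  | k + 1, ω, s, p, B => 2 ^ (Fr s).card ≤ B ∨ ¬ Par W s p ∨
      ∃ (z : Fin (Zn n)) (a : Att), Suc W (Ok k ω.1) s p B (ω.2 z) a

/-- The polynomial factors. -/
def pl (n : ℕ) : ℕ → ℕ
  | 0 => 1
  | k + 1 => 2 ^ 20 * (n + 2) ^ 60 * pl n k

/-- The random bits are good: the procedure succeeds whenever the budget is large enough. -/
def Good (k : ℕ) (ω : Sds n k) : Prop :=
  ∀ s, St s → ∀ p ∈ lvl n, ∀ (B : ℕ) (q : ℝ), 1 ≤ q →
    (pl n k : ℝ) * max (γ k ^ (Fr s).card) (T W s p q) ≤ B → Ok W k ω s p B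

end

end Pool.Agent.MPa9445a.GL
end

section

section

/-! Functions computed by programs: maximum, filter, matrix product. -/

set_option autoImplicit false

namespace Pool.Agent.MPa9445a.GD

open Pool.Agent.MPa9445a.BE

private theorem P2c_find {p q : ℕ → Bool} (l : List ℕ) (h : ∀ i ∈ l, p i = q i) :
    l.find? p = l.find? q := by
  induction l with
  | nil => rfl
  | cons x l ih =>
    have h1 := h x List.mem_cons_self
    have h2 := ih fun i hi => h i (List.mem_cons_of_mem _ hi)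
    rw [List.find?_cons, List.find?_cons, h1, h2]

private theorem P2c_argmax {k : ℕ} {f g : ℤ → ℤ} (h : ∀ i < k, f (i : ℤ) = g (i : ℤ)) :
    argmax k f = argmax k g := by
  unfold argmax
  congr 1
  apply P2c_find
  intro i hi
  have hi' := List.mem_range.mp hi
  rw [Bool.eq_iff_iff, List.all_eq_true, List.all_eq_true]
  constructor
  · intro h1 j hj
    have h2 := h1 j hj
    rw [h i hi', h j (List.mem_range.mp hj)] at h2
    exact h2
  · intro h1 j hj
    have h2 := h1 j hj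
    rw [← h i hi', ← h j (List.mem_range.mp hj)] at h2
    exact h2

private theorem P2c_asz {l : List ℤ} {M : ℕ} (h : ∀ x ∈ l, sz x ≤ M) : asz l ≤ M := by
  unfold asz
  induction l with
  | nil => simp
  | cons x l ih =>
    rw [List.map_cons, List.foldr_cons]
    exact max_le (h x List.mem_cons_self) (ih fun y hy => h y (List.mem_cons_of_mem _ hy))

private theorem P2c_sum (k M : ℕ) (x : ℕ → ℤ) (h : ∀ i < k, sz (x i) ≤ M) :
    sz (∑ i ∈ Finset.range k, x i) ≤ sz (k : ℤ) + M := by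
  unfold sz
  rw [Nat.size_le]
  have h1 : (∑ i ∈ Finset.range k, x i).natAbs ≤ ∑ i ∈ Finset.range k, (x i).natAbs :=
    Int.natAbs_sum_le _ _
  have h2 : ∑ i ∈ Finset.range k, (x i).natAbs ≤ ∑ _i ∈ Finset.range k, 2 ^ M := by
    refine Finset.sum_le_sum fun i hi => ?_
    have h3 := h i (Finset.mem_range.mp hi)
    unfold sz at h3
    exact (Nat.size_le.mp h3).le
  rw [Finset.sum_const, Finset.card_range, smul_eq_mul] at h2
  have h4 : k * 2 ^ M < 2 ^ Nat.size (k : ℤ).natAbs * 2 ^ M := by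
    rw [Int.natAbs_natCast]
    exact Nat.mul_lt_mul_of_pos_right (Nat.lt_size_self k) (by positivity)
  rw [pow_add]
  omega

private theorem P2c_matMul (k : ℕ) (a b : List ℤ) :
    asz (matMul k a b) ≤ sz (k : ℤ) + (asz a + asz b) := by
  apply P2c_asz
  intro x hx
  unfold matMul at hx
  obtain ⟨i, -, rfl⟩ := List.mem_map.mp hx
  refine P2c_sum k _ _ fun l _ => ?_
  exact (sz_mul _ _).trans (add_le_add (sz_nth _ _) (sz_nth _ _))

private theorem P2c_pow {X : ℝ} (hX : 2 ≤ X) {a b : ℕ} (h : a ≤ b) : X ^ a ≤ X ^ b :=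
  pow_le_pow_right₀ (by linarith) h

private theorem P2c_four {X : ℝ} (hX : 2 ≤ X) (s : ℕ) : 4 * X ^ s ≤ X ^ (s + 2) := by
  rw [pow_add]
  have h1 : 0 < X ^ s := by positivity
  have h2 : (4 : ℝ) ≤ X ^ 2 := by nlinarith
  nlinarith

/-- The cost of a loop. -/
private theorem P2c_loop {X W : ℝ} (hX : 2 ≤ X) (hW : 1 ≤ W) (k c d : ℕ) (ck : ℝ) (F : ℕ → ℝ)
    (hck : ck ≤ X ^ d) (hF : ∀ i < k, F i ≤ X ^ c * W + 1 + X ^ d + X ^ c) :
    ck + 1 + ∑ i ∈ Finset.range k, F i ≤ X ^ (c + d + 2) * ((k + 1) * W) := by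
  have hX0 : (0 : ℝ) < X := by linarith
  have h1 : ∑ i ∈ Finset.range k, F i ≤ ∑ _i ∈ Finset.range k, X ^ (c + d + 2) * W := by
    refine Finset.sum_le_sum fun i hi => (hF i (Finset.mem_range.mp hi)).trans ?_
    have e1 : X ^ c ≤ X ^ (c + d) := P2c_pow hX (by omega)
    have e2 : X ^ d ≤ X ^ (c + d) := P2c_pow hX (by omega)
    have e3 : (1 : ℝ) ≤ X ^ (c + d) := one_le_pow₀ (by linarith)
    have e4 := P2c_four hX (c + d)
    have e5 : 0 < X ^ c := by positivity
    have e6 : 0 < X ^ d := by positivity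
    nlinarith
  rw [Finset.sum_const, Finset.card_range, nsmul_eq_mul] at h1
  have h2 : ck + 1 ≤ X ^ (c + d + 2) * W := by
    have e2 : X ^ d ≤ X ^ (c + d) := P2c_pow hX (by omega)
    have e3 : (1 : ℝ) ≤ X ^ (c + d) := one_le_pow₀ (by linarith)
    have e4 := P2c_four hX (c + d)
    nlinarith
  nlinarith

section

variable {A : Type} {N : A → ℕ} {D : A → Prop} {Γ : List Ty} {ρ : A → Env Γ}

/-- PROOF. `Ex.amax`. For `i < k` the function is only read at `i < k`: `argmax` depends only on these values. -/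
theorem Cp.amax {k : A → ℕ} {w : ℝ → A → ℝ} {f : A → ℕ → ℤ} (hk : PN N D ρ k)
    (hw : ∀ a, D a → ∀ τ : ℝ, 2 ≤ τ → 1 ≤ w τ a)
    (h : Body N D ρ k w .int f) :
    Cp N D ρ (fun τ a => (k a + 1) * w τ a) .int
      (fun a => (argmax (k a) (fun i => f a i.toNat) : ℤ)) := by
  obtain ⟨ek, d, hek⟩ := hk
  obtain ⟨e, c, he⟩ := Body.out ⟨d, fun a ha => (hek a ha).2.1⟩ h
  refine ⟨Ex.amax ek e, c + d + 2, fun a ha => ?_⟩
  obtain ⟨h1, h2, h3⟩ := hek a ha
  have hev : (ek.eval (ρ a)).toNat = k a := by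
    rw [h1]
    exact Int.toNat_natCast _
  have harg : argmax (k a) (fun i => e.eval (i, ρ a)) = argmax (k a) (fun i => f a i.toNat) := by
    apply P2c_argmax
    intro i hi
    rw [Int.toNat_natCast]
    exact (he a ha i hi).1
  refine ⟨?_, ?_, fun τ hτ => ⟨?_, ?_⟩⟩
  · change ((argmax (ek.eval (ρ a)).toNat (fun i => e.eval (i, ρ a)) : ℕ) : ℤ) = _
    rw [hev, harg]
  · change sz ((argmax (k a) (fun i => f a i.toNat) : ℕ) : ℤ) ≤ _
    have h4 : sz ((argmax (k a) (fun i => f a i.toNat) : ℕ) : ℤ) ≤ sz ((k a : ℕ) : ℤ) := by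
      apply sz_mono
      rw [Nat.abs_cast, Nat.abs_cast]
      exact_mod_cast argmax_le _ _
    refine h4.trans (h2.trans ?_)
    exact Nat.pow_le_pow_right (by omega) (by omega)
  · have h5 := hw a ha τ hτ
    have h6 : (0 : ℝ) ≤ (k a : ℝ) := Nat.cast_nonneg _
    nlinarith
  · have hX : (2 : ℝ) ≤ (N a : ℝ) + 2 := by
      have h6 : (0 : ℝ) ≤ (N a : ℝ) := Nat.cast_nonneg _
      linarith
    have h7 := P2c_loop hX (hw a ha τ hτ) (k a) c d (ek.cost τ (ρ a))
      (fun i => e.cost τ ((i : ℤ), ρ a) + 1 + sz (ek.eval (ρ a)) + sz (e.eval ((i : ℤ), ρ a)))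
      (by
        have h8 := (h3 τ hτ).2
        simpa [one] using h8)
      (fun i hi => by
        obtain ⟨g1, g2, g3⟩ := he a ha i hi
        have g4 := (g3 τ hτ).2
        have g5 : (sz (ek.eval (ρ a)) : ℝ) ≤ ((N a : ℝ) + 2) ^ d := by
          rw [h1]
          exact_mod_cast h2
        have g6 : (sz (e.eval ((i : ℤ), ρ a)) : ℝ) ≤ ((N a : ℝ) + 2) ^ c := by
          rw [g1]
          exact_mod_cast g2
        linarith)
    have h9 : (Ex.amax ek e).cost τ (ρ a) = ek.cost τ (ρ a) + 1 +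
        ∑ i ∈ Finset.range (ek.eval (ρ a)).toNat,
          (e.cost τ ((i : ℤ), ρ a) + 1 + sz (ek.eval (ρ a)) + sz (e.eval ((i : ℤ), ρ a))) := by
      simp only [Ex.cost]
    rw [h9, hev]
    exact h7

/-- The filter. PROOF. `Ex.filter`; the property inside the loop is given as `PB`: use its function. -/
theorem Cp.filter {k : A → ℕ} {q : A → ℕ → Prop} [∀ a, DecidablePred (q a)] (hk : PN N D ρ k)
    (h : ∀ (Γ' : List Ty) (ρ' : A × ℕ → Env Γ'), Up N D ρ k ρ' →
      PN (NL N) (DL D k) ρ' (fun p => p.2) → PB (NL N) (DL D k) ρ' (fun p => q p.1 p.2)) :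
    Cp N D ρ (fun _ a => (k a + 1 : ℝ)) .arr (fun a => flt (k a) (q a)) := by
  have hB : Body N D ρ k one .int (fun a i => if q a i then 1 else 0) := by
    intro Γ' ρ' up hv
    have h1 := h Γ' ρ' up hv
    exact Cp.ite (w := one) h1 (PI.const 1) (PI.const 0)
  obtain ⟨ek, d, hek⟩ := hk
  obtain ⟨e, c, he⟩ := Body.out ⟨d, fun a ha => (hek a ha).2.1⟩ hB
  refine ⟨Ex.filter ek e, c + d + 2, fun a ha => ?_⟩
  obtain ⟨h1, h2, h3⟩ := hek a ha
  have hev : (ek.eval (ρ a)).toNat = k a := by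
    rw [h1]
    exact Int.toNat_natCast _
  have hX : (2 : ℝ) ≤ (N a : ℝ) + 2 := by
    have h6 : (0 : ℝ) ≤ (N a : ℝ) := Nat.cast_nonneg _
    linarith
  refine ⟨?_, ?_, fun τ hτ => ⟨?_, ?_⟩⟩
  · change (((List.range (ek.eval (ρ a)).toNat).filter fun i : ℕ =>
      decide (e.eval ((i : ℤ), ρ a) ≠ 0)).map fun i : ℕ => (i : ℤ)) = flt (k a) (q a)
    rw [hev]
    unfold flt
    congr 1
    apply List.filter_congr
    intro i hi
    have h4 := (he a ha i (List.mem_range.mp hi)).1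
    rw [h4]
    by_cases hq : q a i
    · simp [hq]
    · simp [hq]
  · change asz (flt (k a) (q a)) + Nat.size (flt (k a) (q a)).length ≤ _
    have h4 : asz (flt (k a) (q a)) ≤ sz ((k a : ℕ) : ℤ) := by
      apply P2c_asz
      intro x hx
      unfold flt at hx
      obtain ⟨i, hi, rfl⟩ := List.mem_map.mp hx
      have hi2 := List.mem_range.mp (List.mem_filter.mp hi).1
      apply sz_mono
      rw [Nat.abs_cast, Nat.abs_cast]
      exact_mod_cast hi2.le
    have h5 : Nat.size (flt (k a) (q a)).length ≤ sz ((k a : ℕ) : ℤ) := by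
      unfold sz
      rw [Int.natAbs_natCast]
      apply Nat.size_le_size
      unfold flt
      rw [List.length_map]
      exact (List.length_filter_le _ _).trans (by rw [List.length_range])
    have h6 : sz ((k a : ℕ) : ℤ) ≤ (N a + 2) ^ d := h2
    have h7 : 2 * (N a + 2) ^ d ≤ (N a + 2) ^ (c + d + 2) := by
      calc 2 * (N a + 2) ^ d ≤ (N a + 2) * (N a + 2) ^ d := Nat.mul_le_mul_right _ (by omega)
        _ = (N a + 2) ^ (d + 1) := by ring
        _ ≤ _ := Nat.pow_le_pow_right (by omega) (by omega)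
    omega
  · have h6 : (0 : ℝ) ≤ (k a : ℝ) := Nat.cast_nonneg _
    change (1 : ℝ) ≤ (k a : ℝ) + 1
    linarith
  · have h7 := P2c_loop hX le_rfl (k a) c d (ek.cost τ (ρ a))
      (fun i => e.cost τ ((i : ℤ), ρ a) + 1 + sz (ek.eval (ρ a)) + sz (e.eval ((i : ℤ), ρ a)))
      (by
        have h8 := (h3 τ hτ).2
        simpa [one] using h8)
      (fun i hi => by
        obtain ⟨g1, g2, g3⟩ := he a ha i hi
        have g4 := (g3 τ hτ).2
        have g5 : (sz (ek.eval (ρ a)) : ℝ) ≤ ((N a : ℝ) + 2) ^ d := by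
          rw [h1]
          exact_mod_cast h2
        have g6 : (sz (e.eval ((i : ℤ), ρ a)) : ℝ) ≤ ((N a : ℝ) + 2) ^ c := by
          rw [g1]
          exact_mod_cast g2
        simp only [one] at g4
        linarith)
    have h9 : (Ex.filter ek e).cost τ (ρ a) = ek.cost τ (ρ a) + 1 +
        ∑ i ∈ Finset.range (ek.eval (ρ a)).toNat,
          (e.cost τ ((i : ℤ), ρ a) + 1 + sz (ek.eval (ρ a)) + sz (e.eval ((i : ℤ), ρ a))) := by
      simp only [Ex.cost]
    rw [h9, hev]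
    rw [mul_one] at h7
    exact h7

/-- The product of large matrices. PROOF. `Ex.mm`; sizes of the entries of the product: `k` times the product of the maxima. -/
theorem Cp.mm {k : A → ℕ} {l m : A → List ℤ} (hk : PN N D ρ k) (hl : PA N D ρ l)
    (hm : PA N D ρ m) :
    Cp N D ρ (fun τ a => ((k a : ℝ) + 1) ^ τ) .arr (fun a => matMul (k a) (l a) (m a)) := by
  obtain ⟨ek, c, hek⟩ := hk
  obtain ⟨el, d, hel⟩ := hl
  obtain ⟨em, d', hem⟩ := hm
  refine ⟨Ex.mm ek el em, c + d + d' + 4, fun a ha => ?_⟩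
  obtain ⟨h1, h2, h3⟩ := hek a ha
  obtain ⟨i1, i2, i3⟩ := hel a ha
  obtain ⟨j1, j2, j3⟩ := hem a ha
  have hev : (ek.eval (ρ a)).toNat = k a := by
    rw [h1]
    exact Int.toNat_natCast _
  have hX : (2 : ℝ) ≤ (N a : ℝ) + 2 := by
    have h6 : (0 : ℝ) ≤ (N a : ℝ) := Nat.cast_nonneg _
    linarith
  have hk2 : sz ((k a : ℕ) : ℤ) ≤ (N a + 2) ^ c := h2
  have hl2 : asz (l a) ≤ (N a + 2) ^ d := (Nat.le_add_right _ _).trans i2
  have hm2 : asz (m a) ≤ (N a + 2) ^ d' := (Nat.le_add_right _ _).trans j2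
  have hmat := P2c_matMul (k a) (l a) (m a)
  have p1 : (N a + 2) ^ c ≤ (N a + 2) ^ (c + d + d') := Nat.pow_le_pow_right (by omega) (by omega)
  have p2 : (N a + 2) ^ d ≤ (N a + 2) ^ (c + d + d') := Nat.pow_le_pow_right (by omega) (by omega)
  have p3 : (N a + 2) ^ d' ≤ (N a + 2) ^ (c + d + d') := Nat.pow_le_pow_right (by omega) (by omega)
  have p4 : 1 ≤ (N a + 2) ^ (c + d + d') := Nat.one_le_pow _ _ (by omega)
  refine ⟨?_, ?_, fun τ hτ => ⟨?_, ?_⟩⟩
  · change matMul (ek.eval (ρ a)).toNat (el.eval (ρ a)) (em.eval (ρ a)) = _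
    rw [hev, i1, j1]
  · change asz (matMul (k a) (l a) (m a)) + Nat.size (matMul (k a) (l a) (m a)).length ≤ _
    have h5 : Nat.size (matMul (k a) (l a) (m a)).length ≤ sz ((k a : ℕ) : ℤ) +
        sz ((k a : ℕ) : ℤ) := by
      have h6 := sz_mul ((k a : ℕ) : ℤ) ((k a : ℕ) : ℤ)
      have h7 : sz (((k a : ℕ) : ℤ) * ((k a : ℕ) : ℤ)) =
          Nat.size (matMul (k a) (l a) (m a)).length := by
        unfold sz matMul
        rw [List.length_map, List.length_range, ← Nat.cast_mul, Int.natAbs_natCast]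
      rw [← h7]
      exact h6
    have h8 : 8 * (N a + 2) ^ (c + d + d') ≤ (N a + 2) ^ (c + d + d' + 4) := by
      have h9 : 8 ≤ (N a + 2) ^ 4 := by
        calc 8 ≤ 2 ^ 4 := by norm_num
          _ ≤ (N a + 2) ^ 4 := Nat.pow_le_pow_left (by omega) 4
      calc 8 * (N a + 2) ^ (c + d + d') ≤ (N a + 2) ^ 4 * (N a + 2) ^ (c + d + d') :=
            Nat.mul_le_mul_right _ h9
        _ = _ := by ring
    omega
  · have h6 : (1 : ℝ) ≤ (k a : ℝ) + 1 := by
      have : (0 : ℝ) ≤ (k a : ℝ) := Nat.cast_nonneg _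
      linarith
    exact Real.one_le_rpow h6 (by linarith)
  · have h9 : (Ex.mm ek el em).cost τ (ρ a) = ek.cost τ (ρ a) + el.cost τ (ρ a) +
        em.cost τ (ρ a) + 1 + ((ek.eval (ρ a)).toNat : ℝ) ^ τ * (1 + sz (ek.eval (ρ a)) +
          asz (el.eval (ρ a)) + asz (em.eval (ρ a)) +
          asz (matMul (ek.eval (ρ a)).toNat (el.eval (ρ a)) (em.eval (ρ a)))) := by
      simp only [Ex.cost]
    rw [h9, hev, h1, i1, j1]
    set X : ℝ := (N a : ℝ) + 2 with hXd
    have g1 : ek.cost τ (ρ a) ≤ X ^ c := by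
      have := (h3 τ hτ).2
      simpa [one] using this
    have g2 : el.cost τ (ρ a) ≤ X ^ d := by
      have := (i3 τ hτ).2
      simpa [one] using this
    have g3 : em.cost τ (ρ a) ≤ X ^ d' := by
      have := (j3 τ hτ).2
      simpa [one] using this
    have q1 : X ^ c ≤ X ^ (c + d + d') := P2c_pow hX (by omega)
    have q2 : X ^ d ≤ X ^ (c + d + d') := P2c_pow hX (by omega)
    have q3 : X ^ d' ≤ X ^ (c + d + d') := P2c_pow hX (by omega)
    have q4 : (1 : ℝ) ≤ X ^ (c + d + d') := one_le_pow₀ (by linarith)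
    have r1 : (sz ((k a : ℕ) : ℤ) : ℝ) ≤ X ^ c := by rw [hXd]; exact_mod_cast hk2
    have r2 : (asz (l a) : ℝ) ≤ X ^ d := by rw [hXd]; exact_mod_cast hl2
    have r3 : (asz (m a) : ℝ) ≤ X ^ d' := by rw [hXd]; exact_mod_cast hm2
    have r4 : (asz (matMul (k a) (l a) (m a)) : ℝ) ≤ sz ((k a : ℕ) : ℤ) +
        (asz (l a) + asz (m a)) := by exact_mod_cast hmat
    have s1 : (0 : ℝ) ≤ (k a : ℝ) := Nat.cast_nonneg _
    have s2 : (k a : ℝ) ^ τ ≤ ((k a : ℝ) + 1) ^ τ :=
      Real.rpow_le_rpow s1 (by linarith) (by linarith)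
    have s3 : (1 : ℝ) ≤ ((k a : ℝ) + 1) ^ τ := Real.one_le_rpow (by linarith) (by linarith)
    have s4 : (0 : ℝ) ≤ (k a : ℝ) ^ τ := Real.rpow_nonneg s1 _
    set Y := X ^ (c + d + d') with hY
    set V := ((k a : ℝ) + 1) ^ τ with hV
    have t1 : (1 : ℝ) + sz ((k a : ℕ) : ℤ) + asz (l a) + asz (m a) +
        asz (matMul (k a) (l a) (m a)) ≤ 7 * Y := by linarith
    have t0 : (0 : ℝ) ≤ (1 : ℝ) + sz ((k a : ℕ) : ℤ) + asz (l a) + asz (m a) +
        asz (matMul (k a) (l a) (m a)) := by positivity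
    have t2 : (k a : ℝ) ^ τ * ((1 : ℝ) + sz ((k a : ℕ) : ℤ) + asz (l a) + asz (m a) +
        asz (matMul (k a) (l a) (m a))) ≤ V * (7 * Y) := by
      exact mul_le_mul s2 t1 t0 (by linarith)
    have t3 : (11 : ℝ) * Y ≤ X ^ (c + d + d' + 4) := by
      rw [pow_add X (c + d + d') 4, ← hY]
      have h16 : (16 : ℝ) ≤ X ^ 4 := by
        calc (16 : ℝ) = 2 ^ 4 := by norm_num
          _ ≤ X ^ 4 := pow_le_pow_left₀ (by norm_num) hX 4
      nlinarith
    have t4 : (4 : ℝ) * Y ≤ V * (4 * Y) := by nlinarith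
    have t5 : V * (11 * Y) ≤ V * X ^ (c + d + d' + 4) :=
      mul_le_mul_of_nonneg_left t3 (by linarith)
    calc ek.cost τ (ρ a) + el.cost τ (ρ a) + em.cost τ (ρ a) + 1 +
          (k a : ℝ) ^ τ * ((1 : ℝ) + sz ((k a : ℕ) : ℤ) + asz (l a) + asz (m a) +
          asz (matMul (k a) (l a) (m a))) ≤ 4 * Y + V * (7 * Y) := by linarith
      _ ≤ V * (11 * Y) := by linarith
      _ ≤ V * X ^ (c + d + d' + 4) := t5
      _ = X ^ (c + d + d' + 4) * V := mul_comm _ _

end

end Pool.Agent.MPa9445a.GD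
end

section

/-! Functions computed by programs: short loops. -/

set_option autoImplicit false

namespace Pool.Agent.MPa9445a.GD

open Pool.Agent.MPa9445a.BE

private theorem P2_aux1 {A : Type} {N : A → ℕ} {D : A → Prop} {k : A → ℕ} (hb : Bd N D k) :
    ∃ c : ℕ, ∀ a, D a → (k a : ℝ) + 1 ≤ ((N a : ℝ) + 2) ^ c := by
  obtain ⟨c, hc⟩ := hb
  refine ⟨c + 1, fun a ha => ?_⟩
  have h1 : (k a : ℝ) ≤ ((N a : ℝ) + 2) ^ c := by exact_mod_cast hc a ha
  have h2 : (1 : ℝ) ≤ ((N a : ℝ) + 2) ^ c := one_le_pow₀ (by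
    have : (0 : ℝ) ≤ N a := Nat.cast_nonneg _
    linarith)
  have h3 : (0 : ℝ) ≤ N a := Nat.cast_nonneg _
  rw [pow_succ]
  nlinarith

section

variable {A : Type} {N : A → ℕ} {D : A → Prop} {Γ : List Ty} {ρ : A → Env Γ}

/-- Loops with few passes. PROOF. `Cp.sum` and `Cp.mono_poly`. -/
theorem PI.sum {k : A → ℕ} {f : A → ℕ → ℤ} (hk : PN N D ρ k) (hb : Bd N D k)
    (h : Body N D ρ k one .int f) : PI N D ρ (fun a => ∑ i ∈ Finset.range (k a), f a i) := by
  obtain ⟨c, hc⟩ := P2_aux1 hb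
  refine (Cp.sum hk (fun a _ τ _ => le_rfl) h).mono_poly c fun a ha τ _ => ⟨le_rfl, ?_⟩
  exact mul_le_mul_of_nonneg_right (hc a ha) zero_le_one

theorem PA.tab {k : A → ℕ} {f : A → ℕ → ℤ} (hk : PN N D ρ k) (hb : Bd N D k)
    (h : Body N D ρ k one .int f) : PA N D ρ (fun a => tb (k a) (f a)) := by
  obtain ⟨c, hc⟩ := P2_aux1 hb
  refine (Cp.tab hk (fun a _ τ _ => le_rfl) h).mono_poly c fun a ha τ _ => ⟨le_rfl, ?_⟩
  exact mul_le_mul_of_nonneg_right (hc a ha) zero_le_one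

theorem PA.filter {k : A → ℕ} {q : A → ℕ → Prop} [∀ a, DecidablePred (q a)] (hk : PN N D ρ k)
    (hb : Bd N D k)
    (h : ∀ (Γ' : List Ty) (ρ' : A × ℕ → Env Γ'), Up N D ρ k ρ' →
      PN (NL N) (DL D k) ρ' (fun p => p.2) → PB (NL N) (DL D k) ρ' (fun p => q p.1 p.2)) :
    PA N D ρ (fun a => flt (k a) (q a)) := by
  obtain ⟨c, hc⟩ := P2_aux1 hb
  refine (Cp.filter hk h).mono_poly c fun a ha τ _ => ⟨le_rfl, ?_⟩
  rw [one, mul_one]
  exact hc a ha

/-- Sum of natural numbers. -/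
theorem PN.sum {k : A → ℕ} {f : A → ℕ → ℕ} (hk : PN N D ρ k) (hb : Bd N D k)
    (h : Body N D ρ k one .int (fun a i => (f a i : ℤ))) :
    PN N D ρ (fun a => ∑ i ∈ Finset.range (k a), f a i) := by
  refine (PI.sum hk hb h).congr fun a _ => ?_
  push_cast
  rfl

end

end Pool.Agent.MPa9445a.GD
end

section

/-! Auxiliary definitions for the running time. -/

set_option autoImplicit false

open Finset

namespace Pool.Agent.MPa9445a.GD

open Pool.Agent.MPa9445a.BE

variable {A : Type}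

/-- The body of a loop; the weight may depend on the pass. -/
def BodyW (N : A → ℕ) (D : A → Prop) {Γ : List Ty} (ρ : A → Env Γ) (k : A → ℕ)
    (w : ℝ → A × ℕ → ℝ) (t : Ty) (f : A → ℕ → t.Val) : Prop :=
  ∀ (Γ' : List Ty) (ρ' : A × ℕ → Env Γ'), Up N D ρ k ρ' → PN (NL N) (DL D k) ρ' (fun p => p.2) →
    Cp (NL N) (DL D k) ρ' w t (fun p => f p.1 p.2)

end Pool.Agent.MPa9445a.GD
end

section

/-! Loops whose passes have different weights. -/

set_option autoImplicit false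

open Finset

namespace Pool.Agent.MPa9445a.GD

open Pool.Agent.MPa9445a.BE

variable {A : Type} {N : A → ℕ} {D : A → Prop} {Γ : List Ty} {ρ : A → Env Γ}

/-- PROOF. As `Body.out` (`BE/P2b`). -/
theorem BodyW.out {k : A → ℕ} {w : ℝ → A × ℕ → ℝ} {t : Ty} {f : A → ℕ → t.Val}
    (hk : ∃ c : ℕ, ∀ a, D a → BE.sz (k a : ℤ) ≤ (N a + 2) ^ c) (h : BodyW N D ρ k w t f) :
    ∃ (e : Ex (.int :: Γ) t) (c : ℕ), ∀ a, D a → ∀ i < k a,
      e.eval ((i : ℤ), ρ a) = f a i ∧ vs (f a i) ≤ (N a + 2) ^ c ∧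
        ∀ τ : ℝ, 2 ≤ τ → 1 ≤ w τ (a, i) ∧
          e.cost τ ((i : ℤ), ρ a) ≤ ((N a : ℝ) + 2) ^ c * w τ (a, i) := by
  obtain ⟨c, hc⟩ := hk
  have up : Up N D ρ k (Γ' := .int :: Γ) (fun p => ((p.2 : ℤ), ρ p.1)) := by
    intro w t f hf
    obtain ⟨e, m, he⟩ := hf
    refine ⟨Ex.wk e, m, fun p hp => ?_⟩
    simp only [Ex.eval, Ex.cost]
    exact he p.1 hp.1
  have hv : PN (NL N) (DL D k) (Γ := .int :: Γ) (fun p => ((p.2 : ℤ), ρ p.1))
      (fun p => p.2) := by
    refine Cp.top (t := .int) (ρ := fun p : A × ℕ => ρ p.1) (f := fun p => (p.2 : ℤ))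
      ⟨c, fun p hp => ?_⟩
    refine le_trans ?_ (hc p.1 hp.1)
    refine sz_mono ?_
    rw [Nat.abs_cast, Nat.abs_cast]
    exact_mod_cast hp.2.le
  obtain ⟨e, m, he⟩ := h _ _ up hv
  exact ⟨e, m, fun a ha i hi => he (a, i) ⟨ha, hi⟩⟩

end Pool.Agent.MPa9445a.GD
end
end
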