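import Pool.Agent.Lib.MP_a9445a_lc.Mg.G113
import Pool.Agent.Lib.MP_a9445a_lc.Mg.G119

section

/-!
# The ball: the best vector which differs from a given vector at few places

The vertices are rotated such that one of three intervals of length `n / 3` comes first; the first part consists of
this third and a few further vertices, the other two parts are the two halves of the rest. The vectors of the first
part are restricted: they differ from `y` at few places of the third. Two vectors of the parts `1, 3` are combined by a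
matrix product over the vectors of the part 2.
-/

set_option autoImplicit false

open Finset

namespace Pool.Agent.MPa9445a.BW

open Pool.Agent.MPa9445a.BE (gt bit tb flt lin Phi vec code argmax matMul)

/-- The data: number of vertices, matrix, center of the ball, number of the third, two values. -/
structure In where
  n : ℕ
  M : List ℤ
  y : List ℤ
  i : ℕ
  α : ℤ
  β : ℤ

variable (a : In)

/-- The size of the first part. -/
def n1 : ℕ := a.n / 3 + 2 * (a.n / 1000000000)

/-- The size of the second part. -/
def n2 : ℕ := (a.n - n1 a) / 2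

/-- The size of the third part. -/
def n3 : ℕ := a.n - n1 a - n2 a

/-- The position of the vertex `v`: the third number `i` has the positions `0, …, n / 3 - 1`. -/
def pt (v : ℕ) : ℕ := (v + a.n - a.i * (a.n / 3)) % a.n

/-- The vector of the positions `s, …, s + k - 1` with the code `c`. -/
def pv (s k c : ℕ) : List ℤ := tb a.n fun v =>
  if s ≤ pt a v ∧ pt a v < s + k then 2 * (bit c (pt a v - s) : ℤ) - 1 else 0

/-- The number of places of the third at which the vector with the code `c` differs from `y`. -/
def nd (c : ℕ) : ℤ := ∑ x ∈ range (a.n / 3),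
  if 2 * (bit c x : ℤ) - 1 = gt a.y (a.i * (a.n / 3) + x) then 0 else 1

/-- The list of the codes of the vectors of the first part. -/
def T1 : List ℤ := flt (2 ^ n1 a) fun c => 30000 * nd a c ≤ 4999 * (a.n : ℤ)

/-- The vector number `x` of the first part. -/
def z1 (x : ℕ) : List ℤ := pv a 0 (n1 a) (gt (T1 a) x).toNat

/-- The vector number `x` of the second part. -/
def z2 (x : ℕ) : List ℤ := pv a (n1 a) (n2 a) x

/-- The vector number `x` of the third part. -/
def z3 (x : ℕ) : List ℤ := pv a (n1 a + n2 a) (n3 a) x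

/-- The size of the matrices. -/
def kk : ℕ := if (T1 a).length ≤ 2 ^ n3 a then 2 ^ n3 a else (T1 a).length

/-- The first matrix. -/
def M1 : List ℤ := tb (kk a * kk a) fun x =>
  if x / kk a < (T1 a).length ∧ x % kk a < 2 ^ n2 a ∧
    Phi a.n a.M (lin a.n 1 (z1 a (x / kk a)) 1 (z2 a (x % kk a))) - Phi a.n a.M (z1 a (x / kk a)) = a.α
  then 1 else 0

/-- The second matrix. -/
def M2 : List ℤ := tb (kk a * kk a) fun x =>
  if x / kk a < 2 ^ n2 a ∧ x % kk a < 2 ^ n3 a ∧
    Phi a.n a.M (lin a.n 1 (z2 a (x / kk a)) 1 (z3 a (x % kk a))) - Phi a.n a.M (z2 a (x / kk a)) -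
      Phi a.n a.M (z3 a (x % kk a)) = a.β
  then 1 else 0

/-- The product. -/
def MP : List ℤ := matMul (kk a) (M1 a) (M2 a)

/-- The vector of the first and the third part. -/
def z13 (x z : ℕ) : List ℤ := lin a.n 1 (z1 a x) 1 (z3 a z)

/-- The value of a pair. -/
def va (x : ℕ) : ℤ :=
  if gt (MP a) x ≠ 0 then Phi a.n a.M (z13 a (x / kk a) (x % kk a)) + 8 * (a.n : ℤ) ^ 4 else 0

/-- The best pair. -/
def rr : ℕ := argmax (kk a * kk a) fun x => va a x.toNat

/-- The vector of the second part. -/
def rb : ℕ := argmax (kk a) fun y =>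
  gt (M1 a) (rr a / kk a * kk a + y.toNat) * gt (M2 a) (y.toNat * kk a + rr a % kk a)

/-- The candidate. -/
def cand : ℕ := code a.n (lin a.n 1 (z13 a (rr a / kk a) (rr a % kk a)) 1 (z2 a (rb a)))

/-- The data with the index `x < 3 * (16 n⁴ + 1)²`. -/
def inp (n : ℕ) (M y : List ℤ) (x : ℕ) : In where
  n := n
  M := M
  y := y
  i := x % 3
  α := ((x / 3 % (16 * n ^ 4 + 1) : ℕ) : ℤ) - 8 * (n : ℤ) ^ 4
  β := ((x / 3 / (16 * n ^ 4 + 1) : ℕ) : ℤ) - 8 * (n : ℤ) ^ 4

/-- The code of the best vector. -/
def bw (n : ℕ) (M y : List ℤ) : ℕ :=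
  cand (inp n M y (argmax (3 * ((16 * n ^ 4 + 1) * (16 * n ^ 4 + 1))) fun x =>
    Phi n M (vec n (cand (inp n M y x.toNat)))))

end Pool.Agent.MPa9445a.BW
end

section

/-!
# Below 2/3: codes, blocks, scores

`bl Q` is the block `Q`: the vertices of `Q` are free, the others absent. The sets used by the recursion are in a random linear code:
`h j`, `j < R`, are the rows, `KH E` the matrices such that all sets of `E` are in the code, `Cc h Q` the subsets of `Q` in the code.
-/

set_option autoImplicit false

open Finset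

namespace Pool.Agent.MPa9445a.SB

open Pool.Agent.MPa9445a.GL (Vc S)

variable {n : ℕ}

/-- Binary entropy (base 2). -/
noncomputable def hh (x : ℝ) : ℝ := -(x * Real.logb 2 x) - (1 - x) * Real.logb 2 (1 - x)

/-- The parameter of a coordinate with frequency `π`. -/
noncomputable def pp (k₁ π : ℝ) : ℝ := 1 / (1 + 2 ^ (k₁ * (1 - 2 * π)))

/-- The block `Q`. -/
def bl (Q : Finset (Fin n)) : Vc n := fun v => if v ∈ Q then 2 else 0

/-- The set where the vectors differ. -/
def df (u z : Vc n) : Finset (Fin n) := univ.filter fun v => u v ≠ z v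

/-! ## The code -/

/-- The rows which are orthogonal to all sets of `E`. -/
def rows (E : Finset (Finset (Fin n))) : Finset (Finset (Fin n)) :=
  univ.filter fun g => ∀ P ∈ E, Even (P ∩ g).card

/-- The matrices. -/
abbrev Hm (n R : ℕ) : Type := Fin R → Finset (Fin n)

/-- The matrices such that all sets of `E` are in the code. -/
def KH (R : ℕ) (E : Finset (Finset (Fin n))) : Finset (Hm n R) := Fintype.piFinset fun _ => rows E

/-- The subsets of `Q` in the code. -/
def Cc {R : ℕ} (h : Hm n R) (Q : Finset (Fin n)) : Finset (Finset (Fin n)) :=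
  Q.powerset.filter fun D => ∀ j, Even (D ∩ h j).card

/-- `E` is the set of the ancestors of `Q` (and `Q`). -/
def Ch (E : Finset (Finset (Fin n))) (Q : Finset (Fin n)) : Prop := Q ∈ E ∧ ∀ P ∈ E, Q ⊆ P

/-! ## The scores -/

/-- The scores of the coordinates (scaled by a factor `K`): in `D`; outside `D` with the entry `-1`; outside `D` with the entry `1`. -/
structure Sc (n : ℕ) where
  w : Fin n → ℕ
  a : Fin n → ℕ
  b : Fin n → ℕ

/-- The score of the set `D` and the entries of `x` on `Q \ D`. -/
def sc (σ : Sc n) (Q D : Finset (Fin n)) (x : Vc n) : ℕ :=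
  (∑ v ∈ D, σ.w v) + ∑ v ∈ Q \ D, if x v = 1 then σ.b v else σ.a v

/-- The inequality of Kraft for the scores of a coordinate. -/
def Kr (K w a b : ℕ) : Prop :=
  (2 : ℝ) ^ (-((w : ℝ) / K)) + 2 ^ (-((a : ℝ) / K)) + 2 ^ (-((b : ℝ) / K)) ≤ 1

/-- The bound for the expected scores of a coordinate with frequency `π`: entry `-1` and entry `1` of the target. -/
def Ex (K : ℕ) (κ k₁ π : ℝ) (w a b : ℕ) : Prop :=
  (1 - π) * a + π * w ≤ K * (κ + (k₁ - 1) * π) ∧ π * b + (1 - π) * w ≤ K * (κ + (k₁ - 1) * (1 - π))

/-- The frequency of the entry `1` at `v`. -/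
noncomputable def fq (S' : Finset (Vc n)) (v : Fin n) : ℝ :=
  ((S'.filter fun z => z v = 1).card : ℝ) / S'.card

/-- The elements of `S'` which agree with `u` at the places `I`. -/
def ag {l : ℕ} (S' : Finset (Vc n)) (u : Vc n) (I : Fin l → Fin n) : Finset (Vc n) :=
  S'.filter fun z => ∀ i, z (I i) = u (I i)

end Pool.Agent.MPa9445a.SB
end
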