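import Pool.Agent.Lib.MP_a9445a_lc.Mg.G120
import Pool.Agent.Lib.MP_a9445a_lc.Mg.G119
import Pool.Agent.Lib.MP_a9445a_lc.SN.Alg
import Pool.Agent.Lib.MP_a9445a_lc.Mg.G115
import Pool.Agent.Lib.MP_a9445a_lc.SN.Alg2

section

section

/-! The parallelogram law, the decomposition, the parity. -/

set_option autoImplicit false

open Finset
open scoped symmDiff

namespace Pool.Agent.MPa9445a.GL

variable {n : ℕ} (W : Matrix (Fin n) (Fin n) ℤ)

/-- The part of `x` on `D`. -/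
def on (D : Finset (Fin n)) (x : Vc n) : Vc n := fun v => if v ∈ D then x v else 0

/-- The part of `x` outside `D`. -/
def off (D : Finset (Fin n)) (x : Vc n) : Vc n := fun v => if v ∈ D then 0 else x v

theorem on_add_off (D : Finset (Fin n)) (x : Vc n) : on D x + off D x = x := by
  funext v
  by_cases hv : v ∈ D
  · simp [on, off, hv]
  · simp [on, off, hv]

/-- The parallelogram law. PROOF. `x = u + v`, `fl D x = -u + v` with `u = on D x`, `v = off D x`; expand. -/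
theorem par (D : Finset (Fin n)) (x : Vc n) :
    Ph W x + Ph W (fl D x) = 2 * (Ph W (on D x) + Ph W (off D x)) := by
  unfold Ph
  rw [← Finset.sum_add_distrib, ← Finset.sum_add_distrib, Finset.mul_sum]
  refine Finset.sum_congr rfl fun a _ => ?_
  rw [← Finset.sum_add_distrib, ← Finset.sum_add_distrib, Finset.mul_sum]
  refine Finset.sum_congr rfl fun b _ => ?_
  by_cases ha : a ∈ D
  · by_cases hb : b ∈ D
    · simp only [fl, on, off, if_pos ha, if_pos hb]
      ring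
    · simp only [fl, on, off, if_pos ha, if_neg hb]
      ring
  · by_cases hb : b ∈ D
    · simp only [fl, on, off, if_neg ha, if_pos hb]
      ring
    · simp only [fl, on, off, if_neg ha, if_neg hb]
      ring

/-- The pairs `(x, fl D x)` with `x ∈ S s` and `fl D x ∈ S r` correspond to the pairs of vectors of the
children. PROOF. On `D` (free for `s`): `x v = -r v` if `r v ≠ 2`, and `x v = ±1` otherwise; outside `D`: `x v` is as in `r`, which is a
restriction of `s`. -/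
theorem mem_ch {s r : Vc n} (hs : St s) (h : Res s r) {D : Finset (Fin n)} (hD : D ⊆ Fr s)
    (x : Vc n) : (x ∈ S s ∧ fl D x ∈ S r) ↔ (on D x ∈ S (la r D) ∧ off D x ∈ S (rh r D)) := by
  rw [mem_S, mem_S, mem_S, mem_S, ← forall_and, ← forall_and]
  refine forall_congr' fun v => ?_
  have hv := h v
  by_cases hvD : v ∈ D
  · have hsv : s v = 2 := mem_Fr.1 (hD hvD)
    have hr := hv.2 hsv
    simp only [fl, on, off, la, rh, if_pos hvD]
    constructor
    · rintro ⟨h1, h2⟩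
      refine ⟨?_, ⟨fun h0 => absurd h0 (by norm_num), fun _ => trivial⟩⟩
      have hx := h1.1 hsv
      by_cases hr2 : r v = 2
      · rw [if_pos hr2]
        exact ⟨fun _ => hx, fun h0 => absurd rfl h0⟩
      · rw [if_neg hr2]
        have hx2 := h2.2 hr2
        refine ⟨fun h0 => hx, fun _ => by omega⟩
    · rintro ⟨h1, -⟩
      by_cases hr2 : r v = 2
      · rw [if_pos hr2] at h1
        have hx := h1.1 rfl
        refine ⟨⟨fun _ => hx, fun h0 => absurd hsv h0⟩, ⟨fun _ => by omega, fun h0 => absurd hr2 h0⟩⟩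
      · rw [if_neg hr2] at h1
        have hx := h1.2 (by omega)
        refine ⟨⟨fun _ => by omega, fun h0 => absurd hsv h0⟩, ⟨fun h0 => absurd h0 hr2, fun _ => by omega⟩⟩
  · simp only [fl, on, off, la, rh, if_neg hvD]
    constructor
    · rintro ⟨h1, h2⟩
      exact ⟨⟨fun h0 => absurd h0 (by norm_num), fun _ => by trivial⟩, h2⟩
    · rintro ⟨-, h2⟩
      refine ⟨⟨fun hsv => ?_, fun hsv => ?_⟩, h2⟩
      · rcases hv.2 hsv with hr | hr | hr
        · exact h2.1 hr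
        · left
          rw [h2.2 (by omega), hr]
        · right
          rw [h2.2 (by omega), hr]
      · have hr := hv.1 hsv
        rw [h2.2 (by omega), hr]

/-- If `u ∈ S (la r D)` and `v ∈ S (rh r D)` then `u, v` are the parts of `u + v`. -/
theorem on_off_add {r : Vc n} {D : Finset (Fin n)} {u v : Vc n} (hu : u ∈ S (la r D))
    (hv : v ∈ S (rh r D)) : on D (u + v) = u ∧ off D (u + v) = v := by
  rw [mem_S] at hu hv
  have h1 : ∀ w, w ∉ D → u w = 0 := by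
    intro w hw
    have := (hu w).2
    simp only [la, if_neg hw] at this
    exact this (by norm_num)
  have h2 : ∀ w, w ∈ D → v w = 0 := by
    intro w hw
    have := (hv w).2
    simp only [rh, if_pos hw] at this
    exact this (by norm_num)
  constructor
  · funext w
    by_cases hw : w ∈ D
    · simp [on, hw, h2 w hw]
    · simp [on, hw, h1 w hw]
  · funext w
    by_cases hw : w ∈ D
    · simp [off, hw, h2 w hw]
    · simp [off, hw, h1 w hw]

end Pool.Agent.MPa9445a.GL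
end

section

/-! Parity and decomposition. -/

set_option autoImplicit false

open Finset
open scoped symmDiff

namespace Pool.Agent.MPa9445a.GL

variable {n : ℕ} (W : Matrix (Fin n) (Fin n) ℤ)

/-- The parity of the values. PROOF. `par` with `D` the set where `x, y` differ (`fl_diff`). -/
theorem parity {s x y : Vc n} (hx : x ∈ S s) (hy : y ∈ S s) : (Ph W x + Ph W y) % 2 = 0 := by
  have h := par W (univ.filter fun v => x v ≠ y v) x
  rw [(fl_diff hx hy).2] at h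
  omega

/-- If the parity is wrong then there is no vector. -/
theorem not_Par {s : Vc n} {p : ℤ} (h : ¬ Par W s p) : Lv W s p = ∅ := by
  rw [Finset.eq_empty_iff_forall_notMem]
  intro x hx
  unfold Lv at hx
  rw [Finset.mem_filter] at hx
  apply h
  unfold Par
  rw [← hx.2]
  exact parity W hx.1 (vc_mem s ∅)

/-- The decomposition. PROOF. `mem_ch`, `par`, `on_off_add`; the values of the parts are levels (`Ph_lvl` for the states `la r D`, `rh r D`). -/
theorem dec {W : Matrix (Fin n) (Fin n) ℤ} (hW : Wb W) {s r : Vc n} (hs : St s) (h : Res s r)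
    {D : Finset (Fin n)} (hD : D ⊆ Fr s) {p t : ℤ} (hp : (p + t) % 2 = 0) (x : Vc n) :
    (x ∈ Lv W s p ∧ fl D x ∈ Lv W r t) ↔
      ∃ a ∈ la2 n ((p + t) / 2), ∃ u ∈ Lv W (la r D) a, ∃ v ∈ Lv W (rh r D) ((p + t) / 2 - a),
        x = u + v ∧ Ph W x = p := by
  have hr : St r := St_Res hs h
  unfold Lv
  simp only [Finset.mem_filter]
  constructor
  · rintro ⟨⟨h1, h2⟩, h3, h4⟩
    obtain ⟨h5, h6⟩ := (mem_ch hs h hD x).1 ⟨h1, h3⟩
    have h7 := par W D x
    rw [h2, h4] at h7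
    have h8 : (p + t) / 2 - Ph W (on D x) = Ph W (off D x) := by omega
    refine ⟨Ph W (on D x), ?_, on D x, ⟨h5, rfl⟩, off D x, ⟨h6, h8.symm⟩,
      (on_add_off D x).symm, h2⟩
    unfold la2
    rw [Finset.mem_filter, h8]
    exact ⟨Ph_lvl hW (St_la hr D) h5, Ph_lvl hW (St_rh hr D) h6⟩
  · rintro ⟨a, -, u, ⟨hu, hu2⟩, v, ⟨hv, hv2⟩, hx, hp2⟩
    obtain ⟨h5, h6⟩ := on_off_add hu hv
    rw [← hx] at h5 h6
    obtain ⟨h1, h3⟩ := (mem_ch hs h hD x).2 (by rw [h5, h6]; exact ⟨hu, hv⟩)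
    refine ⟨⟨h1, hp2⟩, h3, ?_⟩
    have h7 := par W D x
    rw [h5, h6, hp2, hu2, hv2] at h7
    omega

end Pool.Agent.MPa9445a.GL
end

section

/-! Loops whose passes have different weights. -/

set_option autoImplicit false

open Finset

namespace Pool.Agent.MPa9445a.GD

open Pool.Agent.MPa9445a.BE

private theorem W1b_x {A : Type} (N : A → ℕ) (a : A) : (2 : ℝ) ≤ (N a : ℝ) + 2 := by
  have : (0 : ℝ) ≤ (N a : ℝ) := Nat.cast_nonneg _
  linarith

private theorem W1b_aux {x : ℝ} (hx : 2 ≤ x) (m c : ℕ) :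
    1 ≤ x ^ m ∧ 1 ≤ x ^ c ∧ x ^ m + 1 ≤ x ^ (m + c + 4) ∧
      x ^ m + x ^ c + (x ^ m + x ^ c) + 1 ≤ x ^ (m + c + 4) := by
  have h0 : (1 : ℝ) ≤ x := by linarith
  have h1 : (1 : ℝ) ≤ x ^ m := one_le_pow₀ h0
  have h2 : (1 : ℝ) ≤ x ^ c := one_le_pow₀ h0
  have h3 : x ^ (m + c + 4) = x ^ m * x ^ c * x ^ 4 := by ring
  have h4 : (16 : ℝ) ≤ x ^ 4 := by
    calc (16 : ℝ) = 2 ^ 4 := by norm_num
      _ ≤ x ^ 4 := pow_le_pow_left₀ (by norm_num) hx 4
  generalize x ^ m = u at *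
  generalize x ^ c = v at *
  have h6 : u * v * 16 ≤ u * v * x ^ 4 :=
    mul_le_mul_of_nonneg_left h4 (mul_nonneg (by linarith) (by linarith))
  have h7 : 0 ≤ (u - 1) * (v - 1) := mul_nonneg (by linarith) (by linarith)
  rw [h3]
  refine ⟨h1, h2, ?_, ?_⟩ <;> nlinarith

private theorem W1b_asz {l : List ℤ} {B : ℕ} (h : ∀ x ∈ l, BE.sz x ≤ B) : asz l ≤ B := by
  induction l with
  | nil => exact Nat.zero_le _
  | cons x l ih =>
    have h1 : asz (x :: l) = max (BE.sz x) (asz l) := rfl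
    rw [h1]
    exact max_le (h x List.mem_cons_self) (ih fun y hy => h y (List.mem_cons_of_mem _ hy))

private theorem W1b_cost {k : ℕ} {x : ℝ} (hx : 2 ≤ x) {w : ℕ → ℝ} (hw : ∀ i < k, 1 ≤ w i)
    (m c : ℕ) {kc p : ℝ}
    {ec q : ℕ → ℝ} (hkc : kc ≤ x ^ m) (hp : p ≤ x ^ m) (hec : ∀ i < k, ec i ≤ x ^ c * w i)
    (hq : ∀ i < k, q i ≤ x ^ m + x ^ c) :
    kc + 1 + ∑ i ∈ Finset.range k, (ec i + 1 + p + q i) ≤
      x ^ (m + c + 4) * (1 + ∑ i ∈ Finset.range k, w i) := by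
  obtain ⟨h1, h2, h3, h4⟩ := W1b_aux hx m c
  have h5 : ∀ i ∈ Finset.range k, ec i + 1 + p + q i ≤ x ^ (m + c + 4) * w i := by
    intro i hi
    have h6 := hec i (Finset.mem_range.mp hi)
    have h7 := hq i (Finset.mem_range.mp hi)
    have hwi := hw i (Finset.mem_range.mp hi)
    have h8 : (x ^ m + x ^ c + (x ^ m + x ^ c) + 1) * w i ≤ x ^ (m + c + 4) * w i :=
      mul_le_mul_of_nonneg_right h4 (by linarith)
    have h9 : 0 ≤ (x ^ m + x ^ m + x ^ c + 1) * (w i - 1) :=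
      mul_nonneg (by linarith) (by linarith)
    nlinarith
  have h6 := Finset.sum_le_sum h5
  rw [← Finset.mul_sum] at h6
  linarith

variable {A : Type} {N : A → ℕ} {D : A → Prop} {Γ : List Ty} {ρ : A → Env Γ}

/-- PROOF. As `Cp.tab` (`BE/P2b`), with `BodyW.out`: the cost is at most `cost k + 1 + ∑ i < k, ((N+2)^c w (a,i) + 1 + 2 (N+2)^..)`, and `w (a,i) ≥ 1`. -/
theorem tabW {k : A → ℕ} {w : ℝ → A × ℕ → ℝ} {f : A → ℕ → ℤ} (hk : PN N D ρ k)
    (h : BodyW N D ρ k w .int f) :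
    Cp N D ρ (fun τ a => 1 + ∑ i ∈ range (k a), w τ (a, i)) .arr (fun a => tb (k a) (f a)) := by
  obtain ⟨ek, m, hk'⟩ := hk
  obtain ⟨e, c, he⟩ := BodyW.out ⟨m, fun a ha => (hk' a ha).2.1⟩ h
  refine ⟨Ex.tab ek e, m + c + 4, fun a ha => ?_⟩
  obtain ⟨h3, h4, h5⟩ := hk' a ha
  obtain ⟨h20, h21, h22, h23⟩ := W1b_aux (W1b_x N a) m c
  have hkR : (BE.sz (k a : ℤ) : ℝ) ≤ ((N a : ℝ) + 2) ^ m := by
    have h9 : BE.sz (k a : ℤ) ≤ (N a + 2) ^ m := h4
    exact_mod_cast h9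
  have hfR : ∀ i < k a, BE.sz (f a i) ≤ (N a + 2) ^ c := fun i hi => (he a ha i hi).2.1
  refine ⟨?_, ?_, fun τ hτ => ⟨?_, ?_⟩⟩
  · simp only [Ex.eval]
    rw [h3, Int.toNat_natCast]
    exact List.map_congr_left fun i hi => (he a ha i (List.mem_range.mp hi)).1
  · have h10 : asz (tb (k a) (f a)) ≤ (N a + 2) ^ c := by
      apply W1b_asz
      intro x hx
      obtain ⟨i, hi, rfl⟩ := List.mem_map.mp hx
      exact hfR i (List.mem_range.mp hi)
    have h11 : Nat.size (tb (k a) (f a)).length ≤ (N a + 2) ^ m := by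
      rw [length_tb]
      exact h4
    change asz (tb (k a) (f a)) + Nat.size (tb (k a) (f a)).length ≤ _
    have h12 : ((asz (tb (k a) (f a)) + Nat.size (tb (k a) (f a)).length : ℕ) : ℝ) ≤
        ((N a : ℝ) + 2) ^ (m + c + 4) := by
      have h13 : ((asz (tb (k a) (f a)) : ℕ) : ℝ) ≤ ((N a : ℝ) + 2) ^ c := by exact_mod_cast h10
      have h14 : ((Nat.size (tb (k a) (f a)).length : ℕ) : ℝ) ≤ ((N a : ℝ) + 2) ^ m := by
        exact_mod_cast h11
      push_cast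
      linarith
    exact_mod_cast h12
  · have h14 : 0 ≤ ∑ i ∈ range (k a), w τ (a, i) :=
      Finset.sum_nonneg fun i hi =>
        zero_le_one.trans ((he a ha i (Finset.mem_range.mp hi)).2.2 τ hτ).1
    linarith
  · have h13 := (h5 τ hτ).2
    rw [one, mul_one] at h13
    simp only [Ex.cost]
    rw [h3, Int.toNat_natCast]
    exact W1b_cost (W1b_x N a) (fun i hi => ((he a ha i hi).2.2 τ hτ).1) m c h13 hkR
      (fun i hi => ((he a ha i hi).2.2 τ hτ).2) (fun i hi => by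
        rw [(he a ha i hi).1]
        have h15 : (BE.sz (f a i) : ℝ) ≤ ((N a : ℝ) + 2) ^ c := by exact_mod_cast hfR i hi
        linarith)

end Pool.Agent.MPa9445a.GD
end

section

/-! Codes and sets. -/

set_option autoImplicit false

open Finset
open scoped symmDiff

namespace Pool.Agent.MPa9445a.SN

open Pool.Agent.MPa9445a.BE
variable {n : ℕ}

private theorem C1_bit (c i : ℕ) : bit c i = 0 ∨ bit c i = 1 := by
  unfold bit
  omega

private theorem C1_mem (c : ℕ) (v : Fin n) : v ∈ ST n c ↔ bit c v = 1 := by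
  unfold ST
  rw [Finset.mem_filter]
  exact ⟨fun h => h.2, fun h => ⟨Finset.mem_univ _, h⟩⟩

/-- PROOF. `fv_tb`; a digit is `0` or `1`. -/
theorem fv_vec (c : ℕ) (v : Fin n) : fv n (vec n c) v = sgn (ST n c) v := by
  rw [vec, fv_tb, sgn]
  rcases C1_bit c v with h | h
  · have h1 : v ∉ ST n c := by
      rw [C1_mem, h]
      omega
    rw [if_neg h1, h]
    norm_num
  · rw [if_pos ((C1_mem c v).2 h), h]
    norm_num

/-- PROOF. `bil_eq` (as in `B9`), `fv_vec`, unfold `bq`, `ff`, `frm`. -/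
theorem val_eq (M : List ℤ) (c : ℕ) : val n M c = ff (wtm n M) (ST n c) := by
  unfold val Phi
  rw [bil_eq]
  unfold bq ff frm
  refine Finset.sum_congr rfl fun u _ => Finset.sum_congr rfl fun v _ => ?_
  rw [fv_vec, fv_vec]

/-- PROOF. The sum over `range n` of the digits is the number of `v : Fin n` with digit `1`. -/
theorem pc_eq (c : ℕ) : pc n c = (ST n c).card := by
  unfold pc ST
  rw [Finset.card_filter, Finset.sum_range]
  refine Finset.sum_congr rfl fun v _ => ?_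
  rcases C1_bit c v with h | h
  · rw [h, if_neg (by omega)]
  · rw [h, if_pos rfl]

end Pool.Agent.MPa9445a.SN
end
end

section

section

/-! Loops whose passes have different weights. -/

set_option autoImplicit false

open Finset

namespace Pool.Agent.MPa9445a.GD

open Pool.Agent.MPa9445a.BE

private theorem W1c_x {A : Type} (N : A → ℕ) (a : A) : (2 : ℝ) ≤ (N a : ℝ) + 2 := by
  have : (0 : ℝ) ≤ (N a : ℝ) := Nat.cast_nonneg _
  linarith

private theorem W1c_aux {x : ℝ} (hx : 2 ≤ x) (m c : ℕ) :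
    1 ≤ x ^ m ∧ 1 ≤ x ^ c ∧ x ^ m + 1 ≤ x ^ (m + c + 4) ∧
      x ^ m + x ^ c + (x ^ m + x ^ c) + 1 ≤ x ^ (m + c + 4) := by
  have h0 : (1 : ℝ) ≤ x := by linarith
  have h1 : (1 : ℝ) ≤ x ^ m := one_le_pow₀ h0
  have h2 : (1 : ℝ) ≤ x ^ c := one_le_pow₀ h0
  have h3 : x ^ (m + c + 4) = x ^ m * x ^ c * x ^ 4 := by ring
  have h4 : (16 : ℝ) ≤ x ^ 4 := by
    calc (16 : ℝ) = 2 ^ 4 := by norm_num
      _ ≤ x ^ 4 := pow_le_pow_left₀ (by norm_num) hx 4
  generalize x ^ m = u at *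
  generalize x ^ c = v at *
  have h6 : u * v * 16 ≤ u * v * x ^ 4 :=
    mul_le_mul_of_nonneg_left h4 (mul_nonneg (by linarith) (by linarith))
  have h7 : 0 ≤ (u - 1) * (v - 1) := mul_nonneg (by linarith) (by linarith)
  rw [h3]
  refine ⟨h1, h2, ?_, ?_⟩ <;> nlinarith

private theorem W1c_abs (k : ℕ) (f : ℕ → ℤ) {B : ℕ} (h : ∀ i < k, BE.sz (f i) ≤ B) :
    BE.sz (∑ i ∈ Finset.range k, |f i|) ≤ BE.sz (k : ℤ) + B := by
  have h1 : ∀ i ∈ Finset.range k, |f i| ≤ 2 ^ B := by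
    intro i hi
    have h2 : (f i).natAbs < 2 ^ B := Nat.size_le.mp (h i (Finset.mem_range.mp hi))
    rw [Int.abs_eq_natAbs]
    exact_mod_cast h2.le
  have h3 : ∑ i ∈ Finset.range k, |f i| ≤ k * 2 ^ B := by
    refine (Finset.sum_le_sum h1).trans ?_
    rw [Finset.sum_const, Finset.card_range, nsmul_eq_mul]
  have h4 : 0 ≤ ∑ i ∈ Finset.range k, |f i| := Finset.sum_nonneg fun i _ => abs_nonneg _
  have h5 : k < 2 ^ BE.sz (k : ℤ) := by
    have h6 : (k : ℤ).natAbs < 2 ^ BE.sz (k : ℤ) := Nat.lt_size_self _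
    exact h6
  have h7 : (∑ i ∈ Finset.range k, |f i|).natAbs ≤ k * 2 ^ B := by
    zify
    rw [abs_of_nonneg h4]
    exact h3
  have h8 : k * 2 ^ B < 2 ^ (BE.sz (k : ℤ) + B) := by
    rw [pow_add]
    exact Nat.mul_lt_mul_of_pos_right h5 (Nat.two_pow_pos B)
  exact Nat.size_le.mpr (h7.trans_lt h8)

private theorem W1c_cost {k : ℕ} {x : ℝ} (hx : 2 ≤ x) {w : ℕ → ℝ} (hw : ∀ i < k, 1 ≤ w i)
    (m c : ℕ) {kc p : ℝ}
    {ec q : ℕ → ℝ} (hkc : kc ≤ x ^ m) (hp : p ≤ x ^ m) (hec : ∀ i < k, ec i ≤ x ^ c * w i)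
    (hq : ∀ i < k, q i ≤ x ^ m + x ^ c) :
    kc + 1 + ∑ i ∈ Finset.range k, (ec i + 1 + p + q i) ≤
      x ^ (m + c + 4) * (1 + ∑ i ∈ Finset.range k, w i) := by
  obtain ⟨h1, h2, h3, h4⟩ := W1c_aux hx m c
  have h5 : ∀ i ∈ Finset.range k, ec i + 1 + p + q i ≤ x ^ (m + c + 4) * w i := by
    intro i hi
    have h6 := hec i (Finset.mem_range.mp hi)
    have h7 := hq i (Finset.mem_range.mp hi)
    have hwi := hw i (Finset.mem_range.mp hi)
    have h8 : (x ^ m + x ^ c + (x ^ m + x ^ c) + 1) * w i ≤ x ^ (m + c + 4) * w i :=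
      mul_le_mul_of_nonneg_right h4 (by linarith)
    have h9 : 0 ≤ (x ^ m + x ^ m + x ^ c + 1) * (w i - 1) :=
      mul_nonneg (by linarith) (by linarith)
    nlinarith
  have h6 := Finset.sum_le_sum h5
  rw [← Finset.mul_sum] at h6
  linarith

variable {A : Type} {N : A → ℕ} {D : A → Prop} {Γ : List Ty} {ρ : A → Env Γ}

/-- PROOF. As `Cp.sum` (`BE/P2b`). -/
theorem sumW {k : A → ℕ} {w : ℝ → A × ℕ → ℝ} {f : A → ℕ → ℤ} (hk : PN N D ρ k)
    (h : BodyW N D ρ k w .int f) :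
    Cp N D ρ (fun τ a => 1 + ∑ i ∈ range (k a), w τ (a, i)) .int
      (fun a => ∑ i ∈ range (k a), f a i) := by
  obtain ⟨ek, m, hk'⟩ := hk
  obtain ⟨e, c, he⟩ := BodyW.out ⟨m, fun a ha => (hk' a ha).2.1⟩ h
  refine ⟨Ex.sum ek e, m + c + 4, fun a ha => ?_⟩
  obtain ⟨h3, h4, h5⟩ := hk' a ha
  obtain ⟨h20, h21, h22, h23⟩ := W1c_aux (W1c_x N a) m c
  have hkR : (BE.sz (k a : ℤ) : ℝ) ≤ ((N a : ℝ) + 2) ^ m := by
    have h9 : BE.sz (k a : ℤ) ≤ (N a + 2) ^ m := h4
    exact_mod_cast h9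
  have hfR : ∀ i < k a, BE.sz (f a i) ≤ (N a + 2) ^ c := fun i hi => (he a ha i hi).2.1
  have hS : BE.sz (∑ i ∈ Finset.range (k a), |f a i|) ≤ BE.sz (k a : ℤ) + (N a + 2) ^ c :=
    W1c_abs (k a) (f a) hfR
  have hSR : (BE.sz (∑ i ∈ Finset.range (k a), |f a i|) : ℝ) ≤
      ((N a : ℝ) + 2) ^ m + ((N a : ℝ) + 2) ^ c := by
    have h9 : (BE.sz (∑ i ∈ Finset.range (k a), |f a i|) : ℝ) ≤
        BE.sz (k a : ℤ) + ((N a : ℝ) + 2) ^ c := by exact_mod_cast hS
    linarith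
  refine ⟨?_, ?_, fun τ hτ => ⟨?_, ?_⟩⟩
  · simp only [Ex.eval]
    rw [h3, Int.toNat_natCast]
    exact Finset.sum_congr rfl fun i hi => (he a ha i (Finset.mem_range.mp hi)).1
  · have h10 : BE.sz (∑ i ∈ Finset.range (k a), f a i) ≤
        BE.sz (∑ i ∈ Finset.range (k a), |f a i|) := by
      apply sz_mono
      rw [abs_of_nonneg (Finset.sum_nonneg fun i _ => abs_nonneg (f a i))]
      exact Finset.abs_sum_le_sum_abs _ _
    have h11 : (BE.sz (∑ i ∈ Finset.range (k a), f a i) : ℝ) ≤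
        ((N a : ℝ) + 2) ^ (m + c + 4) := by
      have h12 : (BE.sz (∑ i ∈ Finset.range (k a), f a i) : ℝ) ≤
          BE.sz (∑ i ∈ Finset.range (k a), |f a i|) := by exact_mod_cast h10
      linarith
    change BE.sz (∑ i ∈ Finset.range (k a), f a i) ≤ _
    exact_mod_cast h11
  · have h14 : 0 ≤ ∑ i ∈ range (k a), w τ (a, i) :=
      Finset.sum_nonneg fun i hi =>
        zero_le_one.trans ((he a ha i (Finset.mem_range.mp hi)).2.2 τ hτ).1
    linarith
  · have h13 := (h5 τ hτ).2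
    rw [one, mul_one] at h13
    simp only [Ex.cost]
    rw [h3, Int.toNat_natCast]
    have h15 : ∑ j ∈ Finset.range (k a), |e.eval ((j : ℤ), ρ a)| =
        ∑ j ∈ Finset.range (k a), |f a j| :=
      Finset.sum_congr rfl fun i hi => by rw [(he a ha i (Finset.mem_range.mp hi)).1]
    rw [h15]
    exact W1c_cost (W1c_x N a) (fun i hi => ((he a ha i hi).2.2 τ hτ).1) m c h13 hkR
      (fun i hi => ((he a ha i hi).2.2 τ hτ).2) (fun i _ => hSR)

end Pool.Agent.MPa9445a.GD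
end

section

/-! Loops whose passes have different weights. -/

set_option autoImplicit false

open Finset

namespace Pool.Agent.MPa9445a.GD

open Pool.Agent.MPa9445a.BE

variable {A : Type} {N : A → ℕ} {D : A → Prop} {Γ : List Ty} {ρ : A → Env Γ}

/-- Conditions: only the branch which is taken is charged. PROOF. As `Cp.iteD` (`BE/P1`): the weight of the state is `u` if `q`, otherwise `v`; enlarge both weights to the weight of the state on the smaller domains (`Cp.mono`, `Cp.dom`). -/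
theorem iteW {u v : ℝ → A → ℝ} {q : A → Prop} [∀ a, Decidable (q a)] {f g : A → ℤ}
    (hq : PB N D ρ q) (hf : Cp N (fun a => D a ∧ q a) ρ u .int f)
    (hg : Cp N (fun a => D a ∧ ¬ q a) ρ v .int g) :
    Cp N D ρ (fun τ a => if q a then u τ a else v τ a) .int (fun a => if q a then f a else g a) := by
  refine Cp.iteD (w := fun τ a => if q a then u τ a else v τ a) hq ?_ ?_
  · refine hf.mono fun a ha τ _ => ?_
    show u τ a ≤ if q a then u τ a else v τ a
    rw [if_pos ha.2]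
  · refine hg.mono fun a ha τ _ => ?_
    show v τ a ≤ if q a then u τ a else v τ a
    rw [if_neg ha.2]

end Pool.Agent.MPa9445a.GD
end
end

section

/-! Loops with a stored array. -/

set_option autoImplicit false

open Finset

namespace Pool.Agent.MPa9445a.GD

open Pool.Agent.MPa9445a.BE

private theorem X1_aux {x : ℝ} (hx : 2 ≤ x) (m c d : ℕ) :
    x ^ m + x ^ c + x ^ d + 1 ≤ x ^ (m + c + d + 4) := by
  have h0 : (1 : ℝ) ≤ x := by linarith
  have h1 : (1 : ℝ) ≤ x ^ (m + c + d) := one_le_pow₀ h0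
  have h2 : x ^ m ≤ x ^ (m + c + d) := pow_le_pow_right₀ h0 (by omega)
  have h3 : x ^ c ≤ x ^ (m + c + d) := pow_le_pow_right₀ h0 (by omega)
  have h4 : x ^ d ≤ x ^ (m + c + d) := pow_le_pow_right₀ h0 (by omega)
  have h5 : (16 : ℝ) ≤ x ^ 4 := by
    calc (16 : ℝ) = 2 ^ 4 := by norm_num
      _ ≤ x ^ 4 := pow_le_pow_left₀ (by norm_num) hx 4
  rw [pow_add x (m + c + d) 4]
  nlinarith

private theorem X1_cost {k : ℕ} {x : ℝ} (hx : 2 ≤ x) {w : ℕ → ℝ} (hw : ∀ i < k, 1 ≤ w i)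
    {w0 : ℝ} (hw0 : 1 ≤ w0) (m c0 c : ℕ) {kc p e0 : ℝ} {ec : ℕ → ℝ} (hkc : kc ≤ x ^ m)
    (hp : p ≤ x ^ m) (h0 : e0 ≤ x ^ c0 * w0) (hec : ∀ i < k, ec i ≤ x ^ c * w i) :
    kc + e0 + 1 + ∑ i ∈ Finset.range k, (ec i + 1 + p) ≤
      x ^ (m + c0 + c + 4) * (w0 + ∑ i ∈ Finset.range k, w i) := by
  have h1 := X1_aux hx m c0 c
  have p1 : (1 : ℝ) ≤ x ^ m := one_le_pow₀ (by linarith)
  have p2 : (1 : ℝ) ≤ x ^ c0 := one_le_pow₀ (by linarith)
  have p3 : (1 : ℝ) ≤ x ^ c := one_le_pow₀ (by linarith)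
  have h2 : ∀ i ∈ Finset.range k, ec i + 1 + p ≤ x ^ (m + c0 + c + 4) * w i := by
    intro i hi
    have h3 := hec i (Finset.mem_range.mp hi)
    have h4 := hw i (Finset.mem_range.mp hi)
    have h5 : (x ^ m + x ^ c0 + x ^ c + 1) * w i ≤ x ^ (m + c0 + c + 4) * w i :=
      mul_le_mul_of_nonneg_right h1 (by linarith)
    nlinarith
  have h3 := Finset.sum_le_sum h2
  rw [← Finset.mul_sum] at h3
  have h5 : (x ^ m + x ^ c0 + x ^ c + 1) * w0 ≤ x ^ (m + c0 + c + 4) * w0 :=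
    mul_le_mul_of_nonneg_right h1 (by linarith)
  nlinarith

section

variable {A : Type} {N : A → ℕ} {D : A → Prop} {Γ : List Ty} {ρ : A → Env Γ}

/-- A loop with a stored array: `s a j` is the stored array before the pass `j`. PROOF. `Ex.iter`. -/
theorem Cp.iter {k : A → ℕ} {s : A → ℕ → List ℤ} {w : ℝ → A × ℕ → ℝ} {w0 : ℝ → A → ℝ}
    (hk : PN N D ρ k) (h0 : Cp N D ρ w0 .arr (fun a => s a 0))
    (hs : ∃ c : ℕ, ∀ a, D a → ∀ j < k a, vs (t := .arr) (s a j) ≤ (N a + 2) ^ c)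
    (h : ∀ (Γ' : List Ty) (ρ' : A × ℕ → Env Γ'), Up N D ρ k ρ' →
      PN (NL N) (DL D k) ρ' (fun p => p.2) → PA (NL N) (DL D k) ρ' (fun p => s p.1 p.2) →
      Cp (NL N) (DL D k) ρ' w .arr (fun p => s p.1 (p.2 + 1))) :
    Cp N D ρ (fun τ a => w0 τ a + ∑ j ∈ range (k a), w τ (a, j)) .arr (fun a => s a (k a)) := by
  obtain ⟨ek, m, hk'⟩ := hk
  obtain ⟨e0, c0, h0'⟩ := h0
  have up : Up N D ρ k (Γ' := .int :: .arr :: Γ) (fun p => ((p.2 : ℤ), s p.1 p.2, ρ p.1)) := by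
    intro w t f hf
    obtain ⟨e, m, he⟩ := hf
    refine ⟨Ex.wk (Ex.wk e), m, fun p hp => ?_⟩
    simp only [Ex.eval, Ex.cost]
    exact he p.1 hp.1
  have hv : PN (NL N) (DL D k) (Γ := .int :: .arr :: Γ)
      (fun p => ((p.2 : ℤ), s p.1 p.2, ρ p.1)) (fun p => p.2) := by
    refine Cp.top (t := .int) (Γ := .arr :: Γ) (ρ := fun p : A × ℕ => (s p.1 p.2, ρ p.1))
      (f := fun p => (p.2 : ℤ)) ⟨m, fun p hp => ?_⟩
    refine le_trans ?_ (hk' p.1 hp.1).2.1
    refine sz_mono ?_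
    rw [Nat.abs_cast, Nat.abs_cast]
    exact_mod_cast hp.2.le
  have hst : PA (NL N) (DL D k) (Γ := .int :: .arr :: Γ)
      (fun p => ((p.2 : ℤ), s p.1 p.2, ρ p.1)) (fun p => s p.1 p.2) := by
    obtain ⟨c, hc⟩ := hs
    have h1 : PA (NL N) (DL D k) (Γ := .arr :: Γ) (fun p => (s p.1 p.2, ρ p.1))
        (fun p => s p.1 p.2) :=
      Cp.top (t := .arr) (ρ := fun p : A × ℕ => ρ p.1) (f := fun p => s p.1 p.2)
        ⟨c, fun p hp => hc p.1 hp.1 p.2 hp.2⟩
    exact Cp.wk (s := .int) (g := fun p => (p.2 : ℤ)) h1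
  obtain ⟨e, c, he⟩ := h _ _ up hv hst
  have hit : ∀ a, D a → ∀ j ≤ k a,
      itr (fun i z => e.eval ((i : ℤ), z, ρ a)) (e0.eval (ρ a)) j = s a j := by
    intro a ha j
    induction j with
    | zero => intro _; exact (h0' a ha).1
    | succ j ih =>
      intro hj
      show e.eval ((j : ℤ), itr (fun i z => e.eval ((i : ℤ), z, ρ a)) (e0.eval (ρ a)) j, ρ a) = _
      rw [ih (by omega)]
      have hj' : j < k a := hj
      exact (he (a, j) ⟨ha, hj'⟩).1
  refine ⟨Ex.iter ek e0 e, m + c0 + c + 4, fun a ha => ?_⟩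
  obtain ⟨h3, h4, h5⟩ := hk' a ha
  obtain ⟨h6, h7, h8⟩ := h0' a ha
  have hx : (2 : ℝ) ≤ (N a : ℝ) + 2 := by
    have : (0 : ℝ) ≤ (N a : ℝ) := Nat.cast_nonneg _
    linarith
  refine ⟨?_, ?_, fun τ hτ => ⟨?_, ?_⟩⟩
  · simp only [Ex.eval]
    rw [h3, Int.toNat_natCast]
    exact hit a ha (k a) le_rfl
  · change vs (t := .arr) (s a (k a)) ≤ _
    rcases Nat.eq_zero_or_pos (k a) with hz | hz
    · rw [hz]
      exact h7.trans (Nat.pow_le_pow_right (by omega) (by omega))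
    · obtain ⟨j, hj⟩ : ∃ j, k a = j + 1 := ⟨k a - 1, by omega⟩
      rw [hj]
      have hj' : j < k a := by omega
      exact (he (a, j) ⟨ha, hj'⟩).2.1.trans (Nat.pow_le_pow_right (by show 0 < N a + 2; omega) (by omega))
  · have h9 := (h8 τ hτ).1
    have h10 : 0 ≤ ∑ j ∈ range (k a), w τ (a, j) :=
      Finset.sum_nonneg fun j hj =>
        zero_le_one.trans ((he (a, j) ⟨ha, Finset.mem_range.1 hj⟩).2.2 τ hτ).1
    linarith
  · have h9 := (h5 τ hτ).2
    rw [one, mul_one] at h9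
    have hkR : (BE.sz (k a : ℤ) : ℝ) ≤ ((N a : ℝ) + 2) ^ m := by
      have h10 : BE.sz (k a : ℤ) ≤ (N a + 2) ^ m := h4
      exact_mod_cast h10
    simp only [Ex.cost]
    rw [h3, Int.toNat_natCast]
    refine X1_cost hx (fun j hj => ((he (a, j) ⟨ha, hj⟩).2.2 τ hτ).1) (h8 τ hτ).1 m c0 c h9 hkR
      (h8 τ hτ).2 fun j hj => ?_
    rw [hit a ha j hj.le]
    exact ((he (a, j) ⟨ha, hj⟩).2.2 τ hτ).2

end

end Pool.Agent.MPa9445a.GD
end

section

/-! Codes and sets. -/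

set_option autoImplicit false

open Finset
open scoped symmDiff

namespace Pool.Agent.MPa9445a.SN

open Pool.Agent.MPa9445a.BE
variable {n : ℕ}


/-- PROOF. Binary digits determine a number `< 2 ^ n` (`Nat.testBit`, `Nat.eq_of_testBit_eq`; `dec_inj`/`exists_code` in `BE` are similar). -/
theorem ST_inj {c c' : ℕ} (hc : c < 2 ^ n) (hc' : c' < 2 ^ n) (h : ST n c = ST n c') : c = c' := by
  refine Nat.eq_of_testBit_eq fun i => ?_
  by_cases hi : i < n
  · have h1 : (⟨i, hi⟩ : Fin n) ∈ ST n c ↔ (⟨i, hi⟩ : Fin n) ∈ ST n c' := by rw [h]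
    unfold ST at h1
    rw [mem_filter, mem_filter] at h1
    have h2 : c / 2 ^ i % 2 = 1 ↔ c' / 2 ^ i % 2 = 1 := by
      have h3 : bit c ((⟨i, hi⟩ : Fin n) : ℕ) = 1 ↔ bit c' ((⟨i, hi⟩ : Fin n) : ℕ) = 1 :=
        ⟨fun h4 => (h1.1 ⟨mem_univ _, h4⟩).2, fun h4 => (h1.2 ⟨mem_univ _, h4⟩).2⟩
      exact h3
    rw [Nat.testBit_eq_decide_div_mod_eq, Nat.testBit_eq_decide_div_mod_eq]
    exact decide_eq_decide.2 h2
  · have h1 : (2 : ℕ) ^ n ≤ 2 ^ i := Nat.pow_le_pow_right (by norm_num) (by omega)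
    rw [Nat.testBit_lt_two_pow (hc.trans_le h1), Nat.testBit_lt_two_pow (hc'.trans_le h1)]

/-- PROOF. `ST_inj` and `card (Finset (Fin n)) = 2 ^ n`. -/
theorem ST_surj (X : Finset (Fin n)) : ∃ c < 2 ^ n, ST n c = X := by
  have h1 : Function.Injective fun c : Fin (2 ^ n) => ST n c := fun c c' h =>
    Fin.ext (ST_inj c.2 c'.2 h)
  have h2 : Function.Bijective fun c : Fin (2 ^ n) => ST n c := by
    rw [Fintype.bijective_iff_injective_and_card]
    exact ⟨h1, by simp⟩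
  obtain ⟨c, hc⟩ := h2.2 X
  exact ⟨c, c.2, hc⟩

end Pool.Agent.MPa9445a.SN
end
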