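import Pool.Agent.Lib.MP_a9445a_lc.Mg.G119
import Pool.Agent.Lib.MP_a9445a_lc.SN.Alg
import Pool.Agent.Lib.MP_a9445a_lc.SN.Alg2

section

section

/-! States and their vectors. -/

set_option autoImplicit false

open Finset
open scoped symmDiff

namespace Pool.Agent.MPa9445a.GL

variable {n : ℕ}

theorem mem_Fr {s : Vc n} {v : Fin n} : v ∈ Fr s ↔ s v = 2 := by
  simp [Fr]

theorem mem_S {s x : Vc n} :
    x ∈ S s ↔ ∀ v, (s v = 2 → x v = 1 ∨ x v = -1) ∧ (s v ≠ 2 → x v = s v) := by
  unfold S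
  rw [Fintype.mem_piFinset]
  refine forall_congr' fun v => ?_
  by_cases h : s v = 2
  · simp [h]
  · simp [h]

/-- PROOF. `Fintype.card_piFinset`, product of `2` (free) and `1`. -/
theorem card_S (s : Vc n) : (S s).card = 2 ^ (Fr s).card := by
  unfold S Fr
  rw [Fintype.card_piFinset]
  have h : ∀ v : Fin n, (if s v = 2 then ({1, -1} : Finset ℤ) else {s v}).card = if s v = 2 then 2 else 1 := by
    intro v
    by_cases h : s v = 2
    · rw [if_pos h, if_pos h]
      decide
    · rw [if_neg h, if_neg h, card_singleton]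
  rw [Finset.prod_congr rfl fun v _ => h v, Finset.prod_ite, Finset.prod_const, Finset.prod_const_one, mul_one]

/-- The value of `vc`. -/
private theorem A1_vc_free {s : Vc n} {v : Fin n} (h : s v = 2) (X : Finset (Fin n)) :
    vc s X v = if v ∈ X then 1 else -1 := by
  unfold vc
  rw [if_pos h]

private theorem A1_vc_fix {s : Vc n} {v : Fin n} (h : s v ≠ 2) (X : Finset (Fin n)) :
    vc s X v = s v := by
  unfold vc
  rw [if_neg h]

theorem vc_mem (s : Vc n) (X : Finset (Fin n)) : vc s X ∈ S s := by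
  rw [mem_S]
  intro v
  constructor
  · intro h
    rw [A1_vc_free h]
    by_cases hX : v ∈ X
    · left; rw [if_pos hX]
    · right; rw [if_neg hX]
  · intro h
    exact A1_vc_fix h X

/-- Every vector of `S s` is `vc s X` for the set `X` of the free vertices with value `1`. -/
theorem vc_self {s x : Vc n} (hx : x ∈ S s) : vc s ((Fr s).filter fun v => x v = 1) = x := by
  rw [mem_S] at hx
  funext v
  by_cases h : s v = 2
  · rw [A1_vc_free h]
    rcases (hx v).1 h with h1 | h1
    · rw [if_pos (mem_filter.2 ⟨mem_Fr.2 h, h1⟩), h1]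
    · rw [if_neg, h1]
      intro h2
      have h3 := (mem_filter.1 h2).2
      rw [h1] at h3
      exact absurd h3 (by decide)
  · rw [A1_vc_fix h, (hx v).2 h]

/-- `vc s` only depends on the free part. -/
theorem vc_eq {s : Vc n} {X Y : Finset (Fin n)} : vc s X = vc s Y ↔ X ∩ Fr s = Y ∩ Fr s := by
  constructor
  · intro h
    ext v
    rw [mem_inter, mem_inter, mem_Fr]
    constructor
    · rintro ⟨h1, h2⟩
      refine ⟨?_, h2⟩
      have h3 := congrFun h v
      rw [A1_vc_free h2, A1_vc_free h2, if_pos h1] at h3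
      by_contra h4
      rw [if_neg h4] at h3
      exact absurd h3 (by decide)
    · rintro ⟨h1, h2⟩
      refine ⟨?_, h2⟩
      have h3 := congrFun h v
      rw [A1_vc_free h2, A1_vc_free h2, if_pos h1] at h3
      by_contra h4
      rw [if_neg h4] at h3
      exact absurd h3 (by decide)
  · intro h
    funext v
    by_cases h2 : s v = 2
    · rw [A1_vc_free h2, A1_vc_free h2]
      have h3 : v ∈ X ∩ Fr s ↔ v ∈ Y ∩ Fr s := by rw [h]
      rw [mem_inter, mem_inter, mem_Fr] at h3
      have h4 : v ∈ X ↔ v ∈ Y := ⟨fun h5 => (h3.1 ⟨h5, h2⟩).1, fun h5 => (h3.2 ⟨h5, h2⟩).1⟩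
      by_cases h5 : v ∈ X
      · rw [if_pos h5, if_pos (h4.1 h5)]
      · rw [if_neg h5, if_neg fun h6 => h5 (h4.2 h6)]
    · rw [A1_vc_fix h2, A1_vc_fix h2]

/-- Flipping `D` (free vertices). -/
theorem vc_fl {s : Vc n} {D : Finset (Fin n)} (hD : D ⊆ Fr s) (X : Finset (Fin n)) :
    fl D (vc s X) = vc s (X ∆ D) := by
  funext v
  unfold fl
  by_cases h : v ∈ D
  · rw [if_pos h]
    have h2 : s v = 2 := mem_Fr.1 (hD h)
    rw [A1_vc_free h2, A1_vc_free h2]
    by_cases hX : v ∈ X
    · rw [if_pos hX, if_neg]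
      rw [mem_symmDiff]
      rintro (⟨_, h3⟩ | ⟨_, h3⟩)
      · exact h3 h
      · exact h3 hX
    · rw [if_neg hX, if_pos, neg_neg]
      rw [mem_symmDiff]
      exact Or.inr ⟨h, hX⟩
  · rw [if_neg h]
    by_cases h2 : s v = 2
    · rw [A1_vc_free h2, A1_vc_free h2]
      by_cases hX : v ∈ X
      · rw [if_pos hX, if_pos]
        rw [mem_symmDiff]
        exact Or.inl ⟨hX, h⟩
      · rw [if_neg hX, if_neg]
        rw [mem_symmDiff]
        rintro (⟨h3, _⟩ | ⟨h3, _⟩)
        · exact hX h3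
        · exact h h3
    · rw [A1_vc_fix h2, A1_vc_fix h2]

theorem fl_fl (D : Finset (Fin n)) (x : Vc n) : fl D (fl D x) = x := by
  funext v
  unfold fl
  by_cases h : v ∈ D
  · rw [if_pos h, if_pos h, neg_neg]
  · rw [if_neg h, if_neg h]

theorem fl_mem {s x : Vc n} {D : Finset (Fin n)} (hD : D ⊆ Fr s) (hx : x ∈ S s) : fl D x ∈ S s := by
  rw [mem_S] at hx ⊢
  intro v
  unfold fl
  by_cases h : v ∈ D
  · rw [if_pos h]
    have h2 : s v = 2 := mem_Fr.1 (hD h)
    refine ⟨fun _ => ?_, fun h3 => absurd h2 h3⟩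
    rcases (hx v).1 h2 with h1 | h1
    · right; rw [h1]
    · left; rw [h1, neg_neg]
  · rw [if_neg h]
    exact hx v

/-- If `x, y ∈ S s` then `y` is obtained from `x` by flipping the free vertices where they differ. -/
theorem fl_diff {s x y : Vc n} (hx : x ∈ S s) (hy : y ∈ S s) :
    (univ.filter fun v => x v ≠ y v) ⊆ Fr s ∧ fl (univ.filter fun v => x v ≠ y v) x = y := by
  rw [mem_S] at hx hy
  constructor
  · intro v hv
    have hv := (mem_filter.1 hv).2
    rw [mem_Fr]
    by_contra h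
    exact hv (((hx v).2 h).trans ((hy v).2 h).symm)
  · funext v
    unfold fl
    by_cases h : x v = y v
    · rw [if_neg, h]
      intro h2
      exact (mem_filter.1 h2).2 h
    · rw [if_pos (mem_filter.2 ⟨mem_univ v, h⟩)]
      have h2 : s v = 2 := by
        by_contra h3
        exact h (((hx v).2 h3).trans ((hy v).2 h3).symm)
      rcases (hx v).1 h2 with h3 | h3 <;> rcases (hy v).1 h2 with h4 | h4
      · exact absurd (h3.trans h4.symm) h
      · rw [h3, h4]
      · rw [h3, h4, neg_neg]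
      · exact absurd (h3.trans h4.symm) h

end Pool.Agent.MPa9445a.GL
end

section

/-! Restrictions, prefixes, children. -/

set_option autoImplicit false

open Finset
open scoped symmDiff

namespace Pool.Agent.MPa9445a.GL

variable {n : ℕ}

theorem St_Res {s r : Vc n} (hs : St s) (h : Res s r) : St r := by
  intro v
  by_cases h2 : s v = 2
  · rcases (h v).2 h2 with h3 | h3 | h3
    · exact Or.inr (Or.inr (Or.inr h3))
    · exact Or.inr (Or.inl h3)
    · exact Or.inr (Or.inr (Or.inl h3))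
  · rw [(h v).1 h2]
    exact hs v

theorem Res_refl (s : Vc n) : Res s s := by
  intro v
  exact ⟨fun _ => rfl, fun h => Or.inl h⟩

theorem S_Res {s r : Vc n} (h : Res s r) : S r ⊆ S s := by
  intro x hx
  rw [mem_S] at hx ⊢
  intro v
  obtain ⟨h1, h2⟩ := hx v
  constructor
  · intro h3
    rcases (h v).2 h3 with h4 | h4 | h4
    · exact h1 h4
    · left
      rw [h2 (by rw [h4]; decide), h4]
    · right
      rw [h2 (by rw [h4]; decide), h4]
  · intro h3
    have h4 := (h v).1 h3
    rw [h2 (by rw [h4]; exact h3), h4]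

theorem Fr_Res {s r : Vc n} (h : Res s r) : Fr r ⊆ Fr s := by
  intro v hv
  rw [mem_Fr] at hv ⊢
  by_contra h1
  rw [(h v).1 h1] at hv
  exact h1 hv

theorem Res_pre {s x : Vc n} (hx : x ∈ S s) (i : ℕ) : Res s (pre s x i) := by
  intro v
  obtain ⟨h1, h2⟩ := mem_S.1 hx v
  unfold pre
  constructor
  · intro h3
    rw [if_neg fun h4 => h3 h4.1]
  · intro h3
    by_cases h4 : (v : ℕ) < i
    · rw [if_pos ⟨h3, h4⟩]
      exact Or.inr (h1 h3)
    · rw [if_neg fun h5 => h4 h5.2]
      exact Or.inl h3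

theorem pre_mem {s x : Vc n} (hx : x ∈ S s) (i : ℕ) : x ∈ S (pre s x i) := by
  rw [mem_S]
  intro v
  obtain ⟨h1, h2⟩ := mem_S.1 hx v
  unfold pre
  by_cases h3 : s v = 2 ∧ (v : ℕ) < i
  · rw [if_pos h3]
    exact ⟨fun _ => h1 h3.1, fun _ => rfl⟩
  · rw [if_neg h3]
    exact ⟨h1, h2⟩

theorem St_la {r : Vc n} (hr : St r) (D : Finset (Fin n)) : St (la r D) := by
  intro v
  unfold la
  split_ifs with h1 h2
  · exact Or.inr (Or.inr (Or.inr rfl))
  · rcases hr v with h3 | h3 | h3 | h3
    · rw [h3]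
      exact Or.inl (by decide)
    · rw [h3]
      exact Or.inr (Or.inr (Or.inl rfl))
    · rw [h3]
      exact Or.inr (Or.inl (by decide))
    · exact absurd h3 h2
  · exact Or.inl rfl

theorem St_rh {r : Vc n} (hr : St r) (D : Finset (Fin n)) : St (rh r D) := by
  intro v
  unfold rh
  split_ifs
  · exact Or.inl rfl
  · exact hr v

theorem Fr_la {r : Vc n} (hr : St r) (D : Finset (Fin n)) : Fr (la r D) = D ∩ Fr r := by
  ext v
  rw [mem_inter, mem_Fr, mem_Fr]
  unfold la
  by_cases h1 : v ∈ D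
  · rw [if_pos h1]
    by_cases h2 : r v = 2
    · rw [if_pos h2]
      exact ⟨fun _ => ⟨h1, h2⟩, fun _ => rfl⟩
    · rw [if_neg h2]
      constructor
      · intro h3
        exfalso
        rcases hr v with h4 | h4 | h4 | h4
        · rw [h4] at h3
          exact absurd h3 (by decide)
        · rw [h4] at h3
          exact absurd h3 (by decide)
        · rw [h4] at h3
          exact absurd h3 (by decide)
        · exact h2 h4
      · intro h3
        exact absurd h3.2 h2
  · rw [if_neg h1]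
    exact ⟨fun h3 => absurd h3 (by decide), fun h3 => absurd h3.1 h1⟩

theorem Fr_rh (r : Vc n) (D : Finset (Fin n)) : Fr (rh r D) = Fr r \ D := by
  ext v
  rw [mem_sdiff, mem_Fr, mem_Fr]
  unfold rh
  by_cases h1 : v ∈ D
  · rw [if_pos h1]
    exact ⟨fun h3 => absurd h3 (by decide), fun h3 => absurd h1 h3.2⟩
  · rw [if_neg h1]
    exact ⟨fun h3 => ⟨h3, h1⟩, fun h3 => h3.1⟩

end Pool.Agent.MPa9445a.GL
end

section

/-! The values are levels. -/

set_option autoImplicit false

open Finset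
open scoped symmDiff

namespace Pool.Agent.MPa9445a.GL

variable {n : ℕ}

/-- The entries of the vectors of a state are `0, 1, -1`. -/
theorem St_entry {s x : Vc n} (hs : St s) (hx : x ∈ S s) (v : Fin n) :
    x v = 0 ∨ x v = 1 ∨ x v = -1 := by
  have h := mem_S.1 hx v
  by_cases h2 : s v = 2
  · exact Or.inr (h.1 h2)
  · have h3 := h.2 h2
    rcases hs v with h4 | h4 | h4 | h4
    · left
      rw [h3, h4]
    · right
      left
      rw [h3, h4]
    · right
      right
      rw [h3, h4]
    · exact absurd h4 h2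

theorem card_lvl (n : ℕ) : (lvl n).card = LL n := by
  unfold lvl LL Rb
  rw [Int.card_Icc]
  have h : ((n ^ 4 : ℕ) : ℤ) + 1 - -((n ^ 4 : ℕ) : ℤ) = ((2 * n ^ 4 + 1 : ℕ) : ℤ) := by
    push_cast
    ring
  rw [h, Int.toNat_natCast]

/-- PROOF. `|Ph W x| ≤ ∑ ∑ |W u v| ≤ n ^ 2 * n ^ 2`. -/
theorem Ph_lvl {W : Matrix (Fin n) (Fin n) ℤ} (hW : Wb W) {s x : Vc n} (hs : St s) (hx : x ∈ S s) :
    Ph W x ∈ lvl n := by
  have h1 : ∀ v, |x v| ≤ 1 := by
    intro v
    rcases St_entry hs hx v with h | h | h <;> rw [h] <;> norm_num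
  have h2 : |Ph W x| ≤ ((Rb n : ℕ) : ℤ) := by
    unfold Ph Rb
    calc |∑ u, ∑ v, W u v * x u * x v| ≤ ∑ u, |∑ v, W u v * x u * x v| :=
          Finset.abs_sum_le_sum_abs _ _
      _ ≤ ∑ _u : Fin n, ∑ _v : Fin n, (n : ℤ) ^ 2 := by
          refine Finset.sum_le_sum fun u _ => ?_
          refine (Finset.abs_sum_le_sum_abs _ _).trans (Finset.sum_le_sum fun v _ => ?_)
          rw [abs_mul, abs_mul]
          have h3 := hW u v
          have h4 := h1 u
          have h5 := h1 v
          have h6 : |W u v| * |x u| ≤ (n : ℤ) ^ 2 * 1 :=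
            mul_le_mul h3 h4 (abs_nonneg _) (by positivity)
          calc |W u v| * |x u| * |x v| ≤ ((n : ℤ) ^ 2 * 1) * 1 :=
                mul_le_mul h6 h5 (abs_nonneg _) (by positivity)
            _ = (n : ℤ) ^ 2 := by ring
      _ = ((n ^ 4 : ℕ) : ℤ) := by
          simp only [Finset.sum_const, Finset.card_univ, Fintype.card_fin, nsmul_eq_mul]
          push_cast
          ring
  unfold lvl
  rw [Finset.mem_Icc]
  exact abs_le.1 h2

/-- PROOF. `Finset.card_eq_sum_card_fiberwise` and `Ph_lvl`. -/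
theorem sum_Lv {W : Matrix (Fin n) (Fin n) ℤ} (hW : Wb W) {s : Vc n} (hs : St s) :
    ∑ t ∈ lvl n, (Lv W s t).card = 2 ^ (Fr s).card := by
  rw [← card_S s]
  exact (Finset.card_eq_sum_card_fiberwise (f := Ph W) (s := S s) (t := lvl n)
    (fun x hx => Ph_lvl hW hs hx)).symm

end Pool.Agent.MPa9445a.GL
end
end

section

section

/-! The flip identity. -/

set_option autoImplicit false

open Finset
open scoped symmDiff

namespace Pool.Agent.MPa9445a.SN

variable {n : ℕ} (W : Matrix (Fin n) (Fin n) ℤ)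

private theorem A1_abs (X : Finset (Fin n)) (v : Fin n) : |sgn X v| = 1 := by
  unfold sgn
  split_ifs <;> simp

private theorem A1_symm (X D : Finset (Fin n)) (v : Fin n) :
    sgn (X ∆ D) v = if v ∈ D then -sgn X v else sgn X v := by
  unfold sgn
  by_cases h1 : v ∈ X <;> by_cases h2 : v ∈ D <;> simp [mem_symmDiff, h1, h2]

private theorem A1_split (D : Finset (Fin n)) (g : Fin n → Fin n → ℤ) :
    ∑ u ∈ D, ∑ v ∈ D, g u v + ∑ u ∈ Dᶜ, ∑ v ∈ Dᶜ, g u v =
      ∑ u, ∑ v, if (u ∈ D ↔ v ∈ D) then g u v else 0 := by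
  rw [← Finset.sum_add_sum_compl D (fun u => ∑ v, if (u ∈ D ↔ v ∈ D) then g u v else 0)]
  congr 1
  · refine Finset.sum_congr rfl fun u hu => ?_
    rw [← Finset.sum_add_sum_compl D (fun v => if (u ∈ D ↔ v ∈ D) then g u v else 0)]
    have h1 : ∑ v ∈ D, (if (u ∈ D ↔ v ∈ D) then g u v else 0) = ∑ v ∈ D, g u v :=
      Finset.sum_congr rfl fun v hv => by simp [hu, hv]
    have h2 : ∑ v ∈ Dᶜ, (if (u ∈ D ↔ v ∈ D) then g u v else 0) = 0 :=
      Finset.sum_eq_zero fun v hv => by simp [hu, Finset.mem_compl.1 hv]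
    rw [h1, h2, add_zero]
  · refine Finset.sum_congr rfl fun u hu => ?_
    rw [← Finset.sum_add_sum_compl D (fun v => if (u ∈ D ↔ v ∈ D) then g u v else 0)]
    have hu' := Finset.mem_compl.1 hu
    have h1 : ∑ v ∈ D, (if (u ∈ D ↔ v ∈ D) then g u v else 0) = 0 :=
      Finset.sum_eq_zero fun v hv => by simp [hu', hv]
    have h2 : ∑ v ∈ Dᶜ, (if (u ∈ D ↔ v ∈ D) then g u v else 0) = ∑ v ∈ Dᶜ, g u v :=
      Finset.sum_congr rfl fun v hv => by simp [hu', Finset.mem_compl.1 hv]
    rw [h1, h2, zero_add]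

/-- PROOF. `sgn X v` for `v ∈ D` only depends on `X ∩ D`. -/
theorem frm_congr {D X Y : Finset (Fin n)} (h : ∀ v ∈ D, (v ∈ X ↔ v ∈ Y)) : frm W D X = frm W D Y := by
  unfold frm
  refine Finset.sum_congr rfl fun u hu => Finset.sum_congr rfl fun v hv => ?_
  unfold sgn
  simp only [h u hu, h v hv]

/-- The flip identity. PROOF. `sgn (X ∆ D) v = - sgn X v` for `v ∈ D` and `= sgn X v` for `v ∉ D`. Split `univ` in `D` and `Dᶜ` in both sums:
`ff W X = frm D + frm Dᶜ + c` with `c = ∑ u ∈ D, ∑ v ∈ Dᶜ, .. + ∑ u ∈ Dᶜ, ∑ v ∈ D, ..`, `ff W (X ∆ D) = frm D + frm Dᶜ - c`. -/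
theorem flip (D X : Finset (Fin n)) : ff W X + ff W (X ∆ D) = 2 * (frm W D X + frm W Dᶜ X) := by
  unfold ff frm
  rw [A1_split, Finset.mul_sum, ← Finset.sum_add_distrib]
  refine Finset.sum_congr rfl fun u _ => ?_
  rw [Finset.mul_sum, ← Finset.sum_add_distrib]
  refine Finset.sum_congr rfl fun v _ => ?_
  rw [A1_symm, A1_symm]
  by_cases h1 : u ∈ D <;> by_cases h2 : v ∈ D <;> simp [h1, h2] <;> ring

/-- PROOF. `sgn Xᶜ v = - sgn X v`. -/
theorem ff_compl (X : Finset (Fin n)) : ff W Xᶜ = ff W X := by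
  have h : ∀ v, sgn Xᶜ v = -sgn X v := by
    intro v
    unfold sgn
    by_cases h1 : v ∈ X <;> simp [h1]
  unfold ff frm
  refine Finset.sum_congr rfl fun u _ => Finset.sum_congr rfl fun v _ => ?_
  rw [h, h]
  ring

/-- PROOF. `|sgn| = 1`, at most `n ^ 2` terms, each at most `n ^ 2` in absolute value. -/
theorem frm_abs (hW : ∀ u v, |W u v| ≤ (n : ℤ) ^ 2) (D X : Finset (Fin n)) : |frm W D X| ≤ (n : ℤ) ^ 4 := by
  have hD : (D.card : ℤ) ≤ n := by
    have := Finset.card_le_univ D
    rw [Fintype.card_fin] at this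
    exact_mod_cast this
  have h1 : ∀ u v, |W u v * sgn X u * sgn X v| ≤ (n : ℤ) ^ 2 := by
    intro u v
    rw [abs_mul, abs_mul, A1_abs, A1_abs, mul_one, mul_one]
    exact hW u v
  have h2 : ∀ u, |∑ v ∈ D, W u v * sgn X u * sgn X v| ≤ (n : ℤ) ^ 3 := by
    intro u
    refine (Finset.abs_sum_le_sum_abs _ _).trans ?_
    refine (Finset.sum_le_card_nsmul D _ _ fun v _ => h1 u v).trans ?_
    rw [nsmul_eq_mul]
    calc (D.card : ℤ) * (n : ℤ) ^ 2 ≤ (n : ℤ) * (n : ℤ) ^ 2 :=
          mul_le_mul_of_nonneg_right hD (by positivity)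
      _ = (n : ℤ) ^ 3 := by ring
  unfold frm
  refine (Finset.abs_sum_le_sum_abs _ _).trans ?_
  refine (Finset.sum_le_card_nsmul D _ _ fun u _ => h2 u).trans ?_
  rw [nsmul_eq_mul]
  calc (D.card : ℤ) * (n : ℤ) ^ 3 ≤ (n : ℤ) * (n : ℤ) ^ 3 :=
        mul_le_mul_of_nonneg_right hD (by positivity)
    _ = (n : ℤ) ^ 4 := by ring

/-- The maximum solves the decoupled problem iff its flip is in the level set. PROOF. `flip`. -/
theorem mem_PD {θ : ℤ} {D X : Finset (Fin n)} : X ∈ PD W θ D ↔ θ ≤ ff W X + ff W (X ∆ D) := by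
  unfold PD
  rw [Finset.mem_filter, flip]
  simp

end Pool.Agent.MPa9445a.SN
end

section

/-! The maximum of a loop. -/

set_option autoImplicit false

open Finset

namespace Pool.Agent.MPa9445a.SN

open Pool.Agent.MPa9445a.BE

/-- PROOF. `argmax_spec`, `getD_tb`. -/
theorem le_mx {k : ℕ} (f : ℕ → ℤ) {i : ℕ} (hi : i < k) : f i ≤ mx k f := by
  obtain ⟨-, h2⟩ := argmax_spec (k := k) (by omega) (fun i => (tb k f).getD i.toNat 0)
  have h3 : (tb k f).getD ((i : ℤ).toNat) 0 ≤
      (tb k f).getD (((argmax k fun i => (tb k f).getD i.toNat 0 : ℕ) : ℤ).toNat) 0 := h2 i hi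
  rw [Int.toNat_natCast, Int.toNat_natCast, getD_tb, if_pos hi] at h3
  exact h3

/-- PROOF. `k = 0`: `tb 0 f = []`. Otherwise `argmax_spec`, `getD_tb`. -/
theorem mx_mem (k : ℕ) (f : ℕ → ℤ) : mx k f = 0 ∨ ∃ i < k, mx k f = f i := by
  rcases Nat.eq_zero_or_pos k with h | h
  · left
    subst h
    unfold mx
    rw [getD_tb, if_neg (Nat.not_lt_zero _)]
  · right
    obtain ⟨h1, -⟩ := argmax_spec (k := k) h (fun i => (tb k f).getD i.toNat 0)
    refine ⟨_, h1, ?_⟩
    show (tb k f).getD (argmax k fun i => (tb k f).getD i.toNat 0) 0 = _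
    rw [getD_tb, if_pos h1]

/-- PROOF. `mx_mem`. -/
theorem IsSc.mx {n : ℕ} {M : List ℤ} {k : ℕ} {f : ℕ → ℤ} (h : ∀ i < k, IsSc n M (f i)) :
    IsSc n M (SN.mx k f) := by
  rcases mx_mem k f with h1 | ⟨i, hi, h1⟩
  · rw [h1]
    exact Or.inl rfl
  · rw [h1]
    exact h i hi

end Pool.Agent.MPa9445a.SN
end

section

/-! The maximum of a loop. -/

set_option autoImplicit false

open Finset

namespace Pool.Agent.MPa9445a.SN

open Pool.Agent.MPa9445a.BE

private theorem C2b_succ (k : ℕ) (q : ℕ → Prop) [DecidablePred q] :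
    flt (k + 1) q = flt k q ++ (if q k then [(k : ℤ)] else []) := by
  unfold flt
  rw [List.range_succ, List.filter_append, List.map_append]
  by_cases h : q k <;> simp [h]

private theorem C2b_len (k : ℕ) (q : ℕ → Prop) [DecidablePred q] :
    (flt k q).length = ((range k).filter q).card := by
  induction k with
  | zero => simp [flt]
  | succ k ih =>
    rw [C2b_succ, List.length_append, ih, Finset.range_add_one, Finset.filter_insert]
    by_cases h : q k
    · rw [if_pos h, if_pos h, Finset.card_insert_of_notMem (by simp)]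
      rfl
    · rw [if_neg h, if_neg h]
      rfl

private theorem C2b_left (l r : List ℤ) {t : ℕ} (ht : t < l.length) : gt (l ++ r) t = gt l t := by
  unfold gt
  rw [List.getD_eq_getElem?_getD, List.getD_eq_getElem?_getD, List.getElem?_append_left ht]

private theorem C2b_right (l : List ℤ) (x : ℤ) : gt (l ++ [x]) l.length = x := by
  unfold gt
  rw [List.getD_eq_getElem?_getD, List.getElem?_append_right le_rfl]
  simp

private theorem C2b_main (k : ℕ) (q : ℕ → Prop) [DecidablePred q] {t : ℕ}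
    (ht : t < (flt k q).length) :
    ∃ i : ℕ, gt (flt k q) t = (i : ℤ) ∧ i < k ∧ q i ∧ t = ((range i).filter q).card := by
  induction k with
  | zero => simp [flt] at ht
  | succ k ih =>
    rw [C2b_succ] at ht ⊢
    by_cases h1 : t < (flt k q).length
    · obtain ⟨i, h2, h3, h4, h5⟩ := ih h1
      exact ⟨i, by rw [C2b_left _ _ h1]; exact h2, by omega, h4, h5⟩
    · by_cases h : q k
      · rw [if_pos h] at ht ⊢
        have h6 : t = (flt k q).length := by
          rw [List.length_append, List.length_singleton] at ht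
          omega
        subst h6
        exact ⟨k, C2b_right _ _, Nat.lt_succ_self k, h, C2b_len k q⟩
      · rw [if_neg h, List.append_nil] at ht
        exact absurd ht h1

/-- PROOF. `gt L t` is the `t`-th element; the elements of `flt k q` are the `i < k` with `q i` in increasing order: the number of `i' < i` with `q i'` is the position of `i`. -/
theorem flt_pos {k : ℕ} (q : ℕ → Prop) [DecidablePred q] {i : ℕ} (hi : i < k) (hq : q i) :
    ∃ t, t < (flt k q).length ∧ t = ((range i).filter q).card ∧ gt (flt k q) t = i := by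
  induction k with
  | zero => omega
  | succ k ih =>
    rw [C2b_succ]
    rcases Nat.lt_succ_iff_lt_or_eq.mp hi with h | h
    · obtain ⟨t, h1, h2, h3⟩ := ih h
      refine ⟨t, ?_, h2, ?_⟩
      · rw [List.length_append]
        omega
      · rw [C2b_left _ _ h1]
        exact h3
    · subst h
      rw [if_pos hq]
      refine ⟨(flt i q).length, ?_, C2b_len i q, C2b_right _ _⟩
      rw [List.length_append, List.length_singleton]
      omega

/-- PROOF. Elements of the list. -/
theorem flt_gt {k : ℕ} (q : ℕ → Prop) [DecidablePred q] {t : ℕ} (ht : t < (flt k q).length) :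
    (gt (flt k q) t).toNat < k ∧ q (gt (flt k q) t).toNat ∧
      gt (flt k q) t = ((gt (flt k q) t).toNat : ℤ) := by
  obtain ⟨i, h1, h2, h3, -⟩ := C2b_main k q ht
  rw [h1, Int.toNat_natCast]
  exact ⟨h2, h3, rfl⟩

/-- PROOF. -/
theorem flt_length {k : ℕ} (q : ℕ → Prop) [DecidablePred q] :
    (flt k q).length = ((range k).filter q).card :=
  C2b_len k q

/-- Sums over the list. PROOF. `flt k q` lists the elements of `(range k).filter q` without repetition. -/
theorem flt_sum {k : ℕ} (q : ℕ → Prop) [DecidablePred q] (f : ℕ → ℕ) :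
    ∑ t ∈ range (flt k q).length, f (gt (flt k q) t).toNat = ∑ i ∈ (range k).filter q, f i := by
  induction k with
  | zero => simp [flt]
  | succ k ih =>
    rw [C2b_succ, Finset.range_add_one (n := k), Finset.filter_insert]
    by_cases h : q k
    · rw [if_pos h, if_pos h, Finset.sum_insert (by simp), List.length_append,
        List.length_singleton, Finset.sum_range_succ, C2b_right, Int.toNat_natCast, ← ih, add_comm]
      congr 1
      refine Finset.sum_congr rfl fun t ht => ?_
      rw [C2b_left _ _ (Finset.mem_range.mp ht)]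
    · rw [if_neg h, if_neg h, List.append_nil]
      exact ih

/-- PROOF. -/
theorem flt_inj {k : ℕ} (q : ℕ → Prop) [DecidablePred q] {t t' : ℕ} (ht : t < (flt k q).length)
    (ht' : t' < (flt k q).length) (h : (gt (flt k q) t).toNat = (gt (flt k q) t').toNat) :
    t = t' := by
  obtain ⟨i, h1, -, -, h4⟩ := C2b_main k q ht
  obtain ⟨j, h1', -, -, h4'⟩ := C2b_main k q ht'
  rw [h1, h1', Int.toNat_natCast, Int.toNat_natCast] at h
  subst h
  rw [h4, h4']

end Pool.Agent.MPa9445a.SN
end
end
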