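import Pool.Agent.Lib.MP_a9445a_lc.Mg.G124
import Pool.Agent.Lib.MP_a9445a_lc.SN.Alg2
import Pool.Agent.Lib.MP_a9445a_lc.BE.B0
import Pool.Agent.Lib.MP_a9445a_lc.Mg.G120
import Pool.Agent.Lib.MP_a9445a_lc.Mg.G122

section

/-!
# Arrays and typed objects

`fv n s` is the vector (or state) of the array `s`, `ST n c` the set with code `c`. For every array `R` (not only for
arrays of bits) the parities of its entries define the random objects of a round.
-/

set_option autoImplicit false

open Finset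
open scoped symmDiff

namespace Pool.Agent.MPa9445a.GL

open Pool.Agent.MPa9445a.BE
open Pool.Agent.MPa9445a.SN (ST Fm rs kb)

variable {n : ℕ}

/-- The code of a vector: the set of its entries `1`. -/
def cdv (x : Vc n) : ℤ := ((∑ v : Fin n, if x v = 1 then 2 ^ (v : ℕ) else 0 : ℕ) : ℤ)

/-- `L` lists the codes of the vectors of `P` without repetition. -/
def Cpl (L : List ℤ) (P : Finset (Vc n)) : Prop := L.Nodup ∧ ∀ c, c ∈ L ↔ ∃ x ∈ P, cdv x = c

/-- Every answer of the procedure is right. -/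
def Snd (W : Matrix (Fin n) (Fin n) ℤ) (E : Pc) : Prop :=
  ∀ s, St (fv n s) → ∀ p b, E s p b = [] ∨ ∃ L, E s p b = 1 :: L ∧ Cpl L (Lv W (fv n s) p)

/-- The procedure does not fail if `O` holds. -/
def Cmp (E : Pc) (O : Vc n → ℤ → ℕ → Prop) : Prop :=
  ∀ s, St (fv n s) → ∀ p ∈ lvl n, ∀ b, O (fv n s) p (2 ^ b) → E s p b ≠ []

/-- The family of the array `R` from the entry `o` on. -/
def fR (n : ℕ) (R : List ℤ) (o : ℕ) : Fm n := fun v j => decide (gt R (o + v * (kb n + 1) + j) % 2 = 1)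

/-- The matrix of the array `R` from the entry `o` on. -/
def AR (n : ℕ) (R : List ℤ) (o : ℕ) : Mx n := fun v => univ.filter fun u : Fin n => gt R (o + v * n + u) % 2 = 1

/-- The shifts of the array `R`, `o` the first entry of the matrix. -/
def HR (n : ℕ) (R : List ℤ) (o : ℕ) : Sh n :=
  fun i => univ.filter fun v : Fin n => gt R (o + n * n + i * n + v) % 2 = 1

/-- The random objects of the round whose first entry is `o`. -/
def RR (n : ℕ) (R : List ℤ) (o : ℕ) : Rd n :=
  (fR n R o, fR n R (o + bl n), AR n R (o + 2 * bl n), HR n R (o + 2 * bl n))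

/-- The random objects of the depths `1, …, k`. -/
def SR (n : ℕ) (R : List ℤ) : (k : ℕ) → Sds n k
  | 0 => ()
  | k + 1 => (SR n R k, fun z => RR n R (ofs n k z))

end Pool.Agent.MPa9445a.GL
end

section

section

/-! Arrays and typed states. -/

set_option autoImplicit false

open Finset
open scoped symmDiff

namespace Pool.Agent.MPa9445a.GL

open Pool.Agent.MPa9445a.BE
open Pool.Agent.MPa9445a.SN (ST Fm rs kb)

variable {n : ℕ}

/-- PROOF. A digit is `0` or `1`; `fv_tb`. -/
theorem fv_sv (s : List ℤ) (c : ℕ) : fv n (sv n s c) = vc (fv n s) (ST n c) := by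
  funext v
  rw [sv, fv_tb]
  simp only [vc, SN.ST, Finset.mem_filter, Finset.mem_univ, true_and]
  have hb : bit c (v : ℕ) = 0 ∨ bit c (v : ℕ) = 1 := by
    rw [bit]; omega
  have e : fv n s v = gt s (v : ℕ) := rfl
  rw [e]
  by_cases h : gt s (v : ℕ) = 2
  · rw [if_pos h, if_pos h]
    rcases hb with hb | hb
    · rw [hb, if_neg (by norm_num)]; norm_num
    · rw [hb, if_pos rfl]; norm_num
  · rw [if_neg h, if_neg h]

/-- PROOF. `fv_tb`. -/
theorem fv_prL (s x : List ℤ) (i : ℕ) : fv n (prL n s x i) = pre (fv n s) (fv n x) i := by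
  funext v
  rw [prL, fv_tb]
  rfl

/-- PROOF. `fv_tb`. -/
theorem fv_laL (r : List ℤ) (d : ℕ) : fv n (laL n r d) = la (fv n r) (ST n d) := by
  funext v
  rw [laL, fv_tb]
  simp only [la, SN.ST, Finset.mem_filter, Finset.mem_univ, true_and]
  rfl

/-- PROOF. `fv_tb`. -/
theorem fv_rhL (r : List ℤ) (d : ℕ) : fv n (rhL n r d) = rh (fv n r) (ST n d) := by
  funext v
  rw [rhL, fv_tb]
  simp only [rh, SN.ST, Finset.mem_filter, Finset.mem_univ, true_and]
  rfl

/-- PROOF. `bil_eq`, unfold. -/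
theorem Phi_Ph (M x : List ℤ) : Phi n M x = Ph (wtm n M) (fv n x) := by
  rw [Phi, bil_eq]
  rfl

/-- PROOF. Unfold, sum over `Fin n`. -/
theorem code_cdv (x : List ℤ) : (code n x : ℤ) = cdv (fv n x) := by
  rw [code, cdv, Finset.sum_range]
  rfl

/-- PROOF. Count over `Fin n` and over `range n`. -/
theorem rk_n (s : List ℤ) : rk s n = (Fr (fv n s)).card := by
  rw [rk, Fr, Finset.card_filter, Finset.sum_range]
  rfl

/-- PROOF. Count. -/
theorem rk_lo (s : List ℤ) {j : ℕ} (hj : j ≤ n) : rk s j = (lo (fv n s) j).card := by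
  rw [rk, lo, Fr, Finset.filter_filter, Finset.card_filter]
  have h1 : ∑ u ∈ range j, (if gt s u = 2 then 1 else 0) =
      ∑ u ∈ range n, (if gt s u = 2 ∧ u < j then 1 else 0) := by
    have h2 : range j = (range n).filter fun u => u < j := by
      ext u
      simp only [Finset.mem_filter, Finset.mem_range]
      omega
    rw [h2, Finset.sum_filter]
    refine Finset.sum_congr rfl fun u _ => ?_
    by_cases ha : u < j
    · by_cases hb : gt s u = 2
      · rw [if_pos ha, if_pos hb, if_pos ⟨hb, ha⟩]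
      · rw [if_pos ha, if_neg hb, if_neg fun h => hb h.1]
    · rw [if_neg ha, if_neg fun h => ha h.2]
  rw [h1, Finset.sum_range]
  rfl

/-- PROOF. `Fr = lo ∪ hi`. -/
theorem rk_hi (s : List ℤ) {j : ℕ} (hj : j ≤ n) : rk s n - rk s j = (hi (fv n s) j).card := by
  have h1 : (lo (fv n s) j).card + (hi (fv n s) j).card = (Fr (fv n s)).card := by
    have h2 : hi (fv n s) j = (Fr (fv n s)).filter fun v : Fin n => ¬ (v : ℕ) < j := by
      rw [hi]
      refine Finset.filter_congr fun v _ => ?_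
      exact not_lt.symm
    rw [h2, lo]
    exact Finset.card_filter_add_card_filter_not _
  rw [rk_n, rk_lo s hj]
  omega

/-- PROOF. Unfold. -/
theorem inl_iff (b : ℤ) : inl n b ↔ b ∈ lvl n := by
  rw [inl, lvl, Finset.mem_Icc, Rb]
  push_cast
  rfl

/-- The levels are the `lvv n a`, `a < LL n`. PROOF. Unfold. -/
theorem sum_lvl {X : Type} [AddCommMonoid X] (f : ℤ → X) :
    ∑ a ∈ range (LL n), f (lvv n a) = ∑ t ∈ lvl n, f t := by
  have h1 : lvl n = (range (LL n)).image (lvv n) := by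
    ext t
    simp only [lvl, Finset.mem_Icc, Finset.mem_image, Finset.mem_range, lvv, LL, Rb]
    constructor
    · rintro ⟨h2, h3⟩
      push_cast at h2 h3
      refine ⟨(t + (n : ℤ) ^ 4).toNat, ?_, ?_⟩
      · have h4 : (((t + (n : ℤ) ^ 4).toNat : ℕ) : ℤ) = t + (n : ℤ) ^ 4 :=
          Int.toNat_of_nonneg (by linarith)
        zify
        rw [h4]
        linarith
      · rw [Int.toNat_of_nonneg (by linarith)]
        ring
    · rintro ⟨a, h2, h3⟩
      have h4 : (a : ℤ) < 2 * (n : ℤ) ^ 4 + 1 := by exact_mod_cast h2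
      have h5 : (0 : ℤ) ≤ a := Int.natCast_nonneg a
      push_cast
      constructor
      · linarith
      · linarith
  rw [h1, Finset.sum_image]
  intro a _ b _ hab
  simp only [lvv] at hab
  exact_mod_cast sub_left_injective hab

/-- PROOF. Unfold. -/
theorem lvv_mem {a : ℕ} (ha : a < LL n) : lvv n a ∈ lvl n := by
  rw [LL] at ha
  simp only [lvl, Finset.mem_Icc, lvv, Rb]
  have h4 : (a : ℤ) < 2 * (n : ℤ) ^ 4 + 1 := by exact_mod_cast ha
  have h5 : (0 : ℤ) ≤ a := Int.natCast_nonneg a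
  push_cast
  constructor
  · linarith
  · linarith

/-- PROOF. `a = (t + n ^ 4).toNat`. -/
theorem lvv_surj {t : ℤ} (ht : t ∈ lvl n) : ∃ a < LL n, lvv n a = t := by
  simp only [lvl, Finset.mem_Icc, Rb] at ht
  obtain ⟨h2, h3⟩ := ht
  push_cast at h2 h3
  refine ⟨(t + (n : ℤ) ^ 4).toNat, ?_, ?_⟩
  · have h4 : (((t + (n : ℤ) ^ 4).toNat : ℕ) : ℤ) = t + (n : ℤ) ^ 4 :=
      Int.toNat_of_nonneg (by linarith)
    rw [LL]
    zify
    rw [h4]
    linarith
  · rw [lvv, Int.toNat_of_nonneg (by linarith)]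
    ring

end Pool.Agent.MPa9445a.GL
end

section

/-! Codes of vectors. -/

set_option autoImplicit false

open Finset
open scoped symmDiff

namespace Pool.Agent.MPa9445a.GL

open Pool.Agent.MPa9445a.BE
open Pool.Agent.MPa9445a.SN (ST Fm rs kb)
open Pool.Agent.MPa9445a.GD (dd)

variable {n : ℕ}

private theorem Q1b_sum (c : ℕ) : ∀ m : ℕ,
    (∑ i ∈ range m, if c / 2 ^ i % 2 = 1 then 2 ^ i else 0) = c % 2 ^ m := by
  intro m
  induction m with
  | zero => simp [Nat.mod_one]
  | succ m ih =>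
    rw [Finset.sum_range_succ, ih, Nat.mod_pow_succ]
    congr 1
    rcases Nat.mod_two_eq_zero_or_one (c / 2 ^ m) with h | h
    · rw [if_neg (by omega), h, mul_zero]
    · rw [if_pos h, h, mul_one]

private theorem Q1b_code (x : Vc n) : ∃ c < 2 ^ n, ST n c = (univ.filter fun v => x v = 1) ∧
    cdv x = (c : ℤ) := by
  obtain ⟨c, hc, hX⟩ := Pool.Agent.MPa9445a.SN.ST_surj (univ.filter fun v : Fin n => x v = 1)
  refine ⟨c, hc, hX, ?_⟩
  unfold cdv
  congr 1
  have h1 := Q1b_sum c n
  rw [Nat.mod_eq_of_lt hc, ← Fin.sum_univ_eq_sum_range (fun i => if c / 2 ^ i % 2 = 1 then 2 ^ i else 0)] at h1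
  refine Eq.trans ?_ h1
  refine Finset.sum_congr rfl fun v _ => ?_
  have h2 : x v = 1 ↔ c / 2 ^ (v : ℕ) % 2 = 1 := by
    have h3 : v ∈ ST n c ↔ v ∈ (univ.filter fun v : Fin n => x v = 1) := by rw [hX]
    unfold Pool.Agent.MPa9445a.SN.ST at h3
    rw [mem_filter, mem_filter] at h3
    constructor
    · intro h
      exact (h3.2 ⟨mem_univ _, h⟩).2
    · intro h
      exact (h3.1 ⟨mem_univ _, h⟩).2
  by_cases hx : x v = 1
  · rw [if_pos hx, if_pos (h2.1 hx)]
  · rw [if_neg hx, if_neg fun h => hx (h2.2 h)]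

private theorem Q1b_vc {s x : Vc n} (hx : x ∈ S s) : vc s (ST n (cdv x).toNat) = x := by
  obtain ⟨c, -, hX, hc⟩ := Q1b_code x
  rw [hc, Int.toNat_natCast, hX]
  rw [mem_S] at hx
  funext v
  unfold vc
  obtain ⟨h1, h2⟩ := hx v
  by_cases hv : s v = 2
  · rw [if_pos hv]
    rcases h1 hv with h | h
    · have h3 : v ∈ univ.filter fun v : Fin n => x v = 1 := mem_filter.2 ⟨mem_univ _, h⟩
      rw [if_pos h3, h]
    · have h3 : v ∉ univ.filter fun v : Fin n => x v = 1 := by
        intro hm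
        have := (mem_filter.1 hm).2
        omega
      rw [if_neg h3, h]
  · rw [if_neg hv, h2 hv]

/-- PROOF. Sum of different powers of `2` with exponents `< n`. -/
theorem cdv_lt (x : Vc n) : 0 ≤ cdv x ∧ cdv x < 2 ^ n := by
  obtain ⟨c, hc, -, h⟩ := Q1b_code x
  rw [h]
  exact ⟨Int.natCast_nonneg c, by exact_mod_cast hc⟩

/-- PROOF. Digits of a sum of different powers of `2` (`SN/C1b`: sets and codes). -/
theorem ST_cdv (x : Vc n) : ST n (cdv x).toNat = univ.filter fun v => x v = 1 := by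
  obtain ⟨c, -, hX, h⟩ := Q1b_code x
  rw [h, Int.toNat_natCast, hX]

/-- A vector of the state `s` is obtained back from its code. PROOF. `fv_sv`, `ST_cdv`, `mem_S` (`A1`). -/
theorem sv_cdv (s : List ℤ) {x : Vc n} (hx : x ∈ S (fv n s)) : fv n (sv n s (cdv x).toNat) = x := by
  rw [fv_sv, Q1b_vc hx]

/-- PROOF. `sv_cdv` on typed level: the entries `v` with `s v = 2` are determined by the code, the others by `s`. -/
theorem cdv_inj {s : Vc n} {x y : Vc n} (hx : x ∈ S s) (hy : y ∈ S s) (h : cdv x = cdv y) : x = y := by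
  rw [← Q1b_vc hx, ← Q1b_vc hy, h]

end Pool.Agent.MPa9445a.GL
end

section

/-! The vectors of a state and their indices. -/

set_option autoImplicit false

open Finset
open scoped symmDiff

namespace Pool.Agent.MPa9445a.GL

open Pool.Agent.MPa9445a.BE
open Pool.Agent.MPa9445a.SN (ST Fm rs kb)
open Pool.Agent.MPa9445a.GD (dd)

variable {n : ℕ}

private theorem Q1d_rk_succ (s : List ℤ) (m : ℕ) :
    rk s (m + 1) = rk s m + if gt s m = 2 then 1 else 0 := by
  unfold rk
  rw [Finset.sum_range_succ]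

private theorem Q1d_ex (s : List ℤ) : ∀ m, ∀ i < rk s m, ∃ v < m, gt s v = 2 ∧ rk s v = i := by
  intro m
  induction m with
  | zero =>
    intro i hi
    unfold rk at hi
    simp at hi
  | succ m ih =>
    intro i hi
    rw [Q1d_rk_succ] at hi
    by_cases h : i < rk s m
    · obtain ⟨v, hv, h1, h2⟩ := ih i h
      exact ⟨v, by omega, h1, h2⟩
    · by_cases h2 : gt s m = 2
      · rw [if_pos h2] at hi
        exact ⟨m, by omega, h2, by omega⟩
      · rw [if_neg h2] at hi
        omega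

private theorem Q1d_bit_big {a k i : ℕ} (h : a < 2 ^ k) (hi : k ≤ i) : bit a i = 0 := by
  unfold bit
  rw [Nat.div_eq_of_lt (lt_of_lt_of_le h (Nat.pow_le_pow_right (by norm_num) hi))]

private theorem Q1d_ext {a b : ℕ} (h : ∀ i, bit a i = bit b i) : a = b := by
  apply Nat.eq_of_testBit_eq
  intro i
  have h1 := h i
  unfold bit at h1
  rw [Nat.testBit_eq_decide_div_mod_eq, Nat.testBit_eq_decide_div_mod_eq, h1]

private theorem Q1d_inj (s : List ℤ) {u u' : ℕ} (hu : u < 2 ^ rk s n) (hu' : u' < 2 ^ rk s n)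
    (h : fv n (xv n s u) = fv n (xv n s u')) : u = u' := by
  apply Q1d_ext
  intro i
  by_cases hi : i < rk s n
  · obtain ⟨v, hv, h1, h2⟩ := Q1d_ex s n i hi
    have h3 := congrFun h ⟨v, hv⟩
    unfold xv at h3
    rw [fv_tb, fv_tb] at h3
    have h4 : (if gt s v = 2 then 2 * (bit u (rk s v) : ℤ) - 1 else gt s v) =
        if gt s v = 2 then 2 * (bit u' (rk s v) : ℤ) - 1 else gt s v := h3
    rw [if_pos h1, if_pos h1, h2] at h4
    omega
  · rw [Q1d_bit_big hu (not_lt.1 hi), Q1d_bit_big hu' (not_lt.1 hi)]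

/-- The vectors `xv n s u` are vectors of `s`. PROOF. `fv_tb`. -/
theorem xv_mem (s : List ℤ) (u : ℕ) : fv n (xv n s u) ∈ S (fv n s) := by
  rw [mem_S]
  intro v
  unfold xv
  rw [fv_tb]
  constructor
  · intro h
    have h1 : gt s (v : ℕ) = 2 := h
    rw [if_pos h1]
    have h2 : bit u (rk s v) = 0 ∨ bit u (rk s v) = 1 := by
      unfold bit
      exact Nat.mod_two_eq_zero_or_one _
    rcases h2 with h2 | h2
    · right
      rw [h2]
      norm_num
    · left
      rw [h2]
      norm_num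
  · intro h
    have h1 : gt s (v : ℕ) ≠ 2 := h
    rw [if_neg h1]
    rfl

/-- PROOF. The free places of `s` have the numbers `0, …, rk s n - 1` (`rk s v`, increasing): `u` is the sum of the
`2 ^ rk s v`, `x v = 1`. -/
theorem xv_surj (s : List ℤ) {x : Vc n} (hx : x ∈ S (fv n s)) : ∃ u < 2 ^ rk s n, fv n (xv n s u) = x := by
  classical
  have h1 : ((range (2 ^ rk s n)).image fun u => fv n (xv n s u)) = S (fv n s) := by
    apply Finset.eq_of_subset_of_card_le
    · intro y hy
      obtain ⟨u, _, rfl⟩ := Finset.mem_image.1 hy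
      exact xv_mem s u
    · rw [card_S, ← rk_n, Finset.card_image_of_injOn, Finset.card_range]
      intro u hu u' hu' h
      exact Q1d_inj s (Finset.mem_range.1 (Finset.mem_coe.1 hu))
        (Finset.mem_range.1 (Finset.mem_coe.1 hu')) h
  rw [← h1] at hx
  obtain ⟨u, hu, hux⟩ := Finset.mem_image.1 hx
  exact ⟨u, Finset.mem_range.1 hu, hux⟩

/-- PROOF. The digits `< rk s n` of `u` and `u'` are the same. -/
theorem xv_inj (s : List ℤ) {u u' : ℕ} (hu : u < 2 ^ rk s n) (hu' : u' < 2 ^ rk s n)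
    (h : fv n (xv n s u) = fv n (xv n s u')) : u = u' := by
  exact Q1d_inj s hu hu' h

end Pool.Agent.MPa9445a.GL
end
end
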