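import Pool.Agent.Lib.MP_a9445a_lc.Mg.G126
import Pool.Agent.Lib.MP_a9445a_lc.Mg.G125

section

/-! The running time of an attempt. -/

set_option autoImplicit false

open Finset

namespace Pool.Agent.MPa9445a.GL

open Pool.Agent.MPa9445a.BE (Ty Env vs one Bd NL DL tb flt gt bit Phi vec code lin argmax Bd.const
  Bd.add Bd.mul Bd.le Bd.up Bd.var Bd.self)
open Pool.Agent.MPa9445a.GD
open Pool.Agent.MPa9445a.SN (kb)

/-- The sets of the first loop. -/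
def dF1 : Df := fun n R o _ r _ κ => dk n r (rc n R (o + bl n) κ)

/-- The sets of the second loop. -/
def dF2 : Df := fun n R o s _ j κ => dw n R (o + 2 * bl n) s j (wc n s j (κ / Rn n)) (κ % Rn n)

theorem hdF1 : HF dF1 := fun _ _ _ _ _ _ _ hx hκ =>
  c_dk hx.n hx.bn hx.r (c_rc hx.n hx.bn hx.R (PN.add hx.o (c_bl hx.n)) hκ)

theorem hdF2 : HF dF2 := fun _ _ _ _ _ _ _ hx hκ =>
  c_dw hx.n hx.bn hx.R (PN.add hx.o (PN.mul (PN.const 2) (c_bl hx.n))) hx.s hx.j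
    (c_wc hx.n hx.bn hx.s hx.j (PN.div hκ (c_Rn hx.n))) (PN.mod hκ (c_Rn hx.n))

/-- The parameters of an attempt. -/
structure Qm where
  n : ℕ
  M : List ℤ
  R : List ℤ
  o : ℕ
  s : List ℤ
  p : ℤ
  b : ℕ
  t : ℤ
  x : ℕ
  i : ℕ
  e : ℕ
  j : ℕ

structure QP {A : Type} (N : A → ℕ) (D : A → Prop) {Γ : List Ty} (ρ : A → Env Γ) (z : A → Qm) :
    Prop where
  n : PN N D ρ (fun a => (z a).n)
  bn : Bd N D (fun a => (z a).n)
  M : PA N D ρ (fun a => (z a).M)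
  R : PA N D ρ (fun a => (z a).R)
  o : PN N D ρ (fun a => (z a).o)
  s : PA N D ρ (fun a => (z a).s)
  p : PI N D ρ (fun a => (z a).p)
  b : PN N D ρ (fun a => (z a).b)
  bb : Bd N D (fun a => (z a).b)
  t : PI N D ρ (fun a => (z a).t)
  x : PN N D ρ (fun a => (z a).x)
  i : PN N D ρ (fun a => (z a).i)
  e : PN N D ρ (fun a => (z a).e)
  be : Bd N D (fun a => (z a).e)
  j : PN N D ρ (fun a => (z a).j)
  bj : Bd N D (fun a => (z a).j)

section

variable {A : Type} {N : A → ℕ} {D : A → Prop} {Γ : List Ty} {ρ : A → Env Γ} {x : A → Qm}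

theorem QP.dom (h : QP N D ρ x) {D' : A → Prop} (hD : ∀ a, D' a → D a) : QP N D' ρ x :=
  ⟨Cp.dom h.n hD, Bd.dom' h.bn hD, Cp.dom h.M hD, Cp.dom h.R hD, Cp.dom h.o hD, Cp.dom h.s hD,
    Cp.dom h.p hD, Cp.dom h.b hD, Bd.dom' h.bb hD, Cp.dom h.t hD, Cp.dom h.x hD, Cp.dom h.i hD,
    Cp.dom h.e hD, Bd.dom' h.be hD, Cp.dom h.j hD, Bd.dom' h.bj hD⟩

theorem QP.ke (h : QP N D ρ x) {Γ' : List Ty} {ρ' : A → Env Γ'} (k : Ke N D ρ ρ') :
    QP N D ρ' x :=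
  ⟨k.n h.n, h.bn, k.a h.M, k.a h.R, k.n h.o, k.a h.s, k.i h.p, k.n h.b, h.bb, k.i h.t, k.n h.x,
    k.n h.i, k.n h.e, h.be, k.n h.j, h.bj⟩

theorem QP.up (h : QP N D ρ x) {k : A → ℕ} {Γ' : List Ty} {ρ' : A × ℕ → Env Γ'}
    (u : Up N D ρ k ρ') : QP (NL N) (DL D k) ρ' (fun p => x p.1) :=
  ⟨u.n h.n, h.bn.up _, u.a h.M, u.a h.R, u.n h.o, u.a h.s, u.i h.p, u.n h.b, h.bb.up _, u.i h.t,
    u.n h.x, u.n h.i, u.n h.e, h.be.up _, u.n h.j, h.bj.up _⟩

end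

def Qm.a (q : Qm) : At := ⟨q.t, q.x, q.i, q.e, q.j⟩

def Qm.ys (q : Qm) : List ℤ := YS q.n q.M q.R q.o q.s q.b q.t

def Qm.r (q : Qm) : List ℤ := rL q.n q.M q.R q.o q.s q.b q.a

def Qm.pY (q : Qm) : Pm := ⟨q.n, q.M, q.R, q.o, q.s, q.r, q.j, q.t, q.t, q.b, 2 ^ q.e⟩

def Qm.pH (q : Qm) : Pm :=
  ⟨q.n, q.M, q.R, q.o, q.s, q.r, q.j, (q.p + q.t) / 2, q.p, q.b, 2 ^ rk q.s q.j * Rn q.n⟩

def Qm.Y (E : Pf) (q : Qm) : List ℤ := q.pY.run E dF1

def Qm.H (E : Pf) (q : Qm) : List ℤ := q.pH.run E dF2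

def Qm.Z (E : Pf) (q : Qm) : List ℤ := ZZ q.n q.R q.o q.s (q.Y E) q.j

abbrev Qm.cond (q : Qm) : Prop :=
  q.x < q.ys.length ∧ (q.p + q.t) % 2 = 0 ∧ q.e ≤ q.b ∧ q.j ≤ q.n ∧ rk q.s q.j ≤ q.b ∧
    rk q.s q.n - rk q.s q.j ≤ q.b

def Qm.att (E : Pf) (q : Qm) : List ℤ :=
  GL.att (E q.n q.M q.R) q.n q.M q.R q.o q.s q.p q.b q.a

theorem Qm.att_eq (E : Pf) (q : Qm) : q.att E =
    if q.cond then
      if (q.Y E).length = 0 then [] else
      if (dd q.n (q.Z E)).length = 2 ^ (rk q.s q.n - rk q.s q.j) then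
        if (q.H E).length = 0 then [] else 1 :: dd q.n (tl (q.H E))
      else []
    else [] := rfl

variable {A : Type} {N : A → ℕ} {D : A → Prop} {Γ : List Ty} {ρ : A → Env Γ}

private theorem W4_one (b : ℕ) : (1 : ℝ) ≤ (2 : ℝ) ^ b := one_le_pow₀ (by norm_num)

theorem c_ys {x : A → Qm} (hx : QP N D ρ x) :
    Cp N D ρ (fun _ a => (2 : ℝ) ^ (x a).b) .arr (fun a => (x a).ys) := by
  have h := Cp.filter (q := fun a κ => Phi (x a).n (x a).M (sv (x a).n (x a).s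
    (rc (x a).n (x a).R (x a).o κ)) = (x a).t) (PN.pow2 hx.b hx.bb) fun Γ1 ρ1 up hv => by
      have h1 := hx.up up
      exact PB.eq (PI.Phi h1.n h1.bn h1.M (c_sv h1.n h1.bn h1.s
        (c_rc h1.n h1.bn h1.R h1.o hv))) h1.t
  refine h.mono_poly 1 fun a _ τ _ => ?_
  have h3 := W4_one (x a).b
  have h4 : (0 : ℝ) ≤ N a := Nat.cast_nonneg _
  refine ⟨h3, ?_⟩
  push_cast
  nlinarith

/-- The weight of the first loop. -/
theorem c_Y {E : Pf} (hE : HE E) {x : A → Qm} (hx : QP N D ρ x)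
    (hr : PA N D ρ (fun a => (x a).r)) (he : ∀ a, D a → (x a).e ≤ (x a).b) :
    Cp N D ρ (fun _ a => (2 : ℝ) ^ (x a).b) .arr (fun a => (x a).Y E) := by
  have hP : PP N D ρ (fun a => (x a).pY) :=
    ⟨hx.n, hx.bn, hx.M, hx.R, hx.o, hx.s, hr, hx.j, hx.t, hx.t, hx.b, hx.bb, PN.pow2 hx.e hx.be⟩
  obtain ⟨m, hm⟩ := bd_LL hx.bn
  refine (c_run hE hdF1 hP).mono_poly (m + 1) fun a ha τ _ => ⟨W4_one _, ?_⟩
  have h3 := W4_one (x a).b
  have h4 : (0 : ℝ) ≤ N a := Nat.cast_nonneg _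
  have h5 : (LL (x a).n : ℝ) ≤ ((N a : ℝ) + 2) ^ m := by exact_mod_cast hm a ha
  have h6 : (2 : ℝ) ^ (x a).e ≤ (2 : ℝ) ^ (x a).b := pow_le_pow_right₀ (by norm_num) (he a ha)
  have h7 : (1 : ℝ) ≤ ((N a : ℝ) + 2) ^ m := one_le_pow₀ (by linarith)
  show ((2 ^ (x a).e * LL (x a).n : ℕ) : ℝ) + (2 : ℝ) ^ (x a).b ≤ _
  push_cast
  have h8 : (2 : ℝ) ^ (x a).e * (LL (x a).n : ℝ) ≤ (2 : ℝ) ^ (x a).b * ((N a : ℝ) + 2) ^ m :=
    mul_le_mul h6 h5 (Nat.cast_nonneg _) (by positivity)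
  have h9 : (1 : ℝ) * (2 : ℝ) ^ (x a).b ≤ ((N a : ℝ) + 2) ^ m * (2 : ℝ) ^ (x a).b :=
    mul_le_mul_of_nonneg_right h7 (by positivity)
  have h10 : 0 ≤ (N a : ℝ) * (((N a : ℝ) + 2) ^ m * (2 : ℝ) ^ (x a).b) := by positivity
  rw [pow_succ]
  nlinarith

/-- The weight of the second loop. -/
theorem c_H {E : Pf} (hE : HE E) {x : A → Qm} (hx : QP N D ρ x)
    (hr : PA N D ρ (fun a => (x a).r)) (he : ∀ a, D a → rk (x a).s (x a).j ≤ (x a).b) :
    Cp N D ρ (fun _ a => (2 : ℝ) ^ (x a).b) .arr (fun a => (x a).H E) := by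
  have hP : PP N D ρ (fun a => (x a).pH) :=
    ⟨hx.n, hx.bn, hx.M, hx.R, hx.o, hx.s, hr, hx.j, PI.div (PI.add hx.p hx.t) (PI.const 2), hx.p,
      hx.b, hx.bb, PN.mul (PN.pow2 (c_rk hx.s hx.j hx.bj) (bd_rk hx.bj)) (c_Rn hx.n)⟩
  obtain ⟨m, hm⟩ := (bd_Rn hx.bn).mul (bd_LL hx.bn)
  refine (c_run hE hdF2 hP).mono_poly (m + 1) fun a ha τ _ => ⟨W4_one _, ?_⟩
  have h3 := W4_one (x a).b
  have h4 : (0 : ℝ) ≤ N a := Nat.cast_nonneg _
  have h5 : ((Rn (x a).n : ℝ) * (LL (x a).n : ℝ)) ≤ ((N a : ℝ) + 2) ^ m := by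
    exact_mod_cast hm a ha
  have h6 : (2 : ℝ) ^ rk (x a).s (x a).j ≤ (2 : ℝ) ^ (x a).b :=
    pow_le_pow_right₀ (by norm_num) (he a ha)
  have h7 : (1 : ℝ) ≤ ((N a : ℝ) + 2) ^ m := one_le_pow₀ (by linarith)
  show ((2 ^ rk (x a).s (x a).j * Rn (x a).n * LL (x a).n : ℕ) : ℝ) + (2 : ℝ) ^ (x a).b ≤ _
  push_cast
  rw [mul_assoc]
  have h8 : (2 : ℝ) ^ rk (x a).s (x a).j * ((Rn (x a).n : ℝ) * (LL (x a).n : ℝ)) ≤
      (2 : ℝ) ^ (x a).b * ((N a : ℝ) + 2) ^ m :=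
    mul_le_mul h6 h5 (by positivity) (by positivity)
  have h9 : (1 : ℝ) * (2 : ℝ) ^ (x a).b ≤ ((N a : ℝ) + 2) ^ m * (2 : ℝ) ^ (x a).b :=
    mul_le_mul_of_nonneg_right h7 (by positivity)
  have h10 : 0 ≤ (N a : ℝ) * (((N a : ℝ) + 2) ^ m * (2 : ℝ) ^ (x a).b) := by positivity
  rw [pow_succ]
  nlinarith

theorem Qm.length_Y (E : Pf) (q : Qm) : (q.Y E).length ≤ 1 + 2 ^ q.b :=
  length_run_le (q.pY.E E) q.n q.r (q.pY.d dF1) q.t q.b q.M (2 ^ q.e) q.t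

theorem Qm.length_H (E : Pf) (q : Qm) : (q.H E).length ≤ 1 + 2 ^ q.b :=
  length_run_le (q.pH.E E) q.n q.r (q.pH.d dF2) ((q.p + q.t) / 2) q.b q.M
    (2 ^ rk q.s q.j * Rn q.n) q.p

/-- The syndromes. -/
theorem c_Z {E : Pf} {x : A → Qm} (hx : QP N D ρ x) (hY : PA N D ρ (fun a => (x a).Y E)) :
    Cp N D ρ (fun _ a => (2 : ℝ) ^ (x a).b) .arr (fun a => (x a).Z E) := by
  have h := Cp.tab (w := one) (PN.mul (PN.sub (PN.len hY) (PN.const 1)) (c_Rn hx.n))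
    (fun _ _ _ _ => le_refl _)
    (f := fun a v => (sy (x a).n (x a).R ((x a).o + 2 * bl (x a).n) (x a).s (x a).j
      (gt ((x a).Y E) (1 + v / Rn (x a).n)).toNat (v % Rn (x a).n) : ℤ)) fun Γ1 ρ1 up hv => by
        have h1 := hx.up up
        exact c_sy h1.n h1.bn h1.R (PN.add h1.o (PN.mul (PN.const 2) (c_bl h1.n))) h1.s h1.j
          (PN.toNat (PI.get (up.a hY) (PN.add (PN.const 1) (PN.div hv (c_Rn h1.n)))))
          (PN.mod hv (c_Rn h1.n))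
  obtain ⟨m, hm⟩ := bd_Rn hx.bn
  refine h.mono_poly (m + 1) fun a ha τ _ => ⟨W4_one _, ?_⟩
  have h3 := W4_one (x a).b
  have h4 : (0 : ℝ) ≤ N a := Nat.cast_nonneg _
  have h5 : (Rn (x a).n : ℝ) ≤ ((N a : ℝ) + 2) ^ m := by exact_mod_cast hm a ha
  have h6 : ((x a).Y E).length - 1 ≤ 2 ^ (x a).b :=
    Nat.sub_le_iff_le_add'.2 (Qm.length_Y E (x a))
  have h7 : ((((x a).Y E).length - 1 : ℕ) : ℝ) ≤ (2 : ℝ) ^ (x a).b := by exact_mod_cast h6
  have h8 : (1 : ℝ) ≤ ((N a : ℝ) + 2) ^ m := one_le_pow₀ (by linarith)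
  have h9 : ((((x a).Y E).length - 1 : ℕ) : ℝ) * (Rn (x a).n : ℝ) ≤
      (2 : ℝ) ^ (x a).b * ((N a : ℝ) + 2) ^ m :=
    mul_le_mul h7 h5 (Nat.cast_nonneg _) (by positivity)
  have h10 : (1 : ℝ) ≤ ((N a : ℝ) + 2) ^ m * (2 : ℝ) ^ (x a).b :=
    one_le_mul_of_one_le_of_one_le h8 h3
  have h11 : 0 ≤ (N a : ℝ) * (((N a : ℝ) + 2) ^ m * (2 : ℝ) ^ (x a).b) := by positivity
  rw [one, mul_one, pow_succ]
  rw [Nat.cast_mul]
  nlinarith

/-- The sorted list without duplicates. -/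
theorem c_dd {x : A → Qm} {L : A → List ℤ} (hx : QP N D ρ x) (hL : PA N D ρ L)
    (hl : ∃ m : ℕ, ∀ a, D a → ((L a).length : ℝ) ≤ ((N a : ℝ) + 2) ^ m * (2 : ℝ) ^ (x a).b) :
    Cp N D ρ (fun _ a => (2 : ℝ) ^ (x a).b) .arr (fun a => dd (x a).n (L a)) := by
  obtain ⟨m, hm⟩ := hl
  refine (Cp.dd hx.n hx.bn hL).mono_poly (m + 1) fun a ha τ _ => ⟨W4_one _, ?_⟩
  have h3 := W4_one (x a).b
  have h4 : (0 : ℝ) ≤ N a := Nat.cast_nonneg _
  have h5 := hm a ha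
  have h8 : (1 : ℝ) ≤ ((N a : ℝ) + 2) ^ m := one_le_pow₀ (by linarith)
  have h10 : (1 : ℝ) ≤ ((N a : ℝ) + 2) ^ m * (2 : ℝ) ^ (x a).b :=
    one_le_mul_of_one_le_of_one_le h8 h3
  have h11 : 0 ≤ (N a : ℝ) * (((N a : ℝ) + 2) ^ m * (2 : ℝ) ^ (x a).b) := by positivity
  rw [pow_succ]
  nlinarith

end Pool.Agent.MPa9445a.GL
end

section

section

/-! Brute force, and the vectors of a pair of lists. -/

set_option autoImplicit false

open Finset
open scoped symmDiff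

namespace Pool.Agent.MPa9445a.GL

open Pool.Agent.MPa9445a.BE
open Pool.Agent.MPa9445a.SN (ST Fm rs kb)

variable {n : ℕ}

private theorem Q2_tb (L : List ℤ) (g : ℤ → ℤ) : tb L.length (fun i => g (gt L i)) = L.map g := by
  apply List.ext_getElem
  · simp [tb]
  · intro i h1 h2
    have h3 : i < L.length := by simpa using h2
    simp only [tb, List.getElem_map, List.getElem_range, gt]
    rw [List.getD_eq_getElem _ _ h3]

private theorem Q2_mem {k : ℕ} {q : ℕ → Prop} [DecidablePred q] {f : ℕ → ℤ} {c : ℤ} :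
    c ∈ (flt k q).map (fun x => f x.toNat) ↔ ∃ i < k, q i ∧ f i = c := by
  unfold flt
  simp only [List.mem_map, List.mem_filter, List.mem_range, decide_eq_true_eq]
  constructor
  · rintro ⟨x, ⟨i, ⟨h1, h2⟩, h3⟩, h4⟩
    refine ⟨i, h1, h2, ?_⟩
    rw [← h4, ← h3, Int.toNat_natCast]
  · rintro ⟨i, h1, h2, h3⟩
    refine ⟨(i : ℤ), ⟨i, ⟨h1, h2⟩, rfl⟩, ?_⟩
    rw [Int.toNat_natCast]
    exact h3

private theorem Q2_flt_nodup (k : ℕ) (q : ℕ → Prop) [DecidablePred q] : (flt k q).Nodup := by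
  unfold flt
  exact (List.nodup_range.filter _).map Nat.cast_injective

/-- Brute force. PROOF. `Phi_Ph`, `xv_mem`, `xv_surj`, `xv_inj`, `cdv_inj`, `code_cdv`; the elements of `flt` are
different. -/
theorem br_cpl (M s : List ℤ) (p : ℤ) : Cpl (br n M s p) (Lv (wtm n M) (fv n s) p) := by
  have e : br n M s p = (flt (2 ^ rk s n) fun u => Phi n M (xv n s u) = p).map
      (fun x => ((fun i : ℕ => (code n (xv n s i) : ℤ)) x.toNat)) :=
    Q2_tb _ (fun x => (code n (xv n s x.toNat) : ℤ))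
  have inj : ∀ i < 2 ^ rk s n, ∀ j < 2 ^ rk s n,
      (code n (xv n s i) : ℤ) = (code n (xv n s j) : ℤ) → i = j := by
    intro i hi j hj h
    rw [code_cdv, code_cdv] at h
    exact xv_inj s hi hj (cdv_inj (xv_mem s i) (xv_mem s j) h)
  constructor
  · rw [e]
    refine List.Nodup.map_on ?_ (Q2_flt_nodup _ _)
    intro x hx y hy h
    unfold flt at hx hy
    simp only [List.mem_map, List.mem_filter, List.mem_range, decide_eq_true_eq] at hx hy
    obtain ⟨i, ⟨h1, -⟩, rfl⟩ := hx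
    obtain ⟨j, ⟨h2, -⟩, rfl⟩ := hy
    simp only [Int.toNat_natCast] at h
    rw [inj i h1 j h2 h]
  · intro c
    rw [e]
    refine (Q2_mem (f := fun i => (code n (xv n s i) : ℤ))).trans ?_
    constructor
    · rintro ⟨i, h1, h2, h3⟩
      refine ⟨fv n (xv n s i), Finset.mem_filter.2 ⟨xv_mem s i, ?_⟩, ?_⟩
      · rw [← Phi_Ph]; exact h2
      · rw [← code_cdv]; exact h3
    · rintro ⟨x, hx, rfl⟩
      obtain ⟨hx1, hx2⟩ := Finset.mem_filter.1 hx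
      obtain ⟨u, hu, rfl⟩ := xv_surj s hx1
      refine ⟨u, hu, ?_, ?_⟩
      · rw [Phi_Ph]; exact hx2
      · rw [code_cdv]

/-- PROOF. `L` is the image of `P` under the injection `cdv` (`cdv_inj`; `Lv` is a part of `S`). -/
theorem Cpl.length {W : Matrix (Fin n) (Fin n) ℤ} {s : Vc n} {p : ℤ} {L : List ℤ}
    (h : Cpl L (Lv W s p)) : L.length = (Lv W s p).card := by
  have hi : Set.InjOn (cdv (n := n)) (Lv W s p : Set (Vc n)) := by
    intro x hx y hy hxy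
    exact cdv_inj (Finset.mem_filter.1 hx).1 (Finset.mem_filter.1 hy).1 hxy
  rw [← List.toFinset_card_of_nodup h.1, ← Finset.card_image_of_injOn hi]
  congr 1
  ext c
  rw [List.mem_toFinset, h.2 c, Finset.mem_image]

/-- The composed vectors of two lists. PROOF. The index `x < #A * #B` runs through all pairs (`x / #B`, `x % #B`);
`gt (1 :: LA) (1 + i)` is the `i`-th entry of `LA`; `sv_cdv`, `fv_lin`, `Phi_Ph`, `code_cdv`. -/
theorem mem_jn {M l r LA LB : List ℤ} {a b p : ℤ} (hA : Cpl LA (Lv (wtm n M) (fv n l) a))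
    (hB : Cpl LB (Lv (wtm n M) (fv n r) b)) (c : ℤ) :
    c ∈ jn n M l r (1 :: LA) (1 :: LB) p ↔ ∃ u ∈ Lv (wtm n M) (fv n l) a,
      ∃ v ∈ Lv (wtm n M) (fv n r) b, Ph (wtm n M) (u + v) = p ∧ cdv (u + v) = c := by
  have hj : jn n M l r (1 :: LA) (1 :: LB) p = (ix n M l r (1 :: LA) (1 :: LB) p).map
      (fun x => ((fun i : ℕ => (code n (xy n l r (1 :: LA) (1 :: LB) i) : ℤ)) x.toNat)) :=
    Q2_tb _ (fun x => (code n (xy n l r (1 :: LA) (1 :: LB) x.toNat) : ℤ))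
  have key : ∀ i j : ℕ, ∀ hi : i < LA.length, ∀ hj : j < LB.length, ∀ u ∈ Lv (wtm n M) (fv n l) a,
      ∀ v ∈ Lv (wtm n M) (fv n r) b, cdv u = LA[i] → cdv v = LB[j] → ∀ x : ℕ,
      x / LB.length = i → x % LB.length = j → fv n (xy n l r (1 :: LA) (1 :: LB) x) = u + v := by
    intro i j hi hj u hu v hv h1 h2 x hx1 hx2
    have e1 : gt (1 :: LA) (1 + i) = LA[i] := by
      rw [gt, add_comm, List.getD_cons_succ, List.getD_eq_getElem _ _ hi]
    have e2 : gt (1 :: LB) (1 + j) = LB[j] := by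
      rw [gt, add_comm, List.getD_cons_succ, List.getD_eq_getElem _ _ hj]
    unfold xy
    have e3 : (1 :: LB).length - 1 = LB.length := by simp
    rw [e3, hx1, hx2, e1, e2, ← h1, ← h2, fv_lin, sv_cdv l (Finset.mem_filter.1 hu).1,
      sv_cdv r (Finset.mem_filter.1 hv).1]
    funext w
    simp
  have hlen : ((1 :: LA).length - 1) * ((1 :: LB).length - 1) = LA.length * LB.length := by simp
  rw [hj, ix, hlen]
  refine (Q2_mem (f := fun i => (code n (xy n l r (1 :: LA) (1 :: LB) i) : ℤ))).trans ?_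
  constructor
  · rintro ⟨x, h1, h2, h3⟩
    have hB0 : 0 < LB.length := by
      rcases Nat.eq_zero_or_pos LB.length with h0 | h0
      · rw [h0, mul_zero] at h1; omega
      · exact h0
    have hi : x / LB.length < LA.length := Nat.div_lt_of_lt_mul (by rw [mul_comm]; exact h1)
    have hj' : x % LB.length < LB.length := Nat.mod_lt _ hB0
    obtain ⟨u, hu, hu'⟩ := (hA.2 _).1 (List.getElem_mem hi)
    obtain ⟨v, hv, hv'⟩ := (hB.2 _).1 (List.getElem_mem hj')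
    have hk := key _ _ hi hj' u hu v hv hu' hv' x rfl rfl
    refine ⟨u, hu, v, hv, ?_, ?_⟩
    · rw [← hk, ← Phi_Ph]; exact h2
    · rw [← hk, ← code_cdv]; exact h3
  · rintro ⟨u, hu, v, hv, h1, h2⟩
    obtain ⟨i, hi, hi'⟩ := List.getElem_of_mem ((hA.2 _).2 ⟨u, hu, rfl⟩)
    obtain ⟨j, hj', hj''⟩ := List.getElem_of_mem ((hB.2 _).2 ⟨v, hv, rfl⟩)
    have hx1 : (i * LB.length + j) / LB.length = i := by
      rw [mul_comm, Nat.mul_add_div (by omega), Nat.div_eq_of_lt hj', add_zero]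
    have hx2 : (i * LB.length + j) % LB.length = j := by
      rw [mul_comm, Nat.mul_add_mod, Nat.mod_eq_of_lt hj']
    have hk := key i j hi hj' u hu v hv hi'.symm hj''.symm _ hx1 hx2
    refine ⟨i * LB.length + j, ?_, ?_, ?_⟩
    · calc i * LB.length + j < i * LB.length + LB.length := by omega
        _ = (i + 1) * LB.length := by ring
        _ ≤ LA.length * LB.length := Nat.mul_le_mul_right _ hi
    · rw [Phi_Ph, hk]; exact h1
    · rw [code_cdv, hk]; exact h2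

end Pool.Agent.MPa9445a.GL
end

section

/-! The running time of an attempt, end. -/

set_option autoImplicit false

open Finset

namespace Pool.Agent.MPa9445a.GL

open Pool.Agent.MPa9445a.BE (Ty Env vs one Bd NL DL tb flt gt bit Phi vec code lin argmax Bd.const
  Bd.add Bd.mul Bd.le Bd.up Bd.var Bd.self)
open Pool.Agent.MPa9445a.GD
open Pool.Agent.MPa9445a.SN (kb)

variable {A : Type} {N : A → ℕ} {D : A → Prop} {Γ : List Ty} {ρ : A → Env Γ}

private theorem W5_one (b : ℕ) : (1 : ℝ) ≤ (2 : ℝ) ^ b := one_le_pow₀ (by norm_num)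

private theorem W5_nil (x : A → Qm) : Cp N D ρ (fun _ a => (2 : ℝ) ^ (x a).b) .arr (fun _ => []) :=
  PA.nil.lift fun _ _ _ _ => W5_one _

theorem Qm.length_dd (E : Pf) (q : Qm) : (dd q.n (tl (q.H E))).length ≤ 2 ^ q.b := by
  refine (length_dd_le _ _).trans ?_
  rw [length_tl]
  exact Nat.sub_le_iff_le_add'.2 (Qm.length_H E q)

/-- The final list. -/
theorem c_fin {E : Pf} {x : A → Qm} (hx : QP N D ρ x) (hH : PA N D ρ (fun a => (x a).H E)) :
    Cp N D ρ (fun _ a => (2 : ℝ) ^ (x a).b) .arr (fun a => 1 :: dd (x a).n (tl ((x a).H E))) := by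
  have hT : Cp N D ρ (fun _ a => (2 : ℝ) ^ (x a).b) .arr (fun a => tl ((x a).H E)) := by
    refine (c_tl hH).mono_poly 2 fun a _ τ _ => ⟨W5_one _, ?_⟩
    have h1 : (((x a).H E).length : ℝ) ≤ 1 + (2 : ℝ) ^ (x a).b := by
      exact_mod_cast Qm.length_H E (x a)
    have h3 := W5_one (x a).b
    have h4 : (0 : ℝ) ≤ N a := Nat.cast_nonneg _
    have h6 : (4 : ℝ) ≤ ((N a : ℝ) + 2) ^ 2 := by nlinarith
    have h7 := mul_le_mul_of_nonneg_right h6 (zero_le_one.trans h3)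
    linarith
  refine hT.store fun Γ1 ρ1 k1 hT1 => ?_
  have hx1 := hx.ke k1
  have hd := c_dd hx1 hT1 ⟨0, fun a _ => by
    rw [pow_zero, one_mul, length_tl]
    have h1 : ((x a).H E).length - 1 ≤ 2 ^ (x a).b :=
      Nat.sub_le_iff_le_add'.2 (Qm.length_H E (x a))
    exact_mod_cast h1⟩
  refine Cp.cons (PI.const 1) hd ⟨0, fun a _ τ _ => ?_⟩
  rw [pow_zero, one_mul]
  exact_mod_cast Qm.length_dd E (x a)

theorem c_att {E : Pf} (hE : HE E) {x : A → Qm} (hx : QP N D ρ x) :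
    Cp N D ρ (fun _ a => (2 : ℝ) ^ (x a).b) .arr (fun a => (x a).att E) := by
  refine (c_ys hx).store fun Γ1 ρ1 k1 hys => ?_
  have hx1 := hx.ke k1
  have hr1 : PA N D ρ1 (fun a => (x a).r) :=
    c_prL hx1.n hx1.bn hx1.s (c_sv hx1.n hx1.bn hx1.s (c_rc hx1.n hx1.bn hx1.R hx1.o
      (PN.toNat (PI.get hys hx1.x)))) hx1.i
  have hkj := c_rk hx1.s hx1.j hx1.bj
  have hkn := c_rk hx1.s hx1.n hx1.bn
  have hdi := PN.sub hkn hkj
  have hq : GD.PB N D ρ1 (fun a => (x a).cond) :=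
    PB.and (PB.ltN hx1.x (PN.len hys)) (PB.and
      (PB.eq (PI.mod (PI.add hx1.p hx1.t) (PI.const 2)) (PI.const 0)) (PB.and
      (PB.leN hx1.e hx1.b) (PB.and (PB.leN hx1.j hx1.n) (PB.and (PB.leN hkj hx1.b)
      (PB.leN hdi hx1.b)))))
  have hD : ∀ a, (D a ∧ (x a).cond) → D a := fun a h => h.1
  have hx2 := hx1.dom hD
  have h1 : Cp N (fun a => D a ∧ (x a).cond) ρ1 (fun _ a => (2 : ℝ) ^ (x a).b) .arr (fun a =>
      if ((x a).Y E).length = 0 then [] else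
      if (dd (x a).n ((x a).Z E)).length = 2 ^ (rk (x a).s (x a).n - rk (x a).s (x a).j) then
        if ((x a).H E).length = 0 then [] else 1 :: dd (x a).n (tl ((x a).H E))
      else []) := by
    refine (c_Y hE hx2 (Cp.dom hr1 hD) fun a h => h.2.2.2.1).store fun Γ2 ρ2 k2 hY => ?_
    have hx3 := hx2.ke k2
    have hr3 := k2.a (Cp.dom hr1 hD)
    have h2 : Cp N (fun a => D a ∧ (x a).cond) ρ2 (fun _ a => (2 : ℝ) ^ (x a).b) .arr (fun a =>
        if (dd (x a).n ((x a).Z E)).length = 2 ^ (rk (x a).s (x a).n - rk (x a).s (x a).j) then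
          if ((x a).H E).length = 0 then [] else 1 :: dd (x a).n (tl ((x a).H E))
        else []) := by
      refine (c_Z hx3 hY).store fun Γ3 ρ3 k3 hZ => ?_
      have hx4 := hx3.ke k3
      have hdd := c_dd hx4 hZ (by
        obtain ⟨m, hm⟩ := bd_Rn hx3.bn
        refine ⟨m, fun a ha => ?_⟩
        have h5 : (Rn (x a).n : ℝ) ≤ ((N a : ℝ) + 2) ^ m := by exact_mod_cast hm a ha
        have h6 : ((x a).Y E).length - 1 ≤ 2 ^ (x a).b :=
          Nat.sub_le_iff_le_add'.2 (Qm.length_Y E (x a))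
        have h7 : ((((x a).Y E).length - 1 : ℕ) : ℝ) ≤ (2 : ℝ) ^ (x a).b := by exact_mod_cast h6
        have h8 : ((x a).Z E).length = (((x a).Y E).length - 1) * Rn (x a).n := length_tb _ _
        have h9 : (0 : ℝ) ≤ N a := Nat.cast_nonneg _
        rw [h8, Nat.cast_mul, mul_comm]
        exact mul_le_mul h5 h7 (Nat.cast_nonneg _) (by positivity))
      refine hdd.store fun Γ4 ρ4 k4 hdd4 => ?_
      have hx5 := hx4.ke k4
      have hr5 := k4.a (k3.a hr3)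
      have hdi5 := k4.n (k3.n (k2.n (Cp.dom hdi hD)))
      have bdi : Bd N (fun a => D a ∧ (x a).cond)
          (fun a => rk (x a).s (x a).n - rk (x a).s (x a).j) :=
        (bd_rk hx2.bn).le fun a _ => Nat.sub_le _ _
      have hq2 := PB.eqN (PN.len hdd4) (PN.pow2 hdi5 bdi)
      have h3 : Cp N (fun a => D a ∧ (x a).cond) ρ4 (fun _ a => (2 : ℝ) ^ (x a).b) .arr (fun a =>
          if ((x a).H E).length = 0 then [] else 1 :: dd (x a).n (tl ((x a).H E))) := by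
        refine (c_H hE hx5 hr5 fun a h => h.2.2.2.2.2.1).store fun Γ5 ρ5 k5 hH => ?_
        have hx6 := hx5.ke k5
        refine (Cp.iteA (PB.eqN (PN.len hH) (PN.const 0)) (Cp.dom (W5_nil x) fun a h => h.1)
          (Cp.dom (c_fin hx6 hH) fun a h => h.1)).mono fun a _ τ _ => ?_
        split_ifs <;> exact le_rfl
      refine (Cp.iteA hq2 (Cp.dom h3 fun a h => h.1) (Cp.dom (W5_nil x) fun a h => h.1)).mono
        fun a _ τ _ => ?_
      split_ifs <;> exact le_rfl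
    refine (Cp.iteA (PB.eqN (PN.len hY) (PN.const 0)) (Cp.dom (W5_nil x) fun a h => h.1)
      (Cp.dom h2 fun a h => h.1)).mono fun a _ τ _ => ?_
    split_ifs <;> exact le_rfl
  refine ((Cp.iteA hq h1 (Cp.dom (W5_nil x) fun a h => h.1)).mono fun a _ τ _ => ?_).congr
    fun a _ => (Qm.att_eq E (x a)).symm
  split_ifs <;> exact le_rfl

/-- The attempt is not longer than `1 + 2 ^ b`. -/
theorem Qm.length_att (E : Pf) (q : Qm) : (q.att E).length ≤ 1 + 2 ^ q.b := by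
  rw [Qm.att_eq]
  split_ifs
  · simp
  · simp
  · rw [List.length_cons, add_comm]
    exact Nat.add_le_add_left (Qm.length_dd E q) 1
  · simp
  · simp

end Pool.Agent.MPa9445a.GL
end
end
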