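import Pool.Agent.Lib.MP_a9445a_lc.Mg.G123
import Pool.Agent.Lib.MP_a9445a_lc.Mg.G119
import Pool.Agent.Lib.MP_a9445a_lc.Mg.G113

section

/-! Radix sort and removal of duplicates. -/

set_option autoImplicit false

open Finset

namespace Pool.Agent.MPa9445a.GD

open Pool.Agent.MPa9445a.BE

/-- One pass of the radix sort: first the entries with digit `0` at the place `j`, then those with digit `1`. -/
def rpass (j : ℕ) (s : List ℤ) : List ℤ :=
  (s.filter fun x => decide (bit x.toNat j = 0)) ++ s.filter fun x => decide (bit x.toNat j = 1)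

/-- Radix sort of numbers `< 2 ^ n`. -/
def srt (n : ℕ) (L : List ℤ) : List ℤ := itr rpass L n

/-- Removal of the entries which are equal to their predecessor. -/
def ddp (L : List ℤ) : List ℤ :=
  (flt L.length fun i => i = 0 ∨ gt L (i - 1) ≠ gt L i).map fun z => gt L z.toNat

/-- Sort, and remove duplicates. -/
def dd (n : ℕ) (L : List ℤ) : List ℤ := ddp (srt n L)

private theorem X6_bit (c i : ℕ) : bit c i = 0 ∨ bit c i = 1 := by
  unfold bit
  omega

theorem rpass_perm (j : ℕ) (s : List ℤ) : (rpass j s).Perm s := by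
  unfold rpass
  induction s with
  | nil => exact List.Perm.refl _
  | cons x s ih =>
    rcases X6_bit x.toNat j with h | h
    · have h1 : ¬ bit x.toNat j = 1 := by omega
      rw [List.filter_cons_of_pos (by simpa using h), List.filter_cons_of_neg (by simpa using h1),
        List.cons_append]
      exact ih.cons x
    · have h1 : ¬ bit x.toNat j = 0 := by omega
      rw [List.filter_cons_of_neg (by simpa using h1), List.filter_cons_of_pos (by simpa using h)]
      exact List.perm_middle.trans (ih.cons x)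

theorem srt_perm (n : ℕ) (L : List ℤ) : (srt n L).Perm L := by
  unfold srt
  induction n with
  | zero => exact List.Perm.refl _
  | succ n ih => exact (rpass_perm n _).trans ih

private theorem X6_mod (x j : ℕ) : x % 2 ^ (j + 1) = x % 2 ^ j + 2 ^ j * bit x j := by
  unfold bit
  rw [pow_succ, Nat.mod_mul]

private theorem X6_rpass {j : ℕ} {s : List ℤ}
    (h : s.Pairwise fun x y => x.toNat % 2 ^ j ≤ y.toNat % 2 ^ j) :
    (rpass j s).Pairwise fun x y => x.toNat % 2 ^ (j + 1) ≤ y.toNat % 2 ^ (j + 1) := by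
  unfold rpass
  rw [List.pairwise_append]
  refine ⟨?_, ?_, ?_⟩
  · rw [List.pairwise_filter]
    refine h.imp fun {x y} h1 h2 h3 => ?_
    rw [decide_eq_true_eq] at h2 h3
    rw [X6_mod, X6_mod, h2, h3]
    omega
  · rw [List.pairwise_filter]
    refine h.imp fun {x y} h1 h2 h3 => ?_
    rw [decide_eq_true_eq] at h2 h3
    rw [X6_mod, X6_mod, h2, h3]
    omega
  · intro x hx y hy
    have h2 := of_decide_eq_true (List.mem_filter.1 hx).2
    have h3 := of_decide_eq_true (List.mem_filter.1 hy).2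
    rw [X6_mod, X6_mod, h2, h3]
    have h4 : x.toNat % 2 ^ j < 2 ^ j := Nat.mod_lt _ (by positivity)
    omega

theorem srt_sorted {n : ℕ} {L : List ℤ} (h : ∀ x ∈ L, 0 ≤ x ∧ x < 2 ^ n) :
    (srt n L).Pairwise (· ≤ ·) := by
  have h1 : ∀ m : ℕ, (srt m L).Pairwise fun x y => x.toNat % 2 ^ m ≤ y.toNat % 2 ^ m := by
    intro m
    induction m with
    | zero =>
      refine List.Pairwise.imp (R := fun _ _ => True) (fun {x y} _ => ?_) ?_
      · rw [pow_zero, Nat.mod_one, Nat.mod_one]
      · exact List.pairwise_of_forall fun _ _ => trivial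
    | succ m ih => exact X6_rpass ih
  refine (h1 n).imp_of_mem fun {x y} hx hy hxy => ?_
  obtain ⟨a1, a2⟩ := h x ((srt_perm n L).mem_iff.1 hx)
  obtain ⟨b1, b2⟩ := h y ((srt_perm n L).mem_iff.1 hy)
  have e1 : x.toNat < 2 ^ n := by zify; omega
  have e2 : y.toNat < 2 ^ n := by zify; omega
  rw [Nat.mod_eq_of_lt e1, Nat.mod_eq_of_lt e2] at hxy
  omega

theorem mem_ddp {L : List ℤ} {x : ℤ} : x ∈ ddp L ↔ x ∈ L := by
  constructor
  · intro h
    unfold ddp flt at h
    rw [List.mem_map] at h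
    obtain ⟨z, hz, rfl⟩ := h
    rw [List.mem_map] at hz
    obtain ⟨i, hi, rfl⟩ := hz
    rw [List.mem_filter, List.mem_range] at hi
    rw [Int.toNat_natCast]
    exact gt_mem hi.1
  · intro h
    have h1 : ∃ i, i < L.length ∧ gt L i = x := by
      obtain ⟨i, hi, he⟩ := mem_gt h
      exact ⟨i, hi, he⟩
    classical
    have h2 := Nat.find_spec h1
    have h3 : ∀ m < Nat.find h1, ¬ (m < L.length ∧ gt L m = x) := fun m hm => Nat.find_min h1 hm
    generalize Nat.find h1 = i at h2 h3
    unfold ddp flt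
    rw [List.mem_map]
    refine ⟨(i : ℤ), ?_, ?_⟩
    · rw [List.mem_map]
      refine ⟨i, ?_, rfl⟩
      rw [List.mem_filter, List.mem_range]
      refine ⟨h2.1, decide_eq_true ?_⟩
      rcases Nat.eq_zero_or_pos i with hi | hi
      · exact Or.inl hi
      · right
        intro h4
        refine h3 (i - 1) (by omega) ⟨by omega, ?_⟩
        rw [h4, h2.2]
    · rw [Int.toNat_natCast]
      exact h2.2

private theorem X6_le {L : List ℤ} (h : L.Pairwise (· ≤ ·)) {i j : ℕ} (hij : i ≤ j)
    (hj : j < L.length) : gt L i ≤ gt L j := by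
  rcases Nat.eq_or_lt_of_le hij with h1 | h1
  · rw [h1]
  · have h2 := List.pairwise_iff_getElem.1 h i j (by omega) hj h1
    rw [gt, gt, List.getD_eq_getElem _ _ hj, List.getD_eq_getElem _ _ (by omega)]
    exact h2

theorem nodup_ddp {L : List ℤ} (h : L.Pairwise (· ≤ ·)) : (ddp L).Nodup := by
  unfold ddp flt
  rw [List.map_map]
  refine List.Pairwise.imp (R := (· < ·)) (fun {a b} hab => ne_of_lt hab) ?_
  rw [List.pairwise_map]
  have h1 : ((List.range L.length).filter fun i =>
      decide (i = 0 ∨ gt L (i - 1) ≠ gt L i)).Pairwise (· < ·) :=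
    List.Pairwise.filter _ List.pairwise_lt_range
  refine h1.imp_of_mem fun {i j} hi hj hij => ?_
  rw [List.mem_filter, List.mem_range] at hi hj
  have h2 := of_decide_eq_true hj.2
  show gt L ((i : ℤ)).toNat < gt L ((j : ℤ)).toNat
  rw [Int.toNat_natCast, Int.toNat_natCast]
  rcases h2 with h2 | h2
  · omega
  · have h3 : gt L i ≤ gt L (j - 1) := X6_le h (by omega) (by omega)
    have h4 : gt L (j - 1) ≤ gt L j := X6_le h (by omega) hj.1
    omega

/-- The elements are the same. -/
theorem mem_dd {n : ℕ} {L : List ℤ} {x : ℤ} : x ∈ dd n L ↔ x ∈ L :=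
  mem_ddp.trans (srt_perm n L).mem_iff

/-- No duplicates. -/
theorem nodup_dd {n : ℕ} {L : List ℤ} (h : ∀ x ∈ L, 0 ≤ x ∧ x < 2 ^ n) : (dd n L).Nodup :=
  nodup_ddp (srt_sorted h)

theorem length_ddp_le (L : List ℤ) : (ddp L).length ≤ L.length := by
  unfold ddp flt
  rw [List.length_map, List.length_map]
  exact (List.length_filter_le _ _).trans (by rw [List.length_range])

theorem length_dd_le (n : ℕ) (L : List ℤ) : (dd n L).length ≤ L.length :=
  (length_ddp_le _).trans (srt_perm n L).length_eq.le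

end Pool.Agent.MPa9445a.GD
end

section

/-!
# The algorithm

States and vectors are arrays with `n` entries, lists of vectors are lists of codes. A procedure returns the empty
array for `FAIL`, otherwise the array `1 :: L` for the list `L`.
-/

set_option autoImplicit false

open Finset

namespace Pool.Agent.MPa9445a.GL

open Pool.Agent.MPa9445a.BE
open Pool.Agent.MPa9445a.GD (itr fm dd)
open Pool.Agent.MPa9445a.SN (kb)

/-- The number of free entries before `v`. -/
def rk (s : List ℤ) (v : ℕ) : ℕ := ∑ u ∈ range v, if gt s u = 2 then 1 else 0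

/-- The vector of the state `s` with code `c`. -/
def sv (n : ℕ) (s : List ℤ) (c : ℕ) : List ℤ := tb n fun v =>
  if gt s v = 2 then 2 * (bit c v : ℤ) - 1 else gt s v

/-- The vector of the state `s` with index `u`, `u < 2 ^ rk s n`. -/
def xv (n : ℕ) (s : List ℤ) (u : ℕ) : List ℤ := tb n fun v =>
  if gt s v = 2 then 2 * (bit u (rk s v) : ℤ) - 1 else gt s v

/-- The list of the codes of all vectors of the state `s` with value `p`. -/
def br (n : ℕ) (M s : List ℤ) (p : ℤ) : List ℤ :=
  tb (flt (2 ^ rk s n) fun u => Phi n M (xv n s u) = p).length fun i =>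
    (code n (xv n s (gt (flt (2 ^ rk s n) fun u => Phi n M (xv n s u) = p) i).toNat) : ℤ)

/-- The free entries `v < i` are fixed as in `x`. -/
def prL (n : ℕ) (s x : List ℤ) (i : ℕ) : List ℤ := tb n fun v =>
  if gt s v = 2 ∧ v < i then gt x v else gt s v

/-- The part `D` of the flipped state, `d` the code of `D`. -/
def laL (n : ℕ) (r : List ℤ) (d : ℕ) : List ℤ := tb n fun v =>
  if bit d v = 1 then (if gt r v = 2 then 2 else -gt r v) else 0

/-- The part outside `D`. -/
def rhL (n : ℕ) (r : List ℤ) (d : ℕ) : List ℤ := tb n fun v => if bit d v = 1 then 0 else gt r v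

/-- The number of random bits of one family. -/
def bl (n : ℕ) : ℕ := n * (kb n + 1)

/-- The number of random bits of one round: two families, the matrix, the shifts. -/
def RL (n : ℕ) : ℕ := 2 * bl n + n * n + Rn n * n

/-- The first bit of the round `z` of the depth `k + 1`. -/
def ofs (n k z : ℕ) : ℕ := (k * Zn n + z) * RL n

/-- The code of the random set with index `i` of the family whose first bit is `o`. -/
def rc (n : ℕ) (R : List ℤ) (o i : ℕ) : ℕ := ∑ v ∈ range n,
  ((gt R (o + v * (kb n + 1)) +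
    ∑ j ∈ range (kb n), gt R (o + v * (kb n + 1) + (j + 1)) * (bit i j : ℤ)) % 2).toNat * 2 ^ v

/-- The code of `D ∩ Fr r`, `c` the code of `D`. -/
def dk (n : ℕ) (r : List ℤ) (c : ℕ) : ℕ := ∑ v ∈ range n, if gt r v = 2 then bit c v * 2 ^ v else 0

/-- The code of the set of free vertices `v < j` with index `u`. -/
def wc (n : ℕ) (s : List ℤ) (j u : ℕ) : ℕ :=
  ∑ v ∈ range n, if gt s v = 2 ∧ v < j then bit u (rk s v) * 2 ^ v else 0

/-- The code of the set `Dw`, `o` the first bit of the matrix, `w` the code of the linear part below `j`. -/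
def dw (n : ℕ) (R : List ℤ) (o : ℕ) (s : List ℤ) (j w i : ℕ) : ℕ :=
  ∑ v ∈ range n, if gt s v = 2 then
    (((if v < j then (bit w v : ℤ) else ∑ u ∈ range n, gt R (o + v * n + u) * (bit w u : ℤ)) +
      gt R (o + n * n + i * n + v)) % 2).toNat * 2 ^ v else 0

/-- The syndrome of the vector with code `y` plus the shift `i`. -/
def sy (n : ℕ) (R : List ℤ) (o : ℕ) (s : List ℤ) (j y i : ℕ) : ℕ :=
  ∑ v ∈ range n, if gt s v = 2 ∧ j ≤ v then
    (((bit y v : ℤ) + gt R (o + n * n + i * n + v) +
      ∑ u ∈ range n, if gt s u = 2 ∧ u < j then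
        gt R (o + v * n + u) * ((bit y u : ℤ) + gt R (o + n * n + i * n + u)) else 0) % 2).toNat * 2 ^ v
    else 0

/-- The levels. -/
def lvv (n a : ℕ) : ℤ := (a : ℤ) - (n : ℤ) ^ 4

/-- The pair of answers `A`, `B` with the budget `2 ^ j` is sufficient. -/
def pok (A B : List ℤ) (j : ℕ) : Prop :=
  A.length = 1 ∨ B.length = 1 ∨
    (A.length ≠ 0 ∧ B.length ≠ 0 ∧ (A.length - 1) * (B.length - 1) ≤ 2 ^ j)

instance (A B : List ℤ) (j : ℕ) : Decidable (pok A B j) := by
  unfold pok
  infer_instance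

/-- A procedure: the answer for a state, a level and a budget exponent. -/
abbrev Pc : Type := List ℤ → ℤ → ℕ → List ℤ

variable (E : Pc)

/-- The state of the search before the pass `k`. -/
def sjs (l : List ℤ) (a : ℤ) (r : List ℤ) (b : ℤ) (c k : ℕ) : List ℤ :=
  itr (fun g z => if z.length ≠ 0 ∨ c < 2 ^ g then z else
    if pok (E l a g) (E r b g) g then [(g : ℤ)] else []) [] k

/-- The search for the least sufficient budget exponent of a pair of children within the budget `c`: `[]` or `[g]`. -/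
def sj (n : ℕ) (l : List ℤ) (a : ℤ) (r : List ℤ) (b : ℤ) (c : ℕ) : List ℤ := sjs E l a r b c (2 * n + 1)

/-- The search for the pair of children of the set `d κ` and the levels `a`, `q - a`, where `(κ, a)` has index `y`. -/
def sy1 (n : ℕ) (r : List ℤ) (d : ℕ → ℕ) (q : ℤ) (y c : ℕ) : List ℤ :=
  sj E n (laL n r (d (y / LL n))) (lvv n (y % LL n)) (rhL n r (d (y / LL n))) (q - lvv n (y % LL n)) c

/-- The level `b` is possible. -/
def inl (n : ℕ) (b : ℤ) : Prop := -(n : ℤ) ^ 4 ≤ b ∧ b ≤ (n : ℤ) ^ 4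

instance (n : ℕ) (b : ℤ) : Decidable (inl n b) := by
  unfold inl
  infer_instance

/-- The budget which remains after the passes `< k` of the loop over the sets `D` and the levels: `[]` if it is
exceeded, otherwise `[c]`. `q` is the sum of the levels of the children. -/
def rem (n : ℕ) (r : List ℤ) (d : ℕ → ℕ) (q : ℤ) (b k : ℕ) : List ℤ :=
  itr (fun y z => if z.length = 0 ∨ ¬ inl n (q - lvv n (y % LL n)) then z else
    if (sy1 E n r d q y (gt z 0).toNat).length = 0 then [] else
      [gt z 0 - 2 ^ (gt (sy1 E n r d q y (gt z 0).toNat) 0).toNat]) [2 ^ b] k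

/-- The vector composed of the vectors number `x / (B.length - 1)` of the list `1 :: A` and `x % (B.length - 1)` of
the list `1 :: B`. -/
def xy (n : ℕ) (l r A B : List ℤ) (x : ℕ) : List ℤ :=
  lin n 1 (sv n l (gt A (1 + x / (B.length - 1))).toNat) 1 (sv n r (gt B (1 + x % (B.length - 1))).toNat)

/-- The indices of the composed vectors of value `p`. -/
def ix (n : ℕ) (M l r A B : List ℤ) (p : ℤ) : List ℤ :=
  flt ((A.length - 1) * (B.length - 1)) fun x => Phi n M (xy n l r A B x) = p

/-- The codes of the composed vectors of value `p`. -/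
def jn (n : ℕ) (M l r A B : List ℤ) (p : ℤ) : List ℤ :=
  tb (ix n M l r A B p).length fun i =>
    (code n (xy n l r A B (gt (ix n M l r A B p) i).toNat) : ℤ)

/-- The vectors which are found with the set `d` and the level `a` of the first child. -/
def pj (n : ℕ) (M : List ℤ) (r : List ℤ) (d : ℕ) (a q p : ℤ) (b : ℕ) : List ℤ :=
  if inl n (q - a) then
    jn n M (laL n r d) (rhL n r d)
      (E (laL n r d) a (gt (sj E n (laL n r d) a (rhL n r d) (q - a) (2 ^ b)) 0).toNat)
      (E (rhL n r d) (q - a) (gt (sj E n (laL n r d) a (rhL n r d) (q - a) (2 ^ b)) 0).toNat) p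
  else []

/-- The loop over the sets `d κ`, `κ < K`, and the levels: `[]` if the budget is exceeded. -/
def run (n : ℕ) (M : List ℤ) (r : List ℤ) (K : ℕ) (d : ℕ → ℕ) (q p : ℤ) (b : ℕ) : List ℤ :=
  if (rem E n r d q b (K * LL n)).length = 0 then [] else
    1 :: fm (K * LL n) fun y => pj E n M r (d (y / LL n)) (lvv n (y % LL n)) q p b

/-- The array without its first entry. -/
def tl (l : List ℤ) : List ℤ := tb (l.length - 1) fun i => gt l (1 + i)

/-- The parameters of an attempt. -/
structure At where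
  t : ℤ
  x : ℕ
  i : ℕ
  e : ℕ
  j : ℕ

/-- The samples of value `t`, `o` the first bit of the round. -/
def YS (n : ℕ) (M R : List ℤ) (o : ℕ) (s : List ℤ) (b : ℕ) (t : ℤ) : List ℤ :=
  flt (2 ^ b) fun κ => Phi n M (sv n s (rc n R o κ)) = t

/-- The state `r` of the attempt. -/
def rL (n : ℕ) (M R : List ℤ) (o : ℕ) (s : List ℤ) (b : ℕ) (a : At) : List ℤ :=
  prL n s (sv n s (rc n R o (gt (YS n M R o s b a.t) a.x).toNat)) a.i

/-- The list `Y`. -/
def YY (n : ℕ) (M R : List ℤ) (o : ℕ) (r : List ℤ) (b : ℕ) (t : ℤ) (e : ℕ) : List ℤ :=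
  run E n M r (2 ^ e) (fun κ => dk n r (rc n R (o + bl n) κ)) t t b

/-- The syndromes of all elements of `1 :: Y` with all shifts. -/
def ZZ (n : ℕ) (R : List ℤ) (o : ℕ) (s Y : List ℤ) (j : ℕ) : List ℤ :=
  tb ((Y.length - 1) * Rn n) fun x =>
    (sy n R (o + 2 * bl n) s j (gt Y (1 + x / Rn n)).toNat (x % Rn n) : ℤ)

/-- The main list. -/
def HH (n : ℕ) (M R : List ℤ) (o : ℕ) (s r : List ℤ) (p : ℤ) (b : ℕ) (t : ℤ) (j : ℕ) : List ℤ :=
  run E n M r (2 ^ rk s j * Rn n)
    (fun κ => dw n R (o + 2 * bl n) s j (wc n s j (κ / Rn n)) (κ % Rn n)) ((p + t) / 2) p b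

/-- The attempt. -/
def att (n : ℕ) (M R : List ℤ) (o : ℕ) (s : List ℤ) (p : ℤ) (b : ℕ) (a : At) : List ℤ :=
  if a.x < (YS n M R o s b a.t).length ∧ (p + a.t) % 2 = 0 ∧ a.e ≤ b ∧ a.j ≤ n ∧ rk s a.j ≤ b ∧
      rk s n - rk s a.j ≤ b then
    if (YY E n M R o (rL n M R o s b a) b a.t a.e).length = 0 then [] else
    if (dd n (ZZ n R o s (YY E n M R o (rL n M R o s b a) b a.t a.e) a.j)).length =
        2 ^ (rk s n - rk s a.j) then
      if (HH E n M R o s (rL n M R o s b a) p b a.t a.j).length = 0 then [] else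
        1 :: dd n (tl (HH E n M R o s (rL n M R o s b a) p b a.t a.j))
    else []
  else []

/-- The base of the parameters. -/
def PB (n : ℕ) : ℕ := 2048 * (n + 1) ^ 4

/-- The digit `t` of the index `x` in base `PB n`. -/
def dg (n x t : ℕ) : ℕ := x / PB n ^ t % PB n

/-- The attempt with index `x` of the depth `k + 1`. -/
def atx (n : ℕ) (M R : List ℤ) (k : ℕ) (s : List ℤ) (p : ℤ) (b x : ℕ) : List ℤ :=
  att E n M R (ofs n k (min (dg n x 0) (Zn n - 1))) s p b
    ⟨lvv n (dg n x 1), dg n x 2, min (dg n x 3) n, dg n x 4, dg n x 5⟩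

/-- The procedure of depth `k + 1`. -/
def nxt (n : ℕ) (M R : List ℤ) (k : ℕ) : Pc := fun s p b =>
  if rk s n ≤ b then 1 :: br n M s p else
  if (p + Phi n M (sv n s 0)) % 2 ≠ 0 then [1] else
    atx E n M R k s p b
      (argmax (PB n ^ 6) fun x => if (atx E n M R k s p b x.toNat).length = 0 then 0 else 1)

/-- The procedures. -/
def EE (n : ℕ) (M R : List ℤ) : ℕ → Pc
  | 0 => fun s p b => if rk s n ≤ b then 1 :: br n M s p else []
  | k + 1 => nxt (EE n M R k) n M R k

/-- The state in which all vertices are free. -/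
def full (n : ℕ) : List ℤ := tb n fun _ => 2

end Pool.Agent.MPa9445a.GL
end

section

/-! The search for the budgets, the loop over the sets. -/

set_option autoImplicit false

open Finset

namespace Pool.Agent.MPa9445a.GL

open Pool.Agent.MPa9445a.BE
open Pool.Agent.MPa9445a.GD (itr fm dd length_fm)

variable (E : Pc)

theorem sjs_succ (l : List ℤ) (a : ℤ) (r : List ℤ) (b : ℤ) (c k : ℕ) :
    sjs E l a r b c (k + 1) = if (sjs E l a r b c k).length ≠ 0 ∨ c < 2 ^ k then sjs E l a r b c k else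
      if pok (E l a k) (E r b k) k then [(k : ℤ)] else [] := rfl

theorem sjs_spec (l : List ℤ) (a : ℤ) (r : List ℤ) (b : ℤ) (c k : ℕ) :
    (sjs E l a r b c k = [] ∧ ∀ g < k, 2 ^ g ≤ c → ¬ pok (E l a g) (E r b g) g) ∨
      ∃ g < k, sjs E l a r b c k = [(g : ℤ)] ∧ 2 ^ g ≤ c ∧ pok (E l a g) (E r b g) g ∧
        ∀ g' < g, ¬ pok (E l a g') (E r b g') g' := by
  induction k with
  | zero => exact Or.inl ⟨rfl, fun g hg => absurd hg (Nat.not_lt_zero _)⟩
  | succ k ih =>
    rw [sjs_succ]
    rcases ih with ⟨h1, h2⟩ | ⟨g, hg, h1, h2, h3, h4⟩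
    · rw [h1]
      by_cases hc : c < 2 ^ k
      · rw [if_pos (Or.inr hc)]
        refine Or.inl ⟨rfl, fun g hg hgc => ?_⟩
        rcases Nat.lt_succ_iff_lt_or_eq.1 hg with h | h
        · exact h2 g h hgc
        · subst h
          omega
      · rw [if_neg (by simp only [List.length_nil, ne_eq, not_true_eq_false, false_or]; exact hc)]
        by_cases hp : pok (E l a k) (E r b k) k
        · rw [if_pos hp]
          refine Or.inr ⟨k, Nat.lt_succ_self k, rfl, Nat.not_lt.1 hc, hp, fun g' hg' => ?_⟩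
          exact h2 g' hg' (le_trans (Nat.pow_le_pow_right (by norm_num) hg'.le) (Nat.not_lt.1 hc))
        · rw [if_neg hp]
          refine Or.inl ⟨rfl, fun g hg hgc => ?_⟩
          rcases Nat.lt_succ_iff_lt_or_eq.1 hg with h | h
          · exact h2 g h hgc
          · subst h
            exact hp
    · rw [h1, if_pos (Or.inl (by simp))]
      exact Or.inr ⟨g, Nat.lt_succ_of_lt hg, rfl, h2, h3, h4⟩

/-- The result of the search. -/
theorem sj_spec (n : ℕ) (l : List ℤ) (a : ℤ) (r : List ℤ) (b : ℤ) (c : ℕ) :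
    (sj E n l a r b c = [] ∧ ∀ g ≤ 2 * n, 2 ^ g ≤ c → ¬ pok (E l a g) (E r b g) g) ∨
      ∃ g ≤ 2 * n, sj E n l a r b c = [(g : ℤ)] ∧ 2 ^ g ≤ c ∧ pok (E l a g) (E r b g) g ∧
        ∀ g' < g, ¬ pok (E l a g') (E r b g') g' := by
  rcases sjs_spec E l a r b c (2 * n + 1) with ⟨h1, h2⟩ | ⟨g, hg, h1, h2, h3, h4⟩
  · exact Or.inl ⟨h1, fun g hg => h2 g (by omega)⟩
  · exact Or.inr ⟨g, by omega, h1, h2, h3, h4⟩

/-- A larger budget does not change the result. -/
theorem sj_mono {n : ℕ} {l : List ℤ} {a : ℤ} {r : List ℤ} {b : ℤ} {c c' : ℕ} (hc : c ≤ c')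
    (h : (sj E n l a r b c).length ≠ 0) : sj E n l a r b c' = sj E n l a r b c := by
  rcases sj_spec E n l a r b c with ⟨h1, _⟩ | ⟨g, hg, h1, h2, h3, h4⟩
  · rw [h1] at h
    exact absurd rfl h
  · rw [h1]
    rcases sj_spec E n l a r b c' with ⟨h5, h6⟩ | ⟨g', hg', h5, h6, h7, h8⟩
    · exact absurd h3 (h6 g hg (h2.trans hc))
    · rw [h5]
      have h9 : g = g' := by
        rcases Nat.lt_trichotomy g g' with h | h | h
        · exact absurd h3 (h8 g h)
        · exact h
        · exact absurd h7 (h4 g' h)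
      rw [h9]

variable (n : ℕ) (r : List ℤ) (d : ℕ → ℕ) (q : ℤ) (b : ℕ)

/-- The budget exponent of the pair with index `y`. -/
def gy (y : ℕ) : ℕ := (gt (sy1 E n r d q y (2 ^ b)) 0).toNat

/-- The cost of the pair with index `y`. -/
def cst (y : ℕ) : ℕ := if inl n (q - lvv n (y % LL n)) then 2 ^ gy E n r d q b y else 0

theorem rem_zero : rem E n r d q b 0 = [2 ^ b] := rfl

theorem rem_succ (k : ℕ) : rem E n r d q b (k + 1) =
    if (rem E n r d q b k).length = 0 ∨ ¬ inl n (q - lvv n (k % LL n)) then rem E n r d q b k else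
    if (sy1 E n r d q k (gt (rem E n r d q b k) 0).toNat).length = 0 then [] else
      [gt (rem E n r d q b k) 0 - 2 ^ (gt (sy1 E n r d q k (gt (rem E n r d q b k) 0).toNat) 0).toNat] := rfl

/-- The remaining budget. -/
theorem rem_spec (k : ℕ) : rem E n r d q b k = [] ∨
    (∑ y ∈ range k, cst E n r d q b y ≤ 2 ^ b ∧
      rem E n r d q b k = [(2 : ℤ) ^ b - ((∑ y ∈ range k, cst E n r d q b y : ℕ) : ℤ)] ∧
      ∀ y < k, inl n (q - lvv n (y % LL n)) →
        ∃ g ≤ 2 * n, sy1 E n r d q y (2 ^ b) = [(g : ℤ)] ∧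
          pok (E (laL n r (d (y / LL n))) (lvv n (y % LL n)) g)
            (E (rhL n r (d (y / LL n))) (q - lvv n (y % LL n)) g) g) := by
  induction k with
  | zero =>
    right
    rw [rem_zero]
    simp
  | succ k ih =>
    rw [rem_succ]
    rcases ih with h1 | ⟨h1, h2, h3⟩
    · left
      rw [h1]
      exact if_pos (Or.inl rfl)
    · by_cases hi : inl n (q - lvv n (k % LL n))
      · rw [if_neg (by rw [h2]; simp [hi])]
        set c : ℤ := gt (rem E n r d q b k) 0 with hc
        have hc1 : c = (2 : ℤ) ^ b - ((∑ y ∈ range k, cst E n r d q b y : ℕ) : ℤ) := by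
          rw [hc, h2]
          rfl
        have hc2 : (c.toNat : ℤ) = c := by
          apply Int.toNat_of_nonneg
          rw [hc1]
          have : ((∑ y ∈ range k, cst E n r d q b y : ℕ) : ℤ) ≤ ((2 ^ b : ℕ) : ℤ) := by exact_mod_cast h1
          push_cast at this ⊢
          linarith
        have hc3 : c.toNat ≤ 2 ^ b := by
          have h4 : (c.toNat : ℤ) ≤ ((2 ^ b : ℕ) : ℤ) := by
            rw [hc2, hc1]
            have : (0 : ℤ) ≤ ((∑ y ∈ range k, cst E n r d q b y : ℕ) : ℤ) := Int.natCast_nonneg _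
            push_cast at this ⊢
            linarith
          exact_mod_cast h4
        by_cases hl : (sy1 E n r d q k c.toNat).length = 0
        · left
          rw [if_pos hl]
        · right
          rw [if_neg hl]
          have h4 : sy1 E n r d q k (2 ^ b) = sy1 E n r d q k c.toNat := sj_mono E hc3 hl
          rcases sj_spec E n (laL n r (d (k / LL n))) (lvv n (k % LL n)) (rhL n r (d (k / LL n)))
            (q - lvv n (k % LL n)) c.toNat with ⟨h5, _⟩ | ⟨g, hg, h5, h6, h7, _⟩
          · exact absurd (by rw [sy1, h5]; rfl) hl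
          · have h8 : sy1 E n r d q k c.toNat = [(g : ℤ)] := h5
            have h9 : gy E n r d q b k = g := by
              unfold gy
              rw [h4, h8]
              rfl
            have h10 : cst E n r d q b k = 2 ^ g := by
              unfold cst
              rw [if_pos hi, h9]
            have h11 : ((2 ^ g : ℕ) : ℤ) ≤ c := by
              rw [← hc2]
              exact_mod_cast h6
            rw [Finset.sum_range_succ, h10]
            refine ⟨?_, ?_, ?_⟩
            · have h12 : ((∑ y ∈ range k, cst E n r d q b y + 2 ^ g : ℕ) : ℤ) ≤ ((2 ^ b : ℕ) : ℤ) := by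
                rw [hc1] at h11
                push_cast at h11 ⊢
                linarith
              exact_mod_cast h12
            · rw [h8, hc1]
              simp only [gt, List.getD_cons_zero, Int.toNat_natCast]
              push_cast
              congr 1
              ring
            · intro y hy hiy
              rcases Nat.lt_succ_iff_lt_or_eq.1 hy with h | h
              · exact h3 y h hiy
              · subst h
                exact ⟨g, hg, h4.trans h8, h7⟩
      · right
        rw [if_pos (Or.inr hi)]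
        have h10 : cst E n r d q b k = 0 := by
          unfold cst
          rw [if_neg hi]
        rw [Finset.sum_range_succ, h10, add_zero]
        refine ⟨h1, h2, fun y hy hiy => ?_⟩
        rcases Nat.lt_succ_iff_lt_or_eq.1 hy with h | h
        · exact h3 y h hiy
        · subst h
          exact absurd hiy hi

/-- If the budget is sufficient then the loop does not fail. -/
theorem rem_ne (k : ℕ)
    (h1 : ∀ y < k, inl n (q - lvv n (y % LL n)) → (sy1 E n r d q y (2 ^ b)).length ≠ 0)
    (h2 : ∑ y ∈ range k, cst E n r d q b y ≤ 2 ^ b) : (rem E n r d q b k).length ≠ 0 := by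
  induction k with
  | zero => simp [rem_zero]
  | succ k ih =>
    rw [Finset.sum_range_succ] at h2
    have ih' := ih (fun y hy => h1 y (Nat.lt_succ_of_lt hy)) (by omega)
    rw [rem_succ]
    by_cases hi : inl n (q - lvv n (k % LL n))
    · rw [if_neg (by rintro (h | h); exacts [ih' h, h hi])]
      rcases rem_spec E n r d q b k with h3 | ⟨h3, h4, h5⟩
      · exact absurd (by rw [h3]; rfl) ih'
      · set c : ℤ := gt (rem E n r d q b k) 0 with hc
        have hc1 : c = (2 : ℤ) ^ b - ((∑ y ∈ range k, cst E n r d q b y : ℕ) : ℤ) := by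
          rw [hc, h4]
          rfl
        rcases sj_spec E n (laL n r (d (k / LL n))) (lvv n (k % LL n)) (rhL n r (d (k / LL n)))
          (q - lvv n (k % LL n)) (2 ^ b) with ⟨h6, _⟩ | ⟨g, hg, h6, h7, h8, h9⟩
        · exact absurd (by rw [sy1, h6]; rfl) (h1 k (Nat.lt_succ_self k) hi)
        · have h10 : sy1 E n r d q k (2 ^ b) = [(g : ℤ)] := h6
          have h11 : cst E n r d q b k = 2 ^ g := by
            unfold cst gy
            rw [if_pos hi, h10]
            rfl
          have h12 : 2 ^ g ≤ c.toNat := by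
            zify
            rw [Int.toNat_of_nonneg]
            · rw [hc1]
              have h13 : ((∑ y ∈ range k, cst E n r d q b y + cst E n r d q b k : ℕ) : ℤ) ≤
                  ((2 ^ b : ℕ) : ℤ) := by exact_mod_cast h2
              rw [h11] at h13
              push_cast at h13 ⊢
              linarith
            · rw [hc1]
              have h13 : ((∑ y ∈ range k, cst E n r d q b y : ℕ) : ℤ) ≤
                  ((2 ^ b : ℕ) : ℤ) := by exact_mod_cast h3
              push_cast at h13 ⊢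
              linarith
          have h13 : (sy1 E n r d q k c.toNat).length ≠ 0 := by
            rcases sj_spec E n (laL n r (d (k / LL n))) (lvv n (k % LL n)) (rhL n r (d (k / LL n)))
              (q - lvv n (k % LL n)) c.toNat with ⟨_, h14⟩ | ⟨g', _, h14, _⟩
            · exact absurd h8 (h14 g hg h12)
            · rw [sy1, h14]
              simp
          rw [if_neg h13]
          simp
    · rw [if_pos (Or.inr hi)]
      exact ih'

theorem length_tb (k : ℕ) (f : ℕ → ℤ) : (tb k f).length = k := by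
  unfold tb
  rw [List.length_map, List.length_range]

theorem length_flt_le (k : ℕ) (p : ℕ → Prop) [DecidablePred p] : (flt k p).length ≤ k := by
  unfold flt
  rw [List.length_map]
  exact (List.length_filter_le _ _).trans (List.length_range).le

theorem length_jn_le (M l r A B : List ℤ) (p : ℤ) :
    (jn n M l r A B p).length ≤ (A.length - 1) * (B.length - 1) := by
  unfold jn ix
  rw [length_tb]
  exact length_flt_le _ _

/-- The list of a pair is not longer than its cost. -/
theorem length_jn_pok {M l r A B : List ℤ} {p : ℤ} {g : ℕ} (h : pok A B g) :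
    (jn n M l r A B p).length ≤ 2 ^ g := by
  refine (length_jn_le n M l r A B p).trans ?_
  rcases h with h | h | ⟨_, _, h⟩
  · rw [h]
    simp
  · rw [h]
    simp
  · exact h

/-- The list of the loop is not longer than the budget. -/
theorem length_run_le (M : List ℤ) (K : ℕ) (p : ℤ) : (run E n M r K d q p b).length ≤ 1 + 2 ^ b := by
  unfold run
  split_ifs with h
  · simp
  · rw [List.length_cons, length_fm]
    rcases rem_spec E n r d q b (K * LL n) with h1 | ⟨h1, h2, h3⟩
    · exact absurd (by rw [h1]; rfl) h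
    · have h4 : ∑ y ∈ range (K * LL n),
          (pj E n M r (d (y / LL n)) (lvv n (y % LL n)) q p b).length ≤
          ∑ y ∈ range (K * LL n), cst E n r d q b y := by
        refine Finset.sum_le_sum fun y hy => ?_
        unfold pj cst
        split_ifs with hi
        · obtain ⟨g, hg, h5, h6⟩ := h3 y (Finset.mem_range.1 hy) hi
          have h7 : gy E n r d q b y = g := by
            unfold gy
            rw [h5]
            rfl
          have h8 : sj E n (laL n r (d (y / LL n))) (lvv n (y % LL n)) (rhL n r (d (y / LL n)))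
            (q - lvv n (y % LL n)) (2 ^ b) = [(g : ℤ)] := h5
          rw [h7, h8]
          exact length_jn_pok n h6
        · simp
      omega

end Pool.Agent.MPa9445a.GL
end

section

/-! The small procedures of the algorithm are computed by programs: vectors and forms. -/

set_option autoImplicit false

open Finset

namespace Pool.Agent.MPa9445a.GD

open Pool.Agent.MPa9445a.BE

section

variable {A : Type} {N : A → ℕ} {D : A → Prop} {Γ : List Ty} {ρ : A → Env Γ}

theorem PN.bit {c i : A → ℕ} (hc : PN N D ρ c) (hi : PN N D ρ i) (hb : Bd N D i) :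
    PN N D ρ (fun a => bit (c a) (i a)) :=
  (hc.div (hi.pow2 hb)).mod (PN.const 2)

theorem PA.dec {n c : A → ℕ} {L : A → List ℤ} (hn : PN N D ρ n) (hb : Bd N D n) (hL : PA N D ρ L)
    (hl : Bd N D (fun a => (L a).length)) (hc : PN N D ρ c) :
    PA N D ρ (fun a => dec (n a) (L a) (c a)) := by
  refine PA.tab hn hb fun Γ1 ρ1 up1 hv => ?_
  refine PI.sum (PN.len (up1.a hL)) (hl.up _) fun Γ2 ρ2 up2 hi => ?_
  exact Cp.ite (PB.eq (PI.get (up2.a (up1.a hL)) hi) (up2.n hv))
    (PI.sub (PI.mul (PI.const 2) (PN.bit (up2.n (up1.n hc)) hi (Bd.var (hl.up _)))) (PI.const 1))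
    (PI.const 0)

theorem PA.mulL {n : A → ℕ} {X Y : A → List ℤ} (hn : PN N D ρ n) (hb : Bd N D n)
    (hX : PA N D ρ X) (hY : PA N D ρ Y) : PA N D ρ (fun a => mulL (n a) (X a) (Y a)) := by
  refine PA.tab (PN.mul hn hn) (hb.mul hb) fun Γ1 ρ1 up1 hx => ?_
  refine PI.sum (up1.n hn) (hb.up _) fun Γ2 ρ2 up2 hl => ?_
  have hn2 := up2.n (up1.n hn)
  have hx2 := up2.n hx
  exact PI.mul (PI.get (up2.a (up1.a hX)) (PN.add (PN.mul (PN.div hx2 hn2) hn2) hl))
    (PI.get (up2.a (up1.a hY)) (PN.add (PN.mul hl hn2) (PN.mod hx2 hn2)))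

theorem PI.qfL {n : A → ℕ} {S x : A → List ℤ} (hn : PN N D ρ n) (hb : Bd N D n)
    (hS : PA N D ρ S) (hx : PA N D ρ x) : PI N D ρ (fun a => qfL (n a) (S a) (x a)) := by
  refine PI.sum hn hb fun Γ1 ρ1 up1 hu => ?_
  refine PI.sum (up1.n hn) (hb.up _) fun Γ2 ρ2 up2 hv => ?_
  have hn2 := up2.n (up1.n hn)
  have hx2 := up2.a (up1.a hx)
  exact PI.mul (PI.mul (PI.get (up2.a (up1.a hS)) (PN.add (PN.mul (up2.n hu) hn2) hv))
    (PI.get hx2 (up2.n hu))) (PI.get hx2 hv)

theorem PI.ipL {n : A → ℕ} {b x : A → List ℤ} (hn : PN N D ρ n) (hb : Bd N D n)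
    (hB : PA N D ρ b) (hx : PA N D ρ x) : PI N D ρ (fun a => ipL (n a) (b a) (x a)) := by
  refine PI.sum hn hb fun Γ1 ρ1 up1 hu => ?_
  exact PI.mul (PI.get (up1.a hB) hu) (PI.get (up1.a hx) hu)

theorem PI.nsL {n : A → ℕ} {S x y : A → List ℤ} (hn : PN N D ρ n) (hb : Bd N D n)
    (hS : PA N D ρ S) (hx : PA N D ρ x) (hy : PA N D ρ y) :
    PI N D ρ (fun a => nsL (n a) (S a) (x a) (y a)) := by
  refine PI.sum hn hb fun Γ1 ρ1 up1 hu => ?_
  refine PI.pow ?_ 2
  refine PI.sum (up1.n hn) (hb.up _) fun Γ2 ρ2 up2 hv => ?_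
  have hn2 := up2.n (up1.n hn)
  exact PI.mul (PI.get (up2.a (up1.a hS)) (PN.add (PN.mul (up2.n hu) hn2) hv))
    (PI.sub (PI.get (up2.a (up1.a hx)) hv) (PI.get (up2.a (up1.a hy)) hv))

theorem PI.wt {n u v : A → ℕ} {M : A → List ℤ} (hn : PN N D ρ n)
    (hM : PA N D ρ M) (hu : PN N D ρ u) (hv : PN N D ρ v) :
    PI N D ρ (fun a => wt (n a) (M a) (u a) (v a)) :=
  Cp.ite (PB.eqN hu hv) (PI.const 0)
    (PI.sub (PI.get hM (PN.add (PN.mul hu hn) hv)) (PI.pow hn 2))

theorem PI.bil {n : A → ℕ} {M y z : A → List ℤ} (hn : PN N D ρ n) (hb : Bd N D n)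
    (hM : PA N D ρ M) (hy : PA N D ρ y) (hz : PA N D ρ z) :
    PI N D ρ (fun a => bil (n a) (M a) (y a) (z a)) := by
  refine PI.sum hn hb fun Γ1 ρ1 up1 hu => ?_
  refine PI.sum (up1.n hn) (hb.up _) fun Γ2 ρ2 up2 hv => ?_
  exact PI.mul (PI.mul (PI.wt (up2.n (up1.n hn)) (up2.a (up1.a hM)) (up2.n hu) hv)
    (PI.get (up2.a (up1.a hy)) (up2.n hu))) (PI.get (up2.a (up1.a hz)) hv)

theorem PI.Phi {n : A → ℕ} {M y : A → List ℤ} (hn : PN N D ρ n) (hb : Bd N D n)
    (hM : PA N D ρ M) (hy : PA N D ρ y) :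
    PI N D ρ (fun a => Phi (n a) (M a) (y a)) := PI.bil hn hb hM hy hy

theorem PA.lin {n : A → ℕ} {y z : A → List ℤ} (α β : ℤ) (hn : PN N D ρ n) (hb : Bd N D n)
    (hy : PA N D ρ y) (hz : PA N D ρ z) :
    PA N D ρ (fun a => lin (n a) α (y a) β (z a)) := by
  refine PA.tab hn hb fun Γ1 ρ1 up1 hu => ?_
  exact PI.add (PI.mul (PI.const α) (PI.get (up1.a hy) hu))
    (PI.mul (PI.const β) (PI.get (up1.a hz) hu))

theorem PA.vec {n c : A → ℕ} (hn : PN N D ρ n) (hb : Bd N D n) (hc : PN N D ρ c) :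
    PA N D ρ (fun a => vec (n a) (c a)) := by
  refine PA.tab hn hb fun Γ1 ρ1 up1 hu => ?_
  exact PI.sub (PI.mul (PI.const 2) (PN.bit (up1.n hc) hu (Bd.var hb))) (PI.const 1)

theorem PN.code {n : A → ℕ} {x : A → List ℤ} (hn : PN N D ρ n) (hb : Bd N D n)
    (hx : PA N D ρ x) : PN N D ρ (fun a => code (n a) (x a)) := by
  refine PN.sum hn hb fun Γ1 ρ1 up1 hu => ?_
  exact PN.ite (PB.eq (PI.get (up1.a hx) hu) (PI.const 1)) (PN.pow2 hu (Bd.var hb)) (PN.const 0)

end

end Pool.Agent.MPa9445a.GD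
end

section

/-! Radix sort: the program. -/

set_option autoImplicit false

open Finset

namespace Pool.Agent.MPa9445a.GD

open Pool.Agent.MPa9445a.BE

private theorem X7_asz {L M : List ℤ} (h : L.Perm M) : asz L ≤ asz M :=
  asz_le fun _ hx => sz_le_asz (h.mem_iff.1 hx)

section

variable {A : Type} {N : A → ℕ} {D : A → Prop} {Γ : List Ty} {ρ : A → Env Γ}

theorem PA.vsk {L : A → List ℤ} {w : ℝ → A → ℝ} (h : Cp N D ρ w .arr L) :
    ∃ c : ℕ, ∀ a, D a → vs (t := .arr) (L a) ≤ (N a + 2) ^ c := by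
  obtain ⟨e, c, hc⟩ := h
  exact ⟨c, fun a ha => (hc a ha).2.1⟩

/-- One pass of the radix sort. -/
theorem Cp.rpass {j : A → ℕ} {L : A → List ℤ} (hj : PN N D ρ j) (bj : Bd N D j)
    (hL : PA N D ρ L) :
    Cp N D ρ (fun _ a => ((L a).length : ℝ) + 1) .arr (fun a => rpass (j a) (L a)) := by
  have h0 := Cp.filterL (q := fun a x => bit x.toNat (j a) = 0) hL fun Γ1 ρ1 up hv =>
    PB.eqN (PN.bit (PN.toNat (PI.get (up.a hL) hv)) (up.n hj) (bj.up _)) (PN.const 0)
  have h1 := Cp.filterL (q := fun a x => bit x.toNat (j a) = 1) hL fun Γ1 ρ1 up hv =>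
    PB.eqN (PN.bit (PN.toNat (PI.get (up.a hL) hv)) (up.n hj) (bj.up _)) (PN.const 1)
  refine Cp.app h0 h1 ⟨1, fun a _ τ _ => ?_⟩
  have h2 : ((L a).filter fun x => decide (bit x.toNat (j a) = 0)).length ≤ (L a).length :=
    List.length_filter_le _ _
  have h3 : ((L a).filter fun x => decide (bit x.toNat (j a) = 1)).length ≤ (L a).length :=
    List.length_filter_le _ _
  have h4 : (((L a).filter fun x => decide (bit x.toNat (j a) = 0)).length : ℝ) ≤ (L a).length := by
    exact_mod_cast h2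
  have h5 : (((L a).filter fun x => decide (bit x.toNat (j a) = 1)).length : ℝ) ≤ (L a).length := by
    exact_mod_cast h3
  have hx : (2 : ℝ) ≤ (N a : ℝ) + 2 := by
    have : (0 : ℝ) ≤ (N a : ℝ) := Nat.cast_nonneg _
    linarith
  have h6 : (0 : ℝ) ≤ ((L a).length : ℝ) := Nat.cast_nonneg _
  rw [pow_one]
  nlinarith

/-- Radix sort. -/
theorem Cp.srt {n : A → ℕ} {L : A → List ℤ} (hn : PN N D ρ n) (bn : Bd N D n)
    (hL : PA N D ρ L) :
    Cp N D ρ (fun _ a => ((L a).length : ℝ) + 1) .arr (fun a => srt (n a) (L a)) := by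
  have hp : ∀ a j, (itr GD.rpass (L a) j).Perm (L a) := fun a j => srt_perm j (L a)
  have hv : ∃ c : ℕ, ∀ a, D a → ∀ j, vs (t := .arr) (itr GD.rpass (L a) j) ≤ (N a + 2) ^ c := by
    obtain ⟨c, hc⟩ := PA.vsk hL
    refine ⟨c, fun a ha j => le_trans ?_ (hc a ha)⟩
    show asz _ + Nat.size _ ≤ asz _ + Nat.size _
    rw [(hp a j).length_eq]
    exact Nat.add_le_add_right (X7_asz (hp a j)) _
  have h := Cp.iter (s := fun a j => itr GD.rpass (L a) j)
    (w := fun _ p => ((L p.1).length : ℝ) + 1) hn hL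
    (by
      obtain ⟨c, hc⟩ := hv
      exact ⟨c, fun a ha j _ => hc a ha j⟩)
    fun Γ1 ρ1 up hj hs => by
      have h1 := Cp.rpass hj (Bd.var bn) hs
      refine h1.mono fun p _ τ _ => ?_
      rw [(hp p.1 p.2).length_eq]
  obtain ⟨c, hc⟩ := bn
  refine h.mono_poly (c + 1) fun a ha τ _ => ?_
  have h6 : (0 : ℝ) ≤ ((L a).length : ℝ) := Nat.cast_nonneg _
  refine ⟨by linarith, ?_⟩
  have hx : (2 : ℝ) ≤ (N a : ℝ) + 2 := by
    have : (0 : ℝ) ≤ (N a : ℝ) := Nat.cast_nonneg _
    linarith
  have h7 : (n a : ℝ) ≤ ((N a : ℝ) + 2) ^ c := by exact_mod_cast hc a ha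
  have h8 : (1 : ℝ) ≤ ((N a : ℝ) + 2) ^ c := one_le_pow₀ (by linarith)
  have h11 : ∑ j ∈ range (n a), (((L (a, j).1).length : ℝ) + 1) =
      (n a : ℝ) * (((L a).length : ℝ) + 1) := by
    show ∑ _j ∈ range (n a), (((L a).length : ℝ) + 1) = _
    rw [Finset.sum_const, Finset.card_range, nsmul_eq_mul]
  rw [h11, one, pow_succ]
  have h9 : (n a : ℝ) * (((L a).length : ℝ) + 1) ≤
      ((N a : ℝ) + 2) ^ c * (((L a).length : ℝ) + 1) :=
    mul_le_mul_of_nonneg_right h7 (by linarith)
  have h10 : ((N a : ℝ) + 2) ^ c * (((L a).length : ℝ) + 1) * 2 ≤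
      ((N a : ℝ) + 2) ^ c * (((L a).length : ℝ) + 1) * ((N a : ℝ) + 2) :=
    mul_le_mul_of_nonneg_left hx (by positivity)
  nlinarith

/-- Removal of neighbours which are equal. -/
theorem Cp.ddp {L : A → List ℤ} (hL : PA N D ρ L) :
    Cp N D ρ (fun _ a => ((L a).length : ℝ) + 1) .arr (fun a => ddp (L a)) := by
  have h1 := Cp.filter (q := fun a i => i = 0 ∨ gt (L a) (i - 1) ≠ gt (L a) i) (PN.len hL)
    fun Γ1 ρ1 up hv => PB.or (PB.eqN hv (PN.const 0))
      (PB.ne (PI.get (up.a hL) (PN.sub hv (PN.const 1))) (PI.get (up.a hL) hv))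
  refine h1.store fun Γ1 ρ1 k1 hF => ?_
  have h2 := Cp.mapL (f := fun a z => gt (L a) z.toNat) hF fun Γ2 ρ2 up2 hv =>
    PI.get (up2.a (k1.a hL)) (PN.toNat (PI.get (up2.a hF) hv))
  refine h2.mono fun a _ τ _ => ?_
  have h3 := length_ddp_le (L a)
  unfold GD.ddp at h3
  rw [List.length_map] at h3
  have h4 : ((flt (L a).length fun i => i = 0 ∨ gt (L a) (i - 1) ≠ gt (L a) i).length : ℝ) ≤
      (L a).length := by exact_mod_cast h3
  linarith

/-- Sort, and remove duplicates. -/
theorem Cp.dd {n : A → ℕ} {L : A → List ℤ} (hn : PN N D ρ n) (bn : Bd N D n)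
    (hL : PA N D ρ L) :
    Cp N D ρ (fun _ a => ((L a).length : ℝ) + 1) .arr (fun a => dd (n a) (L a)) := by
  refine (Cp.srt hn bn hL).store fun Γ1 ρ1 k1 hs => ?_
  refine (Cp.ddp hs).mono fun a _ τ _ => ?_
  rw [(srt_perm (n a) (L a)).length_eq]

end

end Pool.Agent.MPa9445a.GD
end
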