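import Pool.Agent.Lib.MP_a9445a_lc.Mg.G147
import Pool.Agent.Lib.MP_a9445a_lc.Mg.G124

section

/-! The running time of the ball search. -/

set_option autoImplicit false

open Finset

namespace Pool.Agent.MPa9445a.BW

open Pool.Agent.MPa9445a.BE (Ty Env vs one Bd NL DL tb flt gt bit Phi vec code lin argmax matMul Bd.const
  Bd.add Bd.mul Bd.le Bd.up Bd.var Bd.self)
open Pool.Agent.MPa9445a.GD

/-- The base of the weight. -/
def kb (n : ℕ) : ℕ := 2 ^ (n / 3 - n / 1000000000 + 4)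

/-- The weight. -/
noncomputable def wB (τ : ℝ) (n : ℕ) : ℝ := (kb n : ℝ) ^ τ

theorem one_le_kb (n : ℕ) : (1 : ℝ) ≤ (kb n : ℝ) := by
  unfold kb
  push_cast
  exact one_le_pow₀ (by norm_num)

theorem one_le_wB (n : ℕ) {τ : ℝ} (hτ : 2 ≤ τ) : 1 ≤ wB τ n :=
  Real.one_le_rpow (one_le_kb n) (by linarith)

theorem kk_le_kb (a : In) : kk a + 1 ≤ kb a.n := by
  have h := kk_le a
  have h1 : kb a.n = 2 ^ (a.n / 3 - a.n / 1000000000 + 3) * 2 := by
    unfold kb
    rw [← pow_succ]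
  have h2 := Nat.one_le_two_pow (n := a.n / 3 - a.n / 1000000000 + 3)
  omega

theorem kk1_le_wB (a : In) {τ : ℝ} (hτ : 2 ≤ τ) : ((kk a : ℝ) + 1) ^ τ ≤ wB τ a.n := by
  unfold wB
  apply Real.rpow_le_rpow (by positivity) _ (by linarith)
  exact_mod_cast kk_le_kb a

theorem kk2_le_wB (a : In) {τ : ℝ} (hτ : 2 ≤ τ) : ((kk a * kk a : ℕ) : ℝ) + 1 ≤ wB τ a.n := by
  refine le_trans ?_ (kk1_le_wB a hτ)
  have h0 : (0 : ℝ) ≤ (kk a : ℝ) := Nat.cast_nonneg _
  have h1 : (1 : ℝ) ≤ (kk a : ℝ) + 1 := by linarith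
  have h2 : ((kk a : ℝ) + 1) ^ (2 : ℝ) ≤ ((kk a : ℝ) + 1) ^ τ :=
    Real.rpow_le_rpow_of_exponent_le h1 hτ
  refine le_trans ?_ h2
  rw [Real.rpow_two]
  push_cast
  nlinarith

theorem n1_le_wB (a : In) {τ : ℝ} (hτ : 2 ≤ τ) : ((2 ^ n1 a : ℕ) : ℝ) + 1 ≤ wB τ a.n := by
  refine le_trans ?_ (kk2_le_wB a hτ)
  have h : ((2 ^ n1 a : ℕ) : ℝ) ≤ ((kk a * kk a : ℕ) : ℝ) := by exact_mod_cast n1_le_kk a
  linarith

/-- The parameters are computed by programs. -/
structure BP {A : Type} (N : A → ℕ) (D : A → Prop) {Γ : List Ty} (ρ : A → Env Γ) (x : A → In) :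
    Prop where
  n : PN N D ρ (fun a => (x a).n)
  bn : Bd N D (fun a => (x a).n)
  M : PA N D ρ (fun a => (x a).M)
  y : PA N D ρ (fun a => (x a).y)
  i : PN N D ρ (fun a => (x a).i)
  α : PI N D ρ (fun a => (x a).α)
  β : PI N D ρ (fun a => (x a).β)

section

variable {A : Type} {N : A → ℕ} {D : A → Prop} {Γ : List Ty} {ρ : A → Env Γ} {x : A → In}

theorem BP.ke (h : BP N D ρ x) {Γ' : List Ty} {ρ' : A → Env Γ'} (k : Ke N D ρ ρ') :
    BP N D ρ' x :=
  ⟨k.n h.n, h.bn, k.a h.M, k.a h.y, k.n h.i, k.i h.α, k.i h.β⟩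

theorem BP.up (h : BP N D ρ x) {k : A → ℕ} {Γ' : List Ty} {ρ' : A × ℕ → Env Γ'}
    (u : Up N D ρ k ρ') : BP (NL N) (DL D k) ρ' (fun p => x p.1) :=
  ⟨u.n h.n, h.bn.up _, u.a h.M, u.a h.y, u.n h.i, u.i h.α, u.i h.β⟩

theorem c_n1 (h : BP N D ρ x) : PN N D ρ (fun a => n1 (x a)) :=
  PN.add (PN.div h.n (PN.const 3)) (PN.mul (PN.const 2) (PN.div h.n (PN.const 1000000000)))

theorem c_n2 (h : BP N D ρ x) : PN N D ρ (fun a => n2 (x a)) :=
  PN.div (PN.sub h.n (c_n1 h)) (PN.const 2)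

theorem c_n3 (h : BP N D ρ x) : PN N D ρ (fun a => n3 (x a)) :=
  PN.sub (PN.sub h.n (c_n1 h)) (c_n2 h)

theorem bd_n1 (h : BP N D ρ x) : Bd N D (fun a => n1 (x a)) :=
  Bd.le h.bn fun a _ => by have := n_add (x a); omega

theorem bd_n2 (h : BP N D ρ x) : Bd N D (fun a => n2 (x a)) :=
  Bd.le h.bn fun a _ => by have := n_add (x a); omega

theorem bd_n3 (h : BP N D ρ x) : Bd N D (fun a => n3 (x a)) :=
  Bd.le h.bn fun a _ => by have := n_add (x a); omega

theorem c_pt (h : BP N D ρ x) {v : A → ℕ} (hv : PN N D ρ v) :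
    PN N D ρ (fun a => pt (x a) (v a)) :=
  PN.mod (PN.sub (PN.add hv h.n) (PN.mul h.i (PN.div h.n (PN.const 3)))) h.n

theorem bd_pt (h : BP N D ρ x) {v : A → ℕ} (bv : Bd N D v) :
    Bd N D (fun a => pt (x a) (v a)) :=
  Bd.le (bv.add h.bn) fun a _ => (Nat.mod_le _ _).trans (by omega)

theorem c_pv (h : BP N D ρ x) {s k c : A → ℕ} (hs : PN N D ρ s) (hk : PN N D ρ k)
    (hc : PN N D ρ c) : PA N D ρ (fun a => pv (x a) (s a) (k a) (c a)) := by
  refine PA.tab h.n h.bn fun Γ1 ρ1 up hv => ?_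
  have h1 := h.up up
  have hp := c_pt h1 hv
  have bp := bd_pt h1 (Bd.var h.bn)
  refine Cp.ite (PB.and (PB.leN (up.n hs) hp) (PB.ltN hp (PN.add (up.n hs) (up.n hk)))) ?_
    (PI.const 0)
  exact PI.sub (PI.mul (PI.const 2) (PN.bit (up.n hc) (PN.sub hp (up.n hs))
    (Bd.le bp fun a _ => Nat.sub_le _ _))) (PI.const 1)

theorem c_nd (h : BP N D ρ x) {c : A → ℕ} (hc : PN N D ρ c) :
    PI N D ρ (fun a => nd (x a) (c a)) := by
  have b3 : Bd N D (fun a => (x a).n / 3) := Bd.le h.bn fun a _ => Nat.div_le_self _ _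
  refine PI.sum (PN.div h.n (PN.const 3)) b3 fun Γ1 ρ1 up hv => ?_
  have h1 := h.up up
  refine Cp.ite (PB.eq (PI.sub (PI.mul (PI.const 2) (PN.bit (up.n hc) hv (Bd.var b3))) (PI.const 1))
    (PI.get h1.y (PN.add (PN.mul h1.i (PN.div h1.n (PN.const 3))) hv))) (PI.const 0) (PI.const 1)

theorem c_T1 (h : BP N D ρ x) : Cp N D ρ (fun τ a => wB τ (x a).n) .arr (fun a => T1 (x a)) := by
  have h1 := Cp.filter (q := fun a c => 30000 * nd (x a) c ≤ 4999 * ((x a).n : ℤ))
    (PN.pow2 (c_n1 h) (bd_n1 h)) fun Γ1 ρ1 up hv =>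
      PB.le (PI.mul (PI.const 30000) (c_nd (h.up up) hv)) (PI.mul (PI.const 4999) (h.up up).n)
  exact h1.mono fun a _ τ hτ => n1_le_wB (x a) hτ

variable (h : BP N D ρ x) (hT : PA N D ρ (fun a => T1 (x a)))

include h hT

theorem c_kk : PN N D ρ (fun a => kk (x a)) :=
  PN.ite (PB.leN (PN.len hT) (PN.pow2 (c_n3 h) (bd_n3 h))) (PN.pow2 (c_n3 h) (bd_n3 h)) (PN.len hT)

theorem c_z1 {u : A → ℕ} (hu : PN N D ρ u) : PA N D ρ (fun a => z1 (x a) (u a)) :=
  c_pv h (PN.const 0) (c_n1 h) (PN.toNat (PI.get hT hu))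

omit hT in
theorem c_z2 {u : A → ℕ} (hu : PN N D ρ u) : PA N D ρ (fun a => z2 (x a) (u a)) :=
  c_pv h (c_n1 h) (c_n2 h) hu

omit hT in
theorem c_z3 {u : A → ℕ} (hu : PN N D ρ u) : PA N D ρ (fun a => z3 (x a) (u a)) :=
  c_pv h (PN.add (c_n1 h) (c_n2 h)) (c_n3 h) hu

theorem c_M1 : Cp N D ρ (fun τ a => wB τ (x a).n) .arr (fun a => M1 (x a)) := by
  have hk := c_kk h hT
  have h1 := Cp.tab (w := one) (PN.mul hk hk) (fun _ _ _ _ => le_refl _)
    (f := fun a z => if z / kk (x a) < (T1 (x a)).length ∧ z % kk (x a) < 2 ^ n2 (x a) ∧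
      Phi (x a).n (x a).M (lin (x a).n 1 (z1 (x a) (z / kk (x a))) 1 (z2 (x a) (z % kk (x a)))) -
        Phi (x a).n (x a).M (z1 (x a) (z / kk (x a))) = (x a).α then 1 else 0)
    fun Γ1 ρ1 up hv => by
      have g := h.up up
      have gT := up.a hT
      have gk := up.n hk
      have gd := PN.div hv gk
      have gm := PN.mod hv gk
      exact Cp.ite (PB.and (PB.ltN gd (PN.len gT)) (PB.and (PB.ltN gm (PN.pow2 (c_n2 g) (bd_n2 g)))
        (PB.eq (PI.sub (PI.Phi g.n g.bn g.M (PA.lin 1 1 g.n g.bn (c_z1 g gT gd) (c_z2 g gm)))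
          (PI.Phi g.n g.bn g.M (c_z1 g gT gd))) g.α))) (PI.const 1) (PI.const 0)
  refine h1.mono fun a _ τ hτ => ?_
  simp only [one, mul_one]
  exact kk2_le_wB (x a) hτ

theorem c_M2 : Cp N D ρ (fun τ a => wB τ (x a).n) .arr (fun a => M2 (x a)) := by
  have hk := c_kk h hT
  have h1 := Cp.tab (w := one) (PN.mul hk hk) (fun _ _ _ _ => le_refl _)
    (f := fun a z => if z / kk (x a) < 2 ^ n2 (x a) ∧ z % kk (x a) < 2 ^ n3 (x a) ∧
      Phi (x a).n (x a).M (lin (x a).n 1 (z2 (x a) (z / kk (x a))) 1 (z3 (x a) (z % kk (x a)))) -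
        Phi (x a).n (x a).M (z2 (x a) (z / kk (x a))) -
          Phi (x a).n (x a).M (z3 (x a) (z % kk (x a))) = (x a).β then 1 else 0)
    fun Γ1 ρ1 up hv => by
      have g := h.up up
      have gk := up.n hk
      have gd := PN.div hv gk
      have gm := PN.mod hv gk
      exact Cp.ite (PB.and (PB.ltN gd (PN.pow2 (c_n2 g) (bd_n2 g)))
        (PB.and (PB.ltN gm (PN.pow2 (c_n3 g) (bd_n3 g)))
        (PB.eq (PI.sub (PI.sub (PI.Phi g.n g.bn g.M (PA.lin 1 1 g.n g.bn (c_z2 g gd) (c_z3 g gm)))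
          (PI.Phi g.n g.bn g.M (c_z2 g gd))) (PI.Phi g.n g.bn g.M (c_z3 g gm))) g.β)))
          (PI.const 1) (PI.const 0)
  refine h1.mono fun a _ τ hτ => ?_
  simp only [one, mul_one]
  exact kk2_le_wB (x a) hτ

theorem c_MP (m1 : PA N D ρ (fun a => M1 (x a))) (m2 : PA N D ρ (fun a => M2 (x a))) :
    Cp N D ρ (fun τ a => wB τ (x a).n) .arr (fun a => MP (x a)) :=
  (Cp.mm (c_kk h hT) m1 m2).mono fun a _ τ hτ => kk1_le_wB (x a) hτ

theorem c_z13 {u v : A → ℕ} (hu : PN N D ρ u) (hv : PN N D ρ v) :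
    PA N D ρ (fun a => z13 (x a) (u a) (v a)) :=
  PA.lin 1 1 h.n h.bn (c_z1 h hT hu) (c_z3 h hv)

theorem c_va (mp : PA N D ρ (fun a => MP (x a))) {z : A → ℕ} (hz : PN N D ρ z) :
    PI N D ρ (fun a => va (x a) (z a)) := by
  have hk := c_kk h hT
  exact Cp.ite (PB.ne (PI.get mp hz) (PI.const 0))
    (PI.add (PI.Phi h.n h.bn h.M (c_z13 h hT (PN.div hz hk) (PN.mod hz hk)))
      (PI.mul (PI.const 8) (PI.pow h.n 4))) (PI.const 0)

theorem c_rr (mp : PA N D ρ (fun a => MP (x a))) :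
    Cp N D ρ (fun τ a => wB τ (x a).n) .int (fun a => (rr (x a) : ℤ)) := by
  have hk := c_kk h hT
  have h1 := Cp.amax (w := one) (f := fun a z => va (x a) z) (PN.mul hk hk)
    (fun _ _ _ _ => le_refl _) fun Γ1 ρ1 up hv => c_va (h.up up) (up.a hT) (up.a mp) hv
  refine h1.mono fun a _ τ hτ => ?_
  simp only [one, mul_one]
  exact kk2_le_wB (x a) hτ

theorem c_rb (m1 : PA N D ρ (fun a => M1 (x a))) (m2 : PA N D ρ (fun a => M2 (x a)))
    (hr : PN N D ρ (fun a => rr (x a))) :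
    Cp N D ρ (fun τ a => wB τ (x a).n) .int (fun a => (rb (x a) : ℤ)) := by
  have hk := c_kk h hT
  have h1 := Cp.amax (w := one) (f := fun a y =>
      gt (M1 (x a)) (rr (x a) / kk (x a) * kk (x a) + y) *
        gt (M2 (x a)) (y * kk (x a) + rr (x a) % kk (x a))) hk
    (fun _ _ _ _ => le_refl _) fun Γ1 ρ1 up hv => by
      have gk := up.n hk
      have gr := up.n hr
      exact PI.mul (PI.get (up.a m1) (PN.add (PN.mul (PN.div gr gk) gk) hv))
        (PI.get (up.a m2) (PN.add (PN.mul hv gk) (PN.mod gr gk)))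
  refine h1.mono fun a _ τ hτ => ?_
  simp only [one, mul_one]
  refine le_trans ?_ (kk2_le_wB (x a) hτ)
  have h0 : kk (x a) ≤ kk (x a) * kk (x a) := Nat.le_mul_self _
  have h2 : (kk (x a) : ℝ) ≤ ((kk (x a) * kk (x a) : ℕ) : ℝ) := by exact_mod_cast h0
  linarith

omit hT in
/-- The candidate. -/
theorem c_cand : Cp N D ρ (fun τ a => wB τ (x a).n) .int (fun a => (cand (x a) : ℤ)) := by
  have wl : ∀ a, D a → ∀ τ : ℝ, 2 ≤ τ → 1 ≤ wB τ (x a).n := fun a _ τ hτ => one_le_wB _ hτ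
  refine (c_T1 h).store fun Γ1 ρ1 k1 hT1 => ?_
  replace h := h.ke k1
  refine (c_M1 h hT1).store fun Γ2 ρ2 k2 m1 => ?_
  replace h := h.ke k2
  replace hT1 := k2.a hT1
  refine (c_M2 h hT1).store fun Γ3 ρ3 k3 m2 => ?_
  replace h := h.ke k3
  replace hT1 := k3.a hT1
  replace m1 := k3.a m1
  refine (c_MP h hT1 m1 m2).store fun Γ4 ρ4 k4 mp => ?_
  replace h := h.ke k4
  replace hT1 := k4.a hT1
  replace m1 := k4.a m1
  replace m2 := k4.a m2
  refine (c_rr h hT1 mp).store fun Γ5 ρ5 k5 hr => ?_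
  replace h := h.ke k5
  replace hT1 := k5.a hT1
  replace m1 := k5.a m1
  replace m2 := k5.a m2
  refine (c_rb h hT1 m1 m2 hr).store fun Γ6 ρ6 k6 hb => ?_
  replace h := h.ke k6
  replace hT1 := k6.a hT1
  replace hr := k6.n hr
  have hk := c_kk h hT1
  have e1 : PN N D ρ6 (fun a => cand (x a)) :=
    PN.code h.n h.bn (PA.lin 1 1 h.n h.bn (c_z13 h hT1 (PN.div hr hk) (PN.mod hr hk)) (c_z2 h hb))
  exact e1.lift wl

end

end Pool.Agent.MPa9445a.BW
end

section

/-! The running time of the ball search: the whole procedure. -/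

set_option autoImplicit false

open Finset

namespace Pool.Agent.MPa9445a.BW

open Pool.Agent.MPa9445a.BE (Ty Env vs one Bd NL DL tb flt gt bit Phi vec code lin argmax matMul Bd.const
  Bd.add Bd.mul Bd.le Bd.up Bd.var Bd.self)
open Pool.Agent.MPa9445a.GD

section

variable {A : Type} {N : A → ℕ} {D : A → Prop} {Γ : List Ty} {ρ : A → Env Γ}

/-- The number of the indices. -/
def nI (n : ℕ) : ℕ := 3 * ((16 * n ^ 4 + 1) * (16 * n ^ 4 + 1))

/-- The data of an index. -/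
theorem c_inp {n : A → ℕ} {M y : A → List ℤ} {z : A → ℕ} (hn : PN N D ρ n) (bn : Bd N D n)
    (hM : PA N D ρ M) (hy : PA N D ρ y) (hz : PN N D ρ z) :
    BP N D ρ (fun a => inp (n a) (M a) (y a) (z a)) := by
  have hL : PN N D ρ (fun a => 16 * n a ^ 4 + 1) :=
    PN.add (PN.mul (PN.const 16) (PN.pow hn 4)) (PN.const 1)
  have h3 := PN.div hz (PN.const 3)
  exact ⟨hn, bn, hM, hy, PN.mod hz (PN.const 3),
    PI.sub (PN.mod h3 hL) (PI.mul (PI.const 8) (PI.pow hn 4)),
    PI.sub (PN.div h3 hL) (PI.mul (PI.const 8) (PI.pow hn 4))⟩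

/-- The candidate of an index. -/
theorem c_candI {n : A → ℕ} {M y : A → List ℤ} {z : A → ℕ} (hn : PN N D ρ n) (bn : Bd N D n)
    (hM : PA N D ρ M) (hy : PA N D ρ y) (hz : PN N D ρ z) :
    Cp N D ρ (fun τ a => wB τ (n a)) .int (fun a => (cand (inp (n a) (M a) (y a) (z a)) : ℤ)) :=
  c_cand (x := fun a => inp (n a) (M a) (y a) (z a)) (c_inp hn bn hM hy hz)

theorem c_nI {n : A → ℕ} (hn : PN N D ρ n) : PN N D ρ (fun a => nI (n a)) := by
  have hL : PN N D ρ (fun a => 16 * n a ^ 4 + 1) :=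
    PN.add (PN.mul (PN.const 16) (PN.pow hn 4)) (PN.const 1)
  exact PN.mul (PN.const 3) (PN.mul hL hL)

theorem bd_nI {n : A → ℕ} (bn : Bd N D n) : Bd N D (fun a => nI (n a)) := by
  have b1 : Bd N D (fun a => 16 * n a ^ 4 + 1) := by
    refine Bd.le (((Bd.const 16).mul ((bn.mul bn).mul (bn.mul bn))).add (Bd.const 1))
      fun a _ => le_of_eq ?_
    ring
  exact (Bd.const 3).mul (b1.mul b1)

end

end Pool.Agent.MPa9445a.BW
end

section

/-!
# Sorted arrays: the number of small entries by bisection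

The array may have other entries before the index `o`: the sorted part starts at `o`.
-/

set_option autoImplicit false

open Finset

namespace Pool.Agent.MPa9445a.GS

open Pool.Agent.MPa9445a.BE (Ty Env vs one Bd NL DL tb flt gt bit Phi vec code lin argmax Bd.const
  Bd.add Bd.mul Bd.le Bd.up Bd.var Bd.self)
open Pool.Agent.MPa9445a.GD

/-- The state of the bisection before the pass `j` (`m` passes). -/
def bs (L : List ℤ) (o : ℕ) (z : ℤ) (m j : ℕ) : List ℤ :=
  itr (fun j s => if o + (gt s 0).toNat + 2 ^ (m - 1 - j) ≤ L.length ∧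
      gt L (o + (gt s 0).toNat + 2 ^ (m - 1 - j) - 1) < z then
    [gt s 0 + 2 ^ (m - 1 - j)] else s) [0] j

/-- The number of entries from `o` on which are smaller than `z`. -/
def lb (L : List ℤ) (o : ℕ) (z : ℤ) (m : ℕ) : ℕ := (gt (bs L o z m m) 0).toNat

/-- The entries `≥ lo` and `< hi`, minus `lo`. -/
def rg (L : List ℤ) (o : ℕ) (lo hi : ℤ) (m : ℕ) : List ℤ :=
  tb (lb L o hi m - lb L o lo m) fun i => gt L (o + lb L o lo m + i) - lo

theorem bs_succ (L : List ℤ) (o : ℕ) (z : ℤ) (m j : ℕ) : bs L o z m (j + 1) =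
    if o + (gt (bs L o z m j) 0).toNat + 2 ^ (m - 1 - j) ≤ L.length ∧
      gt L (o + (gt (bs L o z m j) 0).toNat + 2 ^ (m - 1 - j) - 1) < z then
    [gt (bs L o z m j) 0 + 2 ^ (m - 1 - j)] else bs L o z m j := rfl

/-- The state is one number. -/
theorem bs_one (L : List ℤ) (o : ℕ) (z : ℤ) (m j : ℕ) : ∃ c : ℕ, bs L o z m j = [(c : ℤ)] := by
  induction j with
  | zero => exact ⟨0, rfl⟩
  | succ j ih =>
    obtain ⟨c, hc⟩ := ih
    rw [bs_succ, hc]
    split_ifs
    · refine ⟨c + 2 ^ (m - 1 - j), ?_⟩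
      simp [gt]
    · exact ⟨c, rfl⟩

/-- `c` is the number of entries from `o` on which are smaller than `z`: the entries with index `< c` are smaller,
the others are not. -/
def IsCnt (L : List ℤ) (o : ℕ) (z : ℤ) (c : ℕ) : Prop :=
  (o + c ≤ L.length ∨ c = 0) ∧ (∀ i < c, gt L (o + i) < z) ∧
    ∀ i, c ≤ i → o + i < L.length → z ≤ gt L (o + i)

theorem bs_inv {L : List ℤ} {o : ℕ} {z : ℤ} {m : ℕ} {C : ℕ} (hC : IsCnt L o z C)
    (hm : C < 2 ^ m) {j : ℕ} (hj : j ≤ m) :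
    ∃ c : ℕ, bs L o z m j = [(c : ℤ)] ∧ c ≤ C ∧ C < c + 2 ^ (m - j) := by
  induction j with
  | zero => exact ⟨0, rfl, Nat.zero_le _, by simpa using hm⟩
  | succ j ih =>
    obtain ⟨c, h1, h2, h3⟩ := ih (by omega)
    have e1 : m - 1 - j = m - (j + 1) := by omega
    have e2 : 2 ^ (m - j) = 2 ^ (m - (j + 1)) + 2 ^ (m - (j + 1)) := by
      have : m - j = (m - (j + 1)) + 1 := by omega
      rw [this, pow_succ]
      omega
    have hg : (gt [(c : ℤ)] 0).toNat = c := by simp [gt]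
    have hp : 0 < 2 ^ (m - (j + 1)) := by positivity
    rw [bs_succ, h1, hg, e1]
    by_cases hc : o + c + 2 ^ (m - (j + 1)) ≤ L.length ∧
        gt L (o + c + 2 ^ (m - (j + 1)) - 1) < z
    · rw [if_pos hc]
      refine ⟨c + 2 ^ (m - (j + 1)), by simp [gt], ?_, by omega⟩
      by_contra hlt
      rw [not_le] at hlt
      have h4 := hC.2.2 (c + 2 ^ (m - (j + 1)) - 1) (by omega) (by omega)
      have h5 : o + (c + 2 ^ (m - (j + 1)) - 1) = o + c + 2 ^ (m - (j + 1)) - 1 := by omega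
      rw [h5] at h4
      exact absurd hc.2 (not_lt.2 h4)
    · rw [if_neg hc]
      refine ⟨c, rfl, h2, ?_⟩
      by_contra hlt
      rw [not_lt] at hlt
      apply hc
      have h6 : o + C ≤ L.length := by
        rcases hC.1 with h | h
        · exact h
        · omega
      refine ⟨by omega, ?_⟩
      have h4 := hC.2.1 (c + 2 ^ (m - (j + 1)) - 1) (by omega)
      have h5 : o + (c + 2 ^ (m - (j + 1)) - 1) = o + c + 2 ^ (m - (j + 1)) - 1 := by omega
      rw [h5] at h4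
      exact h4

theorem lb_eq {L : List ℤ} {o : ℕ} {z : ℤ} {m : ℕ} {C : ℕ} (hC : IsCnt L o z C)
    (hm : C < 2 ^ m) : lb L o z m = C := by
  obtain ⟨c, h1, h2, h3⟩ := bs_inv hC hm (le_refl m)
  unfold lb
  rw [h1]
  have hg : (gt [(c : ℤ)] 0).toNat = c := by simp [gt]
  rw [hg]
  rw [Nat.sub_self, pow_zero] at h3
  omega

/-- In a sorted part there is such a number. -/
theorem exists_cnt {L : List ℤ} {o : ℕ} (z : ℤ)
    (hs : ∀ i j, i ≤ j → o + j < L.length → gt L (o + i) ≤ gt L (o + j)) :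
    ∃ C, IsCnt L o z C ∧ C ≤ L.length := by
  classical
  by_cases h : ∃ i, o + i < L.length ∧ z ≤ gt L (o + i)
  · have h1 := Nat.find_spec h
    have h2 : ∀ i < Nat.find h, ¬ (o + i < L.length ∧ z ≤ gt L (o + i)) := fun i hi =>
      Nat.find_min h hi
    refine ⟨Nat.find h, ⟨Or.inl h1.1.le, fun i hi => ?_, fun i hi hl => ?_⟩, by omega⟩
    · by_contra hn
      exact h2 i hi ⟨by omega, not_lt.1 hn⟩
    · exact h1.2.trans (hs _ _ hi hl)
  · rw [not_exists] at h
    refine ⟨L.length - o, ⟨?_, fun i hi => ?_, fun i hi hl => ?_⟩, Nat.sub_le _ _⟩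
    · omega
    · by_contra hn
      exact h i ⟨by omega, not_lt.1 hn⟩
    · omega

/-- The entries of the range. -/
theorem mem_rg {L : List ℤ} {o : ℕ} {lo hi : ℤ} {m : ℕ}
    (hs : ∀ i j, i ≤ j → o + j < L.length → gt L (o + i) ≤ gt L (o + j))
    (hm : L.length < 2 ^ m) {x : ℤ} :
    x ∈ rg L o lo hi m ↔ 0 ≤ x ∧ x < hi - lo ∧ ∃ i, o + i < L.length ∧ gt L (o + i) = lo + x := by
  obtain ⟨C, hC, hC1⟩ := exists_cnt lo hs
  obtain ⟨C', hC', hC1'⟩ := exists_cnt hi hs
  have e1 := lb_eq hC (lt_of_le_of_lt hC1 hm)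
  have e2 := lb_eq hC' (lt_of_le_of_lt hC1' hm)
  unfold rg BE.tb
  rw [e1, e2, List.mem_map]
  constructor
  · rintro ⟨i, hi', rfl⟩
    rw [List.mem_range] at hi'
    have h0 : o + C' ≤ L.length := by
      rcases hC'.1 with h | h
      · exact h
      · omega
    have h1 : o + C + i = o + (C + i) := by omega
    rw [h1]
    have h2 := hC.2.2 (C + i) (by omega) (by omega)
    have h3 := hC'.2.1 (C + i) (by omega)
    exact ⟨by linarith, by linarith, C + i, by omega, by ring⟩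
  · rintro ⟨h1, h2, i, h3, h4⟩
    have h5 : C ≤ i := by
      by_contra hn
      have h6 := hC.2.1 i (by omega)
      linarith
    have h6 : i < C' := by
      by_contra hn
      have h7 := hC'.2.2 i (by omega) h3
      linarith
    refine ⟨i - C, ?_, ?_⟩
    · rw [List.mem_range]
      omega
    · have h7 : o + C + (i - C) = o + i := by omega
      rw [h7, h4]
      ring

theorem nodup_rg {L : List ℤ} {o : ℕ} {lo hi : ℤ} {m : ℕ}
    (hs : ∀ i j, i ≤ j → o + j < L.length → gt L (o + i) ≤ gt L (o + j))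
    (hd : ∀ i j, i < j → o + j < L.length → gt L (o + i) ≠ gt L (o + j))
    (hm : L.length < 2 ^ m) : (rg L o lo hi m).Nodup := by
  obtain ⟨C', hC', hC1'⟩ := exists_cnt hi hs
  have e2 := lb_eq hC' (lt_of_le_of_lt hC1' hm)
  unfold rg BE.tb
  rw [e2]
  refine List.Nodup.map_on ?_ List.nodup_range
  intro i hi' j hj hij
  rw [List.mem_range] at hi' hj
  have h0 : o + C' ≤ L.length := by
    rcases hC'.1 with h | h
    · exact h
    · omega
  have h1 : gt L (o + lb L o lo m + i) = gt L (o + lb L o lo m + j) := by linarith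
  rw [Nat.add_assoc, Nat.add_assoc] at h1
  rcases Nat.lt_trichotomy i j with h | h | h
  · exact absurd h1 (hd _ _ (by omega) (by omega))
  · exact h
  · exact absurd h1.symm (hd _ _ (by omega) (by omega))

section

variable {A : Type} {N : A → ℕ} {D : A → Prop} {Γ : List Ty} {ρ : A → Env Γ}

/-- The bisection needs polynomial time. -/
theorem c_lb {L : A → List ℤ} {o m : A → ℕ} {z : A → ℤ} (hL : PA N D ρ L) (ho : PN N D ρ o)
    (hz : PI N D ρ z) (hm : PN N D ρ m) (bm : Bd N D m) :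
    PN N D ρ (fun a => lb (L a) (o a) (z a) (m a)) := by
  have hLl := PN.len hL
  have h := Cp.iter (s := fun a j => bs (L a) (o a) (z a) (m a) j) (w := fun _ _ => 1) (w0 := one)
    hm (PA.one (PI.const 0))
    (by
      obtain ⟨c, hc⟩ := bm
      refine ⟨c + 2, fun a ha j hj => ?_⟩
      obtain ⟨x, hx⟩ := bs_one (L a) (o a) (z a) (m a) j
      have hb : ∀ j ≤ m a, ∀ x : ℕ, bs (L a) (o a) (z a) (m a) j = [(x : ℤ)] →
          x + 2 ^ (m a - j) ≤ 2 ^ (m a) := by
        intro j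
        induction j with
        | zero =>
          intro _ x hx
          have h1 : ([0] : List ℤ) = [(x : ℤ)] := hx
          have h2 : x = 0 := by
            have := List.head_eq_of_cons_eq h1
            exact_mod_cast this.symm
          rw [h2]
          simp
        | succ j ih =>
          intro hj x hx
          obtain ⟨y, hy⟩ := bs_one (L a) (o a) (z a) (m a) j
          have h1 := ih (by omega) y hy
          have e2 : 2 ^ (m a - j) = 2 ^ (m a - (j + 1)) + 2 ^ (m a - (j + 1)) := by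
            have : m a - j = (m a - (j + 1)) + 1 := by omega
            rw [this, pow_succ]
            omega
          have e1 : m a - 1 - j = m a - (j + 1) := by omega
          have hp : 0 < 2 ^ (m a - (j + 1)) := by positivity
          rw [bs_succ, hy, e1] at hx
          split_ifs at hx
          · have h2 := List.head_eq_of_cons_eq hx
            have h3 : y + 2 ^ (m a - (j + 1)) = x := by
              have h4 : gt [(y : ℤ)] 0 = y := by simp [gt]
              rw [h4] at h2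
              exact_mod_cast h2
            omega
          · have h2 := List.head_eq_of_cons_eq hx
            have h3 : y = x := by exact_mod_cast h2
            omega
      have h1 := hb j hj.le x hx
      rw [hx]
      change BE.asz _ + Nat.size _ ≤ _
      have h2 : BE.asz [(x : ℤ)] ≤ m a := asz_le fun y hy => by
        rw [List.mem_singleton.1 hy]
        unfold BE.sz
        rw [Int.natAbs_natCast, Nat.size_le]
        have : 0 < 2 ^ (m a - j) := by positivity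
        omega
      have h3 : Nat.size ([(x : ℤ)] : List ℤ).length ≤ 1 := by simp
      have h4 := hc a ha
      have h5 : 1 ≤ (N a + 2) ^ c := Nat.one_le_pow _ _ (by omega)
      have h6 : (N a + 2) ^ (c + 2) = (N a + 2) ^ c * ((N a + 2) * (N a + 2)) := by ring
      have h7 : 2 ≤ (N a + 2) * (N a + 2) := by nlinarith
      have h8 : (N a + 2) ^ c * 2 ≤ (N a + 2) ^ c * ((N a + 2) * (N a + 2)) :=
        Nat.mul_le_mul_left _ h7
      omega)
    fun Γ1 ρ1 up hj hs => by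
      have bm1 : Bd (NL N) (DL D m) (fun p => m p.1 - 1 - p.2) :=
        (bm.up m).le fun p _ => (Nat.sub_le _ _).trans (Nat.sub_le _ _)
      have hpw := PN.pow2 (PN.sub (PN.sub (up.n hm) (PN.const 1)) hj) bm1
      have hg := PI.get hs (PN.const 0)
      have hi := PN.add (PN.add (up.n ho) (PN.toNat hg)) hpw
      have hq := PB.and (PB.leN hi (PN.len (up.a hL)))
        (PB.lt (PI.get (up.a hL) (PN.sub hi (PN.const 1))) (up.i hz))
      have h1 : PI (NL N) (DL D m) ρ1 (fun p => gt (bs (L p.1) (o p.1) (z p.1) (m p.1) p.2) 0 +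
          2 ^ (m p.1 - 1 - p.2)) := (PI.add hg hpw).congr fun p _ => by push_cast; rfl
      refine ((Cp.iteA hq ((PA.one h1).dom fun a h => h.1) (hs.dom fun a h => h.1)).mono
        fun p _ τ _ => ?_).congr fun p _ => (bs_succ _ _ _ _ _).symm
      simp only [one]
      split_ifs <;> exact le_rfl
  obtain ⟨c, hc⟩ := bm
  have h2 : PA N D ρ (fun a => bs (L a) (o a) (z a) (m a) (m a)) := by
    refine h.mono_poly (c + 1) fun a ha τ _ => ⟨le_rfl, ?_⟩
    have h4 : (0 : ℝ) ≤ N a := Nat.cast_nonneg _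
    have h5 : (m a : ℝ) ≤ ((N a : ℝ) + 2) ^ c := by exact_mod_cast hc a ha
    have h8 : (1 : ℝ) ≤ ((N a : ℝ) + 2) ^ c := one_le_pow₀ (by linarith)
    rw [Finset.sum_const, Finset.card_range, nsmul_eq_mul, pow_succ]
    simp only [one]
    nlinarith
  exact PN.toNat (PI.get h2 (PN.const 0))

/-- The range needs time `poly * (number of entries + 1)`. -/
theorem c_rg {L : A → List ℤ} {o m : A → ℕ} {lo hi : A → ℤ} (hL : PA N D ρ L) (ho : PN N D ρ o)
    (hlo : PI N D ρ lo) (hhi : PI N D ρ hi) (hm : PN N D ρ m) (bm : Bd N D m) :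
    Cp N D ρ (fun _ a => ((rg (L a) (o a) (lo a) (hi a) (m a)).length : ℝ) + 1) .arr
      (fun a => rg (L a) (o a) (lo a) (hi a) (m a)) := by
  have h1 := c_lb hL ho hlo hm bm
  have h2 := c_lb hL ho hhi hm bm
  have h := Cp.tab (w := one) (PN.sub h2 h1) (fun _ _ _ _ => le_refl _)
    (f := fun a i => gt (L a) (o a + lb (L a) (o a) (lo a) (m a) + i) - lo a)
    fun Γ1 ρ1 up hv => PI.sub (PI.get (up.a hL) (PN.add (PN.add (up.n ho) (up.n h1)) hv)) (up.i hlo)
  refine h.mono fun a _ τ _ => ?_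
  unfold rg BE.tb
  rw [List.length_map, List.length_range, one, mul_one]

end

end Pool.Agent.MPa9445a.GS
end
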