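import Pool.Agent.Lib.MP_a9445a_lc.Mg.G149
import Pool.Agent.Lib.MP_a9445a_lc.Mg.G148
import Pool.Agent.Lib.MP_a9445a_lc.Mg.G122
import Pool.Agent.Lib.MP_a9445a_lc.Mg.G128
import Pool.Agent.Lib.MP_a9445a_lc.SB.Mod
import Pool.Agent.Lib.MP_a9445a_lc.Mg.G125

section

/-! The basis is computed in polynomial time. -/

set_option autoImplicit false

open Finset

namespace Pool.Agent.MPa9445a.GS

open Pool.Agent.MPa9445a.BE (Ty Env vs one Bd NL DL tb flt gt bit Phi vec code lin argmax Bd.const
  Bd.add Bd.mul Bd.le Bd.up Bd.var Bd.self fv)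
open Pool.Agent.MPa9445a.GD

variable {A : Type} {N : A → ℕ} {D : A → Prop} {Γ : List Ty} {ρ : A → Env Γ}

theorem c_parN {n o i c : A → ℕ} {R : A → List ℤ} (hn : PN N D ρ n) (bn : Bd N D n)
    (hR : PA N D ρ R) (ho : PN N D ρ o) (hi : PN N D ρ i) (hc : PN N D ρ c) :
    PN N D ρ (fun a => parN (n a) (R a) (o a) (i a) (c a)) := by
  refine PN.toNat (PI.mod (PI.sum hn bn fun Γ1 ρ1 up hv => ?_) (PI.const 2))
  exact PI.mul (PI.get (up.a hR) (PN.add (PN.add (up.n ho) (PN.mul (up.n hi) (up.n hn))) hv))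
    (PN.bit (up.n hc) hv (Bd.var bn))

theorem c_xr {n x y : A → ℕ} (hn : PN N D ρ n) (bn : Bd N D n) (hx : PN N D ρ x)
    (hy : PN N D ρ y) : PN N D ρ (fun a => xr (n a) (x a) (y a)) := by
  refine PN.sum hn bn fun Γ1 ρ1 up hv => ?_
  exact PN.mul (PN.mod (PN.add (PN.bit (up.n hx) hv (Bd.var bn)) (PN.bit (up.n hy) hv (Bd.var bn)))
    (PN.const 2)) (PN.pow2 hv (Bd.var bn))

theorem c_cmbL {n w : A → ℕ} {z : A → List ℤ} (hn : PN N D ρ n) (bn : Bd N D n)
    (hz : PA N D ρ z) (hw : PN N D ρ w) : PN N D ρ (fun a => cmbL (n a) (z a) (w a)) := by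
  refine PN.sum hn bn fun Γ1 ρ1 up hv => ?_
  refine PN.mul (PN.mod (PN.sum (up.n hn) (bn.up _) fun Γ2 ρ2 up2 hj => ?_) (PN.const 2))
    (PN.pow2 hv (Bd.var bn))
  exact PN.mul (PN.bit (up2.n (up.n hw)) hj (Bd.var (bn.up _)))
    (PN.bit (PN.toNat (PI.get (up2.a (up.a hz)) hj)) (up2.n hv) ((Bd.var bn).up _))

theorem c_pvL {n o i : A → ℕ} {R z : A → List ℤ} (hn : PN N D ρ n) (bn : Bd N D n)
    (hR : PA N D ρ R) (ho : PN N D ρ o) (hi : PN N D ρ i) (hz : PA N D ρ z) :
    PA N D ρ (fun a => pvL (n a) (R a) (o a) (i a) (z a)) := by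
  have hf : PN N D ρ (fun a => foL (n a) (R a) (o a) (i a) (z a)) := by
    have bn' := bn
    obtain ⟨m, hm⟩ := bn'
    refine (Cp.amax hn (w := one) (f := fun a j => (parN (n a) (R a) (o a) (i a)
      (gt (z a) j).toNat : ℤ)) (fun _ _ _ _ => le_rfl) fun Γ1 ρ1 up hv =>
        c_parN (up.n hn) (bn.up _) (up.a hR) (up.n ho) (up.n hi)
          (PN.toNat (PI.get (up.a hz) hv))).mono_poly (m + 1) fun a ha τ _ => ⟨le_rfl, ?_⟩
    have h4 : (0 : ℝ) ≤ N a := Nat.cast_nonneg _
    have h5 : (n a : ℝ) ≤ ((N a : ℝ) + 2) ^ m := by exact_mod_cast hm a ha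
    have h8 : (1 : ℝ) ≤ ((N a : ℝ) + 2) ^ m := one_le_pow₀ (by linarith)
    rw [pow_succ]
    simp only [one]
    nlinarith
  refine PA.tab hn bn fun Γ1 ρ1 up hv => ?_
  have hg := PN.toNat (PI.get (up.a hz) hv)
  exact Cp.ite (PB.eqN (c_parN (up.n hn) (bn.up _) (up.a hR) (up.n ho) (up.n hi) hg) (PN.const 1))
    (c_xr (up.n hn) (bn.up _) hg (PN.toNat (PI.get (up.a hz) (up.n hf))))
    (PI.get (up.a hz) hv)

private theorem K3_xr (n a b : ℕ) : xr n a b < 2 ^ n := by
  unfold xr
  induction n with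
  | zero => simp
  | succ n ih =>
    rw [Finset.sum_range_succ, pow_succ]
    have h1 : (bit a n + bit b n) % 2 < 2 := Nat.mod_lt _ (by norm_num)
    have h2 : (bit a n + bit b n) % 2 * 2 ^ n ≤ 1 * 2 ^ n := Nat.mul_le_mul_right _ (by omega)
    omega

private theorem K3_entry (n : ℕ) (R : List ℤ) (o : ℕ) (s : List ℤ) (i : ℕ) :
    ∀ x ∈ kzL n R o s i, 0 ≤ x ∧ x < 2 ^ n := by
  have h2n : (0 : ℤ) < 2 ^ n := by positivity
  induction i with
  | zero =>
    intro x hx
    change x ∈ tb n (fun j => if gt s j = 2 then 2 ^ j else 0) at hx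
    unfold BE.tb at hx
    rw [List.mem_map] at hx
    obtain ⟨j, hj, rfl⟩ := hx
    rw [List.mem_range] at hj
    split_ifs
    · exact ⟨by positivity, pow_lt_pow_right₀ (by norm_num) hj⟩
    · exact ⟨le_rfl, h2n⟩
  | succ i ih =>
    intro x hx
    change x ∈ pvL n R o i (kzL n R o s i) at hx
    unfold pvL BE.tb at hx
    rw [List.mem_map] at hx
    obtain ⟨j, hj, rfl⟩ := hx
    have hg : ∀ j : ℕ, 0 ≤ gt (kzL n R o s i) j ∧ gt (kzL n R o s i) j < 2 ^ n := by
      intro j
      by_cases h : j < (kzL n R o s i).length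
      · exact ih _ (gt_mem h)
      · have h3 : gt (kzL n R o s i) j = 0 := List.getD_eq_default _ _ (not_lt.1 h)
        rw [h3]
        exact ⟨le_rfl, h2n⟩
    split_ifs
    · refine ⟨Int.natCast_nonneg _, ?_⟩
      exact_mod_cast K3_xr n _ _
    · exact hg j

private theorem K3_len (n : ℕ) (R : List ℤ) (o : ℕ) (s : List ℤ) (i : ℕ) :
    (kzL n R o s i).length = n := by
  cases i with
  | zero => exact GL.length_tb _ _
  | succ i => exact GL.length_tb _ _

/-- The basis. -/
theorem c_kzL {n o i : A → ℕ} {R s : A → List ℤ} (hn : PN N D ρ n) (bn : Bd N D n)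
    (hR : PA N D ρ R) (ho : PN N D ρ o) (hs : PA N D ρ s) (hi : PN N D ρ i) (bi : Bd N D i) :
    PA N D ρ (fun a => kzL (n a) (R a) (o a) (s a) (i a)) := by
  have h0 : PA N D ρ (fun a => kzL (n a) (R a) (o a) (s a) 0) := by
    refine PA.tab hn bn fun Γ1 ρ1 up hv => ?_
    refine Cp.ite (PB.eq (PI.get (up.a hs) hv) (PI.const 2)) ?_ (PI.const 0)
    refine (PN.pow2 hv (Bd.var bn)).congr fun a _ => ?_
    push_cast
    rfl
  have h := Cp.iter (s := fun a j => kzL (n a) (R a) (o a) (s a) j) (w := fun _ _ => 1) (w0 := one)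
    hi h0 (by
      obtain ⟨m, hm⟩ := bn
      refine ⟨m + 2, fun a ha j _ => ?_⟩
      have h1 : BE.asz (kzL (n a) (R a) (o a) (s a) j) ≤ n a := asz_le fun x hx => by
        obtain ⟨h2, h3⟩ := K3_entry _ _ _ _ _ x hx
        unfold BE.sz
        rw [Nat.size_le]
        zify
        rw [abs_of_nonneg h2]
        exact h3
      have h2 : Nat.size (kzL (n a) (R a) (o a) (s a) j).length ≤ n a := by
        rw [K3_len, Nat.size_le]
        exact Nat.lt_two_pow_self
      change BE.asz _ + Nat.size _ ≤ _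
      have h3 := hm a ha
      have h4 : 1 ≤ (N a + 2) ^ m := Nat.one_le_pow _ _ (by omega)
      have h5 : (N a + 2) ^ (m + 2) = (N a + 2) ^ m * ((N a + 2) * (N a + 2)) := by ring
      have h6 : 2 ≤ (N a + 2) * (N a + 2) := by nlinarith
      have h7 : (N a + 2) ^ m * 2 ≤ (N a + 2) ^ m * ((N a + 2) * (N a + 2)) :=
        Nat.mul_le_mul_left _ h6
      omega)
    fun Γ1 ρ1 up hj hz => by
      exact c_pvL (up.n hn) (bn.up _) (up.a hR) (up.n ho) hj hz
  obtain ⟨m, hm⟩ := bi
  refine h.mono_poly (m + 1) fun a ha τ _ => ⟨le_rfl, ?_⟩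
  have h4 : (0 : ℝ) ≤ N a := Nat.cast_nonneg _
  have h5 : (i a : ℝ) ≤ ((N a : ℝ) + 2) ^ m := by exact_mod_cast hm a ha
  have h8 : (1 : ℝ) ≤ ((N a : ℝ) + 2) ^ m := one_le_pow₀ (by linarith)
  rw [Finset.sum_const, Finset.card_range, nsmul_eq_mul, pow_succ]
  simp only [one]
  nlinarith

end Pool.Agent.MPa9445a.GS
end

section

/-!
# The list of the small sets in the code

The subsets of the second half are sorted by size and syndrome, the subsets of the first half are completed by
range queries.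
-/

set_option autoImplicit false

open Finset
open scoped symmDiff

namespace Pool.Agent.MPa9445a.GS

open Pool.Agent.MPa9445a.BE (Ty Env vs one Bd NL DL tb flt gt bit Phi vec code lin argmax Bd.const
  Bd.add Bd.mul Bd.le Bd.up Bd.var Bd.self)
open Pool.Agent.MPa9445a.GD
open Pool.Agent.MPa9445a.SN (ST)

/-- The number of elements of the set with code `c`. -/
def pcn (n c : ℕ) : ℕ := ∑ v ∈ range n, bit c v

/-- The syndrome for `r` rows. -/
def sdr (n : ℕ) (H : List ℤ) (o r c : ℕ) : ℕ := ∑ i ∈ range r, parN n H o i c * 2 ^ i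

/-- The key of a subset of the second half. -/
def key (n : ℕ) (H : List ℤ) (o r c : ℕ) : ℕ := (pcn n c * 2 ^ r + sdr n H o r c) * 2 ^ n + c

/-- The number of bits of the keys. -/
def kbt (n r : ℕ) : ℕ := 2 * n + r

/-- The sorted subsets of the second half. -/
def lse (n : ℕ) (H : List ℤ) (o r : ℕ) : List ℤ :=
  srt (kbt n r) (tb (2 ^ (n - n / 2)) fun x => (key n H o r (x * 2 ^ (n / 2)) : ℤ))

/-- The lower end of the range for the set `c` of the first half and the size `j` of the second part. -/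
def lok (n : ℕ) (H : List ℤ) (o r c j : ℕ) : ℤ := ((j * 2 ^ r + sdr n H o r c : ℕ) : ℤ) * 2 ^ n

/-- The subsets of the second half with `j` elements and the same syndrome as `c`, `L` the sorted list. -/
def qry (n : ℕ) (H L : List ℤ) (o r c j : ℕ) : List ℤ :=
  rg L 0 (lok n H o r c j) (lok n H o r c j + 2 ^ n) (kbt n r + 1)

/-- The list of the sets with at most `s` elements in the code, `L` the sorted list. -/
def lsD (n : ℕ) (H L : List ℤ) (o r s : ℕ) : List ℤ :=
  fm (2 ^ (n / 2) * (s + 1)) fun x =>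
    if pcn n (x / (s + 1)) + x % (s + 1) ≤ s then
      (qry n H L o r (x / (s + 1)) (x % (s + 1))).map fun y => y + ((x / (s + 1) : ℕ) : ℤ)
    else []

/-- The length of the list, computed without the list. -/
def lsn (n : ℕ) (H L : List ℤ) (o r s : ℕ) : ℕ :=
  ∑ x ∈ range (2 ^ (n / 2) * (s + 1)), if pcn n (x / (s + 1)) + x % (s + 1) ≤ s then
    lb L 0 (lok n H o r (x / (s + 1)) (x % (s + 1)) + 2 ^ n) (kbt n r + 1) -
      lb L 0 (lok n H o r (x / (s + 1)) (x % (s + 1))) (kbt n r + 1) else 0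

private theorem L1_bit (c i : ℕ) : bit c i = 0 ∨ bit c i = 1 := by
  unfold BE.bit
  omega

theorem length_lsD (n : ℕ) (H L : List ℤ) (o r s : ℕ) :
    (lsD n H L o r s).length = lsn n H L o r s := by
  unfold lsD lsn
  rw [length_fm]
  refine Finset.sum_congr rfl fun x _ => ?_
  split_ifs
  · rw [List.length_map]
    unfold qry rg BE.tb
    rw [List.length_map, List.length_range]
  · rfl

theorem bit_add {k c x : ℕ} (hc : c < 2 ^ k) (v : ℕ) :
    bit (c + x * 2 ^ k) v = bit c v + bit (x * 2 ^ k) v := by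
  unfold BE.bit
  rcases Nat.lt_or_ge v k with h | h
  · have e1 : x * 2 ^ k = 2 ^ v * (2 * (x * 2 ^ (k - v - 1))) := by
      have : k = v + (1 + (k - v - 1)) := by omega
      conv_lhs => rw [this, pow_add, pow_add, pow_one]
      ring
    rw [e1, Nat.add_mul_div_left _ _ (by positivity), Nat.mul_div_cancel_left _ (by positivity),
      Nat.add_mul_mod_self_left, Nat.mul_mod_right, add_zero]
  · have e1 : 2 ^ v = 2 ^ k * 2 ^ (v - k) := by
      rw [← pow_add]
      congr 1
      omega
    have e2 : c / 2 ^ v = 0 :=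
      Nat.div_eq_of_lt (hc.trans_le (Nat.pow_le_pow_right (by norm_num) h))
    rw [e2, e1, ← Nat.div_div_eq_div_mul, ← Nat.div_div_eq_div_mul,
      Nat.add_mul_div_right _ _ (by positivity), Nat.div_eq_of_lt hc, zero_add,
      Nat.mul_div_cancel _ (by positivity), Nat.zero_mod, zero_add]

theorem pcn_add {n k c x : ℕ} (hc : c < 2 ^ k) :
    pcn n (c + x * 2 ^ k) = pcn n c + pcn n (x * 2 ^ k) := by
  unfold pcn
  rw [← Finset.sum_add_distrib]
  exact Finset.sum_congr rfl fun v _ => bit_add hc v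

theorem parN_add {n : ℕ} {H : List ℤ} {o i k c x : ℕ} (hc : c < 2 ^ k) :
    parN n H o i (c + x * 2 ^ k) = (parN n H o i c + parN n H o i (x * 2 ^ k)) % 2 := by
  unfold parN
  have h1 : ∑ v ∈ range n, gt H (o + i * n + v) * (bit (c + x * 2 ^ k) v : ℤ) =
      ∑ v ∈ range n, gt H (o + i * n + v) * (bit c v : ℤ) +
        ∑ v ∈ range n, gt H (o + i * n + v) * (bit (x * 2 ^ k) v : ℤ) := by
    rw [← Finset.sum_add_distrib]
    refine Finset.sum_congr rfl fun v _ => ?_
    rw [bit_add hc v]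
    push_cast
    ring
  rw [h1]
  omega

theorem parN_lt (n : ℕ) (H : List ℤ) (o i c : ℕ) : parN n H o i c = 0 ∨ parN n H o i c = 1 := by
  unfold parN
  omega

private theorem L1_sum_lt (f : ℕ → ℕ) (hf : ∀ v, f v = 0 ∨ f v = 1) (m : ℕ) :
    ∑ v ∈ range m, f v * 2 ^ v < 2 ^ m := by
  induction m with
  | zero => simp
  | succ m ih =>
    rw [Finset.sum_range_succ, pow_succ]
    rcases hf m with h | h
    · rw [h]
      omega
    · rw [h]
      omega

theorem sdr_lt (n : ℕ) (H : List ℤ) (o r c : ℕ) : sdr n H o r c < 2 ^ r :=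
  L1_sum_lt _ (fun i => parN_lt n H o i c) r

theorem sdr_eq_iff {n : ℕ} {H : List ℤ} {o r c c' : ℕ} :
    sdr n H o r c = sdr n H o r c' ↔ ∀ i < r, parN n H o i c = parN n H o i c' := by
  constructor
  · intro h i hi
    have h1 : ST r (sdr n H o r c) = ST r (sdr n H o r c') := by rw [h]
    unfold sdr at h1
    rw [GL.ST_sum _ (fun i => parN_lt n H o i c), GL.ST_sum _ (fun i => parN_lt n H o i c')] at h1
    have h2 := Finset.ext_iff.1 h1 ⟨i, hi⟩
    rw [mem_filter, mem_filter] at h2
    simp only [mem_univ, true_and] at h2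
    rcases parN_lt n H o i c with h3 | h3
    · rcases parN_lt n H o i c' with h4 | h4
      · rw [h3, h4]
      · exact absurd (h2.2 h4) (by rw [h3]; norm_num)
    · rw [h3, h2.1 h3]
  · intro h
    unfold sdr
    exact Finset.sum_congr rfl fun i hi => by rw [h i (mem_range.1 hi)]

theorem pcn_le (n c : ℕ) : pcn n c ≤ n := by
  unfold pcn
  calc ∑ v ∈ range n, bit c v ≤ ∑ _v ∈ range n, 1 :=
        Finset.sum_le_sum fun v _ => by rcases L1_bit c v with h | h <;> omega
    _ = n := by simp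

theorem key_lt {n : ℕ} {H : List ℤ} {o r c : ℕ} (hc : c < 2 ^ n) :
    key n H o r c < 2 ^ kbt n r := by
  unfold key kbt
  have h1 := sdr_lt n H o r c
  have h2 := pcn_le n c
  have h3 : n < 2 ^ n := Nat.lt_two_pow_self
  have h4 : pcn n c * 2 ^ r + sdr n H o r c + 1 ≤ 2 ^ n * 2 ^ r := by
    calc pcn n c * 2 ^ r + sdr n H o r c + 1 ≤ pcn n c * 2 ^ r + 2 ^ r := by omega
      _ = (pcn n c + 1) * 2 ^ r := by ring
      _ ≤ 2 ^ n * 2 ^ r := Nat.mul_le_mul_right _ (by omega)
  calc (pcn n c * 2 ^ r + sdr n H o r c) * 2 ^ n + c <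
        (pcn n c * 2 ^ r + sdr n H o r c) * 2 ^ n + 2 ^ n := by omega
    _ = (pcn n c * 2 ^ r + sdr n H o r c + 1) * 2 ^ n := by ring
    _ ≤ 2 ^ n * 2 ^ r * 2 ^ n := Nat.mul_le_mul_right _ h4
    _ = 2 ^ (2 * n + r) := by rw [pow_add, two_mul, pow_add]; ring

private theorem L1_mod {a k c : ℕ} (hc : c < k) : (a * k + c) % k = c := by
  rw [Nat.mul_comm, Nat.mul_add_mod, Nat.mod_eq_of_lt hc]

private theorem L1_half {n x : ℕ} (hx : x < 2 ^ (n - n / 2)) : x * 2 ^ (n / 2) < 2 ^ n := by
  calc x * 2 ^ (n / 2) < 2 ^ (n - n / 2) * 2 ^ (n / 2) :=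
        Nat.mul_lt_mul_of_pos_right hx (by positivity)
    _ = 2 ^ n := by rw [← pow_add]; congr 1; omega

theorem mem_lse {n : ℕ} {H : List ℤ} {o r : ℕ} {z : ℤ} : z ∈ lse n H o r ↔
    ∃ x < 2 ^ (n - n / 2), ((key n H o r (x * 2 ^ (n / 2)) : ℕ) : ℤ) = z := by
  unfold lse
  rw [(srt_perm _ _).mem_iff]
  unfold BE.tb
  rw [List.mem_map]
  simp only [List.mem_range]

theorem length_lse (n : ℕ) (H : List ℤ) (o r : ℕ) : (lse n H o r).length = 2 ^ (n - n / 2) := by
  unfold lse
  rw [(srt_perm _ _).length_eq]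
  unfold BE.tb
  rw [List.length_map, List.length_range]

private theorem L1_bounds {n : ℕ} {H : List ℤ} {o r : ℕ} : ∀ x ∈ (tb (2 ^ (n - n / 2)) fun x =>
    (key n H o r (x * 2 ^ (n / 2)) : ℤ)), 0 ≤ x ∧ x < 2 ^ kbt n r := by
  intro z hz
  unfold BE.tb at hz
  rw [List.mem_map] at hz
  obtain ⟨x, hx, rfl⟩ := hz
  rw [List.mem_range] at hx
  exact ⟨Int.natCast_nonneg _, by exact_mod_cast key_lt (L1_half hx)⟩

private theorem L1_key_inj {n : ℕ} {H : List ℤ} {o r c c' : ℕ} (hc : c < 2 ^ n) (hc' : c' < 2 ^ n)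
    (h : key n H o r c = key n H o r c') : c = c' := by
  unfold key at h
  have h1 : ((pcn n c * 2 ^ r + sdr n H o r c) * 2 ^ n + c) % 2 ^ n = c := L1_mod hc
  have h2 : ((pcn n c' * 2 ^ r + sdr n H o r c') * 2 ^ n + c') % 2 ^ n = c' := L1_mod hc'
  rw [← h1, h, h2]

theorem sorted_lse (n : ℕ) (H : List ℤ) (o r : ℕ) : ∀ i j, i ≤ j → 0 + j < (lse n H o r).length →
    gt (lse n H o r) (0 + i) ≤ gt (lse n H o r) (0 + j) := by
  intro i j hij hj
  rw [zero_add] at hj ⊢
  rw [zero_add]
  rcases Nat.eq_or_lt_of_le hij with h1 | h1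
  · rw [h1]
  · have h2 := List.pairwise_iff_getElem.1 (srt_sorted (L1_bounds (n := n) (H := H) (o := o) (r := r)))
      i j (h1.trans hj) hj h1
    rw [BE.gt, BE.gt, List.getD_eq_getElem _ _ hj, List.getD_eq_getElem _ _ (h1.trans hj)]
    exact h2

private theorem L1_gt {L : List ℤ} {z : ℤ} : (∃ i, 0 + i < L.length ∧ gt L (0 + i) = z) ↔ z ∈ L := by
  simp only [zero_add]
  constructor
  · rintro ⟨i, hi, rfl⟩
    exact gt_mem hi
  · intro h
    obtain ⟨i, hi, he⟩ := mem_gt h
    exact ⟨i, hi, he⟩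

/-- The range queries. -/
theorem mem_qry {n : ℕ} {H : List ℤ} {o r c j : ℕ} {y : ℤ} :
    y ∈ qry n H (lse n H o r) o r c j ↔ ∃ x < 2 ^ (n - n / 2),
      pcn n (x * 2 ^ (n / 2)) = j ∧ sdr n H o r (x * 2 ^ (n / 2)) = sdr n H o r c ∧
        ((x * 2 ^ (n / 2) : ℕ) : ℤ) = y := by
  have hlen : (lse n H o r).length < 2 ^ (kbt n r + 1) := by
    rw [length_lse]
    refine Nat.pow_lt_pow_right (by norm_num) ?_
    unfold kbt
    omega
  unfold qry
  rw [mem_rg (sorted_lse n H o r) hlen, L1_gt, mem_lse]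
  have h2n : ((2 : ℤ) ^ n) = ((2 ^ n : ℕ) : ℤ) := by push_cast; rfl
  constructor
  · rintro ⟨h1, h2, x, hx, h3⟩
    have hc := L1_half hx
    obtain ⟨u, rfl⟩ : ∃ u : ℕ, (u : ℤ) = y := ⟨y.toNat, Int.toNat_of_nonneg h1⟩
    have hu : u < 2 ^ n := by
      have h4 : (u : ℤ) < 2 ^ n := by linarith
      rw [h2n] at h4
      exact_mod_cast h4
    have h5 : key n H o r (x * 2 ^ (n / 2)) = (j * 2 ^ r + sdr n H o r c) * 2 ^ n + u := by
      unfold lok at h3
      rw [h2n] at h3
      exact_mod_cast h3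
    unfold key at h5
    have e1 : x * 2 ^ (n / 2) = u := by
      have a1 : ((pcn n (x * 2 ^ (n / 2)) * 2 ^ r + sdr n H o r (x * 2 ^ (n / 2))) * 2 ^ n +
          x * 2 ^ (n / 2)) % 2 ^ n = x * 2 ^ (n / 2) := L1_mod hc
      have a2 : ((j * 2 ^ r + sdr n H o r c) * 2 ^ n + u) % 2 ^ n = u := L1_mod hu
      rw [← a1, h5, a2]
    have e2 : pcn n (x * 2 ^ (n / 2)) * 2 ^ r + sdr n H o r (x * 2 ^ (n / 2)) =
        j * 2 ^ r + sdr n H o r c := by
      have a3 : (pcn n (x * 2 ^ (n / 2)) * 2 ^ r + sdr n H o r (x * 2 ^ (n / 2))) * 2 ^ n =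
          (j * 2 ^ r + sdr n H o r c) * 2 ^ n := by omega
      exact Nat.eq_of_mul_eq_mul_right (by positivity) a3
    have s1 := sdr_lt n H o r (x * 2 ^ (n / 2))
    have s2 := sdr_lt n H o r c
    have e3 : sdr n H o r (x * 2 ^ (n / 2)) = sdr n H o r c := by
      have a1 : (pcn n (x * 2 ^ (n / 2)) * 2 ^ r + sdr n H o r (x * 2 ^ (n / 2))) % 2 ^ r =
          sdr n H o r (x * 2 ^ (n / 2)) := L1_mod s1
      have a2 : (j * 2 ^ r + sdr n H o r c) % 2 ^ r = sdr n H o r c := L1_mod s2
      rw [← a1, e2, a2]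
    have e4 : pcn n (x * 2 ^ (n / 2)) = j := by
      have a3 : pcn n (x * 2 ^ (n / 2)) * 2 ^ r = j * 2 ^ r := by omega
      exact Nat.eq_of_mul_eq_mul_right (by positivity) a3
    exact ⟨x, hx, e4, e3, by rw [e1]⟩
  · rintro ⟨x, hx, h1, h2, rfl⟩
    have hc := L1_half hx
    refine ⟨Int.natCast_nonneg _, ?_, x, hx, ?_⟩
    · have h4 : ((x * 2 ^ (n / 2) : ℕ) : ℤ) < 2 ^ n := by
        rw [h2n]
        exact_mod_cast hc
      linarith
    · unfold key lok
      rw [h1, h2]
      push_cast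
      ring

end Pool.Agent.MPa9445a.GS
end

section

/-!
# Numbers, layout of the arrays, golden procedure, leaves, enumeration

The array of the random bits and the table has the parts: bits of the golden procedure, rows of the code (`oH`),
families (`oF`), table (`oT`). Additional parameters are entries of the array of the matrix from the index `n * n` on.
-/

set_option autoImplicit false

open Finset

namespace Pool.Agent.MPa9445a.GS

open Pool.Agent.MPa9445a.BE (Ty Env vs one Bd NL DL tb flt gt bit Phi vec code lin argmax Bd.const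
  Bd.add Bd.mul Bd.le Bd.up Bd.var Bd.self)
open Pool.Agent.MPa9445a.GD
open Pool.Agent.MPa9445a.SN (kb)
open Pool.Agent.MPa9445a.GL (Pc Pf Df rk sv rc dk RL Zn LL lvv inl EE)

/-! ## Numbers -/

/-- `Nat.clog 2 x`, if `x ≤ 2 ^ B`. -/
def clg (B x : ℕ) : ℕ := ∑ j ∈ range B, if 2 ^ j < x then 1 else 0

/-- `Nat.log 2 x`, if `x < 2 ^ (B + 1)`. -/
def lgB (B x : ℕ) : ℕ := ∑ j ∈ range B, if 2 ^ (j + 1) ≤ x then 1 else 0

/-- `Nat.clog 2 (n + 2)`. -/
def lgn (n : ℕ) : ℕ := clg (n + 2) (n + 2)

/-- The rows of Pascal's triangle. -/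
def pas (m i : ℕ) : List ℤ :=
  itr (fun _ z => tb (m + 1) fun j => gt z j + if j = 0 then 0 else gt z (j - 1))
    (tb (m + 1) fun j => if j = 0 then 1 else 0) i

/-- The binomial coefficient. -/
def cho (m s : ℕ) : ℕ := (gt (pas m m) s).toNat

/-- The codimension of the code. -/
def Rc (n : ℕ) : ℕ := 1655 * n / 10000 + 1

/-- The largest size of the sets of the table. -/
def sN (n : ℕ) : ℕ := 1891 * n / 10000

/-- The exponent of the budget of the entries of the table. -/
def jt (n s : ℕ) : ℕ := 8 * (20 + 60 * lgn n) + 6943 * s / 10000 + 1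

/-- The exponent of the budget of the top level. -/
def g0 (n : ℕ) : ℕ := 6665 * n / 10000

/-- The exponent of the budget of the level 1. -/
def g1 (n : ℕ) : ℕ := 3330 * n / 10000

/-- The exponent of the budget of the level 2. -/
def g2 (n m s : ℕ) : ℕ := 2 * g1 n - clg m (cho m s)

/-! ## Layout -/

/-- The first entry of the rows of the code. -/
def oH (n : ℕ) : ℕ := 8 * Zn n * RL n

/-- The first entry of the families. -/
def oF (n : ℕ) : ℕ := oH n + Rc n * n

/-- The first entry of the family `i` (samples, sets in the code, sets) of the round `z` of the level `lev`. -/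
def fof (n lev z i : ℕ) : ℕ := oF n + ((lev * n + z) * 3 + i) * GL.bl n

/-- The first entry of the table. -/
def oT (n : ℕ) : ℕ := oF n + (2 * n + 1) * 3 * GL.bl n

/-- The number of random bits of a repetition. -/
def RB (n : ℕ) : ℕ := oT n - oH n

/-- The array of the repetition `z`: the last entry of every row of the code is the sum of the others. -/
def Rz (n : ℕ) (R : List ℤ) (z : ℕ) : List ℤ := tb (oT n) fun i =>
  if i < oH n then gt R i else
  if i < oF n ∧ (i - oH n) % n = n - 1 then (∑ u ∈ range (n - 1), gt R (i + z * RB n - (u + 1))) % 2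
    else gt R (i + z * RB n)

/-- The first `k` entries. -/
def cpy (k : ℕ) (L : List ℤ) : List ℤ := tb k fun i => gt L i

/-- The array of the matrix with the parameter `m`. -/
def pkM (n : ℕ) (M : List ℤ) (m : ℕ) : List ℤ := tb (n * n + 1) fun i =>
  if i < n * n then gt M i else m

/-- The array of the matrix with the parameters `m`, `Θ` and the scores. -/
def pkB (n : ℕ) (M : List ℤ) (m Θ : ℕ) (w x y : List ℤ) : List ℤ := tb (n * n + 2 + 3 * n) fun i =>
  if i < n * n then gt M i else if i = n * n then m else if i = n * n + 1 then Θ else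
  if i < n * n + 2 + n then gt w (i - (n * n + 2)) else
  if i < n * n + 2 + 2 * n then gt x (i - (n * n + 2 + n)) else gt y (i - (n * n + 2 + 2 * n))

/-! ## Sets -/

/-- The sets in the code: `o` is the first entry of the family. -/
def dFU : Df := fun n R o _ r _ κ => cmbL n (kzL n R (oH n) r (Rc n)) (rc n R o κ)

/-- The subsets of the block: `o` is the first entry of the family. -/
def dFB : Df := fun n R o _ r _ κ => dk n r (rc n R o κ)

/-- The number of nonzero entries `< n`. -/
def dmC (n : ℕ) (z : List ℤ) : ℕ := ∑ j ∈ range n, if gt z j = 0 then 0 else 1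

/-- The logarithm of the number of subsets of the block `s` in the code. -/
def dmL (n : ℕ) (R s : List ℤ) : ℕ := dmC n (kzL n R (oH n) s (Rc n))

/-! ## The golden procedure -/

/-- The golden procedure of depth 8. -/
def GO : Pf := fun n M R s p b => EE n (cpy (n * n) M) (cpy (oH n) R) 8 (cpy n s) p b

/-! ## The table -/

/-- The state of the block with code `c`. -/
def bkA (n c : ℕ) : List ℤ := tb n fun v => if bit c v = 1 then 2 else 0

/-- The small sets in the code. -/
def cdl (n : ℕ) (R : List ℤ) : List ℤ := lsD n R (lse n R (oH n) (Rc n)) (oH n) (Rc n) (sN n)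

/-- The sum of the budgets. -/
def tbw (n : ℕ) (R : List ℤ) : ℕ :=
  ∑ i ∈ range (cdl n R).length, 2 ^ jt n (pcn n (gt (cdl n R) i).toNat)

/-- The key of the set with code `c` and the level with index `x`. -/
def kyT (n c x : ℕ) : ℤ := ((c * LL n + x : ℕ) : ℤ) * 2 ^ (n + 1)

/-- The answer for the set with code `c` and the level with index `x`. -/
def anT (n : ℕ) (M R : List ℤ) (c x : ℕ) : List ℤ :=
  GO n M R (bkA n c) (lvv n x) (jt n (pcn n c))

/-- The entries of the table for the set with code `c` and the level with index `x`. -/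
def enT (n : ℕ) (M R : List ℤ) (c x : ℕ) : List ℤ :=
  if (anT n M R c x).length = 0 then [kyT n c x + 2 ^ n] else
    tb ((anT n M R c x).length - 1) fun i => kyT n c x + gt (anT n M R c x) (1 + i)

/-- The table before sorting. -/
def TBu (n : ℕ) (M R : List ℤ) : List ℤ :=
  fm ((cdl n R).length * LL n) fun y => enT n M R (gt (cdl n R) (y / LL n)).toNat (y % LL n)

/-- The number of bits for the entries of the table and for their number. -/
def kT (n : ℕ) : ℕ := 2 * n + 2 + LL n + oT n

/-- The table. -/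
def TB (n : ℕ) (M R : List ℤ) : List ℤ := srt (kT n) (TBu n M R)

/-- The first `k` entries of `R`, then the array `T`. -/
def cct (k : ℕ) (R T : List ℤ) : List ℤ := fm 2 fun i => if i = 0 then cpy k R else T

/-! ## The leaves -/

/-- The code of the set of the free vertices of the state. -/
def cdS (n : ℕ) (s : List ℤ) : ℕ := ∑ v ∈ range n, if gt s v = 2 then 2 ^ v else 0

/-- The index of the level `p`. -/
def lix (n : ℕ) (p : ℤ) : ℕ := (p + (n : ℤ) ^ 4).toNat

/-- The entries of the table for the block `s` and the level `p`. -/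
def loT (n : ℕ) (s : List ℤ) (p : ℤ) : ℤ := kyT n (cdS n s) (lix n p)

/-- The number of entries of the table for the block `s` and the level `p`. -/
def cnT (n : ℕ) (R s : List ℤ) (p : ℤ) : ℕ :=
  lb R (oT n) (loT n s p + 2 ^ (n + 1)) (kT n) - lb R (oT n) (loT n s p) (kT n)

/-- There is a table hit: the block is small and in the code, the entry exists, and it has at most `2 ^ b` elements. -/
def hit (n : ℕ) (R s : List ℤ) (p : ℤ) (b : ℕ) : Prop :=
  rk s n ≤ sN n ∧ sdr n R (oH n) (Rc n) (cdS n s) = 0 ∧ inl n p ∧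
    ¬ (cnT n R s p = 1 ∧ gt R (oT n + lb R (oT n) (loT n s p) (kT n)) = loT n s p + 2 ^ n) ∧
      cnT n R s p ≤ 2 ^ b

instance (n : ℕ) (R s : List ℤ) (p : ℤ) (b : ℕ) : Decidable (hit n R s p b) := by
  unfold hit
  infer_instance

/-- The leaves. -/
def LF : Pf := fun n M R s p b =>
  if hit n R s p b then 1 :: rg R (oT n) (loT n s p) (loT n s p + 2 ^ (n + 1)) (kT n)
    else GO n M R s p b

/-! ## The window -/

/-- The procedure `E` for blocks with sizes in the window, the size of the parent is `gt M (n * n)`. -/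
def WnL (d : ℕ) (E : Pf) : Pf := fun n M R s p b =>
  if (d : ℤ) * gt M (n * n) ≤ 10000 * (rk s n : ℤ) ∧
      10000 * (rk s n : ℤ) ≤ ((10000 - d : ℕ) : ℤ) * gt M (n * n) then E n M R s p b else [1]

/-! ## The enumeration -/

/-- The score of the entries `< v` of the prefix with code `c` and the least scores of the others. -/
def scp (n : ℕ) (M s : List ℤ) (c v : ℕ) : ℤ := ∑ u ∈ range n,
  if gt s u = 2 then
    if u < v then (if bit c u = 1 then gt M (n * n + 2 + 2 * n + u) else gt M (n * n + 2 + n + u))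
      else min (gt M (n * n + 2 + 2 * n + u)) (gt M (n * n + 2 + n + u))
  else gt M (n * n + 2 + u)

/-- The prefix number `x / 2` with the additional entry `x % 2` at `v`. -/
def enx (s z : List ℤ) (v x : ℕ) : ℕ :=
  (gt z (1 + x / 2)).toNat + if gt s v = 2 then x % 2 * 2 ^ v else 0

/-- The prefixes after the pass `v`. -/
def enp (n : ℕ) (M s z : List ℤ) (v : ℕ) : List ℤ :=
  1 :: fm (2 * (z.length - 1)) fun x =>
    if (gt s v = 2 ∨ x % 2 = 0) ∧ scp n M s (enx s z v x) (v + 1) ≤ gt M (n * n + 1) then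
      [(enx s z v x : ℤ)] else []

/-- The state of the enumeration before the pass `v`. -/
def ens (n : ℕ) (M s : List ℤ) (b v : ℕ) : List ℤ :=
  itr (fun v z => if z.length = 0 then [] else
    if 1 + 2 ^ b < (enp n M s z v).length then [] else enp n M s z v) [1, 0] v

/-- The enumeration. -/
def enu (n : ℕ) (M s : List ℤ) (p : ℤ) (b : ℕ) : List ℤ :=
  if (ens n M s b n).length = 0 then [] else
    1 :: fm ((ens n M s b n).length - 1) fun i =>
      if Phi n M (sv n s (gt (ens n M s b n) (1 + i)).toNat) = p then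
        [gt (ens n M s b n) (1 + i)] else []

/-- The children in mode B. -/
def EB (d : ℕ) : Pf := fun n M R s p b =>
  if 10000 * (rk s n : ℤ) < (d : ℤ) * gt M (n * n) then GO n M R s p b else
  if ((10000 - d : ℕ) : ℤ) * gt M (n * n) < 10000 * (rk s n : ℤ) then enu n M s p b else [1]

end Pool.Agent.MPa9445a.GS
end

section

/-! The condition for the table. -/

set_option autoImplicit false

open Finset

namespace Pool.Agent.MPa9445a.GS

/-- The number of the small sets in the code. -/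
def cdn (n : ℕ) (R : List ℤ) : ℕ := lsn n R (lse n R (oH n) (Rc n)) (oH n) (Rc n) (sN n)

/-- `1` if the sum of the budgets of the entries of the table is at most `2 ^ b`, otherwise `0`. -/
def tok (n : ℕ) (R : List ℤ) (b : ℕ) : ℕ :=
  if cdn n R ≤ 2 ^ b then (if tbw n R ≤ 2 ^ b then 1 else 0) else 0

end Pool.Agent.MPa9445a.GS
end

section

/-!
# The program: the step from the procedures for the children to the procedure for a block, and the levels

A procedure has the number of vertices, the matrix (with small parameters in the entries from `n * n` on), the array of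
the random bits (with the table of the leaves at its end), the state of a block, a level and the exponent of the budget as
arguments. It returns `[]` for a failure, otherwise `1 :: L`, `L` the list of the codes of the vectors which are found.
-/

set_option autoImplicit false

open Finset

namespace Pool.Agent.MPa9445a.SX

open Pool.Agent.MPa9445a.BE
open Pool.Agent.MPa9445a.GD (itr fm dd)
open Pool.Agent.MPa9445a.SN (kb)
open Pool.Agent.MPa9445a.GL (rk sv br rc dk bl YS Pc Pf run lvv LL tl)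
open Pool.Agent.MPa9445a.SB (Lev c1 c2)
open Pool.Agent.MPa9445a.GS (lgn lgB Rc g0 g1 g2 fof dFU dFB dmL pkM pkB WnL EB LF)

/-! ## Samples and scores -/

/-- The exponent of the number of samples. -/
def jx (n m g : ℕ) : ℕ := m + c1 * lgn n - g

/-- The digit number `i` of the pattern `x`: vertex and sign of the place `i`. -/
def dgt (n x i : ℕ) : ℕ := x / (2 * n) ^ i % (2 * n)

/-- The number of the places `i < l` where the vector `v` has not the sign of the pattern `x`. -/
def agc (n l x : ℕ) (v : List ℤ) : ℕ := ∑ i ∈ range l,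
  if gt v (dgt n x i / 2) = (if dgt n x i % 2 = 1 then 1 else -1) then 0 else 1

/-- The samples of value `t` with the pattern `x`. -/
def HA (n : ℕ) (M R : List ℤ) (o : ℕ) (s : List ℤ) (e : ℕ) (t : ℤ) (l x : ℕ) : List ℤ :=
  flt (2 ^ e) fun κ => Phi n M (sv n s (rc n R o κ)) = t ∧ agc n l x (sv n s (rc n R o κ)) = 0

/-- The samples of value `t` with the pattern `x` and the entry `1` at `v`. -/
def HV (n : ℕ) (M R : List ℤ) (o : ℕ) (s : List ℤ) (e : ℕ) (t : ℤ) (l x v : ℕ) : List ℤ :=
  flt (2 ^ e) fun κ => (Phi n M (sv n s (rc n R o κ)) = t ∧ agc n l x (sv n s (rc n R o κ)) = 0) ∧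
    gt (sv n s (rc n R o κ)) v = 1

/-- The frequency at `v` as a point of the grid. -/
def grN (n : ℕ) (M R : List ℤ) (o : ℕ) (s : List ℤ) (e : ℕ) (t : ℤ) (l m x v : ℕ) : ℕ :=
  m * (HV n M R o s e t l x v).length / (HA n M R o s e t l x).length

/-- The scores by the table `f`. -/
def scL (n : ℕ) (M R : List ℤ) (o : ℕ) (s : List ℤ) (e : ℕ) (t : ℤ) (l m : ℕ) (f : ℕ → ℕ) (x : ℕ) :
    List ℤ :=
  tb n fun v => if gt s v = 2 then (f (grN n M R o s e t l m x v) : ℤ) else 0

/-! ## The step -/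

section

variable (P : Lev) (Ch : Pf) (n : ℕ) (M R : List ℤ) (o : ℕ) (s : List ℤ) (g : ℕ)
  (p : ℤ) (b : ℕ) (t : ℤ)

/-- The number of the samples of value `t`. -/
def hN : ℕ := (YS n M R o s (jx n (rk s n) g) t).length

/-- The exponent of the number of tries. -/
def exL (c : ℕ) : ℕ := c + (c1 + c2) * lgn n - g - lgB (jx n (rk s n) g) (hN n M R o s g t)

/-- Mode U. -/
def UL : List ℤ :=
  run (Ch n (pkM n M (rk s n)) R) n (pkM n M (rk s n)) s
    (2 ^ exL n M R o s g t (dmL n R s + Rc n)) (fun κ => dFU n R (o + bl n) s s 0 κ) ((p + t) / 2) p b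

/-- The matrix with the parameters for the children in mode B for the pattern `x`. -/
def MB (x : ℕ) : List ℤ :=
  pkB n M (rk s n) (P.K * P.th * rk s n / 1000000)
    (scL n M R o s (jx n (rk s n) g) t P.l P.M P.tw x)
    (scL n M R o s (jx n (rk s n) g) t P.l P.M P.ta x)
    (scL n M R o s (jx n (rk s n) g) t P.l P.M P.tb x)

/-- Mode B for the pattern `x`. -/
def BL (x : ℕ) : List ℤ :=
  run (EB P.d n (MB P n M R o s g t x) R) n (MB P n M R o s g t x) s
    (2 ^ exL n M R o s g t (rk s n)) (fun κ => dFB n R (o + 2 * bl n) s s 0 κ) ((p + t) / 2) p b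

/-- The number of the patterns such that mode B fails. -/
def nB : ℕ := ∑ x ∈ range ((2 * n) ^ P.l), if (BL P n M R o s g p b t x).length = 0 then 1 else 0

/-- The attempt with the level `t`. -/
def atp : List ℤ :=
  if rk s n ≤ g + b then
    if 2 ^ (c1 * lgn n - 1) ≤ hN n M R o s g t ∧ (p + t) % 2 = 0 ∧
        exL n M R o s g t (dmL n R s + Rc n) ≤ b ∧ exL n M R o s g t (rk s n) ≤ b then
      if (UL Ch n M R o s g p b t).length = 0 then [] else
      if nB P n M R o s g p b t = 0 then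
        1 :: dd n (tl (UL Ch n M R o s g p b t) ++
          fm ((2 * n) ^ P.l) fun x => tl (BL P n M R o s g p b t x))
      else []
    else []
  else []

end

section

variable (P : Lev) (Ch : Pf) (gf : ℕ → List ℤ → List ℤ → ℕ) (lev : ℕ)

/-- The attempt with index `x`. -/
def atI (n : ℕ) (M R s : List ℤ) (p : ℤ) (b x : ℕ) : List ℤ :=
  atp P Ch n M R (fof n lev (x / LL n) 0) s (gf n M s) p b (lvv n (x % LL n))

/-- The procedure of a level. -/
def ndp : Pf := fun n M R s p b =>
  if rk s n ≤ b then 1 :: br n M s p else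
  if (p + Phi n M (sv n s 0)) % 2 ≠ 0 then [1] else
    atI P Ch gf lev n M R s p b
      (argmax (n * LL n) fun x => if (atI P Ch gf lev n M R s p b x.toNat).length = 0 then 0 else 1)

end

/-! ## The levels -/

/-- Level 2. -/
def P2 (PB : Lev) : Pf :=
  ndp PB (WnL PB.d LF) (fun n M s => g2 n (min (gt M (n * n)).toNat n) (rk s n)) 0

/-- Level 1. -/
def P1 (PA PB : Lev) : Pf := ndp PA (WnL PA.d (P2 PB)) (fun n _ _ => g1 n) 1

end Pool.Agent.MPa9445a.SX
end
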