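import Pool.Agent.Lib.MP_a9445a_lc.Mg.G124
import Pool.Agent.Lib.MP_a9445a_lc.Mg.G146
import Pool.Agent.Lib.MP_a9445a_lc.Mg.G150
import Pool.Agent.Lib.MP_a9445a_lc.Mg.G127

section

/-!
# The deterministic algorithm

Numbers `< 2 ^ k` are vectors of `k` binary digits. `cor` is the correlation of two functions on the group of these
numbers (by Walsh-Hadamard transforms). `vl` are the directions of the code, `lb` the class of a vector, `sl` the shifts,
`cl` the centers. `cn`, `cL`, `cB` count, list and maximize by matrix products.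
-/

set_option autoImplicit false

open Finset

namespace Pool.Agent.MPa9445a.DB

open Pool.Agent.MPa9445a.BE (gt bit tb flt lin Phi vec code argmax matMul)
open Pool.Agent.MPa9445a.GD (itr fm)
open Pool.Agent.MPa9445a.GL (rk sv laL rhL lvv LL)

/-! ## Binary digits -/

/-- The sum modulo 2 of the first `k` digits. -/
def xr (k a b : ℕ) : ℕ := ∑ j ∈ range k, (bit a j + bit b j) % 2 * 2 ^ j

/-- The position of the first digit `1`. -/
def pv (k v : ℕ) : ℕ := argmax k fun j => (bit v j.toNat : ℤ)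

/-- The digit `j` is deleted. -/
def del (j c : ℕ) : ℕ := c % 2 ^ j + 2 ^ j * (c / 2 ^ (j + 1))

/-- The digit `0` is inserted at the position `j`. -/
def ins (j c : ℕ) : ℕ := c % 2 ^ j + 2 ^ (j + 1) * (c / 2 ^ j)

/-- The class of `c < 2 ^ (k + 1)` modulo `v`: a number `< 2 ^ k`. -/
def stp (k v c : ℕ) : ℕ :=
  del (pv (k + 1) v) (if bit c (pv (k + 1) v) = 1 then xr (k + 1) c v else c)

/-- An element of the class `c < 2 ^ k` modulo `v`; the other one is `xr (k + 1) (rp k v c) v`. -/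
def rp (k v c : ℕ) : ℕ := ins (pv (k + 1) v) c

/-! ## Correlations -/

/-- The pass `j` of the Walsh-Hadamard transform. -/
def wst (k j : ℕ) (h : List ℤ) : List ℤ := tb (2 ^ k) fun x =>
  if bit x j = 0 then gt h x + gt h (x + 2 ^ j) else gt h (x - 2 ^ j) - gt h x

/-- The Walsh-Hadamard transform. -/
def wht (k : ℕ) (h : List ℤ) : List ℤ := itr (fun j z => wst k j z) h k

/-- `2 ^ k` times the correlation of `F` and `G`. -/
def cor (k : ℕ) (F G : List ℤ) : List ℤ :=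
  wht k (tb (2 ^ k) fun x => gt (wht k F) x * gt (wht k G) x)

/-! ## The code -/

/-- The sums over the classes modulo `v`. -/
def mrg (k v : ℕ) (h : List ℤ) : List ℤ := tb (2 ^ k) fun c =>
  gt h (rp k v c) + gt h (xr (k + 1) (rp k v c) v)

/-- The maxima over the classes modulo `v`. -/
def mrx (k v : ℕ) (h : List ℤ) : List ℤ := tb (2 ^ k) fun c =>
  if gt h (rp k v c) ≤ gt h (xr (k + 1) (rp k v c) v) then gt h (xr (k + 1) (rp k v c) v)
  else gt h (rp k v c)

/-- The sums over the classes modulo the first `m` entries of `vs`. -/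
def lds (N : ℕ) (K vs : List ℤ) (m : ℕ) : List ℤ :=
  itr (fun l z => mrg (N - 1 - l) (gt vs l).toNat z) K m

/-- The maxima over the classes modulo the first `m` entries of `vs`. -/
def mxs (N : ℕ) (Y vs : List ℤ) (m : ℕ) : List ℤ :=
  itr (fun l z => mrx (N - 1 - l) (gt vs l).toNat z) Y m

/-- The array `2 ^ h c - 1`. -/
def ex2 (k : ℕ) (h : List ℤ) : List ℤ := tb (2 ^ k) fun c => 2 ^ (gt h c).toNat - 1

/-- The correlation of the loads for the first `m` entries of `vs`. -/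
def lc (N : ℕ) (K vs : List ℤ) (m : ℕ) : List ℤ :=
  cor (N - m) (ex2 (N - m) (lds N K vs m)) (ex2 (N - m) (lds N K vs m))

/-- The next direction. -/
def nv (N : ℕ) (K vs : List ℤ) (m : ℕ) : ℕ :=
  1 + argmax (2 ^ (N - m) - 1) fun x => -gt (lc N K vs m) (1 + x.toNat)

/-- The first `m` directions. -/
def vl (N : ℕ) (K : List ℤ) (m : ℕ) : List ℤ := itr (fun l z => z ++ [(nv N K z l : ℤ)]) [] m

/-- The class of `z` modulo the first `m` entries of `vs`. -/
def lb (N : ℕ) (vs : List ℤ) (z : ℕ) : ℕ → ℕ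
  | 0 => z
  | m + 1 => stp (N - 1 - m) (gt vs m).toNat (lb N vs z m)

/-! ## The shifts and the centers: `y` is the array of the representatives (plus one) of the `2 ^ q` classes -/

section

variable (N q : ℕ) (y : List ℤ)

/-- The entry `p < N * N` of the matrix of the class `s`. -/
def bp (p s : ℕ) : ℤ := if gt y s = 0 then 0 else
  (2 * (bit (gt y s - 1).toNat (p / N) : ℤ) - 1) * (2 * (bit (gt y s - 1).toNat (p % N) : ℤ) - 1)

/-- The sum of the entries. -/
def sp (p : ℕ) : ℤ := ∑ s ∈ range (2 ^ q), bp N y p s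

/-- The centered entry. -/
def bb (p s : ℕ) : ℤ := 2 ^ q * bp N y p s - sp N q y p

variable (R : ℕ) (sh : List ℤ)

/-- The sum over the first `i` shifts of the round `j`. -/
def Cs (j i p c : ℕ) : ℤ := ∑ l ∈ range i, bb N q y p (xr q c (gt sh (j * R + l)).toNat)

/-- The square of the norm after the round `j`. -/
def nr (j c : ℕ) : ℤ := ∑ p ∈ range (N * N), Cs N q y R sh j R p c ^ 2

/-- The class `c` is bad for all rounds `< j`. -/
def bad (j c : ℕ) : Prop :=
  (flt j fun j' => nr N q y R sh j' c ≤ 2 * R * (2 ^ q * N) ^ 2).length = 0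

instance (j c : ℕ) : Decidable (bad N q y R sh j c) := by
  unfold bad
  infer_instance

/-- The array of the sums for the bad classes. -/
def cF (j i p : ℕ) : List ℤ := tb (2 ^ q) fun c =>
  if bad N q y R sh j c then Cs N q y R sh j i p c else 0

/-- The cost of the shifts. -/
def cs (j i : ℕ) : List ℤ :=
  itr (fun p z => tb (2 ^ q) fun s =>
      gt z s + 2 * gt (cor q (cF N q y R sh j i p) (tb (2 ^ q) fun c => bb N q y p c)) s)
    (cor q (tb (2 ^ q) fun c => if bad N q y R sh j c then 1 else 0)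
      (tb (2 ^ q) fun c => ∑ p ∈ range (N * N), bb N q y p c ^ 2)) (N * N)

/-- The next shift. -/
def ns (j i : ℕ) : ℕ := argmax (2 ^ q) fun s => -gt (cs N q y R sh j i) s.toNat

/-- The first `x` shifts. -/
def sl (x : ℕ) : List ℤ := itr (fun u z => z ++ [(ns N q y R z (u / R) (u % R) : ℤ)]) [] x

/-- The classes with a representative. -/
def hl : List ℤ := flt (2 ^ q) fun s => gt y s ≠ 0

/-- The deviation of the list `z` of classes. -/
def dev (z : List ℤ) (p : ℕ) : ℤ :=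
  ∑ l ∈ range z.length, ((hl q y).length * bp N y p (gt z l).toNat - sp N q y p)

/-- The next center. -/
def nc (z : List ℤ) : ℤ := gt (hl q y) (argmax (hl q y).length fun x =>
  -∑ p ∈ range (N * N), (dev N q y z p +
    ((hl q y).length * bp N y p (gt (hl q y) x.toNat).toNat - sp N q y p)) ^ 2)

/-- The first `x` centers (classes). -/
def cl (x : ℕ) : List ℤ := itr (fun _ z => z ++ [nc N q y z]) [] x

end

/-! ## Matrix products: states with parts of size `w` -/

section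

variable (n : ℕ) (M s : List ℤ) (w : ℕ)

/-- The free entries with rank in `[i, i + k)` are set to the digits of `c`, the others are `0`. -/
def pt (i k c : ℕ) : List ℤ := tb n fun v =>
  if gt s v = 2 ∧ i ≤ rk s v ∧ rk s v < i + k then 2 * (bit c (rk s v - i) : ℤ) - 1 else 0

/-- The fixed entries, and the free entries with rank `≥ 3 w` set to the digits of `c`; the others are `0`. -/
def bs (c : ℕ) : List ℤ := tb n fun v =>
  if gt s v = 2 then (if 3 * w ≤ rk s v then 2 * (bit c (rk s v - 3 * w) : ℤ) - 1 else 0) else gt s v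

/-- The base and the first part. -/
def bA (c a : ℕ) : List ℤ := lin n 1 (bs n s w c) 1 (pt n s 0 w a)

/-- The base, the first and the third part. -/
def bC (c a b : ℕ) : List ℤ := lin n 1 (bA n s w c a) 1 (pt n s (2 * w) w b)

/-- The first matrix. -/
def m1 (c : ℕ) (α : ℤ) : List ℤ := tb (2 ^ w * 2 ^ w) fun x =>
  if Phi n M (lin n 1 (bA n s w c (x / 2 ^ w)) 1 (pt n s w w (x % 2 ^ w))) -
    Phi n M (bA n s w c (x / 2 ^ w)) = α then 1 else 0

/-- The second matrix. -/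
def m2 (β : ℤ) : List ℤ := tb (2 ^ w * 2 ^ w) fun x =>
  if Phi n M (lin n 1 (pt n s w w (x / 2 ^ w)) 1 (pt n s (2 * w) w (x % 2 ^ w))) -
    Phi n M (pt n s w w (x / 2 ^ w)) - Phi n M (pt n s (2 * w) w (x % 2 ^ w)) = β then 1 else 0

/-- The product. -/
def mp (c : ℕ) (α β : ℤ) : List ℤ := matMul (2 ^ w) (m1 n M s w c α) (m2 n M s w β)

/-- The values of `α`, `β`. -/
def rA (i : ℕ) : ℤ := ((i % (16 * n ^ 4 + 1) : ℕ) : ℤ) - 8 * (n : ℤ) ^ 4

/-- The number of indices. -/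
def nX : ℕ := 2 ^ (rk s n - 3 * w) * ((16 * n ^ 4 + 1) * (16 * n ^ 4 + 1))

/-- The base of the index `x`. -/
def iC (x : ℕ) : ℕ := x / ((16 * n ^ 4 + 1) * (16 * n ^ 4 + 1))

/-- The value of the pair `x'` for the index `x`. -/
def va (x x' : ℕ) : ℤ :=
  Phi n M (bC n s w (iC n x) (x' / 2 ^ w) (x' % 2 ^ w)) + rA n x + rA n (x / (16 * n ^ 4 + 1))

/-- The product for the index `x`. -/
def mx (x : ℕ) : List ℤ := mp n M s w (iC n x) (rA n x) (rA n (x / (16 * n ^ 4 + 1)))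

/-- The number of vectors of value `p`. -/
def cn (p : ℤ) : ℤ := ∑ x ∈ range (nX n s w), ∑ x' ∈ range (2 ^ w * 2 ^ w),
  if va n M s w x x' = p then gt (mx n M s w x) x' else 0

/-- The pairs of value `p` for the index `x` with a vector of the second part. -/
def pl (p : ℤ) (x : ℕ) : List ℤ := flt (2 ^ w * 2 ^ w) fun x' =>
  gt (mx n M s w x) x' ≠ 0 ∧ va n M s w x x' = p

/-- The code of the vector with the pair `x'` and the vector `b` of the second part. -/
def cd (x x' b : ℕ) : ℕ :=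
  code n (lin n 1 (bC n s w (iC n x) (x' / 2 ^ w) (x' % 2 ^ w)) 1 (pt n s w w b))

/-- The vectors of the second part for the index `x` and the pair `x'`. -/
def bl (x x' : ℕ) : List ℤ := flt (2 ^ w) fun b =>
  gt (m1 n M s w (iC n x) (rA n x)) (x' / 2 ^ w * 2 ^ w + b) ≠ 0 ∧
    gt (m2 n M s w (rA n (x / (16 * n ^ 4 + 1)))) (b * 2 ^ w + x' % 2 ^ w) ≠ 0

/-- The list of the codes of the vectors of value `p`. -/
def cL (p : ℤ) : List ℤ := fm (nX n s w) fun x => fm (pl n M s w p x).length fun i =>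
  tb (bl n M s w x (gt (pl n M s w p x) i).toNat).length fun j =>
    (cd n s w x (gt (pl n M s w p x) i).toNat
      (gt (bl n M s w x (gt (pl n M s w p x) i).toNat) j).toNat : ℤ)

/-- The best pair for the index `x`. -/
def bpr (x : ℕ) : ℕ := argmax (2 ^ w * 2 ^ w) fun x' =>
  if gt (mx n M s w x) x'.toNat ≠ 0 then va n M s w x x'.toNat + 32 * (n : ℤ) ^ 4 else 0

/-- The candidate for the index `x`. -/
def bc (x : ℕ) : ℕ := cd n s w x (bpr n M s w x)
  (gt (bl n M s w x (bpr n M s w x)) 0).toNat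

/-- The code of the best vector. -/
def cB : ℕ := bc n M s w (argmax (nX n s w) fun x => Phi n M (sv n s (bc n M s w x.toNat)))

end

/-! ## A round -/

/-- The number of free vertices of a region. -/
def nJ (n : ℕ) : ℕ := 7871 * n / 10000

/-- The size of the parts for counting and listing. -/
def wc (m : ℕ) : ℕ := 1298 * m / 10000

/-- The exponent of the bound for a short list. -/
def w0 (n : ℕ) : ℕ := wc (5002 * nJ n / 10000)

/-- The number of shifts of a round of shifts. -/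
def R1 (n : ℕ) : ℕ := n ^ 14

/-- The least number of vectors of the level `t`. -/
def Y0 (n : ℕ) : ℕ := 2 ^ (2 * nJ n - n)

section

variable (n : ℕ) (M : List ℤ) (a : ℕ)

/-- The region `a`. -/
def rg : List ℤ := tb n fun v => if v < nJ n then 2 else 2 * (bit a (v - nJ n) : ℤ) - 1

/-- The values of the vectors of the region. -/
def rv : List ℤ := tb (2 ^ nJ n) fun z => Phi n M (sv n (rg n a) z)

/-- The number of vectors of the region with value `p`. -/
def rn (p : ℤ) : ℕ := (flt (2 ^ nJ n) fun z => gt (rv n M a) z = p).length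

/-- The index of the level `t`. -/
def tx : ℕ := argmax (LL n) fun x => if Y0 n ≤ rn n M a ((n : ℤ) ^ 4 - x.toNat) then 1 else 0

/-- The level `t`. -/
def tt : ℤ := (n : ℤ) ^ 4 - tx n M a

/-- The set `K`. -/
def KK : List ℤ := tb (2 ^ nJ n) fun z => if tt n M a ≤ gt (rv n M a) z then 1 else 0

/-- The set `Y`. -/
def YY : List ℤ := tb (2 ^ nJ n) fun z => if gt (rv n M a) z = tt n M a then (z : ℤ) + 1 else 0

/-- The exponent of the number of classes. -/
def qq : ℕ := min (nJ n) (GS.lgB (nJ n) (flt (2 ^ nJ n) fun z => gt (KK n M a) z = 1).length + 4)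

/-- The directions. -/
def vv : List ℤ := vl (nJ n) (KK n M a) (nJ n - qq n M a)

/-- The representatives. -/
def yy : List ℤ := mxs (nJ n) (YY n M a) (vv n M a) (nJ n - qq n M a)

/-- The number of the shifts. -/
def nS : ℕ := (qq n M a + 1) * R1 n

/-- The shifts. -/
def ss : List ℤ := sl (nJ n) (qq n M a) (yy n M a) (R1 n) (nS n M a)

/-- The centers. -/
def cc : List ℤ := cl (nJ n) (qq n M a) (yy n M a) n

/-- The size of the set `z`. -/
def sz (z : ℕ) : ℕ := ∑ v ∈ range (nJ n), bit z v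

/-- The balanced sets of the shift `i`. -/
def dl (i : ℕ) : List ℤ := flt (2 ^ nJ n) fun z =>
  (lb (nJ n) (vv n M a) z (nJ n - qq n M a) : ℤ) = gt (ss n M a) i ∧
    4998 * nJ n ≤ 10000 * sz n z ∧ 10000 * sz n z ≤ 5002 * nJ n

/-- The set with index `x` outside `J` and index `κ` inside `J` for the shift `i`. -/
def dd (i x κ : ℕ) : ℕ := (gt (dl n M a i) κ).toNat + 2 ^ nJ n * x

/-- Counting. -/
def cN (s : List ℤ) (p : ℤ) : ℤ := cn n M s (wc (rk s n)) p

/-- Listing. -/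
def cS (s : List ℤ) (p : ℤ) : List ℤ := cL n M s (wc (rk s n)) p

/-- Maximizing. -/
def cX (s : List ℤ) : ℕ := cB n M s (rk s n / 3)

/-- The number of pairs for the set `d` and the sum `g` of the levels. -/
def Ed (d : ℕ) (g : ℤ) : ℤ := ∑ u ∈ range (LL n),
  cN n M (laL n (rg n a) d) (lvv n u) * cN n M (rhL n (rg n a) d) (g - lvv n u)

/-- The number of pairs for the target `p` and the region `xr a x`. -/
def En (p : ℤ) (x : ℕ) : ℤ := if (p + tt n M a) % 2 = 0 then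
  ∑ i ∈ range (nS n M a), ∑ κ ∈ range (dl n M a i).length, Ed n M a (dd n M a i x κ) ((p + tt n M a) / 2)
  else 0

/-- The number of pairs for the target `p`. -/
def tE (p : ℤ) : ℤ := ∑ x ∈ range (2 ^ (n - nJ n)), En n M a p x

/-- The budget. -/
def thE : ℤ := 2 ^ nJ n * LL n * (qq n M a + 1) * R1 n * (nJ n + 2)

/-- The best vector of the region. -/
def bz : ℕ := argmax (2 ^ nJ n) fun z => gt (rv n M a) z.toNat

/-- Its value. -/
def m0 : ℤ := gt (rv n M a) (bz n M a)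

/-- The first target (from above) with too many pairs. -/
def p1 : ℤ := (n : ℤ) ^ 4 - (argmax (LL n) fun y =>
  if m0 n M a < (n : ℤ) ^ 4 - y.toNat ∧ thE n M a < tE n M a ((n : ℤ) ^ 4 - y.toNat) then 1 else 0 : ℕ)

/-- The next region. -/
def a1 : ℕ := xr (n - nJ n) a (argmax (2 ^ (n - nJ n)) fun x => En n M a (p1 n M a) x.toNat)

/-- The candidates for the set `d` and the levels `u`, `v` of the parts. -/
def T2 (d : ℕ) (u v : ℤ) : List ℤ :=
  if cN n M (laL n (rg n a) d) u = 0 ∨ cN n M (rhL n (rg n a) d) v = 0 then [] else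
  if cN n M (rhL n (rg n a) d) v ≤ 2 ^ w0 n then
    tb (cS n M (rhL n (rg n a) d) v).length fun i =>
      (cX n M (lin n 1 (laL n (rg n a) d) 1
        (sv n (rhL n (rg n a) d) (gt (cS n M (rhL n (rg n a) d) v) i).toNat)) : ℤ)
  else
  if cN n M (laL n (rg n a) d) u ≤ 2 ^ w0 n then
    tb (cS n M (laL n (rg n a) d) u).length fun i =>
      (cX n M (lin n 1 (rhL n (rg n a) d) 1
        (sv n (laL n (rg n a) d) (gt (cS n M (laL n (rg n a) d) u) i).toNat)) : ℤ)
  else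
    tb ((cS n M (laL n (rg n a) d) u).length * (cS n M (rhL n (rg n a) d) v).length) fun x =>
      (code n (lin n 1
        (sv n (laL n (rg n a) d) (gt (cS n M (laL n (rg n a) d) u)
          (x / (cS n M (rhL n (rg n a) d) v).length)).toNat) 1
        (sv n (rhL n (rg n a) d) (gt (cS n M (rhL n (rg n a) d) v)
          (x % (cS n M (rhL n (rg n a) d) v).length)).toNat)) : ℤ)

/-- The candidates for the target `p`. -/
def Tp (p : ℤ) : List ℤ := if (p + tt n M a) % 2 = 0 then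
  fm (nS n M a) fun i => fm (2 ^ (n - nJ n)) fun x => fm (dl n M a i).length fun κ =>
    fm (LL n) fun u => T2 n M a (dd n M a i x κ) (lvv n u) ((p + tt n M a) / 2 - lvv n u)
  else []

/-- The center number `l` with the signs `e`. -/
def cy (l e : ℕ) : List ℤ := tb n fun v =>
  if v < nJ n then
    (2 * (bit e 0 : ℤ) - 1) *
      (2 * (bit (gt (yy n M a) (gt (cc n M a) l).toNat - 1).toNat v : ℤ) - 1)
  else (2 * (bit e 1 : ℤ) - 1) * (2 * (bit a (v - nJ n) : ℤ) - 1)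

/-- The candidates of the round. -/
def cdL : List ℤ :=
  ((bz n M a + 2 ^ nJ n * a : ℕ) : ℤ) :: ((tb (n * 4) fun x => (BW.bw n M (cy n M a (x / 4) (x % 4)) : ℤ)) ++
    fm (LL n) fun y => if m0 n M a < (n : ℤ) ^ 4 - y ∧ tE n M a ((n : ℤ) ^ 4 - y) ≤ thE n M a then
      Tp n M a ((n : ℤ) ^ 4 - y) else [])

/-- The best candidate of the round. -/
def cb : ℕ := (gt (cdL n M a) (argmax (cdL n M a).length fun i =>
  Phi n M (vec n (gt (cdL n M a) i.toNat).toNat))).toNat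

end

section

variable (n₀ n : ℕ) (M : List ℤ)

/-- The regions of the rounds. -/
def ra : ℕ → ℕ
  | 0 => 0
  | k + 1 => a1 n M (ra k)

/-- The code of the result. -/
def tc : ℕ := if n < n₀ then argmax (2 ^ n) fun c => Phi n M (vec n c.toNat) else
  cb n M (ra n M (argmax (LL n + 1) fun k => Phi n M (vec n (cb n M (ra n M k.toNat)))))

/-- The result: the array of the binary digits of the code. -/
def out : List ℤ := tb n fun v => (bit (tc n₀ n M) v : ℤ)

end

end Pool.Agent.MPa9445a.DB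
end

section

/-! The parameters of a round. -/

set_option autoImplicit false

open Finset

namespace Pool.Agent.MPa9445a.DB

open Pool.Agent.MPa9445a.BE (Ty Env vs one Bd NL DL tb flt gt bit Phi vec code lin argmax matMul Bd.const
  Bd.add Bd.mul Bd.le Bd.up Bd.var Bd.self)
open Pool.Agent.MPa9445a.GD
open Pool.Agent.MPa9445a.GL (rk sv laL rhL lvv LL c_rk bd_rk c_sv c_laL c_rhL c_LL bd_LL c_lvv)

variable {A : Type} {N : A → ℕ} {D : A → Prop} {Γ : List Ty} {ρ : A → Env Γ}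

theorem c_nJ {n : A → ℕ} (hn : PN N D ρ n) : PN N D ρ (fun a => nJ (n a)) :=
  PN.div (PN.mul (PN.const 7871) hn) (PN.const 10000)

theorem nJ_le_n (n : ℕ) : nJ n ≤ n := by
  unfold nJ
  omega

theorem bd_nJ {n : A → ℕ} (bn : Bd N D n) : Bd N D (fun a => nJ (n a)) :=
  Bd.le bn fun _ _ => nJ_le_n _

/-- The weight of the loops over the vectors of a region. -/
noncomputable def wJ (n : ℕ) : ℝ := (2 : ℝ) ^ nJ n

theorem one_le_wJ (n : ℕ) : 1 ≤ wJ n := one_le_pow₀ (by norm_num)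

/-- The number of the regions is at most the size of a region. -/
theorem two_nJ {n : ℕ} (hn : 10 ^ 16 ≤ n) : n - nJ n ≤ nJ n := by
  unfold nJ
  omega

/-- The parameters of a round. -/
structure Rd {A : Type} (N : A → ℕ) (D : A → Prop) {Γ : List Ty} (ρ : A → Env Γ)
    (n : A → ℕ) (M : A → List ℤ) (a : A → ℕ) : Prop where
  hn : PN N D ρ n
  bn : Bd N D n
  hM : PA N D ρ M
  ha : PN N D ρ a
  big : ∀ q, D q → 10 ^ 16 ≤ n q
  one : ∀ q, D q → ∀ x ∈ M q, |x| ≤ 1

section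

variable {n : A → ℕ} {M : A → List ℤ} {a : A → ℕ}

theorem Rd.ke (h : Rd N D ρ n M a) {Γ' : List Ty} {ρ' : A → Env Γ'} (k : Ke N D ρ ρ') :
    Rd N D ρ' n M a :=
  ⟨k.n h.hn, h.bn, k.a h.hM, k.n h.ha, h.big, h.one⟩

theorem Rd.up (h : Rd N D ρ n M a) {k : A → ℕ} {Γ' : List Ty} {ρ' : A × ℕ → Env Γ'}
    (u : Up N D ρ k ρ') : Rd (NL N) (DL D k) ρ' (fun p => n p.1) (fun p => M p.1) (fun p => a p.1) :=
  ⟨u.n h.hn, h.bn.up _, u.a h.hM, u.n h.ha, fun q hq => h.big q.1 hq.1, fun q hq => h.one q.1 hq.1⟩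

theorem Rd.dom (h : Rd N D ρ n M a) {D' : A → Prop} (hD : ∀ q, D' q → D q) : Rd N D' ρ n M a :=
  ⟨h.hn.dom hD, (by obtain ⟨c, hc⟩ := h.bn; exact ⟨c, fun q hq => hc q (hD q hq)⟩), h.hM.dom hD,
    h.ha.dom hD, fun q hq => h.big q (hD q hq), fun q hq => h.one q (hD q hq)⟩

/-- The number of regions. -/
theorem Rd.p2 (h : Rd N D ρ n M a) : PN N D ρ (fun q => 2 ^ (n q - nJ (n q))) :=
  PN.pow2 (PN.sub h.hn (c_nJ h.hn)) (Bd.le h.bn fun _ _ => Nat.sub_le _ _)

theorem Rd.pJ (h : Rd N D ρ n M a) : PN N D ρ (fun q => 2 ^ nJ (n q)) :=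
  PN.pow2 (c_nJ h.hn) (bd_nJ h.bn)

theorem c_rg (h : Rd N D ρ n M a) : PA N D ρ (fun q => rg (n q) (a q)) := by
  refine PA.tab h.hn h.bn fun Γ1 ρ1 up hv => ?_
  refine Cp.ite (PB.ltN hv (c_nJ (up.n h.hn))) (PI.const 2) ?_
  exact PI.sub (PI.mul (PI.const 2) (PN.bit (up.n h.ha) (PN.sub hv (c_nJ (up.n h.hn)))
    (Bd.le (Bd.var h.bn) fun _ _ => Nat.sub_le _ _))) (PI.const 1)

end

end Pool.Agent.MPa9445a.DB
end

section

/-! Binary digits: the group of the numbers `< 2 ^ k`. -/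

set_option autoImplicit false

open Finset

namespace Pool.Agent.MPa9445a.DB

open Pool.Agent.MPa9445a.BE (gt bit tb flt lin Phi vec code argmax matMul)

theorem bit_01 (c i : ℕ) : bit c i = 0 ∨ bit c i = 1 := Nat.mod_two_eq_zero_or_one _

theorem bit_testBit (c j : ℕ) : bit c j = if c.testBit j then 1 else 0 := by
  unfold bit
  rw [Nat.testBit_eq_decide_div_mod_eq]
  have : c / 2 ^ j % 2 < 2 := Nat.mod_lt _ (by norm_num)
  split_ifs with h <;> simp at h <;> omega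

theorem testBit_bit (c j : ℕ) : c.testBit j = decide (bit c j = 1) := by
  rw [bit_testBit]
  cases c.testBit j <;> simp

/-- PROOF. `bit c i` is `if c.testBit i then 1 else 0`; `Nat.testBit_lt_two_pow`. -/
theorem bit_big {c k i : ℕ} (h : c < 2 ^ k) (hi : k ≤ i) : bit c i = 0 := by
  rw [bit_testBit, Nat.testBit_lt_two_pow (h.trans_le (Nat.pow_le_pow_right (by norm_num) hi))]
  rfl

/-- PROOF. `Nat.eq_of_testBit_eq`, or as `Q1d_ext` in `GL/Q1d.lean`. -/
theorem ext_bit {k a b : ℕ} (ha : a < 2 ^ k) (hb : b < 2 ^ k) (h : ∀ j < k, bit a j = bit b j) :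
    a = b := by
  apply Nat.eq_of_testBit_eq
  intro i
  rw [testBit_bit, testBit_bit]
  rcases lt_or_ge i k with hi | hi
  · rw [h i hi]
  · rw [bit_big ha hi, bit_big hb hi]

/-- A number with given digits. PROOF. Induction over `k`; see `exists_bits` in `BW/C1.lean`, `Q1c_bit` in `GL/Q1c.lean`. -/
theorem sum_lt (f : ℕ → ℕ) (hf : ∀ j, f j = 0 ∨ f j = 1) (k : ℕ) :
    ∑ j ∈ range k, f j * 2 ^ j < 2 ^ k := by
  induction k with
  | zero => simp
  | succ k ih =>
    rw [sum_range_succ, pow_succ]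
    rcases hf k with h | h <;> rw [h] <;> omega

theorem testBit_add_low {k b c : ℕ} (hb : b < k) : (c + 2 ^ k).testBit b = c.testBit b := by
  rw [add_comm, Nat.testBit_two_pow_add_gt hb]

theorem testBit_add_top {k c : ℕ} (hc : c < 2 ^ k) : (c + 2 ^ k).testBit k = true := by
  rw [add_comm, Nat.testBit_two_pow_add_eq, Nat.testBit_lt_two_pow hc]
  rfl

theorem bit_sum (f : ℕ → ℕ) (hf : ∀ j, f j = 0 ∨ f j = 1) (k j : ℕ) :
    bit (∑ j ∈ range k, f j * 2 ^ j) j = if j < k then f j else 0 := by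
  induction k with
  | zero => simp [bit]
  | succ k ih =>
    rw [sum_range_succ]
    have h1 := sum_lt f hf k
    rcases hf k with h | h
    · rw [h, zero_mul, add_zero, ih]
      rcases lt_trichotomy j k with hj | rfl | hj
      · rw [if_pos hj, if_pos (by omega)]
      · rw [if_neg (by omega), if_pos (by omega), h]
      · rw [if_neg (by omega), if_neg (by omega)]
    · rw [h, one_mul]
      rcases lt_trichotomy j k with hj | rfl | hj
      · rw [bit_testBit, testBit_add_low hj, ← bit_testBit, ih, if_pos hj, if_pos (by omega)]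
      · rw [bit_testBit, testBit_add_top h1, if_pos rfl, if_pos (Nat.lt_succ_self j), h]
      · rw [if_neg (by omega)]
        apply bit_big (k := k + 1) _ (by omega)
        rw [pow_succ]
        omega

theorem bit_xr (k a b j : ℕ) : bit (xr k a b) j = if j < k then (bit a j + bit b j) % 2 else 0 := by
  unfold xr
  exact bit_sum (fun j => (bit a j + bit b j) % 2) (fun j => Nat.mod_two_eq_zero_or_one _) k j

theorem xr_lt (k a b : ℕ) : xr k a b < 2 ^ k := by
  unfold xr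
  exact sum_lt (fun j => (bit a j + bit b j) % 2) (fun j => Nat.mod_two_eq_zero_or_one _) k

theorem xr_comm (k a b : ℕ) : xr k a b = xr k b a := by
  unfold xr
  exact sum_congr rfl fun j _ => by rw [add_comm]

theorem xr_assoc (k a b c : ℕ) : xr k (xr k a b) c = xr k a (xr k b c) := by
  refine ext_bit (xr_lt _ _ _) (xr_lt _ _ _) fun j hj => ?_
  rw [bit_xr, bit_xr, bit_xr, bit_xr]
  simp only [if_pos hj]
  omega

theorem xr_zero {k a : ℕ} (h : a < 2 ^ k) : xr k a 0 = a := by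
  refine ext_bit (xr_lt _ _ _) h fun j hj => ?_
  rw [bit_xr, if_pos hj]
  have h0 : bit 0 j = 0 := by simp [bit]
  rw [h0]
  rcases bit_01 a j with h1 | h1 <;> rw [h1]

theorem xr_self (k a : ℕ) : xr k a a = 0 := by
  refine ext_bit (xr_lt k a a) (by positivity) fun j hj => ?_
  rw [bit_xr, if_pos hj]
  have h0 : bit 0 j = 0 := by simp [bit]
  rw [h0]
  omega

theorem xr_cancel {k a : ℕ} (h : a < 2 ^ k) (b : ℕ) : xr k (xr k a b) b = a := by
  rw [xr_assoc, xr_self, xr_zero h]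

theorem xr_eq_zero {k a b : ℕ} (ha : a < 2 ^ k) (hb : b < 2 ^ k) : xr k a b = 0 ↔ a = b := by
  constructor
  · intro h
    have h1 := xr_cancel ha b
    rw [h, xr_comm, xr_zero hb] at h1
    exact h1.symm
  · rintro rfl
    exact xr_self k a

/-- PROOF. `Finset.sum_nbij'` with `c ↦ xr k c v` (an involution of `range (2 ^ k)`, `xr_cancel`). -/
theorem sum_xr {β : Type} [AddCommMonoid β] (k v : ℕ) (F : ℕ → β) :
    ∑ c ∈ range (2 ^ k), F (xr k c v) = ∑ c ∈ range (2 ^ k), F c := by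
  refine sum_nbij' (fun s => xr k s v) (fun s => xr k s v) ?_ ?_ ?_ ?_ ?_
  · intro s _
    exact mem_range.2 (xr_lt k s v)
  · intro s _
    exact mem_range.2 (xr_lt k s v)
  · intro s hs
    exact xr_cancel (mem_range.1 hs) v
  · intro s hs
    exact xr_cancel (mem_range.1 hs) v
  · intro s _
    rfl

theorem xr_eq_xor {k a b : ℕ} (ha : a < 2 ^ k) (hb : b < 2 ^ k) : xr k a b = a ^^^ b := by
  refine ext_bit (xr_lt _ _ _) (Nat.xor_lt_two_pow ha hb) fun j hj => ?_
  rw [bit_xr, if_pos hj, bit_testBit, bit_testBit, bit_testBit, Nat.testBit_xor]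
  cases a.testBit j <;> cases b.testBit j <;> rfl

theorem xr_testBit (k a b i : ℕ) :
    (xr k a b).testBit i = (decide (i < k) && (a.testBit i ^^ b.testBit i)) := by
  rw [testBit_bit, bit_xr, bit_testBit, bit_testBit]
  by_cases h : i < k <;> cases a.testBit i <;> cases b.testBit i <;> simp [h]

theorem gt_tb_if (k : ℕ) (f : ℕ → ℤ) (i : ℕ) : gt (tb k f) i = if i < k then f i else 0 := by
  unfold gt tb
  split_ifs with h <;> simp [h]

end Pool.Agent.MPa9445a.DB
end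

section

/-! Matrix products: programs and running time of the counting. -/

set_option autoImplicit false

open Finset

namespace Pool.Agent.MPa9445a.DB

open Pool.Agent.MPa9445a.BE (Ty Env vs one Bd NL DL tb flt gt bit Phi vec code lin argmax matMul Bd.const
  Bd.add Bd.mul Bd.le Bd.up Bd.var Bd.self)
open Pool.Agent.MPa9445a.GD
open Pool.Agent.MPa9445a.GL (rk sv laL rhL lvv LL c_rk bd_rk c_sv c_laL c_rhL c_LL bd_LL c_lvv)

/-- The weight of a product of matrices of size `2 ^ w`. -/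
noncomputable def wM (τ : ℝ) (w : ℕ) : ℝ := (((2 ^ w : ℕ) : ℝ) + 1) ^ τ

theorem wM_base (w : ℕ) : (1 : ℝ) ≤ ((2 ^ w : ℕ) : ℝ) + 1 := by
  have : (0 : ℝ) ≤ ((2 ^ w : ℕ) : ℝ) := Nat.cast_nonneg _
  linarith

theorem one_le_wM {τ : ℝ} (hτ : 2 ≤ τ) (w : ℕ) : 1 ≤ wM τ w :=
  Real.one_le_rpow (wM_base w) (by linarith)

theorem wM_sq {τ : ℝ} (hτ : 2 ≤ τ) (w : ℕ) : ((2 ^ w * 2 ^ w : ℕ) : ℝ) + 1 ≤ wM τ w := by
  have h2 : (((2 ^ w : ℕ) : ℝ) + 1) ^ (2 : ℝ) ≤ wM τ w :=
    Real.rpow_le_rpow_of_exponent_le (wM_base w) hτ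
  refine le_trans ?_ h2
  rw [Real.rpow_two]
  have h0 : (0 : ℝ) ≤ ((2 ^ w : ℕ) : ℝ) := Nat.cast_nonneg _
  rw [Nat.cast_mul]
  nlinarith

theorem wM_lin {τ : ℝ} (hτ : 2 ≤ τ) (w : ℕ) : ((2 ^ w : ℕ) : ℝ) + 1 ≤ wM τ w := by
  refine le_trans ?_ (wM_sq hτ w)
  have h0 : 2 ^ w ≤ 2 ^ w * 2 ^ w := Nat.le_mul_self _
  have h1 : ((2 ^ w : ℕ) : ℝ) ≤ ((2 ^ w * 2 ^ w : ℕ) : ℝ) := by exact_mod_cast h0
  linarith

theorem wM_mono {τ : ℝ} (hτ : 2 ≤ τ) {w w' : ℕ} (h : w ≤ w') : wM τ w ≤ wM τ w' := by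
  unfold wM
  apply Real.rpow_le_rpow (by positivity) _ (by linarith)
  have h1 : 2 ^ w ≤ 2 ^ w' := Nat.pow_le_pow_right (by norm_num) h
  have h2 : ((2 ^ w : ℕ) : ℝ) ≤ ((2 ^ w' : ℕ) : ℝ) := by exact_mod_cast h1
  linarith

/-- The parameters are computed by programs. -/
structure Ms {A : Type} (N : A → ℕ) (D : A → Prop) {Γ : List Ty} (ρ : A → Env Γ)
    (n w : A → ℕ) (M s : A → List ℤ) : Prop where
  hn : PN N D ρ n
  bn : Bd N D n
  hM : PA N D ρ M
  hs : PA N D ρ s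
  hw : PN N D ρ w
  bw : Bd N D w

variable {A : Type} {N : A → ℕ} {D : A → Prop} {Γ : List Ty} {ρ : A → Env Γ}
  {n w : A → ℕ} {M s : A → List ℤ}

theorem Ms.ke (h : Ms N D ρ n w M s) {Γ' : List Ty} {ρ' : A → Env Γ'} (k : Ke N D ρ ρ') :
    Ms N D ρ' n w M s :=
  ⟨k.n h.hn, h.bn, k.a h.hM, k.a h.hs, k.n h.hw, h.bw⟩

theorem Ms.up (h : Ms N D ρ n w M s) {k : A → ℕ} {Γ' : List Ty} {ρ' : A × ℕ → Env Γ'}
    (u : Up N D ρ k ρ') : Ms (NL N) (DL D k) ρ' (fun p => n p.1) (fun p => w p.1)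
      (fun p => M p.1) (fun p => s p.1) :=
  ⟨u.n h.hn, h.bn.up _, u.a h.hM, u.a h.hs, u.n h.hw, h.bw.up _⟩

theorem Ms.p2 (h : Ms N D ρ n w M s) : PN N D ρ (fun a => 2 ^ w a) := PN.pow2 h.hw h.bw

theorem c_pt (h : Ms N D ρ n w M s) {i k c : A → ℕ} (hi : PN N D ρ i) (hk : PN N D ρ k)
    (hc : PN N D ρ c) : PA N D ρ (fun a => pt (n a) (s a) (i a) (k a) (c a)) := by
  refine PA.tab h.hn h.bn fun Γ1 ρ1 up hv => ?_
  have hr := c_rk (up.a h.hs) hv (Bd.var h.bn)
  refine Cp.ite (PB.and (PB.eq (PI.get (up.a h.hs) hv) (PI.const 2))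
    (PB.and (PB.leN (up.n hi) hr) (PB.ltN hr (PN.add (up.n hi) (up.n hk))))) ?_ (PI.const 0)
  exact PI.sub (PI.mul (PI.const 2) (PN.bit (up.n hc) (PN.sub hr (up.n hi))
    (Bd.le (bd_rk (Bd.var h.bn)) fun a _ => Nat.sub_le _ _))) (PI.const 1)

theorem c_bs (h : Ms N D ρ n w M s) {c : A → ℕ} (hc : PN N D ρ c) :
    PA N D ρ (fun a => bs (n a) (s a) (w a) (c a)) := by
  refine PA.tab h.hn h.bn fun Γ1 ρ1 up hv => ?_
  have hr := c_rk (up.a h.hs) hv (Bd.var h.bn)
  have hw := PN.mul (PN.const 3) (up.n h.hw)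
  have hg := PI.get (up.a h.hs) hv
  refine Cp.ite (PB.eq hg (PI.const 2)) (Cp.ite (PB.leN hw hr) ?_ (PI.const 0)) hg
  exact PI.sub (PI.mul (PI.const 2) (PN.bit (up.n hc) (PN.sub hr hw)
    (Bd.le (bd_rk (Bd.var h.bn)) fun a _ => Nat.sub_le _ _))) (PI.const 1)

theorem c_bA (h : Ms N D ρ n w M s) {c x : A → ℕ} (hc : PN N D ρ c) (hx : PN N D ρ x) :
    PA N D ρ (fun a => bA (n a) (s a) (w a) (c a) (x a)) :=
  PA.lin 1 1 h.hn h.bn (c_bs h hc) (c_pt h (PN.const 0) h.hw hx)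

theorem c_bC (h : Ms N D ρ n w M s) {c x y : A → ℕ} (hc : PN N D ρ c) (hx : PN N D ρ x)
    (hy : PN N D ρ y) : PA N D ρ (fun a => bC (n a) (s a) (w a) (c a) (x a) (y a)) :=
  PA.lin 1 1 h.hn h.bn (c_bA h hc hx) (c_pt h (PN.mul (PN.const 2) h.hw) h.hw hy)

theorem c_m1 (h : Ms N D ρ n w M s) {c : A → ℕ} {α : A → ℤ} (hc : PN N D ρ c) (hα : PI N D ρ α) :
    Cp N D ρ (fun τ a => wM τ (w a)) .arr (fun a => m1 (n a) (M a) (s a) (w a) (c a) (α a)) := by
  have h1 := Cp.tab (w := one) (PN.mul h.p2 h.p2) (fun _ _ _ _ => le_refl _)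
    (f := fun a x => if Phi (n a) (M a) (lin (n a) 1 (bA (n a) (s a) (w a) (c a) (x / 2 ^ w a)) 1
        (pt (n a) (s a) (w a) (w a) (x % 2 ^ w a))) -
      Phi (n a) (M a) (bA (n a) (s a) (w a) (c a) (x / 2 ^ w a)) = α a then 1 else 0)
    fun Γ1 ρ1 up hv => by
      have g := h.up up
      have gd := PN.div hv g.p2
      have gm := PN.mod hv g.p2
      have gb := c_bA g (up.n hc) gd
      exact Cp.ite (PB.eq (PI.sub (PI.Phi g.hn g.bn g.hM (PA.lin 1 1 g.hn g.bn gb (c_pt g g.hw g.hw gm)))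
        (PI.Phi g.hn g.bn g.hM gb)) (up.i hα)) (PI.const 1) (PI.const 0)
  refine h1.mono fun a _ τ hτ => ?_
  simp only [one, mul_one]
  exact wM_sq hτ (w a)

theorem c_m2 (h : Ms N D ρ n w M s) {β : A → ℤ} (hβ : PI N D ρ β) :
    Cp N D ρ (fun τ a => wM τ (w a)) .arr (fun a => m2 (n a) (M a) (s a) (w a) (β a)) := by
  have h1 := Cp.tab (w := one) (PN.mul h.p2 h.p2) (fun _ _ _ _ => le_refl _)
    (f := fun a x => if Phi (n a) (M a) (lin (n a) 1 (pt (n a) (s a) (w a) (w a) (x / 2 ^ w a)) 1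
        (pt (n a) (s a) (2 * w a) (w a) (x % 2 ^ w a))) -
      Phi (n a) (M a) (pt (n a) (s a) (w a) (w a) (x / 2 ^ w a)) -
      Phi (n a) (M a) (pt (n a) (s a) (2 * w a) (w a) (x % 2 ^ w a)) = β a then 1 else 0)
    fun Γ1 ρ1 up hv => by
      have g := h.up up
      have gd := PN.div hv g.p2
      have gm := PN.mod hv g.p2
      have g1 := c_pt g g.hw g.hw gd
      have g2 := c_pt g (PN.mul (PN.const 2) g.hw) g.hw gm
      exact Cp.ite (PB.eq (PI.sub (PI.sub (PI.Phi g.hn g.bn g.hM (PA.lin 1 1 g.hn g.bn g1 g2))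
        (PI.Phi g.hn g.bn g.hM g1)) (PI.Phi g.hn g.bn g.hM g2)) (up.i hβ)) (PI.const 1) (PI.const 0)
  refine h1.mono fun a _ τ hτ => ?_
  simp only [one, mul_one]
  exact wM_sq hτ (w a)

/-- The number of the values. -/
def nV (n : ℕ) : ℕ := 16 * n ^ 4 + 1

theorem c_nV (hn : PN N D ρ n) : PN N D ρ (fun a => nV (n a)) :=
  PN.add (PN.mul (PN.const 16) (PN.pow hn 4)) (PN.const 1)

theorem bd_nV (bn : Bd N D n) : Bd N D (fun a => nV (n a)) := by
  refine Bd.le (((Bd.const 16).mul ((bn.mul bn).mul (bn.mul bn))).add (Bd.const 1))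
    fun a _ => le_of_eq ?_
  unfold nV
  ring

theorem c_rA (hn : PN N D ρ n) {i : A → ℕ} (hi : PN N D ρ i) :
    PI N D ρ (fun a => rA (n a) (i a)) :=
  PI.sub (PN.mod hi (c_nV hn)) (PI.mul (PI.const 8) (PI.pow hn 4))

theorem c_rB (hn : PN N D ρ n) {i : A → ℕ} (hi : PN N D ρ i) :
    PI N D ρ (fun a => rA (n a) (i a / (16 * n a ^ 4 + 1))) :=
  c_rA hn (PN.div hi (c_nV hn))

theorem c_iC (hn : PN N D ρ n) {i : A → ℕ} (hi : PN N D ρ i) :
    PN N D ρ (fun a => iC (n a) (i a)) :=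
  PN.div hi (PN.mul (c_nV hn) (c_nV hn))

theorem c_rkn (h : Ms N D ρ n w M s) : PN N D ρ (fun a => rk (s a) (n a)) := c_rk h.hs h.hn h.bn

theorem c_nX (h : Ms N D ρ n w M s) : PN N D ρ (fun a => nX (n a) (s a) (w a)) :=
  PN.mul (PN.pow2 (PN.sub (c_rkn h) (PN.mul (PN.const 3) h.hw))
    (Bd.le (bd_rk h.bn) fun _ _ => Nat.sub_le _ _)) (PN.mul (c_nV h.hn) (c_nV h.hn))

theorem c_va (h : Ms N D ρ n w M s) {x y : A → ℕ} (hx : PN N D ρ x) (hy : PN N D ρ y) :
    PI N D ρ (fun a => va (n a) (M a) (s a) (w a) (x a) (y a)) :=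
  PI.add (PI.add (PI.Phi h.hn h.bn h.hM (c_bC h (c_iC h.hn hx) (PN.div hy h.p2) (PN.mod hy h.p2)))
    (c_rA h.hn hx)) (c_rB h.hn hx)

theorem c_mx (h : Ms N D ρ n w M s) {x : A → ℕ} (hx : PN N D ρ x) :
    Cp N D ρ (fun τ a => wM τ (w a)) .arr (fun a => mx (n a) (M a) (s a) (w a) (x a)) := by
  refine (c_m1 h (c_iC h.hn hx) (c_rA h.hn hx)).store fun Γ1 ρ1 k1 e1 => ?_
  refine (c_m2 (h.ke k1) (c_rB (k1.n h.hn) (k1.n hx))).store fun Γ2 ρ2 k2 e2 => ?_
  exact Cp.mm (k2.n (k1.n h.p2)) (k2.a e1) e2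

/-- The weight of a loop over the indices. -/
noncomputable def wX (τ : ℝ) (n : ℕ) (s : List ℤ) (w : ℕ) : ℝ :=
  (2 : ℝ) ^ (rk s n - 3 * w) * wM τ w

theorem one_le_wX {τ : ℝ} (hτ : 2 ≤ τ) (n : ℕ) (s : List ℤ) (w : ℕ) : 1 ≤ wX τ n s w := by
  have h1 : (1 : ℝ) ≤ (2 : ℝ) ^ (rk s n - 3 * w) := one_le_pow₀ (by norm_num)
  have h2 := one_le_wM hτ w
  unfold wX
  nlinarith

theorem wM_le_wX {τ : ℝ} (hτ : 2 ≤ τ) (n : ℕ) (s : List ℤ) (w : ℕ) : wM τ w ≤ wX τ n s w := by
  have h1 : (1 : ℝ) ≤ (2 : ℝ) ^ (rk s n - 3 * w) := one_le_pow₀ (by norm_num)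
  have h2 := one_le_wM hτ w
  unfold wX
  nlinarith

/-- `nX` is at most a polynomial times the power of two. -/
theorem nX_bd (bn : Bd N D n) : ∃ m : ℕ, ∀ a, D a → ∀ τ : ℝ, 2 ≤ τ →
    ((nX (n a) (s a) (w a) : ℝ) + 1) * wM τ (w a) ≤
      ((N a : ℝ) + 2) ^ m * wX τ (n a) (s a) (w a) := by
  obtain ⟨m, hm⟩ := (bd_nV bn).mul (bd_nV bn)
  refine ⟨m + 1, fun a ha τ hτ => ?_⟩
  have h1 : (1 : ℝ) ≤ (2 : ℝ) ^ (rk (s a) (n a) - 3 * w a) := one_le_pow₀ (by norm_num)
  have h2 := one_le_wM hτ (w a)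
  have h3 : ((nV (n a) * nV (n a) : ℕ) : ℝ) ≤ ((N a : ℝ) + 2) ^ m := by exact_mod_cast hm a ha
  have h4 : (nX (n a) (s a) (w a) : ℝ) =
      (2 : ℝ) ^ (rk (s a) (n a) - 3 * w a) * ((nV (n a) * nV (n a) : ℕ) : ℝ) := by
    unfold nX nV
    push_cast
    ring
  have h5 : (0 : ℝ) ≤ N a := Nat.cast_nonneg _
  have h6 : (1 : ℝ) ≤ ((N a : ℝ) + 2) ^ m := one_le_pow₀ (by linarith)
  rw [h4]
  unfold wX
  rw [← mul_assoc, pow_succ]
  refine mul_le_mul_of_nonneg_right ?_ (by linarith)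
  have h7 : (2 : ℝ) ^ (rk (s a) (n a) - 3 * w a) * ((nV (n a) * nV (n a) : ℕ) : ℝ) ≤
      (2 : ℝ) ^ (rk (s a) (n a) - 3 * w a) * ((N a : ℝ) + 2) ^ m :=
    mul_le_mul_of_nonneg_left h3 (by linarith)
  have h8 : (1 : ℝ) * 1 ≤ (2 : ℝ) ^ (rk (s a) (n a) - 3 * w a) * ((N a : ℝ) + 2) ^ m :=
    mul_le_mul h1 h6 (by norm_num) (by linarith)
  have h9 : (0 : ℝ) ≤ (2 : ℝ) ^ (rk (s a) (n a) - 3 * w a) * ((N a : ℝ) + 2) ^ m := by linarith
  nlinarith

/-- Counting: program and running time. -/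
theorem c_cn (h : Ms N D ρ n w M s) {p : A → ℤ} (hp : PI N D ρ p) :
    Cp N D ρ (fun τ a => wX τ (n a) (s a) (w a)) .int
      (fun a => cn (n a) (M a) (s a) (w a) (p a)) := by
  have hb : Body N D ρ (fun a => nX (n a) (s a) (w a)) (fun τ a => wM τ (w a)) .int
      (fun a x => ∑ x' ∈ range (2 ^ w a * 2 ^ w a),
        if va (n a) (M a) (s a) (w a) x x' = p a then gt (mx (n a) (M a) (s a) (w a) x) x' else 0) :=
    fun Γ1 ρ1 up hv => by
      have g := h.up up
      refine (c_mx g hv).store fun Γ2 ρ2 k2 e2 => ?_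
      have g2 := g.ke k2
      have h2 := Cp.sum (w := one) (f := fun q x' =>
          if va (n q.1) (M q.1) (s q.1) (w q.1) q.2 x' = p q.1 then
            gt (mx (n q.1) (M q.1) (s q.1) (w q.1) q.2) x' else 0)
        (PN.mul g2.p2 g2.p2) (fun _ _ _ _ => le_refl _) fun Γ3 ρ3 up3 hv3 => by
          have g3 := g2.up up3
          exact Cp.ite (PB.eq (c_va g3 (up3.n (k2.n hv)) hv3) (up3.i (k2.i (up.i hp))))
            (PI.get (up3.a e2) hv3) (PI.const 0)
      refine h2.mono fun q _ τ hτ => ?_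
      simp only [one, mul_one]
      exact wM_sq hτ (w q.1)
  have h1 := Cp.sum (c_nX h) (fun a _ τ hτ => one_le_wM hτ (w a)) hb
  have h2 : Cp N D ρ (fun τ a => ((nX (n a) (s a) (w a) : ℝ) + 1) * wM τ (w a)) .int
      (fun a => cn (n a) (M a) (s a) (w a) (p a)) := h1.congr fun a _ => rfl
  obtain ⟨m, hm⟩ := nX_bd (w := w) (s := s) h.bn
  exact h2.mono_poly m fun a ha τ hτ => ⟨one_le_wX hτ _ _ _, hm a ha τ hτ⟩

end Pool.Agent.MPa9445a.DB
end
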