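import Pool.Agent.Lib.MP_a9445a_lc.Mg.G147

section

/-! The candidate is at least as good as all vectors of the ball with the two values. -/

set_option autoImplicit false

open Finset

namespace Pool.Agent.MPa9445a.BW

open Pool.Agent.MPa9445a.BE (gt bit tb flt lin Phi vec code argmax matMul fv fv_tb fv_lin wtm wt bq bil_eq vec_code
  getD_tb getD_matMul argmax_spec length_tb)

section

variable {a : In}

private theorem C2_div {k u v : ℕ} (hv : v < k) : (u * k + v) / k = u := by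
  rw [Nat.add_comm, Nat.add_mul_div_right v u (by omega), Nat.div_eq_of_lt hv, Nat.zero_add]

private theorem C2_mod {k u v : ℕ} (hv : v < k) : (u * k + v) % k = v := by
  rw [Nat.add_comm, Nat.add_mul_mod_self_right, Nat.mod_eq_of_lt hv]

private theorem C2_lt {k u v : ℕ} (hu : u < k) (hv : v < k) : u * k + v < k * k := by
  calc u * k + v < u * k + k := by omega
    _ = (u + 1) * k := by ring
    _ ≤ k * k := Nat.mul_le_mul_right k hu

private theorem C2_idx {k r : ℕ} (hr : r < k * k) : r / k < k ∧ r % k < k ∧ r / k * k + r % k = r := by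
  have hk : 0 < k := by
    rcases Nat.eq_zero_or_pos k with h | h
    · subst h; simp at hr
    · exact h
  refine ⟨Nat.div_lt_of_lt_mul hr, Nat.mod_lt _ hk, ?_⟩
  rw [mul_comm]
  exact Nat.div_add_mod r k

theorem M1_get {u v : ℕ} (hu : u < kk a) (hv : v < kk a) :
    gt (M1 a) (u * kk a + v) = if u < (T1 a).length ∧ v < 2 ^ n2 a ∧
      Phi a.n a.M (lin a.n 1 (z1 a u) 1 (z2 a v)) - Phi a.n a.M (z1 a u) = a.α
      then 1 else 0 := by
  unfold M1 gt
  rw [getD_tb, if_pos (C2_lt hu hv), C2_div hv, C2_mod hv]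

theorem M2_get {u v : ℕ} (hu : u < kk a) (hv : v < kk a) :
    gt (M2 a) (u * kk a + v) = if u < 2 ^ n2 a ∧ v < 2 ^ n3 a ∧
      Phi a.n a.M (lin a.n 1 (z2 a u) 1 (z3 a v)) - Phi a.n a.M (z2 a u) - Phi a.n a.M (z3 a v) = a.β
      then 1 else 0 := by
  unfold M2 gt
  rw [getD_tb, if_pos (C2_lt hu hv), C2_div hv, C2_mod hv]

theorem MP_pos {u v : ℕ} (hu : u < kk a) (hv : v < kk a) :
    gt (MP a) (u * kk a + v) ≠ 0 ↔
      ∃ w < kk a, gt (M1 a) (u * kk a + w) = 1 ∧ gt (M2 a) (w * kk a + v) = 1 := by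
  have e : gt (MP a) (u * kk a + v) = ∑ w ∈ range (kk a),
      gt (M1 a) (u * kk a + w) * gt (M2 a) (w * kk a + v) := by
    unfold MP gt
    exact getD_matMul (kk a) (M1 a) (M2 a) hu hv
  have h1 : ∀ w < kk a, gt (M1 a) (u * kk a + w) = 0 ∨ gt (M1 a) (u * kk a + w) = 1 := by
    intro w hw
    rw [M1_get hu hw]
    split_ifs
    · exact Or.inr rfl
    · exact Or.inl rfl
  have h2 : ∀ w < kk a, gt (M2 a) (w * kk a + v) = 0 ∨ gt (M2 a) (w * kk a + v) = 1 := by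
    intro w hw
    rw [M2_get hw hv]
    split_ifs
    · exact Or.inr rfl
    · exact Or.inl rfl
  have hnn : ∀ w ∈ range (kk a), 0 ≤ gt (M1 a) (u * kk a + w) * gt (M2 a) (w * kk a + v) := by
    intro w hw
    rw [Finset.mem_range] at hw
    rcases h1 w hw with e1 | e1 <;> rcases h2 w hw with e2 | e2 <;> rw [e1, e2] <;> norm_num
  rw [e]
  constructor
  · intro hne
    obtain ⟨w, hw, hw2⟩ := Finset.exists_ne_zero_of_sum_ne_zero hne
    rw [Finset.mem_range] at hw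
    refine ⟨w, hw, ?_⟩
    rcases h1 w hw with e1 | e1
    · rw [e1, zero_mul] at hw2
      exact absurd rfl hw2
    · rcases h2 w hw with e2 | e2
      · rw [e2, mul_zero] at hw2
        exact absurd rfl hw2
      · exact ⟨e1, e2⟩
  · rintro ⟨w, hw, e1, e2⟩ h0
    have h3 := (Finset.sum_eq_zero_iff_of_nonneg hnn).mp h0 w (Finset.mem_range.mpr hw)
    rw [e1, e2] at h3
    norm_num at h3

theorem va_eq {u v : ℕ} (hu : u < kk a) (hv : v < kk a) :
    va a (u * kk a + v) = if gt (MP a) (u * kk a + v) ≠ 0 then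
      Phi a.n a.M (z13 a u v) + 8 * (a.n : ℤ) ^ 4 else 0 := by
  unfold va
  rw [C2_div hv, C2_mod hv]

theorem Phi_z13 (u v : ℕ) : Phi a.n a.M (z13 a u v) =
    bq (wtm a.n a.M) (fun w => fv a.n (z1 a u) w + fv a.n (z3 a v) w)
      (fun w => fv a.n (z1 a u) w + fv a.n (z3 a v) w) := by
  unfold z13
  exact Phi_lin _ _ _ _

theorem va_pos (hn : 0 < a.n) (hM : ∀ x ∈ a.M, |x| ≤ 1) {u v : ℕ} (hu : u < kk a) (hv : v < kk a)
    (h : gt (MP a) (u * kk a + v) ≠ 0) : 0 < va a (u * kk a + v) := by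
  rw [va_eq hu hv, if_pos h, Phi_z13]
  have h1 := bq_bd hn hM (x := fun w => fv a.n (z1 a u) w + fv a.n (z3 a v) w)
    (fun w => parts_abs13 _ _ w)
  have h2 := (abs_le.mp h1).1
  have h3 : (0 : ℤ) < (a.n : ℤ) ^ 4 := by
    have : (0 : ℤ) < (a.n : ℤ) := by exact_mod_cast hn
    positivity
  linarith

/-- The value of the candidate. -/
theorem core (hn : 0 < a.n) (hM : ∀ x ∈ a.M, |x| ≤ 1) {u c2 c3 : ℕ}
    (hu : u < (T1 a).length) (hc2 : c2 < 2 ^ n2 a) (hc3 : c3 < 2 ^ n3 a)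
    (hα : Phi a.n a.M (lin a.n 1 (z1 a u) 1 (z2 a c2)) - Phi a.n a.M (z1 a u) = a.α)
    (hβ : Phi a.n a.M (lin a.n 1 (z2 a c2) 1 (z3 a c3)) - Phi a.n a.M (z2 a c2) -
      Phi a.n a.M (z3 a c3) = a.β) :
    Phi a.n a.M (z13 a u c3) + a.α + a.β ≤ Phi a.n a.M (vec a.n (cand a)) := by
  set k := kk a with hkdef
  have hk2 : 2 ^ n2 a ≤ k := n2_le_kk a
  have hk3 : 2 ^ n3 a ≤ k := n3_le_kk a
  have hT : (T1 a).length ≤ k := T1_le_kk a
  have hkpos : 0 < k := kk_pos a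
  have huk : u < k := lt_of_lt_of_le hu hT
  have hc2k : c2 < k := lt_of_lt_of_le hc2 hk2
  have hc3k : c3 < k := lt_of_lt_of_le hc3 hk3
  have hm1 : gt (M1 a) (u * k + c2) = 1 := by
    rw [hkdef, M1_get huk hc2k, if_pos ⟨hu, hc2, hα⟩]
  have hm2 : gt (M2 a) (c2 * k + c3) = 1 := by
    rw [hkdef, M2_get hc2k hc3k, if_pos ⟨hc2, hc3, hβ⟩]
  have hmp : gt (MP a) (u * k + c3) ≠ 0 := (MP_pos huk hc3k).mpr ⟨c2, hc2k, hm1, hm2⟩
  have hva := va_eq huk hc3k
  rw [← hkdef, if_pos hmp] at hva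
  have hvp : 0 < va a (u * k + c3) := va_pos hn hM huk hc3k hmp
  -- the maximum
  obtain ⟨hr1, hr2⟩ := argmax_spec (k := k * k) (by positivity) (fun x : ℤ => va a x.toNat)
  have hrr : rr a = argmax (k * k) (fun x : ℤ => va a x.toNat) := rfl
  rw [← hrr] at hr1 hr2
  have hr3 := hr2 (u * k + c3) (C2_lt huk hc3k)
  simp only [Int.toNat_natCast] at hr3
  obtain ⟨hi1, hi2, hi3⟩ := C2_idx hr1
  set r := rr a with hr
  set u' := r / k with hu'
  set v' := r % k with hv'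
  have hva' := va_eq hi1 hi2
  rw [← hkdef, hi3] at hva'
  have hmp' : gt (MP a) r ≠ 0 := by
    intro h0
    rw [h0] at hva'
    simp only [ne_eq, not_true_eq_false, if_false] at hva'
    omega
  have hmp2 : gt (MP a) (u' * k + v') ≠ 0 := by rw [hi3]; exact hmp'
  obtain ⟨w, hw, hw1, hw2⟩ := (MP_pos hi1 hi2).mp hmp2
  obtain ⟨hb1, hb2⟩ := argmax_spec (k := k) hkpos (fun y : ℤ =>
    gt (M1 a) (u' * k + y.toNat) * gt (M2 a) (y.toNat * k + v'))
  have hrb : rb a = argmax k (fun y : ℤ =>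
    gt (M1 a) (u' * k + y.toNat) * gt (M2 a) (y.toNat * k + v')) := rfl
  rw [← hrb] at hb1 hb2
  have hb3 := hb2 w hw
  simp only [Int.toNat_natCast] at hb3
  rw [hw1, hw2] at hb3
  set t := rb a with ht
  have hM1 := M1_get hi1 hb1
  have hM2 := M2_get hb1 hi2
  rw [← hkdef] at hM1 hM2
  rw [hM1, hM2] at hb3
  have hcond1 : u' < (T1 a).length ∧ t < 2 ^ n2 a ∧
      Phi a.n a.M (lin a.n 1 (z1 a u') 1 (z2 a t)) - Phi a.n a.M (z1 a u') = a.α := by
    by_contra hcon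
    rw [if_neg hcon] at hb3
    omega
  have hcond2 : t < 2 ^ n2 a ∧ v' < 2 ^ n3 a ∧
      Phi a.n a.M (lin a.n 1 (z2 a t) 1 (z3 a v')) - Phi a.n a.M (z2 a t) -
        Phi a.n a.M (z3 a v') = a.β := by
    by_contra hcon
    rw [if_neg hcon] at hb3
    omega
  -- the candidate
  have hvec : fv a.n (lin a.n 1 (z13 a u' v') 1 (z2 a t)) =
      fun v => fv a.n (z1 a u') v + fv a.n (z3 a v') v + fv a.n (z2 a t) v := by
    rw [fv_lin]
    funext v
    unfold z13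
    rw [fv_lin]
    ring
  have hsgn : ∀ v : Fin a.n, fv a.n (lin a.n 1 (z13 a u' v') 1 (z2 a t)) v = 1 ∨
      fv a.n (lin a.n 1 (z13 a u' v') 1 (z2 a t)) v = -1 := by
    intro v
    rw [hvec]
    exact parts_sign hn _ _ _ v
  have hcand : cand a = code a.n (lin a.n 1 (z13 a u' v') 1 (z2 a t)) := rfl
  have hPhi : Phi a.n a.M (vec a.n (cand a)) =
      bq (wtm a.n a.M) (fun v => fv a.n (z1 a u') v + fv a.n (z3 a v') v + fv a.n (z2 a t) v)
        (fun v => fv a.n (z1 a u') v + fv a.n (z3 a v') v + fv a.n (z2 a t) v) := by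
    rw [Phi_eq, hcand, vec_code hsgn, hvec]
  have e1 := hcond1.2.2
  have e2 := hcond2.2.2
  rw [Phi_lin, Phi_eq] at e1
  rw [Phi_lin, Phi_eq, Phi_eq] at e2
  rw [hPhi, bq_three, e1, e2]
  rw [if_pos hmp', Phi_z13] at hva'
  rw [hva, hva'] at hr3
  linarith

/-- The best vector of the data. -/
theorem cand_opt (hn : 0 < a.n) (hM : ∀ x ∈ a.M, |x| ≤ 1) (hi : a.i * (a.n / 3) ≤ a.n)
    {x : Fin a.n → ℤ} (hx : ∀ v, x v = 1 ∨ x v = -1)
    (hd : 30000 * (∑ j ∈ range (a.n / 3),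
      if ∃ v : Fin a.n, (v : ℕ) = a.i * (a.n / 3) + j ∧ x v = gt a.y (a.i * (a.n / 3) + j) then 0 else 1 : ℤ) ≤
        4999 * (a.n : ℤ))
    (hi3 : a.i < 3)
    (hα : bq (wtm a.n a.M) (fun v => rp a 0 (n1 a) x v + rp a (n1 a) (n2 a) x v)
      (fun v => rp a 0 (n1 a) x v + rp a (n1 a) (n2 a) x v) -
        bq (wtm a.n a.M) (rp a 0 (n1 a) x) (rp a 0 (n1 a) x) = a.α)
    (hβ : bq (wtm a.n a.M) (fun v => rp a (n1 a) (n2 a) x v + rp a (n1 a + n2 a) (n3 a) x v)
      (fun v => rp a (n1 a) (n2 a) x v + rp a (n1 a + n2 a) (n3 a) x v) -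
        bq (wtm a.n a.M) (rp a (n1 a) (n2 a) x) (rp a (n1 a) (n2 a) x) -
        bq (wtm a.n a.M) (rp a (n1 a + n2 a) (n3 a) x) (rp a (n1 a + n2 a) (n3 a) x) = a.β) :
    bq (wtm a.n a.M) x x ≤ Phi a.n a.M (vec a.n (cand a)) := by
  classical
  obtain ⟨c1, hc1, he1, hk1⟩ := exists_pv hi hx 0 (n1 a)
  obtain ⟨c2, hc2, he2, -⟩ := exists_pv hi hx (n1 a) (n2 a)
  obtain ⟨c3, hc3, he3, -⟩ := exists_pv hi hx (n1 a + n2 a) (n3 a)
  -- the code is in the list
  have hnd : 30000 * nd a c1 ≤ 4999 * (a.n : ℤ) := by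
    refine le_trans (le_of_eq ?_) hd
    congr 1
    unfold nd
    apply Finset.sum_congr rfl
    intro j hj
    have hj' := Finset.mem_range.1 hj
    have hjn : j < a.n := by omega
    have hjn1 : j < n1 a := by unfold n1; omega
    have hlt : a.i * (a.n / 3) + j < a.n := by
      have h1 : a.i * (a.n / 3) ≤ 2 * (a.n / 3) := Nat.mul_le_mul_right _ (by omega)
      omega
    have hp := pt_third (a := a) hjn
    have hk := hk1 ⟨a.i * (a.n / 3) + j, hlt⟩ (Nat.zero_le _) (by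
      show pt a (a.i * (a.n / 3) + j) < 0 + n1 a
      rw [hp]; omega)
    have hk' : 2 * (bit c1 j : ℤ) - 1 = x ⟨a.i * (a.n / 3) + j, hlt⟩ := by
      have : pt a (a.i * (a.n / 3) + j) - 0 = j := by rw [hp]; rfl
      rw [← hk]
      simp only
      rw [this]
    rw [hk']
    by_cases h : x ⟨a.i * (a.n / 3) + j, hlt⟩ = gt a.y (a.i * (a.n / 3) + j)
    · rw [if_pos h, if_pos ⟨⟨a.i * (a.n / 3) + j, hlt⟩, rfl, h⟩]
    · rw [if_neg h, if_neg]
      rintro ⟨v, hv1, hv2⟩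
      apply h
      have : v = ⟨a.i * (a.n / 3) + j, hlt⟩ := Fin.ext hv1
      rw [← this]
      exact hv2
  obtain ⟨u, hu, -, hgu⟩ := SN.flt_pos (k := 2 ^ n1 a) (fun c => 30000 * nd a c ≤ 4999 * (a.n : ℤ)) hc1 hnd
  have hz1 : fv a.n (z1 a u) = rp a 0 (n1 a) x := by
    have : gt (T1 a) u = (c1 : ℤ) := hgu
    unfold z1
    rw [this, Int.toNat_natCast]
    exact he1
  have hz2 : fv a.n (z2 a c2) = rp a (n1 a) (n2 a) x := he2
  have hz3 : fv a.n (z3 a c3) = rp a (n1 a + n2 a) (n3 a) x := he3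
  have hcore := core hn hM (u := u) (c2 := c2) (c3 := c3) hu hc2 hc3
    (by rw [Phi_lin, Phi_eq, hz1, hz2]; exact hα)
    (by rw [Phi_lin, Phi_eq, Phi_eq, hz2, hz3]; exact hβ)
  refine le_trans (le_of_eq ?_) hcore
  rw [Phi_z13, hz1, hz3, ← hα, ← hβ, ← bq_three]
  have : (fun v => rp a 0 (n1 a) x v + rp a (n1 a + n2 a) (n3 a) x v + rp a (n1 a) (n2 a) x v) = x := by
    funext v
    rw [← rp_add hn x v]
    ring
  rw [this]

end

end Pool.Agent.MPa9445a.BW
end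

section

/-! The best vector of the ball. -/

set_option autoImplicit false

open Finset

namespace Pool.Agent.MPa9445a.BW

open Pool.Agent.MPa9445a.BE (gt bit tb flt lin Phi vec code argmax matMul fv fv_tb fv_lin wtm wt bq bil_eq vec_code
  getD_tb getD_matMul argmax_spec length_tb)

/-- One of the three intervals contains at most a third of the places. -/
theorem exists_third {n : ℕ} (x : Fin n → ℤ) (y : List ℤ)
    (hd : 10000 * (univ.filter fun v : Fin n => x v ≠ fv n y v).card ≤ 4999 * n) :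
    ∃ i < 3, 30000 * (∑ j ∈ range (n / 3),
      if ∃ v : Fin n, (v : ℕ) = i * (n / 3) + j ∧ x v = gt y (i * (n / 3) + j) then 0 else 1 : ℤ) ≤
        4999 * (n : ℤ) := by
  classical
  set g : ℕ → ℤ := fun w => if ∃ v : Fin n, (v : ℕ) = w ∧ x v = gt y w then 0 else 1 with hg
  have hg0 : ∀ w, 0 ≤ g w := by
    intro w
    rw [hg]
    simp only
    split_ifs <;> norm_num
  have h1 : ∑ w ∈ range n, g w = ((univ.filter fun v : Fin n => x v ≠ fv n y v).card : ℤ) := by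
    rw [Finset.sum_range, Finset.card_filter, Nat.cast_sum]
    apply Finset.sum_congr rfl
    intro v _
    rw [hg]
    simp only
    by_cases h : x v = fv n y v
    · rw [if_pos ⟨v, rfl, h⟩, if_neg (by simpa using h)]
      rfl
    · rw [if_neg, if_pos h]
      · rfl
      · rintro ⟨u, hu1, hu2⟩
        apply h
        have : u = v := Fin.ext hu1
        rw [← this]
        rw [this] at hu2 ⊢
        exact hu2
  have h2 : ∑ w ∈ range (n / 3 + n / 3 + n / 3), g w ≤ ∑ w ∈ range n, g w := by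
    apply Finset.sum_le_sum_of_subset_of_nonneg
    · intro w hw
      rw [Finset.mem_range] at hw ⊢
      omega
    · intro w _ _
      exact hg0 w
  rw [Finset.sum_range_add, Finset.sum_range_add] at h2
  have e0 : ∑ j ∈ range (n / 3), g j = ∑ j ∈ range (n / 3), g (0 * (n / 3) + j) := by simp
  have e1 : ∑ j ∈ range (n / 3), g (n / 3 + j) = ∑ j ∈ range (n / 3), g (1 * (n / 3) + j) := by simp
  have e2 : ∑ j ∈ range (n / 3), g (n / 3 + n / 3 + j) = ∑ j ∈ range (n / 3), g (2 * (n / 3) + j) := by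
    rw [two_mul]
  rw [e0, e1, e2, h1] at h2
  have h3 : (10000 : ℤ) * ((univ.filter fun v : Fin n => x v ≠ fv n y v).card : ℤ) ≤ 4999 * (n : ℤ) := by
    exact_mod_cast hd
  by_contra hcon
  push Not at hcon
  have c0 := hcon 0 (by norm_num)
  have c1 := hcon 1 (by norm_num)
  have c2 := hcon 2 (by norm_num)
  change 4999 * (n : ℤ) < 30000 * ∑ j ∈ range (n / 3), g (0 * (n / 3) + j) at c0
  change 4999 * (n : ℤ) < 30000 * ∑ j ∈ range (n / 3), g (1 * (n / 3) + j) at c1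
  change 4999 * (n : ℤ) < 30000 * ∑ j ∈ range (n / 3), g (2 * (n / 3) + j) at c2
  linarith

theorem bw_lt (n : ℕ) (M y : List ℤ) : bw n M y < 2 ^ n := BE.code_lt _ _

/-- The vector is at least as good as every vector which differs from `y` at at most `4999 n / 10000` places. -/
theorem bw_opt {n : ℕ} (hn : 0 < n) {M y : List ℤ} (hM : ∀ x ∈ M, |x| ≤ 1) {x : Fin n → ℤ}
    (hx : ∀ v, x v = 1 ∨ x v = -1)
    (hd : 10000 * (univ.filter fun v : Fin n => x v ≠ fv n y v).card ≤ 4999 * n) :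
    bq (wtm n M) x x ≤ Phi n M (vec n (bw n M y)) := by
  classical
  obtain ⟨i, hi, hdi⟩ := exists_third x y hd
  have hi' : i * (n / 3) ≤ n := by
    have h1 : i * (n / 3) ≤ 2 * (n / 3) := Nat.mul_le_mul_right _ (by omega)
    omega
  -- the two values
  set a₀ : In := ⟨n, M, y, i, 0, 0⟩ with ha₀
  obtain ⟨c1, hc1, he1, -⟩ := exists_pv (a := a₀) hi' (x := x) hx 0 (n1 a₀)
  obtain ⟨c2, hc2, he2, -⟩ := exists_pv (a := a₀) hi' (x := x) hx (n1 a₀) (n2 a₀)
  obtain ⟨c3, hc3, he3, -⟩ := exists_pv (a := a₀) hi' (x := x) hx (n1 a₀ + n2 a₀) (n3 a₀)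
  set r1 : Fin n → ℤ := rp a₀ 0 (n1 a₀) x with hr1
  set r2 : Fin n → ℤ := rp a₀ (n1 a₀) (n2 a₀) x with hr2
  set r3 : Fin n → ℤ := rp a₀ (n1 a₀ + n2 a₀) (n3 a₀) x with hr3
  set α : ℤ := bq (wtm n M) (fun v => r1 v + r2 v) (fun v => r1 v + r2 v) - bq (wtm n M) r1 r1 with hα
  set β : ℤ := bq (wtm n M) (fun v => r2 v + r3 v) (fun v => r2 v + r3 v) - bq (wtm n M) r2 r2 -
    bq (wtm n M) r3 r3 with hβ
  have b1 : |bq (wtm n M) r1 r1| ≤ 2 * (n : ℤ) ^ 4 :=
    bq_bd hn hM fun v => by rw [← he1]; exact fv_pv_abs (a := a₀) _ _ _ v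
  have b2 : |bq (wtm n M) r2 r2| ≤ 2 * (n : ℤ) ^ 4 :=
    bq_bd hn hM fun v => by rw [← he2]; exact fv_pv_abs (a := a₀) _ _ _ v
  have b3 : |bq (wtm n M) r3 r3| ≤ 2 * (n : ℤ) ^ 4 :=
    bq_bd hn hM fun v => by rw [← he3]; exact fv_pv_abs (a := a₀) _ _ _ v
  have b12 : |bq (wtm n M) (fun v => r1 v + r2 v) (fun v => r1 v + r2 v)| ≤ 2 * (n : ℤ) ^ 4 :=
    bq_bd hn hM fun v => by rw [← he1, ← he2]; exact parts_abs12 (a := a₀) _ _ v
  have b23 : |bq (wtm n M) (fun v => r2 v + r3 v) (fun v => r2 v + r3 v)| ≤ 2 * (n : ℤ) ^ 4 :=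
    bq_bd hn hM fun v => by rw [← he2, ← he3]; exact parts_abs23 (a := a₀) _ _ v
  have hαb : |α| ≤ 8 * (n : ℤ) ^ 4 := by
    rw [abs_le] at *
    constructor <;> linarith [b1.1, b1.2, b12.1, b12.2]
  have hβb : |β| ≤ 8 * (n : ℤ) ^ 4 := by
    rw [abs_le] at *
    constructor <;> linarith [b2.1, b2.2, b3.1, b3.2, b23.1, b23.2]
  -- the index
  obtain ⟨A, hA⟩ : ∃ A : ℕ, (A : ℤ) = α + 8 * (n : ℤ) ^ 4 :=
    ⟨(α + 8 * (n : ℤ) ^ 4).toNat, Int.toNat_of_nonneg (by linarith [(abs_le.1 hαb).1])⟩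
  obtain ⟨B, hB⟩ : ∃ B : ℕ, (B : ℤ) = β + 8 * (n : ℤ) ^ 4 :=
    ⟨(β + 8 * (n : ℤ) ^ 4).toNat, Int.toNat_of_nonneg (by linarith [(abs_le.1 hβb).1])⟩
  have hA' : A < 16 * n ^ 4 + 1 := by
    have : (A : ℤ) < 16 * (n : ℤ) ^ 4 + 1 := by rw [hA]; linarith [(abs_le.1 hαb).2]
    exact_mod_cast this
  have hB' : B < 16 * n ^ 4 + 1 := by
    have : (B : ℤ) < 16 * (n : ℤ) ^ 4 + 1 := by rw [hB]; linarith [(abs_le.1 hβb).2]
    exact_mod_cast this
  set L := 16 * n ^ 4 + 1 with hL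
  set z := i + 3 * (A + L * B) with hz
  have hzl : z < 3 * (L * L) := by
    have h1 : A + L * B < L * L := by
      calc A + L * B < L + L * B := by omega
        _ = L * (B + 1) := by ring
        _ ≤ L * L := Nat.mul_le_mul_left L hB'
    omega
  have hz3 : z % 3 = i := by omega
  have hzd : z / 3 = A + L * B := by omega
  have hzA : z / 3 % L = A := by
    rw [hzd, Nat.add_mul_mod_self_left, Nat.mod_eq_of_lt hA']
  have hzB : z / 3 / L = B := by
    rw [hzd, Nat.add_mul_div_left _ _ (by omega), Nat.div_eq_of_lt hA', Nat.zero_add]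
  have hinp : inp n M y z = ⟨n, M, y, i, α, β⟩ := by
    unfold inp
    rw [hz3, ← hL, hzA, hzB, hA, hB]
    simp
  have hmain : bq (wtm n M) x x ≤ Phi n M (vec n (cand (inp n M y z))) := by
    rw [hinp]
    exact cand_opt (a := ⟨n, M, y, i, α, β⟩) hn hM hi' hx hdi hi rfl rfl
  refine hmain.trans ?_
  obtain ⟨-, h2⟩ := argmax_spec (k := 3 * (L * L)) (by positivity)
    (fun x : ℤ => Phi n M (vec n (cand (inp n M y x.toNat))))
  have h3 := h2 z hzl
  simp only [Int.toNat_natCast] at h3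
  exact h3

end Pool.Agent.MPa9445a.BW
end
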