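import Pool.Agent.Lib.MP_a9445a_lc.Mg.G125
import Pool.Agent.Lib.MP_a9445a_lc.Mg.G127

section

/-! The random sets. -/

set_option autoImplicit false

open Finset
open scoped symmDiff

namespace Pool.Agent.MPa9445a.GL

open Pool.Agent.MPa9445a.BE
open Pool.Agent.MPa9445a.SN (ST Fm rs kb)
open Pool.Agent.MPa9445a.GD (dd)

variable {n : ℕ}

private theorem Q1c_lt (f : ℕ → ℕ) (hf : ∀ v, f v = 0 ∨ f v = 1) (m : ℕ) :
    ∑ v ∈ range m, f v * 2 ^ v < 2 ^ m := by
  induction m with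
  | zero => simp
  | succ m ih =>
    rw [Finset.sum_range_succ, pow_succ]
    rcases hf m with h | h
    · rw [h]
      omega
    · rw [h]
      omega

private theorem Q1c_bit (f : ℕ → ℕ) (hf : ∀ v, f v = 0 ∨ f v = 1) (m w : ℕ) (hw : w < m) :
    bit (∑ v ∈ range m, f v * 2 ^ v) w = f w := by
  induction m with
  | zero => exact absurd hw (Nat.not_lt_zero _)
  | succ m ih =>
    unfold bit at ih ⊢
    rw [Finset.sum_range_succ]
    rcases Nat.lt_succ_iff_lt_or_eq.1 hw with h | h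
    · obtain ⟨k, hk⟩ : ∃ k, m = w + (k + 1) := ⟨m - w - 1, by omega⟩
      have h1 : f m * 2 ^ m = 2 ^ w * (2 * (f m * 2 ^ k)) := by
        rw [hk, pow_add, pow_succ]
        ring
      rw [h1, Nat.add_mul_div_left _ _ (by positivity), Nat.add_mul_mod_self_left]
      exact ih h
    · subst h
      rw [Nat.add_mul_div_right _ _ (by positivity), Nat.div_eq_of_lt (Q1c_lt f hf w), zero_add]
      rcases hf w with h | h
      · rw [h]
      · rw [h]

/-- The set of a sum of powers of `2`. PROOF. Digits of a sum of different powers of `2` with exponents `< n`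
(`SN/C1b`). -/
theorem ST_sum (f : ℕ → ℕ) (hf : ∀ v, f v = 0 ∨ f v = 1) :
    ST n (∑ v ∈ range n, f v * 2 ^ v) = univ.filter fun v : Fin n => f v = 1 := by
  ext v
  unfold SN.ST
  rw [mem_filter, mem_filter, Q1c_bit f hf n v v.2]

private theorem Q1c_mod (a : ℤ) : (a % 2).toNat = 0 ∨ (a % 2).toNat = 1 := by
  rcases Int.emod_two_eq_zero_or_one a with h | h
  · left
    rw [h]
    rfl
  · right
    rw [h]
    rfl

private theorem Q1c_mod1 (a : ℤ) : (a % 2).toNat = 1 ↔ a % 2 = 1 := by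
  rcases Int.emod_two_eq_zero_or_one a with h | h
  · rw [h]
    simp
  · rw [h]
    simp

/-- PROOF. `ST_sum`. -/
theorem ST_dk (r : List ℤ) (c : ℕ) : ST n (dk n r c) = ST n c ∩ Fr (fv n r) := by
  have h1 : dk n r c = ∑ v ∈ range n, (if gt r v = 2 then bit c v else 0) * 2 ^ v := by
    unfold dk
    refine Finset.sum_congr rfl fun v _ => ?_
    split_ifs
    · rfl
    · rw [zero_mul]
  rw [h1, ST_sum]
  · ext v
    rw [mem_filter, mem_inter]
    unfold SN.ST Fr fv
    rw [mem_filter, mem_filter]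
    by_cases h : gt r (v : ℕ) = 2
    · simp only [h, if_true, mem_univ, true_and, and_true]
    · simp only [h, if_false, mem_univ, true_and, and_false, zero_ne_one]
  · intro v
    split_ifs
    · unfold bit
      exact Nat.mod_two_eq_zero_or_one _
    · exact Or.inl rfl

private theorem Q1c_dec (a : ℤ) : (((decide (a % 2 = 1)).toNat : ℕ) : ℤ) = a % 2 := by
  rcases Int.emod_two_eq_zero_or_one a with h | h
  · rw [h]
    simp
  · rw [h]
    simp

/-- PROOF. `ST_sum`; the number in brackets has the same parity as the one in `rs` for `fR n R o`. -/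
theorem ST_rc (R : List ℤ) (o i : ℕ) : ST n (rc n R o i) = rs (fR n R o) i := by
  unfold rc
  rw [ST_sum]
  · ext v
    unfold SN.rs
    rw [mem_filter, mem_filter]
    refine and_congr_right fun _ => ?_
    rw [Q1c_mod1]
    have h1 : ((((fR n R o v 0).toNat + ∑ j : Fin (kb n), (fR n R o v j.succ).toNat * bit i j : ℕ) : ℤ)) ≡
        gt R (o + v * (kb n + 1)) +
          ∑ j ∈ range (kb n), gt R (o + v * (kb n + 1) + (j + 1)) * (bit i j : ℤ) [ZMOD 2] := by
      rw [Finset.sum_range]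
      push_cast
      refine Int.ModEq.add ?_ (Int.ModEq.sum fun j _ => Int.ModEq.mul_right _ ?_)
      · unfold fR
        rw [Q1c_dec]
        exact Int.mod_modEq _ _
      · unfold fR
        rw [Q1c_dec]
        exact Int.mod_modEq _ _
    unfold Int.ModEq at h1
    rw [← h1]
    constructor
    · intro h
      omega
    · intro h
      omega
  · intro v
    exact Q1c_mod _

private theorem Q1c_card (w : ℕ) (A : ℕ → ℤ) :
    ((((ST n w ∩ univ.filter fun u : Fin n => A u % 2 = 1).card : ℕ) : ℤ)) ≡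
      ∑ u ∈ range n, A u * (bit w u : ℤ) [ZMOD 2] := by
  have h1 : (ST n w ∩ univ.filter fun u : Fin n => A u % 2 = 1) =
      univ.filter fun u : Fin n => bit w u = 1 ∧ A u % 2 = 1 := by
    ext u
    unfold SN.ST
    simp only [mem_inter, mem_filter, mem_univ, true_and]
  rw [h1, Finset.card_filter, Finset.sum_range]
  push_cast
  refine Int.ModEq.sum fun u _ => ?_
  have h2 : bit w u = 0 ∨ bit w u = 1 := by
    unfold bit
    exact Nat.mod_two_eq_zero_or_one _
  rcases h2 with h2 | h2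
  · rw [h2]
    simp
  · rw [h2]
    rcases Int.emod_two_eq_zero_or_one (A u) with h | h
    · simp only [h, true_and, zero_ne_one, if_false, Nat.cast_one, mul_one]
      unfold Int.ModEq
      omega
    · simp only [h, true_and, if_true, Nat.cast_one, mul_one]
      unfold Int.ModEq
      omega

private theorem Q1c_xor (a : Prop) (x y : ℤ) (hx : x % 2 = 1 ↔ a) :
    (x + y) % 2 = 1 ↔ (a ∧ ¬ y % 2 = 1) ∨ (y % 2 = 1 ∧ ¬ a) := by
  rw [← hx]
  omega

/-- PROOF. `ST_sum`; `v ∈ lnr ..` iff the first part of the bracket is odd (the sum over `u` has the parity of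
`#(w ∩ A v)`), `v ∈ h i` iff the second part is odd. -/
theorem ST_dw (R : List ℤ) (o : ℕ) (s : List ℤ) (j w : ℕ) (i : Fin (Rn n))
    (hw : ST n w ⊆ lo (fv n s) j) :
    ST n (dw n R o s j w i) = Dw (fv n s) (AR n R o) (HR n R o) j (ST n w) i := by
  have h1 : dw n R o s j w i = ∑ v ∈ range n, (if gt s v = 2 then
      (((if v < j then (bit w v : ℤ) else ∑ u ∈ range n, gt R (o + v * n + u) * (bit w u : ℤ)) +
        gt R (o + n * n + i * n + v)) % 2).toNat else 0) * 2 ^ v := by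
    unfold dw
    refine Finset.sum_congr rfl fun v _ => ?_
    split_ifs
    · rfl
    · rfl
    · rw [zero_mul]
  rw [h1, ST_sum]
  · ext v
    unfold Dw lnr
    rw [mem_filter, mem_symmDiff, mem_inter, mem_union, mem_filter]
    have hF : v ∈ Fr (fv n s) ↔ gt s (v : ℕ) = 2 := by
      unfold Fr fv
      simp only [mem_filter, mem_univ, true_and]
    have hH : v ∈ HR n R o i ↔ gt R (o + n * n + i * n + v) % 2 = 1 := by
      unfold HR
      simp only [mem_filter, mem_univ, true_and]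
    have hwF : v ∈ ST n w → gt s (v : ℕ) = 2 ∧ (v : ℕ) < j := by
      intro h
      have h2 := hw h
      unfold lo at h2
      rw [mem_filter] at h2
      exact ⟨hF.1 h2.1, h2.2⟩
    rw [hF, hH]
    by_cases h : gt s (v : ℕ) = 2
    · rw [if_pos h, Q1c_mod1]
      by_cases hj : (v : ℕ) < j
      · rw [if_pos hj]
        have hb : ((bit w v : ℕ) : ℤ) % 2 = 1 ↔ v ∈ ST n w := by
          unfold SN.ST
          simp only [mem_filter, mem_univ, true_and]
          unfold bit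
          omega
        rw [Q1c_xor _ _ _ hb]
        have hj' : ¬ j ≤ (v : ℕ) := by omega
        simp only [h, hj', mem_univ, true_and, false_and, and_true, or_false, and_false]
      · rw [if_neg hj]
        have hb : (∑ u ∈ range n, gt R (o + v * n + u) * (bit w u : ℤ)) % 2 = 1 ↔
            (ST n w ∩ AR n R o v).card % 2 = 1 := by
          have h3 := Q1c_card (n := n) w (fun u => gt R (o + v * n + u))
          unfold Int.ModEq at h3
          rw [← h3]
          unfold AR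
          omega
        rw [Q1c_xor _ _ _ hb]
        have hv : v ∉ ST n w := fun h4 => hj (hwF h4).2
        have hj' : j ≤ (v : ℕ) := by omega
        simp only [h, hj', hv, mem_univ, true_and, false_or, and_true]
    · rw [if_neg h]
      have hv : v ∉ ST n w := fun h4 => h (hwF h4).1
      simp only [h, hv, mem_univ, true_and, false_and, and_false, or_false, zero_ne_one]
  · intro v
    split_ifs
    · exact Q1c_mod _
    · exact Q1c_mod _
    · exact Or.inl rfl

end Pool.Agent.MPa9445a.GL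
end

section

/-! The running time of the search for the budget of a pair. -/

set_option autoImplicit false

open Finset

namespace Pool.Agent.MPa9445a.GL

open Pool.Agent.MPa9445a.BE (Ty Env vs one Bd NL DL tb flt gt bit Phi vec code lin argmax Bd.const
  Bd.add Bd.mul Bd.le Bd.up Bd.var Bd.self)
open Pool.Agent.MPa9445a.GD
open Pool.Agent.MPa9445a.SN (kb)

/-- A family of procedures. -/
abbrev Pf : Type := ℕ → List ℤ → List ℤ → Pc

/-- The procedures run in time `poly * 2 ^ b`. -/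
def HE (E : Pf) : Prop :=
  ∀ (A : Type) (N : A → ℕ) (D : A → Prop) (Γ : List Ty) (ρ : A → Env Γ) (n : A → ℕ)
    (M R s : A → List ℤ) (p : A → ℤ) (b : A → ℕ), PN N D ρ n → Bd N D n → PA N D ρ M →
    PA N D ρ R → PA N D ρ s → PI N D ρ p → PN N D ρ b → Bd N D b →
    Cp N D ρ (fun _ a => (2 : ℝ) ^ b a) .arr (fun a => E (n a) (M a) (R a) (s a) (p a) (b a))

/-- The answers have at most `1 + 2 ^ b` entries. -/
def HL (E : Pf) : Prop := ∀ n M R s p b, (E n M R s p b).length ≤ 1 + 2 ^ b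

/-- The weight of the search. -/
noncomputable def sjw (z : List ℤ) (c : ℕ) : ℝ := if z.length = 0 then (c : ℝ) + 1 else 2 ^ (gt z 0).toNat

theorem one_le_sjw (z : List ℤ) (c : ℕ) : 1 ≤ sjw z c := by
  unfold sjw
  have h1 : (0 : ℝ) ≤ (c : ℝ) := Nat.cast_nonneg _
  split_ifs
  · linarith
  · exact one_le_pow₀ (by norm_num)

/-- The active passes are not more expensive than the result. -/
theorem pass_le (E : Pc) (n : ℕ) (l : List ℤ) (a : ℤ) (r : List ℤ) (b : ℤ) (c j : ℕ)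
    (h : ¬ ((sjs E l a r b c j).length ≠ 0 ∨ c < 2 ^ j)) :
    (2 : ℝ) ^ j ≤ sjw (sj E n l a r b c) c := by
  rw [not_or, not_not, not_lt] at h
  obtain ⟨h1, h2⟩ := h
  rcases sj_spec E n l a r b c with ⟨h3, _⟩ | ⟨g, _, h3, h4, h5, _⟩
  · rw [h3]
    have h6 : ((2 ^ j : ℕ) : ℝ) ≤ (c : ℝ) := by exact_mod_cast h2
    simp only [sjw, List.length_nil, if_true]
    push_cast at h6
    linarith
  · rw [h3]
    have h6 : j ≤ g := by
      by_contra hj
      rw [not_le] at hj
      rcases sjs_spec E l a r b c j with ⟨_, h7⟩ | ⟨g', _, h7, _⟩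
      · exact h7 g hj h4 h5
      · rw [h7] at h1
        simp at h1
    have h7 : (gt [(g : ℤ)] 0).toNat = g := rfl
    simp only [sjw, List.length_cons, List.length_nil, zero_add, one_ne_zero, if_false]
    rw [h7]
    exact pow_le_pow_right₀ (by norm_num) h6

variable {A : Type} {N : A → ℕ} {D : A → Prop} {Γ : List Ty} {ρ : A → Env Γ}

private theorem W1_vs (E : Pc) (l : List ℤ) (a : ℤ) (r : List ℤ) (b : ℤ) (c j m X : ℕ)
    (hj : j ≤ m) (hm : BE.sz (m : ℤ) ≤ X) :
    vs (t := .arr) (sjs E l a r b c j) ≤ X + 1 := by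
  change BE.asz _ + Nat.size _ ≤ _
  rcases sjs_spec E l a r b c j with ⟨h, _⟩ | ⟨g, hg, h, _⟩
  · rw [h]
    simp [BE.asz]
  · rw [h]
    have h1 : BE.sz (g : ℤ) ≤ BE.sz (m : ℤ) := by
      apply BE.sz_mono
      rw [Nat.abs_cast, Nat.abs_cast]
      exact_mod_cast (by omega : g ≤ m)
    have h2 : BE.asz [(g : ℤ)] ≤ BE.sz (g : ℤ) := asz_le fun x hx => by
      rw [List.mem_singleton.1 hx]
    have h3 : Nat.size ([(g : ℤ)] : List ℤ).length ≤ 1 := by
      simp
    omega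

theorem c_sj {E : Pf} (hE : HE E) {n c : A → ℕ} {M R l r : A → List ℤ} {x y : A → ℤ}
    (hn : PN N D ρ n) (bn : Bd N D n) (hM : PA N D ρ M) (hR : PA N D ρ R) (hl : PA N D ρ l)
    (hx : PI N D ρ x) (hr : PA N D ρ r) (hy : PI N D ρ y) (hc : PN N D ρ c) :
    Cp N D ρ (fun _ a => sjw (sj (E (n a) (M a) (R a)) (n a) (l a) (x a) (r a) (y a) (c a)) (c a))
      .arr (fun a => sj (E (n a) (M a) (R a)) (n a) (l a) (x a) (r a) (y a) (c a)) := by
  have hk : PN N D ρ (fun a => 2 * n a + 1) := PN.add (PN.mul (PN.const 2) hn) (PN.const 1)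
  have bk : Bd N D (fun a => 2 * n a + 1) := ((Bd.const 2).mul bn).add (Bd.const 1)
  have h := Cp.iter (k := fun a => 2 * n a + 1)
    (s := fun a j => sjs (E (n a) (M a) (R a)) (l a) (x a) (r a) (y a) (c a) j)
    (w := fun _ p => if (sjs (E (n p.1) (M p.1) (R p.1)) (l p.1) (x p.1) (r p.1) (y p.1) (c p.1)
      p.2).length ≠ 0 ∨ c p.1 < 2 ^ p.2 then 1 else 2 ^ p.2) (w0 := one) hk
    (PA.nil.congr fun a _ => rfl)
    (by
      obtain ⟨m, hm⟩ := PN.szk hk
      refine ⟨m + 1, fun a ha j hj => ?_⟩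
      refine (W1_vs _ _ _ _ _ _ j _ _ hj.le (hm a ha)).trans ?_
      have h1 : 1 ≤ (N a + 2) ^ m := Nat.one_le_pow _ _ (by omega)
      rw [pow_succ]
      nlinarith)
    fun Γ1 ρ1 up hj hs => by
      have bj : Bd (NL N) (DL D fun a => 2 * n a + 1) (fun p => p.2) := Bd.var bk
      have hq : GD.PB (NL N) (DL D fun a => 2 * n a + 1) ρ1 (fun p =>
          (sjs (E (n p.1) (M p.1) (R p.1)) (l p.1) (x p.1) (r p.1) (y p.1) (c p.1)
            p.2).length ≠ 0 ∨ c p.1 < 2 ^ p.2) :=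
        PB.or (PB.not (PB.eqN (PN.len hs) (PN.const 0))) (PB.ltN (up.n hc) (PN.pow2 hj bj))
      have hA := hE _ _ _ _ _ _ _ _ _ _ _ (up.n hn) (bn.up _) (up.a hM) (up.a hR) (up.a hl)
        (up.i hx) hj bj
      have hB := hE _ _ _ _ _ _ _ _ _ _ _ (up.n hn) (bn.up _) (up.a hM) (up.a hR) (up.a hr)
        (up.i hy) hj bj
      have hg : Cp (NL N) (DL D fun a => 2 * n a + 1) ρ1 (fun _ p => (2 : ℝ) ^ p.2) .arr (fun p =>
          if pok (E (n p.1) (M p.1) (R p.1) (l p.1) (x p.1) p.2)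
            (E (n p.1) (M p.1) (R p.1) (r p.1) (y p.1) p.2) p.2 then [(p.2 : ℤ)] else []) := by
        refine hA.store fun Γ2 ρ2 k2 hA' => ?_
        refine (k2 _ _ _ hB).store fun Γ3 ρ3 k3 hB' => ?_
        have hj3 := k3.n (k2.n hj)
        have h1 := Cp.iteA (c_pok (k3.a hA') hB' hj3 bj) ((PA.one hj3).dom fun a h => h.1)
          ((PA.nil (ρ := ρ3) (D := DL D fun a => 2 * n a + 1)).dom fun a h => h.1)
        refine h1.mono fun p _ τ _ => ?_
        have h2 : (1 : ℝ) ≤ (2 : ℝ) ^ p.2 := one_le_pow₀ (by norm_num)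
        simp only [one]
        split_ifs <;> exact h2
      exact (Cp.iteA hq (hs.dom fun a h => h.1) (hg.dom fun a h => h.1)).congr fun p _ =>
        (sjs_succ _ _ _ _ _ _ _).symm
  obtain ⟨m, hm⟩ := bk
  refine h.mono_poly (m + 1) fun a ha τ _ => ⟨one_le_sjw _ _, ?_⟩
  set W := sjw (sj (E (n a) (M a) (R a)) (n a) (l a) (x a) (r a) (y a) (c a)) (c a) with hW
  have hW1 : 1 ≤ W := one_le_sjw _ _
  have h1 : ∀ j ∈ range (2 * n a + 1), (if (sjs (E (n a) (M a) (R a)) (l a) (x a) (r a) (y a) (c a)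
      j).length ≠ 0 ∨ c a < 2 ^ j then (1 : ℝ) else 2 ^ j) ≤ W := by
    intro j _
    split_ifs with hj
    · exact hW1
    · exact pass_le _ _ _ _ _ _ _ _ hj
  have h2 := Finset.sum_le_card_nsmul _ _ _ h1
  rw [Finset.card_range, nsmul_eq_mul] at h2
  have h3 : (((2 * n a + 1 : ℕ) : ℝ)) ≤ ((N a : ℝ) + 2) ^ m := by exact_mod_cast hm a ha
  have h4 : (1 : ℝ) ≤ ((N a : ℝ) + 2) ^ m := one_le_pow₀ (by
    have : (0 : ℝ) ≤ (N a : ℝ) := Nat.cast_nonneg _
    linarith)
  have h5 : (0 : ℝ) ≤ (N a : ℝ) := Nat.cast_nonneg _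
  have h6 := mul_le_mul_of_nonneg_right h3 (zero_le_one.trans hW1)
  have h7 := mul_le_mul_of_nonneg_right h4 (zero_le_one.trans hW1)
  have h8 : 0 ≤ (N a : ℝ) * (((N a : ℝ) + 2) ^ m * W) := by positivity
  rw [pow_succ]
  simp only [one]
  nlinarith

end Pool.Agent.MPa9445a.GL
end

section

/-! The running time of the computation of the remaining budget. -/

set_option autoImplicit false

open Finset

namespace Pool.Agent.MPa9445a.GL

open Pool.Agent.MPa9445a.BE (Ty Env vs one Bd NL DL tb flt gt bit Phi vec code lin argmax Bd.const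
  Bd.add Bd.mul Bd.le Bd.up Bd.var Bd.self)
open Pool.Agent.MPa9445a.GD
open Pool.Agent.MPa9445a.SN (kb)

/-- The parameters of the procedures. -/
structure Pm where
  n : ℕ
  M : List ℤ
  R : List ℤ
  o : ℕ
  s : List ℤ
  r : List ℤ
  j : ℕ
  q : ℤ
  p : ℤ
  b : ℕ
  K : ℕ

/-- The parameters are computed in polynomial time. -/
structure PP {A : Type} (N : A → ℕ) (D : A → Prop) {Γ : List Ty} (ρ : A → Env Γ) (x : A → Pm) :
    Prop where
  n : PN N D ρ (fun a => (x a).n)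
  bn : Bd N D (fun a => (x a).n)
  M : PA N D ρ (fun a => (x a).M)
  R : PA N D ρ (fun a => (x a).R)
  o : PN N D ρ (fun a => (x a).o)
  s : PA N D ρ (fun a => (x a).s)
  r : PA N D ρ (fun a => (x a).r)
  j : PN N D ρ (fun a => (x a).j)
  q : PI N D ρ (fun a => (x a).q)
  p : PI N D ρ (fun a => (x a).p)
  b : PN N D ρ (fun a => (x a).b)
  bb : Bd N D (fun a => (x a).b)
  K : PN N D ρ (fun a => (x a).K)

section

variable {A : Type} {N : A → ℕ} {D : A → Prop} {Γ : List Ty} {ρ : A → Env Γ} {x : A → Pm}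

theorem Bd.dom' {D' : A → Prop} {f : A → ℕ} (h : Bd N D f) (hD : ∀ a, D' a → D a) : Bd N D' f := by
  obtain ⟨c, hc⟩ := h
  exact ⟨c, fun a ha => hc a (hD a ha)⟩

theorem PP.dom (h : PP N D ρ x) {D' : A → Prop} (hD : ∀ a, D' a → D a) : PP N D' ρ x :=
  ⟨Cp.dom h.n hD, Bd.dom' h.bn hD, Cp.dom h.M hD, Cp.dom h.R hD, Cp.dom h.o hD, Cp.dom h.s hD,
    Cp.dom h.r hD, Cp.dom h.j hD, Cp.dom h.q hD, Cp.dom h.p hD, Cp.dom h.b hD, Bd.dom' h.bb hD,
    Cp.dom h.K hD⟩

theorem PP.ke (h : PP N D ρ x) {Γ' : List Ty} {ρ' : A → Env Γ'} (k : Ke N D ρ ρ') :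
    PP N D ρ' x :=
  ⟨k.n h.n, h.bn, k.a h.M, k.a h.R, k.n h.o, k.a h.s, k.a h.r, k.n h.j, k.i h.q, k.i h.p, k.n h.b,
    h.bb, k.n h.K⟩

theorem PP.up (h : PP N D ρ x) {k : A → ℕ} {Γ' : List Ty} {ρ' : A × ℕ → Env Γ'}
    (u : Up N D ρ k ρ') : PP (NL N) (DL D k) ρ' (fun p => x p.1) :=
  ⟨u.n h.n, h.bn.up _, u.a h.M, u.a h.R, u.n h.o, u.a h.s, u.a h.r, u.n h.j, u.i h.q, u.i h.p,
    u.n h.b, h.bb.up _, u.n h.K⟩

end

/-- A family of sets: `F n R o s r j κ` is the code of the set number `κ`. -/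
abbrev Df : Type := ℕ → List ℤ → ℕ → List ℤ → List ℤ → ℕ → ℕ → ℕ

/-- The sets are computed in polynomial time. -/
def HF (F : Df) : Prop :=
  ∀ (A : Type) (N : A → ℕ) (D : A → Prop) (Γ : List Ty) (ρ : A → Env Γ) (x : A → Pm) (κ : A → ℕ),
    PP N D ρ x → PN N D ρ κ →
    PN N D ρ (fun a => F (x a).n (x a).R (x a).o (x a).s (x a).r (x a).j (κ a))

/-- The family of the parameters. -/
def Pm.d (F : Df) (x : Pm) : ℕ → ℕ := F x.n x.R x.o x.s x.r x.j

/-- The procedure of the parameters. -/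
def Pm.E (E : Pf) (x : Pm) : Pc := E x.n x.M x.R

/-- The remaining budget. -/
def Pm.rem (E : Pf) (F : Df) (x : Pm) (k : ℕ) : List ℤ := GL.rem (x.E E) x.n x.r (x.d F) x.q x.b k

/-- The search of the pass `y` with the limit `c`. -/
def Pm.sy1 (E : Pf) (F : Df) (x : Pm) (y c : ℕ) : List ℤ := GL.sy1 (x.E E) x.n x.r (x.d F) x.q y c

/-- The remaining budget as a number, `-1` if it is exceeded. -/
def rv (z : List ℤ) : ℝ := if z.length = 0 then -1 else (gt z 0 : ℝ)

/-- The weight of the pass `y`. -/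
noncomputable def Pm.rw (E : Pf) (F : Df) (x : Pm) (y : ℕ) : ℝ :=
  if (x.rem E F y).length = 0 ∨ ¬ inl x.n (x.q - lvv x.n (y % LL x.n)) then 1 else
    sjw (x.sy1 E F y (gt (x.rem E F y) 0).toNat) (gt (x.rem E F y) 0).toNat

theorem Pm.rem_succ (E : Pf) (F : Df) (x : Pm) (y : ℕ) : x.rem E F (y + 1) =
    if (x.rem E F y).length = 0 ∨ ¬ inl x.n (x.q - lvv x.n (y % LL x.n)) then x.rem E F y else
    if (x.sy1 E F y (gt (x.rem E F y) 0).toNat).length = 0 then [] else
      [gt (x.rem E F y) 0 - 2 ^ (gt (x.sy1 E F y (gt (x.rem E F y) 0).toNat) 0).toNat] := rfl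

/-- The state is empty or one number between `0` and `2 ^ b`. -/
theorem Pm.rem_cases (E : Pf) (F : Df) (x : Pm) (y : ℕ) : x.rem E F y = [] ∨
    ∃ c : ℕ, c ≤ 2 ^ x.b ∧ x.rem E F y = [(c : ℤ)] := by
  rcases rem_spec (x.E E) x.n x.r (x.d F) x.q x.b y with h | ⟨h1, h2, _⟩
  · exact Or.inl h
  · right
    refine ⟨2 ^ x.b - ∑ y ∈ range y, cst (x.E E) x.n x.r (x.d F) x.q x.b y, Nat.sub_le _ _, ?_⟩
    rw [Nat.cast_sub h1]
    push_cast at h2 ⊢
    exact h2

/-- The weights are bounded by the loss. -/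
theorem Pm.rw_le (E : Pf) (F : Df) (x : Pm) (y : ℕ) :
    x.rw E F y ≤ 1 + (rv (x.rem E F y) - rv (x.rem E F (y + 1))) := by
  have hs := Pm.rem_succ E F x y
  unfold Pm.rw
  by_cases hc : (x.rem E F y).length = 0 ∨ ¬ inl x.n (x.q - lvv x.n (y % LL x.n))
  · rw [if_pos hc] at hs ⊢
    rw [hs]
    linarith
  · rw [if_neg hc] at hs ⊢
    rw [not_or] at hc
    rcases Pm.rem_cases E F x y with h | ⟨c, hc1, h⟩
    · exact absurd (by rw [h]; rfl) hc.1
    · have h1 : gt (x.rem E F y) 0 = c := by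
        rw [h]
        rfl
      rw [h1, Int.toNat_natCast] at hs ⊢
      have h2 : rv (x.rem E F y) = c := by
        rw [h]
        simp [rv, gt]
      rw [h2]
      unfold sjw
      by_cases hl : (x.sy1 E F y c).length = 0
      · rw [if_pos hl] at hs ⊢
        rw [hs]
        simp [rv]
      · rw [if_neg hl] at hs ⊢
        rw [hs]
        simp [rv, gt]

theorem rv_ge (E : Pf) (F : Df) (x : Pm) (y : ℕ) : -1 ≤ rv (x.rem E F y) := by
  rcases Pm.rem_cases E F x y with h | ⟨c, _, h⟩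
  · rw [h]
    simp [rv]
  · rw [h]
    simp [rv, gt]
    have : (0 : ℝ) ≤ (c : ℝ) := Nat.cast_nonneg _
    linarith

theorem Pm.sum_rw_le (E : Pf) (F : Df) (x : Pm) (k : ℕ) :
    ∑ y ∈ range k, x.rw E F y ≤ k + 2 ^ x.b + 1 := by
  have h : ∀ k : ℕ, ∑ y ∈ range k, x.rw E F y ≤ k + (2 ^ x.b - rv (x.rem E F k)) := by
    intro k
    induction k with
    | zero =>
      have h1 : rv (x.rem E F 0) = 2 ^ x.b := by
        have h2 : x.rem E F 0 = [2 ^ x.b] := rfl
        rw [h2]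
        simp [rv, gt]
      rw [h1]
      simp
    | succ k ih =>
      rw [Finset.sum_range_succ]
      have h1 := Pm.rw_le E F x k
      push_cast
      linarith
  have h1 := h k
  have h2 := rv_ge E F x k
  linarith

variable {A : Type} {N : A → ℕ} {D : A → Prop} {Γ : List Ty} {ρ : A → Env Γ}

theorem c_sy1 {E : Pf} {F : Df} (hE : HE E) (hF : HF F) {x : A → Pm} {y c : A → ℕ}
    (hx : PP N D ρ x) (hy : PN N D ρ y) (hc : PN N D ρ c) :
    Cp N D ρ (fun _ a => sjw ((x a).sy1 E F (y a) (c a)) (c a)) .arr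
      (fun a => (x a).sy1 E F (y a) (c a)) := by
  have hL := c_LL hx.n
  have hd : PN N D ρ (fun a => (x a).d F (y a / LL (x a).n)) := hF _ _ _ _ _ _ _ hx (PN.div hy hL)
  have hv := c_lvv hx.n (PN.mod hy hL)
  exact c_sj hE hx.n hx.bn hx.M hx.R (c_laL hx.n hx.bn hx.r hd) hv (c_rhL hx.n hx.bn hx.r hd)
    (PI.sub hx.q hv) hc

/-- The remaining budget after `K * LL n` passes. -/
theorem c_rem {E : Pf} {F : Df} (hE : HE E) (hF : HF F) {x : A → Pm} (hx : PP N D ρ x) :
    Cp N D ρ (fun _ a => ((x a).K * LL (x a).n : ℕ) + (2 : ℝ) ^ (x a).b) .arr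
      (fun a => (x a).rem E F ((x a).K * LL (x a).n)) := by
  have hk : PN N D ρ (fun a => (x a).K * LL (x a).n) := PN.mul hx.K (c_LL hx.n)
  have h2b : PN N D ρ (fun a => 2 ^ (x a).b) := PN.pow2 hx.b hx.bb
  have h := Cp.iter (k := fun a => (x a).K * LL (x a).n) (s := fun a k => (x a).rem E F k)
    (w := fun _ p => (x p.1).rw E F p.2) (w0 := one) hk
    ((PA.one h2b).congr fun a _ => by
      show [((2 ^ (x a).b : ℕ) : ℤ)] = [(2 : ℤ) ^ (x a).b]
      push_cast
      rfl)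
    (by
      obtain ⟨m, hm⟩ := PN.szk h2b
      refine ⟨m + 1, fun a ha j _ => ?_⟩
      have h0 := hm a ha
      have h3 : 1 ≤ (N a + 2) ^ m := Nat.one_le_pow _ _ (by omega)
      change BE.asz _ + Nat.size _ ≤ _
      rw [pow_succ]
      rcases Pm.rem_cases E F (x a) j with h | ⟨c, hc, h⟩
      · rw [h]
        simp [BE.asz]
      · rw [h]
        have h1 : BE.sz (c : ℤ) ≤ BE.sz ((2 ^ (x a).b : ℕ) : ℤ) := by
          apply BE.sz_mono
          rw [Nat.abs_cast, Nat.abs_cast]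
          exact_mod_cast hc
        have h2 : BE.asz [(c : ℤ)] ≤ BE.sz (c : ℤ) := asz_le fun x hx => by
          rw [List.mem_singleton.1 hx]
        have h4 : Nat.size ([(c : ℤ)] : List ℤ).length ≤ 1 := by simp
        nlinarith)
    fun Γ1 ρ1 up hj hs => by
      have hx1 := hx.up up
      have hv := c_lvv hx1.n (PN.mod hj (c_LL hx1.n))
      have hq := PB.or (PB.eqN (PN.len hs) (PN.const 0)) (PB.not (c_inl hx1.n (PI.sub hx1.q hv)))
      have hc := PN.toNat (PI.get hs (PN.const 0))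
      have hg : Cp (NL N) (DL D fun a => (x a).K * LL (x a).n) ρ1
          (fun _ p => sjw ((x p.1).sy1 E F p.2 (gt ((x p.1).rem E F p.2) 0).toNat)
            (gt ((x p.1).rem E F p.2) 0).toNat) .arr
          (fun p => if ((x p.1).sy1 E F p.2 (gt ((x p.1).rem E F p.2) 0).toNat).length = 0 then []
            else [gt ((x p.1).rem E F p.2) 0 -
              2 ^ (gt ((x p.1).sy1 E F p.2 (gt ((x p.1).rem E F p.2) 0).toNat) 0).toNat]) := by
        refine (c_sy1 hE hF hx1 hj hc).store fun Γ2 ρ2 k2 hS => ?_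
        have hS0 := PN.toNat (PI.get hS (PN.const 0))
        have bS : Bd (NL N) (DL D fun a => (x a).K * LL (x a).n) (fun p =>
            (gt ((x p.1).sy1 E F p.2 (gt ((x p.1).rem E F p.2) 0).toNat) 0).toNat) := by
          refine (((Bd.const 2).mul hx.bn).up _).le fun p _ => ?_
          rcases sj_spec ((x p.1).E E) (x p.1).n (laL (x p.1).n (x p.1).r
            ((x p.1).d F (p.2 / LL (x p.1).n))) (lvv (x p.1).n (p.2 % LL (x p.1).n))
            (rhL (x p.1).n (x p.1).r ((x p.1).d F (p.2 / LL (x p.1).n)))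
            ((x p.1).q - lvv (x p.1).n (p.2 % LL (x p.1).n))
            (gt ((x p.1).rem E F p.2) 0).toNat with ⟨h, _⟩ | ⟨g, hg, h, _⟩
          · unfold Pm.sy1 GL.sy1
            rw [h]
            simp [gt]
          · unfold Pm.sy1 GL.sy1
            rw [h]
            simpa [gt] using hg
        have h2 := PN.pow2 hS0 bS
        have h3 : PI (NL N) (DL D fun a => (x a).K * LL (x a).n) ρ2 (fun p =>
            gt ((x p.1).rem E F p.2) 0 -
              2 ^ (gt ((x p.1).sy1 E F p.2 (gt ((x p.1).rem E F p.2) 0).toNat) 0).toNat) := by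
          refine (PI.sub (k2.i (PI.get hs (PN.const 0))) h2).congr fun p _ => ?_
          push_cast
          rfl
        have h4 := Cp.iteA (PB.eqN (PN.len hS) (PN.const 0))
          ((PA.nil (ρ := ρ2) (D := DL D fun a => (x a).K * LL (x a).n)).dom fun a h => h.1)
          ((PA.one h3).dom fun a h => h.1)
        refine h4.mono fun p _ τ _ => ?_
        simp only [one]
        split_ifs <;> exact one_le_sjw _ _
      exact (Cp.iteA hq (hs.dom fun a h => h.1) (hg.dom fun a h => h.1)).congr fun p _ =>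
        (Pm.rem_succ E F (x p.1) p.2).symm
  refine h.mono_poly 2 fun a ha τ _ => ?_
  have h1 : (1 : ℝ) ≤ (2 : ℝ) ^ (x a).b := one_le_pow₀ (by norm_num)
  have h2 : (0 : ℝ) ≤ (((x a).K * LL (x a).n : ℕ) : ℝ) := Nat.cast_nonneg _
  have h3 := Pm.sum_rw_le E F (x a) ((x a).K * LL (x a).n)
  have h5 : (0 : ℝ) ≤ (N a : ℝ) := Nat.cast_nonneg _
  refine ⟨by linarith, ?_⟩
  simp only [one]
  have h6 : (4 : ℝ) ≤ ((N a : ℝ) + 2) ^ 2 := by nlinarith
  have h7 := mul_le_mul_of_nonneg_right h6 (add_nonneg h2 (zero_le_one.trans h1))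
  linarith

end Pool.Agent.MPa9445a.GL
end

section

/-! The running time of the loop over the sets. -/

set_option autoImplicit false

open Finset

namespace Pool.Agent.MPa9445a.GL

open Pool.Agent.MPa9445a.BE (Ty Env vs one Bd NL DL tb flt gt bit Phi vec code lin argmax Bd.const
  Bd.add Bd.mul Bd.le Bd.up Bd.var Bd.self)
open Pool.Agent.MPa9445a.GD
open Pool.Agent.MPa9445a.SN (kb)

/-- The loop. -/
def Pm.run (E : Pf) (F : Df) (x : Pm) : List ℤ :=
  GL.run (x.E E) x.n x.M x.r x.K (x.d F) x.q x.p x.b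

/-- The vectors which are found in the pass `y`. -/
def Pm.pj (E : Pf) (F : Df) (x : Pm) (y : ℕ) : List ℤ :=
  GL.pj (x.E E) x.n x.M x.r (x.d F (y / LL x.n)) (lvv x.n (y % LL x.n)) x.q x.p x.b

/-- The cost of the pass `y`. -/
def Pm.cst (E : Pf) (F : Df) (x : Pm) (y : ℕ) : ℕ := GL.cst (x.E E) x.n x.r (x.d F) x.q x.b y

/-- The budget exponent of the pass `y`. -/
def Pm.gy (E : Pf) (F : Df) (x : Pm) (y : ℕ) : ℕ := (gt (x.sy1 E F y (2 ^ x.b)) 0).toNat

/-- The states of the children. -/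
def Pm.l1 (F : Df) (x : Pm) (y : ℕ) : List ℤ := laL x.n x.r (x.d F (y / LL x.n))

def Pm.l2 (F : Df) (x : Pm) (y : ℕ) : List ℤ := rhL x.n x.r (x.d F (y / LL x.n))

theorem Pm.ok (E : Pf) (F : Df) (x : Pm) (k : ℕ) (h : (x.rem E F k).length ≠ 0) :
    ∑ y ∈ range k, x.cst E F y ≤ 2 ^ x.b ∧
      ∀ y < k, inl x.n (x.q - lvv x.n (y % LL x.n)) →
        ∃ g ≤ 2 * x.n, x.sy1 E F y (2 ^ x.b) = [(g : ℤ)] ∧
          pok (E x.n x.M x.R (x.l1 F y) (lvv x.n (y % LL x.n)) g)
            (E x.n x.M x.R (x.l2 F y) (x.q - lvv x.n (y % LL x.n)) g) g := by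
  rcases rem_spec (x.E E) x.n x.r (x.d F) x.q x.b k with h1 | ⟨h1, _, h3⟩
  · exact absurd (by unfold Pm.rem; rw [h1]; rfl) h
  · exact ⟨h1, h3⟩

theorem Pm.gy_le (E : Pf) (F : Df) (x : Pm) (y : ℕ) : x.gy E F y ≤ 2 * x.n := by
  unfold Pm.gy Pm.sy1 GL.sy1
  rcases sj_spec (x.E E) x.n (laL x.n x.r (x.d F (y / LL x.n))) (lvv x.n (y % LL x.n))
    (rhL x.n x.r (x.d F (y / LL x.n))) (x.q - lvv x.n (y % LL x.n)) (2 ^ x.b) with
    ⟨h, _⟩ | ⟨g, hg, h, _⟩
  · rw [h]
    simp [gt]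
  · rw [h]
    simpa [gt] using hg

theorem Pm.pj_eq (E : Pf) (F : Df) (x : Pm) (y : ℕ) : x.pj E F y =
    if inl x.n (x.q - lvv x.n (y % LL x.n)) then
      jn x.n x.M (x.l1 F y) (x.l2 F y)
        (E x.n x.M x.R (x.l1 F y) (lvv x.n (y % LL x.n)) (x.gy E F y))
        (E x.n x.M x.R (x.l2 F y) (x.q - lvv x.n (y % LL x.n)) (x.gy E F y)) x.p
    else [] := rfl

theorem Pm.cst_eq (E : Pf) (F : Df) (x : Pm) (y : ℕ) : x.cst E F y =
    if inl x.n (x.q - lvv x.n (y % LL x.n)) then 2 ^ x.gy E F y else 0 := rfl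

theorem Pm.run_eq (E : Pf) (F : Df) (x : Pm) : x.run E F =
    if (x.rem E F (x.K * LL x.n)).length = 0 then [] else
      1 :: fm (x.K * LL x.n) fun y => x.pj E F y := rfl

/-- The bounds for an active pass. -/
theorem Pm.act {E : Pf} {F : Df} {x : Pm} {k y : ℕ} (h : (x.rem E F k).length ≠ 0) (hy : y < k)
    (hi : inl x.n (x.q - lvv x.n (y % LL x.n))) :
    sjw (x.sy1 E F y (2 ^ x.b)) (2 ^ x.b) = 2 ^ x.gy E F y ∧
      pok (E x.n x.M x.R (x.l1 F y) (lvv x.n (y % LL x.n)) (x.gy E F y))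
        (E x.n x.M x.R (x.l2 F y) (x.q - lvv x.n (y % LL x.n)) (x.gy E F y)) (x.gy E F y) := by
  obtain ⟨g, _, h1, h2⟩ := (Pm.ok E F x k h).2 y hy hi
  have h3 : x.gy E F y = g := by
    unfold Pm.gy
    rw [h1]
    rfl
  rw [h3]
  refine ⟨?_, h2⟩
  rw [h1]
  rfl

theorem jw_le {X Y : List ℤ} {g : ℕ} (h : pok X Y g) : jw X Y ≤ 2 ^ g + 1 := by
  unfold jw
  have h1 : (X.length - 1) * (Y.length - 1) ≤ 2 ^ g := by
    rcases h with h | h | ⟨_, _, h⟩
    · rw [h]
      simp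
    · rw [h]
      simp
    · exact h
  have h2 : (((X.length - 1) * (Y.length - 1) : ℕ) : ℝ) ≤ ((2 ^ g : ℕ) : ℝ) := by exact_mod_cast h1
  push_cast at h2 ⊢
  linarith

theorem Pm.length_pj_le {E : Pf} {F : Df} {x : Pm} {k y : ℕ} (h : (x.rem E F k).length ≠ 0)
    (hy : y < k) : (x.pj E F y).length ≤ x.cst E F y := by
  rw [Pm.pj_eq, Pm.cst_eq]
  split_ifs with hi
  · exact length_jn_pok x.n (Pm.act h hy hi).2
  · simp

variable {A : Type} {N : A → ℕ} {D : A → Prop} {Γ : List Ty} {ρ : A → Env Γ}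

/-- One pass of the second loop, the domain is restricted to the states with sufficient budget. -/
theorem c_pj {E : Pf} {F : Df} (hE : HE E) (hF : HF F) {x : A → Pm} {y : A → ℕ}
    (hx : PP N D ρ x) (hy : PN N D ρ y)
    (hr : ∀ a, D a → ((x a).rem E F ((x a).K * LL (x a).n)).length ≠ 0 ∧
      y a < (x a).K * LL (x a).n) :
    Cp N D ρ (fun _ a => 1 + ((x a).cst E F (y a) : ℝ)) .arr (fun a => (x a).pj E F (y a)) := by
  have hL := c_LL hx.n
  have hd : PN N D ρ (fun a => (x a).d F (y a / LL (x a).n)) := hF _ _ _ _ _ _ _ hx (PN.div hy hL)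
  have hv := c_lvv hx.n (PN.mod hy hL)
  have hw := PI.sub hx.q hv
  have hi := c_inl hx.n hw
  have h2b : PN N D ρ (fun a => 2 ^ (x a).b) := PN.pow2 hx.b hx.bb
  have h1 : Cp N (fun a => D a ∧ inl (x a).n ((x a).q - lvv (x a).n (y a % LL (x a).n))) ρ
      (fun _ a => (2 : ℝ) ^ (x a).gy E F (y a)) .arr
      (fun a => jn (x a).n (x a).M ((x a).l1 F (y a)) ((x a).l2 F (y a))
        (E (x a).n (x a).M (x a).R ((x a).l1 F (y a)) (lvv (x a).n (y a % LL (x a).n))
          ((x a).gy E F (y a)))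
        (E (x a).n (x a).M (x a).R ((x a).l2 F (y a)) ((x a).q - lvv (x a).n (y a % LL (x a).n))
          ((x a).gy E F (y a))) (x a).p) := by
    have hD : ∀ a, (D a ∧ inl (x a).n ((x a).q - lvv (x a).n (y a % LL (x a).n))) → D a :=
      fun a h => h.1
    have hx' := hx.dom hD
    have hS : Cp N (fun a => D a ∧ inl (x a).n ((x a).q - lvv (x a).n (y a % LL (x a).n))) ρ
        (fun _ a => (2 : ℝ) ^ (x a).gy E F (y a)) .arr
        (fun a => (x a).sy1 E F (y a) (2 ^ (x a).b)) := by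
      refine (c_sy1 hE hF hx' (Cp.dom hy hD) (Cp.dom h2b hD)).mono fun a ha τ _ => ?_
      obtain ⟨h3, h4⟩ := hr a ha.1
      exact (Pm.act h3 h4 ha.2).1.le
    refine hS.store fun Γ1 ρ1 k1 hS1 => ?_
    have hx1 := hx'.ke k1
    have hg1 : PN N (fun a => D a ∧ inl (x a).n ((x a).q - lvv (x a).n (y a % LL (x a).n))) ρ1
        (fun a => (x a).gy E F (y a)) := PN.toNat (PI.get hS1 (PN.const 0))
    have bg : Bd N (fun a => D a ∧ inl (x a).n ((x a).q - lvv (x a).n (y a % LL (x a).n)))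
        (fun a => (x a).gy E F (y a)) := ((Bd.const 2).mul hx'.bn).le fun a _ => Pm.gy_le _ _ _ _
    have hl1 := c_laL hx1.n hx1.bn hx1.r (k1.n (Cp.dom hd hD))
    have hl2 := c_rhL hx1.n hx1.bn hx1.r (k1.n (Cp.dom hd hD))
    have hv1 := k1.i (Cp.dom hv hD)
    have hw1 := k1.i (Cp.dom hw hD)
    have hA := hE _ _ _ _ _ _ _ _ _ _ _ hx1.n hx1.bn hx1.M hx1.R hl1 hv1 hg1 bg
    have hB := hE _ _ _ _ _ _ _ _ _ _ _ hx1.n hx1.bn hx1.M hx1.R hl2 hw1 hg1 bg
    refine hA.store fun Γ2 ρ2 k2 hA2 => ?_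
    refine (k2 _ _ _ hB).store fun Γ3 ρ3 k3 hB3 => ?_
    have hx3 := (hx1.ke k2).ke k3
    have hJ := c_jn hx3.n hx3.bn hx3.M (k3.a (k2.a hl1)) (k3.a (k2.a hl2)) (k3.a hA2) hB3 hx3.p
    refine hJ.mono_poly 1 fun a ha τ _ => ?_
    obtain ⟨h3, h4⟩ := hr a ha.1
    have h5 := jw_le (Pm.act h3 h4 ha.2).2
    have h6 : (1 : ℝ) ≤ (2 : ℝ) ^ (x a).gy E F (y a) := one_le_pow₀ (by norm_num)
    have h7 : (0 : ℝ) ≤ (N a : ℝ) := Nat.cast_nonneg _
    refine ⟨h6, h5.trans ?_⟩
    nlinarith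
  refine ((Cp.iteA hi h1 ((PA.nil (ρ := ρ) (D := D)).dom fun a h => h.1)).mono
    fun a _ τ _ => ?_).congr fun a _ => (Pm.pj_eq E F (x a) (y a)).symm
  rw [Pm.cst_eq]
  simp only [one]
  split_ifs
  · push_cast
    linarith
  · simp

theorem c_run {E : Pf} {F : Df} (hE : HE E) (hF : HF F) {x : A → Pm} (hx : PP N D ρ x) :
    Cp N D ρ (fun _ a => ((x a).K * LL (x a).n : ℕ) + (2 : ℝ) ^ (x a).b) .arr
      (fun a => (x a).run E F) := by
  refine (c_rem hE hF hx).store fun Γ1 ρ1 k1 hR => ?_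
  have hx1 := hx.ke k1
  have hq := PB.eqN (PN.len hR) (PN.const 0)
  have h1 : Cp N (fun a => D a ∧ ¬ ((x a).rem E F ((x a).K * LL (x a).n)).length = 0) ρ1
      (fun _ a => ((x a).K * LL (x a).n : ℕ) + (2 : ℝ) ^ (x a).b) .arr
      (fun a => 1 :: fm ((x a).K * LL (x a).n) fun y => (x a).pj E F y) := by
    have hD : ∀ a, (D a ∧ ¬ ((x a).rem E F ((x a).K * LL (x a).n)).length = 0) → D a :=
      fun a h => h.1
    have hx' := hx1.dom hD
    have hk := PN.mul hx'.K (c_LL hx'.n)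
    have h2 := Cp.cat (k := fun a => (x a).K * LL (x a).n)
      (w := fun _ p => 1 + ((x p.1).cst E F p.2 : ℝ)) (f := fun a y => (x a).pj E F y) hk
      (fun Γ2 ρ2 up hj => c_pj hE hF (hx'.up up) hj fun p hp => ⟨hp.1.2, hp.2⟩)
      ⟨0, fun a ha i hi τ _ => by
        have h3 := Pm.length_pj_le ha.2 hi
        have h4 : (((x a).pj E F i).length : ℝ) ≤ ((x a).cst E F i : ℝ) := by exact_mod_cast h3
        rw [pow_zero, one_mul]
        linarith⟩
    have h5 : ∀ a, (D a ∧ ¬ ((x a).rem E F ((x a).K * LL (x a).n)).length = 0) →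
        (∑ y ∈ range ((x a).K * LL (x a).n), ((x a).cst E F y : ℝ)) ≤ (2 : ℝ) ^ (x a).b := by
      intro a ha
      have h6 := (Pm.ok E F (x a) _ ha.2).1
      have h7 : ((∑ y ∈ range ((x a).K * LL (x a).n), (x a).cst E F y : ℕ) : ℝ) ≤
          ((2 ^ (x a).b : ℕ) : ℝ) := by exact_mod_cast h6
      push_cast at h7
      exact h7
    have h8 : Cp N (fun a => D a ∧ ¬ ((x a).rem E F ((x a).K * LL (x a).n)).length = 0) ρ1
        (fun _ a => ((x a).K * LL (x a).n : ℕ) + (2 : ℝ) ^ (x a).b) .arr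
        (fun a => fm ((x a).K * LL (x a).n) fun y => (x a).pj E F y) := by
      refine h2.mono_poly 1 fun a ha τ _ => ?_
      have h9 := h5 a ha
      have h10 : (1 : ℝ) ≤ (2 : ℝ) ^ (x a).b := one_le_pow₀ (by norm_num)
      have h11 : (0 : ℝ) ≤ (((x a).K * LL (x a).n : ℕ) : ℝ) := Nat.cast_nonneg _
      have h12 : (0 : ℝ) ≤ (N a : ℝ) := Nat.cast_nonneg _
      refine ⟨by linarith, ?_⟩
      show 1 + ∑ y ∈ range ((x a).K * LL (x a).n), (1 + ((x a).cst E F y : ℝ)) ≤ _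
      rw [Finset.sum_add_distrib, Finset.sum_const, Finset.card_range, nsmul_eq_mul, mul_one,
        pow_one]
      nlinarith
    refine Cp.cons (PI.const 1) h8 ⟨0, fun a ha τ _ => ?_⟩
    have h9 := length_run_le (((x a).E E)) (x a).n (x a).r ((x a).d F) (x a).q (x a).b (x a).M
      (x a).K (x a).p
    have h10 : (x a).run E F = 1 :: fm ((x a).K * LL (x a).n) fun y => (x a).pj E F y := by
      rw [Pm.run_eq, if_neg ha.2]
    have h11 : ((x a).run E F).length ≤ 1 + 2 ^ (x a).b := h9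
    rw [h10, List.length_cons] at h11
    have h12 : (fm ((x a).K * LL (x a).n) fun y => (x a).pj E F y).length ≤ 2 ^ (x a).b := by omega
    have h13 : ((fm ((x a).K * LL (x a).n) fun y => (x a).pj E F y).length : ℝ) ≤
        ((2 ^ (x a).b : ℕ) : ℝ) := by exact_mod_cast h12
    have h14 : (0 : ℝ) ≤ (((x a).K * LL (x a).n : ℕ) : ℝ) := Nat.cast_nonneg _
    rw [pow_zero, one_mul]
    push_cast at h13 h14 ⊢
    linarith
  refine ((Cp.iteA hq ((PA.nil (ρ := ρ1) (D := D)).dom fun a h => h.1) h1).mono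
    fun a _ τ _ => ?_).congr fun a _ => (Pm.run_eq E F (x a)).symm
  have h10 : (1 : ℝ) ≤ (2 : ℝ) ^ (x a).b := one_le_pow₀ (by norm_num)
  have h11 : (0 : ℝ) ≤ (((x a).K * LL (x a).n : ℕ) : ℝ) := Nat.cast_nonneg _
  simp only [one]
  split_ifs
  · linarith
  · exact le_rfl

end Pool.Agent.MPa9445a.GL
end
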