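import Pool.Agent.Lib.MP_a9445a_lc.Mg.G128
import Pool.Agent.Lib.MP_a9445a_lc.Mg.G127

section

/-! The running time of the procedures: induction over the depth. -/

set_option autoImplicit false

open Finset

namespace Pool.Agent.MPa9445a.GL

open Pool.Agent.MPa9445a.BE (Ty Env vs one Bd NL DL tb flt gt bit Phi vec code lin argmax Bd.const
  Bd.add Bd.mul Bd.le Bd.up Bd.var Bd.self)
open Pool.Agent.MPa9445a.GD
open Pool.Agent.MPa9445a.SN (kb)

section

variable {A : Type} {N : A → ℕ} {D : A → Prop} {Γ : List Ty} {ρ : A → Env Γ}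

private theorem W6_one (b : ℕ) : (1 : ℝ) ≤ (2 : ℝ) ^ b := one_le_pow₀ (by norm_num)

theorem c_atx {E : Pf} (hE : HE E) (k : ℕ) {n b x : A → ℕ} {M R s : A → List ℤ} {p : A → ℤ}
    (hn : PN N D ρ n) (bn : Bd N D n) (hM : PA N D ρ M) (hR : PA N D ρ R) (hs : PA N D ρ s)
    (hp : PI N D ρ p) (hb : PN N D ρ b) (bb : Bd N D b) (hx : PN N D ρ x) :
    Cp N D ρ (fun _ a => (2 : ℝ) ^ b a) .arr
      (fun a => atx (E (n a) (M a) (R a)) (n a) (M a) (R a) k (s a) (p a) (b a) (x a)) := by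
  exact c_att hE (x := fun a => ⟨n a, M a, R a, ofs (n a) k (min (dg (n a) (x a) 0) (Zn (n a) - 1)),
    s a, p a, b a, lvv (n a) (dg (n a) (x a) 1), dg (n a) (x a) 2, min (dg (n a) (x a) 3) (n a),
    dg (n a) (x a) 4, dg (n a) (x a) 5⟩)
    ⟨hn, bn, hM, hR, c_ofs k hn (c_min (c_dg hn hx 0) (PN.sub (c_Zn hn) (PN.const 1))), hs, hp, hb,
      bb, c_lvv hn (c_dg hn hx 1), c_dg hn hx 2, c_min (c_dg hn hx 3) hn, c_dg hn hx 4,
      bd_dg bn 4, c_dg hn hx 5, bd_dg bn 5⟩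

theorem length_atx (E : Pf) (n : ℕ) (M R : List ℤ) (k : ℕ) (s : List ℤ) (p : ℤ) (b x : ℕ) :
    (atx (E n M R) n M R k s p b x).length ≤ 1 + 2 ^ b :=
  Qm.length_att E ⟨n, M, R, ofs n k (min (dg n x 0) (Zn n - 1)), s, p, b, lvv n (dg n x 1),
    dg n x 2, min (dg n x 3) n, dg n x 4, dg n x 5⟩

theorem length_br_le (n : ℕ) (M s : List ℤ) (p : ℤ) : (br n M s p).length ≤ 2 ^ rk s n := by
  unfold br
  rw [length_tb]
  exact length_flt_le _ _

/-- The brute force answer. -/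
theorem c_bf {n b : A → ℕ} {M s : A → List ℤ} {p : A → ℤ} (hn : PN N D ρ n) (bn : Bd N D n)
    (hM : PA N D ρ M) (hs : PA N D ρ s) (hp : PI N D ρ p) (h : ∀ a, D a → rk (s a) (n a) ≤ b a) :
    Cp N D ρ (fun _ a => (2 : ℝ) ^ b a) .arr (fun a => 1 :: br (n a) (M a) (s a) (p a)) := by
  have h1 : ∀ a, D a → (2 : ℝ) ^ rk (s a) (n a) ≤ (2 : ℝ) ^ b a := fun a ha =>
    pow_le_pow_right₀ (by norm_num) (h a ha)
  refine Cp.cons (PI.const 1) ((c_br hn bn hM hs hp).mono fun a ha τ _ => h1 a ha)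
    ⟨0, fun a ha τ _ => ?_⟩
  have h2 : ((br (n a) (M a) (s a) (p a)).length : ℝ) ≤ ((2 ^ rk (s a) (n a) : ℕ) : ℝ) := by
    exact_mod_cast length_br_le (n a) (M a) (s a) (p a)
  push_cast at h2
  rw [pow_zero, one_mul]
  exact h2.trans (h1 a ha)

end

/-- The procedures are run by a program in time `poly * 2 ^ b`. -/
theorem c_nxt {E : Pf} (hE : HE E) (k : ℕ) : HE (fun n M R => nxt (E n M R) n M R k) := by
  intro A N D Γ ρ n M R s p b hn bn hM hR hs hp hb bb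
  have hrk := c_rk hs hn bn
  have hq1 := PB.leN hrk hb
  have hq2 := PB.ne (PI.mod (PI.add hp (PI.Phi hn bn hM (c_sv hn bn hs (PN.const 0))))
    (PI.const 2)) (PI.const 0)
  have hPB6 : PN N D ρ (fun a => PB (n a) ^ 6) := PN.pow (c_PB hn) 6
  have bPB6 : Bd N D (fun a => PB (n a) ^ 6) := by
    have h := bd_PB bn
    refine Bd.le ((h.mul h).mul ((h.mul h).mul (h.mul h))) fun a _ => le_of_eq ?_
    ring
  have hAM : Cp N D ρ (fun _ a => (2 : ℝ) ^ b a) .int (fun a =>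
      (argmax (PB (n a) ^ 6) fun x => if (atx (E (n a) (M a) (R a)) (n a) (M a) (R a) k (s a) (p a)
        (b a) x.toNat).length = 0 then 0 else 1 : ℕ)) := by
    have h := Cp.amax (k := fun a => PB (n a) ^ 6) (w := fun _ a => (2 : ℝ) ^ b a)
      (f := fun a i => if (atx (E (n a) (M a) (R a)) (n a) (M a) (R a) k (s a) (p a) (b a)
        i).length = 0 then 0 else 1) hPB6 (fun a _ τ _ => W6_one _) fun Γ1 ρ1 up hv => by
          have h1 := c_atx hE k (up.n hn) (bn.up _) (up.a hM) (up.a hR) (up.a hs) (up.i hp)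
            (up.n hb) (bb.up _) hv
          refine h1.store fun Γ2 ρ2 k2 hT => ?_
          exact (Cp.ite (PB.eqN (PN.len hT) (PN.const 0)) (PI.const 0) (PI.const 1)).lift
            fun a _ τ _ => W6_one _
    obtain ⟨m, hm⟩ := bPB6
    refine h.mono_poly (m + 1) fun a ha τ _ => ⟨W6_one _, ?_⟩
    have h3 := W6_one (b a)
    have h4 : (0 : ℝ) ≤ N a := Nat.cast_nonneg _
    have h5 : (((PB (n a) ^ 6 : ℕ)) : ℝ) ≤ ((N a : ℝ) + 2) ^ m := by exact_mod_cast hm a ha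
    have h8 : (1 : ℝ) ≤ ((N a : ℝ) + 2) ^ m := one_le_pow₀ (by linarith)
    rw [pow_succ ((N a : ℝ) + 2) m]
    refine mul_le_mul_of_nonneg_right ?_ (zero_le_one.trans h3)
    nlinarith
  have hX : Cp N D ρ (fun _ a => (2 : ℝ) ^ b a) .arr (fun a =>
      atx (E (n a) (M a) (R a)) (n a) (M a) (R a) k (s a) (p a) (b a)
        (argmax (PB (n a) ^ 6) fun x => if (atx (E (n a) (M a) (R a)) (n a) (M a) (R a) k (s a)
          (p a) (b a) x.toNat).length = 0 then 0 else 1)) := by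
    refine hAM.store fun Γ1 ρ1 k1 hA => ?_
    exact c_atx hE k (k1.n hn) bn (k1.a hM) (k1.a hR) (k1.a hs) (k1.i hp) (k1.n hb) bb hA
  have hD1 : ∀ a, (D a ∧ rk (s a) (n a) ≤ b a) → D a := fun a h => h.1
  have hD2 : ∀ a, (D a ∧ ¬ rk (s a) (n a) ≤ b a) → D a := fun a h => h.1
  have h1 := c_bf (N := N) (D := fun a => D a ∧ rk (s a) (n a) ≤ b a) (ρ := ρ) (b := b)
    (Cp.dom hn hD1) (Bd.dom' bn hD1) (Cp.dom hM hD1) (Cp.dom hs hD1) (Cp.dom hp hD1)
    fun a h => h.2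
  have h2 : Cp N D ρ (fun _ a => (2 : ℝ) ^ b a) .arr (fun a =>
      if (p a + Phi (n a) (M a) (sv (n a) (s a) 0)) % 2 ≠ 0 then [1] else
      atx (E (n a) (M a) (R a)) (n a) (M a) (R a) k (s a) (p a) (b a)
        (argmax (PB (n a) ^ 6) fun x => if (atx (E (n a) (M a) (R a)) (n a) (M a) (R a) k (s a)
          (p a) (b a) x.toNat).length = 0 then 0 else 1)) := by
    refine (Cp.iteA hq2 (Cp.dom ((PA.one (PI.const 1)).lift (w := fun _ a => (2 : ℝ) ^ b a)
      fun a _ τ _ => W6_one _) fun a h => h.1) (Cp.dom hX fun a h => h.1)).mono fun a _ τ _ => ?_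
    split_ifs <;> exact le_rfl
  refine ((Cp.iteA hq1 h1 (Cp.dom h2 fun a h => h.1)).mono fun a _ τ _ => ?_).congr fun a _ => rfl
  split_ifs <;> exact le_rfl

/-- The procedures of every depth. -/
theorem c_EE (k : ℕ) : HE (fun n M R => EE n M R k) := by
  induction k with
  | zero =>
    intro A N D Γ ρ n M R s p b hn bn hM hR hs hp hb bb
    have hrk := c_rk hs hn bn
    have hq1 := PB.leN hrk hb
    have hD1 : ∀ a, (D a ∧ rk (s a) (n a) ≤ b a) → D a := fun a h => h.1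
    have h1 := c_bf (N := N) (D := fun a => D a ∧ rk (s a) (n a) ≤ b a) (ρ := ρ) (b := b)
      (Cp.dom hn hD1) (Bd.dom' bn hD1) (Cp.dom hM hD1) (Cp.dom hs hD1) (Cp.dom hp hD1)
      fun a h => h.2
    have h0 : Cp N D ρ (fun _ a => (2 : ℝ) ^ b a) .arr (fun _ => []) :=
      PA.nil.lift fun _ _ _ _ => W6_one _
    refine ((Cp.iteA hq1 h1 (Cp.dom h0 fun a h => h.1)).mono fun a _ τ _ => ?_).congr
      fun a _ => rfl
    split_ifs <;> exact le_rfl
  | succ k ih => exact c_nxt ih k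

/-- The answers have at most `1 + 2 ^ b` entries. -/
theorem length_EE_le (n : ℕ) (M R : List ℤ) (k : ℕ) (s : List ℤ) (p : ℤ) (b : ℕ) :
    (EE n M R k s p b).length ≤ 1 + 2 ^ b := by
  have h1 : rk s n ≤ b → (1 :: br n M s p).length ≤ 1 + 2 ^ b := by
    intro h
    rw [List.length_cons, add_comm]
    exact Nat.add_le_add_left ((length_br_le n M s p).trans
      (Nat.pow_le_pow_right (by norm_num) h)) 1
  cases k with
  | zero =>
    show (if rk s n ≤ b then 1 :: br n M s p else []).length ≤ _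
    split_ifs with h
    · exact h1 h
    · simp
  | succ k =>
    show (if rk s n ≤ b then 1 :: br n M s p else
      if (p + Phi n M (sv n s 0)) % 2 ≠ 0 then [1] else
      atx (EE n M R k) n M R k s p b _).length ≤ _
    split_ifs with h h'
    · exact h1 h
    · simp
    · exact length_atx (fun n M R => EE n M R k) n M R k s p b _

end Pool.Agent.MPa9445a.GL
end

section

/-! The running time of the top level. -/

set_option autoImplicit false

open Finset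

namespace Pool.Agent.MPa9445a.GL

open Pool.Agent.MPa9445a.BE (Ty Env vs one Bd NL DL tb flt gt bit Phi vec code lin argmax Bd.const
  Bd.add Bd.mul Bd.le Bd.up Bd.var Bd.self)
open Pool.Agent.MPa9445a.GD
open Pool.Agent.MPa9445a.SN (kb)

variable {A : Type} {N : A → ℕ} {D : A → Prop} {Γ : List Ty} {ρ : A → Env Γ}

private theorem W7_one (b : ℕ) : (1 : ℝ) ≤ (2 : ℝ) ^ b := one_le_pow₀ (by norm_num)

theorem PB_dom {D' : A → Prop} {q : A → Prop} (h : GD.PB N D ρ q) (hD : ∀ a, D' a → D a) :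
    GD.PB N D' ρ q := by
  obtain ⟨f, hf, hq⟩ := h
  exact ⟨f, Cp.dom hf hD, fun a ha => hq a (hD a ha)⟩

theorem c_full {n : A → ℕ} (hn : PN N D ρ n) (bn : Bd N D n) : PA N D ρ (fun a => full (n a)) :=
  PA.tab hn bn fun _ _ _ _ => PI.const 2

/-- The index of the first level which is not certified to be empty. -/
theorem c_tx (k : ℕ) {n b : A → ℕ} {M R : A → List ℤ} (hn : PN N D ρ n) (bn : Bd N D n)
    (hM : PA N D ρ M) (hR : PA N D ρ R) (hb : PN N D ρ b) (bb : Bd N D b) :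
    Cp N D ρ (fun _ a => (2 : ℝ) ^ b a) .int (fun a => (tx (n a) (M a) (R a) k (b a) : ℤ)) := by
  have h := Cp.amax (k := fun a => LL (n a)) (w := fun _ a => (2 : ℝ) ^ b a)
    (f := fun a i => if (EE (n a) (M a) (R a) (k + 1) (full (n a)) ((n a : ℤ) ^ 4 - (i : ℕ))
      (b a)).length ≠ 1 then 1 else 0) (c_LL hn) (fun a _ τ _ => W7_one _) fun Γ1 ρ1 up hv => by
        have h1 := c_EE (k + 1) _ _ _ _ ρ1 _ _ _ _ _ _ (up.n hn) (bn.up _) (up.a hM) (up.a hR)
          (c_full (up.n hn) (bn.up _)) (PI.sub (PI.pow (up.n hn) 4) hv) (up.n hb) (bb.up _)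
        refine h1.store fun Γ2 ρ2 k2 hT => ?_
        exact (Cp.ite (PB.not (PB.eqN (PN.len hT) (PN.const 1))) (PI.const 1) (PI.const 0)).lift
          fun a _ τ _ => W7_one _
  obtain ⟨m, hm⟩ := bd_LL bn
  refine h.mono_poly (m + 1) fun a ha τ _ => ⟨W7_one _, ?_⟩
  have h3 := W7_one (b a)
  have h4 : (0 : ℝ) ≤ N a := Nat.cast_nonneg _
  have h5 : (LL (n a) : ℝ) ≤ ((N a : ℝ) + 2) ^ m := by exact_mod_cast hm a ha
  have h8 : (1 : ℝ) ≤ ((N a : ℝ) + 2) ^ m := one_le_pow₀ (by linarith)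
  rw [pow_succ ((N a : ℝ) + 2) m]
  refine mul_le_mul_of_nonneg_right ?_ (zero_le_one.trans h3)
  nlinarith

/-- The weight of the top level. -/
noncomputable def tw (n : ℕ) (M R : List ℤ) (k b : ℕ) : ℝ :=
  2 ^ b + if slow n M R k b then 2 ^ n else 0

theorem two_pow_le_tw (n : ℕ) (M R : List ℤ) (k b : ℕ) : (2 : ℝ) ^ b ≤ tw n M R k b := by
  unfold tw
  have h : (0 : ℝ) ≤ if slow n M R k b then (2 : ℝ) ^ n else 0 := by
    split_ifs <;> positivity
  linarith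

theorem one_le_tw (n : ℕ) (M R : List ℤ) (k b : ℕ) : 1 ≤ tw n M R k b :=
  (W7_one b).trans (two_pow_le_tw n M R k b)

/-- The running time of the whole program. -/
theorem c_out (k : ℕ) {n b : A → ℕ} {M R : A → List ℤ} (hn : PN N D ρ n) (bn : Bd N D n)
    (hM : PA N D ρ M) (hR : PA N D ρ R) (hb : PN N D ρ b) (bb : Bd N D b) :
    Cp N D ρ (fun _ a => tw (n a) (M a) (R a) k (b a)) .arr
      (fun a => out (n a) (M a) (R a) k (b a)) := by
  have hW : ∀ a, D a → ∀ τ : ℝ, 2 ≤ τ →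
      (2 : ℝ) ^ b a ≤ tw (n a) (M a) (R a) k (b a) := fun a _ τ _ => two_pow_le_tw _ _ _ _ _
  refine ((c_tx k hn bn hM hR hb bb).mono hW).store fun Γ1 ρ1 k1 htx => ?_
  have hn1 := k1.n hn
  have hM1 := k1.a hM
  have hR1 := k1.a hR
  have hb1 := k1.n hb
  have htp : PI N D ρ1 (fun a => tp (n a) (M a) (R a) k (b a)) := PI.sub (PI.pow hn1 4) htx
  have hA := c_EE (k + 1) _ _ _ _ ρ1 _ _ _ _ _ _ hn1 bn hM1 hR1 (c_full hn1 bn) htp hb1 bb
  refine (hA.mono hW).store fun Γ2 ρ2 k2 hA2 => ?_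
  have hA3 : PA N D ρ2 (fun a => tA (n a) (M a) (R a) k (b a)) := hA2
  have hn2 := k2.n hn1
  have hM2 := k2.a hM1
  have hR2 := k2.a hR1
  have hb2 := k2.n hb1
  have htp2 := k2.i htp
  have h2b := PN.pow2 hb2 bb
  have hsm : ∀ {A' : Type} {N' : A' → ℕ} {D' : A' → Prop} {Γ' : List Ty} {ρ' : A' → Env Γ'}
      {n' b' x' : A' → ℕ} {R' : A' → List ℤ}, PN N' D' ρ' n' → Bd N' D' n' → PA N' D' ρ' R' →
      PN N' D' ρ' b' → Bd N' D' b' → PN N' D' ρ' x' →
      PN N' D' ρ' (fun a => smc (n' a) (R' a) k (b' a) (x' a)) := by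
    intro A' N' D' Γ' ρ' n' b' x' R' h1 h2 h3 h4 h5 h6
    have h7 := PN.pow2 h4 h5
    exact c_rc h1 h2 h3 (c_ofs k h1 (PN.div h6 h7)) (PN.mod h6 h7)
  have hS : Cp N D ρ2 (fun _ a => (2 : ℝ) ^ b a) .arr
      (fun a => tS (n a) (M a) (R a) k (b a)) := by
    have h := Cp.filter (q := fun a x => Phi (n a) (M a) (sv (n a) (full (n a))
      (smc (n a) (R a) k (b a) x)) = tp (n a) (M a) (R a) k (b a))
      (PN.mul (c_Zn hn2) h2b) fun Γ3 ρ3 up hv =>
        PB.eq (PI.Phi (up.n hn2) (bn.up _) (up.a hM2) (c_sv (up.n hn2) (bn.up _)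
          (c_full (up.n hn2) (bn.up _)) (hsm (up.n hn2) (bn.up _) (up.a hR2) (up.n hb2) (bb.up _)
            hv))) (up.i htp2)
    have bZ : Bd N D (fun a => Zn (n a)) := by
      refine Bd.le ((((Bd.const 2).mul (bn.mul bn)).add ((Bd.const 8).mul bn)).add (Bd.const 16))
        fun a _ => le_of_eq ?_
      unfold Zn
      ring
    obtain ⟨m, hm⟩ := bZ
    refine h.mono_poly (m + 1) fun a ha τ _ => ⟨W7_one _, ?_⟩
    have h3 := W7_one (b a)
    have h4 : (0 : ℝ) ≤ N a := Nat.cast_nonneg _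
    have h5 : (Zn (n a) : ℝ) ≤ ((N a : ℝ) + 2) ^ m := by exact_mod_cast hm a ha
    have h8 : (1 : ℝ) ≤ ((N a : ℝ) + 2) ^ m := one_le_pow₀ (by linarith)
    have h9 : (Zn (n a) : ℝ) * (2 : ℝ) ^ b a ≤ ((N a : ℝ) + 2) ^ m * (2 : ℝ) ^ b a :=
      mul_le_mul_of_nonneg_right h5 (by positivity)
    have h10 : (1 : ℝ) ≤ ((N a : ℝ) + 2) ^ m * (2 : ℝ) ^ b a :=
      one_le_mul_of_one_le_of_one_le h8 h3
    have h11 : 0 ≤ (N a : ℝ) * (((N a : ℝ) + 2) ^ m * (2 : ℝ) ^ b a) := by positivity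
    rw [pow_succ ((N a : ℝ) + 2) m]
    push_cast
    nlinarith
  refine (hS.mono hW).store fun Γ3 ρ3 k3 hS3 => ?_
  have hn3 := k3.n hn2
  have hM3 := k3.a hM2
  have hR3 := k3.a hR2
  have hb3 := k3.n hb2
  have hA4 := k3.a hA3
  have hq1 := PB.not (PB.eqN (PN.len hA4) (PN.const 0))
  have hq2 := PB.not (PB.eqN (PN.len hS3) (PN.const 0))
  have hsl : Cp N (fun a => (D a ∧ ¬ ((tA (n a) (M a) (R a) k (b a)).length ≠ 0)) ∧
      ¬ ((tS (n a) (M a) (R a) k (b a)).length ≠ 0)) ρ3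
      (fun _ a => tw (n a) (M a) (R a) k (b a)) .int
      (fun a => (argmax (2 ^ n a) fun c => Phi (n a) (M a) (vec (n a) c.toNat) : ℕ)) := by
    have hD : ∀ a, ((D a ∧ ¬ ((tA (n a) (M a) (R a) k (b a)).length ≠ 0)) ∧
        ¬ ((tS (n a) (M a) (R a) k (b a)).length ≠ 0)) → D a := fun a h => h.1.1
    have h := Cp.amax (k := fun a => 2 ^ n a) (w := one)
      (f := fun a i => Phi (n a) (M a) (vec (n a) i)) (PN.pow2 (Cp.dom hn3 hD) (Bd.dom' bn hD))
      (fun a _ τ _ => le_rfl) fun Γ4 ρ4 up hv =>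
        PI.Phi (up.n (Cp.dom hn3 hD)) ((Bd.dom' bn hD).up _) (up.a (Cp.dom hM3 hD))
          (PA.vec (up.n (Cp.dom hn3 hD)) ((Bd.dom' bn hD).up _) hv)
    refine h.mono_poly 1 fun a ha τ _ => ⟨one_le_tw _ _ _ _ _, ?_⟩
    have h1 : slow (n a) (M a) (R a) k (b a) := ⟨not_not.1 ha.1.2, not_not.1 ha.2⟩
    unfold tw
    rw [if_pos h1]
    have h3 := W7_one (b a)
    have h5 := W7_one (n a)
    have h4 : (0 : ℝ) ≤ N a := Nat.cast_nonneg _
    simp only [one]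
    push_cast
    nlinarith
  have htc : Cp N D ρ3 (fun _ a => tw (n a) (M a) (R a) k (b a)) .int
      (fun a => (tc (n a) (M a) (R a) k (b a) : ℤ)) := by
    have hD1 : ∀ a, (D a ∧ (tA (n a) (M a) (R a) k (b a)).length ≠ 0) → D a := fun a h => h.1
    have hD2 : ∀ a, (D a ∧ ¬ ((tA (n a) (M a) (R a) k (b a)).length ≠ 0)) → D a := fun a h => h.1
    have h1 : Cp N D ρ3 (fun _ a => tw (n a) (M a) (R a) k (b a)) .int
        (fun a => ((gt (tA (n a) (M a) (R a) k (b a)) 1).toNat : ℤ)) :=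
      (PN.toNat (PI.get hA4 (PN.const 1))).lift fun a _ τ _ => one_le_tw _ _ _ _ _
    have h2 : Cp N D ρ3 (fun _ a => tw (n a) (M a) (R a) k (b a)) .int
        (fun a => (smc (n a) (R a) k (b a) (gt (tS (n a) (M a) (R a) k (b a)) 0).toNat : ℤ)) :=
      (hsm hn3 bn hR3 hb3 bb (PN.toNat (PI.get hS3 (PN.const 0)))).lift
        fun a _ τ _ => one_le_tw _ _ _ _ _
    have h3 : Cp N (fun a => D a ∧ ¬ ((tA (n a) (M a) (R a) k (b a)).length ≠ 0)) ρ3
        (fun _ a => tw (n a) (M a) (R a) k (b a)) .int (fun a =>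
          if (tS (n a) (M a) (R a) k (b a)).length ≠ 0 then
            (smc (n a) (R a) k (b a) (gt (tS (n a) (M a) (R a) k (b a)) 0).toNat : ℤ) else
            ((argmax (2 ^ n a) fun c => Phi (n a) (M a) (vec (n a) c.toNat) : ℕ) : ℤ)) :=
      Cp.iteD (PB_dom hq2 hD2) (Cp.dom h2 fun a h => h.1.1) hsl
    refine (Cp.iteD hq1 (Cp.dom h1 hD1) h3).congr fun a _ => ?_
    unfold tc
    by_cases e1 : (tA (n a) (M a) (R a) k (b a)).length ≠ 0
    · rw [if_pos e1, if_pos e1]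
    · rw [if_neg e1, if_neg e1]
      by_cases e2 : (tS (n a) (M a) (R a) k (b a)).length ≠ 0
      · rw [if_pos e2, if_pos e2]
      · rw [if_neg e2, if_neg e2]
  refine htc.store fun Γ4 ρ4 k4 ht4 => ?_
  have hn4 := k4.n hn3
  exact (PA.tab (f := fun a v => (bit (tc (n a) (M a) (R a) k (b a)) v : ℤ)) hn4 bn
    fun Γ5 ρ5 up hv => PN.bit (up.n ht4) hv (Bd.var bn)).lift
    fun a _ τ _ => one_le_tw _ _ _ _ _

end Pool.Agent.MPa9445a.GL
end
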