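import Pool.Agent.Lib.MP_a9445a_lc.Mg.G150
import Pool.Agent.Lib.MP_a9445a_lc.SB.Mod
import Pool.Agent.Lib.MP_a9445a_lc.Mg.G129
import Pool.Agent.Lib.MP_a9445a_lc.Mg.G126
import Pool.Agent.Lib.MP_a9445a_lc.Mg.G128

section

/-! The numbers, the layout, the sets: values and programs. -/

set_option autoImplicit false

open Finset

namespace Pool.Agent.MPa9445a.GS

open Pool.Agent.MPa9445a.BE (Ty Env vs one Bd NL DL tb flt gt bit Phi vec code lin argmax Bd.const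
  Bd.add Bd.mul Bd.le Bd.up Bd.var Bd.self)
open Pool.Agent.MPa9445a.GD
open Pool.Agent.MPa9445a.SN (kb)
open Pool.Agent.MPa9445a.GL (Pc Pf Df rk sv rc dk RL Zn LL lvv inl EE HE HF HL PP Pm c_rk bd_rk c_rc
  c_dk c_RL c_Zn c_LL bd_LL c_lvv c_inl c_bl c_EE)

/-! ## Values -/

private theorem C1_sum (B c : ℕ) (q : ℕ → Prop) [DecidablePred q] (h : ∀ j < B, q j ↔ j < c)
    (hc : c ≤ B) : ∑ j ∈ range B, (if q j then 1 else 0) = c := by
  have h1 : ∑ j ∈ range B, (if q j then 1 else 0) = ∑ j ∈ range B, if j < c then 1 else 0 :=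
    Finset.sum_congr rfl fun j hj => by
      by_cases hq : q j
      · rw [if_pos hq, if_pos ((h j (mem_range.1 hj)).1 hq)]
      · rw [if_neg hq, if_neg fun h2 => hq ((h j (mem_range.1 hj)).2 h2)]
  rw [h1, ← Finset.card_filter]
  have h2 : (range B).filter (fun j => j < c) = range c := by
    ext j
    rw [mem_filter, mem_range, mem_range]
    omega
  rw [h2, card_range]

theorem clg_eq {B x : ℕ} (h : x ≤ 2 ^ B) : clg B x = Nat.clog 2 x := by
  unfold clg
  exact C1_sum B _ _ (fun j _ => (Nat.lt_clog_iff_pow_lt (by norm_num)).symm)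
    (Nat.clog_le_of_le_pow h)

theorem lgB_eq {B x : ℕ} (h : x < 2 ^ (B + 1)) : lgB B x = Nat.log 2 x := by
  unfold lgB
  rcases Nat.eq_zero_or_pos x with h0 | h0
  · rw [h0, Nat.log_zero_right]
    refine Finset.sum_eq_zero fun j _ => if_neg ?_
    have : 0 < 2 ^ (j + 1) := by positivity
    omega
  · refine C1_sum B _ _ (fun j _ => ?_) ?_
    · rw [← Nat.le_log_iff_pow_le (by norm_num) (by omega)]
      omega
    · have h1 : Nat.log 2 x < B + 1 := (Nat.log_lt_iff_lt_pow (by norm_num) (by omega)).2 h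
      omega

theorem lgn_eq (n : ℕ) : lgn n = SB.lg n := clg_eq Nat.lt_two_pow_self.le

theorem clg_le (B x : ℕ) : clg B x ≤ B := by
  unfold clg
  calc ∑ j ∈ range B, (if 2 ^ j < x then 1 else 0) ≤ ∑ _j ∈ range B, 1 :=
        Finset.sum_le_sum fun j _ => by split_ifs <;> omega
    _ = B := by simp

theorem lgB_le (B x : ℕ) : lgB B x ≤ B := by
  unfold lgB
  calc ∑ j ∈ range B, (if 2 ^ (j + 1) ≤ x then 1 else 0) ≤ ∑ _j ∈ range B, 1 :=
        Finset.sum_le_sum fun j _ => by split_ifs <;> omega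
    _ = B := by simp

private theorem C1_gt (k : ℕ) (f : ℕ → ℤ) (j : ℕ) : gt (tb k f) j = if j < k then f j else 0 := by
  show (tb k f).getD j 0 = _
  rw [BE.getD_tb]

theorem pas_succ (m i : ℕ) : pas m (i + 1) = tb (m + 1) fun j =>
    gt (pas m i) j + if j = 0 then 0 else gt (pas m i) (j - 1) := rfl

theorem gt_pas (m i j : ℕ) : gt (pas m i) j = if j < m + 1 then (i.choose j : ℤ) else 0 := by
  induction i generalizing j with
  | zero =>
    show gt (tb (m + 1) fun j => if j = 0 then 1 else 0) j = _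
    rw [C1_gt]
    split_ifs with h1 h2
    · rw [h2]
      simp
    · rw [Nat.choose_eq_zero_of_lt (by omega)]
      simp
    · rfl
  | succ i ih =>
    rw [pas_succ, C1_gt]
    by_cases h : j < m + 1
    · rw [if_pos h, if_pos h, ih, if_pos h]
      rcases Nat.eq_zero_or_pos j with h0 | h0
      · rw [if_pos h0, h0]
        simp
      · rw [if_neg (by omega), ih, if_pos (by omega)]
        obtain ⟨j', rfl⟩ : ∃ j', j = j' + 1 := ⟨j - 1, by omega⟩
        rw [Nat.add_sub_cancel, Nat.choose_succ_succ]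
        push_cast
        ring
    · rw [if_neg h, if_neg h]

theorem cho_eq (m s : ℕ) : cho m s = m.choose s := by
  unfold cho
  rw [gt_pas]
  split_ifs with h
  · exact Int.toNat_natCast _
  · rw [Nat.choose_eq_zero_of_lt (by omega)]
    rfl

theorem g2_eq (n m s : ℕ) : g2 n m s = SB.g2 n m s := by
  unfold g2 SB.g2
  rw [cho_eq, clg_eq (Nat.choose_le_two_pow m s)]
  rfl

theorem jt_eq (n s : ℕ) : jt n s = SB.jt n s := by
  unfold jt SB.jt
  rw [lgn_eq]

/-! ## Programs -/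

variable {A : Type} {N : A → ℕ} {D : A → Prop} {Γ : List Ty} {ρ : A → Env Γ}

theorem c_clg {B x : A → ℕ} (hB : PN N D ρ B) (bB : Bd N D B) (hx : PN N D ρ x) :
    PN N D ρ (fun a => clg (B a) (x a)) :=
  PN.sum hB bB fun _ _ up hv => PN.ite (PB.ltN (PN.pow2 hv (Bd.var bB)) (up.n hx)) (PN.const 1)
    (PN.const 0)

theorem bd_clg {B x : A → ℕ} (bB : Bd N D B) : Bd N D (fun a => clg (B a) (x a)) :=
  bB.le fun _ _ => clg_le _ _

theorem c_lgB {B x : A → ℕ} (hB : PN N D ρ B) (bB : Bd N D B) (hx : PN N D ρ x) :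
    PN N D ρ (fun a => lgB (B a) (x a)) :=
  PN.sum hB bB fun _ _ up hv => PN.ite (PB.leN (PN.pow2 (PN.add hv (PN.const 1))
    ((Bd.var bB).add (Bd.const 1))) (up.n hx)) (PN.const 1) (PN.const 0)

theorem bd_lgB {B x : A → ℕ} (bB : Bd N D B) : Bd N D (fun a => lgB (B a) (x a)) :=
  bB.le fun _ _ => lgB_le _ _

theorem c_lgn {n : A → ℕ} (hn : PN N D ρ n) (bn : Bd N D n) : PN N D ρ (fun a => lgn (n a)) :=
  c_clg (PN.add hn (PN.const 2)) (bn.add (Bd.const 2)) (PN.add hn (PN.const 2))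

theorem bd_lgn {n : A → ℕ} (bn : Bd N D n) : Bd N D (fun a => lgn (n a)) :=
  bd_clg (bn.add (Bd.const 2))

private theorem C1_pas_mem (m i : ℕ) : ∀ x ∈ pas m i, 0 ≤ x ∧ x ≤ 2 ^ i := by
  intro x hx
  obtain ⟨j, _, rfl⟩ := mem_gt hx
  rw [gt_pas]
  split_ifs
  · exact ⟨Int.natCast_nonneg _, by exact_mod_cast Nat.choose_le_two_pow i j⟩
  · exact ⟨le_rfl, by positivity⟩

private theorem C1_pas_len (m i : ℕ) : (pas m i).length = m + 1 := by
  cases i with
  | zero => exact GL.length_tb _ _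
  | succ i => exact GL.length_tb _ _

theorem c_pas {m : A → ℕ} (hm : PN N D ρ m) (bm : Bd N D m) :
    PA N D ρ (fun a => pas (m a) (m a)) := by
  have hm1 := PN.add hm (PN.const 1)
  have bm1 := bm.add (Bd.const 1)
  have h0 : PA N D ρ (fun a => pas (m a) 0) :=
    PA.tab hm1 bm1 fun Γ1 ρ1 up hv => Cp.ite (PB.eqN hv (PN.const 0)) (PI.const 1) (PI.const 0)
  have h := Cp.iter (s := fun a j => pas (m a) j) (w := fun _ _ => 1) (w0 := one) hm h0 (by
      obtain ⟨c, hc⟩ := bm1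
      refine ⟨c + 2, fun a ha j hj => ?_⟩
      have h1 : BE.asz (pas (m a) j) ≤ m a + 1 := asz_le fun x hx => by
        obtain ⟨h2, h3⟩ := C1_pas_mem _ _ x hx
        unfold BE.sz
        rw [Nat.size_le]
        zify
        rw [abs_of_nonneg h2]
        refine lt_of_le_of_lt h3 (pow_lt_pow_right₀ (by norm_num) (by omega))
      have h2 : Nat.size (pas (m a) j).length ≤ m a + 1 := by
        rw [C1_pas_len, Nat.size_le]
        exact Nat.lt_two_pow_self
      change BE.asz _ + Nat.size _ ≤ _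
      have h3 : m a + 1 ≤ (N a + 2) ^ c := hc a ha
      have h4 : 1 ≤ (N a + 2) ^ c := Nat.one_le_pow _ _ (by omega)
      have h5 : (N a + 2) ^ (c + 2) = (N a + 2) ^ c * ((N a + 2) * (N a + 2)) := by ring
      have h6 : 2 ≤ (N a + 2) * (N a + 2) := by nlinarith
      have h7 : (N a + 2) ^ c * 2 ≤ (N a + 2) ^ c * ((N a + 2) * (N a + 2)) :=
        Nat.mul_le_mul_left _ h6
      omega)
    fun Γ1 ρ1 up hj hz => PA.tab (up.n hm1) (bm1.up _) fun Γ2 ρ2 up2 hv =>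
      PI.add (PI.get (up2.a hz) hv) (Cp.ite (PB.eqN hv (PN.const 0)) (PI.const 0)
        (PI.get (up2.a hz) (PN.sub hv (PN.const 1))))
  obtain ⟨c, hc⟩ := bm
  refine h.mono_poly (c + 1) fun a ha τ _ => ⟨le_rfl, ?_⟩
  have h4 : (0 : ℝ) ≤ N a := Nat.cast_nonneg _
  have h5 : (m a : ℝ) ≤ ((N a : ℝ) + 2) ^ c := by exact_mod_cast hc a ha
  have h8 : (1 : ℝ) ≤ ((N a : ℝ) + 2) ^ c := one_le_pow₀ (by linarith)
  rw [Finset.sum_const, Finset.card_range, nsmul_eq_mul, pow_succ]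
  simp only [one]
  nlinarith

theorem c_cho {m s : A → ℕ} (hm : PN N D ρ m) (bm : Bd N D m) (hs : PN N D ρ s) :
    PN N D ρ (fun a => cho (m a) (s a)) := PN.toNat (PI.get (c_pas hm bm) hs)

theorem c_Rc {n : A → ℕ} (hn : PN N D ρ n) : PN N D ρ (fun a => Rc (n a)) :=
  PN.add (PN.div (PN.mul (PN.const 1655) hn) (PN.const 10000)) (PN.const 1)

theorem bd_Rc {n : A → ℕ} (bn : Bd N D n) : Bd N D (fun a => Rc (n a)) :=
  (((Bd.const 1655).mul bn).add (Bd.const 1)).le fun _ _ =>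
    Nat.add_le_add_right (Nat.div_le_self _ _) _

theorem c_sN {n : A → ℕ} (hn : PN N D ρ n) : PN N D ρ (fun a => sN (n a)) :=
  PN.div (PN.mul (PN.const 1891) hn) (PN.const 10000)

theorem bd_sN {n : A → ℕ} (bn : Bd N D n) : Bd N D (fun a => sN (n a)) :=
  ((Bd.const 1891).mul bn).le fun _ _ => Nat.div_le_self _ _

theorem c_jt {n s : A → ℕ} (hn : PN N D ρ n) (bn : Bd N D n) (hs : PN N D ρ s) :
    PN N D ρ (fun a => jt (n a) (s a)) :=
  PN.add (PN.add (PN.mul (PN.const 8) (PN.add (PN.const 20) (PN.mul (PN.const 60) (c_lgn hn bn))))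
    (PN.div (PN.mul (PN.const 6943) hs) (PN.const 10000))) (PN.const 1)

theorem bd_jt {n s : A → ℕ} (bn : Bd N D n) (bs : Bd N D s) : Bd N D (fun a => jt (n a) (s a)) :=
  ((((Bd.const 8).mul ((Bd.const 20).add ((Bd.const 60).mul (bd_lgn bn)))).add
    ((Bd.const 6943).mul bs)).add (Bd.const 1)).le fun _ _ =>
      Nat.add_le_add_right (Nat.add_le_add_left (Nat.div_le_self _ _) _) _

theorem c_g0 {n : A → ℕ} (hn : PN N D ρ n) : PN N D ρ (fun a => g0 (n a)) :=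
  PN.div (PN.mul (PN.const 6665) hn) (PN.const 10000)

theorem bd_g0 {n : A → ℕ} (bn : Bd N D n) : Bd N D (fun a => g0 (n a)) :=
  ((Bd.const 6665).mul bn).le fun _ _ => Nat.div_le_self _ _

theorem c_g1 {n : A → ℕ} (hn : PN N D ρ n) : PN N D ρ (fun a => g1 (n a)) :=
  PN.div (PN.mul (PN.const 3330) hn) (PN.const 10000)

theorem bd_g1 {n : A → ℕ} (bn : Bd N D n) : Bd N D (fun a => g1 (n a)) :=
  ((Bd.const 3330).mul bn).le fun _ _ => Nat.div_le_self _ _

theorem c_g2 {n m s : A → ℕ} (hn : PN N D ρ n) (hm : PN N D ρ m) (bm : Bd N D m)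
    (hs : PN N D ρ s) : PN N D ρ (fun a => g2 (n a) (m a) (s a)) :=
  PN.sub (PN.mul (PN.const 2) (c_g1 hn)) (c_clg hm bm (c_cho hm bm hs))

theorem bd_g2 {n m s : A → ℕ} (bn : Bd N D n) : Bd N D (fun a => g2 (n a) (m a) (s a)) :=
  ((Bd.const 2).mul (bd_g1 bn)).le fun _ _ => Nat.sub_le _ _

theorem bd_Zn {n : A → ℕ} (bn : Bd N D n) : Bd N D (fun a => Zn (n a)) := by
  refine Bd.le ((((Bd.const 2).mul (bn.mul bn)).add ((Bd.const 8).mul bn)).add (Bd.const 16))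
    fun a _ => le_of_eq ?_
  unfold GL.Zn
  ring

theorem bd_kb' {n : A → ℕ} (bn : Bd N D n) : Bd N D (fun a => kb (n a)) := GL.bd_kb bn

theorem bd_bl {n : A → ℕ} (bn : Bd N D n) : Bd N D (fun a => GL.bl (n a)) :=
  bn.mul ((GL.bd_kb bn).add (Bd.const 1))

theorem bd_RL {n : A → ℕ} (bn : Bd N D n) : Bd N D (fun a => RL (n a)) :=
  (((Bd.const 2).mul (bd_bl bn)).add (bn.mul bn)).add ((GL.bd_Rn bn).mul bn)

theorem c_oH {n : A → ℕ} (hn : PN N D ρ n) : PN N D ρ (fun a => oH (n a)) :=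
  PN.mul (PN.mul (PN.const 8) (c_Zn hn)) (c_RL hn)

theorem bd_oH {n : A → ℕ} (bn : Bd N D n) : Bd N D (fun a => oH (n a)) :=
  ((Bd.const 8).mul (bd_Zn bn)).mul (bd_RL bn)

theorem c_oF {n : A → ℕ} (hn : PN N D ρ n) : PN N D ρ (fun a => oF (n a)) :=
  PN.add (c_oH hn) (PN.mul (c_Rc hn) hn)

theorem bd_oF {n : A → ℕ} (bn : Bd N D n) : Bd N D (fun a => oF (n a)) :=
  (bd_oH bn).add ((bd_Rc bn).mul bn)

theorem c_fof {n lev z i : A → ℕ} (hn : PN N D ρ n) (hl : PN N D ρ lev) (hz : PN N D ρ z)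
    (hi : PN N D ρ i) : PN N D ρ (fun a => fof (n a) (lev a) (z a) (i a)) :=
  PN.add (c_oF hn) (PN.mul (PN.add (PN.mul (PN.add (PN.mul hl hn) hz) (PN.const 3)) hi) (c_bl hn))

theorem c_oT {n : A → ℕ} (hn : PN N D ρ n) : PN N D ρ (fun a => oT (n a)) :=
  PN.add (c_oF hn) (PN.mul (PN.mul (PN.add (PN.mul (PN.const 2) hn) (PN.const 1)) (PN.const 3))
    (c_bl hn))

theorem bd_oT {n : A → ℕ} (bn : Bd N D n) : Bd N D (fun a => oT (n a)) :=
  (bd_oF bn).add (((((Bd.const 2).mul bn).add (Bd.const 1)).mul (Bd.const 3)).mul (bd_bl bn))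

theorem c_RB {n : A → ℕ} (hn : PN N D ρ n) : PN N D ρ (fun a => RB (n a)) :=
  PN.sub (c_oT hn) (c_oH hn)

theorem c_Rz {n z : A → ℕ} {R : A → List ℤ} (hn : PN N D ρ n) (bn : Bd N D n) (hR : PA N D ρ R)
    (hz : PN N D ρ z) : PA N D ρ (fun a => Rz (n a) (R a) (z a)) := by
  refine PA.tab (c_oT hn) (bd_oT bn) fun Γ1 ρ1 up hv => ?_
  have hn1 := up.n hn
  have hp := PN.add hv (PN.mul (up.n hz) (c_RB hn1))
  refine Cp.ite (PB.ltN hv (c_oH hn1)) (PI.get (up.a hR) hv) ?_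
  refine Cp.ite (PB.and (PB.ltN hv (c_oF hn1)) (PB.eqN (PN.mod (PN.sub hv (c_oH hn1)) hn1)
    (PN.sub hn1 (PN.const 1)))) ?_ (PI.get (up.a hR) hp)
  refine PI.mod (PI.sum (PN.sub hn1 (PN.const 1)) ((bn.up _).le fun _ _ => Nat.sub_le _ _)
    fun Γ2 ρ2 up2 hu => ?_) (PI.const 2)
  exact PI.get (up2.a (up.a hR)) (PN.sub (up2.n hp) (PN.add hu (PN.const 1)))

theorem c_cpy {k : A → ℕ} {L : A → List ℤ} (hk : PN N D ρ k) (bk : Bd N D k) (hL : PA N D ρ L) :
    PA N D ρ (fun a => cpy (k a) (L a)) :=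
  PA.tab hk bk fun _ _ up hv => PI.get (up.a hL) hv

theorem c_pkM {n m : A → ℕ} {M : A → List ℤ} (hn : PN N D ρ n) (bn : Bd N D n) (hM : PA N D ρ M)
    (hm : PN N D ρ m) : PA N D ρ (fun a => pkM (n a) (M a) (m a)) :=
  PA.tab (PN.add (PN.mul hn hn) (PN.const 1)) ((bn.mul bn).add (Bd.const 1)) fun _ _ up hv =>
    Cp.ite (PB.ltN hv (PN.mul (up.n hn) (up.n hn))) (PI.get (up.a hM) hv) (up.n hm)

theorem c_pkB {n m Θ : A → ℕ} {M w x y : A → List ℤ} (hn : PN N D ρ n) (bn : Bd N D n)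
    (hM : PA N D ρ M) (hm : PN N D ρ m) (hΘ : PN N D ρ Θ) (hw : PA N D ρ w) (hx : PA N D ρ x)
    (hy : PA N D ρ y) :
    PA N D ρ (fun a => pkB (n a) (M a) (m a) (Θ a) (w a) (x a) (y a)) := by
  refine PA.tab (PN.add (PN.add (PN.mul hn hn) (PN.const 2)) (PN.mul (PN.const 3) hn))
    (((bn.mul bn).add (Bd.const 2)).add ((Bd.const 3).mul bn)) fun Γ1 ρ1 up hv => ?_
  have hn1 := up.n hn
  have hnn := PN.mul hn1 hn1
  have h2 := PN.add hnn (PN.const 2)
  refine Cp.ite (PB.ltN hv hnn) (PI.get (up.a hM) hv) ?_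
  refine Cp.ite (PB.eqN hv hnn) (up.n hm) ?_
  refine Cp.ite (PB.eqN hv (PN.add hnn (PN.const 1))) (up.n hΘ) ?_
  refine Cp.ite (PB.ltN hv (PN.add h2 hn1)) (PI.get (up.a hw) (PN.sub hv h2)) ?_
  exact Cp.ite (PB.ltN hv (PN.add h2 (PN.mul (PN.const 2) hn1)))
    (PI.get (up.a hx) (PN.sub hv (PN.add h2 hn1)))
    (PI.get (up.a hy) (PN.sub hv (PN.add h2 (PN.mul (PN.const 2) hn1))))

theorem hdFU : HF dFU := fun _ _ _ _ _ _ _ hx hκ =>
  c_cmbL hx.n hx.bn (c_kzL hx.n hx.bn hx.R (c_oH hx.n) hx.r (c_Rc hx.n) (bd_Rc hx.bn))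
    (c_rc hx.n hx.bn hx.R hx.o hκ)

theorem hdFB : HF dFB := fun _ _ _ _ _ _ _ hx hκ =>
  c_dk hx.n hx.bn hx.r (c_rc hx.n hx.bn hx.R hx.o hκ)

theorem c_dmC {n : A → ℕ} {z : A → List ℤ} (hn : PN N D ρ n) (bn : Bd N D n) (hz : PA N D ρ z) :
    PN N D ρ (fun a => dmC (n a) (z a)) :=
  PN.sum hn bn fun _ _ up hv => PN.ite (PB.eq (PI.get (up.a hz) hv) (PI.const 0)) (PN.const 0)
    (PN.const 1)

theorem dmC_le (n : ℕ) (z : List ℤ) : dmC n z ≤ n := by
  unfold dmC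
  calc ∑ j ∈ range n, (if gt z j = 0 then 0 else 1) ≤ ∑ _j ∈ range n, 1 :=
        Finset.sum_le_sum fun j _ => by split_ifs <;> omega
    _ = n := by simp

theorem c_dmL {n : A → ℕ} {R s : A → List ℤ} (hn : PN N D ρ n) (bn : Bd N D n) (hR : PA N D ρ R)
    (hs : PA N D ρ s) : PN N D ρ (fun a => dmL (n a) (R a) (s a)) :=
  c_dmC hn bn (c_kzL hn bn hR (c_oH hn) hs (c_Rc hn) (bd_Rc bn))

theorem bd_dmL {n : A → ℕ} {R s : A → List ℤ} (bn : Bd N D n) :
    Bd N D (fun a => dmL (n a) (R a) (s a)) := bn.le fun _ _ => dmC_le _ _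

/-- The golden procedure. -/
theorem c_GO : HE GO := by
  intro A N D Γ ρ n M R s p b hn bn hM hR hs hp hb bb
  exact c_EE 8 _ _ _ _ ρ _ _ _ _ _ _ hn bn (c_cpy (PN.mul hn hn) (bn.mul bn) hM)
    (c_cpy (c_oH hn) (bd_oH bn) hR) (c_cpy hn bn hs) hp hb bb

theorem length_GO_le (n : ℕ) (M R s : List ℤ) (p : ℤ) (b : ℕ) :
    (GO n M R s p b).length ≤ 1 + 2 ^ b := GL.length_EE_le _ _ _ _ _ _ _

end Pool.Agent.MPa9445a.GS
end

section

/-!
# Arrays and the model

`Rp n Q E F`: for all blocks `X ⊆ Q` the answers of the program `E` (for every array which represents the state of the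
block) are the answers of the procedure `F` of the model: `[]` for `none`, `1 :: L` for `some A`, where `L` lists the
codes of the vectors in `A` without repetition.
-/

set_option autoImplicit false

open Finset
open scoped symmDiff

namespace Pool.Agent.MPa9445a.SX

open Pool.Agent.MPa9445a.BE
open Pool.Agent.MPa9445a.SN (ST Fm rs kb)
open Pool.Agent.MPa9445a.GL (Vc S Ph Lv Fr lvl LL lvv la rh Pc Cpl cdv fR bl)
open Pool.Agent.MPa9445a.SB (Rf Lev Pl Rr Sr Hm)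

variable {n : ℕ}

/-- The answer `l` of the program represents the answer `a` of the model, for the block `X`. -/
def Ra (X : Finset (Fin n)) (l : List ℤ) (a : Option (Finset (Vc n))) : Prop :=
  (a = none ∧ l = []) ∨ ∃ A L, a = some A ∧ l = 1 :: L ∧ Cpl L A ∧ A ⊆ S (SB.bl X)

/-- The program `E` represents the procedure `F` of the model, for the blocks `X ⊆ Q`. -/
def Rp (n : ℕ) (Q : Finset (Fin n)) (E : Pc) (F : Rf n) : Prop :=
  ∀ X ⊆ Q, ∀ s, fv n s = SB.bl X → ∀ a ∈ lvl n, ∀ j, Ra X (E s a j) (F X a j)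

/-- The families of the round `z` of the level `lev`. -/
def fR3 (n : ℕ) (R : List ℤ) (o : ℕ) : Rr n := (fR n R o, fR n R (o + bl n), fR n R (o + 2 * bl n))

/-- The families of the level `lev`. -/
def fRs (n : ℕ) (R : List ℤ) (lev : ℕ) : Sr n := fun z => fR3 n R (GS.fof n lev z 0)

/-- The rows of the code. -/
def hR (n : ℕ) (R : List ℤ) : Hm n (SB.Rc n) := fun i => GS.rowR n R (GS.oH n) i

/-- The map onto the sets in the code. -/
def phR (n : ℕ) (R : List ℤ) (Q X : Finset (Fin n)) : Finset (Fin n) :=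
  GS.cmb (GS.kz Q (fun i => GS.rowR n R (GS.oH n) i) (SB.Rc n)) X

/-- The pattern with index `x`. -/
def pw (n l x : ℕ) (hn : 0 < n) : Pl n l := fun i =>
  (⟨dgt n x i / 2, by unfold dgt; have := Nat.mod_lt (x / (2 * n) ^ (i : ℕ)) (by omega : 0 < 2 * n); omega⟩,
    decide (dgt n x i % 2 = 1))

theorem mem_Sbl {X : Finset (Fin n)} {x : Vc n} :
    x ∈ S (SB.bl X) ↔ ∀ v, (v ∈ X → x v = 1 ∨ x v = -1) ∧ (v ∉ X → x v = 0) := by
  unfold S SB.bl
  rw [Fintype.mem_piFinset]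
  refine forall_congr' fun v => ?_
  by_cases hv : v ∈ X
  · simp [hv]
  · simp [hv]

theorem Fr_bl (X : Finset (Fin n)) : Fr (SB.bl X) = X := by
  ext v
  unfold Fr SB.bl
  rw [mem_filter]
  by_cases hv : v ∈ X <;> simp [hv]

theorem la_bl {Q D : Finset (Fin n)} (h : D ⊆ Q) : la (SB.bl Q) D = SB.bl D := by
  funext v
  unfold la SB.bl
  by_cases hv : v ∈ D
  · simp [hv, h hv]
  · simp [hv]

theorem rh_bl (Q D : Finset (Fin n)) : rh (SB.bl Q) D = SB.bl (Q \ D) := by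
  funext v
  unfold rh SB.bl
  by_cases hv : v ∈ D
  · simp [hv]
  · simp [hv]

theorem Ra.nil_iff {X : Finset (Fin n)} {l : List ℤ} {a : Option (Finset (Vc n))} (h : Ra X l a) :
    l = [] ↔ a = none := by
  rcases h with ⟨h1, h2⟩ | ⟨A, L, h1, h2, _⟩
  · simp [h1, h2]
  · simp [h1, h2]

theorem Ra.length_iff {X : Finset (Fin n)} {l : List ℤ} {a : Option (Finset (Vc n))}
    (h : Ra X l a) : l.length = 0 ↔ a = none := by
  rw [List.length_eq_zero_iff, h.nil_iff]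

end Pool.Agent.MPa9445a.SX
end

section

/-! Samples. -/

set_option autoImplicit false

open Finset
open scoped symmDiff

namespace Pool.Agent.MPa9445a.SX

open Pool.Agent.MPa9445a.BE
open Pool.Agent.MPa9445a.SN (ST Fm rs kb)
open Pool.Agent.MPa9445a.GL (Vc S Ph Lv Fr lvl LL lvv YS sv rc xk fR)
open Pool.Agent.MPa9445a.SB (Rf ht Ag Pl gr)

variable {n : ℕ}

/-- PROOF. `GL.fv_sv`, `GL.ST_rc`, `xk`. -/
theorem fv_smp (R : List ℤ) (o : ℕ) {Q : Finset (Fin n)} {s : List ℤ} (hs : fv n s = SB.bl Q)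
    (κ : ℕ) : fv n (sv n s (rc n R o κ)) = xk (SB.bl Q) (fR n R o) κ := by
  rw [GL.fv_sv, GL.ST_rc, hs]
  rfl

/-- The length of a list `flt`. PROOF. `flt` is the map of the filter of `List.range`; `Finset.range`. -/
theorem length_flt (k : ℕ) (p : ℕ → Prop) [DecidablePred p] :
    (flt k p).length = ((range k).filter p).card := by
  unfold flt
  rw [List.length_map]
  have h : ((List.range k).filter fun i => decide (p i)).toFinset = (range k).filter p := by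
    ext i
    simp
  rw [← h, List.toFinset_card_of_nodup]
  exact List.nodup_range.filter _

/-- The number of samples. PROOF. `length_flt`, `GL.Phi_Ph`, `fv_smp`. -/
theorem YS_ht (M R : List ℤ) (o : ℕ) {Q : Finset (Fin n)} {s : List ℤ} (hs : fv n s = SB.bl Q)
    (e : ℕ) (t : ℤ) : (YS n M R o s e t).length = (ht (wtm n M) Q (fR n R o) (2 ^ e) t).card := by
  unfold YS
  rw [length_flt]
  congr 1
  unfold ht
  apply Finset.filter_congr
  intro κ _
  rw [GL.Phi_Ph, fv_smp R o hs κ]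

end Pool.Agent.MPa9445a.SX
end
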