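import Pool.Agent.Lib.MP_a9445a_lc.Mg.G138
import Pool.Agent.Lib.MP_a9445a_lc.Mg.G125
import Pool.Agent.Lib.MP_a9445a_lc.Mg.G096
import Pool.Agent.Lib.MP_a9445a_lc.Mg.G095
import Pool.Agent.Lib.MP_a9445a_lc.Mg.G120
import Pool.Agent.Lib.MP_a9445a_lc.Mg.G122

section

section

/-! The loads of the classes (Lemma 1 of the paper). -/

set_option autoImplicit false

open Finset

namespace Pool.Agent.MPa9445a.DB

open Pool.Agent.MPa9445a.BE (gt bit tb flt lin Phi vec code argmax matMul)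
open Pool.Agent.MPa9445a.GD (itr fm)

/-- The potential. -/
def Gam (N : ℕ) (K vs : List ℤ) (m : ℕ) : ℤ :=
  ∑ c ∈ range (2 ^ (N - m)), gt (ex2 (N - m) (lds N K vs m)) c

/-- The average over all directions `v ≠ 0`. PROOF. `∑ v ∈ range (2 ^ k), ∑ c, h c * h (xr k c v) = (∑ h) ^ 2` (`sum_xr`); the term `v = 0` is
`∑ h ^ 2 ≥ 0`; the minimum is at most the average. -/
theorem exists_dir {k : ℕ} (hk : 0 < k) (h : ℕ → ℤ) : ∃ v, 0 < v ∧ v < 2 ^ k ∧
    (2 ^ k - 1) * ∑ c ∈ range (2 ^ k), h c * h (xr k c v) ≤ (∑ c ∈ range (2 ^ k), h c) ^ 2 := by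
  set S : ℕ → ℤ := fun v => ∑ c ∈ range (2 ^ k), h c * h (xr k c v) with hS
  have h1 : ∑ v ∈ range (2 ^ k), S v = (∑ c ∈ range (2 ^ k), h c) ^ 2 := by
    rw [hS, Finset.sum_comm, sq, Finset.sum_mul]
    refine Finset.sum_congr rfl fun c _ => ?_
    rw [← Finset.mul_sum]
    congr 1
    rw [← sum_xr k c h]
    exact Finset.sum_congr rfl fun v _ => by rw [xr_comm]
  have h0 : 0 ≤ S 0 := by
    refine Finset.sum_nonneg fun c hc => ?_
    rw [xr_zero (Finset.mem_range.1 hc)]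
    exact mul_self_nonneg _
  have h2 : ∑ v ∈ range (2 ^ k - 1), S (v + 1) ≤ (∑ c ∈ range (2 ^ k), h c) ^ 2 := by
    have h3 := Finset.sum_range_succ' S (2 ^ k - 1)
    rw [Nat.sub_add_cancel Nat.one_le_two_pow, h1] at h3
    linarith
  have hp : 2 ≤ 2 ^ k := by
    calc 2 = 2 ^ 1 := rfl
      _ ≤ 2 ^ k := Nat.pow_le_pow_right (by norm_num) hk
  by_contra hcon
  push Not at hcon
  have h3 : ∑ v ∈ range (2 ^ k - 1), (∑ c ∈ range (2 ^ k), h c) ^ 2 <
      ∑ v ∈ range (2 ^ k - 1), (2 ^ k - 1 : ℤ) * S (v + 1) := by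
    refine Finset.sum_lt_sum_of_nonempty ⟨0, Finset.mem_range.2 (by omega)⟩ fun v hv => ?_
    exact hcon (v + 1) (Nat.succ_pos v) (by have := Finset.mem_range.1 hv; omega)
  rw [Finset.sum_const, Finset.card_range, ← Finset.mul_sum, nsmul_eq_mul,
    Nat.cast_sub Nat.one_le_two_pow] at h3
  push_cast at h3
  have h4 : (0 : ℤ) < 2 ^ k - 1 := by
    have h5 : ((2 : ℕ) : ℤ) ≤ ((2 ^ k : ℕ) : ℤ) := by exact_mod_cast hp
    push_cast at h5
    linarith
  have h5 := lt_of_mul_lt_mul_left h3 h4.le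
  linarith

/-- The chosen direction is at least as good. PROOF. `cor_eq`, `argmax` is a maximum. -/
theorem nv_spec {N m : ℕ} (K vs : List ℤ) (hm : m < N) {v : ℕ} (h0 : 0 < v) (hv : v < 2 ^ (N - m)) :
    ∑ c ∈ range (2 ^ (N - m)), gt (ex2 (N - m) (lds N K vs m)) c *
        gt (ex2 (N - m) (lds N K vs m)) (xr (N - m) c (nv N K vs m)) ≤
      ∑ c ∈ range (2 ^ (N - m)), gt (ex2 (N - m) (lds N K vs m)) c *
        gt (ex2 (N - m) (lds N K vs m)) (xr (N - m) c v) := by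
  have hp : 2 ≤ 2 ^ (N - m) := by
    calc 2 = 2 ^ 1 := rfl
      _ ≤ 2 ^ (N - m) := Nat.pow_le_pow_right (by norm_num) (by omega)
  obtain ⟨h1, h2⟩ := BE.argmax_spec (k := 2 ^ (N - m) - 1) (by omega)
    (fun x : ℤ => -gt (lc N K vs m) (1 + x.toNat))
  have h3 := h2 (v - 1) (by omega)
  simp only [Int.toNat_natCast] at h3
  have h4 : 1 + (v - 1) = v := by omega
  rw [h4] at h3
  have hn : 1 + argmax (2 ^ (N - m) - 1) (fun x : ℤ => -gt (lc N K vs m) (1 + x.toNat)) =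
      nv N K vs m := rfl
  have hn2 : nv N K vs m < 2 ^ (N - m) := by
    rw [← hn]
    omega
  rw [hn] at h3
  unfold lc at h3
  rw [cor_eq _ _ _ hv, cor_eq _ _ _ hn2] at h3
  have h5 : (0 : ℤ) < 2 ^ (N - m) := by positivity
  exact le_of_mul_le_mul_left (by linarith) h5

private theorem C3_lds_nonneg {N m : ℕ} {K vs : List ℤ} (hK : ∀ z, 0 ≤ gt K z) (hm : m ≤ N)
    (hv : Vd N vs m) {c : ℕ} (hc : c < 2 ^ (N - m)) : 0 ≤ gt (lds N K vs m) c := by
  rw [lds_eq hm hv hc]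
  refine Finset.sum_nonneg fun z _ => ?_
  split_ifs
  · exact hK z
  · exact le_refl _

private theorem C3_ex2 {k : ℕ} (h : List ℤ) {c : ℕ} (hc : c < 2 ^ k) :
    gt (ex2 k h) c = 2 ^ (gt h c).toNat - 1 := by
  change (tb (2 ^ k) fun c => 2 ^ (gt h c).toNat - 1).getD c 0 = _
  rw [BE.getD_tb, if_pos hc]

private theorem C3_mrg {k v : ℕ} (h : List ℤ) {c : ℕ} (hc : c < 2 ^ k) :
    gt (mrg k v h) c = gt h (rp k v c) + gt h (xr (k + 1) (rp k v c) v) := by
  change (tb (2 ^ k) fun c => gt h (rp k v c) + gt h (xr (k + 1) (rp k v c) v)).getD c 0 = _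
  rw [BE.getD_tb, if_pos hc]

private theorem C3_ex2_nonneg {k : ℕ} (h : List ℤ) {c : ℕ} (hc : c < 2 ^ k) :
    0 ≤ gt (ex2 k h) c := by
  rw [C3_ex2 h hc]
  have : (1 : ℤ) ≤ 2 ^ (gt h c).toNat := one_le_pow₀ (by norm_num)
  linarith

private theorem C3_Gam_nonneg (N : ℕ) (K vs : List ℤ) (m : ℕ) : 0 ≤ Gam N K vs m :=
  Finset.sum_nonneg fun _ hc => C3_ex2_nonneg _ (Finset.mem_range.1 hc)

/-- One step. PROOF. With `v = nv …`, `k = N - m - 1`: `lds` of the step `m + 1` is `mrg k v` of the step `m`;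
`2 ^ (a + b) - 1 = (2 ^ a - 1) * (2 ^ b - 1) + (2 ^ a - 1) + (2 ^ b - 1)` for `a, b ≥ 0`; `sum_rp` for `∑ c, g c` and for
`∑ c, g c * g (xr c v)` (every pair is counted twice); `nv_spec`, `exists_dir`. -/
theorem Gam_step {N m : ℕ} {K : List ℤ} (hK : ∀ z, 0 ≤ gt K z) (hm : m < N) :
    2 * (2 ^ (N - m) - 1) * Gam N K (vl N K (m + 1)) (m + 1) ≤
      2 * (2 ^ (N - m) - 1) * Gam N K (vl N K m) m + Gam N K (vl N K m) m ^ 2 := by
  obtain ⟨k, hk⟩ : ∃ k, N - m = k + 1 := ⟨N - m - 1, by omega⟩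
  have hk1 : N - (m + 1) = k := by omega
  have hk2 : N - 1 - m = k := by omega
  have hVd : Vd N (vl N K m) m := vl_Vd hm.le
  have hVd1 : Vd N (vl N K (m + 1)) (m + 1) := vl_Vd (by omega)
  obtain ⟨hv0, hv1⟩ := hVd1 m (Nat.lt_succ_self m)
  have hvg : gt (vl N K (m + 1)) m = (nv N K (vl N K m) m : ℤ) := vl_get (Nat.lt_succ_self m)
  rw [hvg, Int.toNat_natCast] at hv0 hv1
  set v := nv N K (vl N K m) m with hvdef
  rw [hk] at hv1
  set L := lds N K (vl N K m) m with hL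
  have hL1 : lds N K (vl N K (m + 1)) (m + 1) = mrg k v L := by
    change mrg (N - 1 - m) (gt (vl N K (m + 1)) m).toNat (lds N K (vl N K (m + 1)) m) = _
    rw [hvg, Int.toNat_natCast, hk2, lds_vl (Nat.le_succ m)]
  have hLn : ∀ c < 2 ^ (k + 1), 0 ≤ gt L c := fun c hc =>
    C3_lds_nonneg hK hm.le hVd (by rw [hk]; exact hc)
  set g : ℕ → ℤ := fun c => gt (ex2 (k + 1) L) c with hg
  have hG : Gam N K (vl N K m) m = ∑ x ∈ range (2 ^ (k + 1)), g x := by
    unfold Gam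
    rw [hk]
  have hxr : ∀ c < 2 ^ k, rp k v c < 2 ^ (k + 1) := fun c hc => rp_lt hv0 hv1 hc
  have hG1 : Gam N K (vl N K (m + 1)) (m + 1) =
      ∑ c ∈ range (2 ^ k), (g (rp k v c) * g (xr (k + 1) (rp k v c) v)) +
        ∑ x ∈ range (2 ^ (k + 1)), g x := by
    unfold Gam
    rw [hk1, hL1, sum_rp hv0 hv1 g, ← Finset.sum_add_distrib]
    refine Finset.sum_congr rfl fun c hc => ?_
    have hc' := Finset.mem_range.1 hc
    have e1 := hxr c hc'
    have e2 : xr (k + 1) (rp k v c) v < 2 ^ (k + 1) := xr_lt _ _ _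
    rw [C3_ex2 _ hc', C3_mrg _ hc', Int.toNat_add (hLn _ e1) (hLn _ e2), pow_add]
    simp only [hg]
    rw [C3_ex2 _ e1, C3_ex2 _ e2]
    ring
  have hS : ∑ x ∈ range (2 ^ (k + 1)), g x * g (xr (k + 1) x v) =
      2 * ∑ c ∈ range (2 ^ k), (g (rp k v c) * g (xr (k + 1) (rp k v c) v)) := by
    rw [sum_rp hv0 hv1 (fun x => g x * g (xr (k + 1) x v)), Finset.mul_sum]
    refine Finset.sum_congr rfl fun c hc => ?_
    have e1 := hxr c (Finset.mem_range.1 hc)
    rw [xr_cancel e1]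
    ring
  obtain ⟨v', h0', hv', hle⟩ := exists_dir (Nat.succ_pos k) g
  have h6 := nv_spec K (vl N K m) hm h0' (by rw [hk]; exact hv')
  rw [hk, ← hL, ← hvdef] at h6
  have h6' : ∑ x ∈ range (2 ^ (k + 1)), g x * g (xr (k + 1) x v) ≤
      ∑ x ∈ range (2 ^ (k + 1)), g x * g (xr (k + 1) x v') := h6
  rw [hG1, hG, hk]
  rw [hS] at h6'
  have h7 : (0 : ℤ) ≤ 2 ^ (k + 1) - 1 := by
    have : (1 : ℤ) ≤ 2 ^ (k + 1) := one_le_pow₀ (by norm_num)
    linarith
  have h8 := mul_le_mul_of_nonneg_left h6' h7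
  have hle' : (2 ^ (k + 1) - 1) * ∑ x ∈ range (2 ^ (k + 1)), g x * g (xr (k + 1) x v') ≤
      (∑ x ∈ range (2 ^ (k + 1)), g x) ^ 2 := hle
  have key : ∀ P A B S : ℤ, (P - 1) * (2 * A) ≤ (P - 1) * S → (P - 1) * S ≤ B ^ 2 →
      2 * (P - 1) * (A + B) ≤ 2 * (P - 1) * B + B ^ 2 := by
    intro P A B S i1 i2
    linarith
  exact key _ _ _ _ h8 hle'

private theorem C3_arith {G G' κ P Q : ℤ} (hκ : 0 ≤ κ) (hG : 0 ≤ G) (hP : P = 2 * Q) (hQ : 1 ≤ Q)
    (h1 : G * P ≤ κ * (P + 4 * κ)) (h2 : 16 * κ < P)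
    (h3 : 2 * (P - 1) * G' ≤ 2 * (P - 1) * G + G ^ 2) : G' * Q ≤ κ * (Q + 4 * κ) := by
  have hP0 : 0 < P := by linarith
  have h4 : 4 * G ≤ 5 * κ := by
    have h5 : P * (4 * G) ≤ P * (5 * κ) := by nlinarith
    exact le_of_mul_le_mul_left h5 hP0
  have h5 : 16 * G ^ 2 ≤ 25 * κ ^ 2 := by nlinarith
  have h6 : 2 * (P - 1) * (G' * P) ≤ 2 * (P - 1) * (κ * (P + 4 * κ) + G ^ 2) := by
    have a1 : 2 * (P - 1) * G' * P ≤ (2 * (P - 1) * G + G ^ 2) * P :=
      mul_le_mul_of_nonneg_right h3 hP0.le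
    have a2 : 2 * (P - 1) * (G * P) ≤ 2 * (P - 1) * (κ * (P + 4 * κ)) :=
      mul_le_mul_of_nonneg_left h1 (by linarith)
    have a3 : G ^ 2 * P ≤ 2 * (P - 1) * G ^ 2 := by nlinarith [sq_nonneg G]
    linarith
  have h7 : G' * P ≤ κ * (P + 4 * κ) + G ^ 2 := le_of_mul_le_mul_left h6 (by linarith)
  have h8 : 2 * (G' * Q) ≤ 2 * (κ * (Q + 4 * κ)) := by
    rw [hP] at h7
    nlinarith [sq_nonneg κ]
  linarith

/-- The invariant: `Gam * 2 ^ (N - m) ≤ κ * (2 ^ (N - m) + 4 κ)`. PROOF. Induction: from `Gam ≤ 2 κ` (as `4 κ ≤ 2 ^ (N - m)`) and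
`Gam_step`, with `2 ^ (N - m) - 1 ≥ 2 ^ (N - m) / 2`. -/
theorem Gam_le {N m : ℕ} {K : List ℤ} (hK : ∀ z, gt K z = 0 ∨ gt K z = 1) (hm : m ≤ N) {κ : ℤ}
    (hκ : κ = ∑ z ∈ range (2 ^ N), gt K z) (h : ∀ l < m, 16 * κ < 2 ^ (N - l)) :
    Gam N K (vl N K m) m * 2 ^ (N - m) ≤ κ * (2 ^ (N - m) + 4 * κ) := by
  have hK0 : ∀ z, 0 ≤ gt K z := fun z => by rcases hK z with e | e <;> rw [e] <;> norm_num
  have hκ0 : 0 ≤ κ := by
    rw [hκ]
    exact Finset.sum_nonneg fun z _ => hK0 z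
  induction m with
  | zero =>
    have e : Gam N K (vl N K 0) 0 = κ := by
      unfold Gam
      rw [hκ, Nat.sub_zero]
      refine Finset.sum_congr rfl fun z hz => ?_
      rw [C3_ex2 _ (Finset.mem_range.1 hz)]
      change 2 ^ (gt K z).toNat - 1 = gt K z
      rcases hK z with e | e <;> rw [e] <;> norm_num
    rw [e]
    nlinarith
  | succ m ih =>
    have ih' := ih (by omega) fun l hl => h l (by omega)
    have e : N - m = (N - (m + 1)) + 1 := by omega
    refine C3_arith hκ0 (C3_Gam_nonneg N K (vl N K m) m) (P := 2 ^ (N - m)) ?_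
      (one_le_pow₀ (by norm_num)) ih' (h m (Nat.lt_succ_self m)) (Gam_step hK0 (by omega))
    rw [e, pow_succ]
    ring

/-- The loads. PROOF. `2 ^ load - 1 ≤ Gam ≤ 2 κ ≤ 2 ^ (N + 1)` by `Gam_le` (for `m = 0` the loads are `≤ 1`). -/
theorem load_le {N m : ℕ} {K : List ℤ} (hK : ∀ z, gt K z = 0 ∨ gt K z = 1) (hm : m ≤ N) {κ : ℤ}
    (hκ : κ = ∑ z ∈ range (2 ^ N), gt K z) (h : ∀ l < m, 16 * κ < 2 ^ (N - l)) {c : ℕ}
    (hc : c < 2 ^ (N - m)) : gt (lds N K (vl N K m) m) c ≤ N + 2 := by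
  have hK0 : ∀ z, 0 ≤ gt K z := fun z => by rcases hK z with e | e <;> rw [e] <;> norm_num
  have hκ0 : 0 ≤ κ := by
    rw [hκ]
    exact Finset.sum_nonneg fun z _ => hK0 z
  rcases Nat.eq_zero_or_pos m with hm0 | hm0
  · subst hm0
    change gt K c ≤ N + 2
    have h1 : gt K c ≤ 1 := by rcases hK c with e | e <;> rw [e]; norm_num
    have h2 : (0 : ℤ) ≤ N := Int.natCast_nonneg N
    linarith
  · have h1 := Gam_le hK hm hκ h
    have h2 := h (m - 1) (by omega)
    have e : N - (m - 1) = (N - m) + 1 := by omega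
    rw [e, pow_succ] at h2
    have hP : (0 : ℤ) < 2 ^ (N - m) := by positivity
    have h3 : Gam N K (vl N K m) m ≤ 2 * κ := by
      have h4 : (2 : ℤ) ^ (N - m) * Gam N K (vl N K m) m ≤ 2 ^ (N - m) * (2 * κ) := by nlinarith
      exact le_of_mul_le_mul_left h4 hP
    have h5 : gt (ex2 (N - m) (lds N K (vl N K m) m)) c ≤ Gam N K (vl N K m) m :=
      Finset.single_le_sum (f := fun c => gt (ex2 (N - m) (lds N K (vl N K m) m)) c)
        (fun x hx => C3_ex2_nonneg _ (Finset.mem_range.1 hx)) (Finset.mem_range.2 hc)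
    rw [C3_ex2 _ hc] at h5
    have h6 : (2 : ℤ) ^ (N - m) ≤ 2 ^ N := pow_le_pow_right₀ (by norm_num) (by omega)
    have h7 : (2 : ℤ) ^ (gt (lds N K (vl N K m) m) c).toNat < 2 ^ (N + 2) := by
      rw [pow_add]
      linarith
    have h8 : (gt (lds N K (vl N K m) m) c).toNat < N + 2 := (pow_lt_pow_iff_right₀ (by norm_num)).1 h7
    have h9 := Int.self_le_toNat (gt (lds N K (vl N K m) m) c)
    have h10 : (((gt (lds N K (vl N K m) m) c).toNat : ℕ) : ℤ) < N + 2 := by exact_mod_cast h8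
    linarith

end Pool.Agent.MPa9445a.DB
end

section

/-! The levels of a region and the sets `K`, `Y`. -/

set_option autoImplicit false

open Finset

namespace Pool.Agent.MPa9445a.DB

open Pool.Agent.MPa9445a.BE (gt bit tb flt lin Phi vec code argmax matMul wtm fv)
open Pool.Agent.MPa9445a.GD (itr fm)
open Pool.Agent.MPa9445a.GL (rk sv laL rhL lvv LL Wb Vc S St Ph lvl)

/-- The value of the vector `z` of the region `a`. -/
def fz (n : ℕ) (M : List ℤ) (a z : ℕ) : ℤ := Phi n M (sv n (rg n a) z)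

variable {n : ℕ} {M : List ℤ} {a : ℕ}

/-- The bound for the values. PROOF. The diagonal of `wtm` vanishes: `n (n - 1) (n ^ 2 + 1) ≤ n ^ 4`. -/
theorem Ph_bd (hn : 0 < n) (hM : ∀ x ∈ M, |x| ≤ 1) {x : Vc n} (hx : ∀ v, |x v| ≤ 1) :
    |Ph (wtm n M) x| ≤ (n : ℤ) ^ 4 := by
  have hg : ∀ i : ℕ, |gt M i| ≤ 1 := by
    intro i
    show |M.getD i 0| ≤ 1
    by_cases h : i < M.length
    · rw [List.getD_eq_getElem _ _ h]
      exact hM _ (List.getElem_mem h)
    · rw [List.getD_eq_default _ _ (by omega)]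
      norm_num
  have hw : ∀ u v : Fin n, |wtm n M u v| ≤ ((n : ℤ) ^ 2 + 1) - if u = v then (n : ℤ) ^ 2 + 1 else 0 := by
    intro u v
    unfold wtm BE.wt
    by_cases huv : u = v
    · subst huv
      simp
    · have h1 : ¬ ((u : ℕ) = v) := fun h => huv (Fin.ext h)
      rw [if_neg h1, if_neg huv, sub_zero]
      have h2 := abs_le.1 (hg ((u : ℕ) * n + v))
      rw [abs_le]
      have h3 : (0 : ℤ) ≤ (n : ℤ) ^ 2 := by positivity
      constructor <;> linarith [h2.1, h2.2]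
  have hn' : (1 : ℤ) ≤ n := by exact_mod_cast hn
  calc |Ph (wtm n M) x| ≤ ∑ u : Fin n, ∑ v : Fin n,
        (((n : ℤ) ^ 2 + 1) - if u = v then (n : ℤ) ^ 2 + 1 else 0) := by
        unfold Ph
        refine (Finset.abs_sum_le_sum_abs _ _).trans (Finset.sum_le_sum fun u _ => ?_)
        refine (Finset.abs_sum_le_sum_abs _ _).trans (Finset.sum_le_sum fun v _ => ?_)
        rw [abs_mul, abs_mul]
        have h1 := hw u v
        have h0 : 0 ≤ |wtm n M u v| := abs_nonneg _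
        calc |wtm n M u v| * |x u| * |x v| ≤ |wtm n M u v| * 1 * 1 :=
              mul_le_mul (mul_le_mul_of_nonneg_left (hx u) h0) (hx v) (abs_nonneg _) (by positivity)
          _ = |wtm n M u v| := by ring
          _ ≤ _ := h1
    _ = (n : ℤ) * ((n : ℤ) * ((n : ℤ) ^ 2 + 1) - ((n : ℤ) ^ 2 + 1)) := by
        simp only [Finset.sum_sub_distrib, Finset.sum_ite_eq, Finset.mem_univ, if_true,
          Finset.sum_const, Finset.card_univ, Fintype.card_fin, nsmul_eq_mul]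
        ring
    _ ≤ (n : ℤ) ^ 4 := by
        nlinarith [mul_nonneg (by linarith : (0 : ℤ) ≤ n) (sq_nonneg ((n : ℤ) - 1)),
          mul_pos (by linarith : (0 : ℤ) < n) (by linarith : (0 : ℤ) < n)]

/-- Replacement of `GL.Ph_lvl`. -/
theorem Ph_lv (hn : 0 < n) (hM : ∀ x ∈ M, |x| ≤ 1) {s x : Vc n} (hs : St s) (hx : x ∈ S s) :
    Ph (wtm n M) x ∈ lvl n := by
  have h1 : ∀ v, |x v| ≤ 1 := by
    intro v
    rcases GL.St_entry hs hx v with h | h | h <;> rw [h] <;> norm_num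
  have h2 := Ph_bd hn hM h1
  unfold lvl GL.Rb
  rw [Finset.mem_Icc]
  push_cast
  exact abs_le.1 h2

private theorem K1_bit_lo {z a k v : ℕ} (hv : v < k) : bit (z + 2 ^ k * a) v = bit z v := by
  unfold bit
  have h1 : 2 ^ k * a = 2 ^ v * (2 * (2 ^ (k - v - 1) * a)) := by
    rw [← mul_assoc, ← mul_assoc, ← pow_succ, ← pow_add]
    congr 2
    omega
  rw [h1, Nat.add_mul_div_left _ _ (by positivity)]
  omega

private theorem K1_bit_hi {z a k v : ℕ} (hz : z < 2 ^ k) (hv : k ≤ v) :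
    bit (z + 2 ^ k * a) v = bit a (v - k) := by
  unfold bit
  have h1 : 2 ^ v = 2 ^ k * 2 ^ (v - k) := by
    rw [← pow_add]
    congr 1
    omega
  rw [h1, ← Nat.div_div_eq_div_mul, Nat.add_mul_div_left _ _ (by positivity), Nat.div_eq_of_lt hz,
    zero_add]

/-- PROOF. Entries: for `v < nJ n` the digit `v` of `z + 2 ^ nJ n * a` is that of `z`, for `v ≥ nJ n` it is the digit `v - nJ n` of `a`. -/
theorem sv_rg {z : ℕ} (hz : z < 2 ^ nJ n) : sv n (rg n a) z = vec n (z + 2 ^ nJ n * a) := by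
  unfold sv vec tb
  refine List.map_congr_left fun v hv => ?_
  have hv' : v < n := List.mem_range.1 hv
  unfold rg
  rw [gt_tb_if, if_pos hv']
  by_cases h : v < nJ n
  · rw [if_pos h, if_pos rfl, K1_bit_lo h]
  · rw [if_neg h, if_neg (by omega), K1_bit_hi hz (by omega)]

private theorem K1_St : St (fv n (rg n a)) := by
  intro v
  unfold rg
  rw [BE.fv_tb]
  by_cases h : (v : ℕ) < nJ n
  · rw [if_pos h]
    simp
  · rw [if_neg h]
    have h2 : bit a (v - nJ n) = 0 ∨ bit a (v - nJ n) = 1 := by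
      unfold bit
      exact Nat.mod_two_eq_zero_or_one _
    rcases h2 with h2 | h2 <;> rw [h2] <;> norm_num

private theorem K1_mem (z : ℕ) : fv n (sv n (rg n a) z) ∈ S (fv n (rg n a)) := by
  rw [GL.fv_sv]
  exact GL.vc_mem _ _

private theorem K1_fz (z : ℕ) : fz n M a z = Ph (wtm n M) (fv n (sv n (rg n a) z)) :=
  GL.Phi_Ph M _

/-- PROOF. `GL.Ph_lvl`, `Wb_of`. -/
theorem fz_abs (hn : 0 < n) (hM : ∀ x ∈ M, |x| ≤ 1) (z : ℕ) : |fz n M a z| ≤ (n : ℤ) ^ 4 := by
  have h := Ph_lv (M := M) hn hM (K1_St (a := a)) (K1_mem z)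
  rw [← K1_fz] at h
  unfold lvl GL.Rb at h
  rw [Finset.mem_Icc] at h
  push_cast at h
  exact abs_le.2 h

/-- PROOF. As `GL.parity`. -/
theorem fz_par (z z' : ℕ) : (fz n M a z + fz n M a z') % 2 = 0 := by
  rw [K1_fz, K1_fz]
  exact GL.parity _ (K1_mem z) (K1_mem z')

theorem gt_rv {z : ℕ} (hz : z < 2 ^ nJ n) : gt (rv n M a) z = fz n M a z := by
  unfold rv
  rw [gt_tb_if, if_pos hz]
  rfl

/-- PROOF. `SN.flt_length`. -/
theorem rn_eq (p : ℤ) : rn n M a p = ((range (2 ^ nJ n)).filter fun z => fz n M a z = p).card := by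
  unfold rn
  rw [SN.flt_length]
  congr 1
  refine Finset.filter_congr fun z hz => ?_
  rw [gt_rv (Finset.mem_range.1 hz)]

theorem gt_KK {z : ℕ} (hz : z < 2 ^ nJ n) :
    gt (KK n M a) z = if tt n M a ≤ fz n M a z then 1 else 0 := by
  unfold KK
  rw [gt_tb_if, if_pos hz, gt_rv hz]

theorem KK_01 (z : ℕ) : gt (KK n M a) z = 0 ∨ gt (KK n M a) z = 1 := by
  unfold KK
  rw [gt_tb_if]
  split_ifs <;> simp

theorem gt_YY {z : ℕ} (hz : z < 2 ^ nJ n) :
    gt (YY n M a) z = if fz n M a z = tt n M a then (z : ℤ) + 1 else 0 := by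
  unfold YY
  rw [gt_tb_if, if_pos hz, gt_rv hz]

private theorem K1_Y0 : 0 < Y0 n := by
  unfold Y0
  positivity

private theorem K1_lev (hn : 0 < n) (hM : ∀ x ∈ M, |x| ≤ 1) (z : ℕ) :
    ((n : ℤ) ^ 4 - fz n M a z).toNat < LL n ∧
      (((n : ℤ) ^ 4 - fz n M a z).toNat : ℤ) = (n : ℤ) ^ 4 - fz n M a z := by
  have h := abs_le.1 (fz_abs (a := a) hn hM z)
  have h1 : 0 ≤ (n : ℤ) ^ 4 - fz n M a z := by linarith [h.2]
  have h2 := Int.toNat_of_nonneg h1
  refine ⟨?_, h2⟩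
  zify [LL]
  rw [h2]
  linarith [h.1]

private theorem K1_pigeon (hn : 10 ^ 16 ≤ n) (hM : ∀ x ∈ M, |x| ≤ 1) :
    ∃ x < LL n, Y0 n ≤ rn n M a ((n : ℤ) ^ 4 - x) := by
  by_contra hc
  push Not at hc
  have hn0 : 0 < n := lt_of_lt_of_le (by norm_num) hn
  have h1 : (range (2 ^ nJ n)).card = ∑ x ∈ range (LL n),
      ((range (2 ^ nJ n)).filter fun z => ((n : ℤ) ^ 4 - fz n M a z).toNat = x).card :=
    Finset.card_eq_sum_card_fiberwise fun z _ => Finset.mem_coe.2
      (Finset.mem_range.2 (K1_lev hn0 hM z).1)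
  have h2 : ∀ x ∈ range (LL n),
      ((range (2 ^ nJ n)).filter fun z => ((n : ℤ) ^ 4 - fz n M a z).toNat = x).card < Y0 n := by
    intro x hx
    have h3 := hc x (Finset.mem_range.1 hx)
    rw [rn_eq] at h3
    refine lt_of_le_of_lt (Finset.card_le_card ?_) h3
    intro z hz
    rw [Finset.mem_filter] at hz ⊢
    refine ⟨hz.1, ?_⟩
    have h4 := (K1_lev (a := a) hn0 hM z).2
    rw [hz.2] at h4
    linarith
  have h5 : ∑ x ∈ range (LL n),
      ((range (2 ^ nJ n)).filter fun z => ((n : ℤ) ^ 4 - fz n M a z).toNat = x).card <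
      ∑ _x ∈ range (LL n), Y0 n := by
    refine Finset.sum_lt_sum_of_nonempty ⟨0, Finset.mem_range.2 ?_⟩ h2
    unfold LL
    omega
  rw [← h1, Finset.card_range, Finset.sum_const, Finset.card_range, smul_eq_mul] at h5
  exact absurd (LL_Y0 hn) (not_le.2 h5)

private theorem K1_find (hn : 10 ^ 16 ≤ n) (hM : ∀ x ∈ M, |x| ≤ 1) :
    Y0 n ≤ rn n M a ((n : ℤ) ^ 4 - tx n M a) ∧ tx n M a < LL n ∧
      ∀ j < tx n M a, ¬ Y0 n ≤ rn n M a ((n : ℤ) ^ 4 - j) := by
  obtain ⟨x, hx, hq⟩ := K1_pigeon (a := a) hn hM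
  exact GD.argmax_find (k := LL n) (q := fun y => Y0 n ≤ rn n M a ((n : ℤ) ^ 4 - y)) hx hq

/-- The level `t`. PROOF. The levels of the `2 ^ nJ n` vectors are among the `LL n` numbers `n ^ 4 - x`, `x < LL n`; if all had less
than `Y0 n` vectors then `2 ^ nJ n < LL n * Y0 n`, against `LL_Y0`. `tx` is the first index with `1`. -/
theorem tt_ge (hn : 10 ^ 16 ≤ n) (hM : ∀ x ∈ M, |x| ≤ 1) : Y0 n ≤ rn n M a (tt n M a) :=
  (K1_find hn hM).1

/-- PROOF. `argmax` is the first index of a maximum (`BE.argmax`: `find?`); levels above `n ^ 4` have no vectors (`fz_abs`), `0 < Y0 n`. -/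
theorem tt_max (hn : 10 ^ 16 ≤ n) (hM : ∀ x ∈ M, |x| ≤ 1) {p : ℤ} (hp : tt n M a < p) :
    rn n M a p < Y0 n := by
  by_contra hc
  rw [not_lt] at hc
  have hn0 : 0 < n := lt_of_lt_of_le (by norm_num) hn
  have h1 : 0 < rn n M a p := lt_of_lt_of_le K1_Y0 hc
  rw [rn_eq, Finset.card_pos] at h1
  obtain ⟨z, hz⟩ := h1
  have hz2 : fz n M a z = p := (Finset.mem_filter.1 hz).2
  obtain ⟨h3, h4⟩ := K1_lev (a := a) hn0 hM z
  rw [hz2] at h3 h4
  refine (K1_find (a := a) hn hM).2.2 (((n : ℤ) ^ 4 - p).toNat) ?_ ?_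
  · unfold tt at hp
    zify
    rw [h4]
    linarith
  · rw [h4]
    have : (n : ℤ) ^ 4 - ((n : ℤ) ^ 4 - p) = p := by ring
    rw [this]
    exact hc

/-- A region with many vectors above `t` has a higher level. PROOF. The vectors above `t` have at most `LL n` levels; one of them
has at least `Y0 n` vectors; `tt_max`. -/
theorem tt_lt (hn : 10 ^ 16 ≤ n) (hM : ∀ x ∈ M, |x| ≤ 1) {t : ℤ}
    (h : LL n * Y0 n < ((range (2 ^ nJ n)).filter fun z => t < fz n M a z).card) :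
    t < tt n M a := by
  by_contra hc
  rw [not_lt] at hc
  have hn0 : 0 < n := lt_of_lt_of_le (by norm_num) hn
  have h1 : ((range (2 ^ nJ n)).filter fun z => t < fz n M a z).card = ∑ x ∈ range (LL n),
      (((range (2 ^ nJ n)).filter fun z => t < fz n M a z).filter
        fun z => ((n : ℤ) ^ 4 - fz n M a z).toNat = x).card :=
    Finset.card_eq_sum_card_fiberwise fun z _ => Finset.mem_coe.2
      (Finset.mem_range.2 (K1_lev hn0 hM z).1)
  have h2 : ∀ x ∈ range (LL n),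
      (((range (2 ^ nJ n)).filter fun z => t < fz n M a z).filter
        fun z => ((n : ℤ) ^ 4 - fz n M a z).toNat = x).card ≤ Y0 n := by
    intro x hx
    by_cases hx2 : tt n M a < (n : ℤ) ^ 4 - x
    · have h3 := tt_max hn hM hx2
      rw [rn_eq] at h3
      refine (lt_of_le_of_lt (Finset.card_le_card ?_) h3).le
      intro z hz
      rw [Finset.mem_filter, Finset.mem_filter] at hz
      rw [Finset.mem_filter]
      refine ⟨hz.1.1, ?_⟩
      have h4 := (K1_lev (a := a) hn0 hM z).2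
      rw [hz.2] at h4
      linarith
    · have h3 : (((range (2 ^ nJ n)).filter fun z => t < fz n M a z).filter
          fun z => ((n : ℤ) ^ 4 - fz n M a z).toNat = x) = ∅ := by
        rw [Finset.eq_empty_iff_forall_notMem]
        intro z hz
        rw [Finset.mem_filter, Finset.mem_filter] at hz
        have h4 := (K1_lev (a := a) hn0 hM z).2
        rw [hz.2] at h4
        have h5 := hz.1.2
        exact hx2 (by linarith)
      rw [h3, Finset.card_empty]
      exact Nat.zero_le _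
  rw [h1] at h
  have h6 := Finset.sum_le_sum h2
  rw [Finset.sum_const, Finset.card_range, smul_eq_mul] at h6
  omega

theorem tt_abs (hn : 10 ^ 16 ≤ n) (hM : ∀ x ∈ M, |x| ≤ 1) : |tt n M a| ≤ (n : ℤ) ^ 4 := by
  have hn0 : 0 < n := lt_of_lt_of_le (by norm_num) hn
  have h1 : 0 < rn n M a (tt n M a) := lt_of_lt_of_le K1_Y0 (tt_ge hn hM)
  rw [rn_eq, Finset.card_pos] at h1
  obtain ⟨z, hz⟩ := h1
  rw [← (Finset.mem_filter.1 hz).2]
  exact fz_abs hn0 hM z

private theorem K1_bz : bz n M a < 2 ^ nJ n ∧ ∀ j < 2 ^ nJ n,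
    gt (rv n M a) j ≤ gt (rv n M a) (bz n M a) := by
  have h := BE.argmax_spec (k := 2 ^ nJ n) (by positivity) (fun z => gt (rv n M a) z.toNat)
  refine ⟨h.1, fun j hj => ?_⟩
  have h2 := h.2 j hj
  rw [Int.toNat_natCast, Int.toNat_natCast] at h2
  exact h2

/-- PROOF. `bz` is an index of a maximum. -/
theorem m0_ge {z : ℕ} (hz : z < 2 ^ nJ n) : fz n M a z ≤ m0 n M a := by
  have h := (K1_bz (M := M) (a := a)).2 z hz
  rw [gt_rv hz] at h
  exact h

theorem m0_eq : bz n M a < 2 ^ nJ n ∧ m0 n M a = fz n M a (bz n M a) :=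
  ⟨K1_bz.1, gt_rv K1_bz.1⟩

end Pool.Agent.MPa9445a.DB
end
end

section

section

/-! The shifts: all rounds (Lemma 2 of the paper). -/

set_option autoImplicit false

open Finset

namespace Pool.Agent.MPa9445a.DB

open Pool.Agent.MPa9445a.BE (gt bit tb flt lin Phi vec code argmax matMul)
open Pool.Agent.MPa9445a.GD (itr fm)

variable (N q : ℕ) (y : List ℤ) (R : ℕ)

theorem sl_len (x : ℕ) : (sl N q y R x).length = x :=
  (itr_app (fun u z => (ns N q y R z (u / R) (u % R) : ℤ)) x).1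

theorem sl_get {x u : ℕ} (h : u < x) : gt (sl N q y R x) u =
    (ns N q y R (sl N q y R u) (u / R) (u % R) : ℤ) :=
  (itr_app (fun u z => (ns N q y R z (u / R) (u % R) : ℤ)) x).2 u h

/-- PROOF. `sl_get`, `ns_spec`. -/
theorem sl_lt {x u : ℕ} (h : u < x) : (gt (sl N q y R x) u).toNat < 2 ^ q ∧ 0 ≤ gt (sl N q y R x) u := by
  rw [sl_get N q y R h, Int.toNat_natCast]
  exact ⟨(ns_spec N q y R _ _ _).1, Int.natCast_nonneg _⟩

variable {N q y R}

/-- The sums, the norms, the bad classes depend only on the first entries. -/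
theorem Cs_congr {sh sh' : List ℤ} {j i p c : ℕ}
    (h : ∀ u < j * R + i, gt sh u = gt sh' u) : Cs N q y R sh j i p c = Cs N q y R sh' j i p c := by
  unfold Cs
  refine sum_congr rfl fun l hl => ?_
  rw [h (j * R + l) (by have := mem_range.1 hl; omega)]

private theorem nr_congr {sh sh' : List ℤ} {j c : ℕ}
    (h : ∀ u < (j + 1) * R, gt sh u = gt sh' u) : nr N q y R sh j c = nr N q y R sh' j c := by
  unfold nr
  refine sum_congr rfl fun p _ => ?_
  rw [Cs_congr fun u hu => h u (by rw [Nat.add_mul, one_mul]; exact hu)]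

private theorem bad_iff' {sh : List ℤ} {j c : ℕ} :
    bad N q y R sh j c ↔ ∀ j' < j, 2 * R * (2 ^ q * N) ^ 2 < nr N q y R sh j' c := by
  unfold bad flt
  rw [List.length_map, List.length_eq_zero_iff, List.filter_eq_nil_iff]
  constructor
  · intro h j' hj'
    have h1 := h j' (List.mem_range.2 hj')
    rw [decide_eq_true_eq, not_le] at h1
    exact h1
  · intro h j' hj'
    have h1 := h j' (List.mem_range.1 hj')
    rw [decide_eq_true_eq, not_le]
    exact h1

theorem bad_congr {sh sh' : List ℤ} {j c : ℕ} (h : ∀ u < j * R, gt sh u = gt sh' u) :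
    bad N q y R sh j c ↔ bad N q y R sh' j c := by
  rw [bad_iff', bad_iff']
  refine forall_congr' fun j' => imp_congr_right fun hj' => ?_
  rw [nr_congr fun u hu => h u (hu.trans_le (Nat.mul_le_mul_right R hj'))]

theorem bad_iff {sh : List ℤ} {j c : ℕ} :
    bad N q y R sh j c ↔ ∀ j' < j, 2 * R * (2 ^ q * N) ^ 2 < nr N q y R sh j' c := bad_iff'

private theorem Tb_congr {sh sh' : List ℤ} {j i : ℕ} (h : ∀ u < j * R + i, gt sh u = gt sh' u) :
    Tb N q y R sh j i = Tb N q y R sh' j i := by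
  unfold Tb
  refine sum_congr rfl fun c _ => ?_
  have h1 : bad N q y R sh j c ↔ bad N q y R sh' j c := bad_congr fun u hu => h u (by omega)
  by_cases hb : bad N q y R sh j c
  · rw [if_pos hb, if_pos (h1.1 hb)]
    exact sum_congr rfl fun p _ => by rw [Cs_congr h]
  · rw [if_neg hb, if_neg fun h2 => hb (h1.2 h2)]

private theorem nb_congr {sh sh' : List ℤ} {j : ℕ} (h : ∀ u < j * R, gt sh u = gt sh' u) :
    nb N q y R sh j = nb N q y R sh' j := by
  unfold nb
  congr 1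
  ext c
  rw [mem_filter, mem_filter, bad_congr h]

private theorem sl_sl {x x' u : ℕ} (hu : u < x) (hx : x ≤ x') :
    gt (sl N q y R x) u = gt (sl N q y R x') u := by
  rw [sl_get N q y R hu, sl_get N q y R (hu.trans_le hx)]

private theorem Tb_succ (sh : List ℤ) (j i : ℕ) : Tb N q y R sh j (i + 1) =
    ∑ c ∈ range (2 ^ q), if bad N q y R sh j c then ∑ p ∈ range (N * N),
      (Cs N q y R sh j i p c + bb N q y p (xr q c (gt sh (j * R + i)).toNat)) ^ 2 else 0 := by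
  unfold Tb
  refine sum_congr rfl fun c _ => ?_
  by_cases hb : bad N q y R sh j c
  · rw [if_pos hb, if_pos hb]
    refine sum_congr rfl fun p _ => ?_
    unfold Cs
    rw [sum_range_succ]
  · rw [if_neg hb, if_neg hb]

variable (N q y R)

private theorem Tb_step {x j i : ℕ} (hi : i < R) (hx : j * R + i < x) :
    Tb N q y R (sl N q y R x) j (i + 1) ≤ Tb N q y R (sl N q y R x) j i +
      nb N q y R (sl N q y R x) j * (2 ^ q * N) ^ 2 := by
  have hR : 0 < R := by omega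
  have h1 : (j * R + i) / R = j := by
    rw [mul_comm, Nat.mul_add_div hR, Nat.div_eq_of_lt hi, add_zero]
  have h2 : (j * R + i) % R = i := by
    rw [mul_comm, Nat.mul_add_mod, Nat.mod_eq_of_lt hi]
  have h3 := (ns_spec N q y R (sl N q y R (j * R + i)) j i).2
  have h4 : gt (sl N q y R x) (j * R + i) = (ns N q y R (sl N q y R (j * R + i)) j i : ℤ) := by
    rw [sl_get N q y R hx, h1, h2]
  have hc : ∀ u < j * R + i, gt (sl N q y R (j * R + i)) u = gt (sl N q y R x) u :=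
    fun u hu => sl_sl hu hx.le
  rw [Tb_congr hc, nb_congr fun u hu => hc u (by omega)] at h3
  rw [Tb_succ, h4, Int.toNat_natCast]
  refine le_trans (le_of_eq ?_) h3
  refine sum_congr rfl fun c _ => ?_
  have h5 : bad N q y R (sl N q y R (j * R + i)) j c ↔ bad N q y R (sl N q y R x) j c :=
    bad_congr fun u hu => hc u (by omega)
  by_cases hb : bad N q y R (sl N q y R x) j c
  · rw [if_pos hb, if_pos (h5.2 hb)]
    exact sum_congr rfl fun p _ => by rw [Cs_congr hc]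
  · rw [if_neg hb, if_neg fun h6 => hb (h5.1 h6)]

/-- The invariant of a round. PROOF. Induction over `i`: the entry `j * R + i` of the list is `ns … (sl … (j * R + i)) j i`; `Tb` and `nb` for
the list `sl … x` are those for `sl … (j * R + i)` by `Cs_congr`, `bad_congr`; `ns_spec`. -/
theorem Tb_le {x j i : ℕ} (hi : i ≤ R) (hx : j * R + i ≤ x) :
    Tb N q y R (sl N q y R x) j i ≤ i * (nb N q y R (sl N q y R x) j * (2 ^ q * N) ^ 2) := by
  induction i with
  | zero =>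
    rw [Nat.cast_zero, zero_mul]
    unfold Tb
    refine (sum_eq_zero fun c _ => ?_).le
    have h : ∑ p ∈ range (N * N), Cs N q y R (sl N q y R x) j 0 p c ^ 2 = 0 := by
      refine sum_eq_zero fun p _ => ?_
      unfold Cs
      rw [sum_range_zero]
      rfl
    rw [h, ite_self]
  | succ i ih =>
    have h1 := Tb_step N q y R (x := x) (j := j) (i := i) (by omega) (by omega)
    have h2 := ih (by omega) (by omega)
    refine (h1.trans (add_le_add_left h2 _)).trans (le_of_eq ?_)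
    push_cast
    ring

private theorem bad_anti {sh : List ℤ} {j c : ℕ} (h : bad N q y R sh (j + 1) c) : bad N q y R sh j c := by
  rw [bad_iff] at h ⊢
  exact fun j' hj' => h j' (hj'.trans (Nat.lt_succ_self j))

private theorem nb_nr (sh : List ℤ) (j : ℕ) :
    ((nb N q y R sh (j + 1) : ℕ) : ℤ) * (2 * R * (2 ^ q * N) ^ 2) ≤ Tb N q y R sh j R := by
  have h1 : ((nb N q y R sh (j + 1) : ℕ) : ℤ) * (2 * R * (2 ^ q * N) ^ 2) =
      ∑ c ∈ range (2 ^ q), if bad N q y R sh (j + 1) c then (2 * R * (2 ^ q * N) ^ 2 : ℤ) else 0 := by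
    rw [← sum_filter, sum_const, nsmul_eq_mul]
    rfl
  rw [h1]
  unfold Tb
  refine sum_le_sum fun c _ => ?_
  by_cases hb : bad N q y R sh (j + 1) c
  · rw [if_pos hb, if_pos (bad_anti N q y R hb)]
    exact (bad_iff.1 hb j (Nat.lt_succ_self j)).le
  · rw [if_neg hb]
    split_ifs
    · exact sum_nonneg fun p _ => sq_nonneg _
    · exact le_rfl

private theorem nr_zero (sh : List ℤ) (j c : ℕ) (h : R = 0 ∨ N = 0) : nr N q y R sh j c = 0 := by
  unfold nr
  rcases h with h | h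
  · refine sum_eq_zero fun p _ => ?_
    unfold Cs
    rw [h, sum_range_zero]
    rfl
  · rw [h, Nat.zero_mul, sum_range_zero]

/-- At most one half of the bad classes stays bad. PROOF. `Tb_le` for `i = R`; the classes which are bad for `j + 1` have
`nr > 2 R (2 ^ q N) ^ 2`. If `R * (2 ^ q N) ^ 2 = 0` there is no bad class for `j + 1` (`nr = 0`). -/
theorem nb_half {x j : ℕ} (hx : (j + 1) * R ≤ x) :
    2 * nb N q y R (sl N q y R x) (j + 1) ≤ nb N q y R (sl N q y R x) j := by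
  by_cases hz : R = 0 ∨ N = 0
  · have h1 : nb N q y R (sl N q y R x) (j + 1) = 0 := by
      unfold nb
      rw [card_eq_zero, filter_eq_empty_iff]
      intro c _ hb
      have h2 := bad_iff.1 hb j (Nat.lt_succ_self j)
      rw [nr_zero N q y R _ j c hz] at h2
      rcases hz with h | h <;> rw [h] at h2 <;> simp at h2
    omega
  · push Not at hz
    have h2 := nb_nr N q y R (sl N q y R x) j
    have h3 := Tb_le N q y R (x := x) (j := j) (i := R) le_rfl (by rw [← Nat.succ_mul]; exact hx)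
    have hR : (0 : ℤ) < R := by exact_mod_cast Nat.pos_of_ne_zero hz.1
    have hN : (0 : ℤ) < N := by exact_mod_cast Nat.pos_of_ne_zero hz.2
    have hpos : (0 : ℤ) < R * (2 ^ q * N) ^ 2 := by positivity
    have h4 : (2 * (nb N q y R (sl N q y R x) (j + 1) : ℕ) : ℤ) * (R * (2 ^ q * N) ^ 2) ≤
        (nb N q y R (sl N q y R x) j : ℕ) * (R * (2 ^ q * N) ^ 2) := by
      have e1 : (2 * (nb N q y R (sl N q y R x) (j + 1) : ℕ) : ℤ) * (R * (2 ^ q * N) ^ 2) =
        ((nb N q y R (sl N q y R x) (j + 1) : ℕ) : ℤ) * (2 * R * (2 ^ q * N) ^ 2) := by ring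
      have e2 : ((nb N q y R (sl N q y R x) j : ℕ) : ℤ) * (R * (2 ^ q * N) ^ 2) =
        R * ((nb N q y R (sl N q y R x) j : ℕ) * (2 ^ q * N) ^ 2) := by ring
      rw [e1, e2]
      exact h2.trans h3
    have h5 := le_of_mul_le_mul_right h4 hpos
    exact_mod_cast h5

private theorem nb_pow {x j : ℕ} (hx : j * R ≤ x) : 2 ^ j * nb N q y R (sl N q y R x) j ≤ 2 ^ q := by
  induction j with
  | zero =>
    rw [pow_zero, one_mul]
    exact (card_filter_le _ _).trans (le_of_eq (card_range _))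
  | succ j ih =>
    have h1 := nb_half N q y R hx
    have h2 := ih (le_trans (Nat.mul_le_mul_right R (Nat.le_succ j)) hx)
    have e : 2 ^ (j + 1) * nb N q y R (sl N q y R x) (j + 1) =
      2 ^ j * (2 * nb N q y R (sl N q y R x) (j + 1)) := by ring
    rw [e]
    exact (Nat.mul_le_mul_left _ h1).trans h2

/-- Every class is good for one round. PROOF. `nb … 0 ≤ 2 ^ q`, `nb_half` for `j ≤ q`: `nb … (q + 1) = 0`; `bad_iff`. -/
theorem sl_good {c : ℕ} (hc : c < 2 ^ q) :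
    ∃ j ≤ q, nr N q y R (sl N q y R ((q + 1) * R)) j c ≤ 2 * R * (2 ^ q * N) ^ 2 := by
  by_contra hne
  push Not at hne
  have h1 := nb_pow N q y R (x := (q + 1) * R) (j := q + 1) le_rfl
  have h2 : bad N q y R (sl N q y R ((q + 1) * R)) (q + 1) c :=
    bad_iff.2 fun j' hj' => hne j' (Nat.lt_succ_iff.1 hj')
  have h3 : 0 < nb N q y R (sl N q y R ((q + 1) * R)) (q + 1) :=
    card_pos.2 ⟨c, mem_filter.2 ⟨mem_range.2 hc, h2⟩⟩
  have h4 : 2 ^ (q + 1) * 1 ≤ 2 ^ (q + 1) * nb N q y R (sl N q y R ((q + 1) * R)) (q + 1) :=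
    Nat.mul_le_mul_left _ h3
  have h5 : 2 ^ (q + 1) = 2 * 2 ^ q := by ring
  have h6 : 0 < 2 ^ q := Nat.two_pow_pos q
  omega

end Pool.Agent.MPa9445a.DB
end

section

/-! The code of a region. -/

set_option autoImplicit false

open Finset

namespace Pool.Agent.MPa9445a.DB

open Pool.Agent.MPa9445a.BE (gt bit tb flt lin Phi vec code argmax matMul wtm)
open Pool.Agent.MPa9445a.GD (itr fm)
open Pool.Agent.MPa9445a.GL (rk sv laL rhL lvv LL Wb Vc S St Ph lvl)

variable {n : ℕ} {M : List ℤ} {a : ℕ}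

/-- The class of a vector. -/
def lab (n : ℕ) (M : List ℤ) (a z : ℕ) : ℕ := lb (nJ n) (vv n M a) z (nJ n - qq n M a)

/-- The number of elements of `K`. -/
def kap (n : ℕ) (M : List ℤ) (a : ℕ) : ℤ := ∑ z ∈ range (2 ^ nJ n), gt (KK n M a) z

private theorem kap_card :
    kap n M a = (((range (2 ^ nJ n)).filter fun z => tt n M a ≤ fz n M a z).card : ℤ) := by
  unfold kap
  rw [card_filter, Nat.cast_sum]
  refine sum_congr rfl fun z hz => ?_
  rw [gt_KK (mem_range.1 hz)]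
  split_ifs <;> rfl

private theorem kap_flt :
    (flt (2 ^ nJ n) fun z => gt (KK n M a) z = 1).length =
      ((range (2 ^ nJ n)).filter fun z => tt n M a ≤ fz n M a z).card := by
  rw [SN.flt_length]
  congr 1
  refine filter_congr fun z hz => ?_
  rw [gt_KK (mem_range.1 hz)]
  split_ifs with h
  · exact ⟨fun _ => h, fun _ => rfl⟩
  · exact ⟨fun h1 => absurd h1 (by norm_num), fun h1 => absurd h1 h⟩

private theorem Y0_pos : 0 < Y0 n := by
  unfold Y0
  exact Nat.two_pow_pos _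

/-- PROOF. Every level `≥ t` has at most `rn … (tt …)` vectors (`tt_max`, `tt_ge`), there are at most `LL n` such levels. -/
theorem kap_le (hn : 10 ^ 16 ≤ n) (hM : ∀ x ∈ M, |x| ≤ 1) :
    kap n M a ≤ LL n * rn n M a (tt n M a) := by
  have hn0 : 0 < n := lt_of_lt_of_le (by norm_num) hn
  rw [kap_card]
  have h1 : ((range (2 ^ nJ n)).filter fun z => tt n M a ≤ fz n M a z).card = ∑ x ∈ range (LL n),
      (((range (2 ^ nJ n)).filter fun z => tt n M a ≤ fz n M a z).filter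
        fun z => ((n : ℤ) ^ 4 - fz n M a z).toNat = x).card := by
    refine card_eq_sum_card_fiberwise fun z _ => ?_
    have h2 := abs_le.1 (fz_abs (M := M) (a := a) hn0 hM z)
    simp only [coe_range, Set.mem_Iio]
    unfold LL
    have h3 : ((n : ℤ) ^ 4) = ((n ^ 4 : ℕ) : ℤ) := by push_cast; rfl
    rw [h3] at h2 ⊢
    omega
  have h4 : ∀ x ∈ range (LL n), (((range (2 ^ nJ n)).filter fun z => tt n M a ≤ fz n M a z).filter
        fun z => ((n : ℤ) ^ 4 - fz n M a z).toNat = x).card ≤ rn n M a (tt n M a) := by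
    intro x _
    have h5 : (((range (2 ^ nJ n)).filter fun z => tt n M a ≤ fz n M a z).filter
        fun z => ((n : ℤ) ^ 4 - fz n M a z).toNat = x) ⊆
        (range (2 ^ nJ n)).filter fun z => fz n M a z = (n : ℤ) ^ 4 - x := by
      intro z hz
      rw [mem_filter, mem_filter] at hz
      rw [mem_filter]
      refine ⟨hz.1.1, ?_⟩
      have h2 := abs_le.1 (fz_abs (M := M) (a := a) hn0 hM z)
      have h6 := hz.2
      generalize (n : ℤ) ^ 4 = m at h2 h6 ⊢
      omega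
    rcases lt_trichotomy (tt n M a) ((n : ℤ) ^ 4 - x) with h7 | h7 | h7
    · have h8 := tt_max hn hM h7
      rw [rn_eq] at h8
      exact (card_le_card h5).trans (h8.le.trans (tt_ge hn hM))
    · rw [h7, rn_eq]
      rw [h7] at h5
      exact card_le_card h5
    · have h9 : (((range (2 ^ nJ n)).filter fun z => tt n M a ≤ fz n M a z).filter
        fun z => ((n : ℤ) ^ 4 - fz n M a z).toNat = x) = ∅ := by
        refine eq_empty_of_forall_notMem fun z hz => ?_
        have h10 := mem_filter.1 (h5 hz)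
        have h11 := (mem_filter.1 (mem_filter.1 hz).1).2
        omega
      rw [h9, card_empty]
      exact Nat.zero_le _
  have h12 := sum_le_sum h4
  rw [← h1, sum_const, card_range, smul_eq_mul] at h12
  exact_mod_cast h12

private theorem kap_ge' (hn : 10 ^ 16 ≤ n) (hM : ∀ x ∈ M, |x| ≤ 1) :
    Y0 n ≤ ((range (2 ^ nJ n)).filter fun z => tt n M a ≤ fz n M a z).card := by
  refine (tt_ge (a := a) hn hM).trans ?_
  rw [rn_eq]
  refine card_le_card fun z hz => ?_
  rw [mem_filter] at hz ⊢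
  exact ⟨hz.1, hz.2.ge⟩

theorem kap_ge (hn : 10 ^ 16 ≤ n) (hM : ∀ x ∈ M, |x| ≤ 1) : (Y0 n : ℤ) ≤ kap n M a := by
  rw [kap_card]
  exact_mod_cast kap_ge' hn hM

theorem qq_le : qq n M a ≤ nJ n := by
  unfold qq
  exact min_le_left _ _

private theorem qq_eq : qq n M a = min (nJ n)
    (Nat.log 2 ((range (2 ^ nJ n)).filter fun z => tt n M a ≤ fz n M a z).card + 4) := by
  have h1 : ((range (2 ^ nJ n)).filter fun z => tt n M a ≤ fz n M a z).card < 2 ^ (nJ n + 1) := by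
    refine (card_filter_le _ _).trans_lt ?_
    rw [card_range]
    exact Nat.pow_lt_pow_right (by norm_num) (Nat.lt_succ_self _)
  unfold qq
  rw [kap_flt, GS.lgB_eq h1]

/-- PROOF. `qq = min (nJ) (Nat.log 2 κ + 4)` (`GS.lgB_eq`, `κ ≤ 2 ^ nJ`), `2 ^ Nat.log 2 κ ≤ κ`. -/
theorem qq_up (hn : 10 ^ 16 ≤ n) (hM : ∀ x ∈ M, |x| ≤ 1) : (2 : ℤ) ^ qq n M a ≤ 16 * kap n M a := by
  have h0 := kap_ge' (a := a) hn hM
  rw [kap_card, qq_eq]
  set κ := ((range (2 ^ nJ n)).filter fun z => tt n M a ≤ fz n M a z).card with hκ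
  have h1 : κ ≠ 0 := by
    have := Y0_pos (n := n)
    omega
  have h2 : 2 ^ min (nJ n) (Nat.log 2 κ + 4) ≤ 16 * κ := by
    calc 2 ^ min (nJ n) (Nat.log 2 κ + 4) ≤ 2 ^ (Nat.log 2 κ + 4) :=
          Nat.pow_le_pow_right (by norm_num) (min_le_right _ _)
      _ = 16 * 2 ^ Nat.log 2 κ := by ring
      _ ≤ 16 * κ := Nat.mul_le_mul_left _ (Nat.pow_log_le_self 2 h1)
  exact_mod_cast h2

/-- PROOF. If `l < nJ - qq` then `qq = Nat.log 2 κ + 4` and `nJ - l ≥ qq + 1`; `κ < 2 ^ (Nat.log 2 κ + 1)`. -/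
theorem qq_lo {l : ℕ} (hl : l < nJ n - qq n M a) : 16 * kap n M a < 2 ^ (nJ n - l) := by
  have h0 := qq_eq (n := n) (M := M) (a := a)
  rw [kap_card]
  set κ := ((range (2 ^ nJ n)).filter fun z => tt n M a ≤ fz n M a z).card with hκ
  have h1 : κ < 2 ^ (Nat.log 2 κ + 1) := Nat.lt_pow_succ_log_self (by norm_num) κ
  have h2 : 16 * κ < 2 ^ (nJ n - l) := by
    calc 16 * κ < 16 * 2 ^ (Nat.log 2 κ + 1) := Nat.mul_lt_mul_of_pos_left h1 (by norm_num)
      _ = 2 ^ (Nat.log 2 κ + 4 + 1) := by ring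
      _ ≤ 2 ^ (nJ n - l) := Nat.pow_le_pow_right (by norm_num) (by omega)
  exact_mod_cast h2

/-- PROOF. `κ ≥ Y0 = 2 ^ (2 nJ - n)`. -/
theorem qq_ge (hn : 10 ^ 16 ≤ n) (hM : ∀ x ∈ M, |x| ≤ 1) : nJ n - qq n M a ≤ n - nJ n := by
  have h0 := kap_ge' (a := a) hn hM
  have h1 := qq_eq (n := n) (M := M) (a := a)
  set κ := ((range (2 ^ nJ n)).filter fun z => tt n M a ≤ fz n M a z).card with hκ
  have h2 : 2 * nJ n - n ≤ Nat.log 2 κ := by
    refine Nat.le_log_of_pow_le (by norm_num) ?_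
    exact h0
  have h3 := nJ_half hn
  have h4 := nJ_le n
  omega

/-- PROOF. `vv = vl …`, `vl_Vd`. -/
theorem vv_Vd : Vd (nJ n) (vv n M a) (nJ n - qq n M a) := by
  unfold vv
  exact vl_Vd (Nat.sub_le _ _)

private theorem qq_sub : nJ n - (nJ n - qq n M a) = qq n M a := Nat.sub_sub_self qq_le

theorem lab_lt {z : ℕ} (hz : z < 2 ^ nJ n) : lab n M a z < 2 ^ qq n M a := by
  have h := lb_lt (Nat.sub_le (nJ n) (qq n M a)) (vv_Vd (n := n) (M := M) (a := a)) hz
  rw [qq_sub] at h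
  exact h

theorem lab_xr {z z' : ℕ} (hz : z < 2 ^ nJ n) (hz' : z' < 2 ^ nJ n) :
    lab n M a (xr (nJ n) z z') = xr (qq n M a) (lab n M a z) (lab n M a z') := by
  have h := lb_xr (Nat.sub_le (nJ n) (qq n M a)) (vv_Vd (n := n) (M := M) (a := a)) hz hz'
  rw [qq_sub] at h
  exact h

theorem lab_card {c : ℕ} (hc : c < 2 ^ qq n M a) :
    ((range (2 ^ nJ n)).filter fun z => lab n M a z = c).card = 2 ^ (nJ n - qq n M a) :=
  lb_card (Nat.sub_le (nJ n) (qq n M a)) (vv_Vd (n := n) (M := M) (a := a)) (by rw [qq_sub]; exact hc)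

/-- Every class contains at most `nJ + 2` elements of `K`. PROOF. `load_le`, `lds_eq`, `qq_lo`. -/
theorem load_K {c : ℕ} (hc : c < 2 ^ qq n M a) :
    ((range (2 ^ nJ n)).filter fun z => lab n M a z = c ∧ tt n M a ≤ fz n M a z).card ≤ nJ n + 2 := by
  have hc' : c < 2 ^ (nJ n - (nJ n - qq n M a)) := by rw [qq_sub]; exact hc
  have h1 : gt (lds (nJ n) (KK n M a) (vl (nJ n) (KK n M a) (nJ n - qq n M a)) (nJ n - qq n M a)) c ≤
      (nJ n : ℤ) + 2 :=
    load_le (KK_01 (n := n) (M := M) (a := a)) (Nat.sub_le _ _) (κ := kap n M a) rfl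
      (fun l hl => qq_lo hl) hc'
  rw [lds_eq (Nat.sub_le _ _) (vl_Vd (Nat.sub_le _ _)) hc'] at h1
  have h2 : (((range (2 ^ nJ n)).filter fun z => lab n M a z = c ∧ tt n M a ≤ fz n M a z).card : ℤ) =
      ∑ z ∈ range (2 ^ nJ n), if lb (nJ n) (vl (nJ n) (KK n M a) (nJ n - qq n M a)) z
        (nJ n - qq n M a) = c then gt (KK n M a) z else 0 := by
    rw [card_filter, Nat.cast_sum]
    refine sum_congr rfl fun z hz => ?_
    have h3 : lb (nJ n) (vl (nJ n) (KK n M a) (nJ n - qq n M a)) z (nJ n - qq n M a) = lab n M a z := rfl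
    rw [h3, gt_KK (mem_range.1 hz)]
    by_cases h4 : lab n M a z = c
    · by_cases h5 : tt n M a ≤ fz n M a z
      · rw [if_pos ⟨h4, h5⟩, if_pos h4, if_pos h5, Nat.cast_one]
      · rw [if_neg fun h => h5 h.2, if_pos h4, if_neg h5, Nat.cast_zero]
    · rw [if_neg fun h => h4 h.1, if_neg h4, Nat.cast_zero]
  rw [← h2] at h1
  exact_mod_cast h1

/-- The representatives. PROOF. `mxs_eq`, `gt_YY`. -/
theorem yy_spec {s : ℕ} (hs : s < 2 ^ qq n M a) :
    (gt (yy n M a) s = 0 ∧ ∀ z < 2 ^ nJ n, lab n M a z = s → fz n M a z ≠ tt n M a) ∨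
      ∃ z < 2 ^ nJ n, lab n M a z = s ∧ fz n M a z = tt n M a ∧ gt (yy n M a) s = (z : ℤ) + 1 := by
  obtain ⟨⟨z, hz, h1, h2⟩, h3⟩ := mxs_eq (Y := YY n M a) (Nat.sub_le (nJ n) (qq n M a))
    (vv_Vd (n := n) (M := M) (a := a)) (c := s) (by rw [qq_sub]; exact hs)
  have h4 : gt (yy n M a) s = gt (YY n M a) z := h2
  rw [gt_YY hz] at h4
  by_cases h5 : fz n M a z = tt n M a
  · rw [if_pos h5] at h4
    exact Or.inr ⟨z, hz, h1, h5, h4⟩
  · rw [if_neg h5] at h4
    refine Or.inl ⟨h4, fun z' hz' h6 h7 => ?_⟩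
    have h8 : gt (YY n M a) z' ≤ gt (yy n M a) s := h3 z' hz' h6
    rw [gt_YY hz', if_pos h7, h4] at h8
    have : (0 : ℤ) ≤ z' := Int.natCast_nonneg _
    omega

/-- There are many hit classes. PROOF. The vectors of level `t` are in the hit classes (`yy_spec`), at most `nJ + 2` in every class
(`load_K`); `hl_len` (in `Z1`) or `SN.flt_length`. -/
theorem hl_ge : rn n M a (tt n M a) ≤ (hl (qq n M a) (yy n M a)).length * (nJ n + 2) := by
  unfold hl
  rw [rn_eq, SN.flt_length, mul_comm]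
  refine card_le_mul_card_image_of_maps_to (f := lab n M a) ?_ _ ?_
  · intro z hz
    rw [mem_filter, mem_range] at hz
    rw [mem_filter, mem_range]
    refine ⟨lab_lt hz.1, fun h => ?_⟩
    rcases yy_spec (lab_lt (M := M) (a := a) hz.1) with h1 | ⟨z', _, _, _, h2⟩
    · exact h1.2 z hz.1 rfl hz.2
    · rw [h] at h2
      have : (0 : ℤ) ≤ z' := Int.natCast_nonneg _
      omega
  · intro s hs
    rw [mem_filter, mem_range] at hs
    refine (card_le_card fun z hz => ?_).trans (load_K hs.1)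
    rw [mem_filter, mem_filter] at hz
    rw [mem_filter]
    exact ⟨hz.1.1, hz.2, hz.1.2.ge⟩

/-- PROOF. `num_R1`, `qq_up`, `kap_le`, `hl_ge`. -/
theorem R1_ge (hn : 10 ^ 16 ≤ n) (hM : ∀ x ∈ M, |x| ≤ 1) :
    (10 ^ 9 * nJ n * 2 ^ qq n M a) ^ 2 ≤ R1 n * (hl (qq n M a) (yy n M a)).length ^ 2 := by
  have h1 : 2 ^ qq n M a ≤ 16 * (LL n * rn n M a (tt n M a)) := by
    have h2 := (qq_up (a := a) hn hM).trans (mul_le_mul_of_nonneg_left (kap_le (a := a) hn hM) (by norm_num))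
    exact_mod_cast h2
  have h3 : 2 ^ qq n M a ≤ 16 * LL n * (nJ n + 2) * (hl (qq n M a) (yy n M a)).length := by
    refine h1.trans ?_
    calc 16 * (LL n * rn n M a (tt n M a)) ≤
        16 * (LL n * ((hl (qq n M a) (yy n M a)).length * (nJ n + 2))) :=
          Nat.mul_le_mul_left _ (Nat.mul_le_mul_left _ hl_ge)
      _ = _ := by ring
  calc (10 ^ 9 * nJ n * 2 ^ qq n M a) ^ 2 ≤
      (10 ^ 9 * nJ n * (16 * LL n * (nJ n + 2) * (hl (qq n M a) (yy n M a)).length)) ^ 2 :=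
        Nat.pow_le_pow_left (Nat.mul_le_mul_left _ h3) 2
    _ = (10 ^ 9 * nJ n * (16 * LL n * (nJ n + 2))) ^ 2 * (hl (qq n M a) (yy n M a)).length ^ 2 := by ring
    _ ≤ R1 n * (hl (qq n M a) (yy n M a)).length ^ 2 := Nat.mul_le_mul_right _ (num_R1 hn)

theorem hl_pos (hn : 10 ^ 16 ≤ n) (hM : ∀ x ∈ M, |x| ≤ 1) : 0 < (hl (qq n M a) (yy n M a)).length := by
  have h1 := (tt_ge (a := a) hn hM).trans hl_ge
  have h2 := Y0_pos (n := n)
  rcases Nat.eq_zero_or_pos (hl (qq n M a) (yy n M a)).length with h | h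
  · rw [h, Nat.zero_mul] at h1
    omega
  · exact h

end Pool.Agent.MPa9445a.DB
end
end

section

section

/-! Scalar products. -/

set_option autoImplicit false

open Finset

namespace Pool.Agent.MPa9445a.DB

open Pool.Agent.MPa9445a.BE (gt bit tb flt lin Phi vec code argmax matMul)
open Pool.Agent.MPa9445a.GD (itr fm)

/-- The scalar product of the vectors with codes `x`, `z`. -/
def ip (N x z : ℕ) : ℤ := ∑ v ∈ range N, (2 * (bit x v : ℤ) - 1) * (2 * (bit z v : ℤ) - 1)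

/-- The entries of the matrix of `x`. -/
def ep (N x p : ℕ) : ℤ := (2 * (bit x (p / N) : ℤ) - 1) * (2 * (bit x (p % N) : ℤ) - 1)

theorem ip_xr (N x z : ℕ) : ip N x z = N - 2 * ∑ v ∈ range N, (bit (xr N x z) v : ℤ) := by
  have h : ∀ v ∈ range N, (2 * (bit x v : ℤ) - 1) * (2 * (bit z v : ℤ) - 1) =
      1 - 2 * (bit (xr N x z) v : ℤ) := by
    intro v hv
    rw [bit_xr, if_pos (mem_range.1 hv)]
    rcases bit_01 x v with h1 | h1 <;> rcases bit_01 z v with h2 | h2 <;> rw [h1, h2] <;> norm_num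
  unfold ip
  rw [sum_congr rfl h, sum_sub_distrib, ← mul_sum]
  simp

private theorem B1_double {A : Type*} [AddCommMonoid A] (N : ℕ) (f : ℕ → ℕ → A) (a : ℕ) :
    ∑ p ∈ range (a * N), f (p / N) (p % N) = ∑ i ∈ range a, ∑ j ∈ range N, f i j := by
  induction a with
  | zero => simp
  | succ a ih =>
    rw [Nat.succ_mul, sum_range_add, ih, sum_range_succ]
    congr 1
    refine sum_congr rfl fun j hj => ?_
    have hj' := mem_range.1 hj
    have h1 : (a * N + j) / N = a := by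
      rw [mul_comm, Nat.mul_add_div (by omega), Nat.div_eq_of_lt hj', add_zero]
    have h2 : (a * N + j) % N = j := by
      rw [mul_comm, Nat.mul_add_mod, Nat.mod_eq_of_lt hj']
    rw [h1, h2]

/-- PROOF. `∑ p ∈ range (N * N)` is the double sum over `p / N`, `p % N`. -/
theorem ep_bp (N x : ℕ) (y : List ℤ) (s : ℕ) :
    ∑ p ∈ range (N * N), ep N x p * bp N y p s =
      if gt y s = 0 then 0 else ip N x (gt y s - 1).toNat ^ 2 := by
  unfold bp ep
  split_ifs with h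
  · simp
  · set z := (gt y s - 1).toNat with hz
    have h1 := B1_double N (fun i j => (2 * (bit x i : ℤ) - 1) * (2 * (bit x j : ℤ) - 1) *
      ((2 * (bit z i : ℤ) - 1) * (2 * (bit z j : ℤ) - 1))) N
    rw [h1]
    unfold ip
    rw [sq, sum_mul_sum]
    refine sum_congr rfl fun i _ => sum_congr rfl fun j _ => ?_
    ring

theorem ep_sq (N x p : ℕ) : ep N x p ^ 2 = 1 := by
  unfold ep
  rcases bit_01 x (p / N) with h1 | h1 <;> rcases bit_01 x (p % N) with h2 | h2 <;> rw [h1, h2] <;> norm_num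

/-- PROOF. `Finset.sum_mul_sq_le_sq_mul_sq`, `ep ^ 2 = 1`. -/
theorem ep_le (N x : ℕ) (X : ℕ → ℤ) :
    (∑ p ∈ range (N * N), ep N x p * X p) ^ 2 ≤ N ^ 2 * ∑ p ∈ range (N * N), X p ^ 2 := by
  refine (sum_mul_sq_le_sq_mul_sq (range (N * N)) (fun p => ep N x p) X).trans (le_of_eq ?_)
  congr 1
  rw [sum_congr rfl fun p _ => ep_sq N x p]
  simp [sq]

end Pool.Agent.MPa9445a.DB
end

section

/-! The centers. -/

set_option autoImplicit false

open Finset

namespace Pool.Agent.MPa9445a.DB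

open Pool.Agent.MPa9445a.BE (gt bit tb flt lin Phi vec code argmax matMul)
open Pool.Agent.MPa9445a.GD (itr fm)

variable (N q : ℕ) (y : List ℤ)

theorem hl_get {x : ℕ} (h : x < (hl q y).length) :
    ∃ s < 2 ^ q, gt y s ≠ 0 ∧ gt (hl q y) x = (s : ℤ) := by
  obtain ⟨h1, h2, h3⟩ := SN.flt_gt (k := 2 ^ q) (fun s => gt y s ≠ 0) h
  exact ⟨_, h1, h2, h3⟩

/-- Sums over the hit classes. PROOF. `flt` is the list of the `s < 2 ^ q` with `gt y s ≠ 0` without repetition. -/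
theorem hl_sum (F : ℕ → ℤ) (hF : ∀ s, gt y s = 0 → F s = 0) :
    ∑ s ∈ range (2 ^ q), F s = ∑ x ∈ range (hl q y).length, F (gt (hl q y) x).toNat := by
  have h1 : ∑ s ∈ range (2 ^ q), F s = ∑ s ∈ (range (2 ^ q)).filter fun s => gt y s ≠ 0, F s := by
    rw [sum_filter]
    refine sum_congr rfl fun s _ => ?_
    by_cases h : gt y s ≠ 0
    · rw [if_pos h]
    · rw [if_neg h]
      exact hF s (not_ne_iff.1 h)
  rw [h1]
  symm
  refine sum_nbij (fun x => (gt (hl q y) x).toNat) ?_ ?_ ?_ (fun x _ => rfl)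
  · intro x hx
    obtain ⟨s, hs, h2, h3⟩ := hl_get q y (mem_range.1 hx)
    rw [h3, Int.toNat_natCast, mem_filter]
    exact ⟨mem_range.2 hs, h2⟩
  · intro x hx x' hx' h
    exact SN.flt_inj (k := 2 ^ q) (fun s => gt y s ≠ 0) (mem_range.1 (mem_coe.1 hx))
      (mem_range.1 (mem_coe.1 hx')) h
  · intro s hs
    rw [mem_coe, mem_filter, mem_range] at hs
    obtain ⟨t, h2, _, h3⟩ := SN.flt_pos (fun s => gt y s ≠ 0) hs.1 hs.2
    refine ⟨t, mem_coe.2 (mem_range.2 h2), ?_⟩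
    show (gt (hl q y) t).toNat = s
    unfold hl
    rw [h3, Int.toNat_natCast]

theorem hl_len : (hl q y).length = ((range (2 ^ q)).filter fun s => gt y s ≠ 0).card :=
  SN.flt_length _

private theorem bp_sum (p : ℕ) :
    ∑ x ∈ range (hl q y).length, bp N y p (gt (hl q y) x).toNat = sp N q y p := by
  unfold sp
  rw [hl_sum q y (fun s => bp N y p s) fun s hs => ?_]
  unfold bp
  rw [if_pos hs]

private theorem center_sum (p : ℕ) (d : ℤ) :
    ∑ x ∈ range (hl q y).length, (d + ((hl q y).length * bp N y p (gt (hl q y) x).toNat - sp N q y p)) ^ 2 ≤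
      (hl q y).length * (d ^ 2 + ((hl q y).length : ℤ) ^ 2) := by
  set h : ℕ := (hl q y).length with hh
  have h1 : ∀ x, (d + (h * bp N y p (gt (hl q y) x).toNat - sp N q y p)) ^ 2 =
      (d - sp N q y p) ^ 2 + 2 * (d - sp N q y p) * h * bp N y p (gt (hl q y) x).toNat +
        h ^ 2 * bp N y p (gt (hl q y) x).toNat ^ 2 := by
    intro x
    ring
  rw [sum_congr rfl fun x _ => h1 x, sum_add_distrib, sum_add_distrib, ← mul_sum, ← mul_sum, hh, bp_sum, ← hh,
    sum_const, card_range, nsmul_eq_mul]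
  have h2 : ∑ x ∈ range h, bp N y p (gt (hl q y) x).toNat ^ 2 ≤ h := by
    calc ∑ x ∈ range h, bp N y p (gt (hl q y) x).toNat ^ 2 ≤ ∑ _x ∈ range h, (1 : ℤ) :=
          sum_le_sum fun x _ => bp_sq_le N y p _
      _ = h := by simp
  have h3 : (h : ℤ) ^ 2 * ∑ x ∈ range h, bp N y p (gt (hl q y) x).toNat ^ 2 ≤ (h : ℤ) ^ 2 * h :=
    mul_le_mul_of_nonneg_left h2 (sq_nonneg _)
  have h4 : (0 : ℤ) ≤ h * sp N q y p ^ 2 := mul_nonneg (Int.natCast_nonneg _) (sq_nonneg _)
  have h5 : (h : ℤ) * (d - sp N q y p) ^ 2 + 2 * (d - sp N q y p) * h * sp N q y p + (h : ℤ) ^ 2 * h =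
    h * (d ^ 2 + (h : ℤ) ^ 2) - h * sp N q y p ^ 2 := by ring
  linarith

/-- The best center is at least as good as the average. PROOF. With `h = (hl q y).length`, `S = sp`: the sum over all hit classes of
`(d + (h b - S)) ^ 2` is `h d ^ 2 + h ^ 2 ∑ b ^ 2 - h S ^ 2 ≤ h d ^ 2 + h ^ 3` for every `p`, as `∑ (h b - S) = 0`. -/
theorem exists_center (d : ℕ → ℤ) (h0 : 0 < (hl q y).length) : ∃ x < (hl q y).length,
    ∑ p ∈ range (N * N), (d p +
      ((hl q y).length * bp N y p (gt (hl q y) x).toNat - sp N q y p)) ^ 2 ≤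
      ∑ p ∈ range (N * N), d p ^ 2 + ((hl q y).length * N) ^ 2 := by
  by_contra hne
  push Not at hne
  have h1 : ∑ _x ∈ range (hl q y).length, (∑ p ∈ range (N * N), d p ^ 2 + ((hl q y).length * N : ℤ) ^ 2) <
      ∑ x ∈ range (hl q y).length, ∑ p ∈ range (N * N), (d p +
        ((hl q y).length * bp N y p (gt (hl q y) x).toNat - sp N q y p)) ^ 2 :=
    sum_lt_sum_of_nonempty ⟨0, mem_range.2 h0⟩ fun x hx => hne x (mem_range.1 hx)
  have h2 : ∑ x ∈ range (hl q y).length, ∑ p ∈ range (N * N), (d p +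
        ((hl q y).length * bp N y p (gt (hl q y) x).toNat - sp N q y p)) ^ 2 ≤
      ∑ p ∈ range (N * N), ((hl q y).length * (d p ^ 2 + ((hl q y).length : ℤ) ^ 2) : ℤ) := by
    rw [sum_comm]
    exact sum_le_sum fun p _ => center_sum N q y p (d p)
  have h3 : ∑ p ∈ range (N * N), ((hl q y).length * (d p ^ 2 + ((hl q y).length : ℤ) ^ 2) : ℤ) =
      (hl q y).length * (∑ p ∈ range (N * N), d p ^ 2 + ((hl q y).length * N : ℤ) ^ 2) := by
    rw [← mul_sum, sum_add_distrib, sum_const, card_range, nsmul_eq_mul]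
    push_cast
    ring
  rw [sum_const, card_range, nsmul_eq_mul] at h1
  rw [h3] at h2
  exact absurd h1 (not_lt.2 h2)

theorem cl_len (x : ℕ) : (cl N q y x).length = x :=
  (itr_app (fun _ z => nc N q y z) x).1

theorem cl_get {x l : ℕ} (h0 : 0 < (hl q y).length) (h : l < x) :
    ∃ s < 2 ^ q, gt y s ≠ 0 ∧ gt (cl N q y x) l = (s : ℤ) := by
  have h1 : gt (cl N q y x) l = nc N q y (cl N q y l) := (itr_app (fun _ z => nc N q y z) x).2 l h
  rw [h1]
  unfold nc
  exact hl_get q y (argmax_lt h0 _)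

private theorem dev_app (z : List ℤ) (w : ℤ) (p : ℕ) : dev N q y (z ++ [w]) p =
    dev N q y z p + ((hl q y).length * bp N y p w.toNat - sp N q y p) := by
  unfold dev
  rw [List.length_append, List.length_singleton, sum_range_succ]
  congr 1
  · refine sum_congr rfl fun l hl' => ?_
    have h : gt (z ++ [w]) l = gt z l := by
      unfold gt
      exact List.getD_append _ _ _ _ (mem_range.1 hl')
    rw [h]
  · have h : gt (z ++ [w]) z.length = w := by
      unfold gt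
      rw [List.getD_append_right _ _ _ _ le_rfl, Nat.sub_self]
      rfl
    rw [h]

/-- PROOF. Induction over `x`, `exists_center`, `argmax` is a maximum, `itr_app`. -/
theorem cl_good (x : ℕ) (h0 : 0 < (hl q y).length) :
    ∑ p ∈ range (N * N), dev N q y (cl N q y x) p ^ 2 ≤ x * ((hl q y).length * N) ^ 2 := by
  induction x with
  | zero =>
    rw [Nat.cast_zero, zero_mul]
    refine (sum_eq_zero fun p _ => ?_).le
    show (∑ l ∈ range 0, ((hl q y).length * bp N y p (gt (cl N q y 0) l).toNat - sp N q y p)) ^ 2 = 0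
    rw [sum_range_zero]
    rfl
  | succ x ih =>
    have e : cl N q y (x + 1) = cl N q y x ++ [nc N q y (cl N q y x)] := rfl
    rw [e]
    obtain ⟨t, ht, h1⟩ := exists_center N q y (fun p => dev N q y (cl N q y x) p) h0
    have h2 := le_argmax (k := (hl q y).length) (fun x' => -∑ p ∈ range (N * N), (dev N q y (cl N q y x) p +
      ((hl q y).length * bp N y p (gt (hl q y) x'.toNat).toNat - sp N q y p)) ^ 2) ht
    simp only [Int.toNat_natCast] at h2
    have h3 : ∑ p ∈ range (N * N), dev N q y (cl N q y x ++ [nc N q y (cl N q y x)]) p ^ 2 ≤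
        ∑ p ∈ range (N * N), (dev N q y (cl N q y x) p +
          ((hl q y).length * bp N y p (gt (hl q y) t).toNat - sp N q y p)) ^ 2 := by
      refine le_trans (le_of_eq (sum_congr rfl fun p _ => by rw [dev_app])) ?_
      unfold nc
      exact neg_le_neg_iff.1 h2
    push_cast
    have h4 : ((x : ℤ) + 1) * ((hl q y).length * N) ^ 2 =
      x * ((hl q y).length * N) ^ 2 + ((hl q y).length * N) ^ 2 := by ring
    rw [h4]
    exact (h3.trans h1).trans (by linarith)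

end Pool.Agent.MPa9445a.DB
end
end
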