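import Pool.Agent.Lib.MP_a9445a_lc.Mg.G138
import Pool.Agent.Lib.MP_a9445a_lc.Mg.G137
import Pool.Agent.Lib.MP_a9445a_lc.Mg.G125
import Pool.Agent.Lib.MP_a9445a_lc.Mg.G095
import Pool.Agent.Lib.MP_a9445a_lc.Mg.G096
import Pool.Agent.Lib.MP_a9445a_lc.Mg.G139
import Pool.Agent.Lib.MP_a9445a_lc.Mg.G122

section

section

/-! Numbers: the exponents of the running time. -/

set_option autoImplicit false

open Finset

namespace Pool.Agent.MPa9445a.DB

variable {n m : ℕ} {τ : ℝ}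

theorem nJ_real (n : ℕ) : (nJ n : ℝ) ≤ 0.7871 * n ∧ 0.7871 * (n : ℝ) - 1 ≤ nJ n := by
  unfold nJ
  have h1 : 7871 * n / 10000 * 10000 ≤ 7871 * n := Nat.div_mul_le_self _ _
  have h2 : 7871 * n < 7871 * n / 10000 * 10000 + 10000 := by omega
  have h3 : (((7871 * n / 10000 : ℕ) : ℝ)) * 10000 ≤ 7871 * n := by exact_mod_cast h1
  have h4 : (7871 * (n : ℝ)) < ((7871 * n / 10000 : ℕ) : ℝ) * 10000 + 10000 := by exact_mod_cast h2
  constructor <;> linarith

theorem sub_real (n : ℕ) : (((n - nJ n : ℕ) : ℝ)) ≤ 0.2129 * n + 1 := by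
  rw [Nat.cast_sub (nJ_le n)]
  linarith [(nJ_real n).2]

theorem m_real (hm : m ≤ 5002 * nJ n / 10000) : (m : ℝ) ≤ 0.39370742 * n := by
  have h1 : m * 10000 ≤ 5002 * nJ n := (Nat.mul_le_mul_right _ hm).trans (Nat.div_mul_le_self _ _)
  have h2 : (m : ℝ) * 10000 ≤ 5002 * (nJ n : ℝ) := by exact_mod_cast h1
  linarith [(nJ_real n).1]

theorem wc_real (m : ℕ) : (wc m : ℝ) ≤ 0.1298 * m ∧ 0.1298 * (m : ℝ) - 1 ≤ wc m := by
  unfold wc
  have h1 : 1298 * m / 10000 * 10000 ≤ 1298 * m := Nat.div_mul_le_self _ _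
  have h2 : 1298 * m < 1298 * m / 10000 * 10000 + 10000 := by omega
  have h3 : (((1298 * m / 10000 : ℕ) : ℝ)) * 10000 ≤ 1298 * m := by exact_mod_cast h1
  have h4 : (1298 * (m : ℝ)) < ((1298 * m / 10000 : ℕ) : ℝ) * 10000 + 10000 := by exact_mod_cast h2
  constructor <;> linarith

theorem wM_le (hτ : 2 ≤ τ) (w : ℕ) : wM τ w ≤ (2 : ℝ) ^ (τ * ((w : ℝ) + 1)) := by
  unfold wM
  have h1 : ((2 ^ w : ℕ) : ℝ) + 1 ≤ (2 : ℝ) ^ ((w : ℝ) + 1) := by
    rw [Real.rpow_add (by norm_num), Real.rpow_natCast, Real.rpow_one]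
    have : (1 : ℝ) ≤ 2 ^ w := one_le_pow₀ (by norm_num)
    push_cast
    linarith
  calc (((2 ^ w : ℕ) : ℝ) + 1) ^ τ ≤ ((2 : ℝ) ^ ((w : ℝ) + 1)) ^ τ :=
        Real.rpow_le_rpow (by positivity) h1 (by linarith)
    _ = (2 : ℝ) ^ (τ * ((w : ℝ) + 1)) := by
        rw [← Real.rpow_mul (by norm_num), mul_comm]

/-- The time for counting. -/
theorem num_count (hτ : 2.362 ≤ τ) (hn : 10 ^ 16 ≤ n) (hm : m ≤ 5002 * nJ n / 10000) :
    (2 : ℝ) ^ (2 * (n - nJ n)) * ((2 : ℝ) ^ (m - 3 * wc m) * wM τ (wc m)) ≤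
      (2 : ℝ) ^ ((τ / 3 - 0.0004) * n) := by
  have h3 : 3 * wc m ≤ m := by unfold wc; omega
  have e1 : (2 : ℝ) ^ (2 * (n - nJ n)) = (2 : ℝ) ^ (2 * ((n - nJ n : ℕ) : ℝ)) := by
    rw [← Real.rpow_natCast]
    push_cast
    rfl
  have e2 : (2 : ℝ) ^ (m - 3 * wc m) = (2 : ℝ) ^ ((m : ℝ) - 3 * (wc m : ℝ)) := by
    rw [← Real.rpow_natCast, Nat.cast_sub h3]
    push_cast
    rfl
  rw [e1, e2]
  have h4 := wM_le (τ := τ) (by linarith) (wc m)
  have hn' : (10 : ℝ) ^ 16 ≤ n := by exact_mod_cast hn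
  calc (2 : ℝ) ^ (2 * ((n - nJ n : ℕ) : ℝ)) * ((2 : ℝ) ^ ((m : ℝ) - 3 * (wc m : ℝ)) * wM τ (wc m))
      ≤ (2 : ℝ) ^ (2 * ((n - nJ n : ℕ) : ℝ)) * ((2 : ℝ) ^ ((m : ℝ) - 3 * (wc m : ℝ)) *
        (2 : ℝ) ^ (τ * ((wc m : ℝ) + 1))) := by gcongr
    _ = (2 : ℝ) ^ (2 * ((n - nJ n : ℕ) : ℝ) + ((m : ℝ) - 3 * (wc m : ℝ) + τ * ((wc m : ℝ) + 1))) := by
        rw [Real.rpow_add (by norm_num), Real.rpow_add (by norm_num)]
    _ ≤ (2 : ℝ) ^ ((τ / 3 - 0.0004) * n) := by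
        apply Real.rpow_le_rpow_of_exponent_le (by norm_num)
        have a1 := sub_real n
        have a2 := m_real hm
        obtain ⟨a3, a4⟩ := wc_real m
        have hm0 : (0 : ℝ) ≤ m := Nat.cast_nonneg m
        have key : (m : ℝ) - 3 * (wc m : ℝ) + τ * ((wc m : ℝ) + 1) ≤
            (m : ℝ) * (1 + 0.1298 * (τ - 3)) + τ + 3 := by
          rcases le_total τ 3 with h | h
          · nlinarith [mul_nonneg (sub_nonneg.2 h) (sub_nonneg.2 a4)]
          · nlinarith [mul_nonneg (sub_nonneg.2 h) (sub_nonneg.2 a3)]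
        have key2 : (m : ℝ) * (1 + 0.1298 * (τ - 3)) ≤ 0.39370742 * n * (1 + 0.1298 * (τ - 3)) := by
          apply mul_le_mul_of_nonneg_right a2
          nlinarith
        have hs : 0 ≤ (τ - 2.362) * ((n : ℝ) - 10 ^ 16) :=
          mul_nonneg (by linarith) (by linarith)
        nlinarith

/-- The time for maximizing, for a short list. -/
theorem num_best (hτ : 2.362 ≤ τ) (hn : 10 ^ 16 ≤ n) (hm : m ≤ 5002 * nJ n / 10000) :
    (2 : ℝ) ^ (2 * (n - nJ n)) * ((2 : ℝ) ^ w0 n * ((2 : ℝ) ^ (m - 3 * (m / 3)) * wM τ (m / 3))) ≤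
      (2 : ℝ) ^ ((τ / 3 - 0.0004) * n) := by
  have e1 : (2 : ℝ) ^ (2 * (n - nJ n)) = (2 : ℝ) ^ (2 * ((n - nJ n : ℕ) : ℝ)) := by
    rw [← Real.rpow_natCast]
    push_cast
    rfl
  have e2 : (2 : ℝ) ^ (m - 3 * (m / 3)) ≤ (2 : ℝ) ^ (2 : ℝ) := by
    rw [← Real.rpow_natCast]
    apply Real.rpow_le_rpow_of_exponent_le (by norm_num)
    have : m - 3 * (m / 3) ≤ 2 := by omega
    exact_mod_cast this
  have e3 : (2 : ℝ) ^ w0 n = (2 : ℝ) ^ ((w0 n : ℕ) : ℝ) := (Real.rpow_natCast _ _).symm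
  rw [e1, e3]
  have h4 := wM_le (τ := τ) (by linarith) (m / 3)
  have h5 : (0 : ℝ) ≤ wM τ (m / 3) := by unfold wM; positivity
  have hn' : (10 : ℝ) ^ 16 ≤ n := by exact_mod_cast hn
  calc (2 : ℝ) ^ (2 * ((n - nJ n : ℕ) : ℝ)) * ((2 : ℝ) ^ ((w0 n : ℕ) : ℝ) *
        ((2 : ℝ) ^ (m - 3 * (m / 3)) * wM τ (m / 3)))
      ≤ (2 : ℝ) ^ (2 * ((n - nJ n : ℕ) : ℝ)) * ((2 : ℝ) ^ ((w0 n : ℕ) : ℝ) *
        ((2 : ℝ) ^ (2 : ℝ) * (2 : ℝ) ^ (τ * (((m / 3 : ℕ) : ℝ) + 1)))) := by gcongr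
    _ = (2 : ℝ) ^ (2 * ((n - nJ n : ℕ) : ℝ) + (((w0 n : ℕ) : ℝ) + (2 + τ * (((m / 3 : ℕ) : ℝ) + 1)))) := by
        rw [Real.rpow_add (by norm_num), Real.rpow_add (by norm_num), Real.rpow_add (by norm_num)]
    _ ≤ (2 : ℝ) ^ ((τ / 3 - 0.0004) * n) := by
        apply Real.rpow_le_rpow_of_exponent_le (by norm_num)
        have a1 := sub_real n
        have a2 := m_real hm
        have a3 : ((w0 n : ℕ) : ℝ) ≤ 0.1298 * (0.39370742 * n) := by
          have b1 := (wc_real (5002 * nJ n / 10000)).1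
          have b2 := m_real (n := n) (m := 5002 * nJ n / 10000) le_rfl
          unfold w0
          linarith
        have a4 : ((m / 3 : ℕ) : ℝ) * 3 ≤ m := by exact_mod_cast Nat.div_mul_le_self m 3
        have a5 : τ * (((m / 3 : ℕ) : ℝ) + 1) ≤ τ * (0.39370742 * n / 3 + 1) := by
          apply mul_le_mul_of_nonneg_left _ (by linarith)
          linarith
        have hs : 0 ≤ (τ - 2.362) * ((n : ℝ) - 10 ^ 16) :=
          mul_nonneg (by linarith) (by linarith)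
        nlinarith

/-- The time for one region. -/
theorem num_reg (hτ : 2.362 ≤ τ) (n : ℕ) : (2 : ℝ) ^ nJ n ≤ (2 : ℝ) ^ ((τ / 3 - 0.0002) * n) := by
  rw [← Real.rpow_natCast]
  apply Real.rpow_le_rpow_of_exponent_le (by norm_num)
  have h1 := (nJ_real n).1
  have hn : (0 : ℝ) ≤ n := Nat.cast_nonneg n
  nlinarith

/-- The number of sets. -/
theorem num_sets (hτ : 2.362 ≤ τ) (n : ℕ) :
    (2 : ℝ) ^ (2 * (n - nJ n)) ≤ 4 * (2 : ℝ) ^ ((τ / 3 - 0.3) * n) := by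
  have e1 : (2 : ℝ) ^ (2 * (n - nJ n)) = (2 : ℝ) ^ (2 * ((n - nJ n : ℕ) : ℝ)) := by
    rw [← Real.rpow_natCast]
    push_cast
    rfl
  have e2 : (4 : ℝ) = (2 : ℝ) ^ (2 : ℝ) := by norm_num
  rw [e1, e2, ← Real.rpow_add (by norm_num)]
  apply Real.rpow_le_rpow_of_exponent_le (by norm_num)
  have a1 := sub_real n
  have hn : (0 : ℝ) ≤ n := Nat.cast_nonneg n
  nlinarith

end Pool.Agent.MPa9445a.DB
end

section

/-! The decomposition of the vectors of a state into base and three parts. -/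

set_option autoImplicit false

open Finset

namespace Pool.Agent.MPa9445a.DB

open Pool.Agent.MPa9445a.BE (gt bit tb flt lin Phi vec code argmax matMul wtm fv)
open Pool.Agent.MPa9445a.GD (itr fm)
open Pool.Agent.MPa9445a.GL (rk sv xv laL rhL lvv LL Wb Vc S St Ph Lv lvl)

variable {n : ℕ} {M s : List ℤ} {w : ℕ}

/-- The digits of a number with two parts. -/
private theorem P1_bit (x y i : ℕ) (hx : x < 2 ^ w) :
    bit (x + 2 ^ w * y) i = if i < w then bit x i else bit y (i - w) := by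
  rw [bit_testBit, add_comm, Nat.testBit_two_pow_mul_add _ hx]
  split_ifs <;> simp_all [bit_testBit]

private theorem P1_inj {x y x' y' : ℕ} (hx : x < 2 ^ w) (hx' : x' < 2 ^ w)
    (h : x + 2 ^ w * y = x' + 2 ^ w * y') : x = x' ∧ y = y' := by
  have h1 := congrArg (fun z => z % 2 ^ w) h
  simp only [Nat.add_mul_mod_self_left, Nat.mod_eq_of_lt hx, Nat.mod_eq_of_lt hx'] at h1
  subst h1
  have h2 : 2 ^ w * y = 2 ^ w * y' := by omega
  exact ⟨rfl, Nat.eq_of_mul_eq_mul_left (by positivity) h2⟩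

private theorem P1_lt {x y K : ℕ} (hx : x < 2 ^ w) (hy : y < K) : x + 2 ^ w * y < 2 ^ w * K := by
  calc x + 2 ^ w * y < 2 ^ w + 2 ^ w * y := by omega
    _ = 2 ^ w * (y + 1) := by ring
    _ ≤ 2 ^ w * K := Nat.mul_le_mul_left _ hy

private theorem P1_pt (i k c : ℕ) (v : Fin n) : fv n (pt n s i k c) v =
    if gt s v = 2 ∧ i ≤ rk s v ∧ rk s v < i + k then 2 * (bit c (rk s v - i) : ℤ) - 1 else 0 := by
  unfold pt
  rw [BE.fv_tb]

private theorem P1_bs (c : ℕ) (v : Fin n) : fv n (bs n s w c) v =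
    if gt s v = 2 then (if 3 * w ≤ rk s v then 2 * (bit c (rk s v - 3 * w) : ℤ) - 1 else 0)
      else gt s v := by
  unfold bs
  rw [BE.fv_tb]

private theorem P1_bA (c a : ℕ) (v : Fin n) : fv n (bA n s w c a) v =
    fv n (bs n s w c) v + fv n (pt n s 0 w a) v := by
  unfold bA
  rw [BE.fv_lin]
  simp only [one_mul]

private theorem P1_bC (c a d : ℕ) (v : Fin n) : fv n (bC n s w c a d) v =
    fv n (bA n s w c a) v + fv n (pt n s (2 * w) w d) v := by
  unfold bC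
  rw [BE.fv_lin]
  simp only [one_mul]

private theorem P1_dig (c i : ℕ) : |2 * (bit c i : ℤ) - 1| ≤ 1 := by
  rcases bit_01 c i with h | h <;> rw [h] <;> norm_num

/-- At most one of the three parts is not `0`. -/
private theorem P1_abs (hs : St (fv n s)) (c a b d : ℕ) (v : Fin n) :
    |fv n (bA n s w c a) v| + |fv n (pt n s w w b) v| + |fv n (pt n s (2 * w) w d) v| ≤ 1 := by
  rw [P1_bA, P1_bs, P1_pt, P1_pt, P1_pt]
  have hdc := P1_dig c (rk s v - 3 * w)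
  have hda := P1_dig a (rk s v - 0)
  have hdb := P1_dig b (rk s v - w)
  have hdd := P1_dig d (rk s v - 2 * w)
  by_cases h2 : gt s (v : ℕ) = 2
  · rcases lt_or_ge (rk s v) w with h | h
    · rw [if_pos h2, if_neg (by omega), if_pos ⟨h2, by omega, by omega⟩, if_neg (by omega),
        if_neg (by omega)]
      simpa using hda
    · rcases lt_or_ge (rk s v) (2 * w) with h' | h'
      · rw [if_pos h2, if_neg (by omega), if_neg (by omega), if_pos ⟨h2, by omega, by omega⟩,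
          if_neg (by omega)]
        simpa using hdb
      · rcases lt_or_ge (rk s v) (3 * w) with h'' | h''
        · rw [if_pos h2, if_neg (by omega), if_neg (by omega), if_neg (by omega),
            if_pos ⟨h2, by omega, by omega⟩]
          simpa using hdd
        · rw [if_pos h2, if_pos h'', if_neg (by omega), if_neg (by omega), if_neg (by omega)]
          simpa using hdc
  · have h3 : fv n s v = 0 ∨ fv n s v = 1 ∨ fv n s v = -1 ∨ fv n s v = 2 := hs v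
    have h4 : fv n s v = gt s (v : ℕ) := rfl
    rw [h4] at h3
    rw [if_neg h2, if_neg (fun h => h2 h.1), if_neg (fun h => h2 h.1), if_neg (fun h => h2 h.1)]
    rcases h3 with h | h | h | h
    · rw [h]
      norm_num
    · rw [h]
      norm_num
    · rw [h]
      norm_num
    · exact absurd h h2

/-- The vector with the four parts. PROOF. Entries. `xv n s u` has the entry `2 bit u (rk s v) - 1` at a free `v`; the digit `i` of
`a + 2 ^ w * (b + 2 ^ w * (d + 2 ^ w * c))` is that of `a`, `b`, `d`, `c` for `i < w`, `i < 2 w`, `i < 3 w`, `3 w ≤ i`. -/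
theorem xv_dec {a b d : ℕ} (c : ℕ) (ha : a < 2 ^ w) (hb : b < 2 ^ w) (hd : d < 2 ^ w) :
    fv n (lin n 1 (bC n s w c a d) 1 (pt n s w w b)) =
      fv n (xv n s (a + 2 ^ w * (b + 2 ^ w * (d + 2 ^ w * c)))) := by
  funext v
  rw [BE.fv_lin]
  simp only [one_mul]
  rw [P1_bC, P1_bA, P1_bs, P1_pt, P1_pt, P1_pt]
  unfold xv
  rw [BE.fv_tb, P1_bit _ _ _ ha, P1_bit _ _ _ hb, P1_bit _ _ _ hd]
  by_cases h2 : gt s (v : ℕ) = 2
  · rcases lt_or_ge (rk s v) w with h | h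
    · rw [if_pos h2, if_neg (by omega), if_pos ⟨h2, by omega, by omega⟩, if_neg (by omega),
        if_neg (by omega), if_pos h2, if_pos h]
      simp
    · rcases lt_or_ge (rk s v) (2 * w) with h' | h'
      · rw [if_pos h2, if_neg (by omega), if_neg (by omega),
          if_neg (by omega), if_pos ⟨h2, by omega, by omega⟩, if_pos h2, if_neg (by omega),
          if_pos (by omega)]
        simp
      · rcases lt_or_ge (rk s v) (3 * w) with h'' | h''
        · rw [if_pos h2, if_neg (by omega), if_neg (by omega), if_pos ⟨h2, by omega, by omega⟩,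
            if_neg (by omega), if_pos h2, if_neg (by omega), if_neg (by omega), if_pos (by omega)]
          have e : rk s v - w - w = rk s v - 2 * w := by omega
          rw [e]
          simp
        · rw [if_pos h2, if_pos h'', if_neg (by omega), if_neg (by omega), if_neg (by omega),
            if_pos h2, if_neg (by omega), if_neg (by omega), if_neg (by omega)]
          have e : rk s v - w - w - w = rk s v - 3 * w := by omega
          rw [e]
          simp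
  · rw [if_neg h2, if_neg (fun h => h2 h.1), if_neg (fun h => h2 h.1), if_neg (fun h => h2 h.1),
      if_neg h2]
    simp

/-- The value. PROOF. `Phi` is a quadratic form (`BW.Phi_lin`, `BW.bq_three`). -/
theorem Phi_dec (c a b d : ℕ) : Phi n M (lin n 1 (bC n s w c a d) 1 (pt n s w w b)) =
    Phi n M (bC n s w c a d) +
      (Phi n M (lin n 1 (bA n s w c a) 1 (pt n s w w b)) - Phi n M (bA n s w c a)) +
      (Phi n M (lin n 1 (pt n s w w b) 1 (pt n s (2 * w) w d)) - Phi n M (pt n s w w b) -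
        Phi n M (pt n s (2 * w) w d)) := by
  have hC : fv n (bC n s w c a d) =
      fun v => fv n (bA n s w c a) v + fv n (pt n s (2 * w) w d) v := funext fun v => P1_bC c a d v
  rw [BW.Phi_lin, BW.Phi_lin, BW.Phi_lin, BW.Phi_eq n M (bC n s w c a d), BW.Phi_eq, BW.Phi_eq,
    BW.Phi_eq, hC]
  exact BW.bq_three (wtm n M) (fv n (bA n s w c a)) (fv n (pt n s w w b))
    (fv n (pt n s (2 * w) w d))

/-- The two summands are small. PROOF. The entries of all vectors are `0, 1, -1` if `St (fv n s)`; `BW.bq_bd`. -/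
theorem al_abs (hn : 0 < n) (hM : ∀ x ∈ M, |x| ≤ 1) (hs : St (fv n s)) (c a b : ℕ) :
    |Phi n M (lin n 1 (bA n s w c a) 1 (pt n s w w b)) - Phi n M (bA n s w c a)| ≤ 8 * (n : ℤ) ^ 4 := by
  rw [BW.Phi_lin, BW.Phi_eq]
  have h0 : (0 : ℤ) ≤ (n : ℤ) ^ 4 := by positivity
  have h1 : |BE.bq (wtm n M) (fun v => fv n (bA n s w c a) v + fv n (pt n s w w b) v)
      (fun v => fv n (bA n s w c a) v + fv n (pt n s w w b) v)| ≤ 2 * (n : ℤ) ^ 4 := by
    refine BW.bq_bd hn hM fun v => ?_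
    have h := P1_abs (w := w) hs c a b 0 v
    have h3 := abs_nonneg (fv n (pt n s (2 * w) w 0) v)
    exact (abs_add_le _ _).trans (by linarith)
  have h2 : |BE.bq (wtm n M) (fv n (bA n s w c a)) (fv n (bA n s w c a))| ≤ 2 * (n : ℤ) ^ 4 := by
    refine BW.bq_bd hn hM fun v => ?_
    have h := P1_abs (w := w) hs c a b 0 v
    have h3 := abs_nonneg (fv n (pt n s (2 * w) w 0) v)
    have h4 := abs_nonneg (fv n (pt n s w w b) v)
    linarith
  rw [abs_le] at *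
  constructor <;> linarith [h1.1, h1.2, h2.1, h2.2]

theorem be_abs (hn : 0 < n) (hM : ∀ x ∈ M, |x| ≤ 1) (hs : St (fv n s)) (b d : ℕ) :
    |Phi n M (lin n 1 (pt n s w w b) 1 (pt n s (2 * w) w d)) - Phi n M (pt n s w w b) -
        Phi n M (pt n s (2 * w) w d)| ≤ 8 * (n : ℤ) ^ 4 := by
  rw [BW.Phi_lin, BW.Phi_eq, BW.Phi_eq]
  have h0 : (0 : ℤ) ≤ (n : ℤ) ^ 4 := by positivity
  have h1 : |BE.bq (wtm n M) (fun v => fv n (pt n s w w b) v + fv n (pt n s (2 * w) w d) v)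
      (fun v => fv n (pt n s w w b) v + fv n (pt n s (2 * w) w d) v)| ≤ 2 * (n : ℤ) ^ 4 := by
    refine BW.bq_bd hn hM fun v => ?_
    have h := P1_abs (w := w) hs 0 0 b d v
    have h3 := abs_nonneg (fv n (bA n s w 0 0) v)
    exact (abs_add_le _ _).trans (by linarith)
  have h2 : |BE.bq (wtm n M) (fv n (pt n s w w b)) (fv n (pt n s w w b))| ≤ 2 * (n : ℤ) ^ 4 := by
    refine BW.bq_bd hn hM fun v => ?_
    have h := P1_abs (w := w) hs 0 0 b d v
    have h3 := abs_nonneg (fv n (bA n s w 0 0) v)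
    have h4 := abs_nonneg (fv n (pt n s (2 * w) w d) v)
    linarith
  have h3 : |BE.bq (wtm n M) (fv n (pt n s (2 * w) w d)) (fv n (pt n s (2 * w) w d))| ≤
      2 * (n : ℤ) ^ 4 := by
    refine BW.bq_bd hn hM fun v => ?_
    have h := P1_abs (w := w) hs 0 0 b d v
    have h3 := abs_nonneg (fv n (bA n s w 0 0) v)
    have h4 := abs_nonneg (fv n (pt n s w w b) v)
    linarith
  rw [abs_le] at *
  constructor <;> linarith [h1.1, h1.2, h2.1, h2.2, h3.1, h3.2]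

theorem bC_abs (hn : 0 < n) (hM : ∀ x ∈ M, |x| ≤ 1) (hs : St (fv n s)) (c a d : ℕ) :
    |Phi n M (bC n s w c a d)| ≤ 2 * (n : ℤ) ^ 4 := by
  rw [BW.Phi_eq]
  refine BW.bq_bd hn hM fun v => ?_
  rw [P1_bC]
  have h := P1_abs (w := w) hs c a 0 d v
  have h3 := abs_nonneg (fv n (pt n s w w 0) v)
  exact (abs_add_le _ _).trans (by linarith)

/-- Every index. PROOF. `u = a + 2 ^ w * (b + 2 ^ w * (d + 2 ^ w * c))` by division with remainder. -/
theorem exists_dec (hw : 3 * w ≤ rk s n) {u : ℕ} (hu : u < 2 ^ rk s n) :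
    ∃ c < 2 ^ (rk s n - 3 * w), ∃ a < 2 ^ w, ∃ b < 2 ^ w, ∃ d < 2 ^ w,
      u = a + 2 ^ w * (b + 2 ^ w * (d + 2 ^ w * c)) := by
  have hp : 0 < 2 ^ w := by positivity
  refine ⟨u / 2 ^ w / 2 ^ w / 2 ^ w, ?_, u % 2 ^ w, Nat.mod_lt _ hp, u / 2 ^ w % 2 ^ w,
    Nat.mod_lt _ hp, u / 2 ^ w / 2 ^ w % 2 ^ w, Nat.mod_lt _ hp, ?_⟩
  · rw [Nat.div_div_eq_div_mul, Nat.div_div_eq_div_mul, Nat.div_lt_iff_lt_mul (by positivity)]
    have e : 2 ^ rk s n = 2 ^ (rk s n - 3 * w) * (2 ^ w * (2 ^ w * 2 ^ w)) := by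
      rw [← pow_add, ← pow_add, ← pow_add]
      congr 1
      omega
    rw [e] at hu
    calc u < _ := hu
      _ = _ := by ring
  · rw [Nat.mod_add_div, Nat.mod_add_div, Nat.mod_add_div]

theorem dec_lt (hw : 3 * w ≤ rk s n) {a b c d : ℕ} (hc : c < 2 ^ (rk s n - 3 * w)) (ha : a < 2 ^ w)
    (hb : b < 2 ^ w) (hd : d < 2 ^ w) :
    a + 2 ^ w * (b + 2 ^ w * (d + 2 ^ w * c)) < 2 ^ rk s n := by
  have e : 2 ^ rk s n = 2 ^ w * (2 ^ w * (2 ^ w * 2 ^ (rk s n - 3 * w))) := by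
    rw [← pow_add, ← pow_add, ← pow_add]
    congr 1
    omega
  rw [e]
  exact P1_lt ha (P1_lt hb (P1_lt hd hc))

theorem dec_inj {a b c d a' b' c' d' : ℕ} (ha : a < 2 ^ w) (hb : b < 2 ^ w) (hd : d < 2 ^ w)
    (ha' : a' < 2 ^ w) (hb' : b' < 2 ^ w) (hd' : d' < 2 ^ w)
    (h : a + 2 ^ w * (b + 2 ^ w * (d + 2 ^ w * c)) = a' + 2 ^ w * (b' + 2 ^ w * (d' + 2 ^ w * c'))) :
    a = a' ∧ b = b' ∧ c = c' ∧ d = d' := by
  obtain ⟨h1, h2⟩ := P1_inj ha ha' h
  obtain ⟨h3, h4⟩ := P1_inj hb hb' h2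
  obtain ⟨h5, h6⟩ := P1_inj hd hd' h4
  exact ⟨h1, h3, h6, h5⟩

end Pool.Agent.MPa9445a.DB
end

section

/-! The matrix product and the indices. -/

set_option autoImplicit false

open Finset

namespace Pool.Agent.MPa9445a.DB

open Pool.Agent.MPa9445a.BE (gt bit tb flt lin Phi vec code argmax matMul wtm fv)
open Pool.Agent.MPa9445a.GD (itr fm)
open Pool.Agent.MPa9445a.GL (rk sv xv laL rhL lvv LL Wb Vc S St Ph Lv lvl)

variable {n : ℕ} {M s : List ℤ} {w : ℕ}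

/-- The condition of the first matrix. -/
def cA (n : ℕ) (M s : List ℤ) (w c a b : ℕ) : ℤ :=
  Phi n M (lin n 1 (bA n s w c a) 1 (pt n s w w b)) - Phi n M (bA n s w c a)

/-- The condition of the second matrix. -/
def cC (n : ℕ) (M s : List ℤ) (w b d : ℕ) : ℤ :=
  Phi n M (lin n 1 (pt n s w w b) 1 (pt n s (2 * w) w d)) - Phi n M (pt n s w w b) -
    Phi n M (pt n s (2 * w) w d)

private theorem P2_lt {w a b : ℕ} (ha : a < 2 ^ w) (hb : b < 2 ^ w) : a * 2 ^ w + b < 2 ^ w * 2 ^ w := by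
  calc a * 2 ^ w + b < a * 2 ^ w + 2 ^ w := by omega
    _ = (a + 1) * 2 ^ w := by ring
    _ ≤ 2 ^ w * 2 ^ w := Nat.mul_le_mul_right _ ha

private theorem P2_div {w a b : ℕ} (hb : b < 2 ^ w) : (a * 2 ^ w + b) / 2 ^ w = a := by
  rw [mul_comm, Nat.mul_add_div (by positivity), Nat.div_eq_of_lt hb, add_zero]

private theorem P2_mod {w a b : ℕ} (hb : b < 2 ^ w) : (a * 2 ^ w + b) % 2 ^ w = b := by
  rw [mul_comm, Nat.mul_add_mod, Nat.mod_eq_of_lt hb]

private theorem P2_sum {β : Type} [AddCommMonoid β] (F : ℕ → β) (a b : ℕ) :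
    ∑ x ∈ range (a * b), F x = ∑ y ∈ range b, ∑ i ∈ range a, F (i + a * y) := by
  induction b with
  | zero => simp
  | succ b ih =>
    rw [Nat.mul_succ, Finset.sum_range_add, ih, Finset.sum_range_succ]
    congr 1
    refine Finset.sum_congr rfl fun i _ => ?_
    rw [add_comm]

theorem m1_get {c a b : ℕ} {α : ℤ} (ha : a < 2 ^ w) (hb : b < 2 ^ w) :
    gt (m1 n M s w c α) (a * 2 ^ w + b) = if cA n M s w c a b = α then 1 else 0 := by
  unfold m1
  show (tb _ _).getD _ 0 = _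
  rw [BE.getD_tb, if_pos (P2_lt ha hb), P2_div hb, P2_mod hb]
  rfl

theorem m2_get {b d : ℕ} {β : ℤ} (hb : b < 2 ^ w) (hd : d < 2 ^ w) :
    gt (m2 n M s w β) (b * 2 ^ w + d) = if cC n M s w b d = β then 1 else 0 := by
  unfold m2
  show (tb _ _).getD _ 0 = _
  rw [BE.getD_tb, if_pos (P2_lt hb hd), P2_div hd, P2_mod hd]
  rfl

/-- PROOF. `BE.getD_matMul`. -/
theorem mp_get {c a d : ℕ} {α β : ℤ} (ha : a < 2 ^ w) (hd : d < 2 ^ w) :
    gt (mp n M s w c α β) (a * 2 ^ w + d) =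
      ((range (2 ^ w)).filter fun b => cA n M s w c a b = α ∧ cC n M s w b d = β).card := by
  unfold mp
  show (matMul _ _ _).getD _ 0 = _
  rw [BE.getD_matMul _ _ _ ha hd, Finset.card_filter, Nat.cast_sum]
  refine Finset.sum_congr rfl fun b hb => ?_
  have hb' := Finset.mem_range.mp hb
  have h1 := m1_get (n := n) (M := M) (s := s) (c := c) (α := α) ha hb'
  have h2 := m2_get (n := n) (M := M) (s := s) (β := β) hb' hd
  unfold gt at h1 h2
  rw [h1, h2]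
  by_cases h3 : cA n M s w c a b = α <;> by_cases h4 : cC n M s w b d = β <;> simp [h3, h4]

/-- The number of values. -/
def nL (n : ℕ) : ℕ := 16 * n ^ 4 + 1

/-- The index with the base `c` and the values number `i`, `j`. -/
theorem idx_lt {c i j : ℕ} (hc : c < 2 ^ (rk s n - 3 * w)) (hi : i < nL n) (hj : j < nL n) :
    i + nL n * (j + nL n * c) < nX n s w := by
  have h1 : j + nL n * c < nL n * 2 ^ (rk s n - 3 * w) := by
    calc j + nL n * c < nL n + nL n * c := by omega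
      _ = nL n * (c + 1) := by ring
      _ ≤ nL n * 2 ^ (rk s n - 3 * w) := Nat.mul_le_mul_left _ hc
  calc i + nL n * (j + nL n * c) < nL n + nL n * (j + nL n * c) := by omega
    _ = nL n * ((j + nL n * c) + 1) := by ring
    _ ≤ nL n * (nL n * 2 ^ (rk s n - 3 * w)) := Nat.mul_le_mul_left _ h1
    _ = nX n s w := by
      unfold nX nL
      ring

theorem idx_eq {c i j : ℕ} (hi : i < nL n) (hj : j < nL n) :
    iC n (i + nL n * (j + nL n * c)) = c ∧
      rA n (i + nL n * (j + nL n * c)) = (i : ℤ) - 8 * (n : ℤ) ^ 4 ∧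
      rA n ((i + nL n * (j + nL n * c)) / nL n) = (j : ℤ) - 8 * (n : ℤ) ^ 4 := by
  have hL : 0 < nL n := by
    unfold nL
    omega
  have h1 : (i + nL n * (j + nL n * c)) / nL n = j + nL n * c := by
    rw [Nat.add_mul_div_left _ _ hL, Nat.div_eq_of_lt hi, zero_add]
  have h2 : (i + nL n * (j + nL n * c)) % nL n = i := by
    rw [Nat.add_mul_mod_self_left, Nat.mod_eq_of_lt hi]
  have h3 : (j + nL n * c) / nL n = c := by
    rw [Nat.add_mul_div_left _ _ hL, Nat.div_eq_of_lt hj, zero_add]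
  have h4 : (j + nL n * c) % nL n = j := by
    rw [Nat.add_mul_mod_self_left, Nat.mod_eq_of_lt hj]
  refine ⟨?_, ?_, ?_⟩
  · show (i + nL n * (j + nL n * c)) / (nL n * nL n) = c
    rw [← Nat.div_div_eq_div_mul, h1, h3]
  · show (((i + nL n * (j + nL n * c)) % nL n : ℕ) : ℤ) - 8 * (n : ℤ) ^ 4 = _
    rw [h2]
  · show ((((i + nL n * (j + nL n * c)) / nL n) % nL n : ℕ) : ℤ) - 8 * (n : ℤ) ^ 4 = _
    rw [h1, h4]

/-- Every index. -/
theorem exists_idx {x : ℕ} (hx : x < nX n s w) : ∃ c < 2 ^ (rk s n - 3 * w), ∃ i < nL n, ∃ j < nL n,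
    x = i + nL n * (j + nL n * c) := by
  have hL : 0 < nL n := by
    unfold nL
    omega
  have hx' : x < nL n * nL n * 2 ^ (rk s n - 3 * w) := by
    refine hx.trans_eq ?_
    unfold nX nL
    ring
  refine ⟨x / nL n / nL n, ?_, x % nL n, Nat.mod_lt _ hL, x / nL n % nL n, Nat.mod_lt _ hL, ?_⟩
  · rw [Nat.div_div_eq_div_mul]
    exact Nat.div_lt_of_lt_mul hx'
  · rw [Nat.mod_add_div, Nat.mod_add_div]

/-- Sums over the indices. PROOF. Division with remainder twice. -/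
theorem sum_idx {β : Type} [AddCommMonoid β] (F : ℕ → β) :
    ∑ x ∈ range (nX n s w), F x = ∑ c ∈ range (2 ^ (rk s n - 3 * w)),
      ∑ i ∈ range (nL n), ∑ j ∈ range (nL n), F (i + nL n * (j + nL n * c)) := by
  have h : nX n s w = nL n * (nL n * 2 ^ (rk s n - 3 * w)) := by
    unfold nX nL
    ring
  rw [h, P2_sum, P2_sum]
  refine Finset.sum_congr rfl fun c _ => ?_
  rw [Finset.sum_comm]

/-- The index of the values of a vector. PROOF. `idx_lt`, `idx_eq`, `al_abs`, `be_abs`. -/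
theorem exists_val (hn : 0 < n) (hM : ∀ x ∈ M, |x| ≤ 1) (hs : St (fv n s)) {c : ℕ} (a b d : ℕ)
    (hc : c < 2 ^ (rk s n - 3 * w)) : ∃ x < nX n s w, iC n x = c ∧ rA n x = cA n M s w c a b ∧
      rA n (x / (16 * n ^ 4 + 1)) = cC n M s w b d := by
  have h1 : |cA n M s w c a b| ≤ 8 * (n : ℤ) ^ 4 := al_abs hn hM hs c a b
  have h2 : |cC n M s w b d| ≤ 8 * (n : ℤ) ^ 4 := be_abs hn hM hs b d
  rw [abs_le] at h1 h2
  obtain ⟨i, hi⟩ := Int.eq_ofNat_of_zero_le (a := cA n M s w c a b + 8 * (n : ℤ) ^ 4) (by linarith)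
  obtain ⟨j, hj⟩ := Int.eq_ofNat_of_zero_le (a := cC n M s w b d + 8 * (n : ℤ) ^ 4) (by linarith)
  have hi' : i < nL n := by
    unfold nL
    zify
    linarith
  have hj' : j < nL n := by
    unfold nL
    zify
    linarith
  obtain ⟨e1, e2, e3⟩ := idx_eq (n := n) (c := c) hi' hj'
  refine ⟨i + nL n * (j + nL n * c), idx_lt hc hi' hj', e1, ?_, ?_⟩
  · rw [e2]
    linarith
  · refine Eq.trans ?_ (e3.trans ?_)
    · rfl
    · linarith

end Pool.Agent.MPa9445a.DB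
end
end

section

section

/-! Counting the vectors of a level by matrix products. -/

set_option autoImplicit false

open Finset

namespace Pool.Agent.MPa9445a.DB

open Pool.Agent.MPa9445a.BE (gt bit tb flt lin Phi vec code argmax matMul wtm fv)
open Pool.Agent.MPa9445a.GD (itr fm)
open Pool.Agent.MPa9445a.GL (rk sv xv laL rhL lvv LL Wb Vc S St Ph Lv lvl)

variable {n : ℕ} {M s : List ℤ} {w : ℕ}

/-- Sums over pairs, the second entry is the remainder. -/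
private theorem P3_sum_mul (A B : ℕ) (F : ℕ → ℤ) :
    ∑ x ∈ range (A * B), F x = ∑ a ∈ range A, ∑ d ∈ range B, F (a * B + d) := by
  induction A with
  | zero => simp
  | succ A ih =>
    rw [Finset.sum_range_succ, ← ih, Nat.succ_mul, Finset.sum_range_add]

/-- Sums over pairs, the first entry is the remainder. -/
private theorem P3_sum_mul' (A B : ℕ) (F : ℕ → ℤ) :
    ∑ x ∈ range (A * B), F x = ∑ v ∈ range B, ∑ a ∈ range A, F (a + A * v) := by
  rw [Nat.mul_comm, P3_sum_mul]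
  refine Finset.sum_congr rfl fun v _ => Finset.sum_congr rfl fun a _ => ?_
  rw [Nat.mul_comm v A, Nat.add_comm]

/-- Exactly one number has the value `z`. -/
private theorem P3_one {K z : ℤ} {L : ℕ} (hK : 0 ≤ K) (hL : (L : ℤ) = 2 * K + 1) (hz : |z| ≤ K) (X : ℤ) :
    ∑ i ∈ range L, (if z = (i : ℤ) - K then X else 0) = X := by
  have h := abs_le.1 hz
  rw [Finset.sum_eq_single ((z + K).toNat)]
  · rw [if_pos]
    omega
  · intro b _ hb
    rw [if_neg]
    intro h1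
    apply hb
    omega
  · intro h1
    exfalso
    apply h1
    rw [Finset.mem_range]
    omega

/-- The sum over the pairs of values. -/
private theorem P3_two {K z z' : ℤ} {L : ℕ} (hK : 0 ≤ K) (hL : (L : ℤ) = 2 * K + 1) (hz : |z| ≤ K)
    (hz' : |z'| ≤ K) (P p : ℤ) :
    ∑ i ∈ range L, ∑ j ∈ range L,
      (if P + ((i : ℤ) - K) + ((j : ℤ) - K) = p then
        (if z = (i : ℤ) - K ∧ z' = (j : ℤ) - K then (1 : ℤ) else 0) else 0) =
      if P + z + z' = p then 1 else 0 := by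
  have h1 : ∀ i ∈ range L, ∀ j ∈ range L,
      (if P + ((i : ℤ) - K) + ((j : ℤ) - K) = p then
        (if z = (i : ℤ) - K ∧ z' = (j : ℤ) - K then (1 : ℤ) else 0) else 0) =
      if z' = (j : ℤ) - K then (if z = (i : ℤ) - K then (if P + z + z' = p then (1 : ℤ) else 0) else 0)
        else 0 := by
    intro i _ j _
    by_cases h2 : z' = (j : ℤ) - K
    · by_cases h3 : z = (i : ℤ) - K
      · rw [← h2, ← h3]
        simp
      · rw [if_pos h2, if_neg h3]
        rw [if_neg (c := z = (i : ℤ) - K ∧ z' = (j : ℤ) - K) (fun h => h3 h.1)]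
        simp
    · rw [if_neg h2]
      rw [if_neg (c := z = (i : ℤ) - K ∧ z' = (j : ℤ) - K) (fun h => h2 h.2)]
      simp
  rw [Finset.sum_congr rfl fun i hi => Finset.sum_congr rfl (h1 i hi)]
  rw [Finset.sum_congr rfl fun (i : ℕ) _ => P3_one hK hL hz'
    (if z = (i : ℤ) - K then (if P + z + z' = p then (1 : ℤ) else 0) else 0)]
  exact P3_one hK hL hz _

/-- The terms of the sum. -/
private theorem P3_term {c i j a d : ℕ} (p : ℤ) (hi : i < nL n) (hj : j < nL n) (ha : a < 2 ^ w)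
    (hd : d < 2 ^ w) :
    (if va n M s w (i + nL n * (j + nL n * c)) (a * 2 ^ w + d) = p then
      gt (mx n M s w (i + nL n * (j + nL n * c))) (a * 2 ^ w + d) else 0) =
    ∑ b ∈ range (2 ^ w),
      if Phi n M (bC n s w c a d) + ((i : ℤ) - 8 * (n : ℤ) ^ 4) + ((j : ℤ) - 8 * (n : ℤ) ^ 4) = p then
        (if cA n M s w c a b = (i : ℤ) - 8 * (n : ℤ) ^ 4 ∧ cC n M s w b d = (j : ℤ) - 8 * (n : ℤ) ^ 4 then
          (1 : ℤ) else 0) else 0 := by
  obtain ⟨h1, h2, h3⟩ := idx_eq (n := n) (c := c) hi hj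
  have hdiv : (a * 2 ^ w + d) / 2 ^ w = a := by
    rw [Nat.add_comm, Nat.add_mul_div_right _ _ (by positivity), Nat.div_eq_of_lt hd, Nat.zero_add]
  have hmod : (a * 2 ^ w + d) % 2 ^ w = d := by
    rw [Nat.add_comm, Nat.add_mul_mod_self_right, Nat.mod_eq_of_lt hd]
  have h3' : rA n ((i + nL n * (j + nL n * c)) / (16 * n ^ 4 + 1)) = (j : ℤ) - 8 * (n : ℤ) ^ 4 := h3
  unfold va mx
  rw [h1, h2, h3', hdiv, hmod, mp_get ha hd]
  by_cases h : Phi n M (bC n s w c a d) + ((i : ℤ) - 8 * (n : ℤ) ^ 4) + ((j : ℤ) - 8 * (n : ℤ) ^ 4) = p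
  · rw [if_pos h, Finset.sum_congr rfl fun b _ => if_pos h, Finset.card_filter]
    push_cast
    rfl
  · rw [if_neg h, Finset.sum_congr rfl fun b _ => if_neg h, Finset.sum_const_zero]

/-- The number as a sum. PROOF. `sum_idx`; the pairs `x' = a * 2 ^ w + d`; `mp_get`; for every `(c, a, b, d)` exactly one pair of
values `i`, `j` is counted (`al_abs`, `be_abs`), and then `va = Phi (…)` by `Phi_dec`. -/
theorem cn_sum (hn : 0 < n) (hM : ∀ x ∈ M, |x| ≤ 1) (hs : St (fv n s)) (p : ℤ) :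
    cn n M s w p = ∑ c ∈ range (2 ^ (rk s n - 3 * w)), ∑ a ∈ range (2 ^ w), ∑ b ∈ range (2 ^ w),
      ∑ d ∈ range (2 ^ w),
        if Phi n M (lin n 1 (bC n s w c a d) 1 (pt n s w w b)) = p then 1 else 0 := by
  unfold cn
  rw [sum_idx]
  refine Finset.sum_congr rfl fun c _ => ?_
  have h1 : ∀ i ∈ range (nL n), ∀ j ∈ range (nL n),
      (∑ x' ∈ range (2 ^ w * 2 ^ w), if va n M s w (i + nL n * (j + nL n * c)) x' = p then
        gt (mx n M s w (i + nL n * (j + nL n * c))) x' else 0) =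
      ∑ a ∈ range (2 ^ w), ∑ b ∈ range (2 ^ w), ∑ d ∈ range (2 ^ w),
      if Phi n M (bC n s w c a d) + ((i : ℤ) - 8 * (n : ℤ) ^ 4) + ((j : ℤ) - 8 * (n : ℤ) ^ 4) = p then
        (if cA n M s w c a b = (i : ℤ) - 8 * (n : ℤ) ^ 4 ∧ cC n M s w b d = (j : ℤ) - 8 * (n : ℤ) ^ 4 then
          (1 : ℤ) else 0) else 0 := by
    intro i hi j hj
    rw [P3_sum_mul]
    refine Finset.sum_congr rfl fun a ha => ?_
    rw [Finset.sum_comm]
    refine Finset.sum_congr rfl fun d hd => ?_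
    exact P3_term p (Finset.mem_range.1 hi) (Finset.mem_range.1 hj) (Finset.mem_range.1 ha)
      (Finset.mem_range.1 hd)
  rw [Finset.sum_congr rfl fun i hi => Finset.sum_congr rfl (h1 i hi)]
  have h2 : ∀ F : ℕ → ℕ → ℕ → ℤ, ∑ j ∈ range (nL n), ∑ a ∈ range (2 ^ w), ∑ b ∈ range (2 ^ w), F j a b =
      ∑ a ∈ range (2 ^ w), ∑ b ∈ range (2 ^ w), ∑ j ∈ range (nL n), F j a b := by
    intro F
    rw [Finset.sum_comm]
    exact Finset.sum_congr rfl fun a _ => Finset.sum_comm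
  rw [Finset.sum_congr rfl fun i _ => h2 _, h2]
  refine Finset.sum_congr rfl fun a _ => Finset.sum_congr rfl fun b _ => ?_
  rw [Finset.sum_congr rfl fun i _ => Finset.sum_comm, Finset.sum_comm]
  refine Finset.sum_congr rfl fun d _ => ?_
  have h3 : |cA n M s w c a b| ≤ 8 * (n : ℤ) ^ 4 := al_abs hn hM hs c a b
  have h4 : |cC n M s w b d| ≤ 8 * (n : ℤ) ^ 4 := be_abs hn hM hs b d
  have h5 : ((nL n : ℕ) : ℤ) = 2 * (8 * (n : ℤ) ^ 4) + 1 := by
    unfold nL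
    push_cast
    ring
  rw [P3_two (by positivity) h5 h3 h4]
  have h6 : Phi n M (lin n 1 (bC n s w c a d) 1 (pt n s w w b)) =
      Phi n M (bC n s w c a d) + cA n M s w c a b + cC n M s w b d := Phi_dec c a b d
  rw [h6]

/-- Counting. PROOF. `cn_sum`, `xv_dec`, `exists_dec`, `dec_inj`, `GL.xv_mem`, `GL.xv_surj`, `GL.xv_inj`. -/
theorem cn_eq (hn : 0 < n) (hM : ∀ x ∈ M, |x| ≤ 1) (hs : St (fv n s)) (hw : 3 * w ≤ rk s n) (p : ℤ) :
    cn n M s w p = (Lv (wtm n M) (fv n s) p).card := by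
  have h1 : ((Lv (wtm n M) (fv n s) p).card : ℤ) =
      ∑ u ∈ range (2 ^ rk s n), if Ph (wtm n M) (fv n (xv n s u)) = p then 1 else 0 := by
    unfold Lv
    rw [Finset.card_filter]
    push_cast
    symm
    refine Finset.sum_bij (fun u _ => fv n (xv n s u)) (fun u _ => GL.xv_mem s u) ?_ ?_ (fun _ _ => rfl)
    · intro u hu u' hu' h
      exact GL.xv_inj s (Finset.mem_range.1 hu) (Finset.mem_range.1 hu') h
    · intro x hx
      obtain ⟨u, hu, h⟩ := GL.xv_surj s hx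
      exact ⟨u, Finset.mem_range.2 hu, h⟩
  have h2 : 2 ^ rk s n = 2 ^ w * (2 ^ w * (2 ^ w * 2 ^ (rk s n - 3 * w))) := by
    rw [← pow_add, ← pow_add, ← pow_add]
    congr 1
    omega
  rw [h1, h2, P3_sum_mul', P3_sum_mul', P3_sum_mul', cn_sum hn hM hs]
  refine Finset.sum_congr rfl fun c _ => ?_
  rw [Finset.sum_congr rfl fun a _ => Finset.sum_comm]
  rw [Finset.sum_comm]
  refine Finset.sum_congr rfl fun d hd => ?_
  rw [Finset.sum_comm]
  refine Finset.sum_congr rfl fun b hb => Finset.sum_congr rfl fun a ha => ?_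
  rw [GL.Phi_Ph, xv_dec c (Finset.mem_range.1 ha) (Finset.mem_range.1 hb) (Finset.mem_range.1 hd)]

end Pool.Agent.MPa9445a.DB
end

section

/-! Programs: loops with one common weight. -/

set_option autoImplicit false

open Finset

namespace Pool.Agent.MPa9445a.DB

open Pool.Agent.MPa9445a.BE (Ty Env vs one Bd NL DL tb flt gt bit Phi vec code lin argmax matMul
  Bd.const Bd.add Bd.mul Bd.le Bd.up Bd.var Bd.self)
open Pool.Agent.MPa9445a.GD

variable {A : Type} {N : A → ℕ} {D : A → Prop} {Γ : List Ty} {ρ : A → Env Γ} {W : ℝ → A → ℝ}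

/-- The weight is at least `1` and at least `k`. -/
def Wg (D : A → Prop) (k : A → ℕ) (W : ℝ → A → ℝ) : Prop :=
  ∀ a, D a → ∀ τ : ℝ, 2 ≤ τ → 1 ≤ W τ a ∧ (k a : ℝ) ≤ W τ a

theorem T0_x (N : A → ℕ) (a : A) : (2 : ℝ) ≤ (N a : ℝ) + 2 := by
  have : (0 : ℝ) ≤ (N a : ℝ) := Nat.cast_nonneg _
  linarith

theorem Wg.one {k : A → ℕ} (h : Wg D k W) : ∀ a, D a → ∀ τ : ℝ, 2 ≤ τ → 1 ≤ W τ a :=
  fun a ha τ hτ => (h a ha τ hτ).1

theorem Wg.le {k l : A → ℕ} (h : Wg D k W) (hl : ∀ a, D a → l a ≤ k a) : Wg D l W :=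
  fun a ha τ hτ => ⟨(h a ha τ hτ).1, le_trans (by exact_mod_cast hl a ha) (h a ha τ hτ).2⟩

theorem Wg.dom {k : A → ℕ} {D' : A → Prop} (h : Wg D k W) (hD : ∀ a, D' a → D a) : Wg D' k W :=
  fun a ha => h a (hD a ha)

theorem Wg.up {k : A → ℕ} (h : Wg D k W) (l : A → ℕ) :
    Wg (DL D l) (fun p => k p.1) (fun τ p => W τ p.1) :=
  fun p hp => h p.1 hp.1

private theorem T0_key {k : A → ℕ} (hW : Wg D k W) : ∀ a, D a → ∀ τ : ℝ, 2 ≤ τ → 1 ≤ W τ a ∧
    ((k a : ℝ) + 1) * 1 ≤ ((N a : ℝ) + 2) ^ 1 * W τ a := by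
  intro a ha τ hτ
  obtain ⟨h1, h2⟩ := hW a ha τ hτ
  have hx := T0_x N a
  refine ⟨h1, ?_⟩
  rw [pow_one, mul_one]
  nlinarith

/-- PROOF. `Cp.tab`. -/
theorem tabP {k : A → ℕ} {f : A → ℕ → ℤ} (hk : PN N D ρ k) (hW : Wg D k W)
    (h : Body N D ρ k one .int f) : Cp N D ρ W .arr (fun a => tb (k a) (f a)) :=
  (Cp.tab hk (fun _ _ _ _ => le_refl _) h).mono_poly 1 (T0_key hW)

theorem sumP {k : A → ℕ} {f : A → ℕ → ℤ} (hk : PN N D ρ k) (hW : Wg D k W)
    (h : Body N D ρ k one .int f) : Cp N D ρ W .int (fun a => ∑ i ∈ range (k a), f a i) :=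
  (Cp.sum hk (fun _ _ _ _ => le_refl _) h).mono_poly 1 (T0_key hW)

theorem amaxP {k : A → ℕ} {f : A → ℕ → ℤ} (hk : PN N D ρ k) (hW : Wg D k W)
    (h : Body N D ρ k one .int f) :
    Cp N D ρ W .int (fun a => (argmax (k a) (fun i => f a i.toNat) : ℤ)) :=
  (Cp.amax hk (fun _ _ _ _ => le_refl _) h).mono_poly 1 (T0_key hW)

theorem fltP {k : A → ℕ} {q : A → ℕ → Prop} [∀ a, DecidablePred (q a)] (hk : PN N D ρ k)
    (hW : Wg D k W)
    (h : ∀ (Γ' : List Ty) (ρ' : A × ℕ → Env Γ'), Up N D ρ k ρ' →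
      PN (NL N) (DL D k) ρ' (fun p => p.2) → PB (NL N) (DL D k) ρ' (fun p => q p.1 p.2)) :
    Cp N D ρ W .arr (fun a => flt (k a) (q a)) := by
  refine (Cp.filter hk h).mono_poly 1 fun a ha τ hτ => ?_
  have h1 := T0_key (N := N) hW a ha τ hτ
  rw [mul_one] at h1
  exact h1

private theorem T0_keyB {k : A → ℕ} (bk : Bd N D k) (hW : ∀ a, D a → ∀ τ : ℝ, 2 ≤ τ → 1 ≤ W τ a) :
    ∃ c : ℕ, ∀ a, D a → ∀ τ : ℝ, 2 ≤ τ → 1 ≤ W τ a ∧
      ((k a : ℝ) + 1) * W τ a ≤ ((N a : ℝ) + 2) ^ c * W τ a := by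
  obtain ⟨c, hc⟩ := bk
  refine ⟨c + 1, fun a ha τ hτ => ⟨hW a ha τ hτ, ?_⟩⟩
  have hx := T0_x N a
  have h1 : (k a : ℝ) ≤ ((N a : ℝ) + 2) ^ c := by exact_mod_cast hc a ha
  have h2 : (1 : ℝ) ≤ ((N a : ℝ) + 2) ^ c := one_le_pow₀ (by linarith)
  have h3 := hW a ha τ hτ
  refine mul_le_mul_of_nonneg_right ?_ (by linarith)
  rw [pow_succ]
  nlinarith

/-- Polynomially many passes of weight `W`. PROOF. `Cp.tab`. -/
theorem tabQ {k : A → ℕ} {f : A → ℕ → ℤ} (hk : PN N D ρ k) (bk : Bd N D k)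
    (hW : ∀ a, D a → ∀ τ : ℝ, 2 ≤ τ → 1 ≤ W τ a)
    (h : Body N D ρ k W .int f) : Cp N D ρ W .arr (fun a => tb (k a) (f a)) := by
  obtain ⟨c, hc⟩ := T0_keyB bk hW
  exact (Cp.tab hk hW h).mono_poly c hc

theorem sumQ {k : A → ℕ} {f : A → ℕ → ℤ} (hk : PN N D ρ k) (bk : Bd N D k)
    (hW : ∀ a, D a → ∀ τ : ℝ, 2 ≤ τ → 1 ≤ W τ a)
    (h : Body N D ρ k W .int f) : Cp N D ρ W .int (fun a => ∑ i ∈ range (k a), f a i) := by
  obtain ⟨c, hc⟩ := T0_keyB bk hW
  exact (Cp.sum hk hW h).mono_poly c hc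

theorem amaxQ {k : A → ℕ} {f : A → ℕ → ℤ} (hk : PN N D ρ k) (bk : Bd N D k)
    (hW : ∀ a, D a → ∀ τ : ℝ, 2 ≤ τ → 1 ≤ W τ a)
    (h : Body N D ρ k W .int f) :
    Cp N D ρ W .int (fun a => (argmax (k a) (fun i => f a i.toNat) : ℤ)) := by
  obtain ⟨c, hc⟩ := T0_keyB bk hW
  exact (Cp.amax hk hW h).mono_poly c hc

theorem PN.amax {k : A → ℕ} {f : A → ℕ → ℤ} (hk : PN N D ρ k) (bk : Bd N D k)
    (h : Body N D ρ k one .int f) : PN N D ρ (fun a => argmax (k a) (fun i => f a i.toNat)) :=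
  amaxQ hk bk (fun _ _ _ _ => le_refl _) h

/-- A loop with a stored array, polynomially many passes of weight `W`. PROOF. `Cp.iter`. -/
theorem iterQ {k : A → ℕ} {s : A → ℕ → List ℤ} (hk : PN N D ρ k) (bk : Bd N D k)
    (hW : ∀ a, D a → ∀ τ : ℝ, 2 ≤ τ → 1 ≤ W τ a) (h0 : Cp N D ρ W .arr (fun a => s a 0))
    (hs : ∃ c : ℕ, ∀ a, D a → ∀ j < k a, vs (t := .arr) (s a j) ≤ (N a + 2) ^ c)
    (h : ∀ (Γ' : List Ty) (ρ' : A × ℕ → Env Γ'), Up N D ρ k ρ' →
      PN (NL N) (DL D k) ρ' (fun p => p.2) → PA (NL N) (DL D k) ρ' (fun p => s p.1 p.2) →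
      Cp (NL N) (DL D k) ρ' (fun τ p => W τ p.1) .arr (fun p => s p.1 (p.2 + 1))) :
    Cp N D ρ W .arr (fun a => s a (k a)) := by
  obtain ⟨c, hc⟩ := T0_keyB (N := N) bk hW
  refine (Cp.iter hk h0 hs h).mono_poly c fun a ha τ hτ => ?_
  obtain ⟨h1, h2⟩ := hc a ha τ hτ
  refine ⟨h1, ?_⟩
  show W τ a + ∑ _j ∈ range (k a), W τ a ≤ _
  rw [Finset.sum_const, Finset.card_range, nsmul_eq_mul]
  linarith

/-- Concatenation, polynomially many passes of weight `W`. PROOF. `Cp.cat`. -/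
theorem catQ {k : A → ℕ} {f : A → ℕ → List ℤ} (hk : PN N D ρ k) (bk : Bd N D k)
    (hW : ∀ a, D a → ∀ τ : ℝ, 2 ≤ τ → 1 ≤ W τ a) (h : Body N D ρ k W .arr f)
    (hl : ∃ c : ℕ, ∀ a, D a → ∀ i < k a, ∀ τ : ℝ, 2 ≤ τ →
      ((f a i).length : ℝ) ≤ ((N a : ℝ) + 2) ^ c * W τ a) :
    Cp N D ρ W .arr (fun a => fm (k a) (f a)) := by
  obtain ⟨c, hc⟩ := T0_keyB (N := N) bk hW
  refine (Cp.cat (w := fun τ p => W τ p.1) hk h hl).mono_poly c fun a ha τ hτ => ?_
  obtain ⟨h1, h2⟩ := hc a ha τ hτ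
  have h3 := hW a ha τ hτ
  refine ⟨h1, ?_⟩
  show 1 + ∑ _j ∈ range (k a), W τ a ≤ _
  rw [Finset.sum_const, Finset.card_range, nsmul_eq_mul]
  linarith

end Pool.Agent.MPa9445a.DB
end

section

/-! Programs: digits, classes. -/

set_option autoImplicit false

open Finset

namespace Pool.Agent.MPa9445a.DB

open Pool.Agent.MPa9445a.BE (Ty Env vs one Bd NL DL tb flt gt bit Phi vec code lin argmax matMul
  Bd.const Bd.add Bd.mul Bd.le Bd.up Bd.var Bd.self)
open Pool.Agent.MPa9445a.GD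

variable {A : Type} {N : A → ℕ} {D : A → Prop} {Γ : List Ty} {ρ : A → Env Γ}

theorem c_xr {k x y : A → ℕ} (hk : PN N D ρ k) (bk : Bd N D k) (hx : PN N D ρ x)
    (hy : PN N D ρ y) : PN N D ρ (fun a => xr (k a) (x a) (y a)) :=
  PN.sum hk bk fun _ _ up hj => PN.mul (PN.mod (PN.add (PN.bit (up.n hx) hj (Bd.var bk))
    (PN.bit (up.n hy) hj (Bd.var bk))) (PN.const 2)) (PN.pow2 hj (Bd.var bk))

theorem c_pv {k v : A → ℕ} (hk : PN N D ρ k) (bk : Bd N D k) (hv : PN N D ρ v) :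
    PN N D ρ (fun a => pv (k a) (v a)) :=
  PN.amax (f := fun a j => (bit (v a) j : ℤ)) hk bk fun _ _ up hj =>
    PN.bit (up.n hv) hj (Bd.var bk)

theorem argmax_le (k : ℕ) (f : ℤ → ℤ) : argmax k f ≤ k := by
  rcases Nat.eq_zero_or_pos k with h | h
  · subst h
    exact le_refl 0
  · exact (BE.argmax_spec h f).1.le

theorem bd_pv {k v : A → ℕ} (bk : Bd N D k) : Bd N D (fun a => pv (k a) (v a)) :=
  bk.le fun _ _ => argmax_le _ _

theorem c_del {j c : A → ℕ} (hj : PN N D ρ j) (bj : Bd N D j) (hc : PN N D ρ c) :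
    PN N D ρ (fun a => del (j a) (c a)) :=
  PN.add (PN.mod hc (PN.pow2 hj bj)) (PN.mul (PN.pow2 hj bj) (PN.div hc
    (PN.pow2 (PN.add hj (PN.const 1)) (bj.add (Bd.const 1)))))

theorem c_ins {j c : A → ℕ} (hj : PN N D ρ j) (bj : Bd N D j) (hc : PN N D ρ c) :
    PN N D ρ (fun a => ins (j a) (c a)) :=
  PN.add (PN.mod hc (PN.pow2 hj bj)) (PN.mul (PN.pow2 (PN.add hj (PN.const 1))
    (bj.add (Bd.const 1))) (PN.div hc (PN.pow2 hj bj)))

theorem c_stp {k v c : A → ℕ} (hk : PN N D ρ k) (bk : Bd N D k) (hv : PN N D ρ v)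
    (hc : PN N D ρ c) : PN N D ρ (fun a => stp (k a) (v a) (c a)) := by
  have hk1 := PN.add hk (PN.const 1)
  have bk1 := bk.add (Bd.const 1)
  have hp := c_pv hk1 bk1 hv
  have bp := bd_pv (v := v) bk1
  exact c_del hp bp (PN.ite (PB.eqN (PN.bit hc hp bp) (PN.const 1)) (c_xr hk1 bk1 hc hv) hc)

theorem c_rp {k v c : A → ℕ} (hk : PN N D ρ k) (bk : Bd N D k) (hv : PN N D ρ v)
    (hc : PN N D ρ c) : PN N D ρ (fun a => rp (k a) (v a) (c a)) :=
  c_ins (c_pv (PN.add hk (PN.const 1)) (bk.add (Bd.const 1)) hv)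
    (bd_pv (bk.add (Bd.const 1))) hc

theorem xr_lt' (k a b : ℕ) : xr k a b < 2 ^ k := by
  unfold xr
  induction k with
  | zero => simp
  | succ k ih =>
    rw [Finset.sum_range_succ, pow_succ]
    have h : (bit a k + bit b k) % 2 < 2 := Nat.mod_lt _ (by norm_num)
    have h1 : (bit a k + bit b k) % 2 * 2 ^ k ≤ 1 * 2 ^ k := Nat.mul_le_mul_right _ (by omega)
    omega

theorem del_le (j c : ℕ) : del j c ≤ c := by
  unfold del
  have h1 : 2 ^ j * (c / 2 ^ (j + 1)) ≤ 2 ^ j * (c / 2 ^ j) :=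
    Nat.mul_le_mul_left _ (Nat.div_le_div_left (Nat.pow_le_pow_right (by norm_num) (by omega))
      (Nat.two_pow_pos j))
  have h2 := Nat.mod_add_div c (2 ^ j)
  omega

theorem stp_le {k v c m : ℕ} (hc : c ≤ m) (hk : 2 ^ (k + 1) ≤ m) : stp k v c ≤ m := by
  unfold stp
  refine (del_le _ _).trans ?_
  split_ifs
  · exact (xr_lt' _ _ _).le.trans hk
  · exact hc

theorem lb_le (n : ℕ) (L : List ℤ) (z m : ℕ) : lb n L z m ≤ max z (2 ^ (n + 1)) := by
  induction m with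
  | zero => exact le_max_left _ _
  | succ m ih =>
    refine stp_le ih (le_trans ?_ (le_max_right _ _))
    exact Nat.pow_le_pow_right (by norm_num) (by omega)

theorem vs_single (x : ℤ) : vs (t := .arr) [x] = BE.sz x + 1 := by
  change BE.asz [x] + Nat.size [x].length = _
  have h1 : BE.asz [x] = BE.sz x := by
    show max (BE.sz x) 0 = _
    exact Nat.max_zero _
  rw [h1]
  simp

/-- The classes. -/
theorem c_lb {n z m : A → ℕ} {L : A → List ℤ} (hn : PN N D ρ n) (bn : Bd N D n)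
    (hL : PA N D ρ L) (hz : PN N D ρ z) (hm : PN N D ρ m) (bm : Bd N D m) :
    PN N D ρ (fun a => lb (n a) (L a) (z a) (m a)) := by
  have h0 : PA N D ρ (fun a => [((lb (n a) (L a) (z a) 0 : ℕ) : ℤ)]) := PA.one hz
  have h := iterQ (W := one) (s := fun a j => [((lb (n a) (L a) (z a) j : ℕ) : ℤ)]) hm bm
    (fun _ _ _ _ => le_refl _) h0 (by
      obtain ⟨c, hc⟩ := hz.szk
      obtain ⟨d, hd⟩ := bn
      refine ⟨c + d + 3, fun a ha j _ => ?_⟩
      rw [vs_single]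
      have h1 := hc a ha
      have h2 : n a ≤ (N a + 2) ^ d := hd a ha
      have h3 : BE.sz ((lb (n a) (L a) (z a) j : ℕ) : ℤ) ≤ BE.sz ((z a : ℕ) : ℤ) + (n a + 2) := by
        unfold BE.sz at h1 ⊢
        rw [Int.natAbs_natCast, Int.natAbs_natCast] at *
        refine Nat.size_le.2 ((lb_le _ _ _ _).trans_lt ?_)
        refine max_lt ?_ ?_
        · exact (Nat.lt_size_self _).trans_le (Nat.pow_le_pow_right (by norm_num) (by omega))
        · exact Nat.pow_lt_pow_right (by norm_num) (by omega)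
      have h4 : 1 ≤ (N a + 2) ^ (c + d) := Nat.one_le_pow _ _ (by omega)
      have h5 : (N a + 2) ^ c ≤ (N a + 2) ^ (c + d) := Nat.pow_le_pow_right (by omega) (by omega)
      have h6 : (N a + 2) ^ d ≤ (N a + 2) ^ (c + d) := Nat.pow_le_pow_right (by omega) (by omega)
      have h7 : (N a + 2) ^ (c + d + 3) = (N a + 2) ^ (c + d) * (N a + 2) ^ 3 := by ring
      have h8 : 2 ^ 3 ≤ (N a + 2) ^ 3 := Nat.pow_le_pow_left (by omega) 3
      have h9 : (N a + 2) ^ (c + d) * 2 ^ 3 ≤ (N a + 2) ^ (c + d) * (N a + 2) ^ 3 :=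
        Nat.mul_le_mul_left _ h8
      omega)
    fun Γ1 ρ1 up hj hs => by
      have bj : Bd (NL N) (DL D m) (fun p => n p.1 - 1 - p.2) :=
        (bn.up m).le fun p _ => by omega
      refine PA.one (f := fun p : A × ℕ =>
        ((stp (n p.1 - 1 - p.2) (gt (L p.1) p.2).toNat (lb (n p.1) (L p.1) (z p.1) p.2) : ℕ) : ℤ)) ?_
      refine c_stp (PN.sub (PN.sub (up.n hn) (PN.const 1)) hj) bj
        (PN.toNat (PI.get (up.a hL) hj)) ?_
      exact (PN.toNat (PI.get hs (PN.const 0))).congr fun p _ => by simp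
  exact (PN.toNat (h.store fun Γ1 ρ1 ke hs => PI.get hs (PN.const 0))).congr fun a _ => by simp

end Pool.Agent.MPa9445a.DB
end
end

section

section

/-! Programs: Walsh-Hadamard transforms. -/

set_option autoImplicit false

open Finset

namespace Pool.Agent.MPa9445a.DB

open Pool.Agent.MPa9445a.BE (Ty Env vs one Bd NL DL tb flt gt bit Phi vec code lin argmax matMul
  Bd.const Bd.add Bd.mul Bd.le Bd.up Bd.var Bd.self)
open Pool.Agent.MPa9445a.GD

theorem sz_gt (h : List ℤ) (i : ℕ) : BE.sz (gt h i) ≤ BE.asz h := by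
  by_cases hi : i < h.length
  · exact sz_le_asz (gt_mem hi)
  · rw [gt, List.getD_eq_default _ _ (by omega)]
    have : BE.sz 0 = 0 := by simp [BE.sz]
    omega

theorem sz_le_iff {x : ℤ} {B : ℕ} : BE.sz x ≤ B ↔ |x| < 2 ^ B := by
  unfold BE.sz
  rw [Nat.size_le, Int.abs_eq_natAbs]
  constructor
  · intro h
    exact_mod_cast h
  · intro h
    exact_mod_cast h

theorem sz_add2 {x y : ℤ} {B : ℕ} (hx : BE.sz x ≤ B) (hy : BE.sz y ≤ B) :
    BE.sz (x + y) ≤ B + 1 ∧ BE.sz (x - y) ≤ B + 1 := by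
  rw [sz_le_iff] at hx hy
  rw [sz_le_iff, sz_le_iff, pow_succ]
  constructor
  · exact (abs_add_le x y).trans_lt (by linarith)
  · exact (abs_sub x y).trans_lt (by linarith)

theorem asz_tb {k B : ℕ} {f : ℕ → ℤ} (h : ∀ i < k, BE.sz (f i) ≤ B) : BE.asz (tb k f) ≤ B := by
  refine asz_le fun x hx => ?_
  obtain ⟨i, hi, rfl⟩ := List.mem_map.1 hx
  exact h i (List.mem_range.1 hi)

theorem asz_wst (k j : ℕ) (h : List ℤ) : BE.asz (wst k j h) ≤ BE.asz h + 1 := by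
  refine asz_tb fun x _ => ?_
  split_ifs
  · exact (sz_add2 (sz_gt _ _) (sz_gt _ _)).1
  · exact (sz_add2 (sz_gt _ _) (sz_gt _ _)).2

theorem asz_itw (k : ℕ) (h : List ℤ) (j : ℕ) :
    BE.asz (itr (fun j z => wst k j z) h j) ≤ BE.asz h + j := by
  induction j with
  | zero => exact le_refl _
  | succ j ih =>
    refine (asz_wst _ _ _).trans ?_
    omega

theorem length_itw (k : ℕ) (h : List ℤ) (j : ℕ) :
    (itr (fun j z => wst k j z) h j).length ≤ max h.length (2 ^ k) := by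
  cases j with
  | zero => exact le_max_left _ _
  | succ j => exact (BE.length_tb _ _).le.trans (le_max_right _ _)

/-- Array sizes. -/
theorem vs_arr_le {h : List ℤ} {x y : ℕ} (h1 : BE.asz h ≤ x) (h2 : h.length < 2 ^ y) :
    vs (t := .arr) h ≤ x + y := by
  change BE.asz h + Nat.size h.length ≤ _
  have := Nat.size_le.2 h2
  omega

variable {A : Type} {N : A → ℕ} {D : A → Prop} {Γ : List Ty} {ρ : A → Env Γ} {W : ℝ → A → ℝ}

theorem pow_bound {A : Type} (N : A → ℕ) (a : A) (c d e : ℕ) :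
    (N a + 2) ^ c + (N a + 2) ^ d + (N a + 2) ^ e ≤ (N a + 2) ^ (c + d + e + 2) := by
  have h4 : 1 ≤ (N a + 2) ^ (c + d + e) := Nat.one_le_pow _ _ (by omega)
  have h5 : (N a + 2) ^ c ≤ (N a + 2) ^ (c + d + e) := Nat.pow_le_pow_right (by omega) (by omega)
  have h6 : (N a + 2) ^ d ≤ (N a + 2) ^ (c + d + e) := Nat.pow_le_pow_right (by omega) (by omega)
  have h7 : (N a + 2) ^ e ≤ (N a + 2) ^ (c + d + e) := Nat.pow_le_pow_right (by omega) (by omega)
  have h8 : (N a + 2) ^ (c + d + e + 2) = (N a + 2) ^ (c + d + e) * (N a + 2) ^ 2 := by ring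
  have h9 : 2 ^ 2 ≤ (N a + 2) ^ 2 := Nat.pow_le_pow_left (by omega) 2
  have h10 : (N a + 2) ^ (c + d + e) * 2 ^ 2 ≤ (N a + 2) ^ (c + d + e) * (N a + 2) ^ 2 :=
    Nat.mul_le_mul_left _ h9
  omega

/-- Sizes of the stored arrays in a loop: the sizes of the entries grow by at most `j`, the lengths are at most
the maximum of the first length and `2 ^ k`. -/
theorem vs_loop {k m : A → ℕ} {s : A → ℕ → List ℤ} (bk : Bd N D k) (bm : Bd N D m)
    (h0 : ∃ c : ℕ, ∀ a, D a → vs (t := .arr) (s a 0) ≤ (N a + 2) ^ c)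
    (h1 : ∀ a, D a → ∀ j < m a, BE.asz (s a j) ≤ BE.asz (s a 0) + j)
    (h2 : ∀ a, D a → ∀ j < m a, (s a j).length ≤ max (s a 0).length (2 ^ k a)) :
    ∃ c : ℕ, ∀ a, D a → ∀ j < m a, vs (t := .arr) (s a j) ≤ (N a + 2) ^ c := by
  obtain ⟨c, hc⟩ := h0
  obtain ⟨d, hd⟩ := bk.add (Bd.const 1)
  obtain ⟨e, he⟩ := bm
  refine ⟨c + d + e + 2, fun a ha j hj => le_trans ?_ (pow_bound N a c d e)⟩
  have h3 := hc a ha
  change BE.asz (s a 0) + Nat.size (s a 0).length ≤ _ at h3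
  have h4 : k a + 1 ≤ (N a + 2) ^ d := hd a ha
  have h5 : m a ≤ (N a + 2) ^ e := he a ha
  have h6 := h1 a ha j hj
  have h7 : Nat.size (s a j).length ≤ Nat.size (s a 0).length + (k a + 1) := by
    rw [Nat.size_le]
    refine (h2 a ha j hj).trans_lt (max_lt ?_ ?_)
    · exact (Nat.lt_size_self _).trans_le (Nat.pow_le_pow_right (by norm_num) (by omega))
    · exact Nat.pow_lt_pow_right (by norm_num) (by omega)
  change BE.asz (s a j) + Nat.size (s a j).length ≤ _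
  omega

theorem c_wst {k j : A → ℕ} {h : A → List ℤ} (hk : PN N D ρ k) (bk : Bd N D k)
    (hW : Wg D (fun a => 2 ^ k a) W) (hj : PN N D ρ j) (bj : Bd N D j) (hh : PA N D ρ h) :
    Cp N D ρ W .arr (fun a => wst (k a) (j a) (h a)) := by
  refine tabP (PN.pow2 hk bk) hW fun Γ1 ρ1 up hx => ?_
  have hj2 := PN.pow2 (up.n hj) (bj.up _)
  exact Cp.ite (PB.eqN (PN.bit hx (up.n hj) (bj.up _)) (PN.const 0))
    (PI.add (PI.get (up.a hh) hx) (PI.get (up.a hh) (PN.add hx hj2)))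
    (PI.sub (PI.get (up.a hh) (PN.sub hx hj2)) (PI.get (up.a hh) hx))

theorem c_wht {k : A → ℕ} {h : A → List ℤ} (hk : PN N D ρ k) (bk : Bd N D k)
    (hW : Wg D (fun a => 2 ^ k a) W) (hh : PA N D ρ h) :
    Cp N D ρ W .arr (fun a => wht (k a) (h a)) :=
  iterQ (s := fun a j => itr (fun j z => wst (k a) j z) (h a) j) hk bk hW.one
    (hh.lift hW.one)
    (vs_loop bk bk (PA.vsk hh) (fun a _ j _ => asz_itw _ _ _) (fun a _ j _ => length_itw _ _ _))
    fun Γ1 ρ1 up hj hs => c_wst (W := fun τ p => W τ p.1) (up.n hk) (bk.up _) (hW.up _) hj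
      (Bd.var bk) hs

theorem c_cor {k : A → ℕ} {F G : A → List ℤ} (hk : PN N D ρ k) (bk : Bd N D k)
    (hW : Wg D (fun a => 2 ^ k a) W) (hF : PA N D ρ F) (hG : PA N D ρ G) :
    Cp N D ρ W .arr (fun a => cor (k a) (F a) (G a)) := by
  refine (c_wht hk bk hW hF).store fun Γ1 ρ1 k1 h1 => ?_
  refine (c_wht (k1.n hk) bk hW (k1.a hG)).store fun Γ2 ρ2 k2 h2 => ?_
  have h1' := k2.a h1
  have hk2 := k2.n (k1.n hk)
  have h3 : Cp N D ρ2 W .arr (fun a => tb (2 ^ k a) fun x =>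
      gt (wht (k a) (F a)) x * gt (wht (k a) (G a)) x) :=
    tabP (PN.pow2 hk2 bk) hW fun _ _ up hx => PI.mul (PI.get (up.a h1') hx) (PI.get (up.a h2) hx)
  refine h3.store fun Γ3 ρ3 k3 h4 => ?_
  exact c_wht (k3.n hk2) bk hW h4

end Pool.Agent.MPa9445a.DB
end

section

/-! Programs: the code. -/

set_option autoImplicit false
set_option linter.unusedVariables false

open Finset

namespace Pool.Agent.MPa9445a.DB

open Pool.Agent.MPa9445a.BE (Ty Env vs one Bd NL DL tb flt gt bit Phi vec code lin argmax matMul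
  Bd.const Bd.add Bd.mul Bd.le Bd.up Bd.var Bd.self)
open Pool.Agent.MPa9445a.GD

theorem asz_mrg (k v : ℕ) (h : List ℤ) : BE.asz (mrg k v h) ≤ BE.asz h + 1 :=
  asz_tb fun _ _ => (sz_add2 (sz_gt _ _) (sz_gt _ _)).1

theorem asz_mrx (k v : ℕ) (h : List ℤ) : BE.asz (mrx k v h) ≤ BE.asz h := by
  refine asz_tb fun x _ => ?_
  split_ifs
  · exact sz_gt _ _
  · exact sz_gt _ _

theorem asz_lds (n : ℕ) (K L : List ℤ) (m : ℕ) : BE.asz (lds n K L m) ≤ BE.asz K + m := by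
  induction m with
  | zero => exact le_refl _
  | succ m ih =>
    refine (asz_mrg _ _ _).trans ?_
    change BE.asz (lds n K L m) + 1 ≤ _
    omega

theorem asz_mxs (n : ℕ) (K L : List ℤ) (m : ℕ) : BE.asz (mxs n K L m) ≤ BE.asz K + m := by
  induction m with
  | zero => exact le_refl _
  | succ m ih =>
    refine (asz_mrx _ _ _).trans ?_
    change BE.asz (mxs n K L m) ≤ _
    omega

theorem length_lds (n : ℕ) (K L : List ℤ) (m : ℕ) :
    (lds n K L m).length ≤ max K.length (2 ^ n) := by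
  cases m with
  | zero => exact le_max_left _ _
  | succ m =>
    exact ((BE.length_tb _ _).le.trans (Nat.pow_le_pow_right (by norm_num) (by omega))).trans
      (le_max_right _ _)

theorem length_mxs (n : ℕ) (K L : List ℤ) (m : ℕ) :
    (mxs n K L m).length ≤ max K.length (2 ^ n) := by
  cases m with
  | zero => exact le_max_left _ _
  | succ m =>
    exact ((BE.length_tb _ _).le.trans (Nat.pow_le_pow_right (by norm_num) (by omega))).trans
      (le_max_right _ _)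

theorem length_vl (n : ℕ) (K : List ℤ) (m : ℕ) : (vl n K m).length = m := by
  induction m with
  | zero => rfl
  | succ m ih =>
    show (vl n K m ++ [(nv n K (vl n K m) m : ℤ)]).length = _
    rw [List.length_append, ih, List.length_singleton]

theorem sz_nv (n : ℕ) (K L : List ℤ) (m : ℕ) : BE.sz ((nv n K L m : ℕ) : ℤ) ≤ n + 2 := by
  unfold BE.sz
  rw [Int.natAbs_natCast, Nat.size_le]
  unfold nv
  have h1 := argmax_le (2 ^ (n - m) - 1) fun x => -gt (lc n K L m) (1 + x.toNat)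
  have h2 : 2 ^ (n - m) ≤ 2 ^ n := Nat.pow_le_pow_right (by norm_num) (by omega)
  have h3 : 2 ^ (n + 2) = 4 * 2 ^ n := by ring
  have h4 := Nat.one_le_two_pow (n := n)
  omega

theorem asz_app (K L : List ℤ) : BE.asz (K ++ L) ≤ max (BE.asz K) (BE.asz L) := by
  refine asz_le fun x hx => ?_
  rcases List.mem_append.1 hx with h | h
  · exact (sz_le_asz h).trans (le_max_left _ _)
  · exact (sz_le_asz h).trans (le_max_right _ _)

theorem asz_single (x : ℤ) : BE.asz [x] = BE.sz x := by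
  show max (BE.sz x) 0 = _
  exact Nat.max_zero _

theorem asz_vl (n : ℕ) (K : List ℤ) (m : ℕ) : BE.asz (vl n K m) ≤ n + 2 := by
  induction m with
  | zero => exact Nat.zero_le _
  | succ m ih =>
    show BE.asz (vl n K m ++ [(nv n K (vl n K m) m : ℤ)]) ≤ _
    refine (asz_app _ _).trans (max_le ih ?_)
    rw [asz_single]
    exact sz_nv _ _ _ _

variable {A : Type} {N : A → ℕ} {D : A → Prop} {Γ : List Ty} {ρ : A → Env Γ} {W : ℝ → A → ℝ}

theorem c_mrg {k v : A → ℕ} {h : A → List ℤ} (hk : PN N D ρ k) (bk : Bd N D k)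
    (hW : Wg D (fun a => 2 ^ k a) W) (hv : PN N D ρ v) (hh : PA N D ρ h) :
    Cp N D ρ W .arr (fun a => mrg (k a) (v a) (h a)) := by
  refine tabP (PN.pow2 hk bk) hW fun Γ1 ρ1 up hx => ?_
  have hk' := up.n hk
  have hr := c_rp hk' (bk.up _) (up.n hv) hx
  exact PI.add (PI.get (up.a hh) hr) (PI.get (up.a hh)
    (c_xr (PN.add hk' (PN.const 1)) ((bk.up _).add (Bd.const 1)) hr (up.n hv)))

theorem c_mrx {k v : A → ℕ} {h : A → List ℤ} (hk : PN N D ρ k) (bk : Bd N D k)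
    (hW : Wg D (fun a => 2 ^ k a) W) (hv : PN N D ρ v) (hh : PA N D ρ h) :
    Cp N D ρ W .arr (fun a => mrx (k a) (v a) (h a)) := by
  refine tabP (PN.pow2 hk bk) hW fun Γ1 ρ1 up hx => ?_
  have hk' := up.n hk
  have hr := c_rp hk' (bk.up _) (up.n hv) hx
  have h1 := PI.get (up.a hh) hr
  have h2 := PI.get (up.a hh) (c_xr (PN.add hk' (PN.const 1)) ((bk.up _).add (Bd.const 1)) hr
    (up.n hv))
  exact Cp.ite (PB.le h1 h2) h2 h1

theorem lds_succ (n : ℕ) (K L : List ℤ) (m : ℕ) :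
    lds n K L (m + 1) = mrg (n - 1 - m) (gt L m).toNat (lds n K L m) := rfl

theorem mxs_succ (n : ℕ) (K L : List ℤ) (m : ℕ) :
    mxs n K L (m + 1) = mrx (n - 1 - m) (gt L m).toNat (mxs n K L m) := rfl

theorem c_lds {n m : A → ℕ} {K L : A → List ℤ} (hn : PN N D ρ n) (bn : Bd N D n)
    (hW : Wg D (fun a => 2 ^ n a) W) (hK : PA N D ρ K) (hL : PA N D ρ L) (hm : PN N D ρ m)
    (bm : Bd N D m) : Cp N D ρ W .arr (fun a => lds (n a) (K a) (L a) (m a)) := by
  refine iterQ (s := fun a j => lds (n a) (K a) (L a) j) hm bm hW.one (hK.lift hW.one) ?_ ?_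
  · exact vs_loop bn bm (PA.vsk hK) (fun a _ j _ => asz_lds _ _ _ _)
      (fun a _ j _ => length_lds _ _ _ _)
  · intro Γ1 ρ1 up hj hs
    have h1 : Cp (NL N) (DL D m) ρ1 (fun τ p => W τ p.1) .arr
        (fun p => mrg (n p.1 - 1 - p.2) (gt (L p.1) p.2).toNat (lds (n p.1) (K p.1) (L p.1) p.2)) := by
      have a1 : PN (NL N) (DL D m) ρ1 (fun p => n p.1 - 1 - p.2) :=
        PN.sub (PN.sub (up.n hn) (PN.const 1)) hj
      have a2 : Bd (NL N) (DL D m) (fun p => n p.1 - 1 - p.2) :=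
        (bn.up m).le fun p _ => (Nat.sub_le _ _).trans (Nat.sub_le _ _)
      have a3 : Wg (DL D m) (fun p => 2 ^ (n p.1 - 1 - p.2)) (fun τ p => W τ p.1) := by
        refine (hW.up m).le fun p _ => ?_
        show 2 ^ (n p.1 - 1 - p.2) ≤ 2 ^ n p.1
        exact Nat.pow_le_pow_right (by norm_num) (by omega)
      have a4 : PN (NL N) (DL D m) ρ1 (fun p => (gt (L p.1) p.2).toNat) :=
        PN.toNat (PI.get (up.a hL) hj)
      exact c_mrg a1 a2 a3 a4 hs
    exact h1.congr fun p _ => (lds_succ _ _ _ _).symm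

theorem c_mxs {n m : A → ℕ} {K L : A → List ℤ} (hn : PN N D ρ n) (bn : Bd N D n)
    (hW : Wg D (fun a => 2 ^ n a) W) (hK : PA N D ρ K) (hL : PA N D ρ L) (hm : PN N D ρ m)
    (bm : Bd N D m) : Cp N D ρ W .arr (fun a => mxs (n a) (K a) (L a) (m a)) := by
  refine iterQ (s := fun a j => mxs (n a) (K a) (L a) j) hm bm hW.one (hK.lift hW.one) ?_ ?_
  · exact vs_loop bn bm (PA.vsk hK) (fun a _ j _ => asz_mxs _ _ _ _)
      (fun a _ j _ => length_mxs _ _ _ _)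
  · intro Γ1 ρ1 up hj hs
    have h1 : Cp (NL N) (DL D m) ρ1 (fun τ p => W τ p.1) .arr
        (fun p => mrx (n p.1 - 1 - p.2) (gt (L p.1) p.2).toNat (mxs (n p.1) (K p.1) (L p.1) p.2)) := by
      have a1 : PN (NL N) (DL D m) ρ1 (fun p => n p.1 - 1 - p.2) :=
        PN.sub (PN.sub (up.n hn) (PN.const 1)) hj
      have a2 : Bd (NL N) (DL D m) (fun p => n p.1 - 1 - p.2) :=
        (bn.up m).le fun p _ => (Nat.sub_le _ _).trans (Nat.sub_le _ _)
      have a3 : Wg (DL D m) (fun p => 2 ^ (n p.1 - 1 - p.2)) (fun τ p => W τ p.1) := by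
        refine (hW.up m).le fun p _ => ?_
        show 2 ^ (n p.1 - 1 - p.2) ≤ 2 ^ n p.1
        exact Nat.pow_le_pow_right (by norm_num) (by omega)
      have a4 : PN (NL N) (DL D m) ρ1 (fun p => (gt (L p.1) p.2).toNat) :=
        PN.toNat (PI.get (up.a hL) hj)
      exact c_mrx a1 a2 a3 a4 hs
    exact h1.congr fun p _ => (mxs_succ _ _ _ _).symm

theorem c_ex2 {k : A → ℕ} {h : A → List ℤ} (hk : PN N D ρ k) (bk : Bd N D k)
    (hW : Wg D (fun a => 2 ^ k a) W) (hh : PA N D ρ h)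
    (hb : ∃ c : ℕ, ∀ a, D a → ∀ i < 2 ^ k a, gt (h a) i ≤ ((N a : ℤ) + 2) ^ c) :
    Cp N D ρ W .arr (fun a => ex2 (k a) (h a)) := by
  refine tabP (PN.pow2 hk bk) hW fun Γ1 ρ1 up hx => ?_
  have hg := PI.get (up.a hh) hx
  have bg : Bd (NL N) (DL D fun a => 2 ^ k a) (fun p => (gt (h p.1) p.2).toNat) := by
    obtain ⟨c, hc⟩ := hb
    refine ⟨c, fun p hp => ?_⟩
    have h1 := hc p.1 hp.1 p.2 hp.2
    have h2 : (gt (h p.1) p.2).toNat ≤ (N p.1 + 2) ^ c := by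
      rw [Int.toNat_le]
      push_cast
      exact h1
    exact h2
  refine (PI.sub (PN.pow2 (PN.toNat hg) bg) (PI.const 1)).congr fun p _ => ?_
  push_cast
  rfl

/-- The correlation of the loads. -/
theorem c_lc {n m : A → ℕ} {K L : A → List ℤ} (hn : PN N D ρ n) (bn : Bd N D n)
    (hW : Wg D (fun a => 2 ^ n a) W) (hK : PA N D ρ K) (hL : PA N D ρ L) (hm : PN N D ρ m)
    (bm : Bd N D m)
    (hb : ∃ c : ℕ, ∀ a, D a → ∀ i < 2 ^ (n a - m a),
      gt (lds (n a) (K a) (L a) (m a)) i ≤ ((N a : ℤ) + 2) ^ c) :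
    Cp N D ρ W .arr (fun a => lc (n a) (K a) (L a) (m a)) := by
  refine (c_lds hn bn hW hK hL hm bm).store fun Γ1 ρ1 k1 h1 => ?_
  have hk := PN.sub (k1.n hn) (k1.n hm)
  have bk : Bd N D (fun a => n a - m a) := bn.le fun a _ => Nat.sub_le _ _
  have hW' : Wg D (fun a => 2 ^ (n a - m a)) W :=
    hW.le fun a _ => Nat.pow_le_pow_right (by norm_num) (Nat.sub_le _ _)
  refine (c_ex2 hk bk hW' h1 hb).store fun Γ2 ρ2 k2 h2 => ?_
  exact c_cor (k2.n hk) bk hW' h2 h2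

theorem c_nv {n m : A → ℕ} {K L : A → List ℤ} (hn : PN N D ρ n) (bn : Bd N D n)
    (hW : Wg D (fun a => 2 ^ n a) W) (hK : PA N D ρ K) (hL : PA N D ρ L) (hm : PN N D ρ m)
    (bm : Bd N D m)
    (hb : ∃ c : ℕ, ∀ a, D a → ∀ i < 2 ^ (n a - m a),
      gt (lds (n a) (K a) (L a) (m a)) i ≤ ((N a : ℤ) + 2) ^ c) :
    Cp N D ρ W .int (fun a => (nv (n a) (K a) (L a) (m a) : ℤ)) := by
  refine (c_lc hn bn hW hK hL hm bm hb).store fun Γ1 ρ1 k1 h1 => ?_
  have hk := PN.sub (k1.n hn) (k1.n hm)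
  have bk : Bd N D (fun a => n a - m a) := bn.le fun a _ => Nat.sub_le _ _
  have h2 := amaxP (W := W) (k := fun a => 2 ^ (n a - m a) - 1)
    (f := fun a i => -gt (lc (n a) (K a) (L a) (m a)) (1 + i))
    (PN.sub (PN.pow2 hk bk) (PN.const 1))
    (hW.le fun a _ => (Nat.sub_le _ _).trans (Nat.pow_le_pow_right (by norm_num) (Nat.sub_le _ _)))
    fun Γ2 ρ2 up hx => (PI.sub (PI.const 0) (PI.get (up.a h1) (PN.add (PN.const 1) hx))).congr
      fun p _ => by simp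
  refine h2.store fun Γ2 ρ2 k2 h3 => ?_
  refine ((PI.add (PI.const 1) h3).lift hW.one).congr fun a _ => ?_
  show (1 : ℤ) + _ = ((1 + _ : ℕ) : ℤ)
  push_cast
  rfl

/-- The directions. -/
theorem c_vl {n m : A → ℕ} {K : A → List ℤ} (hn : PN N D ρ n) (bn : Bd N D n)
    (hW : Wg D (fun a => 2 ^ n a) W) (hK : PA N D ρ K) (hm : PN N D ρ m) (bm : Bd N D m)
    (hb : ∃ c : ℕ, ∀ a, D a → ∀ l < m a, ∀ i < 2 ^ (n a - l),
      gt (lds (n a) (K a) (vl (n a) (K a) l) l) i ≤ ((N a : ℤ) + 2) ^ c) :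
    Cp N D ρ W .arr (fun a => vl (n a) (K a) (m a)) := by
  refine iterQ (s := fun a j => vl (n a) (K a) j) hm bm hW.one (PA.nil.lift hW.one) ?_ ?_
  · obtain ⟨c, hc⟩ := bn.add (Bd.const 2)
    obtain ⟨d, hd⟩ := bm
    refine ⟨c + d + 0 + 2, fun a ha j hj => le_trans ?_ (pow_bound N a c d 0)⟩
    have h1 : n a + 2 ≤ (N a + 2) ^ c := hc a ha
    have h2 : m a ≤ (N a + 2) ^ d := hd a ha
    have h3 := asz_vl (n a) (K a) j
    have h4 : Nat.size (vl (n a) (K a) j).length ≤ m a := by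
      rw [length_vl, Nat.size_le]
      exact hj.trans Nat.lt_two_pow_self
    change BE.asz _ + Nat.size _ ≤ _
    omega
  · intro Γ1 ρ1 up hj hs
    have h1 := c_nv (n := fun p : A × ℕ => n p.1) (m := fun p => p.2) (K := fun p => K p.1)
      (L := fun p => vl (n p.1) (K p.1) p.2) (up.n hn) (bn.up m) (hW.up m) (up.a hK) hs hj
      (Bd.var bm) (by
        obtain ⟨c, hc⟩ := hb
        exact ⟨c, fun p hp i hi => hc p.1 hp.1 p.2 hp.2 i hi⟩)
    refine h1.store fun Γ2 ρ2 k2 h2 => ?_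
    have h3 := Cp.app (w := fun τ (p : A × ℕ) => W τ p.1)
      ((k2.a hs).lift (hW.up m).one) ((PA.one h2).lift (hW.up m).one) (by
        obtain ⟨d, hd⟩ := bm.add (Bd.const 1)
        refine ⟨d, fun p hp τ hτ => ?_⟩
        rw [length_vl, List.length_singleton]
        have h4 : m p.1 + 1 ≤ (N p.1 + 2) ^ d := hd p.1 hp.1
        have h5 := (hW.up m).one p hp τ hτ
        have h6 : p.2 < m p.1 := hp.2
        have h7 : ((p.2 : ℕ) : ℝ) + ((1 : ℕ) : ℝ) ≤ ((N p.1 : ℝ) + 2) ^ d := by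
          have : p.2 + 1 ≤ (N p.1 + 2) ^ d := by omega
          exact_mod_cast this
        have h8 : (0 : ℝ) ≤ ((N p.1 : ℝ) + 2) ^ d := by positivity
        have h9 : ((N p.1 : ℝ) + 2) ^ d * 1 ≤ ((N p.1 : ℝ) + 2) ^ d * W τ p.1 :=
          mul_le_mul_of_nonneg_left h5 h8
        change ((p.2 : ℕ) : ℝ) + ((1 : ℕ) : ℝ) ≤ ((N p.1 : ℝ) + 2) ^ d * W τ p.1
        linarith)
    exact h3

end Pool.Agent.MPa9445a.DB
end
end

section

/-! The pairs of a set `D` and a region. -/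

set_option autoImplicit false

open Finset

namespace Pool.Agent.MPa9445a.DB

open Pool.Agent.MPa9445a.BE (gt bit tb flt lin Phi vec code argmax matMul wtm fv)
open Pool.Agent.MPa9445a.GD (itr fm)
open Pool.Agent.MPa9445a.SN (ST)
open Pool.Agent.MPa9445a.GL (rk sv xv laL rhL lvv LL Wb Vc S St Ph Lv lvl Res Fr la rh fl on off)

variable {n : ℕ} {M : List ℤ} {a : ℕ}

/-- The state in which all vertices are free. -/
def fu (n : ℕ) : Vc n := fun _ => 2

theorem St_fu (n : ℕ) : St (fu n) := fun _ => Or.inr (Or.inr (Or.inr rfl))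

/-- The entries of a region. -/
theorem fv_rg (v : Fin n) : fv n (rg n a) v =
    if (v : ℕ) < nJ n then 2 else 2 * (bit a ((v : ℕ) - nJ n) : ℤ) - 1 := by
  rw [rg, BE.fv_tb]

theorem rg_cases (v : Fin n) : ((v : ℕ) < nJ n ∧ fv n (rg n a) v = 2) ∨
    (¬ (v : ℕ) < nJ n ∧ (fv n (rg n a) v = 1 ∨ fv n (rg n a) v = -1)) := by
  rw [fv_rg]
  by_cases h : (v : ℕ) < nJ n
  · left
    exact ⟨h, if_pos h⟩
  · right
    refine ⟨h, ?_⟩
    rw [if_neg h]
    rcases bit_01 a ((v : ℕ) - nJ n) with h1 | h1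
    · right; rw [h1]; norm_num
    · left; rw [h1]; norm_num

theorem St_rg : St (fv n (rg n a)) := by
  intro v
  rcases rg_cases (a := a) v with ⟨_, h⟩ | ⟨_, h | h⟩
  · exact Or.inr (Or.inr (Or.inr h))
  · exact Or.inr (Or.inl h)
  · exact Or.inr (Or.inr (Or.inl h))

theorem Res_rg : Res (fu n) (fv n (rg n a)) := by
  intro v
  refine ⟨fun h => absurd rfl h, fun _ => ?_⟩
  rcases rg_cases (a := a) v with ⟨_, h⟩ | ⟨_, h | h⟩
  · exact Or.inl h
  · exact Or.inr (Or.inl h)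
  · exact Or.inr (Or.inr h)

/-- The entries of a vector of a region. -/
theorem fv_sv_rg (z : ℕ) (v : Fin n) : fv n (sv n (rg n a) z) v =
    if (v : ℕ) < nJ n then 2 * (bit z (v : ℕ) : ℤ) - 1 else 2 * (bit a ((v : ℕ) - nJ n) : ℤ) - 1 := by
  have h1 : fv n (sv n (rg n a) z) v =
      if gt (rg n a) (v : ℕ) = 2 then 2 * (bit z (v : ℕ) : ℤ) - 1 else gt (rg n a) (v : ℕ) := by
    rw [sv, BE.fv_tb]
  have h2 : gt (rg n a) (v : ℕ) = fv n (rg n a) v := rfl
  rw [h1, h2]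
  rcases rg_cases (a := a) v with ⟨h, h3⟩ | ⟨h, h3⟩
  · rw [if_pos h3, if_pos h]
  · have h4 : fv n (rg n a) v ≠ 2 := by
      rcases h3 with h3 | h3 <;> rw [h3] <;> norm_num
    rw [if_neg h4, if_neg h, fv_rg, if_neg h]

/-- PROOF. `GL.fv_sv`, `GL.vc_mem`. -/
theorem rg_mem (z : ℕ) : fv n (sv n (rg n a) z) ∈ S (fv n (rg n a)) := by
  rw [GL.fv_sv]
  exact GL.vc_mem _ _

theorem bit_mod {k z j : ℕ} (hj : j < k) : bit (z % 2 ^ k) j = bit z j := by
  rw [bit_testBit, bit_testBit, Nat.testBit_mod_two_pow]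
  simp [hj]

/-- PROOF. `GL.sv_cdv`; the code modulo `2 ^ nJ`: only the digits `< nJ` matter. -/
theorem rg_surj {x : Vc n} (hx : x ∈ S (fv n (rg n a))) :
    ∃ z < 2 ^ nJ n, fv n (sv n (rg n a) z) = x := by
  refine ⟨(GL.cdv x).toNat % 2 ^ nJ n, Nat.mod_lt _ (by positivity), ?_⟩
  have h := GL.sv_cdv (rg n a) hx
  rw [← h]
  funext v
  rw [h, ← h, fv_sv_rg, fv_sv_rg, h]
  by_cases hv : (v : ℕ) < nJ n
  · rw [if_pos hv, if_pos hv, bit_mod hv]
  · rw [if_neg hv, if_neg hv]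

theorem rg_inj {z z' : ℕ} (hz : z < 2 ^ nJ n) (hz' : z' < 2 ^ nJ n)
    (h : fv n (sv n (rg n a) z) = fv n (sv n (rg n a) z')) : z = z' := by
  refine ext_bit hz hz' fun j hj => ?_
  have h1 := congrFun h ⟨j, lt_of_lt_of_le hj (nJ_le n)⟩
  rw [fv_sv_rg, fv_sv_rg] at h1
  simp only [if_pos hj] at h1
  omega

/-- The digits of a set. -/
theorem bit_low {D x k j : ℕ} (hj : j < k) : bit (D + 2 ^ k * x) j = bit D j := by
  rw [← bit_mod hj, Nat.add_mul_mod_self_left, bit_mod hj]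

theorem bit_high {D x k j : ℕ} (hD : D < 2 ^ k) (hj : k ≤ j) :
    bit (D + 2 ^ k * x) j = bit x (j - k) := by
  unfold bit
  have h1 : (2 : ℕ) ^ j = 2 ^ k * 2 ^ (j - k) := by
    rw [← pow_add]
    congr 1
    omega
  rw [h1, ← Nat.div_div_eq_div_mul, Nat.add_mul_div_left _ _ (by positivity), Nat.div_eq_of_lt hD,
    zero_add]

/-- Flipping. PROOF. Entries: for `v < nJ n` the digit of `z` changes iff that of `D` is `1`; for `v ≥ nJ n` the entry is `2 bit (xr … a x) - 1`, it is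
changed iff the digit of `x` is `1`. -/
theorem fl_rg {D z : ℕ} (x : ℕ) (hD : D < 2 ^ nJ n) (hz : z < 2 ^ nJ n) :
    fl (ST n (D + 2 ^ nJ n * x)) (fv n (sv n (rg n (xr (n - nJ n) a x)) z)) =
      fv n (sv n (rg n a) (xr (nJ n) z D)) := by
  funext v
  have h1 : v ∈ ST n (D + 2 ^ nJ n * x) ↔ bit (D + 2 ^ nJ n * x) (v : ℕ) = 1 := by
    unfold SN.ST
    simp
  have h2 : fl (ST n (D + 2 ^ nJ n * x)) (fv n (sv n (rg n (xr (n - nJ n) a x)) z)) v =
      if bit (D + 2 ^ nJ n * x) (v : ℕ) = 1 then -fv n (sv n (rg n (xr (n - nJ n) a x)) z) v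
      else fv n (sv n (rg n (xr (n - nJ n) a x)) z) v := by
    unfold fl
    simp only [h1]
  rw [h2, fv_sv_rg, fv_sv_rg]
  by_cases hv : (v : ℕ) < nJ n
  · rw [if_pos hv, if_pos hv, bit_low hv, bit_xr, if_pos hv]
    rcases bit_01 z (v : ℕ) with h3 | h3 <;> rcases bit_01 D (v : ℕ) with h4 | h4 <;>
      rw [h3, h4] <;> norm_num
  · have hv2 : (v : ℕ) - nJ n < n - nJ n := by
      have := v.2
      omega
    rw [if_neg hv, if_neg hv, bit_high hD (not_lt.1 hv), bit_xr, if_pos hv2]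
    rcases bit_01 a ((v : ℕ) - nJ n) with h3 | h3 <;>
      rcases bit_01 x ((v : ℕ) - nJ n) with h4 | h4 <;> rw [h3, h4] <;> norm_num

/-- The vectors of the two parts. PROOF. `GL.mem_ch` with `s = fu n` and `r = fv n (rg n a)`; `rg_surj`, `fl_rg`. -/
theorem mem_parts {D : ℕ} (x : ℕ) (hD : D < 2 ^ nJ n) (y : Vc n) :
    (on (ST n (D + 2 ^ nJ n * x)) y ∈ S (fv n (laL n (rg n a) (D + 2 ^ nJ n * x))) ∧
      off (ST n (D + 2 ^ nJ n * x)) y ∈ S (fv n (rhL n (rg n a) (D + 2 ^ nJ n * x)))) ↔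
      ∃ z < 2 ^ nJ n, y = fv n (sv n (rg n (xr (n - nJ n) a x)) z) := by
  rw [GL.fv_laL, GL.fv_rhL, ← GL.mem_ch (St_fu n) (Res_rg (a := a))
    (fun v _ => by rw [GL.mem_Fr]; rfl)]
  constructor
  · rintro ⟨_, h2⟩
    obtain ⟨z, hz, hz2⟩ := rg_surj h2
    refine ⟨xr (nJ n) z D, xr_lt _ _ _, ?_⟩
    have h3 := fl_rg (a := a) x hD (xr_lt (nJ n) z D)
    rw [xr_cancel hz] at h3
    rw [hz2] at h3
    have h4 := congrArg (fl (ST n (D + 2 ^ nJ n * x))) h3
    rw [GL.fl_fl, GL.fl_fl] at h4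
    exact h4.symm
  · rintro ⟨z, hz, rfl⟩
    refine ⟨?_, ?_⟩
    · rw [GL.mem_S]
      intro v
      refine ⟨fun _ => ?_, fun h => absurd rfl h⟩
      have h5 := (GL.mem_S.1 (rg_mem (n := n) (a := xr (n - nJ n) a x) z)) v
      rcases rg_cases (a := xr (n - nJ n) a x) v with ⟨_, h⟩ | ⟨_, h | h⟩
      · exact h5.1 h
      · left
        rw [h5.2 (by rw [h]; norm_num), h]
      · right
        rw [h5.2 (by rw [h]; norm_num), h]
    · rw [fl_rg x hD hz]
      exact rg_mem _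

/-- The values of the two parts. PROOF. `GL.par`, `fl_rg`, `GL.Phi_Ph`. -/
theorem val_parts {D z : ℕ} (x : ℕ) (hD : D < 2 ^ nJ n) (hz : z < 2 ^ nJ n) :
    fz n M (xr (n - nJ n) a x) z + fz n M a (xr (nJ n) z D) =
      2 * (Ph (wtm n M) (on (ST n (D + 2 ^ nJ n * x)) (fv n (sv n (rg n (xr (n - nJ n) a x)) z))) +
        Ph (wtm n M) (off (ST n (D + 2 ^ nJ n * x)) (fv n (sv n (rg n (xr (n - nJ n) a x)) z)))) := by
  rw [← GL.par, fl_rg x hD hz]
  unfold fz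
  rw [GL.Phi_Ph, GL.Phi_Ph]

/-- The number of pairs. PROOF. `cn_eq` for the two states (`GL.St_la`, `GL.St_rh`, `GL.fv_laL`, `GL.fv_rhL`, `3 * wc m ≤ m`); the sum over the levels
(`GL.sum_lvl`, `GL.Ph_lvl`) is the number of pairs `(u, v)` with `Ph u + Ph v = g`; the map `y ↦ (on y, off y)` is a bijection
(`GL.on_add_off`, `GL.on_off_add`, `mem_parts`), `val_parts`, `rg_inj`. -/
theorem Ed_eq (hn : 0 < n) (hM : ∀ x ∈ M, |x| ≤ 1) {D : ℕ} (x : ℕ) (hD : D < 2 ^ nJ n) (g : ℤ) :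
    Ed n M a (D + 2 ^ nJ n * x) g = ((range (2 ^ nJ n)).filter fun z =>
      fz n M (xr (n - nJ n) a x) z + fz n M a (xr (nJ n) z D) = 2 * g).card := by
  classical
  set d := D + 2 ^ nJ n * x with hd
  have hla : St (fv n (laL n (rg n a) d)) := by
    rw [GL.fv_laL]
    exact GL.St_la St_rg _
  have hrh : St (fv n (rhL n (rg n a) d)) := by
    rw [GL.fv_rhL]
    exact GL.St_rh St_rg _
  have hwc : ∀ m, 3 * wc m ≤ m := by
    intro m
    unfold wc
    omega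
  have h1 : Ed n M a d g = ∑ t ∈ lvl n, (((Lv (wtm n M) (fv n (laL n (rg n a) d)) t).card *
      (Lv (wtm n M) (fv n (rhL n (rg n a) d)) (g - t)).card : ℕ) : ℤ) := by
    unfold Ed cN
    rw [← GL.sum_lvl (fun t => (((Lv (wtm n M) (fv n (laL n (rg n a) d)) t).card *
      (Lv (wtm n M) (fv n (rhL n (rg n a) d)) (g - t)).card : ℕ) : ℤ))]
    refine sum_congr rfl fun u _ => ?_
    rw [cn_eq hn hM hla (hwc _), cn_eq hn hM hrh (hwc _)]
    push_cast
    rfl
  rw [h1, ← Nat.cast_sum]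
  congr 1
  rw [Finset.card_eq_sum_card_fiberwise (t := lvl n)
    (f := fun z => Ph (wtm n M) (on (ST n d) (fv n (sv n (rg n (xr (n - nJ n) a x)) z))))]
  · refine sum_congr rfl fun t _ => ?_
    rw [← Finset.card_product]
    symm
    refine Finset.card_bij (fun z _ =>
      (on (ST n d) (fv n (sv n (rg n (xr (n - nJ n) a x)) z)),
        off (ST n d) (fv n (sv n (rg n (xr (n - nJ n) a x)) z)))) ?_ ?_ ?_
    · intro z hz
      rw [mem_filter, mem_filter, mem_range] at hz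
      obtain ⟨⟨hz1, hz2⟩, hz3⟩ := hz
      have h2 := (mem_parts (a := a) x hD (fv n (sv n (rg n (xr (n - nJ n) a x)) z))).2 ⟨z, hz1, rfl⟩
      have h3 := val_parts (M := M) (a := a) x hD hz1
      rw [← hd] at h2 h3
      rw [mem_product]
      unfold Lv
      rw [mem_filter, mem_filter]
      refine ⟨⟨h2.1, hz3⟩, h2.2, ?_⟩
      have hz3' : Ph (wtm n M) (on (ST n d) (fv n (sv n (rg n (xr (n - nJ n) a x)) z))) = t := hz3
      simp only
      linarith
    · intro z hz z' hz' h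
      rw [mem_filter, mem_filter, mem_range] at hz hz'
      have h2 := congrArg Prod.fst h
      have h3 := congrArg Prod.snd h
      simp only at h2 h3
      apply rg_inj (a := xr (n - nJ n) a x) hz.1.1 hz'.1.1
      rw [← GL.on_add_off (ST n d) (fv n (sv n (rg n (xr (n - nJ n) a x)) z)), h2, h3,
        GL.on_add_off]
    · rintro ⟨u, v⟩ huv
      rw [mem_product] at huv
      unfold Lv at huv
      rw [mem_filter, mem_filter] at huv
      obtain ⟨⟨hu1, hu2⟩, hv1, hv2⟩ := huv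
      simp only at hu1 hu2 hv1 hv2
      have hu1' := hu1
      have hv1' := hv1
      rw [GL.fv_laL] at hu1'
      rw [GL.fv_rhL] at hv1'
      obtain ⟨h2, h3⟩ := GL.on_off_add hu1' hv1'
      obtain ⟨z, hz, hz2⟩ := (mem_parts (a := a) x hD (u + v)).1 (by
        rw [← hd, h2, h3]
        exact ⟨hu1, hv1⟩)
      refine ⟨z, ?_, ?_⟩
      · rw [mem_filter, mem_filter, mem_range]
        have h4 := val_parts (M := M) (a := a) x hD hz
        rw [← hd, ← hz2, h2, h3, hu2, hv2] at h4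
        refine ⟨⟨hz, ?_⟩, ?_⟩
        · rw [h4]
          ring
        · rw [← hz2, h2, hu2]
      · rw [← hz2, h2, h3]
  · intro z hz
    rw [mem_coe, mem_filter, mem_range] at hz
    have h2 := (mem_parts (a := a) x hD (fv n (sv n (rg n (xr (n - nJ n) a x)) z))).2 ⟨z, hz.1, rfl⟩
    rw [← hd] at h2
    exact mem_coe.2 (Ph_lv hn hM hla h2.1)

end Pool.Agent.MPa9445a.DB
end

section

section

/-! Listing the vectors of a level by matrix products. -/

set_option autoImplicit false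

open Finset

namespace Pool.Agent.MPa9445a.DB

open Pool.Agent.MPa9445a.BE (gt bit tb flt lin Phi vec code argmax matMul wtm fv)
open Pool.Agent.MPa9445a.GD (itr fm)
open Pool.Agent.MPa9445a.GL (rk sv xv laL rhL lvv LL Wb Vc S St Ph Lv lvl Cpl cdv)

variable {n : ℕ} {M s : List ℤ} {w : ℕ}

private theorem P4_tb (L : List ℤ) (g : ℤ → ℤ) : tb L.length (fun i => g (gt L i)) = L.map g := by
  apply List.ext_getElem
  · simp [tb]
  · intro i h1 h2
    have h3 : i < L.length := by simpa using h2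
    simp only [tb, List.getElem_map, List.getElem_range, gt]
    rw [List.getD_eq_getElem _ _ h3]

private theorem P4_fm (L : List ℤ) (G : ℤ → List ℤ) :
    fm L.length (fun i => G (gt L i)) = L.flatMap G := by
  have e : (List.range L.length).map (fun i => gt L i) = L := by
    apply List.ext_getElem
    · simp
    · intro i h1 h2
      simp only [List.getElem_map, List.getElem_range, gt]
      rw [List.getD_eq_getElem _ _ h2]
  unfold fm
  conv_rhs => rw [← e]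
  rw [List.flatMap_map]

private theorem P4_mem {k : ℕ} {q : ℕ → Prop} [DecidablePred q] {i : ℕ} :
    (i : ℤ) ∈ flt k q ↔ i < k ∧ q i := by
  unfold flt
  simp only [List.mem_map, List.mem_filter, List.mem_range, decide_eq_true_eq]
  constructor
  · rintro ⟨j, ⟨h1, h2⟩, h3⟩
    have : j = i := by exact_mod_cast h3
    subst this
    exact ⟨h1, h2⟩
  · rintro ⟨h1, h2⟩
    exact ⟨i, ⟨h1, h2⟩, rfl⟩

private theorem P4_cast {k : ℕ} {q : ℕ → Prop} [DecidablePred q] {z : ℤ} (h : z ∈ flt k q) :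
    ∃ i : ℕ, z = (i : ℤ) := by
  unfold flt at h
  simp only [List.mem_map, List.mem_filter, List.mem_range, decide_eq_true_eq] at h
  obtain ⟨i, _, h2⟩ := h
  exact ⟨i, h2.symm⟩

private theorem P4_flt_nodup (k : ℕ) (q : ℕ → Prop) [DecidablePred q] : (flt k q).Nodup := by
  unfold flt
  exact (List.nodup_range.filter _).map Nat.cast_injective

private theorem P4_nd {α : Type} (L : List α) (f : α → List ℤ) (h0 : L.Nodup)
    (h1 : ∀ x ∈ L, (f x).Nodup) (h2 : ∀ x ∈ L, ∀ y ∈ L, ∀ c, c ∈ f x → c ∈ f y → x = y) :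
    (L.flatMap f).Nodup := by
  induction L with
  | nil => simp
  | cons a L ih =>
    rw [List.flatMap_cons, List.nodup_append]
    rw [List.nodup_cons] at h0
    refine ⟨h1 a (List.mem_cons_self ..), ih h0.2 (fun x hx => h1 x (List.mem_cons_of_mem _ hx))
      (fun x hx y hy => h2 x (List.mem_cons_of_mem _ hx) y (List.mem_cons_of_mem _ hy)), ?_⟩
    intro c hc c' hc' hcc
    subst hcc
    obtain ⟨y, hy, hcy⟩ := List.mem_flatMap.1 hc'
    have := h2 a (List.mem_cons_self ..) y (List.mem_cons_of_mem _ hy) c hc hcy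
    subst this
    exact h0.1 hy

private theorem P4_div {a d : ℕ} (hd : d < 2 ^ w) : (a * 2 ^ w + d) / 2 ^ w = a := by
  rw [add_comm, Nat.add_mul_div_right _ _ (by positivity), Nat.div_eq_of_lt hd, zero_add]

private theorem P4_mod {a d : ℕ} (hd : d < 2 ^ w) : (a * 2 ^ w + d) % 2 ^ w = d := by
  rw [add_comm, Nat.add_mul_mod_self_right, Nat.mod_eq_of_lt hd]

private theorem P4_cL (p : ℤ) : cL n M s w p = (List.range (nX n s w)).flatMap fun x =>
    (pl n M s w p x).flatMap fun X => (bl n M s w x X.toNat).map fun B =>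
      (cd n s w x X.toNat B.toNat : ℤ) := by
  unfold cL
  show (List.range (nX n s w)).flatMap _ = _
  congr 1
  funext x
  rw [← P4_fm]
  congr 1
  funext i
  rw [← P4_tb]

/-- The pairs. PROOF. `SN.flt_gt`, `mp_get`. -/
theorem mem_pl {p : ℤ} {x x' : ℕ} : (x' : ℤ) ∈ pl n M s w p x ↔ ∃ a < 2 ^ w, ∃ d < 2 ^ w,
    x' = a * 2 ^ w + d ∧ va n M s w x x' = p ∧ ∃ b < 2 ^ w,
      cA n M s w (iC n x) a b = rA n x ∧ cC n M s w b d = rA n (x / (16 * n ^ 4 + 1)) := by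
  unfold pl
  rw [P4_mem]
  constructor
  · rintro ⟨h1, h2, h3⟩
    have hpos : 0 < 2 ^ w := by positivity
    have ha : x' / 2 ^ w < 2 ^ w := by
      rw [Nat.div_lt_iff_lt_mul hpos]
      exact h1
    have hd : x' % 2 ^ w < 2 ^ w := Nat.mod_lt _ hpos
    have he : x' = x' / 2 ^ w * 2 ^ w + x' % 2 ^ w := by
      rw [mul_comm]
      exact (Nat.div_add_mod x' (2 ^ w)).symm
    refine ⟨x' / 2 ^ w, ha, x' % 2 ^ w, hd, he, h3, ?_⟩
    unfold mx at h2
    rw [he, mp_get ha hd] at h2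
    have h4 : ((range (2 ^ w)).filter fun b => cA n M s w (iC n x) (x' / 2 ^ w) b = rA n x ∧
        cC n M s w b (x' % 2 ^ w) = rA n (x / (16 * n ^ 4 + 1))).Nonempty := by
      rw [Finset.nonempty_iff_ne_empty]
      intro h5
      apply h2
      rw [h5]
      rfl
    obtain ⟨b, hb⟩ := h4
    obtain ⟨hb1, hb2⟩ := mem_filter.1 hb
    exact ⟨b, mem_range.1 hb1, hb2⟩
  · rintro ⟨a, ha, d, hd, rfl, h1, b, hb, h2, h3⟩
    refine ⟨?_, ?_, h1⟩
    · calc a * 2 ^ w + d < a * 2 ^ w + 2 ^ w := by omega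
        _ = (a + 1) * 2 ^ w := by ring
        _ ≤ 2 ^ w * 2 ^ w := Nat.mul_le_mul_right _ ha
    · unfold mx
      rw [mp_get ha hd]
      have h4 : ((range (2 ^ w)).filter fun b => cA n M s w (iC n x) a b = rA n x ∧
          cC n M s w b d = rA n (x / (16 * n ^ 4 + 1))).card ≠ 0 :=
        Finset.card_ne_zero.2 ⟨b, mem_filter.2 ⟨mem_range.2 hb, h2, h3⟩⟩
      exact_mod_cast h4

theorem mem_bl {x a d b : ℕ} (ha : a < 2 ^ w) (hd : d < 2 ^ w) :
    (b : ℤ) ∈ bl n M s w x (a * 2 ^ w + d) ↔ b < 2 ^ w ∧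
      cA n M s w (iC n x) a b = rA n x ∧ cC n M s w b d = rA n (x / (16 * n ^ 4 + 1)) := by
  unfold bl
  rw [P4_mem]
  rw [P4_div hd, P4_mod hd]
  constructor
  · rintro ⟨h1, h2, h3⟩
    rw [m1_get ha h1] at h2
    rw [m2_get h1 hd] at h3
    refine ⟨h1, ?_, ?_⟩
    · by_contra h
      exact h2 (if_neg h)
    · by_contra h
      exact h3 (if_neg h)
  · rintro ⟨h1, h2, h3⟩
    refine ⟨h1, ?_, ?_⟩
    · rw [m1_get ha h1, if_pos h2]
      norm_num
    · rw [m2_get h1 hd, if_pos h3]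
      norm_num

/-- The entries of the list. -/
theorem mem_cL {p c : ℤ} : c ∈ cL n M s w p ↔ ∃ x < nX n s w, ∃ a < 2 ^ w, ∃ d < 2 ^ w, ∃ b < 2 ^ w,
    va n M s w x (a * 2 ^ w + d) = p ∧ cA n M s w (iC n x) a b = rA n x ∧
      cC n M s w b d = rA n (x / (16 * n ^ 4 + 1)) ∧ c = (cd n s w x (a * 2 ^ w + d) b : ℤ) := by
  rw [P4_cL]
  simp only [List.mem_flatMap, List.mem_map, List.mem_range]
  constructor
  · rintro ⟨x, hx, X, hX, B, hB, rfl⟩
    obtain ⟨x', rfl⟩ := P4_cast hX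
    rw [Int.toNat_natCast] at hB ⊢
    obtain ⟨a, ha, d, hd, rfl, h1, -⟩ := mem_pl.1 hX
    obtain ⟨b, rfl⟩ := P4_cast hB
    obtain ⟨hb, h2, h3⟩ := (mem_bl ha hd).1 hB
    exact ⟨x, hx, a, ha, d, hd, b, hb, h1, h2, h3, rfl⟩
  · rintro ⟨x, hx, a, ha, d, hd, b, hb, h1, h2, h3, rfl⟩
    refine ⟨x, hx, ((a * 2 ^ w + d : ℕ) : ℤ), mem_pl.2 ⟨a, ha, d, hd, rfl, h1, b, hb, h2, h3⟩,
      (b : ℤ), ?_, ?_⟩
    · rw [Int.toNat_natCast]
      exact (mem_bl ha hd).2 ⟨hb, h2, h3⟩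
    · rw [Int.toNat_natCast, Int.toNat_natCast]

/-- The vector of a code. PROOF. `GL.code_cdv`. -/
theorem cd_eq {x a d : ℕ} (b : ℕ) (ha : a < 2 ^ w) (hd : d < 2 ^ w) :
    (cd n s w x (a * 2 ^ w + d) b : ℤ) =
      cdv (fv n (lin n 1 (bC n s w (iC n x) a d) 1 (pt n s w w b))) := by
  unfold cd
  rw [P4_div hd, P4_mod hd, GL.code_cdv]

/-- No repetitions. PROOF. The code determines the vector (`GL.cdv_inj`, `GL.xv_mem`), so `(c, a, b, d)` (`xv_dec`, `GL.xv_inj`,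
`dec_inj`), and `c`, `rA x`, `rA (x / …)` determine `x < nX` (`exists_idx`, `idx_eq`). The list `fm` is nodup if its parts are nodup and
disjoint. -/
theorem cL_nodup (hw : 3 * w ≤ rk s n) (p : ℤ) : (cL n M s w p).Nodup := by
  have key : ∀ x < nX n s w, ∀ y < nX n s w, ∀ a < 2 ^ w, ∀ a' < 2 ^ w, ∀ d < 2 ^ w, ∀ d' < 2 ^ w,
      ∀ b < 2 ^ w, ∀ b' < 2 ^ w, cA n M s w (iC n x) a b = rA n x →
      cC n M s w b d = rA n (x / (16 * n ^ 4 + 1)) → cA n M s w (iC n y) a' b' = rA n y →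
      cC n M s w b' d' = rA n (y / (16 * n ^ 4 + 1)) →
      (cd n s w x (a * 2 ^ w + d) b : ℤ) = cd n s w y (a' * 2 ^ w + d') b' →
      x = y ∧ a = a' ∧ d = d' ∧ b = b' := by
    intro x hx y hy a ha a' ha' d hd d' hd' b hb b' hb' h1 h2 h3 h4 h
    obtain ⟨c, hc, i, hi, j, hj, rfl⟩ := exists_idx hx
    obtain ⟨c', hc', i', hi', j', hj', rfl⟩ := exists_idx hy
    obtain ⟨e1, e2, e3⟩ := idx_eq (c := c) hi hj
    obtain ⟨e1', e2', e3'⟩ := idx_eq (c := c') hi' hj'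
    rw [cd_eq b ha hd, cd_eq b' ha' hd', xv_dec _ ha hb hd, xv_dec _ ha' hb' hd'] at h
    have h5 := GL.cdv_inj (GL.xv_mem s _) (GL.xv_mem s _) h
    rw [e1, e1'] at h5
    have h6 := GL.xv_inj s (dec_lt hw hc ha hb hd) (dec_lt hw hc' ha' hb' hd') h5
    obtain ⟨q1, q2, q3, q4⟩ := dec_inj ha hb hd ha' hb' hd' h6
    subst q1 q2 q3 q4
    rw [e1, e2] at h1
    rw [e1', e2'] at h3
    have h7 : (i : ℤ) = i' := by linarith
    have e3a : rA n ((i + nL n * (j + nL n * c)) / (16 * n ^ 4 + 1)) = (j : ℤ) - 8 * (n : ℤ) ^ 4 := e3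
    have e3b : rA n ((i' + nL n * (j' + nL n * c)) / (16 * n ^ 4 + 1)) = (j' : ℤ) - 8 * (n : ℤ) ^ 4 :=
      e3'
    rw [e3a] at h2
    rw [e3b] at h4
    have h8 : (j : ℤ) = j' := by linarith
    have h9 : i = i' := by exact_mod_cast h7
    have h10 : j = j' := by exact_mod_cast h8
    subst h9 h10
    exact ⟨rfl, rfl, rfl, rfl⟩
  rw [P4_cL]
  have hin : ∀ x < nX n s w, ∀ X ∈ pl n M s w p x, ∀ c, c ∈ ((bl n M s w x X.toNat).map fun B =>
      (cd n s w x X.toNat B.toNat : ℤ)) → ∃ a < 2 ^ w, ∃ d < 2 ^ w, ∃ b < 2 ^ w,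
      X = ((a * 2 ^ w + d : ℕ) : ℤ) ∧ cA n M s w (iC n x) a b = rA n x ∧
      cC n M s w b d = rA n (x / (16 * n ^ 4 + 1)) ∧ c = cd n s w x (a * 2 ^ w + d) b := by
    intro x hx X hX c hc
    obtain ⟨B, hB, rfl⟩ := List.mem_map.1 hc
    obtain ⟨x', rfl⟩ := P4_cast hX
    rw [Int.toNat_natCast] at hB ⊢
    obtain ⟨a, ha, d, hd, rfl, h1, -⟩ := mem_pl.1 hX
    obtain ⟨b, rfl⟩ := P4_cast hB
    obtain ⟨hb, h2, h3⟩ := (mem_bl ha hd).1 hB
    exact ⟨a, ha, d, hd, b, hb, rfl, h2, h3, rfl⟩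
  refine P4_nd _ _ List.nodup_range ?_ ?_
  · intro x hx
    have hx' := List.mem_range.1 hx
    refine P4_nd _ _ (P4_flt_nodup _ _) ?_ ?_
    · intro X hX
      refine List.Nodup.map_on ?_ (P4_flt_nodup _ _)
      intro B hB B' hB' h
      obtain ⟨x', rfl⟩ := P4_cast hX
      rw [Int.toNat_natCast] at hB hB' h
      obtain ⟨a, ha, d, hd, rfl, h1, -⟩ := mem_pl.1 hX
      obtain ⟨b, rfl⟩ := P4_cast hB
      obtain ⟨b', rfl⟩ := P4_cast hB'
      obtain ⟨hb, h2, h3⟩ := (mem_bl ha hd).1 hB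
      obtain ⟨hb', h2', h3'⟩ := (mem_bl ha hd).1 hB'
      rw [Int.toNat_natCast, Int.toNat_natCast] at h
      rw [(key x hx' x hx' a ha a ha d hd d hd b hb b' hb' h2 h3 h2' h3' h).2.2.2]
    · intro X hX Y hY c hc hc'
      obtain ⟨a, ha, d, hd, b, hb, rfl, h1, h2, h3⟩ := hin x hx' X hX c hc
      obtain ⟨a', ha', d', hd', b', hb', rfl, h1', h2', h3'⟩ := hin x hx' Y hY c hc'
      obtain ⟨-, rfl, rfl, -⟩ := key x hx' x hx' a ha a' ha' d hd d' hd' b hb b' hb' h1 h2 h1' h2'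
        (h3.symm.trans h3')
      rfl
  · intro x hx y hy c hc hc'
    have hx' := List.mem_range.1 hx
    have hy' := List.mem_range.1 hy
    obtain ⟨X, hX, hcX⟩ := List.mem_flatMap.1 hc
    obtain ⟨Y, hY, hcY⟩ := List.mem_flatMap.1 hc'
    obtain ⟨a, ha, d, hd, b, hb, rfl, h1, h2, h3⟩ := hin x hx' X hX c hcX
    obtain ⟨a', ha', d', hd', b', hb', rfl, h1', h2', h3'⟩ := hin y hy' Y hY c hcY
    exact (key x hx' y hy' a ha a' ha' d hd d' hd' b hb b' hb' h1 h2 h1' h2' (h3.symm.trans h3')).1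

/-- Listing. PROOF. `mem_cL`, `exists_val`, `Phi_dec`, `xv_dec`, `GL.xv_surj`, `GL.xv_mem`. -/
theorem cL_cpl (hn : 0 < n) (hM : ∀ x ∈ M, |x| ≤ 1) (hs : St (fv n s)) (hw : 3 * w ≤ rk s n) (p : ℤ) :
    Cpl (cL n M s w p) (Lv (wtm n M) (fv n s) p) := by
  have hva : ∀ (x : ℕ) {a b d : ℕ}, a < 2 ^ w → b < 2 ^ w → d < 2 ^ w →
      cA n M s w (iC n x) a b = rA n x → cC n M s w b d = rA n (x / (16 * n ^ 4 + 1)) →
      va n M s w x (a * 2 ^ w + d) = Ph (wtm n M)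
        (fv n (xv n s (a + 2 ^ w * (b + 2 ^ w * (d + 2 ^ w * iC n x))))) := by
    intro x a b d ha hb hd h1 h2
    unfold va
    rw [P4_div hd, P4_mod hd, ← h1, ← h2, ← xv_dec _ ha hb hd, ← GL.Phi_Ph, Phi_dec]
    rfl
  refine ⟨cL_nodup hw p, fun c => ?_⟩
  rw [mem_cL]
  constructor
  · rintro ⟨x, hx, a, ha, d, hd, b, hb, h1, h2, h3, rfl⟩
    refine ⟨fv n (xv n s (a + 2 ^ w * (b + 2 ^ w * (d + 2 ^ w * iC n x)))),
      Finset.mem_filter.2 ⟨GL.xv_mem s _, ?_⟩, ?_⟩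
    · rw [← hva x ha hb hd h2 h3]
      exact h1
    · rw [cd_eq b ha hd, xv_dec _ ha hb hd]
  · rintro ⟨z, hz, rfl⟩
    obtain ⟨hz1, hz2⟩ := Finset.mem_filter.1 hz
    obtain ⟨u, hu, rfl⟩ := GL.xv_surj s hz1
    obtain ⟨c, hc, a, ha, b, hb, d, hd, rfl⟩ := exists_dec hw hu
    obtain ⟨x, hx, h1, h2, h3⟩ := exists_val hn hM hs a b d hc
    rw [← h1] at h2 hz2 ⊢
    refine ⟨x, hx, a, ha, d, hd, b, hb, ?_, h2.symm, h3.symm, ?_⟩
    · rw [hva x ha hb hd h2.symm h3.symm]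
      exact hz2
    · rw [cd_eq b ha hd, xv_dec _ ha hb hd]

end Pool.Agent.MPa9445a.DB
end

section

/-! The best vector of a state by matrix products. -/

set_option autoImplicit false

open Finset

namespace Pool.Agent.MPa9445a.DB

open Pool.Agent.MPa9445a.BE (gt bit tb flt lin Phi vec code argmax matMul wtm fv)
open Pool.Agent.MPa9445a.GD (itr fm)
open Pool.Agent.MPa9445a.GL (rk sv xv laL rhL lvv LL Wb Vc S St Ph Lv lvl Cpl cdv)

variable {n : ℕ} {M s : List ℤ} {w : ℕ}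

private theorem P5_div {a d : ℕ} (hd : d < 2 ^ w) : (a * 2 ^ w + d) / 2 ^ w = a := by
  rw [add_comm, Nat.add_mul_div_right _ _ (by positivity), Nat.div_eq_of_lt hd, zero_add]

private theorem P5_mod {a d : ℕ} (hd : d < 2 ^ w) : (a * 2 ^ w + d) % 2 ^ w = d := by
  rw [add_comm, Nat.add_mul_mod_self_right, Nat.mod_eq_of_lt hd]

private theorem P5_split {x' : ℕ} (h : x' < 2 ^ w * 2 ^ w) : ∃ a < 2 ^ w, ∃ d < 2 ^ w,
    x' = a * 2 ^ w + d := by
  have hpos : 0 < 2 ^ w := by positivity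
  refine ⟨x' / 2 ^ w, ?_, x' % 2 ^ w, Nat.mod_lt _ hpos, ?_⟩
  · rw [Nat.div_lt_iff_lt_mul hpos]
    exact h
  · rw [mul_comm]
    exact (Nat.div_add_mod x' (2 ^ w)).symm

private theorem P5_lt {a d : ℕ} (ha : a < 2 ^ w) (hd : d < 2 ^ w) : a * 2 ^ w + d < 2 ^ w * 2 ^ w := by
  calc a * 2 ^ w + d < a * 2 ^ w + 2 ^ w := by omega
    _ = (a + 1) * 2 ^ w := by ring
    _ ≤ 2 ^ w * 2 ^ w := Nat.mul_le_mul_right _ ha

private theorem P5_bpr (x : ℕ) : bpr n M s w x < 2 ^ w * 2 ^ w ∧ ∀ j < 2 ^ w * 2 ^ w,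
    (if gt (mx n M s w x) j ≠ 0 then va n M s w x j + 32 * (n : ℤ) ^ 4 else 0) ≤
      if gt (mx n M s w x) (bpr n M s w x) ≠ 0 then va n M s w x (bpr n M s w x) + 32 * (n : ℤ) ^ 4
      else 0 := by
  have hpos : 0 < 2 ^ w * 2 ^ w := by positivity
  have h := BE.argmax_spec hpos (fun x' : ℤ =>
    if gt (mx n M s w x) x'.toNat ≠ 0 then va n M s w x x'.toNat + 32 * (n : ℤ) ^ 4 else 0)
  refine ⟨h.1, fun j hj => ?_⟩
  have h2 := h.2 j hj
  simp only [Int.toNat_natCast] at h2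
  exact h2

private theorem P5_cast {k : ℕ} {q : ℕ → Prop} [DecidablePred q] {z : ℤ} (h : z ∈ flt k q) :
    ∃ i < k, z = (i : ℤ) := by
  unfold flt at h
  simp only [List.mem_map, List.mem_filter, List.mem_range, decide_eq_true_eq] at h
  obtain ⟨i, ⟨h1, _⟩, h2⟩ := h
  exact ⟨i, h1, h2.symm⟩

private theorem P5_gt0 (L : List ℤ) : L = [] ∨ gt L 0 ∈ L := by
  cases L with
  | nil => exact Or.inl rfl
  | cons a L => exact Or.inr (List.mem_cons_self ..)

private theorem P5_b (x x' : ℕ) : (gt (bl n M s w x x') 0).toNat < 2 ^ w := by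
  rcases P5_gt0 (bl n M s w x x') with h | h
  · rw [h]
    show (0 : ℤ).toNat < 2 ^ w
    rw [Int.toNat_zero]
    positivity
  · obtain ⟨i, hi, h1⟩ := P5_cast h
    rw [h1, Int.toNat_natCast]
    exact hi

private theorem P5_va (x : ℕ) {a b d : ℕ} (hd : d < 2 ^ w)
    (h1 : cA n M s w (iC n x) a b = rA n x) (h2 : cC n M s w b d = rA n (x / (16 * n ^ 4 + 1))) :
    va n M s w x (a * 2 ^ w + d) =
      Phi n M (lin n 1 (bC n s w (iC n x) a d) 1 (pt n s w w b)) := by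
  unfold va
  rw [P5_div hd, P5_mod hd, ← h1, ← h2, Phi_dec]
  rfl

/-- Every candidate is a vector of the state. PROOF. `bpr < 2 ^ w * 2 ^ w`; the entry `0` of `bl` is `< 2 ^ w` (the entry of an empty list is
`0`); `cd_eq`, `xv_dec`, `GL.xv_mem`. -/
theorem bc_mem (x : ℕ) : ∃ y ∈ S (fv n s), (bc n M s w x : ℤ) = cdv y := by
  obtain ⟨a, ha, d, hd, h1⟩ := P5_split (P5_bpr (n := n) (M := M) (s := s) (w := w) x).1
  have hb := P5_b (n := n) (M := M) (s := s) (w := w) x (bpr n M s w x)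
  refine ⟨_, GL.xv_mem s (a + 2 ^ w * ((gt (bl n M s w x (bpr n M s w x)) 0).toNat +
    2 ^ w * (d + 2 ^ w * iC n x))), ?_⟩
  unfold bc
  rw [← xv_dec _ ha hb hd, ← cd_eq _ ha hd, ← h1]

/-- The candidate of the right index is good. PROOF. `a * 2 ^ w + d` has a nonzero entry and `va = Phi (…)` by `Phi_dec`; `bpr` is at least as good
and has a nonzero entry (`va ≥ - 18 n ^ 4`), so `bl` is not empty and the value of `cd` is `va` by `Phi_dec`. -/
theorem bc_good (hn : 0 < n) (hM : ∀ x ∈ M, |x| ≤ 1) (hs : St (fv n s)) {x a b d : ℕ}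
    (ha : a < 2 ^ w) (hb : b < 2 ^ w) (hd : d < 2 ^ w) (h1 : rA n x = cA n M s w (iC n x) a b)
    (h2 : rA n (x / (16 * n ^ 4 + 1)) = cC n M s w b d) :
    Phi n M (lin n 1 (bC n s w (iC n x) a d) 1 (pt n s w w b)) ≤ Phi n M (sv n s (bc n M s w x)) := by
  have hn4 : (0 : ℤ) < (n : ℤ) ^ 4 := by
    have : (0 : ℤ) < n := by exact_mod_cast hn
    positivity
  have e0 := P5_va x hd h1.symm h2.symm
  -- the entry of the pair is nonzero
  have hmem : ((a * 2 ^ w + d : ℕ) : ℤ) ∈ pl n M s w (va n M s w x (a * 2 ^ w + d)) x :=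
    mem_pl.2 ⟨a, ha, d, hd, rfl, rfl, b, hb, h1.symm, h2.symm⟩
  have hnz : gt (mx n M s w x) (a * 2 ^ w + d) ≠ 0 := by
    unfold pl at hmem
    unfold flt at hmem
    simp only [List.mem_map, List.mem_filter, List.mem_range, decide_eq_true_eq] at hmem
    obtain ⟨i, ⟨_, h3, _⟩, h4⟩ := hmem
    have h5 : i = a * 2 ^ w + d := by exact_mod_cast h4
    rw [h5] at h3
    exact h3
  obtain ⟨hlt, hmax⟩ := P5_bpr (n := n) (M := M) (s := s) (w := w) x
  have hm := hmax _ (P5_lt ha hd)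
  rw [if_pos hnz] at hm
  -- the value is not too small
  have hv : - (18 * (n : ℤ) ^ 4) ≤ va n M s w x (a * 2 ^ w + d) := by
    rw [e0, Phi_dec]
    have b1 := abs_le.1 (bC_abs (w := w) hn hM hs (iC n x) a d)
    have b2 := abs_le.1 (al_abs (w := w) hn hM hs (iC n x) a b)
    have b3 := abs_le.1 (be_abs (w := w) hn hM hs b d)
    linarith [b1.1, b2.1, b3.1]
  have hnz' : gt (mx n M s w x) (bpr n M s w x) ≠ 0 := by
    intro h
    rw [if_neg (by rw [h]; simp)] at hm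
    linarith
  rw [if_pos hnz'] at hm
  obtain ⟨a', ha', d', hd', h3⟩ := P5_split hlt
  have hmem' : ((bpr n M s w x : ℕ) : ℤ) ∈ pl n M s w (va n M s w x (bpr n M s w x)) x := by
    unfold pl
    unfold flt
    simp only [List.mem_map, List.mem_filter, List.mem_range, decide_eq_true_eq]
    exact ⟨bpr n M s w x, ⟨hlt, hnz', rfl⟩, rfl⟩
  obtain ⟨a'', ha'', d'', hd'', h4, -, b', hb', h5, h6⟩ := mem_pl.1 hmem'
  have hne : bl n M s w x (bpr n M s w x) ≠ [] := by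
    intro h
    have h7 : (b' : ℤ) ∈ bl n M s w x (a'' * 2 ^ w + d'') := (mem_bl ha'' hd'').2 ⟨hb', h5, h6⟩
    rw [← h4, h] at h7
    exact absurd h7 (List.not_mem_nil)
  have h8 := (P5_gt0 (bl n M s w x (bpr n M s w x))).resolve_left hne
  obtain ⟨β, hβ, h9⟩ := P5_cast h8
  have h10 : (β : ℤ) ∈ bl n M s w x (a'' * 2 ^ w + d'') := by
    rw [← h4, ← h9]
    exact h8
  obtain ⟨_, h11, h12⟩ := (mem_bl ha'' hd'').1 h10
  have e1 := P5_va x hd'' h11 h12
  rw [← h4] at e1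
  have e2 : (bc n M s w x : ℤ) =
      cdv (fv n (lin n 1 (bC n s w (iC n x) a'' d'') 1 (pt n s w w β))) := by
    rw [← cd_eq _ ha'' hd'']
    unfold bc
    rw [h9, Int.toNat_natCast, ← h4]
  have e3 : fv n (sv n s (bc n M s w x)) =
      fv n (lin n 1 (bC n s w (iC n x) a'' d'') 1 (pt n s w w β)) := by
    have h13 : fv n (lin n 1 (bC n s w (iC n x) a'' d'') 1 (pt n s w w β)) ∈ S (fv n s) := by
      rw [xv_dec _ ha'' hβ hd'']
      exact GL.xv_mem s _
    have h14 := GL.sv_cdv s h13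
    rw [← e2, Int.toNat_natCast] at h14
    exact h14
  calc Phi n M (lin n 1 (bC n s w (iC n x) a d) 1 (pt n s w w b))
      = va n M s w x (a * 2 ^ w + d) := e0.symm
    _ ≤ va n M s w x (bpr n M s w x) := by linarith
    _ = Phi n M (lin n 1 (bC n s w (iC n x) a'' d'') 1 (pt n s w w β)) := e1
    _ = Phi n M (sv n s (bc n M s w x)) := by
      rw [GL.Phi_Ph, GL.Phi_Ph, e3]

/-- Maximizing. PROOF. `argmax_spec`, `exists_val`, `exists_dec`, `GL.xv_surj`, `bc_good`, `bc_mem`, `GL.sv_cdv`. -/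
theorem cB_spec (hn : 0 < n) (hM : ∀ x ∈ M, |x| ≤ 1) (hs : St (fv n s)) (hw : 3 * w ≤ rk s n) :
    ∃ y ∈ S (fv n s), (cB n M s w : ℤ) = cdv y ∧
      ∀ x ∈ S (fv n s), Ph (wtm n M) x ≤ Ph (wtm n M) y := by
  have hX : 0 < nX n s w := by
    unfold nX
    positivity
  have ham := BE.argmax_spec hX (fun x : ℤ => Phi n M (sv n s (bc n M s w x.toNat)))
  obtain ⟨y, hy, e⟩ := bc_mem (n := n) (M := M) (s := s) (w := w)
    (argmax (nX n s w) fun x : ℤ => Phi n M (sv n s (bc n M s w x.toNat)))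
  refine ⟨y, hy, e, fun z hz => ?_⟩
  obtain ⟨u, hu, rfl⟩ := GL.xv_surj s hz
  obtain ⟨c, hc, a, ha, b, hb, d, hd, rfl⟩ := exists_dec hw hu
  obtain ⟨x, hx, h1, h2, h3⟩ := exists_val hn hM hs a b d hc
  subst h1
  have h4 := bc_good hn hM hs ha hb hd h2 h3
  have h5 := ham.2 x hx
  simp only [Int.toNat_natCast] at h5
  have h6 := GL.sv_cdv s hy
  rw [← e, Int.toNat_natCast] at h6
  rw [← xv_dec _ ha hb hd, ← GL.Phi_Ph, ← h6, ← GL.Phi_Ph]
  exact h4.trans h5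

end Pool.Agent.MPa9445a.DB
end
end
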