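import Pool.Agent.Lib.MP_a9445a_lc.Mg.G142
import Pool.Agent.Lib.MP_a9445a_lc.Mg.G140
import Pool.Agent.Lib.MP_a9445a_lc.Mg.G095

section

/-! The targets and the next region. -/

set_option autoImplicit false

open Finset

namespace Pool.Agent.MPa9445a.DB

open Pool.Agent.MPa9445a.BE (Ty Env vs one Bd NL DL tb flt gt bit Phi vec code lin argmax matMul Bd.const
  Bd.add Bd.mul Bd.le Bd.up Bd.var Bd.self)
open Pool.Agent.MPa9445a.GD
open Pool.Agent.MPa9445a.GL (rk sv laL rhL lvv LL c_rk bd_rk c_sv c_laL c_rhL c_LL bd_LL c_lvv)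

/-- The number of pairs for the target number `g` from the table. -/
def tG (n : ℕ) (M : List ℤ) (a g : ℕ) : ℤ :=
  ∑ x ∈ range (2 ^ (n - nJ n)), gt (eT n M a (nS n M a)) (g * 2 ^ (n - nJ n) + x)

private theorem T14_En (n : ℕ) (M : List ℤ) (a g x : ℕ) (hg : g < LL n)
    (hx : x < 2 ^ (n - nJ n)) :
    gt (eT n M a (nS n M a)) (g * 2 ^ (n - nJ n) + x) = En n M a ((n : ℤ) ^ 4 - g) x := by
  have hlt : g * 2 ^ (n - nJ n) + x < LL n * 2 ^ (n - nJ n) := by
    calc g * 2 ^ (n - nJ n) + x < g * 2 ^ (n - nJ n) + 2 ^ (n - nJ n) := by omega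
      _ = (g + 1) * 2 ^ (n - nJ n) := by ring
      _ ≤ LL n * 2 ^ (n - nJ n) := Nat.mul_le_mul_right _ hg
  have h1 : (g * 2 ^ (n - nJ n) + x) / 2 ^ (n - nJ n) = g := by
    rw [mul_comm, Nat.mul_add_div (by positivity), Nat.div_eq_of_lt hx, add_zero]
  have h2 : (g * 2 ^ (n - nJ n) + x) % 2 ^ (n - nJ n) = x := by
    rw [mul_comm, Nat.mul_add_mod, Nat.mod_eq_of_lt hx]
  rw [eT_En n M a _ hlt, h2, tg, h1]

/-- PROOF. `eT_En`. -/
theorem tE_eq (n : ℕ) (M : List ℤ) (a g : ℕ) (hg : g < LL n) :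
    tE n M a ((n : ℤ) ^ 4 - g) = tG n M a g := by
  unfold tE tG
  refine Finset.sum_congr rfl fun x hx => ?_
  rw [T14_En n M a g x hg (Finset.mem_range.1 hx)]

/-- The number of the first target with too many pairs. -/
def g1 (n : ℕ) (M : List ℤ) (a : ℕ) : ℕ := argmax (LL n) fun y =>
  if m0 n M a < (n : ℤ) ^ 4 - y.toNat ∧ thE n M a < tG n M a y.toNat then 1 else 0

/-- PROOF. `tE_eq`, `GD.argmax_congr`. -/
theorem p1_eq (n : ℕ) (M : List ℤ) (a : ℕ) : p1 n M a = (n : ℤ) ^ 4 - g1 n M a := by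
  unfold p1 g1
  congr 2
  refine argmax_congr fun i hi => ?_
  rw [Int.toNat_natCast, tE_eq n M a i hi]

/-- PROOF. `p1_eq`, `eT_En` (`g1 < LL n`, `argmax_lt`), `GD.argmax_congr`. -/
theorem a1_eq (n : ℕ) (M : List ℤ) (a : ℕ) : a1 n M a =
    xr (n - nJ n) a (argmax (2 ^ (n - nJ n)) fun x =>
      gt (eT n M a (nS n M a)) (g1 n M a * 2 ^ (n - nJ n) + x.toNat)) := by
  have hg : g1 n M a < LL n := by
    have h := (BE.argmax_spec (k := LL n) (by unfold LL; omega) fun y : ℤ =>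
      if m0 n M a < (n : ℤ) ^ 4 - y.toNat ∧ thE n M a < tG n M a y.toNat then 1 else 0).1
    exact h
  unfold a1
  congr 1
  refine argmax_congr fun i hi => ?_
  rw [Int.toNat_natCast, T14_En n M a _ i hg hi, p1_eq]

variable {A : Type} {N : A → ℕ} {D : A → Prop} {Γ : List Ty} {ρ : A → Env Γ}
  {n : A → ℕ} {M : A → List ℤ} {a : A → ℕ}

theorem T14_w (N' n k : ℕ) (hk : k ≤ 2 ^ nJ n) :
    ((k : ℝ) + 1) * 1 ≤ ((N' : ℝ) + 2) ^ 1 * wJ n := by
  have h1 : (k : ℝ) ≤ wJ n := by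
    unfold wJ
    exact_mod_cast hk
  have h2 := one_le_wJ n
  have h3 : (0 : ℝ) ≤ N' := Nat.cast_nonneg _
  rw [pow_one, mul_one]
  nlinarith

private theorem T14_bz (h : Rd N D ρ n M a)
    (e : PA N D ρ (fun q => rv (n q) (M q) (a q))) :
    Cp N D ρ (fun _ q => wJ (n q)) .int (fun q => (bz (n q) (M q) (a q) : ℤ)) := by
  have hb : Body N D ρ (fun q => 2 ^ nJ (n q)) one .int
      (fun q z => gt (rv (n q) (M q) (a q)) z) := by
    intro Γ2 ρ2 up hz
    exact PI.get (up.a e) hz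
  have h2 := Cp.amax h.pJ (fun _ _ _ _ => le_refl _) hb
  have h3 : Cp N D ρ (fun τ q => (((2 ^ nJ (n q) : ℕ) : ℝ) + 1) * one τ q) .int
      (fun q => (bz (n q) (M q) (a q) : ℤ)) := h2
  exact h3.mono_poly 1 fun q _ τ _ => ⟨one_le_wJ _, T14_w (N q) (n q) _ le_rfl⟩

theorem c_bz (h : Rd N D ρ n M a) :
    Cp N D ρ (fun _ q => wJ (n q)) .int (fun q => (bz (n q) (M q) (a q) : ℤ)) :=
  Cp.store (c_rv h) fun _ _ k1 e1 => T14_bz (h.ke k1) e1

theorem c_m0 (h : Rd N D ρ n M a) :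
    Cp N D ρ (fun _ q => wJ (n q)) .int (fun q => m0 (n q) (M q) (a q)) := by
  refine Cp.store (c_rv h) fun Γ1 ρ1 k1 e1 => ?_
  refine Cp.store (T14_bz (h.ke k1) e1) fun Γ2 ρ2 k2 e2 => ?_
  have h3 : PI N D ρ2 (fun q => m0 (n q) (M q) (a q)) := PI.get (k2.a e1) e2
  exact h3.lift fun _ _ _ _ => one_le_wJ _

theorem c_thE (h : Rd N D ρ n M a) :
    Cp N D ρ (fun _ q => wJ (n q)) .int (fun q => thE (n q) (M q) (a q)) := by
  refine Cp.store (c_qq h) fun Γ1 ρ1 k1 e1 => ?_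
  have h1 := h.ke k1
  have e1' : PN N D ρ1 (fun q => qq (n q) (M q) (a q)) := e1
  have h2 : PN N D ρ1 (fun q => 2 ^ nJ (n q) * LL (n q) * (qq (n q) (M q) (a q) + 1) *
      n q ^ 14 * (nJ (n q) + 2)) :=
    PN.mul (PN.mul (PN.mul (PN.mul h1.pJ (c_LL h1.hn)) (PN.add e1' (PN.const 1)))
      (PN.pow h1.hn 14)) (PN.add (c_nJ h1.hn) (PN.const 2))
  have h3 : PI N D ρ1 (fun q => thE (n q) (M q) (a q)) := h2.congr fun q _ => by
    unfold thE R1
    push_cast
    ring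
  exact h3.lift fun _ _ _ _ => one_le_wJ _

/-- The number of pairs of a target if the table is stored. -/
theorem c_tG (h : Rd N D ρ n M a)
    (hE : PA N D ρ (fun q => eT (n q) (M q) (a q) (nS (n q) (M q) (a q)))) {g : A → ℕ}
    (hg : PN N D ρ g) : Cp N D ρ (fun _ q => wJ (n q)) .int (fun q => tG (n q) (M q) (a q) (g q)) := by
  have hb : Body N D ρ (fun q => 2 ^ (n q - nJ (n q))) one .int
      (fun q x => gt (eT (n q) (M q) (a q) (nS (n q) (M q) (a q)))
        (g q * 2 ^ (n q - nJ (n q)) + x)) := by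
    intro Γ2 ρ2 up hz
    exact PI.get (up.a hE) (PN.add (PN.mul (up.n hg) (up.n h.p2)) hz)
  have h2 := Cp.sum h.p2 (fun _ _ _ _ => le_refl _) hb
  have h3 : Cp N D ρ (fun τ q => (((2 ^ (n q - nJ (n q)) : ℕ) : ℝ) + 1) * one τ q) .int
      (fun q => tG (n q) (M q) (a q) (g q)) := h2
  exact h3.mono_poly 1 fun q hq τ _ => ⟨one_le_wJ _, T14_w (N q) (n q) _
    (Nat.pow_le_pow_right (by norm_num) (two_nJ (h.big q hq)))⟩

theorem c_g1 (h : Rd N D ρ n M a)
    (hE : PA N D ρ (fun q => eT (n q) (M q) (a q) (nS (n q) (M q) (a q)))) :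
    Cp N D ρ (fun _ q => wJ (n q)) .int (fun q => (g1 (n q) (M q) (a q) : ℤ)) := by
  refine Cp.store (c_m0 h) fun Γ1 ρ1 k1 e1 => ?_
  have h1 := h.ke k1
  have hE1 := k1.a hE
  refine Cp.store (c_thE h1) fun Γ2 ρ2 k2 e2 => ?_
  have h2 := h1.ke k2
  have hE2 := k2.a hE1
  have e1' := k2.i e1
  have hb : Body N D ρ2 (fun q => LL (n q)) (fun _ q => wJ (n q)) .int
      (fun q y => if m0 (n q) (M q) (a q) < (n q : ℤ) ^ 4 - (y : ℤ) ∧
        thE (n q) (M q) (a q) < tG (n q) (M q) (a q) y then 1 else 0) := by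
    intro Γ3 ρ3 up hy
    have h3 := h2.up up
    refine Cp.store (c_tG (n := fun q : A × ℕ => n q.1) (M := fun q : A × ℕ => M q.1)
      (a := fun q : A × ℕ => a q.1) h3 (up.a hE2) hy) fun Γ4 ρ4 k4 e4 => ?_
    have h5 : PB (NL N) (DL D fun q => LL (n q)) ρ4 (fun p => m0 (n p.1) (M p.1) (a p.1) <
        (n p.1 : ℤ) ^ 4 - (p.2 : ℤ) ∧
        thE (n p.1) (M p.1) (a p.1) < tG (n p.1) (M p.1) (a p.1) p.2) :=
      PB.and (PB.lt (k4.i (up.i e1')) (PI.sub (PI.pow (k4.n h3.hn) 4) (k4.n hy)))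
        (PB.lt (k4.i (up.i e2)) e4)
    exact (Cp.ite (w := one) h5 (PI.const 1) (PI.const 0)).lift fun _ _ _ _ => one_le_wJ _
  have h6 := Cp.amax (c_LL h2.hn) (fun q _ _ _ => one_le_wJ (n q)) hb
  have h7 : Cp N D ρ2 (fun _ q => ((LL (n q) : ℝ) + 1) * wJ (n q)) .int
      (fun q => (g1 (n q) (M q) (a q) : ℤ)) := h6
  obtain ⟨m, hm⟩ := (bd_LL h.bn).add (Bd.const 1)
  refine h7.mono_poly m fun q hq τ hτ => ⟨one_le_wJ _, ?_⟩
  refine mul_le_mul_of_nonneg_right ?_ (zero_le_one.trans (one_le_wJ _))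
  have h5 : ((LL (n q) + 1 : ℕ) : ℝ) ≤ ((N q + 2 : ℕ) : ℝ) ^ m := by exact_mod_cast hm q hq
  push_cast at h5
  exact h5

/-- The next region. -/
theorem c_a1 (h : Rd N D ρ n M a) :
    Cp N D ρ (fun τ q => wE τ (n q)) .int (fun q => (a1 (n q) (M q) (a q) : ℤ)) := by
  have hJE : ∀ q, D q → ∀ τ : ℝ, 2 ≤ τ → wJ (n q) ≤ wE τ (n q) := by
    intro q _ τ hτ
    have h2 := one_le_wD hτ (n q)
    have h3 : (0 : ℝ) ≤ (2 : ℝ) ^ (2 * (n q - nJ (n q))) * wD τ (n q) := by positivity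
    unfold wE
    linarith
  refine Cp.congr (f := fun q => ((xr (n q - nJ (n q)) (a q) (argmax (2 ^ (n q - nJ (n q))) fun x =>
      gt (eT (n q) (M q) (a q) (nS (n q) (M q) (a q)))
        (g1 (n q) (M q) (a q) * 2 ^ (n q - nJ (n q)) + x.toNat)) : ℕ) : ℤ)) ?_
    (fun q _ => by rw [a1_eq])
  refine Cp.store (c_eT h) fun Γ1 ρ1 k1 e1 => ?_
  have h1 := h.ke k1
  refine Cp.store ((c_g1 h1 e1).mono hJE) fun Γ2 ρ2 k2 e2 => ?_
  have h2 := h1.ke k2
  have e1' := k2.a e1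
  have e2' : PN N D ρ2 (fun q => g1 (n q) (M q) (a q)) := e2
  have hb : Body N D ρ2 (fun q => 2 ^ (n q - nJ (n q))) one .int
      (fun q x => gt (eT (n q) (M q) (a q) (nS (n q) (M q) (a q)))
        (g1 (n q) (M q) (a q) * 2 ^ (n q - nJ (n q)) + x)) := by
    intro Γ3 ρ3 up hz
    exact PI.get (up.a e1') (PN.add (PN.mul (up.n e2') (up.n h2.p2)) hz)
  have h3 := Cp.amax h2.p2 (fun _ _ _ _ => le_refl _) hb
  have h4 := h3.mono_poly (w' := fun _ q => wJ (n q)) 1 fun q hq τ _ => ⟨one_le_wJ _,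
    T14_w (N q) (n q) _ (Nat.pow_le_pow_right (by norm_num) (two_nJ (h.big q hq)))⟩
  refine Cp.store (h4.mono hJE) fun Γ4 ρ4 k4 e4 => ?_
  have h5 := h2.ke k4
  exact (c_xr (PN.sub h5.hn (c_nJ h5.hn)) (Bd.le h.bn fun _ _ => Nat.sub_le _ _) h5.ha e4).lift
    fun q _ τ hτ => one_le_wE hτ (n q)

end Pool.Agent.MPa9445a.DB
end

section

section

/-! The next region (Lemma 4 of the paper). -/

set_option autoImplicit false

open Finset

namespace Pool.Agent.MPa9445a.DB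

open Pool.Agent.MPa9445a.BE (gt bit tb flt lin Phi vec code argmax matMul wtm fv)
open Pool.Agent.MPa9445a.GD (itr fm)
open Pool.Agent.MPa9445a.GL (rk sv xv laL rhL lvv LL Wb Vc S St Ph Lv lvl Res Fr la rh fl on off)

variable {n : ℕ} {M : List ℤ} {a : ℕ}

/-- The number of pairs. PROOF. `Ed_eq`, `dd … i x κ = ds … i κ + 2 ^ nJ * x`. -/
theorem En_eq (hn : 0 < n) (hM : ∀ x ∈ M, |x| ≤ 1) {p : ℤ} (hp : (p + tt n M a) % 2 = 0) (x : ℕ) :
    En n M a p x = ∑ i ∈ range (nS n M a), ∑ κ ∈ range (dl n M a i).length,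
      (((range (2 ^ nJ n)).filter fun z =>
        fz n M (xr (n - nJ n) a x) z + fz n M a (xr (nJ n) z (ds n M a i κ)) = p + tt n M a).card : ℤ) := by
  unfold En
  rw [if_pos hp]
  refine Finset.sum_congr rfl fun i _ => Finset.sum_congr rfl fun κ hκ => ?_
  have h1 : dd n M a i x κ = ds n M a i κ + 2 ^ nJ n * x := rfl
  have h2 : 2 * ((p + tt n M a) / 2) = p + tt n M a := by omega
  rw [h1, Ed_eq hn hM x (ds_spec (Finset.mem_range.1 hκ)).1, h2]

/-- LEMMA 4. PROOF. For a pair `fz a (xr z D) = p + t - fz … z ≥ t` and `fz … z = p + t - fz a (xr z D) ≥ p + t - m0 > t` (`m0_ge`, `xr_lt`); exchange the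
sums, `load_ds`. If `(p + t) % 2 ≠ 0` then `En = 0`. -/
theorem En_le (hn : 0 < n) (hM : ∀ x ∈ M, |x| ≤ 1) {p : ℤ} {x : ℕ}
    (hp : ∀ z < 2 ^ nJ n, fz n M (xr (n - nJ n) a x) z ≤ p) (hm : m0 n M a < p) :
    En n M a p x ≤ nS n M a * (nJ n + 2) *
      ((range (2 ^ nJ n)).filter fun z => tt n M a < fz n M (xr (n - nJ n) a x) z).card := by
  by_cases hpar : (p + tt n M a) % 2 = 0
  swap
  · have h1 : En n M a p x = 0 := by
      unfold En
      rw [if_neg hpar]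
    rw [h1]
    positivity
  rw [En_eq hn hM hpar]
  have key : ∀ i ∈ range (nS n M a), ∑ κ ∈ range (dl n M a i).length,
      (((range (2 ^ nJ n)).filter fun z =>
        fz n M (xr (n - nJ n) a x) z + fz n M a (xr (nJ n) z (ds n M a i κ)) = p + tt n M a).card : ℤ) ≤
      (nJ n + 2) *
        ((range (2 ^ nJ n)).filter fun z => tt n M a < fz n M (xr (n - nJ n) a x) z).card := by
    intro i hi
    have hi' := Finset.mem_range.1 hi
    have e1 : ∀ κ, (((range (2 ^ nJ n)).filter fun z =>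
        fz n M (xr (n - nJ n) a x) z + fz n M a (xr (nJ n) z (ds n M a i κ)) = p + tt n M a).card : ℤ) =
        ∑ z ∈ range (2 ^ nJ n), if fz n M (xr (n - nJ n) a x) z +
          fz n M a (xr (nJ n) z (ds n M a i κ)) = p + tt n M a then (1 : ℤ) else 0 := by
      intro κ
      rw [Finset.card_filter]
      push_cast
      rfl
    rw [Finset.sum_congr rfl fun κ _ => e1 κ, Finset.sum_comm]
    have e2 : (((range (2 ^ nJ n)).filter fun z => tt n M a < fz n M (xr (n - nJ n) a x) z).card : ℤ) =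
        ∑ z ∈ range (2 ^ nJ n), if tt n M a < fz n M (xr (n - nJ n) a x) z then (1 : ℤ) else 0 := by
      rw [Finset.card_filter]
      push_cast
      rfl
    rw [e2, Finset.mul_sum]
    refine Finset.sum_le_sum fun z hz => ?_
    have hz' := Finset.mem_range.1 hz
    by_cases ht : tt n M a < fz n M (xr (n - nJ n) a x) z
    · rw [if_pos ht, mul_one]
      have h1 := load_ds (M := M) (a := a) hi' hz'
      have h2 : (∑ κ ∈ range (dl n M a i).length, if fz n M (xr (n - nJ n) a x) z +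
          fz n M a (xr (nJ n) z (ds n M a i κ)) = p + tt n M a then (1 : ℤ) else 0) ≤
          (((range (dl n M a i).length).filter fun κ =>
            tt n M a ≤ fz n M a (xr (nJ n) z (ds n M a i κ))).card : ℤ) := by
        rw [Finset.card_filter]
        push_cast
        refine Finset.sum_le_sum fun κ _ => ?_
        by_cases h3 : fz n M (xr (n - nJ n) a x) z +
          fz n M a (xr (nJ n) z (ds n M a i κ)) = p + tt n M a
        · rw [if_pos h3, if_pos (by linarith [hp z hz'])]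
        · rw [if_neg h3]
          split_ifs <;> norm_num
      have h3 : (((range (dl n M a i).length).filter fun κ =>
            tt n M a ≤ fz n M a (xr (nJ n) z (ds n M a i κ))).card : ℤ) ≤ nJ n + 2 := by
        exact_mod_cast h1
      exact h2.trans h3
    · rw [if_neg ht, mul_zero]
      refine le_of_eq (Finset.sum_eq_zero fun κ _ => ?_)
      rw [if_neg]
      intro h3
      apply ht
      have h4 := m0_ge (M := M) (a := a) (xr_lt (nJ n) z (ds n M a i κ))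
      linarith
  refine (Finset.sum_le_sum key).trans ?_
  rw [Finset.sum_const, Finset.card_range, nsmul_eq_mul]
  exact le_of_eq (by ring)

private theorem R2_first {k : ℕ} (f : ℤ → ℤ) {i : ℕ} (hi : i < k)
    (h : ∀ j < k, f (j : ℤ) ≤ f (i : ℤ)) : argmax k f ≤ i := by
  unfold argmax
  set p : ℕ → Bool := fun i : ℕ =>
    (List.range k).all fun j : ℕ => decide (f (j : ℤ) ≤ f (i : ℤ)) with hp
  have hpi : p i = true := by
    rw [hp]
    simp only
    rw [List.all_eq_true]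
    intro j hj
    exact decide_eq_true (h j (List.mem_range.mp hj))
  cases hf : (List.range k).find? p with
  | none =>
    rw [List.find?_eq_none] at hf
    exact absurd hpi (hf i (List.mem_range.2 hi))
  | some m =>
    have h2 := (List.find?_range_eq_some.1 hf).2.2
    rw [Option.getD_some]
    by_contra hlt
    push Not at hlt
    have h1 := h2 i hlt
    rw [hpi] at h1
    simp at h1

/-- The first target. PROOF. `argmax` is the first index of a maximum; the index of `p` is `n ^ 4 - p < LL n`. -/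
theorem p1_spec {p : ℤ} (hp : |p| ≤ (n : ℤ) ^ 4) (hm : m0 n M a < p) (ht : thE n M a < tE n M a p) :
    p ≤ p1 n M a ∧ m0 n M a < p1 n M a ∧ thE n M a < tE n M a (p1 n M a) := by
  set f : ℤ → ℤ := fun y =>
    if m0 n M a < (n : ℤ) ^ 4 - y.toNat ∧ thE n M a < tE n M a ((n : ℤ) ^ 4 - y.toNat) then 1 else 0
    with hf
  have hLL : 0 < LL n := Nat.succ_pos _
  obtain ⟨h1, h2⟩ := BE.argmax_spec hLL f
  have hp1 : p1 n M a = (n : ℤ) ^ 4 - (argmax (LL n) f : ℕ) := rfl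
  obtain ⟨hpl, hpu⟩ := abs_le.1 hp
  obtain ⟨i, hi⟩ : ∃ i : ℕ, (i : ℤ) = (n : ℤ) ^ 4 - p :=
    ⟨((n : ℤ) ^ 4 - p).toNat, Int.toNat_of_nonneg (by linarith)⟩
  have hi1 : i < LL n := by
    have h3 : (i : ℤ) < ((LL n : ℕ) : ℤ) := by
      unfold LL
      push_cast
      linarith
    exact_mod_cast h3
  have hi2 : (n : ℤ) ^ 4 - ((i : ℤ).toNat : ℕ) = p := by
    rw [Int.toNat_natCast]
    linarith
  have hfi : f i = 1 := by
    rw [hf]
    simp only
    rw [hi2, if_pos ⟨hm, ht⟩]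
  have hf1 : ∀ y, f y ≤ 1 := by
    intro y
    rw [hf]
    simp only
    split_ifs <;> norm_num
  have h3 := h2 i hi1
  rw [hfi] at h3
  have h4 : m0 n M a < p1 n M a ∧ thE n M a < tE n M a (p1 n M a) := by
    rw [hp1]
    by_contra hcon
    have h5 : f (argmax (LL n) f) = 0 := by
      rw [hf]
      simp only
      rw [← hf, Int.toNat_natCast, if_neg hcon]
    rw [h5] at h3
    norm_num at h3
  have h5 : argmax (LL n) f ≤ i := R2_first f hi1 fun j _ => by rw [hfi]; exact hf1 j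
  refine ⟨?_, h4.1, h4.2⟩
  rw [hp1]
  have h6 : ((argmax (LL n) f : ℕ) : ℤ) ≤ i := by exact_mod_cast h5
  linarith

/-- PROOF. `xr_lt`. -/
theorem a1_lt : a1 n M a < 2 ^ (n - nJ n) := xr_lt _ _ _

/-- The best region. PROOF. The maximum over `x < 2 ^ (n - nJ)` is at least the average. -/
theorem a1_spec (h : thE n M a < tE n M a (p1 n M a)) : ∃ x < 2 ^ (n - nJ n),
    a1 n M a = xr (n - nJ n) a x ∧ thE n M a < 2 ^ (n - nJ n) * En n M a (p1 n M a) x := by
  obtain ⟨h1, h2⟩ := BE.argmax_spec (k := 2 ^ (n - nJ n)) (by positivity)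
    (fun x : ℤ => En n M a (p1 n M a) x.toNat)
  refine ⟨_, h1, rfl, lt_of_lt_of_le h ?_⟩
  unfold tE
  have h3 : ∀ x ∈ range (2 ^ (n - nJ n)), En n M a (p1 n M a) x ≤
      En n M a (p1 n M a) (argmax (2 ^ (n - nJ n)) fun x : ℤ => En n M a (p1 n M a) x.toNat) := by
    intro x hx
    have h4 := h2 x (Finset.mem_range.1 hx)
    simp only [Int.toNat_natCast] at h4
    exact h4
  refine (Finset.sum_le_card_nsmul _ _ _ h3).trans ?_
  rw [Finset.card_range, nsmul_eq_mul]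
  push_cast
  exact le_refl _

/-- PROGRESS. PROOF. `p1_spec`, `a1_spec`, `En_le` for `p1 ≥ p`, `thE = 2 ^ nJ * LL * (q + 1) R1 (nJ + 2)` and `Y0 * 2 ^ (n - nJ) = 2 ^ nJ` (`Y0_mul`):
more than `LL * Y0` vectors above `t`; `tt_lt`. -/
theorem progress (hn : 10 ^ 16 ≤ n) (hM : ∀ x ∈ M, |x| ≤ 1) {p : ℤ} (hp : |p| ≤ (n : ℤ) ^ 4)
    (hmax : ∀ b < 2 ^ (n - nJ n), ∀ z < 2 ^ nJ n, fz n M b z ≤ p) (hm : m0 n M a < p)
    (ht : thE n M a < tE n M a p) : tt n M a < tt n M (a1 n M a) := by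
  have hn0 : 0 < n := lt_of_lt_of_le (by positivity) hn
  obtain ⟨hp1, hm1, ht1⟩ := p1_spec hp hm ht
  obtain ⟨x, -, ha1, hE⟩ := a1_spec ht1
  have h1 := En_le (a := a) (x := x) hn0 hM
    (fun z hz => (hmax _ (xr_lt (n - nJ n) a x) z hz).trans hp1) hm1
  rw [← ha1] at h1
  refine tt_lt hn hM ?_
  set c := ((range (2 ^ nJ n)).filter fun z => tt n M a < fz n M (a1 n M a) z).card with hc
  have hP : (0 : ℤ) < 2 ^ (n - nJ n) := by positivity
  have h2 : thE n M a < 2 ^ (n - nJ n) * (nS n M a * (nJ n + 2) * c) :=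
    lt_of_lt_of_le hE (mul_le_mul_of_nonneg_left h1 hP.le)
  have h3 : thE n M a = ((LL n * Y0 n : ℕ) : ℤ) * (2 ^ (n - nJ n) * (nS n M a * (nJ n + 2))) := by
    have h4 : (Y0 n : ℤ) * 2 ^ (n - nJ n) = 2 ^ nJ n := by exact_mod_cast Y0_mul hn
    unfold thE nS
    rw [← h4]
    push_cast
    ring
  have h4 : ((LL n * Y0 n : ℕ) : ℤ) * (2 ^ (n - nJ n) * (nS n M a * (nJ n + 2))) <
      (c : ℤ) * (2 ^ (n - nJ n) * (nS n M a * (nJ n + 2))) := by
    rw [← h3]
    refine lt_of_lt_of_eq h2 ?_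
    ring
  have h5 := lt_of_mul_lt_mul_right h4 (by positivity)
  exact_mod_cast h5

end Pool.Agent.MPa9445a.DB
end

section

/-! The candidates from a pair of vectors. -/

set_option autoImplicit false

open Finset

namespace Pool.Agent.MPa9445a.DB

open Pool.Agent.MPa9445a.BE (gt bit tb flt lin Phi vec code argmax matMul wtm fv)
open Pool.Agent.MPa9445a.GD (itr fm)
open Pool.Agent.MPa9445a.SN (ST)
open Pool.Agent.MPa9445a.GL (rk sv xv laL rhL lvv LL Wb Vc S St Ph Lv lvl Res Fr la rh fl on off Cpl cdv)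

variable {n : ℕ} {M : List ℤ} {a : ℕ}

/-- A vector with entries `1`, `-1` is the vector of its code. -/
theorem fv_vec_cdv {y : Vc n} (hy : ∀ v, y v = 1 ∨ y v = -1) : fv n (vec n (cdv y).toNat) = y := by
  funext v
  have h1 : fv n (vec n (cdv y).toNat) v = 2 * (bit (cdv y).toNat (v : ℕ) : ℤ) - 1 := by
    rw [vec, BE.fv_tb]
  have h2 : bit (cdv y).toNat (v : ℕ) = 1 ↔ y v = 1 := by
    have h3 := congrArg (fun X => v ∈ X) (GL.ST_cdv y)
    unfold SN.ST at h3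
    simp only [mem_filter, mem_univ, true_and, eq_iff_iff] at h3
    exact h3
  rw [h1]
  rcases hy v with h | h
  · rw [h2.2 h, h]
    norm_num
  · have h4 : ¬ bit (cdv y).toNat (v : ℕ) = 1 := by
      rw [h2, h]
      norm_num
    rcases bit_01 (cdv y).toNat (v : ℕ) with h5 | h5
    · rw [h5, h]
      norm_num
    · exact absurd h5 h4

theorem Phi_vec_cdv {y : Vc n} (hy : ∀ v, y v = 1 ∨ y v = -1) :
    Phi n M (vec n (cdv y).toNat) = Ph (wtm n M) y := by
  rw [GL.Phi_Ph, fv_vec_cdv hy]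

/-- The best vector of a state whose entries are `2`, `1`, `-1`. PROOF. `cB_spec` with `w = rk / 3`; the code of `y` gives back `y` since
all entries of `y` are `1`, `-1` (`BE.vec_code`, `GL.code_cdv`). -/
theorem cX_good (hn : 0 < n) (hM : ∀ x ∈ M, |x| ≤ 1) {s : List ℤ}
    (hs : ∀ v : Fin n, fv n s v = 2 ∨ fv n s v = 1 ∨ fv n s v = -1) {x : Vc n} (hx : x ∈ S (fv n s)) :
    Ph (wtm n M) x ≤ Phi n M (vec n (cX n M s)) := by
  have hs' : St (fv n s) := by
    intro v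
    rcases hs v with h | h | h
    · exact Or.inr (Or.inr (Or.inr h))
    · exact Or.inr (Or.inl h)
    · exact Or.inr (Or.inr (Or.inl h))
  obtain ⟨y, hy, hy2, hy3⟩ := cB_spec (w := rk s n / 3) hn hM hs' (by omega)
  have hy4 : ∀ v, y v = 1 ∨ y v = -1 := by
    intro v
    have h1 := GL.mem_S.1 hy v
    rcases hs v with h | h | h
    · exact h1.1 h
    · left
      rw [h1.2 (by rw [h]; norm_num), h]
    · right
      rw [h1.2 (by rw [h]; norm_num), h]
  have h2 : cX n M s = (cdv y).toNat := by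
    unfold cX
    rw [← hy2, Int.toNat_natCast]
  rw [h2, Phi_vec_cdv hy4]
  exact hy3 x hx

theorem wc_3 (m : ℕ) : 3 * wc m ≤ m := by
  unfold wc
  omega

/-- The list for the level. PROOF. `cL_cpl` with `w = wc (rk)`, `3 * wc m ≤ m`. -/
theorem cS_cpl (hn : 0 < n) (hM : ∀ x ∈ M, |x| ≤ 1) {s : List ℤ} (hs : St (fv n s)) (p : ℤ) :
    Cpl (cS n M s p) (Lv (wtm n M) (fv n s) p) := by
  unfold cS
  exact cL_cpl hn hM hs (wc_3 _) p

theorem gt_of_mem {L : List ℤ} {c : ℤ} (h : c ∈ L) : ∃ i < L.length, gt L i = c := by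
  obtain ⟨i, hi, h2⟩ := List.getElem_of_mem h
  refine ⟨i, hi, ?_⟩
  unfold BE.gt
  rw [List.getD_eq_getElem _ _ hi, h2]

theorem gt_tb' (k : ℕ) (f : ℕ → ℤ) {i : ℕ} (h : i < k) : gt (tb k f) i = f i := by
  rw [gt_tb_if, if_pos h]

/-- The entries of the vectors of the two parts. -/
theorem part_ent {d : ℕ} {u v : Vc n} (hu : u ∈ S (fv n (laL n (rg n a) d)))
    (hv : v ∈ S (fv n (rhL n (rg n a) d))) (w : Fin n) :
    (w ∈ ST n d ∧ v w = 0 ∧ (u w = 1 ∨ u w = -1) ∧ (fv n (laL n (rg n a) d) w = 2 ∨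
        (fv n (laL n (rg n a) d) w = u w)) ∧ fv n (rhL n (rg n a) d) w = 0) ∨
      (w ∉ ST n d ∧ u w = 0 ∧ (v w = 1 ∨ v w = -1) ∧ (fv n (rhL n (rg n a) d) w = 2 ∨
        (fv n (rhL n (rg n a) d) w = v w)) ∧ fv n (laL n (rg n a) d) w = 0) := by
  rw [GL.fv_laL] at hu ⊢
  rw [GL.fv_rhL] at hv ⊢
  have h1 := GL.mem_S.1 hu w
  have h2 := GL.mem_S.1 hv w
  have h3 := rg_cases (n := n) (a := a) w
  by_cases hw : w ∈ ST n d
  · left
    have e1 : la (fv n (rg n a)) (ST n d) w = if fv n (rg n a) w = 2 then 2 else -fv n (rg n a) w := by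
      unfold GL.la
      rw [if_pos hw]
    have e2 : rh (fv n (rg n a)) (ST n d) w = 0 := by
      unfold GL.rh
      rw [if_pos hw]
    rw [e1] at h1 ⊢
    rw [e2] at h2 ⊢
    refine ⟨hw, h2.2 (by norm_num), ?_, ?_, rfl⟩
    · rcases h3 with ⟨_, h3⟩ | ⟨_, h3 | h3⟩
      · rw [if_pos h3] at h1
        exact h1.1 rfl
      · rw [if_neg (by rw [h3]; norm_num), h3] at h1
        exact Or.inr (h1.2 (by norm_num))
      · rw [if_neg (by rw [h3]; norm_num), h3] at h1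
        left
        rw [h1.2 (by norm_num)]
        norm_num
    · by_cases h4 : fv n (rg n a) w = 2
      · left
        rw [if_pos h4]
      · right
        rw [if_neg h4] at h1 ⊢
        refine (h1.2 ?_).symm
        rcases h3 with ⟨_, h3⟩ | ⟨_, h3 | h3⟩
        · exact absurd h3 h4
        · rw [h3]; norm_num
        · rw [h3]; norm_num
  · right
    have e1 : la (fv n (rg n a)) (ST n d) w = 0 := by
      unfold GL.la
      rw [if_neg hw]
    have e2 : rh (fv n (rg n a)) (ST n d) w = fv n (rg n a) w := by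
      unfold GL.rh
      rw [if_neg hw]
    rw [e1] at h1 ⊢
    rw [e2] at h2 ⊢
    refine ⟨hw, h1.2 (by norm_num), ?_, ?_, rfl⟩
    · rcases h3 with ⟨_, h3⟩ | ⟨_, h3 | h3⟩
      · exact h2.1 h3
      · left
        rw [h2.2 (by rw [h3]; norm_num), h3]
      · right
        rw [h2.2 (by rw [h3]; norm_num), h3]
    · by_cases h4 : fv n (rg n a) w = 2
      · exact Or.inl h4
      · exact Or.inr (h2.2 h4).symm

theorem lin_one (s t : List ℤ) (w : Fin n) : fv n (lin n 1 s 1 t) w = fv n s w + fv n t w := by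
  rw [BE.fv_lin]
  ring

/-- The candidates for two parts. PROOF. `cn_eq`: both numbers are positive. Short list: the entry of the list which is the code of `v`
(`u`); `GL.sv_cdv`; the state `lin …` has the entries of `laL` on `D` and of `v` outside `D`; `cX_good`. Otherwise all pairs. -/
theorem T2_good (hn : 0 < n) (hM : ∀ x ∈ M, |x| ≤ 1) {d : ℕ} {g h : ℤ} {u v : Vc n}
    (hu : u ∈ Lv (wtm n M) (fv n (laL n (rg n a) d)) g)
    (hv : v ∈ Lv (wtm n M) (fv n (rhL n (rg n a) d)) h) :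
    ∃ i < (T2 n M a d g h).length,
      Ph (wtm n M) (u + v) ≤ Phi n M (vec n (gt (T2 n M a d g h) i).toNat) := by
  have hla : St (fv n (laL n (rg n a) d)) := by
    rw [GL.fv_laL]
    exact GL.St_la St_rg _
  have hrh : St (fv n (rhL n (rg n a) d)) := by
    rw [GL.fv_rhL]
    exact GL.St_rh St_rg _
  have hu1 : u ∈ S (fv n (laL n (rg n a) d)) := by
    unfold GL.Lv at hu
    exact (mem_filter.1 hu).1
  have hv1 : v ∈ S (fv n (rhL n (rg n a) d)) := by
    unfold GL.Lv at hv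
    exact (mem_filter.1 hv).1
  have hent := part_ent hu1 hv1
  have hcu : cN n M (laL n (rg n a) d) g ≠ 0 := by
    unfold cN
    rw [cn_eq hn hM hla (wc_3 _)]
    have : 0 < (Lv (wtm n M) (fv n (laL n (rg n a) d)) g).card := card_pos.2 ⟨u, hu⟩
    exact_mod_cast this.ne'
  have hcv : cN n M (rhL n (rg n a) d) h ≠ 0 := by
    unfold cN
    rw [cn_eq hn hM hrh (wc_3 _)]
    have : 0 < (Lv (wtm n M) (fv n (rhL n (rg n a) d)) h).card := card_pos.2 ⟨v, hv⟩
    exact_mod_cast this.ne'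
  obtain ⟨iu, hiu, hiu2⟩ := gt_of_mem (((cS_cpl hn hM hla g).2 (cdv u)).2 ⟨u, hu, rfl⟩)
  obtain ⟨iv, hiv, hiv2⟩ := gt_of_mem (((cS_cpl hn hM hrh h).2 (cdv v)).2 ⟨v, hv, rfl⟩)
  have hsu : fv n (sv n (laL n (rg n a) d) (cdv u).toNat) = u := GL.sv_cdv _ hu1
  have hsv : fv n (sv n (rhL n (rg n a) d) (cdv v).toNat) = v := GL.sv_cdv _ hv1
  unfold T2
  rw [if_neg (by rintro (h0 | h0); exacts [hcu h0, hcv h0])]
  by_cases h1 : cN n M (rhL n (rg n a) d) h ≤ 2 ^ w0 n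
  · rw [if_pos h1]
    refine ⟨iv, by rw [BE.length_tb]; exact hiv, ?_⟩
    rw [gt_tb' _ _ hiv, Int.toNat_natCast, hiv2]
    have hst : ∀ w : Fin n, fv n (lin n 1 (laL n (rg n a) d) 1 (sv n (rhL n (rg n a) d) (cdv v).toNat)) w =
        fv n (laL n (rg n a) d) w + v w := by
      intro w
      rw [lin_one, hsv]
    refine cX_good hn hM ?_ ?_
    · intro w
      rw [hst]
      rcases hent w with ⟨_, h2, h3, h4, h5⟩ | ⟨_, h2, h3, h4, h5⟩
      · rw [h2, add_zero]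
        rcases h4 with h4 | h4
        · exact Or.inl h4
        · rw [h4]
          exact Or.inr h3
      · rw [h5, zero_add]
        exact Or.inr h3
    · rw [GL.mem_S]
      intro w
      rw [hst, Pi.add_apply]
      rcases hent w with ⟨_, h2, h3, h4, h5⟩ | ⟨_, h2, h3, h4, h5⟩
      · rw [h2, add_zero, add_zero]
        rcases h4 with h4 | h4
        · exact ⟨fun _ => h3, fun h6 => absurd h4 h6⟩
        · rw [h4]
          refine ⟨fun h6 => ?_, fun _ => rfl⟩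
          rcases h3 with h3 | h3 <;> rw [h3] at h6 <;> norm_num at h6
      · rw [h5, h2]
        refine ⟨fun h6 => ?_, fun _ => rfl⟩
        rcases h3 with h3 | h3 <;> rw [h3] at h6 <;> norm_num at h6
  · rw [if_neg h1]
    by_cases h1' : cN n M (laL n (rg n a) d) g ≤ 2 ^ w0 n
    · rw [if_pos h1']
      refine ⟨iu, by rw [BE.length_tb]; exact hiu, ?_⟩
      rw [gt_tb' _ _ hiu, Int.toNat_natCast, hiu2]
      have hst : ∀ w : Fin n, fv n (lin n 1 (rhL n (rg n a) d) 1 (sv n (laL n (rg n a) d) (cdv u).toNat)) w =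
          fv n (rhL n (rg n a) d) w + u w := by
        intro w
        rw [lin_one, hsu]
      refine cX_good hn hM ?_ ?_
      · intro w
        rw [hst]
        rcases hent w with ⟨_, h2, h3, h4, h5⟩ | ⟨_, h2, h3, h4, h5⟩
        · rw [h5, zero_add]
          exact Or.inr h3
        · rw [h2, add_zero]
          rcases h4 with h4 | h4
          · exact Or.inl h4
          · rw [h4]
            exact Or.inr h3
      · rw [GL.mem_S]
        intro w
        rw [hst, Pi.add_apply]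
        rcases hent w with ⟨_, h2, h3, h4, h5⟩ | ⟨_, h2, h3, h4, h5⟩
        · rw [h5, h2, zero_add, add_zero]
          refine ⟨fun h6 => ?_, fun _ => rfl⟩
          rcases h3 with h3 | h3 <;> rw [h3] at h6 <;> norm_num at h6
        · rw [h2, add_zero, zero_add]
          rcases h4 with h4 | h4
          · exact ⟨fun _ => h3, fun h6 => absurd h4 h6⟩
          · rw [h4]
            refine ⟨fun h6 => ?_, fun _ => rfl⟩
            rcases h3 with h3 | h3 <;> rw [h3] at h6 <;> norm_num at h6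
    · rw [if_neg h1']
      have hvp : 0 < (cS n M (rhL n (rg n a) d) h).length := by omega
      have hlt : iu * (cS n M (rhL n (rg n a) d) h).length + iv <
          (cS n M (laL n (rg n a) d) g).length * (cS n M (rhL n (rg n a) d) h).length := by
        calc iu * (cS n M (rhL n (rg n a) d) h).length + iv <
              iu * (cS n M (rhL n (rg n a) d) h).length + (cS n M (rhL n (rg n a) d) h).length := by omega
          _ = (iu + 1) * (cS n M (rhL n (rg n a) d) h).length := by ring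
          _ ≤ _ := Nat.mul_le_mul_right _ hiu
      refine ⟨iu * (cS n M (rhL n (rg n a) d) h).length + iv, by rw [BE.length_tb]; exact hlt, ?_⟩
      rw [gt_tb' _ _ hlt, Int.toNat_natCast]
      have e1 : (iu * (cS n M (rhL n (rg n a) d) h).length + iv) / (cS n M (rhL n (rg n a) d) h).length = iu := by
        rw [mul_comm, Nat.mul_add_div hvp, Nat.div_eq_of_lt hiv, add_zero]
      have e2 : (iu * (cS n M (rhL n (rg n a) d) h).length + iv) % (cS n M (rhL n (rg n a) d) h).length = iv := by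
        rw [mul_comm, Nat.mul_add_mod, Nat.mod_eq_of_lt hiv]
      rw [e1, e2, hiu2, hiv2]
      have hx : fv n (lin n 1 (sv n (laL n (rg n a) d) (cdv u).toNat) 1
          (sv n (rhL n (rg n a) d) (cdv v).toNat)) = u + v := by
        funext w
        rw [lin_one, hsu, hsv]
        rfl
      have hc : ∀ w : Fin n, fv n (lin n 1 (sv n (laL n (rg n a) d) (cdv u).toNat) 1
          (sv n (rhL n (rg n a) d) (cdv v).toNat)) w = 1 ∨
          fv n (lin n 1 (sv n (laL n (rg n a) d) (cdv u).toNat) 1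
          (sv n (rhL n (rg n a) d) (cdv v).toNat)) w = -1 := by
        intro w
        rw [hx, Pi.add_apply]
        rcases hent w with ⟨_, h2, h3, h4, h5⟩ | ⟨_, h2, h3, h4, h5⟩
        · rw [h2, add_zero]
          exact h3
        · rw [h2, zero_add]
          exact h3
      rw [GL.Phi_Ph, BE.vec_code hc, hx]

/-- The candidates for a pair. PROOF. `u = on …`, `v = off …` (`mem_parts`, `val_parts`), the level of `u` is `lvv n u'` (`GL.lvv_surj`, `GL.Ph_lvl`), the level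
of `v` is `(p + t) / 2` minus it; `T2_good`; entries of `fm` (`GD`: `fm` is the concatenation). -/
theorem Tp_good (hn : 0 < n) (hM : ∀ x ∈ M, |x| ≤ 1) {p : ℤ} {i κ x z : ℕ} (hi : i < nS n M a)
    (hκ : κ < (dl n M a i).length) (hx : x < 2 ^ (n - nJ n)) (hz : z < 2 ^ nJ n)
    (h : fz n M (xr (n - nJ n) a x) z + fz n M a (xr (nJ n) z (ds n M a i κ)) = p + tt n M a) :
    ∃ j < (Tp n M a p).length,
      fz n M (xr (n - nJ n) a x) z ≤ Phi n M (vec n (gt (Tp n M a p) j).toNat) := by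
  have hD : ds n M a i κ < 2 ^ nJ n := (ds_spec hκ).1
  have hdd : dd n M a i x κ = ds n M a i κ + 2 ^ nJ n * x := rfl
  have h1 := (mem_parts (a := a) x hD (fv n (sv n (rg n (xr (n - nJ n) a x)) z))).2 ⟨z, hz, rfl⟩
  have h2 := val_parts (M := M) (a := a) x hD hz
  rw [← hdd] at h1 h2
  set y := fv n (sv n (rg n (xr (n - nJ n) a x)) z) with hy
  set d := dd n M a i x κ with hd
  have hla : St (fv n (laL n (rg n a) d)) := by
    rw [GL.fv_laL]
    exact GL.St_la St_rg _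
  obtain ⟨u', hu', hu2⟩ := GL.lvv_surj (Ph_lv hn hM hla h1.1)
  have hpar : (p + tt n M a) % 2 = 0 := by omega
  have hu : on (ST n d) y ∈ Lv (wtm n M) (fv n (laL n (rg n a) d)) (lvv n u') := by
    unfold GL.Lv
    rw [mem_filter]
    exact ⟨h1.1, hu2.symm⟩
  have hv : off (ST n d) y ∈ Lv (wtm n M) (fv n (rhL n (rg n a) d))
      ((p + tt n M a) / 2 - lvv n u') := by
    unfold GL.Lv
    rw [mem_filter]
    refine ⟨h1.2, ?_⟩
    rw [hu2]
    omega
  obtain ⟨j, hj, hj2⟩ := T2_good hn hM hu hv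
  rw [GL.on_add_off] at hj2
  have hmem : gt (T2 n M a d (lvv n u') ((p + tt n M a) / 2 - lvv n u')) j ∈ Tp n M a p := by
    unfold Tp
    rw [if_pos hpar, GD.mem_fm]
    refine ⟨i, hi, ?_⟩
    rw [GD.mem_fm]
    refine ⟨x, hx, ?_⟩
    rw [GD.mem_fm]
    refine ⟨κ, hκ, ?_⟩
    rw [GD.mem_fm]
    refine ⟨u', hu', ?_⟩
    unfold BE.gt
    rw [List.getD_eq_getElem _ _ hj]
    exact List.getElem_mem hj
  obtain ⟨j', hj', hj3⟩ := gt_of_mem hmem
  refine ⟨j', hj', ?_⟩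
  rw [hj3]
  refine le_trans (le_of_eq ?_) hj2
  unfold fz
  rw [GL.Phi_Ph]

end Pool.Agent.MPa9445a.DB
end

section

/-! The candidates from the centers. -/

set_option autoImplicit false

open Finset

namespace Pool.Agent.MPa9445a.BW

open Pool.Agent.MPa9445a.BE (gt bit tb flt lin Phi vec code argmax matMul fv fv_tb fv_lin wtm wt bq bil_eq vec_code
  getD_tb getD_matMul argmax_spec length_tb)

theorem R4_bw_opt3 {n : ℕ} (hn : 0 < n) {M y : List ℤ} (hM : ∀ x ∈ M, |x| ≤ 1) {x : Fin n → ℤ}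
    (hx : ∀ v, x v = 1 ∨ x v = -1) {i : ℕ} (hi : i < 3)
    (hdi : 30000 * (∑ j ∈ range (n / 3),
      if ∃ v : Fin n, (v : ℕ) = i * (n / 3) + j ∧ x v = gt y (i * (n / 3) + j) then 0 else 1 : ℤ) ≤
        4999 * (n : ℤ)) :
    bq (wtm n M) x x ≤ Phi n M (vec n (bw n M y)) := by
  have hi' : i * (n / 3) ≤ n := by
    have h1 : i * (n / 3) ≤ 2 * (n / 3) := Nat.mul_le_mul_right _ (by omega)
    omega
  -- the two values
  set a₀ : In := ⟨n, M, y, i, 0, 0⟩ with ha₀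
  obtain ⟨c1, hc1, he1, -⟩ := exists_pv (a := a₀) hi' (x := x) hx 0 (n1 a₀)
  obtain ⟨c2, hc2, he2, -⟩ := exists_pv (a := a₀) hi' (x := x) hx (n1 a₀) (n2 a₀)
  obtain ⟨c3, hc3, he3, -⟩ := exists_pv (a := a₀) hi' (x := x) hx (n1 a₀ + n2 a₀) (n3 a₀)
  set r1 : Fin n → ℤ := rp a₀ 0 (n1 a₀) x with hr1
  set r2 : Fin n → ℤ := rp a₀ (n1 a₀) (n2 a₀) x with hr2
  set r3 : Fin n → ℤ := rp a₀ (n1 a₀ + n2 a₀) (n3 a₀) x with hr3
  set α : ℤ := bq (wtm n M) (fun v => r1 v + r2 v) (fun v => r1 v + r2 v) - bq (wtm n M) r1 r1 with hα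
  set β : ℤ := bq (wtm n M) (fun v => r2 v + r3 v) (fun v => r2 v + r3 v) - bq (wtm n M) r2 r2 -
    bq (wtm n M) r3 r3 with hβ
  have b1 : |bq (wtm n M) r1 r1| ≤ 2 * (n : ℤ) ^ 4 :=
    bq_bd hn hM fun v => by rw [← he1]; exact fv_pv_abs (a := a₀) _ _ _ v
  have b2 : |bq (wtm n M) r2 r2| ≤ 2 * (n : ℤ) ^ 4 :=
    bq_bd hn hM fun v => by rw [← he2]; exact fv_pv_abs (a := a₀) _ _ _ v
  have b3 : |bq (wtm n M) r3 r3| ≤ 2 * (n : ℤ) ^ 4 :=
    bq_bd hn hM fun v => by rw [← he3]; exact fv_pv_abs (a := a₀) _ _ _ v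
  have b12 : |bq (wtm n M) (fun v => r1 v + r2 v) (fun v => r1 v + r2 v)| ≤ 2 * (n : ℤ) ^ 4 :=
    bq_bd hn hM fun v => by rw [← he1, ← he2]; exact parts_abs12 (a := a₀) _ _ v
  have b23 : |bq (wtm n M) (fun v => r2 v + r3 v) (fun v => r2 v + r3 v)| ≤ 2 * (n : ℤ) ^ 4 :=
    bq_bd hn hM fun v => by rw [← he2, ← he3]; exact parts_abs23 (a := a₀) _ _ v
  have hαb : |α| ≤ 8 * (n : ℤ) ^ 4 := by
    rw [abs_le] at *
    constructor <;> linarith [b1.1, b1.2, b12.1, b12.2]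
  have hβb : |β| ≤ 8 * (n : ℤ) ^ 4 := by
    rw [abs_le] at *
    constructor <;> linarith [b2.1, b2.2, b3.1, b3.2, b23.1, b23.2]
  -- the index
  obtain ⟨A, hA⟩ : ∃ A : ℕ, (A : ℤ) = α + 8 * (n : ℤ) ^ 4 :=
    ⟨(α + 8 * (n : ℤ) ^ 4).toNat, Int.toNat_of_nonneg (by linarith [(abs_le.1 hαb).1])⟩
  obtain ⟨B, hB⟩ : ∃ B : ℕ, (B : ℤ) = β + 8 * (n : ℤ) ^ 4 :=
    ⟨(β + 8 * (n : ℤ) ^ 4).toNat, Int.toNat_of_nonneg (by linarith [(abs_le.1 hβb).1])⟩
  have hA' : A < 16 * n ^ 4 + 1 := by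
    have : (A : ℤ) < 16 * (n : ℤ) ^ 4 + 1 := by rw [hA]; linarith [(abs_le.1 hαb).2]
    exact_mod_cast this
  have hB' : B < 16 * n ^ 4 + 1 := by
    have : (B : ℤ) < 16 * (n : ℤ) ^ 4 + 1 := by rw [hB]; linarith [(abs_le.1 hβb).2]
    exact_mod_cast this
  set L := 16 * n ^ 4 + 1 with hL
  set z := i + 3 * (A + L * B) with hz
  have hzl : z < 3 * (L * L) := by
    have h1 : A + L * B < L * L := by
      calc A + L * B < L + L * B := by omega
        _ = L * (B + 1) := by ring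
        _ ≤ L * L := Nat.mul_le_mul_left L hB'
    omega
  have hz3 : z % 3 = i := by omega
  have hzd : z / 3 = A + L * B := by omega
  have hzA : z / 3 % L = A := by
    rw [hzd, Nat.add_mul_mod_self_left, Nat.mod_eq_of_lt hA']
  have hzB : z / 3 / L = B := by
    rw [hzd, Nat.add_mul_div_left _ _ (by omega), Nat.div_eq_of_lt hA', Nat.zero_add]
  have hinp : inp n M y z = ⟨n, M, y, i, α, β⟩ := by
    unfold inp
    rw [hz3, ← hL, hzA, hzB, hA, hB]
    simp
  have hmain : bq (wtm n M) x x ≤ Phi n M (vec n (cand (inp n M y z))) := by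
    rw [hinp]
    exact cand_opt (a := ⟨n, M, y, i, α, β⟩) hn hM hi' hx hdi hi rfl rfl
  refine hmain.trans ?_
  obtain ⟨-, h2⟩ := argmax_spec (k := 3 * (L * L)) (by positivity)
    (fun x : ℤ => Phi n M (vec n (cand (inp n M y x.toNat))))
  have h3 := h2 z hzl
  simp only [Int.toNat_natCast] at h3
  exact h3

end Pool.Agent.MPa9445a.BW

namespace Pool.Agent.MPa9445a.DB

open Pool.Agent.MPa9445a.BE (gt bit tb flt lin Phi vec code argmax matMul wtm fv bq)
open Pool.Agent.MPa9445a.GD (itr fm)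

variable {n : ℕ} {M : List ℤ} {a : ℕ}

/-- The ball, the hypothesis only for one third. PROOF. The proof of `BW.bw_opt` without its first line. -/
theorem bw_opt3 {n : ℕ} (hn : 0 < n) {M y : List ℤ} (hM : ∀ x ∈ M, |x| ≤ 1) {x : Fin n → ℤ}
    (hx : ∀ v, x v = 1 ∨ x v = -1) {i : ℕ} (hi : i < 3)
    (hd : 30000 * (∑ j ∈ range (n / 3),
      if ∃ v : Fin n, (v : ℕ) = i * (n / 3) + j ∧ x v = gt y (i * (n / 3) + j) then 0 else 1 : ℤ) ≤
        4999 * (n : ℤ)) :
    bq (wtm n M) x x ≤ Phi n M (vec n (BW.bw n M y)) := by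
  exact BW.R4_bw_opt3 hn hM hx hi hd

/-- The same for codes. PROOF. `bw_opt3` for the vector of the code `c`. -/
theorem bw_code {n : ℕ} (hn : 0 < n) {M y : List ℤ} (hM : ∀ x ∈ M, |x| ≤ 1) (c : ℕ) {i : ℕ} (hi : i < 3)
    (hd : 30000 * ((range (n / 3)).filter fun j =>
      2 * (bit c (i * (n / 3) + j) : ℤ) - 1 ≠ gt y (i * (n / 3) + j)).card ≤ 4999 * n) :
    Phi n M (vec n c) ≤ Phi n M (vec n (BW.bw n M y)) := by
  have h1 : Phi n M (vec n c) = bq (wtm n M) (BE.fv n (vec n c)) (BE.fv n (vec n c)) :=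
    BE.bil_eq n M _ _
  rw [h1]
  have hval : ∀ v : Fin n, BE.fv n (vec n c) v = 2 * (bit c v : ℤ) - 1 := fun v => BE.fv_tb n _ v
  have hx : ∀ v : Fin n, BE.fv n (vec n c) v = 1 ∨ BE.fv n (vec n c) v = -1 := by
    intro v
    rw [hval]
    rcases bit_01 c v with h | h
    · right; rw [h]; norm_num
    · left; rw [h]; norm_num
  refine bw_opt3 hn hM hx hi ?_
  have h2 : (∑ j ∈ range (n / 3),
      if ∃ v : Fin n, (v : ℕ) = i * (n / 3) + j ∧ BE.fv n (vec n c) v = gt y (i * (n / 3) + j)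
        then 0 else 1 : ℤ) = (((range (n / 3)).filter fun j =>
      2 * (bit c (i * (n / 3) + j) : ℤ) - 1 ≠ gt y (i * (n / 3) + j)).card : ℤ) := by
    rw [Finset.card_filter, Nat.cast_sum]
    apply Finset.sum_congr rfl
    intro j hj
    have hj' : j < n / 3 := Finset.mem_range.1 hj
    have hlt : i * (n / 3) + j < n := by
      have h3 : i * (n / 3) ≤ 2 * (n / 3) := Nat.mul_le_mul_right _ (by omega)
      omega
    have hiff : (∃ v : Fin n, (v : ℕ) = i * (n / 3) + j ∧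
        BE.fv n (vec n c) v = gt y (i * (n / 3) + j)) ↔
        2 * (bit c (i * (n / 3) + j) : ℤ) - 1 = gt y (i * (n / 3) + j) := by
      constructor
      · rintro ⟨v, hv1, hv2⟩
        rw [hval, hv1] at hv2
        exact hv2
      · intro h
        refine ⟨⟨i * (n / 3) + j, hlt⟩, rfl, ?_⟩
        rw [hval]
        exact h
    by_cases h : 2 * (bit c (i * (n / 3) + j) : ℤ) - 1 = gt y (i * (n / 3) + j)
    · rw [if_pos (hiff.2 h), if_neg (not_not.2 h)]
      rfl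
    · rw [if_neg (fun h' => h (hiff.1 h')), if_pos h]
      rfl
  rw [h2]
  exact_mod_cast hd

/-- One third of the vertices contains a correlated piece. PROOF. The sum over `v < nJ` splits into the three pieces `[i (n / 3), (i + 1) (n / 3))`, the
third one up to `nJ ≤ 3 (n / 3)`; one of them has at least one third of the absolute value. -/
theorem exists_piece (hn : 10 ^ 16 ≤ n) {z y : ℕ} (h : 3 * (nJ n : ℤ) < 10000 * |ip (nJ n) z y|) :
    ∃ i < 3, (nJ n : ℤ) < 10000 * |∑ j ∈ range (n / 3), if i * (n / 3) + j < nJ n then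
      (2 * (bit z (i * (n / 3) + j) : ℤ) - 1) * (2 * (bit y (i * (n / 3) + j) : ℤ) - 1) else 0| := by
  set g : ℕ → ℤ := fun v => (2 * (bit z v : ℤ) - 1) * (2 * (bit y v : ℤ) - 1) with hg
  have hJ : nJ n ≤ 3 * (n / 3) := by
    unfold nJ
    omega
  have h1 : ip (nJ n) z y = ∑ v ∈ range (3 * (n / 3)), if v < nJ n then g v else 0 := by
    unfold ip
    rw [← Finset.sum_filter]
    apply Finset.sum_congr
    · ext v
      simp only [Finset.mem_range, Finset.mem_filter]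
      omega
    · intro v _
      rfl
  set G : ℕ → ℤ := fun v => if v < nJ n then g v else 0 with hG
  have h2 : ∑ v ∈ range (3 * (n / 3)), G v = ∑ j ∈ range (n / 3), G (0 * (n / 3) + j) +
      ∑ j ∈ range (n / 3), G (1 * (n / 3) + j) + ∑ j ∈ range (n / 3), G (2 * (n / 3) + j) := by
    have e : 3 * (n / 3) = n / 3 + n / 3 + n / 3 := by ring
    rw [e, Finset.sum_range_add, Finset.sum_range_add]
    congr 1
    · congr 1
      · simp
      · simp
    · rw [two_mul]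
  by_contra hcon
  push Not at hcon
  have c0 : 10000 * |∑ j ∈ range (n / 3), G (0 * (n / 3) + j)| ≤ (nJ n : ℤ) := hcon 0 (by norm_num)
  have c1 : 10000 * |∑ j ∈ range (n / 3), G (1 * (n / 3) + j)| ≤ (nJ n : ℤ) := hcon 1 (by norm_num)
  have c2 : 10000 * |∑ j ∈ range (n / 3), G (2 * (n / 3) + j)| ≤ (nJ n : ℤ) := hcon 2 (by norm_num)
  rw [h1] at h
  change 3 * (nJ n : ℤ) < 10000 * |∑ v ∈ range (3 * (n / 3)), G v| at h
  rw [h2] at h
  have t1 := abs_add_le (∑ j ∈ range (n / 3), G (0 * (n / 3) + j) +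
      ∑ j ∈ range (n / 3), G (1 * (n / 3) + j)) (∑ j ∈ range (n / 3), G (2 * (n / 3) + j))
  have t2 := abs_add_le (∑ j ∈ range (n / 3), G (0 * (n / 3) + j))
      (∑ j ∈ range (n / 3), G (1 * (n / 3) + j))
  linarith

private theorem R4_gt_tb (k : ℕ) (f : ℕ → ℤ) (i : ℕ) (h : i < k) : gt (tb k f) i = f i := by
  show (tb k f).getD i 0 = f i
  rw [BE.getD_tb, if_pos h]

private theorem R4_bit_lt (z b : ℕ) {J w : ℕ} (hw : w < J) : bit (z + 2 ^ J * b) w = bit z w := by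
  unfold BE.bit
  obtain ⟨r, hr⟩ : ∃ r, J = w + 1 + r := ⟨J - (w + 1), by omega⟩
  have h1 : z + 2 ^ J * b = z + 2 ^ w * (2 * (2 ^ r * b)) := by
    rw [hr, pow_add, pow_succ]
    ring
  rw [h1, Nat.add_mul_div_left _ _ (by positivity), Nat.add_mul_mod_self_left]

private theorem R4_bit_ge (z b : ℕ) {J w : ℕ} (hz : z < 2 ^ J) (hw : J ≤ w) :
    bit (z + 2 ^ J * b) w = bit b (w - J) := by
  unfold BE.bit
  obtain ⟨r, hr⟩ : ∃ r, w = J + r := ⟨w - J, by omega⟩
  have h0 : w - J = r := by omega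
  rw [h0, hr, pow_add, ← Nat.div_div_eq_div_mul, Nat.add_mul_div_left _ _ (by positivity),
    Nat.div_eq_of_lt hz, Nat.zero_add]

/-- The ball contains the vector. PROOF. `exists_piece`; sign `e % 2` such that the piece in `J` has more equal than different places, sign
`e / 2` such that the rest of the third has at least as many equal as different places; differences on the third:
`≤ n / 6 - nJ / 20000 ≤ 4999 n / 30000`, since `nJ ≥ 7870 n / 10000`. `bw_code`, `sv_rg`; the entries of `cy`. -/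
theorem ball_good (hn : 10 ^ 16 ≤ n) (hM : ∀ x ∈ M, |x| ≤ 1) {b z l : ℕ} (hz : z < 2 ^ nJ n)
    (h : 3 * (nJ n : ℤ) < 10000 * |ip (nJ n) z (ctr n M a l)|) :
    ∃ e < 4, fz n M b z ≤ Phi n M (vec n (BW.bw n M (cy n M a l e))) := by
  obtain ⟨i, hi, hS⟩ := exists_piece hn h
  set y := ctr n M a l with hy
  set K := i * (n / 3) with hK
  have hnpos : 0 < n := lt_of_lt_of_le (by norm_num) hn
  -- the digits of the code
  set c := z + 2 ^ nJ n * b with hc
  have hb1 : ∀ w < nJ n, bit c w = bit z w := fun w hw => R4_bit_lt z b hw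
  have hb2 : ∀ w, nJ n ≤ w → bit c w = bit b (w - nJ n) := fun w hw => R4_bit_ge z b hz hw
  set S : ℤ := ∑ j ∈ range (n / 3), if K + j < nJ n then
      (2 * (bit z (K + j) : ℤ) - 1) * (2 * (bit y (K + j) : ℤ) - 1) else 0 with hSdef
  set T : ℤ := ∑ j ∈ range (n / 3), if K + j < nJ n then 0 else
      (2 * (bit b (K + j - nJ n) : ℤ) - 1) * (2 * (bit a (K + j - nJ n) : ℤ) - 1) with hTdef
  obtain ⟨e0, he0, he0S⟩ : ∃ e0 : ℕ, e0 < 2 ∧ (2 * (e0 : ℤ) - 1) * S = |S| := by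
    rcases le_or_gt 0 S with h0 | h0
    · exact ⟨1, by norm_num, by rw [abs_of_nonneg h0]; push_cast; ring⟩
    · exact ⟨0, by norm_num, by rw [abs_of_neg h0]; push_cast; ring⟩
  obtain ⟨e1, he1, he1T⟩ : ∃ e1 : ℕ, e1 < 2 ∧ (2 * (e1 : ℤ) - 1) * T = |T| := by
    rcases le_or_gt 0 T with h0 | h0
    · exact ⟨1, by norm_num, by rw [abs_of_nonneg h0]; push_cast; ring⟩
    · exact ⟨0, by norm_num, by rw [abs_of_neg h0]; push_cast; ring⟩
  refine ⟨e0 + 2 * e1, by omega, ?_⟩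
  have hf : fz n M b z = Phi n M (vec n c) := by
    unfold fz
    rw [sv_rg hz]
  rw [hf]
  have hbe0 : bit (e0 + 2 * e1) 0 = e0 := by
    unfold BE.bit
    rw [pow_zero, Nat.div_one]
    omega
  have hbe1 : bit (e0 + 2 * e1) 1 = e1 := by
    unfold BE.bit
    rw [pow_one]
    omega
  refine bw_code hnpos hM c hi ?_
  rw [← hK]
  have hlt : ∀ j ∈ range (n / 3), K + j < n := by
    intro j hj
    have hj' : j < n / 3 := Finset.mem_range.1 hj
    have h3 : i * (n / 3) ≤ 2 * (n / 3) := Nat.mul_le_mul_right _ (by omega)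
    omega
  have hcy : ∀ j ∈ range (n / 3), gt (cy n M a l (e0 + 2 * e1)) (K + j) =
      if K + j < nJ n then (2 * (e0 : ℤ) - 1) * (2 * (bit y (K + j) : ℤ) - 1)
      else (2 * (e1 : ℤ) - 1) * (2 * (bit a (K + j - nJ n) : ℤ) - 1) := by
    intro j hj
    have h1 : gt (cy n M a l (e0 + 2 * e1)) (K + j) =
        if K + j < nJ n then (2 * (bit (e0 + 2 * e1) 0 : ℤ) - 1) * (2 * (bit y (K + j) : ℤ) - 1)
        else (2 * (bit (e0 + 2 * e1) 1 : ℤ) - 1) * (2 * (bit a (K + j - nJ n) : ℤ) - 1) :=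
      R4_gt_tb n _ (K + j) (hlt j hj)
    rw [h1, hbe0, hbe1]
  -- the products
  set P : ℕ → ℤ := fun j => (2 * (bit c (K + j) : ℤ) - 1) * gt (cy n M a l (e0 + 2 * e1)) (K + j)
    with hP
  have hPsum : ∑ j ∈ range (n / 3), P j = |S| + |T| := by
    rw [← he0S, ← he1T, hSdef, hTdef, Finset.mul_sum, Finset.mul_sum, ← Finset.sum_add_distrib]
    apply Finset.sum_congr rfl
    intro j hj
    rw [hP]
    simp only
    rw [hcy j hj]
    by_cases hw : K + j < nJ n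
    · rw [if_pos hw, if_pos hw, if_pos hw, hb1 _ hw]
      ring
    · rw [if_neg hw, if_neg hw, if_neg hw, hb2 _ (by omega)]
      ring
  have hs : ∀ e : ℕ, e < 2 → (2 * (e : ℤ) - 1 = 1 ∨ 2 * (e : ℤ) - 1 = -1) := by
    intro e he
    interval_cases e
    · right; norm_num
    · left; norm_num
  have hsb : ∀ u w : ℕ, (2 * (bit u w : ℤ) - 1 = 1 ∨ 2 * (bit u w : ℤ) - 1 = -1) := by
    intro u w
    rcases bit_01 u w with h | h
    · right; rw [h]; norm_num
    · left; rw [h]; norm_num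
  have hcy1 : ∀ j ∈ range (n / 3), gt (cy n M a l (e0 + 2 * e1)) (K + j) = 1 ∨
      gt (cy n M a l (e0 + 2 * e1)) (K + j) = -1 := by
    intro j hj
    rw [hcy j hj]
    by_cases hw : K + j < nJ n
    · rw [if_pos hw]
      rcases hs e0 he0 with h1 | h1 <;> rcases hsb y (K + j) with h2 | h2 <;> rw [h1, h2] <;> norm_num
    · rw [if_neg hw]
      rcases hs e1 he1 with h1 | h1 <;> rcases hsb a (K + j - nJ n) with h2 | h2 <;>
        rw [h1, h2] <;> norm_num
  have hcount : 2 * (((range (n / 3)).filter fun j =>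
      2 * (bit c (K + j) : ℤ) - 1 ≠ gt (cy n M a l (e0 + 2 * e1)) (K + j)).card : ℤ) =
      ∑ j ∈ range (n / 3), (1 - P j) := by
    rw [Finset.card_filter, Nat.cast_sum, Finset.mul_sum]
    apply Finset.sum_congr rfl
    intro j hj
    rw [hP]
    simp only
    rcases hsb c (K + j) with h1 | h1 <;> rcases hcy1 j hj with h2 | h2 <;> rw [h1, h2] <;> norm_num
  rw [Finset.sum_sub_distrib, hPsum, Finset.sum_const, Finset.card_range, nsmul_eq_mul, mul_one] at hcount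
  have hJ1 : 7870 * (n : ℤ) ≤ 10000 * (nJ n : ℤ) := by
    unfold nJ
    omega
  have hT0 : 0 ≤ |T| := abs_nonneg T
  have h3 : 3 * ((n / 3 : ℕ) : ℤ) ≤ n := by omega
  have hfin : 30000 * (((range (n / 3)).filter fun j =>
      2 * (bit c (K + j) : ℤ) - 1 ≠ gt (cy n M a l (e0 + 2 * e1)) (K + j)).card : ℤ) ≤
      4999 * (n : ℤ) := by
    linarith
  exact_mod_cast hfin

end Pool.Agent.MPa9445a.DB
end

section

/-! The candidates for two parts: program and running time. -/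

set_option autoImplicit false

open Finset

namespace Pool.Agent.MPa9445a.DB

open Pool.Agent.MPa9445a.BE (Ty Env vs one Bd NL DL tb flt gt bit Phi vec code lin argmax matMul Bd.const
  Bd.add Bd.mul Bd.le Bd.up Bd.var Bd.self)
open Pool.Agent.MPa9445a.GD
open Pool.Agent.MPa9445a.GL (rk sv laL rhL lvv LL c_rk bd_rk c_sv c_laL c_rhL c_LL bd_LL c_lvv)

/-- The length of a list. PROOF. `cS_cpl`, `cn_eq` (`3 * wc m ≤ m`). -/
theorem length_cS {n : ℕ} {M s : List ℤ} (hn : 0 < n) (hM : ∀ x ∈ M, |x| ≤ 1)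
    (hs : GL.St (BE.fv n s)) (p : ℤ) : ((cS n M s p).length : ℤ) = cN n M s p := by
  have h1 := (cS_cpl hn hM hs p).length
  have h2 : cN n M s p = (GL.Lv (BE.wtm n M) (BE.fv n s) p).card := cn_eq hn hM hs (wc_3 _) p
  rw [h2, h1]

private theorem T15_rg (n a u : ℕ) (hu : u < n) :
    gt (rg n a) u = 2 ∨ gt (rg n a) u = 1 ∨ gt (rg n a) u = -1 := by
  unfold rg
  rw [gt_tb_if, if_pos hu]
  split_ifs
  · exact Or.inl rfl
  · rcases bit_01 a (u - nJ n) with h | h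
    · rw [h]; exact Or.inr (Or.inr (by norm_num))
    · rw [h]; exact Or.inr (Or.inl (by norm_num))

private theorem T15_pm (c v : ℕ) : (2 * (bit c v : ℤ) - 1 = 1) ∨ (2 * (bit c v : ℤ) - 1 = -1) := by
  rcases bit_01 c v with h | h
  · rw [h]; right; norm_num
  · rw [h]; left; norm_num

/-- The glued states have the same number of free vertices. PROOF. `gt (laL …) v ≠ 0` only if `bit d v = 1`, and then `gt (rhL …) v = 0`; the entries of
`rg` are `2`, `1`, `-1`. -/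
theorem rk_glue1 (n a d c : ℕ) :
    rk (lin n 1 (laL n (rg n a) d) 1 (sv n (rhL n (rg n a) d) c)) n = rk (laL n (rg n a) d) n := by
  unfold rk
  refine Finset.sum_congr rfl fun u hu => ?_
  have hu' := Finset.mem_range.1 hu
  have hr := T15_rg n a u hu'
  have hp := T15_pm c u
  have h1 : gt (lin n 1 (laL n (rg n a) d) 1 (sv n (rhL n (rg n a) d) c)) u =
      gt (laL n (rg n a) d) u + gt (sv n (rhL n (rg n a) d) c) u := by
    unfold lin
    rw [gt_tb_if, if_pos hu', one_mul, one_mul]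
  have h2 : gt (laL n (rg n a) d) u =
      if bit d u = 1 then (if gt (rg n a) u = 2 then 2 else -gt (rg n a) u) else 0 := by
    unfold laL
    rw [gt_tb_if, if_pos hu']
  have h3 : gt (rhL n (rg n a) d) u = if bit d u = 1 then 0 else gt (rg n a) u := by
    unfold rhL
    rw [gt_tb_if, if_pos hu']
  have h4 : gt (sv n (rhL n (rg n a) d) c) u =
      if gt (rhL n (rg n a) d) u = 2 then 2 * (bit c u : ℤ) - 1 else gt (rhL n (rg n a) d) u := by
    unfold sv
    rw [gt_tb_if, if_pos hu']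
  rw [h1, h4, h3]
  by_cases hb : bit d u = 1
  · rw [if_pos hb]
    norm_num
  · rw [h2, if_neg hb, if_neg hb]
    have h5 : ¬ ((0 : ℤ) + (if gt (rg n a) u = 2 then 2 * (bit c u : ℤ) - 1 else gt (rg n a) u) = 2) := by
      split_ifs with h6
      · rcases hp with h | h <;> rw [h] <;> norm_num
      · rcases hr with h | h | h
        · exact absurd h h6
        · rw [h]; norm_num
        · rw [h]; norm_num
    rw [if_neg h5, if_neg (by norm_num)]

theorem rk_glue2 (n a d c : ℕ) :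
    rk (lin n 1 (rhL n (rg n a) d) 1 (sv n (laL n (rg n a) d) c)) n = rk (rhL n (rg n a) d) n := by
  unfold rk
  refine Finset.sum_congr rfl fun u hu => ?_
  have hu' := Finset.mem_range.1 hu
  have hr := T15_rg n a u hu'
  have hp := T15_pm c u
  have h1 : gt (lin n 1 (rhL n (rg n a) d) 1 (sv n (laL n (rg n a) d) c)) u =
      gt (rhL n (rg n a) d) u + gt (sv n (laL n (rg n a) d) c) u := by
    unfold lin
    rw [gt_tb_if, if_pos hu', one_mul, one_mul]
  have h2 : gt (laL n (rg n a) d) u =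
      if bit d u = 1 then (if gt (rg n a) u = 2 then 2 else -gt (rg n a) u) else 0 := by
    unfold laL
    rw [gt_tb_if, if_pos hu']
  have h3 : gt (rhL n (rg n a) d) u = if bit d u = 1 then 0 else gt (rg n a) u := by
    unfold rhL
    rw [gt_tb_if, if_pos hu']
  have h4 : gt (sv n (laL n (rg n a) d) c) u =
      if gt (laL n (rg n a) d) u = 2 then 2 * (bit c u : ℤ) - 1 else gt (laL n (rg n a) d) u := by
    unfold sv
    rw [gt_tb_if, if_pos hu']
  rw [h1, h4, h2]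
  by_cases hb : bit d u = 1
  · rw [h3, if_pos hb, if_pos hb]
    have h5 : ¬ ((0 : ℤ) + (if (if gt (rg n a) u = 2 then (2 : ℤ) else -gt (rg n a) u) = 2 then
        2 * (bit c u : ℤ) - 1 else (if gt (rg n a) u = 2 then (2 : ℤ) else -gt (rg n a) u)) = 2) := by
      rcases hr with h | h | h
      · rw [if_pos h, if_pos rfl]
        rcases hp with h' | h' <;> rw [h'] <;> norm_num
      · rw [h]; norm_num
      · rw [h]; norm_num
    rw [if_neg h5, if_neg (by norm_num)]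
  · rw [if_neg hb]
    norm_num

/-- `2 ^ w0 ≤ wY`. PROOF. `w0 ≤ mB / 3`, `wM_lin`. -/
theorem w0_le_wY {τ : ℝ} (hτ : 2 ≤ τ) (n : ℕ) : ((2 ^ w0 n : ℕ) : ℝ) + 1 ≤ wY τ n := by
  have h1 : w0 n ≤ mB n / 3 := by
    rw [w0_eq]
    unfold wc
    omega
  exact (wM_lin hτ (w0 n)).trans (wM_mono hτ h1)

private theorem T15_St (n a d : ℕ) : GL.St (BE.fv n (laL n (rg n a) d)) ∧
    GL.St (BE.fv n (rhL n (rg n a) d)) := by
  rw [GL.fv_laL, GL.fv_rhL]
  exact ⟨GL.St_la St_rg _, GL.St_rh St_rg _⟩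

private theorem T15_cN {n : ℕ} (hn : 0 < n) {M : List ℤ} (hM : ∀ x ∈ M, |x| ≤ 1) {s : List ℤ}
    (hs : GL.St (BE.fv n s)) (p : ℤ) : 0 ≤ cN n M s p := by
  rw [← length_cS hn hM hs p]
  exact Int.natCast_nonneg _

/-- The weight of a pair of states. -/
noncomputable def w2 (τ : ℝ) (n : ℕ) (M : List ℤ) (a d : ℕ) (u v : ℤ) : ℝ :=
  wD τ n + ((2 ^ w0 n : ℕ) : ℝ) * wY τ n +
    (cN n M (laL n (rg n a) d) u : ℝ) * (cN n M (rhL n (rg n a) d) v : ℝ)

/-- PROOF. The numbers are not negative (`cn_eq`; for `n > 0`). -/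
theorem one_le_w2 {τ : ℝ} (hτ : 2 ≤ τ) {n : ℕ} (hn : 0 < n) {M : List ℤ} (hM : ∀ x ∈ M, |x| ≤ 1)
    (a d : ℕ) (u v : ℤ) : 1 ≤ w2 τ n M a d u v := by
  have h1 := one_le_wD hτ n
  have h2 := one_le_wY hτ n
  have h3 : (0 : ℝ) ≤ (cN n M (laL n (rg n a) d) u : ℝ) := by
    exact_mod_cast T15_cN hn hM (T15_St n a d).1 u
  have h4 : (0 : ℝ) ≤ (cN n M (rhL n (rg n a) d) v : ℝ) := by
    exact_mod_cast T15_cN hn hM (T15_St n a d).2 v
  have h5 : (0 : ℝ) ≤ ((2 ^ w0 n : ℕ) : ℝ) := Nat.cast_nonneg _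
  have h6 := mul_nonneg h3 h4
  have h7 : 0 ≤ ((2 ^ w0 n : ℕ) : ℝ) * wY τ n := mul_nonneg h5 (by linarith)
  unfold w2
  linarith

/-- PROOF. Definition; `length_cS`. -/
theorem length_T2 {τ : ℝ} (hτ : 2 ≤ τ) {n : ℕ} (hn : 0 < n) {M : List ℤ} (hM : ∀ x ∈ M, |x| ≤ 1)
    (a d : ℕ) (u v : ℤ) : ((T2 n M a d u v).length : ℝ) ≤ w2 τ n M a d u v := by
  have h1 := one_le_wD hτ n
  have h2 := w0_le_wY hτ n
  have hs := T15_St n a d
  have h3 : (0 : ℝ) ≤ (cN n M (laL n (rg n a) d) u : ℝ) := by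
    exact_mod_cast T15_cN hn hM hs.1 u
  have h4 : (0 : ℝ) ≤ (cN n M (rhL n (rg n a) d) v : ℝ) := by
    exact_mod_cast T15_cN hn hM hs.2 v
  have h5 : (1 : ℝ) ≤ ((2 ^ w0 n : ℕ) : ℝ) := by exact_mod_cast Nat.one_le_two_pow
  have h6 := mul_nonneg h3 h4
  have h7 : ((2 ^ w0 n : ℕ) : ℝ) ≤ ((2 ^ w0 n : ℕ) : ℝ) * wY τ n := by nlinarith
  have e1 : (((cS n M (laL n (rg n a) d) u).length : ℕ) : ℝ) = (cN n M (laL n (rg n a) d) u : ℝ) := by
    exact_mod_cast length_cS hn hM hs.1 u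
  have e2 : (((cS n M (rhL n (rg n a) d) v).length : ℕ) : ℝ) = (cN n M (rhL n (rg n a) d) v : ℝ) := by
    exact_mod_cast length_cS hn hM hs.2 v
  unfold T2 w2
  split_ifs with c1 c2 c3
  · simp only [List.length_nil, Nat.cast_zero]
    linarith
  · rw [BE.length_tb, e2]
    have h8 : (cN n M (rhL n (rg n a) d) v : ℝ) ≤ ((2 ^ w0 n : ℕ) : ℝ) := by exact_mod_cast c2
    linarith
  · rw [BE.length_tb, e1]
    have h8 : (cN n M (laL n (rg n a) d) u : ℝ) ≤ ((2 ^ w0 n : ℕ) : ℝ) := by exact_mod_cast c3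
    linarith
  · rw [BE.length_tb, Nat.cast_mul, e1, e2]
    linarith

variable {A : Type} {N : A → ℕ} {D : A → Prop} {Γ : List Ty} {ρ : A → Env Γ}
  {n : A → ℕ} {M : A → List ℤ} {a : A → ℕ}

private theorem T15_dom {q : A → Prop} {D' : A → Prop} (h : PB N D ρ q) (hD : ∀ a, D' a → D a) :
    PB N D' ρ q := by
  obtain ⟨f, hf, hq⟩ := h
  exact ⟨f, hf.dom hD, fun a ha => hq a (hD a ha)⟩

/-- A short list. -/
private theorem T15_short (h : Rd N D ρ n M a) {s r : A → List ℤ} {p : A → ℤ}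
    (hs : PA N D ρ s) (hr : PA N D ρ r) (hp : PI N D ρ p)
    (hk : ∀ q, D q → rk (s q) (n q) ≤ mB (n q))
    (hk2 : ∀ q, D q → ∀ c, rk (lin (n q) 1 (r q) 1 (sv (n q) (s q) c)) (n q) ≤ mB (n q))
    (hl : ∀ q, D q → (cS (n q) (M q) (s q) (p q)).length ≤ 2 ^ w0 (n q)) :
    Cp N D ρ (fun τ q => wD τ (n q) + ((2 ^ w0 (n q) : ℕ) : ℝ) * wY τ (n q)) .arr
      (fun q => tb (cS (n q) (M q) (s q) (p q)).length fun i =>
        (cX (n q) (M q) (lin (n q) 1 (r q) 1
          (sv (n q) (s q) (gt (cS (n q) (M q) (s q) (p q)) i).toNat)) : ℤ)) := by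
  have h0 := c_cS (n := n) (M := M) (s := s) (p := p) h.hn h.bn h.hM hs hk hp
  refine Cp.store (h0.mono fun q hq τ hτ => ?_) fun Γ1 ρ1 k1 e1 => ?_
  · have h2 := w0_le_wY hτ (n q)
    have h3 : (((cS (n q) (M q) (s q) (p q)).length : ℕ) : ℝ) ≤ ((2 ^ w0 (n q) : ℕ) : ℝ) := by
      exact_mod_cast hl q hq
    have h5 : (0 : ℝ) ≤ ((2 ^ w0 (n q) : ℕ) : ℝ) := Nat.cast_nonneg _
    have h6 : (((cS (n q) (M q) (s q) (p q)).length : ℕ) : ℝ) * ((2 ^ w0 (n q) : ℕ) : ℝ) ≤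
        ((2 ^ w0 (n q) : ℕ) : ℝ) * wY τ (n q) :=
      mul_le_mul h3 (by linarith) h5 h5
    unfold wS
    linarith
  · have hR := h.ke k1
    have hs1 := k1.a hs
    have hr1 := k1.a hr
    have h4 := Cp.tab (k := fun q => (cS (n q) (M q) (s q) (p q)).length)
      (w := fun τ q => wY τ (n q))
      (f := fun q i => (cX (n q) (M q) (lin (n q) 1 (r q) 1
          (sv (n q) (s q) (gt (cS (n q) (M q) (s q) (p q)) i).toNat)) : ℤ))
      (PN.len e1) (fun q _ τ hτ => one_le_wY hτ _) fun Γ2 ρ2 up hi => by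
        have hR2 := hR.up up
        have hx : PA (NL N) (DL D fun q => (cS (n q) (M q) (s q) (p q)).length) ρ2
            (fun z => lin (n z.1) 1 (r z.1) 1
              (sv (n z.1) (s z.1) (gt (cS (n z.1) (M z.1) (s z.1) (p z.1)) z.2).toNat)) :=
          PA.lin 1 1 hR2.hn hR2.bn (up.a hr1)
            (c_sv hR2.hn hR2.bn (up.a hs1) (PN.toNat (PI.get (up.a e1) hi)))
        exact c_cX (n := fun z : A × ℕ => n z.1) (M := fun z : A × ℕ => M z.1)
          (s := fun z : A × ℕ => lin (n z.1) 1 (r z.1) 1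
              (sv (n z.1) (s z.1) (gt (cS (n z.1) (M z.1) (s z.1) (p z.1)) z.2).toNat))
          hR2.hn hR2.bn hR2.hM hx (fun z hz => hk2 z.1 hz.1 _)
    refine h4.mono_poly 1 fun q hq τ hτ => ?_
    have h1 := one_le_wD hτ (n q)
    have h2 := one_le_wY hτ (n q)
    have h3 : (((cS (n q) (M q) (s q) (p q)).length : ℕ) : ℝ) ≤ ((2 ^ w0 (n q) : ℕ) : ℝ) := by
      exact_mod_cast hl q hq
    have h5 : (1 : ℝ) ≤ ((2 ^ w0 (n q) : ℕ) : ℝ) := by exact_mod_cast Nat.one_le_two_pow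
    have h6 : (0 : ℝ) ≤ (N q : ℝ) := Nat.cast_nonneg _
    have h7 : 0 ≤ ((2 ^ w0 (n q) : ℕ) : ℝ) * wY τ (n q) := mul_nonneg (by linarith) (by linarith)
    refine ⟨by linarith, ?_⟩
    have h8 : ((((cS (n q) (M q) (s q) (p q)).length : ℕ) : ℝ) + 1) * wY τ (n q) ≤
        (2 * ((2 ^ w0 (n q) : ℕ) : ℝ)) * wY τ (n q) :=
      mul_le_mul_of_nonneg_right (by linarith) (by linarith)
    rw [pow_one]
    nlinarith

/-- The candidates for two parts. PROOF. Store the states, the two numbers (`c_cN`), `2 ^ w0`; `Cp.iteA` three times (with `Cp.dom` for the branches); first list: `c_cS`, its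
length is the number `≤ 2 ^ w0`, so `wS ≤ wD + 2 ^ w0 * 2 ^ w0`; then `Cp.tab` with `c_cX` (`rk_glue1`), weight `(2 ^ w0 + 1) * wY`. Last case: both lists, `N₁ 2 ^ w0, N₂ 2 ^ w0 ≤ N₁ N₂`; `Cp.tab`
with polynomial passes. -/
theorem c_T2 (h : Rd N D ρ n M a) {d : A → ℕ} {u v : A → ℤ} (hd : PN N D ρ d) (hu : PI N D ρ u)
    (hv : PI N D ρ v)
    (h1 : ∀ q, D q → rk (laL (n q) (rg (n q) (a q)) (d q)) (n q) ≤ mB (n q))
    (h2 : ∀ q, D q → rk (rhL (n q) (rg (n q) (a q)) (d q)) (n q) ≤ mB (n q)) :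
    Cp N D ρ (fun τ q => w2 τ (n q) (M q) (a q) (d q) (u q) (v q)) .arr
      (fun q => T2 (n q) (M q) (a q) (d q) (u q) (v q)) := by
  have hn0 : ∀ q, D q → 0 < n q := fun q hq => lt_of_lt_of_le (by norm_num) (h.big q hq)
  have hL0 : ∀ q, D q → (0 : ℝ) ≤ (cN (n q) (M q) (laL (n q) (rg (n q) (a q)) (d q)) (u q) : ℝ) :=
    fun q hq => by exact_mod_cast T15_cN (hn0 q hq) (h.one q hq) (T15_St (n q) (a q) (d q)).1 (u q)
  have hR0 : ∀ q, D q → (0 : ℝ) ≤ (cN (n q) (M q) (rhL (n q) (rg (n q) (a q)) (d q)) (v q) : ℝ) :=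
    fun q hq => by exact_mod_cast T15_cN (hn0 q hq) (h.one q hq) (T15_St (n q) (a q) (d q)).2 (v q)
  have hLl : ∀ q, D q → ((cS (n q) (M q) (laL (n q) (rg (n q) (a q)) (d q)) (u q)).length : ℤ) =
      cN (n q) (M q) (laL (n q) (rg (n q) (a q)) (d q)) (u q) :=
    fun q hq => length_cS (hn0 q hq) (h.one q hq) (T15_St (n q) (a q) (d q)).1 (u q)
  have hRl : ∀ q, D q → ((cS (n q) (M q) (rhL (n q) (rg (n q) (a q)) (d q)) (v q)).length : ℤ) =
      cN (n q) (M q) (rhL (n q) (rg (n q) (a q)) (d q)) (v q) :=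
    fun q hq => length_cS (hn0 q hq) (h.one q hq) (T15_St (n q) (a q) (d q)).2 (v q)
  have hwD : ∀ q, D q → ∀ τ : ℝ, 2 ≤ τ → wD τ (n q) ≤ w2 τ (n q) (M q) (a q) (d q) (u q) (v q) := by
    intro q hq τ hτ
    have h3 := one_le_wY hτ (n q)
    have h5 : (0 : ℝ) ≤ ((2 ^ w0 (n q) : ℕ) : ℝ) := Nat.cast_nonneg _
    have h6 := mul_nonneg (hL0 q hq) (hR0 q hq)
    have h7 : 0 ≤ ((2 ^ w0 (n q) : ℕ) : ℝ) * wY τ (n q) := mul_nonneg h5 (by linarith)
    unfold w2
    linarith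
  have hwZ : ∀ q, D q → ∀ τ : ℝ, 2 ≤ τ → wD τ (n q) + ((2 ^ w0 (n q) : ℕ) : ℝ) * wY τ (n q) ≤
      w2 τ (n q) (M q) (a q) (d q) (u q) (v q) := by
    intro q hq τ hτ
    have h6 := mul_nonneg (hL0 q hq) (hR0 q hq)
    unfold w2
    linarith
  have hla := c_laL h.hn h.bn (c_rg h) hd
  have hrh := c_rhL h.hn h.bn (c_rg h) hd
  have cu := c_cN (n := n) (M := M) (s := fun q => laL (n q) (rg (n q) (a q)) (d q)) (p := u)
    h.hn h.bn h.hM hla h1 hu
  refine Cp.store (cu.mono hwD) fun Γ1 ρ1 k1 e1 => ?_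
  have cv := c_cN (n := n) (M := M) (s := fun q => rhL (n q) (rg (n q) (a q)) (d q)) (p := v)
    (k1.n h.hn) h.bn (k1.a h.hM) (k1.a hrh) h2 (k1.i hv)
  refine Cp.store (cv.mono hwD) fun Γ2 ρ2 k2 e2 => ?_
  have hR := (h.ke k1).ke k2
  have e1' := k2.i e1
  have hla' := k2.a (k1.a hla)
  have hrh' := k2.a (k1.a hrh)
  have hu' := k2.i (k1.i hu)
  have hv' := k2.i (k1.i hv)
  have hmB : PN N D ρ2 (fun q => mB (n q)) :=
    PN.div (PN.mul (PN.const 5002) (c_nJ hR.hn)) (PN.const 10000)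
  have bmB : Bd N D (fun q => mB (n q)) := by
    refine Bd.le (bd_nJ h.bn) fun q _ => ?_
    unfold mB
    omega
  have hw0 : PN N D ρ2 (fun q => 2 ^ w0 (n q)) := PN.pow2 (c_wc hmB) (bd_wc bmB)
  have hw0' : PI N D ρ2 (fun q => (2 : ℤ) ^ w0 (n q)) := hw0.congr fun q _ => by push_cast; rfl
  have q1 := PB.or (PB.eq e1' (PI.const 0)) (PB.eq e2 (PI.const 0))
  have q2 := PB.le e2 hw0'
  have q3 := PB.le e1' hw0'
  have b1 : Cp N (fun q => D q ∧ (cN (n q) (M q) (laL (n q) (rg (n q) (a q)) (d q)) (u q) = 0 ∨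
      cN (n q) (M q) (rhL (n q) (rg (n q) (a q)) (d q)) (v q) = 0)) ρ2
      (fun τ q => w2 τ (n q) (M q) (a q) (d q) (u q) (v q)) .arr (fun _ => []) :=
    PA.nil.lift fun q hq τ hτ => one_le_w2 hτ (hn0 q hq.1) (h.one q hq.1) _ _ _ _
  have b2 : Cp N (fun q => (D q ∧ ¬ (cN (n q) (M q) (laL (n q) (rg (n q) (a q)) (d q)) (u q) = 0 ∨
      cN (n q) (M q) (rhL (n q) (rg (n q) (a q)) (d q)) (v q) = 0)) ∧
      cN (n q) (M q) (rhL (n q) (rg (n q) (a q)) (d q)) (v q) ≤ 2 ^ w0 (n q)) ρ2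
      (fun τ q => w2 τ (n q) (M q) (a q) (d q) (u q) (v q)) .arr
      (fun q => tb (cS (n q) (M q) (rhL (n q) (rg (n q) (a q)) (d q)) (v q)).length fun i =>
        (cX (n q) (M q) (lin (n q) 1 (laL (n q) (rg (n q) (a q)) (d q)) 1
          (sv (n q) (rhL (n q) (rg (n q) (a q)) (d q))
            (gt (cS (n q) (M q) (rhL (n q) (rg (n q) (a q)) (d q)) (v q)) i).toNat)) : ℤ)) := by
    refine (T15_short (s := fun q => rhL (n q) (rg (n q) (a q)) (d q))
      (r := fun q => laL (n q) (rg (n q) (a q)) (d q)) (p := v)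
      (hR.dom fun q hq => hq.1.1) (hrh'.dom fun q hq => hq.1.1) (hla'.dom fun q hq => hq.1.1)
      (hv'.dom fun q hq => hq.1.1) (fun q hq => h2 q hq.1.1) (fun q hq c => ?_)
      (fun q hq => ?_)).mono fun q hq τ hτ => hwZ q hq.1.1 τ hτ
    · rw [rk_glue1]
      exact h1 q hq.1.1
    · have := hRl q hq.1.1
      have h3 := hq.2
      rw [← this] at h3
      exact_mod_cast h3
  have b3 : Cp N (fun q => ((D q ∧ ¬ (cN (n q) (M q) (laL (n q) (rg (n q) (a q)) (d q)) (u q) = 0 ∨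
      cN (n q) (M q) (rhL (n q) (rg (n q) (a q)) (d q)) (v q) = 0)) ∧
      ¬ cN (n q) (M q) (rhL (n q) (rg (n q) (a q)) (d q)) (v q) ≤ 2 ^ w0 (n q)) ∧
      cN (n q) (M q) (laL (n q) (rg (n q) (a q)) (d q)) (u q) ≤ 2 ^ w0 (n q)) ρ2
      (fun τ q => w2 τ (n q) (M q) (a q) (d q) (u q) (v q)) .arr
      (fun q => tb (cS (n q) (M q) (laL (n q) (rg (n q) (a q)) (d q)) (u q)).length fun i =>
        (cX (n q) (M q) (lin (n q) 1 (rhL (n q) (rg (n q) (a q)) (d q)) 1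
          (sv (n q) (laL (n q) (rg (n q) (a q)) (d q))
            (gt (cS (n q) (M q) (laL (n q) (rg (n q) (a q)) (d q)) (u q)) i).toNat)) : ℤ)) := by
    refine (T15_short (s := fun q => laL (n q) (rg (n q) (a q)) (d q))
      (r := fun q => rhL (n q) (rg (n q) (a q)) (d q)) (p := u)
      (hR.dom fun q hq => hq.1.1.1) (hla'.dom fun q hq => hq.1.1.1) (hrh'.dom fun q hq => hq.1.1.1)
      (hu'.dom fun q hq => hq.1.1.1) (fun q hq => h1 q hq.1.1.1) (fun q hq c => ?_)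
      (fun q hq => ?_)).mono fun q hq τ hτ => hwZ q hq.1.1.1 τ hτ
    · rw [rk_glue2]
      exact h2 q hq.1.1.1
    · have := hLl q hq.1.1.1
      have h3 := hq.2
      rw [← this] at h3
      exact_mod_cast h3
  have b4 : Cp N (fun q => ((D q ∧ ¬ (cN (n q) (M q) (laL (n q) (rg (n q) (a q)) (d q)) (u q) = 0 ∨
      cN (n q) (M q) (rhL (n q) (rg (n q) (a q)) (d q)) (v q) = 0)) ∧
      ¬ cN (n q) (M q) (rhL (n q) (rg (n q) (a q)) (d q)) (v q) ≤ 2 ^ w0 (n q)) ∧
      ¬ cN (n q) (M q) (laL (n q) (rg (n q) (a q)) (d q)) (u q) ≤ 2 ^ w0 (n q)) ρ2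
      (fun τ q => w2 τ (n q) (M q) (a q) (d q) (u q) (v q)) .arr
      (fun q => tb ((cS (n q) (M q) (laL (n q) (rg (n q) (a q)) (d q)) (u q)).length *
        (cS (n q) (M q) (rhL (n q) (rg (n q) (a q)) (d q)) (v q)).length) fun x =>
      (code (n q) (lin (n q) 1
        (sv (n q) (laL (n q) (rg (n q) (a q)) (d q))
          (gt (cS (n q) (M q) (laL (n q) (rg (n q) (a q)) (d q)) (u q))
          (x / (cS (n q) (M q) (rhL (n q) (rg (n q) (a q)) (d q)) (v q)).length)).toNat) 1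
        (sv (n q) (rhL (n q) (rg (n q) (a q)) (d q))
          (gt (cS (n q) (M q) (rhL (n q) (rg (n q) (a q)) (d q)) (v q))
          (x % (cS (n q) (M q) (rhL (n q) (rg (n q) (a q)) (d q)) (v q)).length)).toNat)) : ℤ)) := by
    have hD : ∀ q, (((D q ∧ ¬ (cN (n q) (M q) (laL (n q) (rg (n q) (a q)) (d q)) (u q) = 0 ∨
      cN (n q) (M q) (rhL (n q) (rg (n q) (a q)) (d q)) (v q) = 0)) ∧
      ¬ cN (n q) (M q) (rhL (n q) (rg (n q) (a q)) (d q)) (v q) ≤ 2 ^ w0 (n q)) ∧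
      ¬ cN (n q) (M q) (laL (n q) (rg (n q) (a q)) (d q)) (u q) ≤ 2 ^ w0 (n q)) → D q :=
      fun q hq => hq.1.1.1
    have hR4 := hR.dom hD
    have hla4 := hla'.dom hD
    have hrh4 := hrh'.dom hD
    have hbig : ∀ q, (((D q ∧ ¬ (cN (n q) (M q) (laL (n q) (rg (n q) (a q)) (d q)) (u q) = 0 ∨
      cN (n q) (M q) (rhL (n q) (rg (n q) (a q)) (d q)) (v q) = 0)) ∧
      ¬ cN (n q) (M q) (rhL (n q) (rg (n q) (a q)) (d q)) (v q) ≤ 2 ^ w0 (n q)) ∧
      ¬ cN (n q) (M q) (laL (n q) (rg (n q) (a q)) (d q)) (u q) ≤ 2 ^ w0 (n q)) →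
      ((2 ^ w0 (n q) : ℕ) : ℝ) ≤ (cN (n q) (M q) (laL (n q) (rg (n q) (a q)) (d q)) (u q) : ℝ) ∧
      ((2 ^ w0 (n q) : ℕ) : ℝ) ≤ (cN (n q) (M q) (rhL (n q) (rg (n q) (a q)) (d q)) (v q) : ℝ) := by
      intro q hq
      have h3 := (not_le.1 hq.2).le
      have h4 := (not_le.1 hq.1.2).le
      constructor
      · have : (((2 : ℤ) ^ w0 (n q) : ℤ) : ℝ) ≤
          (cN (n q) (M q) (laL (n q) (rg (n q) (a q)) (d q)) (u q) : ℝ) := by exact_mod_cast h3
        push_cast at this ⊢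
        exact this
      · have : (((2 : ℤ) ^ w0 (n q) : ℤ) : ℝ) ≤
          (cN (n q) (M q) (rhL (n q) (rg (n q) (a q)) (d q)) (v q) : ℝ) := by exact_mod_cast h4
        push_cast at this ⊢
        exact this
    have c1 := c_cS (n := n) (M := M) (s := fun q => laL (n q) (rg (n q) (a q)) (d q)) (p := u)
      hR4.hn hR4.bn hR4.hM hla4 (fun q hq => h1 q (hD q hq)) (hu'.dom hD)
    refine Cp.store (c1.mono fun q hq τ hτ => ?_) fun Γ3 ρ3 k3 e3 => ?_
    · have hl := hLl q (hD q hq)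
      have hl' : (((cS (n q) (M q) (laL (n q) (rg (n q) (a q)) (d q)) (u q)).length : ℕ) : ℝ) =
        (cN (n q) (M q) (laL (n q) (rg (n q) (a q)) (d q)) (u q) : ℝ) := by exact_mod_cast hl
      have h3 := mul_le_mul_of_nonneg_left (hbig q hq).2 (hL0 q (hD q hq))
      have h4 := one_le_wY hτ (n q)
      have h5 : (0 : ℝ) ≤ ((2 ^ w0 (n q) : ℕ) : ℝ) := Nat.cast_nonneg _
      have h7 : 0 ≤ ((2 ^ w0 (n q) : ℕ) : ℝ) * wY τ (n q) := mul_nonneg h5 (by linarith)
      unfold wS w2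
      rw [hl']
      linarith
    have c2 := c_cS (n := n) (M := M) (s := fun q => rhL (n q) (rg (n q) (a q)) (d q)) (p := v)
      (k3.n hR4.hn) hR4.bn (k3.a hR4.hM) (k3.a hrh4) (fun q hq => h2 q (hD q hq))
      (k3.i (hv'.dom hD))
    refine Cp.store (c2.mono fun q hq τ hτ => ?_) fun Γ4 ρ4 k4 e4 => ?_
    · have hl := hRl q (hD q hq)
      have hl' : (((cS (n q) (M q) (rhL (n q) (rg (n q) (a q)) (d q)) (v q)).length : ℕ) : ℝ) =
        (cN (n q) (M q) (rhL (n q) (rg (n q) (a q)) (d q)) (v q) : ℝ) := by exact_mod_cast hl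
      have h3 := mul_le_mul_of_nonneg_right (hbig q hq).1 (hR0 q (hD q hq))
      have h4 := one_le_wY hτ (n q)
      have h5 : (0 : ℝ) ≤ ((2 ^ w0 (n q) : ℕ) : ℝ) := Nat.cast_nonneg _
      have h7 : 0 ≤ ((2 ^ w0 (n q) : ℕ) : ℝ) * wY τ (n q) := mul_nonneg h5 (by linarith)
      unfold wS w2
      rw [hl']
      linarith
    have hR5 := (hR4.ke k3).ke k4
    have e3' := k4.a e3
    have hla5 := k4.a (k3.a hla4)
    have hrh5 := k4.a (k3.a hrh4)
    have c3 := Cp.tab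
      (k := fun q => (cS (n q) (M q) (laL (n q) (rg (n q) (a q)) (d q)) (u q)).length *
        (cS (n q) (M q) (rhL (n q) (rg (n q) (a q)) (d q)) (v q)).length) (w := one)
      (f := fun q x => (code (n q) (lin (n q) 1
        (sv (n q) (laL (n q) (rg (n q) (a q)) (d q))
          (gt (cS (n q) (M q) (laL (n q) (rg (n q) (a q)) (d q)) (u q))
          (x / (cS (n q) (M q) (rhL (n q) (rg (n q) (a q)) (d q)) (v q)).length)).toNat) 1
        (sv (n q) (rhL (n q) (rg (n q) (a q)) (d q))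
          (gt (cS (n q) (M q) (rhL (n q) (rg (n q) (a q)) (d q)) (v q))
          (x % (cS (n q) (M q) (rhL (n q) (rg (n q) (a q)) (d q)) (v q)).length)).toNat)) : ℤ))
      (PN.mul (PN.len e3') (PN.len e4)) (fun _ _ _ _ => le_rfl) fun Γ5 ρ5 up hx => by
        have hR6 := hR5.up up
        have l4 := PN.len (up.a e4)
        have g1 := c_sv (s := fun z : A × ℕ => laL (n z.1) (rg (n z.1) (a z.1)) (d z.1))
          (c := fun z : A × ℕ => (gt (cS (n z.1) (M z.1) (laL (n z.1) (rg (n z.1) (a z.1)) (d z.1))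
            (u z.1)) (z.2 / (cS (n z.1) (M z.1) (rhL (n z.1) (rg (n z.1) (a z.1)) (d z.1))
              (v z.1)).length)).toNat)
          hR6.hn hR6.bn (up.a hla5) (PN.toNat (PI.get (up.a e3') (PN.div hx l4)))
        have g2 := c_sv (s := fun z : A × ℕ => rhL (n z.1) (rg (n z.1) (a z.1)) (d z.1))
          (c := fun z : A × ℕ => (gt (cS (n z.1) (M z.1) (rhL (n z.1) (rg (n z.1) (a z.1)) (d z.1))
            (v z.1)) (z.2 % (cS (n z.1) (M z.1) (rhL (n z.1) (rg (n z.1) (a z.1)) (d z.1))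
              (v z.1)).length)).toNat)
          hR6.hn hR6.bn (up.a hrh5) (PN.toNat (PI.get (up.a e4) (PN.mod hx l4)))
        exact PN.code hR6.hn hR6.bn (PA.lin 1 1 hR6.hn hR6.bn g1 g2)
    refine c3.mono_poly 1 fun q hq τ hτ =>
      ⟨one_le_w2 hτ (hn0 q (hD q hq)) (h.one q (hD q hq)) _ _ _ _, ?_⟩
    have e5 : (((cS (n q) (M q) (laL (n q) (rg (n q) (a q)) (d q)) (u q)).length : ℕ) : ℝ) =
        (cN (n q) (M q) (laL (n q) (rg (n q) (a q)) (d q)) (u q) : ℝ) := by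
      exact_mod_cast hLl q (hD q hq)
    have e6 : (((cS (n q) (M q) (rhL (n q) (rg (n q) (a q)) (d q)) (v q)).length : ℕ) : ℝ) =
        (cN (n q) (M q) (rhL (n q) (rg (n q) (a q)) (d q)) (v q) : ℝ) := by
      exact_mod_cast hRl q (hD q hq)
    have h3 := one_le_wD hτ (n q)
    have h4 := one_le_wY hτ (n q)
    have h5 : (0 : ℝ) ≤ ((2 ^ w0 (n q) : ℕ) : ℝ) := Nat.cast_nonneg _
    have h7 : 0 ≤ ((2 ^ w0 (n q) : ℕ) : ℝ) * wY τ (n q) := mul_nonneg h5 (by linarith)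
    have h8 := mul_nonneg (hL0 q (hD q hq)) (hR0 q (hD q hq))
    have h9 : (0 : ℝ) ≤ (N q : ℝ) := Nat.cast_nonneg _
    simp only [one, mul_one, pow_one]
    rw [Nat.cast_mul, e5, e6]
    unfold w2
    nlinarith
  have r3 := Cp.iteA (q := fun q => cN (n q) (M q) (laL (n q) (rg (n q) (a q)) (d q)) (u q) ≤
    2 ^ w0 (n q)) (D := fun q => (D q ∧ ¬ (cN (n q) (M q) (laL (n q) (rg (n q) (a q)) (d q)) (u q) = 0 ∨
      cN (n q) (M q) (rhL (n q) (rg (n q) (a q)) (d q)) (v q) = 0)) ∧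
      ¬ cN (n q) (M q) (rhL (n q) (rg (n q) (a q)) (d q)) (v q) ≤ 2 ^ w0 (n q))
    (T15_dom q3 fun q hq => hq.1.1) b3 b4
  have r3' := r3.mono (w' := fun τ q => w2 τ (n q) (M q) (a q) (d q) (u q) (v q))
    fun q _ τ _ => by split_ifs <;> exact le_rfl
  have r2 := Cp.iteA (q := fun q => cN (n q) (M q) (rhL (n q) (rg (n q) (a q)) (d q)) (v q) ≤
    2 ^ w0 (n q)) (D := fun q => D q ∧ ¬ (cN (n q) (M q) (laL (n q) (rg (n q) (a q)) (d q)) (u q) = 0 ∨
      cN (n q) (M q) (rhL (n q) (rg (n q) (a q)) (d q)) (v q) = 0))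
    (T15_dom q2 fun q hq => hq.1) b2 r3'
  have r2' := r2.mono (w' := fun τ q => w2 τ (n q) (M q) (a q) (d q) (u q) (v q))
    fun q _ τ _ => by split_ifs <;> exact le_rfl
  have r1 := Cp.iteA (q := fun q => cN (n q) (M q) (laL (n q) (rg (n q) (a q)) (d q)) (u q) = 0 ∨
      cN (n q) (M q) (rhL (n q) (rg (n q) (a q)) (d q)) (v q) = 0) q1 b1 r2'
  have r1' := r1.mono (w' := fun τ q => w2 τ (n q) (M q) (a q) (d q) (u q) (v q))
    fun q _ τ _ => by split_ifs <;> exact le_rfl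
  exact r1'

end Pool.Agent.MPa9445a.DB
end
end
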