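import Pool.Agent.Lib.MP_a9445a_lc.Mg.G148
import Pool.Agent.Lib.MP_a9445a_lc.GS.K1
import Pool.Agent.Lib.MP_a9445a_lc.Mg.G126
import Pool.Agent.Lib.MP_a9445a_lc.Mg.G127

section

/-! The running time of the ball search: the whole procedure. -/

set_option autoImplicit false

open Finset

namespace Pool.Agent.MPa9445a.BW

open Pool.Agent.MPa9445a.BE (Ty Env vs one Bd NL DL tb flt gt bit Phi vec code lin argmax matMul Bd.const
  Bd.add Bd.mul Bd.le Bd.up Bd.var Bd.self)
open Pool.Agent.MPa9445a.GD

/-- The value of an index. -/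
def vI (n : ℕ) (M y : List ℤ) (z : ℕ) : ℤ := Phi n M (vec n (cand (inp n M y z)))

/-- The best index. -/
def xI (n : ℕ) (M y : List ℤ) : ℕ := argmax (nI n) fun z => vI n M y z.toNat

theorem bw_eq (n : ℕ) (M y : List ℤ) : bw n M y = cand (inp n M y (xI n M y)) := rfl

section

variable {A : Type} {N : A → ℕ} {D : A → Prop} {Γ : List Ty} {ρ : A → Env Γ}

theorem c_vI {n : A → ℕ} {M y : A → List ℤ} {z : A → ℕ} (hn : PN N D ρ n) (bn : Bd N D n)
    (hM : PA N D ρ M) (hy : PA N D ρ y) (hz : PN N D ρ z) :
    Cp N D ρ (fun τ a => wB τ (n a)) .int (fun a => vI (n a) (M a) (y a) (z a)) := by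
  refine (c_candI hn bn hM hy hz).store fun Γ2 ρ2 k2 hc => ?_
  exact (PI.Phi (k2.n hn) bn (k2.a hM) (PA.vec (k2.n hn) bn hc)).lift fun p _ τ hτ => one_le_wB _ hτ

theorem W3_num {N' m b : ℕ} {w : ℝ} (hw : 1 ≤ w) (h5 : (b : ℝ) ≤ ((N' : ℝ) + 2) ^ m) :
    ((b : ℝ) + 1) * w ≤ ((N' : ℝ) + 2) ^ (m + 1) * w := by
  have h4 : (0 : ℝ) ≤ N' := Nat.cast_nonneg _
  have h8 : (1 : ℝ) ≤ ((N' : ℝ) + 2) ^ m := one_le_pow₀ (by linarith)
  rw [pow_succ ((N' : ℝ) + 2) m]
  refine mul_le_mul_of_nonneg_right ?_ (zero_le_one.trans hw)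
  nlinarith

theorem c_xI {n : A → ℕ} {M y : A → List ℤ} (hn : PN N D ρ n) (bn : Bd N D n)
    (hM : PA N D ρ M) (hy : PA N D ρ y) :
    Cp N D ρ (fun τ a => wB τ (n a)) .int (fun a => (xI (n a) (M a) (y a) : ℤ)) := by
  have hb : Body N D ρ (fun a => nI (n a)) (fun τ a => wB τ (n a)) .int
      (fun a z => vI (n a) (M a) (y a) z) := fun Γ1 ρ1 up hv =>
    c_vI (n := fun p : A × ℕ => n p.1) (M := fun p : A × ℕ => M p.1) (y := fun p : A × ℕ => y p.1)
      (z := fun p : A × ℕ => p.2) (up.n hn) (bn.up _) (up.a hM) (up.a hy) hv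
  have h0 := Cp.amax (c_nI hn) (fun a _ τ hτ => one_le_wB (n a) hτ) hb
  have h : Cp N D ρ (fun τ a => ((nI (n a) : ℝ) + 1) * wB τ (n a)) .int
      (fun a => (xI (n a) (M a) (y a) : ℤ)) := h0.congr fun a _ => rfl
  obtain ⟨m, hm⟩ := bd_nI bn
  refine h.mono_poly (m + 1) fun a ha τ hτ => ⟨one_le_wB _ hτ, ?_⟩
  exact W3_num (one_le_wB _ hτ) (by exact_mod_cast hm a ha)

/-- The best vector of the ball: program and running time. -/
theorem c_bw {n : A → ℕ} {M y : A → List ℤ} (hn : PN N D ρ n) (bn : Bd N D n)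
    (hM : PA N D ρ M) (hy : PA N D ρ y) :
    Cp N D ρ (fun τ a => wB τ (n a)) .int (fun a => (bw (n a) (M a) (y a) : ℤ)) := by
  simp only [bw_eq]
  refine (c_xI hn bn hM hy).store fun Γ1 ρ1 k1 hz => ?_
  exact c_candI (z := fun a => xI (n a) (M a) (y a)) (k1.n hn) bn (k1.a hM) (k1.a hy) hz

end

/-- The weight for large `n`. -/
theorem wB_le {τ : ℝ} (hτ : 2 ≤ τ) {n : ℕ} (hn : 10000000000 ≤ n) :
    wB τ n ≤ (2 : ℝ) ^ ((τ / 3 - 0.000000001) * n) := by
  have h1 : ((kb n : ℕ) : ℝ) ≤ (2 : ℝ) ^ ((1 / 3 - 0.000000001) * (n : ℝ) + 5) := by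
    unfold kb
    rw [Nat.cast_pow, ← Real.rpow_natCast]
    apply Real.rpow_le_rpow_of_exponent_le (by norm_num)
    have htq : n / 1000000000 ≤ n / 3 := by omega
    rw [Nat.cast_add, Nat.cast_sub htq]
    have c1 : (3 : ℝ) * ((n / 3 : ℕ) : ℝ) ≤ n := by exact_mod_cast Nat.mul_div_le n 3
    have c2 : (n : ℝ) ≤ 1000000000 * ((n / 1000000000 : ℕ) : ℝ) + 1000000000 := by
      have : n ≤ 1000000000 * (n / 1000000000) + 1000000000 := by omega
      exact_mod_cast this
    push_cast
    linarith
  have h2 : wB τ n ≤ ((2 : ℝ) ^ ((1 / 3 - 0.000000001) * (n : ℝ) + 5)) ^ τ :=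
    Real.rpow_le_rpow (by positivity) h1 (by linarith)
  refine h2.trans ?_
  rw [← Real.rpow_mul (by norm_num)]
  apply Real.rpow_le_rpow_of_exponent_le (by norm_num)
  have hn0 : (10000000000 : ℝ) ≤ n := by exact_mod_cast hn
  nlinarith [mul_nonneg (by linarith : (0 : ℝ) ≤ (n : ℝ) - 10000000000) (by linarith : (0 : ℝ) ≤ τ - 2)]

end Pool.Agent.MPa9445a.BW
end

section

/-!
# The basis as an array

The rows are the bits of the array `R` from the entry `o` on, `n` bits for each row.
-/

set_option autoImplicit false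

open Finset
open scoped symmDiff

namespace Pool.Agent.MPa9445a.GS

open Pool.Agent.MPa9445a.BE (Ty Env vs one Bd NL DL tb flt gt bit Phi vec code lin argmax Bd.const
  Bd.add Bd.mul Bd.le Bd.up Bd.var Bd.self fv)
open Pool.Agent.MPa9445a.GD
open Pool.Agent.MPa9445a.SN (ST)
open Pool.Agent.MPa9445a.GL (Fr)

variable {n : ℕ}

/-- The parity of the intersection of the set with code `c` and the row `i`. -/
def parN (n : ℕ) (R : List ℤ) (o i c : ℕ) : ℕ :=
  ((∑ v ∈ range n, gt R (o + i * n + v) * (bit c v : ℤ)) % 2).toNat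

/-- The code of the symmetric difference. -/
def xr (n a b : ℕ) : ℕ := ∑ v ∈ range n, (bit a v + bit b v) % 2 * 2 ^ v

/-- The code of the combination of the sets with the codes `z` with the coefficients `w`. -/
def cmbL (n : ℕ) (z : List ℤ) (w : ℕ) : ℕ :=
  ∑ v ∈ range n, (∑ j ∈ range n, bit w j * bit (gt z j).toNat v) % 2 * 2 ^ v

/-- The first index with an odd intersection. -/
def foL (n : ℕ) (R : List ℤ) (o i : ℕ) (z : List ℤ) : ℕ :=
  argmax n fun j => (parN n R o i (gt z j.toNat).toNat : ℤ)

/-- The pivot step. -/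
def pvL (n : ℕ) (R : List ℤ) (o i : ℕ) (z : List ℤ) : List ℤ := tb n fun j =>
  if parN n R o i (gt z j).toNat = 1 then
    (xr n (gt z j).toNat (gt z (foL n R o i z)).toNat : ℤ) else gt z j

/-- The family for the first `i` rows, for the block of the free entries of the state `s`. -/
def kzL (n : ℕ) (R : List ℤ) (o : ℕ) (s : List ℤ) (i : ℕ) : List ℤ :=
  itr (fun i z => pvL n R o i z) (tb n fun j => if gt s j = 2 then 2 ^ j else 0) i

/-- The row `i`. -/
def rowR (n : ℕ) (R : List ℤ) (o i : ℕ) : Finset (Fin n) :=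
  univ.filter fun v : Fin n => gt R (o + i * n + v) % 2 = 1

theorem kzL_succ (n : ℕ) (R : List ℤ) (o : ℕ) (s : List ℤ) (i : ℕ) :
    kzL n R o s (i + 1) = pvL n R o i (kzL n R o s i) := rfl

private theorem K2_bit (c i : ℕ) : bit c i = 0 ∨ bit c i = 1 := by
  unfold BE.bit
  omega

theorem parN_eq (R : List ℤ) (o i c : ℕ) : parN n R o i c = par (rowR n R o i) (ST n c) := by
  have h1 : ((((ST n c ∩ rowR n R o i).card : ℕ) : ℤ)) ≡
      ∑ v ∈ range n, gt R (o + i * n + v) * (bit c v : ℤ) [ZMOD 2] := by
    have h2 : ST n c ∩ rowR n R o i =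
        univ.filter fun u : Fin n => bit c u = 1 ∧ gt R (o + i * n + u) % 2 = 1 := by
      ext u
      unfold SN.ST rowR
      simp only [mem_inter, mem_filter, mem_univ, true_and]
    rw [h2, Finset.card_filter, Finset.sum_range]
    push_cast
    refine Int.ModEq.sum fun u _ => ?_
    rcases K2_bit c u with h2 | h2
    · rw [h2]
      simp
    · rw [h2]
      rcases Int.emod_two_eq_zero_or_one (gt R (o + i * n + u)) with h | h
      · simp only [h, true_and, zero_ne_one, if_false, Nat.cast_one, mul_one]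
        unfold Int.ModEq
        omega
      · simp only [h, true_and, if_true, Nat.cast_one, mul_one]
        unfold Int.ModEq
        omega
  unfold parN par
  unfold Int.ModEq at h1
  omega

theorem ST_xr (a b : ℕ) : ST n (xr n a b) = ST n a ∆ ST n b := by
  unfold xr
  rw [GL.ST_sum (fun v => (bit a v + bit b v) % 2) (fun v => Nat.mod_two_eq_zero_or_one _)]
  ext v
  unfold SN.ST
  rw [mem_symmDiff, mem_filter, mem_filter, mem_filter]
  simp only [mem_univ, true_and]
  rcases K2_bit a v with h1 | h1
  · rcases K2_bit b v with h2 | h2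
    · rw [h1, h2]
      simp
    · rw [h1, h2]
      simp
  · rcases K2_bit b v with h2 | h2
    · rw [h1, h2]
      simp
    · rw [h1, h2]
      simp

theorem ST_cmbL (z : List ℤ) (w : ℕ) :
    ST n (cmbL n z w) = cmb (fun j : Fin n => ST n (gt z j).toNat) (ST n w) := by
  unfold cmbL cmb
  rw [GL.ST_sum (fun v => (∑ j ∈ range n, bit w j * bit (gt z j).toNat v) % 2)
    (fun v => Nat.mod_two_eq_zero_or_one _)]
  ext v
  rw [mem_filter, mem_filter]
  refine and_congr_right fun _ => ?_
  have h1 : ((ST n w).filter fun j : Fin n => v ∈ ST n (gt z j).toNat).card =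
      ∑ j ∈ range n, bit w j * bit (gt z j).toNat v := by
    have h2 : (ST n w).filter (fun j : Fin n => v ∈ ST n (gt z j).toNat) =
        univ.filter fun j : Fin n => bit w j = 1 ∧ bit (gt z j).toNat v = 1 := by
      ext j
      unfold SN.ST
      simp only [mem_filter, mem_univ, true_and]
    rw [h2, Finset.card_filter, Finset.sum_range]
    refine Finset.sum_congr rfl fun j _ => ?_
    rcases K2_bit w j with h3 | h3
    · rw [h3]
      simp
    · rcases K2_bit (gt z j).toNat v with h4 | h4
      · rw [h3, h4]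
        simp
      · rw [h3, h4]
        simp
  rw [h1]

private theorem K2_gt_tb (f : ℕ → ℤ) (j : Fin n) : gt (tb n f) j = f j := by
  show (tb n f).getD j 0 = f j
  rw [BE.getD_tb, if_pos j.2]

/-- The array contains the codes of the sets of the basis. -/
theorem kzL_eq (R : List ℤ) (o : ℕ) (s : List ℤ) (i : ℕ) (j : Fin n) :
    ST n (gt (kzL n R o s i) j).toNat = kz (Fr (fv n s)) (rowR n R o) i j := by
  induction i generalizing j with
  | zero =>
    show ST n (gt (tb n fun j => if gt s j = 2 then 2 ^ j else 0) j).toNat =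
      if j ∈ Fr (fv n s) then {j} else ∅
    rw [K2_gt_tb]
    have hF : j ∈ Fr (fv n s) ↔ gt s (j : ℕ) = 2 := by
      unfold GL.Fr BE.fv
      simp only [mem_filter, mem_univ, true_and]
    by_cases h : gt s (j : ℕ) = 2
    · rw [if_pos h, if_pos (hF.2 h)]
      ext v
      unfold SN.ST BE.bit
      rw [mem_filter, mem_singleton]
      have h1 : ((2 : ℤ) ^ (j : ℕ)).toNat = 2 ^ (j : ℕ) := by
        have h2 : (2 : ℤ) ^ (j : ℕ) = ((2 ^ (j : ℕ) : ℕ) : ℤ) := by push_cast; rfl
        rw [h2, Int.toNat_natCast]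
      rw [h1]
      simp only [mem_univ, true_and]
      rcases Nat.lt_trichotomy (v : ℕ) (j : ℕ) with h3 | h3 | h3
      · have h4 : (2 : ℕ) ^ (j : ℕ) / 2 ^ (v : ℕ) = 2 * 2 ^ ((j : ℕ) - v - 1) := by
          rw [Nat.pow_div h3.le (by norm_num), ← pow_succ']
          congr 1
          omega
        rw [h4, Nat.mul_mod_right]
        constructor
        · intro h5
          omega
        · intro h5
          rw [h5] at h3
          exact absurd h3 (lt_irrefl _)
      · have h5 : v = j := Fin.ext h3
        rw [h5, Nat.div_self (by positivity)]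
        simp
      · rw [Nat.div_eq_of_lt (Nat.pow_lt_pow_right (by norm_num) h3)]
        constructor
        · intro h5
          omega
        · intro h5
          rw [h5] at h3
          exact absurd h3 (lt_irrefl _)
    · rw [if_neg h, if_neg (fun h1 => h (hF.1 h1))]
      ext v
      unfold SN.ST BE.bit
      simp
  | succ i ih =>
    rw [kzL_succ]
    show ST n (gt (pvL n R o i (kzL n R o s i)) j).toNat =
      pv (rowR n R o i) (kz (Fr (fv n s)) (rowR n R o) i) j
    have hz : ∀ j : Fin n, parN n R o i (gt (kzL n R o s i) j).toNat =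
        par (rowR n R o i) (kz (Fr (fv n s)) (rowR n R o) i j) := by
      intro j
      rw [parN_eq, ih]
    unfold pvL pv
    rw [K2_gt_tb, hz]
    by_cases h : par (rowR n R o i) (kz (Fr (fv n s)) (rowR n R o) i j) = 1
    · rw [if_pos h, if_pos h, Int.toNat_natCast, ST_xr, ih]
      have hn : 0 < n := by
        have := j.2
        omega
      obtain ⟨h1, h2⟩ := BE.argmax_spec (k := n) hn
        (fun j => (parN n R o i (gt (kzL n R o s i) j.toNat).toNat : ℤ))
      have h3 : fo (rowR n R o i) (kz (Fr (fv n s)) (rowR n R o) i) =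
          some ⟨foL n R o i (kzL n R o s i), h1⟩ := by
        unfold fo
        have hfe : argmax n (fun j => (parN n R o i (gt (kzL n R o s i) j.toNat).toNat : ℤ)) =
            argmax n fun j => if parN n R o i (gt (kzL n R o s i) j.toNat).toNat = 1 then 1
              else 0 := by
          refine argmax_congr fun x hx => ?_
          have h4 : parN n R o i (gt (kzL n R o s i) ((x : ℕ) : ℤ).toNat).toNat = 0 ∨
              parN n R o i (gt (kzL n R o s i) ((x : ℕ) : ℤ).toNat).toNat = 1 := by
            rw [parN_eq]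
            exact par_cases _ _
          rcases h4 with h4 | h4
          · rw [h4]
            simp
          · rw [h4]
            simp
        have h4 := argmax_find (k := n) (q := fun x => parN n R o i (gt (kzL n R o s i) x).toNat = 1)
          (i := (j : ℕ)) j.2 (by
            show parN n R o i (gt (kzL n R o s i) j).toNat = 1
            rw [hz]
            exact h)
        obtain ⟨h5, h6, h7⟩ := h4
        have h8 : foL n R o i (kzL n R o s i) = argmax n fun j =>
            if parN n R o i (gt (kzL n R o s i) j.toNat).toNat = 1 then 1 else 0 := hfe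
        have hmin : IsLeast (↑(univ.filter fun j : Fin n =>
            par (rowR n R o i) (kz (Fr (fv n s)) (rowR n R o) i j) = 1) : Set (Fin n))
            ⟨foL n R o i (kzL n R o s i), h1⟩ := by
          constructor
          · rw [Finset.mem_coe, mem_filter]
            refine ⟨mem_univ _, ?_⟩
            rw [← hz]
            show parN n R o i (gt (kzL n R o s i) (foL n R o i (kzL n R o s i))).toNat = 1
            rw [h8]
            exact h5
          · intro y hy
            rw [Finset.mem_coe, mem_filter] at hy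
            by_contra hlt
            rw [not_le] at hlt
            have h9 : (y : ℕ) < argmax n fun j =>
                if parN n R o i (gt (kzL n R o s i) j.toNat).toNat = 1 then 1 else 0 := by
              rw [← h8]
              exact hlt
            refine h7 y h9 ?_
            show parN n R o i (gt (kzL n R o s i) y).toNat = 1
            rw [hz]
            exact hy.2
        have hne : (univ.filter fun j : Fin n =>
            par (rowR n R o i) (kz (Fr (fv n s)) (rowR n R o) i j) = 1).Nonempty := ⟨_, hmin.1⟩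
        rw [← Finset.coe_min' hne, (Finset.isLeast_min' _ hne).unique hmin]
        rfl
      rw [h3]
      show _ = kz (Fr (fv n s)) (rowR n R o) i j ∆
        kz (Fr (fv n s)) (rowR n R o) i ⟨foL n R o i (kzL n R o s i), h1⟩
      rw [← ih ⟨foL n R o i (kzL n R o s i), h1⟩]
    · rw [if_neg h, if_neg h, ih]

end Pool.Agent.MPa9445a.GS
end
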