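import Pool.Agent.Lib.MP_a9445a_lc.Mg.G142
import Pool.Agent.Lib.MP_a9445a_lc.Mg.G144
import Pool.Agent.Lib.MP_a9445a_lc.Mg.G149
import Pool.Agent.Lib.MP_a9445a_lc.Mg.G137

section

/-! The candidates for a target: program and running time. -/

set_option autoImplicit false

open Finset

namespace Pool.Agent.MPa9445a.DB

open Pool.Agent.MPa9445a.BE (Ty Env vs one Bd NL DL tb flt gt bit Phi vec code lin argmax matMul Bd.const
  Bd.add Bd.mul Bd.le Bd.up Bd.var Bd.self)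
open Pool.Agent.MPa9445a.GD
open Pool.Agent.MPa9445a.GL (rk sv laL rhL lvv LL c_rk bd_rk c_sv c_laL c_rhL c_LL bd_LL c_lvv)

/-- The weight of a target. -/
noncomputable def wT (τ : ℝ) (n : ℕ) (M : List ℤ) (a : ℕ) (p : ℤ) : ℝ :=
  wJ n + (2 : ℝ) ^ (2 * (n - nJ n)) * (wD τ n + ((2 ^ w0 n : ℕ) : ℝ) * wY τ n) + (tE n M a p : ℝ)

/-- The weight of a set `D` and a region. -/
noncomputable def w3 (τ : ℝ) (n : ℕ) (M : List ℤ) (a d : ℕ) (g : ℤ) : ℝ :=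
  wD τ n + ((2 ^ w0 n : ℕ) : ℝ) * wY τ n + (Ed n M a d g : ℝ)

/-- The candidates for a set `D` and a region. -/
def T3 (n : ℕ) (M : List ℤ) (a d : ℕ) (g : ℤ) : List ℤ :=
  fm (LL n) fun u => T2 n M a d (lvv n u) (g - lvv n u)

private theorem T16_cN {n : ℕ} (hn : 0 < n) {M s : List ℤ} (hM : ∀ x ∈ M, |x| ≤ 1)
    (hs : GL.St (BE.fv n s)) (p : ℤ) : 0 ≤ cN n M s p := by
  have hwc : 3 * wc (rk s n) ≤ rk s n := by
    unfold wc
    omega
  unfold cN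
  rw [cn_eq hn hM hs hwc]
  exact Int.natCast_nonneg _

private theorem T16_la {n : ℕ} (hn : 0 < n) {M : List ℤ} (hM : ∀ x ∈ M, |x| ≤ 1) (a d : ℕ) (p : ℤ) :
    0 ≤ cN n M (laL n (rg n a) d) p :=
  T16_cN hn hM (by rw [GL.fv_laL]; exact GL.St_la St_rg _) p

private theorem T16_rh {n : ℕ} (hn : 0 < n) {M : List ℤ} (hM : ∀ x ∈ M, |x| ≤ 1) (a d : ℕ) (p : ℤ) :
    0 ≤ cN n M (rhL n (rg n a) d) p :=
  T16_cN hn hM (by rw [GL.fv_rhL]; exact GL.St_rh St_rg _) p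

/-- PROOF. `cn_eq`: the numbers are not negative. -/
theorem Ed_nonneg {n : ℕ} (hn : 0 < n) {M : List ℤ} (hM : ∀ x ∈ M, |x| ≤ 1) (a d : ℕ) (g : ℤ) :
    0 ≤ Ed n M a d g :=
  Finset.sum_nonneg fun _ _ => mul_nonneg (T16_la hn hM _ _ _) (T16_rh hn hM _ _ _)

theorem tE_nonneg {n : ℕ} (hn : 0 < n) {M : List ℤ} (hM : ∀ x ∈ M, |x| ≤ 1) (a : ℕ) (p : ℤ) :
    0 ≤ tE n M a p := by
  unfold tE
  refine Finset.sum_nonneg fun x _ => ?_
  unfold En
  split_ifs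
  · exact Finset.sum_nonneg fun _ _ => Finset.sum_nonneg fun _ _ => Ed_nonneg hn hM _ _ _
  · exact le_rfl

/-- The weight without the numbers. -/
private noncomputable def T16C (τ : ℝ) (n : ℕ) : ℝ := wD τ n + ((2 ^ w0 n : ℕ) : ℝ) * wY τ n

private theorem T16C_one {τ : ℝ} (hτ : 2 ≤ τ) (n : ℕ) : 1 ≤ T16C τ n := by
  have h1 := one_le_wD hτ n
  have h2 := one_le_wY hτ n
  have h3 : (0 : ℝ) ≤ ((2 ^ w0 n : ℕ) : ℝ) * wY τ n := mul_nonneg (Nat.cast_nonneg _) (by linarith)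
  unfold T16C
  linarith

private theorem T16_wT (τ : ℝ) (n : ℕ) (M : List ℤ) (a : ℕ) (p : ℤ) :
    wT τ n M a p = wJ n + (2 : ℝ) ^ (2 * (n - nJ n)) * T16C τ n + (tE n M a p : ℝ) := rfl

private theorem T16_w3 (τ : ℝ) (n : ℕ) (M : List ℤ) (a d : ℕ) (g : ℤ) :
    w3 τ n M a d g = T16C τ n + (Ed n M a d g : ℝ) := rfl

theorem one_le_wT {τ : ℝ} (hτ : 2 ≤ τ) {n : ℕ} (hn : 0 < n) {M : List ℤ} (hM : ∀ x ∈ M, |x| ≤ 1)
    (a : ℕ) (p : ℤ) : 1 ≤ wT τ n M a p := by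
  have h1 := one_le_wJ n
  have h2 := T16C_one hτ n
  have h3 : (0 : ℝ) ≤ (tE n M a p : ℝ) := by exact_mod_cast tE_nonneg hn hM a p
  have h4 : (0 : ℝ) ≤ (2 : ℝ) ^ (2 * (n - nJ n)) * T16C τ n := by positivity
  rw [T16_wT]
  linarith

private theorem T16_w3_one {τ : ℝ} (hτ : 2 ≤ τ) {n : ℕ} (hn : 0 < n) {M : List ℤ}
    (hM : ∀ x ∈ M, |x| ≤ 1) (a d : ℕ) (g : ℤ) : 1 ≤ w3 τ n M a d g := by
  have h2 := T16C_one hτ n
  have h3 : (0 : ℝ) ≤ (Ed n M a d g : ℝ) := by exact_mod_cast Ed_nonneg hn hM a d g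
  rw [T16_w3]
  linarith

/-- PROOF. `∑ u, w2 … = LL * (wD + 2 ^ w0 wY) + Ed`. -/
theorem sum_w2_le {τ : ℝ} (hτ : 2 ≤ τ) {n : ℕ} (hn : 0 < n) {M : List ℤ} (hM : ∀ x ∈ M, |x| ≤ 1)
    (a d : ℕ) (g : ℤ) : 1 + ∑ u ∈ range (LL n), w2 τ n M a d (lvv n u) (g - lvv n u) ≤
      (LL n + 1) * w3 τ n M a d g := by
  have h1 : ∑ u ∈ range (LL n), w2 τ n M a d (lvv n u) (g - lvv n u) =
      LL n * T16C τ n + (Ed n M a d g : ℝ) := by
    unfold w2 Ed
    rw [Finset.sum_add_distrib, Finset.sum_const, Finset.card_range, nsmul_eq_mul, Int.cast_sum]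
    simp only [Int.cast_mul]
    rfl
  have h2 := T16C_one hτ n
  have h3 : (0 : ℝ) ≤ (Ed n M a d g : ℝ) := by exact_mod_cast Ed_nonneg hn hM a d g
  have h4 : (0 : ℝ) ≤ LL n := Nat.cast_nonneg _
  have h5 : (0 : ℝ) ≤ LL n * (Ed n M a d g : ℝ) := mul_nonneg h4 h3
  rw [h1, T16_w3]
  have h6 : ((LL n : ℝ) + 1) * (T16C τ n + (Ed n M a d g : ℝ)) =
    LL n * T16C τ n + T16C τ n + LL n * (Ed n M a d g : ℝ) + (Ed n M a d g : ℝ) := by ring
  linarith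

/-- PROOF. `length_fm`, `length_T2`, `sum_w2_le`. -/
theorem length_T3 {τ : ℝ} (hτ : 2 ≤ τ) {n : ℕ} (hn : 0 < n) {M : List ℤ} (hM : ∀ x ∈ M, |x| ≤ 1)
    (a d : ℕ) (g : ℤ) : ((T3 n M a d g).length : ℝ) ≤ (LL n + 1) * w3 τ n M a d g := by
  refine le_trans ?_ (sum_w2_le hτ hn hM a d g)
  unfold T3
  rw [length_fm]
  push_cast
  have h : ∑ u ∈ range (LL n), ((T2 n M a d (lvv n u) (g - lvv n u)).length : ℝ) ≤
      ∑ u ∈ range (LL n), w2 τ n M a d (lvv n u) (g - lvv n u) :=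
    Finset.sum_le_sum fun u _ => length_T2 hτ hn hM a d _ _
  linarith

private theorem T16_tE {n : ℕ} {M : List ℤ} (a : ℕ) {p : ℤ} (hp : (p + tt n M a) % 2 = 0) :
    tE n M a p = ∑ i ∈ range (nS n M a), ∑ x ∈ range (2 ^ (n - nJ n)),
      ∑ κ ∈ range (dl n M a i).length, Ed n M a (dd n M a i x κ) ((p + tt n M a) / 2) := by
  unfold tE
  rw [Finset.sum_comm]
  refine Finset.sum_congr rfl fun x _ => ?_
  unfold En
  rw [if_pos hp]

/-- The sum of the weights of all sets `D` and regions. PROOF. `dl_len`, `qq_ge`: `(dl …).length ≤ 2 ^ (n - nJ)`; the sum of the `Ed` is `tE` (exchange the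
sums over `x` and `i`). -/
theorem sum_w3_le {τ : ℝ} (hτ : 2 ≤ τ) {n : ℕ} (hn : 10 ^ 16 ≤ n) {M : List ℤ}
    (hM : ∀ x ∈ M, |x| ≤ 1) (a : ℕ) {p : ℤ} (hp : (p + tt n M a) % 2 = 0) :
    ∑ i ∈ range (nS n M a), (wJ n + ∑ x ∈ range (2 ^ (n - nJ n)),
      (1 + ∑ κ ∈ range (dl n M a i).length,
        w3 τ n M a (dd n M a i x κ) ((p + tt n M a) / 2))) ≤ (3 * nS n M a + 1) * wT τ n M a p := by
  have hn0 : 0 < n := lt_of_lt_of_le (by norm_num) hn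
  have hC := T16C_one hτ n
  have hJ := one_le_wJ n
  set P : ℝ := (2 : ℝ) ^ (n - nJ n) with hP
  have hP1 : 1 ≤ P := one_le_pow₀ (by norm_num)
  have hPP : (2 : ℝ) ^ (2 * (n - nJ n)) = P * P := by
    rw [hP, ← pow_add, two_mul]
  have h1 : ∀ i ∈ range (nS n M a), (wJ n + ∑ x ∈ range (2 ^ (n - nJ n)),
      (1 + ∑ κ ∈ range (dl n M a i).length, w3 τ n M a (dd n M a i x κ) ((p + tt n M a) / 2))) ≤
      wJ n + 2 * (P * P * T16C τ n) + ∑ x ∈ range (2 ^ (n - nJ n)),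
        ∑ κ ∈ range (dl n M a i).length, (Ed n M a (dd n M a i x κ) ((p + tt n M a) / 2) : ℝ) := by
    intro i hi
    have h2 : ((dl n M a i).length : ℝ) ≤ P := by
      have h3 := (dl_len (n := n) (M := M) (a := a) (Finset.mem_range.1 hi)).trans
        (Nat.pow_le_pow_right (by norm_num) (qq_ge (a := a) hn hM))
      have h4 : ((dl n M a i).length : ℝ) ≤ ((2 ^ (n - nJ n) : ℕ) : ℝ) := by exact_mod_cast h3
      rw [hP]
      push_cast at h4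
      exact h4
    have h5 : ∀ x ∈ range (2 ^ (n - nJ n)), (1 + ∑ κ ∈ range (dl n M a i).length,
        w3 τ n M a (dd n M a i x κ) ((p + tt n M a) / 2)) ≤ (1 + P * T16C τ n) +
        ∑ κ ∈ range (dl n M a i).length, (Ed n M a (dd n M a i x κ) ((p + tt n M a) / 2) : ℝ) := by
      intro x _
      have h6 : ∑ κ ∈ range (dl n M a i).length, w3 τ n M a (dd n M a i x κ) ((p + tt n M a) / 2) =
          (dl n M a i).length * T16C τ n +
          ∑ κ ∈ range (dl n M a i).length, (Ed n M a (dd n M a i x κ) ((p + tt n M a) / 2) : ℝ) := by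
        simp only [T16_w3]
        rw [Finset.sum_add_distrib, Finset.sum_const, Finset.card_range, nsmul_eq_mul]
      rw [h6]
      have h7 : ((dl n M a i).length : ℝ) * T16C τ n ≤ P * T16C τ n :=
        mul_le_mul_of_nonneg_right h2 (by linarith)
      linarith
    have h8 := Finset.sum_le_sum h5
    have h9 : ((2 ^ (n - nJ n) : ℕ) : ℝ) = P := by
      rw [hP]
      push_cast
      rfl
    have h8' : ∑ x ∈ range (2 ^ (n - nJ n)), ((1 + P * T16C τ n) +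
        ∑ κ ∈ range (dl n M a i).length, (Ed n M a (dd n M a i x κ) ((p + tt n M a) / 2) : ℝ)) =
        P * (1 + P * T16C τ n) + ∑ x ∈ range (2 ^ (n - nJ n)),
        ∑ κ ∈ range (dl n M a i).length, (Ed n M a (dd n M a i x κ) ((p + tt n M a) / 2) : ℝ) := by
      rw [Finset.sum_add_distrib, Finset.sum_const, Finset.card_range, nsmul_eq_mul, h9]
    rw [h8'] at h8
    have h10 : P * (1 + P * T16C τ n) ≤ 2 * (P * P * T16C τ n) := by
      have h11 : P * 1 ≤ P * (P * T16C τ n) := by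
        refine mul_le_mul_of_nonneg_left ?_ (by linarith)
        exact one_le_mul_of_one_le_of_one_le hP1 hC
      have h12 : P * (1 + P * T16C τ n) = P * 1 + P * (P * T16C τ n) := by ring
      have h13 : 2 * (P * P * T16C τ n) = P * (P * T16C τ n) + P * (P * T16C τ n) := by ring
      rw [h12, h13]
      linarith
    linarith
  refine (Finset.sum_le_sum h1).trans ?_
  rw [Finset.sum_add_distrib, Finset.sum_const, Finset.card_range, nsmul_eq_mul]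
  have h14 : ∑ i ∈ range (nS n M a), ∑ x ∈ range (2 ^ (n - nJ n)),
        ∑ κ ∈ range (dl n M a i).length, (Ed n M a (dd n M a i x κ) ((p + tt n M a) / 2) : ℝ) =
      (tE n M a p : ℝ) := by
    rw [T16_tE a hp]
    push_cast
    rfl
  rw [h14, T16_wT, hPP]
  have hE : (0 : ℝ) ≤ (tE n M a p : ℝ) := by exact_mod_cast tE_nonneg hn0 hM a p
  have hS : (0 : ℝ) ≤ nS n M a := Nat.cast_nonneg _
  have hQ : (0 : ℝ) ≤ P * P * T16C τ n := by positivity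
  have e1 : (0 : ℝ) ≤ nS n M a * wJ n := mul_nonneg hS (by linarith)
  have e2 : (0 : ℝ) ≤ nS n M a * (P * P * T16C τ n) := mul_nonneg hS hQ
  have e3 : (0 : ℝ) ≤ nS n M a * (tE n M a p : ℝ) := mul_nonneg hS hE
  have e4 : (3 * (nS n M a : ℝ) + 1) * (wJ n + P * P * T16C τ n + (tE n M a p : ℝ)) =
    3 * (nS n M a * wJ n) + 3 * (nS n M a * (P * P * T16C τ n)) + 3 * (nS n M a * (tE n M a p : ℝ)) +
      (wJ n + P * P * T16C τ n + (tE n M a p : ℝ)) := by ring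
  have e5 : (nS n M a : ℝ) * (wJ n + 2 * (P * P * T16C τ n)) =
    nS n M a * wJ n + 2 * (nS n M a * (P * P * T16C τ n)) := by ring
  rw [e4, e5]
  linarith

/-- The candidates for a shift and a region. -/
private def T16x (n : ℕ) (M : List ℤ) (a i x : ℕ) (g : ℤ) : List ℤ :=
  fm (dl n M a i).length fun κ => T3 n M a (dd n M a i x κ) g

private noncomputable def T16wx (τ : ℝ) (n : ℕ) (M : List ℤ) (a i x : ℕ) (g : ℤ) : ℝ :=
  1 + ∑ κ ∈ range (dl n M a i).length, w3 τ n M a (dd n M a i x κ) g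

/-- The candidates for a shift. -/
private def T16i (n : ℕ) (M : List ℤ) (a i : ℕ) (g : ℤ) : List ℤ :=
  fm (2 ^ (n - nJ n)) fun x => T16x n M a i x g

private noncomputable def T16wi (τ : ℝ) (n : ℕ) (M : List ℤ) (a i : ℕ) (g : ℤ) : ℝ :=
  wJ n + ∑ x ∈ range (2 ^ (n - nJ n)), T16wx τ n M a i x g

private theorem T16_Tp (n : ℕ) (M : List ℤ) (a : ℕ) (p : ℤ) : Tp n M a p =
    if (p + tt n M a) % 2 = 0 then fm (nS n M a) fun i => T16i n M a i ((p + tt n M a) / 2) else [] := rfl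

private theorem T16_wx_one {τ : ℝ} (hτ : 2 ≤ τ) {n : ℕ} (hn : 0 < n) {M : List ℤ}
    (hM : ∀ x ∈ M, |x| ≤ 1) (a i x : ℕ) (g : ℤ) : 1 ≤ T16wx τ n M a i x g := by
  have h : 0 ≤ ∑ κ ∈ range (dl n M a i).length, w3 τ n M a (dd n M a i x κ) g :=
    Finset.sum_nonneg fun κ _ => zero_le_one.trans (T16_w3_one hτ hn hM _ _ _)
  unfold T16wx
  linarith

private theorem T16_wi_J {τ : ℝ} (hτ : 2 ≤ τ) {n : ℕ} (hn : 0 < n) {M : List ℤ}
    (hM : ∀ x ∈ M, |x| ≤ 1) (a i : ℕ) (g : ℤ) : wJ n ≤ T16wi τ n M a i g := by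
  have h : 0 ≤ ∑ x ∈ range (2 ^ (n - nJ n)), T16wx τ n M a i x g :=
    Finset.sum_nonneg fun x _ => zero_le_one.trans (T16_wx_one hτ hn hM _ _ _ _)
  unfold T16wi
  linarith

private theorem T16_len_x {τ : ℝ} (hτ : 2 ≤ τ) {n : ℕ} (hn : 0 < n) {M : List ℤ}
    (hM : ∀ x ∈ M, |x| ≤ 1) (a i x : ℕ) (g : ℤ) :
    ((T16x n M a i x g).length : ℝ) ≤ (LL n + 1) * T16wx τ n M a i x g := by
  unfold T16x T16wx
  rw [length_fm]
  push_cast
  have h : ∑ κ ∈ range (dl n M a i).length, ((T3 n M a (dd n M a i x κ) g).length : ℝ) ≤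
      ∑ κ ∈ range (dl n M a i).length, ((LL n : ℝ) + 1) * w3 τ n M a (dd n M a i x κ) g :=
    Finset.sum_le_sum fun κ _ => length_T3 hτ hn hM a _ _
  rw [← Finset.mul_sum] at h
  have h4 : (0 : ℝ) ≤ LL n := Nat.cast_nonneg _
  rw [mul_add]
  linarith

private theorem T16_len_i {τ : ℝ} (hτ : 2 ≤ τ) {n : ℕ} (hn : 0 < n) {M : List ℤ}
    (hM : ∀ x ∈ M, |x| ≤ 1) (a i : ℕ) (g : ℤ) :
    ((T16i n M a i g).length : ℝ) ≤ (LL n + 1) * T16wi τ n M a i g := by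
  unfold T16i T16wi
  rw [length_fm]
  push_cast
  have h : ∑ x ∈ range (2 ^ (n - nJ n)), ((T16x n M a i x g).length : ℝ) ≤
      ∑ x ∈ range (2 ^ (n - nJ n)), ((LL n : ℝ) + 1) * T16wx τ n M a i x g :=
    Finset.sum_le_sum fun x _ => T16_len_x hτ hn hM a i x g
  rw [← Finset.mul_sum] at h
  have h4 : (0 : ℝ) ≤ LL n := Nat.cast_nonneg _
  have h5 : (0 : ℝ) ≤ ((LL n : ℝ) + 1) * wJ n := mul_nonneg (by linarith) (by linarith [one_le_wJ n])
  rw [mul_add]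
  linarith

variable {A : Type} {N : A → ℕ} {D : A → Prop} {Γ : List Ty} {ρ : A → Env Γ}
  {n : A → ℕ} {M : A → List ℤ} {a : A → ℕ}

/-- PROOF. `Cp.cat` with `c_T2`, `length_T2`, `sum_w2_le`. -/
theorem c_T3 (h : Rd N D ρ n M a) {d : A → ℕ} {g : A → ℤ} (hd : PN N D ρ d) (hg : PI N D ρ g)
    (h1 : ∀ q, D q → rk (laL (n q) (rg (n q) (a q)) (d q)) (n q) ≤ mB (n q))
    (h2 : ∀ q, D q → rk (rhL (n q) (rg (n q) (a q)) (d q)) (n q) ≤ mB (n q)) :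
    Cp N D ρ (fun τ q => w3 τ (n q) (M q) (a q) (d q) (g q)) .arr
      (fun q => T3 (n q) (M q) (a q) (d q) (g q)) := by
  have hn0 : ∀ q, D q → 0 < n q := fun q hq => lt_of_lt_of_le (by norm_num) (h.big q hq)
  have hb : BodyW N D ρ (fun q => LL (n q)) (fun τ p => w2 τ (n p.1) (M p.1) (a p.1) (d p.1)
      (lvv (n p.1) p.2) (g p.1 - lvv (n p.1) p.2)) .arr
      (fun q u => T2 (n q) (M q) (a q) (d q) (lvv (n q) u) (g q - lvv (n q) u)) := by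
    intro Γ1 ρ1 up hu
    have hR := h.up up
    have hl := c_lvv hR.hn hu
    exact c_T2 (n := fun p : A × ℕ => n p.1) (M := fun p : A × ℕ => M p.1)
      (a := fun p : A × ℕ => a p.1) (d := fun p : A × ℕ => d p.1)
      (u := fun p : A × ℕ => lvv (n p.1) p.2) (v := fun p : A × ℕ => g p.1 - lvv (n p.1) p.2)
      hR (up.n hd) hl (PI.sub (up.i hg) hl) (fun q hq => h1 q.1 hq.1) (fun q hq => h2 q.1 hq.1)
  have hlen : ∃ c : ℕ, ∀ q, D q → ∀ i < LL (n q), ∀ τ : ℝ, 2 ≤ τ →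
      ((T2 (n q) (M q) (a q) (d q) (lvv (n q) i) (g q - lvv (n q) i)).length : ℝ) ≤
        ((N q : ℝ) + 2) ^ c * w2 τ (n q) (M q) (a q) (d q) (lvv (n q) i) (g q - lvv (n q) i) := by
    refine ⟨0, fun q hq i _ τ hτ => ?_⟩
    rw [pow_zero, one_mul]
    exact length_T2 hτ (hn0 q hq) (h.one q hq) (a q) (d q) (lvv (n q) i) (g q - lvv (n q) i)
  have h3 : Cp N D ρ (fun τ q => 1 + ∑ u ∈ range (LL (n q)),
      w2 τ (n q) (M q) (a q) (d q) (lvv (n q) u) (g q - lvv (n q) u)) .arr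
      (fun q => T3 (n q) (M q) (a q) (d q) (g q)) := Cp.cat (c_LL h.hn) hb hlen
  obtain ⟨m, hm⟩ := (bd_LL h.bn).add (Bd.const 1)
  refine h3.mono_poly m fun q hq τ hτ =>
    ⟨T16_w3_one hτ (hn0 q hq) (h.one q hq) (a q) (d q) (g q), ?_⟩
  refine (sum_w2_le hτ (hn0 q hq) (h.one q hq) (a q) (d q) (g q)).trans ?_
  refine mul_le_mul_of_nonneg_right ?_
    (zero_le_one.trans (T16_w3_one hτ (hn0 q hq) (h.one q hq) _ _ _))
  have h5 : ((LL (n q) + 1 : ℕ) : ℝ) ≤ ((N q + 2 : ℕ) : ℝ) ^ m := by exact_mod_cast hm q hq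
  push_cast at h5
  exact h5

private theorem c_T16x (h : Rd N D ρ n M a) {i x : A → ℕ} {g : A → ℤ}
    (hd : PA N D ρ (fun q => dl (n q) (M q) (a q) (i q))) (hx : PN N D ρ x) (hg : PI N D ρ g) :
    Cp N D ρ (fun τ q => T16wx τ (n q) (M q) (a q) (i q) (x q) (g q)) .arr
      (fun q => T16x (n q) (M q) (a q) (i q) (x q) (g q)) := by
  have hn0 : ∀ q, D q → 0 < n q := fun q hq => lt_of_lt_of_le (by norm_num) (h.big q hq)
  have hb : BodyW N D ρ (fun q => (dl (n q) (M q) (a q) (i q)).length)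
      (fun τ p => w3 τ (n p.1) (M p.1) (a p.1) (dd (n p.1) (M p.1) (a p.1) (i p.1) (x p.1) p.2) (g p.1))
      .arr (fun q κ => T3 (n q) (M q) (a q) (dd (n q) (M q) (a q) (i q) (x q) κ) (g q)) := by
    intro Γ1 ρ1 up hκ
    have hR := h.up up
    have hdd : PN (NL N) (DL D _) ρ1 (fun p : A × ℕ => dd (n p.1) (M p.1) (a p.1) (i p.1) (x p.1) p.2) :=
      PN.add (PN.toNat (PI.get (up.a hd) hκ)) (PN.mul hR.pJ (up.n hx))
    exact c_T3 (n := fun p : A × ℕ => n p.1) (M := fun p : A × ℕ => M p.1)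
      (a := fun p : A × ℕ => a p.1)
      (d := fun p : A × ℕ => dd (n p.1) (M p.1) (a p.1) (i p.1) (x p.1) p.2)
      (g := fun p : A × ℕ => g p.1) hR hdd (up.i hg) (fun q hq => rk_la (x q.1) hq.2)
      (fun q hq => rk_rh (x q.1) hq.2)
  obtain ⟨m, hm⟩ := (bd_LL h.bn).add (Bd.const 1)
  have hlen : ∃ c : ℕ, ∀ q, D q → ∀ κ < (dl (n q) (M q) (a q) (i q)).length, ∀ τ : ℝ, 2 ≤ τ →
      ((T3 (n q) (M q) (a q) (dd (n q) (M q) (a q) (i q) (x q) κ) (g q)).length : ℝ) ≤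
        ((N q : ℝ) + 2) ^ c *
          w3 τ (n q) (M q) (a q) (dd (n q) (M q) (a q) (i q) (x q) κ) (g q) := by
    refine ⟨m, fun q hq κ _ τ hτ => ?_⟩
    refine (length_T3 hτ (hn0 q hq) (h.one q hq) (a q)
      (dd (n q) (M q) (a q) (i q) (x q) κ) (g q)).trans ?_
    refine mul_le_mul_of_nonneg_right ?_
      (zero_le_one.trans (T16_w3_one hτ (hn0 q hq) (h.one q hq) _ _ _))
    have h5 : ((LL (n q) + 1 : ℕ) : ℝ) ≤ ((N q + 2 : ℕ) : ℝ) ^ m := by exact_mod_cast hm q hq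
    push_cast at h5
    exact h5
  exact Cp.cat (PN.len hd) hb hlen

private theorem c_T16i (h : Rd N D ρ n M a) {i : A → ℕ} {g : A → ℤ} (hi : PN N D ρ i)
    (hg : PI N D ρ g) : Cp N D ρ (fun τ q => T16wi τ (n q) (M q) (a q) (i q) (g q)) .arr
      (fun q => T16i (n q) (M q) (a q) (i q) (g q)) := by
  have hn0 : ∀ q, D q → 0 < n q := fun q hq => lt_of_lt_of_le (by norm_num) (h.big q hq)
  refine Cp.store ((c_dl h hi).mono fun q hq τ hτ =>
    T16_wi_J hτ (hn0 q hq) (h.one q hq) _ _ _) fun Γ1 ρ1 k1 e1 => ?_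
  have hR := h.ke k1
  have hg1 := k1.i hg
  have hb : BodyW N D ρ1 (fun q => 2 ^ (n q - nJ (n q)))
      (fun τ p => T16wx τ (n p.1) (M p.1) (a p.1) (i p.1) p.2 (g p.1))
      .arr (fun q x => T16x (n q) (M q) (a q) (i q) x (g q)) := by
    intro Γ2 ρ2 up hx
    exact c_T16x (i := fun p : A × ℕ => i p.1) (x := fun p : A × ℕ => p.2) (g := fun p : A × ℕ => g p.1)
      (hR.up up) (up.a e1) hx (up.i hg1)
  obtain ⟨m, hm⟩ := (bd_LL h.bn).add (Bd.const 1)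
  have h3 := Cp.cat hR.p2 hb ⟨m, fun q hq x _ τ hτ => by
    refine (T16_len_x hτ (hn0 q hq) (h.one q hq) _ _ _ _).trans ?_
    refine mul_le_mul_of_nonneg_right ?_
      (zero_le_one.trans (T16_wx_one hτ (hn0 q hq) (h.one q hq) _ _ _ _))
    have h5 : ((LL (n q) + 1 : ℕ) : ℝ) ≤ ((N q + 2 : ℕ) : ℝ) ^ m := by exact_mod_cast hm q hq
    push_cast at h5
    exact h5⟩
  refine h3.mono fun q hq τ hτ => ?_
  show 1 + ∑ x ∈ range (2 ^ (n q - nJ (n q))), T16wx τ (n q) (M q) (a q) (i q) x (g q) ≤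
    T16wi τ (n q) (M q) (a q) (i q) (g q)
  unfold T16wi
  linarith [one_le_wJ (n q)]

/-- The candidates for a target: program and running time. PROOF. Store `tt`, `nS`; `Cp.iteA`; `Cp.cat` over `i`, in the pass store `dl … i` (`c_dl`), `Cp.cat` over `x`, over `κ`, `c_T3`
(with `rk_la`, `rk_rh`); `sum_w3_le`. -/
theorem c_Tp (h : Rd N D ρ n M a) {p : A → ℤ} (hp : PI N D ρ p) :
    Cp N D ρ (fun τ q => wT τ (n q) (M q) (a q) (p q)) .arr
      (fun q => Tp (n q) (M q) (a q) (p q)) := by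
  have hn0 : ∀ q, D q → 0 < n q := fun q hq => lt_of_lt_of_le (by norm_num) (h.big q hq)
  have hJT : ∀ q, D q → ∀ τ : ℝ, 2 ≤ τ → wJ (n q) ≤ wT τ (n q) (M q) (a q) (p q) := by
    intro q hq τ hτ
    have h2 := T16C_one hτ (n q)
    have h3 : (0 : ℝ) ≤ (tE (n q) (M q) (a q) (p q) : ℝ) := by
      exact_mod_cast tE_nonneg (hn0 q hq) (h.one q hq) _ _
    have h4 : (0 : ℝ) ≤ (2 : ℝ) ^ (2 * (n q - nJ (n q))) * T16C τ (n q) := by positivity
    rw [T16_wT]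
    linarith
  refine Cp.store ((c_tt h).mono hJT) fun Γ1 ρ1 k1 e1 => ?_
  have hR1 := h.ke k1
  have hp1 := k1.i hp
  refine Cp.store ((c_nS hR1).mono hJT) fun Γ2 ρ2 k2 e2 => ?_
  have hR2 := hR1.ke k2
  have hs := PI.add (k2.i hp1) (k2.i e1)
  have hg := PI.div hs (PI.const (N := N) (D := D) (ρ := ρ2) 2)
  have hD : ∀ q, (D q ∧ (p q + tt (n q) (M q) (a q)) % 2 = 0) → D q := fun q hq => hq.1
  have hR3 := hR2.dom hD
  have hb : BodyW N (fun q => D q ∧ (p q + tt (n q) (M q) (a q)) % 2 = 0) ρ2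
      (fun q => nS (n q) (M q) (a q))
      (fun τ r => T16wi τ (n r.1) (M r.1) (a r.1) r.2 ((p r.1 + tt (n r.1) (M r.1) (a r.1)) / 2))
      .arr (fun q i => T16i (n q) (M q) (a q) i ((p q + tt (n q) (M q) (a q)) / 2)) := by
    intro Γ3 ρ3 up hi
    exact c_T16i (i := fun r : A × ℕ => r.2)
      (g := fun r : A × ℕ => (p r.1 + tt (n r.1) (M r.1) (a r.1)) / 2) (hR3.up up) hi (up.i (hg.dom hD))
  obtain ⟨m, hm⟩ := (bd_LL h.bn).add (Bd.const 1)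
  have e2' : PN N D ρ2 (fun q => nS (n q) (M q) (a q)) := e2
  have h3 := Cp.cat (e2'.dom hD) hb ⟨m, fun q hq i _ τ hτ => by
    refine (T16_len_i hτ (hn0 q hq.1) (h.one q hq.1) _ _ _).trans ?_
    refine mul_le_mul_of_nonneg_right ?_
      ((zero_le_one.trans (one_le_wJ _)).trans (T16_wi_J hτ (hn0 q hq.1) (h.one q hq.1) _ _ _))
    have h5 : ((LL (n q) + 1 : ℕ) : ℝ) ≤ ((N q + 2 : ℕ) : ℝ) ^ m := by exact_mod_cast hm q hq.1
    push_cast at h5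
    exact h5⟩
  obtain ⟨c, hc⟩ := ((Bd.const 3).mul (bd_nS h)).add (Bd.const 2)
  have h4 : Cp N (fun q => D q ∧ (p q + tt (n q) (M q) (a q)) % 2 = 0) ρ2
      (fun τ q => wT τ (n q) (M q) (a q) (p q)) .arr
      (fun q => fm (nS (n q) (M q) (a q)) fun i =>
        T16i (n q) (M q) (a q) i ((p q + tt (n q) (M q) (a q)) / 2)) := by
    refine h3.mono_poly c fun q hq τ hτ =>
      ⟨one_le_wT hτ (hn0 q hq.1) (h.one q hq.1) _ _, ?_⟩
    have h5 := sum_w3_le hτ (h.big q hq.1) (h.one q hq.1) (a q) hq.2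
    have h6 := one_le_wT hτ (hn0 q hq.1) (h.one q hq.1) (a q) (p q)
    have h7 : ((3 * nS (n q) (M q) (a q) + 2 : ℕ) : ℝ) ≤ ((N q + 2 : ℕ) : ℝ) ^ c := by
      exact_mod_cast hc q hq.1
    push_cast at h7
    have h8 : (3 * (nS (n q) (M q) (a q) : ℝ) + 2) * wT τ (n q) (M q) (a q) (p q) ≤
        ((N q : ℝ) + 2) ^ c * wT τ (n q) (M q) (a q) (p q) :=
      mul_le_mul_of_nonneg_right h7 (by linarith)
    refine le_trans ?_ h8
    have h9 : 1 + ∑ i ∈ range (nS (n q) (M q) (a q)),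
        T16wi τ (n q) (M q) (a q) i ((p q + tt (n q) (M q) (a q)) / 2) ≤
        1 + (3 * (nS (n q) (M q) (a q) : ℝ) + 1) * wT τ (n q) (M q) (a q) (p q) := by
      have h10 : ∑ i ∈ range (nS (n q) (M q) (a q)),
        T16wi τ (n q) (M q) (a q) i ((p q + tt (n q) (M q) (a q)) / 2) ≤
        (3 * (nS (n q) (M q) (a q) : ℝ) + 1) * wT τ (n q) (M q) (a q) (p q) := h5
      linarith
    refine h9.trans ?_
    have h11 : (3 * (nS (n q) (M q) (a q) : ℝ) + 2) * wT τ (n q) (M q) (a q) (p q) =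
      (3 * (nS (n q) (M q) (a q) : ℝ) + 1) * wT τ (n q) (M q) (a q) (p q) +
        wT τ (n q) (M q) (a q) (p q) := by ring
    rw [h11]
    linarith
  have h5 := Cp.iteA (q := fun q => (p q + tt (n q) (M q) (a q)) % 2 = 0)
    (PB.eq (PI.mod hs (PI.const 2)) (PI.const 0)) h4
    ((PA.nil (N := N) (D := fun q => D q ∧ ¬ (p q + tt (n q) (M q) (a q)) % 2 = 0) (ρ := ρ2)).lift
      fun q hq τ hτ => one_le_wT hτ (hn0 q hq.1) (h.one q hq.1) (a q) (p q))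
  have h6 : Cp N D ρ2 (fun τ q => if (p q + tt (n q) (M q) (a q)) % 2 = 0 then
      wT τ (n q) (M q) (a q) (p q) else wT τ (n q) (M q) (a q) (p q)) .arr
      (fun q => Tp (n q) (M q) (a q) (p q)) := h5
  exact h6.mono fun q _ τ _ => by rw [ite_self]

/-- The length of the list. PROOF. As `sum_w3_le`, `length_T3`. -/
theorem length_Tp {τ : ℝ} (hτ : 2 ≤ τ) {n : ℕ} (hn : 10 ^ 16 ≤ n) {M : List ℤ}
    (hM : ∀ x ∈ M, |x| ≤ 1) (a : ℕ) (p : ℤ) : ((Tp n M a p).length : ℝ) ≤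
      (LL n + 1) * ((3 * nS n M a + 1) * wT τ n M a p) := by
  have hn0 : 0 < n := lt_of_lt_of_le (by norm_num) hn
  have h4 : (0 : ℝ) ≤ LL n := Nat.cast_nonneg _
  have h5 : (0 : ℝ) ≤ nS n M a := Nat.cast_nonneg _
  have h6 := one_le_wT hτ hn0 hM a p
  rw [T16_Tp]
  by_cases hp : (p + tt n M a) % 2 = 0
  · rw [if_pos hp, length_fm]
    push_cast
    have h7 : ∑ i ∈ range (nS n M a), ((T16i n M a i ((p + tt n M a) / 2)).length : ℝ) ≤
        ∑ i ∈ range (nS n M a), ((LL n : ℝ) + 1) * T16wi τ n M a i ((p + tt n M a) / 2) :=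
      Finset.sum_le_sum fun i _ => T16_len_i hτ hn0 hM a i _
    rw [← Finset.mul_sum] at h7
    exact h7.trans (mul_le_mul_of_nonneg_left (sum_w3_le hτ hn hM a hp) (by linarith))
  · rw [if_neg hp, List.length_nil, Nat.cast_zero]
    exact mul_nonneg (by linarith) (mul_nonneg (by linarith) (by linarith))

end Pool.Agent.MPa9445a.DB
end

section

/-! The candidates of a round: program and running time. -/

set_option autoImplicit false

open Finset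

namespace Pool.Agent.MPa9445a.DB

open Pool.Agent.MPa9445a.BE (Ty Env vs one Bd NL DL tb flt gt bit Phi vec code lin argmax matMul Bd.const
  Bd.add Bd.mul Bd.le Bd.up Bd.var Bd.self)
open Pool.Agent.MPa9445a.GD
open Pool.Agent.MPa9445a.GL (rk sv laL rhL lvv LL c_rk bd_rk c_sv c_laL c_rhL c_LL bd_LL c_lvv)

/-- The weight of a round. -/
noncomputable def wR (τ : ℝ) (n : ℕ) : ℝ := wJ n + BW.wB τ n +
  (2 : ℝ) ^ (2 * (n - nJ n)) * (wD τ n + ((2 ^ w0 n : ℕ) : ℝ) * wY τ n)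

theorem wR_aux {τ : ℝ} (hτ : 2 ≤ τ) (n : ℕ) :
    0 ≤ (2 : ℝ) ^ (2 * (n - nJ n)) * (wD τ n + ((2 ^ w0 n : ℕ) : ℝ) * wY τ n) := by
  have h1 := one_le_wD hτ n
  have h2 := one_le_wY hτ n
  positivity

theorem wJ_le_wR {τ : ℝ} (hτ : 2 ≤ τ) (n : ℕ) : wJ n ≤ wR τ n := by
  have h1 := BW.one_le_wB n hτ
  have h2 := wR_aux hτ n
  unfold wR
  linarith

theorem wB_le_wR {τ : ℝ} (hτ : 2 ≤ τ) (n : ℕ) : BW.wB τ n ≤ wR τ n := by
  have h1 := one_le_wJ n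
  have h2 := wR_aux hτ n
  unfold wR
  linarith

theorem one_le_wR {τ : ℝ} (hτ : 2 ≤ τ) (n : ℕ) : 1 ≤ wR τ n :=
  (one_le_wJ n).trans (wJ_le_wR hτ n)

theorem wE_le_wR {τ : ℝ} (hτ : 2 ≤ τ) (n : ℕ) : wE τ n ≤ wR τ n := by
  have h1 := BW.one_le_wB n hτ
  have h2 := one_le_wY hτ n
  have h3 : (0 : ℝ) ≤ (2 : ℝ) ^ (2 * (n - nJ n)) := by positivity
  have h4 : (0 : ℝ) ≤ ((2 ^ w0 n : ℕ) : ℝ) * wY τ n := by positivity
  have h5 := mul_nonneg h3 h4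
  unfold wR wE
  rw [mul_add]
  linarith

variable {A : Type} {N : A → ℕ} {D : A → Prop} {Γ : List Ty} {ρ : A → Env Γ}
  {n : A → ℕ} {M : A → List ℤ} {a : A → ℕ}

/-- The weight of a target which is not skipped. -/
theorem wT_bd (h : Rd N D ρ n M a) : ∃ m : ℕ, ∀ q, D q → ∀ p : ℤ,
    tE (n q) (M q) (a q) p ≤ thE (n q) (M q) (a q) → ∀ τ : ℝ, 2 ≤ τ →
      wT τ (n q) (M q) (a q) p ≤ ((N q : ℝ) + 2) ^ m * wR τ (n q) := by
  obtain ⟨m, hm⟩ := ((bd_LL h.bn).mul (bd_nS h)).mul ((bd_nJ h.bn).add (Bd.const 2))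
  refine ⟨m + 1, fun q hq p hp τ hτ => ?_⟩
  have h1 : (tE (n q) (M q) (a q) p : ℝ) ≤ (thE (n q) (M q) (a q) : ℝ) := by exact_mod_cast hp
  have h2 : (thE (n q) (M q) (a q) : ℝ) = wJ (n q) *
      ((LL (n q) * nS (n q) (M q) (a q) * (nJ (n q) + 2) : ℕ) : ℝ) := by
    unfold thE wJ nS
    push_cast
    ring
  have h3 : ((LL (n q) * nS (n q) (M q) (a q) * (nJ (n q) + 2) : ℕ) : ℝ) ≤ ((N q : ℝ) + 2) ^ m := by
    exact_mod_cast hm q hq
  have h4 := one_le_wJ (n q)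
  have h5 : (0 : ℝ) ≤ N q := Nat.cast_nonneg _
  have h6 : (1 : ℝ) ≤ ((N q : ℝ) + 2) ^ m := one_le_pow₀ (by linarith)
  have h7 := wJ_le_wR hτ (n q)
  have h8 := one_le_wR hτ (n q)
  have h9 : (thE (n q) (M q) (a q) : ℝ) ≤ ((N q : ℝ) + 2) ^ m * wR τ (n q) := by
    rw [h2, mul_comm]
    exact mul_le_mul h3 h7 (by linarith) (by linarith)
  have h10 : wJ (n q) + (2 : ℝ) ^ (2 * (n q - nJ (n q))) *
      (wD τ (n q) + ((2 ^ w0 (n q) : ℕ) : ℝ) * wY τ (n q)) ≤ wR τ (n q) := by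
    have := BW.one_le_wB (n q) hτ
    unfold wR
    linarith
  have h11 : wR τ (n q) ≤ ((N q : ℝ) + 2) ^ m * wR τ (n q) := by nlinarith
  unfold wT
  rw [pow_succ]
  have h12 : ((N q : ℝ) + 2) ^ m * ((N q : ℝ) + 2) * wR τ (n q) =
      ((N q : ℝ) + 2) * (((N q : ℝ) + 2) ^ m * wR τ (n q)) := by ring
  rw [h12]
  nlinarith

/-- The candidates for the target number `y`. -/
def Hy (n : ℕ) (M : List ℤ) (a y : ℕ) : List ℤ :=
  if m0 n M a < (n : ℤ) ^ 4 - y ∧ tE n M a ((n : ℤ) ^ 4 - y) ≤ thE n M a then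
    Tp n M a ((n : ℤ) ^ 4 - y) else []

theorem length_Hy (h : Rd N D ρ n M a) : ∃ m : ℕ, ∀ q, D q → ∀ y : ℕ, ∀ τ : ℝ, 2 ≤ τ →
    ((Hy (n q) (M q) (a q) y).length : ℝ) ≤ ((N q : ℝ) + 2) ^ m * wR τ (n q) := by
  obtain ⟨m1, hm1⟩ := ((bd_LL h.bn).add (Bd.const 1)).mul
    (((Bd.const 3).mul (bd_nS h)).add (Bd.const 1))
  obtain ⟨m2, hm2⟩ := wT_bd h
  refine ⟨m1 + m2, fun q hq y τ hτ => ?_⟩
  have h5 : (0 : ℝ) ≤ N q := Nat.cast_nonneg _
  have h8 := one_le_wR hτ (n q)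
  unfold Hy
  split_ifs with hc
  · refine (length_Tp hτ (h.big q hq) (h.one q hq) (a q) _).trans ?_
    have h1 := hm2 q hq _ hc.2 τ hτ
    have h2 : (((LL (n q) + 1) * (3 * nS (n q) (M q) (a q) + 1) : ℕ) : ℝ) ≤ ((N q : ℝ) + 2) ^ m1 := by
      exact_mod_cast hm1 q hq
    push_cast at h2
    rw [← mul_assoc, pow_add, mul_assoc (((N q : ℝ) + 2) ^ m1)]
    refine mul_le_mul h2 h1 ?_ (by positivity)
    have h9 := one_le_wT hτ (n := n q) (by have := h.big q hq; omega) (h.one q hq) (a q)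
      ((n q : ℤ) ^ 4 - y)
    linarith
  · simp only [List.length_nil, Nat.cast_zero]
    positivity

theorem c_cy (h : Rd N D ρ n M a) {l e : A → ℕ} (hl : PN N D ρ l) (he : PN N D ρ e)
    (h1 : PA N D ρ (fun q => yy (n q) (M q) (a q))) (h2 : PA N D ρ (fun q => cc (n q) (M q) (a q))) :
    PA N D ρ (fun q => cy (n q) (M q) (a q) (l q) (e q)) := by
  refine PA.tab h.hn h.bn fun Γ1 ρ1 up hv => ?_
  have hJ := c_nJ (up.n h.hn)
  have hc := PN.toNat (PI.get (up.a h2) (up.n hl))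
  have hy := PN.toNat (PI.sub (PI.get (up.a h1) hc) (PI.const 1))
  refine Cp.ite (PB.ltN hv hJ) ?_ ?_
  · exact PI.mul (PI.sub (PI.mul (PI.const 2) (PN.bit (up.n he) (PN.const 0) (Bd.const 0))) (PI.const 1))
      (PI.sub (PI.mul (PI.const 2) (PN.bit hy hv (Bd.var h.bn))) (PI.const 1))
  · exact PI.mul (PI.sub (PI.mul (PI.const 2) (PN.bit (up.n he) (PN.const 1) (Bd.const 1))) (PI.const 1))
      (PI.sub (PI.mul (PI.const 2) (PN.bit (up.n h.ha) (PN.sub hv hJ)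
        (Bd.le (Bd.var h.bn) fun _ _ => Nat.sub_le _ _))) (PI.const 1))

/-- The candidates in the balls. -/
def Bl (n : ℕ) (M : List ℤ) (a : ℕ) : List ℤ :=
  tb (n * 4) fun x => (BW.bw n M (cy n M a (x / 4) (x % 4)) : ℤ)

theorem c_Bl (h : Rd N D ρ n M a) :
    Cp N D ρ (fun τ q => wR τ (n q)) .arr (fun q => Bl (n q) (M q) (a q)) := by
  refine Cp.store ((c_yy h).mono fun q _ τ hτ => wJ_le_wR hτ (n q)) fun Γ1 ρ1 k1 e1 => ?_
  replace h := h.ke k1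
  refine Cp.store ((c_cc h).mono fun q _ τ hτ => wJ_le_wR hτ (n q)) fun Γ2 ρ2 k2 e2 => ?_
  replace h := h.ke k2
  replace e1 := k2.a e1
  have hb : Body N D ρ2 (fun q => n q * 4) (fun τ q => BW.wB τ (n q)) .int
      (fun q x => (BW.bw (n q) (M q) (cy (n q) (M q) (a q) (x / 4) (x % 4)) : ℤ)) := by
    intro Γ3 ρ3 up hv
    have g := h.up up
    exact BW.c_bw (n := fun q : A × ℕ => n q.1) (M := fun q : A × ℕ => M q.1)
      (y := fun q : A × ℕ => cy (n q.1) (M q.1) (a q.1) (q.2 / 4) (q.2 % 4)) g.hn g.bn g.hM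
      (c_cy (l := fun q : A × ℕ => q.2 / 4) (e := fun q : A × ℕ => q.2 % 4) g
        (PN.div hv (PN.const 4)) (PN.mod hv (PN.const 4)) (up.a e1) (up.a e2))
  have h1 := Cp.tab (PN.mul h.hn (PN.const 4)) (fun q _ τ hτ => BW.one_le_wB (n q) hτ) hb
  have h2 : Cp N D ρ2 (fun τ q => (((n q * 4 : ℕ) : ℝ) + 1) * BW.wB τ (n q)) .arr
      (fun q => Bl (n q) (M q) (a q)) := h1
  obtain ⟨m, hm⟩ := h.bn.mul (Bd.const 4)
  refine h2.mono_poly (m + 1) fun q hq τ hτ => ⟨one_le_wR hτ _, ?_⟩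
  have h3 : ((n q * 4 : ℕ) : ℝ) ≤ ((N q : ℝ) + 2) ^ m := by exact_mod_cast hm q hq
  refine (BW.W3_num (BW.one_le_wB (n q) hτ) h3).trans ?_
  exact mul_le_mul_of_nonneg_left (wB_le_wR hτ _) (by positivity)

theorem c_Hy (h : Rd N D ρ n M a)
    (hE : PA N D ρ (fun q => eT (n q) (M q) (a q) (nS (n q) (M q) (a q))))
    (hm : PI N D ρ (fun q => m0 (n q) (M q) (a q))) (ht : PI N D ρ (fun q => thE (n q) (M q) (a q)))
    {y : A → ℕ} (hy : PN N D ρ y) (hl : ∀ q, D q → y q < LL (n q)) :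
    Cp N D ρ (fun τ q => wR τ (n q)) .arr (fun q => Hy (n q) (M q) (a q) (y q)) := by
  refine Cp.store ((c_tG h hE hy).mono fun q _ τ hτ => wJ_le_wR hτ (n q)) fun Γ1 ρ1 k1 e1 => ?_
  have hp : PI N D ρ1 (fun q => (n q : ℤ) ^ 4 - (y q : ℤ)) :=
    PI.sub (PI.pow (k1.n h.hn) 4) (k1.n hy)
  have hq : PB N D ρ1 (fun q => m0 (n q) (M q) (a q) < (n q : ℤ) ^ 4 - (y q : ℤ) ∧
      tG (n q) (M q) (a q) (y q) ≤ thE (n q) (M q) (a q)) :=
    PB.and (PB.lt (k1.i hm) hp) (PB.le e1 (k1.i ht))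
  have hR := (h.ke k1).dom (D' := fun q => D q ∧ (m0 (n q) (M q) (a q) < (n q : ℤ) ^ 4 - (y q : ℤ) ∧
      tG (n q) (M q) (a q) (y q) ≤ thE (n q) (M q) (a q))) fun q hq => hq.1
  obtain ⟨m, hm1⟩ := wT_bd h
  have h1 : Cp N (fun q => D q ∧ (m0 (n q) (M q) (a q) < (n q : ℤ) ^ 4 - (y q : ℤ) ∧
      tG (n q) (M q) (a q) (y q) ≤ thE (n q) (M q) (a q))) ρ1 (fun τ q => wR τ (n q)) .arr
      (fun q => Tp (n q) (M q) (a q) ((n q : ℤ) ^ 4 - (y q : ℤ))) := by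
    refine (c_Tp hR (hp.dom fun q hq => hq.1)).mono_poly m fun q hq τ hτ =>
      ⟨one_le_wR hτ _, hm1 q hq.1 _ ?_ τ hτ⟩
    rw [tE_eq _ _ _ _ (hl q hq.1)]
    exact hq.2.2
  have h2 := Cp.iteA (v := fun τ q => wR τ (n q)) (g := fun _ => []) hq h1
    ((PA.nil.dom fun q _ => trivial).lift fun q _ τ hτ => one_le_wR hτ (n q))
  refine (h2.mono fun q _ τ hτ => ?_).congr fun q hq => ?_
  · split_ifs <;> exact le_rfl
  · unfold Hy
    rw [tE_eq _ _ _ _ (hl q hq)]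

theorem cdL_eq (n : ℕ) (M : List ℤ) (a : ℕ) : cdL n M a =
    ((bz n M a + 2 ^ nJ n * a : ℕ) : ℤ) :: (Bl n M a ++ fm (LL n) fun y => Hy n M a y) := rfl

theorem c_fH (h : Rd N D ρ n M a) : Cp N D ρ (fun τ q => wR τ (n q)) .arr
    (fun q => fm (LL (n q)) fun y => Hy (n q) (M q) (a q) y) := by
  refine Cp.store ((c_eT h).mono fun q _ τ hτ => wE_le_wR hτ (n q)) fun Γ1 ρ1 k1 e1 => ?_
  replace h := h.ke k1
  refine Cp.store ((c_m0 h).mono fun q _ τ hτ => wJ_le_wR hτ (n q)) fun Γ2 ρ2 k2 e2 => ?_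
  replace h := h.ke k2
  replace e1 := k2.a e1
  refine Cp.store ((c_thE h).mono fun q _ τ hτ => wJ_le_wR hτ (n q)) fun Γ3 ρ3 k3 e3 => ?_
  replace h := h.ke k3
  replace e1 := k3.a e1
  replace e2 := k3.i e2
  have hb : BodyW N D ρ3 (fun q => LL (n q)) (fun τ q => wR τ (n q.1)) .arr
      (fun q y => Hy (n q) (M q) (a q) y) := fun Γ4 ρ4 up hv =>
    c_Hy (y := fun q : A × ℕ => q.2) (h.up up) (up.a e1) (up.i e2) (up.i e3) hv fun q hq => hq.2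
  obtain ⟨m, hm⟩ := length_Hy h
  have h1 := Cp.cat (c_LL h.hn) hb ⟨m, fun q hq i _ τ hτ => hm q hq i τ hτ⟩
  obtain ⟨m', hm'⟩ := bd_LL h.bn
  refine h1.mono_poly (m' + 1) fun q hq τ hτ => ⟨one_le_wR hτ _, ?_⟩
  show 1 + ∑ _i ∈ range (LL (n q)), wR τ (n q) ≤ _
  rw [Finset.sum_const, Finset.card_range, nsmul_eq_mul]
  have h2 : ((LL (n q) : ℕ) : ℝ) ≤ ((N q : ℝ) + 2) ^ m' := by exact_mod_cast hm' q hq
  refine le_trans ?_ (BW.W3_num (one_le_wR hτ (n q)) h2)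
  have := one_le_wR hτ (n q)
  linarith

theorem length_fH (h : Rd N D ρ n M a) : ∃ m : ℕ, ∀ q, D q → ∀ τ : ℝ, 2 ≤ τ →
    ((fm (LL (n q)) fun y => Hy (n q) (M q) (a q) y).length : ℝ) ≤
      ((N q : ℝ) + 2) ^ m * wR τ (n q) := by
  obtain ⟨m, hm⟩ := length_Hy h
  obtain ⟨m', hm'⟩ := bd_LL h.bn
  refine ⟨m' + m, fun q hq τ hτ => ?_⟩
  rw [length_fm]
  push_cast
  have h2 : ((LL (n q) : ℕ) : ℝ) ≤ ((N q : ℝ) + 2) ^ m' := by exact_mod_cast hm' q hq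
  have h8 := one_le_wR hτ (n q)
  calc ∑ y ∈ range (LL (n q)), ((Hy (n q) (M q) (a q) y).length : ℝ)
      ≤ ∑ _y ∈ range (LL (n q)), ((N q : ℝ) + 2) ^ m * wR τ (n q) :=
        Finset.sum_le_sum fun y _ => hm q hq y τ hτ
    _ = (LL (n q) : ℝ) * (((N q : ℝ) + 2) ^ m * wR τ (n q)) := by
        rw [Finset.sum_const, Finset.card_range, nsmul_eq_mul]
    _ ≤ ((N q : ℝ) + 2) ^ m' * (((N q : ℝ) + 2) ^ m * wR τ (n q)) :=
        mul_le_mul_of_nonneg_right h2 (by positivity)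
    _ = _ := by rw [pow_add, mul_assoc]

theorem length_Bl (h : Rd N D ρ n M a) : ∃ m : ℕ, ∀ q, D q → ∀ τ : ℝ, 2 ≤ τ →
    ((Bl (n q) (M q) (a q)).length : ℝ) ≤ ((N q : ℝ) + 2) ^ m * wR τ (n q) := by
  obtain ⟨m, hm⟩ := h.bn.mul (Bd.const 4)
  refine ⟨m, fun q hq τ hτ => ?_⟩
  unfold Bl
  rw [BE.length_tb]
  have h3 : ((n q * 4 : ℕ) : ℝ) ≤ ((N q : ℝ) + 2) ^ m := by exact_mod_cast hm q hq
  have h8 := one_le_wR hτ (n q)
  have h9 : (0 : ℝ) ≤ ((N q : ℝ) + 2) ^ m := by positivity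
  nlinarith

theorem length_app2 (h : Rd N D ρ n M a) : ∃ m : ℕ, ∀ q, D q → ∀ τ : ℝ, 2 ≤ τ →
    ((Bl (n q) (M q) (a q)).length : ℝ) +
      ((fm (LL (n q)) fun y => Hy (n q) (M q) (a q) y).length : ℝ) ≤
      ((N q : ℝ) + 2) ^ m * wR τ (n q) := by
  obtain ⟨m, hm⟩ := length_Bl h
  obtain ⟨m', hm'⟩ := length_fH h
  refine ⟨m + m' + 1, fun q hq τ hτ => ?_⟩
  have h1 := hm q hq τ hτ
  have h2 := hm' q hq τ hτ
  have h5 : (0 : ℝ) ≤ N q := Nat.cast_nonneg _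
  have h8 := one_le_wR hτ (n q)
  have h3 : ((N q : ℝ) + 2) ^ m ≤ ((N q : ℝ) + 2) ^ (m + m') :=
    pow_le_pow_right₀ (by linarith) (by omega)
  have h4 : ((N q : ℝ) + 2) ^ m' ≤ ((N q : ℝ) + 2) ^ (m + m') :=
    pow_le_pow_right₀ (by linarith) (by omega)
  have h6 := mul_le_mul_of_nonneg_right h3 (zero_le_one.trans h8)
  have h7 := mul_le_mul_of_nonneg_right h4 (zero_le_one.trans h8)
  have h9 : (0 : ℝ) ≤ ((N q : ℝ) + 2) ^ (m + m') * wR τ (n q) := by positivity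
  rw [pow_succ]
  have h10 : ((N q : ℝ) + 2) ^ (m + m') * ((N q : ℝ) + 2) * wR τ (n q) =
      ((N q : ℝ) + 2) * (((N q : ℝ) + 2) ^ (m + m') * wR τ (n q)) := by ring
  rw [h10]
  nlinarith

theorem length_cdL (h : Rd N D ρ n M a) : ∃ m : ℕ, ∀ q, D q → ∀ τ : ℝ, 2 ≤ τ →
    ((cdL (n q) (M q) (a q)).length : ℝ) + 1 ≤ ((N q : ℝ) + 2) ^ m * wR τ (n q) := by
  obtain ⟨m, hm⟩ := length_app2 h
  refine ⟨m + 2, fun q hq τ hτ => ?_⟩
  have h1 := hm q hq τ hτ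
  have h5 : (0 : ℝ) ≤ N q := Nat.cast_nonneg _
  have h8 := one_le_wR hτ (n q)
  have h6 : (1 : ℝ) ≤ ((N q : ℝ) + 2) ^ m := one_le_pow₀ (by linarith)
  rw [cdL_eq, List.length_cons, List.length_append]
  push_cast
  rw [pow_add]
  have h9 : (1 : ℝ) ≤ ((N q : ℝ) + 2) ^ m * wR τ (n q) := by nlinarith
  have h10 : ((N q : ℝ) + 2) ^ m * ((N q : ℝ) + 2) ^ 2 * wR τ (n q) =
      ((N q : ℝ) + 2) ^ 2 * (((N q : ℝ) + 2) ^ m * wR τ (n q)) := by ring
  rw [h10]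
  have h11 : (4 : ℝ) ≤ ((N q : ℝ) + 2) ^ 2 := by nlinarith
  nlinarith

/-- The candidates of a round: program and running time. -/
theorem c_cdL (h : Rd N D ρ n M a) :
    Cp N D ρ (fun τ q => wR τ (n q)) .arr (fun q => cdL (n q) (M q) (a q)) := by
  simp only [cdL_eq]
  refine Cp.store ((c_bz h).mono fun q _ τ hτ => wJ_le_wR hτ (n q)) fun Γ1 ρ1 k1 e1 => ?_
  replace h := h.ke k1
  have h1 := Cp.app (c_Bl h) (c_fH h) (length_app2 h)
  refine Cp.cons (PN.add e1 (PN.mul h.pJ h.ha)) h1 ?_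
  obtain ⟨m, hm⟩ := length_app2 h
  refine ⟨m, fun q hq τ hτ => ?_⟩
  rw [List.length_append]
  push_cast
  exact hm q hq τ hτ

/-- The number of the best candidate. -/
def ib (n : ℕ) (M : List ℤ) (a : ℕ) : ℕ := argmax (cdL n M a).length fun i =>
  Phi n M (vec n (gt (cdL n M a) i.toNat).toNat)

/-- The best candidate of a round: program and running time. -/
theorem c_cb (h : Rd N D ρ n M a) :
    Cp N D ρ (fun τ q => wR τ (n q)) .int (fun q => (cb (n q) (M q) (a q) : ℤ)) := by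
  refine Cp.store (c_cdL h) fun Γ1 ρ1 k1 e1 => ?_
  replace h := h.ke k1
  have hb : Body N D ρ1 (fun q => (cdL (n q) (M q) (a q)).length) one .int
      (fun q i => Phi (n q) (M q) (vec (n q) (gt (cdL (n q) (M q) (a q)) i).toNat)) := by
    intro Γ2 ρ2 up hv
    exact PI.Phi (up.n h.hn) (h.bn.up _) (up.a h.hM)
      (PA.vec (up.n h.hn) (h.bn.up _) (PN.toNat (PI.get (up.a e1) hv)))
  have h1 := Cp.amax (PN.len e1) (fun _ _ _ _ => le_refl _) hb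
  have h2 : Cp N D ρ1 (fun τ q => (((cdL (n q) (M q) (a q)).length : ℝ) + 1) * one τ q) .int
      (fun q => (ib (n q) (M q) (a q) : ℤ)) := h1
  obtain ⟨m, hm⟩ := length_cdL h
  have h3 : Cp N D ρ1 (fun τ q => wR τ (n q)) .int (fun q => (ib (n q) (M q) (a q) : ℤ)) := by
    refine h2.mono_poly m fun q hq τ hτ => ⟨one_le_wR hτ _, ?_⟩
    simp only [one, mul_one]
    exact hm q hq τ hτ
  refine Cp.store h3 fun Γ2 ρ2 k2 e2 => ?_
  have h4 : PN N D ρ2 (fun q => cb (n q) (M q) (a q)) := PN.toNat (PI.get (k2.a e1) e2)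
  exact h4.lift fun q _ τ hτ => one_le_wR hτ (n q)

end Pool.Agent.MPa9445a.DB
end

section

/-! The whole program and its running time. -/

set_option autoImplicit false

open Finset

namespace Pool.Agent.MPa9445a.DB

open Pool.Agent.MPa9445a.BE (Ty Env vs one Bd NL DL tb flt gt bit Phi vec code lin argmax matMul Bd.const
  Bd.add Bd.mul Bd.le Bd.up Bd.var Bd.self asz sz Bd.size)
open Pool.Agent.MPa9445a.GD
open Pool.Agent.MPa9445a.GL (rk sv laL rhL lvv LL c_rk bd_rk c_sv c_laL c_rhL c_LL bd_LL c_lvv)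

/-- The regions before the pass `j`. -/
def rl (n : ℕ) (M : List ℤ) (j : ℕ) : List ℤ := tb (j + 1) fun i => (ra n M i : ℤ)

theorem gt_rl (n : ℕ) (M : List ℤ) {j i : ℕ} (h : i ≤ j) : gt (rl n M j) i = ra n M i :=
  BE.fv_tb (j + 1) (fun i => (ra n M i : ℤ)) ⟨i, by omega⟩

theorem gt_rl' (n : ℕ) (M : List ℤ) {j i : ℕ} (h : i ≤ j) : (gt (rl n M j) i).toNat = ra n M i := by
  rw [gt_rl n M h, Int.toNat_natCast]

theorem rl_succ (n : ℕ) (M : List ℤ) (j : ℕ) :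
    rl n M (j + 1) = rl n M j ++ [(a1 n M (gt (rl n M j) j).toNat : ℤ)] := by
  rw [gt_rl' n M le_rfl]
  unfold rl tb
  rw [List.range_succ, List.map_append]
  rfl

theorem ra_lt (n : ℕ) (M : List ℤ) (j : ℕ) : ra n M j < 2 ^ n := by
  cases j with
  | zero => exact Nat.two_pow_pos n
  | succ j => exact (xr_lt _ _ _).trans_le (Nat.pow_le_pow_right (by norm_num) (Nat.sub_le _ _))

theorem length_rl (n : ℕ) (M : List ℤ) (j : ℕ) : (rl n M j).length = j + 1 := by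
  unfold rl
  rw [BE.length_tb]

theorem vs_rl (n : ℕ) (M : List ℤ) (j : ℕ) : vs (t := .arr) (rl n M j) ≤ n + (j + 1) := by
  have h1 : asz (rl n M j) ≤ n := asz_le fun x hx => by
    unfold rl tb at hx
    obtain ⟨i, _, rfl⟩ := List.mem_map.1 hx
    unfold BE.sz
    rw [Int.natAbs_natCast, Nat.size_le]
    exact ra_lt n M i
  have h2 : Nat.size (rl n M j).length ≤ j + 1 := by
    rw [length_rl, Nat.size_le]
    exact Nat.lt_two_pow_self
  show asz (rl n M j) + Nat.size (rl n M j).length ≤ n + (j + 1)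
  omega

section

variable {A : Type} {N : A → ℕ} {D : A → Prop} {Γ : List Ty} {ρ : A → Env Γ}
  {n : A → ℕ} {M : A → List ℤ}

theorem c_rl (hn : PN N D ρ n) (bn : Bd N D n) (hM : PA N D ρ M) (big : ∀ q, D q → 10 ^ 16 ≤ n q)
    (one' : ∀ q, D q → ∀ x ∈ M q, |x| ≤ 1) :
    Cp N D ρ (fun τ q => wR τ (n q)) .arr (fun q => rl (n q) (M q) (LL (n q))) := by
  have h0 : Cp N D ρ one .arr (fun q => rl (n q) (M q) 0) :=
    (PA.one (PI.const 0)).congr fun q _ => rfl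
  obtain ⟨m, hm⟩ := bn.add (bd_LL bn)
  have h1 := Cp.iter (w := fun τ q => wE τ (n q.1)) (s := fun q j => rl (n q) (M q) j)
    (c_LL hn) h0 ⟨m, fun q hq j hj => by
      have h2 := vs_rl (n q) (M q) j
      have h3 : n q + LL (n q) ≤ (N q + 2) ^ m := hm q hq
      exact h2.trans (le_trans (by omega) h3)⟩ fun Γ1 ρ1 up hv hs => by
    have hR : Rd (NL N) (DL D fun q => LL (n q)) ρ1 (fun q => n q.1) (fun q => M q.1)
        (fun q => (gt (rl (n q.1) (M q.1) q.2) q.2).toNat) :=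
      ⟨up.n hn, bn.up _, up.a hM, PN.toNat (PI.get hs hv), fun q hq => big q.1 hq.1,
        fun q hq => one' q.1 hq.1⟩
    refine Cp.store (c_a1 hR) fun Γ2 ρ2 k2 e2 => ?_
    have h4 : PA (NL N) (DL D fun q => LL (n q)) ρ2
        (fun q => [(a1 (n q.1) (M q.1) (gt (rl (n q.1) (M q.1) q.2) q.2).toNat : ℤ)]) := PA.one e2
    obtain ⟨c, hc⟩ := (bd_LL bn).add (Bd.const 1)
    have h5 := Cp.app ((k2.a hs).lift fun q _ τ hτ => one_le_wE hτ (n q.1))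
      (h4.lift fun q _ τ hτ => one_le_wE hτ (n q.1)) ⟨c, fun q hq τ hτ => by
        rw [length_rl, List.length_singleton]
        have h6 : LL (n q.1) + 1 ≤ (N q.1 + 2) ^ c := hc q.1 hq.1
        have h7 : q.2 < LL (n q.1) := hq.2
        have h8 : ((q.2 + 1 + 1 : ℕ) : ℝ) ≤ ((NL N q + 2 : ℕ) : ℝ) ^ c := by
          have : q.2 + 1 + 1 ≤ (NL N q + 2) ^ c := le_trans (by omega) h6
          exact_mod_cast this
        have h9 := one_le_wE hτ (n q.1)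
        have h10 : (0 : ℝ) ≤ ((NL N q + 2 : ℕ) : ℝ) ^ c := by positivity
        push_cast at h8 h10 ⊢
        nlinarith⟩
    exact h5.congr fun q _ => (rl_succ _ _ _).symm
  obtain ⟨m', hm'⟩ := bd_LL bn
  refine h1.mono_poly (m' + 1) fun q hq τ hτ => ⟨one_le_wR hτ _, ?_⟩
  show (1 : ℝ) + ∑ _j ∈ range (LL (n q)), wE τ (n q) ≤ _
  rw [Finset.sum_const, Finset.card_range, nsmul_eq_mul]
  have h2 : ((LL (n q) : ℕ) : ℝ) ≤ ((N q : ℝ) + 2) ^ m' := by exact_mod_cast hm' q hq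
  refine le_trans ?_ (BW.W3_num (one_le_wR hτ (n q)) h2)
  have h3 := one_le_wR hτ (n q)
  have h4 := mul_le_mul_of_nonneg_left (wE_le_wR hτ (n q)) (Nat.cast_nonneg (α := ℝ) (LL (n q)))
  linarith

/-- The number of the best round. -/
def kb (n : ℕ) (M : List ℤ) : ℕ :=
  argmax (LL n + 1) fun k => Phi n M (vec n (cb n M (gt (rl n M (LL n)) k.toNat).toNat))

theorem kb_eq (n : ℕ) (M : List ℤ) :
    kb n M = argmax (LL n + 1) fun k => Phi n M (vec n (cb n M (ra n M k.toNat))) := by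
  refine argmax_congr fun i hi => ?_
  rw [Int.toNat_natCast, gt_rl' n M (by omega)]

theorem kb_lt (n : ℕ) (M : List ℤ) : kb n M < LL n + 1 :=
  (BE.argmax_spec (k := LL n + 1) (Nat.succ_pos _) _).1

theorem tc_eq {n₀ n : ℕ} {M : List ℤ} (h : ¬ n < n₀) :
    tc n₀ n M = cb n M (gt (rl n M (LL n)) (kb n M)).toNat := by
  unfold tc
  rw [if_neg h, ← kb_eq, gt_rl' n M (by have := kb_lt n M; omega)]

theorem c_kb (hn : PN N D ρ n) (bn : Bd N D n) (hM : PA N D ρ M) (big : ∀ q, D q → 10 ^ 16 ≤ n q)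
    (one' : ∀ q, D q → ∀ x ∈ M q, |x| ≤ 1) (hr : PA N D ρ (fun q => rl (n q) (M q) (LL (n q)))) :
    Cp N D ρ (fun τ q => wR τ (n q)) .int (fun q => (kb (n q) (M q) : ℤ)) := by
  have hb : Body N D ρ (fun q => LL (n q) + 1) (fun τ q => wR τ (n q)) .int (fun q k =>
      Phi (n q) (M q) (vec (n q) (cb (n q) (M q) (gt (rl (n q) (M q) (LL (n q))) k).toNat))) := by
    intro Γ1 ρ1 up hv
    have hR : Rd (NL N) (DL D fun q => LL (n q) + 1) ρ1 (fun q => n q.1) (fun q => M q.1)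
        (fun q => (gt (rl (n q.1) (M q.1) (LL (n q.1))) q.2).toNat) :=
      ⟨up.n hn, bn.up _, up.a hM, PN.toNat (PI.get (up.a hr) hv), fun q hq => big q.1 hq.1,
        fun q hq => one' q.1 hq.1⟩
    refine Cp.store (c_cb hR) fun Γ2 ρ2 k2 e2 => ?_
    have g := hR.ke k2
    have h1 : PI (NL N) (DL D fun q => LL (n q) + 1) ρ2 (fun q => Phi (n q.1) (M q.1) (vec (n q.1)
        (cb (n q.1) (M q.1) (gt (rl (n q.1) (M q.1) (LL (n q.1))) q.2).toNat))) :=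
      PI.Phi g.hn g.bn g.hM (PA.vec g.hn g.bn e2)
    exact h1.lift fun q _ τ hτ => one_le_wR hτ (n q.1)
  have h1 := Cp.amax (PN.add (c_LL hn) (PN.const 1)) (fun q _ τ hτ => one_le_wR hτ (n q)) hb
  have h2 : Cp N D ρ (fun τ q => (((LL (n q) + 1 : ℕ) : ℝ) + 1) * wR τ (n q)) .int
      (fun q => (kb (n q) (M q) : ℤ)) := h1
  obtain ⟨m, hm⟩ := (bd_LL bn).add (Bd.const 1)
  refine h2.mono_poly (m + 1) fun q hq τ hτ => ⟨one_le_wR hτ _, ?_⟩
  exact BW.W3_num (one_le_wR hτ (n q)) (by exact_mod_cast hm q hq)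

/-- The best vector for large `n`. -/
theorem c_tcB {n₀ : ℕ} (h₀ : 10 ^ 16 ≤ n₀) (hn : PN N D ρ n) (bn : Bd N D n) (hM : PA N D ρ M)
    (big : ∀ q, D q → ¬ n q < n₀) (one' : ∀ q, D q → ∀ x ∈ M q, |x| ≤ 1) :
    Cp N D ρ (fun τ q => wR τ (n q)) .int (fun q => (tc n₀ (n q) (M q) : ℤ)) := by
  have big' : ∀ q, D q → 10 ^ 16 ≤ n q := fun q hq => h₀.trans (Nat.not_lt.1 (big q hq))
  refine Cp.congr (f := fun q => (cb (n q) (M q) (gt (rl (n q) (M q) (LL (n q)))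
    (kb (n q) (M q))).toNat : ℤ)) ?_ fun q hq => by rw [tc_eq (big q hq)]
  refine Cp.store (c_rl hn bn hM big' one') fun Γ1 ρ1 k1 e1 => ?_
  replace hn := k1.n hn
  replace hM := k1.a hM
  refine Cp.store (c_kb hn bn hM big' one' e1) fun Γ2 ρ2 k2 e2 => ?_
  exact c_cb (a := fun q => (gt (rl (n q) (M q) (LL (n q))) (kb (n q) (M q))).toNat)
    ⟨k2.n hn, bn, k2.a hM, PN.toNat (PI.get (k2.a e1) e2), big', one'⟩

/-- The weight of the program. -/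
noncomputable def wP (n₀ : ℕ) (τ : ℝ) (n : ℕ) : ℝ := if n < n₀ then 2 ^ n else wR τ n

theorem one_le_wP {τ : ℝ} (hτ : 2 ≤ τ) (n₀ n : ℕ) : 1 ≤ wP n₀ τ n := by
  unfold wP
  split_ifs
  · exact one_le_pow₀ (by norm_num)
  · exact one_le_wR hτ n

theorem c_tc {n₀ : ℕ} (h₀ : 10 ^ 16 ≤ n₀) (hn : PN N D ρ n) (bn : Bd N D n) (hM : PA N D ρ M)
    (one' : ∀ q, D q → ∀ x ∈ M q, |x| ≤ 1) :
    Cp N D ρ (fun τ q => wP n₀ τ (n q)) .int (fun q => (tc n₀ (n q) (M q) : ℤ)) := by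
  have hb : Body N D ρ (fun q => 2 ^ n q) one .int
      (fun q c => Phi (n q) (M q) (vec (n q) c)) := by
    intro Γ1 ρ1 up hv
    exact PI.Phi (up.n hn) (bn.up _) (up.a hM) (PA.vec (up.n hn) (bn.up _) hv)
  have h1 := Cp.amax (PN.pow2 hn bn) (fun _ _ _ _ => le_refl _) hb
  have h2 := Cp.iteD (w := fun τ q => wP n₀ τ (n q)) (q := fun q => n q < n₀)
    (f := fun q => (argmax (2 ^ n q) (fun c => Phi (n q) (M q) (vec (n q) c.toNat)) : ℤ))
    (g := fun q => (tc n₀ (n q) (M q) : ℤ)) (PB.ltN hn (PN.const n₀))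
    ((h1.dom fun q hq => hq.1).mono_poly 1 fun q hq τ hτ => ⟨one_le_wP hτ _ _, by
      have h3 : (((2 ^ n q : ℕ) : ℝ) + 1) * one τ q ≤ ((N q : ℝ) + 2) ^ 1 * 2 ^ n q := by
        have h4 : (0 : ℝ) ≤ N q := Nat.cast_nonneg _
        have h5 : (1 : ℝ) ≤ 2 ^ n q := one_le_pow₀ (by norm_num)
        simp only [one, mul_one, pow_one]
        push_cast
        nlinarith
      have h6 : wP n₀ τ (n q) = 2 ^ n q := by
        unfold wP
        rw [if_pos hq.2]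
      rw [h6]
      exact h3⟩)
    ((c_tcB h₀ (hn.dom fun q hq => hq.1) (by obtain ⟨c, hc⟩ := bn; exact ⟨c, fun q hq => hc q hq.1⟩)
      (hM.dom fun q hq => hq.1) (fun q hq => hq.2) fun q hq => one' q hq.1).mono fun q hq τ hτ => by
      have h6 : wP n₀ τ (n q) = wR τ (n q) := by
        unfold wP
        rw [if_neg hq.2]
      exact h6.ge)
  refine h2.congr fun q _ => ?_
  by_cases hq : n q < n₀
  · rw [if_pos hq]
    unfold tc
    rw [if_pos hq]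
  · rw [if_neg hq]

theorem c_out {n₀ : ℕ} (h₀ : 10 ^ 16 ≤ n₀) (hn : PN N D ρ n) (bn : Bd N D n) (hM : PA N D ρ M)
    (one' : ∀ q, D q → ∀ x ∈ M q, |x| ≤ 1) :
    Cp N D ρ (fun τ q => wP n₀ τ (n q)) .arr (fun q => out n₀ (n q) (M q)) := by
  refine Cp.store (c_tc h₀ hn bn hM one') fun Γ1 ρ1 k1 e1 => ?_
  have h1 : PA N D ρ1 (fun q => out n₀ (n q) (M q)) :=
    PA.tab (k1.n hn) bn fun Γ2 ρ2 up hv => PN.bit (up.n e1) hv (Bd.var bn)
  exact h1.lift fun q _ τ hτ => one_le_wP hτ _ _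

end

/-- The inputs. -/
abbrev Gj : Type := ℕ × List ℤ

/-- The variables. -/
def envj (a : Gj) : Env [.int, .arr] := ((a.1 : ℤ), a.2, ())

/-- The inputs of the program. -/
def Dg (a : Gj) : Prop := a.2.length ≤ a.1 * a.1 ∧ ∀ x ∈ a.2, |x| ≤ 1

theorem start_vs (l : List ℤ) (h : ∀ x ∈ l, |x| ≤ 1) : vs (t := .arr) l ≤ l.length + 1 := by
  have h1 : asz l ≤ 1 := asz_le fun x hx => by
    have h2 := abs_le.mp (h x hx)
    unfold BE.sz
    rw [Nat.size_le]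
    omega
  have h2 : Nat.size l.length ≤ l.length := by
    rw [Nat.size_le]
    exact Nat.lt_two_pow_self
  show asz l + Nat.size l.length ≤ l.length + 1
  omega

theorem start : PN Prod.fst Dg envj Prod.fst ∧ PA Prod.fst Dg envj (fun a => a.2) := by
  have hn : Bd (Prod.fst : Gj → ℕ) Dg Prod.fst := Bd.self
  refine ⟨Cp.top (t := .int) (f := fun b : Gj => (b.1 : ℤ)) hn.size, ?_⟩
  refine Cp.wk (s := .int) (g := fun b : Gj => (b.1 : ℤ)) ?_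
  obtain ⟨m, hm⟩ := (hn.mul hn).add (Bd.const 1)
  exact Cp.top (t := .arr) (f := fun b : Gj => b.2) ⟨m, fun a ha =>
    (start_vs _ ha.2).trans ((Nat.add_le_add_right ha.1 1).trans (hm a ha))⟩

/-- The program. -/
theorem main_T {n₀ : ℕ} (h₀ : 10 ^ 16 ≤ n₀) : ∃ (e : GD.Ex [.int, .arr] .arr) (d : ℕ),
    ∀ (n : ℕ) (M : List ℤ), M.length ≤ n * n → (∀ x ∈ M, |x| ≤ 1) →
      e.eval ((n : ℤ), M, ()) = out n₀ n M ∧ ∀ τ : ℝ, 2 ≤ τ →
        e.cost τ ((n : ℤ), M, ()) ≤ ((n : ℝ) + 2) ^ d * wP n₀ τ n := by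
  obtain ⟨hn, hM⟩ := start
  have bn : Bd (Prod.fst : Gj → ℕ) Dg Prod.fst := Bd.self
  obtain ⟨e, d, h⟩ := c_out h₀ hn bn hM fun a ha => ha.2
  exact ⟨e, d, fun n M h1 h2 => ⟨(h (n, M) ⟨h1, h2⟩).1, fun τ hτ => ((h (n, M) ⟨h1, h2⟩).2.2 τ hτ).2⟩⟩

end Pool.Agent.MPa9445a.DB
end
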