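import Pool.Agent.Lib.MP_a9445a_lc.Mg.G119

section

section

/-! The random sets are uniform and pairwise independent. -/

set_option autoImplicit false

open Finset

namespace Pool.Agent.MPa9445a.SN

variable {n : ℕ}

open scoped symmDiff in
/-- The shift of the constant terms by the indicator of `Z`. -/
private def R1_sh (Z : Finset (Fin n)) (ω : Fm n) : Fm n :=
  fun v j => if j = 0 then xor (ω v j) (decide (v ∈ Z)) else ω v j

private theorem R1_sh_sh (Z : Finset (Fin n)) (ω : Fm n) : R1_sh Z (R1_sh Z ω) = ω := by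
  funext v j
  unfold R1_sh
  by_cases h : j = 0
  · simp [h]
  · simp [h]

open scoped symmDiff in
private theorem R1_rs_sh (Z : Finset (Fin n)) (ω : Fm n) (i : ℕ) :
    rs (R1_sh Z ω) i = rs ω i ∆ Z := by
  ext v
  have e0 : R1_sh Z ω v 0 = xor (ω v 0) (decide (v ∈ Z)) := by simp [R1_sh]
  have e1 : ∀ j : Fin (kb n), R1_sh Z ω v j.succ = ω v j.succ := by
    intro j
    simp [R1_sh, Fin.succ_ne_zero]
  simp only [rs, Finset.mem_symmDiff, mem_filter, mem_univ, true_and, e0, e1]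
  generalize (∑ j : Fin (kb n), (ω v j.succ).toNat * Pool.Agent.MPa9445a.BE.bit i j) = s
  by_cases hz : v ∈ Z
  · simp only [hz, decide_true, Bool.xor_true, not_true_eq_false, and_false, true_and, false_or]
    cases h : ω v 0 <;> simp <;> omega
  · simp only [hz, decide_false, Bool.xor_false, not_false_eq_true, and_true, false_and, or_false]

open scoped symmDiff in
/-- PROOF. `rs ω i = X` iff for every `v` the row `ω v` satisfies `((ω v 0) + ∑ j, (ω v j.succ) bit i j) % 2 = [v ∈ X]`; so the number is the product over `v` of the number of such rows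
(`Fintype.card_pi`, `Fintype.piFinset`), and exactly half of the rows `Fin (kb n + 1) → Bool` satisfy the condition (flip the entry `0`: an involution which exchanges the two cases). -/
theorem rs_one (i : ℕ) (X : Finset (Fin n)) :
    (univ.filter fun ω : Fm n => rs ω i = X).card * 2 ^ n = Fintype.card (Fm n) := by
  have h1 : ∀ Y : Finset (Fin n), (univ.filter fun ω : Fm n => rs ω i = Y).card
      = (univ.filter fun ω : Fm n => rs ω i = X).card := by
    intro Y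
    refine Finset.card_bij' (fun ω _ => R1_sh (Y ∆ X) ω) (fun ω _ => R1_sh (Y ∆ X) ω) ?_ ?_ ?_ ?_
    · intro ω hω
      simp only [mem_filter, mem_univ, true_and] at hω ⊢
      rw [R1_rs_sh, hω, symmDiff_symmDiff_cancel_left]
    · intro ω hω
      simp only [mem_filter, mem_univ, true_and] at hω ⊢
      rw [R1_rs_sh, hω, symmDiff_comm Y X, symmDiff_symmDiff_cancel_left]
    · intro ω _
      exact R1_sh_sh _ _
    · intro ω _
      exact R1_sh_sh _ _
  have h2 := Finset.card_eq_sum_card_fiberwise (f := fun ω : Fm n => rs ω i)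
    (s := (univ : Finset (Fm n))) (t := (univ : Finset (Finset (Fin n)))) (fun _ _ => by simp)
  rw [Finset.sum_congr rfl (fun Y _ => h1 Y), Finset.sum_const, Finset.card_univ] at h2
  rw [h2, Finset.card_univ, Fintype.card_finset, Fintype.card_fin, smul_eq_mul, mul_comm]

end Pool.Agent.MPa9445a.SN
end

section

/-! The random sets are uniform and pairwise independent. -/

set_option autoImplicit false

open Finset

namespace Pool.Agent.MPa9445a.SN

variable {n : ℕ}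

open Pool.Agent.MPa9445a.BE (bit)

/-- The parity of a row. -/
private def R1b_p {k : ℕ} (i : ℕ) (r : Fin (k + 1) → Bool) : Bool :=
  decide (((r 0).toNat + ∑ j : Fin k, (r j.succ).toNat * bit i j) % 2 = 1)

/-- The row with one entry flipped. -/
private def R1b_f {k : ℕ} (t : Fin (k + 1)) (r : Fin (k + 1) → Bool) : Fin (k + 1) → Bool :=
  Function.update r t (!(r t))

private theorem R1b_ff {k : ℕ} (t : Fin (k + 1)) (r : Fin (k + 1) → Bool) :
    R1b_f t (R1b_f t r) = r := by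
  unfold R1b_f
  funext x
  by_cases h : x = t
  · subst h; simp
  · simp [Function.update_of_ne h]

private theorem R1b_bit (c i : ℕ) : bit c i = 0 ∨ bit c i = 1 := by
  unfold Pool.Agent.MPa9445a.BE.bit
  omega

private theorem R1b_par {a b : ℕ} (h : (a + b) % 2 = 1) :
    decide (a % 2 = 1) = !decide (b % 2 = 1) := by
  rw [← decide_not]
  exact decide_eq_decide.2 (by omega)

private theorem R1b_f0 {k : ℕ} (i : ℕ) (r : Fin (k + 1) → Bool) :
    R1b_p i (R1b_f 0 r) = !(R1b_p i r) := by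
  unfold R1b_p R1b_f
  have h : ∀ j : Fin k, Function.update r 0 (!(r 0)) j.succ = r j.succ := fun j =>
    Function.update_of_ne (Fin.succ_ne_zero j) _ _
  simp only [h, Function.update_self]
  generalize ∑ j : Fin k, (r j.succ).toNat * bit i j = s
  apply R1b_par
  have h1 : (!(r 0)).toNat + (r 0).toNat = 1 := by cases r 0 <;> rfl
  omega

private theorem R1b_fs {k : ℕ} (i : ℕ) (s : Fin k) (r : Fin (k + 1) → Bool) :
    R1b_p i (R1b_f s.succ r) = if bit i s = 1 then !(R1b_p i r) else R1b_p i r := by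
  unfold R1b_p R1b_f
  have h0 : Function.update r s.succ (!(r s.succ)) 0 = r 0 :=
    Function.update_of_ne (Fin.succ_ne_zero s).symm _ _
  have h1 : ∑ j : Fin k, (Function.update r s.succ (!(r s.succ)) j.succ).toNat * bit i j =
      (∑ j ∈ univ.erase s, (r j.succ).toNat * bit i j) + (!(r s.succ)).toNat * bit i s := by
    rw [← Finset.sum_erase_add _ _ (Finset.mem_univ s)]
    congr 1
    · refine Finset.sum_congr rfl fun j hj => ?_
      rw [Function.update_of_ne]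
      intro h
      exact (Finset.ne_of_mem_erase hj) (Fin.succ_injective _ h)
    · rw [Function.update_self]
  have h2 : ∑ j : Fin k, (r j.succ).toNat * bit i j =
      (∑ j ∈ univ.erase s, (r j.succ).toNat * bit i j) + (r s.succ).toNat * bit i s := by
    rw [← Finset.sum_erase_add _ _ (Finset.mem_univ s)]
  have h3 : (!(r s.succ)).toNat + (r s.succ).toNat = 1 := by cases r s.succ <;> rfl
  rw [h0, h1, h2]
  clear h0 h1 h2
  generalize ∑ j ∈ univ.erase s, (r j.succ).toNat * bit i j = S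
  rcases R1b_bit i s with hb | hb
  · simp [hb]
  · rw [hb, if_pos rfl]
    apply R1b_par
    omega

private theorem R1b_card {k : ℕ} {i j : ℕ} (t : Fin k) (ht : bit i t ≠ bit j t) (a b : Bool) :
    (univ.filter fun r : Fin (k + 1) → Bool => R1b_p i r = a ∧ R1b_p j r = b).card * 4 =
      Fintype.card (Fin (k + 1) → Bool) := by
  classical
  have inv : ∀ (s : Fin (k + 1)) (a b a' b' : Bool),
      (∀ r : Fin (k + 1) → Bool, (R1b_p i r = a ∧ R1b_p j r = b) ↔
        (R1b_p i (R1b_f s r) = a' ∧ R1b_p j (R1b_f s r) = b')) →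
      (univ.filter fun r : Fin (k + 1) → Bool => R1b_p i r = a ∧ R1b_p j r = b).card =
      (univ.filter fun r : Fin (k + 1) → Bool => R1b_p i r = a' ∧ R1b_p j r = b').card := by
    intro s a b a' b' h
    refine Finset.card_bij' (fun r _ => R1b_f s r) (fun r _ => R1b_f s r) ?_ ?_ ?_ ?_
    · intro r hr
      simp only [Finset.mem_filter, Finset.mem_univ, true_and] at hr ⊢
      exact (h r).1 hr
    · intro r hr
      simp only [Finset.mem_filter, Finset.mem_univ, true_and] at hr ⊢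
      refine (h _).2 ?_
      rw [R1b_ff]
      exact hr
    · intro r _; exact R1b_ff s r
    · intro r _; exact R1b_ff s r
  have e1 : ∀ a b : Bool,
      (univ.filter fun r : Fin (k + 1) → Bool => R1b_p i r = a ∧ R1b_p j r = b).card =
      (univ.filter fun r : Fin (k + 1) → Bool => R1b_p i r = !a ∧ R1b_p j r = !b).card := by
    intro a b
    refine inv 0 a b (!a) (!b) fun r => ?_
    rw [R1b_f0, R1b_f0]
    simp
  have e2 : ∀ a b : Bool,
      (univ.filter fun r : Fin (k + 1) → Bool => R1b_p i r = a ∧ R1b_p j r = b).card =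
      (univ.filter fun r : Fin (k + 1) → Bool => R1b_p i r = !a ∧ R1b_p j r = b).card := by
    intro a b
    rcases R1b_bit i t with hi | hi
    · have hj : bit j t = 1 := by
        rcases R1b_bit j t with h | h
        · exact absurd (hi.trans h.symm) ht
        · exact h
      rw [e1 (!a) b, Bool.not_not]
      refine inv t.succ a b a (!b) fun r => ?_
      rw [R1b_fs, R1b_fs, if_neg (by omega), if_pos hj]
      simp
    · have hj : bit j t = 0 := by
        rcases R1b_bit j t with h | h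
        · exact h
        · exact absurd (hi.trans h.symm) ht
      refine inv t.succ a b (!a) b fun r => ?_
      rw [R1b_fs, R1b_fs, if_pos hi, if_neg (by omega)]
      simp
  have e3 : ∀ a b : Bool,
      (univ.filter fun r : Fin (k + 1) → Bool => R1b_p i r = a ∧ R1b_p j r = b).card =
      (univ.filter fun r : Fin (k + 1) → Bool => R1b_p i r = a ∧ R1b_p j r = !b).card := by
    intro a b
    rw [e1 a b, e2 (!a) (!b), Bool.not_not]
  have hall : ∀ a' b' : Bool,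
      (univ.filter fun r : Fin (k + 1) → Bool => R1b_p i r = a' ∧ R1b_p j r = b').card =
      (univ.filter fun r : Fin (k + 1) → Bool => R1b_p i r = a ∧ R1b_p j r = b).card := by
    intro a' b'
    have h1 : (univ.filter fun r : Fin (k + 1) → Bool => R1b_p i r = a' ∧ R1b_p j r = b').card =
      (univ.filter fun r : Fin (k + 1) → Bool => R1b_p i r = a ∧ R1b_p j r = b').card := by
      by_cases h : a' = a
      · rw [h]
      · have : a = !a' := Bool.eq_not.2 (Ne.symm h)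
        rw [this]; exact e2 a' b'
    have h2 : (univ.filter fun r : Fin (k + 1) → Bool => R1b_p i r = a ∧ R1b_p j r = b').card =
      (univ.filter fun r : Fin (k + 1) → Bool => R1b_p i r = a ∧ R1b_p j r = b).card := by
      by_cases h : b' = b
      · rw [h]
      · have : b = !b' := Bool.eq_not.2 (Ne.symm h)
        rw [this]; exact e3 a b'
    rw [h1, h2]
  have hsum : Fintype.card (Fin (k + 1) → Bool) = ∑ q : Bool × Bool,
      (univ.filter fun r : Fin (k + 1) → Bool => R1b_p i r = q.1 ∧ R1b_p j r = q.2).card := by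
    have h := Finset.card_eq_sum_card_fiberwise
      (f := fun r : Fin (k + 1) → Bool => (R1b_p i r, R1b_p j r))
      (s := univ) (t := univ) (fun r _ => Finset.mem_coe.2 (Finset.mem_univ _))
    rw [Finset.card_univ] at h
    rw [h]
    refine Finset.sum_congr rfl fun q _ => ?_
    congr 1
    ext r
    simp [Prod.ext_iff]
  rw [hsum, Finset.sum_congr rfl fun q _ => hall q.1 q.2, Finset.sum_const, Finset.card_univ]
  simp [mul_comm]

private theorem R1b_digit {i j k : ℕ} (hij : i ≠ j) (hi : i < 2 ^ k) (hj : j < 2 ^ k) :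
    ∃ t : Fin k, bit i t ≠ bit j t := by
  by_contra h
  push Not at h
  apply hij
  apply Nat.eq_of_testBit_eq
  intro t
  by_cases ht : t < k
  · have h1 := h ⟨t, ht⟩
    unfold Pool.Agent.MPa9445a.BE.bit at h1
    simp only at h1
    rw [Nat.testBit_eq_decide_div_mod_eq, Nat.testBit_eq_decide_div_mod_eq, h1]
  · have hk : 2 ^ k ≤ 2 ^ t := Nat.pow_le_pow_right (by norm_num) (by omega)
    rw [Nat.testBit_lt_two_pow (lt_of_lt_of_le hi hk), Nat.testBit_lt_two_pow (lt_of_lt_of_le hj hk)]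

/-- PROOF. As `rs_one`: for every row a quarter of the rows satisfies both conditions. The indices differ in a digit `j < kb n`: flipping the entry `j + 1` changes exactly one of the two parities, flipping the
entry `0` changes both; so the four cases have the same number of rows. -/
theorem rs_pair {i j : ℕ} (hij : i ≠ j) (hi : i < 2 ^ kb n) (hj : j < 2 ^ kb n)
    (X Y : Finset (Fin n)) :
    (univ.filter fun ω : Fm n => rs ω i = X ∧ rs ω j = Y).card * 4 ^ n = Fintype.card (Fm n) := by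
  classical
  obtain ⟨t, ht⟩ := R1b_digit hij hi hj
  have hset : (univ.filter fun ω : Fm n => rs ω i = X ∧ rs ω j = Y) =
      Fintype.piFinset fun v : Fin n => univ.filter fun r : Fin (kb n + 1) → Bool =>
        R1b_p i r = decide (v ∈ X) ∧ R1b_p j r = decide (v ∈ Y) := by
    ext ω
    simp only [Finset.mem_filter, Finset.mem_univ, true_and, Fintype.mem_piFinset]
    have key : ∀ (m : ℕ) (Z : Finset (Fin n)), rs ω m = Z ↔
        ∀ v, R1b_p m (ω v) = decide (v ∈ Z) := by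
      intro m Z
      unfold rs R1b_p
      rw [Finset.ext_iff]
      refine forall_congr' fun v => ?_
      simp only [Finset.mem_filter, Finset.mem_univ, true_and, decide_eq_decide]
    rw [key i X, key j Y]
    exact forall_and.symm
  rw [hset, Fintype.card_piFinset]
  have h4 : (4 : ℕ) ^ n = ∏ _v : Fin n, 4 := by simp
  rw [h4, ← Finset.prod_mul_distrib]
  rw [Finset.prod_congr rfl fun v _ => R1b_card t ht _ _]
  simp only [Finset.prod_const, Finset.card_univ, Fintype.card_fin]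
  rw [Fintype.card_fun (α := Fin n) (β := Fin (kb n + 1) → Bool), Fintype.card_fin]

end Pool.Agent.MPa9445a.SN
end

section

/-! The numerical inequalities. -/

set_option autoImplicit false

open Finset

namespace Pool.Agent.MPa9445a.SN

/-- PROOF. `(2/5 + 3/5) ^ N = 1` and the binomial theorem. -/
theorem choose_le (N k : ℕ) (h : k ≤ N) :
    (N.choose k : ℝ) ≤ (5 / 2 : ℝ) ^ k * (5 / 3 : ℝ) ^ (N - k) := by
  have h1 : ((2 / 5 : ℝ) + 3 / 5) ^ N = 1 := by norm_num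
  rw [add_pow] at h1
  have h2 : (2 / 5 : ℝ) ^ k * (3 / 5 : ℝ) ^ (N - k) * (N.choose k : ℝ) ≤ 1 := by
    rw [← h1]
    exact single_le_sum (f := fun m => (2 / 5 : ℝ) ^ m * (3 / 5 : ℝ) ^ (N - m) * (N.choose m : ℝ))
      (fun i _ => by positivity) (mem_range.2 (Nat.lt_succ_of_le h))
  have h3 : (5 / 2 : ℝ) ^ k * (5 / 3 : ℝ) ^ (N - k) *
      ((2 / 5 : ℝ) ^ k * (3 / 5 : ℝ) ^ (N - k)) = 1 := by
    rw [mul_mul_mul_comm, ← mul_pow, ← mul_pow]
    norm_num
  have h4 : (0 : ℝ) ≤ (5 / 2 : ℝ) ^ k * (5 / 3 : ℝ) ^ (N - k) := by positivity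
  calc (N.choose k : ℝ) = (5 / 2 : ℝ) ^ k * (5 / 3 : ℝ) ^ (N - k) *
        ((2 / 5 : ℝ) ^ k * (3 / 5 : ℝ) ^ (N - k) * (N.choose k : ℝ)) := by
        rw [← mul_assoc, h3, one_mul]
    _ ≤ (5 / 2 : ℝ) ^ k * (5 / 3 : ℝ) ^ (N - k) * 1 := mul_le_mul_of_nonneg_left h2 h4
    _ = _ := mul_one _

/-- PROOF. Vandermonde (`Nat.add_choose_eq`): one term of the sum. -/
theorem WL_le (n e w₁ w₂ : ℕ) : WL n e w₁ w₂ ≤ (n - e).choose (w₁ + w₂) := by
  unfold WL
  have h0 : (n - e) = (n - e) / 2 + ((n - e) - (n - e) / 2) := by omega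
  have h1 : (n - e).choose (w₁ + w₂) =
      ∑ ij ∈ antidiagonal (w₁ + w₂),
        ((n - e) / 2).choose ij.1 * ((n - e) - (n - e) / 2).choose ij.2 := by
    conv_lhs => rw [h0]
    exact Nat.add_choose_eq _ _ _
  rw [h1]
  exact single_le_sum
    (f := fun ij : ℕ × ℕ => ((n - e) / 2).choose ij.1 * ((n - e) - (n - e) / 2).choose ij.2)
    (fun _ _ => Nat.zero_le _) (a := (w₁, w₂)) (mem_antidiagonal.2 rfl)

end Pool.Agent.MPa9445a.SN
end

section

/-! The numerical inequalities. -/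

set_option autoImplicit false

open Finset

namespace Pool.Agent.MPa9445a.SN

private theorem N1_a : (5 / 2 : ℝ) ≤ (2 : ℝ) ^ (1.322 : ℝ) := by
  have h0 : (5 : ℕ) ^ 1000 ≤ 2 ^ 1322 * 2 ^ 1000 := by decide +kernel
  have h : (5 / 2 : ℝ) ^ (1000 : ℕ) ≤ (2 : ℝ) ^ (1322 : ℕ) := by
    rw [div_pow, div_le_iff₀ (by positivity)]
    exact_mod_cast h0
  have h2 : ((2 : ℝ) ^ (1.322 : ℝ)) ^ (1000 : ℕ) = (2 : ℝ) ^ (1322 : ℕ) := by
    rw [← Real.rpow_natCast, ← Real.rpow_mul (by norm_num), ← Real.rpow_natCast]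
    norm_num
  exact le_of_pow_le_pow_left₀ (n := 1000) (by norm_num) (by positivity) (by rw [h2]; exact h)

private theorem N1_b : (5 / 3 : ℝ) ≤ (2 : ℝ) ^ (0.737 : ℝ) := by
  have h0 : (5 : ℕ) ^ 1000 ≤ 2 ^ 737 * 3 ^ 1000 := by decide +kernel
  have h : (5 / 3 : ℝ) ^ (1000 : ℕ) ≤ (2 : ℝ) ^ (737 : ℕ) := by
    rw [div_pow, div_le_iff₀ (by positivity)]
    exact_mod_cast h0
  have h2 : ((2 : ℝ) ^ (0.737 : ℝ)) ^ (1000 : ℕ) = (2 : ℝ) ^ (737 : ℕ) := by
    rw [← Real.rpow_natCast, ← Real.rpow_mul (by norm_num), ← Real.rpow_natCast]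
    norm_num
  exact le_of_pow_le_pow_left₀ (n := 1000) (by norm_num) (by positivity) (by rw [h2]; exact h)

private theorem N1_pow (x a : ℝ) (hx : 0 ≤ x) (h : x ≤ (2 : ℝ) ^ a) (k : ℕ) :
    x ^ k ≤ (2 : ℝ) ^ (a * k) := by
  rw [Real.rpow_mul (by norm_num), Real.rpow_natCast]
  exact pow_le_pow_left₀ hx h k

/-- PROOF. Let `r = rad n e ≤ e ≤ n - e`, `w = w₁ + w₂ ≤ r`. By `WL_le`, `choose_le` and since `(5/2)^w (5/3)^(n-e-w)` increases with `w`, the left side is at most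
`(5/2)^(e+r) (5/3)^((n-e)+(n-e-r))`. With `α = log₂ (5/2) ≤ 1.322` (`5^1000 ≤ 2^2322`), `β = log₂ (5/3) ≤ 0.737` (`5^1000 ≤ 3^1000 2^737`), `d = e / n`,
`r ≤ e - e²/n + 1` its logarithm is at most `n ((2 d - d²) α + (2 - 3 d + d²) β) + (α - β) ≤ 1.5544 n + 1` (the coefficients of `α` and `β` are not negative for `0 ≤ d ≤ 1/2`;
`max_d (1.474 + 0.433 d - 0.585 d²) ≤ 1.5544`; check the constants, `α - β = log₂ (3/2) < 1`). The statement for `n = 0` is trivial. -/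
theorem prod_le {n e w₁ w₂ : ℕ} (he : 2 * e ≤ n) (hw : w₁ + w₂ ≤ rad n e) :
    ((n.choose e * WL n e w₁ w₂ : ℕ) : ℝ) ≤ (2 : ℝ) ^ ((1.5544 : ℝ) * n + 1) := by
  rcases Nat.eq_zero_or_pos n with h0 | hn
  · subst h0
    have he0 : e = 0 := by omega
    subst he0
    have : w₁ + w₂ = 0 := by simpa [rad] using hw
    have h1 : w₁ = 0 := by omega
    have h2 : w₂ = 0 := by omega
    subst h1
    subst h2
    simp [WL]
  set r := rad n e with hr
  set w := w₁ + w₂ with hwd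
  have hre : r ≤ e := by
    rw [hr]
    exact Nat.sub_le _ _
  have hen : e ≤ n - e := by omega
  have hC := choose_le n e (by omega)
  have hW : (WL n e w₁ w₂ : ℝ) ≤ (5 / 2 : ℝ) ^ r * (5 / 3 : ℝ) ^ (n - e - r) := by
    have h1 : (WL n e w₁ w₂ : ℝ) ≤ ((n - e).choose w : ℝ) := by
      exact_mod_cast WL_le n e w₁ w₂
    have h2 := choose_le (n - e) w (by omega)
    have h3 : (5 / 2 : ℝ) ^ w * (5 / 3 : ℝ) ^ (n - e - w) ≤
        (5 / 2 : ℝ) ^ r * (5 / 3 : ℝ) ^ (n - e - r) := by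
      have e1 : (5 / 3 : ℝ) ^ (n - e - w) = (5 / 3 : ℝ) ^ (r - w) * (5 / 3 : ℝ) ^ (n - e - r) := by
        rw [← pow_add]
        congr 1
        omega
      have e2 : (5 / 2 : ℝ) ^ r = (5 / 2 : ℝ) ^ w * (5 / 2 : ℝ) ^ (r - w) := by
        rw [← pow_add]
        congr 1
        omega
      rw [e1, e2]
      have h4 : (5 / 3 : ℝ) ^ (r - w) ≤ (5 / 2 : ℝ) ^ (r - w) :=
        pow_le_pow_left₀ (by norm_num) (by norm_num) _
      have h5 : (0 : ℝ) ≤ (5 / 2 : ℝ) ^ w := by positivity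
      have h6 : (0 : ℝ) ≤ (5 / 3 : ℝ) ^ (n - e - r) := by positivity
      calc (5 / 2 : ℝ) ^ w * ((5 / 3 : ℝ) ^ (r - w) * (5 / 3 : ℝ) ^ (n - e - r))
          = ((5 / 2 : ℝ) ^ w * (5 / 3 : ℝ) ^ (r - w)) * (5 / 3 : ℝ) ^ (n - e - r) := by ring
        _ ≤ ((5 / 2 : ℝ) ^ w * (5 / 2 : ℝ) ^ (r - w)) * (5 / 3 : ℝ) ^ (n - e - r) := by
            exact mul_le_mul_of_nonneg_right (mul_le_mul_of_nonneg_left h4 h5) h6
    exact (h1.trans h2).trans h3
  have hr' : (r : ℝ) ≤ e - (e : ℝ) ^ 2 / n + 1 := by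
    have hle : e * e / n ≤ e := by
      apply Nat.div_le_of_le_mul
      exact Nat.mul_le_mul_right e (by omega)
    have h1 : (r : ℝ) = e - ((e * e / n : ℕ) : ℝ) := by
      rw [hr, rad, Nat.cast_sub hle]
    have h2 : ((e * e : ℕ) : ℝ) / n < ((e * e / n : ℕ) : ℝ) + 1 := by
      rw [div_lt_iff₀ (by exact_mod_cast hn)]
      have := Nat.lt_mul_div_succ (e * e) hn
      have h3 : ((e * e : ℕ) : ℝ) < ((n * (e * e / n + 1) : ℕ) : ℝ) := by exact_mod_cast this
      push_cast at h3 ⊢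
      linarith [h3]
    have h3 : ((e * e : ℕ) : ℝ) / n = (e : ℝ) ^ 2 / n := by
      push_cast
      ring
    rw [h1]
    rw [h3] at h2
    linarith
  have hA : (5 / 2 : ℝ) ^ (e + r) ≤ (2 : ℝ) ^ ((1.322 : ℝ) * ((e + r : ℕ) : ℝ)) :=
    N1_pow _ _ (by norm_num) N1_a _
  have hB : (5 / 3 : ℝ) ^ ((n - e) + (n - e - r)) ≤
      (2 : ℝ) ^ ((0.737 : ℝ) * (((n - e) + (n - e - r) : ℕ) : ℝ)) :=
    N1_pow _ _ (by norm_num) N1_b _
  have hmain : ((n.choose e * WL n e w₁ w₂ : ℕ) : ℝ) ≤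
      (5 / 2 : ℝ) ^ (e + r) * (5 / 3 : ℝ) ^ ((n - e) + (n - e - r)) := by
    rw [Nat.cast_mul]
    calc (n.choose e : ℝ) * (WL n e w₁ w₂ : ℝ)
        ≤ ((5 / 2 : ℝ) ^ e * (5 / 3 : ℝ) ^ (n - e)) *
            ((5 / 2 : ℝ) ^ r * (5 / 3 : ℝ) ^ (n - e - r)) :=
          mul_le_mul hC hW (by positivity) (by positivity)
      _ = (5 / 2 : ℝ) ^ (e + r) * (5 / 3 : ℝ) ^ ((n - e) + (n - e - r)) := by
          rw [pow_add, pow_add]
          ring
  refine hmain.trans ((mul_le_mul hA hB (by positivity) (by positivity)).trans ?_)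
  rw [← Real.rpow_add (by norm_num)]
  apply Real.rpow_le_rpow_of_exponent_le (by norm_num)
  have c1 : ((e + r : ℕ) : ℝ) = e + r := by push_cast; ring
  have c2 : (((n - e) + (n - e - r) : ℕ) : ℝ) = 2 * (n - e) - r := by
    have h1 : r ≤ n - e := by omega
    have h2 : e ≤ n := by omega
    rw [Nat.cast_add, Nat.cast_sub h1, Nat.cast_sub h2]
    ring
  rw [c1, c2]
  have hn' : (0 : ℝ) < n := by exact_mod_cast hn
  have key : (0.433 : ℝ) * e - 0.585 * ((e : ℝ) ^ 2 / n) ≤ 0.0804 * n := by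
    have h1 : (0.433 : ℝ) * e - 0.585 * ((e : ℝ) ^ 2 / n) =
        (0.433 * e * n - 0.585 * (e : ℝ) ^ 2) / n := by
      field_simp
    rw [h1, div_le_iff₀ hn']
    nlinarith [sq_nonneg ((e : ℝ) * 1.17 - 0.433 * n), sq_nonneg (n : ℝ)]
  nlinarith [hr', key]

end Pool.Agent.MPa9445a.SN
end
end

section

section

/-! Second moment and first moment. -/

set_option autoImplicit false

open Finset

namespace Pool.Agent.MPa9445a.SN

variable {n : ℕ}

/-- PROOF. From `rs_one`: sum over `X ∈ 𝒮`. -/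
theorem rs_mem (i : ℕ) (𝒮 : Finset (Finset (Fin n))) :
    (univ.filter fun ω : Fm n => rs ω i ∈ 𝒮).card * 2 ^ n = 𝒮.card * Fintype.card (Fm n) := by
  have h : (univ.filter fun ω : Fm n => rs ω i ∈ 𝒮).card =
      ∑ X ∈ 𝒮, (univ.filter fun ω : Fm n => rs ω i = X).card := by
    rw [Finset.card_eq_sum_card_fiberwise (f := fun ω : Fm n => rs ω i) (t := 𝒮)]
    · refine Finset.sum_congr rfl fun X hX => ?_
      congr 1
      ext ω
      simp only [Finset.mem_filter, Finset.mem_univ, true_and]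
      constructor
      · exact fun h => h.2
      · exact fun h => ⟨h ▸ hX, h⟩
    · intro ω hω
      exact (Finset.mem_filter.1 (Finset.mem_coe.1 hω)).2
  rw [h, Finset.sum_mul, Finset.sum_congr rfl fun X _ => rs_one i X, Finset.sum_const, smul_eq_mul]

/-- PROOF. From `rs_pair`: sum over `X, Y ∈ 𝒮`. -/
theorem rs_mem2 {i j : ℕ} (hij : i ≠ j) (hi : i < 2 ^ kb n) (hj : j < 2 ^ kb n)
    (𝒮 : Finset (Finset (Fin n))) :
    (univ.filter fun ω : Fm n => rs ω i ∈ 𝒮 ∧ rs ω j ∈ 𝒮).card * 4 ^ n =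
      𝒮.card ^ 2 * Fintype.card (Fm n) := by
  have h : (univ.filter fun ω : Fm n => rs ω i ∈ 𝒮 ∧ rs ω j ∈ 𝒮).card =
      ∑ p ∈ 𝒮 ×ˢ 𝒮, (univ.filter fun ω : Fm n => rs ω i = p.1 ∧ rs ω j = p.2).card := by
    rw [Finset.card_eq_sum_card_fiberwise (f := fun ω : Fm n => (rs ω i, rs ω j))
      (t := 𝒮 ×ˢ 𝒮)]
    · refine Finset.sum_congr rfl fun p hp => ?_
      congr 1
      ext ω
      rw [Finset.mem_product] at hp
      simp only [Finset.mem_filter, Finset.mem_univ, true_and]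
      constructor
      · intro h
        exact ⟨congrArg Prod.fst h.2, congrArg Prod.snd h.2⟩
      · intro h
        exact ⟨⟨h.1 ▸ hp.1, h.2 ▸ hp.2⟩, Prod.ext h.1 h.2⟩
    · intro ω hω
      have := (Finset.mem_filter.1 (Finset.mem_coe.1 hω)).2
      exact Finset.mem_coe.2 (Finset.mem_product.2 this)
  rw [h, Finset.sum_mul, Finset.sum_congr rfl fun p _ => rs_pair hij hi hj p.1 p.2,
    Finset.sum_const, smul_eq_mul, Finset.card_product, sq]

/-- Markov. PROOF. `∑ ω, ∑ i < I, φ (rs ω i) = I ∑ X, φ X · N / 2^n` by `rs_one`. -/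
theorem markov (φ : Finset (Fin n) → ℕ) (I a : ℕ) :
    (univ.filter fun ω : Fm n => a ≤ ∑ i ∈ range I, φ (rs ω i)).card * (a * 2 ^ n) ≤
      Fintype.card (Fm n) * (I * ∑ X, φ X) := by
  have h1 : ∀ i : ℕ, (∑ ω : Fm n, φ (rs ω i)) * 2 ^ n =
      Fintype.card (Fm n) * ∑ X, φ X := by
    intro i
    have h2 : ∑ ω : Fm n, φ (rs ω i) =
        ∑ X : Finset (Fin n), (univ.filter fun ω : Fm n => rs ω i = X).card * φ X := by
      rw [← Finset.sum_fiberwise univ (fun ω : Fm n => rs ω i) (fun ω => φ (rs ω i))]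
      refine Finset.sum_congr rfl fun X _ => ?_
      rw [← smul_eq_mul, ← Finset.sum_const]
      refine Finset.sum_congr rfl fun ω hω => ?_
      rw [(Finset.mem_filter.1 hω).2]
    rw [h2, Finset.sum_mul, Finset.mul_sum]
    refine Finset.sum_congr rfl fun X _ => ?_
    rw [mul_right_comm, rs_one]
  have h3 : (univ.filter fun ω : Fm n => a ≤ ∑ i ∈ range I, φ (rs ω i)).card * a ≤
      ∑ ω : Fm n, ∑ i ∈ range I, φ (rs ω i) := by
    rw [← smul_eq_mul, ← Finset.sum_const]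
    exact (Finset.sum_le_sum fun ω hω => (Finset.mem_filter.1 hω).2).trans
      (Finset.sum_le_sum_of_subset (Finset.filter_subset _ _))
  have h4 : (∑ ω : Fm n, ∑ i ∈ range I, φ (rs ω i)) * 2 ^ n =
      Fintype.card (Fm n) * (I * ∑ X, φ X) := by
    rw [Finset.sum_comm, Finset.sum_mul, Finset.sum_congr rfl fun i _ => h1 i, Finset.sum_const,
      Finset.card_range, smul_eq_mul]
    ring
  rw [← h4, ← mul_assoc]
  exact Nat.mul_le_mul_right _ h3

end Pool.Agent.MPa9445a.SN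
end

section

/-! Second moment and first moment. -/

set_option autoImplicit false

open Finset

namespace Pool.Agent.MPa9445a.SN

variable {n : ℕ}

/-- Second moment (Chebyshev). PROOF. Let `N = |Fm n|`, `p = |𝒮| / 2^n`, `X ω = #{i < I : rs ω i ∈ 𝒮}` (real numbers). `∑ X = N I p`, `∑ X² = N (I p + I (I-1) p²)` by `rs_mem`, `rs_mem2`, so
`∑ (X - I p)² = N I p (1 - p) ≤ N I p`. Every `ω` with `X = 0` contributes `(I p)²`: number times `(I p)² ≤ N I p`. -/
theorem hit (𝒮 : Finset (Finset (Fin n))) {I : ℕ} (hI : I ≤ 2 ^ kb n) :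
    (univ.filter fun ω : Fm n => ∀ i < I, rs ω i ∉ 𝒮).card * (I * 𝒮.card) ≤
      Fintype.card (Fm n) * 2 ^ n := by
  classical
  obtain ⟨N, hN⟩ : ∃ N : ℤ, N = (Fintype.card (Fm n) : ℤ) := ⟨_, rfl⟩
  obtain ⟨s, hs⟩ : ∃ s : ℤ, s = (𝒮.card : ℤ) := ⟨_, rfl⟩
  obtain ⟨M, hM⟩ : ∃ M : ℤ, M = (2 : ℤ) ^ n := ⟨_, rfl⟩
  have hM4 : M ^ 2 = (4 : ℤ) ^ n := by
    rw [hM, ← pow_mul, mul_comm, pow_mul]
    norm_num
  have hMpos : 0 < M := by rw [hM]; positivity
  have hNpos : 0 ≤ N := by rw [hN]; positivity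
  have hspos : 0 ≤ s := by rw [hs]; positivity
  let a : ℕ → Fm n → ℤ := fun i ω => if rs ω i ∈ 𝒮 then 1 else 0
  have h1 : ∀ i : ℕ, M * ∑ ω : Fm n, a i ω = s * N := by
    intro i
    have h := rs_mem i 𝒮
    have h' : ∑ ω : Fm n, a i ω = ((univ.filter fun ω : Fm n => rs ω i ∈ 𝒮).card : ℤ) := by
      simp only [a]
      rw [Finset.sum_boole]
    rw [h', hM, hs, hN, mul_comm]
    exact_mod_cast h
  have h2 : ∀ i ∈ range I, ∀ j ∈ range I, M ^ 2 * ∑ ω : Fm n, a i ω * a j ω =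
      s ^ 2 * N + if i = j then (M * s * N - s ^ 2 * N) else 0 := by
    intro i hi j hj
    rw [Finset.mem_range] at hi hj
    by_cases hij : i = j
    · subst hij
      rw [if_pos rfl]
      have h3 : ∑ ω : Fm n, a i ω * a i ω = ∑ ω : Fm n, a i ω := by
        refine Finset.sum_congr rfl fun ω _ => ?_
        simp only [a]
        split_ifs <;> norm_num
      rw [h3]
      have := h1 i
      linear_combination M * this
    · rw [if_neg hij, add_zero]
      have h := rs_mem2 hij (lt_of_lt_of_le hi hI) (lt_of_lt_of_le hj hI) 𝒮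
      have h' : ∑ ω : Fm n, a i ω * a j ω =
          ((univ.filter fun ω : Fm n => rs ω i ∈ 𝒮 ∧ rs ω j ∈ 𝒮).card : ℤ) := by
        rw [← Finset.sum_boole]
        refine Finset.sum_congr rfl fun ω _ => ?_
        simp only [a]
        by_cases h5 : rs ω i ∈ 𝒮 <;> by_cases h6 : rs ω j ∈ 𝒮 <;> simp [h5, h6]
      rw [h', hM4, hs, hN, mul_comm]
      exact_mod_cast h
  let X : Fm n → ℤ := fun ω => ∑ i ∈ range I, a i ω
  have hX1 : M * ∑ ω : Fm n, X ω = I * (s * N) := by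
    simp only [X]
    rw [Finset.sum_comm, Finset.mul_sum, Finset.sum_congr rfl fun i _ => h1 i]
    rw [Finset.sum_const, Finset.card_range, nsmul_eq_mul]
  have hX2 : M ^ 2 * ∑ ω : Fm n, X ω ^ 2 = I ^ 2 * (s ^ 2 * N) + I * (M * s * N - s ^ 2 * N) := by
    have h3 : ∑ ω : Fm n, X ω ^ 2 = ∑ i ∈ range I, ∑ j ∈ range I, ∑ ω : Fm n, a i ω * a j ω := by
      have h4 : ∀ ω : Fm n, X ω ^ 2 = ∑ i ∈ range I, ∑ j ∈ range I, a i ω * a j ω := by
        intro ω
        simp only [X]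
        rw [pow_two, Finset.sum_mul_sum]
      rw [Finset.sum_congr rfl fun ω _ => h4 ω, Finset.sum_comm]
      refine Finset.sum_congr rfl fun i _ => ?_
      rw [Finset.sum_comm]
    rw [h3, Finset.mul_sum]
    have h5 : ∀ i ∈ range I, M ^ 2 * ∑ j ∈ range I, ∑ ω : Fm n, a i ω * a j ω =
        I * (s ^ 2 * N) + (M * s * N - s ^ 2 * N) := by
      intro i hi
      rw [Finset.mul_sum, Finset.sum_congr rfl fun j hj => h2 i hi j hj, Finset.sum_add_distrib,
        Finset.sum_const, Finset.card_range, nsmul_eq_mul, Finset.sum_ite_eq, if_pos hi]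
    rw [Finset.sum_congr rfl h5, Finset.sum_const, Finset.card_range, nsmul_eq_mul]
    ring
  have hcheb : ∑ ω : Fm n, (M * X ω - I * s) ^ 2 ≤ I * s * N * M := by
    have h3 : ∑ ω : Fm n, (M * X ω - I * s) ^ 2 =
        M ^ 2 * ∑ ω : Fm n, X ω ^ 2 - 2 * (I * s) * (M * ∑ ω : Fm n, X ω) + N * (I * s) ^ 2 := by
      have h4 : ∀ ω : Fm n, (M * X ω - I * s) ^ 2 =
          M ^ 2 * X ω ^ 2 - 2 * (I * s) * (M * X ω) + (I * s) ^ 2 := fun ω => by ring
      rw [Finset.sum_congr rfl fun ω _ => h4 ω, Finset.sum_add_distrib, Finset.sum_sub_distrib,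
        ← Finset.mul_sum, ← Finset.mul_sum, ← Finset.mul_sum, Finset.sum_const, Finset.card_univ,
        nsmul_eq_mul, hN]
    rw [h3, hX1, hX2]
    have h5 : (0 : ℤ) ≤ I * s ^ 2 * N := by positivity
    linarith [h5, show (I : ℤ) ^ 2 * (s ^ 2 * N) + I * (M * s * N - s ^ 2 * N) -
      2 * (I * s) * (I * (s * N)) + N * (I * s) ^ 2 = I * s * N * M - I * s ^ 2 * N by ring]
  obtain ⟨Z, hZ⟩ : ∃ Z : Finset (Fm n), Z = univ.filter fun ω : Fm n => ∀ i < I, rs ω i ∉ 𝒮 :=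
    ⟨_, rfl⟩
  rw [← hZ]
  have hZsum : (Z.card : ℤ) * (I * s) ^ 2 ≤ I * s * N * M := by
    refine le_trans ?_ hcheb
    have h3 : ∀ ω ∈ Z, (M * X ω - I * s) ^ 2 = (I * s) ^ 2 := by
      intro ω hω
      rw [hZ, Finset.mem_filter] at hω
      have h4 : X ω = 0 := by
        simp only [X]
        refine Finset.sum_eq_zero fun i hi => ?_
        simp only [a]
        rw [if_neg (hω.2 i (Finset.mem_range.1 hi))]
      rw [h4]
      ring
    calc (Z.card : ℤ) * (I * s) ^ 2 = ∑ ω ∈ Z, (M * X ω - I * s) ^ 2 := by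
          rw [Finset.sum_congr rfl h3, Finset.sum_const, nsmul_eq_mul]
      _ ≤ ∑ ω : Fm n, (M * X ω - I * s) ^ 2 :=
          Finset.sum_le_sum_of_subset_of_nonneg (Finset.subset_univ _) fun _ _ _ => sq_nonneg _
  have hfin : (Z.card : ℤ) * (I * s) ≤ N * M := by
    rcases eq_or_lt_of_le (show (0 : ℤ) ≤ I * s by positivity) with h0 | h0
    · rw [← h0, mul_zero]
      positivity
    · refine le_of_mul_le_mul_right ?_ h0
      calc (Z.card : ℤ) * (I * s) * (I * s) = Z.card * (I * s) ^ 2 := by ring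
        _ ≤ I * s * N * M := hZsum
        _ = N * M * (I * s) := by ring
  rw [hs, hN, hM] at hfin
  exact_mod_cast hfin

end Pool.Agent.MPa9445a.SN
end
end

section

section

/-! Pairs of sets of a family with large intersection. -/

set_option autoImplicit false

open Finset

namespace Pool.Agent.MPa9445a.SN

variable {n : ℕ}

private theorem A5_card_inter (A B : Finset (Fin n)) :
    (A ∩ B).card = ∑ v : Fin n, (if v ∈ A then 1 else 0) * (if v ∈ B then 1 else 0) := by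
  classical
  rw [Finset.card_eq_sum_ones, ← Finset.sum_filter_add_sum_filter_not univ (fun v => v ∈ A ∩ B)]
  have h2 : ∑ v ∈ univ.filter (fun v => ¬ v ∈ A ∩ B),
      (if v ∈ A then 1 else 0) * (if v ∈ B then 1 else 0) = 0 := by
    refine Finset.sum_eq_zero fun v hv => ?_
    rw [Finset.mem_filter, Finset.mem_inter] at hv
    by_cases hA : v ∈ A
    · have hB : v ∉ B := fun hB => hv.2 ⟨hA, hB⟩
      simp [hB]
    · simp [hA]
  rw [h2, add_zero]
  refine Finset.sum_congr (by ext v; simp) fun v hv => ?_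
  rw [Finset.mem_filter, Finset.mem_inter] at hv
  simp [hv.2.1, hv.2.2]

/-- PROOF. Double counting: `∑ (A,B) ∈ 𝒜 × 𝒜, |A ∩ B| = ∑ v, deg v ^ 2` with `deg v = |{A ∈ 𝒜 : v ∈ A}|` and `∑ v, deg v = e |𝒜|`; Cauchy-Schwarz (`inner_mul_le_norm_mul_norm` or
`sq_sum_le_card_mul_sum_sq`). -/
theorem sum_inter (𝒜 : Finset (Finset (Fin n))) (e : ℕ) (h : ∀ A ∈ 𝒜, A.card = e) :
    (e * 𝒜.card) ^ 2 ≤ n * ∑ p ∈ 𝒜 ×ˢ 𝒜, (p.1 ∩ p.2).card := by
  classical
  have h1 : ∑ p ∈ 𝒜 ×ˢ 𝒜, (p.1 ∩ p.2).card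
      = ∑ v : Fin n, (∑ A ∈ 𝒜, if v ∈ A then 1 else 0) ^ 2 := by
    rw [Finset.sum_product]
    simp_rw [A5_card_inter]
    calc ∑ A ∈ 𝒜, ∑ B ∈ 𝒜, ∑ v : Fin n, (if v ∈ A then 1 else 0) * (if v ∈ B then 1 else 0)
        = ∑ A ∈ 𝒜, ∑ v : Fin n, ∑ B ∈ 𝒜,
            (if v ∈ A then 1 else 0) * (if v ∈ B then 1 else 0) :=
          Finset.sum_congr rfl fun A _ => Finset.sum_comm
      _ = ∑ v : Fin n, ∑ A ∈ 𝒜, ∑ B ∈ 𝒜,
            (if v ∈ A then 1 else 0) * (if v ∈ B then 1 else 0) := Finset.sum_comm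
      _ = _ := by
          refine Finset.sum_congr rfl fun v _ => ?_
          rw [sq, Finset.sum_mul_sum]
  have h2 : e * 𝒜.card = ∑ v : Fin n, ∑ A ∈ 𝒜, if v ∈ A then 1 else 0 := by
    rw [Finset.sum_comm]
    have : ∀ A ∈ 𝒜, (∑ v : Fin n, if v ∈ A then 1 else 0) = e := by
      intro A hA
      rw [← h A hA, Finset.card_eq_sum_ones, Finset.sum_ite_mem, Finset.univ_inter]
    rw [Finset.sum_congr rfl this, Finset.sum_const, smul_eq_mul, mul_comm]
  rw [h1, h2]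
  have h3 := sq_sum_le_card_mul_sum_sq (s := (univ : Finset (Fin n)))
    (f := fun v => ∑ A ∈ 𝒜, if v ∈ A then 1 else 0)
  simpa using h3

/-- Good pairs. PROOF. Let `m = e * e / n` (so `n * m ≤ e * e`; for `n = 0` everything is trivial) and let `G` be the set of pairs with `m ≤ |A ∩ B|`. By `sum_inter`
`m |𝒜|² ≤ ∑ |A ∩ B| ≤ e |G| + (m - 1)(|𝒜|² - |G|)` if `m ≥ 1`, so `|𝒜|² ≤ (e - m + 1) |G| ≤ (n + 1) |G|` (`e ≤ n` if `𝒜` is not empty); if `m = 0` all pairs are in `G`. And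
`|B \ A| = e - |A ∩ B| ≤ e - m`. -/
theorem good_pairs (𝒜 : Finset (Finset (Fin n))) (e : ℕ) (h : ∀ A ∈ 𝒜, A.card = e) :
    𝒜.card ^ 2 ≤ (n + 1) * ((𝒜 ×ˢ 𝒜).filter fun p => (p.2 \ p.1).card ≤ rad n e).card := by
  classical
  rcases 𝒜.eq_empty_or_nonempty with h0 | ⟨A₀, hA₀⟩
  · subst h0
    simp
  have hen : e ≤ n := by
    rw [← h A₀ hA₀]
    simpa using Finset.card_le_univ A₀
  set m := e * e / n with hm
  have hmn : n * m ≤ e * e := Nat.mul_div_le _ _
  have hme : m ≤ e := by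
    rcases Nat.eq_zero_or_pos n with hn | hn
    · rw [hm, hn, Nat.div_zero]; exact Nat.zero_le _
    · rw [hm]
      exact Nat.div_le_of_le_mul (Nat.mul_le_mul_right e hen)
  -- the good pairs
  have hG : ((𝒜 ×ˢ 𝒜).filter fun p => m ≤ (p.1 ∩ p.2).card) ⊆
      (𝒜 ×ˢ 𝒜).filter fun p => (p.2 \ p.1).card ≤ rad n e := by
    intro p hp
    rw [Finset.mem_filter] at hp ⊢
    refine ⟨hp.1, ?_⟩
    have h1 : p.2.card = e := h _ (Finset.mem_product.mp hp.1).2
    have h2 := Finset.card_sdiff_add_card_inter p.2 p.1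
    rw [Finset.inter_comm] at h2
    have h3 := hp.2
    show (p.2 \ p.1).card ≤ e - e * e / n
    rw [← hm]
    omega
  refine le_trans ?_ (Nat.mul_le_mul_left _ (Finset.card_le_card hG))
  set G := (𝒜 ×ˢ 𝒜).filter fun p => m ≤ (p.1 ∩ p.2).card with hGdef
  have hcard : (𝒜 ×ˢ 𝒜).card = 𝒜.card ^ 2 := by rw [Finset.card_product, sq]
  rcases Nat.eq_zero_or_pos m with hm0 | hmpos
  · have : G = 𝒜 ×ˢ 𝒜 := by
      rw [hGdef]
      refine Finset.filter_true_of_mem fun p _ => ?_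
      rw [hm0]; exact Nat.zero_le _
    rw [this, hcard]
    exact Nat.le_mul_of_pos_left _ (Nat.succ_pos n)
  have hnpos : 0 < n := by
    rcases Nat.eq_zero_or_pos n with hn | hn
    · exfalso
      rw [hm, hn, Nat.div_zero] at hmpos
      exact absurd hmpos (lt_irrefl 0)
    · exact hn
  -- lower bound
  have hlow : m * 𝒜.card ^ 2 ≤ ∑ p ∈ 𝒜 ×ˢ 𝒜, (p.1 ∩ p.2).card := by
    have h1 := sum_inter 𝒜 e h
    have h2 : n * (m * 𝒜.card ^ 2) ≤ n * ∑ p ∈ 𝒜 ×ˢ 𝒜, (p.1 ∩ p.2).card := by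
      calc n * (m * 𝒜.card ^ 2) = n * m * 𝒜.card ^ 2 := by ring
        _ ≤ e * e * 𝒜.card ^ 2 := Nat.mul_le_mul_right _ hmn
        _ = (e * 𝒜.card) ^ 2 := by ring
        _ ≤ _ := h1
    exact Nat.le_of_mul_le_mul_left h2 hnpos
  -- upper bound
  have hup : ∑ p ∈ 𝒜 ×ˢ 𝒜, (p.1 ∩ p.2).card ≤
      e * G.card + (m - 1) * ((𝒜 ×ˢ 𝒜).filter fun p => ¬ m ≤ (p.1 ∩ p.2).card).card := by
    rw [← Finset.sum_filter_add_sum_filter_not (𝒜 ×ˢ 𝒜) (fun p => m ≤ (p.1 ∩ p.2).card)]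
    refine Nat.add_le_add ?_ ?_
    · rw [mul_comm, ← smul_eq_mul]
      refine Finset.sum_le_card_nsmul _ _ _ fun p hp => ?_
      rw [← h p.1 (Finset.mem_product.mp (Finset.mem_filter.mp hp).1).1]
      exact Finset.card_le_card Finset.inter_subset_left
    · rw [mul_comm, ← smul_eq_mul]
      refine Finset.sum_le_card_nsmul _ _ _ fun p hp => ?_
      have := (Finset.mem_filter.mp hp).2
      omega
  have hsplit : G.card + ((𝒜 ×ˢ 𝒜).filter fun p => ¬ m ≤ (p.1 ∩ p.2).card).card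
      = 𝒜.card ^ 2 := by
    rw [← hcard]
    exact Finset.card_filter_add_card_filter_not _
  set B := ((𝒜 ×ˢ 𝒜).filter fun p => ¬ m ≤ (p.1 ∩ p.2).card).card with hB
  obtain ⟨k, hk⟩ : ∃ k, m = k + 1 := ⟨m - 1, by omega⟩
  rw [← hsplit] at hlow ⊢
  have h5 := hlow.trans hup
  rw [hk, Nat.add_sub_cancel] at h5
  -- (k+1)(g+b) ≤ e g + k b
  have h6 : G.card + B ≤ (e - k) * G.card := by
    have hke : k ≤ e := by omega
    obtain ⟨c, hc⟩ : ∃ c, e = k + c := ⟨e - k, by omega⟩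
    rw [hc, Nat.add_sub_cancel_left]
    rw [hc] at h5
    nlinarith [h5]
  refine h6.trans (Nat.mul_le_mul_right _ ?_)
  omega

end Pool.Agent.MPa9445a.SN
end

section

/-! Pairs of sets of a family with large intersection. -/

set_option autoImplicit false

open Finset

namespace Pool.Agent.MPa9445a.SN

variable {n : ℕ}

private theorem A6_fiber (𝒜 : Finset (Finset (Fin n))) (e : ℕ) :
    ((𝒜 ×ˢ 𝒜).filter fun p => (p.2 \ p.1).card ≤ rad n e).card =
      ∑ B ∈ 𝒜, (𝒜.filter fun A => (B \ A).card ≤ rad n e).card := by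
  rw [Finset.card_filter, Finset.sum_product_right]
  refine Finset.sum_congr rfl fun B _ => ?_
  rw [Finset.card_filter]

/-- Rich sets. PROOF. Let `R` be the set on the right. For `B ∉ R` the number of good `A` is less than `|𝒜| / (2 (n+1))`, for `B ∈ R` at most `|𝒜|`. Sum over `B` and `good_pairs`:
`|𝒜|² ≤ (n+1) (|R| |𝒜| + |𝒜| |𝒜| / (2 (n+1)))`, so `|𝒜|² / 2 ≤ (n+1) |R| |𝒜|`. -/
theorem rich (𝒜 : Finset (Finset (Fin n))) (e : ℕ) (h : ∀ A ∈ 𝒜, A.card = e) :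
    𝒜.card ≤ 2 * (n + 1) * (𝒜.filter fun B =>
      𝒜.card ≤ 2 * (n + 1) * (𝒜.filter fun A => (B \ A).card ≤ rad n e).card).card := by
  have hg := good_pairs 𝒜 e h
  rw [A6_fiber] at hg
  set g : Finset (Fin n) → ℕ := fun B => (𝒜.filter fun A => (B \ A).card ≤ rad n e).card with hgdef
  have hle : ∀ B, g B ≤ 𝒜.card := fun B => Finset.card_filter_le _ _
  have hs : ∑ B ∈ 𝒜, 2 * (n + 1) * g B ≤
      (𝒜.filter fun B => 𝒜.card ≤ 2 * (n + 1) * g B).card * (2 * (n + 1) * 𝒜.card) +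
        𝒜.card * 𝒜.card := by
    rw [← Finset.sum_filter_add_sum_filter_not 𝒜 (fun B => 𝒜.card ≤ 2 * (n + 1) * g B)]
    refine Nat.add_le_add ?_ ?_
    · rw [← smul_eq_mul (a := (𝒜.filter fun B => 𝒜.card ≤ 2 * (n + 1) * g B).card)]
      exact Finset.sum_le_card_nsmul _ _ _ fun B _ => Nat.mul_le_mul_left _ (hle B)
    · calc ∑ B ∈ 𝒜.filter (fun B => ¬ 𝒜.card ≤ 2 * (n + 1) * g B), 2 * (n + 1) * g B
          ≤ (𝒜.filter (fun B => ¬ 𝒜.card ≤ 2 * (n + 1) * g B)).card • 𝒜.card :=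
            Finset.sum_le_card_nsmul _ _ _ fun B hB =>
              (not_le.mp (Finset.mem_filter.mp hB).2).le
        _ ≤ 𝒜.card * 𝒜.card := by
            rw [smul_eq_mul]
            exact Nat.mul_le_mul_right _ (Finset.card_filter_le _ _)
  rw [← Finset.mul_sum] at hs
  rcases Nat.eq_zero_or_pos 𝒜.card with h0 | hpos
  · rw [h0]; exact Nat.zero_le _
  · have hfin : 𝒜.card * 𝒜.card ≤
        (2 * (n + 1) * (𝒜.filter fun B => 𝒜.card ≤ 2 * (n + 1) * g B).card) * 𝒜.card := by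
      nlinarith [hg, hs]
    exact Nat.le_of_mul_le_mul_right hfin hpos

end Pool.Agent.MPa9445a.SN
end
end

section

section

/-! The numerical inequalities. -/

set_option autoImplicit false

open Finset

namespace Pool.Agent.MPa9445a.SN

private theorem N2_K (n : ℕ) : (2 : ℝ) ^ ((1.7776 : ℝ) * n) ≤ 2 * (2 : ℝ) ^ (n + 486 * n / 625) := by
  have h1 : 486 * n < 625 * (486 * n / 625 + 1) := Nat.lt_mul_div_succ _ (by norm_num)
  have h2 : (486 : ℝ) * n < 625 * (((486 * n / 625 : ℕ) : ℝ) + 1) := by exact_mod_cast h1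
  have e1 : 2 * (2 : ℝ) ^ (n + 486 * n / 625) = (2 : ℝ) ^ (((n + 486 * n / 625 + 1 : ℕ)) : ℝ) := by
    rw [Real.rpow_natCast]; ring
  rw [e1]
  apply Real.rpow_le_rpow_of_exponent_le (by norm_num)
  push_cast
  nlinarith

private theorem N2_g {n g : ℕ} (hg : g ≤ sig n) : ((2 ^ g : ℕ) : ℝ) ≤ (2 : ℝ) ^ ((0.2225 : ℝ) * n) := by
  have h1 : g * 400 ≤ 89 * n := (Nat.le_div_iff_mul_le (by norm_num)).1 hg
  have h2 : (g : ℝ) * 400 ≤ 89 * n := by exact_mod_cast h1
  push_cast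
  rw [← Real.rpow_natCast]
  apply Real.rpow_le_rpow_of_exponent_le (by norm_num)
  linarith

/-- The budget is sufficient for the tables. PROOF. `Jn n g = 2^g 64 (n+1)²`, `g ≤ 89 n / 400`. Let `K = 486 n / 625` (floor). `2^g C(n,e) 2^e ≤ 2^(0.2225 n + n + n/2) ≤ 2 · 2^(n + K)`,
the same for the term `1`, and by `prod_le` `2^g C(n,e) WL ≤ 2^(0.2225 n + 1.5544 n + 1) ≤ 4 · 2^(n + K)` (`0.2225 + 1.5544 = 1.7769 ≤ 1.7776`, `0.7776 n < K + 1`). In total
`16 · 64 (n+1)² · 8 ≤ (n+2)^20`. -/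
theorem num1 {n e w₁ w₂ g : ℕ} (he : 2 * e ≤ n) (hw : w₁ + w₂ ≤ rad n e) (hg : g ≤ sig n) :
    16 * (Jn n g * n.choose e) * (2 ^ e + WL n e w₁ w₂ + 1) ≤ Bud n * 2 ^ n := by
  have hn : (0 : ℝ) ≤ n := Nat.cast_nonneg n
  have hg' := N2_g hg
  have hK := N2_K n
  set X : ℝ := (2 : ℝ) ^ (n + 486 * n / 625) with hX
  have hX0 : 0 < X := by positivity
  have hc : ((n.choose e : ℕ) : ℝ) ≤ (2 : ℝ) ^ ((n : ℝ)) := by
    rw [Real.rpow_natCast]
    exact_mod_cast Nat.choose_le_two_pow n e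
  have he2 : ((2 ^ e : ℕ) : ℝ) ≤ (2 : ℝ) ^ ((0.5 : ℝ) * n) := by
    have h2 : 2 * (e : ℝ) ≤ n := by exact_mod_cast he
    push_cast
    rw [← Real.rpow_natCast]
    apply Real.rpow_le_rpow_of_exponent_le (by norm_num)
    linarith
  have t1 : ((2 ^ g : ℕ) : ℝ) * (n.choose e : ℕ) * ((2 ^ e : ℕ) : ℝ) ≤ 2 * X := by
    refine le_trans ?_ hK
    calc ((2 ^ g : ℕ) : ℝ) * (n.choose e : ℕ) * ((2 ^ e : ℕ) : ℝ)
        ≤ (2 : ℝ) ^ ((0.2225 : ℝ) * n) * (2 : ℝ) ^ ((n : ℝ)) * (2 : ℝ) ^ ((0.5 : ℝ) * n) := by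
          gcongr
      _ = (2 : ℝ) ^ ((1.7225 : ℝ) * n) := by
          rw [← Real.rpow_add (by norm_num), ← Real.rpow_add (by norm_num)]
          congr 1; ring
      _ ≤ _ := by
          apply Real.rpow_le_rpow_of_exponent_le (by norm_num)
          nlinarith
  have t2 : ((2 ^ g : ℕ) : ℝ) * ((n.choose e * WL n e w₁ w₂ : ℕ) : ℝ) ≤ 4 * X := by
    have h3 := prod_le he hw
    calc ((2 ^ g : ℕ) : ℝ) * ((n.choose e * WL n e w₁ w₂ : ℕ) : ℝ)
        ≤ (2 : ℝ) ^ ((0.2225 : ℝ) * n) * (2 : ℝ) ^ ((1.5544 : ℝ) * n + 1) := by gcongr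
      _ = 2 * (2 : ℝ) ^ ((1.7769 : ℝ) * n) := by
          rw [← Real.rpow_add (by norm_num)]
          rw [show (0.2225 : ℝ) * n + (1.5544 * n + 1) = 1.7769 * n + 1 by ring,
            Real.rpow_add (by norm_num), Real.rpow_one]
          ring
      _ ≤ 2 * (2 : ℝ) ^ ((1.7776 : ℝ) * n) := by
          have : (2 : ℝ) ^ ((1.7769 : ℝ) * n) ≤ (2 : ℝ) ^ ((1.7776 : ℝ) * n) := by
            apply Real.rpow_le_rpow_of_exponent_le (by norm_num)
            nlinarith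
          linarith
      _ ≤ 4 * X := by linarith
  have t3 : ((2 ^ g : ℕ) : ℝ) * (n.choose e : ℕ) ≤ 2 * X := by
    refine le_trans ?_ t1
    have h1 : (1 : ℝ) ≤ ((2 ^ e : ℕ) : ℝ) := by
      exact_mod_cast Nat.one_le_two_pow
    have h0 : (0 : ℝ) ≤ ((2 ^ g : ℕ) : ℝ) * (n.choose e : ℕ) := by positivity
    nlinarith
  have hfin : ((16 * (Jn n g * n.choose e) * (2 ^ e + WL n e w₁ w₂ + 1) : ℕ) : ℝ) ≤
      ((Bud n * 2 ^ n : ℕ) : ℝ) := by
    have hl : ((16 * (Jn n g * n.choose e) * (2 ^ e + WL n e w₁ w₂ + 1) : ℕ) : ℝ) =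
        1024 * ((n : ℝ) + 1) ^ 2 * (((2 ^ g : ℕ) : ℝ) * (n.choose e : ℕ) * ((2 ^ e : ℕ) : ℝ) +
          ((2 ^ g : ℕ) : ℝ) * ((n.choose e * WL n e w₁ w₂ : ℕ) : ℝ) +
          ((2 ^ g : ℕ) : ℝ) * (n.choose e : ℕ)) := by
      unfold Jn
      push_cast
      ring
    have hr : ((Bud n * 2 ^ n : ℕ) : ℝ) = ((n : ℝ) + 2) ^ 20 * X := by
      unfold Bud
      rw [hX, pow_add]
      push_cast
      ring
    rw [hl, hr]
    have h20 : 8192 * ((n : ℝ) + 1) ^ 2 ≤ ((n : ℝ) + 2) ^ 20 := by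
      have ha : ((n : ℝ) + 1) ^ 2 ≤ ((n : ℝ) + 2) ^ 2 := by
        apply pow_le_pow_left₀ <;> linarith
      have hb : (2 : ℝ) ^ 18 ≤ ((n : ℝ) + 2) ^ 18 := by
        apply pow_le_pow_left₀ <;> linarith
      have hc' : ((n : ℝ) + 2) ^ 20 = ((n : ℝ) + 2) ^ 18 * ((n : ℝ) + 2) ^ 2 := by ring
      rw [hc']
      have hd : (0 : ℝ) ≤ ((n : ℝ) + 1) ^ 2 := by positivity
      calc 8192 * ((n : ℝ) + 1) ^ 2 ≤ 2 ^ 18 * ((n : ℝ) + 1) ^ 2 := by nlinarith
        _ ≤ ((n : ℝ) + 2) ^ 18 * ((n : ℝ) + 2) ^ 2 := by gcongr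
    have hs := add_le_add (add_le_add t1 t2) t3
    calc _ ≤ 1024 * ((n : ℝ) + 1) ^ 2 * (2 * X + 4 * X + 2 * X) := by gcongr
      _ = (8192 * ((n : ℝ) + 1) ^ 2) * X := by ring
      _ ≤ _ := by gcongr
  exact_mod_cast hfin

end Pool.Agent.MPa9445a.SN
end

section

/-! The numerical inequalities. -/

set_option autoImplicit false

open Finset

namespace Pool.Agent.MPa9445a.SN

/-- The budget is sufficient for the enumerations. PROOF. `2^g (a² + 2 c b) ≤ a 2^(n+1) + 2 c 2^(n+1)`, so `2^g (a² + 2 c b) 2^σ ≤ 3 · 2^n · 2^(n+1)` with `σ = sig n = ⌊0.2225 n⌋`.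
`2^(n - σ) ≤ 2 · 2^(0.7775 n) ≤ 4 · 2^K`, `K = ⌊0.7776 n⌋`. So the left side is at most `16 · 64 (n+1)² · 6 · 4 · 2^(n+K)`, and `24576 (n+1)² ≤ (n+2)^20`. -/
theorem num2 {n g a b c : ℕ} (hab : a ≤ b) (ha : a * 2 ^ sig n < 2 ^ n) (hc : c * 2 ^ sig n < 2 ^ n)
    (hb : b * 2 ^ g < 2 ^ (n + 1)) :
    16 * (Jn n g * (a ^ 2 + 2 * (c * b))) ≤ Bud n * 2 ^ n := by
  -- the product with `2 ^ sig n`
  have hσ : n ≤ sig n + (486 * n / 625 + 2) := by unfold sig; omega
  have hpow : 2 ^ n ≤ 2 ^ sig n * (4 * 2 ^ (486 * n / 625)) := by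
    calc 2 ^ n ≤ 2 ^ (sig n + (486 * n / 625 + 2)) := Nat.pow_le_pow_right (by norm_num) hσ
      _ = 2 ^ sig n * (4 * 2 ^ (486 * n / 625)) := by
        rw [pow_add, pow_add]; ring
  have hab' : a * 2 ^ g ≤ 2 ^ (n + 1) := (Nat.mul_le_mul_right _ hab).trans hb.le
  have h1 : 2 ^ g * (a ^ 2 + 2 * (c * b)) ≤ (a + 2 * c) * 2 ^ (n + 1) := by
    calc 2 ^ g * (a ^ 2 + 2 * (c * b)) = a * (a * 2 ^ g) + 2 * c * (b * 2 ^ g) := by ring
      _ ≤ a * 2 ^ (n + 1) + 2 * c * 2 ^ (n + 1) :=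
        Nat.add_le_add (Nat.mul_le_mul_left _ hab') (Nat.mul_le_mul_left _ hb.le)
      _ = (a + 2 * c) * 2 ^ (n + 1) := by ring
  have h2 : 2 ^ sig n * ((a + 2 * c) * 2 ^ (n + 1)) ≤ 3 * 2 ^ n * 2 ^ (n + 1) := by
    calc 2 ^ sig n * ((a + 2 * c) * 2 ^ (n + 1))
        = (a * 2 ^ sig n + 2 * (c * 2 ^ sig n)) * 2 ^ (n + 1) := by ring
      _ ≤ (2 ^ n + 2 * 2 ^ n) * 2 ^ (n + 1) :=
        Nat.mul_le_mul_right _ (Nat.add_le_add ha.le (Nat.mul_le_mul_left _ hc.le))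
      _ = 3 * 2 ^ n * 2 ^ (n + 1) := by ring
  have h3 : 2 ^ sig n * (2 ^ g * (a ^ 2 + 2 * (c * b))) ≤
      2 ^ sig n * (24 * 2 ^ (486 * n / 625) * 2 ^ n) := by
    calc 2 ^ sig n * (2 ^ g * (a ^ 2 + 2 * (c * b)))
        ≤ 2 ^ sig n * ((a + 2 * c) * 2 ^ (n + 1)) := Nat.mul_le_mul_left _ h1
      _ ≤ 3 * 2 ^ n * 2 ^ (n + 1) := h2
      _ ≤ 3 * (2 ^ sig n * (4 * 2 ^ (486 * n / 625))) * 2 ^ (n + 1) :=
        Nat.mul_le_mul_right _ (Nat.mul_le_mul_left _ hpow)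
      _ = 2 ^ sig n * (24 * 2 ^ (486 * n / 625) * 2 ^ n) := by rw [pow_succ]; ring
  have h4 : 2 ^ g * (a ^ 2 + 2 * (c * b)) ≤ 24 * 2 ^ (486 * n / 625) * 2 ^ n :=
    Nat.le_of_mul_le_mul_left h3 (by positivity)
  have h5 : 24576 * (n + 1) ^ 2 ≤ (n + 2) ^ 20 := by
    calc 24576 * (n + 1) ^ 2 ≤ 2 ^ 18 * (n + 2) ^ 2 :=
          Nat.mul_le_mul (by norm_num) (Nat.pow_le_pow_left (by omega) 2)
      _ ≤ (n + 2) ^ 18 * (n + 2) ^ 2 :=
          Nat.mul_le_mul_right _ (Nat.pow_le_pow_left (by omega) 18)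
      _ = (n + 2) ^ 20 := by rw [← pow_add]
  unfold Jn Bud
  calc 16 * (2 ^ g * (64 * (n + 1) ^ 2) * (a ^ 2 + 2 * (c * b)))
      = 1024 * (n + 1) ^ 2 * (2 ^ g * (a ^ 2 + 2 * (c * b))) := by ring
    _ ≤ 1024 * (n + 1) ^ 2 * (24 * 2 ^ (486 * n / 625) * 2 ^ n) := Nat.mul_le_mul_left _ h4
    _ = 24576 * (n + 1) ^ 2 * (2 ^ (486 * n / 625) * 2 ^ n) := by ring
    _ ≤ (n + 2) ^ 20 * (2 ^ (486 * n / 625) * 2 ^ n) := Nat.mul_le_mul_right _ h5
    _ = (n + 2) ^ 20 * 2 ^ (486 * n / 625) * 2 ^ n := by ring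

/-- PROOF. `2^g ≤ 2^n`, `64 = 2^6`, `(n+1)² ≤ 2^(2n)`. -/
theorem Jn_le {n g : ℕ} (hg : g ≤ sig n) : Jn n g ≤ 2 ^ kb n := by
  have hgn : g ≤ n := hg.trans (by unfold sig; omega)
  have h1 : n + 1 ≤ 2 ^ n := Nat.lt_two_pow_self
  unfold Jn kb
  calc 2 ^ g * (64 * (n + 1) ^ 2) ≤ 2 ^ n * (64 * (2 ^ n) ^ 2) :=
        Nat.mul_le_mul (Nat.pow_le_pow_right (by norm_num) hgn)
          (Nat.mul_le_mul_left _ (Nat.pow_le_pow_left h1 2))
    _ = 2 ^ (3 * n + 6) := by rw [pow_add, mul_comm 3 n, pow_mul]; ring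

end Pool.Agent.MPa9445a.SN
end
end
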