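import Pool.Agent.Lib.MP_a9445a_lc.Mg.G130
import Pool.Agent.Lib.MP_a9445a_lc.Mg.G131
import Pool.Agent.Lib.MP_a9445a_lc.Mg.G122
import Pool.Agent.Lib.MP_a9445a_lc.Mg.G120

section

section

/-! The list `Y` contains half of the level. -/

set_option autoImplicit false

open Finset

namespace Pool.Agent.MPa9445a.GL

open Pool.Agent.MPa9445a.SN (Fm rs kb)

variable {n : ℕ}

/-- PROOF. For `y ∈ Lv W r t` let `𝒮 = {X | fl (X ∩ Fr r) y ∈ Lv W r t}`, `#𝒮 * 2 ^ m' = 2 ^ n * N` (`card_fl`, `N = #Lv W r t`). If `y ∉ Yl` then `rs ω κ ∉ 𝒮` for all `κ < K`: by `SN.hit` the number of these `ω` is at most `#Fm / 16`. So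
`∑ ω, #(Lv \ Yl) ≤ N * #Fm / 16`; every bad `ω` contributes at least `N / 2` (`N > 0` by `h16`). -/
theorem Y_lemma {W : Matrix (Fin n) (Fin n) ℤ} {r : Vc n} {t : ℤ} {K : ℕ} (hK : K ≤ 2 ^ kb n)
    (h16 : 16 * 2 ^ (Fr r).card ≤ K * (Lv W r t).card) :
    (univ.filter fun ω : Fm n => ¬ (Lv W r t).card ≤ 2 * (Yl W r t ω K).card).card * 8 ≤
      Fintype.card (Fm n) := by
  have hLS : Lv W r t ⊆ S r := Finset.filter_subset _ _
  have hpow : 0 < 2 ^ (Fr r).card := by positivity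
  have hpn : 0 < 2 ^ n := by positivity
  have hN : 0 < (Lv W r t).card := by
    rcases Nat.eq_zero_or_pos (Lv W r t).card with h | h
    · rw [h, mul_zero] at h16
      omega
    · exact h
  -- one vector
  have hy : ∀ y ∈ Lv W r t, 16 * (univ.filter fun ω : Fm n => y ∉ Yl W r t ω K).card ≤ Fintype.card (Fm n) := by
    intro y hy
    have hyS : y ∈ S r := hLS hy
    have h1 := card_fl hyS hLS
    have h2 := SN.hit (univ.filter fun X => fl (X ∩ Fr r) y ∈ Lv W r t) hK
    have h3 : (univ.filter fun ω : Fm n => y ∉ Yl W r t ω K).card ≤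
        (univ.filter fun ω : Fm n => ∀ i < K, rs ω i ∉ (univ.filter fun X => fl (X ∩ Fr r) y ∈ Lv W r t)).card := by
      refine Finset.card_le_card ?_
      intro ω hω
      rw [Finset.mem_filter] at hω ⊢
      refine ⟨Finset.mem_univ _, ?_⟩
      intro κ hκ hmem
      rw [Finset.mem_filter] at hmem
      apply hω.2
      unfold Yl
      rw [Finset.mem_filter]
      refine ⟨hy, κ, hκ, ?_⟩
      have h4 := hmem.2
      unfold Lv at h4
      rw [Finset.mem_filter] at h4
      exact h4.2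
    have h5 : (univ.filter fun ω : Fm n => y ∉ Yl W r t ω K).card * (K * (Lv W r t).card) * 2 ^ n ≤
        Fintype.card (Fm n) * 2 ^ (Fr r).card * 2 ^ n := by
      calc (univ.filter fun ω : Fm n => y ∉ Yl W r t ω K).card * (K * (Lv W r t).card) * 2 ^ n
          ≤ (univ.filter fun ω : Fm n => ∀ i < K, rs ω i ∉ (univ.filter fun X => fl (X ∩ Fr r) y ∈ Lv W r t)).card *
              (K * (Lv W r t).card) * 2 ^ n := by gcongr
        _ = (univ.filter fun ω : Fm n => ∀ i < K, rs ω i ∉ (univ.filter fun X => fl (X ∩ Fr r) y ∈ Lv W r t)).card *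
              (K * (2 ^ n * (Lv W r t).card)) := by ring
        _ = (univ.filter fun ω : Fm n => ∀ i < K, rs ω i ∉ (univ.filter fun X => fl (X ∩ Fr r) y ∈ Lv W r t)).card *
              (K * (univ.filter fun X => fl (X ∩ Fr r) y ∈ Lv W r t).card) * 2 ^ (Fr r).card := by
            rw [← h1]
            ring
        _ ≤ Fintype.card (Fm n) * 2 ^ n * 2 ^ (Fr r).card := Nat.mul_le_mul_right _ h2
        _ = Fintype.card (Fm n) * 2 ^ (Fr r).card * 2 ^ n := by ring
    have h6 := Nat.le_of_mul_le_mul_right h5 hpn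
    have h7 : (univ.filter fun ω : Fm n => y ∉ Yl W r t ω K).card * (16 * 2 ^ (Fr r).card) ≤
        Fintype.card (Fm n) * 2 ^ (Fr r).card := (Nat.mul_le_mul_left _ h16).trans h6
    refine Nat.le_of_mul_le_mul_right ?_ hpow
    calc 16 * (univ.filter fun ω : Fm n => y ∉ Yl W r t ω K).card * 2 ^ (Fr r).card
        = (univ.filter fun ω : Fm n => y ∉ Yl W r t ω K).card * (16 * 2 ^ (Fr r).card) := by ring
      _ ≤ _ := h7
  -- double counting
  have hsum : ∑ ω : Fm n, ((Lv W r t).filter fun y => y ∉ Yl W r t ω K).card =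
      ∑ y ∈ Lv W r t, (univ.filter fun ω : Fm n => y ∉ Yl W r t ω K).card := by
    simp only [Finset.card_filter]
    exact Finset.sum_comm
  have h8 : 16 * ∑ ω : Fm n, ((Lv W r t).filter fun y => y ∉ Yl W r t ω K).card ≤
      (Lv W r t).card * Fintype.card (Fm n) := by
    rw [hsum, Finset.mul_sum, ← smul_eq_mul (a := (Lv W r t).card)]
    exact Finset.sum_le_card_nsmul _ _ _ hy
  have h9 : (univ.filter fun ω : Fm n => ¬ (Lv W r t).card ≤ 2 * (Yl W r t ω K).card).card * (Lv W r t).card ≤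
      2 * ∑ ω : Fm n, ((Lv W r t).filter fun y => y ∉ Yl W r t ω K).card := by
    rw [Finset.mul_sum, ← smul_eq_mul]
    refine le_trans ?_ (Finset.sum_le_sum_of_subset (Finset.subset_univ
      (univ.filter fun ω : Fm n => ¬ (Lv W r t).card ≤ 2 * (Yl W r t ω K).card)))
    refine Finset.card_nsmul_le_sum _ _ _ ?_
    intro ω hω
    rw [Finset.mem_filter] at hω
    have h10 : ((Lv W r t).filter fun y => y ∈ Yl W r t ω K).card +
        ((Lv W r t).filter fun y => y ∉ Yl W r t ω K).card = (Lv W r t).card :=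
      Finset.card_filter_add_card_filter_not (s := Lv W r t) (fun y => y ∈ Yl W r t ω K)
    have h11 : ((Lv W r t).filter fun y => y ∈ Yl W r t ω K).card ≤ (Yl W r t ω K).card := by
      refine Finset.card_le_card ?_
      intro y hy
      exact (Finset.mem_filter.1 hy).2
    have h12 := hω.2
    omega
  refine Nat.le_of_mul_le_mul_right ?_ hN
  calc (univ.filter fun ω : Fm n => ¬ (Lv W r t).card ≤ 2 * (Yl W r t ω K).card).card * 8 * (Lv W r t).card
      = 8 * ((univ.filter fun ω : Fm n => ¬ (Lv W r t).card ≤ 2 * (Yl W r t ω K).card).card * (Lv W r t).card) := by ring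
    _ ≤ 8 * (2 * ∑ ω : Fm n, ((Lv W r t).filter fun y => y ∉ Yl W r t ω K).card) := Nat.mul_le_mul_left _ h9
    _ = 16 * ∑ ω : Fm n, ((Lv W r t).filter fun y => y ∉ Yl W r t ω K).card := by ring
    _ ≤ (Lv W r t).card * Fintype.card (Fm n) := h8
    _ = Fintype.card (Fm n) * (Lv W r t).card := by ring

end Pool.Agent.MPa9445a.GL
end

section

/-! The identity for the tilted sums. -/

set_option autoImplicit false

open Finset
open scoped symmDiff

namespace Pool.Agent.MPa9445a.GL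

variable {n : ℕ}

private theorem B1_one {W : Matrix (Fin n) (Fin n) ℤ} {s r : Vc n} (hs : St s) (h : Res s r) {p t c : ℤ}
    (hc : 2 * c = p + t) (a : ℤ) {q : ℝ} (hq : 1 ≤ q) {D : Finset (Fin n)} (hD : D ⊆ Fr s) :
    T W (la r D) a (q ^ 2) * T W (rh r D) (c - a) (q ^ 2) =
      ∑ x ∈ (S s).filter (fun x => fl D x ∈ S r), q ^ (Ph W x - p) * q ^ (Ph W (fl D x) - t) := by
  have hq0 : q ≠ 0 := by positivity
  unfold T
  rw [Finset.sum_mul_sum, ← Finset.sum_product']
  refine Finset.sum_nbij' (fun uv => uv.1 + uv.2) (fun x => (on D x, off D x)) ?_ ?_ ?_ ?_ ?_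
  · rintro ⟨u, v⟩ huv
    obtain ⟨hu, hv⟩ := Finset.mem_product.1 huv
    have h1 := on_off_add hu hv
    rw [Finset.mem_filter]
    refine (mem_ch hs h hD (u + v)).2 ?_
    rw [h1.1, h1.2]
    exact ⟨hu, hv⟩
  · intro x hx
    have h1 := (mem_ch hs h hD x).1 (Finset.mem_filter.1 hx)
    exact Finset.mem_product.2 h1
  · rintro ⟨u, v⟩ huv
    obtain ⟨hu, hv⟩ := Finset.mem_product.1 huv
    have h1 := on_off_add hu hv
    exact Prod.ext h1.1 h1.2
  · intro x _
    exact on_add_off D x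
  · rintro ⟨u, v⟩ huv
    obtain ⟨hu, hv⟩ := Finset.mem_product.1 huv
    have h1 := on_off_add hu hv
    have h2 := par (W := W) D (u + v)
    rw [h1.1, h1.2] at h2
    show (q ^ 2) ^ (Ph W u - a) * (q ^ 2) ^ (Ph W v - (c - a)) =
      q ^ (Ph W (u + v) - p) * q ^ (Ph W (fl D (u + v)) - t)
    have hq2 : q ^ 2 ≠ 0 := pow_ne_zero 2 hq0
    rw [← zpow_add₀ hq2, ← zpow_add₀ hq0, ← zpow_natCast q 2, ← zpow_mul]
    congr 1
    push_cast
    linarith

/-- The identity. PROOF. `(q ^ 2) ^ (Ph u - a) * (q ^ 2) ^ (Ph v - b) = q ^ (2 (Ph u + Ph v) - 2 (a + b)) = q ^ (Ph x - p) * q ^ (Ph (fl D x) - t)` for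
`x = u + v` (`par`, `on_off_add`, `mem_ch`). For fixed `D` the product of the sums is the sum over the `x ∈ S s` with `fl D x ∈ S r` of `q ^ (Ph x - p) * q ^ (Ph (fl D x) - t)` (bijection
`(u, v) ↦ u + v`, inverse `x ↦ (on D x, off D x)`). The sum over `D ⊆ Fr s` is the sum over all pairs `(x, y) ∈ S s × S r` (bijection `(D, x) ↦ (x, fl D x)`; inverse: `D` is the set where `x, y` differ, `fl_diff`, `S_Res`). -/
theorem T_mul {W : Matrix (Fin n) (Fin n) ℤ} {s r : Vc n} (hs : St s) (h : Res s r) {p t c : ℤ}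
    (hc : 2 * c = p + t) (a : Finset (Fin n) → ℤ) {q : ℝ} (hq : 1 ≤ q) :
    ∑ D ∈ (Fr s).powerset, T W (la r D) (a D) (q ^ 2) * T W (rh r D) (c - a D) (q ^ 2) =
      T W s p q * T W r t q := by
  have h1 : ∑ D ∈ (Fr s).powerset, T W (la r D) (a D) (q ^ 2) * T W (rh r D) (c - a D) (q ^ 2) =
      ∑ D ∈ (Fr s).powerset, ∑ x ∈ (S s).filter (fun x => fl D x ∈ S r),
        q ^ (Ph W x - p) * q ^ (Ph W (fl D x) - t) :=
    Finset.sum_congr rfl fun D hD => B1_one hs h hc (a D) hq (Finset.mem_powerset.1 hD)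
  rw [h1]
  simp only [Finset.sum_filter]
  rw [Finset.sum_comm]
  unfold T
  rw [Finset.sum_mul_sum]
  refine Finset.sum_congr rfl fun x hx => ?_
  rw [← Finset.sum_filter]
  refine Finset.sum_nbij' (fun D => fl D x) (fun y => univ.filter fun v => x v ≠ y v) ?_ ?_ ?_ ?_ ?_
  · intro D hD
    exact (Finset.mem_filter.1 hD).2
  · intro y hy
    have h2 := fl_diff hx (S_Res h hy)
    rw [Finset.mem_filter, Finset.mem_powerset]
    refine ⟨h2.1, ?_⟩
    rw [h2.2]
    exact hy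
  · intro D hD
    have hD' := Finset.mem_powerset.1 (Finset.mem_filter.1 hD).1
    ext v
    rw [Finset.mem_filter]
    unfold fl
    constructor
    · rintro ⟨_, hv⟩
      by_contra hn
      rw [if_neg hn] at hv
      exact hv rfl
    · intro hv
      refine ⟨Finset.mem_univ v, ?_⟩
      rw [if_pos hv]
      have h2 := (mem_S.1 hx v).1 (mem_Fr.1 (hD' hv))
      rcases h2 with h2 | h2 <;> rw [h2] <;> decide
  · intro y hy
    exact (fl_diff hx (S_Res h hy)).2
  · intro D _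
    rfl

end Pool.Agent.MPa9445a.GL
end

section

/-! Sums of powers over all sets `D`. -/

set_option autoImplicit false

open Finset

namespace Pool.Agent.MPa9445a.GL

variable {n : ℕ}

theorem γ_one (k : ℕ) : 1 ≤ γ k := by
  induction k with
  | zero => simp only [γ]; norm_num
  | succ k ih =>
    simp only [γ]
    rw [Real.one_le_sqrt]
    linarith

theorem γ_sq (k : ℕ) : γ (k + 1) ^ 2 = 1 + γ k := by
  simp only [γ]
  exact Real.sq_sqrt (by linarith [γ_one k])

theorem two_le_γ_sq (k : ℕ) : 2 ≤ γ (k + 1) ^ 2 := by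
  rw [γ_sq]
  linarith [γ_one k]

/-- The sum over all subsets of `V` of `g ^ #(D ∩ U)`. -/
private theorem B2_sum {V U : Finset (Fin n)} {g : ℝ} (hg : 1 ≤ g) :
    ∑ D ∈ V.powerset, g ^ (D ∩ U).card ≤ (1 + g) ^ V.card := by
  have h1 : ∀ D : Finset (Fin n), g ^ (D ∩ U).card = ∏ v ∈ D, (if v ∈ U then g else 1) := by
    intro D
    rw [Finset.prod_ite, Finset.prod_const_one, mul_one, Finset.prod_const,
      Finset.filter_mem_eq_inter]
  rw [Finset.sum_congr rfl fun D _ => h1 D, ← Finset.prod_one_add]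
  calc ∏ v ∈ V, (1 + if v ∈ U then g else 1) ≤ ∏ _v ∈ V, (1 + g) := by
        apply Finset.prod_le_prod
        · intro v _
          split_ifs <;> linarith
        · intro v _
          split_ifs <;> linarith
    _ = (1 + g) ^ V.card := by rw [Finset.prod_const]

/-- PROOF. The sum is `2 ^ (m - m') * (1 + g) ^ m'` with `m = #Fr s`, `m' = #Fr r` (binomial theorem: `Finset.prod_add`/`Finset.sum_pow_mul_eq_add_pow`; or `∑ D ∈ powerset, ∏ v ∈ D, (if v ∈ Fr r then g else 1) = ∏ v ∈ Fr s, (1 + …)` by `Finset.prod_one_add`), and `2 ≤ 1 + g`. -/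
theorem sum_la {s r : Vc n} (hs : St s) (h : Res s r) {g : ℝ} (hg : 1 ≤ g) :
    ∑ D ∈ (Fr s).powerset, g ^ (Fr (la r D)).card ≤ (1 + g) ^ (Fr s).card := by
  have h1 : ∀ D : Finset (Fin n), Fr (la r D) = D ∩ Fr r := fun D => Fr_la (St_Res hs h) D
  simp only [h1]
  exact B2_sum hg

/-- PROOF. As `sum_la`; or from it with `D ↦ Fr s \ D`. -/
theorem sum_rh {s r : Vc n} (hs : St s) (h : Res s r) {g : ℝ} (hg : 1 ≤ g) :
    ∑ D ∈ (Fr s).powerset, g ^ (Fr (rh r D)).card ≤ (1 + g) ^ (Fr s).card := by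
  have hsub : Fr r ⊆ Fr s := Fr_Res h
  have h1 : ∑ D ∈ (Fr s).powerset, g ^ (Fr (rh r D)).card =
      ∑ D ∈ (Fr s).powerset, g ^ (D ∩ Fr r).card := by
    refine Finset.sum_nbij' (fun D => Fr s \ D) (fun D => Fr s \ D) ?_ ?_ ?_ ?_ ?_
    · intro D _
      exact Finset.mem_powerset.2 Finset.sdiff_subset
    · intro D _
      exact Finset.mem_powerset.2 Finset.sdiff_subset
    · intro D hD
      exact Finset.sdiff_sdiff_eq_self (Finset.mem_powerset.1 hD)
    · intro D hD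
      exact Finset.sdiff_sdiff_eq_self (Finset.mem_powerset.1 hD)
    · intro D _
      rw [Fr_rh]
      congr 2
      ext v
      simp only [Finset.mem_sdiff, Finset.mem_inter]
      constructor
      · rintro ⟨ha, hb⟩
        exact ⟨⟨hsub ha, hb⟩, ha⟩
      · rintro ⟨⟨_, hb⟩, ha⟩
        exact ⟨ha, hb⟩
  rw [h1]
  exact B2_sum hg

end Pool.Agent.MPa9445a.GL
end

section

/-! The cost of a pair. -/

set_option autoImplicit false

open Finset

namespace Pool.Agent.MPa9445a.GL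

variable {n : ℕ}

theorem Lv_le_S (W : Matrix (Fin n) (Fin n) ℤ) (s : Vc n) (p : ℤ) :
    (Lv W s p).card ≤ 2 ^ (Fr s).card := by
  rw [← card_S s]
  exact card_le_card (filter_subset _ _)

/-- With the budget `2 ^ #Fr s` the procedure succeeds. PROOF. Cases on `k`. -/
theorem Ok_of_le (W : Matrix (Fin n) (Fin n) ℤ) {k : ℕ} (ω : Sds n k) (s : Vc n) (p : ℤ) {B : ℕ}
    (h : 2 ^ (Fr s).card ≤ B) : Ok W k ω s p B := by
  cases k with
  | zero => exact h
  | succ k => exact Or.inl h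

private theorem C1_Fr_le (s : Vc n) : (Fr s).card ≤ n := by
  calc (Fr s).card ≤ (univ : Finset (Fin n)).card := card_le_card (subset_univ _)
    _ = n := by simp

/-- The pair is finished with the budget `4 ^ n = 2 ^ (2 n)`. -/
theorem PairOk_max (W : Matrix (Fin n) (Fin n) ℤ) {k : ℕ} (ω : Sds n k) (l : Vc n) (a : ℤ) (r : Vc n)
    (b : ℤ) : PairOk W (Ok W k ω) l a r b (2 * n) := by
  have h1 : ∀ s : Vc n, 2 ^ (Fr s).card ≤ 2 ^ (2 * n) := fun s =>
    Nat.pow_le_pow_right (by norm_num) (by have := C1_Fr_le s; omega)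
  refine Or.inr (Or.inr ⟨Ok_of_le W ω l a (h1 l), Ok_of_le W ω r b (h1 r), ?_⟩)
  calc (Lv W l a).card * (Lv W r b).card ≤ 2 ^ (Fr l).card * 2 ^ (Fr r).card :=
        Nat.mul_le_mul (Lv_le_S W l a) (Lv_le_S W r b)
    _ ≤ 2 ^ n * 2 ^ n := Nat.mul_le_mul (Nat.pow_le_pow_right (by norm_num) (C1_Fr_le l))
        (Nat.pow_le_pow_right (by norm_num) (C1_Fr_le r))
    _ = 2 ^ (2 * n) := by rw [← pow_add]; congr 1; omega

/-- `pc` is the least power of two which is sufficient. -/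
theorem pc_spec (W : Matrix (Fin n) (Fin n) ℤ) {k : ℕ} (ω : Sds n k) (l : Vc n) (a : ℤ) (r : Vc n)
    (b : ℤ) : ∃ j ≤ 2 * n, pc W (Ok W k ω) l a r b = 2 ^ j ∧ PairOk W (Ok W k ω) l a r b j ∧
      ∀ i < j, ¬ PairOk W (Ok W k ω) l a r b i := by
  classical
  have h : ∃ j, PairOk W (Ok W k ω) l a r b j := ⟨_, PairOk_max W ω l a r b⟩
  refine ⟨Nat.find h, Nat.find_min' h (PairOk_max W ω l a r b), ?_, Nat.find_spec h,
    fun i hi => Nat.find_min h hi⟩
  unfold pc
  rw [dif_pos h]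

theorem pc_le_of (W : Matrix (Fin n) (Fin n) ℤ) {k : ℕ} (ω : Sds n k) {l : Vc n} {a : ℤ} {r : Vc n}
    {b : ℤ} {j : ℕ} (h : PairOk W (Ok W k ω) l a r b j) : pc W (Ok W k ω) l a r b ≤ 2 ^ j := by
  obtain ⟨i, -, h1, -, h3⟩ := pc_spec W ω l a r b
  rw [h1]
  refine Nat.pow_le_pow_right (by norm_num) ?_
  by_contra hc
  exact h3 j (not_le.1 hc) h

private theorem C1_pl (n : ℕ) : ∀ k, 1 ≤ pl n k
  | 0 => le_rfl
  | k + 1 => by
    have h := C1_pl n k
    have h2 : 1 ≤ (n + 2) ^ 60 := Nat.one_le_pow _ _ (by omega)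
    have h3 : 1 ≤ 2 ^ 20 * (n + 2) ^ 60 := by
      calc 1 ≤ (n + 2) ^ 60 := h2
        _ ≤ 2 ^ 20 * (n + 2) ^ 60 := Nat.le_mul_of_pos_left _ (by norm_num)
    show 1 ≤ 2 ^ 20 * (n + 2) ^ 60 * pl n k
    exact Nat.one_le_iff_ne_zero.2 (Nat.mul_ne_zero (by omega) (by omega))

/-- The main bound. PROOF. Let `X = pl n k * (γ k ^ #Fr l + γ k ^ #Fr r + T l a q * T r b q) ≥ 1`; there is `j` with `X < 2 ^ (j + 1) ≤ 2 X` (`exists_nat_pow_near`).
Claim: `PairOk … (j + 1)`. If all values of `r` are smaller than `b` then by `T_empty` and `Good` (`pl n k * max (γ k ^ #Fr r) 1 ≤ X`) the right child succeeds, and `Lv W r b = ∅`.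
The same for `l`, `a`. Otherwise both sums are at least `1` (`one_le_T`), so `T l a q ≤ T l a q * T r b q` and `T r b q ≤ T l a q * T r b q`: both children succeed, and
`#Lv l a * #Lv r b ≤ T l a q * T r b q ≤ X` (`Lv_le_T`). -/
theorem pc_le {W : Matrix (Fin n) (Fin n) ℤ} {k : ℕ} {ω : Sds n k} (hG : Good W k ω) {l r : Vc n}
    (hl : St l) (hr : St r) {a b : ℤ} (ha : a ∈ lvl n) (hb : b ∈ lvl n) {q : ℝ} (hq : 1 ≤ q) :
    (pc W (Ok W k ω) l a r b : ℝ) ≤
      2 * (pl n k * (γ k ^ (Fr l).card + γ k ^ (Fr r).card + T W l a q * T W r b q)) := by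
  obtain ⟨P, hP⟩ : ∃ P : ℝ, P = (pl n k : ℝ) := ⟨_, rfl⟩
  have hP1 : 1 ≤ P := by rw [hP]; exact_mod_cast C1_pl n k
  obtain ⟨gl, hgl⟩ : ∃ g : ℝ, g = γ k ^ (Fr l).card := ⟨_, rfl⟩
  obtain ⟨gr, hgr⟩ : ∃ g : ℝ, g = γ k ^ (Fr r).card := ⟨_, rfl⟩
  have hgl1 : 1 ≤ gl := by rw [hgl]; exact one_le_pow₀ (γ_one k)
  have hgr1 : 1 ≤ gr := by rw [hgr]; exact one_le_pow₀ (γ_one k)
  have hTl : 0 ≤ T W l a q := T_nonneg W l a hq
  have hTr : 0 ≤ T W r b q := T_nonneg W r b hq
  have hTT : 0 ≤ T W l a q * T W r b q := mul_nonneg hTl hTr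
  rw [← hP, ← hgl, ← hgr]
  obtain ⟨X, hX⟩ : ∃ X : ℝ, X = P * (gl + gr + T W l a q * T W r b q) := ⟨_, rfl⟩
  rw [← hX]
  have hle : ∀ y : ℝ, y ≤ gl + gr + T W l a q * T W r b q → P * y ≤ X := fun y hy => by
    rw [hX]; exact mul_le_mul_of_nonneg_left hy (by linarith)
  have hX1 : 1 ≤ X := by
    have := hle 1 (by linarith)
    linarith
  obtain ⟨j, hj1, hj2⟩ := exists_nat_pow_near hX1 (by norm_num : (1 : ℝ) < 2)
  have hXj : X ≤ ((2 ^ (j + 1) : ℕ) : ℝ) := by push_cast; exact hj2.le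
  have hok : PairOk W (Ok W k ω) l a r b (j + 1) := by
    by_cases h1 : ∃ x ∈ S r, b ≤ Ph W x
    · by_cases h2 : ∃ x ∈ S l, a ≤ Ph W x
      · have t1 := one_le_T W hq h1
        have t2 := one_le_T W hq h2
        have t3 : T W l a q ≤ T W l a q * T W r b q := le_mul_of_one_le_right hTl t1
        have t4 : T W r b q ≤ T W l a q * T W r b q := le_mul_of_one_le_left hTr t2
        refine Or.inr (Or.inr ⟨hG l hl a ha _ q hq ?_, hG r hr b hb _ q hq ?_, ?_⟩)
        · rw [← hP, ← hgl]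
          exact (hle _ (max_le (by linarith) (by linarith))).trans hXj
        · rw [← hP, ← hgr]
          exact (hle _ (max_le (by linarith) (by linarith))).trans hXj
        · have h3 : (((Lv W l a).card * (Lv W r b).card : ℕ) : ℝ) ≤ ((2 ^ (j + 1) : ℕ) : ℝ) := by
            refine le_trans ?_ hXj
            push_cast
            calc ((Lv W l a).card : ℝ) * (Lv W r b).card ≤ T W l a q * T W r b q :=
                  mul_le_mul (Lv_le_T W l a hq) (Lv_le_T W r b hq) (Nat.cast_nonneg _) hTl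
              _ ≤ P * (T W l a q * T W r b q) := le_mul_of_one_le_left hTT hP1
              _ ≤ X := hle _ (by linarith)
          exact_mod_cast h3
      · push Not at h2
        obtain ⟨q', hq', ht⟩ := T_empty W h2
        refine Or.inl ⟨hG l hl a ha _ q' hq' ?_, ?_⟩
        · rw [← hP, ← hgl]
          exact (hle _ (max_le (by linarith) (by linarith))).trans hXj
        · unfold Lv
          rw [filter_eq_empty_iff]
          intro x hx hx'
          have := h2 x hx
          omega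
    · push Not at h1
      obtain ⟨q', hq', ht⟩ := T_empty W h1
      refine Or.inr (Or.inl ⟨hG r hr b hb _ q' hq' ?_, ?_⟩)
      · rw [← hP, ← hgr]
        exact (hle _ (max_le (by linarith) (by linarith))).trans hXj
      · unfold Lv
        rw [filter_eq_empty_iff]
        intro x hx hx'
        have := h1 x hx
        omega
  have h4 : ((pc W (Ok W k ω) l a r b : ℕ) : ℝ) ≤ ((2 ^ (j + 1) : ℕ) : ℝ) := by
    exact_mod_cast pc_le_of W ω hok
  refine h4.trans ?_
  push_cast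
  rw [pow_succ]
  linarith

end Pool.Agent.MPa9445a.GL
end

section

/-! Two stages; the choice of the parameters. -/

set_option autoImplicit false

open Finset

namespace Pool.Agent.MPa9445a.GL

variable {n : ℕ}

open scoped Classical in
/-- PROOF. `filter_prod`; the `x` with `¬ G x` contribute at most `card Y` each, the others at most `β * card Y` each. -/
theorem stage {X Y : Type} [Fintype X] [Fintype Y] (P : X × Y → Prop) (G : X → Prop) {α β : ℝ}
    (hβ : 0 ≤ β) (h1 : ((univ.filter fun x => ¬ G x).card : ℝ) ≤ α * Fintype.card X)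
    (h2 : ∀ x, G x → ((univ.filter fun y => ¬ P (x, y)).card : ℝ) ≤ β * Fintype.card Y) :
    ((univ.filter fun z => ¬ P z).card : ℝ) ≤ (α + β) * (Fintype.card X * Fintype.card Y) := by
  have e : (univ.filter fun z : X × Y => ¬ P z).card = ∑ x : X, (univ.filter fun y : Y => ¬ P (x, y)).card := by
    convert filter_prod (X := X) (Y := Y) (fun z => ¬ P z)
  rw [e]
  push_cast
  have hY : (0 : ℝ) ≤ Fintype.card Y := Nat.cast_nonneg _
  have hX : (0 : ℝ) ≤ Fintype.card X := Nat.cast_nonneg _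
  have hstep : ∀ x : X, ((univ.filter fun y : Y => ¬ P (x, y)).card : ℝ) ≤
      (if ¬ G x then (Fintype.card Y : ℝ) else 0) + β * Fintype.card Y := by
    intro x
    by_cases hG : G x
    · rw [if_neg (not_not.2 hG), zero_add]
      exact h2 x hG
    · rw [if_pos hG]
      have h3 : ((univ.filter fun y : Y => ¬ P (x, y)).card : ℝ) ≤ Fintype.card Y := by
        exact_mod_cast Finset.card_le_univ _
      have h4 : 0 ≤ β * Fintype.card Y := mul_nonneg hβ hY
      linarith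
  refine (Finset.sum_le_sum fun x _ => hstep x).trans ?_
  rw [Finset.sum_add_distrib, ← Finset.sum_filter, Finset.sum_const, Finset.sum_const, nsmul_eq_mul, nsmul_eq_mul,
    Finset.card_univ]
  have h5 := mul_le_mul_of_nonneg_right h1 hY
  calc ((univ.filter fun x => ¬ G x).card : ℝ) * Fintype.card Y + Fintype.card X * (β * Fintype.card Y)
      ≤ α * Fintype.card X * Fintype.card Y + Fintype.card X * (β * Fintype.card Y) := by linarith
    _ = (α + β) * (Fintype.card X * Fintype.card Y) := by ring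

/-- PROOF. `J = 32 * 2 ^ m / N + 1`. -/
theorem ex_J {N m : ℕ} (hN : 1 ≤ N) (hm : N ≤ 2 ^ m) :
    ∃ J, 32 * 2 ^ m ≤ J * N ∧ J * N ≤ 64 * 2 ^ m := by
  refine ⟨32 * 2 ^ m / N + 1, ?_, ?_⟩
  · have h1 := Nat.div_add_mod (32 * 2 ^ m) N
    have h2 := Nat.mod_lt (32 * 2 ^ m) hN
    have h3 : (32 * 2 ^ m / N + 1) * N = N * (32 * 2 ^ m / N) + N := by ring
    omega
  · have h1 := Nat.div_mul_le_self (32 * 2 ^ m) N
    have h3 : (32 * 2 ^ m / N + 1) * N = 32 * 2 ^ m / N * N + N := by ring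
    omega

/-- PROOF. The least `e` with `16 * 2 ^ m ≤ 2 ^ e * N`. -/
theorem ex_e {N m : ℕ} (hN : 1 ≤ N) (hm : N ≤ 2 ^ m) :
    ∃ e, 16 * 2 ^ m ≤ 2 ^ e * N ∧ 2 ^ e * N ≤ 32 * 2 ^ m := by
  have hex : ∃ e, 16 * 2 ^ m ≤ 2 ^ e * N := by
    refine ⟨4 + m, ?_⟩
    calc 16 * 2 ^ m = 2 ^ (4 + m) * 1 := by
          rw [pow_add]
          norm_num
      _ ≤ 2 ^ (4 + m) * N := Nat.mul_le_mul_left _ hN
  refine ⟨Nat.find hex, Nat.find_spec hex, ?_⟩
  rcases h : Nat.find hex with _ | e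
  · rw [pow_zero, one_mul]
    omega
  · have h1 : ¬ 16 * 2 ^ m ≤ 2 ^ e * N := Nat.find_min hex (by omega)
    rw [pow_succ]
    have h2 : 2 ^ e * 2 * N = 2 * (2 ^ e * N) := by ring
    omega

/-- PROOF. `hi s 0 = Fr s`, `hi s n = ∅`, `#hi s j ≤ #hi s (j + 1) + 1`, `#lo s j + #hi s j = #Fr s`. Take the least `j ≤ n` with `2 ^ #hi ≤ y`: `j = 0` (then `#lo = 0`), or `y < 2 ^ #hi s (j - 1) ≤ 2 * 2 ^ #hi s j`. -/
theorem ex_j (s : Vc n) {y : ℕ} (hy : 1 ≤ y) (hm : y ≤ 2 ^ (Fr s).card) :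
    ∃ j ≤ n, 2 ^ (hi s j).card ≤ y ∧ 2 ^ (lo s j).card * y ≤ 2 * 2 ^ (Fr s).card := by
  have hn : 2 ^ (hi s n).card ≤ y := by
    have h1 : hi s n = ∅ := by
      unfold hi
      rw [Finset.filter_eq_empty_iff]
      intro v _ hv
      exact absurd v.2 (not_lt.2 hv)
    rw [h1, Finset.card_empty, pow_zero]
    exact hy
  have hsum : ∀ j, (lo s j).card + (hi s j).card = (Fr s).card := by
    intro j
    unfold lo hi
    rw [← Finset.card_filter_add_card_filter_not (s := Fr s) (fun v : Fin n => (v : ℕ) < j)]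
    congr 2
    refine Finset.filter_congr ?_
    intro v _
    exact not_lt.symm
  have hstep : ∀ j, (hi s j).card ≤ (hi s (j + 1)).card + 1 := by
    intro j
    by_cases hj : j < n
    · have h1 : hi s j ⊆ insert (⟨j, hj⟩ : Fin n) (hi s (j + 1)) := by
        intro v hv
        unfold hi at hv ⊢
        rw [Finset.mem_filter] at hv
        rw [Finset.mem_insert, Finset.mem_filter]
        rcases Nat.lt_or_ge j (v : ℕ) with h | h
        · exact Or.inr ⟨hv.1, h⟩
        · exact Or.inl (Fin.ext (le_antisymm h hv.2))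
      exact (Finset.card_le_card h1).trans (Finset.card_insert_le _ _)
    · have h1 : hi s j = ∅ := by
        unfold hi
        rw [Finset.filter_eq_empty_iff]
        intro v _ hv
        have := v.2
        omega
      rw [h1, Finset.card_empty]
      exact Nat.zero_le _
  have hex : ∃ j, 2 ^ (hi s j).card ≤ y := ⟨n, hn⟩
  refine ⟨Nat.find hex, Nat.find_min' hex hn, Nat.find_spec hex, ?_⟩
  rcases h : Nat.find hex with _ | j
  · have h1 : lo s 0 = ∅ := by
      unfold lo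
      rw [Finset.filter_eq_empty_iff]
      intro v _ hv
      exact absurd hv (Nat.not_lt_zero _)
    rw [h1, Finset.card_empty, pow_zero, one_mul]
    omega
  · have h1 : ¬ 2 ^ (hi s j).card ≤ y := Nat.find_min hex (by omega)
    have h2 : y ≤ 2 ^ (hi s j).card := by omega
    have h3 : 2 ^ (hi s j).card ≤ 2 ^ ((hi s (j + 1)).card + 1) := Nat.pow_le_pow_right (by norm_num) (hstep j)
    calc 2 ^ (lo s (j + 1)).card * y ≤ 2 ^ (lo s (j + 1)).card * 2 ^ ((hi s (j + 1)).card + 1) :=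
          Nat.mul_le_mul_left _ (h2.trans h3)
      _ = 2 * 2 ^ ((lo s (j + 1)).card + (hi s (j + 1)).card) := by
          rw [pow_succ, pow_add]
          ring
      _ = 2 * 2 ^ (Fr s).card := by rw [hsum]

end Pool.Agent.MPa9445a.GL
end
end

section

/-! The golden ratio. -/

set_option autoImplicit false

namespace Pool.Agent.MPa9445a.GL

/-- PROOF. `φ ^ 2 = φ + 1`, so `(γ (k + 1) - φ) * (γ (k + 1) + φ) = γ k - φ` and `γ (k + 1) + φ ≥ 2`; induction. -/
theorem γ_golden (k : ℕ) : Real.goldenRatio ≤ γ k ∧ (γ k - Real.goldenRatio) * 2 ^ k ≤ 2 := by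
  have hφ : (Real.goldenRatio : ℝ) ^ 2 = Real.goldenRatio + 1 := Real.goldenRatio_sq
  have hφ1 : (1 : ℝ) < Real.goldenRatio := Real.one_lt_goldenRatio
  have hφ2 : (Real.goldenRatio : ℝ) < 2 := Real.goldenRatio_lt_two
  induction k with
  | zero =>
    have h0 : γ 0 = 2 := rfl
    rw [h0]
    constructor
    · exact hφ2.le
    · simp only [pow_zero, mul_one]
      linarith
  | succ k ih =>
    obtain ⟨ih1, ih2⟩ := ih
    have h1 := γ_sq k
    have h2 := γ_one (k + 1)
    have h3 : Real.goldenRatio ≤ γ (k + 1) := by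
      by_contra h
      push Not at h
      nlinarith
    refine ⟨h3, ?_⟩
    have h4 : (γ (k + 1) - Real.goldenRatio) * (γ (k + 1) + Real.goldenRatio) = γ k - Real.goldenRatio := by
      nlinarith
    have h5 : (γ (k + 1) - Real.goldenRatio) * 2 ≤ γ k - Real.goldenRatio := by
      rw [← h4]
      apply mul_le_mul_of_nonneg_left _ (by linarith)
      linarith
    have h6 : (γ (k + 1) - Real.goldenRatio) * 2 ^ (k + 1) = ((γ (k + 1) - Real.goldenRatio) * 2) * 2 ^ k := by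
      ring
    rw [h6]
    refine le_trans (mul_le_mul_of_nonneg_right h5 (by positivity)) ih2

/-- PROOF. `γ k → φ < 2 ^ c`. -/
theorem γ_lim {c : ℝ} (hc : Real.logb 2 Real.goldenRatio < c) : ∃ k, γ (k + 1) < 2 ^ c := by
  have h1 : Real.goldenRatio < 2 ^ c :=
    (Real.logb_lt_iff_lt_rpow (by norm_num) Real.goldenRatio_pos).1 hc
  have hε : 0 < (2 ^ c - Real.goldenRatio) / 2 := by linarith
  obtain ⟨k, hk⟩ := exists_pow_lt_of_lt_one hε (by norm_num : (1 / 2 : ℝ) < 1)
  refine ⟨k, ?_⟩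
  have h2 := (γ_golden (k + 1)).2
  have h3 : (0 : ℝ) < 2 ^ (k + 1) := by positivity
  have h4 : (1 / 2 : ℝ) ^ k * 2 ^ (k + 1) = 2 := by
    rw [pow_succ, ← mul_assoc, ← mul_pow]
    norm_num
  have h5 : γ (k + 1) - Real.goldenRatio ≤ (1 / 2 : ℝ) ^ k := by
    have h6 : (γ (k + 1) - Real.goldenRatio) * 2 ^ (k + 1) ≤ (1 / 2 : ℝ) ^ k * 2 ^ (k + 1) := by
      rw [h4]; exact h2
    exact le_of_mul_le_mul_right h6 h3
  have h7 : (0 : ℝ) < (1 / 2 : ℝ) ^ k := by positivity
  linarith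

private theorem U2_poly (d : ℕ) {ρ : ℝ} (hρ : 1 < ρ) : ∃ C : ℝ, 0 < C ∧ ∀ n : ℕ, ((n : ℝ) + 2) ^ d ≤ C * ρ ^ n := by
  have h := tendsto_pow_const_div_const_pow_of_one_lt d hρ
  obtain ⟨M, hM⟩ := h.bddAbove_range
  have hρ0 : 0 < ρ := by linarith
  refine ⟨(|M| + 1) * ρ ^ 2, by positivity, fun n => ?_⟩
  have h1 : ((n + 2 : ℕ) : ℝ) ^ d / ρ ^ (n + 2) ≤ M := hM ⟨n + 2, rfl⟩
  have h2 : (0 : ℝ) < ρ ^ (n + 2) := by positivity
  rw [div_le_iff₀ h2] at h1
  have h3 : ((n + 2 : ℕ) : ℝ) = (n : ℝ) + 2 := by push_cast; ring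
  rw [h3] at h1
  calc ((n : ℝ) + 2) ^ d ≤ M * ρ ^ (n + 2) := h1
    _ ≤ (|M| + 1) * ρ ^ (n + 2) := by
        apply mul_le_mul_of_nonneg_right _ h2.le
        linarith [le_abs_self M]
    _ = (|M| + 1) * ρ ^ 2 * ρ ^ n := by ring

private theorem U2_pl (n k : ℕ) : (pl n k : ℝ) = 2 ^ (20 * k) * ((n : ℝ) + 2) ^ (60 * k) := by
  induction k with
  | zero => simp [pl]
  | succ k ih =>
    have h : pl n (k + 1) = 2 ^ 20 * (n + 2) ^ 60 * pl n k := rfl
    rw [h]
    push_cast
    rw [ih]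
    ring

/-- The budget. PROOF. Choose `k` by `γ_lim` and a rational number `P / Q` with `Real.logb 2 (γ (k + 1)) < P / Q < c`. `pl n (k + 1)` is a polynomial in `n`, so `pl n (k + 1) * γ (k + 1) ^ n ≤ C' * 2 ^ (P / Q * n)`; take `c₁` with `2 C' ≤ 2 ^ c₁` (floor division). In the last statement the polynomial is absorbed by the gap `c - P / Q > 0`. -/
theorem budget {c : ℝ} (hc : Real.logb 2 Real.goldenRatio < c) : ∃ k P Q c₁ : ℕ, 0 < Q ∧
    (∀ n : ℕ, (pl n (k + 1) : ℝ) * γ (k + 1) ^ n ≤ 2 ^ (P * n / Q + c₁)) ∧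
    ∀ d : ℕ, ∃ C : ℝ, ∀ n : ℕ, ((n : ℝ) + 2) ^ d * 2 ^ (P * n / Q + c₁) ≤ C * 2 ^ (c * n) := by
  obtain ⟨k, hk⟩ := γ_lim hc
  have hγ1 : 1 ≤ γ (k + 1) := γ_one (k + 1)
  have hγ0 : 0 < γ (k + 1) := by linarith
  have hlog : Real.logb 2 (γ (k + 1)) < c := (Real.logb_lt_iff_lt_rpow (by norm_num) hγ0).2 hk
  obtain ⟨q, hq1, hq2⟩ := exists_rat_btwn hlog
  have hlog0 : 0 ≤ Real.logb 2 (γ (k + 1)) := Real.logb_nonneg (by norm_num) hγ1
  have hq0 : (0 : ℝ) < q := lt_of_le_of_lt hlog0 hq1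
  have hq0' : 0 < q := by exact_mod_cast hq0
  have hQ : 0 < q.den := q.den_pos
  have hP : ((q.num.toNat : ℕ) : ℤ) = q.num := Int.toNat_of_nonneg (Rat.num_nonneg.2 hq0'.le)
  have hQ' : (0 : ℝ) < (q.den : ℝ) := by exact_mod_cast hQ
  have hPQ : ((q.num.toNat : ℕ) : ℝ) / (q.den : ℝ) = (q : ℝ) := by
    have h1 : ((q.num.toNat : ℕ) : ℝ) = ((q.num : ℤ) : ℝ) := by
      exact_mod_cast congrArg (fun z : ℤ => (z : ℝ)) hP
    rw [h1]
    exact (Rat.cast_def q).symm
  set P := q.num.toNat with hPdef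
  set Q := q.den with hQdef
  have hγq : γ (k + 1) < 2 ^ (q : ℝ) := (Real.logb_lt_iff_lt_rpow (by norm_num) hγ0).1 hq1
  have h2q : (0 : ℝ) < 2 ^ (q : ℝ) := by positivity
  -- floor division
  have hfl1 : ∀ n : ℕ, (2 : ℝ) ^ (P * n / Q) ≤ (2 ^ (q : ℝ)) ^ n := by
    intro n
    rw [← Real.rpow_natCast 2 (P * n / Q), ← Real.rpow_mul_natCast (by norm_num)]
    apply Real.rpow_le_rpow_of_exponent_le (by norm_num)
    rw [← hPQ]
    calc ((P * n / Q : ℕ) : ℝ) ≤ ((P * n : ℕ) : ℝ) / (Q : ℝ) := Nat.cast_div_le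
      _ = (P : ℝ) / Q * n := by push_cast; ring
  have hfl2 : ∀ n : ℕ, ((2 : ℝ) ^ (q : ℝ)) ^ n ≤ 2 * 2 ^ (P * n / Q) := by
    intro n
    have h1 : (2 : ℝ) * 2 ^ (P * n / Q) = 2 ^ (((P * n / Q + 1 : ℕ) : ℝ)) := by
      rw [Real.rpow_natCast]
      ring
    rw [h1, ← Real.rpow_mul_natCast (by norm_num)]
    apply Real.rpow_le_rpow_of_exponent_le (by norm_num)
    rw [← hPQ]
    have h2 : (P : ℝ) / Q * n = ((P * n : ℕ) : ℝ) / (Q : ℝ) := by push_cast; ring
    rw [h2, div_le_iff₀ hQ']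
    have h3 : P * n < (P * n / Q + 1) * Q := by
      have h4 := Nat.div_add_mod (P * n) Q
      have h5 := Nat.mod_lt (P * n) hQ
      nlinarith
    exact_mod_cast h3.le
  -- first bound
  have hρ : 1 < (2 : ℝ) ^ (q : ℝ) / γ (k + 1) := by
    rw [one_lt_div hγ0]
    exact hγq
  obtain ⟨C1, hC1, hC1'⟩ := U2_poly (60 * (k + 1)) hρ
  obtain ⟨c₁, hc₁⟩ := pow_unbounded_of_one_lt (2 * (2 ^ (20 * (k + 1)) * C1)) (by norm_num : (1 : ℝ) < 2)
  refine ⟨k, P, Q, c₁, hQ, ?_, ?_⟩
  · intro n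
    rw [U2_pl]
    have h1 := hC1' n
    rw [div_pow] at h1
    have h2 : (0 : ℝ) < γ (k + 1) ^ n := by positivity
    have h3 : ((n : ℝ) + 2) ^ (60 * (k + 1)) * γ (k + 1) ^ n ≤ C1 * (2 ^ (q : ℝ)) ^ n := by
      calc ((n : ℝ) + 2) ^ (60 * (k + 1)) * γ (k + 1) ^ n
          ≤ (C1 * ((2 ^ (q : ℝ)) ^ n / γ (k + 1) ^ n)) * γ (k + 1) ^ n :=
            mul_le_mul_of_nonneg_right h1 h2.le
        _ = C1 * (2 ^ (q : ℝ)) ^ n := by
            field_simp
    calc 2 ^ (20 * (k + 1)) * ((n : ℝ) + 2) ^ (60 * (k + 1)) * γ (k + 1) ^ n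
        = 2 ^ (20 * (k + 1)) * (((n : ℝ) + 2) ^ (60 * (k + 1)) * γ (k + 1) ^ n) := by ring
      _ ≤ 2 ^ (20 * (k + 1)) * (C1 * (2 ^ (q : ℝ)) ^ n) := by
          apply mul_le_mul_of_nonneg_left h3 (by positivity)
      _ ≤ 2 ^ (20 * (k + 1)) * (C1 * (2 * 2 ^ (P * n / Q))) := by
          apply mul_le_mul_of_nonneg_left _ (by positivity)
          exact mul_le_mul_of_nonneg_left (hfl2 n) hC1.le
      _ = (2 * (2 ^ (20 * (k + 1)) * C1)) * 2 ^ (P * n / Q) := by ring
      _ ≤ 2 ^ c₁ * 2 ^ (P * n / Q) := by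
          apply mul_le_mul_of_nonneg_right hc₁.le (by positivity)
      _ = 2 ^ (P * n / Q + c₁) := by ring
  · intro d
    have hρ' : 1 < (2 : ℝ) ^ (c - q) := by
      apply Real.one_lt_rpow (by norm_num)
      linarith
    obtain ⟨C2, hC2, hC2'⟩ := U2_poly d hρ'
    refine ⟨C2 * 2 ^ c₁, fun n => ?_⟩
    have h4 : ((2 : ℝ) ^ (c - q)) ^ n * (2 ^ (q : ℝ)) ^ n = 2 ^ (c * n) := by
      rw [← mul_pow, ← Real.rpow_add (by norm_num), ← Real.rpow_mul_natCast (by norm_num)]
      congr 1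
      ring
    calc ((n : ℝ) + 2) ^ d * 2 ^ (P * n / Q + c₁)
        = (((n : ℝ) + 2) ^ d * 2 ^ (P * n / Q)) * 2 ^ c₁ := by ring
      _ ≤ ((C2 * (2 ^ (c - q)) ^ n) * (2 ^ (q : ℝ)) ^ n) * 2 ^ c₁ := by
          apply mul_le_mul_of_nonneg_right _ (by positivity)
          exact mul_le_mul (hC2' n) (hfl1 n) (by positivity) (by positivity)
      _ = C2 * 2 ^ c₁ * ((2 ^ (c - q)) ^ n * (2 ^ (q : ℝ)) ^ n) := by ring
      _ = C2 * 2 ^ c₁ * 2 ^ (c * n) := by rw [h4]

end Pool.Agent.MPa9445a.GL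
end

section

/-! The prefix lemma. -/

set_option autoImplicit false

open Finset

namespace Pool.Agent.MPa9445a.GL

variable {n : ℕ}

/-- The good vectors: some prefix is good. -/
noncomputable def Gd (W : Matrix (Fin n) (Fin n) ℤ) (s : Vc n) (t : ℤ) (q G : ℝ) : Finset (Vc n) := by
  classical
  exact (Lv W s t).filter fun x => ∃ i ≤ n, G ≤ (Lv W (pre s x i) t).card ∧
    ((Lv W (pre s x i) t).card : ℝ) ≤ AA n * G ∧
    T W (pre s x i) t q ≤ AA n * LL n * (Lv W (pre s x i) t).card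

/-- PROOF. `pre s x 0 = s`, `pre s x n = x` on `Lv s t` (so `#Lv (pre s x n) t = 1 ≤ G`). For `x ∈ Lv s t` let `i ≤ n` be the largest index with `G ≤ N i := #Lv (pre s x i) t`. If `x` is not good then (with this `i`) `AA n * G < N i` or
`AA n * LL n * N i < T (pre s x i) t q`. In the first case `i < n` (`N n = 1 ≤ G`), `N (i + 1) < G`, so `AA n * N (i + 1) ≤ N i`: `x ∈ E i`, `∑ i < n, #E i ≤ n * 2 * N / AA n` by `pre_N`. In the
second case `x ∈ F i`, `∑ i ≤ n, #F i ≤ (n + 1) * T s t q / (AA n * LL n) ≤ (n + 1) * N / AA n` by `pre_T` and `hT`. Together at most `3 (n + 1) N / (8 (n + 1)) ≤ N / 2`. -/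
theorem prefix_lemma {W : Matrix (Fin n) (Fin n) ℤ} {s : Vc n} {t : ℤ} {q G : ℝ} (hq : 1 ≤ q)
    (hG : 1 ≤ G) (hN : G ≤ (Lv W s t).card) (hT : T W s t q ≤ LL n * (Lv W s t).card) :
    (Lv W s t).card ≤ 2 * (Gd W s t q G).card := by
  classical
  have hN0 : (0 : ℝ) ≤ ((Lv W s t).card : ℝ) := Nat.cast_nonneg _
  have hA : (0 : ℝ) < (AA n : ℝ) := by
    have : 0 < AA n := by unfold AA; omega
    exact_mod_cast this
  have hL : (0 : ℝ) < (LL n : ℝ) := by
    have : 0 < LL n := by unfold LL; omega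
    exact_mod_cast this
  have hG0 : 0 < G := by linarith
  -- the bad sets
  obtain ⟨E, hE⟩ : ∃ E : ℕ → Finset (Vc n), ∀ i, E i = (Lv W s t).filter fun x =>
      (AA n : ℝ) * (Lv W (pre s x (i + 1)) t).card ≤ (Lv W (pre s x i) t).card :=
    ⟨_, fun i => rfl⟩
  obtain ⟨F, hF⟩ : ∃ F : ℕ → Finset (Vc n), ∀ i, F i = (Lv W s t).filter fun x =>
      (AA n * LL n : ℝ) * (Lv W (pre s x i) t).card ≤ T W (pre s x i) t q :=
    ⟨_, fun i => rfl⟩
  have hEc : ∀ i, ((E i).card : ℝ) * AA n ≤ 2 * (Lv W s t).card := by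
    intro i
    apply pre_N W s t i hA (E i)
    · rw [hE]; exact Finset.filter_subset _ _
    · intro x hx
      rw [hE] at hx
      exact (Finset.mem_filter.mp hx).2
  have hFc : ∀ i, ((F i).card : ℝ) * (AA n * LL n) ≤ LL n * (Lv W s t).card := by
    intro i
    refine le_trans (pre_T W s t hq i (mul_pos hA hL) (F i) ?_ ?_) hT
    · rw [hF]; exact Finset.filter_subset _ _
    · intro x hx
      rw [hF] at hx
      exact (Finset.mem_filter.mp hx).2
  have hsub : Lv W s t \ Gd W s t q G ⊆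
      ((range (n + 1)).biUnion E) ∪ ((range (n + 1)).biUnion F) := by
    intro x hx
    rw [Finset.mem_sdiff] at hx
    obtain ⟨hxL, hxG⟩ := hx
    have hxS : x ∈ S s := (Finset.mem_filter.mp hxL).1
    have hxP : Ph W x = t := (Finset.mem_filter.mp hxL).2
    have hpre0 : pre s x 0 = s := by
      funext v
      unfold pre
      rw [if_neg]
      rintro ⟨_, h⟩
      exact absurd h (Nat.not_lt_zero _)
    have hpren : ∀ i, n ≤ i → pre s x i = x := by
      intro i hi
      funext v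
      unfold pre
      by_cases hv : s v = 2
      · rw [if_pos ⟨hv, by have := v.isLt; omega⟩]
      · rw [if_neg fun h => hv h.1]
        exact ((mem_S.mp hxS v).2 hv).symm
    -- the last index
    obtain ⟨i, hi, himax⟩ : ∃ i, (i ≤ n ∧ G ≤ ((Lv W (pre s x i) t).card : ℝ)) ∧
        ∀ j, i < j → ¬ (j ≤ n ∧ G ≤ ((Lv W (pre s x j) t).card : ℝ)) := by
      have hex : ∃ i, i ≤ n ∧ G ≤ ((Lv W (pre s x i) t).card : ℝ) :=
        ⟨0, Nat.zero_le _, by rw [hpre0]; exact hN⟩
      let P : ℕ → Prop := fun i => i ≤ n ∧ G ≤ ((Lv W (pre s x i) t).card : ℝ)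
      have h1 : P (Nat.findGreatest P n) := by
        obtain ⟨i, hi⟩ := hex
        exact Nat.findGreatest_spec (P := P) hi.1 hi
      refine ⟨Nat.findGreatest P n, h1, ?_⟩
      intro j hj hPj
      exact absurd (Nat.le_findGreatest (P := P) hPj.1 hPj) (not_le.mpr hj)
    have hin : i ∈ range (n + 1) := Finset.mem_range.mpr (by omega)
    rw [Finset.mem_union, Finset.mem_biUnion, Finset.mem_biUnion]
    by_cases hc : ((Lv W (pre s x i) t).card : ℝ) ≤ AA n * G
    · right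
      refine ⟨i, hin, ?_⟩
      rw [hF, Finset.mem_filter]
      refine ⟨hxL, ?_⟩
      by_contra hcon
      apply hxG
      unfold Gd
      rw [Finset.mem_filter]
      exact ⟨hxL, i, hi.1, hi.2, hc, (not_le.mp hcon).le⟩
    · left
      refine ⟨i, hin, ?_⟩
      rw [hE, Finset.mem_filter]
      refine ⟨hxL, ?_⟩
      have hlt : ((Lv W (pre s x (i + 1)) t).card : ℝ) ≤ G := by
        by_cases hin' : i + 1 ≤ n
        · have := himax (i + 1) (Nat.lt_succ_self i)
          have h2 : ¬ G ≤ ((Lv W (pre s x (i + 1)) t).card : ℝ) := fun h => this ⟨hin', h⟩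
          exact (not_le.mp h2).le
        · rw [hpren (i + 1) (by omega)]
          have hS : S x = {x} := by
            ext y
            rw [Finset.mem_singleton, mem_S]
            have hx2 : ∀ v, x v ≠ 2 := by
              intro v
              by_cases hv : s v = 2
              · rcases (mem_S.mp hxS v).1 hv with h | h <;> rw [h] <;> norm_num
              · rw [(mem_S.mp hxS v).2 hv]; exact hv
            constructor
            · intro h
              funext v
              exact (h v).2 (hx2 v)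
            · intro h v
              rw [h]
              exact ⟨fun h2 => absurd h2 (hx2 v), fun _ => rfl⟩
          have h3 : (Lv W x t).card ≤ 1 := by
            unfold Lv
            rw [hS]
            exact (Finset.card_filter_le _ _).trans (by simp)
          have h4 : ((Lv W x t).card : ℝ) ≤ 1 := by exact_mod_cast h3
          linarith
      have h5 := not_le.mp hc
      calc (AA n : ℝ) * (Lv W (pre s x (i + 1)) t).card ≤ AA n * G :=
            mul_le_mul_of_nonneg_left hlt hA.le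
        _ ≤ (Lv W (pre s x i) t).card := h5.le
  have hGsub : Gd W s t q G ⊆ Lv W s t := by
    unfold Gd
    exact Finset.filter_subset _ _
  have hcard : (Lv W s t).card = (Lv W s t \ Gd W s t q G).card + (Gd W s t q G).card :=
    (Finset.card_sdiff_add_card_eq_card hGsub).symm
  have hb : ((Lv W s t \ Gd W s t q G).card : ℝ) * AA n ≤
      3 * (n + 1) * (Lv W s t).card := by
    have h1 : (Lv W s t \ Gd W s t q G).card ≤
        ∑ i ∈ range (n + 1), (E i).card + ∑ i ∈ range (n + 1), (F i).card :=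
      (Finset.card_le_card hsub).trans ((Finset.card_union_le _ _).trans
        (add_le_add Finset.card_biUnion_le Finset.card_biUnion_le))
    have h2 : ((Lv W s t \ Gd W s t q G).card : ℝ) ≤
        ∑ i ∈ range (n + 1), ((E i).card : ℝ) + ∑ i ∈ range (n + 1), ((F i).card : ℝ) := by
      exact_mod_cast h1
    have h3 : (∑ i ∈ range (n + 1), ((E i).card : ℝ)) * AA n ≤ (n + 1) * (2 * (Lv W s t).card) := by
      rw [Finset.sum_mul]
      calc ∑ i ∈ range (n + 1), ((E i).card : ℝ) * AA n ≤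
            ∑ i ∈ range (n + 1), (2 * (Lv W s t).card : ℝ) := Finset.sum_le_sum fun i _ => hEc i
        _ = (n + 1) * (2 * (Lv W s t).card) := by
          rw [Finset.sum_const, Finset.card_range, nsmul_eq_mul]; push_cast; ring
    have h4 : (∑ i ∈ range (n + 1), ((F i).card : ℝ)) * AA n ≤ (n + 1) * (Lv W s t).card := by
      rw [Finset.sum_mul]
      calc ∑ i ∈ range (n + 1), ((F i).card : ℝ) * AA n ≤
            ∑ i ∈ range (n + 1), ((Lv W s t).card : ℝ) := by
            apply Finset.sum_le_sum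
            intro i _
            have h5 := hFc i
            have h6 : LL n * (((F i).card : ℝ) * AA n) ≤ LL n * ((Lv W s t).card : ℝ) := by
              linarith
            exact le_of_mul_le_mul_left h6 hL
        _ = (n + 1) * (Lv W s t).card := by
          rw [Finset.sum_const, Finset.card_range, nsmul_eq_mul]; push_cast; ring
    have h7 := mul_le_mul_of_nonneg_right h2 hA.le
    rw [add_mul] at h7
    linarith
  have hAe : (AA n : ℝ) = 8 * (n + 1) := by unfold AA; push_cast; ring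
  rw [hAe] at hb
  have hb2 : 8 * ((Lv W s t \ Gd W s t q G).card : ℝ) ≤ 3 * (Lv W s t).card := by
    have hn1 : (0 : ℝ) < n + 1 := by positivity
    have h8 : (n + 1 : ℝ) * (8 * ((Lv W s t \ Gd W s t q G).card : ℝ)) ≤
        (n + 1) * (3 * (Lv W s t).card) := by linarith
    exact le_of_mul_le_mul_left h8 hn1
  have hb3 : 8 * (Lv W s t \ Gd W s t q G).card ≤ 3 * (Lv W s t).card := by exact_mod_cast hb2
  omega

end Pool.Agent.MPa9445a.GL
end

section

section

/-! The lists of the procedure are complete. -/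

set_option autoImplicit false

open Finset
open scoped symmDiff

namespace Pool.Agent.MPa9445a.GL

open Pool.Agent.MPa9445a.SN (Fm rs kb)

variable {n : ℕ}

/-- The list `Y`. PROOF. `dec` with `s = r`, `p = t` (`(t + t) / 2 = t`), `D = Dk r ω κ ⊆ Fr r`. -/
theorem mem_Yl {W : Matrix (Fin n) (Fin n) ℤ} (hW : Wb W) {r : Vc n} (hr : St r) (t : ℤ) (ω : Fm n)
    (K : ℕ) (y : Vc n) : y ∈ Yl W r t ω K ↔
      ∃ κ < K, ∃ a ∈ la2 n t, ∃ u ∈ Lv W (la r (Dk r ω κ)) a, ∃ v ∈ Lv W (rh r (Dk r ω κ)) (t - a),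
        y = u + v ∧ Ph W y = t := by
  have hD : ∀ κ, Dk r ω κ ⊆ Fr r := fun κ => inter_subset_right
  have h0 : (t + t) % 2 = 0 := by omega
  have h1 : (t + t) / 2 = t := by omega
  unfold Yl
  rw [mem_filter]
  constructor
  · rintro ⟨hy, κ, hκ, h2⟩
    refine ⟨κ, hκ, ?_⟩
    have h3 := (dec hW hr (Res_refl r) (hD κ) h0 y).1
      ⟨hy, mem_filter.2 ⟨fl_mem (hD κ) (mem_filter.1 hy).1, h2⟩⟩
    rwa [h1] at h3
  · rintro ⟨κ, hκ, h⟩
    have h3 := (dec hW hr (Res_refl r) (hD κ) h0 y).2 (by rwa [h1])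
    exact ⟨h3.1, κ, hκ, (mem_filter.1 h3.2).2⟩

theorem Dw_sub {s : Vc n} {A : Mx n} {h : Sh n} {j : ℕ} {w : Finset (Fin n)} (hw : w ∈ (lo s j).powerset)
    (i : Fin (Rn n)) : Dw s A h j w i ⊆ Fr s := by
  intro v hv
  unfold Dw lnr at hv
  rw [mem_powerset] at hw
  rw [mem_symmDiff] at hv
  rcases hv with ⟨hv, -⟩ | ⟨hv, -⟩
  · rcases mem_union.1 hv with hv | hv
    · exact (mem_filter.1 (hw hv)).1
    · exact (mem_filter.1 hv).1
  · exact (mem_inter.1 hv).2

/-- Completeness. PROOF. `⊇` by `dec` (`Dw_sub`). `⊆`: for `x ∈ Lv W s p` take `y, w, i` from `hc`; `fl D x = y ∈ Lv W r t` (`fl_fl`), then `dec`. -/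
theorem complete {W : Matrix (Fin n) (Fin n) ℤ} (hW : Wb W) {s r : Vc n} (hs : St s) (hr : Res s r)
    {p t : ℤ} (hp : (p + t) % 2 = 0) {A : Mx n} {h : Sh n} {j : ℕ} {Y : Finset (Vc n)}
    (hY : Y ⊆ Lv W r t) (hc : Cov s A h j Y) (x : Vc n) :
    x ∈ Lv W s p ↔ ∃ w ∈ (lo s j).powerset, ∃ i, ∃ a ∈ la2 n ((p + t) / 2),
      ∃ u ∈ Lv W (la r (Dw s A h j w i)) a, ∃ v ∈ Lv W (rh r (Dw s A h j w i)) ((p + t) / 2 - a),
        x = u + v ∧ Ph W x = p := by
  constructor
  · intro hx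
    obtain ⟨y, hy, w, hw, i, e⟩ := hc x (mem_filter.1 hx).1
    refine ⟨w, hw, i, ?_⟩
    refine (dec hW hs hr (Dw_sub hw i) hp x).1 ⟨hx, ?_⟩
    rw [e, fl_fl]
    exact hY hy
  · rintro ⟨w, hw, i, h3⟩
    exact ((dec hW hs hr (Dw_sub hw i) hp x).2 h3).1

end Pool.Agent.MPa9445a.GL
end

section

/-! Syndromes. -/

set_option autoImplicit false

open Finset
open scoped symmDiff

namespace Pool.Agent.MPa9445a.GL

variable {n : ℕ}

/-- The syndrome of a set: the part from `j` on, after adding the linear set with the same part below `j`. -/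
def syn (s : Vc n) (A : Mx n) (j : ℕ) (X : Finset (Fin n)) : Finset (Fin n) :=
  (X ∩ Fr s) ∆ lnr s A j (X ∩ lo s j)

/-- The free vertices with value `1`. -/
def ps (s x : Vc n) : Finset (Fin n) := (Fr s).filter fun v => x v = 1

private theorem F1_disj {s : Vc n} {j : ℕ} {v : Fin n} (h : v ∈ hi s j) (h2 : v ∈ lo s j) :
    False := by
  unfold hi at h
  unfold lo at h2
  rw [mem_filter] at h h2
  omega

private theorem F1_card (X Y : Finset (Fin n)) :
    (X ∆ Y).card + 2 * (X ∩ Y).card = X.card + Y.card := by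
  have h1 : (X ∆ Y).card = (X \ Y).card + (Y \ X).card := by
    rw [show X ∆ Y = X \ Y ∪ Y \ X from rfl]
    exact card_union_of_disjoint disjoint_sdiff_sdiff
  have h2 := card_sdiff_add_card_inter X Y
  have h3 := card_sdiff_add_card_inter Y X
  rw [inter_comm Y X] at h3
  omega

/-- `v` is in the syndrome iff `v` is free, `v ≥ j` and the parity is odd. -/
theorem mem_syn {s : Vc n} {A : Mx n} {j : ℕ} {X : Finset (Fin n)} {v : Fin n} :
    v ∈ syn s A j X ↔ v ∈ hi s j ∧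
      ((if v ∈ X then 1 else 0) + (X ∩ lo s j ∩ A v).card) % 2 = 1 := by
  unfold syn lnr hi
  rw [mem_symmDiff]
  simp only [mem_inter, mem_union, mem_filter]
  have hlo : v ∈ lo s j ↔ v ∈ Fr s ∧ (v : ℕ) < j := by
    unfold lo
    rw [mem_filter]
  rw [hlo]
  by_cases hF : v ∈ Fr s
  · by_cases hj : j ≤ (v : ℕ)
    · have hj2 : ¬ (v : ℕ) < j := by omega
      by_cases hX : v ∈ X
      · simp only [hF, hj, hj2, hX, and_true, true_and, and_false, false_or, if_true, not_true,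
          or_false]
        omega
      · simp only [hF, hj, hj2, hX, true_and, and_false, false_or, if_false, not_false_iff,
          and_true, false_and, zero_add]
    · have hj2 : (v : ℕ) < j := by omega
      simp only [hF, hj, hj2, and_true, false_and, or_false, and_false]
      tauto
  · simp only [hF, false_and, and_false, or_self]

theorem syn_sub (s : Vc n) (A : Mx n) (j : ℕ) (X : Finset (Fin n)) : syn s A j X ⊆ hi s j := by
  intro v hv
  exact (mem_syn.1 hv).1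

/-- PROOF. `mem_syn`; the parity of `#((X ∆ Y) ∩ Z)` is the sum of the parities. -/
theorem syn_symmDiff (s : Vc n) (A : Mx n) (j : ℕ) (X Y : Finset (Fin n)) :
    syn s A j (X ∆ Y) = syn s A j X ∆ syn s A j Y := by
  ext v
  have h0 : v ∈ syn s A j X ∆ syn s A j Y ↔ (v ∈ syn s A j X ∧ v ∉ syn s A j Y ∨
    v ∈ syn s A j Y ∧ v ∉ syn s A j X) := mem_symmDiff
  rw [h0, mem_syn, mem_syn, mem_syn]
  have h1 := F1_card (X ∩ (lo s j ∩ A v)) (Y ∩ (lo s j ∩ A v))
  have h2 : (X ∆ Y) ∩ lo s j ∩ A v = (X ∩ (lo s j ∩ A v)) ∆ (Y ∩ (lo s j ∩ A v)) := by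
    rw [inter_assoc]
    exact inf_symmDiff_distrib_right X Y (lo s j ∩ A v)
  have h3 : X ∩ lo s j ∩ A v = X ∩ (lo s j ∩ A v) := inter_assoc _ _ _
  have h4 : Y ∩ lo s j ∩ A v = Y ∩ (lo s j ∩ A v) := inter_assoc _ _ _
  rw [h2, h3, h4]
  have h5 : v ∈ X ∆ Y ↔ (v ∈ X ∧ v ∉ Y ∨ v ∈ Y ∧ v ∉ X) := mem_symmDiff
  by_cases hv : v ∈ hi s j
  · simp only [hv, true_and]
    by_cases hX : v ∈ X
    · by_cases hY : v ∈ Y
      · have : v ∉ X ∆ Y := by rw [h5]; tauto
        rw [if_neg this, if_pos hX, if_pos hY]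
        omega
      · have : v ∈ X ∆ Y := by rw [h5]; tauto
        rw [if_pos this, if_pos hX, if_neg hY]
        omega
    · by_cases hY : v ∈ Y
      · have : v ∈ X ∆ Y := by rw [h5]; tauto
        rw [if_pos this, if_neg hX, if_pos hY]
        omega
      · have : v ∉ X ∆ Y := by rw [h5]; tauto
        rw [if_neg this, if_neg hX, if_neg hY]
        omega
  · simp only [hv, false_and, or_self]

theorem syn_hi {s : Vc n} {A : Mx n} {j : ℕ} {σ : Finset (Fin n)} (h : σ ⊆ hi s j) :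
    syn s A j σ = σ := by
  ext v
  rw [mem_syn]
  have h1 : σ ∩ lo s j = ∅ := by
    ext u
    simp only [mem_inter, notMem_empty, iff_false, not_and]
    intro hu hu2
    exact F1_disj (h hu) hu2
  rw [h1, empty_inter, card_empty]
  by_cases hv : v ∈ σ
  · simp [hv, h hv]
  · simp [hv]

theorem syn_lnr {s : Vc n} {A : Mx n} {j : ℕ} {w : Finset (Fin n)} (h : w ⊆ lo s j) :
    syn s A j (lnr s A j w) = ∅ := by
  ext v
  rw [mem_syn]
  simp only [notMem_empty, iff_false, not_and]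
  intro hv
  have h1 : lnr s A j w ∩ lo s j = w := by
    ext u
    unfold lnr
    simp only [mem_inter, mem_union, mem_filter]
    constructor
    · rintro ⟨h2 | h2, h3⟩
      · exact h2
      · exact absurd h3 (fun h4 => F1_disj (mem_filter.2 ⟨h2.1, h2.2.1⟩) h4)
    · intro h2
      exact ⟨Or.inl h2, h h2⟩
  rw [h1]
  have h2 : v ∉ w := fun h3 => F1_disj hv (h h3)
  have h3 : v ∈ lnr s A j w ↔ (w ∩ A v).card % 2 = 1 := by
    unfold lnr
    simp only [mem_union, mem_filter, h2, false_or]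
    constructor
    · intro h4
      exact h4.2.2
    · intro h4
      unfold hi at hv
      rw [mem_filter] at hv
      exact ⟨hv.1, hv.2, h4⟩
  by_cases h4 : v ∈ lnr s A j w
  · rw [if_pos h4]
    have := h3.1 h4
    omega
  · rw [if_neg h4]
    have h6 : ¬ (w ∩ A v).card % 2 = 1 := fun h5 => h4 (h3.2 h5)
    omega

theorem syn_inter (s : Vc n) (A : Mx n) (j : ℕ) (X : Finset (Fin n)) :
    syn s A j (X ∩ Fr s) = syn s A j X := by
  ext v
  rw [mem_syn, mem_syn]
  have h1 : X ∩ Fr s ∩ lo s j = X ∩ lo s j := by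
    ext u
    simp only [mem_inter]
    constructor
    · rintro ⟨⟨a, b⟩, c⟩
      exact ⟨a, c⟩
    · rintro ⟨a, c⟩
      exact ⟨⟨a, (mem_filter.1 c).1⟩, c⟩
  rw [h1]
  by_cases hv : v ∈ hi s j
  · have h2 : v ∈ Fr s := (mem_filter.1 hv).1
    have h3 : v ∈ X ∩ Fr s ↔ v ∈ X := by
      rw [mem_inter]
      exact ⟨fun h => h.1, fun h => ⟨h, h2⟩⟩
    simp only [hv, true_and, h3]
  · simp only [hv, false_and]

theorem ps_fl {s y : Vc n} (hy : y ∈ S s) {D : Finset (Fin n)} (hD : D ⊆ Fr s) :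
    ps s (fl D y) = ps s y ∆ D := by
  ext v
  unfold ps
  rw [mem_symmDiff, mem_filter, mem_filter]
  have h1 := mem_S.1 hy v
  by_cases hv : v ∈ D
  · have h2 : v ∈ Fr s := hD hv
    have h3 := h1.1 (mem_Fr.1 h2)
    have h4 : fl D y v = -y v := by
      unfold fl
      rw [if_pos hv]
    rw [h4]
    simp only [h2, true_and, hv, not_true, and_false, false_or]
    rcases h3 with h3 | h3
    · rw [h3]
      norm_num
    · rw [h3]
      norm_num
  · have h4 : fl D y v = y v := by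
      unfold fl
      rw [if_neg hv]
    rw [h4]
    simp only [hv, not_false_iff, and_true, false_and, or_false]

/-- PROOF. `→`: for `σ ⊆ hi s j` take `x = vc s σ` (`ps s x = σ`), `x = fl (Dw …) y`: `σ = ps s y ∆ lnr w ∆ (h i ∩ Fr s)`; apply `syn`. `←`: for `x ∈ S s` take `σ = syn (ps s x)`, then `Z = ps s x ∆ ps s y ∆ (h i ∩ Fr s)` has `syn Z = ∅`, so `Z = lnr s A j (Z ∩ lo s j)`; `w = Z ∩ lo s j`. -/
theorem Cov_iff {s : Vc n} {A : Mx n} {h : Sh n} {j : ℕ} {Y : Finset (Vc n)} (hY : Y ⊆ S s) :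
    Cov s A h j Y ↔ ∀ σ ∈ (hi s j).powerset, ∃ y ∈ Y, ∃ i,
      σ = syn s A j (ps s y) ∆ syn s A j (h i) := by
  constructor
  · intro hc σ hσ
    rw [mem_powerset] at hσ
    have hσF : σ ⊆ Fr s := fun v hv => (mem_filter.1 (hσ hv)).1
    obtain ⟨y, hy, w, hw, i, h1⟩ := hc (vc s σ) (vc_mem s σ)
    refine ⟨y, hy, i, ?_⟩
    have h2 : ps s (vc s σ) = σ := by
      ext v
      unfold ps
      rw [mem_filter]
      constructor
      · rintro ⟨a, b⟩
        unfold vc at b
        rw [if_pos (mem_Fr.1 a)] at b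
        by_contra hc'
        rw [if_neg hc'] at b
        norm_num at b
      · intro a
        refine ⟨hσF a, ?_⟩
        unfold vc
        rw [if_pos (mem_Fr.1 (hσF a)), if_pos a]
    rw [h1, ps_fl (hY hy) (Dw_sub hw i)] at h2
    rw [← syn_hi (s := s) (A := A) hσ, ← h2]
    unfold Dw
    rw [syn_symmDiff, syn_symmDiff, syn_lnr (mem_powerset.1 hw), syn_inter]
    rw [show (∅ : Finset (Fin n)) = ⊥ from rfl, bot_symmDiff]
  · intro hc x hx
    obtain ⟨y, hy, i, h1⟩ := hc (syn s A j (ps s x)) (mem_powerset.2 (syn_sub s A j _))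
    obtain ⟨Z, hZ⟩ : ∃ Z : Finset (Fin n), Z = ps s x ∆ ps s y ∆ (h i ∩ Fr s) := ⟨_, rfl⟩
    have hZF : Z ⊆ Fr s := by
      intro v hv
      rw [hZ, mem_symmDiff, mem_symmDiff] at hv
      unfold ps at hv
      simp only [mem_filter, mem_inter] at hv
      tauto
    have hsZ : syn s A j Z = ∅ := by
      rw [hZ, syn_symmDiff, syn_symmDiff, syn_inter, h1]
      rw [symmDiff_comm (syn s A j (ps s y)) (syn s A j (h i)), symmDiff_assoc, symmDiff_assoc,
        symmDiff_symmDiff_cancel_left, symmDiff_self]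
      rfl
    have hZ2 : Z = lnr s A j (Z ∩ lo s j) := by
      unfold syn at hsZ
      rw [inter_eq_left.2 hZF] at hsZ
      exact symmDiff_eq_bot.1 hsZ
    refine ⟨y, hy, Z ∩ lo s j, mem_powerset.2 inter_subset_right, i, ?_⟩
    have hD : Dw s A h j (Z ∩ lo s j) i = ps s x ∆ ps s y := by
      unfold Dw
      rw [← hZ2, hZ, symmDiff_assoc, symmDiff_self]
      exact symmDiff_bot _
    have hDF : ps s x ∆ ps s y ⊆ Fr s := by
      intro v hv
      rw [mem_symmDiff] at hv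
      unfold ps at hv
      simp only [mem_filter] at hv
      tauto
    rw [hD]
    have h3 : ps s (fl (ps s x ∆ ps s y) y) = ps s x := by
      rw [ps_fl (hY hy) hDF, symmDiff_comm (ps s x) (ps s y), symmDiff_symmDiff_cancel_left]
    have h4 : vc s (ps s (fl (ps s x ∆ ps s y) y)) = fl (ps s x ∆ ps s y) y :=
      vc_self (fl_mem hDF (hY hy))
    have h5 : vc s (ps s x) = x := vc_self hx
    rw [← h4, h3, h5]

end Pool.Agent.MPa9445a.GL
end

section

/-! The samples. -/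

set_option autoImplicit false

open Finset

namespace Pool.Agent.MPa9445a.GL

open Pool.Agent.MPa9445a.SN (Fm rs kb)

variable {n : ℕ}

private theorem E2_vc_mem (s : Vc n) (X : Finset (Fin n)) : vc s X ∈ S s := by
  unfold S
  rw [Fintype.mem_piFinset]
  intro v
  unfold vc
  by_cases h : s v = 2
  · rw [if_pos h, if_pos h]
    by_cases hv : v ∈ X
    · rw [if_pos hv]; simp
    · rw [if_neg hv]; simp
  · rw [if_neg h, if_neg h]; simp

/-- PROOF. If `ω` is bad then (a) no sample `κ < J` is in `𝒢`, or (b) at least `Y0 = 1024` samples `κ < J` have value `t`. (a): `SN.hit` with `𝒮 = {X | vc s X ∈ 𝒢}` (`card_vc`): `#(a) * J * #𝒢 ≤ 2 ^ m * #Fm`, and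
`J * #𝒢 ≥ 16 * 2 ^ m`: `16 * #(a) ≤ #Fm`. (b): `SN.markov` with `φ X = 1` if `Ph W (vc s X) = t` (i.e. `vc s X ∈ Lv W s t`), `a = Y0`: `1024 * #(b) * 2 ^ m ≤ #Fm * J * #Lv ≤ 64 * 2 ^ m * #Fm`. -/
theorem sample {W : Matrix (Fin n) (Fin n) ℤ} {s : Vc n} {t : ℤ} {𝒢 : Finset (Vc n)}
    (h𝒢 : 𝒢 ⊆ Lv W s t) (h2 : (Lv W s t).card ≤ 2 * 𝒢.card) {J : ℕ} (hJ : J ≤ 2 ^ kb n)
    (h32 : 32 * 2 ^ (Fr s).card ≤ J * (Lv W s t).card)
    (h64 : J * (Lv W s t).card ≤ 64 * 2 ^ (Fr s).card) :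
    (univ.filter fun ω : Fm n => ¬ ∃ κ < J, xk s ω κ ∈ 𝒢 ∧
      ((range κ).filter fun κ' => Ph W (xk s ω κ') = t).card < Y0).card * 8 ≤
        Fintype.card (Fm n) := by
  classical
  set m := (Fr s).card with hm
  have hLS : Lv W s t ⊆ S s := filter_subset _ _
  have hGS : 𝒢 ⊆ S s := h𝒢.trans hLS
  set 𝒮 : Finset (Finset (Fin n)) := univ.filter fun X => vc s X ∈ 𝒢 with h𝒮
  set φ : Finset (Fin n) → ℕ := fun X => if vc s X ∈ Lv W s t then 1 else 0 with hφ
  have ha := SN.hit (n := n) 𝒮 hJ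
  have hb := SN.markov (n := n) φ J Y0
  have c1 : 𝒮.card * 2 ^ m = 2 ^ n * 𝒢.card := card_vc hGS
  have c2 : (∑ X, φ X) * 2 ^ m = 2 ^ n * (Lv W s t).card := by
    rw [← card_vc hLS, hφ, ← card_filter]
  set a := (univ.filter fun ω : Fm n => ∀ i < J, rs ω i ∉ 𝒮).card with hA
  set b := (univ.filter fun ω : Fm n => Y0 ≤ ∑ i ∈ range J, φ (rs ω i)).card with hB
  have hab : (univ.filter fun ω : Fm n => ¬ ∃ κ < J, xk s ω κ ∈ 𝒢 ∧
      ((range κ).filter fun κ' => Ph W (xk s ω κ') = t).card < Y0).card ≤ a + b := by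
    rw [hA, hB]
    refine le_trans (card_le_card ?_) (card_union_le _ _)
    intro ω hω
    rw [mem_filter] at hω
    rw [mem_union, mem_filter, mem_filter]
    by_cases h : ∀ i < J, rs ω i ∉ 𝒮
    · exact Or.inl ⟨mem_univ _, h⟩
    · right
      refine ⟨mem_univ _, ?_⟩
      push Not at h
      obtain ⟨κ, hκ, hκ'⟩ := h
      have h3 : xk s ω κ ∈ 𝒢 := (mem_filter.1 hκ').2
      have h4 : Y0 ≤ ((range κ).filter fun κ' => Ph W (xk s ω κ') = t).card := by
        by_contra hc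
        exact hω.2 ⟨κ, hκ, h3, not_le.1 hc⟩
      refine h4.trans ?_
      have h5 : ((range κ).filter fun κ' => Ph W (xk s ω κ') = t).card ≤
          ((range J).filter fun κ' => vc s (rs ω κ') ∈ Lv W s t).card := by
        apply card_le_card
        intro i hi
        rw [mem_filter, mem_range] at hi ⊢
        refine ⟨hi.1.trans hκ, ?_⟩
        exact mem_filter.2 ⟨E2_vc_mem s _, hi.2⟩
      refine h5.trans (le_of_eq ?_)
      rw [card_filter]
  have hpm : 0 < 2 ^ m := by positivity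
  have hpn : 0 < 2 ^ n := by positivity
  have hF : 0 ≤ Fintype.card (Fm n) := Nat.zero_le _
  have e1 : a * (J * 𝒢.card) ≤ Fintype.card (Fm n) * 2 ^ m := by
    have h1 : a * (J * 𝒮.card) * 2 ^ m ≤ Fintype.card (Fm n) * 2 ^ n * 2 ^ m :=
      Nat.mul_le_mul_right _ ha
    have h2' : a * (J * 𝒮.card) * 2 ^ m = a * (J * 𝒢.card) * 2 ^ n := by
      calc a * (J * 𝒮.card) * 2 ^ m = a * J * (𝒮.card * 2 ^ m) := by ring
        _ = a * J * (2 ^ n * 𝒢.card) := by rw [c1]
        _ = _ := by ring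
    rw [h2'] at h1
    have h3 : a * (J * 𝒢.card) * 2 ^ n ≤ Fintype.card (Fm n) * 2 ^ m * 2 ^ n := by
      calc _ ≤ _ := h1
        _ = _ := by ring
    exact Nat.le_of_mul_le_mul_right h3 hpn
  have e2 : 16 * a ≤ Fintype.card (Fm n) := by
    have h3 : 16 * 2 ^ m ≤ J * 𝒢.card := by
      have : J * (Lv W s t).card ≤ J * (2 * 𝒢.card) := Nat.mul_le_mul_left _ h2
      have h4 : J * (2 * 𝒢.card) = 2 * (J * 𝒢.card) := by ring
      omega
    have h5 : a * (16 * 2 ^ m) ≤ Fintype.card (Fm n) * 2 ^ m :=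
      (Nat.mul_le_mul_left _ h3).trans e1
    have h6 : 16 * a * 2 ^ m ≤ Fintype.card (Fm n) * 2 ^ m := by
      calc _ = a * (16 * 2 ^ m) := by ring
        _ ≤ _ := h5
    exact Nat.le_of_mul_le_mul_right h6 hpm
  have e3 : b * 16 ≤ Fintype.card (Fm n) := by
    have h1 : b * (Y0 * 2 ^ n) * 2 ^ m ≤ Fintype.card (Fm n) * (J * ∑ X, φ X) * 2 ^ m :=
      Nat.mul_le_mul_right _ hb
    have h2' : Fintype.card (Fm n) * (J * ∑ X, φ X) * 2 ^ m =
        Fintype.card (Fm n) * (J * (Lv W s t).card) * 2 ^ n := by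
      calc _ = Fintype.card (Fm n) * J * ((∑ X, φ X) * 2 ^ m) := by ring
        _ = Fintype.card (Fm n) * J * (2 ^ n * (Lv W s t).card) := by rw [c2]
        _ = _ := by ring
    rw [h2'] at h1
    have h3 : Fintype.card (Fm n) * (J * (Lv W s t).card) * 2 ^ n ≤
        Fintype.card (Fm n) * (64 * 2 ^ m) * 2 ^ n :=
      Nat.mul_le_mul_right _ (Nat.mul_le_mul_left _ h64)
    have h4 : b * 16 * (64 * 2 ^ n * 2 ^ m) ≤ Fintype.card (Fm n) * (64 * 2 ^ n * 2 ^ m) := by
      calc b * 16 * (64 * 2 ^ n * 2 ^ m) = b * (Y0 * 2 ^ n) * 2 ^ m := by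
            unfold Y0; ring
        _ ≤ _ := h1
        _ ≤ _ := h3
        _ = _ := by ring
    exact Nat.le_of_mul_le_mul_right h4 (by positivity)
  omega

end Pool.Agent.MPa9445a.GL
end

section

/-! The sum of the costs over all sets `D`. -/

set_option autoImplicit false

open Finset

namespace Pool.Agent.MPa9445a.GL

variable {n : ℕ}

private theorem C2_T_nonneg (W : Matrix (Fin n) (Fin n) ℤ) (s : Vc n) (p : ℤ) {q : ℝ} (hq : 1 ≤ q) :
    0 ≤ T W s p q := by
  unfold T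
  exact sum_nonneg fun x _ => zpow_nonneg (by linarith) _

/-- PROOF. Cast to `ℝ`; `pc_le` with `q ^ 2` for every `D` and every `a ∈ la2 n c` (`a, c - a ∈ lvl n`; `St_la`, `St_rh`, `St_Res`); exchange the sums; for every `a` the three sums over `D` are bounded by
`sum_la`, `sum_rh` and `T_mul`; `#la2 n c ≤ #lvl n = LL n` (`card_lvl`). -/
theorem sum_cD {W : Matrix (Fin n) (Fin n) ℤ} {k : ℕ} {ω : Sds n k} (hG : Good W k ω) {s r : Vc n}
    (hs : St s) (h : Res s r) {p t c : ℤ} (hc : 2 * c = p + t) {q : ℝ} (hq : 1 ≤ q) :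
    (∑ D ∈ (Fr s).powerset, cD W (Ok W k ω) r c D : ℝ) ≤
      2 * pl n k * LL n * (2 * (1 + γ k) ^ (Fr s).card + T W s p q * T W r t q) := by
  have hr : St r := St_Res hs h
  have hq2 : 1 ≤ q ^ 2 := one_le_pow₀ hq
  have hγ : 1 ≤ γ k := γ_one k
  have h1 : (∑ D ∈ (Fr s).powerset, cD W (Ok W k ω) r c D : ℝ) =
      ∑ a ∈ la2 n c, ∑ D ∈ (Fr s).powerset,
        (pc W (Ok W k ω) (la r D) a (rh r D) (c - a) : ℝ) := by
    unfold cD
    push_cast
    exact sum_comm
  rw [h1]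
  have h2 : ∀ a ∈ la2 n c, ∑ D ∈ (Fr s).powerset,
      (pc W (Ok W k ω) (la r D) a (rh r D) (c - a) : ℝ) ≤
        2 * pl n k * (2 * (1 + γ k) ^ (Fr s).card + T W s p q * T W r t q) := by
    intro a ha
    unfold la2 at ha
    rw [mem_filter] at ha
    calc ∑ D ∈ (Fr s).powerset, (pc W (Ok W k ω) (la r D) a (rh r D) (c - a) : ℝ)
        ≤ ∑ D ∈ (Fr s).powerset, 2 * (pl n k * (γ k ^ (Fr (la r D)).card +
            γ k ^ (Fr (rh r D)).card + T W (la r D) a (q ^ 2) * T W (rh r D) (c - a) (q ^ 2))) :=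
          sum_le_sum fun D _ => pc_le hG (St_la hr D) (St_rh hr D) ha.1 ha.2 hq2
      _ = 2 * pl n k * ((∑ D ∈ (Fr s).powerset, γ k ^ (Fr (la r D)).card) +
            (∑ D ∈ (Fr s).powerset, γ k ^ (Fr (rh r D)).card) +
            ∑ D ∈ (Fr s).powerset, T W (la r D) a (q ^ 2) * T W (rh r D) (c - a) (q ^ 2)) := by
          rw [← sum_add_distrib, ← sum_add_distrib, mul_sum]
          exact sum_congr rfl fun D _ => by ring
      _ = 2 * pl n k * ((∑ D ∈ (Fr s).powerset, γ k ^ (Fr (la r D)).card) +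
            (∑ D ∈ (Fr s).powerset, γ k ^ (Fr (rh r D)).card) +
            T W s p q * T W r t q) := by
          rw [T_mul hs h hc (fun _ => a) hq]
      _ ≤ 2 * pl n k * (2 * (1 + γ k) ^ (Fr s).card + T W s p q * T W r t q) := by
          have h3 := sum_la hs h hγ
          have h4 := sum_rh hs h hγ
          refine mul_le_mul_of_nonneg_left ?_ (by positivity)
          linarith
  have h0 : 0 ≤ 2 * (pl n k : ℝ) * (2 * (1 + γ k) ^ (Fr s).card + T W s p q * T W r t q) := by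
    have h5 := C2_T_nonneg W s p hq
    have h6 := C2_T_nonneg W r t hq
    have h7 : 0 ≤ 1 + γ k := by linarith
    positivity
  have h8 : (la2 n c).card ≤ LL n := by
    rw [← card_lvl n]
    exact card_filter_le _ _
  calc ∑ a ∈ la2 n c, ∑ D ∈ (Fr s).powerset,
        (pc W (Ok W k ω) (la r D) a (rh r D) (c - a) : ℝ)
      ≤ ∑ a ∈ la2 n c, 2 * (pl n k : ℝ) *
          (2 * (1 + γ k) ^ (Fr s).card + T W s p q * T W r t q) := sum_le_sum h2
    _ = (la2 n c).card * (2 * (pl n k : ℝ) *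
          (2 * (1 + γ k) ^ (Fr s).card + T W s p q * T W r t q)) := by
        rw [sum_const, nsmul_eq_mul]
    _ ≤ LL n * (2 * (pl n k : ℝ) *
          (2 * (1 + γ k) ^ (Fr s).card + T W s p q * T W r t q)) :=
        mul_le_mul_of_nonneg_right (by exact_mod_cast h8) h0
    _ = 2 * pl n k * LL n * (2 * (1 + γ k) ^ (Fr s).card + T W s p q * T W r t q) := by ring

end Pool.Agent.MPa9445a.GL
end

section

/-! The sets `Dw` are uniform. -/

set_option autoImplicit false

open Finset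
open scoped symmDiff

namespace Pool.Agent.MPa9445a.GL

variable {n : ℕ}

private theorem E5a_split {ι X : Type} [Fintype ι] [DecidableEq ι] [Fintype X] [DecidableEq X]
    (i : ι) (ψ : X → ℕ) :
    ∑ h : ι → X, ψ (h i) = Fintype.card ({j // j ≠ i} → X) * ∑ x, ψ x := by
  rw [Fintype.sum_equiv (Equiv.funSplitAt i X) (fun h => ψ (h i)) (fun p => ψ p.1)
    (fun h => rfl)]
  rw [Fintype.sum_prod_type]
  simp only [sum_const, card_univ, smul_eq_mul]
  rw [mul_sum]

/-- PROOF. The sum over `h` splits in the component `i` and the others (e.g. `Finset.sum_comp`/`Fintype.piFinset`, or `Equiv.piSplitAt`): it is `(2 ^ n) ^ (Rn n - 1) * ∑ X, φ (L ∆ (X ∩ Fr s))`, `L = lnr s A j w ⊆ Fr s`. By `sum_inter` (for `D ↦ φ (L ∆ D)`) and the bijection `D ↦ L ∆ D` of the subsets of `Fr s`. -/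
theorem sum_Dw (s : Vc n) (A : Mx n) {j : ℕ} {w : Finset (Fin n)} (hw : w ∈ (lo s j).powerset)
    (i : Fin (Rn n)) (φ : Finset (Fin n) → ℕ) :
    (∑ h : Sh n, φ (Dw s A h j w i)) * 2 ^ (Fr s).card =
      Fintype.card (Sh n) * ∑ D ∈ (Fr s).powerset, φ D := by
  have hL : lnr s A j w ⊆ Fr s := by
    intro v hv
    unfold lnr at hv
    rw [mem_powerset] at hw
    rcases mem_union.1 hv with hv | hv
    · exact (mem_filter.1 (hw hv)).1
    · exact (mem_filter.1 hv).1
  have h1 : (∑ h : Sh n, φ (Dw s A h j w i)) =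
      Fintype.card ({j // j ≠ i} → Finset (Fin n)) * ∑ X, φ (lnr s A j w ∆ (X ∩ Fr s)) :=
    E5a_split i fun X => φ (lnr s A j w ∆ (X ∩ Fr s))
  have h2 : Fintype.card (Sh n) =
      Fintype.card ({j // j ≠ i} → Finset (Fin n)) * 2 ^ n := by
    rw [Fintype.card_congr (Equiv.funSplitAt i (Finset (Fin n))), Fintype.card_prod,
      Fintype.card_finset, Fintype.card_fin, mul_comm]
  have h3 := sum_inter s fun D => φ (lnr s A j w ∆ D)
  have h4 : ∑ D ∈ (Fr s).powerset, φ (lnr s A j w ∆ D) = ∑ D ∈ (Fr s).powerset, φ D := by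
    have hm : ∀ D ∈ (Fr s).powerset, lnr s A j w ∆ D ∈ (Fr s).powerset := by
      intro D hD
      rw [mem_powerset] at hD ⊢
      intro v hv
      rcases mem_symmDiff.1 hv with ⟨hv, -⟩ | ⟨hv, -⟩
      · exact hL hv
      · exact hD hv
    refine sum_nbij' (fun D => lnr s A j w ∆ D) (fun D => lnr s A j w ∆ D) hm hm ?_ ?_ ?_
    · intro D _
      exact symmDiff_symmDiff_cancel_left _ _
    · intro D _
      exact symmDiff_symmDiff_cancel_left _ _
    · intro D _
      rfl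
  rw [h1, h2, mul_assoc, h3, h4, mul_assoc]

end Pool.Agent.MPa9445a.GL
end
end
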