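import Pool.Agent.Lib.MP_a9445a_lc.Mg.G098
import Pool.Agent.Lib.MP_a9445a_lc.Mg.G146

section

/-!
# The root

One repetition: the block `univ`, only the mode U with the window `1/2 ± 1/10000`, one round, no exhaustive search.
`Win` is the event that the repetition finds a vector of the value of the target `x`.
-/

set_option autoImplicit false

open Finset

namespace Pool.Agent.MPa9445a.SB

open Pool.Agent.MPa9445a.SN (Fm rs kb)
open Pool.Agent.MPa9445a.GL (Vc S Ph Lv T Par lvl LL la2 xk vc pl fl Wb)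

variable {n : ℕ}

/-- The parameters of the root: only the window is used. -/
def P0 : Lev where
  d := 4999
  l := 0
  M := 1
  tw _ := 0
  ta _ := 0
  tb _ := 0
  K := 1
  th := 0

/-- The number of samples of a level which are tried. -/
def Y0 : ℕ := 1024

/-- The random bits of a repetition (without the golden procedure and the code): level 2, level 1, root. -/
abbrev Om (n : ℕ) : Type := Sr n × Sr n × Rr n

section

variable (W : Matrix (Fin n) (Fin n) ℤ) (Go : Rf n) {R : ℕ} (h : Hm n R)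
  (φ : Finset (Fin n) → Finset (Fin n) → Finset (Fin n)) (PA PB : Lev)

/-- The cost of the root for the levels `p`, `t`. -/
noncomputable def cT (p : ℤ) (ω : Om n) (t : ℤ) : ℕ :=
  cU W h φ P0 (fun _ => E1 W Go h φ PA PB ω.1 ω.2.1) univ (g0 n) p ω.2.2 t

/-- The root finishes for the levels `p`, `t` within the budget `2 ^ b`. -/
structure TOk (p : ℤ) (b : ℕ) (ω : Om n) (t : ℤ) : Prop where
  pr : Pr W univ (g0 n) ω.2.2 t
  par : (p + t) % 2 = 0
  hU : eU W h univ (g0 n) ω.2.2 t ≤ b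
  cT : cT W Go h φ PA PB p ω t ≤ 2 ^ b

/-- The vectors which are found. -/
noncomputable def oT (p : ℤ) (ω : Om n) (t : ℤ) : Finset (Vc n) :=
  oR W (Wn 4999 n (E1 W Go h φ PA PB ω.1 ω.2.1)) univ (dU φ univ ω.2.2)
    (2 ^ eU W h univ (g0 n) ω.2.2 t) ((p + t) / 2) p

/-- The repetition finds a vector of the value of `x`: among the samples, by the root, or in a ball around one of
the first samples of a level (the ball or its negative is not in the window). -/
def Win (b : ℕ) (ω : Om n) (x : Vc n) : Prop :=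
  (∃ κ < Jn n n (g0 n), Ph W (xk (bl univ) ω.2.2.1 κ) = Ph W x) ∨
  (∃ t ∈ lvl n, TOk W Go h φ PA PB (Ph W x) b ω t ∧ x ∈ oT W Go h φ PA PB (Ph W x) ω t) ∨
  ∃ t ∈ lvl n, ∃ κ ∈ ht W univ ω.2.2.1 (Jn n n (g0 n)) t,
    ((ht W univ ω.2.2.1 (Jn n n (g0 n)) t).filter fun κ' => κ' < κ).card < Y0 ∧
      ¬ Wi 4999 n (df x (xk (bl univ) ω.2.2.1 κ)).card

end

end Pool.Agent.MPa9445a.SB
end

section

section

/-! The matrices. -/

set_option autoImplicit false

open Finset
open scoped symmDiff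

namespace Pool.Agent.MPa9445a.SB

variable {n R : ℕ}

theorem mem_KH {E : Finset (Finset (Fin n))} {h : Hm n R} :
    h ∈ KH R E ↔ ∀ P ∈ E, ∀ j, Even (P ∩ h j).card := by
  unfold KH rows
  rw [Fintype.mem_piFinset]
  constructor
  · intro H P hP j
    exact (mem_filter.1 (H j)).2 P hP
  · intro H j
    exact mem_filter.2 ⟨mem_univ _, fun P hP => H P hP j⟩

theorem mem_KH_insert {E : Finset (Finset (Fin n))} {D : Finset (Fin n)} {h : Hm n R} :
    h ∈ KH R (insert D E) ↔ h ∈ KH R E ∧ ∀ j, Even (D ∩ h j).card := by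
  rw [mem_KH, mem_KH]
  constructor
  · intro H
    exact ⟨fun P hP => H P (mem_insert_of_mem hP), H D (mem_insert_self _ _)⟩
  · rintro ⟨H1, H2⟩ P hP
    rcases mem_insert.1 hP with rfl | hP
    · exact H2
    · exact H1 P hP

theorem mem_Cc {h : Hm n R} {Q D : Finset (Fin n)} :
    D ∈ Cc h Q ↔ D ⊆ Q ∧ ∀ j, Even (D ∩ h j).card := by
  unfold Cc
  rw [mem_filter, mem_powerset]

theorem card_KH (E : Finset (Finset (Fin n))) : (KH R E).card = (rows E).card ^ R := by
  unfold KH
  rw [Fintype.card_piFinset]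
  simp

/-- The matrix with empty rows. -/
theorem KH_pos (R : ℕ) (E : Finset (Finset (Fin n))) : 0 < (KH R E).card := by
  refine card_pos.2 ⟨fun _ => ∅, mem_KH.2 fun P _ j => ?_⟩
  rw [inter_empty, card_empty]
  exact ⟨0, rfl⟩

theorem KH_half {E : Finset (Finset (Fin n))} {Q : Finset (Fin n)} (hE : Ch E Q)
    {D : Finset (Fin n)} (hD : D ⊆ Q) (h0 : D ≠ ∅) (h1 : D ≠ Q) :
    (KH R (insert D E)).card * 2 ^ R = (KH R E).card := by
  rw [card_KH, card_KH, ← mul_pow, row_half hE hD h0 h1]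

theorem KH_quarter {E : Finset (Finset (Fin n))} {Q : Finset (Fin n)} (hE : Ch E Q)
    {D D' : Finset (Fin n)} (hD : D ⊆ Q) (hD' : D' ⊆ Q) (h0 : D ≠ ∅) (h1 : D ≠ Q) (h0' : D' ≠ ∅)
    (h1' : D' ≠ Q) (hne : D' ≠ D) (hne' : D' ≠ Q \ D) :
    (KH R (insert D' (insert D E))).card * 4 ^ R = (KH R E).card := by
  rw [card_KH, card_KH, ← mul_pow, row_quarter hE hD hD' h0 h1 h0' h1' hne hne']

/-- The complement of a set of the code in a set of the code is in the code. -/
theorem compl_mem {h : Hm n R} {Q D : Finset (Fin n)} (hD : D ⊆ Q)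
    (h1 : ∀ j, Even (Q ∩ h j).card) (h2 : ∀ j, Even (D ∩ h j).card) :
    ∀ j, Even ((Q \ D) ∩ h j).card := by
  intro j
  have e1 : Q ∩ h j = (D ∩ h j) ∪ ((Q \ D) ∩ h j) := by
    rw [← union_inter_distrib_right, union_sdiff_of_subset hD]
  have e2 : Disjoint (D ∩ h j) ((Q \ D) ∩ h j) :=
    (disjoint_sdiff.mono inter_subset_left inter_subset_left)
  have e3 : (Q ∩ h j).card = (D ∩ h j).card + ((Q \ D) ∩ h j).card := by
    rw [← card_union_of_disjoint e2, ← e1]
  have h3 := h1 j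
  rw [e3] at h3
  exact (Nat.even_add.1 h3).1 (h2 j)

/-- PROOF. `compl_mem` in both directions (`Q \ (Q \ D) = D`). -/
theorem KH_compl {E : Finset (Finset (Fin n))} {Q D : Finset (Fin n)} (hQ : Q ∈ E) (hD : D ⊆ Q) :
    KH R (insert (Q \ D) E) = KH R (insert D E) := by
  ext h
  rw [mem_KH_insert, mem_KH_insert]
  constructor
  · rintro ⟨H1, H2⟩
    refine ⟨H1, ?_⟩
    have h3 := compl_mem (h := h) (Q := Q) (D := Q \ D) sdiff_subset (mem_KH.1 H1 Q hQ) H2
    rwa [Finset.sdiff_sdiff_eq_self hD] at h3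
  · rintro ⟨H1, H2⟩
    exact ⟨H1, compl_mem hD (mem_KH.1 H1 Q hQ) H2⟩

theorem Ch_insert {E : Finset (Finset (Fin n))} {Q D : Finset (Fin n)} (hE : Ch E Q) (hD : D ⊆ Q) :
    Ch (insert D E) D := by
  refine ⟨mem_insert_self _ _, fun P hP => ?_⟩
  rcases mem_insert.1 hP with rfl | hP
  · exact Subset.refl _
  · exact hD.trans (hE.2 P hP)

theorem Ch_univ : Ch ({univ} : Finset (Finset (Fin n))) univ := by
  refine ⟨mem_singleton_self _, fun P hP => ?_⟩
  rw [mem_singleton.1 hP]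

end Pool.Agent.MPa9445a.SB
end

section

/-! Repetitions; rows with even numbers of elements. -/

set_option autoImplicit false
set_option synthInstance.maxSize 1000

open Finset
open scoped symmDiff

namespace Pool.Agent.MPa9445a.SB

/-- The number of repetitions. -/
def Nr (n : ℕ) : ℕ := 6 * n ^ 2 + 20

theorem Nr_num (n : ℕ) : 3 ^ Nr n * 2 ^ (2 * n ^ 2 + 1) ≤ 4 ^ Nr n := by
  have h1 : (3 : ℕ) ^ 6 * 2 ^ 2 ≤ 4 ^ 6 := by norm_num
  have h2 : (3 : ℕ) ^ 20 * 2 ≤ 4 ^ 20 := by norm_num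
  calc 3 ^ Nr n * 2 ^ (2 * n ^ 2 + 1) = (3 ^ 6 * 2 ^ 2) ^ n ^ 2 * (3 ^ 20 * 2) := by
        unfold Nr
        rw [pow_add, pow_mul, pow_add, pow_mul 2 2, mul_pow]
        ring
    _ ≤ (4 ^ 6) ^ n ^ 2 * 4 ^ 20 := Nat.mul_le_mul (Nat.pow_le_pow_left h1 _) h2
    _ = 4 ^ Nr n := by
        unfold Nr
        rw [pow_add, pow_mul]

open scoped Classical in
/-- Independent repetitions for all targets at once. -/
theorem reps {n : ℕ} {ι Z : Type} [Fintype ι] [Fintype Z] (hι : Fintype.card ι ≤ 2 ^ n ^ 2)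
    (bad : ι → Z → Prop)
    (hb : ∀ i, (univ.filter fun z : Z => bad i z).card * 4 ≤ 3 * Fintype.card Z) :
    (univ.filter fun f : Fin (Nr n) → Z => ∃ i, ∀ j, bad i (f j)).card * 2 ^ (n ^ 2 + 1) ≤
      Fintype.card (Fin (Nr n) → Z) := by
  have h1 : ∀ i, (univ.filter fun f : Fin (Nr n) → Z => ∀ j, bad i (f j)).card * 4 ^ Nr n ≤
      3 ^ Nr n * Fintype.card (Fin (Nr n) → Z) := by
    intro i
    have e1 : (univ.filter fun f : Fin (Nr n) → Z => ∀ j, bad i (f j)) =
        Fintype.piFinset fun _ : Fin (Nr n) => univ.filter fun z : Z => bad i z := by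
      ext f
      simp
    rw [e1, Fintype.card_piFinset_const, Fintype.card_fun, Fintype.card_fin, ← mul_pow, ← mul_pow]
    exact Nat.pow_le_pow_left (hb i) _
  have h2 : (univ.filter fun f : Fin (Nr n) → Z => ∃ i, ∀ j, bad i (f j)).card ≤
      ∑ i : ι, (univ.filter fun f : Fin (Nr n) → Z => ∀ j, bad i (f j)).card := by
    have e2 : (univ.filter fun f : Fin (Nr n) → Z => ∃ i, ∀ j, bad i (f j)) ⊆
        (univ : Finset ι).biUnion fun i =>
          univ.filter fun f : Fin (Nr n) → Z => ∀ j, bad i (f j) := by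
      intro f hf
      simp only [mem_filter, mem_univ, true_and, mem_biUnion] at hf ⊢
      exact hf
    exact (card_le_card e2).trans card_biUnion_le
  have h3 : (univ.filter fun f : Fin (Nr n) → Z => ∃ i, ∀ j, bad i (f j)).card * 4 ^ Nr n ≤
      2 ^ n ^ 2 * (3 ^ Nr n * Fintype.card (Fin (Nr n) → Z)) := by
    calc _ ≤ (∑ i : ι, (univ.filter fun f : Fin (Nr n) → Z => ∀ j, bad i (f j)).card) *
          4 ^ Nr n := Nat.mul_le_mul_right _ h2
      _ = ∑ i : ι, (univ.filter fun f : Fin (Nr n) → Z => ∀ j, bad i (f j)).card * 4 ^ Nr n := by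
          rw [Finset.sum_mul]
      _ ≤ ∑ _i : ι, 3 ^ Nr n * Fintype.card (Fin (Nr n) → Z) :=
          Finset.sum_le_sum fun i _ => h1 i
      _ = Fintype.card ι * (3 ^ Nr n * Fintype.card (Fin (Nr n) → Z)) := by
          rw [Finset.sum_const, Finset.card_univ, smul_eq_mul]
      _ ≤ _ := Nat.mul_le_mul_right _ hι
  refine Nat.le_of_mul_le_mul_right (c := 3 ^ Nr n * 2 ^ n ^ 2) ?_ (by positivity)
  calc (univ.filter fun f : Fin (Nr n) → Z => ∃ i, ∀ j, bad i (f j)).card * 2 ^ (n ^ 2 + 1) *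
        (3 ^ Nr n * 2 ^ n ^ 2) =
      (univ.filter fun f : Fin (Nr n) → Z => ∃ i, ∀ j, bad i (f j)).card *
        (3 ^ Nr n * 2 ^ (2 * n ^ 2 + 1)) := by
        rw [two_mul, pow_add, pow_add, pow_add]
        ring
    _ ≤ (univ.filter fun f : Fin (Nr n) → Z => ∃ i, ∀ j, bad i (f j)).card * 4 ^ Nr n :=
        Nat.mul_le_mul_left _ (Nr_num n)
    _ ≤ 2 ^ n ^ 2 * (3 ^ Nr n * Fintype.card (Fin (Nr n) → Z)) := h3
    _ = _ := by ring

/-! ## Even rows -/

variable {n : ℕ}

/-- The set with an even number of elements which agrees with `A` outside `v`. -/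
def ev (v : Fin n) (A : Finset (Fin n)) : Finset (Fin n) :=
  if Even (A.erase v).card then A.erase v else insert v (A.erase v)

theorem ev_even (v : Fin n) (A : Finset (Fin n)) : Even (ev v A).card := by
  unfold ev
  split_ifs with h
  · exact h
  · rw [card_insert_of_notMem (notMem_erase v A), Nat.even_add_one]
    exact h

theorem ev_self {v : Fin n} {A : Finset (Fin n)} (h : Even A.card) : ev v A = A := by
  unfold ev
  by_cases hv : v ∈ A
  · have h1 : (A.erase v).card + 1 = A.card := card_erase_add_one hv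
    have h2 : ¬ Even (A.erase v).card := by
      intro h3
      rw [← h1, Nat.even_add_one] at h
      exact h h3
    rw [if_neg h2, insert_erase hv]
  · rw [erase_eq_of_notMem hv, if_pos h]

theorem ev_symm (v : Fin n) (A : Finset (Fin n)) : ev v (A ∆ {v}) = ev v A := by
  have h : (A ∆ {v}).erase v = A.erase v := by
    ext u
    simp only [mem_erase, mem_symmDiff, mem_singleton]
    tauto
  unfold ev
  rw [h]

/-- Every set with an even number of elements is the value for exactly two sets. -/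
theorem ev_fibre (v : Fin n) {g : Finset (Fin n)} (hg : Even g.card) :
    (univ.filter fun A : Finset (Fin n) => ev v A = g) = {g, g ∆ {v}} := by
  ext A
  simp only [mem_filter, mem_univ, true_and, mem_insert, mem_singleton]
  constructor
  · intro h
    by_cases hA : Even A.card
    · left
      rw [← h, ev_self hA]
    · right
      have h1 : Even (A ∆ {v}).card := by
        by_cases hv : v ∈ A
        · have e : A ∆ {v} = A.erase v := by
            ext u
            simp only [mem_erase, mem_symmDiff, mem_singleton]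
            constructor
            · rintro (⟨h1, h2⟩ | ⟨h1, h2⟩)
              · exact ⟨h2, h1⟩
              · subst h1
                exact absurd hv h2
            · rintro ⟨h1, h2⟩
              exact Or.inl ⟨h2, h1⟩
          have h2 : (A.erase v).card + 1 = A.card := card_erase_add_one hv
          rw [e]
          by_contra h3
          apply hA
          rw [← h2, Nat.even_add_one]
          exact h3
        · have e : A ∆ {v} = insert v A := by
            ext u
            simp only [mem_insert, mem_symmDiff, mem_singleton]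
            constructor
            · rintro (⟨h1, h2⟩ | ⟨h1, h2⟩)
              · exact Or.inr h1
              · exact Or.inl h1
            · rintro (h1 | h1)
              · subst h1
                exact Or.inr ⟨rfl, hv⟩
              · refine Or.inl ⟨h1, fun h2 => ?_⟩
                subst h2
                exact hv h1
          rw [e, card_insert_of_notMem hv, Nat.even_add_one]
          exact hA
      have h2 : A ∆ {v} = g := by
        rw [← h, ← ev_symm, ev_self h1]
      rw [← h2, symmDiff_symmDiff_cancel_right]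
  · rintro (h | h)
    · subst h
      exact ev_self hg
    · subst h
      rw [ev_symm]
      exact ev_self hg

theorem symm_ne (v : Fin n) (g : Finset (Fin n)) : g ≠ g ∆ {v} := by
  intro h
  have h1 : v ∈ g ↔ v ∈ g ∆ {v} := by rw [← h]
  simp only [mem_symmDiff, mem_singleton] at h1
  tauto

/-- The matrices with even rows are reached uniformly. -/
theorem ev_count {R : ℕ} (v : Fin n) (P : Hm n R → Prop) [DecidablePred P] :
    (univ.filter fun A : Hm n R => P fun j => ev v (A j)).card =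
      2 ^ R * ((KH R ({univ} : Finset (Finset (Fin n)))).filter fun h => P h).card := by
  classical
  have h1 : ∀ A : Hm n R, (fun j => ev v (A j)) ∈ KH R ({univ} : Finset (Finset (Fin n))) := by
    intro A
    rw [mem_KH]
    intro Q hQ j
    rw [mem_singleton] at hQ
    subst hQ
    rw [univ_inter]
    exact ev_even v _
  have h2 := Finset.card_eq_sum_card_fiberwise (f := fun A : Hm n R => fun j => ev v (A j))
    (s := univ.filter fun A : Hm n R => P fun j => ev v (A j))
    (t := (KH R ({univ} : Finset (Finset (Fin n)))).filter fun h => P h)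
    (fun A hA => by
      simp only [coe_filter, mem_univ, true_and, Set.mem_setOf_eq] at hA ⊢
      exact ⟨h1 A, hA⟩)
  rw [h2]
  have h3 : ∀ h ∈ (KH R ({univ} : Finset (Finset (Fin n)))).filter fun h => P h,
      ((univ.filter fun A : Hm n R => P fun j => ev v (A j)).filter
        fun A => (fun j => ev v (A j)) = h).card = 2 ^ R := by
    intro h hh
    rw [mem_filter, mem_KH] at hh
    have e1 : ((univ.filter fun A : Hm n R => P fun j => ev v (A j)).filter
        fun A => (fun j => ev v (A j)) = h) =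
        Fintype.piFinset fun j : Fin R => univ.filter fun A : Finset (Fin n) => ev v A = h j := by
      ext A
      simp only [mem_filter, mem_univ, true_and, Fintype.mem_piFinset]
      constructor
      · rintro ⟨_, h5⟩ j
        exact congrFun h5 j
      · intro h5
        have h6 : (fun j => ev v (A j)) = h := funext h5
        rw [h6]
        exact ⟨hh.2, rfl⟩
    rw [e1, Fintype.card_piFinset]
    have e2 : ∀ j : Fin R, (univ.filter fun A : Finset (Fin n) => ev v A = h j).card = 2 := by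
      intro j
      have h7 := hh.1 univ (mem_singleton_self _) j
      rw [univ_inter] at h7
      rw [ev_fibre v h7]
      exact card_pair (symm_ne v _)
    rw [Finset.prod_congr rfl fun j _ => e2 j, prod_const, card_univ, Fintype.card_fin]
  rw [Finset.sum_congr rfl h3, sum_const, smul_eq_mul, mul_comm]

end Pool.Agent.MPa9445a.SB
end

section

/-! All targets, all repetitions and the bits of the golden procedure. -/

set_option autoImplicit false
set_option synthInstance.maxSize 1000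

open Finset

namespace Pool.Agent.MPa9445a.SB

open Pool.Agent.MPa9445a.GL (Vc Sds)

open scoped Classical in
/-- `good i ωG` says that the bits `ωG` of the golden procedure are good for the target `i`, `win i ωG h ω` that the
repetition with the code `h` and the bits `ω` finds the target. The rows of the code are made even by `ev v`. -/
theorem total {n R : ℕ} {ι : Type} [Fintype ι] (hι : Fintype.card ι ≤ 2 ^ n ^ 2) (v : Fin n)
    (good : ι → Sds n 8 → Prop)
    (hgood : (univ.filter fun ωG : Sds n 8 => ∃ i, ¬ good i ωG).card * 2 ^ (n ^ 2 + 1) ≤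
      Fintype.card (Sds n 8))
    (win : ι → Sds n 8 → Hm n R → Om n → Prop)
    (hwin : ∀ i ωG, good i ωG →
      (((KH R ({univ} : Finset (Finset (Fin n)))) ×ˢ (univ : Finset (Om n))).filter fun z =>
        ¬ win i ωG z.1 z.2).card * 4 ≤
      3 * ((KH R ({univ} : Finset (Finset (Fin n)))).card * Fintype.card (Om n))) :
    (univ.filter fun z : Sds n 8 × (Fin (Nr n) → Hm n R × Om n) =>
      ∃ i, ¬ (good i z.1 ∧ ∃ j, win i z.1 (fun r => ev v ((z.2 j).1 r)) (z.2 j).2)).card *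
        2 ^ n ^ 2 ≤ Fintype.card (Sds n 8 × (Fin (Nr n) → Hm n R × Om n)) := by
  obtain ⟨A, hA⟩ : ∃ A : Sds n 8 → Finset (Fin (Nr n) → Hm n R × Om n), A = fun ωG =>
    univ.filter fun f : Fin (Nr n) → Hm n R × Om n => ∃ i, good i ωG ∧
      ∀ j, ¬ win i ωG (fun r => ev v ((f j).1 r)) (f j).2 := ⟨_, rfl⟩
  -- one repetition, all codes
  have h0 : ∀ i ωG, good i ωG →
      (univ.filter fun z : Hm n R × Om n => ¬ win i ωG (fun r => ev v (z.1 r)) z.2).card * 4 ≤
        3 * Fintype.card (Hm n R × Om n) := by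
    intro i ωG hi
    have h1 := hwin i ωG hi
    have e1 : (univ.filter fun z : Hm n R × Om n => ¬ win i ωG (fun r => ev v (z.1 r)) z.2).card =
        ∑ ω : Om n, (univ.filter fun B : Hm n R => ¬ win i ωG (fun r => ev v (B r)) ω).card := by
      simp only [Finset.card_filter]
      rw [Fintype.sum_prod_type, Finset.sum_comm]
    have e2 : (((KH R ({univ} : Finset (Finset (Fin n)))) ×ˢ (univ : Finset (Om n))).filter fun z =>
        ¬ win i ωG z.1 z.2).card =
        ∑ ω : Om n, ((KH R ({univ} : Finset (Finset (Fin n)))).filter fun h =>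
          ¬ win i ωG h ω).card := by
      simp only [Finset.card_filter]
      rw [Finset.sum_product, Finset.sum_comm]
    have e3 : ∀ ω : Om n, (univ.filter fun B : Hm n R =>
        ¬ win i ωG (fun r => ev v (B r)) ω).card =
        2 ^ R * ((KH R ({univ} : Finset (Finset (Fin n)))).filter fun h =>
          ¬ win i ωG h ω).card := fun ω => ev_count v fun h => ¬ win i ωG h ω
    have e4 : Fintype.card (Hm n R) =
        2 ^ R * (KH R ({univ} : Finset (Finset (Fin n)))).card := by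
      have := ev_count (R := R) v fun _ => True
      simpa using this
    rw [e1, Finset.sum_congr rfl fun ω _ => e3 ω, ← Finset.mul_sum, ← e2, Fintype.card_prod, e4]
    calc _ = 2 ^ R * ((((KH R ({univ} : Finset (Finset (Fin n)))) ×ˢ
          (univ : Finset (Om n))).filter fun z => ¬ win i ωG z.1 z.2).card * 4) := by ring
      _ ≤ 2 ^ R * (3 * ((KH R ({univ} : Finset (Finset (Fin n)))).card * Fintype.card (Om n))) :=
          Nat.mul_le_mul_left _ h1
      _ = _ := by ring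
  -- all repetitions
  have h1 : ∀ ωG, (A ωG).card * 2 ^ (n ^ 2 + 1) ≤
      Fintype.card (Fin (Nr n) → Hm n R × Om n) := by
    intro ωG
    have h2 := reps hι (fun (i : ι) (z : Hm n R × Om n) => good i ωG ∧
      ¬ win i ωG (fun r => ev v (z.1 r)) z.2) (by
        intro i
        by_cases hi : good i ωG
        · refine le_trans (Nat.mul_le_mul_right _ (card_le_card fun z hz => ?_)) (h0 i ωG hi)
          simp only [mem_filter, mem_univ, true_and] at hz ⊢
          exact hz.2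
        · simp [hi])
    refine le_trans (Nat.mul_le_mul_right _ (card_le_card fun f hf => ?_)) h2
    rw [hA] at hf
    simp only [mem_filter, mem_univ, true_and] at hf ⊢
    obtain ⟨i, hi, hj⟩ := hf
    exact ⟨i, fun j => ⟨hi, hj j⟩⟩
  -- together
  have h2 : (univ.filter fun z : Sds n 8 × (Fin (Nr n) → Hm n R × Om n) =>
      ∃ i, ¬ (good i z.1 ∧ ∃ j, win i z.1 (fun r => ev v ((z.2 j).1 r)) (z.2 j).2)) ⊆
      ((univ.filter fun ωG : Sds n 8 => ∃ i, ¬ good i ωG) ×ˢ univ) ∪
        (univ.filter fun z : Sds n 8 × (Fin (Nr n) → Hm n R × Om n) => z.2 ∈ A z.1) := by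
    intro z hz
    simp only [mem_filter, mem_univ, true_and, mem_union, mem_product, and_true] at hz ⊢
    obtain ⟨i, hi⟩ := hz
    by_cases hg : good i z.1
    · right
      rw [hA]
      simp only [mem_filter, mem_univ, true_and]
      refine ⟨i, hg, fun j hj => hi ⟨hg, j, hj⟩⟩
    · left
      exact ⟨i, hg⟩
  have h3 : (univ.filter fun z : Sds n 8 × (Fin (Nr n) → Hm n R × Om n) => z.2 ∈ A z.1).card =
      ∑ ωG : Sds n 8, (A ωG).card := by
    simp only [Finset.card_filter]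
    rw [Fintype.sum_prod_type]
    refine Finset.sum_congr rfl fun ωG _ => ?_
    rw [← Finset.card_filter]
    congr 1
    ext f
    simp
  have h4 : ((univ.filter fun ωG : Sds n 8 => ∃ i, ¬ good i ωG) ×ˢ
      (univ : Finset (Fin (Nr n) → Hm n R × Om n))).card =
      (univ.filter fun ωG : Sds n 8 => ∃ i, ¬ good i ωG).card *
        Fintype.card (Fin (Nr n) → Hm n R × Om n) := by
    rw [card_product, card_univ]
  refine Nat.le_of_mul_le_mul_right (c := 2) ?_ (by norm_num)
  calc _ ≤ (((univ.filter fun ωG : Sds n 8 => ∃ i, ¬ good i ωG).card *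
        Fintype.card (Fin (Nr n) → Hm n R × Om n) + ∑ ωG : Sds n 8, (A ωG).card) *
        2 ^ n ^ 2) * 2 := by
        refine Nat.mul_le_mul_right _ (Nat.mul_le_mul_right _ ?_)
        refine (card_le_card h2).trans ((card_union_le _ _).trans (le_of_eq ?_))
        rw [h4, h3]
    _ = (univ.filter fun ωG : Sds n 8 => ∃ i, ¬ good i ωG).card * 2 ^ (n ^ 2 + 1) *
        Fintype.card (Fin (Nr n) → Hm n R × Om n) +
        ∑ ωG : Sds n 8, (A ωG).card * 2 ^ (n ^ 2 + 1) := by
        rw [← Finset.sum_mul, pow_succ]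
        ring
    _ ≤ Fintype.card (Sds n 8) * Fintype.card (Fin (Nr n) → Hm n R × Om n) +
        ∑ _ωG : Sds n 8, Fintype.card (Fin (Nr n) → Hm n R × Om n) :=
        add_le_add (Nat.mul_le_mul_right _ hgood) (Finset.sum_le_sum fun ωG _ => h1 ωG)
    _ = _ := by
        rw [Finset.sum_const, card_univ, smul_eq_mul, Fintype.card_prod]
        ring

end Pool.Agent.MPa9445a.SB
end

section

/-! Chebyshev for the code. -/

set_option autoImplicit false

open Finset
open scoped symmDiff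

namespace Pool.Agent.MPa9445a.SB

variable {n R : ℕ}

private theorem A3_X (h : Hm n R) (Q : Finset (Fin n)) (𝒢 : Finset (Finset (Fin n))) (h𝒢 : ∀ D ∈ 𝒢, D ⊆ Q) :
    (𝒢 ∩ Cc h Q).card = ∑ D ∈ 𝒢, if (∀ j, Even (D ∩ h j).card) then 1 else 0 := by
  rw [← Finset.card_filter]
  congr 1
  ext D
  rw [Finset.mem_inter, Finset.mem_filter, mem_Cc]
  constructor
  · exact fun h1 => ⟨h1.1, h1.2.2⟩
  · exact fun h1 => ⟨h1.1, h𝒢 D h1.1, h1.2⟩

private theorem A3_one (E : Finset (Finset (Fin n))) (D : Finset (Fin n)) :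
    (∑ h ∈ KH R E, if (∀ j, Even (D ∩ h j).card) then 1 else 0) = (KH R (insert D E)).card := by
  rw [← Finset.card_filter]
  congr 1
  ext h
  rw [Finset.mem_filter, mem_KH_insert]

private theorem A3_two (E : Finset (Finset (Fin n))) (D D' : Finset (Fin n)) :
    (∑ h ∈ KH R E, (if (∀ j, Even (D ∩ h j).card) then 1 else 0) * (if (∀ j, Even (D' ∩ h j).card) then 1 else 0)) =
      (KH R (insert D' (insert D E))).card := by
  rw [← A3_one (insert D E) D']
  have h1 : KH R (insert D E) = (KH R E).filter fun h => ∀ j, Even (D ∩ h j).card := by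
    ext h
    rw [Finset.mem_filter, mem_KH_insert]
  rw [h1, Finset.sum_filter]
  refine Finset.sum_congr rfl fun h _ => ?_
  split_ifs <;> rfl

/-- The first moment. PROOF. Exchange the sums; `mem_KH_insert`, `KH_half`. -/
theorem moment1 {E : Finset (Finset (Fin n))} {Q : Finset (Fin n)} (hE : Ch E Q)
    {𝒢 : Finset (Finset (Fin n))} (h𝒢 : ∀ D ∈ 𝒢, D ⊆ Q ∧ D ≠ ∅ ∧ D ≠ Q) :
    (∑ h ∈ KH R E, (𝒢 ∩ Cc h Q).card) * 2 ^ R = 𝒢.card * (KH R E).card := by
  have h1 : ∑ h ∈ KH R E, (𝒢 ∩ Cc h Q).card = ∑ D ∈ 𝒢, (KH R (insert D E)).card := by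
    rw [Finset.sum_congr rfl fun h _ => A3_X h Q 𝒢 fun D hD => (h𝒢 D hD).1, Finset.sum_comm]
    exact Finset.sum_congr rfl fun D _ => A3_one E D
  rw [h1, Finset.sum_mul, Finset.sum_congr rfl fun D hD => KH_half hE (h𝒢 D hD).1 (h𝒢 D hD).2.1 (h𝒢 D hD).2.2,
    Finset.sum_const, smul_eq_mul]

/-- The second moment. PROOF. `#(𝒢 ∩ Cc h Q) ^ 2` is the number of the pairs `(D, D')` of `𝒢` in the code; exchange the sums. For `D' ∉ {D, Q \ D}` use `KH_quarter`; for the at most `2 * #𝒢` other pairs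
`KH R (insert D' (insert D E)) ⊆ KH R (insert D E)` and `KH_half`. -/
theorem moment2 {E : Finset (Finset (Fin n))} {Q : Finset (Fin n)} (hE : Ch E Q)
    {𝒢 : Finset (Finset (Fin n))} (h𝒢 : ∀ D ∈ 𝒢, D ⊆ Q ∧ D ≠ ∅ ∧ D ≠ Q) :
    (∑ h ∈ KH R E, (𝒢 ∩ Cc h Q).card ^ 2) * 4 ^ R ≤
      (𝒢.card ^ 2 + 2 * 2 ^ R * 𝒢.card) * (KH R E).card := by
  have h1 : ∑ h ∈ KH R E, (𝒢 ∩ Cc h Q).card ^ 2 = ∑ D ∈ 𝒢, ∑ D' ∈ 𝒢, (KH R (insert D' (insert D E))).card := by
    have h2 : ∀ h ∈ KH R E, (𝒢 ∩ Cc h Q).card ^ 2 = ∑ D ∈ 𝒢, ∑ D' ∈ 𝒢,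
        (if (∀ j, Even (D ∩ h j).card) then 1 else 0) * (if (∀ j, Even (D' ∩ h j).card) then 1 else 0) := by
      intro h _
      rw [A3_X h Q 𝒢 fun D hD => (h𝒢 D hD).1, sq, Finset.sum_mul_sum]
    rw [Finset.sum_congr rfl h2, Finset.sum_comm]
    refine Finset.sum_congr rfl fun D _ => ?_
    rw [Finset.sum_comm]
    exact Finset.sum_congr rfl fun D' _ => A3_two E D D'
  have h3 : ∀ D ∈ 𝒢, (∑ D' ∈ 𝒢, (KH R (insert D' (insert D E))).card) * 4 ^ R ≤
      𝒢.card * (KH R E).card + 2 * 2 ^ R * (KH R E).card := by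
    intro D hD
    obtain ⟨d1, d2, d3⟩ := h𝒢 D hD
    have hhalf := KH_half (R := R) hE d1 d2 d3
    have h4 : ∀ D' ∈ 𝒢, (KH R (insert D' (insert D E))).card * 4 ^ R ≤
        (KH R E).card + if (D' = D ∨ D' = Q \ D) then 2 ^ R * (KH R E).card else 0 := by
      intro D' hD'
      obtain ⟨e1, e2, e3⟩ := h𝒢 D' hD'
      by_cases hc : D' = D ∨ D' = Q \ D
      · rw [if_pos hc]
        have h5 : (KH R (insert D' (insert D E))).card ≤ (KH R (insert D E)).card := by
          refine Finset.card_le_card fun h hh => ?_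
          exact (mem_KH_insert.1 hh).1
        have h6 : (4 : ℕ) ^ R = 2 ^ R * 2 ^ R := by
          rw [← mul_pow]
          norm_num
        calc (KH R (insert D' (insert D E))).card * 4 ^ R ≤ (KH R (insert D E)).card * 4 ^ R := Nat.mul_le_mul_right _ h5
          _ = ((KH R (insert D E)).card * 2 ^ R) * 2 ^ R := by rw [h6, mul_assoc]
          _ = 2 ^ R * (KH R E).card := by rw [hhalf, mul_comm]
          _ ≤ (KH R E).card + 2 ^ R * (KH R E).card := Nat.le_add_left _ _
      · rw [if_neg hc, add_zero]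
        rw [not_or] at hc
        exact (KH_quarter hE d1 e1 d2 d3 e2 e3 hc.1 hc.2).le
    rw [Finset.sum_mul]
    refine (Finset.sum_le_sum h4).trans ?_
    rw [Finset.sum_add_distrib, Finset.sum_const, smul_eq_mul, ← Finset.sum_filter, Finset.sum_const, smul_eq_mul]
    have h7 : (𝒢.filter fun D' => D' = D ∨ D' = Q \ D).card ≤ 2 := by
      have h8 : (𝒢.filter fun D' => D' = D ∨ D' = Q \ D) ⊆ {D, Q \ D} := by
        intro D' hD'
        rw [Finset.mem_insert, Finset.mem_singleton]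
        exact (Finset.mem_filter.1 hD').2
      exact (Finset.card_le_card h8).trans Finset.card_le_two
    have h9 := Nat.mul_le_mul_right (2 ^ R * (KH R E).card) h7
    rw [mul_assoc]
    exact Nat.add_le_add_left h9 _
  rw [h1, Finset.sum_mul]
  refine (Finset.sum_le_sum h3).trans ?_
  rw [Finset.sum_const, smul_eq_mul]
  refine le_of_eq ?_
  ring

/-- PROOF. With `X = #(𝒢 ∩ Cc h Q)`: `∑ h, (X * 2 ^ R - #𝒢) ^ 2 ≤ 2 * 2 ^ R * #𝒢 * #KH` (`moment1`, `moment2`), and a counted `h` contributes at least `#𝒢 ^ 2 / 16`. -/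
theorem cheb {E : Finset (Finset (Fin n))} {Q : Finset (Fin n)} (hE : Ch E Q)
    {𝒢 : Finset (Finset (Fin n))} (h𝒢 : ∀ D ∈ 𝒢, D ⊆ Q ∧ D ≠ ∅ ∧ D ≠ Q) :
    ((KH R E).filter fun h => 4 * (𝒢 ∩ Cc h Q).card * 2 ^ R < 3 * 𝒢.card).card * 𝒢.card ≤
      32 * 2 ^ R * (KH R E).card := by
  have m1 := moment1 (R := R) hE h𝒢
  have m2 := moment2 (R := R) hE h𝒢
  obtain ⟨X, hX⟩ : ∃ X : Hm n R → ℕ, X = fun h => (𝒢 ∩ Cc h Q).card := ⟨_, rfl⟩
  have hX' : ∀ h, (𝒢 ∩ Cc h Q).card = X h := fun h => by rw [hX]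
  simp only [hX'] at m1 m2 ⊢
  rcases Nat.eq_zero_or_pos 𝒢.card with h0 | h0
  · rw [h0, mul_zero]
    exact Nat.zero_le _
  have hG : (0 : ℝ) < 𝒢.card := by exact_mod_cast h0
  have m1r : (∑ h ∈ KH R E, (X h : ℝ)) * 2 ^ R = 𝒢.card * (KH R E).card := by exact_mod_cast m1
  have m2r : (∑ h ∈ KH R E, (X h : ℝ) ^ 2) * 4 ^ R ≤ ((𝒢.card : ℝ) ^ 2 + 2 * 2 ^ R * 𝒢.card) * (KH R E).card := by exact_mod_cast m2
  have h4 : (4 : ℝ) ^ R = 2 ^ R * 2 ^ R := by
    rw [← mul_pow]
    norm_num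
  have hsum : ∑ h ∈ KH R E, ((X h : ℝ) * 2 ^ R - 𝒢.card) ^ 2 =
      (∑ h ∈ KH R E, (X h : ℝ) ^ 2) * 4 ^ R - 2 * 𝒢.card * ((∑ h ∈ KH R E, (X h : ℝ)) * 2 ^ R) + 𝒢.card ^ 2 * (KH R E).card := by
    have h5 : ∀ h ∈ KH R E, ((X h : ℝ) * 2 ^ R - 𝒢.card) ^ 2 =
        (X h : ℝ) ^ 2 * 4 ^ R - (X h : ℝ) * (2 * 𝒢.card * 2 ^ R) + 𝒢.card ^ 2 := by
      intro h _
      rw [h4]
      ring
    rw [Finset.sum_congr rfl h5, Finset.sum_add_distrib, Finset.sum_sub_distrib, ← Finset.sum_mul, ← Finset.sum_mul,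
      Finset.sum_const, nsmul_eq_mul]
    ring
  have hup : ∑ h ∈ KH R E, ((X h : ℝ) * 2 ^ R - 𝒢.card) ^ 2 ≤ 2 * (2 : ℝ) ^ R * (𝒢.card : ℝ) * ((KH R E).card : ℝ) := by
    rw [hsum, m1r]
    linarith
  have hlow : (((KH R E).filter fun h => 4 * X h * 2 ^ R < 3 * 𝒢.card).card : ℝ) * ((𝒢.card : ℝ) ^ 2 / 16) ≤
      ∑ h ∈ KH R E, ((X h : ℝ) * 2 ^ R - 𝒢.card) ^ 2 := by
    rw [← nsmul_eq_mul, ← Finset.sum_const]
    have hsub := Finset.filter_subset (fun h => 4 * X h * 2 ^ R < 3 * 𝒢.card) (KH R E)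
    refine le_trans ?_ (Finset.sum_le_sum_of_subset_of_nonneg hsub fun h _ _ => sq_nonneg _)
    refine Finset.sum_le_sum fun h hh => ?_
    have h6 := (Finset.mem_filter.1 hh).2
    have h7 : 4 * (X h : ℝ) * 2 ^ R < 3 * 𝒢.card := by exact_mod_cast h6
    have h8 : (𝒢.card : ℝ) / 4 ≤ 𝒢.card - (X h : ℝ) * 2 ^ R := by linarith
    have h9 : ((X h : ℝ) * 2 ^ R - 𝒢.card) ^ 2 = (𝒢.card - (X h : ℝ) * 2 ^ R) ^ 2 := by ring
    rw [h9]
    have h10 : (𝒢.card : ℝ) ^ 2 / 16 = ((𝒢.card : ℝ) / 4) ^ 2 := by ring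
    rw [h10]
    exact pow_le_pow_left₀ (by positivity) h8 2
  have hfin : (((KH R E).filter fun h => 4 * X h * 2 ^ R < 3 * 𝒢.card).card : ℝ) * 𝒢.card ≤ 32 * 2 ^ R * (KH R E).card := by
    have h11 := hlow.trans hup
    have h12 : (((KH R E).filter fun h => 4 * X h * 2 ^ R < 3 * 𝒢.card).card : ℝ) * 𝒢.card * 𝒢.card ≤
        (32 * 2 ^ R * (KH R E).card) * 𝒢.card := by
      have h13 : (((KH R E).filter fun h => 4 * X h * 2 ^ R < 3 * 𝒢.card).card : ℝ) * 𝒢.card * 𝒢.card =
          16 * ((((KH R E).filter fun h => 4 * X h * 2 ^ R < 3 * 𝒢.card).card : ℝ) * ((𝒢.card : ℝ) ^ 2 / 16)) := by ring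
      rw [h13]
      linarith
    exact le_of_mul_le_mul_right h12 hG
  exact_mod_cast hfin

end Pool.Agent.MPa9445a.SB
end

section

/-! Expected costs: exchange of the sums. -/

set_option autoImplicit false

open Finset

namespace Pool.Agent.MPa9445a.SB

variable {n R : ℕ}

/-- PROOF. `Finset.sum_comm'` with `mem_Cc`, `mem_KH_insert`. -/
theorem swap {M : Type} [AddCommMonoid M] (E : Finset (Finset (Fin n))) (Q : Finset (Fin n))
    (P : Finset (Fin n) → Prop) [DecidablePred P] (c : Hm n R → Finset (Fin n) → M) :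
    ∑ h ∈ KH R E, ∑ D ∈ (Cc h Q).filter P, c h D =
      ∑ D ∈ Q.powerset.filter P, ∑ h ∈ KH R (insert D E), c h D := by
  refine Finset.sum_comm' ?_
  intro h D
  simp only [Finset.mem_filter, mem_Cc, mem_KH_insert, Finset.mem_powerset]
  tauto

/-- The expected cost of the sets in the code. PROOF. `swap`, the hypothesis, `KH_half`. -/
theorem expected {E : Finset (Finset (Fin n))} {Q : Finset (Fin n)} (hE : Ch E Q)
    (P : Finset (Fin n) → Prop) [DecidablePred P] (hP : ∀ D, P D → D ≠ ∅ ∧ D ≠ Q)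
    (c : Hm n R → Finset (Fin n) → ℝ) (b : Finset (Fin n) → ℝ)
    (h : ∀ D ∈ Q.powerset.filter P, ∑ h ∈ KH R (insert D E), c h D ≤
      b D * (KH R (insert D E)).card) :
    (∑ h ∈ KH R E, ∑ D ∈ (Cc h Q).filter P, c h D) * 2 ^ R ≤
      (∑ D ∈ Q.powerset.filter P, b D) * (KH R E).card := by
  rw [swap]
  have h1 : ∑ D ∈ Q.powerset.filter P, ∑ h ∈ KH R (insert D E), c h D ≤
      ∑ D ∈ Q.powerset.filter P, b D * (KH R (insert D E)).card := Finset.sum_le_sum h
  have h2 := mul_le_mul_of_nonneg_right h1 (show (0 : ℝ) ≤ 2 ^ R by positivity)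
  refine h2.trans (le_of_eq ?_)
  rw [Finset.sum_mul, Finset.sum_mul]
  refine Finset.sum_congr rfl fun D hD => ?_
  rw [Finset.mem_filter, Finset.mem_powerset] at hD
  have h3 := KH_half (R := R) hE hD.1 (hP D hD.2).1 (hP D hD.2).2
  have h4 : ((KH R (insert D E)).card : ℝ) * 2 ^ R = (KH R E).card := by exact_mod_cast h3
  rw [mul_assoc, h4]

/-- The cost of the leaf table. PROOF. `expected` with `Q = univ`, `E = {univ}`, `c h D = b D = g ^ #D`; sum over the sizes (`Finset.sum_powerset_apply_card` or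
`Finset.card_powersetCard`). -/
theorem table_cost (k : ℕ) {g : ℝ} (hg : 0 ≤ g) :
    (∑ h ∈ KH R ({univ} : Finset (Finset (Fin n))),
      ∑ D ∈ (Cc h univ).filter (fun D => D ≠ ∅ ∧ D ≠ univ ∧ D.card ≤ k), g ^ D.card) * 2 ^ R ≤
      (∑ i ∈ range (k + 1), (n.choose i : ℝ) * g ^ i) *
        (KH R ({univ} : Finset (Finset (Fin n)))).card := by
  refine (expected (R := R) (Ch_univ (n := n))
    (fun D => D ≠ ∅ ∧ D ≠ univ ∧ D.card ≤ k) (fun D hD => ⟨hD.1, hD.2.1⟩)
    (fun _ D => g ^ D.card) (fun D => g ^ D.card) ?_).trans ?_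
  · intro D _
    rw [Finset.sum_const, nsmul_eq_mul, mul_comm]
  · refine mul_le_mul_of_nonneg_right ?_ (Nat.cast_nonneg _)
    rw [← Finset.sum_fiberwise_of_maps_to (t := range (k + 1))
      (g := fun D : Finset (Fin n) => D.card) (fun D hD => by
        rw [Finset.mem_filter] at hD
        exact Finset.mem_range.2 (Nat.lt_succ_of_le hD.2.2.2))]
    refine Finset.sum_le_sum fun i _ => ?_
    have e1 : ∀ D ∈ ((univ : Finset (Fin n)).powerset.filter
        (fun D => D ≠ ∅ ∧ D ≠ univ ∧ D.card ≤ k)).filter (fun D => D.card = i),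
        g ^ D.card = g ^ i := by
      intro D hD
      rw [(Finset.mem_filter.1 hD).2]
    rw [Finset.sum_congr rfl e1, Finset.sum_const, nsmul_eq_mul]
    refine mul_le_mul_of_nonneg_right ?_ (pow_nonneg hg i)
    have hsub : ((univ : Finset (Fin n)).powerset.filter
        (fun D => D ≠ ∅ ∧ D ≠ univ ∧ D.card ≤ k)).filter (fun D => D.card = i) ⊆
        Finset.powersetCard i univ := by
      intro D hD
      rw [Finset.mem_powersetCard]
      exact ⟨Finset.subset_univ _, (Finset.mem_filter.1 hD).2⟩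
    have hc := Finset.card_le_card hsub
    rw [Finset.card_powersetCard, Finset.card_univ, Fintype.card_fin] at hc
    exact_mod_cast hc

end Pool.Agent.MPa9445a.SB
end
end

section

section

/-! The size inequalities. -/

set_option autoImplicit false

open Finset

namespace Pool.Agent.MPa9445a.SB

/-- Level 1, brute force: `0.5001 * 1.33032 = 0.66529 ≤ 0.666`. -/
theorem l1B {n m : ℕ} (hm : (m : ℝ) ≤ (1 / 2 + dl) * n) : thA * m ≤ 666 / 1000 * n := by
  have hn : (0 : ℝ) ≤ n := Nat.cast_nonneg n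
  have h1 : thA = 133032 / 100000 := by
    unfold thA dA
    norm_num
  have h2 : (dl : ℝ) = 1 / 10000 := rfl
  rw [h2] at hm
  rw [h1]
  linarith

private theorem N2a_x : (17 / 10 : ℝ) ≤ 2 ^ (4 / 5 : ℝ) := by
  have h : ((2 : ℝ) ^ (4 / 5 : ℝ)) ^ (5 : ℕ) = 16 := by
    rw [← Real.rpow_natCast, ← Real.rpow_mul (by norm_num)]
    norm_num
  by_contra hc
  rw [not_le] at hc
  have h3 : ((2 : ℝ) ^ (4 / 5 : ℝ)) ^ (5 : ℕ) < (17 / 10 : ℝ) ^ (5 : ℕ) :=
    pow_lt_pow_left₀ hc (by positivity) (by norm_num)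
  rw [h] at h3
  norm_num at h3

private theorem N2a_y : (10 / 7 : ℝ) ≤ 2 ^ (5 / 9 : ℝ) := by
  have h : ((2 : ℝ) ^ (5 / 9 : ℝ)) ^ (9 : ℕ) = 32 := by
    rw [← Real.rpow_natCast, ← Real.rpow_mul (by norm_num)]
    norm_num
  by_contra hc
  rw [not_le] at hc
  have h3 : ((2 : ℝ) ^ (5 / 9 : ℝ)) ^ (9 : ℕ) < (10 / 7 : ℝ) ^ (9 : ℕ) :=
    pow_lt_pow_left₀ hc (by positivity) (by norm_num)
  rw [h] at h3
  norm_num at h3

/-- Level 1, golden lists for the sets `D`. PROOF. `sum_choose_le` with `x = 7 / 10`, `g = 2 ^ gam`: exponent `0.76554 + 0.414 * (0.51458 + 0.6943) = 1.26602`, times `0.5001`. -/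
theorem l1D {n m k : ℕ} (hm : (m : ℝ) ≤ (1 / 2 + dl) * n) (hk : (k : ℝ) ≤ dA * m) :
    ∑ e ∈ range (k + 1), (m.choose e : ℝ) * ((2 : ℝ) ^ gam) ^ e ≤ 2 ^ (666 / 1000 * (n : ℝ)) := by
  have hn : (0 : ℝ) ≤ n := Nat.cast_nonneg n
  have hg1 : (1 : ℝ) ≤ 2 ^ gam := Real.one_le_rpow (by norm_num) (by unfold gam; norm_num)
  have h1 := sum_choose_le m k (x := 7 / 10) (g := (2 : ℝ) ^ gam) (by norm_num) (by linarith)
  refine h1.trans ?_
  have h2 : (1 + 7 / 10 : ℝ) ^ m ≤ 2 ^ (4 / 5 * (m : ℝ)) := by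
    rw [Real.rpow_mul (by norm_num), Real.rpow_natCast]
    exact pow_le_pow_left₀ (by norm_num) (by have := N2a_x; linarith) m
  have h3 : ((2 : ℝ) ^ gam / (7 / 10)) ^ k ≤ 2 ^ ((gam + 5 / 9) * (k : ℝ)) := by
    rw [Real.rpow_mul (by norm_num), Real.rpow_natCast]
    refine pow_le_pow_left₀ (by positivity) ?_ k
    rw [Real.rpow_add (by norm_num)]
    have h4 : (2 : ℝ) ^ gam / (7 / 10) = 2 ^ gam * (10 / 7) := by ring
    rw [h4]
    exact mul_le_mul_of_nonneg_left N2a_y (by positivity)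
  calc (1 + 7 / 10 : ℝ) ^ m * ((2 : ℝ) ^ gam / (7 / 10)) ^ k
      ≤ 2 ^ (4 / 5 * (m : ℝ)) * 2 ^ ((gam + 5 / 9) * (k : ℝ)) :=
        mul_le_mul h2 h3 (by positivity) (by positivity)
    _ = 2 ^ (4 / 5 * (m : ℝ) + (gam + 5 / 9) * (k : ℝ)) := (Real.rpow_add (by norm_num) _ _).symm
    _ ≤ 2 ^ (666 / 1000 * (n : ℝ)) := by
        refine Real.rpow_le_rpow_of_exponent_le (by norm_num) ?_
        have e1 : (dl : ℝ) = 1 / 10000 := rfl
        have e2 : (dA : ℝ) = 207 / 500 := rfl
        have e3 : (gam : ℝ) = 6943 / 10000 := rfl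
        rw [e1] at hm
        rw [e2] at hk
        rw [e3]
        linarith

end Pool.Agent.MPa9445a.SB
end

section

/-!
# The score inequality

If `h x ≤ k₀ + k₁ x (1 - x)` for all `x ∈ (0, 1)` then for every frequency `π` the choice
`p = 1 / (1 + 2 ^ (k₁ (1 - 2 π)))` gives expected scores of at most `2 k₀ + (k₁ - 1) π` and `2 k₀ + (k₁ - 1) (1 - π)`.
-/

set_option autoImplicit false

namespace Pool.Agent.MPa9445a.SB

theorem pp_pos (k₁ π : ℝ) : 0 < pp k₁ π := by
  unfold pp; positivity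

theorem pp_lt_one (k₁ π : ℝ) : pp k₁ π < 1 := by
  unfold pp
  rw [div_lt_one (by positivity)]
  have : (0 : ℝ) < 2 ^ (k₁ * (1 - 2 * π)) := by positivity
  linarith

/-- `log₂ ((1 - p) / p) = k₁ (1 - 2 π)`. -/
theorem logb_pp (k₁ π : ℝ) :
    Real.logb 2 (1 - pp k₁ π) - Real.logb 2 (pp k₁ π) = k₁ * (1 - 2 * π) := by
  have h0 := pp_pos k₁ π
  have h1 := pp_lt_one k₁ π
  rw [← Real.logb_div (by linarith) (by linarith)]
  have : (1 - pp k₁ π) / pp k₁ π = 2 ^ (k₁ * (1 - 2 * π)) := by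
    unfold pp
    have : (0 : ℝ) < 2 ^ (k₁ * (1 - 2 * π)) := by positivity
    field_simp
    ring
  rw [this, Real.logb_rpow (by norm_num) (by norm_num)]

/-- The general form: the expected score with fraction `b` of `+` (any real `b`). -/
theorem score_gen {k₀ k₁ : ℝ} (hk : ∀ x, 0 < x → x < 1 → hh x ≤ k₀ + k₁ * (x * (1 - x)))
    (hk₁ : 0 ≤ k₁) (π b : ℝ) :
    (2 - b - π) * (-Real.logb 2 (1 - pp k₁ π)) + (b + π) * (-Real.logb 2 (pp k₁ π)) -
        (b + π - 2 * b * π) ≤ 2 * k₀ + (k₁ - 1) * (b + π - 2 * b * π) := by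
  set p := pp k₁ π with hp
  have h0 := pp_pos k₁ π
  have h1 := pp_lt_one k₁ π
  have hl := logb_pp k₁ π
  have hx := hk p h0 h1
  unfold hh at hx
  rw [← hp] at hl h0 h1
  have key : ∀ b : ℝ, (2 - b - π) * (-Real.logb 2 (1 - p)) + (b + π) * (-Real.logb 2 p) -
      k₁ * (b + π - 2 * b * π) =
      (2 - (2 * p - π) - π) * (-Real.logb 2 (1 - p)) + ((2 * p - π) + π) * (-Real.logb 2 p) -
      k₁ * ((2 * p - π) + π - 2 * (2 * p - π) * π) := by
    intro b
    have : Real.logb 2 (1 - p) = Real.logb 2 p + k₁ * (1 - 2 * π) := by linarith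
    rw [this]; ring
  have h2 := key b
  have h3 : (2 - (2 * p - π) - π) * (-Real.logb 2 (1 - p)) + ((2 * p - π) + π) * (-Real.logb 2 p) =
      2 * (-(p * Real.logb 2 p) - (1 - p) * Real.logb 2 (1 - p)) := by ring
  have h4 : 0 ≤ k₁ * ((2 * p - π - π) ^ 2) := by positivity
  nlinarith [h2, h3, h4, hx]

/-- The expected score of a coordinate where `u = -1` and `P (z = 1) = π`. -/
theorem score_minus {k₀ k₁ : ℝ} (hk : ∀ x, 0 < x → x < 1 → hh x ≤ k₀ + k₁ * (x * (1 - x)))
    (hk₁ : 0 ≤ k₁) (π : ℝ) :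
    (2 - π) * (-Real.logb 2 (1 - pp k₁ π)) + π * (-Real.logb 2 (pp k₁ π)) - π ≤
      2 * k₀ + (k₁ - 1) * π := by
  have := score_gen hk hk₁ π 0
  simpa using this

/-- The expected score of a coordinate where `u = 1` and `P (z = 1) = π`. -/
theorem score_plus {k₀ k₁ : ℝ} (hk : ∀ x, 0 < x → x < 1 → hh x ≤ k₀ + k₁ * (x * (1 - x)))
    (hk₁ : 0 ≤ k₁) (π : ℝ) :
    (1 - π) * (-Real.logb 2 (1 - pp k₁ π)) + (1 + π) * (-Real.logb 2 (pp k₁ π)) - (1 - π) ≤
      2 * k₀ + (k₁ - 1) * (1 - π) := by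
  have := score_gen hk hk₁ π 1
  have e1 : (2 : ℝ) - 1 - π = 1 - π := by ring
  have e2 : (1 : ℝ) + π - 2 * 1 * π = 1 - π := by ring
  rw [e1, e2] at this
  exact this

end Pool.Agent.MPa9445a.SB
end
end
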