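import Pool.Agent.Lib.MP_a9445a_lc.Mg.G120

section

section

/-! Basic properties of the tilted sums. -/

set_option autoImplicit false

open Finset

namespace Pool.Agent.MPa9445a.GL

variable {n : ℕ} (W : Matrix (Fin n) (Fin n) ℤ)

theorem T_nonneg (s : Vc n) (p : ℤ) {q : ℝ} (hq : 1 ≤ q) : 0 ≤ T W s p q := by
  unfold T
  exact sum_nonneg fun x _ => (zpow_pos (lt_of_lt_of_le one_pos hq) _).le

/-- The terms with `Ph W x = p` are `1`. -/
theorem Lv_le_T (s : Vc n) (p : ℤ) {q : ℝ} (hq : 1 ≤ q) : ((Lv W s p).card : ℝ) ≤ T W s p q := by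
  have h0 : 0 < q := lt_of_lt_of_le one_pos hq
  have h1 : ((Lv W s p).card : ℝ) = ∑ x ∈ Lv W s p, q ^ (Ph W x - p) := by
    rw [card_eq_sum_ones, Nat.cast_sum]
    refine sum_congr rfl fun x hx => ?_
    rw [(mem_filter.1 hx).2, sub_self, zpow_zero, Nat.cast_one]
  rw [h1]
  unfold T
  exact sum_le_sum_of_subset_of_nonneg (filter_subset _ _) fun x _ _ => (zpow_pos h0 _).le

/-- If some value is at least `p` then the sum is at least `1`. -/
theorem one_le_T {s : Vc n} {p : ℤ} {q : ℝ} (hq : 1 ≤ q) (h : ∃ x ∈ S s, p ≤ Ph W x) :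
    1 ≤ T W s p q := by
  have h0 : 0 < q := lt_of_lt_of_le one_pos hq
  obtain ⟨x, hx, h1⟩ := h
  have h2 : q ^ (Ph W x - p) ≤ T W s p q := by
    unfold T
    exact single_le_sum (f := fun y => q ^ (Ph W y - p)) (fun y _ => (zpow_pos h0 _).le) hx
  refine le_trans ?_ h2
  exact one_le_zpow₀ hq (by omega)

/-- If all values are at most `p` and `q` is large then the sum is about the number of the vectors of value `p`. PROOF. The terms
with `Ph W x < p` are at most `1 / q`; take `q = 2 ^ (Fr s).card / ε + 1`. -/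
theorem T_small {s : Vc n} {p : ℤ} (h : ∀ x ∈ S s, Ph W x ≤ p) {ε : ℝ} (hε : 0 < ε) :
    ∃ q : ℝ, 1 ≤ q ∧ T W s p q ≤ (Lv W s p).card + ε := by
  set M : ℝ := ((S s).card : ℝ) / ε with hM
  have hM0 : 0 ≤ M := div_nonneg (Nat.cast_nonneg _) hε.le
  refine ⟨M + 1, by linarith, ?_⟩
  have h0 : (0 : ℝ) < M + 1 := by linarith
  have h1 : T W s p (M + 1) = ∑ x ∈ Lv W s p, (M + 1) ^ (Ph W x - p) +
      ∑ x ∈ (S s).filter (fun x => ¬ Ph W x = p), (M + 1) ^ (Ph W x - p) := by
    unfold T Lv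
    exact (sum_filter_add_sum_filter_not (S s) (fun x => Ph W x = p) _).symm
  have h2 : ∑ x ∈ Lv W s p, (M + 1) ^ (Ph W x - p) = ((Lv W s p).card : ℝ) := by
    rw [card_eq_sum_ones, Nat.cast_sum]
    refine sum_congr rfl fun x hx => ?_
    rw [(mem_filter.1 hx).2, sub_self, zpow_zero, Nat.cast_one]
  have h3 : ∑ x ∈ (S s).filter (fun x => ¬ Ph W x = p), (M + 1) ^ (Ph W x - p) ≤ ε := by
    have h4 : ∀ x ∈ (S s).filter (fun x => ¬ Ph W x = p), (M + 1) ^ (Ph W x - p) ≤ (M + 1)⁻¹ := by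
      intro x hx
      obtain ⟨h5, h6⟩ := mem_filter.1 hx
      have h7 := h x h5
      rw [← zpow_neg_one]
      exact zpow_le_zpow_right₀ (by linarith) (by omega)
    refine le_trans (sum_le_card_nsmul _ _ _ h4) ?_
    rw [nsmul_eq_mul]
    have h8 : (((S s).filter (fun x => ¬ Ph W x = p)).card : ℝ) ≤ (S s).card := by
      exact_mod_cast card_le_card (filter_subset _ _)
    have h9 : ((S s).card : ℝ) = M * ε := by
      rw [hM, div_mul_cancel₀ _ hε.ne']
    rw [← div_eq_mul_inv, div_le_iff₀ h0]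
    nlinarith
  rw [h1, h2]
  linarith

/-- If all values are smaller than `p` then the sum is small for large `q`. PROOF. `T_small` and `Lv W s p = ∅`. -/
theorem T_empty {s : Vc n} {p : ℤ} (h : ∀ x ∈ S s, Ph W x < p) :
    ∃ q : ℝ, 1 ≤ q ∧ T W s p q ≤ 1 := by
  obtain ⟨q, hq, h1⟩ := T_small W (s := s) (p := p) (fun x hx => (h x hx).le) one_pos
  refine ⟨q, hq, ?_⟩
  have h2 : Lv W s p = ∅ := by
    unfold Lv
    rw [filter_eq_empty_iff]
    intro x hx h3
    have h4 := h x hx
    omega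
  rw [h2, card_empty, Nat.cast_zero, zero_add] at h1
  exact h1

/-- The sum is given by the numbers of vectors of the levels. -/
theorem T_lvl {W : Matrix (Fin n) (Fin n) ℤ} (hW : Wb W) {s : Vc n} (hs : St s) (p : ℤ) {q : ℝ}
    (hq : 1 ≤ q) : T W s p q = ∑ t ∈ lvl n, ((Lv W s t).card : ℝ) * q ^ (t - p) := by
  have h0 : 0 < q := lt_of_lt_of_le one_pos hq
  have h1 : ∀ x ∈ S s, Ph W x ∈ lvl n := fun x hx => Ph_lvl hW hs hx
  unfold T
  rw [← sum_fiberwise_of_maps_to h1]
  refine sum_congr rfl fun t _ => ?_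
  have h2 : ∀ x ∈ (S s).filter (fun x => Ph W x = t), q ^ (Ph W x - p) = q ^ (t - p) := by
    intro x hx
    rw [(mem_filter.1 hx).2]
  rw [sum_congr rfl h2, sum_const, nsmul_eq_mul]
  rfl

end Pool.Agent.MPa9445a.GL
end

section

/-! The choice of the level and of the tilt. -/

set_option autoImplicit false

open Finset

namespace Pool.Agent.MPa9445a.GL

variable {n : ℕ}

private theorem D1_cont (F : Finset ℤ) (hF : F.Nonempty) (N : ℤ → ℝ) (q₀ : ℝ) :
    ContinuousOn (fun q : ℝ => F.sup' hF fun t => N t * q ^ t) (Set.Icc 1 q₀) := by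
  refine ContinuousOn.finset_sup'_apply hF fun t _ => ?_
  refine continuousOn_const.mul (ContinuousOn.zpow₀ continuousOn_id t fun a ha => Or.inl ?_)
  have : (1 : ℝ) ≤ a := ha.1
  show a ≠ 0
  positivity

/-- all terms are at most the term `t` -/
private theorem D1_T {W : Matrix (Fin n) (Fin n) ℤ} (hW : Wb W) {s : Vc n} (hs : St s) {q : ℝ} (hq : 1 ≤ q)
    {t : ℤ} (h : ∀ t' ∈ lvl n, ((Lv W s t').card : ℝ) * q ^ t' ≤ ((Lv W s t).card : ℝ) * q ^ t) (p : ℤ) :
    T W s p q ≤ LL n * (((Lv W s t).card : ℝ) * q ^ (t - p)) := by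
  have hq0 : 0 < q := by positivity
  rw [T_lvl hW hs p hq]
  have h1 : ∀ t' ∈ lvl n, ((Lv W s t').card : ℝ) * q ^ (t' - p) ≤ ((Lv W s t).card : ℝ) * q ^ (t - p) := by
    intro t' ht'
    rw [zpow_sub₀ hq0.ne', zpow_sub₀ hq0.ne', ← mul_div_assoc, ← mul_div_assoc]
    exact div_le_div_of_nonneg_right (h t' ht') (zpow_pos hq0 p).le
  calc ∑ t' ∈ lvl n, ((Lv W s t').card : ℝ) * q ^ (t' - p) ≤
      ∑ t' ∈ lvl n, ((Lv W s t).card : ℝ) * q ^ (t - p) := Finset.sum_le_sum h1
    _ = LL n * (((Lv W s t).card : ℝ) * q ^ (t - p)) := by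
      rw [Finset.sum_const, card_lvl, nsmul_eq_mul]

/-- PROOF. Let `N t = #Lv W s t` for `t ∈ lvl n`. `∑ t, N t = 2 ^ m ≥ LL n * G`, so some `N t ≥ G`. For `q ≥ 1` let `b q = max {N t * q ^ t : N t ≥ G}`, `c q = max {N t * q ^ t : 0 < N t < G}` (`Finset.sup'`; continuous
in `q > 0`) and `Z q = ∑ t, N t * q ^ t = q ^ p * T W s p q ≤ LL n * max (b q) (c q)`. `b 1 ≥ G > c 1`.
Case A: the second set is empty or `b q₀ ≥ c q₀`: `q = q₀`, `t` = a maximum of `b q₀`: `T s t q₀ = q₀ ^ (-t) Z q₀ ≤ LL n * N t`; the last inequality is trivial (`1 ≤ LL n`).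
Case B: `b q₀ < c q₀`: by the intermediate value theorem there is `q ∈ [1, q₀]` with `b q = c q`; `t` = a maximum of `b q`, `t'` = a maximum of `c q`: `Z q ≤ LL n * N t * q ^ t` and `Z q ≤ LL n * N t' * q ^ t'`, `N t' < G`.
`T s p q = q ^ (-p) Z q ≤ LL n * N t' * q ^ (t' - p)`: if `t' ≤ p` this is at most `LL n * G`; if `p < t'` it is at most `LL n * N t' * q₀ ^ (t' - p) ≤ LL n * T s p q₀` (`T_lvl`). -/
theorem choice {W : Matrix (Fin n) (Fin n) ℤ} (hW : Wb W) {s : Vc n} (hs : St s) {G : ℝ} (hG : 1 ≤ G)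
    (hL : LL n * G ≤ 2 ^ (Fr s).card) (p : ℤ) {q₀ : ℝ} (hq₀ : 1 ≤ q₀) :
    ∃ q t, 1 ≤ q ∧ t ∈ lvl n ∧ G ≤ (Lv W s t).card ∧ T W s t q ≤ LL n * (Lv W s t).card ∧
      T W s p q ≤ LL n * max G (T W s p q₀) := by
  have hLL : (1 : ℝ) ≤ LL n := by
    unfold LL
    push_cast
    have : (0 : ℝ) ≤ (n : ℝ) ^ 4 := by positivity
    linarith
  have hLL0 : (0 : ℝ) ≤ LL n := by linarith
  obtain ⟨N, hN⟩ : ∃ N : ℤ → ℝ, N = fun t => ((Lv W s t).card : ℝ) := ⟨_, rfl⟩
  have hN0 : ∀ t, 0 ≤ N t := by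
    intro t
    rw [hN]
    positivity
  have hsum : ∑ t ∈ lvl n, N t = 2 ^ (Fr s).card := by
    rw [hN]
    show ∑ t ∈ lvl n, ((Lv W s t).card : ℝ) = 2 ^ (Fr s).card
    have := sum_Lv hW hs
    exact_mod_cast this
  -- some level is large
  have hne : (lvl n).Nonempty := by
    rw [← Finset.card_pos, card_lvl]
    unfold LL
    omega
  have hH : ((lvl n).filter fun t => G ≤ N t).Nonempty := by
    by_contra hcon
    rw [Finset.not_nonempty_iff_eq_empty, Finset.filter_eq_empty_iff] at hcon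
    have h1 : ∑ t ∈ lvl n, N t < ∑ _t ∈ lvl n, G :=
      Finset.sum_lt_sum_of_nonempty hne fun t ht => not_le.1 (hcon ht)
    rw [Finset.sum_const, card_lvl, nsmul_eq_mul, hsum] at h1
    linarith
  -- the conclusion for a parameter `q` with `b q ≥ c q`
  have hmaxA : ∀ q : ℝ, 1 ≤ q → ∀ t ∈ lvl n, (∀ t' ∈ lvl n, N t' * q ^ t' ≤ N t * q ^ t) →
      T W s t q ≤ LL n * (Lv W s t).card := by
    intro q hq t _ hm
    have h1 := D1_T hW hs hq (t := t) (by rw [hN] at hm; exact hm) t
    rw [sub_self, zpow_zero, mul_one] at h1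
    exact h1
  have hend : T W s p q₀ ≤ LL n * max G (T W s p q₀) := by
    have h1 : T W s p q₀ ≤ max G (T W s p q₀) := le_max_right _ _
    have h2 : 0 ≤ max G (T W s p q₀) := le_trans (by linarith) (le_max_left _ _)
    calc T W s p q₀ ≤ 1 * max G (T W s p q₀) := by rw [one_mul]; exact h1
      _ ≤ LL n * max G (T W s p q₀) := mul_le_mul_of_nonneg_right hLL h2
  have hpos : ∀ q : ℝ, 1 ≤ q → ∀ t : ℤ, 0 < q ^ t := fun q hq t => zpow_pos (by positivity) t
  by_cases hcase : ∃ t ∈ lvl n, G ≤ N t ∧ ∀ t' ∈ lvl n, N t' * q₀ ^ t' ≤ N t * q₀ ^ t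
  · obtain ⟨t, ht, hGt, hm⟩ := hcase
    refine ⟨q₀, t, hq₀, ht, ?_, hmaxA q₀ hq₀ t ht hm, hend⟩
    rw [hN] at hGt
    exact hGt
  · -- the second set is nonempty
    have hLw : ((lvl n).filter fun t => N t < G).Nonempty := by
      by_contra hcon
      rw [Finset.not_nonempty_iff_eq_empty, Finset.filter_eq_empty_iff] at hcon
      obtain ⟨t, ht, hmt⟩ := Finset.exists_max_image (lvl n) (fun t => N t * q₀ ^ t) hne
      exact hcase ⟨t, ht, not_lt.1 (hcon ht), hmt⟩
    obtain ⟨b, hb⟩ : ∃ b : ℝ → ℝ, b = fun q : ℝ => ((lvl n).filter fun t => G ≤ N t).sup' hH fun t => N t * q ^ t :=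
      ⟨_, rfl⟩
    obtain ⟨c, hc⟩ : ∃ c : ℝ → ℝ, c = fun q : ℝ => ((lvl n).filter fun t => N t < G).sup' hLw fun t => N t * q ^ t :=
      ⟨_, rfl⟩
    have hbc : ContinuousOn (fun q => b q - c q) (Set.Icc 1 q₀) := by
      rw [hb, hc]
      exact (D1_cont _ hH N q₀).sub (D1_cont _ hLw N q₀)
    have hb1 : ∀ q, ∃ t ∈ lvl n, G ≤ N t ∧ b q = N t * q ^ t := by
      intro q
      obtain ⟨t, ht, h1⟩ := Finset.exists_mem_eq_sup' hH fun t => N t * q ^ t
      rw [Finset.mem_filter] at ht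
      refine ⟨t, ht.1, ht.2, ?_⟩
      rw [hb]
      exact h1
    have hb2 : ∀ q, ∀ t ∈ lvl n, G ≤ N t → N t * q ^ t ≤ b q := by
      intro q t ht h1
      rw [hb]
      exact Finset.le_sup' (fun t => N t * q ^ t) (Finset.mem_filter.2 ⟨ht, h1⟩)
    have hc1 : ∀ q, ∃ t ∈ lvl n, N t < G ∧ c q = N t * q ^ t := by
      intro q
      obtain ⟨t, ht, h1⟩ := Finset.exists_mem_eq_sup' hLw fun t => N t * q ^ t
      rw [Finset.mem_filter] at ht
      refine ⟨t, ht.1, ht.2, ?_⟩
      rw [hc]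
      exact h1
    have hc2 : ∀ q, ∀ t ∈ lvl n, N t < G → N t * q ^ t ≤ c q := by
      intro q t ht h1
      rw [hc]
      exact Finset.le_sup' (fun t => N t * q ^ t) (Finset.mem_filter.2 ⟨ht, h1⟩)
    have hf1 : 0 ≤ b 1 - c 1 := by
      obtain ⟨t, ht, h1, h2⟩ := hb1 1
      obtain ⟨t', ht', h3, h4⟩ := hc1 1
      rw [one_zpow, mul_one] at h2 h4
      linarith
    have hf2 : b q₀ - c q₀ ≤ 0 := by
      by_contra hcon
      obtain ⟨t, ht, h1, h2⟩ := hb1 q₀
      refine hcase ⟨t, ht, h1, fun t' ht' => ?_⟩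
      rcases le_or_gt G (N t') with h3 | h3
      · have := hb2 q₀ t' ht' h3
        linarith
      · have := hc2 q₀ t' ht' h3
        linarith
    obtain ⟨q, hq, hfq⟩ := intermediate_value_Icc' hq₀ hbc ⟨hf2, hf1⟩
    have hbq : b q = c q := by
      have : b q - c q = 0 := hfq
      linarith
    have hq1 : 1 ≤ q := hq.1
    obtain ⟨t, ht, h1, h2⟩ := hb1 q
    obtain ⟨t', ht', h3, h4⟩ := hc1 q
    have hm : ∀ t'' ∈ lvl n, N t'' * q ^ t'' ≤ N t * q ^ t := by
      intro t'' ht''
      rcases le_or_gt G (N t'') with h5 | h5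
      · have := hb2 q t'' ht'' h5
        linarith
      · have := hc2 q t'' ht'' h5
        linarith
    have hm' : ∀ t'' ∈ lvl n, N t'' * q ^ t'' ≤ N t' * q ^ t' := by
      intro t'' ht''
      have := hm t'' ht''
      linarith
    refine ⟨q, t, hq1, ht, ?_, hmaxA q hq1 t ht hm, ?_⟩
    · rw [hN] at h1
      exact h1
    · have h5 := D1_T hW hs hq1 (t := t') (by rw [hN] at hm'; exact hm') p
      have h6 : ((Lv W s t').card : ℝ) = N t' := by rw [hN]
      rw [h6] at h5
      refine h5.trans (mul_le_mul_of_nonneg_left ?_ hLL0)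
      rcases le_or_gt t' p with h7 | h7
      · have h8 : q ^ (t' - p) ≤ 1 := zpow_le_one_of_nonpos₀ hq1 (by omega)
        calc N t' * q ^ (t' - p) ≤ N t' * 1 := mul_le_mul_of_nonneg_left h8 (hN0 t')
          _ ≤ G := by rw [mul_one]; exact h3.le
          _ ≤ max G (T W s p q₀) := le_max_left _ _
      · have h8 : q ^ (t' - p) ≤ q₀ ^ (t' - p) := by
          obtain ⟨k, hk⟩ := Int.eq_ofNat_of_zero_le (show 0 ≤ t' - p by omega)
          rw [hk, zpow_natCast, zpow_natCast]
          exact pow_le_pow_left₀ (by positivity) hq.2 k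
        calc N t' * q ^ (t' - p) ≤ N t' * q₀ ^ (t' - p) := mul_le_mul_of_nonneg_left h8 (hN0 t')
          _ ≤ T W s p q₀ := by
            rw [T_lvl hW hs p hq₀, ← h6]
            exact Finset.single_le_sum (f := fun t => ((Lv W s t).card : ℝ) * q₀ ^ (t - p))
              (fun t _ => mul_nonneg (Nat.cast_nonneg _) (hpos q₀ hq₀ _).le) ht'
          _ ≤ max G (T W s p q₀) := le_max_right _ _

end Pool.Agent.MPa9445a.GL
end

section

/-! Uniform distribution. -/

set_option autoImplicit false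

open Finset
open scoped symmDiff

namespace Pool.Agent.MPa9445a.GL

variable {n : ℕ}

private theorem E1_fib (F D : Finset (Fin n)) (hD : D ⊆ F) :
    (univ.filter fun X : Finset (Fin n) => X ∩ F = D).card = 2 ^ (Fᶜ).card := by
  rw [← Finset.card_powerset]
  refine Finset.card_nbij' (fun X => X \ F) (fun E => D ∪ E) ?_ ?_ ?_ ?_
  · intro X _
    simp only [Finset.coe_powerset, Set.mem_preimage, Set.mem_powerset_iff, Finset.coe_subset]
    intro v hv
    rw [Finset.mem_sdiff] at hv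
    exact Finset.mem_compl.2 hv.2
  · intro E hE
    simp only [Finset.coe_powerset, Set.mem_preimage, Set.mem_powerset_iff, Finset.coe_subset] at hE
    simp only [Finset.coe_filter, Finset.mem_univ, true_and, Set.mem_ofPred_eq]
    ext v
    rw [Finset.mem_inter, Finset.mem_union]
    constructor
    · rintro ⟨h1 | h1, h2⟩
      · exact h1
      · exact absurd h2 (Finset.mem_compl.1 (hE h1))
    · intro h1
      exact ⟨Or.inl h1, hD h1⟩
  · intro X hX
    simp only [Finset.coe_filter, Finset.mem_univ, true_and, Set.mem_ofPred_eq] at hX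
    ext v
    rw [Finset.mem_union, ← hX, Finset.mem_inter, Finset.mem_sdiff]
    tauto
  · intro E hE
    simp only [Finset.coe_powerset, Set.mem_preimage, Set.mem_powerset_iff, Finset.coe_subset] at hE
    ext v
    rw [Finset.mem_sdiff, Finset.mem_union]
    constructor
    · rintro ⟨h1 | h1, h2⟩
      · exact absurd (hD h1) h2
      · exact h1
    · intro h1
      exact ⟨Or.inr h1, Finset.mem_compl.1 (hE h1)⟩

/-- PROOF. For every `D ⊆ Fr s` there are `2 ^ (n - #Fr s)` sets `X` with `X ∩ Fr s = D` (bijection with the subsets of the complement of `Fr s`), and `#Fr s ≤ n`. -/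
theorem sum_inter (s : Vc n) (φ : Finset (Fin n) → ℕ) :
    (∑ X, φ (X ∩ Fr s)) * 2 ^ (Fr s).card = 2 ^ n * ∑ D ∈ (Fr s).powerset, φ D := by
  have h1 : ∑ D ∈ (Fr s).powerset, ∑ X ∈ (univ.filter fun X : Finset (Fin n) => X ∩ Fr s = D),
      φ (X ∩ Fr s) = ∑ X, φ (X ∩ Fr s) :=
    Finset.sum_fiberwise_of_maps_to (s := univ) (t := (Fr s).powerset) (g := fun X => X ∩ Fr s)
      (fun X _ => Finset.mem_powerset.2 Finset.inter_subset_right) _
  have h2 : ∀ D ∈ (Fr s).powerset, ∑ X ∈ (univ.filter fun X : Finset (Fin n) => X ∩ Fr s = D),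
      φ (X ∩ Fr s) = 2 ^ ((Fr s)ᶜ).card * φ D := by
    intro D hD
    rw [Finset.sum_congr rfl (g := fun _ => φ D), Finset.sum_const, smul_eq_mul,
      E1_fib (Fr s) D (Finset.mem_powerset.1 hD)]
    intro X hX
    rw [(Finset.mem_filter.1 hX).2]
  rw [← h1, Finset.sum_congr rfl h2, ← Finset.mul_sum]
  have h3 : ((Fr s)ᶜ).card + (Fr s).card = n := by
    rw [add_comm, Finset.card_add_card_compl, Fintype.card_fin]
  calc 2 ^ ((Fr s)ᶜ).card * (∑ D ∈ (Fr s).powerset, φ D) * 2 ^ (Fr s).card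
      = (2 ^ ((Fr s)ᶜ).card * 2 ^ (Fr s).card) * ∑ D ∈ (Fr s).powerset, φ D := by ring
    _ = 2 ^ n * ∑ D ∈ (Fr s).powerset, φ D := by rw [← pow_add, h3]

/-- PROOF. `sum_inter` with the indicator of `vc s D ∈ 𝒢` (`vc_eq`); `D ↦ vc s D` is a bijection from the subsets of `Fr s` to `S s`. -/
theorem card_vc {s : Vc n} {𝒢 : Finset (Vc n)} (h : 𝒢 ⊆ S s) :
    (univ.filter fun X => vc s X ∈ 𝒢).card * 2 ^ (Fr s).card = 2 ^ n * 𝒢.card := by
  have h1 := sum_inter s (fun D => if vc s D ∈ 𝒢 then 1 else 0)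
  have h2 : ∑ X : Finset (Fin n), (if vc s (X ∩ Fr s) ∈ 𝒢 then 1 else 0) =
      (univ.filter fun X => vc s X ∈ 𝒢).card := by
    rw [Finset.card_filter]
    refine Finset.sum_congr rfl fun X _ => ?_
    have e : vc s (X ∩ Fr s) = vc s X := by
      rw [vc_eq, Finset.inter_assoc, Finset.inter_self]
    rw [e]
  have h3 : ∑ D ∈ (Fr s).powerset, (if vc s D ∈ 𝒢 then 1 else 0) = 𝒢.card := by
    rw [← Finset.card_filter]
    refine Finset.card_nbij' (fun D => vc s D) (fun x => (Fr s).filter fun v => x v = 1) ?_ ?_ ?_ ?_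
    · intro D hD
      exact (Finset.mem_filter.1 (Finset.mem_coe.1 hD)).2
    · intro x hx
      refine Finset.mem_coe.2 (Finset.mem_filter.2 ⟨Finset.mem_powerset.2 (Finset.filter_subset _ _), ?_⟩)
      rw [vc_self (h (Finset.mem_coe.1 hx))]
      exact Finset.mem_coe.1 hx
    · intro D hD
      have hD' := Finset.mem_powerset.1 (Finset.mem_filter.1 (Finset.mem_coe.1 hD)).1
      ext v
      rw [Finset.mem_filter, mem_Fr]
      constructor
      · rintro ⟨h4, h5⟩
        by_contra h6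
        simp only [vc, h4, if_true, if_neg h6] at h5
        norm_num at h5
      · intro h4
        have h5 : s v = 2 := mem_Fr.1 (hD' h4)
        refine ⟨h5, ?_⟩
        simp only [vc, h5, if_true, if_pos h4]
    · intro x hx
      exact vc_self (h (Finset.mem_coe.1 hx))
  rw [h2, h3] at h1
  exact h1

/-- PROOF. `sum_inter` with the indicator of `fl D y ∈ 𝒢`; `D ↦ fl D y` is a bijection from the subsets of `Fr s` to `S s` (`fl_diff`). -/
theorem card_fl {s y : Vc n} (hy : y ∈ S s) {𝒢 : Finset (Vc n)} (h : 𝒢 ⊆ S s) :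
    (univ.filter fun X => fl (X ∩ Fr s) y ∈ 𝒢).card * 2 ^ (Fr s).card = 2 ^ n * 𝒢.card := by
  have h1 := sum_inter s (fun D => if fl D y ∈ 𝒢 then 1 else 0)
  have h2 : ∑ X : Finset (Fin n), (if fl (X ∩ Fr s) y ∈ 𝒢 then 1 else 0) =
      (univ.filter fun X => fl (X ∩ Fr s) y ∈ 𝒢).card := by
    rw [Finset.card_filter]
  have h3 : ∑ D ∈ (Fr s).powerset, (if fl D y ∈ 𝒢 then 1 else 0) = 𝒢.card := by
    rw [← Finset.card_filter]
    refine Finset.card_nbij' (fun D => fl D y) (fun x => univ.filter fun v => y v ≠ x v) ?_ ?_ ?_ ?_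
    · intro D hD
      exact (Finset.mem_filter.1 (Finset.mem_coe.1 hD)).2
    · intro x hx
      have h4 := fl_diff hy (h (Finset.mem_coe.1 hx))
      refine Finset.mem_coe.2 (Finset.mem_filter.2 ⟨Finset.mem_powerset.2 h4.1, ?_⟩)
      rw [h4.2]
      exact Finset.mem_coe.1 hx
    · intro D hD
      have hD' := Finset.mem_powerset.1 (Finset.mem_filter.1 (Finset.mem_coe.1 hD)).1
      ext v
      refine Finset.mem_filter.trans ?_
      constructor
      · rintro ⟨-, h4⟩
        by_contra h5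
        refine h4 ?_
        change y v = if v ∈ D then -y v else y v
        rw [if_neg h5]
      · intro h4
        have h5 : s v = 2 := mem_Fr.1 (hD' h4)
        have h6 := ((mem_S.1 hy) v).1 h5
        refine ⟨Finset.mem_univ v, ?_⟩
        change y v ≠ if v ∈ D then -y v else y v
        rw [if_pos h4]
        rcases h6 with h6 | h6 <;> rw [h6] <;> norm_num
    · intro x hx
      exact (fl_diff hy (h (Finset.mem_coe.1 hx))).2
  rw [h2, h3] at h1
  exact h1

end Pool.Agent.MPa9445a.GL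
end
end

section

/-! Prefixes: the tilted sums. -/

set_option autoImplicit false

open Finset

namespace Pool.Agent.MPa9445a.GL

variable {n : ℕ}

/-- Being in the same class at depth `i` is symmetric. -/
theorem pre_symm {s x y : Vc n} (hx : x ∈ S s) (hy : y ∈ S s) (i : ℕ) :
    y ∈ S (pre s x i) ↔ pre s y i = pre s x i := by
  rw [mem_S] at hx hy
  rw [mem_S]
  constructor
  · intro h
    funext v
    unfold pre
    by_cases hv : s v = 2 ∧ (v : ℕ) < i
    · rw [if_pos hv, if_pos hv]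
      have h1 := (h v).2
      unfold pre at h1
      rw [if_pos hv] at h1
      apply h1
      intro h2
      rcases (hx v).1 hv.1 with h3 | h3 <;> rw [h3] at h2 <;> norm_num at h2
    · rw [if_neg hv, if_neg hv]
  · intro h v
    have h1 : pre s y i v = pre s x i v := by rw [h]
    unfold pre at h1 ⊢
    by_cases hv : s v = 2 ∧ (v : ℕ) < i
    · rw [if_pos hv, if_pos hv] at h1
      rw [if_pos hv]
      refine ⟨fun _ => (hy v).1 hv.1, fun _ => h1⟩
    · rw [if_neg hv]
      exact hy v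

/-- The set `F i`. PROOF. (Real numbers.) `#F * (A * T₀) ≤ ∑ x ∈ F, T (pre s x i) t q * (T₀ / …)`; precisely: for `x ∈ F`, `1 ≤ T (pre s x i) t q / (C * #Lv (pre s x i) t)`, so
`#F ≤ C⁻¹ ∑ x ∈ Lv s t, (∑ y ∈ S (pre s x i), q ^ (Ph y - t)) / #Lv (pre s x i) t`; exchange the sums: for `y ∈ S s` the vectors `x ∈ Lv s t` with `y ∈ S (pre s x i)` are the
elements of `Lv (pre s y i) t` and have the same `pre` (`pre_symm`), so the inner sum is at most `q ^ (Ph y - t)`: `#F ≤ C⁻¹ T s t q`. -/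
theorem pre_T (W : Matrix (Fin n) (Fin n) ℤ) (s : Vc n) (t : ℤ) {q : ℝ} (hq : 1 ≤ q) (i : ℕ) {C : ℝ}
    (hC : 0 < C) (F : Finset (Vc n)) (hF : F ⊆ Lv W s t)
    (h : ∀ x ∈ F, C * (Lv W (pre s x i) t).card ≤ T W (pre s x i) t q) :
    (F.card : ℝ) * C ≤ T W s t q := by
  classical
  have hinner : ∀ y ∈ S s, ∑ x ∈ Lv W s t, (if y ∈ S (pre s x i) then
      ((Lv W (pre s x i) t).card : ℝ)⁻¹ else 0) ≤ 1 := by
    intro y hy
    have h1 : ∀ x ∈ Lv W s t, (if y ∈ S (pre s x i) then
        ((Lv W (pre s x i) t).card : ℝ)⁻¹ else 0) =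
        (if x ∈ Lv W (pre s y i) t then ((Lv W (pre s y i) t).card : ℝ)⁻¹ else 0) := by
      intro x hx
      have hxS : x ∈ S s := (Finset.mem_filter.mp hx).1
      have hxP : Ph W x = t := (Finset.mem_filter.mp hx).2
      have h2 := pre_symm hxS hy i
      have h3 := pre_symm hy hxS i
      by_cases hp : pre s y i = pre s x i
      · rw [if_pos (h2.mpr hp), if_pos, hp]
        exact Finset.mem_filter.mpr ⟨h3.mpr hp.symm, hxP⟩
      · rw [if_neg fun h => hp (h2.mp h), if_neg]
        intro h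
        exact hp (h3.mp (Finset.mem_filter.mp h).1).symm
    rw [Finset.sum_congr rfl h1, ← Finset.sum_filter, Finset.sum_const, nsmul_eq_mul]
    have h4 : (((Lv W s t).filter fun x => x ∈ Lv W (pre s y i) t).card : ℝ) ≤
        ((Lv W (pre s y i) t).card : ℝ) := by
      exact_mod_cast Finset.card_le_card fun x hx => (Finset.mem_filter.mp hx).2
    rcases Nat.eq_zero_or_pos (Lv W (pre s y i) t).card with h0 | h0
    · rw [h0]; simp
    · have h0' : (0 : ℝ) < ((Lv W (pre s y i) t).card : ℝ) := by exact_mod_cast h0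
      rw [← div_eq_mul_inv, div_le_one h0']
      exact h4
  have hq0 : 0 < q := by linarith
  have hFx : ∀ x ∈ F, C ≤ ∑ y ∈ S s, (if y ∈ S (pre s x i) then
      ((Lv W (pre s x i) t).card : ℝ)⁻¹ else 0) * q ^ (Ph W y - t) := by
    intro x hx
    have hxL := hF hx
    have hxS : x ∈ S s := (Finset.mem_filter.mp hxL).1
    have hxP : Ph W x = t := (Finset.mem_filter.mp hxL).2
    have hc : 0 < (Lv W (pre s x i) t).card :=
      Finset.card_pos.mpr ⟨x, Finset.mem_filter.mpr ⟨pre_mem hxS i, hxP⟩⟩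
    have hc' : (0 : ℝ) < ((Lv W (pre s x i) t).card : ℝ) := by exact_mod_cast hc
    have hsub : S (pre s x i) ⊆ S s := S_Res (Res_pre hxS i)
    have e : ∑ y ∈ S s, (if y ∈ S (pre s x i) then
        ((Lv W (pre s x i) t).card : ℝ)⁻¹ else 0) * q ^ (Ph W y - t) =
        ((Lv W (pre s x i) t).card : ℝ)⁻¹ * T W (pre s x i) t q := by
      rw [T, Finset.mul_sum]
      have : ∀ y ∈ S s, (if y ∈ S (pre s x i) then
          ((Lv W (pre s x i) t).card : ℝ)⁻¹ else 0) * q ^ (Ph W y - t) =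
          if y ∈ S (pre s x i) then
            ((Lv W (pre s x i) t).card : ℝ)⁻¹ * q ^ (Ph W y - t) else 0 := by
        intro y _
        split_ifs <;> simp
      rw [Finset.sum_congr rfl this, ← Finset.sum_filter]
      congr 1
      ext y
      rw [Finset.mem_filter]
      exact ⟨fun h => h.2, fun h => ⟨hsub h, h⟩⟩
    rw [e, mul_comm, ← div_eq_mul_inv, le_div_iff₀ hc']
    exact h x hx
  calc (F.card : ℝ) * C = ∑ x ∈ F, C := by rw [Finset.sum_const, nsmul_eq_mul]
    _ ≤ ∑ x ∈ F, ∑ y ∈ S s, (if y ∈ S (pre s x i) then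
        ((Lv W (pre s x i) t).card : ℝ)⁻¹ else 0) * q ^ (Ph W y - t) := Finset.sum_le_sum hFx
    _ ≤ ∑ x ∈ Lv W s t, ∑ y ∈ S s, (if y ∈ S (pre s x i) then
        ((Lv W (pre s x i) t).card : ℝ)⁻¹ else 0) * q ^ (Ph W y - t) := by
        apply Finset.sum_le_sum_of_subset_of_nonneg hF
        intro x _ _
        apply Finset.sum_nonneg
        intro y _
        apply mul_nonneg
        · split_ifs
          · positivity
          · exact le_rfl
        · exact (zpow_pos hq0 _).le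
    _ = ∑ y ∈ S s, (∑ x ∈ Lv W s t, (if y ∈ S (pre s x i) then
        ((Lv W (pre s x i) t).card : ℝ)⁻¹ else 0)) * q ^ (Ph W y - t) := by
        rw [Finset.sum_comm]
        refine Finset.sum_congr rfl fun y _ => ?_
        rw [Finset.sum_mul]
    _ ≤ ∑ y ∈ S s, 1 * q ^ (Ph W y - t) := by
        apply Finset.sum_le_sum
        intro y hy
        exact mul_le_mul_of_nonneg_right (hinner y hy) (zpow_pos hq0 _).le
    _ = T W s t q := by rw [T]; simp only [one_mul]

end Pool.Agent.MPa9445a.GL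
end

section

/-! Prefixes: the numbers of vectors. -/

set_option autoImplicit false

open Finset

namespace Pool.Agent.MPa9445a.GL

variable {n : ℕ}

private theorem D2b_ext {s x y : Vc n} {i : ℕ} (h : pre s x i = pre s y i)
    (h2 : ∀ v : Fin n, s v = 2 → (v : ℕ) = i → x v = y v) : pre s x (i + 1) = pre s y (i + 1) := by
  funext v
  have h1 := congrFun h v
  unfold pre at h1 ⊢
  by_cases hs : s v = 2
  · by_cases hv : (v : ℕ) < i
    · have hv' : (v : ℕ) < i + 1 := by omega
      rw [if_pos ⟨hs, hv⟩, if_pos ⟨hs, hv⟩] at h1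
      rw [if_pos ⟨hs, hv'⟩, if_pos ⟨hs, hv'⟩]
      exact h1
    · by_cases he : (v : ℕ) = i
      · have hv' : (v : ℕ) < i + 1 := by omega
        rw [if_pos ⟨hs, hv'⟩, if_pos ⟨hs, hv'⟩]
        exact h2 v hs he
      · have hv' : ¬ ((v : ℕ) < i + 1) := by omega
        rw [if_neg fun h => hv' h.2, if_neg fun h => hv' h.2]
  · rw [if_neg fun h => hs h.1, if_neg fun h => hs h.1]

private theorem D2b_class (W : Matrix (Fin n) (Fin n) ℤ) (s : Vc n) (t : ℤ) (j : ℕ) (z : Vc n)
    (F : Finset (Vc n)) (hF : F ⊆ Lv W s t) (h : ∀ x ∈ F, pre s x j = pre s z j) :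
    ∑ x ∈ F, ((Lv W (pre s x j) t).card : ℝ)⁻¹ ≤ 1 := by
  have h1 : ∀ x ∈ F, ((Lv W (pre s x j) t).card : ℝ)⁻¹ = ((Lv W (pre s z j) t).card : ℝ)⁻¹ := by
    intro x hx
    rw [h x hx]
  rw [Finset.sum_congr rfl h1, Finset.sum_const, nsmul_eq_mul]
  have h2 : F ⊆ Lv W (pre s z j) t := by
    intro x hx
    have hxL := Finset.mem_filter.mp (hF hx)
    refine Finset.mem_filter.mpr ⟨?_, hxL.2⟩
    rw [← h x hx]
    exact pre_mem hxL.1 j
  have h3 : (F.card : ℝ) ≤ ((Lv W (pre s z j) t).card : ℝ) := by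
    exact_mod_cast Finset.card_le_card h2
  rcases Nat.eq_zero_or_pos (Lv W (pre s z j) t).card with h0 | h0
  · rw [h0]; simp
  · have h0' : (0 : ℝ) < ((Lv W (pre s z j) t).card : ℝ) := by exact_mod_cast h0
    rw [← div_eq_mul_inv, div_le_one h0']
    exact h3

/-- The set `E i`. PROOF. For `x ∈ E`: `C ≤ #Lv (pre s x i) t / #Lv (pre s x (i + 1)) t` (the denominator is positive as `x` is counted). So
`#E * C ≤ ∑ x ∈ Lv s t, ∑ y ∈ Lv (pre s x i) t, 1 / #Lv (pre s x (i + 1)) t`; exchange the sums: for `y ∈ Lv s t` the vectors `x` with `pre s x i = pre s y i` are in at most two classes `pre s x (i + 1)` (they differ at most in the vertex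
number `i`), and the sum over a class of `1 / #class` is `1`. So it is at most `2 * #Lv s t`. -/
theorem pre_N (W : Matrix (Fin n) (Fin n) ℤ) (s : Vc n) (t : ℤ) (i : ℕ) {C : ℝ} (hC : 0 < C)
    (E : Finset (Vc n)) (hE : E ⊆ Lv W s t)
    (h : ∀ x ∈ E, C * (Lv W (pre s x (i + 1)) t).card ≤ (Lv W (pre s x i) t).card) :
    (E.card : ℝ) * C ≤ 2 * (Lv W s t).card := by
  classical
  have _ := hC
  -- the inner sum is at most 2
  have hinner : ∀ y ∈ Lv W s t, ∑ x ∈ (Lv W s t).filter (fun x => pre s x i = pre s y i),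
      ((Lv W (pre s x (i + 1)) t).card : ℝ)⁻¹ ≤ 2 := by
    intro y hy
    have hyS : y ∈ S s := (Finset.mem_filter.mp hy).1
    rw [← Finset.sum_filter_add_sum_filter_not _ (fun x => pre s x (i + 1) = pre s y (i + 1))]
    have hA : ∑ x ∈ ((Lv W s t).filter (fun x => pre s x i = pre s y i)).filter
        (fun x => pre s x (i + 1) = pre s y (i + 1)),
        ((Lv W (pre s x (i + 1)) t).card : ℝ)⁻¹ ≤ 1 := by
      apply D2b_class W s t (i + 1) y
      · intro x hx
        exact (Finset.mem_filter.mp (Finset.mem_filter.mp hx).1).1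
      · intro x hx
        exact (Finset.mem_filter.mp hx).2
    have hB : ∑ x ∈ ((Lv W s t).filter (fun x => pre s x i = pre s y i)).filter
        (fun x => ¬ pre s x (i + 1) = pre s y (i + 1)),
        ((Lv W (pre s x (i + 1)) t).card : ℝ)⁻¹ ≤ 1 := by
      rcases Finset.eq_empty_or_nonempty (((Lv W s t).filter (fun x => pre s x i = pre s y i)).filter
        (fun x => ¬ pre s x (i + 1) = pre s y (i + 1))) with h0 | ⟨z, hz⟩
      · rw [h0]; simp
      · apply D2b_class W s t (i + 1) z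
        · intro x hx
          exact (Finset.mem_filter.mp (Finset.mem_filter.mp hx).1).1
        · intro x hx
          obtain ⟨hx1, hx2⟩ := Finset.mem_filter.mp hx
          obtain ⟨hz1, hz2⟩ := Finset.mem_filter.mp hz
          obtain ⟨hx3, hx4⟩ := Finset.mem_filter.mp hx1
          obtain ⟨hz3, hz4⟩ := Finset.mem_filter.mp hz1
          have hxS : x ∈ S s := (Finset.mem_filter.mp hx3).1
          have hzS : z ∈ S s := (Finset.mem_filter.mp hz3).1
          apply D2b_ext (hx4.trans hz4.symm)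
          intro v hs hv
          have hne : ∀ w : Vc n, pre s w i = pre s y i → ¬ pre s w (i + 1) = pre s y (i + 1) →
              w v ≠ y v := by
            intro w hw1 hw2 he
            apply hw2
            apply D2b_ext hw1
            intro v' _ hv'
            have : v' = v := Fin.ext (by omega)
            rw [this, he]
          have a1 := hne x hx4 hx2
          have a2 := hne z hz4 hz2
          have b1 := ((mem_S.mp hxS) v).1 hs
          have b2 := ((mem_S.mp hzS) v).1 hs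
          have b3 := ((mem_S.mp hyS) v).1 hs
          rcases b1 with b1 | b1 <;> rcases b2 with b2 | b2 <;> rcases b3 with b3 | b3 <;>
            rw [b1, b3] at a1 <;> rw [b2, b3] at a2 <;> rw [b1, b2] <;>
            first | rfl | exact absurd rfl a1 | exact absurd rfl a2
    linarith
  -- one element of `E`
  have hEx : ∀ x ∈ E, C ≤ ∑ y ∈ Lv W s t, (if pre s x i = pre s y i then
      ((Lv W (pre s x (i + 1)) t).card : ℝ)⁻¹ else 0) := by
    intro x hx
    have hxL := hE hx
    have hxS : x ∈ S s := (Finset.mem_filter.mp hxL).1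
    have hxP : Ph W x = t := (Finset.mem_filter.mp hxL).2
    have hc : 0 < (Lv W (pre s x (i + 1)) t).card :=
      Finset.card_pos.mpr ⟨x, Finset.mem_filter.mpr ⟨pre_mem hxS (i + 1), hxP⟩⟩
    have hc' : (0 : ℝ) < ((Lv W (pre s x (i + 1)) t).card : ℝ) := by exact_mod_cast hc
    rw [← Finset.sum_filter, Finset.sum_const, nsmul_eq_mul]
    have h5 : (Lv W (pre s x i) t) ⊆ (Lv W s t).filter fun y => pre s x i = pre s y i := by
      intro y hy
      obtain ⟨hy1, hy2⟩ := Finset.mem_filter.mp hy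
      have hyS : y ∈ S s := S_Res (Res_pre hxS i) hy1
      exact Finset.mem_filter.mpr ⟨Finset.mem_filter.mpr ⟨hyS, hy2⟩, ((pre_symm hxS hyS i).mp hy1).symm⟩
    have h6 : ((Lv W (pre s x i) t).card : ℝ) ≤
        (((Lv W s t).filter fun y => pre s x i = pre s y i).card : ℝ) := by
      exact_mod_cast Finset.card_le_card h5
    rw [← div_eq_mul_inv, le_div_iff₀ hc']
    exact (h x hx).trans h6
  calc (E.card : ℝ) * C = ∑ x ∈ E, C := by rw [Finset.sum_const, nsmul_eq_mul]
    _ ≤ ∑ x ∈ E, ∑ y ∈ Lv W s t, (if pre s x i = pre s y i then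
        ((Lv W (pre s x (i + 1)) t).card : ℝ)⁻¹ else 0) := Finset.sum_le_sum hEx
    _ ≤ ∑ x ∈ Lv W s t, ∑ y ∈ Lv W s t, (if pre s x i = pre s y i then
        ((Lv W (pre s x (i + 1)) t).card : ℝ)⁻¹ else 0) := by
        apply Finset.sum_le_sum_of_subset_of_nonneg hE
        intro x _ _
        apply Finset.sum_nonneg
        intro y _
        split_ifs
        · positivity
        · exact le_rfl
    _ = ∑ y ∈ Lv W s t, ∑ x ∈ (Lv W s t).filter (fun x => pre s x i = pre s y i),
        ((Lv W (pre s x (i + 1)) t).card : ℝ)⁻¹ := by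
        rw [Finset.sum_comm]
        refine Finset.sum_congr rfl fun y _ => ?_
        rw [Finset.sum_filter]
    _ ≤ ∑ y ∈ Lv W s t, (2 : ℝ) := Finset.sum_le_sum hinner
    _ = 2 * (Lv W s t).card := by rw [Finset.sum_const, nsmul_eq_mul]; ring

end Pool.Agent.MPa9445a.GL
end

section

section

/-! The number of solutions of the decoupled problems. -/

set_option autoImplicit false

open Finset
open scoped symmDiff

namespace Pool.Agent.MPa9445a.SN

variable {n : ℕ} (W : Matrix (Fin n) (Fin n) ℤ)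

/-- PROOF. The pairs `(D, X)`, `|D| = e`, `X ∈ PD W (M + T) D` (`M = ff W X₀`), are mapped injectively to the pairs `(X, X ∆ D)`. By `mem_PD`
`M + T ≤ ff W X + ff W (X ∆ D)`, both values are `≤ M`; so both values are `≥ T`; if one of them is not `≥ T + 1` then it is `T` and the other is `M`. So
the pairs are in `LS (T+1) × LS (T+1) ∪ LS M × LS T ∪ LS T × LS M`. (The injection: `D = X ∆ (X ∆ D)`.) -/
theorem sum_PD {X₀ : Finset (Fin n)} (hX : IsMx W X₀) (T : ℤ) (e : ℕ) :
    ∑ D ∈ lay n e, (PD W (ff W X₀ + T) D).card ≤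
      (LS W (T + 1)).card ^ 2 + 2 * ((LS W (ff W X₀)).card * (LS W T).card) := by
  classical
  rw [← Finset.card_sigma]
  have h1 : ((lay n e).sigma fun D => PD W (ff W X₀ + T) D).card ≤
      (LS W (T + 1) ×ˢ LS W (T + 1) ∪
        (LS W (ff W X₀) ×ˢ LS W T ∪ LS W T ×ˢ LS W (ff W X₀))).card := by
    refine Finset.card_le_card_of_injOn
      (fun p : (_ : Finset (Fin n)) × Finset (Fin n) => (p.2, p.2 ∆ p.1)) ?_ ?_
    · rintro ⟨D, X⟩ hp
      have hp' := (Finset.mem_sigma.mp (Finset.mem_coe.mp hp)).2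
      have h2 := (mem_PD W).1 hp'
      simp only at h2
      have h3 := hX X
      have h4 := hX (X ∆ D)
      apply Finset.mem_coe.mpr
      simp only [Finset.mem_union, Finset.mem_product, LS, Finset.mem_filter, Finset.mem_univ,
        true_and]
      by_cases ha : T + 1 ≤ ff W X
      · by_cases hb : T + 1 ≤ ff W (X ∆ D)
        · exact Or.inl ⟨ha, hb⟩
        · exact Or.inr (Or.inl ⟨by omega, by omega⟩)
      · exact Or.inr (Or.inr ⟨by omega, by omega⟩)
    · rintro ⟨D, X⟩ _ ⟨D', X'⟩ _ he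
      simp only [Prod.mk.injEq] at he
      obtain ⟨rfl, h5⟩ := he
      have h6 : D = D' := symmDiff_right_injective X h5
      rw [h6]
  refine h1.trans ((Finset.card_union_le _ _).trans ?_)
  have h7 := Finset.card_union_le (LS W (ff W X₀) ×ˢ LS W T) (LS W T ×ˢ LS W (ff W X₀))
  rw [Finset.card_product, Finset.card_product] at h7
  rw [Finset.card_product, ← pow_two]
  have h8 : (LS W T).card * (LS W (ff W X₀)).card = (LS W (ff W X₀)).card * (LS W T).card :=
    mul_comm _ _
  omega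

end Pool.Agent.MPa9445a.SN
end

section

/-! The choice of the level. -/

set_option autoImplicit false

open Finset
open scoped symmDiff

namespace Pool.Agent.MPa9445a.SN

variable {n : ℕ} (W : Matrix (Fin n) (Fin n) ℤ)

/-- The choice of the level. PROOF. Let `M = ff W X₀`. If not `2 ^ n ≤ |LS M| 2 ^ σ`: the set of all `t ≤ M` with `2 ^ n ≤ |LS t| 2 ^ σ` is not empty
(for `t` below all values `LS t` is everything, `2 ^ n` elements) and bounded by `M`; let `T` be its maximum. `T < M`. Then `|LS (T+1)| 2 ^ σ < 2 ^ n ≤ |LS T| 2 ^ σ`, so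
`LS (T+1) ≠ LS T`: some `X` has value exactly `T`. Let `g` be the least number with `2 ^ n ≤ |LS T| 2 ^ g`, `g ≤ σ`. If `g = 0` then `|LS T| ≤ 2 ^ n < 2 ^ (n+1)`; otherwise
`|LS T| 2 ^ (g-1) < 2 ^ n`, double it. -/
theorem level {X₀ : Finset (Fin n)} (hX : IsMx W X₀) (σ : ℕ) :
    2 ^ n ≤ (LS W (ff W X₀)).card * 2 ^ σ ∨
      ∃ (T : ℤ) (g : ℕ), g ≤ σ ∧ T < ff W X₀ ∧ (∃ X, ff W X = T) ∧ 2 ^ n ≤ (LS W T).card * 2 ^ g ∧
        (LS W T).card * 2 ^ g < 2 ^ (n + 1) ∧ (LS W (T + 1)).card * 2 ^ σ < 2 ^ n ∧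
        (LS W (ff W X₀)).card * 2 ^ σ < 2 ^ n := by
  classical
  by_cases h : 2 ^ n ≤ (LS W (ff W X₀)).card * 2 ^ σ
  · exact Or.inl h
  right
  have hlt : (LS W (ff W X₀)).card * 2 ^ σ < 2 ^ n := not_le.mp h
  have hcardU : (univ : Finset (Finset (Fin n))).card = 2 ^ n := by
    rw [Finset.card_univ, Fintype.card_finset, Fintype.card_fin]
  -- a value below all values
  obtain ⟨m, hm⟩ : ∃ m : ℤ, ∀ X : Finset (Fin n), m ≤ ff W X := by
    obtain ⟨X₁, -, hX₁⟩ := Finset.exists_min_image (univ : Finset (Finset (Fin n)))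
      (fun X => ff W X) ⟨∅, mem_univ _⟩
    exact ⟨ff W X₁, fun X => hX₁ X (mem_univ _)⟩
  have hLSm : LS W m = univ := by
    ext X
    simp [LS, hm X]
  -- the set of levels
  have hex : ∃ T : ℤ, (2 ^ n ≤ (LS W T).card * 2 ^ σ) ∧
      ∀ z : ℤ, (2 ^ n ≤ (LS W z).card * 2 ^ σ) → z ≤ T := by
    have h1 : ∃ b : ℤ, ∀ z : ℤ, (2 ^ n ≤ (LS W z).card * 2 ^ σ) → z ≤ b := by
      refine ⟨ff W X₀, fun z hz => ?_⟩
      by_contra hcon
      have hz0 : LS W z = ∅ := by
        ext X
        simp only [LS, mem_filter, mem_univ, true_and, notMem_empty, iff_false, not_le]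
        have := hX X
        omega
      rw [hz0] at hz
      simp at hz
    have h2 : ∃ z : ℤ, 2 ^ n ≤ (LS W z).card * 2 ^ σ := by
      refine ⟨m, ?_⟩
      rw [hLSm, hcardU]
      exact Nat.le_mul_of_pos_right _ (by positivity)
    obtain ⟨T, hT1, hT2⟩ := Int.exists_greatest_of_bdd h1 h2
    exact ⟨T, hT1, hT2⟩
  obtain ⟨T, hT1, hT2⟩ := hex
  have hTM : T < ff W X₀ := by
    have hle : T ≤ ff W X₀ := by
      by_contra hcon
      have hz0 : LS W T = ∅ := by
        ext X
        simp only [LS, mem_filter, mem_univ, true_and, notMem_empty, iff_false, not_le]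
        have := hX X
        omega
      rw [hz0] at hT1
      simp at hT1
    rcases lt_or_eq_of_le hle with h1 | h1
    · exact h1
    · rw [← h1] at hlt
      omega
  have hT1lt : (LS W (T + 1)).card * 2 ^ σ < 2 ^ n := by
    by_contra hcon
    have := hT2 (T + 1) (not_lt.mp hcon)
    omega
  have hval : ∃ X, ff W X = T := by
    by_contra hcon
    push Not at hcon
    have heq : LS W (T + 1) = LS W T := by
      ext X
      simp only [LS, mem_filter, mem_univ, true_and]
      have := hcon X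
      constructor <;> intro h1 <;> omega
    rw [heq] at hT1lt
    omega
  have hg : ∃ g, 2 ^ n ≤ (LS W T).card * 2 ^ g := ⟨σ, hT1⟩
  refine ⟨T, Nat.find hg, Nat.find_min' hg hT1, hTM, hval, Nat.find_spec hg, ?_, hT1lt, hlt⟩
  rcases Nat.eq_zero_or_pos (Nat.find hg) with h0 | h0
  · rw [h0]
    have : (LS W T).card ≤ 2 ^ n := by
      rw [← hcardU]
      exact card_le_card (subset_univ _)
    rw [pow_succ]
    have h3 : 0 < 2 ^ n := by positivity
    omega
  · obtain ⟨k, hk⟩ : ∃ k, Nat.find hg = k + 1 := ⟨Nat.find hg - 1, by omega⟩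
    have hmin := Nat.find_min hg (m := k) (by omega)
    rw [hk, pow_succ, pow_succ]
    have h4 : (LS W T).card * 2 ^ k < 2 ^ n := not_le.mp hmin
    calc (LS W T).card * (2 ^ k * 2) = ((LS W T).card * 2 ^ k) * 2 := by ring
      _ < 2 ^ n * 2 := by omega


end Pool.Agent.MPa9445a.SN
end

section

/-! The choice of the level. -/

set_option autoImplicit false

open Finset
open scoped symmDiff

namespace Pool.Agent.MPa9445a.SN

variable {n : ℕ} (W : Matrix (Fin n) (Fin n) ℤ)

private theorem A4_sd (X Z : Finset (Fin n)) : X ∆ Zᶜ = (X ∆ Z)ᶜ := by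
  ext v
  simp only [mem_symmDiff, mem_compl]
  tauto

private theorem A4_half (X₀ : Finset (Fin n)) (T : ℤ) (e : ℕ) (he : e ≤ n) :
    ((LS W T).filter fun Z => (X₀ ∆ Z).card = e).card ≤ ((LS W T).filter fun Z => (X₀ ∆ Z).card = n - e).card := by
  refine Finset.card_le_card_of_injOn (fun Z => Zᶜ) ?_ ?_
  · intro Z hZ
    simp only [coe_filter, mem_filter, Set.mem_setOf_eq] at hZ ⊢
    obtain ⟨h1, h2⟩ := hZ
    refine ⟨?_, ?_⟩
    · simp only [LS, mem_filter, mem_univ, true_and] at h1 ⊢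
      rw [ff_compl]
      exact h1
    · rw [A4_sd, card_compl, Fintype.card_fin, h2]
  · intro Z _ Z' _ h
    exact compl_injective h

/-- The choice of the distance. PROOF. `LS W T` is the disjoint union of its parts with distance `e = 0, .., n` to `X₀`, so one part has at least `|LS T| / (n+1)` elements.
If `2 e ≤ n`: done. Otherwise complementation `Z ↦ Zᶜ` is a bijection of the part `e` with the part `n - e` (`ff_compl`; `X₀ ∆ Zᶜ = (X₀ ∆ Z)ᶜ`). -/
theorem dist (X₀ : Finset (Fin n)) (T : ℤ) :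
    ∃ e, 2 * e ≤ n ∧ (LS W T).card ≤ (n + 1) * ((LS W T).filter fun Z => (X₀ ∆ Z).card = e).card := by
  by_contra hcon
  push Not at hcon
  have h1 : ∀ e ∈ range (n + 1), (n + 1) * ((LS W T).filter fun Z => (X₀ ∆ Z).card = e).card < (LS W T).card := by
    intro e he
    rw [mem_range] at he
    rcases Nat.lt_or_ge n (2 * e) with h | h
    · have h2 := A4_half W X₀ T e (by omega)
      exact (Nat.mul_le_mul_left _ h2).trans_lt (hcon (n - e) (by omega))
    · exact hcon e h
  have h2 : (LS W T).card = ∑ e ∈ range (n + 1), ((LS W T).filter fun Z => (X₀ ∆ Z).card = e).card := by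
    refine card_eq_sum_card_fiberwise ?_
    intro Z _
    rw [coe_range, Set.mem_Iio]
    show (X₀ ∆ _).card < n + 1
    have h3 := card_le_univ (X₀ ∆ Z)
    rw [Fintype.card_fin] at h3
    omega
  have h4 : ∑ e ∈ range (n + 1), (n + 1) * ((LS W T).filter fun Z => (X₀ ∆ Z).card = e).card <
      ∑ _e ∈ range (n + 1), (LS W T).card :=
    sum_lt_sum_of_nonempty ⟨0, by simp⟩ h1
  rw [← mul_sum, ← h2, sum_const, card_range, smul_eq_mul] at h4
  exact lt_irrefl _ h4

end Pool.Agent.MPa9445a.SN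
end
end
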