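import Pool.Agent.Lib.MP_a9445a_lc.Mg.G146
import Pool.Agent.Lib.MP_a9445a_lc.SB.Mod
import Pool.Agent.Lib.MP_a9445a_lc.Mg.G130
import Pool.Agent.Lib.MP_a9445a_lc.Mg.G131
import Pool.Agent.Lib.MP_a9445a_lc.Mg.G119

section

section

/-! Rows: halves and quarters. -/

set_option autoImplicit false

open Finset
open scoped symmDiff

namespace Pool.Agent.MPa9445a.SB

variable {n : ℕ}

private theorem A1_even_symm (A B : Finset (Fin n)) :
    Even (A ∆ B).card ↔ (Even A.card ↔ Even B.card) := by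
  have h1 : (A ∆ B).card = (A \ B).card + (B \ A).card := by
    rw [symmDiff_def, Finset.sup_eq_union, Finset.card_union_of_disjoint disjoint_sdiff_sdiff]
  have h2 : (A \ B).card + (A ∩ B).card = A.card := Finset.card_sdiff_add_card_inter A B
  have h3 : (B \ A).card + (B ∩ A).card = B.card := Finset.card_sdiff_add_card_inter B A
  rw [Finset.inter_comm B A] at h3
  rw [h1, ← h2, ← h3, Nat.even_add, Nat.even_add, Nat.even_add]
  tauto

private theorem A1_inter (P g s : Finset (Fin n)) : P ∩ (g ∆ s) = (P ∩ g) ∆ (P ∩ s) := by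
  ext x
  simp only [Finset.mem_inter, Finset.mem_symmDiff]
  tauto

/-- PROOF. Choose `a ∈ D` and `b ∈ Q \ D`. The involution `g ↦ g ∆ {a, b}` of `rows E` (all `P ∈ E` contain `Q`, so `a, b ∈ P` and the parity of `#(P ∩ g)` does not
change) changes the parity of `#(D ∩ g)`; so the elements of `rows E` with even `#(D ∩ g)` (these form `rows (insert D E)`) are one half. -/
theorem row_half {E : Finset (Finset (Fin n))} {Q : Finset (Fin n)} (hE : Ch E Q)
    {D : Finset (Fin n)} (hD : D ⊆ Q) (h0 : D ≠ ∅) (h1 : D ≠ Q) :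
    (rows (insert D E)).card * 2 = (rows E).card := by
  obtain ⟨a, ha⟩ := Finset.nonempty_iff_ne_empty.2 h0
  obtain ⟨b, hbQ, hbD⟩ := Finset.exists_of_ssubset (Finset.ssubset_iff_subset_ne.2 ⟨hD, h1⟩)
  have hab : a ≠ b := fun h => hbD (h ▸ ha)
  have hP : ∀ P : Finset (Fin n), a ∈ P → b ∈ P → ∀ g : Finset (Fin n),
      Even (P ∩ (g ∆ {a, b})).card ↔ Even (P ∩ g).card := by
    intro P hPa hPb g
    have h2 : P ∩ {a, b} = {a, b} := by
      ext x
      simp only [Finset.mem_inter, Finset.mem_insert, Finset.mem_singleton]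
      constructor
      · exact fun h => h.2
      · rintro (h | h)
        · exact ⟨h ▸ hPa, Or.inl h⟩
        · exact ⟨h ▸ hPb, Or.inr h⟩
    rw [A1_inter, A1_even_symm, h2, Finset.card_pair hab]
    simp
  have hDf : ∀ g : Finset (Fin n), Even (D ∩ (g ∆ {a, b})).card ↔ ¬ Even (D ∩ g).card := by
    intro g
    have h2 : D ∩ {a, b} = {a} := by
      ext x
      simp only [Finset.mem_inter, Finset.mem_insert, Finset.mem_singleton]
      constructor
      · rintro ⟨h3, h4 | h4⟩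
        · exact h4
        · exact absurd (h4 ▸ h3) hbD
      · intro h
        exact ⟨h ▸ ha, Or.inl h⟩
    rw [A1_inter, A1_even_symm, h2, Finset.card_singleton]
    simp
  have hrow : ∀ g ∈ rows E, g ∆ {a, b} ∈ rows E := by
    intro g hg
    rw [rows, Finset.mem_filter] at hg ⊢
    refine ⟨Finset.mem_univ _, fun P hPE => ?_⟩
    exact (hP P (hE.2 P hPE (hD ha)) (hE.2 P hPE hbQ) g).2 (hg.2 P hPE)
  have hins : rows (insert D E) = (rows E).filter fun g => Even (D ∩ g).card := by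
    ext g
    simp only [rows, Finset.mem_filter, Finset.mem_univ, true_and, Finset.forall_mem_insert]
    tauto
  have hbij : ((rows E).filter fun g => Even (D ∩ g).card).card = ((rows E).filter fun g => ¬ Even (D ∩ g).card).card := by
    refine Finset.card_nbij' (fun g => g ∆ {a, b}) (fun g => g ∆ {a, b}) ?_ ?_ ?_ ?_
    · intro g hg
      have hg' := Finset.mem_filter.1 hg
      refine Finset.mem_coe.2 (Finset.mem_filter.2 ⟨hrow g hg'.1, ?_⟩)
      rw [hDf]
      exact not_not.2 hg'.2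
    · intro g hg
      have hg' := Finset.mem_filter.1 hg
      refine Finset.mem_coe.2 (Finset.mem_filter.2 ⟨hrow g hg'.1, ?_⟩)
      rw [hDf]
      exact hg'.2
    · intro g _
      exact symmDiff_symmDiff_cancel_right _ _
    · intro g _
      exact symmDiff_symmDiff_cancel_right _ _
  have hsum := Finset.card_filter_add_card_filter_not (s := rows E) (fun g : Finset (Fin n) => Even (D ∩ g).card)
  rw [hins]
  omega

end Pool.Agent.MPa9445a.SB
end

section

/-! Rows: quarters. -/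

set_option autoImplicit false

open Finset
open scoped symmDiff

namespace Pool.Agent.MPa9445a.SB

variable {n : ℕ}

private theorem A1b_insert {E : Finset (Finset (Fin n))} (D : Finset (Fin n)) :
    rows (insert D E) = (rows E).filter fun g => Even (D ∩ g).card := by
  ext g
  simp only [rows, Finset.mem_filter, Finset.mem_univ, true_and, Finset.mem_insert]
  constructor
  · intro h
    exact ⟨fun P hP => h P (Or.inr hP), h D (Or.inl rfl)⟩
  · rintro ⟨h1, h2⟩ P (rfl | hP)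
    · exact h2
    · exact h1 P hP

private theorem A1b_char {E : Finset (Finset (Fin n))} {Q : Finset (Fin n)} (hE : Ch E Q)
    {D : Finset (Fin n)} (hD : D ⊆ Q) (h0 : D ≠ ∅) (h1 : D ≠ Q) :
    ∑ g ∈ rows E, (-1 : ℤ) ^ (D ∩ g).card = 0 := by
  have h := row_half hE hD h0 h1
  rw [A1b_insert] at h
  have h2 : ∀ g ∈ rows E, (-1 : ℤ) ^ (D ∩ g).card
      = 2 * (if Even (D ∩ g).card then 1 else 0) - 1 := by
    intro g _
    by_cases hg : Even (D ∩ g).card
    · rw [if_pos hg, hg.neg_one_pow]; norm_num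
    · rw [if_neg hg, (Nat.not_even_iff_odd.mp hg).neg_one_pow]; norm_num
  rw [Finset.sum_congr rfl h2, Finset.sum_sub_distrib, ← Finset.mul_sum, Finset.sum_boole]
  simp only [Finset.sum_const, nsmul_eq_mul, mul_one]
  have h3 : ((((rows E).filter fun g => Even (D ∩ g).card).card : ℕ) : ℤ) * 2 = ((rows E).card : ℤ) := by
    exact_mod_cast h
  linarith

private theorem A1b_mul (D D' g : Finset (Fin n)) :
    (-1 : ℤ) ^ (D ∩ g).card * (-1 : ℤ) ^ (D' ∩ g).card = (-1 : ℤ) ^ ((D ∆ D') ∩ g).card := by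
  have e1 : (D ∩ g).card = ((D \ D') ∩ g).card + ((D ∩ D') ∩ g).card := by
    rw [← Finset.card_union_of_disjoint]
    · congr 1
      ext x
      simp only [Finset.mem_inter, Finset.mem_union, Finset.mem_sdiff]
      tauto
    · rw [Finset.disjoint_left]
      intro x
      simp only [Finset.mem_inter, Finset.mem_sdiff]
      tauto
  have e2 : (D' ∩ g).card = ((D' \ D) ∩ g).card + ((D ∩ D') ∩ g).card := by
    rw [← Finset.card_union_of_disjoint]
    · congr 1
      ext x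
      simp only [Finset.mem_inter, Finset.mem_union, Finset.mem_sdiff]
      tauto
    · rw [Finset.disjoint_left]
      intro x
      simp only [Finset.mem_inter, Finset.mem_sdiff]
      tauto
  have e3 : ((D ∆ D') ∩ g).card = ((D \ D') ∩ g).card + ((D' \ D) ∩ g).card := by
    rw [← Finset.card_union_of_disjoint]
    · congr 1
      ext x
      simp only [Finset.mem_inter, Finset.mem_union, Finset.mem_sdiff, Finset.mem_symmDiff]
      tauto
    · rw [Finset.disjoint_left]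
      intro x
      simp only [Finset.mem_inter, Finset.mem_sdiff]
      tauto
  rw [e1, e2, e3, pow_add, pow_add, pow_add]
  have e4 : (-1 : ℤ) ^ ((D ∩ D') ∩ g).card * (-1 : ℤ) ^ ((D ∩ D') ∩ g).card = 1 := by
    rw [← pow_add]
    exact (Even.neg_one_pow ⟨_, rfl⟩)
  calc (-1 : ℤ) ^ ((D \ D') ∩ g).card * (-1 : ℤ) ^ ((D ∩ D') ∩ g).card
        * ((-1 : ℤ) ^ ((D' \ D) ∩ g).card * (-1 : ℤ) ^ ((D ∩ D') ∩ g).card)
      = (-1 : ℤ) ^ ((D \ D') ∩ g).card * (-1 : ℤ) ^ ((D' \ D) ∩ g).card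
        * ((-1 : ℤ) ^ ((D ∩ D') ∩ g).card * (-1 : ℤ) ^ ((D ∩ D') ∩ g).card) := by ring
    _ = _ := by rw [e4, mul_one]

/-- PROOF. Let `f g` be the pair of the parities of `#(D ∩ g)`, `#(D' ∩ g)`. At least three of the four sets `D ∩ D'`, `D \ D'`, `D' \ D`, `Q \ (D ∪ D')` are nonempty (otherwise `D` or `D'` is `∅` or `Q`
or `D' = D` or `D' = Q \ D`). Flipping `g` at two elements `a, b` of different ones of these sets (`g ↦ g ∆ {a, b}`, an involution of `rows E`) adds the difference of the two membership vectors to `f g`; three different vectors of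
`𝔽₂²` have differences which span, so all four values of `f` are taken equally often. (Alternatively: `row_half` for the chain `insert D E` is not available as `D'` need not be in `D`; but one can prove: the number of `g ∈ rows E`
with `#(D ∩ g)` even and `#(D' ∩ g)` even is the same as with even/odd, etc.) -/
theorem row_quarter {E : Finset (Finset (Fin n))} {Q : Finset (Fin n)} (hE : Ch E Q)
    {D D' : Finset (Fin n)} (hD : D ⊆ Q) (hD' : D' ⊆ Q) (h0 : D ≠ ∅) (h1 : D ≠ Q) (h0' : D' ≠ ∅)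
    (h1' : D' ≠ Q) (hne : D' ≠ D) (hne' : D' ≠ Q \ D) :
    (rows (insert D' (insert D E))).card * 4 = (rows E).card := by
  classical
  have hs : D ∆ D' ⊆ Q := by
    intro x hx
    rcases Finset.mem_symmDiff.mp hx with ⟨h, _⟩ | ⟨h, _⟩
    · exact hD h
    · exact hD' h
  have hs0 : D ∆ D' ≠ ∅ := by
    intro h
    apply hne
    have : D = D' := by
      rw [← Finset.bot_eq_empty, symmDiff_eq_bot] at h
      exact h
    exact this.symm
  have hs1 : D ∆ D' ≠ Q := by
    intro h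
    apply hne'
    ext x
    have hx : x ∈ D ∆ D' ↔ x ∈ Q := by rw [h]
    rw [Finset.mem_symmDiff] at hx
    rw [Finset.mem_sdiff]
    constructor
    · intro h2
      refine ⟨hD' h2, fun h3 => ?_⟩
      rcases hx.mpr (hD' h2) with ⟨_, h4⟩ | ⟨_, h4⟩
      · exact h4 h2
      · exact h4 h3
    · rintro ⟨h2, h3⟩
      rcases hx.mpr h2 with ⟨h4, _⟩ | ⟨h4, _⟩
      · exact absurd h4 h3
      · exact h4
  have c1 := A1b_char hE hD h0 h1
  have c2 := A1b_char hE hD' h0' h1'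
  have c3 := A1b_char hE hs hs0 hs1
  have key : ∀ g ∈ rows E, (1 : ℤ) + (-1 : ℤ) ^ (D ∩ g).card + (-1 : ℤ) ^ (D' ∩ g).card
      + (-1 : ℤ) ^ ((D ∆ D') ∩ g).card
      = 4 * (if Even (D ∩ g).card ∧ Even (D' ∩ g).card then 1 else 0) := by
    intro g _
    rw [← A1b_mul]
    by_cases hg : Even (D ∩ g).card <;> by_cases hg' : Even (D' ∩ g).card
    · rw [if_pos ⟨hg, hg'⟩, hg.neg_one_pow, hg'.neg_one_pow]; norm_num
    · rw [if_neg (fun h => hg' h.2), hg.neg_one_pow, (Nat.not_even_iff_odd.mp hg').neg_one_pow]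
      norm_num
    · rw [if_neg (fun h => hg h.1), hg'.neg_one_pow, (Nat.not_even_iff_odd.mp hg).neg_one_pow]
      norm_num
    · rw [if_neg (fun h => hg h.1), (Nat.not_even_iff_odd.mp hg').neg_one_pow,
        (Nat.not_even_iff_odd.mp hg).neg_one_pow]
      norm_num
  have hsum := Finset.sum_congr rfl key
  rw [Finset.sum_add_distrib, Finset.sum_add_distrib, Finset.sum_add_distrib, c1, c2, c3,
    ← Finset.mul_sum, Finset.sum_boole] at hsum
  simp only [Finset.sum_const, nsmul_eq_mul, mul_one, add_zero] at hsum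
  rw [A1b_insert, A1b_insert, Finset.filter_filter]
  have : (((((rows E).filter fun g => Even (D ∩ g).card ∧ Even (D' ∩ g).card).card * 4 : ℕ)) : ℤ)
      = ((rows E).card : ℤ) := by
    push_cast
    linarith
  exact_mod_cast this

end Pool.Agent.MPa9445a.SB
end

section

/-! Kraft's inequality for pairs `(D, v)`. -/

set_option autoImplicit false

open Finset

namespace Pool.Agent.MPa9445a.SB

open Pool.Agent.MPa9445a.GL (Vc S)

variable {n : ℕ}

private theorem B1_add (K m k : ℕ) :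
    (2 : ℝ) ^ (-(((m + k : ℕ) : ℝ) / K)) = 2 ^ (-((m : ℝ) / K)) * 2 ^ (-((k : ℝ) / K)) := by
  rw [← Real.rpow_add (by norm_num : (0 : ℝ) < 2)]
  congr 1
  push_cast
  ring

private theorem B1_sum (K : ℕ) {ι : Type} [DecidableEq ι] (s : Finset ι) (f : ι → ℕ) :
    (2 : ℝ) ^ (-(((∑ v ∈ s, f v : ℕ) : ℝ) / K)) = ∏ v ∈ s, (2 : ℝ) ^ (-((f v : ℝ) / K)) := by
  induction s using Finset.induction_on with
  | empty => simp
  | insert a s ha ih => rw [Finset.sum_insert ha, Finset.prod_insert ha, B1_add, ih]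

private theorem B1_in (K : ℕ) (E : Finset (Fin n)) (σ : Sc n) :
    ∑ x ∈ S (bl E), ∏ v ∈ E, (2 : ℝ) ^ (-(((if x v = 1 then σ.b v else σ.a v : ℕ) : ℝ) / K)) =
      ∏ v ∈ E, ((2 : ℝ) ^ (-((σ.a v : ℝ) / K)) + 2 ^ (-((σ.b v : ℝ) / K))) := by
  have h1 : ∀ x : Vc n, ∏ v ∈ E, (2 : ℝ) ^ (-(((if x v = 1 then σ.b v else σ.a v : ℕ) : ℝ) / K)) =
      ∏ v, (fun (v : Fin n) (j : ℤ) => if v ∈ E then
        (2 : ℝ) ^ (-(((if j = 1 then σ.b v else σ.a v : ℕ) : ℝ) / K)) else 1) v (x v) := by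
    intro x
    simp only [Finset.prod_ite_mem, Finset.univ_inter]
  rw [Finset.sum_congr rfl fun x _ => h1 x]
  unfold S
  refine (Finset.prod_univ_sum (fun v : Fin n => (if bl E v = 2 then {1, -1} else {bl E v} :
    Finset ℤ)) (fun (v : Fin n) (j : ℤ) => if v ∈ E then
        (2 : ℝ) ^ (-(((if j = 1 then σ.b v else σ.a v : ℕ) : ℝ) / K)) else 1)).symm.trans ?_
  have h2 : ∀ v : Fin n, (∑ j ∈ (if bl E v = 2 then {1, -1} else {bl E v} : Finset ℤ),
      (if v ∈ E then (2 : ℝ) ^ (-(((if j = 1 then σ.b v else σ.a v : ℕ) : ℝ) / K)) else 1)) =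
      if v ∈ E then ((2 : ℝ) ^ (-((σ.a v : ℝ) / K)) + 2 ^ (-((σ.b v : ℝ) / K))) else 1 := by
    intro v
    by_cases hv : v ∈ E
    · have hb : bl E v = 2 := by simp [bl, hv]
      rw [if_pos hb, if_pos hv]
      rw [Finset.sum_insert (by decide), Finset.sum_singleton]
      simp only [hv, if_true]
      rw [if_neg (by decide : ¬ (-1 : ℤ) = 1)]
      ring
    · have hb : bl E v = 0 := by simp [bl, hv]
      rw [hb, if_neg (by decide : ¬ (0 : ℤ) = 2), if_neg hv, Finset.sum_singleton, if_neg hv]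
  rw [Finset.prod_congr rfl fun v _ => h2 v]
  simp only [Finset.prod_ite_mem, Finset.univ_inter]

/-- PROOF. `S (bl (Q \ D))` are the vectors which are `±1` on `Q \ D` and `0` outside, so
`∑ x ∈ S (bl (Q \ D)), 2 ^ (-(sc σ Q D x / K)) = ∏ v ∈ D, 2 ^ (-(w v / K)) * ∏ v ∈ Q \ D, (2 ^ (-(a v / K)) + 2 ^ (-(b v / K)))` (`Finset.prod_univ_sum` for `Fintype.piFinset`, or induction on `Q \ D`); sum over `D ⊆ Q` by `Finset.prod_add`:
`∏ v ∈ Q, (2 ^ (-w/K) + 2 ^ (-a/K) + 2 ^ (-b/K)) ≤ 1`. -/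
theorem kraft_sum {K : ℕ} {Q : Finset (Fin n)} (σ : Sc n)
    (hσ : ∀ v ∈ Q, Kr K (σ.w v) (σ.a v) (σ.b v)) :
    ∑ D ∈ Q.powerset, ∑ x ∈ S (bl (Q \ D)), (2 : ℝ) ^ (-((sc σ Q D x : ℝ) / K)) ≤ 1 := by
  have h1 : ∀ D ∈ Q.powerset,
      ∑ x ∈ S (bl (Q \ D)), (2 : ℝ) ^ (-((sc σ Q D x : ℝ) / K)) =
        (∏ v ∈ D, (2 : ℝ) ^ (-((σ.w v : ℝ) / K))) *
          ∏ v ∈ Q \ D, ((2 : ℝ) ^ (-((σ.a v : ℝ) / K)) + 2 ^ (-((σ.b v : ℝ) / K))) := by
    intro D _
    rw [← B1_in, Finset.mul_sum]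
    refine Finset.sum_congr rfl fun x _ => ?_
    unfold sc
    rw [B1_add, B1_sum, B1_sum]
  rw [Finset.sum_congr rfl h1, ← Finset.prod_add]
  refine Finset.prod_le_one (fun v _ => by positivity) fun v hv => ?_
  have := hσ v hv
  unfold Kr at this
  linarith

/-- PROOF. `kraft_sum`; a pair with score at most `Θ` contributes at least `2 ^ (-(Θ / K))`. -/
theorem kraft {K : ℕ} (hK : 0 < K) {Q : Finset (Fin n)} (σ : Sc n)
    (hσ : ∀ v ∈ Q, Kr K (σ.w v) (σ.a v) (σ.b v)) (Θ : ℕ) :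
    ((∑ D ∈ Q.powerset, ((S (bl (Q \ D))).filter fun x => sc σ Q D x ≤ Θ).card : ℕ) : ℝ) ≤
      2 ^ ((Θ : ℝ) / K) := by
  have hK' : (0 : ℝ) < K := by exact_mod_cast hK
  have h1 : ((∑ D ∈ Q.powerset, ((S (bl (Q \ D))).filter fun x => sc σ Q D x ≤ Θ).card : ℕ) : ℝ) *
      2 ^ (-((Θ : ℝ) / K)) ≤ 1 := by
    refine le_trans ?_ (kraft_sum σ hσ)
    push_cast
    rw [Finset.sum_mul]
    refine Finset.sum_le_sum fun D _ => ?_
    rw [← nsmul_eq_mul, ← Finset.sum_const]
    refine le_trans (Finset.sum_le_sum (g := fun x => (2 : ℝ) ^ (-((sc σ Q D x : ℝ) / K)))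
      fun x hx => ?_) ?_
    · refine Real.rpow_le_rpow_of_exponent_le (by norm_num) ?_
      have h2 : (sc σ Q D x : ℝ) ≤ Θ := by exact_mod_cast (Finset.mem_filter.1 hx).2
      have h3 := div_le_div_of_nonneg_right h2 hK'.le
      linarith
    · exact Finset.sum_le_sum_of_subset_of_nonneg (Finset.filter_subset _ _)
        fun x _ _ => by positivity
  have h2 : (2 : ℝ) ^ (-((Θ : ℝ) / K)) * 2 ^ ((Θ : ℝ) / K) = 1 := by
    rw [← Real.rpow_add (by norm_num : (0 : ℝ) < 2)]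
    simp
  have h3 : (0 : ℝ) < 2 ^ ((Θ : ℝ) / K) := by positivity
  calc ((∑ D ∈ Q.powerset, ((S (bl (Q \ D))).filter fun x => sc σ Q D x ≤ Θ).card : ℕ) : ℝ)
      = ((∑ D ∈ Q.powerset, ((S (bl (Q \ D))).filter fun x => sc σ Q D x ≤ Θ).card : ℕ) : ℝ) *
        (2 ^ (-((Θ : ℝ) / K)) * 2 ^ ((Θ : ℝ) / K)) := by rw [h2, mul_one]
    _ = (((∑ D ∈ Q.powerset, ((S (bl (Q \ D))).filter fun x => sc σ Q D x ≤ Θ).card : ℕ) : ℝ) *
        2 ^ (-((Θ : ℝ) / K))) * 2 ^ ((Θ : ℝ) / K) := by ring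
    _ ≤ 1 * 2 ^ ((Θ : ℝ) / K) := mul_le_mul_of_nonneg_right h1 h3.le
    _ = 2 ^ ((Θ : ℝ) / K) := one_mul _

end Pool.Agent.MPa9445a.SB
end

section

/-! The expected score. -/

set_option autoImplicit false

open Finset

namespace Pool.Agent.MPa9445a.SB

open Pool.Agent.MPa9445a.GL (Vc S)

variable {n : ℕ}

theorem mem_S_bl {Q : Finset (Fin n)} {x : Vc n} :
    x ∈ S (bl Q) ↔ ∀ v, if v ∈ Q then x v = 1 ∨ x v = -1 else x v = 0 := by
  unfold S bl
  rw [Fintype.mem_piFinset]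
  refine forall_congr' fun v => ?_
  by_cases hv : v ∈ Q
  · simp [hv]
  · simp [hv]

theorem df_sub {Q : Finset (Fin n)} {u z : Vc n} (hu : u ∈ S (bl Q)) (hz : z ∈ S (bl Q)) :
    df u z ⊆ Q := by
  intro v hv
  by_contra hQ
  have h1 := (mem_S_bl.1 hu) v
  have h2 := (mem_S_bl.1 hz) v
  rw [if_neg hQ] at h1 h2
  rw [df, mem_filter] at hv
  exact hv.2 (by rw [h1, h2])

/-- PROOF. `df u (-z) = Q \ df u z`. -/
theorem df_neg {Q : Finset (Fin n)} {u z : Vc n} (hu : u ∈ S (bl Q)) (hz : z ∈ S (bl Q)) :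
    df u (-z) = Q \ df u z := by
  ext v
  have h1 := (mem_S_bl.1 hu) v
  have h2 := (mem_S_bl.1 hz) v
  rw [mem_sdiff, df, df, mem_filter, mem_filter]
  by_cases hQ : v ∈ Q
  · rw [if_pos hQ] at h1 h2
    simp only [mem_univ, true_and, hQ, Pi.neg_apply, ne_eq, not_not]
    rcases h1 with h1 | h1 <;> rcases h2 with h2 | h2 <;> rw [h1, h2] <;> norm_num
  · rw [if_neg hQ] at h1 h2
    simp only [mem_univ, true_and, hQ, Pi.neg_apply, ne_eq, false_and, iff_false, not_not]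
    rw [h1, h2]; norm_num

theorem neg_mem_S {Q : Finset (Fin n)} {z : Vc n} (hz : z ∈ S (bl Q)) : -z ∈ S (bl Q) := by
  rw [mem_S_bl] at hz ⊢
  intro v
  have h2 := hz v
  by_cases hQ : v ∈ Q
  · rw [if_pos hQ] at h2 ⊢
    rw [Pi.neg_apply]
    rcases h2 with h2 | h2 <;> rw [h2] <;> norm_num
  · rw [if_neg hQ] at h2 ⊢
    rw [Pi.neg_apply, h2]; norm_num

theorem fq_mem (S' : Finset (Vc n)) (v : Fin n) : 0 ≤ fq S' v ∧ fq S' v ≤ 1 := by
  unfold fq
  refine ⟨by positivity, ?_⟩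
  rcases Nat.eq_zero_or_pos S'.card with h | h
  · rw [h]; simp
  · rw [div_le_one (by exact_mod_cast h)]
    exact_mod_cast card_filter_le _ _

/-- PROOF. Exchange the sums: `∑ z ∈ S', sc σ Q (df u z) u = ∑ v ∈ Q, (#{z ∈ S' | z v ≠ u v} * w v + #{z ∈ S' | z v = u v} * (b v or a v))`. If `u v = -1` then `#{z v ≠ u v} = π * #S'`, `#{z v = u v} = (1 - π) * #S'` with
`π = fq S' v` and the term is at most `#S' * K * (κ + (k₁ - 1) * π)` by the first inequality of `Ex`; if `u v = 1` the second inequality. Finally `∑ v ∈ Q, #{z ∈ S' | z v ≠ u v} = ∑ z ∈ S', #(df u z)`. -/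
theorem expect {K : ℕ} {κ k₁ : ℝ} {Q : Finset (Fin n)} {S' : Finset (Vc n)} (hS' : S' ⊆ S (bl Q))
    (hne : S'.Nonempty) {u : Vc n} (hu : u ∈ S (bl Q)) {σ : Sc n}
    (h : ∀ v ∈ Q, Ex K κ k₁ (fq S' v) (σ.w v) (σ.a v) (σ.b v)) :
    ∑ z ∈ S', (sc σ Q (df u z) u : ℝ) ≤
      K * (κ * Q.card * S'.card + (k₁ - 1) * ∑ z ∈ S', ((df u z).card : ℝ)) := by
  have hN : (0 : ℝ) < (S'.card : ℝ) := by exact_mod_cast card_pos.2 hne
  -- the score as a sum over Q
  have h1 : ∀ z ∈ S', (sc σ Q (df u z) u : ℝ) =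
      ∑ v ∈ Q, (if u v ≠ z v then (σ.w v : ℝ) else
        (if u v = 1 then (σ.b v : ℝ) else (σ.a v : ℝ))) := by
    intro z hz
    have hsub := df_sub hu (hS' hz)
    have hD : df u z = Q.filter fun v => u v ≠ z v := by
      ext v
      rw [df, mem_filter, mem_filter]
      constructor
      · intro hv
        exact ⟨hsub (by rw [df, mem_filter]; exact hv), hv.2⟩
      · intro hv
        exact ⟨mem_univ _, hv.2⟩
    have hD2 : Q \ df u z = Q.filter fun v => ¬ (u v ≠ z v) := by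
      ext v
      rw [hD, mem_sdiff, mem_filter, mem_filter]
      tauto
    unfold sc
    rw [hD2, hD, sum_filter, sum_filter]
    push_cast
    rw [← sum_add_distrib]
    refine sum_congr rfl fun v _ => ?_
    by_cases hc : u v = z v
    · simp [hc]
    · simp [hc]
  rw [sum_congr rfl h1, sum_comm]
  have h2 : ∑ z ∈ S', ((df u z).card : ℝ) =
      ∑ v ∈ Q, ((S'.filter fun z => u v ≠ z v).card : ℝ) := by
    have : ∀ z ∈ S', ((df u z).card : ℝ) = ∑ v ∈ Q, if u v ≠ z v then (1 : ℝ) else 0 := by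
      intro z hz
      have hsub := df_sub hu (hS' hz)
      have hD : df u z = Q.filter fun v => u v ≠ z v := by
        ext v
        rw [df, mem_filter, mem_filter]
        constructor
        · intro hv
          exact ⟨hsub (by rw [df, mem_filter]; exact hv), hv.2⟩
        · intro hv
          exact ⟨mem_univ _, hv.2⟩
      rw [hD, card_filter]
      push_cast
      rfl
    rw [sum_congr rfl this, sum_comm]
    refine sum_congr rfl fun v _ => ?_
    rw [card_filter]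
    push_cast
    rfl
  rw [h2]
  have h3 : (K : ℝ) * (κ * Q.card * S'.card +
      (k₁ - 1) * ∑ v ∈ Q, ((S'.filter fun z => u v ≠ z v).card : ℝ)) =
      ∑ v ∈ Q, (K : ℝ) * (κ * S'.card + (k₁ - 1) * ((S'.filter fun z => u v ≠ z v).card : ℝ)) := by
    rw [← mul_sum, sum_add_distrib, sum_const, nsmul_eq_mul, ← mul_sum]
    ring
  rw [h3]
  refine sum_le_sum fun v hv => ?_
  have hq : ((S'.filter fun z => z v = 1).card : ℝ) = fq S' v * S'.card := by
    unfold fq
    field_simp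
  have hcomp : ((S'.filter fun z => z v = 1).card : ℝ) +
      ((S'.filter fun z => ¬ z v = 1).card : ℝ) = S'.card := by
    exact_mod_cast card_filter_add_card_filter_not (s := S') (fun z => z v = 1)
  have hpm : ∀ z ∈ S', z v = 1 ∨ z v = -1 := by
    intro z hz
    have := (mem_S_bl.1 (hS' hz)) v
    rwa [if_pos hv] at this
  obtain ⟨hE1, hE2⟩ := h v hv
  have hsum : ∀ c d : ℝ, ∑ z ∈ S', (if u v ≠ z v then c else d) =
      ((S'.filter fun z => u v ≠ z v).card : ℝ) * c +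
      ((S'.filter fun z => ¬ (u v ≠ z v)).card : ℝ) * d := by
    intro c d
    rw [sum_ite, sum_const, sum_const, nsmul_eq_mul, nsmul_eq_mul]
  rw [hsum]
  have huv := (mem_S_bl.1 hu) v
  rw [if_pos hv] at huv
  rcases huv with huv | huv
  · have e1 : (S'.filter fun z => u v ≠ z v) = S'.filter fun z => ¬ z v = 1 := by
      refine filter_congr fun z hz => ?_
      rw [huv]
      constructor
      · intro h h'; exact h h'.symm
      · intro h h'; exact h h'.symm
    have e2 : (S'.filter fun z => ¬ (u v ≠ z v)) = S'.filter fun z => z v = 1 := by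
      refine filter_congr fun z hz => ?_
      rw [huv, not_not]
      exact eq_comm
    rw [e1, e2, if_pos huv, hq]
    have hc : ((S'.filter fun z => ¬ z v = 1).card : ℝ) = (1 - fq S' v) * S'.card := by
      linarith [hcomp, hq]
    rw [hc]
    nlinarith [mul_le_mul_of_nonneg_right hE2 hN.le]
  · have e1 : (S'.filter fun z => u v ≠ z v) = S'.filter fun z => z v = 1 := by
      refine filter_congr fun z hz => ?_
      rw [huv]
      rcases hpm z hz with h | h <;> rw [h] <;> norm_num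
    have e2 : (S'.filter fun z => ¬ (u v ≠ z v)) = S'.filter fun z => ¬ z v = 1 := by
      refine filter_congr fun z hz => ?_
      rw [huv]
      rcases hpm z hz with h | h <;> rw [h] <;> norm_num
    have hne1 : ¬ u v = 1 := by rw [huv]; norm_num
    rw [e1, e2, if_neg hne1, hq]
    have hc : ((S'.filter fun z => ¬ z v = 1).card : ℝ) = (1 - fq S' v) * S'.card := by
      linarith [hcomp, hq]
    rw [hc]
    nlinarith [mul_le_mul_of_nonneg_right hE1 hN.le]

end Pool.Agent.MPa9445a.SB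
end
end

section

/-! The constants. -/

set_option autoImplicit false

namespace Pool.Agent.MPa9445a.SB

/-- The exponent of the budget of the top level; `2 * cc - 1 = 0.333` for the level 1. -/
noncomputable def cc : ℝ := 1333 / 2000

/-- The exponent of the golden procedure. -/
noncomputable def gam : ℝ := 6943 / 10000

/-- The window of the level 1. -/
noncomputable def dA : ℝ := 207 / 500

/-- The window of the level 2. -/
noncomputable def dB : ℝ := 71 / 200

/-- The size of the blocks in the table. -/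
noncomputable def sg : ℝ := 1891 / 10000

/-- The codimension of the code. -/
noncomputable def rr : ℝ := 331 / 2000

/-- The window of the top level is `1 / 2 ± dl`. -/
noncomputable def dl : ℝ := 1 / 10000

/-- The exponent of the brute force of the level 1. -/
noncomputable def thA : ℝ := 2 * (23662 / 100000) + (307 / 100 - 1) * dA + 1 / 10000

/-- The exponent of the brute force of the level 2. -/
noncomputable def thB : ℝ := 2 * (20687 / 100000) + (3225 / 1000 - 1) * dB + 1 / 10000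

end Pool.Agent.MPa9445a.SB
end

section

/-!
# Properties of procedures
-/

set_option autoImplicit false

open Finset

namespace Pool.Agent.MPa9445a.SB

open Pool.Agent.MPa9445a.SN (Fm rs kb)
open Pool.Agent.MPa9445a.GL (Vc S Ph Lv T Par lvl LL la2 xk vc pl fl Wb)

variable {n : ℕ}

/-- `φ` maps the subsets of `Fin n` onto `𝒞` with fibres of the same size. -/
def Fib (φ : Finset (Fin n) → Finset (Fin n)) (𝒞 : Finset (Finset (Fin n))) : Prop :=
  (∀ X, φ X ∈ 𝒞) ∧ ∀ D ∈ 𝒞, (univ.filter fun X => φ X = D).card * 𝒞.card = 2 ^ n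

/-- The properties of the golden procedure: complete or failure; sufficient budgets. -/
structure GO (W : Matrix (Fin n) (Fin n) ℤ) (Go : Rf n) : Prop where
  cpl : ∀ X, ∀ a ∈ lvl n, ∀ j, Go X a j = none ∨ Go X a j = some (Lv W (bl X) a)
  ff : ∀ X a j, X.card ≤ j → Go X a j ≠ none
  gd : ∀ X, ∀ a ∈ lvl n, ∀ q : ℝ, 1 ≤ q → ∀ j : ℕ,
    (pl n 8 : ℝ) * max ((2 : ℝ) ^ (gam * X.card)) (T W (bl X) a q) ≤ 2 ^ j → Go X a j ≠ none

/-- The procedure is sound: its lists consist of vectors of the block of the right value; it does not fail if the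
budget is sufficient for exhaustive search. -/
structure Gd (W : Matrix (Fin n) (Fin n) ℤ) (E : Rf n) : Prop where
  sn : ∀ X, ∀ a ∈ lvl n, ∀ j A, E X a j = some A → A ⊆ Lv W (bl X) a
  ff : ∀ X a j, X.card ≤ j → E X a j ≠ none

open scoped Classical in
/-- The least budget such that the procedure does not fail with this and larger budgets. -/
noncomputable def cr (E : Rf n) (X : Finset (Fin n)) (a : ℤ) : ℕ :=
  if h : ∃ j, ∀ j' ≥ j, E X a j' ≠ none then 2 ^ Nat.find h else 2 ^ n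

/-- The least budget is small in the average: over the matrices `h` such that the ancestors are in the code and over
the random bits of the procedure. -/
def Bnd (W : Matrix (Fin n) (Fin n) ℤ) {R : ℕ} {Ω : Type} [Fintype Ω] (E : Hm n R → Ω → Rf n)
    (X : Finset (Fin n)) (C c : ℝ) : Prop :=
  ∀ 𝓔, Ch 𝓔 X → ∀ a ∈ lvl n, ∀ q : ℝ, 1 ≤ q →
    ∑ h ∈ KH R 𝓔, ∑ ω : Ω, (cr (E h ω) X a : ℝ) ≤
      C * max c (T W (bl X) a q) * ((KH R 𝓔).card * Fintype.card Ω)

/-- The vector `u` is in every list of the procedure. -/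
def Fd (W : Matrix (Fin n) (Fin n) ℤ) (E : Rf n) (X : Finset (Fin n)) (u : Vc n) : Prop :=
  ∀ j A, E X (Ph W u) j = some A → u ∈ A

open scoped Classical in
/-- Every vector is missed only with probability `ε`. -/
def Mis (W : Matrix (Fin n) (Fin n) ℤ) {R : ℕ} {Ω : Type} [Fintype Ω] (E : Hm n R → Ω → Rf n)
    (X : Finset (Fin n)) (ε : ℝ) : Prop :=
  ∀ 𝓔, Ch 𝓔 X → ∀ u ∈ S (bl X),
    ((((KH R 𝓔) ×ˢ (univ : Finset Ω)).filter fun z => ¬ Fd W (E z.1 z.2) X u).card : ℝ) ≤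
      ε * ((KH R 𝓔).card * Fintype.card Ω)

/-- The number of hits of the level `t` is at least one half of the expected number. -/
def Hf (W : Matrix (Fin n) (Fin n) ℤ) (Q : Finset (Fin n)) (g : ℕ) (ω : Fm n) (t : ℤ) : Prop :=
  (Jn n Q.card g * (Lv W (bl Q) t).card : ℝ) ≤ 2 * 2 ^ Q.card * (ht W Q ω (Jn n Q.card g) t).card

end Pool.Agent.MPa9445a.SB
end

section

section

/-! Concentration of the samples. -/

set_option autoImplicit false

open Finset

namespace Pool.Agent.MPa9445a.SB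

open Pool.Agent.MPa9445a.GL (Vc S vc xk Fr)
open Pool.Agent.MPa9445a.SN (Fm rs kb)

variable {n : ℕ}

private theorem B6_cheb (𝒮 : Finset (Finset (Fin n))) {I : ℕ} (hI : I ≤ 2 ^ kb n) :
    ∑ ω : Fm n, ((2 : ℤ) ^ n * (((range I).filter fun i => rs ω i ∈ 𝒮).card : ℤ) - I * 𝒮.card) ^ 2 ≤
      I * 𝒮.card * (Fintype.card (Fm n) : ℤ) * 2 ^ n := by
  classical
  obtain ⟨N, hN⟩ : ∃ N : ℤ, N = (Fintype.card (Fm n) : ℤ) := ⟨_, rfl⟩
  obtain ⟨s, hs⟩ : ∃ s : ℤ, s = (𝒮.card : ℤ) := ⟨_, rfl⟩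
  obtain ⟨M, hM⟩ : ∃ M : ℤ, M = (2 : ℤ) ^ n := ⟨_, rfl⟩
  have hM4 : M ^ 2 = (4 : ℤ) ^ n := by
    rw [hM, ← pow_mul, mul_comm, pow_mul]
    norm_num
  have hMpos : 0 < M := by rw [hM]; positivity
  have hNpos : 0 ≤ N := by rw [hN]; positivity
  have hspos : 0 ≤ s := by rw [hs]; positivity
  let a : ℕ → Fm n → ℤ := fun i ω => if rs ω i ∈ 𝒮 then 1 else 0
  have h1 : ∀ i : ℕ, M * ∑ ω : Fm n, a i ω = s * N := by
    intro i
    have h := SN.rs_mem i 𝒮
    have h' : ∑ ω : Fm n, a i ω = ((univ.filter fun ω : Fm n => rs ω i ∈ 𝒮).card : ℤ) := by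
      simp only [a]
      rw [Finset.sum_boole]
    rw [h', hM, hs, hN, mul_comm]
    exact_mod_cast h
  have h2 : ∀ i ∈ range I, ∀ j ∈ range I, M ^ 2 * ∑ ω : Fm n, a i ω * a j ω =
      s ^ 2 * N + if i = j then (M * s * N - s ^ 2 * N) else 0 := by
    intro i hi j hj
    rw [Finset.mem_range] at hi hj
    by_cases hij : i = j
    · subst hij
      rw [if_pos rfl]
      have h3 : ∑ ω : Fm n, a i ω * a i ω = ∑ ω : Fm n, a i ω := by
        refine Finset.sum_congr rfl fun ω _ => ?_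
        simp only [a]
        split_ifs <;> norm_num
      rw [h3]
      have := h1 i
      linear_combination M * this
    · rw [if_neg hij, add_zero]
      have h := SN.rs_mem2 hij (lt_of_lt_of_le hi hI) (lt_of_lt_of_le hj hI) 𝒮
      have h' : ∑ ω : Fm n, a i ω * a j ω =
          ((univ.filter fun ω : Fm n => rs ω i ∈ 𝒮 ∧ rs ω j ∈ 𝒮).card : ℤ) := by
        rw [← Finset.sum_boole]
        refine Finset.sum_congr rfl fun ω _ => ?_
        simp only [a]
        by_cases h5 : rs ω i ∈ 𝒮 <;> by_cases h6 : rs ω j ∈ 𝒮 <;> simp [h5, h6]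
      rw [h', hM4, hs, hN, mul_comm]
      exact_mod_cast h
  let X : Fm n → ℤ := fun ω => ∑ i ∈ range I, a i ω
  have hXc : ∀ ω : Fm n, X ω = (((range I).filter fun i => rs ω i ∈ 𝒮).card : ℤ) := by
    intro ω
    simp only [X, a]
    rw [Finset.sum_boole]
  have hX1 : M * ∑ ω : Fm n, X ω = I * (s * N) := by
    simp only [X]
    rw [Finset.sum_comm, Finset.mul_sum, Finset.sum_congr rfl fun i _ => h1 i]
    rw [Finset.sum_const, Finset.card_range, nsmul_eq_mul]
  have hX2 : M ^ 2 * ∑ ω : Fm n, X ω ^ 2 = I ^ 2 * (s ^ 2 * N) + I * (M * s * N - s ^ 2 * N) := by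
    have h3 : ∑ ω : Fm n, X ω ^ 2 = ∑ i ∈ range I, ∑ j ∈ range I, ∑ ω : Fm n, a i ω * a j ω := by
      have h4 : ∀ ω : Fm n, X ω ^ 2 = ∑ i ∈ range I, ∑ j ∈ range I, a i ω * a j ω := by
        intro ω
        simp only [X]
        rw [pow_two, Finset.sum_mul_sum]
      rw [Finset.sum_congr rfl fun ω _ => h4 ω, Finset.sum_comm]
      refine Finset.sum_congr rfl fun i _ => ?_
      rw [Finset.sum_comm]
    rw [h3, Finset.mul_sum]
    have h5 : ∀ i ∈ range I, M ^ 2 * ∑ j ∈ range I, ∑ ω : Fm n, a i ω * a j ω =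
        I * (s ^ 2 * N) + (M * s * N - s ^ 2 * N) := by
      intro i hi
      rw [Finset.mul_sum, Finset.sum_congr rfl fun j hj => h2 i hi j hj, Finset.sum_add_distrib,
        Finset.sum_const, Finset.card_range, nsmul_eq_mul, Finset.sum_ite_eq, if_pos hi]
    rw [Finset.sum_congr rfl h5, Finset.sum_const, Finset.card_range, nsmul_eq_mul]
    ring
  have h3 : ∑ ω : Fm n, (M * X ω - I * s) ^ 2 =
      M ^ 2 * ∑ ω : Fm n, X ω ^ 2 - 2 * (I * s) * (M * ∑ ω : Fm n, X ω) + N * (I * s) ^ 2 := by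
    have h4 : ∀ ω : Fm n, (M * X ω - I * s) ^ 2 =
        M ^ 2 * X ω ^ 2 - 2 * (I * s) * (M * X ω) + (I * s) ^ 2 := fun ω => by ring
    rw [Finset.sum_congr rfl fun ω _ => h4 ω, Finset.sum_add_distrib, Finset.sum_sub_distrib,
      ← Finset.mul_sum, ← Finset.mul_sum, ← Finset.mul_sum, Finset.sum_const, Finset.card_univ,
      nsmul_eq_mul, hN]
  have h6 : ∑ ω : Fm n, ((2 : ℤ) ^ n * (((range I).filter fun i => rs ω i ∈ 𝒮).card : ℤ) - I * 𝒮.card) ^ 2 =
      ∑ ω : Fm n, (M * X ω - I * s) ^ 2 := by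
    refine Finset.sum_congr rfl fun ω _ => ?_
    rw [hXc ω, hM, hs]
  rw [h6, h3, hX1, hX2, ← hs, ← hN, ← hM]
  have h5 : (0 : ℤ) ≤ I * s ^ 2 * N := by positivity
  linarith [h5, show (I : ℤ) ^ 2 * (s ^ 2 * N) + I * (M * s * N - s ^ 2 * N) -
    2 * (I * s) * (I * (s * N)) + N * (I * s) ^ 2 = I * s * N * M - I * s ^ 2 * N by ring]

private theorem B6_Fr (Q : Finset (Fin n)) : Fr (bl Q) = Q := by
  ext v
  simp only [Fr, bl]
  by_cases h : v ∈ Q
  · simp [h]
  · simp [h]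

/-- Chebyshev for the number `X` of the `i < I` with `rs ω i ∈ 𝒮`. PROOF. As `SN.hit`: `∑ ω, (X * 2 ^ n - I * #𝒮) ^ 2 ≤ I * #𝒮 * 2 ^ n * #Fm` (`rs_mem`, `rs_mem2`). -/
theorem conc (𝒮 : Finset (Finset (Fin n))) {I : ℕ} (hI : I ≤ 2 ^ kb n) {lam : ℝ} (hlam : 0 < lam) :
    ((univ.filter fun ω : Fm n =>
      lam < |(((range I).filter fun i => rs ω i ∈ 𝒮).card : ℝ) - I * 𝒮.card / 2 ^ n|).card : ℝ) *
      (lam ^ 2 * 2 ^ n) ≤ I * 𝒮.card * Fintype.card (Fm n) := by
  classical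
  have h1 := B6_cheb 𝒮 hI
  have h1' : ∑ ω : Fm n, ((2 : ℝ) ^ n * (((range I).filter fun i => rs ω i ∈ 𝒮).card : ℝ) - I * 𝒮.card) ^ 2 ≤
      I * 𝒮.card * (Fintype.card (Fm n) : ℝ) * 2 ^ n := by
    exact_mod_cast h1
  have hM : (0 : ℝ) < 2 ^ n := by positivity
  set bad : Finset (Fm n) := univ.filter fun ω : Fm n =>
      lam < |(((range I).filter fun i => rs ω i ∈ 𝒮).card : ℝ) - I * 𝒮.card / 2 ^ n| with hbad
  have h2 : (bad.card : ℝ) * (lam ^ 2 * (2 ^ n) ^ 2) ≤
      ∑ ω : Fm n, ((2 : ℝ) ^ n * (((range I).filter fun i => rs ω i ∈ 𝒮).card : ℝ) - I * 𝒮.card) ^ 2 := by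
    rw [← nsmul_eq_mul, ← Finset.sum_const]
    refine (Finset.sum_le_sum fun ω hω => ?_).trans
      (Finset.sum_le_sum_of_subset_of_nonneg (Finset.subset_univ bad) fun _ _ _ => sq_nonneg _)
    have h3 : lam < |(((range I).filter fun i => rs ω i ∈ 𝒮).card : ℝ) - I * 𝒮.card / 2 ^ n| := by
      rw [hbad, Finset.mem_filter] at hω
      exact hω.2
    have h4 : (2 : ℝ) ^ n * (((range I).filter fun i => rs ω i ∈ 𝒮).card : ℝ) - I * 𝒮.card =
        2 ^ n * ((((range I).filter fun i => rs ω i ∈ 𝒮).card : ℝ) - I * 𝒮.card / 2 ^ n) := by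
      field_simp
    rw [h4, mul_pow, mul_comm (lam ^ 2)]
    refine mul_le_mul_of_nonneg_left ?_ (by positivity)
    rw [← sq_abs ((((range I).filter fun i => rs ω i ∈ 𝒮).card : ℝ) - I * 𝒮.card / 2 ^ n)]
    exact pow_le_pow_left₀ hlam.le h3.le 2
  refine le_of_mul_le_mul_right ?_ hM
  calc (bad.card : ℝ) * (lam ^ 2 * 2 ^ n) * 2 ^ n = bad.card * (lam ^ 2 * (2 ^ n) ^ 2) := by ring
    _ ≤ I * 𝒮.card * (Fintype.card (Fm n) : ℝ) * 2 ^ n := h2.trans h1'

/-- The samples `xk (bl Q) ω κ` are uniform in `S (bl Q)`: the same for a set of vectors. PROOF. `conc` with `{X | vc (bl Q) X ∈ 𝒯}` and `GL.card_vc` (`#Fr (bl Q) = #Q`). -/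
theorem concV {Q : Finset (Fin n)} {𝒯 : Finset (Vc n)} (h : 𝒯 ⊆ S (bl Q)) {J : ℕ}
    (hJ : J ≤ 2 ^ kb n) {lam : ℝ} (hlam : 0 < lam) :
    ((univ.filter fun ω : Fm n =>
      lam < |(((range J).filter fun κ => xk (bl Q) ω κ ∈ 𝒯).card : ℝ) -
        J * 𝒯.card / 2 ^ Q.card|).card : ℝ) * (lam ^ 2 * 2 ^ Q.card) ≤
      J * 𝒯.card * Fintype.card (Fm n) := by
  classical
  have h1 := conc (univ.filter fun X : Finset (Fin n) => vc (bl Q) X ∈ 𝒯) hJ hlam
  have h2 := GL.card_vc h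
  rw [B6_Fr] at h2
  have h2' : ((univ.filter fun X : Finset (Fin n) => vc (bl Q) X ∈ 𝒯).card : ℝ) * 2 ^ Q.card = 2 ^ n * 𝒯.card := by
    exact_mod_cast h2
  have hM : (0 : ℝ) < 2 ^ n := by positivity
  have hq : (0 : ℝ) < 2 ^ Q.card := by positivity
  have h3 : ∀ ω : Fm n, ((range J).filter fun i => rs ω i ∈ univ.filter fun X : Finset (Fin n) => vc (bl Q) X ∈ 𝒯) =
      ((range J).filter fun κ => xk (bl Q) ω κ ∈ 𝒯) := by
    intro ω
    refine Finset.filter_congr fun κ _ => ?_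
    rw [Finset.mem_filter]
    exact ⟨fun h => h.2, fun h => ⟨Finset.mem_univ _, h⟩⟩
  have h4 : (J : ℝ) * ((univ.filter fun X : Finset (Fin n) => vc (bl Q) X ∈ 𝒯).card : ℝ) / 2 ^ n = J * 𝒯.card / 2 ^ Q.card := by
    rw [div_eq_div_iff hM.ne' hq.ne', mul_assoc, h2']
    ring
  simp only [h3, h4] at h1
  refine le_of_mul_le_mul_right ?_ hM
  calc ((univ.filter fun ω : Fm n => lam < |(((range J).filter fun κ => xk (bl Q) ω κ ∈ 𝒯).card : ℝ) -
        J * 𝒯.card / 2 ^ Q.card|).card : ℝ) * (lam ^ 2 * 2 ^ Q.card) * 2 ^ n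
      = ((univ.filter fun ω : Fm n => lam < |(((range J).filter fun κ => xk (bl Q) ω κ ∈ 𝒯).card : ℝ) -
        J * 𝒯.card / 2 ^ Q.card|).card : ℝ) * (lam ^ 2 * 2 ^ n) * 2 ^ Q.card := by ring
    _ ≤ J * ((univ.filter fun X : Finset (Fin n) => vc (bl Q) X ∈ 𝒯).card : ℝ) * Fintype.card (Fm n) * 2 ^ Q.card :=
        mul_le_mul_of_nonneg_right h1 hq.le
    _ = J * 𝒯.card * Fintype.card (Fm n) * 2 ^ n := by
        rw [show (J : ℝ) * ((univ.filter fun X : Finset (Fin n) => vc (bl Q) X ∈ 𝒯).card : ℝ) * Fintype.card (Fm n) * 2 ^ Q.card =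
          J * Fintype.card (Fm n) * (((univ.filter fun X : Finset (Fin n) => vc (bl Q) X ∈ 𝒯).card : ℝ) * 2 ^ Q.card) by ring, h2']
        ring

end Pool.Agent.MPa9445a.SB
end

section

/-! The size inequalities. -/

set_option autoImplicit false

open Finset

namespace Pool.Agent.MPa9445a.SB

/-- The sum over the first `k + 1` binomial terms is at most the full power. -/
private theorem N2_sum (m k : ℕ) {x : ℝ} (hx : 0 < x) :
    ∑ e ∈ range (k + 1), (m.choose e : ℝ) * x ^ e ≤ (1 + x) ^ m := by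
  have h1 : (1 + x) ^ m = ∑ e ∈ range (m + 1), (m.choose e : ℝ) * x ^ e := by
    rw [add_comm, add_pow]
    exact Finset.sum_congr rfl fun e _ => by simp [mul_comm]
  rw [h1]
  have h2 : ∑ e ∈ range (k + 1), (m.choose e : ℝ) * x ^ e ≤
      ∑ e ∈ range (max k m + 1), (m.choose e : ℝ) * x ^ e :=
    Finset.sum_le_sum_of_subset_of_nonneg
      (Finset.range_subset_range.2 (Nat.succ_le_succ (le_max_left _ _)))
      fun e _ _ => mul_nonneg (Nat.cast_nonneg _) (pow_nonneg hx.le _)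
  refine h2.trans (le_of_eq ?_)
  refine (Finset.sum_subset (Finset.range_subset_range.2 (Nat.succ_le_succ (le_max_right _ _)))
    fun e _ he => ?_).symm
  have he' : m < e := by
    rw [Finset.mem_range] at he
    omega
  rw [Nat.choose_eq_zero_of_lt he']
  simp

theorem choose_le (m k : ℕ) {x : ℝ} (hx : 0 < x) : (m.choose k : ℝ) * x ^ k ≤ (1 + x) ^ m := by
  refine le_trans ?_ (N2_sum m k hx)
  exact Finset.single_le_sum (f := fun e => (m.choose e : ℝ) * x ^ e)
    (fun e _ => mul_nonneg (Nat.cast_nonneg _) (pow_nonneg hx.le _))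
    (Finset.mem_range.2 (Nat.lt_succ_self k))

/-- PROOF. `C(m, e) g ^ e = C(m, e) x ^ e (g / x) ^ e ≤ C(m, e) x ^ e (g / x) ^ k`. -/
theorem sum_choose_le (m k : ℕ) {x g : ℝ} (hx : 0 < x) (hg : x ≤ g) :
    ∑ e ∈ range (k + 1), (m.choose e : ℝ) * g ^ e ≤ (1 + x) ^ m * (g / x) ^ k := by
  have h1 : 1 ≤ g / x := (one_le_div hx).2 hg
  have h2 : ∑ e ∈ range (k + 1), (m.choose e : ℝ) * g ^ e ≤
      ∑ e ∈ range (k + 1), ((m.choose e : ℝ) * x ^ e) * (g / x) ^ k := by
    refine Finset.sum_le_sum fun e he => ?_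
    have he' : e ≤ k := by
      rw [Finset.mem_range] at he
      omega
    have h3 : (m.choose e : ℝ) * g ^ e = ((m.choose e : ℝ) * x ^ e) * (g / x) ^ e := by
      rw [mul_assoc, ← mul_pow, mul_div_cancel₀ _ hx.ne']
    rw [h3]
    exact mul_le_mul_of_nonneg_left (pow_le_pow_right₀ h1 he')
      (mul_nonneg (Nat.cast_nonneg _) (pow_nonneg hx.le _))
  refine h2.trans ?_
  rw [← Finset.sum_mul]
  exact mul_le_mul_of_nonneg_right (N2_sum m k hx) (pow_nonneg (zero_le_one.trans h1) _)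

end Pool.Agent.MPa9445a.SB
end

section

/-! The size inequalities. -/

set_option autoImplicit false

open Finset

namespace Pool.Agent.MPa9445a.SB

private theorem N2b_pow {a : ℝ} {p q : ℕ} (ha : 0 < a) (hq : 0 < q) (h : a ^ q ≤ 2 ^ p) : a ≤ (2 : ℝ) ^ ((p : ℝ) / q) := by
  have hq' : (q : ℝ) ≠ 0 := by positivity
  have h1 : a ^ q ≤ ((2 : ℝ) ^ ((p : ℝ) / q)) ^ q := by
    rw [← Real.rpow_natCast ((2 : ℝ) ^ ((p : ℝ) / q)) q, ← Real.rpow_mul (by norm_num), div_mul_cancel₀ _ hq',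
      Real.rpow_natCast]
    exact h
  exact le_of_pow_le_pow_left₀ hq.ne' (by positivity) h1

private theorem N2b_17 : (17 / 10 : ℝ) ≤ (2 : ℝ) ^ (49 / 64 : ℝ) := by
  have h := N2b_pow (a := 17 / 10) (p := 49) (q := 64) (by norm_num) (by norm_num) (by norm_num)
  simpa using h

private theorem N2b_107 : (10 / 7 : ℝ) ≤ (2 : ℝ) ^ (35 / 68 : ℝ) := by
  have h := N2b_pow (a := 10 / 7) (p := 35) (q := 68) (by norm_num) (by norm_num) (by norm_num)
  simpa using h

private theorem N2b_155 : (31 / 20 : ℝ) ≤ (2 : ℝ) ^ (19 / 30 : ℝ) := by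
  have h := N2b_pow (a := 31 / 20) (p := 19) (q := 30) (by norm_num) (by norm_num) (by norm_num)
  simpa using h

private theorem N2b_2011 : (20 / 11 : ℝ) ≤ (2 : ℝ) ^ (7 / 8 : ℝ) := by
  have h := N2b_pow (a := 20 / 11) (p := 7) (q := 8) (by norm_num) (by norm_num) (by norm_num)
  simpa using h

private theorem N2b_le {m m' : ℕ} (h2 : (m' : ℝ) ≤ (1 - dA) * m) : m' ≤ m := by
  have h3 : (m' : ℝ) ≤ m := by
    refine h2.trans ?_
    have hm0 : (0 : ℝ) ≤ m := Nat.cast_nonneg m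
    unfold dA
    nlinarith
  exact_mod_cast h3

private theorem N2b_choose {m m' : ℕ} (h : m' ≤ m) :
    (m.choose m' : ℝ) ≤ 2 ^ (49 / 64 * (m : ℝ) + 35 / 68 * ((m : ℝ) - m')) := by
  have h1 := choose_le m (m - m') (x := 7 / 10) (by norm_num)
  rw [Nat.choose_symm h] at h1
  have h3 : (m.choose m' : ℝ) ≤ (17 / 10) ^ m * (10 / 7) ^ (m - m') := by
    have h4 : (m.choose m' : ℝ) = (m.choose m' : ℝ) * (7 / 10) ^ (m - m') * (10 / 7) ^ (m - m') := by
      rw [mul_assoc, ← mul_pow]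
      norm_num
    rw [h4]
    refine mul_le_mul_of_nonneg_right ?_ (by positivity)
    refine h1.trans (le_of_eq ?_)
    norm_num
  refine h3.trans ?_
  have h5 : (17 / 10 : ℝ) ^ m ≤ 2 ^ (49 / 64 * (m : ℝ)) := by
    rw [Real.rpow_mul (by norm_num), Real.rpow_natCast]
    exact pow_le_pow_left₀ (by norm_num) N2b_17 m
  have h6 : (10 / 7 : ℝ) ^ (m - m') ≤ 2 ^ (35 / 68 * ((m : ℝ) - m')) := by
    rw [← Nat.cast_sub h, Real.rpow_mul (by norm_num), Real.rpow_natCast]
    exact pow_le_pow_left₀ (by norm_num) N2b_107 _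
  rw [Real.rpow_add (by norm_num)]
  exact mul_le_mul h5 h6 (by positivity) (by positivity)

/-- Level 2, brute force. PROOF. For `m' = t m`, `t ∈ [0.414, 0.586]`: `C(m, m') = C(m, m - m') ≤ (17/10) ^ m (10/7) ^ (m - m')` (`choose_le` with `x = 7 / 10`), exponent (per `m`)
`2 (0.76554 + (1 - t) 0.51458) + 1.203715 t`, which is increasing in `t`; at `t = 0.586`: `2 * 0.97858 + 0.70538 = 2.66254`, times `0.5001`: `1.33154 ≤ 1.332`. -/
theorem l2B {n m m' : ℕ} (hm : (m : ℝ) ≤ (1 / 2 + dl) * n) (h1 : dA * m ≤ m')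
    (h2 : (m' : ℝ) ≤ (1 - dA) * m) :
    (m.choose m' : ℝ) ^ 2 * 2 ^ (thB * m') ≤ 2 ^ (1332 / 1000 * (n : ℝ)) := by
  have hle := N2b_le h2
  have hc := N2b_choose hle
  have hm0 : (0 : ℝ) ≤ m := Nat.cast_nonneg m
  have hn0 : (0 : ℝ) ≤ n := Nat.cast_nonneg n
  have h3 : (m.choose m' : ℝ) ^ 2 ≤ 2 ^ (2 * (49 / 64 * (m : ℝ) + 35 / 68 * ((m : ℝ) - m'))) := by
    calc (m.choose m' : ℝ) ^ 2 ≤ (2 ^ (49 / 64 * (m : ℝ) + 35 / 68 * ((m : ℝ) - m'))) ^ 2 :=
          pow_le_pow_left₀ (Nat.cast_nonneg _) hc 2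
      _ = 2 ^ (2 * (49 / 64 * (m : ℝ) + 35 / 68 * ((m : ℝ) - m'))) := by
          rw [← Real.rpow_natCast, ← Real.rpow_mul (by norm_num)]
          congr 1
          push_cast
          ring
  calc (m.choose m' : ℝ) ^ 2 * 2 ^ (thB * m') ≤ 2 ^ (2 * (49 / 64 * (m : ℝ) + 35 / 68 * ((m : ℝ) - m'))) * 2 ^ (thB * m') :=
        mul_le_mul_of_nonneg_right h3 (by positivity)
    _ = 2 ^ (2 * (49 / 64 * (m : ℝ) + 35 / 68 * ((m : ℝ) - m')) + thB * m') := by
        rw [Real.rpow_add (by norm_num)]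
    _ ≤ 2 ^ (1332 / 1000 * (n : ℝ)) := by
        apply Real.rpow_le_rpow_of_exponent_le (by norm_num)
        unfold thB dA dB dl at *
        nlinarith

private theorem N2b_thB : 1 ≤ thB := by
  unfold thB dB
  norm_num

/-- Level 2, golden lists for the sets `D`. PROOF. The sum is at most `2 ^ (thB * m')` (`sum_choose_le` with `x = 11 / 20`: exponent `0.63227 + 0.355 * (0.86250 + 0.6943) = 1.18494`); `l2B`. -/
theorem l2D {n m m' k : ℕ} (hm : (m : ℝ) ≤ (1 / 2 + dl) * n) (h1 : dA * m ≤ m')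
    (h2 : (m' : ℝ) ≤ (1 - dA) * m) (hk : (k : ℝ) ≤ dB * m') :
    (m.choose m' : ℝ) ^ 2 * ∑ e ∈ range (k + 1), (m'.choose e : ℝ) * ((2 : ℝ) ^ gam) ^ e ≤
      2 ^ (1332 / 1000 * (n : ℝ)) := by
  refine le_trans (mul_le_mul_of_nonneg_left ?_ (by positivity)) (l2B hm h1 h2)
  have hm0 : (0 : ℝ) ≤ m' := Nat.cast_nonneg m'
  have hg1 : (1 : ℝ) ≤ (2 : ℝ) ^ gam := Real.one_le_rpow (by norm_num) (by unfold gam; norm_num)
  have h3 := sum_choose_le m' k (x := 11 / 20) (g := (2 : ℝ) ^ gam) (by norm_num) (by linarith)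
  refine h3.trans ?_
  have h4 : (1 + 11 / 20 : ℝ) ^ m' ≤ 2 ^ (19 / 30 * (m' : ℝ)) := by
    rw [Real.rpow_mul (by norm_num), Real.rpow_natCast]
    refine pow_le_pow_left₀ (by norm_num) ?_ m'
    refine le_trans (le_of_eq ?_) N2b_155
    norm_num
  have h5 : ((2 : ℝ) ^ gam / (11 / 20)) ^ k ≤ 2 ^ ((gam + 7 / 8) * (k : ℝ)) := by
    rw [Real.rpow_mul (by norm_num), Real.rpow_natCast]
    refine pow_le_pow_left₀ (by positivity) ?_ k
    rw [Real.rpow_add (by norm_num)]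
    calc (2 : ℝ) ^ gam / (11 / 20) = 2 ^ gam * (20 / 11) := by ring
      _ ≤ 2 ^ gam * 2 ^ (7 / 8 : ℝ) := mul_le_mul_of_nonneg_left N2b_2011 (by positivity)
  calc (1 + 11 / 20 : ℝ) ^ m' * ((2 : ℝ) ^ gam / (11 / 20)) ^ k ≤ 2 ^ (19 / 30 * (m' : ℝ)) * 2 ^ ((gam + 7 / 8) * (k : ℝ)) :=
        mul_le_mul h4 h5 (by positivity) (by positivity)
    _ = 2 ^ (19 / 30 * (m' : ℝ) + (gam + 7 / 8) * (k : ℝ)) := by rw [Real.rpow_add (by norm_num)]
    _ ≤ 2 ^ (thB * m') := by
        apply Real.rpow_le_rpow_of_exponent_le (by norm_num)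
        unfold thB gam dB at *
        nlinarith

/-- Level 2, number of the tries. PROOF. `1 ≤ thB`, `l2B`. -/
theorem l2U {n m m' : ℕ} (hm : (m : ℝ) ≤ (1 / 2 + dl) * n) (h1 : dA * m ≤ m')
    (h2 : (m' : ℝ) ≤ (1 - dA) * m) :
    (m.choose m' : ℝ) ^ 2 * 2 ^ m' ≤ 2 ^ (1332 / 1000 * (n : ℝ)) := by
  refine le_trans (mul_le_mul_of_nonneg_left ?_ (by positivity)) (l2B hm h1 h2)
  have hm0 : (0 : ℝ) ≤ m' := Nat.cast_nonneg m'
  rw [← Real.rpow_natCast]
  apply Real.rpow_le_rpow_of_exponent_le (by norm_num)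
  have := N2b_thB
  nlinarith

end Pool.Agent.MPa9445a.SB
end

section

/-! The size inequalities. -/

set_option autoImplicit false

open Finset

namespace Pool.Agent.MPa9445a.SB

/-- The budget of the level 2 is larger than the codimension. PROOF. `C(m, m') ≤ 2 ^ m`; `0.5001 + 0.1655 + 0.00012 ≤ 0.666`. -/
theorem l2C {n m m' : ℕ} (hm : (m : ℝ) ≤ (1 / 2 + dl) * n) :
    (m.choose m' : ℝ) * 2 ^ ((rr + 12 / 100000) * n) ≤ 2 ^ (666 / 1000 * (n : ℝ)) := by
  have hn : (0 : ℝ) ≤ n := Nat.cast_nonneg n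
  have h1 : (m.choose m' : ℝ) ≤ 2 ^ ((1 / 2 + dl) * (n : ℝ)) := by
    have h2 : (m.choose m' : ℝ) ≤ ((2 : ℝ) ^ m) := by
      have := Nat.choose_le_two_pow m m'
      exact_mod_cast this
    refine le_trans h2 ?_
    rw [← Real.rpow_natCast]
    exact Real.rpow_le_rpow_of_exponent_le (by norm_num) hm
  calc (m.choose m' : ℝ) * 2 ^ ((rr + 12 / 100000) * (n : ℝ))
      ≤ 2 ^ ((1 / 2 + dl) * (n : ℝ)) * 2 ^ ((rr + 12 / 100000) * (n : ℝ)) :=
        mul_le_mul_of_nonneg_right h1 (Real.rpow_nonneg (by norm_num) _)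
    _ = 2 ^ ((1 / 2 + dl) * (n : ℝ) + (rr + 12 / 100000) * (n : ℝ)) := (Real.rpow_add (by norm_num) _ _).symm
    _ ≤ 2 ^ (666 / 1000 * (n : ℝ)) := by
        refine Real.rpow_le_rpow_of_exponent_le (by norm_num) ?_
        unfold dl rr
        nlinarith

/-- The leaves are in the table. PROOF. `0.645 * 0.586 * 0.5001 = 0.18903 ≤ 0.1891`. -/
theorem leaf {n m m' k : ℕ} (hm : (m : ℝ) ≤ (1 / 2 + dl) * n) (h2 : (m' : ℝ) ≤ (1 - dA) * m)
    (hk : (k : ℝ) ≤ (1 - dB) * m') : (k : ℝ) ≤ sg * n := by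
  have hn : (0 : ℝ) ≤ n := Nat.cast_nonneg n
  have e1 : (1 - dB : ℝ) = 129 / 200 := by unfold dB; norm_num
  have e2 : (1 - dA : ℝ) = 293 / 500 := by unfold dA; norm_num
  have e3 : (1 / 2 + dl : ℝ) = 5001 / 10000 := by unfold dl; norm_num
  have e4 : (sg : ℝ) = 1891 / 10000 := rfl
  rw [e1] at hk
  rw [e2] at h2
  rw [e3] at hm
  rw [e4]
  linarith

/-- The table. PROOF. `sum_choose_le` with `x = 7 / 30`: exponent `0.30256 + 0.1891 * (2.09954 + 0.6943) = 0.83088 ≤ 0.832`. -/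
theorem tabl {n k : ℕ} (hk : (k : ℝ) ≤ sg * n) :
    ∑ e ∈ range (k + 1), (n.choose e : ℝ) * ((2 : ℝ) ^ gam) ^ e ≤ 2 ^ ((cc + rr) * n) := by
  have hn : (0 : ℝ) ≤ n := Nat.cast_nonneg n
  have hk0 : (0 : ℝ) ≤ k := Nat.cast_nonneg k
  have hg1 : (1 : ℝ) ≤ (2 : ℝ) ^ gam := Real.one_le_rpow (by norm_num) (by unfold gam; norm_num)
  refine le_trans (sum_choose_le n k (x := 7 / 30) (g := (2 : ℝ) ^ gam) (by norm_num) (by linarith)) ?_
  have h1 : (1 + 7 / 30 : ℝ) ≤ 2 ^ (10 / 33 : ℝ) := by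
    have h : ((1 + 7 / 30 : ℝ)) ^ (33 : ℕ) ≤ ((2 : ℝ) ^ (10 / 33 : ℝ)) ^ (33 : ℕ) := by
      rw [← Real.rpow_natCast ((2 : ℝ) ^ (10 / 33 : ℝ)), ← Real.rpow_mul (by norm_num)]
      have e : (10 / 33 : ℝ) * ((33 : ℕ) : ℝ) = ((10 : ℕ) : ℝ) := by norm_num
      rw [e, Real.rpow_natCast]
      norm_num
    exact le_of_pow_le_pow_left₀ (by norm_num) (Real.rpow_nonneg (by norm_num) _) h
  have h2 : (30 / 7 : ℝ) ≤ 2 ^ (21 / 10 : ℝ) := by
    have h : ((30 / 7 : ℝ)) ^ (10 : ℕ) ≤ ((2 : ℝ) ^ (21 / 10 : ℝ)) ^ (10 : ℕ) := by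
      rw [← Real.rpow_natCast ((2 : ℝ) ^ (21 / 10 : ℝ)), ← Real.rpow_mul (by norm_num)]
      have e : (21 / 10 : ℝ) * ((10 : ℕ) : ℝ) = ((21 : ℕ) : ℝ) := by norm_num
      rw [e, Real.rpow_natCast]
      norm_num
    exact le_of_pow_le_pow_left₀ (by norm_num) (Real.rpow_nonneg (by norm_num) _) h
  have h3 : (1 + 7 / 30 : ℝ) ^ n ≤ 2 ^ (10 / 33 * (n : ℝ)) := by
    calc (1 + 7 / 30 : ℝ) ^ n ≤ ((2 : ℝ) ^ (10 / 33 : ℝ)) ^ n := pow_le_pow_left₀ (by norm_num) h1 n
      _ = 2 ^ (10 / 33 * (n : ℝ)) := by rw [← Real.rpow_natCast, ← Real.rpow_mul (by norm_num)]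
  have h4 : ((2 : ℝ) ^ gam / (7 / 30)) ^ k ≤ 2 ^ ((gam + 21 / 10) * (sg * n)) := by
    have h5 : (2 : ℝ) ^ gam / (7 / 30) ≤ 2 ^ (gam + 21 / 10) := by
      rw [Real.rpow_add (by norm_num)]
      have e : (2 : ℝ) ^ gam / (7 / 30) = 2 ^ gam * (30 / 7) := by ring
      rw [e]
      exact mul_le_mul_of_nonneg_left h2 (Real.rpow_nonneg (by norm_num) _)
    calc ((2 : ℝ) ^ gam / (7 / 30)) ^ k ≤ ((2 : ℝ) ^ (gam + 21 / 10)) ^ k :=
          pow_le_pow_left₀ (by positivity) h5 k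
      _ = 2 ^ ((gam + 21 / 10) * (k : ℝ)) := by rw [← Real.rpow_natCast, ← Real.rpow_mul (by norm_num)]
      _ ≤ 2 ^ ((gam + 21 / 10) * (sg * n)) := by
          refine Real.rpow_le_rpow_of_exponent_le (by norm_num) ?_
          refine mul_le_mul_of_nonneg_left hk ?_
          unfold gam; norm_num
  calc (1 + 7 / 30 : ℝ) ^ n * ((2 : ℝ) ^ gam / (7 / 30)) ^ k
      ≤ 2 ^ (10 / 33 * (n : ℝ)) * 2 ^ ((gam + 21 / 10) * (sg * n)) := by
        refine mul_le_mul h3 h4 (by positivity) (Real.rpow_nonneg (by norm_num) _)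
    _ = 2 ^ (10 / 33 * (n : ℝ) + (gam + 21 / 10) * (sg * n)) := (Real.rpow_add (by norm_num) _ _).symm
    _ ≤ 2 ^ ((cc + rr) * (n : ℝ)) := by
        refine Real.rpow_le_rpow_of_exponent_le (by norm_num) ?_
        unfold gam sg cc rr
        nlinarith

/-- PROOF. `goldenRatio ^ 157 < 2 ^ 109` (e.g. `goldenRatio < 1618034 / 1000000` and `norm_num`, or `goldenRatio ^ 157 = fib 157 * goldenRatio + fib 156`), `109 / 157 = 0.69427 < 0.6943`. -/
theorem golden : Real.logb 2 Real.goldenRatio < gam := by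
  have hpos : 0 < Real.goldenRatio := Real.goldenRatio_pos
  have h5 : √(5 : ℝ) < 2236068 / 1000000 := by
    rw [Real.sqrt_lt' (by norm_num)]
    norm_num
  have h1 : Real.goldenRatio < 1618034 / 1000000 := by
    unfold Real.goldenRatio
    linarith
  have h2 : Real.goldenRatio ^ 157 < (2 : ℝ) ^ 109 := by
    calc Real.goldenRatio ^ 157 < (1618034 / 1000000 : ℝ) ^ 157 := pow_lt_pow_left₀ h1 hpos.le (by norm_num)
      _ < 2 ^ 109 := by norm_num
  have h3 : Real.logb 2 (Real.goldenRatio ^ 157) < Real.logb 2 ((2 : ℝ) ^ 109) :=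
    Real.logb_lt_logb (by norm_num) (pow_pos hpos _) h2
  rw [Real.logb_pow, Real.logb_pow, Real.logb_self_eq_one (by norm_num)] at h3
  unfold gam
  push_cast at h3
  linarith

end Pool.Agent.MPa9445a.SB
end
end

section

section

/-! Agreement at random places. -/

set_option autoImplicit false

open Finset

namespace Pool.Agent.MPa9445a.SB

open Pool.Agent.MPa9445a.GL (Vc S)

variable {n : ℕ}

/-- The average over the places. PROOF. For fixed `z` the number of the `I : Fin l → Fin n` with values in `Q` and `z (I i) = u (I i)` for all `i` is `#{v ∈ Q | z v = u v} ^ l` (`Fintype.card_piFinset`); exchange the sums. -/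
theorem agree_sum (Q : Finset (Fin n)) (u : Vc n) (A : Finset (Vc n)) (l : ℕ) :
    ∑ I ∈ Fintype.piFinset (fun _ : Fin l => Q), (ag A u I).card =
      ∑ z ∈ A, (Q.filter fun v => z v = u v).card ^ l := by
  classical
  have h1 : ∀ I : Fin l → Fin n, (ag A u I).card = ∑ z ∈ A, if (∀ i, z (I i) = u (I i)) then 1 else 0 := by
    intro I
    unfold ag
    rw [Finset.card_filter]
  simp_rw [h1]
  rw [Finset.sum_comm]
  refine Finset.sum_congr rfl fun z _ => ?_
  rw [← Finset.card_filter]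
  have h2 : (Fintype.piFinset (fun _ : Fin l => Q)).filter (fun I => ∀ i, z (I i) = u (I i)) =
      Fintype.piFinset (fun _ : Fin l => Q.filter fun v => z v = u v) := by
    ext I
    simp only [Finset.mem_filter, Fintype.mem_piFinset]
    exact ⟨fun h i => ⟨h.1 i, h.2 i⟩, fun h => ⟨fun i => (h i).1, fun i => (h i).2⟩⟩
  rw [h2, Fintype.card_piFinset]
  simp

/-- PROOF. If `β ^ l * #B = 0` then every `ag B u I` (`I` with values in `Q`) is empty, as the sum of their sizes is at most `(β * #Q) ^ l * #B = 0` by `agree_sum`; take `I` with `α ^ l * #A ≤ #(ag A u I)` (the average is at least that).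
Otherwise let `k = α ^ l * #A / (2 β ^ l * #B)`; the average of `#(ag A u I) - k * #(ag B u I)` over the `#Q ^ l` places is at least `α ^ l * #A - k * β ^ l * #B = α ^ l * #A / 2`, so some `I` has
`#(ag A u I) ≥ k * #(ag B u I) + α ^ l * #A / 2`; both claims follow. -/
theorem agree {Q : Finset (Fin n)} (hQ : Q.Nonempty) {u : Vc n} {A B : Finset (Vc n)} {α β : ℝ}
    (hβ : 0 ≤ β) (hα : 0 ≤ α)
    (hA : ∀ z ∈ A, α * Q.card ≤ (Q.filter fun v => z v = u v).card)
    (hB : ∀ z ∈ B, ((Q.filter fun v => z v = u v).card : ℝ) ≤ β * Q.card) (l : ℕ) :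
    ∃ I : Fin l → Fin n, (∀ i, I i ∈ Q) ∧ α ^ l * A.card ≤ 2 * (ag A u I).card ∧
      (ag B u I).card * (α ^ l * A.card) ≤ 2 * (β ^ l * B.card) * (ag A u I).card := by
  classical
  have hq : (0 : ℝ) < Q.card := by exact_mod_cast hQ.card_pos
  have hP : (Fintype.piFinset (fun _ : Fin l => Q)).card = Q.card ^ l := by
    rw [Fintype.card_piFinset]
    simp
  have hPne : (Fintype.piFinset (fun _ : Fin l => Q)).Nonempty := by
    rw [← Finset.card_pos, hP]
    exact pow_pos hQ.card_pos l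
  have sA : α ^ l * A.card * (Q.card : ℝ) ^ l ≤ ∑ I ∈ Fintype.piFinset (fun _ : Fin l => Q), ((ag A u I).card : ℝ) := by
    have h := agree_sum Q u A l
    have h' : ∑ I ∈ Fintype.piFinset (fun _ : Fin l => Q), ((ag A u I).card : ℝ) =
        ∑ z ∈ A, ((Q.filter fun v => z v = u v).card : ℝ) ^ l := by
      exact_mod_cast h
    rw [h']
    have h2 : ∑ z ∈ A, (α * Q.card) ^ l ≤ ∑ z ∈ A, ((Q.filter fun v => z v = u v).card : ℝ) ^ l :=
      Finset.sum_le_sum fun z hz => pow_le_pow_left₀ (by positivity) (hA z hz) l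
    refine le_trans (le_of_eq ?_) h2
    rw [Finset.sum_const, nsmul_eq_mul, mul_pow]
    ring
  have sB : ∑ I ∈ Fintype.piFinset (fun _ : Fin l => Q), ((ag B u I).card : ℝ) ≤ β ^ l * B.card * (Q.card : ℝ) ^ l := by
    have h := agree_sum Q u B l
    have h' : ∑ I ∈ Fintype.piFinset (fun _ : Fin l => Q), ((ag B u I).card : ℝ) =
        ∑ z ∈ B, ((Q.filter fun v => z v = u v).card : ℝ) ^ l := by
      exact_mod_cast h
    rw [h']
    have h2 : ∑ z ∈ B, ((Q.filter fun v => z v = u v).card : ℝ) ^ l ≤ ∑ z ∈ B, (β * Q.card) ^ l :=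
      Finset.sum_le_sum fun z hz => pow_le_pow_left₀ (by positivity) (hB z hz) l
    refine le_trans h2 (le_of_eq ?_)
    rw [Finset.sum_const, nsmul_eq_mul, mul_pow]
    ring
  have hX : 0 ≤ α ^ l * A.card := by positivity
  have hY : 0 ≤ β ^ l * B.card := by positivity
  generalize α ^ l * (A.card : ℝ) = X at *
  generalize β ^ l * (B.card : ℝ) = Y at *
  have hk : 0 ≤ X / (2 * Y) := by positivity
  have hkY : X / (2 * Y) * Y ≤ X / 2 := by
    rcases eq_or_lt_of_le hY with h0 | h0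
    · rw [← h0]
      simp
      linarith
    · apply le_of_eq
      field_simp
  have hsum : ∑ _I ∈ Fintype.piFinset (fun _ : Fin l => Q), X / 2 ≤
      ∑ I ∈ Fintype.piFinset (fun _ : Fin l => Q), (((ag A u I).card : ℝ) - X / (2 * Y) * (ag B u I).card) := by
    rw [Finset.sum_const, hP, nsmul_eq_mul, Finset.sum_sub_distrib, ← Finset.mul_sum]
    have h1 : X / (2 * Y) * ∑ I ∈ Fintype.piFinset (fun _ : Fin l => Q), ((ag B u I).card : ℝ) ≤
        X / (2 * Y) * (Y * (Q.card : ℝ) ^ l) := mul_le_mul_of_nonneg_left sB hk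
    have h2 : X / (2 * Y) * (Y * (Q.card : ℝ) ^ l) ≤ X / 2 * (Q.card : ℝ) ^ l := by
      rw [← mul_assoc]
      exact mul_le_mul_of_nonneg_right hkY (by positivity)
    push_cast
    linarith
  obtain ⟨I, hI, hIle⟩ := Finset.exists_le_of_sum_le hPne hsum
  have hb : (0 : ℝ) ≤ (ag B u I).card := Nat.cast_nonneg _
  have hkb : 0 ≤ X / (2 * Y) * ((ag B u I).card : ℝ) := mul_nonneg hk hb
  refine ⟨I, fun i => Fintype.mem_piFinset.1 hI i, by linarith, ?_⟩
  rcases eq_or_lt_of_le hY with h0 | h0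
  · have hB0 : ((ag B u I).card : ℝ) = 0 := by
      have h1 : ((ag B u I).card : ℝ) ≤ ∑ I ∈ Fintype.piFinset (fun _ : Fin l => Q), ((ag B u I).card : ℝ) :=
        Finset.single_le_sum (f := fun I => ((ag B u I).card : ℝ)) (fun J _ => Nat.cast_nonneg _) hI
      rw [← h0, zero_mul] at sB
      linarith
    rw [hB0, ← h0]
    simp
  · have h1 : ((ag B u I).card : ℝ) * X = 2 * Y * (X / (2 * Y) * (ag B u I).card) := by
      field_simp
    rw [h1]
    refine mul_le_mul_of_nonneg_left ?_ (by positivity)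
    linarith

end Pool.Agent.MPa9445a.SB
end

section

/-! Markov and the core of mode B. -/

set_option autoImplicit false

open Finset

namespace Pool.Agent.MPa9445a.SB

open Pool.Agent.MPa9445a.GL (Vc S)

variable {n : ℕ}

/-- A Markov inequality. PROOF. If fewer than `#A / (n + 1)` elements have `f z ≤ (1 + 1 / n) * E` then more than `n / (n + 1) * #A` elements have `f z > (n + 1) / n * E`, so the sum is larger than `#A * E` (for `E > 0`; for `E = 0` all `f z = 0`). -/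
theorem markov' {X : Type} (A : Finset X) (f : X → ℝ) (hf : ∀ z ∈ A, 0 ≤ f z) {E : ℝ}
    (hE : ∑ z ∈ A, f z ≤ E * A.card) {n : ℕ} (hn : 0 < n) :
    (A.card : ℝ) ≤ (n + 1) * (A.filter fun z => f z ≤ (1 + 1 / (n : ℝ)) * E).card := by
  classical
  have hn0 : (0 : ℝ) < n := by exact_mod_cast hn
  set θ : ℝ := (1 + 1 / (n : ℝ)) * E with hθ
  set B := A.filter fun z => f z ≤ θ with hB
  set D := A.filter fun z => ¬ f z ≤ θ with hD
  have hcard : (A.card : ℝ) = B.card + D.card := by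
    have := Finset.card_filter_add_card_filter_not (s := A) (fun z => f z ≤ θ)
    rw [← this]
    push_cast
    rfl
  rcases D.eq_empty_or_nonempty with hD0 | hDne
  · rw [hcard, hD0, Finset.card_empty]
    have : (0 : ℝ) ≤ B.card := Nat.cast_nonneg _
    push_cast
    nlinarith
  · have h1 : (D.card : ℝ) * θ < ∑ z ∈ D, f z := by
      rw [← nsmul_eq_mul, ← Finset.sum_const]
      apply Finset.sum_lt_sum_of_nonempty hDne
      intro z hz
      exact not_le.mp (Finset.mem_filter.mp hz).2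
    have h2 : ∑ z ∈ D, f z ≤ ∑ z ∈ A, f z :=
      Finset.sum_le_sum_of_subset_of_nonneg (Finset.filter_subset _ _) fun z hz _ => hf z hz
    have h3 : (D.card : ℝ) * θ < E * A.card := lt_of_lt_of_le h1 (h2.trans hE)
    have hA0 : (0 : ℝ) ≤ A.card := Nat.cast_nonneg _
    have hDc : (0 : ℝ) ≤ D.card := Nat.cast_nonneg _
    have hBc : (0 : ℝ) ≤ B.card := Nat.cast_nonneg _
    have hsum0 : 0 ≤ E * A.card := (Finset.sum_nonneg fun z hz => hf z hz).trans hE
    have hE0 : 0 < E := by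
      by_contra hneg
      push Not at hneg
      have hA1 : (0 : ℝ) < A.card := by
        have : 0 < D.card := hDne.card_pos
        have : (0 : ℝ) < D.card := by exact_mod_cast this
        linarith
      have hE1 : E = 0 := by
        rcases hneg.lt_or_eq with h | h
        · nlinarith
        · exact h
      rw [hθ, hE1] at h3
      simp at h3
    have h4 : (D.card : ℝ) * (1 + 1 / (n : ℝ)) < A.card := by
      have : (D.card : ℝ) * (1 + 1 / (n : ℝ)) * E < A.card * E := by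
        calc (D.card : ℝ) * (1 + 1 / (n : ℝ)) * E = D.card * θ := by rw [hθ]; ring
          _ < E * A.card := h3
          _ = A.card * E := by ring
      exact lt_of_mul_lt_mul_right this hE0.le
    have h5 : (D.card : ℝ) < n * B.card := by
      rw [hcard] at h4
      have h6 : (D.card : ℝ) * (1 / (n : ℝ)) < B.card := by linarith
      rw [mul_one_div, div_lt_iff₀ hn0] at h6
      linarith
    rw [hcard]
    linarith

/-- The core, for given places. `A` are the elements of `S'` near `u`; the others are few.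
PROOF. `∑ z ∈ S', #(df u z) ≤ d m #A + η #A m` (`m = #Q`), so by `expect` and `κ ≥ 0`, `k₁ ≥ 1`, `#S' ≤ (1 + η) #A`:
`∑ z ∈ A, sc ≤ ∑ z ∈ S', sc ≤ K m (1 + η) (κ + (k₁ - 1) (d + η)) #A`; `markov'`. -/
theorem core {d κ k₁ η : ℝ} (hd : 0 ≤ d) (hκ : 0 ≤ κ) (hk₁ : 1 ≤ k₁) (hη : 0 ≤ η)
    {Q : Finset (Fin n)} {S' : Finset (Vc n)} (hS' : S' ⊆ S (bl Q)) {u : Vc n}
    (hu : u ∈ S (bl Q)) {A : Finset (Vc n)} (hA : A ⊆ S') (hne : A.Nonempty)
    (h1 : ∀ z ∈ A, ((df u z).card : ℝ) < d * Q.card)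
    (h2 : ((S' \ A).card : ℝ) ≤ η * A.card) (hn : 0 < n) {K : ℕ} {σ : Sc n}
    (h : ∀ v ∈ Q, Ex K κ k₁ (fq S' v) (σ.w v) (σ.a v) (σ.b v)) :
    (A.card : ℝ) ≤ (n + 1) * (A.filter fun z => (sc σ Q (df u z) u : ℝ) ≤
      (1 + 1 / (n : ℝ)) * (K * ((1 + η) * (κ + (k₁ - 1) * (d + η)) * Q.card))).card := by
  classical
  have hne' : S'.Nonempty := hne.mono hA
  have hex := expect hS' hne' hu h
  refine markov' A (fun z => (sc σ Q (df u z) u : ℝ)) (fun z _ => Nat.cast_nonneg _) ?_ hn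
  have e1 : ∑ z ∈ A, (sc σ Q (df u z) u : ℝ) ≤ ∑ z ∈ S', (sc σ Q (df u z) u : ℝ) :=
    Finset.sum_le_sum_of_subset_of_nonneg hA fun z _ _ => Nat.cast_nonneg _
  have hQ0 : (0 : ℝ) ≤ Q.card := Nat.cast_nonneg _
  have hA0 : (0 : ℝ) ≤ A.card := Nat.cast_nonneg _
  have hK0 : (0 : ℝ) ≤ K := Nat.cast_nonneg _
  have e2 : ∑ z ∈ S', ((df u z).card : ℝ) ≤ (d + η) * Q.card * A.card := by
    have hsplit : ∑ z ∈ S', ((df u z).card : ℝ) =
        ∑ z ∈ S' \ A, ((df u z).card : ℝ) + ∑ z ∈ A, ((df u z).card : ℝ) :=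
      (Finset.sum_sdiff hA).symm
    have f1 : ∑ z ∈ A, ((df u z).card : ℝ) ≤ A.card * (d * Q.card) := by
      rw [← nsmul_eq_mul, ← Finset.sum_const]
      exact Finset.sum_le_sum fun z hz => (h1 z hz).le
    have f2 : ∑ z ∈ S' \ A, ((df u z).card : ℝ) ≤ (S' \ A).card * (Q.card : ℝ) := by
      rw [← nsmul_eq_mul, ← Finset.sum_const]
      apply Finset.sum_le_sum
      intro z hz
      have hz' : z ∈ S (bl Q) := hS' (Finset.mem_sdiff.mp hz).1
      exact_mod_cast Finset.card_le_card (df_sub hu hz')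
    have f3 : ((S' \ A).card : ℝ) * (Q.card : ℝ) ≤ η * A.card * Q.card :=
      mul_le_mul_of_nonneg_right h2 hQ0
    rw [hsplit]
    nlinarith
  have e3 : (S'.card : ℝ) ≤ (1 + η) * A.card := by
    have : S'.card = (S' \ A).card + A.card := by
      rw [Finset.card_sdiff_add_card_eq_card hA]
    rw [this]
    push_cast
    linarith
  have hk0 : 0 ≤ k₁ - 1 := by linarith
  have hdη : 0 ≤ d + η := by linarith
  calc ∑ z ∈ A, (sc σ Q (df u z) u : ℝ)
      ≤ K * (κ * Q.card * S'.card + (k₁ - 1) * ∑ z ∈ S', ((df u z).card : ℝ)) := e1.trans hex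
    _ ≤ K * (κ * Q.card * ((1 + η) * A.card) + (k₁ - 1) * ((d + η) * Q.card * A.card)) := by
        apply mul_le_mul_of_nonneg_left _ hK0
        apply add_le_add
        · exact mul_le_mul_of_nonneg_left e3 (mul_nonneg hκ hQ0)
        · exact mul_le_mul_of_nonneg_left e2 hk0
    _ ≤ K * (κ * Q.card * ((1 + η) * A.card) +
          (1 + η) * ((k₁ - 1) * ((d + η) * Q.card * A.card))) := by
        apply mul_le_mul_of_nonneg_left _ hK0
        apply add_le_add le_rfl
        have : 0 ≤ (k₁ - 1) * ((d + η) * Q.card * A.card) := by positivity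
        nlinarith
    _ = K * ((1 + η) * (κ + (k₁ - 1) * (d + η)) * Q.card) * A.card := by ring

end Pool.Agent.MPa9445a.SB
end

section

set_option autoImplicit false
set_option exponentiation.threshold 2000

namespace Pool.Agent.MPa9445a.SB

open Real

private theorem sqrt_le_aux {a b : ℝ} (hb : 0 ≤ b) (h : 1 + a ≤ b ^ 2) : Real.sqrt (1 + a) ≤ b :=
  Real.sqrt_le_iff.2 ⟨hb, h⟩

/-- The base of the exponential of the golden procedure of depth `8`. -/
theorem gam8 : GL.γ 8 ≤ (2 : ℝ) ^ (0.6943 : ℝ) := by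
  have h0 : GL.γ 0 = 2 := rfl
  have h1 : GL.γ 1 ≤ 1.732051 := sqrt_le_aux (by norm_num) (by rw [h0]; norm_num)
  have h2 : GL.γ 2 ≤ 1.652892 := sqrt_le_aux (by norm_num) (by norm_num at h1 ⊢; linarith)
  have h3 : GL.γ 3 ≤ 1.628771 := sqrt_le_aux (by norm_num) (by norm_num at h2 ⊢; linarith)
  have h4 : GL.γ 4 ≤ 1.621349 := sqrt_le_aux (by norm_num) (by norm_num at h3 ⊢; linarith)
  have h5 : GL.γ 5 ≤ 1.619059 := sqrt_le_aux (by norm_num) (by norm_num at h4 ⊢; linarith)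
  have h6 : GL.γ 6 ≤ 1.618351 := sqrt_le_aux (by norm_num) (by norm_num at h5 ⊢; linarith)
  have h7 : GL.γ 7 ≤ 1.618133 := sqrt_le_aux (by norm_num) (by norm_num at h6 ⊢; linarith)
  have h8 : GL.γ 8 ≤ 1.618065 := sqrt_le_aux (by norm_num) (by norm_num at h7 ⊢; linarith)
  refine h8.trans ?_
  have h9 : (1.618065 : ℝ) ^ 350 ≤ 2 ^ 243 := by norm_num
  have h10 : (1.618065 : ℝ) ≤ (2 : ℝ) ^ ((243 : ℝ) / 350) := by
    have h11 : ((2 : ℝ) ^ ((243 : ℝ) / 350)) ^ 350 = 2 ^ 243 := by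
      rw [← Real.rpow_natCast, ← Real.rpow_mul (by norm_num), ← Real.rpow_natCast]
      norm_num
    rw [← h11] at h9
    exact le_of_pow_le_pow_left₀ (by norm_num) (by positivity) h9
  refine h10.trans ?_
  apply Real.rpow_le_rpow_of_exponent_le (by norm_num)
  norm_num

end Pool.Agent.MPa9445a.SB
end
end
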