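import Pool.Agent.Lib.MP_a9445a_lc.Mg.G100
import Pool.Agent.Lib.MP_a9445a_lc.Mg.G098

section

section
/-! The children in mode B; the window. -/

set_option autoImplicit false

open Finset

namespace Pool.Agent.MPa9445a.SB

open Pool.Agent.MPa9445a.GL (Vc S Ph Lv T Par lvl LL la2 fl Wb on off pl)

variable {n : ℕ} {W : Matrix (Fin n) (Fin n) ℤ} {Go : Rf n}

/-- PROOF. Small blocks: `Gd_Go`. Large blocks: the vectors of `vl` are in `S (bl X)`, the filter gives the value; `#vl ≤ #S (bl X) = 2 ^ #X`. Others: `∅`. -/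
theorem Gd_EB (hG : GO W Go) (d : ℕ) (σ : Sc n) (Q : Finset (Fin n)) (Θ : ℕ) : Gd W (EB W Go d σ Q Θ) := by
  constructor
  · intro X a ha j A h
    unfold EB at h
    split_ifs at h with h1 h2 h3
    · exact (Gd_Go hG).sn X a ha j A h
    · rw [Option.some.injEq] at h
      rw [← h]
      intro v hv
      rw [mem_filter] at hv
      unfold vl at hv
      exact mem_filter.2 ⟨(mem_filter.1 hv.1).1, hv.2⟩
    · rw [Option.some.injEq] at h
      rw [← h]
      exact empty_subset _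
  · intro X a j hj
    unfold EB
    split_ifs with h1 h2 h3
    · exact (Gd_Go hG).ff X a j hj
    · exact Option.some_ne_none _
    · exfalso
      refine h3 ?_
      have e1 : (vl σ Q X Θ).card ≤ (S (bl X)).card := card_le_card (filter_subset _ _)
      rw [card_S_bl] at e1
      exact le_trans e1 (Nat.pow_le_pow_right (by norm_num) hj)
    · exact Option.some_ne_none _

/-- A small block. PROOF. `EB = Go` for this block. -/
theorem cr_EB_small (hG : GO W Go) {d : ℕ} {σ : Sc n}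
    {Q X : Finset (Fin n)} {Θ : ℕ} (hX : 10000 * X.card < d * Q.card) {a : ℤ} (ha : a ∈ lvl n)
    {q : ℝ} (hq : 1 ≤ q) : (cr (EB W Go d σ Q Θ) X a : ℝ) ≤
      2 * pl n 8 * max ((2 : ℝ) ^ (gam * X.card)) (T W (bl X) a q) := by
  obtain ⟨j, -, e1, e2⟩ := cr_spec (Gd_Go hG) X a
  have h1 : cr (EB W Go d σ Q Θ) X a ≤ cr Go X a := by
    rw [e1]
    refine cr_le fun j' hj' => ?_
    unfold EB
    rw [if_pos hX]
    exact e2 j' hj'
  have h2 : (cr (EB W Go d σ Q Θ) X a : ℝ) ≤ (cr Go X a : ℝ) := by exact_mod_cast h1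
  exact le_trans h2 (cr_Go hG ha hq)

/-- A large block. PROOF. For the least `j` with `#vl ≤ 2 ^ j`: `2 ^ j ≤ 2 * #vl` or `j = 0`. -/
theorem cr_EB_large {d : ℕ} (hd : d ≤ 5000) {σ : Sc n} {Q X : Finset (Fin n)} {Θ : ℕ}
    (hX : (10000 - d) * Q.card < 10000 * X.card) (a : ℤ) :
    cr (EB W Go d σ Q Θ) X a ≤ 2 * (vl σ Q X Θ).card + 1 := by
  have h0 : ¬ 10000 * X.card < d * Q.card := by
    have : d * Q.card ≤ (10000 - d) * Q.card := Nat.mul_le_mul_right _ (by omega)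
    omega
  have h1 : cr (EB W Go d σ Q Θ) X a ≤ 2 ^ Nat.clog 2 (vl σ Q X Θ).card := by
    refine cr_le fun j' hj' => ?_
    unfold EB
    rw [if_neg h0, if_pos hX, if_pos]
    · exact Option.some_ne_none _
    · exact le_trans (Nat.le_pow_clog (by norm_num) _) (Nat.pow_le_pow_right (by norm_num) hj')
  refine le_trans h1 ?_
  rcases le_or_gt (vl σ Q X Θ).card 1 with hc | hc
  · rw [Nat.clog_of_right_le_one hc]
    omega
  · have h2 := Nat.pow_pred_clog_lt_self (b := 2) (by norm_num) hc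
    have h3 : 0 < Nat.clog 2 (vl σ Q X Θ).card := Nat.clog_pos (by norm_num) hc
    obtain ⟨k, hk⟩ : ∃ k, Nat.clog 2 (vl σ Q X Θ).card = k + 1 := ⟨_, (Nat.succ_pred_eq_of_pos h3).symm⟩
    rw [hk] at h2 ⊢
    rw [Nat.pred_succ] at h2
    rw [pow_succ]
    omega

end Pool.Agent.MPa9445a.SB
end

section
/-! The children in mode B; the window. -/

set_option autoImplicit false

open Finset

namespace Pool.Agent.MPa9445a.SB

open Pool.Agent.MPa9445a.GL (Vc S Ph Lv T Par lvl LL la2 fl Wb on off pl)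

variable {n : ℕ} {W : Matrix (Fin n) (Fin n) ℤ} {Go : Rf n}

/-- The number of the enumerated vectors, for small `D`. -/
noncomputable def nv (d : ℕ) (σ : Sc n) (Q : Finset (Fin n)) (Θ : ℕ) (D : Finset (Fin n)) : ℝ :=
  if 10000 * D.card < d * Q.card then
    (2 : ℝ) ^ (gam * D.card) + (vl σ Q (Q \ D) Θ).card + 1 else 0

private theorem C4b_pl (n k : ℕ) : 1 ≤ pl n k := by
  induction k with
  | zero => exact le_refl _
  | succ k ih =>
    show 1 ≤ 2 ^ 20 * (n + 2) ^ 60 * pl n k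
    have h1 : 1 ≤ 2 ^ 20 := Nat.one_le_two_pow
    have h2 : 1 ≤ (n + 2) ^ 60 := Nat.one_le_pow _ _ (by omega)
    exact Nat.mul_le_mul (Nat.mul_le_mul h1 h2) ih

private theorem C4b_gam (s : ℕ) : (1 : ℝ) ≤ (2 : ℝ) ^ (gam * s) := by
  apply Real.one_le_rpow (by norm_num)
  unfold gam
  positivity

private theorem C4b_nv_nonneg (d : ℕ) (σ : Sc n) (Q : Finset (Fin n)) (Θ : ℕ)
    (D : Finset (Fin n)) : 0 ≤ nv d σ Q Θ D := by
  unfold nv
  split_ifs
  · positivity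
  · exact le_refl _

/-- One pair of levels. -/
private theorem C4b_pair {E : Rf n} (hE : Gd W E) {X Y : Finset (Fin n)} {a b : ℤ}
    (ha : a ∈ lvl n) (hb : b ∈ lvl n) {q : ℝ} (hq : 1 ≤ q) {C c c' : ℝ} (hC : 1 ≤ C) (hc : 1 ≤ c)
    (hc' : 1 ≤ c') (hX : (cr E X a : ℝ) ≤ C * max c (T W (bl X) a q))
    (hY : (cr E Y b : ℝ) ≤ C * max c' (T W (bl Y) b q)) :
    (pc E X Y a b : ℝ) ≤ 6 * C * (c + c' + T W (bl X) a q * T W (bl Y) b q) := by
  have h := pc_sum (W := W) (ι := Unit) univ (fun _ => E) (fun _ _ => hE) (X := X) (Y := Y) ha hb hq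
    (C := C) (c := c) (c' := c') (N := 1) hC hc hc' (by simp) (by simpa using hX)
    (by simpa using hY)
  simpa using h

private theorem C4b_small (hG : GO W Go) {d : ℕ} (hd : d ≤ 5000) (σ : Sc n)
    {Q X Y : Finset (Fin n)} (Θ : ℕ) (hX : 10000 * X.card < d * Q.card)
    (hY : (10000 - d) * Q.card < 10000 * Y.card) {a b : ℤ} (ha : a ∈ lvl n) (_hb : b ∈ lvl n)
    {q : ℝ} (hq : 1 ≤ q) :
    (cr (EB W Go d σ Q Θ) X a : ℝ) ≤
      2 * pl n 8 * max ((2 : ℝ) ^ (gam * X.card)) (T W (bl X) a q) ∧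
    (cr (EB W Go d σ Q Θ) Y b : ℝ) ≤
      2 * pl n 8 * max ((vl σ Q Y Θ).card + 1 : ℝ) (T W (bl Y) b q) := by
  refine ⟨cr_EB_small hG hX ha hq, ?_⟩
  have h1 : (cr (EB W Go d σ Q Θ) Y b : ℝ) ≤ 2 * (vl σ Q Y Θ).card + 1 := by
    exact_mod_cast cr_EB_large (W := W) (Go := Go) hd (σ := σ) (Θ := Θ) hY b
  have h2 : (1 : ℝ) ≤ (pl n 8 : ℝ) := by exact_mod_cast C4b_pl n 8
  have h3 : ((vl σ Q Y Θ).card + 1 : ℝ) ≤
      max ((vl σ Q Y Θ).card + 1 : ℝ) (T W (bl Y) b q) := le_max_left _ _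
  have h4 : (0 : ℝ) ≤ (vl σ Q Y Θ).card := Nat.cast_nonneg _
  have h5 : 1 * (2 * ((vl σ Q Y Θ).card + 1 : ℝ)) ≤
      (pl n 8 : ℝ) * (2 * max ((vl σ Q Y Θ).card + 1 : ℝ) (T W (bl Y) b q)) :=
    mul_le_mul h2 (by linarith) (by linarith) (by linarith)
  linarith

/-- The cost of a set `D` in mode B. PROOF. If `10000 #D < d #Q` then `Q \ D` is large (`10000 (#Q - #D) > (10000 - d) #Q`); for every level `a` `pc_sum` with one procedure (`ι = Unit`, `N = 1`, `C = 2 * pl n 8`, `c = 2 ^ (gam #D)`, `c' = #vl + 1`,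
`cr_EB_small` with `q`, `cr_EB_large`) gives `pc ≤ 12 pl (2 ^ (gam #D) + #vl + 1 + T T')`. If `10000 #(Q \ D) < d #Q`: the same with the roles exchanged (`Q \ (Q \ D) = D`). Otherwise `EB D a 0 = some ∅` and `pc = 1`. `la2 n c` has at most `LL n` elements. -/
theorem cD_EB (hG : GO W Go) {d : ℕ} (hd : d ≤ 5000) (σ : Sc n)
    {Q D : Finset (Fin n)} (hD : D ⊆ Q) (Θ : ℕ) (c : ℤ) {q : ℝ} (hq : 1 ≤ q) :
    (cD (EB W Go d σ Q Θ) Q c D : ℝ) ≤ 12 * pl n 8 * (LL n * (1 + nv d σ Q Θ D +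
      nv d σ Q Θ (Q \ D)) + ∑ a ∈ la2 n c, T W (bl D) a q * T W (bl (Q \ D)) (c - a) q) := by
  have hE := Gd_EB hG d σ Q Θ
  have hpl : (1 : ℝ) ≤ (pl n 8 : ℝ) := by exact_mod_cast C4b_pl n 8
  have hC : (1 : ℝ) ≤ 2 * pl n 8 := by linarith
  have hQD : (Q \ D).card + D.card = Q.card := by
    rw [Finset.card_sdiff_of_subset hD]
    have := Finset.card_le_card hD
    omega
  have hQQ : Q \ (Q \ D) = D := Finset.sdiff_sdiff_eq_self hD
  have hL : ((la2 n c).card : ℝ) ≤ LL n := by exact_mod_cast card_la2 c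
  have hL0 : (0 : ℝ) ≤ LL n := Nat.cast_nonneg _
  have h10 : 10000 - d + d = 10000 := by omega
  have hm : (10000 - d) * Q.card + d * Q.card = 10000 * Q.card := by
    rw [← add_mul, h10]
  have hTT : 0 ≤ ∑ a ∈ la2 n c, T W (bl D) a q * T W (bl (Q \ D)) (c - a) q :=
    Finset.sum_nonneg fun a _ => mul_nonneg (GL.T_nonneg _ _ _ hq) (GL.T_nonneg _ _ _ hq)
  have hn1 := C4b_nv_nonneg d σ Q Θ D
  have hn2 := C4b_nv_nonneg d σ Q Θ (Q \ D)
  have hcD : (cD (EB W Go d σ Q Θ) Q c D : ℝ) =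
      ∑ a ∈ la2 n c, (pc (EB W Go d σ Q Θ) D (Q \ D) a (c - a) : ℝ) := by
    unfold cD
    push_cast
    rfl
  rw [hcD]
  -- the common end
  have fin : ∀ N : ℝ, 0 ≤ N → N ≤ nv d σ Q Θ D + nv d σ Q Θ (Q \ D) →
      (∀ a ∈ la2 n c, (pc (EB W Go d σ Q Θ) D (Q \ D) a (c - a) : ℝ) ≤
        12 * pl n 8 * (N + T W (bl D) a q * T W (bl (Q \ D)) (c - a) q)) →
      ∑ a ∈ la2 n c, (pc (EB W Go d σ Q Θ) D (Q \ D) a (c - a) : ℝ) ≤
      12 * pl n 8 * (LL n * (1 + nv d σ Q Θ D + nv d σ Q Θ (Q \ D)) +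
        ∑ a ∈ la2 n c, T W (bl D) a q * T W (bl (Q \ D)) (c - a) q) := by
    intro N hN0 hN h
    calc ∑ a ∈ la2 n c, (pc (EB W Go d σ Q Θ) D (Q \ D) a (c - a) : ℝ)
        ≤ ∑ a ∈ la2 n c, 12 * pl n 8 * (N + T W (bl D) a q * T W (bl (Q \ D)) (c - a) q) :=
          Finset.sum_le_sum h
      _ = 12 * pl n 8 * ((la2 n c).card * N +
          ∑ a ∈ la2 n c, T W (bl D) a q * T W (bl (Q \ D)) (c - a) q) := by
          rw [← Finset.mul_sum, Finset.sum_add_distrib]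
          simp only [Finset.sum_const, nsmul_eq_mul]
      _ ≤ _ := by
          apply mul_le_mul_of_nonneg_left _ (by linarith)
          have h1 : ((la2 n c).card : ℝ) * N ≤ LL n * (1 + nv d σ Q Θ D + nv d σ Q Θ (Q \ D)) :=
            mul_le_mul hL (by linarith) hN0 hL0
          linarith
  by_cases h1 : 10000 * D.card < d * Q.card
  · have h2 : (10000 - d) * Q.card < 10000 * (Q \ D).card := by omega
    refine fin (nv d σ Q Θ D) hn1 (by linarith) fun a ha => ?_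
    obtain ⟨ha1, ha2⟩ := mem_la2 ha
    obtain ⟨h3, h4⟩ := C4b_small hG hd σ Θ h1 h2 ha1 ha2 hq
    have h5 := C4b_pair hE ha1 ha2 hq hC (C4b_gam D.card)
      (show (1 : ℝ) ≤ (vl σ Q (Q \ D) Θ).card + 1 by
        have : (0 : ℝ) ≤ (vl σ Q (Q \ D) Θ).card := Nat.cast_nonneg _
        linarith) h3 h4
    have h6 : nv d σ Q Θ D = (2 : ℝ) ^ (gam * D.card) + (vl σ Q (Q \ D) Θ).card + 1 := by
      unfold nv
      rw [if_pos h1]
    rw [h6]
    linarith
  · by_cases h2 : 10000 * (Q \ D).card < d * Q.card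
    · have h2' : (10000 - d) * Q.card < 10000 * D.card := by omega
      refine fin (nv d σ Q Θ (Q \ D)) hn2 (by linarith) fun a ha => ?_
      obtain ⟨ha1, ha2⟩ := mem_la2 ha
      obtain ⟨h3, h4⟩ := C4b_small hG hd σ Θ h2 h2' ha2 ha1 hq
      have h5 := C4b_pair hE ha1 ha2 hq hC
        (show (1 : ℝ) ≤ (vl σ Q D Θ).card + 1 by
          have : (0 : ℝ) ≤ (vl σ Q D Θ).card := Nat.cast_nonneg _
          linarith) (C4b_gam (Q \ D).card) h4 h3
      have h6 : nv d σ Q Θ (Q \ D) = (2 : ℝ) ^ (gam * (Q \ D).card) + (vl σ Q D Θ).card + 1 := by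
        unfold nv
        rw [if_pos h2, hQQ]
      rw [h6]
      linarith
    · have h2' : ¬ (10000 - d) * Q.card < 10000 * D.card := by omega
      have h3 : ∀ a ∈ la2 n c, (pc (EB W Go d σ Q Θ) D (Q \ D) a (c - a) : ℝ) = 1 := by
        intro a _
        have h4 : EB W Go d σ Q Θ D a 0 = some ∅ := by
          unfold EB
          rw [if_neg h1, if_neg h2']
        rw [pc_eq_one h4]
        norm_num
      rw [Finset.sum_congr rfl h3]
      simp only [Finset.sum_const, nsmul_eq_mul, mul_one]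
      have h5 : (LL n : ℝ) ≤ LL n * (1 + nv d σ Q Θ D + nv d σ Q Θ (Q \ D)) := by
        have := mul_le_mul_of_nonneg_left
          (show (1 : ℝ) ≤ 1 + nv d σ Q Θ D + nv d σ Q Θ (Q \ D) by linarith) hL0
        linarith
      have h6 : (0 : ℝ) ≤ LL n * (1 + nv d σ Q Θ D + nv d σ Q Θ (Q \ D)) +
        ∑ a ∈ la2 n c, T W (bl D) a q * T W (bl (Q \ D)) (c - a) q := by linarith
      have h7 : 1 * (LL n * (1 + nv d σ Q Θ D + nv d σ Q Θ (Q \ D)) +
        ∑ a ∈ la2 n c, T W (bl D) a q * T W (bl (Q \ D)) (c - a) q) ≤ 12 * pl n 8 *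
        (LL n * (1 + nv d σ Q Θ D + nv d σ Q Θ (Q \ D)) +
        ∑ a ∈ la2 n c, T W (bl D) a q * T W (bl (Q \ D)) (c - a) q) :=
        mul_le_mul_of_nonneg_right (by linarith) h6
      linarith

/-- The sum over all `D`. PROOF. `cD_EB` with `q ^ 2`; `T_split` for every `a ∈ la2 n c`; `∑ D, nv (Q \ D) = ∑ D, nv D` (bijection); `∑ D, #vl σ Q (Q \ D) Θ ≤ 2 ^ (Θ / K)` (`kraft`; `vl σ Q (Q \ D) Θ` is the set in `kraft` as `Q \ (Q \ D) = D`);
`∑ D, [10000 #D < d #Q] 2 ^ (gam #D)` by sizes (`Finset.sum_powerset_apply_card`); `∑ D, 1 = 2 ^ #Q`. -/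
theorem sum_cD_EB (hG : GO W Go) {d : ℕ} (hd : d ≤ 5000)
    {σ : Sc n} {K : ℕ} (hK : 0 < K) {Q : Finset (Fin n)}
    (hσ : ∀ v ∈ Q, Kr K (σ.w v) (σ.a v) (σ.b v)) (Θ : ℕ) {p t c : ℤ} (hc : 2 * c = p + t) {q : ℝ}
    (hq : 1 ≤ q) :
    ∑ D ∈ Q.powerset, (cD (EB W Go d σ Q Θ) Q c D : ℝ) ≤
      12 * pl n 8 * (LL n * (3 * 2 ^ Q.card + 2 * 2 ^ ((Θ : ℝ) / K) +
        2 * ∑ e ∈ range (Q.card + 1), if 10000 * e < d * Q.card then
          (Q.card.choose e : ℝ) * 2 ^ (gam * e) else 0) +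
        LL n * (T W (bl Q) p q * T W (bl Q) t q)) := by
  have hpl : (1 : ℝ) ≤ (pl n 8 : ℝ) := by exact_mod_cast C4b_pl n 8
  have hL : ((la2 n c).card : ℝ) ≤ LL n := by exact_mod_cast card_la2 c
  have hL0 : (0 : ℝ) ≤ LL n := Nat.cast_nonneg _
  have hq2 : 1 ≤ q ^ 2 := by nlinarith
  have h1 : ∑ D ∈ Q.powerset, (cD (EB W Go d σ Q Θ) Q c D : ℝ) ≤
      ∑ D ∈ Q.powerset, 12 * pl n 8 * (LL n * (1 + nv d σ Q Θ D + nv d σ Q Θ (Q \ D)) +
        ∑ a ∈ la2 n c, T W (bl D) a (q ^ 2) * T W (bl (Q \ D)) (c - a) (q ^ 2)) :=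
    Finset.sum_le_sum fun D hD => cD_EB hG hd σ (Finset.mem_powerset.1 hD) Θ c hq2
  refine h1.trans ?_
  rw [← Finset.mul_sum]
  apply mul_le_mul_of_nonneg_left _ (by linarith)
  rw [Finset.sum_add_distrib, ← Finset.mul_sum]
  -- the second part
  have h2 : ∑ D ∈ Q.powerset, ∑ a ∈ la2 n c,
      T W (bl D) a (q ^ 2) * T W (bl (Q \ D)) (c - a) (q ^ 2) ≤
      LL n * (T W (bl Q) p q * T W (bl Q) t q) := by
    rw [Finset.sum_comm]
    rw [Finset.sum_congr rfl fun a _ => T_split (W := W) hc (fun _ => a) hq]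
    simp only [Finset.sum_const, nsmul_eq_mul]
    exact mul_le_mul_of_nonneg_right hL (mul_nonneg (GL.T_nonneg _ _ _ hq) (GL.T_nonneg _ _ _ hq))
  -- the first part
  have h3 : ∑ D ∈ Q.powerset, nv d σ Q Θ (Q \ D) = ∑ D ∈ Q.powerset, nv d σ Q Θ D := by
    refine Finset.sum_nbij' (fun D => Q \ D) (fun D => Q \ D) ?_ ?_ ?_ ?_ ?_
    · intro D _
      exact Finset.mem_powerset.2 Finset.sdiff_subset
    · intro D _
      exact Finset.mem_powerset.2 Finset.sdiff_subset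
    · intro D hD
      exact Finset.sdiff_sdiff_eq_self (Finset.mem_powerset.1 hD)
    · intro D hD
      exact Finset.sdiff_sdiff_eq_self (Finset.mem_powerset.1 hD)
    · intro D _
      rfl
  have h4 : ∑ D ∈ Q.powerset, (((vl σ Q (Q \ D) Θ).card : ℕ) : ℝ) ≤ 2 ^ ((Θ : ℝ) / K) := by
    refine le_trans (le_of_eq ?_) (kraft hK σ hσ Θ)
    push_cast
    refine Finset.sum_congr rfl fun D hD => ?_
    unfold vl
    rw [Finset.sdiff_sdiff_eq_self (Finset.mem_powerset.1 hD)]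
  have h5 : ∑ D ∈ Q.powerset, (if 10000 * D.card < d * Q.card then
      (2 : ℝ) ^ (gam * D.card) else 0) = ∑ e ∈ range (Q.card + 1),
        if 10000 * e < d * Q.card then (Q.card.choose e : ℝ) * 2 ^ (gam * e) else 0 := by
    have := Finset.sum_powerset_apply_card
      (fun e : ℕ => if 10000 * e < d * Q.card then (2 : ℝ) ^ (gam * e) else 0) (x := Q)
    rw [this]
    refine Finset.sum_congr rfl fun e _ => ?_
    rw [nsmul_eq_mul]
    split_ifs
    · rfl
    · rw [mul_zero]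
  have h6 : ∑ D ∈ Q.powerset, (1 : ℝ) = 2 ^ Q.card := by
    simp [Finset.card_powerset]
  have h7 : ∑ D ∈ Q.powerset, nv d σ Q Θ D ≤
      (∑ e ∈ range (Q.card + 1),
        if 10000 * e < d * Q.card then (Q.card.choose e : ℝ) * 2 ^ (gam * e) else 0) +
      2 ^ ((Θ : ℝ) / K) + 2 ^ Q.card := by
    have h8 : ∀ D ∈ Q.powerset, nv d σ Q Θ D ≤ (if 10000 * D.card < d * Q.card then
      (2 : ℝ) ^ (gam * D.card) else 0) + (((vl σ Q (Q \ D) Θ).card : ℕ) : ℝ) + 1 := by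
      intro D _
      unfold nv
      have h9 : (0 : ℝ) ≤ (((vl σ Q (Q \ D) Θ).card : ℕ) : ℝ) := Nat.cast_nonneg _
      split_ifs
      · exact le_refl _
      · linarith
    refine (Finset.sum_le_sum h8).trans ?_
    rw [Finset.sum_add_distrib, Finset.sum_add_distrib, h5, h6]
    linarith
  have h10 : ∑ D ∈ Q.powerset, (1 + nv d σ Q Θ D + nv d σ Q Θ (Q \ D)) ≤
      3 * 2 ^ Q.card + 2 * 2 ^ ((Θ : ℝ) / K) +
        2 * ∑ e ∈ range (Q.card + 1), if 10000 * e < d * Q.card then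
          (Q.card.choose e : ℝ) * 2 ^ (gam * e) else 0 := by
    rw [Finset.sum_add_distrib, Finset.sum_add_distrib, h3, h6]
    linarith
  have h11 := mul_le_mul_of_nonneg_left h10 hL0
  linarith

end Pool.Agent.MPa9445a.SB
end
end

section

section
/-! The children in mode B; the window. -/

set_option autoImplicit false

open Finset

namespace Pool.Agent.MPa9445a.SB

open Pool.Agent.MPa9445a.GL (Vc S Ph Lv T Par lvl LL la2 fl Wb on off pl)

variable {n : ℕ} {W : Matrix (Fin n) (Fin n) ℤ} {Go : Rf n}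

/-! ## The window -/

theorem Wi_compl {d m s : ℕ} (hd : d ≤ 10000) (hs : s ≤ m) : Wi d m (m - s) ↔ Wi d m s := by
  obtain ⟨e, he⟩ : ∃ e, 10000 = d + e := ⟨10000 - d, by omega⟩
  obtain ⟨r, hr⟩ : ∃ r, m = s + r := ⟨m - s, by omega⟩
  have h1 : 10000 - d = e := by omega
  have h2 : m - s = r := by omega
  unfold Wi
  rw [h1, h2]
  have h3 : d * m + e * m = 10000 * s + 10000 * r := by
    calc d * m + e * m = (d + e) * m := by ring
      _ = 10000 * m := by rw [← he]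
      _ = 10000 * s + 10000 * r := by rw [hr]; ring
  constructor
  · rintro ⟨h4, h5⟩
    constructor <;> omega
  · rintro ⟨h4, h5⟩
    constructor <;> omega

theorem Wn_in {d m : ℕ} {E : Rf n} {X : Finset (Fin n)} (h : Wi d m X.card) :
    Wn d m E X = E X := by
  funext a j
  unfold Wn
  rw [if_pos h]

theorem Gd_Wn {E : Rf n} (hE : Gd W E) (d m : ℕ) : Gd W (Wn d m E) := by
  constructor
  · intro X a ha j A h
    unfold Wn at h
    split_ifs at h with h1
    · exact hE.sn X a ha j A h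
    · obtain rfl := Option.some.inj h
      exact Finset.empty_subset _
  · intro X a j h
    unfold Wn
    split_ifs with h1
    · exact hE.ff X a j h
    · exact Option.some_ne_none _

/-- PROOF. `pc_eq_one`, `card_la2`. -/
theorem cD_Wn_out {d : ℕ} {E : Rf n} {Q D : Finset (Fin n)} (h : ¬ Wi d Q.card D.card) (c : ℤ) :
    cD (Wn d Q.card E) Q c D ≤ LL n := by
  unfold cD
  have h1 : ∀ a ∈ la2 n c, pc (Wn d Q.card E) D (Q \ D) a (c - a) = 1 := by
    intro a _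
    refine pc_eq_one ?_
    unfold Wn
    rw [if_neg h]
  rw [Finset.sum_congr rfl h1]
  simpa using card_la2 c

/-- PROOF. Both `D` and `Q \ D` are in the window (`Wi_compl`), `Wn_in`. -/
theorem cD_Wn_in {d : ℕ} (hd : d ≤ 10000) {E : Rf n} {Q D : Finset (Fin n)} (hD : D ⊆ Q)
    (h : Wi d Q.card D.card) (c : ℤ) : cD (Wn d Q.card E) Q c D = cD E Q c D := by
  classical
  have h1 : Wi d Q.card (Q \ D).card := by
    rw [Finset.card_sdiff_of_subset hD]
    exact (Wi_compl hd (Finset.card_le_card hD)).2 h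
  unfold cD
  refine Finset.sum_congr rfl fun a _ => ?_
  have h2 : ∀ j, POk (Wn d Q.card E) D (Q \ D) a (c - a) j ↔ POk E D (Q \ D) a (c - a) j := by
    intro j
    unfold POk
    rw [Wn_in h, Wn_in h1]
  unfold pc pj
  by_cases hx : ∃ j, POk E D (Q \ D) a (c - a) j
  · have hx' : ∃ j, POk (Wn d Q.card E) D (Q \ D) a (c - a) j := by
      obtain ⟨j, hj⟩ := hx
      exact ⟨j, (h2 j).2 hj⟩
    rw [dif_pos hx, dif_pos hx']
    congr 1
    exact Nat.find_congr' (fun {j} => h2 j)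
  · have hx' : ¬ ∃ j, POk (Wn d Q.card E) D (Q \ D) a (c - a) j := by
      rintro ⟨j, hj⟩
      exact hx ⟨j, (h2 j).1 hj⟩
    rw [dif_neg hx, dif_neg hx']

/-- A set in the window is not empty and not everything. -/
theorem Wi_ne {d : ℕ} (hd : 0 < d) {Q D : Finset (Fin n)} (hQ : Q.Nonempty) (hD : D ⊆ Q)
    (h : Wi d Q.card D.card) (hd' : d ≤ 10000) : D ≠ ∅ ∧ D ≠ Q := by
  have hQ0 := hQ.card_pos
  obtain ⟨e, he⟩ : ∃ e, 10000 = d + e := ⟨10000 - d, by omega⟩
  have h1 : 10000 - d = e := by omega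
  unfold Wi at h
  rw [h1] at h
  have h0 : 0 < d * Q.card := Nat.mul_pos hd hQ0
  constructor
  · rintro rfl
    have := h.1
    rw [Finset.card_empty] at this
    omega
  · rintro rfl
    have h3 := h.2
    have h4 : 10000 * D.card = d * D.card + e * D.card := by
      rw [he]
      ring
    omega

end Pool.Agent.MPa9445a.SB
end

section

end
end

section

section
/-! The step: basic facts. -/

set_option autoImplicit false

open Finset

namespace Pool.Agent.MPa9445a.SB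

open Pool.Agent.MPa9445a.SN (Fm rs kb)
open Pool.Agent.MPa9445a.GL (Vc S Ph Lv T Par lvl LL la2 fl Wb on off pl xk)

variable {n : ℕ} {W : Matrix (Fin n) (Fin n) ℤ} {Go : Rf n} {R : ℕ} {h : Hm n R}
  {φ : Finset (Fin n) → Finset (Fin n) → Finset (Fin n)} {P : Lev} {E : ℕ → Rf n} {g : ℕ → ℕ}

theorem AOk_mono {Q : Finset (Fin n)} {g : ℕ} {p : ℤ} {b b' : ℕ} (hb : b ≤ b') {ω : Rr n} {t : ℤ}
    (H : AOk W Go h φ P E Q g p b ω t) : AOk W Go h φ P E Q g p b' ω t := by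
  have h2 : 2 ^ b ≤ 2 ^ b' := Nat.pow_le_pow_right (by norm_num) hb
  exact ⟨H.hb.trans (by omega), H.pr, H.par, H.hU.trans hb, H.hB.trans hb, H.cU.trans h2,
    fun w => (H.cB w).trans h2⟩

/-- PROOF. `oR_sub` for the mode U (`Gd_Wn`) and for the mode B (`Gd_EB`; `dB' ⊆ Q`). -/
theorem oA_sub (hG : GO W Go) (hE : ∀ m, Gd W (E m)) (hφ : ∀ Q X, φ Q X ⊆ Q) (Q : Finset (Fin n)) (g : ℕ)
    (p : ℤ) (ω : Rr n) (t : ℤ) : oA W Go h φ P E Q g p ω t ⊆ Lv W (bl Q) p := by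
  classical
  intro x hx
  unfold oA at hx
  rcases Finset.mem_union.1 hx with hx | hx
  · exact oR_sub (Gd_Wn (hE _) _ _) (fun κ => hφ Q _) _ _ _ hx
  · obtain ⟨w, _, hx⟩ := Finset.mem_biUnion.1 hx
    exact oR_sub (Gd_EB hG _ _ _ _) (fun κ => Finset.inter_subset_right) _ _ _ hx

/-- The index of a level. PROOF. `x = z * LL n + (t + n ^ 4)`. -/
theorem exists_index {z : ℕ} {t : ℤ} (ht : t ∈ lvl n) :
    ∃ x, x / LL n = z ∧ tl n x = t := by
  have hL : LL n = 2 * n ^ 4 + 1 := rfl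
  unfold lvl at ht
  rw [Finset.mem_Icc] at ht
  have hR : ((GL.Rb n : ℕ) : ℤ) = (n : ℤ) ^ 4 := by
    unfold GL.Rb
    push_cast
    rfl
  rw [hR] at ht
  obtain ⟨y, hy⟩ : ∃ y : ℕ, (y : ℤ) = t + (n : ℤ) ^ 4 :=
    ⟨(t + (n : ℤ) ^ 4).toNat, Int.toNat_of_nonneg (by linarith [ht.1])⟩
  have hyL : y < LL n := by
    rw [hL]
    have : (y : ℤ) < 2 * (n : ℤ) ^ 4 + 1 := by
      rw [hy]
      linarith [ht.2]
    exact_mod_cast this
  have hL0 : 0 < LL n := by omega
  refine ⟨z * LL n + y, ?_, ?_⟩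
  · rw [Nat.add_comm, Nat.add_mul_div_right _ _ hL0, Nat.div_eq_of_lt hyL, Nat.zero_add]
  · unfold tl
    rw [Nat.add_comm, Nat.add_mul_mod_self_right, Nat.mod_eq_of_lt hyL]
    rw [hy]
    ring

theorem tl_mem (n x : ℕ) : tl n x ∈ lvl n := by
  have hL : LL n = 2 * n ^ 4 + 1 := rfl
  have hL0 : 0 < LL n := by omega
  have h1 : x % LL n < LL n := Nat.mod_lt _ hL0
  have h2 : ((x % LL n : ℕ) : ℤ) ≤ 2 * (n : ℤ) ^ 4 := by
    have h3 : x % LL n ≤ 2 * n ^ 4 := by omega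
    exact_mod_cast h3
  have h4 : (0 : ℤ) ≤ ((x % LL n : ℕ) : ℤ) := Int.natCast_nonneg _
  have hR : ((GL.Rb n : ℕ) : ℤ) = (n : ℤ) ^ 4 := by
    unfold GL.Rb
    push_cast
    rfl
  unfold lvl tl
  rw [Finset.mem_Icc, hR]
  constructor <;> linarith

/-- PROOF. `GL.not_Par` shows that `∅` is right for a wrong parity; `oA_sub`. -/
theorem Gd_nd (hG : GO W Go) (hE : ∀ m, Gd W (E m)) (hφ : ∀ Q X, φ Q X ⊆ Q) (ω : Sr n) :
    Gd W (nd W Go h φ P E g ω) := by
  classical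
  constructor
  · intro X a ha j A H
    unfold nd at H
    split_ifs at H with h1 h2 h3
    · obtain rfl := Option.some.inj H
      exact Finset.Subset.refl _
    · obtain rfl := Option.some.inj H
      unfold Ox
      split_ifs with h4
      · exact oA_sub hG hE hφ _ _ _ _ _
      · exact Finset.empty_subset _
    · obtain rfl := Option.some.inj H
      exact Finset.empty_subset _
  · intro X a j H
    unfold nd
    rw [if_pos H]
    exact Option.some_ne_none _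

/-- If an attempt succeeds then the procedure does not fail. -/
theorem nd_ne_none {Q : Finset (Fin n)} {p : ℤ} {b : ℕ} {ω : Sr n} {z : Fin n} {t : ℤ}
    (ht : t ∈ lvl n) (H : AOk W Go h φ P E Q (g Q.card) p b (ω z) t) :
    nd W Go h φ P E g ω Q p b ≠ none := by
  classical
  obtain ⟨x, hx1, hx2⟩ := exists_index (n := n) (z := (z : ℕ)) ht
  have hx : ∃ x, Ax W Go h φ P E g Q p b ω x := by
    refine ⟨x, ?_⟩
    have hz : x / LL n < n := by
      rw [hx1]
      exact z.2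
    refine ⟨hz, ?_⟩
    have hz' : (⟨x / LL n, hz⟩ : Fin n) = z := Fin.ext hx1
    rw [hz', hx2]
    exact H
  unfold nd
  split_ifs
  · exact Option.some_ne_none _
  · exact Option.some_ne_none _
  · exact Option.some_ne_none _

/-- Where the answers come from. -/
theorem nd_some {Q : Finset (Fin n)} {p : ℤ} {b : ℕ} {ω : Sr n} {A : Finset (Vc n)}
    (H : nd W Go h φ P E g ω Q p b = some A) :
    A = Lv W (bl Q) p ∨ (¬ Par W (bl Q) p ∧ A = ∅) ∨
      ∃ (z : Fin n) (t : ℤ), t ∈ lvl n ∧ AOk W Go h φ P E Q (g Q.card) p b (ω z) t ∧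
        A = oA W Go h φ P E Q (g Q.card) p (ω z) t := by
  classical
  unfold nd at H
  split_ifs at H with h1 h2 h3
  · exact Or.inl (Option.some.inj H).symm
  · refine Or.inr (Or.inr ?_)
    obtain ⟨hz, hA⟩ := Nat.find_spec h3
    refine ⟨⟨Nat.find h3 / LL n, hz⟩, tl n (Nat.find h3), tl_mem n _, hA, ?_⟩
    have := (Option.some.inj H).symm
    rw [this]
    unfold Ox
    rw [dif_pos hz]
  · exact Or.inr (Or.inl ⟨h2, (Option.some.inj H).symm⟩)

end Pool.Agent.MPa9445a.SB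
end

section
/-! The step: basic facts. -/

set_option autoImplicit false

open Finset

namespace Pool.Agent.MPa9445a.SB

open Pool.Agent.MPa9445a.SN (Fm rs kb)
open Pool.Agent.MPa9445a.GL (Vc S Ph Lv T Par lvl LL la2 fl Wb on off pl xk)

variable {n : ℕ} {W : Matrix (Fin n) (Fin n) ℤ} {Go : Rf n} {R : ℕ} {h : Hm n R}
  {φ : Finset (Fin n) → Finset (Fin n) → Finset (Fin n)} {P : Lev} {E : ℕ → Rf n} {g : ℕ → ℕ}

/-- The cost of an attempt with a present level bounds the least budget. PROOF. Let `b` be least with `2 ^ b` at least each of the numbers `2 ^ (#Q - g)`, `2 ^ eU`, `2 ^ eB`, `cU`, `cB w`; the attempt succeeds with `b`, and with all larger exponents (`AOk_mono`), so `cr ≤ 2 ^ b` (`nd_ne_none`, `cr_le`), and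
`2 ^ b ≤ 2 * max` or `b = 0` (the first number is at least 1). -/
theorem cr_nd_le {Q : Finset (Fin n)} {p : ℤ} {ω : Sr n} {z : Fin n} {t : ℤ} (ht : t ∈ lvl n)
    (hpr : Pr W Q (g Q.card) (ω z) t) (hpar : (p + t) % 2 = 0) :
    cr (nd W Go h φ P E g ω) Q p ≤ 2 * (2 ^ (Q.card - g Q.card) +
      2 ^ eU W h Q (g Q.card) (ω z) t + 2 ^ eB W Q (g Q.card) (ω z) t +
      cU W h φ P E Q (g Q.card) p (ω z) t + ∑ w, cB W Go P Q (g Q.card) p (ω z) t w) := by
  obtain ⟨M, hM⟩ : ∃ M : ℕ, M = 2 ^ (Q.card - g Q.card) +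
      2 ^ eU W h Q (g Q.card) (ω z) t + 2 ^ eB W Q (g Q.card) (ω z) t +
      cU W h φ P E Q (g Q.card) p (ω z) t + ∑ w, cB W Go P Q (g Q.card) p (ω z) t w := ⟨_, rfl⟩
  rw [← hM]
  have h1 : 1 ≤ 2 ^ (Q.card - g Q.card) := Nat.one_le_two_pow
  have h2 : 1 ≤ 2 ^ eU W h Q (g Q.card) (ω z) t := Nat.one_le_two_pow
  have h2' : 1 ≤ 2 ^ eB W Q (g Q.card) (ω z) t := Nat.one_le_two_pow
  have hM1 : 1 < M := by omega
  have hb1 : M ≤ 2 ^ Nat.clog 2 M := Nat.le_pow_clog (by norm_num) M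
  have hb2 : 2 ^ Nat.clog 2 M ≤ 2 * M := by
    have h3 := Nat.pow_pred_clog_lt_self (by norm_num : 1 < 2) hM1
    have h4 : 0 < Nat.clog 2 M := Nat.clog_pos (by norm_num) hM1
    have h5 : 2 ^ Nat.clog 2 M = 2 ^ (Nat.clog 2 M).pred * 2 := by
      rw [← pow_succ]
      congr 1
      have := Nat.succ_pred_eq_of_pos h4
      omega
    rw [h5]
    omega
  have H : AOk W Go h φ P E Q (g Q.card) p (Nat.clog 2 M) (ω z) t := by
    have e1 : Q.card - g Q.card ≤ Nat.clog 2 M :=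
      (Nat.pow_le_pow_iff_right (by norm_num : 1 < 2)).1
        ((by omega : 2 ^ (Q.card - g Q.card) ≤ M).trans hb1)
    refine ⟨by omega, hpr, hpar, ?_, ?_, ?_, fun w => ?_⟩
    · exact (Nat.pow_le_pow_iff_right (by norm_num : 1 < 2)).1
        ((by omega : 2 ^ eU W h Q (g Q.card) (ω z) t ≤ M).trans hb1)
    · exact (Nat.pow_le_pow_iff_right (by norm_num : 1 < 2)).1
        ((by omega : 2 ^ eB W Q (g Q.card) (ω z) t ≤ M).trans hb1)
    · exact (by omega : cU W h φ P E Q (g Q.card) p (ω z) t ≤ M).trans hb1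
    · have h6 : cB W Go P Q (g Q.card) p (ω z) t w ≤
          ∑ w, cB W Go P Q (g Q.card) p (ω z) t w :=
        Finset.single_le_sum (fun _ _ => Nat.zero_le _) (Finset.mem_univ w)
      exact (by omega : cB W Go P Q (g Q.card) p (ω z) t w ≤ M).trans hb1
  refine le_trans (cr_le fun j' hj' => ?_) hb2
  exact nd_ne_none ht (AOk_mono hj' H)

/-- A wrong parity costs nothing. PROOF. The procedure answers `∅` (or the complete list) with the budget `2 ^ 0`. -/
theorem cr_nd_par {Q : Finset (Fin n)} {p : ℤ} {ω : Sr n} (hp : ¬ Par W (bl Q) p) :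
    cr (nd W Go h φ P E g ω) Q p = 1 := by
  refine le_antisymm ?_ (one_le_cr _ _ _)
  refine (cr_le (j := 0) fun j' _ => ?_).trans (by norm_num)
  unfold nd
  by_cases h1 : Q.card ≤ j'
  · rw [if_pos h1]
    exact Option.some_ne_none _
  · rw [if_neg h1, if_pos hp]
    exact Option.some_ne_none _

/-- A level which occurs has the right parity. PROOF. `GL.parity`. -/
theorem par_of {Q : Finset (Fin n)} {p t : ℤ} (hp : Par W (bl Q) p)
    (ht : (Lv W (bl Q) t).Nonempty) : (p + t) % 2 = 0 := by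
  obtain ⟨x, hx⟩ := ht
  have hx1 : x ∈ S (bl Q) := (Finset.mem_filter.1 hx).1
  have hx2 : Ph W x = t := (Finset.mem_filter.1 hx).2
  have hv : GL.vc (bl Q) ∅ ∈ S (bl Q) := by
    unfold S GL.vc
    rw [Fintype.mem_piFinset]
    intro v
    by_cases h1 : bl Q v = 2
    · simp [h1]
    · simp [h1]
  have h2 : (Ph W x + Ph W (GL.vc (bl Q) ∅)) % 2 = 0 := GL.parity W hx1 hv
  have h3 : (p + Ph W (GL.vc (bl Q) ∅)) % 2 = 0 := hp
  rw [hx2] at h2
  omega

end Pool.Agent.MPa9445a.SB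
end
end

section

end
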