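import Pool.Agent.Lib.MP_a9445a_lc.Mg.G102
import Pool.Agent.Lib.MP_a9445a_lc.Mg.G150
import Pool.Agent.Lib.MP_a9445a_lc.Mg.G099
import Pool.Agent.Lib.MP_a9445a_lc.Mg.G146

section

section

end

section

/-! The list of the small sets in the code is complete and without repetition. -/

set_option autoImplicit false

open Finset
open scoped symmDiff

namespace Pool.Agent.MPa9445a.GS

open Pool.Agent.MPa9445a.BE (Ty Env vs one Bd NL DL tb flt gt bit Phi vec code lin argmax Bd.const
  Bd.add Bd.mul Bd.le Bd.up Bd.var Bd.self)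
open Pool.Agent.MPa9445a.GD
open Pool.Agent.MPa9445a.SN (ST)

private theorem L2_half {n x : ℕ} (hx : x < 2 ^ (n - n / 2)) : x * 2 ^ (n / 2) < 2 ^ n := by
  calc x * 2 ^ (n / 2) < 2 ^ (n - n / 2) * 2 ^ (n / 2) :=
        Nat.mul_lt_mul_of_pos_right hx (by positivity)
    _ = 2 ^ n := by rw [← pow_add]; congr 1; omega

private theorem L2_two (n : ℕ) : 2 ^ (n - n / 2) * 2 ^ (n / 2) = 2 ^ n := by
  rw [← pow_add]
  congr 1
  omega

/-- The elements of the list. -/
theorem mem_lsD {n : ℕ} {H : List ℤ} {o r s : ℕ} {z : ℤ} :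
    z ∈ lsD n H (lse n H o r) o r s ↔ ∃ u < 2 ^ n, pcn n u ≤ s ∧ (∀ i < r, parN n H o i u = 0) ∧
      (u : ℤ) = z := by
  have hs1 : 0 < s + 1 := Nat.succ_pos s
  unfold lsD
  rw [mem_fm]
  constructor
  · rintro ⟨x, hx, hz⟩
    split_ifs at hz with hc
    · rw [List.mem_map] at hz
      obtain ⟨y, hy, rfl⟩ := hz
      rw [mem_qry] at hy
      obtain ⟨x2, hx2, h1, h2, rfl⟩ := hy
      have hc1 : x / (s + 1) < 2 ^ (n / 2) := Nat.div_lt_of_lt_mul (by
        rw [Nat.mul_comm]
        exact hx)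
      refine ⟨x / (s + 1) + x2 * 2 ^ (n / 2), ?_, ?_, ?_, ?_⟩
      · calc x / (s + 1) + x2 * 2 ^ (n / 2) < 2 ^ (n / 2) + x2 * 2 ^ (n / 2) := by omega
          _ = (x2 + 1) * 2 ^ (n / 2) := by ring
          _ ≤ 2 ^ (n - n / 2) * 2 ^ (n / 2) := Nat.mul_le_mul_right _ hx2
          _ = 2 ^ n := L2_two n
      · rw [pcn_add hc1, h1]
        exact hc
      · intro i hi
        have h3 := (sdr_eq_iff.1 h2) i hi
        rw [parN_add hc1, h3]
        omega
      · push_cast
        ring
    · exact absurd hz List.not_mem_nil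
  · rintro ⟨u, hu, h1, h2, rfl⟩
    have hp : 0 < 2 ^ (n / 2) := by positivity
    have hc1 : u % 2 ^ (n / 2) < 2 ^ (n / 2) := Nat.mod_lt _ hp
    have hx2 : u / 2 ^ (n / 2) < 2 ^ (n - n / 2) := Nat.div_lt_of_lt_mul (by
      rw [Nat.mul_comm, L2_two]
      exact hu)
    have hsum : u = u % 2 ^ (n / 2) + u / 2 ^ (n / 2) * 2 ^ (n / 2) := (Nat.mod_add_div' _ _).symm
    have hpc : pcn n u = pcn n (u % 2 ^ (n / 2)) + pcn n (u / 2 ^ (n / 2) * 2 ^ (n / 2)) := by
      conv_lhs => rw [hsum]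
      exact pcn_add hc1
    have hj : pcn n (u / 2 ^ (n / 2) * 2 ^ (n / 2)) < s + 1 := by omega
    have e1 : (u % 2 ^ (n / 2) * (s + 1) + pcn n (u / 2 ^ (n / 2) * 2 ^ (n / 2))) / (s + 1) =
        u % 2 ^ (n / 2) := by
      rw [Nat.mul_comm, Nat.mul_add_div hs1, Nat.div_eq_of_lt hj, add_zero]
    have e2 : (u % 2 ^ (n / 2) * (s + 1) + pcn n (u / 2 ^ (n / 2) * 2 ^ (n / 2))) % (s + 1) =
        pcn n (u / 2 ^ (n / 2) * 2 ^ (n / 2)) := by
      rw [Nat.mul_comm, Nat.mul_add_mod, Nat.mod_eq_of_lt hj]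
    refine ⟨u % 2 ^ (n / 2) * (s + 1) + pcn n (u / 2 ^ (n / 2) * 2 ^ (n / 2)), ?_, ?_⟩
    · calc u % 2 ^ (n / 2) * (s + 1) + pcn n (u / 2 ^ (n / 2) * 2 ^ (n / 2)) <
            u % 2 ^ (n / 2) * (s + 1) + (s + 1) := by omega
        _ = (u % 2 ^ (n / 2) + 1) * (s + 1) := by ring
        _ ≤ 2 ^ (n / 2) * (s + 1) := Nat.mul_le_mul_right _ hc1
    · rw [e1, e2, if_pos (by omega), List.mem_map]
      refine ⟨((u / 2 ^ (n / 2) * 2 ^ (n / 2) : ℕ) : ℤ), ?_, ?_⟩
      · rw [mem_qry]
        refine ⟨u / 2 ^ (n / 2), hx2, rfl, ?_, rfl⟩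
        refine sdr_eq_iff.2 fun i hi => ?_
        have h3 := h2 i hi
        rw [hsum, parN_add hc1] at h3
        have h4 := parN_lt n H o i (u % 2 ^ (n / 2))
        have h5 := parN_lt n H o i (u / 2 ^ (n / 2) * 2 ^ (n / 2))
        omega
      · have h6 : ((u / 2 ^ (n / 2) * 2 ^ (n / 2) : ℕ) : ℤ) + ((u % 2 ^ (n / 2) : ℕ) : ℤ) =
            ((u % 2 ^ (n / 2) + u / 2 ^ (n / 2) * 2 ^ (n / 2) : ℕ) : ℤ) := by
          push_cast
          ring
        rw [h6, ← hsum]

private theorem L2_key {n : ℕ} {H : List ℤ} {o r c c' : ℕ} (hc : c < 2 ^ n) (hc' : c' < 2 ^ n)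
    (h : key n H o r c = key n H o r c') : c = c' := by
  unfold key at h
  have h1 : ((pcn n c * 2 ^ r + sdr n H o r c) * 2 ^ n + c) % 2 ^ n = c := by
    rw [Nat.mul_comm, Nat.mul_add_mod, Nat.mod_eq_of_lt hc]
  have h2 : ((pcn n c' * 2 ^ r + sdr n H o r c') * 2 ^ n + c') % 2 ^ n = c' := by
    rw [Nat.mul_comm, Nat.mul_add_mod, Nat.mod_eq_of_lt hc']
  rw [← h1, h, h2]

theorem nodup_lse (n : ℕ) (H : List ℤ) (o r : ℕ) : (lse n H o r).Nodup := by
  unfold lse
  rw [(srt_perm _ _).nodup_iff]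
  unfold BE.tb
  refine List.Nodup.map_on ?_ List.nodup_range
  intro x hx y hy hxy
  rw [List.mem_range] at hx hy
  have h1 := L2_key (L2_half hx) (L2_half hy) (by exact_mod_cast hxy)
  exact Nat.eq_of_mul_eq_mul_right (by positivity) h1

theorem nodup_qry (n : ℕ) (H : List ℤ) (o r c j : ℕ) : (qry n H (lse n H o r) o r c j).Nodup := by
  unfold qry
  refine nodup_rg (sorted_lse n H o r) ?_ ?_
  · intro i j hij hj h
    rw [zero_add, zero_add] at h
    rw [zero_add] at hj
    rw [BE.gt, BE.gt, List.getD_eq_getElem _ _ hj, List.getD_eq_getElem _ _ (hij.trans hj)] at h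
    have h1 := (List.Nodup.getElem_inj_iff (nodup_lse n H o r)).1 h
    omega
  · rw [length_lse]
    refine Nat.pow_lt_pow_right (by norm_num) ?_
    unfold kbt
    omega

/-- The list has no repetition. -/
theorem nodup_lsD (n : ℕ) (H : List ℤ) (o r s : ℕ) : (lsD n H (lse n H o r) o r s).Nodup := by
  have hs1 : 0 < s + 1 := Nat.succ_pos s
  have key : ∀ x < 2 ^ (n / 2) * (s + 1), ∀ z, z ∈ (if pcn n (x / (s + 1)) + x % (s + 1) ≤ s then
      (qry n H (lse n H o r) o r (x / (s + 1)) (x % (s + 1))).map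
        fun y => y + ((x / (s + 1) : ℕ) : ℤ) else []) →
      ∃ x2 : ℕ, z = ((x / (s + 1) + x2 * 2 ^ (n / 2) : ℕ) : ℤ) ∧
        pcn n (x2 * 2 ^ (n / 2)) = x % (s + 1) := by
    intro x _ z hz
    split_ifs at hz with hc
    · rw [List.mem_map] at hz
      obtain ⟨y, hy, rfl⟩ := hz
      rw [mem_qry] at hy
      obtain ⟨x2, hx2, h1, h2, rfl⟩ := hy
      refine ⟨x2, ?_, h1⟩
      push_cast
      ring
    · exact absurd hz List.not_mem_nil
  unfold lsD fm
  rw [List.nodup_flatMap]
  refine ⟨fun x _ => ?_, ?_⟩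
  · split_ifs
    · exact (nodup_qry n H o r _ _).map fun a b h => by linarith
    · exact List.nodup_nil
  · refine List.Nodup.pairwise_of_forall_ne List.nodup_range fun x hx y hy hxy => ?_
    rw [List.mem_range] at hx hy
    intro z hz hz'
    obtain ⟨x2, h1, h2⟩ := key x hx z hz
    obtain ⟨y2, h3, h4⟩ := key y hy z hz'
    have hx1 : x / (s + 1) < 2 ^ (n / 2) := Nat.div_lt_of_lt_mul (by rw [Nat.mul_comm]; exact hx)
    have hy1 : y / (s + 1) < 2 ^ (n / 2) := Nat.div_lt_of_lt_mul (by rw [Nat.mul_comm]; exact hy)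
    rw [h1] at h3
    have h5 : x / (s + 1) + x2 * 2 ^ (n / 2) = y / (s + 1) + y2 * 2 ^ (n / 2) := by exact_mod_cast h3
    have h6 : x / (s + 1) = y / (s + 1) := by
      have a1 : (x / (s + 1) + x2 * 2 ^ (n / 2)) % 2 ^ (n / 2) = x / (s + 1) := by
        rw [Nat.add_mul_mod_self_right, Nat.mod_eq_of_lt hx1]
      have a2 : (y / (s + 1) + y2 * 2 ^ (n / 2)) % 2 ^ (n / 2) = y / (s + 1) := by
        rw [Nat.add_mul_mod_self_right, Nat.mod_eq_of_lt hy1]
      rw [← a1, h5, a2]
    have h7 : x2 * 2 ^ (n / 2) = y2 * 2 ^ (n / 2) := by omega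
    have h8 : x % (s + 1) = y % (s + 1) := by rw [← h2, ← h4, h7]
    exact hxy (by rw [← Nat.div_add_mod x (s + 1), ← Nat.div_add_mod y (s + 1), h6, h8])

end Pool.Agent.MPa9445a.GS
end
end

section
/-! The step for the average cost. -/

set_option autoImplicit false
set_option synthInstance.maxSize 1000

open Finset

namespace Pool.Agent.MPa9445a.SB

open Pool.Agent.MPa9445a.SN (Fm rs kb)
open Pool.Agent.MPa9445a.GL (Vc S Ph Lv T Par lvl LL la2 fl Wb on off pl xk)

variable {n : ℕ} {W : Matrix (Fin n) (Fin n) ℤ} {Go : Rf n} {R : ℕ}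

/-- The inequalities between the numbers of a level, for a block of size `s`: `g` is the exponent of the budget, `c e` the cost of
a child of size `e`, `d` the window. -/
structure NumU (n R d s g : ℕ) (c : ℕ → ℝ) (A : ℝ) : Prop where
  s0 : 0 < s
  gs : g ≤ s
  kbJ : s + c1 * lg n ≤ kb n + g
  kbD : n + c2 * lg n + 1 ≤ kb n
  c0 : ∀ e, 1 ≤ c e
  A0 : 1 ≤ A
  h1 : (LL n : ℝ) * 2 ^ g ≤ 2 ^ s
  h2 : 2 ^ R * (n + 2) ^ 40 ≤ 2 ^ g
  h3 : (2 : ℝ) ^ s ≤ A * (2 ^ g) ^ 2
  h4 : (∑ e ∈ range (s + 1), if Wi d s e then (s.choose e : ℝ) * c e else 0) ≤ A * (2 ^ g) ^ 2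

/-- The same for the mode B, `th` is the threshold in millionths. -/
structure NumB (n d th s g : ℕ) (A : ℝ) : Prop where
  h5 : (2 : ℝ) ^ ((th : ℝ) / 1000000 * s) ≤ A * (2 ^ g) ^ 2
  h6 : (∑ e ∈ range (s + 1), if 10000 * e < d * s then (s.choose e : ℝ) * 2 ^ (gam * e) else 0) ≤
    A * (2 ^ g) ^ 2

/-- The factor of a step. -/
noncomputable def Fc (n l : ℕ) : ℝ :=
  10 ^ 5 * n * 2 ^ (c2 * lg n) * (LL n : ℝ) ^ 3 * (2 * n) ^ l

private theorem D5a_aux1 {β : Type} [Fintype β] (n : ℕ) (z : Fin n) (f : β → ℝ) :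
    (∑ ω : Fin n → β, f (ω z)) * Fintype.card β =
      Fintype.card (Fin n → β) * ∑ r : β, f r := by
  classical
  have h1 : ∑ ω : Fin n → β, f (ω z) = ∑ x : β × ({j : Fin n // j ≠ z} → β), f x.1 := by
    refine Fintype.sum_equiv (Equiv.funSplitAt z β) _ _ fun ω => ?_
    rfl
  have h2 : Fintype.card (Fin n → β) = Fintype.card β * Fintype.card ({j : Fin n // j ≠ z} → β) := by
    rw [Fintype.card_congr (Equiv.funSplitAt z β), Fintype.card_prod]
  rw [h1, h2, Fintype.sum_prod_type]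
  simp only [Finset.sum_const, Finset.card_univ, nsmul_eq_mul]
  rw [← Finset.mul_sum]
  push_cast
  ring

open scoped Classical in
private theorem D5a_aux2 {β : Type} [Fintype β] (n : ℕ) (B : β → Prop)
    (hB : (univ.filter fun r : β => B r).card * 4 ≤ Fintype.card β) :
    (univ.filter fun ω : Fin n → β => ∀ z, B (ω z)).card * 4 ^ n ≤ Fintype.card (Fin n → β) := by
  have h1 : (univ.filter fun ω : Fin n → β => ∀ z, B (ω z)) =
      Fintype.piFinset fun _ : Fin n => univ.filter fun r : β => B r := by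
    ext ω
    simp [Fintype.mem_piFinset]
  rw [h1, Fintype.card_piFinset, Finset.prod_const, Finset.card_univ, Fintype.card_fin,
    ← Nat.mul_pow, Fintype.card_fun, Fintype.card_fin]
  exact Nat.pow_le_pow_left hB n

/-- The average of a function of one round. PROOF. `Fintype.piFinset` / `Fin.consEquiv` (split off the coordinate `z`): every value of the coordinate `z` is taken by `#(Rr n) ^ (n - 1)` of the `ω`. -/
theorem sum_round (z : Fin n) (f : Rr n → ℝ) :
    (∑ ω : Sr n, f (ω z)) * Fintype.card (Rr n) = Fintype.card (Sr n) * ∑ r : Rr n, f r := by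
  exact D5a_aux1 n z f

open scoped Classical in
/-- All rounds are bad. PROOF. The number of the `ω` with all `ω z` in a set with `k` elements is `k ^ n` (`Fintype.card_piFinset`). -/
theorem all_rounds (B : Rr n → Prop)
    (hB : (univ.filter fun r : Rr n => B r).card * 4 ≤ Fintype.card (Rr n)) :
    (univ.filter fun ω : Sr n => ∀ z, B (ω z)).card * 4 ^ n ≤ Fintype.card (Sr n) := by
  exact D5a_aux2 n B hB

end Pool.Agent.MPa9445a.SB
end

section

/-!
# The program: top level

Every repetition has its own random bits for the code and the families, the golden procedure has the same random bits in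
all repetitions. The candidates of a repetition are the first vector of the list of the top level for every pair of levels
`p`, `t`, and the best vectors in the balls around the first samples of every level `t`. The result is the best
candidate. If there are less than `n₀` vertices then all vectors are tried.
-/

set_option autoImplicit false

open Finset

namespace Pool.Agent.MPa9445a.SX

open Pool.Agent.MPa9445a.BE
open Pool.Agent.MPa9445a.GL (rk sv rc YS Pf lvv LL full)
open Pool.Agent.MPa9445a.SB (Lev c1)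
open Pool.Agent.MPa9445a.GS (lgn Rc g0 fof dmL WnL oT oH sN lse lsn tbw TB cct Rz)
open Pool.Agent.MPa9445a.BW (bw)

/-- The number of repetitions. -/
def NR (n : ℕ) : ℕ := 6 * n ^ 2 + 20

/-- The number of random bits. -/
def Lb (n : ℕ) : ℕ := oH n + NR n * GS.RB n

/-- The number of candidates of a repetition for every pair of levels. -/
def YB : ℕ := SB.Y0 + 1

section

variable (PA PB : Lev) (b n : ℕ) (M R : List ℤ)

/-- The first entry of the families of the top level. -/
def oo : ℕ := fof n 2 0 0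

/-- The table is not too large. -/
def tok (A : List ℤ) : Prop := GS.tok n A b = 1

instance (A : List ℤ) : Decidable (tok b n A) := by
  unfold tok
  infer_instance

/-- The array of the repetition `z` with its table. -/
def RT (z : ℕ) : List ℤ := cct (oT n) (Rz n R z) (TB n M (Rz n R z))

/-- The list of the top level. -/
def UT (z : ℕ) (p t : ℤ) : List ℤ :=
  UL (WnL 4999 (P1 PA PB)) n M (RT n M R z) (oo n) (full n) (g0 n) p b t

/-- The candidate for the levels `p`, `t`. -/
def cd0 (z : ℕ) (p t : ℤ) : ℕ :=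
  if tok b n (Rz n R z) then
    if 2 ^ (c1 * lgn n - 1) ≤ hN n M (Rz n R z) (oo n) (full n) (g0 n) t ∧ (p + t) % 2 = 0 ∧
        exL n M (Rz n R z) (oo n) (full n) (g0 n) t (dmL n (Rz n R z) (full n) + Rc n) ≤ b then
      (gt (UT PA PB b n M R z p t) 1).toNat
    else 0
  else 0

/-- The candidate for the sample number `y` of value `t`. -/
def cd1 (z : ℕ) (t : ℤ) (y : ℕ) : ℕ :=
  bw n M (sv n (full n) (rc n (Rz n R z) (oo n)
    (gt (YS n M (Rz n R z) (oo n) (full n) (jx n n (g0 n)) t) y).toNat))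

/-- The candidate with index `x`. -/
def cnd (x : ℕ) : ℕ :=
  if x % YB = 0 then
    cd0 PA PB b n M R (x / YB / LL n / LL n) (lvv n (x / YB / LL n % LL n)) (lvv n (x / YB % LL n))
  else cd1 n M R (x / YB / LL n / LL n) (lvv n (x / YB % LL n)) (x % YB - 1)

end

section

variable (PA PB : Lev) (cb n₀ n : ℕ) (M R : List ℤ)

/-- The exponent of the budget. -/
def bT : ℕ := g0 n + cb * lgn n

/-- The code of the result. -/
def tc : ℕ :=
  if n < n₀ then argmax (2 ^ n) fun c => Phi n M (vec n c.toNat) else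
    cnd PA PB (bT cb n) n M R (argmax (NR n * LL n * LL n * YB) fun x =>
      Phi n M (vec n (cnd PA PB (bT cb n) n M R x.toNat)))

/-- The result: the array of the binary digits of the code. -/
def out : List ℤ := tb n fun v => (bit (tc PA PB cb n₀ n M R) v : ℤ)

end

end Pool.Agent.MPa9445a.SX
end
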