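import Pool.Agent.Lib.MP_a9445a_lc.Mg.G096
import Pool.Agent.Lib.MP_a9445a_lc.Mg.G125
import Pool.Agent.Lib.MP_a9445a_lc.Mg.G103
import Pool.Agent.Lib.MP_a9445a_lc.Mg.G099
import Pool.Agent.Lib.MP_a9445a_lc.Mg.G101

section

section

/-! Numbers. -/

set_option autoImplicit false

open Finset
open scoped symmDiff

namespace Pool.Agent.MPa9445a.SX

open Pool.Agent.MPa9445a.BE
open Pool.Agent.MPa9445a.SN (ST Fm rs kb)
open Pool.Agent.MPa9445a.GL (Vc S Ph Lv Fr rk rc dk fR bl)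

variable {n : ℕ}

/-- PROOF. `Nat.log 2 x` is the number of `j` with `2 ^ (j + 1) ≤ x` (`Nat.pow_le_iff_le_log` / `Nat.le_log_iff_pow_le`). -/
theorem lgB_log {B x : ℕ} (h : x < 2 ^ (B + 1)) : GS.lgB B x = Nat.log 2 x := by
  have key : ∀ j ∈ range B, (if 2 ^ (j + 1) ≤ x then 1 else 0) =
      (if j < Nat.log 2 x then 1 else 0) := by
    intro j _
    have h1 : (2 ^ (j + 1) ≤ x) ↔ (j < Nat.log 2 x) := by
      rcases Nat.eq_zero_or_pos x with h0 | h0
      · subst h0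
        simp
      · rw [← Nat.le_log_iff_pow_le (by norm_num) (by omega)]
        exact Iff.rfl
    simp only [h1]
  unfold GS.lgB
  rw [Finset.sum_congr rfl key, Finset.sum_boole]
  have hle : Nat.log 2 x ≤ B := by
    rcases Nat.eq_zero_or_pos x with h0 | h0
    · subst h0; simp
    · exact Nat.lt_succ_iff.mp (Nat.log_lt_of_lt_pow (by omega) h)
  have e : (range B).filter (fun j => j < Nat.log 2 x) = range (Nat.log 2 x) := by
    ext j
    simp only [mem_filter, mem_range]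
    omega
  rw [e, card_range]
  simp

/-- PROOF. `Nat.clog 2 x` is the number of `j` with `2 ^ j < x` (`Nat.lt_clog_iff_pow_lt`, ..). -/
theorem clg_clog {B x : ℕ} (h : x ≤ 2 ^ B) : GS.clg B x = Nat.clog 2 x := by
  have key : ∀ j ∈ range B, (if 2 ^ j < x then 1 else 0) =
      (if j < Nat.clog 2 x then 1 else 0) := by
    intro j _
    have h1 : (2 ^ j < x) ↔ (j < Nat.clog 2 x) := (Nat.lt_clog_iff_pow_lt (by norm_num)).symm
    simp only [h1]
  unfold GS.clg
  rw [Finset.sum_congr rfl key, Finset.sum_boole]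
  have hle : Nat.clog 2 x ≤ B := (Nat.clog_le_iff_le_pow (by norm_num)).mpr h
  have e : (range B).filter (fun j => j < Nat.clog 2 x) = range (Nat.clog 2 x) := by
    ext j
    simp only [mem_filter, mem_range]
    omega
  rw [e, card_range]
  simp

/-- PROOF. `clg_clog`, `n + 2 ≤ 2 ^ (n + 2)`. -/
theorem lgn_lg (n : ℕ) : GS.lgn n = SB.lg n := by
  unfold GS.lgn SB.lg
  exact clg_clog (Nat.lt_two_pow_self).le

/-- PROOF. By induction over `i ≤ m` the entries of `pas m i` are the binomial coefficients `i.choose j`, `j ≤ m` (Pascal's rule). -/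
theorem cho_choose {m s : ℕ} (h : s ≤ m) : GS.cho m s = m.choose s := by
  have key : ∀ i, ∀ j ≤ m, gt (GS.pas m i) j = (i.choose j : ℤ) := by
    intro i
    induction i with
    | zero =>
      intro j hj
      have e : gt (GS.pas m 0) j = if j = 0 then 1 else 0 := by
        show (tb (m + 1) fun j => if j = 0 then 1 else 0).getD j 0 = _
        rw [getD_tb, if_pos (by omega)]
      rw [e]
      cases j with
      | zero => simp
      | succ j => simp
    | succ i ih =>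
      intro j hj
      have e : gt (GS.pas m (i + 1)) j =
          gt (GS.pas m i) j + if j = 0 then 0 else gt (GS.pas m i) (j - 1) := by
        show (tb (m + 1) fun j => gt (GS.pas m i) j +
          if j = 0 then 0 else gt (GS.pas m i) (j - 1)).getD j 0 = _
        rw [getD_tb, if_pos (by omega)]
      rw [e, ih j hj]
      cases j with
      | zero => simp
      | succ j =>
        rw [if_neg (by omega), Nat.add_sub_cancel, ih j (by omega), Nat.choose_succ_succ]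
        push_cast
        ring
  unfold GS.cho
  rw [key m s h, Int.toNat_natCast]

/-- PROOF. `cho_choose`, `clg_clog` (`m.choose s ≤ 2 ^ m`). -/
theorem g2_eq {m s : ℕ} (h : s ≤ m) : GS.g2 n m s = SB.g2 n m s := by
  unfold GS.g2 SB.g2 GS.g1 SB.g1
  rw [cho_choose h, clg_clog (Nat.choose_le_two_pow m s)]

end Pool.Agent.MPa9445a.SX
end

section

/-! Sets. -/

set_option autoImplicit false

open Finset
open scoped symmDiff

namespace Pool.Agent.MPa9445a.SX

open Pool.Agent.MPa9445a.BE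
open Pool.Agent.MPa9445a.SN (ST Fm rs kb)
open Pool.Agent.MPa9445a.GL (Vc S Ph Lv Fr rk rc dk fR bl)

variable {n : ℕ}

/-- The sets of the mode U. PROOF. `GS.ST_cmbL`, `GS.kzL_eq`, `GL.ST_rc`; `Fr_bl`. -/
theorem ST_dFU (R : List ℤ) (o : ℕ) {Q : Finset (Fin n)} {s : List ℤ} (hs : fv n s = SB.bl Q)
    (j κ : ℕ) : ST n (GS.dFU n R o s s j κ) = phR n R Q (rs (fR n R o) κ) := by
  have h1 : GS.dFU n R o s s j κ =
      GS.cmbL n (GS.kzL n R (GS.oH n) s (GS.Rc n)) (GL.rc n R o κ) := rfl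
  rw [h1, GS.ST_cmbL, GL.ST_rc]
  have h2 : (fun j : Fin n => ST n (gt (GS.kzL n R (GS.oH n) s (GS.Rc n)) j).toNat) =
      GS.kz Q (fun i => GS.rowR n R (GS.oH n) i) (SB.Rc n) := by
    funext j
    rw [GS.kzL_eq, hs, Fr_bl]
    rfl
  rw [h2]
  rfl

/-- They are subsets of `Q`. PROOF. `GS.range_kz`. -/
theorem phR_sub (R : List ℤ) (Q X : Finset (Fin n)) : phR n R Q X ⊆ Q :=
  ((GS.range_kz Q (fun i => GS.rowR n R (GS.oH n) i) (SB.Rc n) (phR n R Q X)).1 ⟨X, rfl⟩).1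

/-- The sets of the mode B. PROOF. `GL.ST_dk`, `GL.ST_rc`, `Fr_bl`. -/
theorem ST_dFB (R : List ℤ) (o : ℕ) {Q : Finset (Fin n)} {s : List ℤ} (hs : fv n s = SB.bl Q)
    (j κ : ℕ) : ST n (GS.dFB n R o s s j κ) = rs (fR n R o) κ ∩ Q := by
  have h1 : GS.dFB n R o s s j κ = GL.dk n s (GL.rc n R o κ) := rfl
  rw [h1, GL.ST_dk, GL.ST_rc, hs, Fr_bl]

/-- PROOF. `GL.rk_n`, `Fr_bl`. -/
theorem rk_bl {Q : Finset (Fin n)} {s : List ℤ} (hs : fv n s = SB.bl Q) : rk s n = Q.card := by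
  rw [GL.rk_n, hs, Fr_bl]

end Pool.Agent.MPa9445a.SX
end

section

/-! The first index, the window. -/

set_option autoImplicit false

open Finset
open scoped symmDiff

namespace Pool.Agent.MPa9445a.SX

open Pool.Agent.MPa9445a.BE
open Pool.Agent.MPa9445a.SN (ST Fm rs kb)
open Pool.Agent.MPa9445a.GL (Vc S Ph Lv Fr lvl LL lvv rk rc fR bl Pc Pf Cpl cdv tl)
open Pool.Agent.MPa9445a.GS (pkM pkB dmL)
open Pool.Agent.MPa9445a.SB (Rf Lev ht Jn Cc Rr Hm Pl Sc)

variable {n : ℕ} {P : Lev} {Ch : Pf} {F : ℕ → Rf n} {M R : List ℤ} {Go : Rf n}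

/-- `argmax` of a function with values `0`, `1` is the first index with value `1`. PROOF. `BE.argmax` is the first maximum (see its lemmas in `BE/B0`, `GD` or the proofs of `GL/Q8b`). -/
theorem argmax_find (k : ℕ) (p : ℕ → Prop) [DecidablePred p] (h : ∃ x, x < k ∧ ¬ p x) :
    argmax k (fun x => if p x.toNat then 0 else 1) = Nat.find h := by
  classical
  have hf : (fun x : ℤ => if p x.toNat then (0 : ℤ) else 1) =
      fun x : ℤ => if (fun y => ¬ p y) x.toNat then (1 : ℤ) else 0 := by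
    funext x
    by_cases hx : p x.toNat <;> simp [hx]
  obtain ⟨i, hi, hp⟩ := h
  have h1 := GD.argmax_find (k := k) (q := fun y => ¬ p y) hi hp
  symm
  rw [Nat.find_eq_iff, hf]
  refine ⟨⟨h1.2.1, h1.1⟩, fun j hj hj' => ?_⟩
  exact h1.2.2 j hj hj'.2

/-- The window. PROOF. `rk_bl`; the inequalities over `ℤ` and over `ℕ` are the same. -/
theorem WnL_rp {Q : Finset (Fin n)} {E : Pf} {G : Rf n} {m : ℕ} (hm : gt M (n * n) = m)
    (h : Rp n Q (E n M R) G) (d : ℕ) : Rp n Q (GS.WnL d E n M R) (SB.Wn d m G) := by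
  intro X hX s hs a ha j
  have hc : ((d : ℤ) * gt M (n * n) ≤ 10000 * (rk s n : ℤ) ∧
      10000 * (rk s n : ℤ) ≤ ((10000 - d : ℕ) : ℤ) * gt M (n * n)) ↔ SB.Wi d m X.card := by
    rw [hm, rk_bl hs]
    unfold SB.Wi
    constructor
    · rintro ⟨h1, h2⟩
      exact ⟨by exact_mod_cast h1, by exact_mod_cast h2⟩
    · rintro ⟨h1, h2⟩
      exact ⟨by exact_mod_cast h1, by exact_mod_cast h2⟩
  unfold GS.WnL SB.Wn
  by_cases hw : SB.Wi d m X.card
  · rw [if_pos (hc.mpr hw), if_pos hw]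
    exact h X hX s hs a ha j
  · rw [if_neg (fun hh => hw (hc.mp hh)), if_neg hw]
    refine Or.inr ⟨∅, [], rfl, rfl, ?_, Finset.empty_subset _⟩
    simp [Cpl]

end Pool.Agent.MPa9445a.SX
end

section

/-! Lists of codes. -/

set_option autoImplicit false

open Finset
open scoped symmDiff

namespace Pool.Agent.MPa9445a.SX

open Pool.Agent.MPa9445a.BE
open Pool.Agent.MPa9445a.SN (ST Fm rs kb)
open Pool.Agent.MPa9445a.GL (Vc S Ph Lv Fr lvl LL lvv la rh Pc Cpl cdv jn pok)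
open Pool.Agent.MPa9445a.SB (Rf)

variable {n : ℕ}

private theorem T1_tb (L : List ℤ) (g : ℤ → ℤ) : tb L.length (fun i => g (gt L i)) = L.map g := by
  apply List.ext_getElem
  · simp [tb]
  · intro i h1 h2
    have h3 : i < L.length := by simpa using h2
    simp only [tb, List.getElem_map, List.getElem_range, gt]
    rw [List.getD_eq_getElem _ _ h3]

private theorem T1_mem {k : ℕ} {q : ℕ → Prop} [DecidablePred q] {f : ℕ → ℤ} {c : ℤ} :
    c ∈ (flt k q).map (fun x => f x.toNat) ↔ ∃ i < k, q i ∧ f i = c := by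
  unfold flt
  simp only [List.mem_map, List.mem_filter, List.mem_range, decide_eq_true_eq]
  constructor
  · rintro ⟨x, ⟨i, ⟨h1, h2⟩, h3⟩, h4⟩
    refine ⟨i, h1, h2, ?_⟩
    rw [← h4, ← h3, Int.toNat_natCast]
  · rintro ⟨i, h1, h2, h3⟩
    refine ⟨(i : ℤ), ⟨i, ⟨h1, h2⟩, rfl⟩, ?_⟩
    rw [Int.toNat_natCast]
    exact h3

/-- PROOF. As `GL.Cpl.length` (file `GL/Q2`). -/
theorem Cpl_length {s : Vc n} {A : Finset (Vc n)} {L : List ℤ} (h : Cpl L A) (hA : A ⊆ S s) :
    L.length = A.card := by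
  have hi : Set.InjOn (cdv (n := n)) (A : Set (Vc n)) := by
    intro x hx y hy hxy
    exact GL.cdv_inj (hA hx) (hA hy) hxy
  rw [← List.toFinset_card_of_nodup h.1, ← Finset.card_image_of_injOn hi]
  congr 1
  ext c
  rw [List.mem_toFinset, h.2 c, Finset.mem_image]

/-- PROOF. As `GL.mem_jn` (file `GL/Q2`), only `A ⊆ S` and `B ⊆ S` is used there. -/
theorem mem_jn' {M l r LA LB : List ℤ} {A B : Finset (Vc n)} {p : ℤ} (hA : Cpl LA A)
    (hB : Cpl LB B) (hAS : A ⊆ S (fv n l)) (hBS : B ⊆ S (fv n r)) (c : ℤ) :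
    c ∈ jn n M l r (1 :: LA) (1 :: LB) p ↔ ∃ u ∈ A, ∃ v ∈ B,
      Ph (wtm n M) (u + v) = p ∧ cdv (u + v) = c := by
  have hj : jn n M l r (1 :: LA) (1 :: LB) p = (GL.ix n M l r (1 :: LA) (1 :: LB) p).map
      (fun x => ((fun i : ℕ => (code n (GL.xy n l r (1 :: LA) (1 :: LB) i) : ℤ)) x.toNat)) :=
    T1_tb _ (fun x => (code n (GL.xy n l r (1 :: LA) (1 :: LB) x.toNat) : ℤ))
  have key : ∀ i j : ℕ, ∀ hi : i < LA.length, ∀ hj : j < LB.length, ∀ u ∈ A,
      ∀ v ∈ B, cdv u = LA[i] → cdv v = LB[j] → ∀ x : ℕ,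
      x / LB.length = i → x % LB.length = j →
        fv n (GL.xy n l r (1 :: LA) (1 :: LB) x) = u + v := by
    intro i j hi hj u hu v hv h1 h2 x hx1 hx2
    have e1 : gt (1 :: LA) (1 + i) = LA[i] := by
      rw [gt, add_comm, List.getD_cons_succ, List.getD_eq_getElem _ _ hi]
    have e2 : gt (1 :: LB) (1 + j) = LB[j] := by
      rw [gt, add_comm, List.getD_cons_succ, List.getD_eq_getElem _ _ hj]
    unfold GL.xy
    have e3 : (1 :: LB).length - 1 = LB.length := by simp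
    rw [e3, hx1, hx2, e1, e2, ← h1, ← h2, fv_lin, GL.sv_cdv l (hAS hu), GL.sv_cdv r (hBS hv)]
    funext w
    simp
  have hlen : ((1 :: LA).length - 1) * ((1 :: LB).length - 1) = LA.length * LB.length := by simp
  rw [hj, GL.ix, hlen]
  refine (T1_mem (f := fun i => (code n (GL.xy n l r (1 :: LA) (1 :: LB) i) : ℤ))).trans ?_
  constructor
  · rintro ⟨x, h1, h2, h3⟩
    have hB0 : 0 < LB.length := by
      rcases Nat.eq_zero_or_pos LB.length with h0 | h0
      · rw [h0, mul_zero] at h1; omega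
      · exact h0
    have hi : x / LB.length < LA.length := Nat.div_lt_of_lt_mul (by rw [mul_comm]; exact h1)
    have hj' : x % LB.length < LB.length := Nat.mod_lt _ hB0
    obtain ⟨u, hu, hu'⟩ := (hA.2 _).1 (List.getElem_mem hi)
    obtain ⟨v, hv, hv'⟩ := (hB.2 _).1 (List.getElem_mem hj')
    have hk := key _ _ hi hj' u hu v hv hu' hv' x rfl rfl
    refine ⟨u, hu, v, hv, ?_, ?_⟩
    · rw [← hk, ← GL.Phi_Ph]; exact h2
    · rw [← hk, ← GL.code_cdv]; exact h3
  · rintro ⟨u, hu, v, hv, h1, h2⟩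
    obtain ⟨i, hi, hi'⟩ := List.getElem_of_mem ((hA.2 _).2 ⟨u, hu, rfl⟩)
    obtain ⟨j, hj', hj''⟩ := List.getElem_of_mem ((hB.2 _).2 ⟨v, hv, rfl⟩)
    have hx1 : (i * LB.length + j) / LB.length = i := by
      rw [mul_comm, Nat.mul_add_div (by omega), Nat.div_eq_of_lt hj', add_zero]
    have hx2 : (i * LB.length + j) % LB.length = j := by
      rw [mul_comm, Nat.mul_add_mod, Nat.mod_eq_of_lt hj']
    have hk := key i j hi hj' u hu v hv hi'.symm hj''.symm _ hx1 hx2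
    refine ⟨i * LB.length + j, ?_, ?_, ?_⟩
    · calc i * LB.length + j < i * LB.length + LB.length := by omega
        _ = (i + 1) * LB.length := by ring
        _ ≤ LA.length * LB.length := Nat.mul_le_mul_right _ hi
    · rw [GL.Phi_Ph, hk]; exact h1
    · rw [GL.code_cdv, hk]; exact h2

/-- PROOF. A list with `Cpl` is empty iff the set is empty. -/
theorem Cpl_nil {L : List ℤ} {A : Finset (Vc n)} (h : Cpl L A) : L = [] ↔ A = ∅ := by
  constructor
  · intro hL
    rw [Finset.eq_empty_iff_forall_notMem]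
    intro x hx
    have := (h.2 (cdv x)).2 ⟨x, hx, rfl⟩
    rw [hL] at this
    simp at this
  · intro hA
    rw [List.eq_nil_iff_forall_not_mem]
    intro c hc
    obtain ⟨x, hx, _⟩ := (h.2 c).1 hc
    rw [hA] at hx
    simp at hx

/-- The test of a pair. PROOF. Unfold; `Ra`, `Cpl_length`, `Cpl_nil`. -/
theorem pok_iff {Q X Y : Finset (Fin n)} {E : Pc} {F : Rf n} (hE : Rp n Q E F) (hX : X ⊆ Q)
    (hY : Y ⊆ Q) {l r : List ℤ} (hl : fv n l = SB.bl X) (hr : fv n r = SB.bl Y) {a b : ℤ}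
    (ha : a ∈ lvl n) (hb : b ∈ lvl n) (g : ℕ) :
    pok (E l a g) (E r b g) g ↔ SB.POk F X Y a b g := by
  have h1 := hE X hX l hl a ha g
  have h2 := hE Y hY r hr b hb g
  unfold pok SB.POk
  have aux : ∀ {Z : Finset (Fin n)} {L : List ℤ} {o : Option (Finset (Vc n))}, Ra Z L o →
      (L.length = 1 ↔ o = some ∅) := by
    intro Z L o h
    rcases h with ⟨h1, h2⟩ | ⟨A, L', h1, h2, h3, h4⟩
    · simp [h1, h2]
    · rw [h1, h2, List.length_cons]
      constructor
      · intro h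
        have h5 : L' = [] := List.length_eq_zero_iff.1 (by omega)
        rw [(Cpl_nil h3).1 h5]
      · intro h
        have h5 : A = ∅ := Option.some.inj h
        rw [(Cpl_nil h3).2 h5]
        rfl
  rw [aux h1, aux h2]
  refine or_congr Iff.rfl (or_congr Iff.rfl ?_)
  constructor
  · rintro ⟨h3, h4, h5⟩
    rcases h1 with ⟨h6, h7⟩ | ⟨A, LA, h6, h7, h8, h9⟩
    · exact absurd (by rw [h7]; rfl) h3
    rcases h2 with ⟨h6', h7'⟩ | ⟨B, LB, h6', h7', h8', h9'⟩
    · exact absurd (by rw [h7']; rfl) h4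
    refine ⟨A, B, h6, h6', ?_⟩
    rw [h7, h7', List.length_cons, List.length_cons, Nat.add_sub_cancel, Nat.add_sub_cancel,
      Cpl_length h8 h9, Cpl_length h8' h9'] at h5
    exact h5
  · rintro ⟨A, B, h3, h4, h5⟩
    rcases h1 with ⟨h6, h7⟩ | ⟨A', LA, h6, h7, h8, h9⟩
    · rw [h6] at h3; exact absurd h3 (by simp)
    rcases h2 with ⟨h6', h7'⟩ | ⟨B', LB, h6', h7', h8', h9'⟩
    · rw [h6'] at h4; exact absurd h4 (by simp)
    have e1 : A = A' := Option.some.inj (h3.symm.trans h6)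
    have e2 : B = B' := Option.some.inj (h4.symm.trans h6')
    subst e1 e2
    rw [h7, h7', List.length_cons, List.length_cons, Nat.add_sub_cancel, Nat.add_sub_cancel,
      Cpl_length h8 h9, Cpl_length h8' h9']
    exact ⟨by omega, by omega, h5⟩

end Pool.Agent.MPa9445a.SX
end

section

/-! The search for the budget of a pair. -/

set_option autoImplicit false

open Finset
open scoped symmDiff

namespace Pool.Agent.MPa9445a.SX

open Pool.Agent.MPa9445a.BE
open Pool.Agent.MPa9445a.SN (ST Fm rs kb)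
open Pool.Agent.MPa9445a.GL (Vc S Ph Lv Fr lvl LL lvv la rh Pc Cpl cdv jn pok sj)
open Pool.Agent.MPa9445a.SB (Rf)

variable {n : ℕ}

/-- All pairs of disjoint blocks of `Q` are finished with some exponent `≤ 2 n`. -/
def Fin2 (Q : Finset (Fin n)) (F : Rf n) : Prop :=
  ∀ X ⊆ Q, ∀ Y ⊆ Q, ∀ a ∈ lvl n, ∀ b ∈ lvl n, ∃ g ≤ 2 * n, SB.POk F X Y a b g

private theorem T2_pj {X Y : Finset (Fin n)} {F : Rf n} {a b : ℤ} {g : ℕ}
    (hg : SB.POk F X Y a b g) :
    SB.pj F X Y a b ≤ g ∧ SB.POk F X Y a b (SB.pj F X Y a b) ∧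
      ∀ g' < SB.pj F X Y a b, ¬ SB.POk F X Y a b g' := by
  classical
  have hex : ∃ j, SB.POk F X Y a b j := ⟨g, hg⟩
  have h1 : SB.pj F X Y a b = Nat.find hex := by
    unfold SB.pj
    rw [dif_pos hex]
  rw [h1]
  exact ⟨Nat.find_min' hex hg, Nat.find_spec hex, fun g' hg' => Nat.find_min hex hg'⟩

/-- PROOF. `GL.sj_spec` (file `GL/T`), `pok_iff`; `SB.pj` is `Nat.find` (least `j` with `POk`), it exists by `hF`. -/
theorem sj_eq {Q X Y : Finset (Fin n)} {E : Pc} {F : Rf n} (hE : Rp n Q E F) (hF : Fin2 Q F)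
    (hX : X ⊆ Q) (hY : Y ⊆ Q) {l r : List ℤ} (hl : fv n l = SB.bl X) (hr : fv n r = SB.bl Y)
    {a b : ℤ} (ha : a ∈ lvl n) (hb : b ∈ lvl n) (c : ℕ) :
    sj E n l a r b c = if SB.pc F X Y a b ≤ c then [((SB.pj F X Y a b : ℕ) : ℤ)] else [] := by
  obtain ⟨g₀, hg₀, hp₀⟩ := hF X hX Y hY a ha b hb
  obtain ⟨h1, h2, h3⟩ := T2_pj hp₀
  have hpok : ∀ g, pok (E l a g) (E r b g) g ↔ SB.POk F X Y a b g :=
    fun g => pok_iff hE hX hY hl hr ha hb g
  rcases GL.sj_spec E n l a r b c with ⟨h4, h5⟩ | ⟨g, hg, h4, h5, h6, h7⟩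
  · rw [h4, if_neg]
    intro h8
    exact h5 _ (h1.trans hg₀) h8 ((hpok _).2 h2)
  · have h8 : SB.POk F X Y a b g := (hpok g).1 h6
    have h9 : SB.pj F X Y a b = g := by
      rcases Nat.lt_trichotomy (SB.pj F X Y a b) g with h | h | h
      · exact absurd ((hpok _).2 h2) (h7 _ h)
      · exact h
      · exact absurd h8 (h3 _ h)
    have h10 : SB.pc F X Y a b = 2 ^ g := by
      unfold SB.pc
      rw [h9]
    rw [h4, h10, if_pos h5, h9]

/-- The pair is finished with the exponent `pj`. PROOF. `Nat.find_spec`. -/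
theorem POk_pj {Q X Y : Finset (Fin n)} {F : Rf n} (hF : Fin2 Q F) (hX : X ⊆ Q) (hY : Y ⊆ Q)
    {a b : ℤ} (ha : a ∈ lvl n) (hb : b ∈ lvl n) : SB.POk F X Y a b (SB.pj F X Y a b) := by
  obtain ⟨g₀, _, hp₀⟩ := hF X hX Y hY a ha b hb
  exact (T2_pj hp₀).2.1

end Pool.Agent.MPa9445a.SX
end
end

section
/-! The average costs of the levels 2 and 1, and of the root. -/

set_option autoImplicit false
set_option synthInstance.maxSize 1000

open Finset

namespace Pool.Agent.MPa9445a.SB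

open Pool.Agent.MPa9445a.SN (Fm rs kb)
open Pool.Agent.MPa9445a.GL (Vc S Ph Lv T Par lvl LL la2 fl Wb on off pl xk)

/-- The tables of a level satisfy Kraft's inequality; `d` the window, `th` the threshold. -/
structure PK (P : Lev) (d th : ℕ) : Prop where
  d : P.d = d
  th : P.th = th
  K : 0 < P.K
  M : 0 < P.M
  kr : ∀ j ≤ P.M, Kr P.K (P.tw j) (P.ta j) (P.tb j)

/-- The factor of the level 2. -/
noncomputable def C2 (n l : ℕ) : ℝ := Fc n l * 1000 * (2 * pl n 8)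

/-- The factor of the level 1. -/
noncomputable def C1 (n l l' : ℕ) : ℝ := Fc n l' * (1000 * (n + 1)) * C2 n l

variable {n : ℕ} {W : Matrix (Fin n) (Fin n) ℤ} {Go : Rf n} {R : ℕ}
  {φ : Hm n R → Finset (Fin n) → Finset (Fin n) → Finset (Fin n)}

/-- The maps `φ h Q` have values in the subsets of `Q`. -/
theorem φ_sub (hφ : ∀ h Q, Fib (φ h Q) (Cc h Q)) (h : Hm n R) (Q X : Finset (Fin n)) :
    φ h Q X ⊆ Q := by
  have h1 := (hφ h Q).1 X
  unfold Cc at h1
  exact mem_powerset.1 (mem_filter.1 h1).1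

/-- PROOF. `Gd_nd`, `Gd_Lf`. -/
theorem Gd_E2 (hG : GO W Go) (hφ : ∀ h Q, Fib (φ h Q) (Cc h Q)) (PB : Lev) (h : Hm n R)
    (ω₂ : Sr n) (m : ℕ) : Gd W (E2 W Go h (φ h) PB ω₂ m) := by
  unfold E2
  exact Gd_nd hG (fun _ => Gd_Lf hG h) (fun Q X => φ_sub hφ h Q X) ω₂

/-- PROOF. `Gd_nd`, `Gd_E2`. -/
theorem Gd_E1 (hG : GO W Go) (hφ : ∀ h Q, Fib (φ h Q) (Cc h Q)) (PA PB : Lev) (h : Hm n R)
    (ω₂ ω₁ : Sr n) : Gd W (E1 W Go h (φ h) PA PB ω₂ ω₁) := by
  unfold E1
  exact Gd_nd hG (fun m => Gd_E2 hG hφ PB h ω₂ m) (fun Q X => φ_sub hφ h Q X) ω₁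

end Pool.Agent.MPa9445a.SB
end
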