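import Pool.Agent.Lib.MP_a9445a_lc.Mg.G098
import Pool.Agent.Lib.MP_a9445a_lc.Mg.G120
import Pool.Agent.Lib.MP_a9445a_lc.Mg.G122
import Pool.Agent.Lib.MP_a9445a_lc.Mg.G132
import Pool.Agent.Lib.MP_a9445a_lc.Mg.G130
import Pool.Agent.Lib.MP_a9445a_lc.Mg.G099
import Pool.Agent.Lib.MP_a9445a_lc.Mg.G131

section

section

/-! Blocks: the lemmas of `GL` for the states `bl Q`. -/

set_option autoImplicit false

open Finset

namespace Pool.Agent.MPa9445a.SB

open Pool.Agent.MPa9445a.GL (Vc S Ph Lv T Par lvl LL la2 fl Wb on off la rh Fr St)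

variable {n : ℕ}

theorem Fr_bl (Q : Finset (Fin n)) : Fr (bl Q) = Q := by
  ext v
  rw [GL.mem_Fr]
  unfold bl
  by_cases h : v ∈ Q <;> simp [h]

theorem St_bl (Q : Finset (Fin n)) : St (bl Q) := by
  intro v
  unfold bl
  by_cases h : v ∈ Q <;> simp [h]

/-- PROOF. `GL.card_S`, `Fr_bl`. -/
theorem card_S_bl (Q : Finset (Fin n)) : (S (bl Q)).card = 2 ^ Q.card := by
  rw [GL.card_S, Fr_bl]

theorem la_bl {Q D : Finset (Fin n)} (hD : D ⊆ Q) : la (bl Q) D = bl D := by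
  funext v
  unfold la bl
  by_cases h : v ∈ D
  · simp [h, hD h]
  · simp [h]

theorem rh_bl (Q D : Finset (Fin n)) : rh (bl Q) D = bl (Q \ D) := by
  funext v
  unfold rh bl
  by_cases h : v ∈ D
  · simp [h]
  · simp [h]

/-- PROOF. `Ph W (-x) = Ph W x`, `neg_mem_S`. -/
theorem Lv_neg {W : Matrix (Fin n) (Fin n) ℤ} {Q : Finset (Fin n)} {t : ℤ} {x : Vc n}
    (hx : x ∈ Lv W (bl Q) t) : -x ∈ Lv W (bl Q) t := by
  unfold Lv at hx ⊢
  rw [Finset.mem_filter] at hx ⊢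
  refine ⟨neg_mem_S hx.1, ?_⟩
  rw [← hx.2]
  unfold Ph
  refine Finset.sum_congr rfl fun u _ => Finset.sum_congr rfl fun v _ => ?_
  rw [Pi.neg_apply, Pi.neg_apply]
  ring

/-- `df u (fl D u) = D` for `u ∈ S (bl Q)`, `D ⊆ Q` (entries of `u` on `Q` are not `0`). -/
theorem df_fl {Q D : Finset (Fin n)} {u : Vc n} (hu : u ∈ S (bl Q)) (hD : D ⊆ Q) :
    df u (fl D u) = D := by
  ext v
  unfold df fl
  rw [Finset.mem_filter]
  by_cases h : v ∈ D
  · have h1 := mem_S_bl.1 hu v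
    rw [if_pos (hD h)] at h1
    simp only [Finset.mem_univ, true_and, h, if_true, iff_true]
    rcases h1 with h1 | h1 <;> rw [h1] <;> norm_num
  · simp [h]

/-- PROOF. `GL.fl_diff`. -/
theorem fl_df {Q : Finset (Fin n)} {u z : Vc n} (hu : u ∈ S (bl Q)) (hz : z ∈ S (bl Q)) :
    fl (df u z) u = z := by
  exact (GL.fl_diff hu hz).2

/-- The number of the sets `D` such that `fl D u` is in `𝒮` and `D` has the property `P`. PROOF. The bijection `D ↦ fl D u` (`df_fl`, `fl_df`, `GL.fl_mem`, `df_sub`). -/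
theorem card_fl_filter {Q : Finset (Fin n)} {u : Vc n} (hu : u ∈ S (bl Q)) {𝒮 : Finset (Vc n)}
    (h𝒮 : 𝒮 ⊆ S (bl Q)) (P : Finset (Fin n) → Prop) [DecidablePred P] :
    (Q.powerset.filter fun D => fl D u ∈ 𝒮 ∧ P D).card = (𝒮.filter fun z => P (df u z)).card := by
  refine Finset.card_nbij' (fun D => fl D u) (fun z => df u z) ?_ ?_ ?_ ?_
  · intro D hD
    simp only [Finset.coe_filter, Set.mem_ofPred_eq, Finset.mem_powerset] at hD ⊢
    refine ⟨hD.2.1, ?_⟩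
    rw [df_fl hu hD.1]
    exact hD.2.2
  · intro z hz
    simp only [Finset.coe_filter, Set.mem_ofPred_eq, Finset.mem_powerset] at hz ⊢
    refine ⟨df_sub hu (h𝒮 hz.1), ?_, hz.2⟩
    rw [fl_df hu (h𝒮 hz.1)]
    exact hz.1
  · intro D hD
    simp only [Finset.coe_filter, Set.mem_ofPred_eq, Finset.mem_powerset] at hD
    exact df_fl hu hD.1
  · intro z hz
    simp only [Finset.coe_filter, Set.mem_ofPred_eq] at hz
    exact fl_df hu (h𝒮 hz.1)

/-- The golden identity. PROOF. `GL.T_mul` with `s = r = bl Q`, `la_bl`, `rh_bl`, `Fr_bl`. -/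
theorem T_split {W : Matrix (Fin n) (Fin n) ℤ} {Q : Finset (Fin n)} {p t c : ℤ}
    (hc : 2 * c = p + t) (a : Finset (Fin n) → ℤ) {q : ℝ} (hq : 1 ≤ q) :
    ∑ D ∈ Q.powerset, T W (bl D) (a D) (q ^ 2) * T W (bl (Q \ D)) (c - a D) (q ^ 2) =
      T W (bl Q) p q * T W (bl Q) t q := by
  have h := GL.T_mul (W := W) (St_bl Q) (GL.Res_refl (bl Q)) hc a hq
  rw [Fr_bl] at h
  rw [← h]
  refine Finset.sum_congr rfl fun D hD => ?_
  rw [la_bl (Finset.mem_powerset.1 hD), rh_bl]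

/-- Level and tilt. PROOF. `GL.choice`. -/
theorem choice_bl {W : Matrix (Fin n) (Fin n) ℤ} (hW : Wb W) {Q : Finset (Fin n)} {G : ℝ}
    (hG : 1 ≤ G) (hL : LL n * G ≤ 2 ^ Q.card) (p : ℤ) {q₀ : ℝ} (hq₀ : 1 ≤ q₀) :
    ∃ q t, 1 ≤ q ∧ t ∈ lvl n ∧ G ≤ (Lv W (bl Q) t).card ∧
      T W (bl Q) t q ≤ LL n * (Lv W (bl Q) t).card ∧
      T W (bl Q) p q ≤ LL n * max G (T W (bl Q) p q₀) := by
  exact GL.choice hW (St_bl Q) hG (by rw [Fr_bl]; exact hL) p hq₀

private theorem C1_Ph_abs {W : Matrix (Fin n) (Fin n) ℤ} (hW : Wb W) {x : Vc n}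
    (hx : ∀ v, |x v| ≤ 1) : |Ph W x| ≤ (n : ℤ) ^ 4 := by
  unfold Ph
  have h1 : ∀ u v, |W u v * x u * x v| ≤ (n : ℤ) ^ 2 := by
    intro u v
    rw [abs_mul, abs_mul]
    have h2 := hW u v
    have h3 := hx u
    have h4 := hx v
    have h5 : |W u v| * |x u| ≤ (n : ℤ) ^ 2 * 1 :=
      mul_le_mul h2 h3 (abs_nonneg _) (by positivity)
    have h6 : |W u v| * |x u| * |x v| ≤ (n : ℤ) ^ 2 * 1 * 1 :=
      mul_le_mul h5 h4 (abs_nonneg _) (by positivity)
    linarith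
  calc |∑ u, ∑ v, W u v * x u * x v| ≤ ∑ u, |∑ v, W u v * x u * x v| :=
        Finset.abs_sum_le_sum_abs _ _
    _ ≤ ∑ _u : Fin n, ∑ _v : Fin n, (n : ℤ) ^ 2 :=
        Finset.sum_le_sum fun u _ => (Finset.abs_sum_le_sum_abs _ _).trans
          (Finset.sum_le_sum fun v _ => h1 u v)
    _ = (n : ℤ) ^ 4 := by
        simp only [Finset.sum_const, Finset.card_univ, Fintype.card_fin, nsmul_eq_mul]
        ring

private theorem C1_abs {Q : Finset (Fin n)} {x : Vc n} (hx : x ∈ S (bl Q)) (v : Fin n) :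
    |x v| ≤ 1 := by
  have h := mem_S_bl.1 hx v
  by_cases hv : v ∈ Q
  · rw [if_pos hv] at h
    rcases h with h | h <;> rw [h] <;> norm_num
  · rw [if_neg hv] at h
    rw [h]
    norm_num

private theorem C1_lvl {W : Matrix (Fin n) (Fin n) ℤ} (hW : Wb W) {Q : Finset (Fin n)} {x : Vc n}
    (hx : x ∈ S (bl Q)) : Ph W x ∈ lvl n := by
  have h := abs_le.1 (C1_Ph_abs hW (C1_abs hx))
  unfold lvl GL.Rb
  rw [Finset.mem_Icc]
  push_cast
  exact h

/-- The decomposition of a target. PROOF. `a = Ph W (on D u)`; `GL.par`, `GL.on_add_off`, `GL.dec` (with `s = r = bl Q`), `GL.on_off_add`; `on D u ∈ S (bl D)` and `off D u ∈ S (bl (Q \ D))` by `mem_S_bl`. -/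
theorem dec_bl {W : Matrix (Fin n) (Fin n) ℤ} (hW : Wb W) {Q D : Finset (Fin n)} (hD : D ⊆ Q)
    {u : Vc n} (hu : u ∈ S (bl Q)) :
    (Ph W u + Ph W (fl D u)) % 2 = 0 ∧
      Ph W (on D u) ∈ la2 n ((Ph W u + Ph W (fl D u)) / 2) ∧
      Ph W (off D u) = (Ph W u + Ph W (fl D u)) / 2 - Ph W (on D u) ∧
      on D u ∈ S (bl D) ∧ off D u ∈ S (bl (Q \ D)) := by
  have hp := GL.par W D u
  have h1 : on D u ∈ S (bl D) := by
    rw [mem_S_bl]
    intro v
    have h := mem_S_bl.1 hu v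
    unfold on
    by_cases hv : v ∈ D
    · rw [if_pos (hD hv)] at h
      simpa [hv] using h
    · simp [hv]
  have h2 : off D u ∈ S (bl (Q \ D)) := by
    rw [mem_S_bl]
    intro v
    have h := mem_S_bl.1 hu v
    unfold off
    by_cases hv : v ∈ D
    · simp [hv]
    · by_cases hq : v ∈ Q
      · rw [if_pos hq] at h
        simpa [hv, hq] using h
      · rw [if_neg hq] at h
        simpa [hv, hq] using h
  have h3 : (Ph W u + Ph W (fl D u)) / 2 = Ph W (on D u) + Ph W (off D u) := by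
    rw [hp]
    exact Int.mul_ediv_cancel_left _ (by norm_num)
  refine ⟨?_, ?_, ?_, h1, h2⟩
  · rw [hp]
    exact Int.mul_emod_right _ _
  · rw [h3]
    unfold la2
    rw [Finset.mem_filter]
    refine ⟨C1_lvl hW h1, ?_⟩
    rw [add_sub_cancel_left]
    exact C1_lvl hW h2
  · rw [h3, add_sub_cancel_left]

/-- The values are levels. PROOF. `|Ph W x| ≤ n ^ 2 * n ^ 2`. -/
theorem Ph_mem {W : Matrix (Fin n) (Fin n) ℤ} (hW : Wb W) {Q : Finset (Fin n)} {x : Vc n}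
    (hx : x ∈ S (bl Q)) : Ph W x ∈ lvl n := by
  exact C1_lvl hW hx

theorem mem_la2 {q a : ℤ} (h : a ∈ la2 n q) : a ∈ lvl n ∧ q - a ∈ lvl n := by
  unfold la2 at h
  exact Finset.mem_filter.1 h

/-- PROOF. `la2 n q ⊆ lvl n`, which has `2 * n ^ 4 + 1` elements. -/
theorem card_la2 (q : ℤ) : (la2 n q).card ≤ LL n := by
  unfold la2 LL
  refine (Finset.card_filter_le _ _).trans ?_
  unfold lvl GL.Rb
  rw [Int.card_Icc]
  omega

/-- The sum of two vectors of disjoint blocks. -/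
theorem add_mem_S {Q D : Finset (Fin n)} (hD : D ⊆ Q) {u v : Vc n} (hu : u ∈ S (bl D))
    (hv : v ∈ S (bl (Q \ D))) : u + v ∈ S (bl Q) := by
  rw [mem_S_bl]
  intro w
  have h1 := mem_S_bl.1 hu w
  have h2 := mem_S_bl.1 hv w
  rw [Pi.add_apply]
  by_cases hw : w ∈ D
  · have hq : w ∈ Q := hD hw
    rw [if_pos hw] at h1
    rw [if_neg (by simp [hw])] at h2
    rw [if_pos hq, h2, add_zero]
    exact h1
  · rw [if_neg hw] at h1
    by_cases hq : w ∈ Q
    · rw [if_pos (by simp [hw, hq])] at h2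
      rw [if_pos hq, h1, zero_add]
      exact h2
    · rw [if_neg (by simp [hq])] at h2
      rw [if_neg hq, h1, h2, add_zero]

end Pool.Agent.MPa9445a.SB
end

section
/-! Least budgets and pairs of blocks. -/

set_option autoImplicit false

open Finset

namespace Pool.Agent.MPa9445a.SB

open Pool.Agent.MPa9445a.GL (Vc S Ph Lv T Par lvl LL la2 fl Wb on off)

variable {n : ℕ} {W : Matrix (Fin n) (Fin n) ℤ} {E : Rf n}

private theorem C2a_card_le (X : Finset (Fin n)) : X.card ≤ n := by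
  have h := Finset.card_le_univ X
  rwa [Fintype.card_fin] at h

private theorem C2a_Lv_card (X : Finset (Fin n)) (a : ℤ) : (Lv W (bl X) a).card ≤ 2 ^ n := by
  calc (Lv W (bl X) a).card ≤ (S (bl X)).card := Finset.card_le_card (Finset.filter_subset _ _)
    _ = 2 ^ X.card := card_S_bl X
    _ ≤ 2 ^ n := Nat.pow_le_pow_right (by norm_num) (C2a_card_le X)

theorem cr_le {X : Finset (Fin n)} {a : ℤ} {j : ℕ} (h : ∀ j' ≥ j, E X a j' ≠ none) :
    cr E X a ≤ 2 ^ j := by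
  classical
  unfold cr
  rw [dif_pos ⟨j, h⟩]
  exact Nat.pow_le_pow_right (by norm_num) (Nat.find_min' _ h)

theorem cr_spec (hE : Gd W E) (X : Finset (Fin n)) (a : ℤ) :
    ∃ j ≤ X.card, cr E X a = 2 ^ j ∧ ∀ j' ≥ j, E X a j' ≠ none := by
  classical
  have h : ∃ j, ∀ j' ≥ j, E X a j' ≠ none := ⟨X.card, fun j' hj' => hE.ff X a j' hj'⟩
  unfold cr
  rw [dif_pos h]
  exact ⟨_, Nat.find_min' _ (fun j' hj' => hE.ff X a j' hj'), rfl, Nat.find_spec h⟩

theorem one_le_cr (E : Rf n) (X : Finset (Fin n)) (a : ℤ) : 1 ≤ cr E X a := by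
  unfold cr
  split_ifs
  · exact Nat.one_le_two_pow
  · exact Nat.one_le_two_pow

theorem cr_le_card (hE : Gd W E) (X : Finset (Fin n)) (a : ℤ) : cr E X a ≤ 2 ^ X.card :=
  cr_le fun j' hj' => hE.ff X a j' hj'

theorem cr_le_n (hE : Gd W E) (X : Finset (Fin n)) (a : ℤ) : cr E X a ≤ 2 ^ n :=
  (cr_le_card hE X a).trans (Nat.pow_le_pow_right (by norm_num) (C2a_card_le X))

/-- PROOF. Both lists exist and are subsets of the level sets. -/
theorem POk_of (hE : Gd W E) {X Y : Finset (Fin n)} {a b : ℤ} (ha : a ∈ lvl n) (hb : b ∈ lvl n)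
    {j : ℕ} (h1 : E X a j ≠ none)
    (h2 : E Y b j ≠ none) (h3 : (Lv W (bl X) a).card * (Lv W (bl Y) b).card ≤ 2 ^ j) :
    POk E X Y a b j := by
  obtain ⟨A, hA⟩ := Option.ne_none_iff_exists'.1 h1
  obtain ⟨B, hB⟩ := Option.ne_none_iff_exists'.1 h2
  refine Or.inr (Or.inr ⟨A, B, hA, hB, ?_⟩)
  exact (Nat.mul_le_mul (Finset.card_le_card (hE.sn X a ha j A hA))
    (Finset.card_le_card (hE.sn Y b hb j B hB))).trans h3

/-- PROOF. `POk_of` with `j = 2 * n`: the level sets have at most `2 ^ n` elements. -/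
theorem pj_spec (hE : Gd W E) (X Y : Finset (Fin n)) {a b : ℤ} (ha : a ∈ lvl n) (hb : b ∈ lvl n) :
    POk E X Y a b (pj E X Y a b) ∧ pj E X Y a b ≤ 2 * n ∧ ∀ i < pj E X Y a b, ¬ POk E X Y a b i := by
  classical
  have h0 : POk E X Y a b (2 * n) := by
    refine POk_of hE ha hb (hE.ff X a _ ?_) (hE.ff Y b _ ?_) ?_
    · have := C2a_card_le X
      omega
    · have := C2a_card_le Y
      omega
    · calc (Lv W (bl X) a).card * (Lv W (bl Y) b).card ≤ 2 ^ n * 2 ^ n :=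
          Nat.mul_le_mul (C2a_Lv_card X a) (C2a_Lv_card Y b)
        _ = 2 ^ (2 * n) := by rw [← pow_add]; congr 1; ring
  have h : ∃ j, POk E X Y a b j := ⟨_, h0⟩
  unfold pj
  rw [dif_pos h]
  exact ⟨Nat.find_spec h, Nat.find_min' h h0, fun i hi => Nat.find_min h hi⟩

theorem pj_le {X Y : Finset (Fin n)} {a b : ℤ} {j : ℕ} (h : POk E X Y a b j) :
    pj E X Y a b ≤ j := by
  classical
  unfold pj
  rw [dif_pos ⟨j, h⟩]
  exact Nat.find_min' _ h

/-- PROOF. Let `j` be the least exponent with `2 ^ j ≥ max (cr E X a) (cr E Y b) (#Lv * #Lv)`; `POk_of` (`cr_spec`), `pj_le`, and `2 ^ j ≤ 2 * max` or `j = 0`. -/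
theorem pc_le (hE : Gd W E) (X Y : Finset (Fin n)) {a b : ℤ} (ha : a ∈ lvl n) (hb : b ∈ lvl n) :
    pc E X Y a b ≤ 2 * (cr E X a + cr E Y b + (Lv W (bl X) a).card * (Lv W (bl Y) b).card) := by
  set m : ℕ := cr E X a + cr E Y b + (Lv W (bl X) a).card * (Lv W (bl Y) b).card with hm
  have hm1 : 1 ≤ cr E X a := one_le_cr E X a
  have hm0 : m ≠ 0 := by omega
  have hlt : m < 2 ^ (Nat.log 2 m + 1) := Nat.lt_pow_succ_log_self (by norm_num) m
  obtain ⟨j1, _, hj1, hj1'⟩ := cr_spec hE X a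
  obtain ⟨j2, _, hj2, hj2'⟩ := cr_spec hE Y b
  have hle1 : j1 ≤ Nat.log 2 m + 1 := by
    have h : 2 ^ j1 < 2 ^ (Nat.log 2 m + 1) := by
      rw [← hj1]
      omega
    exact ((Nat.pow_lt_pow_iff_right (by norm_num)).1 h).le
  have hle2 : j2 ≤ Nat.log 2 m + 1 := by
    have h : 2 ^ j2 < 2 ^ (Nat.log 2 m + 1) := by
      rw [← hj2]
      omega
    exact ((Nat.pow_lt_pow_iff_right (by norm_num)).1 h).le
  have hP : POk E X Y a b (Nat.log 2 m + 1) :=
    POk_of hE ha hb (hj1' _ hle1) (hj2' _ hle2) (by omega)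
  unfold pc
  calc 2 ^ pj E X Y a b ≤ 2 ^ (Nat.log 2 m + 1) := Nat.pow_le_pow_right (by norm_num) (pj_le hP)
    _ = 2 * 2 ^ Nat.log 2 m := by rw [pow_succ]; ring
    _ ≤ 2 * m := Nat.mul_le_mul_left 2 (Nat.pow_log_le_self 2 hm0)

/-- PROOF. With the budget `cr E X a` the answer is a subset of `∅`. -/
theorem pc_le_left (hE : Gd W E) {X : Finset (Fin n)} (Y : Finset (Fin n)) {a : ℤ} (b : ℤ)
    (ha : a ∈ lvl n) (h : Lv W (bl X) a = ∅) : pc E X Y a b ≤ cr E X a := by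
  obtain ⟨j, _, hj, hj'⟩ := cr_spec hE X a
  obtain ⟨A, hA⟩ := Option.ne_none_iff_exists'.1 (hj' j le_rfl)
  have hA0 : A = ∅ := by
    have h1 := hE.sn X a ha j A hA
    rw [h] at h1
    exact Finset.subset_empty.1 h1
  rw [hA0] at hA
  rw [hj]
  unfold pc
  exact Nat.pow_le_pow_right (by norm_num) (pj_le (Or.inl hA))

theorem pc_le_right (hE : Gd W E) (X : Finset (Fin n)) {Y : Finset (Fin n)} (a : ℤ) {b : ℤ}
    (hb : b ∈ lvl n) (h : Lv W (bl Y) b = ∅) : pc E X Y a b ≤ cr E Y b := by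
  obtain ⟨j, _, hj, hj'⟩ := cr_spec hE Y b
  obtain ⟨A, hA⟩ := Option.ne_none_iff_exists'.1 (hj' j le_rfl)
  have hA0 : A = ∅ := by
    have h1 := hE.sn Y b hb j A hA
    rw [h] at h1
    exact Finset.subset_empty.1 h1
  rw [hA0] at hA
  rw [hj]
  unfold pc
  exact Nat.pow_le_pow_right (by norm_num) (pj_le (Or.inr (Or.inl hA)))

/-- PROOF. `pc = 2 ^ pj`, `pj ≤ 0`. -/
theorem pc_eq_one {X Y : Finset (Fin n)} {a b : ℤ} (h : E X a 0 = some ∅) : pc E X Y a b = 1 := by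
  have h0 : pj E X Y a b = 0 := Nat.le_zero.1 (pj_le (Or.inl h))
  unfold pc
  rw [h0, pow_zero]

end Pool.Agent.MPa9445a.SB
end

section

/-! Random sets with values in a set `𝒞`. -/

set_option autoImplicit false

open Finset
open scoped symmDiff

namespace Pool.Agent.MPa9445a.SB

open Pool.Agent.MPa9445a.SN (Fm rs kb)

variable {n : ℕ}

/-- PROOF. `rs ω κ` is uniform (`SN.rs_one`): `∑ ω, F (φ (rs ω κ)) = ∑ X, #{ω | rs ω κ = X} * F (φ X)`; sort the `X` by `φ X`, `Fib`. -/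
theorem avg {φ : Finset (Fin n) → Finset (Fin n)} {𝒞 : Finset (Finset (Fin n))} (h : Fib φ 𝒞)
    (F : Finset (Fin n) → ℝ) (κ : ℕ) :
    (∑ ω : Fm n, F (φ (rs ω κ))) * 𝒞.card = Fintype.card (Fm n) * ∑ D ∈ 𝒞, F D := by
  have h2n : (2 : ℝ) ^ n ≠ 0 := by positivity
  have e1 : (∑ ω : Fm n, F (φ (rs ω κ))) * 2 ^ n = Fintype.card (Fm n) * ∑ X, F (φ X) := by
    have e2 : ∑ ω : Fm n, F (φ (rs ω κ)) =
        ∑ X : Finset (Fin n), ∑ ω ∈ univ.filter (fun ω : Fm n => rs ω κ = X), F (φ (rs ω κ)) :=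
      (Finset.sum_fiberwise univ (fun ω : Fm n => rs ω κ) fun ω => F (φ (rs ω κ))).symm
    have e3 : ∀ X : Finset (Fin n),
        (∑ ω ∈ univ.filter (fun ω : Fm n => rs ω κ = X), F (φ (rs ω κ))) * 2 ^ n =
          Fintype.card (Fm n) * F (φ X) := by
      intro X
      have e4 : ∑ ω ∈ univ.filter (fun ω : Fm n => rs ω κ = X), F (φ (rs ω κ)) =
          (univ.filter fun ω : Fm n => rs ω κ = X).card * F (φ X) := by
        rw [← nsmul_eq_mul]
        refine Finset.sum_eq_card_nsmul ?_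
        intro ω hω
        rw [(mem_filter.1 hω).2]
      have e5 : ((univ.filter fun ω : Fm n => rs ω κ = X).card : ℝ) * 2 ^ n =
          Fintype.card (Fm n) := by
        exact_mod_cast Pool.Agent.MPa9445a.SN.rs_one κ X
      rw [e4, ← e5]
      ring
    rw [e2, Finset.sum_mul, Finset.mul_sum]
    exact Finset.sum_congr rfl fun X _ => e3 X
  have e6 : (∑ X, F (φ X)) * 𝒞.card = 2 ^ n * ∑ D ∈ 𝒞, F D := by
    have e7 : ∑ X, F (φ X) = ∑ D ∈ 𝒞, ∑ X ∈ univ.filter (fun X => φ X = D), F (φ X) :=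
      (Finset.sum_fiberwise_of_maps_to (fun X _ => h.1 X) fun X => F (φ X)).symm
    rw [e7, Finset.sum_mul, Finset.mul_sum]
    refine Finset.sum_congr rfl fun D hD => ?_
    have e8 : ∑ X ∈ univ.filter (fun X => φ X = D), F (φ X) =
        (univ.filter fun X => φ X = D).card * F D := by
      rw [← nsmul_eq_mul]
      refine Finset.sum_eq_card_nsmul ?_
      intro X hX
      rw [(mem_filter.1 hX).2]
    have e9 : ((univ.filter fun X => φ X = D).card : ℝ) * 𝒞.card = 2 ^ n := by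
      exact_mod_cast h.2 D hD
    rw [e8, ← e9]
    ring
  have e10 : (∑ ω : Fm n, F (φ (rs ω κ))) * 𝒞.card * 2 ^ n =
      (Fintype.card (Fm n) * ∑ D ∈ 𝒞, F D) * 2 ^ n := by
    calc (∑ ω : Fm n, F (φ (rs ω κ))) * 𝒞.card * 2 ^ n
        = ((∑ ω : Fm n, F (φ (rs ω κ))) * 2 ^ n) * 𝒞.card := by ring
      _ = Fintype.card (Fm n) * ((∑ X, F (φ X)) * 𝒞.card) := by rw [e1]; ring
      _ = (Fintype.card (Fm n) * ∑ D ∈ 𝒞, F D) * 2 ^ n := by rw [e6]; ring
  exact mul_right_cancel₀ h2n e10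

/-- PROOF. `SN.hit` with `{X | φ X ∈ 𝒳}`, which has `#𝒳 * 2 ^ n / #𝒞` elements (`Fib`). -/
theorem hitF {φ : Finset (Fin n) → Finset (Fin n)} {𝒞 𝒳 : Finset (Finset (Fin n))} (h : Fib φ 𝒞)
    (h𝒳 : 𝒳 ⊆ 𝒞) {J : ℕ} (hJ : J ≤ 2 ^ kb n) :
    (univ.filter fun ω : Fm n => ∀ κ < J, φ (rs ω κ) ∉ 𝒳).card * (J * 𝒳.card) ≤
      Fintype.card (Fm n) * 𝒞.card := by
  have h1 := Pool.Agent.MPa9445a.SN.hit (univ.filter fun X => φ X ∈ 𝒳) hJ
  have e1 : (univ.filter fun X => φ X ∈ 𝒳).card * 𝒞.card = 𝒳.card * 2 ^ n := by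
    have e2 : (univ.filter fun X => φ X ∈ 𝒳).card =
        ∑ D ∈ 𝒳, ((univ.filter fun X => φ X ∈ 𝒳).filter fun X => φ X = D).card :=
      Finset.card_eq_sum_card_fiberwise fun X hX => (mem_filter.1 hX).2
    rw [e2, Finset.sum_mul, ← smul_eq_mul, ← Finset.sum_const]
    refine Finset.sum_congr rfl fun D hD => ?_
    have e3 : ((univ.filter fun X => φ X ∈ 𝒳).filter fun X => φ X = D) =
        univ.filter fun X => φ X = D := by
      ext X
      simp only [mem_filter, mem_univ, true_and]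
      exact ⟨fun h => h.2, fun h => ⟨h ▸ hD, h⟩⟩
    rw [e3, h.2 D (h𝒳 hD)]
  have e4 : (univ.filter fun ω : Fm n => ∀ i < J, rs ω i ∉ univ.filter fun X => φ X ∈ 𝒳) =
      univ.filter fun ω : Fm n => ∀ κ < J, φ (rs ω κ) ∉ 𝒳 := by
    ext ω
    simp only [mem_filter, mem_univ, true_and]
  rw [e4] at h1
  refine Nat.le_of_mul_le_mul_right (c := 2 ^ n) ?_ (by positivity)
  calc (univ.filter fun ω : Fm n => ∀ κ < J, φ (rs ω κ) ∉ 𝒳).card * (J * 𝒳.card) * 2 ^ n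
      = (univ.filter fun ω : Fm n => ∀ κ < J, φ (rs ω κ) ∉ 𝒳).card * J * (𝒳.card * 2 ^ n) := by
        ring
    _ = (univ.filter fun ω : Fm n => ∀ κ < J, φ (rs ω κ) ∉ 𝒳).card *
          (J * (univ.filter fun X => φ X ∈ 𝒳).card) * 𝒞.card := by
        rw [← e1]; ring
    _ ≤ Fintype.card (Fm n) * 2 ^ n * 𝒞.card := Nat.mul_le_mul_right _ h1
    _ = Fintype.card (Fm n) * 𝒞.card * 2 ^ n := by ring

/-- PROOF. `GL.sum_inter` or directly: the fibre of `D` consists of the sets `D ∪ Y`, `Y ⊆ Qᶜ`. -/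
theorem Fib_inter (Q : Finset (Fin n)) : Fib (fun X => X ∩ Q) Q.powerset := by
  refine ⟨fun X => mem_powerset.2 inter_subset_right, fun D hD => ?_⟩
  rw [mem_powerset] at hD
  have e1 : (univ.filter fun X : Finset (Fin n) => X ∩ Q = D).card = (univ \ Q).powerset.card := by
    refine Finset.card_bij' (fun X _ => X \ Q) (fun Y _ => D ∪ Y) ?_ ?_ ?_ ?_
    · intro X _
      rw [mem_powerset]
      exact sdiff_subset_sdiff (subset_univ _) (Finset.Subset.refl _)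
    · intro Y hY
      rw [mem_powerset] at hY
      simp only [mem_filter, mem_univ, true_and]
      ext v
      simp only [mem_inter, mem_union]
      constructor
      · rintro ⟨h1 | h1, h2⟩
        · exact h1
        · exact absurd h2 (mem_sdiff.1 (hY h1)).2
      · intro h1
        exact ⟨Or.inl h1, hD h1⟩
    · intro X hX
      simp only [mem_filter, mem_univ, true_and] at hX
      rw [← hX]
      ext v
      simp only [mem_inter, mem_union, mem_sdiff]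
      tauto
    · intro Y hY
      rw [mem_powerset] at hY
      ext v
      simp only [mem_union, mem_sdiff]
      constructor
      · rintro ⟨h1 | h1, h2⟩
        · exact absurd (hD h1) h2
        · exact h1
      · intro h1
        exact ⟨Or.inr h1, (mem_sdiff.1 (hY h1)).2⟩
  rw [e1, card_powerset, card_powerset, ← pow_add]
  congr 1
  have := Finset.card_sdiff_add_card_eq_card (subset_univ Q)
  rw [Finset.card_univ, Fintype.card_fin] at this
  exact this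

/-- PROOF. `#𝒞` divides `2 ^ n`, so it is a power of two (`Nat.dvd_prime_pow`), `Nat.log_pow`. -/
theorem card_pow2 {φ : Finset (Fin n) → Finset (Fin n)} {𝒞 : Finset (Finset (Fin n))}
    (h : Fib φ 𝒞) : 2 ^ Nat.log 2 𝒞.card = 𝒞.card := by
  have h1 : 𝒞.card ∣ 2 ^ n := by
    rw [← h.2 (φ ∅) (h.1 ∅)]
    exact dvd_mul_left _ _
  obtain ⟨k, _, hk⟩ := (Nat.dvd_prime_pow Nat.prime_two).1 h1
  rw [hk, Nat.log_pow (by norm_num)]

/-- The index of the code. PROOF. The syndrome `D ↦ (fun j => Odd (D ∩ h j).card)` maps the subsets of `Q` to `Fin R → Prop/Bool` (`2 ^ R` values); a fibre which contains `D₀` has at most `#(Cc h Q)` elements (`D ↦ D ∆ D₀` maps it injectively into `Cc h Q`).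
`Finset.card_le_mul_card_image`. -/
theorem index {R : ℕ} (h : Hm n R) (Q : Finset (Fin n)) :
    2 ^ Q.card ≤ (Cc h Q).card * 2 ^ R := by
  classical
  have hpar : ∀ A B H : Finset (Fin n), (Even (A ∩ H).card ↔ Even (B ∩ H).card) →
      Even ((A ∆ B) ∩ H).card := by
    intro A B H hAB
    have d1 : (A ∩ H).card = ((A \ B) ∩ H).card + ((A ∩ B) ∩ H).card := by
      rw [← card_union_of_disjoint]
      · congr 1
        ext v
        simp only [mem_inter, mem_union, mem_sdiff]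
        tauto
      · rw [Finset.disjoint_left]
        intro v hv hv'
        simp only [mem_inter, mem_sdiff] at hv hv'
        exact hv.1.2 hv'.1.2
    have d2 : (B ∩ H).card = ((B \ A) ∩ H).card + ((A ∩ B) ∩ H).card := by
      rw [← card_union_of_disjoint]
      · congr 1
        ext v
        simp only [mem_inter, mem_union, mem_sdiff]
        tauto
      · rw [Finset.disjoint_left]
        intro v hv hv'
        simp only [mem_inter, mem_sdiff] at hv hv'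
        exact hv.1.2 hv'.1.1
    have d3 : ((A ∆ B) ∩ H).card = ((A \ B) ∩ H).card + ((B \ A) ∩ H).card := by
      rw [← card_union_of_disjoint]
      · congr 1
        ext v
        simp only [mem_inter, mem_union, mem_sdiff, Finset.mem_symmDiff]
        tauto
      · rw [Finset.disjoint_left]
        intro v hv hv'
        simp only [mem_inter, mem_sdiff] at hv hv'
        exact hv.1.2 hv'.1.1
    rw [d3]
    rw [d1, d2] at hAB
    simp only [Nat.even_add] at hAB ⊢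
    tauto
  have h1 := Finset.card_le_mul_card_image (s := Q.powerset)
    (f := fun D : Finset (Fin n) => fun j : Fin R => decide (Even (D ∩ h j).card))
    (Cc h Q).card ?_
  · rw [card_powerset] at h1
    refine h1.trans (Nat.mul_le_mul_left _ ?_)
    refine (card_le_univ _).trans ?_
    rw [Fintype.card_fun, Fintype.card_bool, Fintype.card_fin]
  · intro b hb
    obtain ⟨D₀, hD₀, rfl⟩ := mem_image.1 hb
    rw [mem_powerset] at hD₀
    refine Finset.card_le_card_of_injOn (fun D => D ∆ D₀) ?_ ?_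
    · intro D hD
      rw [Finset.mem_coe, mem_filter, mem_powerset] at hD
      rw [Finset.mem_coe, mem_Cc]
      refine ⟨?_, fun j => ?_⟩
      · intro v hv
        rw [Finset.mem_symmDiff] at hv
        rcases hv with hv | hv
        · exact hD.1 hv.1
        · exact hD₀ hv.1
      · refine hpar _ _ _ ?_
        have := congrFun hD.2 j
        simpa using this
    · intro D _ D' _ hDD
      exact symmDiff_left_injective D₀ hDD

/-- The average size of the code. PROOF. `swap` with `c = 1`; the sets `∅` and `Q` contribute `#(KH R 𝓔)` each, the others `#(KH R 𝓔) / 2 ^ R` (`KH_half`). -/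
theorem sum_Cc {R : ℕ} {𝓔 : Finset (Finset (Fin n))} {Q : Finset (Fin n)} (hE : Ch 𝓔 Q) :
    (∑ h ∈ KH R 𝓔, (Cc h Q).card) * 2 ^ R ≤ (2 * 2 ^ R + 2 ^ Q.card) * (KH R 𝓔).card := by
  have e1 : ∑ h ∈ KH R 𝓔, (Cc h Q).card = ∑ D ∈ Q.powerset, (KH R (insert D 𝓔)).card := by
    have e2 := swap (R := R) 𝓔 Q (fun _ => True) (fun _ _ => (1 : ℕ))
    simpa only [Finset.filter_true, Finset.sum_const, smul_eq_mul, mul_one] using e2
  have e3 : ∀ D ∈ Q.powerset, (KH R (insert D 𝓔)).card * 2 ^ R ≤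
      (if D = ∅ ∨ D = Q then 2 ^ R * (KH R 𝓔).card else 0) + (KH R 𝓔).card := by
    intro D hD
    rw [mem_powerset] at hD
    split_ifs with hc
    · have h1 : (KH R (insert D 𝓔)).card ≤ (KH R 𝓔).card :=
        Finset.card_le_card fun h hh => (mem_KH_insert.1 hh).1
      calc (KH R (insert D 𝓔)).card * 2 ^ R ≤ (KH R 𝓔).card * 2 ^ R := Nat.mul_le_mul_right _ h1
        _ = 2 ^ R * (KH R 𝓔).card := by ring
        _ ≤ _ := Nat.le_add_right _ _
    · push Not at hc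
      rw [KH_half hE hD hc.1.ne_empty hc.2]
      omega
  rw [e1, Finset.sum_mul]
  refine (Finset.sum_le_sum e3).trans ?_
  rw [Finset.sum_add_distrib, Finset.sum_const, card_powerset, smul_eq_mul, ← Finset.sum_filter,
    Finset.sum_const, smul_eq_mul, add_mul]
  refine Nat.add_le_add_right ?_ _
  have h2 : (Q.powerset.filter fun D => D = ∅ ∨ D = Q).card ≤ 2 := by
    refine (Finset.card_le_card (t := {∅, Q}) ?_).trans Finset.card_le_two
    intro D hD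
    rw [mem_filter] at hD
    rw [mem_insert, mem_singleton]
    exact hD.2
  calc (Q.powerset.filter fun D => D = ∅ ∨ D = Q).card * (2 ^ R * (KH R 𝓔).card)
      ≤ 2 * (2 ^ R * (KH R 𝓔).card) := Nat.mul_le_mul_right _ h2
    _ = 2 * 2 ^ R * (KH R 𝓔).card := by ring

end Pool.Agent.MPa9445a.SB
end

section
/-! The numbers of samples and tries. -/

set_option autoImplicit false

open Finset

namespace Pool.Agent.MPa9445a.SB

open Pool.Agent.MPa9445a.SN (Fm rs kb)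
open Pool.Agent.MPa9445a.GL (Vc S Ph Lv T Par lvl LL la2 fl Wb xk vc)

variable {n : ℕ}

theorem lg_spec (n : ℕ) : n + 2 ≤ 2 ^ lg n ∧ 2 ^ lg n ≤ 2 * (n + 2) := by
  constructor
  · exact Nat.le_pow_clog (by norm_num) _
  · have h1 : 2 ^ (Nat.clog 2 (n + 2)).pred < n + 2 :=
      Nat.pow_pred_clog_lt_self (by norm_num) (by omega)
    have h2 : 0 < Nat.clog 2 (n + 2) := Nat.clog_pos (by norm_num) (by omega)
    have h3 : 2 ^ Nat.clog 2 (n + 2) = 2 * 2 ^ (Nat.clog 2 (n + 2)).pred := by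
      rw [Nat.pred_eq_sub_one]
      conv_lhs => rw [show Nat.clog 2 (n + 2) = (Nat.clog 2 (n + 2) - 1) + 1 by omega]
      rw [pow_succ]; ring
    unfold lg
    omega

/-- The number of samples as a real number. -/
theorem Jn_eq {m g : ℕ} (hg : g ≤ m + c1 * lg n) :
    (Jn n m g : ℝ) * 2 ^ g = 2 ^ m * 2 ^ (c1 * lg n) := by
  have h1 : Jn n m g * 2 ^ g = 2 ^ m * 2 ^ (c1 * lg n) := by
    unfold Jn
    rw [← pow_add, ← pow_add, Nat.sub_add_cancel hg]
  exact_mod_cast h1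

theorem ht_le (W : Matrix (Fin n) (Fin n) ℤ) (Q : Finset (Fin n)) (ω : Fm n) (J : ℕ) (t : ℤ) :
    (ht W Q ω J t).card ≤ J := by
  unfold ht
  exact (card_filter_le _ _).trans (by rw [card_range])

/-- Few tries. PROOF. `2 ^ ex = 2 ^ (c + (c1 + c2) lg - g - log x)` without truncation, as `log x ≤ m + c1 lg - g` (`x ≤ Jn`) and `m ≤ c`. `2 ^ log x > x / 2`, so `2 ^ ex < 2 * 2 ^ c * 2 ^ ((c1 + c2) lg) / (2 ^ g * x)`, and `x ≥ Jn * N / (2 * 2 ^ m) = 2 ^ (c1 lg) * N / (2 * 2 ^ g)`. -/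
theorem ex_le {m c g x N : ℕ} (hg : g ≤ m) (hc : m ≤ c) (hx : x ≤ Jn n m g)
    (hf : (Jn n m g * N : ℝ) ≤ 2 * 2 ^ m * x) (hN : 0 < N) :
    (2 : ℝ) ^ ex n c g x * N ≤ 4 * 2 ^ c * 2 ^ (c2 * lg n) := by
  have hJ : (Jn n m g : ℝ) * 2 ^ g = 2 ^ m * 2 ^ (c1 * lg n) := Jn_eq (by omega)
  have hJ0 : (0 : ℝ) < Jn n m g := by
    unfold Jn
    positivity
  have hN' : (0 : ℝ) < N := by exact_mod_cast hN
  have hx0 : x ≠ 0 := by
    rintro rfl
    have h1 := mul_pos hJ0 hN'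
    simp only [Nat.cast_zero, mul_zero] at hf
    linarith
  have hL : Nat.log 2 x ≤ m + c1 * lg n - g := by
    have h1 : Nat.log 2 x ≤ Nat.log 2 (Jn n m g) := Nat.log_mono_right hx
    unfold Jn at h1
    rwa [Nat.log_pow (by norm_num)] at h1
  have hlt : x < 2 ^ (Nat.log 2 x + 1) := Nat.lt_pow_succ_log_self (by norm_num) x
  have hlt' : (x : ℝ) ≤ 2 ^ (Nat.log 2 x + 1) := by exact_mod_cast hlt.le
  have hex : (2 : ℝ) ^ ex n c g x * (2 ^ g * 2 ^ Nat.log 2 x) =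
      2 ^ c * 2 ^ (c2 * lg n) * 2 ^ (c1 * lg n) := by
    rw [← pow_add, ← pow_add, ← pow_add, ← pow_add]
    congr 1
    unfold ex
    have : (c1 + c2) * lg n = c1 * lg n + c2 * lg n := by ring
    omega
  have hm0 : (0 : ℝ) < 2 ^ m := by positivity
  have hg0 : (0 : ℝ) < 2 ^ g := by positivity
  have hc10 : (0 : ℝ) < 2 ^ (c1 * lg n) := by positivity
  -- 2 ^ (c1 lg) N ≤ 2 x 2 ^ g
  have h1 : (2 : ℝ) ^ (c1 * lg n) * N ≤ 2 * x * 2 ^ g := by
    have h2 : (2 : ℝ) ^ m * (2 ^ (c1 * lg n) * N) ≤ 2 ^ m * (2 * x * 2 ^ g) := by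
      calc (2 : ℝ) ^ m * (2 ^ (c1 * lg n) * N) = (Jn n m g * 2 ^ g) * N := by rw [hJ]; ring
        _ = (Jn n m g * N : ℝ) * 2 ^ g := by ring
        _ ≤ (2 * 2 ^ m * x) * 2 ^ g := by gcongr
        _ = 2 ^ m * (2 * x * 2 ^ g) := by ring
    exact le_of_mul_le_mul_left h2 hm0
  have h3 : (2 : ℝ) ^ (c1 * lg n) * N ≤ 4 * (2 ^ g * 2 ^ Nat.log 2 x) := by
    calc (2 : ℝ) ^ (c1 * lg n) * N ≤ 2 * x * 2 ^ g := h1
      _ ≤ 2 * 2 ^ (Nat.log 2 x + 1) * 2 ^ g := by gcongr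
      _ = 4 * (2 ^ g * 2 ^ Nat.log 2 x) := by rw [pow_succ]; ring
  have h4 : (2 : ℝ) ^ ex n c g x * N * 2 ^ (c1 * lg n) ≤
      4 * 2 ^ c * 2 ^ (c2 * lg n) * 2 ^ (c1 * lg n) := by
    calc (2 : ℝ) ^ ex n c g x * N * 2 ^ (c1 * lg n)
        = 2 ^ ex n c g x * (2 ^ (c1 * lg n) * N) := by ring
      _ ≤ 2 ^ ex n c g x * (4 * (2 ^ g * 2 ^ Nat.log 2 x)) := by gcongr
      _ = 4 * (2 ^ ex n c g x * (2 ^ g * 2 ^ Nat.log 2 x)) := by ring
      _ = 4 * 2 ^ c * 2 ^ (c2 * lg n) * 2 ^ (c1 * lg n) := by rw [hex]; ring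
  exact le_of_mul_le_mul_right h4 hc10

/-- Enough tries. PROOF. `2 ^ log x ≤ x ≤ 2 * 2 ^ (c1 lg) * N / 2 ^ g`; truncation only increases `ex`. -/
theorem le_ex {m c g x N : ℕ} (hg : g ≤ m) (hx : 0 < x)
    (hf : (x : ℝ) * 2 ^ m ≤ 2 * (Jn n m g * N)) :
    (2 : ℝ) ^ c * 2 ^ (c2 * lg n) ≤ 2 * N * 2 ^ ex n c g x := by
  have hJ : (Jn n m g : ℝ) * 2 ^ g = 2 ^ m * 2 ^ (c1 * lg n) := Jn_eq (by omega)
  have hlow : 2 ^ Nat.log 2 x ≤ x := Nat.pow_log_le_self 2 hx.ne'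
  have hlow' : (2 : ℝ) ^ Nat.log 2 x ≤ x := by exact_mod_cast hlow
  have hex : (2 : ℝ) ^ c * 2 ^ (c2 * lg n) * 2 ^ (c1 * lg n) ≤
      2 ^ ex n c g x * (2 ^ g * 2 ^ Nat.log 2 x) := by
    rw [← pow_add, ← pow_add, ← pow_add, ← pow_add]
    refine pow_le_pow_right₀ (by norm_num) ?_
    unfold ex
    have : (c1 + c2) * lg n = c1 * lg n + c2 * lg n := by ring
    omega
  have hm0 : (0 : ℝ) < 2 ^ m := by positivity
  have hc10 : (0 : ℝ) < 2 ^ (c1 * lg n) := by positivity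
  have h1 : (x : ℝ) * 2 ^ g ≤ 2 * (2 ^ (c1 * lg n) * N) := by
    have h2 : (2 : ℝ) ^ m * (x * 2 ^ g) ≤ 2 ^ m * (2 * (2 ^ (c1 * lg n) * N)) := by
      calc (2 : ℝ) ^ m * (x * 2 ^ g) = (x * 2 ^ m) * 2 ^ g := by ring
        _ ≤ (2 * (Jn n m g * N)) * 2 ^ g := by gcongr
        _ = 2 * (Jn n m g * 2 ^ g) * N := by ring
        _ = 2 ^ m * (2 * (2 ^ (c1 * lg n) * N)) := by rw [hJ]; ring
    exact le_of_mul_le_mul_left h2 hm0
  have h4 : (2 : ℝ) ^ c * 2 ^ (c2 * lg n) * 2 ^ (c1 * lg n) ≤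
      2 * N * 2 ^ ex n c g x * 2 ^ (c1 * lg n) := by
    calc (2 : ℝ) ^ c * 2 ^ (c2 * lg n) * 2 ^ (c1 * lg n)
        ≤ 2 ^ ex n c g x * (2 ^ g * 2 ^ Nat.log 2 x) := hex
      _ ≤ 2 ^ ex n c g x * (2 ^ g * x) := by gcongr
      _ = 2 ^ ex n c g x * (x * 2 ^ g) := by ring
      _ ≤ 2 ^ ex n c g x * (2 * (2 ^ (c1 * lg n) * N)) := by gcongr
      _ = 2 * N * 2 ^ ex n c g x * 2 ^ (c1 * lg n) := by ring
  exact le_of_mul_le_mul_right h4 hc10

/-- The exponent is not too large if the level is present. PROOF. `log x ≥ c1 * lg n - 1`. -/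
theorem ex_kb {c g x : ℕ} (hx : 2 ^ (c1 * lg n - 1) ≤ x) (hc : c ≤ n + g) :
    ex n c g x ≤ n + c2 * lg n + 1 := by
  have h1 : c1 * lg n - 1 ≤ Nat.log 2 x := by
    have h2 : Nat.log 2 (2 ^ (c1 * lg n - 1)) ≤ Nat.log 2 x := Nat.log_mono_right hx
    rwa [Nat.log_pow (by norm_num)] at h2
  unfold ex
  have : (c1 + c2) * lg n = c1 * lg n + c2 * lg n := by ring
  omega

end Pool.Agent.MPa9445a.SB
end

section
/-! The numbers of samples and tries. -/

set_option autoImplicit false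

open Finset

namespace Pool.Agent.MPa9445a.SB

open Pool.Agent.MPa9445a.SN (Fm rs kb)
open Pool.Agent.MPa9445a.GL (Vc S Ph Lv T Par lvl LL la2 fl Wb xk vc)

variable {n : ℕ}

private theorem D2b_lg (n : ℕ) : 1 ≤ lg n := by
  unfold lg
  exact Nat.clog_pos (by norm_num) (by omega)

private theorem D2b_JN {m g N : ℕ} (hg : g ≤ m) (hN : 2 ^ g ≤ N) :
    (2 : ℝ) ^ m * 2 ^ (c1 * lg n) ≤ Jn n m g * N := by
  rw [← Jn_eq (n := n) (m := m) (g := g) (by omega)]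
  have h : ((2 : ℝ) ^ g) ≤ N := by exact_mod_cast hN
  exact mul_le_mul_of_nonneg_left h (by positivity)

open scoped Classical in
/-- Half of the expected number of hits is usual. PROOF. `concV` with `𝒯 = Lv W (bl Q) t` and `lam = μ / 2`, `μ = Jn * #𝒯 / 2 ^ #Q ≥ 2 ^ (c1 lg) ≥ 16` (`Jn_eq`): the number of the exceptional `ω` is at most `4 / μ * #Fm`. -/
theorem half_est (W : Matrix (Fin n) (Fin n) ℤ) {Q : Finset (Fin n)} {g : ℕ} (hg : g ≤ Q.card)
    (hk : Q.card + c1 * lg n ≤ kb n + g) {t : ℤ} (hN : 2 ^ g ≤ (Lv W (bl Q) t).card) :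
    (univ.filter fun ω : Fm n => ¬ Hf W Q g ω t).card * 4 ≤ Fintype.card (Fm n) := by
  classical
  have hl := D2b_lg n
  have hJ : Jn n Q.card g ≤ 2 ^ kb n := by
    unfold Jn
    exact Nat.pow_le_pow_right (by norm_num) (by omega)
  have hJN := D2b_JN (n := n) (m := Q.card) hg hN
  obtain ⟨N, hNd⟩ : ∃ N : ℝ, N = ((Lv W (bl Q) t).card : ℝ) := ⟨_, rfl⟩
  obtain ⟨J, hJd⟩ : ∃ J : ℝ, J = (Jn n Q.card g : ℝ) := ⟨_, rfl⟩
  obtain ⟨F, hFd⟩ : ∃ F : ℝ, F = (Fintype.card (Fm n) : ℝ) := ⟨_, rfl⟩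
  obtain ⟨M, hMd⟩ : ∃ M : ℝ, M = (2 : ℝ) ^ Q.card := ⟨_, rfl⟩
  have hM : 0 < M := by rw [hMd]; positivity
  have h16 : (16 : ℝ) ≤ 2 ^ (c1 * lg n) := by
    have h4 : 4 ≤ c1 * lg n := by
      have : c1 = 30 := rfl
      rw [this]; omega
    calc (16 : ℝ) = 2 ^ 4 := by norm_num
      _ ≤ 2 ^ (c1 * lg n) := pow_le_pow_right₀ (by norm_num) h4
  have hJN' : M * 16 ≤ J * N := by
    rw [hMd, hJd, hNd]
    exact le_trans (mul_le_mul_of_nonneg_left h16 (by positivity)) hJN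
  obtain ⟨μ, hμ⟩ : ∃ μ : ℝ, μ = J * N / M := ⟨_, rfl⟩
  have hμ16 : 16 ≤ μ := by
    rw [hμ, le_div_iff₀ hM]; linarith
  have hμM : μ * M = J * N := by
    rw [hμ]; field_simp
  have hsub : Lv W (bl Q) t ⊆ S (bl Q) := Finset.filter_subset _ _
  have hc := concV hsub hJ (lam := μ / 2) (by linarith)
  have hht : ∀ ω : Fm n, ((range (Jn n Q.card g)).filter fun κ => xk (bl Q) ω κ ∈ Lv W (bl Q) t) =
      ht W Q ω (Jn n Q.card g) t := by
    intro ω
    unfold ht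
    refine Finset.filter_congr fun κ _ => ?_
    unfold Lv
    rw [Finset.mem_filter]
    exact ⟨fun h => h.2, fun h => ⟨GL.vc_mem _ _, h⟩⟩
  have hle : ((univ.filter fun ω : Fm n => ¬ Hf W Q g ω t).card : ℝ) ≤
      ((univ.filter fun ω : Fm n => μ / 2 <
        |(((range (Jn n Q.card g)).filter fun κ => xk (bl Q) ω κ ∈ Lv W (bl Q) t).card : ℝ) -
        Jn n Q.card g * (Lv W (bl Q) t).card / 2 ^ Q.card|).card : ℝ) := by
    refine Nat.cast_le.mpr (Finset.card_le_card fun ω hω => ?_)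
    rw [Finset.mem_filter] at hω ⊢
    refine ⟨Finset.mem_univ _, ?_⟩
    have h1 := hω.2
    unfold Hf at h1
    rw [not_le] at h1
    rw [hht ω, ← hJd, ← hNd, ← hMd, ← hμ]
    rw [← hJd, ← hNd, ← hMd, ← hμM] at h1
    have h2 : ((ht W Q ω (Jn n Q.card g) t).card : ℝ) < μ / 2 := by
      have h3 : M * (2 * ((ht W Q ω (Jn n Q.card g) t).card : ℝ)) < M * μ := by linarith
      have h4 := lt_of_mul_lt_mul_left h3 hM.le
      linarith
    rw [abs_sub_comm]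
    exact lt_of_lt_of_le (by linarith) (le_abs_self _)
  rw [← hJd, ← hNd, ← hFd, ← hMd] at hc
  rw [← hJd, ← hNd, ← hMd] at hle
  obtain ⟨B, hB⟩ : ∃ B : ℝ, B = ((univ.filter fun ω : Fm n => ¬ Hf W Q g ω t).card : ℝ) := ⟨_, rfl⟩
  rw [← hB] at hle
  have hB0 : 0 ≤ B := by rw [hB]; positivity
  have hc1 : B * ((μ / 2) ^ 2 * M) ≤ J * N * F :=
    le_trans (mul_le_mul_of_nonneg_right hle (by positivity)) hc
  have hμ0 : 0 < μ := by linarith
  have hc2 : (μ * M) * (B * μ) ≤ (μ * M) * (4 * F) := by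
    have : (μ * M) * (B * μ) = 4 * (B * ((μ / 2) ^ 2 * M)) := by ring
    rw [this, ← hμM] at *
    nlinarith [hc1]
  have hc3 : B * μ ≤ 4 * F := le_of_mul_le_mul_left hc2 (by positivity)
  have hc4 : B * 16 ≤ B * μ := mul_le_mul_of_nonneg_left hμ16 hB0
  have hfin : B * 4 ≤ F := by linarith
  rw [hB, hFd] at hfin
  exact_mod_cast hfin

/-- PROOF. `#ht ≥ Jn * #Lv / (2 * 2 ^ #Q) ≥ 2 ^ (c1 lg) / 2`. -/
theorem Pr_of_Hf {W : Matrix (Fin n) (Fin n) ℤ} {Q : Finset (Fin n)} {g : ℕ} (hg : g ≤ Q.card)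
    {t : ℤ} (hN : 2 ^ g ≤ (Lv W (bl Q) t).card) {ω : Rr n} (hf : Hf W Q g ω.1 t) :
    Pr W Q g ω t := by
  have hl := D2b_lg n
  have hJN := D2b_JN (n := n) (m := Q.card) hg hN
  unfold Hf at hf
  unfold Pr
  obtain ⟨k, hk⟩ : ∃ k, c1 * lg n = k + 1 := by
    have h4 : 1 ≤ c1 * lg n := by
      have : c1 = 30 := rfl
      rw [this]; omega
    exact ⟨c1 * lg n - 1, by omega⟩
  rw [hk, Nat.add_sub_cancel]
  rw [hk] at hJN
  have h1 : (2 : ℝ) ^ Q.card * 2 ^ (k + 1) ≤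
      2 * 2 ^ Q.card * (ht W Q ω.1 (Jn n Q.card g) t).card := le_trans hJN hf
  have h2 : (2 * 2 ^ Q.card : ℝ) * 2 ^ k ≤
      2 * 2 ^ Q.card * (ht W Q ω.1 (Jn n Q.card g) t).card := by
    calc (2 * 2 ^ Q.card : ℝ) * 2 ^ k = (2 : ℝ) ^ Q.card * 2 ^ (k + 1) := by ring
      _ ≤ _ := h1
  have h3 : (2 : ℝ) ^ k ≤ (ht W Q ω.1 (Jn n Q.card g) t).card :=
    le_of_mul_le_mul_left h2 (by positivity)
  exact_mod_cast h3

end Pool.Agent.MPa9445a.SB
end
end

section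

end

section

section
/-! Least budgets and pairs of blocks. -/

set_option autoImplicit false

open Finset

namespace Pool.Agent.MPa9445a.SB

open Pool.Agent.MPa9445a.GL (Vc S Ph Lv T Par lvl LL la2 fl Wb on off)

variable {n : ℕ} {W : Matrix (Fin n) (Fin n) ℤ} {E : Rf n}

/-- Own lemma: the elements of the answers. -/
theorem C2b_getD (hE : Gd W E) {X : Finset (Fin n)} {a : ℤ} (ha : a ∈ lvl n) {j : ℕ} {x : Vc n}
    (hx : x ∈ (E X a j).getD ∅) : x ∈ Lv W (bl X) a := by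
  rcases h : E X a j with _ | A
  · rw [h] at hx
    exact absurd hx (notMem_empty x)
  · rw [h] at hx
    exact hE.sn X a ha j A h hx

/-- The composed vectors are vectors of the block. PROOF. `Gd.sn`, `add_mem_S`. -/
theorem po_sub (hE : Gd W E) {Q D : Finset (Fin n)} (hD : D ⊆ Q) {a b : ℤ} (ha : a ∈ lvl n)
    (hb : b ∈ lvl n) :
    po E D (Q \ D) a b ⊆ S (bl Q) := by
  intro x hx
  unfold po at hx
  rw [mem_image] at hx
  obtain ⟨z, hz, rfl⟩ := hx
  rw [mem_product] at hz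
  have h1 : z.1 ∈ Lv W (bl D) a := C2b_getD hE ha hz.1
  have h2 : z.2 ∈ Lv W (bl (Q \ D)) b := C2b_getD hE hb hz.2
  exact add_mem_S hD (mem_filter.1 h1).1 (mem_filter.1 h2).1

/-- PROOF. Let `j = pj E X Y _ _`. `POk E X Y _ _ j` (`pj_spec`); neither list is `∅` as they contain `u`, `v` (`Fd`), so both are `some` and contain `u`, `v`. -/
theorem mem_po (hE : Gd W E) {X Y : Finset (Fin n)} {u v : Vc n} (hu : Fd W E X u)
    (hv : Fd W E Y v) (ha : Ph W u ∈ lvl n) (hb : Ph W v ∈ lvl n) : u + v ∈ po E X Y (Ph W u) (Ph W v) := by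
  have hs := (pj_spec hE X Y ha hb).1
  unfold po
  rcases hs with h | h | ⟨A, B, hA, hB, -⟩
  · exact absurd (hu _ _ h) (notMem_empty u)
  · exact absurd (hv _ _ h) (notMem_empty v)
  · have h1 := hu _ _ hA
    have h2 := hv _ _ hB
    rw [mem_image]
    refine ⟨(u, v), ?_, rfl⟩
    rw [mem_product, hA, hB]
    exact ⟨h1, h2⟩

/-- The loop finds `u`. PROOF. `dec_bl`, `mem_po`, `GL.on_add_off`. -/
theorem mem_oR (hW : Wb W) (hE : Gd W E) {Q : Finset (Fin n)} {D : ℕ → Finset (Fin n)}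
    {u : Vc n} (hu : u ∈ S (bl Q)) {k κ : ℕ} (hκ : κ < k) (hD : D κ ⊆ Q) {t : ℤ}
    (ht : Ph W (fl (D κ) u) = t) (h1 : Fd W E (D κ) (on (D κ) u))
    (h2 : Fd W E (Q \ D κ) (off (D κ) u)) :
    u ∈ oR W E Q D k ((Ph W u + t) / 2) (Ph W u) := by
  obtain ⟨-, d2, d3, -, -⟩ := dec_bl hW hD hu
  rw [ht] at d2 d3
  obtain ⟨m1, m2⟩ := mem_la2 d2
  unfold oR
  rw [mem_filter]
  refine ⟨?_, rfl⟩
  rw [mem_biUnion]
  refine ⟨κ, mem_range.2 hκ, ?_⟩
  rw [mem_biUnion]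
  refine ⟨Ph W (on (D κ) u), d2, ?_⟩
  rw [← d3]
  rw [← d3] at m2
  have h := mem_po hE h1 h2 m1 m2
  rwa [Pool.Agent.MPa9445a.GL.on_add_off] at h

/-- PROOF. `po_sub`. -/
theorem oR_sub (hE : Gd W E) {Q : Finset (Fin n)} {D : ℕ → Finset (Fin n)} (hD : ∀ κ, D κ ⊆ Q)
    (k : ℕ) (q p : ℤ) : oR W E Q D k q p ⊆ Lv W (bl Q) p := by
  intro x hx
  unfold oR at hx
  rw [mem_filter, mem_biUnion] at hx
  obtain ⟨⟨κ, -, hx1⟩, hx2⟩ := hx
  rw [mem_biUnion] at hx1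
  obtain ⟨a, ha, hx3⟩ := hx1
  obtain ⟨m1, m2⟩ := mem_la2 ha
  exact mem_filter.2 ⟨po_sub hE (hD κ) m1 m2 hx3, hx2⟩

/-- The average cost of a pair over a finite set of procedures. PROOF. If `T W (bl X) a q < 1` then `Lv W (bl X) a = ∅` (`GL.Lv_le_T`), so `pc ≤ cr E X a` and the sum is at most `C * max c 1 * #I = C * c * #I`; symmetric for `Y`. If both are `≥ 1`, `pc_le` and
`max c T ≤ c + T`, `T ≤ T * T'`, `#Lv * #Lv ≤ T * T'`: the sum is at most `2 * (C (c + T) + C (c' + T') + T T') * #I ≤ 6 * C * (c + c' + T T') * #I`. -/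
theorem pc_sum {ι : Type} (I : Finset ι) (E : ι → Rf n) (hE : ∀ i ∈ I, Gd W (E i))
    {X Y : Finset (Fin n)} {a b : ℤ} (ha : a ∈ lvl n) (hb : b ∈ lvl n) {q : ℝ} (hq : 1 ≤ q)
    {C c c' N : ℝ} (hC : 1 ≤ C) (hc : 1 ≤ c)
    (hc' : 1 ≤ c') (hN : (I.card : ℝ) ≤ N)
    (hX : ∑ i ∈ I, (cr (E i) X a : ℝ) ≤ C * max c (T W (bl X) a q) * N)
    (hY : ∑ i ∈ I, (cr (E i) Y b : ℝ) ≤ C * max c' (T W (bl Y) b q) * N) :
    ∑ i ∈ I, (pc (E i) X Y a b : ℝ) ≤
      6 * C * (c + c' + T W (bl X) a q * T W (bl Y) b q) * N := by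
  have hN0 : (0 : ℝ) ≤ N := le_trans (Nat.cast_nonneg _) hN
  have t1 := Pool.Agent.MPa9445a.GL.T_nonneg (W := W) (bl X) a hq
  have t2 := Pool.Agent.MPa9445a.GL.T_nonneg (W := W) (bl Y) b hq
  have l1 := Pool.Agent.MPa9445a.GL.Lv_le_T (W := W) (bl X) a hq
  have l2 := Pool.Agent.MPa9445a.GL.Lv_le_T (W := W) (bl Y) b hq
  set TX := T W (bl X) a q with hTX
  set TY := T W (bl Y) b q with hTY
  have hTT : 0 ≤ TX * TY := mul_nonneg t1 t2
  have hCN : 0 ≤ C * N := mul_nonneg (by linarith) hN0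
  rcases lt_or_ge TX 1 with hx | hx
  · have he : Lv W (bl X) a = ∅ := by
      rw [← card_eq_zero]
      have : ((Lv W (bl X) a).card : ℝ) < 1 := lt_of_le_of_lt l1 hx
      have h' : (Lv W (bl X) a).card < 1 := by exact_mod_cast this
      omega
    have h1 : ∑ i ∈ I, (pc (E i) X Y a b : ℝ) ≤ ∑ i ∈ I, (cr (E i) X a : ℝ) := by
      refine sum_le_sum fun i hi => ?_
      exact_mod_cast pc_le_left (hE i hi) Y b ha he
    rw [max_eq_left (by linarith : TX ≤ c)] at hX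
    refine le_trans h1 (le_trans hX ?_)
    nlinarith [mul_nonneg hCN hTT, mul_nonneg hCN (by linarith : 0 ≤ c),
      mul_nonneg hCN (by linarith : 0 ≤ c')]
  rcases lt_or_ge TY 1 with hy | hy
  · have he : Lv W (bl Y) b = ∅ := by
      rw [← card_eq_zero]
      have : ((Lv W (bl Y) b).card : ℝ) < 1 := lt_of_le_of_lt l2 hy
      have h' : (Lv W (bl Y) b).card < 1 := by exact_mod_cast this
      omega
    have h1 : ∑ i ∈ I, (pc (E i) X Y a b : ℝ) ≤ ∑ i ∈ I, (cr (E i) Y b : ℝ) := by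
      refine sum_le_sum fun i hi => ?_
      exact_mod_cast pc_le_right (hE i hi) X a hb he
    rw [max_eq_left (by linarith : TY ≤ c')] at hY
    refine le_trans h1 (le_trans hY ?_)
    nlinarith [mul_nonneg hCN hTT, mul_nonneg hCN (by linarith : 0 ≤ c),
      mul_nonneg hCN (by linarith : 0 ≤ c')]
  have h1 : ∑ i ∈ I, (pc (E i) X Y a b : ℝ) ≤
      ∑ i ∈ I, (2 * ((cr (E i) X a : ℝ) + (cr (E i) Y b : ℝ) + TX * TY)) := by
    refine sum_le_sum fun i hi => ?_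
    have h := pc_le (hE i hi) X Y ha hb
    have h' : (pc (E i) X Y a b : ℝ) ≤ 2 * ((cr (E i) X a : ℝ) + (cr (E i) Y b : ℝ) +
        ((Lv W (bl X) a).card : ℝ) * ((Lv W (bl Y) b).card : ℝ)) := by
      exact_mod_cast h
    have h2 : ((Lv W (bl X) a).card : ℝ) * ((Lv W (bl Y) b).card : ℝ) ≤ TX * TY :=
      mul_le_mul l1 l2 (Nat.cast_nonneg _) t1
    linarith
  have h2 : ∑ i ∈ I, (2 * ((cr (E i) X a : ℝ) + (cr (E i) Y b : ℝ) + TX * TY)) =
      2 * (∑ i ∈ I, (cr (E i) X a : ℝ) + ∑ i ∈ I, (cr (E i) Y b : ℝ) + I.card * (TX * TY)) := by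
    rw [← mul_sum, sum_add_distrib, sum_add_distrib, sum_const, nsmul_eq_mul]
  have hm1 : max c TX ≤ c + TX := max_le (by linarith) (by linarith)
  have hm2 : max c' TY ≤ c' + TY := max_le (by linarith) (by linarith)
  have k1 : TX ≤ TX * TY := by nlinarith
  have k2 : TY ≤ TX * TY := by nlinarith
  have e1 : C * max c TX * N ≤ C * N * (c + TX * TY) := by
    have : C * max c TX * N = C * N * max c TX := by ring
    rw [this]
    exact mul_le_mul_of_nonneg_left (by linarith) hCN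
  have e2 : C * max c' TY * N ≤ C * N * (c' + TX * TY) := by
    have : C * max c' TY * N = C * N * max c' TY := by ring
    rw [this]
    exact mul_le_mul_of_nonneg_left (by linarith) hCN
  have e3 : (I.card : ℝ) * (TX * TY) ≤ C * N * (TX * TY) := by
    refine mul_le_mul_of_nonneg_right ?_ hTT
    nlinarith
  have e4 : 0 ≤ C * N * c := mul_nonneg hCN (by linarith)
  have e5 : 0 ≤ C * N * c' := mul_nonneg hCN (by linarith)
  have e6 : 6 * C * (c + c' + TX * TY) * N =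
      6 * (C * N * c) + 6 * (C * N * c') + 6 * (C * N * (TX * TY)) := by ring
  rw [h2] at h1
  rw [e6]
  have e7 : C * N * (c + TX * TY) = C * N * c + C * N * (TX * TY) := by ring
  have e8 : C * N * (c' + TX * TY) = C * N * c' + C * N * (TX * TY) := by ring
  linarith

end Pool.Agent.MPa9445a.SB
end

section

end

section

/-! The golden procedure and the leaves. -/

set_option autoImplicit false

open Finset

namespace Pool.Agent.MPa9445a.SB

open Pool.Agent.MPa9445a.GL (Vc S Ph Lv T Par lvl LL la2 fl Wb on off pl)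

variable {n : ℕ} {W : Matrix (Fin n) (Fin n) ℤ} {Go : Rf n}

private theorem C3_pow {M : ℝ} (hM : 1 ≤ M) : ∃ j : ℕ, M ≤ 2 ^ j ∧ (2 : ℝ) ^ j ≤ 2 * M := by
  obtain ⟨k, h1, h2⟩ := exists_nat_pow_near hM (by norm_num : (1 : ℝ) < 2)
  refine ⟨k + 1, h2.le, ?_⟩
  rw [pow_succ]
  linarith

private theorem C3_pl : (1 : ℝ) ≤ pl n 8 := by
  have : 1 ≤ pl n 8 := by
    have hc : 0 < 2 ^ 20 * (n + 2) ^ 60 := by positivity
    simp only [pl]
    generalize 2 ^ 20 * (n + 2) ^ 60 = c at hc ⊢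
    refine Nat.one_le_iff_ne_zero.2 ?_
    positivity
  exact_mod_cast this

private theorem C3_pow8 (c m : ℕ) (h : c ≤ 2 ^ m) : c * (c * (c * (c * (c * (c * (c * (c * 1))))))) ≤ 2 ^ (8 * m) := by
  have h1 : c * (c * (c * (c * (c * (c * (c * (c * 1))))))) = c ^ 8 := by ring
  rw [h1, mul_comm, pow_mul]
  exact Nat.pow_le_pow_left h 8

private theorem C3_aux (x m : ℕ) (h : x ≤ 2 ^ m) (a b : ℕ) : 2 ^ a * x ^ b ≤ 2 ^ (a + b * m) := by
  rw [pow_add, mul_comm b m, pow_mul]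
  exact Nat.mul_le_mul_left _ (Nat.pow_le_pow_left h b)

private theorem C3_pl8 (n : ℕ) : pl n 8 ≤ 2 ^ (8 * (20 + 60 * lg n)) := by
  have h3 : n + 2 ≤ 2 ^ lg n := Nat.le_pow_clog (by norm_num) _
  have h4 := C3_aux (n + 2) (lg n) h3 20 60
  simp only [pl]
  exact C3_pow8 _ _ h4

private theorem C3_gam (s : ℕ) : (1 : ℝ) ≤ (2 : ℝ) ^ (gam * s) := by
  apply Real.one_le_rpow (by norm_num)
  unfold gam
  positivity

private theorem C3_mem {X : Finset (Fin n)} {u : Vc n} (hu : u ∈ S (bl X)) :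
    u ∈ Lv W (bl X) (Ph W u) := Finset.mem_filter.2 ⟨hu, rfl⟩

/-- PROOF. `GO.cpl`, `GO.ff`. -/
theorem Gd_Go (hG : GO W Go) : Gd W Go := by
  refine ⟨fun X a ha j A h => ?_, hG.ff⟩
  rcases hG.cpl X a ha j with h1 | h1
  · rw [h1] at h
    exact absurd h (by simp)
  · rw [h1] at h
    rw [Option.some.inj h]

/-- PROOF. Let `j` be the least exponent with `pl n 8 * max (2 ^ (gam * #X)) (T W (bl X) a q) ≤ 2 ^ j`; `GO.gd` for all `j' ≥ j`, so `cr ≤ 2 ^ j ≤ 2 * pl n 8 * max ..` (`cr_le`). -/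
theorem cr_Go (hG : GO W Go) {X : Finset (Fin n)} {a : ℤ} (ha : a ∈ lvl n) {q : ℝ}
    (hq : 1 ≤ q) :
    (cr Go X a : ℝ) ≤ 2 * pl n 8 * max ((2 : ℝ) ^ (gam * X.card)) (T W (bl X) a q) := by
  have h0 : (1 : ℝ) ≤ max ((2 : ℝ) ^ (gam * X.card)) (T W (bl X) a q) :=
    le_max_of_le_left (C3_gam _)
  have hM : (1 : ℝ) ≤ pl n 8 * max ((2 : ℝ) ^ (gam * X.card)) (T W (bl X) a q) :=
    one_le_mul_of_one_le_of_one_le C3_pl h0
  obtain ⟨j, h1, h2⟩ := C3_pow hM
  have h3 : cr Go X a ≤ 2 ^ j := cr_le fun j' hj' =>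
    hG.gd X a ha q hq j' (h1.trans (pow_le_pow_right₀ (by norm_num) hj'))
  have h4 : (cr Go X a : ℝ) ≤ 2 ^ j := by exact_mod_cast h3
  linarith

/-- The answers are complete. PROOF. `GO.cpl`; `Ph W u` is a level (`Ph_mem`). -/
theorem Fd_Go (hW : Wb W) (hG : GO W Go) {X : Finset (Fin n)} {u : Vc n} (hu : u ∈ S (bl X)) :
    Fd W Go X u := by
  intro j A h
  rcases hG.cpl X (Ph W u) (Ph_mem hW hu) j with h1 | h1
  · rw [h1] at h
    exact absurd h (by simp)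
  · rw [h1] at h
    rw [← Option.some.inj h]
    exact C3_mem hu

/-- The budget of the table is sufficient. PROOF. `pl n 8 = (2 ^ 20 * (n + 2) ^ 60) ^ 8`, `n + 2 ≤ 2 ^ lg n`, `gam * s ≤ 6943 * s / 10000 + 1`. -/
theorem jt_spec (n s : ℕ) : (pl n 8 : ℝ) * (2 : ℝ) ^ (gam * s) ≤ (2 : ℝ) ^ jt n s := by
  have h1 : (pl n 8 : ℝ) ≤ (2 : ℝ) ^ (8 * (20 + 60 * lg n)) := by
    exact_mod_cast C3_pl8 n
  have h5 : (2 : ℝ) ^ (gam * s) ≤ (2 : ℝ) ^ (6943 * s / 10000 + 1) := by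
    rw [← Real.rpow_natCast]
    apply Real.rpow_le_rpow_of_exponent_le (by norm_num)
    have h6 : 6943 * s < 10000 * (6943 * s / 10000 + 1) := by omega
    have h7 : (6943 : ℝ) * s < 10000 * ((6943 * s / 10000 + 1 : ℕ) : ℝ) := by exact_mod_cast h6
    unfold gam
    linarith
  calc (pl n 8 : ℝ) * (2 : ℝ) ^ (gam * s)
      ≤ (2 : ℝ) ^ (8 * (20 + 60 * lg n)) * (2 : ℝ) ^ (6943 * s / 10000 + 1) := by gcongr
    _ = (2 : ℝ) ^ jt n s := by
      rw [← pow_add]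
      rfl

variable {R : ℕ} {h : Hm n R}

/-- PROOF. `Gd_Go`; the entry of the table is the complete list. -/
theorem Gd_Lf (hG : GO W Go) (h : Hm n R) : Gd W (Lf W Go h) := by
  refine ⟨fun X a ha j A h1 => ?_, fun X a j hj => ?_⟩
  · unfold Lf at h1
    split_ifs at h1
    · rw [Option.some.inj h1]
    · exact (Gd_Go hG).sn X a ha j A h1
  · unfold Lf
    split_ifs
    · simp
    · exact hG.ff X a j hj

/-- PROOF. If `T ≤ 2 ^ (gam * #X)` then the entry of the table is there (`GO.gd`, `jt_spec`) and for all `j` with `max 1 T ≤ 2 ^ j` we have `#Lv ≤ T ≤ 2 ^ j` (`GL.Lv_le_T`), so `cr ≤ 2 * max 1 T`. Otherwise `Lf` does not fail when `Go` does not fail, and the bound follows as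
`cr_Go` (`max .. = T`). -/
theorem cr_Lf (hG : GO W Go) {X : Finset (Fin n)} (hX : X ∈ Cc h univ)
    (hs : 10000 * X.card ≤ 1891 * n) {a : ℤ} (ha : a ∈ lvl n) {q : ℝ} (hq : 1 ≤ q) :
    (cr (Lf W Go h) X a : ℝ) ≤ 2 * pl n 8 * max 1 (T W (bl X) a q) := by
  by_cases hT : T W (bl X) a q ≤ (2 : ℝ) ^ (gam * X.card)
  · have h0 : Go X a (jt n X.card) ≠ none := by
      refine hG.gd X a ha q hq _ ?_
      rw [max_eq_left hT]
      exact jt_spec n X.card
    have hM : (1 : ℝ) ≤ max 1 (T W (bl X) a q) := le_max_left _ _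
    obtain ⟨j, h1, h2⟩ := C3_pow hM
    have h3 : cr (Lf W Go h) X a ≤ 2 ^ j := by
      refine cr_le fun j' hj' => ?_
      have h4 : (Lv W (bl X) a).card ≤ 2 ^ j' := by
        have h5 : ((Lv W (bl X) a).card : ℝ) ≤ 2 ^ j' :=
          (GL.Lv_le_T _ _ _ hq).trans ((le_max_right _ _).trans
            (h1.trans (pow_le_pow_right₀ (by norm_num) hj')))
        exact_mod_cast h5
      unfold Lf
      rw [if_pos ⟨hX, hs, h0, h4⟩]
      simp
    have h6 : (cr (Lf W Go h) X a : ℝ) ≤ 2 ^ j := by exact_mod_cast h3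
    have h7 : 2 * max 1 (T W (bl X) a q) ≤ 2 * pl n 8 * max 1 (T W (bl X) a q) := by
      have := mul_le_mul_of_nonneg_right (C3_pl (n := n)) (by linarith : (0 : ℝ) ≤ 2 * max 1 (T W (bl X) a q))
      linarith
    linarith
  · have hT1 : (2 : ℝ) ^ (gam * X.card) ≤ T W (bl X) a q := (not_le.1 hT).le
    have h1T : (1 : ℝ) ≤ T W (bl X) a q := (C3_gam _).trans hT1
    have hM : (1 : ℝ) ≤ pl n 8 * max ((2 : ℝ) ^ (gam * X.card)) (T W (bl X) a q) :=
      one_le_mul_of_one_le_of_one_le C3_pl (le_max_of_le_left (C3_gam _))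
    obtain ⟨j, h1, h2⟩ := C3_pow hM
    have h3 : cr (Lf W Go h) X a ≤ 2 ^ j := by
      refine cr_le fun j' hj' => ?_
      unfold Lf
      split_ifs
      · simp
      · exact hG.gd X a ha q hq j' (h1.trans (pow_le_pow_right₀ (by norm_num) hj'))
    have h6 : (cr (Lf W Go h) X a : ℝ) ≤ 2 ^ j := by exact_mod_cast h3
    rw [max_eq_right hT1] at h2
    rw [max_eq_right h1T]
    linarith

/-- PROOF. `cr_Lf` for every `h ∈ KH R 𝓔` (`X ∈ 𝓔`, so `X ∈ Cc h univ` by `mem_KH`, `mem_Cc`); sum of constants. -/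
theorem Bnd_Lf (hG : GO W Go) {X : Finset (Fin n)} (hs : 10000 * X.card ≤ 1891 * n) :
    Bnd W (fun (h : Hm n R) (_ : Unit) => Lf W Go h) X (2 * pl n 8) 1 := by
  intro 𝓔 hE a ha q hq
  have h1 : ∀ h ∈ KH R 𝓔, ∑ ω : Unit, (cr (Lf W Go h) X a : ℝ) ≤
      2 * pl n 8 * max 1 (T W (bl X) a q) := by
    intro h hh
    rw [Finset.sum_const, Finset.card_univ, Fintype.card_unit, one_smul]
    exact cr_Lf hG (mem_Cc.2 ⟨Finset.subset_univ _, mem_KH.1 hh X hE.1⟩) hs ha hq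
  refine (Finset.sum_le_sum h1).trans (le_of_eq ?_)
  rw [Finset.sum_const, nsmul_eq_mul, Fintype.card_unit]
  push_cast
  ring

/-- PROOF. All answers are the complete list. -/
theorem Fd_Lf (hW : Wb W) (hG : GO W Go) {X : Finset (Fin n)} {u : Vc n} (hu : u ∈ S (bl X)) :
    Fd W (Lf W Go h) X u := by
  intro j A h1
  unfold Lf at h1
  split_ifs at h1
  · rw [← Option.some.inj h1]
    exact C3_mem hu
  · exact Fd_Go hW hG hu j A h1

/-- PROOF. `Fd_Lf`. -/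
theorem Mis_Lf (hW : Wb W) (hG : GO W Go) (X : Finset (Fin n)) :
    Mis W (fun (h : Hm n R) (_ : Unit) => Lf W Go h) X 0 := by
  classical
  intro 𝓔 _ u hu
  refine le_trans (le_of_eq ?_) (le_of_eq (zero_mul _).symm)
  rw [Nat.cast_eq_zero, Finset.card_eq_zero, Finset.eq_empty_iff_forall_notMem]
  intro z hz
  rw [Finset.mem_filter] at hz
  exact hz.2 (Fd_Lf hW hG hu)

end Pool.Agent.MPa9445a.SB
end

section

/-! The root: events of the samples. -/

set_option autoImplicit false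
set_option synthInstance.maxSize 1000

open Finset

namespace Pool.Agent.MPa9445a.SB

open Pool.Agent.MPa9445a.SN (Fm rs kb)
open Pool.Agent.MPa9445a.GL (Vc S Ph Lv T Par lvl LL la2 xk vc pl fl Wb Fr Lv_le_S)

variable {n : ℕ}

open scoped Classical in
/-- An event of the samples of the root. -/
theorem samp {R : ℕ} (H : Finset (Hm n R)) (P : Fm n → Prop) {k : ℕ}
    (h : (univ.filter fun ω => ¬ P ω).card * k ≤ Fintype.card (Fm n)) :
    ((H ×ˢ (univ : Finset (Om n))).filter fun z => ¬ P z.2.2.2.1).card * k ≤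
      H.card * Fintype.card (Om n) := by
  have h1 : ((H ×ˢ (univ : Finset (Om n))).filter fun z => ¬ P z.2.2.2.1) =
      H ×ˢ ((univ : Finset (Sr n)) ×ˢ ((univ : Finset (Sr n)) ×ˢ
        ((univ.filter fun ω => ¬ P ω) ×ˢ (univ : Finset (Fm n × Fm n))))) := by
    ext ⟨a, b, c, d, e, f⟩
    simp only [Finset.mem_filter, Finset.mem_product, Finset.mem_univ, and_true, true_and]
  rw [h1, Finset.card_product, Finset.card_product, Finset.card_product, Finset.card_product]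
  have h2 : Fintype.card (Om n) = Fintype.card (Sr n) * (Fintype.card (Sr n) *
      (Fintype.card (Fm n) * Fintype.card (Fm n × Fm n))) := by
    rw [← Fintype.card_prod, ← Fintype.card_prod, ← Fintype.card_prod]
  rw [h2, Finset.card_univ, Finset.card_univ]
  calc H.card * (Fintype.card (Sr n) * (Fintype.card (Sr n) *
        ((univ.filter fun ω => ¬ P ω).card * Fintype.card (Fm n × Fm n)))) * k =
      H.card * (Fintype.card (Sr n) * (Fintype.card (Sr n) *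
        (((univ.filter fun ω => ¬ P ω).card * k) * Fintype.card (Fm n × Fm n)))) := by ring
    _ ≤ _ := by gcongr

/-- If the level of the target is large then it is among the samples. PROOF. `half_est` for `Q = univ`, `t = Ph W x`; `Pr_of_Hf`: there are hits. -/
theorem case1 (W : Matrix (Fin n) (Fin n) ℤ) (hg : g0 n ≤ n) (hk : n + c1 * lg n ≤ kb n + g0 n)
    {p : ℤ} (hN : 2 ^ g0 n ≤ (Lv W (bl univ) p).card) :
    (univ.filter fun ω : Fm n =>
      ¬ ∃ κ < Jn n n (g0 n), Ph W (xk (bl univ) ω κ) = p).card * 4 ≤ Fintype.card (Fm n) := by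
  classical
  have hu : (univ : Finset (Fin n)).card = n := by rw [Finset.card_univ, Fintype.card_fin]
  have h1 := half_est W (Q := univ) (g := g0 n) (by rw [hu]; exact hg) (by rw [hu]; exact hk) hN
  refine le_trans (Nat.mul_le_mul_right 4 (Finset.card_le_card ?_)) h1
  intro ω hω
  rw [Finset.mem_filter] at hω ⊢
  refine ⟨Finset.mem_univ _, fun hf => hω.2 ?_⟩
  have h2 : Pr W univ (g0 n) ((ω, ω, ω) : Rr n) p :=
    Pr_of_Hf (by rw [hu]; exact hg) hN (ω := (ω, ω, ω)) hf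
  have h3 : 0 < (ht W univ ω (Jn n (univ : Finset (Fin n)).card (g0 n)) p).card :=
    lt_of_lt_of_le (Nat.two_pow_pos _) h2
  obtain ⟨κ, hκ⟩ := Finset.card_pos.1 h3
  rw [hu] at hκ
  unfold ht at hκ
  rw [Finset.mem_filter, Finset.mem_range] at hκ
  exact ⟨κ, hκ.1, hκ.2⟩

/-- If one half of a large level set has a property then one of the first samples of the level has it. PROOF. `GL.sample` for `s = bl univ` and the power of two `J` with `32 * 2 ^ n ≤ J * #Lv ≤ 64 * 2 ^ n`; `J ≤ Jn n n (g0 n)` because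
`Jn * #Lv ≥ 2 ^ n * 2 ^ (c1 * lg n) ≥ 64 * 2 ^ n` (`Jn_eq`). -/
theorem case2b (W : Matrix (Fin n) (Fin n) ℤ) (hg : g0 n ≤ n) (hk : n + c1 * lg n ≤ kb n + g0 n)
    {t : ℤ} (hN : 2 ^ g0 n ≤ (Lv W (bl univ) t).card) {𝒢 : Finset (Vc n)}
    (h𝒢 : 𝒢 ⊆ Lv W (bl univ) t) (h2 : (Lv W (bl univ) t).card ≤ 2 * 𝒢.card) :
    (univ.filter fun ω : Fm n => ¬ ∃ κ ∈ ht W univ ω (Jn n n (g0 n)) t,
      ((ht W univ ω (Jn n n (g0 n)) t).filter fun κ' => κ' < κ).card < Y0 ∧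
        xk (bl univ) ω κ ∈ 𝒢).card * 8 ≤ Fintype.card (Fm n) := by
  classical
  have hu : (univ : Finset (Fin n)).card = n := by rw [Finset.card_univ, Fintype.card_fin]
  have hF : (Fr (bl (univ : Finset (Fin n)))).card = n := by rw [Fr_bl, hu]
  obtain ⟨N, hNe⟩ : ∃ N, N = (Lv W (bl univ) t).card := ⟨_, rfl⟩
  rw [← hNe] at hN h2
  have hN0 : 0 < N := lt_of_lt_of_le (Nat.two_pow_pos _) hN
  have hNn : N ≤ 2 ^ n := by
    have h3 := Lv_le_S W (bl univ) t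
    rw [hF, ← hNe] at h3
    exact h3
  -- the power of two
  have hex : ∃ j, 32 * 2 ^ n ≤ 2 ^ j * N := by
    refine ⟨n + 5, ?_⟩
    calc 32 * 2 ^ n = 2 ^ (n + 5) * 1 := by rw [pow_add]; ring
      _ ≤ _ := Nat.mul_le_mul_left _ hN0
  obtain ⟨j, hj, hjm⟩ : ∃ j, 32 * 2 ^ n ≤ 2 ^ j * N ∧ 2 ^ j * N ≤ 64 * 2 ^ n := by
    refine ⟨Nat.find hex, Nat.find_spec hex, ?_⟩
    rcases Nat.eq_zero_or_pos (Nat.find hex) with h0 | h0
    · rw [h0]
      nlinarith [Nat.two_pow_pos n]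
    · have h3 := Nat.find_min hex (m := Nat.find hex - 1) (by omega)
      rw [not_le] at h3
      have h4 : 2 ^ Nat.find hex = 2 * 2 ^ (Nat.find hex - 1) := by
        rw [← pow_succ']
        congr 1
        omega
      rw [h4]
      nlinarith
  -- `2 ^ j ≤ Jn`
  have hJn : (Jn n n (g0 n)) * 2 ^ g0 n = 2 ^ n * 2 ^ (c1 * lg n) := by
    have h3 := Jn_eq (n := n) (m := n) (g := g0 n) (by omega)
    exact_mod_cast h3
  have hlg : 64 ≤ 2 ^ (c1 * lg n) := by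
    have h3 : 1 ≤ lg n := by
      unfold lg
      exact Nat.clog_pos (by norm_num) (by omega)
    calc 64 = 2 ^ 6 := by norm_num
      _ ≤ 2 ^ (c1 * lg n) := Nat.pow_le_pow_right (by norm_num) (by unfold c1; omega)
  have hjJ : 2 ^ j ≤ Jn n n (g0 n) := by
    refine Nat.le_of_mul_le_mul_right (c := N) ?_ hN0
    calc 2 ^ j * N ≤ 64 * 2 ^ n := hjm
      _ ≤ 2 ^ (c1 * lg n) * 2 ^ n := Nat.mul_le_mul_right _ hlg
      _ = Jn n n (g0 n) * 2 ^ g0 n := by rw [hJn, mul_comm]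
      _ ≤ _ := Nat.mul_le_mul_left _ hN
  have hJk : Jn n n (g0 n) ≤ 2 ^ kb n := by
    unfold Jn
    exact Nat.pow_le_pow_right (by norm_num) (by omega)
  have hjk : 2 ^ j ≤ 2 ^ kb n := hjJ.trans hJk
  have h5 := GL.sample (W := W) (s := bl univ) (t := t) (𝒢 := 𝒢) h𝒢 (by rw [← hNe]; exact h2)
    (J := 2 ^ j) hjk (by rw [hF, ← hNe]; exact hj) (by rw [hF, ← hNe]; exact hjm)
  refine le_trans (Nat.mul_le_mul_right 8 (Finset.card_le_card ?_)) h5
  intro ω hω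
  rw [Finset.mem_filter] at hω ⊢
  refine ⟨Finset.mem_univ _, fun hf => hω.2 ?_⟩
  obtain ⟨κ, hκ, hκ2, hκ3⟩ := hf
  have hmem : ∀ κ' : ℕ, κ' ∈ ht W univ ω (Jn n n (g0 n)) t ↔
      κ' < Jn n n (g0 n) ∧ Ph W (xk (bl univ) ω κ') = t := by
    intro κ'
    unfold ht
    rw [Finset.mem_filter, Finset.mem_range]
  have hκt : Ph W (xk (bl univ) ω κ) = t := (Finset.mem_filter.1 (h𝒢 hκ2)).2
  refine ⟨κ, (hmem κ).2 ⟨lt_of_lt_of_le hκ hjJ, hκt⟩, ?_, hκ2⟩
  refine lt_of_le_of_lt (Finset.card_le_card ?_) hκ3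
  intro κ' hκ'
  rw [Finset.mem_filter, hmem] at hκ'
  rw [Finset.mem_filter, Finset.mem_range]
  exact ⟨hκ'.2, hκ'.1.2⟩

end Pool.Agent.MPa9445a.SB
end
end

section

section

/-! The step lemma: good sets of the code whose children are good. -/

set_option autoImplicit false

open Finset

namespace Pool.Agent.MPa9445a.SB

variable {n R : ℕ}

open scoped Classical in
/-- PROOF. `cheb` for the first coordinate: all but `32 * 2 ^ R / #𝒢` of the `h` have `#(𝒢 ∩ Cc h Q) * 2 ^ R ≥ 3 / 4 * #𝒢`. The number `Y` of the `D ∈ 𝒢 ∩ Cc h Q` with `Bad h ω D` has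
`∑ (h, ω), Y = ∑ D ∈ 𝒢, #{(h, ω) | h ∈ KH R (insert D E), Bad h ω D} ≤ δ * #𝒢 * #KH R E * #Ω / 2 ^ R` (`KH_half`), so (Markov) `Y * 2 ^ R > #𝒢 / 4` for at most `4 δ * #KH * #Ω` pairs. If neither happens,
`#(good) * 2 ^ R ≥ (3/4 - 1/4) * #𝒢`. -/
theorem step {Ω : Type} [Fintype Ω] {E : Finset (Finset (Fin n))} {Q : Finset (Fin n)}
    (hE : Ch E Q) {𝒢 : Finset (Finset (Fin n))} (h𝒢 : ∀ D ∈ 𝒢, D ⊆ Q ∧ D ≠ ∅ ∧ D ≠ Q)
    (hne : 𝒢.Nonempty) (Bad : Hm n R → Ω → Finset (Fin n) → Prop) {δ : ℝ} (hδ : 0 ≤ δ)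
    (hB : ∀ D ∈ 𝒢, ((((KH R (insert D E)) ×ˢ (univ : Finset Ω)).filter fun p =>
      Bad p.1 p.2 D).card : ℝ) ≤ δ * ((KH R (insert D E)).card * Fintype.card Ω)) :
    ((((KH R E) ×ˢ (univ : Finset Ω)).filter fun p =>
      2 * ((𝒢 ∩ Cc p.1 Q).filter fun D => ¬ Bad p.1 p.2 D).card * 2 ^ R < 𝒢.card).card : ℝ) ≤
      (32 * 2 ^ R / 𝒢.card + 4 * δ) * ((KH R E).card * Fintype.card Ω) := by
  have hG : (0 : ℝ) < (𝒢.card : ℝ) := by exact_mod_cast card_pos.2 hne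
  have h2R : (0 : ℝ) < (2 : ℝ) ^ R := by positivity
  set KE := KH R E with hKE
  set Y : Hm n R × Ω → ℕ := fun p => ((𝒢 ∩ Cc p.1 Q).filter fun D => Bad p.1 p.2 D).card with hY
  set B1 := KE.filter fun h => 4 * (𝒢 ∩ Cc h Q).card * 2 ^ R < 3 * 𝒢.card with hB1
  set T1 := B1 ×ˢ (univ : Finset Ω) with hT1
  set T2 := (KE ×ˢ (univ : Finset Ω)).filter fun p => 𝒢.card < 4 * Y p * 2 ^ R with hT2
  -- inclusion
  have hincl : ((KE ×ˢ (univ : Finset Ω)).filter fun p =>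
      2 * ((𝒢 ∩ Cc p.1 Q).filter fun D => ¬ Bad p.1 p.2 D).card * 2 ^ R < 𝒢.card) ⊆ T1 ∪ T2 := by
    intro p hp
    rw [mem_filter, mem_product] at hp
    obtain ⟨⟨hp1, hp2⟩, hp3⟩ := hp
    rw [mem_union]
    by_cases hc : 4 * (𝒢 ∩ Cc p.1 Q).card * 2 ^ R < 3 * 𝒢.card
    · left
      rw [hT1, mem_product, hB1, mem_filter]
      exact ⟨⟨hp1, hc⟩, mem_univ _⟩
    · right
      rw [hT2, mem_filter, mem_product]
      refine ⟨⟨hp1, hp2⟩, ?_⟩
      have hsplit : (𝒢 ∩ Cc p.1 Q).card = Y p +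
          ((𝒢 ∩ Cc p.1 Q).filter fun D => ¬ Bad p.1 p.2 D).card := by
        rw [hY]
        exact (card_filter_add_card_filter_not (s := 𝒢 ∩ Cc p.1 Q)
          (fun D => Bad p.1 p.2 D)).symm
      rw [hsplit] at hc
      push Not at hc
      set g := ((𝒢 ∩ Cc p.1 Q).filter fun D => ¬ Bad p.1 p.2 D).card
      have e1 : 4 * (Y p + g) * 2 ^ R = 4 * Y p * 2 ^ R + 2 * (2 * g * 2 ^ R) := by ring
      rw [e1] at hc
      omega
  -- the first part
  have hpart1 : (T1.card : ℝ) ≤ 32 * 2 ^ R / 𝒢.card * (KE.card * Fintype.card Ω) := by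
    have h1 := cheb (R := R) hE h𝒢
    rw [← hKE, ← hB1] at h1
    have h2 : (B1.card : ℝ) * 𝒢.card ≤ 32 * 2 ^ R * KE.card := by exact_mod_cast h1
    have h3 : (B1.card : ℝ) ≤ 32 * 2 ^ R / 𝒢.card * KE.card := by
      rw [div_mul_eq_mul_div, le_div_iff₀ hG]
      exact h2
    rw [hT1, card_product, card_univ]
    push_cast
    calc (B1.card : ℝ) * Fintype.card Ω ≤ (32 * 2 ^ R / 𝒢.card * KE.card) * Fintype.card Ω :=
          mul_le_mul_of_nonneg_right h3 (by positivity)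
      _ = _ := by ring
  -- the second part
  have hsum : (∑ p ∈ KE ×ˢ (univ : Finset Ω), (Y p : ℝ)) * 2 ^ R ≤
      δ * 𝒢.card * (KE.card * Fintype.card Ω) := by
    have h1 : (∑ p ∈ KE ×ˢ (univ : Finset Ω), (Y p : ℝ)) =
        ∑ D ∈ 𝒢, ((((KH R (insert D E)) ×ˢ (univ : Finset Ω)).filter fun p =>
          Bad p.1 p.2 D).card : ℝ) := by
      have e1 : ∀ p ∈ KE ×ˢ (univ : Finset Ω), (Y p : ℝ) =
          ∑ D ∈ 𝒢, if (D ∈ Cc p.1 Q ∧ Bad p.1 p.2 D) then (1 : ℝ) else 0 := by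
        intro p _
        rw [hY]
        have : ((𝒢 ∩ Cc p.1 Q).filter fun D => Bad p.1 p.2 D) =
            𝒢.filter fun D => D ∈ Cc p.1 Q ∧ Bad p.1 p.2 D := by
          ext D
          simp only [mem_filter, mem_inter]
          tauto
        simp only [this]
        rw [card_filter]
        push_cast
        rfl
      rw [sum_congr rfl e1, sum_comm]
      refine sum_congr rfl fun D hD => ?_
      have : (((KH R (insert D E)) ×ˢ (univ : Finset Ω)).filter fun p => Bad p.1 p.2 D) =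
          (KE ×ˢ (univ : Finset Ω)).filter fun p => D ∈ Cc p.1 Q ∧ Bad p.1 p.2 D := by
        ext p
        rw [mem_filter, mem_filter, mem_product, mem_product, mem_KH_insert, mem_Cc, ← hKE]
        have := (h𝒢 D hD).1
        tauto
      rw [this, card_filter]
      push_cast
      rfl
    rw [h1]
    have h2 : ∀ D ∈ 𝒢, ((((KH R (insert D E)) ×ˢ (univ : Finset Ω)).filter fun p =>
          Bad p.1 p.2 D).card : ℝ) * 2 ^ R ≤ δ * (KE.card * Fintype.card Ω) := by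
      intro D hD
      obtain ⟨hD1, hD2, hD3⟩ := h𝒢 D hD
      have hk := KH_half (R := R) hE hD1 hD2 hD3
      have hk' : ((KH R (insert D E)).card : ℝ) * 2 ^ R = KE.card := by
        rw [hKE]; exact_mod_cast hk
      calc ((((KH R (insert D E)) ×ˢ (univ : Finset Ω)).filter fun p =>
          Bad p.1 p.2 D).card : ℝ) * 2 ^ R
          ≤ (δ * ((KH R (insert D E)).card * Fintype.card Ω)) * 2 ^ R :=
            mul_le_mul_of_nonneg_right (hB D hD) h2R.le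
        _ = δ * (((KH R (insert D E)).card * 2 ^ R) * Fintype.card Ω) := by ring
        _ = _ := by rw [hk']
    rw [sum_mul]
    calc ∑ D ∈ 𝒢, ((((KH R (insert D E)) ×ˢ (univ : Finset Ω)).filter fun p =>
          Bad p.1 p.2 D).card : ℝ) * 2 ^ R
        ≤ ∑ D ∈ 𝒢, δ * (KE.card * Fintype.card Ω) := sum_le_sum h2
      _ = _ := by rw [sum_const, nsmul_eq_mul]; ring
  have hpart2 : (T2.card : ℝ) ≤ 4 * δ * (KE.card * Fintype.card Ω) := by
    have h1 : (T2.card : ℝ) * 𝒢.card ≤ ∑ p ∈ KE ×ˢ (univ : Finset Ω), 4 * (Y p : ℝ) * 2 ^ R := by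
      calc (T2.card : ℝ) * 𝒢.card = ∑ p ∈ T2, (𝒢.card : ℝ) := by
            rw [sum_const, nsmul_eq_mul]
        _ ≤ ∑ p ∈ T2, 4 * (Y p : ℝ) * 2 ^ R := by
            refine sum_le_sum fun p hp => ?_
            rw [hT2, mem_filter] at hp
            have := hp.2.le
            exact_mod_cast this
        _ ≤ _ := by
            refine sum_le_sum_of_subset_of_nonneg (filter_subset _ _) fun p _ _ => ?_
            positivity
    have h2 : ∑ p ∈ KE ×ˢ (univ : Finset Ω), 4 * (Y p : ℝ) * 2 ^ R =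
        4 * ((∑ p ∈ KE ×ˢ (univ : Finset Ω), (Y p : ℝ)) * 2 ^ R) := by
      rw [sum_mul, mul_sum]
      exact sum_congr rfl fun p _ => by ring
    rw [h2] at h1
    have h3 : (T2.card : ℝ) * 𝒢.card ≤ (4 * δ * (KE.card * Fintype.card Ω)) * 𝒢.card := by
      calc (T2.card : ℝ) * 𝒢.card ≤ _ := h1
        _ ≤ 4 * (δ * 𝒢.card * (KE.card * Fintype.card Ω)) := by linarith
        _ = _ := by ring
    exact le_of_mul_le_mul_right h3 hG
  calc ((((KE) ×ˢ (univ : Finset Ω)).filter fun p =>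
      2 * ((𝒢 ∩ Cc p.1 Q).filter fun D => ¬ Bad p.1 p.2 D).card * 2 ^ R < 𝒢.card).card : ℝ)
      ≤ ((T1 ∪ T2).card : ℝ) := by exact_mod_cast card_le_card hincl
    _ ≤ (T1.card : ℝ) + T2.card := by exact_mod_cast card_union_le _ _
    _ ≤ 32 * 2 ^ R / 𝒢.card * (KE.card * Fintype.card Ω) + 4 * δ * (KE.card * Fintype.card Ω) :=
        add_le_add hpart1 hpart2
    _ = _ := by ring

end Pool.Agent.MPa9445a.SB
end

section

/-! Size and frequencies. -/

set_option autoImplicit false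

open Finset

namespace Pool.Agent.MPa9445a.SB

open Pool.Agent.MPa9445a.GL (Vc S vc xk Fr)
open Pool.Agent.MPa9445a.SN (Fm rs kb)

variable {n : ℕ}

/-- The random bits give the size of `𝒯` and all frequencies in `𝒯`. -/
def Frq (Q : Finset (Fin n)) (𝒯 : Finset (Vc n)) (J : ℕ) (η : ℝ) (ω : Fm n) : Prop :=
  (J * 𝒯.card / 2 ^ Q.card : ℝ) / 2 ≤ ((range J).filter fun κ => xk (bl Q) ω κ ∈ 𝒯).card ∧
  (((range J).filter fun κ => xk (bl Q) ω κ ∈ 𝒯).card : ℝ) ≤ 2 * (J * 𝒯.card / 2 ^ Q.card) ∧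
  ∀ v, |(((range J).filter fun κ => xk (bl Q) ω κ ∈ 𝒯 ∧ xk (bl Q) ω κ v = 1).card : ℝ) -
    fq 𝒯 v * ((range J).filter fun κ => xk (bl Q) ω κ ∈ 𝒯).card| ≤
      η * ((range J).filter fun κ => xk (bl Q) ω κ ∈ 𝒯).card

open scoped Classical in
/-- PROOF. Let `μ = J * #𝒯 / 2 ^ #Q`. `concV` for `𝒯` and for `𝒯.filter (z v = 1)` (at most `n + 1` families) with `lam = η * μ / 4`: the exceptional `ω` are at most `(n + 1) * 16 / (η ^ 2 * μ) * #Fm`. Otherwise
`|X - μ| ≤ η μ / 4 ≤ μ / 2`, `|X_v - μ π| ≤ η μ / 4`, so `|X_v - π X| ≤ η μ / 2 ≤ η X`. -/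
theorem freq {Q : Finset (Fin n)} {𝒯 : Finset (Vc n)} (h : 𝒯 ⊆ S (bl Q)) {J : ℕ}
    (hJ : J ≤ 2 ^ kb n) {η : ℝ} (hη : 0 < η) (hη1 : η ≤ 1) :
    ((univ.filter fun ω : Fm n => ¬ Frq Q 𝒯 J η ω).card : ℝ) * (η ^ 2 * (J * 𝒯.card)) ≤
      16 * (n + 1) * 2 ^ Q.card * Fintype.card (Fm n) := by
  rcases Nat.eq_zero_or_pos (J * 𝒯.card) with h0 | h0
  · have h0' : (J : ℝ) * 𝒯.card = 0 := by exact_mod_cast h0
    rw [h0']
    simp only [mul_zero]
    positivity
  have hJt : 0 < (J : ℝ) * 𝒯.card := by exact_mod_cast h0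
  have hq : (0 : ℝ) < 2 ^ Q.card := by positivity
  obtain ⟨μ, hμ⟩ : ∃ μ : ℝ, μ = (J : ℝ) * 𝒯.card / 2 ^ Q.card := ⟨_, rfl⟩
  have hμ0 : 0 < μ := by rw [hμ]; positivity
  have hμq : μ * 2 ^ Q.card = J * 𝒯.card := by rw [hμ]; field_simp
  have hlam : 0 < η * μ / 4 := by positivity
  -- one family
  have key : ∀ 𝒯' : Finset (Vc n), 𝒯' ⊆ 𝒯 →
      ((univ.filter fun ω : Fm n =>
        η * μ / 4 < |(((range J).filter fun κ => xk (bl Q) ω κ ∈ 𝒯').card : ℝ) -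
          J * 𝒯'.card / 2 ^ Q.card|).card : ℝ) * (η ^ 2 * (J * 𝒯.card)) ≤
        16 * 2 ^ Q.card * Fintype.card (Fm n) := by
    intro 𝒯' h'
    have h1 := concV (h'.trans h) hJ hlam
    have h2 : (𝒯'.card : ℝ) ≤ 𝒯.card := by exact_mod_cast card_le_card h'
    obtain ⟨B, hB⟩ : ∃ B : ℝ, B = ((univ.filter fun ω : Fm n =>
        η * μ / 4 < |(((range J).filter fun κ => xk (bl Q) ω κ ∈ 𝒯').card : ℝ) -
          J * 𝒯'.card / 2 ^ Q.card|).card : ℝ) := ⟨_, rfl⟩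
    rw [← hB] at h1 ⊢
    have h3 : B * (η ^ 2 * (J * 𝒯.card)) * (J * 𝒯.card) =
        B * ((η * μ / 4) ^ 2 * 2 ^ Q.card) * (16 * 2 ^ Q.card) := by
      rw [← hμq]; ring
    have h4 : (J : ℝ) * 𝒯'.card * Fintype.card (Fm n) ≤ J * 𝒯.card * Fintype.card (Fm n) := by
      gcongr
    have h5 : B * (η ^ 2 * (J * 𝒯.card)) * (J * 𝒯.card) ≤
        16 * 2 ^ Q.card * Fintype.card (Fm n) * (J * 𝒯.card) := by
      rw [h3]
      calc B * ((η * μ / 4) ^ 2 * 2 ^ Q.card) * (16 * 2 ^ Q.card) ≤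
            ((J : ℝ) * 𝒯.card * Fintype.card (Fm n)) * (16 * 2 ^ Q.card) :=
            mul_le_mul_of_nonneg_right (h1.trans h4) (by positivity)
        _ = _ := by ring
    exact le_of_mul_le_mul_right h5 hJt
  -- the union bound
  have hsub : (univ.filter fun ω : Fm n => ¬ Frq Q 𝒯 J η ω) ⊆
      (univ.filter fun ω : Fm n =>
        η * μ / 4 < |(((range J).filter fun κ => xk (bl Q) ω κ ∈ 𝒯).card : ℝ) -
          J * 𝒯.card / 2 ^ Q.card|) ∪
      univ.biUnion fun v : Fin n => (univ.filter fun ω : Fm n =>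
        η * μ / 4 < |(((range J).filter fun κ => xk (bl Q) ω κ ∈ 𝒯.filter fun z => z v = 1).card : ℝ) -
          J * (𝒯.filter fun z => z v = 1).card / 2 ^ Q.card|) := by
    intro ω hω
    by_contra hcon
    simp only [mem_union, mem_biUnion, mem_filter, mem_univ, true_and, not_or, not_exists,
      not_lt] at hcon hω
    apply hω
    obtain ⟨hc1, hc2⟩ := hcon
    rw [← hμ] at hc1
    obtain ⟨X, hX⟩ : ∃ X : ℝ, X = (((range J).filter fun κ => xk (bl Q) ω κ ∈ 𝒯).card : ℝ) :=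
      ⟨_, rfl⟩
    rw [← hX] at hc1
    have hc1' := abs_le.1 hc1
    have hηm : η * μ ≤ μ := by nlinarith
    have hX1 : μ / 2 ≤ X := by linarith [hc1'.1]
    have hX2 : X ≤ 2 * μ := by linarith [hc1'.2]
    refine ⟨?_, ?_, fun v => ?_⟩
    · rw [← hX, ← hμ]; exact hX1
    · rw [← hX, ← hμ]; exact hX2
    · have h3 := hc2 v
      have ht : (0 : ℝ) < 𝒯.card := by
        have : 0 < 𝒯.card := Nat.pos_of_mul_pos_left h0
        exact_mod_cast this
      have h5 : (J : ℝ) * (𝒯.filter fun z => z v = 1).card / 2 ^ Q.card = fq 𝒯 v * μ := by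
        rw [hμ, fq]; field_simp
      rw [h5] at h3
      rw [← hX]
      obtain ⟨hf0, hf1⟩ := fq_mem 𝒯 v
      have h6 : |fq 𝒯 v * X - fq 𝒯 v * μ| ≤ η * μ / 4 := by
        rw [← mul_sub, abs_mul, abs_of_nonneg hf0]
        calc _ ≤ 1 * |X - μ| := mul_le_mul_of_nonneg_right hf1 (abs_nonneg _)
          _ ≤ _ := by rw [one_mul]; exact hc1
      have h7 : η * μ / 2 ≤ η * X := by nlinarith
      rw [abs_le] at h3 h6 ⊢
      constructor
      · linarith [h3.1, h6.2]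
      · linarith [h3.2, h6.1]
  have hcard : ((univ.filter fun ω : Fm n => ¬ Frq Q 𝒯 J η ω).card : ℝ) ≤
      ((univ.filter fun ω : Fm n =>
        η * μ / 4 < |(((range J).filter fun κ => xk (bl Q) ω κ ∈ 𝒯).card : ℝ) -
          J * 𝒯.card / 2 ^ Q.card|).card : ℝ) +
      ∑ v : Fin n, ((univ.filter fun ω : Fm n =>
        η * μ / 4 < |(((range J).filter fun κ => xk (bl Q) ω κ ∈ 𝒯.filter fun z => z v = 1).card : ℝ) -
          J * (𝒯.filter fun z => z v = 1).card / 2 ^ Q.card|).card : ℝ) := by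
    have := (card_le_card hsub).trans ((card_union_le _ _).trans
      (Nat.add_le_add_left card_biUnion_le _))
    exact_mod_cast this
  have hpos : 0 ≤ η ^ 2 * (J * 𝒯.card : ℝ) := by positivity
  refine (mul_le_mul_of_nonneg_right hcard hpos).trans ?_
  rw [add_mul, sum_mul]
  have hA := key 𝒯 (Subset.refl _)
  have hB : ∑ v : Fin n, ((univ.filter fun ω : Fm n =>
        η * μ / 4 < |(((range J).filter fun κ => xk (bl Q) ω κ ∈ 𝒯.filter fun z => z v = 1).card : ℝ) -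
          J * (𝒯.filter fun z => z v = 1).card / 2 ^ Q.card|).card : ℝ) * (η ^ 2 * (J * 𝒯.card)) ≤
      ∑ v : Fin n, (16 * 2 ^ Q.card * Fintype.card (Fm n) : ℝ) :=
    sum_le_sum fun v _ => key _ (filter_subset _ _)
  rw [sum_const, card_univ, Fintype.card_fin, nsmul_eq_mul] at hB
  calc _ ≤ (16 * 2 ^ Q.card * Fintype.card (Fm n) : ℝ) +
        n * (16 * 2 ^ Q.card * Fintype.card (Fm n)) := add_le_add hA hB
    _ = _ := by ring

end Pool.Agent.MPa9445a.SB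
end

section

/-! The table of the leaves is small for most codes. -/

set_option autoImplicit false
set_option synthInstance.maxSize 1000

open Finset

namespace Pool.Agent.MPa9445a.SB

open Pool.Agent.MPa9445a.SN (Fm rs kb)
open Pool.Agent.MPa9445a.GL (Vc S Ph Lv T Par lvl LL la2 xk vc pl fl Wb Fr)

/-- The sum of the budgets of the entries of the table (for one level `a`). -/
def TW {n R : ℕ} (h : Hm n R) : ℕ :=
  ∑ D ∈ (Cc h univ).filter fun D => 10000 * D.card ≤ 1891 * n, 2 ^ jt n D.card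

private theorem R5a_term (n s : ℕ) :
    ((2 ^ jt n s : ℕ) : ℝ) ≤ 2 ^ (161 + 480 * lg n) * ((2 : ℝ) ^ gam) ^ s := by
  have h1 : ((jt n s : ℕ) : ℝ) ≤ ((161 + 480 * lg n : ℕ) : ℝ) + gam * s := by
    have h2 : jt n s = 161 + 480 * lg n + 6943 * s / 10000 := by unfold jt; ring
    rw [h2, Nat.cast_add]
    have h3 : ((6943 * s / 10000 : ℕ) : ℝ) ≤ ((6943 * s : ℕ) : ℝ) / ((10000 : ℕ) : ℝ) :=
      Nat.cast_div_le
    have h4 : ((6943 * s : ℕ) : ℝ) / ((10000 : ℕ) : ℝ) = gam * s := by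
      unfold gam
      push_cast
      ring
    linarith
  calc ((2 ^ jt n s : ℕ) : ℝ) = (2 : ℝ) ^ ((jt n s : ℕ) : ℝ) := by
        rw [Real.rpow_natCast]; push_cast; rfl
    _ ≤ (2 : ℝ) ^ (((161 + 480 * lg n : ℕ) : ℝ) + gam * s) :=
        Real.rpow_le_rpow_of_exponent_le (by norm_num) h1
    _ = 2 ^ (161 + 480 * lg n) * ((2 : ℝ) ^ gam) ^ s := by
        rw [Real.rpow_add (by norm_num), Real.rpow_natCast, Real.rpow_mul (by norm_num),
          Real.rpow_natCast]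

private theorem R5a_split {n R : ℕ} (hn : 1 ≤ n) (h : Hm n R) :
    ((TW h : ℕ) : ℝ) ≤ 2 ^ (161 + 480 * lg n) * (1 +
      ∑ D ∈ (Cc h univ).filter (fun D => D ≠ ∅ ∧ D ≠ univ ∧ D.card ≤ 1891 * n / 10000),
        ((2 : ℝ) ^ gam) ^ D.card) := by
  classical
  have h1 : ((TW h : ℕ) : ℝ) ≤ 2 ^ (161 + 480 * lg n) *
      ∑ D ∈ (Cc h univ).filter (fun D => 10000 * D.card ≤ 1891 * n),
        ((2 : ℝ) ^ gam) ^ D.card := by
    unfold TW
    rw [Nat.cast_sum, mul_sum]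
    exact sum_le_sum fun D _ => R5a_term n D.card
  refine h1.trans ?_
  refine mul_le_mul_of_nonneg_left ?_ (by positivity)
  have h2 : (Cc h univ).filter (fun D => 10000 * D.card ≤ 1891 * n) ⊆
      insert ∅ ((Cc h univ).filter
        (fun D => D ≠ ∅ ∧ D ≠ univ ∧ D.card ≤ 1891 * n / 10000)) := by
    intro D hD
    rw [mem_filter] at hD
    rw [mem_insert, mem_filter]
    by_cases h0 : D = ∅
    · exact Or.inl h0
    · refine Or.inr ⟨hD.1, h0, ?_, ?_⟩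
      · rintro rfl
        have h3 := hD.2
        rw [card_univ, Fintype.card_fin] at h3
        omega
      · have h3 := hD.2
        omega
  have hpos : ∀ D : Finset (Fin n), (0 : ℝ) ≤ ((2 : ℝ) ^ gam) ^ D.card := fun D => by positivity
  calc ∑ D ∈ (Cc h univ).filter (fun D => 10000 * D.card ≤ 1891 * n),
        ((2 : ℝ) ^ gam) ^ D.card ≤
      ∑ D ∈ insert ∅ ((Cc h univ).filter
        (fun D => D ≠ ∅ ∧ D ≠ univ ∧ D.card ≤ 1891 * n / 10000)), ((2 : ℝ) ^ gam) ^ D.card :=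
        sum_le_sum_of_subset_of_nonneg h2 fun D _ _ => hpos D
    _ = 1 + ∑ D ∈ (Cc h univ).filter
        (fun D => D ≠ ∅ ∧ D ≠ univ ∧ D.card ≤ 1891 * n / 10000), ((2 : ℝ) ^ gam) ^ D.card := by
        rw [sum_insert (by simp), card_empty, pow_zero]

private theorem R5a_avg (n : ℕ) (hn : 1 ≤ n) :
    ∑ h ∈ KH (Rc n) ({univ} : Finset (Finset (Fin n))), ((TW h : ℕ) : ℝ) ≤
      2 ^ (g0 n + 163 + 480 * lg n) *
        (KH (Rc n) ({univ} : Finset (Finset (Fin n)))).card := by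
  set K := (KH (Rc n) ({univ} : Finset (Finset (Fin n)))) with hK
  have hg : (0 : ℝ) ≤ (2 : ℝ) ^ gam := by positivity
  have hk : ((1891 * n / 10000 : ℕ) : ℝ) ≤ sg * n := by
    have h3 : ((1891 * n / 10000 : ℕ) : ℝ) ≤ ((1891 * n : ℕ) : ℝ) / ((10000 : ℕ) : ℝ) :=
      Nat.cast_div_le
    have h4 : ((1891 * n : ℕ) : ℝ) / ((10000 : ℕ) : ℝ) = sg * n := by
      unfold sg
      push_cast
      ring
    linarith
  have h1 := table_cost (n := n) (R := Rc n) (1891 * n / 10000) hg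
  rw [← hK] at h1
  have h2 := tabl (n := n) hk
  set X : ℝ := ∑ h ∈ K, ∑ D ∈ (Cc h univ).filter
    (fun D => D ≠ ∅ ∧ D ≠ univ ∧ D.card ≤ 1891 * n / 10000), ((2 : ℝ) ^ gam) ^ D.card with hX
  have h3 : X * 2 ^ Rc n ≤ 2 ^ ((cc + rr) * n) * (K.card : ℝ) :=
    h1.trans (mul_le_mul_of_nonneg_right h2 (Nat.cast_nonneg _))
  have h4 : (2 : ℝ) ^ (rr * n) ≤ 2 ^ Rc n := by
    rw [← Real.rpow_natCast]
    refine Real.rpow_le_rpow_of_exponent_le (by norm_num) ?_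
    have h5 : 1655 * n ≤ 10000 * Rc n := by unfold Rc; omega
    have h6 : (1655 : ℝ) * n ≤ 10000 * (Rc n : ℕ) := by exact_mod_cast h5
    unfold rr
    linarith
  have h5 : (2 : ℝ) ^ (cc * n) ≤ 2 ^ (g0 n + 1) := by
    rw [← Real.rpow_natCast]
    refine Real.rpow_le_rpow_of_exponent_le (by norm_num) ?_
    have h5 : 6665 * n ≤ 10000 * (g0 n + 1) := by unfold g0; omega
    have h6 : (6665 : ℝ) * n ≤ 10000 * ((g0 n + 1 : ℕ) : ℝ) := by exact_mod_cast h5
    unfold cc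
    linarith
  have hX0 : 0 ≤ X := sum_nonneg fun h _ => sum_nonneg fun D _ => by positivity
  have h6 : X ≤ 2 ^ (g0 n + 1) * (K.card : ℝ) := by
    have h7 : X * 2 ^ (rr * n) ≤ (2 ^ (cc * n) * (K.card : ℝ)) * 2 ^ (rr * n) := by
      calc X * 2 ^ (rr * n) ≤ X * 2 ^ Rc n := mul_le_mul_of_nonneg_left h4 hX0
        _ ≤ 2 ^ ((cc + rr) * n) * (K.card : ℝ) := h3
        _ = (2 ^ (cc * n) * (K.card : ℝ)) * 2 ^ (rr * n) := by
          rw [add_mul, Real.rpow_add (by norm_num)]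
          ring
    have h8 : X ≤ 2 ^ (cc * n) * (K.card : ℝ) := le_of_mul_le_mul_right h7 (by positivity)
    exact h8.trans (mul_le_mul_of_nonneg_right h5 (Nat.cast_nonneg _))
  calc ∑ h ∈ K, ((TW h : ℕ) : ℝ) ≤ ∑ h ∈ K, 2 ^ (161 + 480 * lg n) * (1 +
      ∑ D ∈ (Cc h univ).filter (fun D => D ≠ ∅ ∧ D ≠ univ ∧ D.card ≤ 1891 * n / 10000),
        ((2 : ℝ) ^ gam) ^ D.card) := sum_le_sum fun h _ => R5a_split hn h
    _ = 2 ^ (161 + 480 * lg n) * ((K.card : ℝ) + X) := by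
        rw [← mul_sum, sum_add_distrib, sum_const, nsmul_eq_mul, mul_one]
    _ ≤ 2 ^ (161 + 480 * lg n) * ((K.card : ℝ) + 2 ^ (g0 n + 1) * (K.card : ℝ)) := by gcongr
    _ ≤ 2 ^ (161 + 480 * lg n) * (2 ^ (g0 n + 2) * (K.card : ℝ)) := by
        have h7 : (1 : ℝ) ≤ 2 ^ (g0 n + 1) := one_le_pow₀ (by norm_num)
        have h8 : (2 : ℝ) ^ (g0 n + 2) = 2 ^ (g0 n + 1) * 2 := by ring
        have h9 : (0 : ℝ) ≤ (K.card : ℝ) := Nat.cast_nonneg _
        have h10 : (K.card : ℝ) + 2 ^ (g0 n + 1) * (K.card : ℝ) ≤ 2 ^ (g0 n + 2) * (K.card : ℝ) := by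
          rw [h8]; nlinarith
        gcongr
    _ = 2 ^ (g0 n + 163 + 480 * lg n) * (K.card : ℝ) := by
        rw [← mul_assoc, ← pow_add,
          show 161 + 480 * lg n + (g0 n + 2) = g0 n + 163 + 480 * lg n by ring]

private theorem R5a_markov {α : Type} (K : Finset α) (f : α → ℕ) {a b : ℕ} (hab : a + 2 ≤ b)
    (h : ∑ x ∈ K, f x ≤ 2 ^ a * K.card) :
    (K.filter fun x => ¬ f x ≤ 2 ^ b).card * 4 ≤ K.card := by
  have h2 : 4 * 2 ^ a ≤ 2 ^ b := by
    calc 4 * 2 ^ a = 2 ^ (a + 2) := by rw [pow_add]; ring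
      _ ≤ 2 ^ b := Nat.pow_le_pow_right (by norm_num) hab
  have h1 : (K.filter fun x => ¬ f x ≤ 2 ^ b).card * (4 * 2 ^ a) ≤ ∑ x ∈ K, f x := by
    calc (K.filter fun x => ¬ f x ≤ 2 ^ b).card * (4 * 2 ^ a) =
        ∑ x ∈ K.filter (fun x => ¬ f x ≤ 2 ^ b), 4 * 2 ^ a := by rw [sum_const, smul_eq_mul]
      _ ≤ ∑ x ∈ K.filter (fun x => ¬ f x ≤ 2 ^ b), f x := by
          refine sum_le_sum fun x hx => ?_
          exact h2.trans (Nat.le_of_lt (Nat.lt_of_not_le (mem_filter.1 hx).2))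
      _ ≤ ∑ x ∈ K, f x := sum_le_sum_of_subset (filter_subset _ _)
  have h3 : 2 ^ a * ((K.filter fun x => ¬ f x ≤ 2 ^ b).card * 4) ≤ 2 ^ a * K.card := by
    calc 2 ^ a * ((K.filter fun x => ¬ f x ≤ 2 ^ b).card * 4) =
        (K.filter fun x => ¬ f x ≤ 2 ^ b).card * (4 * 2 ^ a) := by ring
      _ ≤ 2 ^ a * K.card := h1.trans h
  exact Nat.le_of_mul_le_mul_left h3 (by positivity)

/-- PROOF. `jt n s ≤ 161 + 480 * lg n + gam * s`, so `TW h ≤ 2 ^ (161 + 480 lg n) * ∑ (2 ^ gam) ^ #D`. The average over `h` of the sum: the empty set contributes `1`, `univ` is too large (`n ≥ 1`), the others at most `2 ^ (-R) * 2 ^ ((cc + rr) * n)` (`table_cost` with `g = 2 ^ gam`,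
`k = 1891 * n / 10000`, and `tabl`), `R = Rc n ≥ rr * n`, `cc * n ≤ g0 n + 1`. So the average of `TW h` is at most `2 ^ (161 + 480 lg n) * (1 + 2 ^ (g0 n + 1)) ≤ 2 ^ (g0 n + 163 + 480 lg n)`; Markov's inequality with `c = 165 + 480` (`1 ≤ lg n`). -/
theorem table_small : ∃ c : ℕ, ∀ n, 1 ≤ n →
    ((KH (Rc n) ({univ} : Finset (Finset (Fin n)))).filter fun h =>
      ¬ TW h ≤ 2 ^ (g0 n + c * lg n)).card * 4 ≤
      (KH (Rc n) ({univ} : Finset (Finset (Fin n)))).card := by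
  refine ⟨645, fun n hn => ?_⟩
  set K := (KH (Rc n) ({univ} : Finset (Finset (Fin n)))) with hK
  have hav := R5a_avg n hn
  rw [← hK] at hav
  have hlg : 1 ≤ lg n := by
    have h1 := (lg_spec n).1
    by_contra h2
    have h3 : lg n = 0 := by omega
    rw [h3] at h1
    omega
  have hav' : ∑ h ∈ K, TW h ≤ 2 ^ (g0 n + 163 + 480 * lg n) * K.card := by exact_mod_cast hav
  exact R5a_markov K TW (by omega) hav'

end Pool.Agent.MPa9445a.SB
end
end
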