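import Pool.Agent.Lib.MP_a9445a_lc.Mg.G101
import Pool.Agent.Lib.MP_a9445a_lc.Mg.G100
import Pool.Agent.Lib.MP_a9445a_lc.Mg.G103
import Pool.Agent.Lib.MP_a9445a_lc.Mg.G096
import Pool.Agent.Lib.MP_a9445a_lc.Mg.G097
import Pool.Agent.Lib.MP_a9445a_lc.SB.B2
import Pool.Agent.Lib.MP_a9445a_lc.SB.B5
import Pool.Agent.Lib.MP_a9445a_lc.SB.N1

section

/-! Wrong estimates. -/

set_option autoImplicit false
set_option synthInstance.maxSize 1000

open Finset

namespace Pool.Agent.MPa9445a.SB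

open Pool.Agent.MPa9445a.SN (Fm rs kb)
open Pool.Agent.MPa9445a.GL (Vc S Ph Lv T Par lvl LL la2 fl Wb on off pl xk)

variable {n : ℕ}

/-- The estimate of the level `t` is not too large, and the level is not too small. -/
def Up (W : Matrix (Fin n) (Fin n) ℤ) (Q : Finset (Fin n)) (g : ℕ) (ω : Fm n) (t : ℤ) : Prop :=
  2 ^ g ≤ 4 * (Lv W (bl Q) t).card ∧
    ((ht W Q ω (Jn n Q.card g) t).card : ℝ) * 2 ^ Q.card ≤ 2 * (Jn n Q.card g * (Lv W (bl Q) t).card)

open scoped Classical in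
/-- A present level with a wrong estimate is unlikely. PROOF. `μ = Jn * #Lv / 2 ^ #Q = 2 ^ (c1 lg) * #Lv / 2 ^ g`, `X = #ht`. If `4 * #Lv < 2 ^ g` then `μ < 2 ^ (c1 lg - 2)`, present means `X ≥ 2 ^ (c1 lg - 1)`, so `|X - μ| > 2 ^ (c1 lg - 2) =: lam`; `concV`: at most `μ / lam ^ 2 ≤ 1 / lam` of the `ω`.
If `4 * #Lv ≥ 2 ^ g` and `X > 2 μ` then `|X - μ| > μ` (if `μ > 0`): at most `1 / μ ≤ 4 / 2 ^ (c1 lg)`. Both are at most `4 / (n + 2) ^ 30 ≤ 1 / (n + 2) ^ 25`. -/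
theorem up_est (W : Matrix (Fin n) (Fin n) ℤ) {Q : Finset (Fin n)} {g : ℕ} (hg : g ≤ Q.card)
    (hk : Q.card + c1 * lg n ≤ kb n + g) (t : ℤ) :
    (univ.filter fun ω : Fm n => 2 ^ (c1 * lg n - 1) ≤ (ht W Q ω (Jn n Q.card g) t).card ∧
      ¬ Up W Q g ω t).card * (n + 2) ^ 25 ≤ Fintype.card (Fm n) := by
  obtain ⟨hlg, -⟩ := lg_spec n
  have hlg0 : 1 ≤ lg n := by
    rcases Nat.eq_zero_or_pos (lg n) with h | h
    · rw [h] at hlg
      omega
    · exact h
  have hL : c1 * lg n = 30 * lg n := rfl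
  have hgL : g ≤ Q.card + c1 * lg n := by omega
  have hJn := Jn_eq (n := n) hgL
  have hJk : Jn n Q.card g ≤ 2 ^ kb n := by
    unfold Jn
    exact Nat.pow_le_pow_right (by norm_num) (by omega)
  have hht : ∀ ω : Fm n, ht W Q ω (Jn n Q.card g) t =
      (range (Jn n Q.card g)).filter fun κ => xk (bl Q) ω κ ∈ Lv W (bl Q) t := by
    intro ω
    unfold ht
    refine filter_congr fun κ _ => ?_
    constructor
    · intro h
      exact mem_filter.2 ⟨Pool.Agent.MPa9445a.GL.vc_mem _ _, h⟩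
    · intro h
      exact (mem_filter.1 h).2
  set N : ℝ := ((Lv W (bl Q) t).card : ℝ) with hN
  set J : ℝ := (Jn n Q.card g : ℝ) with hJ
  set μ : ℝ := J * N / 2 ^ Q.card with hμ
  have h2Q : (0 : ℝ) < 2 ^ Q.card := by positivity
  have h2g : (0 : ℝ) < 2 ^ g := by positivity
  have hμ1 : μ * 2 ^ Q.card = J * N := by
    rw [hμ]
    field_simp
  have hN0 : 0 ≤ N := Nat.cast_nonneg _
  have hμ2 : μ * 2 ^ g = 2 ^ (c1 * lg n) * N := by
    have h1 : μ * 2 ^ g * 2 ^ Q.card = 2 ^ (c1 * lg n) * N * 2 ^ Q.card := by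
      have : μ * 2 ^ g * 2 ^ Q.card = (μ * 2 ^ Q.card) * 2 ^ g := by ring
      rw [this, hμ1]
      have : J * N * 2 ^ g = (J * 2 ^ g) * N := by ring
      rw [this, hJn]
      ring
    exact mul_right_cancel₀ (ne_of_gt h2Q) h1
  have hbig : ((n : ℝ) + 2) ^ 25 ≤ 2 ^ (c1 * lg n) / 4 := by
    have h1 : ((n : ℝ) + 2) ≤ 2 ^ lg n := by exact_mod_cast hlg
    have h2 : ((n : ℝ) + 2) ^ 30 ≤ 2 ^ (c1 * lg n) := by
      rw [hL, mul_comm, pow_mul]
      exact pow_le_pow_left₀ (by positivity) h1 30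
    have h3 : (2 : ℝ) ^ 5 ≤ ((n : ℝ) + 2) ^ 5 :=
      pow_le_pow_left₀ (by norm_num) (by linarith [(Nat.cast_nonneg n : (0 : ℝ) ≤ n)]) 5
    have h4 : ((n : ℝ) + 2) ^ 30 = ((n : ℝ) + 2) ^ 25 * ((n : ℝ) + 2) ^ 5 := by ring
    have h5 : (0 : ℝ) ≤ ((n : ℝ) + 2) ^ 25 := by positivity
    rw [h4] at h2
    nlinarith
  have key : ∀ lam : ℝ, (2 : ℝ) ^ (c1 * lg n) / 4 ≤ lam → μ ≤ lam →
      (∀ ω : Fm n, 2 ^ (c1 * lg n - 1) ≤ (ht W Q ω (Jn n Q.card g) t).card →
        ¬ Up W Q g ω t → lam < |((ht W Q ω (Jn n Q.card g) t).card : ℝ) - μ|) →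
      (univ.filter fun ω : Fm n => 2 ^ (c1 * lg n - 1) ≤ (ht W Q ω (Jn n Q.card g) t).card ∧
        ¬ Up W Q g ω t).card * (n + 2) ^ 25 ≤ Fintype.card (Fm n) := by
    intro lam hl1 hl2 hl3
    have hlam : 0 < lam := lt_of_lt_of_le (by positivity) hl1
    have hc := concV (Q := Q) (𝒯 := Lv W (bl Q) t) (filter_subset _ _) hJk hlam
    rw [← hN, ← hJ, ← hμ] at hc
    set K : ℕ := (univ.filter fun ω : Fm n =>
      2 ^ (c1 * lg n - 1) ≤ (ht W Q ω (Jn n Q.card g) t).card ∧ ¬ Up W Q g ω t).card with hK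
    have hsub : K ≤ (univ.filter fun ω : Fm n =>
        lam < |(((range (Jn n Q.card g)).filter fun κ => xk (bl Q) ω κ ∈ Lv W (bl Q) t).card : ℝ) -
          μ|).card := by
      rw [hK]
      refine card_le_card ?_
      intro ω hω
      rw [mem_filter] at hω ⊢
      refine ⟨mem_univ _, ?_⟩
      have h1 := hl3 ω hω.2.1 hω.2.2
      rwa [hht ω] at h1
    have hsub' : (K : ℝ) ≤ ((univ.filter fun ω : Fm n =>
        lam < |(((range (Jn n Q.card g)).filter fun κ => xk (bl Q) ω κ ∈ Lv W (bl Q) t).card : ℝ) -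
          μ|).card : ℝ) := by exact_mod_cast hsub
    have h1 : (K : ℝ) * (lam ^ 2 * 2 ^ Q.card) ≤ J * N * Fintype.card (Fm n) :=
      le_trans (mul_le_mul_of_nonneg_right hsub' (by positivity)) hc
    rw [← hμ1] at h1
    have hF0 : (0 : ℝ) ≤ Fintype.card (Fm n) := Nat.cast_nonneg _
    have h2 : (K : ℝ) * lam * (lam * 2 ^ Q.card) ≤ Fintype.card (Fm n) * (lam * 2 ^ Q.card) := by
      calc (K : ℝ) * lam * (lam * 2 ^ Q.card) = (K : ℝ) * (lam ^ 2 * 2 ^ Q.card) := by ring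
        _ ≤ μ * 2 ^ Q.card * Fintype.card (Fm n) := h1
        _ ≤ lam * 2 ^ Q.card * Fintype.card (Fm n) :=
            mul_le_mul_of_nonneg_right (mul_le_mul_of_nonneg_right hl2 (le_of_lt h2Q)) hF0
        _ = Fintype.card (Fm n) * (lam * 2 ^ Q.card) := by ring
    have h3 : (K : ℝ) * lam ≤ Fintype.card (Fm n) :=
      le_of_mul_le_mul_right h2 (mul_pos hlam h2Q)
    have h4 : (K : ℝ) * ((n : ℝ) + 2) ^ 25 ≤ Fintype.card (Fm n) :=
      le_trans (mul_le_mul_of_nonneg_left (le_trans hbig hl1) (Nat.cast_nonneg _)) h3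
    exact_mod_cast h4
  have hpw : (2 : ℝ) ^ (c1 * lg n - 1) = 2 ^ (c1 * lg n) / 2 := by
    have h1 : c1 * lg n = (c1 * lg n - 1) + 1 := by omega
    rw [h1, Nat.add_sub_cancel, pow_succ]
    ring
  have h2L : (0 : ℝ) < 2 ^ (c1 * lg n) := by positivity
  by_cases hcase : 2 ^ g ≤ 4 * (Lv W (bl Q) t).card
  · have hcase' : (2 : ℝ) ^ g ≤ 4 * N := by
      rw [hN]
      exact_mod_cast hcase
    have hμ3 : (2 : ℝ) ^ (c1 * lg n) / 4 ≤ μ := by
      have h1 : (2 : ℝ) ^ (c1 * lg n) / 4 * 2 ^ g ≤ μ * 2 ^ g := by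
        rw [hμ2]
        nlinarith
      exact le_of_mul_le_mul_right h1 h2g
    refine key μ hμ3 (le_refl _) ?_
    intro ω hω1 hω2
    have h1 : ¬ ((ht W Q ω (Jn n Q.card g) t).card : ℝ) * 2 ^ Q.card ≤ 2 * (J * N) := by
      intro h
      exact hω2 ⟨hcase, h⟩
    rw [not_le, ← hμ1] at h1
    have h2 : 2 * μ < ((ht W Q ω (Jn n Q.card g) t).card : ℝ) := by
      have h3 : 2 * μ * 2 ^ Q.card < ((ht W Q ω (Jn n Q.card g) t).card : ℝ) * 2 ^ Q.card := by
        linarith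
      exact lt_of_mul_lt_mul_right h3 (le_of_lt h2Q)
    have h3 := le_abs_self (((ht W Q ω (Jn n Q.card g) t).card : ℝ) - μ)
    linarith
  · have hcase' : 4 * N < (2 : ℝ) ^ g := by
      rw [hN]
      exact_mod_cast not_le.1 hcase
    have hμ3 : μ < (2 : ℝ) ^ (c1 * lg n) / 4 := by
      have h1 : μ * 2 ^ g < (2 : ℝ) ^ (c1 * lg n) / 4 * 2 ^ g := by
        rw [hμ2]
        nlinarith
      exact lt_of_mul_lt_mul_right h1 (le_of_lt h2g)
    refine key ((2 : ℝ) ^ (c1 * lg n) / 4) (le_refl _) (le_of_lt hμ3) ?_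
    intro ω hω1 hω2
    have h1 : (2 : ℝ) ^ (c1 * lg n - 1) ≤ ((ht W Q ω (Jn n Q.card g) t).card : ℝ) := by
      exact_mod_cast hω1
    rw [hpw] at h1
    have h3 := le_abs_self (((ht W Q ω (Jn n Q.card g) t).card : ℝ) - μ)
    linarith

end Pool.Agent.MPa9445a.SB
end

section

section

/-! Patterns. -/

set_option autoImplicit false

open Finset
open scoped symmDiff

namespace Pool.Agent.MPa9445a.SX

open Pool.Agent.MPa9445a.BE
open Pool.Agent.MPa9445a.SN (ST Fm rs kb)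
open Pool.Agent.MPa9445a.GL (Vc S Ph Lv Fr lvl LL lvv YS sv rc xk fR)
open Pool.Agent.MPa9445a.SB (Rf ht Ag Pl gr)

variable {n : ℕ}

/-- The signs. PROOF. The sum is `0` iff all its terms are `0`; `Fin l` and `range l`. -/
theorem agc_iff (hn : 0 < n) (l x : ℕ) (v : List ℤ) :
    agc n l x v = 0 ↔ Ag (pw n l x hn) (fv n v) := by
  unfold agc
  rw [Finset.sum_eq_zero_iff]
  constructor
  · intro h i
    have h1 := h (i : ℕ) (Finset.mem_range.2 i.isLt)
    have h2 : gt v (dgt n x i / 2) = (if dgt n x i % 2 = 1 then 1 else -1) := by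
      by_contra hc
      rw [if_neg hc] at h1
      exact one_ne_zero h1
    show gt v (dgt n x i / 2) = if decide (dgt n x i % 2 = 1) = true then 1 else -1
    rw [h2]
    simp only [decide_eq_true_eq]
  · intro h i hi
    have h1 : gt v (dgt n x i / 2) = if decide (dgt n x i % 2 = 1) = true then 1 else -1 :=
      h ⟨i, Finset.mem_range.1 hi⟩
    simp only [decide_eq_true_eq] at h1
    rw [if_pos h1]

/-- Every pattern has an index. PROOF. Digits in base `2 n`: `x = ∑ i, (2 * (w i).1 + (w i).2) * (2 n) ^ i`, e.g. by `finFunctionFinEquiv` (`Fin l → Fin (2 * n)`) or by induction over `l`. -/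
theorem pw_surj (hn : 0 < n) (l : ℕ) (w : Pl n l) : ∃ x < (2 * n) ^ l, pw n l x hn = w := by
  have hd : ∀ i, 2 * ((w i).1 : ℕ) + (if (w i).2 then 1 else 0) < 2 * n := by
    intro i
    have := (w i).1.isLt
    split_ifs <;> omega
  refine ⟨(finFunctionFinEquiv (m := 2 * n) (n := l) fun i => ⟨_, hd i⟩ : Fin ((2 * n) ^ l)).val, Fin.isLt _, ?_⟩
  funext i
  have key : dgt n (finFunctionFinEquiv (m := 2 * n) (n := l) fun i => ⟨_, hd i⟩ : Fin ((2 * n) ^ l)).val i =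
      2 * ((w i).1 : ℕ) + (if (w i).2 then 1 else 0) := by
    have h1 := congrFun ((finFunctionFinEquiv (m := 2 * n) (n := l)).symm_apply_apply
      (fun i => ⟨_, hd i⟩)) i
    exact congrArg Fin.val h1
  refine Prod.ext (Fin.ext ?_) ?_
  · show dgt n _ i / 2 = ((w i).1 : ℕ)
    rw [key]
    split_ifs <;> omega
  · show decide (dgt n _ i % 2 = 1) = (w i).2
    rw [key]
    cases h : (w i).2
    · simp
    · simp only [if_true, decide_eq_true_eq]
      omega

end Pool.Agent.MPa9445a.SX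
end

section

/-! Frequencies. -/

set_option autoImplicit false

open Finset
open scoped symmDiff

namespace Pool.Agent.MPa9445a.SX

open Pool.Agent.MPa9445a.BE
open Pool.Agent.MPa9445a.SN (ST Fm rs kb)
open Pool.Agent.MPa9445a.GL (Vc S Ph Lv Fr lvl LL lvv YS sv rc xk fR)
open Pool.Agent.MPa9445a.SB (Rf ht Ag Pl gr)

variable {n : ℕ}

/-- The frequencies. PROOF. `length_flt`, `agc_iff`, `fv_smp`, `GL.Phi_Ph`; `gt x v = fv n x v`. -/
theorem grN_gr (hn : 0 < n) (M R : List ℤ) (o : ℕ) {Q : Finset (Fin n)} {s : List ℤ}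
    (hs : fv n s = SB.bl Q) (e : ℕ) (t : ℤ) (l m x : ℕ) (v : Fin n) :
    grN n M R o s e t l m x v = gr (wtm n M) Q (fR n R o) (2 ^ e) t (pw n l x hn) m v := by
  have key : ∀ κ : ℕ, (Phi n M (sv n s (rc n R o κ)) = t ∧ agc n l x (sv n s (rc n R o κ)) = 0) ↔
      (Ph (wtm n M) (xk (SB.bl Q) (fR n R o) κ) = t ∧
        Ag (pw n l x hn) (xk (SB.bl Q) (fR n R o) κ)) := by
    intro κ
    rw [agc_iff hn, GL.Phi_Ph, fv_smp R o hs κ]
  have hv : ∀ κ : ℕ, gt (sv n s (rc n R o κ)) v = xk (SB.bl Q) (fR n R o) κ v := by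
    intro κ
    rw [← fv_smp R o hs κ]
    rfl
  have h1 : (HA n M R o s e t l x).length =
      ((ht (wtm n M) Q (fR n R o) (2 ^ e) t).filter fun κ =>
        Ag (pw n l x hn) (xk (SB.bl Q) (fR n R o) κ)).card := by
    unfold HA
    rw [length_flt]
    congr 1
    unfold ht
    rw [Finset.filter_filter]
    apply Finset.filter_congr
    intro κ _
    exact key κ
  have h2 : (HV n M R o s e t l x v).length =
      ((ht (wtm n M) Q (fR n R o) (2 ^ e) t).filter fun κ =>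
        Ag (pw n l x hn) (xk (SB.bl Q) (fR n R o) κ) ∧ xk (SB.bl Q) (fR n R o) κ v = 1).card := by
    unfold HV
    rw [length_flt]
    congr 1
    unfold ht
    rw [Finset.filter_filter]
    apply Finset.filter_congr
    intro κ _
    rw [key κ, hv κ, and_assoc]
  unfold grN gr
  rw [h1, h2]

end Pool.Agent.MPa9445a.SX
end

section
/-! The step for the success probability. -/

set_option autoImplicit false
set_option synthInstance.maxSize 1000

open Finset

namespace Pool.Agent.MPa9445a.SB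

open Pool.Agent.MPa9445a.SN (Fm rs kb)
open Pool.Agent.MPa9445a.GL (Vc S Ph Lv T Par lvl LL la2 fl Wb on off pl xk)

/-- If every present level of every round finds `u` then the procedure finds `u`. PROOF. `nd_some`: a complete list contains `u`; the parity of `Ph W u` is right; otherwise the answer is `oA` of a round and a level with `Pr`. -/
theorem Fd_nd {n : ℕ} {W : Matrix (Fin n) (Fin n) ℤ} {Go : Rf n} {R : ℕ} {h : Hm n R}
    {φ : Finset (Fin n) → Finset (Fin n) → Finset (Fin n)} {P : Lev} {E : ℕ → Rf n} {g : ℕ → ℕ}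
    {Q : Finset (Fin n)} {u : Vc n} (hu : u ∈ S (bl Q)) {ω : Sr n}
    (H : ∀ (z : Fin n), ∀ t ∈ lvl n, Pr W Q (g Q.card) (ω z) t →
      u ∈ oA W Go h φ P E Q (g Q.card) (Ph W u) (ω z) t) :
    Fd W (nd W Go h φ P E g ω) Q u := by
  intro j A hA
  have hu' : u ∈ Lv W (bl Q) (Ph W u) := by
    unfold Lv
    exact Finset.mem_filter.2 ⟨hu, rfl⟩
  rcases nd_some hA with h1 | ⟨h1, _⟩ | ⟨z, t, ht, hok, h1⟩
  · rw [h1]
    exact hu'
  · have h2 := Pool.Agent.MPa9445a.GL.not_Par W h1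
    rw [h2] at hu'
    exact absurd hu' (Finset.notMem_empty _)
  · rw [h1]
    exact H z t ht hok.pr

open scoped Classical in
/-- The number of the bits of a level such that a bad event of one round occurs in some round. -/
theorem some_round {n : ℕ} (B : Rr n → Prop) {ε : ℝ}
    (hB : ((univ.filter fun r : Rr n => B r).card : ℝ) ≤ ε * Fintype.card (Rr n)) :
    ((univ.filter fun ω : Sr n => ∃ z, B (ω z)).card : ℝ) ≤ n * ε * Fintype.card (Sr n) := by
  have hne : (0 : ℝ) < Fintype.card (Rr n) := by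
    have : Nonempty (Rr n) := inferInstance
    exact_mod_cast Fintype.card_pos
  have h1 : ∀ z : Fin n, ((univ.filter fun ω : Sr n => B (ω z)).card : ℝ) ≤ ε * Fintype.card (Sr n) := by
    intro z
    have h2 := sum_round z (fun r => if B r then (1 : ℝ) else 0)
    have h3 : (∑ ω : Sr n, if B (ω z) then (1 : ℝ) else 0) =
        ((univ.filter fun ω : Sr n => B (ω z)).card : ℝ) := by
      rw [Finset.sum_boole]
    have h4 : (∑ r : Rr n, if B r then (1 : ℝ) else 0) = ((univ.filter fun r : Rr n => B r).card : ℝ) := by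
      rw [Finset.sum_boole]
    rw [h3, h4] at h2
    have h5 : (Fintype.card (Sr n) : ℝ) * ((univ.filter fun r : Rr n => B r).card : ℝ) ≤
        (Fintype.card (Sr n) : ℝ) * (ε * Fintype.card (Rr n)) :=
      mul_le_mul_of_nonneg_left hB (Nat.cast_nonneg _)
    rw [← h2] at h5
    have h6 : (Fintype.card (Sr n) : ℝ) * (ε * Fintype.card (Rr n)) =
        (ε * Fintype.card (Sr n)) * Fintype.card (Rr n) := by ring
    rw [h6] at h5
    exact le_of_mul_le_mul_right h5 hne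
  have h7 : (univ.filter fun ω : Sr n => ∃ z, B (ω z)).card ≤
      ∑ z : Fin n, (univ.filter fun ω : Sr n => B (ω z)).card := by
    refine le_trans (Finset.card_le_card ?_) Finset.card_biUnion_le
    intro ω hω
    obtain ⟨z, hz⟩ := (Finset.mem_filter.1 hω).2
    exact Finset.mem_biUnion.2 ⟨z, Finset.mem_univ _, Finset.mem_filter.2 ⟨Finset.mem_univ _, hz⟩⟩
  calc ((univ.filter fun ω : Sr n => ∃ z, B (ω z)).card : ℝ)
      ≤ ∑ z : Fin n, ((univ.filter fun ω : Sr n => B (ω z)).card : ℝ) := by exact_mod_cast h7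
    _ ≤ ∑ _z : Fin n, ε * Fintype.card (Sr n) := Finset.sum_le_sum fun z _ => h1 z
    _ = n * ε * Fintype.card (Sr n) := by
        rw [Finset.sum_const, Finset.card_univ, Fintype.card_fin, nsmul_eq_mul]
        ring

end Pool.Agent.MPa9445a.SB
end
end

section

section

/-! The loop: failure. -/

set_option autoImplicit false

open Finset
open scoped symmDiff

namespace Pool.Agent.MPa9445a.SX

open Pool.Agent.MPa9445a.BE
open Pool.Agent.MPa9445a.SN (ST Fm rs kb)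
open Pool.Agent.MPa9445a.GL (Vc S Ph Lv Fr lvl LL lvv la rh Pc Cpl cdv jn pok sj run)
open Pool.Agent.MPa9445a.SB (Rf)

variable {n : ℕ}

/-- The cost of the pass `y`. -/
private noncomputable def T3_co (F : Rf n) (Q : Finset (Fin n)) (D : ℕ → Finset (Fin n)) (q : ℤ) (y : ℕ) : ℕ :=
  if GL.inl n (q - lvv n (y % LL n)) then
    SB.pc F (D (y / LL n)) (Q \ D (y / LL n)) (lvv n (y % LL n)) (q - lvv n (y % LL n)) else 0

private theorem T3_LL (n : ℕ) : 0 < LL n := by unfold LL; omega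

private theorem T3_sy {Q : Finset (Fin n)} {E : Pc} {F : Rf n} (hE : Rp n Q E F) (hF : Fin2 Q F)
    {s : List ℤ} (hs : fv n s = SB.bl Q) {K : ℕ} {d : ℕ → ℕ} {D : ℕ → Finset (Fin n)}
    (hd : ∀ κ < K, ST n (d κ) = D κ ∧ D κ ⊆ Q) (q : ℤ) {y : ℕ} (hy : y < K * LL n)
    (hi : GL.inl n (q - lvv n (y % LL n))) (c : ℕ) :
    GL.sy1 E n s d q y c = if SB.pc F (D (y / LL n)) (Q \ D (y / LL n)) (lvv n (y % LL n))
      (q - lvv n (y % LL n)) ≤ c then
      [((SB.pj F (D (y / LL n)) (Q \ D (y / LL n)) (lvv n (y % LL n)) (q - lvv n (y % LL n)) : ℕ) : ℤ)]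
      else [] := by
  have hk : y / LL n < K := Nat.div_lt_of_lt_mul (by rwa [mul_comm] at hy)
  obtain ⟨h1, h2⟩ := hd _ hk
  unfold GL.sy1
  refine sj_eq hE hF h2 sdiff_subset ?_ ?_ (GL.lvv_mem (Nat.mod_lt _ (T3_LL n)))
    ((GL.inl_iff _).1 hi) c
  · rw [GL.fv_laL, hs, h1, la_bl h2]
  · rw [GL.fv_rhL, hs, h1, rh_bl]

private theorem T3_rem {Q : Finset (Fin n)} {E : Pc} {F : Rf n} (hE : Rp n Q E F) (hF : Fin2 Q F)
    {s : List ℤ} (hs : fv n s = SB.bl Q) {K : ℕ} {d : ℕ → ℕ} {D : ℕ → Finset (Fin n)}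
    (hd : ∀ κ < K, ST n (d κ) = D κ ∧ D κ ⊆ Q) (q : ℤ) (b : ℕ) (k : ℕ) (hk : k ≤ K * LL n) :
    GL.rem E n s d q b k = if ∑ y ∈ range k, T3_co F Q D q y ≤ 2 ^ b then
      [(2 : ℤ) ^ b - ((∑ y ∈ range k, T3_co F Q D q y : ℕ) : ℤ)] else [] := by
  induction k with
  | zero => simp [GL.rem_zero]
  | succ k ih =>
    have ih' := ih (by omega)
    rw [GL.rem_succ, Finset.sum_range_succ]
    by_cases h1 : ∑ y ∈ range k, T3_co F Q D q y ≤ 2 ^ b
    · rw [if_pos h1] at ih'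
      by_cases hi : GL.inl n (q - lvv n (k % LL n))
      · have hco : T3_co F Q D q k = SB.pc F (D (k / LL n)) (Q \ D (k / LL n)) (lvv n (k % LL n))
          (q - lvv n (k % LL n)) := by unfold T3_co; rw [if_pos hi]
        rw [if_neg (by rw [ih']; simp [hi]), ih']
        have hg : gt [(2 : ℤ) ^ b - ((∑ y ∈ range k, T3_co F Q D q y : ℕ) : ℤ)] 0 =
          (2 : ℤ) ^ b - ((∑ y ∈ range k, T3_co F Q D q y : ℕ) : ℤ) := rfl
        rw [hg, T3_sy hE hF hs hd q (by omega) hi]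
        have ht : ((2 : ℤ) ^ b - ((∑ y ∈ range k, T3_co F Q D q y : ℕ) : ℤ)).toNat =
            2 ^ b - ∑ y ∈ range k, T3_co F Q D q y := by
          have : (2 : ℤ) ^ b - ((∑ y ∈ range k, T3_co F Q D q y : ℕ) : ℤ) =
            ((2 ^ b - ∑ y ∈ range k, T3_co F Q D q y : ℕ) : ℤ) := by
            rw [Nat.cast_sub h1]; push_cast; rfl
          rw [this, Int.toNat_natCast]
        rw [ht, ← hco]
        by_cases h2 : T3_co F Q D q k ≤ 2 ^ b - ∑ y ∈ range k, T3_co F Q D q y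
        · rw [if_pos h2, if_neg (by simp), if_pos (by omega)]
          have h3 : gt [((SB.pj F (D (k / LL n)) (Q \ D (k / LL n)) (lvv n (k % LL n))
            (q - lvv n (k % LL n)) : ℕ) : ℤ)] 0 = ((SB.pj F (D (k / LL n)) (Q \ D (k / LL n))
            (lvv n (k % LL n)) (q - lvv n (k % LL n)) : ℕ) : ℤ) := rfl
          rw [h3, Int.toNat_natCast, hco]
          unfold SB.pc
          push_cast
          congr 1
          ring
        · rw [if_neg h2, if_pos (by simp), if_neg (by omega)]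
      · have hco : T3_co F Q D q k = 0 := by unfold T3_co; rw [if_neg hi]
        rw [if_pos (Or.inr hi), ih', hco, add_zero, if_pos h1]
    · rw [if_neg h1] at ih'
      rw [ih', if_pos (show ([] : List ℤ).length = 0 ∨ ¬ GL.inl n (q - lvv n (k % LL n)) from Or.inl rfl),
        if_neg (by omega)]

private theorem T3_sum (L : ℕ) (hL : 0 < L) (g : ℕ → ℕ → ℕ) (K : ℕ) :
    ∑ y ∈ range (K * L), g (y / L) (y % L) = ∑ κ ∈ range K, ∑ a ∈ range L, g κ a := by
  induction K with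
  | zero => simp
  | succ K ih =>
    rw [Nat.succ_mul, Finset.sum_range_add, ih, Finset.sum_range_succ]
    congr 1
    refine Finset.sum_congr rfl fun a ha => ?_
    have ha' := Finset.mem_range.1 ha
    have h1 : (K * L + a) / L = K := by
      rw [mul_comm, Nat.mul_add_div hL, Nat.div_eq_of_lt ha', add_zero]
    have h2 : (K * L + a) % L = a := by
      rw [mul_comm, Nat.mul_add_mod, Nat.mod_eq_of_lt ha']
    rw [h1, h2]

private theorem T3_cR (F : Rf n) (Q : Finset (Fin n)) (D : ℕ → Finset (Fin n)) (q : ℤ) (K : ℕ) :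
    ∑ y ∈ range (K * LL n), T3_co F Q D q y = SB.cR F Q D K q := by
  classical
  unfold SB.cR SB.cD GL.la2
  rw [show (∑ y ∈ range (K * LL n), T3_co F Q D q y) = ∑ y ∈ range (K * LL n),
    (fun κ a => if GL.inl n (q - lvv n a) then
      SB.pc F (D κ) (Q \ D κ) (lvv n a) (q - lvv n a) else 0) (y / LL n) (y % LL n) from rfl,
    T3_sum (LL n) (T3_LL n) (fun κ a => if GL.inl n (q - lvv n a) then
      SB.pc F (D κ) (Q \ D κ) (lvv n a) (q - lvv n a) else 0) K]
  refine Finset.sum_congr rfl fun κ _ => ?_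
  rw [Finset.sum_filter, ← GL.sum_lvl]
  refine Finset.sum_congr rfl fun a _ => ?_
  by_cases hi : GL.inl n (q - lvv n a)
  · rw [if_pos hi, if_pos ((GL.inl_iff _).1 hi)]
  · rw [if_neg hi, if_neg (fun h => hi ((GL.inl_iff _).2 h))]

/-- The loop fails iff its cost is larger than the budget. PROOF. `run = []` iff `rem .. (K * LL n) = []` (`GL/T`). By `sj_eq` for every `y = κ * LL n + a'` with `inl n (q - a)`, `a = lvv n a'`, the search with
limit `c` gives `[pj]` if `pc ≤ c` and `[]` otherwise (`laL`, `rhL`: `GL.fv_laL`, `GL.fv_rhL`, `la_bl`, `rh_bl`). So by induction over `k` the remaining budget before the pass `k` is `[2 ^ b - ∑ y < k, cost y]` if this sum is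
`≤ 2 ^ b` and `[]` otherwise, `cost y = pc` if `inl` and `0` otherwise (the costs are `≥ 0`, so the partial sums are monotone). The whole sum is `cR` (`GL.sum_lvl`, `GL.inl_iff`, `SB.cD` is the sum over `la2 n q`, the levels `a` with
`q - a ∈ lvl n`; the sum over `y < K * LL n` as double sum: see `Q4b_sum` in `GL/Q4b`). -/
theorem run_nil {Q : Finset (Fin n)} {E : Pc} {F : Rf n} (hE : Rp n Q E F) (hF : Fin2 Q F)
    {s : List ℤ} (hs : fv n s = SB.bl Q) {K : ℕ} {d : ℕ → ℕ} {D : ℕ → Finset (Fin n)}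
    (hd : ∀ κ < K, ST n (d κ) = D κ ∧ D κ ⊆ Q) (M : List ℤ) (q p : ℤ) (b : ℕ) :
    (run E n M s K d q p b).length = 0 ↔ ¬ SB.cR F Q D K q ≤ 2 ^ b := by
  unfold GL.run
  rw [T3_rem hE hF hs hd q b (K * LL n) le_rfl, T3_cR]
  by_cases h : SB.cR F Q D K q ≤ 2 ^ b
  · rw [if_pos h]
    simp [h]
  · rw [if_neg h]
    simp [h]

end Pool.Agent.MPa9445a.SX
end

section

/-! The loop: result. -/

set_option autoImplicit false

open Finset
open scoped symmDiff

namespace Pool.Agent.MPa9445a.SX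

open Pool.Agent.MPa9445a.BE
open Pool.Agent.MPa9445a.SN (ST Fm rs kb)
open Pool.Agent.MPa9445a.GL (Vc S Ph Lv Fr lvl LL lvv la rh Pc Cpl cdv jn pok sj run tl)
open Pool.Agent.MPa9445a.SB (Rf)

variable {n : ℕ}

private theorem T4_tl (L : List ℤ) (z : ℤ) : tl (z :: L) = L := by
  unfold tl tb
  apply List.ext_getElem
  · simp
  · intro i h1 h2
    simp only [List.length_cons, Nat.add_sub_cancel, List.getElem_map, List.getElem_range, gt]
    rw [Nat.add_comm 1 i, List.getD_cons_succ, List.getD_eq_getElem _ _ h2]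

/-- If one of the answers has length at most `1` then the composed list is empty. -/
private theorem T4_jn_nil (M l r A B : List ℤ) (p : ℤ) (h : A.length ≤ 1 ∨ B.length ≤ 1) :
    jn n M l r A B p = [] := by
  have h1 := GL.length_jn_le n M l r A B p
  have h2 : (A.length - 1) * (B.length - 1) = 0 := by
    rcases h with h | h
    · rw [Nat.sub_eq_zero_of_le h, Nat.zero_mul]
    · rw [Nat.sub_eq_zero_of_le h, Nat.mul_zero]
  exact List.length_eq_zero_iff.1 (by omega)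

/-- If the set is empty or missing, then the answer has length at most `1`. -/
private theorem T4_len {X : Finset (Fin n)} {l : List ℤ} {a : Option (Finset (Vc n))}
    (h : Ra X l a) (ha : a.getD ∅ = ∅) : l.length ≤ 1 := by
  rcases h with ⟨_, h2⟩ | ⟨A, L, h1, h2, h3, _⟩
  · rw [h2]
    simp
  · rw [h1] at ha
    have h4 : A = ∅ := ha
    rw [h2, (Cpl_nil h3).2 h4]
    simp

/-- The elements of the result of a pair which is finished. PROOF. `E l a g` is `[]` or `1 :: LA` with `Cpl LA A`, `F X a g = some A`, the same for `r`. As `GL.mem_jn_pok` (`GL/Q3`): if `POk` holds because one of the sets is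
empty then both sides are empty (`GL.length_jn_le`), otherwise `mem_jn'`. -/
theorem mem_jn_POk {Q X Y : Finset (Fin n)} {E : Pc} {F : Rf n} (hE : Rp n Q E F) (hX : X ⊆ Q)
    (hY : Y ⊆ Q) {l r : List ℤ} (hl : fv n l = SB.bl X) (hr : fv n r = SB.bl Y) {a b : ℤ}
    (ha : a ∈ lvl n) (hb : b ∈ lvl n) {g : ℕ} (h : SB.POk F X Y a b g) (M : List ℤ) (p c : ℤ) :
    c ∈ jn n M l r (E l a g) (E r b g) p ↔ ∃ u ∈ (F X a g).getD ∅, ∃ v ∈ (F Y b g).getD ∅,
      Ph (wtm n M) (u + v) = p ∧ cdv (u + v) = c := by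
  have hA := hE X hX l hl a ha g
  have hB := hE Y hY r hr b hb g
  by_cases h1 : (F X a g).getD ∅ = ∅
  · rw [T4_jn_nil M l r _ _ p (Or.inl (T4_len hA h1)), h1]
    simp
  by_cases h2 : (F Y b g).getD ∅ = ∅
  · rw [T4_jn_nil M l r _ _ p (Or.inr (T4_len hB h2)), h2]
    simp
  rcases hA with ⟨hA1, _⟩ | ⟨A, LA, hA1, hA2, hA3, hA4⟩
  · rw [hA1] at h1
    exact absurd rfl h1
  rcases hB with ⟨hB1, _⟩ | ⟨B, LB, hB1, hB2, hB3, hB4⟩
  · rw [hB1] at h2
    exact absurd rfl h2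
  rw [hA2, hB2, hA1, hB1]
  exact mem_jn' hA3 hB3 (by rw [hl]; exact hA4) (by rw [hr]; exact hB4) c

/-- The elements of the result of the loop. PROOF. As `GL.mem_run` (`GL/Q4a`): `tl (1 :: L) = L`, `GD.mem_fm`, `pj` with `sj_eq` (for `c = 2 ^ b`; every `pc ≤ 2 ^ b` because the loop does not fail: `GL.rem_spec` gives `sy1 = [g]`), `mem_jn_POk`,
`POk_pj`; `SB.oR`, `SB.po` unfolded. -/
theorem mem_run {Q : Finset (Fin n)} {E : Pc} {F : Rf n} (hE : Rp n Q E F) (hF : Fin2 Q F)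
    {s : List ℤ} (hs : fv n s = SB.bl Q) {K : ℕ} {d : ℕ → ℕ} {D : ℕ → Finset (Fin n)}
    (hd : ∀ κ < K, ST n (d κ) = D κ ∧ D κ ⊆ Q) {M : List ℤ} {q p : ℤ} {b : ℕ}
    (h : (run E n M s K d q p b).length ≠ 0) (c : ℤ) :
    c ∈ tl (run E n M s K d q p b) ↔ ∃ x ∈ SB.oR (wtm n M) F Q D K q p, cdv x = c := by
  have hrem : (GL.rem E n s d q b (K * LL n)).length ≠ 0 := by
    intro h0
    apply h
    unfold run
    rw [if_pos h0]
    rfl
  have hrun : run E n M s K d q p b =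
      1 :: GD.fm (K * LL n) fun y => GL.pj E n M s (d (y / LL n)) (lvv n (y % LL n)) q p b := by
    unfold run
    rw [if_neg hrem]
  rw [hrun, T4_tl, GD.mem_fm]
  have hspec : ∀ y < K * LL n, GL.inl n (q - lvv n (y % LL n)) →
        ∃ g ≤ 2 * n, GL.sy1 E n s d q y (2 ^ b) = [(g : ℤ)] ∧
          pok (E (GL.laL n s (d (y / LL n))) (lvv n (y % LL n)) g)
            (E (GL.rhL n s (d (y / LL n))) (q - lvv n (y % LL n)) g) g := by
    rcases GL.rem_spec E n s d q b (K * LL n) with h1 | ⟨_, _, h3⟩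
    · exact absurd (by rw [h1]; rfl) hrem
    · exact h3
  have hLL : 0 < LL n := by unfold LL; omega
  have hl : ∀ κ < K, fv n (GL.laL n s (d κ)) = SB.bl (D κ) := by
    intro κ hκ
    rw [GL.fv_laL, hs, (hd κ hκ).1, la_bl (hd κ hκ).2]
  have hr : ∀ κ < K, fv n (GL.rhL n s (d κ)) = SB.bl (Q \ D κ) := by
    intro κ hκ
    rw [GL.fv_rhL, hs, (hd κ hκ).1, rh_bl]
  have key : ∀ κ < K, ∀ a ∈ lvl n, ∀ y < K * LL n, y / LL n = κ → lvv n (y % LL n) = a →
      q - a ∈ lvl n →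
      (c ∈ GL.pj E n M s (d κ) a q p b ↔
        ∃ x ∈ SB.po F (D κ) (Q \ D κ) a (q - a), Ph (wtm n M) x = p ∧ cdv x = c) := by
    intro κ hκ a ha y hy hyκ hya hqa
    have hi : GL.inl n (q - a) := (GL.inl_iff _).2 hqa
    obtain ⟨g, hg, h5, _⟩ := hspec y hy (by rw [hya]; exact hi)
    have h8 : sj E n (GL.laL n s (d κ)) a (GL.rhL n s (d κ)) (q - a) (2 ^ b) = [(g : ℤ)] := by
      rw [← hyκ, ← hya]
      exact h5
    have h9 := sj_eq hE hF (hd κ hκ).2 (sdiff_subset : Q \ D κ ⊆ Q) (hl κ hκ) (hr κ hκ) ha hqa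
      (2 ^ b)
    have h10 : g = SB.pj F (D κ) (Q \ D κ) a (q - a) := by
      rw [h9] at h8
      by_cases hc : SB.pc F (D κ) (Q \ D κ) a (q - a) ≤ 2 ^ b
      · rw [if_pos hc] at h8
        have h11 : ((SB.pj F (D κ) (Q \ D κ) a (q - a) : ℕ) : ℤ) = (g : ℤ) := by
          simpa using h8
        exact_mod_cast h11.symm
      · rw [if_neg hc] at h8
        exact absurd h8 (by simp)
    unfold GL.pj
    rw [if_pos hi, h8]
    have h12 : (gt [(g : ℤ)] 0).toNat = g := by simp [gt]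
    rw [h12, h10, mem_jn_POk hE (hd κ hκ).2 (sdiff_subset : Q \ D κ ⊆ Q) (hl κ hκ) (hr κ hκ) ha hqa
      (POk_pj hF (hd κ hκ).2 (sdiff_subset : Q \ D κ ⊆ Q) ha hqa)]
    unfold SB.po
    constructor
    · rintro ⟨u, hu, v, hv, h13, h14⟩
      exact ⟨u + v, mem_image.2 ⟨(u, v), mem_product.2 ⟨hu, hv⟩, rfl⟩, h13, h14⟩
    · rintro ⟨x, hx, h13, h14⟩
      obtain ⟨⟨u, v⟩, huv, rfl⟩ := mem_image.1 hx
      obtain ⟨hu, hv⟩ := mem_product.1 huv
      exact ⟨u, hu, v, hv, h13, h14⟩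
  constructor
  · rintro ⟨y, hy, hc⟩
    have hκ : y / LL n < K := Nat.div_lt_of_lt_mul (by rw [Nat.mul_comm]; exact hy)
    by_cases hi : GL.inl n (q - lvv n (y % LL n))
    · have ha : lvv n (y % LL n) ∈ lvl n := GL.lvv_mem (Nat.mod_lt _ hLL)
      have hqa := (GL.inl_iff _).1 hi
      obtain ⟨x, hx, hp, hcd⟩ := (key _ hκ _ ha y hy rfl rfl hqa).1 hc
      refine ⟨x, ?_, hcd⟩
      unfold SB.oR
      rw [mem_filter]
      refine ⟨mem_biUnion.2 ⟨y / LL n, mem_range.2 hκ, mem_biUnion.2 ⟨lvv n (y % LL n), ?_, hx⟩⟩, hp⟩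
      unfold GL.la2
      exact mem_filter.2 ⟨ha, hqa⟩
    · unfold GL.pj at hc
      rw [if_neg hi] at hc
      simp at hc
  · rintro ⟨x, hx, hcx⟩
    unfold SB.oR at hx
    rw [mem_filter] at hx
    obtain ⟨hx, hp⟩ := hx
    obtain ⟨κ, hκ, hx⟩ := mem_biUnion.1 hx
    obtain ⟨a, ha, hx⟩ := mem_biUnion.1 hx
    have hκ := mem_range.1 hκ
    unfold GL.la2 at ha
    rw [mem_filter] at ha
    obtain ⟨a', ha', hla⟩ := GL.lvv_surj ha.1
    have e1 : (κ * LL n + a') / LL n = κ := by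
      rw [Nat.mul_comm, Nat.mul_add_div hLL, Nat.div_eq_of_lt ha', Nat.add_zero]
    have e2 : (κ * LL n + a') % LL n = a' := by
      rw [Nat.mul_comm, Nat.mul_add_mod, Nat.mod_eq_of_lt ha']
    have hy : κ * LL n + a' < K * LL n := by
      calc κ * LL n + a' < κ * LL n + LL n := by omega
        _ = (κ + 1) * LL n := by ring
        _ ≤ K * LL n := Nat.mul_le_mul_right _ hκ
    refine ⟨κ * LL n + a', hy, ?_⟩
    have h15 := (key κ hκ a ha.1 (κ * LL n + a') hy e1 (by rw [e2, hla]) ha.2).2 ⟨x, hx, hp, hcx⟩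
    rw [e1, e2, hla]
    exact h15

end Pool.Agent.MPa9445a.SX
end

section

/-! The parameters in the matrix, the numbers of tries. -/

set_option autoImplicit false

open Finset
open scoped symmDiff

namespace Pool.Agent.MPa9445a.SX

open Pool.Agent.MPa9445a.BE
open Pool.Agent.MPa9445a.SN (ST Fm rs kb)
open Pool.Agent.MPa9445a.GL (Vc S Ph Lv Fr lvl LL lvv rk rc fR bl Pc Pf Cpl cdv tl)
open Pool.Agent.MPa9445a.GS (pkM pkB dmL)
open Pool.Agent.MPa9445a.SB (Rf Lev ht Jn Cc Rr Hm Pl)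

variable {n : ℕ}

private theorem T7a_gt_tb (k : ℕ) (f : ℕ → ℤ) (i : ℕ) (h : i < k) : gt (tb k f) i = f i := by
  unfold gt tb
  rw [List.getD_eq_getElem _ _ (by simpa using h)]
  simp

private theorem T7a_idx (u v : Fin n) : (u : ℕ) * n + v < n * n := by
  have hu := u.isLt
  have hv := v.isLt
  calc (u : ℕ) * n + v < u * n + n := by omega
    _ = (u + 1) * n := by ring
    _ ≤ n * n := Nat.mul_le_mul_right _ hu

/-- PROOF. `wtm`, `BE.wt` only use the entries `u * n + v < n * n`. -/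
theorem wtm_pkM (M : List ℤ) (m : ℕ) : wtm n (pkM n M m) = wtm n M := by
  funext u v
  have hi := T7a_idx u v
  unfold wtm wt pkM
  rw [T7a_gt_tb _ _ _ (by omega), if_pos hi]

/-- PROOF. As `wtm_pkM`. -/
theorem wtm_pkB (M : List ℤ) (m Θ : ℕ) (w x y : List ℤ) : wtm n (pkB n M m Θ w x y) = wtm n M := by
  funext u v
  have hi := T7a_idx u v
  unfold wtm wt pkB
  rw [T7a_gt_tb _ _ _ (by omega), if_pos hi]

variable {Q : Finset (Fin n)} {s : List ℤ}

/-- PROOF. `YS_ht`, `lgn_lg`, `rk_bl`. -/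
theorem hN_eq (M R : List ℤ) (o : ℕ) (hs : fv n s = SB.bl Q) (g : ℕ) (t : ℤ) :
    hN n M R o s g t = (ht (wtm n M) Q (fR n R o) (Jn n Q.card g) t).card := by
  unfold hN
  rw [YS_ht M R o hs, rk_bl hs]
  unfold jx SB.Jn
  rw [lgn_lg]

/-- PROOF. `hN_eq`, `lgn_lg`, `lgB_log` (the number of samples of value `t` is at most `2 ^ jx`). -/
theorem exL_eq (M R : List ℤ) (o : ℕ) (hs : fv n s = SB.bl Q) (g : ℕ) (t : ℤ) (c : ℕ) :
    exL n M R o s g t c = SB.ex n c g (ht (wtm n M) Q (fR n R o) (Jn n Q.card g) t).card := by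
  unfold exL SB.ex
  rw [hN_eq M R o hs g t, lgB_log, lgn_lg]
  have h1 : (ht (wtm n M) Q (fR n R o) (Jn n Q.card g) t).card ≤ Jn n Q.card g := by
    unfold SB.ht
    refine (Finset.card_filter_le _ _).trans ?_
    rw [Finset.card_range]
  have h2 : Jn n Q.card g = 2 ^ jx n (rk s n) g := by
    unfold jx SB.Jn
    rw [lgn_lg, rk_bl hs]
  rw [pow_succ, ← h2]
  have h3 : 0 < Jn n Q.card g := by
    unfold SB.Jn
    positivity
  omega

/-- The hypothesis on the dimension of the code. -/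
def HD (n : ℕ) (R : List ℤ) : Prop := ∀ (Q : Finset (Fin n)) (s : List ℤ), fv n s = SB.bl Q →
  dmL n R s = Nat.log 2 (Cc (hR n R) Q).card

/-- PROOF. `exL_eq`, `HD`; `GS.Rc` and `SB.Rc` are the same. -/
theorem exU_eq (M : List ℤ) {R : List ℤ} (hR' : HD n R) (o : ℕ) (hs : fv n s = SB.bl Q) (g : ℕ)
    (t : ℤ) : exL n M R o s g t (dmL n R s + GS.Rc n) =
      SB.eU (wtm n M) (hR n R) Q g (fR3 n R o) t := by
  rw [exL_eq M R o hs g t]
  unfold SB.eU fR3
  rw [hR' Q s hs]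
  rfl

variable {P : Lev} {Ch : Pf} {F : ℕ → Rf n} {M R : List ℤ}

end Pool.Agent.MPa9445a.SX
end

section

/-! The scores. -/

set_option autoImplicit false

open Finset
open scoped symmDiff

namespace Pool.Agent.MPa9445a.SX

open Pool.Agent.MPa9445a.BE
open Pool.Agent.MPa9445a.SN (ST Fm rs kb)
open Pool.Agent.MPa9445a.GL (Vc S Ph Lv Fr lvl LL lvv rk rc fR bl Pc Pf Cpl cdv tl)
open Pool.Agent.MPa9445a.GS (pkM pkB dmL)
open Pool.Agent.MPa9445a.SB (Rf Lev ht Jn Cc Rr Hm Pl Sc)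

variable {n : ℕ}

/-- The array `M'` contains the size of the block `Q`, the threshold and the scores. -/
structure PkB (n : ℕ) (Q : Finset (Fin n)) (M' : List ℤ) (Θ : ℕ) (σ : Sc n) : Prop where
  m : gt M' (n * n) = Q.card
  t : gt M' (n * n + 1) = Θ
  w : ∀ v : Fin n, gt M' (n * n + 2 + v) = if v ∈ Q then (σ.w v : ℤ) else 0
  a : ∀ v : Fin n, gt M' (n * n + 2 + n + v) = if v ∈ Q then (σ.a v : ℤ) else 0
  b : ∀ v : Fin n, gt M' (n * n + 2 + 2 * n + v) = if v ∈ Q then (σ.b v : ℤ) else 0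

/-- The hypothesis on the children in mode B. -/
def HEB (n : ℕ) (W : Matrix (Fin n) (Fin n) ℤ) (R : List ℤ) (Go : Rf n) : Prop :=
  ∀ (d : ℕ) (M' : List ℤ) (Q : Finset (Fin n)) (Θ : ℕ) (σ : Sc n), wtm n M' = W →
    PkB n Q M' Θ σ → Rp n Q (GS.EB d n M' R) (SB.EB W Go d σ Q Θ)

variable {Q : Finset (Fin n)} {s : List ℤ} {P : Lev} {M R : List ℤ} {Go : Rf n}

private theorem T8a_gt (k : ℕ) (f : ℕ → ℤ) (i : ℕ) : gt (tb k f) i = if i < k then f i else 0 := by
  show (tb k f).getD i 0 = _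
  rw [getD_tb]

private theorem T8a_two (hs : fv n s = SB.bl Q) (v : Fin n) : gt s v = 2 ↔ v ∈ Q := by
  have h := congrFun hs v
  have h1 : fv n s v = gt s v := rfl
  rw [h1] at h
  rw [h]
  unfold SB.bl
  by_cases hv : v ∈ Q
  · simp [hv]
  · simp [hv]

private theorem T8a_Jn (hs : fv n s = SB.bl Q) (g : ℕ) :
    2 ^ jx n (rk s n) g = Jn n Q.card g := by
  unfold jx Jn
  rw [rk_bl hs, lgn_lg]

private theorem T8a_sc (hn : 0 < n) (hs : fv n s = SB.bl Q) (M R : List ℤ) (o g : ℕ) (t : ℤ)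
    (l m : ℕ) (f : ℕ → ℕ) (x : ℕ) (v : Fin n) :
    gt (scL n M R o s (jx n (rk s n) g) t l m f x) v =
      if v ∈ Q then ((f (SB.gr (wtm n M) Q (fR n R o) (Jn n Q.card g) t (pw n l x hn) m v) : ℕ) : ℤ)
      else 0 := by
  unfold scL
  rw [T8a_gt, if_pos v.2]
  by_cases hv : v ∈ Q
  · rw [if_pos ((T8a_two hs v).2 hv), if_pos hv, grN_gr hn M R o hs, T8a_Jn hs]
  · rw [if_neg (fun h => hv ((T8a_two hs v).1 h)), if_neg hv]

/-- PROOF. The entries of `pkB` (`tb`), `scL`, `grN_gr`, `lgn_lg`, `rk_bl`; `gt s v = 2` iff `v ∈ Q`. -/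
theorem PkB_MB (hn : 0 < n) (hs : fv n s = SB.bl Q) (o g : ℕ) (t : ℤ) (x : ℕ) :
    PkB n Q (MB P n M R o s g t x) (P.Θ Q.card)
      (SB.sr (wtm n M) P Q (fR n R o) (Jn n Q.card g) t (pw n P.l x hn)) := by
  constructor
  · unfold MB pkB
    rw [T8a_gt, if_pos (by omega), if_neg (by omega), if_pos rfl, rk_bl hs]
  · unfold MB pkB
    rw [T8a_gt, if_pos (by omega), if_neg (by omega), if_neg (by omega), if_pos rfl, rk_bl hs]
    rfl
  · intro v
    have hv := v.2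
    unfold MB pkB
    rw [T8a_gt, if_pos (by omega), if_neg (by omega), if_neg (by omega), if_neg (by omega),
      if_pos (by omega), show n * n + 2 + (v : ℕ) - (n * n + 2) = v by omega, T8a_sc hn hs]
    rfl
  · intro v
    have hv := v.2
    unfold MB pkB
    rw [T8a_gt, if_pos (by omega), if_neg (by omega), if_neg (by omega), if_neg (by omega),
      if_neg (by omega), if_pos (by omega),
      show n * n + 2 + n + (v : ℕ) - (n * n + 2 + n) = v by omega, T8a_sc hn hs]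
    rfl
  · intro v
    have hv := v.2
    unfold MB pkB
    rw [T8a_gt, if_pos (by omega), if_neg (by omega), if_neg (by omega), if_neg (by omega),
      if_neg (by omega), if_neg (by omega),
      show n * n + 2 + 2 * n + (v : ℕ) - (n * n + 2 + 2 * n) = v by omega, T8a_sc hn hs]
    rfl

end Pool.Agent.MPa9445a.SX
end
end

section
/-! The mode B finds its targets. -/

set_option autoImplicit false
set_option synthInstance.maxSize 1000

open Finset

namespace Pool.Agent.MPa9445a.SB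

open Pool.Agent.MPa9445a.SN (Fm rs kb)
open Pool.Agent.MPa9445a.GL (Vc S Ph Lv T Par lvl LL la2 fl Wb on off pl xk)

/-- The tables of the level give the expected scores, and the places exist (`table`, `modeB`). -/
def MB (P : Lev) : Prop :=
  ∃ (κ k₁ c : ℝ) (n₁ : ℕ), 0 < c ∧
    (∀ j ≤ P.M, ∀ π : ℝ, 0 ≤ π → π ≤ 1 → |π - j / P.M| ≤ 2 / P.M →
      Ex P.K κ k₁ π (P.tw j) (P.ta j) (P.tb j)) ∧
    ∀ n ≥ n₁, ∀ Q : Finset (Fin n), Q.Nonempty → ∀ 𝒮 : Finset (Vc n), 𝒮 ⊆ S (bl Q) →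
      𝒮.Nonempty → (∀ z ∈ 𝒮, -z ∈ 𝒮) → ∀ u ∈ S (bl Q),
      n ^ 2 * (𝒮.filter fun z => Wi P.d Q.card (df u z).card).card ≤ 𝒮.card →
      ∃ I : Fin P.l → Fin n, (∀ i, I i ∈ Q) ∧ c * 𝒮.card ≤ (ag 𝒮 u I).card ∧
        ∀ σ : Sc n, (∀ v ∈ Q, Ex P.K κ k₁ (fq (ag 𝒮 u I) v) (σ.w v) (σ.a v) (σ.b v)) →
          c * 𝒮.card ≤ (n + 1) * ((ag 𝒮 u I).filter fun z =>
            10000 * (df u z).card < P.d * Q.card ∧ sc σ Q (df u z) u ≤ P.Θ Q.card).card

/-- Common part of `exists_PA` and `exists_PB`. -/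
private theorem F3a_ex {d th : ℕ} {k₀ k₁ : ℝ} (hd0 : 0 < d) (hd1 : d < 5000)
    (hI : ∀ x, 0 < x → x < 1 → hh x ≤ k₀ + k₁ * (x * (1 - x))) (hk₁ : 1 ≤ k₁) (hk₀ : 0 ≤ k₀)
    (hth : 2 * k₀ + 5 / 100000 + (k₁ - 1) * ((d : ℝ) / 10000) + 5 / 100000 = (th : ℝ) / 1000000) :
    ∃ P : Lev, PK P d th ∧ MB P := by
  have hdr0 : (0 : ℝ) < (d : ℝ) / 10000 := by
    have : (0 : ℝ) < d := by exact_mod_cast hd0
    positivity
  have hdr1 : (d : ℝ) / 10000 < 1 / 2 := by
    have : (d : ℝ) < 5000 := by exact_mod_cast hd1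
    rw [div_lt_iff₀ (by norm_num)]
    linarith
  obtain ⟨M, K, tw, ta, tb, hM, hK, hT⟩ := table hI hk₁ (ε := 5 / 100000) (by norm_num)
  obtain ⟨l, c, n₀, hc, -, hB⟩ := modeB (d := (d : ℝ) / 10000) (κ := 2 * k₀ + 5 / 100000) (k₁ := k₁) (ε := 5 / 100000)
    hdr0 hdr1 (by linarith) hk₁ (by norm_num)
  refine ⟨⟨d, l, M, tw, ta, tb, K, th⟩, ⟨rfl, rfl, hK, hM, fun j hj => (hT j hj).1⟩, 2 * k₀ + 5 / 100000, k₁, c, n₀, hc,
    fun j hj => (hT j hj).2, ?_⟩
  intro n hn Q hQ 𝒮 h𝒮 hne hneg u hu hcard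
  have hd2 : ((10000 - d : ℕ) : ℝ) = 10000 - d := by
    rw [Nat.cast_sub (by omega)]
    norm_num
  have hWi : ∀ z : Vc n, Wi d Q.card (df u z).card ↔ ((d : ℝ) / 10000 * Q.card ≤ ((df u z).card : ℝ) ∧
      ((df u z).card : ℝ) ≤ (1 - (d : ℝ) / 10000) * Q.card) := by
    intro z
    unfold Wi
    have e1 : (d * Q.card ≤ 10000 * (df u z).card) ↔ ((d : ℝ) / 10000 * Q.card ≤ ((df u z).card : ℝ)) := by
      rw [← Nat.cast_le (α := ℝ)]
      push_cast
      constructor <;> intro h <;> linarith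
    have e2 : (10000 * (df u z).card ≤ (10000 - d) * Q.card) ↔
        (((df u z).card : ℝ) ≤ (1 - (d : ℝ) / 10000) * Q.card) := by
      rw [← Nat.cast_le (α := ℝ), Nat.cast_mul, Nat.cast_mul, hd2]
      push_cast
      constructor <;> intro h <;> linarith
    rw [e1, e2]
  have hfil : (𝒮.filter fun z => (d : ℝ) / 10000 * Q.card ≤ ((df u z).card : ℝ) ∧
      ((df u z).card : ℝ) ≤ (1 - (d : ℝ) / 10000) * Q.card) = 𝒮.filter fun z => Wi d Q.card (df u z).card := by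
    ext z
    rw [mem_filter, mem_filter, hWi z]
  obtain ⟨I, hIQ, hIc, hσ⟩ := hB n hn Q hQ 𝒮 h𝒮 hne hneg u hu (by rw [hfil]; exact hcard)
  refine ⟨I, hIQ, hIc, ?_⟩
  intro σ hE
  refine (hσ K σ hE).trans ?_
  apply mul_le_mul_of_nonneg_left _ (by positivity)
  rw [Nat.cast_le]
  apply card_le_card
  intro z hz
  rw [mem_filter] at hz ⊢
  refine ⟨hz.1, ?_, ?_⟩
  · show 10000 * (df u z).card < d * Q.card
    rw [← Nat.cast_lt (α := ℝ)]
    push_cast
    have := hz.2.1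
    linarith
  · show sc σ Q (df u z) u ≤ K * th * Q.card / 1000000
    rw [Nat.le_div_iff_mul_le (by norm_num), ← Nat.cast_le (α := ℝ)]
    push_cast
    have h3 := hz.2.2
    rw [hth] at h3
    have h4 : (K : ℝ) * ((th : ℝ) / 1000000 * Q.card) * 1000000 = K * th * Q.card := by ring
    linarith

/-- PROOF. `table` for `k₀ = 0.23662`, `k₁ = 3.07` (`I0A`), `ε = 5 * 10⁻⁵` gives `M`, `K` and the tables; `modeB` for `d = 0.414`, `κ = 2 k₀ + 5 * 10⁻⁵`, `ε = 5 * 10⁻⁵` gives `l`, `c`, `n₀`. `κ + (k₁ - 1) d + ε = 1.33032`; a natural number which is at most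
`K * 1.33032 * #Q` is at most `K * 1330320 * #Q / 1000000`; `0.414 * #Q ≤ x ≤ 0.586 * #Q` is `Wi 4140 #Q x`. -/
theorem exists_PA : ∃ P : Lev, PK P 4140 1330320 ∧ MB P := by
  refine F3a_ex (k₀ := 23662 / 100000) (k₁ := 307 / 100) (by norm_num) (by norm_num) I0A (by norm_num) (by norm_num) ?_
  norm_num

/-- PROOF. As `exists_PA` with `k₀ = 0.20687`, `k₁ = 3.225` (`I0B`), `d = 0.355`: `κ + (k₁ - 1) d + ε = 1.203715`. -/
theorem exists_PB : ∃ P : Lev, PK P 3550 1203715 ∧ MB P := by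
  refine F3a_ex (k₀ := 20687 / 100000) (k₁ := 3225 / 1000) (by norm_num) (by norm_num) I0B (by norm_num) (by norm_num) ?_
  norm_num

end Pool.Agent.MPa9445a.SB
end
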