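import Pool.Agent.Lib.MP_a9445a_lc.Mg.G104
import Pool.Agent.Lib.MP_a9445a_lc.Mg.G112
import Pool.Agent.Lib.MP_a9445a_lc.Mg.G097
import Pool.Agent.Lib.MP_a9445a_lc.Mg.G098
import Pool.Agent.Lib.MP_a9445a_lc.Mg.G100
import Pool.Agent.Lib.MP_a9445a_lc.Mg.G096
import Pool.Agent.Lib.MP_a9445a_lc.Mg.G103
import Pool.Agent.Lib.MP_a9445a_lc.Mg.G150

section

section

/-! The mode U. -/

set_option autoImplicit false

open Finset
open scoped symmDiff

namespace Pool.Agent.MPa9445a.SX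

open Pool.Agent.MPa9445a.BE
open Pool.Agent.MPa9445a.SN (ST Fm rs kb)
open Pool.Agent.MPa9445a.GL (Vc S Ph Lv Fr lvl LL lvv rk rc fR bl Pc Pf Cpl cdv tl)
open Pool.Agent.MPa9445a.GS (pkM pkB dmL)
open Pool.Agent.MPa9445a.SB (Rf Lev ht Jn Cc Rr Hm Pl)

variable {n : ℕ}

variable {Q : Finset (Fin n)} {s : List ℤ}

variable {P : Lev} {Ch : Pf} {F : ℕ → Rf n} {M R : List ℤ}

/-- The mode U fails iff its cost is too large. PROOF. `run_nil`, `ST_dFU`, `phR_sub`, `exU_eq`, `rk_bl`; `SB.dU`. -/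
theorem UL_nil (hR' : HD n R)
    (hCh : Rp n Q (Ch n (pkM n M Q.card) R) (SB.Wn P.d Q.card (F Q.card)))
    (hF : Fin2 Q (SB.Wn P.d Q.card (F Q.card))) (hs : fv n s = SB.bl Q) (o g : ℕ) (p : ℤ) (b : ℕ)
    (t : ℤ) : (UL Ch n M R o s g p b t).length = 0 ↔
      ¬ SB.cU (wtm n M) (hR n R) (phR n R) P F Q g p (fR3 n R o) t ≤ 2 ^ b := by
  unfold UL
  rw [exU_eq M hR' o hs g t, rk_bl hs]
  rw [run_nil hCh hF hs (D := SB.dU (phR n R) Q (fR3 n R o))
    (fun κ _ => ⟨ST_dFU R (o + bl n) hs 0 κ, phR_sub R Q _⟩) (pkM n M Q.card) ((p + t) / 2) p b]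
  rfl

/-- The elements of the list of the mode U. PROOF. `mem_run`, `wtm_pkM`, `ST_dFU`, `phR_sub`, `exU_eq`, `rk_bl`. -/
theorem mem_UL (hR' : HD n R)
    (hCh : Rp n Q (Ch n (pkM n M Q.card) R) (SB.Wn P.d Q.card (F Q.card)))
    (hF : Fin2 Q (SB.Wn P.d Q.card (F Q.card))) (hs : fv n s = SB.bl Q) {o g : ℕ} {p : ℤ} {b : ℕ}
    {t : ℤ} (h : (UL Ch n M R o s g p b t).length ≠ 0) (c : ℤ) :
    c ∈ tl (UL Ch n M R o s g p b t) ↔ ∃ x ∈ SB.oR (wtm n M) (SB.Wn P.d Q.card (F Q.card)) Q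
      (SB.dU (phR n R) Q (fR3 n R o)) (2 ^ SB.eU (wtm n M) (hR n R) Q g (fR3 n R o) t)
        ((p + t) / 2) p, cdv x = c := by
  have e : UL Ch n M R o s g p b t = GL.run (Ch n (pkM n M Q.card) R) n (pkM n M Q.card) s
      (2 ^ SB.eU (wtm n M) (hR n R) Q g (fR3 n R o) t) (fun κ => GS.dFU n R (o + bl n) s s 0 κ) ((p + t) / 2) p b := by
    unfold UL
    rw [exU_eq M hR' o hs g t, rk_bl hs]
  rw [e] at h ⊢
  rw [mem_run hCh hF hs (D := SB.dU (phR n R) Q (fR3 n R o))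
    (fun κ _ => ⟨ST_dFU R (o + bl n) hs 0 κ, phR_sub R Q _⟩) h c, wtm_pkM]

end Pool.Agent.MPa9445a.SX
end

section

/-! The mode B. -/

set_option autoImplicit false

open Finset
open scoped symmDiff

namespace Pool.Agent.MPa9445a.SX

open Pool.Agent.MPa9445a.BE
open Pool.Agent.MPa9445a.SN (ST Fm rs kb)
open Pool.Agent.MPa9445a.GL (Vc S Ph Lv Fr lvl LL lvv rk rc fR bl Pc Pf Cpl cdv tl)
open Pool.Agent.MPa9445a.GS (pkM pkB dmL)
open Pool.Agent.MPa9445a.SB (Rf Lev ht Jn Cc Rr Hm Pl Sc)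

variable {n : ℕ}

variable {Q : Finset (Fin n)} {s : List ℤ} {P : Lev} {M R : List ℤ} {Go : Rf n}

private theorem T8b_rp (hn : 0 < n) (hE : HEB n (wtm n M) R Go) (hs : fv n s = SB.bl Q) (o g : ℕ)
    (t : ℤ) (x : ℕ) : Rp n Q (GS.EB P.d n (MB P n M R o s g t x) R)
      (SB.Ew (wtm n M) Go P Q g (fR3 n R o) t (pw n P.l x hn)) :=
  hE P.d _ Q _ _ (wtm_pkB _ _ _ _ _ _) (PkB_MB hn hs o g t x)

private theorem T8b_ex (hs : fv n s = SB.bl Q) (o g : ℕ) (t : ℤ) :
    exL n M R o s g t (rk s n) = SB.eB (wtm n M) Q g (fR3 n R o) t := by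
  rw [exL_eq M R o hs g t, rk_bl hs]
  rfl

private theorem T8b_d (hs : fv n s = SB.bl Q) (o K : ℕ) : ∀ κ < K,
    ST n (GS.dFB n R (o + 2 * bl n) s s 0 κ) = SB.dB' Q (fR3 n R o) κ ∧
      SB.dB' Q (fR3 n R o) κ ⊆ Q :=
  fun κ _ => ⟨ST_dFB R (o + 2 * bl n) hs 0 κ, Finset.inter_subset_right⟩

/-- The mode B fails iff its cost is too large. PROOF. `run_nil` with `HEB`, `PkB_MB`, `wtm_pkB`, `ST_dFB`, `exL_eq`, `rk_bl`; `SB.Ew`, `SB.eB`, `SB.dB'`. -/
theorem BL_nil (hn : 0 < n) (hE : HEB n (wtm n M) R Go) (hs : fv n s = SB.bl Q) (o g : ℕ) (p : ℤ)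
    (b : ℕ) (t : ℤ) (x : ℕ)
    (hF : Fin2 Q (SB.Ew (wtm n M) Go P Q g (fR3 n R o) t (pw n P.l x hn))) :
    (BL P n M R o s g p b t x).length = 0 ↔
      ¬ SB.cB (wtm n M) Go P Q g p (fR3 n R o) t (pw n P.l x hn) ≤ 2 ^ b := by
  unfold BL
  rw [T8b_ex hs o g t]
  exact run_nil (T8b_rp hn hE hs o g t x) hF hs (T8b_d hs o _) _ _ _ _

/-- The elements of the list of the mode B. PROOF. `mem_run`, as `BL_nil`. -/
theorem mem_BL (hn : 0 < n) (hE : HEB n (wtm n M) R Go) (hs : fv n s = SB.bl Q) {o g : ℕ} {p : ℤ}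
    {b : ℕ} {t : ℤ} {x : ℕ}
    (hF : Fin2 Q (SB.Ew (wtm n M) Go P Q g (fR3 n R o) t (pw n P.l x hn)))
    (h : (BL P n M R o s g p b t x).length ≠ 0) (c : ℤ) :
    c ∈ tl (BL P n M R o s g p b t x) ↔
      ∃ y ∈ SB.oR (wtm n M) (SB.Ew (wtm n M) Go P Q g (fR3 n R o) t (pw n P.l x hn)) Q
        (SB.dB' Q (fR3 n R o)) (2 ^ SB.eB (wtm n M) Q g (fR3 n R o) t) ((p + t) / 2) p,
          cdv y = c := by
  have hW : wtm n (MB P n M R o s g t x) = wtm n M := wtm_pkB _ _ _ _ _ _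
  unfold BL at h ⊢
  rw [T8b_ex hs o g t] at h ⊢
  rw [mem_run (T8b_rp hn hE hs o g t x) hF hs (T8b_d hs o _) h, hW]

end Pool.Agent.MPa9445a.SX
end

section

/-! The attempt: failure. -/

set_option autoImplicit false

open Finset
open scoped symmDiff

namespace Pool.Agent.MPa9445a.SX

open Pool.Agent.MPa9445a.BE
open Pool.Agent.MPa9445a.SN (ST Fm rs kb)
open Pool.Agent.MPa9445a.GL (Vc S Ph Lv Fr lvl LL lvv rk rc fR bl Pc Pf Cpl cdv tl)
open Pool.Agent.MPa9445a.GS (pkM pkB dmL)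
open Pool.Agent.MPa9445a.SB (Rf Lev ht Jn Cc Rr Hm Pl Sc)

variable {n : ℕ}

/-- All hypotheses for a block. -/
structure HQ (n : ℕ) (M R : List ℤ) (Go : Rf n) (P : Lev) (Ch : Pf) (F : ℕ → Rf n)
    (Q : Finset (Fin n)) : Prop where
  hd : HD n R
  eb : HEB n (wtm n M) R Go
  ch : Rp n Q (Ch n (pkM n M Q.card) R) (SB.Wn P.d Q.card (F Q.card))
  fU : Fin2 Q (SB.Wn P.d Q.card (F Q.card))
  fB : ∀ g ω t w, Fin2 Q (SB.Ew (wtm n M) Go P Q g ω t w)

variable {Q : Finset (Fin n)} {s : List ℤ} {P : Lev} {Ch : Pf} {F : ℕ → Rf n} {M R : List ℤ}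
  {Go : Rf n}

/-- The number of the patterns which fail. PROOF. A sum of `0` and `1` is `0` iff all terms are `0`; `BL_nil`, `pw_surj`. -/
theorem nB_iff (hn : 0 < n) (h : HQ n M R Go P Ch F Q) (hs : fv n s = SB.bl Q) (o g : ℕ) (p : ℤ)
    (b : ℕ) (t : ℤ) : nB P n M R o s g p b t = 0 ↔
      ∀ w, SB.cB (wtm n M) Go P Q g p (fR3 n R o) t w ≤ 2 ^ b := by
  unfold nB
  rw [Finset.sum_eq_zero_iff]
  have hx : ∀ x, ((if (BL P n M R o s g p b t x).length = 0 then 1 else 0 : ℕ) = 0 ↔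
      SB.cB (wtm n M) Go P Q g p (fR3 n R o) t (pw n P.l x hn) ≤ 2 ^ b) := by
    intro x
    have h1 := BL_nil hn h.eb hs o g p b t x (h.fB g _ t _)
    by_cases h2 : (BL P n M R o s g p b t x).length = 0
    · rw [if_pos h2]
      exact ⟨fun h3 => absurd h3 one_ne_zero, fun h3 => absurd h3 (h1.1 h2)⟩
    · rw [if_neg h2]
      exact ⟨fun _ => not_not.1 fun h3 => h2 (h1.2 h3), fun _ => rfl⟩
  constructor
  · intro h3 w
    obtain ⟨x, hx1, hx2⟩ := pw_surj hn P.l w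
    have h4 := (hx x).1 (h3 x (mem_range.2 hx1))
    rwa [hx2] at h4
  · intro h3 x _
    exact (hx x).2 (h3 _)

/-- The attempt succeeds in the program iff it succeeds in the model. PROOF. `rk_bl`, `hN_eq`, `exU_eq`, `exL_eq` (`SB.eB`), `UL_nil`, `nB_iff`, `lgn_lg`; the fields of `SB.AOk`, `SB.Pr`. -/
theorem atp_ne (hn : 0 < n) (h : HQ n M R Go P Ch F Q) (hs : fv n s = SB.bl Q) (o g : ℕ) (p : ℤ)
    (b : ℕ) (t : ℤ) : atp P Ch n M R o s g p b t ≠ [] ↔
      SB.AOk (wtm n M) Go (hR n R) (phR n R) P F Q g p b (fR3 n R o) t := by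
  have hU := UL_nil h.hd h.ch h.fU hs o g p b t
  have hB := nB_iff hn h hs o g p b t
  unfold atp
  rw [rk_bl hs, hN_eq M R o hs g t, exU_eq M h.hd o hs g t, exL_eq M R o hs g t Q.card, lgn_lg]
  constructor
  · intro hne
    split_ifs at hne with h1 h2 h3 h4
    · exact absurd rfl hne
    · exact ⟨h1, h2.1, h2.2.1, h2.2.2.1, h2.2.2.2, not_not.1 fun h5 => h3 (hU.2 h5), hB.1 h4⟩
    · exact absurd rfl hne
    · exact absurd rfl hne
    · exact absurd rfl hne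
  · intro H
    rw [if_pos H.hb, if_pos ⟨H.pr, H.par, H.hU, H.hB⟩, if_neg (fun h5 => hU.1 h5 H.cU),
      if_pos (hB.2 H.cB)]
    exact List.cons_ne_nil _ _

end Pool.Agent.MPa9445a.SX
end
end

section

section

/-! The attempt: result. -/

set_option autoImplicit false

open Finset
open scoped symmDiff

namespace Pool.Agent.MPa9445a.SX

open Pool.Agent.MPa9445a.BE
open Pool.Agent.MPa9445a.SN (ST Fm rs kb)
open Pool.Agent.MPa9445a.GL (Vc S Ph Lv Fr lvl LL lvv rk rc fR bl Pc Pf Cpl cdv tl)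
open Pool.Agent.MPa9445a.GS (pkM pkB dmL)
open Pool.Agent.MPa9445a.SB (Rf Lev ht Jn Cc Rr Hm Pl Sc)

variable {n : ℕ}

variable {Q : Finset (Fin n)} {s : List ℤ} {P : Lev} {Ch : Pf} {F : ℕ → Rf n} {M R : List ℤ}
  {Go : Rf n}

private theorem T9b_arr (X : Finset (Fin n)) : ∃ s : List ℤ, fv n s = SB.bl X := by
  refine ⟨tb n fun v => if h : v < n then (if (⟨v, h⟩ : Fin n) ∈ X then 2 else 0) else 0, ?_⟩
  funext v
  rw [fv_tb, dif_pos v.2]
  rfl

private theorem T9b_getD {Q' X : Finset (Fin n)} {E : Pc} {G : Rf n} (hE : Rp n Q' E G)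
    (hX : X ⊆ Q') {a : ℤ} (ha : a ∈ lvl n) (j : ℕ) : (G X a j).getD ∅ ⊆ S (SB.bl X) := by
  obtain ⟨s', hs'⟩ := T9b_arr X
  rcases hE X hX s' hs' a ha j with ⟨h1, -⟩ | ⟨A, L, h1, -, -, h2⟩
  · rw [h1]
    exact Finset.empty_subset _
  · rw [h1]
    exact h2

private theorem T9b_add {Q' D : Finset (Fin n)} (hD : D ⊆ Q') {u v : Vc n} (hu : u ∈ S (SB.bl D))
    (hv : v ∈ S (SB.bl (Q' \ D))) : u + v ∈ S (SB.bl Q') := by
  rw [mem_Sbl] at hu hv ⊢
  intro x
  obtain ⟨h1, h2⟩ := hu x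
  obtain ⟨h3, h4⟩ := hv x
  constructor
  · intro hx
    by_cases hxD : x ∈ D
    · have h5 := h4 (fun h => (mem_sdiff.1 h).2 hxD)
      rw [Pi.add_apply, h5, add_zero]
      exact h1 hxD
    · have h5 := h3 (mem_sdiff.2 ⟨hx, hxD⟩)
      rw [Pi.add_apply, h2 hxD, zero_add]
      exact h5
  · intro hx
    have h5 : x ∉ D := fun h => hx (hD h)
    have h6 : x ∉ Q' \ D := fun h => hx (mem_sdiff.1 h).1
    rw [Pi.add_apply, h2 h5, h4 h6, add_zero]

private theorem T9b_oR {Q' : Finset (Fin n)} {E : Pc} {G : Rf n} (hE : Rp n Q' E G)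
    {D : ℕ → Finset (Fin n)} (hD : ∀ κ, D κ ⊆ Q') (W : Matrix (Fin n) (Fin n) ℤ) (k : ℕ) (q p : ℤ) :
    SB.oR W G Q' D k q p ⊆ S (SB.bl Q') := by
  classical
  intro x hx
  unfold SB.oR at hx
  rw [mem_filter, mem_biUnion] at hx
  obtain ⟨⟨κ, -, hx⟩, -⟩ := hx
  rw [mem_biUnion] at hx
  obtain ⟨a, ha, hx⟩ := hx
  unfold GL.la2 at ha
  rw [mem_filter] at ha
  unfold SB.po at hx
  rw [mem_image] at hx
  obtain ⟨⟨u, v⟩, huv, rfl⟩ := hx
  rw [mem_product] at huv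
  exact T9b_add (hD κ) (T9b_getD hE (hD κ) ha.1 _ huv.1)
    (T9b_getD hE sdiff_subset ha.2 _ huv.2)

/-- The vectors which are found are vectors of the block. PROOF. `SB.oA`, `SB.oR`, `SB.po`: the vectors are `u + v` with `u` in a list for `D`, `v` in a list for `Q \ D`, `D ⊆ Q`; the lists of the procedures consist of vectors of the
blocks (`Rp` for the children: the set of the model is the `A` of `Ra`, `A ⊆ S (bl X)`; note `pj` is finished by `POk_pj`; if `F X a j = none` then `getD` is empty). -/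
theorem oA_sub (hn : 0 < n) (h : HQ n M R Go P Ch F Q) (hs : fv n s = SB.bl Q) (o g : ℕ) (p : ℤ)
    (t : ℤ) : SB.oA (wtm n M) Go (hR n R) (phR n R) P F Q g p (fR3 n R o) t ⊆ S (SB.bl Q) := by
  classical
  intro x hx
  unfold SB.oA at hx
  rw [mem_union] at hx
  rcases hx with hx | hx
  · exact T9b_oR h.ch (D := SB.dU (phR n R) Q (fR3 n R o)) (fun κ => phR_sub R Q _) _ _ _ _ hx
  · rw [mem_biUnion] at hx
    obtain ⟨w, -, hx⟩ := hx
    obtain ⟨y, -, rfl⟩ := pw_surj hn P.l w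
    have h1 := PkB_MB (P := P) (M := M) (R := R) hn hs o g t y
    have h2 : wtm n (MB P n M R o s g t y) = wtm n M := wtm_pkB _ _ _ _ _ _
    have h3 := h.eb P.d _ Q _ _ h2 h1
    exact T9b_oR h3 (D := SB.dB' Q (fR3 n R o)) (fun κ => inter_subset_right) _ _ _ _ hx

private theorem T9b_tl_cdv {A : Finset (Vc n)} {L : List ℤ}
    (h : ∀ c, c ∈ L ↔ ∃ x ∈ A, cdv x = c) : ∀ x ∈ L, 0 ≤ x ∧ x < 2 ^ n := by
  intro x hx
  obtain ⟨y, -, rfl⟩ := (h x).1 hx
  exact GL.cdv_lt y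

/-- The result of the attempt. PROOF. `atp` is `1 :: dd n (..)`; `GD.mem_dd`, `GD.nodup_dd` (all elements are codes `cdv x`, so `0 ≤ c < 2 ^ n`: `GL.cdv_lt`), `mem_UL`, `mem_BL`, `GD.mem_fm`, `pw_surj`; `SB.oA`, `SB.oR`. -/
theorem atp_cpl (hn : 0 < n) (h : HQ n M R Go P Ch F Q) (hs : fv n s = SB.bl Q) (o g : ℕ) (p : ℤ)
    (b : ℕ) (t : ℤ) (hA : atp P Ch n M R o s g p b t ≠ []) : ∃ L,
      atp P Ch n M R o s g p b t = 1 :: L ∧
        Cpl L (SB.oA (wtm n M) Go (hR n R) (phR n R) P F Q g p (fR3 n R o) t) := by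
  classical
  unfold atp at hA ⊢
  by_cases h1 : rk s n ≤ g + b
  swap
  · rw [if_neg h1] at hA
    exact absurd rfl hA
  rw [if_pos h1] at hA ⊢
  by_cases h2 : 2 ^ (SB.c1 * GS.lgn n - 1) ≤ hN n M R o s g t ∧ (p + t) % 2 = 0 ∧
        exL n M R o s g t (dmL n R s + GS.Rc n) ≤ b ∧ exL n M R o s g t (rk s n) ≤ b
  swap
  · rw [if_neg h2] at hA
    exact absurd rfl hA
  rw [if_pos h2] at hA ⊢
  by_cases h3 : (UL Ch n M R o s g p b t).length = 0
  · rw [if_pos h3] at hA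
    exact absurd rfl hA
  rw [if_neg h3] at hA ⊢
  by_cases h4 : nB P n M R o s g p b t = 0
  swap
  · rw [if_neg h4] at hA
    exact absurd rfl hA
  rw [if_pos h4]
  refine ⟨_, rfl, ?_⟩
  have h5 : ∀ x < (2 * n) ^ P.l, (BL P n M R o s g p b t x).length ≠ 0 := by
    intro x hx h6
    unfold nB at h4
    have h7 := (Finset.sum_eq_zero_iff.1 h4) x (Finset.mem_range.2 hx)
    rw [if_pos h6] at h7
    exact one_ne_zero h7
  have h8 : ∀ c : ℤ, c ∈ tl (UL Ch n M R o s g p b t) ++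
      GD.fm ((2 * n) ^ P.l) (fun x => tl (BL P n M R o s g p b t x)) ↔
      ∃ x ∈ SB.oA (wtm n M) Go (hR n R) (phR n R) P F Q g p (fR3 n R o) t, cdv x = c := by
    intro c
    rw [List.mem_append, GD.mem_fm, mem_UL h.hd h.ch h.fU hs h3]
    constructor
    · rintro (⟨x, hx, hc⟩ | ⟨i, hi, hc⟩)
      · refine ⟨x, ?_, hc⟩
        unfold SB.oA
        exact mem_union_left _ hx
      · rw [mem_BL hn h.eb hs (h.fB _ _ _ _) (h5 i hi)] at hc
        obtain ⟨x, hx, hc⟩ := hc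
        refine ⟨x, ?_, hc⟩
        unfold SB.oA
        exact mem_union_right _ (mem_biUnion.2 ⟨_, mem_univ _, hx⟩)
    · rintro ⟨x, hx, hc⟩
      unfold SB.oA at hx
      rcases mem_union.1 hx with hx | hx
      · exact Or.inl ⟨x, hx, hc⟩
      · obtain ⟨w, -, hx⟩ := mem_biUnion.1 hx
        obtain ⟨i, hi, rfl⟩ := pw_surj hn P.l w
        refine Or.inr ⟨i, hi, ?_⟩
        rw [mem_BL hn h.eb hs (h.fB _ _ _ _) (h5 i hi)]
        exact ⟨x, hx, hc⟩
  refine ⟨GD.nodup_dd (T9b_tl_cdv h8), fun c => ?_⟩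
  rw [GD.mem_dd]
  exact h8 c

end Pool.Agent.MPa9445a.SX
end

section

/-! The procedure of a level. -/

set_option autoImplicit false

open Finset
open scoped symmDiff

namespace Pool.Agent.MPa9445a.SX

open Pool.Agent.MPa9445a.BE
open Pool.Agent.MPa9445a.SN (ST Fm rs kb)
open Pool.Agent.MPa9445a.GL (Vc S Ph Lv Fr lvl LL lvv rk rc fR bl Pc Pf Cpl cdv tl)
open Pool.Agent.MPa9445a.GS (pkM pkB dmL)
open Pool.Agent.MPa9445a.SB (Rf Lev ht Jn Cc Rr Hm Pl Sc)

variable {n : ℕ} {P : Lev} {Ch : Pf} {F : ℕ → Rf n} {M R : List ℤ} {Go : Rf n}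

/-- The set with code `0` is empty. -/
private theorem T10b_ST0 (n : ℕ) : SN.ST n 0 = ∅ := by
  unfold SN.ST
  rw [filter_eq_empty_iff]
  intro v _
  simp [bit]

/-- Parity. -/
private theorem T10b_par {Q : Finset (Fin n)} {s : List ℤ} (hs : fv n s = SB.bl Q) (p : ℤ) :
    GL.Par (wtm n M) (SB.bl Q) p ↔ (p + Phi n M (GL.sv n s 0)) % 2 = 0 := by
  unfold GL.Par
  rw [GL.Phi_Ph, GL.fv_sv, hs, T10b_ST0]

/-- The attempt with index `x`, program and model. -/
private theorem T10b_ax (lev : ℕ) {gf : ℕ → List ℤ → List ℤ → ℕ} {gm : ℕ → ℕ}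
    {Q : Finset (Fin n)} {s : List ℤ} (hn : 0 < n)
    (h : HQ n M R Go P Ch F Q) (hs : fv n s = SB.bl Q) (hg : gf n M s = gm Q.card)
    (p : ℤ) (b x : ℕ) (hx : x < n * LL n) :
    atI P Ch gf lev n M R s p b x ≠ [] ↔
      SB.Ax (wtm n M) Go (hR n R) (phR n R) P F gm Q p b (fRs n R lev) x := by
  have hz : x / LL n < n := (Nat.div_lt_iff_lt_mul (by unfold LL; omega)).2 hx
  unfold atI
  rw [hg, atp_ne hn h hs]
  constructor
  · intro hA
    exact ⟨hz, hA⟩
  · rintro ⟨_, hA⟩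
    exact hA

/-- The procedure of a level. PROOF. `Q.card ≤ b`: `GL.br_cpl` (the set is `Lv .. ⊆ S`). Wrong parity: `GL.Phi_Ph`, `GL.fv_sv` for the code `0` (`vc (bl Q) ∅`), the empty list. Otherwise `n > 0`; `SB.Ax` holds for `x` iff
`x < n * LL n` and the attempt with index `x` succeeds (`atp_ne`; `lvv n (x % LL n) = SB.tl n x`, `GS.fof n lev (x / LL n) 0`), so `argmax_find` gives the same index as `Nat.find`; `atp_cpl`, `oA_sub`. If there is no such `x` the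
attempt with the index `argmax` fails, too. -/
theorem ndp_rp (lev : ℕ) {gf : ℕ → List ℤ → List ℤ → ℕ} {gm : ℕ → ℕ} {Q₀ : Finset (Fin n)}
    (h : ∀ Q ⊆ Q₀, HQ n M R Go P Ch F Q)
    (hg : ∀ Q ⊆ Q₀, ∀ s, fv n s = SB.bl Q → gf n M s = gm Q.card) :
    Rp n Q₀ (ndp P Ch gf lev n M R)
      (SB.nd (wtm n M) Go (hR n R) (phR n R) P F gm (fRs n R lev)) := by
  classical
  intro Q hQ s hs a _ b
  have hrk : rk s n = Q.card := rk_bl hs
  unfold ndp SB.nd
  rw [hrk]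
  by_cases h1 : Q.card ≤ b
  · rw [if_pos h1, if_pos h1]
    right
    refine ⟨_, _, rfl, rfl, ?_, filter_subset _ _⟩
    have := GL.br_cpl (n := n) M s a
    rwa [hs] at this
  · rw [if_neg h1, if_neg h1]
    by_cases h2 : GL.Par (wtm n M) (SB.bl Q) a
    · have h2' := (T10b_par hs a).1 h2
      rw [if_neg (by rw [h2']; simp), if_neg (by simpa using h2)]
      have hn : 0 < n := by
        rcases Nat.eq_zero_or_pos n with h0 | h0
        · exfalso
          subst h0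
          apply h1
          have : Q = ∅ := Subsingleton.elim _ _
          rw [this]
          simp
        · exact h0
      have hLL : 0 < LL n := by unfold LL; omega
      have hK : 0 < n * LL n := Nat.mul_pos hn hLL
      have hax := fun x (hx : x < n * LL n) =>
        T10b_ax (gm := gm) lev hn (h Q hQ) hs (hg Q hQ s hs) a b x hx
      have hAx : ∀ x, SB.Ax (wtm n M) Go (hR n R) (phR n R) P F gm Q a b (fRs n R lev) x ↔
          x < n * LL n ∧ ¬ (atI P Ch gf lev n M R s a b x).length = 0 := by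
        intro x
        constructor
        · intro hA
          obtain ⟨hz, _⟩ := id hA
          have hx : x < n * LL n := (Nat.div_lt_iff_lt_mul hLL).1 hz
          refine ⟨hx, ?_⟩
          rw [List.length_eq_zero_iff]
          exact (hax x hx).2 hA
        · rintro ⟨hx, hA⟩
          rw [List.length_eq_zero_iff] at hA
          exact (hax x hx).1 hA
      by_cases h3 : ∃ x, SB.Ax (wtm n M) Go (hR n R) (phR n R) P F gm Q a b (fRs n R lev) x
      · rw [dif_pos h3]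
        have h4 : ∃ x, x < n * LL n ∧ ¬ (atI P Ch gf lev n M R s a b x).length = 0 := by
          obtain ⟨x, hx⟩ := h3
          exact ⟨x, (hAx x).1 hx⟩
        have h5 := argmax_find (n * LL n)
          (fun x => (atI P Ch gf lev n M R s a b x).length = 0) h4
        have h6 : (Nat.find h3 : ℕ) = Nat.find h4 := by
          apply le_antisymm
          · exact Nat.find_min' h3 ((hAx _).2 (Nat.find_spec h4))
          · exact Nat.find_min' h4 ((hAx _).1 (Nat.find_spec h3))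
        rw [h5, ← h6]
        obtain ⟨hz, hok⟩ := Nat.find_spec h3
        generalize Nat.find h3 = x at hz hok
        right
        have hok' := (atp_ne (n := n) (M := M) (R := R) hn (h Q hQ) hs (GS.fof n lev (x / LL n) 0)
          (gm Q.card) a b (SB.tl n x)).2 hok
        obtain ⟨L, hL1, hL2⟩ := atp_cpl hn (h Q hQ) hs _ _ _ _ _ hok'
        refine ⟨_, L, rfl, ?_, ?_, ?_⟩
        · unfold atI
          rw [hg Q hQ s hs]
          exact hL1
        · unfold SB.Ox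
          rw [dif_pos hz]
          exact hL2
        · unfold SB.Ox
          rw [dif_pos hz]
          exact oA_sub hn (h Q hQ) hs _ _ _ _
      · rw [dif_neg h3]
        left
        refine ⟨rfl, ?_⟩
        have h7 := (argmax_spec hK (fun x : ℤ =>
          if (atI P Ch gf lev n M R s a b x.toNat).length = 0 then 0 else 1)).1
        by_contra hc
        exact h3 ⟨_, (hax _ h7).1 hc⟩
    · have h2' : ¬ (a + Phi n M (GL.sv n s 0)) % 2 = 0 := fun hh => h2 ((T10b_par hs a).2 hh)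
      rw [if_pos h2', if_pos h2]
      right
      refine ⟨∅, [], rfl, rfl, ⟨List.nodup_nil, ?_⟩, empty_subset _⟩
      intro c
      simp

end Pool.Agent.MPa9445a.SX
end

section

/-! Pairs are finished. -/

set_option autoImplicit false

open Finset
open scoped symmDiff

namespace Pool.Agent.MPa9445a.SX

open Pool.Agent.MPa9445a.BE
open Pool.Agent.MPa9445a.SN (ST Fm rs kb)
open Pool.Agent.MPa9445a.GL (Vc S Ph Lv Fr lvl LL lvv rk rc fR bl Pc Pf Cpl cdv tl)
open Pool.Agent.MPa9445a.GS (pkM pkB dmL LF)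
open Pool.Agent.MPa9445a.SB (Rf Lev ht Jn Cc Rr Hm Pl Sc)

variable {n : ℕ} {R : List ℤ} {Go : Rf n} {W : Matrix (Fin n) (Fin n) ℤ}

/-- The hypotheses of the levels: the golden procedure, the code, the children in mode B, the leaves. -/
structure HR (n : ℕ) (W : Matrix (Fin n) (Fin n) ℤ) (R : List ℤ) (Go : Rf n) : Prop where
  go : SB.GO W Go
  hd : HD n R
  eb : HEB n W R Go
  lf : ∀ M, wtm n M = W → Rp n univ (LF n M R) (SB.Lf W Go (hR n R))

private theorem T11a_card (X : Finset (Fin n)) : (S (SB.bl X)).card = 2 ^ X.card := by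
  rw [GL.card_S, Fr_bl]

private theorem T11a_card_le (X : Finset (Fin n)) : X.card ≤ n := by
  have h := Finset.card_le_univ X
  rwa [Fintype.card_fin] at h

/-- PROOF. With `g = 2 n` both procedures do not fail (`ff`: `#X ≤ n ≤ g`), and the lists have at most `2 ^ n` elements if they consist of vectors of the blocks. -/
theorem Fin2_of {Q : Finset (Fin n)} {F : Rf n}
    (hff : ∀ X ⊆ Q, ∀ a ∈ lvl n, ∀ j, X.card ≤ j → F X a j ≠ none)
    (hS : ∀ X ⊆ Q, ∀ a ∈ lvl n, ∀ j A, F X a j = some A → A ⊆ S (SB.bl X)) : Fin2 Q F := by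
  intro X hX Y hY a ha b hb
  refine ⟨2 * n, le_refl _, ?_⟩
  have hXn := T11a_card_le X
  have hYn := T11a_card_le Y
  obtain ⟨A, hA⟩ := Option.ne_none_iff_exists'.mp (hff X hX a ha (2 * n) (by omega))
  obtain ⟨B, hB⟩ := Option.ne_none_iff_exists'.mp (hff Y hY b hb (2 * n) (by omega))
  refine Or.inr (Or.inr ⟨A, B, hA, hB, ?_⟩)
  have h1 : A.card ≤ 2 ^ n := by
    refine le_trans (Finset.card_le_card (hS X hX a ha _ A hA)) ?_
    rw [T11a_card]
    exact Nat.pow_le_pow_right (by norm_num) hXn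
  have h2 : B.card ≤ 2 ^ n := by
    refine le_trans (Finset.card_le_card (hS Y hY b hb _ B hB)) ?_
    rw [T11a_card]
    exact Nat.pow_le_pow_right (by norm_num) hYn
  calc A.card * B.card ≤ 2 ^ n * 2 ^ n := Nat.mul_le_mul h1 h2
    _ = 2 ^ (2 * n) := by rw [← pow_add]; congr 1; omega

private theorem T11a_Lv (W : Matrix (Fin n) (Fin n) ℤ) (X : Finset (Fin n)) (a : ℤ) :
    Lv W (SB.bl X) a ⊆ S (SB.bl X) := Finset.filter_subset _ _

private theorem T11a_Go (hG : SB.GO W Go) {X : Finset (Fin n)} {a : ℤ} (ha : a ∈ lvl n) {j : ℕ}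
    {A : Finset (Vc n)} (h : Go X a j = some A) : A ⊆ S (SB.bl X) := by
  rcases hG.cpl X a ha j with h1 | h1
  · rw [h1] at h
    exact absurd h (by simp)
  · rw [h1] at h
    rw [← Option.some.inj h]
    exact T11a_Lv W X a

private theorem T11a_vl (σ : Sc n) (Q X : Finset (Fin n)) (Θ : ℕ) :
    SB.vl σ Q X Θ ⊆ S (SB.bl X) := Finset.filter_subset _ _

/-- PROOF. `Fin2_of`: `Rp` gives `A ⊆ S`; the leaves do not fail if `#X ≤ j` (`GO.ff`). -/
theorem Fin2_Lf (h : HR n W R Go) (Q : Finset (Fin n)) (d m : ℕ) :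
    Fin2 Q (SB.Wn d m (SB.Lf W Go (hR n R))) := by
  classical
  refine Fin2_of ?_ ?_
  · intro X _ a _ j hj
    unfold SB.Wn
    split_ifs with h1
    · unfold SB.Lf
      split_ifs with h2
      · exact Option.some_ne_none _
      · exact h.go.ff X a j hj
    · exact Option.some_ne_none _
  · intro X _ a ha j A hA
    unfold SB.Wn at hA
    split_ifs at hA with h1
    · unfold SB.Lf at hA
      split_ifs at hA with h2
      · rw [← Option.some.inj hA]
        exact T11a_Lv W X a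
      · exact T11a_Go h.go ha hA
    · rw [← Option.some.inj hA]
      exact Finset.empty_subset _

/-- PROOF. `Fin2_of`, `SB.Ew`, `SB.EB`: the golden procedure (`GO.cpl`, `GO.ff`), the enumeration (`vl ⊆ S (bl X)`, so it has at most `2 ^ #X` elements), the empty list. -/
theorem Fin2_Ew (h : HR n W R Go) (P : Lev) (Q : Finset (Fin n)) (g : ℕ) (ω : Rr n) (t : ℤ)
    (w : Pl n P.l) : Fin2 Q (SB.Ew W Go P Q g ω t w) := by
  classical
  refine Fin2_of ?_ ?_
  · intro X _ a _ j hj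
    unfold SB.Ew SB.EB
    split_ifs with h1 h2 h3
    · exact h.go.ff X a j hj
    · exact Option.some_ne_none _
    · exfalso
      apply h3
      refine le_trans (Finset.card_le_card (T11a_vl _ Q X _)) ?_
      rw [T11a_card]
      exact Nat.pow_le_pow_right (by norm_num) hj
    · exact Option.some_ne_none _
  · intro X _ a ha j A hA
    unfold SB.Ew SB.EB at hA
    split_ifs at hA with h1 h2 h3
    · exact T11a_Go h.go ha hA
    · rw [← Option.some.inj hA]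
      exact (Finset.filter_subset _ _).trans (T11a_vl _ Q X _)
    · rw [← Option.some.inj hA]
      exact Finset.empty_subset _

end Pool.Agent.MPa9445a.SX
end

section

/-! The levels 2 and 1. -/

set_option autoImplicit false

open Finset
open scoped symmDiff

namespace Pool.Agent.MPa9445a.SX

open Pool.Agent.MPa9445a.BE
open Pool.Agent.MPa9445a.SN (ST Fm rs kb)
open Pool.Agent.MPa9445a.GL (Vc S Ph Lv Fr lvl LL lvv rk rc fR bl Pc Pf Cpl cdv tl)
open Pool.Agent.MPa9445a.GS (pkM pkB dmL LF)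
open Pool.Agent.MPa9445a.SB (Rf Lev ht Jn Cc Rr Hm Pl Sc)

variable {n : ℕ} {R : List ℤ} {Go : Rf n} {W : Matrix (Fin n) (Fin n) ℤ}

private theorem T11b_pkM (M : List ℤ) (m : ℕ) : gt (pkM n M m) (n * n) = m := by
  unfold GS.pkM
  show (tb _ _).getD _ 0 = _
  rw [getD_tb, if_pos (Nat.lt_succ_self _)]
  simp

private theorem T11b_ex (X : Finset (Fin n)) : ∃ s : List ℤ, fv n s = SB.bl X :=
  ⟨tb n fun v => if h : v < n then SB.bl X ⟨v, h⟩ else 0, by
    funext v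
    rw [fv_tb]
    simp⟩

private theorem T11b_sub {Q Q' : Finset (Fin n)} (hQ : Q' ⊆ Q) {E : Pc} {F : Rf n}
    (h : Rp n Q E F) : Rp n Q' E F :=
  fun X hX s hs a ha j => h X (hX.trans hQ) s hs a ha j

/-- Level 2. PROOF. `ndp_rp` with `WnL_rp` (`gt (pkM ..) (n * n)`), `lf`, `Fin2_Lf`, `Fin2_Ew`, `wtm_pkM`, `g2_eq` (`#X ≤ #Q = m`), `rk_bl`. -/
theorem P2_rp (h : HR n W R Go) (PB : Lev) {M : List ℤ} (hM : wtm n M = W) {Q : Finset (Fin n)}
    (hQ : gt M (n * n) = Q.card) :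
    Rp n Q (P2 PB n M R) (SB.E2 W Go (hR n R) (phR n R) PB (fRs n R 0) Q.card) := by
  subst hM
  refine ndp_rp (F := fun _ => SB.Lf (wtm n M) Go (hR n R)) (gm := SB.g2 n Q.card) 0
    (fun Q' hQ' => ?_) (fun Q' hQ' s hs => ?_)
  · refine ⟨h.hd, h.eb, ?_, Fin2_Lf h Q' PB.d Q'.card, fun g ω t w => Fin2_Ew h PB Q' g ω t w⟩
    exact WnL_rp (T11b_pkM M Q'.card)
      (T11b_sub (Finset.subset_univ Q') (h.lf _ (wtm_pkM M Q'.card))) PB.d
  · show GS.g2 n (min (gt M (n * n)).toNat n) (rk s n) = SB.g2 n Q.card Q'.card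
    have hn : Q.card ≤ n := by simpa using Finset.card_le_univ Q
    rw [rk_bl hs, hQ, Int.toNat_natCast, min_eq_left hn, g2_eq (Finset.card_le_card hQ')]

/-- Level 1. PROOF. `ndp_rp` with `WnL_rp`, `P2_rp`, `Fin2_of` for the level 2 (`SB.nd` does not fail if `#X ≤ j`; `Rp` gives `A ⊆ S`), `Fin2_Ew`. -/
theorem P1_rp (h : HR n W R Go) (PA PB : Lev) {M : List ℤ} (hM : wtm n M = W) :
    Rp n univ (P1 PA PB n M R)
      (SB.E1 W Go (hR n R) (phR n R) PA PB (fRs n R 0) (fRs n R 1)) := by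
  subst hM
  refine ndp_rp (F := SB.E2 (wtm n M) Go (hR n R) (phR n R) PB (fRs n R 0)) (gm := fun _ => SB.g1 n) 1
    (fun Q' _ => ?_) (fun _ _ _ _ => rfl)
  have h2 : Rp n Q' (P2 PB n (pkM n M Q'.card) R)
      (SB.E2 (wtm n M) Go (hR n R) (phR n R) PB (fRs n R 0) Q'.card) :=
    P2_rp h PB (wtm_pkM M Q'.card) (T11b_pkM M Q'.card)
  refine ⟨h.hd, h.eb, WnL_rp (T11b_pkM M Q'.card) h2 PA.d, ?_, fun g ω t w => Fin2_Ew h PA Q' g ω t w⟩
  refine Fin2_of (fun X _ a _ j hj => ?_) (fun X hX a ha j A hA => ?_)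
  · unfold SB.Wn
    split_ifs
    · unfold SB.E2 SB.nd
      rw [if_pos hj]
      simp
    · simp
  · unfold SB.Wn at hA
    split_ifs at hA
    · obtain ⟨s, hs⟩ := T11b_ex X
      rcases h2 X hX s hs a ha j with ⟨h3, _⟩ | ⟨A', L, h3, _, _, h4⟩
      · rw [hA] at h3
        exact absurd h3 (by simp)
      · rw [hA] at h3
        rw [Option.some.inj h3]
        exact h4
    · rw [← Option.some.inj hA]
      exact Finset.empty_subset _

end Pool.Agent.MPa9445a.SX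
end
end

section

section
/-! The mode B finds its targets. -/

set_option autoImplicit false
set_option synthInstance.maxSize 1000

open Finset

namespace Pool.Agent.MPa9445a.SB

open Pool.Agent.MPa9445a.SN (Fm rs kb)
open Pool.Agent.MPa9445a.GL (Vc S Ph Lv T Par lvl LL la2 fl Wb on off pl xk)

variable {n : ℕ}

/-- The places with the signs of `u`. -/
def wI {l : ℕ} (u : Vc n) (I : Fin l → Fin n) : Pl n l := fun i => (I i, decide (u (I i) = 1))

/-- PROOF. For `z ∈ S (bl Q)` and places in `Q` the entries are `±1`. -/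
theorem Ag_wI {l : ℕ} {Q : Finset (Fin n)} {u z : Vc n} (hu : u ∈ S (bl Q)) (hz : z ∈ S (bl Q))
    {I : Fin l → Fin n} (hI : ∀ i, I i ∈ Q) : Ag (wI u I) z ↔ ∀ i, z (I i) = u (I i) := by
  have hu' := mem_S_bl.1 hu
  have key : ∀ i, (if (wI u I i).2 = true then (1 : ℤ) else -1) = u (I i) := by
    intro i
    have h := hu' (I i)
    rw [if_pos (hI i)] at h
    simp only [wI, decide_eq_true_eq]
    rcases h with h | h
    · rw [if_pos h, h]
    · rw [if_neg (by rw [h]; norm_num), h]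
  constructor
  · intro h i
    have h1 := h i
    rw [key i] at h1
    exact h1
  · intro h i
    rw [key i]
    exact h i

/-- With right frequencies the scores have the right expectation. PROOF. `𝒯 = ag (Lv W (bl Q) t) u I`. The hits with the signs `wI u I` are the `κ < J` with `xk ∈ 𝒯` (`Ag_wI`; `xk ∈ S (bl Q)` by `GL.vc_mem`); `X > 0` their number, `X_v` the number of those with entry `1` at `v`.
`|X_v / X - fq 𝒯 v| ≤ 1 / M` (`Frq` with `η = 1 / M`), and `gr = M X_v / X` (rounded down), so `|fq 𝒯 v - gr / M| ≤ 2 / M`. -/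
theorem sr_ok {W : Matrix (Fin n) (Fin n) ℤ} {P : Lev} (hM : 0 < P.M) {κ k₁ : ℝ}
    (hEx : ∀ j ≤ P.M, ∀ π : ℝ, 0 ≤ π → π ≤ 1 → |π - j / P.M| ≤ 2 / P.M →
      Ex P.K κ k₁ π (P.tw j) (P.ta j) (P.tb j))
    {Q : Finset (Fin n)} {u : Vc n} (hu : u ∈ S (bl Q)) {I : Fin P.l → Fin n} (hI : ∀ i, I i ∈ Q)
    {t : ℤ} {J : ℕ} (hJ : 0 < J) (hne : (ag (Lv W (bl Q) t) u I).Nonempty) {ω : Fm n}
    (hf : Frq Q (ag (Lv W (bl Q) t) u I) J (1 / P.M) ω) (v : Fin n) :
    Ex P.K κ k₁ (fq (ag (Lv W (bl Q) t) u I) v) ((sr W P Q ω J t (wI u I)).w v)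
      ((sr W P Q ω J t (wI u I)).a v) ((sr W P Q ω J t (wI u I)).b v) := by
  have hmem : ∀ κ : ℕ, xk (bl Q) ω κ ∈ ag (Lv W (bl Q) t) u I ↔
      Ph W (xk (bl Q) ω κ) = t ∧ Ag (wI u I) (xk (bl Q) ω κ) := by
    intro κ
    have hz : xk (bl Q) ω κ ∈ S (bl Q) := GL.vc_mem _ _
    rw [Ag_wI hu hz hI]
    simp only [ag, Lv, mem_filter, hz, true_and]
  have e1 : (ht W Q ω J t).filter (fun κ => Ag (wI u I) (xk (bl Q) ω κ)) =
      (range J).filter fun κ => xk (bl Q) ω κ ∈ ag (Lv W (bl Q) t) u I := by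
    ext κ
    simp only [ht, mem_filter, hmem, and_assoc]
  have e2 : (ht W Q ω J t).filter
      (fun κ => Ag (wI u I) (xk (bl Q) ω κ) ∧ xk (bl Q) ω κ v = 1) =
      (range J).filter fun κ => xk (bl Q) ω κ ∈ ag (Lv W (bl Q) t) u I ∧ xk (bl Q) ω κ v = 1 := by
    ext κ
    simp only [ht, mem_filter, hmem, and_assoc]
  obtain ⟨f1, -, f3⟩ := hf
  have f3 := f3 v
  obtain ⟨X, hX⟩ : ∃ X, X =
      ((range J).filter fun κ => xk (bl Q) ω κ ∈ ag (Lv W (bl Q) t) u I).card := ⟨_, rfl⟩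
  obtain ⟨Y, hY⟩ : ∃ Y, Y = ((range J).filter fun κ =>
      xk (bl Q) ω κ ∈ ag (Lv W (bl Q) t) u I ∧ xk (bl Q) ω κ v = 1).card := ⟨_, rfl⟩
  rw [← hX] at f1 f3
  rw [← hY] at f3
  have hgr : gr W Q ω J t (wI u I) P.M v = P.M * Y / X := by
    unfold gr
    rw [e1, e2, ← hX, ← hY]
  have hYX : Y ≤ X := by
    rw [hX, hY]
    apply card_le_card
    intro κ hκ
    rw [mem_filter] at hκ ⊢
    exact ⟨hκ.1, hκ.2.1⟩
  have hXpos : 0 < X := by
    have hJ' : (0 : ℝ) < J := by exact_mod_cast hJ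
    have hT : (0 : ℝ) < ((ag (Lv W (bl Q) t) u I).card : ℝ) := by
      exact_mod_cast hne.card_pos
    have h0 : (0 : ℝ) < (J * (ag (Lv W (bl Q) t) u I).card / 2 ^ Q.card : ℝ) / 2 := by
      positivity
    exact_mod_cast lt_of_lt_of_le h0 f1
  have hXr : (0 : ℝ) < X := by exact_mod_cast hXpos
  have hMr : (0 : ℝ) < P.M := by exact_mod_cast hM
  obtain ⟨j, hj⟩ : ∃ j, j = P.M * Y / X := ⟨_, rfl⟩
  have hjM : j ≤ P.M := by
    rw [hj]
    exact Nat.div_le_of_le_mul (by nlinarith)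
  have hj1 : j * X ≤ P.M * Y := by
    rw [hj]
    exact Nat.div_mul_le_self _ _
  have hj2 : P.M * Y < (j + 1) * X := by
    rw [hj]
    have := Nat.lt_div_mul_add (a := P.M * Y) hXpos
    nlinarith
  have hj1' : (j : ℝ) * X ≤ P.M * Y := by exact_mod_cast hj1
  have hj2' : (P.M : ℝ) * Y < (j + 1) * X := by exact_mod_cast hj2
  have hfq := fq_mem (ag (Lv W (bl Q) t) u I) v
  obtain ⟨π, hπ⟩ : ∃ π, π = fq (ag (Lv W (bl Q) t) u I) v := ⟨_, rfl⟩
  rw [← hπ] at f3 hfq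
  have habs : |π - (j : ℝ) / P.M| ≤ 2 / P.M := by
    obtain ⟨g1, g2⟩ := abs_le.1 f3
    have k1 : (1 : ℝ) / P.M * X * P.M = X := by field_simp
    have k2 : π * P.M - j ≤ 2 := by
      by_contra hcon
      push Not at hcon
      nlinarith [mul_le_mul_of_nonneg_right g1 hMr.le, mul_lt_mul_of_pos_right hcon hXr]
    have k3 : -2 ≤ π * P.M - j := by
      by_contra hcon
      push Not at hcon
      nlinarith [mul_le_mul_of_nonneg_right g2 hMr.le, mul_lt_mul_of_pos_right hcon hXr]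
    have k4 : π - (j : ℝ) / P.M = (π * P.M - j) / P.M := by field_simp
    rw [k4, abs_div, abs_of_pos hMr]
    exact div_le_div_of_nonneg_right (abs_le.2 ⟨k3, k2⟩) hMr.le
  have := hEx j hjM π hfq.1 hfq.2 habs
  simp only [sr, hgr, ← hj, ← hπ]
  exact this

/-- A good set `D` finds `u` in the mode B. PROOF. `mem_oR` with `Gd_EB`: for the small block `D` the child is `Go` (`Fd_Go`); for the large block `Q \ D` (`10000 (#Q - #D) > (10000 - d) #Q`) the answer is `vl` filtered by the value, and `off D u ∈ vl`: `Q \ (Q \ D) = D` and the score only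
depends on the entries on `Q \ D`. -/
theorem modeB_one {W : Matrix (Fin n) (Fin n) ℤ} (hW : Wb W) {Go : Rf n} (hG : GO W Go) {P : Lev}
    (hd : P.d ≤ 5000) {Q : Finset (Fin n)} {u : Vc n} (hu : u ∈ S (bl Q)) {t : ℤ} {g : ℕ}
    {ω : Rr n} {w : Pl n P.l} {κ : ℕ} (hκ : κ < 2 ^ eB W Q g ω t)
    (ht : Ph W (fl (dB' Q ω κ) u) = t) (h1 : 10000 * (dB' Q ω κ).card < P.d * Q.card)
    (h2 : sc (sr W P Q ω.1 (Jn n Q.card g) t w) Q (dB' Q ω κ) u ≤ P.Θ Q.card) :
    u ∈ oR W (Ew W Go P Q g ω t w) Q (dB' Q ω) (2 ^ eB W Q g ω t) ((Ph W u + t) / 2) (Ph W u) := by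
  have hu' := mem_S_bl.1 hu
  have hD : dB' Q ω κ ⊆ Q := inter_subset_right
  obtain ⟨D, hDe⟩ : ∃ D, D = dB' Q ω κ := ⟨_, rfl⟩
  rw [← hDe] at h1 h2 hD
  have hon : on D u ∈ S (bl D) := by
    rw [mem_S_bl]
    intro v
    by_cases hv : v ∈ D
    · rw [if_pos hv]
      have h := hu' v
      rw [if_pos (hD hv)] at h
      simpa only [on, if_pos hv] using h
    · rw [if_neg hv]
      simp only [on, if_neg hv]
  have hoff : off D u ∈ S (bl (Q \ D)) := by
    rw [mem_S_bl]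
    intro v
    have h := hu' v
    by_cases hv : v ∈ D
    · rw [if_neg (fun hh => (mem_sdiff.1 hh).2 hv)]
      simp only [off, if_pos hv]
    · by_cases hvQ : v ∈ Q
      · rw [if_pos (mem_sdiff.2 ⟨hvQ, hv⟩)]
        rw [if_pos hvQ] at h
        simpa only [off, if_neg hv] using h
      · rw [if_neg (fun hh => hvQ (mem_sdiff.1 hh).1)]
        rw [if_neg hvQ] at h
        simpa only [off, if_neg hv] using h
  have hcard : (Q \ D).card + D.card = Q.card := card_sdiff_add_card_eq_card hD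
  have hsc : sc (sr W P Q ω.1 (Jn n Q.card g) t w) Q (Q \ (Q \ D)) (off D u) =
      sc (sr W P Q ω.1 (Jn n Q.card g) t w) Q D u := by
    rw [Finset.sdiff_sdiff_eq_self hD]
    unfold sc
    congr 1
    apply sum_congr rfl
    intro v hv
    have : off D u v = u v := by simp only [off, if_neg (mem_sdiff.1 hv).2]
    rw [this]
  apply mem_oR hW (Gd_EB hG P.d _ Q _) hu hκ
  · rw [← hDe]
    exact hD
  · exact ht
  · rw [← hDe]
    intro j A hA
    have hA' : Go D (Ph W (on D u)) j = some A := by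
      simp only [EB] at hA
      rwa [if_pos h1] at hA
    exact Fd_Go hW hG hon j A hA'
  · rw [← hDe]
    intro j A hA
    simp only [EB] at hA
    have n1 : ¬ 10000 * (Q \ D).card < P.d * Q.card := by
      intro hcon
      nlinarith
    have n2 : (10000 - P.d) * Q.card < 10000 * (Q \ D).card := by
      have hd' : (10000 - P.d) + P.d = 10000 := by omega
      nlinarith
    rw [if_neg n1, if_pos n2] at hA
    by_cases hc : (vl (sr W P Q ω.1 (Jn n Q.card g) t w) Q (Q \ D) (P.Θ Q.card)).card ≤ 2 ^ j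
    · rw [if_pos hc] at hA
      rw [← Option.some_inj.1 hA, mem_filter]
      refine ⟨?_, rfl⟩
      unfold vl
      rw [mem_filter]
      exact ⟨hoff, by rw [hsc]; exact h2⟩
    · rw [if_neg hc] at hA
      exact absurd hA (by simp)

end Pool.Agent.MPa9445a.SB
end

section

/-! The running time of the list of the small sets in the code. -/

set_option autoImplicit false

open Finset

namespace Pool.Agent.MPa9445a.GS

open Pool.Agent.MPa9445a.BE (Ty Env vs one Bd NL DL tb flt gt bit Phi vec code lin argmax Bd.const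
  Bd.add Bd.mul Bd.le Bd.up Bd.var Bd.self)
open Pool.Agent.MPa9445a.GD
open Pool.Agent.MPa9445a.SN (kb)
open Pool.Agent.MPa9445a.GL (Pc Pf Df rk sv rc dk RL Zn LL lvv inl EE HE HF HL PP Pm c_rk bd_rk c_rc
  c_dk c_RL c_Zn c_LL bd_LL c_lvv c_inl c_bl c_EE)

/-- The loop inequality. -/
theorem lp {N m : ℕ} {k w : ℝ} (hw : 1 ≤ w) (h : k ≤ ((N : ℝ) + 2) ^ m * w) :
    k + 1 ≤ ((N : ℝ) + 2) ^ (m + 1) * w := by
  have h4 : (0 : ℝ) ≤ N := Nat.cast_nonneg _
  have h8 : (1 : ℝ) ≤ ((N : ℝ) + 2) ^ m := one_le_pow₀ (by linarith)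
  have h10 : (1 : ℝ) ≤ ((N : ℝ) + 2) ^ m * w := one_le_mul_of_one_le_of_one_le h8 hw
  have h11 : 0 ≤ (N : ℝ) * (((N : ℝ) + 2) ^ m * w) := by positivity
  rw [pow_succ]
  nlinarith

theorem one_le_two_pow' (b : ℕ) : (1 : ℝ) ≤ (2 : ℝ) ^ b := one_le_pow₀ (by norm_num)

variable {A : Type} {N : A → ℕ} {D : A → Prop} {Γ : List Ty} {ρ : A → Env Γ}

theorem c_pcn {n c : A → ℕ} (hn : PN N D ρ n) (bn : Bd N D n) (hc : PN N D ρ c) :
    PN N D ρ (fun a => pcn (n a) (c a)) :=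
  PN.sum hn bn fun _ _ up hv => PN.bit (up.n hc) hv (Bd.var bn)

theorem bd_pcn {n c : A → ℕ} (bn : Bd N D n) : Bd N D (fun a => pcn (n a) (c a)) :=
  bn.le fun _ _ => pcn_le _ _

theorem c_sdr {n o r c : A → ℕ} {H : A → List ℤ} (hn : PN N D ρ n) (bn : Bd N D n)
    (hH : PA N D ρ H) (ho : PN N D ρ o) (hr : PN N D ρ r) (br : Bd N D r) (hc : PN N D ρ c) :
    PN N D ρ (fun a => sdr (n a) (H a) (o a) (r a) (c a)) :=
  PN.sum hr br fun _ _ up hv => PN.mul (c_parN (up.n hn) (bn.up _) (up.a hH) (up.n ho) hv (up.n hc))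
    (PN.pow2 hv (Bd.var br))

theorem c_key {n o r c : A → ℕ} {H : A → List ℤ} (hn : PN N D ρ n) (bn : Bd N D n)
    (hH : PA N D ρ H) (ho : PN N D ρ o) (hr : PN N D ρ r) (br : Bd N D r) (hc : PN N D ρ c) :
    PN N D ρ (fun a => key (n a) (H a) (o a) (r a) (c a)) :=
  PN.add (PN.mul (PN.add (PN.mul (c_pcn hn bn hc) (PN.pow2 hr br)) (c_sdr hn bn hH ho hr br hc))
    (PN.pow2 hn bn)) hc

theorem c_kbt {n r : A → ℕ} (hn : PN N D ρ n) (hr : PN N D ρ r) :
    PN N D ρ (fun a => kbt (n a) (r a)) := PN.add (PN.mul (PN.const 2) hn) hr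

theorem bd_kbt {n r : A → ℕ} (bn : Bd N D n) (br : Bd N D r) :
    Bd N D (fun a => kbt (n a) (r a)) := ((Bd.const 2).mul bn).add br

theorem c_lse {n o r : A → ℕ} {H : A → List ℤ} (hn : PN N D ρ n) (bn : Bd N D n)
    (hH : PA N D ρ H) (ho : PN N D ρ o) (hr : PN N D ρ r) (br : Bd N D r) :
    Cp N D ρ (fun _ a => (2 : ℝ) ^ (n a - n a / 2)) .arr
      (fun a => lse (n a) (H a) (o a) (r a)) := by
  have hn2 := PN.div hn (PN.const 2)
  have bn2 : Bd N D (fun a => n a / 2) := bn.le fun _ _ => Nat.div_le_self _ _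
  have hx := PN.sub hn hn2
  have bx : Bd N D (fun a => n a - n a / 2) := bn.le fun _ _ => Nat.sub_le _ _
  have h1 := Cp.tab (w := one) (PN.pow2 hx bx) (fun _ _ _ _ => le_refl _)
    (f := fun a x => (key (n a) (H a) (o a) (r a) (x * 2 ^ (n a / 2)) : ℤ)) fun Γ1 ρ1 up hv =>
      c_key (up.n hn) (bn.up _) (up.a hH) (up.n ho) (up.n hr) (br.up _)
        (PN.mul hv (PN.pow2 (up.n hn2) (bn2.up _)))
  have h2 : Cp N D ρ (fun _ a => (2 : ℝ) ^ (n a - n a / 2)) .arr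
      (fun a => tb (2 ^ (n a - n a / 2)) fun x =>
        (key (n a) (H a) (o a) (r a) (x * 2 ^ (n a / 2)) : ℤ)) := by
    refine h1.mono_poly 1 fun a _ τ _ => ⟨one_le_two_pow' _, ?_⟩
    have h3 := lp (N := N a) (m := 0) (one_le_two_pow' (n a - n a / 2))
      (k := (2 : ℝ) ^ (n a - n a / 2)) (by rw [pow_zero, one_mul])
    simp only [one, mul_one]
    push_cast
    exact h3
  refine h2.store fun Γ1 ρ1 k1 hT => ?_
  refine (Cp.srt (c_kbt (k1.n hn) (k1.n hr)) (bd_kbt bn br) hT).mono_poly 1 fun a _ τ _ =>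
    ⟨one_le_two_pow' _, ?_⟩
  have h3 := lp (N := N a) (m := 0) (one_le_two_pow' (n a - n a / 2))
    (k := (2 : ℝ) ^ (n a - n a / 2)) (by rw [pow_zero, one_mul])
  have h4 : (tb (2 ^ (n a - n a / 2)) fun x =>
      (key (n a) (H a) (o a) (r a) (x * 2 ^ (n a / 2)) : ℤ)).length = 2 ^ (n a - n a / 2) :=
    GL.length_tb _ _
  rw [h4]
  push_cast
  exact h3

theorem c_lok {n o r c j : A → ℕ} {H : A → List ℤ} (hn : PN N D ρ n) (bn : Bd N D n)
    (hH : PA N D ρ H) (ho : PN N D ρ o) (hr : PN N D ρ r) (br : Bd N D r) (hc : PN N D ρ c)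
    (hj : PN N D ρ j) : PI N D ρ (fun a => lok (n a) (H a) (o a) (r a) (c a) (j a)) := by
  have h1 : PI N D ρ (fun a => (((j a * 2 ^ r a + sdr (n a) (H a) (o a) (r a) (c a) : ℕ) : ℤ) *
      ((2 ^ n a : ℕ) : ℤ))) :=
    PI.mul (PN.add (PN.mul hj (PN.pow2 hr br)) (c_sdr hn bn hH ho hr br hc)) (PN.pow2 hn bn)
  refine h1.congr fun a _ => ?_
  unfold lok
  push_cast
  rfl

/-- The power as an integer. -/
theorem c_twoZ {b : A → ℕ} (hb : PN N D ρ b) (bb : Bd N D b) :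
    PI N D ρ (fun a => (2 : ℤ) ^ b a) :=
  (PN.pow2 hb bb).congr fun a _ => by
    push_cast
    rfl

/-- The number of the sets. -/
theorem c_lsn {n o r s : A → ℕ} {H L : A → List ℤ} (hn : PN N D ρ n) (bn : Bd N D n)
    (hH : PA N D ρ H) (hL : PA N D ρ L) (ho : PN N D ρ o) (hr : PN N D ρ r) (br : Bd N D r)
    (hs : PN N D ρ s) (bs : Bd N D s) :
    Cp N D ρ (fun _ a => (2 : ℝ) ^ (n a / 2)) .int
      (fun a => (lsn (n a) (H a) (L a) (o a) (r a) (s a) : ℤ)) := by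
  have hn2 := PN.div hn (PN.const 2)
  have bn2 : Bd N D (fun a => n a / 2) := bn.le fun _ _ => Nat.div_le_self _ _
  have hs1 := PN.add hs (PN.const 1)
  have hk : PN N D ρ (fun a => 2 ^ (n a / 2) * (s a + 1)) := PN.mul (PN.pow2 hn2 bn2) hs1
  have h := Cp.sum (w := one) hk (fun _ _ _ _ => le_refl _)
    (f := fun a x => ((if pcn (n a) (x / (s a + 1)) + x % (s a + 1) ≤ s a then
      lb (L a) 0 (lok (n a) (H a) (o a) (r a) (x / (s a + 1)) (x % (s a + 1)) + 2 ^ n a)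
        (kbt (n a) (r a) + 1) - lb (L a) 0 (lok (n a) (H a) (o a) (r a) (x / (s a + 1))
          (x % (s a + 1))) (kbt (n a) (r a) + 1) else 0 : ℕ) : ℤ)) fun Γ1 ρ1 up hv => by
        have hc := PN.div hv (up.n hs1)
        have hj := PN.mod hv (up.n hs1)
        have hn1 := up.n hn
        have hlo := c_lok hn1 (bn.up _) (up.a hH) (up.n ho) (up.n hr) (br.up _) hc hj
        have hhi := PI.add hlo (c_twoZ hn1 (bn.up _))
        have hm := PN.add (c_kbt hn1 (up.n hr)) (PN.const 1)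
        have bm := ((bd_kbt bn br).add (Bd.const 1)).up (fun a => 2 ^ (n a / 2) * (s a + 1))
        exact PN.ite (PB.leN (PN.add (c_pcn hn1 (bn.up _) hc) hj) (up.n hs))
          (PN.sub (c_lb (up.a hL) (PN.const 0) hhi hm bm) (c_lb (up.a hL) (PN.const 0) hlo hm bm))
          (PN.const 0)
  obtain ⟨m, hm⟩ := bs.add (Bd.const 1)
  refine (h.mono_poly (m + 1) fun a ha τ _ => ⟨one_le_two_pow' _, ?_⟩).congr fun a _ => ?_
  · have h5 : ((s a + 1 : ℕ) : ℝ) ≤ ((N a : ℝ) + 2) ^ m := by exact_mod_cast hm a ha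
    have h6 := lp (N := N a) (m := m) (one_le_two_pow' (n a / 2))
      (k := ((2 ^ (n a / 2) * (s a + 1) : ℕ) : ℝ)) (by
        rw [Nat.cast_mul, mul_comm]
        push_cast at h5 ⊢
        exact mul_le_mul_of_nonneg_right h5 (by positivity))
    simp only [one, mul_one]
    exact h6
  · unfold lsn
    push_cast
    rfl

/-- The list of the sets. -/
theorem c_lsD {n o r s : A → ℕ} {H L : A → List ℤ} (hn : PN N D ρ n) (bn : Bd N D n)
    (hH : PA N D ρ H) (hL : PA N D ρ L) (ho : PN N D ρ o) (hr : PN N D ρ r) (br : Bd N D r)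
    (hs : PN N D ρ s) (bs : Bd N D s) :
    Cp N D ρ (fun _ a => (2 : ℝ) ^ (n a / 2) + lsn (n a) (H a) (L a) (o a) (r a) (s a)) .arr
      (fun a => lsD (n a) (H a) (L a) (o a) (r a) (s a)) := by
  have hn2 := PN.div hn (PN.const 2)
  have bn2 : Bd N D (fun a => n a / 2) := bn.le fun _ _ => Nat.div_le_self _ _
  have hs1 := PN.add hs (PN.const 1)
  have hk : PN N D ρ (fun a => 2 ^ (n a / 2) * (s a + 1)) := PN.mul (PN.pow2 hn2 bn2) hs1
  have h := Cp.cat (k := fun a => 2 ^ (n a / 2) * (s a + 1))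
    (f := fun a x => if pcn (n a) (x / (s a + 1)) + x % (s a + 1) ≤ s a then
      (qry (n a) (H a) (L a) (o a) (r a) (x / (s a + 1)) (x % (s a + 1))).map fun y =>
        y + ((x / (s a + 1) : ℕ) : ℤ) else [])
    (w := fun _ p => (((if pcn (n p.1) (p.2 / (s p.1 + 1)) + p.2 % (s p.1 + 1) ≤ s p.1 then
      (qry (n p.1) (H p.1) (L p.1) (o p.1) (r p.1) (p.2 / (s p.1 + 1)) (p.2 % (s p.1 + 1))).map
        fun y => y + ((p.2 / (s p.1 + 1) : ℕ) : ℤ) else []).length : ℕ) : ℝ) + 1) hk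
    (fun Γ1 ρ1 up hv => by
      have hc := PN.div hv (up.n hs1)
      have hj := PN.mod hv (up.n hs1)
      have hn1 := up.n hn
      have hlo := c_lok hn1 (bn.up _) (up.a hH) (up.n ho) (up.n hr) (br.up _) hc hj
      have hhi := PI.add hlo (c_twoZ hn1 (bn.up _))
      have hm := PN.add (c_kbt hn1 (up.n hr)) (PN.const 1)
      have bm := ((bd_kbt bn br).add (Bd.const 1)).up (fun a => 2 ^ (n a / 2) * (s a + 1))
      have hq := PB.leN (PN.add (c_pcn hn1 (bn.up _) hc) hj) (up.n hs)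
      have h1 : Cp (NL N) (DL D fun a => 2 ^ (n a / 2) * (s a + 1)) ρ1 (fun _ p =>
          ((qry (n p.1) (H p.1) (L p.1) (o p.1) (r p.1) (p.2 / (s p.1 + 1))
            (p.2 % (s p.1 + 1))).length : ℝ) + 1) .arr (fun p =>
          qry (n p.1) (H p.1) (L p.1) (o p.1) (r p.1) (p.2 / (s p.1 + 1)) (p.2 % (s p.1 + 1))) :=
        c_rg (up.a hL) (PN.const 0) hlo hhi hm bm
      have h2 : Cp (NL N) (DL D fun a => 2 ^ (n a / 2) * (s a + 1)) ρ1 (fun _ p =>
          ((qry (n p.1) (H p.1) (L p.1) (o p.1) (r p.1) (p.2 / (s p.1 + 1))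
            (p.2 % (s p.1 + 1))).length : ℝ) + 1) .arr (fun p =>
          (qry (n p.1) (H p.1) (L p.1) (o p.1) (r p.1) (p.2 / (s p.1 + 1))
            (p.2 % (s p.1 + 1))).map fun y => y + ((p.2 / (s p.1 + 1) : ℕ) : ℤ)) := by
        refine h1.store fun Γ2 ρ2 k2 hQ => ?_
        exact Cp.mapL (f := fun p y => y + ((p.2 / (s p.1 + 1) : ℕ) : ℤ)) hQ
          fun Γ3 ρ3 up3 hi => PI.add (PI.get (up3.a hQ) hi) (up3.n (k2.n hc))
      refine (Cp.iteA hq (Cp.dom h2 fun a h => h.1)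
        ((PA.nil (ρ := ρ1) (D := DL D fun a => 2 ^ (n a / 2) * (s a + 1))).dom
          fun a h => h.1)).mono fun p _ τ _ => ?_
      split_ifs
      · rw [List.length_map]
      · simp [one])
    ⟨0, fun a _ i _ τ _ => by
      rw [pow_zero, one_mul]
      exact le_add_of_nonneg_right zero_le_one⟩
  obtain ⟨m, hm⟩ := bs.add (Bd.const 1)
  refine h.mono_poly (m + 2) fun a ha τ _ => ?_
  have h0 : (0 : ℝ) ≤ (lsn (n a) (H a) (L a) (o a) (r a) (s a) : ℝ) := Nat.cast_nonneg _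
  have h01 := one_le_two_pow' (n a / 2)
  have hW : (1 : ℝ) ≤ (2 : ℝ) ^ (n a / 2) + lsn (n a) (H a) (L a) (o a) (r a) (s a) := by linarith
  refine ⟨hW, ?_⟩
  have h5 : ((s a + 1 : ℕ) : ℝ) ≤ ((N a : ℝ) + 2) ^ m := by exact_mod_cast hm a ha
  have e1 : ∑ i ∈ range (2 ^ (n a / 2) * (s a + 1)),
      ((((if pcn (n a) (i / (s a + 1)) + i % (s a + 1) ≤ s a then
      (qry (n a) (H a) (L a) (o a) (r a) (i / (s a + 1)) (i % (s a + 1))).map
        fun y => y + ((i / (s a + 1) : ℕ) : ℤ) else []).length : ℕ) : ℝ) + 1) =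
      (lsn (n a) (H a) (L a) (o a) (r a) (s a) : ℝ) + ((2 ^ (n a / 2) * (s a + 1) : ℕ) : ℝ) := by
    rw [Finset.sum_add_distrib, Finset.sum_const, Finset.card_range, nsmul_eq_mul, mul_one,
      ← length_lsD]
    unfold lsD
    rw [length_fm]
    push_cast
    rfl
  show 1 + _ ≤ _
  rw [e1]
  have h6 : ((2 ^ (n a / 2) * (s a + 1) : ℕ) : ℝ) ≤ ((N a : ℝ) + 2) ^ m * (2 : ℝ) ^ (n a / 2) := by
    rw [Nat.cast_mul, mul_comm]
    push_cast at h5 ⊢
    exact mul_le_mul_of_nonneg_right h5 (by positivity)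
  have h4 : (0 : ℝ) ≤ N a := Nat.cast_nonneg _
  have h8 : (1 : ℝ) ≤ ((N a : ℝ) + 2) ^ m := one_le_pow₀ (by linarith)
  have h7 : (lsn (n a) (H a) (L a) (o a) (r a) (s a) : ℝ) ≤ ((N a : ℝ) + 2) ^ m *
      (lsn (n a) (H a) (L a) (o a) (r a) (s a) : ℝ) := le_mul_of_one_le_left h0 h8
  have h9 : (lsn (n a) (H a) (L a) (o a) (r a) (s a) : ℝ) +
      ((2 ^ (n a / 2) * (s a + 1) : ℕ) : ℝ) ≤ ((N a : ℝ) + 2) ^ (m + 1) *
      ((2 : ℝ) ^ (n a / 2) + lsn (n a) (H a) (L a) (o a) (r a) (s a)) := by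
    have h10 : 0 ≤ ((N a : ℝ) + 1) * (((N a : ℝ) + 2) ^ m *
      ((2 : ℝ) ^ (n a / 2) + lsn (n a) (H a) (L a) (o a) (r a) (s a))) := by positivity
    rw [pow_succ]
    nlinarith
  have h11 := lp (N := N a) (m := m + 1) hW h9
  linarith

/-! ## The list of the algorithm -/

theorem c_cdn {n : A → ℕ} {R : A → List ℤ} (hn : PN N D ρ n) (bn : Bd N D n) (hR : PA N D ρ R) :
    Cp N D ρ (fun _ a => (2 : ℝ) ^ (n a - n a / 2)) .int (fun a => (cdn (n a) (R a) : ℤ)) := by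
  refine (c_lse hn bn hR (c_oH hn) (c_Rc hn) (bd_Rc bn)).store fun Γ1 ρ1 k1 hL => ?_
  refine (c_lsn (k1.n hn) bn (k1.a hR) hL (c_oH (k1.n hn)) (c_Rc (k1.n hn)) (bd_Rc bn)
    (c_sN (k1.n hn)) (bd_sN bn)).mono fun a _ τ _ => ?_
  exact pow_le_pow_right₀ (by norm_num) (by omega)

theorem c_cdl {n : A → ℕ} {R : A → List ℤ} (hn : PN N D ρ n) (bn : Bd N D n) (hR : PA N D ρ R) :
    Cp N D ρ (fun _ a => (2 : ℝ) ^ (n a - n a / 2) + cdn (n a) (R a)) .arr
      (fun a => cdl (n a) (R a)) := by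
  have h0 : ∀ a, D a → ∀ τ : ℝ, 2 ≤ τ → (2 : ℝ) ^ (n a - n a / 2) ≤
      (2 : ℝ) ^ (n a - n a / 2) + cdn (n a) (R a) := fun a _ _ _ =>
    le_add_of_nonneg_right (Nat.cast_nonneg _)
  refine ((c_lse hn bn hR (c_oH hn) (c_Rc hn) (bd_Rc bn)).mono h0).store fun Γ1 ρ1 k1 hL => ?_
  refine (c_lsD (k1.n hn) bn (k1.a hR) hL (c_oH (k1.n hn)) (c_Rc (k1.n hn)) (bd_Rc bn)
    (c_sN (k1.n hn)) (bd_sN bn)).mono fun a _ τ _ => ?_
  have h1 : (2 : ℝ) ^ (n a / 2) ≤ (2 : ℝ) ^ (n a - n a / 2) :=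
    pow_le_pow_right₀ (by norm_num) (by omega)
  exact add_le_add_left h1 _

end Pool.Agent.MPa9445a.GS
end

section

/-! The running time of the table and of the leaves. -/

set_option autoImplicit false

open Finset

namespace Pool.Agent.MPa9445a.GS

open Pool.Agent.MPa9445a.BE (Ty Env vs one Bd NL DL tb flt gt bit Phi vec code lin argmax Bd.const
  Bd.add Bd.mul Bd.le Bd.up Bd.var Bd.self)
open Pool.Agent.MPa9445a.GD
open Pool.Agent.MPa9445a.SN (kb)
open Pool.Agent.MPa9445a.GL (Pc Pf Df rk sv rc dk RL Zn LL lvv inl EE HE HF HL PP Pm c_rk bd_rk c_rc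
  c_dk c_RL c_Zn c_LL bd_LL c_lvv c_inl c_bl c_EE Bd.dom')

variable {A : Type} {N : A → ℕ} {D : A → Prop} {Γ : List Ty} {ρ : A → Env Γ}

/-- The sum of the budgets, the list is stored. -/
theorem c_tbw {n : A → ℕ} {R : A → List ℤ} (hn : PN N D ρ n) (bn : Bd N D n)
    (hL : PA N D ρ (fun a => cdl (n a) (R a))) :
    Cp N D ρ (fun _ a => (cdn (n a) (R a) : ℝ) + 1) .int (fun a => (tbw (n a) (R a) : ℤ)) := by
  have h := Cp.sum (w := one) (PN.len hL) (fun _ _ _ _ => le_refl _)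
    (f := fun a i => ((2 ^ jt (n a) (pcn (n a) (gt (cdl (n a) (R a)) i).toNat) : ℕ) : ℤ))
    fun Γ1 ρ1 up hv => by
      have hn1 := up.n hn
      exact PN.pow2 (c_jt hn1 (bn.up _) (c_pcn hn1 (bn.up _) (PN.toNat (PI.get (up.a hL) hv))))
        (bd_jt (bn.up _) (bd_pcn (bn.up _)))
  refine (h.mono fun a _ τ _ => ?_).congr fun a _ => ?_
  · have h1 : (cdl (n a) (R a)).length = cdn (n a) (R a) := length_lsD _ _ _ _ _ _
    rw [h1, one, mul_one]
  · unfold tbw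
    push_cast
    rfl

theorem c_kyT {n c x : A → ℕ} (hn : PN N D ρ n) (bn : Bd N D n) (hc : PN N D ρ c)
    (hx : PN N D ρ x) : PI N D ρ (fun a => kyT (n a) (c a) (x a)) :=
  PI.mul (PN.add (PN.mul hc (c_LL hn)) hx) (c_twoZ (PN.add hn (PN.const 1)) (bn.add (Bd.const 1)))

theorem c_bkA {n c : A → ℕ} (hn : PN N D ρ n) (bn : Bd N D n) (hc : PN N D ρ c) :
    PA N D ρ (fun a => bkA (n a) (c a)) :=
  PA.tab hn bn fun _ _ up hv => Cp.ite (PB.eqN (PN.bit (up.n hc) hv (Bd.var bn)) (PN.const 1))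
    (PI.const 2) (PI.const 0)

theorem c_anT {n c x : A → ℕ} {M R : A → List ℤ} (hn : PN N D ρ n) (bn : Bd N D n)
    (hM : PA N D ρ M) (hR : PA N D ρ R) (hc : PN N D ρ c) (hx : PN N D ρ x) :
    Cp N D ρ (fun _ a => (2 : ℝ) ^ jt (n a) (pcn (n a) (c a))) .arr
      (fun a => anT (n a) (M a) (R a) (c a) (x a)) :=
  c_GO _ _ _ _ ρ _ _ _ _ _ _ hn bn hM hR (c_bkA hn bn hc) (c_lvv hn hx)
    (c_jt hn bn (c_pcn hn bn hc)) (bd_jt bn (bd_pcn bn))

theorem length_enT (n : ℕ) (M R : List ℤ) (c x : ℕ) :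
    (enT n M R c x).length ≤ 1 + 2 ^ jt n (pcn n c) := by
  unfold enT
  have h1 := length_GO_le n M R (bkA n c) (lvv n x) (jt n (pcn n c))
  split_ifs
  · simp
  · rw [GL.length_tb]
    unfold anT
    omega

theorem c_enT {n c x : A → ℕ} {M R : A → List ℤ} (hn : PN N D ρ n) (bn : Bd N D n)
    (hM : PA N D ρ M) (hR : PA N D ρ R) (hc : PN N D ρ c) (hx : PN N D ρ x) :
    Cp N D ρ (fun _ a => (2 : ℝ) ^ jt (n a) (pcn (n a) (c a))) .arr
      (fun a => enT (n a) (M a) (R a) (c a) (x a)) := by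
  refine (c_anT hn bn hM hR hc hx).store fun Γ1 ρ1 k1 hA => ?_
  have hn1 := k1.n hn
  have hk := c_kyT hn1 bn (k1.n hc) (k1.n hx)
  have h1 : Cp N D ρ1 (fun _ a => (2 : ℝ) ^ jt (n a) (pcn (n a) (c a))) .arr
      (fun a => [kyT (n a) (c a) (x a) + 2 ^ n a]) :=
    (PA.one (PI.add hk (c_twoZ hn1 bn))).lift fun a _ τ _ => one_le_two_pow' _
  have h2 := Cp.tab (w := one) (PN.sub (PN.len hA) (PN.const 1)) (fun _ _ _ _ => le_refl _)
    (f := fun a i => kyT (n a) (c a) (x a) + gt (anT (n a) (M a) (R a) (c a) (x a)) (1 + i))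
    fun Γ2 ρ2 up2 hv => PI.add (up2.i hk) (PI.get (up2.a hA) (PN.add (PN.const 1) hv))
  have h3 : Cp N D ρ1 (fun _ a => (2 : ℝ) ^ jt (n a) (pcn (n a) (c a))) .arr
      (fun a => tb ((anT (n a) (M a) (R a) (c a) (x a)).length - 1) fun i =>
        kyT (n a) (c a) (x a) + gt (anT (n a) (M a) (R a) (c a) (x a)) (1 + i)) := by
    refine h2.mono_poly 1 fun a _ τ _ => ⟨one_le_two_pow' _, ?_⟩
    have h4 : (anT (n a) (M a) (R a) (c a) (x a)).length - 1 ≤ 2 ^ jt (n a) (pcn (n a) (c a)) :=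
      Nat.sub_le_iff_le_add'.2 (length_GO_le (n a) (M a) (R a) (bkA (n a) (c a)) (lvv (n a) (x a))
        (jt (n a) (pcn (n a) (c a))))
    have h5 : (((anT (n a) (M a) (R a) (c a) (x a)).length - 1 : ℕ) : ℝ) ≤
        (2 : ℝ) ^ jt (n a) (pcn (n a) (c a)) := by exact_mod_cast h4
    have h6 := lp (N := N a) (m := 0) (one_le_two_pow' _) (k :=
      (((anT (n a) (M a) (R a) (c a) (x a)).length - 1 : ℕ) : ℝ)) (by
        rw [pow_zero, one_mul]
        exact h5)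
    simp only [one, mul_one]
    exact h6
  refine (Cp.iteA (PB.eqN (PN.len hA) (PN.const 0)) (Cp.dom h1 fun a h => h.1)
    (Cp.dom h3 fun a h => h.1)).mono fun a _ τ _ => ?_
  split_ifs <;> exact le_rfl

theorem sum_tbw (n : ℕ) (R : List ℤ) (f : ℕ → ℝ)
    (hf : ∀ c, f c = (2 : ℝ) ^ jt n (pcn n c)) :
    ∑ y ∈ range ((cdl n R).length * LL n), f (gt (cdl n R) (y / LL n)).toNat =
      (LL n : ℝ) * tbw n R := by
  have hL : 0 < LL n := by
    unfold GL.LL
    omega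
  have key : ∀ k : ℕ, ∑ y ∈ range (k * LL n), f (gt (cdl n R) (y / LL n)).toNat =
      (LL n : ℝ) * ∑ i ∈ range k, f (gt (cdl n R) i).toNat := by
    intro k
    induction k with
    | zero => simp
    | succ k ih =>
      have e1 : (k + 1) * LL n = k * LL n + LL n := by ring
      rw [e1, Finset.sum_range_add, ih, Finset.sum_range_succ, mul_add]
      congr 1
      have e2 : ∀ x ∈ range (LL n), f (gt (cdl n R) ((k * LL n + x) / LL n)).toNat =
          f (gt (cdl n R) k).toNat := by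
        intro x hx
        rw [mem_range] at hx
        rw [Nat.mul_comm k, Nat.mul_add_div hL, Nat.div_eq_of_lt hx, add_zero]
      rw [Finset.sum_congr rfl e2, Finset.sum_const, Finset.card_range, nsmul_eq_mul]
  rw [key]
  unfold tbw
  push_cast
  congr 1
  exact Finset.sum_congr rfl fun i _ => hf _

theorem length_TBu_le (n : ℕ) (M R : List ℤ) :
    (TBu n M R).length ≤ 2 * (LL n * tbw n R) := by
  have h1 : (TBu n M R).length ≤ ∑ y ∈ range ((cdl n R).length * LL n),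
      2 * 2 ^ jt n (pcn n (gt (cdl n R) (y / LL n)).toNat) := by
    unfold TBu
    rw [length_fm]
    refine Finset.sum_le_sum fun y _ => (length_enT _ _ _ _ _).trans ?_
    have : 0 < 2 ^ jt n (pcn n (gt (cdl n R) (y / LL n)).toNat) := by positivity
    omega
  have h2 := sum_tbw n R (fun c => (2 : ℝ) ^ jt n (pcn n c)) fun _ => rfl
  have h3 : (((∑ y ∈ range ((cdl n R).length * LL n),
      2 * 2 ^ jt n (pcn n (gt (cdl n R) (y / LL n)).toNat) : ℕ)) : ℝ) =
      ((2 * (LL n * tbw n R) : ℕ) : ℝ) := by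
    rw [← Finset.mul_sum]
    push_cast
    rw [← h2]
  exact h1.trans (by exact_mod_cast h3.le)

theorem c_kT {n : A → ℕ} (hn : PN N D ρ n) : PN N D ρ (fun a => kT (n a)) :=
  PN.add (PN.add (PN.add (PN.mul (PN.const 2) hn) (PN.const 2)) (c_LL hn)) (c_oT hn)

theorem bd_kT {n : A → ℕ} (bn : Bd N D n) : Bd N D (fun a => kT (n a)) :=
  ((((Bd.const 2).mul bn).add (Bd.const 2)).add (bd_LL bn)).add (bd_oT bn)

/-- The table before sorting. -/
theorem c_TBu {n b : A → ℕ} {M R : A → List ℤ} (hn : PN N D ρ n) (bn : Bd N D n)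
    (hM : PA N D ρ M) (hR : PA N D ρ R) (hL : PA N D ρ (fun a => cdl (n a) (R a)))
    (ht : ∀ a, D a → tbw (n a) (R a) ≤ 2 ^ b a) :
    Cp N D ρ (fun _ a => (2 : ℝ) ^ b a) .arr (fun a => TBu (n a) (M a) (R a)) := by
  have h := Cp.cat (k := fun a => (cdl (n a) (R a)).length * LL (n a))
    (f := fun a y => enT (n a) (M a) (R a) (gt (cdl (n a) (R a)) (y / LL (n a))).toNat
      (y % LL (n a)))
    (w := fun _ p => (2 : ℝ) ^ jt (n p.1) (pcn (n p.1)
      (gt (cdl (n p.1) (R p.1)) (p.2 / LL (n p.1))).toNat)) (PN.mul (PN.len hL) (c_LL hn))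
    (fun Γ1 ρ1 up hv => by
      have hn1 := up.n hn
      exact c_enT hn1 (bn.up _) (up.a hM) (up.a hR)
        (PN.toNat (PI.get (up.a hL) (PN.div hv (c_LL hn1)))) (PN.mod hv (c_LL hn1)))
    ⟨1, fun a _ i _ τ _ => by
      have h1 := length_enT (n a) (M a) (R a) (gt (cdl (n a) (R a)) (i / LL (n a))).toNat
        (i % LL (n a))
      have h2 : ((enT (n a) (M a) (R a) (gt (cdl (n a) (R a)) (i / LL (n a))).toNat
        (i % LL (n a))).length : ℝ) ≤ 1 + (2 : ℝ) ^ jt (n a) (pcn (n a)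
          (gt (cdl (n a) (R a)) (i / LL (n a))).toNat) := by exact_mod_cast h1
      have h3 := one_le_two_pow' (jt (n a) (pcn (n a) (gt (cdl (n a) (R a)) (i / LL (n a))).toNat))
      have h4 : (0 : ℝ) ≤ N a := Nat.cast_nonneg _
      rw [pow_one]
      nlinarith⟩
  obtain ⟨m, hm⟩ := bd_LL bn
  refine h.mono_poly (m + 1) fun a ha τ _ => ⟨one_le_two_pow' _, ?_⟩
  have h1 := sum_tbw (n a) (R a) (fun c => (2 : ℝ) ^ jt (n a) (pcn (n a) c)) fun _ => rfl
  show 1 + ∑ y ∈ range ((cdl (n a) (R a)).length * LL (n a)), (2 : ℝ) ^ jt (n a) (pcn (n a)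
    (gt (cdl (n a) (R a)) (y / LL (n a))).toNat) ≤ _
  rw [h1]
  have h5 : (LL (n a) : ℝ) ≤ ((N a : ℝ) + 2) ^ m := by exact_mod_cast hm a ha
  have h6 : (tbw (n a) (R a) : ℝ) ≤ (2 : ℝ) ^ b a := by exact_mod_cast ht a ha
  have h7 : (LL (n a) : ℝ) * tbw (n a) (R a) ≤ ((N a : ℝ) + 2) ^ m * (2 : ℝ) ^ b a :=
    mul_le_mul h5 h6 (Nat.cast_nonneg _) (by positivity)
  have h8 := lp (N := N a) (m := m) (one_le_two_pow' (b a)) h7
  linarith

/-- The condition for the table. -/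
theorem c_tok {n b : A → ℕ} {R : A → List ℤ} (hn : PN N D ρ n) (bn : Bd N D n)
    (hR : PA N D ρ R) (hb : PN N D ρ b) (bb : Bd N D b) :
    Cp N D ρ (fun _ a => (2 : ℝ) ^ (n a - n a / 2) + (2 : ℝ) ^ b a) .int
      (fun a => (tok (n a) (R a) (b a) : ℤ)) := by
  have h01 : ∀ a, (1 : ℝ) ≤ (2 : ℝ) ^ (n a - n a / 2) + (2 : ℝ) ^ b a := fun a => by
    have := one_le_two_pow' (n a - n a / 2)
    have := one_le_two_pow' (b a)
    linarith
  have h1 : Cp N D ρ (fun _ a => (2 : ℝ) ^ (n a - n a / 2) + (2 : ℝ) ^ b a) .int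
      (fun a => (cdn (n a) (R a) : ℤ)) := (c_cdn hn bn hR).mono fun a _ τ _ =>
        le_add_of_nonneg_right (by positivity)
  refine h1.store fun Γ1 ρ1 k1 hcn => ?_
  have hcn' : PN N D ρ1 (fun a => cdn (n a) (R a)) := hcn
  have hq1 := PB.leN hcn' (PN.pow2 (k1.n hb) bb)
  have hD1 : ∀ a, (D a ∧ cdn (n a) (R a) ≤ 2 ^ b a) → D a := fun a h => h.1
  have h2 : Cp N (fun a => D a ∧ cdn (n a) (R a) ≤ 2 ^ b a) ρ1
      (fun _ a => (2 : ℝ) ^ (n a - n a / 2) + (2 : ℝ) ^ b a) .int (fun a =>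
      ((if tbw (n a) (R a) ≤ 2 ^ b a then 1 else 0 : ℕ) : ℤ)) := by
    have hn2 := Cp.dom (k1.n hn) hD1
    have bn2 := Bd.dom' bn hD1
    have hwt : ∀ a, (D a ∧ cdn (n a) (R a) ≤ 2 ^ b a) → ∀ τ : ℝ, 2 ≤ τ →
        (2 : ℝ) ^ (n a - n a / 2) + (cdn (n a) (R a) : ℝ) ≤
          (2 : ℝ) ^ (n a - n a / 2) + (2 : ℝ) ^ b a := by
      intro a ha τ _
      have h3 : (cdn (n a) (R a) : ℝ) ≤ (2 : ℝ) ^ b a := by exact_mod_cast ha.2
      linarith
    refine ((c_cdl hn2 bn2 (Cp.dom (k1.a hR) hD1)).mono hwt).store fun Γ2 ρ2 k2 hL => ?_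
    have h4 : Cp N (fun a => D a ∧ cdn (n a) (R a) ≤ 2 ^ b a) ρ2
        (fun _ a => (2 : ℝ) ^ (n a - n a / 2) + (2 : ℝ) ^ b a) .int
        (fun a => (tbw (n a) (R a) : ℤ)) := (c_tbw (k2.n hn2) bn2 hL).mono fun a ha τ _ => by
          have h3 : (cdn (n a) (R a) : ℝ) ≤ (2 : ℝ) ^ b a := by exact_mod_cast ha.2
          have := one_le_two_pow' (n a - n a / 2)
          linarith
    refine h4.store fun Γ3 ρ3 k3 hw => ?_
    have hw' : PN N (fun a => D a ∧ cdn (n a) (R a) ≤ 2 ^ b a) ρ3 (fun a => tbw (n a) (R a)) := hw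
    exact (PN.ite (PB.leN hw' (PN.pow2 (k3.n (k2.n (Cp.dom (k1.n hb) hD1))) (Bd.dom' bb hD1)))
      (PN.const 1) (PN.const 0)).lift fun a _ τ _ => h01 a
  have h5 : Cp N (fun a => D a ∧ ¬ cdn (n a) (R a) ≤ 2 ^ b a) ρ1
      (fun _ a => (2 : ℝ) ^ (n a - n a / 2) + (2 : ℝ) ^ b a) .int (fun _ => ((0 : ℕ) : ℤ)) :=
    (PN.const 0).lift fun a _ τ _ => h01 a
  refine (Cp.iteD hq1 h2 h5).congr fun a _ => ?_
  unfold tok
  push_cast
  rfl

theorem tok_one {n : ℕ} {R : List ℤ} {b : ℕ} (h : tok n R b = 1) :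
    cdn n R ≤ 2 ^ b ∧ tbw n R ≤ 2 ^ b := by
  unfold tok at h
  split_ifs at h with h1 h2
  exact ⟨h1, h2⟩

/-- The table. -/
theorem c_TB {n b : A → ℕ} {M R : A → List ℤ} (hn : PN N D ρ n) (bn : Bd N D n)
    (hM : PA N D ρ M) (hR : PA N D ρ R) (ht : ∀ a, D a → tok (n a) (R a) (b a) = 1) :
    Cp N D ρ (fun _ a => (2 : ℝ) ^ (n a - n a / 2) + (2 : ℝ) ^ b a) .arr
      (fun a => TB (n a) (M a) (R a)) := by
  have hwt : ∀ a, D a → ∀ τ : ℝ, 2 ≤ τ →
      (2 : ℝ) ^ (n a - n a / 2) + (cdn (n a) (R a) : ℝ) ≤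
        (2 : ℝ) ^ (n a - n a / 2) + (2 : ℝ) ^ b a := by
    intro a ha τ _
    have h3 : (cdn (n a) (R a) : ℝ) ≤ (2 : ℝ) ^ b a := by exact_mod_cast (tok_one (ht a ha)).1
    linarith
  refine ((c_cdl hn bn hR).mono hwt).store fun Γ2 ρ2 k2 hL => ?_
  have hn3 := k2.n hn
  have hlen : ∃ m : ℕ, ∀ a, D a →
      ((TBu (n a) (M a) (R a)).length : ℝ) ≤ ((N a : ℝ) + 2) ^ m * (2 : ℝ) ^ b a := by
    obtain ⟨m, hm⟩ := (Bd.const 2).mul (bd_LL bn)
    refine ⟨m, fun a ha => ?_⟩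
    have h6 : ((TBu (n a) (M a) (R a)).length : ℝ) ≤
        (2 * LL (n a) : ℕ) * (tbw (n a) (R a) : ℝ) := by
      have h7 := length_TBu_le (n a) (M a) (R a)
      have h8 : ((TBu (n a) (M a) (R a)).length : ℝ) ≤
        ((2 * (LL (n a) * tbw (n a) (R a)) : ℕ) : ℝ) := by exact_mod_cast h7
      refine h8.trans (le_of_eq ?_)
      push_cast
      ring
    have h9 : ((2 * LL (n a) : ℕ) : ℝ) ≤ ((N a : ℝ) + 2) ^ m := by exact_mod_cast hm a ha
    have h10 : (tbw (n a) (R a) : ℝ) ≤ (2 : ℝ) ^ b a := by exact_mod_cast (tok_one (ht a ha)).2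
    exact h6.trans (mul_le_mul h9 h10 (Nat.cast_nonneg _) (by positivity))
  have h5 : Cp N D ρ2 (fun _ a => (2 : ℝ) ^ b a) .arr (fun a => TB (n a) (M a) (R a)) := by
    refine (c_TBu (b := b) hn3 bn (k2.a hM) (k2.a hR) hL fun a ha =>
      (tok_one (ht a ha)).2).store fun Γ4 ρ4 k4 hT => ?_
    obtain ⟨m, hm⟩ := hlen
    exact (Cp.srt (c_kT (k4.n hn3)) (bd_kT bn) hT).mono_poly (m + 1) fun a ha τ _ =>
      ⟨one_le_two_pow' _, lp (N := N a) (m := m) (one_le_two_pow' _) (hm a ha)⟩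
  exact h5.mono fun a _ τ _ => le_add_of_nonneg_left (by positivity)

theorem length_TB_le (n : ℕ) (M R : List ℤ) (b : ℕ) (h : tok n R b = 1) :
    (TB n M R).length ≤ 2 * (LL n * 2 ^ b) := by
  unfold TB
  rw [(srt_perm _ _).length_eq]
  refine (length_TBu_le n M R).trans ?_
  exact Nat.mul_le_mul_left _ (Nat.mul_le_mul_left _ (tok_one h).2)

/-- The array with the table. -/
theorem c_cct {k : A → ℕ} {R T : A → List ℤ} (hk : PN N D ρ k) (bk : Bd N D k) (hR : PA N D ρ R)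
    (hT : PA N D ρ T) :
    Cp N D ρ (fun _ a => ((T a).length : ℝ) + 1) .arr (fun a => cct (k a) (R a) (T a)) := by
  have h1 := c_cpy hk bk hR
  have hw : ∀ a, (1 : ℝ) ≤ ((T a).length : ℝ) + 1 := fun a => by
    have : (0 : ℝ) ≤ ((T a).length : ℝ) := Nat.cast_nonneg _
    linarith
  have h3 := Cp.app (h1.lift fun a _ τ _ => hw a : Cp N D ρ (fun _ a => ((T a).length : ℝ) + 1) .arr
      (fun a => cpy (k a) (R a))) (hT.lift fun a _ τ _ => hw a) (by
    obtain ⟨m, hm⟩ := bk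
    refine ⟨m + 1, fun a ha τ _ => ?_⟩
    have h4 : ((cpy (k a) (R a)).length : ℝ) ≤ ((N a : ℝ) + 2) ^ m := by
      unfold cpy
      rw [GL.length_tb]
      exact_mod_cast hm a ha
    have h6 : (0 : ℝ) ≤ ((T a).length : ℝ) := Nat.cast_nonneg _
    have h7 : (0 : ℝ) ≤ N a := Nat.cast_nonneg _
    have h8 : (1 : ℝ) ≤ ((N a : ℝ) + 2) ^ m := one_le_pow₀ (by linarith)
    have h9 : ((N a : ℝ) + 2) ^ m * 1 ≤ ((N a : ℝ) + 2) ^ m * (((T a).length : ℝ) + 1) :=
      mul_le_mul_of_nonneg_left (by linarith) (by positivity)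
    have h10 : (1 : ℝ) * (((T a).length : ℝ) + 1) ≤
        ((N a : ℝ) + 2) ^ m * (((T a).length : ℝ) + 1) :=
      mul_le_mul_of_nonneg_right h8 (by linarith)
    have h11 : 0 ≤ (N a : ℝ) * (((N a : ℝ) + 2) ^ m * (((T a).length : ℝ) + 1)) := by positivity
    rw [pow_succ]
    nlinarith)
  refine h3.congr fun a _ => ?_
  unfold cct
  rw [fm_two]
  rfl

/-! ## The leaves -/

theorem c_cdS {n : A → ℕ} {s : A → List ℤ} (hn : PN N D ρ n) (bn : Bd N D n) (hs : PA N D ρ s) :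
    PN N D ρ (fun a => cdS (n a) (s a)) :=
  PN.sum hn bn fun _ _ up hv => PN.ite (PB.eq (PI.get (up.a hs) hv) (PI.const 2))
    (PN.pow2 hv (Bd.var bn)) (PN.const 0)

theorem c_loT {n : A → ℕ} {s : A → List ℤ} {p : A → ℤ} (hn : PN N D ρ n) (bn : Bd N D n)
    (hs : PA N D ρ s) (hp : PI N D ρ p) : PI N D ρ (fun a => loT (n a) (s a) (p a)) :=
  c_kyT hn bn (c_cdS hn bn hs) (PN.toNat (PI.add hp (PI.pow hn 4)))

theorem c_LF : HE LF := by
  intro A N D Γ ρ n M R s p b hn bn hM hR hs hp hb bb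
  have hlo := c_loT hn bn hs hp
  have hhi := PI.add hlo (c_twoZ (PN.add hn (PN.const 1)) (bn.add (Bd.const 1)))
  have ho := c_oT hn
  have hm := c_kT hn
  have bm := bd_kT bn
  have l1 := c_lb hR ho hlo hm bm
  have l2 := c_lb hR ho hhi hm bm
  have hcn : PN N D ρ (fun a => cnT (n a) (R a) (s a) (p a)) := PN.sub l2 l1
  have hq : GD.PB N D ρ (fun a => hit (n a) (R a) (s a) (p a) (b a)) :=
    PB.and (PB.leN (c_rk hs hn bn) (c_sN hn)) (PB.and (PB.eqN (c_sdr hn bn hR (c_oH hn) (c_Rc hn)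
      (bd_Rc bn) (c_cdS hn bn hs)) (PN.const 0)) (PB.and (c_inl hn hp) (PB.and (PB.not (PB.and
        (PB.eqN hcn (PN.const 1)) (PB.eq (PI.get hR (PN.add ho l1)) (PI.add hlo (c_twoZ hn bn)))))
          (PB.leN hcn (PN.pow2 hb bb)))))
  have h1 : Cp N (fun a => D a ∧ hit (n a) (R a) (s a) (p a) (b a)) ρ (fun _ a => (2 : ℝ) ^ b a)
      .arr (fun a => 1 :: rg (R a) (oT (n a)) (loT (n a) (s a) (p a))
        (loT (n a) (s a) (p a) + 2 ^ (n a + 1)) (kT (n a))) := by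
    have hD : ∀ a, (D a ∧ hit (n a) (R a) (s a) (p a) (b a)) → D a := fun a h => h.1
    have hlen : ∀ a, (D a ∧ hit (n a) (R a) (s a) (p a) (b a)) →
        ((rg (R a) (oT (n a)) (loT (n a) (s a) (p a)) (loT (n a) (s a) (p a) + 2 ^ (n a + 1))
          (kT (n a))).length : ℝ) ≤ (2 : ℝ) ^ b a := by
      intro a ha
      have h2 := ha.2.2.2.2.2
      unfold rg
      rw [GL.length_tb]
      exact_mod_cast h2
    have h3 := c_rg (Cp.dom hR hD) (Cp.dom ho hD) (Cp.dom hlo hD) (Cp.dom hhi hD) (Cp.dom hm hD)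
      (Bd.dom' bm hD)
    refine Cp.cons (PI.const 1) (h3.mono_poly 1 fun a ha τ _ => ⟨one_le_two_pow' _, ?_⟩)
      ⟨0, fun a ha τ _ => by
        rw [pow_zero, one_mul]
        exact hlen a ha⟩
    exact lp (N := N a) (m := 0) (one_le_two_pow' _) (by
      rw [pow_zero, one_mul]
      exact hlen a ha)
  have h2 := c_GO _ _ _ _ ρ _ _ _ _ _ _ hn bn hM hR hs hp hb bb
  refine (Cp.iteA hq h1 (Cp.dom h2 fun a h => h.1)).mono fun a _ τ _ => ?_
  split_ifs <;> exact le_rfl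

theorem length_LF_le (n : ℕ) (M R s : List ℤ) (p : ℤ) (b : ℕ) :
    (LF n M R s p b).length ≤ 1 + 2 ^ b := by
  unfold LF
  split_ifs with h
  · have h2 := h.2.2.2.2
    rw [List.length_cons, add_comm]
    refine Nat.add_le_add_left ?_ 1
    unfold rg
    rw [GL.length_tb]
    exact h2
  · exact length_GO_le _ _ _ _ _ _

end Pool.Agent.MPa9445a.GS
end
end

section

/-! The running time of the enumeration. -/

set_option autoImplicit false

open Finset

namespace Pool.Agent.MPa9445a.GS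

open Pool.Agent.MPa9445a.BE (Ty Env vs one Bd NL DL tb flt gt bit Phi vec code lin argmax Bd.const
  Bd.add Bd.mul Bd.le Bd.up Bd.var Bd.self)
open Pool.Agent.MPa9445a.GD
open Pool.Agent.MPa9445a.SN (kb)
open Pool.Agent.MPa9445a.GL (Pc Pf Df rk sv rc dk RL Zn LL lvv inl EE HE HF HL PP Pm c_rk bd_rk c_rc
  c_dk c_RL c_Zn c_LL bd_LL c_lvv c_inl c_bl c_EE Bd.dom' c_sv)

theorem ens_succ (n : ℕ) (M s : List ℤ) (b v : ℕ) : ens n M s b (v + 1) =
    if (ens n M s b v).length = 0 then [] else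
      if 1 + 2 ^ b < (enp n M s (ens n M s b v) v).length then [] else
        enp n M s (ens n M s b v) v := rfl

theorem length_ens_le (n : ℕ) (M s : List ℤ) (b v : ℕ) : (ens n M s b v).length ≤ 1 + 2 ^ b := by
  have hp : 0 < 2 ^ b := by positivity
  cases v with
  | zero =>
    show (2 : ℕ) ≤ 1 + 2 ^ b
    omega
  | succ v =>
    rw [ens_succ]
    split_ifs with h1 h2
    · simp
    · simp
    · omega

theorem ens_mem_lt (n : ℕ) (M s : List ℤ) (b v : ℕ) : ∀ x ∈ ens n M s b v,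
    0 ≤ x ∧ x < 2 ^ (v + 1) := by
  induction v with
  | zero =>
    intro x hx
    change x ∈ ([1, 0] : List ℤ) at hx
    simp only [List.mem_cons, List.not_mem_nil, or_false] at hx
    rcases hx with rfl | rfl <;> norm_num
  | succ v ih =>
    intro x hx
    rw [ens_succ] at hx
    have h2v : (2 : ℤ) ^ (v + 1 + 1) = 2 * 2 ^ (v + 1) := by ring
    have h2v' : (2 : ℤ) ^ (v + 1) = 2 * 2 ^ v := by ring
    have hpv : (1 : ℤ) ≤ 2 ^ v := one_le_pow₀ (by norm_num)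
    split_ifs at hx with h1 h2
    · exact absurd hx List.not_mem_nil
    · exact absurd hx List.not_mem_nil
    · unfold enp at hx
      rw [List.mem_cons, mem_fm] at hx
      rcases hx with rfl | ⟨i, _, hx⟩
      · exact ⟨by norm_num, by linarith⟩
      · split_ifs at hx
        · rw [List.mem_singleton] at hx
          subst hx
          refine ⟨Int.natCast_nonneg _, ?_⟩
          have h3 : 0 ≤ gt (ens n M s b v) (1 + i / 2) ∧
              gt (ens n M s b v) (1 + i / 2) < 2 ^ (v + 1) := by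
            by_cases hl : 1 + i / 2 < (ens n M s b v).length
            · exact ih _ (gt_mem hl)
            · have h5 : gt (ens n M s b v) (1 + i / 2) = 0 := List.getD_eq_default _ _ (not_lt.1 hl)
              rw [h5]
              exact ⟨le_rfl, by positivity⟩
          unfold enx
          push_cast
          rw [Int.toNat_of_nonneg h3.1]
          have h4 : ((i % 2 : ℕ) : ℤ) ≤ 1 := by omega
          have h6 : ((i % 2 : ℕ) : ℤ) * 2 ^ v ≤ 1 * 2 ^ v :=
            mul_le_mul_of_nonneg_right h4 (by positivity)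
          push_cast at h6
          split_ifs
          · linarith [h3.2]
          · linarith [h3.2]
        · exact absurd hx List.not_mem_nil

section

variable {A : Type} {N : A → ℕ} {D : A → Prop} {Γ : List Ty} {ρ : A → Env Γ}

theorem c_minZ {f g : A → ℤ} (hf : PI N D ρ f) (hg : PI N D ρ g) :
    PI N D ρ (fun a => min (f a) (g a)) := by
  refine (Cp.ite (PB.le hf hg) hf hg).congr fun a _ => ?_
  exact (min_def (f a) (g a)).symm

theorem c_scp {n c v : A → ℕ} {M s : A → List ℤ} (hn : PN N D ρ n) (bn : Bd N D n)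
    (hM : PA N D ρ M) (hs : PA N D ρ s) (hc : PN N D ρ c) (hv : PN N D ρ v) :
    PI N D ρ (fun a => scp (n a) (M a) (s a) (c a) (v a)) := by
  refine PI.sum hn bn fun Γ1 ρ1 up hu => ?_
  have hn1 := up.n hn
  have hM1 := up.a hM
  have h2 := PN.add (PN.mul hn1 hn1) (PN.const 2)
  have hb := PI.get hM1 (PN.add (PN.add h2 (PN.mul (PN.const 2) hn1)) hu)
  have ha := PI.get hM1 (PN.add (PN.add h2 hn1) hu)
  refine Cp.ite (PB.eq (PI.get (up.a hs) hu) (PI.const 2)) ?_ (PI.get hM1 (PN.add h2 hu))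
  refine Cp.ite (PB.ltN hu (up.n hv)) ?_ (c_minZ hb ha)
  exact Cp.ite (PB.eqN (PN.bit (up.n hc) hu (Bd.var bn)) (PN.const 1)) hb ha

theorem c_enx {v x : A → ℕ} {s z : A → List ℤ} (hs : PA N D ρ s) (hz : PA N D ρ z)
    (hv : PN N D ρ v) (bv : Bd N D v) (hx : PN N D ρ x) :
    PN N D ρ (fun a => enx (s a) (z a) (v a) (x a)) :=
  PN.add (PN.toNat (PI.get hz (PN.add (PN.const 1) (PN.div hx (PN.const 2)))))
    (PN.ite (PB.eq (PI.get hs hv) (PI.const 2)) (PN.mul (PN.mod hx (PN.const 2)) (PN.pow2 hv bv))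
      (PN.const 0))

theorem c_enp {n v : A → ℕ} {M s z : A → List ℤ} (hn : PN N D ρ n) (bn : Bd N D n)
    (hM : PA N D ρ M) (hs : PA N D ρ s) (hz : PA N D ρ z) (hv : PN N D ρ v) (bv : Bd N D v) :
    Cp N D ρ (fun _ a => ((z a).length : ℝ) + 1) .arr (fun a => enp (n a) (M a) (s a) (z a) (v a)) := by
  have hk : PN N D ρ (fun a => 2 * ((z a).length - 1)) :=
    PN.mul (PN.const 2) (PN.sub (PN.len hz) (PN.const 1))
  have h := Cp.cat (k := fun a => 2 * ((z a).length - 1))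
    (f := fun a x => if (gt (s a) (v a) = 2 ∨ x % 2 = 0) ∧
      scp (n a) (M a) (s a) (enx (s a) (z a) (v a) x) (v a + 1) ≤ gt (M a) (n a * n a + 1) then
      [(enx (s a) (z a) (v a) x : ℤ)] else []) (w := fun _ _ => 1) hk
    (fun Γ1 ρ1 up hx => by
      have hn1 := up.n hn
      have he := c_enx (up.a hs) (up.a hz) (up.n hv) (bv.up _) hx
      have hq := PB.and (PB.or (PB.eq (PI.get (up.a hs) (up.n hv)) (PI.const 2))
        (PB.eqN (PN.mod hx (PN.const 2)) (PN.const 0)))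
        (PB.le (c_scp hn1 (bn.up _) (up.a hM) (up.a hs) he (PN.add (up.n hv) (PN.const 1)))
          (PI.get (up.a hM) (PN.add (PN.mul hn1 hn1) (PN.const 1))))
      refine (Cp.iteA hq (Cp.dom (PA.one he) fun a h => h.1)
        ((PA.nil (ρ := ρ1) (D := DL D fun a => 2 * ((z a).length - 1))).dom fun a h => h.1)).mono
          fun p _ τ _ => ?_
      simp only [one]
      split_ifs <;> exact le_rfl)
    ⟨0, fun a _ i _ τ _ => by
      rw [pow_zero, one_mul]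
      split_ifs <;> simp⟩
  have hl : ∀ a, ((2 * ((z a).length - 1) : ℕ) : ℝ) ≤ 2 * ((z a).length : ℝ) := fun a => by
    have : 2 * ((z a).length - 1) ≤ 2 * (z a).length := by omega
    exact_mod_cast this
  refine Cp.cons (PI.const 1) (h.mono_poly 1 fun a _ τ _ => ?_) ⟨1, fun a _ τ _ => ?_⟩
  · have h4 : (0 : ℝ) ≤ N a := Nat.cast_nonneg _
    have h5 : (0 : ℝ) ≤ ((z a).length : ℝ) := Nat.cast_nonneg _
    refine ⟨by linarith, ?_⟩
    rw [Finset.sum_const, Finset.card_range, nsmul_eq_mul, mul_one, pow_one]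
    have := hl a
    nlinarith
  · have h4 : (0 : ℝ) ≤ N a := Nat.cast_nonneg _
    have h5 : (0 : ℝ) ≤ ((z a).length : ℝ) := Nat.cast_nonneg _
    rw [length_fm, pow_one]
    have h6 : ∑ i ∈ range (2 * ((z a).length - 1)), (if (gt (s a) (v a) = 2 ∨ i % 2 = 0) ∧
      scp (n a) (M a) (s a) (enx (s a) (z a) (v a) i) (v a + 1) ≤ gt (M a) (n a * n a + 1) then
      [(enx (s a) (z a) (v a) i : ℤ)] else []).length ≤ 2 * ((z a).length - 1) := by
      refine (Finset.sum_le_sum (g := fun _ => 1) fun i _ => ?_).trans (by simp)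
      split_ifs <;> simp
    have h7 : ((∑ i ∈ range (2 * ((z a).length - 1)), (if (gt (s a) (v a) = 2 ∨ i % 2 = 0) ∧
      scp (n a) (M a) (s a) (enx (s a) (z a) (v a) i) (v a + 1) ≤ gt (M a) (n a * n a + 1) then
      [(enx (s a) (z a) (v a) i : ℤ)] else []).length : ℕ) : ℝ) ≤
        ((2 * ((z a).length - 1) : ℕ) : ℝ) := by exact_mod_cast h6
    have := hl a
    nlinarith

theorem c_ens {n b : A → ℕ} {M s : A → List ℤ} (hn : PN N D ρ n) (bn : Bd N D n)
    (hM : PA N D ρ M) (hs : PA N D ρ s) (hb : PN N D ρ b) (bb : Bd N D b) :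
    Cp N D ρ (fun _ a => (2 : ℝ) ^ b a) .arr (fun a => ens (n a) (M a) (s a) (b a) (n a)) := by
  have h2b := PN.pow2 hb bb
  have h := Cp.iter (k := n) (s := fun a j => ens (n a) (M a) (s a) (b a) j)
    (w := fun _ p => (2 : ℝ) ^ b p.1) (w0 := one) hn
    (PA.two (PI.const 1) (PI.const 0))
    (by
      obtain ⟨c, hc⟩ := (bn.add bb).add (Bd.const 4)
      refine ⟨c + 1, fun a ha j hj => ?_⟩
      have h1 : BE.asz (ens (n a) (M a) (s a) (b a) j) ≤ n a + 1 := asz_le fun x hx => by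
        obtain ⟨h2, h3⟩ := ens_mem_lt _ _ _ _ _ x hx
        unfold BE.sz
        rw [Nat.size_le]
        zify
        rw [abs_of_nonneg h2]
        exact lt_of_lt_of_le h3 (pow_le_pow_right₀ (by norm_num) (by omega))
      have h2 : Nat.size (ens (n a) (M a) (s a) (b a) j).length ≤ b a + 2 := by
        rw [Nat.size_le]
        have h3 := length_ens_le (n a) (M a) (s a) (b a) j
        have h4 : 2 ^ (b a + 2) = 4 * 2 ^ b a := by rw [pow_add]; ring
        have h5 : 0 < 2 ^ b a := by positivity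
        omega
      change BE.asz _ + Nat.size _ ≤ _
      have h3 : n a + b a + 4 ≤ (N a + 2) ^ c := hc a ha
      have h4 : (N a + 2) ^ c ≤ (N a + 2) ^ (c + 1) := Nat.pow_le_pow_right (by omega) (by omega)
      omega)
    fun Γ1 ρ1 up hj hz => by
      have hq1 := PB.eqN (PN.len hz) (PN.const 0)
      have hE : Cp (NL N) (DL D n) ρ1 (fun _ p => (2 : ℝ) ^ b p.1) .arr (fun p =>
          enp (n p.1) (M p.1) (s p.1) (ens (n p.1) (M p.1) (s p.1) (b p.1) p.2) p.2) := by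
        refine (c_enp (up.n hn) (bn.up _) (up.a hM) (up.a hs) hz hj (Bd.var bn)).mono_poly 2
          fun p hp τ _ => ⟨one_le_two_pow' _, ?_⟩
        have h3 : ((ens (n p.1) (M p.1) (s p.1) (b p.1) p.2).length : ℝ) ≤ 1 + (2 : ℝ) ^ b p.1 := by
          exact_mod_cast length_ens_le _ _ _ _ _
        have h4 : (0 : ℝ) ≤ (NL N p : ℝ) := Nat.cast_nonneg _
        have h5 := one_le_two_pow' (b p.1)
        have h6 : (4 : ℝ) ≤ ((NL N p : ℝ) + 2) ^ 2 := by nlinarith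
        have h7 := mul_le_mul_of_nonneg_right h6 (zero_le_one.trans h5)
        linarith
      have h1 : Cp (NL N) (DL D n) ρ1 (fun _ p => (2 : ℝ) ^ b p.1) .arr (fun p =>
          if 1 + 2 ^ b p.1 < (enp (n p.1) (M p.1) (s p.1) (ens (n p.1) (M p.1) (s p.1) (b p.1) p.2)
            p.2).length then [] else
            enp (n p.1) (M p.1) (s p.1) (ens (n p.1) (M p.1) (s p.1) (b p.1) p.2) p.2) := by
        refine hE.store fun Γ2 ρ2 k2 hE2 => ?_
        have hq2 := PB.ltN (PN.add (PN.const 1) (k2.n (up.n h2b))) (PN.len hE2)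
        refine (Cp.iteA hq2 ((PA.nil (ρ := ρ2) (D := DL D n)).dom fun a h => h.1)
          (Cp.dom hE2 fun a h => h.1)).mono fun p _ τ _ => ?_
        simp only [one]
        split_ifs <;> exact one_le_two_pow' _
      refine (Cp.iteA hq1 ((PA.nil (ρ := ρ1) (D := DL D n)).dom fun a h => h.1)
        (Cp.dom h1 fun a h => h.1)).mono fun p _ τ _ => ?_
      simp only [one]
      split_ifs
      · exact one_le_two_pow' _
      · exact le_rfl
  obtain ⟨m, hm⟩ := bn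
  refine h.mono_poly (m + 1) fun a ha τ _ => ⟨one_le_two_pow' _, ?_⟩
  have h5 : (n a : ℝ) ≤ ((N a : ℝ) + 2) ^ m := by exact_mod_cast hm a ha
  have h6 := lp (N := N a) (m := m) (one_le_two_pow' (b a)) (k := (n a : ℝ) * (2 : ℝ) ^ b a)
    (mul_le_mul_of_nonneg_right h5 (by positivity))
  show one τ a + ∑ j ∈ range (n a), (2 : ℝ) ^ b a ≤ _
  rw [Finset.sum_const, Finset.card_range, nsmul_eq_mul]
  simp only [one]
  linarith

theorem c_enu {n b : A → ℕ} {M s : A → List ℤ} {p : A → ℤ} (hn : PN N D ρ n) (bn : Bd N D n)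
    (hM : PA N D ρ M) (hs : PA N D ρ s) (hp : PI N D ρ p) (hb : PN N D ρ b) (bb : Bd N D b) :
    Cp N D ρ (fun _ a => (2 : ℝ) ^ b a) .arr (fun a => enu (n a) (M a) (s a) (p a) (b a)) := by
  refine (c_ens hn bn hM hs hb bb).store fun Γ1 ρ1 k1 hE => ?_
  have hk : PN N D ρ1 (fun a => (ens (n a) (M a) (s a) (b a) (n a)).length - 1) :=
    PN.sub (PN.len hE) (PN.const 1)
  have h := Cp.cat (k := fun a => (ens (n a) (M a) (s a) (b a) (n a)).length - 1)
    (f := fun a i => if Phi (n a) (M a) (sv (n a) (s a) (gt (ens (n a) (M a) (s a) (b a) (n a))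
      (1 + i)).toNat) = p a then [gt (ens (n a) (M a) (s a) (b a) (n a)) (1 + i)] else [])
    (w := fun _ _ => 1) hk
    (fun Γ2 ρ2 up hx => by
      have hn1 := up.n (k1.n hn)
      have hg := PI.get (up.a hE) (PN.add (PN.const 1) hx)
      have hq := PB.eq (PI.Phi hn1 (bn.up _) (up.a (k1.a hM)) (c_sv hn1 (bn.up _)
        (up.a (k1.a hs)) (PN.toNat hg))) (up.i (k1.i hp))
      refine (Cp.iteA hq (Cp.dom (PA.one hg) fun a h => h.1)
        ((PA.nil (ρ := ρ2) (D := DL D fun a => (ens (n a) (M a) (s a) (b a) (n a)).length -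
          1)).dom fun a h => h.1)).mono fun p _ τ _ => ?_
      simp only [one]
      split_ifs <;> exact le_rfl)
    ⟨0, fun a _ i _ τ _ => by
      rw [pow_zero, one_mul]
      split_ifs <;> simp⟩
  have hl : ∀ a, (((ens (n a) (M a) (s a) (b a) (n a)).length - 1 : ℕ) : ℝ) ≤ (2 : ℝ) ^ b a := by
    intro a
    have h2 : (ens (n a) (M a) (s a) (b a) (n a)).length - 1 ≤ 2 ^ b a :=
      Nat.sub_le_iff_le_add'.2 (length_ens_le (n a) (M a) (s a) (b a) (n a))
    exact_mod_cast h2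
  have h1 : Cp N D ρ1 (fun _ a => (2 : ℝ) ^ b a) .arr (fun a =>
      1 :: fm ((ens (n a) (M a) (s a) (b a) (n a)).length - 1) fun i =>
        if Phi (n a) (M a) (sv (n a) (s a) (gt (ens (n a) (M a) (s a) (b a) (n a))
          (1 + i)).toNat) = p a then [gt (ens (n a) (M a) (s a) (b a) (n a)) (1 + i)] else []) := by
    refine Cp.cons (PI.const 1) (h.mono_poly 1 fun a _ τ _ => ⟨one_le_two_pow' _, ?_⟩)
      ⟨0, fun a _ τ _ => ?_⟩
    · rw [Finset.sum_const, Finset.card_range, nsmul_eq_mul, mul_one, add_comm]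
      exact lp (N := N a) (m := 0) (one_le_two_pow' _) (by
        rw [pow_zero, one_mul]
        exact hl a)
    · rw [pow_zero, one_mul, length_fm]
      have h6 : ∑ i ∈ range ((ens (n a) (M a) (s a) (b a) (n a)).length - 1),
          (if Phi (n a) (M a) (sv (n a) (s a) (gt (ens (n a) (M a) (s a) (b a) (n a))
          (1 + i)).toNat) = p a then [gt (ens (n a) (M a) (s a) (b a) (n a)) (1 + i)]
          else []).length ≤ (ens (n a) (M a) (s a) (b a) (n a)).length - 1 := by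
        refine (Finset.sum_le_sum (g := fun _ => 1) fun i _ => ?_).trans (by simp)
        split_ifs <;> simp
      have h7 : ((∑ i ∈ range ((ens (n a) (M a) (s a) (b a) (n a)).length - 1),
          (if Phi (n a) (M a) (sv (n a) (s a) (gt (ens (n a) (M a) (s a) (b a) (n a))
          (1 + i)).toNat) = p a then [gt (ens (n a) (M a) (s a) (b a) (n a)) (1 + i)]
          else []).length : ℕ) : ℝ) ≤
            (((ens (n a) (M a) (s a) (b a) (n a)).length - 1 : ℕ) : ℝ) := by exact_mod_cast h6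
      exact h7.trans (hl a)
  refine (Cp.iteA (PB.eqN (PN.len hE) (PN.const 0)) ((PA.nil (ρ := ρ1) (D := D)).dom
    fun a h => h.1) (Cp.dom h1 fun a h => h.1)).mono fun a _ τ _ => ?_
  simp only [one]
  split_ifs
  · exact one_le_two_pow' _
  · exact le_rfl

end

theorem c_EB (d : ℕ) : HE (EB d) := by
  intro A N D Γ ρ n M R s p b hn bn hM hR hs hp hb bb
  have hrk : PI N D ρ (fun a => 10000 * (rk (s a) (n a) : ℤ)) := PI.mul (PI.const 10000) (c_rk hs hn bn)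
  have hm := PI.get hM (PN.mul hn hn)
  have hq1 := PB.lt hrk (PI.mul (PI.const (d : ℤ)) hm)
  have hq2 := PB.lt (PI.mul (PI.const ((10000 - d : ℕ) : ℤ)) hm) hrk
  have h1 := c_GO _ _ _ _ ρ _ _ _ _ _ _ hn bn hM hR hs hp hb bb
  have h2 := c_enu hn bn hM hs hp hb bb
  have h3 : Cp N D ρ (fun _ a => (2 : ℝ) ^ b a) .arr (fun _ => [1]) :=
    (PA.one (PI.const 1)).lift fun a _ τ _ => one_le_two_pow' _
  have h4 : Cp N D ρ (fun _ a => (2 : ℝ) ^ b a) .arr (fun a =>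
      if ((10000 - d : ℕ) : ℤ) * gt (M a) (n a * n a) < 10000 * (rk (s a) (n a) : ℤ) then
        enu (n a) (M a) (s a) (p a) (b a) else [1]) := by
    refine (Cp.iteA hq2 (Cp.dom h2 fun a h => h.1) (Cp.dom h3 fun a h => h.1)).mono
      fun a _ τ _ => ?_
    split_ifs <;> exact le_rfl
  refine (Cp.iteA hq1 (Cp.dom h1 fun a h => h.1) (Cp.dom h4 fun a h => h.1)).mono
    fun a _ τ _ => ?_
  split_ifs <;> exact le_rfl

/-- The window. -/
theorem c_WnL (d : ℕ) {E : Pf} (hE : HE E) : HE (WnL d E) := by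
  intro A N D Γ ρ n M R s p b hn bn hM hR hs hp hb bb
  have hrk : PI N D ρ (fun a => 10000 * (rk (s a) (n a) : ℤ)) := PI.mul (PI.const 10000) (c_rk hs hn bn)
  have hm := PI.get hM (PN.mul hn hn)
  have hq := PB.and (PB.le (PI.mul (PI.const (d : ℤ)) hm) hrk)
    (PB.le hrk (PI.mul (PI.const ((10000 - d : ℕ) : ℤ)) hm))
  have h1 := hE _ _ _ _ ρ _ _ _ _ _ _ hn bn hM hR hs hp hb bb
  have h3 : Cp N D ρ (fun _ a => (2 : ℝ) ^ b a) .arr (fun _ => [1]) :=
    (PA.one (PI.const 1)).lift fun a _ τ _ => one_le_two_pow' _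
  refine (Cp.iteA hq (Cp.dom h1 fun a h => h.1) (Cp.dom h3 fun a h => h.1)).mono
    fun a _ τ _ => ?_
  split_ifs <;> exact le_rfl

end Pool.Agent.MPa9445a.GS
end

section

/-! The running time of the samples, frequencies and scores. -/

set_option autoImplicit false

open Finset

namespace Pool.Agent.MPa9445a.GS

open Pool.Agent.MPa9445a.BE (Ty Env vs one Bd NL DL tb flt gt bit Phi vec code lin argmax Bd.const
  Bd.add Bd.mul Bd.le Bd.up Bd.var Bd.self)
open Pool.Agent.MPa9445a.GD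
open Pool.Agent.MPa9445a.SN (kb)
open Pool.Agent.MPa9445a.GL (Pc Pf Df rk sv rc dk RL Zn LL lvv inl EE HE HF HL PP Pm c_rk bd_rk c_rc
  c_dk c_RL c_Zn c_LL bd_LL c_lvv c_inl c_bl c_EE Bd.dom' c_sv YS)
open Pool.Agent.MPa9445a.SB (Lev c1 c2)
open Pool.Agent.MPa9445a.SX (jx dgt agc HA HV grN scL hN exL UL MB BL nB atp atI ndp)

variable {A : Type} {N : A → ℕ} {D : A → Prop} {Γ : List Ty} {ρ : A → Env Γ}

theorem two_pow_lgn (n : ℕ) : 2 ^ lgn n ≤ 2 * (n + 2) := by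
  have h0 : lgn n = Nat.clog 2 (n + 2) := clg_eq Nat.lt_two_pow_self.le
  rw [h0]
  have h1 := Nat.pow_pred_clog_lt_self (b := 2) (x := n + 2) (by norm_num) (by omega)
  have h2 : 0 < Nat.clog 2 (n + 2) := Nat.clog_pos (by norm_num) (by omega)
  have h3 : 2 ^ Nat.clog 2 (n + 2) = 2 * 2 ^ (Nat.clog 2 (n + 2) - 1) := by
    rw [← pow_succ', Nat.sub_add_cancel h2]
  rw [h3]
  have h4 : (Nat.clog 2 (n + 2)).pred = Nat.clog 2 (n + 2) - 1 := rfl
  rw [h4] at h1
  omega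

theorem bd_two_pow_lgn {n : A → ℕ} (bn : Bd N D n) (k : ℕ) :
    ∃ m : ℕ, ∀ a, D a → (2 : ℝ) ^ (k * lgn (n a)) ≤ ((N a : ℝ) + 2) ^ m := by
  obtain ⟨m, hm⟩ := (Bd.const 2).mul (bn.add (Bd.const 2))
  refine ⟨m * k, fun a ha => ?_⟩
  have h1 : 2 ^ (k * lgn (n a)) ≤ (N a + 2) ^ (m * k) := by
    rw [mul_comm k, pow_mul, pow_mul]
    exact Nat.pow_le_pow_left ((two_pow_lgn _).trans (hm a ha)) k
  exact_mod_cast h1

theorem c_jx {n m g : A → ℕ} (hn : PN N D ρ n) (bn : Bd N D n) (hm : PN N D ρ m)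
    (hg : PN N D ρ g) : PN N D ρ (fun a => jx (n a) (m a) (g a)) :=
  PN.sub (PN.add hm (PN.mul (PN.const 30) (c_lgn hn bn))) hg

theorem bd_jx {n m g : A → ℕ} (bn : Bd N D n) (bm : Bd N D m) :
    Bd N D (fun a => jx (n a) (m a) (g a)) :=
  (bm.add ((Bd.const 30).mul (bd_lgn bn))).le fun _ _ => Nat.sub_le _ _

/-- The number of samples is at most `poly * 2 ^ b`. -/
theorem two_pow_jx {n m g b : A → ℕ} (bn : Bd N D n) (h : ∀ a, D a → m a ≤ g a + b a) :
    ∃ c : ℕ, ∀ a, D a → (2 : ℝ) ^ jx (n a) (m a) (g a) ≤ ((N a : ℝ) + 2) ^ c * 2 ^ b a := by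
  obtain ⟨c, hc⟩ := bd_two_pow_lgn bn 30
  refine ⟨c, fun a ha => ?_⟩
  have h1 : jx (n a) (m a) (g a) ≤ 30 * lgn (n a) + b a := by
    have h2 := h a ha
    have h3 : jx (n a) (m a) (g a) = m a + 30 * lgn (n a) - g a := rfl
    omega
  calc (2 : ℝ) ^ jx (n a) (m a) (g a) ≤ 2 ^ (30 * lgn (n a) + b a) :=
        pow_le_pow_right₀ (by norm_num) h1
    _ = 2 ^ (30 * lgn (n a)) * 2 ^ b a := pow_add _ _ _
    _ ≤ ((N a : ℝ) + 2) ^ c * 2 ^ b a := mul_le_mul_of_nonneg_right (hc a ha) (by positivity)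

theorem c_dgt {n x : A → ℕ} (hn : PN N D ρ n) (hx : PN N D ρ x) (i : ℕ) :
    PN N D ρ (fun a => dgt (n a) (x a) i) :=
  PN.mod (PN.div hx (PN.pow (PN.mul (PN.const 2) hn) i)) (PN.mul (PN.const 2) hn)

theorem c_agc {n x : A → ℕ} {v : A → List ℤ} (hn : PN N D ρ n) (hx : PN N D ρ x)
    (hv : PA N D ρ v) (l : ℕ) : PN N D ρ (fun a => agc (n a) l (x a) (v a)) := by
  induction l with
  | zero => exact (PN.const 0).congr fun a _ => rfl
  | succ l ih =>
    have hd := c_dgt hn hx l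
    have h1 := PN.ite (PB.eq (PI.get hv (PN.div hd (PN.const 2)))
      (Cp.ite (PB.eqN (PN.mod hd (PN.const 2)) (PN.const 1)) (PI.const 1) (PI.const (-1))))
      (PN.const 0) (PN.const 1)
    refine (PN.add ih h1).congr fun a _ => ?_
    exact congrArg (fun m : ℕ => (m : ℤ)) (Finset.sum_range_succ _ _).symm

theorem agc_pos {n l x : ℕ} {v : List ℤ} : 0 ≤ agc n l x v := Nat.zero_le _

/-- The parameters of an attempt. -/
structure Sm where
  n : ℕ
  M : List ℤ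
  R : List ℤ
  o : ℕ
  s : List ℤ
  g : ℕ
  p : ℤ
  b : ℕ
  t : ℤ

structure SmP {A : Type} (N : A → ℕ) (D : A → Prop) {Γ : List Ty} (ρ : A → Env Γ) (z : A → Sm) :
    Prop where
  n : PN N D ρ (fun a => (z a).n)
  bn : Bd N D (fun a => (z a).n)
  M : PA N D ρ (fun a => (z a).M)
  R : PA N D ρ (fun a => (z a).R)
  o : PN N D ρ (fun a => (z a).o)
  s : PA N D ρ (fun a => (z a).s)
  g : PN N D ρ (fun a => (z a).g)
  bg : Bd N D (fun a => (z a).g)
  p : PI N D ρ (fun a => (z a).p)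
  b : PN N D ρ (fun a => (z a).b)
  bb : Bd N D (fun a => (z a).b)
  t : PI N D ρ (fun a => (z a).t)

section

variable {x : A → Sm}

theorem SmP.dom (h : SmP N D ρ x) {D' : A → Prop} (hD : ∀ a, D' a → D a) : SmP N D' ρ x :=
  ⟨Cp.dom h.n hD, Bd.dom' h.bn hD, Cp.dom h.M hD, Cp.dom h.R hD, Cp.dom h.o hD, Cp.dom h.s hD,
    Cp.dom h.g hD, Bd.dom' h.bg hD, Cp.dom h.p hD, Cp.dom h.b hD, Bd.dom' h.bb hD, Cp.dom h.t hD⟩

theorem SmP.ke (h : SmP N D ρ x) {Γ' : List Ty} {ρ' : A → Env Γ'} (k : Ke N D ρ ρ') :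
    SmP N D ρ' x :=
  ⟨k.n h.n, h.bn, k.a h.M, k.a h.R, k.n h.o, k.a h.s, k.n h.g, h.bg, k.i h.p, k.n h.b, h.bb,
    k.i h.t⟩

theorem SmP.up (h : SmP N D ρ x) {k : A → ℕ} {Γ' : List Ty} {ρ' : A × ℕ → Env Γ'}
    (u : Up N D ρ k ρ') : SmP (NL N) (DL D k) ρ' (fun p => x p.1) :=
  ⟨u.n h.n, h.bn.up _, u.a h.M, u.a h.R, u.n h.o, u.a h.s, u.n h.g, h.bg.up _, u.i h.p, u.n h.b,
    h.bb.up _, u.i h.t⟩

end

/-- The exponent of the number of samples. -/
def Sm.J (q : Sm) : ℕ := jx q.n (rk q.s q.n) q.g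

/-- The number of the samples of value `t`. -/
def Sm.h (q : Sm) : ℕ := hN q.n q.M q.R q.o q.s q.g q.t

section

variable {x : A → Sm}

theorem c_J (hx : SmP N D ρ x) : PN N D ρ (fun a => (x a).J) :=
  c_jx hx.n hx.bn (c_rk hx.s hx.n hx.bn) hx.g

theorem bd_J (hx : SmP N D ρ x) : Bd N D (fun a => (x a).J) := bd_jx hx.bn (bd_rk hx.bn)

theorem J_le (hx : SmP N D ρ x) (h : ∀ a, D a → rk (x a).s (x a).n ≤ (x a).g + (x a).b) :
    ∃ c : ℕ, ∀ a, D a → (2 : ℝ) ^ (x a).J ≤ ((N a : ℝ) + 2) ^ c * 2 ^ (x a).b :=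
  two_pow_jx hx.bn h

/-- A filter over the samples. -/
theorem c_smp {q : A → ℕ → Prop} [∀ a, DecidablePred (q a)] (hx : SmP N D ρ x)
    (h : ∀ a, D a → rk (x a).s (x a).n ≤ (x a).g + (x a).b)
    (hq : ∀ (Γ' : List Ty) (ρ' : A × ℕ → Env Γ'), Up N D ρ (fun a => 2 ^ (x a).J) ρ' →
      PN (NL N) (DL D fun a => 2 ^ (x a).J) ρ' (fun p => p.2) →
        GD.PB (NL N) (DL D fun a => 2 ^ (x a).J) ρ' (fun p => q p.1 p.2)) :
    Cp N D ρ (fun _ a => (2 : ℝ) ^ (x a).b) .arr (fun a => flt (2 ^ (x a).J) (q a)) := by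
  obtain ⟨c, hc⟩ := J_le hx h
  refine (Cp.filter (q := q) (PN.pow2 (c_J hx) (bd_J hx)) hq).mono_poly (c + 1) fun a ha τ _ =>
    ⟨one_le_two_pow' _, ?_⟩
  push_cast
  exact lp (N := N a) (m := c) (one_le_two_pow' _) (hc a ha)

/-- The sample. -/
theorem c_sam (hx : SmP N D ρ x) {κ : A → ℕ} (hκ : PN N D ρ κ) :
    PA N D ρ (fun a => sv (x a).n (x a).s (rc (x a).n (x a).R (x a).o (κ a))) :=
  c_sv hx.n hx.bn hx.s (c_rc hx.n hx.bn hx.R hx.o hκ)

theorem c_h (hx : SmP N D ρ x) (h : ∀ a, D a → rk (x a).s (x a).n ≤ (x a).g + (x a).b) :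
    Cp N D ρ (fun _ a => (2 : ℝ) ^ (x a).b) .int (fun a => ((x a).h : ℤ)) := by
  have h1 := c_smp (q := fun a κ => Phi (x a).n (x a).M (sv (x a).n (x a).s
    (rc (x a).n (x a).R (x a).o κ)) = (x a).t) hx h fun Γ1 ρ1 up hv => by
      have hx1 := hx.up up
      exact PB.eq (PI.Phi hx1.n hx1.bn hx1.M (c_sam hx1 hv)) hx1.t
  refine h1.store fun Γ1 ρ1 k1 hF => ?_
  exact (PN.len hF).lift fun a _ τ _ => one_le_two_pow' _

/-- The number of the samples with the pattern `y`. -/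
theorem c_HA (hx : SmP N D ρ x) (h : ∀ a, D a → rk (x a).s (x a).n ≤ (x a).g + (x a).b) (l : ℕ)
    {y : A → ℕ} (hy : PN N D ρ y) :
    Cp N D ρ (fun _ a => (2 : ℝ) ^ (x a).b) .arr (fun a =>
      HA (x a).n (x a).M (x a).R (x a).o (x a).s (x a).J (x a).t l (y a)) :=
  c_smp (q := fun a κ => Phi (x a).n (x a).M (sv (x a).n (x a).s
    (rc (x a).n (x a).R (x a).o κ)) = (x a).t ∧ agc (x a).n l (y a) (sv (x a).n (x a).s
      (rc (x a).n (x a).R (x a).o κ)) = 0) hx h fun Γ1 ρ1 up hv => by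
      have hx1 := hx.up up
      have hs := c_sam hx1 hv
      exact PB.and (PB.eq (PI.Phi hx1.n hx1.bn hx1.M hs) hx1.t)
        (PB.eqN (c_agc hx1.n (up.n hy) hs l) (PN.const 0))

theorem c_HV (hx : SmP N D ρ x) (h : ∀ a, D a → rk (x a).s (x a).n ≤ (x a).g + (x a).b) (l : ℕ)
    {y v : A → ℕ} (hy : PN N D ρ y) (hv : PN N D ρ v) :
    Cp N D ρ (fun _ a => (2 : ℝ) ^ (x a).b) .arr (fun a =>
      HV (x a).n (x a).M (x a).R (x a).o (x a).s (x a).J (x a).t l (y a) (v a)) :=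
  c_smp (q := fun a κ => (Phi (x a).n (x a).M (sv (x a).n (x a).s
    (rc (x a).n (x a).R (x a).o κ)) = (x a).t ∧ agc (x a).n l (y a) (sv (x a).n (x a).s
      (rc (x a).n (x a).R (x a).o κ)) = 0) ∧ gt (sv (x a).n (x a).s
      (rc (x a).n (x a).R (x a).o κ)) (v a) = 1) hx h fun Γ1 ρ1 up hκ => by
      have hx1 := hx.up up
      have hs := c_sam hx1 hκ
      exact PB.and (PB.and (PB.eq (PI.Phi hx1.n hx1.bn hx1.M hs) hx1.t)
        (PB.eqN (c_agc hx1.n (up.n hy) hs l) (PN.const 0)))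
          (PB.eq (PI.get hs (up.n hv)) (PI.const 1))

/-- The frequencies. -/
theorem c_grN (hx : SmP N D ρ x) (h : ∀ a, D a → rk (x a).s (x a).n ≤ (x a).g + (x a).b)
    (l m : ℕ) {y v : A → ℕ} (hy : PN N D ρ y) (hv : PN N D ρ v) :
    Cp N D ρ (fun _ a => (2 : ℝ) ^ (x a).b) .int (fun a =>
      (grN (x a).n (x a).M (x a).R (x a).o (x a).s (x a).J (x a).t l m (y a) (v a) : ℤ)) := by
  refine (c_HV hx h l hy hv).store fun Γ1 ρ1 k1 hF => ?_
  refine (c_HA (hx.ke k1) h l (k1.n hy)).store fun Γ2 ρ2 k2 hG => ?_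
  exact (PN.div (PN.mul (PN.const m) (PN.len (k2.a hF))) (PN.len hG)).lift
    fun a _ τ _ => one_le_two_pow' _

end

theorem grN_le (n : ℕ) (M R : List ℤ) (o : ℕ) (s : List ℤ) (e : ℕ) (t : ℤ) (l m x v : ℕ) :
    grN n M R o s e t l m x v ≤ m := by
  unfold SX.grN
  have h1 : (HV n M R o s e t l x v).length ≤ (HA n M R o s e t l x).length := by
    unfold SX.HV SX.HA BE.flt
    rw [List.length_map, List.length_map]
    refine List.Sublist.length_le ?_
    refine List.monotone_filter_right _ ?_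
    intro i hi
    simp only [decide_eq_true_eq] at hi ⊢
    exact hi.1
  exact Nat.div_le_of_le_mul (by
    rw [Nat.mul_comm]
    exact Nat.mul_le_mul_right _ h1)

/-- A function with a finite table. -/
theorem c_table (f : ℕ → ℕ) (m : ℕ) {y : A → ℕ} (hy : PN N D ρ y) :
    PN N D ρ (fun a => if y a ≤ m then f (y a) else 0) := by
  induction m with
  | zero =>
    refine (PN.ite (PB.eqN hy (PN.const 0)) (PN.const (f 0)) (PN.const 0)).congr fun a _ => ?_
    beta_reduce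
    by_cases h : y a = 0
    · simp [h]
    · have h1 : ¬ y a ≤ 0 := by omega
      rw [if_neg h, if_neg h1]
  | succ m ih =>
    refine (PN.ite (PB.eqN hy (PN.const (m + 1))) (PN.const (f (m + 1))) ih).congr fun a _ => ?_
    beta_reduce
    by_cases h : y a = m + 1
    · simp [h]
    · by_cases h1 : y a ≤ m
      · rw [if_neg h, if_pos h1, if_pos (by omega)]
      · rw [if_neg h, if_neg h1, if_neg (by omega)]

section

variable {x : A → Sm}

/-- The scores. -/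
theorem c_scL (hx : SmP N D ρ x) (h : ∀ a, D a → rk (x a).s (x a).n ≤ (x a).g + (x a).b)
    (l m : ℕ) (f : ℕ → ℕ) {y : A → ℕ} (hy : PN N D ρ y) :
    Cp N D ρ (fun _ a => (2 : ℝ) ^ (x a).b) .arr (fun a =>
      scL (x a).n (x a).M (x a).R (x a).o (x a).s (x a).J (x a).t l m f (y a)) := by
  have h1 := Cp.tab (k := fun a => (x a).n) (w := fun _ a => (2 : ℝ) ^ (x a).b)
    (f := fun a v => if gt (x a).s v = 2 then (f (grN (x a).n (x a).M (x a).R (x a).o (x a).s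
      (x a).J (x a).t l m (y a) v) : ℤ) else 0) hx.n (fun a _ τ _ => one_le_two_pow' _)
    fun Γ1 ρ1 up hv => by
      have hx1 := hx.up up
      refine (c_grN hx1 (fun p hp => h p.1 hp.1) l m (up.n hy) hv).store fun Γ2 ρ2 k2 hG => ?_
      have hG' : PN (NL N) (DL D fun a => (x a).n) ρ2 (fun p => grN (x p.1).n (x p.1).M (x p.1).R
        (x p.1).o (x p.1).s (x p.1).J (x p.1).t l m (y p.1) p.2) := hG
      have h2 := c_table f m hG'
      have h3 := Cp.ite (PB.eq (PI.get (k2.a (up.a hx.s)) (k2.n hv)) (PI.const 2)) h2 (PI.const 0)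
      refine (h3.congr fun p _ => ?_).lift fun p _ τ _ => one_le_two_pow' _
      beta_reduce
      rw [if_pos (grN_le _ _ _ _ _ _ _ _ _ _ _)]
  obtain ⟨c, hc⟩ := hx.bn
  refine h1.mono_poly (c + 1) fun a ha τ _ => ⟨one_le_two_pow' _, ?_⟩
  have h3 : ((x a).n : ℝ) ≤ ((N a : ℝ) + 2) ^ c := by exact_mod_cast hc a ha
  have h4 : (0 : ℝ) ≤ N a := Nat.cast_nonneg _
  have h5 : (1 : ℝ) ≤ ((N a : ℝ) + 2) ^ c := one_le_pow₀ (by linarith)
  refine mul_le_mul_of_nonneg_right ?_ (by positivity)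
  rw [pow_succ]
  nlinarith

end

end Pool.Agent.MPa9445a.GS
end
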