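import Pool.Agent.Lib.MP_a9445a_lc.Mg.G133
import Pool.Agent.Lib.MP_a9445a_lc.Mg.G126
import Pool.Agent.Lib.MP_a9445a_lc.Mg.G125
import Pool.Agent.Lib.MP_a9445a_lc.Mg.G131
import Pool.Agent.Lib.MP_a9445a_lc.SN.Alg2

section

/-! The random bits of all depths. -/

set_option autoImplicit false

open Finset
open scoped symmDiff

namespace Pool.Agent.MPa9445a.GL

open Pool.Agent.MPa9445a.BE
open Pool.Agent.MPa9445a.SN (ST Fm rs kb rb)

private theorem Q8b_gt {L : ℕ} (ρ : Fin L → Bool) {i : ℕ} (hi : i < L) :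
    gt (rb ρ) i = ((ρ ⟨i, hi⟩).toNat : ℤ) := by
  unfold Pool.Agent.MPa9445a.SN.rb gt
  have h : i < (List.ofFn fun i => ((ρ i).toNat : ℤ)).length := by
    rw [List.length_ofFn]
    exact hi
  rw [List.getD_eq_getElem _ _ h, List.getElem_ofFn]

private theorem Q8b_mul {a b u : ℕ} (hu : u < a) (v : ℕ) (hv : v < b) : u * b + v < a * b := by
  have h2 : (u + 1) * b ≤ a * b := Nat.mul_le_mul_right _ hu
  have h4 : (u + 1) * b = u * b + b := by ring
  omega

private theorem Q8b_shift {n : ℕ} {R R' : List ℤ} {o o' : ℕ}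
    (h : ∀ t < RL n, gt R (o + t) = gt R' (o' + t)) : RR n R o = RR n R' o' := by
  have hRL : RL n = 2 * bl n + n * n + Rn n * n := rfl
  have hbl : bl n = n * (kb n + 1) := rfl
  have e1 : fR n R o = fR n R' o' := by
    funext v j
    unfold fR
    have h1 := Q8b_mul v.2 (j : ℕ) j.2
    have h2 := h ((v : ℕ) * (kb n + 1) + j) (by omega)
    rw [← add_assoc, ← add_assoc] at h2
    rw [h2]
  have e2 : fR n R (o + bl n) = fR n R' (o' + bl n) := by
    funext v j
    unfold fR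
    have h1 := Q8b_mul v.2 (j : ℕ) j.2
    have h2 := h (bl n + (v : ℕ) * (kb n + 1) + j) (by omega)
    rw [← add_assoc, ← add_assoc, ← add_assoc, ← add_assoc] at h2
    rw [h2]
  have e3 : AR n R (o + 2 * bl n) = AR n R' (o' + 2 * bl n) := by
    funext v
    unfold AR
    refine Finset.filter_congr fun u _ => ?_
    have h1 := Q8b_mul v.2 (u : ℕ) u.2
    have h2 := h (2 * bl n + (v : ℕ) * n + u) (by omega)
    rw [← add_assoc, ← add_assoc, ← add_assoc, ← add_assoc] at h2
    rw [h2]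
  have e4 : HR n R (o + 2 * bl n) = HR n R' (o' + 2 * bl n) := by
    funext i
    unfold HR
    refine Finset.filter_congr fun v _ => ?_
    have h1 := Q8b_mul i.2 (v : ℕ) v.2
    have h2 := h (2 * bl n + n * n + (i : ℕ) * n + v) (by omega)
    rw [← add_assoc, ← add_assoc, ← add_assoc, ← add_assoc, ← add_assoc, ← add_assoc] at h2
    rw [h2]
  unfold RR
  rw [e1, e2, e3, e4]

private theorem Q8b_round {n L : ℕ} (ρ : Fin L → Bool) {o : ℕ} (ho : o + RL n ≤ L) :
    RR n (rb ρ) o = RR n (rb fun t : Fin (RL n) => ρ ⟨o + t, by have := t.2; omega⟩) 0 := by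
  refine Q8b_shift fun t ht => ?_
  rw [Q8b_gt ρ (show o + t < L by omega), Nat.zero_add, Q8b_gt _ ht]

private theorem Q8b_proj {n : ℕ} {R R' : List ℤ} (K : ℕ) (h : SR n R K = SR n R' K) :
    ∀ k < K, ∀ z : Fin (Zn n), RR n R (ofs n k z) = RR n R' (ofs n k z) := by
  induction K with
  | zero => intro k hk; exact absurd hk (Nat.not_lt_zero k)
  | succ K ih =>
    intro k hk z
    have h1 : SR n R K = SR n R' K := congrArg Prod.fst h
    have h2 : (fun z : Fin (Zn n) => RR n R (ofs n K z)) = fun z : Fin (Zn n) => RR n R' (ofs n K z) :=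
      congrArg Prod.snd h
    rcases Nat.lt_succ_iff_lt_or_eq.1 hk with h3 | h3
    · exact ih h1 k h3 z
    · subst h3
      exact congrFun h2 z

private theorem Q8b_ofs {n K k z : ℕ} (hk : k < K) (hz : z < Zn n) : ofs n k z + RL n ≤ Lk n K := by
  have h1 := Q8b_mul hk z hz
  have h2 : (k * Zn n + z + 1) * RL n ≤ K * Zn n * RL n := Nat.mul_le_mul_right _ h1
  have h3 : (k * Zn n + z + 1) * RL n = (k * Zn n + z) * RL n + RL n := by ring
  have h4 : Lk n K = K * Zn n * RL n := rfl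
  have h5 : ofs n k z = (k * Zn n + z) * RL n := rfl
  omega

private theorem Q8b_inj (n K : ℕ) : Function.Injective fun ρ : Fin (Lk n K) → Bool => SR n (rb ρ) K := by
  intro ρ ρ' h
  have h0 := Q8b_proj K h
  funext i
  have hL : Lk n K = K * Zn n * RL n := rfl
  have hi : (i : ℕ) < RL n * (K * Zn n) := by
    rw [mul_comm, ← hL]
    exact i.2
  have hR : 0 < RL n := by
    rcases Nat.eq_zero_or_pos (RL n) with hb | hb
    · rw [hb, zero_mul] at hi
      exact absurd hi (Nat.not_lt_zero _)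
    · exact hb
  have hm : (i : ℕ) / RL n < Zn n * K := by
    rw [mul_comm (Zn n)]
    exact Nat.div_lt_of_lt_mul hi
  have hZ : 0 < Zn n := by
    unfold Zn
    omega
  have hk : (i : ℕ) / RL n / Zn n < K := Nat.div_lt_of_lt_mul hm
  have hz : (i : ℕ) / RL n % Zn n < Zn n := Nat.mod_lt _ hZ
  have ht : (i : ℕ) % RL n < RL n := Nat.mod_lt _ hR
  have h1 := h0 _ hk ⟨_, hz⟩
  have ho := Q8b_ofs hk hz
  rw [Q8b_round ρ ho, Q8b_round ρ' ho] at h1
  have h2 := congrFun ((round_bij n).1 h1) ⟨_, ht⟩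
  have h3 : ofs n ((i : ℕ) / RL n / Zn n) ((i : ℕ) / RL n % Zn n) + (i : ℕ) % RL n = i := by
    unfold ofs
    rw [Nat.div_add_mod', Nat.div_add_mod']
  simp only [h3] at h2
  exact h2

private theorem Q8b_card (n K : ℕ) : Fintype.card (Sds n K) = 2 ^ Lk n K := by
  have hRd : Fintype.card (Rd n) = 2 ^ RL n := by
    rw [← Fintype.card_of_bijective (round_bij n)]
    simp
  have hSd : Fintype.card (Sd n) = 2 ^ (Zn n * RL n) := by
    rw [show Fintype.card (Sd n) = Fintype.card (Rd n) ^ Zn n by simp [Sd], hRd, ← pow_mul, mul_comm]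
  induction K with
  | zero =>
    have : Lk n 0 = 0 := by
      unfold Lk
      ring
    rw [this]
    exact Fintype.card_unit
  | succ K ih =>
    rw [Sds.card_succ, ih, hSd, ← pow_add]
    congr 1
    unfold Lk
    ring

/-- The random objects of all depths. PROOF. Induction on `K`: the bits `< k * Zn n * RL n` determine `SR n R k`, the bits of the round `z` of the
depth `k + 1` are those from `ofs n k z` on (`round_bij`; `RR n R o` depends only on the entries `o, …, o + RL n - 1`). -/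
theorem SR_bij (n K : ℕ) : Function.Bijective fun ρ : Fin (Lk n K) → Bool => SR n (rb ρ) K := by
  rw [Fintype.bijective_iff_injective_and_card]
  refine ⟨Q8b_inj n K, ?_⟩
  rw [Q8b_card]
  simp

/-- Counting. PROOF. `SR_bij`, `Finset.card_bij`. -/
theorem card_SR (n K : ℕ) (P : Sds n K → Prop) [DecidablePred P]
    [DecidablePred fun ρ : Fin (Lk n K) → Bool => P (SR n (rb ρ) K)] :
    (univ.filter fun ρ : Fin (Lk n K) → Bool => P (SR n (rb ρ) K)).card = (univ.filter P).card := by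
  refine Finset.card_bij (fun ρ _ => SR n (rb ρ) K) ?_ ?_ ?_
  · intro ρ hρ
    rw [Finset.mem_filter] at hρ ⊢
    exact ⟨Finset.mem_univ _, hρ.2⟩
  · intro ρ _ ρ' _ h
    exact (SR_bij n K).1 h
  · intro ω hω
    obtain ⟨ρ, hρ⟩ := (SR_bij n K).2 ω
    refine ⟨ρ, ?_, hρ⟩
    rw [Finset.mem_filter] at hω ⊢
    refine ⟨Finset.mem_univ _, ?_⟩
    have h1 : SR n (rb ρ) K = ω := hρ
    rw [h1]
    exact hω.2

end Pool.Agent.MPa9445a.GL
end

section

/-! The subsets of the low part. -/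

set_option autoImplicit false

open Finset
open scoped symmDiff

namespace Pool.Agent.MPa9445a.GL

open Pool.Agent.MPa9445a.BE
open Pool.Agent.MPa9445a.SN (ST Fm rs kb)
open Pool.Agent.MPa9445a.GD (dd)

variable {n : ℕ}

private theorem Q1f_bit (c i : ℕ) : bit c i = 0 ∨ bit c i = 1 := by
  unfold bit
  omega

private theorem Q1f_ST (s : List ℤ) (j u : ℕ) :
    ST n (wc n s j u) = univ.filter fun v : Fin n => gt s v = 2 ∧ (v : ℕ) < j ∧ bit u (rk s v) = 1 := by
  have h0 : wc n s j u = ∑ v ∈ range n, (if gt s v = 2 ∧ v < j then bit u (rk s v) else 0) * 2 ^ v := by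
    unfold wc
    refine sum_congr rfl fun v _ => ?_
    split_ifs <;> simp
  rw [h0, ST_sum (n := n) (fun v => if gt s v = 2 ∧ v < j then bit u (rk s v) else 0) ?_]
  · ext v
    simp only [mem_filter, mem_univ, true_and]
    by_cases h : gt s v = 2 ∧ (v : ℕ) < j
    · rw [if_pos h]
      constructor
      · intro h1
        exact ⟨h.1, h.2, h1⟩
      · intro h1
        exact h1.2.2
    · rw [if_neg h]
      constructor
      · intro h1
        exact absurd h1 (by norm_num)
      · intro h1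
        exact absurd ⟨h1.1, h1.2.1⟩ h
  · intro v
    split_ifs
    · exact Q1f_bit _ _
    · exact Or.inl rfl

private theorem Q1f_rk_succ (s : List ℤ) (v : ℕ) : rk s (v + 1) = rk s v + if gt s v = 2 then 1 else 0 := by
  unfold rk
  rw [sum_range_succ]

private theorem Q1f_ex (s : List ℤ) : ∀ j k : ℕ, k < rk s j → ∃ v < j, gt s v = 2 ∧ rk s v = k := by
  intro j
  induction j with
  | zero =>
    intro k hk
    unfold rk at hk
    simp at hk
  | succ j ih =>
    intro k hk
    rw [Q1f_rk_succ] at hk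
    by_cases h : k < rk s j
    · obtain ⟨v, h1, h2⟩ := ih k h
      exact ⟨v, by omega, h2⟩
    · by_cases h2 : gt s j = 2
      · rw [if_pos h2] at hk
        exact ⟨j, by omega, h2, by omega⟩
      · rw [if_neg h2] at hk
        omega

private theorem Q1f_inj (s : List ℤ) {j : ℕ} (hj : j ≤ n) {u u' : ℕ} (hu : u < 2 ^ rk s j)
    (hu' : u' < 2 ^ rk s j) (h : ST n (wc n s j u) = ST n (wc n s j u')) : u = u' := by
  rw [Q1f_ST, Q1f_ST] at h
  refine Nat.eq_of_testBit_eq fun k => ?_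
  by_cases hk : k < rk s j
  · obtain ⟨v, h1, h2, h3⟩ := Q1f_ex s j k hk
    have h4 : ∀ w : ℕ, (⟨v, by omega⟩ : Fin n) ∈ (univ.filter fun v : Fin n =>
        gt s v = 2 ∧ (v : ℕ) < j ∧ bit w (rk s v) = 1) ↔ bit w k = 1 := by
      intro w
      simp only [mem_filter, mem_univ, true_and]
      rw [h3]
      exact ⟨fun h => h.2.2, fun h => ⟨h2, h1, h⟩⟩
    have h5 : bit u k = 1 ↔ bit u' k = 1 := by
      rw [← h4 u, ← h4 u', h]
    rw [Nat.testBit_eq_decide_div_mod_eq, Nat.testBit_eq_decide_div_mod_eq]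
    exact decide_eq_decide.2 h5
  · have h6 : 2 ^ rk s j ≤ 2 ^ k := Nat.pow_le_pow_right (by norm_num) (by omega)
    rw [Nat.testBit_lt_two_pow (hu.trans_le h6), Nat.testBit_lt_two_pow (hu'.trans_le h6)]

/-- PROOF. `ST_sum`. -/
theorem ST_wc_sub (s : List ℤ) (j u : ℕ) : ST n (wc n s j u) ⊆ lo (fv n s) j := by
  intro v hv
  rw [Q1f_ST] at hv
  simp only [mem_filter, mem_univ, true_and] at hv
  unfold lo Fr
  simp only [mem_filter, mem_univ, true_and]
  exact ⟨hv.1, hv.2.1⟩

private theorem Q1f_surj (s : List ℤ) {j : ℕ} (hj : j ≤ n) {w : Finset (Fin n)}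
    (hw : w ⊆ lo (fv n s) j) : ∃ u < 2 ^ rk s j, ST n (wc n s j u) = w := by
  have h1 : ((range (2 ^ rk s j)).image fun u => ST n (wc n s j u)) = (lo (fv n s) j).powerset := by
    apply eq_of_subset_of_card_le
    · intro x hx
      obtain ⟨u, -, rfl⟩ := mem_image.1 hx
      exact mem_powerset.2 (ST_wc_sub s j u)
    · rw [card_powerset, ← rk_lo s hj, card_image_of_injOn, card_range]
      intro u hu u' hu' h
      exact Q1f_inj s hj (mem_range.1 (mem_coe.1 hu)) (mem_range.1 (mem_coe.1 hu')) h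
  have h2 : w ∈ ((range (2 ^ rk s j)).image fun u => ST n (wc n s j u)) := by
    rw [h1]
    exact mem_powerset.2 hw
  obtain ⟨u, hu, h3⟩ := mem_image.1 h2
  exact ⟨u, mem_range.1 hu, h3⟩

/-- The sets with the codes `wc n s j u` are all subsets of `lo`. PROOF. As `xv_surj`, `xv_inj` (`Q1b`): the free
places below `j` have the numbers `< rk s j`. -/
theorem sum_wc (s : List ℤ) {j : ℕ} (hj : j ≤ n) {X : Type} [AddCommMonoid X]
    (f : Finset (Fin n) → X) :
    ∑ u ∈ range (2 ^ rk s j), f (ST n (wc n s j u)) = ∑ w ∈ (lo (fv n s) j).powerset, f w := by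
  refine sum_bij (fun u _ => ST n (wc n s j u)) (fun u _ => mem_powerset.2 (ST_wc_sub s j u)) ?_ ?_
    fun _ _ => rfl
  · intro u hu u' hu' h
    exact Q1f_inj s hj (mem_range.1 hu) (mem_range.1 hu') h
  · intro w hw
    obtain ⟨u, hu, h⟩ := Q1f_surj s hj (mem_powerset.1 hw)
    exact ⟨u, mem_range.2 hu, h⟩

/-- PROOF. As `sum_wc`. -/
theorem wc_surj (s : List ℤ) {j : ℕ} (hj : j ≤ n) {w : Finset (Fin n)} (hw : w ⊆ lo (fv n s) j) :
    ∃ u < 2 ^ rk s j, ST n (wc n s j u) = w := Q1f_surj s hj hw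

end Pool.Agent.MPa9445a.GL
end

section

/-! The main part finds the maximum if the random bits are good. -/

set_option autoImplicit false

open Finset
open scoped symmDiff

namespace Pool.Agent.MPa9445a.SN

open Pool.Agent.MPa9445a.BE

variable {n : ℕ}

private theorem C6c_lv {n : ℕ} {t : ℤ} (h : |t| ≤ 2 * (n : ℤ) ^ 4) : ∃ x < PP n, lv n x = t := by
  have h1 := abs_le.1 h
  have h2 : (n : ℤ) ^ 4 ≤ ((n : ℤ) + 1) ^ 4 := by
    have h3 : (0 : ℤ) ≤ n := Int.natCast_nonneg n
    exact pow_le_pow_left₀ h3 (by omega) 4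
  have h4 : (1 : ℤ) ≤ ((n : ℤ) + 1) ^ 4 := by
    have h3 : (0 : ℤ) ≤ n := Int.natCast_nonneg n
    exact one_le_pow₀ (by omega)
  refine ⟨(t + 2 * (n : ℤ) ^ 4).toNat, ?_, ?_⟩
  · have h5 : (((t + 2 * (n : ℤ) ^ 4).toNat : ℕ) : ℤ) < ((PP n : ℕ) : ℤ) := by
      rw [Int.toNat_of_nonneg (by linarith)]
      unfold PP
      push_cast
      linarith
    exact_mod_cast h5
  · unfold lv
    rw [Int.toNat_of_nonneg (by linarith)]
    ring

private theorem C6c_small (n : ℕ) : n < PP n ∧ 2 * n ^ 2 ≤ PP n ∧ Yn n ≤ PP n := by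
  have h1 : 1 ≤ (n + 1) ^ 2 := Nat.one_le_pow _ _ (by omega)
  have h2 : (n + 1) ^ 4 = (n + 1) ^ 2 * (n + 1) ^ 2 := by ring
  have h3 : (n + 1) ^ 2 ≤ (n + 1) ^ 4 := by
    rw [h2]
    exact Nat.le_mul_of_pos_left _ h1
  have h4 : n ^ 2 ≤ (n + 1) ^ 2 := Nat.pow_le_pow_left (by omega) 2
  have h5 : n < (n + 1) ^ 2 := by nlinarith
  unfold PP Yn
  refine ⟨by omega, by omega, by omega⟩

/-- The input with given digits. -/
private theorem C6c_inp {n : ℕ} (M R : List ℤ) {q g e w₁ w₂ jy : ℕ} {θ T : ℤ} (hq : q < PP n)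
    (hg : g ≤ sig n) (hgP : g < PP n) (he : e ≤ n) (heP : e < PP n) (hw₁ : w₁ < PP n)
    (hw₂ : w₂ < PP n) (hj : jy < PP n) (hθ : ∃ x < PP n, lv n x = θ) (hT : ∃ x < PP n, lv n x = T) :
    ∃ x < PP n ^ 8, inp n M R x = ⟨n, M, R, q, g, e, w₁, w₂, jy, θ, T⟩ := by
  obtain ⟨xθ, hxθ, rfl⟩ := hθ
  obtain ⟨xT, hxT, rfl⟩ := hT
  obtain ⟨x, hx, hd⟩ := digits (n := n) (![q, g, e, w₁, w₂, jy, xθ, xT]) (by
    intro t
    fin_cases t <;> assumption)
  refine ⟨x, hx, ?_⟩
  have d0 : dg n x 0 = q := hd 0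
  have d1 : dg n x 1 = g := hd 1
  have d2 : dg n x 2 = e := hd 2
  have d3 : dg n x 3 = w₁ := hd 3
  have d4 : dg n x 4 = w₂ := hd 4
  have d5 : dg n x 5 = jy := hd 5
  have d6 : dg n x 6 = xθ := hd 6
  have d7 : dg n x 7 = xT := hd 7
  unfold inp
  rw [d0, d1, d2, d3, d4, d5, d6, d7, min_eq_left hg, min_eq_left he]

private theorem C6c_abs {G : SimpleGraph (Fin n)} {M : List ℤ} (hA : fm n M = adjZ G)
    (X : Finset (Fin n)) : |ff (wtm n M) X| ≤ (n : ℤ) ^ 4 :=
  frm_abs _ (wtm_abs hA) univ X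

/-- Case II. PROOF. Let `i`, `j` be as in `SII`, `Y = rs ωY j`, `D = rs ωD i`, `y = rcd (2q+1) j`, `d = rcd (2q) i` (`ST_rcd`), `c` the code of `X₀` (`ST_surj`). `vv_surj` for `r = rad n e` gives `w₁, w₂, z`. `w₁ + w₂ ≤ e ≤ n`. Choose the digits
`q, g, e, w₁, w₂, jy, θ, T` with `jy = #{j' < j : T ≤ ff W (rs ωY j')} < Yn n ≤ PP n`, `lv = θ = ff W X₀ + T`, `lv = T` (`frm_abs`: values bounded by `n^4`). Then:
`YL` is `flt` of the samples of level `T` (`val_eq`, `ST_rcd`), `gt YL jy = j` (`flt_pos`), `yc = y`; `A1 = B1 n e w₁`, `A2 = B2 n e w₂` (`min e n = e`), lengths `length_B`: product `WL n e w₁ w₂`.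
`Dl` = `flt` of the `i'` with `|rs ωD i'| = e` (`pc_eq`), its length times `(2^e + WL + 1)` is at most `Bud n`, so `Kn = (Dl).length` (`Nat.le_div_iff_mul_le`). Let `t` be the position of `i` (`flt_pos`). The prefix sum of `Ct` up to `t` is at most the sum over all of
`Dl` of `cnt ≤ |PD ..|` (`cnt_le`, `flt_sum`) `≤ Bud n`. So the branch is taken, and `en_ge`: `X₀ ∈ PD` by `mem_PD` (`θ = ff X₀ + T ≤ ff X₀ + ff (X₀ ∆ D)`). `le_mx`. -/
theorem main_ge {G : SimpleGraph (Fin n)} {M R : List ℤ} (hA : fm n M = adjZ G)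
    {X₀ : Finset (Fin n)} {q : ℕ} (hq : q < nbk n) {ωY ωD : Fm n}
    (hY : Fam n R (2 * q + 1) ωY) (hD : Fam n R (2 * q) ωD) {T : ℤ} {g e : ℕ} (hg : g ≤ sig n)
    (he : 2 * e ≤ n) (hT : ∃ X, ff (wtm n M) X = T) (h : SII (wtm n M) X₀ T g e ωY ωD) :
    ∃ x < PP n ^ 8, ∃ c < 2 ^ n, val n M c = ff (wtm n M) X₀ ∧
      sco n M c ≤ main (inp n M R x) := by
  obtain ⟨i, hi, j, hj, hTY, hYn, hDe, hTD, hrad, hbud, hsum⟩ := h
  obtain ⟨X', hX'⟩ := hT
  obtain ⟨hs1, hs2, hs3⟩ := C6c_small n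
  set W := wtm n M with hW
  set y : ℕ := rcd n R (2 * q + 1) j with hy
  set d : ℕ := rcd n R (2 * q) i with hd
  have hSTy : ST n y = rs ωY j := ST_rcd hY j
  have hSTd : ST n d = rs ωD i := ST_rcd hD i
  have hde : (ST n d).card = e := by rw [hSTd, hDe]
  obtain ⟨c, hc, hcX⟩ := ST_surj X₀
  obtain ⟨w₁, w₂, z, hw, hz, hv⟩ := vv_surj (d := d) (y := y) (r := rad n e) X₀ (by
    rw [hSTy, hSTd]
    exact hrad)
  rw [hde] at hz hv
  have hrad_le : rad n e ≤ e := Nat.sub_le _ _
  -- the advice point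
  have hpY : ∀ j' : ℕ, (T ≤ val n M (rcd n R (2 * q + 1) j')) ↔ T ≤ ff W (rs ωY j') := by
    intro j'
    rw [val_eq, ST_rcd hY j']
  obtain ⟨jy, hjy1, hjy2, hjy3⟩ := flt_pos (k := Jn n g)
    (fun j' => T ≤ val n M (rcd n R (2 * q + 1) j')) hj ((hpY j).2 hTY)
  have hjyY : jy < Yn n := by
    rw [hjy2]
    refine lt_of_eq_of_lt ?_ hYn
    congr 1
    exact Finset.filter_congr fun j' _ => hpY j'
  have hpD : ∀ i' : ℕ, (pc n (rcd n R (2 * q) i') = e) ↔ (rs ωD i').card = e := by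
    intro i'
    rw [pc_eq, ST_rcd hD i']
  obtain ⟨t₀, ht1, -, ht3⟩ := flt_pos (k := Jn n g)
    (fun i' => pc n (rcd n R (2 * q) i') = e) hi ((hpD i).2 hDe)
  -- the digits
  have habs := C6c_abs hA
  have hTabs : |T| ≤ (n : ℤ) ^ 4 := by
    rw [← hX']
    exact habs X'
  have h4 : (0 : ℤ) ≤ (n : ℤ) ^ 4 := by positivity
  obtain ⟨x, hx, hinp⟩ := C6c_inp (n := n) M R (q := q) (g := g) (e := e) (w₁ := w₁) (w₂ := w₂)
    (jy := jy) (θ := ff W X₀ + T) (T := T) (lt_of_lt_of_le hq hs2) hg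
    (by
      have h5 : sig n ≤ n := by
        unfold sig
        omega
      omega) (by omega) (by omega) (by omega) (by omega) (by omega)
    (C6c_lv (by
      have h6 := habs X₀
      have h7 := abs_add_le (ff W X₀) T
      linarith))
    (C6c_lv (by linarith))
  refine ⟨x, hx, c, hc, ?_, ?_⟩
  · rw [val_eq, hcX]
  rw [hinp]
  set a : In := ⟨n, M, R, q, g, e, w₁, w₂, jy, ff W X₀ + T, T⟩ with ha
  have hYL : YL a = flt (Jn n g) (fun j' => T ≤ val n M (rcd n R (2 * q + 1) j')) := rfl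
  have hyc : yc a = y := by
    have h5 : yc a = rcd n R (2 * q + 1) (gt (YL a) jy).toNat := rfl
    rw [h5, hYL, hjy3, Int.toNat_natCast]
  have hDl : Dl a = flt (Jn n g) (fun i' => pc n (rcd n R (2 * q) i') = e) := rfl
  have hA1 : A1 a = B1 n e w₁ := rfl
  have hA2 : A2 a = B2 n e w₂ := rfl
  have hdc : ∀ t, dc a t = rcd n R (2 * q) (gt (Dl a) t).toNat := fun t => rfl
  have hdct : dc a t₀ = d := by
    rw [hdc, hDl, ht3, Int.toNat_natCast]
  have hlen : (Dl a).length =
      ((range (Jn n g)).filter fun i' => (rs ωD i').card = e).card := by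
    rw [hDl, flt_length]
    congr 1
    exact Finset.filter_congr fun i' _ => hpD i'
  have hWL : (A1 a).length * (A2 a).length = WL n e w₁ w₂ := by
    rw [hA1, hA2, (length_B n e w₁).1, (length_B n e w₂).2]
    rfl
  have hKn : Kn a = (Dl a).length := by
    have h5 : Kn a = min (Dl a).length (Bud n / (2 ^ e + (A1 a).length * (A2 a).length + 1)) := rfl
    rw [h5, min_eq_left]
    rw [Nat.le_div_iff_mul_le (Nat.succ_pos _), hWL, hlen]
    exact hbud w₁ w₂ hw
  have ht0 : t₀ < Kn a := by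
    rw [hKn, hDl]
    exact ht1
  have hCt : ∀ s < Kn a, gt (Ct a) s =
      (cnt n M e (B1 n e w₁) (B2 n e w₂) y (dc a s) (ff W X₀ + T) : ℤ) := by
    intro s hs
    have h5 : gt (Ct a) s = (tb (Kn a) fun t =>
      (cnt n M e (A1 a) (A2 a) (yc a) (dc a t) (ff W X₀ + T) : ℤ)).getD s 0 := rfl
    rw [h5, getD_tb, if_pos hs, hA1, hA2, hyc]
  have hcard : ∀ s < Kn a, (ST n (dc a s)).card = e := by
    intro s hs
    rw [hKn, hDl] at hs
    have h5 := (flt_gt (fun i' => pc n (rcd n R (2 * q) i') = e) hs).2.1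
    rw [hdc, hDl, ← pc_eq]
    exact h5
  have hcond : ∑ s ∈ range (t₀ + 1), gt (Ct a) s ≤ (Bud n : ℤ) := by
    have h5 : ∑ s ∈ range (t₀ + 1), gt (Ct a) s ≤
        ∑ s ∈ range (Kn a), (((PD W (ff W X₀ + T) (ST n (dc a s))).card : ℕ) : ℤ) := by
      refine (Finset.sum_le_sum (g := fun s =>
        (((PD W (ff W X₀ + T) (ST n (dc a s))).card : ℕ) : ℤ)) fun s hs => ?_).trans
        (Finset.sum_le_sum_of_subset_of_nonneg ?_ fun s _ _ => Int.natCast_nonneg _)
      · have hs' : s < Kn a := by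
          have := Finset.mem_range.1 hs
          omega
        rw [hCt s hs']
        have h6 := cnt_le (n := n) M w₁ w₂ y (dc a s) (ff W X₀ + T)
        rw [hcard s hs'] at h6
        exact_mod_cast h6
      · intro s hs
        have := Finset.mem_range.1 hs
        exact Finset.mem_range.2 (by omega)
    refine h5.trans ?_
    have h6 : ∑ s ∈ range (Kn a), (PD W (ff W X₀ + T) (ST n (dc a s))).card =
        ∑ i' ∈ (range (Jn n g)).filter fun i' => (rs ωD i').card = e,
          (PD W (ff W X₀ + T) (rs ωD i')).card := by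
      have h7 := flt_sum (k := Jn n g) (fun i' => pc n (rcd n R (2 * q) i') = e)
        (fun i' => (PD W (ff W X₀ + T) (ST n (rcd n R (2 * q) i'))).card)
      rw [hKn]
      have h8 : ∑ s ∈ range (Dl a).length, (PD W (ff W X₀ + T) (ST n (dc a s))).card =
          ∑ i' ∈ (range (Jn n g)).filter fun i' => pc n (rcd n R (2 * q) i') = e,
            (PD W (ff W X₀ + T) (ST n (rcd n R (2 * q) i'))).card := h7
      rw [h8]
      refine Finset.sum_congr (Finset.filter_congr fun i' _ => hpD i') fun i' _ => ?_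
      rw [ST_rcd hD i']
    have h9 : ((∑ s ∈ range (Kn a), (PD W (ff W X₀ + T) (ST n (dc a s))).card : ℕ) : ℤ) ≤
        (Bud n : ℤ) := by
      rw [h6]
      exact_mod_cast hsum
    push_cast at h9
    exact h9
  have hmain : (if ∑ s ∈ range (t₀ + 1), gt (Ct a) s ≤ (Bud n : ℤ) then
      en n M e (A1 a) (A2 a) (yc a) (dc a t₀) (ff W X₀ + T) else 0) ≤ main a :=
    le_mx (k := Kn a) (fun t => if ∑ s ∈ range (t + 1), gt (Ct a) s ≤ (Bud n : ℤ) then
      en n M e (A1 a) (A2 a) (yc a) (dc a t) (ff W X₀ + T) else 0) ht0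
  rw [if_pos hcond, hdct, hyc, hA1, hA2] at hmain
  refine le_trans ?_ hmain
  have h10 := en_ge (n := n) hA (w₁ := w₁) (w₂ := w₂) (y := y) (d := d) (z := z) (c := c)
    (θ := ff W X₀ + T) hc
    (by
      rw [hcX, mem_PD, hSTd]
      exact add_le_add le_rfl hTD)
    (by rw [hde]; exact hz)
    (by rw [hde, hcX]; exact hv)
  rw [hde] at h10
  exact h10

end Pool.Agent.MPa9445a.SN
end

section

/-! The main part finds the maximum if the random bits are good. -/

set_option autoImplicit false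

open Finset
open scoped symmDiff

namespace Pool.Agent.MPa9445a.SN

open Pool.Agent.MPa9445a.BE

variable {n : ℕ}

private theorem C6_best_isSc (M R : List ℤ) : IsSc n M (best n M R) := by
  unfold best
  refine IsSc.mx fun x _ => IsSc.mx fun s _ => ?_
  split_ifs
  · exact main_isSc M R x
  · exact smp_isSc M R x

private theorem C6_le_best (M R : List ℤ) {x s : ℕ} (hx : x < PP n ^ 8) (hs : s < 2) :
    (if s = 0 then main (inp n M R x) else smp (inp n M R x)) ≤ best n M R := by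
  have h1 := le_mx (fun s : ℕ => if s = 0 then main (inp n M R x) else smp (inp n M R x)) hs
  have h2 := le_mx (fun x : ℕ => SN.mx 2 fun s : ℕ =>
    if s = 0 then main (inp n M R x) else smp (inp n M R x)) hx
  exact h1.trans h2

private theorem C6_key {G : SimpleGraph (Fin n)} {M R : List ℤ} (hA : fm n M = adjZ G)
    {X₀ : Finset (Fin n)} {q : ℕ} (hq : q < nbk n) {ωY ωD : Fm n}
    (hY : Fam n R (2 * q + 1) ωY) (hD : Fam n R (2 * q) ωD) (h : Suc (wtm n M) X₀ ωY ωD) :
    ∃ c < 2 ^ n, val n M c = ff (wtm n M) X₀ ∧ sco n M c ≤ best n M R := by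
  rcases h with h | ⟨T, g, e, hg, he, hT, h⟩
  · obtain ⟨x, hx, c, hc, hv, hs⟩ := smp_ge hq hY h
    refine ⟨c, hc, hv, hs.trans ?_⟩
    have := C6_le_best M R hx (s := 1) (by norm_num)
    rwa [if_neg one_ne_zero] at this
  · obtain ⟨x, hx, c, hc, hv, hs⟩ := main_ge hA hq hY hD hg he hT h
    refine ⟨c, hc, hv, hs.trans ?_⟩
    have := C6_le_best M R hx (s := 0) (by norm_num)
    rwa [if_pos rfl] at this

private theorem C6_bq (W : Matrix (Fin n) (Fin n) ℤ) (X : Finset (Fin n)) :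
    bq W (fun v => if v ∈ X then 1 else -1) (fun v => if v ∈ X then 1 else -1) = ff W X := rfl

/-- The result is correct. PROOF. By `smp_ge` or `main_ge` and `le_mx` (for `PP n ^ 8`, and for `2` passes) `sco n M c ≤ best` with `val n M c = ff W X₀`; `best` is a score (`IsSc.mx`, `main_isSc`, `smp_isSc`), not `0` as `sco_pos`, so
`best = sco n M c'` with `c' < 2^n` and `ff W X₀ = val c ≤ val c'` (`val_of_sco`), `sco_mod`: the result is the array of the digits of `c'`. `min_of_max` as in `BE/B9.lean` (`out_correct`). -/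
theorem out_correct (hn : Even n) (G : SimpleGraph (Fin n)) {M R : List ℤ} (hA : fm n M = adjZ G)
    {X₀ : Finset (Fin n)} (hX : IsMx (wtm n M) X₀) {q : ℕ} (hq : q < nbk n) {ωY ωD : Fm n}
    (hY : Fam n R (2 * q + 1) ωY) (hD : Fam n R (2 * q) ωD) (h : Suc (wtm n M) X₀ ωY ωD) :
    IsMinBisection G (univ.filter fun v : Fin n => gt (out n M R) v = 1) := by
  obtain ⟨c, hc, hv, hs⟩ := C6_key hA hq hY hD h
  rcases C6_best_isSc (n := n) M R with h0 | ⟨c', hc', hb⟩
  · exact absurd hs (not_le.2 (by rw [h0]; exact sco_pos hA c))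
  have hv' : val n M c ≤ val n M c' := val_of_sco hc' (hb ▸ hs)
  have hX' : (univ.filter fun v : Fin n => gt (out n M R) v = 1) = ST n c' := by
    ext v
    simp only [ST, mem_filter, mem_univ, true_and]
    have h1 : gt (out n M R) v = (bit c' v : ℤ) := by
      have h2 := fv_tb n (fun v => (bit c' v : ℤ)) v
      unfold out
      rw [hb, sco_mod hc']
      exact h2
    rw [h1]
    exact Nat.cast_eq_one
  rw [hX']
  refine min_of_max hn G hA fun y hy => ?_
  rw [C6_bq, ← val_eq]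
  have hy2 : y = fun v => if v ∈ (univ.filter fun v : Fin n => y v = 1) then 1 else -1 := by
    funext v
    unfold Om at hy
    rw [Fintype.mem_piFinset] at hy
    have h3 := hy v
    simp only [mem_univ, if_true, mem_insert, mem_singleton] at h3
    rcases h3 with h3 | h3
    · simp [h3]
    · simp [h3]
  rw [hy2, C6_bq]
  exact (hX _).trans (hv ▸ hv')

end Pool.Agent.MPa9445a.SN
end
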