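import Pool.Agent.Lib.MP_a9445a_lc.Mg.G122
import Pool.Agent.Lib.MP_a9445a_lc.Mg.G113

section

/-! Loops which concatenate arrays. -/

set_option autoImplicit false

open Finset

namespace Pool.Agent.MPa9445a.GD

open Pool.Agent.MPa9445a.BE

/-- The concatenation of the arrays `f i`, `i < k`. -/
def fm (k : ℕ) (f : ℕ → List ℤ) : List ℤ := (List.range k).flatMap f

theorem fm_zero (f : ℕ → List ℤ) : fm 0 f = [] := rfl

theorem fm_succ (k : ℕ) (f : ℕ → List ℤ) : fm (k + 1) f = fm k f ++ f k := by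
  unfold fm
  rw [List.range_succ, List.flatMap_append, List.flatMap_singleton]

theorem length_fm (k : ℕ) (f : ℕ → List ℤ) : (fm k f).length = ∑ i ∈ range k, (f i).length := by
  induction k with
  | zero => rfl
  | succ k ih => rw [fm_succ, List.length_append, ih, Finset.sum_range_succ]

theorem mem_fm {k : ℕ} {f : ℕ → List ℤ} {x : ℤ} : x ∈ fm k f ↔ ∃ i < k, x ∈ f i := by
  unfold fm
  rw [List.mem_flatMap]
  simp only [List.mem_range]

theorem asz_le {l : List ℤ} {B : ℕ} (h : ∀ x ∈ l, BE.sz x ≤ B) : asz l ≤ B := by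
  induction l with
  | nil => exact Nat.zero_le _
  | cons x l ih =>
    have h1 : asz (x :: l) = max (BE.sz x) (asz l) := rfl
    rw [h1]
    exact max_le (h x List.mem_cons_self) (ih fun y hy => h y (List.mem_cons_of_mem _ hy))

theorem sz_le_asz {l : List ℤ} {x : ℤ} (h : x ∈ l) : BE.sz x ≤ asz l := by
  induction l with
  | nil => exact absurd h List.not_mem_nil
  | cons y l ih =>
    have h1 : asz (y :: l) = max (BE.sz y) (asz l) := rfl
    rw [h1]
    rcases List.mem_cons.1 h with h2 | h2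
    · rw [h2]
      exact le_max_left _ _
    · exact (ih h2).trans (le_max_right _ _)

private theorem X2_size {k B m : ℕ} (f : ℕ → ℕ) (hf : ∀ i < k, Nat.size (f i) ≤ B)
    (hk : Nat.size k ≤ m) : Nat.size (∑ i ∈ range k, f i) ≤ m + B := by
  have h1 : ∑ i ∈ range k, f i ≤ k * 2 ^ B := by
    have h2 : ∀ i ∈ range k, f i ≤ 2 ^ B := fun i hi =>
      (Nat.size_le.1 (hf i (Finset.mem_range.1 hi))).le
    have h3 := Finset.sum_le_card_nsmul _ _ _ h2
    rwa [Finset.card_range, smul_eq_mul] at h3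
  have h2 : k < 2 ^ m := Nat.size_le.1 hk
  refine Nat.size_le.2 (h1.trans_lt ?_)
  rw [pow_add]
  exact Nat.mul_lt_mul_of_pos_right h2 (Nat.two_pow_pos B)

private theorem X2_aux {x : ℝ} (hx : 2 ≤ x) (m c d : ℕ) :
    x ^ m + x ^ c + 1 + x ^ m + x ^ d * (1 + x ^ c) ≤ x ^ (m + c + d + 4) := by
  have h0 : (1 : ℝ) ≤ x := by linarith
  have h1 : (1 : ℝ) ≤ x ^ m := one_le_pow₀ h0
  have h2 : (1 : ℝ) ≤ x ^ c := one_le_pow₀ h0
  have h3 : (1 : ℝ) ≤ x ^ d := one_le_pow₀ h0
  have h5 : (16 : ℝ) ≤ x ^ 4 := by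
    calc (16 : ℝ) = 2 ^ 4 := by norm_num
      _ ≤ x ^ 4 := pow_le_pow_left₀ (by norm_num) hx 4
  have h6 : x ^ (m + c + d + 4) = x ^ m * x ^ c * x ^ d * x ^ 4 := by ring
  rw [h6]
  generalize x ^ m = u at *
  generalize x ^ c = v at *
  generalize x ^ d = z at *
  have e1 : 1 ≤ u * v := one_le_mul_of_one_le_of_one_le h1 h2
  have e2 : 1 ≤ v * z := one_le_mul_of_one_le_of_one_le h2 h3
  have e3 : u ≤ u * v * z := by nlinarith
  have e4 : v ≤ u * v * z := by nlinarith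
  have e5 : z ≤ u * v * z := by nlinarith
  have e6 : z * v ≤ u * v * z := by nlinarith
  have e7 : 1 ≤ u * v * z := by nlinarith
  have e8 : u * v * z * 16 ≤ u * v * z * x ^ 4 :=
    mul_le_mul_of_nonneg_left h5 (by linarith)
  nlinarith

section

variable {A : Type} {N : A → ℕ} {D : A → Prop} {Γ : List Ty} {ρ : A → Env Γ}

/-- Loops which concatenate arrays. PROOF. `Ex.cat`. -/
theorem Cp.cat {k : A → ℕ} {w : ℝ → A × ℕ → ℝ} {f : A → ℕ → List ℤ} (hk : PN N D ρ k)
    (h : BodyW N D ρ k w .arr f)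
    (hl : ∃ c : ℕ, ∀ a, D a → ∀ i < k a, ∀ τ : ℝ, 2 ≤ τ →
      ((f a i).length : ℝ) ≤ ((N a : ℝ) + 2) ^ c * w τ (a, i)) :
    Cp N D ρ (fun τ a => 1 + ∑ i ∈ range (k a), w τ (a, i)) .arr (fun a => fm (k a) (f a)) := by
  obtain ⟨ek, m, hk'⟩ := hk
  obtain ⟨e, c, he⟩ := BodyW.out ⟨m, fun a ha => (hk' a ha).2.1⟩ h
  obtain ⟨d, hd⟩ := hl
  refine ⟨Ex.cat ek e, m + c + d + 4, fun a ha => ?_⟩
  obtain ⟨h3, h4, h5⟩ := hk' a ha
  have hx : (2 : ℝ) ≤ (N a : ℝ) + 2 := by
    have : (0 : ℝ) ≤ (N a : ℝ) := Nat.cast_nonneg _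
    linarith
  have hfs : ∀ i < k a, asz (f a i) + Nat.size (f a i).length ≤ (N a + 2) ^ c :=
    fun i hi => (he a ha i hi).2.1
  have hk4 : BE.sz (k a : ℤ) ≤ (N a + 2) ^ m := h4
  have hk5 : Nat.size (k a) ≤ (N a + 2) ^ m := by
    unfold BE.sz at hk4
    rwa [Int.natAbs_natCast] at hk4
  refine ⟨?_, ?_, fun τ hτ => ⟨?_, ?_⟩⟩
  · simp only [Ex.eval]
    rw [h3, Int.toNat_natCast]
    exact List.flatMap_congr fun i hi => (he a ha i (List.mem_range.mp hi)).1
  · change asz (fm (k a) (f a)) + Nat.size (fm (k a) (f a)).length ≤ _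
    have h6 : asz (fm (k a) (f a)) ≤ (N a + 2) ^ c := by
      apply asz_le
      intro x hx
      obtain ⟨i, hi, hxi⟩ := mem_fm.1 hx
      have h7 := hfs i hi
      exact (sz_le_asz hxi).trans (by omega)
    have h7 : Nat.size (fm (k a) (f a)).length ≤ (N a + 2) ^ m + (N a + 2) ^ c := by
      rw [length_fm]
      refine X2_size _ (fun i hi => ?_) hk5
      have := hfs i hi
      omega
    have h8 := X2_aux hx m c 0
    have h9 : (((N a + 2) ^ c + ((N a + 2) ^ m + (N a + 2) ^ c) : ℕ) : ℝ) ≤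
        ((N a : ℝ) + 2) ^ (m + c + d + 4) := by
      push_cast
      have h10 : ((N a : ℝ) + 2) ^ (m + c + 0 + 4) ≤ ((N a : ℝ) + 2) ^ (m + c + d + 4) :=
        pow_le_pow_right₀ (by linarith) (by omega)
      have h11 : (1 : ℝ) ≤ ((N a : ℝ) + 2) ^ m := one_le_pow₀ (by linarith)
      rw [pow_zero] at h8
      linarith
    have h10 : (N a + 2) ^ c + ((N a + 2) ^ m + (N a + 2) ^ c) ≤ (N a + 2) ^ (m + c + d + 4) := by
      exact_mod_cast h9
    omega
  · have h14 : 0 ≤ ∑ i ∈ range (k a), w τ (a, i) :=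
      Finset.sum_nonneg fun i hi =>
        zero_le_one.trans ((he a ha i (Finset.mem_range.mp hi)).2.2 τ hτ).1
    linarith
  · have h13 := (h5 τ hτ).2
    rw [one, mul_one] at h13
    simp only [Ex.cost]
    rw [h3, Int.toNat_natCast]
    have hkR : (BE.sz (k a : ℤ) : ℝ) ≤ ((N a : ℝ) + 2) ^ m := by exact_mod_cast hk4
    have hX := X2_aux hx m c d
    have p1 : (1 : ℝ) ≤ ((N a : ℝ) + 2) ^ m := one_le_pow₀ (by linarith)
    have p2 : (1 : ℝ) ≤ ((N a : ℝ) + 2) ^ c := one_le_pow₀ (by linarith)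
    have p3 : (1 : ℝ) ≤ ((N a : ℝ) + 2) ^ d := one_le_pow₀ (by linarith)
    have h6 : ∀ i ∈ range (k a), e.cost τ ((i : ℤ), ρ a) + 1 + (BE.sz (k a : ℤ) : ℝ) +
        ((e.eval ((i : ℤ), ρ a)).length : ℝ) * (1 + asz (e.eval ((i : ℤ), ρ a))) ≤
        ((N a : ℝ) + 2) ^ (m + c + d + 4) * w τ (a, i) := by
      intro i hi
      have hi' := Finset.mem_range.1 hi
      obtain ⟨g1, g2, g3⟩ := he a ha i hi'
      obtain ⟨g4, g5⟩ := g3 τ hτ
      rw [g1]
      have g6 := hd a ha i hi' τ hτ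
      have g7 : (asz (f a i) : ℝ) ≤ ((N a : ℝ) + 2) ^ c := by
        have g8 : asz (f a i) ≤ (N a + 2) ^ c := by
          have := hfs i hi'
          omega
        exact_mod_cast g8
      have g8 : ((f a i).length : ℝ) * (1 + asz (f a i)) ≤
          (((N a : ℝ) + 2) ^ d * w τ (a, i)) * (1 + ((N a : ℝ) + 2) ^ c) :=
        mul_le_mul g6 (by linarith) (by positivity) (by positivity)
      have g9 := mul_le_mul_of_nonneg_right hX (zero_le_one.trans g4)
      nlinarith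
    have h7 := Finset.sum_le_sum h6
    rw [← Finset.mul_sum] at h7
    have h8 : (1 : ℝ) ≤ 1 := le_rfl
    have h9 : ek.cost τ (ρ a) + 1 ≤ ((N a : ℝ) + 2) ^ (m + c + d + 4) := by nlinarith
    linarith

end

end Pool.Agent.MPa9445a.GD
end

section

section

/-! Conditional arrays, short arrays, concatenation. -/

set_option autoImplicit false

open Finset

namespace Pool.Agent.MPa9445a.GD

open Pool.Agent.MPa9445a.BE

private theorem X3_sz1 : BE.sz 1 = 1 := by simp [BE.sz]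

private theorem X3_sz0 : BE.sz 0 = 0 := by simp [BE.sz]

section

variable {A : Type} {N : A → ℕ} {D : A → Prop} {Γ : List Ty} {ρ : A → Env Γ}

private theorem X3_it0 {Γ : List Ty} (k : Ex Γ .int) (a : Ex Γ .arr)
    (e : Ex (.int :: .arr :: Γ) .arr) (γ : Env Γ) (h : k.eval γ = 0) :
    (Ex.iter k a e).eval γ = a.eval γ ∧
      ∀ τ : ℝ, (Ex.iter k a e).cost τ γ = k.cost τ γ + a.cost τ γ + 1 := by
  have e1 : (0 : ℤ).toNat = 0 := rfl
  constructor
  · rw [Ex.eval, h, e1]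
    rfl
  · intro τ
    rw [Ex.cost, h, e1, Finset.sum_range_zero, add_zero]

private theorem X3_it1 {Γ : List Ty} (k : Ex Γ .int) (a : Ex Γ .arr)
    (e : Ex (.int :: .arr :: Γ) .arr) (γ : Env Γ) (h : k.eval γ = 1) :
    (Ex.iter k a e).eval γ = e.eval (((0 : ℕ) : ℤ), a.eval γ, γ) ∧
      ∀ τ : ℝ, (Ex.iter k a e).cost τ γ = k.cost τ γ + a.cost τ γ + 1 +
        (e.cost τ (((0 : ℕ) : ℤ), a.eval γ, γ) + 1 + 1) := by
  have e1 : (1 : ℤ).toNat = 1 := rfl
  constructor
  · rw [Ex.eval, h, e1]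
    rfl
  · intro τ
    rw [Ex.cost, h, e1, Finset.sum_range_one, X3_sz1]
    norm_num
    rfl

/-- The program for `if c ≠ 0 then f else g`. -/
private def X3_i {Γ : List Ty} (c : Ex Γ .int) (f : Ex Γ .arr) : Ex Γ .arr :=
  Ex.iter (Ex.ite c (Ex.const 1) (Ex.const 0)) (Ex.tab (Ex.const 0) (Ex.const 0)) (Ex.wk (Ex.wk f))

private def X3_e {Γ : List Ty} (c : Ex Γ .int) (f g : Ex Γ .arr) : Ex Γ .arr :=
  Ex.iter (Ex.ite c (Ex.const 0) (Ex.const 1)) (X3_i c f) (Ex.wk (Ex.wk g))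

private theorem X3_t0 {Γ : List Ty} (γ : Env Γ) (τ : ℝ) :
    (Ex.tab (Ex.const 0) (Ex.const 0) : Ex Γ .arr).cost τ γ = 2 := by
  have e1 : (0 : ℤ).toNat = 0 := rfl
  rw [Ex.cost, Ex.eval, e1, Finset.sum_range_zero, Ex.cost, X3_sz0]
  norm_num

private theorem X3_k {Γ : List Ty} (c : Ex Γ .int) (a b : ℤ) (γ : Env Γ) :
    (Ex.ite c (Ex.const a) (Ex.const b)).eval γ = (if c.eval γ ≠ 0 then a else b) ∧
      ∀ τ : ℝ, (Ex.ite c (Ex.const a) (Ex.const b)).cost τ γ ≤
        c.cost τ γ + 1 + (1 + BE.sz a) + (1 + BE.sz b) := by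
  constructor
  · simp only [Ex.eval]
  · intro τ
    simp only [Ex.cost]
    have h1 : (0 : ℝ) ≤ BE.sz a := Nat.cast_nonneg _
    have h2 : (0 : ℝ) ≤ BE.sz b := Nat.cast_nonneg _
    split_ifs <;> linarith

private theorem X3_pos {Γ : List Ty} (c : Ex Γ .int) (f g : Ex Γ .arr) (γ : Env Γ)
    (h : c.eval γ ≠ 0) : (X3_e c f g).eval γ = f.eval γ ∧
      ∀ τ : ℝ, (X3_e c f g).cost τ γ ≤ 2 * c.cost τ γ + f.cost τ γ + 20 := by
  have h1 := (X3_k c 0 1 γ).1
  have h2 := (X3_k c 1 0 γ).1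
  rw [if_pos h] at h1 h2
  obtain ⟨i1, i2⟩ := X3_it1 _ (Ex.tab (Ex.const 0) (Ex.const 0)) (Ex.wk (Ex.wk f)) γ h2
  obtain ⟨j1, j2⟩ := X3_it0 _ (X3_i c f) (Ex.wk (Ex.wk g)) γ h1
  constructor
  · unfold X3_e
    rw [j1]
    unfold X3_i
    rw [i1]
    simp only [Ex.eval]
  · intro τ
    unfold X3_e
    rw [j2 τ]
    unfold X3_i
    rw [i2 τ, X3_t0]
    have h3 := (X3_k c 0 1 γ).2 τ
    have h4 := (X3_k c 1 0 γ).2 τ
    rw [X3_sz1, X3_sz0] at h3 h4
    simp only [Ex.cost] at h3 h4 ⊢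
    norm_num at h3 h4 ⊢
    linarith

private theorem X3_neg {Γ : List Ty} (c : Ex Γ .int) (f g : Ex Γ .arr) (γ : Env Γ)
    (h : c.eval γ = 0) : (X3_e c f g).eval γ = g.eval γ ∧
      ∀ τ : ℝ, (X3_e c f g).cost τ γ ≤ 2 * c.cost τ γ + g.cost τ γ + 20 := by
  have h1 := (X3_k c 0 1 γ).1
  have h2 := (X3_k c 1 0 γ).1
  rw [if_neg (not_not.2 h)] at h1 h2
  obtain ⟨i1, i2⟩ := X3_it0 _ (Ex.tab (Ex.const 0) (Ex.const 0)) (Ex.wk (Ex.wk f)) γ h2
  obtain ⟨j1, j2⟩ := X3_it1 _ (X3_i c f) (Ex.wk (Ex.wk g)) γ h1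
  constructor
  · unfold X3_e
    rw [j1]
    simp only [Ex.eval]
  · intro τ
    unfold X3_e
    rw [j2 τ]
    unfold X3_i
    rw [i2 τ, X3_t0]
    have h3 := (X3_k c 0 1 γ).2 τ
    have h4 := (X3_k c 1 0 γ).2 τ
    rw [X3_sz1, X3_sz0] at h3 h4
    simp only [Ex.cost] at h3 h4 ⊢
    norm_num at h3 h4 ⊢
    linarith

private theorem X3_key {x : ℝ} (hx : 2 ≤ x) (a b c : ℕ) {p q W : ℝ} (hW : 1 ≤ W)
    (hp : p ≤ x ^ a) (hq : q ≤ x ^ b * W) :
    2 * p + q + 20 ≤ x ^ (a + b + c + 5) * W := by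
  have h0 : (1 : ℝ) ≤ x := by linarith
  have h1 : (1 : ℝ) ≤ x ^ (a + b + c) := one_le_pow₀ h0
  have h2 : x ^ a ≤ x ^ (a + b + c) := pow_le_pow_right₀ h0 (by omega)
  have h3 : x ^ b ≤ x ^ (a + b + c) := pow_le_pow_right₀ h0 (by omega)
  have h5 : (32 : ℝ) ≤ x ^ 5 := by
    calc (32 : ℝ) = 2 ^ 5 := by norm_num
      _ ≤ x ^ 5 := pow_le_pow_left₀ (by norm_num) hx 5
  rw [pow_add x (a + b + c) 5]
  have h6 : x ^ (a + b + c) * 32 ≤ x ^ (a + b + c) * x ^ 5 :=
    mul_le_mul_of_nonneg_left h5 (by linarith)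
  have h7 : x ^ (a + b + c) * 32 * W ≤ x ^ (a + b + c) * x ^ 5 * W :=
    mul_le_mul_of_nonneg_right h6 (by linarith)
  have h8 : x ^ b * W ≤ x ^ (a + b + c) * W := mul_le_mul_of_nonneg_right h3 (by linarith)
  nlinarith

/-- Conditional arrays: only the branch which is taken is charged. -/
theorem Cp.iteA {u v : ℝ → A → ℝ} {q : A → Prop} [∀ a, Decidable (q a)] {f g : A → List ℤ}
    (hq : PB N D ρ q) (hf : Cp N (fun a => D a ∧ q a) ρ u .arr f)
    (hg : Cp N (fun a => D a ∧ ¬ q a) ρ v .arr g) :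
    Cp N D ρ (fun τ a => if q a then u τ a else v τ a) .arr (fun a => if q a then f a else g a) := by
  obtain ⟨φ, ⟨ec, kc, hc⟩, hφ⟩ := hq
  obtain ⟨ef, kf, hf⟩ := hf
  obtain ⟨eg, kg, hg⟩ := hg
  refine ⟨X3_e ec ef eg, kc + kf + kg + 5, fun a ha => ?_⟩
  obtain ⟨hca, hcb, hcc⟩ := hc a ha
  have hx : (2 : ℝ) ≤ (N a : ℝ) + 2 := by
    have : (0 : ℝ) ≤ (N a : ℝ) := Nat.cast_nonneg _
    linarith
  by_cases hqa : q a
  · have hne : ec.eval (ρ a) ≠ 0 := by
      rw [hca]
      exact (hφ a ha).mpr hqa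
    obtain ⟨h1, h2, h3⟩ := hf a ⟨ha, hqa⟩
    obtain ⟨h4, h5⟩ := X3_pos ec ef eg (ρ a) hne
    simp only [if_pos hqa]
    refine ⟨h4.trans h1, h2.trans (Nat.pow_le_pow_right (by omega) (by omega)), fun τ hτ => ?_⟩
    obtain ⟨h6, h7⟩ := h3 τ hτ
    refine ⟨h6, (h5 τ).trans ?_⟩
    have h8 := (hcc τ hτ).2
    rw [one, mul_one] at h8
    exact X3_key hx kc kf kg h6 h8 h7
  · have hne : ec.eval (ρ a) = 0 := by
      by_contra h
      rw [hca] at h
      exact hqa ((hφ a ha).1 h)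
    obtain ⟨h1, h2, h3⟩ := hg a ⟨ha, hqa⟩
    obtain ⟨h4, h5⟩ := X3_neg ec ef eg (ρ a) hne
    simp only [if_neg hqa]
    refine ⟨h4.trans h1, h2.trans (Nat.pow_le_pow_right (by omega) (by omega)), fun τ hτ => ?_⟩
    obtain ⟨h6, h7⟩ := h3 τ hτ
    refine ⟨h6, (h5 τ).trans ?_⟩
    have h8 := (hcc τ hτ).2
    rw [one, mul_one] at h8
    have h9 := X3_key hx kc kg kf h6 h8 h7
    have h10 : kc + kg + kf + 5 = kc + kf + kg + 5 := by omega
    rw [h10] at h9
    exact h9

/-- The empty array. -/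
theorem PA.nil : PA N D ρ (fun _ => []) := by
  have h := PA.tab (N := N) (D := D) (ρ := ρ) (k := fun _ => 0) (f := fun _ _ => 0) (PN.const 0)
    (Bd.const 0) (fun _ _ _ _ => PI.const 0)
  exact h.congr fun a _ => rfl

/-- An array with one entry. -/
theorem PA.one {f : A → ℤ} (hf : PI N D ρ f) : PA N D ρ (fun a => [f a]) := by
  have h := PA.tab (N := N) (D := D) (ρ := ρ) (k := fun _ => 1) (f := fun a _ => f a) (PN.const 1)
    (Bd.const 1) (fun _ _ up _ => up.i hf)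
  exact h.congr fun a _ => rfl

/-- An array with two entries. -/
theorem PA.two {f g : A → ℤ} (hf : PI N D ρ f) (hg : PI N D ρ g) :
    PA N D ρ (fun a => [f a, g a]) := by
  have h := PA.tab (N := N) (D := D) (ρ := ρ) (k := fun _ => 2)
    (f := fun a i => if i = 0 then f a else g a) (PN.const 2)
    (Bd.const 2) (fun _ _ up hi => Cp.ite (PB.eqN hi (PN.const 0)) (up.i hf) (up.i hg))
  refine h.congr fun a _ => ?_
  simp [tb, List.range_succ]

end

end Pool.Agent.MPa9445a.GD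
end

section

/-! More rules: tables, filters and maxima whose passes have different weights; adding an entry. -/

set_option autoImplicit false

open Finset

namespace Pool.Agent.MPa9445a.GD

open Pool.Agent.MPa9445a.BE

theorem find_congr {p q : ℕ → Bool} (l : List ℕ) (h : ∀ i ∈ l, p i = q i) :
    l.find? p = l.find? q := by
  induction l with
  | nil => rfl
  | cons a l ih =>
    have h1 := h a List.mem_cons_self
    have h2 := ih fun i hi => h i (List.mem_cons_of_mem _ hi)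
    rw [List.find?_cons, List.find?_cons, h1, h2]

theorem argmax_congr {k : ℕ} {f g : ℤ → ℤ} (h : ∀ i < k, f (i : ℤ) = g (i : ℤ)) :
    argmax k f = argmax k g := by
  unfold argmax
  congr 1
  refine find_congr _ fun i hi => ?_
  rw [List.mem_range] at hi
  rw [Bool.eq_iff_iff, List.all_eq_true, List.all_eq_true]
  constructor
  · intro h1 j hj
    have h2 := of_decide_eq_true (h1 j hj)
    rw [List.mem_range] at hj
    rw [h j hj, h i hi] at h2
    exact decide_eq_true h2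
  · intro h1 j hj
    have h2 := of_decide_eq_true (h1 j hj)
    rw [List.mem_range] at hj
    rw [← h j hj, ← h i hi] at h2
    exact decide_eq_true h2

section

variable {A : Type} {N : A → ℕ} {D : A → Prop} {Γ : List Ty} {ρ : A → Env Γ}

theorem PN.szk {k : A → ℕ} (hk : PN N D ρ k) :
    ∃ c : ℕ, ∀ a, D a → BE.sz (k a : ℤ) ≤ (N a + 2) ^ c := by
  obtain ⟨e, c, hc⟩ := hk
  exact ⟨c, fun a ha => (hc a ha).2.1⟩

theorem BodyW.le {k : A → ℕ} {w : ℝ → A × ℕ → ℝ} {t : Ty} {f : A → ℕ → t.Val}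
    (hk : PN N D ρ k) (h : BodyW N D ρ k w t f) :
    ∀ a, D a → ∀ τ : ℝ, 2 ≤ τ → ((k a : ℝ) + 1) ≤ 1 + ∑ i ∈ range (k a), w τ (a, i) := by
  obtain ⟨_, _, hout⟩ := BodyW.out hk.szk h
  intro a ha τ hτ
  have h1 : ∑ _i ∈ range (k a), (1 : ℝ) ≤ ∑ i ∈ range (k a), w τ (a, i) :=
    Finset.sum_le_sum fun i hi => ((hout a ha i (Finset.mem_range.1 hi)).2.2 τ hτ).1
  rw [Finset.sum_const, Finset.card_range, nsmul_eq_mul, mul_one] at h1
  linarith

theorem fltW {k : A → ℕ} {w : ℝ → A × ℕ → ℝ} {q : A → ℕ → Prop} [∀ a, DecidablePred (q a)]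
    (hk : PN N D ρ k) (h : BodyW N D ρ k w .int (fun a i => if q a i then 1 else 0)) :
    Cp N D ρ (fun τ a => 1 + ∑ i ∈ range (k a), w τ (a, i)) .arr (fun a => flt (k a) (q a)) := by
  have hw := BodyW.le hk h
  refine (tabW hk h).store fun Γ1 ρ1 k1 hT => ?_
  have h1 := Cp.filter (q := fun a i => gt (tb (k a) fun i => if q a i then 1 else 0) i = 1)
    (k1.n hk) fun Γ2 ρ2 up2 hv => PB.eq (PI.get (up2.a hT) hv) (PI.const 1)
  refine (h1.mono hw).congr fun a _ => ?_
  unfold flt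
  congr 1
  refine List.filter_congr fun i hi => ?_
  rw [List.mem_range] at hi
  refine decide_eq_decide.2 ?_
  show (tb (k a) fun i => if q a i then (1 : ℤ) else 0).getD i 0 = 1 ↔ q a i
  rw [getD_tb, if_pos hi]
  by_cases hq : q a i
  · simp [hq]
  · simp [hq]

theorem amW {k : A → ℕ} {w : ℝ → A × ℕ → ℝ} {f : A → ℕ → ℤ}
    (hk : PN N D ρ k) (h : BodyW N D ρ k w .int f) :
    Cp N D ρ (fun τ a => 1 + ∑ i ∈ range (k a), w τ (a, i)) .int
      (fun a => (argmax (k a) (fun i => f a i.toNat) : ℤ)) := by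
  have hw := BodyW.le hk h
  refine (tabW hk h).store fun Γ1 ρ1 k1 hT => ?_
  have hb : Body N D ρ1 k one .int (fun a i => (tb (k a) (f a)).getD i 0) := by
    intro Γ2 ρ2 up2 hv
    exact PI.get (up2.a hT) hv
  have hamax := Cp.amax (k1.n hk) (fun _ _ _ _ => le_refl _) hb
  have h2 : Cp N D ρ1 (fun τ a => 1 + ∑ i ∈ range (k a), w τ (a, i)) .int
      (fun a => (argmax (k a) (fun i => (tb (k a) (f a)).getD i.toNat 0) : ℤ)) := by
    refine hamax.mono fun a ha τ hτ => ?_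
    have h1 := hw a ha τ hτ
    simpa [one] using h1
  refine h2.congr fun a _ => ?_
  have h3 : argmax (k a) (fun i => (tb (k a) (f a)).getD i.toNat 0) =
      argmax (k a) (fun i => f a i.toNat) := by
    refine argmax_congr fun i hi => ?_
    rw [Int.toNat_natCast, getD_tb, if_pos hi]
  rw [h3]

/-- The least number with a property, as a maximum. -/
theorem argmax_find {k : ℕ} {q : ℕ → Prop} [DecidablePred q] {i : ℕ} (hi : i < k) (hq : q i) :
    q (argmax k fun j => if q j.toNat then 1 else 0) ∧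
      (argmax k fun j => if q j.toNat then 1 else 0) < k ∧
      ∀ j < argmax k fun j => if q j.toNat then 1 else 0, ¬ q j := by
  obtain ⟨h1, h2⟩ := argmax_spec (k := k) (by omega) (fun j => if q j.toNat then 1 else 0)
  have h3 : q (argmax k fun j => if q j.toNat then 1 else 0) := by
    have h4 := h2 i hi
    simp only [Int.toNat_natCast, if_pos hq] at h4
    by_contra h5
    rw [if_neg h5] at h4
    norm_num at h4
  refine ⟨h3, h1, fun j hj hqj => ?_⟩
  have h5 : argmax k (fun j => if q j.toNat then 1 else 0) ≤ j := by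
    unfold argmax
    cases hf : (List.range k).find? fun i : ℕ => (List.range k).all fun j : ℕ =>
        decide ((if q ((j : ℤ)).toNat then (1 : ℤ) else 0) ≤ if q ((i : ℤ)).toNat then 1 else 0) with
    | none => exact Nat.zero_le _
    | some m =>
      show m ≤ j
      by_contra hmj
      rw [not_le] at hmj
      rw [List.find?_range_eq_some] at hf
      have h6 := hf.2.2 j hmj
      rw [Bool.not_eq_true', ← Bool.not_eq_true, List.all_eq_true] at h6
      refine h6 fun x _ => decide_eq_true ?_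
      rw [Int.toNat_natCast, Int.toNat_natCast, if_pos hqj]
      split_ifs <;> norm_num
  omega

/-- Adding an entry in front. -/
theorem Cp.cons {c : A → ℤ} {f : A → List ℤ} {w : ℝ → A → ℝ} (hc : PI N D ρ c)
    (h : Cp N D ρ w .arr f)
    (hl : ∃ m : ℕ, ∀ a, D a → ∀ τ : ℝ, 2 ≤ τ →
      ((f a).length : ℝ) ≤ ((N a : ℝ) + 2) ^ m * w τ a) :
    Cp N D ρ w .arr (fun a => c a :: f a) := by
  have hw1 : ∀ a, D a → ∀ τ : ℝ, 2 ≤ τ → 1 ≤ w τ a := by
    obtain ⟨e, m, he⟩ := h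
    exact fun a ha τ hτ => ((he a ha).2.2 τ hτ).1
  refine h.store fun Γ1 ρ1 k1 hf => ?_
  have h1 := Cp.tab (k := fun a => (f a).length + 1) (w := one)
    (f := fun a i => if i = 0 then c a else gt (f a) (i - 1)) (PN.add (PN.len hf) (PN.const 1))
    (fun _ _ _ _ => le_refl _) fun Γ2 ρ2 up2 hv =>
      Cp.ite (PB.eqN hv (PN.const 0)) (up2.i (k1.i hc))
        (PI.get (up2.a hf) (PN.sub hv (PN.const 1)))
  obtain ⟨m, hm⟩ := hl
  refine (h1.mono_poly (m + 2) fun a ha τ hτ => ⟨hw1 a ha τ hτ, ?_⟩).congr fun a _ => ?_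
  · have h2 := hm a ha τ hτ
    have h3 := hw1 a ha τ hτ
    have hx : (2 : ℝ) ≤ (N a : ℝ) + 2 := by
      have : (0 : ℝ) ≤ (N a : ℝ) := Nat.cast_nonneg _
      linarith
    have h4 : (1 : ℝ) ≤ ((N a : ℝ) + 2) ^ m := one_le_pow₀ (by linarith)
    have h5 : (4 : ℝ) ≤ ((N a : ℝ) + 2) ^ 2 := by nlinarith
    rw [one, mul_one, pow_add]
    push_cast
    have h6 : ((N a : ℝ) + 2) ^ m * 4 * w τ a ≤ ((N a : ℝ) + 2) ^ m * ((N a : ℝ) + 2) ^ 2 * w τ a := by
      refine mul_le_mul_of_nonneg_right ?_ (by linarith)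
      exact mul_le_mul_of_nonneg_left h5 (by linarith)
    nlinarith
  · refine List.ext_getElem ?_ fun i h1 h2 => ?_
    · simp [tb]
    · simp only [tb, List.getElem_map, List.getElem_range]
      rcases Nat.eq_zero_or_pos i with hi | hi
      · subst hi
        simp
      · obtain ⟨j, rfl⟩ : ∃ j, i = j + 1 := ⟨i - 1, by omega⟩
        rw [if_neg (by omega), List.getElem_cons_succ]
        show (f a).getD (j + 1 - 1) 0 = _
        have hj : j < (f a).length := by
          rw [List.length_cons] at h2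
          omega
        rw [Nat.add_sub_cancel, List.getD_eq_getElem _ _ hj]

end

end Pool.Agent.MPa9445a.GD
end
end

section

/-! Filter and map for arrays; concatenation of two arrays. -/

set_option autoImplicit false

open Finset

namespace Pool.Agent.MPa9445a.GD

open Pool.Agent.MPa9445a.BE

theorem tb_gt (L : List ℤ) : tb L.length (fun i => gt L i) = L := by
  refine List.ext_getElem ?_ fun i h1 h2 => ?_
  · simp [tb]
  · simp only [tb, List.getElem_map, List.getElem_range]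
    exact List.getD_eq_getElem _ _ h2

theorem tb_map (L : List ℤ) (g : ℤ → ℤ) : tb L.length (fun i => g (gt L i)) = L.map g := by
  conv_rhs => rw [← tb_gt L]
  unfold tb
  rw [List.map_map]
  rfl

theorem filter_eq (L : List ℤ) (q : ℤ → Prop) [DecidablePred q] :
    (flt L.length fun i => q (gt L i)).map (fun z => gt L z.toNat) = L.filter fun x => decide (q x) := by
  conv_rhs => rw [← tb_gt L]
  unfold flt tb
  rw [List.map_map, List.filter_map]
  rfl

theorem mem_gt {L : List ℤ} {x : ℤ} (h : x ∈ L) : ∃ i < L.length, gt L i = x := by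
  obtain ⟨i, hi, he⟩ := List.getElem_of_mem h
  exact ⟨i, hi, by rw [← he]; exact List.getD_eq_getElem _ _ hi⟩

theorem gt_mem {L : List ℤ} {i : ℕ} (h : i < L.length) : gt L i ∈ L := by
  rw [gt, List.getD_eq_getElem _ _ h]
  exact List.getElem_mem h

section

variable {A : Type} {N : A → ℕ} {D : A → Prop} {Γ : List Ty} {ρ : A → Env Γ}

/-- The array of the values of `f` at the entries of `L`. -/
theorem Cp.mapL {L : A → List ℤ} {f : A → ℤ → ℤ} (hL : PA N D ρ L)
    (h : Body N D ρ (fun a => (L a).length) one .int (fun a i => f a (gt (L a) i))) :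
    Cp N D ρ (fun _ a => ((L a).length : ℝ) + 1) .arr (fun a => (L a).map (f a)) := by
  have h1 := Cp.tab (PN.len hL) (fun _ _ _ _ => le_refl _) h
  refine (h1.mono fun a _ τ _ => ?_).congr fun a _ => tb_map (L a) (f a)
  simp

/-- The array of the entries of `L` with the property `q`. -/
theorem Cp.filterL {L : A → List ℤ} {q : A → ℤ → Prop} [∀ a, DecidablePred (q a)]
    (hL : PA N D ρ L)
    (h : ∀ (Γ' : List Ty) (ρ' : A × ℕ → Env Γ'), Up N D ρ (fun a => (L a).length) ρ' →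
      PN (NL N) (DL D fun a => (L a).length) ρ' (fun p => p.2) →
      PB (NL N) (DL D fun a => (L a).length) ρ' (fun p => q p.1 (gt (L p.1) p.2))) :
    Cp N D ρ (fun _ a => ((L a).length : ℝ) + 1) .arr
      (fun a => (L a).filter fun x => decide (q a x)) := by
  have h1 := Cp.filter (q := fun a i => q a (gt (L a) i)) (PN.len hL) h
  refine h1.store fun Γ1 ρ1 k1 hF => ?_
  have h2 := Cp.mapL (f := fun a z => gt (L a) z.toNat) hF fun Γ2 ρ2 up2 hv =>
    PI.get (up2.a (k1.a hL)) (PN.toNat (PI.get (up2.a hF) hv))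
  refine (h2.mono fun a _ τ _ => ?_).congr fun a _ => filter_eq (L a) (q a)
  have h3 : (flt (L a).length fun i => q a (gt (L a) i)).length ≤ (L a).length := by
    unfold flt
    rw [List.length_map]
    exact (List.length_filter_le _ _).trans (by rw [List.length_range])
  have h4 : ((flt (L a).length fun i => q a (gt (L a) i)).length : ℝ) ≤ (L a).length := by
    exact_mod_cast h3
  linarith

theorem fm_two (f : ℕ → List ℤ) : fm 2 f = f 0 ++ f 1 := by
  rw [fm_succ, fm_succ, fm_zero, List.nil_append]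

/-- The concatenation of two arrays. -/
theorem Cp.app {L M : A → List ℤ} {w : ℝ → A → ℝ} (hL : Cp N D ρ w .arr L)
    (hM : Cp N D ρ w .arr M)
    (hl : ∃ m : ℕ, ∀ a, D a → ∀ τ : ℝ, 2 ≤ τ →
      ((L a).length : ℝ) + (M a).length ≤ ((N a : ℝ) + 2) ^ m * w τ a) :
    Cp N D ρ w .arr (fun a => L a ++ M a) := by
  have hw1 : ∀ a, D a → ∀ τ : ℝ, 2 ≤ τ → 1 ≤ w τ a := by
    obtain ⟨e, m, he⟩ := hL
    exact fun a ha τ hτ => ((he a ha).2.2 τ hτ).1
  obtain ⟨m, hm⟩ := hl
  refine hL.store fun Γ1 ρ1 k1 hL' => ?_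
  refine (k1 _ _ _ hM).store fun Γ2 ρ2 k2 hM' => ?_
  have hL2 := k2.a hL'
  have h1 := Cp.tab (N := N) (D := D) (ρ := ρ2) (k := fun a => (L a).length + (M a).length)
    (w := one) (f := fun a i => if i < (L a).length then gt (L a) i else
      gt (M a) (i - (L a).length)) (PN.add (PN.len hL2) (PN.len hM'))
    (fun _ _ _ _ => le_refl _) fun Γ3 ρ3 up3 hv =>
      Cp.ite (PB.ltN hv (PN.len (up3.a hL2))) (PI.get (up3.a hL2) hv)
        (PI.get (up3.a hM') (PN.sub hv (PN.len (up3.a hL2))))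
  refine (h1.mono_poly (m + 1) fun a ha τ hτ => ⟨hw1 a ha τ hτ, ?_⟩).congr fun a _ => ?_
  · have h2 := hm a ha τ hτ
    have h3 := hw1 a ha τ hτ
    have hx : (2 : ℝ) ≤ (N a : ℝ) + 2 := by
      have : (0 : ℝ) ≤ (N a : ℝ) := Nat.cast_nonneg _
      linarith
    have h4 : (1 : ℝ) ≤ ((N a : ℝ) + 2) ^ m := one_le_pow₀ (by linarith)
    rw [one, mul_one, pow_succ]
    push_cast
    have h5 : ((N a : ℝ) + 2) ^ m * 2 * w τ a ≤ ((N a : ℝ) + 2) ^ m * ((N a : ℝ) + 2) * w τ a := by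
      refine mul_le_mul_of_nonneg_right ?_ (by linarith)
      exact mul_le_mul_of_nonneg_left hx (by linarith)
    nlinarith
  · refine List.ext_getElem ?_ fun i h1 h2 => ?_
    · simp [tb]
    · simp only [tb, List.getElem_map, List.getElem_range]
      by_cases hi : i < (L a).length
      · rw [if_pos hi, List.getElem_append_left hi]
        exact List.getD_eq_getElem _ _ hi
      · rw [if_neg hi, List.getElem_append_right (by omega)]
        rw [List.length_append] at h2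
        exact List.getD_eq_getElem _ _ (by omega)

end

end Pool.Agent.MPa9445a.GD
end
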