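import Pool.Agent.Lib.MP_a9445a_lc.Mg.G134
import Pool.Agent.Lib.MP_a9445a_lc.SN.Alg2

section

/-! The vectors on the complement of `D`. -/

set_option autoImplicit false

open Finset
open scoped symmDiff

namespace Pool.Agent.MPa9445a.SN

open Pool.Agent.MPa9445a.BE

variable {n : ℕ}

private theorem C4_vv (e : ℕ) (A₁ A₂ : List ℤ) (y d z : ℕ) (v : Fin n) :
    fv n (vv n e A₁ A₂ y d z) v =
      -(sgn (ST n y) v * fv n (dec n (pE n d) (msk n e A₁ A₂ z)) v) := by
  unfold vv
  rw [fv_tb, ← fv_vec]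
  rfl

private theorem C4_gt {L : List ℤ} {i : ℕ} (hi : i < L.length) : gt L i = L[i] := by
  unfold gt
  rw [List.getD_eq_getElem _ _ hi]

private theorem C4_vertex {L : List ℤ} (h : VL n L) {i : ℕ} (hi : i < L.length) :
    ∃ v : Fin n, gt L i = ((v : ℕ) : ℤ) := by
  have hx : gt L i ∈ L := by
    rw [C4_gt hi]
    exact List.getElem_mem hi
  obtain ⟨h1, h2⟩ := h.bd _ hx
  exact ⟨⟨(gt L i).toNat, by omega⟩, by simp only []; omega⟩

private theorem C4_idx {L : List ℤ} {v : Fin n} (hx : v ∈ st n L) :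
    ∃ i, i < L.length ∧ gt L i = ((v : ℕ) : ℤ) := by
  unfold st at hx
  rw [Finset.mem_filter] at hx
  obtain ⟨i, hi, hix⟩ := List.getElem_of_mem hx.2
  exact ⟨i, hi, by rw [C4_gt hi, hix]⟩

private theorem C4_bit0 {m i k : ℕ} (hm : m < 2 ^ k) (hi : k ≤ i) : bit m i = 0 := by
  unfold bit
  rw [Nat.div_eq_of_lt (hm.trans_le (Nat.pow_le_pow_right (by norm_num) hi))]

private theorem C4_pc {L : List ℤ} (h : VL n L) (hn : L.length ≤ n) {m : ℕ} (hm : m < 2 ^ L.length)
    (F : Finset (Fin n)) (hF : ∀ v : Fin n, v ∈ F ↔ fv n (dec n L m) v = 1) : pc n m = F.card := by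
  classical
  rw [pc_eq]
  have key : ∀ i : Fin n, i ∈ ST n m → (i : ℕ) < L.length := by
    intro i hi
    by_contra hc
    unfold ST at hi
    rw [Finset.mem_filter] at hi
    rw [C4_bit0 hm (not_lt.1 hc)] at hi
    exact absurd hi.2 (by norm_num)
  have hv : ∀ i : Fin n, ∃ v : Fin n, (i : ℕ) < L.length → gt L i = ((v : ℕ) : ℤ) := by
    intro i
    by_cases hi : (i : ℕ) < L.length
    · obtain ⟨v, hv⟩ := C4_vertex h hi
      exact ⟨v, fun _ => hv⟩
    · exact ⟨i, fun h' => absurd h' hi⟩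
  choose g hg using hv
  refine Finset.card_bij (fun i _ => g i) ?_ ?_ ?_
  · intro i hi
    have h1 := key i hi
    rw [hF, fv_dec h m h1 (hg i h1)]
    unfold ST at hi
    rw [Finset.mem_filter] at hi
    rw [hi.2]
    norm_num
  · intro i hi j hj hij
    have h1 := key i hi
    have h2 := key j hj
    have h3 : gt L i = gt L j := by rw [hg i h1, hg j h2, hij]
    rw [C4_gt h1, C4_gt h2] at h3
    exact Fin.ext ((h.nodup.getElem_inj_iff).1 h3)
  · intro v hvF
    have hvs : v ∈ st n L := by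
      by_contra hc
      have h1 := (hF v).1 hvF
      rw [fv_dec_not m hc] at h1
      exact absurd h1 (by norm_num)
    obtain ⟨i, hi, hiv⟩ := C4_idx hvs
    refine ⟨⟨i, hi.trans_le hn⟩, ?_, ?_⟩
    · unfold ST
      rw [Finset.mem_filter]
      refine ⟨Finset.mem_univ _, ?_⟩
      have h1 := (hF v).1 hvF
      rw [fv_dec h m hi hiv] at h1
      have h2 : (bit m i : ℤ) = 1 := by linarith
      exact_mod_cast h2
    · have h1 := hg ⟨i, hi.trans_le hn⟩ hi
      have h2 : ((g ⟨i, hi.trans_le hn⟩ : ℕ) : ℤ) = ((v : ℕ) : ℤ) := by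
        rw [← h1]
        exact hiv
      exact Fin.ext (by exact_mod_cast h2)

/-- PROOF. `fv_tb`, `fv_vec`, `dec_mem` for `pE_spec`. -/
theorem vv_supp (e : ℕ) (A₁ A₂ : List ℤ) (y d z : ℕ) (v : Fin n) :
    (v ∈ (ST n d)ᶜ → fv n (vv n e A₁ A₂ y d z) v = 1 ∨ fv n (vv n e A₁ A₂ y d z) v = -1) ∧
      (v ∉ (ST n d)ᶜ → fv n (vv n e A₁ A₂ y d z) v = 0) := by
  obtain ⟨h1, h2, -⟩ := pE_spec (n := n) d
  have h3 := (mem_Om.1 (dec_mem h1 (msk n e A₁ A₂ z))) v
  rw [h2] at h3
  rw [C4_vv]
  constructor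
  · intro hv
    have h4 : sgn (ST n y) v = 1 ∨ sgn (ST n y) v = -1 := by
      unfold sgn
      by_cases h : v ∈ ST n y
      · left
        rw [if_pos h]
      · right
        rw [if_neg h]
    rcases h4 with h4 | h4 <;> rcases h3.1 hv with h5 | h5 <;> rw [h4, h5] <;> norm_num
  · intro hv
    rw [h3.2 hv]
    norm_num

/-- PROOF. Let `D = ST n d`, `Y = ST n y`, `|D| = e`. The set `F = (X ∆ Y) \ D` of the flips has `≤ r` elements. By `dec_surj` for `pE` there is `m < 2^(n-e)` such that `dec n (pE n d) m` is `1` on `F` and `-1` on `Dᶜ \ F`; `pc n m = |F|` (the digits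
of `m` are the signs at the vertices of the list, `fv_dec`, `card_st`). `msk_surj` gives `w₁, w₂, z`. Then `-(y v * dec v)` is `- y v` on `F`, `y v` on `Dᶜ \ F`: this is the sign of `X`. -/
theorem vv_surj {d y r : ℕ} (X : Finset (Fin n)) (h : ((X ∆ ST n y) \ ST n d).card ≤ r) :
    ∃ w₁ w₂ z, w₁ + w₂ ≤ r ∧
      z < (B1 n (ST n d).card w₁).length * (B2 n (ST n d).card w₂).length ∧
      P1 n (vv n (ST n d).card (B1 n (ST n d).card w₁) (B2 n (ST n d).card w₂) y d z) =
        X \ ST n d := by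
  classical
  obtain ⟨h1, h2, h3⟩ := pE_spec (n := n) d
  have hDn : (ST n d).card ≤ n := by
    have h4 := Finset.card_le_univ (ST n d)
    rwa [Fintype.card_fin] at h4
  set F : Finset (Fin n) := (X ∆ ST n y) \ ST n d with hFdef
  have hx : (fun v : Fin n => if v ∈ F then (1 : ℤ) else if v ∈ ST n d then 0 else -1) ∈
      Om (st n (pE n d)) := by
    rw [h2, mem_Om]
    intro v
    constructor
    · intro hv
      have hv' : v ∉ ST n d := Finset.mem_compl.1 hv
      by_cases hF : v ∈ F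
      · left
        rw [if_pos hF]
      · right
        rw [if_neg hF, if_neg hv']
    · intro hv
      have hv' : v ∈ ST n d := by
        by_contra hc
        exact hv (Finset.mem_compl.2 hc)
      have hF : v ∉ F := fun hc => (Finset.mem_sdiff.1 hc).2 hv'
      rw [if_neg hF, if_pos hv']
  obtain ⟨m, hm, hmx⟩ := dec_surj h1 hx
  have hFm : ∀ v : Fin n, v ∈ F ↔ fv n (dec n (pE n d) m) v = 1 := by
    intro v
    rw [hmx]
    simp only []
    by_cases hF : v ∈ F
    · rw [if_pos hF]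
      exact ⟨fun _ => rfl, fun _ => hF⟩
    · rw [if_neg hF]
      refine ⟨fun h' => absurd h' hF, fun h' => ?_⟩
      exfalso
      by_cases hd : v ∈ ST n d
      · rw [if_pos hd] at h'
        exact absurd h' (by norm_num)
      · rw [if_neg hd] at h'
        exact absurd h' (by norm_num)
  have hpc := C4_pc h1 (by rw [h3]; exact Nat.sub_le _ _) hm F hFm
  rw [h3] at hm
  obtain ⟨w₁, w₂, z, hw, hz, hmz⟩ := msk_surj hDn hm
  refine ⟨w₁, w₂, z, by rw [hw, hpc]; exact h, hz, ?_⟩
  ext v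
  unfold P1
  rw [Finset.mem_filter, C4_vv, hmz, hmx, Finset.mem_sdiff]
  simp only [Finset.mem_univ, true_and]
  by_cases hd : v ∈ ST n d
  · have hF : v ∉ F := fun hc => (Finset.mem_sdiff.1 hc).2 hd
    rw [if_neg hF, if_pos hd]
    constructor
    · intro h'
      exfalso
      rw [mul_zero] at h'
      exact absurd h' (by norm_num)
    · intro h'
      exact absurd hd h'.2
  · have hFiff : v ∈ F ↔ v ∈ X ∆ ST n y := by
      rw [hFdef, Finset.mem_sdiff]
      exact ⟨fun h' => h'.1, fun h' => ⟨h', hd⟩⟩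
    by_cases hX : v ∈ X <;> by_cases hY : v ∈ ST n y
    · have hF : v ∉ F := by
        rw [hFiff, Finset.mem_symmDiff]
        tauto
      rw [if_neg hF, if_neg hd]
      unfold sgn
      rw [if_pos hY]
      exact ⟨fun _ => ⟨hX, hd⟩, fun _ => by norm_num⟩
    · have hF : v ∈ F := by
        rw [hFiff, Finset.mem_symmDiff]
        tauto
      rw [if_pos hF]
      unfold sgn
      rw [if_neg hY]
      exact ⟨fun _ => ⟨hX, hd⟩, fun _ => by norm_num⟩
    · have hF : v ∈ F := by
        rw [hFiff, Finset.mem_symmDiff]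
        tauto
      rw [if_pos hF]
      unfold sgn
      rw [if_pos hY]
      refine ⟨fun h' => absurd h' (by norm_num), fun h' => absurd h'.1 hX⟩
    · have hF : v ∉ F := by
        rw [hFiff, Finset.mem_symmDiff]
        tauto
      rw [if_neg hF, if_neg hd]
      unfold sgn
      rw [if_neg hY]
      refine ⟨fun h' => absurd h' (by norm_num), fun h' => absurd h'.1 hX⟩

end Pool.Agent.MPa9445a.SN
end

section

/-! The vectors on the complement of `D`. -/

set_option autoImplicit false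

open Finset
open scoped symmDiff

namespace Pool.Agent.MPa9445a.SN

open Pool.Agent.MPa9445a.BE

variable {n : ℕ}

private theorem C4d_ext {m : ℕ} {D : Finset (Fin m)} {x x' : List ℤ}
    (h : ∀ v, (v ∈ D → fv m x v = 1 ∨ fv m x v = -1) ∧ (v ∉ D → fv m x v = 0))
    (h' : ∀ v, (v ∈ D → fv m x' v = 1 ∨ fv m x' v = -1) ∧ (v ∉ D → fv m x' v = 0))
    (hP : P1 m x = P1 m x') (v : Fin m) : fv m x v = fv m x' v := by
  have hv : v ∈ P1 m x ↔ v ∈ P1 m x' := by rw [hP]
  rw [P1, P1, Finset.mem_filter, Finset.mem_filter] at hv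
  simp only [Finset.mem_univ, true_and] at hv
  by_cases hD : v ∈ D
  · rcases (h v).1 hD with h1 | h1 <;> rcases (h' v).1 hD with h2 | h2
    · rw [h1, h2]
    · have := hv.1 h1
      rw [h2] at this
      norm_num at this
    · have := hv.2 h2
      rw [h1] at this
      norm_num at this
    · rw [h1, h2]
  · rw [(h v).2 hD, (h' v).2 hD]

/-- PROOF. Equal `P1` and support: equal vectors; multiply with `- y v`: equal `dec`, `dec_inj`, `msk_spec`. -/
theorem vv_inj {d y w₁ w₂ z z' : ℕ}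
    (hz : z < (B1 n (ST n d).card w₁).length * (B2 n (ST n d).card w₂).length)
    (hz' : z' < (B1 n (ST n d).card w₁).length * (B2 n (ST n d).card w₂).length)
    (h : P1 n (vv n (ST n d).card (B1 n (ST n d).card w₁) (B2 n (ST n d).card w₂) y d z) =
      P1 n (vv n (ST n d).card (B1 n (ST n d).card w₁) (B2 n (ST n d).card w₂) y d z')) :
    z = z' := by
  have he : (ST n d).card ≤ n := by
    calc (ST n d).card ≤ (univ : Finset (Fin n)).card := Finset.card_le_univ _
      _ = n := by rw [Finset.card_univ, Fintype.card_fin]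
  obtain ⟨hlt, hinj⟩ := msk_spec (n := n) he w₁ w₂
  refine hinj z hz z' hz' ?_
  obtain ⟨hVL, -, hlen⟩ := pE_spec (n := n) d
  have h1 := C4d_ext (vv_supp (ST n d).card _ _ y d z) (vv_supp (ST n d).card _ _ y d z') h
  refine dec_inj hVL (by rw [hlen]; exact hlt z hz) (by rw [hlen]; exact hlt z' hz') ?_
  funext v
  have h2 := h1 v
  rw [vv, vv, fv_tb, fv_tb] at h2
  have h3 : gt (vec n y) (v : ℕ) ≠ 0 := by
    have h4 := vec_mem n y
    rw [mem_Om] at h4
    have h5 := h4 v
    have h6 : fv n (vec n y) v = gt (vec n y) (v : ℕ) := rfl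
    rw [h6] at h5
    intro h0
    rw [h0] at h5
    simp at h5
  exact mul_left_cancel₀ h3 (neg_injective h2)

end Pool.Agent.MPa9445a.SN
end
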