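import Pool.Agent.Lib.MP_a9445a_lc.Mg.G131
import Pool.Agent.Lib.MP_a9445a_lc.Mg.G130

section

/-! The probability of success of the two families of random sets. -/

set_option autoImplicit false

open Finset
open scoped symmDiff

namespace Pool.Agent.MPa9445a.SN

variable {n : ℕ} (W : Matrix (Fin n) (Fin n) ℤ)

open scoped Classical in
/-- The advice points. PROOF. Bad events: (a) no `j < Jn n g` with `rs ω j ∈ 𝒮`: by `hit` (`Jn_le`) at most `|Fm| 2^n / (Jn |𝒮|) ≤ |Fm| / 32` (`Jn |𝒮| = 2^g 64 (n+1)² |𝒮| ≥ 32 · 2^n`).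
(b) `Yn n ≤ #{j < Jn : rs ω j ∈ LS W T}`: by `markov` with `φ = 1` on `LS W T`: at most `|Fm| Jn |LS| / (Yn 2^n) ≤ |Fm| 64 (n+1)² 2^(n+1) / (1024 (n+1)² 2^n) = |Fm| / 8`.
If neither happens, some `j` is as wanted (the number of earlier ones is at most the number of all). -/
theorem badY (𝒮 : Finset (Finset (Fin n))) (T : ℤ) {g : ℕ} (hg : g ≤ sig n)
    (h1 : 2 ^ n ≤ 𝒮.card * (2 * (n + 1) ^ 2) * 2 ^ g) (h2 : (LS W T).card * 2 ^ g < 2 ^ (n + 1)) :
    32 * (univ.filter fun ω : Fm n => ¬ ∃ j < Jn n g, rs ω j ∈ 𝒮 ∧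
      ((range j).filter fun j' => T ≤ ff W (rs ω j')).card < Yn n).card ≤
        5 * Fintype.card (Fm n) := by
  set φ : Finset (Fin n) → ℕ := fun X => if T ≤ ff W X then 1 else 0 with hφ
  have hsumφ : ∑ X, φ X = (LS W T).card := by
    rw [LS, Finset.card_filter]
  set A := (univ.filter fun ω : Fm n => ∀ i < Jn n g, rs ω i ∉ 𝒮) with hA
  set B := (univ.filter fun ω : Fm n => Yn n ≤ ∑ i ∈ range (Jn n g), φ (rs ω i)) with hB
  have hAc : 32 * A.card ≤ Fintype.card (Fm n) := by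
    have h3 := hit (n := n) 𝒮 (I := Jn n g) (Jn_le hg)
    have h4 : 32 * 2 ^ n ≤ Jn n g * 𝒮.card := by
      unfold Jn
      nlinarith [h1]
    have h5 : 32 * A.card * 2 ^ n ≤ Fintype.card (Fm n) * 2 ^ n := by
      calc 32 * A.card * 2 ^ n = A.card * (32 * 2 ^ n) := by ring
        _ ≤ A.card * (Jn n g * 𝒮.card) := Nat.mul_le_mul le_rfl h4
        _ ≤ _ := h3
    exact Nat.le_of_mul_le_mul_right h5 (by positivity)
  have hBc : 8 * B.card ≤ Fintype.card (Fm n) := by
    have h3 := markov (n := n) φ (Jn n g) (Yn n)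
    rw [hsumφ] at h3
    have h4 : Jn n g * (LS W T).card ≤ 64 * (n + 1) ^ 2 * 2 ^ (n + 1) := by
      unfold Jn
      calc 2 ^ g * (64 * (n + 1) ^ 2) * (LS W T).card
          = 64 * (n + 1) ^ 2 * ((LS W T).card * 2 ^ g) := by ring
        _ ≤ _ := Nat.mul_le_mul le_rfl h2.le
    have h5 : B.card * (1024 * (n + 1) ^ 2 * 2 ^ n) ≤
        Fintype.card (Fm n) * (64 * (n + 1) ^ 2 * 2 ^ (n + 1)) :=
      h3.trans (Nat.mul_le_mul le_rfl h4)
    have h6 : 8 * B.card * (128 * (n + 1) ^ 2 * 2 ^ n) ≤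
        Fintype.card (Fm n) * (128 * (n + 1) ^ 2 * 2 ^ n) := by
      calc 8 * B.card * (128 * (n + 1) ^ 2 * 2 ^ n) = B.card * (1024 * (n + 1) ^ 2 * 2 ^ n) := by
            ring
        _ ≤ Fintype.card (Fm n) * (64 * (n + 1) ^ 2 * 2 ^ (n + 1)) := h5
        _ = _ := by rw [pow_succ]; ring
    exact Nat.le_of_mul_le_mul_right h6 (by positivity)
  have hsub : (univ.filter fun ω : Fm n => ¬ ∃ j < Jn n g, rs ω j ∈ 𝒮 ∧
      ((range j).filter fun j' => T ≤ ff W (rs ω j')).card < Yn n) ⊆ A ∪ B := by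
    intro ω hω
    rw [Finset.mem_filter] at hω
    rw [Finset.mem_union]
    by_cases hex : ∃ j < Jn n g, rs ω j ∈ 𝒮
    · right
      obtain ⟨j, hj, hjS⟩ := hex
      rw [hB, Finset.mem_filter]
      refine ⟨Finset.mem_univ _, ?_⟩
      have h3 : Yn n ≤ ((range j).filter fun j' => T ≤ ff W (rs ω j')).card := by
        by_contra hlt
        exact hω.2 ⟨j, hj, hjS, not_le.1 hlt⟩
      have h4 : ((range j).filter fun j' => T ≤ ff W (rs ω j')).card ≤
          ((range (Jn n g)).filter fun j' => T ≤ ff W (rs ω j')).card :=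
        Finset.card_le_card (Finset.filter_subset_filter _
          (Finset.range_subset_range.2 hj.le))
      have h5 : ((range (Jn n g)).filter fun j' => T ≤ ff W (rs ω j')).card =
          ∑ i ∈ range (Jn n g), φ (rs ω i) := by
        rw [Finset.card_filter]
      rw [← h5]
      exact h3.trans h4
    · left
      rw [hA, Finset.mem_filter]
      refine ⟨Finset.mem_univ _, fun i hi hiS => hex ⟨i, hi, hiS⟩⟩
  have h7 := (Finset.card_le_card hsub).trans (Finset.card_union_le A B)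
  omega

end Pool.Agent.MPa9445a.SN
end

section

/-! The probability of success of the two families of random sets. -/

set_option autoImplicit false

open Finset
open scoped symmDiff

namespace Pool.Agent.MPa9445a.SN

variable {n : ℕ} (W : Matrix (Fin n) (Fin n) ℤ)

private theorem S1b_aux {x N J P : ℕ} (h : x * (((16 * J) / P + 1) * P) ≤ N * J) (hP : 0 < P) :
    16 * x ≤ N := by
  by_contra hc
  have hc : N < 16 * x := not_le.1 hc
  have hx : 0 < x := by omega
  have hQ : 16 * J < ((16 * J) / P + 1) * P := by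
    have := Nat.lt_div_mul_add (a := 16 * J) hP
    rw [Nat.add_mul, Nat.one_mul]
    exact this
  have h1 : x * (16 * J) < x * (((16 * J) / P + 1) * P) := Nat.mul_lt_mul_of_pos_left hQ hx
  have h2 : N * J ≤ 16 * x * J := Nat.mul_le_mul_right J hc.le
  have h3 : x * (16 * J) = 16 * x * J := by ring
  omega

private theorem S1b_lay (e : ℕ) : ∑ X : Finset (Fin n), (if X.card = e then 1 else 0) =
    n.choose e := by
  rw [← Finset.card_filter]
  have : (univ.filter fun X : Finset (Fin n) => X.card = e) = Finset.powersetCard e univ := by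
    ext X
    simp [Finset.mem_powersetCard]
  rw [this, Finset.card_powersetCard, Finset.card_univ, Fintype.card_fin]

open scoped Classical in
/-- The sets `D`. PROOF. Bad events: (c) no `i < Jn n g` with `rs ω i ∈ 𝒢`: as in `badY` at most `|Fm| / 32`. (d) with `c = #{i' < Jn : |rs ω i'| = e}` and `a = 16 (Jn C(n,e)) / 2^n + 1`: `a ≤ c`; by `markov`
(`φ = 1` on `lay n e`, which has `C(n,e)` elements) at most `|Fm| Jn C(n,e) / (a 2^n) ≤ |Fm| / 16`; otherwise `c ≤ 16 (Jn C(n,e)) / 2^n`, so `c (2^e + WL + 1) 2^n ≤ 16 Jn C(n,e) (2^e + WL + 1) ≤ Bud n 2^n`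
(`num1`). (e) with `s = ∑ D ∈ lay n e, |PD W θ D|`, `a = 16 (Jn s) / 2^n + 1`: the sum is `≥ a`; by `markov` (`φ D = |PD W θ D|` if `|D| = e`, else `0`) at most `|Fm| / 16`; otherwise the sum is at most `16 Jn s / 2^n ≤ Bud n`. -/
theorem badD (𝒢 : Finset (Finset (Fin n))) (θ : ℤ) {g e : ℕ} (hg : g ≤ sig n) (he : 2 * e ≤ n)
    (h1 : 2 ^ n ≤ 𝒢.card * (2 * (n + 1) ^ 2) * 2 ^ g)
    (h2 : 16 * (Jn n g * ∑ D ∈ lay n e, (PD W θ D).card) ≤ Bud n * 2 ^ n) :
    32 * (univ.filter fun ω : Fm n => ¬ ((∃ i < Jn n g, rs ω i ∈ 𝒢) ∧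
      (∀ w₁ w₂, w₁ + w₂ ≤ rad n e →
        ((range (Jn n g)).filter fun i' => (rs ω i').card = e).card * (2 ^ e + WL n e w₁ w₂ + 1) ≤
          Bud n) ∧
      ∑ i' ∈ (range (Jn n g)).filter fun i' => (rs ω i').card = e,
        (PD W θ (rs ω i')).card ≤ Bud n)).card ≤ 5 * Fintype.card (Fm n) := by
  have hP : 0 < 2 ^ n := by positivity
  -- the three bad events
  set A : Finset (Fm n) := univ.filter fun ω => ∀ i < Jn n g, rs ω i ∉ 𝒢 with hA
  set B : Finset (Fm n) := univ.filter fun ω => (16 * (Jn n g * n.choose e)) / 2 ^ n + 1 ≤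
    ∑ i ∈ range (Jn n g), (if (rs ω i).card = e then 1 else 0) with hB
  set C : Finset (Fm n) := univ.filter fun ω =>
    (16 * (Jn n g * ∑ D ∈ lay n e, (PD W θ D).card)) / 2 ^ n + 1 ≤
    ∑ i ∈ range (Jn n g), (if (rs ω i).card = e then (PD W θ (rs ω i)).card else 0) with hC
  have cA : 32 * A.card ≤ Fintype.card (Fm n) := by
    have h := hit (n := n) 𝒢 (Jn_le hg)
    have e1 : Jn n g * 𝒢.card = 32 * (𝒢.card * (2 * (n + 1) ^ 2) * 2 ^ g) := by
      unfold Jn
      ring
    rw [e1] at h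
    have h' : A.card * (32 * 2 ^ n) ≤ Fintype.card (Fm n) * 2 ^ n :=
      le_trans (Nat.mul_le_mul_left _ (Nat.mul_le_mul_left _ h1)) h
    have h'' : (32 * A.card) * 2 ^ n ≤ Fintype.card (Fm n) * 2 ^ n := by
      have : A.card * (32 * 2 ^ n) = (32 * A.card) * 2 ^ n := by ring
      omega
    exact Nat.le_of_mul_le_mul_right h'' hP
  have cB : 16 * B.card ≤ Fintype.card (Fm n) := by
    have h := markov (n := n) (fun X => if X.card = e then 1 else 0) (Jn n g)
      ((16 * (Jn n g * n.choose e)) / 2 ^ n + 1)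
    rw [S1b_lay] at h
    exact S1b_aux h hP
  have cC : 16 * C.card ≤ Fintype.card (Fm n) := by
    have h := markov (n := n) (fun X => if X.card = e then (PD W θ X).card else 0) (Jn n g)
      ((16 * (Jn n g * ∑ D ∈ lay n e, (PD W θ D).card)) / 2 ^ n + 1)
    have e2 : ∑ X : Finset (Fin n), (if X.card = e then (PD W θ X).card else 0) =
        ∑ D ∈ lay n e, (PD W θ D).card := by
      unfold lay
      rw [Finset.sum_filter]
    rw [e2] at h
    exact S1b_aux h hP
  have hsub : (univ.filter fun ω : Fm n => ¬ ((∃ i < Jn n g, rs ω i ∈ 𝒢) ∧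
      (∀ w₁ w₂, w₁ + w₂ ≤ rad n e →
        ((range (Jn n g)).filter fun i' => (rs ω i').card = e).card * (2 ^ e + WL n e w₁ w₂ + 1) ≤
          Bud n) ∧
      ∑ i' ∈ (range (Jn n g)).filter fun i' => (rs ω i').card = e,
        (PD W θ (rs ω i')).card ≤ Bud n)) ⊆ A ∪ (B ∪ C) := by
    intro ω hω
    rw [Finset.mem_filter] at hω
    by_contra hcon
    rw [Finset.mem_union, Finset.mem_union, not_or, not_or] at hcon
    obtain ⟨nA, nB, nC⟩ := hcon
    rw [hA, Finset.mem_filter] at nA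
    rw [hB, Finset.mem_filter] at nB
    rw [hC, Finset.mem_filter] at nC
    refine hω.2 ⟨?_, ?_, ?_⟩
    · by_contra hh
      refine nA ⟨Finset.mem_univ _, fun i hi hin => hh ⟨i, hi, hin⟩⟩
    · intro w₁ w₂ hw
      have hc : ((range (Jn n g)).filter fun i' => (rs ω i').card = e).card ≤
          (16 * (Jn n g * n.choose e)) / 2 ^ n := by
        rw [Finset.card_filter]
        by_contra hh
        exact nB ⟨Finset.mem_univ _, by omega⟩
      have hc2 : ((range (Jn n g)).filter fun i' => (rs ω i').card = e).card * 2 ^ n ≤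
          16 * (Jn n g * n.choose e) := (Nat.le_div_iff_mul_le hP).1 hc
      have hn1 := num1 he hw hg
      refine Nat.le_of_mul_le_mul_right (le_trans ?_ hn1) hP
      calc ((range (Jn n g)).filter fun i' => (rs ω i').card = e).card *
            (2 ^ e + WL n e w₁ w₂ + 1) * 2 ^ n
          = (((range (Jn n g)).filter fun i' => (rs ω i').card = e).card * 2 ^ n) *
            (2 ^ e + WL n e w₁ w₂ + 1) := by ring
        _ ≤ 16 * (Jn n g * n.choose e) * (2 ^ e + WL n e w₁ w₂ + 1) :=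
          Nat.mul_le_mul_right _ hc2
    · rw [Finset.sum_filter]
      have hle : (16 * (Jn n g * ∑ D ∈ lay n e, (PD W θ D).card)) / 2 ^ n ≤ Bud n := by
        calc _ ≤ (Bud n * 2 ^ n) / 2 ^ n := Nat.div_le_div_right h2
          _ = Bud n := Nat.mul_div_cancel _ hP
      by_contra hh
      exact nC ⟨Finset.mem_univ _, by omega⟩
  have hcard := Finset.card_le_card hsub
  have hu1 := Finset.card_union_le A (B ∪ C)
  have hu2 := Finset.card_union_le B C
  omega

end Pool.Agent.MPa9445a.SN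
end

section

/-! A block succeeds with probability at least one half. -/

set_option autoImplicit false

open Finset
open scoped symmDiff

namespace Pool.Agent.MPa9445a.SN

variable {n : ℕ} (W : Matrix (Fin n) (Fin n) ℤ)

open scoped Classical in
/-- Case I. PROOF. `hit` for `𝒮 = LS W (ff W X₀)`, `I = Jn n (sig n)` (`Jn_le`): `I |𝒮| ≥ 64 · 2^n`. (`X ∈ LS W (ff W X₀)` means `ff W X = ff W X₀`.) -/
theorem suc1 {X₀ : Finset (Fin n)} (hX : IsMx W X₀)
    (h : 2 ^ n ≤ (LS W (ff W X₀)).card * 2 ^ sig n) :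
    64 * (univ.filter fun ω : Fm n => ¬ SI W X₀ ω).card ≤ Fintype.card (Fm n) := by
  have h3 := hit (n := n) (LS W (ff W X₀)) (I := Jn n (sig n)) (Jn_le le_rfl)
  have hsub : (univ.filter fun ω : Fm n => ¬ SI W X₀ ω) ⊆
      (univ.filter fun ω : Fm n => ∀ i < Jn n (sig n), rs ω i ∉ LS W (ff W X₀)) := by
    intro ω hω
    rw [Finset.mem_filter] at hω ⊢
    refine ⟨Finset.mem_univ _, fun i hi hiS => hω.2 ⟨i, hi, ?_⟩⟩
    rw [LS, Finset.mem_filter] at hiS
    exact le_antisymm (hX _) hiS.2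
  have h4 : 64 * 2 ^ n ≤ Jn n (sig n) * (LS W (ff W X₀)).card := by
    unfold Jn
    calc 64 * 2 ^ n ≤ 64 * ((LS W (ff W X₀)).card * 2 ^ sig n) := Nat.mul_le_mul le_rfl h
      _ = 64 * ((LS W (ff W X₀)).card * 2 ^ sig n) * 1 := by ring
      _ ≤ 64 * ((LS W (ff W X₀)).card * 2 ^ sig n) * (n + 1) ^ 2 :=
          Nat.mul_le_mul le_rfl (Nat.one_le_pow _ _ (Nat.succ_pos n))
      _ = _ := by ring
  have h5 := Finset.card_le_card hsub
  have h6 : 64 * (univ.filter fun ω : Fm n => ¬ SI W X₀ ω).card * 2 ^ n ≤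
      Fintype.card (Fm n) * 2 ^ n := by
    calc 64 * (univ.filter fun ω : Fm n => ¬ SI W X₀ ω).card * 2 ^ n
        = (univ.filter fun ω : Fm n => ¬ SI W X₀ ω).card * (64 * 2 ^ n) := by ring
      _ ≤ _ := Nat.mul_le_mul h5 h4
      _ ≤ _ := h3
  exact Nat.le_of_mul_le_mul_right h6 (by positivity)

end Pool.Agent.MPa9445a.SN
end
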