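import Pool.Agent.Lib.MP_a9445a_lc.Mg.G132
import Pool.Agent.Lib.MP_a9445a_lc.Mg.G054
import Pool.Agent.Lib.MP_a9445a_lc.Mg.G130
import Pool.Agent.Lib.MP_a9445a_lc.Mg.G131
import Pool.Agent.Lib.MP_a9445a_lc.SN.Alg
import Pool.Agent.Lib.MP_a9445a_lc.Mg.G120
import Pool.Agent.Lib.MP_a9445a_lc.Mg.G115
import Pool.Agent.Lib.MP_a9445a_lc.Mg.G122
import Pool.Agent.Lib.MP_a9445a_lc.SN.Alg2
import Pool.Agent.Lib.MP_a9445a_lc.Mg.G114

section

section

/-! Collisions. -/

set_option autoImplicit false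

open Finset
open scoped symmDiff

namespace Pool.Agent.MPa9445a.GL

variable {n : ℕ}

private theorem F2_vc {s x : Vc n} (hx : x ∈ S s) : vc s (ps s x) = x := vc_self hx

private theorem F2_flip {Z : Finset (Fin n)} {u : Fin n} (hu : u ∈ Z) (a : Finset (Fin n)) :
    ((Z ∩ (a ∆ {u})).card + (Z ∩ a).card) % 2 = 1 := by
  by_cases h : u ∈ a
  · have h1 : Z ∩ (a ∆ {u}) = (Z ∩ a).erase u := by
      ext w
      simp only [mem_inter, mem_symmDiff, mem_singleton, mem_erase]
      constructor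
      · rintro ⟨hz, ⟨h2, h3⟩ | ⟨h2, h3⟩⟩
        · exact ⟨h3, hz, h2⟩
        · exact absurd (h2 ▸ h) h3
      · rintro ⟨h3, hz, h2⟩
        exact ⟨hz, Or.inl ⟨h2, h3⟩⟩
    have h2 : u ∈ Z ∩ a := mem_inter.2 ⟨hu, h⟩
    rw [h1, card_erase_of_mem h2]
    have h3 : 0 < (Z ∩ a).card := card_pos.2 ⟨u, h2⟩
    omega
  · have h1 : Z ∩ (a ∆ {u}) = insert u (Z ∩ a) := by
      ext w
      simp only [mem_inter, mem_symmDiff, mem_singleton, mem_insert]
      constructor
      · rintro ⟨hz, ⟨h2, h3⟩ | ⟨h2, h3⟩⟩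
        · exact Or.inr ⟨hz, h2⟩
        · exact Or.inl h2
      · rintro (h2 | ⟨hz, h2⟩)
        · subst h2
          exact ⟨hu, Or.inr ⟨rfl, h⟩⟩
        · refine ⟨hz, Or.inl ⟨h2, ?_⟩⟩
          rintro rfl
          exact h h2
    have h2 : u ∉ Z ∩ a := fun h' => h (mem_inter.1 h').2
    rw [h1, card_insert_of_notMem h2]
    omega

private theorem F2_half {Z : Finset (Fin n)} {u : Fin n} (hu : u ∈ Z) (c : ℕ) :
    (univ.filter fun a : Finset (Fin n) => (c + (Z ∩ a).card) % 2 = 0).card * 2 =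
      Fintype.card (Finset (Fin n)) := by
  have h1 : (univ.filter fun a : Finset (Fin n) => (c + (Z ∩ a).card) % 2 = 0).card =
      (univ.filter fun a : Finset (Fin n) => ¬ (c + (Z ∩ a).card) % 2 = 0).card := by
    refine card_nbij' (fun a => a ∆ {u}) (fun a => a ∆ {u}) ?_ ?_ ?_ ?_
    · intro a ha
      have h := F2_flip hu a
      simp only [coe_filter, mem_univ, true_and, Set.mem_ofPred_eq] at ha ⊢
      omega
    · intro a ha
      have h := F2_flip hu a
      simp only [coe_filter, mem_univ, true_and, Set.mem_ofPred_eq] at ha ⊢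
      omega
    · intro a _
      exact symmDiff_symmDiff_cancel_right {u} a
    · intro a _
      exact symmDiff_symmDiff_cancel_right {u} a
  have h2 := card_filter_add_card_filter_not (s := (univ : Finset (Finset (Fin n))))
    (fun a : Finset (Fin n) => (c + (Z ∩ a).card) % 2 = 0)
  rw [← h1] at h2
  rw [← card_univ]
  omega

/-- PROOF. `syn = ∅` iff for every `v ∈ hi s j` the set `A v` satisfies `([v ∈ X] + #(X ∩ lo s j ∩ A v)) % 2 = 0`. The number of matrices is a product over `v` (`Fintype.card_piFinset`): for `v ∈ hi s j` exactly half of the sets satisfy the condition (flip an element `u ∈ X ∩ lo s j` in `A v`). -/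
theorem card_syn {s : Vc n} {j : ℕ} {X : Finset (Fin n)} (h : (X ∩ lo s j).Nonempty) :
    (univ.filter fun A : Mx n => syn s A j X = ∅).card * 2 ^ (hi s j).card =
      Fintype.card (Mx n) := by
  obtain ⟨u, hu⟩ := h
  have h1 : (univ.filter fun A : Mx n => syn s A j X = ∅) =
      Fintype.piFinset fun v : Fin n => univ.filter fun a : Finset (Fin n) =>
        v ∈ hi s j → ((if v ∈ X then 1 else 0) + (X ∩ lo s j ∩ a).card) % 2 = 0 := by
    ext A
    simp only [mem_filter, mem_univ, true_and, Fintype.mem_piFinset]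
    rw [Finset.eq_empty_iff_forall_notMem]
    refine forall_congr' fun v => ?_
    rw [mem_syn]
    constructor
    · intro h2 h3
      have h4 : ¬ ((if v ∈ X then 1 else 0) + (X ∩ lo s j ∩ A v).card) % 2 = 1 := fun h5 => h2 ⟨h3, h5⟩
      omega
    · rintro h2 ⟨h3, h4⟩
      have h5 := h2 h3
      omega
  rw [h1, Fintype.card_piFinset]
  have h2 : (2 : ℕ) ^ (hi s j).card = ∏ v : Fin n, if v ∈ hi s j then 2 else 1 := by
    rw [Finset.prod_ite_mem, univ_inter, prod_const]
  have h3 : Fintype.card (Mx n) = ∏ _v : Fin n, Fintype.card (Finset (Fin n)) := by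
    rw [Fintype.card_pi]
  rw [h2, h3, ← prod_mul_distrib]
  refine prod_congr rfl fun v _ => ?_
  by_cases hv : v ∈ hi s j
  · rw [if_pos hv, ← F2_half hu (if v ∈ X then 1 else 0)]
    congr 2
    ext a
    simp [hv]
  · rw [if_neg hv, mul_one, ← card_univ]
    congr 1
    ext a
    simp [hv]

/-- PROOF. Exchange the sums. For `y = y'` all matrices count: `#Y * #Mx`. For `y ≠ y'`: `X = ps s y ∆ ps s y' ≠ ∅` (`vc_self`), `syn X = ∅` (`syn_symmDiff`); if `X ∩ lo s j` is empty then `X ⊆ hi s j` and `syn X = X ≠ ∅` (`syn_hi`): no matrix; otherwise `card_syn`. -/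
theorem collisions {s : Vc n} {j : ℕ} {Y : Finset (Vc n)} (hY : Y ⊆ S s) :
    (∑ A : Mx n, ((Y ×ˢ Y).filter fun z => syn s A j (ps s z.1) = syn s A j (ps s z.2)).card) *
      2 ^ (hi s j).card ≤ Fintype.card (Mx n) * (2 ^ (hi s j).card * Y.card + Y.card ^ 2) := by
  have h1 : ∑ A : Mx n, ((Y ×ˢ Y).filter fun z => syn s A j (ps s z.1) = syn s A j (ps s z.2)).card =
      ∑ z ∈ Y ×ˢ Y, (univ.filter fun A : Mx n => syn s A j (ps s z.1) = syn s A j (ps s z.2)).card := by
    simp only [card_filter]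
    exact sum_comm
  rw [h1, sum_mul]
  have h2 : ∀ z ∈ Y ×ˢ Y, (univ.filter fun A : Mx n => syn s A j (ps s z.1) = syn s A j (ps s z.2)).card *
      2 ^ (hi s j).card ≤ Fintype.card (Mx n) * ((if z.1 = z.2 then 2 ^ (hi s j).card else 0) + 1) := by
    intro z hz
    obtain ⟨hz1, hz2⟩ := mem_product.1 hz
    by_cases he : z.1 = z.2
    · rw [if_pos he]
      have h3 : (univ.filter fun A : Mx n => syn s A j (ps s z.1) = syn s A j (ps s z.2)).card ≤
          Fintype.card (Mx n) := by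
        rw [← card_univ]
        exact card_filter_le _ _
      calc _ ≤ Fintype.card (Mx n) * 2 ^ (hi s j).card := Nat.mul_le_mul_right _ h3
        _ ≤ _ := Nat.mul_le_mul_left _ (Nat.le_succ _)
    · rw [if_neg he, zero_add, mul_one]
      have h4 : (univ.filter fun A : Mx n => syn s A j (ps s z.1) = syn s A j (ps s z.2)) =
          univ.filter fun A : Mx n => syn s A j (ps s z.1 ∆ ps s z.2) = ∅ := by
        ext A
        simp only [mem_filter, mem_univ, true_and]
        rw [syn_symmDiff]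
        constructor
        · intro h
          rw [h]
          exact symmDiff_self _
        · intro h
          exact symmDiff_eq_bot.1 h
      rw [h4]
      by_cases hl : ((ps s z.1 ∆ ps s z.2) ∩ lo s j).Nonempty
      · exact (card_syn hl).le
      · have hX : ps s z.1 ∆ ps s z.2 ≠ ∅ := by
          intro h
          have h5 : ps s z.1 = ps s z.2 := symmDiff_eq_bot.1 h
          apply he
          rw [← F2_vc (hY hz1), ← F2_vc (hY hz2), h5]
        have hs : ps s z.1 ∆ ps s z.2 ⊆ hi s j := by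
          intro v hv
          have hF : v ∈ Fr s := by
            rcases mem_symmDiff.1 hv with ⟨h6, -⟩ | ⟨h6, -⟩
            · exact (mem_filter.1 h6).1
            · exact (mem_filter.1 h6).1
          by_contra hh
          apply hl
          refine ⟨v, mem_inter.2 ⟨hv, ?_⟩⟩
          rw [lo, mem_filter]
          refine ⟨hF, ?_⟩
          by_contra h7
          apply hh
          rw [hi, mem_filter]
          exact ⟨hF, not_lt.1 h7⟩
        have h8 : (univ.filter fun A : Mx n => syn s A j (ps s z.1 ∆ ps s z.2) = ∅) = ∅ := by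
          refine filter_eq_empty_iff.2 fun A _ h => ?_
          rw [syn_hi hs] at h
          exact hX h
        rw [h8, card_empty, zero_mul]
        exact Nat.zero_le _
  refine (sum_le_sum h2).trans ?_
  rw [← mul_sum]
  refine Nat.mul_le_mul_left _ ?_
  rw [sum_add_distrib]
  have h9 : ∑ z ∈ Y ×ˢ Y, (if z.1 = z.2 then 2 ^ (hi s j).card else 0) = 2 ^ (hi s j).card * Y.card := by
    rw [sum_product]
    have h10 : ∀ x ∈ Y, ∑ y ∈ Y, (if x = y then 2 ^ (hi s j).card else 0) = 2 ^ (hi s j).card := by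
      intro x hx
      rw [sum_ite_eq, if_pos hx]
    rw [sum_congr rfl h10, sum_const, smul_eq_mul, mul_comm]
  rw [h9, sum_const, card_product, smul_eq_mul, mul_one, sq]

end Pool.Agent.MPa9445a.GL
end

section

/-! Many syndromes. -/

set_option autoImplicit false

open Finset
open scoped symmDiff

namespace Pool.Agent.MPa9445a.GL

variable {n : ℕ}

/-- Cauchy–Schwarz. PROOF. `#Y = ∑ over the image of the sizes c of the fibres`, `#pairs = ∑ c ^ 2` (`Finset.card_eq_sum_card_image`, `sq_sum_le_card_mul_sum_sq`). -/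
theorem card_sq {α β : Type} [DecidableEq α] [DecidableEq β] (Y : Finset α) (f : α → β) :
    Y.card ^ 2 ≤ (Y.image f).card * ((Y ×ˢ Y).filter fun z => f z.1 = f z.2).card := by
  have h1 : Y.card = ∑ b ∈ Y.image f, (Y.filter fun a => f a = b).card :=
    Finset.card_eq_sum_card_image f Y
  have h2 : ((Y ×ˢ Y).filter fun z => f z.1 = f z.2).card =
      ∑ b ∈ Y.image f, (Y.filter fun a => f a = b).card ^ 2 := by
    rw [Finset.card_eq_sum_card_fiberwise (f := fun z : α × α => f z.1) (t := Y.image f)]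
    · refine Finset.sum_congr rfl fun b _ => ?_
      rw [sq, ← Finset.card_product]
      congr 1
      ext z
      simp only [Finset.mem_filter, Finset.mem_product]
      constructor
      · rintro ⟨⟨⟨h3, h4⟩, h5⟩, h6⟩
        exact ⟨⟨h3, h6⟩, h4, h5 ▸ h6⟩
      · rintro ⟨⟨h3, h4⟩, h5, h6⟩
        exact ⟨⟨⟨h3, h5⟩, h4.trans h6.symm⟩, h4⟩
    · intro z hz
      rw [Finset.mem_coe, Finset.mem_filter, Finset.mem_product] at hz
      exact Finset.mem_coe.2 (Finset.mem_image_of_mem f hz.1.1)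
  rw [h2]
  conv_lhs => rw [h1]
  exact sq_sum_le_card_mul_sum_sq

/-- PROOF. Let `C A` be the number of pairs with equal syndromes. If `32 * #image < 2 ^ h` then by `card_sq` `32 * #Y ^ 2 ≤ 2 ^ h * C A`. By `collisions` `∑ A, 2 ^ h * C A ≤ #Mx * 2 * #Y ^ 2` (`2 ^ h ≤ #Y`). So `#bad * 32 * #Y ^ 2 ≤ 2 * #Mx * #Y ^ 2` and `#Y > 0`. -/
theorem many_syn {s : Vc n} {j : ℕ} {Y : Finset (Vc n)} (hY : Y ⊆ S s)
    (h : 2 ^ (hi s j).card ≤ Y.card) :
    (univ.filter fun A : Mx n => ¬ 2 ^ (hi s j).card ≤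
      32 * (Y.image fun y => syn s A j (ps s y)).card).card * 16 ≤ Fintype.card (Mx n) := by
  have hc := collisions (j := j) hY
  obtain ⟨K, hK⟩ : ∃ K : ℕ, K = 2 ^ (hi s j).card := ⟨_, rfl⟩
  obtain ⟨C, hC⟩ : ∃ C : Mx n → ℕ, C = fun A =>
    ((Y ×ˢ Y).filter fun z => syn s A j (ps s z.1) = syn s A j (ps s z.2)).card := ⟨_, rfl⟩
  have hK0 : 0 < K := by rw [hK]; positivity
  have hY0 : 0 < Y.card := lt_of_lt_of_le hK0 (hK ▸ h)
  have hc' : (∑ A : Mx n, C A) * K ≤ Fintype.card (Mx n) * (K * Y.card + Y.card ^ 2) := by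
    rw [hC, hK]
    exact hc
  have hKY : K ≤ Y.card := hK ▸ h
  rw [← hK]
  have hbad : ∀ A ∈ (univ.filter fun A : Mx n => ¬ K ≤
      32 * (Y.image fun y => syn s A j (ps s y)).card), 32 * Y.card ^ 2 ≤ C A * K := by
    intro A hA
    have h1 := (Finset.mem_filter.1 hA).2
    rw [not_le] at h1
    have h2 := card_sq Y (fun y => syn s A j (ps s y))
    have h3 : ((Y ×ˢ Y).filter fun z => (fun y => syn s A j (ps s y)) z.1 =
        (fun y => syn s A j (ps s y)) z.2).card = C A := by rw [hC]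
    rw [h3] at h2
    calc 32 * Y.card ^ 2 ≤ 32 * ((Y.image fun y => syn s A j (ps s y)).card * C A) :=
          Nat.mul_le_mul_left _ h2
      _ = (32 * (Y.image fun y => syn s A j (ps s y)).card) * C A := by ring
      _ ≤ K * C A := Nat.mul_le_mul_right _ h1.le
      _ = C A * K := Nat.mul_comm _ _
  have h4 : (univ.filter fun A : Mx n => ¬ K ≤
      32 * (Y.image fun y => syn s A j (ps s y)).card).card * (32 * Y.card ^ 2) ≤
      Fintype.card (Mx n) * (2 * Y.card ^ 2) := by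
    calc _ = ∑ _A ∈ (univ.filter fun A : Mx n => ¬ K ≤
          32 * (Y.image fun y => syn s A j (ps s y)).card), 32 * Y.card ^ 2 := by
          rw [Finset.sum_const, smul_eq_mul]
      _ ≤ ∑ A ∈ (univ.filter fun A : Mx n => ¬ K ≤
          32 * (Y.image fun y => syn s A j (ps s y)).card), C A * K := Finset.sum_le_sum hbad
      _ ≤ ∑ A : Mx n, C A * K :=
          Finset.sum_le_sum_of_subset (Finset.filter_subset _ _)
      _ = (∑ A : Mx n, C A) * K := by rw [Finset.sum_mul]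
      _ ≤ Fintype.card (Mx n) * (K * Y.card + Y.card ^ 2) := hc'
      _ ≤ _ := by
          apply Nat.mul_le_mul_left
          nlinarith
  have h5 : 0 < 2 * Y.card ^ 2 := by positivity
  refine le_of_mul_le_mul_right ?_ h5
  calc _ = (univ.filter fun A : Mx n => ¬ K ≤
      32 * (Y.image fun y => syn s A j (ps s y)).card).card * (32 * Y.card ^ 2) := by ring
    _ ≤ _ := h4

end Pool.Agent.MPa9445a.GL
end

section

/-! The shifts. -/

set_option autoImplicit false

open Finset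
open scoped symmDiff

namespace Pool.Agent.MPa9445a.GL

variable {n : ℕ}

/-- PROOF. For `σ ⊆ hi s j` the map `X ↦ X ∆ σ` maps the sets with syndrome `∅` bijectively to the sets with syndrome `σ` (`syn_symmDiff`, `syn_hi`); so all `2 ^ #hi` syndromes have the same number of sets. -/
theorem card_shift (s : Vc n) (A : Mx n) (j : ℕ) {𝒯 : Finset (Finset (Fin n))}
    (h : 𝒯 ⊆ (hi s j).powerset) :
    (univ.filter fun X : Finset (Fin n) => syn s A j X ∈ 𝒯).card * 2 ^ (hi s j).card =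
      2 ^ n * 𝒯.card := by
  have hfib : ∀ σ ∈ (hi s j).powerset, (univ.filter fun X : Finset (Fin n) => syn s A j X = σ).card =
      (univ.filter fun X : Finset (Fin n) => syn s A j X = ∅).card := by
    intro σ hσ
    have hσ' : syn s A j σ = σ := syn_hi (Finset.mem_powerset.1 hσ)
    apply Finset.card_bij (fun X _ => X ∆ σ)
    · intro X hX
      have hX' := (Finset.mem_filter.1 hX).2
      refine Finset.mem_filter.2 ⟨Finset.mem_univ _, ?_⟩
      rw [syn_symmDiff, hX', hσ', symmDiff_self]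
      rfl
    · intro X _ Y _ hXY
      exact symmDiff_left_injective σ hXY
    · intro Y hY
      have hY' := (Finset.mem_filter.1 hY).2
      refine ⟨Y ∆ σ, Finset.mem_filter.2 ⟨Finset.mem_univ _, ?_⟩, ?_⟩
      · rw [syn_symmDiff, hY', hσ']
        exact bot_symmDiff σ
      · exact symmDiff_symmDiff_cancel_right σ Y
  obtain ⟨c, hc⟩ : ∃ c : ℕ, c = (univ.filter fun X : Finset (Fin n) => syn s A j X = ∅).card := ⟨_, rfl⟩
  rw [← hc] at hfib
  have h1 : 2 ^ n = 2 ^ (hi s j).card * c := by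
    have h2 := Finset.card_eq_sum_card_fiberwise (s := (univ : Finset (Finset (Fin n)))) (t := (hi s j).powerset)
      (f := fun X => syn s A j X) (fun X _ => Finset.mem_coe.2 (Finset.mem_powerset.2 (syn_sub s A j X)))
    rw [Finset.sum_congr rfl hfib, Finset.sum_const, Finset.card_powerset, smul_eq_mul] at h2
    rw [← h2, Finset.card_univ, Fintype.card_finset, Fintype.card_fin]
  have h3 : (univ.filter fun X : Finset (Fin n) => syn s A j X ∈ 𝒯).card = 𝒯.card * c := by
    have h2 := Finset.card_eq_sum_card_fiberwise (s := (univ.filter fun X : Finset (Fin n) => syn s A j X ∈ 𝒯)) (t := 𝒯)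
      (f := fun X => syn s A j X) (fun X hX => Finset.mem_coe.2 (Finset.mem_filter.1 (Finset.mem_coe.1 hX)).2)
    have h4 : ∀ σ ∈ 𝒯, ((univ.filter fun X : Finset (Fin n) => syn s A j X ∈ 𝒯).filter fun X => syn s A j X = σ).card = c := by
      intro σ hσ
      rw [← hfib σ (h hσ)]
      congr 1
      ext X
      simp only [Finset.mem_filter, Finset.mem_univ, true_and]
      constructor
      · exact fun hX => hX.2
      · intro hX
        exact ⟨by rw [hX]; exact hσ, hX⟩
    rw [h2, Finset.sum_congr rfl h4, Finset.sum_const, smul_eq_mul]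
  rw [h3, h1]
  ring

/-- PROOF. `(31/32) ^ 32 ≤ 1/2`. -/
theorem pow_31 (n : ℕ) : 31 ^ Rn n * 2 ^ (n + 5) ≤ 32 ^ Rn n := by
  have h1 : 31 ^ 32 * 2 ≤ 32 ^ 32 := by norm_num
  unfold Rn
  rw [pow_mul, pow_mul, ← mul_pow]
  exact Nat.pow_le_pow_left h1 (n + 5)

private theorem F4_b (s : Vc n) (A : Mx n) (j : ℕ) {𝒯 : Finset (Finset (Fin n))}
    (h : 𝒯 ⊆ (hi s j).powerset) (h32 : 2 ^ (hi s j).card ≤ 32 * 𝒯.card) {σ : Finset (Fin n)} (hσ : σ ⊆ hi s j) :
    32 * (univ.filter fun X : Finset (Fin n) => σ ∆ syn s A j X ∉ 𝒯).card ≤ 31 * 2 ^ n := by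
  obtain ⟨𝒰, h𝒰⟩ : ∃ 𝒰 : Finset (Finset (Fin n)), 𝒰 = (hi s j).powerset.filter fun τ => σ ∆ τ ∉ 𝒯 := ⟨_, rfl⟩
  have h𝒰s : 𝒰 ⊆ (hi s j).powerset := by rw [h𝒰]; exact Finset.filter_subset _ _
  have h1 := card_shift s A j h𝒰s
  have h2 : (univ.filter fun X : Finset (Fin n) => syn s A j X ∈ 𝒰) = univ.filter fun X : Finset (Fin n) => σ ∆ syn s A j X ∉ 𝒯 := by
    ext X
    rw [h𝒰]
    simp only [Finset.mem_filter, Finset.mem_univ, true_and, Finset.mem_powerset]
    exact ⟨fun hX => hX.2, fun hX => ⟨syn_sub s A j X, hX⟩⟩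
  rw [h2] at h1
  have h3 : ((hi s j).powerset.filter fun τ => σ ∆ τ ∈ 𝒯).card = 𝒯.card := by
    apply Finset.card_bij (fun τ _ => σ ∆ τ)
    · intro τ hτ
      exact (Finset.mem_filter.1 hτ).2
    · intro τ _ τ' _ hh
      exact symmDiff_right_injective σ hh
    · intro τ hτ
      have hτs := Finset.mem_powerset.1 (h hτ)
      refine ⟨σ ∆ τ, Finset.mem_filter.2 ⟨Finset.mem_powerset.2 ?_, ?_⟩, ?_⟩
      · intro v hv
        rcases Finset.mem_symmDiff.1 hv with hv' | hv'
        · exact hσ hv'.1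
        · exact hτs hv'.1
      · rw [symmDiff_symmDiff_cancel_left]; exact hτ
      · exact symmDiff_symmDiff_cancel_left σ τ
  have h4 : 𝒰.card + 𝒯.card = 2 ^ (hi s j).card := by
    have h5 := Finset.card_filter_add_card_filter_not (s := (hi s j).powerset) (fun τ => σ ∆ τ ∈ 𝒯)
    rw [h3, Finset.card_powerset] at h5
    rw [h𝒰]
    omega
  obtain ⟨b, hb⟩ : ∃ b : ℕ, b = (univ.filter fun X : Finset (Fin n) => σ ∆ syn s A j X ∉ 𝒯).card := ⟨_, rfl⟩
  rw [← hb] at h1 ⊢
  have h6 : 32 * 𝒰.card ≤ 31 * 2 ^ (hi s j).card := by omega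
  have h7 : (32 * b) * 2 ^ (hi s j).card ≤ (31 * 2 ^ n) * 2 ^ (hi s j).card := by
    calc (32 * b) * 2 ^ (hi s j).card = 32 * (b * 2 ^ (hi s j).card) := by ring
      _ = 2 ^ n * (32 * 𝒰.card) := by rw [h1]; ring
      _ ≤ 2 ^ n * (31 * 2 ^ (hi s j).card) := Nat.mul_le_mul_left _ h6
      _ = (31 * 2 ^ n) * 2 ^ (hi s j).card := by ring
  exact Nat.le_of_mul_le_mul_right h7 (by positivity)

private theorem F4_card_Sh : Fintype.card (Sh n) = (2 ^ n) ^ Rn n := by
  simp [Fintype.card_finset]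

private theorem F4_B (s : Vc n) (A : Mx n) (j : ℕ) {𝒯 : Finset (Finset (Fin n))}
    (h : 𝒯 ⊆ (hi s j).powerset) (h32 : 2 ^ (hi s j).card ≤ 32 * 𝒯.card) {σ : Finset (Fin n)} (hσ : σ ⊆ hi s j) :
    (univ.filter fun h : Sh n => ∀ i, σ ∆ syn s A j (h i) ∉ 𝒯).card * 2 ^ (n + 5) ≤ Fintype.card (Sh n) := by
  obtain ⟨b, hb⟩ : ∃ b : ℕ, b = (univ.filter fun X : Finset (Fin n) => σ ∆ syn s A j X ∉ 𝒯).card := ⟨_, rfl⟩
  have h1 : (univ.filter fun h : Sh n => ∀ i, σ ∆ syn s A j (h i) ∉ 𝒯) =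
      Fintype.piFinset fun _ : Fin (Rn n) => univ.filter fun X : Finset (Fin n) => σ ∆ syn s A j X ∉ 𝒯 := by
    ext g
    simp only [Finset.mem_filter, Finset.mem_univ, true_and, Fintype.mem_piFinset]
  have h2 : (univ.filter fun h : Sh n => ∀ i, σ ∆ syn s A j (h i) ∉ 𝒯).card = b ^ Rn n := by
    rw [h1, Fintype.card_piFinset, Finset.prod_const, Finset.card_univ, Fintype.card_fin, hb]
  have h3 : 32 * b ≤ 31 * 2 ^ n := by rw [hb]; exact F4_b s A j h h32 hσ
  have h4 : (32 * b) ^ Rn n ≤ (31 * 2 ^ n) ^ Rn n := Nat.pow_le_pow_left h3 _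
  rw [h2, F4_card_Sh]
  have h5 : 32 ^ Rn n * (b ^ Rn n * 2 ^ (n + 5)) ≤ 32 ^ Rn n * (2 ^ n) ^ Rn n := by
    calc 32 ^ Rn n * (b ^ Rn n * 2 ^ (n + 5)) = (32 * b) ^ Rn n * 2 ^ (n + 5) := by rw [mul_pow]; ring
      _ ≤ (31 * 2 ^ n) ^ Rn n * 2 ^ (n + 5) := Nat.mul_le_mul_right _ h4
      _ = (31 ^ Rn n * 2 ^ (n + 5)) * (2 ^ n) ^ Rn n := by rw [mul_pow]; ring
      _ ≤ 32 ^ Rn n * (2 ^ n) ^ Rn n := Nat.mul_le_mul_right _ (pow_31 n)
  exact Nat.le_of_mul_le_mul_left h5 (by positivity)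

/-- PROOF. For fixed `σ ⊆ hi s j`: the number of shifts such that `σ ∆ syn (h i) ∉ 𝒯` for all `i` is `b ^ Rn n`, `b = #{X | σ ∆ syn X ∉ 𝒯}`, `32 b ≤ 31 * 2 ^ n` (`card_shift` for the set of the `τ ⊆ hi s j` with `σ ∆ τ ∉ 𝒯`). By `pow_31` it is at most `#Sh / 2 ^ (n + 5)`. There are `2 ^ #hi ≤ 2 ^ n` sets `σ`. -/
theorem shifts (s : Vc n) (A : Mx n) (j : ℕ) {𝒯 : Finset (Finset (Fin n))}
    (h : 𝒯 ⊆ (hi s j).powerset) (h32 : 2 ^ (hi s j).card ≤ 32 * 𝒯.card) :
    (univ.filter fun h : Sh n => ¬ ∀ σ ∈ (hi s j).powerset, ∃ i, σ ∆ syn s A j (h i) ∈ 𝒯).card *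
      32 ≤ Fintype.card (Sh n) := by
  classical
  have hsub : (univ.filter fun h : Sh n => ¬ ∀ σ ∈ (hi s j).powerset, ∃ i, σ ∆ syn s A j (h i) ∈ 𝒯) ⊆
      (hi s j).powerset.biUnion fun σ => univ.filter fun h : Sh n => ∀ i, σ ∆ syn s A j (h i) ∉ 𝒯 := by
    intro g hg
    have hg' := (Finset.mem_filter.1 hg).2
    push Not at hg'
    obtain ⟨σ, hσ, hi⟩ := hg'
    exact Finset.mem_biUnion.2 ⟨σ, hσ, Finset.mem_filter.2 ⟨Finset.mem_univ _, hi⟩⟩
  have h1 : (univ.filter fun h : Sh n => ¬ ∀ σ ∈ (hi s j).powerset, ∃ i, σ ∆ syn s A j (h i) ∈ 𝒯).card ≤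
      ∑ σ ∈ (hi s j).powerset, (univ.filter fun h : Sh n => ∀ i, σ ∆ syn s A j (h i) ∉ 𝒯).card :=
    (Finset.card_le_card hsub).trans Finset.card_biUnion_le
  have h2 : (∑ σ ∈ (hi s j).powerset, (univ.filter fun h : Sh n => ∀ i, σ ∆ syn s A j (h i) ∉ 𝒯).card) * 2 ^ (n + 5) ≤
      2 ^ n * Fintype.card (Sh n) := by
    rw [Finset.sum_mul]
    have h3 : ∀ σ ∈ (hi s j).powerset,
        (univ.filter fun h : Sh n => ∀ i, σ ∆ syn s A j (h i) ∉ 𝒯).card * 2 ^ (n + 5) ≤ Fintype.card (Sh n) :=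
      fun σ hσ => F4_B s A j h h32 (Finset.mem_powerset.1 hσ)
    refine (Finset.sum_le_card_nsmul _ _ _ h3).trans ?_
    rw [Finset.card_powerset, smul_eq_mul]
    apply Nat.mul_le_mul_right
    apply Nat.pow_le_pow_right (by norm_num)
    have h4 := Finset.card_le_univ (hi s j)
    rwa [Fintype.card_fin] at h4
  have h5 := (Nat.mul_le_mul_right (2 ^ (n + 5)) h1).trans h2
  have h6 : 2 ^ n * ((univ.filter fun h : Sh n => ¬ ∀ σ ∈ (hi s j).powerset, ∃ i, σ ∆ syn s A j (h i) ∈ 𝒯).card * 32) ≤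
      2 ^ n * Fintype.card (Sh n) := by
    refine le_trans (le_of_eq ?_) h5
    rw [pow_add]
    ring
  exact Nat.le_of_mul_le_mul_left h6 (by positivity)

end Pool.Agent.MPa9445a.GL
end

section

/-! A block succeeds with probability at least one half. -/

set_option autoImplicit false

open Finset
open scoped symmDiff

namespace Pool.Agent.MPa9445a.SN

variable {n : ℕ} (W : Matrix (Fin n) (Fin n) ℤ)

/-- The structure of the level set. PROOF. `S = {Z ∈ LS W T : |X₀ ∆ Z| = e}` for the `e` of `dist`, `𝒜 = S.image (X₀ ∆ ·)` (same number of elements, `|A| = e` for `A ∈ 𝒜`, `X₀ ∆ A ∈ LS W T`). `rich`: the set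
`R` of the `B ∈ 𝒜` with `|𝒜| ≤ 2 (n+1) #{A ∈ 𝒜 : |B \ A| ≤ rad n e}` has `|𝒜| ≤ 2 (n+1) |R|`. `𝒮 = R.image (X₀ ∆ ·)`, and for `Y ∈ 𝒮` the set `𝒢` contains all `A ∈ 𝒜` with `|B \ A| ≤ rad n e`, `B = X₀ ∆ Y`. In both cases
`2^n ≤ |LS| 2^g ≤ (n+1) |𝒜| 2^g ≤ (n+1) 2 (n+1) |..| 2^g`. -/
theorem structure_LS (X₀ : Finset (Fin n)) (T : ℤ) {g : ℕ} (h : 2 ^ n ≤ (LS W T).card * 2 ^ g) :
    ∃ (e : ℕ) (𝒮 : Finset (Finset (Fin n))), 2 * e ≤ n ∧ 𝒮 ⊆ LS W T ∧
      2 ^ n ≤ 𝒮.card * (2 * (n + 1) ^ 2) * 2 ^ g ∧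
      ∀ Y ∈ 𝒮, 2 ^ n ≤ (univ.filter fun D : Finset (Fin n) => D.card = e ∧ T ≤ ff W (X₀ ∆ D) ∧
        ((X₀ ∆ Y) \ D).card ≤ rad n e).card * (2 * (n + 1) ^ 2) * 2 ^ g := by
  obtain ⟨e, he, hS⟩ := dist W X₀ T
  have hinv : ∀ Z : Finset (Fin n), X₀ ∆ (X₀ ∆ Z) = Z := fun Z => symmDiff_symmDiff_cancel_left X₀ Z
  have hinj : Function.Injective (fun Z : Finset (Fin n) => X₀ ∆ Z) := fun a b hab => by
    have h1 := congrArg (fun Z : Finset (Fin n) => X₀ ∆ Z) hab
    simpa only [hinv] using h1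
  set S := (LS W T).filter fun Z => (X₀ ∆ Z).card = e with hSdef
  set 𝒜 : Finset (Finset (Fin n)) := S.image (fun Z => X₀ ∆ Z) with hA
  have hAcard : 𝒜.card = S.card := card_image_of_injective _ hinj
  have hAe : ∀ A ∈ 𝒜, A.card = e := by
    intro A hAm
    obtain ⟨Z, hZ, rfl⟩ := mem_image.1 hAm
    exact (mem_filter.1 hZ).2
  have hAL : ∀ A ∈ 𝒜, X₀ ∆ A ∈ LS W T := by
    intro A hAm
    obtain ⟨Z, hZ, rfl⟩ := mem_image.1 hAm
    have h2 : X₀ ∆ (X₀ ∆ Z) ∈ LS W T := by
      rw [hinv]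
      exact (mem_filter.1 hZ).1
    exact h2
  have hrich := rich 𝒜 e hAe
  set R := 𝒜.filter fun B =>
      𝒜.card ≤ 2 * (n + 1) * (𝒜.filter fun A => (B \ A).card ≤ rad n e).card with hR
  have hbound : ∀ k : ℕ, 𝒜.card ≤ 2 * (n + 1) * k → 2 ^ n ≤ k * (2 * (n + 1) ^ 2) * 2 ^ g := by
    intro k hk
    calc 2 ^ n ≤ (LS W T).card * 2 ^ g := h
      _ ≤ ((n + 1) * S.card) * 2 ^ g := Nat.mul_le_mul_right _ hS
      _ = ((n + 1) * 𝒜.card) * 2 ^ g := by rw [hAcard]
      _ ≤ ((n + 1) * (2 * (n + 1) * k)) * 2 ^ g :=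
        Nat.mul_le_mul_right _ (Nat.mul_le_mul_left _ hk)
      _ = k * (2 * (n + 1) ^ 2) * 2 ^ g := by ring
  refine ⟨e, R.image (fun Z => X₀ ∆ Z), he, ?_, ?_, ?_⟩
  · intro Y hY
    obtain ⟨B, hB, rfl⟩ := mem_image.1 hY
    exact hAL B (mem_filter.1 hB).1
  · rw [card_image_of_injective _ hinj]
    exact hbound _ hrich
  · intro Y hY
    obtain ⟨B, hB, rfl⟩ := mem_image.1 hY
    have hBr := (mem_filter.1 hB).2
    refine (hbound _ hBr).trans ?_
    refine Nat.mul_le_mul_right _ (Nat.mul_le_mul_right _ (card_le_card ?_))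
    intro A hAm
    obtain ⟨hA1, hA2⟩ := mem_filter.1 hAm
    have h3 := hAL A hA1
    rw [LS, mem_filter] at h3
    refine mem_filter.2 ⟨mem_univ _, hAe A hA1, h3.2, ?_⟩
    have h4 : X₀ ∆ (X₀ ∆ B) = B := hinv B
    simp only [h4]
    exact hA2

end Pool.Agent.MPa9445a.SN
end
end

section

section

/-! Codes and sets. -/

set_option autoImplicit false

open Finset
open scoped symmDiff

namespace Pool.Agent.MPa9445a.SN

open Pool.Agent.MPa9445a.BE
variable {n : ℕ}


private theorem C1c_mod (x : ℤ) : (x % 2).toNat ≤ 1 := by omega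

private theorem C1c_lt (n : ℕ) (b : ℕ → ℕ) (hb : ∀ v, b v ≤ 1) :
    ∑ v ∈ range n, b v * 2 ^ v < 2 ^ n := by
  induction n with
  | zero => simp
  | succ n ih =>
    rw [Finset.sum_range_succ, pow_succ]
    have h : b n * 2 ^ n ≤ 1 * 2 ^ n := Nat.mul_le_mul_right _ (hb n)
    omega

private theorem C1c_bit (n : ℕ) (b : ℕ → ℕ) (hb : ∀ v, b v ≤ 1) (i : ℕ) (hi : i < n) :
    bit (∑ v ∈ range n, b v * 2 ^ v) i = b i := by
  induction n with
  | zero => omega
  | succ n ih =>
    rw [Finset.sum_range_succ, bit]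
    have h2 : 0 < 2 ^ i := by positivity
    rcases Nat.lt_succ_iff_lt_or_eq.1 hi with h | h
    · have h1 : (∑ v ∈ range n, b v * 2 ^ v) / 2 ^ i % 2 = b i := ih h
      obtain ⟨d, rfl⟩ : ∃ d, n = i + 1 + d := ⟨n - (i + 1), by omega⟩
      have h3 : b (i + 1 + d) * (2 : ℕ) ^ (i + 1 + d) = 2 ^ i * (2 * (b (i + 1 + d) * 2 ^ d)) := by
        ring
      rw [h3, Nat.add_mul_div_left _ _ h2, Nat.add_mul_mod_self_left]
      exact h1
    · subst h
      have h3 := C1c_lt i b hb
      rw [mul_comm (b i), Nat.add_mul_div_left _ _ h2, Nat.div_eq_of_lt h3, zero_add]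
      have := hb i
      omega

/-- PROOF. A sum of the form `∑ v < n, b v 2^v` with `b v ≤ 1` is less than `2 ^ n`. -/
theorem rcd_lt (R : List ℤ) (q i : ℕ) : rcd n R q i < 2 ^ n := by
  exact C1c_lt n _ fun v => C1c_mod _

/-- PROOF. The digit `v` of `∑ v < n, b v 2^v` with `b v ≤ 1` is `b v`. By `Fam` the entries of `R` are the bits `ω`, and the integer `(.. ) % 2` is `1` iff the natural number is odd. -/
theorem ST_rcd {R : List ℤ} {q : ℕ} {ω : Fm n} (h : Fam n R q ω) (i : ℕ) :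
    ST n (rcd n R q i) = rs ω i := by
  have hb : ∀ v : Fin n, ((gt R (q * bl n + v * (kb n + 1)) +
      ∑ j ∈ range (kb n), gt R (q * bl n + v * (kb n + 1) + (j + 1)) * (bit i j : ℤ)) % 2).toNat =
      ((ω v 0).toNat + ∑ j : Fin (kb n), (ω v j.succ).toNat * bit i j) % 2 := by
    intro v
    have h1 : gt R (q * bl n + v * (kb n + 1)) = ((ω v 0).toNat : ℤ) := h v 0
    have h2 : ∑ j ∈ range (kb n), gt R (q * bl n + v * (kb n + 1) + (j + 1)) * (bit i j : ℤ) =
        ((∑ j : Fin (kb n), (ω v j.succ).toNat * bit i j : ℕ) : ℤ) := by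
      rw [Finset.sum_range]
      push_cast
      refine Finset.sum_congr rfl fun j _ => ?_
      have h3 := h v j.succ
      rw [Fin.val_succ] at h3
      rw [h3]
    rw [h1, h2]
    norm_cast
  ext v
  unfold ST rs
  rw [Finset.mem_filter, Finset.mem_filter, ← hb v]
  have h3 : bit (rcd n R q i) v = ((gt R (q * bl n + v * (kb n + 1)) +
      ∑ j ∈ range (kb n), gt R (q * bl n + v * (kb n + 1) + (j + 1)) * (bit i j : ℤ)) % 2).toNat :=
    C1c_bit n (fun v => ((gt R (q * bl n + v * (kb n + 1)) +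
      ∑ j ∈ range (kb n), gt R (q * bl n + v * (kb n + 1) + (j + 1)) * (bit i j : ℤ)) % 2).toNat)
      (fun v => C1c_mod _) v v.2
  rw [h3]

end Pool.Agent.MPa9445a.SN
end

section

/-! Codes and sets. -/

set_option autoImplicit false

open Finset
open scoped symmDiff

namespace Pool.Agent.MPa9445a.SN

open Pool.Agent.MPa9445a.BE
variable {n : ℕ}


/-- The entries are bounded. PROOF. `fm n M u v = adjZ G u v` is `0` or `1`; on the diagonal the weight is `0` (`wt`). -/
theorem wtm_abs {G : SimpleGraph (Fin n)} {M : List ℤ} (hA : fm n M = adjZ G) (u v : Fin n) :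
    |wtm n M u v| ≤ (n : ℤ) ^ 2 := by
  have h := congrFun (congrFun hA u) v
  unfold fm at h
  unfold wtm wt
  rw [h]
  have hn : 1 ≤ n := by
    have := u.2
    omega
  have hn2 : (1 : ℤ) ≤ (n : ℤ) ^ 2 := by
    have h1 : (1 : ℤ) ≤ (n : ℤ) := by exact_mod_cast hn
    nlinarith
  by_cases huv : (u : ℕ) = (v : ℕ)
  · rw [if_pos huv, abs_zero]
    linarith
  · rw [if_neg huv, abs_le]
    unfold adjZ
    split_ifs
    · constructor <;> linarith
    · constructor <;> linarith

/-- PROOF. `val_eq`, `frm_abs`: `val + n^4 + 1 ≥ 1`. -/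
theorem sco_pos {G : SimpleGraph (Fin n)} {M : List ℤ} (hA : fm n M = adjZ G) (c : ℕ) :
    0 < sco n M c := by
  have h1 : |val n M c| ≤ (n : ℤ) ^ 4 := by
    rw [val_eq]
    exact frm_abs _ (wtm_abs hA) _ _
  have h2 := (abs_le.1 h1).1
  have h3 : (0 : ℤ) < 2 ^ n := by positivity
  have h4 : (0 : ℤ) ≤ (c : ℤ) := Int.natCast_nonneg c
  have h5 : (0 : ℤ) < (val n M c + ((n : ℤ) ^ 4 + 1)) * 2 ^ n := by
    apply mul_pos _ h3
    linarith
  unfold sco
  linarith

/-- A larger score has at least the same value. PROOF. `sco c ≤ sco c'`, `c, c' < 2^n`: `(val c + ..) 2^n ≤ sco c' < (val c' + .. + 1) 2^n`. -/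
theorem val_of_sco {M : List ℤ} {c c' : ℕ} (hc : c' < 2 ^ n) (h : sco n M c ≤ sco n M c') :
    val n M c ≤ val n M c' := by
  unfold sco at h
  have h3 : (0 : ℤ) < 2 ^ n := by positivity
  have h4 : (0 : ℤ) ≤ (c : ℤ) := Int.natCast_nonneg c
  have h5 : (c' : ℤ) < 2 ^ n := by exact_mod_cast hc
  by_contra h6
  rw [not_le] at h6
  have h7 : val n M c' + 1 ≤ val n M c := h6
  have h8 : (val n M c' + 1 + ((n : ℤ) ^ 4 + 1)) * 2 ^ n ≤
      (val n M c + ((n : ℤ) ^ 4 + 1)) * 2 ^ n := by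
    apply mul_le_mul_of_nonneg_right _ h3.le
    linarith
  have h9 : (val n M c' + 1 + ((n : ℤ) ^ 4 + 1)) * 2 ^ n =
      (val n M c' + ((n : ℤ) ^ 4 + 1)) * 2 ^ n + 2 ^ n := by ring
  rw [h9] at h8
  linarith

/-- The code of a score. -/
theorem sco_mod {M : List ℤ} {c : ℕ} (hc : c < 2 ^ n) : (sco n M c % 2 ^ n).toNat = c := by
  unfold sco
  have h5 : (c : ℤ) < 2 ^ n := by exact_mod_cast hc
  have h4 : (0 : ℤ) ≤ (c : ℤ) := Int.natCast_nonneg c
  rw [add_comm, Int.add_mul_emod_self_right, Int.emod_eq_of_lt h4 h5]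
  exact Int.toNat_natCast c

end Pool.Agent.MPa9445a.SN
end

section

/-! The vectors on `D`. -/

set_option autoImplicit false

open Finset
open scoped symmDiff

namespace Pool.Agent.MPa9445a.SN

open Pool.Agent.MPa9445a.BE

variable {n : ℕ}

/-- The form of a vector with support `D`. PROOF. `bil_eq`, `bq`; the entries outside `D` are `0`, inside they are the signs of `P1`. -/
theorem Phi_supp (M : List ℤ) {D : Finset (Fin n)} {x : List ℤ}
    (h : ∀ v, (v ∈ D → fv n x v = 1 ∨ fv n x v = -1) ∧ (v ∉ D → fv n x v = 0)) :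
    Phi n M x = frm (wtm n M) D (P1 n x) := by
  have hs : ∀ v, fv n x v = if v ∈ D then sgn (P1 n x) v else 0 := by
    intro v
    split_ifs with hv
    · unfold sgn P1
      rcases (h v).1 hv with h1 | h1
      · have h2 : v ∈ univ.filter (fun v => fv n x v = 1) :=
          Finset.mem_filter.2 ⟨Finset.mem_univ _, h1⟩
        rw [if_pos h2, h1]
      · rw [if_neg, h1]
        intro h2
        have h3 := (Finset.mem_filter.1 h2).2
        rw [h1] at h3
        norm_num at h3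
    · exact (h v).2 hv
  rw [Phi, bil_eq, bq, frm]
  rw [← Finset.sum_subset (Finset.subset_univ D)]
  · refine Finset.sum_congr rfl fun u hu => ?_
    rw [← Finset.sum_subset (Finset.subset_univ D)]
    · refine Finset.sum_congr rfl fun v hv => ?_
      rw [hs u, hs v, if_pos hu, if_pos hv]
    · intro v _ hv
      rw [hs v, if_neg hv, mul_zero]
  · intro u _ hu
    refine Finset.sum_eq_zero fun v _ => ?_
    rw [hs u, if_neg hu, mul_zero, zero_mul]

/-- The list of the vertices of a set. PROOF. `VL_flt`, `st_flt` (`BE/B2a`), `card_st`. -/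
theorem pD_spec (d : ℕ) : VL n (pD n d) ∧ st n (pD n d) = ST n d ∧
    (pD n d).length = (ST n d).card := by
  have h1 : VL n (pD n d) := VL_flt _ _
  have h2 : st n (pD n d) = ST n d := by
    unfold pD
    rw [st_flt]
    rfl
  exact ⟨h1, h2, by rw [← h2, card_st h1]⟩

/-- PROOF. As `pD_spec`; a digit which is not `1` is `0`; the complement has `n - |D|` elements. -/
theorem pE_spec (d : ℕ) : VL n (pE n d) ∧ st n (pE n d) = (ST n d)ᶜ ∧
    (pE n d).length = n - (ST n d).card := by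
  have h1 : VL n (pE n d) := VL_flt _ _
  have h2 : st n (pE n d) = (ST n d)ᶜ := by
    unfold pE ST
    rw [st_flt]
    ext v
    rw [Finset.mem_compl, Finset.mem_filter, Finset.mem_filter]
    simp only [Finset.mem_univ, true_and]
    unfold bit
    omega
  refine ⟨h1, h2, ?_⟩
  rw [← card_st h1, h2, Finset.card_compl, Fintype.card_fin]

end Pool.Agent.MPa9445a.SN
end
end

section

section

/-! The covering lemma. -/

set_option autoImplicit false

open Finset
open scoped symmDiff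

namespace Pool.Agent.MPa9445a.GL

variable {n : ℕ}

open scoped Classical in
/-- PROOF. `filter_prod`; the bad matrices (`many_syn`) are a `1/16` fraction; for the others `shifts` with `Σ' = Y.image fun y => syn s A j (ps s y)` and `Cov_iff` (`σ ∆ syn (h i) = syn (ps s y)` iff `σ = syn (ps s y) ∆ syn (h i)`): a `1/32` fraction. -/
theorem cov_lemma {s : Vc n} {j : ℕ} {Y : Finset (Vc n)} (hY : Y ⊆ S s)
    (h : 2 ^ (hi s j).card ≤ Y.card) :
    (univ.filter fun z : Mx n × Sh n => ¬ Cov s z.1 z.2 j Y).card * 8 ≤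
      Fintype.card (Mx n) * Fintype.card (Sh n) := by
  have h1 := filter_prod (X := Mx n) (Y := Sh n) (fun z => ¬ Cov s z.1 z.2 j Y)
  set bad : Finset (Mx n) := univ.filter fun A : Mx n => ¬ 2 ^ (hi s j).card ≤
      32 * (Y.image fun y => syn s A j (ps s y)).card with hbad
  have hb : bad.card * 16 ≤ Fintype.card (Mx n) := by
    have := many_syn hY h
    rw [hbad]
    convert! this using 3
  have hgood : ∀ A : Mx n, A ∉ bad →
      (univ.filter fun y : Sh n => ¬ Cov s (A, y).1 (A, y).2 j Y).card * 32 ≤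
        Fintype.card (Sh n) := by
    intro A hA
    have hA' : 2 ^ (hi s j).card ≤ 32 * (Y.image fun y => syn s A j (ps s y)).card := by
      by_contra hc
      exact hA (by rw [hbad]; exact mem_filter.2 ⟨mem_univ _, hc⟩)
    have h𝒯 : (Y.image fun y => syn s A j (ps s y)) ⊆ (hi s j).powerset := by
      intro X hX
      obtain ⟨y, -, rfl⟩ := mem_image.1 hX
      exact mem_powerset.2 (syn_sub _ _ _ _)
    have := shifts s A j h𝒯 hA'
    refine le_trans (Nat.mul_le_mul_right _ (card_le_card ?_)) this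
    intro z hz
    simp only [mem_filter, mem_univ, true_and] at hz ⊢
    intro hall
    apply hz
    rw [Cov_iff hY]
    intro σ hσ
    obtain ⟨i, hi'⟩ := hall σ hσ
    obtain ⟨y, hy, hy'⟩ := mem_image.1 hi'
    refine ⟨y, hy, i, ?_⟩
    rw [hy', symmDiff_symmDiff_cancel_right]
  have hall : ∀ A : Mx n,
      (univ.filter fun y : Sh n => ¬ Cov s (A, y).1 (A, y).2 j Y).card * 32 ≤
        (if A ∈ bad then 32 * Fintype.card (Sh n) else 0) + Fintype.card (Sh n) := by
    intro A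
    by_cases hA : A ∈ bad
    · rw [if_pos hA]
      have : (univ.filter fun y : Sh n => ¬ Cov s (A, y).1 (A, y).2 j Y).card ≤
          Fintype.card (Sh n) := by
        rw [← card_univ]; exact card_le_card (filter_subset _ _)
      omega
    · rw [if_neg hA]
      have := hgood A hA
      omega
  have hsum : (univ.filter fun z : Mx n × Sh n => ¬ Cov s z.1 z.2 j Y).card * 32 ≤
      bad.card * (32 * Fintype.card (Sh n)) + Fintype.card (Mx n) * Fintype.card (Sh n) := by
    have e0 : (univ.filter fun z : Mx n × Sh n => ¬ Cov s z.1 z.2 j Y).card =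
        ∑ A : Mx n, (univ.filter fun y : Sh n => ¬ Cov s (A, y).1 (A, y).2 j Y).card := by
      refine Eq.trans ?_ (h1.trans ?_)
      · congr!
      · refine sum_congr rfl fun A _ => ?_
        congr!
    rw [e0, sum_mul]
    refine (sum_le_sum fun A _ => hall A).trans ?_
    rw [sum_add_distrib, sum_const, card_univ, smul_eq_mul, ← sum_filter, sum_const, smul_eq_mul]
    have : (univ.filter fun A => A ∈ bad) = bad := by ext; simp
    rw [this]
  nlinarith [Nat.mul_le_mul_right (Fintype.card (Sh n)) hb]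

end Pool.Agent.MPa9445a.GL
end

section

/-! The vectors on `D`. -/

set_option autoImplicit false

open Finset
open scoped symmDiff

namespace Pool.Agent.MPa9445a.SN

open Pool.Agent.MPa9445a.BE

variable {n : ℕ}

private theorem C3b_mem (x : List ℤ) (v : Fin n) : v ∈ P1 n x ↔ fv n x v = 1 := by
  unfold P1
  rw [Finset.mem_filter]
  exact ⟨fun h => h.2, fun h => ⟨Finset.mem_univ _, h⟩⟩

private theorem C3b_om (d u : ℕ) : fv n (vu n d u) ∈ Om (ST n d) := by
  have h := dec_mem (pD_spec (n := n) d).1 u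
  rw [(pD_spec (n := n) d).2.1] at h
  exact h

/-- PROOF. `dec_mem` (`Om`, `mem_Om`). -/
theorem vu_supp (d u : ℕ) (v : Fin n) :
    (v ∈ ST n d → fv n (vu n d u) v = 1 ∨ fv n (vu n d u) v = -1) ∧
      (v ∉ ST n d → fv n (vu n d u) v = 0) :=
  mem_Om.1 (C3b_om d u) v

/-- PROOF. `dec_surj` for the vector which is the sign of `X` on `D` and `0` outside. -/
theorem vu_surj (d : ℕ) (X : Finset (Fin n)) :
    ∃ u < 2 ^ (ST n d).card, P1 n (vu n d u) = X ∩ ST n d := by
  obtain ⟨h1, h2, h3⟩ := pD_spec (n := n) d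
  have hx : (fun v : Fin n => if v ∈ ST n d then sgn X v else 0) ∈ Om (st n (pD n d)) := by
    rw [h2, mem_Om]
    intro v
    constructor
    · intro hv
      simp only [if_pos hv, sgn]
      by_cases hX : v ∈ X
      · left
        rw [if_pos hX]
      · right
        rw [if_neg hX]
    · intro hv
      simp only [if_neg hv]
  obtain ⟨u, hu, hux⟩ := dec_surj h1 hx
  refine ⟨u, by rw [← h3]; exact hu, ?_⟩
  ext v
  rw [C3b_mem, Finset.mem_inter]
  have h4 : fv n (vu n d u) v = if v ∈ ST n d then sgn X v else 0 := congrFun hux v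
  rw [h4]
  by_cases hv : v ∈ ST n d
  · rw [if_pos hv, sgn]
    by_cases hX : v ∈ X
    · rw [if_pos hX]
      exact ⟨fun _ => ⟨hX, hv⟩, fun _ => rfl⟩
    · rw [if_neg hX]
      constructor
      · intro h
        norm_num at h
      · intro h
        exact absurd h.1 hX
  · rw [if_neg hv]
    constructor
    · intro h
      norm_num at h
    · intro h
      exact absurd h.2 hv

/-- PROOF. `dec_inj`: equal `P1` and equal support give equal vectors. -/
theorem vu_inj {d u u' : ℕ} (hu : u < 2 ^ (ST n d).card) (hu' : u' < 2 ^ (ST n d).card)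
    (h : P1 n (vu n d u) = P1 n (vu n d u')) : u = u' := by
  obtain ⟨h1, h2, h3⟩ := pD_spec (n := n) d
  rw [← h3] at hu hu'
  refine dec_inj h1 hu hu' ?_
  funext v
  show fv n (vu n d u) v = fv n (vu n d u') v
  by_cases hv : v ∈ ST n d
  · have ha := (vu_supp d u v).1 hv
    have hb := (vu_supp d u' v).1 hv
    have hc : fv n (vu n d u) v = 1 ↔ fv n (vu n d u') v = 1 := by
      rw [← C3b_mem, ← C3b_mem, h]
    rcases ha with ha | ha
    · rw [ha, hc.1 ha]
    · rcases hb with hb | hb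
      · rw [hb, hc.2 hb]
      · rw [ha, hb]
  · rw [(vu_supp d u v).2 hv, (vu_supp d u' v).2 hv]

end Pool.Agent.MPa9445a.SN
end

section

/-! The vectors on the complement of `D`. -/

set_option autoImplicit false

open Finset
open scoped symmDiff

namespace Pool.Agent.MPa9445a.SN

open Pool.Agent.MPa9445a.BE

variable {n : ℕ}

private theorem C4a_pc {N m c : ℕ} (h : N ≤ m) (hc : c < 2 ^ N) : pc m c = pc N c := by
  unfold pc
  symm
  refine Finset.sum_subset (fun x hx => ?_) (fun v _ hv => ?_)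
  · rw [Finset.mem_range] at hx ⊢
    omega
  · rw [Finset.mem_range, not_lt] at hv
    unfold bit
    rw [Nat.div_eq_of_lt (hc.trans_le (Nat.pow_le_pow_right (by norm_num) hv)), Nat.zero_mod]

private theorem C4a_card {N m : ℕ} (h : N ≤ m) (w : ℕ) :
    (flt (2 ^ N) fun c => pc m c = w).length = N.choose w := by
  rw [flt_length]
  have h1 : (Finset.powersetCard w (univ : Finset (Fin N))).card = N.choose w := by
    rw [Finset.card_powersetCard, Finset.card_univ, Fintype.card_fin]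
  rw [← h1]
  refine Finset.card_bij (fun c _ => ST N c) ?_ ?_ ?_
  · intro c hc
    rw [Finset.mem_filter, Finset.mem_range] at hc
    rw [Finset.mem_powersetCard, ← pc_eq, ← C4a_pc h hc.1]
    exact ⟨Finset.subset_univ _, hc.2⟩
  · intro c hc c' hc' he
    rw [Finset.mem_filter, Finset.mem_range] at hc hc'
    exact ST_inj hc.1 hc'.1 he
  · intro X hX
    rw [Finset.mem_powersetCard] at hX
    obtain ⟨c, hc, hcX⟩ := ST_surj X
    refine ⟨c, ?_, hcX⟩
    rw [Finset.mem_filter, Finset.mem_range]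
    refine ⟨hc, ?_⟩
    rw [C4a_pc h hc, pc_eq, hcX]
    exact hX.2

/-- PROOF. The numbers `c < 2^N`, `N ≤ n`, with `w` digits `1` are as many as the sets with `w` elements in `Fin N` (`C(N, w)`); `flt_length`. -/
theorem length_B (n e w : ℕ) : (B1 n e w).length = ((n - e) / 2).choose w ∧
    (B2 n e w).length = ((n - e) - (n - e) / 2).choose w :=
  ⟨C4a_card (by omega) w, C4a_card (by omega) w⟩

end Pool.Agent.MPa9445a.SN
end

section

/-! The vectors on the complement of `D`. -/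

set_option autoImplicit false

open Finset
open scoped symmDiff

namespace Pool.Agent.MPa9445a.SN

open Pool.Agent.MPa9445a.BE

variable {n : ℕ}

private theorem C4b_bit_eq_zero {c k v : ℕ} (hc : c < 2 ^ k) (hv : k ≤ v) : bit c v = 0 := by
  unfold bit
  rw [Nat.div_eq_of_lt (lt_of_lt_of_le hc (Nat.pow_le_pow_right (by norm_num) hv))]

private theorem C4b_bit_mod {c k v : ℕ} (hv : v < k) : bit (c % 2 ^ k) v = bit c v := by
  unfold bit
  rw [← Nat.toNat_testBit, ← Nat.toNat_testBit, Nat.testBit_mod_two_pow, decide_eq_true hv,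
    Bool.true_and]

private theorem C4b_bit_div (c k v : ℕ) : bit (c / 2 ^ k) v = bit c (k + v) := by
  unfold bit
  rw [Nat.div_div_eq_div_mul, ← pow_add]

private theorem C4b_pc {n N₁ : ℕ} (hN : N₁ ≤ n) {m : ℕ} (hm : m < 2 ^ n) :
    pc n (m % 2 ^ N₁) + pc n (m / 2 ^ N₁) = pc n m := by
  unfold pc
  obtain ⟨d, rfl⟩ : ∃ d, n = N₁ + d := ⟨n - N₁, by omega⟩
  have h1 : ∑ v ∈ range (N₁ + d), bit (m % 2 ^ N₁) v = ∑ v ∈ range N₁, bit m v := by
    rw [Finset.sum_range_add]
    have h2 : ∑ x ∈ range d, bit (m % 2 ^ N₁) (N₁ + x) = 0 := by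
      refine Finset.sum_eq_zero fun x _ => ?_
      exact C4b_bit_eq_zero (Nat.mod_lt _ (by positivity)) (Nat.le_add_right _ _)
    rw [h2, add_zero]
    refine Finset.sum_congr rfl fun v hv => ?_
    exact C4b_bit_mod (Finset.mem_range.1 hv)
  have h3 : ∑ v ∈ range (N₁ + d), bit (m / 2 ^ N₁) v = ∑ v ∈ range d, bit m (N₁ + v) := by
    rw [add_comm N₁ d, Finset.sum_range_add]
    have h2 : ∑ x ∈ range N₁, bit (m / 2 ^ N₁) (d + x) = 0 := by
      refine Finset.sum_eq_zero fun x _ => ?_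
      refine C4b_bit_eq_zero (k := d) ?_ (Nat.le_add_right _ _)
      rw [Nat.div_lt_iff_lt_mul (by positivity), mul_comm, ← pow_add]
      exact hm
    rw [h2, add_zero]
    refine Finset.sum_congr rfl fun v _ => ?_
    exact C4b_bit_div _ _ _
  rw [h1, h3, Finset.sum_range_add]

private theorem C4b_z {A B z : ℕ} (h : z < A * B) : 0 < B ∧ z / B < A ∧ z % B < B := by
  have hB : 0 < B := by
    rcases Nat.eq_zero_or_pos B with h0 | h0
    · rw [h0, Nat.mul_zero] at h
      omega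
    · exact h0
  refine ⟨hB, ?_, Nat.mod_lt _ hB⟩
  rw [Nat.div_lt_iff_lt_mul hB]
  exact h

/-- The masks. PROOF. With `N₁ = (n-e)/2`, `N₂ = (n-e) - N₁`: `m = m₁ + 2^N₁ m₂` with `m₁ < 2^N₁`, `m₂ < 2^N₂`; the digits of `m` are those of `m₁` followed by those of `m₂`; so the map
`z ↦ m` is injective on `z < |B1| |B2|` (`z / |B2|`, `z % |B2|`, `flt_inj`), and its values are all the `m < 2^(n-e)` with `w₁` digits `1` among the first `N₁` and `w₂` among the others. -/
theorem msk_spec {e : ℕ} (he : e ≤ n) (w₁ w₂ : ℕ) :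
    (∀ z < (B1 n e w₁).length * (B2 n e w₂).length,
      msk n e (B1 n e w₁) (B2 n e w₂) z < 2 ^ (n - e)) ∧
    (∀ z < (B1 n e w₁).length * (B2 n e w₂).length,
      ∀ z' < (B1 n e w₁).length * (B2 n e w₂).length,
      msk n e (B1 n e w₁) (B2 n e w₂) z = msk n e (B1 n e w₁) (B2 n e w₂) z' → z = z') := by
  have hpow : (2 : ℕ) ^ (n - e) = 2 ^ ((n - e) / 2) * 2 ^ ((n - e) - (n - e) / 2) := by
    rw [← pow_add]
    congr 1
    omega
  have hp1 : 0 < (2 : ℕ) ^ ((n - e) / 2) := by positivity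
  constructor
  · intro z hz
    obtain ⟨_, h1, h2⟩ := C4b_z hz
    have h3 := (flt_gt (k := 2 ^ ((n - e) / 2)) (fun c => pc n c = w₁) h1).1
    have h4 := (flt_gt (k := 2 ^ ((n - e) - (n - e) / 2)) (fun c => pc n c = w₂) h2).1
    unfold msk
    rw [hpow]
    have h5 : (gt (B1 n e w₁) (z / (B2 n e w₂).length)).toNat < 2 ^ ((n - e) / 2) := h3
    have h6 : (gt (B2 n e w₂) (z % (B2 n e w₂).length)).toNat + 1 ≤
        2 ^ ((n - e) - (n - e) / 2) := h4
    have h7 := Nat.mul_le_mul_left (2 ^ ((n - e) / 2)) h6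
    rw [Nat.mul_add, Nat.mul_one] at h7
    omega
  · intro z hz z' hz' hzz
    obtain ⟨_, h1, h2⟩ := C4b_z hz
    obtain ⟨_, h1', h2'⟩ := C4b_z hz'
    have h3 : (gt (B1 n e w₁) (z / (B2 n e w₂).length)).toNat < 2 ^ ((n - e) / 2) :=
      (flt_gt (k := 2 ^ ((n - e) / 2)) (fun c => pc n c = w₁) h1).1
    have h3' : (gt (B1 n e w₁) (z' / (B2 n e w₂).length)).toNat < 2 ^ ((n - e) / 2) :=
      (flt_gt (k := 2 ^ ((n - e) / 2)) (fun c => pc n c = w₁) h1').1
    unfold msk at hzz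
    have e1 : (gt (B1 n e w₁) (z / (B2 n e w₂).length)).toNat =
        (gt (B1 n e w₁) (z' / (B2 n e w₂).length)).toNat := by
      have := congrArg (fun x => x % 2 ^ ((n - e) / 2)) hzz
      simp only [Nat.add_mul_mod_self_left] at this
      rwa [Nat.mod_eq_of_lt h3, Nat.mod_eq_of_lt h3'] at this
    have e2 : (gt (B2 n e w₂) (z % (B2 n e w₂).length)).toNat =
        (gt (B2 n e w₂) (z' % (B2 n e w₂).length)).toNat := by
      rw [e1] at hzz
      exact Nat.eq_of_mul_eq_mul_left hp1 (Nat.add_left_cancel hzz)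
    have e3 : z / (B2 n e w₂).length = z' / (B2 n e w₂).length :=
      flt_inj (k := 2 ^ ((n - e) / 2)) (fun c => pc n c = w₁) h1 h1' e1
    have e4 : z % (B2 n e w₂).length = z' % (B2 n e w₂).length :=
      flt_inj (k := 2 ^ ((n - e) - (n - e) / 2)) (fun c => pc n c = w₂) h2 h2' e2
    rw [← Nat.div_add_mod z (B2 n e w₂).length, ← Nat.div_add_mod z' (B2 n e w₂).length, e3, e4]

/-- PROOF. Every `m < 2^(n-e)`: `m₁ = m % 2^N₁`, `m₂ = m / 2^N₁`, `w₁ = pc n m₁`, `w₂ = pc n m₂`, `w₁ + w₂ = pc n m`. -/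
theorem msk_surj {e : ℕ} (he : e ≤ n) {m : ℕ} (hm : m < 2 ^ (n - e)) :
    ∃ w₁ w₂ z, w₁ + w₂ = pc n m ∧ z < (B1 n e w₁).length * (B2 n e w₂).length ∧
      msk n e (B1 n e w₁) (B2 n e w₂) z = m := by
  have hpow : (2 : ℕ) ^ (n - e) = 2 ^ ((n - e) / 2) * 2 ^ ((n - e) - (n - e) / 2) := by
    rw [← pow_add]
    congr 1
    omega
  have hp1 : 0 < (2 : ℕ) ^ ((n - e) / 2) := by positivity
  have hm1 : m % 2 ^ ((n - e) / 2) < 2 ^ ((n - e) / 2) := Nat.mod_lt _ hp1
  have hm2 : m / 2 ^ ((n - e) / 2) < 2 ^ ((n - e) - (n - e) / 2) := by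
    rw [Nat.div_lt_iff_lt_mul hp1, mul_comm, ← hpow]
    exact hm
  have hmn : m < 2 ^ n := lt_of_lt_of_le hm (Nat.pow_le_pow_right (by norm_num) (Nat.sub_le _ _))
  obtain ⟨t₁, ht₁, _, h1⟩ := flt_pos (k := 2 ^ ((n - e) / 2))
    (fun c => pc n c = pc n (m % 2 ^ ((n - e) / 2))) hm1 rfl
  obtain ⟨t₂, ht₂, _, h2⟩ := flt_pos (k := 2 ^ ((n - e) - (n - e) / 2))
    (fun c => pc n c = pc n (m / 2 ^ ((n - e) / 2))) hm2 rfl
  have ht₁' : t₁ < (B1 n e (pc n (m % 2 ^ ((n - e) / 2)))).length := ht₁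
  have ht₂' : t₂ < (B2 n e (pc n (m / 2 ^ ((n - e) / 2)))).length := ht₂
  have h1' : gt (B1 n e (pc n (m % 2 ^ ((n - e) / 2)))) t₁ = ((m % 2 ^ ((n - e) / 2) : ℕ) : ℤ) := h1
  have h2' : gt (B2 n e (pc n (m / 2 ^ ((n - e) / 2)))) t₂ = ((m / 2 ^ ((n - e) / 2) : ℕ) : ℤ) := h2
  refine ⟨pc n (m % 2 ^ ((n - e) / 2)), pc n (m / 2 ^ ((n - e) / 2)),
    (B2 n e (pc n (m / 2 ^ ((n - e) / 2)))).length * t₁ + t₂, ?_, ?_, ?_⟩
  · exact C4b_pc (by omega) hmn
  · have h3 := Nat.mul_le_mul_left (B2 n e (pc n (m / 2 ^ ((n - e) / 2)))).length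
      (Nat.succ_le_of_lt ht₁')
    rw [Nat.mul_succ] at h3
    rw [mul_comm (B1 n e (pc n (m % 2 ^ ((n - e) / 2)))).length]
    omega
  · have hL : 0 < (B2 n e (pc n (m / 2 ^ ((n - e) / 2)))).length := by omega
    have h3 : ((B2 n e (pc n (m / 2 ^ ((n - e) / 2)))).length * t₁ + t₂) /
        (B2 n e (pc n (m / 2 ^ ((n - e) / 2)))).length = t₁ := by
      rw [Nat.mul_add_div hL, Nat.div_eq_of_lt ht₂', add_zero]
    have h4 : ((B2 n e (pc n (m / 2 ^ ((n - e) / 2)))).length * t₁ + t₂) %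
        (B2 n e (pc n (m / 2 ^ ((n - e) / 2)))).length = t₂ := by
      rw [Nat.mul_add_mod, Nat.mod_eq_of_lt ht₂']
    unfold msk
    rw [h3, h4, h1', h2', Int.toNat_natCast, Int.toNat_natCast]
    exact Nat.mod_add_div m _

end Pool.Agent.MPa9445a.SN
end
end

section

section

/-! A block succeeds with probability at least one half. -/

set_option autoImplicit false

open Finset
open scoped symmDiff

namespace Pool.Agent.MPa9445a.SN

variable {n : ℕ} (W : Matrix (Fin n) (Fin n) ℤ)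

open scoped Classical in
/-- Case II. PROOF. `structure_LS` gives `e`, `𝒮`. `badY` for `𝒮`: outside at most `5/32` of the `ωY` there is a `j` with `Y = rs ωY j ∈ 𝒮 ⊆ LS W T` and few earlier ones. For every such `ωY` (choose `j`) `badD` for
`𝒢 = {D : |D| = e, T ≤ ff W (X₀ ∆ D), |(X₀ ∆ Y) \ D| ≤ rad n e}`, `θ = ff W X₀ + T` (hypothesis `h2` by `sum_PD` and `num2` with `a = |LS (T+1)|`, `b = |LS T|`, `c = |LS M|`): outside at most `5/32` of the `ωD` `SII` holds. The number of bad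
pairs is at most `5/32 |Fm|² + |Fm| 5/32 |Fm|`. -/
theorem suc2 {X₀ : Finset (Fin n)} (hX : IsMx W X₀) {T : ℤ} {g : ℕ} (hg : g ≤ sig n)
    (h1 : 2 ^ n ≤ (LS W T).card * 2 ^ g) (h2 : (LS W T).card * 2 ^ g < 2 ^ (n + 1))
    (h3 : (LS W (T + 1)).card * 2 ^ sig n < 2 ^ n)
    (h4 : (LS W (ff W X₀)).card * 2 ^ sig n < 2 ^ n) :
    ∃ e, 2 * e ≤ n ∧ 32 * (univ.filter fun p : Fm n × Fm n => ¬ SII W X₀ T g e p.1 p.2).card ≤
      10 * Fintype.card (Fm n) ^ 2 := by
  classical
  obtain ⟨e, 𝒮, he, hS, hS1, hS2⟩ := structure_LS W X₀ T h1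
  refine ⟨e, he, ?_⟩
  have hab : (LS W (T + 1)).card ≤ (LS W T).card := by
    refine card_le_card fun X hX' => ?_
    simp only [LS, mem_filter, mem_univ, true_and] at hX' ⊢
    omega
  have hbud : 16 * (Jn n g * ∑ D ∈ lay n e, (PD W (ff W X₀ + T) D).card) ≤ Bud n * 2 ^ n := by
    refine le_trans ?_ (num2 (n := n) (g := g) (a := (LS W (T + 1)).card) (b := (LS W T).card)
      (c := (LS W (ff W X₀)).card) hab h3 h4 h2)
    exact Nat.mul_le_mul_left _ (Nat.mul_le_mul_left _ (sum_PD W hX T e))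
  have hY := badY W 𝒮 T hg hS1 h2
  set BY : Finset (Fm n) := univ.filter fun ω : Fm n => ¬ ∃ j < Jn n g, rs ω j ∈ 𝒮 ∧
      ((range j).filter fun j' => T ≤ ff W (rs ω j')).card < Yn n with hBY
  have hcard : (univ.filter fun p : Fm n × Fm n => ¬ SII W X₀ T g e p.1 p.2).card =
      ∑ a : Fm n, (univ.filter fun b : Fm n => ¬ SII W X₀ T g e a b).card := by
    rw [card_filter, Fintype.sum_prod_type]
    refine sum_congr rfl fun a _ => ?_
    rw [card_filter]
  have hrow : ∀ a : Fm n, 32 * (univ.filter fun b : Fm n => ¬ SII W X₀ T g e a b).card ≤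
      (if a ∈ BY then 32 * Fintype.card (Fm n) else 0) + 5 * Fintype.card (Fm n) := by
    intro a
    by_cases ha : a ∈ BY
    · rw [if_pos ha]
      have h5 : (univ.filter fun b : Fm n => ¬ SII W X₀ T g e a b).card ≤ Fintype.card (Fm n) :=
        card_le_univ _
      omega
    · rw [if_neg ha, zero_add]
      have h5 : ∃ j < Jn n g, rs a j ∈ 𝒮 ∧
          ((range j).filter fun j' => T ≤ ff W (rs a j')).card < Yn n := by
        by_contra hne
        exact ha (by rw [hBY]; exact mem_filter.2 ⟨mem_univ _, hne⟩)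
      obtain ⟨j, hj, hjS, hjY⟩ := h5
      have h6 := badD W (univ.filter fun D : Finset (Fin n) => D.card = e ∧ T ≤ ff W (X₀ ∆ D) ∧
        ((X₀ ∆ rs a j) \ D).card ≤ rad n e) (ff W X₀ + T) hg he (hS2 _ hjS) hbud
      refine le_trans (Nat.mul_le_mul_left _ (card_le_card fun b hb => ?_)) h6
      simp only [mem_filter, mem_univ, true_and] at hb ⊢
      rintro ⟨⟨i, hi, hiG⟩, hw, hs⟩
      apply hb
      refine ⟨i, hi, j, hj, ?_, hjY, hiG.1, hiG.2.1, hiG.2.2, hw, hs⟩
      have h7 := hS hjS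
      simpa only [LS, mem_filter, mem_univ, true_and] using h7
  rw [hcard, mul_sum]
  calc ∑ a : Fm n, 32 * (univ.filter fun b : Fm n => ¬ SII W X₀ T g e a b).card
      ≤ ∑ a : Fm n, ((if a ∈ BY then 32 * Fintype.card (Fm n) else 0) +
        5 * Fintype.card (Fm n)) := sum_le_sum fun a _ => hrow a
    _ = (32 * BY.card) * Fintype.card (Fm n) + 5 * Fintype.card (Fm n) ^ 2 := by
        rw [sum_add_distrib, ← sum_filter, sum_const, sum_const, smul_eq_mul, smul_eq_mul,
          card_univ]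
        have h8 : (univ.filter fun a => a ∈ BY) = BY := by
          ext a
          simp
        rw [h8]
        ring
    _ ≤ (5 * Fintype.card (Fm n)) * Fintype.card (Fm n) + 5 * Fintype.card (Fm n) ^ 2 :=
        Nat.add_le_add_right (Nat.mul_le_mul_right _ hY) _
    _ = 10 * Fintype.card (Fm n) ^ 2 := by ring

end Pool.Agent.MPa9445a.SN
end

section

/-! A block succeeds with probability at least one half. -/

set_option autoImplicit false

open Finset
open scoped symmDiff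

namespace Pool.Agent.MPa9445a.SN

variable {n : ℕ} (W : Matrix (Fin n) (Fin n) ℤ)

open scoped Classical in
/-- PROOF. `level` for `σ = sig n`, then `suc1` (number of pairs: times `|Fm|`) or `suc2`. -/
theorem suc_prob {X₀ : Finset (Fin n)} (hX : IsMx W X₀) :
    2 * (univ.filter fun p : Fm n × Fm n => ¬ Suc W X₀ p.1 p.2).card ≤
      Fintype.card (Fm n) ^ 2 := by
  rcases level W hX (sig n) with h | ⟨T, g, hg, _, hT, h1, h2, h3, h4⟩
  · have h1 := suc1 W hX h
    have h2 : (univ.filter fun p : Fm n × Fm n => ¬ Suc W X₀ p.1 p.2).card ≤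
        ((univ.filter fun ω : Fm n => ¬ SI W X₀ ω) ×ˢ (univ : Finset (Fm n))).card := by
      refine Finset.card_le_card ?_
      intro p hp
      simp only [mem_filter, mem_univ, true_and, mem_product, and_true] at hp ⊢
      exact fun h => hp (Or.inl h)
    rw [Finset.card_product, Finset.card_univ] at h2
    nlinarith [Nat.zero_le (Fintype.card (Fm n))]
  · obtain ⟨e, he, h5⟩ := suc2 W hX hg h1 h2 h3 h4
    have h6 : (univ.filter fun p : Fm n × Fm n => ¬ Suc W X₀ p.1 p.2).card ≤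
        (univ.filter fun p : Fm n × Fm n => ¬ SII W X₀ T g e p.1 p.2).card := by
      refine Finset.card_le_card ?_
      intro p hp
      simp only [mem_filter, mem_univ, true_and] at hp ⊢
      exact fun h => hp (Or.inr ⟨T, g, e, hg, he, hT, h⟩)
    omega

end Pool.Agent.MPa9445a.SN
end
end
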