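import Pool.Agent.Lib.MP_a9445a_lc.Mg.G125
import Pool.Agent.Lib.MP_a9445a_lc.Mg.G130
import Pool.Agent.Lib.MP_a9445a_lc.Mg.G132
import Pool.Agent.Lib.MP_a9445a_lc.GL.E4
import Pool.Agent.Lib.MP_a9445a_lc.GL.E5
import Pool.Agent.Lib.MP_a9445a_lc.Mg.G134
import Pool.Agent.Lib.MP_a9445a_lc.Mg.G049
import Pool.Agent.Lib.MP_a9445a_lc.SN.Alg2
import Pool.Agent.Lib.MP_a9445a_lc.Mg.G131
import Pool.Agent.Lib.MP_a9445a_lc.Mg.G127
import Pool.Agent.Lib.MP_a9445a_lc.Mg.G124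

section

/-! The random bits. -/

set_option autoImplicit false

open Finset
open scoped symmDiff

namespace Pool.Agent.MPa9445a.GL

open Pool.Agent.MPa9445a.BE
open Pool.Agent.MPa9445a.SN (ST Fm rs kb rb)

/-- The number of random bits. -/
def Lk (n K : ℕ) : ℕ := K * Zn n * RL n

private theorem Q8a_gt {L : ℕ} (f : Fin L → Bool) (i : Fin L) :
    gt (rb f) (i : ℕ) = ((f i).toNat : ℤ) := by
  have h : (i : ℕ) < (List.ofFn fun i => ((f i).toNat : ℤ)).length := by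
    rw [List.length_ofFn]
    exact i.2
  unfold SN.rb gt
  rw [List.getD_eq_getElem _ _ h, List.getElem_ofFn]

private theorem Q8a_par {L : ℕ} (f : Fin L → Bool) (i : ℕ) (hi : i < L) :
    gt (rb f) i % 2 = 1 ↔ f ⟨i, hi⟩ = true := by
  have h := Q8a_gt f ⟨i, hi⟩
  simp only at h
  rw [h]
  cases f ⟨i, hi⟩ <;> simp

private theorem Q8a_eq {L : ℕ} {f f' : Fin L → Bool} {i : ℕ} (hi : i < L)
    (h : gt (rb f) i % 2 = 1 ↔ gt (rb f') i % 2 = 1) : f ⟨i, hi⟩ = f' ⟨i, hi⟩ := by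
  rw [Q8a_par f i hi, Q8a_par f' i hi] at h
  cases h1 : f ⟨i, hi⟩ <;> cases h2 : f' ⟨i, hi⟩ <;> simp_all

private theorem Q8a_fR {n : ℕ} {R R' : List ℤ} {o : ℕ} (h : fR n R o = fR n R' o) (i : ℕ)
    (hi : i < bl n) : gt R (o + i) % 2 = 1 ↔ gt R' (o + i) % 2 = 1 := by
  have hk : 0 < kb n + 1 := Nat.succ_pos _
  have h2 : i < (kb n + 1) * n := by
    unfold bl at hi
    rwa [mul_comm]
  have h3 : i / (kb n + 1) < n := Nat.div_lt_of_lt_mul h2
  have h4 : i % (kb n + 1) < kb n + 1 := Nat.mod_lt _ hk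
  have h5 := congrFun (congrFun h ⟨_, h3⟩) ⟨_, h4⟩
  unfold fR at h5
  simp only at h5
  have h6 : o + i / (kb n + 1) * (kb n + 1) + i % (kb n + 1) = o + i := by
    rw [add_assoc, Nat.div_add_mod']
  rw [h6] at h5
  exact decide_eq_decide.1 h5

private theorem Q8a_div {n m i : ℕ} (hi : i < m * n) : i / n < m ∧ 0 < n := by
  have hn : 0 < n := by
    rcases Nat.eq_zero_or_pos n with h | h
    · rw [h, mul_zero] at hi
      exact absurd hi (Nat.not_lt_zero _)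
    · exact h
  exact ⟨Nat.div_lt_of_lt_mul (by rwa [mul_comm]), hn⟩

private theorem Q8a_AR {n : ℕ} {R R' : List ℤ} {o : ℕ} (h : AR n R o = AR n R' o) (i : ℕ)
    (hi : i < n * n) : gt R (o + i) % 2 = 1 ↔ gt R' (o + i) % 2 = 1 := by
  obtain ⟨h3, hn⟩ := Q8a_div hi
  have h4 : i % n < n := Nat.mod_lt _ hn
  have h5 := congrFun h ⟨_, h3⟩
  have h6 : (⟨_, h4⟩ : Fin n) ∈ AR n R o ⟨_, h3⟩ ↔ (⟨_, h4⟩ : Fin n) ∈ AR n R' o ⟨_, h3⟩ := by
    rw [h5]
  unfold AR at h6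
  simp only [Finset.mem_filter, Finset.mem_univ, true_and] at h6
  have h7 : o + i / n * n + i % n = o + i := by
    rw [add_assoc, Nat.div_add_mod']
  rwa [h7] at h6

private theorem Q8a_HR {n : ℕ} {R R' : List ℤ} {o : ℕ} (h : HR n R o = HR n R' o) (i : ℕ)
    (hi : i < Rn n * n) : gt R (o + n * n + i) % 2 = 1 ↔ gt R' (o + n * n + i) % 2 = 1 := by
  obtain ⟨h3, hn⟩ := Q8a_div hi
  have h4 : i % n < n := Nat.mod_lt _ hn
  have h5 := congrFun h ⟨_, h3⟩
  have h6 : (⟨_, h4⟩ : Fin n) ∈ HR n R o ⟨_, h3⟩ ↔ (⟨_, h4⟩ : Fin n) ∈ HR n R' o ⟨_, h3⟩ := by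
    rw [h5]
  unfold HR at h6
  simp only [Finset.mem_filter, Finset.mem_univ, true_and] at h6
  have h7 : o + n * n + i / n * n + i % n = o + n * n + i := by
    rw [add_assoc, Nat.div_add_mod']
  rwa [h7] at h6

/-- The random objects of one round from the bits `f 0, …, f (RL n - 1)`. PROOF. Every entry is used exactly once: the
families (`v * (kb n + 1) + j`), the matrix (`v * n + u`), the shifts (`i * n + v`), division with remainder. Injective and the
cardinalities agree (as `SN/F0`). -/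
theorem round_bij (n : ℕ) : Function.Bijective fun f : Fin (RL n) → Bool => RR n (rb f) 0 := by
  rw [Fintype.bijective_iff_injective_and_card]
  refine ⟨?_, ?_⟩
  · intro f f' h
    have h1 : fR n (rb f) 0 = fR n (rb f') 0 := congrArg Prod.fst h
    have h' := congrArg Prod.snd h
    have h2 : fR n (rb f) (0 + bl n) = fR n (rb f') (0 + bl n) := congrArg Prod.fst h'
    have h'' := congrArg Prod.snd h'
    have h3 : AR n (rb f) (0 + 2 * bl n) = AR n (rb f') (0 + 2 * bl n) := congrArg Prod.fst h''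
    have h4 : HR n (rb f) (0 + 2 * bl n) = HR n (rb f') (0 + 2 * bl n) := congrArg Prod.snd h''
    funext ⟨i, hi⟩
    apply Q8a_eq
    have hRL : RL n = 2 * bl n + n * n + Rn n * n := rfl
    by_cases c1 : i < bl n
    · have := Q8a_fR h1 i c1
      rwa [zero_add] at this
    by_cases c2 : i < 2 * bl n
    · have := Q8a_fR h2 (i - bl n) (by omega)
      rwa [show 0 + bl n + (i - bl n) = i by omega] at this
    by_cases c3 : i < 2 * bl n + n * n
    · have := Q8a_AR h3 (i - 2 * bl n) (by omega)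
      rwa [show 0 + 2 * bl n + (i - 2 * bl n) = i by omega] at this
    · have := Q8a_HR h4 (i - (2 * bl n + n * n)) (by omega)
      rwa [show 0 + 2 * bl n + n * n + (i - (2 * bl n + n * n)) = i by omega] at this
  · simp only [Fintype.card_fun, Fintype.card_prod, Fintype.card_fin, Fintype.card_bool,
      Fintype.card_finset, ← pow_mul, ← pow_add]
    congr 1
    unfold RL bl
    ring

end Pool.Agent.MPa9445a.GL
end

section

section

/-! The second stage of a round: the sample is good. -/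

set_option autoImplicit false

open Finset

namespace Pool.Agent.MPa9445a.GL

open Pool.Agent.MPa9445a.SN (Fm rs kb)

variable {n : ℕ}

/-- The data of a good sample: state `r`, level `t`, tilt `q`, `g = γ (k + 1)`, `m = #Fr s`. -/
structure Gs (W : Matrix (Fin n) (Fin n) ℤ) (k : ℕ) (s : Vc n) (p : ℤ) (M : ℝ) (B : ℕ) (r : Vc n)
    (t : ℤ) (q : ℝ) : Prop where
  hW : Wb W
  hs : St s
  h : Res s r
  hq : 1 ≤ q
  hp : (p + t) % 2 = 0
  hN : γ (k + 1) ^ (Fr s).card ≤ (Lv W r t).card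
  hN' : ((Lv W r t).card : ℝ) ≤ AA n * γ (k + 1) ^ (Fr s).card
  hT : T W r t q ≤ AA n * LL n * (Lv W r t).card
  hM : T W s p q ≤ LL n * M
  hγ : γ (k + 1) ^ (Fr s).card ≤ M
  hB : (pl n (k + 1) : ℝ) * M ≤ B

/-- What is needed of `ω` (sets for `Y`), `A`, `h`. -/
def St2 (W : Matrix (Fin n) (Fin n) ℤ) {k : ℕ} (ω' : Sds n k) (s : Vc n) (p : ℤ) (B : ℕ) (r : Vc n)
    (t : ℤ) (ω : Fm n) (A : Mx n) (h : Sh n) : Prop :=
  ∃ e j, 2 ^ e ≤ B ∧ j ≤ n ∧ 2 ^ (hi s j).card ≤ B ∧ 2 ^ (lo s j).card ≤ B ∧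
    ∑ κ ∈ range (2 ^ e), cD W (Ok W k ω') r t (Dk r ω κ) ≤ B ∧ Cov s A h j (Yl W r t ω (2 ^ e)) ∧
    ∑ w ∈ (lo s j).powerset, ∑ i, cD W (Ok W k ω') r ((p + t) / 2) (Dw s A h j w i) ≤ B

private theorem G1_pl_pos (n k : ℕ) : 1 ≤ pl n k := by
  induction k with
  | zero => simp [pl]
  | succ k ih =>
    rw [pl]
    have h1 : 1 ≤ (n + 2) ^ 60 := Nat.one_le_pow _ _ (by omega)
    have h2 : 1 ≤ 2 ^ 20 * (n + 2) ^ 60 := by
      calc 1 ≤ 1 * 1 := by norm_num
        _ ≤ 2 ^ 20 * (n + 2) ^ 60 := Nat.mul_le_mul (by norm_num) h1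
    calc 1 = 1 * 1 := by norm_num
      _ ≤ 2 ^ 20 * (n + 2) ^ 60 * pl n k := Nat.mul_le_mul h2 ih

private theorem G1_AA_le (n k : ℕ) : AA n ≤ pl n (k + 1) := by
  rw [pl, AA]
  have h1 : n + 2 ≤ (n + 2) ^ 60 := Nat.le_self_pow (by norm_num) _
  calc 8 * (n + 1) ≤ 2 ^ 20 * (n + 2) := by
        norm_num
        omega
    _ ≤ 2 ^ 20 * (n + 2) ^ 60 := Nat.mul_le_mul_left _ h1
    _ = 2 ^ 20 * (n + 2) ^ 60 * 1 := by ring
    _ ≤ 2 ^ 20 * (n + 2) ^ 60 * pl n k := Nat.mul_le_mul_left _ (G1_pl_pos n k)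

private theorem G1_four_le (n k : ℕ) : 4 ≤ pl n (k + 1) := by
  refine le_trans ?_ (G1_AA_le n k)
  rw [AA]
  omega

private theorem G1_union {X : Type} [Fintype X] (P Q R : X → Prop) [DecidablePred fun x => ¬ P x]
    [DecidablePred fun x => ¬ Q x] [DecidablePred fun x => ¬ R x] (h : ∀ x, Q x → R x → P x) :
    (univ.filter fun x => ¬ P x).card ≤
      (univ.filter fun x => ¬ Q x).card + (univ.filter fun x => ¬ R x).card := by
  classical
  refine le_trans (Finset.card_le_card ?_) (Finset.card_union_le _ _)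
  intro x hx
  rw [Finset.mem_filter] at hx
  rw [Finset.mem_union, Finset.mem_filter, Finset.mem_filter]
  by_cases hQ : Q x
  · right
    exact ⟨Finset.mem_univ _, fun hR => hx.2 (h x hQ hR)⟩
  · left
    exact ⟨Finset.mem_univ _, hQ⟩

open scoped Classical in
/-- Third stage: `Y` is large. PROOF. `ex_j` with `y = #Y` (`1 ≤ #Y ≤ #S s`): `2 ^ #hi ≤ #Y ≤ N ≤ AA * g ^ m ≤ B`, `2 ^ #lo * N ≤ 2 * 2 ^ #lo * #Y ≤ 4 * 2 ^ m`, so `2 ^ #lo ≤ 4 * 2 ^ m / g ^ m ≤ 4 g ^ m ≤ B` (`2 ≤ g ^ 2`). The bad pairs: `cov_lemma` (`1/8`) and `cost_H` for every `A` (`1/16`). -/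
theorem stage3 {W : Matrix (Fin n) (Fin n) ℤ} {k : ℕ} {ω' : Sds n k} (hG : Good W k ω') {s r : Vc n}
    {p t : ℤ} {q M : ℝ} {B : ℕ} (H : Gs W k s p M B r t q) (ω : Fm n) {e : ℕ} (he : 2 ^ e ≤ B)
    (hY : (Lv W r t).card ≤ 2 * (Yl W r t ω (2 ^ e)).card)
    (hc : ∑ κ ∈ range (2 ^ e), cD W (Ok W k ω') r t (Dk r ω κ) ≤ B) :
    ((univ.filter fun z : Mx n × Sh n => ¬ St2 W ω' s p B r t ω z.1 z.2).card : ℝ) ≤
      3 / 16 * Fintype.card (Mx n × Sh n) := by
  set Y := Yl W r t ω (2 ^ e) with hYdef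
  have hYsub : Y ⊆ Lv W r t := by
    rw [hYdef, Yl]
    exact Finset.filter_subset _ _
  have hYS : Y ⊆ S s := by
    refine hYsub.trans (Finset.Subset.trans ?_ (S_Res H.h))
    rw [Lv]
    exact Finset.filter_subset _ _
  have hg1 : 1 ≤ γ (k + 1) := γ_one (k + 1)
  have hgm1 : (1 : ℝ) ≤ γ (k + 1) ^ (Fr s).card := one_le_pow₀ hg1
  have hN1 : 1 ≤ (Lv W r t).card := by
    have : (1 : ℝ) ≤ (Lv W r t).card := hgm1.trans H.hN
    exact_mod_cast this
  have hY1 : 1 ≤ Y.card := by omega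
  have hYm : Y.card ≤ 2 ^ (Fr s).card := by
    rw [← card_S]
    exact Finset.card_le_card hYS
  obtain ⟨j, hj, hhi, hlo⟩ := ex_j s hY1 hYm
  have hYN : Y.card ≤ (Lv W r t).card := Finset.card_le_card hYsub
  have hAAB : (AA n : ℝ) * γ (k + 1) ^ (Fr s).card ≤ B := by
    refine le_trans ?_ H.hB
    have h1 : (AA n : ℝ) ≤ pl n (k + 1) := Nat.cast_le.mpr (G1_AA_le n k)
    exact mul_le_mul h1 H.hγ (le_trans zero_le_one hgm1) (Nat.cast_nonneg _)
  have h4B : (4 : ℝ) * γ (k + 1) ^ (Fr s).card ≤ B := by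
    refine le_trans ?_ H.hB
    have h1 : ((4 : ℕ) : ℝ) ≤ pl n (k + 1) := Nat.cast_le.mpr (G1_four_le n k)
    have h1' : (4 : ℝ) ≤ pl n (k + 1) := by
      rw [Nat.cast_ofNat] at h1
      exact h1
    exact mul_le_mul h1' H.hγ (le_trans zero_le_one hgm1) (Nat.cast_nonneg _)
  have hhiB : 2 ^ (hi s j).card ≤ B := by
    have h1 : 2 ^ (hi s j).card ≤ (Lv W r t).card := hhi.trans hYN
    have h2 : ((Lv W r t).card : ℝ) ≤ B := H.hN'.trans hAAB
    have h3 : (Lv W r t).card ≤ B := by exact_mod_cast h2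
    exact h1.trans h3
  have hloN : 2 ^ (lo s j).card * (Lv W r t).card ≤ 4 * 2 ^ (Fr s).card := by
    calc 2 ^ (lo s j).card * (Lv W r t).card ≤ 2 ^ (lo s j).card * (2 * Y.card) :=
          Nat.mul_le_mul_left _ hY
      _ = 2 * (2 ^ (lo s j).card * Y.card) := by ring
      _ ≤ 2 * (2 * 2 ^ (Fr s).card) := Nat.mul_le_mul_left _ hlo
      _ = 4 * 2 ^ (Fr s).card := by ring
  have hloB : 2 ^ (lo s j).card ≤ B := by
    have h1 : ((2 : ℝ) ^ (lo s j).card) * γ (k + 1) ^ (Fr s).card ≤ 4 * 2 ^ (Fr s).card := by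
      have h2 : ((2 : ℝ) ^ (lo s j).card) * ((Lv W r t).card : ℝ) ≤ 4 * 2 ^ (Fr s).card := by
        exact_mod_cast hloN
      refine le_trans ?_ h2
      exact mul_le_mul_of_nonneg_left H.hN (by positivity)
    have h3 : (2 : ℝ) ^ (Fr s).card ≤ γ (k + 1) ^ (Fr s).card * γ (k + 1) ^ (Fr s).card := by
      calc (2 : ℝ) ^ (Fr s).card ≤ (γ (k + 1) ^ 2) ^ (Fr s).card :=
            pow_le_pow_left₀ (by norm_num) (two_le_γ_sq k) _
        _ = γ (k + 1) ^ (Fr s).card * γ (k + 1) ^ (Fr s).card := by ring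
    have h4 : ((2 : ℝ) ^ (lo s j).card) * γ (k + 1) ^ (Fr s).card ≤
        (4 * γ (k + 1) ^ (Fr s).card) * γ (k + 1) ^ (Fr s).card := by
      refine h1.trans ?_
      calc (4 : ℝ) * 2 ^ (Fr s).card ≤ 4 * (γ (k + 1) ^ (Fr s).card * γ (k + 1) ^ (Fr s).card) :=
            mul_le_mul_of_nonneg_left h3 (by norm_num)
        _ = _ := by ring
    have h5 : ((2 : ℝ) ^ (lo s j).card) ≤ 4 * γ (k + 1) ^ (Fr s).card :=
      le_of_mul_le_mul_right h4 (lt_of_lt_of_le one_pos hgm1)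
    have h6 : ((2 : ℝ) ^ (lo s j).card) ≤ B := h5.trans h4B
    exact_mod_cast h6
  have hcc : 2 * ((p + t) / 2) = p + t := by
    have := H.hp
    omega
  have hcov := cov_lemma hYS hhi
  have hcost : ∀ A : Mx n, (univ.filter fun h : Sh n => ¬ ∑ w ∈ (lo s j).powerset, ∑ i,
      cD W (Ok W k ω') r ((p + t) / 2) (Dw s A h j w i) ≤ B).card * 16 ≤ Fintype.card (Sh n) :=
    fun A => cost_H hG H.hs H.h hcc H.hq H.hN H.hT hloN H.hM H.hγ H.hB A
  have hcost2 : (univ.filter fun z : Mx n × Sh n => ¬ ∑ w ∈ (lo s j).powerset, ∑ i,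
      cD W (Ok W k ω') r ((p + t) / 2) (Dw s z.1 z.2 j w i) ≤ B).card * 16 ≤
        Fintype.card (Mx n) * Fintype.card (Sh n) := by
    have h1 := filter_prod (X := Mx n) (Y := Sh n) fun z => ¬ ∑ w ∈ (lo s j).powerset, ∑ i,
      cD W (Ok W k ω') r ((p + t) / 2) (Dw s z.1 z.2 j w i) ≤ B
    have h2 : (univ.filter fun z : Mx n × Sh n => ¬ ∑ w ∈ (lo s j).powerset, ∑ i,
      cD W (Ok W k ω') r ((p + t) / 2) (Dw s z.1 z.2 j w i) ≤ B).card =
      ∑ A : Mx n, (univ.filter fun h : Sh n => ¬ ∑ w ∈ (lo s j).powerset, ∑ i,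
      cD W (Ok W k ω') r ((p + t) / 2) (Dw s A h j w i) ≤ B).card := by
      convert h1
    rw [h2, Finset.sum_mul]
    calc ∑ A : Mx n, (univ.filter fun h : Sh n => ¬ ∑ w ∈ (lo s j).powerset, ∑ i,
      cD W (Ok W k ω') r ((p + t) / 2) (Dw s A h j w i) ≤ B).card * 16 ≤
          ∑ _A : Mx n, Fintype.card (Sh n) := Finset.sum_le_sum fun A _ => hcost A
      _ = Fintype.card (Mx n) * Fintype.card (Sh n) := by
          rw [Finset.sum_const, smul_eq_mul, Finset.card_univ]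
  have hun : (univ.filter fun z : Mx n × Sh n => ¬ St2 W ω' s p B r t ω z.1 z.2).card ≤
      (univ.filter fun z : Mx n × Sh n => ¬ Cov s z.1 z.2 j Y).card +
      (univ.filter fun z : Mx n × Sh n => ¬ ∑ w ∈ (lo s j).powerset, ∑ i,
      cD W (Ok W k ω') r ((p + t) / 2) (Dw s z.1 z.2 j w i) ≤ B).card :=
    G1_union (X := Mx n × Sh n) (fun z => St2 W ω' s p B r t ω z.1 z.2)
    (fun z => Cov s z.1 z.2 j Y) (fun z => ∑ w ∈ (lo s j).powerset, ∑ i,
      cD W (Ok W k ω') r ((p + t) / 2) (Dw s z.1 z.2 j w i) ≤ B)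
    (fun z hz1 hz2 => ⟨e, j, he, hj, hhiB, hloB, hc, hz1, hz2⟩)
  have hun16 : (univ.filter fun z : Mx n × Sh n => ¬ St2 W ω' s p B r t ω z.1 z.2).card * 16 ≤
      3 * (Fintype.card (Mx n) * Fintype.card (Sh n)) := by
    omega
  rw [Fintype.card_prod]
  have h7 : ((univ.filter fun z : Mx n × Sh n => ¬ St2 W ω' s p B r t ω z.1 z.2).card : ℝ) * 16 ≤
      3 * ((Fintype.card (Mx n) * Fintype.card (Sh n) : ℕ) : ℝ) := by exact_mod_cast hun16
  linarith

end Pool.Agent.MPa9445a.GL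
end

section

/-! The second stage. -/

set_option autoImplicit false

open Finset

namespace Pool.Agent.MPa9445a.GL

open Pool.Agent.MPa9445a.SN (Fm rs kb)

variable {n : ℕ}

private theorem G2_pl (n : ℕ) : ∀ k, 1 ≤ pl n k
  | 0 => le_refl _
  | k + 1 => by
      show 1 ≤ 2 ^ 20 * (n + 2) ^ 60 * pl n k
      exact Nat.mul_pos (by positivity) (G2_pl n k)

private theorem G2_pl32 (n k : ℕ) : 32 ≤ pl n (k + 1) := by
  show 32 ≤ 2 ^ 20 * (n + 2) ^ 60 * pl n k
  have h1 : 1 ≤ pl n k := G2_pl n k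
  have h2 : 1 ≤ (n + 2) ^ 60 := Nat.one_le_pow _ _ (by omega)
  calc 32 ≤ 2 ^ 20 * 1 * 1 := by norm_num
    _ ≤ 2 ^ 20 * (n + 2) ^ 60 * pl n k := Nat.mul_le_mul (Nat.mul_le_mul_left _ h2) h1

open scoped Classical in
private theorem G2_or {X : Type} [Fintype X] (P Q : X → Prop) {c : ℝ}
    (hP : ((univ.filter fun x => ¬ P x).card : ℝ) ≤ 1 / 8 * c)
    (hQ : ((univ.filter fun x => ¬ Q x).card : ℝ) ≤ 1 / 16 * c) :
    ((univ.filter fun x => ¬ (P x ∧ Q x)).card : ℝ) ≤ 3 / 16 * c := by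
  have h : (univ.filter fun x => ¬ (P x ∧ Q x)) ⊆
      (univ.filter fun x => ¬ P x) ∪ (univ.filter fun x => ¬ Q x) := by
    intro x hx
    rw [mem_union, mem_filter, mem_filter]
    rw [mem_filter] at hx
    by_cases hp : P x
    · right
      exact ⟨hx.1, fun hq => hx.2 ⟨hp, hq⟩⟩
    · left
      exact ⟨hx.1, hp⟩
  have h1 : ((univ.filter fun x => ¬ (P x ∧ Q x)).card : ℝ) ≤
      ((univ.filter fun x => ¬ P x).card : ℝ) + ((univ.filter fun x => ¬ Q x).card : ℝ) := by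
    have h2 := (card_le_card h).trans (card_union_le _ _)
    exact_mod_cast h2
  linarith

private theorem G2_frac {X : Type} [Fintype X] (P : X → Prop) (d d' : DecidablePred fun x => ¬ P x)
    {a : ℝ} (ha : 0 < a)
    (h : ((@filter X (fun x => ¬ P x) d univ).card : ℝ) * a ≤ (Fintype.card X : ℝ)) :
    ((@filter X (fun x => ¬ P x) d' univ).card : ℝ) ≤ 1 / a * (Fintype.card X : ℝ) := by
  have h1 : @filter X (fun x => ¬ P x) d' univ = @filter X (fun x => ¬ P x) d univ := by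
    ext x
    simp only [mem_filter]
  rw [h1, one_div, inv_mul_eq_div, le_div_iff₀ ha]
  exact h

open scoped Classical in
private theorem G2_main {X Y : Type} [Fintype X] [Fintype Y] (P : X × Y → Prop) (A C : X → Prop)
    (dA : DecidablePred fun x => ¬ A x) (dC : DecidablePred fun x => ¬ C x)
    (hA : (@filter X (fun x => ¬ A x) dA univ).card * 8 ≤ Fintype.card X)
    (hC : (@filter X (fun x => ¬ C x) dC univ).card * 16 ≤ Fintype.card X)
    (h2 : ∀ x, A x → C x →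
      ((univ.filter fun y => ¬ P (x, y)).card : ℝ) ≤ 3 / 16 * (Fintype.card Y : ℝ)) :
    ((univ.filter fun z => ¬ P z).card : ℝ) ≤ 3 / 8 * (Fintype.card (X × Y) : ℝ) := by
  obtain ⟨G, hG⟩ : ∃ G : X → Prop, ∀ x, G x ↔ (A x ∧ C x) := ⟨fun x => A x ∧ C x, fun x => Iff.rfl⟩
  have h1 : ((univ.filter fun x => ¬ G x).card : ℝ) ≤ 3 / 16 * (Fintype.card X : ℝ) := by
    have h := G2_or A C (c := (Fintype.card X : ℝ))
      (G2_frac A dA _ (by norm_num) (by exact_mod_cast hA))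
      (G2_frac C dC _ (by norm_num) (by exact_mod_cast hC))
    have h3 : (univ.filter fun x => ¬ G x) = (univ.filter fun x => ¬ (A x ∧ C x)) := by
      ext x
      simp only [mem_filter, hG x]
    rw [h3]
    exact h
  have hS := stage P G (β := 3 / 16) (by norm_num) h1 (fun x hx => h2 x ((hG x).1 hx).1 ((hG x).1 hx).2)
  rw [Fintype.card_prod]
  push_cast
  refine hS.trans (le_of_eq ?_)
  ring

open scoped Classical in
/-- Second stage. PROOF. `ex_e` for `N = #Lv W r t`, `m' = #Fr r` (`N ≤ 2 ^ m'`): `2 ^ e ≤ 32 * 2 ^ m' / N ≤ 32 * 2 ^ m / g ^ m ≤ 32 * g ^ m ≤ B`, `2 ^ e ≤ 32 * 2 ^ n ≤ 2 ^ kb n`. `stage` with `G ω` = (`#Lv ≤ 2 #Y` and the cost is at most `B`): `Y_lemma` (`1/8`), `cost_Y` (`1/16`); then `stage3`. -/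
theorem stage2 {W : Matrix (Fin n) (Fin n) ℤ} {k : ℕ} {ω' : Sds n k} (hG : Good W k ω') {s r : Vc n}
    {p t : ℤ} {q M : ℝ} {B : ℕ} (H : Gs W k s p M B r t q) :
    ((univ.filter fun z : Fm n × Mx n × Sh n => ¬ St2 W ω' s p B r t z.1 z.2.1 z.2.2).card : ℝ) ≤
      3 / 8 * Fintype.card (Fm n × Mx n × Sh n) := by
  have hg1 : 1 ≤ γ (k + 1) := γ_one (k + 1)
  have hg2 : 2 ≤ γ (k + 1) ^ 2 := two_le_γ_sq k
  have hgm : 1 ≤ γ (k + 1) ^ (Fr s).card := one_le_pow₀ hg1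
  have hm' : (Fr r).card ≤ (Fr s).card := card_le_card (Fr_Res H.h)
  have hN1 : 1 ≤ (Lv W r t).card := by
    have h : (1 : ℝ) ≤ ((Lv W r t).card : ℝ) := hgm.trans H.hN
    exact_mod_cast h
  have hN2 : (Lv W r t).card ≤ 2 ^ (Fr r).card := by
    rw [← card_S r]
    exact card_le_card (filter_subset _ _)
  obtain ⟨e, he1, he2⟩ := ex_e hN1 hN2
  have h2m : (2 : ℝ) ^ (Fr s).card ≤ γ (k + 1) ^ (Fr s).card * γ (k + 1) ^ (Fr s).card := by
    rw [← mul_pow, ← sq]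
    exact pow_le_pow_left₀ (by norm_num) hg2 _
  have hN0 : (0 : ℝ) < ((Lv W r t).card : ℝ) := by exact_mod_cast hN1
  have heB : 2 ^ e ≤ B := by
    have h1 : (2 : ℝ) ^ e * ((Lv W r t).card : ℝ) ≤ 32 * 2 ^ (Fr r).card := by exact_mod_cast he2
    have h2 : (2 : ℝ) ^ (Fr r).card ≤ 2 ^ (Fr s).card := pow_le_pow_right₀ (by norm_num) hm'
    have h3 : (2 : ℝ) ^ (Fr s).card ≤ γ (k + 1) ^ (Fr s).card * ((Lv W r t).card : ℝ) :=
      h2m.trans (mul_le_mul_of_nonneg_left H.hN (by linarith))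
    have h4 : (2 : ℝ) ^ e * ((Lv W r t).card : ℝ) ≤
        (32 * γ (k + 1) ^ (Fr s).card) * ((Lv W r t).card : ℝ) := by nlinarith
    have h5 : (2 : ℝ) ^ e ≤ 32 * γ (k + 1) ^ (Fr s).card := le_of_mul_le_mul_right h4 hN0
    have h6 : (32 : ℝ) ≤ (pl n (k + 1) : ℝ) := by exact_mod_cast G2_pl32 n k
    have h7 : (2 : ℝ) ^ e ≤ (B : ℝ) := by
      have h8 : 32 * γ (k + 1) ^ (Fr s).card ≤ (pl n (k + 1) : ℝ) * M :=
        mul_le_mul h6 H.hγ (by linarith) (by linarith)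
      exact (h5.trans h8).trans H.hB
    exact_mod_cast h7
  have hek : 2 ^ e ≤ 2 ^ kb n := by
    have h1 : 2 ^ e ≤ 32 * 2 ^ (Fr r).card := by
      calc 2 ^ e = 2 ^ e * 1 := (mul_one _).symm
        _ ≤ 2 ^ e * (Lv W r t).card := Nat.mul_le_mul_left _ hN1
        _ ≤ _ := he2
    have h2 : (Fr r).card ≤ n := by
      have h := card_le_univ (Fr r)
      rwa [Fintype.card_fin] at h
    calc 2 ^ e ≤ 2 ^ 5 * 2 ^ (Fr r).card := h1
      _ = 2 ^ (5 + (Fr r).card) := (pow_add _ _ _).symm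
      _ ≤ 2 ^ kb n := Nat.pow_le_pow_right (by norm_num) (by unfold kb; omega)
  have hA := Y_lemma (W := W) (r := r) (t := t) hek he1
  have hpl0 : (0 : ℝ) ≤ (pl n (k + 1) : ℝ) := Nat.cast_nonneg _
  have hBB : (pl n (k + 1) : ℝ) * γ (k + 1) ^ (Fr s).card ≤ (B : ℝ) := by
    have h1 : (pl n (k + 1) : ℝ) * γ (k + 1) ^ (Fr s).card ≤ (pl n (k + 1) : ℝ) * M :=
      mul_le_mul_of_nonneg_left H.hγ hpl0
    exact h1.trans H.hB
  have hC := cost_Y (B := B) hG (St_Res H.hs H.h) H.hq hm' H.hN H.hN' H.hT he2 hBB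
  exact G2_main (fun z : Fm n × Mx n × Sh n => St2 W ω' s p B r t z.1 z.2.1 z.2.2)
    (fun ω : Fm n => (Lv W r t).card ≤ 2 * (Yl W r t ω (2 ^ e)).card)
    (fun ω : Fm n => ∑ κ ∈ range (2 ^ e), cD W (Ok W k ω') r t (Dk r ω κ) ≤ B) _ _ hA hC
    (fun ω ha hc => stage3 hG H ω heB ha hc)

end Pool.Agent.MPa9445a.GL
end

section

/-! A round. -/

set_option autoImplicit false

open Finset

namespace Pool.Agent.MPa9445a.GL

open Pool.Agent.MPa9445a.SN (Fm rs kb)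

variable {n : ℕ}

private theorem G3_pl_pos (n k : ℕ) : 1 ≤ pl n k := by
  induction k with
  | zero => simp [pl]
  | succ k ih =>
    have h1 : 1 ≤ (n + 2) ^ 60 := Nat.one_le_pow _ _ (by omega)
    show 1 ≤ 2 ^ 20 * (n + 2) ^ 60 * pl n k
    have : 1 * 1 * 1 ≤ 2 ^ 20 * (n + 2) ^ 60 * pl n k :=
      Nat.mul_le_mul (Nat.mul_le_mul (by norm_num) h1) ih
    simpa using this

private theorem G3_LL (n k : ℕ) : LL n ≤ pl n (k + 1) := by
  have h0 : 1 ≤ pl n k := G3_pl_pos n k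
  have h1 : n ^ 4 ≤ (n + 2) ^ 60 :=
    le_trans (Nat.pow_le_pow_left (by omega) 4) (Nat.pow_le_pow_right (by omega) (by norm_num))
  have h2 : 1 ≤ (n + 2) ^ 60 := Nat.one_le_pow _ _ (by omega)
  show 2 * n ^ 4 + 1 ≤ 2 ^ 20 * (n + 2) ^ 60 * pl n k
  have h3 : 2 ^ 20 * (n + 2) ^ 60 * 1 ≤ 2 ^ 20 * (n + 2) ^ 60 * pl n k := Nat.mul_le_mul_left _ h0
  have h4 : 2 * n ^ 4 + 1 ≤ 2 ^ 20 * (n + 2) ^ 60 := by
    generalize (n + 2) ^ 60 = z at *
    generalize n ^ 4 = y at *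
    norm_num
    omega
  omega

private theorem G3_64 (n k : ℕ) : 64 ≤ pl n (k + 1) := by
  have h0 : 1 ≤ pl n k := G3_pl_pos n k
  have h2 : 1 ≤ (n + 2) ^ 60 := Nat.one_le_pow _ _ (by omega)
  show 64 ≤ 2 ^ 20 * (n + 2) ^ 60 * pl n k
  have : 64 * 1 * 1 ≤ 2 ^ 20 * (n + 2) ^ 60 * pl n k :=
    Nat.mul_le_mul (Nat.mul_le_mul (by norm_num) h2) h0
  simpa using this

open scoped Classical in
/-- A round fails with probability at most `1/2`. PROOF. `g = γ (k + 1)`, `m = #Fr s`, `G = g ^ m`, `M = max G (T s p q₀)`. `LL n * G ≤ pl n (k + 1) * M ≤ B < 2 ^ m`: `choice` gives `q, t`; `(p + t) % 2 = 0` by `hP` and `parity` (some `x ∈ Lv W s t`). `prefix_lemma`: `𝒢 = Gd W s t q G`. `ex_J` for `N = #Lv W s t`: `J ≤ 64 * 2 ^ m / g ^ m ≤ 64 g ^ m ≤ B`,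
`J ≤ 64 * 2 ^ n ≤ 2 ^ kb n`. `stage` with `G ω₁` = (there is `κ < J` with `xk s ω₁ κ ∈ 𝒢` and fewer than `Y0` earlier samples of value `t`) (`sample`: `1/8`). For a good `ω₁` take `i` from `Gd`, `r = pre s (xk s ω₁ κ) i` (`Res_pre`, `vc_mem`) and use `stage2`: `St2` gives `Suc` with the attempt `⟨t, κ, i, e, j⟩`. -/
theorem round {W : Matrix (Fin n) (Fin n) ℤ} (hW : Wb W) {k : ℕ} {ω' : Sds n k}
    (hG : Good W k ω') {s : Vc n} (hs : St s) {p : ℤ} (hP : Par W s p) {B : ℕ} {q₀ : ℝ}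
    (hq₀ : 1 ≤ q₀) (hB : (pl n (k + 1) : ℝ) * max (γ (k + 1) ^ (Fr s).card) (T W s p q₀) ≤ B)
    (hm : B < 2 ^ (Fr s).card) :
    2 * (univ.filter fun ω : Rd n => ¬ ∃ a, Suc W (Ok W k ω') s p B ω a).card ≤
      Fintype.card (Rd n) := by
  set g : ℝ := γ (k + 1) with hg
  set m : ℕ := (Fr s).card with hmdef
  set G : ℝ := g ^ m with hGdef
  set M : ℝ := max G (T W s p q₀) with hM
  have hg1 : 1 ≤ g := γ_one (k + 1)
  have hG1 : 1 ≤ G := one_le_pow₀ hg1
  have hGM : G ≤ M := le_max_left _ _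
  have hM1 : 1 ≤ M := le_trans hG1 hGM
  have hLLpl : (LL n : ℝ) ≤ (pl n (k + 1) : ℝ) := by exact_mod_cast G3_LL n k
  have h64pl : (64 : ℝ) ≤ (pl n (k + 1) : ℝ) := by exact_mod_cast G3_64 n k
  have hBm : (B : ℝ) < 2 ^ m := by exact_mod_cast hm
  have hP0 : (0 : ℝ) ≤ (pl n (k + 1) : ℝ) := Nat.cast_nonneg _
  have hL : LL n * G ≤ 2 ^ m := by
    have h1 : LL n * G ≤ (pl n (k + 1) : ℝ) * M :=
      mul_le_mul hLLpl hGM (by linarith) hP0
    linarith
  obtain ⟨q, t, hq, ht, hN, hT, hTp⟩ := choice hW hs hG1 hL p hq₀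
  set N : ℕ := (Lv W s t).card with hNdef
  have hN1 : 1 ≤ N := by
    have : (1 : ℝ) ≤ N := le_trans hG1 hN
    exact_mod_cast this
  have hpar : (p + t) % 2 = 0 := by
    obtain ⟨x, hx⟩ := Finset.card_pos.1 (show 0 < (Lv W s t).card from hN1)
    have hx' := Finset.mem_filter.1 hx
    have h1 := parity W hx'.1 (vc_mem s ∅)
    have h2 : (p + Ph W (vc s ∅)) % 2 = 0 := hP
    rw [hx'.2] at h1
    omega
  have hpre := prefix_lemma (W := W) (s := s) (t := t) hq hG1 hN hT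
  have hNm : N ≤ 2 ^ m := Lv_le_S W s t
  obtain ⟨J, hJ32, hJ64⟩ := ex_J hN1 hNm
  have hmn : m ≤ n := by
    have := Finset.card_le_univ (Fr s)
    simpa using this
  have hJkb : J ≤ 2 ^ kb n := by
    have h1 : J ≤ J * N := Nat.le_mul_of_pos_right _ hN1
    have h2 : 2 ^ m ≤ 2 ^ n := Nat.pow_le_pow_right (by norm_num) hmn
    have h3 : 64 * 2 ^ n = 2 ^ (n + 6) := by rw [pow_add]; norm_num; ring
    have h4 : 2 ^ (n + 6) ≤ 2 ^ kb n := Nat.pow_le_pow_right (by norm_num) (by unfold kb; omega)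
    calc J ≤ J * N := h1
      _ ≤ 64 * 2 ^ m := hJ64
      _ ≤ 64 * 2 ^ n := Nat.mul_le_mul_left _ h2
      _ = 2 ^ (n + 6) := h3
      _ ≤ 2 ^ kb n := h4
  have hJB : J ≤ B := by
    have h1 : (2 : ℝ) ^ m ≤ G * G := by
      have h2 : (2 : ℝ) ≤ g ^ 2 := two_le_γ_sq k
      calc (2 : ℝ) ^ m ≤ (g ^ 2) ^ m := pow_le_pow_left₀ (by norm_num) h2 m
        _ = G * G := by rw [hGdef, ← pow_mul, ← pow_add]; congr 1; ring
    have h2 : (J : ℝ) * N ≤ 64 * 2 ^ m := by exact_mod_cast hJ64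
    have h3 : (J : ℝ) * G ≤ 64 * G * G := by
      have : (J : ℝ) * G ≤ J * N := mul_le_mul_of_nonneg_left hN (Nat.cast_nonneg _)
      nlinarith
    have h4 : (J : ℝ) ≤ 64 * G := le_of_mul_le_mul_right h3 (by linarith)
    have h5 : (64 : ℝ) * G ≤ (pl n (k + 1) : ℝ) * M :=
      mul_le_mul h64pl hGM (by linarith) hP0
    have h6 : (J : ℝ) ≤ B := by linarith
    exact_mod_cast h6
  have hsub : Gd W s t q G ⊆ Lv W s t := by
    intro x hx
    unfold Gd at hx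
    exact (Finset.mem_filter.1 hx).1
  have hsam := sample (W := W) (s := s) (t := t) hsub hpre hJkb hJ32 hJ64
  have hst := stage (X := Fm n) (Y := Fm n × Mx n × Sh n)
    (fun z => ∃ a, Suc W (Ok W k ω') s p B z a)
    (fun ω₁ => ∃ κ < J, xk s ω₁ κ ∈ Gd W s t q G ∧
      ((range κ).filter fun κ' => Ph W (xk s ω₁ κ') = t).card < Y0)
    (α := 1 / 8) (β := 3 / 8) (by norm_num) ?_ ?_
  · have hcard : Fintype.card (Rd n) = Fintype.card (Fm n) * Fintype.card (Fm n × Mx n × Sh n) :=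
      Fintype.card_prod _ _
    rw [hcard]
    have h1 : (2 : ℝ) * ((univ.filter fun ω : Rd n => ¬ ∃ a, Suc W (Ok W k ω') s p B ω a).card : ℝ)
        ≤ (Fintype.card (Fm n) : ℝ) * (Fintype.card (Fm n × Mx n × Sh n) : ℝ) := by
      have h2 := hst
      have h3 : (1 / 8 + 3 / 8 : ℝ) = 1 / 2 := by norm_num
      rw [h3] at h2
      have h4 : ((univ.filter fun ω : Rd n => ¬ ∃ a, Suc W (Ok W k ω') s p B ω a).card : ℝ) ≤
          1 / 2 * (Fintype.card (Fm n) * Fintype.card (Fm n × Mx n × Sh n)) := h2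
      linarith
    exact_mod_cast h1
  · have h1 : ((univ.filter fun ω₁ : Fm n => ¬ ∃ κ < J, xk s ω₁ κ ∈ Gd W s t q G ∧
      ((range κ).filter fun κ' => Ph W (xk s ω₁ κ') = t).card < Y0).card : ℝ) * 8 ≤
        Fintype.card (Fm n) := by
      exact_mod_cast (by convert hsam)
    have h2 : ((univ.filter fun ω₁ : Fm n => ¬ ∃ κ < J, xk s ω₁ κ ∈ Gd W s t q G ∧
      ((range κ).filter fun κ' => Ph W (xk s ω₁ κ') = t).card < Y0).card : ℝ) ≤
        1 / 8 * Fintype.card (Fm n) := by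
      linarith
    convert h2
  · rintro ω₁ ⟨κ, hκJ, hκG, hκY⟩
    have hxG := hκG
    unfold Gd at hxG
    obtain ⟨hxL, i, hi, hi1, hi2, hi3⟩ := Finset.mem_filter.1 hxG
    have hxt : Ph W (xk s ω₁ κ) = t := (Finset.mem_filter.1 hxL).2
    have hGs : Gs W k s p M B (pre s (xk s ω₁ κ) i) t q :=
      { hW := hW
        hs := hs
        h := Res_pre (vc_mem s _) i
        hq := hq
        hp := hpar
        hN := hi1
        hN' := hi2
        hT := hi3
        hM := hTp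
        hγ := hGM
        hB := hB }
    have h2 := stage2 hG hGs
    refine le_trans ?_ h2
    have h3 : (univ.filter fun y : Fm n × Mx n × Sh n =>
        ¬ ∃ a, Suc W (Ok W k ω') s p B (ω₁, y) a) ⊆
        (univ.filter fun z : Fm n × Mx n × Sh n =>
          ¬ St2 W ω' s p B (pre s (xk s ω₁ κ) i) t z.1 z.2.1 z.2.2) := by
      intro y hy
      rw [Finset.mem_filter] at hy ⊢
      refine ⟨Finset.mem_univ _, fun hSt => hy.2 ?_⟩
      obtain ⟨e, j, he, hj, hj1, hj2, hcY, hcov, hcH⟩ := hSt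
      exact ⟨⟨t, κ, i, e, j⟩,
        { ht := ht
          hκ := lt_of_lt_of_le hκJ hJB
          hx := hxt
          hY0 := hκY
          hi' := hi
          he := he
          cY := hcY
          hj := hj
          hj1 := hj1
          hj2 := hj2
          cov := hcov
          par := hpar
          cH := hcH }⟩
    exact_mod_cast Finset.card_le_card h3

end Pool.Agent.MPa9445a.GL
end

section

/-! The counts and the enumeration of the solutions. -/

set_option autoImplicit false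

open Finset
open scoped symmDiff

namespace Pool.Agent.MPa9445a.SN

open Pool.Agent.MPa9445a.BE

variable {n : ℕ}

/-- PROOF. `code_lt`. -/
theorem cmp_lt (e : ℕ) (A₁ A₂ : List ℤ) (y d u z : ℕ) : cmp n e A₁ A₂ y d u z < 2 ^ n :=
  code_lt n _

/-- PROOF. The vector `lin 1 vu 1 vv` has entries `1, -1` (`vu_supp`, `vv_supp`), so `vec_code`, `fv_vec`: the digit `v` of its code is `1` iff the entry is `1`. -/
theorem ST_cmp (e : ℕ) (A₁ A₂ : List ℤ) (y d u z : ℕ) :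
    ST n (cmp n e A₁ A₂ y d u z) = P1 n (vu n d u) ∪ P1 n (vv n e A₁ A₂ y d z) := by
  have hx : ∀ v : Fin n, fv n (lin n 1 (vu n d u) 1 (vv n e A₁ A₂ y d z)) v =
      fv n (vu n d u) v + fv n (vv n e A₁ A₂ y d z) v := by
    intro v
    rw [fv_lin]
    ring
  have hpm : ∀ v : Fin n, fv n (lin n 1 (vu n d u) 1 (vv n e A₁ A₂ y d z)) v = 1 ∨
      fv n (lin n 1 (vu n d u) 1 (vv n e A₁ A₂ y d z)) v = -1 := by
    intro v
    rw [hx v]
    obtain ⟨h1, h2⟩ := vu_supp (n := n) d u v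
    obtain ⟨h3, h4⟩ := vv_supp (n := n) e A₁ A₂ y d z v
    by_cases hv : v ∈ ST n d
    · have h5 : v ∉ (ST n d)ᶜ := by simpa using hv
      rw [h4 h5, add_zero]
      exact h1 hv
    · have h5 : v ∈ (ST n d)ᶜ := by simpa using hv
      rw [h2 hv, zero_add]
      exact h3 h5
  have hvec := vec_code hpm
  ext v
  have hs : fv n (vec n (cmp n e A₁ A₂ y d u z)) v = sgn (ST n (cmp n e A₁ A₂ y d u z)) v :=
    fv_vec _ v
  have h6 : fv n (vec n (cmp n e A₁ A₂ y d u z)) v =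
      fv n (vu n d u) v + fv n (vv n e A₁ A₂ y d z) v := by
    rw [← hx v]
    exact congrFun hvec v
  rw [hs] at h6
  obtain ⟨h1, h2⟩ := vu_supp (n := n) d u v
  obtain ⟨h3, h4⟩ := vv_supp (n := n) e A₁ A₂ y d z v
  rw [mem_union, P1, P1, mem_filter, mem_filter]
  unfold sgn at h6
  by_cases hv : v ∈ ST n d
  · have h5 : v ∉ (ST n d)ᶜ := by simpa using hv
    rw [h4 h5, add_zero] at h6
    rw [h4 h5, ← h6]
    by_cases hc : v ∈ ST n (cmp n e A₁ A₂ y d u z)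
    · simp [hc]
    · simp [hc]
  · have h5 : v ∈ (ST n d)ᶜ := by simpa using hv
    rw [h2 hv, zero_add] at h6
    rw [h2 hv, ← h6]
    by_cases hc : v ∈ ST n (cmp n e A₁ A₂ y d u z)
    · simp [hc]
    · simp [hc]

/-- PROOF. `Phi_supp`, `vu_supp`, `vv_supp`, `frm_congr`: with `X = P1 (vu u) ∪ P1 (vv z)` the two values are `frm W D X` and `frm W Dᶜ X`. -/
theorem Phi_cmp (M : List ℤ) (e : ℕ) (A₁ A₂ : List ℤ) (y d u z : ℕ) :
    Phi n M (vu n d u) = frm (wtm n M) (ST n d) (P1 n (vu n d u) ∪ P1 n (vv n e A₁ A₂ y d z)) ∧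
    Phi n M (vv n e A₁ A₂ y d z) =
      frm (wtm n M) (ST n d)ᶜ (P1 n (vu n d u) ∪ P1 n (vv n e A₁ A₂ y d z)) := by
  constructor
  · rw [Phi_supp M (fun v => vu_supp (n := n) d u v)]
    apply frm_congr
    intro v hv
    have h5 : v ∉ (ST n d)ᶜ := by simpa using hv
    have h6 := (vv_supp (n := n) e A₁ A₂ y d z v).2 h5
    rw [mem_union, P1, P1, mem_filter, mem_filter, h6]
    simp
  · rw [Phi_supp M (fun v => vv_supp (n := n) e A₁ A₂ y d z v)]
    apply frm_congr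
    intro v hv
    have h5 : v ∉ ST n d := by simpa using hv
    have h6 := (vu_supp (n := n) d u v).2 h5
    rw [mem_union, P1, P1, mem_filter, mem_filter, h6]
    simp

end Pool.Agent.MPa9445a.SN
end
end

section

section

/-! The counts and the enumeration of the solutions. -/

set_option autoImplicit false

open Finset
open scoped symmDiff

namespace Pool.Agent.MPa9445a.SN

open Pool.Agent.MPa9445a.BE

variable {n : ℕ}

private theorem C5b_U (M : List ℤ) (d e : ℕ) (α : ℤ) (i : ℕ) (hi : i < (Ul n M e d α).length) :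
    (gt (Ul n M e d α) i).toNat < 2 ^ e ∧ Phi n M (vu n d (gt (Ul n M e d α) i).toNat) = α := by
  unfold Ul at hi ⊢
  have h := flt_gt _ hi
  exact ⟨h.1, h.2.1⟩

private theorem C5b_Ui (M : List ℤ) (d e : ℕ) (α : ℤ) (i i' : ℕ) (hi : i < (Ul n M e d α).length) (hi' : i' < (Ul n M e d α).length)
    (h : (gt (Ul n M e d α) i).toNat = (gt (Ul n M e d α) i').toNat) : i = i' := by
  unfold Ul at hi hi' h
  exact flt_inj _ hi hi' h

private theorem C5b_V (M : List ℤ) (e : ℕ) (A₁ A₂ : List ℤ) (y d : ℕ) (β : ℤ) (j : ℕ) (hj : j < (Vl n M e A₁ A₂ y d β).length) :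
    (gt (Vl n M e A₁ A₂ y d β) j).toNat < A₁.length * A₂.length ∧
      Phi n M (vv n e A₁ A₂ y d (gt (Vl n M e A₁ A₂ y d β) j).toNat) = β := by
  unfold Vl at hj ⊢
  have h := flt_gt _ hj
  exact ⟨h.1, h.2.1⟩

private theorem C5b_Vi (M : List ℤ) (e : ℕ) (A₁ A₂ : List ℤ) (y d : ℕ) (β : ℤ) (j j' : ℕ) (hj : j < (Vl n M e A₁ A₂ y d β).length)
    (hj' : j' < (Vl n M e A₁ A₂ y d β).length)
    (h : (gt (Vl n M e A₁ A₂ y d β) j).toNat = (gt (Vl n M e A₁ A₂ y d β) j').toNat) : j = j' := by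
  unfold Vl at hj hj' h
  exact flt_inj _ hj hj' h

/-- The counts are bounded by the number of solutions. PROOF. With `D = ST n d`, `e = |D|`: `cnt` is the number of the tuples `(a, b, i, j)`, `θ ≤ 2 (lv a + lv b)`, `i < |Ul a|`, `j < |Vl b|`. The map to
`X = P1 (vu u) ∪ P1 (vv z)` with `u = (Ul a) i`, `z = (Vl b) j` (`flt_gt`) is injective: `X ∩ D = P1 (vu u)` gives `u` (`vu_inj`), `a` (`lv n a = Phi (vu u)`) and `i` (`flt_inj`); `X \ D = P1 (vv z)` gives `z` (`vv_inj`), `b`, `j`.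
By `Phi_cmp` `X ∈ PD`. -/
theorem cnt_le (M : List ℤ) (w₁ w₂ y d : ℕ) (θ : ℤ) :
    cnt n M (ST n d).card (B1 n (ST n d).card w₁) (B2 n (ST n d).card w₂) y d θ ≤
      (PD (wtm n M) θ (ST n d)).card := by
  have hsu : ∀ u, P1 n (vu n d u) ⊆ ST n d := by
    intro u v hv
    by_contra hc
    have h1 := (vu_supp d u v).2 hc
    unfold P1 at hv
    rw [mem_filter, h1] at hv
    exact absurd hv.2 (by norm_num)
  have hsv : ∀ z, Disjoint (P1 n (vv n (ST n d).card (B1 n (ST n d).card w₁) (B2 n (ST n d).card w₂) y d z)) (ST n d) := by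
    intro z
    rw [Finset.disjoint_left]
    intro v hv hc
    have h1 := (vv_supp (ST n d).card (B1 n (ST n d).card w₁) (B2 n (ST n d).card w₂) y d z v).2
      (by rw [mem_compl, not_not]; exact hc)
    unfold P1 at hv
    rw [mem_filter, h1] at hv
    exact absurd hv.2 (by norm_num)
  let UU : ℕ → List ℤ := fun a => Ul n M (ST n d).card d (lv n a)
  let VV : ℕ → List ℤ := fun b => Vl n M (ST n d).card (B1 n (ST n d).card w₁) (B2 n (ST n d).card w₂) y d (lv n b)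
  obtain ⟨T, hTd⟩ : ∃ T : Finset (Σ _ : ℕ × ℕ, ℕ × ℕ), T = (range (PP n) ×ˢ range (PP n)).sigma
    (fun ab => if θ ≤ 2 * (lv n ab.1 + lv n ab.2) then range (UU ab.1).length ×ˢ range (VV ab.2).length else ∅) := ⟨_, rfl⟩
  have hT : cnt n M (ST n d).card (B1 n (ST n d).card w₁) (B2 n (ST n d).card w₂) y d θ = T.card := by
    rw [hTd, Finset.card_sigma, Finset.sum_product]
    unfold cnt
    refine Finset.sum_congr rfl fun a _ => Finset.sum_congr rfl fun b _ => ?_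
    show _ = (if θ ≤ 2 * (lv n a + lv n b) then range (UU a).length ×ˢ range (VV b).length else ∅ : Finset (ℕ × ℕ)).card
    split_ifs
    · rw [Finset.card_product, Finset.card_range, Finset.card_range]
    · rfl
  let F : (Σ _ : ℕ × ℕ, ℕ × ℕ) → Finset (Fin n) := fun t =>
    P1 n (vu n d (gt (UU t.1.1) t.2.1).toNat) ∪
      P1 n (vv n (ST n d).card (B1 n (ST n d).card w₁) (B2 n (ST n d).card w₂) y d (gt (VV t.1.2) t.2.2).toNat)
  have hmem : ∀ t ∈ T, θ ≤ 2 * (lv n t.1.1 + lv n t.1.2) ∧ t.2.1 < (UU t.1.1).length ∧ t.2.2 < (VV t.1.2).length := by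
    intro t ht
    rw [hTd, Finset.mem_sigma] at ht
    have h1 := ht.2
    by_cases hc : θ ≤ 2 * (lv n t.1.1 + lv n t.1.2)
    · simp only [if_pos hc] at h1
      rw [Finset.mem_product, Finset.mem_range, Finset.mem_range] at h1
      exact ⟨hc, h1.1, h1.2⟩
    · simp only [if_neg hc] at h1
      exact absurd h1 (Finset.notMem_empty _)
  have hU : ∀ a i, i < (UU a).length → (gt (UU a) i).toNat < 2 ^ (ST n d).card ∧
      Phi n M (vu n d (gt (UU a) i).toNat) = lv n a := by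
    intro a i hi
    exact C5b_U M d (ST n d).card (lv n a) i hi
  have hV : ∀ b j, j < (VV b).length → (gt (VV b) j).toNat < (B1 n (ST n d).card w₁).length * (B2 n (ST n d).card w₂).length ∧
      Phi n M (vv n (ST n d).card (B1 n (ST n d).card w₁) (B2 n (ST n d).card w₂) y d (gt (VV b) j).toNat) = lv n b := by
    intro b j hj
    exact C5b_V M (ST n d).card _ _ y d (lv n b) j hj
  have hlv : ∀ a b, lv n a = lv n b → a = b := by
    intro a b h
    unfold lv at h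
    omega
  have hcap : ∀ u z, (P1 n (vu n d u) ∪
      P1 n (vv n (ST n d).card (B1 n (ST n d).card w₁) (B2 n (ST n d).card w₂) y d z)) ∩ ST n d = P1 n (vu n d u) := by
    intro u z
    rw [Finset.union_inter_distrib_right, Finset.inter_eq_left.2 (hsu u), Finset.disjoint_iff_inter_eq_empty.1 (hsv z),
      Finset.union_empty]
  have hdif : ∀ u z, (P1 n (vu n d u) ∪
      P1 n (vv n (ST n d).card (B1 n (ST n d).card w₁) (B2 n (ST n d).card w₂) y d z)) \ ST n d =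
        P1 n (vv n (ST n d).card (B1 n (ST n d).card w₁) (B2 n (ST n d).card w₂) y d z) := by
    intro u z
    rw [Finset.union_sdiff_distrib, Finset.sdiff_eq_empty_iff_subset.2 (hsu u), Finset.empty_union,
      Finset.sdiff_eq_self_of_disjoint (hsv z)]
  rw [hT]
  refine Finset.card_le_card_of_injOn F ?_ ?_
  · intro t ht
    obtain ⟨h1, h2, h3⟩ := hmem t ht
    have h4 := (hU _ _ h2).2
    have h5 := (hV _ _ h3).2
    obtain ⟨h6, h7⟩ := Phi_cmp M (ST n d).card (B1 n (ST n d).card w₁) (B2 n (ST n d).card w₂) y d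
      (gt (UU t.1.1) t.2.1).toNat (gt (VV t.1.2) t.2.2).toNat
    rw [h4] at h6
    rw [h5] at h7
    show F t ∈ (PD (wtm n M) θ (ST n d) : Finset (Finset (Fin n)))
    unfold PD
    rw [mem_filter]
    refine ⟨mem_univ _, ?_⟩
    show θ ≤ 2 * (frm (wtm n M) (ST n d) (P1 n (vu n d (gt (UU t.1.1) t.2.1).toNat) ∪
      P1 n (vv n (ST n d).card (B1 n (ST n d).card w₁) (B2 n (ST n d).card w₂) y d (gt (VV t.1.2) t.2.2).toNat)) +
      frm (wtm n M) (ST n d)ᶜ (P1 n (vu n d (gt (UU t.1.1) t.2.1).toNat) ∪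
      P1 n (vv n (ST n d).card (B1 n (ST n d).card w₁) (B2 n (ST n d).card w₂) y d (gt (VV t.1.2) t.2.2).toNat)))
    rw [← h6, ← h7]
    exact h1
  · rintro ⟨⟨a, b⟩, i, j⟩ ht ⟨⟨a', b'⟩, i', j'⟩ ht' he
    obtain ⟨-, h2, h3⟩ := hmem _ ht
    obtain ⟨-, h2', h3'⟩ := hmem _ ht'
    simp only at h2 h3 h2' h3'
    have he' : P1 n (vu n d (gt (UU a) i).toNat) ∪
      P1 n (vv n (ST n d).card (B1 n (ST n d).card w₁) (B2 n (ST n d).card w₂) y d (gt (VV b) j).toNat) =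
      P1 n (vu n d (gt (UU a') i').toNat) ∪
      P1 n (vv n (ST n d).card (B1 n (ST n d).card w₁) (B2 n (ST n d).card w₂) y d (gt (VV b') j').toNat) := he
    have g1 : P1 n (vu n d (gt (UU a) i).toNat) = P1 n (vu n d (gt (UU a') i').toNat) := by
      have h := congrArg (fun X => X ∩ ST n d) he'
      simp only [hcap] at h
      exact h
    have g2 : P1 n (vv n (ST n d).card (B1 n (ST n d).card w₁) (B2 n (ST n d).card w₂) y d (gt (VV b) j).toNat) =
        P1 n (vv n (ST n d).card (B1 n (ST n d).card w₁) (B2 n (ST n d).card w₂) y d (gt (VV b') j').toNat) := by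
      have h := congrArg (fun X => X \ ST n d) he'
      simp only [hdif] at h
      exact h
    have k1 := vu_inj (hU a i h2).1 (hU a' i' h2').1 g1
    have k2 := vv_inj (hV b j h3).1 (hV b' j' h3').1 g2
    have ea : a = a' := by
      apply hlv
      rw [← (hU a i h2).2, ← (hU a' i' h2').2, k1]
    have eb : b = b' := by
      apply hlv
      rw [← (hV b j h3).2, ← (hV b' j' h3').2, k2]
    subst ea
    subst eb
    have ei : i = i' := C5b_Ui M d (ST n d).card (lv n a) i i' h2 h2' k1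
    have ej : j = j' := C5b_Vi M (ST n d).card _ _ y d (lv n b) j j' h3 h3' k2
    subst ei
    subst ej
    rfl

end Pool.Agent.MPa9445a.SN
end

section

/-! The counts and the enumeration of the solutions. -/

set_option autoImplicit false

open Finset
open scoped symmDiff

namespace Pool.Agent.MPa9445a.SN

open Pool.Agent.MPa9445a.BE

variable {n : ℕ}

/-- PROOF. `IsSc.mx`, `cmp_lt`. -/
theorem en_isSc (M : List ℤ) (e : ℕ) (A₁ A₂ : List ℤ) (y d : ℕ) (θ : ℤ) :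
    IsSc n M (en n M e A₁ A₂ y d θ) := by
  unfold en
  refine IsSc.mx fun a _ => IsSc.mx fun b _ => ?_
  split_ifs
  · exact IsSc.mx fun i _ => IsSc.mx fun j _ => Or.inr ⟨_, cmp_lt _ _ _ _ _ _ _, rfl⟩
  · exact Or.inl rfl

private theorem C5c_lv {α : ℤ} (h : |α| ≤ (n : ℤ) ^ 4) : ∃ a < PP n, lv n a = α := by
  have h1 := abs_le.1 h
  have h2 : (0 : ℤ) ≤ (n : ℤ) ^ 4 := by positivity
  have h3 : (n : ℤ) ^ 4 ≤ ((n : ℤ) + 1) ^ 4 := by
    have h4 : (0 : ℤ) ≤ n := Int.natCast_nonneg n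
    exact pow_le_pow_left₀ h4 (by omega) 4
  have h5 : (((α + 2 * (n : ℤ) ^ 4).toNat : ℕ) : ℤ) = α + 2 * (n : ℤ) ^ 4 :=
    Int.toNat_of_nonneg (by linarith [h1.1])
  refine ⟨(α + 2 * (n : ℤ) ^ 4).toNat, ?_, ?_⟩
  · have h6 : (((α + 2 * (n : ℤ) ^ 4).toNat : ℕ) : ℤ) < ((PP n : ℕ) : ℤ) := by
      rw [h5]
      unfold PP
      push_cast
      have h7 : (1 : ℤ) ≤ ((n : ℤ) + 1) ^ 4 := by
        have h4 : (0 : ℤ) ≤ n := Int.natCast_nonneg n
        exact one_le_pow₀ (by omega)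
      linarith [h1.2]
    exact_mod_cast h6
  · unfold lv
    rw [h5]
    ring

/-- A solution is found. PROOF. `D = ST n d`, `X = ST n c`. `vu_surj`: `u < 2^|D|` with `P1 (vu u) = X ∩ D`. Let `α = frm W D X = Phi (vu u)`, `β = frm W Dᶜ X = Phi (vv z)` (`frm_congr`); `|α|, |β| ≤ n^4` (`frm_abs`, `wtm_abs`) so `α = lv a`,
`β = lv b` with `a, b < PP n`. `θ ≤ 2 (α + β)` as `X ∈ PD`. `flt_pos` gives the positions `i`, `j`; `le_mx` four times; `cmp = c` by `ST_cmp`, `cmp_lt`, `ST_inj`. -/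
theorem en_ge {G : SimpleGraph (Fin n)} {M : List ℤ} (hA : fm n M = adjZ G) {w₁ w₂ y d z c : ℕ}
    {θ : ℤ} (hc : c < 2 ^ n) (hX : ST n c ∈ PD (wtm n M) θ (ST n d))
    (hz : z < (B1 n (ST n d).card w₁).length * (B2 n (ST n d).card w₂).length)
    (hv : P1 n (vv n (ST n d).card (B1 n (ST n d).card w₁) (B2 n (ST n d).card w₂) y d z) =
      ST n c \ ST n d) :
    sco n M c ≤ en n M (ST n d).card (B1 n (ST n d).card w₁) (B2 n (ST n d).card w₂) y d θ := by
  obtain ⟨u, hu, hPu⟩ := vu_surj (n := n) d (ST n c)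
  obtain ⟨e, he⟩ : ∃ e, e = (ST n d).card := ⟨_, rfl⟩
  rw [← he] at hz hv hu ⊢
  obtain ⟨A₁, hA1⟩ : ∃ A, A = B1 n e w₁ := ⟨_, rfl⟩
  obtain ⟨A₂, hA2⟩ : ∃ A, A = B2 n e w₂ := ⟨_, rfl⟩
  rw [← hA1, ← hA2] at hz hv ⊢
  have hun : P1 n (vu n d u) ∪ P1 n (vv n e A₁ A₂ y d z) = ST n c := by
    rw [hPu, hv]
    ext v
    simp only [Finset.mem_union, Finset.mem_inter, Finset.mem_sdiff]
    tauto
  obtain ⟨k1, k2⟩ := Phi_cmp (n := n) M e A₁ A₂ y d u z
  rw [hun] at k1 k2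
  obtain ⟨a, ha, hla⟩ := C5c_lv (frm_abs _ (wtm_abs hA) (ST n d) (ST n c))
  obtain ⟨b, hb, hlb⟩ := C5c_lv (frm_abs _ (wtm_abs hA) (ST n d)ᶜ (ST n c))
  have hθ : θ ≤ 2 * (lv n a + lv n b) := by
    rw [hla, hlb]
    exact (Finset.mem_filter.1 hX).2
  have hcmp : cmp n e A₁ A₂ y d u z = c :=
    ST_inj (cmp_lt _ _ _ _ _ _ _) hc ((ST_cmp e A₁ A₂ y d u z).trans hun)
  obtain ⟨i, hi, _, hgi⟩ := flt_pos (fun u => Phi n M (vu n d u) = lv n a) hu
    (by rw [k1, hla])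
  obtain ⟨j, hj, _, hgj⟩ := flt_pos (fun z => Phi n M (vv n e A₁ A₂ y d z) = lv n b) hz
    (by rw [k2, hlb])
  have hi' : i < (Ul n M e d (lv n a)).length := hi
  have hj' : j < (Vl n M e A₁ A₂ y d (lv n b)).length := hj
  have hgi' : (gt (Ul n M e d (lv n a)) i).toNat = u := by
    have : gt (Ul n M e d (lv n a)) i = u := hgi
    rw [this, Int.toNat_natCast]
  have hgj' : (gt (Vl n M e A₁ A₂ y d (lv n b)) j).toNat = z := by
    have : gt (Vl n M e A₁ A₂ y d (lv n b)) j = z := hgj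
    rw [this, Int.toNat_natCast]
  unfold en
  refine le_trans ?_ (le_mx _ ha)
  refine le_trans ?_ (le_mx _ hb)
  rw [if_pos hθ]
  refine le_trans ?_ (le_mx _ hi')
  refine le_trans ?_ (le_mx _ hj')
  rw [hgi', hgj', hcmp]

end Pool.Agent.MPa9445a.SN
end

section

/-! The main part finds the maximum if the random bits are good. -/

set_option autoImplicit false

open Finset
open scoped symmDiff

namespace Pool.Agent.MPa9445a.SN

open Pool.Agent.MPa9445a.BE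

variable {n : ℕ}

private theorem C6a_dg {P : ℕ} (hP : 0 < P) (N : ℕ) (a : ℕ → ℕ) (h : ∀ t, a t < P) :
    ∃ x < P ^ N, ∀ t < N, x / P ^ t % P = a t := by
  induction N with
  | zero => exact ⟨0, by simp, fun t ht => absurd ht (by omega)⟩
  | succ N ih =>
    obtain ⟨x, hx, hd⟩ := ih
    refine ⟨x + P ^ N * a N, ?_, fun t ht => ?_⟩
    · have h1 := h N
      have h2 : P ^ N * (a N + 1) ≤ P ^ N * P := Nat.mul_le_mul_left _ h1
      rw [pow_succ]
      have h3 : P ^ N * (a N + 1) = P ^ N * a N + P ^ N := by ring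
      omega
    · have hpt : 0 < P ^ t := pow_pos hP t
      rcases Nat.lt_succ_iff_lt_or_eq.1 ht with h1 | h1
      · obtain ⟨s, rfl⟩ : ∃ s, N = t + 1 + s := ⟨N - (t + 1), by omega⟩
        have h2 : P ^ (t + 1 + s) * a (t + 1 + s) = P ^ t * (P * (P ^ s * a (t + 1 + s))) := by
          ring
        rw [h2, Nat.add_mul_div_left _ _ hpt, Nat.add_mul_mod_self_left]
        exact hd t h1
      · rw [h1, Nat.add_mul_div_left _ _ (pow_pos hP N), Nat.div_eq_of_lt hx, zero_add,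
          Nat.mod_eq_of_lt (h N)]

/-- PROOF. `x = ∑ t < 8, a t (PP n)^t`. -/
theorem digits (a : Fin 8 → ℕ) (h : ∀ t, a t < PP n) :
    ∃ x < PP n ^ 8, ∀ t : Fin 8, dg n x t = a t := by
  have hP : 0 < PP n := lt_of_le_of_lt (Nat.zero_le _) (h 0)
  obtain ⟨x, hx, hd⟩ := C6a_dg hP 8 (fun t => if ht : t < 8 then a ⟨t, ht⟩ else 0) (fun t => by
    by_cases ht : t < 8
    · simp only [dif_pos ht]
      exact h _
    · simp only [dif_neg ht]
      exact hP)
  refine ⟨x, hx, fun t => ?_⟩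
  have h1 := hd t t.2
  rw [dif_pos t.2] at h1
  exact h1

/-- PROOF. `IsSc.mx`, `en_isSc`; `0` is a score. -/
theorem main_isSc (M R : List ℤ) (x : ℕ) : IsSc n M (main (inp n M R x)) := by
  unfold main
  refine IsSc.mx fun t _ => ?_
  split_ifs
  · exact en_isSc (n := n) M _ _ _ _ _ _
  · exact Or.inl rfl

/-- PROOF. `IsSc.mx`, `rcd_lt`. -/
theorem smp_isSc (M R : List ℤ) (x : ℕ) : IsSc n M (smp (inp n M R x)) := by
  unfold smp
  refine IsSc.mx fun j _ => ?_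
  exact Or.inr ⟨_, rcd_lt (n := n) _ _ _, rfl⟩

end Pool.Agent.MPa9445a.SN
end
end

section

section

/-! Digits. -/

set_option autoImplicit false

open Finset
open scoped symmDiff

namespace Pool.Agent.MPa9445a.GL

open Pool.Agent.MPa9445a.BE
open Pool.Agent.MPa9445a.SN (ST Fm rs kb)
open Pool.Agent.MPa9445a.GD (dd)

variable {n : ℕ} {M : List ℤ}

private theorem Q7a_aux (B : ℕ) (hB : 0 < B) : ∀ (k : ℕ) (a : Fin k → ℕ), (∀ t, a t < B) →
    ∃ x < B ^ k, ∀ t : Fin k, x / B ^ (t : ℕ) % B = a t := by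
  intro k
  induction k with
  | zero => intro a _; exact ⟨0, by simp, fun t => t.elim0⟩
  | succ k ih =>
    intro a h
    obtain ⟨y, hy, hd⟩ := ih (fun t => a t.succ) (fun t => h _)
    refine ⟨a 0 + B * y, ?_, ?_⟩
    · have h0 := h 0
      have h1 : B * (y + 1) ≤ B * B ^ k := Nat.mul_le_mul_left _ hy
      rw [pow_succ, mul_comm (B ^ k) B]
      rw [Nat.mul_add, mul_one] at h1
      omega
    · intro t
      refine Fin.cases ?_ (fun s => ?_) t
      · simp only [Fin.val_zero, pow_zero, Nat.div_one]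
        rw [Nat.add_mul_mod_self_left, Nat.mod_eq_of_lt (h 0)]
      · rw [← hd s, Fin.val_succ, pow_succ, mul_comm (B ^ (s : ℕ)) B, ← Nat.div_div_eq_div_mul,
          Nat.add_mul_div_left _ _ hB, Nat.div_eq_of_lt (h 0), zero_add]

/-- PROOF. Digits in base `PB n` (`SN/C6a`, `digits`). -/
theorem digits6 (a : Fin 6 → ℕ) (h : ∀ t, a t < PB n) : ∃ x < PB n ^ 6, ∀ t : Fin 6, dg n x t = a t := by
  obtain ⟨x, hx, hd⟩ := Q7a_aux (PB n) (Nat.lt_of_le_of_lt (Nat.zero_le _) (h 0)) 6 a h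
  exact ⟨x, hx, fun t => hd t⟩

end Pool.Agent.MPa9445a.GL
end

section

/-! The main part finds the maximum if the random bits are good. -/

set_option autoImplicit false

open Finset
open scoped symmDiff

namespace Pool.Agent.MPa9445a.SN

open Pool.Agent.MPa9445a.BE

variable {n : ℕ}

private theorem C6b_PP (n : ℕ) : nbk n ≤ PP n ∧ sig n < PP n ∧ 0 < PP n := by
  unfold nbk PP sig
  have h1 : (n + 1) ^ 2 ≤ (n + 1) ^ 4 := Nat.pow_le_pow_right (by omega) (by norm_num)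
  have h2 : n ^ 2 ≤ (n + 1) ^ 2 := Nat.pow_le_pow_left (by omega) 2
  have h3 : n + 1 ≤ (n + 1) ^ 2 := by nlinarith
  refine ⟨by omega, ?_, by omega⟩
  have h4 : 89 * n / 400 ≤ n := by omega
  omega

/-- Case I. PROOF. `digits` for `q`, `g = sig n` (`sig n < PP n`), rest `0`. The sample `j` has `val = ff W (rs ωY j) = ff W X₀` (`val_eq`, `ST_rcd`). `le_mx`. -/
theorem smp_ge {M R : List ℤ} {X₀ : Finset (Fin n)} {q : ℕ} (hq : q < nbk n) {ωY : Fm n}
    (hY : Fam n R (2 * q + 1) ωY) (h : SI (wtm n M) X₀ ωY) :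
    ∃ x < PP n ^ 8, ∃ c < 2 ^ n, val n M c = ff (wtm n M) X₀ ∧
      sco n M c ≤ smp (inp n M R x) := by
  obtain ⟨j, hj, he⟩ := h
  obtain ⟨p1, p2, p3⟩ := C6b_PP n
  obtain ⟨x, hx, hd⟩ := digits (n := n)
    (fun t => if t = 0 then q else if t = 1 then sig n else 0) (fun t => by
      split_ifs
      · exact lt_of_lt_of_le hq p1
      · exact p2
      · exact p3)
  have h0 : dg n x 0 = q := hd 0
  have h1 : dg n x 1 = sig n := hd 1
  refine ⟨x, hx, rcd n R (2 * q + 1) j, rcd_lt _ _ _, ?_, ?_⟩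
  · rw [val_eq, ST_rcd hY, he]
  · have h2 := le_mx (k := Jn n (sig n)) (fun j => sco n M (rcd n R (2 * q + 1) j)) hj
    have h3 : smp (inp n M R x) =
        mx (Jn n (min (dg n x 1) (sig n))) fun j => sco n M (rcd n R (2 * dg n x 0 + 1) j) := rfl
    rw [h3, h0, h1, min_self]
    exact h2

end Pool.Agent.MPa9445a.SN
end
end

section

/-! The inputs of the program. -/

set_option autoImplicit false

open Finset

namespace Pool.Agent.MPa9445a.GL

open Pool.Agent.MPa9445a.BE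

/-- The inputs: number of vertices, adjacency matrix, random bits. -/
abbrev Gi : Type := ℕ × List ℤ × List ℤ

/-- The inputs which are considered for the depth `K`. -/
def Di (K : ℕ) (a : Gi) : Prop := a.2.1.length ≤ a.1 * a.1 ∧ (∀ x ∈ a.2.1, |x| ≤ 1) ∧
  a.2.2.length ≤ Lk a.1 K ∧ ∀ x ∈ a.2.2, |x| ≤ 1

/-- The variables of the program. -/
def envi (a : Gi) : Env [.int, .arr, .arr] := ((a.1 : ℤ), a.2.1, a.2.2, ())

/-- The budget exponent. -/
def be (P Q c₁ n : ℕ) : ℕ := P * n / Q + c₁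

end Pool.Agent.MPa9445a.GL
end
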