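import Pool.Agent.Lib.MP_a9445a_lc.Mg.G135
import Pool.Agent.Lib.MP_a9445a_lc.Mg.G122
import Pool.Agent.Lib.MP_a9445a_lc.Mg.G120
import Pool.Agent.Lib.MP_a9445a_lc.Mg.G133
import Pool.Agent.Lib.MP_a9445a_lc.Mg.G123
import Pool.Agent.Lib.MP_a9445a_lc.Mg.G127
import Pool.Agent.Lib.MP_a9445a_lc.Mg.G115
import Pool.Agent.Lib.MP_a9445a_lc.Mg.G129
import Pool.Agent.Lib.MP_a9445a_lc.SN.Alg2
import Pool.Agent.Lib.MP_a9445a_lc.Mg.G033
import Pool.Agent.Lib.MP_a9445a_lc.Mg.G132

section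

section

/-! An attempt: soundness. -/

set_option autoImplicit false

open Finset
open scoped symmDiff

namespace Pool.Agent.MPa9445a.GL

open Pool.Agent.MPa9445a.BE
open Pool.Agent.MPa9445a.SN (ST Fm rs kb)
open Pool.Agent.MPa9445a.GD (dd)

variable {n : ℕ} {M : List ℤ} {E : Pc}

/-- An attempt which does not fail is right. PROOF. `rL_res`, `mem_YY`, `dd_ZZ`, `mem_HH`, `mem_dd`, `nodup_dd` (`cdv_lt`). -/
theorem att_snd (hE : Snd (wtm n M) E) (hW : Wb (wtm n M)) (R : List ℤ) (o : ℕ) {s : List ℤ}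
    (hs : St (fv n s)) (p : ℤ) (b : ℕ) (a : At) :
    att E n M R o s p b a = [] ∨
      ∃ L, att E n M R o s p b a = 1 :: L ∧ Cpl L (Lv (wtm n M) (fv n s) p) := by
  have hres := rL_res (M := M) R o hs b a
  have hr : St (fv n (rL n M R o s b a)) := St_Res hs hres
  unfold att
  split_ifs with h1 h2 h3 h4
  · exact Or.inl rfl
  · exact Or.inl rfl
  · right
    refine ⟨_, rfl, ?_⟩
    have hY := mem_YY hE hW R o hr h2
    have hYs : Yl (wtm n M) (fv n (rL n M R o s b a)) a.t (fR n R (o + bl n)) (2 ^ a.e) ⊆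
        Lv (wtm n M) (fv n (rL n M R o s b a)) a.t := Finset.filter_subset _ _
    have hYS : Yl (wtm n M) (fv n (rL n M R o s b a)) a.t (fR n R (o + bl n)) (2 ^ a.e) ⊆
        S (fv n s) := (hYs.trans (Finset.filter_subset _ _)).trans (S_Res hres)
    have hc := (dd_ZZ R o h1.2.2.2.1 hYS hY).1 h3
    have hH := mem_HH hE hW R o hs hres h1.2.1 h1.2.2.2.1 hYs hc h4
    refine ⟨GD.nodup_dd fun x hx => ?_, fun c => GD.mem_dd.trans (hH c)⟩
    obtain ⟨y, _, rfl⟩ := (hH x).1 hx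
    exact cdv_lt y
  · exact Or.inl rfl
  · exact Or.inl rfl

end Pool.Agent.MPa9445a.GL
end

section

/-! Soundness of one level. -/

set_option autoImplicit false

open Finset
open scoped symmDiff

namespace Pool.Agent.MPa9445a.GL

open Pool.Agent.MPa9445a.BE
open Pool.Agent.MPa9445a.SN (ST Fm rs kb)
open Pool.Agent.MPa9445a.GD (dd)

variable {n : ℕ} {M : List ℤ}

private theorem Q7b_ST_zero : ST n 0 = ∅ := by
  ext v
  simp [SN.ST, bit]

/-- Soundness is preserved. PROOF. Brute force: `br_cpl`. Wrong parity: `not_Par` (`A2b`; `fv_sv`, `ST n 0 = ∅`), the list `[]`. Otherwise `att_snd`. -/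
theorem nxt_snd (hW : Wb (wtm n M)) (R : List ℤ) {E : Pc}
    (hE : Snd (wtm n M) E) (k : ℕ) : Snd (wtm n M) (nxt E n M R k) := by
  intro s hs p b
  unfold nxt
  by_cases h1 : rk s n ≤ b
  · right
    refine ⟨br n M s p, ?_, br_cpl M s p⟩
    simp [h1]
  · simp only [h1, if_false]
    by_cases h2 : (p + Phi n M (sv n s 0)) % 2 ≠ 0
    · right
      refine ⟨[], ?_, ?_⟩
      · simp [h2]
      · have hST : ST n 0 = ∅ := Q7b_ST_zero
        have hp : ¬ Par (wtm n M) (fv n s) p := by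
          intro h
          apply h2
          rw [Phi_Ph, fv_sv, hST]
          exact h
        rw [not_Par (wtm n M) hp]
        refine ⟨List.nodup_nil, fun c => ?_⟩
        simp
    · simp only [h2, if_false]
      exact att_snd hE hW R _ hs p b _

end Pool.Agent.MPa9445a.GL
end

section

/-! An attempt: completeness. -/

set_option autoImplicit false

open Finset
open scoped symmDiff

namespace Pool.Agent.MPa9445a.GL

open Pool.Agent.MPa9445a.BE
open Pool.Agent.MPa9445a.SN (ST Fm rs kb)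
open Pool.Agent.MPa9445a.GD (dd)

variable {n : ℕ} {M : List ℤ} {E : Pc}

private theorem Q6d_sum (A K : ℕ) (hK : 0 < K) (f : ℕ → ℕ → ℕ) :
    ∑ κ ∈ range (A * K), f (κ / K) (κ % K) = ∑ u ∈ range A, ∑ i ∈ range K, f u i := by
  induction A with
  | zero => simp
  | succ A ih =>
    rw [Nat.succ_mul, Finset.sum_range_add, ih, Finset.sum_range_succ]
    congr 1
    refine Finset.sum_congr rfl fun i hi => ?_
    have hi' := Finset.mem_range.1 hi
    have h1 : (A * K + i) / K = A := by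
      rw [mul_comm, Nat.mul_add_div hK, Nat.div_eq_of_lt hi', add_zero]
    have h2 : (A * K + i) % K = i := by
      rw [mul_comm, Nat.mul_add_mod, Nat.mod_eq_of_lt hi']
    rw [h1, h2]

private theorem Q6d_smp (M R : List ℤ) (o : ℕ) (s : List ℤ) (κ : ℕ) :
    Phi n M (sv n s (rc n R o κ)) = Ph (wtm n M) (xk (fv n s) (fR n R o) κ) := by
  rw [Phi_Ph, fv_sv, ST_rc]
  rfl

/-- An attempt which succeeds on the typed side does not fail. PROOF. `x` = the number of the earlier samples of value `t`: then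
`gt YS x = κ` (`x < 1024`, `κ < 2 ^ b`). `run_ne` for `YY` (`Dk`, `rL_eq`) and for `HH` (`sum_wc`, `ST_dw`; the sum over `κ < 2 ^ rk s j * Rn n` is
the double sum over `w` and `i`). `cov`: `dd_ZZ`. `2 ^ #lo ≤ 2 ^ b` gives `rk s j ≤ b`. -/
theorem att_cmp {O : Vc n → ℤ → ℕ → Prop} (hE : Snd (wtm n M) E) (hW : Wb (wtm n M)) (hO : Cmp E O)
    (hB : ∀ s p B, 2 ^ (Fr s).card ≤ B → O s p B) (R : List ℤ) (o : ℕ) {s : List ℤ}
    (hs : St (fv n s)) {p : ℤ} {b : ℕ} {a : Att}
    (h : Suc (wtm n M) O (fv n s) p (2 ^ b) (RR n R o) a) :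
    ∃ x < 1024, att E n M R o s p b ⟨a.t, x, a.i, a.e, a.j⟩ ≠ [] := by
  classical
  obtain ⟨x, hx1, hx2, hx3⟩ := SN.flt_pos (k := 2 ^ b)
    (fun κ => Phi n M (sv n s (rc n R o κ)) = a.t) h.hκ (by
      rw [Q6d_smp]
      exact h.hx)
  have hxlt : x < 1024 := by
    have h1 := h.hY0
    rw [hx2]
    have h2 : (range a.κ).filter (fun κ => Phi n M (sv n s (rc n R o κ)) = a.t) =
        (range a.κ).filter fun κ' => Ph (wtm n M) (xk (fv n s) (RR n R o).1 κ') = a.t := by
      refine Finset.filter_congr fun κ _ => ?_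
      rw [Q6d_smp]
      exact Iff.rfl
    rw [h2]
    exact h1
  refine ⟨x, hxlt, ?_⟩
  set a' : At := ⟨a.t, x, a.i, a.e, a.j⟩ with ha'
  set r : List ℤ := rL n M R o s b a' with hrdef
  have hr : Res (fv n s) (fv n r) := rL_res R o hs b a'
  have hrS : St (fv n r) := St_Res hs hr
  have hrr : fv n r = a.r (fv n s) (RR n R o) := rL_eq R o s b a' (κ := a.κ) hx3
  have hxl : a'.x < (YS n M R o s b a'.t).length := hx1
  have he : a'.e ≤ b := (Nat.pow_le_pow_iff_right (by norm_num)).1 h.he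
  have hj : a'.j ≤ n := h.hj
  have hj2 : rk s a'.j ≤ b := by
    rw [rk_lo s hj]
    exact (Nat.pow_le_pow_iff_right (by norm_num)).1 h.hj2
  have hj1 : rk s n - rk s a'.j ≤ b := by
    rw [rk_hi s hj]
    exact (Nat.pow_le_pow_iff_right (by norm_num)).1 h.hj1
  have hYY : (YY E n M R o r b a'.t a'.e).length ≠ 0 := by
    refine run_ne hE hO hB hrS ?_
    have h1 := h.cY
    refine le_trans (le_of_eq ?_) h1
    refine Finset.sum_congr rfl fun κ _ => ?_
    rw [ST_dk, ST_rc, hrr]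
    rfl
  have hYsub : Yl (wtm n M) (fv n r) a'.t (fR n R (o + bl n)) (2 ^ a'.e) ⊆ S (fv n s) := by
    refine Finset.Subset.trans ?_ (S_Res hr)
    unfold Yl Lv
    exact (Finset.filter_subset _ _).trans (Finset.filter_subset _ _)
  have hdd : (dd n (ZZ n R o s (YY E n M R o r b a'.t a'.e) a'.j)).length =
      2 ^ (rk s n - rk s a'.j) := by
    rw [dd_ZZ R o hj hYsub (fun c => mem_YY hE hW R o hrS hYY c), hrr]
    exact h.cov
  have hHH : (HH E n M R o s r p b a'.t a'.j).length ≠ 0 := by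
    refine run_ne hE hO hB hrS ?_
    refine le_trans (le_of_eq ?_) h.cH
    have hRn : 0 < Rn n := by
      unfold Rn
      omega
    rw [Q6d_sum (2 ^ rk s a'.j) (Rn n) hRn fun u i =>
      cD (wtm n M) O (fv n r) ((p + a'.t) / 2) (ST n (dw n R (o + 2 * bl n) s a'.j (wc n s a'.j u) i))]
    rw [← sum_wc s hj]
    refine Finset.sum_congr rfl fun u _ => ?_
    rw [← Fin.sum_univ_eq_sum_range]
    refine Finset.sum_congr rfl fun i _ => ?_
    rw [ST_dw R (o + 2 * bl n) s a'.j (wc n s a'.j u) i (ST_wc_sub s a'.j u), hrr]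
    rfl
  unfold att
  rw [if_pos ⟨hxl, h.par, he, hj, hj2, hj1⟩, if_neg hYY, if_pos hdd, if_neg hHH]
  exact List.cons_ne_nil _ _

end Pool.Agent.MPa9445a.GL
end

section

/-! Completeness of one level. -/

set_option autoImplicit false

open Finset
open scoped symmDiff

namespace Pool.Agent.MPa9445a.GL

open Pool.Agent.MPa9445a.BE
open Pool.Agent.MPa9445a.SN (ST Fm rs kb)
open Pool.Agent.MPa9445a.GD (dd)

variable {n : ℕ} {M : List ℤ}

private theorem Q7c_ST : ST n 0 = ∅ := by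
  unfold SN.ST
  refine Finset.filter_eq_empty_iff.2 fun v _ h => ?_
  unfold bit at h
  simp at h

private theorem Q7c_pow4 (m : ℕ) : m ^ 4 ≤ (m + 1) ^ 4 := Nat.pow_le_pow_left (by omega) 4

private theorem Q7c_lin : n + 1 ≤ (n + 1) ^ 4 := by
  calc n + 1 = (n + 1) ^ 1 := (pow_one _).symm
    _ ≤ (n + 1) ^ 4 := Nat.pow_le_pow_right (by omega) (by omega)

private theorem Q7c_LL : LL n < PB n := by
  unfold LL PB
  have h1 := Q7c_pow4 n
  have h2 := Q7c_lin (n := n)
  omega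

private theorem Q7c_Zn : Zn n < PB n := by
  unfold Zn PB
  have h2 := Q7c_lin (n := n)
  have h3 : (n + 1) ^ 2 ≤ (n + 1) ^ 4 := Nat.pow_le_pow_right (by omega) (by omega)
  have h4 : n ^ 2 ≤ (n + 1) ^ 2 := Nat.pow_le_pow_left (by omega) 2
  omega

private theorem Q7c_n : n < PB n := by
  unfold PB
  have h2 := Q7c_lin (n := n)
  omega

private theorem Q7c_1024 : 1024 < PB n := by
  unfold PB
  have h2 := Q7c_lin (n := n)
  omega

/-- Completeness. PROOF. `att_cmp` for the round `z` gives `x`; `z < Zn n`, the index of `t` (`lvv_surj`), `x < 1024`, `i ≤ n`, `e ≤ n` (as `2 ^ e ≤ 2 ^ b` and `b < rk s n ≤ n`),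
`j ≤ n` are `< PB n` (`digits6`); `argmax_find` (`GD/X4`). `¬ Par` is the second case (`fv_sv`, `ST n 0 = ∅`). -/
theorem nxt_cmp {O : Vc n → ℤ → ℕ → Prop} (hW : Wb (wtm n M)) (R : List ℤ) {E : Pc}
    (hE : Snd (wtm n M) E) (hO : Cmp E O) (hB : ∀ s p B, 2 ^ (Fr s).card ≤ B → O s p B) (k : ℕ)
    {s : List ℤ} (hs : St (fv n s)) {p : ℤ} {b : ℕ}
    (h : 2 ^ (Fr (fv n s)).card ≤ 2 ^ b ∨ ¬ Par (wtm n M) (fv n s) p ∨
      ∃ (z : Fin (Zn n)) (a : Att), Suc (wtm n M) O (fv n s) p (2 ^ b) (RR n R (ofs n k z)) a) :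
    nxt E n M R k s p b ≠ [] := by
  unfold nxt
  by_cases h1 : rk s n ≤ b
  · rw [if_pos h1]
    exact List.cons_ne_nil _ _
  rw [if_neg h1]
  by_cases h2 : (p + Phi n M (sv n s 0)) % 2 ≠ 0
  · rw [if_pos h2]
    exact List.cons_ne_nil _ _
  rw [if_neg h2]
  rw [not_not] at h2
  rcases h with h | h | ⟨z, a, ha⟩
  · exfalso
    apply h1
    rw [rk_n]
    exact (Nat.pow_le_pow_iff_right (by omega)).1 h
  · exfalso
    apply h
    unfold Par
    rw [Phi_Ph, fv_sv, Q7c_ST] at h2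
    exact h2
  · obtain ⟨x, hx, hatt⟩ := att_cmp hE hW hO hB R (ofs n k z) hs ha
    obtain ⟨y, hy, hyt⟩ := lvv_surj (n := n) ha.ht
    have hcard : (Fr (fv n s)).card ≤ n := by
      have h3 := Finset.card_le_univ (Fr (fv n s))
      rwa [Fintype.card_fin] at h3
    have he : a.e ≤ b := (Nat.pow_le_pow_iff_right (by omega)).1 ha.he
    have hb : b < n := by
      rw [rk_n] at h1
      omega
    have hz := z.2
    have hi := ha.hi'
    have hj := ha.hj
    have b1 := Q7c_LL (n := n)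
    have b2 := Q7c_Zn (n := n)
    have b3 := Q7c_n (n := n)
    have b4 := Q7c_1024 (n := n)
    obtain ⟨X, hX, hd⟩ := digits6 (n := n) ![(z : ℕ), y, x, a.i, a.e, a.j] (by
      intro t
      fin_cases t
      · show (z : ℕ) < PB n
        omega
      · show y < PB n
        omega
      · show x < PB n
        omega
      · show a.i < PB n
        omega
      · show a.e < PB n
        omega
      · show a.j < PB n
        omega)
    have d0 : dg n X 0 = (z : ℕ) := hd 0
    have d1 : dg n X 1 = y := hd 1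
    have d2 : dg n X 2 = x := hd 2
    have d3 : dg n X 3 = a.i := hd 3
    have d4 : dg n X 4 = a.e := hd 4
    have d5 : dg n X 5 = a.j := hd 5
    have hq : ¬ (atx E n M R k s p b X).length = 0 := by
      rw [List.length_eq_zero_iff]
      unfold atx
      rw [d0, d1, d2, d3, d4, d5, hyt, Nat.min_eq_left hi, Nat.min_eq_left (by omega)]
      exact hatt
    obtain ⟨h5, h6⟩ := argmax_spec (k := PB n ^ 6) (by omega)
      (fun x => if (atx E n M R k s p b x.toNat).length = 0 then 0 else 1)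
    have h7 := h6 X hX
    simp only [Int.toNat_natCast, if_neg hq] at h7
    intro h8
    have h9 := List.length_eq_zero_iff.2 h8
    rw [if_pos h9] at h7
    omega

end Pool.Agent.MPa9445a.GL
end
end

section

section

/-! The recursion. -/

set_option autoImplicit false

open Finset
open scoped symmDiff

namespace Pool.Agent.MPa9445a.GL

open Pool.Agent.MPa9445a.BE
open Pool.Agent.MPa9445a.SN (ST Fm rs kb)
open Pool.Agent.MPa9445a.GD (dd)

variable {n : ℕ} {M : List ℤ}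

/-- PROOF. Induction, `br_cpl`, `nxt_snd`. -/
theorem EE_snd (hW : Wb (wtm n M)) (R : List ℤ) (k : ℕ) :
    Snd (wtm n M) (EE n M R k) := by
  induction k with
  | zero =>
    intro s _ p b
    show (if rk s n ≤ b then 1 :: br n M s p else []) = [] ∨
      ∃ L, (if rk s n ≤ b then 1 :: br n M s p else []) = 1 :: L ∧ Cpl L (Lv (wtm n M) (fv n s) p)
    by_cases h : rk s n ≤ b
    · rw [if_pos h]
      exact Or.inr ⟨br n M s p, rfl, br_cpl M s p⟩
    · rw [if_neg h]
      exact Or.inl rfl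
  | succ k ih => exact nxt_snd hW R ih k

private theorem Q7d_Ok (W : Matrix (Fin n) (Fin n) ℤ) (k : ℕ) (ω : Sds n k) (s : Vc n) (p : ℤ)
    (B : ℕ) (h : 2 ^ (Fr s).card ≤ B) : Ok W k ω s p B := by
  cases k with
  | zero => exact h
  | succ k => exact Or.inl h

/-- PROOF. Induction, `nxt_cmp`; `Ok W k` holds if `2 ^ #Fr ≤ B`. -/
theorem EE_cmp (hW : Wb (wtm n M)) (R : List ℤ) (k : ℕ) :
    Cmp (EE n M R k) (Ok (wtm n M) k (SR n R k)) := by
  induction k with
  | zero =>
    intro s _ p _ b h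
    have h' : 2 ^ (Fr (fv n s)).card ≤ 2 ^ b := h
    have h2 : rk s n ≤ b := by
      rw [rk_n]
      exact (Nat.pow_le_pow_iff_right (by norm_num)).mp h'
    show (if rk s n ≤ b then 1 :: br n M s p else []) ≠ []
    rw [if_pos h2]
    simp
  | succ k ih =>
    intro s hs p _ b h
    have h' : 2 ^ (Fr (fv n s)).card ≤ 2 ^ b ∨ ¬ Par (wtm n M) (fv n s) p ∨
      ∃ (z : Fin (Zn n)) (a : Att), Suc (wtm n M) (Ok (wtm n M) k (SR n R k)) (fv n s) p (2 ^ b)
        (RR n R (ofs n k z)) a := h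
    exact nxt_cmp hW R (EE_snd hW R k) ih
      (fun s p B hB => Q7d_Ok (wtm n M) k (SR n R k) s p B hB) k hs h'

end Pool.Agent.MPa9445a.GL
end

section

/-! The result. -/

set_option autoImplicit false

open Finset
open scoped symmDiff

namespace Pool.Agent.MPa9445a.GL

open Pool.Agent.MPa9445a.BE
open Pool.Agent.MPa9445a.SN (ST Fm rs kb)

variable {n : ℕ} {M : List ℤ}

/-- PROOF. `fv_tb`. -/
theorem fv_full : fv n (full n) = s0 n := by
  funext v
  unfold full
  rw [fv_tb]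
  rfl

private theorem Q9a_wtm (G : SimpleGraph (Fin n)) {M : List ℤ} (hA : fm n M = adjZ G)
    (u v : Fin n) : wtm n M u v = if u = v then 0 else adjZ G u v - (n : ℤ) ^ 2 := by
  have h := congrFun (congrFun hA u) v
  unfold fm at h
  unfold wtm wt
  rw [h]
  by_cases huv : u = v
  · rw [if_pos huv, if_pos (congrArg Fin.val huv)]
  · rw [if_neg huv, if_neg fun h' => huv (Fin.ext h')]

/-- The weights of a graph are bounded. PROOF. Adjacency `0` or `1`, minus `n ^ 2`. -/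
theorem Wb_of {G : SimpleGraph (Fin n)} (hA : fm n M = adjZ G) : Wb (wtm n M) := by
  intro u v
  rw [Q9a_wtm G hA u v]
  have hn : 1 ≤ n := lt_of_le_of_lt (Nat.zero_le _) u.2
  have hn' : (1 : ℤ) ≤ (n : ℤ) := by exact_mod_cast hn
  have hn2 : (1 : ℤ) ≤ (n : ℤ) ^ 2 := by nlinarith
  split_ifs with h
  · rw [abs_zero]
    linarith
  · unfold adjZ
    split_ifs
    · rw [abs_le]
      constructor <;> linarith
    · rw [abs_le]
      constructor <;> linarith

/-- The level `tp` is at least the maximum, and it is a level. PROOF. There is a level with a vector (`vc_mem`, `Ph_lvl`): its answer has not length `1`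
(`EE_snd`, `Cpl.length`), so `argmax_find` applies; all levels above `tp` have the answer `[1]`: no vectors. -/
theorem tp_spec (hW : Wb (wtm n M)) (R : List ℤ) (k b : ℕ) :
    tp n M R k b ∈ lvl n ∧ (∀ x ∈ S (s0 n), Ph (wtm n M) x ≤ tp n M R k b) ∧
      (tA n M R k b).length ≠ 1 := by
  set q : ℕ → Prop := fun x =>
    (EE n M R (k + 1) (full n) ((n : ℤ) ^ 4 - (x : ℤ)) b).length ≠ 1 with hq
  have hmem : ∀ x ∈ S (s0 n), Ph (wtm n M) x ∈ lvl n := fun x hx => Ph_lvl hW (St_s0 n) hx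
  have hlvl : ∀ p : ℤ, p ∈ lvl n ↔ -((n : ℤ) ^ 4) ≤ p ∧ p ≤ (n : ℤ) ^ 4 := by
    intro p
    unfold lvl Rb
    rw [Finset.mem_Icc]
    push_cast
    rfl
  have key : ∀ x ∈ S (s0 n), q ((n : ℤ) ^ 4 - Ph (wtm n M) x).toNat := by
    intro x hx
    have h1 := (hlvl _).1 (hmem x hx)
    have h2 : (((n : ℤ) ^ 4 - Ph (wtm n M) x).toNat : ℤ) = (n : ℤ) ^ 4 - Ph (wtm n M) x :=
      Int.toNat_of_nonneg (by linarith [h1.2])
    have h3 : (n : ℤ) ^ 4 - (((n : ℤ) ^ 4 - Ph (wtm n M) x).toNat : ℤ) = Ph (wtm n M) x := by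
      rw [h2]
      ring
    simp only [hq]
    rw [h3]
    have hst : St (fv n (full n)) := by
      rw [fv_full]
      exact St_s0 n
    rcases EE_snd hW R (k + 1) (full n) hst (Ph (wtm n M) x) b with h4 | ⟨L, h4, h5⟩
    · rw [h4]
      simp
    · rw [h4, List.length_cons, h5.length, fv_full]
      have h6 : x ∈ Lv (wtm n M) (s0 n) (Ph (wtm n M) x) := by
        unfold Lv
        exact Finset.mem_filter.2 ⟨hx, rfl⟩
      have h7 : 0 < (Lv (wtm n M) (s0 n) (Ph (wtm n M) x)).card := Finset.card_pos.2 ⟨x, h6⟩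
      omega
  have hlt : ∀ x ∈ S (s0 n), ((n : ℤ) ^ 4 - Ph (wtm n M) x).toNat < LL n := by
    intro x hx
    have h1 := (hlvl _).1 (hmem x hx)
    have h2 : (((n : ℤ) ^ 4 - Ph (wtm n M) x).toNat : ℤ) = (n : ℤ) ^ 4 - Ph (wtm n M) x :=
      Int.toNat_of_nonneg (by linarith [h1.2])
    have h3 : (((n : ℤ) ^ 4 - Ph (wtm n M) x).toNat : ℤ) < ((LL n : ℕ) : ℤ) := by
      rw [h2]
      unfold LL
      push_cast
      linarith [h1.1]
    exact_mod_cast h3
  have hx0 : vc (s0 n) ∅ ∈ S (s0 n) := vc_mem (s0 n) ∅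
  have hfind := GD.argmax_find (k := LL n) (q := q) (hlt _ hx0) (key _ hx0)
  have htx : tx n M R k b = argmax (LL n) fun j => if q j.toNat then 1 else 0 := rfl
  rw [← htx] at hfind
  obtain ⟨f1, f2, f3⟩ := hfind
  refine ⟨?_, ?_, ?_⟩
  · rw [hlvl]
    unfold tp
    have h1 : ((tx n M R k b : ℕ) : ℤ) < ((LL n : ℕ) : ℤ) := by exact_mod_cast f2
    unfold LL at h1
    push_cast at h1
    have h2 : (0 : ℤ) ≤ ((tx n M R k b : ℕ) : ℤ) := Int.natCast_nonneg _
    constructor <;> linarith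
  · intro x hx
    by_contra hlt'
    rw [not_le] at hlt'
    unfold tp at hlt'
    have h1 := (hlvl _).1 (hmem x hx)
    have h2 : (((n : ℤ) ^ 4 - Ph (wtm n M) x).toNat : ℤ) = (n : ℤ) ^ 4 - Ph (wtm n M) x :=
      Int.toNat_of_nonneg (by linarith [h1.2])
    refine f3 ((n : ℤ) ^ 4 - Ph (wtm n M) x).toNat ?_ (key x hx)
    have h3 : (((n : ℤ) ^ 4 - Ph (wtm n M) x).toNat : ℤ) < ((tx n M R k b : ℕ) : ℤ) := by
      rw [h2]
      linarith
    exact_mod_cast h3
  · exact f1

end Pool.Agent.MPa9445a.GL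
end

section

/-! The result. -/

set_option autoImplicit false

open Finset
open scoped symmDiff

namespace Pool.Agent.MPa9445a.GL

open Pool.Agent.MPa9445a.BE
open Pool.Agent.MPa9445a.SN (ST Fm rs kb)

variable {n : ℕ} {M : List ℤ}

private theorem Q9b_vec (c : ℕ) : fv n (vec n c) = fv n (sv n (full n) c) := by
  funext v
  have h : gt (full n) (v : ℕ) = 2 := by
    have h1 : fv n (full n) v = 2 := by
      unfold full
      rw [fv_tb]
    exact h1
  rw [vec, sv, fv_tb, fv_tb, if_pos h]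

private theorem Q9b_Om : Om (univ : Finset (Fin n)) = S (s0 n) := by
  unfold Om S s0
  congr 1
  funext v
  rw [if_pos (Finset.mem_univ v), if_pos rfl]

private theorem Q9b_bq (W : Matrix (Fin n) (Fin n) ℤ) (x : Fin n → ℤ) : bq W x x = Ph W x := rfl

/-- The result is a maximum. PROOF. If `tA = 1 :: L` then `L` has an element: the code of a vector of value `tp` (`EE_snd`, `sv_cdv`; for the state `full` the vector
`sv n (full n) c` is `vec n c` on `Fin n`). The samples in `tS` have value `tp`. Otherwise `argmax_spec` (`BE`). -/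
theorem tc_max (hW : Wb (wtm n M)) (R : List ℤ) (k b : ℕ) :
    ∀ x ∈ S (s0 n), Ph (wtm n M) x ≤ Ph (wtm n M) (fv n (vec n (tc n M R k b))) := by
  obtain ⟨-, hmax, hlen⟩ := tp_spec hW R k b
  by_cases hA : (tA n M R k b).length ≠ 0
  · have h1 : tc n M R k b = (gt (tA n M R k b) 1).toNat := by
      unfold tc
      rw [if_pos hA]
    have hSt : St (fv n (full n)) := by
      rw [fv_full]
      exact St_s0 n
    rcases EE_snd hW R (k + 1) (full n) hSt (tp n M R k b) b with h2 | ⟨L, h2, h3⟩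
    · exact absurd (congrArg List.length h2) hA
    · have h2' : tA n M R k b = 1 :: L := h2
      cases L with
      | nil =>
        rw [h2'] at hlen
        exact absurd rfl hlen
      | cons c L =>
        have h4 : gt (tA n M R k b) 1 = c := by
          rw [h2']
          rfl
        obtain ⟨x, hx, hxc⟩ := (h3.2 c).1 List.mem_cons_self
        have hx' : x ∈ S (fv n (full n)) ∧ Ph (wtm n M) x = tp n M R k b := by
          unfold Lv at hx
          exact Finset.mem_filter.1 hx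
        have h5 : fv n (vec n (tc n M R k b)) = x := by
          rw [h1, h4, Q9b_vec, ← hxc]
          exact sv_cdv (full n) hx'.1
        rw [h5, hx'.2]
        exact hmax
  · by_cases hS : (tS n M R k b).length ≠ 0
    · have h1 : tc n M R k b = smc n R k b (gt (tS n M R k b) 0).toNat := by
        unfold tc
        rw [if_neg hA, if_pos hS]
      have h2 : Phi n M (sv n (full n) (smc n R k b (gt (tS n M R k b) 0).toNat)) =
          tp n M R k b :=
        (SN.flt_gt (k := Zn n * 2 ^ b)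
          (fun x => Phi n M (sv n (full n) (smc n R k b x)) = tp n M R k b)
          (t := 0) (Nat.pos_of_ne_zero hS)).2.1
      rw [h1, Q9b_vec, ← Phi_Ph, h2]
      exact hmax
    · have h1 : tc n M R k b = argmax (2 ^ n) fun c => Phi n M (vec n c.toNat) := by
        unfold tc
        rw [if_neg hA, if_neg hS]
      intro x hx
      rw [← Q9b_Om] at hx
      obtain ⟨c, hc, rfl⟩ := exists_code hx
      have h2 := (argmax_spec (k := 2 ^ n) (by positivity)
        (fun c : ℤ => Phi n M (vec n c.toNat))).2 c hc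
      rw [← h1] at h2
      simp only [Int.toNat_natCast] at h2
      rw [← Phi_Ph, ← Phi_Ph]
      exact h2

/-- The result is always a minimum bisection. PROOF. `tc_max`, `min_of_max` (`BE/B9a`) for `X = {v | bit (tc ..) v = 1}`; `Om univ = S (s0 n)`;
`gt (out ..) v = bit (tc ..) v`. -/
theorem out_correct (hn : Even n) (G : SimpleGraph (Fin n)) (hA : fm n M = adjZ G) (R : List ℤ)
    (k b : ℕ) :
    IsMinBisection G (univ.filter fun v : Fin n => gt (out n M R k b) v = 1) := by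
  have hW := Wb_of hA
  have h1 : (fun v : Fin n => if v ∈ (univ.filter fun v : Fin n => gt (out n M R k b) v = 1)
      then (1 : ℤ) else -1) = fv n (vec n (tc n M R k b)) := by
    funext v
    have h2 : gt (out n M R k b) (v : ℕ) = (bit (tc n M R k b) v : ℤ) := by
      have h3 := fv_tb n (fun v => (bit (tc n M R k b) v : ℤ)) v
      exact h3
    have h4 : bit (tc n M R k b) (v : ℕ) = 0 ∨ bit (tc n M R k b) (v : ℕ) = 1 := by
      unfold bit
      omega
    rw [vec, fv_tb]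
    rcases h4 with h4 | h4
    · rw [h4] at h2 ⊢
      rw [if_neg]
      · norm_num
      · rw [Finset.mem_filter, h2]
        norm_num
    · rw [h4] at h2 ⊢
      rw [if_pos]
      · norm_num
      · rw [Finset.mem_filter, h2]
        exact ⟨Finset.mem_univ v, by norm_num⟩
  refine min_of_max hn G hA ?_
  intro y hy
  rw [Q9b_bq, h1, Q9b_bq]
  rw [Q9b_Om] at hy
  exact tc_max hW R k b y hy

end Pool.Agent.MPa9445a.GL
end
end

section

section

/-! The random bits are good for all weight matrices. -/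

set_option autoImplicit false

open Finset

namespace Pool.Agent.MPa9445a.GL

open Pool.Agent.MPa9445a.SN (Fm rs kb)

variable {n : ℕ}

/-- `p` is the maximum of the values. -/
private def U1b_Mx (W : Matrix (Fin n) (Fin n) ℤ) (p : ℤ) : Prop :=
  (∀ x ∈ S (s0 n), Ph W x ≤ p) ∧ ∃ x ∈ S (s0 n), Ph W x = p

private theorem U1b_Mx_unique {W : Matrix (Fin n) (Fin n) ℤ} {p q : ℤ} (hp : U1b_Mx W p)
    (hq : U1b_Mx W q) : p = q := by
  obtain ⟨x, hx, rfl⟩ := hp.2
  obtain ⟨y, hy, rfl⟩ := hq.2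
  exact le_antisymm (hq.1 x hx) (hp.1 y hy)

open scoped Classical in
private theorem U1b_half {W : Matrix (Fin n) (Fin n) ℤ} {k : ℕ} {p : ℤ}
    (hN : γ (k + 1) ^ n ≤ (Lv W (s0 n) p).card) {B : ℕ}
    (hB : (pl n (k + 1) : ℝ) * γ (k + 1) ^ n ≤ B) (hn : B < 2 ^ n) :
    2 * (univ.filter fun r : Rd n => ¬ ∃ κ < B, Ph W (xk (s0 n) r.1 κ) = p).card ≤
      Fintype.card (Rd n) := by
  have h1 := top_many hN hB hn
  have h2 : (univ.filter fun r : Rd n => ¬ ∃ κ < B, Ph W (xk (s0 n) r.1 κ) = p) =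
      (univ.filter fun ω : Fm n => ¬ ∃ κ < B, Ph W (xk (s0 n) ω κ) = p) ×ˢ
        (univ : Finset (Fm n × Mx n × Sh n)) := by
    ext ⟨a, b⟩
    simp
  rw [h2, Finset.card_product, Finset.card_univ, ← mul_assoc]
  have h3 : Fintype.card (Rd n) = Fintype.card (Fm n) * Fintype.card (Fm n × Mx n × Sh n) :=
    Fintype.card_prod _ _
  rw [h3]
  refine Nat.mul_le_mul_right _ ?_
  convert h1 using 3

open scoped Classical in
private theorem U1b_rounds {W : Matrix (Fin n) (Fin n) ℤ} {k : ℕ} {p : ℤ}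
    (hN : γ (k + 1) ^ n ≤ (Lv W (s0 n) p).card) {B : ℕ}
    (hB : (pl n (k + 1) : ℝ) * γ (k + 1) ^ n ≤ B) (hn : B < 2 ^ n) :
    (univ.filter fun ω : Sds n (k + 1) =>
      ¬ ∃ z, ∃ κ < B, Ph W (xk (s0 n) (ω.2 z).1 κ) = p).card * 2 ^ Zn n ≤
      Fintype.card (Sds n (k + 1)) := by
  have h1 := SN.rep (univ.filter fun r : Rd n => ¬ ∃ κ < B, Ph W (xk (s0 n) r.1 κ) = p)
    (U1b_half hN hB hn) (Zn n)
  have h2 : Fintype.card (Sd n) = Fintype.card (Rd n) ^ Zn n := by
    simp [Sd]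
  have h4 : (univ.filter fun ω : Sds n (k + 1) =>
      ¬ ∃ z, ∃ κ < B, Ph W (xk (s0 n) (ω.2 z).1 κ) = p).card =
      ∑ _ω : Sds n k, (univ.filter fun z : Sd n =>
        ¬ ∃ q, ∃ κ < B, Ph W (xk (s0 n) (z q).1 κ) = p).card := by
    convert Sds.filter_succ n k (fun ω : Sds n (k + 1) =>
      ¬ ∃ z, ∃ κ < B, Ph W (xk (s0 n) (ω.2 z).1 κ) = p)
  refine le_trans (Nat.mul_le_mul_right _ (le_of_eq h4)) ?_
  rw [Sds.card_succ, Finset.sum_mul, h2]
  calc _ ≤ ∑ ω : Sds n k, Fintype.card (Rd n) ^ Zn n := by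
        refine Finset.sum_le_sum fun ω _ => ?_
        refine le_trans (le_of_eq ?_) h1
        congr 2
        ext z
        simp
    _ = _ := by
        rw [Finset.sum_const, Finset.card_univ, smul_eq_mul]

open scoped Classical in
/-- PROOF. If `2 ^ n ≤ B` then `TopOk` always holds (`Ok_of_le`, `card_s0`). Otherwise `¬ TopOk` implies `¬ Good W (k + 1) ω`, or: the maximum `p` of the values on `S (s0 n)` (a level by `Ph_lvl`) has many vectors (`γ (k + 1) ^ n ≤ #Lv`) and in no round `z` there is a sample `κ < B` of value `p`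
(for `p` larger than all values `top_empty`, for the maximum with few vectors `top_few`; a level `p` with `∀ x, Ph x ≤ p` is the maximum or larger than all values). The first is `good_bad`. The second: `top_many` for the first component of `Rd n` (the count over `Rd n` is the count over `Fm n` times the rest) and `SN.rep`: at most the fraction
`2 ^ (- Zn n)`; `2 * n ^ 2 + n + 15 ≤ Zn n`. -/
theorem top_bad {W : Matrix (Fin n) (Fin n) ℤ} (hW : Wb W) {k : ℕ} {B : ℕ}
    (hB : (pl n (k + 1) : ℝ) * γ (k + 1) ^ n ≤ B) :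
    (univ.filter fun ω : Sds n (k + 1) => ¬ TopOk W k B ω).card * 2 ^ (2 * n ^ 2 + n + 15) ≤
      (k + 2) * Fintype.card (Sds n (k + 1)) := by
  by_cases hn : 2 ^ n ≤ B
  · have h0 : (univ.filter fun ω : Sds n (k + 1) => ¬ TopOk W k B ω) = ∅ := by
      rw [Finset.filter_eq_empty_iff]
      intro ω _
      rw [not_not]
      intro p _ _
      left
      left
      rw [card_s0]
      exact hn
    rw [h0]
    simp
  rw [not_le] at hn
  -- the exceptional rounds
  have hex : (univ.filter fun ω : Sds n (k + 1) => ∃ p, U1b_Mx W p ∧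
      γ (k + 1) ^ n ≤ ((Lv W (s0 n) p).card : ℝ) ∧
      ¬ ∃ z, ∃ κ < B, Ph W (xk (s0 n) (ω.2 z).1 κ) = p).card * 2 ^ Zn n ≤
      Fintype.card (Sds n (k + 1)) := by
    by_cases h : ∃ p, U1b_Mx W p ∧ γ (k + 1) ^ n ≤ ((Lv W (s0 n) p).card : ℝ)
    · obtain ⟨p, hp, hN⟩ := h
      refine le_trans (Nat.mul_le_mul_right _ (Finset.card_le_card ?_)) (U1b_rounds hN hB hn)
      intro ω hω
      rw [Finset.mem_filter] at hω ⊢
      obtain ⟨q, hq, -, hz⟩ := hω.2
      rw [U1b_Mx_unique hp hq]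
      exact ⟨Finset.mem_univ _, hz⟩
    · have h0 : (univ.filter fun ω : Sds n (k + 1) => ∃ p, U1b_Mx W p ∧
          γ (k + 1) ^ n ≤ ((Lv W (s0 n) p).card : ℝ) ∧
          ¬ ∃ z, ∃ κ < B, Ph W (xk (s0 n) (ω.2 z).1 κ) = p) = ∅ := by
        rw [Finset.filter_eq_empty_iff]
        rintro ω - ⟨p, hp, hN, -⟩
        exact h ⟨p, hp, hN⟩
      rw [h0]
      simp
  have hsub : (univ.filter fun ω : Sds n (k + 1) => ¬ TopOk W k B ω) ⊆
      (univ.filter fun ω : Sds n (k + 1) => ¬ Good W (k + 1) ω) ∪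
      (univ.filter fun ω : Sds n (k + 1) => ∃ p, U1b_Mx W p ∧
        γ (k + 1) ^ n ≤ ((Lv W (s0 n) p).card : ℝ) ∧
        ¬ ∃ z, ∃ κ < B, Ph W (xk (s0 n) (ω.2 z).1 κ) = p) := by
    intro ω hω
    rw [Finset.mem_filter] at hω
    rw [Finset.mem_union, Finset.mem_filter, Finset.mem_filter]
    by_cases hG : Good W (k + 1) ω
    · right
      refine ⟨Finset.mem_univ _, ?_⟩
      have h1 := hω.2
      unfold TopOk at h1
      push Not at h1
      obtain ⟨p, hp, hle, hOk, hz⟩ := h1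
      refine ⟨p, ⟨hle, ?_⟩, ?_, ?_⟩
      · by_contra hne
        push Not at hne
        exact hOk (top_empty hG hp (fun x hx => lt_of_le_of_ne (hle x hx) (hne x hx)) hB)
      · by_contra hlt
        rw [not_le] at hlt
        exact hOk (top_few hG hp hle hlt hB)
      · push Not
        exact hz
    · left
      exact ⟨Finset.mem_univ _, hG⟩
  have hZ : 2 ^ (2 * n ^ 2 + n + 15) ≤ 2 ^ Zn n := by
    refine Nat.pow_le_pow_right (by norm_num) ?_
    unfold Zn
    omega
  calc _ ≤ ((univ.filter fun ω : Sds n (k + 1) => ¬ Good W (k + 1) ω).card +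
        (univ.filter fun ω : Sds n (k + 1) => ∃ p, U1b_Mx W p ∧
        γ (k + 1) ^ n ≤ ((Lv W (s0 n) p).card : ℝ) ∧
        ¬ ∃ z, ∃ κ < B, Ph W (xk (s0 n) (ω.2 z).1 κ) = p).card) * 2 ^ (2 * n ^ 2 + n + 15) :=
        Nat.mul_le_mul_right _ ((Finset.card_le_card hsub).trans (Finset.card_union_le _ _))
    _ ≤ (k + 1) * Fintype.card (Sds n (k + 1)) + Fintype.card (Sds n (k + 1)) := by
        rw [add_mul]
        exact Nat.add_le_add (good_bad hW (k + 1)) ((Nat.mul_le_mul_left _ hZ).trans hex)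
    _ = (k + 2) * Fintype.card (Sds n (k + 1)) := by ring

open scoped Classical in
/-- All weight matrices of a finite family at the same time. PROOF. Union bound over `ι`. -/
theorem top_all {ι : Type} [Fintype ι] (hι : Fintype.card ι ≤ 2 ^ n ^ 2)
    (W : ι → Matrix (Fin n) (Fin n) ℤ) (hW : ∀ i, Wb (W i)) {k : ℕ} {B : ℕ}
    (hB : (pl n (k + 1) : ℝ) * γ (k + 1) ^ n ≤ B) :
    (univ.filter fun ω : Sds n (k + 1) => ¬ ∀ i, TopOk (W i) k B ω).card * 2 ^ (n ^ 2 + n + 15) ≤
      (k + 2) * Fintype.card (Sds n (k + 1)) := by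
  have hsub : (univ.filter fun ω : Sds n (k + 1) => ¬ ∀ i, TopOk (W i) k B ω) ⊆
      (univ : Finset ι).biUnion fun i =>
        univ.filter fun ω : Sds n (k + 1) => ¬ TopOk (W i) k B ω := by
    intro ω hω
    rw [Finset.mem_filter] at hω
    obtain ⟨i, hi⟩ := not_forall.1 hω.2
    rw [Finset.mem_biUnion]
    exact ⟨i, Finset.mem_univ _, Finset.mem_filter.2 ⟨Finset.mem_univ _, hi⟩⟩
  have h1 : (univ.filter fun ω : Sds n (k + 1) => ¬ ∀ i, TopOk (W i) k B ω).card ≤
      ∑ i : ι, (univ.filter fun ω : Sds n (k + 1) => ¬ TopOk (W i) k B ω).card :=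
    (Finset.card_le_card hsub).trans Finset.card_biUnion_le
  have h2 : (∑ i : ι, (univ.filter fun ω : Sds n (k + 1) => ¬ TopOk (W i) k B ω).card) *
      2 ^ (2 * n ^ 2 + n + 15) ≤
      Fintype.card ι * ((k + 2) * Fintype.card (Sds n (k + 1))) := by
    rw [Finset.sum_mul]
    calc _ ≤ ∑ _i : ι, (k + 2) * Fintype.card (Sds n (k + 1)) :=
          Finset.sum_le_sum fun i _ => top_bad (hW i) hB
      _ = _ := by rw [Finset.sum_const, Finset.card_univ, smul_eq_mul]
  have h3 : 2 ^ (2 * n ^ 2 + n + 15) = 2 ^ (n ^ 2 + n + 15) * 2 ^ n ^ 2 := by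
    rw [← pow_add]
    congr 1
    ring
  refine Nat.le_of_mul_le_mul_right ?_ (show 0 < 2 ^ n ^ 2 by positivity)
  calc (univ.filter fun ω : Sds n (k + 1) => ¬ ∀ i, TopOk (W i) k B ω).card *
        2 ^ (n ^ 2 + n + 15) * 2 ^ n ^ 2
      = (univ.filter fun ω : Sds n (k + 1) => ¬ ∀ i, TopOk (W i) k B ω).card *
        2 ^ (2 * n ^ 2 + n + 15) := by rw [h3, mul_assoc]
    _ ≤ (∑ i : ι, (univ.filter fun ω : Sds n (k + 1) => ¬ TopOk (W i) k B ω).card) *
        2 ^ (2 * n ^ 2 + n + 15) := Nat.mul_le_mul_right _ h1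
    _ ≤ Fintype.card ι * ((k + 2) * Fintype.card (Sds n (k + 1))) := h2
    _ ≤ 2 ^ n ^ 2 * ((k + 2) * Fintype.card (Sds n (k + 1))) := Nat.mul_le_mul_right _ hι
    _ = (k + 2) * Fintype.card (Sds n (k + 1)) * 2 ^ n ^ 2 := by ring

end Pool.Agent.MPa9445a.GL
end

section

/-! The program. -/

set_option autoImplicit false

open Finset

namespace Pool.Agent.MPa9445a.GL

open Pool.Agent.MPa9445a.BE (Ty Env vs one Bd NL DL tb flt gt bit Phi vec code lin argmax Bd.const
  Bd.add Bd.mul Bd.le Bd.up Bd.var Bd.self asz sz Bd.size)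
open Pool.Agent.MPa9445a.GD
open Pool.Agent.MPa9445a.SN (kb)

private theorem W9_vs (l : List ℤ) (h : ∀ x ∈ l, |x| ≤ 1) : vs (t := .arr) l ≤ l.length + 1 := by
  have h1 : asz l ≤ 1 := asz_le fun x hx => by
    have h2 := abs_le.mp (h x hx)
    unfold BE.sz
    rw [Nat.size_le]
    omega
  have h2 : Nat.size l.length ≤ l.length := by
    rw [Nat.size_le]
    exact Nat.lt_two_pow_self
  show asz l + Nat.size l.length ≤ l.length + 1
  omega

private theorem W9_arr {A : Type} {N : A → ℕ} {D : A → Prop} {f : A → List ℤ} {g : A → ℕ}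
    (hg : Bd N D g) (h1 : ∀ a, D a → (f a).length ≤ g a) (h2 : ∀ a, D a → ∀ x ∈ f a, |x| ≤ 1) :
    ∃ k : ℕ, ∀ a, D a → vs (t := .arr) (f a) ≤ (N a + 2) ^ k := by
  obtain ⟨m, hm⟩ := hg.add (Bd.const 1)
  exact ⟨m, fun a ha => (W9_vs _ (h2 a ha)).trans ((Nat.add_le_add_right (h1 a ha) 1).trans
    (hm a ha))⟩

private theorem W9_start (K : ℕ) : PN Prod.fst (Di K) envi Prod.fst ∧
    PA Prod.fst (Di K) envi (fun a => a.2.1) ∧ PA Prod.fst (Di K) envi (fun a => a.2.2) := by
  have hn : Bd (Prod.fst : Gi → ℕ) (Di K) Prod.fst := Bd.self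
  refine ⟨Cp.top (t := .int) (f := fun b : Gi => (b.1 : ℤ)) hn.size, ?_, ?_⟩
  · refine Cp.wk (s := .int) (g := fun b : Gi => (b.1 : ℤ)) ?_
    exact Cp.top (t := .arr) (f := fun b : Gi => b.2.1)
      (W9_arr (hn.mul hn) (fun a ha => ha.1) fun a ha => ha.2.1)
  · refine Cp.wk (s := .int) (g := fun b : Gi => (b.1 : ℤ)) ?_
    refine Cp.wk (s := .arr) (g := fun b : Gi => b.2.1) ?_
    refine Cp.top (t := .arr) (f := fun b : Gi => b.2.2)
      (W9_arr (g := fun a => Lk a.1 K) ?_ (fun a ha => ha.2.2.1) fun a ha => ha.2.2.2)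
    have hZ : Bd (Prod.fst : Gi → ℕ) (Di K) (fun a => Zn a.1) := by
      refine Bd.le ((((Bd.const 2).mul (hn.mul hn)).add ((Bd.const 8).mul hn)).add (Bd.const 16))
        fun a _ => le_of_eq ?_
      unfold Zn
      ring
    have hR : Bd (Prod.fst : Gi → ℕ) (Di K) (fun a => RL a.1) :=
      ((Bd.const 2).mul (hn.mul ((bd_kb hn).add (Bd.const 1)))).add (hn.mul hn) |>.add
        ((bd_Rn hn).mul hn)
    exact ((Bd.const K).mul hZ).mul hR

/-- The program. -/
theorem program (k P Q c₁ : ℕ) : ∃ (e : GD.Ex [.int, .arr, .arr] .arr) (d : ℕ),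
    ∀ a : Gi, Di (k + 1) a → e.eval (envi a) = out a.1 a.2.1 a.2.2 k (be P Q c₁ a.1) ∧
      ∀ τ : ℝ, 2 ≤ τ → e.cost τ (envi a) ≤ ((a.1 : ℝ) + 2) ^ d * (2 ^ be P Q c₁ a.1 +
        if slow a.1 a.2.1 a.2.2 k (be P Q c₁ a.1) then 2 ^ a.1 else 0) := by
  obtain ⟨hn, hM, hR⟩ := W9_start (k + 1)
  have bn : Bd (Prod.fst : Gi → ℕ) (Di (k + 1)) Prod.fst := Bd.self
  have hb : PN Prod.fst (Di (k + 1)) envi (fun a => be P Q c₁ a.1) :=
    PN.add (PN.div (PN.mul (PN.const P) hn) (PN.const Q)) (PN.const c₁)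
  have bb : Bd (Prod.fst : Gi → ℕ) (Di (k + 1)) (fun a => be P Q c₁ a.1) :=
    Bd.le (((Bd.const P).mul bn).add (Bd.const c₁)) fun a _ =>
      Nat.add_le_add_right (Nat.div_le_self _ _) _
  obtain ⟨e, d, h⟩ := c_out k hn bn hM hR hb bb
  exact ⟨e, d, fun a ha => ⟨(h a ha).1, fun τ hτ => ((h a ha).2.2 τ hτ).2⟩⟩

end Pool.Agent.MPa9445a.GL
end

section

/-! The program for a polynomial number of random bits: superfluous bits are ignored. -/

set_option autoImplicit false

open Finset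

namespace Pool.Agent.MPa9445a.GL

open Pool.Agent.MPa9445a.BE (Ty Env vs one Bd NL DL tb flt gt bit Phi vec code lin argmax Bd.const
  Bd.add Bd.mul Bd.le Bd.up Bd.var Bd.self asz sz Bd.size)
open Pool.Agent.MPa9445a.GD
open Pool.Agent.MPa9445a.SN (kb rb)

/-- The inputs with at most `(n + 2) ^ K` random bits. -/
def Dj (K : ℕ) (a : Gi) : Prop := a.2.1.length ≤ a.1 * a.1 ∧ (∀ x ∈ a.2.1, |x| ≤ 1) ∧
  a.2.2.length ≤ (a.1 + 2) ^ K ∧ ∀ x ∈ a.2.2, |x| ≤ 1

private theorem Z2_vs (l : List ℤ) (h : ∀ x ∈ l, |x| ≤ 1) : vs (t := .arr) l ≤ l.length + 1 := by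
  have h1 : asz l ≤ 1 := asz_le fun x hx => by
    have h2 := abs_le.mp (h x hx)
    unfold BE.sz
    rw [Nat.size_le]
    omega
  have h2 : Nat.size l.length ≤ l.length := by
    rw [Nat.size_le]
    exact Nat.lt_two_pow_self
  show asz l + Nat.size l.length ≤ l.length + 1
  omega

private theorem Z2_arr {A : Type} {N : A → ℕ} {D : A → Prop} {f : A → List ℤ} {g : A → ℕ}
    (hg : Bd N D g) (h1 : ∀ a, D a → (f a).length ≤ g a) (h2 : ∀ a, D a → ∀ x ∈ f a, |x| ≤ 1) :
    ∃ k : ℕ, ∀ a, D a → vs (t := .arr) (f a) ≤ (N a + 2) ^ k := by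
  obtain ⟨m, hm⟩ := hg.add (Bd.const 1)
  exact ⟨m, fun a ha => (Z2_vs _ (h2 a ha)).trans ((Nat.add_le_add_right (h1 a ha) 1).trans
    (hm a ha))⟩

private theorem Z2_start (K : ℕ) : PN Prod.fst (Dj K) envi Prod.fst ∧
    PA Prod.fst (Dj K) envi (fun a => a.2.1) ∧ PA Prod.fst (Dj K) envi (fun a => a.2.2) := by
  have hn : Bd (Prod.fst : Gi → ℕ) (Dj K) Prod.fst := Bd.self
  refine ⟨Cp.top (t := .int) (f := fun b : Gi => (b.1 : ℤ)) hn.size, ?_, ?_⟩
  · refine Cp.wk (s := .int) (g := fun b : Gi => (b.1 : ℤ)) ?_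
    exact Cp.top (t := .arr) (f := fun b : Gi => b.2.1)
      (Z2_arr (hn.mul hn) (fun a ha => ha.1) fun a ha => ha.2.1)
  · refine Cp.wk (s := .int) (g := fun b : Gi => (b.1 : ℤ)) ?_
    refine Cp.wk (s := .arr) (g := fun b : Gi => b.2.1) ?_
    refine Cp.top (t := .arr) (f := fun b : Gi => b.2.2)
      (Z2_arr (g := fun a => (a.1 + 2) ^ K) ⟨K, fun a _ => le_rfl⟩ (fun a ha => ha.2.2.1)
        fun a ha => ha.2.2.2)

/-- The program. -/
theorem program2 (k P Q c₁ K : ℕ) : ∃ (e : GD.Ex [.int, .arr, .arr] .arr) (d : ℕ),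
    ∀ a : Gi, Dj K a →
      e.eval (envi a) = out a.1 a.2.1 (tb (Lk a.1 (k + 1)) fun i => gt a.2.2 i) k (be P Q c₁ a.1) ∧
      ∀ τ : ℝ, 2 ≤ τ → e.cost τ (envi a) ≤ ((a.1 : ℝ) + 2) ^ d * (2 ^ be P Q c₁ a.1 +
        if slow a.1 a.2.1 (tb (Lk a.1 (k + 1)) fun i => gt a.2.2 i) k (be P Q c₁ a.1)
          then 2 ^ a.1 else 0) := by
  obtain ⟨hn, hM, hR⟩ := Z2_start K
  have bn : Bd (Prod.fst : Gi → ℕ) (Dj K) Prod.fst := Bd.self
  have bZ : Bd (Prod.fst : Gi → ℕ) (Dj K) (fun a => Zn a.1) := by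
    refine Bd.le ((((Bd.const 2).mul (bn.mul bn)).add ((Bd.const 8).mul bn)).add (Bd.const 16))
      fun a _ => le_of_eq ?_
    unfold Zn
    ring
  have bR : Bd (Prod.fst : Gi → ℕ) (Dj K) (fun a => RL a.1) :=
    ((Bd.const 2).mul (bn.mul ((bd_kb bn).add (Bd.const 1)))).add (bn.mul bn) |>.add
      ((bd_Rn bn).mul bn)
  have hL : PN Prod.fst (Dj K) envi (fun a => Lk a.1 (k + 1)) :=
    PN.mul (PN.mul (PN.const (k + 1)) (c_Zn hn)) (c_RL hn)
  have hR' : PA Prod.fst (Dj K) envi (fun a => tb (Lk a.1 (k + 1)) fun i => gt a.2.2 i) :=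
    PA.tab hL (((Bd.const (k + 1)).mul bZ).mul bR) fun Γ1 ρ1 up hv => PI.get (up.a hR) hv
  have hb : PN Prod.fst (Dj K) envi (fun a => be P Q c₁ a.1) :=
    PN.add (PN.div (PN.mul (PN.const P) hn) (PN.const Q)) (PN.const c₁)
  have bb : Bd (Prod.fst : Gi → ℕ) (Dj K) (fun a => be P Q c₁ a.1) :=
    Bd.le (((Bd.const P).mul bn).add (Bd.const c₁)) fun a _ =>
      Nat.add_le_add_right (Nat.div_le_self _ _) _
  obtain ⟨e, d, h⟩ := c_out k hn bn hM hR' hb bb
  exact ⟨e, d, fun a ha => ⟨(h a ha).1, fun τ hτ => ((h a ha).2.2 τ hτ).2⟩⟩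

/-- The first `L` bits. -/
def res {M L : ℕ} (h : L ≤ M) (ρ : Fin M → Bool) : Fin L → Bool := fun i => ρ (Fin.castLE h i)

theorem tb_rb {M L : ℕ} (h : L ≤ M) (ρ : Fin M → Bool) :
    tb L (fun i => gt (rb ρ) i) = rb (res h ρ) := by
  refine List.ext_getElem ?_ fun i h1 h2 => ?_
  · simp [tb, rb]
  · have hi : i < L := by simpa [tb] using h1
    have hi' : i < (rb ρ).length := by
      unfold rb
      rw [List.length_ofFn]
      omega
    simp only [tb, List.getElem_map, List.getElem_range]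
    rw [gt, List.getD_eq_getElem _ _ hi']
    simp [rb, res]

theorem sum_res {X : Type} [CommSemiring X] {M L : ℕ} (h : L ≤ M) (f : (Fin L → Bool) → X) :
    (∑ ρ : Fin M → Bool, f (res h ρ)) * 2 ^ L = (∑ ρ : Fin L → Bool, f ρ) * 2 ^ M := by
  obtain ⟨d, rfl⟩ := Nat.exists_eq_add_of_le h
  have h1 : ∑ ρ : Fin (L + d) → Bool, f (res h ρ) =
      ∑ z : (Fin L → Bool) × (Fin d → Bool), f z.1 := by
    refine (Fintype.sum_equiv (Fin.appendEquiv L d) _ _ fun z => ?_).symm
    congr 1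
    funext i
    show z.1 i = Fin.append z.1 z.2 (Fin.castLE h i)
    have h2 : Fin.castLE h i = Fin.castAdd d i := rfl
    rw [h2, Fin.append_left]
  rw [h1, Fintype.sum_prod_type]
  simp only [Finset.sum_const, Finset.card_univ, Fintype.card_fun, Fintype.card_bool,
    Fintype.card_fin, nsmul_eq_mul]
  rw [← Finset.mul_sum, pow_add]
  push_cast
  ring

open scoped Classical in
theorem card_res {M L : ℕ} (h : L ≤ M) (P : (Fin L → Bool) → Prop) :
    (univ.filter fun ρ : Fin M → Bool => P (res h ρ)).card * 2 ^ L =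
      (univ.filter P).card * 2 ^ M := by
  have h1 := sum_res (X := ℕ) h fun ρ => if P ρ then 1 else 0
  simpa only [Finset.card_filter] using h1

end Pool.Agent.MPa9445a.GL
end
end

section

section

/-! The result. -/

set_option autoImplicit false

open Finset
open scoped symmDiff

namespace Pool.Agent.MPa9445a.GL

open Pool.Agent.MPa9445a.BE
open Pool.Agent.MPa9445a.SN (ST Fm rs kb)

variable {n : ℕ} {M : List ℤ}

/-- PROOF. `tp_spec` and `TopOk` for `p = tp`: `EE_cmp` (`tA ≠ []`), or a sample: `ST_rc`, `fv_sv`, `Phi_Ph`, index `z * 2 ^ b + κ`. -/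
theorem not_slow (hW : Wb (wtm n M)) (R : List ℤ) (k b : ℕ)
    (h : TopOk (wtm n M) k (2 ^ b) (SR n R (k + 1))) : ¬ slow n M R k b := by
  rintro ⟨hA, hS⟩
  obtain ⟨h1, h2, -⟩ := tp_spec (M := M) hW R k b
  rcases h _ h1 h2 with h3 | ⟨z, κ, hκ, h3⟩
  · have h4 := EE_cmp hW R (k + 1) (full n) (by rw [fv_full]; exact St_s0 n) _ h1 b
      (by rw [fv_full]; exact h3)
    exact h4 (List.length_eq_zero_iff.1 hA)
  · have hx : (z : ℕ) * 2 ^ b + κ < Zn n * 2 ^ b := by
      have h5 : (z : ℕ) + 1 ≤ Zn n := z.2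
      have h6 : ((z : ℕ) + 1) * 2 ^ b ≤ Zn n * 2 ^ b := Nat.mul_le_mul_right _ h5
      rw [Nat.add_mul, one_mul] at h6
      omega
    have hdiv : ((z : ℕ) * 2 ^ b + κ) / 2 ^ b = z := by
      rw [Nat.mul_comm, Nat.mul_add_div (by positivity), Nat.div_eq_of_lt hκ, Nat.add_zero]
    have hmod : ((z : ℕ) * 2 ^ b + κ) % 2 ^ b = κ := by
      rw [Nat.mul_comm, Nat.mul_add_mod, Nat.mod_eq_of_lt hκ]
    have hval : Phi n M (sv n (full n) (smc n R k b ((z : ℕ) * 2 ^ b + κ))) = tp n M R k b := by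
      rw [Phi_Ph, fv_sv, fv_full]
      unfold smc
      rw [hdiv, hmod, ST_rc]
      exact h3
    have hmem : (((z : ℕ) * 2 ^ b + κ : ℕ) : ℤ) ∈ tS n M R k b := by
      unfold tS flt
      rw [List.mem_map]
      refine ⟨(z : ℕ) * 2 ^ b + κ, ?_, rfl⟩
      rw [List.mem_filter]
      exact ⟨List.mem_range.2 hx, decide_eq_true hval⟩
    rw [List.length_eq_zero_iff.1 hS] at hmem
    exact absurd hmem List.not_mem_nil

end Pool.Agent.MPa9445a.GL
end

section

/-! All graphs. -/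

set_option autoImplicit false

open Finset

namespace Pool.Agent.MPa9445a.GL

open Pool.Agent.MPa9445a.BE
open Pool.Agent.MPa9445a.SN (rb)

open scoped Classical in
/-- Almost all arrays of random bits are fast for all graphs. PROOF. `not_slow`, `card_SR` (`Q8b`), `top_all` (`U1b`) with `ι = SimpleGraph (Fin n)`
(at most `2 ^ n ^ 2`: injective in `Fin n × Fin n → Bool`, see `SN/F1`), `W G = wtm n (M G)`, `Wb_of`; `Fintype.card (Sds n (k + 1)) = 2 ^ Lk n (k + 1)` by `SR_bij`. -/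
theorem fast_all {n k b : ℕ} (M : SimpleGraph (Fin n) → List ℤ) (hM : ∀ G, fm n (M G) = adjZ G)
    (hb : (pl n (k + 1) : ℝ) * γ (k + 1) ^ n ≤ 2 ^ b) :
    (univ.filter fun ρ : Fin (Lk n (k + 1)) → Bool => ∃ G, slow n (M G) (rb ρ) k b).card *
      2 ^ (n ^ 2 + n + 15) ≤ (k + 2) * 2 ^ Lk n (k + 1) := by
  have hinj : Function.Injective
      (fun (G : SimpleGraph (Fin n)) (p : Fin n × Fin n) => decide (G.Adj p.1 p.2)) := by
    intro G G' h
    ext u v
    have h1 := congrFun h (u, v)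
    simp only at h1
    rw [decide_eq_decide] at h1
    exact h1
  have hB : (pl n (k + 1) : ℝ) * γ (k + 1) ^ n ≤ ((2 ^ b : ℕ) : ℝ) := by
    push_cast
    exact hb
  obtain ⟨P, hP⟩ : ∃ P : Sds n (k + 1) → Prop, P = fun ω => ¬ ∀ G : SimpleGraph (Fin n),
    TopOk (wtm n (M G)) k (2 ^ b) ω := ⟨_, rfl⟩
  have h1 : (@Finset.filter (Sds n (k + 1)) P (fun _ => Classical.propDecidable _) univ).card *
      2 ^ (n ^ 2 + n + 15) ≤ (k + 2) * Fintype.card (Sds n (k + 1)) := by
    have hι : Fintype.card (SimpleGraph (Fin n)) ≤ 2 ^ n ^ 2 := by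
      refine (Fintype.card_le_of_injective _ hinj).trans (le_of_eq ?_)
      rw [Fintype.card_fun, Fintype.card_prod, Fintype.card_fin, Fintype.card_bool, sq]
    have h0 := top_all hι (fun G => wtm n (M G)) (fun G => Wb_of (hM G)) (k := k) hB
    refine le_trans (Nat.mul_le_mul_right _ (le_of_eq ?_)) h0
    subst hP
    congr 1
    exact Finset.filter_congr_decidable _ _ _
  have h2 : Fintype.card (Sds n (k + 1)) = 2 ^ Lk n (k + 1) := by
    rw [← Fintype.card_of_bijective (SR_bij n (k + 1)), Fintype.card_fun, Fintype.card_fin,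
      Fintype.card_bool]
  rw [h2] at h1
  refine le_trans (Nat.mul_le_mul_right _ ?_) h1
  rw [← @card_SR n (k + 1) P (fun _ => Classical.propDecidable _)
    (fun _ => Classical.propDecidable _)]
  refine Finset.card_le_card fun ρ hρ => ?_
  rw [Finset.mem_filter] at hρ ⊢
  refine ⟨hρ.1, ?_⟩
  rw [hP]
  intro h5
  obtain ⟨G, hG⟩ := hρ.2
  exact not_slow (Wb_of (hM G)) (rb ρ) k b (h5 G) hG

end Pool.Agent.MPa9445a.GL
end
end
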