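import Pool.Agent.Lib.MP_a9445a_lc.Mg.G103
import Pool.Agent.Lib.MP_a9445a_lc.Mg.G105
import Pool.Agent.Lib.MP_a9445a_lc.SN.Alg2
import Pool.Agent.Lib.MP_a9445a_lc.Mg.G120
import Pool.Agent.Lib.MP_a9445a_lc.Mg.G136
import Pool.Agent.Lib.MP_a9445a_lc.Mg.G096
import Pool.Agent.Lib.MP_a9445a_lc.Mg.G097
import Pool.Agent.Lib.MP_a9445a_lc.Mg.G095
import Pool.Agent.Lib.MP_a9445a_lc.Mg.G122
import Pool.Agent.Lib.MP_a9445a_lc.Mg.G114
import Pool.Agent.Lib.MP_a9445a_lc.SB.D6a
import Pool.Agent.Lib.MP_a9445a_lc.Mg.G099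
import Pool.Agent.Lib.MP_a9445a_lc.Mg.G098
import Pool.Agent.Lib.MP_a9445a_lc.Mg.G128
import Pool.Agent.Lib.MP_a9445a_lc.Mg.G104
import Pool.Agent.Lib.MP_a9445a_lc.Mg.G100

section

section

/-! The array of a repetition with its table. -/

set_option autoImplicit false

open Finset
open scoped symmDiff

namespace Pool.Agent.MPa9445a.SX

open Pool.Agent.MPa9445a.BE
open Pool.Agent.MPa9445a.SN (ST Fm rs kb)
open Pool.Agent.MPa9445a.GL (Vc S Ph Lv Fr lvl LL lvv rk rc fR bl)
open Pool.Agent.MPa9445a.GS (oT oH Rz cct TB fof)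
open Pool.Agent.MPa9445a.SB (Rf Hm Om)

variable {n : ℕ}

/-- The random objects of a repetition. -/
def omA (n : ℕ) (A : List ℤ) : Om n := (fRs n A 0, fRs n A 1, fR3 n A (oo n))

/-- The map onto the sets in the code, as a function of the code. -/
def phH {n : ℕ} (h : Hm n (SB.Rc n)) (Q X : Finset (Fin n)) : Finset (Fin n) :=
  GS.cmb (GS.kz Q (fun i => if hi : i < SB.Rc n then h ⟨i, hi⟩ else ∅) (SB.Rc n)) X

/-- The model of the golden procedure of the program. -/
noncomputable def GoR (n : ℕ) (M R : List ℤ) : Rf n := fun X a j =>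
  if GS.GO n M R (GS.bkA n (∑ v ∈ X, 2 ^ (v : ℕ))) a j = [] then none else
    some (Lv (wtm n M) (SB.bl X) a)

private theorem V0_kz_congr (Q : Finset (Fin n)) {h h' : ℕ → Finset (Fin n)} (k : ℕ)
    (H : ∀ i < k, h i = h' i) : GS.kz Q h k = GS.kz Q h' k := by
  induction k with
  | zero => rfl
  | succ k ih =>
    show GS.pv (h k) (GS.kz Q h k) = GS.pv (h' k) (GS.kz Q h' k)
    rw [ih fun i hi => H i (Nat.lt_succ_of_lt hi), H k (Nat.lt_succ_self k)]

/-- PROOF. `kz Q h i` only uses the rows `h i'` with `i' < i` (induction over `i`). -/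
theorem phR_eq (R : List ℤ) : phR n R = phH (hR n R) := by
  funext Q X
  unfold phR phH
  congr 1
  refine V0_kz_congr Q _ fun i hi => ?_
  rw [dif_pos hi]
  rfl

private theorem V0_mem (h : Hm n (SB.Rc n)) (Q D : Finset (Fin n)) :
    D ∈ SB.Cc h Q ↔ ∃ w, GS.cmb (GS.kz Q
      (fun i => if hi : i < SB.Rc n then h ⟨i, hi⟩ else ∅) (SB.Rc n)) w = D := by
  rw [GS.range_kz]
  unfold SB.Cc
  rw [mem_filter, mem_powerset]
  constructor
  · rintro ⟨h1, h2⟩
    refine ⟨h1, fun i' hi' => ?_⟩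
    have h3 := h2 ⟨i', hi'⟩
    rw [dif_pos hi']
    exact Nat.even_iff.mp h3
  · rintro ⟨h1, h2⟩
    refine ⟨h1, fun j => ?_⟩
    have h3 := h2 j.1 j.2
    rw [dif_pos j.2] at h3
    exact Nat.even_iff.mpr h3

/-- PROOF. As `fib_phR` (`T12`). -/
theorem fib_phH (h : Hm n (SB.Rc n)) (Q : Finset (Fin n)) : SB.Fib (phH h Q) (SB.Cc h Q) := by
  have hmem : ∀ X, phH h Q X ∈ SB.Cc h Q := fun X => (V0_mem h Q _).mpr ⟨X, rfl⟩
  refine ⟨hmem, ?_⟩
  have hfib : ∀ D ∈ SB.Cc h Q, (univ.filter fun X => phH h Q X = D).card =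
      (univ.filter fun w => GS.cmb (GS.kz Q
        (fun i => if hi : i < SB.Rc n then h ⟨i, hi⟩ else ∅) (SB.Rc n)) w = ∅).card := by
    intro D hD
    obtain ⟨w₀, hw₀⟩ := (V0_mem h Q D).mp hD
    have h1 := GS.card_fibre (GS.kz Q
      (fun i => if hi : i < SB.Rc n then h ⟨i, hi⟩ else ∅) (SB.Rc n)) w₀
    rw [hw₀] at h1
    exact h1
  have hsum : (2 : ℕ) ^ n = ∑ D ∈ SB.Cc h Q, (univ.filter fun X => phH h Q X = D).card := by
    have h1 := Finset.card_eq_sum_card_fiberwise (f := phH h Q)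
      (s := (univ : Finset (Finset (Fin n)))) (t := SB.Cc h Q) (fun X _ => hmem X)
    rw [← h1, Finset.card_univ, Fintype.card_finset, Fintype.card_fin]
  intro D hD
  rw [hsum, Finset.sum_congr rfl hfib, Finset.sum_const, smul_eq_mul, hfib D hD, mul_comm]

private theorem V0_gt_tb (k : ℕ) (f : ℕ → ℤ) {i : ℕ} (h : i < k) : gt (tb k f) i = f i := by
  unfold gt tb
  rw [List.getD_eq_getElem _ _ (by rw [List.length_map, List.length_range]; exact h),
    List.getElem_map, List.getElem_range]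

/-- PROOF. `cct` is the `fm` over two indices: the first part is `cpy` with `oT n` entries. -/
theorem gt_RT (M R : List ℤ) (z : ℕ) {i : ℕ} (hi : i < oT n) :
    gt (RT n M R z) i = gt (Rz n R z) i := by
  unfold RT cct
  rw [GD.fm_succ, GD.fm_succ, GD.fm_zero, List.nil_append, if_pos rfl]
  have hl : (GS.cpy (oT n) (Rz n R z)).length = oT n := by
    unfold GS.cpy tb
    rw [List.length_map, List.length_range]
  have h1 : ∀ T : List ℤ, gt (GS.cpy (oT n) (Rz n R z) ++ T) i =
      gt (GS.cpy (oT n) (Rz n R z)) i := by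
    intro T
    unfold gt
    rw [List.getD_append _ _ _ _ (by rw [hl]; exact hi)]
  rw [h1]
  unfold GS.cpy
  rw [V0_gt_tb _ _ hi]

/-- PROOF. `fR` uses the entries `o ≤ i < o + bl n`. -/
theorem fR_congr {R R' : List ℤ} {o : ℕ} (h : ∀ i < bl n, gt R (o + i) = gt R' (o + i)) :
    fR n R o = fR n R' o := by
  funext v j
  unfold fR
  have h1 : (v : ℕ) * (kb n + 1) + (j : ℕ) < bl n := by
    unfold GL.bl
    have h2 := v.2
    have h3 := j.2
    calc (v : ℕ) * (kb n + 1) + (j : ℕ) < (v : ℕ) * (kb n + 1) + (kb n + 1) := by omega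
      _ = ((v : ℕ) + 1) * (kb n + 1) := by ring
      _ ≤ n * (kb n + 1) := Nat.mul_le_mul_right _ h2
  have h2 := h _ h1
  rw [← add_assoc] at h2
  rw [h2]

private theorem V0_oF_le (n : ℕ) : GS.oF n ≤ oT n := by
  unfold GS.oT
  exact Nat.le_add_right _ _

/-- PROOF. The rows are in the entries `oH n ≤ i < oH n + Rc n * n ≤ oT n`; `gt_RT`. -/
theorem hR_RT (M R : List ℤ) (z : ℕ) : hR n (RT n M R z) = hR n (Rz n R z) := by
  funext i
  unfold hR GS.rowR
  refine Finset.filter_congr fun v _ => ?_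
  have h1 : oH n + (i : ℕ) * n + (v : ℕ) < oT n := by
    refine lt_of_lt_of_le ?_ (V0_oF_le n)
    unfold GS.oF
    have h2 := v.2
    have h3 : (i : ℕ) + 1 ≤ GS.Rc n := i.2
    have h4 : ((i : ℕ) + 1) * n ≤ GS.Rc n * n := Nat.mul_le_mul_right _ h3
    have h5 : ((i : ℕ) + 1) * n = (i : ℕ) * n + n := by ring
    omega
  rw [gt_RT M R z h1]

private theorem V0_fR (M R : List ℤ) (z : ℕ) {o : ℕ} (h : o + bl n ≤ oT n) :
    fR n (RT n M R z) o = fR n (Rz n R z) o :=
  fR_congr fun i hi => gt_RT M R z (by omega)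

private theorem V0_fR3 (M R : List ℤ) (z : ℕ) {o : ℕ} (h : o + 3 * bl n ≤ oT n) :
    fR3 n (RT n M R z) o = fR3 n (Rz n R z) o := by
  unfold fR3
  rw [V0_fR M R z (by omega), V0_fR M R z (by omega), V0_fR M R z (by omega)]

private theorem V0_fof {lev y : ℕ} (h : lev * n + y ≤ 2 * n) :
    fof n lev y 0 + 3 * bl n ≤ oT n := by
  unfold GS.fof GS.oT
  have h1 : ((lev * n + y) * 3 + 0) * bl n + 3 * bl n = ((lev * n + y) + 1) * (3 * bl n) := by ring
  have h2 : (2 * n + 1) * 3 * bl n = (2 * n + 1) * (3 * bl n) := by ring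
  have h3 : ((lev * n + y) + 1) * (3 * bl n) ≤ (2 * n + 1) * (3 * bl n) :=
    Nat.mul_le_mul_right _ (by omega)
  omega

/-- PROOF. `fR_congr`, `gt_RT`: all families are below `oT n = fof n 2 1 0`. -/
theorem omA_RT (M R : List ℤ) (z : ℕ) : omA n (RT n M R z) = omA n (Rz n R z) := by
  unfold omA
  have h0 : fRs n (RT n M R z) 0 = fRs n (Rz n R z) 0 := by
    funext y
    unfold fRs
    exact V0_fR3 M R z (V0_fof (by have := y.2; omega))
  have h1 : fRs n (RT n M R z) 1 = fRs n (Rz n R z) 1 := by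
    funext y
    unfold fRs
    exact V0_fR3 M R z (V0_fof (by have := y.2; omega))
  have h2 : fR3 n (RT n M R z) (oo n) = fR3 n (Rz n R z) (oo n) := by
    unfold oo
    exact V0_fR3 M R z (V0_fof (by omega))
  rw [h0, h1, h2]

end Pool.Agent.MPa9445a.SX
end

section

/-! The samples of the top level. -/

set_option autoImplicit false

open Finset
open scoped symmDiff

namespace Pool.Agent.MPa9445a.SX

open Pool.Agent.MPa9445a.BE
open Pool.Agent.MPa9445a.SN (ST Fm rs kb)
open Pool.Agent.MPa9445a.GL (Vc S Ph Lv Fr lvl LL lvv rk rc fR bl sv full xk YS)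
open Pool.Agent.MPa9445a.GS (oT oH Rz cct TB fof g0)
open Pool.Agent.MPa9445a.SB (Rf Hm Om ht Jn df Wi)
open Pool.Agent.MPa9445a.BW (bw)

variable {n : ℕ}

/-- PROOF. `GL.fv_full` (`GL/Q9a`), both are `2` everywhere. -/
theorem fv_full_bl : fv n (full n) = SB.bl (univ : Finset (Fin n)) := by
  rw [GL.fv_full]
  funext v
  unfold SB.bl
  rw [if_pos (mem_univ v)]
  rfl

/-- The sample number `y` of value `t`. PROOF. `YS` lists the indices `κ < 2 ^ e` of value `t` in increasing order, so `κ` is the entry with the number `#{κ' < κ of value t}` (see `GL/Q6d` or `GL/Q7c` for the same fact, `SN.flt_gt`); `fv_smp`, `GL.Phi_Ph`, `lgn_lg`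
(`jx n n (g0 n)` is the exponent of `Jn n n (g0 n)`). -/
theorem smp_idx (M A : List ℤ) (t : ℤ) {κ : ℕ}
    (hκ : κ ∈ ht (wtm n M) univ (fR n A (oo n)) (Jn n n (g0 n)) t) :
    gt (YS n M A (oo n) (full n) (jx n n (g0 n)) t)
      ((ht (wtm n M) univ (fR n A (oo n)) (Jn n n (g0 n)) t).filter fun κ' => κ' < κ).card =
        (κ : ℤ) := by
  classical
  have hJ : Jn n n (g0 n) = 2 ^ jx n n (g0 n) := by
    unfold SB.Jn jx
    rw [lgn_lg]
  have hq : ∀ κ : ℕ, Phi n M (sv n (full n) (rc n A (oo n) κ)) =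
      Ph (wtm n M) (xk (SB.bl univ) (fR n A (oo n)) κ) := by
    intro κ
    rw [GL.Phi_Ph, fv_smp A (oo n) fv_full_bl κ]
  unfold SB.ht at hκ
  rw [mem_filter, mem_range] at hκ
  obtain ⟨h1, h2⟩ := hκ
  obtain ⟨y, hy1, hy2, hy3⟩ := SN.flt_pos (k := 2 ^ jx n n (g0 n))
    (fun κ => Phi n M (sv n (full n) (rc n A (oo n) κ)) = t) (by rw [← hJ]; exact h1) (by
      change Phi n M (sv n (full n) (rc n A (oo n) κ)) = t
      rw [hq]
      exact h2)
  have hy4 : ((ht (wtm n M) univ (fR n A (oo n)) (Jn n n (g0 n)) t).filter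
      fun κ' => κ' < κ).card = y := by
    rw [hy2]
    congr 1
    ext κ'
    unfold SB.ht
    simp only [mem_filter, mem_range, hq]
    constructor
    · rintro ⟨⟨_, h4⟩, h5⟩
      exact ⟨h5, h4⟩
    · rintro ⟨h5, h4⟩
      exact ⟨⟨lt_trans h5 h1, h4⟩, h5⟩
  rw [hy4]
  unfold GL.YS
  exact hy3

end Pool.Agent.MPa9445a.SX
end

section

/-! The balls. -/

set_option autoImplicit false

open Finset
open scoped symmDiff

namespace Pool.Agent.MPa9445a.SX

open Pool.Agent.MPa9445a.BE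
open Pool.Agent.MPa9445a.SN (ST Fm rs kb)
open Pool.Agent.MPa9445a.GL (Vc S Ph Lv Fr lvl LL lvv rk rc fR bl sv full xk YS)
open Pool.Agent.MPa9445a.GS (oT oH Rz cct TB fof g0)
open Pool.Agent.MPa9445a.SB (Rf Hm Om ht Jn df Wi)
open Pool.Agent.MPa9445a.BW (bw)

variable {n : ℕ}

private theorem V1b_mem {x : Vc n} (hx : x ∈ S (SB.bl univ)) (v : Fin n) : x v = 1 ∨ x v = -1 := by
  have h := Fintype.mem_piFinset.1 hx v
  simpa [SB.bl] using h

private theorem V1b_near (hn : 0 < n) {M : List ℤ} (hM : ∀ z ∈ M, |z| ≤ 1) {x y : Vc n}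
    (hx : ∀ v, x v = 1 ∨ x v = -1) {Y : List ℤ} (hY : fv n Y = y)
    (h : 10000 * (df x y).card ≤ 4999 * n) : Ph (wtm n M) x ≤ Phi n M (vec n (bw n M Y)) := by
  subst hY
  exact BW.bw_opt hn hM hx h

private theorem V1b_neg (W : Matrix (Fin n) (Fin n) ℤ) (x : Vc n) :
    Ph W (fun v => -x v) = Ph W x := by
  unfold GL.Ph
  refine Finset.sum_congr rfl fun u _ => Finset.sum_congr rfl fun v _ => ?_
  ring

private theorem V1b_card {x y : Vc n} (hx : ∀ v, x v = 1 ∨ x v = -1) (hy : ∀ v, y v = 1 ∨ y v = -1) :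
    (df (fun v => -x v) y).card + (df x y).card = n := by
  have h : df (fun v => -x v) y = (df x y)ᶜ := by
    ext v
    unfold SB.df
    rw [Finset.mem_compl, Finset.mem_filter, Finset.mem_filter]
    rcases hx v with h1 | h1 <;> rcases hy v with h2 | h2 <;> simp [h1, h2]
  rw [h, Finset.card_compl, Fintype.card_fin]
  have := Finset.card_le_univ (df x y)
  rw [Fintype.card_fin] at this
  omega

/-- The ball around a vector contains `x` or `-x`. PROOF. `BW.bw_opt` for `x` or for `-x` (`Ph W (-x) = Ph W x`). If `Wi 4999 n #(df x y)` is false then `10000 * #(df x y) < 4999 * n` or `10000 * #(df x y) > 5001 * n`; in the second case `#(df (-x) y) = n - #(df x y)` (both vectors have only entries `1`, `-1`). `BE.bq W x x` and `GL.Ph W x` are the same. -/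
theorem ball (hn : 0 < n) {M : List ℤ} (hM : ∀ z ∈ M, |z| ≤ 1) {x y : Vc n}
    (hx : x ∈ S (SB.bl univ)) (hy : y ∈ S (SB.bl univ)) {Y : List ℤ} (hY : fv n Y = y)
    (h : ¬ Wi 4999 n (df x y).card) : Ph (wtm n M) x ≤ Phi n M (vec n (bw n M Y)) := by
  by_cases h1 : 10000 * (df x y).card ≤ 4999 * n
  · exact V1b_near hn hM (V1b_mem hx) hY h1
  · have h2 : ¬ (10000 * (df x y).card ≤ (10000 - 4999) * n) := fun h3 => h ⟨by omega, h3⟩
    have h3 := V1b_card (V1b_mem hx) (V1b_mem hy)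
    have h4 : 10000 * (df (fun v => -x v) y).card ≤ 4999 * n := by omega
    have h5 := V1b_near hn hM (x := fun v => -x v) (fun v => by
      rcases V1b_mem hx v with h6 | h6 <;> simp [h6]) hY h4
    rwa [V1b_neg] at h5

/-- The ball around a vector contains the vector. PROOF. `BW.bw_opt`. -/
theorem ball_self (hn : 0 < n) {M : List ℤ} (hM : ∀ z ∈ M, |z| ≤ 1) {y : Vc n}
    (hy : y ∈ S (SB.bl univ)) {Y : List ℤ} (hY : fv n Y = y) :
    Ph (wtm n M) y ≤ Phi n M (vec n (bw n M Y)) := by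
  refine V1b_near hn hM (V1b_mem hy) hY ?_
  have h : df y y = ∅ := by
    unfold SB.df
    simp
  rw [h]
  simp

end Pool.Agent.MPa9445a.SX
end

section

/-! The candidates of a repetition: the list of the top level. -/

set_option autoImplicit false

open Finset
open scoped symmDiff

namespace Pool.Agent.MPa9445a.SX

open Pool.Agent.MPa9445a.BE
open Pool.Agent.MPa9445a.SN (ST Fm rs kb)
open Pool.Agent.MPa9445a.GL (Vc S Ph Lv Fr lvl LL lvv rk rc fR bl sv full xk YS Cpl cdv tl)
open Pool.Agent.MPa9445a.GS (oT oH Rz cct TB fof g0 dmL)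
open Pool.Agent.MPa9445a.SB (Rf Hm Om ht Jn df Wi Lev TOk oT)

variable {n : ℕ}

private theorem V2a_gt_pkM (M : List ℤ) (m : ℕ) : gt (GS.pkM n M m) (n * n) = m := by
  unfold GS.pkM tb gt
  have h : n * n < (List.map (fun i => if i < n * n then M.getD i 0 else (m : ℤ))
      (List.range (n * n + 1))).length := by simp
  rw [List.getD_eq_getElem _ _ h]
  simp

private theorem V2a_tl (l : List ℤ) {c : ℤ} (h : c ∈ tl l) : gt l 1 ∈ tl l := by
  unfold tl tb at h ⊢
  rw [List.mem_map] at h ⊢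
  obtain ⟨i, hi, _⟩ := h
  exact ⟨0, List.mem_range.2 (lt_of_le_of_lt (Nat.zero_le i) (List.mem_range.1 hi)), rfl⟩

private theorem V2a_vec {x : Vc n} (hx : x ∈ S (SB.bl (univ : Finset (Fin n)))) :
    fv n (vec n (cdv x).toNat) = x := by
  funext v
  rw [SN.fv_vec, GL.ST_cdv, SN.sgn]
  have h1 := (mem_Sbl.1 hx v).1 (mem_univ v)
  by_cases h2 : x v = 1
  · have h3 : v ∈ univ.filter fun v => x v = 1 := mem_filter.2 ⟨mem_univ v, h2⟩
    rw [if_pos h3, h2]
  · have h3 : v ∉ univ.filter fun v => x v = 1 := fun h3 => h2 (mem_filter.1 h3).2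
    rw [if_neg h3]
    rcases h1 with h1 | h1
    · exact absurd h1 h2
    · exact h1.symm

/-- The model of the top level is finished for all pairs. -/
private theorem V2a_Fin2 {M R : List ℤ} {Go : Rf n} (h : HR n (wtm n M) R Go) (PA PB : Lev)
    (m : ℕ) : Fin2 univ (SB.Wn 4999 m
      (SB.E1 (wtm n M) Go (hR n R) (phR n R) PA PB (fRs n R 0) (fRs n R 1))) := by
  refine Fin2_of (fun X _ a ha j hj => ?_) (fun X _ a ha j A hA => ?_)
  · unfold SB.Wn
    by_cases hW : Wi 4999 m X.card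
    · rw [if_pos hW]
      unfold SB.E1 SB.nd
      rw [if_pos hj]
      exact Option.some_ne_none _
    · rw [if_neg hW]
      exact Option.some_ne_none _
  · unfold SB.Wn at hA
    by_cases hW : Wi 4999 m X.card
    · rw [if_pos hW] at hA
      have h1 := P1_rp h PA PB (M := M) rfl X (subset_univ X) (lst n (SB.bl X))
        (fv_lst n (SB.bl X)) a ha j
      rcases h1 with ⟨h2, _⟩ | ⟨B, L, h2, _, _, h3⟩
      · rw [h2] at hA
        exact absurd hA (by simp)
      · rw [h2] at hA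
        have h4 : B = A := Option.some.inj hA
        rw [← h4]
        exact h3
    · rw [if_neg hW] at hA
      have h4 : (∅ : Finset (Vc n)) = A := Option.some.inj hA
      rw [← h4]
      exact empty_subset _

/-- The loop of the top level. PROOF. `P1_rp` for `M' = pkM n M n` (`wtm_pkM`), `WnL_rp` (the entry `n * n` of `M'` is `n = #univ`), `Fin2_of`, then `UL_nil` and `mem_UL` for `Q = univ`, `P = SB.P0`, `F = fun _ => E1 ..` (`rk (full n) n = n`); `SB.cT`, `SB.oT` unfolded;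
`hR_RT`, `omA_RT`, `phR_eq`. The first entry of the list is the code of a vector of `oT`, which has value `p`. -/
theorem UT_spec {M R : List ℤ} {z : ℕ} {Go : Rf n} (h : HR n (wtm n M) (RT n M R z) Go)
    (PA PB : Lev) {b : ℕ} {p t : ℤ} {x : Vc n}
    (hT : SB.cT (wtm n M) Go (hR n (Rz n R z)) (phR n (Rz n R z)) PA PB p (omA n (Rz n R z)) t ≤
      2 ^ b)
    (hx : x ∈ SB.oT (wtm n M) Go (hR n (Rz n R z)) (phR n (Rz n R z)) PA PB p
      (omA n (Rz n R z)) t) :
    Phi n M (vec n (gt (UT PA PB b n M R z p t) 1).toNat) = p := by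
  rw [phR_eq, ← hR_RT M, ← phR_eq, ← omA_RT M] at hT hx
  set R' := RT n M R z with hR'
  have hs : fv n (full n) = SB.bl (univ : Finset (Fin n)) := fv_full_bl
  set F : ℕ → Rf n := fun _ =>
    SB.E1 (wtm n M) Go (hR n R') (phR n R') PA PB (fRs n R' 0) (fRs n R' 1) with hFdef
  have hcard : (univ : Finset (Fin n)).card = n := by rw [card_univ, Fintype.card_fin]
  have hCh : Rp n univ (GS.WnL 4999 (P1 PA PB) n
      (GS.pkM n M (univ : Finset (Fin n)).card) R')
      (SB.Wn SB.P0.d (univ : Finset (Fin n)).card (F (univ : Finset (Fin n)).card)) :=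
    WnL_rp (V2a_gt_pkM M _) (P1_rp h PA PB (wtm_pkM M _)) 4999
  have hF : Fin2 univ (SB.Wn SB.P0.d (univ : Finset (Fin n)).card
      (F (univ : Finset (Fin n)).card)) := V2a_Fin2 h PA PB _
  have hne : (UT PA PB b n M R z p t).length ≠ 0 := by
    intro h0
    have h1 := (UL_nil (P := SB.P0) (F := F) (Ch := GS.WnL 4999 (P1 PA PB)) (M := M) h.hd hCh hF
      hs (oo n) (g0 n) p b t).1 h0
    exact h1 hT
  have key := fun c => mem_UL (P := SB.P0) (F := F) (Ch := GS.WnL 4999 (P1 PA PB)) (M := M) h.hd hCh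
    hF hs (o := oo n) (g := g0 n) (p := p) (b := b) (t := t) hne c
  have hoT : SB.oR (wtm n M) (SB.Wn SB.P0.d (univ : Finset (Fin n)).card
      (F (univ : Finset (Fin n)).card)) univ (SB.dU (phR n R') univ (fR3 n R' (oo n)))
      (2 ^ SB.eU (wtm n M) (hR n R') univ (g0 n) (fR3 n R' (oo n)) t) ((p + t) / 2) p =
      SB.oT (wtm n M) Go (hR n R') (phR n R') PA PB p (omA n R') t := by
    unfold SB.oT
    rw [hcard]
    rfl
  have hmem : cdv x ∈ tl (UT PA PB b n M R z p t) := by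
    refine (key (cdv x)).2 ⟨x, ?_, rfl⟩
    rw [hoT]
    exact hx
  obtain ⟨y, hy, hyc⟩ := (key _).1 (V2a_tl _ hmem)
  have hyp : Ph (wtm n M) y = p := by
    unfold SB.oR at hy
    exact (mem_filter.1 hy).2
  have hyS : y ∈ S (SB.bl (univ : Finset (Fin n))) := by
    rcases Nat.eq_zero_or_pos n with hn | hn
    · subst hn
      exact mem_Sbl.2 fun v => v.elim0
    · have hQ : HQ n M R' Go SB.P0 (GS.WnL 4999 (P1 PA PB)) F univ :=
        ⟨h.hd, h.eb, hCh, hF, fun g ω t w => Fin2_Ew h SB.P0 univ g ω t w⟩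
      refine oA_sub hn hQ hs (oo n) (g0 n) p t ?_
      unfold SB.oA
      exact mem_union_left _ hy
  have hUT : gt (UT PA PB b n M R z p t) 1 = cdv y := hyc.symm
  rw [hUT, GL.Phi_Ph, V2a_vec hyS, hyp]

end Pool.Agent.MPa9445a.SX
end

section

/-! The random bits of a repetition. -/

set_option autoImplicit false

open Finset
open scoped symmDiff

namespace Pool.Agent.MPa9445a.SX

open Pool.Agent.MPa9445a.BE
open Pool.Agent.MPa9445a.SN (ST Fm rs kb rb)
open Pool.Agent.MPa9445a.GL (Vc S Ph Lv Fr lvl LL lvv rk rc fR bl res SR)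
open Pool.Agent.MPa9445a.GS (oT oH Rz RB)
open Pool.Agent.MPa9445a.SB (Rf Hm Om)

variable {n : ℕ}

/-- The random bits of the golden procedure. -/
def bG (n : ℕ) (ρ : Fin (Lb n) → Bool) : Fin (oH n) → Bool :=
  res (Nat.le_add_right (oH n) (NR n * RB n)) ρ

/-- The random bits of the repetition `z`. -/
def bz (n : ℕ) (ρ : Fin (Lb n) → Bool) (z : Fin (NR n)) : Fin (RB n) → Bool := fun i =>
  ρ ⟨oH n + (z * RB n + i), by
    have h1 : (z : ℕ) * RB n + i < NR n * RB n := by
      calc (z : ℕ) * RB n + i < z * RB n + RB n := by omega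
        _ = (z + 1) * RB n := by ring
        _ ≤ NR n * RB n := Nat.mul_le_mul_right _ z.2
    unfold Lb
    omega⟩

/-- The array with the bits `β` after `oH n` entries `0`. -/
def ofB (n : ℕ) (β : Fin (RB n) → Bool) : List ℤ := tb (oH n + RB n) fun i =>
  if i < oH n then 0 else gt (rb β) (i - oH n)

private theorem V4a_gt_rb {L : ℕ} (ρ : Fin L → Bool) {i : ℕ} (h : i < L) :
    gt (rb ρ) i = ((ρ ⟨i, h⟩).toNat : ℤ) := by
  have hi : i < (rb ρ).length := by
    unfold SN.rb
    rw [List.length_ofFn]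
    exact h
  rw [gt, List.getD_eq_getElem _ _ hi]
  simp [SN.rb]

private theorem V4a_oF : oH n ≤ GS.oF n := Nat.le_add_right _ _

private theorem V4a_oT : GS.oF n ≤ oT n := Nat.le_add_right _ _

private theorem V4a_key (ρ : Fin (Lb n) → Bool) (z : Fin (NR n)) {i : ℕ} (h0 : oH n ≤ i)
    (hi : i < oT n) : gt (rb ρ) (i + z * RB n) = gt (ofB n (bz n ρ z)) i := by
  have hRB : oH n + RB n = oT n := by
    have h1 := V4a_oF (n := n)
    have h2 := V4a_oT (n := n)
    unfold RB
    omega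
  have h1 : i - oH n < RB n := by omega
  have h2 : (z : ℕ) * RB n + (i - oH n) < NR n * RB n := by
    calc (z : ℕ) * RB n + (i - oH n) < z * RB n + RB n := by omega
      _ = (z + 1) * RB n := by ring
      _ ≤ NR n * RB n := Nat.mul_le_mul_right _ z.2
  have h3 : i + z * RB n < Lb n := by
    unfold Lb
    omega
  rw [V4a_gt_rb ρ h3]
  unfold ofB
  rw [gt, BE.getD_tb, if_pos (by omega), if_neg (not_lt.mpr h0), V4a_gt_rb _ h1]
  unfold bz
  have h4 : i + z * RB n = oH n + (z * RB n + (i - oH n)) := by omega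
  congr 4

/-- The array of the repetition has the same entries as the array for its bits, from `oH n` on. PROOF. `Rz`, `ofB`, `bz`, `rb` entrywise (`oT n = oH n + RB n`). The entries `i + z * RB n - (u + 1)`, `u < n - 1`, of the last entry of a row are at least `oH n + z * RB n`
because `n - 1 ≤ (i - oH n) % n`. -/
theorem Rz_rb (ρ : Fin (Lb n) → Bool) (z : Fin (NR n)) {i : ℕ} (h0 : oH n ≤ i) (hi : i < oT n) :
    gt (Rz n (rb ρ) z) i = gt (Rz n (ofB n (bz n ρ z)) 0) i := by
  have e0 : ∀ m : ℕ, m + 0 * RB n = m := fun m => by rw [Nat.zero_mul, Nat.add_zero]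
  unfold Rz
  rw [gt, gt, BE.getD_tb, BE.getD_tb, if_pos hi, if_pos hi, if_neg (not_lt.mpr h0),
    if_neg (not_lt.mpr h0)]
  by_cases hc : i < GS.oF n ∧ (i - oH n) % n = n - 1
  · rw [if_pos hc, if_pos hc]
    congr 1
    refine Finset.sum_congr rfl fun u hu => ?_
    rw [mem_range] at hu
    have h1 : n - 1 ≤ i - oH n := by
      rw [← hc.2]
      exact Nat.mod_le _ _
    have h2 : oH n ≤ i - (u + 1) := by omega
    have h3 : i - (u + 1) < oT n := by omega
    have h4 : i + z * RB n - (u + 1) = i - (u + 1) + z * RB n := by omega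
    rw [h4, e0, V4a_key ρ z h2 h3]
  · rw [if_neg hc, if_neg hc, e0, V4a_key ρ z h0 hi]

/-- PROOF. `Rz_rb`, `fR_congr`, the rows. -/
theorem hR_rb (ρ : Fin (Lb n) → Bool) (z : Fin (NR n)) :
    hR n (Rz n (rb ρ) z) = hR n (Rz n (ofB n (bz n ρ z)) 0) := by
  funext i
  unfold hR GS.rowR
  ext v
  have h1 : (i : ℕ) * n + v < GS.Rc n * n := by
    calc (i : ℕ) * n + v < i * n + n := Nat.add_lt_add_left v.2 _
      _ = (i + 1) * n := by ring
      _ ≤ GS.Rc n * n := Nat.mul_le_mul_right _ i.2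
  have h2 : oH n + i * n + v < GS.oF n := by
    unfold GS.oF
    omega
  have h3 := Rz_rb ρ z (i := oH n + i * n + v) (by omega) (h2.trans_le V4a_oT)
  rw [mem_filter, mem_filter, h3]

/-- PROOF. `Rz_rb`, `fR_congr`. -/
theorem omA_rb (ρ : Fin (Lb n) → Bool) (z : Fin (NR n)) :
    omA n (Rz n (rb ρ) z) = omA n (Rz n (ofB n (bz n ρ z)) 0) := by
  have h1 : ∀ x : ℕ, x + 1 ≤ 2 * n + 1 → ∀ o : ℕ, o = GS.oF n + x * 3 * bl n →
      fR3 n (Rz n (rb ρ) z) o = fR3 n (Rz n (ofB n (bz n ρ z)) 0) o := by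
    intro x hx o ho
    have h2 : o + 3 * bl n ≤ oT n := by
      have h3 : (x + 1) * 3 * bl n ≤ (2 * n + 1) * 3 * bl n :=
        Nat.mul_le_mul_right _ (Nat.mul_le_mul_right _ hx)
      have h4 : (x + 1) * 3 * bl n = x * 3 * bl n + 3 * bl n := by ring
      unfold GS.oT
      omega
    have h3 : oH n ≤ o := by
      have h4 := V4a_oF (n := n)
      omega
    unfold fR3
    refine Prod.ext (fR_congr fun i hi => Rz_rb ρ z (by omega) (by omega)) (Prod.ext
      (fR_congr fun i hi => Rz_rb ρ z (by omega) (by omega))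
      (fR_congr fun i hi => Rz_rb ρ z (by omega) (by omega)))
  have h2 : ∀ lev : ℕ, lev ≤ 1 → fRs n (Rz n (rb ρ) z) lev =
      fRs n (Rz n (ofB n (bz n ρ z)) 0) lev := by
    intro lev hl
    funext w
    refine h1 (lev * n + w) ?_ _ (by unfold GS.fof; rw [Nat.add_zero])
    have h3 := w.2
    have h4 : lev * n ≤ 1 * n := Nat.mul_le_mul_right _ hl
    omega
  unfold omA
  rw [h2 0 (by omega), h2 1 le_rfl, h1 (2 * n) le_rfl (oo n) (by
    unfold oo GS.fof
    rw [Nat.add_zero, Nat.add_zero])]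

private theorem V4a_RR {R R' : List ℤ} {o : ℕ} (h : ∀ i < GL.RL n, gt R (o + i) = gt R' (o + i)) :
    GL.RR n R o = GL.RR n R' o := by
  have hRL : GL.RL n = 2 * bl n + n * n + GL.Rn n * n := rfl
  have h0 : ∀ j : ℕ, o ≤ j → j < o + GL.RL n → gt R j = gt R' j := by
    intro j h1 h2
    have h3 := h (j - o) (by omega)
    rwa [Nat.add_sub_cancel' h1] at h3
  unfold GL.RR
  refine Prod.ext (fR_congr fun i hi => h0 _ (by omega) (by omega)) (Prod.ext
    (fR_congr fun i hi => h0 _ (by omega) (by omega)) (Prod.ext ?_ ?_))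
  · funext v
    unfold GL.AR
    ext u
    have h1 : (v : ℕ) * n + u < n * n := by
      calc (v : ℕ) * n + u < v * n + n := Nat.add_lt_add_left u.2 _
        _ = (v + 1) * n := by ring
        _ ≤ n * n := Nat.mul_le_mul_right _ v.2
    rw [mem_filter, mem_filter, h0 (o + 2 * bl n + v * n + u) (by omega) (by omega)]
  · funext i
    unfold GL.HR
    ext v
    have h1 : (i : ℕ) * n + v < GL.Rn n * n := by
      calc (i : ℕ) * n + v < i * n + n := Nat.add_lt_add_left v.2 _
        _ = (i + 1) * n := by ring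
        _ ≤ GL.Rn n * n := Nat.mul_le_mul_right _ i.2
    rw [mem_filter, mem_filter, h0 (o + 2 * bl n + n * n + i * n + v) (by omega) (by omega)]

private theorem V4a_SR {R R' : List ℤ} (k : ℕ)
    (h : ∀ i < k * GL.Zn n * GL.RL n, gt R i = gt R' i) : SR n R k = SR n R' k := by
  induction k with
  | zero => rfl
  | succ k ih =>
    have h1 : k * GL.Zn n * GL.RL n ≤ (k + 1) * GL.Zn n * GL.RL n :=
      Nat.mul_le_mul_right _ (Nat.mul_le_mul_right _ (Nat.le_succ k))
    have h2 := ih fun i hi => h i (hi.trans_le h1)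
    have h3 : (fun z : Fin (GL.Zn n) => GL.RR n R (GL.ofs n k z)) =
        fun z : Fin (GL.Zn n) => GL.RR n R' (GL.ofs n k z) := by
      funext z
      refine V4a_RR fun i hi => h _ ?_
      unfold GL.ofs
      calc (k * GL.Zn n + z) * GL.RL n + i < (k * GL.Zn n + z) * GL.RL n + GL.RL n := by omega
        _ = (k * GL.Zn n + (z + 1)) * GL.RL n := by ring
        _ ≤ (k * GL.Zn n + GL.Zn n) * GL.RL n :=
          Nat.mul_le_mul_right _ (Nat.add_le_add_left z.2 _)
        _ = (k + 1) * GL.Zn n * GL.RL n := by ring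
    show (SR n R k, fun z : Fin (GL.Zn n) => GL.RR n R (GL.ofs n k z)) =
      (SR n R' k, fun z : Fin (GL.Zn n) => GL.RR n R' (GL.ofs n k z))
    rw [h2, h3]

/-- The random objects of the golden procedure. PROOF. `SR n R 8` only uses the entries `< Lk n 8 = oH n` (induction over the depth; `GL.ofs n k z + RL n ≤ (k + 1) * Zn n * RL n`). -/
theorem SR_RT (M : List ℤ) (ρ : Fin (Lb n) → Bool) (z : Fin (NR n)) :
    SR n (RT n M (rb ρ) z) 8 = SR n (rb (bG n ρ)) 8 := by
  refine V4a_SR 8 fun i hi => ?_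
  have h1 : i < oH n := hi
  have h2 : i < oT n := by
    have h3 := V4a_oF (n := n)
    have h4 := V4a_oT (n := n)
    omega
  have h5 : i < Lb n := by
    unfold Lb
    omega
  rw [gt_RT M (rb ρ) z h2, V4a_gt_rb _ h1]
  unfold Rz
  rw [gt, BE.getD_tb, if_pos h2, if_pos h1, V4a_gt_rb _ h5]
  rfl

end Pool.Agent.MPa9445a.SX
end
end

section

section
/-! The numbers of the levels. -/

set_option autoImplicit false

open Finset

namespace Pool.Agent.MPa9445a.SB

open Pool.Agent.MPa9445a.SN (kb)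
open Pool.Agent.MPa9445a.GL (LL pl)

private theorem D6b_sum (d s : ℕ) :
    (∑ e ∈ range (s + 1), if 10000 * e < d * s then (s.choose e : ℝ) * 2 ^ (gam * e) else 0) ≤
      ∑ e ∈ range (d * s / 10000 + 1), (s.choose e : ℝ) * ((2 : ℝ) ^ gam) ^ e := by
  rw [← Finset.sum_filter]
  have h1 : ∀ e : ℕ, (2 : ℝ) ^ (gam * e) = ((2 : ℝ) ^ gam) ^ e := by
    intro e
    rw [Real.rpow_mul (by norm_num), Real.rpow_natCast]
  simp only [h1]
  apply Finset.sum_le_sum_of_subset_of_nonneg
  · intro e he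
    rw [Finset.mem_filter, Finset.mem_range] at he
    rw [Finset.mem_range]
    have h2 : e ≤ d * s / 10000 := by
      rw [Nat.le_div_iff_mul_le (by norm_num)]
      omega
    omega
  · intro e _ _
    positivity

private theorem D6b_k (d s : ℕ) : ((d * s / 10000 : ℕ) : ℝ) ≤ (d : ℝ) / 10000 * s := by
  have h : ((d * s / 10000 : ℕ) : ℝ) ≤ ((d * s : ℕ) : ℝ) / ((10000 : ℕ) : ℝ) := Nat.cast_div_le
  push_cast at h
  linarith

private theorem D6b_g1 (n : ℕ) : 333 / 1000 * (n : ℝ) - 1 ≤ g1 n := by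
  unfold g1
  have h1 : 3330 * n < (3330 * n / 10000 + 1) * 10000 := by omega
  have h2 : (3330 * n : ℝ) < ((3330 * n / 10000 : ℕ) + 1) * 10000 := by exact_mod_cast h1
  linarith

private theorem D6b_clog (C : ℕ) (hC : 0 < C) : 2 ^ Nat.clog 2 C ≤ 2 * C := by
  rcases Nat.lt_or_ge 1 C with h | h
  · have h1 := Nat.pow_pred_clog_lt_self (b := 2) (by norm_num) h
    have h2 : 0 < Nat.clog 2 C := Nat.clog_pos (by norm_num) h
    obtain ⟨k, hk⟩ : ∃ k, Nat.clog 2 C = k + 1 := ⟨Nat.clog 2 C - 1, by omega⟩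
    rw [hk] at h1 ⊢
    simp only [Nat.pred_succ] at h1
    rw [pow_succ]
    omega
  · have : C = 1 := by omega
    subst this
    simp

/-- The budget of the level 2. -/
private theorem D6b_g2 (n m s : ℕ) (hC : 0 < m.choose s) :
    (2 : ℝ) ^ (1332 / 1000 * (n : ℝ)) ≤
      64 * ((m.choose s : ℝ) ^ 2 * ((2 : ℝ) ^ g2 n m s) ^ 2) := by
  have h1 : 2 * g1 n ≤ g2 n m s + Nat.clog 2 (m.choose s) := by
    unfold g2
    omega
  have h2 : (2 : ℝ) ^ (2 * g1 n) ≤ 2 ^ g2 n m s * (2 * (m.choose s : ℝ)) := by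
    calc (2 : ℝ) ^ (2 * g1 n) ≤ 2 ^ (g2 n m s + Nat.clog 2 (m.choose s)) :=
          pow_le_pow_right₀ (by norm_num) h1
      _ = 2 ^ g2 n m s * 2 ^ Nat.clog 2 (m.choose s) := pow_add _ _ _
      _ ≤ 2 ^ g2 n m s * (2 * (m.choose s : ℝ)) := by
          apply mul_le_mul_of_nonneg_left _ (by positivity)
          exact_mod_cast D6b_clog _ hC
  have h3 : (2 : ℝ) ^ (666 / 1000 * (n : ℝ)) ≤ 4 * 2 ^ (2 * g1 n) := by
    have h4 : (4 : ℝ) * 2 ^ (2 * g1 n) = (2 : ℝ) ^ (2 + 2 * (g1 n : ℝ)) := by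
      rw [Real.rpow_add (by norm_num)]
      have : (2 * (g1 n : ℝ)) = ((2 * g1 n : ℕ) : ℝ) := by push_cast; ring
      rw [this, Real.rpow_natCast]
      norm_num
    rw [h4]
    apply Real.rpow_le_rpow_of_exponent_le (by norm_num)
    have := D6b_g1 n
    linarith
  have h5 : (2 : ℝ) ^ (1332 / 1000 * (n : ℝ)) = ((2 : ℝ) ^ (666 / 1000 * (n : ℝ))) ^ 2 := by
    rw [← Real.rpow_natCast, ← Real.rpow_mul (by norm_num)]
    congr 1
    push_cast
    ring
  rw [h5]
  have h6 : (2 : ℝ) ^ (666 / 1000 * (n : ℝ)) ≤ 8 * ((m.choose s : ℝ) * 2 ^ g2 n m s) := by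
    calc (2 : ℝ) ^ (666 / 1000 * (n : ℝ)) ≤ 4 * 2 ^ (2 * g1 n) := h3
      _ ≤ 4 * (2 ^ g2 n m s * (2 * (m.choose s : ℝ))) := by linarith
      _ = _ := by ring
  calc ((2 : ℝ) ^ (666 / 1000 * (n : ℝ))) ^ 2 ≤ (8 * ((m.choose s : ℝ) * 2 ^ g2 n m s)) ^ 2 :=
        pow_le_pow_left₀ (by positivity) h6 2
    _ = _ := by ring

private theorem D6b_m {n m : ℕ} (hm : Wi 4999 n m) : (m : ℝ) ≤ (1 / 2 + dl) * n := by
  unfold Wi at hm
  have h1 : 10000 * m ≤ 5001 * n := by
    have := hm.2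
    norm_num at this
    exact this
  have h2 : (10000 * m : ℝ) ≤ 5001 * n := by exact_mod_cast h1
  unfold dl
  linarith

private theorem D6b_s {m s : ℕ} (hs : Wi 4140 m s) :
    dA * (m : ℝ) ≤ s ∧ (s : ℝ) ≤ (1 - dA) * m ∧ s ≤ m := by
  unfold Wi at hs
  obtain ⟨h1, h2⟩ := hs
  norm_num at h2
  have h1' : (4140 * m : ℝ) ≤ 10000 * s := by exact_mod_cast h1
  have h2' : (10000 * s : ℝ) ≤ 5860 * m := by exact_mod_cast h2
  unfold dA
  refine ⟨by linarith, by linarith, by omega⟩

/-- PROOF. `h5`: `l2B` (`thB = 1.203715`). `h6`: `l2D`. -/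
theorem num2B : ∃ n₀, ∀ n ≥ n₀, ∀ m s, Wi 4999 n m → Wi 4140 m s →
    NumB n 3550 1203715 s (g2 n m s) 1000 := by
  refine ⟨0, fun n _ m s hm hs => ?_⟩
  have hm' := D6b_m hm
  obtain ⟨h1, h2, hsm⟩ := D6b_s hs
  have hC : 0 < m.choose s := Nat.choose_pos hsm
  have hCR : (0 : ℝ) < (m.choose s : ℝ) ^ 2 := by
    have : (0 : ℝ) < (m.choose s : ℝ) := by exact_mod_cast hC
    positivity
  have hg := D6b_g2 n m s hC
  have key : ∀ x : ℝ, (m.choose s : ℝ) ^ 2 * x ≤ 2 ^ (1332 / 1000 * (n : ℝ)) →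
      x ≤ 1000 * ((2 : ℝ) ^ g2 n m s) ^ 2 := by
    intro x hx
    have h3 : (m.choose s : ℝ) ^ 2 * x ≤ (m.choose s : ℝ) ^ 2 * (64 * ((2 : ℝ) ^ g2 n m s) ^ 2) := by
      calc (m.choose s : ℝ) ^ 2 * x ≤ 2 ^ (1332 / 1000 * (n : ℝ)) := hx
        _ ≤ 64 * ((m.choose s : ℝ) ^ 2 * ((2 : ℝ) ^ g2 n m s) ^ 2) := hg
        _ = _ := by ring
    have h4 := le_of_mul_le_mul_left h3 hCR
    have h5 : (0 : ℝ) ≤ ((2 : ℝ) ^ g2 n m s) ^ 2 := by positivity
    linarith
  constructor
  · apply key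
    have h3 := l2B hm' h1 h2
    have h4 : (((1203715 : ℕ) : ℝ) / 1000000 * s) = thB * s := by
      unfold thB dB
      push_cast
      ring
    rw [h4]
    exact h3
  · refine (D6b_sum 3550 s).trans ?_
    apply key
    refine l2D hm' h1 h2 ?_
    have := D6b_k 3550 s
    unfold dB
    push_cast at this ⊢
    linarith

/-- PROOF. `h5`: `l1B` (`thA = 1.33032`). `h6`: `l1D`. -/
theorem num1B : ∃ n₀, ∀ n ≥ n₀, ∀ m, Wi 4999 n m →
    NumB n 4140 1330320 m (g1 n) (1000 * (n + 1)) := by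
  refine ⟨0, fun n _ m hm => ?_⟩
  have hm' := D6b_m hm
  have h3 : (2 : ℝ) ^ (666 / 1000 * (n : ℝ)) ≤ 4 * ((2 : ℝ) ^ g1 n) ^ 2 := by
    have h4 : (4 : ℝ) * ((2 : ℝ) ^ g1 n) ^ 2 = (2 : ℝ) ^ (2 + 2 * (g1 n : ℝ)) := by
      rw [Real.rpow_add (by norm_num)]
      have : (2 * (g1 n : ℝ)) = ((g1 n * 2 : ℕ) : ℝ) := by push_cast; ring
      rw [this, Real.rpow_natCast, pow_mul]
      norm_num
    rw [h4]
    apply Real.rpow_le_rpow_of_exponent_le (by norm_num)
    have := D6b_g1 n
    linarith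
  have h5 : 4 * ((2 : ℝ) ^ g1 n) ^ 2 ≤ 1000 * ((n : ℝ) + 1) * ((2 : ℝ) ^ g1 n) ^ 2 := by
    apply mul_le_mul_of_nonneg_right _ (by positivity)
    have : (0 : ℝ) ≤ n := Nat.cast_nonneg n
    linarith
  constructor
  · refine le_trans ?_ (h3.trans h5)
    apply Real.rpow_le_rpow_of_exponent_le (by norm_num)
    have h6 := l1B hm'
    have h4 : (((1330320 : ℕ) : ℝ) / 1000000 * m) = thA * m := by
      unfold thA dA
      push_cast
      ring
    rw [h4]
    exact h6
  · refine (D6b_sum 4140 m).trans ?_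
    refine le_trans ?_ (h3.trans h5)
    refine l1D hm' ?_
    have := D6b_k 4140 m
    unfold dA
    push_cast at this ⊢
    linarith

end Pool.Agent.MPa9445a.SB
end

section
/-! The numbers of the levels. -/

set_option autoImplicit false

open Finset

namespace Pool.Agent.MPa9445a.SB

open Pool.Agent.MPa9445a.SN (kb)
open Pool.Agent.MPa9445a.GL (LL pl)

private theorem D6c_lg (C : ℕ) (hC : 0 < C) : ∃ n₀, ∀ n ≥ n₀, C * lg n ≤ n := by
  obtain ⟨j, hj⟩ : ∃ j : ℕ, 2 * C + 2 ≤ 2 ^ j := ⟨2 * C + 2, Nat.lt_two_pow_self.le⟩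
  refine ⟨C * (2 * j + 2), fun n hn => ?_⟩
  set k := n / C with hk
  have hk1 : 2 * j + 2 ≤ k := by
    rw [hk, Nat.le_div_iff_mul_le hC]
    linarith [Nat.mul_comm C (2 * j + 2)]
  have hnk : n < C * (k + 1) := by
    rw [hk]
    exact Nat.lt_mul_div_succ n hC
  have h1 : k / 2 + 1 ≤ 2 ^ (k / 2) := Nat.lt_two_pow_self
  have h2 : 2 * C + 2 ≤ 2 ^ (k - k / 2) := hj.trans (Nat.pow_le_pow_right (by norm_num) (by omega))
  have h3 : 2 ^ k = 2 ^ (k / 2) * 2 ^ (k - k / 2) := by
    rw [← pow_add]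
    congr 1
    omega
  have h4 : (k / 2 + 1) * (2 * C + 2) ≤ 2 ^ k := by
    rw [h3]
    exact Nat.mul_le_mul h1 h2
  have h5 : k + 1 ≤ 2 * (k / 2 + 1) := by omega
  have h6 : (k + 1) * (C + 1) ≤ (k / 2 + 1) * (2 * C + 2) := by
    calc (k + 1) * (C + 1) ≤ 2 * (k / 2 + 1) * (C + 1) := Nat.mul_le_mul_right _ h5
      _ = (k / 2 + 1) * (2 * C + 2) := by ring
  have h7 : n + 2 ≤ 2 ^ k := by
    refine le_trans ?_ (h6.trans h4)
    nlinarith
  have h8 : lg n ≤ k := by
    unfold lg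
    exact (Nat.clog_le_iff_le_pow (by norm_num)).2 h7
  calc C * lg n ≤ C * k := Nat.mul_le_mul_left _ h8
    _ ≤ n := Nat.mul_div_le n C

private theorem D6c_n2 (n : ℕ) : n + 2 ≤ 2 ^ lg n := by
  unfold lg
  exact Nat.le_pow_clog (by norm_num) _

private theorem D6c_LL (n : ℕ) : LL n ≤ 2 ^ (5 * lg n) := by
  have h := D6c_n2 n
  have h1 : (n + 2) ^ 5 ≤ 2 ^ (5 * lg n) := by
    calc (n + 2) ^ 5 ≤ (2 ^ lg n) ^ 5 := Nat.pow_le_pow_left h 5
      _ = 2 ^ (5 * lg n) := by rw [← pow_mul, Nat.mul_comm]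
  refine le_trans ?_ h1
  unfold LL
  have h2 : n ^ 4 ≤ (n + 2) ^ 4 := Nat.pow_le_pow_left (by omega) 4
  have h3 : 1 ≤ (n + 2) ^ 4 := Nat.one_le_pow _ _ (by omega)
  rcases Nat.eq_zero_or_pos n with h0 | h0
  · subst h0
    norm_num
  · calc 2 * n ^ 4 + 1 ≤ 2 * (n + 2) ^ 4 + (n + 2) ^ 4 := by omega
      _ = (n + 2) ^ 4 * 3 := by ring
      _ ≤ (n + 2) ^ 4 * (n + 2) := Nat.mul_le_mul_left _ (by omega)
      _ = (n + 2) ^ 5 := by ring

private theorem D6c_40 (n : ℕ) : (n + 2) ^ 40 ≤ 2 ^ (40 * lg n) := by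
  calc (n + 2) ^ 40 ≤ (2 ^ lg n) ^ 40 := Nat.pow_le_pow_left (D6c_n2 n) 40
    _ = 2 ^ (40 * lg n) := by rw [← pow_mul, Nat.mul_comm]

private theorem D6c_h1 {n g s : ℕ} (h : 5 * lg n + g ≤ s) : (LL n : ℝ) * 2 ^ g ≤ 2 ^ s := by
  have h1 : (LL n : ℝ) ≤ 2 ^ (5 * lg n) := by exact_mod_cast D6c_LL n
  calc (LL n : ℝ) * 2 ^ g ≤ 2 ^ (5 * lg n) * 2 ^ g := by gcongr
    _ = 2 ^ (5 * lg n + g) := by rw [pow_add]
    _ ≤ 2 ^ s := pow_le_pow_right₀ (by norm_num) h

private theorem D6c_h2 {n g R : ℕ} (h : R + 40 * lg n ≤ g) : 2 ^ R * (n + 2) ^ 40 ≤ 2 ^ g := by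
  calc 2 ^ R * (n + 2) ^ 40 ≤ 2 ^ R * 2 ^ (40 * lg n) := Nat.mul_le_mul_left _ (D6c_40 n)
    _ = 2 ^ (R + 40 * lg n) := by rw [pow_add]
    _ ≤ 2 ^ g := Nat.pow_le_pow_right (by norm_num) h

/-- Level 1. PROOF. `0.4999 n ≤ m ≤ 0.5001 n`, `g1 = 3330 n / 10000`. `h4`: `C(m, s) * 2 ^ (g2 n m s) ≤ 2 ^ (2 g1)` for every `s` in the window, so the sum is at most `(m + 1) * 2 ^ (2 g1)`. -/
theorem num1U : ∃ n₀, ∀ n ≥ n₀, ∀ m, Wi 4999 n m →
    NumU n (Rc n) 4140 m (g1 n) (fun s => 2 ^ g2 n m s) (1000 * (n + 1)) := by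
  obtain ⟨n₁, h₁⟩ := D6c_lg 400 (by norm_num)
  refine ⟨n₁ + 1000, fun n hn m hm => ?_⟩
  have hl := h₁ n (by omega)
  obtain ⟨hm1, hm2⟩ := hm
  have hg : g1 n = 3330 * n / 10000 := rfl
  have hR : Rc n = 1655 * n / 10000 + 1 := rfl
  have hk : kb n = 3 * n + 6 := rfl
  have hc1 : c1 = 30 := rfl
  have hc2 : c2 = 30 := rfl
  have hmn : m ≤ n := by omega
  have h2g : m ≤ 2 * g1 n := by omega
  have hnR : (0 : ℝ) ≤ n := Nat.cast_nonneg n
  refine ⟨by omega, by omega, by rw [hc1]; omega, by rw [hc2]; omega, fun e => ?_, ?_, ?_, ?_, ?_, ?_⟩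
  · exact one_le_pow₀ (by norm_num)
  · linarith
  · exact D6c_h1 (by omega)
  · exact D6c_h2 (by omega)
  · have h3 : (2 : ℝ) ^ m ≤ (2 ^ g1 n) ^ 2 := by
      rw [← pow_mul]
      exact pow_le_pow_right₀ (by norm_num) (by omega)
    have h4 : (0 : ℝ) ≤ (2 ^ g1 n) ^ 2 := by positivity
    nlinarith
  · have h5 : ∀ e ∈ range (m + 1), (if Wi 4140 m e then (m.choose e : ℝ) * 2 ^ g2 n m e else 0) ≤
        (2 ^ g1 n) ^ 2 := by
      intro e _
      split_ifs with hw
      · have h6 : m.choose e ≤ 2 ^ Nat.clog 2 (m.choose e) := Nat.le_pow_clog (by norm_num) _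
        have h7 : Nat.clog 2 (m.choose e) ≤ m :=
          (Nat.clog_le_iff_le_pow (by norm_num)).2 (Nat.choose_le_two_pow m e)
        have h8 : (m.choose e : ℝ) ≤ 2 ^ Nat.clog 2 (m.choose e) := by exact_mod_cast h6
        calc (m.choose e : ℝ) * 2 ^ g2 n m e
            ≤ 2 ^ Nat.clog 2 (m.choose e) * 2 ^ g2 n m e := by gcongr
          _ = 2 ^ (Nat.clog 2 (m.choose e) + g2 n m e) := by rw [pow_add]
          _ = 2 ^ (g1 n * 2) := by
              congr 1
              unfold g2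
              omega
          _ = (2 ^ g1 n) ^ 2 := by rw [pow_mul]
      · positivity
    have h9 := Finset.sum_le_sum h5
    refine h9.trans ?_
    rw [Finset.sum_const, card_range, nsmul_eq_mul]
    have h10 : ((m + 1 : ℕ) : ℝ) ≤ 1000 * (n + 1) := by
      have : ((m + 1 : ℕ) : ℝ) ≤ ((n + 1 : ℕ) : ℝ) := by exact_mod_cast Nat.succ_le_succ hmn
      push_cast at this ⊢
      linarith
    have h4 : (0 : ℝ) ≤ (2 ^ g1 n) ^ 2 := by positivity
    exact mul_le_mul_of_nonneg_right h10 h4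

/-- The root. PROOF. `g0 = 6665 n / 10000`; `h4`: `C(n, s)`, summed, is at most `2 ^ n`, `n + g1 ≤ 2 g0 + 2`. -/
theorem num0U : ∃ n₀, ∀ n ≥ n₀, NumU n (Rc n) 4999 n (g0 n) (fun _ => 2 ^ g1 n) 1000 := by
  obtain ⟨n₁, h₁⟩ := D6c_lg 400 (by norm_num)
  refine ⟨n₁ + 1000, fun n hn => ?_⟩
  have hl := h₁ n (by omega)
  have hg : g1 n = 3330 * n / 10000 := rfl
  have hg0 : g0 n = 6665 * n / 10000 := rfl
  have hR : Rc n = 1655 * n / 10000 + 1 := rfl
  have hk : kb n = 3 * n + 6 := rfl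
  have hc1 : c1 = 30 := rfl
  have hc2 : c2 = 30 := rfl
  have hgg : n + g1 n ≤ 2 * g0 n + 2 := by omega
  refine ⟨by omega, by omega, by rw [hc1]; omega, by rw [hc2]; omega, fun e => ?_, ?_, ?_, ?_, ?_, ?_⟩
  · exact one_le_pow₀ (by norm_num)
  · norm_num
  · exact D6c_h1 (by omega)
  · exact D6c_h2 (by omega)
  · have h3 : (2 : ℝ) ^ n ≤ (2 ^ g0 n) ^ 2 := by
      rw [← pow_mul]
      exact pow_le_pow_right₀ (by norm_num) (by omega)
    have h4 : (0 : ℝ) ≤ (2 ^ g0 n) ^ 2 := by positivity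
    nlinarith
  · have h5 : ∀ e ∈ range (n + 1), (if Wi 4999 n e then (n.choose e : ℝ) * 2 ^ g1 n else 0) ≤
        (n.choose e : ℝ) * 2 ^ g1 n := by
      intro e _
      split_ifs with hw
      · exact le_refl _
      · positivity
    refine (Finset.sum_le_sum h5).trans ?_
    rw [← Finset.sum_mul]
    have h6 : ∑ e ∈ range (n + 1), (n.choose e : ℝ) = 2 ^ n := by
      exact_mod_cast Nat.sum_range_choose n
    rw [h6, ← pow_add]
    calc (2 : ℝ) ^ (n + g1 n) ≤ 2 ^ (2 * g0 n + 2) := pow_le_pow_right₀ (by norm_num) hgg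
      _ = 4 * (2 ^ g0 n) ^ 2 := by rw [pow_add, Nat.mul_comm, pow_mul]; ring
      _ ≤ 1000 * (2 ^ g0 n) ^ 2 := by
          have h4 : (0 : ℝ) ≤ (2 ^ g0 n) ^ 2 := by positivity
          linarith

/-- The leaves are in the table. PROOF. `leaf`. -/
theorem leaf_size {n m s k : ℕ} (hm : Wi 4999 n m) (hs : Wi 4140 m s) (hk : Wi 3550 s k) :
    10000 * k ≤ 1891 * n := by
  obtain ⟨_, h1⟩ := hm
  obtain ⟨_, h2⟩ := hs
  obtain ⟨_, h3⟩ := hk
  omega

end Pool.Agent.MPa9445a.SB
end

section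

end

section

/-!
# The golden procedure of the model
-/

set_option autoImplicit false

open Finset
open scoped symmDiff

namespace Pool.Agent.MPa9445a.GS

open Pool.Agent.MPa9445a.BE (Ty Env vs one Bd NL DL tb flt gt bit Phi vec code lin argmax fv wtm)
open Pool.Agent.MPa9445a.GD
open Pool.Agent.MPa9445a.SN (kb ST Fm rs)
open Pool.Agent.MPa9445a.GL (Pc Pf Df rk sv rc dk RL Zn LL lvv inl EE Vc S Ph Lv Cpl cdv Wb lvl Fr)
open Pool.Agent.MPa9445a.SB (Rf bl Cc Hm Lf)

variable {n : ℕ}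

/-- The code of the set `X`. -/
def cdX (X : Finset (Fin n)) : ℕ := ∑ v : Fin n, if v ∈ X then 2 ^ (v : ℕ) else 0

/-- The golden procedure. -/
noncomputable def Gm (n : ℕ) (M R : List ℤ) : Rf n := fun X a j =>
  if GO n M R (bkA n (cdX X)) a j = [] then none else some (Lv (wtm n M) (bl X) a)

end Pool.Agent.MPa9445a.GS
end

section

/-! Codes of blocks; the golden procedure. -/

set_option autoImplicit false

open Finset
open scoped symmDiff

namespace Pool.Agent.MPa9445a.GS

open Pool.Agent.MPa9445a.BE (Ty Env vs one Bd NL DL tb flt gt bit Phi vec code lin argmax fv wtm)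
open Pool.Agent.MPa9445a.GD
open Pool.Agent.MPa9445a.SN (kb ST Fm rs)
open Pool.Agent.MPa9445a.GL (Pc Pf Df rk sv rc dk RL Zn LL lvv inl EE Vc S Ph Lv Cpl cdv Wb lvl Fr)
open Pool.Agent.MPa9445a.SB (Rf bl Cc Hm Lf)
open Pool.Agent.MPa9445a.SX (Rp Ra)

variable {n : ℕ}

theorem St_bl (X : Finset (Fin n)) : GL.St (bl X) := by
  intro v
  unfold SB.bl
  split_ifs
  · exact Or.inr (Or.inr (Or.inr rfl))
  · exact Or.inl rfl

theorem Fr_bl (X : Finset (Fin n)) : Fr (bl X) = X := SX.Fr_bl X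

theorem bl_inj {X Y : Finset (Fin n)} (h : bl X = bl Y) : X = Y := by
  rw [← Fr_bl X, h, Fr_bl]

/-- The entries of the array of a block. -/
theorem gt_bl {s : List ℤ} {X : Finset (Fin n)} (h : fv n s = bl X) (v : Fin n) :
    gt s v = if v ∈ X then 2 else 0 := congrFun h v

theorem gt_bl_iff {s : List ℤ} {X : Finset (Fin n)} (h : fv n s = bl X) (v : Fin n) :
    gt s v = 2 ↔ v ∈ X := by
  rw [gt_bl h]
  by_cases hv : v ∈ X
  · simp [hv]
  · simp [hv]

theorem gt_tb' (k : ℕ) (f : ℕ → ℤ) (j : ℕ) : gt (tb k f) j = if j < k then f j else 0 := by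
  show (tb k f).getD j 0 = _
  rw [BE.getD_tb]

theorem gt_cpy {k : ℕ} {L : List ℤ} {i : ℕ} (h : i < k) : gt (cpy k L) i = gt L i := by
  unfold cpy
  rw [gt_tb', if_pos h]

theorem tb_congr {k : ℕ} {f g : ℕ → ℤ} (h : ∀ i < k, f i = g i) : tb k f = tb k g := by
  unfold BE.tb
  exact List.map_congr_left fun i hi => h i (List.mem_range.1 hi)

theorem cpy_congr {k : ℕ} {L L' : List ℤ} (h : ∀ i < k, gt L' i = gt L i) : cpy k L' = cpy k L :=
  tb_congr h

private theorem D1_cd (X : Finset (Fin n)) : cdX X = ∑ v ∈ range n,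
    (if h : v < n then (if (⟨v, h⟩ : Fin n) ∈ X then 1 else 0) else 0) * 2 ^ v := by
  unfold cdX
  rw [Finset.sum_range]
  refine Finset.sum_congr rfl fun v _ => ?_
  rw [dif_pos v.2]
  by_cases hv : v ∈ X
  · rw [if_pos hv, if_pos hv, one_mul]
  · rw [if_neg hv, if_neg hv, zero_mul]

private theorem D1_01 (X : Finset (Fin n)) (v : ℕ) :
    (if h : v < n then (if (⟨v, h⟩ : Fin n) ∈ X then 1 else 0) else 0) = 0 ∨
    (if h : v < n then (if (⟨v, h⟩ : Fin n) ∈ X then 1 else 0) else 0) = 1 := by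
  split_ifs <;> simp

theorem ST_cdX (X : Finset (Fin n)) : ST n (cdX X) = X := by
  rw [D1_cd, GL.ST_sum _ (D1_01 X)]
  ext v
  rw [mem_filter]
  simp only [mem_univ, true_and, v.2, dif_pos, Fin.eta]
  by_cases hv : v ∈ X
  · simp [hv]
  · simp [hv]

private theorem D1_lt (f : ℕ → ℕ) (hf : ∀ v, f v = 0 ∨ f v = 1) (m : ℕ) :
    ∑ v ∈ range m, f v * 2 ^ v < 2 ^ m := by
  induction m with
  | zero => simp
  | succ m ih =>
    rw [Finset.sum_range_succ, pow_succ]
    rcases hf m with h | h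
    · rw [h]
      omega
    · rw [h]
      omega

theorem cdX_lt (X : Finset (Fin n)) : cdX X < 2 ^ n := by
  rw [D1_cd]
  exact D1_lt _ (D1_01 X) n

/-- The binary digits of the code. -/
theorem bit_cdX (X : Finset (Fin n)) (v : Fin n) : bit (cdX X) v = 1 ↔ v ∈ X := by
  have h := ST_cdX X
  have h1 := Finset.ext_iff.1 h v
  unfold SN.ST at h1
  rw [mem_filter] at h1
  simpa using h1

theorem cdX_ST {c : ℕ} (hc : c < 2 ^ n) : cdX (ST n c) = c := by
  have key : ∀ m c : ℕ, c < 2 ^ m → ∑ v ∈ range m, bit c v * 2 ^ v = c := by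
    intro m
    induction m with
    | zero =>
      intro c hc
      have : c = 0 := by simpa using hc
      rw [this]
      simp
    | succ m ih =>
      intro c hc
      have h1 : ∑ v ∈ range (m + 1), bit c v * 2 ^ v =
          bit c 0 + 2 * ∑ v ∈ range m, bit (c / 2) v * 2 ^ v := by
        rw [Finset.sum_range_succ', pow_zero, mul_one, add_comm, Finset.mul_sum]
        congr 1
        refine Finset.sum_congr rfl fun v _ => ?_
        have h2 : bit c (v + 1) = bit (c / 2) v := by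
          unfold BE.bit
          rw [pow_succ', Nat.div_div_eq_div_mul]
        rw [h2, pow_succ]
        ring
      rw [h1, ih (c / 2) (by rw [pow_succ] at hc; omega)]
      unfold BE.bit
      rw [pow_zero, Nat.div_one]
      omega
  conv_rhs => rw [← key n c hc]
  unfold cdX
  rw [Finset.sum_range]
  refine Finset.sum_congr rfl fun v _ => ?_
  have h3 : v ∈ ST n c ↔ bit c v = 1 := by
    unfold SN.ST
    simp
  have h4 : bit c v = 0 ∨ bit c v = 1 := by
    unfold BE.bit
    omega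
  by_cases h : bit c v = 1
  · rw [if_pos (h3.2 h), h, one_mul]
  · rw [if_neg fun h5 => h (h3.1 h5)]
    have h6 : bit c v = 0 := by omega
    rw [h6, zero_mul]

theorem cdX_inj {X Y : Finset (Fin n)} (h : cdX X = cdX Y) : X = Y := by
  rw [← ST_cdX X, h, ST_cdX]

theorem fv_bkA (c : ℕ) : fv n (bkA n c) = bl (ST n c) := by
  funext v
  show gt (tb n fun v => if bit c v = 1 then 2 else 0) v = _
  rw [gt_tb', if_pos v.2]
  unfold SB.bl SN.ST
  by_cases h : bit c v = 1
  · simp [h]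
  · simp [h]

theorem cdS_eq {s : List ℤ} {X : Finset (Fin n)} (h : fv n s = bl X) : cdS n s = cdX X := by
  unfold cdS cdX
  rw [Finset.sum_range]
  refine Finset.sum_congr rfl fun v _ => ?_
  by_cases hv : v ∈ X
  · rw [if_pos hv, if_pos ((gt_bl_iff h v).2 hv)]
  · rw [if_neg hv, if_neg fun h1 => hv ((gt_bl_iff h v).1 h1)]

theorem cpy_eq {s : List ℤ} {X : Finset (Fin n)} (h : fv n s = bl X) :
    cpy n s = bkA n (cdX X) := by
  refine tb_congr fun i hi => ?_
  have h1 := gt_bl h ⟨i, hi⟩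
  have h2 := bit_cdX X ⟨i, hi⟩
  simp only at h1 h2
  rw [h1]
  by_cases hv : (⟨i, hi⟩ : Fin n) ∈ X
  · rw [if_pos hv, if_pos (h2.2 hv)]
  · rw [if_neg hv, if_neg fun h3 => hv (h2.1 h3)]

theorem cpy_bkA (c : ℕ) : cpy n (bkA n c) = bkA n c := by
  refine tb_congr fun i hi => ?_
  show gt (tb n fun v => if bit c v = 1 then 2 else 0) i = _
  rw [gt_tb', if_pos hi]

theorem rk_bl {s : List ℤ} {X : Finset (Fin n)} (h : fv n s = bl X) : rk s n = X.card := by
  rw [GL.rk_n, h, Fr_bl]

theorem pcn_eq (c : ℕ) : pcn n c = (ST n c).card := by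
  unfold pcn SN.ST
  rw [Finset.card_filter, Finset.sum_range]
  refine Finset.sum_congr rfl fun v _ => ?_
  have h4 : bit c v = 0 ∨ bit c v = 1 := by
    unfold BE.bit
    omega
  rcases h4 with h | h
  · rw [h]
    simp
  · rw [h]
    simp

/-! ## The golden procedure depends only on the quadratic form -/

theorem wt_congr {M M' : List ℤ} (h : ∀ i < n * n, gt M' i = gt M i) {u v : ℕ} (hu : u < n)
    (hv : v < n) : BE.wt n M' u v = BE.wt n M u v := by
  unfold BE.wt
  rw [h]
  calc u * n + v < u * n + n := by omega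
    _ = (u + 1) * n := by ring
    _ ≤ n * n := Nat.mul_le_mul_right _ hu

theorem wtm_congr {M M' : List ℤ} (h : ∀ i < n * n, gt M' i = gt M i) : wtm n M' = wtm n M := by
  funext u v
  exact wt_congr h u.2 v.2

theorem wtm_cpy (M : List ℤ) : wtm n (cpy (n * n) M) = wtm n M :=
  wtm_congr fun _ hi => gt_cpy hi

theorem Phi_wtm {M M' : List ℤ} (h : wtm n M' = wtm n M) : Phi n M' = Phi n M := by
  funext x
  rw [GL.Phi_Ph, GL.Phi_Ph, h]

private theorem D1_br {M M' : List ℤ} (h : Phi n M' = Phi n M) : GL.br n M' = GL.br n M := by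
  funext s p
  unfold GL.br
  simp only [h]

private theorem D1_run {E : Pc} {M M' : List ℤ} (h : Phi n M' = Phi n M) :
    GL.run E n M' = GL.run E n M := by
  have h1 : GL.pj E n M' = GL.pj E n M := by
    funext r d a q p b
    unfold GL.pj GL.jn GL.ix
    simp only [h]
  funext r K d q p b
  unfold GL.run
  rw [h1]

private theorem D1_att {E : Pc} {M M' : List ℤ} (h : Phi n M' = Phi n M) :
    GL.att E n M' = GL.att E n M := by
  have h0 : GL.YS n M' = GL.YS n M := by
    funext R o s b t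
    unfold GL.YS
    simp only [h]
  have h1 : GL.rL n M' = GL.rL n M := by
    funext R o s b a
    unfold GL.rL
    rw [h0]
  have h2 : GL.YY E n M' = GL.YY E n M := by
    funext R o r b t e
    unfold GL.YY
    rw [D1_run h]
  have h3 : GL.HH E n M' = GL.HH E n M := by
    funext R o s r p b t j
    unfold GL.HH
    rw [D1_run h]
  funext R o s p b a
  unfold GL.att
  rw [h0, h1, h2, h3]

theorem EE_congr {M M' : List ℤ} (h : Phi n M' = Phi n M) (R : List ℤ) (k : ℕ) :
    EE n M' R k = EE n M R k := by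
  induction k with
  | zero =>
    funext s p b
    show (if rk s n ≤ b then 1 :: GL.br n M' s p else []) = if rk s n ≤ b then 1 :: GL.br n M s p
      else []
    rw [D1_br h]
  | succ k ih =>
    show GL.nxt (EE n M' R k) n M' R k = GL.nxt (EE n M R k) n M R k
    rw [ih]
    have h1 : GL.atx (EE n M R k) n M' = GL.atx (EE n M R k) n M := by
      funext R k s p b x
      unfold GL.atx
      rw [D1_att h]
    funext s p b
    unfold GL.nxt
    rw [D1_br h, h1, h]

theorem GO_congr {M R R' : List ℤ} (h : ∀ i < oH n, gt R' i = gt R i) : GO n M R' = GO n M R := by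
  unfold GO
  rw [cpy_congr h]

theorem GO_wtm {M M' : List ℤ} (h : wtm n M' = wtm n M) (R : List ℤ) : GO n M' R = GO n M R := by
  have h1 : Phi n (cpy (n * n) M') = Phi n (cpy (n * n) M) := Phi_wtm (by
    rw [wtm_cpy, wtm_cpy, h])
  unfold GO
  rw [EE_congr h1]

theorem Gm_congr {M R R' : List ℤ} (h : ∀ i < oH n, gt R' i = gt R i) : Gm n M R' = Gm n M R := by
  unfold Gm
  rw [GO_congr h]

theorem GO_bl {M R s : List ℤ} {X : Finset (Fin n)} (h : fv n s = bl X) (a : ℤ) (b : ℕ) :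
    GO n M R s a b = GO n M R (bkA n (cdX X)) a b := by
  unfold GO
  rw [cpy_eq h, cpy_bkA]

theorem GO_snd {M R s : List ℤ} (hW : Wb (wtm n M)) {X : Finset (Fin n)} (hs : fv n s = bl X)
    (a : ℤ) (b : ℕ) : GO n M R s a b = [] ∨
      ∃ L, GO n M R s a b = 1 :: L ∧ Cpl L (Lv (wtm n M) (bl X) a) := by
  have h2 := GL.EE_snd (n := n) (M := cpy (n * n) M) (by rw [wtm_cpy]; exact hW)
    (cpy (oH n) R) 8 (cpy n s) (by
      rw [cpy_eq hs, fv_bkA, ST_cdX]
      exact St_bl X) a b
  rw [wtm_cpy, cpy_eq hs, fv_bkA, ST_cdX] at h2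
  unfold GO
  rw [cpy_eq hs]
  exact h2

theorem Lv_sub (W : Matrix (Fin n) (Fin n) ℤ) (s : Vc n) (a : ℤ) : Lv W s a ⊆ S s :=
  filter_subset _ _

/-- The golden procedure is computed by the program. -/
theorem GO_rp {M M' : List ℤ} (hW : Wb (wtm n M)) (h' : wtm n M' = wtm n M) (R : List ℤ)
    (Q : Finset (Fin n)) : Rp n Q (GO n M' R) (Gm n M R) := by
  intro X _ s hs a _ b
  rw [GO_wtm h']
  have h1 := GO_snd (R := R) hW hs a b
  rw [GO_bl hs] at h1 ⊢
  unfold Gm
  rcases h1 with h1 | ⟨L, h1, h2⟩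
  · rw [if_pos h1]
    exact Or.inl ⟨rfl, h1⟩
  · rw [if_neg (by rw [h1]; exact List.cons_ne_nil _ _)]
    exact Or.inr ⟨_, L, rfl, h1, h2, Lv_sub _ _ _⟩

theorem Gm_cases (M R : List ℤ) (X : Finset (Fin n)) (a : ℤ) (b : ℕ) :
    Gm n M R X a b = none ∨ Gm n M R X a b = some (Lv (wtm n M) (bl X) a) := by
  unfold Gm
  by_cases h : GO n M R (bkA n (cdX X)) a b = []
  · rw [if_pos h]
    exact Or.inl rfl
  · rw [if_neg h]
    exact Or.inr rfl

theorem Gm_none {M R : List ℤ} {X : Finset (Fin n)} {a : ℤ} {b : ℕ} :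
    Gm n M R X a b = none ↔ GO n M R (bkA n (cdX X)) a b = [] := by
  unfold Gm
  by_cases h : GO n M R (bkA n (cdX X)) a b = []
  · rw [if_pos h]
    simp [h]
  · rw [if_neg h]
    simp [h]

end Pool.Agent.MPa9445a.GS
end
end

section

section

/-!
# The enumeration

`PkB n Q M Θ σ`: the array `M` contains (from the entry `n * n` on) the size of the block `Q`, the threshold `Θ` and the
scores `σ`.
-/

set_option autoImplicit false

open Finset
open scoped symmDiff

namespace Pool.Agent.MPa9445a.GS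

open Pool.Agent.MPa9445a.BE (Ty Env vs one Bd NL DL tb flt gt bit Phi vec code lin argmax fv wtm)
open Pool.Agent.MPa9445a.GD
open Pool.Agent.MPa9445a.SN (kb ST Fm rs)
open Pool.Agent.MPa9445a.GL (Pc Pf Df rk sv rc dk RL Zn LL lvv inl EE Vc S Ph Lv Cpl cdv Wb lvl Fr)
open Pool.Agent.MPa9445a.SB (Rf bl Cc Hm Lf Sc sc vl)
open Pool.Agent.MPa9445a.SX (Rp Ra PkB)

variable {n : ℕ}

/-- `c` is the code of a prefix: its binary digits `1` are at free vertices `< v`. -/
def Pf0 (s : List ℤ) (v c : ℕ) : Prop := c < 2 ^ v ∧ ∀ u < v, bit c u = 1 → gt s u = 2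

private theorem D6_bit01 (c i : ℕ) : bit c i = 0 ∨ bit c i = 1 := by
  unfold BE.bit
  omega

private theorem D6_bit_ge {c v u : ℕ} (hc : c < 2 ^ v) (h : v ≤ u) : bit c u = 0 := by
  unfold BE.bit
  rw [Nat.div_eq_of_lt (hc.trans_le (Nat.pow_le_pow_right (by norm_num) h))]

private theorem D6_shift {e v u : ℕ} (he : e = 0 ∨ e = 1) :
    bit (e * 2 ^ v) u = if u = v then e else 0 := by
  rcases lt_trichotomy u v with h | h | h
  · rw [if_neg h.ne]
    unfold BE.bit
    have e1 : e * 2 ^ v = 2 ^ u * (2 * (e * 2 ^ (v - u - 1))) := by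
      have : v = u + (1 + (v - u - 1)) := by omega
      conv_lhs => rw [this, pow_add, pow_add, pow_one]
      ring
    rw [e1, Nat.mul_div_cancel_left _ (by positivity), Nat.mul_mod_right]
  · rw [if_pos h, h]
    unfold BE.bit
    rw [Nat.mul_div_cancel _ (by positivity)]
    omega
  · rw [if_neg h.ne']
    refine D6_bit_ge (v := v + 1) ?_ h
    rw [pow_succ]
    have : 0 < 2 ^ v := by positivity
    rcases he with h | h
    · rw [h]
      omega
    · rw [h]
      omega

private theorem D6_sum_lt (f : ℕ → ℕ) (hf : ∀ v, f v = 0 ∨ f v = 1) (m : ℕ) :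
    ∑ v ∈ range m, f v * 2 ^ v < 2 ^ m := by
  induction m with
  | zero => simp
  | succ m ih =>
    rw [Finset.sum_range_succ, pow_succ]
    rcases hf m with h | h
    · rw [h]
      omega
    · rw [h]
      omega

private theorem D6_mem_ST {c : ℕ} {v : Fin n} : v ∈ ST n c ↔ bit c v = 1 := by
  unfold SN.ST
  simp

private theorem D6_bit_sum (f : ℕ → ℕ) (hf : ∀ v, f v = 0 ∨ f v = 1) {u : ℕ} (hu : u < n) :
    bit (∑ v ∈ range n, f v * 2 ^ v) u = f u := by
  have h1 : (⟨u, hu⟩ : Fin n) ∈ ST n (∑ v ∈ range n, f v * 2 ^ v) ↔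
      (⟨u, hu⟩ : Fin n) ∈ univ.filter fun v : Fin n => f v = 1 := by
    rw [GL.ST_sum f hf]
  rw [D6_mem_ST, mem_filter] at h1
  simp only [mem_univ, true_and] at h1
  rcases D6_bit01 (∑ v ∈ range n, f v * 2 ^ v) u with h2 | h2
  · rcases hf u with h3 | h3
    · rw [h2, h3]
    · rw [h1.2 h3, h3]
  · rw [h2, h1.1 h2]

private theorem D6_eq {c c' : ℕ} (hc : c < 2 ^ n) (hc' : c' < 2 ^ n)
    (h : ∀ u < n, bit c u = bit c' u) : c = c' := by
  rw [← cdX_ST hc, ← cdX_ST hc']
  congr 1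
  ext v
  rw [D6_mem_ST, D6_mem_ST, h v v.2]

private theorem D6_fv {s : List ℤ} {X : Finset (Fin n)} (hs : fv n s = bl X) (c : ℕ) (v : Fin n) :
    fv n (sv n s c) v = if v ∈ X then (if bit c v = 1 then 1 else -1) else 0 := by
  rw [GL.fv_sv, hs]
  unfold GL.vc SB.bl
  by_cases hv : v ∈ X
  · simp only [hv, if_true, D6_mem_ST]
  · simp [hv]

private theorem D6_S {s : List ℤ} {X : Finset (Fin n)} (hs : fv n s = bl X) (c : ℕ) :
    fv n (sv n s c) ∈ S (bl X) := by
  rw [GL.fv_sv, hs]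
  exact GL.vc_mem _ _

private theorem D6_inj {s : List ℤ} {X : Finset (Fin n)} (hs : fv n s = bl X) {c c' : ℕ}
    (hc : Pf0 s n c) (hc' : Pf0 s n c') (h : fv n (sv n s c) = fv n (sv n s c')) : c = c' := by
  refine D6_eq hc.1 hc'.1 fun u hu => ?_
  have h1 := congrFun h ⟨u, hu⟩
  rw [D6_fv hs, D6_fv hs] at h1
  by_cases hv : (⟨u, hu⟩ : Fin n) ∈ X
  · rw [if_pos hv, if_pos hv] at h1
    simp only at h1
    rcases D6_bit01 c u with h2 | h2 <;> rcases D6_bit01 c' u with h3 | h3
    · rw [h2, h3]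
    · rw [h2, h3] at h1
      norm_num at h1
    · rw [h2, h3] at h1
      norm_num at h1
    · rw [h2, h3]
  · have h4 : ¬ gt s u = 2 := fun h5 => hv ((gt_bl_iff hs ⟨u, hu⟩).1 h5)
    have h2 : bit c u = 0 := (D6_bit01 c u).resolve_right fun h5 => h4 (hc.2 u hu h5)
    have h3 : bit c' u = 0 := (D6_bit01 c' u).resolve_right fun h5 => h4 (hc'.2 u hu h5)
    rw [h2, h3]

/-- The score of a vector. PROOF. `scp` with `v = n` is a sum over all `u < n` (`Finset.sum_range`), zero for `u ∉ Q`; at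
`u ∈ X` the entry of `sv n s c` is `1` iff `bit c u = 1` (`GL.fv_sv`: `fv n (sv n s c) = vc (bl X) (ST n c)`);
`Q \ (Q \ X) = X` as `X ⊆ Q`. -/
theorem scp_n {M s : List ℤ} {Q X : Finset (Fin n)} {σ : Sc n} {Θ : ℕ} (hM : PkB n Q M Θ σ)
    (hs : fv n s = bl X) (hX : X ⊆ Q) (c : ℕ) :
    scp n M s c n = (sc σ Q (Q \ X) (fv n (sv n s c)) : ℤ) := by
  unfold scp SB.sc
  rw [Finset.sdiff_sdiff_eq_self hX, Finset.sum_range]
  push_cast
  rw [← Finset.sum_subset (Finset.subset_univ Q), ← Finset.sum_sdiff hX]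
  · refine congrArg₂ (· + ·) ?_ ?_
    · refine Finset.sum_congr rfl fun v hv => ?_
      rw [mem_sdiff] at hv
      rw [if_neg fun h => hv.2 ((gt_bl_iff hs v).1 h), hM.w, if_pos hv.1]
    · refine Finset.sum_congr rfl fun v hv => ?_
      rw [if_pos ((gt_bl_iff hs v).2 hv), if_pos v.2, D6_fv hs, if_pos hv, hM.b, hM.a,
        if_pos (hX hv), if_pos (hX hv)]
      by_cases h : bit c v = 1
      · simp [h]
      · simp [h]
  · intro v _ hv
    rw [if_neg fun h => hv (hX ((gt_bl_iff hs v).1 h)), hM.w, if_neg hv]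

/-- The bound does not decrease with `v`, and it depends only on the binary digits `< v`. PROOF. Termwise: `min ≤`. -/
theorem scp_mono {M s : List ℤ} {c c' v : ℕ} (h : ∀ u < v, bit c' u = bit c u) :
    scp n M s c v ≤ scp n M s c' (v + 1) := by
  unfold scp
  refine Finset.sum_le_sum fun u _ => ?_
  by_cases h1 : gt s u = 2
  · rw [if_pos h1, if_pos h1]
    by_cases h2 : u < v
    · rw [if_pos h2, if_pos (h2.trans (Nat.lt_succ_self v)), h u h2]
    · rw [if_neg h2]
      split_ifs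
      · exact min_le_left _ _
      · exact min_le_right _ _
      · exact le_rfl
  · rw [if_neg h1, if_neg h1]

/-- Every prefix has a completion with the same score: take the entry with the smaller score at `u ≥ v`.
PROOF. `c' = c + ∑ u ∈ Ico v n, if gt s u = 2 ∧ (entry of b at u) < (entry of a at u) then 2 ^ u else 0`. -/
theorem scp_compl {M s : List ℤ} {c v : ℕ} (hv : v ≤ n) (hc : Pf0 s v c) :
    ∃ c', Pf0 s n c' ∧ (∀ u < v, bit c' u = bit c u) ∧ scp n M s c' n = scp n M s c v := by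
  classical
  set f : ℕ → ℕ := fun u => if u < v then bit c u else
    if gt s u = 2 ∧ gt M (n * n + 2 + 2 * n + u) < gt M (n * n + 2 + n + u) then 1 else 0 with hf
  have hf01 : ∀ u, f u = 0 ∨ f u = 1 := by
    intro u
    simp only [hf]
    split_ifs
    · exact D6_bit01 c u
    · exact Or.inr rfl
    · exact Or.inl rfl
  have hb : ∀ u < n, bit (∑ v ∈ range n, f v * 2 ^ v) u = f u := fun u hu => D6_bit_sum f hf01 hu
  have hfl : ∀ u < v, f u = bit c u := fun u hu => by
    simp only [hf]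
    rw [if_pos hu]
  refine ⟨∑ v ∈ range n, f v * 2 ^ v, ⟨D6_sum_lt f hf01 n, ?_⟩, ?_, ?_⟩
  · intro u hu h
    rw [hb u hu] at h
    by_cases h1 : u < v
    · rw [hfl u h1] at h
      exact hc.2 u h1 h
    · simp only [hf] at h
      rw [if_neg h1] at h
      by_contra h2
      rw [if_neg fun h3 => h2 h3.1] at h
      exact absurd h (by norm_num)
  · intro u hu
    rw [hb u (hu.trans_le hv), hfl u hu]
  · unfold scp
    refine Finset.sum_congr rfl fun u hu => ?_
    rw [mem_range] at hu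
    by_cases h1 : gt s u = 2
    · rw [if_pos h1, if_pos h1, if_pos hu, hb u hu]
      by_cases h2 : u < v
      · rw [if_pos h2, hfl u h2]
      · rw [if_neg h2]
        by_cases h3 : gt M (n * n + 2 + 2 * n + u) < gt M (n * n + 2 + n + u)
        · have h4 : f u = 1 := by
            simp only [hf]
            rw [if_neg h2, if_pos ⟨h1, h3⟩]
          rw [if_pos h4, min_eq_left h3.le]
        · have h4 : f u = 0 := by
            simp only [hf]
            rw [if_neg h2, if_neg fun h4 => h3 h4.2]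
          rw [if_neg (by rw [h4]; norm_num), min_eq_right (not_lt.1 h3)]
    · rw [if_neg h1, if_neg h1]

/-- The number of prefixes whose bound is at most `Θ` is at most the number of the vectors whose score is at most `Θ`.
PROOF. The map `c ↦ fv n (sv n s c')` (`scp_compl`) is injective on prefixes (`c' % 2 ^ v = c`; `sv` is injective on codes
with `Pf0 s n`: the entries `1` are the binary digits `1`); `fv n (sv n s c') ∈ S (bl X)`. -/
theorem card_pre_le {M s : List ℤ} {Q X : Finset (Fin n)} {σ : Sc n} {Θ : ℕ} (hM : PkB n Q M Θ σ)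
    (hs : fv n s = bl X) (hX : X ⊆ Q) {v : ℕ} (hv : v ≤ n) {L : List ℤ} (hL : L.Nodup)
    (h : ∀ z ∈ L, ∃ c, Pf0 s v c ∧ scp n M s c v ≤ (Θ : ℤ) ∧ (c : ℤ) = z) :
    L.length ≤ (vl σ Q X Θ).card := by
  classical
  have h1 : ∀ z ∈ L, ∃ c', Pf0 s n c' ∧ scp n M s c' n ≤ (Θ : ℤ) ∧ ((c' % 2 ^ v : ℕ) : ℤ) = z := by
    intro z hz
    obtain ⟨c, h2, h3, h4⟩ := h z hz
    obtain ⟨c', h5, h6, h7⟩ := scp_compl (M := M) hv h2
    refine ⟨c', h5, by rw [h7]; exact h3, ?_⟩
    rw [← h4]
    have h8 : c' % 2 ^ v = c := by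
      refine D6_eq (n := v) (Nat.mod_lt _ (by positivity)) h2.1 fun u hu => ?_
      rw [← h6 u hu]
      have h9 := bit_add (k := v) (c := c' % 2 ^ v) (x := c' / 2 ^ v) (Nat.mod_lt _ (by positivity)) u
      rw [Nat.mod_add_div'] at h9
      rw [h9]
      have h10 : bit (c' / 2 ^ v * 2 ^ v) u = 0 := by
        unfold BE.bit
        have e1 : c' / 2 ^ v * 2 ^ v = 2 ^ u * (2 * (c' / 2 ^ v * 2 ^ (v - u - 1))) := by
          have : 2 ^ v = 2 ^ u * (2 * 2 ^ (v - u - 1)) := by
            rw [← pow_succ', ← pow_add]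
            congr 1
            omega
          conv_lhs => rw [show c' / 2 ^ v * 2 ^ v = c' / 2 ^ v * (2 ^ u * (2 * 2 ^ (v - u - 1))) by rw [← this]]
          ring
        rw [e1, Nat.mul_div_cancel_left _ (by positivity), Nat.mul_mod_right]
      rw [h10, add_zero]
    rw [h8]
  choose! g hg1 hg2 hg3 using h1
  rw [← List.toFinset_card_of_nodup hL]
  refine Finset.card_le_card_of_injOn (fun z => fv n (sv n s (g z))) ?_ ?_
  · intro z hz
    have hz' : z ∈ L := List.mem_toFinset.1 hz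
    show fv n (sv n s (g z)) ∈ ((vl σ Q X Θ : Finset (Vc n)) : Set (Vc n))
    rw [mem_coe]
    unfold SB.vl
    rw [mem_filter]
    refine ⟨D6_S hs _, ?_⟩
    have h2 := hg2 z hz'
    rw [scp_n hM hs hX] at h2
    exact_mod_cast h2
  · intro z hz z' hz' hzz
    have h2 : z ∈ L := List.mem_toFinset.1 hz
    have h3 : z' ∈ L := List.mem_toFinset.1 hz'
    have h4 := D6_inj hs (hg1 z h2) (hg1 z' h3) hzz
    rw [← hg3 z h2, ← hg3 z' h3, h4]

/-- The state before the pass `v`: failure, and there are more than `2 ^ b` vectors, or the list of all prefixes.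
PROOF. Induction over `v` (`ens_succ` in C4). `v = 0`: the list `[0]`. Step: the elements of the new list are
`c + bit * 2 ^ v` (`enx`), the restriction of a prefix of length `v + 1` with score `≤ Θ` has score `≤ Θ` (`scp_mono`; nothing to
show for `v = 0`); no repetition since the codes in the old list are `< 2 ^ v` (`List.nodup_flatMap`, as in `nodup_lsD`, file L2);
if the new list is longer than `2 ^ b` use `card_pre_le`. -/
theorem ens_spec {M s : List ℤ} {Q X : Finset (Fin n)} {σ : Sc n} {Θ : ℕ} (hM : PkB n Q M Θ σ)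
    (hs : fv n s = bl X) (hX : X ⊆ Q) (b : ℕ) {v : ℕ} (hv : v ≤ n) :
    (ens n M s b v = [] ∧ 2 ^ b < (vl σ Q X Θ).card) ∨
      ∃ L : List ℤ, ens n M s b v = 1 :: L ∧ L.Nodup ∧
        ∀ z, z ∈ L ↔ ∃ c, Pf0 s v c ∧ (v = 0 ∨ scp n M s c v ≤ (Θ : ℤ)) ∧ (c : ℤ) = z := by
  induction v with
  | zero =>
    refine Or.inr ⟨[0], rfl, List.nodup_singleton _, fun z => ?_⟩
    rw [List.mem_singleton]
    constructor
    · rintro rfl
      exact ⟨0, ⟨by norm_num, fun u hu => absurd hu (Nat.not_lt_zero u)⟩, Or.inl rfl, rfl⟩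
    · rintro ⟨c, h1, _, rfl⟩
      have h2 := h1.1
      rw [pow_zero] at h2
      have : c = 0 := by omega
      rw [this]
      rfl
  | succ v ih =>
    have hv' : v ≤ n := by omega
    rcases ih hv' with ⟨h1, h2⟩ | ⟨L, h1, h2, h3⟩
    · left
      refine ⟨?_, h2⟩
      rw [ens_succ, h1]
      rfl
    · have hlen : (ens n M s b v).length ≠ 0 := by
        rw [h1]
        simp
      rw [ens_succ, if_neg hlen, h1]
      set F : ℕ → List ℤ := fun x =>
        if (gt s v = 2 ∨ x % 2 = 0) ∧ scp n M s (enx s (1 :: L) v x) (v + 1) ≤ gt M (n * n + 1) then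
          [(enx s (1 :: L) v x : ℤ)] else [] with hF
      have hL' : enp n M s (1 :: L) v = 1 :: fm (2 * L.length) F := rfl
      have hgt : ∀ i < L.length, gt (1 :: L) (1 + i) = gt L i := by
        intro i _
        show (1 :: L).getD (1 + i) 0 = L.getD i 0
        rw [Nat.add_comm, List.getD_cons_succ]
      -- the elements
      have hel : ∀ x < 2 * L.length, (gt s v = 2 ∨ x % 2 = 0) → ∃ c0, Pf0 s v c0 ∧
          gt L (x / 2) = (c0 : ℤ) ∧ enx s (1 :: L) v x = c0 + x % 2 * 2 ^ v := by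
        intro x hx hc
        have hx2 : x / 2 < L.length := by omega
        obtain ⟨c0, h4, _, h6⟩ := (h3 _).1 (gt_mem hx2)
        refine ⟨c0, h4, h6.symm, ?_⟩
        unfold enx
        rw [hgt _ hx2, ← h6, Int.toNat_natCast]
        rcases hc with hc | hc
        · rw [if_pos hc]
        · rw [hc]
          simp
      have hbit : ∀ c0 e : ℕ, c0 < 2 ^ v → (e = 0 ∨ e = 1) → ∀ u, bit (c0 + e * 2 ^ v) u =
          if u < v then bit c0 u else if u = v then e else 0 := by
        intro c0 e h4 h5 u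
        rw [bit_add h4, D6_shift h5]
        by_cases h6 : u < v
        · rw [if_neg h6.ne, if_pos h6, add_zero]
        · rw [if_neg h6, D6_bit_ge h4 (not_lt.1 h6), zero_add]
      have hmem : ∀ y, y ∈ fm (2 * L.length) F ↔
          ∃ c, Pf0 s (v + 1) c ∧ scp n M s c (v + 1) ≤ (Θ : ℤ) ∧ (c : ℤ) = y := by
        intro y
        rw [mem_fm]
        constructor
        · rintro ⟨x, hx, hy⟩
          simp only [hF] at hy
          split_ifs at hy with hc
          · rw [List.mem_singleton] at hy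
            obtain ⟨c0, h4, _, h6⟩ := hel x hx hc.1
            rw [hM.t] at hc
            refine ⟨enx s (1 :: L) v x, ⟨?_, ?_⟩, hc.2, hy.symm⟩
            · rw [h6, pow_succ]
              have h7 := h4.1
              have h8 : x % 2 * 2 ^ v ≤ 1 * 2 ^ v := Nat.mul_le_mul_right _ (by omega)
              omega
            · intro u hu hbu
              rw [h6, hbit c0 (x % 2) h4.1 (by omega)] at hbu
              by_cases h7 : u < v
              · rw [if_pos h7] at hbu
                exact h4.2 u h7 hbu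
              · have h8 : u = v := by omega
                rw [if_neg h7, if_pos h8] at hbu
                rw [h8]
                exact hc.1.resolve_right (by omega)
          · exact absurd hy List.not_mem_nil
        · rintro ⟨c, h4, h5, rfl⟩
          have hc0 : c % 2 ^ v < 2 ^ v := Nat.mod_lt _ (by positivity)
          have he : c / 2 ^ v = 0 ∨ c / 2 ^ v = 1 := by
            have h6 : c / 2 ^ v < 2 := by
              refine Nat.div_lt_of_lt_mul ?_
              rw [← pow_succ]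
              exact h4.1
            exact Nat.le_one_iff_eq_zero_or_eq_one.1 (Nat.lt_succ_iff.1 h6)
          have hcc : c % 2 ^ v + c / 2 ^ v * 2 ^ v = c := Nat.mod_add_div' _ _
          have hbc : ∀ u < v, bit (c % 2 ^ v) u = bit c u := by
            intro u hu
            have h6 := hbit _ _ hc0 he u
            rw [hcc, if_pos hu] at h6
            exact h6.symm
          have hbv : bit c v = c / 2 ^ v := by
            have h6 := hbit _ _ hc0 he v
            rw [hcc, if_neg (lt_irrefl v), if_pos rfl] at h6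
            exact h6
          have hP : Pf0 s v (c % 2 ^ v) := ⟨hc0, fun u hu hbu => by
            rw [hbc u hu] at hbu
            exact h4.2 u (by omega) hbu⟩
          have h6 : scp n M s (c % 2 ^ v) v ≤ scp n M s c (v + 1) :=
            scp_mono fun u hu => (hbc u hu).symm
          have h7 : ((c % 2 ^ v : ℕ) : ℤ) ∈ L := (h3 _).2 ⟨_, hP, Or.inr (h6.trans h5), rfl⟩
          obtain ⟨i, hi, hi'⟩ := List.getElem_of_mem h7
          have hcond : gt s v = 2 ∨ c / 2 ^ v = 0 := by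
            rcases he with h8 | h8
            · exact Or.inr h8
            · exact Or.inl (h4.2 v (by omega) (by rw [hbv, h8]))
          have hx2 : (2 * i + c / 2 ^ v) / 2 = i := by omega
          have hxm : (2 * i + c / 2 ^ v) % 2 = c / 2 ^ v := by omega
          have hen : enx s (1 :: L) v (2 * i + c / 2 ^ v) = c := by
            unfold enx
            rw [hx2, hxm, hgt i hi]
            have h8 : gt L i = ((c % 2 ^ v : ℕ) : ℤ) := by
              rw [← hi']
              exact List.getD_eq_getElem _ _ hi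
            rw [h8, Int.toNat_natCast]
            rcases hcond with h9 | h9
            · rw [if_pos h9, hcc]
            · rw [h9, zero_mul, ite_self, add_zero]
              rw [h9, zero_mul, add_zero] at hcc
              exact hcc
          refine ⟨2 * i + c / 2 ^ v, by omega, ?_⟩
          simp only [hF]
          rw [if_pos ⟨by rw [hxm]; exact hcond, by rw [hen, hM.t]; exact h5⟩, hen,
            List.mem_singleton]
      have hnd : (fm (2 * L.length) F).Nodup := by
        unfold fm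
        rw [List.nodup_flatMap]
        refine ⟨fun x _ => ?_, ?_⟩
        · simp only [hF]
          split_ifs
          · exact List.nodup_singleton _
          · exact List.nodup_nil
        · refine List.Nodup.pairwise_of_forall_ne List.nodup_range fun x hx y hy hxy => ?_
          rw [List.mem_range] at hx hy
          intro z hz hz'
          simp only [hF] at hz hz'
          split_ifs at hz with hcx
          · split_ifs at hz' with hcy
            · rw [List.mem_singleton] at hz hz'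
              obtain ⟨c0, h4, h5, h6⟩ := hel x hx hcx.1
              obtain ⟨c1, h7, h8, h9⟩ := hel y hy hcy.1
              have h10 : c0 + x % 2 * 2 ^ v = c1 + y % 2 * 2 ^ v := by
                rw [← h6, ← h9]
                exact_mod_cast hz.symm.trans hz'
              have h11 : c0 = c1 := by
                have a1 : (c0 + x % 2 * 2 ^ v) % 2 ^ v = c0 := by
                  rw [Nat.add_mul_mod_self_right, Nat.mod_eq_of_lt h4.1]
                have a2 : (c1 + y % 2 * 2 ^ v) % 2 ^ v = c1 := by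
                  rw [Nat.add_mul_mod_self_right, Nat.mod_eq_of_lt h7.1]
                rw [← a1, h10, a2]
              have h12 : x % 2 = y % 2 := by
                have h13 : x % 2 * 2 ^ v = y % 2 * 2 ^ v := by omega
                exact Nat.eq_of_mul_eq_mul_right (by positivity) h13
              have hx2 : x / 2 < L.length := by omega
              have hy2 : y / 2 < L.length := by omega
              have h14 : gt L (x / 2) = gt L (y / 2) := by rw [h5, h8, h11]
              rw [BE.gt, BE.gt, List.getD_eq_getElem _ _ hx2, List.getD_eq_getElem _ _ hy2] at h14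
              have h15 := (List.Nodup.getElem_inj_iff h2).1 h14
              exact hxy (by omega)
            · exact absurd hz' List.not_mem_nil
          · exact absurd hz List.not_mem_nil
      rw [hL']
      by_cases hb : 1 + 2 ^ b < (1 :: fm (2 * L.length) F).length
      · rw [if_pos hb]
        left
        refine ⟨rfl, ?_⟩
        rw [List.length_cons] at hb
        have h4 := card_pre_le hM hs hX hv hnd fun z hz => (hmem z).1 hz
        omega
      · rw [if_neg hb]
        right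
        refine ⟨_, rfl, hnd, fun z => ?_⟩
        rw [hmem]
        constructor
        · rintro ⟨c, h4, h5, h6⟩
          exact ⟨c, h4, Or.inr h5, h6⟩
        · rintro ⟨c, h4, h5, h6⟩
          exact ⟨c, h4, h5.resolve_left (Nat.succ_ne_zero v), h6⟩

/-- PROOF. `ens_spec` for `v = n` (for `n = 0` all scores are `0`), `scp_n`, `length_ens_le` (C4): if the state is not `[]` then the
list has at most `2 ^ b` elements and contains exactly the codes (`GL.cdv`) of the elements of `vl` (so `#vl ≤ 2 ^ b`,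
`GL.cdv_inj`); then the filter (`Phi n M (sv n s c) = Ph (wtm n M) (fv n (sv n s c))`, `GL.Phi_Ph`). -/
theorem enu_spec {M s : List ℤ} {Q X : Finset (Fin n)} {σ : Sc n} {Θ : ℕ} (hM : PkB n Q M Θ σ)
    (hs : fv n s = bl X) (hX : X ⊆ Q) (a : ℤ) (b : ℕ) :
    ((vl σ Q X Θ).card ≤ 2 ^ b → ∃ l, enu n M s a b = 1 :: l ∧
      Cpl l ((vl σ Q X Θ).filter fun x => Ph (wtm n M) x = a)) ∧
    (2 ^ b < (vl σ Q X Θ).card → enu n M s a b = []) := by
  have hsub : vl σ Q X Θ ⊆ S (bl X) := filter_subset _ _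
  rcases ens_spec hM hs hX b le_rfl with ⟨h1, h2⟩ | ⟨L, h1, h2, h3⟩
  · refine ⟨fun h => absurd h (not_le.2 h2), fun _ => ?_⟩
    unfold enu
    rw [h1]
    rfl
  · have hC : Cpl L (vl σ Q X Θ) := by
      refine ⟨h2, fun z => ?_⟩
      rw [h3]
      constructor
      · rintro ⟨c, h4, h5, rfl⟩
        have h5' : scp n M s c n ≤ (Θ : ℤ) := by
          rcases h5 with h5 | h5
          · subst h5
            show ∑ u ∈ range 0, _ ≤ _
            rw [Finset.sum_range_zero]
            exact Int.natCast_nonneg _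
          · exact h5
        refine ⟨fv n (sv n s c), ?_, ?_⟩
        · unfold SB.vl
          rw [mem_filter]
          refine ⟨D6_S hs _, ?_⟩
          rw [scp_n hM hs hX] at h5'
          exact_mod_cast h5'
        · have h6 : cdv (fv n (sv n s c)) = ((cdX (ST n c) : ℕ) : ℤ) := by
            unfold GL.cdv cdX
            congr 1
            refine Finset.sum_congr rfl fun v _ => ?_
            rw [D6_fv hs]
            by_cases h7 : bit c v = 1
            · have h8 : v ∈ X := (gt_bl_iff hs v).1 (h4.2 v v.2 h7)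
              rw [if_pos h8, if_pos h7, if_pos rfl, if_pos (D6_mem_ST.2 h7)]
            · rw [if_neg fun h9 => h7 (D6_mem_ST.1 h9)]
              by_cases h8 : v ∈ X
              · rw [if_pos h8, if_neg h7, if_neg (by norm_num)]
              · rw [if_neg h8, if_neg (by norm_num)]
          rw [h6, cdX_ST h4.1]
      · rintro ⟨x, hx, rfl⟩
        have hxS : x ∈ S (fv n s) := by
          rw [hs]
          exact hsub hx
        have hsv := GL.sv_cdv s hxS
        have hlt := GL.cdv_lt x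
        have hnat : (((cdv x).toNat : ℕ) : ℤ) = cdv x := Int.toNat_of_nonneg hlt.1
        refine ⟨(cdv x).toNat, ⟨?_, ?_⟩, Or.inr ?_, hnat⟩
        · zify
          rw [hnat]
          exact_mod_cast hlt.2
        · intro u hu hbu
          have h4 : (⟨u, hu⟩ : Fin n) ∈ ST n (cdv x).toNat := D6_mem_ST.2 hbu
          rw [GL.ST_cdv, mem_filter] at h4
          have h5 := (SX.mem_Sbl.1 (hsub hx) ⟨u, hu⟩).2
          have h6 : (⟨u, hu⟩ : Fin n) ∈ X := by
            by_contra h7
            rw [h5 h7] at h4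
            exact absurd h4.2 (by norm_num)
          exact (gt_bl_iff hs ⟨u, hu⟩).2 h6
        · rw [scp_n hM hs hX, hsv]
          have h4 := (mem_filter.1 hx).2
          exact_mod_cast h4
    have hlen : L.length = (vl σ Q X Θ).card := SX.Cpl_length hC hsub
    have hle : L.length ≤ 2 ^ b := by
      have h4 := length_ens_le n M s b n
      rw [h1, List.length_cons] at h4
      omega
    refine ⟨fun _ => ?_, fun h => absurd h (by omega)⟩
    have hfm : ∀ (P : ℤ → Prop) [DecidablePred P] (K : List ℤ),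
        fm K.length (fun i => if P (gt (1 :: K) (1 + i)) then [gt (1 :: K) (1 + i)] else []) =
          K.filter fun y => decide (P y) := by
      intro P _ K
      induction K with
      | nil => rfl
      | cons k K ihK =>
        unfold fm at ihK ⊢
        rw [List.length_cons, List.range_succ_eq_map, List.flatMap_cons, List.flatMap_map]
        have h4 : ∀ i, gt (1 :: k :: K) (1 + (i + 1)) = gt (1 :: K) (1 + i) := by
          intro i
          show (1 :: k :: K).getD (1 + (i + 1)) 0 = (1 :: K).getD (1 + i) 0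
          rw [Nat.add_comm 1 (i + 1), Nat.add_comm 1 i, List.getD_cons_succ, List.getD_cons_succ,
            List.getD_cons_succ]
        have h5 : gt (1 :: k :: K) (1 + 0) = k := rfl
        rw [h5]
        simp only [Nat.succ_eq_add_one, h4]
        rw [ihK]
        by_cases h6 : P k
        · rw [if_pos h6, List.filter_cons_of_pos (by simpa using h6)]
          rfl
        · rw [if_neg h6, List.filter_cons_of_neg (by simpa using h6)]
          rfl
    refine ⟨L.filter fun y => decide (Phi n M (sv n s y.toNat) = a), ?_, h2.filter _, fun z => ?_⟩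
    · unfold enu
      rw [h1, if_neg (by simp), ← hfm (fun y => Phi n M (sv n s y.toNat) = a) L]
      rfl
    · rw [List.mem_filter, hC.2 z]
      have hPh : ∀ x ∈ vl σ Q X Θ, Phi n M (sv n s (cdv x).toNat) = Ph (wtm n M) x := by
        intro x hx
        rw [GL.Phi_Ph, GL.sv_cdv s (by rw [hs]; exact hsub hx)]
      constructor
      · rintro ⟨⟨x, hx, rfl⟩, h5⟩
        refine ⟨x, ?_, rfl⟩
        rw [mem_filter]
        refine ⟨hx, ?_⟩
        rw [← hPh x hx]
        simpa using h5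
      · rintro ⟨x, hx, rfl⟩
        rw [mem_filter] at hx
        refine ⟨⟨x, hx.1, rfl⟩, ?_⟩
        rw [hPh x hx.1]
        simpa using hx.2

end Pool.Agent.MPa9445a.GS
end

section

/-!
# The list of the small sets in the code
-/

set_option autoImplicit false

open Finset
open scoped symmDiff

namespace Pool.Agent.MPa9445a.GS

open Pool.Agent.MPa9445a.BE (Ty Env vs one Bd NL DL tb flt gt bit Phi vec code lin argmax fv wtm)
open Pool.Agent.MPa9445a.GD
open Pool.Agent.MPa9445a.SN (kb ST Fm rs)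
open Pool.Agent.MPa9445a.GL (Fr)
open Pool.Agent.MPa9445a.SB (bl Cc Hm)

variable {n : ℕ}

/-- The small sets in the code. -/
def CS (n : ℕ) (A : List ℤ) : Finset (Finset (Fin n)) :=
  (Cc (SX.hR n A) univ).filter fun D => 10000 * D.card ≤ 1891 * n

theorem mem_Cc' {A : List ℤ} {D : Finset (Fin n)} :
    D ∈ Cc (SX.hR n A) univ ↔ ∀ i < Rc n, parN n A (oH n) i (cdX D) = 0 := by
  unfold SB.Cc
  rw [mem_filter, mem_powerset]
  have h1 : ∀ i : Fin (SB.Rc n), Even (D ∩ SX.hR n A i).card ↔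
      parN n A (oH n) i (cdX D) = 0 := fun i => by
    rw [parN_eq, ST_cdX, Nat.even_iff]
    rfl
  constructor
  · rintro ⟨_, h⟩ i hi
    exact (h1 ⟨i, hi⟩).1 (h ⟨i, hi⟩)
  · intro h
    exact ⟨subset_univ _, fun i => (h1 i).2 (h i i.2)⟩

theorem mem_cdl {A : List ℤ} {z : ℤ} :
    z ∈ cdl n A ↔ ∃ D ∈ CS n A, (cdX D : ℤ) = z := by
  unfold cdl
  rw [mem_lsD]
  constructor
  · rintro ⟨u, hu, h1, h2, h3⟩
    have h4 := cdX_ST hu
    refine ⟨ST n u, mem_filter.2 ⟨mem_Cc'.2 fun i hi => ?_, ?_⟩, ?_⟩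
    · rw [h4]
      exact h2 i hi
    · rw [pcn_eq] at h1
      unfold sN at h1
      omega
    · rw [h4]
      exact h3
  · rintro ⟨D, hD, h3⟩
    obtain ⟨h1, h2⟩ := mem_filter.1 hD
    refine ⟨cdX D, cdX_lt D, ?_, mem_Cc'.1 h1, h3⟩
    rw [pcn_eq, ST_cdX]
    unfold sN
    omega

theorem nodup_cdl (n : ℕ) (A : List ℤ) : (cdl n A).Nodup := nodup_lsD _ _ _ _ _

/-- A sum over the list. -/
theorem sum_cdl (A : List ℤ) (f : ℕ → ℕ) :
    ∑ i ∈ range (cdl n A).length, f (gt (cdl n A) i).toNat = ∑ D ∈ CS n A, f (cdX D) := by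
  have hn := nodup_cdl n A
  have h1 : ∀ i < (cdl n A).length, ∃ D ∈ CS n A, (cdX D : ℤ) = gt (cdl n A) i := fun i hi => by
    refine mem_cdl.1 ?_
    rw [BE.gt, List.getD_eq_getElem _ _ hi]
    exact List.getElem_mem hi
  refine Finset.sum_bij (fun i _ => ST n (gt (cdl n A) i).toNat) ?_ ?_ ?_ ?_
  · intro i hi
    obtain ⟨D, hD, h2⟩ := h1 i (mem_range.1 hi)
    rw [← h2, Int.toNat_natCast, ST_cdX]
    exact hD
  · intro i hi j hj h
    obtain ⟨D, hD, h2⟩ := h1 i (mem_range.1 hi)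
    obtain ⟨D', hD', h2'⟩ := h1 j (mem_range.1 hj)
    beta_reduce at h
    rw [← h2, ← h2', Int.toNat_natCast, Int.toNat_natCast, ST_cdX, ST_cdX] at h
    rw [h, h2'] at h2
    have hi' := mem_range.1 hi
    have hj' := mem_range.1 hj
    rw [BE.gt, BE.gt, List.getD_eq_getElem _ _ hi', List.getD_eq_getElem _ _ hj'] at h2
    exact ((List.Nodup.getElem_inj_iff hn).1 h2).symm
  · intro D hD
    have h2 := (mem_cdl (A := A)).2 ⟨D, hD, rfl⟩
    obtain ⟨i, hi, h3⟩ := List.getElem_of_mem h2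
    refine ⟨i, mem_range.2 hi, ?_⟩
    rw [BE.gt, List.getD_eq_getElem _ _ hi, h3, Int.toNat_natCast, ST_cdX]
  · intro i hi
    obtain ⟨D, hD, h2⟩ := h1 i (mem_range.1 hi)
    rw [← h2, Int.toNat_natCast, ST_cdX]

theorem tbw_eq (A : List ℤ) : tbw n A = SB.TW (SX.hR n A) := by
  unfold tbw SB.TW
  rw [sum_cdl A fun c => 2 ^ jt n (pcn n c)]
  refine Finset.sum_congr rfl fun D _ => ?_
  rw [pcn_eq, ST_cdX, jt_eq]

theorem cdn_le (A : List ℤ) : cdn n A ≤ tbw n A := by
  have h1 : cdn n A = (cdl n A).length := (length_lsD _ _ _ _ _ _).symm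
  rw [h1]
  unfold tbw
  calc (cdl n A).length = ∑ _i ∈ range (cdl n A).length, 1 := by simp
    _ ≤ _ := Finset.sum_le_sum fun i _ => Nat.one_le_two_pow

theorem tok_iff {b : ℕ} {A : List ℤ} : tok n A b = 1 ↔ SB.TW (SX.hR n A) ≤ 2 ^ b := by
  rw [← tbw_eq]
  constructor
  · intro h
    exact (tok_one h).2
  · intro h
    unfold tok
    rw [if_pos ((cdn_le A).trans h), if_pos h]

end Pool.Agent.MPa9445a.GS
end
end
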