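import Pool.Agent.Lib.MP_a9445a_lc.Mg.G104
import Pool.Agent.Lib.MP_a9445a_lc.Mg.G100

section
/-! The mode U finds its targets. -/

set_option autoImplicit false
set_option synthInstance.maxSize 1000

open Finset

namespace Pool.Agent.MPa9445a.SB

open Pool.Agent.MPa9445a.SN (Fm rs kb)
open Pool.Agent.MPa9445a.GL (Vc S Ph Lv T Par lvl LL la2 fl Wb on off pl xk)

variable {n : ℕ} {W : Matrix (Fin n) (Fin n) ℤ} {R : ℕ}

open scoped Classical in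
/-- The sets `D` in the window such that the flipped target has the value `t`. -/
noncomputable def GG (W : Matrix (Fin n) (Fin n) ℤ) (d : ℕ) (Q : Finset (Fin n)) (u : Vc n) (t : ℤ) :
    Finset (Finset (Fin n)) :=
  Q.powerset.filter fun D => Ph W (fl D u) = t ∧ Wi d Q.card D.card

open scoped Classical in
/-- The sets in the code whose children find the parts of the target. -/
noncomputable def GD' (W : Matrix (Fin n) (Fin n) ℤ) (d : ℕ) (E : Rf n) (h : Hm n R)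
    (Q : Finset (Fin n)) (u : Vc n) (t : ℤ) : Finset (Finset (Fin n)) :=
  (GG W d Q u t ∩ Cc h Q).filter fun D => Fd W E D (on D u) ∧ Fd W E (Q \ D) (off D u)

/-- Many good sets. -/
def GU (W : Matrix (Fin n) (Fin n) ℤ) (d : ℕ) (E : Rf n) (h : Hm n R) (Q : Finset (Fin n))
    (u : Vc n) (t : ℤ) : Prop :=
  (GG W d Q u t).card ≤ 2 * (GD' W d E h Q u t).card * 2 ^ R

/-- PROOF. `card_fl_filter`. -/
theorem card_GG {d : ℕ} {Q : Finset (Fin n)} {u : Vc n} (hu : u ∈ S (bl Q)) (t : ℤ) :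
    (GG W d Q u t).card = ((Lv W (bl Q) t).filter fun z => Wi d Q.card (df u z).card).card := by
  have hS : Lv W (bl Q) t ⊆ S (bl Q) := Finset.filter_subset _ _
  rw [← card_fl_filter hu hS (fun D => Wi d Q.card D.card)]
  congr 1
  ext D
  simp only [GG, Finset.mem_filter, Finset.mem_powerset]
  constructor
  · rintro ⟨hD, ht, hw⟩
    refine ⟨hD, ?_, hw⟩
    exact Finset.mem_filter.2 ⟨GL.fl_mem (by rw [Fr_bl]; exact hD) hu, ht⟩
  · rintro ⟨hD, ht, hw⟩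
    exact ⟨hD, (Finset.mem_filter.1 ht).2, hw⟩

private theorem F2a_num {R n g L G : ℕ} (h2 : 2 ^ R * (n + 2) ^ 40 ≤ 2 ^ g) (hN : 2 ^ g ≤ 4 * L)
    (hw : L ≤ n ^ 2 * G) : 32 * 2 ^ R * (n + 2) ^ 25 ≤ G := by
  have h1 : 2 ^ 7 ≤ (n + 2) ^ 13 :=
    (Nat.pow_le_pow_left (by omega : 2 ≤ n + 2) 7).trans (Nat.pow_le_pow_right (by omega) (by norm_num))
  have h3 : n ^ 2 ≤ (n + 2) ^ 2 := Nat.pow_le_pow_left (by omega) 2
  have h4 : 0 < 4 * (n + 2) ^ 2 := by positivity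
  refine Nat.le_of_mul_le_mul_left ?_ h4
  calc 4 * (n + 2) ^ 2 * (32 * 2 ^ R * (n + 2) ^ 25)
      = 2 ^ 7 * (2 ^ R * (n + 2) ^ 27) := by ring
    _ ≤ (n + 2) ^ 13 * (2 ^ R * (n + 2) ^ 27) := Nat.mul_le_mul_right _ h1
    _ = 2 ^ R * (n + 2) ^ 40 := by ring
    _ ≤ 4 * L := h2.trans hN
    _ ≤ 4 * (n ^ 2 * G) := Nat.mul_le_mul_left 4 hw
    _ ≤ 4 * ((n + 2) ^ 2 * G) := Nat.mul_le_mul_left 4 (Nat.mul_le_mul_right G h3)
    _ = 4 * (n + 2) ^ 2 * G := by ring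

open scoped Classical in
/-- PROOF. `step` with `𝒢 = GG W d Q u t` (not empty; its elements are not `∅` and not `Q`: `Wi_ne`), `Bad h ω D = ¬ (Fd .. D (on D u) ∧ Fd .. (Q \ D) (off D u))`, `δ = 2 ε`: the bound for `D` is `hch D` for the chain `insert D 𝓔` and the target `on D u ∈ S (bl D)` (`dec_bl`), the bound for
`Q \ D` is `hch (Q \ D)` for the chain `insert (Q \ D) 𝓔` and `KH_compl`. `#𝒢 ≥ #Lv / n ^ 2 ≥ 2 ^ g / (4 n ^ 2)`, so `32 * 2 ^ R / #𝒢 ≤ 128 n ^ 2 / (n + 2) ^ 40 ≤ 1 / (n + 2) ^ 25` (`h2`). -/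
theorem modeU_good {Ω : Type} [Fintype Ω] (hW : Wb W) {E : Hm n R → Ω → Rf n} {d : ℕ}
    (hd : 0 < d) (hd' : d ≤ 5000) {𝓔 : Finset (Finset (Fin n))} {Q : Finset (Fin n)}
    (hQ : Ch 𝓔 Q) (hne : Q.Nonempty) {ε : ℝ} (hε : 0 ≤ ε)
    (hch : ∀ X ⊆ Q, Wi d Q.card X.card → Mis W E X ε) {u : Vc n} (hu : u ∈ S (bl Q)) {t : ℤ}
    {g : ℕ} (h2 : 2 ^ R * (n + 2) ^ 40 ≤ 2 ^ g) (hN : 2 ^ g ≤ 4 * (Lv W (bl Q) t).card)
    (hwin : (Lv W (bl Q) t).card ≤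
      n ^ 2 * ((Lv W (bl Q) t).filter fun z => Wi d Q.card (df u z).card).card) :
    ((((KH R 𝓔) ×ˢ (univ : Finset Ω)).filter fun z => ¬ GU W d (E z.1 z.2) z.1 Q u t).card : ℝ) ≤
      (8 * ε + 1 / (n + 2 : ℝ) ^ 25) * ((KH R 𝓔).card * Fintype.card Ω) := by
  set 𝒢 := GG W d Q u t with h𝒢def
  have hcard : (Lv W (bl Q) t).card ≤ n ^ 2 * 𝒢.card := by
    rw [h𝒢def, card_GG hu]
    exact hwin
  have hnum : 32 * 2 ^ R * (n + 2) ^ 25 ≤ 𝒢.card := F2a_num h2 hN hcard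
  have hGpos : 0 < 𝒢.card := lt_of_lt_of_le (by positivity) hnum
  have hmem : ∀ D ∈ 𝒢, D ⊆ Q ∧ Wi d Q.card D.card := by
    intro D hD
    rw [h𝒢def, GG, Finset.mem_filter, Finset.mem_powerset] at hD
    exact ⟨hD.1, hD.2.2⟩
  have h𝒢 : ∀ D ∈ 𝒢, D ⊆ Q ∧ D ≠ ∅ ∧ D ≠ Q := by
    intro D hD
    obtain ⟨hDQ, hw⟩ := hmem D hD
    exact ⟨hDQ, Wi_ne hd hne hDQ hw (by omega)⟩
  obtain ⟨Bad, hBad⟩ : ∃ Bad : Hm n R → Ω → Finset (Fin n) → Prop, ∀ h ω D,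
      Bad h ω D ↔ ¬ (Fd W (E h ω) D (on D u) ∧ Fd W (E h ω) (Q \ D) (off D u)) := ⟨_, fun _ _ _ => Iff.rfl⟩
  have hB : ∀ D ∈ 𝒢, ((((KH R (insert D 𝓔)) ×ˢ (univ : Finset Ω)).filter fun p =>
      Bad p.1 p.2 D).card : ℝ) ≤
      (2 * ε) * ((KH R (insert D 𝓔)).card * Fintype.card Ω) := by
    intro D hD
    obtain ⟨hDQ, hw⟩ := hmem D hD
    obtain ⟨-, -, -, hon, hoff⟩ := dec_bl hW hDQ hu
    have h1 := hch D hDQ hw (insert D 𝓔) (Ch_insert hQ hDQ) (on D u) hon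
    have hwc : Wi d Q.card (Q \ D).card := by
      have hc : (Q \ D).card = Q.card - D.card := Finset.card_sdiff_of_subset hDQ
      have hle : D.card ≤ Q.card := Finset.card_le_card hDQ
      obtain ⟨hw1, hw2⟩ := hw
      unfold Wi
      rw [hc]
      have e : (10000 - d) * Q.card + d * Q.card = 10000 * Q.card := by
        rw [← Nat.add_mul, Nat.sub_add_cancel (by omega)]
      constructor <;> omega
    have h3 := hch (Q \ D) Finset.sdiff_subset hwc (insert (Q \ D) 𝓔) (Ch_insert hQ Finset.sdiff_subset)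
      (off D u) hoff
    rw [KH_compl hQ.1 hDQ] at h3
    have hsub : (((KH R (insert D 𝓔)) ×ˢ (univ : Finset Ω)).filter fun p =>
        Bad p.1 p.2 D) ⊆
        (((KH R (insert D 𝓔)) ×ˢ (univ : Finset Ω)).filter fun z => ¬ Fd W (E z.1 z.2) D (on D u)) ∪
        (((KH R (insert D 𝓔)) ×ˢ (univ : Finset Ω)).filter fun z => ¬ Fd W (E z.1 z.2) (Q \ D) (off D u)) := by
      intro p hp
      rw [Finset.mem_filter, hBad] at hp
      rw [Finset.mem_union, Finset.mem_filter, Finset.mem_filter]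
      by_cases hA : Fd W (E p.1 p.2) D (on D u)
      · right
        exact ⟨hp.1, fun h => hp.2 ⟨hA, h⟩⟩
      · exact Or.inl ⟨hp.1, hA⟩
    have h4 := (Finset.card_le_card hsub).trans (Finset.card_union_le _ _)
    have h5 : ((((KH R (insert D 𝓔)) ×ˢ (univ : Finset Ω)).filter fun p =>
      Bad p.1 p.2 D).card : ℝ) ≤
      ((((KH R (insert D 𝓔)) ×ˢ (univ : Finset Ω)).filter fun z => ¬ Fd W (E z.1 z.2) D (on D u)).card : ℝ) +
      ((((KH R (insert D 𝓔)) ×ˢ (univ : Finset Ω)).filter fun z =>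
        ¬ Fd W (E z.1 z.2) (Q \ D) (off D u)).card : ℝ) := by
      exact_mod_cast h4
    linarith
  have hstep := step hQ h𝒢 (Finset.card_pos.1 hGpos) Bad (by positivity : (0 : ℝ) ≤ 2 * ε) hB
  have hle : ((((KH R 𝓔) ×ˢ (univ : Finset Ω)).filter fun z => ¬ GU W d (E z.1 z.2) z.1 Q u t).card : ℝ) ≤
      ((((KH R 𝓔) ×ˢ (univ : Finset Ω)).filter fun p =>
      2 * ((𝒢 ∩ Cc p.1 Q).filter fun D => ¬ Bad p.1 p.2 D).card * 2 ^ R < 𝒢.card).card : ℝ) := by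
    refine Nat.cast_le.2 (Finset.card_le_card ?_)
    intro z hz
    rw [Finset.mem_filter] at hz ⊢
    refine ⟨hz.1, ?_⟩
    have h6 := hz.2
    unfold GU at h6
    rw [not_le] at h6
    have h7 : GD' W d (E z.1 z.2) z.1 Q u t = (𝒢 ∩ Cc z.1 Q).filter fun D => ¬ Bad z.1 z.2 D := by
      ext D
      simp only [GD', Finset.mem_filter, hBad, not_not, h𝒢def]
    rw [h7] at h6
    exact h6
  refine hle.trans (hstep.trans ?_)
  refine mul_le_mul_of_nonneg_right ?_ (by positivity)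
  have h8 : (32 : ℝ) * 2 ^ R / 𝒢.card ≤ 1 / (n + 2 : ℝ) ^ 25 := by
    rw [div_le_div_iff₀ (by exact_mod_cast hGpos) (by positivity), one_mul]
    exact_mod_cast hnum
  linarith

end Pool.Agent.MPa9445a.SB
end

section
/-! The mode U finds its targets. -/

set_option autoImplicit false
set_option synthInstance.maxSize 1000

open Finset

namespace Pool.Agent.MPa9445a.SB

open Pool.Agent.MPa9445a.SN (Fm rs kb)
open Pool.Agent.MPa9445a.GL (Vc S Ph Lv T Par lvl LL la2 fl Wb on off pl xk)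

variable {n : ℕ} {W : Matrix (Fin n) (Fin n) ℤ} {R : ℕ}

private theorem F2b_arith {n F c m N J X R2 K : ℕ} (hc : 0 < c)
    (h1 : F * (J * X) ≤ m * c) (h2 : c * R2 * K ≤ 2 * N * J) (h3 : N ≤ n ^ 2 * (2 * X * R2))
    (hR : 0 < R2) (hK : (n + 2) ^ 30 ≤ K) : F * (n + 2) ^ 25 ≤ m := by
  have e1 : R2 * (c * K) ≤ R2 * (4 * n ^ 2 * X * J) := by
    calc R2 * (c * K) = c * R2 * K := by ring
      _ ≤ 2 * N * J := h2
      _ ≤ 2 * (n ^ 2 * (2 * X * R2)) * J := by gcongr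
      _ = R2 * (4 * n ^ 2 * X * J) := by ring
  have e2 : c * K ≤ 4 * n ^ 2 * X * J := Nat.le_of_mul_le_mul_left e1 hR
  have e3 : c * (F * K) ≤ c * (4 * n ^ 2 * m) := by
    calc c * (F * K) = F * (c * K) := by ring
      _ ≤ F * (4 * n ^ 2 * X * J) := by gcongr
      _ = 4 * n ^ 2 * (F * (J * X)) := by ring
      _ ≤ 4 * n ^ 2 * (m * c) := by gcongr
      _ = c * (4 * n ^ 2 * m) := by ring
  have e4 : F * K ≤ 4 * n ^ 2 * m := Nat.le_of_mul_le_mul_left e3 hc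
  have e5 : 4 * n ^ 2 ≤ (n + 2) ^ 5 := by
    calc 4 * n ^ 2 ≤ 2 ^ 3 * (n + 2) ^ 2 := by
          have : n ^ 2 ≤ (n + 2) ^ 2 := Nat.pow_le_pow_left (by omega) 2
          omega
      _ ≤ (n + 2) ^ 3 * (n + 2) ^ 2 := by
          have : 2 ^ 3 ≤ (n + 2) ^ 3 := Nat.pow_le_pow_left (by omega) 3
          gcongr
      _ = (n + 2) ^ 5 := by ring
  have e6 : (n + 2) ^ 5 * (F * (n + 2) ^ 25) ≤ (n + 2) ^ 5 * m := by
    calc (n + 2) ^ 5 * (F * (n + 2) ^ 25) = F * (n + 2) ^ 30 := by ring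
      _ ≤ F * K := by gcongr
      _ ≤ 4 * n ^ 2 * m := e4
      _ ≤ (n + 2) ^ 5 * m := by gcongr
  exact Nat.le_of_mul_le_mul_left e6 (by positivity)

open scoped Classical in
/-- PROOF. If some `κ < 2 ^ eU` has `φ Q (rs ω κ) ∈ GD'` then `u` is found (`mem_oR`, `Gd_Wn`, `Wn_in`: `Fd` of `Wn ..` for blocks in the window, `Wi_compl`). `hitF` with `𝒳 = GD' W d E h Q u t`, `J = 2 ^ eU ≤ 2 ^ kb n` (`ex_kb`: `log₂ #Cc + R ≤ n + g` as `R ≤ g`; `kbD`): the exceptional `ωU` are at most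
`#Fm * #Cc / (2 ^ eU * #𝒳)`; `le_ex` (`x = #ht > 0`): `#Cc * 2 ^ R * 2 ^ (c2 lg) ≤ 2 * N * 2 ^ eU`, and `#𝒳 ≥ #GG / (2 * 2 ^ R) ≥ N / (2 n ^ 2 2 ^ R)`, so the fraction is at most `4 n ^ 2 / 2 ^ (c2 lg) ≤ 4 n ^ 2 / (n + 2) ^ 30`. -/
theorem modeU_hit (hW : Wb W) {E : ℕ → Rf n} (hE : ∀ m, Gd W (E m)) {h : Hm n R}
    {φ : Finset (Fin n) → Finset (Fin n) → Finset (Fin n)} {Q : Finset (Fin n)}
    (hφ : Fib (φ Q) (Cc h Q)) {P : Lev} (hd : 0 < P.d) (hd' : P.d ≤ 5000) (hne : Q.Nonempty)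
    {u : Vc n} (hu : u ∈ S (bl Q)) {t : ℤ} {g : ℕ} (hg : g ≤ Q.card) (hR : R ≤ g)
    (hk : n + c2 * lg n + 1 ≤ kb n)
    (hwin : (Lv W (bl Q) t).card ≤
      n ^ 2 * ((Lv W (bl Q) t).filter fun z => Wi P.d Q.card (df u z).card).card)
    (hGU : GU W P.d (E Q.card) h Q u t) {ωY : Fm n}
    (hpr : 2 ^ (c1 * lg n - 1) ≤ (ht W Q ωY (Jn n Q.card g) t).card) (hup : Up W Q g ωY t)
    (ωB : Fm n) :
    (univ.filter fun ωU : Fm n => u ∉ oR W (Wn P.d Q.card (E Q.card)) Q (dU φ Q (ωY, ωU, ωB))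
      (2 ^ eU W h Q g (ωY, ωU, ωB) t) ((Ph W u + t) / 2) (Ph W u)).card * (n + 2) ^ 25 ≤
      Fintype.card (Fm n) := by
  set x : ℕ := (ht W Q ωY (Jn n Q.card g) t).card with hx
  set c : ℕ := Nat.log 2 (Cc h Q).card + R with hc
  set e : ℕ := ex n c g x with he
  set 𝒳 := GD' W P.d (E Q.card) h Q u t with h𝒳
  have hX1 : 𝒳 ⊆ Cc h Q := by
    intro D hD
    rw [h𝒳, GD', mem_filter, mem_inter] at hD
    exact hD.1.2
  -- the exceptional points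
  have hsub : (univ.filter fun ωU : Fm n => u ∉ oR W (Wn P.d Q.card (E Q.card)) Q
      (dU φ Q (ωY, ωU, ωB)) (2 ^ eU W h Q g (ωY, ωU, ωB) t) ((Ph W u + t) / 2) (Ph W u)) ⊆
      univ.filter fun ω : Fm n => ∀ κ < 2 ^ e, φ Q (rs ω κ) ∉ 𝒳 := by
    intro ω hω
    rw [mem_filter] at hω ⊢
    refine ⟨mem_univ _, fun κ hκ hD => hω.2 ?_⟩
    have hD0 := hD
    rw [h𝒳, GD', mem_filter, mem_inter, GG, mem_filter, mem_powerset] at hD
    obtain ⟨⟨⟨hDQ, hDt, hDw⟩, hDC⟩, hF1, hF2⟩ := hD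
    have hw2 : Wi P.d Q.card (Q \ φ Q (rs ω κ)).card := by
      rw [card_sdiff_of_subset hDQ]
      exact (Wi_compl (by omega) (card_le_card hDQ)).2 hDw
    refine mem_oR (D := dU φ Q (ωY, ω, ωB)) hW (Gd_Wn (hE _) _ _) hu (κ := κ) hκ hDQ hDt ?_ ?_
    · intro j A hA
      have hA' : Wn P.d Q.card (E Q.card) (φ Q (rs ω κ)) (Ph W (on (φ Q (rs ω κ)) u)) j = some A := hA
      rw [Wn_in hDw] at hA'
      exact hF1 j A hA'
    · intro j A hA
      have hA' : Wn P.d Q.card (E Q.card) (Q \ φ Q (rs ω κ)) (Ph W (off (φ Q (rs ω κ)) u)) j =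
        some A := hA
      rw [Wn_in hw2] at hA'
      exact hF2 j A hA'
  have hCle : (Cc h Q).card ≤ 2 ^ n := by
    calc (Cc h Q).card ≤ Q.powerset.card := card_le_card (filter_subset _ _)
      _ = 2 ^ Q.card := card_powerset Q
      _ ≤ 2 ^ n := Nat.pow_le_pow_right (by norm_num) (by simpa using card_le_univ Q)
  have hCp : 0 < (Cc h Q).card := by
    have h1 := card_pow2 hφ
    rw [← h1]
    positivity
  have hlog : Nat.log 2 (Cc h Q).card ≤ n := by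
    have h1 := card_pow2 hφ
    have h2 : 2 ^ Nat.log 2 (Cc h Q).card ≤ 2 ^ n := by rw [h1]; exact hCle
    exact (Nat.pow_le_pow_iff_right (by norm_num)).1 h2
  have hcn : c ≤ n + g := by omega
  have hek : e ≤ kb n := (ex_kb hpr hcn).trans hk
  have hJ : 2 ^ e ≤ 2 ^ kb n := Nat.pow_le_pow_right (by norm_num) hek
  have hhit := hitF hφ hX1 hJ
  have hx0 : 0 < x := lt_of_lt_of_le (by positivity) hpr
  have hle := le_ex (n := n) (m := Q.card) (c := c) (g := g) (x := x) (N := (Lv W (bl Q) t).card)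
    hg hx0 hup.2
  have hle' : 2 ^ c * 2 ^ (c2 * lg n) ≤ 2 * (Lv W (bl Q) t).card * 2 ^ e := by
    exact_mod_cast hle
  have hc2 : (2 : ℕ) ^ c = (Cc h Q).card * 2 ^ R := by
    rw [hc, pow_add, card_pow2 hφ]
  rw [hc2] at hle'
  have hGG : (Lv W (bl Q) t).card ≤ n ^ 2 * (2 * 𝒳.card * 2 ^ R) := by
    calc (Lv W (bl Q) t).card ≤
        n ^ 2 * ((Lv W (bl Q) t).filter fun z => Wi P.d Q.card (df u z).card).card := hwin
      _ = n ^ 2 * (GG W P.d Q u t).card := by rw [card_GG hu t]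
      _ ≤ n ^ 2 * (2 * 𝒳.card * 2 ^ R) := Nat.mul_le_mul_left _ hGU
  have hK : (n + 2) ^ 30 ≤ 2 ^ (c2 * lg n) := by
    have h1 := (lg_spec n).1
    calc (n + 2) ^ 30 ≤ (2 ^ lg n) ^ 30 := Nat.pow_le_pow_left h1 30
      _ = 2 ^ (c2 * lg n) := by rw [← pow_mul, c2, mul_comm]
  refine le_trans (Nat.mul_le_mul_right _ (card_le_card hsub)) ?_
  exact F2b_arith hCp hhit hle' hGG (by positivity) hK

end Pool.Agent.MPa9445a.SB
end

section

end
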