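import Pool.Agent.Lib.MP_a9445a_lc.Mg.G104
import Pool.Agent.Lib.MP_a9445a_lc.Mg.G105
import Pool.Agent.Lib.MP_a9445a_lc.SB.F3c
import Pool.Agent.Lib.MP_a9445a_lc.GS.R2
import Pool.Agent.Lib.MP_a9445a_lc.Mg.G106
import Pool.Agent.Lib.MP_a9445a_lc.Mg.G120

section

section

end

section

/-! The running time of the procedures of the levels. -/

set_option autoImplicit false

open Finset

namespace Pool.Agent.MPa9445a.GS

open Pool.Agent.MPa9445a.BE (Ty Env vs one Bd NL DL tb flt gt bit Phi vec code lin argmax Bd.const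
  Bd.add Bd.mul Bd.le Bd.up Bd.var Bd.self)
open Pool.Agent.MPa9445a.GD
open Pool.Agent.MPa9445a.SN (kb)
open Pool.Agent.MPa9445a.GL (Pc Pf Df rk sv br rc dk RL Zn LL lvv inl EE HE HF HL PP Pm c_rk bd_rk
  c_rc c_dk c_RL c_Zn c_LL bd_LL c_lvv c_inl c_bl c_EE Bd.dom' c_sv YS tl c_run c_tl length_run_le
  length_tl PB_dom c_bf c_min)
open Pool.Agent.MPa9445a.SB (Lev c1 c2)
open Pool.Agent.MPa9445a.SX (jx dgt agc HA HV grN scL hN exL UL MB BL nB atp atI ndp P2 P1)

/-- The exponent of the budget of a level is computed in polynomial time. -/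
def HG (gf : ℕ → List ℤ → List ℤ → ℕ) : Prop :=
  ∀ (A : Type) (N : A → ℕ) (D : A → Prop) (Γ : List Ty) (ρ : A → Env Γ) (n : A → ℕ)
    (M s : A → List ℤ), PN N D ρ n → Bd N D n → PA N D ρ M → PA N D ρ s →
    PN N D ρ (fun a => gf (n a) (M a) (s a)) ∧ Bd N D (fun a => gf (n a) (M a) (s a))

section

variable {A : Type} {N : A → ℕ} {D : A → Prop} {Γ : List Ty} {ρ : A → Env Γ}

theorem c_atI (P : Lev) {Ch : Pf} (hE : HE Ch) {gf : ℕ → List ℤ → List ℤ → ℕ} (hG : HG gf)
    (lev : ℕ) {n b x : A → ℕ} {M R s : A → List ℤ} {p : A → ℤ}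
    (hn : PN N D ρ n) (bn : Bd N D n) (hM : PA N D ρ M) (hR : PA N D ρ R) (hs : PA N D ρ s)
    (hp : PI N D ρ p) (hb : PN N D ρ b) (bb : Bd N D b) (hx : PN N D ρ x) :
    Cp N D ρ (fun _ a => (2 : ℝ) ^ b a) .arr
      (fun a => atI P Ch gf lev (n a) (M a) (R a) (s a) (p a) (b a) (x a)) := by
  have hg := hG _ N D _ ρ n M s hn bn hM hs
  exact c_atp P hE (x := fun a => ⟨n a, M a, R a, fof (n a) lev (x a / LL (n a)) 0, s a,
    gf (n a) (M a) (s a), p a, b a, lvv (n a) (x a % LL (n a))⟩)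
    ⟨hn, bn, hM, hR, c_fof hn (PN.const lev) (PN.div hx (c_LL hn)) (PN.const 0), hs, hg.1, hg.2,
      hp, hb, bb, c_lvv hn (PN.mod hx (c_LL hn))⟩

end

/-- The procedures are run by a program in time `poly * 2 ^ b`. -/
theorem c_ndp (P : Lev) {Ch : Pf} (hE : HE Ch) {gf : ℕ → List ℤ → List ℤ → ℕ} (hG : HG gf)
    (lev : ℕ) : HE (ndp P Ch gf lev) := by
  intro A N D Γ ρ n M R s p b hn bn hM hR hs hp hb bb
  have hrk := c_rk hs hn bn
  have hq1 := PB.leN hrk hb
  have hq2 := PB.ne (PI.mod (PI.add hp (PI.Phi hn bn hM (c_sv hn bn hs (PN.const 0))))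
    (PI.const 2)) (PI.const 0)
  have hK : PN N D ρ (fun a => n a * LL (n a)) := PN.mul hn (c_LL hn)
  have bK : Bd N D (fun a => n a * LL (n a)) := bn.mul (bd_LL bn)
  have hAM : Cp N D ρ (fun _ a => (2 : ℝ) ^ b a) .int (fun a =>
      (argmax (n a * LL (n a)) fun x => if (atI P Ch gf lev (n a) (M a) (R a) (s a) (p a)
        (b a) x.toNat).length = 0 then 0 else 1 : ℕ)) := by
    have h := Cp.amax (k := fun a => n a * LL (n a)) (w := fun _ a => (2 : ℝ) ^ b a)
      (f := fun a i => if (atI P Ch gf lev (n a) (M a) (R a) (s a) (p a) (b a)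
        i).length = 0 then 0 else 1) hK (fun a _ τ _ => one_le_two_pow' _) fun Γ1 ρ1 up hv => by
          have h1 := c_atI P hE hG lev (up.n hn) (bn.up _) (up.a hM) (up.a hR) (up.a hs) (up.i hp)
            (up.n hb) (bb.up _) hv
          refine h1.store fun Γ2 ρ2 k2 hT => ?_
          exact (Cp.ite (PB.eqN (PN.len hT) (PN.const 0)) (PI.const 0) (PI.const 1)).lift
            fun a _ τ _ => one_le_two_pow' _
    obtain ⟨m, hm⟩ := bK
    refine h.mono_poly (m + 1) fun a ha τ _ => ⟨one_le_two_pow' _, ?_⟩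
    have h3 := one_le_two_pow' (b a)
    have h4 : (0 : ℝ) ≤ N a := Nat.cast_nonneg _
    have h5 : (((n a * LL (n a) : ℕ)) : ℝ) ≤ ((N a : ℝ) + 2) ^ m := by exact_mod_cast hm a ha
    have h8 : (1 : ℝ) ≤ ((N a : ℝ) + 2) ^ m := one_le_pow₀ (by linarith)
    rw [pow_succ ((N a : ℝ) + 2) m]
    refine mul_le_mul_of_nonneg_right ?_ (zero_le_one.trans h3)
    nlinarith
  have hX : Cp N D ρ (fun _ a => (2 : ℝ) ^ b a) .arr (fun a =>
      atI P Ch gf lev (n a) (M a) (R a) (s a) (p a) (b a)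
        (argmax (n a * LL (n a)) fun x => if (atI P Ch gf lev (n a) (M a) (R a) (s a) (p a)
          (b a) x.toNat).length = 0 then 0 else 1)) := by
    refine hAM.store fun Γ1 ρ1 k1 hA => ?_
    exact c_atI P hE hG lev (k1.n hn) bn (k1.a hM) (k1.a hR) (k1.a hs) (k1.i hp) (k1.n hb) bb hA
  have hD1 : ∀ a, (D a ∧ rk (s a) (n a) ≤ b a) → D a := fun a h => h.1
  have h1 := c_bf (N := N) (D := fun a => D a ∧ rk (s a) (n a) ≤ b a) (ρ := ρ) (b := b)
    (Cp.dom hn hD1) (Bd.dom' bn hD1) (Cp.dom hM hD1) (Cp.dom hs hD1) (Cp.dom hp hD1)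
    fun a h => h.2
  have h2 : Cp N D ρ (fun _ a => (2 : ℝ) ^ b a) .arr (fun a =>
      if (p a + Phi (n a) (M a) (sv (n a) (s a) 0)) % 2 ≠ 0 then [1] else
      atI P Ch gf lev (n a) (M a) (R a) (s a) (p a) (b a)
        (argmax (n a * LL (n a)) fun x => if (atI P Ch gf lev (n a) (M a) (R a) (s a) (p a)
          (b a) x.toNat).length = 0 then 0 else 1)) := by
    refine (Cp.iteA hq2 (Cp.dom ((PA.one (PI.const 1)).lift (w := fun _ a => (2 : ℝ) ^ b a)
      fun a _ τ _ => one_le_two_pow' _) fun a h => h.1) (Cp.dom hX fun a h => h.1)).mono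
        fun a _ τ _ => ?_
    split_ifs <;> exact le_rfl
  refine ((Cp.iteA hq1 h1 (Cp.dom h2 fun a h => h.1)).mono fun a _ τ _ => ?_).congr fun a _ => rfl
  split_ifs <;> exact le_rfl

theorem bd_min {A : Type} {N : A → ℕ} {D : A → Prop} {m n : A → ℕ} (bn : Bd N D n) :
    Bd N D (fun a => min (m a) (n a)) := bn.le fun _ _ => min_le_right _ _

theorem HG_g1 : HG (fun n _ _ => g1 n) := fun _ _ _ _ _ _ _ _ hn bn _ _ => ⟨c_g1 hn, bd_g1 bn⟩

theorem HG_g2 : HG (fun n M s => g2 n (min (gt M (n * n)).toNat n) (rk s n)) :=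
  fun _ _ _ _ _ _ _ _ hn bn hM hs =>
    ⟨c_g2 hn (c_min (PN.toNat (PI.get hM (PN.mul hn hn))) hn) (bd_min bn) (c_rk hs hn bn),
      bd_g2 bn⟩

theorem c_P2 (PB : Lev) : HE (P2 PB) := c_ndp PB (c_WnL PB.d c_LF) HG_g2 0

theorem c_P1 (PA PB : Lev) : HE (P1 PA PB) := c_ndp PA (c_WnL PA.d (c_P2 PB)) HG_g1 1

end Pool.Agent.MPa9445a.GS
end

section

/-!
# The number of the sets in the code
-/

set_option autoImplicit false

open Finset
open scoped symmDiff

namespace Pool.Agent.MPa9445a.GS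

open Pool.Agent.MPa9445a.BE (Ty Env vs one Bd NL DL tb flt gt bit Phi vec code lin argmax fv wtm)
open Pool.Agent.MPa9445a.GD
open Pool.Agent.MPa9445a.SN (kb ST Fm rs)
open Pool.Agent.MPa9445a.GL (Fr)
open Pool.Agent.MPa9445a.SB (bl Cc Hm)

variable {n : ℕ}

private theorem D3_par_empty (r : Finset (Fin n)) : par r ∅ = 0 := by
  unfold par
  simp

/-- The nonempty sets of the family are independent. PROOF. Induction over `i`. `i = 0`: singletons or empty. Step (`cmb_pv`):
`fo = none`: nothing changes. `fo = some p` (`fo_some`: odd parity, so `z p ≠ ∅`): `z' p = ∅`; for `j ≠ p`: `z' j ≠ ∅` iff `z j ≠ ∅`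
(if `z j ∆ z p = ∅` with `z j` odd then `cmb z {j, p} = ∅`, contradiction to the induction hypothesis); if `w` is a set of
indices of nonempty sets `z' j` with `cmb z' w = ∅` then `cmb z w = ∅` or `cmb z w ∆ z p = cmb z (w ∆ {p}) = ∅`, and `p ∉ w`. -/
theorem kz_ind (Q : Finset (Fin n)) (h : ℕ → Finset (Fin n)) (i : ℕ) (w : Finset (Fin n))
    (hw : ∀ j ∈ w, kz Q h i j ≠ ∅) (h0 : cmb (kz Q h i) w = ∅) : w = ∅ := by
  induction i generalizing w with
  | zero =>
    by_contra hne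
    obtain ⟨v, hv⟩ := nonempty_iff_ne_empty.2 hne
    have hQ : ∀ j ∈ w, j ∈ Q := by
      intro j hj
      by_contra hc
      refine hw j hj ?_
      show (if j ∈ Q then {j} else ∅) = _
      rw [if_neg hc]
    have h1 : w.filter (fun j => v ∈ kz Q h 0 j) = {v} := by
      ext j
      rw [mem_filter, mem_singleton]
      constructor
      · rintro ⟨h2, h3⟩
        change v ∈ (if j ∈ Q then {j} else ∅ : Finset (Fin n)) at h3
        rw [if_pos (hQ j h2), mem_singleton] at h3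
        exact h3.symm
      · rintro rfl
        refine ⟨hv, ?_⟩
        change j ∈ (if j ∈ Q then {j} else ∅ : Finset (Fin n))
        rw [if_pos (hQ j hv)]
        exact mem_singleton_self j
    have h2 : v ∈ cmb (kz Q h 0) w := by
      unfold cmb
      rw [mem_filter, h1]
      exact ⟨mem_univ _, by simp⟩
    rw [h0] at h2
    exact notMem_empty v h2
  | succ i ih =>
    change ∀ j ∈ w, pv (h i) (kz Q h i) j ≠ ∅ at hw
    change cmb (pv (h i) (kz Q h i)) w = ∅ at h0
    rw [cmb_pv] at h0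
    cases hf : fo (h i) (kz Q h i) with
    | none =>
      rw [hf] at h0
      simp only [ite_self] at h0
      refine ih w (fun j hj => ?_) h0
      have h1 := hw j hj
      unfold pv at h1
      rw [if_neg (by rw [fo_none hf j]; exact zero_ne_one)] at h1
      exact h1
    | some p =>
      rw [hf] at h0
      have hp := fo_some hf
      have hpne : kz Q h i p ≠ ∅ := by
        intro h2
        rw [h2, D3_par_empty] at hp
        exact zero_ne_one hp
      have hpw : p ∉ w := by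
        intro h1
        refine hw p h1 ?_
        unfold pv
        rw [if_pos hp, hf]
        exact symmDiff_self _
      have hz : ∀ j ∈ w, kz Q h i j ≠ ∅ := by
        intro j hj h1
        refine hw j hj ?_
        unfold pv
        rw [if_neg (by rw [h1, D3_par_empty]; exact zero_ne_one)]
        exact h1
      simp only at h0
      split_ifs at h0 with h1
      · have h2 : cmb (kz Q h i) (w ∆ {p}) = ∅ := by
          rw [cmb_symmDiff, cmb_singleton]
          exact h0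
        have h3 := ih (w ∆ {p}) (fun j hj => by
          rw [mem_symmDiff, mem_singleton] at hj
          rcases hj with ⟨h3, _⟩ | ⟨h3, _⟩
          · exact hz j h3
          · rw [h3]
            exact hpne) h2
        have h4 : p ∈ w ∆ {p} := by
          rw [mem_symmDiff, mem_singleton]
          exact Or.inr ⟨rfl, hpw⟩
        rw [h3] at h4
        exact absurd h4 (notMem_empty p)
      · exact ih w hz h0

private theorem D3_cmb_filter (z : Fin n → Finset (Fin n)) (w : Finset (Fin n)) :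
    cmb z (w.filter fun j => z j ≠ ∅) = cmb z w := by
  unfold cmb
  refine filter_congr fun v _ => ?_
  have h1 : (w.filter fun j => z j ≠ ∅).filter (fun j => v ∈ z j) = w.filter fun j => v ∈ z j := by
    rw [filter_filter]
    refine filter_congr fun j _ => ?_
    constructor
    · exact fun h => h.2
    · exact fun h => ⟨ne_empty_of_mem h, h⟩
  rw [h1]

/-- PROOF. `w ↦ cmb (kz Q h' R) w` maps the subsets of `{j | kz Q h' R j ≠ ∅}` bijectively onto `Cc h Q`: injective by
`kz_ind` and `cmb_symmDiff`, onto by `range_kz` and `cmb z w = cmb z (w.filter fun j => z j ≠ ∅)`; `par (h' j) D = 0` iff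
`Even (D ∩ h j).card`. -/
theorem card_Cc {R : ℕ} (h : Hm n R) (h' : ℕ → Finset (Fin n)) (hh : ∀ j : Fin R, h' j = h j)
    (Q : Finset (Fin n)) :
    (Cc h Q).card = 2 ^ (univ.filter fun j => kz Q h' R j ≠ ∅).card := by
  have h1 : Cc h Q = (univ.filter fun j => kz Q h' R j ≠ ∅).powerset.image (cmb (kz Q h' R)) := by
    ext D
    have h2 : D ∈ Cc h Q ↔ D ⊆ Q ∧ ∀ i' < R, par (h' i') D = 0 := by
      unfold SB.Cc
      rw [mem_filter, mem_powerset]
      refine and_congr_right fun _ => ?_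
      constructor
      · intro h3 i' hi'
        have h4 := h3 ⟨i', hi'⟩
        rw [← hh ⟨i', hi'⟩, Nat.even_iff] at h4
        exact h4
      · intro h3 j
        rw [← hh j, Nat.even_iff]
        exact h3 j j.2
    rw [h2, ← range_kz, mem_image]
    constructor
    · rintro ⟨w, rfl⟩
      refine ⟨w.filter fun j => kz Q h' R j ≠ ∅, ?_, D3_cmb_filter _ _⟩
      rw [mem_powerset]
      intro j hj
      rw [mem_filter] at hj ⊢
      exact ⟨mem_univ _, hj.2⟩
    · rintro ⟨w, _, rfl⟩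
      exact ⟨w, rfl⟩
  rw [h1, card_image_of_injOn, card_powerset]
  intro w₁ hw₁ w₂ hw₂ he
  rw [Finset.mem_coe, mem_powerset] at hw₁ hw₂
  have h3 : cmb (kz Q h' R) (w₁ ∆ w₂) = ∅ := by
    rw [cmb_symmDiff, he]
    exact symmDiff_self _
  have h4 := kz_ind Q h' R (w₁ ∆ w₂) (fun j hj => by
    rw [mem_symmDiff] at hj
    rcases hj with ⟨h5, _⟩ | ⟨h5, _⟩
    · exact (mem_filter.1 (hw₁ h5)).2
    · exact (mem_filter.1 (hw₂ h5)).2) h3
  exact symmDiff_eq_bot.1 h4

private theorem D3_xr (n a b : ℕ) : xr n a b < 2 ^ n := by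
  unfold xr
  induction n with
  | zero => simp
  | succ n ih =>
    rw [Finset.sum_range_succ, pow_succ]
    have h1 : (bit a n + bit b n) % 2 < 2 := Nat.mod_lt _ (by norm_num)
    have h2 : (bit a n + bit b n) % 2 * 2 ^ n ≤ 1 * 2 ^ n := Nat.mul_le_mul_right _ (by omega)
    omega

private theorem D3_entry (n : ℕ) (R : List ℤ) (o : ℕ) (s : List ℤ) (i j : ℕ) :
    0 ≤ gt (kzL n R o s i) j ∧ gt (kzL n R o s i) j < 2 ^ n := by
  have h2n : (0 : ℤ) < 2 ^ n := by positivity
  induction i generalizing j with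
  | zero =>
    show 0 ≤ gt (tb n fun j => if gt s j = 2 then 2 ^ j else 0) j ∧
      gt (tb n fun j => if gt s j = 2 then 2 ^ j else 0) j < 2 ^ n
    rw [gt_tb']
    split_ifs with hj h1
    · exact ⟨by positivity, pow_lt_pow_right₀ (by norm_num) hj⟩
    · exact ⟨le_rfl, h2n⟩
    · exact ⟨le_rfl, h2n⟩
  | succ i ih =>
    rw [kzL_succ]
    unfold pvL
    rw [gt_tb']
    split_ifs with hj h1
    · refine ⟨Int.natCast_nonneg _, ?_⟩
      exact_mod_cast D3_xr n _ _
    · exact ih j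
    · exact ⟨le_rfl, h2n⟩

/-- PROOF. `card_Cc`; `kzL_eq` (K2), the entries of `kzL` are `≥ 0` and `< 2 ^ n` (see the private `K3_entry`), such a number is `0`
iff `ST n` of it is empty; `Fr (bl Q) = Q`; `Nat.log_pow`; `SX.hR n R i = rowR n R (oH n) i`. -/
theorem dmL_eq {s : List ℤ} {Q : Finset (Fin n)} (hs : fv n s = bl Q) (R : List ℤ) :
    dmL n R s = Nat.log 2 (Cc (SX.hR n R) Q).card := by
  rw [card_Cc (SX.hR n R) (rowR n R (oH n)) (fun _ => rfl) Q, Nat.log_pow (by norm_num)]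
  unfold dmL dmC
  rw [Finset.card_filter, Finset.sum_range]
  refine Finset.sum_congr rfl fun j _ => ?_
  obtain ⟨h1, h2⟩ := D3_entry n R (oH n) s (Rc n) j
  have h3 := kzL_eq R (oH n) s (Rc n) j
  rw [hs, Fr_bl] at h3
  have h4 : gt (kzL n R (oH n) s (Rc n)) j = 0 ↔ kz Q (rowR n R (oH n)) (Rc n) j = ∅ := by
    rw [← h3]
    constructor
    · intro h5
      rw [h5]
      ext v
      unfold SN.ST BE.bit
      simp
    · intro h5
      have h6 : (gt (kzL n R (oH n) s (Rc n)) j).toNat < 2 ^ n := by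
        zify
        rw [Int.toNat_of_nonneg h1]
        exact h2
      have h7 := cdX_ST h6
      rw [h5] at h7
      have h8 : cdX (∅ : Finset (Fin n)) = 0 := by
        unfold cdX
        simp
      rw [h8] at h7
      omega
  by_cases h5 : gt (kzL n R (oH n) s (Rc n)) j = 0
  · rw [if_pos h5, if_neg]
    exact fun h6 => h6 (h4.1 h5)
  · rw [if_neg h5, if_pos]
    exact fun h6 => h5 (h4.2 h6)

end Pool.Agent.MPa9445a.GS
end
end

section

section

/-! The candidates of a repetition: samples and balls. -/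

set_option autoImplicit false

open Finset
open scoped symmDiff

namespace Pool.Agent.MPa9445a.SX

open Pool.Agent.MPa9445a.BE
open Pool.Agent.MPa9445a.SN (ST Fm rs kb)
open Pool.Agent.MPa9445a.GL (Vc S Ph Lv Fr lvl LL lvv rk rc fR bl sv full xk YS)
open Pool.Agent.MPa9445a.GS (oT oH Rz cct TB fof g0)
open Pool.Agent.MPa9445a.SB (Rf Hm Om ht Jn df Wi)
open Pool.Agent.MPa9445a.BW (bw)

variable {n : ℕ}

private theorem V1c_xk (ω : Fm n) (κ : ℕ) : xk (SB.bl univ) ω κ ∈ S (SB.bl univ) :=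
  GL.vc_mem _ _

private theorem V1c_fv (M : List ℤ) (A : List ℤ) (t : ℤ) {κ : ℕ}
    (hκ : κ ∈ ht (wtm n M) univ (fR n A (oo n)) (Jn n n (g0 n)) t) :
    fv n (sv n (full n) (rc n A (oo n) (gt (YS n M A (oo n) (full n) (jx n n (g0 n)) t)
      ((ht (wtm n M) univ (fR n A (oo n)) (Jn n n (g0 n)) t).filter fun κ' => κ' < κ).card).toNat)) =
      xk (SB.bl univ) (fR n A (oo n)) κ := by
  rw [smp_idx M A t hκ, Int.toNat_natCast]
  exact fv_smp A (oo n) fv_full_bl κ

/-- Samples and balls: the candidate with the index `y + 1`. PROOF. `smp_idx`, `fv_smp`, `ball`, `ball_self` (in the first case with `κ` the first sample of value `t = Ph W x`, so `y = 0`; `Ph W x` is a level by `GL.Ph_lvl` for `Wb`). `cd1`. -/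
theorem cd1_opt (hn : 0 < n) {M : List ℤ} (hM : ∀ z ∈ M, |z| ≤ 1) (hW : GL.Wb (wtm n M))
    {R : List ℤ} {z : ℕ} {x : Vc n} (hx : x ∈ S (SB.bl univ))
    (h : (∃ κ < Jn n n (g0 n), Ph (wtm n M) (xk (SB.bl univ) (fR n (Rz n R z) (oo n)) κ) =
        Ph (wtm n M) x) ∨
      ∃ t ∈ lvl n, ∃ κ ∈ ht (wtm n M) univ (fR n (Rz n R z) (oo n)) (Jn n n (g0 n)) t,
        ((ht (wtm n M) univ (fR n (Rz n R z) (oo n)) (Jn n n (g0 n)) t).filter
          fun κ' => κ' < κ).card < SB.Y0 ∧
        ¬ Wi 4999 n (df x (xk (SB.bl univ) (fR n (Rz n R z) (oo n)) κ)).card) :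
    ∃ t ∈ lvl n, ∃ y < SB.Y0, Ph (wtm n M) x ≤ Phi n M (vec n (cd1 n M R z t y)) := by
  rcases h with ⟨κ, hκ, he⟩ | ⟨t, ht', κ, hκ, hY, hd⟩
  · have hne : (ht (wtm n M) univ (fR n (Rz n R z) (oo n)) (Jn n n (g0 n))
        (Ph (wtm n M) x)).Nonempty :=
      ⟨κ, Finset.mem_filter.2 ⟨Finset.mem_range.2 hκ, he⟩⟩
    have hm := Finset.min'_mem _ hne
    have h0 : ((ht (wtm n M) univ (fR n (Rz n R z) (oo n)) (Jn n n (g0 n))
        (Ph (wtm n M) x)).filter fun κ' => κ' < Finset.min' _ hne).card = 0 := by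
      rw [Finset.card_eq_zero, Finset.filter_eq_empty_iff]
      intro a ha
      exact not_lt.2 (Finset.min'_le _ a ha)
    have hf := V1c_fv M (Rz n R z) (Ph (wtm n M) x) hm
    rw [h0] at hf
    have hlev : Ph (wtm n M) x ∈ lvl n := by
      refine GL.Ph_lvl hW ?_ hx
      intro v
      right; right; right
      simp [SB.bl]
    refine ⟨Ph (wtm n M) x, hlev, 0, by decide, ?_⟩
    have h1 := ball_self hn hM (V1c_xk _ _) hf
    have h2 := (Finset.mem_filter.1 hm).2
    rw [h2] at h1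
    exact h1
  · exact ⟨t, ht', _, hY, ball hn hM hx (V1c_xk _ _) (V1c_fv M (Rz n R z) t hκ) hd⟩

end Pool.Agent.MPa9445a.SX
end

section

/-! The candidates of a repetition: the list of the top level. -/

set_option autoImplicit false

open Finset
open scoped symmDiff

namespace Pool.Agent.MPa9445a.SX

open Pool.Agent.MPa9445a.BE
open Pool.Agent.MPa9445a.SN (ST Fm rs kb)
open Pool.Agent.MPa9445a.GL (Vc S Ph Lv Fr lvl LL lvv rk rc fR bl sv full xk YS Cpl cdv tl)
open Pool.Agent.MPa9445a.GS (oT oH Rz cct TB fof g0 dmL)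
open Pool.Agent.MPa9445a.SB (Rf Hm Om ht Jn df Wi Lev TOk oT)

variable {n : ℕ}

/-- The candidate with the index `0`. PROOF. The fields of `TOk`: `hN_eq`, `lgn_lg` (`Pr`), `par`, `exU_eq` (`hU`; the dimension is the same for `Rz` and `RT`: `HD`, `hR_RT`), `UT_spec`. -/
theorem cd0_opt {M R : List ℤ} {z : ℕ} {Go : Rf n} (h : HR n (wtm n M) (RT n M R z) Go)
    (hd : HD n (Rz n R z)) (PA PB : Lev) {b : ℕ} (ht : tok b n (Rz n R z)) {t : ℤ} {x : Vc n}
    (hT : TOk (wtm n M) Go (hR n (Rz n R z)) (phR n (Rz n R z)) PA PB (Ph (wtm n M) x) b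
      (omA n (Rz n R z)) t)
    (hx : x ∈ SB.oT (wtm n M) Go (hR n (Rz n R z)) (phR n (Rz n R z)) PA PB (Ph (wtm n M) x)
      (omA n (Rz n R z)) t) :
    Phi n M (vec n (cd0 PA PB b n M R z (Ph (wtm n M) x) t)) = Ph (wtm n M) x := by
  have e1 := hN_eq (n := n) (Q := univ) M (Rz n R z) (oo n) fv_full_bl (g0 n) t
  have e2 := exU_eq (n := n) (Q := univ) M hd (oo n) fv_full_bl (g0 n) t
  have h1 : 2 ^ (SB.c1 * GS.lgn n - 1) ≤ hN n M (Rz n R z) (oo n) (full n) (g0 n) t := by
    rw [e1, lgn_lg]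
    exact hT.pr
  have h2 : exL n M (Rz n R z) (oo n) (full n) (g0 n) t
      (dmL n (Rz n R z) (full n) + GS.Rc n) ≤ b := by
    rw [e2]
    exact hT.hU
  unfold cd0
  rw [if_pos ht, if_pos ⟨h1, hT.par, h2⟩]
  exact UT_spec h PA PB hT.cT hx

end Pool.Agent.MPa9445a.SX
end

section

/-! A good repetition has a candidate of maximum value. -/

set_option autoImplicit false

open Finset
open scoped symmDiff

namespace Pool.Agent.MPa9445a.SX

open Pool.Agent.MPa9445a.BE
open Pool.Agent.MPa9445a.SN (ST Fm rs kb)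
open Pool.Agent.MPa9445a.GL (Vc S Ph Lv Fr lvl LL lvv rk rc fR bl sv full xk YS Cpl cdv tl)
open Pool.Agent.MPa9445a.GS (oT oH Rz cct TB fof g0 dmL)
open Pool.Agent.MPa9445a.SB (Rf Hm Om ht Jn df Wi Lev TOk oT)

variable {n : ℕ}

private theorem V3a_idx {L Y N z p t y : ℕ} (hz : z < N) (hp : p < L) (ht : t < L) (hy : y < Y) :
    ((z * L + p) * L + t) * Y + y < N * L * L * Y ∧
    (((z * L + p) * L + t) * Y + y) % Y = y ∧
    (((z * L + p) * L + t) * Y + y) / Y % L = t ∧
    (((z * L + p) * L + t) * Y + y) / Y / L % L = p ∧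
    (((z * L + p) * L + t) * Y + y) / Y / L / L = z := by
  have hL : 0 < L := by omega
  have hY : 0 < Y := by omega
  have h1 : (((z * L + p) * L + t) * Y + y) / Y = (z * L + p) * L + t := by
    rw [Nat.add_div_of_dvd_right (Dvd.intro_left _ rfl), Nat.mul_div_cancel _ hY,
      Nat.div_eq_of_lt hy, add_zero]
  have h2 : ((z * L + p) * L + t) / L = z * L + p := by
    rw [Nat.add_div_of_dvd_right (Dvd.intro_left _ rfl), Nat.mul_div_cancel _ hL,
      Nat.div_eq_of_lt ht, add_zero]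
  have h3 : (z * L + p) / L = z := by
    rw [Nat.add_div_of_dvd_right (Dvd.intro_left _ rfl), Nat.mul_div_cancel _ hL,
      Nat.div_eq_of_lt hp, add_zero]
  refine ⟨?_, ?_, ?_, ?_, ?_⟩
  · have a1 : z * L + p < N * L := by
      calc z * L + p < z * L + L := by omega
        _ = (z + 1) * L := by ring
        _ ≤ N * L := Nat.mul_le_mul_right _ hz
    have a2 : (z * L + p) * L + t < N * L * L := by
      calc (z * L + p) * L + t < (z * L + p) * L + L := by omega
        _ = (z * L + p + 1) * L := by ring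
        _ ≤ N * L * L := Nat.mul_le_mul_right _ a1
    calc ((z * L + p) * L + t) * Y + y < ((z * L + p) * L + t) * Y + Y := by omega
      _ = ((z * L + p) * L + t + 1) * Y := by ring
      _ ≤ N * L * L * Y := Nat.mul_le_mul_right _ a2
  · rw [Nat.mul_add_mod', Nat.mod_eq_of_lt hy]
  · rw [h1, Nat.mul_add_mod', Nat.mod_eq_of_lt ht]
  · rw [h1, h2, Nat.mul_add_mod', Nat.mod_eq_of_lt hp]
  · rw [h1, h2, h3]

/-- A good repetition has a candidate of maximum value. PROOF. The three cases of `Win`: `cd1_opt` (index `y + 1`), `cd0_opt` (index `0`); the index is `((z * LL n + p') * LL n + t') * YB + y'` (`lvv_surj`, `Ph W x` is a level by `GL.Ph_lvl`). -/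
theorem cnd_win (hn : 0 < n) {M : List ℤ} (hM : ∀ z ∈ M, |z| ≤ 1) (hW : GL.Wb (wtm n M))
    {R : List ℤ} {z : ℕ} (hz : z < NR n) {Go : Rf n} (PA PB : Lev) {b : ℕ}
    (hd : HD n (Rz n R z)) (h : tok b n (Rz n R z) → HR n (wtm n M) (RT n M R z) Go)
    (ht : tok b n (Rz n R z)) {x : Vc n} (hx : x ∈ S (SB.bl univ))
    (hw : SB.Win (wtm n M) Go (hR n (Rz n R z)) (phR n (Rz n R z)) PA PB b
      (omA n (Rz n R z)) x) :
    ∃ i < NR n * LL n * LL n * YB, Ph (wtm n M) x ≤ Phi n M (vec n (cnd PA PB b n M R i)) := by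
  have hst : GL.St (SB.bl (univ : Finset (Fin n))) := by
    intro v
    unfold SB.bl
    split_ifs <;> simp
  have hl : Ph (wtm n M) x ∈ lvl n := GL.Ph_lvl hW hst hx
  obtain ⟨p', hp', hp⟩ := GL.lvv_surj hl
  have hcase : ∀ t ∈ lvl n, ∀ y < SB.Y0, Ph (wtm n M) x ≤ Phi n M (vec n (cd1 n M R z t y)) →
      ∃ i < NR n * LL n * LL n * YB, Ph (wtm n M) x ≤ Phi n M (vec n (cnd PA PB b n M R i)) := by
    intro t ht y hy hle
    obtain ⟨t', ht', htt⟩ := GL.lvv_surj ht
    have hyB : y + 1 < YB := by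
      unfold YB
      omega
    obtain ⟨e1, e2, e3, e4, e5⟩ := V3a_idx hz hp' ht' hyB
    refine ⟨_, e1, ?_⟩
    unfold cnd
    rw [e2, e3, e5, htt, if_neg (by omega), Nat.add_sub_cancel]
    exact hle
  rcases hw with h1 | ⟨t, htl, hT, hxo⟩ | ⟨t, htl, κ, hκ, h2, h3⟩
  · obtain ⟨t, ht, y, hy, hle⟩ := cd1_opt hn hM hW (R := R) (z := z) hx (Or.inl h1)
    exact hcase t ht y hy hle
  · obtain ⟨t', ht', htt⟩ := GL.lvv_surj htl
    have hyB : 0 < YB := by
      unfold YB
      omega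
    obtain ⟨e1, e2, e3, e4, e5⟩ := V3a_idx hz hp' ht' hyB
    refine ⟨_, e1, ?_⟩
    unfold cnd
    rw [e2, e3, e4, e5, htt, hp, if_pos rfl]
    exact (cd0_opt (h ht) hd PA PB ht hT hxo).ge
  · obtain ⟨t, ht, y, hy, hle⟩ := cd1_opt hn hM hW (R := R) (z := z) hx
      (Or.inr ⟨t, htl, κ, hκ, h2, h3⟩)
    exact hcase t ht y hy hle

end Pool.Agent.MPa9445a.SX
end
end
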