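import Pool.Agent.Lib.MP_a9445a_lc.Mg.G104
import Pool.Agent.Lib.MP_a9445a_lc.Mg.G023
import Pool.Agent.Lib.MP_a9445a_lc.Mg.G107
import Pool.Agent.Lib.MP_a9445a_lc.Mg.G106

section
/-! The step for the success probability. -/

set_option autoImplicit false
set_option synthInstance.maxSize 1000

open Finset

namespace Pool.Agent.MPa9445a.SB

open Pool.Agent.MPa9445a.SN (Fm rs kb)
open Pool.Agent.MPa9445a.GL (Vc S Ph Lv T Par lvl LL la2 fl Wb on off pl xk)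

/-- Counting by fibres: the bad triples are covered, for some `t`, by a bad pair or by a bad third coordinate. -/
private theorem F4b_main {α β γ : Type} [Fintype β] [Fintype γ] (K : Finset α) (L : Finset ℤ)
    (A : ℤ → α → β → Prop) (X : ℤ → α → β → γ → Prop) (a c : ℝ)
    (hA : ∀ t, ∃ SA : Finset (α × β), (∀ h ∈ K, ∀ ω, A t h ω → (h, ω) ∈ SA) ∧
      (SA.card : ℝ) ≤ a * (K.card * Fintype.card β))
    (hX : ∀ t h ω, ∃ SX : Finset γ, (∀ ω', X t h ω ω' → ω' ∈ SX) ∧ (SX.card : ℝ) ≤ c * Fintype.card γ)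
    (Sb : Finset (α × β × γ)) (hS : ∀ z ∈ Sb, z.1 ∈ K ∧ ∃ t ∈ L, A t z.1 z.2.1 ∨ X t z.1 z.2.1 z.2.2) :
    (Sb.card : ℝ) ≤ L.card * (a + c) * (K.card * Fintype.card (β × γ)) := by
  classical
  choose SA hA1 hA2 using hA
  choose SX hX1 hX2 using hX
  have hsub : Sb ⊆ L.biUnion fun t => (((SA t) ×ˢ (univ : Finset γ)).image fun y => (y.1.1, y.1.2, y.2)) ∪
      K.biUnion fun h => (univ : Finset β).biUnion fun ω => (SX t h ω).image fun ω' => (h, ω, ω') := by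
    intro z hz
    obtain ⟨h1, t, ht, h2⟩ := hS z hz
    refine Finset.mem_biUnion.2 ⟨t, ht, ?_⟩
    rcases h2 with h2 | h2
    · refine Finset.mem_union_left _ (Finset.mem_image.2 ⟨((z.1, z.2.1), z.2.2), ?_, rfl⟩)
      exact Finset.mem_product.2 ⟨hA1 t z.1 h1 z.2.1 h2, mem_univ _⟩
    · refine Finset.mem_union_right _ (Finset.mem_biUnion.2 ⟨z.1, h1, Finset.mem_biUnion.2 ⟨z.2.1, mem_univ _, ?_⟩⟩)
      exact Finset.mem_image.2 ⟨z.2.2, hX1 t z.1 z.2.1 z.2.2 h2, rfl⟩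
  have h3 := (Finset.card_le_card hsub).trans Finset.card_biUnion_le
  have h4 : (Sb.card : ℝ) ≤ ∑ t ∈ L, (a + c) * (K.card * Fintype.card (β × γ)) := by
    have h5 : (Sb.card : ℝ) ≤ ((∑ t ∈ L, ((((SA t) ×ˢ (univ : Finset γ)).image fun y => (y.1.1, y.1.2, y.2)) ∪
      K.biUnion fun h => (univ : Finset β).biUnion fun ω => (SX t h ω).image fun ω' => (h, ω, ω')).card : ℕ) : ℝ) :=
      Nat.cast_le.2 h3
    refine h5.trans ?_
    rw [Nat.cast_sum]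
    refine Finset.sum_le_sum fun t _ => ?_
    have h6 : ((((SA t) ×ˢ (univ : Finset γ)).image fun y => (y.1.1, y.1.2, y.2)).card : ℝ) ≤
        a * (K.card * Fintype.card (β × γ)) := by
      have h7 : (((SA t) ×ˢ (univ : Finset γ)).image fun y => (y.1.1, y.1.2, y.2)).card ≤ (SA t).card * Fintype.card γ := by
        refine Finset.card_image_le.trans (le_of_eq ?_)
        rw [Finset.card_product, Finset.card_univ]
      have h8 : ((((SA t) ×ˢ (univ : Finset γ)).image fun y => (y.1.1, y.1.2, y.2)).card : ℝ) ≤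
          ((SA t).card : ℝ) * (Fintype.card γ : ℝ) := by
        rw [← Nat.cast_mul]
        exact Nat.cast_le.2 h7
      refine h8.trans ((mul_le_mul_of_nonneg_right (hA2 t) (Nat.cast_nonneg _)).trans (le_of_eq ?_))
      rw [Fintype.card_prod, Nat.cast_mul]
      ring
    have h9 : ((K.biUnion fun h => (univ : Finset β).biUnion fun ω => (SX t h ω).image fun ω' => (h, ω, ω')).card : ℝ) ≤
        c * (K.card * Fintype.card (β × γ)) := by
      have g1 : (K.biUnion fun h => (univ : Finset β).biUnion fun ω => (SX t h ω).image fun ω' => (h, ω, ω')).card ≤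
          ∑ h ∈ K, ∑ ω : β, (SX t h ω).card := by
        refine Finset.card_biUnion_le.trans (Finset.sum_le_sum fun h _ => ?_)
        refine Finset.card_biUnion_le.trans (Finset.sum_le_sum fun ω _ => ?_)
        exact Finset.card_image_le
      have g2 : ((K.biUnion fun h => (univ : Finset β).biUnion fun ω => (SX t h ω).image fun ω' => (h, ω, ω')).card : ℝ) ≤
          ∑ h ∈ K, ∑ ω : β, ((SX t h ω).card : ℝ) := by
        have := (Nat.cast_le (α := ℝ)).2 g1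
        rw [Nat.cast_sum] at this
        refine this.trans (le_of_eq ?_)
        refine Finset.sum_congr rfl fun h _ => ?_
        rw [Nat.cast_sum]
      refine g2.trans ?_
      have g3 : ∑ h ∈ K, ∑ ω : β, ((SX t h ω).card : ℝ) ≤ ∑ h ∈ K, ∑ ω : β, c * Fintype.card γ :=
        Finset.sum_le_sum fun h _ => Finset.sum_le_sum fun ω _ => hX2 t h ω
      refine g3.trans (le_of_eq ?_)
      rw [Finset.sum_const, Finset.sum_const, Finset.card_univ, nsmul_eq_mul, nsmul_eq_mul, Fintype.card_prod, Nat.cast_mul]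
      ring
    have g4 := (Nat.cast_le (α := ℝ)).2 (Finset.card_union_le (((SA t) ×ˢ (univ : Finset γ)).image fun y => (y.1.1, y.1.2, y.2))
      (K.biUnion fun h => (univ : Finset β).biUnion fun ω => (SX t h ω).image fun ω' => (h, ω, ω')))
    rw [Nat.cast_add] at g4
    refine g4.trans ((add_le_add h6 h9).trans (le_of_eq ?_))
    ring
  refine h4.trans (le_of_eq ?_)
  rw [Finset.sum_const, nsmul_eq_mul]
  ring

private theorem F4b_cnt3 {A B C : Type} [Fintype A] [Fintype B] [Fintype C] (p : A → B → C → Prop) (c : ℝ)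
    (H : ∀ a x, ∃ T : Finset B, (∀ b, p a b x → b ∈ T) ∧ (T.card : ℝ) ≤ c * Fintype.card B) :
    ∃ T : Finset (A × B × C), (∀ r : A × B × C, p r.1 r.2.1 r.2.2 → r ∈ T) ∧
      (T.card : ℝ) ≤ c * Fintype.card (A × B × C) := by
  classical
  choose T hT1 hT2 using H
  refine ⟨(univ : Finset A).biUnion fun a => (univ : Finset C).biUnion fun x => (T a x).image fun b => (a, b, x), ?_, ?_⟩
  · intro r hr
    refine Finset.mem_biUnion.2 ⟨r.1, mem_univ _, Finset.mem_biUnion.2 ⟨r.2.2, mem_univ _, ?_⟩⟩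
    exact Finset.mem_image.2 ⟨r.2.1, hT1 _ _ _ hr, rfl⟩
  · have g1 : ((univ : Finset A).biUnion fun a => (univ : Finset C).biUnion fun x => (T a x).image fun b => (a, b, x)).card ≤
        ∑ a : A, ∑ x : C, (T a x).card := by
      refine Finset.card_biUnion_le.trans (Finset.sum_le_sum fun h _ => ?_)
      refine Finset.card_biUnion_le.trans (Finset.sum_le_sum fun ω _ => ?_)
      exact Finset.card_image_le
    have g2 : (((univ : Finset A).biUnion fun a => (univ : Finset C).biUnion fun x =>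
        (T a x).image fun b => (a, b, x)).card : ℝ) ≤ ∑ a : A, ∑ x : C, ((T a x).card : ℝ) := by
      have := (Nat.cast_le (α := ℝ)).2 g1
      rw [Nat.cast_sum] at this
      refine this.trans (le_of_eq ?_)
      refine Finset.sum_congr rfl fun h _ => ?_
      rw [Nat.cast_sum]
    refine g2.trans ?_
    have g3 : ∑ a : A, ∑ x : C, ((T a x).card : ℝ) ≤ ∑ a : A, ∑ x : C, c * Fintype.card B :=
      Finset.sum_le_sum fun h _ => Finset.sum_le_sum fun ω _ => hT2 h ω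
    refine g3.trans (le_of_eq ?_)
    rw [Finset.sum_const, Finset.sum_const, Finset.card_univ, Finset.card_univ, nsmul_eq_mul, nsmul_eq_mul,
      Fintype.card_prod, Fintype.card_prod, Nat.cast_mul, Nat.cast_mul]
    ring

private theorem F4b_div (n k x y : ℕ) (h : x * (n + 2) ^ k ≤ y) : (x : ℝ) ≤ 1 / (n + 2 : ℝ) ^ k * y := by
  have h1 : ((x * (n + 2) ^ k : ℕ) : ℝ) ≤ (y : ℝ) := by exact_mod_cast h
  push_cast at h1
  have h2 : (0 : ℝ) < (n + 2 : ℝ) ^ k := by positivity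
  rw [one_div, inv_mul_eq_div, le_div_iff₀ h2]
  exact h1

private theorem F4b_num (n : ℕ) :
    (LL n : ℝ) * (1 / (n + 2 : ℝ) ^ 25 + n * (2 * (1 / (n + 2 : ℝ) ^ 25) + 1 / (n + 2 : ℝ) ^ 24)) ≤
      1 / (n + 2 : ℝ) ^ 15 := by
  have hLL : (LL n : ℝ) ≤ 2 * (n + 2 : ℝ) ^ 4 := by
    unfold LL
    push_cast
    have h0 : (0 : ℝ) ≤ n := Nat.cast_nonneg n
    have h1 : (n : ℝ) ^ 4 + 1 ≤ (n + 2 : ℝ) ^ 4 := by
      have e : (n + 2 : ℝ) ^ 4 = (n : ℝ) ^ 4 + 8 * (n : ℝ) ^ 3 + 24 * (n : ℝ) ^ 2 + 32 * n + 16 := by ring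
      rw [e]
      have := pow_nonneg h0 3
      have := pow_nonneg h0 2
      linarith
    linarith
  obtain ⟨x, hx⟩ : ∃ x : ℝ, x = (n + 2 : ℝ) := ⟨_, rfl⟩
  have hn : (n : ℝ) = x - 2 := by rw [hx]; ring
  have hx2 : 2 ≤ x := by
    rw [hx]
    have : (0 : ℝ) ≤ n := Nat.cast_nonneg n
    linarith
  rw [← hx] at hLL ⊢
  have hx0 : 0 < x := by linarith
  have e1 : 1 / x ^ 25 + n * (2 * (1 / x ^ 25) + 1 / x ^ 24) = (1 + n * (2 + x)) / x ^ 25 := by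
    have : 1 / x ^ 24 = x / x ^ 25 := by
      rw [div_eq_div_iff (by positivity) (by positivity)]
      ring
    rw [this]
    ring
  have e2 : (1 + n * (2 + x)) / x ^ 25 ≤ x ^ 2 / x ^ 25 := by
    refine div_le_div_of_nonneg_right ?_ (by positivity)
    rw [hn]
    nlinarith
  have e3 : x ^ 2 / x ^ 25 = 1 / x ^ 23 := by
    rw [div_eq_div_iff (by positivity) (by positivity)]
    ring
  rw [e1]
  calc (LL n : ℝ) * ((1 + n * (2 + x)) / x ^ 25) ≤ (2 * x ^ 4) * (1 / x ^ 23) := by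
        rw [← e3]
        refine mul_le_mul hLL e2 ?_ (by positivity)
        have : (0 : ℝ) ≤ n := Nat.cast_nonneg n
        positivity
    _ = 2 / x ^ 19 := by
        rw [mul_one_div, div_eq_div_iff (by positivity) (by positivity)]
        ring
    _ ≤ 1 / x ^ 15 := by
        rw [div_le_div_iff₀ (by positivity) (by positivity)]
        have h4 : (2 : ℝ) ^ 4 ≤ x ^ 4 := pow_le_pow_left₀ (by norm_num) hx2 4
        have h5 : 0 < x ^ 15 := by positivity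
        have e5 : x ^ 19 = x ^ 4 * x ^ 15 := by ring
        rw [e5, one_mul]
        exact mul_le_mul_of_nonneg_right (by linarith) h5.le

/-- The step. PROOF. By `Fd_nd` a failure implies for some `t ∈ lvl n`: `2 ^ g ≤ 4 * #Lv`, `#Lv ≤ n ^ 2 * #(window)` and not `GU` (`modeU_good`: at most `8 ε + 1 / (n + 2) ^ 25` of the `(h, ω')`); or for some round `z`: `Pr` and not `Up` (`up_est`); or `Pr`, `Up`, `#Lv ≤ n ^ 2 * #(window)`, `GU` and `u ∉ oR` of the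
mode U (`modeU_hit`, for all `ωY`, `ωB`); or `Pr`, `Up`, `n ^ 2 * #(window) ≤ #Lv` and `u ∉ oR` of the mode B for the `w` of `modeB_find` (`oA` contains both). `some_round`; sum over the `LL n` levels:
`LL (8 ε + (n + 2)⁻²⁵) + n LL (2 (n + 2)⁻²⁵ + (n + 2)⁻²⁴) ≤ 8 LL ε + (n + 2)⁻¹⁵`. -/
theorem step6 {P : Lev} {d th : ℕ} (hP : PK P d th) (hM : MB P) (hd : 0 < d) (hd' : d ≤ 5000) :
    ∃ n₀, ∀ n ≥ n₀, ∀ (W : Matrix (Fin n) (Fin n) ℤ) (Go : Rf n), Wb W → GO W Go →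
    ∀ (R : ℕ) (Ω : Type) [Fintype Ω] (E : Hm n R → Ω → ℕ → Rf n), (∀ h ω m, Gd W (E h ω m)) →
    ∀ φ : Hm n R → Finset (Fin n) → Finset (Fin n) → Finset (Fin n),
    (∀ h Q, Fib (φ h Q) (Cc h Q)) → ∀ (Q : Finset (Fin n)) (ε : ℝ), 0 ≤ ε →
    (∀ X ⊆ Q, Wi P.d Q.card X.card → Mis W (fun h ω => E h ω Q.card) X ε) →
    ∀ (g : ℕ → ℕ) (c : ℕ → ℝ) (A : ℝ), NumU n R P.d Q.card (g Q.card) c A →
    Mis W (fun h (ω : Ω × Sr n) => nd W Go h (φ h) P (E h ω.1) g ω.2) Q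
      (8 * LL n * ε + 1 / (n + 2 : ℝ) ^ 15) := by
  classical
  obtain ⟨n₀, hn₀⟩ := modeB_find hP hM hd hd'
  refine ⟨n₀, ?_⟩
  intro n hn W Go hW hG R Ω _ E hE φ hφ Q ε hε hch g c A hN 𝓔 hQ u hu
  have hne : Q.Nonempty := Finset.card_pos.1 hN.s0
  have hR : R ≤ g Q.card := by
    have h1 : 2 ^ R ≤ 2 ^ g Q.card := by
      refine le_trans ?_ hN.h2
      exact Nat.le_mul_of_pos_right _ (by positivity)
    exact (Nat.pow_le_pow_iff_right (by norm_num)).1 h1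
  have hPd : 0 < P.d := by rw [hP.d]; exact hd
  have hPd' : P.d ≤ 5000 := by rw [hP.d]; exact hd'
  have hgs := hN.gs
  have hkbJ := hN.kbJ
  have hkbD := hN.kbD
  have hh2 := hN.h2
  clear hN
  obtain ⟨win, hwin⟩ : ∃ win : ℤ → Prop, ∀ t, win t ↔ (Lv W (bl Q) t).card ≤
      n ^ 2 * ((Lv W (bl Q) t).filter fun z => Wi P.d Q.card (df u z).card).card := ⟨_, fun t => Iff.rfl⟩
  obtain ⟨GUp, hGUp⟩ : ∃ GUp : ℤ → Hm n R → Ω → Prop, ∀ t h ω, GUp t h ω ↔ GU W P.d (E h ω Q.card) h Q u t :=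
    ⟨_, fun t h ω => Iff.rfl⟩
  obtain ⟨nU, hnU⟩ : ∃ nU : ℤ → Hm n R → Ω → Rr n → Prop, ∀ t h ω r, nU t h ω r ↔
      u ∉ oR W (Wn P.d Q.card (E h ω Q.card)) Q (dU (φ h) Q r) (2 ^ eU W h Q (g Q.card) r t)
        ((Ph W u + t) / 2) (Ph W u) := ⟨_, fun t h ω r => Iff.rfl⟩
  obtain ⟨nB, hnB⟩ : ∃ nB : ℤ → Rr n → Prop, ∀ t r, nB t r ↔ ∀ w : Pl n P.l,
      u ∉ oR W (Ew W Go P Q (g Q.card) r t w) Q (dB' Q r) (2 ^ eB W Q (g Q.card) r t) ((Ph W u + t) / 2) (Ph W u) :=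
    ⟨_, fun t r => Iff.rfl⟩
  have b1 : ∀ t, ∃ T : Finset (Rr n), (∀ r, Pr W Q (g Q.card) r t ∧ ¬ Up W Q (g Q.card) r.1 t → r ∈ T) ∧
      (T.card : ℝ) ≤ 1 / (n + 2 : ℝ) ^ 25 * Fintype.card (Rr n) := by
    intro t
    have h1 := F4b_div n 25 _ _ (up_est W hgs hkbJ t)
    refine ⟨(univ.filter fun ω : Fm n => 2 ^ (c1 * lg n - 1) ≤ (ht W Q ω (Jn n Q.card (g Q.card)) t).card ∧
          ¬ Up W Q (g Q.card) ω t) ×ˢ (univ : Finset (Fm n × Fm n)), ?_, ?_⟩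
    · intro r hr
      exact Finset.mem_product.2 ⟨Finset.mem_filter.2 ⟨mem_univ _, hr.1, hr.2⟩, mem_univ _⟩
    · rw [Finset.card_product, Finset.card_univ, Nat.cast_mul]
      refine (mul_le_mul_of_nonneg_right h1 (Nat.cast_nonneg _)).trans (le_of_eq ?_)
      have h5 : Fintype.card (Rr n) = Fintype.card (Fm n) * Fintype.card (Fm n × Fm n) := Fintype.card_prod _ _
      rw [h5, Nat.cast_mul]
      ring
  have b2 : ∀ t h ω, ∃ T : Finset (Rr n), (∀ r, (win t ∧ GUp t h ω) ∧ Pr W Q (g Q.card) r t ∧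
      Up W Q (g Q.card) r.1 t ∧ nU t h ω r → r ∈ T) ∧ (T.card : ℝ) ≤ 1 / (n + 2 : ℝ) ^ 25 * Fintype.card (Rr n) := by
    intro t h ω
    refine F4b_cnt3 (A := Fm n) (B := Fm n) (C := Fm n) (fun a b x => (win t ∧ GUp t h ω) ∧ Pr W Q (g Q.card) (a, b, x) t ∧
      Up W Q (g Q.card) a t ∧ nU t h ω (a, b, x)) _ ?_
    intro ωY ωB
    by_cases hc : (win t ∧ GUp t h ω) ∧ Pr W Q (g Q.card) (ωY, ωY, ωB) t ∧ Up W Q (g Q.card) ωY t
    · obtain ⟨⟨hw, hGU⟩, hpr, hup⟩ := hc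
      have h1 := F4b_div n 25 _ _ (modeU_hit hW (E := E h ω) (hE h ω) (h := h) (φ := φ h) (hφ h Q) (P := P) hPd hPd' hne hu
        (t := t) (g := g Q.card) hgs hR hkbD ((hwin t).1 hw) ((hGUp t h ω).1 hGU) (ωY := ωY) hpr hup ωB)
      refine ⟨_, ?_, h1⟩
      intro b hb
      exact Finset.mem_filter.2 ⟨mem_univ _, (hnU t h ω _).1 hb.2.2.2⟩
    · refine ⟨∅, ?_, ?_⟩
      · intro b hb
        exact absurd ⟨hb.1, hb.2.1, hb.2.2.1⟩ hc
      · rw [Finset.card_empty, Nat.cast_zero]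
        positivity
  have b3 : ∀ t, ∃ T : Finset (Rr n), (∀ r, ¬ win t ∧ Pr W Q (g Q.card) r t ∧ Up W Q (g Q.card) r.1 t ∧ nB t r → r ∈ T) ∧
      (T.card : ℝ) ≤ 1 / (n + 2 : ℝ) ^ 24 * Fintype.card (Rr n) := by
    intro t
    by_cases hw : win t
    · refine ⟨∅, ?_, ?_⟩
      · intro b hb
        exact absurd hw hb.1
      · rw [Finset.card_empty, Nat.cast_zero]
        positivity
    · have hw' := not_le.1 (fun h' => hw ((hwin t).2 h'))
      obtain ⟨w, h1⟩ := hn₀ n hn W Go hW hG Q hne u hu t (g Q.card) hgs hkbJ hkbD hw'.le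
      refine ⟨_, ?_, F4b_div n 24 _ _ h1⟩
      intro r hr
      exact Finset.mem_filter.2 ⟨mem_univ _, hr.2.1, hr.2.2.1, (hnB t r).1 hr.2.2.2 w⟩
  obtain ⟨X, hX⟩ : ∃ X : ℤ → Hm n R → Ω → Rr n → Prop, ∀ t h ω r, X t h ω r ↔
      (Pr W Q (g Q.card) r t ∧ ¬ Up W Q (g Q.card) r.1 t) ∨
      ((win t ∧ GUp t h ω) ∧ Pr W Q (g Q.card) r t ∧ Up W Q (g Q.card) r.1 t ∧ nU t h ω r) ∨
      (¬ win t ∧ Pr W Q (g Q.card) r t ∧ Up W Q (g Q.card) r.1 t ∧ nB t r) := ⟨_, fun t h ω r => Iff.rfl⟩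
  obtain ⟨e, he⟩ : ∃ e : ℝ, e = 2 * (1 / (n + 2 : ℝ) ^ 25) + 1 / (n + 2 : ℝ) ^ 24 := ⟨_, rfl⟩
  have b4 : ∀ t h ω, ∃ T : Finset (Sr n), (∀ ω', (∃ z, X t h ω (ω' z)) → ω' ∈ T) ∧
      (T.card : ℝ) ≤ n * e * Fintype.card (Sr n) := by
    intro t h ω
    obtain ⟨T1, g1, g2⟩ := b1 t
    obtain ⟨T2, g3, g4⟩ := b2 t h ω
    obtain ⟨T3, g5, g6⟩ := b3 t
    refine ⟨_, ?_, some_round (fun r => X t h ω r) (ε := e) ?_⟩
    · intro ω' hω
      exact Finset.mem_filter.2 ⟨mem_univ _, hω⟩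
    · have h2 : (univ.filter fun r : Rr n => X t h ω r) ⊆ T1 ∪ (T2 ∪ T3) := by
        intro r hr
        have h3 := (hX t h ω r).1 (Finset.mem_filter.1 hr).2
        rcases h3 with h3 | h3 | h3
        · exact Finset.mem_union_left _ (g1 r h3)
        · exact Finset.mem_union_right _ (Finset.mem_union_left _ (g3 r h3))
        · exact Finset.mem_union_right _ (Finset.mem_union_right _ (g5 r h3))
      have h5 : (univ.filter fun r : Rr n => X t h ω r).card ≤ T1.card + (T2.card + T3.card) := by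
        refine (Finset.card_le_card h2).trans ((Finset.card_union_le _ _).trans ?_)
        exact Nat.add_le_add_left (Finset.card_union_le _ _) _
      have h6 := (Nat.cast_le (α := ℝ)).2 h5
      rw [Nat.cast_add, Nat.cast_add] at h6
      refine h6.trans ?_
      rw [he]
      have h8 : (2 * (1 / (n + 2 : ℝ) ^ 25) + 1 / (n + 2 : ℝ) ^ 24) * (Fintype.card (Rr n) : ℝ) =
          1 / (n + 2 : ℝ) ^ 25 * (Fintype.card (Rr n) : ℝ) + (1 / (n + 2 : ℝ) ^ 25 * (Fintype.card (Rr n) : ℝ) +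
            1 / (n + 2 : ℝ) ^ 24 * (Fintype.card (Rr n) : ℝ)) := by ring
      rw [h8]
      exact add_le_add g2 (add_le_add g4 g6)
  have b6 : ∀ t, ∃ T : Finset (Hm n R × Ω), (∀ h ∈ KH R 𝓔, ∀ ω, ((win t ∧ 2 ^ g Q.card ≤ 4 * (Lv W (bl Q) t).card) ∧
      ¬ GUp t h ω) → (h, ω) ∈ T) ∧ (T.card : ℝ) ≤ (8 * ε + 1 / (n + 2 : ℝ) ^ 25) * ((KH R 𝓔).card * Fintype.card Ω) := by
    intro t
    have h0 : 0 ≤ 8 * ε + 1 / (n + 2 : ℝ) ^ 25 := by positivity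
    by_cases hw : win t ∧ 2 ^ g Q.card ≤ 4 * (Lv W (bl Q) t).card
    · refine ⟨_, ?_, modeU_good (Ω := Ω) hW (E := fun h ω => E h ω Q.card) (d := P.d) hPd hPd' hQ hne hε hch hu (t := t)
        (g := g Q.card) hh2 hw.2 ((hwin t).1 hw.1)⟩
      intro h hh ω hx
      refine Finset.mem_filter.2 ⟨Finset.mem_product.2 ⟨hh, mem_univ _⟩, ?_⟩
      exact fun h' => hx.2 ((hGUp t h ω).2 h')
    · refine ⟨∅, ?_, ?_⟩
      · intro h _ ω hx
        exact absurd hx.1 hw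
      · rw [Finset.card_empty, Nat.cast_zero]
        positivity
  have hcard : ((lvl n).card : ℝ) = (LL n : ℝ) := by
    have h1 : (lvl n).card = LL n := by
      unfold lvl LL GL.Rb
      rw [Int.card_Icc]
      have h2 : (((n ^ 4 : ℕ) : ℤ) + 1 - -((n ^ 4 : ℕ) : ℤ)) = ((2 * n ^ 4 + 1 : ℕ) : ℤ) := by
        push_cast
        ring
      rw [h2, Int.toNat_natCast]
    rw [h1]
  have key := F4b_main (β := Ω) (γ := Sr n) (KH R 𝓔) (lvl n)
    (fun t h ω => (win t ∧ 2 ^ g Q.card ≤ 4 * (Lv W (bl Q) t).card) ∧ ¬ GUp t h ω)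
    (fun t h ω ω' => ∃ z, X t h ω (ω' z)) (8 * ε + 1 / (n + 2 : ℝ) ^ 25) (n * e) b6 b4
  have hfin : (LL n : ℝ) * ((8 * ε + 1 / (n + 2 : ℝ) ^ 25) + n * e) ≤ 8 * LL n * ε + 1 / (n + 2 : ℝ) ^ 15 := by
    have h1 := F4b_num n
    rw [← he] at h1
    have h3 : (LL n : ℝ) * ((8 * ε + 1 / (n + 2 : ℝ) ^ 25) + n * e) =
        8 * LL n * ε + LL n * (1 / (n + 2 : ℝ) ^ 25 + n * e) := by ring
    rw [h3]
    exact add_le_add le_rfl h1
  rw [hcard] at key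
  refine (key _ ?_).trans (mul_le_mul_of_nonneg_right hfin (by positivity))
  intro z hz
  have hz1 := (Finset.mem_filter.1 hz).1
  have hz2 := (Finset.mem_filter.1 hz).2
  refine ⟨(Finset.mem_product.1 hz1).1, ?_⟩
  by_contra hcon
  apply hz2
  refine Fd_nd hu ?_
  intro y t ht hpr
  by_contra hoA
  apply hcon
  refine ⟨t, ht, ?_⟩
  have hoU : nU t z.1 z.2.1 (z.2.2 y) := by
    rw [hnU]
    intro h1
    apply hoA
    unfold oA
    exact Finset.mem_union_left _ h1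
  have hoB : nB t (z.2.2 y) := by
    rw [hnB]
    intro w h1
    apply hoA
    unfold oA
    exact Finset.mem_union_right _ (Finset.mem_biUnion.2 ⟨w, mem_univ _, h1⟩)
  by_cases hup : Up W Q (g Q.card) (z.2.2 y).1 t
  · by_cases hw : win t
    · by_cases hGU : GUp t z.1 z.2.1
      · exact Or.inr ⟨y, (hX _ _ _ _).2 (Or.inr (Or.inl ⟨⟨hw, hGU⟩, hpr, hup, hoU⟩))⟩
      · exact Or.inl ⟨⟨hw, hup.1⟩, hGU⟩
    · exact Or.inr ⟨y, (hX _ _ _ _).2 (Or.inr (Or.inr ⟨hw, hpr, hup, hoB⟩))⟩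
  · exact Or.inr ⟨y, (hX _ _ _ _).2 (Or.inl ⟨hpr, hup⟩)⟩

end Pool.Agent.MPa9445a.SB
end

section

end

section

/-! The levels 2 and 1 find their targets. -/

set_option autoImplicit false
set_option synthInstance.maxSize 1000

open Finset

namespace Pool.Agent.MPa9445a.SB

open Pool.Agent.MPa9445a.SN (Fm rs kb)
open Pool.Agent.MPa9445a.GL (Vc S Ph Lv T Par lvl LL la2 fl Wb on off pl xk)

private theorem F5_unit {n R : ℕ} {W : Matrix (Fin n) (Fin n) ℤ} {Ω : Type} [Fintype Ω]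
    {E : Hm n R → Ω → Rf n} {X : Finset (Fin n)} {ε : ℝ}
    (H : Mis W (fun h (ω : Unit × Ω) => E h ω.2) X ε) : Mis W E X ε := by
  classical
  intro 𝓔 hc u hu
  have h := H 𝓔 hc u hu
  rw [Fintype.card_prod, Fintype.card_unit, one_mul] at h
  refine le_trans (le_of_eq ?_) h
  congr 1
  refine Finset.card_bij (fun (z : Hm n R × Ω) _ => ((z.1, ((), z.2)) : Hm n R × (Unit × Ω))) ?_ ?_ ?_
  · intro z hz
    rw [Finset.mem_filter, Finset.mem_product] at hz ⊢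
    exact ⟨⟨hz.1.1, Finset.mem_univ _⟩, hz.2⟩
  · intro a _ b _ hab
    have h1 := congrArg Prod.fst hab
    have h2 := congrArg (fun x => x.2.2) hab
    exact Prod.ext h1 h2
  · intro b hb
    rw [Finset.mem_filter, Finset.mem_product] at hb
    refine ⟨(b.1, b.2.2), ?_, ?_⟩
    · rw [Finset.mem_filter, Finset.mem_product]
      exact ⟨⟨hb.1.1, Finset.mem_univ _⟩, hb.2⟩
    · rfl

private theorem F5_mono {n R : ℕ} {W : Matrix (Fin n) (Fin n) ℤ} {Ω : Type} [Fintype Ω]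
    {E : Hm n R → Ω → Rf n} {X : Finset (Fin n)} {ε δ : ℝ} (hε : ε ≤ δ) (H : Mis W E X ε) :
    Mis W E X δ := by
  intro 𝓔 hc u hu
  refine le_trans (H 𝓔 hc u hu) (mul_le_mul_of_nonneg_right hε ?_)
  positivity

private theorem F5_num (n : ℕ) : 8 * (LL n : ℝ) * (1 / (n + 2 : ℝ) ^ 15) + 1 / (n + 2 : ℝ) ^ 15 ≤
    1 / (n + 2 : ℝ) ^ 8 := by
  have hL : (LL n : ℝ) = 2 * (n : ℝ) ^ 4 + 1 := by
    unfold LL
    push_cast
    ring
  rw [hL]
  have hn : (0 : ℝ) ≤ n := Nat.cast_nonneg n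
  have h1 : 8 * (2 * (n : ℝ) ^ 4 + 1) * (1 / (n + 2 : ℝ) ^ 15) + 1 / (n + 2 : ℝ) ^ 15 =
      (16 * (n : ℝ) ^ 4 + 9) / (n + 2 : ℝ) ^ 15 := by
    ring
  have h2 : 1 / (n + 2 : ℝ) ^ 8 = (n + 2 : ℝ) ^ 7 / (n + 2 : ℝ) ^ 15 := by
    have h3 : (n + 2 : ℝ) ^ 15 = (n + 2 : ℝ) ^ 7 * (n + 2 : ℝ) ^ 8 := by ring
    rw [h3]
    field_simp
  rw [h1, h2]
  refine div_le_div_of_nonneg_right ?_ (by positivity)
  have h4 : (n + 2 : ℝ) ^ 7 = (16 * (n : ℝ) ^ 4 + 9) + ((n : ℝ) ^ 7 + 14 * (n : ℝ) ^ 6 + 84 * (n : ℝ) ^ 5 +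
      264 * (n : ℝ) ^ 4 + 560 * (n : ℝ) ^ 3 + 672 * (n : ℝ) ^ 2 + 448 * n + 119) := by ring
  rw [h4]
  have h5 : (0 : ℝ) ≤ (n : ℝ) ^ 7 + 14 * (n : ℝ) ^ 6 + 84 * (n : ℝ) ^ 5 +
      264 * (n : ℝ) ^ 4 + 560 * (n : ℝ) ^ 3 + 672 * (n : ℝ) ^ 2 + 448 * n + 119 := by positivity
  linarith

/-- PROOF. `step6` with `Ω = Unit`, `ε = 0` (`Mis_Lf`, `Gd_Lf`), `num2U`. -/
theorem Mis_E2 (PB : Lev) (hP : PK PB 3550 1203715) (hM : MB PB) :
    ∃ n₀, ∀ n ≥ n₀, ∀ (W : Matrix (Fin n) (Fin n) ℤ) (Go : Rf n), Wb W → GO W Go →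
    ∀ φ : Hm n (Rc n) → Finset (Fin n) → Finset (Fin n) → Finset (Fin n),
    (∀ h Q, Fib (φ h Q) (Cc h Q)) → ∀ m, Wi 4999 n m → ∀ X : Finset (Fin n), Wi 4140 m X.card →
    Mis W (fun h (ω₂ : Sr n) => E2 W Go h (φ h) PB ω₂ m) X (1 / (n + 2 : ℝ) ^ 15) := by
  obtain ⟨n₀, h₀⟩ := step6 hP hM (by norm_num) (by norm_num)
  obtain ⟨n₁, h₁⟩ := num2U
  refine ⟨max n₀ n₁, ?_⟩
  intro n hn W Go hW hG φ hφ m hm X hX
  have hn0 : n₀ ≤ n := le_trans (le_max_left _ _) hn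
  have hn1 : n₁ ≤ n := le_trans (le_max_right _ _) hn
  have hnum : NumU n (Rc n) PB.d X.card (g2 n m X.card) (fun _ => 1) 1000 := by
    rw [hP.d]
    exact h₁ n hn1 m X.card hm hX
  have h := h₀ n hn0 W Go hW hG (Rc n) Unit (fun h _ _ => Lf W Go h) (fun h _ _ => Gd_Lf hG h) φ hφ X 0
    le_rfl (fun Y _ _ => Mis_Lf hW hG Y) (g2 n m) (fun _ => 1) 1000 hnum
  rw [mul_zero, zero_add] at h
  exact F5_unit (E := fun h (ω₂ : Sr n) => E2 W Go h (φ h) PB ω₂ m) h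

/-- PROOF. `step6` with `Ω = Sr n`, `ε = 1 / (n + 2) ^ 15` (`Mis_E2`, `Gd_E2`), `num1U`: `8 * LL n / (n + 2) ^ 15 + 1 / (n + 2) ^ 15 ≤ 1 / (n + 2) ^ 8`. -/
theorem Mis_E1 (PA PB : Lev) (hA : PK PA 4140 1330320) (hMA : MB PA) (hB : PK PB 3550 1203715)
    (hMB : MB PB) : ∃ n₀, ∀ n ≥ n₀, ∀ (W : Matrix (Fin n) (Fin n) ℤ) (Go : Rf n), Wb W → GO W Go →
    ∀ φ : Hm n (Rc n) → Finset (Fin n) → Finset (Fin n) → Finset (Fin n),
    (∀ h Q, Fib (φ h Q) (Cc h Q)) → ∀ Q : Finset (Fin n), Wi 4999 n Q.card →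
    Mis W (fun h (ω : Sr n × Sr n) => E1 W Go h (φ h) PA PB ω.1 ω.2) Q (1 / (n + 2 : ℝ) ^ 8) := by
  obtain ⟨n₀, h₀⟩ := step6 hA hMA (by norm_num) (by norm_num)
  obtain ⟨n₁, h₁⟩ := num1U
  obtain ⟨n₂, h₂⟩ := Mis_E2 PB hB hMB
  refine ⟨max n₀ (max n₁ n₂), ?_⟩
  intro n hn W Go hW hG φ hφ Q hQ
  have hn0 : n₀ ≤ n := le_trans (le_max_left _ _) hn
  have hn1 : n₁ ≤ n := le_trans (le_trans (le_max_left _ _) (le_max_right _ _)) hn
  have hn2 : n₂ ≤ n := le_trans (le_trans (le_max_right _ _) (le_max_right _ _)) hn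
  have hnum : NumU n (Rc n) PA.d Q.card (g1 n) (fun s => 2 ^ g2 n Q.card s) (1000 * (n + 1)) := by
    rw [hA.d]
    exact h₁ n hn1 Q.card hQ
  have h := h₀ n hn0 W Go hW hG (Rc n) (Sr n) (fun h ω m => E2 W Go h (φ h) PB ω m)
    (fun h ω m => Gd_E2 hG hφ PB h ω m) φ hφ Q (1 / (n + 2 : ℝ) ^ 15) (by positivity)
    (fun X _ hX => h₂ n hn2 W Go hW hG φ hφ Q.card hQ X (by rw [hA.d] at hX; exact hX))
    (fun _ => g1 n) (fun s => 2 ^ g2 n Q.card s) (1000 * (n + 1)) hnum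
  exact F5_mono (F5_num n) h

end Pool.Agent.MPa9445a.SB
end
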