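import Pool.Agent.Lib.MP_a9445a_lc.Mg.G108
import Pool.Agent.Lib.MP_a9445a_lc.Mg.G097
import Pool.Agent.Lib.MP_a9445a_lc.Mg.G100
import Pool.Agent.Lib.MP_a9445a_lc.Mg.G027
import Pool.Agent.Lib.MP_a9445a_lc.Mg.G149
import Pool.Agent.Lib.MP_a9445a_lc.Mg.G136

section

section
/-! The average costs of the levels 2 and 1, and of the root. -/

set_option autoImplicit false
set_option synthInstance.maxSize 1000

open Finset

namespace Pool.Agent.MPa9445a.SB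

open Pool.Agent.MPa9445a.SN (Fm rs kb)
open Pool.Agent.MPa9445a.GL (Vc S Ph Lv T Par lvl LL la2 fl Wb on off pl xk)

private theorem D7d_pl (n k : ℕ) : 1 ≤ pl n k := by
  induction k with
  | zero => exact le_refl 1
  | succ k ih =>
    change 1 ≤ 2 ^ 20 * (n + 2) ^ 60 * pl n k
    have : 0 < 2 ^ 20 * (n + 2) ^ 60 * pl n k := by positivity
    omega

private theorem D7d_LL (n : ℕ) : (1 : ℝ) ≤ (LL n : ℝ) := by
  have : 1 ≤ LL n := by
    unfold LL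
    omega
  exact_mod_cast this

private theorem D7d_Fc (n l : ℕ) (hn : 1 ≤ n) : 1 ≤ Fc n l := by
  unfold Fc
  have h1 : (1 : ℝ) ≤ n := by exact_mod_cast hn
  have h2 : (1 : ℝ) ≤ 2 ^ (c2 * lg n) := one_le_pow₀ (by norm_num)
  have h4 : (1 : ℝ) ≤ (LL n : ℝ) ^ 3 := one_le_pow₀ (D7d_LL n)
  have h5 : (1 : ℝ) ≤ (2 * n : ℝ) ^ l := one_le_pow₀ (by linarith)
  have h6 : (1 : ℝ) ≤ 10 ^ 5 := by norm_num
  exact one_le_mul_of_one_le_of_one_le (one_le_mul_of_one_le_of_one_le (one_le_mul_of_one_le_of_one_le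
    (one_le_mul_of_one_le_of_one_le h6 h1) h2) h4) h5

private theorem D7d_C1 (n l l' : ℕ) (hn : 1 ≤ n) : 1 ≤ C1 n l l' := by
  unfold C1 C2
  have h1 : (1 : ℝ) ≤ n := by exact_mod_cast hn
  have h2 : (1 : ℝ) ≤ (pl n 8 : ℝ) := by exact_mod_cast D7d_pl n 8
  have h3 := D7d_Fc n l hn
  have h4 := D7d_Fc n l' hn
  exact one_le_mul_of_one_le_of_one_le (one_le_mul_of_one_le_of_one_le h4 (by linarith))
    (one_le_mul_of_one_le_of_one_le (one_le_mul_of_one_le_of_one_le h3 (by norm_num)) (by linarith))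

/-- The arithmetic of the first part. -/
private theorem D7d_a1 {Sc N a L R s C S4 Tp Tt K G : ℝ} (hG : 1 ≤ G) (hN : G ≤ N) (ha : 0 ≤ a)
    (hL : 1 ≤ L) (hC : 1 ≤ C) (hK : 0 ≤ K) (hR : R ≤ G) (hs : s ≤ 1000 * G ^ 2)
    (h4 : S4 ≤ 1000 * G ^ 2) (hTp : Tp ≤ L * G) (hTt : Tt ≤ L * N) (h0p : 0 ≤ Tp)
    (h : Sc * N ≤ a * (L * (2 * R + s) + 12 * C * L * S4 + 6 * C * L * (Tp * Tt)) * K) :
    Sc ≤ a * (13008 * C * L ^ 3 * G) * K := by
  have hN0 : 0 < N := by linarith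
  have hG0 : 0 < G := by linarith
  have hC0 : 0 < C := by linarith
  have hL0 : 0 < L := by linarith
  have hGN : G ^ 2 ≤ G * N := by nlinarith
  have hL1 : L ≤ L ^ 3 := by
    calc L = L ^ 1 := by ring
      _ ≤ L ^ 3 := pow_le_pow_right₀ hL (by norm_num)
  have hLC : L ≤ C * L ^ 3 := by
    calc L ≤ L ^ 3 := hL1
      _ = 1 * L ^ 3 := by ring
      _ ≤ C * L ^ 3 := by
        apply mul_le_mul_of_nonneg_right hC
        positivity
  have hCL : C * L ≤ C * L ^ 3 := mul_le_mul_of_nonneg_left hL1 hC0.le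
  have e1 : L * (2 * R + s) ≤ C * L ^ 3 * (1002 * (G * N)) := by
    have : 2 * R + s ≤ 1002 * (G * N) := by nlinarith
    calc L * (2 * R + s) ≤ L * (1002 * (G * N)) := mul_le_mul_of_nonneg_left this hL0.le
      _ ≤ C * L ^ 3 * (1002 * (G * N)) := by
        apply mul_le_mul_of_nonneg_right hLC
        positivity
  have e2 : 12 * C * L * S4 ≤ 12000 * (C * L ^ 3) * (G * N) := by
    have h5 : S4 ≤ 1000 * (G * N) := by linarith
    calc 12 * C * L * S4 ≤ 12 * C * L * (1000 * (G * N)) := mul_le_mul_of_nonneg_left h5 (by positivity)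
      _ = 12000 * (G * N) * (C * L) := by ring
      _ ≤ 12000 * (G * N) * (C * L ^ 3) := by
        apply mul_le_mul_of_nonneg_left hCL
        positivity
      _ = 12000 * (C * L ^ 3) * (G * N) := by ring
  have e3 : 6 * C * L * (Tp * Tt) ≤ 6 * (C * L ^ 3) * (G * N) := by
    have h5 : Tp * Tt ≤ (L * G) * (L * N) := by
      calc Tp * Tt ≤ Tp * (L * N) := mul_le_mul_of_nonneg_left hTt h0p
        _ ≤ (L * G) * (L * N) := by
          apply mul_le_mul_of_nonneg_right hTp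
          positivity
    calc 6 * C * L * (Tp * Tt) ≤ 6 * C * L * ((L * G) * (L * N)) := mul_le_mul_of_nonneg_left h5 (by positivity)
      _ = 6 * (C * L ^ 3) * (G * N) := by ring
  have e4 : L * (2 * R + s) + 12 * C * L * S4 + 6 * C * L * (Tp * Tt) ≤ 13008 * C * L ^ 3 * G * N := by
    have : 13008 * C * L ^ 3 * G * N = C * L ^ 3 * (1002 * (G * N)) + 12000 * (C * L ^ 3) * (G * N) +
      6 * (C * L ^ 3) * (G * N) := by ring
    rw [this]
    linarith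
  have e5 : Sc * N ≤ (a * (13008 * C * L ^ 3 * G) * K) * N := by
    calc Sc * N ≤ a * (L * (2 * R + s) + 12 * C * L * S4 + 6 * C * L * (Tp * Tt)) * K := h
      _ ≤ a * (13008 * C * L ^ 3 * G * N) * K := by
        apply mul_le_mul_of_nonneg_right _ hK
        exact mul_le_mul_of_nonneg_left e4 ha
      _ = (a * (13008 * C * L ^ 3 * G) * K) * N := by ring
  exact le_of_mul_le_mul_right e5 hN0

/-- The arithmetic of the second part. -/
private theorem D7d_a2 {Se N a R s K G : ℝ} (hG : 1 ≤ G) (hN : G ≤ N) (ha : 0 ≤ a)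
    (hK : 0 ≤ K) (hR : R ≤ G) (hs : s ≤ 1000 * G ^ 2)
    (h : Se * N ≤ a * (2 * R + s) * K) : Se ≤ a * (1002 * G) * K := by
  have hN0 : 0 < N := by linarith
  have hG0 : 0 < G := by linarith
  have hGN : G ^ 2 ≤ G * N := by nlinarith
  have e1 : 2 * R + s ≤ 1002 * G * N := by nlinarith
  have e5 : Se * N ≤ (a * (1002 * G) * K) * N := by
    calc Se * N ≤ a * (2 * R + s) * K := h
      _ ≤ a * (1002 * G * N) * K := by
        apply mul_le_mul_of_nonneg_right _ hK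
        exact mul_le_mul_of_nonneg_left e1 ha
      _ = (a * (1002 * G) * K) * N := by ring
  exact le_of_mul_le_mul_right e5 hN0

/-- The average cost of the root. PROOF. `x` is a maximum with value `p`. `GL.T_small` (with `ε = 1`) gives `q₀` with `T W (bl univ) p q₀ ≤ #Lv + 1 ≤ 2 ^ g0`; `choice_bl` with `G = 2 ^ g0` (`num0U`) gives `r`, `t`; `par_of` with `Par` as `x ∈ Lv W (bl univ) p`.
`sum_cU` with `P0`, `E h ω = fun _ => E1 ..` (`Bnd_E1`, `Gd_E1`), `num0U`, `T p r * T t r ≤ LL ^ 2 * 2 ^ g0 * N`: at most `4 * 2 ^ (c2 lg) * 21 * 1000 * LL ^ 3 * C1 * 2 ^ g0` times the number of all `(h, ω, ωU)`. -/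
theorem root_cost : ∃ n₀, ∀ n ≥ n₀, ∀ (W : Matrix (Fin n) (Fin n) ℤ) (Go : Rf n), Wb W → GO W Go →
    ∀ φ : Hm n (Rc n) → Finset (Fin n) → Finset (Fin n) → Finset (Fin n),
    (∀ h Q, Fib (φ h Q) (Cc h Q)) → ∀ PA PB : Lev, PK PA 4140 1330320 → PK PB 3550 1203715 →
    ∀ x ∈ S (bl (univ : Finset (Fin n))), (∀ y ∈ S (bl (univ : Finset (Fin n))), Ph W y ≤ Ph W x) →
    (Lv W (bl univ) (Ph W x)).card < 2 ^ g0 n →
    ∃ t ∈ lvl n, (Ph W x + t) % 2 = 0 ∧ 2 ^ g0 n ≤ (Lv W (bl univ) t).card ∧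
      ∀ ωY ωB : Fm n, Hf W univ (g0 n) ωY t →
        ∑ h ∈ KH (Rc n) {univ}, ∑ ω : Sr n × Sr n, ∑ ωU : Fm n,
          ((cT W Go h (φ h) PA PB (Ph W x) (ω.1, ω.2, (ωY, ωU, ωB)) t : ℝ) +
            2 ^ eU W h univ (g0 n) (ωY, ωU, ωB) t) ≤
          10 ^ 5 * 2 ^ (c2 * lg n) * (LL n : ℝ) ^ 3 * C1 n PB.l PA.l * 2 ^ g0 n *
            ((KH (Rc n) ({univ} : Finset (Finset (Fin n)))).card *
              (Fintype.card (Sr n × Sr n) * Fintype.card (Fm n))) := by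
  obtain ⟨n₁, h₁⟩ := Bnd_E1
  obtain ⟨n₂, h₂⟩ := num0U
  refine ⟨max (max n₁ n₂) 1, ?_⟩
  intro n hn W Go hW hG φ hφ PA PB hPA hPB x hx hmax hcard
  have hn1 : n ≥ n₁ := le_trans (le_trans (le_max_left _ _) (le_max_left _ _)) hn
  have hn2 : n ≥ n₂ := le_trans (le_trans (le_max_right _ _) (le_max_left _ _)) hn
  have hn3 : 1 ≤ n := le_trans (le_max_right _ _) hn
  have hU := h₂ n hn2
  obtain ⟨q₀, hq₀, hT₀⟩ := GL.T_small W (s := bl (univ : Finset (Fin n))) (p := Ph W x) hmax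
    (ε := 1) one_pos
  have hcu : (univ : Finset (Fin n)).card = n := by simp
  have hG1 : (1 : ℝ) ≤ 2 ^ g0 n := one_le_pow₀ (by norm_num)
  have hT₀' : T W (bl univ) (Ph W x) q₀ ≤ 2 ^ g0 n := by
    have : (Lv W (bl univ) (Ph W x)).card + 1 ≤ 2 ^ g0 n := hcard
    have h3 : (((Lv W (bl univ) (Ph W x)).card : ℝ) + 1) ≤ 2 ^ g0 n := by exact_mod_cast this
    linarith
  obtain ⟨r, t, hr, ht, hN, hT1, hT2⟩ := choice_bl hW (Q := (univ : Finset (Fin n)))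
    (G := 2 ^ g0 n) hG1 (by rw [hcu]; exact hU.h1) (Ph W x) hq₀
  rw [max_eq_left hT₀'] at hT2
  have hNn : 2 ^ g0 n ≤ (Lv W (bl univ) t).card := by exact_mod_cast hN
  have hNpos : 0 < (Lv W (bl univ) t).card := lt_of_lt_of_le (by positivity) hNn
  have hPar : Par W (bl (univ : Finset (Fin n))) (Ph W x) := by
    by_contra hc
    have he := GL.not_Par W hc
    have hm : x ∈ Lv W (bl univ) (Ph W x) := by
      unfold Lv
      exact mem_filter.mpr ⟨hx, rfl⟩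
    rw [he] at hm
    exact absurd hm (notMem_empty x)
  have hpar : (Ph W x + t) % 2 = 0 := par_of hPar (card_pos.mp hNpos)
  refine ⟨t, ht, hpar, hNn, ?_⟩
  intro ωY ωB hf
  have hne : (univ : Finset (Fin n)).Nonempty := ⟨⟨0, hn3⟩, mem_univ _⟩
  have hR : (2 : ℝ) ^ Rc n ≤ 2 ^ g0 n := by
    have h3 := hU.h2
    have h4 : 2 ^ Rc n ≤ 2 ^ Rc n * (n + 2) ^ 40 := Nat.le_mul_of_pos_right _ (by positivity)
    have h5 : 2 ^ Rc n ≤ 2 ^ g0 n := le_trans h4 h3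
    exact_mod_cast h5
  have hgs : g0 n ≤ (univ : Finset (Fin n)).card := by rw [hcu]; exact hU.gs
  have hCh : Ch ({univ} : Finset (Finset (Fin n))) univ := Ch_univ
  have hcU := sum_cU (W := W) (R := Rc n) (Ω := Sr n × Sr n)
    (E := fun h (ω : Sr n × Sr n) (_ : ℕ) => E1 W Go h (φ h) PA PB ω.1 ω.2)
    (fun h ω _ => Gd_E1 hG hφ PA PB h ω.1 ω.2) hφ (P := P0) (by unfold P0; norm_num)
    (by unfold P0; norm_num) hCh hne (D7d_C1 n PB.l PA.l hn3) (c := fun _ => (2 : ℝ) ^ g1 n)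
    (fun _ => one_le_pow₀ (by norm_num))
    (fun X _ hX => h₁ n hn1 W Go hW hG φ hφ PA PB hPA hPB X (by
      have : Wi 4999 (univ : Finset (Fin n)).card X.card := hX
      rwa [hcu] at this)) hgs hpar hNpos hr ωY ωB hf
  have hcE := sum_eU (W := W) hφ hCh hgs hNpos (ωY, ωY, ωB) hf
  rw [hcu] at hcU hcE
  have hs4 : (∑ s ∈ range (n + 1), if Wi P0.d n s then ((n.choose s : ℕ) : ℝ) * (2 : ℝ) ^ g1 n else 0) ≤
      1000 * (2 ^ g0 n) ^ 2 := hU.h4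
  have a1 := D7d_a1 hG1 hN (by positivity) (D7d_LL n) (D7d_C1 n PB.l PA.l hn3) (by positivity) hR hU.h3
    hs4 hT2 hT1 (GL.T_nonneg W _ _ hr) hcU
  have a2 := D7d_a2 hG1 hN (by positivity) (by positivity) hR hU.h3 hcE
  have hsplit : ∑ h ∈ KH (Rc n) {univ}, ∑ ω : Sr n × Sr n, ∑ ωU : Fm n,
          ((cT W Go h (φ h) PA PB (Ph W x) (ω.1, ω.2, (ωY, ωU, ωB)) t : ℝ) +
            2 ^ eU W h univ (g0 n) (ωY, ωU, ωB) t) =
      (∑ h ∈ KH (Rc n) {univ}, ∑ ω : Sr n × Sr n, ∑ ωU : Fm n,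
          (cU W h (φ h) P0 (fun _ => E1 W Go h (φ h) PA PB ω.1 ω.2) univ (g0 n) (Ph W x)
            (ωY, ωU, ωB) t : ℝ)) +
        (∑ h ∈ KH (Rc n) {univ}, (2 : ℝ) ^ eU W h univ (g0 n) (ωY, ωY, ωB) t) *
          (Fintype.card (Sr n × Sr n) * Fintype.card (Fm n)) := by
    rw [Finset.sum_mul, ← Finset.sum_add_distrib]
    refine Finset.sum_congr rfl fun h _ => ?_
    have e1 : ∀ (ω : Sr n × Sr n), ∑ ωU : Fm n,
          ((cT W Go h (φ h) PA PB (Ph W x) (ω.1, ω.2, (ωY, ωU, ωB)) t : ℝ) +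
            2 ^ eU W h univ (g0 n) (ωY, ωU, ωB) t) =
        (∑ ωU : Fm n, (cU W h (φ h) P0 (fun _ => E1 W Go h (φ h) PA PB ω.1 ω.2) univ (g0 n) (Ph W x)
            (ωY, ωU, ωB) t : ℝ)) +
          (Fintype.card (Fm n) : ℝ) * (2 : ℝ) ^ eU W h univ (g0 n) (ωY, ωY, ωB) t := by
      intro ω
      rw [Finset.sum_add_distrib]
      congr 1
      have : ∀ ωU : Fm n, (2 : ℝ) ^ eU W h univ (g0 n) (ωY, ωU, ωB) t =
          (2 : ℝ) ^ eU W h univ (g0 n) (ωY, ωY, ωB) t := fun _ => rfl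
      rw [Finset.sum_congr rfl fun ωU _ => this ωU, Finset.sum_const, nsmul_eq_mul, Finset.card_univ]
    rw [Finset.sum_congr rfl fun ω _ => e1 ω, Finset.sum_add_distrib]
    congr 1
    rw [Finset.sum_const, nsmul_eq_mul, Finset.card_univ]
    ring
  rw [hsplit]
  have hK0 : (0 : ℝ) ≤ (Fintype.card (Sr n × Sr n) * Fintype.card (Fm n) : ℝ) := by positivity
  have a3 := mul_le_mul_of_nonneg_right a2 hK0
  have hC := D7d_C1 n PB.l PA.l hn3
  have hL3 : (1 : ℝ) ≤ (LL n : ℝ) ^ 3 := one_le_pow₀ (D7d_LL n)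
  have hCL : (1 : ℝ) ≤ C1 n PB.l PA.l * (LL n : ℝ) ^ 3 := one_le_mul_of_one_le_of_one_le hC hL3
  set A : ℝ := 2 ^ (c2 * lg n) with hA
  set G : ℝ := 2 ^ g0 n with hGdef
  set K₁ : ℝ := ((KH (Rc n) ({univ} : Finset (Finset (Fin n)))).card : ℝ) with hK₁
  set K₂ : ℝ := (Fintype.card (Sr n × Sr n) : ℝ) with hK₂
  set K₃ : ℝ := (Fintype.card (Fm n) : ℝ) with hK₃
  set L : ℝ := (LL n : ℝ) with hLdef
  set C : ℝ := C1 n PB.l PA.l with hCdef
  have hA0 : 0 ≤ A := by positivity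
  have hG0 : 0 ≤ G := by positivity
  have hK10 : 0 ≤ K₁ := by positivity
  have hK20 : 0 ≤ K₂ := by positivity
  have hK30 : 0 ≤ K₃ := by positivity
  have b1 : 4 * A * (1002 * G) * K₁ * (K₂ * K₃) ≤ 4 * A * (1002 * G) * K₁ * (K₂ * K₃) * (C * L ^ 3) := by
    have : 0 ≤ 4 * A * (1002 * G) * K₁ * (K₂ * K₃) := by positivity
    nlinarith
  have b2 : 0 ≤ A * G * K₁ * (K₂ * K₃) * (C * L ^ 3) := by
    have : 0 ≤ A * G * K₁ * (K₂ * K₃) := by positivity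
    exact mul_nonneg this (by linarith)
  calc _ ≤ 4 * A * (13008 * C * L ^ 3 * G) * (K₁ * K₂ * K₃) + 4 * A * (1002 * G) * K₁ * (K₂ * K₃) :=
        add_le_add a1 a3
    _ ≤ 4 * A * (13008 * C * L ^ 3 * G) * (K₁ * K₂ * K₃) +
        4 * A * (1002 * G) * K₁ * (K₂ * K₃) * (C * L ^ 3) := by linarith
    _ = 56040 * (A * G * K₁ * (K₂ * K₃) * (C * L ^ 3)) := by ring
    _ ≤ 100000 * (A * G * K₁ * (K₂ * K₃) * (C * L ^ 3)) := by linarith
    _ = 10 ^ 5 * A * L ^ 3 * C * G * (K₁ * (K₂ * K₃)) := by ring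

end Pool.Agent.MPa9445a.SB
end

section

end

section

/-! The root: the budget. -/

set_option autoImplicit false
set_option synthInstance.maxSize 1000

open Finset

namespace Pool.Agent.MPa9445a.SB

open Pool.Agent.MPa9445a.SN (Fm rs kb)
open Pool.Agent.MPa9445a.GL (Vc S Ph Lv T Par lvl LL la2 xk vc pl fl Wb Fr)

private theorem R2a_pl (n : ℕ) : ∀ k : ℕ, pl n k = (2 ^ 20 * (n + 2) ^ 60) ^ k := by
  intro k
  induction k with
  | zero => simp [pl]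
  | succ k ih => rw [pl, ih, pow_succ]; ring

private theorem R2a_G (n : ℕ) : (n : ℝ) + 2 ≤ 2 ^ lg n := by
  have h : n + 2 ≤ 2 ^ Nat.clog 2 (n + 2) := Nat.le_pow_clog (by norm_num) _
  have h' : ((n + 2 : ℕ) : ℝ) ≤ ((2 ^ Nat.clog 2 (n + 2) : ℕ) : ℝ) := by exact_mod_cast h
  push_cast at h'
  exact h'

private theorem R2a_two {G : ℝ} (hG : 2 ≤ G) (k : ℕ) (x : ℝ) (hx : x ≤ 2 ^ k) : x ≤ G ^ k :=
  hx.trans (pow_le_pow_left₀ (by norm_num) hG k)

private theorem R2a_mul {x y G : ℝ} {a b : ℕ} (hx : x ≤ G ^ a) (hy : y ≤ G ^ b) (hy0 : 0 ≤ y) (hG : 0 ≤ G) :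
    x * y ≤ G ^ (a + b) := by
  rw [pow_add]
  exact mul_le_mul hx hy hy0 (pow_nonneg hG a)

private theorem R2a_LL {n : ℕ} {G : ℝ} (hn : (n : ℝ) + 2 ≤ G) (h2 : 2 ≤ G) : (LL n : ℝ) ≤ G ^ 5 := by
  have h0 : (0 : ℝ) ≤ n := Nat.cast_nonneg n
  have h1 : (LL n : ℝ) ≤ 2 * ((n : ℝ) + 2) ^ 4 := by
    have : LL n ≤ 2 * (n + 2) ^ 4 := by
      have h3 : n ^ 4 ≤ (n + 2) ^ 4 := Nat.pow_le_pow_left (by omega) 4
      have h4 : n ^ 4 + 1 ≤ (n + 2) ^ 4 := by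
        have : n ^ 4 < (n + 2) ^ 4 := Nat.pow_lt_pow_left (by omega) (by norm_num)
        omega
      unfold LL
      omega
    exact_mod_cast this
  have h5 : ((n : ℝ) + 2) ^ 4 ≤ G ^ 4 := pow_le_pow_left₀ (by positivity) hn 4
  calc (LL n : ℝ) ≤ 2 * ((n : ℝ) + 2) ^ 4 := h1
    _ ≤ G * G ^ 4 := mul_le_mul h2 h5 (by positivity) (by linarith)
    _ = G ^ 5 := by ring

private theorem R2a_Fc {n l : ℕ} {G : ℝ} (hn : (n : ℝ) + 2 ≤ G) (h2 : 2 ≤ G) (hg : G = 2 ^ lg n) :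
    Fc n l ≤ G ^ (17 + 1 + 30 + 5 * 3 + 2 * l) ∧ 0 ≤ Fc n l := by
  have h0 : (0 : ℝ) ≤ n := Nat.cast_nonneg n
  have hG0 : (0 : ℝ) ≤ G := by linarith
  have hL : (LL n : ℝ) ^ 3 ≤ G ^ (5 * 3) := by
    rw [pow_mul]
    exact pow_le_pow_left₀ (Nat.cast_nonneg _) (R2a_LL hn h2) 3
  have ha : (10 : ℝ) ^ 5 ≤ G ^ 17 := R2a_two h2 17 _ (by norm_num)
  have hb : (n : ℝ) ≤ G ^ 1 := by rw [pow_one]; linarith
  have hc : (2 : ℝ) ^ (c2 * lg n) ≤ G ^ 30 := by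
    rw [hg, ← pow_mul]
    have : c2 * lg n = lg n * 30 := by unfold c2; ring
    rw [this]
  have hd : (2 * (n : ℝ)) ^ l ≤ G ^ (2 * l) := by
    rw [pow_mul]
    refine pow_le_pow_left₀ (by positivity) ?_ l
    nlinarith
  refine ⟨?_, ?_⟩
  · unfold Fc
    exact R2a_mul (R2a_mul (R2a_mul (R2a_mul ha hb h0 hG0) hc (by positivity) hG0) hL (by positivity) hG0) hd
      (by positivity) hG0
  · unfold Fc
    positivity

private theorem R2a_pl8 {n : ℕ} {G : ℝ} (hn : (n : ℝ) + 2 ≤ G) (h2 : 2 ≤ G) (k : ℕ) :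
    (pl n k : ℝ) ≤ G ^ (80 * k) := by
  have hG0 : (0 : ℝ) ≤ G := by linarith
  rw [R2a_pl, pow_mul]
  have h3 : ((n : ℝ) + 2) ^ 60 ≤ G ^ 60 := pow_le_pow_left₀ (by positivity) hn 60
  have h4 : (2 : ℝ) ^ 20 ≤ G ^ 20 := pow_le_pow_left₀ (by norm_num) h2 20
  have h5 : ((2 : ℝ) ^ 20) * ((n : ℝ) + 2) ^ 60 ≤ G ^ 80 := by
    have h6 := R2a_mul (a := 20) (b := 60) h4 h3 (by positivity) hG0
    exact h6
  have h7 : (((2 ^ 20 * (n + 2) ^ 60) ^ k : ℕ) : ℝ) = (((2 : ℝ) ^ 20) * ((n : ℝ) + 2) ^ 60) ^ k := by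
    rw [Nat.cast_pow, Nat.cast_mul, Nat.cast_pow, Nat.cast_pow, Nat.cast_add]
    norm_num
  rw [h7]
  exact pow_le_pow_left₀ (by positivity) h5 k

private theorem R2a_C2 {F P G : ℝ} {a b : ℕ} (h2 : 2 ≤ G) (hF : F ≤ G ^ a) (hF0 : 0 ≤ F) (hP : P ≤ G ^ b)
    (hP0 : 0 ≤ P) : F * 1000 * (2 * P) ≤ G ^ (a + 10 + (1 + b)) ∧ 0 ≤ F * 1000 * (2 * P) := by
  have hG0 : (0 : ℝ) ≤ G := by linarith
  have h1000 : (1000 : ℝ) ≤ G ^ 10 := R2a_two h2 10 _ (by norm_num)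
  refine ⟨R2a_mul (R2a_mul hF h1000 (by norm_num) hG0) (R2a_mul (by rw [pow_one]; exact h2) hP hP0 hG0)
    (by positivity) hG0, by positivity⟩

private theorem R2a_C1 {F P G x : ℝ} {a b : ℕ} (h2 : 2 ≤ G) (hF : F ≤ G ^ a) (hF0 : 0 ≤ F) (hP : P ≤ G ^ b)
    (hP0 : 0 ≤ P) (hx : x ≤ G) (hx0 : 0 ≤ x) :
    F * (1000 * x) * P ≤ G ^ (a + (10 + 1) + b) ∧ 0 ≤ F * (1000 * x) * P := by
  have hG0 : (0 : ℝ) ≤ G := by linarith
  have h1000 : (1000 : ℝ) ≤ G ^ 10 := R2a_two h2 10 _ (by norm_num)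
  refine ⟨R2a_mul (R2a_mul hF (R2a_mul h1000 (by rw [pow_one]; exact hx) hx0 hG0) (by positivity) hG0) hP hP0 hG0,
    by positivity⟩

private theorem R2a_c2 {n l : ℕ} {G : ℝ} (hn : (n : ℝ) + 2 ≤ G) (h2 : 2 ≤ G) (hg : G = 2 ^ lg n) :
    C2 n l ≤ G ^ (17 + 1 + 30 + 5 * 3 + 2 * l + 10 + (1 + 80 * 8)) ∧ 0 ≤ C2 n l := by
  obtain ⟨hF, hF0⟩ := R2a_Fc (l := l) hn h2 hg
  unfold C2
  exact R2a_C2 h2 hF hF0 (R2a_pl8 hn h2 8) (Nat.cast_nonneg _)

private theorem R2a_c1 {n l l' : ℕ} {G : ℝ} (hn : (n : ℝ) + 2 ≤ G) (h2 : 2 ≤ G) (hg : G = 2 ^ lg n) :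
    C1 n l l' ≤ G ^ (17 + 1 + 30 + 5 * 3 + 2 * l' + (10 + 1) + (17 + 1 + 30 + 5 * 3 + 2 * l + 10 + (1 + 80 * 8))) ∧
      0 ≤ C1 n l l' := by
  obtain ⟨hF, hF0⟩ := R2a_Fc (l := l') hn h2 hg
  obtain ⟨hC, hC0⟩ := R2a_c2 (l := l) hn h2 hg
  unfold C1
  exact R2a_C1 h2 hF hF0 hC hC0 (by linarith) (by positivity)

/-- The polynomial factors of the root are at most `2 ^ (c * lg n)`. PROOF. `n + 2 ≤ 2 ^ lg n`, `1 ≤ lg n` (so a constant `2 ^ k` is at most `2 ^ (k * lg n)`); `LL n = 2 n ^ 4 + 1 ≤ 2 * (n + 2) ^ 4`, `(2 n) ^ l ≤ 2 ^ (2 l lg n)`, `pl n 8 = (2 ^ 20 * (n + 2) ^ 60) ^ 8`;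
unfold `C1`, `C2`, `Fc`. -/
theorem budget0 (l l' : ℕ) : ∃ c : ℕ, ∀ n : ℕ,
    16 * (10 ^ 5 * 2 ^ (c2 * lg n) * (LL n : ℝ) ^ 3 * C1 n l l') ≤ 2 ^ (c * lg n) := by
  refine ⟨4 + (17 + 30 + 5 * 3 + (17 + 1 + 30 + 5 * 3 + 2 * l' + (10 + 1) +
    (17 + 1 + 30 + 5 * 3 + 2 * l + 10 + (1 + 80 * 8)))), fun n => ?_⟩
  have hn : (n : ℝ) + 2 ≤ 2 ^ lg n := R2a_G n
  have h0 : (0 : ℝ) ≤ n := Nat.cast_nonneg n
  obtain ⟨G, hg⟩ : ∃ G : ℝ, G = 2 ^ lg n := ⟨_, rfl⟩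
  rw [← hg] at hn
  have h2 : 2 ≤ G := by linarith
  have hG0 : 0 ≤ G := by linarith
  have hL : (LL n : ℝ) ^ 3 ≤ G ^ (5 * 3) := by
    rw [pow_mul]
    exact pow_le_pow_left₀ (Nat.cast_nonneg _) (R2a_LL hn h2) 3
  have ha : (10 : ℝ) ^ 5 ≤ G ^ 17 := R2a_two h2 17 _ (by norm_num)
  have hc : (2 : ℝ) ^ (c2 * lg n) ≤ G ^ 30 := by
    rw [hg, ← pow_mul]
    have : c2 * lg n = lg n * 30 := by unfold c2; ring
    rw [this]
  obtain ⟨hC1, hC10⟩ := R2a_c1 (l := l) (l' := l') hn h2 hg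
  have h16 : (16 : ℝ) ≤ G ^ 4 := R2a_two h2 4 _ (by norm_num)
  have hfin := R2a_mul h16 (R2a_mul (R2a_mul (R2a_mul ha hc (by positivity) hG0) hL (by positivity) hG0) hC1 hC10 hG0)
    (by positivity) hG0
  refine hfin.trans (le_of_eq ?_)
  rw [hg, ← pow_mul, mul_comm]

end Pool.Agent.MPa9445a.SB
end

section

/-! The root: counting. -/

set_option autoImplicit false
set_option synthInstance.maxSize 1000

open Finset

namespace Pool.Agent.MPa9445a.SB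

open Pool.Agent.MPa9445a.SN (Fm rs kb)
open Pool.Agent.MPa9445a.GL (Vc S Ph Lv T Par lvl LL la2 xk vc pl fl Wb Fr)

variable {n R : ℕ}

/-- The sum over all bits as an iterated sum. -/
private theorem R2b_sum (f : Sr n × Sr n → Fm n → Fm n → Fm n → ℝ) :
    ∑ z : Om n, f (z.1, z.2.1) z.2.2.1 z.2.2.2.1 z.2.2.2.2 =
      ∑ ω : Sr n × Sr n, ∑ ωY : Fm n, ∑ ωU : Fm n, ∑ ωB : Fm n, f ω ωY ωU ωB := by
  rw [Fintype.sum_prod_type]
  rw [Fintype.sum_prod_type]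
  refine Finset.sum_congr rfl fun a _ => ?_
  rw [Fintype.sum_prod_type]
  refine Finset.sum_congr rfl fun b _ => ?_
  rw [Fintype.sum_prod_type]
  refine Finset.sum_congr rfl fun c _ => ?_
  rw [Fintype.sum_prod_type]

private theorem R2b_card : (Fintype.card (Om n) : ℝ) =
    (Fintype.card (Sr n × Sr n) : ℝ) * ((Fintype.card (Fm n) : ℝ) * ((Fintype.card (Fm n) : ℝ) * (Fintype.card (Fm n) : ℝ))) := by
  have h := R2b_sum (n := n) (fun _ _ _ _ => (1 : ℝ))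
  simpa [Finset.sum_const, Finset.card_univ] using h

open scoped Classical in
private theorem R2b_cf (H : Finset (Hm n R)) (Q : Hm n R → Sr n × Sr n → Fm n → Fm n → Fm n → Prop) :
    (((H ×ˢ (univ : Finset (Om n))).filter fun z =>
      Q z.1 (z.2.1, z.2.2.1) z.2.2.2.1 z.2.2.2.2.1 z.2.2.2.2.2).card : ℝ) =
      ∑ h₀ ∈ H, ∑ ω : Sr n × Sr n, ∑ ωY : Fm n, ∑ ωU : Fm n, ∑ ωB : Fm n,
        (if Q h₀ ω ωY ωU ωB then (1 : ℝ) else 0) := by
  rw [Finset.card_filter, Finset.sum_product]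
  push_cast
  refine Finset.sum_congr rfl fun h₀ _ => ?_
  exact R2b_sum (fun ω ωY ωU ωB => if Q h₀ ω ωY ωU ωB then (1 : ℝ) else 0)

open scoped Classical in
/-- An event of the code and of the levels 2 and 1. PROOF. `Finset.card_filter`, `Finset.sum_product`, `Fintype.sum_prod_type`: the sum over the bits of the root is a factor `#(Rr n)`. -/
theorem cntG (H : Finset (Hm n R)) (P : Hm n R → Sr n × Sr n → Prop) {δ : ℝ}
    (h : (((H ×ˢ (univ : Finset (Sr n × Sr n))).filter fun z => P z.1 z.2).card : ℝ) ≤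
      δ * (H.card * Fintype.card (Sr n × Sr n))) :
    (((H ×ˢ (univ : Finset (Om n))).filter fun z => P z.1 (z.2.1, z.2.2.1)).card : ℝ) ≤
      δ * (H.card * Fintype.card (Om n)) := by
  have e := R2b_cf H (fun h₀ ω _ _ _ => P h₀ ω)
  have e2 : (((H ×ˢ (univ : Finset (Sr n × Sr n))).filter fun z => P z.1 z.2).card : ℝ) =
      ∑ h₀ ∈ H, ∑ ω : Sr n × Sr n, (if P h₀ ω then (1 : ℝ) else 0) := by
    rw [Finset.card_filter, Finset.sum_product]
    push_cast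
    rfl
  rw [e2] at h
  refine le_of_eq_of_le e ?_
  simp only [Finset.sum_const, Finset.card_univ, nsmul_eq_mul]
  simp only [← Finset.mul_sum]
  rw [R2b_card]
  have h3 : (0 : ℝ) ≤ (Fintype.card (Fm n) : ℝ) * ((Fintype.card (Fm n) : ℝ) * (Fintype.card (Fm n) : ℝ)) := by positivity
  calc (Fintype.card (Fm n) : ℝ) * ((Fintype.card (Fm n) : ℝ) * ((Fintype.card (Fm n) : ℝ) *
        ∑ h₀ ∈ H, ∑ ω : Sr n × Sr n, (if P h₀ ω then (1 : ℝ) else 0)))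
      = ((Fintype.card (Fm n) : ℝ) * ((Fintype.card (Fm n) : ℝ) * (Fintype.card (Fm n) : ℝ))) *
        ∑ h₀ ∈ H, ∑ ω : Sr n × Sr n, (if P h₀ ω then (1 : ℝ) else 0) := by ring
    _ ≤ ((Fintype.card (Fm n) : ℝ) * ((Fintype.card (Fm n) : ℝ) * (Fintype.card (Fm n) : ℝ))) *
        (δ * (H.card * Fintype.card (Sr n × Sr n))) := mul_le_mul_of_nonneg_left h h3
    _ = _ := by ring

open scoped Classical in
/-- An event which is rare for all values of the other bits: only the bits of the sets of the mode U of the root are random. PROOF. As `cntG`; exchange the sums. -/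
theorem cntU (H : Finset (Hm n R)) (P : Hm n R → Sr n × Sr n → Fm n → Fm n → Fm n → Prop) {δ : ℝ}
    (h : ∀ h₀ ∈ H, ∀ ω ωY ωB, ((univ.filter fun ωU => P h₀ ω ωY ωU ωB).card : ℝ) ≤
      δ * Fintype.card (Fm n)) :
    (((H ×ˢ (univ : Finset (Om n))).filter fun z =>
      P z.1 (z.2.1, z.2.2.1) z.2.2.2.1 z.2.2.2.2.1 z.2.2.2.2.2).card : ℝ) ≤
      δ * (H.card * Fintype.card (Om n)) := by
  have e := R2b_cf H P
  refine le_of_eq_of_le e ?_
  rw [R2b_card]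
  have h1 : ∀ h₀ ∈ H, ∑ ω : Sr n × Sr n, ∑ ωY : Fm n, ∑ ωU : Fm n, ∑ ωB : Fm n,
      (if P h₀ ω ωY ωU ωB then (1 : ℝ) else 0) ≤
      (Fintype.card (Sr n × Sr n) : ℝ) * ((Fintype.card (Fm n) : ℝ) * ((Fintype.card (Fm n) : ℝ) *
        (δ * (Fintype.card (Fm n) : ℝ)))) := by
    intro h₀ hh
    have h2 : ∀ ω : Sr n × Sr n, ∀ ωY : Fm n, ∑ ωU : Fm n, ∑ ωB : Fm n,
        (if P h₀ ω ωY ωU ωB then (1 : ℝ) else 0) ≤ (Fintype.card (Fm n) : ℝ) * (δ * (Fintype.card (Fm n) : ℝ)) := by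
      intro ω ωY
      rw [Finset.sum_comm]
      calc ∑ ωB : Fm n, ∑ ωU : Fm n, (if P h₀ ω ωY ωU ωB then (1 : ℝ) else 0)
          ≤ ∑ _ωB : Fm n, δ * (Fintype.card (Fm n) : ℝ) := by
            refine Finset.sum_le_sum fun ωB _ => ?_
            have h3 := h h₀ hh ω ωY ωB
            rw [Finset.card_filter] at h3
            push_cast at h3
            exact h3
        _ = _ := by rw [Finset.sum_const, Finset.card_univ, nsmul_eq_mul]
    calc ∑ ω : Sr n × Sr n, ∑ ωY : Fm n, ∑ ωU : Fm n, ∑ ωB : Fm n,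
          (if P h₀ ω ωY ωU ωB then (1 : ℝ) else 0)
        ≤ ∑ _ω : Sr n × Sr n, ∑ _ωY : Fm n, (Fintype.card (Fm n) : ℝ) * (δ * (Fintype.card (Fm n) : ℝ)) :=
          Finset.sum_le_sum fun ω _ => Finset.sum_le_sum fun ωY _ => h2 ω ωY
      _ = _ := by
          rw [Finset.sum_const, Finset.sum_const, Finset.card_univ, Finset.card_univ, nsmul_eq_mul, nsmul_eq_mul]
  refine (Finset.sum_le_sum h1).trans (le_of_eq ?_)
  rw [Finset.sum_const, nsmul_eq_mul]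
  ring

/-- An event which is rare for all values of the bits `ωY`, `ωB`, by Markov's inequality. PROOF. For fixed `ωY`, `ωB` with `P` the number of the `(h, ω, ωU)` with `B < f` is, times `B`, at most `∑ f ≤ B / 16 * ..`. Sum over `ωY`, `ωB`; exchange the sums. -/
theorem cntC (H : Finset (Hm n R)) (P : Fm n → Prop) [DecidablePred P]
    (f : Hm n R → Sr n × Sr n → Fm n → Fm n → Fm n → ℝ)
    (h0 : ∀ h₀ ω ωY ωU ωB, 0 ≤ f h₀ ω ωY ωU ωB) {B : ℝ} (hB : 0 < B)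
    (h : ∀ ωY ωB, P ωY → ∑ h₀ ∈ H, ∑ ω : Sr n × Sr n, ∑ ωU : Fm n, f h₀ ω ωY ωU ωB ≤
      B / 16 * (H.card * (Fintype.card (Sr n × Sr n) * Fintype.card (Fm n)))) :
    (((H ×ˢ (univ : Finset (Om n))).filter fun z => P z.2.2.2.1 ∧
      B < f z.1 (z.2.1, z.2.2.1) z.2.2.2.1 z.2.2.2.2.1 z.2.2.2.2.2).card : ℝ) ≤
      1 / 16 * (H.card * Fintype.card (Om n)) := by
  classical
  have e := R2b_cf H (fun h₀ ω ωY ωU ωB => P ωY ∧ B < f h₀ ω ωY ωU ωB)
  have e' : (((H ×ˢ (univ : Finset (Om n))).filter fun z => P z.2.2.2.1 ∧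
      B < f z.1 (z.2.1, z.2.2.1) z.2.2.2.1 z.2.2.2.2.1 z.2.2.2.2.2).card : ℝ) =
      ∑ h₀ ∈ H, ∑ ω : Sr n × Sr n, ∑ ωY : Fm n, ∑ ωU : Fm n, ∑ ωB : Fm n,
        (if P ωY ∧ B < f h₀ ω ωY ωU ωB then (1 : ℝ) else 0) := by
    refine Eq.trans ?_ (e.trans ?_)
    · congr 2
      ext z
      simp only [Finset.mem_filter]
    · refine Finset.sum_congr rfl fun h₀ _ => Finset.sum_congr rfl fun ω _ => Finset.sum_congr rfl fun ωY _ =>
        Finset.sum_congr rfl fun ωU _ => Finset.sum_congr rfl fun ωB _ => ?_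
      by_cases hq : P ωY ∧ B < f h₀ ω ωY ωU ωB
      · rw [if_pos hq, if_pos hq]
      · rw [if_neg hq, if_neg hq]
  rw [e', R2b_card]
  have h1 : ∑ h₀ ∈ H, ∑ ω : Sr n × Sr n, ∑ ωY : Fm n, ∑ ωU : Fm n, ∑ ωB : Fm n,
      (if P ωY ∧ B < f h₀ ω ωY ωU ωB then (1 : ℝ) else 0) ≤
      ∑ h₀ ∈ H, ∑ ω : Sr n × Sr n, ∑ ωY : Fm n, ∑ ωB : Fm n, ∑ ωU : Fm n,
      (if P ωY then f h₀ ω ωY ωU ωB / B else 0) := by
    refine Finset.sum_le_sum fun h₀ _ => Finset.sum_le_sum fun ω _ => Finset.sum_le_sum fun ωY _ => ?_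
    rw [Finset.sum_comm]
    refine Finset.sum_le_sum fun ωB _ => Finset.sum_le_sum fun ωU _ => ?_
    by_cases hP : P ωY
    · by_cases hf : B < f h₀ ω ωY ωU ωB
      · rw [if_pos ⟨hP, hf⟩, if_pos hP, le_div_iff₀ hB, one_mul]
        exact hf.le
      · rw [if_neg (fun hh => hf hh.2), if_pos hP]
        exact div_nonneg (h0 _ _ _ _ _) hB.le
    · rw [if_neg (fun hh => hP hh.1), if_neg hP]
  refine h1.trans ?_
  -- exchange the sums
  have h2 : ∑ h₀ ∈ H, ∑ ω : Sr n × Sr n, ∑ ωY : Fm n, ∑ ωB : Fm n, ∑ ωU : Fm n,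
      (if P ωY then f h₀ ω ωY ωU ωB / B else 0) =
      ∑ ωY : Fm n, ∑ ωB : Fm n, ∑ h₀ ∈ H, ∑ ω : Sr n × Sr n, ∑ ωU : Fm n,
      (if P ωY then f h₀ ω ωY ωU ωB / B else 0) := by
    have a1 : ∀ h₀, ∑ ω : Sr n × Sr n, ∑ ωY : Fm n, ∑ ωB : Fm n, ∑ ωU : Fm n,
        (if P ωY then f h₀ ω ωY ωU ωB / B else 0) = ∑ ωY : Fm n, ∑ ωB : Fm n, ∑ ω : Sr n × Sr n, ∑ ωU : Fm n,
        (if P ωY then f h₀ ω ωY ωU ωB / B else 0) := by
      intro h₀
      rw [Finset.sum_comm]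
      refine Finset.sum_congr rfl fun ωY _ => ?_
      rw [Finset.sum_comm]
    rw [Finset.sum_congr rfl (fun h₀ _ => a1 h₀), Finset.sum_comm]
    refine Finset.sum_congr rfl fun ωY _ => ?_
    rw [Finset.sum_comm]
  rw [h2]
  have h3 : ∀ ωY ωB : Fm n, ∑ h₀ ∈ H, ∑ ω : Sr n × Sr n, ∑ ωU : Fm n,
      (if P ωY then f h₀ ω ωY ωU ωB / B else 0) ≤
      1 / 16 * (H.card * (Fintype.card (Sr n × Sr n) * Fintype.card (Fm n))) := by
    intro ωY ωB
    by_cases hP : P ωY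
    · simp only [if_pos hP]
      have h4 := h ωY ωB hP
      have h5 : ∑ h₀ ∈ H, ∑ ω : Sr n × Sr n, ∑ ωU : Fm n, f h₀ ω ωY ωU ωB / B =
          (∑ h₀ ∈ H, ∑ ω : Sr n × Sr n, ∑ ωU : Fm n, f h₀ ω ωY ωU ωB) / B := by
        simp only [Finset.sum_div]
      rw [h5, div_le_iff₀ hB]
      refine h4.trans (le_of_eq ?_)
      ring
    · simp only [if_neg hP, Finset.sum_const_zero]
      positivity
  calc ∑ ωY : Fm n, ∑ ωB : Fm n, ∑ h₀ ∈ H, ∑ ω : Sr n × Sr n, ∑ ωU : Fm n,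
        (if P ωY then f h₀ ω ωY ωU ωB / B else 0)
      ≤ ∑ _ωY : Fm n, ∑ _ωB : Fm n, 1 / 16 * (H.card * (Fintype.card (Sr n × Sr n) * Fintype.card (Fm n)) : ℝ) :=
        Finset.sum_le_sum fun ωY _ => Finset.sum_le_sum fun ωB _ => h3 ωY ωB
    _ = _ := by
        rw [Finset.sum_const, Finset.sum_const, Finset.card_univ, nsmul_eq_mul, nsmul_eq_mul]
        ring

end Pool.Agent.MPa9445a.SB
end
end

section

section

end

section

/-! The root: the balanced case. -/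

set_option autoImplicit false
set_option synthInstance.maxSize 1000

open Finset

namespace Pool.Agent.MPa9445a.SB

open Pool.Agent.MPa9445a.SN (Fm rs kb)
open Pool.Agent.MPa9445a.GL (Vc S Ph Lv T Par lvl LL la2 xk vc pl fl Wb Fr)

open scoped Classical in
/-- An event of the samples of the root. -/
private theorem sampP {n R : ℕ} (H : Finset (Hm n R)) (K : ℕ)
    (P : Fm n → Prop) (h0 : (univ.filter fun ω : Fm n => P ω).card * K ≤ Fintype.card (Fm n)) :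
    ((H ×ˢ (univ : Finset (Om n))).filter fun z => P z.2.2.2.1).card * K ≤
      H.card * Fintype.card (Om n) := by
  obtain ⟨Q, hQ⟩ : ∃ Q : Fm n → Prop, ∀ ω, Q ω ↔ ¬ P ω := ⟨_, fun _ => Iff.rfl⟩
  have h1 := samp H Q (k := K) (by
    refine le_trans (Nat.mul_le_mul_right _ (Finset.card_le_card ?_)) h0
    intro ω hω
    rw [Finset.mem_filter] at hω ⊢
    exact ⟨hω.1, not_not.1 fun h => hω.2 ((hQ ω).2 h)⟩)
  refine le_trans (Nat.mul_le_mul_right _ (Finset.card_le_card ?_)) h1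
  intro ω hω
  rw [Finset.mem_filter] at hω ⊢
  exact ⟨hω.1, fun h => (hQ _).1 h hω.2⟩

open scoped Classical in
/-- The real form. -/
private theorem sampR {n R : ℕ} (H : Finset (Hm n R)) (K : ℕ) (P : Fm n → Prop)
    (h0 : (univ.filter fun ω : Fm n => P ω).card * K ≤ Fintype.card (Fm n)) {δ : ℝ}
    (hδ : 1 ≤ δ * K) (hd : 0 ≤ δ) :
    (((H ×ˢ (univ : Finset (Om n))).filter fun z => P z.2.2.2.1).card : ℝ) ≤
      δ * (H.card * Fintype.card (Om n)) := by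
  have h1 := (Nat.cast_le (α := ℝ)).2 (sampP H K P h0)
  push_cast at h1
  have h2 : (0 : ℝ) ≤ (((H ×ˢ (univ : Finset (Om n))).filter fun z => P z.2.2.2.1).card : ℝ) :=
    Nat.cast_nonneg _
  calc (((H ×ˢ (univ : Finset (Om n))).filter fun z => P z.2.2.2.1).card : ℝ) ≤
      (((H ×ˢ (univ : Finset (Om n))).filter fun z => P z.2.2.2.1).card : ℝ) * (δ * K) :=
        le_mul_of_one_le_right h2 hδ
    _ = δ * ((((H ×ˢ (univ : Finset (Om n))).filter fun z => P z.2.2.2.1).card : ℝ) * K) := by ring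
    _ ≤ _ := mul_le_mul_of_nonneg_left h1 hd

open scoped Classical in
/-- Five events. -/
private theorem five {Z : Type} [DecidableEq Z] (X : Finset Z) (F : Z → Prop) [DecidablePred F]
    (A B C D E : Z → Prop) {M : ℝ}
    (hM : 0 ≤ M) (h : ∀ z ∈ X, F z → A z ∨ B z ∨ C z ∨ D z ∨ E z)
    (hA : ((X.filter fun z => A z).card : ℝ) ≤ 1 / 4 * M)
    (hB : ((X.filter fun z => B z).card : ℝ) ≤ 1 / 64 * M)
    (hC : ((X.filter fun z => C z).card : ℝ) ≤ 1 / 16 * M)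
    (hD : ((X.filter fun z => D z).card : ℝ) ≤ 1 / 64 * M)
    (hE : ((X.filter fun z => E z).card : ℝ) ≤ 1 / 64 * M) :
    ((X.filter fun z => F z).card : ℝ) ≤ 1 / 2 * M := by
  have hsub : (X.filter fun z => F z) ⊆ ((((X.filter fun z => A z) ∪ (X.filter fun z => B z)) ∪
      (X.filter fun z => C z)) ∪ (X.filter fun z => D z)) ∪ (X.filter fun z => E z) := by
    intro z hz
    rw [Finset.mem_filter] at hz
    simp only [Finset.mem_union, Finset.mem_filter]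
    rcases h z hz.1 hz.2 with h | h | h | h | h
    · exact Or.inl (Or.inl (Or.inl (Or.inl ⟨hz.1, h⟩)))
    · exact Or.inl (Or.inl (Or.inl (Or.inr ⟨hz.1, h⟩)))
    · exact Or.inl (Or.inl (Or.inr ⟨hz.1, h⟩))
    · exact Or.inl (Or.inr ⟨hz.1, h⟩)
    · exact Or.inr ⟨hz.1, h⟩
  have hcard := (Finset.card_le_card hsub).trans ((Finset.card_union_le _ _).trans
    (Nat.add_le_add_right ((Finset.card_union_le _ _).trans
    (Nat.add_le_add_right ((Finset.card_union_le _ _).trans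
    (Nat.add_le_add_right (Finset.card_union_le _ _) _)) _)) _))
  have hcard' := (Nat.cast_le (α := ℝ)).2 hcard
  push_cast at hcard'
  linarith

open scoped Classical in
/-- The target is found with probability at least one half if it is balanced with respect to the level `t` of `root_cost`. PROOF. Let `p = Ph W x`, `E h ω = E1 W Go h (φ h) PA PB ω.1 ω.2`, `b = g0 n + c * lg n` (`c` from `budget0`). If `TOk` or `x ∈ oT` is not true then one of the following is true: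
(A) `¬ Hf W univ (g0 n) ωY t` (`half_est`, `samp`: at most 1/4 of all);
(B) `2 ^ (c1 * lg n - 1) ≤ #ht` and `¬ Up` (`up_est`, `samp`: at most `(n + 2)⁻²⁵ ≤ 1/64`);
(C) `Hf` and `cT + 2 ^ eU > 2 ^ b` (`root_cost`, `budget0`, `cntC` with `B = 2 ^ b`: at most 1/16);
(D) `¬ GU W 4999 (E h ω) h univ x t` (`modeU_good` with `Ω = Sr n × Sr n`, `ε = 1 / (n + 2) ^ 8`, `Mis_E1`; `cntG`: at most `8 / (n + 2) ^ 8 + 1 / (n + 2) ^ 25 ≤ 1/64`);
(E) `Pr`, `Up`, `GU` and `x ∉ oT` (`modeU_hit` with `P = P0`, `E = fun _ => E1 ..`; `cntU`: at most `(n + 2)⁻²⁵ ≤ 1/64`).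
If (A) and (C) are false then `TOk` is true (`Pr_of_Hf`). `(univ : Finset (Fin n)).card = n`. -/
theorem case2a (PA PB : Lev) (hA : PK PA 4140 1330320) (hMA : MB PA) (hB : PK PB 3550 1203715)
    (hMB : MB PB) : ∃ (c n₀ : ℕ), ∀ n ≥ n₀, ∀ (W : Matrix (Fin n) (Fin n) ℤ) (Go : Rf n), Wb W →
    GO W Go → ∀ φ : Hm n (Rc n) → Finset (Fin n) → Finset (Fin n) → Finset (Fin n),
    (∀ h Q, Fib (φ h Q) (Cc h Q)) →
    ∀ x ∈ S (bl (univ : Finset (Fin n))), (∀ y ∈ S (bl (univ : Finset (Fin n))), Ph W y ≤ Ph W x) →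
    (Lv W (bl univ) (Ph W x)).card < 2 ^ g0 n →
    ∃ t ∈ lvl n, 2 ^ g0 n ≤ (Lv W (bl univ) t).card ∧
      ((Lv W (bl univ) t).card ≤
        n ^ 2 * ((Lv W (bl univ) t).filter fun z => Wi 4999 n (df x z).card).card →
      (((KH (Rc n) {univ} ×ˢ (univ : Finset (Om n))).filter fun z =>
        ¬ (TOk W Go z.1 (φ z.1) PA PB (Ph W x) (g0 n + c * lg n) z.2 t ∧
          x ∈ oT W Go z.1 (φ z.1) PA PB (Ph W x) z.2 t)).card : ℝ) ≤
        1 / 2 * ((KH (Rc n) ({univ} : Finset (Finset (Fin n)))).card * Fintype.card (Om n))) := by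
  obtain ⟨c, hc⟩ := budget0 PB.l PA.l
  obtain ⟨n₁, hn1⟩ := num0U
  obtain ⟨n₂, hn2⟩ := root_cost
  obtain ⟨n₃, hn3⟩ := Mis_E1 PA PB hA hMA hB hMB
  refine ⟨c, max (max n₁ n₂) (max n₃ 2), fun n hn W Go hW hGo φ hφ x hx hmax hlt => ?_⟩
  have k1 : n ≥ n₁ := le_trans (le_trans (le_max_left _ _) (le_max_left _ _)) hn
  have k2 : n ≥ n₂ := le_trans (le_trans (le_max_right _ _) (le_max_left _ _)) hn
  have k3 : n ≥ n₃ := le_trans (le_trans (le_max_left _ _) (le_max_right _ _)) hn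
  have k4 : n ≥ 2 := le_trans (le_trans (le_max_right _ _) (le_max_right _ _)) hn
  have hnum := hn1 n k1
  obtain ⟨t, htm, hpar, hN, hcost⟩ := hn2 n k2 W Go hW hGo φ hφ PA PB hA hB x hx hmax hlt
  refine ⟨t, htm, hN, fun hwin => ?_⟩
  have hu : (univ : Finset (Fin n)).card = n := by rw [Finset.card_univ, Fintype.card_fin]
  have hne : (univ : Finset (Fin n)).Nonempty := by
    rw [← Finset.card_pos, hu]
    omega
  have hwin' : (Lv W (bl univ) t).card ≤ n ^ 2 * ((Lv W (bl univ) t).filter fun z =>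
      Wi 4999 (univ : Finset (Fin n)).card (df x z).card).card := by
    rw [hu]
    exact hwin
  have hgs : g0 n ≤ (univ : Finset (Fin n)).card := by
    rw [hu]
    exact hnum.gs
  have hkJ : (univ : Finset (Fin n)).card + c1 * lg n ≤ kb n + g0 n := by
    rw [hu]
    exact hnum.kbJ
  -- the size of `n`
  have h4 : (4 : ℝ) ≤ (n + 2 : ℝ) := by
    have : (2 : ℝ) ≤ (n : ℝ) := by exact_mod_cast k4
    linarith
  have hbig : (1024 : ℝ) ≤ (n + 2 : ℝ) ^ 8 := by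
    calc (1024 : ℝ) ≤ 4 ^ 8 := by norm_num
      _ ≤ _ := pow_le_pow_left₀ (by norm_num) h4 8
  have hbig' : (256 : ℝ) ≤ (n + 2 : ℝ) ^ 25 := by
    calc (256 : ℝ) ≤ 4 ^ 25 := by norm_num
      _ ≤ _ := pow_le_pow_left₀ (by norm_num) h4 25
  obtain ⟨K, hK⟩ : ∃ K : ℕ, K = (n + 2) ^ 25 := ⟨_, rfl⟩
  have hK' : (64 : ℝ) ≤ K := by
    rw [hK]
    push_cast
    linarith
  obtain ⟨H, hH⟩ : ∃ H : Finset (Hm n (Rc n)), H = KH (Rc n) {univ} := ⟨_, rfl⟩
  rw [← hH]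
  obtain ⟨m, hm⟩ : ∃ m, m = (univ : Finset (Fin n)).card := ⟨_, rfl⟩
  -- (A)
  obtain ⟨Ap, hAp⟩ : ∃ P : Fm n → Prop, ∀ ω, P ω ↔ ¬ Hf W univ (g0 n) ω t := ⟨_, fun _ => Iff.rfl⟩
  have eA := sampR H 4 Ap (by
    refine le_trans (Nat.mul_le_mul_right _ (Finset.card_le_card ?_)) (half_est W hgs hkJ hN)
    intro ω hω
    rw [Finset.mem_filter] at hω ⊢
    exact ⟨hω.1, (hAp ω).1 hω.2⟩) (δ := 1 / 4) (by norm_num) (by norm_num)
  -- (B)
  obtain ⟨Bp, hBp⟩ : ∃ P : Fm n → Prop, ∀ ω, P ω ↔ (Pr W univ (g0 n) (ω, ω, ω) t ∧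
    ¬ Up W univ (g0 n) ω t) := ⟨_, fun _ => Iff.rfl⟩
  have eB := sampR H K Bp (by
    have h0 := up_est W hgs hkJ t
    rw [← hK] at h0
    refine le_trans (Nat.mul_le_mul_right _ (Finset.card_le_card ?_)) h0
    intro ω hω
    rw [Finset.mem_filter] at hω ⊢
    exact ⟨hω.1, (hBp ω).1 hω.2⟩) (δ := 1 / 64) (by linarith) (by norm_num)
  -- (C)
  obtain ⟨Cp, hCp⟩ : ∃ P : Fm n → Prop, ∀ ω, P ω ↔ Hf W univ (g0 n) ω t := ⟨_, fun _ => Iff.rfl⟩
  obtain ⟨f, hf⟩ : ∃ f : Hm n (Rc n) → Sr n × Sr n → Fm n → Fm n → Fm n → ℝ,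
      ∀ h ω ωY ωU ωB, f h ω ωY ωU ωB =
        (cT W Go h (φ h) PA PB (Ph W x) (ω.1, ω.2, (ωY, ωU, ωB)) t : ℝ) +
        2 ^ eU W h univ (g0 n) (ωY, ωU, ωB) t := ⟨_, fun _ _ _ _ _ => rfl⟩
  have hf0 : ∀ h ω ωY ωU ωB, 0 ≤ f h ω ωY ωU ωB := by
    intro h ω ωY ωU ωB
    rw [hf]
    exact add_nonneg (Nat.cast_nonneg _) (pow_nonneg (by norm_num) _)
  obtain ⟨Bb, hBb⟩ : ∃ B : ℝ, B = 2 ^ (g0 n + c * lg n) := ⟨_, rfl⟩
  have hBb0 : 0 < Bb := by
    rw [hBb]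
    exact pow_pos (by norm_num) _
  have hcC : ∀ ωY ωB, Cp ωY → ∑ h₀ ∈ H, ∑ ω : Sr n × Sr n, ∑ ωU : Fm n, f h₀ ω ωY ωU ωB ≤
      Bb / 16 * (H.card * (Fintype.card (Sr n × Sr n) * Fintype.card (Fm n))) := by
    intro ωY ωB hY
    have h1 := hcost ωY ωB ((hCp _).1 hY)
    rw [← hH] at h1
    have h7 : ∑ h₀ ∈ H, ∑ ω : Sr n × Sr n, ∑ ωU : Fm n, f h₀ ω ωY ωU ωB =
        ∑ h ∈ H, ∑ ω : Sr n × Sr n, ∑ ωU : Fm n,
          ((cT W Go h (φ h) PA PB (Ph W x) (ω.1, ω.2, (ωY, ωU, ωB)) t : ℝ) +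
            2 ^ eU W h univ (g0 n) (ωY, ωU, ωB) t) :=
      Finset.sum_congr rfl fun h _ => Finset.sum_congr rfl fun ω _ =>
        Finset.sum_congr rfl fun ωU _ => hf h ω ωY ωU ωB
    rw [h7]
    refine h1.trans ?_
    have h2 := hc n
    refine mul_le_mul_of_nonneg_right ?_ (mul_nonneg (Nat.cast_nonneg _)
      (mul_nonneg (Nat.cast_nonneg _) (Nat.cast_nonneg _)))
    rw [hBb, pow_add, mul_comm ((2 : ℝ) ^ g0 n), mul_div_right_comm]
    refine mul_le_mul_of_nonneg_right ?_ (pow_nonneg (by norm_num) _)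
    linarith
  have eC0 := cntC H Cp f hf0 hBb0 hcC
  obtain ⟨Cq, hCq⟩ : ∃ P : Hm n (Rc n) × Om n → Prop, ∀ z, P z ↔ (Cp z.2.2.2.1 ∧
      Bb < f z.1 (z.2.1, z.2.2.1) z.2.2.2.1 z.2.2.2.2.1 z.2.2.2.2.2) := ⟨_, fun _ => Iff.rfl⟩
  have eC : (((H ×ˢ (univ : Finset (Om n))).filter fun z => Cq z).card : ℝ) ≤
      1 / 16 * (H.card * Fintype.card (Om n)) := by
    refine le_trans (Nat.cast_le.2 (Finset.card_le_card ?_)) eC0
    intro z hz
    rw [Finset.mem_filter] at hz ⊢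
    exact ⟨hz.1, (hCq z).1 hz.2⟩
  -- (D)
  obtain ⟨Dp, hDp⟩ : ∃ P : Hm n (Rc n) → Sr n × Sr n → Prop, ∀ h ω, P h ω ↔
    ¬ GU W 4999 (E1 W Go h (φ h) PA PB ω.1 ω.2) h univ x t := ⟨_, fun _ _ => Iff.rfl⟩
  have eD := cntG H Dp (δ := 1 / 64) (by
      have h1 := modeU_good (Ω := Sr n × Sr n) (R := Rc n) hW
        (E := fun h ω => E1 W Go h (φ h) PA PB ω.1 ω.2) (d := 4999) (by norm_num) (by norm_num)
        (𝓔 := {univ}) (Q := univ) ⟨Finset.mem_singleton_self _, fun P hP => by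
          rw [Finset.mem_singleton.1 hP]⟩ hne (ε := 1 / (n + 2 : ℝ) ^ 8) (by positivity)
        (fun X _ hXc => hn3 n k3 W Go hW hGo φ hφ X (by rwa [hu] at hXc)) hx (t := t)
        (g := g0 n) hnum.h2 (hN.trans (Nat.le_mul_of_pos_left _ (by norm_num))) hwin'
      rw [← hH] at h1
      have h0 : (((H ×ˢ (univ : Finset (Sr n × Sr n))).filter fun z => Dp z.1 z.2).card : ℝ) ≤
          ((H ×ˢ (univ : Finset (Sr n × Sr n))).filter fun z =>
            ¬ GU W 4999 (E1 W Go z.1 (φ z.1) PA PB z.2.1 z.2.2) z.1 univ x t).card := by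
        refine Nat.cast_le.2 (Finset.card_le_card ?_)
        intro z hz
        rw [Finset.mem_filter] at hz ⊢
        exact ⟨hz.1, (hDp _ _).1 hz.2⟩
      refine (h0.trans h1).trans (mul_le_mul_of_nonneg_right ?_
        (mul_nonneg (Nat.cast_nonneg _) (Nat.cast_nonneg _)))
      have h2 : 1 / (n + 2 : ℝ) ^ 8 ≤ 1 / 1024 := one_div_le_one_div_of_le (by norm_num) hbig
      have h3 : 1 / (n + 2 : ℝ) ^ 25 ≤ 1 / 256 := one_div_le_one_div_of_le (by norm_num) hbig'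
      linarith)
  -- (E)
  obtain ⟨Ep, hEp⟩ : ∃ P : Hm n (Rc n) → Sr n × Sr n → Fm n → Fm n → Fm n → Prop,
      ∀ h ω ωY ωU ωB, P h ω ωY ωU ωB ↔ Pr W univ (g0 n) (ωY, ωU, ωB) t ∧ Up W univ (g0 n) ωY t ∧
      GU W 4999 (E1 W Go h (φ h) PA PB ω.1 ω.2) h univ x t ∧
      x ∉ oT W Go h (φ h) PA PB (Ph W x) (ω.1, ω.2, (ωY, ωU, ωB)) t :=
    ⟨_, fun _ _ _ _ _ => Iff.rfl⟩
  have eE := cntU H Ep (δ := 1 / 64) (by
      intro h₀ _ ω ωY ωB
      by_cases hyp : Pr W univ (g0 n) (ωY, ωB, ωB) t ∧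
        Up W univ (g0 n) ωY t ∧ GU W 4999 (E1 W Go h₀ (φ h₀) PA PB ω.1 ω.2) h₀ univ x t
      · obtain ⟨y1, y2, y3⟩ := hyp
        have hRg : Rc n ≤ g0 n := by
          have h5 := hnum.h2
          have h6 : 2 ^ Rc n ≤ 2 ^ g0 n :=
            le_trans (Nat.le_mul_of_pos_right _ (pow_pos (by omega) _)) h5
          exact (Nat.pow_le_pow_iff_right (by norm_num)).1 h6
        have h1 := modeU_hit (R := Rc n) hW (E := fun _ => E1 W Go h₀ (φ h₀) PA PB ω.1 ω.2)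
          (fun _ => Gd_E1 hGo hφ PA PB h₀ ω.1 ω.2) (h := h₀) (φ := φ h₀) (Q := univ) (hφ h₀ univ)
          (P := P0) (by decide) (by decide) hne hx (t := t) (g := g0 n) hgs hRg hnum.kbD hwin' y3
          (ωY := ωY) y1 y2 ωB
        rw [← hK] at h1
        have h3 : (univ.filter fun ωU : Fm n => Ep h₀ ω ωY ωU ωB).card * K ≤
            Fintype.card (Fm n) := by
          refine le_trans (Nat.mul_le_mul_right _ (Finset.card_le_card ?_)) h1
          intro ωU hω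
          rw [Finset.mem_filter] at hω ⊢
          refine ⟨hω.1, ?_⟩
          have h7 := ((hEp _ _ _ _ _).1 hω.2).2.2.2
          unfold oT at h7
          rw [hu]
          exact h7
        have h5 := (Nat.cast_le (α := ℝ)).2 h3
        push_cast at h5
        have h6 : (0 : ℝ) ≤ ((univ.filter fun ωU : Fm n => Ep h₀ ω ωY ωU ωB).card : ℝ) :=
          Nat.cast_nonneg _
        have h8 := mul_le_mul_of_nonneg_left hK' h6
        generalize ((univ.filter fun ωU : Fm n => Ep h₀ ω ωY ωU ωB).card : ℝ) = X at h5 h8 ⊢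
        generalize (Fintype.card (Fm n) : ℝ) = Y at h5 ⊢
        linarith
      · rw [Finset.filter_false_of_mem, Finset.card_empty, Nat.cast_zero]
        · exact mul_nonneg (by norm_num) (Nat.cast_nonneg _)
        · intro ωU _ hE'
          obtain ⟨y1, y2, y3, -⟩ := (hEp _ _ _ _ _).1 hE'
          exact hyp ⟨y1, y2, y3⟩)
  -- the union
  refine five (H ×ˢ (univ : Finset (Om n))) _ _ _ _ _ _
    (mul_nonneg (Nat.cast_nonneg _) (Nat.cast_nonneg _)) ?_ eA eB eC eD eE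
  rintro ⟨h, ω₂, ω₁, ωY, ωU, ωB⟩ hz1 hz2
  by_contra hcon
  push Not at hcon
  obtain ⟨c1', c2', c3', c4', c5'⟩ := hcon
  have a1 : Hf W univ (g0 n) ωY t := not_not.1 fun hf => c1' ((hAp ωY).2 hf)
  have apr : Pr W univ (g0 n) (ωY, ωU, ωB) t := Pr_of_Hf hgs hN (ω := (ωY, ωU, ωB)) a1
  have a2 : Up W univ (g0 n) ωY t := not_not.1 fun hf => c2' ((hBp ωY).2 ⟨apr, hf⟩)
  have a3 : (cT W Go h (φ h) PA PB (Ph W x) (ω₂, ω₁, (ωY, ωU, ωB)) t : ℝ) +
      2 ^ eU W h univ (g0 n) (ωY, ωU, ωB) t ≤ 2 ^ (g0 n + c * lg n) := by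
    by_contra hf'
    refine c3' ((hCq _).2 ⟨(hCp _).2 a1, ?_⟩)
    rw [hf, hBb]
    exact not_le.1 hf'
  have a4 : GU W 4999 (E1 W Go h (φ h) PA PB ω₂ ω₁) h univ x t :=
    not_not.1 fun hf => c4' ((hDp h (ω₂, ω₁)).2 hf)
  have a5 : x ∈ oT W Go h (φ h) PA PB (Ph W x) (ω₂, ω₁, (ωY, ωU, ωB)) t :=
    not_not.1 fun hf => c5' ((hEp h (ω₂, ω₁) ωY ωU ωB).2 ⟨apr, a2, a4, hf⟩)
  refine hz2 ⟨⟨apr, hpar, ?_, ?_⟩, a5⟩
  · have h8 : ((2 : ℝ) ^ eU W h univ (g0 n) (ωY, ωU, ωB) t) ≤ 2 ^ (g0 n + c * lg n) := by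
      refine le_trans ?_ a3
      have : (0 : ℝ) ≤ (cT W Go h (φ h) PA PB (Ph W x) (ω₂, ω₁, (ωY, ωU, ωB)) t : ℝ) :=
        Nat.cast_nonneg _
      linarith
    exact (pow_le_pow_iff_right₀ (by norm_num)).1 h8
  · have h8 : ((cT W Go h (φ h) PA PB (Ph W x) (ω₂, ω₁, (ωY, ωU, ωB)) t : ℕ) : ℝ) ≤
        2 ^ (g0 n + c * lg n) := by
      refine le_trans ?_ a3
      have : (0 : ℝ) ≤ (2 : ℝ) ^ eU W h univ (g0 n) (ωY, ωU, ωB) t := pow_nonneg (by norm_num) _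
      linarith
    exact_mod_cast h8

end Pool.Agent.MPa9445a.SB
end

section

/-! The root: one repetition finds a maximum with probability one half. -/

set_option autoImplicit false
set_option synthInstance.maxSize 1000

open Finset

namespace Pool.Agent.MPa9445a.SB

open Pool.Agent.MPa9445a.SN (Fm rs kb)
open Pool.Agent.MPa9445a.GL (Vc S Ph Lv T Par lvl LL la2 xk vc pl fl Wb Fr)

/-- The numbers of the root. PROOF. `num0U`: `gs`, `kbJ`. -/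
theorem num0 : ∃ n₀, ∀ n ≥ n₀, g0 n ≤ n ∧ n + c1 * lg n ≤ kb n + g0 n := by
  obtain ⟨n₀, h⟩ := num0U
  exact ⟨n₀, fun n hn => ⟨(h n hn).gs, (h n hn).kbJ⟩⟩

open scoped Classical in
/-- One repetition. PROOF. If `2 ^ g0 n ≤ #Lv W (bl univ) (Ph W x)`: `case1`, `samp` (first part of `Win`). Otherwise take `t` from `case2a`. If `#Lv ≤ n ^ 2 * #(window)`: the second part of `Win`. Otherwise `n ^ 2 * #(window) < #Lv`, so for `n ≥ 2` at least one half of `Lv W (bl univ) t`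
is not in the window: `case2b` with `𝒢 = {z ∈ Lv | ¬ Wi 4999 n #(df x z)}`, `samp` (third part of `Win`). -/
theorem block (PA PB : Lev) (hA : PK PA 4140 1330320) (hMA : MB PA) (hB : PK PB 3550 1203715)
    (hMB : MB PB) : ∃ (c n₀ : ℕ), ∀ n ≥ n₀, ∀ (W : Matrix (Fin n) (Fin n) ℤ) (Go : Rf n), Wb W →
    GO W Go → ∀ φ : Hm n (Rc n) → Finset (Fin n) → Finset (Fin n) → Finset (Fin n),
    (∀ h Q, Fib (φ h Q) (Cc h Q)) →
    ∀ x ∈ S (bl (univ : Finset (Fin n))), (∀ y ∈ S (bl (univ : Finset (Fin n))), Ph W y ≤ Ph W x) →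
    ((KH (Rc n) {univ} ×ˢ (univ : Finset (Om n))).filter fun z =>
      ¬ Win W Go z.1 (φ z.1) PA PB (g0 n + c * lg n) z.2 x).card * 2 ≤
      (KH (Rc n) ({univ} : Finset (Finset (Fin n)))).card * Fintype.card (Om n) := by
  obtain ⟨c, n₁, h1⟩ := case2a PA PB hA hMA hB hMB
  obtain ⟨n₂, h2⟩ := num0
  refine ⟨c, max n₁ (max n₂ 2), fun n hn W Go hW hGo φ hφ x hx hmax => ?_⟩
  have hn1 : n ≥ n₁ := le_trans (le_max_left _ _) hn
  have hn2 : n ≥ n₂ := le_trans (le_trans (le_max_left _ _) (le_max_right _ _)) hn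
  have hn3 : n ≥ 2 := le_trans (le_trans (le_max_right _ _) (le_max_right _ _)) hn
  obtain ⟨hg, hk⟩ := h2 n hn2
  by_cases hN : 2 ^ g0 n ≤ (Lv W (bl univ) (Ph W x)).card
  · obtain ⟨P, hP⟩ : ∃ P : Fm n → Prop, ∀ ω, P ω ↔
        ∃ κ < Jn n n (g0 n), Ph W (xk (bl univ) ω κ) = Ph W x := ⟨_, fun ω => Iff.rfl⟩
    have h0 : (univ.filter fun ω : Fm n => ¬ P ω).card * 4 ≤ Fintype.card (Fm n) := by
      refine le_trans (Nat.mul_le_mul_right 4 (Finset.card_le_card ?_)) (case1 W hg hk hN)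
      intro ω hω
      rw [Finset.mem_filter] at hω ⊢
      exact ⟨hω.1, fun h => hω.2 ((hP ω).2 h)⟩
    have h3 := samp (KH (Rc n) ({univ} : Finset (Finset (Fin n)))) P h0
    refine le_trans ?_ h3
    refine Nat.mul_le_mul (Finset.card_le_card ?_) (by norm_num)
    intro z hz
    rw [Finset.mem_filter] at hz ⊢
    exact ⟨hz.1, fun h => hz.2 (Or.inl ((hP _).1 h))⟩
  · rw [not_le] at hN
    obtain ⟨t, ht1, hNt, h3⟩ := h1 n hn1 W Go hW hGo φ hφ x hx hmax hN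
    by_cases hw : (Lv W (bl univ) t).card ≤
        n ^ 2 * ((Lv W (bl univ) t).filter fun z => Wi 4999 n (df x z).card).card
    · have h4 := h3 hw
      have h5 : ((KH (Rc n) {univ} ×ˢ (univ : Finset (Om n))).filter fun z =>
          ¬ Win W Go z.1 (φ z.1) PA PB (g0 n + c * lg n) z.2 x).card ≤
          ((KH (Rc n) {univ} ×ˢ (univ : Finset (Om n))).filter fun z =>
          ¬ (TOk W Go z.1 (φ z.1) PA PB (Ph W x) (g0 n + c * lg n) z.2 t ∧
            x ∈ oT W Go z.1 (φ z.1) PA PB (Ph W x) z.2 t)).card := by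
        refine Finset.card_le_card ?_
        intro z hz
        rw [Finset.mem_filter] at hz ⊢
        exact ⟨hz.1, fun hP => hz.2 (Or.inr (Or.inl ⟨t, ht1, hP⟩))⟩
      have h6 : ((((KH (Rc n) {univ} ×ˢ (univ : Finset (Om n))).filter fun z =>
          ¬ Win W Go z.1 (φ z.1) PA PB (g0 n + c * lg n) z.2 x).card : ℕ) : ℝ) * 2 ≤
          (KH (Rc n) ({univ} : Finset (Finset (Fin n)))).card * Fintype.card (Om n) := by
        have h7 : ((((KH (Rc n) {univ} ×ˢ (univ : Finset (Om n))).filter fun z =>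
          ¬ Win W Go z.1 (φ z.1) PA PB (g0 n + c * lg n) z.2 x).card : ℕ) : ℝ) ≤
          (((KH (Rc n) {univ} ×ˢ (univ : Finset (Om n))).filter fun z =>
          ¬ (TOk W Go z.1 (φ z.1) PA PB (Ph W x) (g0 n + c * lg n) z.2 t ∧
            x ∈ oT W Go z.1 (φ z.1) PA PB (Ph W x) z.2 t)).card : ℕ) := by exact_mod_cast h5
        linarith
      exact_mod_cast h6
    · rw [not_le] at hw
      have hsum := Finset.card_filter_add_card_filter_not (s := Lv W (bl univ) t)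
        (fun z => Wi 4999 n (df x z).card)
      have h4 : (Lv W (bl univ) t).card ≤
          2 * ((Lv W (bl univ) t).filter fun z => ¬ Wi 4999 n (df x z).card).card := by
        have h5 : 4 * ((Lv W (bl univ) t).filter fun z => Wi 4999 n (df x z).card).card ≤
            n ^ 2 * ((Lv W (bl univ) t).filter fun z => Wi 4999 n (df x z).card).card :=
          Nat.mul_le_mul_right _ (by nlinarith)
        omega
      obtain ⟨P, hP⟩ : ∃ P : Fm n → Prop, ∀ ω, P ω ↔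
          ∃ κ ∈ ht W univ ω (Jn n n (g0 n)) t,
            ((ht W univ ω (Jn n n (g0 n)) t).filter fun κ' => κ' < κ).card < Y0 ∧
            xk (bl univ) ω κ ∈ (Lv W (bl univ) t).filter fun z => ¬ Wi 4999 n (df x z).card :=
        ⟨_, fun ω => Iff.rfl⟩
      have h5 := case2b W hg hk hNt (Finset.filter_subset (fun z => ¬ Wi 4999 n (df x z).card) _) h4
      have h0 : (univ.filter fun ω : Fm n => ¬ P ω).card * 8 ≤ Fintype.card (Fm n) := by
        refine le_trans (Nat.mul_le_mul_right 8 (Finset.card_le_card ?_)) h5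
        intro ω hω
        rw [Finset.mem_filter] at hω ⊢
        exact ⟨hω.1, fun h => hω.2 ((hP ω).2 h)⟩
      have h6 := samp (KH (Rc n) ({univ} : Finset (Finset (Fin n)))) P h0
      refine le_trans ?_ h6
      refine Nat.mul_le_mul (Finset.card_le_card ?_) (by norm_num)
      intro z hz
      rw [Finset.mem_filter] at hz ⊢
      refine ⟨hz.1, fun h => hz.2 (Or.inr (Or.inr ?_))⟩
      obtain ⟨κ, hκ1, hκ2, hκ3⟩ := (hP _).1 h
      exact ⟨t, ht1, κ, hκ1, hκ2, (Finset.mem_filter.1 hκ3).2⟩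

end Pool.Agent.MPa9445a.SB
end

section

/-! The root: the table is small and one repetition finds a maximum. -/

set_option autoImplicit false
set_option synthInstance.maxSize 1000

open Finset

namespace Pool.Agent.MPa9445a.SB

open Pool.Agent.MPa9445a.SN (Fm rs kb)
open Pool.Agent.MPa9445a.GL (Vc S Ph Lv T Par lvl LL la2 xk vc pl fl Wb Fr)

/-- PROOF. Only `TOk` depends on `b`, and it is monotone. -/
theorem Win_mono {n : ℕ} {W : Matrix (Fin n) (Fin n) ℤ} {Go : Rf n} {R : ℕ} {h : Hm n R}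
    {φ : Finset (Fin n) → Finset (Fin n) → Finset (Fin n)} {PA PB : Lev} {b b' : ℕ} (hb : b ≤ b')
    {ω : Om n} {x : Vc n} (H : Win W Go h φ PA PB b ω x) : Win W Go h φ PA PB b' ω x := by
  rcases H with H | ⟨t, ht, hk, hx⟩ | H
  · exact Or.inl H
  · refine Or.inr (Or.inl ⟨t, ht, ⟨hk.pr, hk.par, hk.hU.trans hb, hk.cT.trans ?_⟩, hx⟩)
    exact Nat.pow_le_pow_right (by norm_num) hb
  · exact Or.inr (Or.inr H)

open scoped Classical in
/-- One repetition: with probability at least one quarter the table is small and a maximum is found. PROOF. `block` (1/2), `table_small` (1/4, an event of `h` only), `Win_mono` for the larger one of the two constants `c`. -/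
theorem block2 (PA PB : Lev) (hA : PK PA 4140 1330320) (hMA : MB PA) (hB : PK PB 3550 1203715)
    (hMB : MB PB) : ∃ (c n₀ : ℕ), ∀ n ≥ n₀, ∀ (W : Matrix (Fin n) (Fin n) ℤ) (Go : Rf n), Wb W →
    GO W Go → ∀ φ : Hm n (Rc n) → Finset (Fin n) → Finset (Fin n) → Finset (Fin n),
    (∀ h Q, Fib (φ h Q) (Cc h Q)) →
    ∀ x ∈ S (bl (univ : Finset (Fin n))), (∀ y ∈ S (bl (univ : Finset (Fin n))), Ph W y ≤ Ph W x) →
    ((KH (Rc n) {univ} ×ˢ (univ : Finset (Om n))).filter fun z =>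
      ¬ (TW z.1 ≤ 2 ^ (g0 n + c * lg n) ∧
        Win W Go z.1 (φ z.1) PA PB (g0 n + c * lg n) z.2 x)).card * 4 ≤
      3 * ((KH (Rc n) ({univ} : Finset (Finset (Fin n)))).card * Fintype.card (Om n)) := by
  obtain ⟨c₁, n₁, h1⟩ := block PA PB hA hMA hB hMB
  obtain ⟨c₂, h2⟩ := table_small
  refine ⟨max c₁ c₂, max n₁ 1, fun n hn W Go hW hGo φ hφ x hx hmax => ?_⟩
  have e1 := h1 n (le_trans (le_max_left _ _) hn) W Go hW hGo φ hφ x hx hmax
  have e2 := h2 n (le_trans (le_max_right _ _) hn)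
  have m1 : g0 n + c₁ * lg n ≤ g0 n + max c₁ c₂ * lg n :=
    Nat.add_le_add_left (Nat.mul_le_mul_right _ (le_max_left _ _)) _
  have m2 : g0 n + c₂ * lg n ≤ g0 n + max c₁ c₂ * lg n :=
    Nat.add_le_add_left (Nat.mul_le_mul_right _ (le_max_right _ _)) _
  generalize g0 n + max c₁ c₂ * lg n = b at m1 m2 ⊢
  set H := KH (Rc n) ({univ} : Finset (Finset (Fin n))) with hH
  have hsub : ((H ×ˢ (univ : Finset (Om n))).filter fun z =>
      ¬ (TW z.1 ≤ 2 ^ b ∧ Win W Go z.1 (φ z.1) PA PB b z.2 x)) ⊆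
      ((H.filter fun h => ¬ TW h ≤ 2 ^ (g0 n + c₂ * lg n)) ×ˢ (univ : Finset (Om n))) ∪
      ((H ×ˢ (univ : Finset (Om n))).filter fun z =>
        ¬ Win W Go z.1 (φ z.1) PA PB (g0 n + c₁ * lg n) z.2 x) := by
    intro z hz
    rw [mem_filter, mem_product] at hz
    rw [mem_union, mem_product, mem_filter, mem_filter, mem_product]
    by_cases ht : TW z.1 ≤ 2 ^ (g0 n + c₂ * lg n)
    · refine Or.inr ⟨hz.1, fun hw => hz.2 ⟨ht.trans (Nat.pow_le_pow_right (by norm_num) m2), ?_⟩⟩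
      exact Win_mono m1 hw
    · exact Or.inl ⟨⟨hz.1.1, ht⟩, mem_univ _⟩
  have hc := (card_le_card hsub).trans (card_union_le _ _)
  rw [card_product, card_univ] at hc
  generalize hx1 : ((H ×ˢ (univ : Finset (Om n))).filter fun z =>
        ¬ Win W Go z.1 (φ z.1) PA PB (g0 n + c₁ * lg n) z.2 x).card = X1 at e1 hc
  generalize hx2 : (H.filter fun h => ¬ TW h ≤ 2 ^ (g0 n + c₂ * lg n)).card = X2 at e2 hc
  generalize Fintype.card (Om n) = M at *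
  have e3 : X2 * 4 * M ≤ H.card * M := Nat.mul_le_mul_right _ e2
  nlinarith

end Pool.Agent.MPa9445a.SB
end

section

/-! The facts about the table and the program: `HD_all`, `tok_TW`, `HR_RT` (`W2`), `program3` (`W1`). -/
end
end
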