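import Pool.Agent.Lib.MP_a9445a_lc.Mg.G125
import Pool.Agent.Lib.MP_a9445a_lc.Mg.G126
import Pool.Agent.Lib.MP_a9445a_lc.Mg.G132
import Pool.Agent.Lib.MP_a9445a_lc.Mg.G128
import Pool.Agent.Lib.MP_a9445a_lc.Mg.G120
import Pool.Agent.Lib.MP_a9445a_lc.Mg.G133
import Pool.Agent.Lib.MP_a9445a_lc.Mg.G033
import Pool.Agent.Lib.MP_a9445a_lc.Mg.G054
import Pool.Agent.Lib.MP_a9445a_lc.Mg.G134
import Pool.Agent.Lib.MP_a9445a_lc.SN.Alg2
import Pool.Agent.Lib.MP_a9445a_lc.Mg.G122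
import Pool.Agent.Lib.MP_a9445a_lc.Mg.G131

section

section

/-! The syndromes. -/

set_option autoImplicit false

open Finset
open scoped symmDiff

namespace Pool.Agent.MPa9445a.GL

open Pool.Agent.MPa9445a.BE
open Pool.Agent.MPa9445a.SN (ST Fm rs kb)
open Pool.Agent.MPa9445a.GD (dd)

variable {n : ℕ}

private theorem Q1e_c (a : ℤ) : (a : ZMod 2) = if a % 2 = 1 then 1 else 0 := by
  rw [← ZMod.intCast_mod a 2]
  push_cast
  rcases Int.emod_two_eq_zero_or_one a with h | h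
  · rw [h]
    rfl
  · rw [h]
    rfl

private theorem Q1e_i (a : ℤ) : a % 2 = 1 ↔ (a : ZMod 2) = 1 := by
  rw [Q1e_c]
  split_ifs with h
  · exact ⟨fun _ => rfl, fun _ => h⟩
  · exact ⟨fun h' => absurd h' h, fun h' => absurd h' (by decide)⟩

private theorem Q1e_n (a : ℕ) : a % 2 = 1 ↔ (a : ZMod 2) = 1 := by
  have h := Q1e_i (a : ℤ)
  rw [Int.cast_natCast] at h
  rw [← h]
  omega

private theorem Q1e_xor : ∀ a b : ZMod 2, ((a = 1 ∧ ¬ b = 1) ∨ (b = 1 ∧ ¬ a = 1)) ↔ a + b = 1 := by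
  decide

private theorem Q1e_card (X : Finset (Fin n)) : (X.card : ZMod 2) = ∑ u : Fin n, if u ∈ X then 1 else 0 := by
  rw [Finset.sum_boole]
  congr 1
  congr 1
  ext u
  simp

private theorem Q1e_bit (y : Vc n) (v : Fin n) :
    ((bit (cdv y).toNat v : ℕ) : ZMod 2) = if y v = 1 then 1 else 0 := by
  have h1 := ST_cdv y
  have h2 : bit (cdv y).toNat v = 1 ↔ y v = 1 := by
    have h3 : v ∈ ST n (cdv y).toNat ↔ v ∈ univ.filter fun v : Fin n => y v = 1 := by rw [h1]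
    unfold SN.ST at h3
    rw [Finset.mem_filter, Finset.mem_filter] at h3
    exact ⟨fun h => (h3.1 ⟨Finset.mem_univ v, h⟩).2, fun h => (h3.2 ⟨Finset.mem_univ v, h⟩).2⟩
  have h4 : bit (cdv y).toNat v = 0 ∨ bit (cdv y).toNat v = 1 := by
    unfold bit
    omega
  rcases h4 with h4 | h4
  · rw [if_neg (fun h => by
      have h5 := h2.2 h
      omega), h4]
    rfl
  · rw [if_pos (h2.1 h4), h4]
    rfl

/-- PROOF. `ST_sum`; `mem_syn` (`F1`), parities: the bracket has the parity of `[y v = 1] + #{u ∈ lo, u ∈ A v, y u = 1}` plus `[v ∈ h i] + #(h i ∩ lo ∩ A v)`. -/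
theorem ST_sy (R : List ℤ) (o : ℕ) (s : List ℤ) (j : ℕ) (y : Vc n) (i : Fin (Rn n))
    (hy : y ∈ S (fv n s)) :
    ST n (sy n R o s j (cdv y).toNat i) = syn (fv n s) (AR n R o) j (ps (fv n s) y) ∆
      syn (fv n s) (AR n R o) j (HR n R o i) := by
  classical
  obtain ⟨br, hbr⟩ : ∃ br : ℕ → ℤ, br = fun v => ((bit (cdv y).toNat v : ℤ) + gt R (o + n * n + i * n + v) +
      ∑ u ∈ range n, if gt s u = 2 ∧ u < j then
        gt R (o + v * n + u) * ((bit (cdv y).toNat u : ℤ) + gt R (o + n * n + i * n + u)) else 0) :=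
    ⟨_, rfl⟩
  obtain ⟨f, hf⟩ : ∃ f : ℕ → ℕ, f = fun v => if gt s v = 2 ∧ j ≤ v then (br v % 2).toNat else 0 := ⟨_, rfl⟩
  have h1 : sy n R o s j (cdv y).toNat i = ∑ v ∈ range n, f v * 2 ^ v := by
    unfold sy
    refine Finset.sum_congr rfl fun v _ => ?_
    rw [hf, hbr]
    simp only
    split_ifs with h
    · rfl
    · rw [Nat.zero_mul]
  have h2 : ∀ v, f v = 0 ∨ f v = 1 := by
    intro v
    rw [hf]
    simp only
    split_ifs with h
    · omega
    · exact Or.inl rfl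
  rw [h1, ST_sum f h2]
  ext v
  have h3 : v ∈ hi (fv n s) j ↔ (gt s v = 2 ∧ j ≤ (v : ℕ)) := by
    unfold hi Fr
    rw [Finset.mem_filter, Finset.mem_filter]
    exact ⟨fun h => ⟨h.1.2, h.2⟩, fun h => ⟨⟨Finset.mem_univ v, h.1⟩, h.2⟩⟩
  have h4 : f v = 1 ↔ v ∈ hi (fv n s) j ∧ ((br v : ℤ) : ZMod 2) = 1 := by
    rw [h3, ← Q1e_i, hf]
    simp only
    have hz : ∀ z : ℤ, (z % 2).toNat = 1 ↔ z % 2 = 1 := by
      intro z
      omega
    by_cases h : gt s v = 2 ∧ j ≤ (v : ℕ)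
    · rw [if_pos h, hz]
      exact ⟨fun h' => ⟨h, h'⟩, fun h' => h'.2⟩
    · rw [if_neg h]
      exact ⟨fun h' => absurd h' (by norm_num), fun h' => absurd h'.1 h⟩
  rw [Finset.mem_filter, Finset.mem_symmDiff, mem_syn, mem_syn, Q1e_n, Q1e_n, h4]
  have hA : ∀ u : Fin n, ((gt R (o + (v : ℕ) * n + u) : ℤ) : ZMod 2) =
      if u ∈ AR n R o v then 1 else 0 := by
    intro u
    rw [Q1e_c]
    refine if_congr ?_ rfl rfl
    unfold AR
    rw [Finset.mem_filter]
    exact ⟨fun h => ⟨Finset.mem_univ u, h⟩, fun h => h.2⟩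
  have hH : ∀ u : Fin n, ((gt R (o + n * n + (i : ℕ) * n + u) : ℤ) : ZMod 2) =
      if u ∈ HR n R o i then 1 else 0 := by
    intro u
    rw [Q1e_c]
    refine if_congr ?_ rfl rfl
    unfold HR
    rw [Finset.mem_filter]
    exact ⟨fun h => ⟨Finset.mem_univ u, h⟩, fun h => h.2⟩
  have h5 : v ∈ hi (fv n s) j → ((br v : ℤ) : ZMod 2) =
      (((if v ∈ ps (fv n s) y then 1 else 0) + (ps (fv n s) y ∩ lo (fv n s) j ∩ AR n R o v).card : ℕ) : ZMod 2) +
      (((if v ∈ HR n R o i then 1 else 0) + (HR n R o i ∩ lo (fv n s) j ∩ AR n R o v).card : ℕ) : ZMod 2) := by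
    intro hv
    have hvF : gt s v = 2 := (h3.1 hv).1
    rw [hbr]
    simp only
    push_cast
    rw [hH v, Q1e_bit, Q1e_card, Q1e_card, Finset.sum_range]
    have h6 : (if v ∈ ps (fv n s) y then (1 : ZMod 2) else 0) = if y v = 1 then 1 else 0 := by
      refine if_congr ?_ rfl rfl
      unfold ps Fr
      rw [Finset.mem_filter, Finset.mem_filter]
      exact ⟨fun h => h.2, fun h => ⟨⟨Finset.mem_univ v, hvF⟩, h⟩⟩
    have h7 : ∀ u : Fin n, (if gt s u = 2 ∧ (u : ℕ) < j then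
        ((gt R (o + (v : ℕ) * n + u) : ℤ) : ZMod 2) * (((bit (cdv y).toNat u : ℕ) : ZMod 2) +
          ((gt R (o + n * n + (i : ℕ) * n + u) : ℤ) : ZMod 2)) else 0) =
        (if u ∈ ps (fv n s) y ∩ lo (fv n s) j ∩ AR n R o v then 1 else 0) +
        (if u ∈ HR n R o i ∩ lo (fv n s) j ∩ AR n R o v then 1 else 0) := by
      intro u
      have h8 : u ∈ lo (fv n s) j ↔ (gt s u = 2 ∧ (u : ℕ) < j) := by
        unfold lo Fr
        rw [Finset.mem_filter, Finset.mem_filter]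
        exact ⟨fun h => ⟨h.1.2, h.2⟩, fun h => ⟨⟨Finset.mem_univ u, h.1⟩, h.2⟩⟩
      by_cases hu : gt s u = 2 ∧ (u : ℕ) < j
      · rw [if_pos hu]
        have h9 : u ∈ ps (fv n s) y ↔ y u = 1 := by
          unfold ps Fr
          rw [Finset.mem_filter, Finset.mem_filter]
          exact ⟨fun h => h.2, fun h => ⟨⟨Finset.mem_univ u, hu.1⟩, h⟩⟩
        rw [hA u, hH u, Q1e_bit]
        have h10 : u ∈ lo (fv n s) j := h8.2 hu
        simp only [Finset.mem_inter, h9, h10, and_true]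
        by_cases a1 : u ∈ AR n R o v
        · simp only [a1, and_true, if_true, one_mul]
        · simp only [a1, and_false, if_false, zero_mul, add_zero]
      · rw [if_neg hu]
        have h10 : ¬ u ∈ lo (fv n s) j := fun h => hu (h8.1 h)
        simp only [Finset.mem_inter, h10, and_false, false_and, if_false, add_zero]
    rw [Finset.sum_congr rfl fun u _ => h7 u, Finset.sum_add_distrib, h6]
    ring
  constructor
  · rintro ⟨-, h6, h7⟩
    rw [h5 h6] at h7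
    rcases (Q1e_xor _ _).2 h7 with h8 | h8
    · exact Or.inl ⟨⟨h6, h8.1⟩, fun h => h8.2 h.2⟩
    · exact Or.inr ⟨⟨h6, h8.1⟩, fun h => h8.2 h.2⟩
  · intro h6
    have h7 : v ∈ hi (fv n s) j := by
      rcases h6 with h6 | h6
      · exact h6.1.1
      · exact h6.1.1
    refine ⟨Finset.mem_univ v, h7, ?_⟩
    rw [h5 h7]
    refine (Q1e_xor _ _).1 ?_
    rcases h6 with h6 | h6
    · exact Or.inl ⟨h6.1.2, fun h => h6.2 ⟨h7, h⟩⟩
    · exact Or.inr ⟨h6.1.2, fun h => h6.2 ⟨h7, h⟩⟩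

end Pool.Agent.MPa9445a.GL
end

section

/-! One pair of children. -/

set_option autoImplicit false

open Finset
open scoped symmDiff

namespace Pool.Agent.MPa9445a.GL

open Pool.Agent.MPa9445a.BE
open Pool.Agent.MPa9445a.SN (ST Fm rs kb)

variable {n : ℕ} {M : List ℤ} {E : Pc}

private theorem Q3_nil {P : Finset (Vc n)} (h : Cpl [] P) : P = ∅ := by
  apply Finset.eq_empty_of_forall_notMem
  intro x hx
  have h1 := (h.2 (cdv x)).2 ⟨x, hx, rfl⟩
  exact absurd h1 (List.not_mem_nil)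

private theorem Q3_nil' {L : List ℤ} (h : Cpl L (∅ : Finset (Vc n))) : L = [] := by
  apply List.eq_nil_iff_forall_not_mem.2
  intro c hc
  obtain ⟨x, hx, _⟩ := (h.2 c).1 hc
  exact absurd hx (Finset.notMem_empty x)

private theorem Q3_Fr (s : Vc n) : (Fr s).card ≤ n := by
  have := Finset.card_le_univ (Fr s)
  rwa [Fintype.card_fin] at this

private theorem Q3_Lv (W : Matrix (Fin n) (Fin n) ℤ) (s : Vc n) (p : ℤ) :
    (Lv W s p).card ≤ 2 ^ n := by
  have h1 : (Lv W s p).card ≤ (S s).card := Finset.card_filter_le _ _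
  rw [card_S] at h1
  exact h1.trans (Nat.pow_le_pow_right (by norm_num) (Q3_Fr s))

/-- The vectors of a pair of children. PROOF. `E l a g` is `[]` or `1 :: LA` with `Cpl LA ..`, the same for `r`. If `pok` holds because of
`length = 1` then `LA = []`, `jn` has no element (`length_jn_le`) and `Lv .. = ∅`. Otherwise both are lists: `mem_jn`. -/
theorem mem_jn_pok (hE : Snd (wtm n M) E) {l r : List ℤ} (hl : St (fv n l)) (hr : St (fv n r))
    {a b : ℤ} {g : ℕ} (h : pok (E l a g) (E r b g) g) (p c : ℤ) :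
    c ∈ jn n M l r (E l a g) (E r b g) p ↔ ∃ u ∈ Lv (wtm n M) (fv n l) a,
      ∃ v ∈ Lv (wtm n M) (fv n r) b, Ph (wtm n M) (u + v) = p ∧ cdv (u + v) = c := by
  rcases hE l hl a g with hA | ⟨LA, hA, hcA⟩
  · rcases hE r hr b g with hB | ⟨LB, hB, hcB⟩
    · rw [hA, hB] at h
      unfold pok at h
      simp at h
    · rw [hA, hB] at h
      have hLB : LB = [] := by
        unfold pok at h
        simp at h
        exact h
      rw [hLB] at hcB
      have hemp := Q3_nil hcB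
      constructor
      · intro hc
        have h1 := length_jn_le n M l r (E l a g) (E r b g) p
        rw [hA] at h1
        have h2 : (jn n M l r (E l a g) (E r b g) p).length = 0 := by
          rw [hA]
          have h3 : ([] : List ℤ).length - 1 = 0 := rfl
          rw [h3, Nat.zero_mul] at h1
          omega
        rw [List.length_eq_zero_iff.1 h2] at hc
        exact absurd hc (List.not_mem_nil)
      · rintro ⟨u, _, v, hv, _⟩
        rw [hemp] at hv
        exact absurd hv (Finset.notMem_empty v)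
  · rcases hE r hr b g with hB | ⟨LB, hB, hcB⟩
    · rw [hA, hB] at h
      have hLA : LA = [] := by
        unfold pok at h
        simp at h
        exact h
      rw [hLA] at hcA
      have hemp := Q3_nil hcA
      constructor
      · intro hc
        have h1 := length_jn_le n M l r (E l a g) (E r b g) p
        rw [hB] at h1
        have h2 : (jn n M l r (E l a g) (E r b g) p).length = 0 := by
          rw [hB]
          have h3 : ([] : List ℤ).length - 1 = 0 := rfl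
          rw [h3, Nat.mul_zero] at h1
          omega
        rw [List.length_eq_zero_iff.1 h2] at hc
        exact absurd hc (List.not_mem_nil)
      · rintro ⟨u, hu, _⟩
        rw [hemp] at hu
        exact absurd hu (Finset.notMem_empty u)
    · rw [hA, hB]
      exact mem_jn hcA hcB c

/-- PROOF. `Snd`, `Cmp`, `Cpl.length`: `Lv = ∅` gives the answer `[1]`. -/
theorem pok_of_PairOk {O : Vc n → ℤ → ℕ → Prop} (hE : Snd (wtm n M) E) (hO : Cmp E O)
    {l r : List ℤ} (hl : St (fv n l)) (hr : St (fv n r)) {a b : ℤ} (ha : a ∈ lvl n)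
    (hb : b ∈ lvl n) {g : ℕ} (h : PairOk (wtm n M) O (fv n l) a (fv n r) b g) :
    pok (E l a g) (E r b g) g := by
  have key : ∀ (s : List ℤ), St (fv n s) → ∀ p ∈ lvl n, O (fv n s) p (2 ^ g) →
      ∃ L, E s p g = 1 :: L ∧ Cpl L (Lv (wtm n M) (fv n s) p) := by
    intro s hs p hp h1
    rcases hE s hs p g with h2 | h2
    · exact absurd h2 (hO s hs p hp g h1)
    · exact h2
  rcases h with ⟨h1, h2⟩ | ⟨h1, h2⟩ | ⟨h1, h2, h3⟩
  · left
    obtain ⟨L, h4, h5⟩ := key l hl a ha h1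
    rw [h2] at h5
    rw [h4, Q3_nil' h5]
    rfl
  · right; left
    obtain ⟨L, h4, h5⟩ := key r hr b hb h1
    rw [h2] at h5
    rw [h4, Q3_nil' h5]
    rfl
  · right; right
    obtain ⟨LA, h4, h5⟩ := key l hl a ha h1
    obtain ⟨LB, h6, h7⟩ := key r hr b hb h2
    rw [h4, h6, List.length_cons, List.length_cons, h5.length, h7.length]
    refine ⟨Nat.succ_ne_zero _, Nat.succ_ne_zero _, ?_⟩
    rw [Nat.add_sub_cancel, Nat.add_sub_cancel]
    exact h3

/-- PROOF. `#Lv ≤ #S = 2 ^ #Fr` (`card_S`, `A1`). The free places of `la` and `rh` are disjoint (`Fr (la r D) ⊆ D`). -/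
theorem PairOk_two_n (W : Matrix (Fin n) (Fin n) ℤ) {O : Vc n → ℤ → ℕ → Prop}
    (hB : ∀ s p B, 2 ^ (Fr s).card ≤ B → O s p B) (r : Vc n) (D : Finset (Fin n)) (a b : ℤ) :
    PairOk W O (la r D) a (rh r D) b (2 * n) := by
  right; right
  refine ⟨hB _ _ _ ?_, hB _ _ _ ?_, ?_⟩
  · exact Nat.pow_le_pow_right (by norm_num) ((Q3_Fr _).trans (by omega))
  · exact Nat.pow_le_pow_right (by norm_num) ((Q3_Fr _).trans (by omega))
  · calc (Lv W (la r D) a).card * (Lv W (rh r D) b).card ≤ 2 ^ n * 2 ^ n :=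
          Nat.mul_le_mul (Q3_Lv _ _ _) (Q3_Lv _ _ _)
      _ = 2 ^ (2 * n) := by rw [← pow_add]; congr 1; omega

/-- The search finds an exponent which is not more expensive than `pc`. PROOF. By `PairOk_two_n` the least `j` with `PairOk` is at most `2 n`,
`pc = 2 ^ j`; `pok` holds at `j`; `sj_spec` (`T.lean`). -/
theorem sj_le_pc {O : Vc n → ℤ → ℕ → Prop} (hE : Snd (wtm n M) E) (hO : Cmp E O)
    (hB : ∀ s p B, 2 ^ (Fr s).card ≤ B → O s p B) {r : List ℤ} (hr : St (fv n r)) (d : ℕ)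
    {a b : ℤ} (ha : a ∈ lvl n) (hb : b ∈ lvl n) {c : ℕ}
    (h : pc (wtm n M) O (la (fv n r) (ST n d)) a (rh (fv n r) (ST n d)) b ≤ c) :
    ∃ g : ℕ, sj E n (laL n r d) a (rhL n r d) b c = [(g : ℤ)] ∧
      2 ^ g ≤ pc (wtm n M) O (la (fv n r) (ST n d)) a (rh (fv n r) (ST n d)) b := by
  classical
  have hex : ∃ j, PairOk (wtm n M) O (la (fv n r) (ST n d)) a (rh (fv n r) (ST n d)) b j :=
    ⟨2 * n, PairOk_two_n _ hB _ _ _ _⟩
  have hpc : pc (wtm n M) O (la (fv n r) (ST n d)) a (rh (fv n r) (ST n d)) b =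
      2 ^ Nat.find hex := by
    unfold pc
    rw [dif_pos hex]
  have hj2 : Nat.find hex ≤ 2 * n := Nat.find_min' hex (PairOk_two_n _ hB _ _ _ _)
  have hok := Nat.find_spec hex
  obtain ⟨j0, hj0⟩ : ∃ j0, j0 = Nat.find hex := ⟨_, rfl⟩
  rw [← hj0] at hpc hj2 hok
  rw [← fv_laL, ← fv_rhL] at hok
  have hl : St (fv n (laL n r d)) := by
    rw [fv_laL]
    exact St_la hr _
  have hrr : St (fv n (rhL n r d)) := by
    rw [fv_rhL]
    exact St_rh hr _
  have hp := pok_of_PairOk hE hO hl hrr ha hb hok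
  rw [hpc] at h ⊢
  rcases sj_spec E n (laL n r d) a (rhL n r d) b c with ⟨_, h2⟩ | ⟨g, _, h1, _, _, h4⟩
  · exact absurd hp (h2 _ hj2 h)
  · refine ⟨g, h1, ?_⟩
    have h5 : g ≤ j0 := by
      by_contra hcon
      exact h4 _ (not_le.1 hcon) hp
    exact Nat.pow_le_pow_right (by norm_num) h5

end Pool.Agent.MPa9445a.GL
end

section

/-! Repetition, and all graphs at the same time. -/

set_option autoImplicit false

open Finset
open scoped symmDiff

namespace Pool.Agent.MPa9445a.SN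

open Pool.Agent.MPa9445a.BE

private theorem F0_lt {n q : ℕ} (hq : q < 2 * nbk n) (v : Fin n) (j : Fin (kb n + 1)) :
    q * bl n + v * (kb n + 1) + j < Lb n := by
  have h1 : (q + 1) * bl n ≤ 2 * nbk n * bl n := Nat.mul_le_mul_right _ hq
  have h2 : ((v : ℕ) + 1) * (kb n + 1) ≤ n * (kb n + 1) := Nat.mul_le_mul_right _ v.2
  have h3 := j.2
  have h4 : ((v : ℕ) + 1) * (kb n + 1) = v * (kb n + 1) + (kb n + 1) := by ring
  have h5 : (q + 1) * bl n = q * bl n + n * (kb n + 1) := by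
    unfold bl
    ring
  have h6 : Lb n = 2 * nbk n * bl n := rfl
  omega

private def F0_get (n q : ℕ) (hq : q < 2 * nbk n) (ρ : Fin (Lb n) → Bool) : Fm n :=
  fun v j => ρ ⟨q * bl n + v * (kb n + 1) + j, F0_lt hq v j⟩

private theorem F0_fam (n q : ℕ) (hq : q < 2 * nbk n) (ρ : Fin (Lb n) → Bool) :
    Fam n (rb ρ) q (F0_get n q hq ρ) := by
  intro v j
  unfold rb gt F0_get
  have h : q * bl n + v * (kb n + 1) + j < (List.ofFn fun i => ((ρ i).toNat : ℤ)).length := by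
    rw [List.length_ofFn]
    exact F0_lt hq v j
  rw [List.getD_eq_getElem _ _ h, List.getElem_ofFn]

private theorem F0_q (n : ℕ) (q : Fin (nbk n)) : 2 * (q : ℕ) + 1 < 2 * nbk n := by
  have := q.2
  omega

private theorem F0_q' (n : ℕ) (q : Fin (nbk n)) : 2 * (q : ℕ) < 2 * nbk n := by
  have := q.2
  omega

private def F0_fun (n : ℕ) (ρ : Fin (Lb n) → Bool) : Fin (nbk n) → Fm n × Fm n := fun q =>
  (F0_get n (2 * q + 1) (F0_q n q) ρ, F0_get n (2 * q) (F0_q' n q) ρ)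

private theorem F0_inj (n : ℕ) : Function.Injective (F0_fun n) := by
  intro ρ ρ' h
  have h0 : ∀ (q : ℕ) (hq : q < 2 * nbk n) (v : Fin n) (j : Fin (kb n + 1)),
      ρ ⟨q * bl n + v * (kb n + 1) + j, F0_lt hq v j⟩ =
        ρ' ⟨q * bl n + v * (kb n + 1) + j, F0_lt hq v j⟩ := by
    intro q hq v j
    have h1 := congrFun h ⟨q / 2, by omega⟩
    rcases Nat.mod_two_eq_zero_or_one q with hm | hm
    · have h2 := congrFun (congrFun (congrArg Prod.snd h1) v) j
      have h3 : 2 * (q / 2) = q := by omega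
      simp only [F0_fun, F0_get, h3] at h2
      exact h2
    · have h2 := congrFun (congrFun (congrArg Prod.fst h1) v) j
      have h3 : 2 * (q / 2) + 1 = q := by omega
      simp only [F0_fun, F0_get, h3] at h2
      exact h2
  funext i
  have hb : 0 < bl n := by
    rcases Nat.eq_zero_or_pos (bl n) with hb | hb
    · have h1 : (i : ℕ) < 2 * nbk n * bl n := i.2
      rw [hb, mul_zero] at h1
      exact absurd h1 (Nat.not_lt_zero _)
    · exact hb
  have hk : 0 < kb n + 1 := Nat.succ_pos _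
  have hi : (i : ℕ) < bl n * (2 * nbk n) := by
    rw [mul_comm]
    exact i.2
  have h1 : (i : ℕ) / bl n < 2 * nbk n := Nat.div_lt_of_lt_mul hi
  have h2 : (i : ℕ) % bl n < (kb n + 1) * n := by
    have h3 : (i : ℕ) % bl n < bl n := Nat.mod_lt _ hb
    unfold bl at h3 ⊢
    rw [mul_comm (kb n + 1) n]
    exact h3
  have h3 : (i : ℕ) % bl n / (kb n + 1) < n := Nat.div_lt_of_lt_mul h2
  have h4 : (i : ℕ) % bl n % (kb n + 1) < kb n + 1 := Nat.mod_lt _ hk
  have h5 := h0 _ h1 ⟨_, h3⟩ ⟨_, h4⟩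
  have h6 : (i : ℕ) / bl n * bl n + (i : ℕ) % bl n / (kb n + 1) * (kb n + 1) +
      (i : ℕ) % bl n % (kb n + 1) = i := by
    rw [add_assoc, Nat.div_add_mod', Nat.div_add_mod']
  simp only [h6] at h5
  exact h5

/-- The random bits are the bits of the `2 nbk n` families. PROOF. The index `q * bl n + v * (kb n + 1) + j`, `q < 2 nbk n`, `v < n`, `j < kb n + 1`, runs exactly once through all numbers `< Lb n` (`finProdFinEquiv`, or division with remainder). -/
theorem fam_equiv (n : ℕ) : ∃ φ : (Fin (Lb n) → Bool) ≃ (Fin (nbk n) → Fm n × Fm n),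
    ∀ ρ (q : Fin (nbk n)), Fam n (rb ρ) (2 * q + 1) (φ ρ q).1 ∧ Fam n (rb ρ) (2 * q) (φ ρ q).2 := by
  have hb : Function.Bijective (F0_fun n) := by
    rw [Fintype.bijective_iff_injective_and_card]
    refine ⟨F0_inj n, ?_⟩
    simp only [Fintype.card_fun, Fintype.card_prod, Fintype.card_fin, Fintype.card_bool,
      ← pow_mul, ← pow_add]
    congr 1
    unfold Lb bl
    ring
  refine ⟨Equiv.ofBijective _ hb, fun ρ q => ⟨?_, ?_⟩⟩
  · exact F0_fam n _ (F0_q n q) ρ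
  · exact F0_fam n _ (F0_q' n q) ρ

end Pool.Agent.MPa9445a.SN
end
end

section

section

/-! The loop over the sets. -/

set_option autoImplicit false

open Finset
open scoped symmDiff

namespace Pool.Agent.MPa9445a.GL

open Pool.Agent.MPa9445a.BE
open Pool.Agent.MPa9445a.SN (ST Fm rs kb)

variable {n : ℕ} {M : List ℤ} {E : Pc}

private theorem Q4a_tl (L : List ℤ) (z : ℤ) : tl (z :: L) = L := by
  unfold tl tb
  apply List.ext_getElem
  · simp
  · intro i h1 h2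
    simp only [List.length_cons, Nat.add_sub_cancel, List.getElem_map, List.getElem_range, gt]
    rw [Nat.add_comm 1 i, List.getD_cons_succ, List.getD_eq_getElem _ _ h2]

/-- The elements of the result of the loop. PROOF. `rem_spec` (`T.lean`): for all `y < K * LL n` with `inl` there is
`g` with `pok`, `mem_jn_pok`; `y = κ * LL n + a`; `dec` (`A2b`; `(p + t) / 2 = q`), `St_Res`, `St_la`, `St_rh` (`A1b`), `lvv_surj`, `inl_iff`. -/
theorem mem_run (hE : Snd (wtm n M) E) (hW : Wb (wtm n M)) {s r : List ℤ} (hs : St (fv n s))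
    (hr : Res (fv n s) (fv n r)) {K : ℕ} {d : ℕ → ℕ} (hd : ∀ κ < K, ST n (d κ) ⊆ Fr (fv n s))
    {p t q : ℤ} (hq : p + t = 2 * q) {b : ℕ} (h : (run E n M r K d q p b).length ≠ 0) (c : ℤ) :
    c ∈ tl (run E n M r K d q p b) ↔ ∃ x ∈ Lv (wtm n M) (fv n s) p, cdv x = c ∧
      ∃ κ < K, fl (ST n (d κ)) x ∈ Lv (wtm n M) (fv n r) t := by
  have hrem : (rem E n r d q b (K * LL n)).length ≠ 0 := by
    intro h0
    apply h
    unfold run
    rw [if_pos h0]
    rfl
  have hrun : run E n M r K d q p b =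
      1 :: GD.fm (K * LL n) fun y => pj E n M r (d (y / LL n)) (lvv n (y % LL n)) q p b := by
    unfold run
    rw [if_neg hrem]
  rw [hrun, Q4a_tl, GD.mem_fm]
  have hspec : ∀ y < K * LL n, inl n (q - lvv n (y % LL n)) →
        ∃ g ≤ 2 * n, sy1 E n r d q y (2 ^ b) = [(g : ℤ)] ∧
          pok (E (laL n r (d (y / LL n))) (lvv n (y % LL n)) g)
            (E (rhL n r (d (y / LL n))) (q - lvv n (y % LL n)) g) g := by
    rcases rem_spec E n r d q b (K * LL n) with h1 | ⟨_, _, h3⟩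
    · exact absurd (by rw [h1]; rfl) hrem
    · exact h3
  have hLL : 0 < LL n := by unfold LL; omega
  have hq1 : (p + t) % 2 = 0 := by omega
  have hq2 : (p + t) / 2 = q := by omega
  have hrS : St (fv n r) := St_Res hs hr
  have hlL : ∀ e : ℕ, St (fv n (laL n r e)) := fun e => by rw [fv_laL]; exact St_la hrS _
  have hrL : ∀ e : ℕ, St (fv n (rhL n r e)) := fun e => by rw [fv_rhL]; exact St_rh hrS _
  have key : ∀ y < K * LL n, inl n (q - lvv n (y % LL n)) →
      (c ∈ pj E n M r (d (y / LL n)) (lvv n (y % LL n)) q p b ↔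
        ∃ u ∈ Lv (wtm n M) (la (fv n r) (ST n (d (y / LL n)))) (lvv n (y % LL n)),
          ∃ v ∈ Lv (wtm n M) (rh (fv n r) (ST n (d (y / LL n)))) (q - lvv n (y % LL n)),
            Ph (wtm n M) (u + v) = p ∧ cdv (u + v) = c) := by
    intro y hy hi
    obtain ⟨g, hg, h5, h6⟩ := hspec y hy hi
    have h8 : sj E n (laL n r (d (y / LL n))) (lvv n (y % LL n)) (rhL n r (d (y / LL n)))
        (q - lvv n (y % LL n)) (2 ^ b) = [(g : ℤ)] := h5
    unfold pj
    rw [if_pos hi, h8]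
    have h9 : (gt [(g : ℤ)] 0).toNat = g := by simp [gt]
    rw [h9, mem_jn_pok hE (hlL _) (hrL _) h6, fv_laL, fv_rhL]
  constructor
  · rintro ⟨y, hy, hc⟩
    have hκ : y / LL n < K := Nat.div_lt_of_lt_mul (by rw [Nat.mul_comm]; exact hy)
    by_cases hi : inl n (q - lvv n (y % LL n))
    · rw [key y hy hi] at hc
      obtain ⟨u, hu, v, hv, hp, hcd⟩ := hc
      have h10 := (dec hW hs hr (hd _ hκ) hq1 (u + v)).2
        ⟨lvv n (y % LL n), by
          unfold la2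
          rw [hq2, Finset.mem_filter]
          exact ⟨lvv_mem (Nat.mod_lt _ hLL), (inl_iff _).1 hi⟩,
          u, hu, v, by rw [hq2]; exact hv, rfl, hp⟩
      exact ⟨u + v, h10.1, hcd, y / LL n, hκ, h10.2⟩
    · unfold pj at hc
      rw [if_neg hi] at hc
      simp at hc
  · rintro ⟨x, hx, hcx, κ, hκ, hfx⟩
    obtain ⟨a, ha, u, hu, v, hv, hxy, hp⟩ := (dec hW hs hr (hd _ hκ) hq1 x).1 ⟨hx, hfx⟩
    unfold la2 at ha
    rw [hq2, Finset.mem_filter] at ha
    rw [hq2] at hv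
    obtain ⟨a', ha', hla⟩ := lvv_surj ha.1
    have e1 : (κ * LL n + a') / LL n = κ := by
      rw [Nat.mul_comm, Nat.mul_add_div hLL, Nat.div_eq_of_lt ha', Nat.add_zero]
    have e2 : (κ * LL n + a') % LL n = a' := by
      rw [Nat.mul_comm, Nat.mul_add_mod, Nat.mod_eq_of_lt ha']
    have hy : κ * LL n + a' < K * LL n := by
      calc κ * LL n + a' < κ * LL n + LL n := by omega
        _ = (κ + 1) * LL n := by ring
        _ ≤ K * LL n := Nat.mul_le_mul_right _ hκ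
    have hi : inl n (q - lvv n ((κ * LL n + a') % LL n)) := by
      rw [e2, hla]
      exact (inl_iff _).2 ha.2
    refine ⟨κ * LL n + a', hy, (key _ hy hi).2 ⟨u, ?_, v, ?_, ?_, ?_⟩⟩
    · rw [e1, e2, hla]
      exact hu
    · rw [e1, e2, hla]
      exact hv
    · rw [← hxy]
      exact hp
    · rw [← hxy]
      exact hcx

end Pool.Agent.MPa9445a.GL
end

section

/-! The loop over the sets. -/

set_option autoImplicit false

open Finset
open scoped symmDiff

namespace Pool.Agent.MPa9445a.GL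

open Pool.Agent.MPa9445a.BE
open Pool.Agent.MPa9445a.SN (ST Fm rs kb)

variable {n : ℕ} {M : List ℤ} {E : Pc}

private theorem Q4b_sum (f : ℕ → ℕ → ℕ) (L : ℕ) (hL : 0 < L) (K : ℕ) :
    ∑ y ∈ range (K * L), f (y / L) (y % L) = ∑ κ ∈ range K, ∑ a ∈ range L, f κ a := by
  induction K with
  | zero => simp
  | succ K ih =>
    rw [Finset.sum_range_succ, ← ih, Nat.succ_mul, Finset.sum_range_add]
    congr 1
    refine Finset.sum_congr rfl fun a ha => ?_
    rw [Finset.mem_range] at ha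
    have e1 : (K * L + a) / L = K := by
      rw [Nat.mul_comm, Nat.mul_add_div hL, Nat.div_eq_of_lt ha, Nat.add_zero]
    have e2 : (K * L + a) % L = a := by
      rw [Nat.mul_comm, Nat.mul_add_mod, Nat.mod_eq_of_lt ha]
    rw [e1, e2]

/-- The loop does not fail if the budget is sufficient. PROOF. `rem_ne` (`T.lean`), `sj_le_pc`, `sum_lvl`: the sum of the `cst` is at most the
sum of the `pc` over `κ` and the levels in `la2`. Every single `pc` is at most `2 ^ b`. -/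
theorem run_ne {O : Vc n → ℤ → ℕ → Prop} (hE : Snd (wtm n M) E) (hO : Cmp E O)
    (hB : ∀ s p B, 2 ^ (Fr s).card ≤ B → O s p B) {r : List ℤ} (hr : St (fv n r)) {K : ℕ}
    {d : ℕ → ℕ} {p q : ℤ} {b : ℕ}
    (h : ∑ κ ∈ range K, cD (wtm n M) O (fv n r) q (ST n (d κ)) ≤ 2 ^ b) :
    (run E n M r K d q p b).length ≠ 0 := by
  have hLL : 0 < LL n := by unfold LL; omega
  obtain ⟨P, hP⟩ : ∃ P : ℕ → ℤ → ℕ, P = fun κ a => pc (wtm n M) O (la (fv n r) (ST n (d κ))) a
      (rh (fv n r) (ST n (d κ))) (q - a) := ⟨_, rfl⟩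
  have hcD : ∀ κ, cD (wtm n M) O (fv n r) q (ST n (d κ)) = ∑ a ∈ la2 n q, P κ a := by
    intro κ
    rw [hP]
    rfl
  have hone : ∀ κ < K, ∀ a ∈ la2 n q, P κ a ≤ 2 ^ b := by
    intro κ hκ a ha
    refine le_trans ?_ h
    refine le_trans ?_ (Finset.single_le_sum
      (f := fun κ => cD (wtm n M) O (fv n r) q (ST n (d κ))) (fun _ _ => Nat.zero_le _)
      (Finset.mem_range.2 hκ))
    show P κ a ≤ cD (wtm n M) O (fv n r) q (ST n (d κ))
    rw [hcD]
    exact Finset.single_le_sum (f := fun a => P κ a) (fun _ _ => Nat.zero_le _) ha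
  have hla2 : ∀ a : ℤ, a ∈ lvl n → inl n (q - a) → a ∈ la2 n q := by
    intro a ha hi
    unfold la2
    rw [Finset.mem_filter]
    exact ⟨ha, (inl_iff _).1 hi⟩
  have hkey : ∀ y < K * LL n, inl n (q - lvv n (y % LL n)) →
      ∃ g : ℕ, sy1 E n r d q y (2 ^ b) = [(g : ℤ)] ∧
        2 ^ g ≤ P (y / LL n) (lvv n (y % LL n)) := by
    intro y hy hi
    have hκ : y / LL n < K := Nat.div_lt_of_lt_mul (by rw [Nat.mul_comm]; exact hy)
    have ha := lvv_mem (n := n) (Nat.mod_lt y hLL)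
    have h1 := hone _ hκ _ (hla2 _ ha hi)
    rw [hP] at h1 ⊢
    exact sj_le_pc hE hO hB hr (d (y / LL n)) ha ((inl_iff _).1 hi) h1
  have hrem : (rem E n r d q b (K * LL n)).length ≠ 0 := by
    apply rem_ne
    · intro y hy hi
      obtain ⟨g, h1, _⟩ := hkey y hy hi
      rw [h1]
      simp
    · have h2 : ∑ y ∈ range (K * LL n), cst E n r d q b y ≤
          ∑ y ∈ range (K * LL n), (if inl n (q - lvv n (y % LL n)) then
            P (y / LL n) (lvv n (y % LL n)) else 0) := by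
        refine Finset.sum_le_sum fun y hy => ?_
        unfold cst
        by_cases hi : inl n (q - lvv n (y % LL n))
        · rw [if_pos hi, if_pos hi]
          obtain ⟨g, h1, h2⟩ := hkey y (Finset.mem_range.1 hy) hi
          have h3 : gy E n r d q b y = g := by
            unfold gy
            rw [h1]
            rfl
          rw [h3]
          exact h2
        · rw [if_neg hi, if_neg hi]
      refine h2.trans ?_
      rw [Q4b_sum (fun κ a => if inl n (q - lvv n a) then P κ (lvv n a) else 0) (LL n) hLL K]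
      refine le_trans (Finset.sum_le_sum fun κ _ => ?_) h
      show ∑ a ∈ range (LL n), (if inl n (q - lvv n a) then P κ (lvv n a) else 0) ≤
        cD (wtm n M) O (fv n r) q (ST n (d κ))
      rw [hcD, sum_lvl (n := n) (fun a => if inl n (q - a) then P κ a else 0)]
      unfold la2
      rw [Finset.sum_filter]
      refine Finset.sum_le_sum fun a _ => ?_
      by_cases hi : inl n (q - a)
      · rw [if_pos hi, if_pos ((inl_iff _).1 hi)]
      · rw [if_neg hi]
        exact Nat.zero_le _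
  unfold run
  rw [if_neg hrem]
  simp

end Pool.Agent.MPa9445a.GL
end

section

/-! The cover. -/

set_option autoImplicit false

open Finset
open scoped symmDiff

namespace Pool.Agent.MPa9445a.GL

open Pool.Agent.MPa9445a.BE
open Pool.Agent.MPa9445a.SN (ST Fm rs kb)
open Pool.Agent.MPa9445a.GD (dd)

variable {n : ℕ}

private theorem Q5_mem_tb {k : ℕ} {f : ℕ → ℤ} {c : ℤ} : c ∈ tb k f ↔ ∃ x < k, f x = c := by
  unfold tb
  rw [List.mem_map]
  constructor
  · rintro ⟨a, ha, h⟩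
    exact ⟨a, List.mem_range.1 ha, h⟩
  · rintro ⟨a, ha, h⟩
    exact ⟨a, List.mem_range.2 ha, h⟩

private theorem Q5_Rn (n : ℕ) : 0 < Rn n := by
  unfold Rn
  omega

private theorem Q5_sum_lt (g : ℕ → ℕ) (hg : ∀ v, g v ≤ 2 ^ v) (n : ℕ) :
    ∑ v ∈ range n, g v < 2 ^ n := by
  induction n with
  | zero => simp
  | succ n ih =>
    rw [Finset.sum_range_succ, pow_succ]
    have := hg n
    omega

private theorem Q5_sy_lt (n : ℕ) (R : List ℤ) (o : ℕ) (s : List ℤ) (j y i : ℕ) :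
    sy n R o s j y i < 2 ^ n := by
  unfold sy
  refine Q5_sum_lt _ (fun v => ?_) n
  split_ifs
  · have h1 : ∀ z : ℤ, (z % 2).toNat ≤ 1 := fun z => by omega
    calc _ ≤ 1 * 2 ^ v := Nat.mul_le_mul_right _ (h1 _)
    _ = 2 ^ v := one_mul _
  · exact Nat.zero_le _

private theorem Q5_mem_ZZ (R : List ℤ) (o : ℕ) {s YL : List ℤ} {j : ℕ} {Y : Finset (Vc n)}
    (hYL : ∀ c, c ∈ tl YL ↔ ∃ y ∈ Y, cdv y = c) (c : ℤ) :
    c ∈ ZZ n R o s YL j ↔ ∃ y ∈ Y, ∃ i : Fin (Rn n),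
      ((sy n R (o + 2 * bl n) s j (cdv y).toNat i : ℕ) : ℤ) = c := by
  unfold ZZ
  rw [Q5_mem_tb]
  constructor
  · rintro ⟨x, hx, rfl⟩
    have h1 : x / Rn n < YL.length - 1 := Nat.div_lt_of_lt_mul (by rw [mul_comm]; exact hx)
    have h2 : gt YL (1 + x / Rn n) ∈ tl YL := by
      unfold tl
      rw [Q5_mem_tb]
      exact ⟨_, h1, rfl⟩
    obtain ⟨y, hy, h3⟩ := (hYL _).1 h2
    exact ⟨y, hy, ⟨x % Rn n, Nat.mod_lt _ (Q5_Rn n)⟩, by rw [h3]⟩
  · rintro ⟨y, hy, i, rfl⟩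
    have h1 : cdv y ∈ tl YL := (hYL _).2 ⟨y, hy, rfl⟩
    unfold tl at h1
    rw [Q5_mem_tb] at h1
    obtain ⟨a, ha, h2⟩ := h1
    have h3 : (a * Rn n + (i : ℕ)) / Rn n = a := by
      rw [Nat.mul_comm, Nat.mul_add_div (Q5_Rn n), Nat.div_eq_of_lt i.2, add_zero]
    have h4 : (a * Rn n + (i : ℕ)) % Rn n = i := by
      rw [Nat.mul_comm, Nat.mul_add_mod, Nat.mod_eq_of_lt i.2]
    refine ⟨a * Rn n + i, ?_, ?_⟩
    · calc a * Rn n + (i : ℕ) < a * Rn n + Rn n := Nat.add_lt_add_left i.2 _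
      _ = (a + 1) * Rn n := by ring
      _ ≤ (YL.length - 1) * Rn n := Nat.mul_le_mul_right _ (by omega)
    · rw [h3, h4, h2]

/-- The number of different syndromes. PROOF. `ZZ` lists the `sy .. y i` for all `y` in the list and all `i < Rn n`;
`sy < 2 ^ n`, so equal sets have equal codes (`ST` injective on `< 2 ^ n`); `dd` has as many entries as there are different
entries (`mem_dd`, `nodup_dd`); `syn ⊆ hi`: it is the cardinality of the image, `2 ^ #hi` iff the image is the power set (`Cov_iff`, `F1`). -/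
theorem dd_ZZ (R : List ℤ) (o : ℕ) {s YL : List ℤ} {j : ℕ} (hj : j ≤ n) {Y : Finset (Vc n)}
    (hY : Y ⊆ S (fv n s)) (hYL : ∀ c, c ∈ tl YL ↔ ∃ y ∈ Y, cdv y = c) :
    (dd n (ZZ n R o s YL j)).length = 2 ^ (rk s n - rk s j) ↔
      Cov (fv n s) (AR n R (o + 2 * bl n)) (HR n R (o + 2 * bl n)) j Y := by
  classical
  have hlt : ∀ c ∈ ZZ n R o s YL j, 0 ≤ c ∧ c < 2 ^ n := by
    intro c hc
    obtain ⟨y, hy, i, rfl⟩ := (Q5_mem_ZZ R o hYL c).1 hc
    exact ⟨Int.natCast_nonneg _, by exact_mod_cast Q5_sy_lt _ _ _ _ _ _ _⟩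
  have hnd : (dd n (ZZ n R o s YL j)).Nodup := GD.nodup_dd hlt
  have hG : (dd n (ZZ n R o s YL j)).length =
      ((Y ×ˢ (univ : Finset (Fin (Rn n)))).image fun p : Vc n × Fin (Rn n) =>
        syn (fv n s) (AR n R (o + 2 * bl n)) j (ps (fv n s) p.1) ∆
          syn (fv n s) (AR n R (o + 2 * bl n)) j (HR n R (o + 2 * bl n) p.2)).card := by
    rw [← List.toFinset_card_of_nodup hnd]
    refine Finset.card_bij (fun c _ => ST n c.toNat) ?_ ?_ ?_
    · intro c hc
      obtain ⟨y, hy, i, rfl⟩ := (Q5_mem_ZZ R o hYL c).1 (GD.mem_dd.1 (List.mem_toFinset.1 hc))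
      rw [Int.toNat_natCast, ST_sy R _ s j y i (hY hy)]
      exact Finset.mem_image.2 ⟨(y, i), Finset.mem_product.2 ⟨hy, mem_univ _⟩, rfl⟩
    · intro c hc c' hc' h
      obtain ⟨y, hy, i, rfl⟩ := (Q5_mem_ZZ R o hYL c).1 (GD.mem_dd.1 (List.mem_toFinset.1 hc))
      obtain ⟨y', hy', i', rfl⟩ := (Q5_mem_ZZ R o hYL c').1 (GD.mem_dd.1 (List.mem_toFinset.1 hc'))
      rw [Int.toNat_natCast, Int.toNat_natCast] at h
      rw [SN.ST_inj (Q5_sy_lt _ _ _ _ _ _ _) (Q5_sy_lt _ _ _ _ _ _ _) h]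
    · intro σ hσ
      obtain ⟨⟨y, i⟩, hp, rfl⟩ := Finset.mem_image.1 hσ
      have hy : y ∈ Y := (Finset.mem_product.1 hp).1
      refine ⟨((sy n R (o + 2 * bl n) s j (cdv y).toNat i : ℕ) : ℤ), ?_, ?_⟩
      · rw [List.mem_toFinset, GD.mem_dd]
        exact (Q5_mem_ZZ R o hYL _).2 ⟨y, hy, i, rfl⟩
      · rw [Int.toNat_natCast, ST_sy R _ s j y i (hY hy)]
  rw [hG, rk_hi s hj, ← Finset.card_powerset, Cov_iff hY]
  have hsub : ((Y ×ˢ (univ : Finset (Fin (Rn n)))).image fun p : Vc n × Fin (Rn n) =>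
        syn (fv n s) (AR n R (o + 2 * bl n)) j (ps (fv n s) p.1) ∆
          syn (fv n s) (AR n R (o + 2 * bl n)) j (HR n R (o + 2 * bl n) p.2)) ⊆
      (hi (fv n s) j).powerset := by
    intro σ hσ
    obtain ⟨p, hp, rfl⟩ := Finset.mem_image.1 hσ
    rw [Finset.mem_powerset, ← syn_symmDiff]
    exact syn_sub _ _ _ _
  constructor
  · intro h σ hσ
    have h2 := Finset.eq_of_subset_of_card_le hsub h.ge
    rw [← h2] at hσ
    obtain ⟨p, hp, h3⟩ := Finset.mem_image.1 hσ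
    exact ⟨p.1, (Finset.mem_product.1 hp).1, p.2, h3.symm⟩
  · intro h
    congr 1
    refine Finset.Subset.antisymm hsub fun σ hσ => ?_
    obtain ⟨y, hy, i, h3⟩ := h σ hσ
    exact Finset.mem_image.2 ⟨(y, i), Finset.mem_product.2 ⟨hy, mem_univ _⟩, h3.symm⟩

end Pool.Agent.MPa9445a.GL
end
end

section

section

/-! Repetition, and all graphs at the same time. -/

set_option autoImplicit false

open Finset
open scoped symmDiff

namespace Pool.Agent.MPa9445a.SN

open Pool.Agent.MPa9445a.BE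

/-- PROOF. The number of functions `Fin k → Ω` with all values in a set `B` is `|B| ^ k` (`Fintype.card_pi`/`Fintype.piFinset`), `|B| ≤ |Ω| / 2`. -/
theorem rep {Ω : Type} [Fintype Ω] (B : Finset Ω) (h : 2 * B.card ≤ Fintype.card Ω) (k : ℕ)
    [DecidablePred fun f : Fin k → Ω => ∀ q, f q ∈ B] :
    (univ.filter fun f : Fin k → Ω => ∀ q, f q ∈ B).card * 2 ^ k ≤ Fintype.card Ω ^ k := by
  classical
  have h1 : (univ.filter fun f : Fin k → Ω => ∀ q, f q ∈ B) =
      Fintype.piFinset (fun _ : Fin k => B) := by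
    ext f
    simp [Fintype.mem_piFinset]
  have h2 : (univ.filter fun f : Fin k → Ω => ∀ q, f q ∈ B).card = B.card ^ k := by
    rw [h1, Fintype.card_piFinset, Finset.prod_const, Finset.card_univ, Fintype.card_fin]
  rw [h2, ← mul_pow, mul_comm B.card 2]
  exact Nat.pow_le_pow_left h k

end Pool.Agent.MPa9445a.SN
end

section

/-! Rounds, union bound, induction. -/

set_option autoImplicit false

open Finset

namespace Pool.Agent.MPa9445a.GL

variable {n : ℕ}

/-- PROOF. `Fintype.piFinset fun _ => {0, 1, -1, 2}`. -/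
theorem card_St (n : ℕ) : ∃ 𝒮 : Finset (Vc n), (∀ s, St s ↔ s ∈ 𝒮) ∧ 𝒮.card = 4 ^ n := by
  refine ⟨Fintype.piFinset fun _ => ({0, 1, -1, 2} : Finset ℤ), fun s => ?_, ?_⟩
  · rw [Fintype.mem_piFinset, St]
    refine forall_congr' fun v => ?_
    simp only [Finset.mem_insert, Finset.mem_singleton]
  · rw [Fintype.card_piFinset, Finset.prod_const, Finset.card_univ, Fintype.card_fin]
    rfl

private theorem H1_LL (n : ℕ) : LL n ≤ 2 ^ (4 * n + 1) := by
  have h1 : n < 2 ^ n := Nat.lt_two_pow_self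
  have h2 : n ^ 4 < (2 ^ n) ^ 4 := Nat.pow_lt_pow_left h1 (by norm_num)
  have h3 : (2 ^ n) ^ 4 = 2 ^ (4 * n) := by rw [← pow_mul, mul_comm]
  have h4 : 2 ^ (4 * n + 1) = 2 * 2 ^ (4 * n) := by rw [pow_succ, mul_comm]
  rw [h3] at h2
  rw [LL, h4]
  omega

theorem arith_Z (n : ℕ) : 4 ^ n * LL n * 2 ^ n * 2 ^ (2 * n ^ 2 + n + 15) ≤ 2 ^ Zn n := by
  have h1 := H1_LL n
  have h4 : 4 ^ n = 2 ^ (2 * n) := by
    rw [pow_mul]
    norm_num
  have h5 : Zn n = 2 * n + (4 * n + 1) + n + (2 * n ^ 2 + n + 15) := by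
    rw [Zn]
    ring
  rw [h5, h4]
  generalize 2 * n ^ 2 + n + 15 = X
  rw [pow_add 2 (2 * n + (4 * n + 1) + n) X, pow_add 2 (2 * n + (4 * n + 1)) n,
    pow_add 2 (2 * n) (4 * n + 1)]
  exact Nat.mul_le_mul_right _ (Nat.mul_le_mul_right _ (Nat.mul_le_mul_left _ h1))

open scoped Classical in
private theorem H1_one {W : Matrix (Fin n) (Fin n) ℤ} (hW : Wb W) {k : ℕ} {ω' : Sds n k}
    (hG : Good W k ω') (s : Vc n) (p : ℤ) (B : ℕ) (hs : St s) (hP : Par W s p)
    (hm : B < 2 ^ (Fr s).card)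
    (hq : ∃ q : ℝ, 1 ≤ q ∧ (pl n (k + 1) : ℝ) * max (γ (k + 1) ^ (Fr s).card) (T W s p q) ≤ B) :
    (univ.filter fun z : Sd n => ∀ i, ¬ ∃ a, Suc W (Ok W k ω') s p B (z i) a).card * 2 ^ Zn n ≤
      Fintype.card (Sd n) := by
  obtain ⟨q, hq1, hqB⟩ := hq
  have h1 := round hW hG hs hP hq1 hqB hm
  have h2 := Pool.Agent.MPa9445a.SN.rep (univ.filter fun ω : Rd n => ¬ ∃ a,
    Suc W (Ok W k ω') s p B ω a) h1 (Zn n)
  have h3 : Fintype.card (Sd n) = Fintype.card (Rd n) ^ Zn n := by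
    rw [Fintype.card_fun, Fintype.card_fin]
  rw [h3]
  refine le_trans (le_of_eq ?_) h2
  congr 2
  ext z
  simp only [Finset.mem_filter, Finset.mem_univ, true_and]

open scoped Classical in
/-- PROOF. If `z` is bad then there are a state `s`, a level `p` and `B < 2 ^ #Fr s ≤ 2 ^ n` with `Par W s p`, some `q` with the budget condition, and no round succeeds (`2 ^ #Fr s ≤ B` or `¬ Par` give `Ok`). For fixed `(s, p, B)` the number of such `z` is at most `#Sd / 2 ^ Zn n` (`round` and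
`SN.rep` with the set of the bad `ω : Rd n`). Sum over `4 ^ n * LL n * 2 ^ n` triples (`card_St`, `card_lvl`), `arith_Z`. -/
theorem good_step {W : Matrix (Fin n) (Fin n) ℤ} (hW : Wb W) {k : ℕ} {ω' : Sds n k}
    (hG : Good W k ω') :
    (univ.filter fun z : Sd n => ¬ Good W (k + 1) (ω', z)).card * 2 ^ (2 * n ^ 2 + n + 15) ≤
      Fintype.card (Sd n) := by
  obtain ⟨𝒮, h𝒮, hcard⟩ := card_St n
  let Q : Vc n × ℤ × ℕ → Prop := fun x => St x.1 ∧ Par W x.1 x.2.1 ∧ x.2.2 < 2 ^ (Fr x.1).card ∧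
    ∃ q : ℝ, 1 ≤ q ∧
      (pl n (k + 1) : ℝ) * max (γ (k + 1) ^ (Fr x.1).card) (T W x.1 x.2.1 q) ≤ (x.2.2 : ℕ)
  let F : Vc n × ℤ × ℕ → Finset (Sd n) := fun x =>
    if Q x then univ.filter fun z : Sd n => ∀ i, ¬ ∃ a, Suc W (Ok W k ω') x.1 x.2.1 x.2.2 (z i) a
    else ∅
  let I : Finset (Vc n × ℤ × ℕ) := 𝒮 ×ˢ (lvl n ×ˢ range (2 ^ n))
  have hI : I.card = 4 ^ n * LL n * 2 ^ n := by
    rw [Finset.card_product, Finset.card_product, hcard, card_lvl, Finset.card_range, mul_assoc]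
  have hF : ∀ x ∈ I, (F x).card * 2 ^ Zn n ≤ Fintype.card (Sd n) := by
    intro x _
    by_cases hx : Q x
    · have h1 : F x = univ.filter fun z : Sd n =>
          ∀ i, ¬ ∃ a, Suc W (Ok W k ω') x.1 x.2.1 x.2.2 (z i) a := if_pos hx
      rw [h1]
      exact H1_one hW hG x.1 x.2.1 x.2.2 hx.1 hx.2.1 hx.2.2.1 hx.2.2.2
    · have h1 : F x = ∅ := if_neg hx
      rw [h1, Finset.card_empty, Nat.zero_mul]
      exact Nat.zero_le _
  have hsub : (univ.filter fun z : Sd n => ¬ Good W (k + 1) (ω', z)) ⊆ I.biUnion F := by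
    intro z hz
    rw [Finset.mem_filter] at hz
    have hz2 : ¬ ∀ s, St s → ∀ p ∈ lvl n, ∀ (B : ℕ) (q : ℝ), 1 ≤ q →
        (pl n (k + 1) : ℝ) * max (γ (k + 1) ^ (Fr s).card) (T W s p q) ≤ B →
          Ok W (k + 1) (ω', z) s p B := hz.2
    push Not at hz2
    obtain ⟨s, hs, p, hp, B, q, hq1, hB, hOk⟩ := hz2
    have hOk2 : ¬ (2 ^ (Fr s).card ≤ B ∨ ¬ Par W s p ∨
      ∃ (z' : Fin (Zn n)) (a : Att), Suc W (Ok W k ω') s p B (z z') a) := hOk
    rw [not_or, not_or] at hOk2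
    obtain ⟨h1, h2, h3⟩ := hOk2
    have h1' : B < 2 ^ (Fr s).card := not_le.mp h1
    have h2' : Par W s p := not_not.mp h2
    have hFn : (Fr s).card ≤ n := by
      have := Finset.card_le_univ (Fr s)
      rwa [Fintype.card_fin] at this
    have hBn : B < 2 ^ n := lt_of_lt_of_le h1' (Nat.pow_le_pow_right (by norm_num) hFn)
    rw [Finset.mem_biUnion]
    refine ⟨(s, p, B), ?_, ?_⟩
    · rw [Finset.mem_product, Finset.mem_product, Finset.mem_range]
      exact ⟨(h𝒮 s).mp hs, hp, hBn⟩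
    · have hQ : Q (s, p, B) := ⟨hs, h2', h1', q, hq1, hB⟩
      have h4 : F (s, p, B) = univ.filter fun z : Sd n =>
          ∀ i, ¬ ∃ a, Suc W (Ok W k ω') s p B (z i) a := if_pos hQ
      rw [h4, Finset.mem_filter]
      refine ⟨Finset.mem_univ _, fun i hi => h3 ?_⟩
      obtain ⟨a, ha⟩ := hi
      exact ⟨i, a, ha⟩
  have hle : (univ.filter fun z : Sd n => ¬ Good W (k + 1) (ω', z)).card ≤ ∑ x ∈ I, (F x).card :=
    (Finset.card_le_card hsub).trans Finset.card_biUnion_le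
  have hsum : (∑ x ∈ I, (F x).card) * 2 ^ Zn n ≤ I.card * Fintype.card (Sd n) := by
    rw [Finset.sum_mul]
    calc ∑ x ∈ I, (F x).card * 2 ^ Zn n ≤ ∑ _x ∈ I, Fintype.card (Sd n) :=
          Finset.sum_le_sum hF
      _ = I.card * Fintype.card (Sd n) := by rw [Finset.sum_const, smul_eq_mul]
  have hpos : 0 < I.card := by
    rw [hI]
    have h1 : 0 < LL n := by
      rw [LL]
      omega
    positivity
  have hmain : (univ.filter fun z : Sd n => ¬ Good W (k + 1) (ω', z)).card *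
      2 ^ (2 * n ^ 2 + n + 15) * I.card ≤ Fintype.card (Sd n) * I.card := by
    calc (univ.filter fun z : Sd n => ¬ Good W (k + 1) (ω', z)).card *
      2 ^ (2 * n ^ 2 + n + 15) * I.card
        = (univ.filter fun z : Sd n => ¬ Good W (k + 1) (ω', z)).card *
          (4 ^ n * LL n * 2 ^ n * 2 ^ (2 * n ^ 2 + n + 15)) := by
          rw [hI]
          ring
      _ ≤ (univ.filter fun z : Sd n => ¬ Good W (k + 1) (ω', z)).card * 2 ^ Zn n :=
          Nat.mul_le_mul_left _ (arith_Z n)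
      _ ≤ (∑ x ∈ I, (F x).card) * 2 ^ Zn n := Nat.mul_le_mul_right _ hle
      _ ≤ I.card * Fintype.card (Sd n) := hsum
      _ = Fintype.card (Sd n) * I.card := mul_comm _ _
  exact Nat.le_of_mul_le_mul_right hmain hpos

end Pool.Agent.MPa9445a.GL
end
end

section

section

/-! An attempt: the list `Y`. -/

set_option autoImplicit false

open Finset
open scoped symmDiff

namespace Pool.Agent.MPa9445a.GL

open Pool.Agent.MPa9445a.BE
open Pool.Agent.MPa9445a.SN (ST Fm rs kb)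
open Pool.Agent.MPa9445a.GD (dd)

variable {n : ℕ} {M : List ℤ} {E : Pc}

/-- PROOF. `fv_prL`, `fv_sv`, `vc_mem` (`A1`), `Res_pre` (`A1b`). -/
theorem rL_res (R : List ℤ) (o : ℕ) {s : List ℤ} (hs : St (fv n s)) (b : ℕ) (a : At) :
    Res (fv n s) (fv n (rL n M R o s b a)) := by
  unfold rL
  rw [fv_prL, fv_sv]
  exact Res_pre (vc_mem _ _) _

/-- PROOF. `gt` of `flt`; `ST_rc`, `fv_sv`, `fv_prL`: if `κ` is the sample number `x` of the list then the state is `pre s (xk s ω κ) i`. -/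
theorem rL_eq (R : List ℤ) (o : ℕ) (s : List ℤ) (b : ℕ) (a : At) {κ : ℕ}
    (hκ : gt (YS n M R o s b a.t) a.x = (κ : ℤ)) :
    fv n (rL n M R o s b a) = pre (fv n s) (xk (fv n s) (fR n R o) κ) a.i := by
  unfold rL
  rw [fv_prL, fv_sv, hκ, Int.toNat_natCast, ST_rc]
  rfl

/-- The elements of `Y`. PROOF. `mem_run` with `s = r`, `p = q = t`; `ST_dk`, `ST_rc`; `fl D y ∈ S r` for `D ⊆ Fr r`. -/
theorem mem_YY (hE : Snd (wtm n M) E) (hW : Wb (wtm n M)) (R : List ℤ) (o : ℕ) {r : List ℤ}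
    (hr : St (fv n r)) {t : ℤ} {b e : ℕ} (h : (YY E n M R o r b t e).length ≠ 0) (c : ℤ) :
    c ∈ tl (YY E n M R o r b t e) ↔
      ∃ y ∈ Yl (wtm n M) (fv n r) t (fR n R (o + bl n)) (2 ^ e), cdv y = c := by
  have hD : ∀ κ : ℕ, ST n (dk n r (rc n R (o + bl n) κ)) = Dk (fv n r) (fR n R (o + bl n)) κ := by
    intro κ
    rw [ST_dk, ST_rc]
    rfl
  have hd : ∀ κ < 2 ^ e, ST n ((fun κ => dk n r (rc n R (o + bl n) κ)) κ) ⊆ Fr (fv n r) := by
    intro κ _
    show ST n (dk n r (rc n R (o + bl n) κ)) ⊆ Fr (fv n r)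
    rw [ST_dk]
    exact Finset.inter_subset_right
  have hm := mem_run (E := E) (M := M) hE hW (s := r) (r := r) hr (Res_refl _) (K := 2 ^ e)
    (d := fun κ => dk n r (rc n R (o + bl n) κ)) hd (p := t) (t := t) (q := t) (by ring) (b := b) h c
  have hm' : c ∈ tl (YY E n M R o r b t e) ↔ ∃ x ∈ Lv (wtm n M) (fv n r) t, cdv x = c ∧
      ∃ κ < 2 ^ e, fl (ST n (dk n r (rc n R (o + bl n) κ))) x ∈ Lv (wtm n M) (fv n r) t := hm
  rw [hm']
  constructor
  · rintro ⟨x, hx, hc, κ, hκ, hf⟩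
    refine ⟨x, ?_, hc⟩
    rw [hD κ] at hf
    exact Finset.mem_filter.2 ⟨hx, κ, hκ, (Finset.mem_filter.1 hf).2⟩
  · rintro ⟨x, hx, hc⟩
    obtain ⟨hx1, κ, hκ, hx2⟩ := Finset.mem_filter.1 hx
    refine ⟨x, hx1, hc, κ, hκ, ?_⟩
    rw [hD κ]
    exact Finset.mem_filter.2 ⟨fl_mem Finset.inter_subset_right (Finset.mem_filter.1 hx1).1, hx2⟩

end Pool.Agent.MPa9445a.GL
end

section

/-! An attempt: the main list. -/

set_option autoImplicit false

open Finset
open scoped symmDiff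

namespace Pool.Agent.MPa9445a.GL

open Pool.Agent.MPa9445a.BE
open Pool.Agent.MPa9445a.SN (ST Fm rs kb)
open Pool.Agent.MPa9445a.GD (dd)

variable {n : ℕ} {M : List ℤ} {E : Pc}

/-- The elements of the main list, if the cover is complete: all solutions. PROOF. `mem_run` with `K = 2 ^ rk s j * Rn n` (`κ / Rn n`, `κ % Rn n`),
`ST_dw`, `ST_wc_sub`: all `Dw`, `w ⊆ lo` (`wc_surj`, `Q1f`). For `x ∈ Lv s p` there are by `Cov` `y ∈ Y ⊆ Lv r t`, `w`, `i` with `x = fl D y`, so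
`fl D x = y`. -/
theorem mem_HH (hE : Snd (wtm n M) E) (hW : Wb (wtm n M)) (R : List ℤ) (o : ℕ) {s r : List ℤ}
    (hs : St (fv n s)) (hr : Res (fv n s) (fv n r)) {p t : ℤ} (hp : (p + t) % 2 = 0) {b j : ℕ}
    (hj : j ≤ n) {Y : Finset (Vc n)} (hY : Y ⊆ Lv (wtm n M) (fv n r) t)
    (hc : Cov (fv n s) (AR n R (o + 2 * bl n)) (HR n R (o + 2 * bl n)) j Y)
    (h : (HH E n M R o s r p b t j).length ≠ 0) (c : ℤ) :
    c ∈ tl (HH E n M R o s r p b t j) ↔ ∃ x ∈ Lv (wtm n M) (fv n s) p, cdv x = c := by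
  have hRn : 0 < Rn n := by
    unfold Rn
    omega
  have key : ∀ (u : ℕ) (i : Fin (Rn n)),
      ST n (dw n R (o + 2 * bl n) s j (wc n s j u) i) =
        Dw (fv n s) (AR n R (o + 2 * bl n)) (HR n R (o + 2 * bl n)) j (ST n (wc n s j u)) i :=
    fun u i => ST_dw R (o + 2 * bl n) s j (wc n s j u) i (ST_wc_sub s j u)
  have hd : ∀ κ < 2 ^ rk s j * Rn n,
      ST n ((fun κ => dw n R (o + 2 * bl n) s j (wc n s j (κ / Rn n)) (κ % Rn n)) κ) ⊆
        Fr (fv n s) := by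
    intro κ _
    have h1 := key (κ / Rn n) ⟨κ % Rn n, Nat.mod_lt _ hRn⟩
    have h2 : ST n (dw n R (o + 2 * bl n) s j (wc n s j (κ / Rn n)) (κ % Rn n)) =
        Dw (fv n s) (AR n R (o + 2 * bl n)) (HR n R (o + 2 * bl n)) j
          (ST n (wc n s j (κ / Rn n))) ⟨κ % Rn n, Nat.mod_lt _ hRn⟩ := h1
    show ST n (dw n R (o + 2 * bl n) s j (wc n s j (κ / Rn n)) (κ % Rn n)) ⊆ Fr (fv n s)
    rw [h2]
    exact Dw_sub (Finset.mem_powerset.2 (ST_wc_sub s j _)) _
  have hq : p + t = 2 * ((p + t) / 2) := by omega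
  have hrun := mem_run (M := M) (E := E) hE hW hs hr (K := 2 ^ rk s j * Rn n)
    (d := fun κ => dw n R (o + 2 * bl n) s j (wc n s j (κ / Rn n)) (κ % Rn n)) hd hq (b := b) h c
  constructor
  · intro hc'
    obtain ⟨x, hx, hxc, _⟩ := hrun.1 hc'
    exact ⟨x, hx, hxc⟩
  · rintro ⟨x, hx, hxc⟩
    refine hrun.2 ⟨x, hx, hxc, ?_⟩
    have hxS : x ∈ S (fv n s) := (Finset.mem_filter.1 hx).1
    obtain ⟨y, hy, w, hw, i, hxy⟩ := hc x hxS
    obtain ⟨u, hu, huw⟩ := wc_surj s hj (Finset.mem_powerset.1 hw)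
    refine ⟨u * Rn n + i, ?_, ?_⟩
    · have h1 : u + 1 ≤ 2 ^ rk s j := hu
      calc u * Rn n + i < u * Rn n + Rn n := Nat.add_lt_add_left i.2 _
        _ = (u + 1) * Rn n := by ring
        _ ≤ 2 ^ rk s j * Rn n := Nat.mul_le_mul_right _ h1
    · have h2 : (u * Rn n + (i : ℕ)) / Rn n = u := by
        rw [Nat.add_comm, Nat.add_mul_div_right _ _ hRn, Nat.div_eq_of_lt i.2, zero_add]
      have h3 : (u * Rn n + (i : ℕ)) % Rn n = i := by
        rw [Nat.add_comm, Nat.add_mul_mod_self_right, Nat.mod_eq_of_lt i.2]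
      show fl (ST n (dw n R (o + 2 * bl n) s j (wc n s j ((u * Rn n + (i : ℕ)) / Rn n))
        ((u * Rn n + (i : ℕ)) % Rn n))) x ∈ Lv (wtm n M) (fv n r) t
      rw [h2, h3, key u i, huw, hxy, fl_fl]
      exact hY hy

end Pool.Agent.MPa9445a.GL
end

section

/-! Induction on the depth. -/

set_option autoImplicit false

open Finset

namespace Pool.Agent.MPa9445a.GL

open Pool.Agent.MPa9445a.SN (Fm rs kb)

variable {n : ℕ}

/-- PROOF. `pl n 0 = 1`, `γ 0 = 2`. -/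
theorem good_zero (W : Matrix (Fin n) (Fin n) ℤ) (ω : Sds n 0) : Good W 0 ω := by
  intro s _ p _ B q _ h
  change 2 ^ (Fr s).card ≤ B
  have h1 : ((2 : ℝ)) ^ (Fr s).card ≤ B := by
    have h2 : (pl n 0 : ℝ) * max (γ 0 ^ (Fr s).card) (T W s p q) = max (γ 0 ^ (Fr s).card) (T W s p q) := by
      have h3 : (pl n 0 : ℝ) = 1 := by
        change ((1 : ℕ) : ℝ) = 1
        exact Nat.cast_one
      rw [h3, one_mul]
    rw [h2] at h
    exact (le_max_left _ _).trans h
  exact_mod_cast h1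

open scoped Classical in
/-- PROOF. Induction: `Sds.filter_succ`, `Sds.card_succ`, `good_step` for the good `ω'`. -/
theorem good_bad {W : Matrix (Fin n) (Fin n) ℤ} (hW : Wb W) (k : ℕ) :
    (univ.filter fun ω : Sds n k => ¬ Good W k ω).card * 2 ^ (2 * n ^ 2 + n + 15) ≤
      k * Fintype.card (Sds n k) := by
  induction k with
  | zero =>
    have h : (univ.filter fun ω : Sds n 0 => ¬ Good W 0 ω) = ∅ := by
      rw [Finset.filter_eq_empty_iff]
      intro ω _ hω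
      exact hω (good_zero W ω)
    rw [h, Finset.card_empty, zero_mul]
    exact Nat.zero_le _
  | succ k ih =>
    have e : (univ.filter fun ω : Sds n (k + 1) => ¬ Good W (k + 1) ω).card =
        ∑ ω : Sds n k, (univ.filter fun z : Sd n => ¬ Good W (k + 1) (ω, z)).card := by
      convert Sds.filter_succ n k (fun ω => ¬ Good W (k + 1) ω)
    rw [e, Sds.card_succ, Finset.sum_mul]
    have hstep : ∀ ω : Sds n k, (univ.filter fun z : Sd n => ¬ Good W (k + 1) (ω, z)).card * 2 ^ (2 * n ^ 2 + n + 15) ≤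
        (if ¬ Good W k ω then Fintype.card (Sd n) * 2 ^ (2 * n ^ 2 + n + 15) else 0) + Fintype.card (Sd n) := by
      intro ω
      by_cases hG : Good W k ω
      · rw [if_neg (not_not.2 hG), zero_add]
        exact good_step hW hG
      · rw [if_pos hG]
        refine le_trans ?_ (Nat.le_add_right _ _)
        refine Nat.mul_le_mul_right _ ?_
        exact Finset.card_le_univ _
    refine (Finset.sum_le_sum fun ω _ => hstep ω).trans ?_
    rw [Finset.sum_add_distrib, ← Finset.sum_filter, Finset.sum_const, Finset.sum_const, smul_eq_mul, smul_eq_mul,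
      Finset.card_univ]
    calc (univ.filter fun ω : Sds n k => ¬ Good W k ω).card * (Fintype.card (Sd n) * 2 ^ (2 * n ^ 2 + n + 15)) +
          Fintype.card (Sds n k) * Fintype.card (Sd n)
        = ((univ.filter fun ω : Sds n k => ¬ Good W k ω).card * 2 ^ (2 * n ^ 2 + n + 15)) * Fintype.card (Sd n) +
          Fintype.card (Sds n k) * Fintype.card (Sd n) := by ring
      _ ≤ (k * Fintype.card (Sds n k)) * Fintype.card (Sd n) + Fintype.card (Sds n k) * Fintype.card (Sd n) :=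
          Nat.add_le_add_right (Nat.mul_le_mul_right _ ih) _
      _ = (k + 1) * (Fintype.card (Sds n k) * Fintype.card (Sd n)) := by ring

end Pool.Agent.MPa9445a.GL
end

section

/-! The top level. -/

set_option autoImplicit false

open Finset

namespace Pool.Agent.MPa9445a.GL

open Pool.Agent.MPa9445a.SN (Fm rs kb)

variable {n : ℕ}

/-- All vertices are free. -/
def s0 (n : ℕ) : Vc n := fun _ => 2

theorem St_s0 (n : ℕ) : St (s0 n) := fun _ => Or.inr (Or.inr (Or.inr rfl))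

theorem card_s0 (n : ℕ) : (Fr (s0 n)).card = n := by
  have h : Fr (s0 n) = univ := by
    ext v
    rw [mem_Fr]
    simp [s0]
  rw [h, card_univ, Fintype.card_fin]

/-- The run of the algorithm is short: the levels above the maximum are certified to be empty, and the maximum is listed or sampled (with
the random bits of the last depth). -/
def TopOk (W : Matrix (Fin n) (Fin n) ℤ) (k : ℕ) (B : ℕ) (ω : Sds n (k + 1)) : Prop :=
  ∀ p ∈ lvl n, (∀ x ∈ S (s0 n), Ph W x ≤ p) →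
    Ok W (k + 1) ω (s0 n) p B ∨ ∃ z, ∃ κ < B, Ph W (xk (s0 n) (ω.2 z).1 κ) = p

/-- PROOF. `T_empty`, `Good`. -/
theorem top_empty {W : Matrix (Fin n) (Fin n) ℤ} {k : ℕ} {ω : Sds n k} (hG : Good W k ω) {p : ℤ}
    (hp : p ∈ lvl n) (h : ∀ x ∈ S (s0 n), Ph W x < p) {B : ℕ} (hB : (pl n k : ℝ) * γ k ^ n ≤ B) :
    Ok W k ω (s0 n) p B := by
  obtain ⟨q, hq, hT⟩ := T_empty W h
  refine hG (s0 n) (St_s0 n) p hp B q hq ?_
  rw [card_s0]
  have h1 : (1 : ℝ) ≤ γ k ^ n := one_le_pow₀ (γ_one k)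
  rw [max_eq_left (hT.trans h1)]
  exact hB

/-- PROOF. `T_small` with `ε = γ k ^ n - #Lv`, `Good`. -/
theorem top_few {W : Matrix (Fin n) (Fin n) ℤ} {k : ℕ} {ω : Sds n k} (hG : Good W k ω) {p : ℤ}
    (hp : p ∈ lvl n) (h : ∀ x ∈ S (s0 n), Ph W x ≤ p)
    (hN : ((Lv W (s0 n) p).card : ℝ) < γ k ^ n) {B : ℕ} (hB : (pl n k : ℝ) * γ k ^ n ≤ B) :
    Ok W k ω (s0 n) p B := by
  obtain ⟨q, hq, hT⟩ := T_small W h (ε := γ k ^ n - (Lv W (s0 n) p).card) (by linarith)
  refine hG (s0 n) (St_s0 n) p hp B q hq ?_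
  rw [card_s0]
  have h1 : T W (s0 n) p q ≤ γ k ^ n := by linarith
  rw [max_eq_left h1]
  exact hB

private theorem U1_pl (n k : ℕ) : 1 ≤ pl n k := by
  induction k with
  | zero => exact le_rfl
  | succ k ih =>
    have h1 : 1 ≤ (n + 2) ^ 60 := Nat.one_le_pow _ _ (by omega)
    have h2 : 1 ≤ 2 ^ 20 * (n + 2) ^ 60 := Nat.mul_pos (by norm_num) h1
    change 1 ≤ 2 ^ 20 * (n + 2) ^ 60 * pl n k
    exact Nat.mul_pos h2 ih

private theorem U1_pl2 (n k : ℕ) : 2 ≤ pl n (k + 1) := by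
  have h1 : 1 ≤ (n + 2) ^ 60 := Nat.one_le_pow _ _ (by omega)
  have h2 := U1_pl n k
  have h3 : 2 ^ 20 * 1 * 1 ≤ 2 ^ 20 * (n + 2) ^ 60 * pl n k :=
    Nat.mul_le_mul (Nat.mul_le_mul le_rfl h1) h2
  change 2 ≤ 2 ^ 20 * (n + 2) ^ 60 * pl n k
  refine le_trans ?_ h3
  norm_num

private theorem U1_arith {n P L B : ℕ} {g : ℝ} (hP : 2 ≤ P) (hg : 2 ≤ g ^ 2) (hg1 : 1 ≤ g)
    (hN : g ^ n ≤ (L : ℝ)) (hB : (P : ℝ) * g ^ n ≤ B) : 2 * 2 ^ n ≤ B * L := by
  have h4 : ((2 * 2 ^ n : ℕ) : ℝ) ≤ ((B * L : ℕ) : ℝ) := by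
    push_cast
    have h5 : (2 : ℝ) ≤ (P : ℝ) := by exact_mod_cast hP
    have h7 : (2 : ℝ) ^ n ≤ (g ^ 2) ^ n := pow_le_pow_left₀ (by norm_num) hg n
    have h8 : 0 ≤ g ^ n := by positivity
    have h9 : (0 : ℝ) ≤ (P : ℝ) := Nat.cast_nonneg P
    have h10 : (0 : ℝ) ≤ (2 : ℝ) ^ n := by positivity
    have h11 : (0 : ℝ) ≤ (B : ℝ) := Nat.cast_nonneg B
    calc (2 : ℝ) * 2 ^ n ≤ (P : ℝ) * (g ^ 2) ^ n := mul_le_mul h5 h7 h10 h9
      _ = ((P : ℝ) * g ^ n) * g ^ n := by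
          rw [← pow_mul, mul_comm 2 n, pow_mul]; ring
      _ ≤ (B : ℝ) * (L : ℝ) := mul_le_mul hB hN h8 h11
  exact_mod_cast h4

/-- PROOF. `SN.hit` with `𝒮 = {X | vc (s0 n) X ∈ Lv}` (`card_vc`), `I = B`: `B * N ≥ pl * γ ^ (2 n) ≥ 2 * 2 ^ n` (`two_le_γ_sq`). -/
theorem top_many {W : Matrix (Fin n) (Fin n) ℤ} {k : ℕ} {p : ℤ}
    (hN : γ (k + 1) ^ n ≤ (Lv W (s0 n) p).card) {B : ℕ}
    (hB : (pl n (k + 1) : ℝ) * γ (k + 1) ^ n ≤ B) (hn : B < 2 ^ n) :
    2 * (univ.filter fun ω : Fm n => ¬ ∃ κ < B, Ph W (xk (s0 n) ω κ) = p).card ≤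
      Fintype.card (Fm n) := by
  classical
  obtain ⟨𝒮, h𝒮⟩ : ∃ 𝒮 : Finset (Finset (Fin n)), 𝒮 = univ.filter fun X => vc (s0 n) X ∈ Lv W (s0 n) p := ⟨_, rfl⟩
  have hkb : B ≤ 2 ^ kb n := by
    refine hn.le.trans (Nat.pow_le_pow_right (by norm_num) ?_)
    unfold kb
    omega
  have h1 := SN.hit 𝒮 hkb
  have h2 : 𝒮.card = (Lv W (s0 n) p).card := by
    have h3 := card_vc (s := s0 n) (𝒢 := Lv W (s0 n) p) (Finset.filter_subset _ _)
    rw [card_s0, ← h𝒮, mul_comm] at h3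
    exact Nat.eq_of_mul_eq_mul_left (by positivity) h3
  have h3 : 2 * 2 ^ n ≤ B * 𝒮.card := by
    rw [h2]
    exact U1_arith (U1_pl2 n k) (two_le_γ_sq k) (γ_one (k + 1)) hN hB
  have h4 : (univ.filter fun ω : Fm n => ¬ ∃ κ < B, Ph W (xk (s0 n) ω κ) = p).card ≤
      (univ.filter fun ω : Fm n => ∀ i < B, rs ω i ∉ 𝒮).card := by
    apply Finset.card_le_card
    intro ω hω
    rw [Finset.mem_filter] at hω ⊢
    refine ⟨mem_univ _, fun i hi hmem => hω.2 ⟨i, hi, ?_⟩⟩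
    rw [h𝒮, Finset.mem_filter] at hmem
    exact (Finset.mem_filter.1 hmem.2).2
  have h5 : (univ.filter fun ω : Fm n => ∀ i < B, rs ω i ∉ 𝒮).card * (2 * 2 ^ n) ≤
      Fintype.card (Fm n) * 2 ^ n := (Nat.mul_le_mul_left _ h3).trans h1
  have h6 : 2 * (univ.filter fun ω : Fm n => ∀ i < B, rs ω i ∉ 𝒮).card ≤ Fintype.card (Fm n) := by
    have h7 : (0 : ℕ) < 2 ^ n := by positivity
    refine Nat.le_of_mul_le_mul_right ?_ h7
    calc 2 * (univ.filter fun ω : Fm n => ∀ i < B, rs ω i ∉ 𝒮).card * 2 ^ n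
        = (univ.filter fun ω : Fm n => ∀ i < B, rs ω i ∉ 𝒮).card * (2 * 2 ^ n) := by ring
      _ ≤ Fintype.card (Fm n) * 2 ^ n := h5
  exact (Nat.mul_le_mul_left 2 h4).trans h6

end Pool.Agent.MPa9445a.GL
end
end
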