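import Pool.Agent.Lib.MP_a9445a_lc.Mg.G108
import Pool.Agent.Lib.MP_a9445a_lc.SX.V5
import Pool.Agent.Lib.MP_a9445a_lc.Mg.G099
import Pool.Agent.Lib.MP_a9445a_lc.Mg.G109
import Pool.Agent.Lib.MP_a9445a_lc.Mg.G135
import Pool.Agent.Lib.MP_a9445a_lc.Mg.G136
import Pool.Agent.Lib.MP_a9445a_lc.Mg.G107
import Pool.Agent.Lib.MP_a9445a_lc.GL.Fin

section

/-! Almost all arrays of random bits are good for all graphs. -/

set_option autoImplicit false
set_option synthInstance.maxSize 1000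

open Finset
open scoped symmDiff

namespace Pool.Agent.MPa9445a.SX

open Pool.Agent.MPa9445a.BE
open Pool.Agent.MPa9445a.SN (ST Fm rs kb rb)
open Pool.Agent.MPa9445a.GL (Vc S Ph fR bl SR Sds Lk SR_bij Good good_bad Wb_of)
open Pool.Agent.MPa9445a.GS (oT oH oF Rz RB)
open Pool.Agent.MPa9445a.SB (Rf Hm Om ev Lev PK GO TW Win lg)

variable {n : ℕ}

private theorem V4_card (n : ℕ) : Fintype.card (SimpleGraph (Fin n)) ≤ 2 ^ n ^ 2 := by
  classical
  have hinj : Function.Injective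
      (fun (G : SimpleGraph (Fin n)) (p : Fin n × Fin n) => decide (G.Adj p.1 p.2)) := by
    intro G G' h
    ext u v
    have h1 := congrFun h (u, v)
    simp only at h1
    rw [decide_eq_decide] at h1
    exact h1
  refine (Fintype.card_le_of_injective _ hinj).trans (le_of_eq ?_)
  rw [Fintype.card_fun, Fintype.card_prod, Fintype.card_fin, Fintype.card_bool, sq]

open scoped Classical in
private theorem V4_good {ι : Type} [Fintype ι] (hι : Fintype.card ι ≤ 2 ^ n ^ 2)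
    (W : ι → Matrix (Fin n) (Fin n) ℤ) (hW : ∀ i, GL.Wb (W i)) :
    (univ.filter fun ω : Sds n 8 => ∃ i, ¬ Good (W i) 8 ω).card * 2 ^ (n ^ 2 + 1) ≤
      Fintype.card (Sds n 8) := by
  have hsub : (univ.filter fun ω : Sds n 8 => ∃ i, ¬ Good (W i) 8 ω) ⊆
      (univ : Finset ι).biUnion fun i => univ.filter fun ω : Sds n 8 => ¬ Good (W i) 8 ω := by
    intro ω hω
    rw [Finset.mem_filter] at hω
    obtain ⟨i, hi⟩ := hω.2
    rw [Finset.mem_biUnion]
    exact ⟨i, Finset.mem_univ _, Finset.mem_filter.2 ⟨Finset.mem_univ _, hi⟩⟩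
  have h1 : (univ.filter fun ω : Sds n 8 => ∃ i, ¬ Good (W i) 8 ω).card ≤
      ∑ i : ι, (univ.filter fun ω : Sds n 8 => ¬ Good (W i) 8 ω).card :=
    (Finset.card_le_card hsub).trans Finset.card_biUnion_le
  have h2 : (∑ i : ι, (univ.filter fun ω : Sds n 8 => ¬ Good (W i) 8 ω).card) *
      2 ^ (2 * n ^ 2 + n + 15) ≤ Fintype.card ι * (8 * Fintype.card (Sds n 8)) := by
    rw [Finset.sum_mul]
    calc _ ≤ ∑ _i : ι, 8 * Fintype.card (Sds n 8) :=
          Finset.sum_le_sum fun i _ => good_bad (hW i) 8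
      _ = _ := by rw [Finset.sum_const, Finset.card_univ, smul_eq_mul]
  have h3 : 2 ^ (n ^ 2 + 1) * (2 ^ n ^ 2 * 8) ≤ 2 ^ (2 * n ^ 2 + n + 15) := by
    have e : 2 ^ (n ^ 2 + 1) * (2 ^ n ^ 2 * 8) = 2 ^ (2 * n ^ 2 + 4) := by
      rw [show (8 : ℕ) = 2 ^ 3 by norm_num, ← pow_add, ← pow_add]
      congr 1
      ring
    rw [e]
    exact Nat.pow_le_pow_right (by norm_num) (by omega)
  refine Nat.le_of_mul_le_mul_right ?_ (show 0 < 2 ^ n ^ 2 * 8 by positivity)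
  calc (univ.filter fun ω : Sds n 8 => ∃ i, ¬ Good (W i) 8 ω).card *
        2 ^ (n ^ 2 + 1) * (2 ^ n ^ 2 * 8)
      ≤ (univ.filter fun ω : Sds n 8 => ∃ i, ¬ Good (W i) 8 ω).card *
        2 ^ (2 * n ^ 2 + n + 15) := by
        rw [mul_assoc]
        exact Nat.mul_le_mul_left _ h3
    _ ≤ (∑ i : ι, (univ.filter fun ω : Sds n 8 => ¬ Good (W i) 8 ω).card) *
        2 ^ (2 * n ^ 2 + n + 15) := Nat.mul_le_mul_right _ h1
    _ ≤ Fintype.card ι * (8 * Fintype.card (Sds n 8)) := h2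
    _ ≤ 2 ^ n ^ 2 * (8 * Fintype.card (Sds n 8)) := Nat.mul_le_mul_right _ hι
    _ = Fintype.card (Sds n 8) * (2 ^ n ^ 2 * 8) := by ring

open scoped Classical in
/-- Almost all arrays of random bits are good for all graphs: the golden procedure is good, and one of the
repetitions finds a maximum. -/
theorem fin_count (PA PB : Lev) (hA : PK PA 4140 1330320) (hMA : SB.MB PA) (hB : PK PB 3550 1203715)
    (hMB : SB.MB PB) : ∃ (c n₀ : ℕ), ∀ n ≥ n₀, ∀ M : SimpleGraph (Fin n) → List ℤ,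
    (∀ G, fm n (M G) = adjZ G) →
    (univ.filter fun ρ : Fin (Lb n) → Bool => ¬ ∀ G : SimpleGraph (Fin n),
      GO (wtm n (M G)) (GoR n (M G) (rb (bG n ρ))) ∧
      ∃ z : Fin (NR n), ∃ x ∈ S (SB.bl (univ : Finset (Fin n))),
        (∀ y ∈ S (SB.bl (univ : Finset (Fin n))),
          Ph (wtm n (M G)) y ≤ Ph (wtm n (M G)) x) ∧
        TW (hR n (Rz n (rb ρ) z)) ≤ 2 ^ (SB.g0 n + c * lg n) ∧
        Win (wtm n (M G)) (GoR n (M G) (rb (bG n ρ))) (hR n (Rz n (rb ρ) z))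
          (phR n (Rz n (rb ρ) z)) PA PB (SB.g0 n + c * lg n) (omA n (Rz n (rb ρ) z)) x).card *
      2 ^ n ^ 2 ≤ 2 ^ Lb n := by
  obtain ⟨c, n₁, hb⟩ := SB.block2 PA PB hA hMA hB hMB
  refine ⟨c, max n₁ 1, fun n hn M hM => ?_⟩
  have hn1 : n₁ ≤ n := (le_max_left _ _).trans hn
  have hn0 : 0 < n := (le_max_right _ _).trans hn
  obtain ⟨e, he⟩ : ∃ e : (Fin (Lk n 8) → Bool) ≃ Sds n 8, ∀ ρ, e ρ = SR n (rb ρ) 8 :=
    ⟨Equiv.ofBijective _ (SR_bij n 8), fun ρ => rfl⟩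
  have hSR : ∀ ωG : Sds n 8, SR n (rb (e.symm ωG)) 8 = ωG := by
    intro ωG
    rw [← he, Equiv.apply_symm_apply]
  have hWb : ∀ G, GL.Wb (wtm n (M G)) := fun G => Wb_of (hM G)
  obtain ⟨win, hwin⟩ : ∃ win : SimpleGraph (Fin n) → Sds n 8 → Hm n (SB.Rc n) → Om n → Prop,
      win = fun G ωG h ω => ∃ x ∈ S (SB.bl (univ : Finset (Fin n))),
        (∀ y ∈ S (SB.bl (univ : Finset (Fin n))),
          Ph (wtm n (M G)) y ≤ Ph (wtm n (M G)) x) ∧
        TW h ≤ 2 ^ (SB.g0 n + c * lg n) ∧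
        Win (wtm n (M G)) (GoR n (M G) (rb (e.symm ωG))) h (phH h) PA PB
          (SB.g0 n + c * lg n) ω x := ⟨_, rfl⟩
  have h1 := SB.total (R := SB.Rc n) (V4_card n) (⟨n - 1, by omega⟩ : Fin n)
    (fun G ωG => Good (wtm n (M G)) 8 ωG)
    (V4_good (V4_card n) (fun G => wtm n (M G)) hWb) win (by
      intro G ωG hg
      obtain ⟨x, hx, hx2⟩ := Finset.exists_max_image (S (SB.bl (univ : Finset (Fin n))))
        (fun y => Ph (wtm n (M G)) y) ⟨fun _ => 1, by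
          rw [mem_Sbl]
          intro v
          simp⟩
      have hgo : GO (wtm n (M G)) (GoR n (M G) (rb (e.symm ωG))) := by
        refine GO_GoR (hWb G) ?_
        rw [hSR]
        exact hg
      have h2 := hb n hn1 (wtm n (M G)) (GoR n (M G) (rb (e.symm ωG))) (hWb G) hgo
        (fun h => phH h) (fun h Q => fib_phH h Q) x hx hx2
      refine le_trans (Nat.mul_le_mul_right _ (Finset.card_le_card fun z hz => ?_)) h2
      rw [Finset.mem_filter] at hz ⊢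
      refine ⟨hz.1, fun h3 => hz.2 ?_⟩
      rw [hwin]
      exact ⟨x, hx, hx2, h3.1, h3.2⟩)
  rw [wA_card] at h1
  obtain ⟨P, hP⟩ : ∃ P : Sds n 8 × (Fin (SB.Nr n) → Hm n (SB.Rc n) × Om n) → Prop,
      P = fun z => ∃ i, ¬ (Good (wtm n (M i)) 8 z.1 ∧
        ∃ j, win i z.1 (fun r => ev ⟨n - 1, by omega⟩ ((z.2 j).1 r)) (z.2 j).2) := ⟨_, rfl⟩
  have h0 : (univ.filter fun ρ : Fin (Lb n) → Bool => P (wA n ρ)).card * 2 ^ n ^ 2 ≤ 2 ^ Lb n := by
    rw [card_wA, hP]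
    refine le_trans (Nat.mul_le_mul_right _ (le_of_eq ?_)) h1
    congr 1
    exact Finset.filter_congr_decidable _ _ _
  refine le_trans (Nat.mul_le_mul_right _ (Finset.card_le_card fun ρ hρ => ?_)) h0
  rw [Finset.mem_filter] at hρ ⊢
  refine ⟨Finset.mem_univ _, ?_⟩
  rw [hP]
  by_contra hc
  push Not at hc
  refine hρ.2 fun G => ?_
  obtain ⟨h3, j, h4⟩ := hc G
  have h5 : e.symm (SR n (rb (bG n ρ)) 8) = bG n ρ := by
    rw [Equiv.symm_apply_eq, he]
    rfl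
  refine ⟨GO_GoR (hWb G) h3, j, ?_⟩
  rw [hwin] at h4
  obtain ⟨x, hx, hx2, h6, h7⟩ := h4
  have h8 : (fun r => ev ⟨n - 1, by omega⟩ ((((wA n ρ).2 j).1) r)) = hR n (Rz n (rb ρ) j) := by
    rw [hR_rb, hR_wz hn0]
    rfl
  have h9 : ((wA n ρ).2 j).2 = omA n (Rz n (rb ρ) j) := by
    rw [omA_rb, omA_wz]
    rfl
  have h10 : (wA n ρ).1 = SR n (rb (bG n ρ)) 8 := rfl
  rw [h8] at h6
  rw [h8, h9, h10, h5] at h7
  refine ⟨x, hx, hx2, h6, ?_⟩
  rw [phR_eq]
  exact h7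

end Pool.Agent.MPa9445a.SX
end

section

/-! The result is correct for almost all arrays of random bits. -/

set_option autoImplicit false

open Finset

namespace Pool.Agent.MPa9445a.SX

open Pool.Agent.MPa9445a.BE hiding rb
open Pool.Agent.MPa9445a.SN (rb)
open Pool.Agent.MPa9445a.GL (Vc S Ph)
open Pool.Agent.MPa9445a.GS (Rz oH oT RB)
open Pool.Agent.MPa9445a.SB (Lev)

private theorem V6_arrG {n : ℕ} (G : SimpleGraph (Fin n)) : ∀ z ∈ arrG G, |z| ≤ 1 := by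
  intro x hx
  unfold arrG at hx
  rw [List.mem_map] at hx
  obtain ⟨y, _, rfl⟩ := hx
  split_ifs <;> simp

private theorem V6_max {n : ℕ} (W : Matrix (Fin n) (Fin n) ℤ) :
    ∃ x ∈ S (SB.bl (univ : Finset (Fin n))), ∀ y ∈ S (SB.bl (univ : Finset (Fin n))),
      Ph W y ≤ Ph W x := by
  refine Finset.exists_max_image _ _ ⟨fun _ => 1, ?_⟩
  rw [mem_Sbl]
  intro v
  simp

open scoped Classical in
/-- The error of the program with `Lb n` random bits. -/
theorem main_good : ∃ (PA PB : Lev) (cb n₀ : ℕ), 10000000000 ≤ n₀ ∧ ∀ n, Even n →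
    (univ.filter fun ρ : Fin (Lb n) → Bool => ¬ ∀ G : SimpleGraph (Fin n),
      IsMinBisection G (univ.filter fun v : Fin n =>
        gt (out PA PB cb n₀ n (arrG G) (rb ρ)) v = 1)).card * 2 ^ n ^ 2 ≤ 2 ^ Lb n := by
  obtain ⟨PA, hA, hMA⟩ := SB.exists_PA
  obtain ⟨PB, hB, hMB⟩ := SB.exists_PB
  obtain ⟨c, n₁, h1⟩ := fin_count PA PB hA hMA hB hMB
  refine ⟨PA, PB, c, max n₁ 10000000000, le_max_right _ _, fun n hn => ?_⟩
  by_cases hlt : n < max n₁ 10000000000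
  · have h2 : (univ.filter fun ρ : Fin (Lb n) → Bool => ¬ ∀ G : SimpleGraph (Fin n),
      IsMinBisection G (univ.filter fun v : Fin n =>
        gt (out PA PB c (max n₁ 10000000000) n (arrG G) (rb ρ)) v = 1)) = ∅ := by
      refine Finset.filter_false_of_mem fun ρ _ => ?_
      rw [not_not]
      intro G
      obtain ⟨x, hx, hmax⟩ := V6_max (wtm n (arrG G))
      exact out_min hn G (fm_arrG G) PA PB c _
        (tc_max PA PB c _ hx hmax fun h => absurd h (not_le.2 hlt))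
    rw [h2]
    simp
  · have hge := not_lt.1 hlt
    have h0 : 0 < n := lt_of_lt_of_le (by norm_num) ((le_max_right n₁ 10000000000).trans hge)
    refine le_trans (Nat.mul_le_mul_right _ (card_le_card ?_))
      (h1 n ((le_max_left _ _).trans hge) (fun G => arrG G) (fun G => fm_arrG G))
    intro ρ hρ
    rw [mem_filter] at hρ ⊢
    refine ⟨mem_univ _, fun H => hρ.2 fun G => ?_⟩
    obtain ⟨hGO, z, x, hx, hmax, hTW, hWin⟩ := H G
    have hW : GL.Wb (wtm n (arrG G)) := GL.Wb_of (fm_arrG G)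
    have hb : SB.g0 n + c * SB.lg n = bT c n := by
      unfold bT
      rw [lgn_lg]
      rfl
    rw [hb] at hTW hWin
    have ht : tok (bT c n) n (Rz n (rb ρ) z) := tok_TW.2 hTW
    have hHR : HR n (wtm n (arrG G)) (RT n (arrG G) (rb ρ) z) (GoR n (arrG G) (rb (bG n ρ))) := by
      have h3 := HR_RT (R := rb ρ) (z := z) hW (by rw [GoR_RT]; exact hGO) ht
      rwa [GoR_RT] at h3
    obtain ⟨i, hi, hi'⟩ := cnd_win h0 (V6_arrG G) hW z.2 PA PB (HD_all n _) (fun _ => hHR) ht hx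
      hWin
    exact out_min hn G (fm_arrG G) PA PB c _ (tc_max PA PB c _ hx hmax fun _ => ⟨i, hi, hi'⟩)

/-- The number of random bits is at most a polynomial. -/
theorem Lb_le (n : ℕ) : Lb n ≤ (n + 2) ^ 29 := by
  have hH : oH n ≤ (n + 2) ^ 28 := GL.Lk_le n 8
  have hp : ∀ k : ℕ, 2 ^ k ≤ (n + 2) ^ k := fun k => Nat.pow_le_pow_left (by omega) k
  have hN : NR n ≤ (n + 2) ^ 7 := by
    unfold NR
    calc 6 * n ^ 2 + 20 ≤ 32 * n ^ 2 + 128 * n + 128 := by linarith [Nat.zero_le (n ^ 2)]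
      _ = 2 ^ 5 * (n + 2) ^ 2 := by ring
      _ ≤ (n + 2) ^ 5 * (n + 2) ^ 2 := Nat.mul_le_mul_right _ (hp 5)
      _ = _ := by ring
  have hR : RB n ≤ (n + 2) ^ 10 := by
    have h1 : RB n = GS.Rc n * n + (2 * n + 1) * 3 * (n * (3 * n + 6 + 1)) := by
      unfold RB oT GS.oF
      have h2 : GL.bl n = n * (3 * n + 6 + 1) := rfl
      rw [h2]
      omega
    have h3 : GS.Rc n ≤ n + 1 := by
      unfold GS.Rc
      omega
    rw [h1]
    calc GS.Rc n * n + (2 * n + 1) * 3 * (n * (3 * n + 6 + 1)) ≤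
        (n + 1) * n + (2 * n + 1) * 3 * (n * (3 * n + 6 + 1)) :=
          Nat.add_le_add_right (Nat.mul_le_mul_right _ h3) _
      _ = 18 * n ^ 3 + 52 * n ^ 2 + 22 * n := by ring
      _ ≤ 64 * n ^ 4 + 512 * n ^ 3 + 1536 * n ^ 2 + 2048 * n + 1024 := by
          linarith [Nat.zero_le (n ^ 4), Nat.zero_le (n ^ 3), Nat.zero_le (n ^ 2), Nat.zero_le n]
      _ = 2 ^ 6 * (n + 2) ^ 4 := by ring
      _ ≤ (n + 2) ^ 6 * (n + 2) ^ 4 := Nat.mul_le_mul_right _ (hp 6)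
      _ = _ := by ring
  unfold Lb
  calc oH n + NR n * RB n ≤ (n + 2) ^ 28 + (n + 2) ^ 7 * (n + 2) ^ 10 :=
        Nat.add_le_add hH (Nat.mul_le_mul hN hR)
    _ = (n + 2) ^ 28 + (n + 2) ^ 17 := by rw [← pow_add]
    _ ≤ (n + 2) ^ 28 + (n + 2) ^ 28 :=
        Nat.add_le_add_left (Nat.pow_le_pow_right (by omega) (by norm_num)) _
    _ = 2 * (n + 2) ^ 28 := by ring
    _ ≤ (n + 2) * (n + 2) ^ 28 := Nat.mul_le_mul_right _ (by omega)
    _ = _ := by ring

end Pool.Agent.MPa9445a.SX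
end
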