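import Pool.Agent.Lib.MP_a9445a_lc.Mg.G101
import Pool.Agent.Lib.MP_a9445a_lc.Mg.G100

section

section
/-! The average cost of the mode U. -/

set_option autoImplicit false

open Finset

namespace Pool.Agent.MPa9445a.SB

open Pool.Agent.MPa9445a.SN (Fm rs kb)
open Pool.Agent.MPa9445a.GL (Vc S Ph Lv T Par lvl LL la2 fl Wb on off pl xk)

variable {n : ℕ} {W : Matrix (Fin n) (Fin n) ℤ} {R : ℕ}

/-- The average over the random sets, for a fixed code. PROOF. `cU = ∑ κ < 2 ^ eU, cD (φ Q (rs ωU κ))` and `eU` does not depend on `ωU`; `avg` for every `κ`: the sum over `ωU` times `#(Cc h Q)` is `2 ^ eU * #Fm * ∑ D ∈ Cc h Q, cD D`. By `ex_le` (`m = #Q`, `c = log₂ #(Cc h Q) + R ≥ #Q` by `index` and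
`card_pow2`; `x = #ht ≤ Jn`, `hf`) `2 ^ eU * N ≤ 4 * #(Cc h Q) * 2 ^ R * 2 ^ (c2 lg)`. -/
theorem sum_cU_code {h : Hm n R} {φ : Finset (Fin n) → Finset (Fin n) → Finset (Fin n)}
    {Q : Finset (Fin n)} (hφ : Fib (φ Q) (Cc h Q)) {P : Lev} {E : ℕ → Rf n} {g : ℕ}
    (hg : g ≤ Q.card) {p t : ℤ} (hN : 0 < (Lv W (bl Q) t).card) (ωY ωB : Fm n)
    (hf : Hf W Q g ωY t) :
    (∑ ωU : Fm n, (cU W h φ P E Q g p (ωY, ωU, ωB) t : ℝ)) * (Lv W (bl Q) t).card ≤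
      4 * 2 ^ R * 2 ^ (c2 * lg n) * Fintype.card (Fm n) *
        ∑ D ∈ Cc h Q, (cD (Wn P.d Q.card (E Q.card)) Q ((p + t) / 2) D : ℝ) := by
  obtain ⟨F, hF⟩ : ∃ F : Finset (Fin n) → ℝ, F = fun D =>
      (cD (Wn P.d Q.card (E Q.card)) Q ((p + t) / 2) D : ℝ) := ⟨_, rfl⟩
  obtain ⟨N, hNd⟩ : ∃ N : ℕ, N = (Lv W (bl Q) t).card := ⟨_, rfl⟩
  obtain ⟨e, he⟩ : ∃ e : ℕ, e = ex n (Nat.log 2 (Cc h Q).card + R) g
      (ht W Q ωY (Jn n Q.card g) t).card := ⟨_, rfl⟩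
  have hpow := card_pow2 hφ
  have hC0 : 0 < (Cc h Q).card := by
    rw [← hpow]
    positivity
  have hC0' : (0 : ℝ) < (Cc h Q).card := by exact_mod_cast hC0
  have hF0 : 0 ≤ ∑ D ∈ Cc h Q, F D := Finset.sum_nonneg fun D _ => by
    rw [hF]
    exact Nat.cast_nonneg _
  -- the average
  have h1 : (∑ ωU : Fm n, (cU W h φ P E Q g p (ωY, ωU, ωB) t : ℝ)) * (Cc h Q).card =
      2 ^ e * Fintype.card (Fm n) * ∑ D ∈ Cc h Q, F D := by
    have h2 : ∀ ωU : Fm n, (cU W h φ P E Q g p (ωY, ωU, ωB) t : ℝ) =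
        ∑ κ ∈ range (2 ^ e), F (φ Q (rs ωU κ)) := by
      intro ωU
      unfold cU cR
      push_cast
      rw [hF, he]
      rfl
    rw [Finset.sum_congr rfl fun ωU _ => h2 ωU, Finset.sum_comm, Finset.sum_mul]
    rw [Finset.sum_congr rfl fun κ _ => avg hφ F κ, Finset.sum_const, card_range, nsmul_eq_mul]
    push_cast
    ring
  -- the number of tries
  have h3 : (2 : ℝ) ^ e * N ≤ 4 * ((Cc h Q).card * 2 ^ R) * 2 ^ (c2 * lg n) := by
    have hc : Q.card ≤ Nat.log 2 (Cc h Q).card + R := by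
      have h4 := index h Q
      rw [← hpow, ← pow_add] at h4
      exact (Nat.pow_le_pow_iff_right (by norm_num)).1 h4
    have h5 := ex_le (n := n) (m := Q.card) (c := Nat.log 2 (Cc h Q).card + R) (g := g)
      (x := (ht W Q ωY (Jn n Q.card g) t).card) (N := N) hg hc (ht_le W Q ωY _ t) (by
        unfold Hf at hf
        rw [hNd]
        exact hf) (by rw [hNd]; exact hN)
    rw [← he] at h5
    have h6 : (2 : ℝ) ^ (Nat.log 2 (Cc h Q).card + R) = (Cc h Q).card * 2 ^ R := by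
      rw [pow_add]
      congr 1
      exact_mod_cast hpow
    rw [h6] at h5
    exact h5
  rw [← hNd]
  refine le_of_mul_le_mul_right ?_ hC0'
  calc (∑ ωU : Fm n, (cU W h φ P E Q g p (ωY, ωU, ωB) t : ℝ)) * N * (Cc h Q).card
      = ((∑ ωU : Fm n, (cU W h φ P E Q g p (ωY, ωU, ωB) t : ℝ)) * (Cc h Q).card) * N := by ring
    _ = (2 ^ e * N) * (Fintype.card (Fm n) * ∑ D ∈ Cc h Q, F D) := by rw [h1]; ring
    _ ≤ (4 * ((Cc h Q).card * 2 ^ R) * 2 ^ (c2 * lg n)) *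
        (Fintype.card (Fm n) * ∑ D ∈ Cc h Q, F D) :=
        mul_le_mul_of_nonneg_right h3 (mul_nonneg (Nat.cast_nonneg _) hF0)
    _ = 4 * 2 ^ R * 2 ^ (c2 * lg n) * Fintype.card (Fm n) *
        (∑ D ∈ Cc h Q, F D) * (Cc h Q).card := by ring
    _ = _ := by rw [hF]

end Pool.Agent.MPa9445a.SB
end

section
/-! The average cost of the mode U. -/

set_option autoImplicit false

open Finset

namespace Pool.Agent.MPa9445a.SB

open Pool.Agent.MPa9445a.SN (Fm rs kb)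
open Pool.Agent.MPa9445a.GL (Vc S Ph Lv T Par lvl LL la2 fl Wb on off pl xk)

variable {n : ℕ} {W : Matrix (Fin n) (Fin n) ℤ} {R : ℕ}

private theorem D3b_T_nonneg (s : Vc n) (p : ℤ) {q : ℝ} (hq : 1 ≤ q) : 0 ≤ T W s p q :=
  Finset.sum_nonneg fun _ _ => zpow_nonneg (by linarith) _

private theorem D3b_sizes (d : ℕ) (Q : Finset (Fin n)) (c : ℕ → ℝ) (P : Finset (Fin n) → Prop)
    [DecidablePred P] (hP : ∀ D, P D ↔ Wi d Q.card D.card) :
    ∑ D ∈ Q.powerset.filter P, c D.card =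
      ∑ s ∈ range (Q.card + 1), if Wi d Q.card s then (Q.card.choose s : ℝ) * c s else 0 := by
  rw [Finset.sum_filter]
  have h0 : ∀ D : Finset (Fin n), (if P D then c D.card else 0) =
      if Wi d Q.card D.card then c D.card else 0 := by
    intro D
    by_cases hD : P D
    · rw [if_pos hD, if_pos ((hP D).1 hD)]
    · rw [if_neg hD, if_neg (fun h => hD ((hP D).2 h))]
  simp only [h0]
  have h := Finset.sum_powerset_apply_card (x := Q) (fun s => if Wi d Q.card s then c s else 0)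
  rw [h]
  refine Finset.sum_congr rfl fun s _ => ?_
  rw [nsmul_eq_mul]
  split_ifs
  · rfl
  · rw [mul_zero]

private theorem D3b_sizes' {d : ℕ} (hd : d ≤ 10000) (Q : Finset (Fin n)) (c : ℕ → ℝ)
    (P : Finset (Fin n) → Prop) [DecidablePred P] (hP : ∀ D, P D ↔ Wi d Q.card D.card) :
    ∑ D ∈ Q.powerset.filter P, c (Q \ D).card =
      ∑ s ∈ range (Q.card + 1), if Wi d Q.card s then (Q.card.choose s : ℝ) * c s else 0 := by
  have h1 : ∑ D ∈ Q.powerset.filter P, c (Q \ D).card =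
      ∑ D ∈ Q.powerset.filter P, c (Q.card - D.card) := by
    refine Finset.sum_congr rfl fun D hD => ?_
    rw [Finset.mem_filter, Finset.mem_powerset] at hD
    rw [Finset.card_sdiff_of_subset hD.1]
  rw [h1, D3b_sizes d Q (fun s => c (Q.card - s)) P hP,
    ← Finset.sum_range_reflect (fun s => if Wi d Q.card s then (Q.card.choose s : ℝ) * c s else 0)]
  refine Finset.sum_congr rfl fun s hs => ?_
  have hs' : s ≤ Q.card := Nat.lt_succ_iff.1 (Finset.mem_range.1 hs)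
  have e : Q.card + 1 - 1 - s = Q.card - s := by omega
  rw [e, Nat.choose_symm hs']
  simp only [Wi_compl hd hs']

private theorem D3b_term {Ω : Type} [Fintype Ω] {E : Hm n R → Ω → ℕ → Rf n}
    (hE : ∀ h ω m, Gd W (E h ω m)) {d : ℕ} (hd' : d ≤ 10000)
    {𝓔 : Finset (Finset (Fin n))} {Q : Finset (Fin n)} (hQ : Ch 𝓔 Q) {C : ℝ}
    (hC : 1 ≤ C) {c : ℕ → ℝ} (hc : ∀ s, 1 ≤ c s)
    (hch : ∀ X ⊆ Q, Wi d Q.card X.card → Bnd W (fun h ω => E h ω Q.card) X C (c X.card))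
    (q : ℤ) {r : ℝ} (hr : 1 ≤ r) {D : Finset (Fin n)} (hD : D ⊆ Q) (hW : Wi d Q.card D.card) :
    ∑ h ∈ KH R (insert D 𝓔), ∑ ω : Ω, (cD (E h ω Q.card) Q q D : ℝ) ≤
      ((Fintype.card Ω : ℝ) * ∑ a ∈ la2 n q, 6 * C * (c D.card + c (Q \ D).card +
        T W (bl D) a (r ^ 2) * T W (bl (Q \ D)) (q - a) (r ^ 2))) *
        (KH R (insert D 𝓔)).card := by
  classical
  have hr2 : (1 : ℝ) ≤ r ^ 2 := one_le_pow₀ hr
  have e1 : ∑ h ∈ KH R (insert D 𝓔), ∑ ω : Ω, (cD (E h ω Q.card) Q q D : ℝ) =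
      ∑ a ∈ la2 n q, ∑ i ∈ (KH R (insert D 𝓔)) ×ˢ (univ : Finset Ω),
        (pc (E i.1 i.2 Q.card) D (Q \ D) a (q - a) : ℝ) := by
    rw [Finset.sum_comm' (s := la2 n q) (t := fun _ => (KH R (insert D 𝓔)) ×ˢ (univ : Finset Ω))
      (t' := (KH R (insert D 𝓔)) ×ˢ (univ : Finset Ω)) (s' := fun _ => la2 n q)
      (fun x y => by tauto), Finset.sum_product]
    refine Finset.sum_congr rfl fun h _ => Finset.sum_congr rfl fun ω _ => ?_
    rw [cD, Nat.cast_sum]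
  rw [e1, Finset.mul_sum, Finset.sum_mul]
  refine Finset.sum_le_sum fun a ha => ?_
  have hch1 := Ch_insert hQ hD
  have hQD : Q \ D ⊆ Q := Finset.sdiff_subset
  have hch2 := Ch_insert hQ hQD
  have hWc : Wi d Q.card (Q \ D).card := by
    rw [Finset.card_sdiff_of_subset hD]
    exact (Wi_compl hd' (Finset.card_le_card hD)).2 hW
  have b1 := hch D hD hW _ hch1 a (mem_la2 ha).1 (r ^ 2) hr2
  have b2 := hch (Q \ D) hQD hWc _ hch2 (q - a) (mem_la2 ha).2 (r ^ 2) hr2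
  rw [KH_compl hQ.1 hD] at b2
  have hN : (((KH R (insert D 𝓔)) ×ˢ (univ : Finset Ω)).card : ℝ) ≤
      ((KH R (insert D 𝓔)).card : ℝ) * Fintype.card Ω := by
    rw [Finset.card_product, Finset.card_univ, Nat.cast_mul]
  have hX : ∑ i ∈ (KH R (insert D 𝓔)) ×ˢ (univ : Finset Ω), (cr (E i.1 i.2 Q.card) D a : ℝ) ≤
      C * max (c D.card) (T W (bl D) a (r ^ 2)) *
        (((KH R (insert D 𝓔)).card : ℝ) * Fintype.card Ω) := by
    rw [Finset.sum_product]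
    exact b1
  have hY : ∑ i ∈ (KH R (insert D 𝓔)) ×ˢ (univ : Finset Ω),
      (cr (E i.1 i.2 Q.card) (Q \ D) (q - a) : ℝ) ≤
      C * max (c (Q \ D).card) (T W (bl (Q \ D)) (q - a) (r ^ 2)) *
        (((KH R (insert D 𝓔)).card : ℝ) * Fintype.card Ω) := by
    rw [Finset.sum_product]
    exact b2
  have key := pc_sum ((KH R (insert D 𝓔)) ×ˢ (univ : Finset Ω)) (fun i => E i.1 i.2 Q.card)
    (fun i _ => hE i.1 i.2 Q.card) (mem_la2 ha).1 (mem_la2 ha).2 hr2 hC (hc _) (hc _) hN hX hY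
  refine key.trans (le_of_eq ?_)
  ring

/-- The average over the codes of the cost of the sets in the code. PROOF. Split `Cc h Q` into the sets outside the window (`cD ≤ LL n` by `cD_Wn_out`; `sum_Cc`) and in the window (`cD_Wn_in`; `expected` with `c h D = ∑ ω, cD (E h ω #Q) Q q D` and
`b D = #Ω * ∑ a ∈ la2 n q, 6 C (c #D + c #(Q \ D) + T W (bl D) a (r ^ 2) * T W (bl (Q \ D)) (q - a) (r ^ 2))`: for every `D` in the window and every `a` use `pc_sum` for the index set `KH R (insert D 𝓔) ×ˢ Ω`; the bound for `D` is `hch D`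
for the chain `insert D 𝓔` (`Ch_insert`), the bound for `Q \ D` is `hch (Q \ D)` for the chain `insert (Q \ D) 𝓔` and `KH_compl`; `Wi_compl`). Then `∑ D, (c #D + c #(Q \ D))` over the window is twice the sum over the sizes, and `T_split` for every `a` (`2 q = p + t`). -/
theorem sum_code {Ω : Type} [Fintype Ω] {E : Hm n R → Ω → ℕ → Rf n}
    (hE : ∀ h ω m, Gd W (E h ω m)) {d : ℕ} (hd : 0 < d) (hd' : d ≤ 5000)
    {𝓔 : Finset (Finset (Fin n))} {Q : Finset (Fin n)} (hQ : Ch 𝓔 Q) (hne : Q.Nonempty) {C : ℝ}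
    (hC : 1 ≤ C) {c : ℕ → ℝ} (hc : ∀ s, 1 ≤ c s)
    (hch : ∀ X ⊆ Q, Wi d Q.card X.card → Bnd W (fun h ω => E h ω Q.card) X C (c X.card))
    {p t q : ℤ} (hq : 2 * q = p + t) {r : ℝ} (hr : 1 ≤ r) :
    (∑ h ∈ KH R 𝓔, ∑ ω : Ω, ∑ D ∈ Cc h Q, (cD (Wn d Q.card (E h ω Q.card)) Q q D : ℝ)) * 2 ^ R ≤
      (LL n * (2 * 2 ^ R + 2 ^ Q.card) + 12 * C * LL n * (∑ s ∈ range (Q.card + 1),
          if Wi d Q.card s then (Q.card.choose s : ℝ) * c s else 0) +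
        6 * C * LL n * (T W (bl Q) p r * T W (bl Q) t r)) *
        ((KH R 𝓔).card * Fintype.card Ω) := by
  classical
  have hd1 : d ≤ 10000 := hd'.trans (by norm_num)
  have hC0 : (0 : ℝ) ≤ C := zero_le_one.trans hC
  set P : Finset (Fin n) → Prop := fun D => Wi d Q.card D.card with hPdef
  have : DecidablePred P := fun D => by
    rw [hPdef]
    infer_instance
  set c' : Hm n R → Finset (Fin n) → ℝ := fun h D => ∑ ω : Ω, (cD (E h ω Q.card) Q q D : ℝ)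
    with hc'
  set b' : Finset (Fin n) → ℝ := fun D => (Fintype.card Ω : ℝ) * ∑ a ∈ la2 n q,
    6 * C * (c D.card + c (Q \ D).card +
      T W (bl D) a (r ^ 2) * T W (bl (Q \ D)) (q - a) (r ^ 2)) with hb'
  have hP : ∀ D, P D → D ≠ ∅ ∧ D ≠ Q := by
    intro D hD
    constructor
    · rintro rfl
      exact (Wi_ne hd hne (Finset.empty_subset Q) hD hd1).1 rfl
    · rintro rfl
      exact (Wi_ne hd hne (Finset.Subset.refl _) hD hd1).2 rfl
  have hexp := expected hQ P hP c' b' (fun D hD => by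
    rw [Finset.mem_filter, Finset.mem_powerset] at hD
    exact D3b_term hE hd1 hQ hC hc hch q hr hD.1 hD.2)
  -- the two parts
  have hsplit : ∑ h ∈ KH R 𝓔, ∑ ω : Ω, ∑ D ∈ Cc h Q,
      (cD (Wn d Q.card (E h ω Q.card)) Q q D : ℝ) ≤
      ∑ h ∈ KH R 𝓔, ∑ D ∈ (Cc h Q).filter P, c' h D +
        (Fintype.card Ω : ℝ) * LL n * ∑ h ∈ KH R 𝓔, ((Cc h Q).card : ℝ) := by
    rw [Finset.mul_sum, ← Finset.sum_add_distrib]
    refine Finset.sum_le_sum fun h _ => ?_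
    have e2 : ∑ D ∈ (Cc h Q).filter P, c' h D =
        ∑ ω : Ω, ∑ D ∈ (Cc h Q).filter P, (cD (E h ω Q.card) Q q D : ℝ) := by
      rw [hc']
      exact Finset.sum_comm
    have e3 : (Fintype.card Ω : ℝ) * LL n * ((Cc h Q).card : ℝ) =
        ∑ ω : Ω, (LL n : ℝ) * ((Cc h Q).card : ℝ) := by
      rw [Finset.sum_const, Finset.card_univ, nsmul_eq_mul]
      ring
    rw [e2, e3, ← Finset.sum_add_distrib]
    refine Finset.sum_le_sum fun ω _ => ?_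
    rw [← Finset.sum_filter_add_sum_filter_not (Cc h Q) P]
    refine add_le_add ?_ ?_
    · refine le_of_eq (Finset.sum_congr rfl fun D hD => ?_)
      rw [Finset.mem_filter] at hD
      rw [cD_Wn_in hd1 (mem_Cc.1 hD.1).1 hD.2]
    · calc ∑ D ∈ (Cc h Q).filter (fun D => ¬ P D),
            (cD (Wn d Q.card (E h ω Q.card)) Q q D : ℝ)
          ≤ ∑ D ∈ (Cc h Q).filter (fun D => ¬ P D), (LL n : ℝ) := by
            refine Finset.sum_le_sum fun D hD => ?_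
            rw [Finset.mem_filter] at hD
            exact_mod_cast cD_Wn_out hD.2 q
        _ = (((Cc h Q).filter (fun D => ¬ P D)).card : ℝ) * LL n := by
            rw [Finset.sum_const, nsmul_eq_mul]
        _ ≤ ((Cc h Q).card : ℝ) * LL n := by
            refine mul_le_mul_of_nonneg_right ?_ (Nat.cast_nonneg _)
            exact_mod_cast Finset.card_filter_le _ _
        _ = (LL n : ℝ) * ((Cc h Q).card : ℝ) := mul_comm _ _
  have hCc : (∑ h ∈ KH R 𝓔, ((Cc h Q).card : ℝ)) * 2 ^ R ≤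
      (2 * 2 ^ R + 2 ^ Q.card) * ((KH R 𝓔).card : ℝ) := by
    have := sum_Cc (R := R) hQ
    exact_mod_cast this
  -- the sum of the bounds
  have hTT : 0 ≤ T W (bl Q) p r * T W (bl Q) t r :=
    mul_nonneg (D3b_T_nonneg _ _ hr) (D3b_T_nonneg _ _ hr)
  have hr2 : (1 : ℝ) ≤ r ^ 2 := one_le_pow₀ hr
  have hla : ((la2 n q).card : ℝ) ≤ LL n := by exact_mod_cast card_la2 q
  set Sg : ℝ := ∑ s ∈ range (Q.card + 1),
    if Wi d Q.card s then (Q.card.choose s : ℝ) * c s else 0 with hSg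
  have hSg1 : ∑ D ∈ Q.powerset.filter P, (c D.card + c (Q \ D).card) = 2 * Sg := by
    rw [Finset.sum_add_distrib, D3b_sizes d Q c P (fun _ => Iff.rfl),
      D3b_sizes' hd1 Q c P (fun _ => Iff.rfl)]
    ring
  have hSg0 : 0 ≤ Sg := by
    refine Finset.sum_nonneg fun s _ => ?_
    split_ifs
    · exact mul_nonneg (Nat.cast_nonneg _) (zero_le_one.trans (hc s))
    · exact le_refl _
  have hb : ∑ D ∈ Q.powerset.filter P, b' D ≤ (Fintype.card Ω : ℝ) *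
      (12 * C * LL n * Sg + 6 * C * LL n * (T W (bl Q) p r * T W (bl Q) t r)) := by
    rw [hb', ← Finset.mul_sum]
    refine mul_le_mul_of_nonneg_left ?_ (Nat.cast_nonneg _)
    rw [Finset.sum_comm]
    have each : ∀ a ∈ la2 n q, ∑ D ∈ Q.powerset.filter P, 6 * C * (c D.card + c (Q \ D).card +
        T W (bl D) a (r ^ 2) * T W (bl (Q \ D)) (q - a) (r ^ 2)) ≤
        12 * C * Sg + 6 * C * (T W (bl Q) p r * T W (bl Q) t r) := by
      intro a _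
      rw [← Finset.mul_sum, Finset.sum_add_distrib, hSg1]
      have h1 : ∑ D ∈ Q.powerset.filter P,
          T W (bl D) a (r ^ 2) * T W (bl (Q \ D)) (q - a) (r ^ 2) ≤
          T W (bl Q) p r * T W (bl Q) t r := by
        rw [← T_split hq (fun _ => a) hr]
        refine Finset.sum_le_sum_of_subset_of_nonneg (Finset.filter_subset _ _) fun D _ _ => ?_
        exact mul_nonneg (D3b_T_nonneg _ _ hr2) (D3b_T_nonneg _ _ hr2)
      have h2 : 6 * C * (∑ D ∈ Q.powerset.filter P,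
          T W (bl D) a (r ^ 2) * T W (bl (Q \ D)) (q - a) (r ^ 2)) ≤
          6 * C * (T W (bl Q) p r * T W (bl Q) t r) :=
        mul_le_mul_of_nonneg_left h1 (by linarith)
      rw [mul_add]
      linarith
    refine (Finset.sum_le_sum each).trans ?_
    rw [Finset.sum_const, nsmul_eq_mul]
    have hnn : 0 ≤ 12 * C * Sg + 6 * C * (T W (bl Q) p r * T W (bl Q) t r) := by positivity
    calc ((la2 n q).card : ℝ) * (12 * C * Sg + 6 * C * (T W (bl Q) p r * T W (bl Q) t r))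
        ≤ (LL n : ℝ) * (12 * C * Sg + 6 * C * (T W (bl Q) p r * T W (bl Q) t r)) :=
          mul_le_mul_of_nonneg_right hla hnn
      _ = _ := by ring
  have h2R : (0 : ℝ) ≤ 2 ^ R := by positivity
  have hKH : (0 : ℝ) ≤ ((KH R 𝓔).card : ℝ) := Nat.cast_nonneg _
  have hOm : (0 : ℝ) ≤ (Fintype.card Ω : ℝ) := Nat.cast_nonneg _
  have hLL : (0 : ℝ) ≤ (LL n : ℝ) := Nat.cast_nonneg _
  calc (∑ h ∈ KH R 𝓔, ∑ ω : Ω, ∑ D ∈ Cc h Q,
        (cD (Wn d Q.card (E h ω Q.card)) Q q D : ℝ)) * 2 ^ R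
      ≤ (∑ h ∈ KH R 𝓔, ∑ D ∈ (Cc h Q).filter P, c' h D +
        (Fintype.card Ω : ℝ) * LL n * ∑ h ∈ KH R 𝓔, ((Cc h Q).card : ℝ)) * 2 ^ R :=
        mul_le_mul_of_nonneg_right hsplit h2R
    _ = (∑ h ∈ KH R 𝓔, ∑ D ∈ (Cc h Q).filter P, c' h D) * 2 ^ R +
        (Fintype.card Ω : ℝ) * LL n * ((∑ h ∈ KH R 𝓔, ((Cc h Q).card : ℝ)) * 2 ^ R) := by ring
    _ ≤ (∑ D ∈ Q.powerset.filter P, b' D) * (KH R 𝓔).card +
        (Fintype.card Ω : ℝ) * LL n * ((2 * 2 ^ R + 2 ^ Q.card) * ((KH R 𝓔).card : ℝ)) :=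
        add_le_add hexp (mul_le_mul_of_nonneg_left hCc (mul_nonneg hOm hLL))
    _ ≤ ((Fintype.card Ω : ℝ) *
        (12 * C * LL n * Sg + 6 * C * LL n * (T W (bl Q) p r * T W (bl Q) t r))) *
          (KH R 𝓔).card +
        (Fintype.card Ω : ℝ) * LL n * ((2 * 2 ^ R + 2 ^ Q.card) * ((KH R 𝓔).card : ℝ)) :=
        add_le_add (mul_le_mul_of_nonneg_right hb hKH) (le_refl _)
    _ = _ := by ring

end Pool.Agent.MPa9445a.SB
end

section
/-! The average cost of the mode U. -/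

set_option autoImplicit false

open Finset

namespace Pool.Agent.MPa9445a.SB

open Pool.Agent.MPa9445a.SN (Fm rs kb)
open Pool.Agent.MPa9445a.GL (Vc S Ph Lv T Par lvl LL la2 fl Wb on off pl xk)

variable {n : ℕ} {W : Matrix (Fin n) (Fin n) ℤ} {R : ℕ}

/-- PROOF. `sum_cU_code` for every `h`, `ω`; `sum_code`. -/
theorem sum_cU {Ω : Type} [Fintype Ω] {E : Hm n R → Ω → ℕ → Rf n}
    (hE : ∀ h ω m, Gd W (E h ω m))
    {φ : Hm n R → Finset (Fin n) → Finset (Fin n) → Finset (Fin n)}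
    (hφ : ∀ h Q, Fib (φ h Q) (Cc h Q)) {P : Lev} (hd : 0 < P.d) (hd' : P.d ≤ 5000)
    {𝓔 : Finset (Finset (Fin n))} {Q : Finset (Fin n)} (hQ : Ch 𝓔 Q) (hne : Q.Nonempty) {C : ℝ}
    (hC : 1 ≤ C) {c : ℕ → ℝ} (hc : ∀ s, 1 ≤ c s)
    (hch : ∀ X ⊆ Q, Wi P.d Q.card X.card → Bnd W (fun h ω => E h ω Q.card) X C (c X.card))
    {g : ℕ} (hg : g ≤ Q.card) {p t : ℤ} (hpar : (p + t) % 2 = 0)
    (hN : 0 < (Lv W (bl Q) t).card) {r : ℝ} (hr : 1 ≤ r) (ωY ωB : Fm n)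
    (hf : Hf W Q g ωY t) :
    (∑ h ∈ KH R 𝓔, ∑ ω : Ω, ∑ ωU : Fm n, (cU W h (φ h) P (E h ω) Q g p (ωY, ωU, ωB) t : ℝ)) *
        (Lv W (bl Q) t).card ≤
      4 * 2 ^ (c2 * lg n) * (LL n * (2 * 2 ^ R + 2 ^ Q.card) +
        12 * C * LL n * (∑ s ∈ range (Q.card + 1),
          if Wi P.d Q.card s then (Q.card.choose s : ℝ) * c s else 0) +
        6 * C * LL n * (T W (bl Q) p r * T W (bl Q) t r)) *
        ((KH R 𝓔).card * Fintype.card Ω * Fintype.card (Fm n)) := by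
  set N : ℝ := ((Lv W (bl Q) t).card : ℝ) with hNdef
  set F : ℝ := (Fintype.card (Fm n) : ℝ) with hFdef
  have h1 : ∀ h : Hm n R, ∀ ω : Ω,
      (∑ ωU : Fm n, (cU W h (φ h) P (E h ω) Q g p (ωY, ωU, ωB) t : ℝ)) * N ≤
        4 * 2 ^ R * 2 ^ (c2 * lg n) * F *
          ∑ D ∈ Cc h Q, (cD (Wn P.d Q.card (E h ω Q.card)) Q ((p + t) / 2) D : ℝ) := fun h ω =>
    sum_cU_code (hφ h Q) hg hN ωY ωB hf
  have h2 := sum_code hE hd hd' hQ hne hC hc hch (p := p) (t := t) (q := (p + t) / 2)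
    (by omega) hr
  have h3 : (∑ h ∈ KH R 𝓔, ∑ ω : Ω, ∑ ωU : Fm n,
      (cU W h (φ h) P (E h ω) Q g p (ωY, ωU, ωB) t : ℝ)) * N ≤
      ∑ h ∈ KH R 𝓔, ∑ ω : Ω, 4 * 2 ^ R * 2 ^ (c2 * lg n) * F *
          ∑ D ∈ Cc h Q, (cD (Wn P.d Q.card (E h ω Q.card)) Q ((p + t) / 2) D : ℝ) := by
    rw [Finset.sum_mul]
    refine Finset.sum_le_sum fun h _ => ?_
    rw [Finset.sum_mul]
    exact Finset.sum_le_sum fun ω _ => h1 h ω
  have h4 : (∑ h ∈ KH R 𝓔, ∑ ω : Ω, 4 * 2 ^ R * 2 ^ (c2 * lg n) * F *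
          ∑ D ∈ Cc h Q, (cD (Wn P.d Q.card (E h ω Q.card)) Q ((p + t) / 2) D : ℝ)) =
      4 * 2 ^ (c2 * lg n) * F * ((∑ h ∈ KH R 𝓔, ∑ ω : Ω, ∑ D ∈ Cc h Q,
        (cD (Wn P.d Q.card (E h ω Q.card)) Q ((p + t) / 2) D : ℝ)) * 2 ^ R) := by
    simp only [← Finset.mul_sum]
    ring
  refine h3.trans ?_
  rw [h4]
  have h5 : (0 : ℝ) ≤ 4 * 2 ^ (c2 * lg n) * F := by positivity
  refine (mul_le_mul_of_nonneg_left h2 h5).trans (le_of_eq ?_)
  ring

/-- The average number of tries. PROOF. `ex_le` as in `sum_cU_code`: `2 ^ eU * N ≤ 4 * #(Cc h Q) * 2 ^ R * 2 ^ (c2 lg)`; `sum_Cc`. -/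
theorem sum_eU {φ : Hm n R → Finset (Fin n) → Finset (Fin n) → Finset (Fin n)}
    (hφ : ∀ h Q, Fib (φ h Q) (Cc h Q)) {𝓔 : Finset (Finset (Fin n))} {Q : Finset (Fin n)}
    (hQ : Ch 𝓔 Q) {g : ℕ} (hg : g ≤ Q.card) {t : ℤ} (hN : 0 < (Lv W (bl Q) t).card) (ω : Rr n)
    (hf : Hf W Q g ω.1 t) :
    (∑ h ∈ KH R 𝓔, (2 : ℝ) ^ eU W h Q g ω t) * (Lv W (bl Q) t).card ≤
      4 * 2 ^ (c2 * lg n) * (2 * 2 ^ R + 2 ^ Q.card) * (KH R 𝓔).card := by
  have h1 : ∀ h : Hm n R, (2 : ℝ) ^ eU W h Q g ω t * (Lv W (bl Q) t).card ≤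
      4 * 2 ^ (c2 * lg n) * (((Cc h Q).card : ℝ) * 2 ^ R) := by
    intro h
    have hp := card_pow2 (hφ h Q)
    have hi := index h Q
    have hc : Q.card ≤ Nat.log 2 (Cc h Q).card + R := by
      have h2 : 2 ^ Q.card ≤ 2 ^ (Nat.log 2 (Cc h Q).card + R) := by
        rw [pow_add, hp]
        exact hi
      exact (Nat.pow_le_pow_iff_right (by norm_num)).1 h2
    have h3 := ex_le (n := n) (m := Q.card) (c := Nat.log 2 (Cc h Q).card + R) (g := g)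
      (x := (ht W Q ω.1 (Jn n Q.card g) t).card) (N := (Lv W (bl Q) t).card) hg hc
      (ht_le W Q ω.1 (Jn n Q.card g) t) hf hN
    have h4 : (2 : ℝ) ^ (Nat.log 2 (Cc h Q).card + R) = ((Cc h Q).card : ℝ) * 2 ^ R := by
      rw [pow_add]
      congr 1
      exact_mod_cast hp
    rw [h4] at h3
    unfold eU
    refine h3.trans (le_of_eq ?_)
    ring
  have h2 : (∑ h ∈ KH R 𝓔, ((Cc h Q).card : ℝ)) * 2 ^ R ≤
      (2 * 2 ^ R + 2 ^ Q.card) * ((KH R 𝓔).card : ℝ) := by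
    exact_mod_cast sum_Cc (R := R) hQ
  rw [Finset.sum_mul]
  calc (∑ h ∈ KH R 𝓔, (2 : ℝ) ^ eU W h Q g ω t * (Lv W (bl Q) t).card) ≤
        ∑ h ∈ KH R 𝓔, 4 * 2 ^ (c2 * lg n) * (((Cc h Q).card : ℝ) * 2 ^ R) :=
        Finset.sum_le_sum fun h _ => h1 h
    _ = 4 * 2 ^ (c2 * lg n) * ((∑ h ∈ KH R 𝓔, ((Cc h Q).card : ℝ)) * 2 ^ R) := by
        rw [← Finset.mul_sum, Finset.sum_mul]
    _ ≤ 4 * 2 ^ (c2 * lg n) * ((2 * 2 ^ R + 2 ^ Q.card) * ((KH R 𝓔).card : ℝ)) :=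
        mul_le_mul_of_nonneg_left h2 (by positivity)
    _ = _ := by ring

end Pool.Agent.MPa9445a.SB
end
end

section

/-! The average cost of the mode B. -/

set_option autoImplicit false

open Finset

namespace Pool.Agent.MPa9445a.SB

open Pool.Agent.MPa9445a.SN (Fm rs kb)
open Pool.Agent.MPa9445a.GL (Vc S Ph Lv T Par lvl LL la2 fl Wb on off pl xk)

variable {n : ℕ} {W : Matrix (Fin n) (Fin n) ℤ} {Go : Rf n}

/-- The points of the grid. PROOF. `M * a / b ≤ M` for `a ≤ b` (also for `b = 0`). -/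
theorem gr_le (W : Matrix (Fin n) (Fin n) ℤ) (Q : Finset (Fin n)) (ω : Fm n) (J : ℕ) (t : ℤ)
    {l : ℕ} (w : Pl n l) (M : ℕ) (v : Fin n) : gr W Q ω J t w M v ≤ M := by
  unfold gr
  refine Nat.div_le_of_le_mul ?_
  rw [mul_comm]
  refine Nat.mul_le_mul_right M (Finset.card_le_card fun κ hκ => ?_)
  simp only [Finset.mem_filter] at hκ ⊢
  exact ⟨hκ.1, hκ.2.1⟩

/-- PROOF. `Θ ≤ K * th * m / 1000000`. -/
theorem Θ_le {P : Lev} (hK : 0 < P.K) (m : ℕ) :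
    ((P.Θ m : ℕ) : ℝ) / P.K ≤ (P.th : ℝ) / 1000000 * m := by
  have hK' : (0 : ℝ) < P.K := by exact_mod_cast hK
  have h1 : ((P.Θ m : ℕ) : ℝ) ≤ ((P.K * P.th * m : ℕ) : ℝ) / ((1000000 : ℕ) : ℝ) := by
    unfold Lev.Θ
    exact Nat.cast_div_le
  rw [div_le_iff₀ hK']
  refine h1.trans (le_of_eq ?_)
  push_cast
  ring

/-- PROOF. `cB = ∑ κ < 2 ^ eB, cD (rs ωB κ ∩ Q)`, `eB` and the scores do not depend on `ωB`; `avg` with `Fib_inter Q`: the sum over `ωB` times `2 ^ #Q` is `2 ^ eB * #Fm * ∑ D ∈ Q.powerset, cD D`; `ex_le` (`c = m = #Q`): `2 ^ eB * N ≤ 4 * 2 ^ #Q * 2 ^ (c2 lg)`;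
`sum_cD_EB` (Kraft: `hKr`, `gr_le`), `Θ_le`. -/
theorem sum_cB (hG : GO W Go) {P : Lev} (hd : P.d ≤ 5000)
    (hK : 0 < P.K) (hKr : ∀ j ≤ P.M, Kr P.K (P.tw j) (P.ta j) (P.tb j)) {Q : Finset (Fin n)}
    {g : ℕ} (hg : g ≤ Q.card) {p t : ℤ} (hpar : (p + t) % 2 = 0)
    (hN : 0 < (Lv W (bl Q) t).card) {r : ℝ} (hr : 1 ≤ r) (ωY ωU : Fm n) (hf : Hf W Q g ωY t)
    (w : Pl n P.l) :
    (∑ ωB : Fm n, (cB W Go P Q g p (ωY, ωU, ωB) t w : ℝ)) * (Lv W (bl Q) t).card ≤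
      4 * 2 ^ (c2 * lg n) * (12 * pl n 8 * (LL n * (3 * 2 ^ Q.card +
        2 * 2 ^ ((P.th : ℝ) / 1000000 * Q.card) +
        2 * ∑ e ∈ range (Q.card + 1), if 10000 * e < P.d * Q.card then
          (Q.card.choose e : ℝ) * 2 ^ (gam * e) else 0) +
        LL n * (T W (bl Q) p r * T W (bl Q) t r))) * Fintype.card (Fm n) := by
  set e := eB W Q g (ωY, ωU, ωY) t with he
  set σ := sr W P Q ωY (Jn n Q.card g) t w with hσdef
  set F : Finset (Fin n) → ℝ := fun D =>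
    (cD (EB W Go P.d σ Q (P.Θ Q.card)) Q ((p + t) / 2) D : ℝ) with hF
  have h1 : (∑ ωB : Fm n, (cB W Go P Q g p (ωY, ωU, ωB) t w : ℝ)) =
      ∑ κ ∈ range (2 ^ e), ∑ ωB : Fm n, F (rs ωB κ ∩ Q) := by
    rw [Finset.sum_comm]
    refine Finset.sum_congr rfl fun ωB _ => ?_
    have : cB W Go P Q g p (ωY, ωU, ωB) t w =
        ∑ κ ∈ range (2 ^ e), cD (EB W Go P.d σ Q (P.Θ Q.card)) Q ((p + t) / 2) (rs ωB κ ∩ Q) := rfl
    rw [this]
    push_cast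
    rfl
  have h2 : ∀ κ, (∑ ωB : Fm n, F (rs ωB κ ∩ Q)) * 2 ^ Q.card =
      Fintype.card (Fm n) * ∑ D ∈ Q.powerset, F D := by
    intro κ
    have := avg (Fib_inter Q) F κ
    rw [Finset.card_powerset] at this
    push_cast at this
    exact this
  have h3 : (∑ ωB : Fm n, (cB W Go P Q g p (ωY, ωU, ωB) t w : ℝ)) * 2 ^ Q.card =
      2 ^ e * (Fintype.card (Fm n) * ∑ D ∈ Q.powerset, F D) := by
    rw [h1, Finset.sum_mul, Finset.sum_congr rfl fun κ _ => h2 κ, Finset.sum_const,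
      Finset.card_range, nsmul_eq_mul]
    push_cast
    rfl
  have h4 : (2 : ℝ) ^ e * (Lv W (bl Q) t).card ≤ 4 * 2 ^ Q.card * 2 ^ (c2 * lg n) := by
    rw [he]
    unfold eB
    exact ex_le hg le_rfl (ht_le _ _ _ _ _) hf hN
  have hFn : 0 ≤ ∑ D ∈ Q.powerset, F D := Finset.sum_nonneg fun D _ => by
    exact Nat.cast_nonneg _
  have hc : 2 * ((p + t) / 2) = p + t := by omega
  have h5 : ∑ D ∈ Q.powerset, F D ≤
      12 * pl n 8 * (LL n * (3 * 2 ^ Q.card + 2 * 2 ^ (((P.Θ Q.card : ℕ) : ℝ) / P.K) +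
        2 * ∑ e ∈ range (Q.card + 1), if 10000 * e < P.d * Q.card then
          (Q.card.choose e : ℝ) * 2 ^ (gam * e) else 0) +
        LL n * (T W (bl Q) p r * T W (bl Q) t r)) := by
    refine sum_cD_EB hG hd hK (fun v _ => ?_) (P.Θ Q.card) hc hr
    exact hKr _ (gr_le W Q ωY (Jn n Q.card g) t w P.M v)
  have h6 : (2 : ℝ) ^ (((P.Θ Q.card : ℕ) : ℝ) / P.K) ≤ 2 ^ ((P.th : ℝ) / 1000000 * Q.card) :=
    Real.rpow_le_rpow_of_exponent_le (by norm_num) (Θ_le hK _)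
  have h7 : ∑ D ∈ Q.powerset, F D ≤
      12 * pl n 8 * (LL n * (3 * 2 ^ Q.card + 2 * 2 ^ ((P.th : ℝ) / 1000000 * Q.card) +
        2 * ∑ e ∈ range (Q.card + 1), if 10000 * e < P.d * Q.card then
          (Q.card.choose e : ℝ) * 2 ^ (gam * e) else 0) +
        LL n * (T W (bl Q) p r * T W (bl Q) t r)) := by
    refine h5.trans ?_
    have hpl : (0 : ℝ) ≤ 12 * pl n 8 := mul_nonneg (by norm_num) (Nat.cast_nonneg _)
    refine mul_le_mul_of_nonneg_left ?_ hpl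
    have hLL : (0 : ℝ) ≤ LL n := Nat.cast_nonneg _
    refine add_le_add (mul_le_mul_of_nonneg_left ?_ hLL) le_rfl
    exact add_le_add (add_le_add le_rfl (mul_le_mul_of_nonneg_left h6 (by norm_num))) le_rfl
  have h2Q : (0 : ℝ) < 2 ^ Q.card := by positivity
  refine le_of_mul_le_mul_right ?_ h2Q
  have hFm : (0 : ℝ) ≤ Fintype.card (Fm n) := Nat.cast_nonneg _
  revert h7
  generalize 12 * (pl n 8 : ℝ) * (LL n * (3 * 2 ^ Q.card + 2 * 2 ^ ((P.th : ℝ) / 1000000 * Q.card) +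
        2 * ∑ e ∈ range (Q.card + 1), if 10000 * e < P.d * Q.card then
          (Q.card.choose e : ℝ) * 2 ^ (gam * e) else 0) +
        LL n * (T W (bl Q) p r * T W (bl Q) t r)) = B
  intro h7
  calc (∑ ωB : Fm n, (cB W Go P Q g p (ωY, ωU, ωB) t w : ℝ)) * (Lv W (bl Q) t).card * 2 ^ Q.card
      = (∑ ωB : Fm n, (cB W Go P Q g p (ωY, ωU, ωB) t w : ℝ)) * 2 ^ Q.card *
        (Lv W (bl Q) t).card := by ring
    _ = (2 ^ e * (Lv W (bl Q) t).card) * (Fintype.card (Fm n) * ∑ D ∈ Q.powerset, F D) := by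
        rw [h3]; ring
    _ ≤ (4 * 2 ^ Q.card * 2 ^ (c2 * lg n)) * (Fintype.card (Fm n) * B) := by
        refine mul_le_mul h4 (mul_le_mul_of_nonneg_left h7 hFm) (by positivity) (by positivity)
    _ = 4 * 2 ^ (c2 * lg n) * B * Fintype.card (Fm n) * 2 ^ Q.card := by ring

/-- PROOF. `ex_le`. -/
theorem eB_le {Q : Finset (Fin n)} {g : ℕ} (hg : g ≤ Q.card) {t : ℤ}
    (hN : 0 < (Lv W (bl Q) t).card) (ω : Rr n) (hf : Hf W Q g ω.1 t) :
    (2 : ℝ) ^ eB W Q g ω t * (Lv W (bl Q) t).card ≤ 4 * 2 ^ Q.card * 2 ^ (c2 * lg n) := by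
  unfold eB
  exact ex_le hg le_rfl (ht_le _ _ _ _ _) hf hN

end Pool.Agent.MPa9445a.SB
end
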