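import Pool.Agent.Lib.MP_a9445a_lc.Mg.G106
import Pool.Agent.Lib.MP_a9445a_lc.BE.Fin
import Pool.Agent.Lib.MP_a9445a_lc.Mg.G136
import Pool.Agent.Lib.MP_a9445a_lc.GS.R4
import Pool.Agent.Lib.MP_a9445a_lc.Mg.G103
import Pool.Agent.Lib.MP_a9445a_lc.Mg.G149
import Pool.Agent.Lib.MP_a9445a_lc.Mg.G097
import Pool.Agent.Lib.MP_a9445a_lc.Mg.G099
import Pool.Agent.Lib.MP_a9445a_lc.Mg.G033
import Pool.Agent.Lib.MP_a9445a_lc.SB.D5c
import Pool.Agent.Lib.MP_a9445a_lc.Mg.G107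
import Pool.Agent.Lib.MP_a9445a_lc.Mg.G105

section

section

/-! The result. -/

set_option autoImplicit false

open Finset
open scoped symmDiff

namespace Pool.Agent.MPa9445a.SX

open Pool.Agent.MPa9445a.BE
open Pool.Agent.MPa9445a.SN (ST Fm rs kb)
open Pool.Agent.MPa9445a.GL (Vc S Ph Lv Fr lvl LL lvv rk rc fR bl sv full xk YS Cpl cdv tl)
open Pool.Agent.MPa9445a.GS (oT oH Rz cct TB fof g0 dmL)
open Pool.Agent.MPa9445a.SB (Rf Hm Om ht Jn df Wi Lev TOk oT)

variable {n : ℕ}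

private theorem V3b_Om : Pool.Agent.MPa9445a.BE.Om (univ : Finset (Fin n)) = S (SB.bl univ) := by
  unfold Pool.Agent.MPa9445a.BE.Om S
  congr 1
  funext v
  have h : SB.bl (univ : Finset (Fin n)) v = 2 := by
    unfold SB.bl
    rw [if_pos (Finset.mem_univ v)]
  rw [if_pos (Finset.mem_univ v), if_pos h]

private theorem V3b_bq (W : Matrix (Fin n) (Fin n) ℤ) (x : Fin n → ℤ) : bq W x x = Ph W x := rfl

/-- The result is a maximum if there is a good candidate or if `n` is small. PROOF. `argmax_spec` (`BE`); for `n < n₀` as in `GL.tc_max` (`exists_code`). -/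
theorem tc_max {M R : List ℤ} (PA PB : Lev) (cb n₀ : ℕ) {x : Vc n} (hx : x ∈ S (SB.bl univ))
    (hmax : ∀ y ∈ S (SB.bl (univ : Finset (Fin n))), Ph (wtm n M) y ≤ Ph (wtm n M) x)
    (h : n₀ ≤ n → ∃ i < NR n * LL n * LL n * YB,
      Ph (wtm n M) x ≤ Phi n M (vec n (cnd PA PB (bT cb n) n M R i))) :
    ∀ y ∈ S (SB.bl (univ : Finset (Fin n))),
      Ph (wtm n M) y ≤ Ph (wtm n M) (fv n (vec n (tc PA PB cb n₀ n M R))) := by
  by_cases hn : n < n₀
  · have h1 : tc PA PB cb n₀ n M R = argmax (2 ^ n) fun c => Phi n M (vec n c.toNat) := by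
      unfold tc
      rw [if_pos hn]
    intro y hy
    rw [← V3b_Om] at hy
    obtain ⟨c, hc, rfl⟩ := exists_code hy
    have h2 := (argmax_spec (k := 2 ^ n) (by positivity)
      (fun c : ℤ => Phi n M (vec n c.toNat))).2 c hc
    rw [← h1] at h2
    simp only [Int.toNat_natCast] at h2
    rw [← GL.Phi_Ph, ← GL.Phi_Ph]
    exact h2
  · obtain ⟨i, hi, hxi⟩ := h (Nat.not_lt.1 hn)
    have h1 : tc PA PB cb n₀ n M R = cnd PA PB (bT cb n) n M R
        (argmax (NR n * LL n * LL n * YB) fun x =>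
          Phi n M (vec n (cnd PA PB (bT cb n) n M R x.toNat))) := by
      unfold tc
      rw [if_neg hn]
    intro y hy
    have h2 := (argmax_spec (k := NR n * LL n * LL n * YB) (lt_of_le_of_lt (Nat.zero_le _) hi)
      (fun x : ℤ => Phi n M (vec n (cnd PA PB (bT cb n) n M R x.toNat)))).2 i hi
    simp only [Int.toNat_natCast] at h2
    rw [← h1] at h2
    rw [← GL.Phi_Ph M (vec n (tc PA PB cb n₀ n M R))]
    exact (hmax y hy).trans (hxi.trans h2)

/-- A maximum is a minimum bisection. PROOF. As `GL.out_correct` (`GL/Q9b`): `min_of_max` for `X = {v | bit (tc ..) v = 1}`. -/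
theorem out_min (hn : Even n) (G : SimpleGraph (Fin n)) {M R : List ℤ} (hA : fm n M = adjZ G)
    (PA PB : Lev) (cb n₀ : ℕ)
    (h : ∀ y ∈ S (SB.bl (univ : Finset (Fin n))),
      Ph (wtm n M) y ≤ Ph (wtm n M) (fv n (vec n (tc PA PB cb n₀ n M R)))) :
    IsMinBisection G (univ.filter fun v : Fin n => gt (out PA PB cb n₀ n M R) v = 1) := by
  have h1 : (fun v : Fin n =>
      if v ∈ (univ.filter fun v : Fin n => gt (out PA PB cb n₀ n M R) v = 1)
      then (1 : ℤ) else -1) = fv n (vec n (tc PA PB cb n₀ n M R)) := by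
    funext v
    have h2 : gt (out PA PB cb n₀ n M R) (v : ℕ) = (bit (tc PA PB cb n₀ n M R) v : ℤ) := by
      have h3 := fv_tb n (fun v => (bit (tc PA PB cb n₀ n M R) v : ℤ)) v
      exact h3
    have h4 : bit (tc PA PB cb n₀ n M R) (v : ℕ) = 0 ∨
        bit (tc PA PB cb n₀ n M R) (v : ℕ) = 1 := by
      unfold bit
      omega
    rw [vec, fv_tb]
    rcases h4 with h4 | h4
    · rw [h4] at h2 ⊢
      rw [if_neg]
      · norm_num
      · rw [Finset.mem_filter, h2]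
        norm_num
    · rw [h4] at h2 ⊢
      rw [if_pos]
      · norm_num
      · rw [Finset.mem_filter, h2]
        exact ⟨Finset.mem_univ v, by norm_num⟩
  refine min_of_max hn G hA ?_
  intro y hy
  rw [V3b_bq, h1, V3b_bq]
  rw [V3b_Om] at hy
  exact h y hy

end Pool.Agent.MPa9445a.SX
end

section

/-! The running time of the candidates. -/

set_option autoImplicit false

open Finset

namespace Pool.Agent.MPa9445a.GS

open Pool.Agent.MPa9445a.BE (Ty Env vs one Bd NL DL tb flt gt bit Phi vec code lin argmax Bd.const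
  Bd.add Bd.mul Bd.le Bd.up Bd.var Bd.self)
open Pool.Agent.MPa9445a.GD
open Pool.Agent.MPa9445a.SN (kb)
open Pool.Agent.MPa9445a.GL (Pc Pf Df rk sv br rc dk RL Zn LL lvv inl EE HE HF HL PP Pm c_rk bd_rk
  c_rc c_dk c_RL c_Zn c_LL bd_LL c_lvv c_inl c_bl c_EE Bd.dom' c_sv YS tl c_run c_tl length_run_le
  length_tl PB_dom c_bf c_min full c_full rk_le)
open Pool.Agent.MPa9445a.SB (Lev c1 c2)
open Pool.Agent.MPa9445a.SX (jx dgt agc HA HV grN scL hN exL UL MB BL nB atp atI ndp P2 P1 oo RT UT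
  cd0 cd1 cnd YB NR)
open Pool.Agent.MPa9445a.BW (bw wB c_bw one_le_wB)

variable {A : Type} {N : A → ℕ} {D : A → Prop} {Γ : List Ty} {ρ : A → Env Γ}

/-- The weight of the budget and the enumeration of the small sets. -/
noncomputable def wT (n b : ℕ) : ℝ := (2 : ℝ) ^ (n - n / 2) + (2 : ℝ) ^ b

theorem le_wT (n b : ℕ) : (2 : ℝ) ^ b ≤ wT n b := le_add_of_nonneg_left (by positivity)

theorem one_le_wT (n b : ℕ) : 1 ≤ wT n b := (one_le_two_pow' b).trans (le_wT n b)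

theorem c_oo {n : A → ℕ} (hn : PN N D ρ n) : PN N D ρ (fun a => oo (n a)) :=
  c_fof hn (PN.const 2) (PN.const 0) (PN.const 0)

theorem oo_le (n : ℕ) : oo n + GL.bl n ≤ oT n := fof_le (by omega)

theorem tok_eq {b n : ℕ} {R : List ℤ} : SX.tok b n R ↔ tok n R b = 1 := Iff.rfl

/-- The parameters of the top level. -/
def T0 (b n : ℕ) (M R : List ℤ) (p t : ℤ) : Sm := ⟨n, M, R, oo n, full n, g0 n, p, b, t⟩

theorem c_T0 {n b : A → ℕ} {M R : A → List ℤ} {p t : A → ℤ} (hn : PN N D ρ n) (bn : Bd N D n)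
    (hM : PA N D ρ M) (hR : PA N D ρ R) (hb : PN N D ρ b) (bb : Bd N D b) (hp : PI N D ρ p)
    (ht : PI N D ρ t) : SmP N D ρ (fun a => T0 (b a) (n a) (M a) (R a) (p a) (t a)) :=
  ⟨hn, bn, hM, hR, c_oo hn, c_full hn bn, c_g0 hn, bd_g0 bn, hp, hb, bb, ht⟩

/-- The candidate for a pair of levels. -/
theorem c_cd0 (PA' PB' : Lev) {n b z : A → ℕ} {M R : A → List ℤ} {p t : A → ℤ} (hn : PN N D ρ n)
    (bn : Bd N D n) (hM : PA N D ρ M) (hR : PA N D ρ R) (hb : PN N D ρ b) (bb : Bd N D b)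
    (hz : PN N D ρ z) (hp : PI N D ρ p) (ht : PI N D ρ t) (h : ∀ a, D a → n a ≤ g0 (n a) + b a) :
    Cp N D ρ (fun _ a => wT (n a) (b a)) .int
      (fun a => (cd0 PA' PB' (b a) (n a) (M a) (R a) (z a) (p a) (t a) : ℤ)) := by
  have hA := c_Rz hn bn hR hz
  have h00 : ∀ {Γ' : List Ty} {ρ' : A → Env Γ'} {D' : A → Prop},
      Cp N D' ρ' (fun _ a => wT (n a) (b a)) .int (fun _ => 0) :=
    fun {Γ' ρ' D'} => (PN.const 0).lift fun a _ _ _ => one_le_wT _ _
  have hlift : ∀ {Γ' : List Ty} {ρ' : A → Env Γ'} {D' : A → Prop} {ty : Ty} {f : A → ty.Val},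
      Cp N D' ρ' (fun _ a => (2 : ℝ) ^ b a) ty f → Cp N D' ρ' (fun _ a => wT (n a) (b a)) ty f :=
    fun h => h.mono fun a _ τ _ => le_wT _ _
  refine (c_tok hn bn hA hb bb).store fun Γ1 ρ1 k1 hok' => ?_
  have hok : PN N D ρ1 (fun a => tok (n a) (Rz (n a) (R a) (z a)) (b a)) := hok'
  have hq0 := PB.eqN hok (PN.const 1)
  have hD0 : ∀ a, (D a ∧ tok (n a) (Rz (n a) (R a) (z a)) (b a) = 1) → D a := fun a h => h.1
  have hn1 := Cp.dom (k1.n hn) hD0
  have bn1 := Bd.dom' bn hD0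
  have hM1 := Cp.dom (k1.a hM) hD0
  have hA1 := Cp.dom (k1.a hA) hD0
  have hb1 := Cp.dom (k1.n hb) hD0
  have bb1 := Bd.dom' bb hD0
  have hp1 := Cp.dom (k1.i hp) hD0
  have ht1 := Cp.dom (k1.i ht) hD0
  have hx1 := c_T0 hn1 bn1 hM1 hA1 hb1 bb1 hp1 ht1
  have hrk : ∀ a, D a → rk (full (n a)) (n a) ≤ g0 (n a) + b a := fun a ha =>
    (rk_le _ _).trans (h a ha)
  have h1 : Cp N (fun a => D a ∧ tok (n a) (Rz (n a) (R a) (z a)) (b a) = 1) ρ1
      (fun _ a => wT (n a) (b a)) .int (fun a =>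
      if 2 ^ (c1 * lgn (n a) - 1) ≤ hN (n a) (M a) (Rz (n a) (R a) (z a)) (oo (n a)) (full (n a))
          (g0 (n a)) (t a) ∧ (p a + t a) % 2 = 0 ∧
        exL (n a) (M a) (Rz (n a) (R a) (z a)) (oo (n a)) (full (n a)) (g0 (n a)) (t a)
          (dmL (n a) (Rz (n a) (R a) (z a)) (full (n a)) + Rc (n a)) ≤ b a then
        ((gt (UT PA' PB' (b a) (n a) (M a) (R a) (z a) (p a) (t a)) 1).toNat : ℤ)
      else 0) := by
    refine (hlift (c_h hx1 fun a ha => hrk a ha.1)).store fun Γ2 ρ2 k2 hh' => ?_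
    have hh : PN N (fun a => D a ∧ tok (n a) (Rz (n a) (R a) (z a)) (b a) = 1) ρ2
      (fun a => (T0 (b a) (n a) (M a) (Rz (n a) (R a) (z a)) (p a) (t a)).h) := hh'
    have hx2 := hx1.ke k2
    have hpr := PN.pow2 (PN.sub (PN.mul (PN.const 30) (c_lgn hx2.n hx2.bn)) (PN.const 1))
      (((Bd.const 30).mul (bd_lgn hx2.bn)).le fun _ _ => Nat.sub_le _ _)
    have hq1 := PB.and (PB.leN hpr hh) (PB.and (PB.eq (PI.mod (PI.add hx2.p hx2.t) (PI.const 2))
      (PI.const 0)) (PB.leN (c_eU hx2 hh) hx2.b))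
    let D2 : A → Prop := fun a => (D a ∧ tok (n a) (Rz (n a) (R a) (z a)) (b a) = 1) ∧
      (2 ^ (c1 * lgn (n a) - 1) ≤ hN (n a) (M a) (Rz (n a) (R a) (z a)) (oo (n a)) (full (n a))
          (g0 (n a)) (t a) ∧ (p a + t a) % 2 = 0 ∧
        exL (n a) (M a) (Rz (n a) (R a) (z a)) (oo (n a)) (full (n a)) (g0 (n a)) (t a)
          (dmL (n a) (Rz (n a) (R a) (z a)) (full (n a)) + Rc (n a)) ≤ b a)
    have hD1 : ∀ a, D2 a → (D a ∧ tok (n a) (Rz (n a) (R a) (z a)) (b a) = 1) := fun a h => h.1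
    have h2 : Cp N D2 ρ2 (fun _ a => wT (n a) (b a)) .int (fun a =>
        ((gt (UT PA' PB' (b a) (n a) (M a) (R a) (z a) (p a) (t a)) 1).toNat : ℤ)) := by
      refine (c_TB (b := b) hx2.n bn1 hx2.M (k2.a hA1) fun a ha => ha.2).dom hD1 |>.store
        fun Γ3 ρ3 k3 hT => ?_
      have hx3 := (hx2.dom hD1).ke k3
      have hh3 := k3.n (Cp.dom hh hD1)
      have hA3 := k3.a (Cp.dom (k2.a hA1) hD1)
      have hcc : Cp N D2 ρ3 (fun _ a => wT (n a) (b a)) .arr
          (fun a => RT (n a) (M a) (R a) (z a)) := by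
        have h3 := c_cct (c_oT hx3.n) (bd_oT hx3.bn) hA3 hT
        obtain ⟨m, hm⟩ := bd_LL hx3.bn
        refine h3.mono_poly (m + 2) fun a ha τ _ => ⟨one_le_wT _ _, ?_⟩
        have e1 : ((TB (n a) (M a) (Rz (n a) (R a) (z a))).length : ℝ) ≤
            2 * ((LL (n a) : ℝ) * (2 : ℝ) ^ b a) := by
          exact_mod_cast length_TB_le (n a) (M a) _ (b a) ha.1.2
        have e2 : (LL (n a) : ℝ) ≤ ((N a : ℝ) + 2) ^ m := by exact_mod_cast hm a ha
        have e3 := one_le_two_pow' (b a)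
        have e4 : (0 : ℝ) ≤ N a := Nat.cast_nonneg _
        have e5 : (1 : ℝ) ≤ ((N a : ℝ) + 2) ^ m := one_le_pow₀ (by linarith)
        have e6 := le_wT (n a) (b a)
        have e7 : (LL (n a) : ℝ) * (2 : ℝ) ^ b a ≤ ((N a : ℝ) + 2) ^ m * wT (n a) (b a) :=
          mul_le_mul e2 e6 (by positivity) (by positivity)
        have e8 : (1 : ℝ) ≤ ((N a : ℝ) + 2) ^ m * wT (n a) (b a) :=
          one_le_mul_of_one_le_of_one_le e5 (one_le_wT _ _)
        have e9 : (4 : ℝ) ≤ ((N a : ℝ) + 2) ^ 2 := by nlinarith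
        calc ((TB (n a) (M a) (Rz (n a) (R a) (z a))).length : ℝ) + 1
            ≤ 4 * (((N a : ℝ) + 2) ^ m * wT (n a) (b a)) := by linarith
          _ ≤ ((N a : ℝ) + 2) ^ 2 * (((N a : ℝ) + 2) ^ m * wT (n a) (b a)) :=
              mul_le_mul_of_nonneg_right e9 (by linarith)
          _ = ((N a : ℝ) + 2) ^ (m + 2) * wT (n a) (b a) := by ring
      refine hcc.store fun Γ4 ρ4 k4 hRT => ?_
      have hx4 := hx3.ke k4
      have hxT : SmP N D2 ρ4 (fun a => T0 (b a) (n a) (M a) (RT (n a) (M a) (R a) (z a)) (p a)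
        (t a)) := c_T0 hx4.n hx4.bn hx4.M hRT hx4.b hx4.bb hx4.p hx4.t
      have hcg : ∀ a, ∀ i < oT (n a), gt (RT (n a) (M a) (R a) (z a)) i =
          gt (Rz (n a) (R a) (z a)) i := fun a i hi => gt_cct hi
      have hhT : PN N D2 ρ4 (fun a => (T0 (b a) (n a) (M a) (RT (n a) (M a) (R a) (z a)) (p a)
          (t a)).h) := by
        refine (k4.n hh3).congr fun a _ => congrArg (fun m : ℕ => (m : ℤ)) ?_
        exact (hN_congr (hcg a) (oo_le _) _ _ _).symm
      have heU : ∀ a, D2 a → (T0 (b a) (n a) (M a) (RT (n a) (M a) (R a) (z a)) (p a)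
          (t a)).eU ≤ b a := fun a ha => by
        have e1 : (T0 (b a) (n a) (M a) (RT (n a) (M a) (R a) (z a)) (p a) (t a)).eU =
            exL (n a) (M a) (Rz (n a) (R a) (z a)) (oo (n a)) (full (n a)) (g0 (n a)) (t a)
              (dmL (n a) (Rz (n a) (R a) (z a)) (full (n a)) + Rc (n a)) := by
          show exL (n a) (M a) (RT (n a) (M a) (R a) (z a)) (oo (n a)) (full (n a)) (g0 (n a)) (t a)
              (dmL (n a) (RT (n a) (M a) (R a) (z a)) (full (n a)) + Rc (n a)) = _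
          rw [exL_congr (hcg a) (oo_le _), dmL_congr (hcg a)]
        rw [e1]
        exact ha.2.2.2
      refine (hlift (c_U (c_WnL 4999 (c_P1 PA' PB')) hxT hhT heU)).store fun Γ5 ρ5 k5 hU => ?_
      exact (PN.toNat (PI.get hU (PN.const 1))).lift fun a _ τ _ => one_le_wT _ _
    exact Cp.iteD hq1 h2 h00
  refine (Cp.iteD hq0 h1 h00).congr fun a _ => ?_
  unfold SX.cd0
  by_cases e1 : tok (n a) (Rz (n a) (R a) (z a)) (b a) = 1
  · rw [if_pos e1, if_pos (tok_eq.2 e1)]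
    split_ifs <;> rfl
  · rw [if_neg e1, if_neg fun e2 => e1 (tok_eq.1 e2)]
    rfl

end Pool.Agent.MPa9445a.GS
end

section

/-! The running time of the whole program. -/

set_option autoImplicit false

open Finset

namespace Pool.Agent.MPa9445a.GS

open Pool.Agent.MPa9445a.BE (Ty Env vs one Bd NL DL tb flt gt bit Phi vec code lin argmax Bd.const
  Bd.add Bd.mul Bd.le Bd.up Bd.var Bd.self)
open Pool.Agent.MPa9445a.GD
open Pool.Agent.MPa9445a.SN (kb)
open Pool.Agent.MPa9445a.GL (Pc Pf Df rk sv br rc dk RL Zn LL lvv inl EE HE HF HL PP Pm c_rk bd_rk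
  c_rc c_dk c_RL c_Zn c_LL bd_LL c_lvv c_inl c_bl c_EE Bd.dom' c_sv YS tl c_run c_tl length_run_le
  length_tl PB_dom c_bf c_min full c_full rk_le)
open Pool.Agent.MPa9445a.SB (Lev c1 c2)
open Pool.Agent.MPa9445a.SX (jx dgt agc HA HV grN scL hN exL UL MB BL nB atp atI ndp P2 P1 oo RT UT
  cd0 cd1 cnd YB NR bT tc out Lb)
open Pool.Agent.MPa9445a.BW (bw wB c_bw one_le_wB)

variable {A : Type} {N : A → ℕ} {D : A → Prop} {Γ : List Ty} {ρ : A → Env Γ}

/-- The weight of a candidate. -/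
noncomputable def wC (τ : ℝ) (n b : ℕ) : ℝ := wT n b + wB τ n

theorem wT_le (τ : ℝ) (hτ : 2 ≤ τ) (n b : ℕ) : wT n b ≤ wC τ n b :=
  le_add_of_nonneg_right (zero_le_one.trans (one_le_wB n hτ))

theorem wB_le' (τ : ℝ) (n b : ℕ) : wB τ n ≤ wC τ n b :=
  le_add_of_nonneg_left (zero_le_one.trans (one_le_wT n b))

theorem two_le_wC (τ : ℝ) (n b : ℕ) (hτ : 2 ≤ τ) : (2 : ℝ) ^ b ≤ wC τ n b :=
  (le_wT n b).trans (wT_le τ hτ n b)

theorem one_le_wC (τ : ℝ) (hτ : 2 ≤ τ) (n b : ℕ) : 1 ≤ wC τ n b :=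
  (one_le_wT n b).trans (wT_le τ hτ n b)

/-- The candidate for a sample. -/
theorem c_cd1 {n b z y : A → ℕ} {M R : A → List ℤ} {t : A → ℤ} (hn : PN N D ρ n)
    (bn : Bd N D n) (hM : PA N D ρ M) (hR : PA N D ρ R)
    (hz : PN N D ρ z) (ht : PI N D ρ t) (hy : PN N D ρ y) (h : ∀ a, D a → n a ≤ g0 (n a) + b a) :
    Cp N D ρ (fun τ a => wC τ (n a) (b a)) .int
      (fun a => (cd1 (n a) (M a) (R a) (z a) (t a) (y a) : ℤ)) := by
  have hA := c_Rz hn bn hR hz
  obtain ⟨c, hc⟩ := two_pow_jx (N := N) (D := D) (n := n) (m := n) (g := fun a => g0 (n a)) (b := b)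
    bn h
  have h1 : Cp N D ρ (fun τ a => wC τ (n a) (b a)) .arr (fun a =>
      YS (n a) (M a) (Rz (n a) (R a) (z a)) (oo (n a)) (full (n a)) (jx (n a) (n a) (g0 (n a)))
        (t a)) := by
    refine (Cp.filter (q := fun a κ => Phi (n a) (M a) (sv (n a) (full (n a)) (rc (n a)
      (Rz (n a) (R a) (z a)) (oo (n a)) κ)) = t a) (PN.pow2 (c_jx hn bn hn (c_g0 hn))
        (bd_jx bn bn)) fun Γ1 ρ1 up hv => ?_).mono_poly (c + 1) fun a ha τ hτ =>
          ⟨one_le_wC τ hτ _ _, ?_⟩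
    · have hn1 := up.n hn
      have bn1 := bn.up (fun a => 2 ^ jx (n a) (n a) (g0 (n a)))
      exact PB.eq (PI.Phi hn1 bn1 (up.a hM) (c_sv hn1 bn1 (c_full hn1 bn1) (c_rc hn1 bn1 (up.a hA)
        (c_oo hn1) hv))) (up.i ht)
    · have e1 := hc a ha
      have e2 := two_le_wC τ (n a) (b a) hτ
      have e3 : (2 : ℝ) ^ jx (n a) (n a) (g0 (n a)) ≤ ((N a : ℝ) + 2) ^ c * wC τ (n a) (b a) :=
        e1.trans (mul_le_mul_of_nonneg_left e2 (by positivity))
      push_cast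
      exact lp (N := N a) (m := c) (one_le_wC τ hτ _ _) e3
  refine h1.store fun Γ1 ρ1 k1 hF => ?_
  have hn1 := k1.n hn
  have hy1 := c_sv hn1 bn (c_full hn1 bn) (c_rc hn1 bn (k1.a hA) (c_oo hn1)
    (PN.toNat (PI.get hF (k1.n hy))))
  exact (c_bw hn1 bn (k1.a hM) hy1).mono fun a _ τ _ => wB_le' τ _ _

theorem c_NR {n : A → ℕ} (hn : PN N D ρ n) : PN N D ρ (fun a => NR (n a)) :=
  PN.add (PN.mul (PN.const 6) (PN.pow hn 2)) (PN.const 20)

theorem bd_NR {n : A → ℕ} (bn : Bd N D n) : Bd N D (fun a => NR (n a)) :=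
  ((Bd.const 6).mul (bd_pow bn 2)).add (Bd.const 20)

/-- The candidates. -/
theorem c_cnd (PA' PB' : Lev) {n b x : A → ℕ} {M R : A → List ℤ} (hn : PN N D ρ n)
    (bn : Bd N D n) (hM : PA N D ρ M) (hR : PA N D ρ R) (hb : PN N D ρ b) (bb : Bd N D b)
    (hx : PN N D ρ x) (h : ∀ a, D a → n a ≤ g0 (n a) + b a) :
    Cp N D ρ (fun τ a => wC τ (n a) (b a)) .int
      (fun a => (cnd PA' PB' (b a) (n a) (M a) (R a) (x a) : ℤ)) := by
  have hL := c_LL hn
  have hY : PN N D ρ (fun _ => YB) := PN.const YB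
  have hi1 := PN.div hx hY
  have hi2 := PN.div hi1 hL
  have hz := PN.div hi2 hL
  have hp := c_lvv hn (PN.mod hi2 hL)
  have ht := c_lvv hn (PN.mod hi1 hL)
  have hq := PB.eqN (PN.mod hx hY) (PN.const 0)
  have h1 : Cp N D ρ (fun τ a => wC τ (n a) (b a)) .int _ :=
    (c_cd0 PA' PB' hn bn hM hR hb bb hz hp ht h).mono fun a _ τ hτ => wT_le τ hτ _ _
  have h2 := c_cd1 (b := b) hn bn hM hR hz ht (PN.sub (PN.mod hx hY) (PN.const 1)) h
  refine (Cp.iteD hq (Cp.dom h1 fun a h => h.1) (Cp.dom h2 fun a h => h.1)).congr fun a _ => ?_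
  unfold SX.cnd
  split_ifs <;> rfl

/-- The weight of the whole program. -/
noncomputable def wA (τ : ℝ) (n₀ n b : ℕ) : ℝ := if n < n₀ then (2 : ℝ) ^ n else wC τ n b

theorem one_le_wA (τ : ℝ) (hτ : 2 ≤ τ) (n₀ n b : ℕ) : 1 ≤ wA τ n₀ n b := by
  unfold wA
  split_ifs
  · exact one_le_two_pow' _
  · exact one_le_wC τ hτ _ _

theorem c_bT {n : A → ℕ} (cb : ℕ) (hn : PN N D ρ n) (bn : Bd N D n) :
    PN N D ρ (fun a => bT cb (n a)) :=
  PN.add (c_g0 hn) (PN.mul (PN.const cb) (c_lgn hn bn))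

theorem bd_bT {n : A → ℕ} (cb : ℕ) (bn : Bd N D n) : Bd N D (fun a => bT cb (n a)) :=
  (bd_g0 bn).add ((Bd.const cb).mul (bd_lgn bn))

/-- The code of the result. -/
theorem c_tc (PA' PB' : Lev) (cb n₀ : ℕ) (h0 : ∀ n, n₀ ≤ n → n ≤ g0 n + bT cb n) {n : A → ℕ}
    {M R : A → List ℤ} (hn : PN N D ρ n) (bn : Bd N D n) (hM : PA N D ρ M) (hR : PA N D ρ R) :
    Cp N D ρ (fun τ a => wA τ n₀ (n a) (bT cb (n a))) .int
      (fun a => (tc PA' PB' cb n₀ (n a) (M a) (R a) : ℤ)) := by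
  have hq := PB.ltN hn (PN.const n₀)
  have h1 : Cp N (fun a => D a ∧ n a < n₀) ρ (fun τ a => wA τ n₀ (n a) (bT cb (n a))) .int
      (fun a => (argmax (2 ^ n a) fun c => Phi (n a) (M a) (vec (n a) c.toNat) : ℕ)) := by
    have hD : ∀ a, (D a ∧ n a < n₀) → D a := fun a h => h.1
    have h := Cp.amax (k := fun a => 2 ^ n a) (w := one)
      (f := fun a i => Phi (n a) (M a) (vec (n a) i)) (PN.pow2 (Cp.dom hn hD) (Bd.dom' bn hD))
      (fun a _ τ _ => le_rfl) fun Γ4 ρ4 up hv =>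
        PI.Phi (up.n (Cp.dom hn hD)) ((Bd.dom' bn hD).up _) (up.a (Cp.dom hM hD))
          (PA.vec (up.n (Cp.dom hn hD)) ((Bd.dom' bn hD).up _) hv)
    refine h.mono_poly 1 fun a ha τ hτ => ⟨one_le_wA _ hτ _ _ _, ?_⟩
    have e1 : wA τ n₀ (n a) (bT cb (n a)) = (2 : ℝ) ^ n a := if_pos ha.2
    rw [e1]
    have h5 := one_le_two_pow' (n a)
    have h4 : (0 : ℝ) ≤ N a := Nat.cast_nonneg _
    simp only [one]
    push_cast
    nlinarith
  have h2 : Cp N (fun a => D a ∧ ¬ n a < n₀) ρ (fun τ a => wA τ n₀ (n a) (bT cb (n a))) .int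
      (fun a => (cnd PA' PB' (bT cb (n a)) (n a) (M a) (R a)
        (argmax (NR (n a) * LL (n a) * LL (n a) * YB) fun x =>
          Phi (n a) (M a) (vec (n a) (cnd PA' PB' (bT cb (n a)) (n a) (M a) (R a) x.toNat))) :
            ℤ)) := by
    have hD : ∀ a, (D a ∧ ¬ n a < n₀) → D a := fun a h => h.1
    have hn1 := Cp.dom hn hD
    have bn1 := Bd.dom' bn hD
    have hM1 := Cp.dom hM hD
    have hR1 := Cp.dom hR hD
    have hb1 := c_bT cb hn1 bn1
    have bb1 := bd_bT (N := N) cb bn1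
    have hh : ∀ a, (D a ∧ ¬ n a < n₀) → n a ≤ g0 (n a) + bT cb (n a) := fun a h =>
      h0 _ (not_lt.1 h.2)
    have hw : ∀ a, (D a ∧ ¬ n a < n₀) → ∀ τ : ℝ, 2 ≤ τ →
        wC τ (n a) (bT cb (n a)) ≤ wA τ n₀ (n a) (bT cb (n a)) := fun a h τ _ => by
      unfold wA
      rw [if_neg h.2]
    have hK : PN N (fun a => D a ∧ ¬ n a < n₀) ρ (fun a => NR (n a) * LL (n a) * LL (n a) * YB) :=
      PN.mul (PN.mul (PN.mul (c_NR hn1) (c_LL hn1)) (c_LL hn1)) (PN.const YB)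
    have bK : Bd N (fun a => D a ∧ ¬ n a < n₀) (fun a => NR (n a) * LL (n a) * LL (n a) * YB) :=
      (((bd_NR bn1).mul (bd_LL bn1)).mul (bd_LL bn1)).mul (Bd.const YB)
    have h3 : Cp N (fun a => D a ∧ ¬ n a < n₀) ρ (fun τ a => wC τ (n a) (bT cb (n a))) .int
        (fun a => (argmax (NR (n a) * LL (n a) * LL (n a) * YB) fun x =>
          Phi (n a) (M a) (vec (n a) (cnd PA' PB' (bT cb (n a)) (n a) (M a) (R a) x.toNat)) :
            ℕ)) := by
      have h4 := Cp.amax (k := fun a => NR (n a) * LL (n a) * LL (n a) * YB)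
        (w := fun τ a => wC τ (n a) (bT cb (n a)))
        (f := fun a i => Phi (n a) (M a) (vec (n a) (cnd PA' PB' (bT cb (n a)) (n a) (M a) (R a)
          i))) hK (fun a _ τ hτ => one_le_wC τ hτ _ _) fun Γ4 ρ4 up hv => by
          have hc := c_cnd PA' PB' (up.n hn1) (bn1.up _) (up.a hM1) (up.a hR1) (up.n hb1)
            (bb1.up _) hv fun p hp => hh p.1 hp.1
          refine hc.store fun Γ5 ρ5 k5 hc5 => ?_
          exact (PI.Phi (k5.n (up.n hn1)) (bn1.up _) (k5.a (up.a hM1))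
            (PA.vec (k5.n (up.n hn1)) (bn1.up _) hc5)).lift fun p _ τ hτ => one_le_wC τ hτ _ _
      obtain ⟨m, hm⟩ := bK
      refine h4.mono_poly (m + 1) fun a ha τ hτ => ⟨one_le_wC τ hτ _ _, ?_⟩
      exact BW.W3_num (one_le_wC τ hτ _ _) (by exact_mod_cast hm a ha)
    have h5 : Cp N (fun a => D a ∧ ¬ n a < n₀) ρ (fun τ a => wC τ (n a) (bT cb (n a))) .int
      (fun a => (cnd PA' PB' (bT cb (n a)) (n a) (M a) (R a)
        (argmax (NR (n a) * LL (n a) * LL (n a) * YB) fun x =>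
          Phi (n a) (M a) (vec (n a) (cnd PA' PB' (bT cb (n a)) (n a) (M a) (R a) x.toNat))) :
            ℤ)) := by
      refine h3.store fun Γ1 ρ1 k1 hi => ?_
      exact c_cnd PA' PB' (k1.n hn1) bn1 (k1.a hM1) (k1.a hR1) (k1.n hb1) bb1 hi hh
    exact h5.mono hw
  refine (Cp.iteD hq h1 h2).congr fun a _ => ?_
  unfold SX.tc
  split_ifs <;> rfl

/-- The result. -/
theorem c_out (PA' PB' : Lev) (cb n₀ : ℕ) (h0 : ∀ n, n₀ ≤ n → n ≤ g0 n + bT cb n) {n : A → ℕ}
    {M R : A → List ℤ} (hn : PN N D ρ n) (bn : Bd N D n) (hM : PA N D ρ M) (hR : PA N D ρ R) :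
    Cp N D ρ (fun τ a => wA τ n₀ (n a) (bT cb (n a))) .arr
      (fun a => out PA' PB' cb n₀ (n a) (M a) (R a)) := by
  refine (c_tc PA' PB' cb n₀ h0 hn bn hM hR).store fun Γ4 ρ4 k4 ht4 => ?_
  exact (PA.tab (f := fun a v => (bit (tc PA' PB' cb n₀ (n a) (M a) (R a)) v : ℤ)) (k4.n hn) bn
    fun Γ5 ρ5 up hv => PN.bit (up.n ht4) hv (Bd.var bn)).lift
    fun a _ τ hτ => one_le_wA _ hτ _ _ _

end Pool.Agent.MPa9445a.GS
end

section

/-!
# The table
-/

set_option autoImplicit false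

open Finset
open scoped symmDiff

namespace Pool.Agent.MPa9445a.GS

open Pool.Agent.MPa9445a.BE (Ty Env vs one Bd NL DL tb flt gt bit Phi vec code lin argmax fv wtm)
open Pool.Agent.MPa9445a.GD
open Pool.Agent.MPa9445a.SN (kb ST Fm rs)
open Pool.Agent.MPa9445a.GL (Pc Pf Df rk sv rc dk RL Zn LL lvv inl EE Vc S Ph Lv Cpl cdv Wb lvl Fr)
open Pool.Agent.MPa9445a.SB (Rf bl Cc Hm Lf)

variable {n : ℕ}

theorem tb_cons (L : List ℤ) (k : ℤ) :
    tb L.length (fun i => k + gt (1 :: L) (1 + i)) = L.map fun y => k + y := by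
  refine List.ext_getElem ?_ fun i h1 h2 => ?_
  · simp [BE.tb]
  · have hi : i < L.length := by simpa [BE.tb] using h1
    simp only [BE.tb, List.getElem_map, List.getElem_range]
    congr 1
    rw [BE.gt, Nat.add_comm 1 i, List.getD_cons_succ, List.getD_eq_getElem _ _ hi]

theorem enT_cases {M : List ℤ} (hW : Wb (wtm n M)) (A : List ℤ) (D : Finset (Fin n)) (x : ℕ) :
    (anT n M A (cdX D) x = [] ∧ enT n M A (cdX D) x = [kyT n (cdX D) x + 2 ^ n]) ∨
      ∃ L, anT n M A (cdX D) x = 1 :: L ∧ Cpl L (Lv (wtm n M) (bl D) (lvv n x)) ∧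
        enT n M A (cdX D) x = L.map fun y => kyT n (cdX D) x + y := by
  have h1 := GO_snd (R := A) hW (s := bkA n (cdX D)) (X := D) (by rw [fv_bkA, ST_cdX]) (lvv n x)
    (jt n (pcn n (cdX D)))
  rcases h1 with h1 | ⟨L, h1, h2⟩
  · refine Or.inl ⟨h1, ?_⟩
    have h3 : anT n M A (cdX D) x = [] := h1
    unfold enT
    rw [h3]
    rfl
  · refine Or.inr ⟨L, h1, h2, ?_⟩
    have h3 : anT n M A (cdX D) x = 1 :: L := h1
    unfold enT
    rw [h3, if_neg (by simp)]
    exact tb_cons L _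

theorem Cpl_bd {L : List ℤ} {P : Finset (Vc n)} (h : Cpl L P) {z : ℤ} (hz : z ∈ L) :
    0 ≤ z ∧ z < 2 ^ n := by
  obtain ⟨x, _, rfl⟩ := (h.2 z).1 hz
  exact GL.cdv_lt x

theorem enT_bd {M : List ℤ} (hW : Wb (wtm n M)) {A : List ℤ} {D : Finset (Fin n)} {x : ℕ} {z : ℤ}
    (hz : z ∈ enT n M A (cdX D) x) :
    kyT n (cdX D) x ≤ z ∧ z < kyT n (cdX D) x + 2 ^ (n + 1) := by
  have h0 : (0 : ℤ) < 2 ^ n := by positivity
  have h1 : (2 : ℤ) ^ (n + 1) = 2 * 2 ^ n := by ring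
  rcases enT_cases hW A D x with ⟨_, h2⟩ | ⟨L, _, hL, h2⟩
  · rw [h2, List.mem_singleton] at hz
    rw [hz, h1]
    constructor <;> linarith
  · rw [h2, List.mem_map] at hz
    obtain ⟨y, hy, rfl⟩ := hz
    obtain ⟨h3, h4⟩ := Cpl_bd hL hy
    rw [h1]
    constructor <;> linarith

theorem nodup_enT {M : List ℤ} (hW : Wb (wtm n M)) (A : List ℤ) (D : Finset (Fin n)) (x : ℕ) :
    (enT n M A (cdX D) x).Nodup := by
  rcases enT_cases hW A D x with ⟨_, h2⟩ | ⟨L, _, hL, h2⟩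
  · rw [h2]
    exact List.nodup_singleton _
  · rw [h2]
    exact hL.1.map fun a b h => by linarith

theorem kyT_inj {c c' x x' : ℕ} {z : ℤ} (hx : x < LL n) (hx' : x' < LL n)
    (h1 : kyT n c x ≤ z) (h2 : z < kyT n c x + 2 ^ (n + 1)) (h3 : kyT n c' x' ≤ z)
    (h4 : z < kyT n c' x' + 2 ^ (n + 1)) : c = c' ∧ x = x' := by
  unfold kyT at h1 h2 h3 h4
  have h0 : (0 : ℤ) < 2 ^ (n + 1) := by positivity
  have e1 : ((c * LL n + x : ℕ) : ℤ) < ((c' * LL n + x' : ℕ) : ℤ) + 1 := by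
    by_contra h
    rw [not_lt] at h
    have := mul_le_mul_of_nonneg_right h h0.le
    nlinarith
  have e2 : ((c' * LL n + x' : ℕ) : ℤ) < ((c * LL n + x : ℕ) : ℤ) + 1 := by
    by_contra h
    rw [not_lt] at h
    have := mul_le_mul_of_nonneg_right h h0.le
    nlinarith
  have e3 : c * LL n + x = c' * LL n + x' := by
    have e4 : c * LL n + x < c' * LL n + x' + 1 := by exact_mod_cast e1
    have e5 : c' * LL n + x' < c * LL n + x + 1 := by exact_mod_cast e2
    omega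
  have hL : 0 < LL n := by
    unfold GL.LL
    omega
  have e6 : (c * LL n + x) / LL n = c := by
    rw [Nat.add_comm, Nat.add_mul_div_right _ _ hL, Nat.div_eq_of_lt hx, zero_add]
  have e7 : (c' * LL n + x') / LL n = c' := by
    rw [Nat.add_comm, Nat.add_mul_div_right _ _ hL, Nat.div_eq_of_lt hx', zero_add]
  have e8 : c = c' := by rw [← e6, e3, e7]
  refine ⟨e8, ?_⟩
  rw [e8] at e3
  omega

theorem LL_pos (n : ℕ) : 0 < LL n := by
  unfold GL.LL
  omega

theorem mem_TBu {M A : List ℤ} {z : ℤ} :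
    z ∈ TBu n M A ↔ ∃ D ∈ CS n A, ∃ x < LL n, z ∈ enT n M A (cdX D) x := by
  unfold TBu
  rw [mem_fm]
  constructor
  · rintro ⟨y, hy, hz⟩
    have h1 : y / LL n < (cdl n A).length :=
      Nat.div_lt_of_lt_mul (by rw [Nat.mul_comm]; exact hy)
    have h2 : gt (cdl n A) (y / LL n) ∈ cdl n A := by
      rw [BE.gt, List.getD_eq_getElem _ _ h1]
      exact List.getElem_mem h1
    obtain ⟨D, hD, h3⟩ := mem_cdl.1 h2
    rw [← h3, Int.toNat_natCast] at hz
    exact ⟨D, hD, _, Nat.mod_lt _ (LL_pos n), hz⟩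
  · rintro ⟨D, hD, x, hx, hz⟩
    obtain ⟨i, hi, h3⟩ := List.getElem_of_mem ((mem_cdl (A := A)).2 ⟨D, hD, rfl⟩)
    refine ⟨i * LL n + x, ?_, ?_⟩
    · calc i * LL n + x < i * LL n + LL n := by omega
        _ = (i + 1) * LL n := by ring
        _ ≤ (cdl n A).length * LL n := Nat.mul_le_mul_right _ hi
    · have e1 : (i * LL n + x) / LL n = i := by
        rw [Nat.add_comm, Nat.add_mul_div_right _ _ (LL_pos n), Nat.div_eq_of_lt hx, zero_add]
      have e2 : (i * LL n + x) % LL n = x := by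
        rw [Nat.add_comm, Nat.add_mul_mod_self_right, Nat.mod_eq_of_lt hx]
      rw [e1, e2, BE.gt, List.getD_eq_getElem _ _ hi, h3, Int.toNat_natCast]
      exact hz

theorem nodup_TBu {M : List ℤ} (hW : Wb (wtm n M)) (A : List ℤ) : (TBu n M A).Nodup := by
  have key : ∀ y < (cdl n A).length * LL n, ∃ D : Finset (Fin n),
      (gt (cdl n A) (y / LL n)).toNat = cdX D ∧ gt (cdl n A) (y / LL n) = (cdX D : ℤ) := by
    intro y hy
    have h1 : y / LL n < (cdl n A).length :=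
      Nat.div_lt_of_lt_mul (by rw [Nat.mul_comm]; exact hy)
    have h2 : gt (cdl n A) (y / LL n) ∈ cdl n A := by
      rw [BE.gt, List.getD_eq_getElem _ _ h1]
      exact List.getElem_mem h1
    obtain ⟨D, hD, h3⟩ := mem_cdl.1 h2
    exact ⟨D, by rw [← h3, Int.toNat_natCast], h3.symm⟩
  unfold TBu fm
  rw [List.nodup_flatMap]
  refine ⟨fun y hy => ?_, ?_⟩
  · obtain ⟨D, h1, _⟩ := key y (List.mem_range.1 hy)
    rw [h1]
    exact nodup_enT hW A D _
  · refine List.Nodup.pairwise_of_forall_ne List.nodup_range fun y hy y' hy' hne => ?_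
    obtain ⟨D, h1, h2⟩ := key y (List.mem_range.1 hy)
    obtain ⟨D', h1', h2'⟩ := key y' (List.mem_range.1 hy')
    intro z hz hz'
    beta_reduce at hz hz'
    rw [h1] at hz
    rw [h1'] at hz'
    obtain ⟨a1, a2⟩ := enT_bd hW hz
    obtain ⟨a3, a4⟩ := enT_bd hW hz'
    obtain ⟨b1, b2⟩ := kyT_inj (Nat.mod_lt _ (LL_pos n)) (Nat.mod_lt _ (LL_pos n)) a1 a2 a3 a4
    refine hne ?_
    have hl : y / LL n < (cdl n A).length :=
      Nat.div_lt_of_lt_mul (by rw [Nat.mul_comm]; exact List.mem_range.1 hy)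
    have hl' : y' / LL n < (cdl n A).length :=
      Nat.div_lt_of_lt_mul (by rw [Nat.mul_comm]; exact List.mem_range.1 hy')
    have h3 : gt (cdl n A) (y / LL n) = gt (cdl n A) (y' / LL n) := by rw [h2, h2', b1]
    rw [BE.gt, BE.gt, List.getD_eq_getElem _ _ hl, List.getD_eq_getElem _ _ hl'] at h3
    have h4 : y / LL n = y' / LL n := (List.Nodup.getElem_inj_iff (nodup_cdl n A)).1 h3
    rw [← Nat.div_add_mod y (LL n), ← Nat.div_add_mod y' (LL n), h4, b2]

theorem TBu_bd {M : List ℤ} (hW : Wb (wtm n M)) {A : List ℤ} {z : ℤ} (hz : z ∈ TBu n M A) :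
    0 ≤ z ∧ z < 2 ^ (2 * n + 1 + LL n) := by
  obtain ⟨D, _, x, hx, hz⟩ := mem_TBu.1 hz
  obtain ⟨h1, h2⟩ := enT_bd hW hz
  have h3 : (0 : ℤ) ≤ kyT n (cdX D) x := by
    unfold kyT
    positivity
  refine ⟨h3.trans h1, h2.trans_le ?_⟩
  have h4 : cdX D * LL n + x + 1 ≤ 2 ^ n * 2 ^ LL n := by
    calc cdX D * LL n + x + 1 ≤ (cdX D + 1) * LL n := by
          rw [Nat.add_mul, Nat.one_mul]
          omega
      _ ≤ 2 ^ n * 2 ^ LL n := Nat.mul_le_mul (cdX_lt D) Nat.lt_two_pow_self.le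
  have h5 : ((cdX D * LL n + x : ℕ) : ℤ) + 1 ≤ 2 ^ n * 2 ^ LL n := by exact_mod_cast h4
  unfold kyT
  calc ((cdX D * LL n + x : ℕ) : ℤ) * 2 ^ (n + 1) + 2 ^ (n + 1) =
      (((cdX D * LL n + x : ℕ) : ℤ) + 1) * 2 ^ (n + 1) := by ring
    _ ≤ (2 ^ n * 2 ^ LL n) * 2 ^ (n + 1) := mul_le_mul_of_nonneg_right h5 (by positivity)
    _ = 2 ^ (2 * n + 1 + LL n) := by
        rw [← pow_add, ← pow_add]
        congr 1
        ring

theorem length_TBu_two {M : List ℤ} (hW : Wb (wtm n M)) (A : List ℤ) :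
    (TBu n M A).length ≤ 2 ^ (2 * n + 1 + LL n) := by
  rw [← List.toFinset_card_of_nodup (nodup_TBu hW A)]
  calc (TBu n M A).toFinset.card ≤ (Finset.Ico (0 : ℤ) (2 ^ (2 * n + 1 + LL n))).card :=
        Finset.card_le_card fun z hz => by
          rw [Finset.mem_Ico]
          exact TBu_bd hW (List.mem_toFinset.1 hz)
    _ = 2 ^ (2 * n + 1 + LL n) := by
        rw [Int.card_Ico, sub_zero]
        have : ((2 : ℤ) ^ (2 * n + 1 + LL n)) = ((2 ^ (2 * n + 1 + LL n) : ℕ) : ℤ) := by push_cast; rfl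
        rw [this, Int.toNat_natCast]

/-! ## The array with the table -/

/-- The array with the table. -/
def RA (n : ℕ) (M A : List ℤ) : List ℤ := cct (oT n) A (TB n M A)

theorem RA_eq (n : ℕ) (M A : List ℤ) : RA n M A = cpy (oT n) A ++ TB n M A := by
  unfold RA cct fm
  simp [List.range_succ]

theorem length_cpy (k : ℕ) (L : List ℤ) : (cpy k L).length = k := by simp [cpy, BE.tb]

theorem length_RA (n : ℕ) (M A : List ℤ) : (RA n M A).length = oT n + (TBu n M A).length := by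
  rw [RA_eq, List.length_append, length_cpy]
  unfold TB
  rw [(srt_perm _ _).length_eq]

theorem gt_RA (n : ℕ) (M A : List ℤ) (i : ℕ) : gt (RA n M A) (oT n + i) = gt (TB n M A) i := by
  rw [RA_eq, BE.gt, BE.gt, List.getD_append_right _ _ _ _ (by rw [length_cpy]; omega), length_cpy]
  congr 1
  omega

theorem length_TB (n : ℕ) (M A : List ℤ) : (TB n M A).length = (TBu n M A).length := by
  unfold TB
  rw [(srt_perm _ _).length_eq]

theorem RA_lt {M : List ℤ} (hW : Wb (wtm n M)) (A : List ℤ) : (RA n M A).length < 2 ^ kT n := by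
  rw [length_RA]
  have h1 := length_TBu_two hW A
  have h2 : oT n < 2 ^ oT n := Nat.lt_two_pow_self
  have h3 : 1 ≤ 2 ^ (2 * n + 1 + LL n) := Nat.one_le_two_pow
  have h4 : 2 ^ kT n = 2 * (2 ^ oT n * 2 ^ (2 * n + 1 + LL n)) := by
    unfold kT
    rw [← pow_add, ← pow_succ']
    congr 1
    ring
  rw [h4]
  generalize 2 ^ (2 * n + 1 + LL n) = Y at *
  generalize 2 ^ oT n = Z at *
  have h5 : oT n + Y ≤ Z * Y := by
    calc oT n + Y ≤ oT n * Y + Y := by nlinarith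
      _ = (oT n + 1) * Y := by ring
      _ ≤ Z * Y := Nat.mul_le_mul_right _ h2
  have h6 : 1 ≤ Z * Y := Nat.one_le_iff_ne_zero.2 (by
    have : 0 < Z * Y := Nat.mul_pos (by omega) (by omega)
    omega)
  omega

theorem TB_sorted {M : List ℤ} (hW : Wb (wtm n M)) (A : List ℤ) :
    (TB n M A).Pairwise (· ≤ ·) := by
  refine srt_sorted fun z hz => ?_
  obtain ⟨h1, h2⟩ := TBu_bd hW hz
  refine ⟨h1, h2.trans_le ?_⟩
  refine pow_le_pow_right₀ (by norm_num) ?_
  unfold kT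
  omega

theorem TB_nodup {M : List ℤ} (hW : Wb (wtm n M)) (A : List ℤ) : (TB n M A).Nodup := by
  unfold TB
  rw [(srt_perm _ _).nodup_iff]
  exact nodup_TBu hW A

theorem mem_TB {M A : List ℤ} {z : ℤ} : z ∈ TB n M A ↔ z ∈ TBu n M A := by
  unfold TB
  exact (srt_perm _ _).mem_iff

theorem RA_hs {M : List ℤ} (hW : Wb (wtm n M)) (A : List ℤ) : ∀ i j, i ≤ j →
    oT n + j < (RA n M A).length → gt (RA n M A) (oT n + i) ≤ gt (RA n M A) (oT n + j) := by
  intro i j hij hj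
  rw [length_RA, ← length_TB] at hj
  have hj' : j < (TB n M A).length := by omega
  rw [gt_RA, gt_RA]
  rcases Nat.eq_or_lt_of_le hij with h1 | h1
  · rw [h1]
  · have hi' : i < (TB n M A).length := by omega
    rw [BE.gt, BE.gt, List.getD_eq_getElem _ _ hj', List.getD_eq_getElem _ _ hi']
    exact List.pairwise_iff_getElem.1 (TB_sorted hW A) i j hi' hj' h1

theorem RA_hd {M : List ℤ} (hW : Wb (wtm n M)) (A : List ℤ) : ∀ i j, i < j →
    oT n + j < (RA n M A).length → gt (RA n M A) (oT n + i) ≠ gt (RA n M A) (oT n + j) := by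
  intro i j hij hj h
  rw [length_RA, ← length_TB] at hj
  have hj' : j < (TB n M A).length := by omega
  have hi' : i < (TB n M A).length := by omega
  rw [gt_RA, gt_RA, BE.gt, BE.gt, List.getD_eq_getElem _ _ hj', List.getD_eq_getElem _ _ hi'] at h
  have := (List.Nodup.getElem_inj_iff (TB_nodup hW A)).1 h
  omega

/-- The range for the block `X` and the level with index `x`. -/
def rgX (n : ℕ) (M A : List ℤ) (X : Finset (Fin n)) (x : ℕ) : List ℤ :=
  rg (RA n M A) (oT n) (kyT n (cdX X) x) (kyT n (cdX X) x + 2 ^ (n + 1)) (kT n)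

theorem nodup_rgX {M : List ℤ} (hW : Wb (wtm n M)) (A : List ℤ) (X : Finset (Fin n)) (x : ℕ) :
    (rgX n M A X x).Nodup := nodup_rg (RA_hs hW A) (RA_hd hW A) (RA_lt hW A)

theorem mem_rgX {M : List ℤ} (hW : Wb (wtm n M)) {A : List ℤ} {X : Finset (Fin n)} {x : ℕ}
    (hx : x < LL n) {z : ℤ} : z ∈ rgX n M A X x ↔
      X ∈ CS n A ∧ kyT n (cdX X) x + z ∈ enT n M A (cdX X) x := by
  unfold rgX
  rw [mem_rg (RA_hs hW A) (RA_lt hW A)]
  have h1 : (∃ i, oT n + i < (RA n M A).length ∧ gt (RA n M A) (oT n + i) =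
      kyT n (cdX X) x + z) ↔ kyT n (cdX X) x + z ∈ TBu n M A := by
    rw [← mem_TB]
    constructor
    · rintro ⟨i, hi, h⟩
      rw [length_RA, ← length_TB] at hi
      have hi' : i < (TB n M A).length := by omega
      rw [gt_RA, BE.gt, List.getD_eq_getElem _ _ hi'] at h
      rw [← h]
      exact List.getElem_mem hi'
    · intro h
      obtain ⟨i, hi, h2⟩ := List.getElem_of_mem h
      refine ⟨i, ?_, ?_⟩
      · rw [length_RA, ← length_TB]
        omega
      · rw [gt_RA, BE.gt, List.getD_eq_getElem _ _ hi]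
        exact h2
  rw [h1, mem_TBu]
  constructor
  · rintro ⟨h2, h3, D, hD, x', hx', h4⟩
    obtain ⟨a1, a2⟩ := enT_bd hW h4
    obtain ⟨b1, b2⟩ := kyT_inj (z := kyT n (cdX X) x + z) hx hx' (by linarith) (by linarith) a1 a2
    rw [cdX_inj b1, b2]
    rw [b2] at h4
    have b3 := cdX_inj b1
    rw [b3] at h4
    exact ⟨hD, h4⟩
  · rintro ⟨hD, h4⟩
    obtain ⟨a1, a2⟩ := enT_bd hW h4
    exact ⟨by linarith, by linarith, X, hD, x, hx, h4⟩

/-- The two cases. -/
theorem rgX_cases {M : List ℤ} (hW : Wb (wtm n M)) {A : List ℤ} {X : Finset (Fin n)} {x : ℕ}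
    (hx : x < LL n) (hX : X ∈ CS n A) :
    (anT n M A (cdX X) x = [] ∧ rgX n M A X x = [2 ^ n]) ∨
      ((∃ L, anT n M A (cdX X) x = 1 :: L) ∧
        Cpl (rgX n M A X x) (Lv (wtm n M) (bl X) (lvv n x))) := by
  have hnd := nodup_rgX hW A X x
  rcases enT_cases hW A X x with ⟨h1, h2⟩ | ⟨L, h1, hL, h2⟩
  · refine Or.inl ⟨h1, ?_⟩
    refine List.perm_singleton.1 ((List.perm_ext_iff_of_nodup hnd (List.nodup_singleton _)).2
      fun z => ?_)
    rw [mem_rgX hW hx, h2, List.mem_singleton, List.mem_singleton]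
    constructor
    · rintro ⟨_, h3⟩
      linarith
    · rintro rfl
      exact ⟨hX, rfl⟩
  · refine Or.inr ⟨⟨L, h1⟩, hnd, fun z => ?_⟩
    rw [mem_rgX hW hx, h2, List.mem_map, ← hL.2 z]
    constructor
    · rintro ⟨_, y, hy, h3⟩
      have h4 : y = z := by linarith
      rw [← h4]
      exact hy
    · intro h
      exact ⟨hX, z, h, rfl⟩

end Pool.Agent.MPa9445a.GS
end
end

section

section

/-! The random bits of a repetition and the typed random objects. -/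

set_option autoImplicit false
set_option synthInstance.maxSize 1000

open Finset
open scoped symmDiff

namespace Pool.Agent.MPa9445a.SX

open Pool.Agent.MPa9445a.BE
open Pool.Agent.MPa9445a.SN (ST Fm rs kb rb)
open Pool.Agent.MPa9445a.GL (fR bl)
open Pool.Agent.MPa9445a.GS (oT oH oF Rz RB rowR fof)
open Pool.Agent.MPa9445a.SB (Rf Hm Om ev)

variable {n : ℕ}

private theorem V4b_gt_tb (k : ℕ) (f : ℕ → ℤ) (i : ℕ) : gt (tb k f) i = if i < k then f i else 0 := by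
  unfold gt tb
  rw [List.getD_eq_getElem?_getD, List.getElem?_map]
  by_cases h : i < k
  · rw [List.getElem?_range h, if_pos h]
    rfl
  · rw [if_neg h, List.getElem?_eq_none (by simpa using h)]
    rfl

private theorem V4b_gt_rb {L : ℕ} (ρ : Fin L → Bool) {i : ℕ} (hi : i < L) :
    gt (rb ρ) i = ((ρ ⟨i, hi⟩).toNat : ℤ) := by
  unfold Pool.Agent.MPa9445a.SN.rb gt
  have h : i < (List.ofFn fun i => ((ρ i).toNat : ℤ)).length := by
    rw [List.length_ofFn]
    exact hi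
  rw [List.getD_eq_getElem _ _ h, List.getElem_ofFn]

theorem oT_eq' (n : ℕ) : oT n = oH n + RB n := by
  unfold GS.RB GS.oT GS.oF
  omega

theorem RB_eq' (n : ℕ) : RB n = GS.Rc n * n + (2 * n + 1) * 3 * bl n := by
  unfold GS.RB GS.oT GS.oF
  omega

theorem oF_eq' (n : ℕ) : oF n = oH n + GS.Rc n * n := rfl

/-- The bits of the repetition. -/
theorem gt_ofB (β : Fin (RB n) → Bool) {i : ℕ} (hi : i < RB n) :
    gt (ofB n β) (oH n + i) = ((β ⟨i, hi⟩).toNat : ℤ) := by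
  unfold ofB
  rw [V4b_gt_tb, if_pos (by omega), if_neg (by omega)]
  have e : oH n + i - oH n = i := by omega
  rw [e]
  exact V4b_gt_rb β hi

theorem gt_ofB_cases (β : Fin (RB n) → Bool) (i : ℕ) :
    gt (ofB n β) i = 0 ∨ gt (ofB n β) i = 1 := by
  unfold ofB
  rw [V4b_gt_tb]
  split_ifs with h1 h2
  · left; rfl
  · rw [V4b_gt_rb β (show i - oH n < RB n by omega)]
    cases β ⟨i - oH n, by omega⟩
    · left; rfl
    · right; rfl
  · left; rfl

/-- The entries of the array of a repetition. -/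
theorem gt_Rz0 (β : Fin (RB n) → Bool) {i : ℕ} (h0 : oH n ≤ i) (hi : i < oT n) :
    gt (Rz n (ofB n β) 0) i = if i < oF n ∧ (i - oH n) % n = n - 1 then
      (∑ u ∈ range (n - 1), gt (ofB n β) (i - (u + 1))) % 2 else gt (ofB n β) i := by
  unfold GS.Rz
  rw [V4b_gt_tb, if_pos hi, if_neg (by omega)]
  simp only [zero_mul, add_zero]

theorem fR_congr' {R R' : List ℤ} {o : ℕ} (h : ∀ i < bl n, gt R (o + i) = gt R' (o + i)) :
    fR n R o = fR n R' o := by
  funext v j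
  unfold fR
  have hb : bl n = n * (kb n + 1) := rfl
  have h1 : (v : ℕ) * (kb n + 1) + j < bl n := by
    rw [hb]
    calc (v : ℕ) * (kb n + 1) + j < v * (kb n + 1) + (kb n + 1) := by have := j.2; omega
      _ = (v + 1) * (kb n + 1) := by ring
      _ ≤ n * (kb n + 1) := Nat.mul_le_mul_right _ v.2
  have h2 := h _ h1
  rw [← add_assoc] at h2
  rw [h2]

theorem fR_inj' {R R' : List ℤ} {o : ℕ} (h : fR n R o = fR n R' o) {i : ℕ} (hi : i < bl n) :
    (gt R (o + i) % 2 = 1 ↔ gt R' (o + i) % 2 = 1) := by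
  have hb : bl n = n * (kb n + 1) := rfl
  have hv : i / (kb n + 1) < n := by
    rw [hb] at hi
    exact Nat.div_lt_of_lt_mul (by rw [mul_comm]; exact hi)
  have hj : i % (kb n + 1) < kb n + 1 := Nat.mod_lt _ (by omega)
  have h1 := congrFun (congrFun h ⟨_, hv⟩) ⟨_, hj⟩
  unfold fR at h1
  simp only [decide_eq_decide] at h1
  have e : o + i / (kb n + 1) * (kb n + 1) + i % (kb n + 1) = o + i := by
    rw [add_assoc, Nat.div_add_mod']
  rw [e] at h1
  exact h1

/-- The families are above the rows. -/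
theorem fof_ge (lev z i : ℕ) : oF n ≤ fof n lev z i := by
  unfold fof
  omega

theorem fof_lt {q r : ℕ} (hq : q < (2 * n + 1) * 3) (hr : r < bl n) : oF n + q * bl n + r < oT n := by
  unfold GS.oT
  have h1 : (q + 1) * bl n ≤ (2 * n + 1) * 3 * bl n := Nat.mul_le_mul_right _ hq
  have h2 : (q + 1) * bl n = q * bl n + bl n := by ring
  omega

/-- The arrays agree in the families. -/
theorem fam_congr {R R' : List ℤ} (h : ∀ i, oF n ≤ i → i < oT n → gt R i = gt R' i) {q : ℕ}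
    (hq : q < (2 * n + 1) * 3) : fR n R (oF n + q * bl n) = fR n R' (oF n + q * bl n) := by
  refine fR_congr' fun i hi => h _ (by omega) (fof_lt hq hi)

theorem omA_congr {R R' : List ℤ} (h : ∀ i, oF n ≤ i → i < oT n → gt R i = gt R' i) :
    omA n R = omA n R' := by
  have h3 : ∀ q, q < 2 * n + 1 → fR3 n R (oF n + q * 3 * bl n) = fR3 n R' (oF n + q * 3 * bl n) := by
    intro q hq
    unfold fR3
    have e1 : oF n + q * 3 * bl n + bl n = oF n + (q * 3 + 1) * bl n := by ring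
    have e2 : oF n + q * 3 * bl n + 2 * bl n = oF n + (q * 3 + 2) * bl n := by ring
    rw [e1, e2, fam_congr h (q := q * 3) (by omega), fam_congr h (q := q * 3 + 1) (by omega),
      fam_congr h (q := q * 3 + 2) (by omega)]
  have h4 : ∀ lev < 2, fRs n R lev = fRs n R' lev := by
    intro lev hl
    funext z
    unfold fRs fof
    have hz := z.2
    have : lev * n + (z : ℕ) < 2 * n + 1 := by
      have : lev * n ≤ 1 * n := Nat.mul_le_mul_right _ (by omega)
      omega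
    simpa using h3 (lev * n + z) this
  have h5 : fR3 n R (oo n) = fR3 n R' (oo n) := by
    unfold oo fof
    simpa using h3 (2 * n) (by omega)
  unfold omA
  rw [h4 0 (by omega), h4 1 (by omega), h5]

theorem omA_inj {R R' : List ℤ} (h : omA n R = omA n R') {i : ℕ} (h0 : oF n ≤ i) (hi : i < oT n) :
    (gt R i % 2 = 1 ↔ gt R' i % 2 = 1) := by
  unfold omA at h
  have h1 : fRs n R 0 = fRs n R' 0 := congrArg Prod.fst h
  have h2 : fRs n R 1 = fRs n R' 1 := congrArg (fun z => z.2.1) h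
  have h3 : fR3 n R (oo n) = fR3 n R' (oo n) := congrArg (fun z => z.2.2) h
  have h4 : ∀ q, q < 2 * n + 1 → fR3 n R (oF n + q * 3 * bl n) = fR3 n R' (oF n + q * 3 * bl n) := by
    intro q hq
    by_cases q1 : q < n
    · have := congrFun h1 ⟨q, q1⟩
      unfold fRs fof at this
      simpa using this
    by_cases q2 : q < 2 * n
    · have := congrFun h2 ⟨q - n, by omega⟩
      unfold fRs fof at this
      have e : 1 * n + (q - n) = q := by omega
      simp only [e, add_zero] at this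
      exact this
    · have e : q = 2 * n := by omega
      subst e
      unfold oo fof at h3
      simpa using h3
  have hb : 0 < bl n := by
    rcases Nat.eq_zero_or_pos (bl n) with hb | hb
    · unfold GS.oT at hi
      rw [hb] at hi
      omega
    · exact hb
  obtain ⟨x, hx⟩ : ∃ x, x = (i - oF n) / bl n := ⟨_, rfl⟩
  have hr : (i - oF n) % bl n < bl n := Nat.mod_lt _ hb
  have hx2 : x < (2 * n + 1) * 3 := by
    rw [hx]
    refine Nat.div_lt_of_lt_mul ?_
    unfold GS.oT at hi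
    rw [mul_comm (bl n)]
    omega
  have e1 : i = oF n + x * bl n + (i - oF n) % bl n := by
    have := Nat.div_add_mod' (i - oF n) (bl n)
    rw [← hx] at this
    omega
  have h5 := h4 (x / 3) (by omega)
  have h6 : fR n R (oF n + x * bl n) = fR n R' (oF n + x * bl n) := by
    have e2 : x = x / 3 * 3 + x % 3 := (Nat.div_add_mod' x 3).symm
    unfold fR3 at h5
    have c : x % 3 = 0 ∨ x % 3 = 1 ∨ x % 3 = 2 := by omega
    rcases c with c | c | c
    · have := congrArg Prod.fst h5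
      simp only at this
      rw [e2, c, add_zero]
      exact this
    · have := congrArg (fun z => z.2.1) h5
      simp only at this
      have e3 : oF n + (x / 3 * 3 + 1) * bl n = oF n + x / 3 * 3 * bl n + bl n := by ring
      rw [e2, c, e3]
      exact this
    · have := congrArg (fun z => z.2.2) h5
      simp only at this
      have e3 : oF n + (x / 3 * 3 + 2) * bl n = oF n + x / 3 * 3 * bl n + 2 * bl n := by ring
      rw [e2, c, e3]
      exact this
  rw [e1]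
  exact fR_inj' h6 hr

/-! ## The rows -/

private theorem V4b_mod {i v : ℕ} (hv : v < n) : (i * n + v) % n = v := by
  rw [mul_comm, Nat.mul_add_mod, Nat.mod_eq_of_lt hv]

private theorem V4b_lt {i v : ℕ} (hi : i < GS.Rc n) (hv : v < n) : oH n + i * n + v < oF n := by
  rw [oF_eq']
  have h1 : (i + 1) * n ≤ GS.Rc n * n := Nat.mul_le_mul_right _ hi
  have h2 : (i + 1) * n = i * n + n := by ring
  omega

theorem mem_row_ofB (β : Fin (RB n) → Bool) (i : ℕ) (v : Fin n) :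
    v ∈ rowR n (ofB n β) (oH n) i ↔ gt (ofB n β) (oH n + i * n + v) = 1 := by
  unfold rowR
  simp only [mem_filter, mem_univ, true_and]
  rcases gt_ofB_cases β (oH n + i * n + v) with h | h <;> rw [h] <;> norm_num

theorem row_ev (hn : 0 < n) (β : Fin (RB n) → Bool) {i : ℕ} (hi : i < GS.Rc n) :
    rowR n (Rz n (ofB n β) 0) (oH n) i =
      ev ⟨n - 1, by omega⟩ (rowR n (ofB n β) (oH n) i) := by
  obtain ⟨l, hl⟩ : ∃ l : Fin n, l = ⟨n - 1, by omega⟩ := ⟨_, rfl⟩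
  have hlv : (l : ℕ) = n - 1 := by rw [hl]
  rw [← hl]
  obtain ⟨A, hA⟩ : ∃ A, A = rowR n (ofB n β) (oH n) i := ⟨_, rfl⟩
  rw [← hA]
  -- the sum is the number of the elements below the last vertex
  have h1 : (∑ u ∈ range (n - 1), gt (ofB n β) (oH n + i * n + l - (u + 1))) =
      ((A.erase l).card : ℤ) := by
    have e1 : (∑ u ∈ range (n - 1), gt (ofB n β) (oH n + i * n + l - (u + 1))) =
        ∑ v ∈ range (n - 1), gt (ofB n β) (oH n + i * n + v) := by
      rw [← Finset.sum_range_reflect]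
      refine Finset.sum_congr rfl fun u hu => ?_
      rw [mem_range] at hu
      congr 1
      rw [hlv]
      omega
    have e3 : ∑ v ∈ range (n - 1), gt (ofB n β) (oH n + i * n + v) =
        ∑ v ∈ range n, if v < n - 1 then gt (ofB n β) (oH n + i * n + v) else 0 := by
      rw [← Finset.sum_filter]
      refine Finset.sum_congr ?_ fun _ _ => rfl
      ext v
      simp only [mem_range, mem_filter]
      omega
    have e4 : A.erase l = univ.filter fun v : Fin n => v ∈ A.erase l := by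
      ext v
      simp
    rw [e1, e3, Finset.sum_range, e4, Finset.card_filter]
    push_cast
    refine Finset.sum_congr rfl fun v _ => ?_
    have hv := v.2
    by_cases hvl : v = l
    · rw [if_neg (by rw [hvl]; omega), if_neg (by rw [hvl]; exact notMem_erase l A)]
    · have h3 : (v : ℕ) < n - 1 := by
        have : (v : ℕ) ≠ l := fun h => hvl (Fin.ext h)
        omega
      rw [if_pos h3]
      have h4 := mem_row_ofB β i v
      rw [← hA] at h4
      rcases gt_ofB_cases β (oH n + i * n + v) with h | h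
      · rw [if_neg, h]
        intro h5
        have h6 := (mem_erase.1 h5).2
        rw [h4, h] at h6
        exact absurd h6 (by norm_num)
      · rw [if_pos (mem_erase.2 ⟨hvl, h4.2 h⟩), h]
  ext v
  have hv := v.2
  have hlt := V4b_lt (n := n) hi v.2
  have hT : oF n ≤ oT n := by
    unfold GS.oT
    omega
  have e5 : oH n + i * n + v - oH n = i * n + v := by omega
  have h6 : v ∈ rowR n (Rz n (ofB n β) 0) (oH n) i ↔
      gt (Rz n (ofB n β) 0) (oH n + i * n + v) % 2 = 1 := by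
    unfold rowR
    simp only [mem_filter, mem_univ, true_and]
  rw [h6, gt_Rz0 β (by omega) (by omega), e5, V4b_mod v.2]
  by_cases hvl : v = l
  · rw [if_pos ⟨hlt, by rw [hvl]; exact hlv⟩, hvl, h1]
    unfold SB.ev
    split_ifs with h7
    · have h8 : l ∉ A.erase l := notMem_erase l A
      obtain ⟨k, hk⟩ := h7
      constructor
      · intro h9
        omega
      · intro h9
        exact absurd h9 h8
    · rw [Nat.not_even_iff_odd] at h7
      obtain ⟨k, hk⟩ := h7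
      constructor
      · intro _
        exact mem_insert_self _ _
      · intro _
        omega
  · have h3 : (v : ℕ) ≠ n - 1 := by
      intro h
      exact hvl (Fin.ext (by rw [h, hlv]))
    rw [if_neg (by tauto)]
    have h4 := mem_row_ofB β i v
    rw [← hA] at h4
    have h5 : v ∈ SB.ev l A ↔ v ∈ A := by
      unfold SB.ev
      split_ifs
      · simp [hvl]
      · simp [hvl]
    rw [h5, h4]
    rcases gt_ofB_cases β (oH n + i * n + v) with h | h <;> rw [h] <;> norm_num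

/-! ## The bijection -/

/-- The typed random objects of a repetition, before the rows are made even. -/
def wz (n : ℕ) (β : Fin (RB n) → Bool) : Hm n (SB.Rc n) × Om n :=
  (hR n (ofB n β), omA n (ofB n β))

theorem hR_wz (hn : 0 < n) (β : Fin (RB n) → Bool) :
    hR n (Rz n (ofB n β) 0) = fun i => ev ⟨n - 1, by omega⟩ ((wz n β).1 i) := by
  funext i
  exact row_ev hn β i.2

theorem omA_wz (β : Fin (RB n) → Bool) : omA n (Rz n (ofB n β) 0) = (wz n β).2 := by
  refine omA_congr fun i h0 hi => ?_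
  rw [gt_Rz0 β (by rw [oF_eq'] at h0; omega) hi, if_neg (by omega)]

theorem wz_inj (n : ℕ) : Function.Injective (wz n) := by
  intro β β' h
  have h1 : hR n (ofB n β) = hR n (ofB n β') := congrArg Prod.fst h
  have h2 : omA n (ofB n β) = omA n (ofB n β') := congrArg Prod.snd h
  funext i
  have h3 : (gt (ofB n β) (oH n + i) % 2 = 1 ↔ gt (ofB n β') (oH n + i) % 2 = 1) := by
    by_cases hi : (i : ℕ) < GS.Rc n * n
    · have hn : 0 < n := by
        rcases Nat.eq_zero_or_pos n with h0 | h0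
        · exfalso
          have : GS.Rc n * n = 0 := by rw [h0, mul_zero]
          omega
        · exact h0
      have hr : (i : ℕ) / n < GS.Rc n := Nat.div_lt_of_lt_mul (by rw [mul_comm]; exact hi)
      have hv : (i : ℕ) % n < n := Nat.mod_lt _ hn
      have h4 := congrFun h1 ⟨_, hr⟩
      unfold hR rowR at h4
      have h5 := Finset.ext_iff.1 h4 ⟨_, hv⟩
      simp only [mem_filter, mem_univ, true_and] at h5
      rw [add_assoc, Nat.div_add_mod'] at h5
      exact h5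
    · refine omA_inj h2 (by rw [oF_eq']; omega) ?_
      rw [oT_eq']
      have := i.2
      omega
  rw [gt_ofB β i.2, gt_ofB β' i.2] at h3
  simp only [Fin.eta] at h3
  cases hb : β i <;> cases hb' : β' i <;> rw [hb, hb'] at h3 <;> first | rfl | (revert h3; decide)

theorem wz_card (n : ℕ) : Fintype.card (Hm n (SB.Rc n) × Om n) = 2 ^ RB n := by
  have h1 : Fintype.card (Fm n) = 2 ^ bl n := by
    have hb : bl n = n * (kb n + 1) := rfl
    rw [Fintype.card_fun, Fintype.card_fun, Fintype.card_fin, Fintype.card_fin, Fintype.card_bool,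
      ← pow_mul, hb, mul_comm]
  have h2 : Fintype.card (SB.Rr n) = 2 ^ (3 * bl n) := by
    rw [Fintype.card_prod, Fintype.card_prod, h1, ← pow_add, ← pow_add]
    congr 1
    ring
  have h3 : Fintype.card (SB.Sr n) = 2 ^ (n * (3 * bl n)) := by
    rw [Fintype.card_fun, Fintype.card_fin, h2, ← pow_mul]
    congr 1
    ring
  have h4 : Fintype.card (Hm n (SB.Rc n)) = 2 ^ (GS.Rc n * n) := by
    rw [Fintype.card_fun, Fintype.card_fin, Fintype.card_finset, Fintype.card_fin, ← pow_mul]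
    congr 1
    rw [mul_comm]
    rfl
  rw [Fintype.card_prod, Fintype.card_prod, Fintype.card_prod, h3, h2, h4, ← pow_add, ← pow_add,
    ← pow_add, RB_eq']
  congr 1
  ring

theorem wz_bij (n : ℕ) : Function.Bijective (wz n) := by
  rw [Fintype.bijective_iff_injective_and_card]
  refine ⟨wz_inj n, ?_⟩
  rw [wz_card, Fintype.card_fun, Fintype.card_fin, Fintype.card_bool]

end Pool.Agent.MPa9445a.SX
end

section

/-! All random bits and the typed random objects. -/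

set_option autoImplicit false
set_option synthInstance.maxSize 1000

open Finset
open scoped symmDiff

namespace Pool.Agent.MPa9445a.SX

open Pool.Agent.MPa9445a.BE
open Pool.Agent.MPa9445a.SN (ST Fm rs kb rb)
open Pool.Agent.MPa9445a.GL (fR bl SR Sds Lk SR_bij)
open Pool.Agent.MPa9445a.GS (oT oH oF Rz RB rowR fof)
open Pool.Agent.MPa9445a.SB (Rf Hm Om ev)

variable {n : ℕ}

/-- The typed random objects, before the rows are made even. -/
def wA (n : ℕ) (ρ : Fin (Lb n) → Bool) : Sds n 8 × (Fin (SB.Nr n) → Hm n (SB.Rc n) × Om n) :=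
  (SR n (rb (bG n ρ)) 8, fun z => wz n (bz n ρ z))

theorem bG_bz_inj {ρ ρ' : Fin (Lb n) → Bool} (h1 : bG n ρ = bG n ρ')
    (h2 : ∀ z, bz n ρ z = bz n ρ' z) : ρ = ρ' := by
  funext i
  have hL : Lb n = oH n + NR n * RB n := rfl
  have hi := i.2
  by_cases hlt : (i : ℕ) < oH n
  · have h3 := congrFun h1 ⟨i, hlt⟩
    exact h3
  · obtain ⟨j, hj⟩ : ∃ j, j = (i : ℕ) - oH n := ⟨_, rfl⟩
    have hj1 : (i : ℕ) = oH n + j := by omega
    have hj2 : j < NR n * RB n := by omega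
    have hR : 0 < RB n := by
      rcases Nat.eq_zero_or_pos (RB n) with hb | hb
      · rw [hb, mul_zero] at hj2
        omega
      · exact hb
    have hz : j / RB n < NR n := Nat.div_lt_of_lt_mul (by rw [mul_comm]; exact hj2)
    have hr : j % RB n < RB n := Nat.mod_lt _ hR
    have h3 := congrFun (h2 ⟨_, hz⟩) ⟨_, hr⟩
    unfold bz at h3
    have e : oH n + (j / RB n * RB n + j % RB n) = i := by
      rw [Nat.div_add_mod', hj1]
    simp only [e] at h3
    exact h3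

theorem wA_inj (n : ℕ) : Function.Injective (wA n) := by
  intro ρ ρ' h
  have h1 : SR n (rb (bG n ρ)) 8 = SR n (rb (bG n ρ')) 8 := congrArg Prod.fst h
  have h2 : (fun z => wz n (bz n ρ z)) = fun z => wz n (bz n ρ' z) := congrArg Prod.snd h
  refine bG_bz_inj ((SR_bij n 8).1 h1) fun z => wz_inj n (congrFun h2 z)

theorem wA_card (n : ℕ) :
    Fintype.card (Sds n 8 × (Fin (SB.Nr n) → Hm n (SB.Rc n) × Om n)) = 2 ^ Lb n := by
  have h1 : Fintype.card (Sds n 8) = 2 ^ oH n := by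
    rw [← Fintype.card_of_bijective (SR_bij n 8), Fintype.card_fun, Fintype.card_fin,
      Fintype.card_bool]
    rfl
  have h2 : Lb n = oH n + RB n * SB.Nr n := by
    unfold Lb
    rw [mul_comm (RB n)]
    rfl
  rw [Fintype.card_prod, Fintype.card_fun, wz_card, h1, Fintype.card_fin, ← pow_mul, ← pow_add, h2]

theorem wA_bij (n : ℕ) : Function.Bijective (wA n) := by
  rw [Fintype.bijective_iff_injective_and_card]
  refine ⟨wA_inj n, ?_⟩
  rw [wA_card, Fintype.card_fun, Fintype.card_fin, Fintype.card_bool]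

open scoped Classical in
/-- Counting of the arrays of random bits. -/
theorem card_wA (P : Sds n 8 × (Fin (SB.Nr n) → Hm n (SB.Rc n) × Om n) → Prop) :
    (univ.filter fun ρ : Fin (Lb n) → Bool => P (wA n ρ)).card = (univ.filter P).card := by
  refine Finset.card_bij (fun ρ _ => wA n ρ) ?_ ?_ ?_
  · intro ρ hρ
    rw [Finset.mem_filter] at hρ ⊢
    exact ⟨Finset.mem_univ _, hρ.2⟩
  · intro ρ _ ρ' _ h
    exact wA_inj n h
  · intro ω hω
    obtain ⟨ρ, hρ⟩ := (wA_bij n).2 ω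
    refine ⟨ρ, ?_, hρ⟩
    rw [Finset.mem_filter] at hω ⊢
    refine ⟨Finset.mem_univ _, ?_⟩
    rw [hρ]
    exact hω.2

end Pool.Agent.MPa9445a.SX
end

section

/-! The program, and its running time as a function of the number of vertices. -/

set_option autoImplicit false

open Finset

namespace Pool.Agent.MPa9445a.GS

open Pool.Agent.MPa9445a.BE (Ty Env vs one Bd NL DL tb flt gt bit Phi vec code lin argmax Bd.const
  Bd.add Bd.mul Bd.le Bd.up Bd.var Bd.self asz Bd.size)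
open Pool.Agent.MPa9445a.GD
open Pool.Agent.MPa9445a.SN (kb)
open Pool.Agent.MPa9445a.GL (Gi envi Dj)
open Pool.Agent.MPa9445a.SB (Lev c1 c2)
open Pool.Agent.MPa9445a.SX (NR bT out Lb)
open Pool.Agent.MPa9445a.BW (wB wB_le one_le_wB)

private theorem R7_vs (l : List ℤ) (h : ∀ x ∈ l, |x| ≤ 1) : vs (t := .arr) l ≤ l.length + 1 := by
  have h1 : asz l ≤ 1 := asz_le fun x hx => by
    have h2 := abs_le.mp (h x hx)
    unfold BE.sz
    rw [Nat.size_le]
    omega
  have h2 : Nat.size l.length ≤ l.length := by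
    rw [Nat.size_le]
    exact Nat.lt_two_pow_self
  show asz l + Nat.size l.length ≤ l.length + 1
  omega

private theorem R7_arr {A : Type} {N : A → ℕ} {D : A → Prop} {f : A → List ℤ} {g : A → ℕ}
    (hg : Bd N D g) (h1 : ∀ a, D a → (f a).length ≤ g a) (h2 : ∀ a, D a → ∀ x ∈ f a, |x| ≤ 1) :
    ∃ k : ℕ, ∀ a, D a → vs (t := .arr) (f a) ≤ (N a + 2) ^ k := by
  obtain ⟨m, hm⟩ := hg.add (Bd.const 1)
  exact ⟨m, fun a ha => (R7_vs _ (h2 a ha)).trans ((Nat.add_le_add_right (h1 a ha) 1).trans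
    (hm a ha))⟩

private theorem R7_start (K : ℕ) : PN Prod.fst (Dj K) envi Prod.fst ∧
    PA Prod.fst (Dj K) envi (fun a => a.2.1) ∧ PA Prod.fst (Dj K) envi (fun a => a.2.2) := by
  have hn : Bd (Prod.fst : Gi → ℕ) (Dj K) Prod.fst := Bd.self
  refine ⟨Cp.top (t := .int) (f := fun b : Gi => (b.1 : ℤ)) hn.size, ?_, ?_⟩
  · refine Cp.wk (s := .int) (g := fun b : Gi => (b.1 : ℤ)) ?_
    exact Cp.top (t := .arr) (f := fun b : Gi => b.2.1)
      (R7_arr (hn.mul hn) (fun a ha => ha.1) fun a ha => ha.2.1)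
  · refine Cp.wk (s := .int) (g := fun b : Gi => (b.1 : ℤ)) ?_
    refine Cp.wk (s := .arr) (g := fun b : Gi => b.2.1) ?_
    refine Cp.top (t := .arr) (f := fun b : Gi => b.2.2)
      (R7_arr (g := fun a => (a.1 + 2) ^ K) ⟨K, fun a _ => le_rfl⟩ (fun a ha => ha.2.2.1)
        fun a ha => ha.2.2.2)

/-- The program: superfluous random bits are ignored. -/
theorem program (PA' PB' : Lev) (cb n₀ K : ℕ) (h0 : ∀ n, n₀ ≤ n → n ≤ g0 n + bT cb n) :
    ∃ (e : GD.Ex [.int, .arr, .arr] .arr) (d : ℕ), ∀ a : Gi, Dj K a →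
      e.eval (envi a) = out PA' PB' cb n₀ a.1 a.2.1 (tb (Lb a.1) fun i => gt a.2.2 i) ∧
      ∀ τ : ℝ, 2 ≤ τ → e.cost τ (envi a) ≤
        ((a.1 : ℝ) + 2) ^ d * wA τ n₀ a.1 (bT cb a.1) := by
  obtain ⟨hn, hM, hR⟩ := R7_start K
  have bn : Bd (Prod.fst : Gi → ℕ) (Dj K) Prod.fst := Bd.self
  have hL : PN Prod.fst (Dj K) envi (fun a => Lb a.1) :=
    PN.add (c_oH hn) (PN.mul (c_NR hn) (c_RB hn))
  have bL : Bd (Prod.fst : Gi → ℕ) (Dj K) (fun a => Lb a.1) :=
    (bd_oH bn).add ((bd_NR bn).mul ((bd_oT bn).le fun _ _ => Nat.sub_le _ _))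
  have hR' : PA Prod.fst (Dj K) envi (fun a => tb (Lb a.1) fun i => gt a.2.2 i) :=
    PA.tab hL bL fun Γ1 ρ1 up hv => PI.get (up.a hR) hv
  obtain ⟨e, d, h⟩ := c_out PA' PB' cb n₀ h0 hn bn hM hR'
  exact ⟨e, d, fun a ha => ⟨(h a ha).1, fun τ hτ => ((h a ha).2.2 τ hτ).2⟩⟩

/-- The number of vertices from which the budget of the samples is sufficient. -/
theorem n_le {n : ℕ} (h : 7 ≤ n) (cb : ℕ) : n ≤ g0 n + bT cb n := by
  have h1 : g0 n + g0 n ≤ g0 n + bT cb n := by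
    unfold SX.bT
    omega
  have h2 : n ≤ g0 n + g0 n := by
    unfold g0
    omega
  exact h2.trans h1

/-- The number of random bits is polynomial. -/
theorem Lb_le : ∃ K : ℕ, ∀ n : ℕ, Lb n ≤ (n + 2) ^ K := by
  have bn : Bd (fun n : ℕ => n) (fun _ => True) (fun n : ℕ => n) := ⟨1, fun a _ => by
    rw [pow_one]
    omega⟩
  have bL : Bd (fun n : ℕ => n) (fun _ => True) (fun n => Lb n) :=
    (bd_oH bn).add ((bd_NR bn).mul ((bd_oT bn).le fun _ _ => Nat.sub_le _ _))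
  obtain ⟨K, hK⟩ := bL
  exact ⟨K, fun n => hK n trivial⟩

/-- Polynomial factors: `(n + 2) ^ d ≤ C * 2 ^ (ε n)`. -/
theorem poly_le (d : ℕ) {ε : ℝ} (hε : 0 < ε) : ∃ C : ℝ, 0 < C ∧ ∀ n : ℕ,
    ((n : ℝ) + 2) ^ d ≤ C * (2 : ℝ) ^ (ε * n) := by
  have hb : (1 : ℝ) < (2 : ℝ) ^ ε := Real.one_lt_rpow (by norm_num) hε
  have h1 : Filter.Tendsto (fun n : ℕ => ((n : ℝ) ^ d) / ((2 : ℝ) ^ ε) ^ n) Filter.atTop
      (nhds 0) := tendsto_pow_const_div_const_pow_of_one_lt d hb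
  have h2 : Filter.Tendsto (fun n : ℕ => (((n + 2 : ℕ) : ℝ) ^ d) / ((2 : ℝ) ^ ε) ^ (n + 2))
      Filter.atTop (nhds 0) := h1.comp (Filter.tendsto_add_atTop_nat 2)
  obtain ⟨B, hB⟩ := h2.bddAbove_range
  refine ⟨max B 1 * ((2 : ℝ) ^ ε) ^ 2, by positivity, fun n => ?_⟩
  have h3 : (((n + 2 : ℕ) : ℝ) ^ d) / ((2 : ℝ) ^ ε) ^ (n + 2) ≤ max B 1 :=
    (hB ⟨n, rfl⟩).trans (le_max_left _ _)
  have h4 : (0 : ℝ) < ((2 : ℝ) ^ ε) ^ (n + 2) := by positivity
  rw [div_le_iff₀ h4] at h3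
  have h5 : ((2 : ℝ) ^ ε) ^ n = (2 : ℝ) ^ (ε * n) := by
    rw [← Real.rpow_natCast, ← Real.rpow_mul (by norm_num)]
  calc ((n : ℝ) + 2) ^ d = ((n + 2 : ℕ) : ℝ) ^ d := by push_cast; ring
    _ ≤ max B 1 * ((2 : ℝ) ^ ε) ^ (n + 2) := h3
    _ = max B 1 * ((2 : ℝ) ^ ε) ^ 2 * (2 : ℝ) ^ (ε * n) := by
        rw [pow_add, h5]
        ring

end Pool.Agent.MPa9445a.GS
end

section

/-! The running time is at most `C * 2 ^ ((τ / 3 - δ) n)`. -/

set_option autoImplicit false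

open Finset

namespace Pool.Agent.MPa9445a.GS

open Pool.Agent.MPa9445a.SX (bT)
open Pool.Agent.MPa9445a.BW (wB wB_le one_le_wB)

/-- The weight of the budget. -/
theorem two_pow_bT (cb n : ℕ) :
    (2 : ℝ) ^ bT cb n ≤ ((n : ℝ) + 2) ^ (2 * cb) * (2 : ℝ) ^ (0.6665 * (n : ℝ)) := by
  have h1 : (2 : ℝ) ^ bT cb n = (2 : ℝ) ^ g0 n * ((2 : ℝ) ^ lgn n) ^ cb := by
    unfold SX.bT
    rw [pow_add, Nat.mul_comm cb, pow_mul]
  have h2 : (2 : ℝ) ^ g0 n ≤ (2 : ℝ) ^ (0.6665 * (n : ℝ)) := by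
    rw [← Real.rpow_natCast]
    apply Real.rpow_le_rpow_of_exponent_le (by norm_num)
    have h3 : (10000 : ℝ) * (g0 n : ℝ) ≤ 6665 * n := by
      exact_mod_cast Nat.mul_div_le (6665 * n) 10000
    linarith
  have h3 : (2 : ℝ) ^ lgn n ≤ 2 * ((n : ℝ) + 2) := by exact_mod_cast two_pow_lgn n
  have hn : (0 : ℝ) ≤ (n : ℝ) := Nat.cast_nonneg _
  have h4 : (2 : ℝ) ^ lgn n ≤ ((n : ℝ) + 2) ^ 2 := h3.trans (by nlinarith)
  have h5 : ((2 : ℝ) ^ lgn n) ^ cb ≤ ((n : ℝ) + 2) ^ (2 * cb) := by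
    rw [pow_mul]
    exact pow_le_pow_left₀ (by positivity) h4 cb
  rw [h1, mul_comm]
  exact mul_le_mul h5 h2 (by positivity) (by positivity)

/-- The weight of the whole program for large `n`. -/
theorem wC_le (cb : ℕ) {n : ℕ} (hn : 10000000000 ≤ n) {τ : ℝ} (hτ : 2 ≤ τ) :
    wC τ n (bT cb n) ≤ ((n : ℝ) + 2) ^ (2 * cb + 2) * (2 : ℝ) ^ ((τ / 3 - 0.000000001) * n) := by
  have hn0 : (0 : ℝ) ≤ (n : ℝ) := Nat.cast_nonneg _
  have h0 : (2 : ℝ) ^ (0.6665 * (n : ℝ)) ≤ (2 : ℝ) ^ ((τ / 3 - 0.000000001) * n) := by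
    apply Real.rpow_le_rpow_of_exponent_le (by norm_num)
    have : (0.6665 : ℝ) ≤ τ / 3 - 0.000000001 := by linarith
    exact mul_le_mul_of_nonneg_right this hn0
  have h1 := two_pow_bT cb n
  have h2 := wB_le hτ hn
  have h3 : (2 : ℝ) ^ (n - n / 2) ≤ 2 * (2 : ℝ) ^ (0.6665 * (n : ℝ)) := by
    have e1 : (2 : ℝ) * (2 : ℝ) ^ (0.6665 * (n : ℝ)) = (2 : ℝ) ^ (1 + 0.6665 * (n : ℝ)) := by
      rw [Real.rpow_add (by norm_num), Real.rpow_one]
    rw [e1, ← Real.rpow_natCast]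
    apply Real.rpow_le_rpow_of_exponent_le (by norm_num)
    have e2 : n - n / 2 ≤ n / 2 + 1 := by omega
    have e3 : ((n - n / 2 : ℕ) : ℝ) ≤ ((n / 2 : ℕ) : ℝ) + 1 := by exact_mod_cast e2
    have e4 : (2 : ℝ) * ((n / 2 : ℕ) : ℝ) ≤ n := by exact_mod_cast Nat.mul_div_le n 2
    linarith
  have hX : (1 : ℝ) ≤ ((n : ℝ) + 2) ^ (2 * cb) := one_le_pow₀ (by linarith)
  have hT : 0 ≤ (2 : ℝ) ^ ((τ / 3 - 0.000000001) * n) := by positivity
  have h4 : (4 : ℝ) ≤ ((n : ℝ) + 2) ^ 2 := by nlinarith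
  unfold wC wT
  have e1 : ((n : ℝ) + 2) ^ (2 * cb) * (2 : ℝ) ^ (0.6665 * (n : ℝ)) ≤
      ((n : ℝ) + 2) ^ (2 * cb) * (2 : ℝ) ^ ((τ / 3 - 0.000000001) * n) :=
    mul_le_mul_of_nonneg_left h0 (by positivity)
  have e2 : (1 : ℝ) * (2 : ℝ) ^ ((τ / 3 - 0.000000001) * n) ≤
      ((n : ℝ) + 2) ^ (2 * cb) * (2 : ℝ) ^ ((τ / 3 - 0.000000001) * n) :=
    mul_le_mul_of_nonneg_right hX hT
  have e3 : (4 : ℝ) * (((n : ℝ) + 2) ^ (2 * cb) * (2 : ℝ) ^ ((τ / 3 - 0.000000001) * n)) ≤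
      ((n : ℝ) + 2) ^ 2 * (((n : ℝ) + 2) ^ (2 * cb) * (2 : ℝ) ^ ((τ / 3 - 0.000000001) * n)) :=
    mul_le_mul_of_nonneg_right h4 (by positivity)
  have e4 : ((n : ℝ) + 2) ^ 2 * (((n : ℝ) + 2) ^ (2 * cb) *
      (2 : ℝ) ^ ((τ / 3 - 0.000000001) * n)) = ((n : ℝ) + 2) ^ (2 * cb + 2) *
        (2 : ℝ) ^ ((τ / 3 - 0.000000001) * n) := by ring
  rw [← e4]
  linarith

/-- One constant for all `τ`. -/
theorem cost_le (d cb n₀ : ℕ) (h₀ : 10000000000 ≤ n₀) : ∃ C : ℝ, 0 < C ∧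
    ∀ τ : ℝ, 2 ≤ τ → ∀ n : ℕ, ((n : ℝ) + 2) ^ d * wA τ n₀ n (bT cb n) ≤
      C * (2 : ℝ) ^ ((τ / 3 - 0.0000000001) * n) := by
  obtain ⟨C₁, hC₁, h1⟩ := poly_le (d + (2 * cb + 2)) (ε := 0.0000000009) (by norm_num)
  refine ⟨max C₁ (((n₀ : ℝ) + 2) ^ d * (2 : ℝ) ^ n₀), lt_max_of_lt_left hC₁, fun τ hτ n => ?_⟩
  have hn0 : (0 : ℝ) ≤ (n : ℝ) := Nat.cast_nonneg _
  have hT : (1 : ℝ) ≤ (2 : ℝ) ^ ((τ / 3 - 0.0000000001) * n) := by
    apply Real.one_le_rpow (by norm_num)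
    have : (0 : ℝ) ≤ τ / 3 - 0.0000000001 := by linarith
    positivity
  by_cases h : n < n₀
  · have e1 : wA τ n₀ n (bT cb n) = (2 : ℝ) ^ n := if_pos h
    rw [e1]
    have e2 : (n : ℝ) ≤ n₀ := by exact_mod_cast h.le
    have e3 : ((n : ℝ) + 2) ^ d * (2 : ℝ) ^ n ≤ ((n₀ : ℝ) + 2) ^ d * (2 : ℝ) ^ n₀ :=
      mul_le_mul (pow_le_pow_left₀ (by positivity) (by linarith) d)
        (pow_le_pow_right₀ (by norm_num) h.le) (by positivity) (by positivity)
    have e4 := e3.trans (le_max_right C₁ _)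
    refine e4.trans (le_mul_of_one_le_right ?_ hT)
    exact (hC₁.trans_le (le_max_left _ _)).le
  · have e1 : wA τ n₀ n (bT cb n) = wC τ n (bT cb n) := if_neg h
    rw [e1]
    have e2 := wC_le cb (h₀.trans (not_lt.1 h)) hτ
    have e3 : (2 : ℝ) ^ ((0.0000000009 : ℝ) * n) * (2 : ℝ) ^ ((τ / 3 - 0.000000001) * n) =
        (2 : ℝ) ^ ((τ / 3 - 0.0000000001) * n) := by
      rw [← Real.rpow_add (by norm_num)]
      congr 1
      ring
    calc ((n : ℝ) + 2) ^ d * wC τ n (bT cb n)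
        ≤ ((n : ℝ) + 2) ^ d * (((n : ℝ) + 2) ^ (2 * cb + 2) *
            (2 : ℝ) ^ ((τ / 3 - 0.000000001) * n)) := mul_le_mul_of_nonneg_left e2 (by positivity)
      _ = ((n : ℝ) + 2) ^ (d + (2 * cb + 2)) * (2 : ℝ) ^ ((τ / 3 - 0.000000001) * n) := by
          rw [pow_add]
          ring
      _ ≤ C₁ * (2 : ℝ) ^ ((0.0000000009 : ℝ) * n) * (2 : ℝ) ^ ((τ / 3 - 0.000000001) * n) :=
          mul_le_mul_of_nonneg_right (h1 n) (by positivity)
      _ = C₁ * (2 : ℝ) ^ ((τ / 3 - 0.0000000001) * n) := by rw [mul_assoc, e3]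
      _ ≤ _ := mul_le_mul_of_nonneg_right (le_max_left _ _) (by positivity)

end Pool.Agent.MPa9445a.GS
end

section

/-! The program and its running time. -/

set_option autoImplicit false

open Finset

namespace Pool.Agent.MPa9445a.SX

open Pool.Agent.MPa9445a.BE hiding rb
open Pool.Agent.MPa9445a.GL (Gi envi Dj)
open Pool.Agent.MPa9445a.GS (wA wC wT)
open Pool.Agent.MPa9445a.SB (Lev)
open Pool.Agent.MPa9445a.BW (wB one_le_wB)

/-- The program and its running time. -/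
theorem program3 (PA PB : Lev) (cb n₀ K : ℕ) (h₀ : 7 ≤ n₀) :
    ∃ (e : GD.Ex [.int, .arr, .arr] .arr) (d : ℕ),
    ∀ a : Gi, Dj K a →
      e.eval (envi a) = out PA PB cb n₀ a.1 a.2.1 (tb (Lb a.1) fun i => gt a.2.2 i) ∧
      ∀ τ : ℝ, 2 ≤ τ → e.cost τ (envi a) ≤ ((a.1 : ℝ) + 2) ^ d *
        (if a.1 < n₀ then 2 ^ a.1 else 2 ^ bT cb a.1 + BW.wB τ a.1) := by
  obtain ⟨e, d, h⟩ := GS.program PA PB cb n₀ K fun n hn => GS.n_le (h₀.trans hn) cb
  refine ⟨e, d + 1, fun a ha => ⟨(h a ha).1, fun τ hτ => ((h a ha).2 τ hτ).trans ?_⟩⟩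
  have hn : (0 : ℝ) ≤ (a.1 : ℝ) := Nat.cast_nonneg _
  have hX : (0 : ℝ) ≤ ((a.1 : ℝ) + 2) ^ d := by positivity
  rw [pow_succ, mul_assoc]
  refine mul_le_mul_of_nonneg_left ?_ hX
  unfold GS.wA
  split_ifs with h1
  · have h2 : (0 : ℝ) ≤ (2 : ℝ) ^ a.1 := by positivity
    nlinarith
  · have h3 : (2 : ℝ) ^ (a.1 - a.1 / 2) ≤ (2 : ℝ) ^ bT cb a.1 := by
      refine pow_le_pow_right₀ (by norm_num) ?_
      have h4 : 7 ≤ a.1 := h₀.trans (not_lt.1 h1)
      have h5 : GS.g0 a.1 ≤ bT cb a.1 := Nat.le_add_right _ _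
      have h6 : a.1 - a.1 / 2 ≤ GS.g0 a.1 := by
        unfold GS.g0
        omega
      exact h6.trans h5
    have h4 := one_le_wB a.1 hτ
    have h5 : (0 : ℝ) ≤ (2 : ℝ) ^ bT cb a.1 := by positivity
    unfold GS.wC GS.wT
    nlinarith

end Pool.Agent.MPa9445a.SX
end
end

section

section
/-! The average costs of the levels 2 and 1, and of the root. -/

set_option autoImplicit false
set_option synthInstance.maxSize 1000

open Finset

namespace Pool.Agent.MPa9445a.SB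

open Pool.Agent.MPa9445a.SN (Fm rs kb)
open Pool.Agent.MPa9445a.GL (Vc S Ph Lv T Par lvl LL la2 fl Wb on off pl xk)

/-- PROOF. `step5` with `Ω = Unit`, `Bnd_Lf` (`leaf_size`), `num2U`, `num2B`; the sum over `Unit × Sr n` is the sum over `Sr n`; `1 ≤ 2 * pl n 8`. -/
theorem Bnd_E2 : ∃ n₀, ∀ n ≥ n₀, ∀ (W : Matrix (Fin n) (Fin n) ℤ) (Go : Rf n), Wb W → GO W Go →
    ∀ φ : Hm n (Rc n) → Finset (Fin n) → Finset (Fin n) → Finset (Fin n),
    (∀ h Q, Fib (φ h Q) (Cc h Q)) → ∀ PB : Lev, PK PB 3550 1203715 → ∀ m, Wi 4999 n m →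
    ∀ X : Finset (Fin n), Wi 4140 m X.card →
    Bnd W (fun h (ω₂ : Sr n) => E2 W Go h (φ h) PB ω₂ m) X (C2 n PB.l) (2 ^ g2 n m X.card) := by
  obtain ⟨n₁, h₁⟩ := num2U
  obtain ⟨n₂, h₂⟩ := num2B
  refine ⟨max n₁ n₂, ?_⟩
  intro n hn W Go hW hG φ hφ PB hPB m hm X hX
  have hn1 : n₁ ≤ n := le_trans (le_max_left _ _) hn
  have hn2 : n₂ ≤ n := le_trans (le_max_right _ _) hn
  have hpl1 : (1 : ℝ) ≤ pl n 8 := by
    have h : ∀ k, 1 ≤ pl n k := by
      intro k
      induction k with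
      | zero => exact le_refl _
      | succ k ih =>
        show 1 ≤ 2 ^ 20 * (n + 2) ^ 60 * pl n k
        have h3 : 0 < 2 ^ 20 * (n + 2) ^ 60 := by positivity
        exact Nat.one_le_iff_ne_zero.2 (Nat.mul_ne_zero h3.ne' (by omega))
    exact_mod_cast h 8
  have hU := h₁ n hn1 m X.card hm hX
  have hB := h₂ n hn2 m X.card hm hX
  rw [← hPB.d] at hU hB
  rw [← hPB.th] at hB
  have key := step5 (Ω := Unit) hW hG (E := fun (h : Hm n (Rc n)) (_ : Unit) (_ : ℕ) => Lf W Go h)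
    (fun h _ _ => Gd_Lf hG h) hφ (P := PB) (by rw [hPB.d]; norm_num) (by rw [hPB.d]; norm_num) hPB.K hPB.kr
    (Q := X) (C := 2 * (pl n 8 : ℝ)) (by linarith) (by linarith) (c := fun _ => 1)
    (fun Y _ hY => Bnd_Lf hG (leaf_size hm hX (by rw [hPB.d] at hY; exact hY))) (g := g2 n m) (A := 1000) hU hB
  intro 𝓔 h𝓔 a ha q hq
  have hk := key 𝓔 h𝓔 a ha q hq
  rw [Fintype.card_prod, Fintype.card_unit, one_mul] at hk
  have hs : ∀ h : Hm n (Rc n), ∑ ω : Unit × Sr n, (cr (nd W Go h (φ h) PB ((fun (h : Hm n (Rc n)) (_ : Unit) (_ : ℕ) => Lf W Go h) h ω.1)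
      (g2 n m) ω.2) X a : ℝ) = ∑ ω : Sr n, (cr (E2 W Go h (φ h) PB ω m) X a : ℝ) := by
    intro h
    rw [Fintype.sum_prod_type]
    simp only [univ_unique, sum_singleton]
    rfl
  rw [Finset.sum_congr rfl (fun h _ => hs h)] at hk
  exact hk

end Pool.Agent.MPa9445a.SB
end

section
/-! The average costs of the levels 2 and 1, and of the root. -/

set_option autoImplicit false
set_option synthInstance.maxSize 1000

open Finset

namespace Pool.Agent.MPa9445a.SB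

open Pool.Agent.MPa9445a.SN (Fm rs kb)
open Pool.Agent.MPa9445a.GL (Vc S Ph Lv T Par lvl LL la2 fl Wb on off pl xk)

private theorem D7c_Fc_one {n : ℕ} (hn : 1 ≤ n) (l : ℕ) : (1 : ℝ) ≤ Fc n l := by
  unfold Fc
  have hn' : (1 : ℝ) ≤ (n : ℝ) := by exact_mod_cast hn
  have h1 : (1 : ℝ) ≤ 10 ^ 5 := by norm_num
  have h2 : (1 : ℝ) ≤ 2 ^ (c2 * lg n) := one_le_pow₀ (by norm_num)
  have h3 : (1 : ℝ) ≤ (LL n : ℝ) := by
    have : 1 ≤ LL n := by unfold LL; omega
    exact_mod_cast this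
  have h4 : (1 : ℝ) ≤ (LL n : ℝ) ^ 3 := one_le_pow₀ h3
  have h5 : (1 : ℝ) ≤ (2 * (n : ℝ)) ^ l := one_le_pow₀ (by linarith)
  have a1 : (1 : ℝ) ≤ 10 ^ 5 * (n : ℝ) := one_le_mul_of_one_le_of_one_le h1 hn'
  have a2 : (1 : ℝ) ≤ 10 ^ 5 * (n : ℝ) * 2 ^ (c2 * lg n) :=
    one_le_mul_of_one_le_of_one_le a1 h2
  have a3 : (1 : ℝ) ≤ 10 ^ 5 * (n : ℝ) * 2 ^ (c2 * lg n) * (LL n : ℝ) ^ 3 :=
    one_le_mul_of_one_le_of_one_le a2 h4
  exact one_le_mul_of_one_le_of_one_le a3 h5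

private theorem D7c_pl_one (n k : ℕ) : 1 ≤ pl n k := by
  induction k with
  | zero => simp [pl]
  | succ k ih =>
    have h1 : 0 < (2 : ℕ) ^ 20 * (n + 2) ^ 60 * pl n k := by positivity
    exact h1

private theorem D7c_C2 {n : ℕ} (hn : 1 ≤ n) (l : ℕ) : (pl n 8 : ℝ) ≤ C2 n l := by
  unfold C2
  have h1 := D7c_Fc_one hn l
  have h2 : (0 : ℝ) ≤ (pl n 8 : ℝ) := Nat.cast_nonneg _
  have h3 : (1 : ℝ) ≤ Fc n l * 1000 * 2 := by linarith
  calc (pl n 8 : ℝ) = 1 * (pl n 8 : ℝ) := by ring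
    _ ≤ (Fc n l * 1000 * 2) * (pl n 8 : ℝ) := mul_le_mul_of_nonneg_right h3 h2
    _ = Fc n l * 1000 * (2 * (pl n 8 : ℝ)) := by ring

/-- PROOF. `step5` with `Ω = Sr n`, `E h ω = E2 W Go h (φ h) PB ω`, `Bnd_E2` (for the blocks `X ⊆ Q` in the window of `Q`, `m = #Q`), `num1U`, `num1B`; `1 ≤ C2` and `pl n 8 ≤ C2` for `n ≥ 1`. -/
theorem Bnd_E1 : ∃ n₀, ∀ n ≥ n₀, ∀ (W : Matrix (Fin n) (Fin n) ℤ) (Go : Rf n), Wb W → GO W Go →
    ∀ φ : Hm n (Rc n) → Finset (Fin n) → Finset (Fin n) → Finset (Fin n),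
    (∀ h Q, Fib (φ h Q) (Cc h Q)) → ∀ PA PB : Lev, PK PA 4140 1330320 → PK PB 3550 1203715 →
    ∀ Q : Finset (Fin n), Wi 4999 n Q.card →
    Bnd W (fun h (ω : Sr n × Sr n) => E1 W Go h (φ h) PA PB ω.1 ω.2) Q (C1 n PB.l PA.l)
      (2 ^ g1 n) := by
  obtain ⟨n1, H1⟩ := Bnd_E2
  obtain ⟨n2, H2⟩ := num1U
  obtain ⟨n3, H3⟩ := num1B
  refine ⟨max (max n1 n2) (max n3 1), ?_⟩
  intro n hn W Go hW hG φ hφ PA PB hPA hPB Q hQ
  have hn1 : n1 ≤ n := le_trans (le_trans (le_max_left _ _) (le_max_left _ _)) hn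
  have hn2 : n2 ≤ n := le_trans (le_trans (le_max_right _ _) (le_max_left _ _)) hn
  have hn3 : n3 ≤ n := le_trans (le_trans (le_max_left _ _) (le_max_right _ _)) hn
  have hn4 : 1 ≤ n := le_trans (le_trans (le_max_right _ _) (le_max_right _ _)) hn
  have hC : (pl n 8 : ℝ) ≤ C2 n PB.l := D7c_C2 hn4 PB.l
  have hpl1 : (1 : ℝ) ≤ (pl n 8 : ℝ) := by exact_mod_cast D7c_pl_one n 8
  have hd : PA.d = 4140 := hPA.d
  have hth : PA.th = 1330320 := hPA.th
  have hU : NumU n (Rc n) PA.d Q.card ((fun _ => g1 n) Q.card)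
      (fun s => 2 ^ g2 n Q.card s) (1000 * (n + 1)) := by
    rw [hd]
    exact H2 n hn2 Q.card hQ
  have hB : NumB n PA.d PA.th Q.card ((fun _ => g1 n) Q.card) (1000 * (n + 1)) := by
    rw [hd, hth]
    exact H3 n hn3 Q.card hQ
  have hch : ∀ X ⊆ Q, Wi PA.d Q.card X.card →
      Bnd W (fun h (ω : Sr n) => E2 W Go h (φ h) PB ω Q.card) X (C2 n PB.l)
        ((fun s => (2 : ℝ) ^ g2 n Q.card s) X.card) := by
    intro X _ hX
    rw [hd] at hX
    exact H1 n hn1 W Go hW hG φ hφ PB hPB Q.card hQ X hX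
  have key := step5 (Ω := Sr n) hW hG (E := fun h ω => E2 W Go h (φ h) PB ω)
    (fun h ω m => Gd_E2 hG hφ PB h ω m) hφ (P := PA) (by rw [hd]; norm_num)
    (by rw [hd]; norm_num) hPA.K hPA.kr (Q := Q) (C := C2 n PB.l) (le_trans hpl1 hC) hC
    (c := fun s => (2 : ℝ) ^ g2 n Q.card s) hch (g := fun _ => g1 n)
    (A := 1000 * (n + 1)) hU hB
  exact key

end Pool.Agent.MPa9445a.SB
end

section

/-!
# The leaves
-/

set_option autoImplicit false

open Finset
open scoped symmDiff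

namespace Pool.Agent.MPa9445a.GS

open Pool.Agent.MPa9445a.BE (Ty Env vs one Bd NL DL tb flt gt bit Phi vec code lin argmax fv wtm)
open Pool.Agent.MPa9445a.GD
open Pool.Agent.MPa9445a.SN (kb ST Fm rs)
open Pool.Agent.MPa9445a.GL (Pc Pf Df rk sv rc dk RL Zn LL lvv inl EE Vc S Ph Lv Cpl cdv Wb lvl Fr)
open Pool.Agent.MPa9445a.SB (Rf bl Cc Hm Lf)
open Pool.Agent.MPa9445a.SX (Rp Ra)

variable {n : ℕ}

theorem loT_eq {s : List ℤ} {X : Finset (Fin n)} (hs : fv n s = bl X) (p : ℤ) :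
    loT n s p = kyT n (cdX X) (lix n p) := by
  unfold loT
  rw [cdS_eq hs]

theorem cnT_eq (M A : List ℤ) {s : List ℤ} {X : Finset (Fin n)} (hs : fv n s = bl X) (p : ℤ) :
    cnT n (RA n M A) s p = (rgX n M A X (lix n p)).length := by
  unfold cnT rgX rg
  rw [loT_eq hs]
  simp [BE.tb]

theorem mark_iff (M A : List ℤ) {s : List ℤ} {X : Finset (Fin n)} (hs : fv n s = bl X) (p : ℤ) :
    (cnT n (RA n M A) s p = 1 ∧ gt (RA n M A) (oT n + lb (RA n M A) (oT n) (loT n s p) (kT n)) =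
      loT n s p + 2 ^ n) ↔ rgX n M A X (lix n p) = [2 ^ n] := by
  rw [cnT_eq M A hs, loT_eq hs]
  have h1 : ∀ i < (rgX n M A X (lix n p)).length, gt (rgX n M A X (lix n p)) i =
      gt (RA n M A) (oT n + lb (RA n M A) (oT n) (kyT n (cdX X) (lix n p)) (kT n) + i) -
        kyT n (cdX X) (lix n p) := fun i hi => by
    have h2 : (rgX n M A X (lix n p)).length =
      lb (RA n M A) (oT n) (kyT n (cdX X) (lix n p) + 2 ^ (n + 1)) (kT n) -
        lb (RA n M A) (oT n) (kyT n (cdX X) (lix n p)) (kT n) := by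
      unfold rgX rg
      simp [BE.tb]
    rw [h2] at hi
    unfold rgX rg
    rw [gt_tb', if_pos hi]
  constructor
  · rintro ⟨h2, h3⟩
    have h4 := h1 0 (by omega)
    rw [Nat.add_zero, h3] at h4
    obtain ⟨y, hy⟩ := List.length_eq_one_iff.1 h2
    rw [hy] at h4 ⊢
    have h5 : gt [y] 0 = y := rfl
    rw [h5] at h4
    rw [h4]
    congr 1
    ring
  · intro h2
    have h3 : (rgX n M A X (lix n p)).length = 1 := by rw [h2]; rfl
    refine ⟨h3, ?_⟩
    have h4 := h1 0 (by omega)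
    rw [Nat.add_zero, h2] at h4
    have h5 : gt [(2 : ℤ) ^ n] 0 = 2 ^ n := rfl
    rw [h5] at h4
    linarith

theorem hR_RA (M A : List ℤ) : SX.hR n (RA n M A) = SX.hR n A := by
  funext i
  unfold SX.hR rowR
  refine Finset.filter_congr fun v _ => ?_
  have h1 : oH n + (i : ℕ) * n + v < oT n := by
    have h2 : ((i : ℕ) + 1) * n ≤ Rc n * n := Nat.mul_le_mul_right _ i.2
    have h3 : ((i : ℕ) + 1) * n = i * n + n := by ring
    have h4 : oH n + Rc n * n ≤ oT n := by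
      unfold oT oF
      exact Nat.le_add_right _ _
    have := v.2
    omega
  rw [show gt (RA n M A) (oH n + (i : ℕ) * n + v) = gt A (oH n + (i : ℕ) * n + v) from
    gt_cct h1]

theorem oH_le_oT (n : ℕ) : oH n ≤ oT n := by
  unfold oT oF
  omega

theorem sdr_zero {A : List ℤ} {X : Finset (Fin n)} :
    sdr n A (oH n) (Rc n) (cdX X) = 0 ↔ X ∈ Cc (SX.hR n A) univ := by
  rw [mem_Cc']
  have h0 : sdr n A (oH n) (Rc n) 0 = 0 := by
    unfold sdr parN
    refine Finset.sum_eq_zero fun i _ => ?_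
    have : ∑ v ∈ range n, gt A (oH n + i * n + v) * (bit 0 v : ℤ) = 0 :=
      Finset.sum_eq_zero fun v _ => by simp [BE.bit]
    rw [this]
    simp
  have h1 : ∀ i, parN n A (oH n) i 0 = 0 := fun i => by
    unfold parN
    have : ∑ v ∈ range n, gt A (oH n + i * n + v) * (bit 0 v : ℤ) = 0 :=
      Finset.sum_eq_zero fun v _ => by simp [BE.bit]
    rw [this]
    simp
  have h2 := sdr_eq_iff (n := n) (H := A) (o := oH n) (r := Rc n) (c := cdX X) (c' := 0)
  rw [h0] at h2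
  simp only [h1] at h2
  exact h2

theorem lix_lt {p : ℤ} (hp : p ∈ lvl n) : lix n p < LL n ∧ lvv n (lix n p) = p := by
  rw [← GL.inl_iff] at hp
  obtain ⟨h1, h2⟩ := hp
  have h0 : (0 : ℤ) ≤ p + (n : ℤ) ^ 4 := by linarith
  have h3 : ((lix n p : ℕ) : ℤ) = p + (n : ℤ) ^ 4 := by
    unfold lix
    exact Int.toNat_of_nonneg h0
  constructor
  · have h4 : ((lix n p : ℕ) : ℤ) < ((LL n : ℕ) : ℤ) := by
      rw [h3]
      unfold GL.LL
      push_cast
      linarith
    exact_mod_cast h4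
  · unfold GL.lvv
    rw [h3]
    ring

theorem anT_nil {M A : List ℤ} {X : Finset (Fin n)} {p : ℤ} (hp : p ∈ lvl n) :
    anT n M A (cdX X) (lix n p) = [] ↔ Gm n M A X p (SB.jt n X.card) = none := by
  rw [Gm_none]
  unfold anT
  rw [(lix_lt hp).2, pcn_eq, ST_cdX, jt_eq]

/-- The leaves are computed by the program. -/
theorem LF_rp {M M' A : List ℤ} (hW : Wb (wtm n M)) (h' : wtm n M' = wtm n M) :
    Rp n univ (LF n M' (RA n M A)) (Lf (wtm n M) (Gm n M A) (SX.hR n (RA n M A))) := by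
  intro X _ s hs a ha b
  have hGA : GO n M' (RA n M A) = GO n M' A :=
    GO_congr fun i hi => gt_cct (hi.trans_le (oH_le_oT n))
  have hGO : Ra X (GO n M' (RA n M A) s a b) (Gm n M A X a b) := by
    rw [hGA]
    exact GO_rp hW h' A univ X (subset_univ _) s hs a ha b
  obtain ⟨hx, hv⟩ := lix_lt ha
  have hCS : X ∈ CS n A ↔ X ∈ Cc (SX.hR n (RA n M A)) univ ∧ 10000 * X.card ≤ 1891 * n := by
    rw [hR_RA]
    exact mem_filter
  have hsz : rk s n ≤ sN n ↔ 10000 * X.card ≤ 1891 * n := by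
    rw [rk_bl hs]
    unfold sN
    omega
  have hsd : sdr n (RA n M A) (oH n) (Rc n) (cdS n s) = 0 ↔
      X ∈ Cc (SX.hR n (RA n M A)) univ := by
    rw [cdS_eq hs]
    exact sdr_zero
  have hhit : hit n (RA n M A) s a b ↔ (X ∈ Cc (SX.hR n (RA n M A)) univ ∧
      10000 * X.card ≤ 1891 * n ∧ Gm n M A X a (SB.jt n X.card) ≠ none ∧
        (Lv (wtm n M) (bl X) a).card ≤ 2 ^ b) := by
    unfold hit
    rw [hsz, hsd, mark_iff M A hs, cnT_eq M A hs]
    constructor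
    · rintro ⟨h1, h2, _, h4, h5⟩
      rcases rgX_cases hW (A := A) hx (hCS.2 ⟨h2, h1⟩) with ⟨_, h6⟩ | ⟨⟨L, h6⟩, h7⟩
      · exact absurd h6 h4
      · refine ⟨h2, h1, fun h8 => ?_, ?_⟩
        · rw [← anT_nil ha, h6] at h8
          exact absurd h8 (List.cons_ne_nil _ _)
        · rw [hv] at h7
          rw [← SX.Cpl_length h7 (Lv_sub _ _ _)]
          exact h5
    · rintro ⟨h2, h1, h3, h5⟩
      refine ⟨h1, h2, (GL.inl_iff a).2 ha, ?_⟩
      rcases rgX_cases hW (A := A) hx (hCS.2 ⟨h2, h1⟩) with ⟨h6, _⟩ | ⟨_, h7⟩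
      · exact absurd ((anT_nil ha).1 h6) h3
      · rw [hv] at h7
        refine ⟨fun h8 => ?_, ?_⟩
        · have h9 : (2 : ℤ) ^ n ∈ rgX n M A X (lix n a) := by
            rw [h8]
            exact List.mem_singleton.2 rfl
          exact absurd (Cpl_bd h7 h9).2 (lt_irrefl _)
        · rw [SX.Cpl_length h7 (Lv_sub _ _ _)]
          exact h5
  unfold LF SB.Lf
  by_cases h : hit n (RA n M A) s a b
  · rw [if_pos h, if_pos (hhit.1 h)]
    obtain ⟨h2, h1, h3, _⟩ := hhit.1 h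
    rcases rgX_cases hW (A := A) hx (hCS.2 ⟨h2, h1⟩) with ⟨h6, _⟩ | ⟨_, h7⟩
    · exact absurd ((anT_nil ha).1 h6) h3
    · rw [hv] at h7
      refine Or.inr ⟨_, _, rfl, rfl, ?_, Lv_sub _ _ _⟩
      rw [loT_eq hs]
      exact h7
  · rw [if_neg h, if_neg fun h2 => h (hhit.2 h2)]
    exact hGO

end Pool.Agent.MPa9445a.GS
end

section

/-! The hypotheses of the levels for the array with the table. -/

set_option autoImplicit false

open Finset
open scoped symmDiff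

namespace Pool.Agent.MPa9445a.SX

open Pool.Agent.MPa9445a.BE
open Pool.Agent.MPa9445a.SN (ST Fm rs kb)
open Pool.Agent.MPa9445a.GL (Vc S Ph Lv Fr lvl LL lvv rk rc fR bl)
open Pool.Agent.MPa9445a.GS (oT oH Rz cct TB Gm cdX)
open Pool.Agent.MPa9445a.SB (Rf Hm Sc)

variable {n : ℕ}

theorem HD_all (n : ℕ) (A : List ℤ) : HD n A := fun _ _ hs => GS.dmL_eq hs A

theorem tok_TW {n b : ℕ} {A : List ℤ} : tok b n A ↔ SB.TW (hR n A) ≤ 2 ^ b := GS.tok_iff

theorem cdX_eq (X : Finset (Fin n)) : cdX X = ∑ v ∈ X, 2 ^ (v : ℕ) := by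
  unfold GS.cdX
  rw [Finset.sum_ite_mem, Finset.univ_inter]

theorem Gm_eq (n : ℕ) (M R : List ℤ) : Gm n M R = GoR n M R := by
  unfold GS.Gm GoR
  funext X a j
  rw [cdX_eq]

/-- The children in mode B. -/
theorem HEB_Gm {M : List ℤ} (hW : GL.Wb (wtm n M)) (R : List ℤ) :
    HEB n (wtm n M) R (Gm n M R) := by
  intro d M' Q Θ σ h' hP X hX s hs a ha b
  have hrk := GS.rk_bl hs
  have hm := hP.m
  unfold GS.EB SB.EB
  rw [hm, hrk]
  by_cases h1 : 10000 * X.card < d * Q.card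
  · rw [if_pos h1, if_pos (by exact_mod_cast h1)]
    exact GS.GO_rp hW h' R Q X hX s hs a ha b
  · rw [if_neg h1, if_neg (by
      intro h
      exact h1 (by exact_mod_cast h))]
    by_cases h2 : (10000 - d) * Q.card < 10000 * X.card
    · rw [if_pos h2, if_pos (by exact_mod_cast h2)]
      obtain ⟨e1, e2⟩ := GS.enu_spec hP hs hX a b
      by_cases h3 : (SB.vl σ Q X Θ).card ≤ 2 ^ b
      · rw [if_pos h3]
        obtain ⟨l, h4, h5⟩ := e1 h3
        rw [h'] at h5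
        refine Or.inr ⟨_, l, rfl, h4, h5, ?_⟩
        exact (filter_subset _ _).trans (filter_subset _ _)
      · rw [if_neg h3]
        exact Or.inl ⟨rfl, e2 (not_le.1 h3)⟩
    · rw [if_neg h2, if_neg (by
        intro h
        exact h2 (by exact_mod_cast h))]
      refine Or.inr ⟨∅, [], rfl, rfl, ⟨List.nodup_nil, fun c => ?_⟩, Finset.empty_subset _⟩
      simp

/-- The array with the table satisfies the hypotheses of the levels. -/
theorem HR_RT {n b z : ℕ} {M R : List ℤ} (hW : GL.Wb (wtm n M))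
    (hg : SB.GO (wtm n M) (GoR n M (RT n M R z))) (_ : tok b n (Rz n R z)) :
    HR n (wtm n M) (RT n M R z) (GoR n M (RT n M R z)) := by
  have e1 : RT n M R z = GS.RA n M (Rz n R z) := rfl
  have e2 : Gm n M (Rz n R z) = GoR n M (RT n M R z) := by
    rw [← Gm_eq]
    exact (GS.Gm_congr fun i hi => GS.gt_cct (hi.trans_le (GS.oH_le_oT n))).symm
  refine ⟨hg, HD_all n _, ?_, fun M' h' => ?_⟩
  · rw [← Gm_eq]
    exact HEB_Gm hW _
  · rw [← e2, e1]
    exact GS.LF_rp hW h'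

end Pool.Agent.MPa9445a.SX
end
end
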