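import Pool.Agent.Lib.MP_a9445a_lc.Mg.G115

section

/-! The steps of the main part are computed by programs: the matrices and the candidate. -/

set_option autoImplicit false

open Finset

namespace Pool.Agent.MPa9445a.BE

section

variable {D : In → Prop} {Γ : List Ty} {ρ : In → Env Γ} (P : Prm)

/-- The weight of the main part. -/
noncomputable def wc : ℝ → In → ℝ := fun τ a => ((kk P a : ℝ) + 1) ^ τ

theorem one_le_wc (a : In) {τ : ℝ} (hτ : 2 ≤ τ) : 1 ≤ wc P τ a := by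
  have h1 : (1 : ℝ) ≤ (kk P a : ℝ) + 1 := by
    have : (0 : ℝ) ≤ (kk P a : ℝ) := Nat.cast_nonneg _
    linarith
  exact Real.one_le_rpow h1 (by linarith)

theorem kk2_le_wc (a : In) {τ : ℝ} (hτ : 2 ≤ τ) :
    (((kk P a * kk P a : ℕ) : ℝ) + 1) ≤ wc P τ a := by
  have h0 : (0 : ℝ) ≤ (kk P a : ℝ) := Nat.cast_nonneg _
  have h1 : (1 : ℝ) ≤ (kk P a : ℝ) + 1 := by linarith
  have h2 : ((kk P a : ℝ) + 1) ^ (2 : ℝ) ≤ wc P τ a := Real.rpow_le_rpow_of_exponent_le h1 hτ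
  refine le_trans ?_ h2
  rw [Real.rpow_two]
  push_cast
  nlinarith

private theorem Q4_or (p q r : ℕ → Prop) [DecidablePred p] [DecidablePred q] [DecidablePred r]
    (h : ∀ i, p i → q i ∨ r i) (n : ℕ) : ((List.range n).filter fun i => decide (p i)).length ≤
      ((List.range n).filter fun i => decide (q i)).length +
        ((List.range n).filter fun i => decide (r i)).length := by
  induction n with
  | zero => simp
  | succ n ih =>
    simp only [List.range_succ, List.filter_append, List.length_append, List.filter_cons,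
      List.filter_nil]
    have h1 := h n
    by_cases hp : p n <;> by_cases hq : q n <;> by_cases hr : r n <;> simp_all <;> omega

private theorem Q4_and (p q : ℕ → Prop) [DecidablePred p] [DecidablePred q]
    (h : ∀ i, p i → ¬ q i) (n : ℕ) : ((List.range n).filter fun i => decide (p i)).length +
      ((List.range n).filter fun i => decide (q i)).length ≤ n := by
  induction n with
  | zero => simp
  | succ n ih =>
    simp only [List.range_succ, List.filter_append, List.length_append, List.filter_cons,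
      List.filter_nil]
    have h1 := h n
    by_cases hp : p n <;> by_cases hq : q n <;> simp_all <;> omega

private theorem Q4_cnt (r n : ℕ) (hr : r < 8) :
    ((List.range n).filter fun v => decide (v % 8 = r)).length = (n + 7 - r) / 8 := by
  induction n with
  | zero =>
    simp only [List.range_zero, List.filter_nil, List.length_nil]
    omega
  | succ n ih =>
    simp only [List.range_succ, List.filter_append, List.length_append, List.filter_cons,
      List.filter_nil, ih]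
    by_cases hp : n % 8 = r
    · simp only [hp, decide_true, if_true, List.length_cons, List.length_nil]
      omega
    · simp only [hp, decide_false, Bool.false_eq_true, if_false, List.length_nil]
      omega

private theorem Q4_cnt' (r n : ℕ) :
    ((List.range n).filter fun v => decide (v % 8 = r)).length ≤ (n + 7) / 8 := by
  by_cases hr : r < 8
  · rw [Q4_cnt r n hr]
    omega
  · have h1 : ((List.range n).filter fun v => decide (v % 8 = r)) = [] := by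
      rw [List.filter_eq_nil_iff]
      intro v _
      have : v % 8 ≠ r := by omega
      simpa using this
    rw [h1]
    exact Nat.zero_le _

private theorem Q4_flt (k : ℕ) (q : ℕ → Prop) [DecidablePred q] :
    (flt k q).length = ((List.range k).filter fun i => decide (q i)).length := by
  unfold flt
  rw [List.length_map]

private theorem Q4_div (n : ℕ) {m : ℕ} (hm : 100 ≤ m) : n / m ≤ n / 100 :=
  Nat.div_le_div_left hm (by norm_num)

private theorem Q4_kk (P : Prm) (a : In) : kk P a = 2 ^ (n2 P a + 4) := by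
  simp [kk]

private theorem Q4_wc (P : Prm) (a : In) {τ : ℝ} (hτ : 2 ≤ τ) :
    (2 : ℝ) ^ (2 * (n2 P a + 4)) ≤ wc P τ a := by
  refine le_trans ?_ (kk2_le_wc P a hτ)
  rw [Q4_kk]
  push_cast
  have h1 : (2 : ℝ) ^ (2 * (n2 P a + 4)) = 2 ^ (n2 P a + 4) * 2 ^ (n2 P a + 4) := by ring
  rw [h1]
  linarith

/-- PROOF. The number of `v < n` with `v % 8 = i ∨ v % 8 = j` is at most `n / 4 + 2`. -/
theorem length_LW_le (a : In) : (LW a).length ≤ a.n / 4 + 2 := by
  unfold LW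
  rw [Q4_flt]
  have h1 := Q4_or (fun v => gt a.g v = 0 ∧ (v % 8 = a.i ∨ v % 8 = a.j)) (fun v => v % 8 = a.i)
    (fun v => v % 8 = a.j) (fun v hv => hv.2) a.n
  have h2 := Q4_cnt' a.i a.n
  have h3 := Q4_cnt' a.j a.n
  omega

/-- PROOF. `length_LW_le`; `(2 ^ w + 1)² ≤ 4 (2 ^ (n / 4 + 2))²`, and `n / 4 + 3 ≤ n / 3 - n / m + 4`, so it is at most `4 (kk P a)²`. -/
theorem w2_le (hm : 100 ≤ P.m) (a : In) {τ : ℝ} (hτ : 2 ≤ τ) :
    w2 τ a ≤ ((a.n : ℝ) + 2) ^ 2 * wc P τ a := by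
  have h1 := length_LW_le a
  have h2 := Q4_div a.n hm
  have hnw : nw a = 2 ^ (LW a).length := by simp [nw]
  have h3 : (nw a : ℝ) + 1 ≤ 2 ^ (n2 P a + 5) := by
    have h4 : nw a + 1 ≤ 2 ^ (n2 P a + 5) := by
      rw [hnw]
      have h5 : (LW a).length + 1 ≤ n2 P a + 5 := by
        unfold n2
        omega
      calc 2 ^ (LW a).length + 1 ≤ 2 ^ (LW a).length + 2 ^ (LW a).length := by
            have := Nat.one_le_two_pow (n := (LW a).length)
            omega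
        _ = 2 ^ ((LW a).length + 1) := by ring
        _ ≤ 2 ^ (n2 P a + 5) := Nat.pow_le_pow_right (by norm_num) h5
    exact_mod_cast h4
  have h6 := Q4_wc P a hτ
  have h7 : (0 : ℝ) ≤ (nw a : ℝ) := Nat.cast_nonneg _
  have h8 : (0 : ℝ) ≤ (a.n : ℝ) := Nat.cast_nonneg _
  have h9 : ((nw a : ℝ) + 1) * ((nw a : ℝ) + 1) ≤ 2 ^ (n2 P a + 5) * 2 ^ (n2 P a + 5) :=
    mul_le_mul h3 h3 (by linarith) (by positivity)
  have h10 : (2 : ℝ) ^ (n2 P a + 5) * 2 ^ (n2 P a + 5) = 4 * 2 ^ (2 * (n2 P a + 4)) := by ring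
  have h11 : (4 : ℝ) ≤ ((a.n : ℝ) + 2) ^ 2 := by nlinarith
  have h12 : (0 : ℝ) < 2 ^ (2 * (n2 P a + 4)) := by positivity
  unfold w2 w1
  calc ((nw a : ℝ) + 1) * ((nw a : ℝ) + 1) ≤ 4 * 2 ^ (2 * (n2 P a + 4)) := by linarith
    _ ≤ ((a.n : ℝ) + 2) ^ 2 * wc P τ a :=
      mul_le_mul h11 h6 h12.le (by positivity)

/-- PROOF. `n / 3 + 2 (n / m) ≤ 2 (n / 3 - n / m + 4)`. -/
theorem n1_le (hm : 100 ≤ P.m) (a : In) {τ : ℝ} (hτ : 2 ≤ τ) :
    ((2 ^ n1 P a : ℕ) : ℝ) + 1 ≤ ((a.n : ℝ) + 2) ^ 1 * wc P τ a := by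
  have h2 := Q4_div a.n hm
  have h3 : ((2 ^ n1 P a : ℕ) : ℝ) + 1 ≤ 2 ^ (2 * (n2 P a + 4)) := by
    have h4 : 2 ^ n1 P a + 1 ≤ 2 ^ (2 * (n2 P a + 4)) := by
      have h5 : n1 P a + 1 ≤ 2 * (n2 P a + 4) := by
        unfold n1 n2
        omega
      calc 2 ^ n1 P a + 1 ≤ 2 ^ n1 P a + 2 ^ n1 P a := by
            have := Nat.one_le_two_pow (n := n1 P a)
            omega
        _ = 2 ^ (n1 P a + 1) := by ring
        _ ≤ 2 ^ (2 * (n2 P a + 4)) := Nat.pow_le_pow_right (by norm_num) h5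
    exact_mod_cast h4
  have h6 := Q4_wc P a hτ
  have h8 : (0 : ℝ) ≤ (a.n : ℝ) := Nat.cast_nonneg _
  have h7 := one_le_wc P a hτ
  rw [pow_one]
  nlinarith

/-- PROOF. `n₃ ≤ n₂ + 2` as `|LW| + |LR| ≤ n`. -/
theorem n3_le (a : In) : n3 P a ≤ n2 P a + 2 := by
  have h1 : (LW a).length + (LR a).length ≤ a.n := by
    unfold LW LR
    rw [Q4_flt, Q4_flt]
    exact Q4_and (fun v => gt a.g v = 0 ∧ (v % 8 = a.i ∨ v % 8 = a.j))
      (fun v => gt a.g v = 0 ∧ ¬(v % 8 = a.i ∨ v % 8 = a.j)) (fun v hv h => h.2 hv.2) a.n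
  unfold n3 n1 n2
  generalize a.n / P.m = y
  omega

theorem c_nw (hW : PA In.n D ρ LW) : PN In.n D ρ nw := by
  have := PN.pow2 (PN.len hW) (bd_LW (D := D))
  refine Cp.congr this fun a _ => ?_
  simp [nw]

theorem c_T1 (hm : 100 ≤ P.m) (h : Av D ρ) (hW : PA In.n D ρ LW) (hK : PA In.n D ρ (KT P)) :
    Cp In.n D ρ (wc P) .arr (T1 P) := by
  have h1 : Cp In.n D ρ (fun _ a => ((2 ^ n1 P a : ℕ) : ℝ) + 1) .arr (T1 P) := by
    refine Cp.filter (PN.pow2 (c_n1 P h) (bd_n1 P)) fun Γ1 ρ1 up hc => ?_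
    exact PB.ne (PI.get (up.a hK) (PN.mod hc (up.n (c_nw hW)))) (PI.const 0)
  exact h1.mono_poly 1 fun a _ τ hτ => ⟨one_le_wc P a hτ, n1_le P hm a hτ⟩

theorem c_kk (h : Av D ρ) : PN In.n D ρ (kk P) := by
  have := PN.pow2 (PN.add (c_n2 P h) (PN.const 4)) ((bd_n2 P).add (Bd.const 4))
  refine Cp.congr this fun a _ => ?_
  simp [kk]

end

section

variable {A : Type} {N : A → ℕ} {D : A → Prop} {Γ : List Ty} {ρ : A → Env Γ} {F : A → In}
  (P : Prm)

theorem c_y1 (hn : PN N D ρ (fun a => (F a).n)) (hb : Bd N D (fun a => (F a).n))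
    (hL : PA N D ρ (fun a => L1 P (F a))) (hl : Bd N D (fun a => (L1 P (F a)).length))
    (hT : PA N D ρ (fun a => T1 P (F a))) {x : A → ℕ} (hx : PN N D ρ x) :
    PA N D ρ (fun a => y1 P (F a) (x a)) :=
  PA.dec hn hb hL hl (PN.toNat (PI.get hT hx))

theorem c_y13 (hn : PN N D ρ (fun a => (F a).n)) (hb : Bd N D (fun a => (F a).n))
    (hg : PA N D ρ (fun a => (F a).g))
    (hL : PA N D ρ (fun a => L1 P (F a))) (hl : Bd N D (fun a => (L1 P (F a)).length))
    (hT : PA N D ρ (fun a => T1 P (F a)))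
    (hL3 : PA N D ρ (fun a => L3 P (F a))) (hl3 : Bd N D (fun a => (L3 P (F a)).length))
    {x z : A → ℕ} (hx : PN N D ρ x) (hz : PN N D ρ z) :
    PA N D ρ (fun a => y13 P (F a) (x a) (z a)) :=
  PA.lin 1 1 hn hb (PA.lin 1 1 hn hb hg (c_y1 P hn hb hL hl hT hx)) (PA.dec hn hb hL3 hl3 hz)

end

section

variable {D : In → Prop} {Γ : List Ty} {ρ : In → Env Γ} (P : Prm)

theorem bd_L1 : Bd In.n D (fun a => (L1 P a).length) :=
  Bd.le (bd_n1 P) fun a _ => by simp [L1, length_tb]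

theorem bd_L2 : Bd In.n D (fun a => (L2 P a).length) :=
  Bd.le (bd_n2 P) fun a _ => by simp [L2, length_tb]

theorem bd_L3 : Bd In.n D (fun a => (L3 P a).length) :=
  Bd.le (bd_n3 P) fun a _ => by simp [L3, length_tb]

theorem c_M1 (h : Av D ρ) (h1 : PA In.n D ρ (L1 P)) (h2 : PA In.n D ρ (L2 P))
    (hT : PA In.n D ρ (T1 P)) : Cp In.n D ρ (wc P) .arr (M1 P) := by
  have hk := c_kk P h
  have hb : Body In.n D ρ (fun a => kk P a * kk P a) one .int (fun a x =>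
      if x / kk P a < (T1 P a).length ∧ x % kk P a < 2 ^ n2 P a ∧
        bil a.n a.M (dec a.n (L2 P a) (x % kk P a))
        (lin a.n 2 (lin a.n 1 a.g 1 (y1 P a (x / kk P a))) 1 (dec a.n (L2 P a) (x % kk P a))) = a.α
      then 1 else 0) := by
    intro Γ1 ρ1 up hx
    have gn := up.n h.n
    have bn := (Bd.self (N := In.n) (D := D)).up (fun a => kk P a * kk P a)
    have b1 := (bd_L1 (D := D) P).up (fun a => kk P a * kk P a)
    have b2 := (bd_L2 (D := D) P).up (fun a => kk P a * kk P a)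
    have gk := up.n hk
    have gx := PN.div hx gk
    have gy := PN.mod hx gk
    have gg := up.a h.g
    have e1 := c_y1 (F := fun p : In × ℕ => p.1) P gn bn (up.a h1) b1 (up.a hT) gx
    have e2 := PA.dec gn bn (up.a h2) b2 gy
    have e3 := PA.lin 2 1 gn bn (PA.lin 1 1 gn bn gg e1) e2
    have e4 := PI.bil gn bn (up.a h.M) e2 e3
    exact Cp.ite (PB.and (PB.ltN gx (PN.len (up.a hT)))
      (PB.and (PB.ltN gy (up.n (PN.pow2 (c_n2 P h) (bd_n2 P)))) (PB.eq e4 (up.i h.α))))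
      (PI.const 1) (PI.const 0)
  have := Cp.tab (PN.mul hk hk) (fun _ _ _ _ => le_refl _) hb
  exact this.mono fun a _ τ hτ => by
    simpa [one] using kk2_le_wc P a hτ

theorem c_M2 (h : Av D ρ) (h2 : PA In.n D ρ (L2 P)) (h3 : PA In.n D ρ (L3 P))
    (hn3 : PN In.n D ρ (n3 P)) : Cp In.n D ρ (wc P) .arr (M2 P) := by
  have hk := c_kk P h
  have hb : Body In.n D ρ (fun a => kk P a * kk P a) one .int (fun a x =>
      if x / kk P a < 2 ^ n2 P a ∧ x % kk P a < 2 ^ n3 P a ∧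
        2 * bil a.n a.M (dec a.n (L2 P a) (x / kk P a)) (dec a.n (L3 P a) (x % kk P a)) = a.β
      then 1 else 0) := by
    intro Γ1 ρ1 up hx
    have gn := up.n h.n
    have bn := (Bd.self (N := In.n) (D := D)).up (fun a => kk P a * kk P a)
    have b2 := (bd_L2 (D := D) P).up (fun a => kk P a * kk P a)
    have b3 := (bd_L3 (D := D) P).up (fun a => kk P a * kk P a)
    have gk := up.n hk
    have gx := PN.div hx gk
    have gy := PN.mod hx gk
    have e2 := PA.dec gn bn (up.a h2) b2 gx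
    have e3 := PA.dec gn bn (up.a h3) b3 gy
    have e4 := PI.bil gn bn (up.a h.M) e2 e3
    exact Cp.ite (PB.and (PB.ltN gx (up.n (PN.pow2 (c_n2 P h) (bd_n2 P))))
      (PB.and (PB.ltN gy (up.n (PN.pow2 hn3 (bd_n3 P))))
        (PB.eq (PI.mul (PI.const 2) e4) (up.i h.β)))) (PI.const 1) (PI.const 0)
  have := Cp.tab (PN.mul hk hk) (fun _ _ _ _ => le_refl _) hb
  exact this.mono fun a _ τ hτ => by
    simpa [one] using kk2_le_wc P a hτ

theorem c_MP (h : Av D ρ) (h1 : PA In.n D ρ (M1 P)) (h2 : PA In.n D ρ (M2 P)) :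
    Cp In.n D ρ (wc P) .arr (MP P) :=
  Cp.mm (c_kk P h) h1 h2

theorem c_va {A : Type} {N : A → ℕ} {D : A → Prop} {Γ : List Ty} {ρ : A → Env Γ} {F : A → In}
    (hn : PN N D ρ (fun a => (F a).n)) (hb : Bd N D (fun a => (F a).n))
    (hg : PA N D ρ (fun a => (F a).g)) (hM : PA N D ρ (fun a => (F a).M))
    (hL : PA N D ρ (fun a => L1 P (F a))) (hl : Bd N D (fun a => (L1 P (F a)).length))
    (hT : PA N D ρ (fun a => T1 P (F a)))
    (hL3 : PA N D ρ (fun a => L3 P (F a))) (hl3 : Bd N D (fun a => (L3 P (F a)).length))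
    (hk : PN N D ρ (fun a => kk P (F a))) (hMP : PA N D ρ (fun a => MP P (F a)))
    {x : A → ℕ} (hx : PN N D ρ x) : PI N D ρ (fun a => va P (F a) (x a)) :=
  Cp.ite (PB.ne (PI.get hMP hx) (PI.const 0))
    (PI.add (PI.Phi hn hb hM (c_y13 P hn hb hg hL hl hT hL3 hl3 (PN.div hx hk) (PN.mod hx hk)))
      (PI.mul (PI.const 8) (PI.pow hn 4))) (PI.const 0)

theorem c_rr (h : Av D ρ) (h1 : PA In.n D ρ (L1 P)) (h3 : PA In.n D ρ (L3 P))
    (hT : PA In.n D ρ (T1 P)) (hMP : PA In.n D ρ (MP P)) :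
    Cp In.n D ρ (wc P) .int (fun a => (rr P a : ℤ)) := by
  have hk := c_kk P h
  have hb : Body In.n D ρ (fun a => kk P a * kk P a) one .int (fun a x => va P a x) := by
    intro Γ1 ρ1 up hx
    exact c_va (F := fun p : In × ℕ => p.1) P (up.n h.n) (Bd.self.up _) (up.a h.g) (up.a h.M)
      (up.a h1) ((bd_L1 P).up _) (up.a hT) (up.a h3) ((bd_L3 P).up _) (up.n hk) (up.a hMP) hx
  have := Cp.amax (PN.mul hk hk) (fun _ _ _ _ => le_refl _) hb
  exact this.mono fun a _ τ hτ => by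
    simpa [one] using kk2_le_wc P a hτ

theorem c_rb (h : Av D ρ) (h1 : PA In.n D ρ (M1 P)) (h2 : PA In.n D ρ (M2 P))
    (hr : PN In.n D ρ (rr P)) : Cp In.n D ρ (wc P) .int (fun a => (rb P a : ℤ)) := by
  have hk := c_kk P h
  have hb : Body In.n D ρ (kk P) one .int (fun a y =>
      gt (M1 P a) (rr P a / kk P a * kk P a + y) * gt (M2 P a) (y * kk P a + rr P a % kk P a)) := by
    intro Γ1 ρ1 up hx
    have gk := up.n hk
    have gr := up.n hr
    exact PI.mul (PI.get (up.a h1) (PN.add (PN.mul (PN.div gr gk) gk) hx))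
      (PI.get (up.a h2) (PN.add (PN.mul hx gk) (PN.mod gr gk)))
  have := Cp.amax hk (fun _ _ _ _ => le_refl _) hb
  refine this.mono fun a _ τ hτ => ?_
  refine le_trans ?_ (kk2_le_wc P a hτ)
  have h0 : (kk P a) ≤ kk P a * kk P a := Nat.le_mul_self _
  have h1 : (kk P a : ℝ) ≤ ((kk P a * kk P a : ℕ) : ℝ) := by exact_mod_cast h0
  simp only [one, mul_one]
  linarith

theorem c_cand (h : Av D ρ) (h1 : PA In.n D ρ (L1 P)) (h2 : PA In.n D ρ (L2 P))
    (h3 : PA In.n D ρ (L3 P)) (hT : PA In.n D ρ (T1 P)) (hr : PN In.n D ρ (rr P))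
    (hb : PN In.n D ρ (rb P)) : PN In.n D ρ (cand P) := by
  have hk := c_kk P h
  have e1 : PA In.n D ρ (fun a => y13 P a (rr P a / kk P a) (rr P a % kk P a)) :=
    c_y13 (F := fun a : In => a) P h.n Bd.self h.g h1 (bd_L1 P) hT h3 (bd_L3 P)
      (PN.div hr hk) (PN.mod hr hk)
  exact PN.code h.n Bd.self (PA.lin 1 1 h.n Bd.self e1 (PA.dec h.n Bd.self h2 (bd_L2 P) hb))

/-- The main part. -/
theorem core (hm : 100 ≤ P.m) (h : Av D ρ) : Cp In.n D ρ (wc P) .int (fun a => (cand P a : ℤ)) := by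
  have wl : ∀ a, D a → ∀ τ : ℝ, 2 ≤ τ → 1 ≤ wc P τ a := fun a _ τ hτ => one_le_wc P a hτ
  refine ((c_SL h).lift wl).store fun Γ1 ρ1 k1 hS => ?_
  replace h := h.ke k1
  refine ((c_S3L h hS).lift wl).store fun Γ2 ρ2 k2 hS3 => ?_
  replace h := h.ke k2
  replace hS := k2.a hS
  refine ((c_D2L h hS).lift wl).store fun Γ3 ρ3 k3 hD2 => ?_
  replace h := h.ke k3
  replace hS := k3.a hS
  replace hS3 := k3.a hS3
  refine ((c_bL h).lift wl).store fun Γ4 ρ4 k4 hB => ?_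
  replace h := h.ke k4
  replace hS := k4.a hS
  replace hS3 := k4.a hS3
  replace hD2 := k4.i hD2
  refine ((c_LW h).lift wl).store fun Γ5 ρ5 k5 hW => ?_
  replace h := h.ke k5
  replace hS := k5.a hS
  replace hS3 := k5.a hS3
  replace hD2 := k5.i hD2
  replace hB := k5.a hB
  have hKT := (c_KT P h hS hS3 hD2 hB hW).mono_poly 2 (w' := wc P)
    fun a _ τ hτ => ⟨one_le_wc P a hτ, w2_le P hm a hτ⟩
  refine hKT.store fun Γ6 ρ6 k6 hK => ?_
  replace h := h.ke k6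
  replace hW := k6.a hW
  refine ((c_LR h).lift wl).store fun Γ7 ρ7 k7 hR => ?_
  replace h := h.ke k7
  replace hW := k7.a hW
  replace hK := k7.a hK
  refine ((c_L1 P h hW hR).lift wl).store fun Γ8 ρ8 k8 h1 => ?_
  replace h := h.ke k8
  replace hW := k8.a hW
  replace hR := k8.a hR
  replace hK := k8.a hK
  refine ((c_L2 P h hW hR).lift wl).store fun Γ9 ρ9 k9 h2 => ?_
  replace h := h.ke k9
  replace hW := k9.a hW
  replace hR := k9.a hR
  replace hK := k9.a hK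
  replace h1 := k9.a h1
  refine ((c_L3 P h hW hR).lift wl).store fun Γ10 ρ10 k10 h3 => ?_
  replace h := h.ke k10
  replace hW := k10.a hW
  replace hR := k10.a hR
  replace hK := k10.a hK
  replace h1 := k10.a h1
  replace h2 := k10.a h2
  refine (c_T1 P hm h hW hK).store fun Γ11 ρ11 k11 hT => ?_
  replace h := h.ke k11
  replace hW := k11.a hW
  replace hR := k11.a hR
  replace h1 := k11.a h1
  replace h2 := k11.a h2
  replace h3 := k11.a h3
  refine (c_M1 P h h1 h2 hT).store fun Γ12 ρ12 k12 m1 => ?_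
  replace h := h.ke k12
  replace hW := k12.a hW
  replace hR := k12.a hR
  replace h1 := k12.a h1
  replace h2 := k12.a h2
  replace h3 := k12.a h3
  replace hT := k12.a hT
  refine (c_M2 P h h2 h3 (c_n3 P h hW hR)).store fun Γ13 ρ13 k13 m2 => ?_
  replace h := h.ke k13
  replace h1 := k13.a h1
  replace h2 := k13.a h2
  replace h3 := k13.a h3
  replace hT := k13.a hT
  replace m1 := k13.a m1
  refine (c_MP P h m1 m2).store fun Γ14 ρ14 k14 mp => ?_
  replace h := h.ke k14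
  replace h1 := k14.a h1
  replace h2 := k14.a h2
  replace h3 := k14.a h3
  replace hT := k14.a hT
  replace m1 := k14.a m1
  replace m2 := k14.a m2
  refine (c_rr P h h1 h3 hT mp).store fun Γ15 ρ15 k15 hr => ?_
  replace h := h.ke k15
  replace h1 := k15.a h1
  replace h2 := k15.a h2
  replace h3 := k15.a h3
  replace hT := k15.a hT
  replace m1 := k15.a m1
  replace m2 := k15.a m2
  refine (c_rb P h m1 m2 hr).store fun Γ16 ρ16 k16 hb => ?_
  exact (c_cand P (h.ke k16) (k16.a h1) (k16.a h2) (k16.a h3) (k16.a hT) (k16.n hr) hb).lift wl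

end

end Pool.Agent.MPa9445a.BE
end

section

section

/-! The outer loops are computed by programs. -/

set_option autoImplicit false

open Finset

namespace Pool.Agent.MPa9445a.BE

section

variable {A : Type} {N : A → ℕ} {D : A → Prop} {Γ : List Ty} {ρ : A → Env Γ} (P : Prm)

theorem Bd.div {f g : A → ℕ} (hf : Bd N D f) : Bd N D (fun a => f a / g a) :=
  hf.le fun a _ => Nat.div_le_self _ _

theorem Bd.mod {f g : A → ℕ} (hf : Bd N D f) : Bd N D (fun a => f a % g a) :=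
  hf.le fun a _ => Nat.mod_le _ _

theorem c_spl {n h : A → ℕ} (hn : PN N D ρ n) (hb : Bd N D n) (hh : PN N D ρ h) :
    Cp N D ρ (fun _ a => ((4 ^ (n a / 4 + 1) : ℕ) : ℝ) + 1) .arr (fun a => spl (n a) (h a)) := by
  have hk := PN.add (PN.div hn (PN.const 4)) (PN.const 1)
  have bk : Bd N D (fun a => n a / 4 + 1) := (Bd.div hb).add (Bd.const 1)
  refine Cp.filter (PN.pow4 hk bk) fun Γ1 ρ1 up hc => ?_
  refine PB.leN ?_ (up.n hh)
  refine PN.sum (up.n hk) (bk.up _) fun Γ2 ρ2 up2 hi => ?_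
  exact PN.ite (PB.eqN (PN.mod (PN.div (up2.n hc) (PN.pow4 hi (Bd.var (bk.up _)))) (PN.const 4))
    (PN.const 0)) (PN.const 0) (PN.const 1)

theorem c_dg {b x t : A → ℕ} (hb : PN N D ρ b) (bb : Bd N D b) (hx : PN N D ρ x)
    (ht : PN N D ρ t) (bt : Bd N D t) : PN N D ρ (fun a => dg (b a) (x a) (t a)) :=
  PN.mod (PN.div hx (PN.pow2 (PN.mul hb ht) (bb.mul bt))) (PN.pow2 hb bb)

theorem c_gg {n b x : A → ℕ} {L : A → List ℤ} (hn : PN N D ρ n) (bn : Bd N D n)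
    (hb : PN N D ρ b) (bb : Bd N D b) (hL : PA N D ρ L) (hx : PN N D ρ x) :
    PA N D ρ (fun a => gg (n a) (b a) (L a) (x a)) := by
  refine PA.tab hn bn fun Γ1 ρ1 up hv => ?_
  have bv := Bd.var bn
  have hq := PN.add (PN.div (up.n hn) (PN.const 4)) (PN.const 1)
  have h1 := PN.toNat (PI.get (up.a hL)
    (c_dg (up.n hb) (bb.up _) (up.n hx) (PN.div hv hq) (Bd.div bv)))
  have h2 := PN.mod (PN.div h1 (PN.pow4 (PN.mod hv hq) (Bd.mod bv))) (PN.const 4)
  exact Cp.ite (PB.eqN h2 (PN.const 1)) (PI.const 1)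
    (Cp.ite (PB.eqN h2 (PN.const 2)) (PI.const (-1)) (PI.const 0))

theorem c_bg {n v : A → ℕ} {M g : A → List ℤ} (hn : PN N D ρ n) (bn : Bd N D n)
    (hM : PA N D ρ M) (hg : PA N D ρ g) (hv : PN N D ρ v) :
    PI N D ρ (fun a => bg (n a) (M a) (g a) (v a)) := by
  refine PI.sum hn bn fun Γ1 ρ1 up hu => ?_
  exact PI.mul (PI.get (up.a hM) (PN.add (PN.mul hu (up.n hn)) (up.n hv))) (PI.get (up.a hg) hu)

theorem c_rk {n v : A → ℕ} {M g : A → List ℤ} (hn : PN N D ρ n) (bn : Bd N D n)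
    (hM : PA N D ρ M) (hg : PA N D ρ g) (hv : PN N D ρ v) :
    PI N D ρ (fun a => rk (n a) (M a) (g a) (v a)) := by
  refine PI.sum hn bn fun Γ1 ρ1 up hu => ?_
  have gv := up.n hv
  have e1 := c_bg (up.n hn) (bn.up _) (up.a hM) (up.a hg) gv
  have e2 := c_bg (up.n hn) (bn.up _) (up.a hM) (up.a hg) hu
  exact Cp.ite (PB.and (PB.eq (PI.get (up.a hg) hu) (PI.const 0))
    (PB.or (PB.lt e1 e2) (PB.and (PB.eq e2 e1) (PB.ltN hu gv)))) (PI.const 1) (PI.const 0)

theorem c_np {n : A → ℕ} {g : A → List ℤ} (hn : PN N D ρ n) (bn : Bd N D n)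
    (hg : PA N D ρ g) : PI N D ρ (fun a => np (n a) (g a)) := by
  refine PI.sub (PN.div hn (PN.const 2)) ?_
  refine PI.sum hn bn fun Γ1 ρ1 up hu => ?_
  exact Cp.ite (PB.eq (PI.get (up.a hg) hu) (PI.const 1)) (PI.const 1) (PI.const 0)

theorem c_cand2 {n : A → ℕ} {M g : A → List ℤ} (hn : PN N D ρ n) (bn : Bd N D n)
    (hM : PA N D ρ M) (hg : PA N D ρ g) : PN N D ρ (fun a => cand2 (n a) (M a) (g a)) := by
  refine PN.code hn bn ?_
  refine PA.tab hn bn fun Γ1 ρ1 up hv => ?_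
  have e0 := PI.get (up.a hg) hv
  exact Cp.ite (PB.ne e0 (PI.const 0)) e0
    (Cp.ite (PB.lt (c_rk (up.n hn) (bn.up _) (up.a hM) (up.a hg) hv)
      (c_np (up.n hn) (bn.up _) (up.a hg))) (PI.const 1) (PI.const (-1)))

end

end Pool.Agent.MPa9445a.BE
end

section

/-! The whole algorithm is computed by a program. -/

set_option autoImplicit false

open Finset

namespace Pool.Agent.MPa9445a.BE

/-- The states: number of vertices, adjacency matrix. -/
abbrev Gr : Type := ℕ × List ℤ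

section

variable {A : Type} {N : A → ℕ} {D : A → Prop} {Γ : List Ty} {ρ : A → Env Γ} (P : Prm)

/-- The size of the matrices for `n` vertices. -/
@[irreducible] def kn (n : ℕ) : ℕ := 2 ^ (n / 3 - n / P.m + 4)

/-- The weight of the main part for `n` vertices. -/
noncomputable def wn (τ : ℝ) (n : ℕ) : ℝ := ((kn P n : ℝ) + 1) ^ τ

/-- The weight of the algorithm for `n` vertices. -/
noncomputable def wm (τ : ℝ) (n : ℕ) : ℝ := (((2 ^ (n / P.b * 9) : ℕ) : ℝ) + 1) * wn P τ n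

theorem wc_eq (τ : ℝ) (a : In) : wc P τ a = wn P τ a.n := by
  unfold wc wn kk kn n2
  rfl

theorem one_le_wn (n : ℕ) {τ : ℝ} (hτ : 2 ≤ τ) : 1 ≤ wn P τ n := by
  have h1 : (1 : ℝ) ≤ (kn P n : ℝ) + 1 := by
    have : (0 : ℝ) ≤ (kn P n : ℝ) := Nat.cast_nonneg _
    linarith
  exact Real.one_le_rpow h1 (by linarith)

theorem wn_le_wm (n : ℕ) {τ : ℝ} (hτ : 2 ≤ τ) : wn P τ n ≤ wm P τ n := by
  have h := one_le_wn P n hτ
  have : (0 : ℝ) ≤ ((2 ^ (n / P.b * 9) : ℕ) : ℝ) := Nat.cast_nonneg _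
  unfold wm
  nlinarith

theorem one_le_wm (n : ℕ) {τ : ℝ} (hτ : 2 ≤ τ) : 1 ≤ wm P τ n :=
  (one_le_wn P n hτ).trans (wn_le_wm P n hτ)

private theorem Q6_aux (n k : ℕ) {τ : ℝ} (hτ : 2 ≤ τ)
    (hk : k ≤ 2 * (n / 3 - n / P.m + 4)) :
    ((2 ^ k : ℕ) : ℝ) + 1 ≤ ((n : ℝ) + 2) ^ 1 * wm P τ n := by
  have h0 : (0 : ℝ) ≤ (kn P n : ℝ) := Nat.cast_nonneg _
  have h1 : ((2 ^ k : ℕ) : ℝ) ≤ (kn P n : ℝ) ^ 2 := by
    have h2 : 2 ^ k ≤ kn P n ^ 2 := by
      unfold kn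
      rw [← pow_mul]
      exact Nat.pow_le_pow_right (by norm_num) (by omega)
    exact_mod_cast h2
  have h3 : ((kn P n : ℝ) + 1) ^ 2 ≤ wn P τ n := by
    unfold wn
    have h4 := Real.rpow_le_rpow_of_exponent_le (by linarith : (1 : ℝ) ≤ (kn P n : ℝ) + 1) hτ
    rwa [Real.rpow_two] at h4
  have h5 := wn_le_wm P n hτ
  have h6 := one_le_wm P n hτ
  have h7 : (1 : ℝ) ≤ ((n : ℝ) + 2) ^ 1 := by
    have : (0 : ℝ) ≤ (n : ℝ) := Nat.cast_nonneg _
    rw [pow_one]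
    linarith
  have h8 : wm P τ n ≤ ((n : ℝ) + 2) ^ 1 * wm P τ n := by nlinarith
  nlinarith

/-- PROOF. `2 (n / 4) + 2 ≤ 2 (n / 3 - n / m + 4)`, and `τ ≥ 2`. -/
theorem spl_le (hm : 100 ≤ P.m) (n : ℕ) {τ : ℝ} (hτ : 2 ≤ τ) :
    ((4 ^ (n / 4 + 1) : ℕ) : ℝ) + 1 ≤ ((n : ℝ) + 2) ^ 1 * wm P τ n := by
  have h1 : 4 ^ (n / 4 + 1) = 2 ^ (2 * (n / 4 + 1)) := by
    rw [pow_mul]
    norm_num
  rw [h1]
  have h2 : n / P.m ≤ n / 100 := Nat.div_le_div_left hm (by norm_num)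
  exact Q6_aux P n _ hτ (by omega)

/-- PROOF. `n / 8 * 4 ≤ 2 (n / 3 - n / m + 4)`, and `τ ≥ 2`. -/
theorem loop2_le (hm : 100 ≤ P.m) (n : ℕ) {τ : ℝ} (hτ : 2 ≤ τ) :
    ((2 ^ (n / 8 * 4) : ℕ) : ℝ) + 1 ≤ ((n : ℝ) + 2) ^ 1 * wm P τ n := by
  have h2 : n / P.m ≤ n / 100 := Nat.div_le_div_left hm (by norm_num)
  exact Q6_aux P n _ hτ (by omega)

/-- The candidate of an index. -/
theorem c_candI (hm : 100 ≤ P.m) {n : A → ℕ} {M L : A → List ℤ} {x : A → ℕ}
    (hN : ∀ a, D a → N a = n a) (hn : PN N D ρ n) (hM : PA N D ρ M) (hL : PA N D ρ L)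
    (hx : PN N D ρ x) :
    Cp N D ρ (fun τ a => wn P τ (n a)) .int
      (fun a => (cand P (inp P (n a) (M a) (L a) (x a)) : ℤ)) := by
  have bn : Bd N D n := Bd.le Bd.self fun a ha => (hN a ha).ge
  have hb := PN.div hn (PN.const P.b)
  have bb : Bd N D (fun a => n a / P.b) := Bd.div bn
  have hd : ∀ t : ℕ, PN N D ρ (fun a => dg (n a / P.b) (x a) t) := fun t =>
    c_dg hb bb hx (PN.const t) (Bd.const t)
  have := call (N := N) (D := D) (ρ := ρ) (fun a => inp P (n a) (M a) (L a) (x a))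
    (fun a ha => hN a ha) hn hM (c_gg hn bn hb bb hL hx) (hd 4) (hd 5) (hd 6)
    (PI.sub (hd 7) (PI.mul (PI.const 2) (PI.pow hn 4)))
    (PI.sub (hd 8) (PI.mul (PI.const 2) (PI.pow hn 4)))
    (w := wc P) (f := fun a => (cand P a : ℤ)) fun D' Γ' ρ' h => core P hm h
  exact this.mono fun a _ τ _ => le_of_eq (wc_eq P τ _)

end

section

variable {D : Gr → Prop} {Γ : List Ty} {ρ : Gr → Env Γ} (P : Prm)

theorem c_best1 (hm : 100 ≤ P.m) (hn : PN Prod.fst D ρ Prod.fst) (hM : PA Prod.fst D ρ Prod.snd) :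
    Cp Prod.fst D ρ (fun τ a => wm P τ a.1) .int (fun a => (best1 P a.1 a.2 : ℤ)) := by
  have hL : Cp Prod.fst D ρ (fun τ a => wm P τ a.1) .arr (fun a => spl a.1 (a.1 / P.M)) :=
    (c_spl hn Bd.self (PN.div hn (PN.const P.M))).mono_poly 1 fun a _ τ hτ =>
      ⟨one_le_wm P a.1 hτ, spl_le P hm a.1 hτ⟩
  refine hL.store fun Γ1 ρ1 k1 gL => ?_
  have hn1 := k1.n hn
  have hM1 := k1.a hM
  have hk : PN Prod.fst D ρ1 (fun a => 2 ^ (a.1 / P.b * 9)) :=
    PN.pow2 (PN.mul (PN.div hn1 (PN.const P.b)) (PN.const 9)) ((Bd.div Bd.self).mul (Bd.const 9))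
  have hb : Body Prod.fst D ρ1 (fun a => 2 ^ (a.1 / P.b * 9)) (fun τ a => wn P τ a.1) .int
      (fun a x => Phi a.1 a.2 (vec a.1 (cand P (inp P a.1 a.2 (spl a.1 (a.1 / P.M)) x)))) := by
    intro Γ2 ρ2 up hx
    have e := c_candI (A := Gr × ℕ) P hm (n := fun p => p.1.1) (M := fun p => p.1.2)
      (L := fun p => spl p.1.1 (p.1.1 / P.M)) (x := fun p => p.2) (fun _ _ => rfl) (up.n hn1)
      (up.a hM1) (up.a gL) hx
    refine e.store fun Γ3 ρ3 k3 hc => ?_
    have e2 := PI.Phi (k3.n (up.n hn1)) (Bd.self.up _) (k3.a (up.a hM1))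
      (PA.vec (k3.n (up.n hn1)) (Bd.self.up _) hc)
    exact e2.lift fun p _ τ hτ => one_le_wn P p.1.1 hτ
  have h2 : Cp Prod.fst D ρ1 (fun τ a => wm P τ a.1) .int (fun a => ((argmax (2 ^ (a.1 / P.b * 9))
      fun x => Phi a.1 a.2 (vec a.1 (cand P (inp P a.1 a.2 (spl a.1 (a.1 / P.M)) x.toNat))) :
        ℕ) : ℤ)) := by
    have := Cp.amax hk (fun a _ τ hτ => one_le_wn P a.1 hτ) hb
    exact this.mono fun a _ τ _ => le_refl _
  refine h2.store fun Γ3 ρ3 k3 hx => ?_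
  have h3 := c_candI (A := Gr) P hm (n := fun p => p.1) (M := fun p => p.2)
      (L := fun p => spl p.1 (p.1 / P.M)) (x := fun a => argmax (2 ^ (a.1 / P.b * 9))
      fun x => Phi a.1 a.2 (vec a.1 (cand P (inp P a.1 a.2 (spl a.1 (a.1 / P.M)) x.toNat))))
      (fun _ _ => rfl) (k3.n hn1) (k3.a hM1) (k3.a gL) hx
  exact h3.mono fun a _ τ hτ => wn_le_wm P a.1 hτ

theorem c_best2 (hm : 100 ≤ P.m) (hn : PN Prod.fst D ρ Prod.fst) (hM : PA Prod.fst D ρ Prod.snd) :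
    Cp Prod.fst D ρ (fun τ a => wm P τ a.1) .int (fun a => (best2 a.1 a.2 : ℤ)) := by
  have hL : Cp Prod.fst D ρ (fun τ a => wm P τ a.1) .arr (fun a => spl a.1 (a.1 / 60)) :=
    (c_spl hn Bd.self (PN.div hn (PN.const 60))).mono_poly 1 fun a _ τ hτ =>
      ⟨one_le_wm P a.1 hτ, spl_le P hm a.1 hτ⟩
  refine hL.store fun Γ1 ρ1 k1 gL => ?_
  have hn1 := k1.n hn
  have hM1 := k1.a hM
  have h8 := PN.div hn1 (PN.const 8)
  have b8 : Bd Prod.fst D (fun a => a.1 / 8) := Bd.div Bd.self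
  have hk : PN Prod.fst D ρ1 (fun a => 2 ^ (a.1 / 8 * 4)) :=
    PN.pow2 (PN.mul h8 (PN.const 4)) (b8.mul (Bd.const 4))
  have hb : Body Prod.fst D ρ1 (fun a => 2 ^ (a.1 / 8 * 4)) one .int
      (fun a x => Phi a.1 a.2 (vec a.1 (cand2 a.1 a.2 (gg a.1 (a.1 / 8) (spl a.1 (a.1 / 60)) x)))) := by
    intro Γ2 ρ2 up hx
    have hn2 := up.n hn1
    have bn2 := (Bd.self (N := Prod.fst) (D := D)).up (fun a => 2 ^ (a.1 / 8 * 4))
    have e := c_cand2 hn2 bn2 (up.a hM1) (c_gg hn2 bn2 (up.n h8) (b8.up _) (up.a gL) hx)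
    exact PI.Phi hn2 bn2 (up.a hM1) (PA.vec hn2 bn2 e)
  have h2 : Cp Prod.fst D ρ1 (fun τ a => wm P τ a.1) .int (fun a => ((argmax (2 ^ (a.1 / 8 * 4))
      fun x => Phi a.1 a.2 (vec a.1 (cand2 a.1 a.2
        (gg a.1 (a.1 / 8) (spl a.1 (a.1 / 60)) x.toNat))) : ℕ) : ℤ)) := by
    have := Cp.amax hk (fun _ _ _ _ => le_refl _) hb
    exact this.mono_poly 1 fun a _ τ hτ => ⟨one_le_wm P a.1 hτ, by
      simpa [one] using loop2_le P hm a.1 hτ⟩
  refine h2.store fun Γ3 ρ3 k3 hx => ?_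
  have h3 := c_cand2 (k3.n hn1) Bd.self (k3.a hM1)
    (c_gg (k3.n hn1) Bd.self (k3.n h8) b8 (k3.a gL) hx)
  exact h3.lift fun a _ τ hτ => one_le_wm P a.1 hτ

/-- The weight of the whole algorithm. -/
noncomputable def wf (τ : ℝ) (a : Gr) : ℝ :=
  if a.1 < P.n₀ then ((2 ^ a.1 : ℕ) : ℝ) + 1 else wm P τ a.1

theorem c_best (hm : 100 ≤ P.m) (hn : PN Prod.fst D ρ Prod.fst) (hM : PA Prod.fst D ρ Prod.snd) :
    Cp Prod.fst D ρ (wf P) .int (fun a => (best P a.1 a.2 : ℤ)) := by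
  have hb : Body Prod.fst (fun a => D a ∧ a.1 < P.n₀) ρ (fun a => 2 ^ a.1) one .int
      (fun a x => Phi a.1 a.2 (vec a.1 x)) := by
    intro Γ2 ρ2 up hx
    have hn2 := up.n (hn.dom fun a ha => ha.1)
    have hM2 := up.a (hM.dom fun a ha => ha.1)
    have bn2 := (Bd.self (N := Prod.fst) (D := fun a => D a ∧ a.1 < P.n₀)).up (fun a => 2 ^ a.1)
    exact PI.Phi hn2 bn2 hM2 (PA.vec hn2 bn2 hx)
  have h1 : Cp Prod.fst (fun a => D a ∧ a.1 < P.n₀) ρ (wf P) .int
      (fun a => (brute a.1 a.2 : ℤ)) := by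
    have := Cp.amax (PN.pow2 (hn.dom fun a ha => ha.1) Bd.self) (fun _ _ _ _ => le_refl _) hb
    refine this.mono fun a ha τ hτ => ?_
    simp [wf, ha.2]
  have h2 : Cp Prod.fst (fun a => D a ∧ ¬ a.1 < P.n₀) ρ (fun τ a => wm P τ a.1) .int
      (fun a => if Phi a.1 a.2 (vec a.1 (best2 a.1 a.2)) ≤ Phi a.1 a.2 (vec a.1 (best1 P a.1 a.2))
        then (best1 P a.1 a.2 : ℤ) else (best2 a.1 a.2 : ℤ)) := by
    have hn' := hn.dom (D' := fun a => D a ∧ ¬ a.1 < P.n₀) fun a ha => ha.1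
    have hM' := hM.dom (D' := fun a => D a ∧ ¬ a.1 < P.n₀) fun a ha => ha.1
    refine (c_best1 P hm hn' hM').store fun Γ1 ρ1 k1 b1 => ?_
    refine (c_best2 P hm (k1.n hn') (k1.a hM')).store fun Γ2 ρ2 k2 b2 => ?_
    have gn := k2.n (k1.n hn')
    have gM := k2.a (k1.a hM')
    have g1 := k2.n b1
    have e := Cp.ite (PB.le (PI.Phi gn Bd.self gM (PA.vec gn Bd.self b2))
      (PI.Phi gn Bd.self gM (PA.vec gn Bd.self g1))) g1 b2
    exact e.lift fun a _ τ hτ => one_le_wm P a.1 hτ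
  have h3 := Cp.iteD (w := wf P) (PB.ltN hn (PN.const P.n₀)) h1 (h2.mono fun a ha τ _ => by
    simp [wf, ha.2])
  refine h3.congr fun a _ => ?_
  unfold best
  split_ifs <;> rfl

/-- PROOF. -/
theorem c_out (hm : 100 ≤ P.m) (hn : PN Prod.fst D ρ Prod.fst) (hM : PA Prod.fst D ρ Prod.snd) :
    Cp Prod.fst D ρ (wf P) .arr (fun a => out P a.1 a.2) := by
  refine (c_best P hm hn hM).store fun Γ1 ρ1 k1 b1 => ?_
  have e : PA Prod.fst D ρ1 (fun a => out P a.1 a.2) := by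
    refine PA.tab (k1.n hn) Bd.self fun Γ2 ρ2 up hv => ?_
    exact PN.bit (up.n b1) hv (Bd.var Bd.self)
  refine e.lift fun a _ τ hτ => ?_
  unfold wf
  split_ifs
  · have : (0 : ℝ) ≤ ((2 ^ a.1 : ℕ) : ℝ) := Nat.cast_nonneg _
    linarith
  · exact one_le_wm P a.1 hτ

end

end Pool.Agent.MPa9445a.BE
end

section

/-! The test of the algorithm. -/

set_option autoImplicit false

open Finset

namespace Pool.Agent.MPa9445a.BE

section

variable {P : Prm} {a : In} {G : SimpleGraph (Fin a.n)}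

private theorem B3_npos (h : Dom P a G) : 0 < a.n := lt_of_lt_of_le (by norm_num) h.n100

private theorem B3_D2 : 0 ≤ D2 (fm a.n (SL a)) := by
  unfold D2
  exact Finset.sum_nonneg fun u _ => Finset.sum_nonneg fun v _ => sq_nonneg _

private theorem B3_iff (h : Dom P a G) (c c' : ℕ) :
    (∑ v ∈ range a.n, gt (dec a.n (LW a) c') v = ∑ v ∈ range a.n, gt (dec a.n (LW a) c) v ∧
    ipL a.n (bL a) (dec a.n (LW a) c') = ipL a.n (bL a) (dec a.n (LW a) c) ∧
    (P.p.q1 : ℤ) * (a.n : ℤ) ^ 2 * nsL a.n (S3L a) (dec a.n (LW a) c') (dec a.n (LW a) c) ≤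
      P.p.p1 * D2L a ^ 3) ↔ fv a.n (dec a.n (LW a) c') ∈ ball (fm a.n (SL a)) (fv a.n (bL a))
      (P.p.R (fm a.n (SL a))) (st a.n (LW a)) (fv a.n (dec a.n (LW a) c)) := by
  unfold ball
  rw [Finset.mem_filter, sum_gt, sum_gt, ipL_eq, ipL_eq, nsL_eq, S3L_eq h, D2L_eq h]
  have h1 := dec_mem (VL_parts h).1 c'
  have hn : (0 : ℝ) < (a.n : ℝ) ^ 2 := by
    have := B3_npos h
    positivity
  have hq : (0 : ℝ) < (P.p.q1 : ℝ) := by exact_mod_cast P.p.q1pos
  have key : ((P.p.q1 : ℤ) * (a.n : ℤ) ^ 2 * nsq ((fm a.n (SL a) ^ 3).mulVec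
      (fv a.n (dec a.n (LW a) c') - fv a.n (dec a.n (LW a) c))) ≤
      P.p.p1 * D2 (fm a.n (SL a)) ^ 3) ↔ ((nsq ((fm a.n (SL a) ^ 3).mulVec
      (fv a.n (dec a.n (LW a) c') - fv a.n (dec a.n (LW a) c))) : ℤ) : ℝ) ≤
      P.p.R (fm a.n (SL a)) := by
    unfold Par.R
    rw [le_div_iff₀ hn, ← @Int.cast_le ℝ]
    push_cast
    rw [div_mul_eq_mul_div, le_div_iff₀ hq]
    constructor
    · intro h2
      linarith
    · intro h2
      linarith
  rw [key]
  constructor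
  · rintro ⟨h2, h3, h4⟩
    exact ⟨h1, h2, h3, h4⟩
  · rintro ⟨_, h2, h3, h4⟩
    exact ⟨h2, h3, h4⟩

open scoped Classical in
/-- PROOF. `sum_gt`, `ipL_eq`, `nsL_eq`, `S3L_eq`, `D2L_eq`, definition of `ball` (`dec_mem`); `q₁ n² N ≤ p₁ D³ ↔ N ≤ (p₁ / q₁) D³ / n²` as `n > 0`. -/
theorem inb_eq (h : Dom P a G) (c c' : ℕ) : inb P a c c' =
    if fv a.n (dec a.n (LW a) c') ∈ ball (fm a.n (SL a)) (fv a.n (bL a)) (P.p.R (fm a.n (SL a)))
      (st a.n (LW a)) (fv a.n (dec a.n (LW a) c)) then 1 else 0 := by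
  unfold inb
  by_cases hc : fv a.n (dec a.n (LW a) c') ∈ ball (fm a.n (SL a)) (fv a.n (bL a))
      (P.p.R (fm a.n (SL a))) (st a.n (LW a)) (fv a.n (dec a.n (LW a) c))
  · rw [if_pos hc, if_pos ((B3_iff h c c').2 hc)]
  · rw [if_neg hc, if_neg fun h2 => hc ((B3_iff h c c').1 h2)]

/-- PROOF. `sum_dec`, `inb_eq`; the ball is a subset of `Om`. -/
theorem nb_eq (h : Dom P a G) (c : ℕ) : nb P a c =
    (ball (fm a.n (SL a)) (fv a.n (bL a)) (P.p.R (fm a.n (SL a)))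
      (st a.n (LW a)) (fv a.n (dec a.n (LW a) c))).card := by
  classical
  have hnw : nw a = 2 ^ (LW a).length := by
    unfold nw
    rfl
  unfold nb
  rw [hnw, Finset.sum_congr rfl fun c' _ => inb_eq h c c',
    sum_dec (VL_parts h).1 (fun x => if x ∈ ball (fm a.n (SL a)) (fv a.n (bL a))
      (P.p.R (fm a.n (SL a))) (st a.n (LW a)) (fv a.n (dec a.n (LW a) c)) then 1 else 0),
    Finset.sum_boole]
  congr 2
  ext x
  rw [Finset.mem_filter]
  constructor
  · exact fun h2 => h2.2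
  · intro h2
    refine ⟨?_, h2⟩
    unfold ball at h2
    exact (Finset.mem_filter.1 h2).1

/-- PROOF. As `nb_eq`, with `qfL_eq`. -/
theorem sb_eq (h : Dom P a G) (c : ℕ) : sb P a c =
    ∑ y ∈ ball (fm a.n (SL a)) (fv a.n (bL a)) (P.p.R (fm a.n (SL a)))
      (st a.n (LW a)) (fv a.n (dec a.n (LW a) c)), qf (fm a.n (SL a)) y := by
  classical
  have hnw : nw a = 2 ^ (LW a).length := by
    unfold nw
    rfl
  obtain ⟨f, hf⟩ : ∃ f : (Fin a.n → ℤ) → ℤ, f = fun x => if x ∈ ball (fm a.n (SL a))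
      (fv a.n (bL a)) (P.p.R (fm a.n (SL a))) (st a.n (LW a)) (fv a.n (dec a.n (LW a) c)) then
        qf (fm a.n (SL a)) x else 0 := ⟨_, rfl⟩
  unfold sb
  have h1 : ∀ c' ∈ range (2 ^ (LW a).length), inb P a c c' * en a c' =
      f (fv a.n (dec a.n (LW a) c')) := by
    intro c' _
    rw [inb_eq h c c', hf]
    unfold en
    rw [qfL_eq]
    by_cases hc : fv a.n (dec a.n (LW a) c') ∈ ball (fm a.n (SL a)) (fv a.n (bL a))
      (P.p.R (fm a.n (SL a))) (st a.n (LW a)) (fv a.n (dec a.n (LW a) c))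
    · simp only [if_pos hc, one_mul]
    · simp only [if_neg hc, zero_mul]
  rw [hnw, Finset.sum_congr rfl h1, sum_dec (VL_parts h).1 f, hf, ← Finset.sum_filter]
  refine Finset.sum_congr ?_ fun x _ => rfl
  ext x
  rw [Finset.mem_filter]
  constructor
  · exact fun h2 => h2.2
  · intro h2
    refine ⟨?_, h2⟩
    unfold ball at h2
    exact (Finset.mem_filter.1 h2).1

open scoped Classical in
/-- PROOF. Definition of `Kp`, `Keep`, `Par.th`: with `N = #ball ≥ 0`, `X = N qf - ∑`: `√((p₂ / q₂) D₂ n) N < |X| ↔ (p₂ / q₂) D₂ n N² < X²` (`Real.sqrt_lt'`, squares of nonnegative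
numbers), multiply by `q₂`. `nw a = 2 ^ |LW| = 2 ^ #st`. -/
theorem kt_eq (h : Dom P a G) (c : ℕ) : kt P a c =
    if Kp P.p (fm a.n (SL a)) (fv a.n (bL a)) (st a.n (LW a)) (fv a.n (dec a.n (LW a) c))
    then 1 else 0 := by
  have hnw : nw a = 2 ^ (LW a).length := by
    unfold nw
    rfl
  obtain ⟨B, hB⟩ : ∃ B, B = ball (fm a.n (SL a)) (fv a.n (bL a)) (P.p.R (fm a.n (SL a)))
      (st a.n (LW a)) (fv a.n (dec a.n (LW a) c)) := ⟨_, rfl⟩
  have h0 : (nb P a c * 2 ^ (P.p.p3 * a.n / P.p.q3) ≤ (nw a : ℤ) ∨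
      (P.p.p2 : ℤ) * D2L a * a.n * nb P a c ^ 2 < P.p.q2 * (nb P a c * en a c - sb P a c) ^ 2) ↔
      Kp P.p (fm a.n (SL a)) (fv a.n (bL a)) (st a.n (LW a)) (fv a.n (dec a.n (LW a) c)) := by
    unfold Kp Keep
    rw [nb_eq h, sb_eq h, D2L_eq h, ← hB, hnw, card_st (VL_parts h).1]
    have hen : en a c = qf (fm a.n (SL a)) (fv a.n (dec a.n (LW a) c)) := by
      unfold en
      exact qfL_eq _ _ _
    rw [hen]
    refine or_congr ?_ ?_
    · unfold Par.e
      constructor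
      · intro h2
        exact_mod_cast h2
      · intro h2
        exact_mod_cast h2
    · obtain ⟨X, hX⟩ : ∃ X : ℤ, X = (B.card : ℤ) * qf (fm a.n (SL a))
          (fv a.n (dec a.n (LW a) c)) - ∑ y ∈ B, qf (fm a.n (SL a)) y := ⟨_, rfl⟩
      rw [← hX]
      obtain ⟨D, hD⟩ : ∃ D : ℤ, D = D2 (fm a.n (SL a)) := ⟨_, rfl⟩
      have hD0 : 0 ≤ D := by rw [hD]; exact B3_D2
      unfold Par.th
      rw [← hD]
      have hq : (0 : ℝ) < (P.p.q2 : ℝ) := by exact_mod_cast P.p.q2pos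
      have hD1 : (0 : ℝ) ≤ (D : ℝ) := by exact_mod_cast hD0
      have hA : (0 : ℝ) ≤ (P.p.p2 / P.p.q2 : ℝ) * (D : ℝ) * (a.n : ℝ) := by positivity
      have e1 : (Real.sqrt ((P.p.p2 / P.p.q2 : ℝ) * (D : ℝ) * (a.n : ℝ)) * (B.card : ℝ) <
          |(X : ℝ)|) ↔ (Real.sqrt ((P.p.p2 / P.p.q2 : ℝ) * (D : ℝ) * (a.n : ℝ)) * (B.card : ℝ)) ^ 2 <
          |(X : ℝ)| ^ 2 :=
        (sq_lt_sq₀ (by positivity) (abs_nonneg _)).symm
      have e2 : ((|X| : ℤ) : ℝ) = |(X : ℝ)| := Int.cast_abs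
      have e3 : ((P.p.p2 / P.p.q2 : ℝ) * (D : ℝ) * (a.n : ℝ) * (B.card : ℝ) ^ 2 < (X : ℝ) ^ 2) ↔
          (P.p.p2 : ℝ) * (D : ℝ) * (a.n : ℝ) * (B.card : ℝ) ^ 2 < P.p.q2 * (X : ℝ) ^ 2 := by
        have e4 : (P.p.p2 / P.p.q2 : ℝ) * (D : ℝ) * (a.n : ℝ) * (B.card : ℝ) ^ 2 =
            (P.p.p2 : ℝ) * (D : ℝ) * (a.n : ℝ) * (B.card : ℝ) ^ 2 / P.p.q2 := by ring
        rw [e4, div_lt_iff₀ hq, mul_comm ((X : ℝ) ^ 2)]
      rw [e2, e1, mul_pow, Real.sq_sqrt hA, sq_abs, e3, ← @Int.cast_lt ℝ]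
      push_cast
      exact Iff.rfl
  unfold kt
  by_cases hc : Kp P.p (fm a.n (SL a)) (fv a.n (bL a)) (st a.n (LW a))
      (fv a.n (dec a.n (LW a) c))
  · rw [if_pos hc, if_pos (h0.2 hc)]
  · rw [if_neg hc, if_neg fun h2 => hc (h0.1 h2)]

end

end Pool.Agent.MPa9445a.BE
end
end

section

/-! The list of the first part. -/

set_option autoImplicit false

open Finset

namespace Pool.Agent.MPa9445a.BE

section

variable {P : Prm} {a : In} {G : SimpleGraph (Fin a.n)}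

/-- The first part of the vector `x` of the first part is kept. -/
def KpW (P : Prm) (a : In) (x : Fin a.n → ℤ) : Prop :=
  Kp P.p (fm a.n (SL a)) (fv a.n (bL a)) (st a.n (LW a)) x

private theorem B4_gt {l : List ℤ} {x : ℕ} (hx : x < l.length) : gt l x = l[x] := by
  unfold gt
  rw [List.getD_eq_getElem?_getD, List.getElem?_eq_getElem hx]
  rfl

private theorem B4_iff (h : Dom P a G) (c : ℕ) : gt (KT P a) (c % nw a) ≠ 0 ↔
    KpW P a (rs (st a.n (LW a)) (fv a.n (dec a.n (L1 P a) c))) := by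
  have h0 : nw a = 2 ^ (LW a).length := by unfold nw; rfl
  have h1 : 0 < nw a := by rw [h0]; positivity
  have h2 : gt (KT P a) (c % nw a) = kt P a (c % nw a) := by
    unfold gt KT
    rw [getD_tb, if_pos (Nat.mod_lt _ h1)]
  have h3 : (L1 P a).length = n1 P a := by
    unfold L1
    exact length_tb _ _
  have h4 := rs_dec (VL_parts h).2.1 (VL_parts h).1 (by rw [h3]; exact (sizes h).1)
    (L1_first h) c
  rw [h2, kt_eq h, h4, ← h0]
  unfold KpW
  by_cases hk : Kp P.p (fm a.n (SL a)) (fv a.n (bL a)) (st a.n (LW a))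
    (fv a.n (dec a.n (LW a) (c % nw a)))
  · rw [if_pos hk]
    exact ⟨fun _ => hk, fun _ => one_ne_zero⟩
  · rw [if_neg hk]
    exact ⟨fun h5 => absurd rfl h5, fun h5 => absurd h5 hk⟩

private theorem B4_mod (q : ℕ → Prop) [DecidablePred q] (w d : ℕ) :
    ((range (2 ^ (w + d))).filter fun c => q (c % 2 ^ w)).card =
      2 ^ d * ((range (2 ^ w)).filter q).card := by
  have hw : 0 < 2 ^ w := by positivity
  have h1 : 2 ^ d * ((range (2 ^ w)).filter q).card =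
      (((range (2 ^ w)).filter q) ×ˢ range (2 ^ d)).card := by
    rw [card_product, card_range, mul_comm]
  rw [h1]
  apply Finset.card_nbij' (fun c => (c % 2 ^ w, c / 2 ^ w)) (fun p => p.1 + 2 ^ w * p.2)
  · intro c hc
    rw [Finset.mem_coe, mem_filter, mem_range] at hc
    rw [Finset.mem_coe, mem_product, mem_filter, mem_range, mem_range]
    refine ⟨⟨Nat.mod_lt _ hw, hc.2⟩, ?_⟩
    apply Nat.div_lt_of_lt_mul
    rw [← pow_add]
    exact hc.1
  · intro p hp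
    rw [Finset.mem_coe, mem_product, mem_filter, mem_range, mem_range] at hp
    rw [Finset.mem_coe, mem_filter, mem_range]
    dsimp only
    have h2 : (p.1 + 2 ^ w * p.2) % 2 ^ w = p.1 := by
      rw [Nat.add_mul_mod_self_left, Nat.mod_eq_of_lt hp.1.1]
    rw [h2]
    refine ⟨?_, hp.1.2⟩
    have h3 : p.2 + 1 ≤ 2 ^ d := hp.2
    calc p.1 + 2 ^ w * p.2 < 2 ^ w + 2 ^ w * p.2 := by omega
      _ = 2 ^ w * (p.2 + 1) := by ring
      _ ≤ 2 ^ w * 2 ^ d := Nat.mul_le_mul_left _ h3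
      _ = 2 ^ (w + d) := by rw [pow_add]
  · intro c _
    dsimp only
    exact Nat.mod_add_div c (2 ^ w)
  · intro p hp
    rw [Finset.mem_coe, mem_product, mem_filter, mem_range, mem_range] at hp
    dsimp only
    rw [Nat.add_mul_mod_self_left, Nat.mod_eq_of_lt hp.1.1, Nat.add_mul_div_left _ _ hw,
      Nat.div_eq_of_lt hp.1.1, zero_add]

private theorem B4_flt (k : ℕ) (q : ℕ → Prop) [DecidablePred q] :
    (flt k q).length = ((range k).filter q).card := by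
  unfold flt
  rw [List.length_map]
  rfl

/-- PROOF. `T1` is `flt`: the entry is `c` for some `c < 2 ^ n1` with `KT (c % nw) = 1` (`kt_eq`), and `rs_dec` (`L1_first`, `sizes`; `L1` has length `n1`). -/
theorem T1_get (h : Dom P a G) {x : ℕ} (hx : x < (T1 P a).length) :
    ∃ c : ℕ, c < 2 ^ n1 P a ∧ gt (T1 P a) x = (c : ℤ) ∧
      KpW P a (rs (st a.n (LW a)) (fv a.n (dec a.n (L1 P a) c))) := by
  have h1 : (T1 P a)[x] ∈ T1 P a := List.getElem_mem hx
  have h2 : T1 P a = ((List.range (2 ^ n1 P a)).filter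
      fun i => decide (gt (KT P a) (i % nw a) ≠ 0)).map fun i : ℕ => (i : ℤ) := rfl
  have h3 : (T1 P a)[x] ∈ ((List.range (2 ^ n1 P a)).filter
      fun i => decide (gt (KT P a) (i % nw a) ≠ 0)).map fun i : ℕ => (i : ℤ) := h1
  obtain ⟨c, hc, he⟩ := List.mem_map.mp h3
  rw [List.mem_filter, List.mem_range] at hc
  refine ⟨c, hc.1, ?_, (B4_iff h c).mp (of_decide_eq_true hc.2)⟩
  rw [B4_gt hx, ← he]

/-- PROOF. Membership in the filtered list. -/
theorem T1_mem (h : Dom P a G) {c : ℕ} (hc : c < 2 ^ n1 P a)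
    (hk : KpW P a (rs (st a.n (LW a)) (fv a.n (dec a.n (L1 P a) c)))) :
    ∃ x < (T1 P a).length, gt (T1 P a) x = (c : ℤ) := by
  have h1 : (c : ℤ) ∈ T1 P a := by
    unfold T1 flt
    apply List.mem_map.mpr
    refine ⟨c, ?_, rfl⟩
    rw [List.mem_filter, List.mem_range]
    exact ⟨hc, decide_eq_true ((B4_iff h c).mpr hk)⟩
  obtain ⟨x, hx, he⟩ := List.getElem_of_mem h1
  exact ⟨x, hx, by rw [B4_gt hx, he]⟩

open scoped Classical in
/-- PROOF. The length is the number of `c < 2 ^ n1` such that `c % 2 ^ w` is good, `w = (LW a).length`; `c ↦ (c % 2 ^ w, c / 2 ^ w)` is a bijection to pairs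
(`Nat.count`, `Finset.card_bij`, or `range (2 ^ n1)` is the image of a product), and the number of good `c < 2 ^ w` is the number of kept vectors (`dec_inj`, `dec_surj`, `card_Om`). -/
theorem T1_length (h : Dom P a G) : (T1 P a).length =
    2 ^ (n1 P a - (LW a).length) *
      ((Om (st a.n (LW a))).filter fun x => KpW P a x).card := by
  have h3 : (L1 P a).length = n1 P a := by
    unfold L1
    exact length_tb _ _
  have hle := (sizes h).1
  obtain ⟨d, hd⟩ := Nat.exists_eq_add_of_le hle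
  have h1 : (T1 P a).length = ((range (2 ^ ((LW a).length + d))).filter fun c =>
      KpW P a (fv a.n (dec a.n (LW a) (c % 2 ^ (LW a).length)))).card := by
    unfold T1
    rw [B4_flt, hd]
    congr 1
    apply Finset.filter_congr
    intro c _
    have h4 := rs_dec (VL_parts h).2.1 (VL_parts h).1 (by rw [h3]; exact hle)
      (L1_first h) c
    rw [← h4]
    exact B4_iff h c
  rw [h1, B4_mod (fun c => KpW P a (fv a.n (dec a.n (LW a) c))), hd, Nat.add_sub_cancel_left]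
  congr 1
  apply Finset.card_bij (fun c _ => fv a.n (dec a.n (LW a) c))
  · intro c hc
    rw [mem_filter, mem_range] at hc
    rw [mem_filter]
    exact ⟨dec_mem (VL_parts h).1 c, hc.2⟩
  · intro c hc c' hc' he
    rw [mem_filter, mem_range] at hc hc'
    exact dec_inj (VL_parts h).1 hc.1 hc'.1 he
  · intro x hx
    rw [mem_filter] at hx
    obtain ⟨c, hc, he⟩ := dec_surj (VL_parts h).1 hx.1
    refine ⟨c, ?_, he⟩
    rw [mem_filter, mem_range]
    refine ⟨hc, ?_⟩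
    rw [he]
    exact hx.2

open scoped Classical in
/-- PROOF. `T1_length`, `ht` for `Y = st (LW a)` (`Mat_SL`, `bL_bd`): the length is at most `2 ^ (n1 - w) 2 ^ (w - δ n) = 2 ^ (n1 - δ n)`, and `δ n ≥ 3 (n / m)`, so this is at most
`2 ^ (n / 3 - n / m) = 2 ^ n2 ≤ kk`. -/
theorem T1_le_kk (h : Dom P a G) {δ : ℝ} (hm : 3 ≤ δ * P.m)
    (ht : ∀ S : Matrix (Fin a.n) (Fin a.n) ℤ, Mat S → ∀ b : Fin a.n → ℤ, (∀ v, |b v| ≤ a.n) →
      ∀ Y : Finset (Fin a.n), (((Om Y).filter fun x => Kp P.p S b Y x).card : ℝ) ≤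
        (2 : ℝ) ^ ((Y.card : ℝ) - δ * a.n)) : (T1 P a).length ≤ kk P a := by
  have h1 := ht (fm a.n (SL a)) (Mat_SL h) (fv a.n (bL a)) (bL_bd h) (st a.n (LW a))
  rw [card_st (VL_parts h).1] at h1
  have hkk : kk P a = 2 ^ (n2 P a + 4) := by unfold kk; rfl
  have hle := (sizes h).1
  have hm0 : 100 ≤ P.m := h.m100
  have hmR : (0 : ℝ) < P.m := by exact_mod_cast (by omega : 0 < P.m)
  have h2 : ((T1 P a).length : ℝ) ≤ (2 : ℝ) ^ (n2 P a + 4) := by
    rw [T1_length h]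
    push_cast
    have h3 : (2 : ℝ) ^ (n1 P a - (LW a).length) *
        (((Om (st a.n (LW a))).filter fun x => KpW P a x).card : ℝ) ≤
        (2 : ℝ) ^ (n1 P a - (LW a).length) * (2 : ℝ) ^ (((LW a).length : ℝ) - δ * a.n) :=
      mul_le_mul_of_nonneg_left h1 (by positivity)
    refine h3.trans ?_
    rw [← Real.rpow_natCast, ← Real.rpow_natCast, ← Real.rpow_add (by norm_num)]
    apply Real.rpow_le_rpow_of_exponent_le (by norm_num)
    rw [Nat.cast_sub hle]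
    have h4 : a.n / P.m ≤ a.n / 3 := Nat.div_le_div_left (by omega) (by norm_num)
    have h5 : n1 P a + a.n / P.m = n2 P a + 4 * (a.n / P.m) := by
      unfold n1 n2
      omega
    have h6 : ((a.n / P.m : ℕ) : ℝ) ≤ (a.n : ℝ) / P.m := Nat.cast_div_le
    have h7 : 3 * ((a.n / P.m : ℕ) : ℝ) ≤ δ * a.n := by
      have h8 : (a.n : ℝ) / P.m * 3 ≤ δ * a.n := by
        rw [div_mul_eq_mul_div, div_le_iff₀ hmR]
        have h9 : (a.n : ℝ) * 3 ≤ a.n * (δ * P.m) :=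
          mul_le_mul_of_nonneg_left hm (Nat.cast_nonneg _)
        linarith
      linarith
    have h10 : (n1 P a : ℝ) + ((a.n / P.m : ℕ) : ℝ) = n2 P a + 4 * ((a.n / P.m : ℕ) : ℝ) := by
      exact_mod_cast h5
    push_cast
    linarith
  rw [hkk]
  exact_mod_cast h2

end

end Pool.Agent.MPa9445a.BE
end
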