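import Pool.Agent.Lib.MP_a9445a_lc.Mg.G137

section

section

/-! Numbers. -/

set_option autoImplicit false

open Finset

namespace Pool.Agent.MPa9445a.DB

open Pool.Agent.MPa9445a.GL (LL)

variable {n : ℕ}

theorem nJ_le (n : ℕ) : nJ n ≤ n := by
  unfold nJ
  omega

theorem nJ_pos (hn : 10 ^ 16 ≤ n) : 0 < nJ n := by
  norm_num at hn
  unfold nJ
  omega

theorem nJ_half (hn : 10 ^ 16 ≤ n) : n ≤ 2 * nJ n := by
  norm_num at hn
  unfold nJ
  omega

/-- PROOF. `2 ^ (2 nJ - n) * 2 ^ (n - nJ) = 2 ^ nJ`. -/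
theorem Y0_mul (hn : 10 ^ 16 ≤ n) : Y0 n * 2 ^ (n - nJ n) = 2 ^ nJ n := by
  have h1 := nJ_half hn
  have h2 := nJ_le n
  unfold Y0
  rw [← pow_add]
  congr 1
  omega

private theorem N1_pow (hn : 10 ^ 16 ≤ n) : n ^ 5 ≤ 2 ^ (n - nJ n) := by
  norm_num at hn
  have h5 : n / 5 ≤ n - nJ n := by
    unfold nJ
    omega
  have h6 : n ≤ 2 ^ (n / 25) := by
    set m := n / 50 with hm
    have h1 : m + 1 ≤ 2 ^ m := Nat.lt_two_pow_self
    have h2 : 2 * m ≤ n / 25 := by omega
    have h3 : n ≤ 50 * (m + 1) := by omega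
    have h4 : 50 ≤ m + 1 := by omega
    calc n ≤ 50 * (m + 1) := h3
      _ ≤ (m + 1) * (m + 1) := Nat.mul_le_mul_right _ h4
      _ ≤ 2 ^ m * 2 ^ m := Nat.mul_le_mul h1 h1
      _ = 2 ^ (2 * m) := by rw [← pow_add]; congr 1; ring
      _ ≤ 2 ^ (n / 25) := Nat.pow_le_pow_right (by norm_num) h2
  calc n ^ 5 ≤ (2 ^ (n / 25)) ^ 5 := Nat.pow_le_pow_left h6 5
    _ = 2 ^ (n / 25 * 5) := by rw [← pow_mul]
    _ ≤ 2 ^ (n - nJ n) := Nat.pow_le_pow_right (by norm_num) (by omega)

private theorem N1_LL (hn : 10 ^ 16 ≤ n) : LL n ≤ 3 * n ^ 4 := by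
  have h : 0 < n ^ 4 := pow_pos (by norm_num at hn; omega) 4
  unfold LL
  omega

/-- PROOF. `LL n = 2 n ^ 4 + 1 ≤ 2 ^ (n - nJ n)`, `Y0_mul`; `n - nJ n ≥ n / 5`, `x ^ 5 ≤ 2 ^ x` for `x ≥ 23`, or `n < 2 ^ (n / 1000)`. -/
theorem LL_Y0 (hn : 10 ^ 16 ≤ n) : LL n * Y0 n ≤ 2 ^ nJ n := by
  rw [← Y0_mul hn, mul_comm]
  refine Nat.mul_le_mul_left _ ?_
  have h3 : 3 ≤ n := by norm_num at hn; omega
  calc LL n ≤ 3 * n ^ 4 := N1_LL hn
    _ ≤ n * n ^ 4 := Nat.mul_le_mul_right _ h3
    _ = n ^ 5 := by ring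
    _ ≤ 2 ^ (n - nJ n) := N1_pow hn

/-- PROOF. `R1 n = n ^ 14`; the left side is at most `(10 ^ 16 * n ^ 6) ^ 2`, since `10 ^ 9 * 16 * 3 * n * n ^ 4 * n ≤ 10 ^ 16 * n ^ 6`. -/
theorem num_R1 (hn : 10 ^ 16 ≤ n) : (10 ^ 9 * nJ n * (16 * LL n * (nJ n + 2))) ^ 2 ≤ R1 n := by
  have h1 : nJ n + 2 ≤ n := by
    norm_num at hn
    unfold nJ
    omega
  have h2 := nJ_le n
  have h3 := N1_LL hn
  unfold R1
  have h4 : 10 ^ 9 * nJ n * (16 * LL n * (nJ n + 2)) ≤ n ^ 7 := by
    calc 10 ^ 9 * nJ n * (16 * LL n * (nJ n + 2))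
        ≤ 10 ^ 9 * n * (16 * (3 * n ^ 4) * n) := by gcongr
      _ = (48 * 10 ^ 9) * n ^ 6 := by ring
      _ ≤ n * n ^ 6 := Nat.mul_le_mul_right _ (by norm_num at hn ⊢; omega)
      _ = n ^ 7 := by ring
  calc (10 ^ 9 * nJ n * (16 * LL n * (nJ n + 2))) ^ 2 ≤ (n ^ 7) ^ 2 := Nat.pow_le_pow_left h4 2
    _ = n ^ 14 := by ring

end Pool.Agent.MPa9445a.DB
end

section

/-! The quotient by one vector. -/

set_option autoImplicit false

open Finset

namespace Pool.Agent.MPa9445a.DB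

open Pool.Agent.MPa9445a.BE (gt bit tb flt lin Phi vec code argmax matMul)

theorem del_testBit (j c i : ℕ) :
    (del j c).testBit i = if i < j then c.testBit i else c.testBit (i + 1) := by
  unfold del
  rw [add_comm, Nat.testBit_two_pow_mul_add _ (Nat.mod_lt _ (Nat.two_pow_pos j))]
  split_ifs with h
  · rw [Nat.testBit_mod_two_pow]
    simp [h]
  · rw [Nat.testBit_div_two_pow]
    congr 1
    omega

theorem ins_testBit (j c i : ℕ) :
    (ins j c).testBit i = if i < j then c.testBit i else if i = j then false else c.testBit (i - 1) := by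
  have h0 : c % 2 ^ j < 2 ^ (j + 1) :=
    (Nat.mod_lt _ (Nat.two_pow_pos j)).trans (Nat.pow_lt_pow_right (by norm_num) (Nat.lt_succ_self j))
  unfold ins
  rw [add_comm, Nat.testBit_two_pow_mul_add _ h0]
  by_cases h1 : i < j
  · rw [if_pos (by omega), if_pos h1, Nat.testBit_mod_two_pow]
    simp [h1]
  · rw [if_neg h1]
    by_cases h2 : i = j
    · subst h2
      rw [if_pos (Nat.lt_succ_self i), if_pos rfl, Nat.testBit_mod_two_pow]
      simp
    · rw [if_neg h2, if_neg (by omega), Nat.testBit_div_two_pow]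
      congr 1
      omega

theorem lt_of_testBit {k c : ℕ} (h : ∀ i, k ≤ i → c.testBit i = false) : c < 2 ^ k :=
  Nat.lt_pow_two_of_testBit c h

theorem testBit_of_lt {k c i : ℕ} (h : c < 2 ^ k) (hi : k ≤ i) : c.testBit i = false :=
  Nat.testBit_lt_two_pow (h.trans_le (Nat.pow_le_pow_right (by norm_num) hi))

theorem del_lt {j k c : ℕ} (hj : j ≤ k) (hc : c < 2 ^ (k + 1)) : del j c < 2 ^ k := by
  apply lt_of_testBit
  intro i hi
  rw [del_testBit, if_neg (by omega)]
  exact testBit_of_lt hc (by omega)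

theorem ins_lt {j k c : ℕ} (hj : j ≤ k) (hc : c < 2 ^ k) : ins j c < 2 ^ (k + 1) := by
  apply lt_of_testBit
  intro i hi
  rw [ins_testBit, if_neg (by omega), if_neg (by omega)]
  exact testBit_of_lt hc (by omega)

theorem del_ins (j c : ℕ) : del j (ins j c) = c := by
  apply Nat.eq_of_testBit_eq
  intro i
  rw [del_testBit, ins_testBit, ins_testBit]
  by_cases h : i < j
  · rw [if_pos h, if_pos h]
  · rw [if_neg h, if_neg (by omega), if_neg (by omega), Nat.add_sub_cancel]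

theorem ins_del {j c : ℕ} (h : c.testBit j = false) : ins j (del j c) = c := by
  apply Nat.eq_of_testBit_eq
  intro i
  rw [ins_testBit]
  by_cases h1 : i < j
  · rw [if_pos h1, del_testBit, if_pos h1]
  · rw [if_neg h1]
    by_cases h2 : i = j
    · rw [if_pos h2, h2, h]
    · rw [if_neg h2, del_testBit, if_neg (by omega)]
      congr 1
      omega

theorem ins_bit (j c : ℕ) : (ins j c).testBit j = false := by
  rw [ins_testBit, if_neg (lt_irrefl j), if_pos rfl]

theorem xr_bit (k a b i : ℕ) (hi : i < k) : bit (xr k a b) i = (bit a i + bit b i) % 2 := by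
  rw [bit_xr, if_pos hi]

theorem del_xr {j k a b : ℕ} (hj : j ≤ k) : del j (xr (k + 1) a b) = xr k (del j a) (del j b) := by
  apply Nat.eq_of_testBit_eq
  intro i
  rw [del_testBit, xr_testBit, xr_testBit, xr_testBit, del_testBit, del_testBit]
  by_cases h1 : i < j
  · have h2 : i < k := by omega
    have h3 : i < k + 1 := by omega
    simp [h1, h2, h3]
  · by_cases h2 : i < k
    · have h3 : i + 1 < k + 1 := by omega
      simp [h1, h2]
    · simp [h1, h2]

/-- `argmax` is below the bound. -/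
theorem argmax_lt {k : ℕ} (hk : 0 < k) (f : ℤ → ℤ) : argmax k f < k :=
  (BE.argmax_spec hk f).1

theorem le_argmax {k : ℕ} (f : ℤ → ℤ) {i : ℕ} (hi : i < k) : f i ≤ f (argmax k f) :=
  (BE.argmax_spec (Nat.lt_of_le_of_lt (Nat.zero_le i) hi) f).2 i hi

theorem pv_lt (k v : ℕ) : pv (k + 1) v < k + 1 := argmax_lt (Nat.succ_pos k) _

theorem pv_bit {k v : ℕ} (hv : 0 < v) (hk : v < 2 ^ k) : v.testBit (pv k v) = true := by
  obtain ⟨i, hi⟩ := Nat.exists_testBit_of_ne_zero hv.ne'
  have hik : i < k := by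
    by_contra h
    rw [testBit_of_lt hk (by omega)] at hi
    exact absurd hi (by simp)
  have h1 := le_argmax (k := k) (fun j => (bit v j.toNat : ℤ)) hik
  have h2 : bit v i = 1 := by rw [bit_testBit, hi]; rfl
  simp only [Int.toNat_natCast, h2] at h1
  have h3 : bit v (pv k v) = 1 := by
    have h4 : (1 : ℤ) ≤ bit v (pv k v) := by
      unfold pv
      exact_mod_cast h1
    have h5 : bit v (pv k v) < 2 := Nat.mod_lt _ (by norm_num)
    omega
  by_contra h
  rw [bit_testBit, if_neg h] at h3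
  exact absurd h3 (by norm_num)

section

variable (k v : ℕ)

theorem X2_stp_lt {c : ℕ} (hc : c < 2 ^ (k + 1)) : stp k v c < 2 ^ k := by
  unfold stp
  refine del_lt (Nat.lt_succ_iff.1 (pv_lt k v)) ?_
  split_ifs
  · exact xr_lt _ _ _
  · exact hc

theorem X2_stp_xr {a b : ℕ} (_ : a < 2 ^ (k + 1)) (hb : b < 2 ^ (k + 1)) :
    stp k v (xr (k + 1) a b) = xr k (stp k v a) (stp k v b) := by
  have hj : pv (k + 1) v < k + 1 := pv_lt k v
  unfold stp
  rw [← del_xr (Nat.lt_succ_iff.1 hj)]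
  congr 1
  set j := pv (k + 1) v with hjd
  have h1 : bit (xr (k + 1) a b) j = (bit a j + bit b j) % 2 := xr_bit _ _ _ _ hj
  rw [h1]
  have h2 : bit a j < 2 := Nat.mod_lt _ (by norm_num)
  have h3 : bit b j < 2 := Nat.mod_lt _ (by norm_num)
  by_cases ha1 : bit a j = 1 <;> by_cases hb1 : bit b j = 1
  · rw [if_pos ha1, if_pos hb1, if_neg (by omega)]
    rw [xr_assoc, xr_comm _ b v, ← xr_assoc _ v v b, xr_self, xr_comm _ 0 b, xr_zero hb]
  · rw [if_pos ha1, if_neg hb1, if_pos (by omega)]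
    rw [xr_assoc, xr_assoc, xr_comm _ b v]
  · rw [if_neg ha1, if_pos hb1, if_pos (by omega), xr_assoc]
  · rw [if_neg ha1, if_neg hb1, if_neg (by omega)]

variable {k v}

theorem X2_rp_lt {c : ℕ} (hc : c < 2 ^ k) : rp k v c < 2 ^ (k + 1) :=
  ins_lt (Nat.lt_succ_iff.1 (pv_lt k v)) hc

theorem X2_stp_rp {c : ℕ} : stp k v (rp k v c) = c := by
  unfold stp rp
  have h : ¬ bit (ins (pv (k + 1) v) c) (pv (k + 1) v) = 1 := by
    rw [bit_testBit, ins_bit]
    simp
  rw [if_neg h, del_ins]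

theorem X2_stp_rp2 (hv : 0 < v) (hk : v < 2 ^ (k + 1)) {c : ℕ} (hc : c < 2 ^ k) :
    stp k v (xr (k + 1) (rp k v c) v) = c := by
  have hj : pv (k + 1) v < k + 1 := pv_lt k v
  have h1 : bit (xr (k + 1) (rp k v c) v) (pv (k + 1) v) = 1 := by
    rw [xr_bit _ _ _ _ hj]
    unfold rp
    rw [bit_testBit, ins_bit, bit_testBit, pv_bit hv hk]
    rfl
  unfold stp
  rw [if_pos h1, xr_cancel (X2_rp_lt hc)]
  unfold rp
  rw [del_ins]

theorem X2_rp_ne (hv : 0 < v) (hk : v < 2 ^ (k + 1)) (c : ℕ) : rp k v c ≠ xr (k + 1) (rp k v c) v := by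
  intro h
  have hj : pv (k + 1) v < k + 1 := pv_lt k v
  have h1 := congrArg (fun x => Nat.testBit x (pv (k + 1) v)) h
  simp only [xr_testBit] at h1
  unfold rp at h1
  rw [ins_bit, pv_bit hv hk] at h1
  simp [hj] at h1

/-- The two elements of a class. -/
theorem X2_eq_rp (hv : 0 < v) (hk : v < 2 ^ (k + 1)) {z : ℕ} (hz : z < 2 ^ (k + 1)) {c : ℕ}
    (h : stp k v z = c) : z = rp k v c ∨ z = xr (k + 1) (rp k v c) v := by
  have hj : pv (k + 1) v < k + 1 := pv_lt k v
  unfold stp at h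
  unfold rp
  split_ifs at h with hb
  · right
    have h1 : (xr (k + 1) z v).testBit (pv (k + 1) v) = false := by
      rw [xr_testBit, pv_bit hv hk]
      have : z.testBit (pv (k + 1) v) = true := by
        by_contra h2
        rw [bit_testBit, if_neg h2] at hb
        exact absurd hb (by norm_num)
      simp [this]
    rw [← h, ins_del h1, xr_cancel hz]
  · left
    have h1 : z.testBit (pv (k + 1) v) = false := by
      by_contra h2
      rw [bit_testBit, if_pos (by simpa using h2)] at hb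
      exact hb rfl
    rw [← h, ins_del h1]

end

/-- PROOF. `argmax_spec` (see `BE`): the value at `pv k v` is the maximum; some digit is `1` since `0 < v < 2 ^ k`. -/
theorem pv_spec {k v : ℕ} (h0 : 0 < v) (h : v < 2 ^ k) : pv k v < k ∧ bit v (pv k v) = 1 := by
  have hk : 0 < k := by
    rcases Nat.eq_zero_or_pos k with h1 | h1
    · rw [h1] at h
      omega
    · exact h1
  refine ⟨argmax_lt hk _, ?_⟩
  rw [bit_testBit, pv_bit h0 h]
  rfl

/-- PROOF. Digits of `c % 2 ^ j + 2 ^ j * (c / 2 ^ (j + 1))`. -/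
theorem bit_del (j c i : ℕ) : bit (del j c) i = if i < j then bit c i else bit c (i + 1) := by
  rw [bit_testBit, del_testBit, bit_testBit, bit_testBit]
  by_cases h : i < j
  · rw [if_pos h, if_pos h]
  · rw [if_neg h, if_neg h]

theorem bit_ins (j c i : ℕ) :
    bit (ins j c) i = if i < j then bit c i else if i = j then 0 else bit c (i - 1) := by
  rw [bit_testBit, ins_testBit, bit_testBit, bit_testBit]
  by_cases h : i < j
  · rw [if_pos h, if_pos h]
  · rw [if_neg h, if_neg h]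
    by_cases h' : i = j
    · rw [if_pos h', if_pos h']
      rfl
    · rw [if_neg h', if_neg h']

theorem stp_lt {k v c : ℕ} (h0 : 0 < v) (hv : v < 2 ^ (k + 1)) (hc : c < 2 ^ (k + 1)) :
    stp k v c < 2 ^ k :=
  X2_stp_lt k v hc

theorem rp_lt {k v c : ℕ} (h0 : 0 < v) (hv : v < 2 ^ (k + 1)) (hc : c < 2 ^ k) :
    rp k v c < 2 ^ (k + 1) :=
  X2_rp_lt hc

/-- `stp` is linear. PROOF. `ext_bit`; `j = pv (k + 1) v`; the digit `i` of `stp k v c` is the digit `i'` (`i' = i` or `i + 1`, `i' ≠ j`) of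
`c + bit c j * v`. -/
theorem stp_xr {k v a b : ℕ} (h0 : 0 < v) (hv : v < 2 ^ (k + 1)) (ha : a < 2 ^ (k + 1))
    (hb : b < 2 ^ (k + 1)) : stp k v (xr (k + 1) a b) = xr k (stp k v a) (stp k v b) :=
  X2_stp_xr k v ha hb

/-- The two elements of the class `c`. PROOF. Digits. If the digit `j` of `x` is `0` then `stp k v x = del j x`, `ins j (del j x) = x`; if it is
`1` then `x' = xr (k + 1) x v` has the digit `0` at `j` and `stp k v x = del j x'`. -/
theorem stp_eq {k v x c : ℕ} (h0 : 0 < v) (hv : v < 2 ^ (k + 1)) (hx : x < 2 ^ (k + 1))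
    (hc : c < 2 ^ k) : stp k v x = c ↔ x = rp k v c ∨ x = xr (k + 1) (rp k v c) v := by
  constructor
  · exact X2_eq_rp h0 hv hx
  · rintro (h | h)
    · rw [h]
      exact X2_stp_rp
    · rw [h]
      exact X2_stp_rp2 h0 hv hc

theorem rp_ne {k v c : ℕ} (h0 : 0 < v) (hv : v < 2 ^ (k + 1)) :
    rp k v c ≠ xr (k + 1) (rp k v c) v :=
  X2_rp_ne h0 hv c

/-- `xr` and the representative: `xr (k + 1) (rp k v a) (rp k v b)` has the class `xr k a b`. -/
theorem stp_rp {k v c : ℕ} (h0 : 0 < v) (hv : v < 2 ^ (k + 1)) (hc : c < 2 ^ k) :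
    stp k v (rp k v c) = c ∧ stp k v (xr (k + 1) (rp k v c) v) = c :=
  ⟨X2_stp_rp, X2_stp_rp2 h0 hv hc⟩

/-- PROOF. `Finset.sum_fiberwise` for the map `stp k v` from `range (2 ^ (k + 1))` to `range (2 ^ k)`; the fibre of `c` is
`{rp k v c, xr (k + 1) (rp k v c) v}` by `stp_eq`, `rp_ne`. -/
theorem sum_rp {β : Type} [AddCommMonoid β] {k v : ℕ} (h0 : 0 < v) (hv : v < 2 ^ (k + 1))
    (F : ℕ → β) : ∑ x ∈ range (2 ^ (k + 1)), F x =
      ∑ c ∈ range (2 ^ k), (F (rp k v c) + F (xr (k + 1) (rp k v c) v)) := by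
  classical
  rw [← sum_fiberwise_of_maps_to (s := range (2 ^ (k + 1))) (t := range (2 ^ k)) (g := stp k v)
    (fun z hz => mem_range.2 (stp_lt h0 hv (mem_range.1 hz)))]
  refine sum_congr rfl fun c hc => ?_
  have hc' := mem_range.1 hc
  have h1 : (range (2 ^ (k + 1))).filter (fun z => stp k v z = c) =
      {rp k v c, xr (k + 1) (rp k v c) v} := by
    ext z
    rw [mem_filter, mem_insert, mem_singleton, mem_range]
    constructor
    · rintro ⟨h2, h3⟩
      exact (stp_eq h0 hv h2 hc').1 h3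
    · rintro (rfl | rfl)
      · exact ⟨rp_lt h0 hv hc', X2_stp_rp⟩
      · exact ⟨xr_lt _ _ _, X2_stp_rp2 h0 hv hc'⟩
  rw [h1, sum_pair (rp_ne h0 hv)]

end Pool.Agent.MPa9445a.DB
end

section

/-! The classes modulo the first `m` entries of `vs`. -/

set_option autoImplicit false

open Finset

namespace Pool.Agent.MPa9445a.DB

open Pool.Agent.MPa9445a.BE (gt bit tb flt lin Phi vec code argmax matMul)
open Pool.Agent.MPa9445a.GD (itr fm)

/-- The first `m` entries of `vs` are possible directions. -/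
def Vd (N : ℕ) (vs : List ℤ) (m : ℕ) : Prop :=
  ∀ l < m, 0 < (gt vs l).toNat ∧ (gt vs l).toNat < 2 ^ (N - l)

theorem Vd.mono {N m m' : ℕ} {vs : List ℤ} (h : Vd N vs m) (hm : m' ≤ m) : Vd N vs m' :=
  fun l hl => h l (hl.trans_le hm)

theorem C1_lt {N : ℕ} (vs : List ℤ) {z : ℕ} (hz : z < 2 ^ N) {m : ℕ} (hm : m ≤ N) :
    lb N vs z m < 2 ^ (N - m) := by
  induction m with
  | zero => exact hz
  | succ m ih =>
    have h1 : N - m = N - 1 - m + 1 := by omega
    have h2 : N - (m + 1) = N - 1 - m := by omega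
    rw [h2]
    unfold lb
    exact X2_stp_lt _ _ (by rw [← h1]; exact ih (by omega))

theorem C1_xr {N : ℕ} (vs : List ℤ) {a b : ℕ} (ha : a < 2 ^ N) (hb : b < 2 ^ N) {m : ℕ} (hm : m ≤ N) :
    lb N vs (xr N a b) m = xr (N - m) (lb N vs a m) (lb N vs b m) := by
  induction m with
  | zero => rfl
  | succ m ih =>
    have h1 : N - m = N - 1 - m + 1 := by omega
    have h2 : N - (m + 1) = N - 1 - m := by omega
    have h3 := C1_lt vs ha (by omega : m ≤ N)
    have h4 := C1_lt vs hb (by omega : m ≤ N)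
    rw [h2]
    simp only [lb]
    rw [ih (by omega), h1]
    rw [h1] at h3 h4
    exact X2_stp_xr _ _ h3 h4

/-- The fibre of the label `s`. -/
def fb (N : ℕ) (vs : List ℤ) (m s : ℕ) : Finset ℕ := (range (2 ^ N)).filter fun z => lb N vs z m = s

theorem mem_fb {N : ℕ} {vs : List ℤ} {m s z : ℕ} : z ∈ fb N vs m s ↔ z < 2 ^ N ∧ lb N vs z m = s := by
  unfold fb
  rw [mem_filter, mem_range]

theorem fb_zero {N : ℕ} (vs : List ℤ) {s : ℕ} (hs : s < 2 ^ N) : fb N vs 0 s = {s} := by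
  ext z
  rw [mem_fb, mem_singleton]
  constructor
  · rintro ⟨_, h⟩
    exact h
  · rintro rfl
    exact ⟨hs, rfl⟩

/-- The fibre of a label of the next step. -/
theorem fb_succ {N : ℕ} {vs : List ℤ} {m : ℕ} (hm : m < N) (hv : 0 < (gt vs m).toNat)
    (hv' : (gt vs m).toNat < 2 ^ (N - m)) {s : ℕ} (hs : s < 2 ^ (N - 1 - m)) :
    fb N vs (m + 1) s = fb N vs m (rp (N - 1 - m) (gt vs m).toNat s) ∪
      fb N vs m (xr (N - 1 - m + 1) (rp (N - 1 - m) (gt vs m).toNat s) (gt vs m).toNat) := by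
  have h1 : N - m = N - 1 - m + 1 := by omega
  rw [h1] at hv'
  ext z
  rw [mem_union, mem_fb, mem_fb, mem_fb]
  constructor
  · rintro ⟨hz, h⟩
    have h2 := C1_lt vs hz hm.le
    rw [h1] at h2
    simp only [lb] at h
    rcases X2_eq_rp hv hv' h2 h with h3 | h3
    · exact Or.inl ⟨hz, h3⟩
    · exact Or.inr ⟨hz, h3⟩
  · rintro (⟨hz, h⟩ | ⟨hz, h⟩)
    · exact ⟨hz, by simp only [lb]; rw [h, X2_stp_rp]⟩
    · exact ⟨hz, by simp only [lb]; rw [h, X2_stp_rp2 hv hv' hs]⟩

theorem fb_disj {N : ℕ} {vs : List ℤ} {m s s' : ℕ} (h : s ≠ s') : Disjoint (fb N vs m s) (fb N vs m s') := by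
  rw [Finset.disjoint_left]
  intro z hz hz'
  rw [mem_fb] at hz hz'
  exact h (hz.2.symm.trans hz'.2)

theorem sum_fb_succ {N : ℕ} {vs : List ℤ} {m : ℕ} (hm : m < N) (hv : 0 < (gt vs m).toNat)
    (hv' : (gt vs m).toNat < 2 ^ (N - m)) {s : ℕ} (hs : s < 2 ^ (N - 1 - m)) {A : Type*} [AddCommMonoid A]
    (F : ℕ → A) :
    ∑ z ∈ fb N vs (m + 1) s, F z = ∑ z ∈ fb N vs m (rp (N - 1 - m) (gt vs m).toNat s), F z +
      ∑ z ∈ fb N vs m (xr (N - 1 - m + 1) (rp (N - 1 - m) (gt vs m).toNat s) (gt vs m).toNat), F z := by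
  have h1 : N - m = N - 1 - m + 1 := by omega
  rw [fb_succ hm hv hv' hs, sum_union (fb_disj ?_)]
  rw [h1] at hv'
  exact rp_ne hv hv'

theorem C1_card_fb {N : ℕ} {vs : List ℤ} {m : ℕ} (hm : m ≤ N) (hv : Vd N vs m) {s : ℕ} (hs : s < 2 ^ (N - m)) :
    (fb N vs m s).card = 2 ^ m := by
  induction m generalizing s with
  | zero => rw [Nat.sub_zero] at hs; rw [fb_zero vs hs]; rfl
  | succ m ih =>
    have h1 : N - m = N - 1 - m + 1 := by omega
    have h2 : N - (m + 1) = N - 1 - m := by omega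
    rw [h2] at hs
    have hvm := hv m (Nat.lt_succ_self m)
    have h3 := sum_fb_succ (by omega) hvm.1 hvm.2 hs (fun _ => 1)
    simp only [sum_const, smul_eq_mul, mul_one] at h3
    have h4 : rp (N - 1 - m) (gt vs m).toNat s < 2 ^ (N - m) := by rw [h1]; exact X2_rp_lt hs
    have h5 : xr (N - 1 - m + 1) (rp (N - 1 - m) (gt vs m).toNat s) (gt vs m).toNat < 2 ^ (N - m) := by
      rw [h1]; exact xr_lt _ _ _
    rw [h3, ih (by omega) (hv.mono (Nat.le_succ m)) h4, ih (by omega) (hv.mono (Nat.le_succ m)) h5]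
    ring

/-- The folded array of the sums. -/
theorem C1_gt_lds {N : ℕ} (K : List ℤ) {vs : List ℤ} {m : ℕ} (hm : m ≤ N) (hv : Vd N vs m) {c : ℕ}
    (hc : c < 2 ^ (N - m)) : gt (lds N K vs m) c = ∑ z ∈ fb N vs m c, gt K z := by
  induction m generalizing c with
  | zero => rw [Nat.sub_zero] at hc; rw [fb_zero vs hc, sum_singleton]; rfl
  | succ m ih =>
    have h1 : N - m = N - 1 - m + 1 := by omega
    have h2 : N - (m + 1) = N - 1 - m := by omega
    rw [h2] at hc
    have hvm := hv m (Nat.lt_succ_self m)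
    have e : lds N K vs (m + 1) = mrg (N - 1 - m) (gt vs m).toNat (lds N K vs m) := rfl
    have h4 : rp (N - 1 - m) (gt vs m).toNat c < 2 ^ (N - m) := by rw [h1]; exact X2_rp_lt hc
    have h5 : xr (N - 1 - m + 1) (rp (N - 1 - m) (gt vs m).toNat c) (gt vs m).toNat < 2 ^ (N - m) := by
      rw [h1]; exact xr_lt _ _ _
    rw [e]
    unfold mrg
    rw [gt_tb_if, if_pos hc, ih (by omega) (hv.mono (Nat.le_succ m)) h4,
      ih (by omega) (hv.mono (Nat.le_succ m)) h5, sum_fb_succ (by omega) hvm.1 hvm.2 hc]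

/-- The folded array of the maxima: upper bound. -/
theorem C1_le_mxs {N : ℕ} (Y : List ℤ) {vs : List ℤ} {m : ℕ} (hm : m ≤ N) (hv : Vd N vs m) {c : ℕ}
    (hc : c < 2 ^ (N - m)) : ∀ z ∈ fb N vs m c, gt Y z ≤ gt (mxs N Y vs m) c := by
  induction m generalizing c with
  | zero =>
    intro z hz
    rw [Nat.sub_zero] at hc
    rw [fb_zero vs hc, mem_singleton] at hz
    rw [hz]
    exact le_rfl
  | succ m ih =>
    have h1 : N - m = N - 1 - m + 1 := by omega
    have h2 : N - (m + 1) = N - 1 - m := by omega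
    rw [h2] at hc
    have hvm := hv m (Nat.lt_succ_self m)
    have e : mxs N Y vs (m + 1) = mrx (N - 1 - m) (gt vs m).toNat (mxs N Y vs m) := rfl
    have h4 : rp (N - 1 - m) (gt vs m).toNat c < 2 ^ (N - m) := by rw [h1]; exact X2_rp_lt hc
    have h5 : xr (N - 1 - m + 1) (rp (N - 1 - m) (gt vs m).toNat c) (gt vs m).toNat < 2 ^ (N - m) := by
      rw [h1]; exact xr_lt _ _ _
    intro z hz
    rw [fb_succ (by omega) hvm.1 hvm.2 hc, mem_union] at hz
    rw [e]
    unfold mrx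
    rw [gt_tb_if, if_pos hc]
    rcases hz with hz | hz
    · have h6 := ih (by omega) (hv.mono (Nat.le_succ m)) h4 z hz
      split_ifs with h7
      · exact h6.trans h7
      · exact h6
    · have h6 := ih (by omega) (hv.mono (Nat.le_succ m)) h5 z hz
      split_ifs with h7
      · exact h6
      · exact h6.trans (not_le.1 h7).le

/-- The folded array of the maxima: the value is attained. -/
theorem C1_mxs_mem {N : ℕ} (Y : List ℤ) {vs : List ℤ} {m : ℕ} (hm : m ≤ N) (hv : Vd N vs m) {c : ℕ}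
    (hc : c < 2 ^ (N - m)) : ∃ z ∈ fb N vs m c, gt (mxs N Y vs m) c = gt Y z := by
  induction m generalizing c with
  | zero =>
    refine ⟨c, ?_, rfl⟩
    rw [Nat.sub_zero] at hc
    rw [fb_zero vs hc]
    exact mem_singleton_self c
  | succ m ih =>
    have h1 : N - m = N - 1 - m + 1 := by omega
    have h2 : N - (m + 1) = N - 1 - m := by omega
    rw [h2] at hc
    have hvm := hv m (Nat.lt_succ_self m)
    have e : mxs N Y vs (m + 1) = mrx (N - 1 - m) (gt vs m).toNat (mxs N Y vs m) := rfl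
    have h4 : rp (N - 1 - m) (gt vs m).toNat c < 2 ^ (N - m) := by rw [h1]; exact X2_rp_lt hc
    have h5 : xr (N - 1 - m + 1) (rp (N - 1 - m) (gt vs m).toNat c) (gt vs m).toNat < 2 ^ (N - m) := by
      rw [h1]; exact xr_lt _ _ _
    rw [e, fb_succ (by omega) hvm.1 hvm.2 hc]
    unfold mrx
    rw [gt_tb_if, if_pos hc]
    split_ifs with h7
    · obtain ⟨z, hz, h8⟩ := ih (by omega) (hv.mono (Nat.le_succ m)) h5
      exact ⟨z, mem_union_right _ hz, h8⟩
    · obtain ⟨z, hz, h8⟩ := ih (by omega) (hv.mono (Nat.le_succ m)) h4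
      exact ⟨z, mem_union_left _ hz, h8⟩

theorem lb_lt {N m z : ℕ} {vs : List ℤ} (hm : m ≤ N) (hv : Vd N vs m) (hz : z < 2 ^ N) :
    lb N vs z m < 2 ^ (N - m) :=
  C1_lt vs hz hm

/-- PROOF. Induction over `m`, `stp_xr`. -/
theorem lb_xr {N m a b : ℕ} {vs : List ℤ} (hm : m ≤ N) (hv : Vd N vs m) (ha : a < 2 ^ N)
    (hb : b < 2 ^ N) : lb N vs (xr N a b) m = xr (N - m) (lb N vs a m) (lb N vs b m) :=
  C1_xr vs ha hb hm

/-- Sums over the classes. PROOF. Induction over `m`: `mrg` and `stp_eq`; `Finset.sum` over `z` with `lb … (m + 1) = c` is the sum over the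
two values `rp …` and `xr …` of `lb … m`. -/
theorem lds_eq {N m c : ℕ} {K vs : List ℤ} (hm : m ≤ N) (hv : Vd N vs m) (hc : c < 2 ^ (N - m)) :
    gt (lds N K vs m) c = ∑ z ∈ range (2 ^ N), if lb N vs z m = c then gt K z else 0 := by
  rw [C1_gt_lds K hm hv hc]
  unfold fb
  rw [sum_filter]

/-- Every class has `2 ^ m` elements. PROOF. Induction over `m` as in `lds_eq`. -/
theorem lb_card {N m c : ℕ} {vs : List ℤ} (hm : m ≤ N) (hv : Vd N vs m) (hc : c < 2 ^ (N - m)) :
    ((range (2 ^ N)).filter fun z => lb N vs z m = c).card = 2 ^ m :=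
  C1_card_fb hm hv hc

/-- Maxima over the classes. PROOF. Induction over `m`. -/
theorem mxs_eq {N m c : ℕ} {Y vs : List ℤ} (hm : m ≤ N) (hv : Vd N vs m) (hc : c < 2 ^ (N - m)) :
    (∃ z < 2 ^ N, lb N vs z m = c ∧ gt (mxs N Y vs m) c = gt Y z) ∧
      ∀ z < 2 ^ N, lb N vs z m = c → gt Y z ≤ gt (mxs N Y vs m) c := by
  constructor
  · obtain ⟨z, hz, h⟩ := C1_mxs_mem Y hm hv hc
    rw [mem_fb] at hz
    exact ⟨z, hz.1, hz.2, h⟩
  · intro z hz h
    exact C1_le_mxs Y hm hv hc z (mem_fb.2 ⟨hz, h⟩)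

end Pool.Agent.MPa9445a.DB
end
end

section

/-! The list of the directions. -/

set_option autoImplicit false

open Finset

namespace Pool.Agent.MPa9445a.DB

open Pool.Agent.MPa9445a.BE (gt bit tb flt lin Phi vec code argmax matMul)
open Pool.Agent.MPa9445a.GD (itr fm)

private theorem C2_app_l {l : List ℤ} {z : ℤ} {i : ℕ} (h : i < l.length) :
    gt (l ++ [z]) i = gt l i := by
  unfold gt
  rw [List.getD_append _ _ _ _ h]

private theorem C2_app_r {l : List ℤ} {z : ℤ} {i : ℕ} (h : i = l.length) :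
    gt (l ++ [z]) i = z := by
  subst h
  unfold gt
  rw [List.getD_append_right _ _ _ _ le_rfl]
  simp

/-- Lists which are built by appending one entry in every pass (for `vl`, `sl`, `cl`). PROOF. Induction over `m`. -/
theorem itr_app (f : ℕ → List ℤ → ℤ) (m : ℕ) :
    (itr (fun l z => z ++ [f l z]) [] m).length = m ∧
      ∀ l < m, gt (itr (fun l z => z ++ [f l z]) [] m) l =
        f l (itr (fun l z => z ++ [f l z]) [] l) := by
  induction m with
  | zero => exact ⟨rfl, fun l hl => absurd hl (Nat.not_lt_zero l)⟩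
  | succ m ih =>
    have e : itr (fun l z => z ++ [f l z]) [] (m + 1) =
        itr (fun l z => z ++ [f l z]) [] m ++ [f m (itr (fun l z => z ++ [f l z]) [] m)] := rfl
    refine ⟨?_, fun l hl => ?_⟩
    · rw [e, List.length_append, ih.1]
      rfl
    · rw [e]
      rcases Nat.lt_or_ge l m with h | h
      · rw [C2_app_l (by rw [ih.1]; exact h)]
        exact ih.2 l h
      · have hlm : l = m := by omega
        rw [C2_app_r (by rw [ih.1]; exact hlm), hlm]

/-- The value of `lds`, `lb` depends only on the first entries. PROOF. Induction over `m`. -/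
theorem lds_congr {N m : ℕ} {K vs vs' : List ℤ} (h : ∀ l < m, gt vs l = gt vs' l) :
    lds N K vs m = lds N K vs' m := by
  induction m with
  | zero => rfl
  | succ m ih =>
    have e : ∀ us : List ℤ, lds N K us (m + 1) =
        mrg (N - 1 - m) (gt us m).toNat (lds N K us m) := fun us => rfl
    rw [e, e, h m (Nat.lt_succ_self m), ih fun l hl => h l (Nat.lt_succ_of_lt hl)]

theorem lb_congr {N m z : ℕ} {vs vs' : List ℤ} (h : ∀ l < m, gt vs l = gt vs' l) :
    lb N vs z m = lb N vs' z m := by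
  induction m with
  | zero => rfl
  | succ m ih =>
    have e : ∀ us : List ℤ, lb N us z (m + 1) =
        stp (N - 1 - m) (gt us m).toNat (lb N us z m) := fun us => rfl
    rw [e, e, h m (Nat.lt_succ_self m), ih fun l hl => h l (Nat.lt_succ_of_lt hl)]

theorem vl_len (N : ℕ) (K : List ℤ) (m : ℕ) : (vl N K m).length = m := by
  exact (itr_app (fun l z => (nv N K z l : ℤ)) m).1

theorem vl_get {N m l : ℕ} {K : List ℤ} (h : l < m) :
    gt (vl N K m) l = (nv N K (vl N K l) l : ℤ) := by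
  exact (itr_app (fun l z => (nv N K z l : ℤ)) m).2 l h

/-- PROOF. `vl_get`, `argmax_lt` (the argmax over `range (2 ^ (N - l) - 1)`, which is not empty since `l < N`). -/
theorem vl_Vd {N m : ℕ} {K : List ℤ} (hm : m ≤ N) : Vd N (vl N K m) m := by
  intro l hl
  rw [vl_get hl, Int.toNat_natCast]
  have h1 : 2 ^ 1 ≤ 2 ^ (N - l) := Nat.pow_le_pow_right (by norm_num) (by omega)
  have h2 : 0 < 2 ^ (N - l) - 1 := by omega
  have h3 := (BE.argmax_spec h2 fun x => -gt (lc N K (vl N K l) l) (1 + x.toNat)).1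
  unfold nv
  omega

/-- The loads for the list of length `m` after `l ≤ m` steps. PROOF. `lds_congr`, `vl_get`. -/
theorem lds_vl {N m l : ℕ} {K : List ℤ} (h : l ≤ m) :
    lds N K (vl N K m) l = lds N K (vl N K l) l := by
  refine lds_congr fun i hi => ?_
  rw [vl_get (lt_of_lt_of_le hi h), vl_get hi]

end Pool.Agent.MPa9445a.DB
end

section

/-!
# The correlation by Walsh-Hadamard transforms

The correlations `∑ c, g c * h (c xor s)` for all `s < 2 ^ k` at once by three fast transforms, on functions of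
natural numbers: `st b` is the pass for the bit `b`, `wh k` the transform.
-/

set_option autoImplicit false

open Finset

namespace Pool.Agent.MPa9445a.DB

open Pool.Agent.MPa9445a.BE (gt bit tb flt lin Phi vec code argmax matMul)
open Pool.Agent.MPa9445a.GD (itr fm)

/-- The pass of the transform which treats the bit `b`. -/
def st (b : ℕ) (h : ℕ → ℤ) : ℕ → ℤ := fun c =>
  if c.testBit b then h (c - 2 ^ b) - h c else h c + h (c + 2 ^ b)

/-- The transform of the bits `0, ..., k - 1`. -/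
def wh : ℕ → (ℕ → ℤ) → ℕ → ℤ
  | 0, h => h
  | k + 1, h => st k (wh k h)

/-- The correlation of two functions on the numbers below `2 ^ k`. -/
def cr (k : ℕ) (g h : ℕ → ℤ) (s : ℕ) : ℤ := ∑ c ∈ range (2 ^ k), g c * h (c ^^^ s)

theorem le_of_testBit {b c : ℕ} (h : c.testBit b = true) : 2 ^ b ≤ c := Nat.ge_two_pow_of_testBit h

/-- The transform of the lower bits works on the upper half separately. -/
theorem wh_shift (k m : ℕ) (hk : k ≤ m) (h : ℕ → ℤ) (c : ℕ) :
    wh k h (c + 2 ^ m) = wh k (fun x => h (x + 2 ^ m)) c := by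
  induction k generalizing c with
  | zero => rfl
  | succ k ih =>
    have hkm : k < m := hk
    have h1 : (c + 2 ^ m).testBit k = c.testBit k := testBit_add_low hkm
    simp only [wh, st, h1]
    by_cases hc : c.testBit k = true
    · rw [if_pos hc, if_pos hc, ih hkm.le]
      have h2 : 2 ^ k ≤ c := le_of_testBit hc
      have h3 : c + 2 ^ m - 2 ^ k = (c - 2 ^ k) + 2 ^ m := Nat.sub_add_comm h2
      rw [h3, ih hkm.le]
    · rw [if_neg hc, if_neg hc, ih hkm.le]
      have h3 : c + 2 ^ m + 2 ^ k = (c + 2 ^ k) + 2 ^ m := by omega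
      rw [h3, ih hkm.le]

/-- The transform depends on the values below `2 ^ k` only. -/
theorem wh_congr (k : ℕ) {g h : ℕ → ℤ} (hgh : ∀ c < 2 ^ k, g c = h c) : ∀ c < 2 ^ k, wh k g c = wh k h c := by
  induction k generalizing g h with
  | zero => intro c hc; exact hgh c hc
  | succ k ih =>
    intro c hc
    have h1 : ∀ c < 2 ^ k, wh k g c = wh k h c :=
      ih fun x hx => hgh x (hx.trans (Nat.pow_lt_pow_right (by norm_num) (Nat.lt_succ_self k)))
    have h2 : ∀ c < 2 ^ k, wh k g (c + 2 ^ k) = wh k h (c + 2 ^ k) := by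
      intro x hx
      rw [wh_shift k k le_rfl, wh_shift k k le_rfl]
      exact ih (fun y hy => hgh (y + 2 ^ k) (by rw [pow_succ]; omega)) x hx
    rw [pow_succ] at hc
    simp only [wh, st]
    rcases lt_or_ge c (2 ^ k) with hck | hck
    · rw [Nat.testBit_lt_two_pow hck, if_neg (by simp), if_neg (by simp), h1 c hck, h2 c hck]
    · obtain ⟨x, rfl⟩ := Nat.exists_eq_add_of_le' hck
      have hx : x < 2 ^ k := by omega
      rw [testBit_add_top hx, if_pos rfl, if_pos rfl, h2 x hx, Nat.add_sub_cancel, h1 x hx]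

theorem wh_low {k : ℕ} (h : ℕ → ℤ) {c : ℕ} (hc : c < 2 ^ k) :
    wh (k + 1) h c = wh k h c + wh k (fun x => h (x + 2 ^ k)) c := by
  simp only [wh, st]
  rw [Nat.testBit_lt_two_pow hc, if_neg (by simp), wh_shift k k le_rfl]

theorem wh_high {k : ℕ} (h : ℕ → ℤ) {c : ℕ} (hc : c < 2 ^ k) :
    wh (k + 1) h (c + 2 ^ k) = wh k h c - wh k (fun x => h (x + 2 ^ k)) c := by
  simp only [wh, st]
  rw [testBit_add_top hc, if_pos rfl, Nat.add_sub_cancel, wh_shift k k le_rfl]

theorem wh_add (k : ℕ) (g h : ℕ → ℤ) : wh k (fun x => g x + h x) = fun c => wh k g c + wh k h c := by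
  induction k with
  | zero => rfl
  | succ k ih =>
    funext c
    simp only [wh, st, ih]
    split_ifs <;> ring

theorem wh_sub (k : ℕ) (g h : ℕ → ℤ) : wh k (fun x => g x - h x) = fun c => wh k g c - wh k h c := by
  induction k with
  | zero => rfl
  | succ k ih =>
    funext c
    simp only [wh, st, ih]
    split_ifs <;> ring

theorem wh_sum (k : ℕ) {ι : Type*} (s : Finset ι) (g : ι → ℕ → ℤ) :
    wh k (fun x => ∑ i ∈ s, g i x) = fun c => ∑ i ∈ s, wh k (g i) c := by
  classical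
  induction k with
  | zero => rfl
  | succ k ih =>
    funext c
    simp only [wh, st, ih]
    split_ifs
    · rw [sum_sub_distrib]
    · rw [sum_add_distrib]

theorem wh_zero (k : ℕ) : wh k (fun _ => 0) = fun _ => 0 := by
  induction k with
  | zero => rfl
  | succ k ih =>
    funext c
    simp only [wh, st, ih]
    split_ifs <;> rfl

theorem range_two_pow_succ (k : ℕ) (f : ℕ → ℤ) :
    ∑ c ∈ range (2 ^ (k + 1)), f c = ∑ c ∈ range (2 ^ k), f c + ∑ c ∈ range (2 ^ k), f (c + 2 ^ k) := by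
  rw [pow_succ, mul_two, sum_range_add]
  congr 1
  exact sum_congr rfl fun c _ => by rw [add_comm]

theorem xor_high_low {k c s : ℕ} (hc : c < 2 ^ k) (hs : s < 2 ^ k) : (c + 2 ^ k) ^^^ s = (c ^^^ s) + 2 ^ k := by
  have hcs : c ^^^ s < 2 ^ k := Nat.xor_lt_two_pow hc hs
  apply Nat.eq_of_testBit_eq
  intro i
  rw [Nat.testBit_xor]
  rcases lt_trichotomy i k with hi | rfl | hi
  · rw [testBit_add_low hi, testBit_add_low hi, Nat.testBit_xor]
  · rw [testBit_add_top hc, testBit_add_top hcs, Nat.testBit_lt_two_pow hs]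
    rfl
  · have h1 : 2 ^ k + 2 ^ k ≤ 2 ^ i := by
      calc 2 ^ k + 2 ^ k = 2 ^ (k + 1) := by ring
        _ ≤ 2 ^ i := Nat.pow_le_pow_right (by norm_num) hi
    rw [Nat.testBit_lt_two_pow (by omega : c + 2 ^ k < 2 ^ i), Nat.testBit_lt_two_pow (by omega : s < 2 ^ i),
      Nat.testBit_lt_two_pow (by omega : (c ^^^ s) + 2 ^ k < 2 ^ i)]
    rfl

theorem xor_low_high {k c s : ℕ} (hc : c < 2 ^ k) (hs : s < 2 ^ k) : c ^^^ (s + 2 ^ k) = (c ^^^ s) + 2 ^ k := by
  rw [Nat.xor_comm, xor_high_low hs hc, Nat.xor_comm]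

theorem xor_high_high {k c s : ℕ} (hc : c < 2 ^ k) (hs : s < 2 ^ k) : (c + 2 ^ k) ^^^ (s + 2 ^ k) = c ^^^ s := by
  have h1 : c + 2 ^ k = c ^^^ (0 + 2 ^ k) := by rw [xor_low_high hc (by positivity), Nat.xor_zero]
  have h2 : s + 2 ^ k = s ^^^ (0 + 2 ^ k) := by rw [xor_low_high hs (by positivity), Nat.xor_zero]
  rw [h1, h2, Nat.xor_assoc, Nat.xor_comm (0 + 2 ^ k), Nat.xor_assoc, Nat.xor_self, Nat.xor_zero]

theorem cr_low {k : ℕ} (g h : ℕ → ℤ) {s : ℕ} (hs : s < 2 ^ k) :
    cr (k + 1) g h s = cr k g h s + cr k (fun x => g (x + 2 ^ k)) (fun x => h (x + 2 ^ k)) s := by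
  unfold cr
  rw [range_two_pow_succ]
  congr 1
  exact sum_congr rfl fun c hc => by rw [xor_high_low (mem_range.1 hc) hs]

theorem cr_high {k : ℕ} (g h : ℕ → ℤ) {s : ℕ} (hs : s < 2 ^ k) :
    cr (k + 1) g h (s + 2 ^ k) = cr k g (fun x => h (x + 2 ^ k)) s + cr k (fun x => g (x + 2 ^ k)) h s := by
  unfold cr
  rw [range_two_pow_succ]
  congr 1
  · exact sum_congr rfl fun c hc => by rw [xor_low_high (mem_range.1 hc) hs]
  · exact sum_congr rfl fun c hc => by rw [xor_high_high (mem_range.1 hc) hs]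

theorem cr_add_left (k : ℕ) (g g' h : ℕ → ℤ) (s : ℕ) :
    cr k (fun x => g x + g' x) h s = cr k g h s + cr k g' h s := by
  unfold cr
  rw [← sum_add_distrib]
  exact sum_congr rfl fun c _ => by ring

theorem cr_sub_left (k : ℕ) (g g' h : ℕ → ℤ) (s : ℕ) :
    cr k (fun x => g x - g' x) h s = cr k g h s - cr k g' h s := by
  unfold cr
  rw [← sum_sub_distrib]
  exact sum_congr rfl fun c _ => by ring

theorem cr_add_right (k : ℕ) (g h h' : ℕ → ℤ) (s : ℕ) :
    cr k g (fun x => h x + h' x) s = cr k g h s + cr k g h' s := by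
  unfold cr
  rw [← sum_add_distrib]
  exact sum_congr rfl fun c _ => by ring

theorem cr_sub_right (k : ℕ) (g h h' : ℕ → ℤ) (s : ℕ) :
    cr k g (fun x => h x - h' x) s = cr k g h s - cr k g h' s := by
  unfold cr
  rw [← sum_sub_distrib]
  exact sum_congr rfl fun c _ => by ring

/-- Three transforms give `2 ^ k` times the correlation. -/
theorem wh_cr (k : ℕ) (g h : ℕ → ℤ) : ∀ s < 2 ^ k,
    wh k (fun v => wh k g v * wh k h v) s = 2 ^ k * cr k g h s := by
  induction k generalizing g h with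
  | zero =>
    intro s hs
    have h0 : s = 0 := by simpa using hs
    subst h0
    simp [wh, cr]
  | succ k ih =>
    intro s hs
    set g1 : ℕ → ℤ := fun x => g (x + 2 ^ k) with hg1
    set h1 : ℕ → ℤ := fun x => h (x + 2 ^ k) with hh1
    set F : ℕ → ℤ := fun v => wh (k + 1) g v * wh (k + 1) h v with hF
    have a1 : ∀ c < 2 ^ k, F c = wh k (fun x => g x + g1 x) c * wh k (fun x => h x + h1 x) c := by
      intro c hc
      simp only [hF]
      rw [wh_low g hc, wh_low h hc, wh_add, wh_add]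
    have a2 : ∀ c < 2 ^ k, F (c + 2 ^ k) = wh k (fun x => g x - g1 x) c * wh k (fun x => h x - h1 x) c := by
      intro c hc
      simp only [hF]
      rw [wh_high g hc, wh_high h hc, wh_sub, wh_sub]
    have b1 : ∀ c < 2 ^ k, wh k F c = 2 ^ k * cr k (fun x => g x + g1 x) (fun x => h x + h1 x) c := by
      intro c hc
      rw [← ih _ _ c hc]
      exact wh_congr k a1 c hc
    have b2 : ∀ c < 2 ^ k, wh k (fun x => F (x + 2 ^ k)) c =
        2 ^ k * cr k (fun x => g x - g1 x) (fun x => h x - h1 x) c := by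
      intro c hc
      rw [← ih _ _ c hc]
      exact wh_congr k a2 c hc
    rw [pow_succ] at hs
    rcases lt_or_ge s (2 ^ k) with hsk | hsk
    · rw [wh_low F hsk, b1 s hsk, b2 s hsk, cr_low g h hsk, cr_add_left, cr_add_right, cr_add_right, cr_sub_left,
        cr_sub_right, cr_sub_right]
      ring
    · obtain ⟨x, rfl⟩ := Nat.exists_eq_add_of_le' hsk
      have hx : x < 2 ^ k := by omega
      rw [wh_high F hx, b1 x hx, b2 x hx, cr_high g h hx, cr_add_left, cr_add_right, cr_add_right, cr_sub_left,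
        cr_sub_right, cr_sub_right]
      ring

/-- The size of the transform. -/
theorem wh_abs (k : ℕ) (h : ℕ → ℤ) (B : ℤ) (hB : ∀ c, |h c| ≤ B) : ∀ c, |wh k h c| ≤ 2 ^ k * B := by
  induction k with
  | zero => intro c; simpa [wh] using hB c
  | succ k ih =>
    intro c
    simp only [wh, st]
    have e : (2 : ℤ) ^ (k + 1) * B = 2 ^ k * B + 2 ^ k * B := by ring
    rw [e]
    split_ifs
    · exact (abs_sub _ _).trans (add_le_add (ih _) (ih _))
    · exact (abs_add_le _ _).trans (add_le_add (ih _) (ih _))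

/-- The sum of the correlation over all shifts. -/
theorem cr_sum (k : ℕ) (g h : ℕ → ℤ) :
    ∑ s ∈ range (2 ^ k), cr k g h s = (∑ c ∈ range (2 ^ k), g c) * ∑ c ∈ range (2 ^ k), h c := by
  unfold cr
  rw [sum_comm, sum_mul]
  refine sum_congr rfl fun c hc => ?_
  rw [← mul_sum]
  congr 1
  have hc' := mem_range.1 hc
  refine sum_nbij' (fun s => c ^^^ s) (fun s => c ^^^ s) ?_ ?_ ?_ ?_ ?_
  · intro s hs
    exact mem_range.2 (Nat.xor_lt_two_pow hc' (mem_range.1 hs))
  · intro s hs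
    exact mem_range.2 (Nat.xor_lt_two_pow hc' (mem_range.1 hs))
  · intro s _
    rw [← Nat.xor_assoc, Nat.xor_self, Nat.zero_xor]
  · intro s _
    rw [← Nat.xor_assoc, Nat.xor_self, Nat.zero_xor]
  · intro s _
    rfl

theorem cr_zero (k : ℕ) (g h : ℕ → ℤ) : cr k g h 0 = ∑ c ∈ range (2 ^ k), g c * h c := by
  unfold cr
  exact sum_congr rfl fun c _ => by rw [Nat.xor_zero]

/-- A digit `0` can be changed to `1`. -/
theorem add_lt_of_bit {k m x : ℕ} (hx : x < 2 ^ k) (hm : m < k) (hb : bit x m = 0) : x + 2 ^ m < 2 ^ k := by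
  unfold bit at hb
  obtain ⟨d, rfl⟩ : ∃ d, k = m + 1 + d := ⟨k - m - 1, by omega⟩
  have h1 : x / 2 ^ m < 2 * 2 ^ d := by
    rw [Nat.div_lt_iff_lt_mul (Nat.two_pow_pos m)]
    calc x < 2 ^ (m + 1 + d) := hx
      _ = 2 * 2 ^ d * 2 ^ m := by ring
  have h2 : x / 2 ^ m + 1 < 2 * 2 ^ d := by omega
  have h3 : (x + 2 ^ m) / 2 ^ m < 2 * 2 ^ d := by
    rw [Nat.add_div_right _ (Nat.two_pow_pos m)]
    exact h2
  rw [Nat.div_lt_iff_lt_mul (Nat.two_pow_pos m)] at h3
  calc x + 2 ^ m < 2 * 2 ^ d * 2 ^ m := h3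
    _ = 2 ^ (m + 1 + d) := by ring

/-- The passes of the transform of a list. -/
theorem gt_itr (k m : ℕ) (hm : m ≤ k) (h : List ℤ) : ∀ x < 2 ^ k,
    gt (itr (fun j z => wst k j z) h m) x = wh m (gt h) x := by
  induction m with
  | zero => intro x _; rfl
  | succ m ih =>
    intro x hx
    have hmk : m < k := hm
    have e : itr (fun j z => wst k j z) h (m + 1) = wst k m (itr (fun j z => wst k j z) h m) := rfl
    rw [e]
    set L := itr (fun j z => wst k j z) h m with hL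
    unfold wst
    rw [gt_tb_if, if_pos hx]
    simp only [wh, st]
    by_cases hb : x.testBit m = true
    · have h0 : ¬ bit x m = 0 := by rw [bit_testBit, hb]; simp
      rw [if_neg h0, if_pos hb, ih hmk.le x hx, ih hmk.le (x - 2 ^ m) ((Nat.sub_le _ _).trans_lt hx)]
    · have h0 : bit x m = 0 := by rw [bit_testBit, if_neg hb]
      rw [if_pos h0, if_neg hb, ih hmk.le x hx, ih hmk.le (x + 2 ^ m) (add_lt_of_bit hx hmk h0)]

theorem gt_wht (k : ℕ) (h : List ℤ) {x : ℕ} (hx : x < 2 ^ k) : gt (wht k h) x = wh k (gt h) x :=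
  gt_itr k k le_rfl h x hx

/-- `cor` is `2 ^ k` times the correlation. -/
theorem cor_eq (k : ℕ) (F G : List ℤ) {v : ℕ} (hv : v < 2 ^ k) :
    gt (cor k F G) v = 2 ^ k * ∑ c ∈ range (2 ^ k), gt F c * gt G (xr k c v) := by
  unfold cor
  rw [gt_wht k _ hv]
  have h1 : wh k (gt (tb (2 ^ k) fun x => gt (wht k F) x * gt (wht k G) x)) v =
      wh k (fun u => wh k (gt F) u * wh k (gt G) u) v := by
    refine wh_congr k (fun c hc => ?_) v hv
    rw [gt_tb_if, if_pos hc, gt_wht k F hc, gt_wht k G hc]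
  rw [h1, wh_cr k _ _ v hv]
  unfold cr
  congr 1
  exact sum_congr rfl fun c hc => by rw [xr_eq_xor (mem_range.1 hc) hv]

/-- The sum of the correlation over all shifts. -/
theorem cor_sum (k : ℕ) (F G : ℕ → ℤ) :
    ∑ s ∈ range (2 ^ k), ∑ c ∈ range (2 ^ k), F c * G (xr k c s) =
      (∑ c ∈ range (2 ^ k), F c) * ∑ c ∈ range (2 ^ k), G c := by
  rw [← cr_sum]
  unfold cr
  refine sum_congr rfl fun s hs => sum_congr rfl fun c hc => ?_
  rw [xr_eq_xor (mem_range.1 hc) (mem_range.1 hs)]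

end Pool.Agent.MPa9445a.DB
end

section

/-! The shifts: one step (Lemma 2 of the paper). -/

set_option autoImplicit false

open Finset

namespace Pool.Agent.MPa9445a.DB

open Pool.Agent.MPa9445a.BE (gt bit tb flt lin Phi vec code argmax matMul)
open Pool.Agent.MPa9445a.GD (itr fm)

variable (N q : ℕ) (y : List ℤ)

theorem bp_sq (p s : ℕ) : bp N y p s ^ 2 = if gt y s = 0 then 0 else 1 := by
  unfold bp
  split_ifs
  · norm_num
  · rcases bit_01 (gt y s - 1).toNat (p / N) with h | h <;>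
      rcases bit_01 (gt y s - 1).toNat (p % N) with h' | h' <;> rw [h, h'] <;> norm_num

theorem bp_sq_le (p s : ℕ) : bp N y p s ^ 2 ≤ 1 := by
  rw [bp_sq]
  split_ifs
  · exact zero_le_one
  · exact le_rfl

theorem bb_sum (p : ℕ) : ∑ s ∈ range (2 ^ q), bb N q y p s = 0 := by
  unfold bb
  rw [sum_sub_distrib, ← mul_sum, sum_const, card_range]
  unfold sp
  simp

/-- PROOF. `∑ (2 ^ q b - S) ^ 2 = 4 ^ q ∑ b ^ 2 - 2 ^ q S ^ 2` with `S = ∑ b`. -/
theorem bb_sq (p : ℕ) : ∑ s ∈ range (2 ^ q), bb N q y p s ^ 2 ≤ 2 ^ q * (2 ^ q) ^ 2 := by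
  have h1 : ∀ s, bb N q y p s ^ 2 = (2 ^ q) ^ 2 * bp N y p s ^ 2 - 2 * 2 ^ q * sp N q y p * bp N y p s +
      sp N q y p ^ 2 := by
    intro s
    unfold bb
    ring
  have h2 : ∑ s ∈ range (2 ^ q), bp N y p s = sp N q y p := rfl
  rw [sum_congr rfl fun s _ => h1 s, sum_add_distrib, sum_sub_distrib, ← mul_sum, ← mul_sum, h2, sum_const,
    card_range]
  have h3 : ∑ s ∈ range (2 ^ q), bp N y p s ^ 2 ≤ 2 ^ q := by
    calc ∑ s ∈ range (2 ^ q), bp N y p s ^ 2 ≤ ∑ _s ∈ range (2 ^ q), (1 : ℤ) :=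
          sum_le_sum fun s _ => bp_sq_le N y p s
      _ = 2 ^ q := by simp
  have h4 : (0 : ℤ) ≤ 2 ^ q * sp N q y p ^ 2 := mul_nonneg (by positivity) (sq_nonneg _)
  have h6 : ((2 : ℤ) ^ q) ^ 2 * ∑ s ∈ range (2 ^ q), bp N y p s ^ 2 ≤ (2 ^ q) ^ 2 * 2 ^ q :=
    mul_le_mul_of_nonneg_left h3 (sq_nonneg _)
  have h7 : (2 ^ q : ℕ) • sp N q y p ^ 2 = 2 ^ q * sp N q y p ^ 2 := by
    rw [nsmul_eq_mul]
    push_cast
    rfl
  rw [h7]
  have h8 : 2 * (2 : ℤ) ^ q * sp N q y p * sp N q y p = 2 * (2 ^ q * sp N q y p ^ 2) := by ring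
  have h9 : ((2 : ℤ) ^ q) ^ 2 * 2 ^ q = 2 ^ q * (2 ^ q) ^ 2 := by ring
  rw [h8]
  rw [h9] at h6
  linarith

variable (R : ℕ) (sh : List ℤ)

/-- PROOF. Induction over the passes of `cs`, `cor_eq`. -/
theorem cs_eq (j i : ℕ) {s : ℕ} (hs : s < 2 ^ q) : gt (cs N q y R sh j i) s =
    2 ^ q * ∑ c ∈ range (2 ^ q), if bad N q y R sh j c then
      ∑ p ∈ range (N * N), (2 * Cs N q y R sh j i p c * bb N q y p (xr q c s) +
        bb N q y p (xr q c s) ^ 2) else 0 := by
  have h : ∀ m : ℕ, gt (itr (fun p z => tb (2 ^ q) fun s =>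
      gt z s + 2 * gt (cor q (cF N q y R sh j i p) (tb (2 ^ q) fun c => bb N q y p c)) s)
    (cor q (tb (2 ^ q) fun c => if bad N q y R sh j c then 1 else 0)
      (tb (2 ^ q) fun c => ∑ p ∈ range (N * N), bb N q y p c ^ 2)) m) s =
      2 ^ q * ∑ c ∈ range (2 ^ q), if bad N q y R sh j c then
        (∑ p ∈ range (N * N), bb N q y p (xr q c s) ^ 2 +
          ∑ p ∈ range m, 2 * (Cs N q y R sh j i p c * bb N q y p (xr q c s))) else 0 := by
    intro m
    induction m with
    | zero =>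
      show gt (cor q _ _) s = _
      rw [cor_eq q _ _ hs]
      congr 1
      refine sum_congr rfl fun c hc => ?_
      rw [gt_tb_if, if_pos (mem_range.1 hc), gt_tb_if, if_pos (xr_lt q c s)]
      split_ifs
      · rw [one_mul, sum_range_zero, add_zero]
      · rw [zero_mul]
    | succ m ih =>
      show gt (tb (2 ^ q) fun s => gt (itr _ _ m) s +
        2 * gt (cor q (cF N q y R sh j i m) (tb (2 ^ q) fun c => bb N q y m c)) s) s = _
      rw [gt_tb_if, if_pos hs, ih, cor_eq q _ _ hs]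
      have e : ∀ a b : ℤ, 2 ^ q * a + 2 * (2 ^ q * b) = 2 ^ q * (a + 2 * b) := by
        intro a b
        ring
      rw [e, mul_sum, ← sum_add_distrib]
      congr 1
      refine sum_congr rfl fun c hc => ?_
      unfold cF
      rw [gt_tb_if, if_pos (mem_range.1 hc), gt_tb_if, if_pos (xr_lt q c s), sum_range_succ]
      by_cases hb : bad N q y R sh j c
      · rw [if_pos hb, if_pos hb, if_pos hb, add_assoc]
      · rw [if_neg hb, if_neg hb, if_neg hb, zero_mul, mul_zero, add_zero]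
  unfold cs
  rw [h]
  congr 1
  refine sum_congr rfl fun c _ => ?_
  by_cases hb : bad N q y R sh j c
  · rw [if_pos hb, if_pos hb, ← sum_add_distrib]
    refine sum_congr rfl fun p _ => ?_
    ring
  · rw [if_neg hb, if_neg hb]

/-- The sum over the bad classes. -/
def Tb (j i : ℕ) : ℤ := ∑ c ∈ range (2 ^ q), if bad N q y R sh j c then
  ∑ p ∈ range (N * N), Cs N q y R sh j i p c ^ 2 else 0

/-- The number of the bad classes. -/
def nb (j : ℕ) : ℕ := ((range (2 ^ q)).filter fun c => bad N q y R sh j c).card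

private theorem new_eq (j i s : ℕ) :
    (∑ c ∈ range (2 ^ q), if bad N q y R sh j c then
      ∑ p ∈ range (N * N), (Cs N q y R sh j i p c + bb N q y p (xr q c s)) ^ 2 else 0) =
      Tb N q y R sh j i + ∑ c ∈ range (2 ^ q), if bad N q y R sh j c then
      ∑ p ∈ range (N * N), (2 * Cs N q y R sh j i p c * bb N q y p (xr q c s) +
        bb N q y p (xr q c s) ^ 2) else 0 := by
  unfold Tb
  rw [← sum_add_distrib]
  refine sum_congr rfl fun c _ => ?_
  by_cases hb : bad N q y R sh j c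
  · rw [if_pos hb, if_pos hb, if_pos hb, ← sum_add_distrib]
    refine sum_congr rfl fun p _ => ?_
    ring
  · rw [if_neg hb, if_neg hb, if_neg hb, add_zero]

private theorem sum_bb_xr (p c : ℕ) : ∑ s ∈ range (2 ^ q), bb N q y p (xr q c s) = 0 := by
  rw [← bb_sum N q y p, ← sum_xr q c (fun s => bb N q y p s)]
  exact sum_congr rfl fun s _ => by rw [xr_comm]

private theorem sum_bb_sq_xr (p c : ℕ) :
    ∑ s ∈ range (2 ^ q), bb N q y p (xr q c s) ^ 2 ≤ 2 ^ q * (2 ^ q) ^ 2 := by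
  refine le_trans (le_of_eq ?_) (bb_sq N q y p)
  rw [← sum_xr q c (fun s => bb N q y p s ^ 2)]
  exact sum_congr rfl fun s _ => by rw [xr_comm]

private theorem sum_step (j i c : ℕ) : ∑ s ∈ range (2 ^ q), ∑ p ∈ range (N * N),
    (2 * Cs N q y R sh j i p c * bb N q y p (xr q c s) + bb N q y p (xr q c s) ^ 2) ≤
      (2 ^ q * (2 ^ q * N) ^ 2 : ℤ) := by
  rw [sum_comm]
  have h2 : ∀ p ∈ range (N * N), ∑ s ∈ range (2 ^ q),
      (2 * Cs N q y R sh j i p c * bb N q y p (xr q c s) + bb N q y p (xr q c s) ^ 2) ≤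
      (2 ^ q * (2 ^ q) ^ 2 : ℤ) := by
    intro p _
    rw [sum_add_distrib, ← mul_sum, sum_bb_xr, mul_zero, zero_add]
    exact sum_bb_sq_xr N q y p c
  refine (sum_le_sum h2).trans (le_of_eq ?_)
  rw [sum_const, card_range, nsmul_eq_mul]
  push_cast
  ring

private theorem sum_all (j i : ℕ) : (∑ s ∈ range (2 ^ q), ∑ c ∈ range (2 ^ q),
    if bad N q y R sh j c then ∑ p ∈ range (N * N), (2 * Cs N q y R sh j i p c * bb N q y p (xr q c s) +
        bb N q y p (xr q c s) ^ 2) else 0) ≤ (2 ^ q * (nb N q y R sh j * (2 ^ q * N) ^ 2) : ℤ) := by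
  rw [sum_comm]
  have h1 : ∀ c ∈ range (2 ^ q), (∑ s ∈ range (2 ^ q),
      if bad N q y R sh j c then ∑ p ∈ range (N * N), (2 * Cs N q y R sh j i p c * bb N q y p (xr q c s) +
        bb N q y p (xr q c s) ^ 2) else 0) ≤
      if bad N q y R sh j c then (2 ^ q * (2 ^ q * N) ^ 2 : ℤ) else 0 := by
    intro c _
    by_cases hb : bad N q y R sh j c
    · simp only [if_pos hb]
      exact sum_step N q y R sh j i c
    · simp only [if_neg hb, sum_const_zero, le_refl]
  refine (sum_le_sum h1).trans (le_of_eq ?_)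
  rw [← sum_filter, sum_const, nsmul_eq_mul]
  unfold nb
  ring

/-- The average over all shifts. PROOF. Expand the square; the sum over `s` of `bb … (xr q c s)` is `0` and the sum of the squares is at
most `2 ^ q * (2 ^ q) ^ 2` (`sum_xr`, `bb_sum`, `bb_sq`), for every `c` and every `p < N * N`. -/
theorem exists_shift (j i : ℕ) : ∃ s < 2 ^ q,
    (∑ c ∈ range (2 ^ q), if bad N q y R sh j c then
      ∑ p ∈ range (N * N), (Cs N q y R sh j i p c + bb N q y p (xr q c s)) ^ 2 else 0) ≤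
      Tb N q y R sh j i + nb N q y R sh j * (2 ^ q * N) ^ 2 := by
  by_contra hne
  push Not at hne
  have hpos : 0 < 2 ^ q := Nat.two_pow_pos q
  have h1 : ∑ _s ∈ range (2 ^ q), ((nb N q y R sh j : ℤ) * (2 ^ q * N) ^ 2) <
      ∑ s ∈ range (2 ^ q), ∑ c ∈ range (2 ^ q), if bad N q y R sh j c then
      ∑ p ∈ range (N * N), (2 * Cs N q y R sh j i p c * bb N q y p (xr q c s) +
        bb N q y p (xr q c s) ^ 2) else 0 := by
    refine sum_lt_sum_of_nonempty ⟨0, mem_range.2 hpos⟩ fun s hs => ?_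
    have h2 := hne s (mem_range.1 hs)
    rw [new_eq] at h2
    linarith
  have h3 := h1.trans_le (sum_all N q y R sh j i)
  rw [sum_const, card_range, nsmul_eq_mul] at h3
  push_cast at h3
  exact lt_irrefl _ h3

/-- The chosen shift. PROOF. `cs_eq`, `argmax` is a maximum, `exists_shift`. -/
theorem ns_spec (j i : ℕ) : ns N q y R sh j i < 2 ^ q ∧
    (∑ c ∈ range (2 ^ q), if bad N q y R sh j c then
      ∑ p ∈ range (N * N), (Cs N q y R sh j i p c + bb N q y p (xr q c (ns N q y R sh j i))) ^ 2 else 0) ≤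
      Tb N q y R sh j i + nb N q y R sh j * (2 ^ q * N) ^ 2 := by
  have hpos : 0 < 2 ^ q := Nat.two_pow_pos q
  have hns : ns N q y R sh j i < 2 ^ q := argmax_lt hpos _
  refine ⟨hns, ?_⟩
  obtain ⟨s, hs, h1⟩ := exists_shift N q y R sh j i
  have h2 := le_argmax (k := 2 ^ q) (fun s => -gt (cs N q y R sh j i) s.toNat) hs
  simp only [Int.toNat_natCast] at h2
  have h3 : gt (cs N q y R sh j i) (ns N q y R sh j i) ≤ gt (cs N q y R sh j i) s := by
    unfold ns
    linarith
  rw [cs_eq N q y R sh j i hns, cs_eq N q y R sh j i hs] at h3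
  have h4 := le_of_mul_le_mul_left h3 (show (0 : ℤ) < 2 ^ q by positivity)
  rw [new_eq] at h1 ⊢
  linarith

end Pool.Agent.MPa9445a.DB
end
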