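import Pool.Agent.Lib.MP_a9445a_lc.Mg.G140
import Pool.Agent.Lib.MP_a9445a_lc.Mg.G139
import Pool.Agent.Lib.MP_a9445a_lc.Mg.G137

section

section

/-! Programs: the shifts. -/

set_option autoImplicit false
set_option linter.unusedVariables false

open Finset

namespace Pool.Agent.MPa9445a.DB

open Pool.Agent.MPa9445a.BE (Ty Env vs one Bd NL DL tb flt gt bit Phi vec code lin argmax matMul
  Bd.const Bd.add Bd.mul Bd.le Bd.up Bd.var Bd.self)
open Pool.Agent.MPa9445a.GD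

/-- The table of the sums. -/
def spT (n q : ℕ) (y : List ℤ) : List ℤ := tb (n * n) fun p => sp n q y p

theorem gt_spT {n q p : ℕ} (y : List ℤ) (hp : p < n * n) : gt (spT n q y) p = sp n q y p := by
  show (tb (n * n) fun p => sp n q y p).getD p 0 = _
  rw [BE.getD_tb, if_pos hp]

theorem length_wht_tb (k : ℕ) (f : ℕ → ℤ) : (wht k (tb (2 ^ k) f)).length = 2 ^ k := by
  unfold wht
  have h : ∀ j, (itr (fun j z => wst k j z) (tb (2 ^ k) f) j).length = 2 ^ k := by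
    intro j
    cases j with
    | zero => exact BE.length_tb _ _
    | succ j => exact BE.length_tb _ _
  exact h k

theorem length_cor (k : ℕ) (F G : List ℤ) : (cor k F G).length = 2 ^ k :=
  length_wht_tb _ _

/-- The correlations for all entries. -/
def corT (n q : ℕ) (y : List ℤ) (R : ℕ) (sh : List ℤ) (j i : ℕ) : List ℤ :=
  fm (n * n) fun p => cor q (cF n q y R sh j i p) (tb (2 ^ q) fun c => bb n q y p c)

theorem gt_fm {k m : ℕ} {f : ℕ → List ℤ} (h : ∀ i, (f i).length = m) {p s : ℕ} (hp : p < k)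
    (hs : s < m) : gt (fm k f) (p * m + s) = gt (f p) s := by
  have hl : ∀ k, (fm k f).length = k * m := by
    intro k
    rw [length_fm, Finset.sum_congr rfl fun i _ => h i, Finset.sum_const, Finset.card_range,
      smul_eq_mul]
  induction k with
  | zero => omega
  | succ k ih =>
    rw [fm_succ]
    by_cases hpk : p < k
    · have h1 : p * m + s < (fm k f).length := by
        rw [hl]
        have : (p + 1) * m ≤ k * m := Nat.mul_le_mul_right _ hpk
        have h2 : (p + 1) * m = p * m + m := by ring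
        omega
      rw [gt, List.getD_append _ _ _ _ h1]
      exact ih hpk
    · have hpk' : p = k := by omega
      subst hpk'
      rw [gt, List.getD_append_right _ _ _ _ (by rw [hl]; omega), hl]
      congr 1
      omega

theorem gt_cs {n q : ℕ} (y : List ℤ) (R : ℕ) (sh : List ℤ) (j i : ℕ) {s : ℕ} (hs : s < 2 ^ q) :
    gt (cs n q y R sh j i) s =
      gt (cor q (tb (2 ^ q) fun c => if bad n q y R sh j c then 1 else 0)
        (tb (2 ^ q) fun c => ∑ p ∈ range (n * n), bb n q y p c ^ 2)) s +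
      ∑ p ∈ range (n * n), 2 * gt (corT n q y R sh j i) (p * 2 ^ q + s) := by
  have h1 : ∀ p ∈ range (n * n), 2 * gt (corT n q y R sh j i) (p * 2 ^ q + s) =
      2 * gt (cor q (cF n q y R sh j i p) (tb (2 ^ q) fun c => bb n q y p c)) s := by
    intro p hp
    unfold corT
    rw [gt_fm (m := 2 ^ q) (fun i => length_cor _ _ _) (Finset.mem_range.1 hp) hs]
  rw [Finset.sum_congr rfl h1]
  unfold cs
  generalize cor q (tb (2 ^ q) fun c => if bad n q y R sh j c then 1 else 0)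
    (tb (2 ^ q) fun c => ∑ p ∈ range (n * n), bb n q y p c ^ 2) = Z
  generalize n * n = K
  induction K with
  | zero => simp [itr]
  | succ K ih =>
    rw [Finset.sum_range_succ, ← add_assoc, ← ih]
    show gt (tb (2 ^ q) _) s = _
    show (tb (2 ^ q) _).getD s 0 = _
    rw [BE.getD_tb, if_pos hs]

theorem length_sl (n q : ℕ) (y : List ℤ) (R x : ℕ) : (sl n q y R x).length = x := by
  induction x with
  | zero => rfl
  | succ x ih =>
    show (sl n q y R x ++ [(ns n q y R (sl n q y R x) (x / R) (x % R) : ℤ)]).length = _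
    rw [List.length_append, ih, List.length_singleton]

theorem asz_sl (n q : ℕ) (y : List ℤ) (R x : ℕ) : BE.asz (sl n q y R x) ≤ q + 1 := by
  induction x with
  | zero => exact Nat.zero_le _
  | succ x ih =>
    show BE.asz (sl n q y R x ++ [(ns n q y R (sl n q y R x) (x / R) (x % R) : ℤ)]) ≤ _
    refine (asz_app _ _).trans (max_le ih ?_)
    rw [asz_single]
    unfold BE.sz
    rw [Int.natAbs_natCast, Nat.size_le]
    unfold ns
    refine (argmax_le _ _).trans_lt ?_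
    exact Nat.pow_lt_pow_right (by norm_num) (by omega)

theorem sl_succ (n q : ℕ) (y : List ℤ) (R x : ℕ) : sl n q y R (x + 1) =
    sl n q y R x ++ [(ns n q y R (sl n q y R x) (x / R) (x % R) : ℤ)] := rfl

variable {A : Type} {N : A → ℕ} {D : A → Prop} {Γ : List Ty} {ρ : A → Env Γ} {W : ℝ → A → ℝ}

/-- The entries of the matrices. -/
theorem c_bp {n p s : A → ℕ} {y : A → List ℤ} (hn : PN N D ρ n) (hp : PN N D ρ p) (bp : Bd N D p)
    (hs : PN N D ρ s) (hy : PA N D ρ y) (bn : Bd N D n) :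
    PI N D ρ (fun a => DB.bp (n a) (y a) (p a) (s a)) := by
  have hg := PI.get hy hs
  have hc := PN.toNat (PI.sub hg (PI.const 1))
  have b1 : Bd N D (fun a => p a / n a) := Bd.le bp fun a _ => Nat.div_le_self _ _
  have b2 : Bd N D (fun a => p a % n a) := Bd.le bp fun a _ => Nat.mod_le _ _
  exact Cp.ite (PB.eq hg (PI.const 0)) (PI.const 0)
    (PI.mul (PI.sub (PI.mul (PI.const 2) (PN.bit hc (PN.div hp hn) b1)) (PI.const 1))
      (PI.sub (PI.mul (PI.const 2) (PN.bit hc (PN.mod hp hn) b2)) (PI.const 1)))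

theorem c_spT {n q : A → ℕ} {y : A → List ℤ} (hn : PN N D ρ n) (bn : Bd N D n) (hq : PN N D ρ q)
    (bq : Bd N D q) (hW : Wg D (fun a => 2 ^ q a) W) (hy : PA N D ρ y) :
    Cp N D ρ W .arr (fun a => spT (n a) (q a) (y a)) := by
  refine tabQ (f := fun a p => sp (n a) (q a) (y a) p) (PN.mul hn hn) (bn.mul bn) hW.one ?_
  intro Γ1 ρ1 up hp
  refine sumP (k := fun p : A × ℕ => 2 ^ q p.1)
    (f := fun p i => DB.bp (n p.1) (y p.1) p.2 i) (PN.pow2 (up.n hq) (bq.up _)) (hW.up _) ?_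
  intro Γ2 ρ2 up2 hs
  exact c_bp (up2.n (up.n hn)) (up2.n hp) ((Bd.var (bn.mul bn)).up _) hs (up2.a (up.a hy))
    ((bn.up _).up _)

theorem c_bb {n q p s : A → ℕ} {y : A → List ℤ} (hn : PN N D ρ n) (bn : Bd N D n)
    (hq : PN N D ρ q) (bq : Bd N D q) (hy : PA N D ρ y)
    (hT : PA N D ρ (fun a => spT (n a) (q a) (y a))) (hp : PN N D ρ p)
    (hpn : ∀ a, D a → p a < n a * n a) (hs : PN N D ρ s) :
    PI N D ρ (fun a => bb (n a) (q a) (y a) (p a) (s a)) := by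
  have bp : Bd N D p := (bn.mul bn).le fun a ha => (hpn a ha).le
  refine (PI.sub (PI.mul (PN.pow2 hq bq) (c_bp hn hp bp hs hy bn)) (PI.get hT hp)).congr
    fun a ha => ?_
  have h := gt_spT (q := q a) (y a) (hpn a ha)
  change ((2 ^ q a : ℕ) : ℤ) * _ - gt (spT (n a) (q a) (y a)) (p a) = _
  rw [h]
  push_cast
  rfl

theorem c_Cs {n q p c R j i : A → ℕ} {y sh : A → List ℤ} (hn : PN N D ρ n) (bn : Bd N D n)
    (hq : PN N D ρ q) (bq : Bd N D q) (hy : PA N D ρ y)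
    (hT : PA N D ρ (fun a => spT (n a) (q a) (y a))) (hp : PN N D ρ p)
    (hpn : ∀ a, D a → p a < n a * n a) (hc : PN N D ρ c) (hR : PN N D ρ R) (hsh : PA N D ρ sh)
    (hj : PN N D ρ j) (hi : PN N D ρ i) (bi : Bd N D i) :
    PI N D ρ (fun a => Cs (n a) (q a) (y a) (R a) (sh a) (j a) (i a) (p a) (c a)) := by
  refine PI.sum hi bi fun Γ1 ρ1 up hl => ?_
  exact c_bb (n := fun z : A × ℕ => n z.1) (q := fun z => q z.1) (y := fun z => y z.1)
    (p := fun z => p z.1)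
    (s := fun z => xr (q z.1) (c z.1) (gt (sh z.1) (j z.1 * R z.1 + z.2)).toNat)
    (up.n hn) (bn.up _) (up.n hq) (bq.up _) (up.a hy) (up.a hT) (up.n hp)
    (fun z hz => hpn z.1 hz.1)
    (c_xr (up.n hq) (bq.up _) (up.n hc)
      (PN.toNat (PI.get (up.a hsh) (PN.add (PN.mul (up.n hj) (up.n hR)) hl))))

theorem c_nr {n q c R j : A → ℕ} {y sh : A → List ℤ} (hn : PN N D ρ n) (bn : Bd N D n)
    (hq : PN N D ρ q) (bq : Bd N D q) (hy : PA N D ρ y)
    (hT : PA N D ρ (fun a => spT (n a) (q a) (y a))) (hc : PN N D ρ c) (hR : PN N D ρ R)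
    (bR : Bd N D R) (hsh : PA N D ρ sh) (hj : PN N D ρ j) :
    PI N D ρ (fun a => nr (n a) (q a) (y a) (R a) (sh a) (j a) (c a)) := by
  refine PI.sum (PN.mul hn hn) (bn.mul bn) fun Γ1 ρ1 up hp => ?_
  exact PI.pow (c_Cs (n := fun z : A × ℕ => n z.1) (q := fun z => q z.1) (y := fun z => y z.1)
    (p := fun z => z.2) (c := fun z => c z.1) (R := fun z => R z.1) (j := fun z => j z.1)
    (i := fun z => R z.1) (sh := fun z => sh z.1)
    (up.n hn) (bn.up _) (up.n hq) (bq.up _) (up.a hy) (up.a hT) hp (fun z hz => hz.2)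
    (up.n hc) (up.n hR) (up.a hsh) (up.n hj) (up.n hR) (bR.up _)) 2

theorem c_bad {n q c R j : A → ℕ} {y sh : A → List ℤ} (hn : PN N D ρ n) (bn : Bd N D n)
    (hq : PN N D ρ q) (bq : Bd N D q) (hy : PA N D ρ y)
    (hT : PA N D ρ (fun a => spT (n a) (q a) (y a))) (hc : PN N D ρ c) (hR : PN N D ρ R)
    (bR : Bd N D R) (hsh : PA N D ρ sh) (hj : PN N D ρ j) (bj : Bd N D j) :
    PB N D ρ (fun a => bad (n a) (q a) (y a) (R a) (sh a) (j a) (c a)) := by
  have h1 : PA N D ρ (fun a => flt (j a) fun j' =>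
      nr (n a) (q a) (y a) (R a) (sh a) j' (c a) ≤ 2 * R a * (2 ^ q a * n a) ^ 2) := by
    refine PA.filter hj bj fun Γ1 ρ1 up hj' => ?_
    have h2 := c_nr (n := fun z : A × ℕ => n z.1) (q := fun z => q z.1) (y := fun z => y z.1)
      (c := fun z => c z.1) (R := fun z => R z.1) (j := fun z => z.2) (sh := fun z => sh z.1)
      (up.n hn) (bn.up _) (up.n hq) (bq.up _) (up.a hy) (up.a hT) (up.n hc) (up.n hR) (bR.up _)
      (up.a hsh) hj'
    have h3 : PI (NL N) (DL D j) ρ1 (fun z => 2 * (R z.1 : ℤ) * (2 ^ q z.1 * (n z.1 : ℤ)) ^ 2) := by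
      refine (PI.mul (PI.mul (PI.const 2) (up.n hR)) (PI.pow (PI.mul
        (PN.pow2 (up.n hq) (bq.up _)) (up.n hn)) 2)).congr fun z _ => ?_
      push_cast
      rfl
    exact PB.le h2 h3
  exact PB.eqN (PN.len h1) (PN.const 0)

theorem c_cF {n q p R j i : A → ℕ} {y sh : A → List ℤ} (hn : PN N D ρ n) (bn : Bd N D n)
    (hq : PN N D ρ q) (bq : Bd N D q) (hW : Wg D (fun a => 2 ^ q a) W) (hy : PA N D ρ y)
    (hT : PA N D ρ (fun a => spT (n a) (q a) (y a))) (hp : PN N D ρ p)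
    (hpn : ∀ a, D a → p a < n a * n a) (hR : PN N D ρ R) (bR : Bd N D R) (hsh : PA N D ρ sh)
    (hj : PN N D ρ j) (bj : Bd N D j) (hi : PN N D ρ i) (bi : Bd N D i) :
    Cp N D ρ W .arr (fun a => cF (n a) (q a) (y a) (R a) (sh a) (j a) (i a) (p a)) := by
  refine tabP (PN.pow2 hq bq) hW fun Γ1 ρ1 up hc => ?_
  refine Cp.ite ?_ ?_ (PI.const 0)
  · exact c_bad (n := fun z : A × ℕ => n z.1) (q := fun z => q z.1) (y := fun z => y z.1)
      (c := fun z => z.2) (R := fun z => R z.1) (j := fun z => j z.1) (sh := fun z => sh z.1)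
      (up.n hn) (bn.up _) (up.n hq) (bq.up _) (up.a hy) (up.a hT) hc (up.n hR) (bR.up _)
      (up.a hsh) (up.n hj) (bj.up _)
  · exact c_Cs (n := fun z : A × ℕ => n z.1) (q := fun z => q z.1) (y := fun z => y z.1)
      (p := fun z => p z.1) (c := fun z => z.2) (R := fun z => R z.1) (j := fun z => j z.1)
      (i := fun z => i z.1) (sh := fun z => sh z.1)
      (up.n hn) (bn.up _) (up.n hq) (bq.up _) (up.a hy) (up.a hT) (up.n hp)
      (fun z hz => hpn z.1 hz.1) hc (up.n hR) (up.a hsh) (up.n hj) (up.n hi) (bi.up _)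

theorem c_corT {n q R j i : A → ℕ} {y sh : A → List ℤ} (hn : PN N D ρ n) (bn : Bd N D n)
    (hq : PN N D ρ q) (bq : Bd N D q) (hW : Wg D (fun a => 2 ^ q a) W) (hy : PA N D ρ y)
    (hT : PA N D ρ (fun a => spT (n a) (q a) (y a))) (hR : PN N D ρ R) (bR : Bd N D R)
    (hsh : PA N D ρ sh) (hj : PN N D ρ j) (bj : Bd N D j) (hi : PN N D ρ i) (bi : Bd N D i) :
    Cp N D ρ W .arr (fun a => corT (n a) (q a) (y a) (R a) (sh a) (j a) (i a)) := by
  refine catQ (PN.mul hn hn) (bn.mul bn) hW.one ?_ ?_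
  · intro Γ1 ρ1 up hp
    have h1 : Cp (NL N) (DL D fun a => n a * n a) ρ1 (fun τ z => W τ z.1) .arr
        (fun z => cF (n z.1) (q z.1) (y z.1) (R z.1) (sh z.1) (j z.1) (i z.1) z.2) :=
      c_cF (n := fun z : A × ℕ => n z.1) (q := fun z => q z.1) (y := fun z => y z.1)
        (p := fun z => z.2) (R := fun z => R z.1) (j := fun z => j z.1)
        (i := fun z => i z.1) (sh := fun z => sh z.1)
        (up.n hn) (bn.up _) (up.n hq) (bq.up _) (hW.up _) (up.a hy) (up.a hT) hp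
        (fun z hz => hz.2) (up.n hR) (bR.up _) (up.a hsh) (up.n hj) (bj.up _) (up.n hi) (bi.up _)
    refine h1.store fun Γ2 ρ2 k2 hF => ?_
    have h2 : Cp (NL N) (DL D fun a => n a * n a) ρ2 (fun τ z => W τ z.1) .arr
        (fun z => tb (2 ^ q z.1) fun c => bb (n z.1) (q z.1) (y z.1) z.2 c) := by
      refine tabP (PN.pow2 (k2.n (up.n hq)) (bq.up _)) (hW.up _) fun Γ3 ρ3 up3 hc => ?_
      exact c_bb (n := fun w : (A × ℕ) × ℕ => n w.1.1) (q := fun w => q w.1.1)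
        (y := fun w => y w.1.1) (p := fun w => w.1.2) (s := fun w => w.2)
        (up3.n (k2.n (up.n hn))) ((bn.up _).up _) (up3.n (k2.n (up.n hq))) ((bq.up _).up _)
        (up3.a (k2.a (up.a hy))) (up3.a (k2.a (up.a hT))) (up3.n (k2.n hp))
        (fun w hw => hw.1.2) hc
    refine h2.store fun Γ3 ρ3 k3 hG => ?_
    exact c_cor (k3.n (k2.n (up.n hq))) (bq.up _) (hW.up _) (k3.a hF) hG
  · refine ⟨0, fun a ha l hl τ hτ => ?_⟩
    rw [length_cor, pow_zero, one_mul]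
    exact_mod_cast (hW a ha τ hτ).2

theorem c_ns {n q R j i : A → ℕ} {y sh : A → List ℤ} (hn : PN N D ρ n) (bn : Bd N D n)
    (hq : PN N D ρ q) (bq : Bd N D q) (hW : Wg D (fun a => 2 ^ q a) W) (hy : PA N D ρ y)
    (hT : PA N D ρ (fun a => spT (n a) (q a) (y a))) (hR : PN N D ρ R) (bR : Bd N D R)
    (hsh : PA N D ρ sh) (hj : PN N D ρ j) (bj : Bd N D j) (hi : PN N D ρ i) (bi : Bd N D i) :
    Cp N D ρ W .int (fun a => (ns (n a) (q a) (y a) (R a) (sh a) (j a) (i a) : ℤ)) := by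
  refine (c_corT hn bn hq bq hW hy hT hR bR hsh hj bj hi bi).store fun Γ1 ρ1 k1 h1 => ?_
  have h2 : Cp N D ρ1 W .arr (fun a => tb (2 ^ q a) fun c =>
      if bad (n a) (q a) (y a) (R a) (sh a) (j a) c then 1 else 0) := by
    refine tabP (PN.pow2 (k1.n hq) bq) hW fun Γ2 ρ2 up hc => ?_
    refine Cp.ite ?_ (PI.const 1) (PI.const 0)
    exact c_bad (n := fun z : A × ℕ => n z.1) (q := fun z => q z.1) (y := fun z => y z.1)
      (c := fun z => z.2) (R := fun z => R z.1) (j := fun z => j z.1) (sh := fun z => sh z.1)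
      (up.n (k1.n hn)) (bn.up _) (up.n (k1.n hq)) (bq.up _) (up.a (k1.a hy)) (up.a (k1.a hT)) hc
      (up.n (k1.n hR)) (bR.up _) (up.a (k1.a hsh)) (up.n (k1.n hj)) (bj.up _)
  refine h2.store fun Γ2 ρ2 k2 hF => ?_
  have h3 : Cp N D ρ2 W .arr (fun a => tb (2 ^ q a) fun c =>
      ∑ p ∈ range (n a * n a), bb (n a) (q a) (y a) p c ^ 2) := by
    refine tabP (PN.pow2 (k2.n (k1.n hq)) bq) hW fun Γ3 ρ3 up hc => ?_
    have hn3 := up.n (k2.n (k1.n hn))
    refine PI.sum (PN.mul hn3 hn3) ((bn.mul bn).up _) fun Γ4 ρ4 up4 hp => ?_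
    exact PI.pow (c_bb (n := fun w : (A × ℕ) × ℕ => n w.1.1) (q := fun w => q w.1.1)
      (y := fun w => y w.1.1) (p := fun w => w.2) (s := fun w => w.1.2)
      (up4.n hn3) ((bn.up _).up _) (up4.n (up.n (k2.n (k1.n hq)))) ((bq.up _).up _)
      (up4.a (up.a (k2.a (k1.a hy)))) (up4.a (up.a (k2.a (k1.a hT)))) hp
      (fun w hw => hw.2) (up4.n hc)) 2
  refine h3.store fun Γ3 ρ3 k3 hG => ?_
  have hq3 := k3.n (k2.n (k1.n hq))
  refine (c_cor hq3 bq hW (k3.a hF) hG).store fun Γ4 ρ4 k4 h0 => ?_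
  have hq4 := k4.n hq3
  have hn4 := k4.n (k3.n (k2.n (k1.n hn)))
  have h14 := k4.a (k3.a (k2.a h1))
  have h5 := amaxP (W := W) (k := fun a => 2 ^ q a)
    (f := fun a s => -(gt (cor (q a)
        (tb (2 ^ q a) fun c => if bad (n a) (q a) (y a) (R a) (sh a) (j a) c then 1 else 0)
        (tb (2 ^ q a) fun c => ∑ p ∈ range (n a * n a), bb (n a) (q a) (y a) p c ^ 2)) s +
      ∑ p ∈ range (n a * n a),
        2 * gt (corT (n a) (q a) (y a) (R a) (sh a) (j a) (i a)) (p * 2 ^ q a + s)))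
    (PN.pow2 hq4 bq) hW fun Γ5 ρ5 up hs => by
      have hn5 := up.n hn4
      have h6 := PI.add (PI.get (up.a h0) hs)
        (PI.sum (k := fun z : A × ℕ => n z.1 * n z.1)
          (f := fun z p => 2 * gt (corT (n z.1) (q z.1) (y z.1) (R z.1) (sh z.1) (j z.1) (i z.1))
            (p * 2 ^ q z.1 + z.2))
          (PN.mul hn5 hn5) ((bn.mul bn).up _) fun Γ6 ρ6 up6 hp =>
            PI.mul (PI.const 2) (PI.get (up6.a (up.a h14))
              (PN.add (PN.mul hp (PN.pow2 (up6.n (up.n hq4)) ((bq.up _).up _))) (up6.n hs))))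
      exact (PI.sub (PI.const 0) h6).congr fun z _ => zero_sub _
  refine h5.congr fun a _ => ?_
  unfold ns
  congr 1
  refine argmax_congr fun s hs => ?_
  rw [Int.toNat_natCast, gt_cs (y a) (R a) (sh a) (j a) (i a) hs]

/-- The shifts. -/
theorem c_sl {n q R x : A → ℕ} {y : A → List ℤ} (hn : PN N D ρ n) (bn : Bd N D n)
    (hq : PN N D ρ q) (bq : Bd N D q) (hW : Wg D (fun a => 2 ^ q a) W) (hy : PA N D ρ y)
    (hR : PN N D ρ R) (bR : Bd N D R) (hx : PN N D ρ x) (bx : Bd N D x) :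
    Cp N D ρ W .arr (fun a => sl (n a) (q a) (y a) (R a) (x a)) := by
  refine (c_spT hn bn hq bq hW hy).store fun Γ0 ρ0 k0 hT => ?_
  refine iterQ (s := fun a u => sl (n a) (q a) (y a) (R a) u) (k0.n hx) bx hW.one
    (PA.nil.lift hW.one) ?_ ?_
  · obtain ⟨c, hc⟩ := bq.add (Bd.const 1)
    obtain ⟨d, hd⟩ := bx
    refine ⟨c + d + 0 + 2, fun a ha u hu => le_trans ?_ (pow_bound N a c d 0)⟩
    have h1 : q a + 1 ≤ (N a + 2) ^ c := hc a ha
    have h2 : x a ≤ (N a + 2) ^ d := hd a ha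
    have h3 := asz_sl (n a) (q a) (y a) (R a) u
    have h4 : Nat.size (sl (n a) (q a) (y a) (R a) u).length ≤ x a := by
      rw [length_sl, Nat.size_le]
      exact hu.trans Nat.lt_two_pow_self
    change BE.asz _ + Nat.size _ ≤ _
    omega
  · intro Γ1 ρ1 up hu hs
    have hR1 := up.n (k0.n hR)
    have b1 : Bd (NL N) (DL D x) (fun z => z.2 / R z.1) :=
      Bd.le (Bd.var bx) fun z _ => Nat.div_le_self _ _
    have b2 : Bd (NL N) (DL D x) (fun z => z.2 % R z.1) :=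
      Bd.le (Bd.var bx) fun z _ => Nat.mod_le _ _
    have h1 : Cp (NL N) (DL D x) ρ1 (fun τ z => W τ z.1) .int (fun z =>
        (ns (n z.1) (q z.1) (y z.1) (R z.1) (sl (n z.1) (q z.1) (y z.1) (R z.1) z.2)
          (z.2 / R z.1) (z.2 % R z.1) : ℤ)) :=
      c_ns (n := fun z : A × ℕ => n z.1) (q := fun z => q z.1) (y := fun z => y z.1)
        (R := fun z => R z.1) (j := fun z => z.2 / R z.1) (i := fun z => z.2 % R z.1)
        (sh := fun z => sl (n z.1) (q z.1) (y z.1) (R z.1) z.2)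
        (up.n (k0.n hn)) (bn.up _) (up.n (k0.n hq)) (bq.up _) (hW.up _) (up.a (k0.a hy))
        (up.a hT) hR1 (bR.up _) hs (PN.div hu hR1) b1 (PN.mod hu hR1) b2
    refine h1.store fun Γ2 ρ2 k2 h2 => ?_
    have h3 := Cp.app (w := fun τ (z : A × ℕ) => W τ z.1)
      ((k2.a hs).lift (hW.up x).one) ((PA.one h2).lift (hW.up x).one) (by
        obtain ⟨d, hd⟩ := bx
        refine ⟨d, fun z hz τ hτ => ?_⟩
        rw [length_sl, List.length_singleton]
        have h4 : x z.1 ≤ (N z.1 + 2) ^ d := hd z.1 hz.1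
        have h5 := (hW.up x).one z hz τ hτ
        have h6 : z.2 < x z.1 := hz.2
        have h7 : ((z.2 : ℕ) : ℝ) + ((1 : ℕ) : ℝ) ≤ ((N z.1 : ℝ) + 2) ^ d := by
          have : z.2 + 1 ≤ (N z.1 + 2) ^ d := by omega
          exact_mod_cast this
        have h8 : (0 : ℝ) ≤ ((N z.1 : ℝ) + 2) ^ d := by positivity
        have h9 : ((N z.1 : ℝ) + 2) ^ d * 1 ≤ ((N z.1 : ℝ) + 2) ^ d * W τ z.1 :=
          mul_le_mul_of_nonneg_left h5 h8
        change ((z.2 : ℕ) : ℝ) + ((1 : ℕ) : ℝ) ≤ ((N z.1 : ℝ) + 2) ^ d * W τ z.1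
        linarith)
    exact h3.congr fun z _ => (sl_succ _ _ _ _ _).symm

end Pool.Agent.MPa9445a.DB
end

section

/-! Programs: the centers. -/

set_option autoImplicit false

open Finset

namespace Pool.Agent.MPa9445a.DB

open Pool.Agent.MPa9445a.BE (Ty Env vs one Bd NL DL tb flt gt bit Phi vec code lin argmax matMul
  Bd.const Bd.add Bd.mul Bd.le Bd.up Bd.var Bd.self)
open Pool.Agent.MPa9445a.GD

variable {A : Type} {N : A → ℕ} {D : A → Prop} {Γ : List Ty} {ρ : A → Env Γ} {W : ℝ → A → ℝ}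

/-- The classes with a representative. PROOF. `fltP`. -/
theorem c_hl {q : A → ℕ} {y : A → List ℤ} (hq : PN N D ρ q) (bq : Bd N D q)
    (hW : Wg D (fun a => 2 ^ q a) W) (hy : PA N D ρ y) :
    Cp N D ρ W .arr (fun a => hl (q a) (y a)) :=
  fltP (PN.pow2 hq bq) hW fun _ _ up hs => PB.ne (PI.get (up.a hy) hs) (PI.const 0)

private theorem T5_hl (q : ℕ) (y : List ℤ) : (hl q y).length ≤ 2 ^ q := GL.length_flt_le _ _

/-- The next center, with stored tables of `hl` and `sp`. PROOF. `amaxP` over the length of `hl` (at most `2 ^ q`). -/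
theorem c_nc {n q : A → ℕ} {y z : A → List ℤ} (hn : PN N D ρ n) (bn : Bd N D n) (hq : PN N D ρ q)
    (bq : Bd N D q) (hW : Wg D (fun a => 2 ^ q a) W) (hy : PA N D ρ y) (hz : PA N D ρ z)
    (bz : Bd N D fun a => (z a).length) :
    Cp N D ρ W .int (fun a => nc (n a) (q a) (y a) (z a)) := by
  refine (c_hl hq bq hW hy).store fun Γ1 ρ1 k1 h1 => ?_
  refine (c_spT (k1.n hn) bn (k1.n hq) bq hW (k1.a hy)).store fun Γ2 ρ2 k2 hT => ?_
  have h1' := k2.a h1
  have hn2 := k2.n (k1.n hn)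
  have hy2 := k2.a (k1.a hy)
  have hz2 := k2.a (k1.a hz)
  have h5 := amaxP (W := W) (k := fun a => (hl (q a) (y a)).length)
    (f := fun a x => -∑ p ∈ range (n a * n a), (dev (n a) (q a) (y a) (z a) p +
      ((hl (q a) (y a)).length * DB.bp (n a) (y a) p (gt (hl (q a) (y a)) x).toNat -
        sp (n a) (q a) (y a) p)) ^ 2)
    (PN.len h1') (hW.le fun a _ => T5_hl _ _) fun Γ3 ρ3 up hx => by
      have h6 := PI.sum (k := fun w : A × ℕ => n w.1 * n w.1)
        (f := fun w p => (dev (n w.1) (q w.1) (y w.1) (z w.1) p +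
          ((hl (q w.1) (y w.1)).length * DB.bp (n w.1) (y w.1) p
            (gt (hl (q w.1) (y w.1)) w.2).toNat - sp (n w.1) (q w.1) (y w.1) p)) ^ 2)
        (PN.mul (up.n hn2) (up.n hn2)) ((bn.mul bn).up _) fun Γ4 ρ4 up4 hp => by
          have hl4 := up4.a (up.a h1')
          have hy4 := up4.a (up.a hy2)
          have hn4 := up4.n (up.n hn2)
          have bn4 := (bn.up (fun a => (hl (q a) (y a)).length)).up
            (fun w : A × ℕ => n w.1 * n w.1)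
          have bp4 : Bd (NL (NL N)) (DL (DL D fun a => (hl (q a) (y a)).length)
              fun w : A × ℕ => n w.1 * n w.1) (fun v => v.2) :=
            Bd.var ((bn.mul bn).up _)
          have hsp : PI (NL (NL N)) (DL (DL D fun a => (hl (q a) (y a)).length)
              fun w : A × ℕ => n w.1 * n w.1) ρ4
              (fun v => sp (n v.1.1) (q v.1.1) (y v.1.1) v.2) :=
            (PI.get (up4.a (up.a hT)) hp).congr fun v hv => gt_spT (y v.1.1) hv.2
          have hlen : PI (NL (NL N)) (DL (DL D fun a => (hl (q a) (y a)).length)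
              fun w : A × ℕ => n w.1 * n w.1) ρ4
              (fun v => ((hl (q v.1.1) (y v.1.1)).length : ℤ)) := PN.len hl4
          have h7 := PI.mul hlen (c_bp (n := fun v : (A × ℕ) × ℕ => n v.1.1)
            (p := fun v => v.2) (s := fun v => (gt (hl (q v.1.1) (y v.1.1)) v.1.2).toNat)
            (y := fun v => y v.1.1) hn4 hp bp4 (PN.toNat (PI.get hl4 (up4.n hx))) hy4 bn4)
          have h8 := PI.sum (k := fun v : (A × ℕ) × ℕ => (z v.1.1).length)
            (f := fun v l => (hl (q v.1.1) (y v.1.1)).length *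
              DB.bp (n v.1.1) (y v.1.1) v.2 (gt (z v.1.1) l).toNat -
                sp (n v.1.1) (q v.1.1) (y v.1.1) v.2)
            (PN.len (up4.a (up.a hz2))) ((bz.up _).up _) fun Γ5 ρ5 up5 hl => by
              exact PI.sub (PI.mul (up5.i hlen) (c_bp (n := fun v : ((A × ℕ) × ℕ) × ℕ => n v.1.1.1)
                (p := fun v => v.1.2) (s := fun v => (gt (z v.1.1.1) v.2).toNat)
                (y := fun v => y v.1.1.1) (up5.n hn4) (up5.n hp) (bp4.up _)
                (PN.toNat (PI.get (up5.a (up4.a (up.a hz2))) hl)) (up5.a hy4) (bn4.up _)))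
                (up5.i hsp)
          exact PI.pow (PI.add h8 (PI.sub h7 hsp)) 2
      exact (PI.sub (PI.const 0) h6).congr fun w _ => zero_sub _
  refine h5.store fun Γ3 ρ3 k3 h6 => ?_
  exact (PI.get (k3.a h1') h6).lift hW.one

private theorem T5_len (n q : ℕ) (y : List ℤ) (x : ℕ) : (cl n q y x).length = x := by
  induction x with
  | zero => rfl
  | succ x ih =>
    show (cl n q y x ++ [nc n q y (cl n q y x)]).length = _
    rw [List.length_append, ih, List.length_singleton]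

private theorem T5_mem (q : ℕ) (y : List ℤ) (i : ℕ) :
    0 ≤ gt (hl q y) i ∧ gt (hl q y) i < 2 ^ q := by
  by_cases hi : i < (hl q y).length
  · have h1 : gt (hl q y) i ∈ hl q y := by
      rw [gt, List.getD_eq_getElem _ _ hi]
      exact List.getElem_mem hi
    unfold hl flt at h1
    obtain ⟨s, hs, he⟩ := List.mem_map.1 h1
    have hs2 := List.mem_range.1 (List.mem_of_mem_filter hs)
    change ((s : ℕ) : ℤ) = _ at he
    unfold hl flt
    rw [← he]
    exact ⟨Int.natCast_nonneg _, by exact_mod_cast hs2⟩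
  · have h1 : gt (hl q y) i = 0 := by
      rw [gt, List.getD_eq_default _ _ (not_lt.1 hi)]
    rw [h1]
    exact ⟨le_rfl, by positivity⟩

private theorem T5_asz (n q : ℕ) (y : List ℤ) (x : ℕ) : BE.asz (cl n q y x) ≤ q + 1 := by
  induction x with
  | zero => exact Nat.zero_le _
  | succ x ih =>
    show BE.asz (cl n q y x ++ [nc n q y (cl n q y x)]) ≤ _
    refine (asz_app _ _).trans (max_le ih ?_)
    rw [asz_single]
    unfold nc BE.sz
    rw [Nat.size_le]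
    zify
    obtain ⟨h3, h4⟩ := T5_mem q y (argmax (hl q y).length fun x' =>
      -∑ p ∈ range (n * n), (dev n q y (cl n q y x) p +
        ((hl q y).length * DB.bp n y p (gt (hl q y) x'.toNat).toNat - sp n q y p)) ^ 2)
    rw [abs_of_nonneg h3]
    exact lt_of_lt_of_le h4 (pow_le_pow_right₀ (by norm_num) (by omega))

private theorem T5_succ (n q : ℕ) (y : List ℤ) (x : ℕ) :
    cl n q y (x + 1) = cl n q y x ++ [nc n q y (cl n q y x)] := rfl

/-- The centers. PROOF. `iterQ`, as `c_vl` in `T3.lean`. -/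
theorem c_cl {n q x : A → ℕ} {y : A → List ℤ} (hn : PN N D ρ n) (bn : Bd N D n) (hq : PN N D ρ q)
    (bq : Bd N D q) (hW : Wg D (fun a => 2 ^ q a) W) (hy : PA N D ρ y) (hx : PN N D ρ x)
    (bx : Bd N D x) : Cp N D ρ W .arr (fun a => cl (n a) (q a) (y a) (x a)) := by
  refine iterQ (s := fun a u => cl (n a) (q a) (y a) u) hx bx hW.one
    (PA.nil.lift hW.one) ?_ ?_
  · obtain ⟨c, hc⟩ := bq.add (Bd.const 1)
    obtain ⟨d, hd⟩ := bx
    refine ⟨c + d + 0 + 2, fun a ha u hu => le_trans ?_ (pow_bound N a c d 0)⟩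
    have h1 : q a + 1 ≤ (N a + 2) ^ c := hc a ha
    have h2 : x a ≤ (N a + 2) ^ d := hd a ha
    have h3 := T5_asz (n a) (q a) (y a) u
    have h4 : Nat.size (cl (n a) (q a) (y a) u).length ≤ x a := by
      rw [T5_len, Nat.size_le]
      exact hu.trans Nat.lt_two_pow_self
    change BE.asz _ + Nat.size _ ≤ _
    omega
  · intro Γ1 ρ1 up hu hs
    have bl : Bd (NL N) (DL D x) (fun z => (cl (n z.1) (q z.1) (y z.1) z.2).length) := by
      refine Bd.le (Bd.var bx) fun z _ => ?_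
      rw [T5_len]
    have h1 : Cp (NL N) (DL D x) ρ1 (fun τ z => W τ z.1) .int (fun z =>
        nc (n z.1) (q z.1) (y z.1) (cl (n z.1) (q z.1) (y z.1) z.2)) :=
      c_nc (n := fun z : A × ℕ => n z.1) (q := fun z => q z.1) (y := fun z => y z.1)
        (z := fun z => cl (n z.1) (q z.1) (y z.1) z.2)
        (up.n hn) (bn.up _) (up.n hq) (bq.up _) (hW.up _) (up.a hy) hs bl
    refine h1.store fun Γ2 ρ2 k2 h2 => ?_
    have h3 := Cp.app (w := fun τ (z : A × ℕ) => W τ z.1)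
      ((k2.a hs).lift (hW.up x).one) ((PA.one h2).lift (hW.up x).one) (by
        obtain ⟨d, hd⟩ := bx
        refine ⟨d, fun z hz τ hτ => ?_⟩
        rw [T5_len, List.length_singleton]
        have h4 : x z.1 ≤ (N z.1 + 2) ^ d := hd z.1 hz.1
        have h5 := (hW.up x).one z hz τ hτ
        have h6 : z.2 < x z.1 := hz.2
        have h7 : ((z.2 : ℕ) : ℝ) + ((1 : ℕ) : ℝ) ≤ ((N z.1 : ℝ) + 2) ^ d := by
          have : z.2 + 1 ≤ (N z.1 + 2) ^ d := by omega
          exact_mod_cast this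
        have h8 : (0 : ℝ) ≤ ((N z.1 : ℝ) + 2) ^ d := by positivity
        have h9 : ((N z.1 : ℝ) + 2) ^ d * 1 ≤ ((N z.1 : ℝ) + 2) ^ d * W τ z.1 :=
          mul_le_mul_of_nonneg_left h5 h8
        change ((z.2 : ℕ) : ℝ) + ((1 : ℕ) : ℝ) ≤ ((N z.1 : ℝ) + 2) ^ d * W τ z.1
        linarith)
    exact h3.congr fun z _ => (T5_succ _ _ _ _).symm

end Pool.Agent.MPa9445a.DB
end
end

section

section

/-! Programs: the region. `n` is the number of vertices, `M` the matrix, `x` the region. -/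

set_option autoImplicit false
set_option linter.unusedVariables false

open Finset

namespace Pool.Agent.MPa9445a.DB.Rg

open Pool.Agent.MPa9445a.BE (Ty Env vs one Bd NL DL tb flt gt bit Phi vec code lin argmax matMul
  Bd.const Bd.add Bd.mul Bd.le Bd.up Bd.var Bd.self)
open Pool.Agent.MPa9445a.GD
open Pool.Agent.MPa9445a.GL (rk sv laL rhL lvv LL)

variable {A : Type} {N : A → ℕ} {D : A → Prop} {Γ : List Ty} {ρ : A → Env Γ} {W : ℝ → A → ℝ}
  {n x : A → ℕ} {M : A → List ℤ}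

theorem c_nJ (hn : PN N D ρ n) : PN N D ρ (fun a => nJ (n a)) :=
  PN.div (PN.mul (PN.const 7871) hn) (PN.const 10000)

theorem nJ_le' (n : ℕ) : nJ n ≤ n := by
  unfold nJ
  omega

theorem bd_nJ (bn : Bd N D n) : Bd N D (fun a => nJ (n a)) :=
  Bd.le bn fun _ _ => nJ_le' _

theorem c_R1 (hn : PN N D ρ n) : PN N D ρ (fun a => R1 (n a)) := PN.pow hn 14

theorem bd_R1 (bn : Bd N D n) : Bd N D (fun a => R1 (n a)) := by
  obtain ⟨k, hk⟩ := bn
  refine ⟨k * 14, fun a ha => ?_⟩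
  rw [pow_mul]
  exact Nat.pow_le_pow_left (hk a ha) 14

theorem c_Y0 (hn : PN N D ρ n) (bn : Bd N D n) : PN N D ρ (fun a => Y0 (n a)) := by
  have h1 : PN N D ρ (fun a => 2 * nJ (n a) - n a) := PN.sub (PN.mul (PN.const 2) (c_nJ hn)) hn
  have h2 : Bd N D (fun a => 2 * nJ (n a) - n a) :=
    Bd.le ((Bd.const 2).mul (bd_nJ bn)) fun _ _ => Nat.sub_le _ _
  exact PN.pow2 h1 h2

private theorem T9_p2 (hn : PN N D ρ n) (bn : Bd N D n) : PN N D ρ (fun a => 2 ^ nJ (n a)) :=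
  PN.pow2 (c_nJ hn) (bd_nJ bn)

theorem c_rg (hn : PN N D ρ n) (bn : Bd N D n) (hx : PN N D ρ x) :
    PA N D ρ (fun a => rg (n a) (x a)) := by
  refine PA.tab hn bn fun Γ1 ρ1 up hv => ?_
  refine Cp.ite (PB.ltN hv (c_nJ (up.n hn))) (PI.const 2) ?_
  have h1 : Bd (NL N) (DL D n) (fun p => p.2 - nJ (n p.1)) :=
    Bd.le (Bd.var bn) fun _ _ => Nat.sub_le _ _
  exact PI.sub (PI.mul (PI.const 2) (PN.bit (up.n hx) (PN.sub hv (c_nJ (up.n hn))) h1))
    (PI.const 1)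

theorem c_rv (hn : PN N D ρ n) (bn : Bd N D n) (hM : PA N D ρ M) (hx : PN N D ρ x)
    (hW : Wg D (fun a => 2 ^ nJ (n a)) W) : Cp N D ρ W .arr (fun a => rv (n a) (M a) (x a)) := by
  refine Cp.store ((c_rg hn bn hx).lift hW.one) fun Γ1 ρ1 k1 e1 => ?_
  have hb : Body N D ρ1 (fun a => 2 ^ nJ (n a)) one .int
      (fun a z => Phi (n a) (M a) (sv (n a) (rg (n a) (x a)) z)) := by
    intro Γ2 ρ2 up hz
    have hn2 := up.n (k1.n hn)
    have bn2 : Bd (NL N) (DL D fun a => 2 ^ nJ (n a)) (fun p => n p.1) := bn.up _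
    exact PI.Phi hn2 bn2 (up.a (k1.a hM)) (GL.c_sv hn2 bn2 (up.a e1) hz)
  exact tabP (T9_p2 (k1.n hn) bn) hW hb

/-- The level. PROOF. Store `rv`; `tx` is `amaxQ` over `LL n`, the body is `fltP` (stored) and its length; then `(n : ℤ) ^ 4 - tx`. -/
theorem c_tt (hn : PN N D ρ n) (bn : Bd N D n) (hM : PA N D ρ M) (hx : PN N D ρ x)
    (hW : Wg D (fun a => 2 ^ nJ (n a)) W) : Cp N D ρ W .int (fun a => tt (n a) (M a) (x a)) := by
  refine Cp.store (c_rv hn bn hM hx hW) fun Γ1 ρ1 k1 e1 => ?_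
  have hn1 := k1.n hn
  have hb : Body N D ρ1 (fun a => LL (n a)) W .int
      (fun a y => if Y0 (n a) ≤ rn (n a) (M a) (x a) ((n a : ℤ) ^ 4 - (y : ℤ)) then 1 else 0) := by
    intro Γ2 ρ2 up hy
    have hn2 := up.n hn1
    have bn2 : Bd (NL N) (DL D fun a => LL (n a)) (fun p => n p.1) := bn.up _
    have hW2 : Wg (DL D fun a => LL (n a)) (fun p => 2 ^ nJ (n p.1)) (fun τ p => W τ p.1) :=
      hW.up _
    have hf : Cp (NL N) (DL D fun a => LL (n a)) ρ2 (fun τ p => W τ p.1) .arr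
        (fun p => flt (2 ^ nJ (n p.1)) fun z =>
          gt (rv (n p.1) (M p.1) (x p.1)) z = (n p.1 : ℤ) ^ 4 - (p.2 : ℤ)) := by
      refine fltP (T9_p2 hn2 bn2) hW2 fun Γ3 ρ3 up3 hz => ?_
      exact PB.eq (PI.get (up3.a (up.a e1)) hz) (PI.sub (PI.pow (up3.n hn2) 4) (up3.n hy))
    refine Cp.store hf fun Γ4 ρ4 k4 e4 => ?_
    have h5 : PB (NL N) (DL D fun a => LL (n a)) ρ4 (fun p => Y0 (n p.1) ≤
        rn (n p.1) (M p.1) (x p.1) ((n p.1 : ℤ) ^ 4 - (p.2 : ℤ))) :=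
      PB.leN (c_Y0 (k4.n hn2) bn2) (PN.len e4)
    exact (Cp.ite (w := one) h5 (PI.const 1) (PI.const 0)).lift hW2.one
  have bL : Bd N D (fun a => LL (n a)) := GL.bd_LL bn
  have h6 := amaxQ (GL.c_LL hn1) bL hW.one hb
  refine Cp.store h6 fun Γ5 ρ5 k5 e5 => ?_
  have h7 : PI N D ρ5 (fun a => tt (n a) (M a) (x a)) := PI.sub (PI.pow (k5.n hn1) 4) e5
  exact h7.lift hW.one

theorem c_KK (hn : PN N D ρ n) (bn : Bd N D n) (hM : PA N D ρ M) (hx : PN N D ρ x)
    (hW : Wg D (fun a => 2 ^ nJ (n a)) W) : Cp N D ρ W .arr (fun a => KK (n a) (M a) (x a)) := by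
  refine Cp.store (c_rv hn bn hM hx hW) fun Γ1 ρ1 k1 e1 => ?_
  refine Cp.store (c_tt (k1.n hn) bn (k1.a hM) (k1.n hx) hW) fun Γ2 ρ2 k2 e2 => ?_
  have hb : Body N D ρ2 (fun a => 2 ^ nJ (n a)) one .int
      (fun a z => if tt (n a) (M a) (x a) ≤ gt (rv (n a) (M a) (x a)) z then 1 else 0) := by
    intro Γ3 ρ3 up hz
    exact Cp.ite (PB.le (up.i e2) (PI.get (up.a (k2.a e1)) hz)) (PI.const 1) (PI.const 0)
  exact tabP (T9_p2 (k2.n (k1.n hn)) bn) hW hb

theorem c_YY (hn : PN N D ρ n) (bn : Bd N D n) (hM : PA N D ρ M) (hx : PN N D ρ x)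
    (hW : Wg D (fun a => 2 ^ nJ (n a)) W) : Cp N D ρ W .arr (fun a => YY (n a) (M a) (x a)) := by
  refine Cp.store (c_rv hn bn hM hx hW) fun Γ1 ρ1 k1 e1 => ?_
  refine Cp.store (c_tt (k1.n hn) bn (k1.a hM) (k1.n hx) hW) fun Γ2 ρ2 k2 e2 => ?_
  have hb : Body N D ρ2 (fun a => 2 ^ nJ (n a)) one .int
      (fun a z => if gt (rv (n a) (M a) (x a)) z = tt (n a) (M a) (x a) then (z : ℤ) + 1
        else 0) := by
    intro Γ3 ρ3 up hz
    exact Cp.ite (PB.eq (PI.get (up.a (k2.a e1)) hz) (up.i e2)) (PI.add hz (PI.const 1))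
      (PI.const 0)
  exact tabP (T9_p2 (k2.n (k1.n hn)) bn) hW hb

theorem c_qq (hn : PN N D ρ n) (bn : Bd N D n) (hM : PA N D ρ M) (hx : PN N D ρ x)
    (hW : Wg D (fun a => 2 ^ nJ (n a)) W) :
    Cp N D ρ W .int (fun a => (qq (n a) (M a) (x a) : ℤ)) := by
  refine Cp.store (c_KK hn bn hM hx hW) fun Γ1 ρ1 k1 e1 => ?_
  have hn1 := k1.n hn
  have hf : Cp N D ρ1 W .arr (fun a => flt (2 ^ nJ (n a)) fun z =>
      gt (KK (n a) (M a) (x a)) z = 1) := by
    refine fltP (T9_p2 hn1 bn) hW fun Γ3 ρ3 up3 hz => ?_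
    exact PB.eq (PI.get (up3.a e1) hz) (PI.const 1)
  refine Cp.store hf fun Γ2 ρ2 k2 e2 => ?_
  have hJ := c_nJ (k2.n hn1)
  have h3 : PN N D ρ2 (fun a => GS.lgB (nJ (n a)) (flt (2 ^ nJ (n a)) fun z =>
      gt (KK (n a) (M a) (x a)) z = 1).length + 4) :=
    PN.add (GS.c_lgB hJ (bd_nJ bn) (PN.len e2)) (PN.const 4)
  have h4 : PN N D ρ2 (fun a => qq (n a) (M a) (x a)) := (PN.ite (PB.leN hJ h3) hJ h3).congr
    fun a _ => by
      have h5 := @Nat.min_def (nJ (n a)) (GS.lgB (nJ (n a)) (flt (2 ^ nJ (n a)) fun z =>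
        gt (KK (n a) (M a) (x a)) z = 1).length + 4)
      exact congrArg (fun z : ℕ => (z : ℤ)) h5.symm
  exact Cp.lift h4 hW.one

theorem bd_qq (bn : Bd N D n) : Bd N D (fun a => qq (n a) (M a) (x a)) :=
  Bd.le (bd_nJ bn) fun _ _ => Nat.min_le_left _ _

private theorem T9_bz (hn : PN N D ρ n) (bn : Bd N D n)
    (hW : Wg D (fun a => 2 ^ nJ (n a)) W) (e : PA N D ρ (fun a => rv (n a) (M a) (x a))) :
    Cp N D ρ W .int (fun a => (bz (n a) (M a) (x a) : ℤ)) := by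
  have hb : Body N D ρ (fun a => 2 ^ nJ (n a)) one .int
      (fun a z => gt (rv (n a) (M a) (x a)) z) := by
    intro Γ2 ρ2 up hz
    exact PI.get (up.a e) hz
  exact amaxP (T9_p2 hn bn) hW hb

/-- The best vector of the region and its value. -/
theorem c_bz (hn : PN N D ρ n) (bn : Bd N D n) (hM : PA N D ρ M) (hx : PN N D ρ x)
    (hW : Wg D (fun a => 2 ^ nJ (n a)) W) :
    Cp N D ρ W .int (fun a => (bz (n a) (M a) (x a) : ℤ)) :=
  Cp.store (c_rv hn bn hM hx hW) fun _ _ k1 e1 => T9_bz (k1.n hn) bn hW e1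

theorem c_m0 (hn : PN N D ρ n) (bn : Bd N D n) (hM : PA N D ρ M) (hx : PN N D ρ x)
    (hW : Wg D (fun a => 2 ^ nJ (n a)) W) : Cp N D ρ W .int (fun a => m0 (n a) (M a) (x a)) := by
  refine Cp.store (c_rv hn bn hM hx hW) fun Γ1 ρ1 k1 e1 => ?_
  refine Cp.store (T9_bz (k1.n hn) bn hW e1) fun Γ2 ρ2 k2 e2 => ?_
  have h3 : PI N D ρ2 (fun a => m0 (n a) (M a) (x a)) := PI.get (k2.a e1) e2
  exact h3.lift hW.one

end Pool.Agent.MPa9445a.DB.Rg
end

section

/-! Programs: the code, the shifts and the centers of a region. -/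

set_option autoImplicit false
set_option linter.unusedVariables false

open Finset

namespace Pool.Agent.MPa9445a.DB.Rg

open Pool.Agent.MPa9445a.BE (Ty Env vs one Bd NL DL tb flt gt bit Phi vec code lin argmax matMul
  Bd.const Bd.add Bd.mul Bd.le Bd.up Bd.var Bd.self)
open Pool.Agent.MPa9445a.GD
open Pool.Agent.MPa9445a.GL (rk sv laL rhL lvv LL)

variable {A : Type} {N : A → ℕ} {D : A → Prop} {Γ : List Ty} {ρ : A → Env Γ} {W : ℝ → A → ℝ}
  {n x : A → ℕ} {M : A → List ℤ}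

theorem loads {n x l i : ℕ} {M : List ℤ} (hl : l < nJ n - qq n M x) (hi : i < 2 ^ (nJ n - l)) :
    gt (lds (nJ n) (KK n M x) (vl (nJ n) (KK n M x) l) l) i ≤ nJ n + 2 :=
  load_le (κ := kap n M x) (fun z => KK_01 z) (by omega) rfl
    (fun l' hl' => qq_lo (by omega)) hi

theorem bd_cast {f : A → ℕ} (h : Bd N D f) :
    ∃ c : ℕ, ∀ a, D a → (f a : ℤ) ≤ ((N a : ℤ) + 2) ^ c := by
  obtain ⟨c, hc⟩ := h
  refine ⟨c, fun a ha => ?_⟩
  have h1 : f a ≤ (N a + 2) ^ c := hc a ha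
  exact_mod_cast h1

/-- The directions. -/
theorem c_vv (hn : PN N D ρ n) (bn : Bd N D n) (hM : PA N D ρ M) (hx : PN N D ρ x)
    (hW : Wg D (fun a => 2 ^ nJ (n a)) W) : Cp N D ρ W .arr (fun a => vv (n a) (M a) (x a)) := by
  refine Cp.store (c_KK hn bn hM hx hW) fun Γ1 ρ1 k1 e1 => ?_
  refine Cp.store (c_qq (k1.n hn) bn (k1.a hM) (k1.n hx) hW) fun Γ2 ρ2 k2 e2 => ?_
  have hJ : PN N D ρ2 (fun a => nJ (n a)) := c_nJ (k2.n (k1.n hn))
  have hm : PN N D ρ2 (fun a => nJ (n a) - qq (n a) (M a) (x a)) := PN.sub hJ e2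
  have bm : Bd N D (fun a => nJ (n a) - qq (n a) (M a) (x a)) :=
    (bd_nJ bn).le fun a _ => Nat.sub_le _ _
  refine c_vl hJ (bd_nJ bn) hW (k2.a e1) hm bm ?_
  obtain ⟨c, hc⟩ := bd_cast ((bd_nJ bn).add (Bd.const 2))
  refine ⟨c, fun a ha l hl i hi => (loads hl hi).trans ?_⟩
  have h := hc a ha
  push_cast at h
  exact h

theorem c_yy (hn : PN N D ρ n) (bn : Bd N D n) (hM : PA N D ρ M) (hx : PN N D ρ x)
    (hW : Wg D (fun a => 2 ^ nJ (n a)) W) : Cp N D ρ W .arr (fun a => yy (n a) (M a) (x a)) := by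
  refine Cp.store (c_YY hn bn hM hx hW) fun Γ1 ρ1 k1 e1 => ?_
  refine Cp.store (c_qq (k1.n hn) bn (k1.a hM) (k1.n hx) hW) fun Γ2 ρ2 k2 e2 => ?_
  refine Cp.store (c_vv (k2.n (k1.n hn)) bn (k2.a (k1.a hM)) (k2.n (k1.n hx)) hW)
    fun Γ3 ρ3 k3 e3 => ?_
  have hJ : PN N D ρ3 (fun a => nJ (n a)) := c_nJ (k3.n (k2.n (k1.n hn)))
  have hm : PN N D ρ3 (fun a => nJ (n a) - qq (n a) (M a) (x a)) := PN.sub hJ (k3.n e2)
  have bm : Bd N D (fun a => nJ (n a) - qq (n a) (M a) (x a)) :=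
    (bd_nJ bn).le fun a _ => Nat.sub_le _ _
  exact c_mxs hJ (bd_nJ bn) hW (k3.a (k2.a e1)) e3 hm bm

theorem bd_nS (bn : Bd N D n) : Bd N D (fun a => nS (n a) (M a) (x a)) :=
  ((bd_qq bn).add (Bd.const 1)).mul (bd_R1 bn)

theorem wq (hW : Wg D (fun a => 2 ^ nJ (n a)) W) :
    Wg D (fun a => 2 ^ qq (n a) (M a) (x a)) W := by
  refine hW.le fun a _ => ?_
  show 2 ^ qq (n a) (M a) (x a) ≤ 2 ^ nJ (n a)
  exact Nat.pow_le_pow_right (by norm_num) (Nat.min_le_left _ _)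

theorem c_ss (hn : PN N D ρ n) (bn : Bd N D n) (hM : PA N D ρ M) (hx : PN N D ρ x)
    (hW : Wg D (fun a => 2 ^ nJ (n a)) W) : Cp N D ρ W .arr (fun a => ss (n a) (M a) (x a)) := by
  refine Cp.store (c_qq hn bn hM hx hW) fun Γ1 ρ1 k1 e1 => ?_
  refine Cp.store (c_yy (k1.n hn) bn (k1.a hM) (k1.n hx) hW) fun Γ2 ρ2 k2 e2 => ?_
  have hJ : PN N D ρ2 (fun a => nJ (n a)) := c_nJ (k2.n (k1.n hn))
  have hR : PN N D ρ2 (fun a => R1 (n a)) := c_R1 (k2.n (k1.n hn))
  have hS : PN N D ρ2 (fun a => nS (n a) (M a) (x a)) :=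
    PN.mul (PN.add (k2.n e1) (PN.const 1)) hR
  exact c_sl hJ (bd_nJ bn) (k2.n e1) (bd_qq bn) (wq hW) e2 hR (bd_R1 bn) hS (bd_nS bn)

theorem c_cc (hn : PN N D ρ n) (bn : Bd N D n) (hM : PA N D ρ M) (hx : PN N D ρ x)
    (hW : Wg D (fun a => 2 ^ nJ (n a)) W) : Cp N D ρ W .arr (fun a => cc (n a) (M a) (x a)) := by
  refine Cp.store (c_qq hn bn hM hx hW) fun Γ1 ρ1 k1 e1 => ?_
  refine Cp.store (c_yy (k1.n hn) bn (k1.a hM) (k1.n hx) hW) fun Γ2 ρ2 k2 e2 => ?_
  have hn2 := k2.n (k1.n hn)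
  have hJ : PN N D ρ2 (fun a => nJ (n a)) := c_nJ hn2
  exact c_cl hJ (bd_nJ bn) (k2.n e1) (bd_qq bn) (wq hW) e2 hn2 bn

/-- The size of a set. -/
theorem c_sz {z : A → ℕ} (hn : PN N D ρ n) (bn : Bd N D n) (hz : PN N D ρ z) :
    PN N D ρ (fun a => sz (n a) (z a)) := by
  have bJ : Bd N D (fun a => nJ (n a)) := bd_nJ bn
  exact PN.sum (c_nJ hn) bJ fun Γ1 ρ1 up hv => PN.bit (up.n hz) hv (Bd.var bJ)

/-- The balanced sets of the shift `i`. -/
theorem c_dl {i : A → ℕ} (hn : PN N D ρ n) (bn : Bd N D n) (hM : PA N D ρ M) (hx : PN N D ρ x)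
    (hi : PN N D ρ i) (hW : Wg D (fun a => 2 ^ nJ (n a)) W) :
    Cp N D ρ W .arr (fun a => dl (n a) (M a) (x a) (i a)) := by
  refine Cp.store (c_qq hn bn hM hx hW) fun Γ1 ρ1 k1 e1 => ?_
  refine Cp.store (c_vv (k1.n hn) bn (k1.a hM) (k1.n hx) hW) fun Γ2 ρ2 k2 e2 => ?_
  refine Cp.store (c_ss (k2.n (k1.n hn)) bn (k2.a (k1.a hM)) (k2.n (k1.n hx)) hW)
    fun Γ3 ρ3 k3 e3 => ?_
  have hn3 := k3.n (k2.n (k1.n hn))
  have hJ : PN N D ρ3 (fun a => nJ (n a)) := c_nJ hn3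
  have bJ : Bd N D (fun a => nJ (n a)) := bd_nJ bn
  have hq : PN N D ρ3 (fun a => qq (n a) (M a) (x a)) := k3.n (k2.n e1)
  have hv : PA N D ρ3 (fun a => vv (n a) (M a) (x a)) := k3.a e2
  have hi3 : PN N D ρ3 i := k3.n (k2.n (k1.n hi))
  refine fltP (PN.pow2 hJ bJ) hW fun Γ4 ρ4 up hz => ?_
  have hJ4 : PN (NL N) (DL D fun a => 2 ^ nJ (n a)) ρ4 (fun p => nJ (n p.1)) := up.n hJ
  have h1 : PN (NL N) (DL D fun a => 2 ^ nJ (n a)) ρ4 (fun p =>
      lb (nJ (n p.1)) (vv (n p.1) (M p.1) (x p.1)) p.2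
        (nJ (n p.1) - qq (n p.1) (M p.1) (x p.1))) := by
    have a1 : PN (NL N) (DL D fun a => 2 ^ nJ (n a)) ρ4
        (fun p => nJ (n p.1) - qq (n p.1) (M p.1) (x p.1)) := PN.sub hJ4 (up.n hq)
    have a2 : Bd (NL N) (DL D fun a => 2 ^ nJ (n a))
        (fun p => nJ (n p.1) - qq (n p.1) (M p.1) (x p.1)) :=
      (bJ.up _).le fun p _ => Nat.sub_le _ _
    exact c_lb hJ4 (bJ.up _) (up.a hv) hz a1 a2
  have h2 : PN (NL N) (DL D fun a => 2 ^ nJ (n a)) ρ4 (fun p => sz (n p.1) p.2) :=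
    c_sz (up.n hn3) (bn.up _) hz
  refine PB.and ?_ (PB.and ?_ ?_)
  · exact PB.eq h1 (PI.get (up.a e3) (up.n hi3))
  · exact PB.leN (PN.mul (PN.const 4998) hJ4) (PN.mul (PN.const 10000) h2)
  · exact PB.leN (PN.mul (PN.const 10000) h2) (PN.mul (PN.const 5002) hJ4)

end Pool.Agent.MPa9445a.DB.Rg
end
end

section

/-! The data of a round: interface (programs and running time). -/

set_option autoImplicit false

open Finset

namespace Pool.Agent.MPa9445a.DB

open Pool.Agent.MPa9445a.BE (Ty Env vs one Bd NL DL tb flt gt bit Phi vec code lin argmax matMul Bd.const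
  Bd.add Bd.mul Bd.le Bd.up Bd.var Bd.self)
open Pool.Agent.MPa9445a.GD
open Pool.Agent.MPa9445a.GL (rk sv laL rhL lvv LL c_rk bd_rk c_sv c_laL c_rhL c_LL bd_LL c_lvv)

variable {A : Type} {N : A → ℕ} {D : A → Prop} {Γ : List Ty} {ρ : A → Env Γ}
  {n : A → ℕ} {M : A → List ℤ} {a : A → ℕ}

theorem Wg_wJ (D : A → Prop) (n : A → ℕ) : Wg D (fun q => 2 ^ nJ (n q)) (fun _ q => wJ (n q)) :=
  fun q _ τ _ => ⟨one_le_wJ (n q), by unfold wJ; push_cast; exact le_rfl⟩

theorem c_rv (h : Rd N D ρ n M a) :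
    Cp N D ρ (fun _ q => wJ (n q)) .arr (fun q => rv (n q) (M q) (a q)) :=
  Rg.c_rv h.hn h.bn h.hM h.ha (Wg_wJ D n)

theorem c_tt (h : Rd N D ρ n M a) :
    Cp N D ρ (fun _ q => wJ (n q)) .int (fun q => tt (n q) (M q) (a q)) :=
  Rg.c_tt h.hn h.bn h.hM h.ha (Wg_wJ D n)

theorem c_qq (h : Rd N D ρ n M a) :
    Cp N D ρ (fun _ q => wJ (n q)) .int (fun q => (qq (n q) (M q) (a q) : ℤ)) :=
  Rg.c_qq h.hn h.bn h.hM h.ha (Wg_wJ D n)

theorem c_nS (h : Rd N D ρ n M a) :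
    Cp N D ρ (fun _ q => wJ (n q)) .int (fun q => (nS (n q) (M q) (a q) : ℤ)) := by
  refine Cp.store (c_qq h) fun Γ1 ρ1 k1 e1 => ?_
  have h1 : PN N D ρ1 (fun q => nS (n q) (M q) (a q)) :=
    PN.mul (PN.add e1 (PN.const 1)) (Rg.c_R1 (k1.n h.hn))
  exact h1.lift fun q _ τ _ => one_le_wJ (n q)

theorem bd_nS (h : Rd N D ρ n M a) : Bd N D (fun q => nS (n q) (M q) (a q)) := Rg.bd_nS h.bn

theorem c_yy (h : Rd N D ρ n M a) :
    Cp N D ρ (fun _ q => wJ (n q)) .arr (fun q => yy (n q) (M q) (a q)) :=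
  Rg.c_yy h.hn h.bn h.hM h.ha (Wg_wJ D n)

theorem c_cc (h : Rd N D ρ n M a) :
    Cp N D ρ (fun _ q => wJ (n q)) .arr (fun q => cc (n q) (M q) (a q)) :=
  Rg.c_cc h.hn h.bn h.hM h.ha (Wg_wJ D n)

theorem c_dl (h : Rd N D ρ n M a) {i : A → ℕ} (hi : PN N D ρ i) :
    Cp N D ρ (fun _ q => wJ (n q)) .arr (fun q => dl (n q) (M q) (a q) (i q)) :=
  Rg.c_dl h.hn h.bn h.hM h.ha hi (Wg_wJ D n)

end Pool.Agent.MPa9445a.DB
end
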