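import Pool.Agent.Lib.MP_a9445a_lc.Mg.G137
import Pool.Agent.Lib.MP_a9445a_lc.Mg.G096

section

/-! Matrix products: programs and running time of the lists. -/

set_option autoImplicit false

open Finset

namespace Pool.Agent.MPa9445a.DB

open Pool.Agent.MPa9445a.BE (Ty Env vs one Bd NL DL tb flt gt bit Phi vec code lin argmax matMul Bd.const
  Bd.add Bd.mul Bd.le Bd.up Bd.var Bd.self)
open Pool.Agent.MPa9445a.GD
open Pool.Agent.MPa9445a.GL (rk sv laL rhL lvv LL c_rk bd_rk c_sv c_laL c_rhL c_LL bd_LL c_lvv)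

/-- A pair with a nonzero entry of the product has a vector of the second part. -/
theorem bl_pos (n : ℕ) (M s : List ℤ) (w x y : ℕ) (hy : y < 2 ^ w * 2 ^ w)
    (h : gt (mx n M s w x) y ≠ 0) : 1 ≤ (bl n M s w x y).length := by
  have hk : 0 < 2 ^ w := by positivity
  have h1 : y / 2 ^ w < 2 ^ w := Nat.div_lt_of_lt_mul hy
  have h2 : y % 2 ^ w < 2 ^ w := Nat.mod_lt _ hk
  have h3 : gt (mx n M s w x) y = ∑ l ∈ range (2 ^ w),
      (m1 n M s w (iC n x) (rA n x)).getD (y / 2 ^ w * 2 ^ w + l) 0 *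
        (m2 n M s w (rA n (x / (16 * n ^ 4 + 1)))).getD (l * 2 ^ w + y % 2 ^ w) 0 := by
    have h4 := BE.getD_matMul (2 ^ w) (m1 n M s w (iC n x) (rA n x))
      (m2 n M s w (rA n (x / (16 * n ^ 4 + 1)))) h1 h2
    rw [Nat.div_add_mod' y (2 ^ w)] at h4
    exact h4
  rw [h3] at h
  obtain ⟨l, hl, hne⟩ := Finset.exists_ne_zero_of_sum_ne_zero h
  have h5 : l ∈ (range (2 ^ w)).filter fun b =>
      gt (m1 n M s w (iC n x) (rA n x)) (y / 2 ^ w * 2 ^ w + b) ≠ 0 ∧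
        gt (m2 n M s w (rA n (x / (16 * n ^ 4 + 1)))) (b * 2 ^ w + y % 2 ^ w) ≠ 0 :=
    Finset.mem_filter.2 ⟨hl, left_ne_zero_of_mul hne, right_ne_zero_of_mul hne⟩
  show 1 ≤ (flt (2 ^ w) fun b =>
      gt (m1 n M s w (iC n x) (rA n x)) (y / 2 ^ w * 2 ^ w + b) ≠ 0 ∧
        gt (m2 n M s w (rA n (x / (16 * n ^ 4 + 1)))) (b * 2 ^ w + y % 2 ^ w) ≠ 0).length
  rw [SX.length_flt]
  exact Finset.card_pos.2 ⟨l, h5⟩

/-- The entries of `pl`. -/
theorem pl_get {n : ℕ} {M s : List ℤ} {w : ℕ} {p : ℤ} {x i : ℕ} (hi : i < (pl n M s w p x).length) :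
    (gt (pl n M s w p x) i).toNat < 2 ^ w * 2 ^ w ∧
      gt (mx n M s w x) (gt (pl n M s w p x) i).toNat ≠ 0 ∧
      va n M s w x (gt (pl n M s w p x) i).toNat = p := by
  have h1 := gt_mem hi
  unfold pl flt at h1
  obtain ⟨z, hz, he⟩ := List.mem_map.1 h1
  rw [List.mem_filter, List.mem_range] at hz
  have h2 := of_decide_eq_true hz.2
  have h3 : (gt (pl n M s w p x) i).toNat = z := by
    unfold pl flt
    rw [← he, Int.toNat_natCast]
  rw [h3]
  exact ⟨hz.1, h2.1, h2.2⟩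

theorem length_bl_le (n : ℕ) (M s : List ℤ) (w x y : ℕ) : (bl n M s w x y).length ≤ 2 ^ w := by
  unfold bl
  rw [SX.length_flt]
  exact (Finset.card_filter_le _ _).trans (Finset.card_range _).le

theorem length_bl_leR (n : ℕ) (M s : List ℤ) (w x y : ℕ) :
    ((bl n M s w x y).length : ℝ) ≤ ((2 ^ w : ℕ) : ℝ) + 1 := by
  have h : ((bl n M s w x y).length : ℝ) ≤ ((2 ^ w : ℕ) : ℝ) := by
    exact_mod_cast length_bl_le n M s w x y
  linarith

theorem length_bl_leR1 (n : ℕ) (M s : List ℤ) (w x y : ℕ) :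
    ((bl n M s w x y).length : ℝ) + 1 ≤ ((2 ^ w : ℕ) : ℝ) + 1 := by
  have h : ((bl n M s w x y).length : ℝ) ≤ ((2 ^ w : ℕ) : ℝ) := by
    exact_mod_cast length_bl_le n M s w x y
  linarith

theorem length_cL (n : ℕ) (M s : List ℤ) (w : ℕ) (p : ℤ) : (cL n M s w p).length =
    ∑ x ∈ range (nX n s w), ∑ i ∈ range (pl n M s w p x).length,
      (bl n M s w x (gt (pl n M s w p x) i).toNat).length := by
  unfold cL
  rw [length_fm]
  refine Finset.sum_congr rfl fun x _ => ?_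
  rw [length_fm]
  refine Finset.sum_congr rfl fun i _ => ?_
  rw [BE.length_tb]

theorem sum_pl_le (n : ℕ) (M s : List ℤ) (w : ℕ) (p : ℤ) :
    ∑ x ∈ range (nX n s w), (pl n M s w p x).length ≤ (cL n M s w p).length := by
  rw [length_cL]
  refine Finset.sum_le_sum fun x _ => ?_
  calc (pl n M s w p x).length = ∑ _i ∈ range (pl n M s w p x).length, 1 := by simp
    _ ≤ _ := Finset.sum_le_sum fun i hi => by
      have h := pl_get (mem_range.1 hi)
      exact bl_pos n M s w x _ h.1 h.2.1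

variable {A : Type} {N : A → ℕ} {D : A → Prop} {Γ : List Ty} {ρ : A → Env Γ}
  {n w : A → ℕ} {M s : A → List ℤ}

theorem c_pl (h : Ms N D ρ n w M s) {x : A → ℕ} {p : A → ℤ} (hx : PN N D ρ x) (hp : PI N D ρ p)
    (hm : PA N D ρ (fun a => mx (n a) (M a) (s a) (w a) (x a))) :
    Cp N D ρ (fun τ a => wM τ (w a)) .arr (fun a => pl (n a) (M a) (s a) (w a) (p a) (x a)) := by
  have h1 := Cp.filter (q := fun a x' => gt (mx (n a) (M a) (s a) (w a) (x a)) x' ≠ 0 ∧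
      va (n a) (M a) (s a) (w a) (x a) x' = p a) (PN.mul h.p2 h.p2) fun Γ1 ρ1 up hv => by
    have g := h.up up
    exact PB.and (PB.ne (PI.get (up.a hm) hv) (PI.const 0)) (PB.eq (c_va g (up.n hx) hv) (up.i hp))
  exact h1.mono fun a _ τ hτ => wM_sq hτ (w a)

theorem c_bl (h : Ms N D ρ n w M s) {x y : A → ℕ} (hy : PN N D ρ y)
    (h1 : PA N D ρ (fun a => m1 (n a) (M a) (s a) (w a) (iC (n a) (x a)) (rA (n a) (x a))))
    (h2 : PA N D ρ (fun a => m2 (n a) (M a) (s a) (w a) (rA (n a) (x a / (16 * n a ^ 4 + 1))))) :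
    Cp N D ρ (fun _ a => ((2 ^ w a : ℕ) : ℝ) + 1) .arr
      (fun a => bl (n a) (M a) (s a) (w a) (x a) (y a)) :=
  Cp.filter (q := fun a b =>
      gt (m1 (n a) (M a) (s a) (w a) (iC (n a) (x a)) (rA (n a) (x a))) (y a / 2 ^ w a * 2 ^ w a + b) ≠ 0 ∧
      gt (m2 (n a) (M a) (s a) (w a) (rA (n a) (x a / (16 * n a ^ 4 + 1)))) (b * 2 ^ w a + y a % 2 ^ w a) ≠ 0)
    h.p2 fun Γ1 ρ1 up hv => by
    have g := h.up up
    exact PB.and (PB.ne (PI.get (up.a h1) (PN.add (PN.mul (PN.div (up.n hy) g.p2) g.p2) hv)) (PI.const 0))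
      (PB.ne (PI.get (up.a h2) (PN.add (PN.mul hv g.p2) (PN.mod (up.n hy) g.p2))) (PI.const 0))

theorem c_cd (h : Ms N D ρ n w M s) {x y b : A → ℕ} (hx : PN N D ρ x) (hy : PN N D ρ y)
    (hb : PN N D ρ b) : PN N D ρ (fun a => cd (n a) (s a) (w a) (x a) (y a) (b a)) :=
  PN.code h.hn h.bn (PA.lin 1 1 h.hn h.bn
    (c_bC h (c_iC h.hn hx) (PN.div hy h.p2) (PN.mod hy h.p2)) (c_pt h h.hw h.hw hb))

/-- The codes for one pair. -/
def cLy (n : ℕ) (M s : List ℤ) (w x y : ℕ) : List ℤ :=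
  tb (bl n M s w x y).length fun j => (cd n s w x y (gt (bl n M s w x y) j).toNat : ℤ)

theorem length_cLy (n : ℕ) (M s : List ℤ) (w x y : ℕ) :
    ((cLy n M s w x y).length : ℝ) ≤ ((2 ^ w : ℕ) : ℝ) + 1 := by
  unfold cLy
  rw [BE.length_tb]
  exact length_bl_leR n M s w x y

theorem c_cLy0 (h : Ms N D ρ n w M s) {x y : A → ℕ} (hx : PN N D ρ x) (hy : PN N D ρ y)
    (e : PA N D ρ (fun a => bl (n a) (M a) (s a) (w a) (x a) (y a))) :
    Cp N D ρ (fun _ a => ((2 ^ w a : ℕ) : ℝ) + 1) .arr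
      (fun a => cLy (n a) (M a) (s a) (w a) (x a) (y a)) := by
  have hb : Body N D ρ (fun a => (bl (n a) (M a) (s a) (w a) (x a) (y a)).length) one .int
      (fun a j => (cd (n a) (s a) (w a) (x a) (y a)
        (gt (bl (n a) (M a) (s a) (w a) (x a) (y a)) j).toNat : ℤ)) := by
    intro Γ7 ρ7 up hj
    exact c_cd (x := fun q : A × ℕ => x q.1) (y := fun q : A × ℕ => y q.1)
      (b := fun q : A × ℕ => (gt (bl (n q.1) (M q.1) (s q.1) (w q.1) (x q.1) (y q.1)) q.2).toNat)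
      (h.up up) (up.n hx) (up.n hy) (PN.toNat (PI.get (up.a e) hj))
  have h7 := Cp.tab (PN.len e) (fun _ _ _ _ => le_refl _) hb
  have h8 : Cp N D ρ (fun τ a => (((bl (n a) (M a) (s a) (w a) (x a) (y a)).length : ℝ) + 1) * one τ a)
      .arr (fun a => cLy (n a) (M a) (s a) (w a) (x a) (y a)) := h7
  refine h8.mono fun a _ τ _ => ?_
  simp only [one, mul_one]
  exact length_bl_leR1 (n a) (M a) (s a) (w a) (x a) (y a)

theorem c_cLy (h : Ms N D ρ n w M s) {x y : A → ℕ} (hx : PN N D ρ x) (hy : PN N D ρ y)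
    (h1 : PA N D ρ (fun a => m1 (n a) (M a) (s a) (w a) (iC (n a) (x a)) (rA (n a) (x a))))
    (h2 : PA N D ρ (fun a => m2 (n a) (M a) (s a) (w a) (rA (n a) (x a / (16 * n a ^ 4 + 1))))) :
    Cp N D ρ (fun _ a => ((2 ^ w a : ℕ) : ℝ) + 1) .arr
      (fun a => cLy (n a) (M a) (s a) (w a) (x a) (y a)) :=
  Cp.store (c_bl h hy h1 h2) fun _ _ k6 e6 => c_cLy0 (h.ke k6) (k6.n hx) (k6.n hy) e6

/-- The part of the list for one index. -/
def cLx (n : ℕ) (M s : List ℤ) (w : ℕ) (p : ℤ) (x : ℕ) : List ℤ :=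
  fm (pl n M s w p x).length fun i => cLy n M s w x (gt (pl n M s w p x) i).toNat

theorem length_cLx (n : ℕ) (M s : List ℤ) (w : ℕ) (p : ℤ) (x : ℕ) : ((cLx n M s w p x).length : ℝ) ≤
    (pl n M s w p x).length * (((2 ^ w : ℕ) : ℝ) + 1) := by
  have h1 : (cLx n M s w p x).length ≤ (pl n M s w p x).length * 2 ^ w := by
    unfold cLx
    rw [length_fm]
    calc _ ≤ ∑ _i ∈ range (pl n M s w p x).length, 2 ^ w := Finset.sum_le_sum fun i _ => by
          unfold cLy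
          rw [BE.length_tb]
          exact length_bl_le _ _ _ _ _ _
      _ = _ := by simp
  have h2 : ((cLx n M s w p x).length : ℝ) ≤ (((pl n M s w p x).length * 2 ^ w : ℕ) : ℝ) := by
    exact_mod_cast h1
  refine h2.trans ?_
  rw [Nat.cast_mul]
  have h3 : (0 : ℝ) ≤ (pl n M s w p x).length := Nat.cast_nonneg _
  nlinarith

theorem c_cLx (h : Ms N D ρ n w M s) {x : A → ℕ} {p : A → ℤ} (hx : PN N D ρ x) (hp : PI N D ρ p) :
    Cp N D ρ (fun τ a => wM τ (w a) + (pl (n a) (M a) (s a) (w a) (p a) (x a)).length *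
      (((2 ^ w a : ℕ) : ℝ) + 1)) .arr (fun a => cLx (n a) (M a) (s a) (w a) (p a) (x a)) := by
  simp only [cLx]
  have hl : ∀ a, D a → ∀ τ : ℝ, 2 ≤ τ → wM τ (w a) ≤
      wM τ (w a) + (pl (n a) (M a) (s a) (w a) (p a) (x a)).length * (((2 ^ w a : ℕ) : ℝ) + 1) := by
    intro a _ τ _
    have h3 : (0 : ℝ) ≤ (pl (n a) (M a) (s a) (w a) (p a) (x a)).length := Nat.cast_nonneg _
    have h4 := wM_base (w a)
    nlinarith
  refine Cp.store ((c_m1 h (c_iC h.hn hx) (c_rA h.hn hx)).mono hl) fun Γ1 ρ1 k1 e1 => ?_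
  replace h := h.ke k1
  replace hx := k1.n hx
  replace hp := k1.i hp
  refine Cp.store ((c_m2 h (c_rB h.hn hx)).mono hl) fun Γ2 ρ2 k2 e2 => ?_
  replace h := h.ke k2
  replace hx := k2.n hx
  replace hp := k2.i hp
  replace e1 := k2.a e1
  have hmm : Cp N D ρ2 (fun τ a => wM τ (w a)) .arr (fun a => mx (n a) (M a) (s a) (w a) (x a)) :=
    Cp.mm h.p2 e1 e2
  refine Cp.store (hmm.mono hl) fun Γ3 ρ3 k3 e3 => ?_
  replace h := h.ke k3
  replace hx := k3.n hx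
  replace hp := k3.i hp
  replace e1 := k3.a e1
  replace e2 := k3.a e2
  refine Cp.store ((c_pl h hx hp e3).mono hl) fun Γ4 ρ4 k4 e4 => ?_
  replace h := h.ke k4
  replace hx := k4.n hx
  replace e1 := k4.a e1
  replace e2 := k4.a e2
  have hb : BodyW N D ρ4 (fun a => (pl (n a) (M a) (s a) (w a) (p a) (x a)).length)
      (fun _ q => ((2 ^ w q.1 : ℕ) : ℝ) + 1) .arr
      (fun a i => cLy (n a) (M a) (s a) (w a) (x a)
          (gt (pl (n a) (M a) (s a) (w a) (p a) (x a)) i).toNat) := by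
    intro Γ5 ρ5 up hi
    exact c_cLy (x := fun q : A × ℕ => x q.1)
      (y := fun q : A × ℕ => (gt (pl (n q.1) (M q.1) (s q.1) (w q.1) (p q.1) (x q.1)) q.2).toNat)
      (h.up up) (up.n hx) (PN.toNat (PI.get (up.a e4) hi)) (up.a e1) (up.a e2)
  have h9 := Cp.cat (PN.len e4) hb ⟨0, fun a _ i _ τ _ => by
    rw [pow_zero, one_mul]
    exact length_cLy (n a) (M a) (s a) (w a) (x a) _⟩
  refine Cp.mono h9 fun a _ τ hτ => ?_
  have := one_le_wM hτ (w a)
  show 1 + ∑ _i ∈ range (pl (n a) (M a) (s a) (w a) (p a) (x a)).length,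
    (((2 ^ w a : ℕ) : ℝ) + 1) ≤ _
  rw [Finset.sum_const, Finset.card_range, nsmul_eq_mul]
  show 1 + ((pl (n a) (M a) (s a) (w a) (p a) (x a)).length : ℝ) * (((2 ^ w a : ℕ) : ℝ) + 1) ≤ _
  linarith

/-- The weight of the listing. -/
noncomputable def wL (τ : ℝ) (n : ℕ) (M s : List ℤ) (w : ℕ) (p : ℤ) : ℝ :=
  wX τ n s w + (cL n M s w p).length * ((2 ^ w : ℕ) : ℝ)

theorem one_le_wL {τ : ℝ} (hτ : 2 ≤ τ) (n : ℕ) (M s : List ℤ) (w : ℕ) (p : ℤ) :
    1 ≤ wL τ n M s w p := by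
  have h1 := one_le_wX hτ n s w
  have h2 : (0 : ℝ) ≤ (cL n M s w p).length * ((2 ^ w : ℕ) : ℝ) := by positivity
  unfold wL
  linarith

/-- Listing: program and running time. -/
theorem c_cL (h : Ms N D ρ n w M s) {p : A → ℤ} (hp : PI N D ρ p) :
    Cp N D ρ (fun τ a => wL τ (n a) (M a) (s a) (w a) (p a)) .arr
      (fun a => cL (n a) (M a) (s a) (w a) (p a)) := by
  have hb : BodyW N D ρ (fun a => nX (n a) (s a) (w a))
      (fun τ q => wM τ (w q.1) + (pl (n q.1) (M q.1) (s q.1) (w q.1) (p q.1) q.2).length *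
        (((2 ^ w q.1 : ℕ) : ℝ) + 1)) .arr (fun a x => cLx (n a) (M a) (s a) (w a) (p a) x) :=
    fun Γ1 ρ1 up hv => c_cLx (h.up up) hv (up.i hp)
  have h1 := Cp.cat (c_nX h) hb ⟨0, fun a _ x _ τ hτ => by
    rw [pow_zero, one_mul]
    have h2 := length_cLx (n a) (M a) (s a) (w a) (p a) x
    have h3 := one_le_wM hτ (w a)
    show ((cLx (n a) (M a) (s a) (w a) (p a) x).length : ℝ) ≤ wM τ (w a) +
      (pl (n a) (M a) (s a) (w a) (p a) x).length * (((2 ^ w a : ℕ) : ℝ) + 1)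
    linarith⟩
  obtain ⟨m, hm⟩ := nX_bd (w := w) (s := s) h.bn
  refine h1.mono_poly (m + 1) fun a ha τ hτ => ⟨one_le_wL hτ _ _ _ _ _, ?_⟩
  have h2 := hm a ha τ hτ
  have h3 : (∑ x ∈ range (nX (n a) (s a) (w a)), ((pl (n a) (M a) (s a) (w a) (p a) x).length : ℝ)) ≤
      (cL (n a) (M a) (s a) (w a) (p a)).length := by
    exact_mod_cast sum_pl_le (n a) (M a) (s a) (w a) (p a)
  have h4 : ∑ x ∈ range (nX (n a) (s a) (w a)), (wM τ (w a) +
      ((pl (n a) (M a) (s a) (w a) (p a) x).length : ℝ) * (((2 ^ w a : ℕ) : ℝ) + 1)) =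
      (nX (n a) (s a) (w a) : ℝ) * wM τ (w a) +
        (∑ x ∈ range (nX (n a) (s a) (w a)), ((pl (n a) (M a) (s a) (w a) (p a) x).length : ℝ)) *
          (((2 ^ w a : ℕ) : ℝ) + 1) := by
    rw [Finset.sum_add_distrib, Finset.sum_const, Finset.card_range, nsmul_eq_mul, Finset.sum_mul]
  show 1 + ∑ x ∈ range (nX (n a) (s a) (w a)), (wM τ (w a) +
      ((pl (n a) (M a) (s a) (w a) (p a) x).length : ℝ) * (((2 ^ w a : ℕ) : ℝ) + 1)) ≤ _
  rw [h4]
  have h5 := one_le_wM hτ (w a)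
  have h6 : (1 : ℝ) ≤ ((2 ^ w a : ℕ) : ℝ) := by exact_mod_cast Nat.one_le_two_pow
  have h7 : (0 : ℝ) ≤ (cL (n a) (M a) (s a) (w a) (p a)).length := Nat.cast_nonneg _
  have h8 : (∑ x ∈ range (nX (n a) (s a) (w a)), ((pl (n a) (M a) (s a) (w a) (p a) x).length : ℝ)) *
      (((2 ^ w a : ℕ) : ℝ) + 1) ≤
      (cL (n a) (M a) (s a) (w a) (p a)).length * (2 * ((2 ^ w a : ℕ) : ℝ)) :=
    mul_le_mul h3 (by linarith) (by linarith) h7
  have h9 : (0 : ℝ) ≤ N a := Nat.cast_nonneg _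
  have h10 : (1 : ℝ) ≤ ((N a : ℝ) + 2) ^ m := one_le_pow₀ (by linarith)
  have h11 := one_le_wX hτ (n a) (s a) (w a)
  unfold wL
  have h12 : (0 : ℝ) ≤ (cL (n a) (M a) (s a) (w a) (p a)).length * ((2 ^ w a : ℕ) : ℝ) := by positivity
  have h13 : 2 * ((cL (n a) (M a) (s a) (w a) (p a)).length * ((2 ^ w a : ℕ) : ℝ)) ≤
      ((N a : ℝ) + 2) ^ (m + 1) * ((cL (n a) (M a) (s a) (w a) (p a)).length * ((2 ^ w a : ℕ) : ℝ)) := by
    refine mul_le_mul_of_nonneg_right ?_ h12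
    rw [pow_succ]
    nlinarith
  have h14 : ((N a : ℝ) + 2) ^ m * wX τ (n a) (s a) (w a) ≤
      ((N a : ℝ) + 2) ^ (m + 1) * wX τ (n a) (s a) (w a) := by
    refine mul_le_mul_of_nonneg_right ?_ (by linarith)
    rw [pow_succ]
    nlinarith
  rw [mul_add]
  nlinarith

end Pool.Agent.MPa9445a.DB
end

section

/-! Matrix products: programs and running time of the maximization. -/

set_option autoImplicit false

open Finset

namespace Pool.Agent.MPa9445a.DB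

open Pool.Agent.MPa9445a.BE (Ty Env vs one Bd NL DL tb flt gt bit Phi vec code lin argmax matMul Bd.const
  Bd.add Bd.mul Bd.le Bd.up Bd.var Bd.self)
open Pool.Agent.MPa9445a.GD
open Pool.Agent.MPa9445a.GL (rk sv laL rhL lvv LL c_rk bd_rk c_sv c_laL c_rhL c_LL bd_LL c_lvv)

variable {A : Type} {N : A → ℕ} {D : A → Prop} {Γ : List Ty} {ρ : A → Env Γ}
  {n w : A → ℕ} {M s : A → List ℤ}

theorem c_bpr (h : Ms N D ρ n w M s) {x : A → ℕ} (hx : PN N D ρ x)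
    (hm : PA N D ρ (fun a => mx (n a) (M a) (s a) (w a) (x a))) :
    Cp N D ρ (fun τ a => wM τ (w a)) .int (fun a => (bpr (n a) (M a) (s a) (w a) (x a) : ℤ)) := by
  have hb : Body N D ρ (fun a => 2 ^ w a * 2 ^ w a) one .int (fun a x' =>
      if gt (mx (n a) (M a) (s a) (w a) (x a)) x' ≠ 0 then
        va (n a) (M a) (s a) (w a) (x a) x' + 32 * (n a : ℤ) ^ 4 else 0) := by
    intro Γ1 ρ1 up hv
    have g := h.up up
    have e1 := c_va (x := fun q : A × ℕ => x q.1) (y := fun q : A × ℕ => q.2) g (up.n hx) hv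
    exact Cp.ite (PB.ne (PI.get (up.a hm) hv) (PI.const 0))
      (PI.add e1 (PI.mul (PI.const 32) (PI.pow g.hn 4))) (PI.const 0)
  have h1 := Cp.amax (PN.mul h.p2 h.p2) (fun _ _ _ _ => le_refl _) hb
  have h2 : Cp N D ρ (fun τ a => (((2 ^ w a * 2 ^ w a : ℕ) : ℝ) + 1) * one τ a) .int
      (fun a => (bpr (n a) (M a) (s a) (w a) (x a) : ℤ)) := h1
  refine h2.mono fun a _ τ hτ => ?_
  simp only [one, mul_one]
  exact wM_sq hτ (w a)

theorem c_bc (h : Ms N D ρ n w M s) {x : A → ℕ} (hx : PN N D ρ x) :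
    Cp N D ρ (fun τ a => wM τ (w a)) .int (fun a => (bc (n a) (M a) (s a) (w a) (x a) : ℤ)) := by
  refine Cp.store (c_m1 h (c_iC h.hn hx) (c_rA h.hn hx)) fun Γ1 ρ1 k1 e1 => ?_
  replace h := h.ke k1
  replace hx := k1.n hx
  refine Cp.store (c_m2 h (c_rB h.hn hx)) fun Γ2 ρ2 k2 e2 => ?_
  replace h := h.ke k2
  replace hx := k2.n hx
  replace e1 := k2.a e1
  have hmm : Cp N D ρ2 (fun τ a => wM τ (w a)) .arr (fun a => mx (n a) (M a) (s a) (w a) (x a)) :=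
    Cp.mm h.p2 e1 e2
  refine Cp.store hmm fun Γ3 ρ3 k3 e3 => ?_
  replace h := h.ke k3
  replace hx := k3.n hx
  replace e1 := k3.a e1
  replace e2 := k3.a e2
  refine Cp.store (c_bpr h hx e3) fun Γ4 ρ4 k4 e4 => ?_
  replace h := h.ke k4
  replace hx := k4.n hx
  replace e1 := k4.a e1
  replace e2 := k4.a e2
  have hbl := (c_bl (y := fun a => bpr (n a) (M a) (s a) (w a) (x a)) h e4 e1 e2).mono
    fun a _ τ hτ => wM_lin hτ (w a)
  refine Cp.store hbl fun Γ5 ρ5 k5 e5 => ?_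
  replace h := h.ke k5
  replace hx := k5.n hx
  have e6 := c_cd (x := x) (y := fun a => bpr (n a) (M a) (s a) (w a) (x a))
    (b := fun a => (gt (bl (n a) (M a) (s a) (w a) (x a) (bpr (n a) (M a) (s a) (w a) (x a))) 0).toNat)
    h hx (k5.n e4) (PN.toNat (PI.get e5 (PN.const 0)))
  have e7 : PN N D ρ5 (fun a => bc (n a) (M a) (s a) (w a) (x a)) := e6
  exact e7.lift fun a _ τ hτ => one_le_wM hτ (w a)

/-- The value of the candidate of the index `x`. -/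
def bv (n : ℕ) (M s : List ℤ) (w x : ℕ) : ℤ := Phi n M (sv n s (bc n M s w x))

/-- The best index. -/
def bx (n : ℕ) (M s : List ℤ) (w : ℕ) : ℕ := argmax (nX n s w) fun x => bv n M s w x.toNat

theorem cB_eq (n : ℕ) (M s : List ℤ) (w : ℕ) : cB n M s w = bc n M s w (bx n M s w) := rfl

theorem c_bv (h : Ms N D ρ n w M s) {x : A → ℕ} (hx : PN N D ρ x) :
    Cp N D ρ (fun τ a => wM τ (w a)) .int (fun a => bv (n a) (M a) (s a) (w a) (x a)) := by
  refine Cp.store (c_bc h hx) fun Γ1 ρ1 k1 e1 => ?_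
  have g := h.ke k1
  have e2 : PI N D ρ1 (fun a => bv (n a) (M a) (s a) (w a) (x a)) :=
    PI.Phi g.hn g.bn g.hM (c_sv g.hn g.bn g.hs e1)
  exact e2.lift fun a _ τ hτ => one_le_wM hτ (w a)

theorem c_bx (h : Ms N D ρ n w M s) :
    Cp N D ρ (fun τ a => wX τ (n a) (s a) (w a)) .int (fun a => (bx (n a) (M a) (s a) (w a) : ℤ)) := by
  have hb : Body N D ρ (fun a => nX (n a) (s a) (w a)) (fun τ a => wM τ (w a)) .int
      (fun a x => bv (n a) (M a) (s a) (w a) x) := fun Γ1 ρ1 up hv => c_bv (h.up up) hv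
  have h1 := Cp.amax (c_nX h) (fun a _ τ hτ => one_le_wM hτ (w a)) hb
  have h2 : Cp N D ρ (fun τ a => ((nX (n a) (s a) (w a) : ℝ) + 1) * wM τ (w a)) .int
      (fun a => (bx (n a) (M a) (s a) (w a) : ℤ)) := h1
  obtain ⟨m, hm⟩ := nX_bd (w := w) (s := s) h.bn
  exact h2.mono_poly m fun a ha τ hτ => ⟨one_le_wX hτ _ _ _, hm a ha τ hτ⟩

/-- Maximizing: program and running time. -/
theorem c_cB (h : Ms N D ρ n w M s) :
    Cp N D ρ (fun τ a => wX τ (n a) (s a) (w a)) .int (fun a => (cB (n a) (M a) (s a) (w a) : ℤ)) := by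
  simp only [cB_eq]
  refine Cp.store (c_bx h) fun Γ1 ρ1 k1 e1 => ?_
  exact (c_bc (x := fun a => bx (n a) (M a) (s a) (w a)) (h.ke k1) e1).mono
    fun a _ τ hτ => wM_le_wX hτ _ _ _

end Pool.Agent.MPa9445a.DB
end
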