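import Pool.Agent.Lib.MP_a9445a_lc.Mg.G139
import Pool.Agent.Lib.MP_a9445a_lc.Mg.G143
import Pool.Agent.Lib.MP_a9445a_lc.Mg.G137
import Pool.Agent.Lib.MP_a9445a_lc.Mg.G140
import Pool.Agent.Lib.MP_a9445a_lc.Mg.G141

section

/-! The balanced differences (Lemma 3 of the paper). -/

set_option autoImplicit false

open Finset

namespace Pool.Agent.MPa9445a.DB

open Pool.Agent.MPa9445a.BE (gt bit tb flt lin Phi vec code argmax matMul)
open Pool.Agent.MPa9445a.GD (itr fm)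

variable {N q R Q j c x : ℕ} {y sh z : List ℤ}

/-- The contraction of the sum over the shifts. PROOF. `∑ p, ep * Cs`, exchange the sums, `ep_bp`. -/
theorem con_Cs : ∑ p ∈ range (N * N), ep N x p * Cs N q y R sh j R p c =
    2 ^ q * (∑ l ∈ range R, if gt y (xr q c (gt sh (j * R + l)).toNat) = 0 then 0 else
      ip N x (gt y (xr q c (gt sh (j * R + l)).toNat) - 1).toNat ^ 2) -
    R * ∑ p ∈ range (N * N), ep N x p * sp N q y p := by
  have h : ∀ p ∈ range (N * N), ep N x p * Cs N q y R sh j R p c =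
      ∑ l ∈ range R, (2 ^ q * (ep N x p * bp N y p (xr q c (gt sh (j * R + l)).toNat)) -
        ep N x p * sp N q y p) := by
    intro p _
    unfold Cs bb
    rw [mul_sum]
    exact sum_congr rfl fun l _ => by ring
  rw [sum_congr rfl h, sum_comm, mul_sum]
  have h2 : ∀ l ∈ range R, ∑ p ∈ range (N * N),
      (2 ^ q * (ep N x p * bp N y p (xr q c (gt sh (j * R + l)).toNat)) - ep N x p * sp N q y p) =
      2 ^ q * (if gt y (xr q c (gt sh (j * R + l)).toNat) = 0 then 0 else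
      ip N x (gt y (xr q c (gt sh (j * R + l)).toNat) - 1).toNat ^ 2) -
      ∑ p ∈ range (N * N), ep N x p * sp N q y p := by
    intro l _
    rw [sum_sub_distrib, ← mul_sum, ep_bp]
  rw [sum_congr rfl h2, sum_sub_distrib, sum_const, card_range, nsmul_eq_mul]

/-- The contraction of the sum over the centers. -/
theorem con_dev : ∑ p ∈ range (N * N), ep N x p * dev N q y z p =
    (hl q y).length * (∑ l ∈ range z.length, if gt y (gt z l).toNat = 0 then 0 else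
      ip N x (gt y (gt z l).toNat - 1).toNat ^ 2) -
    z.length * ∑ p ∈ range (N * N), ep N x p * sp N q y p := by
  have h : ∀ p ∈ range (N * N), ep N x p * dev N q y z p =
      ∑ l ∈ range z.length, (((hl q y).length : ℤ) * (ep N x p * bp N y p (gt z l).toNat) -
        ep N x p * sp N q y p) := by
    intro p _
    unfold dev
    rw [mul_sum]
    exact sum_congr rfl fun l _ => by ring
  rw [sum_congr rfl h, sum_comm, mul_sum]
  have h2 : ∀ l ∈ range z.length, ∑ p ∈ range (N * N),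
      (((hl q y).length : ℤ) * (ep N x p * bp N y p (gt z l).toNat) - ep N x p * sp N q y p) =
      (hl q y).length * (if gt y (gt z l).toNat = 0 then 0 else
      ip N x (gt y (gt z l).toNat - 1).toNat ^ 2) -
      ∑ p ∈ range (N * N), ep N x p * sp N q y p := by
    intro l _
    rw [sum_sub_distrib, ← mul_sum, ep_bp]
  rw [sum_congr rfl h2, sum_sub_distrib, sum_const, card_range, nsmul_eq_mul]

private theorem B2_bp0 (N : ℕ) (y : List ℤ) (s : ℕ) : bp N y 0 s = if gt y s = 0 then 0 else 1 := by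
  unfold bp
  split_ifs
  · rfl
  · rw [Nat.zero_div, Nat.zero_mod]
    rcases bit_01 (gt y s - 1).toNat 0 with h | h <;> rw [h] <;> norm_num

/-- The number of hits. PROOF. The entry `p = 0` of `Cs` (`bp … 0 s = 1` for a hit class, `0` otherwise, `N ≥ 1`). -/
theorem hits (hN : 0 < N) : Cs N q y R sh j R 0 c =
    2 ^ q * (∑ l ∈ range R, if gt y (xr q c (gt sh (j * R + l)).toNat) = 0 then 0 else 1) -
      R * (hl q y).length := by
  have h0 : sp N q y 0 = (hl q y).length := by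
    unfold sp
    rw [hl_len, card_filter, Nat.cast_sum]
    refine sum_congr rfl fun s _ => ?_
    rw [B2_bp0]
    by_cases h1 : gt y s = 0 <;> simp [h1]
  unfold Cs bb
  rw [h0, sum_sub_distrib, mul_sum, sum_const, card_range, nsmul_eq_mul]
  congr 1
  exact sum_congr rfl fun l _ => by rw [B2_bp0]

/-- The numbers of Lemma 3. -/
private theorem B2_num (P R h n Q A B C Z : ℝ) (hP : 0 < P) (hn : 1 ≤ n) (hR0 : 0 ≤ R) (hh : 0 ≤ h)
    (hQ : (10 : ℝ) ^ 16 ≤ Q)
    (e1 : (P * A - R * h) ^ 2 ≤ 2 * R * (P * n) ^ 2)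
    (e2 : (P * B - R * Z) ^ 2 ≤ n ^ 2 * (2 * R * (P * n) ^ 2))
    (e3 : (h * C - Q * Z) ^ 2 ≤ n ^ 2 * (Q * (h * n) ^ 2))
    (e4 : 10 ^ 8 * C ≤ Q * (9 * n ^ 2))
    (e5 : 16 * n ^ 2 * A ≤ 10 ^ 8 * B)
    (e6 : (10 ^ 9 * n * P) ^ 2 ≤ R * h ^ 2) : False := by
  have hn0 : (0 : ℝ) < n := by linarith
  have hQ0 : (0 : ℝ) < Q := lt_of_lt_of_le (by positivity) hQ
  have hpos : 0 < R * h ^ 2 := lt_of_lt_of_le (by positivity) e6
  have hRp : 0 < R := by
    rcases hR0.lt_or_eq with h1 | h1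
    · exact h1
    · rw [← h1] at hpos; simp at hpos
  have hhp : 0 < h := by
    rcases hh.lt_or_eq with h1 | h1
    · exact h1
    · rw [← h1] at hpos; simp at hpos
  set s := Real.sqrt (2 * R) with hs
  have hs0 : 0 ≤ s := Real.sqrt_nonneg _
  have hs2 : s ^ 2 = 2 * R := Real.sq_sqrt (by positivity)
  set X := s * (P * n) with hX
  have hX0 : 0 ≤ X := by positivity
  have hX2 : X ^ 2 = 2 * R * (P * n) ^ 2 := by rw [hX, mul_pow, hs2]
  have f1 : |P * A - R * h| ≤ X := abs_le_of_sq_le_sq (by rw [hX2]; exact e1) hX0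
  have f2 : |P * B - R * Z| ≤ n * X :=
    abs_le_of_sq_le_sq (by rw [mul_pow, hX2]; exact e2) (by positivity)
  set w := Real.sqrt Q with hw
  have hw0 : 0 ≤ w := Real.sqrt_nonneg _
  have hw2 : w ^ 2 = Q := Real.sq_sqrt hQ0.le
  have hw8 : (10 : ℝ) ^ 8 ≤ w := by
    rw [hw]
    refine Real.le_sqrt_of_sq_le ?_
    calc ((10 : ℝ) ^ 8) ^ 2 = 10 ^ 16 := by norm_num
      _ ≤ Q := hQ
  have f3 : |h * C - Q * Z| ≤ n * (w * (h * n)) :=
    abs_le_of_sq_le_sq (by rw [mul_pow, mul_pow, hw2]; exact e3) (by positivity)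
  -- the bound of X
  have f4 : 10 ^ 9 * X ≤ 2 * (R * h) := by
    have h1 : (10 ^ 9 * X) ^ 2 ≤ (2 * (R * h)) ^ 2 := by
      have h2 : (10 ^ 9 * X) ^ 2 = 2 * R * (10 ^ 9 * n * P) ^ 2 := by rw [mul_pow, hX2]; ring
      rw [h2]
      have h3 : 2 * R * (10 ^ 9 * n * P) ^ 2 ≤ 2 * R * (R * h ^ 2) :=
        mul_le_mul_of_nonneg_left e6 (by positivity)
      have h4 : 0 ≤ R ^ 2 * h ^ 2 := by positivity
      nlinarith [h3, h4]
    exact (abs_le_of_sq_le_sq h1 (by positivity)) |> fun h => (le_abs_self _).trans h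
  -- the bound of Z
  have f5 : 10 ^ 7 * Z ≤ h * n ^ 2 := by
    have h1 : Q * Z ≤ h * C + n * (w * (h * n)) := by
      have := (abs_le.1 f3).1
      linarith
    have h2 : 10 ^ 8 * (h * C) ≤ h * (Q * (9 * n ^ 2)) := by
      have := mul_le_mul_of_nonneg_left e4 hhp.le
      linarith
    have h3 : 10 ^ 8 * w ≤ Q := by
      rw [← hw2, sq]
      exact mul_le_mul_of_nonneg_right hw8 hw0
    have h4 : 10 ^ 8 * (n * (w * (h * n))) ≤ Q * (h * n ^ 2) := by
      have h5 : 0 ≤ h * n ^ 2 := by positivity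
      have := mul_le_mul_of_nonneg_right h3 h5
      calc 10 ^ 8 * (n * (w * (h * n))) = 10 ^ 8 * w * (h * n ^ 2) := by ring
        _ ≤ _ := this
    have h6 : Q * (10 ^ 8 * Z) ≤ Q * (10 * (h * n ^ 2)) := by
      calc Q * (10 ^ 8 * Z) = 10 ^ 8 * (Q * Z) := by ring
        _ ≤ 10 ^ 8 * (h * C + n * (w * (h * n))) := by linarith
        _ = 10 ^ 8 * (h * C) + 10 ^ 8 * (n * (w * (h * n))) := by ring
        _ ≤ h * (Q * (9 * n ^ 2)) + Q * (h * n ^ 2) := add_le_add h2 h4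
        _ = Q * (10 * (h * n ^ 2)) := by ring
    have h7 := le_of_mul_le_mul_left h6 hQ0
    linarith
  have g1 : R * h - X ≤ P * A := by have := (abs_le.1 f1).1; linarith
  have g2 : P * B ≤ R * Z + n * X := by have := (abs_le.1 f2).2; linarith
  have g3 : 16 * n ^ 2 * (R * h - X) ≤ 10 ^ 8 * (R * Z + n * X) := by
    calc 16 * n ^ 2 * (R * h - X) ≤ 16 * n ^ 2 * (P * A) := mul_le_mul_of_nonneg_left g1 (by positivity)
      _ = P * (16 * n ^ 2 * A) := by ring
      _ ≤ P * (10 ^ 8 * B) := mul_le_mul_of_nonneg_left e5 hP.le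
      _ = 10 ^ 8 * (P * B) := by ring
      _ ≤ _ := by linarith
  have g4 : 10 ^ 8 * (R * Z) ≤ 10 * (n ^ 2 * (R * h)) := by
    have := mul_le_mul_of_nonneg_left f5 hRp.le
    nlinarith [this]
  have g5 : n * X ≤ n ^ 2 * X := by
    have h1 : n ≤ n ^ 2 := by nlinarith
    exact mul_le_mul_of_nonneg_right h1 hX0
  have g6 : n ^ 2 * (10 ^ 9 * X) ≤ n ^ 2 * (2 * (R * h)) := mul_le_mul_of_nonneg_left f4 (by positivity)
  have g7 : 0 < n ^ 2 * (R * h) := by positivity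
  nlinarith [g3, g4, g5, g6, g7]

/-- LEMMA 3. PROOF. Over the reals. `h = (hl q y).length`, `X ^ 2 = ∑ p, Cs ^ 2 ≤ 2 R (2 ^ q N) ^ 2`, so `X ≤ 2 * 10 ^ (-9) * R h` by `hR`.
Let `Z = ∑ p, ep * sp`. By `con_dev` and `ep_le`: `Q * Z ≤ h Q (3 N / 10000) ^ 2 + N * √Q * h N`, so
`Z ≤ h N ^ 2 (9 * 10 ^ (-8) + 10 ^ (-8))` by `hQ`. If all hits had `10000 |ip| > 4 N` then by `con_Cs`, `ep_le`, `hits`:
`(R h - X) * 16 * 10 ^ (-8) N ^ 2 ≤ 2 ^ q ∑ ip ^ 2 ≤ R Z + N X`, and there is a hit since `R h > X`, a contradiction. -/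
theorem bal (hN : 0 < N) (hQ : 10 ^ 16 ≤ Q) (hz : z.length = Q)
    (hd : ∑ p ∈ range (N * N), dev N q y z p ^ 2 ≤ Q * ((hl q y).length * N) ^ 2)
    (hR : (10 ^ 9 * N * 2 ^ q) ^ 2 ≤ R * (hl q y).length ^ 2)
    (hn : nr N q y R sh j c ≤ 2 * R * (2 ^ q * N) ^ 2)
    (hc : ∀ l < Q, gt y (gt z l).toNat ≠ 0 →
      10000 * |ip N x (gt y (gt z l).toNat - 1).toNat| ≤ 3 * N) :
    ∃ i < R, gt y (xr q c (gt sh (j * R + i)).toNat) ≠ 0 ∧
      10000 * |ip N x (gt y (xr q c (gt sh (j * R + i)).toNat) - 1).toNat| ≤ 4 * N := by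
  by_contra hcon
  push Not at hcon
  set h : ℤ := ((hl q y).length : ℤ) with hh
  set Z : ℤ := ∑ p ∈ range (N * N), ep N x p * sp N q y p with hZ
  set A : ℤ := ∑ l ∈ range R, if gt y (xr q c (gt sh (j * R + l)).toNat) = 0 then 0 else 1 with hA
  set B : ℤ := ∑ l ∈ range R, if gt y (xr q c (gt sh (j * R + l)).toNat) = 0 then 0 else
      ip N x (gt y (xr q c (gt sh (j * R + l)).toNat) - 1).toNat ^ 2 with hB
  set C : ℤ := ∑ l ∈ range z.length, if gt y (gt z l).toNat = 0 then 0 else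
      ip N x (gt y (gt z l).toNat - 1).toNat ^ 2 with hC
  have hn' : ∑ p ∈ range (N * N), Cs N q y R sh j R p c ^ 2 ≤ 2 * R * (2 ^ q * N) ^ 2 := hn
  have e1 : ((2 : ℤ) ^ q * A - R * h) ^ 2 ≤ 2 * R * (2 ^ q * N) ^ 2 := by
    have h0 := hits (q := q) (R := R) (j := j) (c := c) (y := y) (sh := sh) hN
    rw [← hA, ← hh] at h0
    rw [← h0]
    refine le_trans ?_ hn'
    exact single_le_sum (f := fun p => Cs N q y R sh j R p c ^ 2) (fun p _ => sq_nonneg _)
      (mem_range.2 (Nat.mul_pos hN hN))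
  have e2 : ((2 : ℤ) ^ q * B - R * Z) ^ 2 ≤ N ^ 2 * (2 * R * (2 ^ q * N) ^ 2) := by
    have h0 := con_Cs (N := N) (q := q) (R := R) (j := j) (c := c) (y := y) (sh := sh) (x := x)
    rw [← hB, ← hZ] at h0
    rw [← h0]
    exact (ep_le N x _).trans (mul_le_mul_of_nonneg_left hn' (by positivity))
  have e3 : (h * C - Q * Z) ^ 2 ≤ N ^ 2 * (Q * (h * N) ^ 2) := by
    have h0 := con_dev (N := N) (q := q) (y := y) (z := z) (x := x)
    rw [← hC, ← hZ, ← hh, hz] at h0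
    rw [← h0]
    exact (ep_le N x _).trans (mul_le_mul_of_nonneg_left hd (by positivity))
  have e4 : 10 ^ 8 * C ≤ Q * (9 * (N : ℤ) ^ 2) := by
    rw [hC, hz, mul_sum]
    have h1 : ∀ l ∈ range Q, (10 : ℤ) ^ 8 * (if gt y (gt z l).toNat = 0 then 0 else
        ip N x (gt y (gt z l).toNat - 1).toNat ^ 2) ≤ 9 * (N : ℤ) ^ 2 := by
      intro l hl
      split_ifs with h2
      · simp only [mul_zero]; positivity
      · have h3 := hc l (mem_range.1 hl) h2
        set t := ip N x (gt y (gt z l).toNat - 1).toNat with ht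
        have h4 : (10000 * |t|) ^ 2 ≤ (3 * (N : ℤ)) ^ 2 :=
          pow_le_pow_left₀ (by positivity) h3 2
        rw [mul_pow, sq_abs] at h4
        calc (10 : ℤ) ^ 8 * t ^ 2 = 10000 ^ 2 * t ^ 2 := by norm_num
          _ ≤ _ := h4
          _ = _ := by ring
    refine (sum_le_sum h1).trans (le_of_eq ?_)
    rw [sum_const, card_range, nsmul_eq_mul]
  have e5 : 16 * (N : ℤ) ^ 2 * A ≤ 10 ^ 8 * B := by
    rw [hA, hB, mul_sum, mul_sum]
    refine sum_le_sum fun l hl => ?_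
    split_ifs with h2
    · simp
    · have h3 := hcon l (mem_range.1 hl) h2
      set t := ip N x (gt y (xr q c (gt sh (j * R + l)).toNat) - 1).toNat with ht
      have h4 : (4 * (N : ℤ)) ^ 2 ≤ (10000 * |t|) ^ 2 := pow_le_pow_left₀ (by positivity) h3.le 2
      rw [mul_pow, mul_pow, sq_abs] at h4
      linarith
  have hRr : ((10 : ℝ) ^ 9 * N * 2 ^ q) ^ 2 ≤ R * ((hl q y).length : ℝ) ^ 2 := by exact_mod_cast hR
  have hhr : ((h : ℤ) : ℝ) = ((hl q y).length : ℝ) := by rw [hh]; simp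
  refine B2_num (2 ^ q) R h N Q A B C Z (by positivity) (by exact_mod_cast hN) (by positivity)
    (by rw [hhr]; positivity) (by exact_mod_cast hQ) (by exact_mod_cast e1) (by exact_mod_cast e2)
    (by exact_mod_cast e3) (by exact_mod_cast e4) (by exact_mod_cast e5) (by rw [hhr]; exact hRr)

end Pool.Agent.MPa9445a.DB
end

section

/-! The sets `D` of a region: the interface to the rounds. -/

set_option autoImplicit false

open Finset

namespace Pool.Agent.MPa9445a.DB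

open Pool.Agent.MPa9445a.BE (gt bit tb flt lin Phi vec code argmax matMul wtm)
open Pool.Agent.MPa9445a.GD (itr fm)
open Pool.Agent.MPa9445a.GL (rk sv laL rhL lvv LL Wb Vc S St Ph lvl)

variable {n : ℕ} {M : List ℤ} {a : ℕ}

/-- The code of the center number `l`. -/
def ctr (n : ℕ) (M : List ℤ) (a l : ℕ) : ℕ := (gt (yy n M a) (gt (cc n M a) l).toNat - 1).toNat

/-- The set with index `κ` for the shift `i`. -/
def ds (n : ℕ) (M : List ℤ) (a i κ : ℕ) : ℕ := (gt (dl n M a i) κ).toNat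

/-- The sets. PROOF. `SN.flt_gt`. -/
theorem ds_spec {i κ : ℕ} (h : κ < (dl n M a i).length) : ds n M a i κ < 2 ^ nJ n ∧
    (lab n M a (ds n M a i κ) : ℤ) = gt (ss n M a) i ∧
    4998 * nJ n ≤ 10000 * sz n (ds n M a i κ) ∧ 10000 * sz n (ds n M a i κ) ≤ 5002 * nJ n := by
  obtain ⟨h1, h2, -⟩ := SN.flt_gt (k := 2 ^ nJ n) (fun z =>
    (lb (nJ n) (vv n M a) z (nJ n - qq n M a) : ℤ) = gt (ss n M a) i ∧
    4998 * nJ n ≤ 10000 * sz n z ∧ 10000 * sz n z ≤ 5002 * nJ n) h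
  exact ⟨h1, h2.1, h2.2.1, h2.2.2⟩

/-- PROOF. `SN.flt_inj`. -/
theorem ds_inj {i κ κ' : ℕ} (h : κ < (dl n M a i).length) (h' : κ' < (dl n M a i).length)
    (he : ds n M a i κ = ds n M a i κ') : κ = κ' :=
  SN.flt_inj (k := 2 ^ nJ n) (fun z =>
    (lb (nJ n) (vv n M a) z (nJ n - qq n M a) : ℤ) = gt (ss n M a) i ∧
    4998 * nJ n ≤ 10000 * sz n z ∧ 10000 * sz n z ≤ 5002 * nJ n) h h' he

private theorem B3_ss {i : ℕ} (hi : i < nS n M a) :
    (gt (ss n M a) i).toNat < 2 ^ qq n M a ∧ 0 ≤ gt (ss n M a) i :=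
  sl_lt (nJ n) (qq n M a) (yy n M a) (R1 n) hi

private theorem B3_lab {i κ : ℕ} (h : κ < (dl n M a i).length) :
    lab n M a (ds n M a i κ) = (gt (ss n M a) i).toNat := by
  have h1 := (ds_spec h).2.1
  rw [← h1, Int.toNat_natCast]

/-- PROOF. `ds_spec`, `ds_inj`, `lab_card` (`gt (ss …) i < 2 ^ qq` by `sl_lt`). -/
theorem dl_len {i : ℕ} (hi : i < nS n M a) : (dl n M a i).length ≤ 2 ^ (nJ n - qq n M a) := by
  rw [← lab_card (B3_ss hi).1, ← Finset.card_range (dl n M a i).length]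
  refine Finset.card_le_card_of_injOn (fun κ => ds n M a i κ) ?_ ?_
  · intro κ hκ
    have hκ' : κ < (dl n M a i).length := Finset.mem_range.1 (Finset.mem_coe.1 hκ)
    exact Finset.mem_coe.2 (Finset.mem_filter.2 ⟨Finset.mem_range.2 (ds_spec hκ').1, B3_lab hκ'⟩)
  · intro κ hκ κ' hκ' he
    exact ds_inj (Finset.mem_range.1 (Finset.mem_coe.1 hκ))
      (Finset.mem_range.1 (Finset.mem_coe.1 hκ')) he

/-- The loads. PROOF. The class of `xr z (ds … κ)` is `xr q (lab z) (ss i)`, the same for all `κ`; `load_K`; `κ ↦ xr z (ds … κ)` is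
injective. -/
theorem load_ds {i z : ℕ} (hi : i < nS n M a) (hz : z < 2 ^ nJ n) :
    ((range (dl n M a i).length).filter fun κ =>
      tt n M a ≤ fz n M a (xr (nJ n) z (ds n M a i κ))).card ≤ nJ n + 2 := by
  refine le_trans ?_ (load_K (n := n) (M := M) (a := a)
    (c := xr (qq n M a) (lab n M a z) (gt (ss n M a) i).toNat) (xr_lt _ _ _))
  refine Finset.card_le_card_of_injOn (fun κ => xr (nJ n) z (ds n M a i κ)) ?_ ?_
  · intro κ hκ
    obtain ⟨hκ1, hκ2⟩ := Finset.mem_filter.1 (Finset.mem_coe.1 hκ)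
    have hκ' : κ < (dl n M a i).length := Finset.mem_range.1 hκ1
    refine Finset.mem_coe.2 (Finset.mem_filter.2 ⟨Finset.mem_range.2 (xr_lt _ _ _), ?_, hκ2⟩)
    change lab n M a (xr (nJ n) z (ds n M a i κ)) = _
    rw [lab_xr hz (ds_spec hκ').1, B3_lab hκ']
  · intro κ hκ κ' hκ' he
    have h1 : κ < (dl n M a i).length :=
      Finset.mem_range.1 (Finset.mem_filter.1 (Finset.mem_coe.1 hκ)).1
    have h2 : κ' < (dl n M a i).length :=
      Finset.mem_range.1 (Finset.mem_filter.1 (Finset.mem_coe.1 hκ')).1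
    refine ds_inj h1 h2 ?_
    have he' : xr (nJ n) z (ds n M a i κ) = xr (nJ n) z (ds n M a i κ') := he
    rw [xr_comm (nJ n) z, xr_comm (nJ n) z] at he'
    rw [← xr_cancel (ds_spec h1).1 z, he', xr_cancel (ds_spec h2).1 z]

/-- Every vector `z` is correlated with a center or has a balanced difference with a vector of level `t` which is listed. PROOF. `c = lab z`;
`sl_good`: round `j`; `bal` (`B2`) with `Q = n`, `cl_good`, `cl_len`, `R1_ge`; `yy_spec`: the representative is `z' + 1`, `lab z' = xr q c s`;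
`D = xr z z'` has `lab D = s`, size `(nJ - ip) / 2` by `ip_xr`, so it is in the list `dl (j * R1 + i)`. -/
theorem bal_ds (hn : 10 ^ 16 ≤ n) (hM : ∀ x ∈ M, |x| ≤ 1) {z : ℕ} (hz : z < 2 ^ nJ n) :
    (∃ l < n, 3 * (nJ n : ℤ) < 10000 * |ip (nJ n) z (ctr n M a l)|) ∨
      ∃ i < nS n M a, ∃ κ < (dl n M a i).length,
        fz n M a (xr (nJ n) z (ds n M a i κ)) = tt n M a := by
  by_cases hc : ∃ l < n, 3 * (nJ n : ℤ) < 10000 * |ip (nJ n) z (ctr n M a l)|
  · exact Or.inl hc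
  refine Or.inr ?_
  push Not at hc
  obtain ⟨j, hj, hnr⟩ := sl_good (nJ n) (qq n M a) (yy n M a) (R1 n) (lab_lt (M := M) (a := a) hz)
  have hpos := hl_pos (n := n) (M := M) (a := a) hn hM
  obtain ⟨i, hi, hy, hip⟩ := bal (N := nJ n) (q := qq n M a) (R := R1 n) (Q := n) (j := j)
    (c := lab n M a z) (x := z) (y := yy n M a)
    (sh := sl (nJ n) (qq n M a) (yy n M a) (R1 n) ((qq n M a + 1) * R1 n))
    (z := cl (nJ n) (qq n M a) (yy n M a) n) (nJ_pos hn) hn (cl_len _ _ _ _)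
    (cl_good (nJ n) (qq n M a) (yy n M a) n hpos) (R1_ge hn hM) hnr (fun l hl _ => hc l hl)
  set u : ℕ := j * R1 n + i with hu
  have hu1 : u < nS n M a := by
    have h1 : (j + 1) * R1 n ≤ (qq n M a + 1) * R1 n := Nat.mul_le_mul_right _ (by omega)
    have h2 : (j + 1) * R1 n = j * R1 n + R1 n := by ring
    unfold nS
    omega
  set s : ℕ := (gt (ss n M a) u).toNat with hs
  have hs1 : s < 2 ^ qq n M a := (B3_ss hu1).1
  have hy' : gt (yy n M a) (xr (qq n M a) (lab n M a z) s) ≠ 0 := hy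
  have hip' : 10000 * |ip (nJ n) z (gt (yy n M a) (xr (qq n M a) (lab n M a z) s) - 1).toNat| ≤
      4 * (nJ n : ℤ) := hip
  rcases yy_spec (n := n) (M := M) (a := a) (xr_lt (qq n M a) (lab n M a z) s) with h | h
  · exact absurd h.1 hy'
  obtain ⟨z', hz', hl', ht', hg'⟩ := h
  rw [hg', add_sub_cancel_right, Int.toNat_natCast] at hip'
  -- the set
  have hD : xr (nJ n) z z' < 2 ^ nJ n := xr_lt _ _ _
  have hlab : lab n M a (xr (nJ n) z z') = s := by
    rw [lab_xr hz hz', hl', ← xr_assoc, xr_self, xr_comm, xr_zero hs1]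
  have hsz : ip (nJ n) z z' = nJ n - 2 * (sz n (xr (nJ n) z z') : ℤ) := by
    rw [ip_xr]
    unfold sz
    push_cast
    ring
  rw [hsz] at hip'
  have hb1 : 4998 * nJ n ≤ 10000 * sz n (xr (nJ n) z z') := by
    have h1 := le_abs_self ((nJ n : ℤ) - 2 * (sz n (xr (nJ n) z z') : ℤ))
    have h2 : (4998 : ℤ) * nJ n ≤ 10000 * sz n (xr (nJ n) z z') := by linarith
    exact_mod_cast h2
  have hb2 : 10000 * sz n (xr (nJ n) z z') ≤ 5002 * nJ n := by
    have h1 := neg_abs_le ((nJ n : ℤ) - 2 * (sz n (xr (nJ n) z z') : ℤ))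
    have h2 : (10000 : ℤ) * sz n (xr (nJ n) z z') ≤ 5002 * nJ n := by linarith
    exact_mod_cast h2
  have hq : (lb (nJ n) (vv n M a) (xr (nJ n) z z') (nJ n - qq n M a) : ℤ) = gt (ss n M a) u ∧
      4998 * nJ n ≤ 10000 * sz n (xr (nJ n) z z') ∧
      10000 * sz n (xr (nJ n) z z') ≤ 5002 * nJ n := by
    refine ⟨?_, hb1, hb2⟩
    change ((lab n M a (xr (nJ n) z z') : ℕ) : ℤ) = _
    rw [hlab, hs, Int.toNat_of_nonneg (B3_ss hu1).2]
  obtain ⟨κ, hκ1, -, hκ2⟩ := SN.flt_pos (k := 2 ^ nJ n) (fun z =>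
    (lb (nJ n) (vv n M a) z (nJ n - qq n M a) : ℤ) = gt (ss n M a) u ∧
    4998 * nJ n ≤ 10000 * sz n z ∧ 10000 * sz n z ≤ 5002 * nJ n) hD hq
  refine ⟨u, hu1, κ, hκ1, ?_⟩
  have hds : ds n M a u κ = xr (nJ n) z z' := by
    have h1 : gt (dl n M a u) κ = ((xr (nJ n) z z' : ℕ) : ℤ) := hκ2
    unfold ds
    rw [h1, Int.toNat_natCast]
  rw [hds, ← xr_assoc, xr_self, xr_comm, xr_zero hz', ht']

/-- The centers are vectors of the region (not needed for the bound, only for the digits). -/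
theorem ctr_lt (hn : 10 ^ 16 ≤ n) (hM : ∀ x ∈ M, |x| ≤ 1) {l : ℕ} (hl : l < n) :
    ctr n M a l < 2 ^ nJ n := by
  obtain ⟨s, hs, hy, hg⟩ := cl_get (nJ n) (qq n M a) (yy n M a) (hl_pos (n := n) (M := M) (a := a) hn hM) hl
  have hg' : gt (cc n M a) l = (s : ℤ) := hg
  unfold ctr
  rw [hg', Int.toNat_natCast]
  rcases yy_spec (n := n) (M := M) (a := a) hs with h | h
  · exact absurd h.1 hy
  obtain ⟨z', hz', -, -, hg1⟩ := h
  rw [hg1, add_sub_cancel_right, Int.toNat_natCast]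
  exact hz'

end Pool.Agent.MPa9445a.DB
end

section

/-! The number of pairs of a set: ranks, weights, program. -/

set_option autoImplicit false

open Finset

namespace Pool.Agent.MPa9445a.DB

open Pool.Agent.MPa9445a.BE (Ty Env vs one Bd NL DL tb flt gt bit Phi vec code lin argmax matMul Bd.const
  Bd.add Bd.mul Bd.le Bd.up Bd.var Bd.self)
open Pool.Agent.MPa9445a.GD
open Pool.Agent.MPa9445a.GL (rk sv laL rhL lvv LL c_rk bd_rk c_sv c_laL c_rhL c_LL bd_LL c_lvv)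

/-- The maximal number of free vertices of a part. -/
def mB (n : ℕ) : ℕ := 5002 * nJ n / 10000

theorem w0_eq (n : ℕ) : w0 n = wc (mB n) := rfl

/-- The weight of counting. -/
noncomputable def wD (τ : ℝ) (n : ℕ) : ℝ := (2 : ℝ) ^ (6106 * mB n / 10000 + 4) * wM τ (w0 n)

/-- The weight of maximizing. -/
noncomputable def wY (τ : ℝ) (n : ℕ) : ℝ := wM τ (mB n / 3)

theorem one_le_wD {τ : ℝ} (hτ : 2 ≤ τ) (n : ℕ) : 1 ≤ wD τ n := by
  have h1 : (1 : ℝ) ≤ (2 : ℝ) ^ (6106 * mB n / 10000 + 4) := one_le_pow₀ (by norm_num)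
  have h2 := one_le_wM hτ (w0 n)
  unfold wD
  nlinarith

theorem one_le_wY {τ : ℝ} (hτ : 2 ≤ τ) (n : ℕ) : 1 ≤ wY τ n := one_le_wM hτ _

theorem wX_le_wD {τ : ℝ} (hτ : 2 ≤ τ) {n : ℕ} {s : List ℤ} (h : rk s n ≤ mB n) :
    wX τ n s (wc (rk s n)) ≤ wD τ n := by
  have h1 : wc (rk s n) ≤ w0 n := by
    rw [w0_eq]
    unfold wc
    exact Nat.div_le_div_right (by omega)
  have h2 : rk s n - 3 * wc (rk s n) ≤ 6106 * mB n / 10000 + 4 := by
    unfold wc
    omega
  have h3 : (2 : ℝ) ^ (rk s n - 3 * wc (rk s n)) ≤ (2 : ℝ) ^ (6106 * mB n / 10000 + 4) :=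
    pow_le_pow_right₀ (by norm_num) h2
  have h4 := wM_mono hτ h1
  have h5 := one_le_wM hτ (wc (rk s n))
  unfold wX wD
  exact mul_le_mul h3 h4 (by linarith) (by positivity)

theorem wX_le_wY {τ : ℝ} (hτ : 2 ≤ τ) {n : ℕ} {s : List ℤ} (h : rk s n ≤ mB n) :
    wX τ n s (rk s n / 3) ≤ 4 * wY τ n := by
  have h1 : rk s n / 3 ≤ mB n / 3 := Nat.div_le_div_right h
  have h2 : rk s n - 3 * (rk s n / 3) ≤ 2 := by omega
  have h3 : (2 : ℝ) ^ (rk s n - 3 * (rk s n / 3)) ≤ (2 : ℝ) ^ 2 :=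
    pow_le_pow_right₀ (by norm_num) h2
  have h4 := wM_mono hτ h1
  have h5 := one_le_wM hτ (rk s n / 3)
  unfold wX wY
  refine (mul_le_mul h3 h4 (by linarith) (by positivity)).trans (le_of_eq ?_)
  norm_num

private theorem T12_rg {n a v : ℕ} (hv : v < n) :
    (v < nJ n ∧ gt (rg n a) v = 2) ∨ (¬ v < nJ n ∧ (gt (rg n a) v = 1 ∨ gt (rg n a) v = -1)) := by
  unfold rg
  rw [gt_tb_if, if_pos hv]
  by_cases h : v < nJ n
  · left
    rw [if_pos h]
    exact ⟨h, rfl⟩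
  · right
    rw [if_neg h]
    refine ⟨h, ?_⟩
    rcases bit_01 a (v - nJ n) with h1 | h1 <;> rw [h1]
    · right
      norm_num
    · left
      norm_num

private theorem T12_sum {n : ℕ} (f : ℕ → ℕ) :
    (∑ v ∈ range n, if v < nJ n then f v else 0) = ∑ v ∈ range (nJ n), f v := by
  rw [← Finset.sum_filter]
  refine Finset.sum_congr ?_ fun _ _ => rfl
  ext v
  have h := nJ_le n
  rw [Finset.mem_filter, Finset.mem_range, Finset.mem_range]
  omega

private theorem T12_bit {n : ℕ} {M : List ℤ} {a i κ v : ℕ} (x : ℕ) (hv : v < nJ n) :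
    bit (dd n M a i x κ) v = bit (ds n M a i κ) v := bit_low hv

/-- The number of free vertices of the two parts. PROOF. `gt (rg …) v = 2` iff `v < nJ n`; for `v < nJ n` the digit `v` of `dd` is that
of `ds`; `ds_spec`. -/
theorem rk_la {n : ℕ} {M : List ℤ} {a i κ : ℕ} (x : ℕ) (h : κ < (dl n M a i).length) :
    rk (laL n (rg n a) (dd n M a i x κ)) n ≤ mB n := by
  have h1 : rk (laL n (rg n a) (dd n M a i x κ)) n = sz n (ds n M a i κ) := by
    unfold rk sz
    rw [← T12_sum]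
    refine Finset.sum_congr rfl fun v hv => ?_
    have hv' := Finset.mem_range.1 hv
    unfold laL
    rw [gt_tb_if, if_pos hv']
    rcases T12_rg (a := a) hv' with ⟨h2, h3⟩ | ⟨h2, h3⟩
    · rw [if_pos h2, h3, if_pos rfl, T12_bit x h2]
      rcases bit_01 (ds n M a i κ) v with h4 | h4 <;> rw [h4] <;> norm_num
    · rw [if_neg h2]
      rcases h3 with h3 | h3 <;> rw [h3] <;> split_ifs <;> simp_all
  have h2 := (ds_spec h).2.2.2
  rw [h1]
  unfold mB
  omega

theorem rk_rh {n : ℕ} {M : List ℤ} {a i κ : ℕ} (x : ℕ) (h : κ < (dl n M a i).length) :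
    rk (rhL n (rg n a) (dd n M a i x κ)) n ≤ mB n := by
  have h1 : rk (rhL n (rg n a) (dd n M a i x κ)) n = ∑ v ∈ range (nJ n), (1 - bit (ds n M a i κ) v) := by
    unfold rk
    rw [← T12_sum]
    refine Finset.sum_congr rfl fun v hv => ?_
    have hv' := Finset.mem_range.1 hv
    unfold rhL
    rw [gt_tb_if, if_pos hv']
    rcases T12_rg (a := a) hv' with ⟨h2, h3⟩ | ⟨h2, h3⟩
    · rw [if_pos h2, h3, T12_bit x h2]
      rcases bit_01 (ds n M a i κ) v with h4 | h4 <;> rw [h4] <;> norm_num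
    · rw [if_neg h2]
      rcases h3 with h3 | h3 <;> rw [h3] <;> split_ifs <;> simp_all
  have h2 : ∑ v ∈ range (nJ n), (1 - bit (ds n M a i κ) v) + sz n (ds n M a i κ) = nJ n := by
    unfold sz
    rw [← Finset.sum_add_distrib]
    calc ∑ v ∈ range (nJ n), (1 - bit (ds n M a i κ) v + bit (ds n M a i κ) v) =
        ∑ _v ∈ range (nJ n), 1 := Finset.sum_congr rfl fun v _ => by
          rcases bit_01 (ds n M a i κ) v with h4 | h4 <;> rw [h4]
      _ = nJ n := by simp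
  have h3 := (ds_spec h).2.2.1
  rw [h1]
  unfold mB
  omega

variable {A : Type} {N : A → ℕ} {D : A → Prop} {Γ : List Ty} {ρ : A → Env Γ}

theorem c_wc {m : A → ℕ} (hm : PN N D ρ m) : PN N D ρ (fun a => wc (m a)) :=
  PN.div (PN.mul (PN.const 1298) hm) (PN.const 10000)

theorem bd_wc {m : A → ℕ} (bm : Bd N D m) : Bd N D (fun a => wc (m a)) :=
  Bd.le bm fun _ _ => by unfold wc; omega

section

variable {n : A → ℕ} {M s : A → List ℤ}

/-- Counting. -/
theorem c_cN (hn : PN N D ρ n) (bn : Bd N D n) (hM : PA N D ρ M) (hs : PA N D ρ s)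
    (hr : ∀ a, D a → rk (s a) (n a) ≤ mB (n a)) {p : A → ℤ} (hp : PI N D ρ p) :
    Cp N D ρ (fun τ a => wD τ (n a)) .int (fun a => cN (n a) (M a) (s a) (p a)) := by
  have h : Ms N D ρ n (fun a => wc (rk (s a) (n a))) M s :=
    ⟨hn, bn, hM, hs, c_wc (c_rk hs hn bn), bd_wc (bd_rk bn)⟩
  have h1 : Cp N D ρ (fun τ a => wX τ (n a) (s a) (wc (rk (s a) (n a)))) .int
      (fun a => cN (n a) (M a) (s a) (p a)) := c_cn h hp
  exact h1.mono fun a ha τ hτ => wX_le_wD hτ (hr a ha)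

/-- Maximizing. -/
theorem c_cX (hn : PN N D ρ n) (bn : Bd N D n) (hM : PA N D ρ M) (hs : PA N D ρ s)
    (hr : ∀ a, D a → rk (s a) (n a) ≤ mB (n a)) :
    Cp N D ρ (fun τ a => wY τ (n a)) .int (fun a => (cX (n a) (M a) (s a) : ℤ)) := by
  have h : Ms N D ρ n (fun a => rk (s a) (n a) / 3) M s :=
    ⟨hn, bn, hM, hs, PN.div (c_rk hs hn bn) (PN.const 3),
      Bd.le (bd_rk bn) fun _ _ => Nat.div_le_self _ _⟩
  have h1 : Cp N D ρ (fun τ a => wX τ (n a) (s a) (rk (s a) (n a) / 3)) .int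
      (fun a => (cX (n a) (M a) (s a) : ℤ)) := c_cB h
  refine h1.mono_poly 2 fun a ha τ hτ => ⟨one_le_wY hτ _, ?_⟩
  have h2 := wX_le_wY hτ (hr a ha)
  have h3 := one_le_wY hτ (n a)
  have h4 : (0 : ℝ) ≤ N a := Nat.cast_nonneg _
  refine h2.trans (mul_le_mul_of_nonneg_right ?_ (by linarith))
  nlinarith

/-- The weight of listing. -/
noncomputable def wS (τ : ℝ) (n : ℕ) (M s : List ℤ) (p : ℤ) : ℝ :=
  wD τ n + (cS n M s p).length * ((2 ^ w0 n : ℕ) : ℝ)

theorem one_le_wS {τ : ℝ} (hτ : 2 ≤ τ) (n : ℕ) (M s : List ℤ) (p : ℤ) : 1 ≤ wS τ n M s p := by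
  have h1 := one_le_wD hτ n
  have h2 : (0 : ℝ) ≤ (cS n M s p).length * ((2 ^ w0 n : ℕ) : ℝ) := by positivity
  unfold wS
  linarith

/-- Listing. -/
theorem c_cS (hn : PN N D ρ n) (bn : Bd N D n) (hM : PA N D ρ M) (hs : PA N D ρ s)
    (hr : ∀ a, D a → rk (s a) (n a) ≤ mB (n a)) {p : A → ℤ} (hp : PI N D ρ p) :
    Cp N D ρ (fun τ a => wS τ (n a) (M a) (s a) (p a)) .arr (fun a => cS (n a) (M a) (s a) (p a)) := by
  have h : Ms N D ρ n (fun a => wc (rk (s a) (n a))) M s :=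
    ⟨hn, bn, hM, hs, c_wc (c_rk hs hn bn), bd_wc (bd_rk bn)⟩
  have h1 : Cp N D ρ (fun τ a => wL τ (n a) (M a) (s a) (wc (rk (s a) (n a))) (p a)) .arr
      (fun a => cS (n a) (M a) (s a) (p a)) := c_cL h hp
  refine h1.mono fun a ha τ hτ => ?_
  have h2 := wX_le_wD hτ (hr a ha)
  have h3 : wc (rk (s a) (n a)) ≤ w0 (n a) := by
    rw [w0_eq]
    unfold wc
    have := hr a ha
    exact Nat.div_le_div_right (by omega)
  have h4 : ((2 ^ wc (rk (s a) (n a)) : ℕ) : ℝ) ≤ ((2 ^ w0 (n a) : ℕ) : ℝ) := by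
    exact_mod_cast Nat.pow_le_pow_right (by norm_num) h3
  have h5 : ((cL (n a) (M a) (s a) (wc (rk (s a) (n a))) (p a)).length : ℝ) *
      ((2 ^ wc (rk (s a) (n a)) : ℕ) : ℝ) ≤ (cS (n a) (M a) (s a) (p a)).length *
        ((2 ^ w0 (n a) : ℕ) : ℝ) := mul_le_mul_of_nonneg_left h4 (Nat.cast_nonneg _)
  unfold wL wS
  linarith

end

section

variable {n : A → ℕ} {M : A → List ℤ} {a : A → ℕ}

/-- The number of pairs of a set. -/
theorem c_Ed (h : Rd N D ρ n M a) {d : A → ℕ} {g : A → ℤ} (hd : PN N D ρ d) (hg : PI N D ρ g)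
    (h1 : ∀ q, D q → rk (laL (n q) (rg (n q) (a q)) (d q)) (n q) ≤ mB (n q))
    (h2 : ∀ q, D q → rk (rhL (n q) (rg (n q) (a q)) (d q)) (n q) ≤ mB (n q)) :
    Cp N D ρ (fun τ q => wD τ (n q)) .int (fun q => Ed (n q) (M q) (a q) (d q) (g q)) := by
  have hrg := c_rg h
  have hla := c_laL h.hn h.bn hrg hd
  have hrh := c_rhL h.hn h.bn hrg hd
  refine Cp.store (hla.lift fun q _ τ hτ => one_le_wD hτ (n q)) fun Γ1 ρ1 k1 e1 => ?_
  refine Cp.store ((k1.a hrh).lift fun q _ τ hτ => one_le_wD hτ (n q)) fun Γ2 ρ2 k2 e2 => ?_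
  have hR := (h.ke k1).ke k2
  have hg2 := k2.i (k1.i hg)
  have hla2 := k2.a e1
  have hb : Body N D ρ2 (fun q => LL (n q)) (fun τ q => wD τ (n q)) .int (fun q u =>
      cN (n q) (M q) (laL (n q) (rg (n q) (a q)) (d q)) (lvv (n q) u) *
        cN (n q) (M q) (rhL (n q) (rg (n q) (a q)) (d q)) (g q - lvv (n q) u)) := by
    intro Γ3 ρ3 up hu
    have hR3 := hR.up up
    have hl := c_lvv hR3.hn hu
    refine Cp.store (c_cN (s := fun q : A × ℕ => laL (n q.1) (rg (n q.1) (a q.1)) (d q.1))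
      hR3.hn hR3.bn hR3.hM (up.a hla2) (fun q hq => h1 q.1 hq.1) hl) fun Γ4 ρ4 k4 e4 => ?_
    have hR4 := hR3.ke k4
    refine Cp.store (c_cN (s := fun q : A × ℕ => rhL (n q.1) (rg (n q.1) (a q.1)) (d q.1))
      hR4.hn hR4.bn hR4.hM (k4.a (up.a e2)) (fun q hq => h2 q.1 hq.1)
      (PI.sub (k4.i (up.i hg2)) (k4.i hl))) fun Γ5 ρ5 k5 e5 => ?_
    exact (PI.mul (k5.i e4) e5).lift fun q _ τ hτ => one_le_wD hτ (n q.1)
  have h3 := Cp.sum (c_LL hR.hn) (fun q _ τ hτ => one_le_wD hτ (n q)) hb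
  have h4 : Cp N D ρ2 (fun τ q => ((LL (n q) : ℝ) + 1) * wD τ (n q)) .int
      (fun q => Ed (n q) (M q) (a q) (d q) (g q)) := h3
  obtain ⟨m, hm⟩ := (bd_LL h.bn).add (Bd.const 1)
  refine h4.mono_poly m fun q hq τ hτ => ⟨one_le_wD hτ _, ?_⟩
  refine mul_le_mul_of_nonneg_right ?_ (zero_le_one.trans (one_le_wD hτ _))
  have h5 : ((LL (n q) + 1 : ℕ) : ℝ) ≤ ((N q + 2 : ℕ) : ℝ) ^ m := by exact_mod_cast hm q hq
  push_cast at h5
  exact h5

end

end Pool.Agent.MPa9445a.DB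
end

section

/-! The table of the numbers of pairs. -/

set_option autoImplicit false

open Finset

namespace Pool.Agent.MPa9445a.DB

open Pool.Agent.MPa9445a.BE (Ty Env vs one Bd NL DL tb flt gt bit Phi vec code lin argmax matMul Bd.const
  Bd.add Bd.mul Bd.le Bd.up Bd.var Bd.self)
open Pool.Agent.MPa9445a.GD
open Pool.Agent.MPa9445a.GL (rk sv laL rhL lvv LL c_rk bd_rk c_sv c_laL c_rhL c_LL bd_LL c_lvv)

/-- The target of the index `y`. -/
def tg (n y : ℕ) : ℤ := (n : ℤ) ^ 4 - (y / 2 ^ (n - nJ n) : ℕ)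

/-- The contribution of the shift `i`. -/
def epp (n : ℕ) (M : List ℤ) (a i y : ℕ) : ℤ := if (tg n y + tt n M a) % 2 = 0 then
  ∑ κ ∈ range (dl n M a i).length,
    Ed n M a (dd n M a i (y % 2 ^ (n - nJ n)) κ) ((tg n y + tt n M a) / 2) else 0

/-- The table after `i` shifts. -/
def eT (n : ℕ) (M : List ℤ) (a i : ℕ) : List ℤ :=
  itr (fun i z => tb (LL n * 2 ^ (n - nJ n)) fun y => gt z y + epp n M a i y) [] i

/-- PROOF. Induction over `i`. -/
theorem gt_eT (n : ℕ) (M : List ℤ) (a i y : ℕ) (hy : y < LL n * 2 ^ (n - nJ n)) :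
    gt (eT n M a i) y = ∑ j ∈ range i, epp n M a j y := by
  induction i with
  | zero =>
    simp [eT, itr, gt]
  | succ i ih =>
    have e : eT n M a (i + 1) =
        tb (LL n * 2 ^ (n - nJ n)) fun y => gt (eT n M a i) y + epp n M a i y := rfl
    rw [e, gt_tb_if, if_pos hy, ih, sum_range_succ]

/-- PROOF. `gt_eT`, definitions. -/
theorem eT_En (n : ℕ) (M : List ℤ) (a y : ℕ) (hy : y < LL n * 2 ^ (n - nJ n)) :
    gt (eT n M a (nS n M a)) y = En n M a (tg n y) (y % 2 ^ (n - nJ n)) := by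
  rw [gt_eT n M a _ y hy]
  unfold En epp
  split_ifs with h
  · rfl
  · simp

private theorem T13_Ed {n : ℕ} (hn : 0 < n) {M : List ℤ} (hM : ∀ x ∈ M, |x| ≤ 1) (a : ℕ) {i κ : ℕ}
    (hκ : κ < (dl n M a i).length) (x : ℕ) (g : ℤ) :
    0 ≤ Ed n M a (dd n M a i x κ) g ∧ Ed n M a (dd n M a i x κ) g ≤ 2 ^ nJ n := by
  have h1 : dd n M a i x κ = ds n M a i κ + 2 ^ nJ n * x := rfl
  rw [h1, Ed_eq hn hM x (ds_spec hκ).1 g]
  refine ⟨Int.natCast_nonneg _, ?_⟩
  have h2 := Finset.card_filter_le (range (2 ^ nJ n)) (fun z =>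
    fz n M (xr (n - nJ n) a x) z + fz n M a (xr (nJ n) z (ds n M a i κ)) = 2 * g)
  rw [Finset.card_range] at h2
  exact_mod_cast h2

/-- PROOF. `Ed_eq` (R1): `0 ≤ Ed ≤ 2 ^ nJ`; the length of `dl` is at most `2 ^ nJ`. -/
theorem epp_abs {n : ℕ} (hn : 0 < n) {M : List ℤ} (hM : ∀ x ∈ M, |x| ≤ 1) (a i y : ℕ) :
    0 ≤ epp n M a i y ∧ epp n M a i y ≤ 2 ^ nJ n * 2 ^ nJ n := by
  have h0 : (0 : ℤ) ≤ 2 ^ nJ n * 2 ^ nJ n := by positivity
  unfold epp
  split_ifs with h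
  · refine ⟨Finset.sum_nonneg fun κ hκ => (T13_Ed hn hM a (mem_range.1 hκ) _ _).1, ?_⟩
    have h1 := Finset.sum_le_sum (s := range (dl n M a i).length) fun κ hκ =>
      (T13_Ed hn hM a (mem_range.1 hκ) (y % 2 ^ (n - nJ n)) ((tg n y + tt n M a) / 2)).2
    refine h1.trans ?_
    rw [Finset.sum_const, Finset.card_range, nsmul_eq_mul]
    have h2 : (dl n M a i).length ≤ 2 ^ nJ n := GL.length_flt_le _ _
    have h3 : ((dl n M a i).length : ℤ) ≤ 2 ^ nJ n := by exact_mod_cast h2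
    exact mul_le_mul_of_nonneg_right h3 (by positivity)
  · exact ⟨le_rfl, h0⟩

/-- The weight of the table. -/
noncomputable def wE (τ : ℝ) (n : ℕ) : ℝ := wJ n + (2 : ℝ) ^ (2 * (n - nJ n)) * wD τ n

theorem one_le_wE {τ : ℝ} (hτ : 2 ≤ τ) (n : ℕ) : 1 ≤ wE τ n := by
  have h1 := one_le_wJ n
  have h2 := one_le_wD hτ n
  have h3 : (0 : ℝ) ≤ (2 : ℝ) ^ (2 * (n - nJ n)) * wD τ n := by positivity
  unfold wE
  linarith

private theorem T13_wJ {τ : ℝ} (hτ : 2 ≤ τ) (n : ℕ) : wJ n ≤ wE τ n := by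
  have h2 := one_le_wD hτ n
  have h3 : (0 : ℝ) ≤ (2 : ℝ) ^ (2 * (n - nJ n)) * wD τ n := by positivity
  unfold wE
  linarith

private theorem T13_len {n : ℕ} (hn : 10 ^ 16 ≤ n) {M : List ℤ} (hM : ∀ x ∈ M, |x| ≤ 1) {a i : ℕ}
    (hi : i < nS n M a) : (dl n M a i).length ≤ 2 ^ (n - nJ n) :=
  (dl_len hi).trans (Nat.pow_le_pow_right (by norm_num) (qq_ge hn hM))

private theorem T13_arith {L X l w y : ℝ} (hL : 1 ≤ L) (hX : 1 ≤ X) (hl : l ≤ X) (hl0 : 0 ≤ l)
    (hw : 0 ≤ w) (hy : 0 ≤ y) :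
    (L * X + 1) * ((l + 1) * w) ≤ (4 * L) * (y + X * X * w) := by
  have h1 : L * X + 1 ≤ 2 * (L * X) := by nlinarith
  have h2 : l + 1 ≤ 2 * X := by linarith
  have h3 : (L * X + 1) * ((l + 1) * w) ≤ (2 * (L * X)) * ((2 * X) * w) :=
    mul_le_mul h1 (mul_le_mul_of_nonneg_right h2 hw) (by positivity) (by positivity)
  have h4 : 0 ≤ (4 * L) * y := by positivity
  nlinarith

variable {A : Type} {N : A → ℕ} {D : A → Prop} {Γ : List Ty} {ρ : A → Env Γ}
  {n : A → ℕ} {M : A → List ℤ} {a : A → ℕ}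

private theorem T13_size {n : ℕ} (hn : 0 < n) {M : List ℤ} (hM : ∀ x ∈ M, |x| ≤ 1) (a j : ℕ)
    (hj : j < nS n M a) : vs (t := .arr) (eT n M a j) ≤
      (nS n M a + 2 * n) + (LL n + n) := by
  have hJ := nJ_le_n n
  have h1 : BE.asz (eT n M a j) ≤ nS n M a + 2 * n := by
    refine GD.asz_le fun x hx => ?_
    obtain ⟨y, hy, hxy⟩ := List.getElem_of_mem hx
    have hgt : gt (eT n M a j) y = x := by
      rw [gt, List.getD_eq_getElem _ _ hy, hxy]
    have hlen : (eT n M a j).length ≤ LL n * 2 ^ (n - nJ n) := by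
      cases j with
      | zero => simp [eT, itr]
      | succ j =>
        have e : eT n M a (j + 1) =
          tb (LL n * 2 ^ (n - nJ n)) fun y => gt (eT n M a j) y + epp n M a j y := rfl
        rw [e, BE.length_tb]
    have hs := gt_eT n M a j y (lt_of_lt_of_le hy hlen)
    rw [hgt] at hs
    have hp : 0 ≤ x := by
      rw [hs]
      exact Finset.sum_nonneg fun i _ => (epp_abs hn hM a i y).1
    have hu : x ≤ j * (2 ^ nJ n * 2 ^ nJ n) := by
      rw [hs]
      refine (Finset.sum_le_sum fun i _ => (epp_abs hn hM a i y).2).trans (le_of_eq ?_)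
      rw [Finset.sum_const, Finset.card_range, nsmul_eq_mul]
    unfold BE.sz
    rw [Nat.size_le]
    zify
    rw [abs_of_nonneg hp]
    have h4 : (j : ℤ) < 2 ^ nS n M a := by
      have : j < 2 ^ nS n M a := hj.trans Nat.lt_two_pow_self
      exact_mod_cast this
    have h5 : (2 : ℤ) ^ nJ n * 2 ^ nJ n ≤ 2 ^ (2 * n) := by
      rw [← pow_add]
      exact pow_le_pow_right₀ (by norm_num) (by omega)
    have h6 : (0 : ℤ) < 2 ^ nJ n * 2 ^ nJ n := by positivity
    calc x ≤ j * (2 ^ nJ n * 2 ^ nJ n) := hu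
      _ < 2 ^ nS n M a * (2 ^ nJ n * 2 ^ nJ n) := mul_lt_mul_of_pos_right h4 h6
      _ ≤ 2 ^ nS n M a * 2 ^ (2 * n) := mul_le_mul_of_nonneg_left h5 (by positivity)
      _ = 2 ^ (nS n M a + 2 * n) := (pow_add _ _ _).symm
  have h2 : Nat.size (eT n M a j).length ≤ LL n + n := by
    rw [Nat.size_le]
    have hlen : (eT n M a j).length ≤ LL n * 2 ^ (n - nJ n) := by
      cases j with
      | zero => simp [eT, itr]
      | succ j =>
        have e : eT n M a (j + 1) =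
          tb (LL n * 2 ^ (n - nJ n)) fun y => gt (eT n M a j) y + epp n M a j y := rfl
        rw [e, BE.length_tb]
    have h3 : LL n < 2 ^ LL n := Nat.lt_two_pow_self
    have h4 : 2 ^ (n - nJ n) ≤ 2 ^ n := Nat.pow_le_pow_right (by norm_num) (Nat.sub_le _ _)
    calc (eT n M a j).length ≤ LL n * 2 ^ (n - nJ n) := hlen
      _ < 2 ^ LL n * 2 ^ (n - nJ n) := Nat.mul_lt_mul_of_pos_right h3 (by positivity)
      _ ≤ 2 ^ LL n * 2 ^ n := Nat.mul_le_mul_left _ h4
      _ = 2 ^ (LL n + n) := (pow_add _ _ _).symm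
  change BE.asz _ + Nat.size _ ≤ _
  omega

private theorem T13_tg {n y : A → ℕ} (hn : PN N D ρ n) (bn : Bd N D n) (hy : PN N D ρ y) :
    PI N D ρ (fun q => tg (n q) (y q)) :=
  PI.sub (PI.pow hn 4) (PN.div hy (PN.pow2 (PN.sub hn (c_nJ hn)) (Bd.le bn fun _ _ => Nat.sub_le _ _)))

/-- The table: program and running time. PROOF. `Cp.iter` with `k = nS` (store `nS`, `tt` first), state `eT … i` (size: `gt_eT`, `epp_abs`, `bd_nS`); in the pass `i`:
store `dl … i` (`c_dl`), then `Cp.tab` over `y < LL * 2 ^ (n - nJ)`, inside `Cp.sum` over `κ < (dl …).length` of `Ed` (`c_Ed` with `rk_la`, `rk_rh`: use `κ < k` from the domain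
of the loop). Weight of a pass: `wJ + LL * 2 ^ (n - nJ) * (length + 1) * wD`, `length ≤ 2 ^ (nJ - qq) ≤ 2 ^ (n - nJ)` by `dl_len`, `qq_ge`. -/
theorem c_eT (h : Rd N D ρ n M a) : Cp N D ρ (fun τ q => wE τ (n q)) .arr
    (fun q => eT (n q) (M q) (a q) (nS (n q) (M q) (a q))) := by
  refine Cp.store ((c_nS h).mono fun q _ τ hτ => T13_wJ hτ (n q)) fun Γ1 ρ1 k1 e1 => ?_
  refine Cp.store ((c_tt (h.ke k1)).mono fun q _ τ hτ => T13_wJ hτ (n q)) fun Γ2 ρ2 k2 e2 => ?_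
  have hR := (h.ke k1).ke k2
  have hS : PN N D ρ2 (fun q => nS (n q) (M q) (a q)) := k2.i e1
  have ht : PI N D ρ2 (fun q => tt (n q) (M q) (a q)) := e2
  have h3 := Cp.iter (k := fun q => nS (n q) (M q) (a q))
    (s := fun q j => eT (n q) (M q) (a q) j) (w := fun τ p => wE τ (n p.1)) (w0 := one) hS
    (by
      have h0 : PA N D ρ2 (fun q => tb 0 fun _ => (0 : ℤ)) :=
        PA.tab (PN.const 0) (Bd.const 0) fun Γ3 ρ3 up hv => PI.const 0
      exact h0)
    (by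
      obtain ⟨c, hc⟩ := ((bd_nS h).add ((Bd.const 2).mul h.bn)).add ((bd_LL h.bn).add h.bn)
      exact ⟨c, fun q hq j hj => (T13_size (lt_of_lt_of_le (by norm_num) (h.big q hq)) (h.one q hq)
        _ _ hj).trans (hc q hq)⟩)
    fun Γ3 ρ3 up hj hz => by
      have hR3 := hR.up up
      refine Cp.store ((c_dl hR3 hj).mono fun p _ τ hτ => T13_wJ hτ (n p.1)) fun Γ4 ρ4 k4 e4 => ?_
      have hR4 := hR3.ke k4
      have ht4 := k4.i (up.i ht)
      have hz4 := k4.a hz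
      have hj4 := k4.n hj
      have hl4 := PN.len e4
      have hK : PN (NL N) (DL D fun q => nS (n q) (M q) (a q)) ρ4
          (fun p => LL (n p.1) * 2 ^ (n p.1 - nJ (n p.1))) := PN.mul (c_LL hR4.hn) hR4.p2
      have hB := Cp.tab (k := fun p : A × ℕ => LL (n p.1) * 2 ^ (n p.1 - nJ (n p.1)))
        (w := fun τ p => (((dl (n p.1) (M p.1) (a p.1) p.2).length : ℝ) + 1) * wD τ (n p.1))
        (f := fun p y => gt (eT (n p.1) (M p.1) (a p.1) p.2) y + epp (n p.1) (M p.1) (a p.1) p.2 y)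
        hK
        (fun p _ τ hτ => by
          have h1 := one_le_wD hτ (n p.1)
          have h2 : (0 : ℝ) ≤ ((dl (n p.1) (M p.1) (a p.1) p.2).length : ℝ) := Nat.cast_nonneg _
          nlinarith)
        fun Γ5 ρ5 up5 hy => by
          have hR5 := hR4.up up5
          have ht5 := up5.i ht4
          have htg := T13_tg hR5.hn hR5.bn hy
          have hepp : Cp (NL (NL N)) (DL (DL D fun q => nS (n q) (M q) (a q))
              fun p : A × ℕ => LL (n p.1) * 2 ^ (n p.1 - nJ (n p.1))) ρ5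
              (fun τ z => (((dl (n z.1.1) (M z.1.1) (a z.1.1) z.1.2).length : ℝ) + 1) *
                wD τ (n z.1.1)) .int
              (fun z => epp (n z.1.1) (M z.1.1) (a z.1.1) z.1.2 z.2) := by
            have hw : ∀ z : (A × ℕ) × ℕ, (DL (DL D fun q => nS (n q) (M q) (a q))
              fun p : A × ℕ => LL (n p.1) * 2 ^ (n p.1 - nJ (n p.1))) z → ∀ τ : ℝ, 2 ≤ τ →
                1 ≤ (((dl (n z.1.1) (M z.1.1) (a z.1.1) z.1.2).length : ℝ) + 1) * wD τ (n z.1.1) := by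
              intro z _ τ hτ
              have h1 := one_le_wD hτ (n z.1.1)
              have h2 : (0 : ℝ) ≤ ((dl (n z.1.1) (M z.1.1) (a z.1.1) z.1.2).length : ℝ) :=
                Nat.cast_nonneg _
              nlinarith
            refine Cp.ite (PB.eq (PI.mod (PI.add htg ht5) (PI.const 2)) (PI.const 0)) ?_
              ((PI.const 0).lift hw)
            refine Cp.sum (k := fun z : (A × ℕ) × ℕ =>
              (dl (n z.1.1) (M z.1.1) (a z.1.1) z.1.2).length)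
              (w := fun τ z => wD τ (n z.1.1))
              (up5.n hl4) (fun z _ τ hτ => one_le_wD hτ _) fun Γ6 ρ6 up6 hκ => ?_
            have hR6 := hR5.up up6
            refine c_Ed (n := fun z : ((A × ℕ) × ℕ) × ℕ => n z.1.1.1)
              (M := fun z => M z.1.1.1) (a := fun z => a z.1.1.1) hR6
              (d := fun z => dd (n z.1.1.1) (M z.1.1.1) (a z.1.1.1) z.1.1.2
                (z.1.2 % 2 ^ (n z.1.1.1 - nJ (n z.1.1.1))) z.2) ?_
              (PI.div (PI.add (up6.i htg) (up6.i ht5)) (PI.const 2)) ?_ ?_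
            · exact PN.add (PN.toNat (PI.get (up6.a (up5.a e4)) hκ))
                (PN.mul hR6.pJ (PN.mod (up6.n hy) hR6.p2))
            · intro z hz
              exact rk_la _ hz.2
            · intro z hz
              exact rk_rh _ hz.2
          refine Cp.store hepp fun Γ6 ρ6 k6 e6 => ?_
          exact (PI.add (PI.get (k6.a (up5.a hz4)) (k6.n hy)) e6).lift fun z _ τ hτ => by
            have h1 := one_le_wD hτ (n z.1.1)
            have h2 : (0 : ℝ) ≤ ((dl (n z.1.1) (M z.1.1) (a z.1.1) z.1.2).length : ℝ) :=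
              Nat.cast_nonneg _
            nlinarith
      have hB2 : Cp (NL N) (DL D fun q => nS (n q) (M q) (a q)) ρ4 _ .arr
        (fun p => eT (n p.1) (M p.1) (a p.1) (p.2 + 1)) := hB
      obtain ⟨m, hm⟩ := (Bd.const 4).mul ((bd_LL h.bn).add (Bd.const 0))
      refine hB2.mono_poly m fun p hp τ hτ => ⟨one_le_wE hτ _, ?_⟩
      have hq := hp.1
      have hlen := T13_len (h.big p.1 hp.1) (h.one p.1 hp.1) hp.2
      have hm1 : 4 * (LL (n p.1) + 0) ≤ (N p.1 + 2) ^ m := hm p.1 hp.1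
      have hm2 : (4 : ℝ) * (LL (n p.1) : ℝ) ≤ ((N p.1 : ℝ) + 2) ^ m := by
        have : ((4 * (LL (n p.1) + 0) : ℕ) : ℝ) ≤ (((N p.1 + 2) ^ m : ℕ) : ℝ) := by
          exact_mod_cast hm1
        push_cast at this
        simpa using this
      have hX : (((2 : ℕ) ^ (n p.1 - nJ (n p.1)) : ℕ) : ℝ) = (2 : ℝ) ^ (n p.1 - nJ (n p.1)) := by
        push_cast
        rfl
      have hlen2 : (((dl (n p.1) (M p.1) (a p.1) p.2).length : ℕ) : ℝ) ≤
          (2 : ℝ) ^ (n p.1 - nJ (n p.1)) := by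
        rw [← hX]
        exact_mod_cast hlen
      have hL1 : (1 : ℝ) ≤ (LL (n p.1) : ℝ) := by
        have : 1 ≤ LL (n p.1) := by unfold LL; omega
        exact_mod_cast this
      have hwJ := one_le_wJ (n p.1)
      have hwD := one_le_wD hτ (n p.1)
      have key := T13_arith (w := wD τ (n p.1)) (y := wJ (n p.1)) hL1
        (one_le_pow₀ (by norm_num) : (1 : ℝ) ≤ (2 : ℝ) ^ (n p.1 - nJ (n p.1))) hlen2
        (Nat.cast_nonneg _) (by linarith) (by linarith)
      have e5 : (2 : ℝ) ^ (n p.1 - nJ (n p.1)) * (2 : ℝ) ^ (n p.1 - nJ (n p.1)) =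
          (2 : ℝ) ^ (2 * (n p.1 - nJ (n p.1))) := by
        rw [← pow_add]
        congr 1
        omega
      rw [e5] at key
      have e6 : ((LL (n p.1) * 2 ^ (n p.1 - nJ (n p.1)) : ℕ) : ℝ) =
          (LL (n p.1) : ℝ) * (2 : ℝ) ^ (n p.1 - nJ (n p.1)) := by
        push_cast
        rfl
      rw [e6]
      refine key.trans ?_
      exact mul_le_mul_of_nonneg_right hm2 (zero_le_one.trans (one_le_wE hτ _))
  obtain ⟨m, hm⟩ := (bd_nS h).add (Bd.const 1)
  refine h3.mono_poly m fun q hq τ hτ => ⟨one_le_wE hτ _, ?_⟩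
  have h4 := one_le_wE hτ (n q)
  have h5 : ((nS (n q) (M q) (a q) + 1 : ℕ) : ℝ) ≤ ((N q + 2 : ℕ) : ℝ) ^ m := by
    exact_mod_cast hm q hq
  push_cast at h5
  simp only [one, Finset.sum_const, Finset.card_range, nsmul_eq_mul]
  have h6 : (0 : ℝ) ≤ (nS (n q) (M q) (a q) : ℝ) := Nat.cast_nonneg _
  nlinarith

end Pool.Agent.MPa9445a.DB
end
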