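import Pool.Agent.Lib.MP_a9445a_lc.Mg.G146
import Pool.Agent.Lib.MP_a9445a_lc.Mg.G120
import Pool.Agent.Lib.MP_a9445a_lc.BE.B0

section

/-! The sizes. -/

set_option autoImplicit false

open Finset

namespace Pool.Agent.MPa9445a.BW

open Pool.Agent.MPa9445a.BE (gt bit tb flt lin Phi vec code argmax matMul)

variable (a : In)

theorem n_add : n1 a + n2 a + n3 a = a.n := by
  unfold n3 n2 n1
  omega

theorem n2_le : n2 a ≤ n3 a := by
  unfold n3 n2
  omega

theorem n3_le : n3 a ≤ a.n / 3 - a.n / 1000000000 + 1 := by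
  unfold n3 n2 n1
  omega

theorem n1_le : n1 a ≤ 2 * n3 a := by
  unfold n3 n2 n1
  omega

private theorem K_bit_add {k c x : ℕ} (hx : x < k) : bit (2 ^ k + c) x = bit c x := by
  unfold bit
  obtain ⟨d, rfl⟩ : ∃ d, k = x + 1 + d := ⟨k - (x + 1), by omega⟩
  have h3 : (2 : ℕ) ^ (x + 1 + d) = 2 ^ x * (2 * 2 ^ d) := by ring
  have h4 : 2 ^ (x + 1 + d) + c = c + 2 ^ x * (2 * 2 ^ d) := by rw [h3]; ring
  rw [h4, Nat.add_mul_div_left _ _ (by positivity), Nat.add_mul_mod_self_left]

private theorem K_bit_top {k c : ℕ} (hc : c < 2 ^ k) : bit c k = 0 ∧ bit (2 ^ k + c) k = 1 := by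
  unfold bit
  constructor
  · rw [Nat.div_eq_of_lt hc]
  · have h4 : 2 ^ k + c = c + 2 ^ k * 1 := by ring
    rw [h4, Nat.add_mul_div_left _ _ (by positivity), Nat.div_eq_of_lt hc]

/-- Sums of products over the binary digits. -/
theorem sum_bits (k : ℕ) (f : ℕ → ℕ → ℝ) :
    ∑ c ∈ range (2 ^ k), ∏ x ∈ range k, f x (bit c x) = ∏ x ∈ range k, (f x 0 + f x 1) := by
  induction k with
  | zero => simp
  | succ k ih =>
    rw [pow_succ, mul_two, Finset.sum_range_add, Finset.prod_range_succ, ← ih, mul_add,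
      Finset.sum_mul, Finset.sum_mul]
    congr 1
    · apply Finset.sum_congr rfl
      intro c hc
      rw [Finset.prod_range_succ, (K_bit_top (Finset.mem_range.1 hc)).1]
    · apply Finset.sum_congr rfl
      intro c hc
      rw [Finset.prod_range_succ, (K_bit_top (Finset.mem_range.1 hc)).2]
      congr 1
      apply Finset.prod_congr rfl
      intro x hx
      rw [K_bit_add (Finset.mem_range.1 hx)]

private theorem K_nd_nonneg (c : ℕ) : 0 ≤ nd a c := by
  unfold nd
  apply Finset.sum_nonneg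
  intro x _
  split_ifs <;> norm_num

/-- The generating function of the number of differences. -/
theorem sum_nd {w : ℝ} (hw0 : 0 < w) (hw1 : w ≤ 1) :
    ∑ c ∈ range (2 ^ n1 a), w ^ (nd a c).toNat ≤
      (1 + w) ^ (a.n / 3) * 2 ^ (2 * (a.n / 1000000000)) := by
  set f : ℕ → ℕ → ℝ := fun x b =>
    if x < a.n / 3 then (if 2 * (b : ℤ) - 1 = gt a.y (a.i * (a.n / 3) + x) then 1 else w) else 1 with hf
  have h1 : ∀ c, w ^ (nd a c).toNat = ∏ x ∈ range (n1 a), f x (bit c x) := by
    intro c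
    have h2 : (nd a c).toNat = ∑ x ∈ range (a.n / 3),
        if 2 * (bit c x : ℤ) - 1 = gt a.y (a.i * (a.n / 3) + x) then 0 else 1 := by
      have : nd a c = ((∑ x ∈ range (a.n / 3),
          if 2 * (bit c x : ℤ) - 1 = gt a.y (a.i * (a.n / 3) + x) then 0 else 1 : ℕ) : ℤ) := by
        unfold nd
        rw [Nat.cast_sum]
        apply Finset.sum_congr rfl
        intro x _
        split_ifs <;> rfl
      rw [this, Int.toNat_natCast]
    have h3 : n1 a = a.n / 3 + 2 * (a.n / 1000000000) := rfl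
    rw [h2, h3, Finset.prod_range_add, ← Finset.prod_pow_eq_pow_sum]
    have h4 : ∏ x ∈ range (2 * (a.n / 1000000000)), f (a.n / 3 + x) (bit c (a.n / 3 + x)) = 1 := by
      apply Finset.prod_eq_one
      intro x _
      rw [hf]
      exact if_neg (by omega)
    rw [h4, mul_one]
    apply Finset.prod_congr rfl
    intro x hx
    rw [hf]
    simp only
    rw [if_pos (Finset.mem_range.1 hx)]
    split_ifs
    · rw [pow_zero]
    · rw [pow_one]
  rw [Finset.sum_congr rfl fun c _ => h1 c, sum_bits]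
  have h3 : n1 a = a.n / 3 + 2 * (a.n / 1000000000) := rfl
  rw [h3, Finset.prod_range_add]
  apply mul_le_mul
  · rw [← Finset.card_range (a.n / 3), ← Finset.prod_const, Finset.card_range]
    apply Finset.prod_le_prod
    · intro x _
      rw [hf]
      simp only
      split_ifs <;> positivity
    · intro x hx
      rw [hf]
      simp only
      rw [if_pos (Finset.mem_range.1 hx), if_pos (Finset.mem_range.1 hx)]
      split_ifs with h5 h6
      · exfalso
        push_cast at h5 h6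
        omega
      · linarith
      · linarith
      · linarith
  · rw [← Finset.card_range (2 * (a.n / 1000000000)), ← Finset.prod_const, Finset.card_range]
    apply Finset.prod_le_prod
    · intro x _
      rw [hf]
      simp only
      split_ifs <;> positivity
    · intro x hx
      rw [hf]
      simp only
      rw [if_neg (by omega), if_neg (by omega)]
      norm_num
  · apply Finset.prod_nonneg
    intro x _
    rw [hf]
    simp only
    split_ifs <;> positivity
  · positivity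

private theorem K_log1 : Real.log 0.9998 ≤ -0.00020002 := by
  have h := Real.abs_log_sub_add_sum_range_le (x := 0.0002) (by norm_num [abs_of_pos]) 3
  simp only [Finset.sum_range_succ, Finset.sum_range_zero] at h
  norm_num at h
  have h2 := (abs_le.1 h).2
  norm_num at h2 ⊢
  linarith

private theorem K_log2 : -Real.log 0.9996 ≤ 0.0004000801 := by
  have h := Real.abs_log_sub_add_sum_range_le (x := 0.0004) (by norm_num [abs_of_pos]) 3
  simp only [Finset.sum_range_succ, Finset.sum_range_zero] at h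
  norm_num at h
  have h2 := (abs_le.1 h).1
  norm_num at h2 ⊢
  linarith

/-- The number of the vectors of the first part. -/
theorem T1_le : (T1 a).length ≤ 2 ^ (a.n / 3 - a.n / 1000000000 + 3) := by
  set q := a.n / 3 with hq
  set t := a.n / 1000000000 with ht
  have htq : t ≤ q := by omega
  have hn : a.n ≤ 3 * q + 2 := by omega
  have ht2 : 1000000000 * t ≤ a.n := by omega
  set w : ℝ := 0.9996 with hw
  have hw0 : 0 < w := by rw [hw]; norm_num
  have hw1 : w < 1 := by rw [hw]; norm_num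
  have h1 := sum_nd a hw0 hw1.le
  have h2 : ((T1 a).length : ℝ) * w ^ ((4999 : ℝ) * a.n / 30000) ≤ ∑ c ∈ range (2 ^ n1 a), w ^ (nd a c).toNat := by
    unfold T1
    rw [SN.flt_length, ← nsmul_eq_mul, ← Finset.sum_const]
    calc ∑ c ∈ (range (2 ^ n1 a)).filter (fun c => 30000 * nd a c ≤ 4999 * (a.n : ℤ)),
          w ^ ((4999 : ℝ) * a.n / 30000)
        ≤ ∑ c ∈ (range (2 ^ n1 a)).filter (fun c => 30000 * nd a c ≤ 4999 * (a.n : ℤ)),
          w ^ (nd a c).toNat := by
          apply Finset.sum_le_sum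
          intro c hc
          have h3 := (Finset.mem_filter.1 hc).2
          rw [← Real.rpow_natCast]
          apply Real.rpow_le_rpow_of_exponent_ge hw0 hw1.le
          rw [le_div_iff₀ (by norm_num)]
          have h4 : ((nd a c).toNat : ℤ) = nd a c := Int.toNat_of_nonneg (K_nd_nonneg a c)
          have h5 : (((nd a c).toNat : ℤ) : ℝ) * 30000 ≤ 4999 * (a.n : ℝ) := by
            rw [h4]
            have : ((30000 * nd a c : ℤ) : ℝ) ≤ ((4999 * (a.n : ℤ) : ℤ) : ℝ) := by exact_mod_cast h3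
            push_cast at this
            linarith
          push_cast at h5
          exact h5
      _ ≤ ∑ c ∈ range (2 ^ n1 a), w ^ (nd a c).toNat :=
          Finset.sum_le_sum_of_subset_of_nonneg (Finset.filter_subset _ _) fun c _ _ => by positivity
  have h3 : ((T1 a).length : ℝ) * w ^ ((4999 : ℝ) * a.n / 30000) ≤
      (2 ^ (q - t + 3) : ℝ) * w ^ ((4999 : ℝ) * a.n / 30000) := by
    refine (h2.trans h1).trans ?_
    have hpos : 0 < (1 + w) ^ q * 2 ^ (2 * t) := by positivity
    have hpos2 : 0 < (2 ^ (q - t + 3) : ℝ) * w ^ ((4999 : ℝ) * a.n / 30000) := by positivity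
    rw [← Real.log_le_log_iff hpos hpos2, Real.log_mul (by positivity) (by positivity),
      Real.log_mul (by positivity) (by positivity), Real.log_pow, Real.log_pow, Real.log_pow,
      Real.log_rpow hw0]
    have e1 : Real.log (1 + w) = Real.log 2 + Real.log 0.9998 := by
      rw [← Real.log_mul (by norm_num) (by norm_num), hw]
      norm_num
    rw [e1]
    have l1 := K_log1
    have l2 := K_log2
    rw [← hw] at l2
    have l3 := Real.log_two_lt_d9
    have l4 := Real.log_two_gt_d9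
    have hq0 : (0 : ℝ) ≤ q := Nat.cast_nonneg _
    have ht0 : (0 : ℝ) ≤ t := Nat.cast_nonneg _
    have c1 : ((q - t + 3 : ℕ) : ℝ) = (q : ℝ) - t + 3 := by
      rw [Nat.cast_add, Nat.cast_sub htq]
      norm_num
    have c2 : (a.n : ℝ) ≤ 3 * q + 2 := by exact_mod_cast hn
    have c3 : 1000000000 * (t : ℝ) ≤ a.n := by exact_mod_cast ht2
    have hn0 : (0 : ℝ) ≤ a.n := Nat.cast_nonneg _
    rw [c1]
    push_cast
    have m1 : (4999 : ℝ) * a.n / 30000 * (-Real.log w) ≤ 4999 * (3 * q + 2) / 30000 * 0.0004000801 := by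
      apply mul_le_mul _ l2 _ (by positivity)
      · linarith
      · have : Real.log w < 0 := Real.log_neg hw0 hw1
        linarith
    have m2 : (q : ℝ) * Real.log 0.9998 ≤ q * (-0.00020002) := mul_le_mul_of_nonneg_left l1 hq0
    have m3 : (t : ℝ) * Real.log 2 ≤ t * 0.6931471808 := mul_le_mul_of_nonneg_left l3.le ht0
    nlinarith
  have h4 : ((T1 a).length : ℝ) ≤ (2 ^ (q - t + 3) : ℝ) :=
    le_of_mul_le_mul_right h3 (by positivity)
  exact_mod_cast h4

/-- The size of the matrices. -/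
theorem kk_le : kk a ≤ 2 ^ (a.n / 3 - a.n / 1000000000 + 3) := by
  unfold kk
  split_ifs
  · exact Nat.pow_le_pow_right (by norm_num) ((n3_le a).trans (by omega))
  · exact T1_le a

theorem T1_le_kk : (T1 a).length ≤ kk a := by
  unfold kk
  split_ifs with h
  · exact h
  · exact le_refl _

theorem n3_le_kk : 2 ^ n3 a ≤ kk a := by
  unfold kk
  split_ifs with h
  · exact le_refl _
  · exact (Nat.lt_of_not_le h).le

theorem n2_le_kk : 2 ^ n2 a ≤ kk a :=
  (Nat.pow_le_pow_right (by norm_num) (n2_le a)).trans (n3_le_kk a)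

theorem n1_le_kk : 2 ^ n1 a ≤ kk a * kk a := by
  calc 2 ^ n1 a ≤ 2 ^ (2 * n3 a) := Nat.pow_le_pow_right (by norm_num) (n1_le a)
    _ = 2 ^ n3 a * 2 ^ n3 a := by rw [two_mul, pow_add]
    _ ≤ kk a * kk a := Nat.mul_le_mul (n3_le_kk a) (n3_le_kk a)

theorem kk_pos : 0 < kk a := lt_of_lt_of_le (by positivity) (n3_le_kk a)

/-- The exponential. -/
theorem kb_rpow {τ : ℝ} (hτ : 2 ≤ τ) (n : ℕ) :
    ((2 : ℝ) ^ (n / 3 - n / 1000000000 + 3)) ^ τ ≤
      16 ^ τ * (2 : ℝ) ^ ((τ / 3 - 0.000000002) * n) := by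
  have h1 : (2 : ℝ) ^ (n / 3 - n / 1000000000 + 3) ≤ (2 : ℝ) ^ ((1 / 3 - 0.000000001) * (n : ℝ) + 4) := by
    rw [← Real.rpow_natCast]
    apply Real.rpow_le_rpow_of_exponent_le (by norm_num)
    have htq : n / 1000000000 ≤ n / 3 := by omega
    rw [Nat.cast_add, Nat.cast_sub htq]
    have c1 : (3 : ℝ) * ((n / 3 : ℕ) : ℝ) ≤ n := by exact_mod_cast Nat.mul_div_le n 3
    have c2 : (n : ℝ) ≤ 1000000000 * ((n / 1000000000 : ℕ) : ℝ) + 1000000000 := by
      have : n ≤ 1000000000 * (n / 1000000000) + 1000000000 := by omega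
      exact_mod_cast this
    push_cast
    linarith
  have h2 : ((2 : ℝ) ^ (n / 3 - n / 1000000000 + 3)) ^ τ ≤
      ((2 : ℝ) ^ ((1 / 3 - 0.000000001) * (n : ℝ) + 4)) ^ τ :=
    Real.rpow_le_rpow (by positivity) h1 (by linarith)
  refine h2.trans ?_
  have e16 : (16 : ℝ) ^ τ = (2 : ℝ) ^ (4 * τ) := by
    rw [Real.rpow_mul (by norm_num)]
    norm_num
  rw [← Real.rpow_mul (by norm_num), e16, ← Real.rpow_add (by norm_num)]
  apply Real.rpow_le_rpow_of_exponent_le (by norm_num)
  have hn0 : (0 : ℝ) ≤ n := Nat.cast_nonneg n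
  nlinarith [mul_nonneg hn0 (by linarith : (0 : ℝ) ≤ τ - 2)]

/-- The exponential, without a constant. -/
theorem kb_rpow2 {τ : ℝ} (hτ : 2 ≤ τ) {n : ℕ} (hn : 8000000000 ≤ n) :
    ((2 : ℝ) ^ (n / 3 - n / 1000000000 + 3)) ^ τ ≤ (2 : ℝ) ^ ((τ / 3 - 0.000000001) * n) := by
  have h1 : (2 : ℝ) ^ (n / 3 - n / 1000000000 + 3) ≤ (2 : ℝ) ^ ((1 / 3 - 0.000000001) * (n : ℝ) + 4) := by
    rw [← Real.rpow_natCast]
    apply Real.rpow_le_rpow_of_exponent_le (by norm_num)
    have htq : n / 1000000000 ≤ n / 3 := by omega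
    rw [Nat.cast_add, Nat.cast_sub htq]
    have c1 : (3 : ℝ) * ((n / 3 : ℕ) : ℝ) ≤ n := by exact_mod_cast Nat.mul_div_le n 3
    have c2 : (n : ℝ) ≤ 1000000000 * ((n / 1000000000 : ℕ) : ℝ) + 1000000000 := by
      have : n ≤ 1000000000 * (n / 1000000000) + 1000000000 := by omega
      exact_mod_cast this
    push_cast
    linarith
  have h2 : ((2 : ℝ) ^ (n / 3 - n / 1000000000 + 3)) ^ τ ≤
      ((2 : ℝ) ^ ((1 / 3 - 0.000000001) * (n : ℝ) + 4)) ^ τ :=
    Real.rpow_le_rpow (by positivity) h1 (by linarith)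
  refine h2.trans ?_
  rw [← Real.rpow_mul (by norm_num)]
  apply Real.rpow_le_rpow_of_exponent_le (by norm_num)
  have hn0 : (8000000000 : ℝ) ≤ n := by exact_mod_cast hn
  nlinarith [mul_nonneg (by linarith : (0 : ℝ) ≤ (n : ℝ) - 8000000000) (by linarith : (0 : ℝ) ≤ τ - 2)]

end Pool.Agent.MPa9445a.BW
end

section

/-! The parts of a vector. -/

set_option autoImplicit false

open Finset

namespace Pool.Agent.MPa9445a.BW

open Pool.Agent.MPa9445a.BE (gt bit tb flt lin Phi vec code argmax matMul fv fv_tb fv_lin wtm wt bq bil_eq vec_code)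

/-- Every predicate is given by a code. -/
theorem exists_bits (k : ℕ) (p : ℕ → Prop) [DecidablePred p] :
    ∃ c < 2 ^ k, ∀ j < k, bit c j = if p j then 1 else 0 := by
  refine ⟨code k (tb k fun j => if p j then 1 else -1), BE.code_lt _ _, fun j hj => ?_⟩
  have h1 : fv k (vec k (code k (tb k fun j => if p j then 1 else -1))) =
      fv k (tb k fun j => if p j then 1 else -1) := by
    apply vec_code
    intro v
    rw [fv_tb]
    split_ifs
    · exact Or.inl rfl
    · exact Or.inr rfl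
  have h2 := congrFun h1 ⟨j, hj⟩
  rw [fv_tb, vec, fv_tb] at h2
  simp only at h2
  split_ifs at h2 ⊢ with h3
  · omega
  · omega

section

variable {a : In}

/-- Different vertices have different positions. -/
theorem pt_inj (h : a.i * (a.n / 3) ≤ a.n) {u v : ℕ} (hu : u < a.n) (hv : v < a.n)
    (e : pt a u = pt a v) : u = v := by
  unfold pt at e
  have h1 : u + a.n - a.i * (a.n / 3) = u + (a.n - a.i * (a.n / 3)) := by omega
  have h2 : v + a.n - a.i * (a.n / 3) = v + (a.n - a.i * (a.n / 3)) := by omega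
  rw [h1, h2] at e
  have h3 : u ≡ v [MOD a.n] := Nat.ModEq.add_right_cancel' _ e
  have h4 := h3
  unfold Nat.ModEq at h4
  rwa [Nat.mod_eq_of_lt hu, Nat.mod_eq_of_lt hv] at h4

theorem pt_lt (hn : 0 < a.n) (v : ℕ) : pt a v < a.n := Nat.mod_lt _ hn

/-- The position of the vertex number `x` of the third. -/
theorem pt_third {x : ℕ} (hx : x < a.n) : pt a (a.i * (a.n / 3) + x) = x := by
  unfold pt
  have h1 : a.i * (a.n / 3) + x + a.n - a.i * (a.n / 3) = x + a.n := by omega
  rw [h1, Nat.add_mod_right, Nat.mod_eq_of_lt hx]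

/-- The part of a vector with the positions `s, …, s + k - 1`. -/
def rp (a : In) (s k : ℕ) (x : Fin a.n → ℤ) : Fin a.n → ℤ := fun v =>
  if s ≤ pt a v ∧ pt a v < s + k then x v else 0

theorem fv_pv (s k c : ℕ) (v : Fin a.n) : fv a.n (pv a s k c) v =
    if s ≤ pt a v ∧ pt a v < s + k then 2 * (bit c (pt a v - s) : ℤ) - 1 else 0 := by
  unfold pv
  rw [fv_tb]

private theorem C1_bit (c i : ℕ) : bit c i = 0 ∨ bit c i = 1 := Nat.mod_two_eq_zero_or_one _

theorem fv_pv_one {s k : ℕ} (c : ℕ) {v : Fin a.n} (h : s ≤ pt a v ∧ pt a v < s + k) :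
    fv a.n (pv a s k c) v = 1 ∨ fv a.n (pv a s k c) v = -1 := by
  rw [fv_pv, if_pos h]
  rcases C1_bit c (pt a v - s) with h1 | h1 <;> rw [h1] <;> norm_num

theorem fv_pv_zero {s k : ℕ} (c : ℕ) {v : Fin a.n} (h : ¬ (s ≤ pt a v ∧ pt a v < s + k)) :
    fv a.n (pv a s k c) v = 0 := by
  rw [fv_pv, if_neg h]

theorem fv_pv_abs (s k c : ℕ) (v : Fin a.n) : |fv a.n (pv a s k c) v| ≤ 1 := by
  by_cases h : s ≤ pt a v ∧ pt a v < s + k
  · rcases fv_pv_one c h with h1 | h1 <;> rw [h1] <;> norm_num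
  · rw [fv_pv_zero c h]
    norm_num

open scoped Classical in
/-- Every part has a code. -/
theorem exists_pv (h : a.i * (a.n / 3) ≤ a.n) {x : Fin a.n → ℤ} (hx : ∀ v, x v = 1 ∨ x v = -1)
    (s k : ℕ) : ∃ c < 2 ^ k, fv a.n (pv a s k c) = rp a s k x ∧
      ∀ v : Fin a.n, s ≤ pt a v → pt a v < s + k → 2 * (bit c (pt a v - s) : ℤ) - 1 = x v := by
  obtain ⟨c, hc, hb⟩ := exists_bits k fun j => ∃ v : Fin a.n, pt a v = s + j ∧ x v = 1
  have key : ∀ v : Fin a.n, s ≤ pt a v → pt a v < s + k → 2 * (bit c (pt a v - s) : ℤ) - 1 = x v := by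
    intro v h1 h2
    rw [hb (pt a v - s) (by omega)]
    by_cases h3 : x v = 1
    · rw [if_pos ⟨v, by omega, h3⟩, h3]
      norm_num
    · rw [if_neg]
      · rw [(hx v).resolve_left h3]
        norm_num
      · rintro ⟨u, hu1, hu2⟩
        apply h3
        have h4 : u = v := by
          apply Fin.ext
          apply pt_inj h u.2 v.2
          omega
        rw [← h4]
        exact hu2
  refine ⟨c, hc, ?_, key⟩
  funext v
  rw [fv_pv, rp]
  by_cases h1 : s ≤ pt a v ∧ pt a v < s + k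
  · rw [if_pos h1, if_pos h1]
    exact key v h1.1 h1.2
  · rw [if_neg h1, if_neg h1]

/-- The three parts of a vector. -/
theorem rp_add (hn : 0 < a.n) (x : Fin a.n → ℤ) (v : Fin a.n) :
    rp a 0 (n1 a) x v + rp a (n1 a) (n2 a) x v + rp a (n1 a + n2 a) (n3 a) x v = x v := by
  have h1 := n_add a
  have h2 := pt_lt hn (v : ℕ)
  unfold rp
  by_cases c1 : pt a v < n1 a
  · rw [if_pos (by omega), if_neg (by omega), if_neg (by omega)]
    ring
  · by_cases c2 : pt a v < n1 a + n2 a
    · rw [if_neg (by omega), if_pos (by omega), if_neg (by omega)]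
      ring
    · rw [if_neg (by omega), if_neg (by omega), if_pos (by omega)]
      ring

/-- A vector composed of three parts. -/
theorem parts_sign (hn : 0 < a.n) (c1 c2 c3 : ℕ) (v : Fin a.n) :
    fv a.n (pv a 0 (n1 a) c1) v + fv a.n (pv a (n1 a + n2 a) (n3 a) c3) v +
      fv a.n (pv a (n1 a) (n2 a) c2) v = 1 ∨
    fv a.n (pv a 0 (n1 a) c1) v + fv a.n (pv a (n1 a + n2 a) (n3 a) c3) v +
      fv a.n (pv a (n1 a) (n2 a) c2) v = -1 := by
  have h1 := n_add a
  have h2 := pt_lt hn (v : ℕ)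
  by_cases k1 : pt a v < n1 a
  · rw [fv_pv_zero c2 (by omega), fv_pv_zero c3 (by omega), add_zero, add_zero]
    exact fv_pv_one c1 (by omega)
  · by_cases k2 : pt a v < n1 a + n2 a
    · rw [fv_pv_zero c1 (by omega), fv_pv_zero c3 (by omega), zero_add, zero_add]
      exact fv_pv_one c2 (by omega)
    · rw [fv_pv_zero c1 (by omega), fv_pv_zero c2 (by omega), zero_add, add_zero]
      exact fv_pv_one c3 (by omega)

/-- A vector composed of two parts. -/
theorem parts_abs13 (c1 c3 : ℕ) (v : Fin a.n) :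
    |fv a.n (pv a 0 (n1 a) c1) v + fv a.n (pv a (n1 a + n2 a) (n3 a) c3) v| ≤ 1 := by
  by_cases k1 : pt a v < n1 a
  · rw [fv_pv_zero c3 (by omega), add_zero]
    exact fv_pv_abs _ _ _ _
  · rw [fv_pv_zero c1 (by omega), zero_add]
    exact fv_pv_abs _ _ _ _

theorem parts_abs12 (c1 c2 : ℕ) (v : Fin a.n) :
    |fv a.n (pv a 0 (n1 a) c1) v + fv a.n (pv a (n1 a) (n2 a) c2) v| ≤ 1 := by
  by_cases k1 : pt a v < n1 a
  · rw [fv_pv_zero c2 (by omega), add_zero]
    exact fv_pv_abs _ _ _ _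
  · rw [fv_pv_zero c1 (by omega), zero_add]
    exact fv_pv_abs _ _ _ _

theorem parts_abs23 (c2 c3 : ℕ) (v : Fin a.n) :
    |fv a.n (pv a (n1 a) (n2 a) c2) v + fv a.n (pv a (n1 a + n2 a) (n3 a) c3) v| ≤ 1 := by
  by_cases k1 : pt a v < n1 a + n2 a
  · rw [fv_pv_zero c3 (by omega), add_zero]
    exact fv_pv_abs _ _ _ _
  · rw [fv_pv_zero c2 (by omega), zero_add]
    exact fv_pv_abs _ _ _ _

end

/-- The quadratic form of a sum of three vectors. -/
theorem bq_three {n : ℕ} (W : Matrix (Fin n) (Fin n) ℤ) (x y z : Fin n → ℤ) :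
    bq W (fun v => x v + z v + y v) (fun v => x v + z v + y v) =
      bq W (fun v => x v + z v) (fun v => x v + z v) +
      (bq W (fun v => x v + y v) (fun v => x v + y v) - bq W x x) +
      (bq W (fun v => y v + z v) (fun v => y v + z v) - bq W y y - bq W z z) := by
  unfold bq
  simp only [← Finset.sum_add_distrib, ← Finset.sum_sub_distrib]
  refine Finset.sum_congr rfl fun u _ => Finset.sum_congr rfl fun v _ => ?_
  ring

theorem wtm_bd {n : ℕ} (hn : 0 < n) {M : List ℤ} (hM : ∀ x ∈ M, |x| ≤ 1) (u v : Fin n) :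
    |wtm n M u v| ≤ 2 * (n : ℤ) ^ 2 := by
  have h1 : (1 : ℤ) ≤ (n : ℤ) ^ 2 := one_le_pow₀ (by exact_mod_cast hn)
  have h2 : |gt M ((u : ℕ) * n + v)| ≤ 1 := by
    show |M.getD ((u : ℕ) * n + v) 0| ≤ 1
    by_cases h : (u : ℕ) * n + v < M.length
    · rw [List.getD_eq_getElem _ _ h]
      exact hM _ (List.getElem_mem h)
    · rw [List.getD_eq_default _ _ (by omega)]
      norm_num
  unfold wtm wt
  split_ifs
  · rw [abs_zero]
    positivity
  · rw [abs_le] at h2 ⊢
    constructor <;> linarith [h2.1, h2.2]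

theorem bq_bd {n : ℕ} (hn : 0 < n) {M : List ℤ} (hM : ∀ x ∈ M, |x| ≤ 1) {x : Fin n → ℤ}
    (hx : ∀ v, |x v| ≤ 1) : |bq (wtm n M) x x| ≤ 2 * (n : ℤ) ^ 4 := by
  unfold bq
  calc |∑ u, ∑ v, wtm n M u v * x u * x v| ≤ ∑ u : Fin n, ∑ v : Fin n, 2 * (n : ℤ) ^ 2 * 1 * 1 := by
        refine (Finset.abs_sum_le_sum_abs _ _).trans (Finset.sum_le_sum fun u _ => ?_)
        refine (Finset.abs_sum_le_sum_abs _ _).trans (Finset.sum_le_sum fun v _ => ?_)
        rw [abs_mul, abs_mul]
        exact mul_le_mul (mul_le_mul (wtm_bd hn hM u v) (hx u) (abs_nonneg _) (by positivity)) (hx v)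
          (abs_nonneg _) (by positivity)
    _ = 2 * (n : ℤ) ^ 4 := by
        rw [Finset.sum_const, Finset.sum_const, Finset.card_univ, Fintype.card_fin, smul_smul,
          nsmul_eq_mul]
        push_cast
        ring

theorem Phi_eq (n : ℕ) (M z : List ℤ) : Phi n M z = bq (wtm n M) (fv n z) (fv n z) := by
  unfold Phi
  rw [bil_eq]

theorem Phi_lin (n : ℕ) (M y z : List ℤ) : Phi n M (lin n 1 y 1 z) =
    bq (wtm n M) (fun v => fv n y v + fv n z v) (fun v => fv n y v + fv n z v) := by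
  rw [Phi_eq, fv_lin]
  simp only [one_mul]

end Pool.Agent.MPa9445a.BW
end
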