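import Pool.Agent.Lib.MP_a9445a_lc.SP.Rb
import Pool.Agent.Lib.MP_a9445a_lc.Mg.G112

section

section

/-!
Averages over sign patterns, the clipped function, signed sums. Basic facts.
-/

set_option autoImplicit false

open Finset

namespace Pool.Agent.MPa9445a.BE.Dc

variable {n : ℕ}

/-- The sign of a Boolean. -/
def sg (b : Bool) : ℝ := if b then 1 else -1

/-- The average over all sign patterns. -/
noncomputable def Ev (F : (Fin n → Bool) → ℝ) : ℝ := (∑ ε, F ε) / 2 ^ n

/-- The function `s / (4 l)` clipped to `[-1/4, 1/4]`. -/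
noncomputable def ph (l s : ℝ) : ℝ := max (-(1 / 4)) (min (1 / 4) (s / (4 * l)))

/-- The signed sum of the row `v`. -/
noncomputable def gs (T : Matrix (Fin n) (Fin n) ℝ) (ε : Fin n → Bool) (v : Fin n) : ℝ :=
  ∑ u, T v u * sg (ε u)

/-- The signs in `A` are changed. -/
def flp (A : Finset (Fin n)) (ε : Fin n → Bool) : Fin n → Bool :=
  fun w => if w ∈ A then !ε w else ε w

theorem sg_mul_self (b : Bool) : sg b * sg b = 1 := by cases b <;> simp [sg]

theorem sg_not (b : Bool) : sg (!b) = -sg b := by cases b <;> simp [sg]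

theorem abs_sg (b : Bool) : |sg b| = 1 := by cases b <;> simp [sg]

theorem sg_mono {a b : Bool} (h : a ≤ b) : sg a ≤ sg b := by
  cases a <;> cases b
  · exact le_refl _
  · norm_num [sg]
  · exact absurd h (by decide)
  · exact le_refl _

theorem Ev_add (F F' : (Fin n → Bool) → ℝ) : Ev (fun ε => F ε + F' ε) = Ev F + Ev F' := by
  unfold Ev
  rw [Finset.sum_add_distrib, add_div]

theorem Ev_sub (F F' : (Fin n → Bool) → ℝ) : Ev (fun ε => F ε - F' ε) = Ev F - Ev F' := by
  unfold Ev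
  rw [Finset.sum_sub_distrib, sub_div]

theorem Ev_smul (c : ℝ) (F : (Fin n → Bool) → ℝ) : Ev (fun ε => c * F ε) = c * Ev F := by
  unfold Ev
  rw [← Finset.mul_sum, mul_div_assoc]

theorem Ev_neg (F : (Fin n → Bool) → ℝ) : Ev (fun ε => -F ε) = -Ev F := by
  unfold Ev
  rw [Finset.sum_neg_distrib, neg_div]

theorem Ev_sum {ι : Type*} (s : Finset ι) (F : ι → (Fin n → Bool) → ℝ) :
    Ev (fun ε => ∑ i ∈ s, F i ε) = ∑ i ∈ s, Ev (F i) := by
  unfold Ev
  rw [Finset.sum_comm, Finset.sum_div]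

theorem Ev_const (c : ℝ) : Ev (fun _ : Fin n → Bool => c) = c := by
  unfold Ev
  rw [Finset.sum_const, Finset.card_univ, Fintype.card_fun, Fintype.card_bool, Fintype.card_fin,
    nsmul_eq_mul]
  push_cast
  field_simp

theorem Ev_mono {F F' : (Fin n → Bool) → ℝ} (h : ∀ ε, F ε ≤ F' ε) : Ev F ≤ Ev F' := by
  unfold Ev
  exact div_le_div_of_nonneg_right (Finset.sum_le_sum fun ε _ => h ε) (by positivity)

theorem exists_ge_Ev (F : (Fin n → Bool) → ℝ) : ∃ ε, Ev F ≤ F ε := by
  by_contra h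
  push Not at h
  have h1 : Ev F < Ev F := by
    conv_lhs => unfold Ev
    rw [div_lt_iff₀ (by positivity)]
    calc ∑ ε, F ε < ∑ _ε : Fin n → Bool, Ev F :=
          Finset.sum_lt_sum_of_nonempty ⟨fun _ => true, mem_univ _⟩ fun ε _ => h ε
      _ = Ev F * 2 ^ n := by
          rw [Finset.sum_const, Finset.card_univ, Fintype.card_fun, Fintype.card_bool,
            Fintype.card_fin, nsmul_eq_mul, mul_comm]
          push_cast
          rfl
  exact lt_irrefl _ h1

theorem flp_flp (A : Finset (Fin n)) (ε : Fin n → Bool) : flp A (flp A ε) = ε := by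
  funext w
  unfold flp
  by_cases h : w ∈ A
  · simp [h]
  · simp [h]

/-- The average is invariant under a change of the signs in `A`. -/
theorem Ev_flp (A : Finset (Fin n)) (F : (Fin n → Bool) → ℝ) :
    Ev (fun ε => F (flp A ε)) = Ev F := by
  unfold Ev
  congr 1
  exact Equiv.sum_comp (Function.Involutive.toPerm (flp A) (flp_flp A)) F

theorem sg_flp (A : Finset (Fin n)) (ε : Fin n → Bool) (w : Fin n) :
    sg (flp A ε w) = if w ∈ A then -sg (ε w) else sg (ε w) := by
  unfold flp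
  split_ifs
  · exact sg_not _
  · rfl

end Pool.Agent.MPa9445a.BE.Dc
end

section

/-!
# TASK SP PF: the clipped function

`ph l s = max (-(1/4)) (min (1/4) (s / (4 l)))`, `l > 0`.
`ph_le`, `ph_odd`, `ph_mono` are immediate. `ph_lip`: `max` and `min` with a constant are contractions (`abs_max_sub_max_le_abs`, `abs_min_sub_min_le_max` or by cases).
`ph_low`: for `|s| ≤ l` the value is `s / (4 l)`, and `s ^ 4 ≥ 0`. For `s > l` (and by `ph_odd` for `s < - l`) the value is `1 / 4`; with `u = s / l > 1` the claim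
is `u² - (4/27) u⁴ ≤ u`, i.e. `u - 1 ≤ (4/27) u³`: `(4/27) u³ - u + 1 = (u - 3/2)² (4/27) (u + 3) ≥ 0`.
`ph_prod`: `|ph l s|` is at most `|s| / (4 l)` as `ph l 0 = 0` (`ph_lip`).
-/

set_option autoImplicit false

open Finset

namespace Pool.Agent.MPa9445a.BE.Dc

theorem ph_le (l s : ℝ) : |ph l s| ≤ 1 / 4 := by
  rw [ph, abs_le]
  exact ⟨le_max_left _ _, max_le (by norm_num) (min_le_left _ _)⟩

theorem ph_odd (l s : ℝ) : ph l (-s) = -ph l s := by
  rw [ph, ph, neg_div]
  generalize s / (4 * l) = y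
  simp only [max_def, min_def]
  split_ifs <;> linarith

theorem ph_mono {l : ℝ} (hl : 0 < l) {s t : ℝ} (h : s ≤ t) : ph l s ≤ ph l t := by
  rw [ph, ph]
  exact max_le_max_left _ (min_le_min_left _ (div_le_div_of_nonneg_right h (by positivity)))

theorem ph_lip {l : ℝ} (hl : 0 < l) (s t : ℝ) : |ph l s - ph l t| ≤ |s - t| / (4 * l) := by
  have h1 : |s - t| / (4 * l) = |s / (4 * l) - t / (4 * l)| := by
    rw [← sub_div, abs_div, abs_of_pos (by positivity : 0 < 4 * l)]
  rw [ph, ph, h1]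
  generalize s / (4 * l) = x
  generalize t / (4 * l) = y
  rw [abs_le]
  have h2 := le_abs_self (x - y)
  have h3 := neg_abs_le (x - y)
  have h4 := abs_nonneg (x - y)
  simp only [max_def, min_def]
  split_ifs <;> constructor <;> linarith

private theorem PF_pos {l : ℝ} (hl : 0 < l) {s : ℝ} (hs : 0 ≤ s) :
    (s ^ 2 - 4 / 27 * s ^ 4 / l ^ 2) / (4 * l) ≤ s * ph l s := by
  have h4 : 0 < 4 * l := by positivity
  by_cases h : s ≤ l
  · have h1 : ph l s = s / (4 * l) := by
      have h2 : s / (4 * l) ≤ 1 / 4 := by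
        rw [div_le_iff₀ h4]
        linarith
      have h3 : 0 ≤ s / (4 * l) := div_nonneg hs h4.le
      rw [ph, min_eq_right h2, max_eq_right (by linarith)]
    rw [h1, ← mul_div_assoc]
    refine div_le_div_of_nonneg_right ?_ h4.le
    have h5 : 0 ≤ 4 / 27 * s ^ 4 / l ^ 2 := by positivity
    nlinarith
  · rw [not_le] at h
    have h1 : ph l s = 1 / 4 := by
      have h2 : 1 / 4 ≤ s / (4 * l) := by
        rw [le_div_iff₀ h4]
        linarith
      rw [ph, min_eq_left h2, max_eq_right (by norm_num)]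
    obtain ⟨u, hu⟩ : ∃ u, s = u * l := ⟨s / l, by field_simp⟩
    have hu1 : 1 < u := by
      rw [hu] at h
      by_contra hc
      nlinarith
    rw [h1, div_le_iff₀ h4, hu]
    have h5 : 4 / 27 * (u * l) ^ 4 / l ^ 2 = 4 / 27 * u ^ 4 * l ^ 2 := by
      field_simp
    rw [h5]
    have h6 : 0 ≤ 1 - u + 4 / 27 * u ^ 3 := by nlinarith [sq_nonneg (u - 3 / 2)]
    have h7 : 0 ≤ u * l ^ 2 * (1 - u + 4 / 27 * u ^ 3) := by positivity
    nlinarith

theorem ph_low {l : ℝ} (hl : 0 < l) (s : ℝ) :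
    (s ^ 2 - 4 / 27 * s ^ 4 / l ^ 2) / (4 * l) ≤ s * ph l s := by
  rcases le_total 0 s with h | h
  · exact PF_pos hl h
  · have h1 := PF_pos hl (s := -s) (by linarith)
    rw [ph_odd] at h1
    have e1 : (-s) ^ 2 = s ^ 2 := by ring
    have e2 : (-s) ^ 4 = s ^ 4 := by ring
    rw [e1, e2] at h1
    linarith

end Pool.Agent.MPa9445a.BE.Dc
end

section

/-!
# TASK SP PH: the inequality of Harris

`Ev_harris`: `fkg` (`Mathlib.Combinatorics.SetFamily.FourFunctions`) for the distributive lattice `Fin n → Bool`, `μ = 1`, applied to `F + c`, `G + c` where `c` is so large that both are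
nonnegative (`c = ∑ ε, (|F ε| + |G ε|)`); the additional terms cancel (`Ev_add`, `Ev_smul`, `Ev_const`).
`Ev_odd`: `Ev_flp univ`: if `F (flp univ ε) = - F ε` then `Ev F = - Ev F`.
-/

set_option autoImplicit false

open Finset

namespace Pool.Agent.MPa9445a.BE.Dc

variable {n : ℕ}

private theorem PH_nonneg {F G : (Fin n → Bool) → ℝ} (hF : Monotone F) (hG : Monotone G)
    (hF0 : 0 ≤ F) (hG0 : 0 ≤ G) : Ev F * Ev G ≤ Ev (fun ε => F ε * G ε) := by
  have h := fkg (μ := fun _ : Fin n → Bool => (1 : ℝ)) (f := F) (g := G)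
    (fun _ => zero_le_one) hF0 hG0 hF hG (fun _ _ => le_refl _)
  simp only [one_mul, Finset.sum_const, Finset.card_univ, Fintype.card_fun, Fintype.card_bool,
    Fintype.card_fin, nsmul_eq_mul, mul_one] at h
  push_cast at h
  unfold Ev
  have h2 : (0 : ℝ) < 2 ^ n := by positivity
  rw [div_mul_div_comm, div_le_div_iff₀ (by positivity) h2]
  calc (∑ ε, F ε) * (∑ ε, G ε) * 2 ^ n ≤ (2 ^ n * ∑ ε, F ε * G ε) * 2 ^ n :=
        mul_le_mul_of_nonneg_right h h2.le
    _ = (∑ ε, F ε * G ε) * (2 ^ n * 2 ^ n) := by ring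

theorem Ev_harris {F G : (Fin n → Bool) → ℝ} (hF : Monotone F) (hG : Monotone G) :
    Ev F * Ev G ≤ Ev (fun ε => F ε * G ε) := by
  obtain ⟨c, hc⟩ : ∃ c : ℝ, ∀ ε, |F ε| ≤ c ∧ |G ε| ≤ c := by
    refine ⟨∑ ε, (|F ε| + |G ε|), fun ε => ?_⟩
    have h : |F ε| + |G ε| ≤ ∑ ε, (|F ε| + |G ε|) :=
      Finset.single_le_sum (f := fun ε => |F ε| + |G ε|) (fun _ _ => by positivity) (mem_univ ε)
    exact ⟨by linarith [abs_nonneg (G ε)], by linarith [abs_nonneg (F ε)]⟩
  have h := PH_nonneg (F := fun ε => F ε + c) (G := fun ε => G ε + c)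
    (fun a b hab => by simpa using hF hab) (fun a b hab => by simpa using hG hab)
    (fun ε => by
      have := (abs_le.1 (hc ε).1).1
      show (0 : ℝ) ≤ F ε + c
      linarith)
    (fun ε => by
      have := (abs_le.1 (hc ε).2).1
      show (0 : ℝ) ≤ G ε + c
      linarith)
  have e1 : Ev (fun ε => F ε + c) = Ev F + c := by
    rw [Ev_add F (fun _ => c), Ev_const]
  have e2 : Ev (fun ε => G ε + c) = Ev G + c := by
    rw [Ev_add G (fun _ => c), Ev_const]
  have e3 : Ev (fun ε => (F ε + c) * (G ε + c)) =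
      Ev (fun ε => F ε * G ε) + (c * Ev F + (c * Ev G + c * c)) := by
    have : (fun ε => (F ε + c) * (G ε + c)) =
        fun ε => F ε * G ε + (c * F ε + (c * G ε + c * c)) := by
      funext ε; ring
    rw [this, Ev_add (fun ε => F ε * G ε) (fun ε => c * F ε + (c * G ε + c * c)),
      Ev_add (fun ε => c * F ε) (fun ε => c * G ε + c * c),
      Ev_add (fun ε => c * G ε) (fun _ => c * c), Ev_smul, Ev_smul, Ev_const]
  rw [e1, e2, e3] at h
  nlinarith [h]

theorem Ev_odd {F : (Fin n → Bool) → ℝ} (h : ∀ ε, F (flp univ ε) = -F ε) : Ev F = 0 := by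
  have h1 := Ev_flp univ F
  have h2 : (fun ε => F (flp univ ε)) = fun ε => -F ε := funext h
  rw [h2, Ev_neg] at h1
  linarith

end Pool.Agent.MPa9445a.BE.Dc
end
end

section

section

/-!
# TASK SP PM: second and fourth moment of a signed sum

`Ev_pair`: for `u = v` by `sg_mul_self` and `Ev_const`; for `u ≠ v` the change of the sign of `u` (`Ev_flp {u}`) changes the sign of the product.
`Ev_sq`: expand the square, `Ev_sum`, `Ev_smul`, `Ev_pair`.
`Ev_four`: induction on `n` (`Fin.consEquiv`, `Fin.sum_univ_succ`), or: for a finite set `s` of indices let `X_s = ∑ u ∈ s, a u sg (ε u)`; then by induction on `s`, with `u ∉ s`, `σ = a u`,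
`E X_{insert u s}^4 = E X_s^4 + 6 σ² E X_s² + σ⁴` (the odd terms vanish by `Ev_flp {u}`: `X_s` does not change, `sg (ε u)` changes its sign; `sg² = 1`), `E X_s² = ∑ u ∈ s, a u ²`, and
`3 q² + 6 σ² q + σ⁴ ≤ 3 (q + σ²)²`.
-/

set_option autoImplicit false

open Finset

namespace Pool.Agent.MPa9445a.BE.Dc

variable {n : ℕ}

private theorem PM_zero {F : (Fin n → Bool) → ℝ} (A : Finset (Fin n))
    (h : ∀ ε, F (flp A ε) = -F ε) : Ev F = 0 := by
  have h1 := Ev_flp A F
  have h2 : Ev (fun ε => F (flp A ε)) = -Ev F := by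
    rw [← Ev_neg]
    congr 1
    funext ε
    exact h ε
  linarith

private theorem PM_inv (a : Fin n → ℝ) (s : Finset (Fin n)) {u : Fin n} (hu : u ∉ s)
    (ε : Fin n → Bool) :
    ∑ w ∈ s, a w * sg (flp {u} ε w) = ∑ w ∈ s, a w * sg (ε w) := by
  refine Finset.sum_congr rfl fun w hw => ?_
  rw [sg_flp, if_neg]
  rw [Finset.mem_singleton]
  rintro rfl
  exact hu hw

private theorem PM_sq (a : Fin n → ℝ) (s : Finset (Fin n)) :
    Ev (fun ε : Fin n → Bool => (∑ u ∈ s, a u * sg (ε u)) ^ 2) = ∑ u ∈ s, a u ^ 2 := by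
  induction s using Finset.induction_on with
  | empty =>
    simp only [Finset.sum_empty]
    rw [Ev_const]
    norm_num
  | insert u s hu ih =>
    have h1 : (fun ε : Fin n → Bool => (∑ w ∈ insert u s, a w * sg (ε w)) ^ 2) =
        fun ε => (a u ^ 2 + 2 * a u * (sg (ε u) * ∑ w ∈ s, a w * sg (ε w))) +
          (∑ w ∈ s, a w * sg (ε w)) ^ 2 := by
      funext ε
      rw [Finset.sum_insert hu]
      have h2 := sg_mul_self (ε u)
      calc (a u * sg (ε u) + ∑ w ∈ s, a w * sg (ε w)) ^ 2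
          = (a u ^ 2 * (sg (ε u) * sg (ε u)) + 2 * a u * (sg (ε u) * ∑ w ∈ s, a w * sg (ε w))) +
            (∑ w ∈ s, a w * sg (ε w)) ^ 2 := by ring
        _ = _ := by rw [h2, mul_one]
    have h3 : Ev (fun ε : Fin n → Bool => sg (ε u) * ∑ w ∈ s, a w * sg (ε w)) = 0 := by
      refine PM_zero {u} fun ε => ?_
      rw [PM_inv a s hu, sg_flp, if_pos (Finset.mem_singleton_self u)]
      ring
    rw [h1, Ev_add, Ev_add, Ev_const, Ev_smul, h3, ih, Finset.sum_insert hu]
    ring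

private theorem PM_four (a : Fin n → ℝ) (s : Finset (Fin n)) :
    Ev (fun ε : Fin n → Bool => (∑ u ∈ s, a u * sg (ε u)) ^ 4) ≤
      3 * (∑ u ∈ s, a u ^ 2) ^ 2 := by
  induction s using Finset.induction_on with
  | empty =>
    simp only [Finset.sum_empty]
    rw [Ev_const]
    norm_num
  | insert u s hu ih =>
    have h1 : (fun ε : Fin n → Bool => (∑ w ∈ insert u s, a w * sg (ε w)) ^ 4) =
        fun ε => ((a u ^ 4 + 4 * a u ^ 3 * (sg (ε u) * ∑ w ∈ s, a w * sg (ε w))) +
          (6 * a u ^ 2 * (∑ w ∈ s, a w * sg (ε w)) ^ 2 +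
            4 * a u * (sg (ε u) * (∑ w ∈ s, a w * sg (ε w)) ^ 3))) +
          (∑ w ∈ s, a w * sg (ε w)) ^ 4 := by
      funext ε
      rw [Finset.sum_insert hu]
      have h2 := sg_mul_self (ε u)
      calc (a u * sg (ε u) + ∑ w ∈ s, a w * sg (ε w)) ^ 4
          = ((a u ^ 4 * ((sg (ε u) * sg (ε u)) * (sg (ε u) * sg (ε u))) +
            4 * a u ^ 3 * ((sg (ε u) * sg (ε u)) * (sg (ε u) * ∑ w ∈ s, a w * sg (ε w)))) +
            (6 * a u ^ 2 * ((sg (ε u) * sg (ε u)) * (∑ w ∈ s, a w * sg (ε w)) ^ 2) +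
            4 * a u * (sg (ε u) * (∑ w ∈ s, a w * sg (ε w)) ^ 3))) +
            (∑ w ∈ s, a w * sg (ε w)) ^ 4 := by ring
        _ = _ := by rw [h2]; ring
    have h3 : Ev (fun ε : Fin n → Bool => sg (ε u) * ∑ w ∈ s, a w * sg (ε w)) = 0 := by
      refine PM_zero {u} fun ε => ?_
      rw [PM_inv a s hu, sg_flp, if_pos (Finset.mem_singleton_self u)]
      ring
    have h4 : Ev (fun ε : Fin n → Bool => sg (ε u) * (∑ w ∈ s, a w * sg (ε w)) ^ 3) = 0 := by
      refine PM_zero {u} fun ε => ?_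
      rw [PM_inv a s hu, sg_flp, if_pos (Finset.mem_singleton_self u)]
      ring
    rw [h1, Ev_add, Ev_add, Ev_add, Ev_add, Ev_const, Ev_smul, Ev_smul, Ev_smul, h3, h4,
      PM_sq, Finset.sum_insert hu]
    nlinarith [ih, sq_nonneg (a u ^ 2)]

theorem Ev_pair (u v : Fin n) :
    Ev (fun ε : Fin n → Bool => sg (ε u) * sg (ε v)) = if u = v then 1 else 0 := by
  split_ifs with h
  · subst h
    simp only [sg_mul_self]
    exact Ev_const 1
  · refine PM_zero {u} fun ε => ?_
    rw [sg_flp, sg_flp, if_pos (Finset.mem_singleton_self u), if_neg]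
    · ring
    · rw [Finset.mem_singleton]
      exact fun h1 => h h1.symm

theorem Ev_sq (a : Fin n → ℝ) :
    Ev (fun ε : Fin n → Bool => (∑ u, a u * sg (ε u)) ^ 2) = ∑ u, a u ^ 2 := by
  exact PM_sq a Finset.univ

theorem Ev_four (a : Fin n → ℝ) :
    Ev (fun ε : Fin n → Bool => (∑ u, a u * sg (ε u)) ^ 4) ≤ 3 * (∑ u, a u ^ 2) ^ 2 := by
  exact PM_four a Finset.univ

end Pool.Agent.MPa9445a.BE.Dc
end

section

/-! The optimum has high energy if its ball is heavy. -/

set_option autoImplicit false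

open Finset

namespace Pool.Agent.MPa9445a.BE

variable {n : ℕ}

private theorem H2_par (M : Matrix (Fin n) (Fin n) ℝ) (z y : Fin n → ℝ) :
    qr M (z + y) + qr M (z - y) = 2 * qr M z + 2 * qr M y := by
  unfold qr
  rw [Finset.mul_sum, Finset.mul_sum, ← Finset.sum_add_distrib, ← Finset.sum_add_distrib]
  refine Finset.sum_congr rfl fun u _ => ?_
  rw [Finset.mul_sum, Finset.mul_sum, ← Finset.sum_add_distrib, ← Finset.sum_add_distrib]
  refine Finset.sum_congr rfl fun v _ => ?_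
  simp only [Pi.add_apply, Pi.sub_apply]
  ring

private theorem H2_add (A P : Matrix (Fin n) (Fin n) ℝ) (z : Fin n → ℝ) :
    qr (A + P) z = qr A z + qr P z := by
  unfold qr
  rw [← Finset.sum_add_distrib]
  refine Finset.sum_congr rfl fun u _ => ?_
  rw [← Finset.sum_add_distrib]
  refine Finset.sum_congr rfl fun v _ => ?_
  rw [Matrix.add_apply]
  ring

private theorem H2_even {U : Finset (Fin n)} {x : Fin n → ℤ} (hx : x ∈ Om U) :
    Even (∑ v, x v - U.card) := by
  have h1 := mem_Om.1 hx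
  have h2 : ∑ v, x v = ∑ v ∈ U, x v := by
    symm
    exact Finset.sum_subset (Finset.subset_univ U) fun v _ hv => (h1 v).2 hv
  have h3 : (U.card : ℤ) = ∑ _v ∈ U, (1 : ℤ) := by simp
  rw [h2, h3, ← Finset.sum_sub_distrib]
  refine Finset.even_sum _ fun v hv => ?_
  rcases (h1 v).1 hv with h | h
  · rw [h]
    exact ⟨0, by norm_num⟩
  · rw [h]
    exact ⟨-1, by norm_num⟩

private theorem H2_lin (N : Matrix (Fin n) (Fin n) ℝ) (X : Finset (Fin n → ℤ)) (hX : X.Nonempty)
    (x : Fin n → ℝ) (v : Fin n) :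
    (N.mulVec ((fun u => (∑ y ∈ X, (y u : ℝ)) / X.card) - x)) v =
      (∑ y ∈ X, (N.mulVec (vr y - x)) v) / X.card := by
  have hc : (X.card : ℝ) ≠ 0 := by exact_mod_cast hX.card_pos.ne'
  simp only [Matrix.mulVec, dotProduct, Pi.sub_apply, vr]
  rw [Finset.sum_comm, Finset.sum_div]
  refine Finset.sum_congr rfl fun u _ => ?_
  rw [← Finset.mul_sum, mul_div_assoc, Finset.sum_sub_distrib, Finset.sum_const, nsmul_eq_mul,
    sub_div, mul_div_cancel_left₀ _ hc]

/-- The optimum has high energy if its ball is heavy and the form has robust positive discrepancy. The proof is that of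
`heavy`, with `Rob` for the set of the vertices where the mean of the ball is larger than `1 / 2`. -/
theorem heavyR {S : Matrix (Fin n) (Fin n) ℤ} (hS : Mat S)
    {A P : Matrix (Fin n) (Fin n) ℝ} {t : ℝ}
    (ht : 0 < t) (hM : rl S = A + P) (hPs : ∀ u v, P u v = P v u)
    (hA : ∀ z : Fin n → ℝ, nr (A.mulVec z) ≤ t ^ 2 * nr z)
    (hP : ∀ z : Fin n → ℝ, t ^ 4 * nr (P.mulVec z) ≤ nr ((rl S ^ 3).mulVec z))
    (b : Fin n → ℤ) {U : Finset (Fin n)} {g ρ : ℝ} (hRob : Rob g ρ (rl S) U)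
    {x : Fin n → ℤ} (hx : x ∈ Om U)
    (hmax : ∀ y ∈ Om U, ∑ v, y v = ∑ v, x v → qf S y + lf b y ≤ qf S x + lf b x)
    (R : ℝ) (e : ℕ) (he : 8 * e * Real.log 2 ≤ ρ * n)
    (hh : 2 ^ U.card < (ball S b R U x).card * 2 ^ e) :
    g * Real.sqrt (D2 S * n) -
        2 * t * e * Real.log 2 - 2 * Real.sqrt (n * R) / t ^ 2 - 8 * (Real.sqrt (D2 S) + 1) ≤
      qr A (vr x) := by
  classical
  set X := ball S b R U x with hXdef
  have hXpos : 0 < X.card := by
    rcases Nat.eq_zero_or_pos X.card with h0 | h0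
    · rw [h0, zero_mul] at hh
      exact absurd hh (Nat.not_lt_zero _)
    · exact h0
  have hXne : X.Nonempty := Finset.card_pos.1 hXpos
  have hXR : (0 : ℝ) < X.card := by exact_mod_cast hXpos
  have hXmem : ∀ y ∈ X, y ∈ Om U ∧ ∑ v, y v = ∑ v, x v ∧ lf b y = lf b x ∧
      nr (((rl S) ^ 3).mulVec (vr y - vr x)) ≤ R := fun y hy => mem_ball.1 hy
  have hXsub : X ⊆ Om U := fun y hy => (hXmem y hy).1
  obtain ⟨z, hz⟩ : ∃ z : Fin n → ℝ, z = fun v => (∑ y ∈ X, (y v : ℝ)) / X.card := ⟨_, rfl⟩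
  -- the norm of the mean
  have hznr : nr z ≤ 2 * (e * Real.log 2) := by
    have h1 := mean_norm hXsub hXne
    rw [← hz] at h1
    refine h1.trans ?_
    refine mul_le_mul_of_nonneg_left ?_ (by norm_num)
    rw [← Real.log_pow]
    refine Real.log_le_log (by positivity) ?_
    rw [div_le_iff₀ hXR, mul_comm]
    have h2 : ((2 ^ U.card : ℕ) : ℝ) ≤ ((X.card * 2 ^ e : ℕ) : ℝ) := by exact_mod_cast hh.le
    push_cast at h2
    exact h2
  have hz1 : ∀ v, |z v| ≤ 1 := by
    intro v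
    rw [hz]
    simp only
    rw [abs_div, abs_of_pos hXR, div_le_one hXR]
    refine (Finset.abs_sum_le_sum_abs _ _).trans ?_
    have h2 : ∀ y ∈ X, |(y v : ℝ)| ≤ 1 := fun y hy => (nr_Om (hXsub hy)).2 v
    refine (Finset.sum_le_sum h2).trans ?_
    rw [Finset.sum_const, nsmul_eq_mul, mul_one]
  have hzU : ∀ v, v ∉ U → z v = 0 := by
    intro v hv
    rw [hz]
    simp only
    rw [Finset.sum_eq_zero, zero_div]
    intro y hy
    rw [(mem_Om.1 (hXsub hy) v).2 hv, Int.cast_zero]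
  have hzs : ∑ v, z v = ((∑ v, x v : ℤ) : ℝ) := by
    rw [hz]
    simp only
    rw [← Finset.sum_div, Finset.sum_comm, div_eq_iff hXR.ne']
    have h2 : ∀ y ∈ X, ∑ v, (y v : ℝ) = ((∑ v, x v : ℤ) : ℝ) := by
      intro y hy
      rw [← (hXmem y hy).2.1]
      push_cast
      rfl
    rw [Finset.sum_congr rfl h2, Finset.sum_const, nsmul_eq_mul, mul_comm]
  have hzb : ∑ v, (b v : ℝ) * z v = ((lf b x : ℤ) : ℝ) := by
    rw [hz]
    simp only
    have h3 : ∀ v, (b v : ℝ) * ((∑ y ∈ X, (y v : ℝ)) / X.card) =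
        (∑ y ∈ X, (b v : ℝ) * (y v : ℝ)) / X.card := by
      intro v
      rw [mul_div_assoc', Finset.mul_sum]
    rw [Finset.sum_congr rfl fun v _ => h3 v, ← Finset.sum_div, Finset.sum_comm,
      div_eq_iff hXR.ne']
    have h2 : ∀ y ∈ X, ∑ v, (b v : ℝ) * (y v : ℝ) = ((lf b x : ℤ) : ℝ) := by
      intro y hy
      rw [← (hXmem y hy).2.2.1, lf]
      push_cast
      rfl
    rw [Finset.sum_congr rfl h2, Finset.sum_const, nsmul_eq_mul, mul_comm]
  have hzR : nr (((rl S) ^ 3).mulVec (z - vr x)) ≤ R := by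
    have h1 : ((rl S) ^ 3).mulVec (z - vr x) =
        fun v => (∑ y ∈ X, (((rl S) ^ 3).mulVec (vr y - vr x)) v) / X.card := by
      funext v
      rw [hz]
      exact H2_lin _ X hXne _ v
    rw [h1]
    exact nr_avg X hXne _ fun y hy => (hXmem y hy).2.2.2
  set B := univ.filter (fun v => 1 / 2 < |z v|) with hB
  have hBcard : (B.card : ℝ) ≤ 4 * nr z := by
    have h1 : ∀ v ∈ B, (1 / 4 : ℝ) ≤ z v ^ 2 := by
      intro v hv
      have h2 := (Finset.mem_filter.1 hv).2
      rw [← sq_abs (z v)]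
      nlinarith
    have h2 : ∑ _v ∈ B, (1 / 4 : ℝ) ≤ ∑ v ∈ B, z v ^ 2 := Finset.sum_le_sum h1
    have h3 : ∑ v ∈ B, z v ^ 2 ≤ nr z := by
      unfold nr
      exact Finset.sum_le_sum_of_subset_of_nonneg (Finset.subset_univ B)
        fun v _ _ => sq_nonneg (z v)
    rw [Finset.sum_const, nsmul_eq_mul] at h2
    linarith
  obtain ⟨y, hyBU, hys, hy1, hqy⟩ := hRob B (by linarith)
  have hyB : ∀ v ∈ B, y v = 0 := fun v hv => hyBU v (Or.inl hv)
  have hyU : ∀ v, v ∉ U → y v = 0 := fun v hv => hyBU v (Or.inr hv)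
  have hcube : ∀ v, |z v| + |y v| ≤ 1 := by
    intro v
    by_cases hv : v ∈ B
    · rw [hyB v hv, abs_zero, add_zero]
      exact hz1 v
    · have h1 : |z v| ≤ 1 / 2 := by
        by_contra hc
        push Not at hc
        exact hv (Finset.mem_filter.2 ⟨Finset.mem_univ _, hc⟩)
      have h2 := hy1 v
      linarith
  obtain ⟨x1, hx1, hs1, hq1⟩ := rounding hS b U (∑ v, x v) (H2_even hx) (z + y)
    (fun v => (abs_add_le _ _).trans (hcube v))
    (fun v hv => by rw [Pi.add_apply, hzU v hv, hyU v hv, add_zero])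
    (by
      simp only [Pi.add_apply]
      rw [Finset.sum_add_distrib, hys, add_zero, hzs])
  obtain ⟨x2, hx2, hs2, hq2⟩ := rounding hS b U (∑ v, x v) (H2_even hx) (z - y)
    (fun v => (abs_sub _ _).trans (hcube v))
    (fun v hv => by rw [Pi.sub_apply, hzU v hv, hyU v hv, sub_zero])
    (by
      simp only [Pi.sub_apply]
      rw [Finset.sum_sub_distrib, hys, sub_zero, hzs])
  have hm1 : ((qf S x1 + lf b x1 : ℤ) : ℝ) ≤ ((qf S x + lf b x : ℤ) : ℝ) := by
    exact_mod_cast hmax x1 hx1 hs1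
  have hm2 : ((qf S x2 + lf b x2 : ℤ) : ℝ) ≤ ((qf S x + lf b x : ℤ) : ℝ) := by
    exact_mod_cast hmax x2 hx2 hs2
  have hbs : ∑ v, (b v : ℝ) * (z + y) v + ∑ v, (b v : ℝ) * (z - y) v =
      2 * ((lf b x : ℤ) : ℝ) := by
    rw [← hzb, Finset.mul_sum, ← Finset.sum_add_distrib]
    refine Finset.sum_congr rfl fun v _ => ?_
    simp only [Pi.add_apply, Pi.sub_apply]
    ring
  have hpar := H2_par (rl S) z y
  have hqx : ((qf S x : ℤ) : ℝ) = qr A (vr x) + qr P (vr x) := by
    rw [qf_cast, hM, H2_add]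
  have hqz : qr (rl S) z = qr A z + qr P z := by rw [hM, H2_add]
  have hPd := p_diff hPs ht hP hz1 (fun v => (nr_Om hx).2 v) hzR
  have hAz := qr_le ht hA z
  rw [← D2_cast] at hqy
  have hAz' : -(2 * t * e * Real.log 2) ≤ qr A z := by
    have h1 := (abs_le.1 hAz).1
    have h2 : t * nr z ≤ t * (2 * (e * Real.log 2)) := mul_le_mul_of_nonneg_left hznr ht.le
    linarith
  have hPd' := (abs_le.1 hPd).1
  push_cast at hm1 hm2 hq1 hq2
  linarith

end Pool.Agent.MPa9445a.BE
end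

section

/-! The optimum is kept in one of the sets. -/

set_option autoImplicit false

open Finset

namespace Pool.Agent.MPa9445a.BE

variable {n : ℕ}

/-- The proof is that of `opt`, with `heavyR`. -/
theorem optR {S : Matrix (Fin n) (Fin n) ℤ} (hS : Mat S) {t : ℝ} (ht : 0 < t)
    (b : Fin n → ℤ) {U : Finset (Fin n)} {g ρ : ℝ} (hRob : Rob g ρ (rl S) U)
    {x : Fin n → ℤ} (hx : x ∈ Om U)
    (hmax : ∀ y ∈ Om U, ∑ v, y v = ∑ v, x v → qf S y + lf b y ≤ qf S x + lf b x)
    (R τ : ℝ) (e : ℕ) (he : 64 * e * Real.log 2 ≤ ρ * n) (k : Fin n → Fin 8)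
    (hG : 100 * (τ + dl n (D2 S) t R e) + D2 S / t <
      g * Real.sqrt (D2 S * n) -
        16 * t * e * Real.log 2 - 2 * Real.sqrt (n * (64 * R)) / t ^ 2 -
        8 * (Real.sqrt (D2 S) + 1)) :
    ∃ i j, Keep S b R e τ (U ∩ bk k i j) (rs (bk k i j) x) := by
  rcases le_or_gt ((ball S b (64 * R) U x).card * 2 ^ (8 * e)) (2 ^ U.card) with hl | hh
  · obtain ⟨i, hi⟩ := light b e k hx hl
    exact ⟨i, i, Or.inl hi⟩
  · obtain ⟨A, P, hM, hAs, hPs, hA, hA2, hP, hd⟩ := splitting (isHermitian_rl hS) ht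
    have hcast : ((8 * e : ℕ) : ℝ) = 8 * (e : ℝ) := by push_cast; ring
    have h1 := heavyR hS ht hM hPs hA hP b hRob hx hmax (64 * R) (8 * e)
      (by rw [hcast]; linarith) hh
    rw [hcast] at h1
    have h2 := od_Om A hx
    have h3 := diag_sum hM (fun v => by simp only [rl]; rw [hS.diag v]; simp) U
    rw [← D2_cast] at hd hA2
    have h4 : ∑ v, |P v v| ≤ D2 S / t := by
      rw [le_div_iff₀ ht]
      linarith [hd]
    have h5 : 100 * (τ + dl n (D2 S) t R e) < qr (od A) (vr x) := by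
      have h6 := (abs_le.1 (h3.trans h4)).2
      have e2 : 2 * t * (8 * (e : ℝ)) * Real.log 2 = 16 * t * e * Real.log 2 := by ring
      rw [e2] at h1
      linarith
    have h6 : ∃ i j, τ + dl n (D2 S) t R e <
        |qr (od A) (fun v => if k v = i ∨ k v = j then vr x v else 0)| := by
      by_contra hcon
      push Not at hcon
      have := split (od A) (vr x) k hcon
      linarith [le_abs_self (qr (od A) (vr x))]
    obtain ⟨i, j, hij⟩ := h6
    refine ⟨i, j, ?_⟩
    have hv : (fun v => if k v = i ∨ k v = j then vr x v else 0) = vr (rs (bk k i j) x) := by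
      funext v
      simp only [vr, rs, bk, mem_filter, mem_univ, true_and]
      split_ifs <;> simp
    rw [hv] at hij
    have hx' := rs_Om hx (bk k i j)
    rcases le_or_gt ((ball S b R (U ∩ bk k i j) (rs (bk k i j) x)).card * 2 ^ e)
      (2 ^ (U ∩ bk k i j).card) with hl | hh'
    · exact Or.inl hl
    · right
      have h7 := energy_ball ht hM hAs hPs hA hA2 hP b R e hx' hh'
      set N : ℕ := (ball S b R (U ∩ bk k i j) (rs (bk k i j) x)).card with hN
      have hNpos : (0 : ℝ) < N := by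
        have : 0 < N := by
          rcases Nat.eq_zero_or_pos N with h0 | h0
          · rw [h0] at hh'
            simp at hh'
          · exact h0
        exact_mod_cast this
      rw [Int.cast_abs]
      have h8 := abs_le.1 h7
      have h9 : (N : ℝ) * (τ + dl n (D2 S) t R e) <
          |(N : ℝ) * qr (od A) (vr (rs (bk k i j) x))| := by
        rw [abs_mul, abs_of_pos hNpos]
        exact mul_lt_mul_of_pos_left hij hNpos
      have h10 := abs_sub_abs_le_abs_sub ((N : ℝ) * qr (od A) (vr (rs (bk k i j) x)))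
        (((N * qf S (rs (bk k i j) x) -
          ∑ y ∈ ball S b R (U ∩ bk k i j) (rs (bk k i j) x), qf S y : ℤ) : ℝ))
      rw [abs_sub_comm] at h10
      nlinarith [h7, h9, h10]

end Pool.Agent.MPa9445a.BE
end
end

section

section

/-!
# TASK SP PCa: covariances, first part

`T` has entries `0` or `1`, `g v = gs T ε v` is the signed sum of the row `v`, `l > 0`.
The functions `ε ↦ sg (ε u)` and `ε ↦ ph l (gs T ε v)` are monotone (`sg_mono`, `ph_mono`, nonnegative coefficients) and odd under `flp univ` (`sg_flp`, `ph_odd`).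
(`sp_nonneg`, `pp_nonneg`) `Ev_harris`, `Ev_odd`.
(`sp_le`) `Ev_flp {u}`: the change of the sign of `u` makes `g v` to `g v - 2 T v u sg (ε u)` and `sg (ε u)` to `- sg (ε u)`. So
`2 E [sg (ε u) ph l (g v)] = E [sg (ε u) (ph l (g v) - ph l (g v - 2 T v u sg (ε u)))] ≤ 2 T v u / (4 l)` by `ph_lip`, `abs_sg`.
-/

set_option autoImplicit false

open Finset

namespace Pool.Agent.MPa9445a.BE.Dc

variable {n : ℕ}

private theorem PCa_gs_mono {T : Matrix (Fin n) (Fin n) ℝ} (hT : ∀ u v, T u v = 0 ∨ T u v = 1)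
    (v : Fin n) : Monotone fun ε : Fin n → Bool => gs T ε v := by
  intro ε ε' h
  unfold gs
  refine Finset.sum_le_sum fun u _ => mul_le_mul_of_nonneg_left (sg_mono (h u)) ?_
  rcases hT v u with h1 | h1 <;> rw [h1] <;> norm_num

private theorem PCa_gs_odd (T : Matrix (Fin n) (Fin n) ℝ) (ε : Fin n → Bool) (v : Fin n) :
    gs T (flp univ ε) v = -gs T ε v := by
  unfold gs
  rw [← Finset.sum_neg_distrib]
  refine Finset.sum_congr rfl fun u _ => ?_
  rw [sg_flp, if_pos (mem_univ u), mul_neg]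

private theorem PCa_ph_mono {T : Matrix (Fin n) (Fin n) ℝ} (hT : ∀ u v, T u v = 0 ∨ T u v = 1)
    {l : ℝ} (hl : 0 < l) (v : Fin n) : Monotone fun ε : Fin n → Bool => ph l (gs T ε v) :=
  fun _ _ h => ph_mono hl (PCa_gs_mono hT v h)

private theorem PCa_ph_odd (T : Matrix (Fin n) (Fin n) ℝ) (l : ℝ) (v : Fin n) :
    Ev (fun ε : Fin n → Bool => ph l (gs T ε v)) = 0 :=
  Ev_odd fun ε => by rw [PCa_gs_odd, ph_odd]

private theorem PCa_sg_odd (u : Fin n) : Ev (fun ε : Fin n → Bool => sg (ε u)) = 0 :=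
  Ev_odd fun ε => by rw [sg_flp, if_pos (mem_univ u)]

theorem sp_nonneg {T : Matrix (Fin n) (Fin n) ℝ} (hT : ∀ u v, T u v = 0 ∨ T u v = 1) {l : ℝ}
    (hl : 0 < l) (u v : Fin n) :
    0 ≤ Ev (fun ε : Fin n → Bool => sg (ε u) * ph l (gs T ε v)) := by
  have h := Ev_harris (F := fun ε : Fin n → Bool => sg (ε u)) (G := fun ε => ph l (gs T ε v))
    (fun _ _ h => sg_mono (h u)) (PCa_ph_mono hT hl v)
  rwa [PCa_sg_odd, zero_mul] at h

theorem pp_nonneg {T : Matrix (Fin n) (Fin n) ℝ} (hT : ∀ u v, T u v = 0 ∨ T u v = 1) {l : ℝ}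
    (hl : 0 < l) (u v : Fin n) :
    0 ≤ Ev (fun ε : Fin n → Bool => ph l (gs T ε u) * ph l (gs T ε v)) := by
  have h := Ev_harris (PCa_ph_mono hT hl u) (PCa_ph_mono hT hl v)
  rwa [PCa_ph_odd, zero_mul] at h

private theorem PCa_gs_flp (T : Matrix (Fin n) (Fin n) ℝ) (ε : Fin n → Bool) (u v : Fin n) :
    gs T ε v - gs T (flp {u} ε) v = 2 * T v u * sg (ε u) := by
  unfold gs
  rw [← Finset.sum_sub_distrib, Finset.sum_eq_single u]
  · rw [sg_flp, if_pos (Finset.mem_singleton_self u)]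
    ring
  · intro w _ hw
    rw [sg_flp, if_neg (fun h => hw (Finset.mem_singleton.1 h)), sub_self]
  · intro h
    exact absurd (mem_univ u) h

theorem sp_le {T : Matrix (Fin n) (Fin n) ℝ} (hT : ∀ u v, T u v = 0 ∨ T u v = 1) {l : ℝ}
    (hl : 0 < l) (u v : Fin n) :
    Ev (fun ε : Fin n → Bool => sg (ε u) * ph l (gs T ε v)) ≤ T v u / (4 * l) := by
  have h1 := Ev_flp {u} (fun ε : Fin n → Bool => sg (ε u) * ph l (gs T ε v))
  have h2 : Ev (fun ε : Fin n → Bool => sg (ε u) * ph l (gs T ε v) +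
      sg (flp {u} ε u) * ph l (gs T (flp {u} ε) v)) ≤
      Ev (fun _ : Fin n → Bool => 2 * (T v u / (4 * l))) := by
    refine Ev_mono fun ε => ?_
    have h3 : sg (ε u) * ph l (gs T ε v) + sg (flp {u} ε u) * ph l (gs T (flp {u} ε) v) =
        sg (ε u) * (ph l (gs T ε v) - ph l (gs T (flp {u} ε) v)) := by
      rw [sg_flp, if_pos (Finset.mem_singleton_self u)]
      ring
    rw [h3]
    refine (le_abs_self _).trans ?_
    rw [abs_mul, abs_sg, one_mul]
    refine (ph_lip hl _ _).trans ?_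
    rw [PCa_gs_flp, abs_mul, abs_sg, mul_one, abs_of_nonneg, mul_div_assoc]
    rcases hT v u with h1 | h1 <;> rw [h1] <;> norm_num
  rw [Ev_const, Ev_add, h1] at h2
  linarith

end Pool.Agent.MPa9445a.BE.Dc
end

section

/-!
# TASK SP PCb: covariances, second part

`T` has entries `0` or `1`, `g v = gs T ε v` is the signed sum of the row `v`, `l > 0`.
Let `C` be the set of the `w` with `T u w = T v w = 1`, `A` the set of the `w` with `T u w = 1`, `T v w = 0`, `B` the set of the `w` with `T u w = 0`, `T v w = 1`; `h, a, b` the signed sums (of `sg (ε w)`) over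
`C, A, B`: `g u = h + a`, `g v = h + b`. `flp A` changes `a` to `- a` and leaves `h, b`; `flp B` changes `b` to `- b` and leaves `h, a`. So (`Ev_flp` three times)
`E [ph (h + a) ph (h + b)] = E [(ph (h + a) + ph (h - a)) / 2 * ((ph (h + b) + ph (h - b)) / 2)]`, and `|ph (h + a) + ph (h - a)| = |ph (h + a) - ph (a - h)| ≤ 2 |h| / (4 l)` (`ph_odd`, `ph_lip`). So the
mean is at most `E h ^ 2 / (16 l ^ 2) = #C / (16 l ^ 2)` (`Ev_sq` with the indicator of `C`), and `#C = ∑ w, T u w * T v w`.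
-/

set_option autoImplicit false

open Finset

namespace Pool.Agent.MPa9445a.BE.Dc

variable {n : ℕ}

/-- The signed sum with the coefficients `c`. -/
private noncomputable def PCb_X (c : Fin n → ℝ) (ε : Fin n → Bool) : ℝ := ∑ w, c w * sg (ε w)

private theorem PCb_fix {c : Fin n → ℝ} {A : Finset (Fin n)} (h : ∀ w ∈ A, c w = 0)
    (ε : Fin n → Bool) : PCb_X c (flp A ε) = PCb_X c ε := by
  unfold PCb_X
  refine Finset.sum_congr rfl fun w _ => ?_
  rw [sg_flp]
  split_ifs with hw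
  · rw [h w hw, zero_mul, zero_mul]
  · rfl

private theorem PCb_neg {c : Fin n → ℝ} {A : Finset (Fin n)} (h : ∀ w, w ∉ A → c w = 0)
    (ε : Fin n → Bool) : PCb_X c (flp A ε) = -PCb_X c ε := by
  unfold PCb_X
  rw [← Finset.sum_neg_distrib]
  refine Finset.sum_congr rfl fun w _ => ?_
  rw [sg_flp]
  split_ifs with hw
  · rw [mul_neg]
  · rw [h w hw, zero_mul, neg_zero]

private theorem PCb_bd {l : ℝ} (hl : 0 < l) (h a : ℝ) :
    |ph l (h + a) + ph l (h - a)| ≤ |h| / (2 * l) := by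
  have h1 : h - a = -(a - h) := by ring
  rw [h1, ph_odd, ← sub_eq_add_neg]
  refine (ph_lip hl (h + a) (a - h)).trans (le_of_eq ?_)
  have h2 : h + a - (a - h) = 2 * h := by ring
  rw [h2, abs_mul, abs_two, div_eq_div_iff (by positivity) (by positivity)]
  ring

theorem pp_le {T : Matrix (Fin n) (Fin n) ℝ} (hT : ∀ u v, T u v = 0 ∨ T u v = 1) {l : ℝ}
    (hl : 0 < l) (u v : Fin n) :
    Ev (fun ε : Fin n → Bool => ph l (gs T ε u) * ph l (gs T ε v)) ≤
      (∑ w, T u w * T v w) / (16 * l ^ 2) := by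
  classical
  obtain ⟨h, hh⟩ : ∃ h : (Fin n → Bool) → ℝ, h = PCb_X (fun w => T u w * T v w) := ⟨_, rfl⟩
  obtain ⟨a, ha⟩ : ∃ a : (Fin n → Bool) → ℝ, a = PCb_X (fun w => T u w * (1 - T v w)) := ⟨_, rfl⟩
  obtain ⟨b, hb⟩ : ∃ b : (Fin n → Bool) → ℝ, b = PCb_X (fun w => (1 - T u w) * T v w) := ⟨_, rfl⟩
  have hu : ∀ ε, gs T ε u = h ε + a ε := by
    intro ε
    rw [hh, ha]
    unfold gs PCb_X
    rw [← Finset.sum_add_distrib]
    refine Finset.sum_congr rfl fun w _ => ?_
    dsimp only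
    ring
  have hv : ∀ ε, gs T ε v = h ε + b ε := by
    intro ε
    rw [hh, hb]
    unfold gs PCb_X
    rw [← Finset.sum_add_distrib]
    refine Finset.sum_congr rfl fun w _ => ?_
    dsimp only
    ring
  obtain ⟨A, hA⟩ : ∃ A : Finset (Fin n), ∀ w, w ∈ A ↔ T u w = 1 ∧ T v w = 0 :=
    ⟨univ.filter fun w => T u w = 1 ∧ T v w = 0, fun w => by simp⟩
  obtain ⟨B, hB⟩ : ∃ B : Finset (Fin n), ∀ w, w ∈ B ↔ T u w = 0 ∧ T v w = 1 :=
    ⟨univ.filter fun w => T u w = 0 ∧ T v w = 1, fun w => by simp⟩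
  have hhA : ∀ ε, h (flp A ε) = h ε := fun ε => by
    rw [hh]
    exact PCb_fix (fun w hw => by rw [((hA w).1 hw).2, mul_zero]) ε
  have hhB : ∀ ε, h (flp B ε) = h ε := fun ε => by
    rw [hh]
    exact PCb_fix (fun w hw => by rw [((hB w).1 hw).1, zero_mul]) ε
  have haA : ∀ ε, a (flp A ε) = -a ε := fun ε => by
    rw [ha]
    refine PCb_neg (fun w hw => ?_) ε
    rcases hT u w with h1 | h1
    · rw [h1, zero_mul]
    · rcases hT v w with h2 | h2
      · exact absurd ((hA w).2 ⟨h1, h2⟩) hw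
      · rw [h2, sub_self, mul_zero]
  have haB : ∀ ε, a (flp B ε) = a ε := fun ε => by
    rw [ha]
    exact PCb_fix (fun w hw => by rw [((hB w).1 hw).1, zero_mul]) ε
  have hbA : ∀ ε, b (flp A ε) = b ε := fun ε => by
    rw [hb]
    exact PCb_fix (fun w hw => by rw [((hA w).1 hw).2, mul_zero]) ε
  have hbB : ∀ ε, b (flp B ε) = -b ε := fun ε => by
    rw [hb]
    refine PCb_neg (fun w hw => ?_) ε
    rcases hT v w with h1 | h1
    · rw [h1, mul_zero]
    · rcases hT u w with h2 | h2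
      · exact absurd ((hB w).2 ⟨h2, h1⟩) hw
      · rw [h2, sub_self, zero_mul]
  obtain ⟨F, hF⟩ : ∃ F : (Fin n → Bool) → ℝ, F = fun ε => ph l (h ε + a ε) * ph l (h ε + b ε) :=
    ⟨_, rfl⟩
  have hgoal : Ev (fun ε : Fin n → Bool => ph l (gs T ε u) * ph l (gs T ε v)) = Ev F := by
    rw [hF]
    congr 1
    funext ε
    rw [hu, hv]
  have e1 : Ev (fun ε => F (flp A ε)) = Ev F := Ev_flp A F
  have e2 : Ev (fun ε => F (flp B ε)) = Ev F := Ev_flp B F
  have e3 : Ev (fun ε => F (flp A (flp B ε))) = Ev F :=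
    (Ev_flp B (fun ε => F (flp A ε))).trans e1
  have e4 : Ev (fun ε => F ε + F (flp A ε) + F (flp B ε) + F (flp A (flp B ε))) = 4 * Ev F := by
    rw [Ev_add (fun ε => F ε + F (flp A ε) + F (flp B ε)), Ev_add (fun ε => F ε + F (flp A ε)),
      Ev_add F, e1, e2, e3]
    ring
  have e5 : ∀ ε, F ε + F (flp A ε) + F (flp B ε) + F (flp A (flp B ε)) ≤
      1 / (4 * l ^ 2) * h ε ^ 2 := by
    intro ε
    have h1 : F ε + F (flp A ε) + F (flp B ε) + F (flp A (flp B ε)) =
        (ph l (h ε + a ε) + ph l (h ε - a ε)) * (ph l (h ε + b ε) + ph l (h ε - b ε)) := by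
      rw [hF]
      simp only [hhA, hhB, haA, haB, hbA, hbB, ← sub_eq_add_neg]
      ring
    rw [h1]
    refine (le_abs_self _).trans ?_
    rw [abs_mul]
    have h2 := mul_le_mul (PCb_bd hl (h ε) (a ε)) (PCb_bd hl (h ε) (b ε)) (abs_nonneg _)
      (by positivity)
    refine h2.trans (le_of_eq ?_)
    have h3 : |h ε| / (2 * l) * (|h ε| / (2 * l)) = |h ε| ^ 2 / (4 * l ^ 2) := by
      rw [div_mul_div_comm, div_eq_div_iff (by positivity) (by positivity)]
      ring
    rw [h3, sq_abs]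
    ring
  have e6 := Ev_mono e5
  rw [e4, Ev_smul] at e6
  have e7 : Ev (fun ε => h ε ^ 2) = ∑ w, T u w * T v w := by
    rw [hh]
    unfold PCb_X
    rw [Ev_sq]
    refine Finset.sum_congr rfl fun w _ => ?_
    rcases hT u w with h1 | h1
    · rw [h1, zero_mul, sq, zero_mul]
    · rcases hT v w with h2 | h2
      · rw [h2, mul_zero, sq, zero_mul]
      · rw [h1, h2, one_mul, one_pow]
  rw [e7] at e6
  rw [hgoal, le_div_iff₀ (by positivity)]
  have e8 : 1 / (4 * l ^ 2) * (∑ w, T u w * T v w) * (4 * l ^ 2) = ∑ w, T u w * T v w := by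
    have h4 : (4 * l ^ 2 : ℝ) ≠ 0 := by positivity
    rw [one_div, mul_comm, ← mul_assoc, mul_inv_cancel₀ h4, one_mul]
  have e9 := mul_le_mul_of_nonneg_right e6 (show (0 : ℝ) ≤ 4 * l ^ 2 by positivity)
  rw [e8] at e9
  linarith

end Pool.Agent.MPa9445a.BE.Dc
end
end
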