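import Pool.Agent.Lib.MP_a9445a_lc.Mg.G151
import Pool.Agent.Lib.MP_a9445a_lc.SP.Cls

section

section

/-!
# TASK SP PCc: the mean of g ph(g)

`T` has entries `0` or `1`, `g v = gs T ε v` is the signed sum of the row `v`, `l > 0`.
(`gp_ge`) `ph_low` (with `Ev_mono`), `Ev_sq`, `Ev_four` with `a u = T v u`, and `(T v u) ^ 2 = T v u`; `d = ∑ u, T v u`, `0 ≤ d ≤ l ^ 2`:
`E [g v ph l (g v)] ≥ (d - (4/27) * 3 * d ^ 2 / l ^ 2) / (4 l) ≥ d (1 - 4/9) / (4 l) = (5/36) d / l`.
-/

set_option autoImplicit false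

open Finset

namespace Pool.Agent.MPa9445a.BE.Dc

variable {n : ℕ}

theorem gp_ge {T : Matrix (Fin n) (Fin n) ℝ} (hT : ∀ u v, T u v = 0 ∨ T u v = 1) {l : ℝ}
    (hl : 0 < l) (v : Fin n) (hd : ∑ u, T v u ≤ l ^ 2) :
    5 / 36 * (∑ u, T v u) / l ≤ Ev (fun ε : Fin n → Bool => gs T ε v * ph l (gs T ε v)) := by
  set d : ℝ := ∑ u, T v u with hdd
  have hsq : ∑ u, T v u ^ 2 = d := by
    refine Finset.sum_congr rfl fun u _ => ?_
    rcases hT v u with h | h <;> rw [h] <;> norm_num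
  have hd0 : 0 ≤ d := by
    refine Finset.sum_nonneg fun u _ => ?_
    rcases hT v u with h | h <;> simp [h]
  have h2 : Ev (fun ε : Fin n → Bool => gs T ε v ^ 2) = d := by
    rw [← hsq]
    exact Ev_sq (fun u => T v u)
  have h4 : Ev (fun ε : Fin n → Bool => gs T ε v ^ 4) ≤ 3 * d ^ 2 := by
    rw [← hsq]
    exact Ev_four (fun u => T v u)
  have h5 : Ev (fun ε : Fin n → Bool => 1 / (4 * l) * gs T ε v ^ 2 -
      4 / 27 / l ^ 2 / (4 * l) * gs T ε v ^ 4) ≤
      Ev (fun ε : Fin n → Bool => gs T ε v * ph l (gs T ε v)) := by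
    refine Ev_mono fun ε => ?_
    refine le_trans (le_of_eq ?_) (ph_low hl (gs T ε v))
    field_simp
  rw [Ev_sub, Ev_smul, Ev_smul, h2] at h5
  refine le_trans ?_ h5
  have h6 : 4 / 27 / l ^ 2 / (4 * l) * Ev (fun ε : Fin n → Bool => gs T ε v ^ 4) ≤
      4 / 27 / l ^ 2 / (4 * l) * (3 * d ^ 2) := mul_le_mul_of_nonneg_left h4 (by positivity)
  refine le_trans ?_ (sub_le_sub_left h6 _)
  have h7 : 4 / 27 / l ^ 2 / (4 * l) * (3 * d ^ 2) ≤ 4 / 27 / l ^ 2 / (4 * l) * (3 * (d * l ^ 2)) := by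
    refine mul_le_mul_of_nonneg_left ?_ (by positivity)
    nlinarith
  refine le_trans ?_ (sub_le_sub_left h7 _)
  refine le_of_eq ?_
  field_simp
  ring

end Pool.Agent.MPa9445a.BE.Dc
end

section

/-!
The vector of positive discrepancy: `y = (x - (∑ x / |W|) 1_W) / 2`, `x v = sg (ε v) / 4 + ph l (gs T ε v)`.
-/

set_option autoImplicit false

open Finset

namespace Pool.Agent.MPa9445a.BE.Dc

variable {n : ℕ}

/-- the indicator of `W` -/
private noncomputable def PA_w (W : Finset (Fin n)) (v : Fin n) : ℝ := if v ∈ W then 1 else 0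

private noncomputable def PA_x (W : Finset (Fin n)) (T : Matrix (Fin n) (Fin n) ℝ) (l : ℝ)
    (ε : Fin n → Bool) (v : Fin n) : ℝ := PA_w W v * (sg (ε v) / 4 + ph l (gs T ε v))

private theorem PA_w_cases (W : Finset (Fin n)) (v : Fin n) :
    (v ∈ W ∧ PA_w W v = 1) ∨ (v ∉ W ∧ PA_w W v = 0) := by
  by_cases h : v ∈ W
  · exact Or.inl ⟨h, if_pos h⟩
  · exact Or.inr ⟨h, if_neg h⟩

private theorem PA_abs_x (W : Finset (Fin n)) (T : Matrix (Fin n) (Fin n) ℝ) (l : ℝ)
    (ε : Fin n → Bool) (v : Fin n) : |PA_x W T l ε v| ≤ PA_w W v / 2 := by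
  unfold PA_x
  have h1 := ph_le l (gs T ε v)
  have h2 := abs_sg (ε v)
  rcases PA_w_cases W v with ⟨_, h⟩ | ⟨_, h⟩
  · rw [h, one_mul]
    refine (abs_add_le _ _).trans ?_
    rw [abs_div, h2, abs_of_pos (by norm_num : (0 : ℝ) < 4)]
    linarith
  · rw [h, zero_mul, abs_zero]
    norm_num

/-- the covariance of two coordinates -/
private theorem PA_cov (W : Finset (Fin n)) (T : Matrix (Fin n) (Fin n) ℝ) (l : ℝ) (u v : Fin n) :
    Ev (fun ε : Fin n → Bool => PA_x W T l ε u * PA_x W T l ε v) =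
      PA_w W u * PA_w W v * ((if u = v then 1 else 0) / 16 +
        (Ev (fun ε : Fin n → Bool => sg (ε u) * ph l (gs T ε v)) +
          Ev (fun ε : Fin n → Bool => sg (ε v) * ph l (gs T ε u))) / 4 +
        Ev (fun ε : Fin n → Bool => ph l (gs T ε u) * ph l (gs T ε v))) := by
  have h1 : (fun ε : Fin n → Bool => PA_x W T l ε u * PA_x W T l ε v) =
      fun ε => PA_w W u * PA_w W v * (((1 / 16 : ℝ) * (sg (ε u) * sg (ε v)) +
        ((1 / 4 : ℝ) * (sg (ε u) * ph l (gs T ε v)) + (1 / 4 : ℝ) * (sg (ε v) * ph l (gs T ε u)))) +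
        ph l (gs T ε u) * ph l (gs T ε v)) := by
    funext ε
    unfold PA_x
    ring
  rw [h1, Ev_smul, Ev_add, Ev_add, Ev_add, Ev_smul, Ev_smul, Ev_smul, Ev_pair]
  ring

private theorem PA_cov_nonneg (W : Finset (Fin n)) {T : Matrix (Fin n) (Fin n) ℝ}
    (hT : ∀ u v, T u v = 0 ∨ T u v = 1) {l : ℝ} (hl : 0 < l) (u v : Fin n) :
    0 ≤ Ev (fun ε : Fin n → Bool => PA_x W T l ε u * PA_x W T l ε v) := by
  rw [PA_cov]
  have h1 := sp_nonneg hT hl u v
  have h2 := sp_nonneg hT hl v u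
  have h3 := pp_nonneg hT hl u v
  have h4 : 0 ≤ PA_w W u * PA_w W v := by
    rcases PA_w_cases W u with ⟨_, h⟩ | ⟨_, h⟩ <;> rcases PA_w_cases W v with ⟨_, h'⟩ | ⟨_, h'⟩ <;>
      rw [h, h'] <;> norm_num
  have h5 : (0 : ℝ) ≤ (if u = v then 1 else 0) / 16 := by split_ifs <;> norm_num
  refine mul_nonneg h4 ?_
  linarith

/-- the sum of all covariances -/
private theorem PA_sum_cov {W : Finset (Fin n)} {T : Matrix (Fin n) (Fin n) ℝ}
    (hT : ∀ u v, T u v = 0 ∨ T u v = 1) (hs : ∀ u v, T u v = T v u) {l : ℝ} (hl : 1 ≤ l)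
    (hd : ∀ v, ∑ u, T v u ≤ l ^ 2) (hW : ∀ v, v ∉ W → ∀ u, T v u = 0) :
    ∑ u, ∑ v, Ev (fun ε : Fin n → Bool => PA_x W T l ε u * PA_x W T l ε v) ≤
      W.card * l ^ 2 / 4 := by
  have hl0 : 0 < l := by linarith
  have hT0 : ∀ u v, 0 ≤ T u v := by
    intro u v
    rcases hT u v with h | h <;> rw [h]
    exact zero_le_one
  set D : ℝ := ∑ u, ∑ v, T u v with hD
  have hD0 : 0 ≤ D := Finset.sum_nonneg fun u _ => Finset.sum_nonneg fun v _ => hT0 u v
  have hDW : D ≤ W.card * l ^ 2 := by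
    have h1 : D = ∑ u ∈ W, ∑ v, T u v := by
      rw [hD]
      symm
      refine Finset.sum_subset (subset_univ W) fun u _ hu => ?_
      exact Finset.sum_eq_zero fun v _ => hW u hu v
    rw [h1]
    calc ∑ u ∈ W, ∑ v, T u v ≤ ∑ _u ∈ W, l ^ 2 := Finset.sum_le_sum fun u _ => hd u
      _ = W.card * l ^ 2 := by rw [Finset.sum_const, nsmul_eq_mul]
  have hterm : ∀ u v, Ev (fun ε : Fin n → Bool => PA_x W T l ε u * PA_x W T l ε v) ≤
      (if u = v then PA_w W u / 16 else 0) + (T v u / (4 * l) + T u v / (4 * l)) / 4 +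
        (∑ w, T u w * T v w) / (16 * l ^ 2) := by
    intro u v
    rw [PA_cov]
    have h1 := sp_le hT hl0 u v
    have h2 := sp_le hT hl0 v u
    have h3 := pp_le hT hl0 u v
    have h4 := sp_nonneg hT hl0 u v
    have h5 := sp_nonneg hT hl0 v u
    have h6 := pp_nonneg hT hl0 u v
    have h7 : 0 ≤ T v u / (4 * l) := div_nonneg (hT0 v u) (by positivity)
    have h8 : 0 ≤ T u v / (4 * l) := div_nonneg (hT0 u v) (by positivity)
    have h9 : 0 ≤ (∑ w, T u w * T v w) / (16 * l ^ 2) :=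
      div_nonneg (Finset.sum_nonneg fun w _ => mul_nonneg (hT0 u w) (hT0 v w)) (by positivity)
    rcases PA_w_cases W u with ⟨_, h⟩ | ⟨_, h⟩
    · rcases PA_w_cases W v with ⟨_, h'⟩ | ⟨_, h'⟩
      · rw [h, h']
        split_ifs <;> linarith
      · rw [h, h', mul_zero, zero_mul]
        split_ifs <;> linarith
    · rw [h, zero_mul, zero_mul]
      split_ifs <;> linarith
  refine (Finset.sum_le_sum fun u _ => Finset.sum_le_sum fun v _ => hterm u v).trans ?_
  simp only [Finset.sum_add_distrib]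
  have e1 : ∑ u, ∑ v, (if u = v then PA_w W u / 16 else 0) = (W.card : ℝ) / 16 := by
    have : ∀ u : Fin n, ∑ v, (if u = v then PA_w W u / 16 else 0) = PA_w W u / 16 := by
      intro u
      rw [Finset.sum_ite_eq, if_pos (mem_univ u)]
    rw [Finset.sum_congr rfl fun u _ => this u, ← Finset.sum_div]
    congr 1
    unfold PA_w
    rw [Finset.sum_ite_mem, univ_inter, Finset.sum_const, nsmul_eq_mul, mul_one]
  have e2 : ∑ u, ∑ v, (T v u / (4 * l) + T u v / (4 * l)) / 4 = D / (8 * l) := by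
    have h1 : ∀ u v : Fin n, (T v u / (4 * l) + T u v / (4 * l)) / 4 = T u v / (8 * l) := by
      intro u v
      rw [hs v u]
      field_simp
      ring
    rw [Finset.sum_congr rfl fun u _ => Finset.sum_congr rfl fun v _ => h1 u v, hD,
      Finset.sum_div]
    refine Finset.sum_congr rfl fun u _ => ?_
    rw [Finset.sum_div]
  have e3 : ∑ u, ∑ v, (∑ w, T u w * T v w) / (16 * l ^ 2) ≤ D / 16 := by
    have h1 : ∑ u, ∑ v, (∑ w, T u w * T v w) / (16 * l ^ 2) =
        (∑ w, (∑ u, T w u) ^ 2) / (16 * l ^ 2) := by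
      rw [Finset.sum_div]
      have h2 : ∀ u v : Fin n, (∑ w, T u w * T v w) / (16 * l ^ 2) =
          ∑ w, T w u * T w v / (16 * l ^ 2) := by
        intro u v
        rw [Finset.sum_div]
        refine Finset.sum_congr rfl fun w _ => ?_
        rw [hs u w, hs v w]
      rw [Finset.sum_congr rfl fun u _ => Finset.sum_congr rfl fun v _ => h2 u v]
      rw [Finset.sum_congr rfl fun u _ => Finset.sum_comm, Finset.sum_comm]
      refine Finset.sum_congr rfl fun w _ => ?_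
      rw [pow_two (∑ u, T w u), Finset.sum_mul_sum, Finset.sum_div]
      refine Finset.sum_congr rfl fun u _ => ?_
      rw [Finset.sum_div]
    rw [h1, div_le_iff₀ (by positivity)]
    have h3 : ∀ w : Fin n, (∑ u, T w u) ^ 2 ≤ l ^ 2 * ∑ u, T w u := by
      intro w
      rw [sq]
      exact mul_le_mul_of_nonneg_right (hd w) (Finset.sum_nonneg fun u _ => hT0 w u)
    calc ∑ w, (∑ u, T w u) ^ 2 ≤ ∑ w, l ^ 2 * ∑ u, T w u := Finset.sum_le_sum fun w _ => h3 w
      _ = D / 16 * (16 * l ^ 2) := by rw [← Finset.mul_sum, hD]; ring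
  rw [e1, e2]
  have h8 : D / (8 * l) ≤ D / 8 := by
    rw [div_le_div_iff₀ (by positivity) (by norm_num)]
    nlinarith
  have hl2 : 1 ≤ l ^ 2 := by nlinarith
  have h9 : (W.card : ℝ) ≤ W.card * l ^ 2 := by
    have : (0 : ℝ) ≤ W.card := Nat.cast_nonneg _
    nlinarith
  linarith

private theorem PA_qr {W : Finset (Fin n)} {T : Matrix (Fin n) (Fin n) ℝ}
    (hs : ∀ u v, T u v = T v u) (hW : ∀ v, v ∉ W → ∀ u, T v u = 0) (x : Fin n → ℝ) (c : ℝ) :
    qr T (fun v => (x v - PA_w W v * c) / 2) =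
      (qr T x - 2 * c * ∑ v, (∑ u, T v u) * x v + c ^ 2 * ∑ u, ∑ v, T u v) / 4 := by
  have hw : ∀ u v, T u v * PA_w W v = T u v := by
    intro u v
    rcases PA_w_cases W v with ⟨_, h⟩ | ⟨h', h⟩
    · rw [h, mul_one]
    · rw [hs u v, hW v h', zero_mul]
  have hw' : ∀ u v, T u v * PA_w W u = T u v := by
    intro u v
    rw [hs u v]
    exact hw v u
  have e1 : ∑ v, (∑ u, T v u) * x v = ∑ u, ∑ v, T u v * x u := by
    refine Finset.sum_congr rfl fun v _ => ?_
    rw [Finset.sum_mul]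
  have e2 : ∑ v, (∑ u, T v u) * x v = ∑ u, ∑ v, T u v * x v := by
    rw [e1, Finset.sum_comm]
    refine Finset.sum_congr rfl fun v _ => Finset.sum_congr rfl fun u _ => ?_
    rw [hs u v]
  have e3 : 2 * c * ∑ v, (∑ u, T v u) * x v =
      c * (∑ u, ∑ v, T u v * x u) + c * (∑ u, ∑ v, T u v * x v) := by
    rw [← e1, ← e2]
    ring
  rw [e3]
  unfold qr
  rw [Finset.mul_sum, Finset.mul_sum, Finset.mul_sum, ← Finset.sum_add_distrib,
    ← Finset.sum_sub_distrib, ← Finset.sum_add_distrib, Finset.sum_div]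
  refine Finset.sum_congr rfl fun u _ => ?_
  rw [Finset.mul_sum, Finset.mul_sum, Finset.mul_sum, ← Finset.sum_add_distrib,
    ← Finset.sum_sub_distrib, ← Finset.sum_add_distrib, Finset.sum_div]
  refine Finset.sum_congr rfl fun v _ => ?_
  have h1 := hw u v
  have h2 := hw' u v
  have h3 : T u v * PA_w W u * PA_w W v = T u v := by rw [h2, h1]
  have e4 : T u v * ((x u - PA_w W u * c) / 2) * ((x v - PA_w W v * c) / 2) =
      (T u v * x u * x v - (c * (x u * (T u v * PA_w W v)) + c * (x v * (T u v * PA_w W u))) +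
        c ^ 2 * (T u v * PA_w W u * PA_w W v)) / 4 := by ring
  rw [e4, h3, h1, h2]
  ring

theorem exists_disc {W : Finset (Fin n)} {T : Matrix (Fin n) (Fin n) ℝ}
    (hT : ∀ u v, T u v = 0 ∨ T u v = 1) (hs : ∀ u v, T u v = T v u) (h0 : ∀ v, T v v = 0) {l : ℝ}
    (hl : 1 ≤ l) (hd : ∀ v, ∑ u, T v u ≤ l ^ 2) (hW : ∀ v, v ∉ W → ∀ u, T v u = 0)
    (hD : 0 < ∑ u, ∑ v, T u v) :
    ∃ y : Fin n → ℝ, (∀ v, v ∉ W → y v = 0) ∧ ∑ v, y v = 0 ∧ (∀ v, |y v| ≤ 1 / 2) ∧
      (5 / 72 * (∑ u, ∑ v, T u v) / l - l ^ 4 / 2) / 4 ≤ qr T y := by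
  have hl0 : 0 < l := by linarith
  have hT0 : ∀ u v, 0 ≤ T u v := by
    intro u v
    rcases hT u v with h | h <;> rw [h]
    exact zero_le_one
  have hN : (0 : ℝ) < W.card := by
    have h1 : W.Nonempty := by
      by_contra h
      rw [Finset.not_nonempty_iff_eq_empty] at h
      have : ∑ u, ∑ v, T u v = 0 := Finset.sum_eq_zero fun u _ => Finset.sum_eq_zero fun v _ =>
        hW u (by rw [h]; exact Finset.notMem_empty u) v
      linarith
    exact_mod_cast h1.card_pos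
  set N : ℝ := (W.card : ℝ) with hNdef
  set D : ℝ := ∑ u, ∑ v, T u v with hDdef
  -- the expectation
  set F : (Fin n → Bool) → ℝ := fun ε => qr T (PA_x W T l ε) -
    2 / N * ((∑ u, PA_x W T l ε u) * ∑ v, (∑ u, T v u) * PA_x W T l ε v) with hF
  have hE1 : 5 / 72 * D / l ≤ Ev (fun ε : Fin n → Bool => qr T (PA_x W T l ε)) := by
    have h1 : Ev (fun ε : Fin n → Bool => qr T (PA_x W T l ε)) =
        ∑ u, ∑ v, T u v * Ev (fun ε : Fin n → Bool => PA_x W T l ε u * PA_x W T l ε v) := by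
      unfold qr
      rw [Ev_sum]
      refine Finset.sum_congr rfl fun u _ => ?_
      rw [Ev_sum]
      refine Finset.sum_congr rfl fun v _ => ?_
      rw [← Ev_smul]
      congr 1
      funext ε
      ring
    have h2 : ∀ u v, T u v * ((Ev (fun ε : Fin n → Bool => sg (ε u) * ph l (gs T ε v)) +
          Ev (fun ε : Fin n → Bool => sg (ε v) * ph l (gs T ε u))) / 4) ≤
        T u v * Ev (fun ε : Fin n → Bool => PA_x W T l ε u * PA_x W T l ε v) := by
      intro u v
      rcases hT u v with h | h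
      · rw [h, zero_mul, zero_mul]
      · rw [h, one_mul, one_mul, PA_cov]
        have hu : PA_w W u = 1 := by
          rcases PA_w_cases W u with ⟨_, h'⟩ | ⟨h', _⟩
          · exact h'
          · rw [hW u h'] at h
            exact absurd h (by norm_num)
        have hv : PA_w W v = 1 := by
          rcases PA_w_cases W v with ⟨_, h'⟩ | ⟨h', _⟩
          · exact h'
          · rw [hs u v, hW v h'] at h
            exact absurd h (by norm_num)
        have huv : u ≠ v := by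
          rintro rfl
          rw [h0 u] at h
          exact absurd h (by norm_num)
        rw [hu, hv, if_neg huv]
        have := pp_nonneg hT hl0 u v
        linarith
    have h3 : ∑ u, ∑ v, T u v * ((Ev (fun ε : Fin n → Bool => sg (ε u) * ph l (gs T ε v)) +
          Ev (fun ε : Fin n → Bool => sg (ε v) * ph l (gs T ε u))) / 4) =
        (1 / 2) * ∑ v, Ev (fun ε : Fin n → Bool => gs T ε v * ph l (gs T ε v)) := by
      have h4 : ∀ v : Fin n, Ev (fun ε : Fin n → Bool => gs T ε v * ph l (gs T ε v)) =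
          ∑ u, T v u * Ev (fun ε : Fin n → Bool => sg (ε u) * ph l (gs T ε v)) := by
        intro v
        have : (fun ε : Fin n → Bool => gs T ε v * ph l (gs T ε v)) =
            fun ε => ∑ u, T v u * (sg (ε u) * ph l (gs T ε v)) := by
          funext ε
          have h5 : gs T ε v * ph l (gs T ε v) = (∑ u, T v u * sg (ε u)) * ph l (gs T ε v) := rfl
          rw [h5, Finset.sum_mul]
          refine Finset.sum_congr rfl fun u _ => ?_
          rw [mul_assoc]
        rw [this, Ev_sum]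
        refine Finset.sum_congr rfl fun u _ => ?_
        rw [Ev_smul]
      rw [Finset.sum_congr rfl fun v _ => h4 v]
      have h5 : ∀ u v : Fin n, T u v *
          ((Ev (fun ε : Fin n → Bool => sg (ε u) * ph l (gs T ε v)) +
            Ev (fun ε : Fin n → Bool => sg (ε v) * ph l (gs T ε u))) / 4) =
          (1 / 4) * (T v u * Ev (fun ε : Fin n → Bool => sg (ε u) * ph l (gs T ε v))) +
          (1 / 4) * (T u v * Ev (fun ε : Fin n → Bool => sg (ε v) * ph l (gs T ε u))) := by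
        intro u v
        rw [hs v u]
        ring
      rw [Finset.sum_congr rfl fun u _ => Finset.sum_congr rfl fun v _ => h5 u v]
      simp only [Finset.sum_add_distrib]
      simp only [← Finset.mul_sum]
      rw [Finset.sum_comm (f := fun u v =>
        T v u * Ev (fun ε : Fin n → Bool => sg (ε u) * ph l (gs T ε v)))]
      ring
    rw [h1]
    refine le_trans ?_ (Finset.sum_le_sum fun u _ => Finset.sum_le_sum fun v _ => h2 u v)
    rw [h3]
    have h6 : ∑ v, 5 / 36 * (∑ u, T v u) / l ≤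
        ∑ v, Ev (fun ε : Fin n → Bool => gs T ε v * ph l (gs T ε v)) :=
      Finset.sum_le_sum fun v _ => gp_ge hT hl0 v (hd v)
    have h7 : ∑ v, 5 / 36 * (∑ u, T v u) / l = 5 / 36 * D / l := by
      rw [← Finset.sum_div, ← Finset.mul_sum]
    rw [h7] at h6
    have h8 : 5 / 72 * D / l = 1 / 2 * (5 / 36 * D / l) := by ring
    rw [h8]
    linarith
  have hE2 : Ev (fun ε : Fin n → Bool => (∑ u, PA_x W T l ε u) *
      ∑ v, (∑ u, T v u) * PA_x W T l ε v) ≤ l ^ 2 * (N * l ^ 2 / 4) := by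
    have h1 : Ev (fun ε : Fin n → Bool => (∑ u, PA_x W T l ε u) *
        ∑ v, (∑ u, T v u) * PA_x W T l ε v) = ∑ u, ∑ v, (∑ w, T v w) *
          Ev (fun ε : Fin n → Bool => PA_x W T l ε u * PA_x W T l ε v) := by
      have : (fun ε : Fin n → Bool => (∑ u, PA_x W T l ε u) *
          ∑ v, (∑ u, T v u) * PA_x W T l ε v) = fun ε => ∑ u, ∑ v,
            (∑ w, T v w) * (PA_x W T l ε u * PA_x W T l ε v) := by
        funext ε
        rw [Finset.sum_mul_sum]
        refine Finset.sum_congr rfl fun u _ => Finset.sum_congr rfl fun v _ => ?_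
        ring
      rw [this, Ev_sum]
      refine Finset.sum_congr rfl fun u _ => ?_
      rw [Ev_sum]
      refine Finset.sum_congr rfl fun v _ => ?_
      rw [Ev_smul]
    rw [h1]
    have h2 : ∀ u v, (∑ w, T v w) *
        Ev (fun ε : Fin n → Bool => PA_x W T l ε u * PA_x W T l ε v) ≤
        l ^ 2 * Ev (fun ε : Fin n → Bool => PA_x W T l ε u * PA_x W T l ε v) := fun u v =>
      mul_le_mul_of_nonneg_right (hd v) (PA_cov_nonneg W hT hl0 u v)
    refine (Finset.sum_le_sum fun u _ => Finset.sum_le_sum fun v _ => h2 u v).trans ?_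
    simp only [← Finset.mul_sum]
    exact mul_le_mul_of_nonneg_left (PA_sum_cov hT hs hl hd hW) (by positivity)
  have hE : 5 / 72 * D / l - l ^ 4 / 2 ≤ Ev F := by
    rw [hF, Ev_sub, Ev_smul]
    have h1 : 2 / N * Ev (fun ε : Fin n → Bool => (∑ u, PA_x W T l ε u) *
      ∑ v, (∑ u, T v u) * PA_x W T l ε v) ≤ 2 / N * (l ^ 2 * (N * l ^ 2 / 4)) :=
      mul_le_mul_of_nonneg_left hE2 (by positivity)
    have h2 : 2 / N * (l ^ 2 * (N * l ^ 2 / 4)) = l ^ 4 / 2 := by
      field_simp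
      ring
    linarith
  obtain ⟨ε, hε⟩ := exists_ge_Ev F
  set x : Fin n → ℝ := PA_x W T l ε with hx
  set c : ℝ := (∑ u, x u) / N with hc
  have hxw : ∀ v, |x v| ≤ PA_w W v / 2 := fun v => PA_abs_x W T l ε v
  have hsw : ∑ v, PA_w W v = N := by
    unfold PA_w
    rw [Finset.sum_ite_mem, univ_inter, Finset.sum_const, nsmul_eq_mul, mul_one]
  have hc1 : |c| ≤ 1 / 2 := by
    rw [hc, abs_div, abs_of_pos hN, div_le_iff₀ hN]
    refine (Finset.abs_sum_le_sum_abs _ _).trans ?_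
    refine (Finset.sum_le_sum fun v _ => hxw v).trans ?_
    rw [← Finset.sum_div, hsw]
    linarith
  refine ⟨fun v => (x v - PA_w W v * c) / 2, ?_, ?_, ?_, ?_⟩
  · intro v hv
    have hw0 : PA_w W v = 0 := if_neg hv
    have h1 := hxw v
    rw [hw0, zero_div] at h1
    have h2 : x v = 0 := abs_nonpos_iff.mp h1
    simp only [h2, hw0]
    norm_num
  · rw [← Finset.sum_div, Finset.sum_sub_distrib, ← Finset.sum_mul, hsw, hc,
      mul_div_cancel₀ _ hN.ne', sub_self, zero_div]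
  · intro v
    have h1 := abs_le.1 (hxw v)
    have h2 := abs_le.1 hc1
    show |(x v - PA_w W v * c) / 2| ≤ 1 / 2
    rw [abs_le]
    rcases PA_w_cases W v with ⟨_, h⟩ | ⟨_, h⟩
    · rw [h] at h1 ⊢
      constructor <;> linarith [h1.1, h1.2, h2.1, h2.2]
    · rw [h] at h1 ⊢
      constructor <;> linarith [h1.1, h1.2]
  · rw [PA_qr hs hW x c]
    have h1 : F ε = qr T x - 2 * c * ∑ v, (∑ u, T v u) * x v := by
      rw [hF, hc]
      simp only [← hx]
      ring
    have h2 : 0 ≤ c ^ 2 * D := mul_nonneg (sq_nonneg c) hD.le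
    refine div_le_div_of_nonneg_right ?_ (by norm_num)
    linarith

end Pool.Agent.MPa9445a.BE.Dc
end
end

section

section

/-!
The vector of negative discrepancy: `y = (x - (∑ x / |W|) 1_W) / 2`, `x v = sg (ε v) / 4 - ph l (gs T ε v)`.
-/

set_option autoImplicit false

open Finset

namespace Pool.Agent.MPa9445a.BE.Dc

variable {n : ℕ}

/-- the indicator of `W` -/
private noncomputable def PB_w (W : Finset (Fin n)) (v : Fin n) : ℝ := if v ∈ W then 1 else 0

private noncomputable def PB_x (W : Finset (Fin n)) (T : Matrix (Fin n) (Fin n) ℝ) (l : ℝ)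
    (ε : Fin n → Bool) (v : Fin n) : ℝ := PB_w W v * (sg (ε v) / 4 - ph l (gs T ε v))

private theorem PB_w_cases (W : Finset (Fin n)) (v : Fin n) :
    (v ∈ W ∧ PB_w W v = 1) ∨ (v ∉ W ∧ PB_w W v = 0) := by
  by_cases h : v ∈ W
  · exact Or.inl ⟨h, if_pos h⟩
  · exact Or.inr ⟨h, if_neg h⟩

private theorem PB_abs_x (W : Finset (Fin n)) (T : Matrix (Fin n) (Fin n) ℝ) (l : ℝ)
    (ε : Fin n → Bool) (v : Fin n) : |PB_x W T l ε v| ≤ PB_w W v / 2 := by
  unfold PB_x
  have h1 := ph_le l (gs T ε v)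
  have h2 := abs_sg (ε v)
  rcases PB_w_cases W v with ⟨_, h⟩ | ⟨_, h⟩
  · rw [h, one_mul]
    refine (abs_sub _ _).trans ?_
    rw [abs_div, h2, abs_of_pos (by norm_num : (0 : ℝ) < 4)]
    linarith
  · rw [h, zero_mul, abs_zero]
    norm_num

/-- the covariance of two coordinates -/
private theorem PB_cov (W : Finset (Fin n)) (T : Matrix (Fin n) (Fin n) ℝ) (l : ℝ) (u v : Fin n) :
    Ev (fun ε : Fin n → Bool => PB_x W T l ε u * PB_x W T l ε v) =
      PB_w W u * PB_w W v * ((if u = v then 1 else 0) / 16 -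
        (Ev (fun ε : Fin n → Bool => sg (ε u) * ph l (gs T ε v)) +
          Ev (fun ε : Fin n → Bool => sg (ε v) * ph l (gs T ε u))) / 4 +
        Ev (fun ε : Fin n → Bool => ph l (gs T ε u) * ph l (gs T ε v))) := by
  have h1 : (fun ε : Fin n → Bool => PB_x W T l ε u * PB_x W T l ε v) =
      fun ε => PB_w W u * PB_w W v * (((1 / 16 : ℝ) * (sg (ε u) * sg (ε v)) -
        ((1 / 4 : ℝ) * (sg (ε u) * ph l (gs T ε v)) + (1 / 4 : ℝ) * (sg (ε v) * ph l (gs T ε u)))) +
        ph l (gs T ε u) * ph l (gs T ε v)) := by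
    funext ε
    unfold PB_x
    ring
  rw [h1, Ev_smul, Ev_add, Ev_sub, Ev_add, Ev_smul, Ev_smul, Ev_smul, Ev_pair]
  ring

/-- the sum of all covariances -/
private theorem PB_sum_cov {W : Finset (Fin n)} {T : Matrix (Fin n) (Fin n) ℝ}
    (hT : ∀ u v, T u v = 0 ∨ T u v = 1) (hs : ∀ u v, T u v = T v u) {l : ℝ} (hl : 1 ≤ l)
    (hd : ∀ v, ∑ u, T v u ≤ l ^ 2) (hW : ∀ v, v ∉ W → ∀ u, T v u = 0) :
    ∑ u, ∑ v, |Ev (fun ε : Fin n → Bool => PB_x W T l ε u * PB_x W T l ε v)| ≤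
      W.card * l ^ 2 / 4 := by
  have hl0 : 0 < l := by linarith
  have hT0 : ∀ u v, 0 ≤ T u v := by
    intro u v
    rcases hT u v with h | h <;> rw [h]
    exact zero_le_one
  set D : ℝ := ∑ u, ∑ v, T u v with hD
  have hD0 : 0 ≤ D := Finset.sum_nonneg fun u _ => Finset.sum_nonneg fun v _ => hT0 u v
  have hDW : D ≤ W.card * l ^ 2 := by
    have h1 : D = ∑ u ∈ W, ∑ v, T u v := by
      rw [hD]
      symm
      refine Finset.sum_subset (subset_univ W) fun u _ hu => ?_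
      exact Finset.sum_eq_zero fun v _ => hW u hu v
    rw [h1]
    calc ∑ u ∈ W, ∑ v, T u v ≤ ∑ _u ∈ W, l ^ 2 := Finset.sum_le_sum fun u _ => hd u
      _ = W.card * l ^ 2 := by rw [Finset.sum_const, nsmul_eq_mul]
  have hterm : ∀ u v, |Ev (fun ε : Fin n → Bool => PB_x W T l ε u * PB_x W T l ε v)| ≤
      (if u = v then PB_w W u / 16 else 0) + (T v u / (4 * l) + T u v / (4 * l)) / 4 +
        (∑ w, T u w * T v w) / (16 * l ^ 2) := by
    intro u v
    rw [PB_cov]
    have h1 := sp_le hT hl0 u v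
    have h2 := sp_le hT hl0 v u
    have h3 := pp_le hT hl0 u v
    have h4 := sp_nonneg hT hl0 u v
    have h5 := sp_nonneg hT hl0 v u
    have h6 := pp_nonneg hT hl0 u v
    have h7 : 0 ≤ T v u / (4 * l) := div_nonneg (hT0 v u) (by positivity)
    have h8 : 0 ≤ T u v / (4 * l) := div_nonneg (hT0 u v) (by positivity)
    have h9 : 0 ≤ (∑ w, T u w * T v w) / (16 * l ^ 2) :=
      div_nonneg (Finset.sum_nonneg fun w _ => mul_nonneg (hT0 u w) (hT0 v w)) (by positivity)
    rw [abs_le]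
    rcases PB_w_cases W u with ⟨_, h⟩ | ⟨_, h⟩
    · rcases PB_w_cases W v with ⟨_, h'⟩ | ⟨_, h'⟩
      · rw [h, h']
        split_ifs <;> constructor <;> linarith
      · rw [h, h', mul_zero, zero_mul]
        split_ifs <;> constructor <;> linarith
    · rw [h, zero_mul, zero_mul]
      split_ifs <;> constructor <;> linarith
  refine (Finset.sum_le_sum fun u _ => Finset.sum_le_sum fun v _ => hterm u v).trans ?_
  simp only [Finset.sum_add_distrib]
  have e1 : ∑ u, ∑ v, (if u = v then PB_w W u / 16 else 0) = (W.card : ℝ) / 16 := by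
    have : ∀ u : Fin n, ∑ v, (if u = v then PB_w W u / 16 else 0) = PB_w W u / 16 := by
      intro u
      rw [Finset.sum_ite_eq, if_pos (mem_univ u)]
    rw [Finset.sum_congr rfl fun u _ => this u, ← Finset.sum_div]
    congr 1
    unfold PB_w
    rw [Finset.sum_ite_mem, univ_inter, Finset.sum_const, nsmul_eq_mul, mul_one]
  have e2 : ∑ u, ∑ v, (T v u / (4 * l) + T u v / (4 * l)) / 4 = D / (8 * l) := by
    have h1 : ∀ u v : Fin n, (T v u / (4 * l) + T u v / (4 * l)) / 4 = T u v / (8 * l) := by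
      intro u v
      rw [hs v u]
      field_simp
      ring
    rw [Finset.sum_congr rfl fun u _ => Finset.sum_congr rfl fun v _ => h1 u v, hD,
      Finset.sum_div]
    refine Finset.sum_congr rfl fun u _ => ?_
    rw [Finset.sum_div]
  have e3 : ∑ u, ∑ v, (∑ w, T u w * T v w) / (16 * l ^ 2) ≤ D / 16 := by
    have h1 : ∑ u, ∑ v, (∑ w, T u w * T v w) / (16 * l ^ 2) =
        (∑ w, (∑ u, T w u) ^ 2) / (16 * l ^ 2) := by
      rw [Finset.sum_div]
      have h2 : ∀ u v : Fin n, (∑ w, T u w * T v w) / (16 * l ^ 2) =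
          ∑ w, T w u * T w v / (16 * l ^ 2) := by
        intro u v
        rw [Finset.sum_div]
        refine Finset.sum_congr rfl fun w _ => ?_
        rw [hs u w, hs v w]
      rw [Finset.sum_congr rfl fun u _ => Finset.sum_congr rfl fun v _ => h2 u v]
      rw [Finset.sum_congr rfl fun u _ => Finset.sum_comm, Finset.sum_comm]
      refine Finset.sum_congr rfl fun w _ => ?_
      rw [pow_two (∑ u, T w u), Finset.sum_mul_sum, Finset.sum_div]
      refine Finset.sum_congr rfl fun u _ => ?_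
      rw [Finset.sum_div]
    rw [h1, div_le_iff₀ (by positivity)]
    have h3 : ∀ w : Fin n, (∑ u, T w u) ^ 2 ≤ l ^ 2 * ∑ u, T w u := by
      intro w
      rw [sq]
      exact mul_le_mul_of_nonneg_right (hd w) (Finset.sum_nonneg fun u _ => hT0 w u)
    calc ∑ w, (∑ u, T w u) ^ 2 ≤ ∑ w, l ^ 2 * ∑ u, T w u := Finset.sum_le_sum fun w _ => h3 w
      _ = D / 16 * (16 * l ^ 2) := by rw [← Finset.mul_sum, hD]; ring
  rw [e1, e2]
  have h8 : D / (8 * l) ≤ D / 8 := by
    rw [div_le_div_iff₀ (by positivity) (by norm_num)]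
    nlinarith
  have hl2 : 1 ≤ l ^ 2 := by nlinarith
  have h9 : (W.card : ℝ) ≤ W.card * l ^ 2 := by
    have : (0 : ℝ) ≤ W.card := Nat.cast_nonneg _
    nlinarith
  linarith

private theorem PB_qr {W : Finset (Fin n)} {T : Matrix (Fin n) (Fin n) ℝ}
    (hs : ∀ u v, T u v = T v u) (hW : ∀ v, v ∉ W → ∀ u, T v u = 0) (x : Fin n → ℝ) (c : ℝ) :
    qr T (fun v => (x v - PB_w W v * c) / 2) =
      (qr T x - 2 * c * ∑ v, (∑ u, T v u) * x v + c ^ 2 * ∑ u, ∑ v, T u v) / 4 := by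
  have hw : ∀ u v, T u v * PB_w W v = T u v := by
    intro u v
    rcases PB_w_cases W v with ⟨_, h⟩ | ⟨h', h⟩
    · rw [h, mul_one]
    · rw [hs u v, hW v h', zero_mul]
  have hw' : ∀ u v, T u v * PB_w W u = T u v := by
    intro u v
    rw [hs u v]
    exact hw v u
  have e1 : ∑ v, (∑ u, T v u) * x v = ∑ u, ∑ v, T u v * x u := by
    refine Finset.sum_congr rfl fun v _ => ?_
    rw [Finset.sum_mul]
  have e2 : ∑ v, (∑ u, T v u) * x v = ∑ u, ∑ v, T u v * x v := by
    rw [e1, Finset.sum_comm]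
    refine Finset.sum_congr rfl fun v _ => Finset.sum_congr rfl fun u _ => ?_
    rw [hs u v]
  have e3 : 2 * c * ∑ v, (∑ u, T v u) * x v =
      c * (∑ u, ∑ v, T u v * x u) + c * (∑ u, ∑ v, T u v * x v) := by
    rw [← e1, ← e2]
    ring
  rw [e3]
  unfold qr
  rw [Finset.mul_sum, Finset.mul_sum, Finset.mul_sum, ← Finset.sum_add_distrib,
    ← Finset.sum_sub_distrib, ← Finset.sum_add_distrib, Finset.sum_div]
  refine Finset.sum_congr rfl fun u _ => ?_
  rw [Finset.mul_sum, Finset.mul_sum, Finset.mul_sum, ← Finset.sum_add_distrib,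
    ← Finset.sum_sub_distrib, ← Finset.sum_add_distrib, Finset.sum_div]
  refine Finset.sum_congr rfl fun v _ => ?_
  have h1 := hw u v
  have h2 := hw' u v
  have h3 : T u v * PB_w W u * PB_w W v = T u v := by rw [h2, h1]
  have e4 : T u v * ((x u - PB_w W u * c) / 2) * ((x v - PB_w W v * c) / 2) =
      (T u v * x u * x v - (c * (x u * (T u v * PB_w W v)) + c * (x v * (T u v * PB_w W u))) +
        c ^ 2 * (T u v * PB_w W u * PB_w W v)) / 4 := by ring
  rw [e4, h3, h1, h2]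
  ring

theorem exists_disc_neg {W : Finset (Fin n)} {T : Matrix (Fin n) (Fin n) ℝ}
    (hT : ∀ u v, T u v = 0 ∨ T u v = 1) (hs : ∀ u v, T u v = T v u) (h0 : ∀ v, T v v = 0) {l : ℝ}
    (hl : 1 ≤ l) (hd : ∀ v, ∑ u, T v u ≤ l ^ 2) (hW : ∀ v, v ∉ W → ∀ u, T v u = 0)
    (hD : 0 < ∑ u, ∑ v, T u v) :
    ∃ y : Fin n → ℝ, (∀ v, v ∉ W → y v = 0) ∧ ∑ v, y v = 0 ∧ (∀ v, |y v| ≤ 1 / 2) ∧
      (5 / 72 * (∑ u, ∑ v, T u v) / l -
        (∑ u, ∑ v, ∑ w, T u v * (T u w * T v w)) / (16 * l ^ 2) - 3 / 4 * l ^ 4) / 4 ≤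
        -qr T y := by
  have hl0 : 0 < l := by linarith
  have hT0 : ∀ u v, 0 ≤ T u v := by
    intro u v
    rcases hT u v with h | h <;> rw [h]
    exact zero_le_one
  have hN : (0 : ℝ) < W.card := by
    have h1 : W.Nonempty := by
      by_contra h
      rw [Finset.not_nonempty_iff_eq_empty] at h
      have : ∑ u, ∑ v, T u v = 0 := Finset.sum_eq_zero fun u _ => Finset.sum_eq_zero fun v _ =>
        hW u (by rw [h]; exact Finset.notMem_empty u) v
      linarith
    exact_mod_cast h1.card_pos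
  set N : ℝ := (W.card : ℝ) with hNdef
  set D : ℝ := ∑ u, ∑ v, T u v with hDdef
  have hDW : D ≤ N * l ^ 2 := by
    have h1 : D = ∑ u ∈ W, ∑ v, T u v := by
      rw [hDdef]
      symm
      refine Finset.sum_subset (subset_univ W) fun u _ hu => ?_
      exact Finset.sum_eq_zero fun v _ => hW u hu v
    rw [h1]
    calc ∑ u ∈ W, ∑ v, T u v ≤ ∑ _u ∈ W, l ^ 2 := Finset.sum_le_sum fun u _ => hd u
      _ = N * l ^ 2 := by rw [Finset.sum_const, nsmul_eq_mul]
  set R : ℝ := ∑ u, ∑ v, ∑ w, T u v * (T u w * T v w) with hRdef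
  -- the expectation
  set F : (Fin n → Bool) → ℝ := fun ε => -qr T (PB_x W T l ε) +
    2 / N * ((∑ u, PB_x W T l ε u) * ∑ v, (∑ u, T v u) * PB_x W T l ε v) -
    D / N ^ 2 * ((∑ u, PB_x W T l ε u) * ∑ v, PB_x W T l ε v) with hF
  have hE1 : 5 / 72 * D / l - R / (16 * l ^ 2) ≤
      Ev (fun ε : Fin n → Bool => -qr T (PB_x W T l ε)) := by
    have h1 : Ev (fun ε : Fin n → Bool => -qr T (PB_x W T l ε)) =
        ∑ u, ∑ v, T u v * -Ev (fun ε : Fin n → Bool => PB_x W T l ε u * PB_x W T l ε v) := by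
      rw [Ev_neg]
      unfold qr
      rw [Ev_sum, ← Finset.sum_neg_distrib]
      refine Finset.sum_congr rfl fun u _ => ?_
      rw [Ev_sum, ← Finset.sum_neg_distrib]
      refine Finset.sum_congr rfl fun v _ => ?_
      rw [mul_neg, ← Ev_smul]
      congr 2
      funext ε
      ring
    have h2 : ∀ u v, T u v * ((Ev (fun ε : Fin n → Bool => sg (ε u) * ph l (gs T ε v)) +
          Ev (fun ε : Fin n → Bool => sg (ε v) * ph l (gs T ε u))) / 4) -
          (∑ w, T u v * (T u w * T v w)) / (16 * l ^ 2) ≤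
        T u v * -Ev (fun ε : Fin n → Bool => PB_x W T l ε u * PB_x W T l ε v) := by
      intro u v
      rcases hT u v with h | h
      · rw [h, zero_mul, zero_mul]
        simp
      · rw [h, one_mul, one_mul, PB_cov]
        have hu : PB_w W u = 1 := by
          rcases PB_w_cases W u with ⟨_, h'⟩ | ⟨h', _⟩
          · exact h'
          · rw [hW u h'] at h
            exact absurd h (by norm_num)
        have hv : PB_w W v = 1 := by
          rcases PB_w_cases W v with ⟨_, h'⟩ | ⟨h', _⟩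
          · exact h'
          · rw [hs u v, hW v h'] at h
            exact absurd h (by norm_num)
        have huv : u ≠ v := by
          rintro rfl
          rw [h0 u] at h
          exact absurd h (by norm_num)
        rw [hu, hv, if_neg huv]
        have h3 := pp_le hT hl0 u v
        simp only [one_mul]
        linarith
    have h3 : ∑ u, ∑ v, (T u v * ((Ev (fun ε : Fin n → Bool => sg (ε u) * ph l (gs T ε v)) +
          Ev (fun ε : Fin n → Bool => sg (ε v) * ph l (gs T ε u))) / 4) -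
          (∑ w, T u v * (T u w * T v w)) / (16 * l ^ 2)) =
        (1 / 2) * ∑ v, Ev (fun ε : Fin n → Bool => gs T ε v * ph l (gs T ε v)) -
          R / (16 * l ^ 2) := by
      have h4 : ∀ v : Fin n, Ev (fun ε : Fin n → Bool => gs T ε v * ph l (gs T ε v)) =
          ∑ u, T v u * Ev (fun ε : Fin n → Bool => sg (ε u) * ph l (gs T ε v)) := by
        intro v
        have : (fun ε : Fin n → Bool => gs T ε v * ph l (gs T ε v)) =
            fun ε => ∑ u, T v u * (sg (ε u) * ph l (gs T ε v)) := by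
          funext ε
          have h5 : gs T ε v * ph l (gs T ε v) = (∑ u, T v u * sg (ε u)) * ph l (gs T ε v) := rfl
          rw [h5, Finset.sum_mul]
          refine Finset.sum_congr rfl fun u _ => ?_
          rw [mul_assoc]
        rw [this, Ev_sum]
        refine Finset.sum_congr rfl fun u _ => ?_
        rw [Ev_smul]
      rw [Finset.sum_congr rfl fun v _ => h4 v]
      have h5 : ∀ u v : Fin n, T u v *
          ((Ev (fun ε : Fin n → Bool => sg (ε u) * ph l (gs T ε v)) +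
            Ev (fun ε : Fin n → Bool => sg (ε v) * ph l (gs T ε u))) / 4) =
          (1 / 4) * (T v u * Ev (fun ε : Fin n → Bool => sg (ε u) * ph l (gs T ε v))) +
          (1 / 4) * (T u v * Ev (fun ε : Fin n → Bool => sg (ε v) * ph l (gs T ε u))) := by
        intro u v
        rw [hs v u]
        ring
      simp only [Finset.sum_sub_distrib]
      rw [Finset.sum_congr rfl fun u _ => Finset.sum_congr rfl fun v _ => h5 u v]
      simp only [Finset.sum_add_distrib]
      simp only [← Finset.mul_sum]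
      rw [Finset.sum_comm (f := fun u v =>
        T v u * Ev (fun ε : Fin n → Bool => sg (ε u) * ph l (gs T ε v)))]
      have h6 : ∑ u, ∑ v, (T u v * ∑ w, T u w * T v w) / (16 * l ^ 2) = R / (16 * l ^ 2) := by
        rw [hRdef, Finset.sum_div]
        refine Finset.sum_congr rfl fun u _ => ?_
        rw [Finset.sum_div]
        refine Finset.sum_congr rfl fun v _ => ?_
        rw [Finset.mul_sum]
      rw [h6]
      ring
    rw [h1]
    refine le_trans ?_ (Finset.sum_le_sum fun u _ => Finset.sum_le_sum fun v _ => h2 u v)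
    rw [h3]
    have h6 : ∑ v, 5 / 36 * (∑ u, T v u) / l ≤
        ∑ v, Ev (fun ε : Fin n → Bool => gs T ε v * ph l (gs T ε v)) :=
      Finset.sum_le_sum fun v _ => gp_ge hT hl0 v (hd v)
    have h7 : ∑ v, 5 / 36 * (∑ u, T v u) / l = 5 / 36 * D / l := by
      rw [← Finset.sum_div, ← Finset.mul_sum]
    rw [h7] at h6
    have h8 : 5 / 72 * D / l = 1 / 2 * (5 / 36 * D / l) := by ring
    rw [h8]
    linarith
  have hcov := PB_sum_cov (W := W) hT hs hl hd hW
  have hE2 : -(l ^ 2 * (N * l ^ 2 / 4)) ≤ Ev (fun ε : Fin n → Bool => (∑ u, PB_x W T l ε u) *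
      ∑ v, (∑ u, T v u) * PB_x W T l ε v) := by
    have h1 : Ev (fun ε : Fin n → Bool => (∑ u, PB_x W T l ε u) *
        ∑ v, (∑ u, T v u) * PB_x W T l ε v) = ∑ u, ∑ v, (∑ w, T v w) *
          Ev (fun ε : Fin n → Bool => PB_x W T l ε u * PB_x W T l ε v) := by
      have : (fun ε : Fin n → Bool => (∑ u, PB_x W T l ε u) *
          ∑ v, (∑ u, T v u) * PB_x W T l ε v) = fun ε => ∑ u, ∑ v,
            (∑ w, T v w) * (PB_x W T l ε u * PB_x W T l ε v) := by
        funext ε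
        rw [Finset.sum_mul_sum]
        refine Finset.sum_congr rfl fun u _ => Finset.sum_congr rfl fun v _ => ?_
        ring
      rw [this, Ev_sum]
      refine Finset.sum_congr rfl fun u _ => ?_
      rw [Ev_sum]
      refine Finset.sum_congr rfl fun v _ => ?_
      rw [Ev_smul]
    rw [h1]
    have h2 : ∀ u v, -(l ^ 2 * |Ev (fun ε : Fin n → Bool => PB_x W T l ε u * PB_x W T l ε v)|) ≤
        (∑ w, T v w) * Ev (fun ε : Fin n → Bool => PB_x W T l ε u * PB_x W T l ε v) := by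
      intro u v
      have h3 := hd v
      have h4 : 0 ≤ ∑ w, T v w := Finset.sum_nonneg fun w _ => hT0 v w
      have h5 := neg_abs_le (Ev (fun ε : Fin n → Bool => PB_x W T l ε u * PB_x W T l ε v))
      have h6 := abs_nonneg (Ev (fun ε : Fin n → Bool => PB_x W T l ε u * PB_x W T l ε v))
      have h7 : (∑ w, T v w) * |Ev (fun ε : Fin n → Bool => PB_x W T l ε u * PB_x W T l ε v)| ≤
        l ^ 2 * |Ev (fun ε : Fin n → Bool => PB_x W T l ε u * PB_x W T l ε v)| :=
        mul_le_mul_of_nonneg_right h3 h6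
      have h8 := mul_le_mul_of_nonneg_left h5 h4
      linarith
    refine le_trans ?_ (Finset.sum_le_sum fun u _ => Finset.sum_le_sum fun v _ => h2 u v)
    simp only [Finset.sum_neg_distrib, ← Finset.mul_sum]
    have := mul_le_mul_of_nonneg_left hcov (by positivity : (0 : ℝ) ≤ l ^ 2)
    linarith
  have hE3 : Ev (fun ε : Fin n → Bool => (∑ u, PB_x W T l ε u) *
      ∑ v, PB_x W T l ε v) ≤ N * l ^ 2 / 4 := by
    have h1 : Ev (fun ε : Fin n → Bool => (∑ u, PB_x W T l ε u) *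
        ∑ v, PB_x W T l ε v) = ∑ u, ∑ v,
          Ev (fun ε : Fin n → Bool => PB_x W T l ε u * PB_x W T l ε v) := by
      have : (fun ε : Fin n → Bool => (∑ u, PB_x W T l ε u) *
          ∑ v, PB_x W T l ε v) = fun ε => ∑ u, ∑ v,
            (PB_x W T l ε u * PB_x W T l ε v) := by
        funext ε
        rw [Finset.sum_mul_sum]
      rw [this, Ev_sum]
      refine Finset.sum_congr rfl fun u _ => ?_
      rw [Ev_sum]
    rw [h1]
    exact (Finset.sum_le_sum fun u _ => Finset.sum_le_sum fun v _ => le_abs_self _).trans hcov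
  have hE : 5 / 72 * D / l - R / (16 * l ^ 2) - 3 / 4 * l ^ 4 ≤ Ev F := by
    rw [hF, Ev_sub, Ev_add, Ev_smul, Ev_smul]
    have h1 : 2 / N * -(l ^ 2 * (N * l ^ 2 / 4)) ≤
      2 / N * Ev (fun ε : Fin n → Bool => (∑ u, PB_x W T l ε u) *
      ∑ v, (∑ u, T v u) * PB_x W T l ε v) := mul_le_mul_of_nonneg_left hE2 (by positivity)
    have h2 : 2 / N * -(l ^ 2 * (N * l ^ 2 / 4)) = -(l ^ 4 / 2) := by
      field_simp
      ring
    have h3 : D / N ^ 2 * Ev (fun ε : Fin n → Bool => (∑ u, PB_x W T l ε u) *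
      ∑ v, PB_x W T l ε v) ≤ D / N ^ 2 * (N * l ^ 2 / 4) :=
      mul_le_mul_of_nonneg_left hE3 (by positivity)
    have h4 : D / N ^ 2 * (N * l ^ 2 / 4) ≤ l ^ 4 / 4 := by
      have e1 : D / N ^ 2 * (N * l ^ 2 / 4) = D * l ^ 2 / (4 * N) := by
        field_simp
      rw [e1, div_le_iff₀ (by positivity)]
      have := mul_le_mul_of_nonneg_right hDW (by positivity : (0 : ℝ) ≤ l ^ 2)
      nlinarith
    linarith
  obtain ⟨ε, hε⟩ := exists_ge_Ev F
  set x : Fin n → ℝ := PB_x W T l ε with hx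
  set c : ℝ := (∑ u, x u) / N with hc
  have hxw : ∀ v, |x v| ≤ PB_w W v / 2 := fun v => PB_abs_x W T l ε v
  have hsw : ∑ v, PB_w W v = N := by
    unfold PB_w
    rw [Finset.sum_ite_mem, univ_inter, Finset.sum_const, nsmul_eq_mul, mul_one]
  have hc1 : |c| ≤ 1 / 2 := by
    rw [hc, abs_div, abs_of_pos hN, div_le_iff₀ hN]
    refine (Finset.abs_sum_le_sum_abs _ _).trans ?_
    refine (Finset.sum_le_sum fun v _ => hxw v).trans ?_
    rw [← Finset.sum_div, hsw]
    linarith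
  refine ⟨fun v => (x v - PB_w W v * c) / 2, ?_, ?_, ?_, ?_⟩
  · intro v hv
    have hw0 : PB_w W v = 0 := if_neg hv
    have h1 := hxw v
    rw [hw0, zero_div] at h1
    have h2 : x v = 0 := abs_nonpos_iff.mp h1
    simp only [h2, hw0]
    norm_num
  · rw [← Finset.sum_div, Finset.sum_sub_distrib, ← Finset.sum_mul, hsw, hc,
      mul_div_cancel₀ _ hN.ne', sub_self, zero_div]
  · intro v
    have h1 := abs_le.1 (hxw v)
    have h2 := abs_le.1 hc1
    show |(x v - PB_w W v * c) / 2| ≤ 1 / 2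
    rw [abs_le]
    rcases PB_w_cases W v with ⟨_, h⟩ | ⟨_, h⟩
    · rw [h] at h1 ⊢
      constructor <;> linarith [h1.1, h1.2, h2.1, h2.2]
    · rw [h] at h1 ⊢
      constructor <;> linarith [h1.1, h1.2]
  · rw [PB_qr hs hW x c]
    have h1 : F ε = -(qr T x - 2 * c * ∑ v, (∑ u, T v u) * x v + c ^ 2 * D) := by
      rw [hF, hc]
      simp only [← hx]
      field_simp
      ring
    have h2 : -((qr T x - 2 * c * ∑ v, (∑ u, T v u) * x v + c ^ 2 * D) / 4) =
        (-(qr T x - 2 * c * ∑ v, (∑ u, T v u) * x v + c ^ 2 * D)) / 4 := by ring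
    rw [h2]
    refine div_le_div_of_nonneg_right ?_ (by norm_num)
    rw [← h1]
    linarith

end Pool.Agent.MPa9445a.BE.Dc
end

section

/-!
Sparse graphs in which no small set of vertices covers almost all edges have robust positive discrepancy.
-/

set_option autoImplicit false

open Finset

namespace Pool.Agent.MPa9445a.BE

variable {n : ℕ}

private theorem PS_num {D N r l Q D1 : ℝ} (hD : 0 < D) (hN : 0 < N) (hr : 0 < r) (hr1 : r ≤ 1)
    (hl : 0 < l) (hl2 : l ^ 2 = 2 * D / (r * N)) (hQ : 0 < Q) (hQ2 : Q ^ 2 = D * N)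
    (h3 : D ^ 3 ≤ r ^ 8 / 10 ^ 6 * N ^ 5) (hD1 : r * D ≤ D1) :
    7 / 10 * r ^ 2 * Q ≤ D1 / l ∧ l ^ 4 / 2 ≤ 2 / 1000 * r ^ 2 * Q := by
  have ha : 7 / 10 * r ^ 2 * Q ≤ D1 / l := by
    rw [le_div_iff₀ hl]
    refine le_trans ?_ hD1
    have h1 : (7 / 10 * r ^ 2 * Q * l) ^ 2 ≤ (r * D) ^ 2 := by
      have e1 : (7 / 10 * r ^ 2 * Q * l) ^ 2 = 49 / 100 * r ^ 4 * (Q ^ 2) * (l ^ 2) := by ring
      rw [e1, hQ2, hl2]
      have e2 : 49 / 100 * r ^ 4 * (D * N) * (2 * D / (r * N)) = 98 / 100 * r ^ 3 * D ^ 2 := by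
        field_simp
        ring
      rw [e2]
      have h2 : r ^ 3 ≤ r ^ 2 := pow_le_pow_of_le_one hr.le hr1 (by norm_num)
      have h3 : 0 ≤ D ^ 2 := by positivity
      have h4 : r ^ 3 * D ^ 2 ≤ r ^ 2 * D ^ 2 := mul_le_mul_of_nonneg_right h2 h3
      have h5 : 0 ≤ r ^ 3 * D ^ 2 := by positivity
      nlinarith
    exact (abs_le_of_sq_le_sq' h1 (by positivity)).2
  have hb : l ^ 4 / 2 ≤ 2 / 1000 * r ^ 2 * Q := by
    have e1 : l ^ 4 = (l ^ 2) ^ 2 := by ring
    have e2 : (2 * D / (r * N)) ^ 2 / 2 = 2 * D ^ 2 / (r ^ 2 * N ^ 2) := by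
      field_simp
    rw [e1, hl2, e2, div_le_iff₀ (by positivity)]
    have h1 : (D ^ 2) ^ 2 ≤ (r ^ 4 / 1000 * N ^ 2 * Q) ^ 2 := by
      have e3 : (r ^ 4 / 1000 * N ^ 2 * Q) ^ 2 = r ^ 8 / 10 ^ 6 * N ^ 4 * Q ^ 2 := by ring
      rw [e3, hQ2]
      have e4 : (D ^ 2) ^ 2 = D ^ 3 * D := by ring
      have e5 : r ^ 8 / 10 ^ 6 * N ^ 4 * (D * N) = r ^ 8 / 10 ^ 6 * N ^ 5 * D := by ring
      rw [e4, e5]
      exact mul_le_mul_of_nonneg_right h3 hD.le
    have h2 : D ^ 2 ≤ r ^ 4 / 1000 * N ^ 2 * Q := (abs_le_of_sq_le_sq' h1 (by positivity)).2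
    calc 2 * D ^ 2 ≤ 2 * (r ^ 4 / 1000 * N ^ 2 * Q) := by linarith
      _ = 2 / 1000 * r ^ 2 * Q * (r ^ 2 * N ^ 2) := by ring
  exact ⟨ha, hb⟩

/-- The low degree part outside `B`. -/
private theorem PS_setup {G' : SimpleGraph (Fin n)} {U : Finset (Fin n)}
    (hU : ∀ u v, G'.Adj u v → u ∈ U) {r : ℝ} (hr : 0 < r) (hne : 0 < ne G')
    (hsp : Spread r G') {B : Finset (Fin n)} (hB : (B.card : ℝ) ≤ r / 2 * n) :
    (0 : ℝ) < n ∧ ∃ (W : Finset (Fin n)) (T : Matrix (Fin n) (Fin n) ℝ) (l : ℝ),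
      (∀ u v, T u v = 0 ∨ T u v = 1) ∧ (∀ u v, T u v = T v u) ∧ (∀ v, T v v = 0) ∧ 1 ≤ l ∧
      l ^ 2 = 2 * (2 * (ne G' : ℝ)) / (r * n) ∧ (∀ v, ∑ u, T v u ≤ l ^ 2) ∧
      (∀ v, v ∉ W → ∀ u, T v u = 0) ∧ 0 < ∑ u, ∑ v, T u v ∧
      r * (2 * (ne G' : ℝ)) ≤ ∑ u, ∑ v, T u v ∧ (∀ v, v ∈ B ∨ v ∉ U → v ∉ W) ∧
      (∀ y : Fin n → ℝ, (∀ v, v ∉ W → y v = 0) → qr (adjR G') y = qr T y) ∧
      ∀ u v, T u v ≤ adjR G' u v := by
  classical
  have h01 : ∀ (G : SimpleGraph (Fin n)) (u v : Fin n), adjR G u v = 0 ∨ adjR G u v = 1 := by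
    intro G u v
    unfold adjR
    split_ifs
    · exact Or.inr rfl
    · exact Or.inl rfl
  have hpos : ∀ (G : SimpleGraph (Fin n)) (u v : Fin n), 0 ≤ adjR G u v := by
    intro G u v
    rcases h01 G u v with h | h <;> rw [h]
    exact zero_le_one
  have hsq : ∀ G : SimpleGraph (Fin n), ∑ u, ∑ v, adjR G u v = 2 * ne G := by
    intro G
    rw [← sum_adjR_sq]
    refine Finset.sum_congr rfl fun u _ => Finset.sum_congr rfl fun v _ => ?_
    rcases h01 G u v with h | h <;> rw [h] <;> norm_num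
  have hmR : (0 : ℝ) < ne G' := by exact_mod_cast hne
  have hn : 0 < n := by
    rcases Nat.eq_zero_or_pos n with h | h
    · subst h
      have h1 := hsq G'
      rw [Fin.sum_univ_zero] at h1
      linarith
    · exact h
  have hN : (0 : ℝ) < n := by exact_mod_cast hn
  set D : ℝ := 2 * (ne G' : ℝ) with hDdef
  have hD : 0 < D := by positivity
  set Δ : ℝ := 2 * D / (r * n) with hΔ
  have hΔ0 : 0 < Δ := by positivity
  set B₀ : Finset (Fin n) := univ.filter fun v => Δ < ∑ u, adjR G' v u with hB₀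
  have hB₀c : (B₀.card : ℝ) ≤ r / 2 * n := by
    have h1 : (B₀.card : ℝ) * Δ ≤ D := by
      calc (B₀.card : ℝ) * Δ = ∑ _v ∈ B₀, Δ := by rw [Finset.sum_const, nsmul_eq_mul]
        _ ≤ ∑ v ∈ B₀, ∑ u, adjR G' v u :=
            Finset.sum_le_sum fun v hv => (Finset.mem_filter.1 hv).2.le
        _ ≤ ∑ v, ∑ u, adjR G' v u := Finset.sum_le_sum_of_subset_of_nonneg (subset_univ _)
            fun v _ _ => Finset.sum_nonneg fun u _ => hpos G' v u
        _ = D := hsq G'
    have h2 : D / Δ = r / 2 * n := by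
      rw [hΔ]
      field_simp
    rw [← h2, le_div_iff₀ hΔ0]
    exact h1
  have hBB : ((B ∪ B₀).card : ℝ) ≤ r * n := by
    have h1 : (((B ∪ B₀).card : ℕ) : ℝ) ≤ B.card + B₀.card := by
      exact_mod_cast Finset.card_union_le B B₀
    linarith
  have hD1 := hsp (B ∪ B₀) hBB
  set G₁ := subG G' (B ∪ B₀) with hG₁
  set W : Finset (Fin n) := U.filter fun v => v ∉ B ∪ B₀ with hW
  have hadj : ∀ u v, G₁.Adj u v ↔ G'.Adj u v ∧ u ∉ B ∪ B₀ ∧ v ∉ B ∪ B₀ := fun u v => Iff.rfl
  have hrow : ∀ v, v ∉ W → ∀ u, adjR G₁ v u = 0 := by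
    intro v hv u
    unfold adjR
    rw [if_neg]
    intro h
    exact hv (Finset.mem_filter.2 ⟨hU v u ((hadj v u).1 h).1, ((hadj v u).1 h).2.1⟩)
  have hle : ∀ u v, adjR G₁ u v ≤ adjR G' u v := by
    intro u v
    unfold adjR
    by_cases h : G₁.Adj u v
    · rw [if_pos h, if_pos ((hadj u v).1 h).1]
    · rw [if_neg h]
      split_ifs
      · exact zero_le_one
      · exact le_refl _
  have hdeg : ∀ v, ∑ u, adjR G₁ v u ≤ Δ := by
    intro v
    by_cases hv : v ∈ W
    · have h1 : v ∉ B₀ := fun h => (Finset.mem_filter.1 hv).2 (Finset.mem_union_right _ h)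
      have h2 : ¬ Δ < ∑ u, adjR G' v u := fun h => h1 (Finset.mem_filter.2 ⟨mem_univ v, h⟩)
      exact (Finset.sum_le_sum fun u _ => hle v u).trans (not_lt.1 h2)
    · rw [Finset.sum_eq_zero fun u _ => hrow v hv u]
      exact hΔ0.le
  have hsum1 : r * D ≤ ∑ u, ∑ v, adjR G₁ u v := by
    rw [hsq G₁, hDdef]
    linarith
  have hpos1 : 0 < ∑ u, ∑ v, adjR G₁ u v := lt_of_lt_of_le (by positivity) hsum1
  have hΔ1 : 1 ≤ Δ := by
    obtain ⟨u, _, hu⟩ := Finset.exists_ne_zero_of_sum_ne_zero hpos1.ne'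
    obtain ⟨v, _, hv⟩ := Finset.exists_ne_zero_of_sum_ne_zero hu
    have h1 : adjR G₁ u v = 1 := (h01 G₁ u v).resolve_left hv
    calc (1 : ℝ) = adjR G₁ u v := h1.symm
      _ ≤ ∑ v, adjR G₁ u v := Finset.single_le_sum (f := fun v => adjR G₁ u v)
          (fun i _ => hpos G₁ u i) (mem_univ v)
      _ ≤ Δ := hdeg u
  set l : ℝ := Real.sqrt Δ with hl
  have hl2 : l ^ 2 = Δ := Real.sq_sqrt hΔ0.le
  have hl1 : 1 ≤ l := by
    rw [hl, Real.one_le_sqrt]
    exact hΔ1
  refine ⟨hN, W, adjR G₁, l, h01 G₁, fun u v => ?_, fun v => ?_, hl1, hl2, fun v => ?_, hrow, hpos1,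
    hsum1, fun v hv h => ?_, fun y hy1 => ?_, hle⟩
  · unfold adjR
    by_cases h : G₁.Adj u v
    · rw [if_pos h, if_pos h.symm]
    · rw [if_neg h, if_neg fun h' => h h'.symm]
  · unfold adjR
    rw [if_neg (G₁.loopless.irrefl v)]
  · rw [hl2]
    exact hdeg v
  · rw [hW, Finset.mem_filter] at h
    rcases hv with hv | hv
    · exact h.2 (Finset.mem_union_left _ hv)
    · exact hv h.1
  · unfold qr
    refine Finset.sum_congr rfl fun u _ => Finset.sum_congr rfl fun v _ => ?_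
    by_cases hu : u ∈ W
    · by_cases hv : v ∈ W
      · have h1 : adjR G' u v = adjR G₁ u v := by
          have hu' := (Finset.mem_filter.1 hu).2
          have hv' := (Finset.mem_filter.1 hv).2
          unfold adjR
          by_cases h : G'.Adj u v
          · rw [if_pos h, if_pos ((hadj u v).2 ⟨h, hu', hv'⟩)]
          · rw [if_neg h, if_neg fun h' => h ((hadj u v).1 h').1]
        rw [h1]
      · rw [hy1 v hv, mul_zero, mul_zero]
    · rw [hy1 u hu]
      ring

theorem rob_spread {G' : SimpleGraph (Fin n)} {U : Finset (Fin n)}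
    (hU : ∀ u v, G'.Adj u v → u ∈ U) {r : ℝ} (hr : 0 < r) (hr1 : r ≤ 1) (hne : 0 < ne G')
    (hsp : Spread r G') (h3 : 8 * (ne G' : ℝ) ^ 3 ≤ r ^ 8 / 10 ^ 6 * (n : ℝ) ^ 5) :
    Rob (r ^ 2 / 100) (r / 2) (adjR G') U := by
  intro B hB
  obtain ⟨hN, W, T, l, hT, hs, h0, hl1, hl2, hd, hW, hpos, hD1, hBU, hq, _⟩ :=
    PS_setup hU hr hne hsp hB
  have hmR : (0 : ℝ) < ne G' := by exact_mod_cast hne
  obtain ⟨y, hy1, hy2, hy3, hy4⟩ := Dc.exists_disc hT hs h0 hl1 hd hW hpos
  refine ⟨y, fun v hv => hy1 v (hBU v hv), hy2, hy3, ?_⟩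
  rw [hq y hy1]
  refine le_trans ?_ hy4
  have hD : (0 : ℝ) < 2 * (ne G' : ℝ) := by positivity
  have hDN : 0 < 2 * (ne G' : ℝ) * n := by positivity
  rw [sum_adjR_sq]
  obtain ⟨ha, hb⟩ := PS_num hD hN hr hr1 (by linarith) hl2 (Real.sqrt_pos.2 hDN)
    (Real.sq_sqrt hDN.le) (by nlinarith [h3]) hD1
  have hc : 5 / 72 * (∑ u, ∑ v, T u v) / l = 5 / 72 * ((∑ u, ∑ v, T u v) / l) := by ring
  rw [hc]
  have hX : 0 < r ^ 2 * Real.sqrt (2 * (ne G' : ℝ) * n) := by
    have := Real.sqrt_pos.2 hDN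
    positivity
  nlinarith

theorem rob_spread_neg {G' : SimpleGraph (Fin n)} {U : Finset (Fin n)}
    (hU : ∀ u v, G'.Adj u v → u ∈ U) {r : ℝ} (hr : 0 < r) (hr1 : r ≤ 1) (hne : 0 < ne G')
    (hsp : Spread r G') (h3 : 8 * (ne G' : ℝ) ^ 3 ≤ r ^ 8 / 10 ^ 6 * (n : ℝ) ^ 5)
    (ht : (tri G' : ℝ) ≤ r * ne G' * Real.sqrt (ne G' / n)) :
    Rob (r ^ 2 / 200) (r / 2) (-adjR G') U := by
  classical
  intro B hB
  obtain ⟨hN, W, T, l, hT, hs, h0, hl1, hl2, hd, hW, hpos, hD1, hBU, hq, hle⟩ :=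
    PS_setup hU hr hne hsp hB
  have hmR : (0 : ℝ) < ne G' := by exact_mod_cast hne
  have hl0 : 0 < l := by linarith
  obtain ⟨y, hy1, hy2, hy3, hy4⟩ := Dc.exists_disc_neg hT hs h0 hl1 hd hW hpos
  have hsqe : (∑ u, ∑ v, (-adjR G') u v ^ 2) = 2 * ne G' := by
    rw [← sum_adjR_sq]
    refine Finset.sum_congr rfl fun u _ => Finset.sum_congr rfl fun v _ => ?_
    rw [Matrix.neg_apply, neg_sq]
  have hqn : qr (-adjR G') y = -qr T y := by
    rw [← hq y hy1]
    unfold qr
    rw [← Finset.sum_neg_distrib]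
    refine Finset.sum_congr rfl fun u _ => ?_
    rw [← Finset.sum_neg_distrib]
    refine Finset.sum_congr rfl fun v _ => ?_
    rw [Matrix.neg_apply]
    ring
  refine ⟨y, fun v hv => hy1 v (hBU v hv), hy2, hy3, ?_⟩
  rw [hqn, hsqe]
  refine le_trans ?_ hy4
  have hD : (0 : ℝ) < 2 * (ne G' : ℝ) := by positivity
  have hDN : 0 < 2 * (ne G' : ℝ) * n := by positivity
  obtain ⟨ha, hb⟩ := PS_num hD hN hr hr1 hl0 hl2 (Real.sqrt_pos.2 hDN)
    (Real.sq_sqrt hDN.le) (by nlinarith [h3]) hD1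
  -- the triangles
  have hT0 : ∀ u v, 0 ≤ T u v := by
    intro u v
    rcases hT u v with h | h <;> rw [h]
    exact zero_le_one
  have htri : ∑ u, ∑ v, ∑ w, T u v * (T u w * T v w) ≤ (tri G' : ℝ) := by
    have h1 : (tri G' : ℝ) = ∑ u, ∑ v, ∑ w,
        (if G'.Adj u v ∧ G'.Adj u w ∧ G'.Adj v w then (1 : ℝ) else 0) := by
      unfold tri
      rw [Finset.card_filter]
      push_cast
      rw [Fintype.sum_prod_type]
      refine Finset.sum_congr rfl fun u _ => ?_
      rw [Fintype.sum_prod_type]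
    rw [h1]
    refine Finset.sum_le_sum fun u _ => Finset.sum_le_sum fun v _ => Finset.sum_le_sum fun w _ => ?_
    have h2 : ∀ a b, T a b = 1 → G'.Adj a b := by
      intro a b hab
      have h3 := hle a b
      rw [hab] at h3
      unfold adjR at h3
      by_contra hc
      rw [if_neg hc] at h3
      linarith
    rcases hT u v with h | h
    · rw [h, zero_mul]
      split_ifs <;> norm_num
    · rcases hT u w with h' | h'
      · rw [h', zero_mul, mul_zero]
        split_ifs <;> norm_num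
      · rcases hT v w with h'' | h''
        · rw [h'', mul_zero, mul_zero]
          split_ifs <;> norm_num
        · rw [if_pos ⟨h2 u v h, h2 u w h', h2 v w h''⟩, h, h', h'']
          norm_num
  have hsq : Real.sqrt (ne G' / n) ≤ l / 2 := by
    rw [Real.sqrt_le_left (by positivity)]
    have h1 : (l / 2) ^ 2 = ne G' / n / r := by
      rw [div_pow, hl2]
      field_simp
    rw [h1, le_div_iff₀ hr]
    have h2 : (0 : ℝ) < ne G' / n := by positivity
    nlinarith
  have hR : (∑ u, ∑ v, ∑ w, T u v * (T u w * T v w)) / (16 * l ^ 2) ≤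
      1 / 64 * ((∑ u, ∑ v, T u v) / l) := by
    have h1 : ∑ u, ∑ v, ∑ w, T u v * (T u w * T v w) ≤ r * ne G' * (l / 2) :=
      htri.trans (ht.trans (mul_le_mul_of_nonneg_left hsq (by positivity)))
    rw [div_le_iff₀ (by positivity)]
    have h2 : 1 / 64 * ((∑ u, ∑ v, T u v) / l) * (16 * l ^ 2) = (∑ u, ∑ v, T u v) * l / 4 := by
      field_simp
      ring
    rw [h2]
    have h3 := mul_le_mul_of_nonneg_right hD1 hl0.le
    nlinarith
  have hc : 5 / 72 * (∑ u, ∑ v, T u v) / l = 5 / 72 * ((∑ u, ∑ v, T u v) / l) := by ring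
  rw [hc]
  have hX : 0 < r ^ 2 * Real.sqrt (2 * (ne G' : ℝ) * n) := by
    have := Real.sqrt_pos.2 hDN
    positivity
  nlinarith

end Pool.Agent.MPa9445a.BE
end
end
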