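import Pool.Agent.Lib.MP_a9445a_lc.BE.O2
import Pool.Agent.Lib.MP_a9445a_lc.SP.O2
import Pool.Agent.Lib.MP_a9445a_lc.Mg.G117
import Pool.Agent.Lib.MP_a9445a_lc.SP.Cls
import Pool.Agent.Lib.MP_a9445a_lc.Mg.G115

section

section

/-! The theorem on kept vectors. -/

set_option autoImplicit false

open Finset

namespace Pool.Agent.MPa9445a.BE

/-- As `OptP`, for matrices of robust positive discrepancy. -/
def OptR (p : Par) (r : ℝ) (n : ℕ) : Prop :=
  ∀ S : Matrix (Fin n) (Fin n) ℤ, Mat S → 0 < D2 S →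
    ∀ b : Fin n → ℤ, ∀ U : Finset (Fin n), Rob r r (rl S) U → ∀ x ∈ Om U,
    (∀ y ∈ Om U, ∑ v, y v = ∑ v, x v → qf S y + lf b y ≤ qf S x + lf b x) →
    ∀ k : Fin n → Fin 8, ∃ i j, Kp p S b (U ∩ bk k i j) (rs (bk k i j) x)

/-- Few vectors are kept, and the optimum is kept. -/
theorem math_mainR {r : ℝ} (hr : 0 < r) :
    ∃ (p : Par) (δ : ℝ) (n₀ : ℕ), 0 < δ ∧ δ < 1 ∧ ∀ n : ℕ, n₀ ≤ n →
      ThinP p δ n ∧ OptP p r n ∧ OptR p r n := by
  obtain ⟨m, hm⟩ := exists_nat_gt (1 / r)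
  have hm0 : 0 < m := by
    rcases Nat.eq_zero_or_pos m with h | h
    · subst h; simp at hm; linarith
    · exact h
  have hmR : (0 : ℝ) < m := by exact_mod_cast hm0
  have hmr : 1 / (m : ℝ) ≤ r := by
    rw [div_le_iff₀ hmR]
    rw [div_lt_iff₀ hr] at hm
    linarith
  have hc0 : 0 < c3 m := by unfold c3; positivity
  have hc1 : c3 m ≤ 1 := by
    unfold c3
    rw [div_le_one (by positivity)]
    have : (1 : ℝ) ≤ m := by exact_mod_cast hm0
    have h3 : (1 : ℝ) ≤ (m : ℝ) ^ 3 := one_le_pow₀ this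
    nlinarith
  obtain ⟨K, p, q, θ, h₀, hK, hp, hq, hθ, hh, h3, h1, h2, h4⟩ := constants hc0 hc1
  obtain ⟨δ, hδ, hδ1, n₁, hn1⟩ := thin_par m K p q hm0 hK hp hq hθ hh h3 h1 h2 h4
  obtain ⟨n₂, hn2⟩ := opt_par m K p q hm0 hK hq h1 h2
  obtain ⟨n₃, hn3⟩ := opt_parR m K p q hm0 hK hq h1 h2
  refine ⟨par m K p q hm0 hq, δ, max n₁ (max n₂ n₃), hδ, hδ1, fun n hn => ⟨?_, ?_, ?_⟩⟩
  · exact hn1 n (le_trans (le_max_left _ _) hn)
  · intro S hS hD b U hU hE x hx hmax k
    exact hn2 n (le_trans (le_trans (le_max_left _ _) (le_max_right _ _)) hn) S hS hD b U hU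
      (le_trans (mul_le_mul_of_nonneg_right hmr (Real.sqrt_nonneg _)) hE) x hx hmax k
  · intro S hS hD b U hR x hx hmax k
    exact hn3 n (le_trans (le_trans (le_max_right _ _) (le_max_right _ _)) hn) S hS hD b U
      (hR.mono hmr hmr) x hx hmax k

end Pool.Agent.MPa9445a.BE
end

section

/-! The restriction of the optimum is kept for one pair of blocks. -/

set_option autoImplicit false

open Finset

namespace Pool.Agent.MPa9445a.BE

variable {n : ℕ}

private theorem SB6_rl (G : SimpleGraph (Fin n)) : rl (adjZ G) = adjR G := by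
  funext u v
  unfold rl adjZ adjR
  split_ifs <;> simp

private theorem SB6_D2 {G' : SimpleGraph (Fin n)} (hne : G' ≠ ⊥) {S : Matrix (Fin n) (Fin n) ℤ}
    (hS : S = adjZ G' ∨ S = -adjZ G') : 0 < D2 S := by
  have h1 : ∃ u v, G'.Adj u v := by
    by_contra h
    push Not at h
    apply hne
    ext u v
    rw [SimpleGraph.bot_adj]
    exact ⟨fun h' => absurd h' (h u v), fun h' => h'.elim⟩
  obtain ⟨u, v, huv⟩ := h1
  have h2 : S u v ^ 2 = 1 := by
    have h3 : adjZ G' u v = 1 := by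
      unfold adjZ
      rw [if_pos huv]
    rcases hS with h | h
    · rw [h, h3]
      norm_num
    · rw [h, Matrix.neg_apply, h3]
      norm_num
  unfold D2
  have h4 : S u v ^ 2 ≤ ∑ v, S u v ^ 2 :=
    Finset.single_le_sum (f := fun v => S u v ^ 2) (fun i _ => sq_nonneg _) (mem_univ v)
  have h5 : ∑ v, S u v ^ 2 ≤ ∑ u, ∑ v, S u v ^ 2 :=
    Finset.single_le_sum (f := fun u => ∑ v, S u v ^ 2)
      (fun i _ => Finset.sum_nonneg fun j _ => sq_nonneg _) (mem_univ u)
  linarith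

/-- The proof is that of `opt_W`. -/
theorem opt_WR {P : Prm} {r : ℝ} (hm : 100 ≤ P.m) (hM : 100 ≤ P.M) (hn : 100 ≤ n)
    (ho : OptR P.p r n) (G : SimpleGraph (Fin n)) {M : List ℤ} (hA : fm n M = adjZ G)
    {H : Finset (Fin n)} (hH : H.card * P.M ≤ n) (s : ℕ) {G' : SimpleGraph (Fin n)}
    (hG' : (s = 0 ∧ G' = subG G H ∧ Rob r r (adjR G') Hᶜ) ∨
      (s ≠ 0 ∧ G' = subG Gᶜ H ∧ Rob r r (-adjR G') Hᶜ))
    (hne : G' ≠ ⊥) {x : Fin n → ℤ} (hx : x ∈ Om (univ : Finset (Fin n)))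
    (hmax : ∀ y ∈ Om (univ : Finset (Fin n)), bq (wtm n M) y y ≤ bq (wtm n M) x x)
    {g : List ℤ} (hg : ∀ v, fv n g v = if v ∈ H then x v else 0) :
    ∃ i j : Fin 8, ∀ α β : ℤ, Dom P ⟨n, M, g, s, i, j, α, β⟩ G ∧
      KpW P ⟨n, M, g, s, i, j, α, β⟩ (rs (st n (LW ⟨n, M, g, s, i, j, α, β⟩)) x) := by
  have hx1 : ∀ v, x v = 1 ∨ x v = -1 := fun v => (mem_Om.mp hx v).1 (mem_univ v)
  have hne0 : ∀ v, fv n g v ≠ 0 ↔ v ∈ H := by
    intro v
    rw [hg v]
    by_cases hv : v ∈ H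
    · rw [if_pos hv]
      refine ⟨fun _ => hv, fun _ => ?_⟩
      rcases hx1 v with h | h <;> rw [h] <;> norm_num
    · rw [if_neg hv]
      exact ⟨fun h => absurd rfl h, fun h => absurd h hv⟩
  have hset : (univ.filter fun v : Fin n => fv n g v ≠ 0) = H := by
    ext v
    rw [mem_filter]
    exact ⟨fun h => (hne0 v).mp h.2, fun h => ⟨mem_univ v, (hne0 v).mpr h⟩⟩
  have hDom : ∀ (i j : ℕ) (α β : ℤ), Dom P ⟨n, M, g, s, i, j, α, β⟩ G := by
    intro i j α β
    refine ⟨hm, hM, hn, hA, ?_, ?_⟩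
    · intro v
      show fv n g v = 0 ∨ fv n g v = 1 ∨ fv n g v = -1
      rw [hg v]
      by_cases hv : v ∈ H
      · rw [if_pos hv]
        exact Or.inr (hx1 v)
      · rw [if_neg hv]
        exact Or.inl rfl
    · show (univ.filter fun v : Fin n => fv n g v ≠ 0).card * P.M ≤ n
      rw [hset]
      exact hH
  set a₀ : In := ⟨n, M, g, s, 0, 0, 0, 0⟩ with ha₀
  have h0 : Dom P a₀ G := hDom 0 0 0 0
  have hU : ∀ v : Fin n, v ∈ fr a₀ ↔ v ∉ H := by
    intro v
    have h1 : v ∈ fr a₀ ↔ fv n g v = 0 := by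
      unfold fr
      rw [mem_filter]
      exact ⟨fun h => h.2, fun h => ⟨mem_univ _, h⟩⟩
    rw [h1, ← not_iff_not, not_not]
    exact hne0 v
  have hfr : fr a₀ = Hᶜ := by
    ext v
    rw [Finset.mem_compl]
    exact hU v
  have hSL : (fm n (SL a₀) = adjZ G' ∨ fm n (SL a₀) = -adjZ G') ∧
      Rob r r (rl (fm n (SL a₀))) (fr a₀) := by
    rcases hG' with ⟨hs, hG, hR⟩ | ⟨hs, hG, hR⟩
    · have h2 : fm n (SL a₀) = adjZ G' := by
        have := (SL_sub h0).1 hs
        rw [hG]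
        refine this.trans ?_
        show adjZ (subG G (univ.filter fun v : Fin n => fv n g v ≠ 0)) = _
        rw [hset]
      refine ⟨Or.inl h2, ?_⟩
      rw [h2, SB6_rl, hfr]
      exact hR
    · have h2 : fm n (SL a₀) = -adjZ G' := by
        have := (SL_sub h0).2 hs
        rw [hG]
        refine this.trans ?_
        show -adjZ (subG Gᶜ (univ.filter fun v : Fin n => fv n g v ≠ 0)) = _
        rw [hset]
      refine ⟨Or.inr h2, ?_⟩
      have h3 : rl (-adjZ G') = -adjR G' := by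
        rw [← SB6_rl]
        funext u v
        simp only [rl, Matrix.neg_apply, Int.cast_neg]
      rw [h2, h3, hfr]
      exact hR
  obtain ⟨hSL, hEn⟩ := hSL
  have hD : 0 < D2 (fm n (SL a₀)) := SB6_D2 hne hSL
  have hy : rs (fr a₀) x ∈ Om (fr a₀) := by
    have := rs_Om hx (fr a₀)
    rwa [univ_inter] at this
  have hgy : (fun v => fv n g v + rs (fr a₀) x v) = x := by
    funext v
    rw [hg v]
    by_cases hv : v ∈ H
    · rw [if_pos hv]
      have : v ∉ fr a₀ := fun h => (hU v).mp h hv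
      simp only [rs, if_neg this, add_zero]
    · rw [if_neg hv]
      have : v ∈ fr a₀ := (hU v).mpr hv
      simp only [rs, if_pos this, zero_add]
  have hopt : ∀ y' ∈ Om (fr a₀), ∑ v, y' v = ∑ v, rs (fr a₀) x v →
      qf (fm n (SL a₀)) y' + lf (fv n (bL a₀)) y' ≤
        qf (fm n (SL a₀)) (rs (fr a₀) x) + lf (fv n (bL a₀)) (rs (fr a₀) x) := by
    intro y' hy' hs
    have h1 := value_diff h0 hy' hy hs
    have h2 : (fun v => fv n g v + y' v) ∈ Om (univ : Finset (Fin n)) := by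
      rw [mem_Om]
      intro v
      refine ⟨fun _ => ?_, fun h => absurd (mem_univ v) h⟩
      show fv n g v + y' v = 1 ∨ fv n g v + y' v = -1
      rw [hg v]
      by_cases hv : v ∈ H
      · have h3 : y' v = 0 := (mem_Om.mp hy' v).2 (fun h => (hU v).mp h hv)
        rw [if_pos hv, h3, add_zero]
        exact hx1 v
      · rw [if_neg hv, zero_add]
        exact (mem_Om.mp hy' v).1 ((hU v).mpr hv)
    have h4 := hmax _ h2
    have h5 : bq (wtm n M) (fun v => fv n g v + rs (fr a₀) x v)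
        (fun v => fv n g v + rs (fr a₀) x v) = bq (wtm n M) x x := by rw [hgy]
    have h6 : bq (wtm n M) (fun v => fv n g v + y' v) (fun v => fv n g v + y' v) -
        bq (wtm n M) (fun v => fv n g v + rs (fr a₀) x v)
        (fun v => fv n g v + rs (fr a₀) x v) =
        (qf (fm n (SL a₀)) y' + lf (fv n (bL a₀)) y') -
        (qf (fm n (SL a₀)) (rs (fr a₀) x) + lf (fv n (bL a₀)) (rs (fr a₀) x)) := h1
    linarith
  obtain ⟨i, j, hij⟩ := ho (fm n (SL a₀)) (Mat_SL h0) hD (fv n (bL a₀)) (fr a₀) hEn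
    (rs (fr a₀) x) hy hopt (km n)
  refine ⟨i, j, fun α β => ⟨hDom i j α β, ?_⟩⟩
  have hst : st n (LW ⟨n, M, g, s, i, j, α, β⟩) = fr a₀ ∩ bk (km n) i j :=
    st_LW (a := ⟨n, M, g, s, i, j, α, β⟩) rfl rfl
  have hrs : rs (bk (km n) i j) (rs (fr a₀) x) = rs (fr a₀ ∩ bk (km n) i j) x := by
    funext v
    simp only [rs, mem_inter]
    by_cases h1 : v ∈ bk (km n) i j
    · by_cases h2 : v ∈ fr a₀
      · rw [if_pos h1, if_pos h2, if_pos ⟨h2, h1⟩]
      · rw [if_pos h1, if_neg h2, if_neg (fun h => h2 h.1)]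
    · rw [if_neg h1, if_neg (fun h => h1 h.2)]
  rw [hrs] at hij
  show Kp P.p (fm n (SL a₀)) (fv n (bL a₀)) (st n (LW ⟨n, M, g, s, i, j, α, β⟩))
    (rs (st n (LW ⟨n, M, g, s, i, j, α, β⟩)) x)
  rw [hst]
  exact hij

end Pool.Agent.MPa9445a.BE
end

section

/-! The first kind of candidates. -/

set_option autoImplicit false

open Finset

namespace Pool.Agent.MPa9445a.BE

variable {n : ℕ}

private theorem SB9b_alp (P : Prm) {n : ℕ} (M g : List ℤ) (s i j : ℕ) (α β α' β' : ℤ)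
    (x : Fin n → ℤ) :
    alp P ⟨n, M, g, s, i, j, α, β⟩ x = alp P ⟨n, M, g, s, i, j, α', β'⟩ x := rfl

private theorem SB9b_bet (P : Prm) {n : ℕ} (M g : List ℤ) (s i j : ℕ) (α β α' β' : ℤ)
    (x : Fin n → ℤ) :
    bet P ⟨n, M, g, s, i, j, α, β⟩ x = bet P ⟨n, M, g, s, i, j, α', β'⟩ x := rfl

private theorem SB9b_inp (P : Prm) {n y s i j A B : ℕ} {M L g : List ℤ}
    (h1 : gg n (n / P.b) L y = g) (h4 : dg (n / P.b) y 4 = s) (h5 : dg (n / P.b) y 5 = i)
    (h6 : dg (n / P.b) y 6 = j) (h7 : dg (n / P.b) y 7 = A) (h8 : dg (n / P.b) y 8 = B) :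
    inp P n M L y = ⟨n, M, g, s, i, j, (A : ℤ) - 2 * (n : ℤ) ^ 4, (B : ℤ) - 2 * (n : ℤ) ^ 4⟩ := by
  subst h1 h4 h5 h6 h7 h8
  rfl

private theorem SB9b_best (P : Prm) (n : ℕ) (M : List ℤ) {y : ℕ} (hy : y < 2 ^ (n / P.b * 9)) :
    Phi n M (vec n (cand P (inp P n M (spl n (n / P.M)) y))) ≤
      Phi n M (vec n (best1 P n M)) := by
  have h := (argmax_spec (k := 2 ^ (n / P.b * 9)) (by positivity) (fun x : ℤ =>
    Phi n M (vec n (cand P (inp P n M (spl n (n / P.M)) x.toNat))))).2 y hy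
  simp only [Int.toNat_natCast] at h
  exact h

/-- The first kind. The proof is that of `best1_opt`. -/
theorem best1_optR {P : Prm} {r δ : ℝ} (h : Good P r δ) (hR : ∀ n : ℕ, P.n₀ ≤ n → OptR P.p r n)
    (hn : P.n₀ ≤ n) (G : SimpleGraph (Fin n))
    {M : List ℤ} (hA : fm n M = adjZ G) {H : Finset (Fin n)} (hH : H.card * P.M ≤ n)
    {G' : SimpleGraph (Fin n)} (hG' : (G' = subG G H ∧ Rob r r (adjR G') Hᶜ) ∨
      (G' = subG Gᶜ H ∧ Rob r r (-adjR G') Hᶜ)) (hne : G' ≠ ⊥) {x : Fin n → ℤ} (hx : x ∈ Om (univ : Finset (Fin n)))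
    (hmax : ∀ y ∈ Om (univ : Finset (Fin n)), bq (wtm n M) y y ≤ bq (wtm n M) x x) :
    bq (wtm n M) x x ≤ Phi n M (vec n (best1 P n M)) := by
  have hm := h.m100
  have hM := h.M100
  have h100 : 100 ≤ n := le_trans h.n100 hn
  obtain ⟨s, hs1, hs⟩ : ∃ s : ℕ, s ≤ 1 ∧
      ((s = 0 ∧ G' = subG G H ∧ Rob r r (adjR G') Hᶜ) ∨
        (s ≠ 0 ∧ G' = subG Gᶜ H ∧ Rob r r (-adjR G') Hᶜ)) := by
    rcases hG' with h1 | h1
    · exact ⟨0, by norm_num, Or.inl ⟨rfl, h1⟩⟩
    · exact ⟨1, le_rfl, Or.inr ⟨one_ne_zero, h1⟩⟩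
  set g₀ : Fin n → ℤ := fun v => if v ∈ H then x v else 0 with hg₀
  have hx1 : ∀ v, x v = 1 ∨ x v = -1 := by
    intro v
    have h1 := hx
    unfold Om at h1
    rw [Fintype.mem_piFinset] at h1
    have h2 := h1 v
    simpa using h2
  have hfg : ∀ v, fv n (lst n g₀) v = if v ∈ H then x v else 0 := by
    intro v
    rw [fv_lst]
  obtain ⟨i, j, hij⟩ := opt_WR hm hM h100 (hR n hn) G hA hH s hs hne hx hmax hfg
  -- the two numbers
  obtain ⟨α, hα⟩ : ∃ α, α = alp P ⟨n, M, lst n g₀, s, i, j, 0, 0⟩ x := ⟨_, rfl⟩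
  obtain ⟨β, hβ⟩ : ∃ β, β = bet P ⟨n, M, lst n g₀, s, i, j, 0, 0⟩ x := ⟨_, rfl⟩
  have hαb : |α| ≤ 2 * (n : ℤ) ^ 4 := by
    rw [hα]
    exact alp_bd (hij 0 0).1 hx
  have hβb : |β| ≤ 2 * (n : ℤ) ^ 4 := by
    rw [hβ]
    exact bet_bd (hij 0 0).1 hx
  obtain ⟨A, hA'⟩ := Int.eq_ofNat_of_zero_le (a := α + 2 * (n : ℤ) ^ 4) (by
    have := (abs_le.mp hαb).1
    linarith)
  obtain ⟨B, hB'⟩ := Int.eq_ofNat_of_zero_le (a := β + 2 * (n : ℤ) ^ 4) (by
    have := (abs_le.mp hβb).1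
    linarith)
  have hAle : A ≤ 4 * n ^ 4 := by
    have h1 := (abs_le.mp hαb).2
    have h2 : (A : ℤ) ≤ 4 * (n : ℤ) ^ 4 := by rw [← hA']; linarith
    exact_mod_cast h2
  have hBle : B ≤ 4 * n ^ 4 := by
    have h1 := (abs_le.mp hβb).2
    have h2 : (B : ℤ) ≤ 4 * (n : ℤ) ^ 4 := by rw [← hB']; linarith
    exact_mod_cast h2
  have h4 := h.n4 n hn
  have hMpos : 0 < P.M := by omega
  obtain ⟨y, hy, hyg, hyd⟩ := exists_index (n := n) (h := n / P.M) (b := n / P.b) (K := 9)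
    (h.sM n hn) (by norm_num) (g := g₀) (by
      intro v
      rw [hg₀]
      by_cases hv : v ∈ H
      · simp only [if_pos hv]
        exact Or.inr (hx1 v)
      · simp only [if_neg hv]
        exact Or.inl trivial) (by
      have h1 : (univ.filter fun v => g₀ v ≠ 0) ⊆ H := by
        intro v hv
        by_contra hvH
        have h2 := (mem_filter.mp hv).2
        rw [hg₀] at h2
        simp only [if_neg hvH] at h2
        exact h2 rfl
      exact (card_le_card h1).trans ((Nat.le_div_iff_mul_le hMpos).mpr hH))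
    (fun t => if t = 4 then s else if t = 5 then i else if t = 6 then j else
      if t = 7 then A else B) (by
      intro t _ _
      have hi := i.isLt
      have hj := j.isLt
      split_ifs <;> omega)
  have d4 := hyd 4 (by norm_num) (by norm_num)
  have d5 := hyd 5 (by norm_num) (by norm_num)
  have d6 := hyd 6 (by norm_num) (by norm_num)
  have d7 := hyd 7 (by norm_num) (by norm_num)
  have d8 := hyd 8 (by norm_num) (by norm_num)
  norm_num at d4 d5 d6 d7 d8
  have hin := SB9b_inp P (M := M) hyg d4 d5 d6 d7 d8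
  have eA : (A : ℤ) - 2 * (n : ℤ) ^ 4 = α := by
    have : (A : ℤ) = α + 2 * (n : ℤ) ^ 4 := hA'.symm
    rw [this]
    ring
  have eB : (B : ℤ) - 2 * (n : ℤ) ^ 4 = β := by
    have : (B : ℤ) = β + 2 * (n : ℤ) ^ 4 := hB'.symm
    rw [this]
    ring
  rw [eA, eB] at hin
  have hb := SB9b_best P n M hy
  rw [hin] at hb
  refine le_trans ?_ hb
  have hD := (hij α β).1
  refine core_opt (a := ⟨n, M, lst n g₀, s, i, j, α, β⟩) hD
    (T1_le_kk hD h.dm (h.thin n hn)) hx ?_ (hij α β).2 ?_ ?_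
  · intro v hv
    change fv n (lst n g₀) v ≠ 0 at hv
    change x v = fv n (lst n g₀) v
    rw [hfg v] at hv ⊢
    by_cases hvH : v ∈ H
    · rw [if_pos hvH]
    · rw [if_neg hvH] at hv
      exact absurd rfl hv
  · change α = _
    rw [hα]
    exact SB9b_alp P M (lst n g₀) s i j 0 0 _ _ x
  · change β = _
    rw [hβ]
    exact SB9b_bet P M (lst n g₀) s i j 0 0 _ _ x

end Pool.Agent.MPa9445a.BE
end
end

section

/-! The result of the algorithm. -/

set_option autoImplicit false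

open Finset

namespace Pool.Agent.MPa9445a.BE

variable {n : ℕ}

private theorem SB9_Phi (M : List ℤ) (c : ℕ) :
    Phi n M (vec n c) = bq (wtm n M) (fv n (vec n c)) (fv n (vec n c)) := bil_eq n M _ _

/-- The chosen code is at least as good as every sign vector. -/
private theorem SB9_best {P : Prm} {r δ : ℝ} (h : Good P r δ)
    (hR : ∀ n : ℕ, P.n₀ ≤ n → OptR P.p r n) (he : Even n)
    (G : SimpleGraph (Fin n)) {M : List ℤ} (hA : fm n M = adjZ G)
    (hC : ClassR r P.M G) : ∀ y ∈ Om (univ : Finset (Fin n)),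
      bq (wtm n M) y y ≤ Phi n M (vec n (best P n M)) := by
  by_cases hn : n < P.n₀
  · intro y hy
    unfold best
    rw [if_pos hn]
    exact brute_opt hy
  · have hn' : P.n₀ ≤ n := not_lt.1 hn
    have hne : (Om (univ : Finset (Fin n))).Nonempty := ⟨_, vec_mem n 0⟩
    obtain ⟨x, hx, hmax⟩ := Finset.exists_max_image (Om (univ : Finset (Fin n)))
      (fun y => bq (wtm n M) y y) hne
    have hMn : 60 ≤ P.M := le_trans (by norm_num) h.M100
    have key : bq (wtm n M) x x ≤ Phi n M (vec n (best1 P n M)) ∨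
        bq (wtm n M) x x ≤ Phi n M (vec n (best2 n M)) := by
      obtain ⟨H, ⟨hH, hE⟩ | ⟨hH, hG'⟩⟩ := hC
      · have hH60 : 60 * H.card ≤ n := by
          have : H.card * 60 ≤ H.card * P.M := Nat.mul_le_mul_left _ hMn
          omega
        rcases hE with hE | hE | hE | hE
        · by_cases hb : subG G H = ⊥
          · exact Or.inr (best2_opt h hn' he G hA hH60 (Or.inl hb) hx hmax)
          · exact Or.inl (best1_opt h hn' G hA hH (Or.inl rfl) hE hb hx hmax)
        · by_cases hb : subG Gᶜ H = ⊥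
          · exact Or.inr (best2_opt h hn' he G hA hH60 (Or.inr hb) hx hmax)
          · exact Or.inl (best1_opt h hn' G hA hH (Or.inr rfl) hE hb hx hmax)
        · by_cases hb : subG G H = ⊥
          · exact Or.inr (best2_opt h hn' he G hA hH60 (Or.inl hb) hx hmax)
          · exact Or.inl (best1_optR h hR hn' G hA hH (Or.inl ⟨rfl, hE⟩) hb hx hmax)
        · by_cases hb : subG Gᶜ H = ⊥
          · exact Or.inr (best2_opt h hn' he G hA hH60 (Or.inr hb) hx hmax)
          · exact Or.inl (best1_optR h hR hn' G hA hH (Or.inr ⟨rfl, hE⟩) hb hx hmax)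
      · exact Or.inr (best2_opt h hn' he G hA hH hG' hx hmax)
    intro y hy
    refine (hmax y hy).trans ?_
    unfold best
    rw [if_neg hn]
    split_ifs with hle
    · rcases key with hk | hk
      · exact hk
      · exact hk.trans hle
    · rcases key with hk | hk
      · exact hk.trans (not_le.1 hle).le
      · exact hk

/-- The result is correct. -/
theorem out_correctR {P : Prm} {r δ : ℝ} (h : Good P r δ)
    (hR : ∀ n : ℕ, P.n₀ ≤ n → OptR P.p r n) (he : Even n)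
    (G : SimpleGraph (Fin n)) {M : List ℤ} (hA : fm n M = adjZ G)
    (hC : ClassR r P.M G) :
    IsMinBisection G (univ.filter fun v : Fin n => gt (out P n M) v = 1) := by
  have hbest := SB9_best h hR he G hA hC
  rw [SB9_Phi] at hbest
  have hout : ∀ v : Fin n, gt (out P n M) v = (bit (best P n M) v : ℤ) := fun v =>
    fv_tb n (fun v => (bit (best P n M) v : ℤ)) v
  have hvec : ∀ v : Fin n, fv n (vec n (best P n M)) v = 2 * (bit (best P n M) v : ℤ) - 1 :=
    fun v => fv_tb n (fun v => 2 * (bit (best P n M) v : ℤ) - 1) v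
  have hbit : ∀ v : ℕ, bit (best P n M) v < 2 := fun v => Nat.mod_lt _ (by norm_num)
  have hX : fv n (vec n (best P n M)) = fun v : Fin n =>
      if v ∈ (univ.filter fun v : Fin n => gt (out P n M) v = 1) then 1 else -1 := by
    funext v
    rw [hvec]
    simp only [mem_filter, mem_univ, true_and, hout]
    have := hbit v
    interval_cases hb : bit (best P n M) v <;> simp
  rw [hX] at hbest
  exact min_of_max he G hA hbest

end Pool.Agent.MPa9445a.BE
end
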